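import Mathlib
import Pool.Agent.Lib.MP_4aa2a9_ag.DQ.Alg
import Pool.Agent.Lib.MP_4aa2a9_ag.DQ.OffR

section

/-!
# Official statement layer for MP_4aa2a9_ag and MP_b4eb46_ag (campaign DQ)

* `Sh X` : sheaf of `ℂ[[ħ]]`-modules on a topological space `X`.
* `Algebroid X` : `ℂ[[ħ]]`-algebroid on `X`: local objects `i` with domains `dom i`, sheaves of
  morphisms `Hom i j` on `dom i ∩ dom j`, bilinear composition; the domains cover `X` and any two
  objects are locally isomorphic.
* `Mod A D` : (left) module over `A` on the open set `D` (a functor from the local objects to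
  sheaves).
* `Mod.Coherent`, `Mod.push` (= `j_*`), `Mod.ExtZero`, `Mod.Reflexive` (`Alg.lean` has the
  algebraic definitions `IsRes`, `ExtZero`, `IsResExt`, `BidualBij`).
* `IsStar`, `IsDQ`, `IsAnalytic`, `HasCodimGE`, `IsLoc`, `IsLattice`, `StatementA`, `StatementB`.
-/

open TopologicalSpace Topology

universe u

namespace Pool.Agent.DQ

/-- the coefficient ring `ℂ[[ħ]]` -/
abbrev K : Type := PowerSeries ℂ

/-- the parameter `ħ` -/
noncomputable abbrev hbar : K := PowerSeries.X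

/-- A sheaf of `ℂ[[ħ]]`-modules on `X`.  (A sheaf on an open subset `D` of `X` is represented by
its direct image on `X`; only its sections over open sets `V ≤ D` are ever used.) -/
structure Sh (X : Type u) [TopologicalSpace X] where
  sec : Opens X → Type u
  [grp : ∀ V, AddCommGroup (sec V)]
  [mod : ∀ V, Module K (sec V)]
  res : ∀ {V W : Opens X}, V ≤ W → sec W →ₗ[K] sec V
  res_id : ∀ (V : Opens X) (s : sec V), res (le_refl V) s = s
  res_res : ∀ {V W Z : Opens X} (h : V ≤ W) (k : W ≤ Z) (s : sec Z),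
    res h (res k s) = res (h.trans k) s
  eq_of_locally : ∀ (V : Opens X) (s t : sec V),
    (∀ x ∈ V, ∃ (W : Opens X) (h : W ≤ V), x ∈ W ∧ res h s = res h t) → s = t
  glue : ∀ (V : Opens X) {ι : Type u} (U : ι → Opens X) (hU : ∀ a, U a ≤ V)
    (_ : ∀ x ∈ V, ∃ a, x ∈ U a) (s : ∀ a, sec (U a)),
    (∀ a b, res (inf_le_left : U a ⊓ U b ≤ U a) (s a) =
      res (inf_le_right : U a ⊓ U b ≤ U b) (s b)) →
    ∃ t : sec V, ∀ a, res (hU a) t = s a

attribute [instance] Sh.grp Sh.mod

/-- A `ℂ[[ħ]]`-algebroid on `X`, given by its local objects: the object `i` lives on the open set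
`dom i`, the morphisms between two objects form a sheaf `Hom i j` on `dom i ∩ dom j`
(`comp V b a` is `b ∘ a`; composition is only meaningful over subsets of the domains). -/
structure Algebroid (X : Type u) [TopologicalSpace X] where
  Obj : Type u
  dom : Obj → Opens X
  covers : ∀ x : X, ∃ i, x ∈ dom i
  Hom : Obj → Obj → Sh X
  one : ∀ (i : Obj) (V : Opens X), (Hom i i).sec V
  comp : ∀ {i j k : Obj} (V : Opens X),
    (Hom j k).sec V →ₗ[K] (Hom i j).sec V →ₗ[K] (Hom i k).sec V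
  res_one : ∀ (i : Obj) {V W : Opens X} (h : V ≤ W), W ≤ dom i →
    (Hom i i).res h (one i W) = one i V
  res_comp : ∀ {i j k : Obj} {V W : Opens X} (h : V ≤ W), W ≤ dom i → W ≤ dom j → W ≤ dom k →
    ∀ (b : (Hom j k).sec W) (a : (Hom i j).sec W),
    (Hom i k).res h (comp W b a) = comp V ((Hom j k).res h b) ((Hom i j).res h a)
  one_comp : ∀ {i j : Obj} (V : Opens X), V ≤ dom i → V ≤ dom j → ∀ a : (Hom i j).sec V,
    comp V (one j V) a = a
  comp_one : ∀ {i j : Obj} (V : Opens X), V ≤ dom i → V ≤ dom j → ∀ a : (Hom i j).sec V,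
    comp V a (one i V) = a
  assoc : ∀ {i j k l : Obj} (V : Opens X), V ≤ dom i → V ≤ dom j → V ≤ dom k → V ≤ dom l →
    ∀ (c : (Hom k l).sec V) (b : (Hom j k).sec V) (a : (Hom i j).sec V),
    comp V c (comp V b a) = comp V (comp V c b) a
  locally_iso : ∀ (i j : Obj) (x : X), x ∈ dom i → x ∈ dom j →
    ∃ V : Opens X, x ∈ V ∧ V ≤ dom i ∧ V ≤ dom j ∧
      ∃ (a : (Hom i j).sec V) (b : (Hom j i).sec V), comp V b a = one i V ∧ comp V a b = one j V

variable {X : Type u} [TopologicalSpace X]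

/-- A (left) module over the algebroid `A` on the open set `D`: sheaves `sh i` on `dom i ∩ D` on
which the morphisms of `A` act (i.e. a `ℂ[[ħ]]`-linear functor from `A` to sheaves on `D`). -/
structure Mod (A : Algebroid X) (D : Opens X) where
  sh : A.Obj → Sh X
  act : ∀ {i j : A.Obj} (V : Opens X),
    (A.Hom i j).sec V →ₗ[K] (sh i).sec V →ₗ[K] (sh j).sec V
  res_act : ∀ {i j : A.Obj} {V W : Opens X} (h : V ≤ W), W ≤ A.dom i → W ≤ A.dom j → W ≤ D →
    ∀ (a : (A.Hom i j).sec W) (s : (sh i).sec W),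
    (sh j).res h (act W a s) = act V ((A.Hom i j).res h a) ((sh i).res h s)
  one_act : ∀ {i : A.Obj} (V : Opens X), V ≤ A.dom i → V ≤ D → ∀ s : (sh i).sec V,
    act V (A.one i V) s = s
  comp_act : ∀ {i j k : A.Obj} (V : Opens X), V ≤ A.dom i → V ≤ A.dom j → V ≤ A.dom k → V ≤ D →
    ∀ (b : (A.Hom j k).sec V) (a : (A.Hom i j).sec V) (s : (sh i).sec V),
    act V (A.comp V b a) s = act V b (act V a s)

/-! ### Coherence -/

/-- The property `P` holds locally on the open set `V`. -/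
def Locally (V : Opens X) (P : ∀ W : Opens X, W ≤ V → Prop) : Prop :=
  ∀ x ∈ V, ∃ (W : Opens X) (h : W ≤ V), x ∈ W ∧ P W h

variable {A : Algebroid X} {D : Opens X}

/-- the restrictions to `V` of the sections `g 0, …, g (k-1)` over `U` generate `M` on `V`:
every section over `W ≤ V` is locally a linear combination of them. -/
def Mod.Generates (M : Mod A D) (i : A.Obj) (V : Opens X) {k : ℕ}
    (g : Fin k → (M.sh i).sec V) : Prop :=
  ∀ (W : Opens X) (hW : W ≤ V) (s : (M.sh i).sec W),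
    Locally W fun Z hZ => ∃ c : Fin k → (A.Hom i i).sec Z,
      (M.sh i).res hZ s = ∑ l, M.act Z (c l) ((M.sh i).res (hZ.trans hW) (g l))

/-- coherent module: locally finitely generated, and for finitely many sections `g l` over `U` the
module of relations is locally finitely generated. -/
def Mod.Coherent (M : Mod A D) : Prop :=
  (∀ i : A.Obj, Locally (A.dom i ⊓ D) fun V _ =>
    ∃ (k : ℕ) (g : Fin k → (M.sh i).sec V), M.Generates i V g) ∧
  ∀ (i : A.Obj) (U : Opens X), U ≤ A.dom i → U ≤ D → ∀ (k : ℕ) (g : Fin k → (M.sh i).sec U),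
    Locally U fun V hV => ∃ (m : ℕ) (r : Fin m → Fin k → (A.Hom i i).sec V),
      (∀ p, ∑ l, M.act V (r p l) ((M.sh i).res hV (g l)) = 0) ∧
      ∀ (W : Opens X) (hW : W ≤ V) (c : Fin k → (A.Hom i i).sec W),
        ∑ l, M.act W (c l) ((M.sh i).res (hW.trans hV) (g l)) = 0 →
        Locally W fun Z hZ => ∃ e : Fin m → (A.Hom i i).sec Z, ∀ l,
          (A.Hom i i).res hZ (c l) =
            ∑ p, A.comp Z (e p) ((A.Hom i i).res (hZ.trans hW) (r p l))

/-! ### Direct image -/

/-- direct image of a sheaf on `D`: sections over `V` are the sections over `V ∩ D` -/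
def Sh.push (F : Sh X) (D : Opens X) : Sh X where
  sec V := F.sec (V ⊓ D)
  res h := F.res (inf_le_inf_right D h)
  res_id V s := F.res_id _ s
  res_res h k s := F.res_res _ _ s
  eq_of_locally V s t hst := by
    apply F.eq_of_locally
    intro x hx
    obtain ⟨W, h, hxW, e⟩ := hst x hx.1
    exact ⟨W ⊓ D, inf_le_inf_right D h, ⟨hxW, hx.2⟩, e⟩
  glue V {ι} U hU hc s hs := by
    obtain ⟨t, ht⟩ := F.glue (V ⊓ D) (fun a => U a ⊓ D) (fun a => inf_le_inf_right D (hU a))
      (fun x hx => by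
        obtain ⟨a, ha⟩ := hc x hx.1
        exact ⟨a, ha, hx.2⟩) s (by
        intro a b
        have e := hs a b
        have e' := congrArg (F.res (le_inf (inf_le_inf inf_le_left inf_le_left)
          (inf_le_left.trans inf_le_right) : (U a ⊓ D) ⊓ (U b ⊓ D) ≤ (U a ⊓ U b) ⊓ D)) e
        rw [F.res_res, F.res_res] at e'
        exact e')
    exact ⟨t, ht⟩

/-- `j_* M` for the inclusion `j : D → X` -/
noncomputable def Mod.push (M : Mod A D) : Mod A ⊤ where
  sh i := (M.sh i).push D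
  act {i j} V :=
    { toFun := fun a => M.act (V ⊓ D) ((A.Hom i j).res inf_le_left a)
      map_add' := fun a b => by rw [map_add, map_add]; rfl
      map_smul' := fun c a => by rw [map_smul, map_smul]; rfl }
  res_act {i j V W} h hi hj _ a s := by
    have := M.res_act (inf_le_inf_right D h) (inf_le_left.trans hi) (inf_le_left.trans hj)
      inf_le_right ((A.Hom i j).res inf_le_left a) s
    rw [(A.Hom i j).res_res] at this
    change (M.sh j).res _ (M.act _ _ _) = M.act _ ((A.Hom i j).res _ ((A.Hom i j).res _ _)) _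
    rw [this, (A.Hom i j).res_res]
    rfl
  one_act {i} V hi _ s := by
    change M.act _ ((A.Hom i i).res _ _) _ = _
    rw [A.res_one i inf_le_left hi]
    exact M.one_act _ (inf_le_left.trans hi) inf_le_right s
  comp_act {i j k} V hi hj hk _ b a s := by
    change M.act _ ((A.Hom i k).res _ _) _ = M.act _ ((A.Hom j k).res _ _) (M.act _ _ _)
    rw [A.res_comp inf_le_left hi hj hk]
    exact M.comp_act _ (inf_le_left.trans hi) (inf_le_left.trans hj) (inf_le_left.trans hk)
      inf_le_right _ _ _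

/-! ### Stalks -/

/-- two local sections of `F` have the same germ at `x` -/
def Sh.germRel (F : Sh X) (x : X) (s t : Σ V : {V : Opens X // x ∈ V}, F.sec V.1) : Prop :=
  ∃ (W : Opens X) (h : W ≤ s.1.1) (k : W ≤ t.1.1), x ∈ W ∧ F.res h s.2 = F.res k t.2

/-- germ equality as a setoid -/
def Sh.germSetoid (F : Sh X) (x : X) : Setoid (Σ V : {V : Opens X // x ∈ V}, F.sec V.1) where
  r := F.germRel x
  iseqv := by
    refine ⟨fun s => ⟨s.1.1, le_refl _, le_refl _, s.1.2, rfl⟩, ?_, ?_⟩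
    · rintro s t ⟨W, h, k, hx, e⟩
      exact ⟨W, k, h, hx, e.symm⟩
    · rintro s t r ⟨W, h, k, hx, e⟩ ⟨W', h', k', hx', e'⟩
      refine ⟨W ⊓ W', inf_le_left.trans h, inf_le_right.trans k', ⟨hx, hx'⟩, ?_⟩
      have e1 := congrArg (F.res (inf_le_left : W ⊓ W' ≤ W)) e
      have e2 := congrArg (F.res (inf_le_right : W ⊓ W' ≤ W')) e'
      rw [F.res_res, F.res_res] at e1 e2
      exact e1.trans e2

/-- the stalk of `F` at `x` -/
def Sh.Stalk (F : Sh X) (x : X) : Type u := Quotient (F.germSetoid x)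

/-- the germ at `x` of a section over a neighbourhood of `x` -/
def Sh.germ (F : Sh X) (x : X) (V : Opens X) (hx : x ∈ V) (s : F.sec V) : F.Stalk x :=
  Quotient.mk (F.germSetoid x) ⟨⟨V, hx⟩, s⟩

theorem Sh.germ_eq_iff (F : Sh X) (x : X) {V W : Opens X} (hV : x ∈ V) (hW : x ∈ W)
    (s : F.sec V) (t : F.sec W) :
    F.germ x V hV s = F.germ x W hW t ↔
      ∃ (Z : Opens X) (h : Z ≤ V) (k : Z ≤ W), x ∈ Z ∧ F.res h s = F.res k t :=
  ⟨fun e => Quotient.exact e, fun e => Quotient.sound e⟩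

theorem Sh.germ_res (F : Sh X) (x : X) {V W : Opens X} (h : V ≤ W) (hV : x ∈ V)
    (s : F.sec W) : F.germ x V hV (F.res h s) = F.germ x W (h hV) s :=
  (F.germ_eq_iff x _ _ _ _).2 ⟨V, le_refl _, h, hV, by rw [F.res_id]⟩

theorem Sh.exists_germ (F : Sh X) (x : X) (g : F.Stalk x) :
    ∃ (V : Opens X) (hx : x ∈ V) (s : F.sec V), g = F.germ x V hx s := by
  obtain ⟨⟨⟨V, hx⟩, s⟩, e⟩ := Quotient.exists_rep g
  exact ⟨V, hx, s, e.symm⟩

theorem Sh.exists_germ₂ (F G : Sh X) (x : X) (g : F.Stalk x) (g' : G.Stalk x) :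
    ∃ (V : Opens X) (hx : x ∈ V) (s : F.sec V) (t : G.sec V),
      g = F.germ x V hx s ∧ g' = G.germ x V hx t := by
  obtain ⟨V, hV, s, rfl⟩ := F.exists_germ x g
  obtain ⟨W, hW, t, rfl⟩ := G.exists_germ x g'
  exact ⟨V ⊓ W, ⟨hV, hW⟩, F.res inf_le_left s, G.res inf_le_right t,
    (F.germ_res x inf_le_left ⟨hV, hW⟩ s).symm, (G.germ_res x inf_le_right ⟨hV, hW⟩ t).symm⟩

theorem Sh.exists_germ₃ (F : Sh X) (x : X) (g g' g'' : F.Stalk x) :
    ∃ (V : Opens X) (hx : x ∈ V) (s t r : F.sec V),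
      g = F.germ x V hx s ∧ g' = F.germ x V hx t ∧ g'' = F.germ x V hx r := by
  obtain ⟨V, hV, s, t, rfl, rfl⟩ := F.exists_germ₂ F x g g'
  obtain ⟨W, hW, r, rfl⟩ := F.exists_germ x g''
  exact ⟨V ⊓ W, ⟨hV, hW⟩, F.res inf_le_left s, F.res inf_le_left t, F.res inf_le_right r,
    (F.germ_res x inf_le_left ⟨hV, hW⟩ s).symm, (F.germ_res x inf_le_left ⟨hV, hW⟩ t).symm,
    (F.germ_res x inf_le_right ⟨hV, hW⟩ r).symm⟩

noncomputable instance Sh.instZeroStalk (F : Sh X) (x : X) : Zero (F.Stalk x) :=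
  ⟨F.germ x ⊤ (Opens.mem_top x) 0⟩

theorem Sh.germ_zero (F : Sh X) (x : X) {V : Opens X} (hV : x ∈ V) :
    F.germ x V hV 0 = 0 :=
  (F.germ_eq_iff x _ _ _ _).2 ⟨V, le_refl _, le_top, hV, by rw [map_zero, map_zero]⟩

noncomputable instance Sh.instAddStalk (F : Sh X) (x : X) : Add (F.Stalk x) :=
  ⟨Quotient.map₂ (fun s t => ⟨⟨s.1.1 ⊓ t.1.1, s.1.2, t.1.2⟩,
    F.res inf_le_left s.2 + F.res inf_le_right t.2⟩) (by
    rintro s s' ⟨W, h, k, hx, e⟩ t t' ⟨W', h', k', hx', e'⟩
    refine ⟨W ⊓ W', inf_le_inf h h', inf_le_inf k k', ⟨hx, hx'⟩, ?_⟩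
    have e1 := congrArg (F.res (inf_le_left : W ⊓ W' ≤ W)) e
    have e2 := congrArg (F.res (inf_le_right : W ⊓ W' ≤ W')) e'
    simp only [F.res_res] at e1 e2
    simp only [map_add, F.res_res, e1, e2])⟩

theorem Sh.germ_add (F : Sh X) (x : X) {V : Opens X} (hV : x ∈ V) (s t : F.sec V) :
    F.germ x V hV (s + t) = F.germ x V hV s + F.germ x V hV t := by
  refine (F.germ_eq_iff x _ _ _ _).2 ⟨V, le_refl _, le_inf (le_refl _) (le_refl _), hV, ?_⟩
  simp only [map_add, F.res_res]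

noncomputable instance Sh.instNegStalk (F : Sh X) (x : X) : Neg (F.Stalk x) :=
  ⟨Quotient.map (fun s => ⟨s.1, - s.2⟩) (by
    rintro s s' ⟨W, h, k, hx, e⟩
    exact ⟨W, h, k, hx, by rw [map_neg, map_neg, e]⟩)⟩

theorem Sh.germ_neg (F : Sh X) (x : X) {V : Opens X} (hV : x ∈ V) (s : F.sec V) :
    F.germ x V hV (-s) = - F.germ x V hV s := rfl

noncomputable instance Sh.instSMulStalk (F : Sh X) (x : X) : SMul K (F.Stalk x) :=
  ⟨fun c => Quotient.map (fun s => ⟨s.1, c • s.2⟩) (by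
    rintro s s' ⟨W, h, k, hx, e⟩
    exact ⟨W, h, k, hx, by rw [map_smul, map_smul, e]⟩)⟩

theorem Sh.germ_smul (F : Sh X) (x : X) {V : Opens X} (hV : x ∈ V) (c : K) (s : F.sec V) :
    F.germ x V hV (c • s) = c • F.germ x V hV s := rfl

noncomputable instance Sh.instAddCommGroupStalk (F : Sh X) (x : X) :
    AddCommGroup (F.Stalk x) where
  add_assoc a b c := by
    obtain ⟨V, hx, s, t, r, rfl, rfl, rfl⟩ := F.exists_germ₃ x a b c
    simp only [← F.germ_add, add_assoc]
  zero_add a := by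
    obtain ⟨V, hx, s, rfl⟩ := F.exists_germ x a
    rw [← F.germ_zero x hx, ← F.germ_add, zero_add]
  add_zero a := by
    obtain ⟨V, hx, s, rfl⟩ := F.exists_germ x a
    rw [← F.germ_zero x hx, ← F.germ_add, add_zero]
  nsmul := nsmulRec
  zsmul := zsmulRec
  neg_add_cancel a := by
    obtain ⟨V, hx, s, rfl⟩ := F.exists_germ x a
    rw [← F.germ_zero x hx, ← F.germ_neg, ← F.germ_add, neg_add_cancel]
  add_comm a b := by
    obtain ⟨V, hx, s, t, rfl, rfl⟩ := F.exists_germ₂ F x a b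
    simp only [← F.germ_add, add_comm]

noncomputable instance Sh.instModuleStalk (F : Sh X) (x : X) : Module K (F.Stalk x) where
  one_smul a := by
    obtain ⟨V, hx, s, rfl⟩ := F.exists_germ x a
    rw [← F.germ_smul, one_smul]
  mul_smul c c' a := by
    obtain ⟨V, hx, s, rfl⟩ := F.exists_germ x a
    simp only [← F.germ_smul, mul_smul]
  smul_zero c := by
    rw [← F.germ_zero x (Opens.mem_top x), ← F.germ_smul, smul_zero]
  smul_add c a b := by
    obtain ⟨V, hx, s, t, rfl, rfl⟩ := F.exists_germ₂ F x a b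
    simp only [← F.germ_smul, ← F.germ_add, smul_add]
  add_smul c c' a := by
    obtain ⟨V, hx, s, rfl⟩ := F.exists_germ x a
    simp only [← F.germ_smul, ← F.germ_add, add_smul]
  zero_smul a := by
    obtain ⟨V, hx, s, rfl⟩ := F.exists_germ x a
    rw [← F.germ_smul, zero_smul, F.germ_zero]

/-- the stalk at `x ∈ dom i` of the sheaf of algebras `End i` -/
def Algebroid.R (A : Algebroid X) (i : A.Obj) (x : A.dom i) : Type u := (A.Hom i i).Stalk x.1

variable (A) in
noncomputable instance (i : A.Obj) (x : A.dom i) : AddCommGroup (A.R i x) :=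
  inferInstanceAs (AddCommGroup ((A.Hom i i).Stalk x.1))

variable (A) in
noncomputable instance (i : A.Obj) (x : A.dom i) : Module K (A.R i x) :=
  inferInstanceAs (Module K ((A.Hom i i).Stalk x.1))

variable (A) in
noncomputable instance (i : A.Obj) (x : A.dom i) : Mul (A.R i x) :=
  ⟨Quotient.map₂ (fun b a => ⟨⟨(b.1.1 ⊓ a.1.1) ⊓ A.dom i, ⟨b.1.2, a.1.2⟩, x.2⟩,
    A.comp _ ((A.Hom i i).res (inf_le_left.trans inf_le_left) b.2)
      ((A.Hom i i).res (inf_le_left.trans inf_le_right) a.2)⟩) (by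
    rintro s s' ⟨W, h, k, hx, e⟩ t t' ⟨W', h', k', hx', e'⟩
    refine ⟨(W ⊓ W') ⊓ A.dom i, inf_le_inf_right _ (inf_le_inf h h'),
      inf_le_inf_right _ (inf_le_inf k k'), ⟨⟨hx, hx'⟩, x.2⟩, ?_⟩
    have e1 := congrArg ((A.Hom i i).res (inf_le_left.trans inf_le_left :
      (W ⊓ W') ⊓ A.dom i ≤ W)) e
    have e2 := congrArg ((A.Hom i i).res (inf_le_left.trans inf_le_right :
      (W ⊓ W') ⊓ A.dom i ≤ W')) e'
    simp only [Sh.res_res] at e1 e2
    rw [A.res_comp _ inf_le_right inf_le_right inf_le_right,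
      A.res_comp _ inf_le_right inf_le_right inf_le_right]
    simp only [Sh.res_res]
    rw [e1, e2])⟩

variable (A) in
noncomputable instance (i : A.Obj) (x : A.dom i) : One (A.R i x) :=
  ⟨(A.Hom i i).germ x.1 (A.dom i) x.2 (A.one i _)⟩

/-- germ in `A.R i x` of a section of `End i` -/
def Algebroid.gm (A : Algebroid X) (i : A.Obj) (x : A.dom i) (V : Opens X) (hx : x.1 ∈ V)
    (a : (A.Hom i i).sec V) : A.R i x := (A.Hom i i).germ x.1 V hx a

theorem Algebroid.gm_mul (A : Algebroid X) (i : A.Obj) (x : A.dom i) {V : Opens X}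
    (hx : x.1 ∈ V) (hV : V ≤ A.dom i) (b a : (A.Hom i i).sec V) :
    A.gm i x V hx (A.comp V b a) = A.gm i x V hx b * A.gm i x V hx a := by
  refine ((A.Hom i i).germ_eq_iff x.1 _ _ _ _).2
    ⟨V, le_refl _, le_inf (le_inf (le_refl _) (le_refl _)) hV, hx, ?_⟩
  rw [A.res_comp _ inf_le_right inf_le_right inf_le_right]
  simp only [Sh.res_res, Sh.res_id]

theorem Algebroid.gm_one (A : Algebroid X) (i : A.Obj) (x : A.dom i) {V : Opens X}
    (hx : x.1 ∈ V) (hV : V ≤ A.dom i) : A.gm i x V hx (A.one i V) = 1 := by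
  refine ((A.Hom i i).germ_eq_iff x.1 _ _ _ _).2 ⟨V, le_refl _, hV, hx, ?_⟩
  rw [A.res_one _ _ hV, A.res_one _ _ le_rfl]

theorem Algebroid.exists_gm₃ (A : Algebroid X) (i : A.Obj) (x : A.dom i) (a b c : A.R i x) :
    ∃ (V : Opens X) (hx : x.1 ∈ V) (_ : V ≤ A.dom i) (s t r : (A.Hom i i).sec V),
      a = A.gm i x V hx s ∧ b = A.gm i x V hx t ∧ c = A.gm i x V hx r := by
  obtain ⟨V, hV, s, t, r, rfl, rfl, rfl⟩ := (A.Hom i i).exists_germ₃ x.1 a b c
  exact ⟨V ⊓ A.dom i, ⟨hV, x.2⟩, inf_le_right, (A.Hom i i).res inf_le_left s,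
    (A.Hom i i).res inf_le_left t, (A.Hom i i).res inf_le_left r,
    ((A.Hom i i).germ_res x.1 inf_le_left ⟨hV, x.2⟩ s).symm,
    ((A.Hom i i).germ_res x.1 inf_le_left ⟨hV, x.2⟩ t).symm,
    ((A.Hom i i).germ_res x.1 inf_le_left ⟨hV, x.2⟩ r).symm⟩

theorem Algebroid.gm_add (A : Algebroid X) (i : A.Obj) (x : A.dom i) {V : Opens X}
    (hx : x.1 ∈ V) (b a : (A.Hom i i).sec V) :
    A.gm i x V hx (b + a) = A.gm i x V hx b + A.gm i x V hx a :=
  (A.Hom i i).germ_add x.1 hx b a

theorem Algebroid.gm_zero (A : Algebroid X) (i : A.Obj) (x : A.dom i) {V : Opens X}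
    (hx : x.1 ∈ V) : A.gm i x V hx 0 = 0 :=
  (A.Hom i i).germ_zero x.1 hx

variable (A) in
noncomputable instance (i : A.Obj) (x : A.dom i) : Ring (A.R i x) :=
  { (inferInstance : AddCommGroup (A.R i x)), (inferInstance : Mul (A.R i x)),
    (inferInstance : One (A.R i x)) with
    mul_assoc := fun a b c => by
      obtain ⟨V, hx, hV, s, t, r, rfl, rfl, rfl⟩ := A.exists_gm₃ i x a b c
      rw [← A.gm_mul i x hx hV, ← A.gm_mul i x hx hV, ← A.gm_mul i x hx hV,
        ← A.gm_mul i x hx hV, A.assoc V hV hV hV hV]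
    one_mul := fun a => by
      obtain ⟨V, hx, hV, s, t, r, rfl, -, -⟩ := A.exists_gm₃ i x a a a
      rw [← A.gm_one i x hx hV, ← A.gm_mul i x hx hV, A.one_comp V hV hV]
    mul_one := fun a => by
      obtain ⟨V, hx, hV, s, t, r, rfl, -, -⟩ := A.exists_gm₃ i x a a a
      rw [← A.gm_one i x hx hV, ← A.gm_mul i x hx hV, A.comp_one V hV hV]
    left_distrib := fun a b c => by
      obtain ⟨V, hx, hV, s, t, r, rfl, rfl, rfl⟩ := A.exists_gm₃ i x a b c
      simp only [← A.gm_mul i x hx hV, ← A.gm_add, map_add]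
    right_distrib := fun a b c => by
      obtain ⟨V, hx, hV, s, t, r, rfl, rfl, rfl⟩ := A.exists_gm₃ i x a b c
      simp only [← A.gm_mul i x hx hV, ← A.gm_add, map_add, LinearMap.add_apply]
    zero_mul := fun a => by
      obtain ⟨V, hx, hV, s, t, r, rfl, -, -⟩ := A.exists_gm₃ i x a a a
      simp only [← A.gm_zero i x hx, ← A.gm_mul i x hx hV, map_zero, LinearMap.zero_apply]
    mul_zero := fun a => by
      obtain ⟨V, hx, hV, s, t, r, rfl, -, -⟩ := A.exists_gm₃ i x a a a
      simp only [← A.gm_zero i x hx, ← A.gm_mul i x hx hV, map_zero]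
    zsmul := zsmulRec }

/-! ### Stalks of modules -/

/-- the point `x ∈ dom i ∩ D` as a point of `dom i` -/
abbrev Algebroid.pt (A : Algebroid X) {D : Opens X} (i : A.Obj) (x : ↥(A.dom i ⊓ D)) : A.dom i :=
  ⟨x.1, x.2.1⟩

/-- the stalk of the module `M` (at the object `i`) at `x` -/
def Mod.St (M : Mod A D) (i : A.Obj) (x : ↥(A.dom i ⊓ D)) : Type u := (M.sh i).Stalk x.1

noncomputable instance (M : Mod A D) (i : A.Obj) (x : ↥(A.dom i ⊓ D)) :
    AddCommGroup (M.St i x) :=
  inferInstanceAs (AddCommGroup ((M.sh i).Stalk x.1))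

noncomputable instance (M : Mod A D) (i : A.Obj) (x : ↥(A.dom i ⊓ D)) :
    SMul (A.R i (A.pt i x)) (M.St i x) :=
  ⟨Quotient.map₂ (fun a s => ⟨⟨(a.1.1 ⊓ s.1.1) ⊓ (A.dom i ⊓ D), ⟨a.1.2, s.1.2⟩, x.2⟩,
    M.act _ ((A.Hom i i).res (inf_le_left.trans inf_le_left) a.2)
      ((M.sh i).res (inf_le_left.trans inf_le_right) s.2)⟩) (by
    rintro s s' ⟨W, h, k, hx, e⟩ t t' ⟨W', h', k', hx', e'⟩
    refine ⟨(W ⊓ W') ⊓ (A.dom i ⊓ D), inf_le_inf_right _ (inf_le_inf h h'),
      inf_le_inf_right _ (inf_le_inf k k'), ⟨⟨hx, hx'⟩, x.2⟩, ?_⟩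
    have e1 := congrArg ((A.Hom i i).res (inf_le_left.trans inf_le_left :
      (W ⊓ W') ⊓ (A.dom i ⊓ D) ≤ W)) e
    have e2 := congrArg ((M.sh i).res (inf_le_left.trans inf_le_right :
      (W ⊓ W') ⊓ (A.dom i ⊓ D) ≤ W')) e'
    simp only [Sh.res_res] at e1 e2
    rw [M.res_act _ (inf_le_right.trans inf_le_left) (inf_le_right.trans inf_le_left)
        (inf_le_right.trans inf_le_right),
      M.res_act _ (inf_le_right.trans inf_le_left) (inf_le_right.trans inf_le_left)
        (inf_le_right.trans inf_le_right)]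
    simp only [Sh.res_res]
    rw [e1, e2])⟩

/-- germ of a section of the module `M` -/
def Mod.gm (M : Mod A D) (i : A.Obj) (x : ↥(A.dom i ⊓ D)) (V : Opens X) (hx : x.1 ∈ V)
    (s : (M.sh i).sec V) : M.St i x := (M.sh i).germ x.1 V hx s

theorem Mod.gm_smul (M : Mod A D) (i : A.Obj) (x : ↥(A.dom i ⊓ D)) {V : Opens X}
    (hx : x.1 ∈ V) (hV : V ≤ A.dom i ⊓ D) (a : (A.Hom i i).sec V) (s : (M.sh i).sec V) :
    M.gm i x V hx (M.act V a s) = A.gm i (A.pt i x) V hx a • M.gm i x V hx s := by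
  refine ((M.sh i).germ_eq_iff x.1 _ _ _ _).2
    ⟨V, le_refl _, le_inf (le_inf (le_refl _) (le_refl _)) hV, hx, ?_⟩
  rw [M.res_act _ (inf_le_right.trans inf_le_left) (inf_le_right.trans inf_le_left)
        (inf_le_right.trans inf_le_right)]
  simp only [Sh.res_res, Sh.res_id]

theorem Mod.gm_add (M : Mod A D) (i : A.Obj) (x : ↥(A.dom i ⊓ D)) {V : Opens X}
    (hx : x.1 ∈ V) (s t : (M.sh i).sec V) :
    M.gm i x V hx (s + t) = M.gm i x V hx s + M.gm i x V hx t :=
  (M.sh i).germ_add x.1 hx s t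

theorem Mod.gm_zero (M : Mod A D) (i : A.Obj) (x : ↥(A.dom i ⊓ D)) {V : Opens X}
    (hx : x.1 ∈ V) : M.gm i x V hx 0 = 0 :=
  (M.sh i).germ_zero x.1 hx

theorem Mod.exists_gm (M : Mod A D) (i : A.Obj) (x : ↥(A.dom i ⊓ D)) (a b : A.R i (A.pt i x))
    (m m' : M.St i x) :
    ∃ (V : Opens X) (hx : x.1 ∈ V) (_ : V ≤ A.dom i ⊓ D) (s t : (A.Hom i i).sec V)
      (r r' : (M.sh i).sec V),
      a = A.gm i (A.pt i x) V hx s ∧ b = A.gm i (A.pt i x) V hx t ∧
      m = M.gm i x V hx r ∧ m' = M.gm i x V hx r' := by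
  obtain ⟨V, hV, s, t, rfl, rfl⟩ := Sh.exists_germ₂ (A.Hom i i) (A.Hom i i) x.1 a b
  obtain ⟨W, hW, r, r', rfl, rfl⟩ := Sh.exists_germ₂ (M.sh i) (M.sh i) x.1 m m'
  have h1 : (V ⊓ W) ⊓ (A.dom i ⊓ D) ≤ V := inf_le_left.trans inf_le_left
  have h2 : (V ⊓ W) ⊓ (A.dom i ⊓ D) ≤ W := inf_le_left.trans inf_le_right
  exact ⟨(V ⊓ W) ⊓ (A.dom i ⊓ D), ⟨⟨hV, hW⟩, x.2⟩, inf_le_right, (A.Hom i i).res h1 s,
    (A.Hom i i).res h1 t, (M.sh i).res h2 r, (M.sh i).res h2 r',
    ((A.Hom i i).germ_res x.1 h1 ⟨⟨hV, hW⟩, x.2⟩ s).symm,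
    ((A.Hom i i).germ_res x.1 h1 ⟨⟨hV, hW⟩, x.2⟩ t).symm,
    ((M.sh i).germ_res x.1 h2 ⟨⟨hV, hW⟩, x.2⟩ r).symm,
    ((M.sh i).germ_res x.1 h2 ⟨⟨hV, hW⟩, x.2⟩ r').symm⟩

noncomputable instance (M : Mod A D) (i : A.Obj) (x : ↥(A.dom i ⊓ D)) :
    Module (A.R i (A.pt i x)) (M.St i x) where
  one_smul m := by
    obtain ⟨V, hx, hV, s, t, r, r', -, -, rfl, -⟩ := M.exists_gm i x 1 1 m m
    rw [← A.gm_one i (A.pt i x) hx (hV.trans inf_le_left), ← M.gm_smul i x hx hV,
      M.one_act V (hV.trans inf_le_left) (hV.trans inf_le_right)]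
  mul_smul a b m := by
    obtain ⟨V, hx, hV, s, t, r, r', rfl, rfl, rfl, -⟩ := M.exists_gm i x a b m m
    rw [← A.gm_mul i (A.pt i x) hx (hV.trans inf_le_left), ← M.gm_smul i x hx hV,
      ← M.gm_smul i x hx hV, ← M.gm_smul i x hx hV,
      M.comp_act V (hV.trans inf_le_left) (hV.trans inf_le_left) (hV.trans inf_le_left)
        (hV.trans inf_le_right)]
  smul_zero a := by
    obtain ⟨V, hx, hV, s, t, r, r', rfl, -, -, -⟩ := M.exists_gm i x a a 0 0
    rw [← M.gm_zero i x hx, ← M.gm_smul i x hx hV, map_zero]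
  smul_add a m m' := by
    obtain ⟨V, hx, hV, s, t, r, r', rfl, -, rfl, rfl⟩ := M.exists_gm i x a a m m'
    rw [← M.gm_add i x hx, ← M.gm_smul i x hx hV, ← M.gm_smul i x hx hV, ← M.gm_smul i x hx hV,
      ← M.gm_add i x hx, map_add]
  add_smul a b m := by
    obtain ⟨V, hx, hV, s, t, r, r', rfl, rfl, rfl, -⟩ := M.exists_gm i x a b m m
    rw [← A.gm_add, ← M.gm_smul i x hx hV, ← M.gm_smul i x hx hV, ← M.gm_smul i x hx hV,
      ← M.gm_add i x hx, map_add, LinearMap.add_apply]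
  zero_smul m := by
    obtain ⟨V, hx, hV, s, t, r, r', -, -, rfl, -⟩ := M.exists_gm i x 1 1 m m
    rw [← A.gm_zero i (A.pt i x) hx, ← M.gm_smul i x hx hV, map_zero, LinearMap.zero_apply,
      M.gm_zero]

/-! ### `Ext` and reflexivity -/

/-- `Ext^j_A(M, A) = 0` (for coherent `M` the stalks of this sheaf are the
`Ext^j_{A_x}(M_x, A_x)`) -/
def Mod.ExtZero (M : Mod A D) (j : ℕ) : Prop :=
  ∀ (i : A.Obj) (x : ↥(A.dom i ⊓ D)), Pool.Agent.DQ.ExtZero (A.R i (A.pt i x)) (M.St i x) j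

/-- `M` is `d`-reflexive: no `ħ`-torsion, `Ext^j_A(M, A) = 0` for `j < d`, and
`M → Ext^d_A(Ext^d_A(M, A), A)` is an isomorphism. -/
def Mod.Reflexive (M : Mod A D) (d : ℕ) : Prop :=
  (∀ (i : A.Obj) (V : Opens X), V ≤ A.dom i → V ≤ D → ∀ s : (M.sh i).sec V,
    hbar • s = 0 → s = 0) ∧
  (∀ j < d, M.ExtZero j) ∧
  ∀ (i : A.Obj) (x : ↥(A.dom i ⊓ D)), BidualBij (A.R i (A.pt i x)) (M.St i x) d

/-! ### Star products on open subsets of `ℂ^n` -/

section star

variable {n : ℕ}

/-- `∂f/∂z_a` -/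
noncomputable def dz (a : Fin n) (f : (Fin n → ℂ) → ℂ) : (Fin n → ℂ) → ℂ :=
  fun z => fderiv ℂ f z (Pi.single a 1)

/-- iterated derivative along a list of coordinates -/
noncomputable def dzs (l : List (Fin n)) (f : (Fin n → ℂ) → ℂ) : (Fin n → ℂ) → ℂ :=
  l.foldr dz f

/-- a bidifferential operator: a finite sum of terms `c(z) ∂_l f ∂_m g` -/
abbrev BiDiff (n : ℕ) : Type :=
  List (((Fin n → ℂ) → ℂ) × List (Fin n) × List (Fin n))

/-- value of a bidifferential operator -/
noncomputable def BiDiff.ev (P : BiDiff n) (f g : (Fin n → ℂ) → ℂ) (z : Fin n → ℂ) : ℂ :=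
  (P.map fun t => t.1 z * dzs t.2.1 f z * dzs t.2.2 g z).sum

/-- `f ⋆ g = ∑ P_k(f_i, g_j) ħ^{i+j+k}` for `f = ∑ f_i ħ^i`, `g = ∑ g_j ħ^j` -/
noncomputable def starMul (P : ℕ → BiDiff n) (f g : ℕ → (Fin n → ℂ) → ℂ) :
    ℕ → (Fin n → ℂ) → ℂ :=
  fun m z => ∑ p ∈ Finset.HasAntidiagonal.antidiagonal m, ∑ q ∈ Finset.HasAntidiagonal.antidiagonal p.2,
    (P p.1).ev (f q.1) (g q.2) z

/-- a star product on the open subset `W` of `ℂ^n` -/
structure IsStar (W : Set (Fin n → ℂ)) (P : ℕ → BiDiff n) : Prop where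
  hol : ∀ k, ∀ t ∈ P k, DifferentiableOn ℂ t.1 W
  zero : ∀ V ⊆ W, IsOpen V → ∀ f g : (Fin n → ℂ) → ℂ,
    DifferentiableOn ℂ f V → DifferentiableOn ℂ g V → ∀ z ∈ V, (P 0).ev f g z = f z * g z
  unit : ∀ V ⊆ W, IsOpen V → ∀ f : (Fin n → ℂ) → ℂ,
    DifferentiableOn ℂ f V → ∀ k, 1 ≤ k → ∀ z ∈ V,
      (P k).ev f (fun _ => 1) z = 0 ∧ (P k).ev (fun _ => 1) f z = 0
  assoc : ∀ V ⊆ W, IsOpen V → ∀ f g h : ℕ → (Fin n → ℂ) → ℂ,
    (∀ k, DifferentiableOn ℂ (f k) V) → (∀ k, DifferentiableOn ℂ (g k) V) →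
    (∀ k, DifferentiableOn ℂ (h k) V) → ∀ m, ∀ z ∈ V,
      starMul P (starMul P f g) h m z = starMul P f (starMul P g h) m z

/-- sections of `O[[ħ]]` over `V`, normalised to vanish outside `V` -/
def IsHolSeq (V : Set (Fin n → ℂ)) (f : ℕ → (Fin n → ℂ) → ℂ) : Prop :=
  ∀ k, DifferentiableOn ℂ (f k) V ∧ ∀ z ∉ V, f k z = 0

end star

/-! ### Complex manifolds, DQ-algebroids, analytic sets -/

section manifold

open scoped Manifold ContDiff

variable (n : ℕ) (X : Type u) [TopologicalSpace X] [ChartedSpace (Fin n → ℂ) X]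

/-- holomorphic coordinate charts of the complex manifold `X` -/
abbrev Chart : Set (OpenPartialHomeomorph X (Fin n → ℂ)) :=
  IsManifold.maximalAtlas 𝓘(ℂ, Fin n → ℂ) ω X

variable {X}

/-- `End i`, over the open set `V` in the domain of the chart `e`, is isomorphic (by `Θ`) to the
star algebra of `P` on `e(V)`. -/
structure IsStarChart (A : Algebroid X) (i : A.Obj) (e : OpenPartialHomeomorph X (Fin n → ℂ))
    (V : Opens X) (P : ℕ → BiDiff n)
    (Θ : ∀ W : Opens X, (A.Hom i i).sec W → ℕ → (Fin n → ℂ) → ℂ) : Prop where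
  dom : V ≤ A.dom i
  src : (V : Set X) ⊆ e.source
  star : IsStar (e '' V) P
  hol : ∀ W ≤ V, ∀ a, IsHolSeq (e '' W) (Θ W a)
  surj : ∀ W ≤ V, ∀ f, IsHolSeq (e '' W) f → ∃ a, Θ W a = f
  inj : ∀ W ≤ V, ∀ a b, Θ W a = Θ W b → a = b
  add : ∀ W ≤ V, ∀ a b, Θ W (a + b) = Θ W a + Θ W b
  smul : ∀ W ≤ V, ∀ (c : K) (a) (m : ℕ), Θ W (c • a) m =
    ∑ p ∈ Finset.HasAntidiagonal.antidiagonal m, PowerSeries.coeff p.1 c • Θ W a p.2
  mul : ∀ W ≤ V, ∀ b a m, ∀ z ∈ e '' W,
    Θ W (A.comp W b a) m z = starMul P (Θ W b) (Θ W a) m z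
  res : ∀ (W W' : Opens X) (h : W' ≤ W), W ≤ V → ∀ a m, ∀ z ∈ e '' W',
    Θ W' ((A.Hom i i).res h a) m z = Θ W a m z

/-- DQ-algebroid: locally equivalent to star algebras -/
def IsDQ (A : Algebroid X) : Prop :=
  ∀ (i : A.Obj) (x : X), x ∈ A.dom i → ∃ e ∈ Chart n X, ∃ (V : Opens X) (P : ℕ → BiDiff n)
    (Θ : ∀ W : Opens X, (A.Hom i i).sec W → ℕ → (Fin n → ℂ) → ℂ),
    x ∈ V ∧ IsStarChart n A i e V P Θ

/-- closed complex analytic subset -/
def IsAnalytic (Y : Set X) : Prop :=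
  IsClosed Y ∧ ∀ y ∈ Y, ∃ e ∈ Chart n X, y ∈ e.source ∧ ∃ (V : Opens (Fin n → ℂ)) (m : ℕ)
    (f : Fin m → (Fin n → ℂ) → ℂ), e y ∈ V ∧ (V : Set (Fin n → ℂ)) ⊆ e.target ∧
    (∀ j, DifferentiableOn ℂ (f j) V) ∧ ∀ z ∈ V, e.symm z ∈ Y ↔ ∀ j, f j z = 0

/-- the analytic set `Y` has codimension `≥ c` at all its points: in suitable local coordinates at
`y` some `c`-dimensional plane through `y` meets `Y` near `y` only at `y` -/
def HasCodimGE (Y : Set X) (c : ℕ) : Prop :=
  ∀ y ∈ Y, ∃ e ∈ Chart n X, y ∈ e.source ∧ ∃ L : Submodule ℂ (Fin n → ℂ),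
    Module.finrank ℂ L = c ∧ ∃ V : Opens X, y ∈ V ∧ (V : Set X) ⊆ e.source ∧
      ∀ x ∈ V, x ∈ Y → e x - e y ∈ L → x = y

/-- complement of the closed set `Y` -/
def compl (Y : Set X) (hY : IsClosed Y) : Opens X := ⟨Yᶜ, hY.isOpen_compl⟩

end manifold

/-! ### Localisation and lattices -/

/-- `A'` (with the same objects as `A`) is the localisation `ℂ((ħ)) ⊗ A`, via `φ`. -/
structure IsLoc (A A' : Algebroid X) (o : A.Obj ≃ A'.Obj)
    (φ : ∀ (i j : A.Obj) (V : Opens X), (A.Hom i j).sec V →ₗ[K] (A'.Hom (o i) (o j)).sec V) :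
    Prop where
  dom : ∀ i, A'.dom (o i) = A.dom i
  res : ∀ (i j : A.Obj) {V W : Opens X} (h : V ≤ W) (a : (A.Hom i j).sec W),
    W ≤ A.dom i → W ≤ A.dom j →
    φ i j V ((A.Hom i j).res h a) = (A'.Hom (o i) (o j)).res h (φ i j W a)
  one : ∀ (i : A.Obj) (V : Opens X), V ≤ A.dom i → φ i i V (A.one i V) = A'.one (o i) V
  comp : ∀ (i j k : A.Obj) (V : Opens X), V ≤ A.dom i → V ≤ A.dom j → V ≤ A.dom k →
    ∀ (b : (A.Hom j k).sec V) (a : (A.Hom i j).sec V),
    φ i k V (A.comp V b a) = A'.comp V (φ j k V b) (φ i j V a)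
  bij : ∀ (i j : A'.Obj) (V : Opens X), V ≤ A'.dom i → V ≤ A'.dom j →
    Function.Bijective fun a : (A'.Hom i j).sec V => hbar • a
  ker : ∀ (i j : A.Obj) (V : Opens X), V ≤ A.dom i → V ≤ A.dom j → ∀ a : (A.Hom i j).sec V,
    φ i j V a = 0 → Locally V fun _ h => ∃ k : ℕ, hbar ^ k • (A.Hom i j).res h a = 0
  surj : ∀ (i j : A.Obj) (V : Opens X), V ≤ A.dom i → V ≤ A.dom j →
    ∀ a : (A'.Hom (o i) (o j)).sec V, Locally V fun W h => ∃ (k : ℕ) (b : (A.Hom i j).sec W),
      hbar ^ k • (A'.Hom (o i) (o j)).res h a = φ i j W b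

/-- `N` is an `A`-lattice of the `A'`-module `M`, embedded by `ι`: a coherent `A`-submodule with
`ℂ((ħ)) ⊗ N = M`. -/
structure IsLattice {A A' : Algebroid X} {D : Opens X} (o : A.Obj ≃ A'.Obj)
    (φ : ∀ (i j : A.Obj) (V : Opens X), (A.Hom i j).sec V →ₗ[K] (A'.Hom (o i) (o j)).sec V)
    (M : Mod A' D) (N : Mod A D)
    (ι : ∀ (i : A.Obj) (V : Opens X), (N.sh i).sec V →ₗ[K] (M.sh (o i)).sec V) : Prop where
  coherent : N.Coherent
  res : ∀ (i : A.Obj) {V W : Opens X} (h : V ≤ W) (s : (N.sh i).sec W),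
    W ≤ A.dom i → W ≤ D → ι i V ((N.sh i).res h s) = (M.sh (o i)).res h (ι i W s)
  act : ∀ (i j : A.Obj) (V : Opens X), V ≤ A.dom i → V ≤ A.dom j → V ≤ D →
    ∀ (a : (A.Hom i j).sec V) (s : (N.sh i).sec V),
    ι j V (N.act V a s) = M.act V (φ i j V a) (ι i V s)
  inj : ∀ (i : A.Obj) (V : Opens X), V ≤ A.dom i → V ≤ D → ∀ s : (N.sh i).sec V,
    ι i V s = 0 → s = 0
  surj : ∀ (i : A.Obj) (V : Opens X), V ≤ A.dom i → V ≤ D → ∀ s : (M.sh (o i)).sec V,
    Locally V fun W h => ∃ (k : ℕ) (t : (N.sh i).sec W),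
      hbar ^ k • (M.sh (o i)).res h s = ι i W t

/-! ### The two statements -/

section statements

open scoped Manifold ContDiff

/-- MP_4aa2a9_ag, Q1 -/
def StatementA : Prop :=
  ∀ (n d : ℕ) (X : Type u) [TopologicalSpace X] [ChartedSpace (Fin n → ℂ) X]
    [IsManifold 𝓘(ℂ, Fin n → ℂ) ω X] (A : Algebroid X) (_ : IsDQ n A) (Y : Set X)
    (hY : IsAnalytic n Y) (_ : HasCodimGE n Y (d + 3)) (M : Mod A (compl Y hY.1)),
    M.Coherent → M.Reflexive d → M.push.Coherent

/-- MP_b4eb46_ag, Q1 -/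
def StatementB : Prop :=
  ∀ (n d : ℕ) (X : Type u) [TopologicalSpace X] [ChartedSpace (Fin n → ℂ) X]
    [IsManifold 𝓘(ℂ, Fin n → ℂ) ω X] (A : Algebroid X) (_ : IsDQ n A)
    (A' : Algebroid X) (o : A.Obj ≃ A'.Obj)
    (φ : ∀ (i j : A.Obj) (V : Opens X), (A.Hom i j).sec V →ₗ[K] (A'.Hom (o i) (o j)).sec V)
    (_ : IsLoc A A' o φ) (Y : Set X)
    (hY : IsAnalytic n Y) (_ : HasCodimGE n Y (d + 3)) (M : Mod A' (compl Y hY.1))
    (N : Mod A (compl Y hY.1))
    (ι : ∀ (i : A.Obj) (V : Opens X), (N.sh i).sec V →ₗ[K] (M.sh (o i)).sec V),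
    M.Coherent → IsLattice o φ M N ι → (∀ k, k ≠ d → M.ExtZero k) → M.push.Coherent

end statements

end Pool.Agent.DQ
end

section

/-!
# Conversion of the official layer `OffR` to the internal layer `Off` (campaign DQ, S)
-/

set_option autoImplicit false

open TopologicalSpace Topology

open scoped Manifold ContDiff

universe u

namespace Pool.Agent.DQOff

variable {X : Type u} [TopologicalSpace X]

/-- the additive group of sections -/
@[instance_reducible]
noncomputable def Sheaf.grp (F : Sheaf X) (V : Opens X) : AddCommGroup (F.sec V) where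
  add := F.add V
  zero := F.zero V
  neg := F.neg V
  add_assoc := F.add_assoc V
  zero_add := F.zero_add V
  add_zero s := (F.add_comm V s (F.zero V)).trans (F.zero_add V s)
  neg_add_cancel := F.neg_add V
  add_comm := F.add_comm V
  nsmul := @nsmulRec _ ⟨F.zero V⟩ ⟨F.add V⟩
  zsmul := @zsmulRec _ ⟨F.zero V⟩ ⟨F.add V⟩ ⟨F.neg V⟩ (@nsmulRec _ ⟨F.zero V⟩ ⟨F.add V⟩)

theorem Sheaf.grp_add (F : Sheaf X) (V : Opens X) (s t : F.sec V) :
    @HAdd.hAdd _ _ _ (@instHAdd _ (F.grp V).toAdd) s t = F.add V s t := rfl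

/-- the module of sections -/
@[instance_reducible]
noncomputable def Sheaf.module (F : Sheaf X) (V : Opens X) :
    @Module DQ.K (F.sec V) _ (F.grp V).toAddCommMonoid :=
  letI := F.grp V
  { smul := F.smul V
    one_smul := F.one_smul V
    mul_smul := F.mul_smul V
    smul_add := F.smul_add V
    add_smul := F.add_smul V
    smul_zero := fun a => by
      have h := F.smul_add V a (F.zero V) (F.zero V)
      rw [F.zero_add] at h
      exact (left_eq_add (M := F.sec V)).1 h
    zero_smul := fun s => by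
      have h := F.add_smul V 0 0 s
      rw [add_zero] at h
      exact (left_eq_add (M := F.sec V)).1 h }

/-- conversion of sheaves -/
noncomputable def Sheaf.toSh (F : Sheaf X) : DQ.Sh X where
  sec := F.sec
  grp := F.grp
  mod := F.module
  res {V W} h :=
    letI := F.grp V
    letI := F.grp W
    letI := F.module V
    letI := F.module W
    { toFun := F.res V W h
      map_add' := F.res_add V W h
      map_smul' := F.res_smul V W h }
  res_id V s := F.res_id V _ s
  res_res h k s := F.res_res _ _ _ h k _ s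
  eq_of_locally V s t h := F.sep V s t h
  glue V {ι} U hU hc s hs := by
    obtain ⟨t, ht⟩ := F.glue V ι U hU hc s (fun a b W h k => by
      have e := congrArg (F.res W (U a ⊓ U b) (le_inf h k)) (hs a b)
      change F.res _ _ _ (F.res _ _ _ _) = F.res _ _ _ (F.res _ _ _ _) at e
      rwa [F.res_res _ _ _ _ _ h, F.res_res _ _ _ _ _ k] at e)
    exact ⟨t, ht⟩

theorem Sheaf.sum_eq (F : Sheaf X) (V : Opens X) (k : ℕ) (s : Fin k → F.sec V) :
    F.sum V k s = ∑ l, (show F.toSh.sec V from s l) := by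
  rw [← List.sum_ofFn]
  rfl

/-- conversion of bilinear maps -/
noncomputable def bil (E F G : Sheaf X) (V : Opens X) (f : E.sec V → F.sec V → G.sec V)
    (h1 : ∀ a b s, f (E.add V a b) s = G.add V (f a s) (f b s))
    (h2 : ∀ r a s, f (E.smul V r a) s = G.smul V r (f a s))
    (h3 : ∀ a s t, f a (F.add V s t) = G.add V (f a s) (f a t))
    (h4 : ∀ r a s, f a (F.smul V r s) = G.smul V r (f a s)) :
    E.toSh.sec V →ₗ[DQ.K] F.toSh.sec V →ₗ[DQ.K] G.toSh.sec V where
  toFun a :=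
    { toFun := fun s => f a s
      map_add' := fun s t => h3 a s t
      map_smul' := fun r s => h4 r a s }
  map_add' a b := LinearMap.ext fun s => h1 a b s
  map_smul' r a := LinearMap.ext fun s => h2 r a s

/-- conversion of algebroids -/
noncomputable def Algebroid.toAlg (A : Algebroid X) : DQ.Algebroid X where
  Obj := A.Obj
  dom := A.dom
  covers := A.covers
  Hom i j := (A.Hom i j).toSh
  one := A.one
  comp {i j k} V := bil (A.Hom j k) (A.Hom i j) (A.Hom i k) V
    (A.comp i j k V) (A.add_comp i j k V) (A.smul_comp i j k V)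
    (A.comp_add i j k V) (A.comp_smul i j k V)
  res_one i {V W} h hW := A.res_one i V W h hW
  res_comp {i j k V W} h hi hj hk b a := A.res_comp i j k V W h hi hj hk b a
  one_comp {i j} V hi hj a := A.one_comp i j V hi hj a
  comp_one {i j} V hi hj a := A.comp_one i j V hi hj a
  assoc {i j k l} V hi hj hk hl c b a := A.assoc i j k l V hi hj hk hl c b a
  locally_iso i j x hi hj := A.locally_iso i j x hi hj

variable {A : Algebroid X} {D : Opens X}

/-- conversion of modules -/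
noncomputable def Mod.toMod (M : Mod A D) : DQ.Mod A.toAlg D where
  sh i := (M.sh i).toSh
  act {i j} V := bil (A.Hom i j) (M.sh i) (M.sh j) V
    (M.act i j V) (M.add_act i j V) (M.smul_act i j V)
    (M.act_add i j V) (M.act_smul i j V)
  res_act {i j V W} h hi hj hD a s := M.res_act i j V W h hi hj hD a s
  one_act {i} V hi hD s := M.one_act i V hi hD s
  comp_act {i j k} V hi hj hk hD b a s := M.comp_act i j k V hi hj hk hD b a s

theorem Mod.lin_eq (M : Mod A D) (i : A.Obj) (V : Opens X) (k : ℕ)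
    (c : Fin k → (A.Hom i i).sec V) (g : Fin k → (M.sh i).sec V) :
    M.lin i V k c g = ∑ l, M.toMod.act (i := i) (j := i) V (c l) (g l) :=
  (M.sh i).sum_eq V k _

theorem Mod.coherent_iff (M : Mod A D) : M.Coherent ↔ M.toMod.Coherent := by
  refine and_congr ?_ ?_
  · refine forall_congr' fun i => ⟨fun h => ?_, fun h => ?_⟩
    · rintro x ⟨hx, hxD⟩
      obtain ⟨V, hxV, h1, h2, k, g, hg⟩ := h x hx hxD
      refine ⟨V, le_inf h1 h2, hxV, k, g, ?_⟩
      intro W hW s x hx
      obtain ⟨Z, h3, h4, hxZ, c, hc⟩ := hg W hW s x hx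
      exact ⟨Z, h3, hxZ, c, hc.trans (M.lin_eq i Z k _ _)⟩
    · intro x hx hxD
      obtain ⟨V, hV, hxV, k, g, hg⟩ := h x ⟨hx, hxD⟩
      refine ⟨V, hxV, hV.trans inf_le_left, hV.trans inf_le_right, k, g, ?_⟩
      intro W hW s x hx
      obtain ⟨Z, h3, hxZ, c, hc⟩ := hg W hW s x hx
      exact ⟨Z, h3, h3.trans hW, hxZ, c, Eq.trans hc (M.lin_eq i Z k _ _).symm⟩
  · refine forall_congr' fun i => forall_congr' fun U => forall_congr' fun hi =>
      forall_congr' fun hD => forall_congr' fun k => forall_congr' fun g => ?_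
    refine forall_congr' fun x => forall_congr' fun hx => exists_congr fun V => exists_congr fun h =>
      and_congr_right fun hxV => exists_congr fun m => exists_congr fun r => ?_
    refine and_congr ?_ ?_
    · refine forall_congr' fun p => ?_
      rw [M.lin_eq]
      rfl
    · refine forall_congr' fun W => forall_congr' fun hW => forall_congr' fun c => ?_
      rw [M.lin_eq]
      have e1 : (fun l => (M.sh i).res W V hW ((M.sh i).res V U h (g l))) =
          fun l => (M.sh i).res W U (hW.trans h) (g l) := by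
        funext l
        exact (M.sh i).res_res W V U hW h _ (g l)
      rw [show (∑ l, M.toMod.act (i := i) (j := i) W (c l) ((M.sh i).res W V hW
          ((M.sh i).res V U h (g l)))) =
        ∑ l, M.toMod.act (i := i) (j := i) W (c l) ((M.sh i).res W U (hW.trans h) (g l)) from
          Finset.sum_congr rfl fun l _ => by rw [congrFun e1 l]]
      refine forall_congr' fun _ => ?_
      refine forall_congr' fun x => forall_congr' fun hxW => exists_congr fun Z => ?_
      constructor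
      · rintro ⟨h3, h4, hxZ, e, he⟩
        exact ⟨h3, hxZ, e, fun l => (he l).trans ((A.Hom i i).sum_eq Z m _)⟩
      · rintro ⟨h3, hxZ, e, he⟩
        exact ⟨h3, h3.trans hW, hxZ, e, fun l => Eq.trans (he l) ((A.Hom i i).sum_eq Z m _).symm⟩

/-! ### Direct image -/

/-- direct image of a sheaf -/
def Sheaf.push (F : Sheaf X) (D : Opens X) : Sheaf X where
  sec V := F.sec (V ⊓ D)
  zero V := F.zero (V ⊓ D)
  add V := F.add (V ⊓ D)
  neg V := F.neg (V ⊓ D)
  smul V := F.smul (V ⊓ D)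
  res V W h := F.res (V ⊓ D) (W ⊓ D) (inf_le_inf_right D h)
  add_comm V := F.add_comm (V ⊓ D)
  add_assoc V := F.add_assoc (V ⊓ D)
  zero_add V := F.zero_add (V ⊓ D)
  neg_add V := F.neg_add (V ⊓ D)
  one_smul V := F.one_smul (V ⊓ D)
  mul_smul V := F.mul_smul (V ⊓ D)
  smul_add V := F.smul_add (V ⊓ D)
  add_smul V := F.add_smul (V ⊓ D)
  res_add V W h := F.res_add (V ⊓ D) (W ⊓ D) _
  res_smul V W h := F.res_smul (V ⊓ D) (W ⊓ D) _
  res_id V h s := F.res_id (V ⊓ D) _ s
  res_res V W Z h k l s := F.res_res (V ⊓ D) (W ⊓ D) (Z ⊓ D) _ _ _ s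
  sep V s t hst := by
    apply F.sep
    intro x hx
    obtain ⟨W, h, hxW, e⟩ := hst x hx.1
    exact ⟨W ⊓ D, inf_le_inf_right D h, ⟨hxW, hx.2⟩, e⟩
  glue V ι U hU hc s hs := by
    obtain ⟨t, ht⟩ := F.glue (V ⊓ D) ι (fun a => U a ⊓ D) (fun a => inf_le_inf_right D (hU a))
      (fun x hx => by
        obtain ⟨a, ha⟩ := hc x hx.1
        exact ⟨a, ha, hx.2⟩) s (by
        intro a b W h k
        have e := hs a b W (h.trans inf_le_left) (k.trans inf_le_left)
        have e' := congrArg (F.res W (W ⊓ D) (le_inf le_rfl (h.trans inf_le_right))) e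
        rwa [F.res_res _ _ _ _ _ h, F.res_res _ _ _ _ _ k] at e')
    exact ⟨t, ht⟩

/-- `j_* M` -/
def Mod.push (M : Mod A D) : Mod A ⊤ where
  sh i := (M.sh i).push D
  act i j V a s := M.act i j (V ⊓ D) ((A.Hom i j).res (V ⊓ D) V inf_le_left a) s
  add_act i j V a b s := (congrArg (fun c => M.act i j (V ⊓ D) c s)
    ((A.Hom i j).res_add _ _ _ a b)).trans (M.add_act i j (V ⊓ D) _ _ s)
  act_add i j V a s t := M.act_add i j (V ⊓ D) _ s t
  smul_act i j V r a s := (congrArg (fun c => M.act i j (V ⊓ D) c s)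
    ((A.Hom i j).res_smul _ _ _ r a)).trans (M.smul_act i j (V ⊓ D) r _ s)
  act_smul i j V r a s := M.act_smul i j (V ⊓ D) r _ s
  res_act i j V W h hi hj _ a s := by
    refine (M.res_act i j (V ⊓ D) (W ⊓ D) (inf_le_inf_right D h) (inf_le_left.trans hi)
      (inf_le_left.trans hj) inf_le_right _ s).trans ?_
    refine congrArg (fun c => M.act i j (V ⊓ D) c
      ((M.sh i).res (V ⊓ D) (W ⊓ D) (inf_le_inf_right D h) s)) ?_
    rw [(A.Hom i j).res_res _ _ _ _ _ (inf_le_left.trans h),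
      (A.Hom i j).res_res _ _ _ _ _ (inf_le_left.trans h)]
  one_act i V hi _ s := by
    rw [A.res_one i _ _ _ hi]
    exact M.one_act i (V ⊓ D) (inf_le_left.trans hi) inf_le_right s
  comp_act i j k V hi hj hk _ b a s := by
    rw [A.res_comp i j k _ _ _ hi hj hk]
    exact M.comp_act i j k (V ⊓ D) (inf_le_left.trans hi) (inf_le_left.trans hj)
      (inf_le_left.trans hk) inf_le_right _ _ _

theorem Mod.isPush (M : Mod A D) : IsPush M M.push fun _ _ s => s where
  bij _ _ := Function.bijective_id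
  add _ _ _ _ := rfl
  smul _ _ _ _ := rfl
  res _ _ _ _ _ _ := rfl
  act _ _ _ _ _ _ := rfl

theorem Mod.push_coherent (M : Mod A D) (h : M.toMod.push.Coherent) : M.push.Coherent :=
  M.push.coherent_iff.2 h

end Pool.Agent.DQOff
end

section

/-!
# Coherence is invariant under isomorphisms of modules (campaign DQ, S)
-/

set_option autoImplicit false

open TopologicalSpace Topology

universe u

namespace Pool.Agent.DQOff

variable {X : Type u} [TopologicalSpace X] {A : Algebroid X} {D : Opens X}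

/-- isomorphism of modules -/
structure IsIso (P Q : Mod A D) (f : ∀ i V, (P.sh i).sec V → (Q.sh i).sec V) : Prop where
  bij : ∀ i V, Function.Bijective (f i V)
  add : ∀ i V s t, f i V ((P.sh i).add V s t) = (Q.sh i).add V (f i V s) (f i V t)
  res : ∀ i V W (h : V ≤ W) s, f i V ((P.sh i).res V W h s) = (Q.sh i).res V W h (f i W s)
  act : ∀ i j V a s, f j V (P.act i j V a s) = Q.act i j V a (f i V s)

theorem Sheaf.add_left_cancel (F : Sheaf X) (V : Opens X) {s t r : F.sec V}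
    (h : F.add V s t = F.add V s r) : t = r :=
  letI := F.grp V
  _root_.add_left_cancel (a := s) (b := t) (c := r) h

theorem Sheaf.add_zero (F : Sheaf X) (V : Opens X) (s : F.sec V) : F.add V s (F.zero V) = s :=
  (F.add_comm V s (F.zero V)).trans (F.zero_add V s)

variable {P Q : Mod A D} {f : ∀ i V, (P.sh i).sec V → (Q.sh i).sec V}

theorem IsIso.zero (h : IsIso P Q f) (i : A.Obj) (V : Opens X) :
    f i V ((P.sh i).zero V) = (Q.sh i).zero V := by
  have h1 := h.add i V ((P.sh i).zero V) ((P.sh i).zero V)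
  rw [(P.sh i).zero_add] at h1
  exact (Sheaf.add_left_cancel _ V (((Q.sh i).add_zero V _).trans h1)).symm

theorem IsIso.sum (h : IsIso P Q f) (i : A.Obj) (V : Opens X) (k : ℕ)
    (s : Fin k → (P.sh i).sec V) :
    f i V ((P.sh i).sum V k s) = (Q.sh i).sum V k fun l => f i V (s l) := by
  have key : ∀ L : List ((P.sh i).sec V),
      f i V (L.foldr ((P.sh i).add V) ((P.sh i).zero V)) =
        (L.map (f i V)).foldr ((Q.sh i).add V) ((Q.sh i).zero V) := by
    intro L
    induction L with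
    | nil => exact h.zero i V
    | cons a L ih =>
      rw [List.foldr_cons, h.add, ih, List.map_cons, List.foldr_cons]
  have h2 := key (List.ofFn s)
  rw [List.map_ofFn] at h2
  exact h2

theorem IsIso.lin (h : IsIso P Q f) (i : A.Obj) (V : Opens X) (k : ℕ)
    (c : Fin k → (A.Hom i i).sec V) (g : Fin k → (P.sh i).sec V) :
    f i V (P.lin i V k c g) = Q.lin i V k c fun l => f i V (g l) := by
  refine (h.sum i V k _).trans ?_
  exact congrArg ((Q.sh i).sum V k) (funext fun l => h.act i i V (c l) (g l))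

theorem IsIso.coherent (h : IsIso P Q f) (hQ : Q.Coherent) : P.Coherent := by
  refine ⟨fun i x hx hxD => ?_, fun i U hU hUD k g x hx => ?_⟩
  · obtain ⟨V, hxV, h1, h2, k, g, hg⟩ := hQ.1 i x hx hxD
    choose g' hg' using fun l => (h.bij i V).2 (g l)
    refine ⟨V, hxV, h1, h2, k, g', ?_⟩
    intro W hW s x hx
    obtain ⟨Z, h3, h4, hxZ, c, hc⟩ := hg W hW (f i W s) x hx
    refine ⟨Z, h3, h4, hxZ, c, (h.bij i Z).1 ?_⟩
    rw [h.res, hc, h.lin]
    refine congrArg (Q.lin i Z k c) (funext fun l => ?_)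
    rw [h.res, hg']
  · obtain ⟨V, hV, hxV, m, r, h1, h2⟩ := hQ.2 i U hU hUD k (fun l => f i U (g l)) x hx
    refine ⟨V, hV, hxV, m, r, fun p => (h.bij i V).1 ?_, fun W hW c hc => ?_⟩
    · rw [h.lin, h.zero, ← h1 p]
      exact congrArg (Q.lin i V k (r p)) (funext fun l => h.res i V U hV (g l))
    · refine h2 W hW c ?_
      have h3 := congrArg (f i W) hc
      rw [h.lin, h.zero] at h3
      rw [← h3]
      refine congrArg (Q.lin i W k c) (funext fun l => ?_)
      rw [h.res i W V, h.res i V U]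

theorem IsPush.isIso {M : Mod A D} {P : Mod A ⊤}
    {r : ∀ i V, (P.sh i).sec V → (M.sh i).sec (V ⊓ D)} (h : IsPush M P r) :
    IsIso P M.push r where
  bij := h.bij
  add := h.add
  res i V W hVW s := h.res i V W hVW _ s
  act i j V a s := h.act i j V inf_le_left a s

theorem IsPush.coherent {M : Mod A D} {P : Mod A ⊤}
    {r : ∀ i V, (P.sh i).sec V → (M.sh i).sec (V ⊓ D)} (h : IsPush M P r)
    (hM : M.push.Coherent) : P.Coherent := h.isIso.coherent hM

end Pool.Agent.DQOff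
end

section

/-! # DQ: the theorems of the modules H (Hartogs), G (good coordinates), X (extension theorem) -/
end

section

/-! Algebra of a stalk of a deformation: a ring `A` with a central regular element `h` such that
all `1 - h b` are units, and a surjection `red : A → B` with kernel `h A`. -/

set_option autoImplicit false

universe u v w

namespace Pool.Agent.DQ

/-- stalk of a deformation `A` of the commutative ring `B` -/
structure HStalk (A : Type u) (B : Type v) [Ring A] [CommRing B] where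
  h : A
  comm : ∀ a, h * a = a * h
  reg : ∀ a, h * a = 0 → a = 0
  red : A →+* B
  red_surj : Function.Surjective red
  red_zero : ∀ a, red a = 0 ↔ ∃ b, a = h * b
  unit : ∀ b, IsUnit (1 - h * b)

namespace HStalk

variable {A : Type u} {B : Type v} [Ring A] [CommRing B] (H : HStalk A B)

theorem red_h : H.red H.h = 0 := (H.red_zero _).2 ⟨1, by simp⟩

theorem reg_iff {a b : A} : H.h * a = H.h * b ↔ a = b := by
  constructor
  · intro e
    have : H.h * (a - b) = 0 := by rw [mul_sub, e, sub_self]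
    exact sub_eq_zero.mp (H.reg _ this)
  · rintro rfl
    rfl

theorem reg_pow (k : ℕ) {a : A} (e : H.h ^ k * a = 0) : a = 0 := by
  induction k with
  | zero => simpa using e
  | succ k ih =>
    rw [pow_succ', mul_assoc] at e
    exact ih (H.reg _ e)

theorem comm_pow (k : ℕ) (a : A) : H.h ^ k * a = a * H.h ^ k :=
  ((show Commute H.h a from H.comm a).pow_left k).eq

theorem unit' (b : A) : IsUnit (1 + H.h * b) := by
  have := H.unit (-b)
  simpa using this

/-- an element whose reduction is a unit is a unit -/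
theorem isUnit_of_red {a : A} (ha : IsUnit (H.red a)) : IsUnit a := by
  obtain ⟨u, hu⟩ := ha
  obtain ⟨b, hb⟩ := H.red_surj (↑u⁻¹ : B)
  have h1 : H.red (1 - a * b) = 0 := by
    rw [map_sub, map_one, map_mul, hb, ← hu, Units.mul_inv, sub_self]
  have h2 : H.red (1 - b * a) = 0 := by
    rw [map_sub, map_one, map_mul, hb, ← hu, Units.inv_mul, sub_self]
  obtain ⟨c, hc⟩ := (H.red_zero _).1 h1
  obtain ⟨d, hd⟩ := (H.red_zero _).1 h2
  have e1 : a * b = 1 - H.h * c := by rw [← hc]; abel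
  have e2 : b * a = 1 - H.h * d := by rw [← hd]; abel
  have u1 : IsUnit (a * b) := e1 ▸ H.unit c
  have u2 : IsUnit (b * a) := e2 ▸ H.unit d
  obtain ⟨v, hv⟩ := u1
  obtain ⟨w, hw⟩ := u2
  have r1 : a * (b * (↑v⁻¹ : A)) = 1 := by rw [← mul_assoc, ← hv, Units.mul_inv]
  have r2 : ((↑w⁻¹ : A) * b) * a = 1 := by rw [mul_assoc, ← hw, Units.inv_mul]
  have r3 : (↑w⁻¹ : A) * b = b * (↑v⁻¹ : A) := left_inv_eq_right_inv r2 r1
  exact ⟨⟨a, b * (↑v⁻¹ : A), r1, by rw [← r3]; exact r2⟩, rfl⟩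

theorem isUnit_red_iff {a : A} : IsUnit (H.red a) ↔ IsUnit a :=
  ⟨H.isUnit_of_red, fun h => h.map H.red⟩

variable {M : Type w} [AddCommGroup M] [Module A M]

theorem smul_comm' (a : A) (m : M) : H.h • a • m = a • H.h • m := by
  rw [smul_smul, smul_smul, H.comm]

/-- multiplication by `h ^ k` as a linear map -/
def hmul (M : Type w) [AddCommGroup M] [Module A M] (k : ℕ) : M →ₗ[A] M where
  toFun m := H.h ^ k • m
  map_add' := smul_add _
  map_smul' a m := by
    simp only [RingHom.id_apply]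
    rw [smul_smul, smul_smul, H.comm_pow]

@[simp] theorem hmul_apply (k : ℕ) (m : M) : H.hmul M k m = H.h ^ k • m := rfl

/-- Nakayama: a finitely generated module with `P ≤ N + h P` is contained in `N` -/
theorem nakayama {P N : Submodule A M} (hP : P.FG)
    (hN : ∀ p ∈ P, ∃ n ∈ N, ∃ q ∈ P, p = n + H.h • q) : P ≤ N := by
  -- induction on the number of generators, after adding `N`
  have key : ∀ (n : ℕ) (g : Fin n → M) (N : Submodule A M),
      (∀ p ∈ Submodule.span A (Set.range g) ⊔ N, ∃ n ∈ N,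
        ∃ q ∈ Submodule.span A (Set.range g) ⊔ N, p = n + H.h • q) →
      Submodule.span A (Set.range g) ≤ N := by
    intro n
    induction n with
    | zero =>
      intro g N _
      rw [Submodule.span_le]
      rintro _ ⟨i, rfl⟩
      exact i.elim0
    | succ n ih =>
      intro g N hN
      have hg : Submodule.span A (Set.range g) =
          A ∙ g 0 ⊔ Submodule.span A (Set.range (Fin.tail g)) := by
        conv_lhs => rw [← Fin.cons_self_tail g, Fin.range_cons, Submodule.span_insert]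
      -- all but the first generator
      have h1 := ih (Fin.tail g) (A ∙ g 0 ⊔ N) (by
        intro p hp
        have hp' : p ∈ Submodule.span A (Set.range g) ⊔ N := by
          rw [hg, sup_assoc, sup_left_comm]
          exact hp
        obtain ⟨m, hm, q, hq, e⟩ := hN p hp'
        refine ⟨m, (le_sup_right : N ≤ _) hm, q, ?_, e⟩
        rw [hg, sup_assoc, sup_left_comm] at hq
        exact hq)
      have h2 : g 0 ∈ N := by
        have m0 : g 0 ∈ Submodule.span A (Set.range g) ⊔ N :=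
          (le_sup_left : _ ≤ Submodule.span A (Set.range g) ⊔ N)
            (Submodule.subset_span ⟨0, rfl⟩)
        obtain ⟨m, hm, q, hq, e⟩ := hN _ m0
        have hq2 : q ∈ A ∙ g 0 ⊔ N := by
          rw [hg, sup_assoc] at hq
          have : A ∙ g 0 ⊔ (Submodule.span A (Set.range (Fin.tail g)) ⊔ N) ≤ A ∙ g 0 ⊔ N :=
            sup_le le_sup_left (sup_le h1 le_sup_right)
          exact this hq
        obtain ⟨c, hc, d, hd, e3⟩ := Submodule.mem_sup.mp hq2
        obtain ⟨a, rfl⟩ := Submodule.mem_span_singleton.mp hc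
        have e4 : (1 - H.h * a) • g 0 = m + H.h • d := by
          rw [sub_smul, one_smul, mul_smul]
          nth_rewrite 1 [e]
          rw [← e3, smul_add]
          abel
        obtain ⟨v, hv⟩ := H.unit a
        have e5 : g 0 = (↑v⁻¹ : A) • (m + H.h • d) := by
          rw [← e4, ← hv, smul_smul, Units.inv_mul, one_smul]
        rw [e5]
        exact N.smul_mem _ (N.add_mem hm (N.smul_mem _ hd))
      rw [hg]
      refine sup_le ?_ (h1.trans (sup_le ?_ le_rfl))
      · rw [Submodule.span_singleton_le_iff_mem]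
        exact h2
      · rw [Submodule.span_singleton_le_iff_mem]
        exact h2
  obtain ⟨n, g, hg⟩ := Submodule.fg_iff_exists_fin_generating_family.mp hP
  rw [← hg]
  apply key
  intro p hp
  obtain ⟨a, ha, b, hb, rfl⟩ := Submodule.mem_sup.mp hp
  rw [hg] at ha
  obtain ⟨m, hm, q, hq, e⟩ := hN a ha
  refine ⟨m + b, N.add_mem hm hb, q, ?_, ?_⟩
  · apply (le_sup_left : _ ≤ Submodule.span A (Set.range g) ⊔ N)
    rw [hg]
    exact hq
  · rw [e]
    abel

/-- Nakayama for the whole module -/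
theorem nakayama_top [Module.Finite A M] {N : Submodule A M}
    (hN : ∀ p : M, ∃ n ∈ N, ∃ q : M, p = n + H.h • q) : N = ⊤ := by
  refine top_le_iff.mp (H.nakayama (Module.Finite.fg_top (R := A) (M := M)) ?_)
  intro p _
  obtain ⟨n, hn, q, e⟩ := hN p
  exact ⟨n, hn, q, Submodule.mem_top, e⟩

/-- a finitely generated module with `h M = M` vanishes -/
theorem eq_zero_of_div {P : Submodule A M} (hP : P.FG) (hd : ∀ p ∈ P, ∃ q ∈ P, p = H.h • q)
    {p : M} (hp : p ∈ P) : p = 0 := by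
  have := H.nakayama (N := ⊥) hP (fun p hp => by
    obtain ⟨q, hq, e⟩ := hd p hp
    exact ⟨0, Submodule.zero_mem _, q, hq, by rw [zero_add]; exact e⟩)
  exact (Submodule.mem_bot A).mp (this hp)

/-- Krull: in a noetherian module `⋂ h ^ k M = 0` -/
theorem krull [IsNoetherian A M] {m : M} (hm : ∀ k : ℕ, ∃ q : M, m = H.h ^ k • q) : m = 0 := by
  -- the submodule of infinitely divisible elements
  let P : Submodule A M := ⨅ k : ℕ, LinearMap.range (H.hmul M k)
  have hmem : ∀ p : M, p ∈ P ↔ ∀ k : ℕ, ∃ q : M, p = H.h ^ k • q := by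
    intro p
    simp only [P, Submodule.mem_iInf, LinearMap.mem_range, hmul_apply]
    constructor
    · intro h k
      obtain ⟨q, hq⟩ := h k
      exact ⟨q, hq.symm⟩
    · intro h k
      obtain ⟨q, hq⟩ := h k
      exact ⟨q, hq.symm⟩
  -- the torsion is stationary
  let T : ℕ →o Submodule A M :=
    { toFun := fun k => LinearMap.ker (H.hmul M k)
      monotone' := by
        intro i j hij x hx
        simp only [LinearMap.mem_ker, hmul_apply] at hx ⊢
        obtain ⟨l, rfl⟩ := Nat.exists_eq_add_of_le hij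
        rw [add_comm, pow_add, mul_smul, hx, smul_zero] }
  obtain ⟨k0, hk0⟩ := monotone_stabilizes_iff_noetherian.mpr ‹IsNoetherian A M› T
  refine H.eq_zero_of_div (P := P) (IsNoetherian.noetherian P) ?_ ((hmem m).2 hm)
  intro p hp
  rw [hmem] at hp
  obtain ⟨q, hq⟩ := hp (k0 + 1)
  refine ⟨H.h ^ k0 • q, ?_, ?_⟩
  · rw [hmem]
    intro j
    obtain ⟨r, hr⟩ := hp (k0 + 1 + j)
    refine ⟨H.h ^ k0 • r, ?_⟩
    -- `q - h^j r` is killed by `h^(k0+1)`
    have e1 : q - H.h ^ j • r ∈ T (k0 + 1) := by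
      change q - H.h ^ j • r ∈ LinearMap.ker (H.hmul M (k0 + 1))
      simp only [LinearMap.mem_ker, hmul_apply]
      rw [smul_sub, smul_smul, ← pow_add, ← hq, ← hr, sub_self]
    rw [← hk0 (k0 + 1) (Nat.le_succ _)] at e1
    change q - H.h ^ j • r ∈ LinearMap.ker (H.hmul M k0) at e1
    simp only [LinearMap.mem_ker, hmul_apply] at e1
    rw [smul_sub, sub_eq_zero] at e1
    rw [e1, smul_smul, smul_smul, ← pow_add, ← pow_add, add_comm]
  · rw [hq, smul_smul, ← pow_succ']

end HStalk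

end Pool.Agent.DQ
end

section

/-! Relations between finitely many elements of a module over a stalk of a deformation. -/

set_option autoImplicit false

universe u v w

namespace Pool.Agent.DQ

/-- relations of a finite family -/
def relOf (A : Type u) [Ring A] {M : Type w} [AddCommGroup M] [Module A M] {ι : Type*} [Fintype ι]
    (g : ι → M) : Submodule A (ι → A) where
  carrier := {c | ∑ i, c i • g i = 0}
  add_mem' := by
    intro a b ha hb
    simp only [Set.mem_ofPred_eq, Pi.add_apply, add_smul, Finset.sum_add_distrib] at *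
    rw [ha, hb, add_zero]
  zero_mem' := by simp
  smul_mem' := by
    intro r a ha
    simp only [Set.mem_ofPred_eq, Pi.smul_apply, smul_eq_mul, mul_smul] at *
    rw [← Finset.smul_sum, ha, smul_zero]

theorem mem_relOf {A : Type u} [Ring A] {M : Type w} [AddCommGroup M] [Module A M] {ι : Type*}
    [Fintype ι] {g : ι → M} {c : ι → A} : c ∈ relOf A g ↔ ∑ i, c i • g i = 0 := Iff.rfl

/-- elements of the span of a finite family -/
theorem mem_span_fam {A : Type u} [Ring A] {M : Type w} [AddCommGroup M] [Module A M] {ι : Type*}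
    [Fintype ι] {g : ι → M} {m : M} :
    m ∈ Submodule.span A (Set.range g) ↔ ∃ c : ι → A, m = ∑ i, c i • g i := by
  rw [Submodule.mem_span_range_iff_exists_fun]
  exact exists_congr fun c => eq_comm

namespace HStalk

variable {A : Type u} {B : Type v} [Ring A] [CommRing B] (H : HStalk A B)
variable {M : Type w} [AddCommGroup M] [Module A M]

theorem smul_sum_h {ι : Type*} [Fintype ι] (c : ι → A) (g : ι → M) :
    H.h • ∑ i, c i • g i = ∑ i, (H.h * c i) • g i := by
  rw [Finset.smul_sum]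
  exact Finset.sum_congr rfl fun i _ => by rw [mul_smul]

/-- one step of the saturation of a submodule -/
theorem sat_step (htf : ∀ m : M, H.h • m = 0 → m = 0) {ι κ : Type*} [Fintype ι] [Fintype κ]
    (g : ι → M) (R : κ → ι → A) (t : κ → M)
    (hR : ∀ k, ∑ i, R k i • g i = H.h • t k)
    (hgen : ∀ c : ι → A, (∃ s : M, ∑ i, c i • g i = H.h • s) →
      ∃ (E : κ → A) (c' : ι → A), ∀ i, c i = ∑ k, E k * R k i + H.h * c' i)
    (s : M) (hs : H.h • s ∈ Submodule.span A (Set.range g)) :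
    s ∈ Submodule.span A (Set.range g) ⊔ Submodule.span A (Set.range t) := by
  obtain ⟨c, hc⟩ := mem_span_fam.mp hs
  obtain ⟨E, c', e⟩ := hgen c ⟨s, hc.symm⟩
  have h1 : H.h • s = H.h • (∑ k, E k • t k + ∑ i, c' i • g i) := by
    rw [hc]
    simp only [e, add_smul, Finset.sum_add_distrib, Finset.sum_smul, smul_add, mul_smul]
    congr 1
    · rw [Finset.sum_comm, Finset.smul_sum]
      refine Finset.sum_congr rfl fun k _ => ?_
      rw [← Finset.smul_sum, hR, H.smul_comm']
    · rw [Finset.smul_sum]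
  have h2 : s = ∑ k, E k • t k + ∑ i, c' i • g i := by
    have : H.h • (s - (∑ k, E k • t k + ∑ i, c' i • g i)) = 0 := by
      rw [smul_sub, h1, sub_self]
    exact sub_eq_zero.mp (htf _ this)
  rw [h2, add_comm]
  exact Submodule.add_mem_sup (mem_span_fam.mpr ⟨c', rfl⟩) (mem_span_fam.mpr ⟨E, rfl⟩)

/-- relations which generate modulo `h` all relations, generate all relations -/
theorem rel_of_mod (htf : ∀ m : M, H.h • m = 0 → m = 0) {ι κ : Type*} [Fintype ι] [Fintype κ]
    [IsNoetherian A (ι → A)] (g : ι → M) (R : κ → ι → A) (hR : ∀ k, R k ∈ relOf A g)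
    (hgen : ∀ c ∈ relOf A g, ∃ (E : κ → A) (c' : ι → A), ∀ i, c i = ∑ k, E k * R k i + H.h * c' i) :
    relOf A g = Submodule.span A (Set.range R) := by
  apply le_antisymm
  · refine H.nakayama (IsNoetherian.noetherian _) ?_
    intro c hc
    obtain ⟨E, c', e⟩ := hgen c hc
    refine ⟨∑ k, E k • R k, mem_span_fam.mpr ⟨E, rfl⟩, c', ?_, ?_⟩
    · have h0 : ∑ k, E k • R k ∈ relOf A g :=
        Submodule.sum_mem _ fun k _ => Submodule.smul_mem _ _ (hR k)
      have h1 : H.h • c' ∈ relOf A g := by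
        have : H.h • c' = c - ∑ k, E k • R k := by
          funext i
          simp only [Pi.smul_apply, smul_eq_mul, Pi.sub_apply, Finset.sum_apply]
          rw [e i]
          abel
        rw [this]
        exact Submodule.sub_mem _ hc h0
      rw [mem_relOf] at h1 ⊢
      apply htf
      rw [H.smul_sum_h]
      exact h1
    · funext i
      simp only [Pi.smul_apply, smul_eq_mul, Pi.add_apply, Finset.sum_apply]
      exact e i
  · rw [Submodule.span_le]
    rintro _ ⟨k, rfl⟩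
    exact hR k

/-- the downward step: from the relations of generators `G` of `M` to the relations of generators
`g` of a submodule which contains `h M` -/
theorem rel_down {α β ι κ : Type*} [Fintype α] [Fintype β]
    [Fintype ι] [Fintype κ] [DecidableEq ι] (G : α → M) (r : β → α → A)
    (hr : relOf A G = Submodule.span A (Set.range r)) (g : ι → M) (ρ : ι → α → A)
    (hρ : ∀ j, g j = ∑ i, ρ j i • G i) (σ : α → ι → A) (hσ : ∀ i, H.h • G i = ∑ j, σ i j • g j)
    (C : κ → ι → A) (F : κ → β → A) (D : κ → α → A)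
    (hC : ∀ k i, ∑ j, C k j * ρ j i - ∑ l, F k l * r l i = - (H.h * D k i))
    (hgen : ∀ (c : ι → A) (f : β → A),
      (∃ d : α → A, ∀ i, ∑ j, c j * ρ j i - ∑ l, f l * r l i = H.h * d i) →
      ∃ (E : κ → A) (c' : ι → A) (f' : β → A), (∀ j, c j = ∑ k, E k * C k j + H.h * c' j) ∧
        ∀ l, f l = ∑ k, E k * F k l + H.h * f' l) :
    relOf A g = Submodule.span A (Set.range (Sum.elim (fun k => fun j => C k j + ∑ i, D k i * σ i j)
      (Sum.elim (fun j' : ι => fun j => H.h * (if j' = j then 1 else 0) - ∑ i, ρ j' i * σ i j)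
        (fun l : β => fun j => ∑ i, r l i * σ i j)))) := by
  have hσ' : ∀ (e : α → A), ∑ j, (∑ i, e i * σ i j) • g j = ∑ i, (H.h * e i) • G i := by
    intro e
    simp only [Finset.sum_smul]
    rw [Finset.sum_comm]
    refine Finset.sum_congr rfl fun i _ => ?_
    have : ∑ j, (e i * σ i j) • g j = e i • ∑ j, σ i j • g j := by
      rw [Finset.smul_sum]
      exact Finset.sum_congr rfl fun j _ => by rw [mul_smul]
    rw [this, ← hσ, smul_smul, H.comm]
  have hρ' : ∀ (c : ι → A), ∑ j, c j • g j = ∑ i, (∑ j, c j * ρ j i) • G i := by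
    intro c
    simp only [Finset.sum_smul]
    rw [Finset.sum_comm]
    refine Finset.sum_congr rfl fun j _ => ?_
    rw [hρ j, Finset.smul_sum]
    exact Finset.sum_congr rfl fun i _ => by rw [mul_smul]
  have hr' : ∀ l, ∑ i, r l i • G i = 0 := by
    intro l
    have : r l ∈ relOf A G := by
      rw [hr]
      exact Submodule.subset_span ⟨l, rfl⟩
    exact this
  have hr'' : ∀ f : β → A, ∑ i, (∑ l, f l * r l i) • G i = 0 := by
    intro f
    simp only [Finset.sum_smul]
    rw [Finset.sum_comm]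
    refine Finset.sum_eq_zero fun l _ => ?_
    have : ∑ i, (f l * r l i) • G i = f l • ∑ i, r l i • G i := by
      rw [Finset.smul_sum]
      exact Finset.sum_congr rfl fun i _ => by rw [mul_smul]
    rw [this, hr', smul_zero]
  apply le_antisymm
  · intro c hc
    rw [mem_relOf, hρ', ← mem_relOf, hr, mem_span_fam] at hc
    obtain ⟨f, hf⟩ := hc
    have hf' : ∀ i, ∑ j, c j * ρ j i = ∑ l, f l * r l i := by
      intro i
      have := congrFun hf i
      simpa [Finset.sum_apply] using this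
    obtain ⟨E, c', f', hc', hf''⟩ := hgen c f ⟨0, fun i => by simp [hf' i]⟩
    have key : ∀ i, ∑ k, E k * D k i = ∑ j, c' j * ρ j i - ∑ l, f' l * r l i := by
      intro i
      have h1 : ∑ j, c j * ρ j i - ∑ l, f l * r l i = 0 := by rw [hf' i, sub_self]
      have h2 : ∑ j, c j * ρ j i = ∑ k, E k * ∑ j, C k j * ρ j i + H.h * ∑ j, c' j * ρ j i := by
        simp only [hc', add_mul, Finset.sum_add_distrib, Finset.sum_mul, Finset.mul_sum, mul_assoc]
        congr 1
        rw [Finset.sum_comm]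
      have h3 : ∑ l, f l * r l i = ∑ k, E k * ∑ l, F k l * r l i + H.h * ∑ l, f' l * r l i := by
        simp only [hf'', add_mul, Finset.sum_add_distrib, Finset.sum_mul, Finset.mul_sum, mul_assoc]
        congr 1
        rw [Finset.sum_comm]
      have h4 : ∑ k, E k * ∑ j, C k j * ρ j i - ∑ k, E k * ∑ l, F k l * r l i =
          - (H.h * ∑ k, E k * D k i) := by
        rw [← Finset.sum_sub_distrib, Finset.mul_sum, ← Finset.sum_neg_distrib]
        refine Finset.sum_congr rfl fun k _ => ?_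
        rw [← mul_sub, hC, mul_neg, ← mul_assoc, ← mul_assoc, H.comm]
      have h5 : H.h * (∑ k, E k * D k i) = H.h * (∑ j, c' j * ρ j i - ∑ l, f' l * r l i) := by
        rw [h2, h3] at h1
        rw [mul_sub]
        have : - (H.h * ∑ k, E k * D k i) + (H.h * ∑ j, c' j * ρ j i -
            H.h * ∑ l, f' l * r l i) = 0 := by
          rw [← h4, ← h1]
          abel
        rw [neg_add_eq_zero] at this
        exact this
      exact H.reg_iff.mp h5
    rw [mem_span_fam]
    refine ⟨Sum.elim E (Sum.elim c' f'), ?_⟩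
    funext j
    simp only [Fintype.sum_sum_type, Sum.elim_inl, Sum.elim_inr, Pi.add_apply, Finset.sum_apply,
      Pi.smul_apply, smul_eq_mul]
    have e1 : ∑ k, E k * (C k j + ∑ i, D k i * σ i j) =
        ∑ k, E k * C k j + ∑ i, (∑ k, E k * D k i) * σ i j := by
      simp only [mul_add, Finset.sum_add_distrib, Finset.mul_sum, Finset.sum_mul, mul_assoc]
      congr 1
      rw [Finset.sum_comm]
    have e2 : ∑ j', c' j' * (H.h * (if j' = j then 1 else 0) - ∑ i, ρ j' i * σ i j) =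
        H.h * c' j - ∑ i, (∑ j', c' j' * ρ j' i) * σ i j := by
      simp only [mul_sub, Finset.sum_sub_distrib]
      congr 1
      · simp [H.comm]
      · simp only [Finset.mul_sum, Finset.sum_mul, mul_assoc]
        rw [Finset.sum_comm]
    have e3 : ∑ l, f' l * ∑ i, r l i * σ i j = ∑ i, (∑ l, f' l * r l i) * σ i j := by
      simp only [Finset.mul_sum, Finset.sum_mul, mul_assoc]
      rw [Finset.sum_comm]
    rw [e1, e2, e3, hc' j]
    simp only [key, sub_mul, Finset.sum_sub_distrib]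
    abel
  · rw [Submodule.span_le]
    rintro _ ⟨k | j' | l, rfl⟩
    · change ∑ j, (C k j + ∑ i, D k i * σ i j) • g j = 0
      simp only [add_smul, Finset.sum_add_distrib]
      rw [hσ', hρ', ← Finset.sum_add_distrib, ← hr'' (F k)]
      refine Finset.sum_congr rfl fun i _ => ?_
      rw [← add_smul]
      congr 1
      have := hC k i
      rw [sub_eq_iff_eq_add] at this
      rw [this]
      abel
    · change ∑ j, (H.h * (if j' = j then 1 else 0) - ∑ i, ρ j' i * σ i j) • g j = 0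
      simp only [sub_smul, Finset.sum_sub_distrib]
      rw [hσ']
      have : ∑ j, (H.h * (if j' = j then (1 : A) else 0)) • g j = H.h • g j' := by
        simp [mul_smul, ite_smul]
      rw [this, hρ j', H.smul_sum_h, sub_self]
    · change ∑ j, (∑ i, r l i * σ i j) • g j = 0
      rw [hσ', ← H.smul_sum_h, hr', smul_zero]

end HStalk

end Pool.Agent.DQ
end

section

/-! Functions holomorphic near a point or near a set (`DifferentiableAt ℂ` in a neighbourhood). -/

set_option autoImplicit false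

open Set Filter Topology

namespace Pool.Agent.DQ

variable {E F : Type*} [NormedAddCommGroup E] [NormedSpace ℂ E] [NormedAddCommGroup F]
  [NormedSpace ℂ F]

/-- `f` is holomorphic near the point `x`. -/
def HolAt (f : E → ℂ) (x : E) : Prop := ∀ᶠ y in 𝓝 x, DifferentiableAt ℂ f y

/-- `f` is holomorphic near the set `K`. -/
def HolNear (f : E → ℂ) (K : Set E) : Prop := ∀ x ∈ K, HolAt f x

theorem HolAt.differentiableAt {f : E → ℂ} {x : E} (h : HolAt f x) : DifferentiableAt ℂ f x :=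
  h.self_of_nhds

theorem HolAt.eventually {f : E → ℂ} {x : E} (h : HolAt f x) : ∀ᶠ y in 𝓝 x, HolAt f y :=
  eventually_eventually_nhds.mpr h

theorem HolAt.congr {f g : E → ℂ} {x : E} (h : HolAt f x) (hfg : f =ᶠ[𝓝 x] g) : HolAt g x := by
  have h2 : ∀ᶠ y in 𝓝 x, f =ᶠ[𝓝 y] g := eventually_eventually_nhds.mpr hfg
  filter_upwards [h, h2] with y hy hy2
  exact hy.congr_of_eventuallyEq hy2.symm

theorem HolAt.const (c : ℂ) (x : E) : HolAt (fun _ => c) x :=
  Eventually.of_forall fun _ => differentiableAt_const _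

theorem HolAt.add {f g : E → ℂ} {x : E} (hf : HolAt f x) (hg : HolAt g x) :
    HolAt (fun y => f y + g y) x := by
  filter_upwards [hf, hg] with y h1 h2 using h1.add h2

theorem HolAt.sub {f g : E → ℂ} {x : E} (hf : HolAt f x) (hg : HolAt g x) :
    HolAt (fun y => f y - g y) x := by
  filter_upwards [hf, hg] with y h1 h2 using h1.sub h2

theorem HolAt.mul {f g : E → ℂ} {x : E} (hf : HolAt f x) (hg : HolAt g x) :
    HolAt (fun y => f y * g y) x := by
  filter_upwards [hf, hg] with y h1 h2 using h1.mul h2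

theorem HolAt.neg {f : E → ℂ} {x : E} (hf : HolAt f x) : HolAt (fun y => - f y) x := by
  filter_upwards [hf] with y h1 using h1.neg

theorem HolAt.sum {ι : Type*} {f : ι → E → ℂ} {x : E} (s : Finset ι)
    (hf : ∀ i ∈ s, HolAt (f i) x) : HolAt (fun y => ∑ i ∈ s, f i y) x := by
  classical
  induction s using Finset.induction_on with
  | empty => simpa using HolAt.const (0 : ℂ) x
  | insert a s ha ih =>
    simp only [Finset.sum_insert ha]
    exact (hf a (Finset.mem_insert_self _ _)).add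
      (ih fun i hi => hf i (Finset.mem_insert_of_mem hi))

theorem HolAt.comp {f : F → ℂ} {g : E → F} {x : E} (hf : HolAt f (g x))
    (hg : ∀ᶠ y in 𝓝 x, DifferentiableAt ℂ g y) : HolAt (fun y => f (g y)) x := by
  have h1 : Tendsto g (𝓝 x) (𝓝 (g x)) := hg.self_of_nhds.continuousAt
  filter_upwards [h1.eventually hf, hg] with y h2 h3
  exact h2.comp y h3

theorem HolNear.mono {f : E → ℂ} {K L : Set E} (h : HolNear f K) (hL : L ⊆ K) : HolNear f L :=
  fun x hx => h x (hL hx)

theorem HolNear.exists_open {f : E → ℂ} {K : Set E} (h : HolNear f K) :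
    ∃ U : Set E, IsOpen U ∧ K ⊆ U ∧ HolNear f U := by
  refine ⟨{x | HolAt f x}, ?_, fun x hx => h x hx, fun x hx => hx⟩
  exact isOpen_iff_mem_nhds.mpr fun x hx => HolAt.eventually hx

theorem holNear_iff_differentiableOn {f : E → ℂ} {U : Set E} (hU : IsOpen U) :
    HolNear f U ↔ DifferentiableOn ℂ f U := by
  constructor
  · intro h x hx
    exact (h x hx).differentiableAt.differentiableWithinAt
  · intro h x hx
    filter_upwards [hU.mem_nhds hx] with y hy
    exact h.differentiableAt (hU.mem_nhds hy)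

/-- A function holomorphic near a product of two compact sets is holomorphic and bounded on a
product of two open neighbourhoods. -/
theorem HolNear.exists_tube {f : E × F → ℂ} {C : Set E} {L : Set F} (hC : IsCompact C)
    (hL : IsCompact L) (h : HolNear f (C ×ˢ L)) :
    ∃ (N : Set E) (W : Set F) (M : ℝ), IsOpen N ∧ IsOpen W ∧ C ⊆ N ∧ L ⊆ W ∧ 0 ≤ M ∧
      DifferentiableOn ℂ f (N ×ˢ W) ∧ ∀ p ∈ N ×ˢ W, ‖f p‖ ≤ M := by
  -- local boundedness near the compact set
  have hK : IsCompact (C ×ˢ L) := hC.prod hL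
  have hb : ∃ M : ℝ, 0 ≤ M ∧ ∃ U : Set (E × F), IsOpen U ∧ C ×ˢ L ⊆ U ∧
      (∀ p ∈ U, HolAt f p) ∧ ∀ p ∈ U, ‖f p‖ ≤ M := by
    have hloc : ∀ x ∈ C ×ˢ L, ∃ U : Set (E × F), IsOpen U ∧ x ∈ U ∧
        (∀ p ∈ U, HolAt f p) ∧ ∃ M : ℝ, ∀ p ∈ U, ‖f p‖ ≤ M := by
      intro x hx
      have h1 := (h x hx).eventually
      have h2 : ∀ᶠ p in 𝓝 x, ‖f p‖ < ‖f x‖ + 1 := by
        have := (h x hx).differentiableAt.continuousAt.norm
        exact this.eventually (gt_mem_nhds (by linarith))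
      obtain ⟨U, hU, hUo, hxU⟩ := eventually_nhds_iff.mp (h1.and h2)
      exact ⟨U, hUo, hxU, fun p hp => (hU p hp).1, ‖f x‖ + 1, fun p hp => (hU p hp).2.le⟩
    choose! U hUo hxU hUh M hM using hloc
    obtain ⟨t, hcov⟩ := hK.elim_nhds_subcover' (fun x _ => U x)
      (fun x hx => (hUo x hx).mem_nhds (hxU x hx))
    refine ⟨∑ x ∈ t, |M x|, Finset.sum_nonneg fun _ _ => abs_nonneg _,
      ⋃ x ∈ t, U x, ?_, ?_, ?_, ?_⟩
    · exact isOpen_biUnion fun x _ => hUo x x.2
    · exact hcov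
    · intro p hp
      simp only [mem_iUnion] at hp
      obtain ⟨x, hx, hp⟩ := hp
      exact hUh x x.2 p hp
    · intro p hp
      simp only [mem_iUnion] at hp
      obtain ⟨x, hx, hp⟩ := hp
      calc ‖f p‖ ≤ M x := hM x x.2 p hp
        _ ≤ |M x| := le_abs_self _
        _ ≤ ∑ x ∈ t, |M x| := Finset.single_le_sum (f := fun x : C ×ˢ L => |M x|)
            (fun _ _ => abs_nonneg _) hx
  obtain ⟨M, hM0, U, hUo, hKU, hUh, hUb⟩ := hb
  obtain ⟨N, W, hN, hW, hCN, hLW, hNW⟩ := generalized_tube_lemma hC hL hUo hKU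
  refine ⟨N, W, M, hN, hW, hCN, hLW, hM0, ?_, fun p hp => hUb p (hNW hp)⟩
  intro p hp
  exact (hUh p (hNW hp)).differentiableAt.differentiableWithinAt

end Pool.Agent.DQ
end

section

/-! Etale style sheaves (proposal of helper33 for DQ/Defs.lean).  A sheaf is a family of stalks
together with a predicate `At s x` (the total function `s` is a section near `x`), in the same
way as `AnalyticAt f x`. -/

set_option autoImplicit false

open Set Filter Topology

universe u v w

namespace Pool.Agent.DQ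

/-- Sheaf of rings on `X`, given by its stalks and its sections. -/
structure ERing (X : Type u) [TopologicalSpace X] where
  /-- the open set where the sheaf lives -/
  dom : Set X
  St : X → Type v
  [ring : ∀ x, Ring (St x)]
  At : ((x : X) → St x) → X → Prop
  mem_dom : ∀ {s : (x : X) → St x} {x : X}, At s x → x ∈ dom
  ev : ∀ {s : (x : X) → St x} {x : X}, At s x → ∀ᶠ y in 𝓝 x, At s y
  congr : ∀ {s t : (x : X) → St x} {x : X}, At s x → (∀ᶠ y in 𝓝 x, s y = t y) → At t x
  inj : ∀ {s t : (x : X) → St x} {x : X}, At s x → At t x → s x = t x → ∀ᶠ y in 𝓝 x, s y = t y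
  surj : ∀ x ∈ dom, ∀ g : St x, ∃ s : (x : X) → St x, At s x ∧ s x = g
  zero : ∀ x ∈ dom, At 0 x
  one : ∀ x ∈ dom, At 1 x
  add : ∀ {s t : (x : X) → St x} {x : X}, At s x → At t x → At (s + t) x
  neg : ∀ {s : (x : X) → St x} {x : X}, At s x → At (-s) x
  mul : ∀ {s t : (x : X) → St x} {x : X}, At s x → At t x → At (s * t) x

attribute [instance] ERing.ring

variable {X : Type u} [TopologicalSpace X]

/-- Sheaf of modules over the sheaf of rings `R`. -/
structure EMod (R : ERing.{u, v} X) where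
  /-- the open set where the sheaf lives -/
  dom : Set X
  dom_sub : dom ⊆ R.dom
  St : X → Type w
  [grp : ∀ x, AddCommGroup (St x)]
  [mod : ∀ x, Module (R.St x) (St x)]
  At : ((x : X) → St x) → X → Prop
  mem_dom : ∀ {s : (x : X) → St x} {x : X}, At s x → x ∈ dom
  ev : ∀ {s : (x : X) → St x} {x : X}, At s x → ∀ᶠ y in 𝓝 x, At s y
  congr : ∀ {s t : (x : X) → St x} {x : X}, At s x → (∀ᶠ y in 𝓝 x, s y = t y) → At t x
  inj : ∀ {s t : (x : X) → St x} {x : X}, At s x → At t x → s x = t x → ∀ᶠ y in 𝓝 x, s y = t y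
  surj : ∀ x ∈ dom, ∀ g : St x, ∃ s : (x : X) → St x, At s x ∧ s x = g
  zero : ∀ x ∈ dom, At 0 x
  add : ∀ {s t : (x : X) → St x} {x : X}, At s x → At t x → At (s + t) x
  smul : ∀ {a : (x : X) → R.St x} {s : (x : X) → St x} {x : X}, R.At a x → At s x →
    At (fun y => a y • s y) x

attribute [instance] EMod.grp EMod.mod

/-- `s` is a section near every point of `K` -/
def EMod.On {R : ERing.{u, v} X} (M : EMod.{u, v, w} R) (s : (x : X) → M.St x) (K : Set X) :
    Prop := ∀ x ∈ K, M.At s x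

/-- the sections `g i` generate all stalks over `K` -/
def EMod.Gen {R : ERing.{u, v} X} (M : EMod.{u, v, w} R) {n : ℕ}
    (g : Fin n → (x : X) → M.St x) (K : Set X) : Prop :=
  ∀ x ∈ K, Submodule.span (R.St x) (Set.range fun i => g i x) = ⊤

/-- the relation module of the `g i` at `x` -/
def EMod.rel {R : ERing.{u, v} X} (M : EMod.{u, v, w} R) {n : ℕ}
    (g : Fin n → (x : X) → M.St x) (x : X) : Submodule (R.St x) (Fin n → R.St x) where
  carrier := {c | ∑ i, c i • g i x = 0}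
  add_mem' := by
    intro a b ha hb
    simp only [mem_ofPred_eq, Pi.add_apply, add_smul, Finset.sum_add_distrib] at *
    rw [ha, hb, add_zero]
  zero_mem' := by simp
  smul_mem' := by
    intro r a ha
    simp only [mem_ofPred_eq, Pi.smul_apply, smul_eq_mul, mul_smul] at *
    rw [← Finset.smul_sum, ha, smul_zero]

/-- coherent near `x`: finitely generated near `x`, and the relations between finitely many
sections near `x` are finitely generated near `x` -/
def EMod.CohAt {R : ERing.{u, v} X} (M : EMod.{u, v, w} R) (x : X) : Prop :=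
  x ∈ M.dom ∧ (∃ (n : ℕ) (g : Fin n → (y : X) → M.St y), (∀ i, M.At (g i) x) ∧
    ∀ᶠ y in 𝓝 x, Submodule.span (R.St y) (Set.range fun i => g i y) = ⊤) ∧
  ∀ (n : ℕ) (g : Fin n → (y : X) → M.St y), (∀ i, M.At (g i) x) →
    ∃ (m : ℕ) (r : Fin m → Fin n → (y : X) → R.St y), (∀ j i, R.At (r j i) x) ∧
      ∀ᶠ y in 𝓝 x, M.rel g y = Submodule.span (R.St y) (Set.range fun j => fun i => r j i y)

/-- coherent near every point of `K` -/
def EMod.Coh {R : ERing.{u, v} X} (M : EMod.{u, v, w} R) (K : Set X) : Prop :=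
  ∀ x ∈ K, ∀ᶠ y in 𝓝 x, M.CohAt y

theorem ERing.isOpen_dom (R : ERing.{u, v} X) : IsOpen R.dom :=
  isOpen_iff_mem_nhds.2 fun x hx => (R.ev (R.zero x hx)).mono fun _ h => R.mem_dom h

theorem EMod.isOpen_dom {R : ERing.{u, v} X} (M : EMod.{u, v, w} R) : IsOpen M.dom :=
  isOpen_iff_mem_nhds.2 fun x hx => (M.ev (M.zero x hx)).mono fun _ h => M.mem_dom h

/-- a submodule sheaf, given by submodules of the stalks such that every element extends -/
def EMod.sub {R : ERing.{u, v} X} (M : EMod.{u, v, w} R) (N : ∀ x, Submodule (R.St x) (M.St x))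
    (hN : ∀ x ∈ M.dom, ∀ g ∈ N x, ∃ s : (x : X) → M.St x,
      M.At s x ∧ s x = g ∧ ∀ᶠ y in 𝓝 x, s y ∈ N y) :
    EMod.{u, v, w} R where
  dom := M.dom
  dom_sub := M.dom_sub
  mem_dom h := M.mem_dom h
  St x := N x
  At s x := M.At (fun y => (s y : M.St y)) x
  ev h := M.ev h
  congr h h' := M.congr h (h'.mono fun y hy => by rw [hy])
  inj h h' e := (M.inj h h' (by rw [e])).mono fun y hy => Subtype.ext hy
  surj x hx g := by
    classical
    obtain ⟨s, hs, hg, hN'⟩ := hN x hx g.1 g.2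
    refine ⟨fun y => if h : s y ∈ N y then ⟨s y, h⟩ else 0, ?_, ?_⟩
    · refine M.congr hs ?_
      filter_upwards [hN'] with y hy
      simp [hy]
    · simp [hg]
  zero x hx := M.zero x hx
  add h h' := M.add h h'
  smul h h' := M.smul h h'

/-- quotient of a module sheaf by a submodule sheaf -/
def EMod.quot {R : ERing.{u, v} X} (M : EMod.{u, v, w} R) (N : ∀ x, Submodule (R.St x) (M.St x))
    (hN : ∀ x ∈ M.dom, ∀ g ∈ N x, ∃ s : (x : X) → M.St x,
      M.At s x ∧ s x = g ∧ ∀ᶠ y in 𝓝 x, s y ∈ N y) :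
    EMod.{u, v, w} R where
  dom := M.dom
  dom_sub := M.dom_sub
  mem_dom := fun ⟨_, h, _⟩ => M.mem_dom h
  St x := M.St x ⧸ N x
  At s x := ∃ t : (x : X) → M.St x, M.At t x ∧ ∀ᶠ y in 𝓝 x, s y = (N y).mkQ (t y)
  ev := by
    rintro s x ⟨t, ht, h⟩
    filter_upwards [M.ev ht, eventually_eventually_nhds.mpr h] with y h1 h2
    exact ⟨t, h1, h2⟩
  congr := by
    rintro s s' x ⟨t, ht, h⟩ h'
    refine ⟨t, ht, ?_⟩
    filter_upwards [h, h'] with y h1 h2
    rw [← h2, h1]
  inj := by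
    rintro s s' x ⟨t, ht, h⟩ ⟨t', ht', h'⟩ e
    have e1 : t x - t' x ∈ N x := by
      rw [← Submodule.Quotient.eq (N x)]
      have := h.self_of_nhds
      have := h'.self_of_nhds
      simp_all
    obtain ⟨u, hu, hux, huN⟩ := hN x (M.mem_dom ht) _ e1
    have ht'' : M.At (fun y => (fun _ => (-1 : R.St _)) y • t' y) x :=
      M.smul (R.neg (R.one x (M.dom_sub (M.mem_dom ht)))) ht'
    have h3 := M.inj (M.add ht ht'') hu (by
      rw [hux]
      simp [sub_eq_add_neg])
    filter_upwards [h, h', h3, huN] with y a b c d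
    rw [a, b, Submodule.mkQ_apply, Submodule.mkQ_apply, Submodule.Quotient.eq]
    have : t y - t' y = u y := by
      rw [← c]
      simp [sub_eq_add_neg]
    rw [this]
    exact d
  surj := by
    intro x hx g
    obtain ⟨m, rfl⟩ := (N x).mkQ_surjective g
    obtain ⟨s, hs, hsx⟩ := M.surj x hx m
    exact ⟨fun y => (N y).mkQ (s y), ⟨s, hs, Eventually.of_forall fun y => rfl⟩, by
      change (N x).mkQ (s x) = _
      rw [hsx]⟩
  zero x hx := ⟨0, M.zero x hx, Eventually.of_forall fun y => by simp⟩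
  add := by
    rintro s s' x ⟨t, ht, h⟩ ⟨t', ht', h'⟩
    refine ⟨t + t', M.add ht ht', ?_⟩
    filter_upwards [h, h'] with y h1 h2
    simp [h1, h2]
  smul := by
    rintro a s x ha ⟨t, ht, h⟩
    refine ⟨fun y => a y • t y, M.smul ha ht, ?_⟩
    filter_upwards [h] with y h1
    simp [h1]

/-- the free module sheaf `R ^ n` -/
def ERing.free (R : ERing.{u, v} X) (n : ℕ) : EMod.{u, v, v} R where
  dom := R.dom
  dom_sub := subset_rfl
  St x := Fin n → R.St x
  At s x := x ∈ R.dom ∧ ∀ i, R.At (fun y => s y i) x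
  mem_dom h := h.1
  ev h := (eventually_of_mem (R.isOpen_dom.mem_nhds h.1) fun _ hy => hy).and
    (eventually_all.mpr fun i => R.ev (h.2 i))
  congr h h' := ⟨h.1, fun i => R.congr (h.2 i) (h'.mono fun y hy => by rw [hy])⟩
  inj h h' e := by
    have := fun i => R.inj (h.2 i) (h'.2 i) (by rw [e])
    filter_upwards [eventually_all.mpr this] with y hy
    exact funext hy
  surj x hx g := by
    choose s hs hsx using fun i => R.surj x hx (g i)
    exact ⟨fun y i => s i y, ⟨hx, hs⟩, funext hsx⟩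
  zero x hx := ⟨hx, fun _ => R.zero x hx⟩
  add h h' := ⟨h.1, fun i => R.add (h.2 i) (h'.2 i)⟩
  smul h h' := ⟨h'.1, fun i => R.mul h (h'.2 i)⟩

/-- morphism of module sheaves -/
structure EHom {R : ERing.{u, v} X} (M : EMod.{u, v, w} R) (M' : EMod.{u, v, w} R) where
  map : ∀ x, M.St x →ₗ[R.St x] M'.St x
  at_map : ∀ {s : (x : X) → M.St x} {x : X}, M.At s x → M'.At (fun y => map y (s y)) x

theorem EHom.ker_open {R : ERing.{u, v} X} {M M' : EMod.{u, v, w} R} (φ : EHom M M') (x : X)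
    (hx : x ∈ M.dom) (g : M.St x) (hg : g ∈ LinearMap.ker (φ.map x)) :
    ∃ s : (x : X) → M.St x, M.At s x ∧ s x = g ∧ ∀ᶠ y in 𝓝 x, s y ∈ LinearMap.ker (φ.map y) := by
  obtain ⟨s, hs, rfl⟩ := M.surj x hx g
  refine ⟨s, hs, rfl, ?_⟩
  exact M'.inj (φ.at_map hs) (M'.zero x (M'.mem_dom (φ.at_map hs))) hg

theorem EHom.range_open {R : ERing.{u, v} X} {M M' : EMod.{u, v, w} R} (φ : EHom M M') (x : X)
    (hx : x ∈ M.dom) (g : M'.St x) (hg : g ∈ LinearMap.range (φ.map x)) :
    ∃ s : (x : X) → M'.St x, M'.At s x ∧ s x = g ∧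
      ∀ᶠ y in 𝓝 x, s y ∈ LinearMap.range (φ.map y) := by
  obtain ⟨m, rfl⟩ := hg
  obtain ⟨s, hs, rfl⟩ := M.surj x hx m
  exact ⟨fun y => φ.map y (s y), φ.at_map hs, rfl, Eventually.of_forall fun y => ⟨s y, rfl⟩⟩

/-! ### The structure sheaf of a complex vector space -/

section O

variable {E : Type u} [NormedAddCommGroup E] [NormedSpace ℂ E]

/-- germs of holomorphic functions at `x` -/
def OGerm (x : E) : Subring (Filter.Germ (𝓝 x) ℂ) where
  carrier := {g | ∃ f : E → ℂ, HolAt f x ∧ (f : Filter.Germ (𝓝 x) ℂ) = g}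
  mul_mem' := by
    rintro _ _ ⟨f, hf, rfl⟩ ⟨g, hg, rfl⟩
    exact ⟨f * g, by filter_upwards [hf, hg] with y h1 h2 using h1.mul h2, rfl⟩
  one_mem' := ⟨1, Eventually.of_forall fun _ => differentiableAt_const _, rfl⟩
  add_mem' := by
    rintro _ _ ⟨f, hf, rfl⟩ ⟨g, hg, rfl⟩
    exact ⟨f + g, by filter_upwards [hf, hg] with y h1 h2 using h1.add h2, rfl⟩
  zero_mem' := ⟨0, Eventually.of_forall fun _ => differentiableAt_const _, rfl⟩
  neg_mem' := by
    rintro _ ⟨f, hf, rfl⟩
    exact ⟨-f, by filter_upwards [hf] with y h1 using h1.neg, rfl⟩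

open Classical in
/-- the germ at `x` of a function (zero if it is not holomorphic near `x`) -/
noncomputable def gm (f : E → ℂ) (x : E) : OGerm x :=
  if h : HolAt f x then ⟨(f : Filter.Germ (𝓝 x) ℂ), f, h, rfl⟩ else 0

theorem gm_coe {f : E → ℂ} {x : E} (h : HolAt f x) :
    ((gm f x : OGerm x) : Filter.Germ (𝓝 x) ℂ) = (f : Filter.Germ (𝓝 x) ℂ) := by
  simp [gm, h]

theorem gm_eq_iff {f g : E → ℂ} {x : E} (hf : HolAt f x) (hg : HolAt g x) :
    gm f x = gm g x ↔ f =ᶠ[𝓝 x] g := by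
  rw [← Subtype.coe_inj, gm_coe hf, gm_coe hg, Filter.Germ.coe_eq]

theorem exists_gm {x : E} (g : OGerm x) : ∃ f : E → ℂ, HolAt f x ∧ gm f x = g := by
  obtain ⟨g, f, hf, rfl⟩ := g
  exact ⟨f, hf, Subtype.ext (gm_coe hf)⟩

theorem gm_add {f g : E → ℂ} {x : E} (hf : HolAt f x) (hg : HolAt g x) :
    gm (f + g) x = gm f x + gm g x := by
  have h : HolAt (f + g) x := by filter_upwards [hf, hg] with y h1 h2 using h1.add h2
  apply Subtype.ext
  rw [gm_coe h, Subring.coe_add, gm_coe hf, gm_coe hg]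
  rfl

theorem gm_mul {f g : E → ℂ} {x : E} (hf : HolAt f x) (hg : HolAt g x) :
    gm (f * g) x = gm f x * gm g x := by
  have h : HolAt (f * g) x := by filter_upwards [hf, hg] with y h1 h2 using h1.mul h2
  apply Subtype.ext
  rw [gm_coe h, Subring.coe_mul, gm_coe hf, gm_coe hg]
  rfl

theorem gm_neg {f : E → ℂ} {x : E} (hf : HolAt f x) : gm (-f) x = - gm f x := by
  have h : HolAt (-f) x := by filter_upwards [hf] with y h1 using h1.neg
  apply Subtype.ext
  rw [gm_coe h, Subring.coe_neg, gm_coe hf]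
  rfl

theorem gm_zero (x : E) : gm (0 : E → ℂ) x = 0 := Subtype.ext (gm_coe (HolAt.const 0 x))

theorem gm_one (x : E) : gm (1 : E → ℂ) x = 1 := Subtype.ext (gm_coe (HolAt.const 1 x))

variable (E) in
/-- the sheaf of holomorphic functions -/
noncomputable def O : ERing.{u, u} E where
  dom := univ
  mem_dom _ := mem_univ _
  St x := OGerm x
  At s x := ∃ f : E → ℂ, HolAt f x ∧ ∀ᶠ y in 𝓝 x, s y = gm f y
  ev := by
    rintro s x ⟨f, hf, h⟩
    filter_upwards [hf.eventually, eventually_eventually_nhds.mpr h] with y h1 h2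
    exact ⟨f, h1, h2⟩
  congr := by
    rintro s t x ⟨f, hf, h⟩ h'
    exact ⟨f, hf, by filter_upwards [h, h'] with y h1 h2; rw [← h2, h1]⟩
  inj := by
    rintro s t x ⟨f, hf, h⟩ ⟨g, hg, h'⟩ e
    rw [h.self_of_nhds, h'.self_of_nhds, gm_eq_iff hf hg] at e
    filter_upwards [h, h', hf.eventually, hg.eventually, eventually_eventually_nhds.mpr e] with y h1 h2 h3 h4 h5
    rw [h1, h2]
    exact (gm_eq_iff h3 h4).mpr h5
  surj := by
    intro x _ g
    obtain ⟨f, hf, hg⟩ := exists_gm g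
    exact ⟨gm f, ⟨f, hf, Eventually.of_forall fun _ => rfl⟩, hg⟩
  zero x _ := ⟨0, HolAt.const 0 x, Eventually.of_forall fun y => (gm_zero y).symm⟩
  one x _ := ⟨1, HolAt.const 1 x, Eventually.of_forall fun y => (gm_one y).symm⟩
  add := by
    rintro s t x ⟨f, hf, h⟩ ⟨g, hg, h'⟩
    refine ⟨f + g, by filter_upwards [hf, hg] with y h1 h2 using h1.add h2, ?_⟩
    filter_upwards [h, h', hf.eventually, hg.eventually] with y h1 h2 h3 h4
    rw [gm_add h3 h4, ← h1, ← h2]
    rfl
  neg := by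
    rintro s x ⟨f, hf, h⟩
    refine ⟨-f, by filter_upwards [hf] with y h1 using h1.neg, ?_⟩
    filter_upwards [h, hf.eventually] with y h1 h3
    rw [gm_neg h3, ← h1]
    rfl
  mul := by
    rintro s t x ⟨f, hf, h⟩ ⟨g, hg, h'⟩
    refine ⟨f * g, by filter_upwards [hf, hg] with y h1 h2 using h1.mul h2, ?_⟩
    filter_upwards [h, h', hf.eventually, hg.eventually] with y h1 h2 h3 h4
    rw [gm_mul h3 h4, ← h1, ← h2]
    rfl

end O

end Pool.Agent.DQ
end

section

/-! # DQ: boxes, values, abstract deformations, reduction modulo `ħ` -/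

set_option autoImplicit false

open Set Filter Topology

universe u v w

namespace Pool.Agent.DQ

/-! ## Discs, annuli and products in linear coordinates -/

section Boxes

/-- Open disc (if `r < 0`) or open annulus (if `0 ≤ r`) with centre `c`. -/
def ring (c : ℂ) (r R : ℝ) : Set ℂ := {z | r < ‖z - c‖ ∧ ‖z - c‖ < R}

/-- Closed disc (if `r ≤ 0`) or closed annulus (if `0 < r`) with centre `c`. -/
def cring (c : ℂ) (r R : ℝ) : Set ℂ := {z | r ≤ ‖z - c‖ ∧ ‖z - c‖ ≤ R}

variable {V : Type u} [NormedAddCommGroup V] [NormedSpace ℂ V] {n : ℕ}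

/-- Open product of discs and annuli in the linear coordinates `κ`. -/
def box (κ : V ≃L[ℂ] (Fin n → ℂ)) (c : Fin n → ℂ) (r R : Fin n → ℝ) : Set V :=
  {x | ∀ i, κ x i ∈ ring (c i) (r i) (R i)}

/-- Closed product of discs and annuli in the linear coordinates `κ`. -/
def cbox (κ : V ≃L[ℂ] (Fin n → ℂ)) (c : Fin n → ℂ) (r R : Fin n → ℝ) : Set V :=
  {x | ∀ i, κ x i ∈ cring (c i) (r i) (R i)}

/-- Non-degenerate radii: every factor is a disc (`r < 0 < R`) or an annulus (`0 < r < R`), so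
that `cbox` is the closure of `box`. -/
def GoodRadii (r R : Fin n → ℝ) : Prop := ∀ i, r i ≠ 0 ∧ r i < R i ∧ 0 < R i

end Boxes

/-- The value at `x` of a germ of a holomorphic function. -/
noncomputable def val {V : Type u} [NormedAddCommGroup V] [NormedSpace ℂ V] {x : V}
    (g : OGerm x) : ℂ := (g : Filter.Germ (𝓝 x) ℂ).value

/-- The germ at `x` of the function `f`, as an element of the stalk of the structure sheaf (use this
form in front of `•`). -/
noncomputable abbrev om {V : Type u} [NormedAddCommGroup V] [NormedSpace ℂ V] (f : V → ℂ) (x : V) :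
    (O V).St x := gm f x

noncomputable instance {V : Type u} [NormedAddCommGroup V] [NormedSpace ℂ V] (x : V) :
    CommRing ((O V).St x) :=
  { (O V).ring x with mul_comm := fun a b => mul_comm (show OGerm x from a) b }

/-! ## Deformations of the sheaf of holomorphic functions -/

section Defo

/-- A deformation (formal, along a central parameter `ħ`) of the sheaf of holomorphic functions on
the open set `A.dom`. Star algebras are the main example. Outside `A.dom` nothing is required. -/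
structure Defo (V : Type u) [NormedAddCommGroup V] [NormedSpace ℂ V] where
  /-- the sheaf of rings -/
  A : ERing.{u, v} V
  /-- the germs of the parameter -/
  hb : ∀ x, A.St x
  hb_at : ∀ x ∈ A.dom, A.At hb x
  hb_comm : ∀ x ∈ A.dom, ∀ a : A.St x, hb x * a = a * hb x
  hb_reg : ∀ x ∈ A.dom, ∀ a : A.St x, hb x * a = 0 → a = 0
  /-- reduction modulo the parameter -/
  red : ∀ x, A.St x → (O V).St x
  red_add : ∀ x ∈ A.dom, ∀ a b, red x (a + b) = red x a + red x b
  red_mul : ∀ x ∈ A.dom, ∀ a b, red x (a * b) = red x a * red x b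
  red_one : ∀ x ∈ A.dom, red x 1 = 1
  red_surj : ∀ x ∈ A.dom, Function.Surjective (red x)
  red_ker : ∀ x ∈ A.dom, ∀ a : A.St x, red x a = 0 ↔ ∃ b, a = hb x * b
  red_at : ∀ {a : ∀ x, A.St x} {x : V}, x ∈ A.dom → A.At a x → (O V).At (fun y => red y (a y)) x
  /-- functions on an open set lift to sections of `A` -/
  lift_at : ∀ {U : Set V} {f : ∀ x, (O V).St x}, IsOpen U → U ⊆ A.dom → (∀ x ∈ U, (O V).At f x) →
    ∃ a : ∀ x, A.St x, (∀ x ∈ U, A.At a x) ∧ ∀ x ∈ U, red x (a x) = f x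
  /-- separatedness: no germ is divisible by all powers of the parameter -/
  sep : ∀ x ∈ A.dom, ∀ a : A.St x, (∀ k : ℕ, ∃ b, a = hb x ^ k * b) → a = 0
  /-- completeness over every open set -/
  complete : ∀ {U : Set V} (a : ℕ → ∀ x, A.St x), IsOpen U → U ⊆ A.dom →
    (∀ k, ∀ x ∈ U, A.At (a k) x) →
    ∃ s : ∀ x, A.St x, (∀ x ∈ U, A.At s x) ∧
      ∀ k : ℕ, ∀ x ∈ U, ∃ b, s x = (∑ i ∈ Finset.range k, hb x ^ i * a i x) + hb x ^ k * b

variable {V : Type u} [NormedAddCommGroup V] [NormedSpace ℂ V]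

/-- The opposite deformation (right modules over `𝓐` are left modules over `𝓐.op`). -/
def Defo.op (𝓐 : Defo.{u, v} V) : Defo.{u, v} V where
  A :=
    { dom := 𝓐.A.dom
      St := fun x => (𝓐.A.St x)ᵐᵒᵖ
      At := fun s x => 𝓐.A.At (fun y => (s y).unop) x
      mem_dom := fun h => 𝓐.A.mem_dom h
      ev := fun h => 𝓐.A.ev h
      congr := fun h h' => 𝓐.A.congr h (h'.mono fun y hy => by rw [hy])
      inj := fun h h' e => (𝓐.A.inj h h' (by rw [e])).mono fun y hy =>
        MulOpposite.unop_injective hy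
      surj := fun x hx g => by
        obtain ⟨s, hs, h⟩ := 𝓐.A.surj x hx g.unop
        exact ⟨fun y => MulOpposite.op (s y), hs, (congrArg MulOpposite.op h).trans rfl⟩
      zero := fun x => 𝓐.A.zero x
      one := fun x => 𝓐.A.one x
      add := fun h h' => 𝓐.A.add h h'
      neg := fun h => 𝓐.A.neg h
      mul := fun h h' => 𝓐.A.mul h' h }
  hb := fun x => MulOpposite.op (𝓐.hb x)
  hb_at := 𝓐.hb_at
  hb_comm := fun x hx a => MulOpposite.unop_injective (𝓐.hb_comm x hx a.unop).symm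
  hb_reg := fun x hx a h => MulOpposite.unop_injective
    (𝓐.hb_reg x hx a.unop ((𝓐.hb_comm x hx a.unop).trans (congrArg MulOpposite.unop h)))
  red := fun x a => 𝓐.red x a.unop
  red_add := fun x hx a b => 𝓐.red_add x hx _ _
  red_mul := fun x hx a b => (𝓐.red_mul x hx b.unop a.unop).trans (mul_comm _ _)
  red_one := fun x hx => 𝓐.red_one x hx
  red_surj := fun x hx f => by
    obtain ⟨a, ha⟩ := 𝓐.red_surj x hx f
    exact ⟨MulOpposite.op a, ha⟩
  red_ker := fun x hx a => by
    rw [𝓐.red_ker x hx]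
    constructor
    · rintro ⟨b, hb⟩
      exact ⟨MulOpposite.op b, MulOpposite.unop_injective (hb.trans (𝓐.hb_comm x hx b))⟩
    · rintro ⟨b, hb⟩
      exact ⟨b.unop, (congrArg MulOpposite.unop hb).trans (𝓐.hb_comm x hx b.unop).symm⟩
  red_at := fun hx h => 𝓐.red_at hx h
  lift_at := fun hU hUd hf => by
    obtain ⟨a, ha, h⟩ := 𝓐.lift_at hU hUd hf
    exact ⟨fun x => MulOpposite.op (a x), ha, h⟩
  sep := fun x hx a h => MulOpposite.unop_injective (𝓐.sep x hx a.unop fun k => by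
    obtain ⟨b, hb⟩ := h k
    refine ⟨b.unop, ?_⟩
    have h1 : ∀ c : 𝓐.A.St x, 𝓐.hb x ^ k * c = c * 𝓐.hb x ^ k := fun c =>
      (Commute.pow_left (𝓐.hb_comm x hx c : Commute _ _) k)
    rw [h1, hb]
    rfl)
  complete := fun {U} a hU hUd ha => by
    obtain ⟨s, hs, h⟩ := 𝓐.complete (fun k x => (a k x).unop) hU hUd ha
    refine ⟨fun x => MulOpposite.op (s x), hs, fun k x hx => ?_⟩
    obtain ⟨b, hb⟩ := h k x hx
    have h1 : ∀ (k : ℕ) (c : 𝓐.A.St x), 𝓐.hb x ^ k * c = c * 𝓐.hb x ^ k := fun k c =>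
      (Commute.pow_left (𝓐.hb_comm x (hUd hx) c : Commute _ _) k)
    refine ⟨MulOpposite.op b, MulOpposite.unop_injective ?_⟩
    rw [MulOpposite.unop_op, hb, MulOpposite.unop_add, MulOpposite.unop_mul,
      MulOpposite.unop_pow, MulOpposite.unop_op, MulOpposite.unop_op, h1 k b,
      Finset.unop_sum]
    congr 1
    refine Finset.sum_congr rfl fun i _ => ?_
    rw [MulOpposite.unop_mul, MulOpposite.unop_pow, MulOpposite.unop_op, h1]

end Defo

end Pool.Agent.DQ
end

section

/-! The stalks of a deformation. -/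

set_option autoImplicit false

open Set Filter Topology

universe u v w

namespace Pool.Agent.DQ

variable {X : Type u} [TopologicalSpace X]

/-! ### Sections of sheaves of rings and modules -/

theorem ERing.sub {R : ERing.{u, v} X} {s t : (x : X) → R.St x} {x : X} (hs : R.At s x)
    (ht : R.At t x) : R.At (s - t) x := by
  rw [sub_eq_add_neg]
  exact R.add hs (R.neg ht)

theorem ERing.sum {R : ERing.{u, v} X} {ι : Type*} (I : Finset ι) {s : ι → (x : X) → R.St x}
    {x : X} (hx : x ∈ R.dom) (hs : ∀ i ∈ I, R.At (s i) x) : R.At (∑ i ∈ I, s i) x := by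
  classical
  induction I using Finset.induction_on with
  | empty => simpa using R.zero x hx
  | insert a I ha ih =>
    rw [Finset.sum_insert ha]
    exact R.add (hs a (Finset.mem_insert_self _ _)) (ih fun i hi => hs i (Finset.mem_insert_of_mem hi))

theorem ERing.pow {R : ERing.{u, v} X} {s : (x : X) → R.St x} {x : X} (hs : R.At s x) (k : ℕ) :
    R.At (s ^ k) x := by
  induction k with
  | zero => simpa using R.one x (R.mem_dom hs)
  | succ k ih =>
    rw [pow_succ]
    exact R.mul ih hs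

variable {R : ERing.{u, v} X} (M : EMod.{u, v, w} R)

theorem EMod.neg {s : (x : X) → M.St x} {x : X} (hs : M.At s x) : M.At (-s) x := by
  have := M.smul (R.neg (R.one x (M.dom_sub (M.mem_dom hs)))) hs
  refine M.congr this (Eventually.of_forall fun y => ?_)
  simp

theorem EMod.sub' {s t : (x : X) → M.St x} {x : X} (hs : M.At s x) (ht : M.At t x) :
    M.At (s - t) x := by
  rw [sub_eq_add_neg]
  exact M.add hs (M.neg ht)

theorem EMod.sum {ι : Type*} (I : Finset ι) {s : ι → (x : X) → M.St x}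
    {x : X} (hx : x ∈ M.dom) (hs : ∀ i ∈ I, M.At (s i) x) : M.At (∑ i ∈ I, s i) x := by
  classical
  induction I using Finset.induction_on with
  | empty => simpa using M.zero x hx
  | insert a I ha ih =>
    rw [Finset.sum_insert ha]
    exact M.add (hs a (Finset.mem_insert_self _ _)) (ih fun i hi => hs i (Finset.mem_insert_of_mem hi))

/-- linear combinations of sections -/
theorem EMod.comb {ι : Type*} [Fintype ι] {a : ι → (x : X) → R.St x} {s : ι → (x : X) → M.St x}
    {x : X} (hx : x ∈ M.dom) (ha : ∀ i, R.At (a i) x) (hs : ∀ i, M.At (s i) x) :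
    M.At (fun y => ∑ i, a i y • s i y) x := by
  have := M.sum Finset.univ (s := fun i y => a i y • s i y) hx fun i _ => M.smul (ha i) (hs i)
  refine M.congr this (Eventually.of_forall fun y => ?_)
  simp [Finset.sum_apply]

/-- an equality of sections at a point holds near the point -/
theorem EMod.eq_near {s t : (x : X) → M.St x} {x : X} (hs : M.At s x) (ht : M.At t x)
    (h : s x = t x) : ∀ᶠ y in 𝓝 x, s y = t y := M.inj hs ht h

/-- sections glue: a function which is everywhere near `x` locally given by sections -/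
theorem EMod.glue_unique {s : (x : X) → M.St x} {x : X}
    (h : ∃ t : (x : X) → M.St x, M.At t x ∧ ∀ᶠ y in 𝓝 x, s y = t y) : M.At s x := by
  obtain ⟨t, ht, h⟩ := h
  exact M.congr ht (h.mono fun y hy => hy.symm)

namespace Defo

variable {V : Type u} [NormedAddCommGroup V] [NormedSpace ℂ V] (𝓐 : Defo.{u, v} V)

theorem red_zero' {x : V} (hx : x ∈ 𝓐.A.dom) : 𝓐.red x 0 = 0 :=
  (𝓐.red_ker x hx 0).2 ⟨0, by simp⟩

/-- the reduction as a ring homomorphism -/
def redHom {x : V} (hx : x ∈ 𝓐.A.dom) : 𝓐.A.St x →+* (O V).St x where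
  toFun := 𝓐.red x
  map_one' := 𝓐.red_one x hx
  map_mul' := 𝓐.red_mul x hx
  map_zero' := 𝓐.red_zero' hx
  map_add' := 𝓐.red_add x hx

theorem hb_pow_comm {x : V} (hx : x ∈ 𝓐.A.dom) (k : ℕ) (a : 𝓐.A.St x) :
    𝓐.hb x ^ k * a = a * 𝓐.hb x ^ k :=
  ((show Commute (𝓐.hb x) a from 𝓐.hb_comm x hx a).pow_left k).eq

/-- geometric series -/
theorem unit_one_sub {x : V} (hx : x ∈ 𝓐.A.dom) (b : 𝓐.A.St x) : IsUnit (1 - 𝓐.hb x * b) := by
  obtain ⟨t, ht, rfl⟩ := 𝓐.A.surj x hx b
  obtain ⟨U, hU, hUo, hxU⟩ := eventually_nhds_iff.mp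
    ((𝓐.A.ev ht).and (𝓐.A.isOpen_dom.mem_nhds hx))
  obtain ⟨s, hs, h⟩ := 𝓐.complete (U := U) (fun k => t ^ k) hUo (fun y hy => (hU y hy).2)
    (fun k y hy => 𝓐.A.pow (hU y hy).1 k)
  have hc : Commute (𝓐.hb x) (t x) := 𝓐.hb_comm x hx (t x)
  have hgeo : ∀ k, ∑ i ∈ Finset.range k, 𝓐.hb x ^ i * (t ^ i) x =
      ∑ i ∈ Finset.range k, (𝓐.hb x * t x) ^ i := by
    intro k
    refine Finset.sum_congr rfl fun i _ => ?_
    rw [Pi.pow_apply, hc.mul_pow]
  have r1 : (1 - 𝓐.hb x * t x) * s x = 1 := by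
    rw [← sub_eq_zero]
    apply 𝓐.sep x hx
    intro k
    obtain ⟨c, hc'⟩ := h k x hxU
    rw [hgeo] at hc'
    refine ⟨(1 - 𝓐.hb x * t x) * c - (t x) ^ k, ?_⟩
    rw [hc', mul_add, mul_neg_geom_sum, mul_sub, hc.mul_pow]
    rw [← mul_assoc (1 - 𝓐.hb x * t x), ← 𝓐.hb_pow_comm hx k (1 - 𝓐.hb x * t x), mul_assoc]
    abel
  have r2 : s x * (1 - 𝓐.hb x * t x) = 1 := by
    rw [← sub_eq_zero]
    apply 𝓐.sep x hx
    intro k
    obtain ⟨c, hc'⟩ := h k x hxU
    rw [hgeo] at hc'
    refine ⟨c * (1 - 𝓐.hb x * t x) - (t x) ^ k, ?_⟩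
    rw [hc', add_mul, geom_sum_mul_neg, mul_sub (𝓐.hb x ^ k) (c * _), hc.mul_pow,
      mul_assoc (𝓐.hb x ^ k) c]
    abel
  exact ⟨⟨_, _, r1, r2⟩, rfl⟩

/-- the stalk -/
def stalk {x : V} (hx : x ∈ 𝓐.A.dom) : HStalk (𝓐.A.St x) ((O V).St x) where
  h := 𝓐.hb x
  comm := 𝓐.hb_comm x hx
  reg := 𝓐.hb_reg x hx
  red := 𝓐.redHom hx
  red_surj := 𝓐.red_surj x hx
  red_zero := 𝓐.red_ker x hx
  unit := 𝓐.unit_one_sub hx

@[simp] theorem stalk_h {x : V} (hx : x ∈ 𝓐.A.dom) : (𝓐.stalk hx).h = 𝓐.hb x := rfl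

@[simp] theorem stalk_red {x : V} (hx : x ∈ 𝓐.A.dom) (a : 𝓐.A.St x) :
    (𝓐.stalk hx).red a = 𝓐.red x a := rfl

theorem red_sum {x : V} (hx : x ∈ 𝓐.A.dom) {ι : Type*} (I : Finset ι) (a : ι → 𝓐.A.St x) :
    𝓐.red x (∑ i ∈ I, a i) = ∑ i ∈ I, 𝓐.red x (a i) := map_sum (𝓐.redHom hx) a I

/-- a unit modulo `ħ` is a unit -/
theorem isUnit_iff {x : V} (hx : x ∈ 𝓐.A.dom) (a : 𝓐.A.St x) : IsUnit a ↔ IsUnit (𝓐.red x a) :=
  (𝓐.stalk hx).isUnit_red_iff.symm

/-- division of a section by `ħ` -/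
theorem div_at {a : (x : V) → 𝓐.A.St x} {U : Set V} (hU : IsOpen U) (hUd : U ⊆ 𝓐.A.dom)
    (ha : ∀ x ∈ U, 𝓐.A.At a x) (h0 : ∀ x ∈ U, 𝓐.red x (a x) = 0) :
    ∃ b : (x : V) → 𝓐.A.St x, (∀ x ∈ U, 𝓐.A.At b x) ∧ ∀ x ∈ U, a x = 𝓐.hb x * b x := by
  classical
  have h1 : ∀ x, ∃ b : 𝓐.A.St x, x ∈ U → a x = 𝓐.hb x * b := by
    intro x
    by_cases hx : x ∈ U
    · obtain ⟨b, hb⟩ := (𝓐.red_ker x (hUd hx) (a x)).1 (h0 x hx)
      exact ⟨b, fun _ => hb⟩
    · exact ⟨0, fun h => absurd h hx⟩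
  choose b hb using h1
  refine ⟨b, fun x hx => ?_, hb⟩
  obtain ⟨t, ht, htx⟩ := 𝓐.A.surj x (hUd hx) (b x)
  have h2 : ∀ᶠ y in 𝓝 x, a y = 𝓐.hb y * t y := by
    have := 𝓐.A.inj (ha x hx) (𝓐.A.mul (𝓐.hb_at x (hUd hx)) ht) (by
      rw [Pi.mul_apply, htx]
      exact hb x hx)
    exact this
  refine 𝓐.A.congr ht ?_
  filter_upwards [h2, hU.mem_nhds hx] with y h3 h4
  have h5 := hb y h4
  rw [h3] at h5
  exact (𝓐.stalk (hUd h4)).reg_iff.mp h5

end Defo

end Pool.Agent.DQ
end

section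

/-! Successive approximation over an open set. -/

set_option autoImplicit false

open Set Filter Topology

universe u v w

namespace Pool.Agent.DQ

namespace Defo

variable {V : Type u} [NormedAddCommGroup V] [NormedSpace ℂ V] (𝓐 : Defo.{u, v} V)

/-- `M` is separated at `x` -/
def SepAt (M : EMod.{u, v, w} 𝓐.A) (x : V) : Prop :=
  ∀ m : M.St x, (∀ k : ℕ, ∃ m' : M.St x, m = 𝓐.hb x ^ k • m') → m = 0

/-- Successive approximation: if every section with the property `P` is a combination of the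
`β i` up to `ħ` times a section with the property `P`, then it is a combination of the `β i`. -/
theorem iterate {M : EMod.{u, v, w} 𝓐.A} {U : Set V} (hU : IsOpen U) (hUM : U ⊆ M.dom)
    (hsep : ∀ x ∈ U, 𝓐.SepAt M x) {ι : Type*} [Fintype ι] (β : ι → (x : V) → M.St x)
    (P : ((x : V) → M.St x) → Prop)
    (step : ∀ s, M.On s U → P s → ∃ (C : ι → (x : V) → 𝓐.A.St x) (s' : (x : V) → M.St x),
      (∀ i, ∀ x ∈ U, 𝓐.A.At (C i) x) ∧ M.On s' U ∧ P s' ∧
      ∀ x ∈ U, s x = ∑ i, C i x • β i x + 𝓐.hb x • s' x)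
    (s : (x : V) → M.St x) (hs : M.On s U) (hPs : P s) :
    ∃ D : ι → (x : V) → 𝓐.A.St x, (∀ i, ∀ x ∈ U, 𝓐.A.At (D i) x) ∧
      ∀ x ∈ U, s x = ∑ i, D i x • β i x := by
  classical
  choose! C nx hC hnx hPnx hstep using step
  -- the sequence of remainders
  let S : ℕ → (x : V) → M.St x := fun k => Nat.rec s (fun _ t => nx t) k
  have hS : ∀ k, M.On (S k) U ∧ P (S k) := by
    intro k
    induction k with
    | zero => exact ⟨hs, hPs⟩
    | succ k ih => exact ⟨hnx _ ih.1 ih.2, hPnx _ ih.1 ih.2⟩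
  have hSk : ∀ k, ∀ x ∈ U, S k x = ∑ i, C (S k) i x • β i x + 𝓐.hb x • S (k + 1) x :=
    fun k x hx => hstep _ (hS k).1 (hS k).2 x hx
  have hsum : ∀ k, ∀ x ∈ U, s x =
      ∑ i, (∑ j ∈ Finset.range k, 𝓐.hb x ^ j * C (S j) i x) • β i x + 𝓐.hb x ^ k • S k x := by
    intro k x hx
    induction k with
    | zero => simp [S]
    | succ k ih =>
      rw [ih, hSk k x hx, smul_add, smul_smul, ← pow_succ, ← add_assoc]
      congr 1
      rw [Finset.smul_sum, ← Finset.sum_add_distrib]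
      refine Finset.sum_congr rfl fun i _ => ?_
      rw [Finset.sum_range_succ, add_smul, smul_smul]
  have hUd : U ⊆ 𝓐.A.dom := hUM.trans M.dom_sub
  choose D hD hDk using fun i => 𝓐.complete (U := U) (fun k => C (S k) i) hU hUd
    (fun k x hx => hC _ (hS k).1 (hS k).2 i x hx)
  refine ⟨D, hD, fun x hx => ?_⟩
  rw [← sub_eq_zero]
  apply hsep x hx
  intro k
  choose b hb using fun i => hDk i k x hx
  refine ⟨S k x - ∑ i, b i • β i x, ?_⟩
  rw [hsum k x hx, smul_sub, Finset.smul_sum]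
  have : ∑ i, D i x • β i x = ∑ i, (∑ j ∈ Finset.range k, 𝓐.hb x ^ j * C (S j) i x) • β i x +
      ∑ i, 𝓐.hb x ^ k • b i • β i x := by
    rw [← Finset.sum_add_distrib]
    refine Finset.sum_congr rfl fun i _ => ?_
    rw [hb i, add_smul, mul_smul]
  rw [this]
  abel

/-- the free modules are separated -/
theorem sepAt_free (q : ℕ) {x : V} (hx : x ∈ 𝓐.A.dom) : 𝓐.SepAt (𝓐.A.free q) x := by
  intro m hm
  funext i
  apply 𝓐.sep x hx
  intro k
  obtain ⟨m', e⟩ := hm k
  exact ⟨m' i, by rw [e]; rfl⟩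

/-- finitely generated modules over noetherian stalks are separated -/
theorem sepAt_of_noeth {M : EMod.{u, v, w} 𝓐.A} {x : V} (hx : x ∈ 𝓐.A.dom)
    [IsNoetherian (𝓐.A.St x) (M.St x)] : 𝓐.SepAt M x :=
  fun _ hm => (𝓐.stalk hx).krull hm

/-- division of a section of a torsion free module by `ħ` -/
theorem div_mod {M : EMod.{u, v, w} 𝓐.A} {U : Set V} (hU : IsOpen U) (hUM : U ⊆ M.dom)
    (htf : ∀ x ∈ U, ∀ m : M.St x, 𝓐.hb x • m = 0 → m = 0) {s : (x : V) → M.St x}
    (hs : M.On s U) (h0 : ∀ x ∈ U, ∃ m : M.St x, s x = 𝓐.hb x • m) :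
    ∃ t : (x : V) → M.St x, M.On t U ∧ ∀ x ∈ U, s x = 𝓐.hb x • t x := by
  classical
  have h1 : ∀ x, ∃ m : M.St x, x ∈ U → s x = 𝓐.hb x • m := by
    intro x
    by_cases hx : x ∈ U
    · obtain ⟨b, hb⟩ := h0 x hx
      exact ⟨b, fun _ => hb⟩
    · exact ⟨0, fun h => absurd h hx⟩
  choose t ht using h1
  refine ⟨t, fun x hx => ?_, ht⟩
  obtain ⟨r, hr, hrx⟩ := M.surj x (hUM hx) (t x)
  have h2 : ∀ᶠ y in 𝓝 x, s y = 𝓐.hb y • r y :=
    M.inj (hs x hx) (M.smul (𝓐.hb_at x (M.dom_sub (hUM hx))) hr) (by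
      rw [hrx]
      exact ht x hx)
  refine M.congr hr ?_
  filter_upwards [h2, hU.mem_nhds hx] with y h3 h4
  have h5 := ht y h4
  rw [h3] at h5
  have : 𝓐.hb y • (r y - t y) = 0 := by rw [smul_sub, h5, sub_self]
  exact sub_eq_zero.mp (htf y h4 _ this)

/-- lifting of a finite family of functions -/
theorem lift_fam {U : Set V} (hU : IsOpen U) (hUd : U ⊆ 𝓐.A.dom) {ι : Type*}
    {f : ι → (x : V) → OGerm x} (hf : ∀ i, ∀ x ∈ U, (O V).At (f i) x) :
    ∃ a : ι → (x : V) → 𝓐.A.St x, (∀ i, ∀ x ∈ U, 𝓐.A.At (a i) x) ∧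
      ∀ i, ∀ x ∈ U, 𝓐.red x (a i x) = f i x := by
  choose a ha h using fun i => 𝓐.lift_at hU hUd (hf i)
  exact ⟨a, ha, h⟩

end Defo

end Pool.Agent.DQ
end

section

/-! Local lemmas on sections. -/

set_option autoImplicit false

open Set Filter Topology

universe u v w

namespace Pool.Agent.DQ

section

variable {X : Type u} [TopologicalSpace X] {R : ERing.{u, v} X}

theorem ERing.isOpen_at (s : (x : X) → R.St x) : IsOpen {x | R.At s x} :=
  isOpen_iff_mem_nhds.2 fun _ hx => R.ev hx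

theorem EMod.isOpen_at (M : EMod.{u, v, w} R) (s : (x : X) → M.St x) : IsOpen {x | M.At s x} :=
  isOpen_iff_mem_nhds.2 fun _ hx => M.ev hx

/-- a combination at a point extends to a neighbourhood -/
theorem EMod.near_comb (M : EMod.{u, v, w} R) {ι : Type*} [Fintype ι] {x : X} (hx : x ∈ M.dom)
    {s : (x : X) → M.St x} {g : ι → (x : X) → M.St x} (hs : M.At s x) (hg : ∀ i, M.At (g i) x)
    (h : s x ∈ Submodule.span (R.St x) (Set.range fun i => g i x)) :
    ∃ c : ι → (x : X) → R.St x, (∀ i, R.At (c i) x) ∧ ∀ᶠ y in 𝓝 x, s y = ∑ i, c i y • g i y := by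
  obtain ⟨e, he⟩ := mem_span_fam.mp h
  choose c hc hce using fun i => R.surj x (M.dom_sub hx) (e i)
  refine ⟨c, hc, M.inj hs (M.comb hx hc hg) ?_⟩
  rw [he]
  exact Finset.sum_congr rfl fun i _ => by rw [hce]

/-- membership in the span of sections is an open condition -/
theorem EMod.near_mem_span (M : EMod.{u, v, w} R) {ι : Type*} [Fintype ι] {x : X}
    {s : (x : X) → M.St x} {g : ι → (x : X) → M.St x} (hs : M.At s x) (hg : ∀ i, M.At (g i) x)
    (h : s x ∈ Submodule.span (R.St x) (Set.range fun i => g i x)) :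
    ∀ᶠ y in 𝓝 x, s y ∈ Submodule.span (R.St y) (Set.range fun i => g i y) := by
  obtain ⟨c, -, hc⟩ := M.near_comb (M.mem_dom hs) hs hg h
  filter_upwards [hc] with y hy
  exact mem_span_fam.mpr ⟨_, hy⟩

/-- the relations of the `g i` are finitely generated near `x` -/
def EMod.RelFG (M : EMod.{u, v, w} R) {n : ℕ} (g : Fin n → (x : X) → M.St x) (x : X) : Prop :=
  ∃ (m : ℕ) (r : Fin m → Fin n → (y : X) → R.St y), (∀ j i, R.At (r j i) x) ∧
    ∀ᶠ y in 𝓝 x, M.rel g y = Submodule.span (R.St y) (Set.range fun j => fun i => r j i y)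

theorem EMod.mem_rel {M : EMod.{u, v, w} R} {n : ℕ} {g : Fin n → (x : X) → M.St x} {x : X}
    {c : Fin n → R.St x} : c ∈ M.rel g x ↔ ∑ i, c i • g i x = 0 := Iff.rfl

theorem EMod.rel_eq (M : EMod.{u, v, w} R) {n : ℕ} (g : Fin n → (x : X) → M.St x) (x : X) :
    M.rel g x = relOf (R.St x) fun i => g i x := rfl

end

variable {V : Type u} [NormedAddCommGroup V] [NormedSpace ℂ V]

/-- Cartan A for sheaves of relations: the relations between sections of `O^q` near `K` are
generated by finitely many sections near `K`. -/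
def RelGen (K : Set V) : Prop :=
  ∀ (q n : ℕ) (f : Fin n → (y : V) → Fin q → (O V).St y), (∀ i, ((O V).free q).On (f i) K) →
    ∃ (m : ℕ) (ρ : Fin m → (y : V) → Fin n → (O V).St y), (∀ k, ((O V).free n).On (ρ k) K) ∧
      ∀ y ∈ K, ((O V).free q).rel f y = Submodule.span ((O V).St y) (Set.range fun k => ρ k y)

namespace Defo

variable (𝓐 : Defo.{u, v} V)

theorem hb_smul_comm {x : V} (hx : x ∈ 𝓐.A.dom) {N : Type*} [AddCommGroup N]
    [Module (𝓐.A.St x) N] (a : 𝓐.A.St x) (m : N) : 𝓐.hb x • a • m = a • 𝓐.hb x • m := by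
  rw [smul_smul, smul_smul, 𝓐.hb_comm x hx]

theorem hb_pow_smul_comm {x : V} (hx : x ∈ 𝓐.A.dom) {N : Type*} [AddCommGroup N]
    [Module (𝓐.A.St x) N] (k : ℕ) (a : 𝓐.A.St x) (m : N) :
    𝓐.hb x ^ k • a • m = a • 𝓐.hb x ^ k • m := by
  rw [smul_smul, smul_smul, 𝓐.hb_pow_comm hx]

/-- componentwise reduction -/
def redv (q : ℕ) (x : V) (a : Fin q → 𝓐.A.St x) : Fin q → (O V).St x := fun i => 𝓐.red x (a i)

theorem redv_at {q : ℕ} {s : (x : V) → Fin q → 𝓐.A.St x} {x : V} (hs : (𝓐.A.free q).At s x) :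
    ((O V).free q).At (fun y => 𝓐.redv q y (s y)) x :=
  ⟨mem_univ _, fun i => 𝓐.red_at hs.1 (hs.2 i)⟩

theorem redv_eq_zero {q : ℕ} {x : V} (hx : x ∈ 𝓐.A.dom) (a : Fin q → 𝓐.A.St x) :
    𝓐.redv q x a = 0 ↔ ∃ b : Fin q → 𝓐.A.St x, a = 𝓐.hb x • b := by
  constructor
  · intro h
    choose b hb using fun i => (𝓐.red_ker x hx (a i)).1 (congrFun h i)
    exact ⟨b, funext hb⟩
  · rintro ⟨b, rfl⟩
    funext i
    exact (𝓐.red_ker x hx _).2 ⟨b i, rfl⟩

theorem redv_add {q : ℕ} {x : V} (hx : x ∈ 𝓐.A.dom) (a b : Fin q → 𝓐.A.St x) :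
    𝓐.redv q x (a + b) = 𝓐.redv q x a + 𝓐.redv q x b :=
  funext fun i => 𝓐.red_add x hx (a i) (b i)

theorem redv_smul {q : ℕ} {x : V} (hx : x ∈ 𝓐.A.dom) (c : 𝓐.A.St x) (a : Fin q → 𝓐.A.St x) :
    𝓐.redv q x (c • a) = 𝓐.red x c • 𝓐.redv q x a :=
  funext fun i => 𝓐.red_mul x hx c (a i)

/-- componentwise reduction as an additive map -/
def redvHom (q : ℕ) {x : V} (hx : x ∈ 𝓐.A.dom) : (Fin q → 𝓐.A.St x) →+ (Fin q → (O V).St x) where
  toFun := 𝓐.redv q x
  map_zero' := funext fun _ => 𝓐.red_zero' hx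
  map_add' := 𝓐.redv_add hx

theorem redv_sub {q : ℕ} {x : V} (hx : x ∈ 𝓐.A.dom) (a b : Fin q → 𝓐.A.St x) :
    𝓐.redv q x (a - b) = 𝓐.redv q x a - 𝓐.redv q x b := map_sub (𝓐.redvHom q hx) a b

theorem redv_comb {q : ℕ} {x : V} (hx : x ∈ 𝓐.A.dom) {ι : Type*} [Fintype ι] (c : ι → 𝓐.A.St x)
    (g : ι → Fin q → 𝓐.A.St x) :
    𝓐.redv q x (∑ i, c i • g i) = ∑ i, 𝓐.red x (c i) • 𝓐.redv q x (g i) := by
  have := map_sum (𝓐.redvHom q hx) (fun i => c i • g i) Finset.univ
  refine this.trans (Finset.sum_congr rfl fun i _ => 𝓐.redv_smul hx _ _)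

theorem redv_surj {q : ℕ} {x : V} (hx : x ∈ 𝓐.A.dom) : Function.Surjective (𝓐.redv q x) := by
  intro f
  choose a ha using fun i => 𝓐.red_surj x hx (f i)
  exact ⟨a, funext ha⟩

theorem tf_free {q : ℕ} {x : V} (hx : x ∈ 𝓐.A.dom) (a : Fin q → 𝓐.A.St x)
    (h : 𝓐.hb x • a = 0) : a = 0 :=
  funext fun i => 𝓐.hb_reg x hx (a i) (congrFun h i)

/-- division of a vector of sections by `ħ` -/
theorem divv {U : Set V} (hU : IsOpen U) (hUd : U ⊆ 𝓐.A.dom) {q : ℕ}
    {s : (y : V) → Fin q → 𝓐.A.St y} (hs : (𝓐.A.free q).On s U)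
    (h0 : ∀ y ∈ U, 𝓐.redv q y (s y) = 0) :
    ∃ t : (y : V) → Fin q → 𝓐.A.St y, (𝓐.A.free q).On t U ∧
      ∀ y ∈ U, s y = 𝓐.hb y • t y :=
  𝓐.div_mod (M := 𝓐.A.free q) hU hUd (fun _ hx m hm => 𝓐.tf_free (hUd hx) m hm) hs
    fun y hy => (𝓐.redv_eq_zero (hUd hy) _).1 (h0 y hy)

/-- lifting of vectors of functions -/
theorem liftv {U : Set V} (hU : IsOpen U) (hUd : U ⊆ 𝓐.A.dom) {ι : Type*} {q : ℕ}
    {f : ι → (x : V) → Fin q → (O V).St x} (hf : ∀ i, ((O V).free q).On (f i) U) :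
    ∃ a : ι → (x : V) → Fin q → 𝓐.A.St x, (∀ i, (𝓐.A.free q).On (a i) U) ∧
      ∀ i, ∀ x ∈ U, 𝓐.redv q x (a i x) = f i x := by
  choose a ha h using fun i : ι × Fin q => 𝓐.lift_at (U := U) (f := fun x => f i.1 x i.2) hU hUd
    (fun x hx => (hf i.1 x hx).2 i.2)
  exact ⟨fun i x j => a (i, j) x, fun i x hx => ⟨hUd hx, fun j => ha (i, j) x hx⟩,
    fun i x hx => funext fun j => h (i, j) x hx⟩

/-- a relation modulo `ħ` which is a combination of the reductions of the `R k` -/
theorem comb_of_red {n : ℕ} {x : V} (hx : x ∈ 𝓐.A.dom) {κ : Type*} [Fintype κ]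
    (R : κ → Fin n → 𝓐.A.St x) (c : Fin n → 𝓐.A.St x)
    (h : 𝓐.redv n x c ∈ Submodule.span ((O V).St x) (Set.range fun k => 𝓐.redv n x (R k))) :
    ∃ (E : κ → 𝓐.A.St x) (c' : Fin n → 𝓐.A.St x), c = ∑ k, E k • R k + 𝓐.hb x • c' := by
  obtain ⟨e, he⟩ := mem_span_fam.mp h
  choose E hE using fun k => 𝓐.red_surj x hx (e k)
  have h1 : 𝓐.redv n x (c - ∑ k, E k • R k) = 0 := by
    rw [𝓐.redv_sub hx, 𝓐.redv_comb hx, he, sub_eq_zero]
    exact Finset.sum_congr rfl fun k _ => by rw [hE]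
  obtain ⟨c', hc'⟩ := (𝓐.redv_eq_zero hx _).1 h1
  exact ⟨E, c', by rw [← hc']; abel⟩

end Defo

end Pool.Agent.DQ
end

section

/-! Descending the tower, and Oka's theorem for a deformation. -/

set_option autoImplicit false

open Set Filter Topology

universe u v w

namespace Pool.Agent.DQ

section

variable {X : Type u} [TopologicalSpace X] {R : ERing.{u, v} X}

theorem EMod.relFG_of_fintype (M : EMod.{u, v, w} R) {n : ℕ} (g : Fin n → (x : X) → M.St x) {x : X}
    {κ : Type*} [Fintype κ] (r : κ → Fin n → (y : X) → R.St y) (hr : ∀ j i, R.At (r j i) x)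
    (h : ∀ᶠ y in 𝓝 x, M.rel g y = Submodule.span (R.St y) (Set.range fun j => fun i => r j i y)) :
    M.RelFG g x := by
  let e := Fintype.equivFin κ
  refine ⟨Fintype.card κ, fun j => r (e.symm j), fun j i => hr _ i, ?_⟩
  filter_upwards [h] with y hy
  rw [hy]
  congr 1
  ext z
  constructor
  · rintro ⟨j, rfl⟩
    exact ⟨e j, by simp⟩
  · rintro ⟨j, rfl⟩
    exact ⟨e.symm j, rfl⟩

end

variable {V : Type u} [NormedAddCommGroup V] [NormedSpace ℂ V]

namespace Defo

variable (𝓐 : Defo.{u, v} V)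

/-- local lifting -/
theorem lift_near {x : V} (hx : x ∈ 𝓐.A.dom) {f : (y : V) → (O V).St y} (hf : (O V).At f x) :
    ∃ a : (y : V) → 𝓐.A.St y, 𝓐.A.At a x ∧ ∀ᶠ y in 𝓝 x, 𝓐.red y (a y) = f y := by
  let U : Set V := {y | (O V).At f y} ∩ 𝓐.A.dom
  have hU : IsOpen U := ((O V).isOpen_at f).inter 𝓐.A.isOpen_dom
  have hxU : x ∈ U := ⟨hf, hx⟩
  obtain ⟨a, ha, h⟩ := 𝓐.lift_at hU inter_subset_right fun y hy => hy.1
  exact ⟨a, ha x hxU, by filter_upwards [hU.mem_nhds hxU] with y hy using h y hy⟩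

/-- local division -/
theorem div_near {x : V} {s : (y : V) → 𝓐.A.St y} (hs : 𝓐.A.At s x)
    (h0 : 𝓐.red x (s x) = 0) :
    ∃ t : (y : V) → 𝓐.A.St y, 𝓐.A.At t x ∧ ∀ᶠ y in 𝓝 x, s y = 𝓐.hb y * t y := by
  have hx := 𝓐.A.mem_dom hs
  obtain ⟨b, hb⟩ := (𝓐.red_ker x hx _).1 h0
  obtain ⟨t, ht, htx⟩ := 𝓐.A.surj x hx b
  exact ⟨t, ht, 𝓐.A.inj hs (𝓐.A.mul (𝓐.hb_at x hx) ht) (by
    rw [hb, ← htx])⟩

/-- the descending step -/
theorem relFG_down {x : V} (hO : ∀ (q n : ℕ) (f : Fin n → (y : V) → Fin q → (O V).St y),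
      (∀ i, ((O V).free q).At (f i) x) → ((O V).free q).RelFG f x)
    (M : EMod.{u, v, w} 𝓐.A) (hx : x ∈ M.dom) {a n : ℕ} (G : Fin a → (y : V) → M.St y)
    (hG : ∀ i, M.At (G i) x) (hrG : M.RelFG G x) (g : Fin n → (y : V) → M.St y)
    (hg : ∀ i, M.At (g i) x)
    (hgG : ∀ j, g j x ∈ Submodule.span (𝓐.A.St x) (Set.range fun i => G i x))
    (hGg : ∀ i, 𝓐.hb x • G i x ∈ Submodule.span (𝓐.A.St x) (Set.range fun j => g j x)) :
    M.RelFG g x := by
  have hxd : x ∈ 𝓐.A.dom := M.dom_sub hx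
  obtain ⟨m, r, hr, hrel⟩ := hrG
  choose ρ hρ hρg using fun j => M.near_comb hx (hg j) hG (hgG j)
  choose σ hσ hσg using fun i => M.near_comb hx (M.smul (𝓐.hb_at x hxd) (hG i)) hg (hGg i)
  -- the relations of the reductions
  obtain ⟨k, φ, hφ, hφrel⟩ := hO a (n + m) (Fin.append (fun j y i => 𝓐.red y (ρ j i y))
    (fun l y i => - 𝓐.red y (r l i y))) (by
      intro i
      refine Fin.addCases (fun j => ?_) (fun l => ?_) i
      · rw [Fin.append_left]
        exact ⟨mem_univ _, fun i => 𝓐.red_at hxd (hρ j i)⟩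
      · rw [Fin.append_right]
        exact ⟨mem_univ _, fun i => (O V).neg (𝓐.red_at hxd (hr l i))⟩)
  choose Φ hΦ hΦφ using fun (p : Fin k) (i : Fin (n + m)) => 𝓐.lift_near hxd (hφ p i)
  -- the relation of the lifts, divided by `ħ`
  have hcomb : ∀ p i, 𝓐.A.At (-(∑ j, Φ p (Fin.castAdd m j) * ρ j i -
      ∑ l, Φ p (Fin.natAdd n l) * r l i)) x := by
    intro p i
    refine 𝓐.A.neg (𝓐.A.sub (𝓐.A.sum _ hxd fun j _ => 𝓐.A.mul (hΦ _ _) (hρ j i))
      (𝓐.A.sum _ hxd fun l _ => 𝓐.A.mul (hΦ _ _) (hr l i)))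
  have hφsum : ∀ y, ((O V).free a).rel (Fin.append (fun j y i => 𝓐.red y (ρ j i y))
      (fun l y i => - 𝓐.red y (r l i y))) y =
      Submodule.span ((O V).St y) (Set.range fun j => fun i => φ j i y) → ∀ p i,
      ∑ j, φ p (Fin.castAdd m j) y * 𝓐.red y (ρ j i y) -
        ∑ l, φ p (Fin.natAdd n l) y * 𝓐.red y (r l i y) = 0 := by
    intro y hy p i
    have h1 : (fun i => φ p i y) ∈
        Submodule.span ((O V).St y) (Set.range fun j => fun i => φ j i y) :=
      Submodule.subset_span ⟨p, rfl⟩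
    have h2 : ∑ e, φ p e y • (Fin.append (fun j y i => 𝓐.red y (ρ j i y))
        (fun l y i => - 𝓐.red y (r l i y)) e y : Fin a → (O V).St y) = 0 := hy.ge h1
    have h3 := congrFun h2 i
    rw [Fin.sum_univ_add, Pi.add_apply, Finset.sum_apply, Finset.sum_apply] at h3
    simp only [Fin.append_left, Fin.append_right, Pi.smul_apply, smul_eq_mul, mul_neg,
      Finset.sum_neg_distrib, Pi.zero_apply] at h3
    rw [sub_eq_add_neg]
    exact h3
  have hcomb0 : ∀ p i, 𝓐.red x ((-(∑ j, Φ p (Fin.castAdd m j) * ρ j i -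
      ∑ l, Φ p (Fin.natAdd n l) * r l i)) x) = 0 := by
    intro p i
    change 𝓐.redHom hxd _ = 0
    rw [Pi.neg_apply, Pi.sub_apply, map_neg, map_sub, Finset.sum_apply, Finset.sum_apply, map_sum,
      map_sum, neg_eq_zero]
    rw [← hφsum x hφrel.self_of_nhds p i]
    congr 1
    · refine Finset.sum_congr rfl fun j _ => ?_
      rw [Pi.mul_apply, map_mul]
      exact congrArg (· * _) (hΦφ p _).self_of_nhds
    · refine Finset.sum_congr rfl fun j _ => ?_
      rw [Pi.mul_apply, map_mul]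
      exact congrArg (· * _) (hΦφ p _).self_of_nhds
  choose D hD hDeq using fun p i => 𝓐.div_near (hcomb p i) (hcomb0 p i)
  refine M.relFG_of_fintype g (κ := Fin k ⊕ Fin n ⊕ Fin m)
    (Sum.elim (fun p => fun j => Φ p (Fin.castAdd m j) + ∑ i, D p i * σ i j)
      (Sum.elim (fun j' : Fin n => fun j => 𝓐.hb * (if j' = j then 1 else 0) - ∑ i, ρ j' i * σ i j)
        (fun l : Fin m => fun j => ∑ i, r l i * σ i j))) ?_ ?_
  · rintro (p | j' | l) j
    · exact 𝓐.A.add (hΦ _ _) (𝓐.A.sum _ hxd fun i _ => 𝓐.A.mul (hD p i) (hσ i j))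
    · refine 𝓐.A.sub (𝓐.A.mul (𝓐.hb_at x hxd) ?_)
        (𝓐.A.sum _ hxd fun i _ => 𝓐.A.mul (hρ j' i) (hσ i j))
      by_cases h : j' = j
      · rw [if_pos h]
        exact 𝓐.A.one x hxd
      · rw [if_neg h]
        exact 𝓐.A.zero x hxd
    · exact 𝓐.A.sum Finset.univ (s := fun i => r l i * σ i j) hxd
        fun i _ => 𝓐.A.mul (hr l i) (hσ i j)
  · filter_upwards [𝓐.A.isOpen_dom.mem_nhds hxd, hrel, eventually_all.mpr hρg,
      eventually_all.mpr hσg, hφrel,
      eventually_all.mpr fun p => eventually_all.mpr fun i => hΦφ p i,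
      eventually_all.mpr fun p => eventually_all.mpr fun i => hDeq p i]
      with y y1 y2 y3 y4 y5 y6 y7
    have key := (𝓐.stalk y1).rel_down (fun i => G i y) (fun l i => r l i y) y2 (fun j => g j y)
      (fun j i => ρ j i y) y3 (fun i j => σ i j y) y4 (fun p j => Φ p (Fin.castAdd m j) y)
      (fun p l => Φ p (Fin.natAdd n l) y) (fun p i => D p i y) (by
        intro p i
        have h1 := y7 p i
        rw [Pi.neg_apply, Pi.sub_apply, Finset.sum_apply, Finset.sum_apply] at h1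
        rw [𝓐.stalk_h, ← h1, neg_neg]
        rfl) (by
        rintro c f ⟨d, hd⟩
        have h1 : 𝓐.redv (n + m) y (Fin.append c f) ∈ ((O V).free a).rel
            (Fin.append (fun j y i => 𝓐.red y (ρ j i y)) (fun l y i => - 𝓐.red y (r l i y))) y := by
          change ∑ e, 𝓐.red y (Fin.append c f e) • (Fin.append (fun j y i => 𝓐.red y (ρ j i y))
            (fun l y i => - 𝓐.red y (r l i y)) e y : Fin a → (O V).St y) = 0
          funext i
          rw [Fin.sum_univ_add, Pi.add_apply, Finset.sum_apply, Finset.sum_apply]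
          simp only [Fin.append_left, Fin.append_right, Pi.smul_apply, smul_eq_mul, mul_neg,
            Finset.sum_neg_distrib, Pi.zero_apply]
          rw [← sub_eq_add_neg]
          have h2 := congrArg (𝓐.redHom y1) (hd i)
          rw [map_sub, map_sum, map_sum] at h2
          have h3 : 𝓐.redHom y1 ((𝓐.stalk y1).h * d i) = 0 := (𝓐.red_ker y y1 _).2 ⟨d i, rfl⟩
          rw [h3] at h2
          rw [← h2]
          congr 1
          · exact Finset.sum_congr rfl fun j _ => (map_mul (𝓐.redHom y1) _ _).symm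
          · exact Finset.sum_congr rfl fun j _ => (map_mul (𝓐.redHom y1) _ _).symm
        have h2 := y5.le h1
        have h3 : (fun p => 𝓐.redv (n + m) y (fun i => Φ p i y)) = fun p => fun i => φ p i y :=
          funext fun p => funext fun i => y6 p i
        have h4 : 𝓐.redv (n + m) y (Fin.append c f) ∈ Submodule.span ((O V).St y)
            (Set.range fun p => 𝓐.redv (n + m) y (fun i => Φ p i y)) := by
          rw [h3]
          exact h2
        obtain ⟨E, c', e⟩ := 𝓐.comb_of_red y1 (fun p i => Φ p i y) _ h4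
        refine ⟨E, fun j => c' (Fin.castAdd m j), fun l => c' (Fin.natAdd n l), ?_, ?_⟩
        · intro j
          have h5 := congrFun e (Fin.castAdd m j)
          rw [Fin.append_left, Pi.add_apply, Finset.sum_apply] at h5
          exact h5
        · intro l
          have h5 := congrFun e (Fin.natAdd n l)
          rw [Fin.append_right, Pi.add_apply, Finset.sum_apply] at h5
          exact h5)
    rw [M.rel_eq, key]
    congr 1
    ext z
    constructor
    · rintro ⟨p | j' | l, rfl⟩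
      · refine ⟨Sum.inl p, ?_⟩
        funext j
        simp only [Sum.elim_inl, Pi.add_apply, Finset.sum_apply, Pi.mul_apply]
      · refine ⟨Sum.inr (Sum.inl j'), ?_⟩
        funext j
        simp only [Sum.elim_inl, Sum.elim_inr, Pi.sub_apply, Finset.sum_apply, Pi.mul_apply]
        by_cases h : j' = j
        · simp [h]
        · simp [h]
      · refine ⟨Sum.inr (Sum.inr l), ?_⟩
        funext j
        simp only [Sum.elim_inr, Finset.sum_apply, Pi.mul_apply]
    · rintro ⟨p | j' | l, rfl⟩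
      · refine ⟨Sum.inl p, ?_⟩
        funext j
        simp only [Sum.elim_inl, Pi.add_apply, Finset.sum_apply, Pi.mul_apply]
      · refine ⟨Sum.inr (Sum.inl j'), ?_⟩
        funext j
        simp only [Sum.elim_inl, Sum.elim_inr, Pi.sub_apply, Finset.sum_apply, Pi.mul_apply]
        by_cases h : j' = j
        · simp [h]
        · simp [h]
      · refine ⟨Sum.inr (Sum.inr l), ?_⟩
        funext j
        simp only [Sum.elim_inr, Finset.sum_apply, Pi.mul_apply]

end Defo

end Pool.Agent.DQ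
end

section

/-! Campaign DQ, module S: direct image of a sheaf of `O`-modules under a linear projection,
restricted to a compact region of the fibre. -/

set_option autoImplicit false

open Set Filter Topology

universe u v w

namespace Pool.Agent.DQ

variable {V : Type u} [NormedAddCommGroup V] [NormedSpace ℂ V]
  {V' : Type u} [NormedAddCommGroup V'] [NormedSpace ℂ V']
  {W : Type v} [NormedAddCommGroup W] [NormedSpace ℂ W]

/-- the fibre over `t` in the region `D` -/
def fib (e : V ≃L[ℂ] V' × W) (D : Set W) (t : V') : Set V := {x | (e x).1 = t ∧ (e x).2 ∈ D}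

theorem tendsto_fst (e : V ≃L[ℂ] V' × W) {x : V} {t : V'} (hx : (e x).1 = t) :
    Tendsto (fun y => (e y).1) (𝓝 x) (𝓝 t) := by
  subst hx
  exact (continuous_fst.comp e.continuous).continuousAt

theorem HolAt.comp_fst (e : V ≃L[ℂ] V' × W) {f : V' → ℂ} {x : V} {t : V'} (hx : (e x).1 = t)
    (hf : HolAt f t) : HolAt (fun y => f (e y).1) x := by
  subst hx
  refine HolAt.comp (g := fun y : V => (e y).1) hf (Eventually.of_forall fun y => ?_)
  exact ((ContinuousLinearMap.fst ℂ V' W).comp (e : V →L[ℂ] V' × W)).differentiableAt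

/-- pull back of germs along the projection, germs at `t = (e x).1` -/
noncomputable def pullT (e : V ≃L[ℂ] V' × W) {x : V} {t : V'} (hx : (e x).1 = t) :
    OGerm t →+* OGerm x where
  toFun g := ⟨(g : Filter.Germ (𝓝 t) ℂ).compTendsto (fun y => (e y).1) (tendsto_fst e hx), by
    obtain ⟨g, f, hf, rfl⟩ := g
    exact ⟨fun y => f (e y).1, hf.comp_fst e hx, rfl⟩⟩
  map_one' := rfl
  map_zero' := rfl
  map_mul' := by
    rintro ⟨_, f, hf, rfl⟩ ⟨_, g, hg, rfl⟩
    rfl
  map_add' := by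
    rintro ⟨_, f, hf, rfl⟩ ⟨_, g, hg, rfl⟩
    rfl

theorem pullT_gm (e : V ≃L[ℂ] V' × W) {x : V} {t : V'} (hx : (e x).1 = t) {f : V' → ℂ}
    (hf : HolAt f t) : pullT e hx (gm f t) = gm (fun y => f (e y).1) x := by
  apply Subtype.ext
  rw [gm_coe (hf.comp_fst e hx)]
  change ((gm f t : OGerm t) : Filter.Germ (𝓝 t) ℂ).compTendsto (fun y => (e y).1)
    (tendsto_fst e hx) = _
  rw [gm_coe hf]
  rfl

/-- pull back of germs along the projection -/
noncomputable def pull (e : V ≃L[ℂ] V' × W) (x : V) : OGerm (e x).1 →+* OGerm x := pullT e rfl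

theorem pull_gm (e : V ≃L[ℂ] V' × W) (x : V) (f : V' → ℂ) (hf : HolAt f (e x).1) :
    pull e x (gm f (e x).1) = gm (fun y => f (e y).1) x := pullT_gm e rfl hf

/-- the same as `pullT`, for the stalks of the structure sheaves -/
noncomputable def pullS (e : V ≃L[ℂ] V' × W) {x : V} {t : V'} (hx : (e x).1 = t) :
    (O V').St t →+* (O V).St x := pullT e hx

theorem pullS_gm (e : V ≃L[ℂ] V' × W) {x : V} {t : V'} (hx : (e x).1 = t) {f : V' → ℂ}
    (hf : HolAt f t) : pullS e hx (om f t) = om (fun y => f (e y).1) x := pullT_gm e hx hf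

/-- tube lemma -/
theorem fib_tube (e : V ≃L[ℂ] V' × W) {D : Set W} (hD : IsCompact D) {t : V'} {P : V → Prop}
    (h : ∀ x ∈ fib e D t, ∀ᶠ y in 𝓝 x, P y) : ∀ᶠ t' in 𝓝 t, ∀ x ∈ fib e D t', P x := by
  have h1 : ∀ w ∈ D, ∀ᶠ q : V' × W in 𝓝 (t, w), P (e.symm q) := by
    intro w hw
    have hx : e.symm (t, w) ∈ fib e D t := by
      simp [fib, hw]
    have hc : Tendsto (fun q : V' × W => e.symm q) (𝓝 (t, w)) (𝓝 (e.symm (t, w))) :=
      e.symm.continuous.continuousAt
    exact hc.eventually (h _ hx)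
  have h2 : ∀ w ∈ D, ∀ᶠ z : V' × W in 𝓝 t ×ˢ 𝓝 w, P (e.symm z) := by
    intro w hw
    rw [← nhds_prod_eq]
    exact h1 w hw
  have h3 : ∀ᶠ z : V' × W in 𝓝 t ×ˢ 𝓝ˢ D, P (e.symm z) := by
    rw [hD.prod_nhdsSet_eq_biSup]
    simp only [eventually_iSup]
    exact h2
  have h4 := h3.curry
  filter_upwards [h4] with t' ht' x hx
  have h5 := ht'.self_of_nhdsSet (x := (e x).2) hx.2
  rw [← hx.1] at h5
  simpa using h5


/-! ### The direct image -/

variable (F : EMod.{u, u, w} (O V)) (e : V ≃L[ℂ] V' × W) (D : Set W)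

/-- the stalk of the direct image at `t` -/
def pushSub (t : V') : AddSubgroup ((x : fib e D t) → F.St x.1) where
  carrier := {σ | σ = 0 ∨ ∃ s : (x : V) → F.St x, F.On s (fib e D t) ∧ ∀ x : fib e D t, σ x = s x}
  zero_mem' := Or.inl rfl
  add_mem' := by
    rintro a b (rfl | ⟨s, hs, h⟩) (rfl | ⟨s', hs', h'⟩)
    · exact Or.inl (add_zero 0)
    · exact Or.inr ⟨s', hs', fun x => by rw [zero_add]; exact h' x⟩
    · exact Or.inr ⟨s, hs, fun x => by rw [add_zero]; exact h x⟩
    · exact Or.inr ⟨s + s', fun x hx => F.add (hs x hx) (hs' x hx), fun x => by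
        rw [Pi.add_apply, Pi.add_apply, h, h']⟩
  neg_mem' := by
    rintro a (rfl | ⟨s, hs, h⟩)
    · exact Or.inl neg_zero
    · exact Or.inr ⟨-s, fun x hx => F.neg (hs x hx), fun x => by
        rw [Pi.neg_apply, Pi.neg_apply, h]⟩

theorem O_at_gm {f : V → ℂ} {x : V} (hf : HolAt f x) : (O V).At (fun y => om f y) x :=
  ⟨f, hf, Eventually.of_forall fun _ => rfl⟩

noncomputable instance pushModule (t : V') : Module ((O V').St t) (pushSub F e D t) where
  smul a m := ⟨fun x => pullS e x.2.1 a • m.1 x, by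
    obtain ⟨m, rfl | ⟨s, hs, h⟩⟩ := m
    · exact Or.inl (funext fun x => smul_zero _)
    · obtain ⟨f, hf, rfl⟩ := exists_gm (show OGerm t from a)
      refine Or.inr ⟨fun y => om (fun z => f (e z).1) y • s y, fun x hx =>
        F.smul (O_at_gm (hf.comp_fst e hx.1)) (hs x hx), fun x => ?_⟩
      change pullS e x.2.1 (om f t) • m x = _
      rw [pullS_gm e x.2.1 hf, h]⟩
  one_smul m := Subtype.ext (funext fun x => by
    change pullS e x.2.1 1 • m.1 x = m.1 x
    rw [map_one, one_smul])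
  mul_smul a b m := Subtype.ext (funext fun x => by
    change pullS e x.2.1 (a * b) • m.1 x = pullS e x.2.1 a • pullS e x.2.1 b • m.1 x
    rw [map_mul, mul_smul])
  smul_zero a := Subtype.ext (funext fun x => by
    change pullS e x.2.1 a • (0 : F.St x.1) = 0
    rw [smul_zero])
  smul_add a m m' := Subtype.ext (funext fun x => by
    change pullS e x.2.1 a • (m.1 x + m'.1 x) = pullS e x.2.1 a • m.1 x + pullS e x.2.1 a • m'.1 x
    rw [smul_add])
  add_smul a b m := Subtype.ext (funext fun x => by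
    change pullS e x.2.1 (a + b) • m.1 x = pullS e x.2.1 a • m.1 x + pullS e x.2.1 b • m.1 x
    rw [map_add, add_smul])
  zero_smul m := Subtype.ext (funext fun x => by
    change pullS e x.2.1 0 • m.1 x = 0
    rw [map_zero, zero_smul])

theorem push_smul_val {t : V'} (a : (O V').St t) (m : pushSub F e D t) (x : fib e D t) :
    (a • m).1 x = pullS e x.2.1 a • m.1 x := rfl

/-- the element of the stalk given by a section of `F` (zero where it is not one) -/
noncomputable def pushElt (s : (x : V) → F.St x) (t : V') : pushSub F e D t :=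
  open Classical in
  if h' : F.On s (fib e D t) then ⟨fun x => s x.1, Or.inr ⟨s, h', fun _ => rfl⟩⟩ else 0

theorem pushElt_val {s : (x : V) → F.St x} {t : V'} (hs : F.On s (fib e D t)) (x : fib e D t) :
    (pushElt F e D s t).1 x = s x.1 := by
  unfold pushElt
  rw [dif_pos hs]

/-- direct image of a sheaf under the projection `V → V'`, restricted to the compact region `D`
in the fibre direction: the stalk at `t` consists of the restrictions to the fibre over `t` of the
sections near this fibre -/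
noncomputable def EMod.push (hD : IsCompact D) : EMod.{u, u, max u w} (O V') where
  dom := {t | fib e D t ⊆ F.dom}
  dom_sub := subset_univ _
  St t := pushSub F e D t
  grp t := inferInstance
  mod t := pushModule F e D t
  At s' t := ∃ s : (x : V) → F.St x, ∀ᶠ t' in 𝓝 t, F.On s (fib e D t') ∧
    ∀ x : fib e D t', (s' t').1 x = s x.1
  mem_dom := by
    rintro s' t ⟨s, h⟩ x hx
    exact F.mem_dom (h.self_of_nhds.1 x hx)
  ev := by
    rintro s' t ⟨s, h⟩
    filter_upwards [eventually_eventually_nhds.mpr h] with t' ht'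
    exact ⟨s, ht'⟩
  congr := by
    rintro s' s'' t ⟨s, h⟩ h'
    refine ⟨s, ?_⟩
    filter_upwards [h, h'] with t' h1 h2
    refine ⟨h1.1, fun x => ?_⟩
    rw [← h2]
    exact h1.2 x
  inj := by
    rintro s' s'' t ⟨s, h⟩ ⟨r, h'⟩ heq
    have h1 : ∀ x ∈ fib e D t, ∀ᶠ y in 𝓝 x, s y = r y := by
      intro x hx
      refine F.inj (h.self_of_nhds.1 x hx) (h'.self_of_nhds.1 x hx) ?_
      rw [← h.self_of_nhds.2 ⟨x, hx⟩, ← h'.self_of_nhds.2 ⟨x, hx⟩, heq]
    filter_upwards [h, h', fib_tube e hD h1] with t' h2 h3 h4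
    refine Subtype.ext (funext fun x => ?_)
    rw [h2.2 x, h3.2 x]
    exact h4 x.1 x.2
  surj := by
    classical
    intro t ht g
    obtain ⟨σ, hσ⟩ := g
    have h0 : ∃ s : (x : V) → F.St x, F.On s (fib e D t) ∧ ∀ x : fib e D t, σ x = s x := by
      rcases hσ with rfl | h
      · exact ⟨0, fun x hx => F.zero x (ht hx), fun x => rfl⟩
      · exact h
    obtain ⟨s, hs, h⟩ := h0
    refine ⟨pushElt F e D s, ⟨s, ?_⟩, ?_⟩
    · filter_upwards [fib_tube e hD (P := fun y => F.At s y) fun x hx => F.ev (hs x hx)] with t' ht'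
      exact ⟨ht', fun x => pushElt_val F e D ht' x⟩
    · refine Subtype.ext (funext fun x => ?_)
      rw [pushElt_val F e D hs]
      exact (h x).symm
  zero := by
    intro t ht
    refine ⟨0, ?_⟩
    filter_upwards [fib_tube e hD (P := fun y => F.At 0 y) fun x hx => F.ev (F.zero x (ht hx))] with t' ht'
    exact ⟨ht', fun x => rfl⟩
  add := by
    rintro s' s'' t ⟨s, h⟩ ⟨r, h'⟩
    refine ⟨s + r, ?_⟩
    filter_upwards [h, h'] with t' h1 h2
    refine ⟨fun x hx => F.add (h1.1 x hx) (h2.1 x hx), fun x => ?_⟩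
    change (s' t').1 x + (s'' t').1 x = s x.1 + r x.1
    rw [h1.2, h2.2]
  smul := by
    rintro a s' t ⟨f, hf, ha⟩ ⟨s, h⟩
    refine ⟨fun y => om (fun z => f (e z).1) y • s y, ?_⟩
    filter_upwards [h, hf.eventually, ha] with t' h1 h2 h3
    refine ⟨fun x hx => F.smul (O_at_gm (h2.comp_fst e hx.1)) (h1.1 x hx), fun x => ?_⟩
    change pullS e x.2.1 (a t') • (s' t').1 x = om (fun z => f (e z).1) x.1 • s x.1
    rw [h1.2, h3]
    change pullS e x.2.1 (om f t') • _ = _
    rw [pullS_gm e x.2.1 h2]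

variable (hD : IsCompact D)

/-- value on the fibre of an element of the stalk of the direct image -/
noncomputable def EMod.pushVal (t : V') (m : (F.push e D hD).St t) (x : V) (hx : x ∈ fib e D t) :
    F.St x := (show pushSub F e D t from m).1 ⟨x, hx⟩

theorem EMod.push_ext (t : V') (m m' : (F.push e D hD).St t)
    (h : ∀ x (hx : x ∈ fib e D t), F.pushVal e D hD t m x hx = F.pushVal e D hD t m' x hx) :
    m = m' := Subtype.ext (funext fun x => h x.1 x.2)

theorem EMod.push_at {s' : (t : V') → (F.push e D hD).St t} {t : V'} :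
    (F.push e D hD).At s' t ↔ ∃ s : (x : V) → F.St x, ∀ᶠ t' in 𝓝 t, F.On s (fib e D t') ∧
      ∀ x (hx : x ∈ fib e D t'), F.pushVal e D hD t' (s' t') x hx = s x := by
  constructor
  · rintro ⟨s, h⟩
    exact ⟨s, h.mono fun t' h1 => ⟨h1.1, fun x hx => h1.2 ⟨x, hx⟩⟩⟩
  · rintro ⟨s, h⟩
    exact ⟨s, h.mono fun t' h1 => ⟨h1.1, fun x => h1.2 x.1 x.2⟩⟩

theorem EMod.pushVal_add (t : V') (m m' : (F.push e D hD).St t) (x : V) (hx : x ∈ fib e D t) :
    F.pushVal e D hD t (m + m') x hx = F.pushVal e D hD t m x hx + F.pushVal e D hD t m' x hx := rfl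

theorem EMod.pushVal_zero (t : V') (x : V) (hx : x ∈ fib e D t) :
    F.pushVal e D hD t 0 x hx = 0 := rfl

theorem EMod.pushVal_smul (t : V') (a : (O V').St t) (m : (F.push e D hD).St t) (x : V)
    (hx : x ∈ fib e D t) :
    F.pushVal e D hD t (a • m) x hx = pullS e hx.1 a • F.pushVal e D hD t m x hx := rfl

theorem EMod.pushVal_smul_om (t : V') {f : V' → ℂ} (hf : HolAt f t) (m : (F.push e D hD).St t)
    (x : V) (hx : x ∈ fib e D t) :
    F.pushVal e D hD t (om f t • m) x hx = om (fun z => f (e z).1) x • F.pushVal e D hD t m x hx := by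
  rw [F.pushVal_smul, pullS_gm e hx.1 hf]

theorem EMod.pushVal_sum {ι : Type*} (I : Finset ι) (t : V') (m : ι → (F.push e D hD).St t) (x : V)
    (hx : x ∈ fib e D t) :
    F.pushVal e D hD t (∑ i ∈ I, m i) x hx = ∑ i ∈ I, F.pushVal e D hD t (m i) x hx := by
  classical
  induction I using Finset.induction_on with
  | empty => simp [F.pushVal_zero]
  | insert a I ha ih => rw [Finset.sum_insert ha, Finset.sum_insert ha, F.pushVal_add, ih]

/-- the section of the direct image given by a section of `F` (zero where it is not one) -/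
noncomputable def EMod.pushSec (s : (x : V) → F.St x) (t : V') : (F.push e D hD).St t :=
  pushElt F e D s t

theorem EMod.pushVal_pushSec {s : (x : V) → F.St x} {t : V'} (hs : F.On s (fib e D t)) (x : V)
    (hx : x ∈ fib e D t) : F.pushVal e D hD t (F.pushSec e D hD s t) x hx = s x :=
  pushElt_val F e D hs ⟨x, hx⟩

include hD in
theorem EMod.on_near {s : (x : V) → F.St x} {t : V'} (hs : F.On s (fib e D t)) :
    ∀ᶠ t' in 𝓝 t, F.On s (fib e D t') :=
  fib_tube e hD (P := fun y => F.At s y) fun x hx => F.ev (hs x hx)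

theorem EMod.pushSec_at {s : (x : V) → F.St x} {t : V'} (hs : F.On s (fib e D t)) :
    (F.push e D hD).At (F.pushSec e D hD s) t := by
  rw [F.push_at]
  refine ⟨s, ?_⟩
  filter_upwards [EMod.on_near F e D hD hs] with t' ht'
  exact ⟨ht', fun x hx => F.pushVal_pushSec e D hD ht' x hx⟩

/-- every element of the stalk of the direct image is given by a section near the fibre -/
theorem EMod.exists_pushSec {t : V'} (ht : fib e D t ⊆ F.dom) (m : (F.push e D hD).St t) :
    ∃ s : (x : V) → F.St x, F.On s (fib e D t) ∧ F.pushSec e D hD s t = m := by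
  obtain ⟨σ, hσ⟩ := (show pushSub F e D t from m)
  have h0 : ∃ s : (x : V) → F.St x, F.On s (fib e D t) ∧ ∀ x : fib e D t, σ x = s x := by
    rcases hσ with rfl | h
    · exact ⟨0, fun x hx => F.zero x (ht hx), fun x => rfl⟩
    · exact h
  obtain ⟨s, hs, h⟩ := h0
  refine ⟨s, hs, F.push_ext e D hD t _ _ fun x hx => ?_⟩
  rw [F.pushVal_pushSec e D hD hs]
  exact (h ⟨x, hx⟩).symm

end Pool.Agent.DQ
end
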