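import Mathlib
import Pool.Agent.Lib.MP_ca0fc2_an.Holo
import Pool.Agent.Lib.MP_ca0fc2_an.Pompeiu
import Pool.Agent.Lib.MP_4aa2a9_ag.Mg.G001
import Pool.Agent.Lib.MP_ca0fc2_an.Osgood

section

/-! Cut-off data for two compact subsets of the plane. -/

set_option autoImplicit false

open Set Filter Topology
open scoped ContDiff Manifold

namespace Pool.Agent.DQ.C

/-- Cut-off data: `N' = P' ∪ N` and `N'' = P'' ∪ N` are open bounded sets with intersection `N`,
and `χ` is a smooth function with compact support, `1` on `P'` and `0` on `P''`. -/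
structure Cut (P' P'' N : Set ℂ) (χ : ℂ → ℝ) : Prop where
  openP' : IsOpen P'
  openP'' : IsOpen P''
  openN : IsOpen N
  bddN : Bornology.IsBounded N
  disj : Disjoint P' P''
  smooth : ContDiff ℝ 1 χ
  supp : HasCompactSupport χ
  one : ∀ z ∈ P', χ z = 1
  zero : ∀ z ∈ P'', χ z = 0

theorem exists_cut {C' C'' N : Set ℂ} (hC' : IsCompact C') (hC'' : IsCompact C'') (hN : IsOpen N)
    (h : C' ∩ C'' ⊆ N) :
    ∃ (P' P'' N₁ : Set ℂ) (χ : ℂ → ℝ), Cut P' P'' N₁ χ ∧ N₁ ⊆ N ∧ C' ∩ C'' ⊆ N₁ ∧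
      C' ⊆ P' ∪ N₁ ∧ C'' ⊆ P'' ∪ N₁ := by
  -- a bounded open set `N₁` between
  obtain ⟨N₁, hN₁, hCN₁, hN₁N, hN₁c⟩ :=
    exists_open_between_and_isCompact_closure (hC'.inter hC'') hN h
  have hK' : IsCompact (C' \ N₁) := hC'.diff hN₁
  have hK'' : IsCompact (C'' \ N₁) := hC''.diff hN₁
  have hd : Disjoint (C' \ N₁) (C'' \ N₁) := by
    rw [Set.disjoint_left]
    rintro z ⟨h1, h2⟩ ⟨h3, _⟩
    exact h2 (hCN₁ ⟨h1, h3⟩)
  -- `Q` open with compact closure around `C' \ N₁`, inside the complement of `C'' \ N₁`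
  obtain ⟨Q, hQ, hKQ, hQK, hQc⟩ :=
    exists_open_between_and_isCompact_closure hK' hK''.isClosed.isOpen_compl
      (fun z hz => (Set.disjoint_left.mp hd hz))
  obtain ⟨R, hR, hKR, hRQ, hRc⟩ :=
    exists_open_between_and_isCompact_closure hK' hQ hKQ
  -- a smooth function equal to one on `closure R` and to zero outside `Q`
  obtain ⟨f, hf0, hf1, hf⟩ := exists_contMDiffMap_zero_one_of_isClosed (n := 1) (𝓘(ℝ, ℂ))
    (s := Qᶜ) (t := closure R) hQ.isClosed_compl isClosed_closure (by
      rw [Set.disjoint_left]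
      intro z hz hz2
      exact hz (hRQ hz2))
  refine ⟨R, (closure Q)ᶜ, N₁, f, ⟨hR, isClosed_closure.isOpen_compl, hN₁, ?_, ?_, ?_, ?_, ?_, ?_⟩,
    subset_closure.trans hN₁N, hCN₁, ?_, ?_⟩
  · exact hN₁c.isBounded.subset subset_closure
  · rw [Set.disjoint_left]
    intro z hz hz2
    exact hz2 (subset_closure (hRQ (subset_closure hz)))
  · exact f.contMDiff.contDiff
  · refine HasCompactSupport.intro hQc ?_
    intro z hz
    exact hf0 (fun hzQ => hz (subset_closure hzQ))
  · intro z hz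
    exact hf1 (subset_closure hz)
  · intro z hz
    exact hf0 (fun hzQ => hz (subset_closure hzQ))
  · intro z hz
    by_cases hzN : z ∈ N₁
    · exact Or.inr hzN
    · exact Or.inl (hKR ⟨hz, hzN⟩)
  · intro z hz
    by_cases hzN : z ∈ N₁
    · exact Or.inr hzN
    · refine Or.inl fun hzQ => ?_
      exact hQK hzQ ⟨hz, hzN⟩

end Pool.Agent.DQ.C
end

section

/-! The Cauchy transform of `f * dbar χ`. -/

set_option autoImplicit false

open Set Filter Topology MeasureTheory
open Pool.Agent.Lib.MP_ca0fc2_an (dbar cauchy_pompeiu differentiableAt_integral)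

namespace Pool.Agent.DQ.C

variable {F : Type*} [NormedAddCommGroup F] [NormedSpace ℂ F]

theorem integrableOn_inv_norm_sub (x : ℂ) {G : Set ℂ} (hG : Bornology.IsBounded G) :
    IntegrableOn (fun ζ : ℂ => ‖x - ζ‖⁻¹) G := by
  obtain ⟨R, hR⟩ := hG.subset_ball 0
  have h1 : IntegrableOn (fun w : ℂ => ‖w‖⁻¹) (Metric.ball 0 (R + ‖x‖)) := by
    rw [integrableOn_fun_norm_addHaar (volume : Measure ℂ) (f := fun t : ℝ => t⁻¹)]
    rw [Complex.finrank_real_complex]
    refine (integrableOn_congr_fun (g := fun _ => (1 : ℝ)) ?_ measurableSet_Ioo).mpr ?_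
    · intro y hy
      have : y ≠ 0 := hy.1.ne'
      simp [this]
    · exact integrableOn_const (by simp) (by simp)
  have hmp := Measure.measurePreserving_sub_left (volume : Measure ℂ) x
  have hme : MeasurableEmbedding (fun t : ℂ => x - t) :=
    (Homeomorph.subLeft x).measurableEmbedding
  have h2 := (hmp.integrableOn_comp_preimage hme).mpr h1
  refine h2.mono_set ?_
  intro ζ hζ
  have hζ' := hR hζ
  rw [mem_ball_zero_iff] at hζ'
  rw [mem_preimage, mem_ball_zero_iff]
  calc ‖x - ζ‖ ≤ ‖x‖ + ‖ζ‖ := norm_sub_le _ _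
    _ < R + ‖x‖ := by linarith

theorem exists_bound {G : Set ℂ} (hG : Bornology.IsBounded G) :
    ∃ C : ℝ, 0 ≤ C ∧ ∀ x : ℂ, ∫ ζ in G, ‖x - ζ‖⁻¹ ≤ C := by
  obtain ⟨R, hR⟩ := hG.subset_ball 0
  have hvol : volume G ≠ ⊤ := ((measure_mono hR).trans_lt measure_ball_lt_top).ne
  refine ⟨(∫ w in Metric.ball (0 : ℂ) 1, ‖w‖⁻¹) + (volume G).toReal, by positivity, fun x => ?_⟩
  have hball : IntegrableOn (fun ζ : ℂ => ‖x - ζ‖⁻¹) (Metric.ball x 1) :=
    integrableOn_inv_norm_sub x Metric.isBounded_ball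
  have hind : Integrable (fun ζ : ℂ => (Metric.ball x 1).indicator (fun ζ => ‖x - ζ‖⁻¹) ζ) :=
    (integrable_indicator_iff measurableSet_ball).mpr hball
  have h1 : ∫ ζ in G, ‖x - ζ‖⁻¹ ≤
      ∫ ζ in G, ((Metric.ball x 1).indicator (fun ζ => ‖x - ζ‖⁻¹) ζ + 1) := by
    refine integral_mono (integrableOn_inv_norm_sub x hG) ?_ ?_
    · exact hind.integrableOn.add (integrableOn_const hvol (by simp))
    · intro ζ
      by_cases hζ : ζ ∈ Metric.ball x 1
      · simp only [Set.indicator_of_mem hζ]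
        linarith
      · simp only [Set.indicator_of_notMem hζ, zero_add]
        rw [Metric.mem_ball, not_lt, dist_comm, dist_eq_norm] at hζ
        exact inv_le_one_of_one_le₀ hζ
  have h2 : ∫ ζ in G, ((Metric.ball x 1).indicator (fun ζ => ‖x - ζ‖⁻¹) ζ + 1) =
      (∫ ζ in G, (Metric.ball x 1).indicator (fun ζ => ‖x - ζ‖⁻¹) ζ) + (volume G).toReal := by
    rw [integral_add hind.integrableOn (integrableOn_const hvol (by simp))]
    simp [Measure.real]
  have h3 : ∫ ζ in G, (Metric.ball x 1).indicator (fun ζ => ‖x - ζ‖⁻¹) ζ ≤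
      ∫ ζ, (Metric.ball x 1).indicator (fun ζ => ‖x - ζ‖⁻¹) ζ := by
    refine setIntegral_le_integral hind (Eventually.of_forall fun ζ => ?_)
    exact Set.indicator_nonneg (fun _ _ => by positivity) _
  have h4 : ∫ ζ, (Metric.ball x 1).indicator (fun ζ => ‖x - ζ‖⁻¹) ζ =
      ∫ w in Metric.ball (0 : ℂ) 1, ‖w‖⁻¹ := by
    rw [← integral_indicator measurableSet_ball]
    have hmp := Measure.measurePreserving_sub_left (volume : Measure ℂ) x
    have hme : MeasurableEmbedding (fun t : ℂ => x - t) :=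
      (Homeomorph.subLeft x).measurableEmbedding
    have h5 := hmp.integral_comp hme
      (fun w => (Metric.ball (0 : ℂ) 1).indicator (fun w : ℂ => ‖w‖⁻¹) w)
    rw [← h5]
    congr 1
    ext ζ
    by_cases hζ : ζ ∈ Metric.ball x 1
    · have : x - ζ ∈ Metric.ball (0 : ℂ) 1 := by
        rw [Metric.mem_ball, dist_comm, dist_eq_norm] at hζ
        simpa using hζ
      rw [Set.indicator_of_mem hζ, Set.indicator_of_mem this]
    · have : x - ζ ∉ Metric.ball (0 : ℂ) 1 := by
        rw [Metric.mem_ball, dist_comm, dist_eq_norm] at hζ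
        simpa using hζ
      rw [Set.indicator_of_notMem hζ, Set.indicator_of_notMem this]
  linarith

/-- the Cauchy transform of `f * dbar χ` over `N` -/
noncomputable def uT (N : Set ℂ) (χ : ℂ → ℝ) (f : ℂ → ℂ) (z : ℂ) : ℂ :=
  (1 / Real.pi : ℂ) * ∫ ζ in N, f ζ * dbar (fun t => (χ t : ℂ)) ζ / (z - ζ)

theorem continuous_dbar_cut {P' P'' N : Set ℂ} {χ : ℂ → ℝ} (h : Cut P' P'' N χ) :
    Continuous (dbar (fun t => (χ t : ℂ))) := by
  have h1 : ContDiff ℝ 1 (fun t => (χ t : ℂ)) := Complex.ofRealCLM.contDiff.comp h.smooth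
  have h2 : Continuous (fderiv ℝ (fun t => (χ t : ℂ))) := h1.continuous_fderiv one_ne_zero
  unfold dbar
  fun_prop

theorem exists_dbar_bound {P' P'' N : Set ℂ} {χ : ℂ → ℝ} (h : Cut P' P'' N χ) :
    ∃ B : ℝ, 0 ≤ B ∧ ∀ ζ, ‖dbar (fun t => (χ t : ℂ)) ζ‖ ≤ B ∧ |χ ζ| ≤ B := by
  have h1 : ContDiff ℝ 1 (fun t => (χ t : ℂ)) := Complex.ofRealCLM.contDiff.comp h.smooth
  have hc := continuous_dbar_cut h
  have hs : HasCompactSupport (dbar (fun t => (χ t : ℂ))) := by
    have h2 : HasCompactSupport (fun t => (χ t : ℂ)) := h.supp.comp_left (g := fun t : ℝ => (t : ℂ)) (by simp)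
    have h3 : HasCompactSupport (fderiv ℝ (fun t => (χ t : ℂ))) := h2.fderiv ℝ
    refine h3.mono ?_
    intro t ht
    rw [Function.mem_support] at ht ⊢
    intro h0
    apply ht
    simp [dbar, h0]
  obtain ⟨B₁, hB₁⟩ := hs.exists_bound_of_continuous hc
  obtain ⟨B₂, hB₂⟩ := h.supp.exists_bound_of_continuous h.smooth.continuous
  refine ⟨max B₁ B₂, ((norm_nonneg _).trans (hB₁ 0)).trans (le_max_left _ _), fun ζ => ⟨?_, ?_⟩⟩
  · exact (hB₁ ζ).trans (le_max_left _ _)
  · exact (hB₂ ζ).trans (le_max_right _ _)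

/-- Cauchy transforms are holomorphic off the support. -/
theorem cauchyT_holo {N : Set ℂ} (hN : IsOpen N) (hNb : Bornology.IsBounded N) {H : ℂ → ℂ}
    (hm : AEStronglyMeasurable H (volume.restrict N)) {B : ℝ} (hB : ∀ ζ ∈ N, ‖H ζ‖ ≤ B)
    {z₀ : ℂ} {δ : ℝ} (hδ : 0 < δ) (h0 : ∀ ζ ∈ N, ζ ∈ Metric.ball z₀ δ → H ζ = 0) :
    DifferentiableAt ℂ (fun z => ∫ ζ in N, H ζ / (z - ζ)) z₀ := by
  obtain ⟨R, hR⟩ := hNb.subset_ball 0
  have hvol : volume N ≠ ⊤ := ((measure_mono hR).trans_lt measure_ball_lt_top).ne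
  refine differentiableAt_integral (G := fun z ζ => H ζ / (z - ζ)) (r := δ / 2) (by positivity)
    (g := fun _ => |B| * (δ / 2)⁻¹) ?_ ?_ ?_ ?_
  · refine (ae_restrict_iff' hN.measurableSet).mpr (Eventually.of_forall fun ζ hζ => ?_)
    by_cases hζ2 : ζ ∈ Metric.ball z₀ δ
    · simp [h0 ζ hζ hζ2]
    · intro z hz
      have hne : z - ζ ≠ 0 := by
        intro h
        apply hζ2
        rw [sub_eq_zero] at h
        rw [← h]
        exact Metric.ball_subset_ball (by linarith) hz
      exact (DifferentiableAt.div (c := fun _ => H ζ) (d := fun z => z - ζ)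
        (differentiableAt_const _) (differentiableAt_id.sub_const _) hne).differentiableWithinAt
  · intro z _
    simp_rw [div_eq_mul_inv]
    exact hm.mul ((measurable_const.sub measurable_id).inv).aestronglyMeasurable
  · exact integrableOn_const hvol enorm_ne_top
  · refine (ae_restrict_iff' hN.measurableSet).mpr (Eventually.of_forall fun ζ hζ z hz => ?_)
    by_cases hζ2 : ζ ∈ Metric.ball z₀ δ
    · rw [h0 ζ hζ hζ2]
      simp only [zero_div, norm_zero]
      positivity
    · rw [norm_div, div_eq_mul_inv]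
      have h1 : δ / 2 ≤ ‖z - ζ‖ := by
        rw [Metric.mem_ball, not_lt, dist_eq_norm] at hζ2
        rw [Metric.mem_ball, dist_eq_norm] at hz
        have := norm_sub_le_norm_sub_add_norm_sub ζ z z₀
        rw [norm_sub_rev ζ z] at this
        linarith
      have h2 : ‖H ζ‖ ≤ |B| := (hB ζ hζ).trans (le_abs_self _)
      exact mul_le_mul h2 (inv_anti₀ (by positivity) h1) (by positivity) (by positivity)

theorem dbar_cut_zero' {P' P'' N : Set ℂ} {χ : ℂ → ℝ} (h : Cut P' P'' N χ) {ζ : ℂ} (hζ : ζ ∈ P') :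
    dbar (fun t => (χ t : ℂ)) ζ = 0 := by
  have h1 : (fun t => (χ t : ℂ)) =ᶠ[𝓝 ζ] fun _ => (1 : ℂ) := by
    filter_upwards [h.openP'.mem_nhds hζ] with t ht
    simp [h.one t ht]
  simp [dbar, h1.fderiv_eq]

theorem dbar_cut_zero'' {P' P'' N : Set ℂ} {χ : ℂ → ℝ} (h : Cut P' P'' N χ) {ζ : ℂ}
    (hζ : ζ ∈ P'') : dbar (fun t => (χ t : ℂ)) ζ = 0 := by
  have h1 : (fun t => (χ t : ℂ)) =ᶠ[𝓝 ζ] fun _ => (0 : ℂ) := by
    filter_upwards [h.openP''.mem_nhds hζ] with t ht
    simp [h.zero t ht]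
  simp [dbar, h1.fderiv_eq]

theorem uT_holo_off {P' P'' N : Set ℂ} {χ : ℂ → ℝ} (h : Cut P' P'' N χ) {f : ℂ → ℂ}
    (hf : DifferentiableOn ℂ f N) {M : ℝ} (hM : ∀ z ∈ N, ‖f z‖ ≤ M) {z : ℂ}
    (hz : z ∈ P' ∨ z ∈ P'') : DifferentiableAt ℂ (uT N χ f) z := by
  obtain ⟨B, hB0, hB⟩ := exists_dbar_bound h
  obtain ⟨δ, hδ, hsub⟩ : ∃ δ > 0, ∀ ζ ∈ Metric.ball z δ, dbar (fun t => (χ t : ℂ)) ζ = 0 := by
    rcases hz with hz | hz
    · obtain ⟨δ, hδ, hs⟩ := Metric.isOpen_iff.mp h.openP' z hz
      exact ⟨δ, hδ, fun ζ hζ => dbar_cut_zero' h (hs hζ)⟩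
    · obtain ⟨δ, hδ, hs⟩ := Metric.isOpen_iff.mp h.openP'' z hz
      exact ⟨δ, hδ, fun ζ hζ => dbar_cut_zero'' h (hs hζ)⟩
  unfold uT
  apply DifferentiableAt.const_mul
  refine cauchyT_holo h.openN h.bddN (H := fun ζ => f ζ * dbar (fun t => (χ t : ℂ)) ζ) ?_
    (B := |M| * B) ?_ hδ ?_
  · exact (hf.continuousOn.mul (continuous_dbar_cut h).continuousOn).aestronglyMeasurable
      h.openN.measurableSet
  · intro ζ hζ
    rw [norm_mul]
    exact mul_le_mul ((hM ζ hζ).trans (le_abs_self _)) (hB ζ).1 (norm_nonneg _) (abs_nonneg _)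
  · intro ζ _ hζ
    simp [hsub ζ hζ]

end Pool.Agent.DQ.C
end

section

/-! The Cauchy transform of `f * dbar χ`: the basic equation. -/

set_option autoImplicit false

open Set Filter Topology MeasureTheory
open Pool.Agent.Lib.MP_ca0fc2_an (dbar cauchy_pompeiu differentiableAt_integral
  dbar_eq_zero_of_differentiableAt)

namespace Pool.Agent.DQ.C

variable {F : Type*} [NormedAddCommGroup F] [NormedSpace ℂ F]

theorem dbar_mul {a b : ℂ → ℂ} {x : ℂ} (ha : DifferentiableAt ℝ a x)
    (hb : DifferentiableAt ℝ b x) :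
    dbar (fun t => a t * b t) x = dbar a x * b x + a x * dbar b x := by
  have h := (ha.hasFDerivAt.mul hb.hasFDerivAt)
  have h' : HasFDerivAt (fun t => a t * b t) (a x • fderiv ℝ b x + b x • fderiv ℝ a x) x := h
  simp only [dbar, h'.fderiv, add_apply, smul_apply,
    smul_eq_mul]
  ring

/-- The basic equation. -/
theorem uT_holo_on {P' P'' N : Set ℂ} {χ : ℂ → ℝ} (h : Cut P' P'' N χ) {f : ℂ → ℂ}
    (hf : DifferentiableOn ℂ f N) {M : ℝ} (hM : ∀ z ∈ N, ‖f z‖ ≤ M) {z₀ : ℂ} (hz₀ : z₀ ∈ N) :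
    DifferentiableAt ℂ (fun z => (1 - (χ z : ℂ)) * f z + uT N χ f z) z₀ := by
  obtain ⟨B, hB0, hB⟩ := exists_dbar_bound h
  obtain ⟨r, hr, hsub⟩ := Metric.isOpen_iff.mp h.openN z₀ hz₀
  let b : ContDiffBump z₀ := ⟨r / 4, r / 2, by positivity, by linarith⟩
  have hbsm : ContDiff ℝ 1 (fun t => (b t : ℂ)) :=
    Complex.ofRealCLM.contDiff.comp (b.contDiff (n := 1))
  have hχsm : ContDiff ℝ 1 (fun t => (χ t : ℂ)) := Complex.ofRealCLM.contDiff.comp h.smooth
  have hbd : Differentiable ℝ (fun t => (b t : ℂ)) := hbsm.differentiable one_ne_zero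
  have hχd : Differentiable ℝ (fun t => (χ t : ℂ)) := hχsm.differentiable one_ne_zero
  have hb0 : ∀ t, t ∉ Metric.closedBall z₀ (r / 2) → b =ᶠ[𝓝 t] fun _ => (0 : ℝ) := by
    intro t ht
    have : (Metric.closedBall z₀ (r / 2))ᶜ ∈ 𝓝 t :=
      Metric.isClosed_closedBall.isOpen_compl.mem_nhds ht
    filter_upwards [this] with s hs
    have hs2 : s ∉ Function.support b := by
      rw [b.support_eq]
      exact fun h => hs (Metric.ball_subset_closedBall h)
    simpa using hs2
  have hcb : Metric.closedBall z₀ (r / 2) ⊆ N := fun t ht =>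
    hsub (Metric.closedBall_subset_ball (by linarith) ht)
  set F₀ : ℂ → ℂ := fun t => (b t : ℂ) * ((1 - (χ t : ℂ)) * f t) with hF₀
  have hF0 : ∀ t, t ∉ Metric.closedBall z₀ (r / 2) → F₀ =ᶠ[𝓝 t] fun _ => (0 : ℂ) := by
    intro t ht
    filter_upwards [hb0 t ht] with s hs
    simp [hF₀, hs]
  have hfR : ∀ t ∈ N, ContDiffAt ℝ 1 f t := by
    intro t ht
    have h1 : ContDiffOn ℂ 1 f N := hf.contDiffOn h.openN
    exact (h1.contDiffAt (h.openN.mem_nhds ht)).restrict_scalars ℝ
  have hFsm : ContDiff ℝ 1 F₀ := by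
    rw [contDiff_iff_contDiffAt]
    intro t
    by_cases ht : t ∈ Metric.closedBall z₀ (r / 2)
    · exact hbsm.contDiffAt.mul ((contDiffAt_const.sub hχsm.contDiffAt).mul (hfR t (hcb ht)))
    · exact contDiffAt_const.congr_of_eventuallyEq (hF0 t ht)
  have hFc : HasCompactSupport F₀ := by
    refine HasCompactSupport.intro (isCompact_closedBall z₀ (r / 2)) ?_
    intro t ht
    exact (hF0 t ht).self_of_nhds
  -- the derivative of `F₀`
  have hdF : ∀ ζ ∈ N, dbar F₀ ζ = dbar (fun t => (b t : ℂ)) ζ * ((1 - (χ ζ : ℂ)) * f ζ) -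
      (b ζ : ℂ) * (f ζ * dbar (fun t => (χ t : ℂ)) ζ) := by
    intro ζ hζ
    have hfd : DifferentiableAt ℂ f ζ := hf.differentiableAt (h.openN.mem_nhds hζ)
    have hfdR : DifferentiableAt ℝ f ζ := hfd.restrictScalars ℝ
    have h1χ : DifferentiableAt ℝ (fun t => 1 - (χ t : ℂ)) ζ :=
      (differentiableAt_const _).sub (hχd ζ)
    have e1 : dbar (fun t => 1 - (χ t : ℂ)) ζ = - dbar (fun t => (χ t : ℂ)) ζ := by
      have : HasFDerivAt (fun t => 1 - (χ t : ℂ)) (- fderiv ℝ (fun t => (χ t : ℂ)) ζ) ζ :=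
        (hχd ζ).hasFDerivAt.const_sub 1
      simp only [dbar, this.fderiv, neg_apply]
      ring
    have h2 : DifferentiableAt ℝ (fun t => (1 - (χ t : ℂ)) * f t) ζ := h1χ.mul hfdR
    have e2 := dbar_mul (a := fun t => (b t : ℂ)) (b := fun t => (1 - (χ t : ℂ)) * f t) (hbd ζ) h2
    have e3 := dbar_mul (a := fun t => 1 - (χ t : ℂ)) (b := f) h1χ hfdR
    rw [hF₀, e2, e3, e1, dbar_eq_zero_of_differentiableAt hfd]
    ring
  have hdF0 : ∀ ζ, ζ ∉ N → dbar F₀ ζ = 0 := by
    intro ζ hζ
    have := hF0 ζ (fun h => hζ (hcb h))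
    simp [dbar, this.fderiv_eq]
  -- Pompeiu's formula
  have hpom : ∀ x, (1 / Real.pi : ℂ) * ∫ ζ in N, dbar F₀ ζ / (x - ζ) = F₀ x := by
    intro x
    have h1 := cauchy_pompeiu hFsm hFc x
    have h2 : ∫ ζ in N, dbar F₀ ζ / (x - ζ) = ∫ ζ, dbar F₀ ζ / (x - ζ) := by
      apply setIntegral_eq_integral_of_forall_compl_eq_zero
      intro ζ hζ
      rw [hdF0 ζ hζ, zero_div]
    rw [h2, h1]
    have : (Real.pi : ℂ) ≠ 0 := by exact_mod_cast Real.pi_ne_zero
    field_simp
  have hbdd : HasCompactSupport (dbar (fun t => (b t : ℂ))) := by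
    have h2 : HasCompactSupport (fun t => (b t : ℂ)) :=
      b.hasCompactSupport.comp_left (g := fun t : ℝ => (t : ℂ)) (by simp)
    have h3 : HasCompactSupport (fderiv ℝ (fun t => (b t : ℂ))) := h2.fderiv ℝ
    refine h3.mono ?_
    intro t ht
    rw [Function.mem_support] at ht ⊢
    intro h0
    apply ht
    simp [dbar, h0]
  have hbdc : Continuous (dbar (fun t => (b t : ℂ))) := by
    have h2 : Continuous (fderiv ℝ (fun t => (b t : ℂ))) := hbsm.continuous_fderiv one_ne_zero
    unfold dbar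
    fun_prop
  obtain ⟨B₂, hB₂⟩ := hbdd.exists_bound_of_continuous hbdc
  have hM' : ∀ z ∈ N, ‖f z‖ ≤ |M| := fun z hz => (hM z hz).trans (le_abs_self _)
  set H : ℂ → ℂ := fun ζ => dbar (fun t => (b t : ℂ)) ζ * ((1 - (χ ζ : ℂ)) * f ζ) +
      (1 - (b ζ : ℂ)) * (f ζ * dbar (fun t => (χ t : ℂ)) ζ) with hH
  have hχc := continuous_dbar_cut h
  have hbc : Continuous (fun t => (b t : ℂ)) := hbsm.continuous
  have hχcc : Continuous (fun t => (χ t : ℂ)) := hχsm.continuous
  have hHm : AEStronglyMeasurable H (volume.restrict N) := by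
    apply ContinuousOn.aestronglyMeasurable _ h.openN.measurableSet
    have hfc := hf.continuousOn
    exact ((hbdc.continuousOn).mul ((continuousOn_const.sub hχcc.continuousOn).mul hfc)).add
      ((continuousOn_const.sub hbc.continuousOn).mul (hfc.mul hχc.continuousOn))
  have hb1 : ∀ ζ, ‖(b ζ : ℂ)‖ ≤ 1 := by
    intro ζ
    rw [Complex.norm_real, Real.norm_eq_abs, abs_of_nonneg b.nonneg]
    exact b.le_one
  have hHb : ∀ ζ ∈ N, ‖H ζ‖ ≤ |B₂| * ((1 + B) * |M|) + 2 * (|M| * B) := by
    intro ζ hζ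
    refine (norm_add_le _ _).trans (add_le_add ?_ ?_)
    · rw [norm_mul, norm_mul]
      refine mul_le_mul ((hB₂ ζ).trans (le_abs_self _)) (mul_le_mul ?_ (hM' ζ hζ) (norm_nonneg _)
        (by positivity)) (by positivity) (abs_nonneg _)
      refine (norm_sub_le _ _).trans ?_
      rw [norm_one, Complex.norm_real, Real.norm_eq_abs]
      linarith [(hB ζ).2]
    · rw [norm_mul, norm_mul]
      refine mul_le_mul ?_ (mul_le_mul (hM' ζ hζ) (hB ζ).1 (norm_nonneg _) (abs_nonneg _))
        (by positivity) (by norm_num)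
      refine (norm_sub_le _ _).trans ?_
      rw [norm_one]
      linarith [hb1 ζ]
  have hH0 : ∀ ζ ∈ N, ζ ∈ Metric.ball z₀ (r / 4) → H ζ = 0 := by
    intro ζ _ hζ
    have h1 : b ζ = 1 := b.one_of_mem_closedBall (Metric.ball_subset_closedBall hζ)
    have h2 : (fun t => (b t : ℂ)) =ᶠ[𝓝 ζ] fun _ => (1 : ℂ) := by
      filter_upwards [Metric.isOpen_ball.mem_nhds hζ] with t ht
      rw [b.one_of_mem_closedBall (Metric.ball_subset_closedBall ht)]
      simp
    have h3 : dbar (fun t => (b t : ℂ)) ζ = 0 := by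
      simp [dbar, h2.fderiv_eq]
    simp [hH, h1, h3]
  have hmain := cauchyT_holo h.openN h.bddN hHm hHb (z₀ := z₀) (δ := r / 4) (by positivity) hH0
  refine (hmain.const_mul (1 / Real.pi : ℂ)).congr_of_eventuallyEq ?_
  filter_upwards [Metric.ball_mem_nhds z₀ (show (0 : ℝ) < r / 4 by positivity)] with x hx
  have hx1 : b x = 1 := b.one_of_mem_closedBall (Metric.ball_subset_closedBall hx)
  have e1 : (1 - (χ x : ℂ)) * f x = F₀ x := by simp [hF₀, hx1]
  rw [e1, ← hpom x, uT, ← mul_add]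
  congr 1
  have hint : ∀ (g : ℂ → ℂ) (A : ℝ), AEStronglyMeasurable g (volume.restrict N) →
      (∀ ζ ∈ N, ‖g ζ‖ ≤ A) → IntegrableOn (fun ζ => g ζ / (x - ζ)) N := by
    intro g A hg hA
    refine Integrable.mono' ((integrableOn_inv_norm_sub x h.bddN).const_mul |A|) ?_ ?_
    · simp_rw [div_eq_mul_inv]
      exact hg.mul ((measurable_const.sub measurable_id).inv).aestronglyMeasurable
    · refine (ae_restrict_iff' h.openN.measurableSet).mpr (Eventually.of_forall fun ζ hζ => ?_)
      rw [norm_div, div_eq_mul_inv]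
      exact mul_le_mul_of_nonneg_right ((hA ζ hζ).trans (le_abs_self _)) (by positivity)
  have hfc := hf.continuousOn
  have hi2 : IntegrableOn (fun ζ => f ζ * dbar (fun t => (χ t : ℂ)) ζ / (x - ζ)) N := by
    refine hint _ (|M| * B) ?_ ?_
    · apply ContinuousOn.aestronglyMeasurable _ h.openN.measurableSet
      exact hfc.mul hχc.continuousOn
    · intro ζ hζ
      rw [norm_mul]
      exact mul_le_mul (hM' ζ hζ) (hB ζ).1 (norm_nonneg _) (abs_nonneg _)
  have hi1 : IntegrableOn (fun ζ => dbar F₀ ζ / (x - ζ)) N := by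
    have hcd : Continuous (dbar F₀) := by
      have h2 : Continuous (fderiv ℝ F₀) := hFsm.continuous_fderiv one_ne_zero
      unfold dbar
      fun_prop
    have hcs : HasCompactSupport (dbar F₀) := by
      have h3 : HasCompactSupport (fderiv ℝ F₀) := hFc.fderiv ℝ
      refine h3.mono ?_
      intro t ht
      rw [Function.mem_support] at ht ⊢
      intro h0
      apply ht
      simp [dbar, h0]
    obtain ⟨B₃, hB₃⟩ := hcs.exists_bound_of_continuous hcd
    exact hint _ B₃ hcd.aestronglyMeasurable (fun ζ _ => hB₃ ζ)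
  rw [← integral_add hi1 hi2]
  refine setIntegral_congr_fun h.openN.measurableSet fun ζ hζ => ?_
  simp only [hH]
  rw [hdF ζ hζ]
  ring

/-- holomorphic dependence on parameters -/
theorem uT_holo_param {P' P'' N : Set ℂ} {χ : ℂ → ℝ} (h : Cut P' P'' N χ) {W : Set F}
    (hW : IsOpen W) {f : ℂ × F → ℂ} (hf : DifferentiableOn ℂ f (N ×ˢ W)) {M : ℝ}
    (hM : ∀ p ∈ N ×ˢ W, ‖f p‖ ≤ M) (z : ℂ) {w : F} (hw : w ∈ W) :
    DifferentiableAt ℂ (fun w => uT N χ (fun ζ => f (ζ, w)) z) w := by
  obtain ⟨B, hB0, hB⟩ := exists_dbar_bound h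
  obtain ⟨r, hr, hsub⟩ := Metric.isOpen_iff.mp hW w hw
  unfold uT
  apply DifferentiableAt.const_mul
  have hopen : IsOpen (N ×ˢ W) := h.openN.prod hW
  refine differentiableAt_integral (r := r) hr
    (G := fun w ζ => f (ζ, w) * dbar (fun t => (χ t : ℂ)) ζ / (z - ζ))
    (g := fun ζ => |M| * B * ‖z - ζ‖⁻¹) ?_ ?_ ?_ ?_
  · refine (ae_restrict_iff' h.openN.measurableSet).mpr (Eventually.of_forall fun ζ hζ => ?_)
    intro y hy
    apply DifferentiableAt.differentiableWithinAt
    simp only [div_eq_mul_inv]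
    apply DifferentiableAt.mul_const
    apply DifferentiableAt.mul_const
    have h1 : DifferentiableAt ℂ f (ζ, y) :=
      hf.differentiableAt (hopen.mem_nhds ⟨hζ, hsub hy⟩)
    exact DifferentiableAt.comp (g := f) (f := fun y : F => (ζ, y)) y h1
      ((differentiableAt_const _).prodMk differentiableAt_id)
  · intro y hy
    simp_rw [div_eq_mul_inv]
    refine AEStronglyMeasurable.mul ?_
      ((measurable_const.sub measurable_id).inv).aestronglyMeasurable
    apply ContinuousOn.aestronglyMeasurable _ h.openN.measurableSet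
    have h1 : ContinuousOn (fun ζ : ℂ => f (ζ, y)) N :=
      hf.continuousOn.comp (by fun_prop : Continuous fun ζ : ℂ => (ζ, y)).continuousOn
        (fun ζ hζ => ⟨hζ, hsub hy⟩)
    exact h1.mul (continuous_dbar_cut h).continuousOn
  · exact (integrableOn_inv_norm_sub z h.bddN).const_mul _
  · refine (ae_restrict_iff' h.openN.measurableSet).mpr (Eventually.of_forall fun ζ hζ y hy => ?_)
    rw [norm_div, div_eq_mul_inv, norm_mul]
    refine mul_le_mul_of_nonneg_right ?_ (by positivity)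
    exact mul_le_mul ((hM _ ⟨hζ, hsub hy⟩).trans (le_abs_self _)) (hB ζ).1 (norm_nonneg _)
      (abs_nonneg _)

theorem uT_bound {P' P'' N : Set ℂ} {χ : ℂ → ℝ} (h : Cut P' P'' N χ) :
    ∃ C : ℝ, 0 ≤ C ∧ ∀ (f : ℂ → ℂ) (M : ℝ), (∀ z ∈ N, ‖f z‖ ≤ M) → 0 ≤ M →
      ∀ z, ‖uT N χ f z‖ ≤ C * M := by
  obtain ⟨B, hB0, hB⟩ := exists_dbar_bound h
  obtain ⟨C, hC0, hC⟩ := exists_bound h.bddN
  refine ⟨1 / Real.pi * (B * C), by positivity, fun f M hM hM0 z => ?_⟩
  have h1 : ‖∫ ζ in N, f ζ * dbar (fun t => (χ t : ℂ)) ζ / (z - ζ)‖ ≤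
      ∫ ζ in N, M * B * ‖z - ζ‖⁻¹ := by
    refine norm_integral_le_of_norm_le ((integrableOn_inv_norm_sub z h.bddN).const_mul _) ?_
    refine (ae_restrict_iff' h.openN.measurableSet).mpr (Eventually.of_forall fun ζ hζ => ?_)
    rw [norm_div, div_eq_mul_inv, norm_mul]
    refine mul_le_mul_of_nonneg_right ?_ (by positivity)
    exact mul_le_mul (hM ζ hζ) (hB ζ).1 (norm_nonneg _) hM0
  rw [integral_const_mul] at h1
  unfold uT
  rw [norm_mul]
  have h2 : ‖(1 / Real.pi : ℂ)‖ = 1 / Real.pi := by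
    rw [norm_div, norm_one, Complex.norm_real, Real.norm_eq_abs, abs_of_pos Real.pi_pos]
  rw [h2]
  calc 1 / Real.pi * ‖∫ ζ in N, f ζ * dbar (fun t => (χ t : ℂ)) ζ / (z - ζ)‖
      ≤ 1 / Real.pi * (M * B * C) := by
        refine mul_le_mul_of_nonneg_left (h1.trans ?_) (by positivity)
        exact mul_le_mul_of_nonneg_left (hC z) (by positivity)
    _ = 1 / Real.pi * (B * C) * M := by ring

end Pool.Agent.DQ.C
end

section

/-! Additive splitting (Cousin problem) with bounds and holomorphic parameters. -/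

set_option autoImplicit false

open Set Filter Topology MeasureTheory
open Pool.Agent.Lib.MP_ca0fc2_an (dbar osgood)

namespace Pool.Agent.DQ.C

variable {F : Type*} [NormedAddCommGroup F] [NormedSpace ℂ F]

/-- Additive splitting with bounds. -/
theorem split_bound {P' P'' N : Set ℂ} {χ : ℂ → ℝ} (h : Cut P' P'' N χ) :
    ∃ C : ℝ, 0 < C ∧ ∀ (W : Set F), IsOpen W → ∀ (f : ℂ × F → ℂ) (M : ℝ), 0 ≤ M →
      DifferentiableOn ℂ f (N ×ˢ W) → (∀ p ∈ N ×ˢ W, ‖f p‖ ≤ M) →
      ∃ f' f'' : ℂ × F → ℂ, DifferentiableOn ℂ f' ((P' ∪ N) ×ˢ W) ∧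
        DifferentiableOn ℂ f'' ((P'' ∪ N) ×ˢ W) ∧
        (∀ p ∈ (P' ∪ N) ×ˢ W, ‖f' p‖ ≤ C * M) ∧ (∀ p ∈ (P'' ∪ N) ×ˢ W, ‖f'' p‖ ≤ C * M) ∧
        ∀ p ∈ N ×ˢ W, f p = f' p - f'' p := by
  classical
  obtain ⟨B, hB0, hB⟩ := exists_dbar_bound h
  obtain ⟨C₀, hC₀, hC⟩ := uT_bound h
  refine ⟨1 + B + C₀, by positivity, fun W hW f M hM0 hf hM => ?_⟩
  set u : ℂ × F → ℂ := fun p => uT N χ (fun ζ => f (ζ, p.2)) p.1 with hu
  have hub : ∀ p : ℂ × F, p.2 ∈ W → ‖u p‖ ≤ C₀ * M := by
    intro p hp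
    exact hC _ M (fun z hz => hM (z, p.2) ⟨hz, hp⟩) hM0 p.1
  have hNW : IsOpen (N ×ˢ W) := h.openN.prod hW
  -- slices of `f`
  have hf1 : ∀ w ∈ W, DifferentiableOn ℂ (fun z => f (z, w)) N := by
    intro w hw z hz
    have h1 : DifferentiableAt ℂ f (z, w) := hf.differentiableAt (hNW.mem_nhds ⟨hz, hw⟩)
    exact (DifferentiableAt.comp (g := f) (f := fun z : ℂ => (z, w)) z h1
      (differentiableAt_id.prodMk (differentiableAt_const _))).differentiableWithinAt
  have hf2 : ∀ z ∈ N, ∀ w ∈ W, DifferentiableAt ℂ (fun w => f (z, w)) w := by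
    intro z hz w hw
    have h1 : DifferentiableAt ℂ f (z, w) := hf.differentiableAt (hNW.mem_nhds ⟨hz, hw⟩)
    exact DifferentiableAt.comp (g := f) (f := fun y : F => (z, y)) w h1
      ((differentiableAt_const _).prodMk differentiableAt_id)
  set f' : ℂ × F → ℂ := fun p => (if p.1 ∈ N then (1 - (χ p.1 : ℂ)) * f p else 0) + u p with hf'
  set f'' : ℂ × F → ℂ := fun p => (if p.1 ∈ N then - (χ p.1 : ℂ) * f p else 0) + u p with hf''
  have hb' : ∀ p ∈ (P' ∪ N) ×ˢ W, ‖f' p‖ ≤ (1 + B + C₀) * M := by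
    rintro p ⟨_, hp2⟩
    refine (norm_add_le _ _).trans ?_
    have h1 : ‖(if p.1 ∈ N then (1 - (χ p.1 : ℂ)) * f p else 0)‖ ≤ (1 + B) * M := by
      split_ifs with hN
      · rw [norm_mul]
        refine mul_le_mul ?_ (hM p ⟨hN, hp2⟩) (norm_nonneg _) (by positivity)
        refine (norm_sub_le _ _).trans ?_
        rw [norm_one, Complex.norm_real, Real.norm_eq_abs]
        linarith [(hB p.1).2]
      · rw [norm_zero]; positivity
    have h2 := hub p hp2
    calc _ ≤ (1 + B) * M + C₀ * M := add_le_add h1 h2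
      _ = _ := by ring
  have hb'' : ∀ p ∈ (P'' ∪ N) ×ˢ W, ‖f'' p‖ ≤ (1 + B + C₀) * M := by
    rintro p ⟨_, hp2⟩
    refine (norm_add_le _ _).trans ?_
    have h1 : ‖(if p.1 ∈ N then - (χ p.1 : ℂ) * f p else 0)‖ ≤ (1 + B) * M := by
      split_ifs with hN
      · rw [norm_mul]
        refine mul_le_mul ?_ (hM p ⟨hN, hp2⟩) (norm_nonneg _) (by positivity)
        rw [norm_neg, Complex.norm_real, Real.norm_eq_abs]
        linarith [(hB p.1).2]
      · rw [norm_zero]; positivity
    have h2 := hub p hp2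
    calc _ ≤ (1 + B) * M + C₀ * M := add_le_add h1 h2
      _ = _ := by ring
  refine ⟨f', f'', ?_, ?_, hb', hb'', ?_⟩
  · have hopen : IsOpen ((P' ∪ N) ×ˢ W) := (h.openP'.union h.openN).prod hW
    refine osgood hopen ?_ ?_ ?_
    · rintro ⟨z, w⟩ ⟨hz, hw⟩
      simp only at hz hw ⊢
      by_cases hzN : z ∈ N
      · have h1 := uT_holo_on h (hf1 w hw) (M := M) (fun z hz => hM (z, w) ⟨hz, hw⟩) hzN
        refine h1.congr_of_eventuallyEq ?_
        filter_upwards [h.openN.mem_nhds hzN] with t ht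
        simp [hf', hu, ht]
      · have hzP : z ∈ P' := hz.resolve_right hzN
        have h1 := uT_holo_off h (hf1 w hw) (M := M) (fun z hz => hM (z, w) ⟨hz, hw⟩)
          (z := z) (Or.inl hzP)
        refine h1.congr_of_eventuallyEq ?_
        filter_upwards [h.openP'.mem_nhds hzP] with t ht
        simp [hf', hu, h.one t ht]
    · rintro ⟨z, w⟩ ⟨hz, hw⟩
      simp only at hz hw ⊢
      have h2 := uT_holo_param h hW hf hM z hw
      by_cases hzN : z ∈ N
      · simp only [hf', hu, hzN, if_true]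
        exact ((hf2 z hzN w hw).const_mul _).add h2
      · simp only [hf', hu, hzN, if_false, zero_add]
        exact h2
    · intro p hp
      obtain ⟨r, hr, hsub⟩ := Metric.isOpen_iff.mp hopen p hp
      exact ⟨r, hr, _, fun p' hp' => hb' p' (hsub hp')⟩
  · have hopen : IsOpen ((P'' ∪ N) ×ˢ W) := (h.openP''.union h.openN).prod hW
    refine osgood hopen ?_ ?_ ?_
    · rintro ⟨z, w⟩ ⟨hz, hw⟩
      simp only at hz hw ⊢
      by_cases hzN : z ∈ N
      · have h1 := uT_holo_on h (hf1 w hw) (M := M) (fun z hz => hM (z, w) ⟨hz, hw⟩) hzN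
        have h3 : DifferentiableAt ℂ (fun z => f (z, w)) z :=
          (hf1 w hw).differentiableAt (h.openN.mem_nhds hzN)
        refine (h1.sub h3).congr_of_eventuallyEq ?_
        filter_upwards [h.openN.mem_nhds hzN] with t ht
        simp only [hf'', hu, ht, if_true, Pi.sub_apply]
        ring
      · have hzP : z ∈ P'' := hz.resolve_right hzN
        have h1 := uT_holo_off h (hf1 w hw) (M := M) (fun z hz => hM (z, w) ⟨hz, hw⟩)
          (z := z) (Or.inr hzP)
        refine h1.congr_of_eventuallyEq ?_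
        filter_upwards [h.openP''.mem_nhds hzP] with t ht
        simp [hf'', hu, h.zero t ht]
    · rintro ⟨z, w⟩ ⟨hz, hw⟩
      simp only at hz hw ⊢
      have h2 := uT_holo_param h hW hf hM z hw
      by_cases hzN : z ∈ N
      · simp only [hf'', hu, hzN, if_true]
        exact ((hf2 z hzN w hw).const_mul _).add h2
      · simp only [hf'', hu, hzN, if_false, zero_add]
        exact h2
    · intro p hp
      obtain ⟨r, hr, hsub⟩ := Metric.isOpen_iff.mp hopen p hp
      exact ⟨r, hr, _, fun p' hp' => hb'' p' (hsub hp')⟩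
  · rintro p ⟨hp1, hp2⟩
    simp only [hf', hf'', hp1, if_true]
    ring

/-- Additive splitting near compact sets. -/
theorem split_near {C' C'' : Set ℂ} {L : Set F} (hC' : IsCompact C') (hC'' : IsCompact C'')
    (hL : IsCompact L) {f : ℂ × F → ℂ} (hf : HolNear f ((C' ∩ C'') ×ˢ L)) :
    ∃ f' f'' : ℂ × F → ℂ, HolNear f' (C' ×ˢ L) ∧ HolNear f'' (C'' ×ˢ L) ∧
      ∀ᶠ p in 𝓝ˢ ((C' ∩ C'') ×ˢ L), f p = f' p - f'' p := by
  obtain ⟨N, W, M, hN, hW, hCN, hLW, hM0, hd, hM⟩ := hf.exists_tube (hC'.inter hC'') hL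
  obtain ⟨P', P'', N₁, χ, hcut, hN₁N, hCN₁, h1, h2⟩ := exists_cut hC' hC'' hN hCN
  obtain ⟨C, hC, hsp⟩ := split_bound (F := F) hcut
  obtain ⟨f', f'', hf', hf'', -, -, he⟩ := hsp W hW f M hM0
    (hd.mono (prod_mono hN₁N le_rfl)) (fun p hp => hM p (prod_mono hN₁N le_rfl hp))
  refine ⟨f', f'', ?_, ?_, ?_⟩
  · exact ((holNear_iff_differentiableOn ((hcut.openP'.union hcut.openN).prod hW)).mpr hf').mono
      (prod_mono h1 hLW)
  · exact ((holNear_iff_differentiableOn ((hcut.openP''.union hcut.openN).prod hW)).mpr hf'').mono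
      (prod_mono h2 hLW)
  · have : N₁ ×ˢ W ∈ 𝓝ˢ ((C' ∩ C'') ×ˢ L) :=
      (hcut.openN.prod hW).mem_nhdsSet.mpr (prod_mono hCN₁ hLW)
    filter_upwards [this] with p hp using he p hp

end Pool.Agent.DQ.C
end

section

/-! Gluing of sections; extension of generators across a cut. -/

set_option autoImplicit false

open Set Filter Topology

universe u v w

namespace Pool.Agent.DQ.C

/-- Gluing of two families which agree near the intersection. -/
theorem glue {X : Type u} [TopologicalSpace X] [T2Space X] {St : X → Type v}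
    (s' s'' : (x : X) → St x) {K' K'' : Set X} (hK' : IsCompact K') (hK'' : IsCompact K'')
    (h : ∀ x ∈ K' ∩ K'', ∀ᶠ y in 𝓝 x, s' y = s'' y) :
    ∃ s : (x : X) → St x, (∀ x ∈ K', ∀ᶠ y in 𝓝 x, s y = s' y) ∧
      ∀ x ∈ K'', ∀ᶠ y in 𝓝 x, s y = s'' y := by
  classical
  set N : Set X := {x | ∀ᶠ y in 𝓝 x, s' y = s'' y} with hN
  have hNo : IsOpen N := isOpen_iff_mem_nhds.mpr fun x hx => eventually_eventually_nhds.mpr hx
  have hd : Disjoint (K' \ N) (K'' \ N) := by
    rw [Set.disjoint_left]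
    rintro z ⟨h1, h2⟩ ⟨h3, _⟩
    exact h2 (h z ⟨h1, h3⟩)
  obtain ⟨P', P'', hP', hP'', h1, h2, h3⟩ :=
    SeparatedNhds.of_isCompact_isCompact (hK'.diff hNo) (hK''.diff hNo) hd
  refine ⟨fun x => if x ∈ P'' then s'' x else s' x, ?_, ?_⟩
  · intro x hx
    by_cases hxN : x ∈ N
    · filter_upwards [show ∀ᶠ y in 𝓝 x, s' y = s'' y from hxN] with y hy
      split_ifs
      · exact hy.symm
      · rfl
    · filter_upwards [hP'.mem_nhds (h1 ⟨hx, hxN⟩)] with y hy
      have : y ∉ P'' := Set.disjoint_left.mp h3 hy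
      simp [this]
  · intro x hx
    by_cases hxN : x ∈ N
    · filter_upwards [show ∀ᶠ y in 𝓝 x, s' y = s'' y from hxN] with y hy
      split_ifs
      · rfl
      · exact hy
    · filter_upwards [hP''.mem_nhds (h2 ⟨hx, hxN⟩)] with y hy
      simp [hy]

/-- A function holomorphic near a compact set is bounded on a neighbourhood. -/
theorem exists_bound_near {E : Type u} [NormedAddCommGroup E] [NormedSpace ℂ E] {K : Set E}
    (hK : IsCompact K) {f : E → ℂ} (hf : HolNear f K) :
    ∃ (Ω : Set E) (B : ℝ), IsOpen Ω ∧ K ⊆ Ω ∧ 0 ≤ B ∧ ∀ x ∈ Ω, ‖f x‖ ≤ B := by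
  have h1 : HolNear (fun p : ℂ × E => f p.2) ({0} ×ˢ K) := by
    rintro ⟨z, x⟩ ⟨_, hx⟩
    exact (hf x hx).comp (g := fun p : ℂ × E => p.2)
      (Eventually.of_forall fun q => differentiableAt_snd)
  obtain ⟨N, W, M, hN, hW, h0N, hKW, hM0, -, hM⟩ := h1.exists_tube isCompact_singleton hK
  exact ⟨W, M, hW, hKW, hM0, fun x hx => hM (0, x) ⟨h0N rfl, hx⟩⟩

/-- the same for a matrix of functions -/
theorem exists_bound_near_matrix {E : Type u} [NormedAddCommGroup E] [NormedSpace ℂ E]
    {K : Set E} (hK : IsCompact K) {p q : ℕ} {f : Fin p → Fin q → E → ℂ}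
    (hf : ∀ r s, HolNear (f r s) K) :
    ∃ (Ω : Set E) (B : ℝ), IsOpen Ω ∧ K ⊆ Ω ∧ 0 ≤ B ∧ ∀ r s, ∀ x ∈ Ω, ‖f r s x‖ ≤ B := by
  choose Ω B h1 h2 h3 h4 using fun r s => exists_bound_near hK (hf r s)
  refine ⟨⋂ r, ⋂ s, Ω r s, ∑ r, ∑ s, B r s, isOpen_iInter_of_finite fun r =>
    isOpen_iInter_of_finite fun s => h1 r s, subset_iInter fun r => subset_iInter fun s => h2 r s,
    Finset.sum_nonneg fun r _ => Finset.sum_nonneg fun s _ => h3 r s, fun r s x hx => ?_⟩
  have hx' : x ∈ Ω r s := mem_iInter.mp (mem_iInter.mp hx r) s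
  calc ‖f r s x‖ ≤ B r s := h4 r s x hx'
    _ ≤ ∑ s, B r s := Finset.single_le_sum (f := fun s => B r s) (fun s _ => h3 r s)
        (Finset.mem_univ s)
    _ ≤ ∑ r, ∑ s, B r s := Finset.single_le_sum (f := fun r => ∑ s, B r s)
        (fun r _ => Finset.sum_nonneg fun s _ => h3 r s) (Finset.mem_univ r)

end Pool.Agent.DQ.C
end

section

/-! Matrices acting on families of elements of a module; germs of matrices of functions. -/

set_option autoImplicit false

open Set Filter Topology

universe u v w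

namespace Pool.Agent.DQ.C

section mact

variable {R : Type u} {N : Type v} [CommRing R] [AddCommGroup N] [Module R N] {p q r : ℕ}

/-- the action of a matrix on a family of elements of a module -/
def mact (A : Matrix (Fin p) (Fin q) R) (t : Fin q → N) : Fin p → N := fun i => ∑ j, A i j • t j

theorem mact_apply (A : Matrix (Fin p) (Fin q) R) (t : Fin q → N) (i : Fin p) :
    mact A t i = ∑ j, A i j • t j := rfl

theorem mact_mul (A : Matrix (Fin p) (Fin q) R) (B : Matrix (Fin q) (Fin r) R) (t : Fin r → N) :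
    mact (A * B) t = mact A (mact B t) := by
  ext i
  simp only [mact, Matrix.mul_apply, Finset.sum_smul, Finset.smul_sum, mul_smul]
  rw [Finset.sum_comm]

theorem mact_one (t : Fin p → N) : mact (1 : Matrix (Fin p) (Fin p) R) t = t := by
  ext i
  simp [mact, Matrix.one_apply]

theorem mact_add (A B : Matrix (Fin p) (Fin q) R) (t : Fin q → N) :
    mact (A + B) t = mact A t + mact B t := by
  ext i
  simp [mact, add_smul, Finset.sum_add_distrib]

theorem mact_neg (A : Matrix (Fin p) (Fin q) R) (t : Fin q → N) :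
    mact (-A) t = - mact A t := by
  ext i
  simp [mact]

theorem mact_sub (A B : Matrix (Fin p) (Fin q) R) (t : Fin q → N) :
    mact (A - B) t = mact A t - mact B t := by
  rw [sub_eq_add_neg, mact_add, mact_neg, sub_eq_add_neg]

theorem mact_mem_span (A : Matrix (Fin p) (Fin q) R) (t : Fin q → N) (i : Fin p) :
    mact A t i ∈ Submodule.span R (Set.range t) :=
  Submodule.sum_mem _ fun j _ => Submodule.smul_mem _ _ (Submodule.subset_span ⟨j, rfl⟩)

theorem span_le_of_isUnit {A : Matrix (Fin p) (Fin p) R} (hA : IsUnit A.det) (t : Fin p → N) :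
    Submodule.span R (Set.range t) ≤ Submodule.span R (Set.range (mact A t)) := by
  rw [Submodule.span_le]
  rintro _ ⟨i, rfl⟩
  have h1 : t = mact A⁻¹ (mact A t) := by
    rw [← mact_mul, Matrix.nonsing_inv_mul A hA, mact_one]
  have h2 := mact_mem_span A⁻¹ (mact A t) i
  rw [← h1] at h2
  exact h2

/-- the algebra of the attaching lemma -/
theorem attach_algebra {V V' : Matrix (Fin p) (Fin q) R} {U : Matrix (Fin q) (Fin p) R}
    {a b A : Matrix (Fin p) (Fin p) R} {t' : Fin p → N} {t'' : Fin q → N}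
    (h1 : t' = mact V t'') (h2 : t'' = mact U t') (hA : A = -((V - V') * U))
    (hab : 1 + a = (1 + b) * (1 + A)) :
    mact (1 + a) t' = mact ((1 + b) * V') t'' := by
  rw [hab, mact_mul, mact_mul]
  congr 1
  rw [mact_add, mact_one, hA, mact_neg, mact_mul, ← h2, mact_sub, ← h1]
  abel

end mact

section germs

variable {E : Type u} [NormedAddCommGroup E] [NormedSpace ℂ E]

/-- evaluation of germs -/
noncomputable def evg (x : E) : OGerm x →+* ℂ :=
  (Filter.Germ.valueRingHom : Filter.Germ (𝓝 x) ℂ →+* ℂ).comp (OGerm x).subtype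

theorem evg_gm {f : E → ℂ} {x : E} (h : HolAt f x) : evg x (gm f x) = f x := by
  change Filter.Germ.valueRingHom ((gm f x : OGerm x) : Filter.Germ (𝓝 x) ℂ) = f x
  rw [gm_coe h]
  rfl

theorem gm_congr {f g : E → ℂ} {x : E} (hf : HolAt f x) (h : f =ᶠ[𝓝 x] g) : gm f x = gm g x :=
  (gm_eq_iff hf (hf.congr h)).mpr h

theorem gm_sub' {f g : E → ℂ} {x : E} (hf : HolAt f x) (hg : HolAt g x) :
    gm (fun y => f y - g y) x = gm f x - gm g x := by
  have h1 : (fun y => f y - g y) = f + -g := by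
    ext y; simp [sub_eq_add_neg]
  have h2 : HolAt (-g) x := hg.neg
  rw [h1, gm_add hf h2, gm_neg hg, sub_eq_add_neg]

theorem gm_sum {ι : Type*} (s : Finset ι) {f : ι → E → ℂ} {x : E}
    (hf : ∀ i ∈ s, HolAt (f i) x) : gm (fun y => ∑ i ∈ s, f i y) x = ∑ i ∈ s, gm (f i) x := by
  classical
  induction s using Finset.induction_on with
  | empty =>
    simp only [Finset.sum_empty]
    exact gm_zero x
  | insert a s ha ih =>
    have h1 : (fun y => ∑ i ∈ insert a s, f i y) = f a + fun y => ∑ i ∈ s, f i y := by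
      ext y; simp [Finset.sum_insert ha]
    rw [h1, gm_add (hf a (Finset.mem_insert_self _ _))
      (HolAt.sum s fun i hi => hf i (Finset.mem_insert_of_mem hi)),
      ih fun i hi => hf i (Finset.mem_insert_of_mem hi), Finset.sum_insert ha]

theorem isUnit_of_evg {x : E} {g : OGerm x} (h : evg x g ≠ 0) : IsUnit g := by
  obtain ⟨f, hf, rfl⟩ := exists_gm g
  rw [evg_gm hf] at h
  have hc : ∀ᶠ y in 𝓝 x, f y ≠ 0 := hf.differentiableAt.continuousAt.eventually_ne h
  have hi : HolAt (fun y => (f y)⁻¹) x := by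
    filter_upwards [hf, hc] with y h1 h2 using h1.inv h2
  refine IsUnit.of_mul_eq_one (gm (fun y => (f y)⁻¹) x) ?_
  rw [← gm_mul hf hi, ← gm_one x]
  refine gm_congr (hf.mul hi) ?_
  filter_upwards [hc] with y hy
  simp [hy]

/-- matrix of germs -/
noncomputable def gmM {p q : ℕ} (A : Fin p → Fin q → E → ℂ) (x : E) :
    Matrix (Fin p) (Fin q) (OGerm x) := fun r s => gm (A r s) x

theorem isUnit_det_of_small {p : ℕ} {a : Fin p → Fin p → E → ℂ} {x : E}
    (ha : ∀ r s, HolAt (a r s) x) (hb : ∀ r s, ‖a r s x‖ ≤ 1 / (2 * ((p : ℝ) + 1))) :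
    IsUnit ((1 + gmM a x).det) := by
  apply isUnit_of_evg
  rw [RingHom.map_det]
  set B : Matrix (Fin p) (Fin p) ℂ := (evg x).mapMatrix (1 + gmM a x) with hB
  have hBe : ∀ r s, B r s = (1 : Matrix (Fin p) (Fin p) ℂ) r s + a r s x := by
    intro r s
    rw [hB, map_add, map_one]
    simp only [Matrix.add_apply, RingHom.mapMatrix_apply, Matrix.map_apply]
    rw [gmM, evg_gm (ha r s)]
  apply det_ne_zero_of_sum_row_lt_diag
  intro k
  have hp : (0 : ℝ) < p + 1 := by positivity
  have h1 : ∑ j ∈ Finset.univ.erase k, ‖B k j‖ ≤ p * (1 / (2 * ((p : ℝ) + 1))) := by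
    calc ∑ j ∈ Finset.univ.erase k, ‖B k j‖
        ≤ ∑ j ∈ Finset.univ.erase k, (1 / (2 * ((p : ℝ) + 1))) := by
          refine Finset.sum_le_sum fun j hj => ?_
          rw [hBe, Matrix.one_apply_ne (Finset.ne_of_mem_erase hj).symm, zero_add]
          exact hb k j
      _ ≤ ∑ _j : Fin p, (1 / (2 * ((p : ℝ) + 1))) :=
          Finset.sum_le_sum_of_subset_of_nonneg (Finset.subset_univ _)
            (fun _ _ _ => by positivity)
      _ = p * (1 / (2 * ((p : ℝ) + 1))) := by simp
  have h2 : 1 - 1 / (2 * ((p : ℝ) + 1)) ≤ ‖B k k‖ := by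
    rw [hBe, Matrix.one_apply_eq]
    have h3 : ‖(1 : ℂ)‖ ≤ ‖1 + a k k x‖ + ‖a k k x‖ := by
      have := norm_sub_le (1 + a k k x) (a k k x)
      simpa using this
    rw [norm_one] at h3
    linarith [hb k k]
  have h3 : p * (1 / (2 * ((p : ℝ) + 1))) < 1 - 1 / (2 * ((p : ℝ) + 1)) := by
    have : (p : ℝ) * (1 / (2 * ((p : ℝ) + 1))) + 1 / (2 * ((p : ℝ) + 1)) = 1 / 2 := by
      field_simp
    linarith
  linarith

end germs

end Pool.Agent.DQ.C
end

section

/-! The sheaf of relations between finitely many sections. -/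

set_option autoImplicit false

open Set Filter Topology

universe u v w

namespace Pool.Agent.DQ

variable {X : Type u} [TopologicalSpace X] {R : ERing.{u, v} X}

theorem EMod.at_sum (M : EMod.{u, v, w} R) {ι : Type*} (S : Finset ι)
    {s : ι → (x : X) → M.St x} {x : X} (hx : x ∈ M.dom) (h : ∀ i ∈ S, M.At (s i) x) :
    M.At (fun y => ∑ i ∈ S, s i y) x := by
  classical
  induction S using Finset.induction_on with
  | empty =>
    simp only [Finset.sum_empty]
    exact M.zero x hx
  | insert a S ha ih =>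
    simp only [Finset.sum_insert ha]
    exact M.add (h a (Finset.mem_insert_self _ _))
      (ih fun i hi => h i (Finset.mem_insert_of_mem hi))

theorem EMod.at_comb (M : EMod.{u, v, w} R) {n : ℕ} {c : Fin n → (x : X) → R.St x}
    {g : Fin n → (x : X) → M.St x} {x : X} (hx : x ∈ M.dom) (hc : ∀ i, R.At (c i) x)
    (hg : ∀ i, M.At (g i) x) : M.At (fun y => ∑ i, c i y • g i y) x :=
  M.at_sum _ hx fun i _ => M.smul (hc i) (hg i)

/-- the sheaf of relations between the sections `g i`, on the open set where they are sections -/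
def EMod.relSh (M : EMod.{u, v, w} R) {n : ℕ} (g : Fin n → (x : X) → M.St x) :
    EMod.{u, v, v} R where
  dom := {x | x ∈ M.dom ∧ ∀ i, M.At (g i) x}
  dom_sub x hx := M.dom_sub hx.1
  St x := M.rel g x
  At s x := (x ∈ M.dom ∧ ∀ i, M.At (g i) x) ∧
    ∀ i, R.At (fun y => (s y : Fin n → R.St y) i) x
  mem_dom h := h.1
  ev := by
    rintro s x ⟨⟨h1, h2⟩, h3⟩
    have e1 : ∀ᶠ y in 𝓝 x, y ∈ M.dom := M.isOpen_dom.mem_nhds h1
    have e2 : ∀ᶠ y in 𝓝 x, ∀ i, M.At (g i) y := eventually_all.mpr fun i => M.ev (h2 i)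
    have e3 : ∀ᶠ y in 𝓝 x, ∀ i, R.At (fun y => (s y : Fin n → R.St y) i) y :=
      eventually_all.mpr fun i => R.ev (h3 i)
    filter_upwards [e1, e2, e3] with y a b c using ⟨⟨a, b⟩, c⟩
  congr := by
    rintro s t x ⟨h1, h2⟩ h
    exact ⟨h1, fun i => R.congr (h2 i) (h.mono fun y hy => by rw [hy])⟩
  inj := by
    rintro s t x ⟨-, h2⟩ ⟨-, h4⟩ e
    have := fun i => R.inj (h2 i) (h4 i) (by rw [e])
    filter_upwards [eventually_all.mpr this] with y hy
    exact Subtype.ext (funext hy)
  surj := by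
    classical
    rintro x ⟨hx, hg⟩ ⟨c, hc⟩
    choose f hf hfx using fun i => R.surj x (M.dom_sub hx) (c i)
    have h1 : M.At (fun y => ∑ i, f i y • g i y) x := M.at_comb hx hf hg
    have h2 : ∀ᶠ y in 𝓝 x, ∑ i, f i y • g i y = 0 := by
      refine M.inj h1 (M.zero x hx) ?_
      have : (fun i => f i x) = c := funext hfx
      have hc' : ∑ i, c i • g i x = 0 := hc
      rw [← this] at hc'
      exact hc'
    refine ⟨fun y => if h : (fun i => f i y) ∈ M.rel g y then ⟨fun i => f i y, h⟩ else 0, ?_, ?_⟩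
    · refine ⟨⟨hx, hg⟩, fun i => R.congr (hf i) ?_⟩
      filter_upwards [h2] with y hy
      have : (fun i => f i y) ∈ M.rel g y := hy
      simp [this]
    · have h3 : (fun i => f i x) = c := funext hfx
      simp only [h3]
      rw [dif_pos hc]
  zero x hx := ⟨hx, fun i => R.zero x (M.dom_sub hx.1)⟩
  add h h' := ⟨h.1, fun i => R.add (h.2 i) (h'.2 i)⟩
  smul h h' := ⟨h'.1, fun i => R.mul h (h'.2 i)⟩

/-- the inclusion of the relation sheaf into the free module -/
def EMod.relVal (M : EMod.{u, v, w} R) {n : ℕ} (g : Fin n → (x : X) → M.St x) (x : X) :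
    (M.relSh g).St x →ₗ[R.St x] (Fin n → R.St x) := (M.rel g x).subtype

theorem EMod.relVal_injective (M : EMod.{u, v, w} R) {n : ℕ} (g : Fin n → (x : X) → M.St x)
    (x : X) : Function.Injective (M.relVal g x) := Submodule.injective_subtype (M.rel g x)

theorem EMod.relVal_mem (M : EMod.{u, v, w} R) {n : ℕ} (g : Fin n → (x : X) → M.St x) (x : X)
    (s : (M.relSh g).St x) : ∑ i, M.relVal g x s i • g i x = 0 :=
  Subtype.property (p := fun c => c ∈ M.rel g x) s

theorem EMod.relVal_range (M : EMod.{u, v, w} R) {n : ℕ} (g : Fin n → (x : X) → M.St x) (x : X) :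
    LinearMap.range (M.relVal g x) = M.rel g x := Submodule.range_subtype (M.rel g x)

theorem EMod.relSh_at_iff {M : EMod.{u, v, w} R} {n : ℕ} {g : Fin n → (x : X) → M.St x}
    {s : (x : X) → (M.relSh g).St x} {x : X} : (M.relSh g).At s x ↔
      (x ∈ M.dom ∧ ∀ i, M.At (g i) x) ∧ ∀ i, R.At (fun y => M.relVal g y (s y) i) x := Iff.rfl

open Classical in
/-- a relation as a section of the relation sheaf -/
noncomputable def EMod.mkRel (M : EMod.{u, v, w} R) {n : ℕ} (g : Fin n → (x : X) → M.St x)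
    (c : Fin n → (x : X) → R.St x) (x : X) : (M.relSh g).St x :=
  if h : (fun i => c i x) ∈ M.rel g x then
    (show (M.relSh g).St x from (⟨fun i => c i x, h⟩ : M.rel g x)) else 0

theorem EMod.mkRel_val {M : EMod.{u, v, w} R} {n : ℕ} {g : Fin n → (x : X) → M.St x}
    {c : Fin n → (x : X) → R.St x} {x : X} (h : ∑ i, c i x • g i x = 0) :
    M.relVal g x (M.mkRel g c x) = fun i => c i x := by
  have h' : (fun i => c i x) ∈ M.rel g x := h
  unfold EMod.mkRel
  rw [dif_pos h']
  rfl

theorem EMod.mkRel_at {M : EMod.{u, v, w} R} {n : ℕ} {g : Fin n → (x : X) → M.St x}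
    {c : Fin n → (x : X) → R.St x} {x : X} (hx : x ∈ M.dom) (hg : ∀ i, M.At (g i) x)
    (hc : ∀ i, R.At (c i) x) (h : ∑ i, c i x • g i x = 0) :
    (M.relSh g).At (M.mkRel g c) x := by
  have h1 : M.At (fun y => ∑ i, c i y • g i y) x := M.at_comb hx hc hg
  have h2 : ∀ᶠ y in 𝓝 x, ∑ i, c i y • g i y = 0 := M.inj h1 (M.zero x hx) h
  rw [EMod.relSh_at_iff]
  refine ⟨⟨hx, hg⟩, fun i => R.congr (hc i) ?_⟩
  filter_upwards [h2] with y hy
  rw [EMod.mkRel_val hy]

/-- The relation sheaf of sections of a coherent sheaf is coherent. -/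
theorem EMod.relSh_cohAt {M : EMod.{u, v, w} R} {n : ℕ} {g : Fin n → (x : X) → M.St x} {x : X}
    (hg : ∀ i, M.At (g i) x) (hM : M.CohAt x) (hR : (R.free n).CohAt x) :
    (M.relSh g).CohAt x := by
  obtain ⟨hx, -, hrel⟩ := hM
  refine ⟨⟨hx, hg⟩, ?_, ?_⟩
  · obtain ⟨m, r, hr, hspan⟩ := hrel n g hg
    refine ⟨m, fun j => M.mkRel g (r j), ?_, ?_⟩
    · intro j
      refine EMod.mkRel_at hx hg (hr j) ?_
      have h1 := hspan.self_of_nhds
      have h2 : (fun i => r j i x) ∈ M.rel g x := by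
        rw [h1]
        exact Submodule.subset_span ⟨j, rfl⟩
      exact h2
    · filter_upwards [hspan] with y hy
      have hmem : ∀ j, (fun i => r j i y) ∈ M.rel g y := fun j => by
        rw [hy]
        exact Submodule.subset_span ⟨j, rfl⟩
      apply Submodule.map_injective_of_injective (M.relVal_injective g y)
      rw [Submodule.map_span, Submodule.map_top, EMod.relVal_range, ← Set.range_comp, hy]
      congr 1
      congr 1
      funext j
      exact EMod.mkRel_val (hmem j)
  · intro k h hh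
    have h1 : ∀ j, (R.free n).At (fun y => M.relVal g y (h j y)) x :=
      fun j => ⟨M.dom_sub hx, (EMod.relSh_at_iff.mp (hh j)).2⟩
    obtain ⟨m, r, hr, hspan⟩ := hR.2.2 k (fun j y => M.relVal g y (h j y)) h1
    refine ⟨m, r, hr, ?_⟩
    filter_upwards [hspan] with y hy
    rw [← hy]
    ext c
    change ∑ j, c j • h j y = 0 ↔ ∑ j, c j • M.relVal g y (h j y) = 0
    have e : M.relVal g y (∑ j, c j • h j y) = ∑ j, c j • M.relVal g y (h j y) := by
      rw [map_sum]
      exact Finset.sum_congr rfl fun j _ => map_smul _ _ _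
    rw [← e]
    exact (map_eq_zero_iff _ (M.relVal_injective g y)).symm

end Pool.Agent.DQ
end

section

/-! Coherence calculus over a general sheaf of rings. -/

set_option autoImplicit false

open Set Filter Topology

universe u v w

namespace Pool.Agent.DQ

variable {X : Type u} [TopologicalSpace X] {R : ERing.{u, v} X}

/-- the ring is coherent at `x` -/
def ERing.RelAt (R : ERing.{u, v} X) (x : X) : Prop :=
  ∀ (q n : ℕ) (f : Fin n → (y : X) → Fin q → R.St y), (∀ i, (R.free q).At (f i) x) →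
    (R.free q).RelFG f x

theorem EMod.CohAt.mem_dom {M : EMod.{u, v, w} R} {x : X} (h : M.CohAt x) : x ∈ M.dom := h.1

/-- local finite presentation implies coherence -/
theorem EMod.cohAt_of_lfp (F : EMod.{u, v, w} R) {x : X} (hx : x ∈ F.dom) (hR : R.RelAt x)
    {p q : ℕ} (g : Fin p → (y : X) → F.St y) (ρ : Fin q → Fin p → (y : X) → R.St y)
    (hg : ∀ i, F.At (g i) x) (hρ : ∀ j i, R.At (ρ j i) x)
    (hgen : ∀ᶠ y in 𝓝 x, Submodule.span (R.St y) (range fun i => g i y) = ⊤)
    (hrel : ∀ᶠ y in 𝓝 x,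
      F.rel g y = Submodule.span (R.St y) (range fun j => fun i => ρ j i y)) :
    F.CohAt x := by
  refine ⟨hx, ⟨p, g, hg, hgen⟩, ?_⟩
  intro n s hs
  have hxR := F.dom_sub hx
  choose τ hτ hτg using fun j => F.near_comb hx (hs j) hg (by
    rw [hgen.self_of_nhds]
    exact Submodule.mem_top)
  obtain ⟨m, φ, hφ, hφrel⟩ := hR p (n + q) (Fin.append (fun j y i => τ j i y)
    (fun l y i => - ρ l i y)) (by
      intro i
      refine Fin.addCases (fun j => ?_) (fun l => ?_) i
      · rw [Fin.append_left]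
        exact ⟨hxR, fun i => hτ j i⟩
      · rw [Fin.append_right]
        exact ⟨hxR, fun i => R.neg (hρ l i)⟩)
  refine ⟨m, fun k j => φ k (Fin.castAdd q j), fun k j => hφ _ _, ?_⟩
  filter_upwards [hrel, eventually_all.mpr hτg, hφrel] with y y1 y2 y3
  -- combination in terms of the generators
  have h1 : ∀ c : Fin n → R.St y, ∑ j, c j • s j y = ∑ i, (∑ j, c j * τ j i y) • g i y := by
    intro c
    simp only [Finset.sum_smul]
    rw [Finset.sum_comm]
    refine Finset.sum_congr rfl fun j _ => ?_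
    rw [y2 j, Finset.smul_sum]
    exact Finset.sum_congr rfl fun i _ => by rw [mul_smul]
  have h2 : ∀ (c : Fin n → R.St y) (e : Fin q → R.St y),
      Fin.append c e ∈ (R.free p).rel (Fin.append (fun j y i => τ j i y)
        (fun l y i => - ρ l i y)) y ↔ ∀ i, ∑ j, c j * τ j i y = ∑ l, e l * ρ l i y := by
    intro c e
    have h3 : Fin.append c e ∈ (R.free p).rel (Fin.append (fun j y i => τ j i y)
        (fun l y i => - ρ l i y)) y ↔ ∑ a, Fin.append c e a • (Fin.append (fun j y i => τ j i y)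
          (fun l y i => - ρ l i y) a y : Fin p → R.St y) = 0 := Iff.rfl
    rw [h3, funext_iff]
    refine forall_congr' fun i => ?_
    rw [Fin.sum_univ_add, Pi.add_apply, Finset.sum_apply, Finset.sum_apply]
    simp only [Fin.append_left, Fin.append_right, Pi.smul_apply, smul_eq_mul, mul_neg,
      Finset.sum_neg_distrib, Pi.zero_apply]
    rw [← sub_eq_add_neg, sub_eq_zero]
  apply le_antisymm
  · intro c hc
    have hc' : ∑ j, c j • s j y = 0 := hc
    rw [h1] at hc'
    have h4 : (fun i => ∑ j, c j * τ j i y) ∈ F.rel g y := hc'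
    rw [y1] at h4
    obtain ⟨e, he⟩ := mem_span_fam.mp h4
    have h5 : Fin.append c e ∈ (R.free p).rel (Fin.append (fun j y i => τ j i y)
        (fun l y i => - ρ l i y)) y := by
      rw [h2]
      intro i
      have := congrFun he i
      rw [Finset.sum_apply] at this
      exact this
    have h6 := y3.le h5
    obtain ⟨d, hd⟩ := mem_span_fam.mp h6
    refine mem_span_fam.mpr ⟨d, ?_⟩
    funext j
    have h7 := congrFun hd (Fin.castAdd q j)
    rw [Fin.append_left, Finset.sum_apply] at h7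
    rw [Finset.sum_apply]
    exact h7
  · rw [Submodule.span_le]
    rintro _ ⟨k, rfl⟩
    have h4 : (fun i => φ k i y) ∈ Submodule.span (R.St y) (Set.range fun j => fun i => φ j i y) :=
      Submodule.subset_span ⟨k, rfl⟩
    have h5 := y3.ge h4
    have h6 : (fun i => φ k i y) = Fin.append (fun j => φ k (Fin.castAdd q j) y)
        (fun l => φ k (Fin.natAdd n l) y) := by
      funext i
      refine Fin.addCases (fun j => ?_) (fun l => ?_) i
      · rw [Fin.append_left]
      · rw [Fin.append_right]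
    have h5' := (h2 _ _).mp (h6 ▸ h5)
    change ∑ j, φ k (Fin.castAdd q j) y • s j y = 0
    rw [h1]
    have h7 : (fun i => ∑ j, φ k (Fin.castAdd q j) y * τ j i y) ∈ F.rel g y := by
      rw [y1]
      refine mem_span_fam.mpr ⟨fun l => φ k (Fin.natAdd n l) y, ?_⟩
      funext i
      rw [h5' i, Finset.sum_apply]
      rfl
    exact h7

/-- coherence of `M` at `x` gives finitely generated relations -/
theorem EMod.CohAt.relFG {M : EMod.{u, v, w} R} {x : X} (h : M.CohAt x) {n : ℕ}
    (g : Fin n → (y : X) → M.St y) (hg : ∀ i, M.At (g i) x) : M.RelFG g x := h.2.2 n g hg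

/-- coherence at a point gives coherence near the point -/
theorem EMod.CohAt.eventually {M : EMod.{u, v, w} R} {x : X} (h : M.CohAt x)
    (hR : ∀ᶠ y in 𝓝 x, R.RelAt y) : ∀ᶠ y in 𝓝 x, M.CohAt y := by
  obtain ⟨p, G, hG, hGen⟩ := h.2.1
  obtain ⟨m, r, hr, hrel⟩ := h.2.2 p G hG
  filter_upwards [hR, M.isOpen_dom.mem_nhds h.1, eventually_all.mpr fun i => M.ev (hG i),
    eventually_all.mpr fun j => eventually_all.mpr fun i => R.ev (hr j i),
    eventually_eventually_nhds.mpr hGen, eventually_eventually_nhds.mpr hrel]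
    with y y1 y2 y3 y4 y5 y6
  exact M.cohAt_of_lfp y2 y1 G r y3 y4 y5 y6

/-- a finitely generated subsheaf of a coherent sheaf is coherent -/
theorem EMod.sub_cohAt (M : EMod.{u, v, w} R) (N : ∀ x, Submodule (R.St x) (M.St x))
    (hN : ∀ x ∈ M.dom, ∀ g ∈ N x, ∃ s : (x : X) → M.St x,
      M.At s x ∧ s x = g ∧ ∀ᶠ y in 𝓝 x, s y ∈ N y) {x : X} (hM : M.CohAt x) {n : ℕ}
    (g : Fin n → (y : X) → M.St y) (hg : ∀ i, M.At (g i) x)
    (hgN : ∀ᶠ y in 𝓝 x, N y = Submodule.span (R.St y) (range fun i => g i y)) :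
    (M.sub N hN).CohAt x := by
  classical
  have hmem : ∀ᶠ y in 𝓝 x, ∀ i, g i y ∈ N y := by
    filter_upwards [hgN] with y hy i
    rw [hy]
    exact Submodule.subset_span ⟨i, rfl⟩
  let g' : Fin n → (y : X) → N y := fun i y => if h : g i y ∈ N y then ⟨g i y, h⟩ else 0
  have hg' : ∀ y, (∀ i, g i y ∈ N y) → ∀ i, (g' i y : M.St y) = g i y := by
    intro y hy i
    simp only [g', dif_pos (hy i)]
  have hspan : ∀ y, N y = Submodule.span (R.St y) (range fun i => g i y) →
      Submodule.span (R.St y) (range fun i => g' i y) = ⊤ := by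
    intro y hy
    have hmy : ∀ i, g i y ∈ N y := by
      intro i
      rw [hy]
      exact Submodule.subset_span ⟨i, rfl⟩
    rw [eq_top_iff]
    rintro ⟨m, hm⟩ _
    have hm' := hm
    rw [hy] at hm'
    obtain ⟨c, hc⟩ := mem_span_fam.mp hm'
    refine mem_span_fam.mpr ⟨c, ?_⟩
    apply Subtype.ext
    rw [AddSubmonoidClass.coe_finsetSum]
    refine hc.trans (Finset.sum_congr rfl fun i _ => ?_)
    rw [Submodule.coe_smul, hg' y hmy i]
  have hrel' : ∀ (m : ℕ) (s : Fin m → (y : X) → N y) (y : X) (c : Fin m → R.St y),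
      ∑ i, c i • s i y = 0 ↔ ∑ i, c i • (s i y : M.St y) = 0 := by
    intro m s y c
    rw [← Subtype.coe_inj, AddSubmonoidClass.coe_finsetSum]
    rfl
  refine ⟨hM.1, ⟨n, g', ?_, ?_⟩, ?_⟩
  · intro i
    refine M.congr (hg i) ?_
    filter_upwards [hmem] with y hy
    exact (hg' y hy i).symm
  · filter_upwards [hgN] with y y1
    exact hspan y y1
  · intro m s hs
    obtain ⟨l, r, hr, hrel⟩ := hM.2.2 m (fun i y => ((show N y from s i y) : M.St y)) hs
    refine ⟨l, r, hr, ?_⟩
    filter_upwards [hrel] with y hy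
    rw [← hy]
    ext c
    exact hrel' m s y c

/-- the quotient of a coherent sheaf by a finitely generated subsheaf is coherent -/
theorem EMod.quot_cohAt (M : EMod.{u, v, w} R) (N : ∀ x, Submodule (R.St x) (M.St x))
    (hN : ∀ x ∈ M.dom, ∀ g ∈ N x, ∃ s : (x : X) → M.St x,
      M.At s x ∧ s x = g ∧ ∀ᶠ y in 𝓝 x, s y ∈ N y) {x : X} (hR : R.RelAt x)
    (hM : M.CohAt x) {n : ℕ}
    (g : Fin n → (y : X) → M.St y) (hg : ∀ i, M.At (g i) x)
    (hgN : ∀ᶠ y in 𝓝 x, N y = Submodule.span (R.St y) (range fun i => g i y)) :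
    (M.quot N hN).CohAt x := by
  obtain ⟨p, G, hG, hGen⟩ := hM.2.1
  obtain ⟨m, r, hr, hrel⟩ := hM.2.2 (p + n) (Fin.append G g) (by
    intro i
    refine Fin.addCases (fun j => ?_) (fun l => ?_) i
    · rw [Fin.append_left]
      exact hG j
    · rw [Fin.append_right]
      exact hg l)
  refine EMod.cohAt_of_lfp (M.quot N hN) hM.1 hR (fun i y => (N y).mkQ (G i y))
    (fun k i => r k (Fin.castAdd n i)) (fun i => ⟨G i, hG i, Eventually.of_forall fun _ => rfl⟩)
    (fun k i => hr _ _) ?_ ?_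
  · filter_upwards [hGen] with y hy
    have : Set.range (fun i => (N y).mkQ (G i y)) = (N y).mkQ '' Set.range (fun i => G i y) := by
      rw [← Set.range_comp]
      rfl
    change Submodule.span (R.St y) (Set.range (fun i => (N y).mkQ (G i y))) = ⊤
    rw [this, Submodule.span_image, hy, Submodule.map_top, Submodule.range_mkQ]
  · filter_upwards [hgN, hrel] with y y1 y2
    have h1 : ∀ (c : Fin p → R.St y) (e : Fin n → R.St y),
        Fin.append c e ∈ M.rel (Fin.append G g) y ↔
          ∑ i, c i • G i y + ∑ l, e l • g l y = 0 := by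
      intro c e
      have h3 : Fin.append c e ∈ M.rel (Fin.append G g) y ↔
        ∑ a, Fin.append c e a • (Fin.append G g a y) = 0 := Iff.rfl
      rw [h3, Fin.sum_univ_add]
      simp only [Fin.append_left, Fin.append_right]
    apply le_antisymm
    · intro c hc
      have hc' : ∑ i, c i • (N y).mkQ (G i y) = 0 := hc
      have h2 : (N y).mkQ (∑ i, c i • G i y) = 0 := by
        rw [map_sum, ← hc']
        exact Finset.sum_congr rfl fun i _ => by rw [map_smul]
      rw [Submodule.mkQ_apply, Submodule.Quotient.mk_eq_zero, y1] at h2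
      obtain ⟨e, he⟩ := mem_span_fam.mp h2
      have h3 : Fin.append c (-e) ∈ M.rel (Fin.append G g) y := by
        rw [h1, he]
        simp
      rw [y2] at h3
      obtain ⟨d, hd⟩ := mem_span_fam.mp h3
      refine mem_span_fam.mpr ⟨d, ?_⟩
      funext j
      have h7 := congrFun hd (Fin.castAdd n j)
      rw [Fin.append_left, Finset.sum_apply] at h7
      rw [Finset.sum_apply]
      exact h7
    · rw [Submodule.span_le]
      rintro _ ⟨k, rfl⟩
      change ∑ i, r k (Fin.castAdd n i) y • (N y).mkQ (G i y) = 0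
      have h4 : (fun i => r k i y) ∈ M.rel (Fin.append G g) y := by
        rw [y2]
        exact Submodule.subset_span ⟨k, rfl⟩
      have h6 : (fun i => r k i y) = Fin.append (fun j => r k (Fin.castAdd n j) y)
          (fun l => r k (Fin.natAdd p l) y) := by
        funext i
        refine Fin.addCases (fun j => ?_) (fun l => ?_) i
        · rw [Fin.append_left]
        · rw [Fin.append_right]
      rw [h6, h1] at h4
      have h5 : ∑ i, r k (Fin.castAdd n i) y • (N y).mkQ (G i y) =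
          (N y).mkQ (∑ i, r k (Fin.castAdd n i) y • G i y) := by
        rw [map_sum]
        exact Finset.sum_congr rfl fun i _ => by rw [map_smul]
      rw [h5, Submodule.mkQ_apply, Submodule.Quotient.mk_eq_zero, y1,
        eq_neg_of_add_eq_zero_left h4]
      exact Submodule.neg_mem _ (mem_span_fam.mpr ⟨_, rfl⟩)

/-- sections with values in a subsheaf as sections of the subsheaf -/
noncomputable def EMod.toSub (M : EMod.{u, v, w} R) (N : ∀ x, Submodule (R.St x) (M.St x))
    (s : (x : X) → M.St x) (y : X) : N y :=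
  open Classical in if h : s y ∈ N y then ⟨s y, h⟩ else 0

theorem EMod.coe_toSub (M : EMod.{u, v, w} R) (N : ∀ x, Submodule (R.St x) (M.St x))
    (s : (x : X) → M.St x) {y : X} (h : s y ∈ N y) : (M.toSub N s y : M.St y) = s y := by
  simp only [EMod.toSub, dif_pos h]

theorem EMod.toSub_at (M : EMod.{u, v, w} R) (N : ∀ x, Submodule (R.St x) (M.St x))
    (hN : ∀ x ∈ M.dom, ∀ g ∈ N x, ∃ s : (x : X) → M.St x,
      M.At s x ∧ s x = g ∧ ∀ᶠ y in 𝓝 x, s y ∈ N y)
    {s : (x : X) → M.St x} {x : X} (hs : M.At s x) (h : ∀ᶠ y in 𝓝 x, s y ∈ N y) :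
    (M.sub N hN).At (M.toSub N s) x := by
  refine M.congr hs ?_
  filter_upwards [h] with y hy
  exact (M.coe_toSub N s hy).symm

/-- generators of a submodule -/
theorem span_toSub (M : EMod.{u, v, w} R) (N : ∀ x, Submodule (R.St x) (M.St x)) {n : ℕ}
    (g : Fin n → (y : X) → M.St y) {y : X}
    (hy : N y = Submodule.span (R.St y) (range fun i => g i y)) :
    Submodule.span (R.St y) (range fun i => M.toSub N (g i) y) = ⊤ := by
  have hmy : ∀ i, g i y ∈ N y := by
    intro i
    rw [hy]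
    exact Submodule.subset_span ⟨i, rfl⟩
  rw [eq_top_iff]
  rintro ⟨m, hm⟩ _
  have hm' := hm
  rw [hy] at hm'
  obtain ⟨c, hc⟩ := mem_span_fam.mp hm'
  refine mem_span_fam.mpr ⟨c, ?_⟩
  apply Subtype.ext
  rw [AddSubmonoidClass.coe_finsetSum]
  refine hc.trans (Finset.sum_congr rfl fun i _ => ?_)
  rw [Submodule.coe_smul, M.coe_toSub N (g i) (hmy i)]

/-- the span of sections as a subsheaf (zero where they are not sections) -/
noncomputable def EMod.spn (M : EMod.{u, v, w} R) {n : ℕ} (g : Fin n → (y : X) → M.St y) (y : X) :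
    Submodule (R.St y) (M.St y) :=
  open Classical in
  if ∀ i, M.At (g i) y then Submodule.span (R.St y) (range fun i => g i y) else ⊥

theorem EMod.spn_eq (M : EMod.{u, v, w} R) {n : ℕ} (g : Fin n → (y : X) → M.St y) {y : X}
    (h : ∀ i, M.At (g i) y) :
    M.spn g y = Submodule.span (R.St y) (range fun i => g i y) := if_pos h

theorem EMod.spn_near (M : EMod.{u, v, w} R) {n : ℕ} (g : Fin n → (y : X) → M.St y) {x : X}
    (h : ∀ i, M.At (g i) x) :
    ∀ᶠ y in 𝓝 x, M.spn g y = Submodule.span (R.St y) (range fun i => g i y) := by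
  filter_upwards [eventually_all.mpr fun i => M.ev (h i)] with y hy
  exact M.spn_eq g hy

theorem EMod.spn_open (M : EMod.{u, v, w} R) {n : ℕ} (g : Fin n → (y : X) → M.St y) :
    ∀ x ∈ M.dom, ∀ m ∈ M.spn g x, ∃ s : (x : X) → M.St x,
      M.At s x ∧ s x = m ∧ ∀ᶠ y in 𝓝 x, s y ∈ M.spn g y := by
  intro x hx m hm
  by_cases h : ∀ i, M.At (g i) x
  · rw [M.spn_eq g h] at hm
    obtain ⟨s, hs, rfl⟩ := M.surj x hx m
    refine ⟨s, hs, rfl, ?_⟩
    filter_upwards [M.near_mem_span hs h hm, M.spn_near g h] with y y1 y2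
    rw [y2]
    exact y1
  · have : m = 0 := by
      rw [EMod.spn, if_neg h] at hm
      exact (Submodule.mem_bot _).mp hm
    subst this
    exact ⟨0, M.zero x hx, rfl, Eventually.of_forall fun y => Submodule.zero_mem _⟩

/-- the relations of sections as a subsheaf -/
noncomputable def EMod.relSub (M : EMod.{u, v, w} R) {n : ℕ} (g : Fin n → (y : X) → M.St y)
    (y : X) : Submodule (R.St y) (Fin n → R.St y) :=
  open Classical in
  if y ∈ M.dom ∧ ∀ i, M.At (g i) y then M.rel g y else ⊥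

theorem EMod.relSub_eq (M : EMod.{u, v, w} R) {n : ℕ} (g : Fin n → (y : X) → M.St y) {y : X}
    (hy : y ∈ M.dom) (h : ∀ i, M.At (g i) y) : M.relSub g y = M.rel g y := if_pos ⟨hy, h⟩

theorem EMod.relSub_near (M : EMod.{u, v, w} R) {n : ℕ} (g : Fin n → (y : X) → M.St y) {x : X}
    (hx : x ∈ M.dom) (h : ∀ i, M.At (g i) x) : ∀ᶠ y in 𝓝 x, M.relSub g y = M.rel g y := by
  filter_upwards [M.isOpen_dom.mem_nhds hx, eventually_all.mpr fun i => M.ev (h i)] with y h1 h2
  exact M.relSub_eq g h1 h2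

theorem EMod.relSub_open (M : EMod.{u, v, w} R) {n : ℕ} (g : Fin n → (y : X) → M.St y) :
    ∀ x ∈ (R.free n).dom, ∀ m ∈ M.relSub g x, ∃ s : (x : X) → (R.free n).St x,
      (R.free n).At s x ∧ s x = m ∧ ∀ᶠ y in 𝓝 x, s y ∈ M.relSub g y := by
  intro x hxR m hm
  by_cases h : x ∈ M.dom ∧ ∀ i, M.At (g i) x
  · obtain ⟨hx, h⟩ := h
    rw [M.relSub_eq g hx h] at hm
    obtain ⟨s, hs, rfl⟩ := (R.free n).surj x hxR m
    refine ⟨s, hs, rfl, ?_⟩
    have h1 : ∀ᶠ y in 𝓝 x, (fun y => ∑ i, (s y : Fin n → R.St y) i • g i y) y = (0 : (y : X) → M.St y) y :=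
      M.inj (M.comb hx (fun i => hs.2 i) h) (M.zero x hx) hm
    filter_upwards [h1, M.relSub_near g hx h] with y y1 y2
    rw [y2]
    exact y1
  · have : m = 0 := by
      rw [EMod.relSub, if_neg h] at hm
      exact (Submodule.mem_bot _).mp hm
    subst this
    exact ⟨0, (R.free n).zero x hxR, rfl, Eventually.of_forall fun y => Submodule.zero_mem _⟩

end Pool.Agent.DQ
end

section

/-! Campaign DQ, module W, file WDefs: basic predicates. -/

set_option autoImplicit false

open Metric Set Filter Topology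

namespace Pool.Agent.DQ.W

variable {E F V : Type*} [NormedAddCommGroup E] [NormedSpace ℂ E] [NormedAddCommGroup F] [NormedSpace ℂ F]
  [NormedAddCommGroup V] [NormedSpace ℂ V]

/-- `f` is holomorphic near `x`: complex differentiable at all points of a neighbourhood of `x`. -/
def HolAt (f : E → F) (x : E) : Prop := ∀ᶠ y in 𝓝 x, DifferentiableAt ℂ f y

/-- `f (v₀, ·)` vanishes exactly to order `k` at `t₀`. -/
def Reg (k : ℕ) (f : V × ℂ → ℂ) (v₀ : V) (t₀ : ℂ) : Prop :=
  ∃ u : ℂ → ℂ, HolAt u t₀ ∧ u t₀ ≠ 0 ∧ ∀ᶠ t in 𝓝 t₀, f (v₀, t) = (t - t₀) ^ k * u t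

/-- The monic polynomial `s ^ k + ∑_{i < k} a i v * s ^ i`. -/
def PP (k : ℕ) (a : ℕ → V → ℂ) (v : V) (s : ℂ) : ℂ := s ^ k + ∑ i ∈ Finset.range k, a i v * s ^ i

/-- The coefficient of `s ^ j` in `(P (ζ) - P (s)) / (ζ - s)`, `P = PP k a v`:
`ζ ^ (k - 1 - j) + ∑_{j < i < k} a i v * ζ ^ (i - 1 - j)`. -/
def cc (k : ℕ) (a : ℕ → V → ℂ) (j : ℕ) (v : V) (ζ : ℂ) : ℂ :=
  ζ ^ (k - 1 - j) + ∑ i ∈ Finset.Ico (j + 1) k, a i v * ζ ^ (i - 1 - j)

theorem holAt_iff {f : E → F} {x : E} :
    HolAt f x ↔ ∃ r > 0, DifferentiableOn ℂ f (ball x r) := by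
  constructor
  · intro h
    obtain ⟨r, hr, h⟩ := Metric.eventually_nhds_iff_ball.mp h
    exact ⟨r, hr, fun y hy => (h y hy).differentiableWithinAt⟩
  · rintro ⟨r, hr, h⟩
    exact Metric.eventually_nhds_iff_ball.mpr ⟨r, hr, fun y hy => h.differentiableAt (isOpen_ball.mem_nhds hy)⟩

theorem HolAt.eventually {f : E → F} {x : E} (h : HolAt f x) : ∀ᶠ y in 𝓝 x, HolAt f y :=
  eventually_eventually_nhds.mpr h

theorem HolAt.differentiableAt {f : E → F} {x : E} (h : HolAt f x) : DifferentiableAt ℂ f x := h.self_of_nhds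

theorem HolAt.congr {f g : E → F} {x : E} (h : HolAt f x) (hfg : f =ᶠ[𝓝 x] g) : HolAt g x := by
  filter_upwards [h, hfg.eventually_nhds] with y hy hyg
  exact hy.congr_of_eventuallyEq (hyg.mono fun z hz => hz.symm)

theorem holAt_of_isOpen {f : E → F} {U : Set E} (hU : IsOpen U) (hf : DifferentiableOn ℂ f U) {x : E} (hx : x ∈ U) :
    HolAt f x := by
  filter_upwards [hU.mem_nhds hx] with y hy
  exact hf.differentiableAt (hU.mem_nhds hy)

end Pool.Agent.DQ.W
end

section

/-! Campaign DQ, module W, file WGerm: the ring `OO x` of germs at `x` of holomorphic functions. -/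

set_option autoImplicit false

open Metric Set Filter Topology

namespace Pool.Agent.DQ.W

section HolAt
variable {E F V : Type*} [NormedAddCommGroup E] [NormedSpace ℂ E] [NormedAddCommGroup F] [NormedSpace ℂ F]

theorem HolAt.add {f g : E → F} {x : E} (hf : HolAt f x) (hg : HolAt g x) : HolAt (fun y => f y + g y) x := by
  filter_upwards [hf, hg] with y h1 h2 using h1.add h2

theorem HolAt.sub {f g : E → F} {x : E} (hf : HolAt f x) (hg : HolAt g x) : HolAt (fun y => f y - g y) x := by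
  filter_upwards [hf, hg] with y h1 h2 using h1.sub h2

theorem HolAt.neg {f : E → F} {x : E} (hf : HolAt f x) : HolAt (fun y => - f y) x := by
  filter_upwards [hf] with y h1 using h1.neg

theorem HolAt.mul {f g : E → ℂ} {x : E} (hf : HolAt f x) (hg : HolAt g x) : HolAt (fun y => f y * g y) x := by
  filter_upwards [hf, hg] with y h1 h2 using h1.mul h2

theorem holAt_const (c : F) (x : E) : HolAt (fun _ : E => c) x := Eventually.of_forall fun _ => differentiableAt_const c

theorem HolAt.sum {ι : Type*} (s : Finset ι) {f : ι → E → F} {x : E} (hf : ∀ i ∈ s, HolAt (f i) x) :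
    HolAt (fun y => ∑ i ∈ s, f i y) x := by
  classical
  induction s using Finset.induction_on with
  | empty => simpa using holAt_const (0 : F) x
  | insert a s ha ih =>
    simp only [Finset.sum_insert ha]
    exact (hf a (Finset.mem_insert_self a s)).add (ih fun i hi => hf i (Finset.mem_insert_of_mem hi))

theorem HolAt.pow {f : E → ℂ} {x : E} (hf : HolAt f x) (k : ℕ) : HolAt (fun y => f y ^ k) x := by
  filter_upwards [hf] with y h1 using h1.pow k

theorem HolAt.inv {f : E → ℂ} {x : E} (hf : HolAt f x) (h0 : f x ≠ 0) : HolAt (fun y => (f y)⁻¹) x := by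
  have hc : ContinuousAt f x := hf.differentiableAt.continuousAt
  filter_upwards [hf, hc.eventually_ne h0] with y h1 h2 using h1.inv h2

theorem HolAt.continuousAt {f : E → F} {x : E} (hf : HolAt f x) : ContinuousAt f x := hf.differentiableAt.continuousAt

/-- composition -/
theorem HolAt.comp {G : Type*} [NormedAddCommGroup G] [NormedSpace ℂ G] {g : F → G} {f : E → F} {x : E}
    (hg : HolAt g (f x)) (hf : HolAt f x) : HolAt (fun y => g (f y)) x := by
  have h := hf.continuousAt.eventually hg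
  filter_upwards [h, hf] with y h1 h2 using h1.comp y h2

end HolAt

variable {E : Type*} [NormedAddCommGroup E] [NormedSpace ℂ E]

/-- The ring of germs at `x` of holomorphic functions (the stalk of the structure sheaf `O E` of the campaign). -/
abbrev OO (x : E) : Subring ((𝓝 x).Germ ℂ) := Pool.Agent.DQ.OGerm x

/-- The germ of a function holomorphic near `x`. -/
def gm (f : E → ℂ) {x : E} (hf : HolAt f x) : OO x := ⟨(f : (𝓝 x).Germ ℂ), f, hf, rfl⟩

theorem gm_eq_gm {f : E → ℂ} {x : E} (hf : HolAt f x) : gm f hf = Pool.Agent.DQ.gm f x :=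
  Subtype.ext (Pool.Agent.DQ.gm_coe (f := f) (x := x) hf).symm

theorem gm_eq {f g : E → ℂ} {x : E} (hf : HolAt f x) (hg : HolAt g x) : gm f hf = gm g hg ↔ f =ᶠ[𝓝 x] g := by
  rw [gm, gm, Subtype.mk.injEq, Germ.coe_eq]

theorem exists_gm {x : E} (g : OO x) : ∃ (f : E → ℂ) (hf : HolAt f x), g = gm f hf := by
  obtain ⟨g, f, hf, rfl⟩ := g
  exact ⟨f, hf, rfl⟩

theorem gm_add {f g : E → ℂ} {x : E} (hf : HolAt f x) (hg : HolAt g x) :
    gm f hf + gm g hg = gm (fun y => f y + g y) (hf.add hg) := rfl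

theorem gm_sub {f g : E → ℂ} {x : E} (hf : HolAt f x) (hg : HolAt g x) :
    gm f hf - gm g hg = gm (fun y => f y - g y) (hf.sub hg) := rfl

theorem gm_neg {f : E → ℂ} {x : E} (hf : HolAt f x) : - gm f hf = gm (fun y => - f y) hf.neg := rfl

theorem gm_mul {f g : E → ℂ} {x : E} (hf : HolAt f x) (hg : HolAt g x) :
    gm f hf * gm g hg = gm (fun y => f y * g y) (hf.mul hg) := rfl

theorem gm_zero {x : E} : (0 : OO x) = gm (fun _ => 0) (holAt_const 0 x) := rfl

theorem gm_one {x : E} : (1 : OO x) = gm (fun _ => 1) (holAt_const 1 x) := rfl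

theorem gm_eq_zero {f : E → ℂ} {x : E} (hf : HolAt f x) : gm f hf = 0 ↔ ∀ᶠ y in 𝓝 x, f y = 0 := by
  rw [gm_zero, gm_eq]
  rfl

theorem gm_sum {ι : Type*} (s : Finset ι) {f : ι → E → ℂ} {x : E} (hf : ∀ i, HolAt (f i) x) :
    ∑ i ∈ s, gm (f i) (hf i) = gm (fun y => ∑ i ∈ s, f i y) (HolAt.sum s fun i _ => hf i) := by
  classical
  induction s using Finset.induction_on with
  | empty => simp [gm_zero]
  | insert a s ha ih =>
    rw [Finset.sum_insert ha, ih, gm_add, gm_eq]
    exact Eventually.of_forall fun y => by simp [Finset.sum_insert ha]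

theorem gm_pow {f : E → ℂ} {x : E} (hf : HolAt f x) (k : ℕ) : gm f hf ^ k = gm (fun y => f y ^ k) (hf.pow k) := by
  induction k with
  | zero => rw [pow_zero, gm_one, gm_eq]; exact Eventually.of_forall fun y => by simp
  | succ k ih => rw [pow_succ, ih, gm_mul, gm_eq]; exact Eventually.of_forall fun y => by simp [pow_succ]

/-- The value of a germ at the point. -/
noncomputable def val (x : E) : OO x →+* ℂ := (Germ.valueRingHom (X := E) (E := ℂ) (x := x)).comp (OO x).subtype

/-- Pull-back of germs along a map `φ : E → E'` holomorphic near `x`. -/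
noncomputable def pull {E' : Type*} [NormedAddCommGroup E'] [NormedSpace ℂ E'] (φ : E → E') {x : E} (hφ : HolAt φ x) :
    OO (φ x) →+* OO x where
  toFun g := ⟨(g : (𝓝 (φ x)).Germ ℂ).compTendsto φ hφ.continuousAt, by
    obtain ⟨g, f, hf, rfl⟩ := g
    exact ⟨fun y => f (φ y), hf.comp hφ, rfl⟩⟩
  map_one' := rfl
  map_mul' a b := by
    obtain ⟨a, f, hf, rfl⟩ := a
    obtain ⟨b, g, hg, rfl⟩ := b
    rfl
  map_zero' := rfl
  map_add' a b := by
    obtain ⟨a, f, hf, rfl⟩ := a
    obtain ⟨b, g, hg, rfl⟩ := b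
    rfl

theorem pull_gm {E' : Type*} [NormedAddCommGroup E'] [NormedSpace ℂ E'] {φ : E → E'} {x : E} (hφ : HolAt φ x)
    {f : E' → ℂ} (hf : HolAt f (φ x)) : pull φ hφ (gm f hf) = gm (fun y => f (φ y)) (hf.comp hφ) := rfl

theorem val_gm {f : E → ℂ} {x : E} (hf : HolAt f x) : val x (gm f hf) = f x := rfl

end Pool.Agent.DQ.W
end

section

/-! Campaign DQ, module W, file WOkaDefs: relations between holomorphic functions, the statement of Oka's theorem. -/

set_option autoImplicit false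

open Metric Set Filter Topology

universe u

namespace Pool.Agent.DQ.W

variable {E : Type u} [NormedAddCommGroup E] [NormedSpace ℂ E]

/-- Germ at `y` of a function (zero if the function is not holomorphic near `y`). -/
noncomputable abbrev gt (f : E → ℂ) (y : E) : OO y := Pool.Agent.DQ.gm f y

theorem gt_eq {f : E → ℂ} {y : E} (hf : HolAt f y) : gt f y = gm f hf := (gm_eq_gm hf).symm

/-- The relations at `y`: families of germs `h i` with `∑ i, h i * f i l = 0` for all `l`. -/
noncomputable def Rel {ι κ : Type} [Fintype ι] (f : ι → κ → E → ℂ) (y : E) : Submodule (OO y) (ι → OO y) where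
  carrier := {h | ∀ l, ∑ i, h i * gt (f i l) y = 0}
  add_mem' := by
    intro a b ha hb l
    simp only [Pi.add_apply, add_mul, Finset.sum_add_distrib]
    rw [ha l, hb l, add_zero]
  zero_mem' := by intro l; simp
  smul_mem' := by
    intro r a ha l
    simp only [Pi.smul_apply, smul_eq_mul, mul_assoc]
    rw [← Finset.mul_sum, ha l, mul_zero]

theorem mem_Rel {ι κ : Type} [Fintype ι] {f : ι → κ → E → ℂ} {y : E} {h : ι → OO y} :
    h ∈ Rel f y ↔ ∀ l, ∑ i, h i * gt (f i l) y = 0 := Iff.rfl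

/-- Oka's theorem for the family `f` at `x`: near `x` all relations are generated by finitely many relations `R j`. -/
def OkaFor {ι κ : Type} [Fintype ι] (f : ι → κ → E → ℂ) (x : E) : Prop :=
  ∃ (N : ℕ) (R : Fin N → ι → E → ℂ), (∀ j i, HolAt (R j i) x) ∧
    ∀ᶠ y in 𝓝 x, Rel f y = Submodule.span (OO y) (Set.range fun j => fun i => gt (R j i) y)

variable (E) in
/-- Oka's theorem for the space `E`. -/
def Oka : Prop := ∀ (x : E) (ι κ : Type) [Fintype ι] [Fintype κ] (f : ι → κ → E → ℂ),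
  (∀ i l, HolAt (f i l) x) → OkaFor f x

variable (E) in
/-- Oka's theorem for single equations. -/
def Oka1 : Prop := ∀ (x : E) (ι : Type) [Fintype ι] (f : ι → E → ℂ),
  (∀ i, HolAt (f i) x) → OkaFor (fun i (_ : Unit) => f i) x

end Pool.Agent.DQ.W
end

section

/-! Campaign DQ, module W, file WOkaA: basic lemmas on `gt`, `Rel`, `OkaFor`. -/

set_option autoImplicit false

open Metric Set Filter Topology

universe u

namespace Pool.Agent.DQ.W

variable {E : Type u} [NormedAddCommGroup E] [NormedSpace ℂ E]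

/-- Proof. Near `x` all functions are holomorphic; `gt_eq`, `gm_mul`, `gm_sum`. -/
theorem gt_sum_mul {ι : Type} [Fintype ι] {a b : ι → E → ℂ} {x : E} (ha : ∀ i, HolAt (a i) x)
    (hb : ∀ i, HolAt (b i) x) :
    ∀ᶠ y in 𝓝 x, gt (fun z => ∑ i, a i z * b i z) y = ∑ i, gt (a i) y * gt (b i) y := by
  have h1 : ∀ᶠ y in 𝓝 x, ∀ i, HolAt (a i) y := eventually_all.mpr fun i => (ha i).eventually
  have h2 : ∀ᶠ y in 𝓝 x, ∀ i, HolAt (b i) y := eventually_all.mpr fun i => (hb i).eventually
  filter_upwards [h1, h2] with y hy1 hy2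
  have h3 : ∀ i, gt (a i) y * gt (b i) y = gm (fun z => a i z * b i z) ((hy1 i).mul (hy2 i)) := by
    intro i
    rw [gt_eq (hy1 i), gt_eq (hy2 i), gm_mul]
  rw [Finset.sum_congr rfl fun i _ => h3 i, gm_sum Finset.univ (fun i => (hy1 i).mul (hy2 i))]
  exact gt_eq (HolAt.sum Finset.univ fun i _ => (hy1 i).mul (hy2 i))

/-- `gt` depends only on the germ.

Proof. If `f` is holomorphic near `y` so is `g`, `gt_eq` and `gm_eq`; otherwise both are `0` (unfold `Pool.Agent.DQ.gm`, `dif_neg`). -/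
theorem gt_congr {f g : E → ℂ} {y : E} (h : f =ᶠ[𝓝 y] g) : gt f y = gt g y := by
  by_cases hf : HolAt f y
  · have hg : HolAt g y := hf.congr h
    rw [gt_eq hf, gt_eq hg, gm_eq]
    exact h
  · have hg : ¬ HolAt g y := fun hg => hf (hg.congr h.symm)
    have h1 : gt f y = 0 := by
      unfold gt Pool.Agent.DQ.gm
      exact dif_neg hf
    have h2 : gt g y = 0 := by
      unfold gt Pool.Agent.DQ.gm
      exact dif_neg hg
    rw [h1, h2]

private theorem WOkaA_Rel_congr {ι κ : Type} [Fintype ι] {f g : ι → κ → E → ℂ} {y : E}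
    (h : ∀ i l, gt (f i l) y = gt (g i l) y) : Rel f y = Rel g y := by
  ext w
  rw [mem_Rel, mem_Rel]
  constructor
  · intro hw l
    rw [← hw l]
    exact Finset.sum_congr rfl fun i _ => by rw [h i l]
  · intro hw l
    rw [← hw l]
    exact Finset.sum_congr rfl fun i _ => by rw [h i l]

/-- Proof. Near `x` the functions agree near `y`; `gt_congr` gives `Rel f y = Rel g y`. -/
theorem OkaFor.congr {ι κ : Type} [Fintype ι] [Fintype κ] {f g : ι → κ → E → ℂ} {x : E} (h : OkaFor f x)
    (hfg : ∀ i l, f i l =ᶠ[𝓝 x] g i l) : OkaFor g x := by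
  obtain ⟨N, R, hR, h1⟩ := h
  refine ⟨N, R, hR, ?_⟩
  have h2 : ∀ᶠ y in 𝓝 x, ∀ i l, f i l =ᶠ[𝓝 y] g i l :=
    eventually_all.mpr fun i => eventually_all.mpr fun l => (hfg i l).eventuallyEq_nhds
  filter_upwards [h1, h2] with y hy1 hy2
  rw [← hy1]
  exact (WOkaA_Rel_congr fun i l => gt_congr (hy2 i l)).symm

/-- Generators indexed by an arbitrary finite type.

Proof. `Fintype.equivFin`; the ranges are equal (`Equiv.range_comp`). -/
theorem okaFor_of_fintype {ι κ σ : Type} [Fintype ι] [Fintype σ] {f : ι → κ → E → ℂ} {x : E} (R : σ → ι → E → ℂ)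
    (hR : ∀ j i, HolAt (R j i) x)
    (h : ∀ᶠ y in 𝓝 x, Rel f y = Submodule.span (OO y) (Set.range fun j => fun i => gt (R j i) y)) : OkaFor f x := by
  refine ⟨Fintype.card σ, fun j => R ((Fintype.equivFin σ).symm j), fun j i => hR _ i, ?_⟩
  filter_upwards [h] with y hy
  rw [hy]
  congr 1
  exact ((Fintype.equivFin σ).symm.surjective.range_comp (fun j => fun i => gt (R j i) y)).symm

/-- Membership in the span of a finite family.

Proof. `Submodule.mem_span_range_iff_exists_fun`; componentwise `Finset.sum_apply`, `smul_eq_mul`. -/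
theorem mem_span_gt {ι σ : Type} [Fintype σ] {y : E} {R : σ → ι → OO y} {h : ι → OO y} :
    h ∈ Submodule.span (OO y) (Set.range R) ↔ ∃ c : σ → OO y, ∀ i, h i = ∑ j, c j * R j i := by
  rw [Submodule.mem_span_range_iff_exists_fun]
  constructor
  · rintro ⟨c, hc⟩
    refine ⟨c, fun i => ?_⟩
    rw [← hc, Finset.sum_apply]
    rfl
  · rintro ⟨c, hc⟩
    refine ⟨c, ?_⟩
    funext i
    rw [Finset.sum_apply, hc i]
    rfl

private theorem WOkaA_top {ι κ : Type} [Fintype ι] {f : ι → κ → E → ℂ} {x : E}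
    (h : ∀ᶠ y in 𝓝 x, Rel f y = ⊤) : OkaFor f x := by
  classical
  refine okaFor_of_fintype (σ := ι) (fun j i _ => if i = j then (1 : ℂ) else 0) ?_ ?_
  · intro j i
    exact holAt_const _ x
  · filter_upwards [h] with y hy
    rw [hy]
    symm
    rw [eq_top_iff]
    intro w _
    rw [mem_span_gt]
    refine ⟨w, fun i => ?_⟩
    have h1 : ∀ j, gt (fun _ : E => if i = j then (1 : ℂ) else 0) y = if i = j then 1 else 0 := by
      intro j
      rw [gt_eq (holAt_const _ y)]
      by_cases hij : i = j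
      · simp only [hij, if_true]
        rfl
      · simp only [hij, if_false]
        rfl
    simp only [h1]
    simp

/-- If all functions vanish near `x` the relations are generated by the unit vectors.

Proof. `okaFor_of_fintype` with `σ = ι`, `R j i = 1` if `i = j`, else `0` (constants). Near `x` all `gt (f i l) y = 0`, so
`Rel f y = ⊤`; the span of the unit vectors is `⊤` (`mem_span_gt` with `c = h`). -/
theorem okaFor_zero {ι κ : Type} [Fintype ι] [Fintype κ] {f : ι → κ → E → ℂ} {x : E}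
    (h : ∀ i l, ∀ᶠ y in 𝓝 x, f i l y = 0) : OkaFor f x := by
  apply WOkaA_top
  have h2 : ∀ᶠ y in 𝓝 x, ∀ i l, f i l =ᶠ[𝓝 y] (fun _ => (0 : ℂ)) :=
    eventually_all.mpr fun i => eventually_all.mpr fun l => (h i l).eventually_nhds
  filter_upwards [h2] with y hy
  rw [eq_top_iff]
  intro w _
  rw [mem_Rel]
  intro l
  apply Finset.sum_eq_zero
  intro i _
  rw [gt_congr (hy i l), gt_eq (holAt_const 0 y), ← gm_zero, mul_zero]

/-- No equations: the relations are generated by the unit vectors. Proof. As `okaFor_zero`. -/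
theorem okaFor_empty {ι κ : Type} [Fintype ι] [IsEmpty κ] (f : ι → κ → E → ℂ) (x : E) : OkaFor f x := by
  apply WOkaA_top
  refine Eventually.of_forall fun y => ?_
  rw [eq_top_iff]
  intro w _
  rw [mem_Rel]
  intro l
  exact isEmptyElim l

end Pool.Agent.DQ.W
end

section

/-! Campaign DQ, module W, file WOkaK: from single equations to finite systems. -/

set_option autoImplicit false

open Metric Set Filter Topology

universe u

namespace Pool.Agent.DQ.W

variable {E : Type u} [NormedAddCommGroup E] [NormedSpace ℂ E]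

private theorem WOkaK_comb {R : Type*} [CommRing R] {ι σ τ : Type} [Fintype ι] [Fintype σ] [Fintype τ]
    (c : σ → R) (A : σ → ι → R) (b : ι → R) :
    ∑ i, (∑ j, c j * A j i) * b i = ∑ j, c j * ∑ i, A j i * b i := by
  simp only [Finset.sum_mul, Finset.mul_sum]
  rw [Finset.sum_comm]
  simp only [mul_assoc]

/-- **One more equation.** If the relations of `f` (equations `κ`) are generated near `x` by finitely many, then also the
relations of `f` together with one more equation `g`.

Proof. Let `R j i`, `j < N`, generate `Rel f y` for `y` near `x`. Put `G j := ∑ i, R j i * g i` (holomorphic near `x`);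
`h1` gives generators `S k j`, `k < M`, of the relations of the single equation with coefficients `G j`. Generators of the big system:
`T k i := ∑ j, S k j * R j i`. For `y` near `x` all is holomorphic and the identities of `gt_sum_mul` hold. Let `h` satisfy all
equations at `y`: `h i = ∑ j, c j * R j i` (`mem_span_gt`), and `0 = ∑ i, h i * g i = ∑ j, c j * G j`, so
`c j = ∑ k, d k * S k j` and `h i = ∑ k, d k * T k i`. Conversely each `T k` satisfies the equations of `f` (it is a combination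
of the `R j`, `Rel f y` is a submodule) and `∑ i, T k i * g i = ∑ j, S k j * G j = 0`. -/
theorem okaFor_option (h1 : Oka1 E) {ι κ : Type} [Fintype ι] [Fintype κ] {f : ι → κ → E → ℂ} {g : ι → E → ℂ} {x : E}
    (hf : ∀ i l, HolAt (f i l) x) (hg : ∀ i, HolAt (g i) x) (h : OkaFor f x) :
    OkaFor (fun i (l : Option κ) => l.elim (g i) (f i)) x := by
  obtain ⟨N, R, hR, hevR⟩ := h
  have hG : ∀ j, HolAt (fun z => ∑ i, R j i z * g i z) x :=
    fun j => HolAt.sum Finset.univ (fun i _ => (hR j i).mul (hg i))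
  obtain ⟨M, S, hS, hevS⟩ := h1 x (Fin N) (fun j z => ∑ i, R j i z * g i z) hG
  refine ⟨M, fun k i z => ∑ j, S k j z * R j i z, ?_, ?_⟩
  · intro k i
    exact HolAt.sum Finset.univ (fun j _ => (hS k j).mul (hR j i))
  have hA : ∀ᶠ y in 𝓝 x, ∀ j : Fin N, gt (fun z => ∑ i, R j i z * g i z) y = ∑ i, gt (R j i) y * gt (g i) y :=
    eventually_all.mpr (fun j => gt_sum_mul (hR j) hg)
  have hB : ∀ᶠ y in 𝓝 x, ∀ k : Fin M, ∀ i : ι, gt (fun z => ∑ j, S k j z * R j i z) y =
      ∑ j, gt (S k j) y * gt (R j i) y :=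
    eventually_all.mpr (fun k => eventually_all.mpr (fun i => gt_sum_mul (hS k) (fun j => hR j i)))
  filter_upwards [hevR, hevS, hA, hB] with y hyR hyS hyA hyB
  ext h
  have e1 : h ∈ Rel (fun i (l : Option κ) => l.elim (g i) (f i)) y ↔
      (∑ i, h i * gt (g i) y = 0) ∧ h ∈ Rel f y := by
    rw [mem_Rel, mem_Rel]
    constructor
    · intro hh
      exact ⟨hh none, fun l => hh (some l)⟩
    · rintro ⟨ha, hb⟩ l
      cases l with
      | none => exact ha
      | some l => exact hb l
  have e2 : ∀ c : Fin N → OO y, c ∈ Rel (fun i (_ : Unit) => (fun z => ∑ i', R i i' z * g i' z)) y ↔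
      ∑ j, c j * (∑ i, gt (R j i) y * gt (g i) y) = 0 := by
    intro c
    rw [mem_Rel]
    constructor
    · intro hh
      have h2 := hh ()
      simp only [hyA] at h2
      exact h2
    · intro hh _
      simp only [hyA]
      exact hh
  rw [e1, hyR, mem_span_gt, mem_span_gt]
  constructor
  · rintro ⟨ha, c, hc⟩
    have h3 : ∑ j, c j * (∑ i, gt (R j i) y * gt (g i) y) = 0 := by
      rw [← WOkaK_comb (τ := Unit) c (fun j i => gt (R j i) y) (fun i => gt (g i) y), ← ha]
      exact Finset.sum_congr rfl (fun i _ => by rw [hc i])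
    have h4 := (e2 c).mpr h3
    rw [hyS, mem_span_gt] at h4
    obtain ⟨d, hd⟩ := h4
    refine ⟨d, fun i => ?_⟩
    rw [hc i]
    have h5 : ∀ k, gt (fun z => ∑ j, S k j z * R j i z) y = ∑ j, gt (S k j) y * gt (R j i) y := fun k => hyB k i
    simp only [h5]
    rw [← WOkaK_comb (τ := Unit) d (fun k j => gt (S k j) y) (fun j => gt (R j i) y)]
    exact Finset.sum_congr rfl (fun j _ => by rw [hd j])
  · rintro ⟨d, hd⟩
    have h5 : ∀ k i, gt (fun z => ∑ j, S k j z * R j i z) y = ∑ j, gt (S k j) y * gt (R j i) y := hyB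
    have h6 : ∀ i, h i = ∑ j, (∑ k, d k * gt (S k j) y) * gt (R j i) y := by
      intro i
      rw [hd i, WOkaK_comb (τ := Unit) d (fun k j => gt (S k j) y) (fun j => gt (R j i) y)]
      exact Finset.sum_congr rfl (fun k _ => by rw [h5 k i])
    have h7 : (fun j => ∑ k, d k * gt (S k j) y) ∈ Rel (fun i (_ : Unit) => (fun z => ∑ i', R i i' z * g i' z)) y := by
      rw [hyS, mem_span_gt]
      exact ⟨d, fun j => rfl⟩
    have h8 := (e2 _).mp h7
    refine ⟨?_, fun j => ∑ k, d k * gt (S k j) y, h6⟩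
    rw [← h8, ← WOkaK_comb (τ := Unit) (fun j => ∑ k, d k * gt (S k j) y) (fun j i => gt (R j i) y)
      (fun i => gt (g i) y)]
    exact Finset.sum_congr rfl (fun i _ => by rw [h6 i])

/-- **Finite systems.**

Proof. Induction on the finite type `κ` (`Fintype.induction_empty_option` for the predicate
`fun κ _ => ∀ f : ι → κ → E → ℂ, (∀ i l, HolAt (f i l) x) → OkaFor f x`; or induction on `Fintype.card κ` through
`Fintype.equivFin` and `Fin (n+1) ≃ Option (Fin n)`). Empty: `okaFor_empty`. Option: `okaFor_option` with `g i = f i none`. Invariance under an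
equivalence `κ ≃ κ'`: `Rel` is the same submodule. -/
theorem oka_of_oka1 (h1 : Oka1 E) : Oka E := by
  intro x ι κ _ _ f hf
  revert f
  refine Fintype.induction_empty_option
    (P := fun (κ : Type) [Fintype κ] => ∀ f : ι → κ → E → ℂ, (∀ i l, HolAt (f i l) x) → OkaFor f x) ?_ ?_ ?_ κ
  · intro α β _ e hα f hf
    obtain ⟨N, R, hR, hev⟩ := hα (fun i a => f i (e a)) (fun i a => hf i (e a))
    refine ⟨N, R, hR, ?_⟩
    filter_upwards [hev] with y hy
    rw [← hy]
    ext h
    rw [mem_Rel, mem_Rel]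
    constructor
    · intro hh a
      exact hh (e a)
    · intro hh b
      obtain ⟨a, rfl⟩ := e.surjective b
      exact hh a
  · intro f _
    exact okaFor_empty f x
  · intro α _ hα f hf
    have h2 := okaFor_option h1 (f := fun i (l : α) => f i (some l)) (g := fun i => f i none)
      (fun i l => hf i (some l)) (fun i => hf i none) (hα _ (fun i l => hf i (some l)))
    have h3 : (fun i (l : Option α) => l.elim (f i none) (fun l => f i (some l))) = f := by
      funext i l
      cases l <;> rfl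
    rw [h3] at h2
    exact h2

end Pool.Agent.DQ.W
end

section

/-! Campaign DQ, module W, file WIdent: identity theorem on balls of a complex normed space. -/

set_option autoImplicit false

open Metric Set Filter Topology

namespace Pool.Agent.DQ.W

variable {E : Type*} [NormedAddCommGroup E] [NormedSpace ℂ E]

private theorem WIdent_line {f : E → ℂ} {x y z : E} {r : ℝ} (hf : DifferentiableOn ℂ f (ball x r))
    (hy : y ∈ ball x r) (hz : z ∈ ball x r)
    (h0 : ∀ᶠ t : ℂ in 𝓝 0, f (y + t • (z - y)) = 0) : f z = 0 := by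
  set φ : ℂ → E := fun t => y + t • (z - y) with hφ
  have hφc : Continuous φ := by fun_prop
  have hφd : Differentiable ℂ φ := by
    rw [hφ]
    exact (differentiable_const y).add (differentiable_id.smul_const (z - y))
  set L : Set ℂ := φ ⁻¹' (ball x r) with hL
  have hLo : IsOpen L := isOpen_ball.preimage hφc
  have hLc : Convex ℝ L := by
    intro t₁ h₁ t₂ h₂ a b ha hb hab
    have e₁ : ‖φ t₁ - x‖ < r := by rw [← dist_eq_norm]; exact h₁
    have e₂ : ‖φ t₂ - x‖ < r := by rw [← dist_eq_norm]; exact h₂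
    have hb' : b = 1 - a := by linarith
    subst hb'
    have e : φ (a • t₁ + (1 - a) • t₂) - x =
        (a : ℂ) • (φ t₁ - x) + ((1 - a : ℝ) : ℂ) • (φ t₂ - x) := by
      simp only [hφ, Complex.real_smul]
      push_cast
      module
    show φ (a • t₁ + (1 - a) • t₂) ∈ ball x r
    rw [mem_ball, dist_eq_norm, e]
    have h3 := norm_add_le ((a : ℂ) • (φ t₁ - x)) (((1 - a : ℝ) : ℂ) • (φ t₂ - x))
    rw [norm_smul, norm_smul, Complex.norm_real, Complex.norm_real, Real.norm_of_nonneg ha,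
      Real.norm_of_nonneg hb] at h3
    have h4 : a * ‖φ t₁ - x‖ ≤ a * max ‖φ t₁ - x‖ ‖φ t₂ - x‖ :=
      mul_le_mul_of_nonneg_left (le_max_left _ _) ha
    have h5 : (1 - a) * ‖φ t₂ - x‖ ≤ (1 - a) * max ‖φ t₁ - x‖ ‖φ t₂ - x‖ :=
      mul_le_mul_of_nonneg_left (le_max_right _ _) hb
    have h6 : max ‖φ t₁ - x‖ ‖φ t₂ - x‖ < r := max_lt e₁ e₂
    linarith
  have hg : DifferentiableOn ℂ (fun t => f (φ t)) L :=
    hf.comp hφd.differentiableOn (fun t ht => ht)
  have hga := hg.analyticOnNhd hLo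
  have h0L : (0 : ℂ) ∈ L := by
    show φ 0 ∈ ball x r
    simp only [hφ, zero_smul, add_zero]
    exact hy
  have h1L : (1 : ℂ) ∈ L := by
    show φ 1 ∈ ball x r
    simp only [hφ, one_smul, add_sub_cancel]
    exact hz
  have h2 := hga.eqOn_zero_of_preconnected_of_eventuallyEq_zero hLc.isPreconnected h0L h0
  have h3 := h2 h1L
  simp only [hφ, one_smul, add_sub_cancel, Pi.zero_apply] at h3
  exact h3

/-- **Identity theorem on a ball**: a holomorphic function on a ball of a complex normed space which vanishes near one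
point of the ball vanishes on the whole ball.

Proof. Let `z` be a point of the ball, `f = 0` near `y`. The set `L := {t : ℂ | y + t • (z - y) ∈ ball x r}` is open and
convex (preimage of a convex set under an affine map; `Convex.affine_preimage` or directly), hence preconnected, and
contains `0` and `1`. `g t := f (y + t • (z - y))` is `DifferentiableOn ℂ` on `L`, hence `AnalyticOnNhd ℂ g L`
(`DifferentiableOn.analyticOnNhd`), and `g = 0` near `0`; `AnalyticOnNhd.eqOn_zero_of_preconnected_of_eventuallyEq_zero`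
gives `g 1 = f z = 0`. -/
theorem ident_ball {f : E → ℂ} {x y : E} {r : ℝ} (hf : DifferentiableOn ℂ f (ball x r)) (hy : y ∈ ball x r)
    (h0 : ∀ᶠ w in 𝓝 y, f w = 0) : ∀ z ∈ ball x r, f z = 0 := by
  intro z hz
  refine WIdent_line hf hy hz ?_
  have h1 : Continuous (fun t : ℂ => y + t • (z - y)) := by fun_prop
  have h2 := h1.tendsto 0
  simp only [zero_smul, add_zero] at h2
  exact h2.eventually h0

/-- **Nonzero germs are nonzero on a complex line**: if `f` is holomorphic near `x` and not identically zero near `x` then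
for some direction `e` the function `t ↦ f (x + t • e)` is not identically zero near `0`.

Proof. Let `f` be holomorphic on `ball x r`. Some `z ∈ ball x r` has `f z ≠ 0` (otherwise `f = 0` near `x`). Put `e := z - x`.
If `t ↦ f (x + t • e)` vanished near `0` then, by the one variable identity theorem on the open convex set
`{t | x + t • e ∈ ball x r}` which contains `0` and `1`, `f z = 0`. -/
theorem exists_dir {f : E → ℂ} {x : E} (hf : HolAt f x) (h0 : ∃ᶠ y in 𝓝 x, f y ≠ 0) :
    ∃ e : E, ∃ᶠ t in 𝓝 (0 : ℂ), f (x + t • e) ≠ 0 := by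
  obtain ⟨r, hr, hf⟩ := holAt_iff.1 hf
  by_contra hcon
  push Not at hcon
  have h1 : ∀ z ∈ ball x r, f z = 0 := by
    intro z hz
    refine WIdent_line hf (mem_ball_self hr) hz ?_
    have h2 := hcon (z - x)
    simpa using h2
  refine h0 ?_
  filter_upwards [ball_mem_nhds x hr] with z hz
  simpa using h1 z hz

end Pool.Agent.DQ.W
end

section

/-! Campaign DQ, module W, file WVal: `OO x` is a local domain with residue field `ℂ`. -/

set_option autoImplicit false

open Metric Set Filter Topology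

namespace Pool.Agent.DQ.W

variable {E : Type*} [NormedAddCommGroup E] [NormedSpace ℂ E]

/-- Units are the germs with nonzero value.

Proof. `→`: `(isUnit_map)` applied to `val x`. `←`: `g = gm f hf`, `f x ≠ 0`, the inverse is `gm (fun y => (f y)⁻¹) (hf.inv h)`;
near `x` we have `f y ≠ 0`, so the product is `1` (`gm_eq`). -/
theorem isUnit_iff_val {x : E} (g : OO x) : IsUnit g ↔ val x g ≠ 0 := by
  constructor
  · intro h
    exact (h.map (val x)).ne_zero
  · intro h
    obtain ⟨f, hf, rfl⟩ := exists_gm g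
    rw [val_gm] at h
    refine IsUnit.of_mul_eq_one (gm (fun y => (f y)⁻¹) (hf.inv h)) ?_
    rw [gm_mul, gm_one, gm_eq]
    filter_upwards [hf.continuousAt.eventually_ne h] with y hy
    exact mul_inv_cancel₀ hy

/-- `OO x` is a local ring.

Proof. Nontrivial because `val x` is a ring homomorphism to a nontrivial ring (`RingHom.domain_nontrivial`);
`IsLocalRing.of_nonunits_add`: nonunits are the germs of value `0`. -/
instance isLocalRing_OO (x : E) : IsLocalRing (OO x) := by
  haveI : Nontrivial (OO x) := (val x).domain_nontrivial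
  apply IsLocalRing.of_nonunits_add
  intro a b ha hb
  rw [mem_nonunits_iff, isUnit_iff_val, not_not] at ha hb ⊢
  rw [map_add, ha, hb, add_zero]

/-- The maximal ideal.

Proof. `IsLocalRing.mem_maximalIdeal`, `mem_nonunits_iff`, `isUnit_iff_val`. -/
theorem mem_maximalIdeal_iff {x : E} (g : OO x) : g ∈ IsLocalRing.maximalIdeal (OO x) ↔ val x g = 0 := by
  rw [IsLocalRing.mem_maximalIdeal, mem_nonunits_iff, isUnit_iff_val, not_not]

/-- `OO x` is a domain.

Proof. `NoZeroDivisors`: let `gm f hf * gm g hg = 0`, `f g` holomorphic on `ball x r` with `f g = 0` there. If `f` is not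
`0` near `x` there is `y ∈ ball x r` with `f y ≠ 0`, then `f ≠ 0` near `y` so `g = 0` near `y` and `ident_ball` gives `g = 0`
on `ball x r`. Use `NoZeroDivisors.to_isDomain` / `isDomain_iff_noZeroDivisors_and_nontrivial`. -/
instance isDomain_OO (x : E) : IsDomain (OO x) := by
  haveI : Nontrivial (OO x) := (val x).domain_nontrivial
  haveI : NoZeroDivisors (OO x) := ⟨by
    intro a b hab
    obtain ⟨f, hf, rfl⟩ := exists_gm a
    obtain ⟨g, hg, rfl⟩ := exists_gm b
    rw [gm_mul, gm_eq_zero] at hab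
    by_cases h0 : ∀ᶠ y in 𝓝 x, f y = 0
    · left
      exact (gm_eq_zero hf).2 h0
    · right
      rw [gm_eq_zero]
      obtain ⟨r, hr, hball⟩ := Metric.eventually_nhds_iff_ball.1 (hf.and (hg.and hab))
      have hex : ∃ y ∈ ball x r, f y ≠ 0 := by
        by_contra hcon
        push Not at hcon
        apply h0
        filter_upwards [ball_mem_nhds x hr] with y hy using hcon y hy
      obtain ⟨y, hy, hfy⟩ := hex
      have hg' : DifferentiableOn ℂ g (ball x r) := fun z hz =>
        (hball z hz).2.1.differentiableWithinAt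
      have hne : ∀ᶠ w in 𝓝 y, f w ≠ 0 := (hball y hy).1.continuousAt.eventually_ne hfy
      have h1 : ∀ᶠ w in 𝓝 y, g w = 0 := by
        filter_upwards [hne, isOpen_ball.mem_nhds hy] with w hw hwb
        exact (mul_eq_zero.1 (hball w hwb).2.2).resolve_left hw
      have h2 := ident_ball hg' hy h1
      filter_upwards [ball_mem_nhds x hr] with w hw using h2 w hw⟩
  exact NoZeroDivisors.to_isDomain _

end Pool.Agent.DQ.W
end

section

/-! Campaign DQ, module W, file WCoord: changes of coordinates. -/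

set_option autoImplicit false

open Metric Set Filter Topology

universe u

namespace Pool.Agent.DQ.W

/-- **Coordinates adapted to a direction.** `E` finite-dimensional, `e ≠ 0`: there is a linear isomorphism of `E` with a
product `V × ℂ` sending `e` to `(0, 1)`; `V` is a subspace of dimension one less.

Proof. Choose a linear functional `ℓ : E →ₗ[ℂ] ℂ` with `ℓ e = 1` (`Module.exists_dual_forall_apply_eq` / extension of
a basis: `exists_dual_map_eq`.. e.g. `Module.Dual` separation `Module.forall_dual_apply_eq_zero_iff`, then rescale). Let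
`V := ker ℓ`. The linear map `y ↦ (⟨y - ℓ y • e, _⟩, ℓ y)` is a linear equivalence with inverse `(v, t) ↦ v + t • e`; it is
continuous with continuous inverse because all spaces are finite-dimensional
(`LinearEquiv.toContinuousLinearEquiv`). Dimension: `finrank (V × ℂ) = finrank V + 1` and the equivalence preserves
`finrank`. -/
theorem exists_coord {E : Type u} [NormedAddCommGroup E] [NormedSpace ℂ E] [FiniteDimensional ℂ E] {e : E} (he : e ≠ 0) :
    ∃ (V : Submodule ℂ E) (φ : E ≃L[ℂ] V × ℂ), Module.finrank ℂ V + 1 = Module.finrank ℂ E ∧ φ e = (0, 1) := by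
  obtain ⟨l, hl⟩ := SeparatingDual.exists_eq_one (R := ℂ) he
  let L : E ≃ₗ[ℂ] (LinearMap.ker l.toLinearMap) × ℂ :=
    { toFun := fun y => (⟨y - l y • e, by
        rw [LinearMap.mem_ker]
        change l (y - l y • e) = 0
        rw [map_sub, map_smul, hl, smul_eq_mul, mul_one, sub_self]⟩, l y)
      map_add' := by
        intro a b
        apply Prod.ext
        · apply Subtype.ext
          change a + b - l (a + b) • e = (a - l a • e) + (b - l b • e)
          rw [map_add, add_smul]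
          abel
        · exact map_add l a b
      map_smul' := by
        intro c a
        apply Prod.ext
        · apply Subtype.ext
          change c • a - l (c • a) • e = c • (a - l a • e)
          rw [map_smul, smul_sub, smul_smul, smul_eq_mul]
        · exact map_smul l c a
      invFun := fun p => p.1.1 + p.2 • e
      left_inv := by
        intro y
        change y - l y • e + l y • e = y
        rw [sub_add_cancel]
      right_inv := by
        rintro ⟨⟨v, hv⟩, t⟩
        have hv' : l v = 0 := hv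
        have h1 : l (v + t • e) = t := by
          rw [map_add, map_smul, hl, hv', smul_eq_mul, mul_one, zero_add]
        apply Prod.ext
        · apply Subtype.ext
          change v + t • e - l (v + t • e) • e = v
          rw [h1, add_sub_cancel_right]
        · exact h1 }
  refine ⟨LinearMap.ker l.toLinearMap, L.toContinuousLinearEquiv, ?_, ?_⟩
  · have h1 := L.finrank_eq
    rw [Module.finrank_prod, Module.finrank_self] at h1
    exact h1.symm
  · apply Prod.ext
    · apply Subtype.ext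
      change e - l e • e = 0
      rw [hl, one_smul, sub_self]
    · exact hl

/-- A direction for finitely many nonzero germs at once, and nonzero.

Proof. The product `F := ∏ i, f i` is not identically zero near `x`: the germ ring is a domain (`isDomain_OO`,
`Finset.prod_ne_zero_iff`). `exists_dir` gives `e` with `F (x + t • e) ≠ 0` frequently as `t → 0`; if `e = 0` this says
`F x ≠ 0`, and then any `e ≠ 0` (exists, `E` nontrivial) works, since `t ↦ F (x + t • e)` is continuous at `0`. Frequently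
`F ≠ 0` implies frequently `f i ≠ 0` for each `i`. -/
theorem exists_dir_all {E : Type u} [NormedAddCommGroup E] [NormedSpace ℂ E] [Nontrivial E] {ι : Type} [Fintype ι]
    {x : E} {f : ι → E → ℂ} (hf : ∀ i, HolAt (f i) x) (h0 : ∀ i, ∃ᶠ y in 𝓝 x, f i y ≠ 0) :
    ∃ e : E, e ≠ 0 ∧ ∀ i, ∃ᶠ t in 𝓝 (0 : ℂ), f i (x + t • e) ≠ 0 := by
  classical
  have hprod : ∀ s : Finset ι, ∃ h : HolAt (fun y => ∏ i ∈ s, f i y) x,
      gm (fun y => ∏ i ∈ s, f i y) h ≠ 0 := by
    intro s
    induction s using Finset.induction_on with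
    | empty =>
      refine ⟨by simpa using holAt_const (1 : ℂ) x, ?_⟩
      intro h0
      rw [gm_eq_zero] at h0
      simpa using h0.self_of_nhds
    | insert a s ha ih =>
      obtain ⟨h, hne⟩ := ih
      have hmul := (hf a).mul h
      have hEq : (fun y => ∏ i ∈ insert a s, f i y) = fun y => f a y * ∏ i ∈ s, f i y := by
        funext y
        rw [Finset.prod_insert ha]
      have hfa : gm (f a) (hf a) ≠ 0 := by
        rw [Ne, gm_eq_zero]
        intro hcon
        exact (h0 a) (hcon.mono fun y hy => not_not.2 hy)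
      simp only [hEq]
      refine ⟨hmul, ?_⟩
      rw [← gm_mul (hf a) h]
      exact mul_ne_zero hfa hne
  obtain ⟨hF, hFne⟩ := hprod Finset.univ
  have hfreq : ∃ᶠ y in 𝓝 x, (∏ i, f i y) ≠ 0 := by
    intro hcon
    apply hFne
    rw [gm_eq_zero]
    exact hcon.mono fun y hy => not_not.1 hy
  have hfin : ∃ e : E, e ≠ 0 ∧ ∃ᶠ t in 𝓝 (0 : ℂ), (∏ i, f i (x + t • e)) ≠ 0 := by
    obtain ⟨e, he⟩ := exists_dir hF hfreq
    by_cases he0 : e = 0
    · obtain ⟨e', he'⟩ := exists_ne (0 : E)
      refine ⟨e', he', ?_⟩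
      have hx : (∏ i, f i x) ≠ 0 := by
        obtain ⟨t, ht⟩ := he.exists
        simpa [he0] using ht
      have hc : ContinuousAt (fun t : ℂ => ∏ i, f i (x + t • e')) 0 := by
        have h1 : ContinuousAt (fun y => ∏ i, f i y) (x + (0 : ℂ) • e') := by
          rw [zero_smul, add_zero]
          exact hF.continuousAt
        have h2 : ContinuousAt (fun t : ℂ => x + t • e') 0 := by fun_prop
        exact ContinuousAt.comp (f := fun t : ℂ => x + t • e') (g := fun y => ∏ i, f i y) h1 h2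
      have h3 : (∏ i, f i (x + (0 : ℂ) • e')) ≠ 0 := by simpa using hx
      exact (hc.eventually_ne h3).frequently
    · exact ⟨e, he0, he⟩
  obtain ⟨e, he, hfr⟩ := hfin
  refine ⟨e, he, fun i => hfr.mono fun t ht h0i => ht ?_⟩
  exact Finset.prod_eq_zero (Finset.mem_univ i) h0i

/-- Germ rings are isomorphic along entire maps with entire inverse.

Proof. `RingEquiv.ofRingHom (pull φ _) (pull' ψ) ..`: the inverse of `pull φ` sends the germ at `x` of `f` to the germ at
`φ x` of `f ∘ ψ` (use `ψ (φ x) = x`; to avoid transport define it as `⟨Germ.compTendsto _ ψ (tendsto), _⟩` with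
`Tendsto ψ (𝓝 (φ x)) (𝓝 x)`). Both compositions are the identity by `h1`, `h2` on representatives. -/
theorem exists_pullEquiv {E E' : Type*} [NormedAddCommGroup E] [NormedSpace ℂ E] [NormedAddCommGroup E']
    [NormedSpace ℂ E'] {φ : E → E'} {ψ : E' → E} (hφ : Differentiable ℂ φ) (hψ : Differentiable ℂ ψ)
    (h1 : ∀ x, ψ (φ x) = x) (h2 : ∀ y, φ (ψ y) = y) (x : E) :
    ∃ Φ : OO (φ x) ≃+* OO x, ∀ (f : E' → ℂ) (hf : HolAt f (φ x)),
      Φ (gm f hf) = gm (fun y => f (φ y)) (hf.comp (Eventually.of_forall fun y => hφ y)) := by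
  have hφx : HolAt φ x := Eventually.of_forall fun y => hφ y
  have hψx : HolAt ψ (φ x) := Eventually.of_forall fun y => hψ y
  have hbij : Function.Bijective (pull φ hφx) := by
    constructor
    · rw [injective_iff_map_eq_zero]
      intro g hg
      obtain ⟨f, hf, rfl⟩ := exists_gm g
      rw [pull_gm, gm_eq_zero] at hg
      rw [gm_eq_zero]
      have ht : Tendsto ψ (𝓝 (φ x)) (𝓝 x) := by
        have := (hψ (φ x)).continuousAt.tendsto
        rwa [h1] at this
      filter_upwards [ht.eventually hg] with y hy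
      rwa [h2] at hy
    · intro g
      obtain ⟨h, hh, rfl⟩ := exists_gm g
      have hh' : HolAt h (ψ (φ x)) := by rwa [h1]
      refine ⟨gm (fun y => h (ψ y)) (hh'.comp hψx), ?_⟩
      rw [pull_gm, gm_eq]
      exact Eventually.of_forall fun y => by simp only [h1]
  exact ⟨RingEquiv.ofBijective (pull φ hφx) hbij, fun f hf => rfl⟩

end Pool.Agent.DQ.W
end

section

/-! Campaign DQ, module W, file WOkaB: rescaling by units and pull-back along biholomorphisms. -/

set_option autoImplicit false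

open Metric Set Filter Topology

universe u

namespace Pool.Agent.DQ.W

variable {E : Type u} [NormedAddCommGroup E] [NormedSpace ℂ E]

private theorem WOkaB_gt_mul {a b : E → ℂ} {y : E} (ha : HolAt a y) (hb : HolAt b y) :
    gt (fun z => a z * b z) y = gt a y * gt b y := by
  rw [gt_eq (ha.mul hb), gt_eq ha, gt_eq hb, gm_mul]

private theorem WOkaB_inv {w : E → ℂ} {y : E} (hw : HolAt w y) (h0 : w y ≠ 0) :
    gt w y * gt (fun z => (w z)⁻¹) y = 1 := by
  rw [gt_eq hw, gt_eq (hw.inv h0), gm_mul, gm_one, gm_eq]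
  filter_upwards [hw.continuousAt.eventually_ne h0] with z hz
  exact mul_inv_cancel₀ hz

/-- **Units.** If `f i l = w i * P i l` near `x` with `w i` holomorphic, `w i x ≠ 0`, then `OkaFor P x` implies `OkaFor f x`.

Proof. Let `R j i` be generators of the relations of `P`; `R' j i := R j i * (w i)⁻¹` are generators for `f`. Near `x`
everything is holomorphic, `w i y ≠ 0` (so `gt (w i) y` is a unit with inverse `gt (fun z => (w i z)⁻¹) y`), and
`gt (f i l) y = gt (w i) y * gt (P i l) y`. So `h ∈ Rel f y ↔ (fun i => h i * gt (w i) y) ∈ Rel P y`, and use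
`mem_span_gt` in both directions. -/
theorem OkaFor.of_unit {ι κ : Type} [Fintype ι] [Fintype κ] {f P : ι → κ → E → ℂ} {w : ι → E → ℂ} {x : E}
    (hP : ∀ i l, HolAt (P i l) x) (hw : ∀ i, HolAt (w i) x) (hw0 : ∀ i, w i x ≠ 0)
    (hf : ∀ i l, ∀ᶠ y in 𝓝 x, f i l y = w i y * P i l y) (h : OkaFor P x) : OkaFor f x := by
  obtain ⟨N, R, hR, hev⟩ := h
  refine ⟨N, fun j i z => R j i z * (w i z)⁻¹, fun j i => (hR j i).mul ((hw i).inv (hw0 i)), ?_⟩
  have e1 : ∀ᶠ y in 𝓝 x, ∀ i l, HolAt (P i l) y :=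
    eventually_all.mpr fun i => eventually_all.mpr fun l => (hP i l).eventually
  have e2 : ∀ᶠ y in 𝓝 x, ∀ i, HolAt (w i) y := eventually_all.mpr fun i => (hw i).eventually
  have e3 : ∀ᶠ y in 𝓝 x, ∀ i, w i y ≠ 0 :=
    eventually_all.mpr fun i => (hw i).continuousAt.eventually_ne (hw0 i)
  have e4 : ∀ᶠ y in 𝓝 x, ∀ i l, f i l =ᶠ[𝓝 y] fun z => w i z * P i l z :=
    eventually_all.mpr fun i => eventually_all.mpr fun l => (hf i l).eventually_nhds
  have e5 : ∀ᶠ y in 𝓝 x, ∀ j i, HolAt (R j i) y :=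
    eventually_all.mpr fun j => eventually_all.mpr fun i => (hR j i).eventually
  filter_upwards [hev, e1, e2, e3, e4, e5] with y hy h1 h2 h3 h4 h5
  have g1 : ∀ i l, gt (f i l) y = gt (w i) y * gt (P i l) y := by
    intro i l
    rw [gt_congr (h4 i l), WOkaB_gt_mul (h2 i) (h1 i l)]
  have g2 : ∀ j i, gt (fun z => R j i z * (w i z)⁻¹) y = gt (R j i) y * gt (fun z => (w i z)⁻¹) y :=
    fun j i => WOkaB_gt_mul (h5 j i) ((h2 i).inv (h3 i))
  have g3 : ∀ i, gt (w i) y * gt (fun z => (w i z)⁻¹) y = 1 := fun i => WOkaB_inv (h2 i) (h3 i)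
  ext h
  have k1 : h ∈ Rel f y ↔ (fun i => h i * gt (w i) y) ∈ Rel P y := by
    rw [mem_Rel, mem_Rel]
    have k2 : ∀ l, ∑ i, h i * gt (f i l) y = ∑ i, h i * gt (w i) y * gt (P i l) y := by
      intro l
      exact Finset.sum_congr rfl (fun i _ => by rw [g1 i l, mul_assoc])
    constructor
    · intro hh l
      rw [← k2 l]
      exact hh l
    · intro hh l
      rw [k2 l]
      exact hh l
  rw [k1, hy, mem_span_gt, mem_span_gt]
  constructor
  · rintro ⟨c, hc⟩
    refine ⟨c, fun i => ?_⟩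
    have k3 : h i = (h i * gt (w i) y) * gt (fun z => (w i z)⁻¹) y := by
      rw [mul_assoc, g3 i, mul_one]
    rw [k3, hc i, Finset.sum_mul]
    exact Finset.sum_congr rfl (fun j _ => by rw [g2 j i, mul_assoc])
  · rintro ⟨c, hc⟩
    refine ⟨c, fun i => ?_⟩
    show h i * gt (w i) y = _
    rw [hc i, Finset.sum_mul]
    refine Finset.sum_congr rfl (fun j _ => ?_)
    rw [g2 j i]
    linear_combination (c j * gt (R j i) y) * g3 i

/-- **Pull-back** along an entire map with entire inverse.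

Proof. Let `R j i` be generators for `f` at `φ x`; `R j i ∘ φ` are generators for `f ∘ φ`. For `y` near `x`, `φ y` is near
`φ x` (continuity). Fix such `y` (where all functions are holomorphic at `φ y` too) and let `Φ : OO (φ y) ≃+* OO y` be the isomorphism
of `exists_pullEquiv` (file WCoord), `Φ (gt g (φ y)) = gt (g ∘ φ) y` for `g` holomorphic near `φ y`. Then
`h ∈ Rel (f ∘ φ) y ↔ (fun i => Φ.symm (h i)) ∈ Rel f (φ y)` (apply `Φ` to the equations), and the same for the spans
(`mem_span_gt`, apply `Φ`). -/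
theorem OkaFor.pull {E' : Type u} [NormedAddCommGroup E'] [NormedSpace ℂ E'] {φ : E → E'} {ψ : E' → E}
    (hφ : Differentiable ℂ φ) (hψ : Differentiable ℂ ψ) (h1 : ∀ x, ψ (φ x) = x) (h2 : ∀ y, φ (ψ y) = y)
    {ι κ : Type} [Fintype ι] [Fintype κ] {f : ι → κ → E' → ℂ} {x : E} (hf : ∀ i l, HolAt (f i l) (φ x))
    (h : OkaFor f (φ x)) : OkaFor (fun i l y => f i l (φ y)) x := by
  obtain ⟨N, R, hR, hev⟩ := h
  have hφa : ∀ z : E, HolAt φ z := fun z => Eventually.of_forall fun y => hφ y
  refine ⟨N, fun j i z => R j i (φ z), fun j i => (hR j i).comp (hφa x), ?_⟩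
  have hct : Tendsto φ (𝓝 x) (𝓝 (φ x)) := hφ.continuous.continuousAt
  have e1 : ∀ᶠ y in 𝓝 (φ x), ∀ i l, HolAt (f i l) y :=
    eventually_all.mpr fun i => eventually_all.mpr fun l => (hf i l).eventually
  have e2 : ∀ᶠ y in 𝓝 (φ x), ∀ j i, HolAt (R j i) y :=
    eventually_all.mpr fun j => eventually_all.mpr fun i => (hR j i).eventually
  filter_upwards [hct.eventually hev, hct.eventually e1, hct.eventually e2] with y hy k1 k2
  obtain ⟨Φ, hΦ⟩ := exists_pullEquiv hφ hψ h1 h2 y
  have g0 : ∀ g : E' → ℂ, HolAt g (φ y) → gt (fun z => g (φ z)) y = Φ (gt g (φ y)) := by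
    intro g hg
    rw [gt_eq hg, hΦ g hg, gt_eq (hg.comp (hφa y))]
  ext h
  have k3 : h ∈ Rel (fun i l z => f i l (φ z)) y ↔ (fun i => Φ.symm (h i)) ∈ Rel f (φ y) := by
    rw [mem_Rel, mem_Rel]
    have k4 : ∀ l, ∑ i, h i * gt (fun z => f i l (φ z)) y = Φ (∑ i, Φ.symm (h i) * gt (f i l) (φ y)) := by
      intro l
      rw [map_sum]
      refine Finset.sum_congr rfl (fun i _ => ?_)
      rw [map_mul, Φ.apply_symm_apply, g0 _ (k1 i l)]
    constructor
    · intro hh l
      have k5 := hh l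
      rw [k4 l] at k5
      exact (map_eq_zero_iff Φ Φ.injective).mp k5
    · intro hh l
      rw [k4 l, hh l, map_zero]
  rw [k3, hy, mem_span_gt, mem_span_gt]
  constructor
  · rintro ⟨c, hc⟩
    refine ⟨fun j => Φ (c j), fun i => ?_⟩
    have k6 : h i = Φ (Φ.symm (h i)) := (Φ.apply_symm_apply (h i)).symm
    rw [k6, hc i, map_sum]
    refine Finset.sum_congr rfl (fun j _ => ?_)
    rw [map_mul, g0 _ (k2 j i)]
  · rintro ⟨c, hc⟩
    refine ⟨fun j => Φ.symm (c j), fun i => ?_⟩
    show Φ.symm (h i) = _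
    apply Φ.injective
    rw [Φ.apply_symm_apply, hc i, map_sum]
    refine Finset.sum_congr rfl (fun j _ => ?_)
    rw [map_mul, Φ.apply_symm_apply, g0 _ (k2 j i)]

end Pool.Agent.DQ.W
end

section

/-! Campaign DQ, module W, file WReg: finite order in the last variable; control of the roots of a Weierstrass polynomial. -/

set_option autoImplicit false

open Metric Set Filter Topology

namespace Pool.Agent.DQ.W

variable {V : Type*} [NormedAddCommGroup V] [NormedSpace ℂ V]

/-- If `f` is holomorphic near `(v₀, t₀)` and `f (v₀, ·)` is not identically zero near `t₀` then it has a finite order.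

Proof. `t ↦ f (v₀, t)` is differentiable near `t₀`, hence analytic at `t₀`
(`DifferentiableOn.analyticAt` in one variable); apply `AnalyticAt.exists_eventuallyEq_pow_smul_nonzero_iff`; an analytic
`u` is `HolAt`. -/
theorem exists_reg {f : V × ℂ → ℂ} {v₀ : V} {t₀ : ℂ} (hf : HolAt f (v₀, t₀))
    (h0 : ∃ᶠ t in 𝓝 t₀, f (v₀, t) ≠ 0) : ∃ k, Reg k f v₀ t₀ := by
  have hc : Continuous (fun t : ℂ => ((v₀, t) : V × ℂ)) := by fun_prop
  have h1 : ∀ᶠ t in 𝓝 t₀, DifferentiableAt ℂ (fun t : ℂ => f (v₀, t)) t := by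
    have h2 := (hc.tendsto t₀).eventually hf
    filter_upwards [h2] with t ht
    have h3 : DifferentiableAt ℂ (fun t : ℂ => ((v₀, t) : V × ℂ)) t :=
      (differentiableAt_const v₀).prodMk differentiableAt_id
    exact DifferentiableAt.comp t ht h3
  obtain ⟨U, hU, hUo, hUt⟩ := _root_.eventually_nhds_iff.mp h1
  have han : AnalyticAt ℂ (fun t : ℂ => f (v₀, t)) t₀ :=
    DifferentiableOn.analyticAt (s := U) (fun y hy => (hU y hy).differentiableWithinAt) (hUo.mem_nhds hUt)
  obtain ⟨n, g, hg, hg0, hfg⟩ := han.exists_eventuallyEq_pow_smul_nonzero_iff.mpr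
      (fun h => h0 (h.mono fun t ht => not_not.mpr ht))
  refine ⟨n, g, ?_, hg0, ?_⟩
  · filter_upwards [hg.eventually_analyticAt] with y hy using hy.differentiableAt
  · filter_upwards [hfg] with t ht
    rw [ht, smul_eq_mul]

/-- **Root control.** If `a i v₀ = 0` and `a i` is continuous at `v₀` for `i < k` then for every `ρ > 0`, for all `v` near
`v₀`, every root `s` of `PP k a v` satisfies `‖s‖ < ρ`.

Proof. For `‖s‖ ≥ ρ`: `‖∑_{i<k} a i v * s ^ i‖ ≤ ∑_{i<k} ‖a i v‖ * ‖s‖ ^ i ≤ (∑_{i<k} ‖a i v‖ * ρ ^ i / ρ ^ k) * ‖s‖ ^ k`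
(as `(‖s‖ / ρ) ^ i ≤ (‖s‖ / ρ) ^ k`), and the bracket tends to `0` as `v → v₀`, so it is `< 1` near `v₀`; then
`PP k a v s ≠ 0`. -/
theorem root_control {v₀ : V} {k : ℕ} {a : ℕ → V → ℂ} (ha : ∀ i < k, ContinuousAt (a i) v₀)
    (h0 : ∀ i < k, a i v₀ = 0) {ρ : ℝ} (hρ : 0 < ρ) :
    ∀ᶠ v in 𝓝 v₀, ∀ s : ℂ, PP k a v s = 0 → ‖s‖ < ρ := by
  have h1 : ContinuousAt (fun v => ∑ i ∈ Finset.range k, ‖a i v‖ * (ρ ^ i / ρ ^ k)) v₀ := by
    refine tendsto_finsetSum _ fun i hi => ?_
    exact ((ha i (Finset.mem_range.mp hi)).norm).mul tendsto_const_nhds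
  have h2 : ∑ i ∈ Finset.range k, ‖a i v₀‖ * (ρ ^ i / ρ ^ k) < 1 := by
    rw [Finset.sum_eq_zero]
    · exact one_pos
    · intro i hi
      rw [h0 i (Finset.mem_range.mp hi), norm_zero, zero_mul]
  filter_upwards [h1.eventually (gt_mem_nhds h2)] with v hv s hs
  by_contra hcon
  push Not at hcon
  have hs0 : 0 < ‖s‖ := lt_of_lt_of_le hρ hcon
  have h3 : s ^ k = -∑ i ∈ Finset.range k, a i v * s ^ i := by
    unfold PP at hs
    linear_combination hs
  have h4 : ‖s‖ ^ k ≤ (∑ i ∈ Finset.range k, ‖a i v‖ * (ρ ^ i / ρ ^ k)) * ‖s‖ ^ k := by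
    rw [← norm_pow, h3, norm_neg]
    refine (norm_sum_le _ _).trans ?_
    rw [← norm_neg (∑ i ∈ Finset.range k, a i v * s ^ i), ← h3, norm_pow, Finset.sum_mul]
    refine Finset.sum_le_sum fun i hi => ?_
    rw [norm_mul, norm_pow, mul_assoc]
    refine mul_le_mul_of_nonneg_left ?_ (norm_nonneg _)
    have hik : i ≤ k := (Finset.mem_range.mp hi).le
    rw [div_mul_eq_mul_div, le_div_iff₀ (by positivity)]
    obtain ⟨j, rfl⟩ := Nat.exists_eq_add_of_le hik
    rw [pow_add, pow_add]
    have h5 : ρ ^ j ≤ ‖s‖ ^ j := pow_le_pow_left₀ hρ.le hcon j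
    calc ‖s‖ ^ i * (ρ ^ i * ρ ^ j) = (ρ ^ i * ‖s‖ ^ i) * ρ ^ j := by ring
      _ ≤ (ρ ^ i * ‖s‖ ^ i) * ‖s‖ ^ j := by gcongr
      _ = ρ ^ i * (‖s‖ ^ i * ‖s‖ ^ j) := by ring
  have h6 : 0 < ‖s‖ ^ k := by positivity
  nlinarith

end Pool.Agent.DQ.W
end

section

/-! Campaign DQ, module W, file WPPS: difference quotient of `PP`. -/

set_option autoImplicit false

open Metric Set Filter Topology

namespace Pool.Agent.DQ.W

variable {V : Type*} [NormedAddCommGroup V] [NormedSpace ℂ V]

private theorem WPPS_pow (ζ s : ℂ) (m : ℕ) :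
    ζ ^ m - s ^ m = (ζ - s) * ∑ j ∈ Finset.range m, ζ ^ (m - 1 - j) * s ^ j := by
  have h := geom_sum₂_mul s ζ m
  have h2 : ∑ j ∈ Finset.range m, ζ ^ (m - 1 - j) * s ^ j = ∑ i ∈ Finset.range m, s ^ i * ζ ^ (m - 1 - i) :=
    Finset.sum_congr rfl fun i _ => mul_comm _ _
  rw [h2]
  linear_combination h

/-- **Difference quotient of `PP`.**

Proof. `ζ ^ m - s ^ m = (ζ - s) * ∑_{j<m} s ^ j * ζ ^ (m - 1 - j)` (`Commute.geom_sum₂_mul` / `geom_sum₂_mul`); apply it to
`m = k` and to every `m = i < k` with factor `a i v`, and exchange the order of summation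
(`∑_{i<k} ∑_{j<i} = ∑_{j<k} ∑_{i ∈ Ico (j+1) k}`, `Finset.sum_comm'`). For `k = 0` both sides are `0`. -/
theorem PP_sub (k : ℕ) (a : ℕ → V → ℂ) (v : V) (ζ s : ℂ) :
    PP k a v ζ - PP k a v s = (ζ - s) * ∑ j ∈ Finset.range k, cc k a j v ζ * s ^ j := by
  have h1 : ∑ j ∈ Finset.range k, cc k a j v ζ * s ^ j =
      ∑ j ∈ Finset.range k, ζ ^ (k - 1 - j) * s ^ j +
        ∑ i ∈ Finset.range k, a i v * ∑ j ∈ Finset.range i, ζ ^ (i - 1 - j) * s ^ j := by
    simp only [cc, add_mul, Finset.sum_add_distrib]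
    congr 1
    simp only [Finset.sum_mul, Finset.mul_sum]
    rw [Finset.sum_comm' (t' := Finset.range k) (s' := fun i => Finset.range i)]
    · refine Finset.sum_congr rfl fun i _ => Finset.sum_congr rfl fun j _ => ?_
      ring
    · intro x y
      simp only [Finset.mem_range, Finset.mem_Ico]
      omega
  rw [h1, mul_add, ← WPPS_pow, Finset.mul_sum]
  unfold PP
  have h2 : ∑ i ∈ Finset.range k, (ζ - s) * (a i v * ∑ j ∈ Finset.range i, ζ ^ (i - 1 - j) * s ^ j) =
      ∑ i ∈ Finset.range k, a i v * ζ ^ i - ∑ i ∈ Finset.range k, a i v * s ^ i := by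
    rw [← Finset.sum_sub_distrib]
    refine Finset.sum_congr rfl fun i _ => ?_
    have := WPPS_pow ζ s i
    calc (ζ - s) * (a i v * ∑ j ∈ Finset.range i, ζ ^ (i - 1 - j) * s ^ j)
        = a i v * ((ζ - s) * ∑ j ∈ Finset.range i, ζ ^ (i - 1 - j) * s ^ j) := by ring
      _ = a i v * (ζ ^ i - s ^ i) := by rw [← this]
      _ = a i v * ζ ^ i - a i v * s ^ i := by ring
  rw [h2]
  ring

end Pool.Agent.DQ.W
end
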