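import Mathlib
import Pool.Agent.Lib.MP_4aa2a9_ag.Mg.G001
import Pool.Agent.Lib.MP_4aa2a9_ag.Mg.G004

section

/-! The reduction modulo `ħ` of a sheaf of modules over a deformation. -/

set_option autoImplicit false

open Set Filter Topology

universe u v w

namespace Pool.Agent.DQ

section defs

variable {V : Type u} [NormedAddCommGroup V] [NormedSpace ℂ V] (𝓐 : Defo.{u, v} V)

/-- an `𝓐`-module without `ħ`-torsion at the points of `S` -/
def TF (F : EMod.{u, v, w} 𝓐.A) (S : Set V) : Prop :=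
  ∀ x ∈ S, ∀ m : F.St x, 𝓐.hb x • m = 0 → m = 0

/-- `F₀` (a sheaf of `𝓞`-modules) is the reduction modulo `ħ` of the sheaf of `𝓐`-modules `F`, by the
maps `ρ` -/
structure IsRed (F : EMod.{u, v, w} 𝓐.A) (F₀ : EMod.{u, u, w} (O V))
    (ρ : ∀ x, F.St x → F₀.St x) : Prop where
  dom : F₀.dom = F.dom
  add : ∀ x ∈ F.dom, ∀ m m', ρ x (m + m') = ρ x m + ρ x m'
  smul : ∀ x ∈ F.dom, ∀ (a : 𝓐.A.St x) (m : F.St x), ρ x (a • m) = 𝓐.red x a • ρ x m
  surj : ∀ x ∈ F.dom, Function.Surjective (ρ x)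
  ker : ∀ x ∈ F.dom, ∀ m, ρ x m = 0 ↔ ∃ m', m = 𝓐.hb x • m'
  at_map : ∀ {s : ∀ x, F.St x} {x : V}, F.At s x → F₀.At (fun y => ρ y (s y)) x

end defs

variable {V : Type u} [NormedAddCommGroup V] [NormedSpace ℂ V] (𝓐 : Defo.{u, v} V)

/-! ### Existence -/

/-- `ħ F` at the points of `F.dom`, everything elsewhere -/
noncomputable def redSub (F : EMod.{u, v, w} 𝓐.A) (x : V) : Submodule (𝓐.A.St x) (F.St x) where
  carrier := {m | x ∈ F.dom → ∃ m', m = 𝓐.hb x • m'}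
  add_mem' := by
    intro a b ha hb hx
    obtain ⟨a', rfl⟩ := ha hx
    obtain ⟨b', rfl⟩ := hb hx
    exact ⟨a' + b', (smul_add _ _ _).symm⟩
  zero_mem' := fun _ => ⟨0, by simp⟩
  smul_mem' := by
    intro c a ha hx
    obtain ⟨a', rfl⟩ := ha hx
    exact ⟨c • a', (𝓐.hb_smul_comm (F.dom_sub hx) c a').symm⟩

theorem mem_redSub {F : EMod.{u, v, w} 𝓐.A} {x : V} (hx : x ∈ F.dom) {m : F.St x} :
    m ∈ redSub 𝓐 F x ↔ ∃ m', m = 𝓐.hb x • m' := ⟨fun h => h hx, fun h _ => h⟩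

theorem redSub_eq_top {F : EMod.{u, v, w} 𝓐.A} {x : V} (hx : x ∉ F.dom) : redSub 𝓐 F x = ⊤ :=
  eq_top_iff.mpr fun _ _ h => absurd h hx

/-- stalk of the reduction -/
def RedSt (F : EMod.{u, v, w} 𝓐.A) (x : V) : Type w := F.St x ⧸ redSub 𝓐 F x

noncomputable instance (F : EMod.{u, v, w} 𝓐.A) (x : V) : AddCommGroup (RedSt 𝓐 F x) :=
  inferInstanceAs (AddCommGroup (F.St x ⧸ redSub 𝓐 F x))

noncomputable instance instRedModA (F : EMod.{u, v, w} 𝓐.A) (x : V) :
    Module (𝓐.A.St x) (RedSt 𝓐 F x) :=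
  inferInstanceAs (Module (𝓐.A.St x) (F.St x ⧸ redSub 𝓐 F x))

/-- the reduction map -/
noncomputable def redMk (F : EMod.{u, v, w} 𝓐.A) (x : V) : F.St x →ₗ[𝓐.A.St x] RedSt 𝓐 F x :=
  (redSub 𝓐 F x).mkQ

theorem redMk_surj (F : EMod.{u, v, w} 𝓐.A) (x : V) : Function.Surjective (redMk 𝓐 F x) :=
  Submodule.mkQ_surjective _

theorem redMk_zero {F : EMod.{u, v, w} 𝓐.A} {x : V} {m : F.St x} :
    redMk 𝓐 F x m = 0 ↔ m ∈ redSub 𝓐 F x := Submodule.Quotient.mk_eq_zero _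

theorem red_subsingleton {F : EMod.{u, v, w} 𝓐.A} {x : V} (hx : x ∉ F.dom) (a b : RedSt 𝓐 F x) :
    a = b := by
  obtain ⟨a, rfl⟩ := redMk_surj 𝓐 F x a
  obtain ⟨b, rfl⟩ := redMk_surj 𝓐 F x b
  rw [← sub_eq_zero, ← map_sub, redMk_zero, redSub_eq_top 𝓐 hx]
  exact Submodule.mem_top

/-- lift of a germ -/
noncomputable def lft (x : V) (f : (O V).St x) : 𝓐.A.St x :=
  open Classical in if hx : x ∈ 𝓐.A.dom then (𝓐.red_surj x hx f).choose else 0

theorem red_lft {x : V} (hx : x ∈ 𝓐.A.dom) (f : (O V).St x) : 𝓐.red x (lft 𝓐 x f) = f := by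
  rw [lft, dif_pos hx]
  exact (𝓐.red_surj x hx f).choose_spec

theorem red_smul_eq {F : EMod.{u, v, w} 𝓐.A} {x : V} {a b : 𝓐.A.St x}
    (h : x ∈ 𝓐.A.dom → 𝓐.red x a = 𝓐.red x b) (m : RedSt 𝓐 F x) : a • m = b • m := by
  by_cases hx : x ∈ F.dom
  · have hxd := F.dom_sub hx
    obtain ⟨m, rfl⟩ := redMk_surj 𝓐 F x m
    rw [← sub_eq_zero, ← sub_smul, ← map_smul, redMk_zero, mem_redSub 𝓐 hx]
    have h1 : 𝓐.redHom hxd (a - b) = 0 := by
      rw [map_sub, sub_eq_zero]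
      exact h hxd
    obtain ⟨c, hc⟩ := (𝓐.red_ker x hxd _).1 h1
    exact ⟨c • m, by rw [hc, mul_smul]⟩
  · exact red_subsingleton 𝓐 hx _ _

noncomputable instance instRedModO (F : EMod.{u, v, w} 𝓐.A) (x : V) :
    Module ((O V).St x) (RedSt 𝓐 F x) where
  smul f m := lft 𝓐 x f • m
  one_smul m := by
    change lft 𝓐 x 1 • m = m
    conv_rhs => rw [← one_smul (𝓐.A.St x) m]
    exact red_smul_eq 𝓐 (fun hx => by rw [red_lft 𝓐 hx, 𝓐.red_one x hx]) m
  mul_smul f g m := by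
    change lft 𝓐 x (f * g) • m = lft 𝓐 x f • lft 𝓐 x g • m
    rw [smul_smul]
    exact red_smul_eq 𝓐 (fun hx => by
      rw [red_lft 𝓐 hx, 𝓐.red_mul x hx, red_lft 𝓐 hx, red_lft 𝓐 hx]) m
  smul_zero f := smul_zero (lft 𝓐 x f)
  smul_add f m m' := smul_add (lft 𝓐 x f) m m'
  add_smul f g m := by
    change lft 𝓐 x (f + g) • m = lft 𝓐 x f • m + lft 𝓐 x g • m
    rw [← add_smul]
    exact red_smul_eq 𝓐 (fun hx => by
      rw [red_lft 𝓐 hx, 𝓐.red_add x hx, red_lft 𝓐 hx, red_lft 𝓐 hx]) m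
  zero_smul m := by
    change lft 𝓐 x 0 • m = 0
    conv_rhs => rw [← zero_smul (𝓐.A.St x) m]
    exact red_smul_eq 𝓐 (fun hx => by rw [red_lft 𝓐 hx, 𝓐.red_zero' hx]) m

theorem redO_smul {F : EMod.{u, v, w} 𝓐.A} {x : V} (_hx : x ∈ 𝓐.A.dom) (a : 𝓐.A.St x)
    (m : RedSt 𝓐 F x) : 𝓐.red x a • m = a • m :=
  red_smul_eq 𝓐 (a := lft 𝓐 x (𝓐.red x a)) (fun hx => red_lft 𝓐 hx _) m

theorem redSub_open (F : EMod.{u, v, w} 𝓐.A) {x : V} (hx : x ∈ F.dom) {s : (x : V) → F.St x}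
    (hs : F.At s x) (h : s x ∈ redSub 𝓐 F x) : ∀ᶠ y in 𝓝 x, s y ∈ redSub 𝓐 F y := by
  obtain ⟨m, hm⟩ := h hx
  obtain ⟨t, ht, rfl⟩ := F.surj x hx m
  have h1 : ∀ᶠ y in 𝓝 x, s y = 𝓐.hb y • t y :=
    F.inj hs (F.smul (𝓐.hb_at x (F.dom_sub hx)) ht) hm
  filter_upwards [h1] with y hy _
  exact ⟨t y, hy⟩

/-- the reduction -/
noncomputable def redMod (F : EMod.{u, v, w} 𝓐.A) : EMod.{u, u, w} (O V) where
  dom := F.dom
  dom_sub := fun _ _ => mem_univ _
  St := RedSt 𝓐 F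
  grp := fun _ => inferInstance
  mod := instRedModO 𝓐 F
  At s x := x ∈ F.dom ∧ ∃ t : (x : V) → F.St x, F.At t x ∧ ∀ᶠ y in 𝓝 x, s y = redMk 𝓐 F y (t y)
  mem_dom h := h.1
  ev := by
    rintro s x ⟨hx, t, ht, h⟩
    filter_upwards [F.isOpen_dom.mem_nhds hx, F.ev ht, eventually_eventually_nhds.mpr h]
      with y h0 h1 h2
    exact ⟨h0, t, h1, h2⟩
  congr := by
    rintro s s' x ⟨hx, t, ht, h⟩ h'
    refine ⟨hx, t, ht, ?_⟩
    filter_upwards [h, h'] with y h1 h2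
    rw [← h2, h1]
  inj := by
    rintro s s' x ⟨hx, t, ht, h⟩ ⟨_, t', ht', h'⟩ e
    have e1 : (t - t') x ∈ redSub 𝓐 F x := by
      rw [← redMk_zero, Pi.sub_apply, map_sub, ← h.self_of_nhds, ← h'.self_of_nhds, e, sub_self]
    filter_upwards [h, h', redSub_open 𝓐 F hx (F.sub' ht ht') e1] with y a b c
    rw [a, b, ← sub_eq_zero, ← map_sub, redMk_zero]
    exact c
  surj := by
    intro x hx g
    obtain ⟨m, rfl⟩ := redMk_surj 𝓐 F x g
    obtain ⟨s, hs, rfl⟩ := F.surj x hx m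
    exact ⟨fun y => redMk 𝓐 F y (s y), ⟨hx, s, hs, Eventually.of_forall fun _ => rfl⟩, rfl⟩
  zero x hx := ⟨hx, 0, F.zero x hx, Eventually.of_forall fun y => (map_zero _).symm⟩
  add := by
    rintro s s' x ⟨hx, t, ht, h⟩ ⟨_, t', ht', h'⟩
    refine ⟨hx, t + t', F.add ht ht', ?_⟩
    filter_upwards [h, h'] with y h1 h2
    rw [Pi.add_apply, h1, h2, Pi.add_apply, map_add]
  smul := by
    rintro a s x ha ⟨hx, t, ht, h⟩
    obtain ⟨α, hα, hαa⟩ := 𝓐.lift_near (F.dom_sub hx) ha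
    refine ⟨hx, fun y => α y • t y, F.smul hα ht, ?_⟩
    filter_upwards [h, hαa, 𝓐.A.isOpen_dom.mem_nhds (F.dom_sub hx)] with y h1 h2 h3
    rw [h1, ← h2, map_smul]
    exact redO_smul 𝓐 h3 _ _

theorem isRed_redMod (F : EMod.{u, v, w} 𝓐.A) :
    IsRed 𝓐 F (redMod 𝓐 F) (fun x => redMk 𝓐 F x) where
  dom := rfl
  add _ _ _ _ := map_add _ _ _
  smul x hx a m := (map_smul (redMk 𝓐 F x) a m).trans (redO_smul 𝓐 (F.dom_sub hx) a _).symm
  surj x _ := redMk_surj 𝓐 F x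
  ker _ hx _ := (redMk_zero 𝓐).trans (mem_redSub 𝓐 hx)
  at_map h := ⟨F.mem_dom h, _, h, Eventually.of_forall fun _ => rfl⟩

/-- the reduction exists -/
theorem exists_isRed (F : EMod.{u, v, w} 𝓐.A) :
    ∃ (F₀ : EMod.{u, u, w} (O V)) (ρ : ∀ x, F.St x → F₀.St x), IsRed 𝓐 F F₀ ρ :=
  ⟨_, _, isRed_redMod 𝓐 F⟩

/-! ### First properties -/

namespace IsRed

variable {𝓐} {F : EMod.{u, v, w} 𝓐.A} {F₀ : EMod.{u, u, w} (O V)} {ρ : ∀ x, F.St x → F₀.St x}
  (h : IsRed 𝓐 F F₀ ρ)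

/-- the reduction map as an additive map -/
def hom {x : V} (hx : x ∈ F.dom) : F.St x →+ F₀.St x where
  toFun := ρ x
  map_zero' := (h.ker x hx 0).2 ⟨0, by simp⟩
  map_add' := h.add x hx

include h

theorem map_sub {x : V} (hx : x ∈ F.dom) (m m' : F.St x) : ρ x (m - m') = ρ x m - ρ x m' :=
  _root_.map_sub (h.hom hx) m m'

theorem map_neg {x : V} (hx : x ∈ F.dom) (m : F.St x) : ρ x (-m) = - ρ x m :=
  _root_.map_neg (h.hom hx) m

theorem map_zero {x : V} (hx : x ∈ F.dom) : ρ x 0 = 0 := _root_.map_zero (h.hom hx)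

theorem comb {x : V} (hx : x ∈ F.dom) {ι : Type*} [Fintype ι] (c : ι → 𝓐.A.St x) (g : ι → F.St x) :
    ρ x (∑ i, c i • g i) = ∑ i, 𝓐.red x (c i) • ρ x (g i) := by
  have := map_sum (h.hom hx) (fun i => c i • g i) Finset.univ
  exact this.trans (Finset.sum_congr rfl fun i _ => h.smul x hx _ _)

theorem eq_iff {x : V} (hx : x ∈ F.dom) (m m' : F.St x) :
    ρ x m = ρ x m' ↔ ∃ l, m = m' + 𝓐.hb x • l := by
  rw [← sub_eq_zero, ← h.map_sub hx, h.ker x hx]
  refine exists_congr fun l => ?_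
  rw [sub_eq_iff_eq_add, add_comm]

/-- sections of the reduction lift locally -/
theorem lift_near {x : V} {s : (x : V) → F₀.St x} (hs : F₀.At s x) :
    ∃ t : (x : V) → F.St x, F.At t x ∧ ∀ᶠ y in 𝓝 x, ρ y (t y) = s y := by
  have hx : x ∈ F.dom := h.dom ▸ F₀.mem_dom hs
  obtain ⟨m, hm⟩ := h.surj x hx (s x)
  obtain ⟨t, ht, htm⟩ := F.surj x hx m
  exact ⟨t, ht, F₀.inj (h.at_map ht) hs (by rw [htm, hm])⟩

/-- generators reduce to generators -/
theorem span_eq_top {x : V} (hx : x ∈ F.dom) {ι : Type*} [Fintype ι] {g : ι → F.St x}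
    (hg : Submodule.span (𝓐.A.St x) (range g) = ⊤) :
    Submodule.span ((O V).St x) (range fun i => ρ x (g i)) = ⊤ := by
  rw [eq_top_iff]
  intro m _
  obtain ⟨m, rfl⟩ := h.surj x hx m
  have : m ∈ Submodule.span (𝓐.A.St x) (range g) := by
    rw [hg]
    exact Submodule.mem_top
  obtain ⟨c, rfl⟩ := mem_span_fam.mp this
  rw [h.comb hx]
  exact mem_span_fam.mpr ⟨_, rfl⟩

end IsRed

end Pool.Agent.DQ
end

section

/-! Campaign DQ, module H: Hartogs figures, shells, the Hartogs property (definitions). -/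

set_option autoImplicit false

open Set Filter Topology Matrix

universe u v w

namespace Pool.Agent.DQ

variable {V : Type u} [NormedAddCommGroup V] [NormedSpace ℂ V]

/-- the Hartogs figure in the polydisc `box κ c (-1) R`: `d + 1` directions `S`, inner radii `r`,
smaller polydisc `(c', R')` in the other directions -/
def hfig {n : ℕ} (κ : V ≃L[ℂ] (Fin n → ℂ)) (c : Fin n → ℂ) (R : Fin n → ℝ) (S : Finset (Fin n))
    (r : Fin n → ℝ) (c' : Fin n → ℂ) (R' : Fin n → ℝ) : Set V :=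
  {x | x ∈ box κ c (-1) R ∧ ((∃ i ∈ S, r i < ‖κ x i - c i‖) ∨ ∀ i ∉ S, ‖κ x i - c' i‖ < R' i)}

/-- the shell in the polydisc `box κ c (-1) R` in the directions `S`, with inner radii `r` -/
def shell {n : ℕ} (κ : V ≃L[ℂ] (Fin n → ℂ)) (c : Fin n → ℂ) (R : Fin n → ℝ) (S : Finset (Fin n))
    (r : Fin n → ℝ) : Set V :=
  {x | x ∈ box κ c (-1) R ∧ ∃ i ∈ S, r i < ‖κ x i - c i‖}

/-- admissible data for a Hartogs figure -/
structure HFig {n : ℕ} (c : Fin n → ℂ) (R : Fin n → ℝ) (S : Finset (Fin n))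
    (r : Fin n → ℝ) (c' : Fin n → ℂ) (R' : Fin n → ℝ) : Prop where
  R_pos : ∀ i, 0 < R i
  r_pos : ∀ i ∈ S, 0 < r i ∧ r i < R i
  ball : ∀ i ∉ S, 0 < R' i ∧ Metric.ball (c' i) (R' i) ⊆ Metric.ball (c i) (R i)

/-- the Hartogs property in dimension `d + 1` of a sheaf of sets on the open set `Ω` -/
structure HartogsProp {G : V → Type w} (AtG : ((x : V) → G x) → V → Prop) (d n : ℕ) (Ω : Set V) :
    Prop where
  ev : ∀ s x, AtG s x → ∀ᶠ y in 𝓝 x, AtG s y
  congr : ∀ s t x, AtG s x → (∀ᶠ y in 𝓝 x, s y = t y) → AtG t x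
  inj : ∀ s t x, x ∈ Ω → AtG s x → AtG t x → s x = t x → ∀ᶠ y in 𝓝 x, s y = t y
  exist : ∀ (κ : V ≃L[ℂ] (Fin n → ℂ)) (c : Fin n → ℂ) (R : Fin n → ℝ) (S : Finset (Fin n))
    (r : Fin n → ℝ) (c' : Fin n → ℂ) (R' : Fin n → ℝ), HFig c R S r c' R' → S.card = d + 1 →
    cbox κ c (-1) R ⊆ Ω → ∀ s, (∀ x ∈ hfig κ c R S r c' R', AtG s x) →
    ∃ t, (∀ x ∈ box κ c (-1) R, AtG t x) ∧ ∀ x ∈ hfig κ c R S r c' R', t x = s x
  unique : ∀ (κ : V ≃L[ℂ] (Fin n → ℂ)) (c : Fin n → ℂ) (R : Fin n → ℝ) (S : Finset (Fin n))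
    (r : Fin n → ℝ), (∀ i, 0 < R i) → (∀ i ∈ S, 0 < r i ∧ r i < R i) → S.card = d + 1 →
    cbox κ c (-1) R ⊆ Ω → ∀ s t, (∀ x ∈ box κ c (-1) R, AtG s x) →
    (∀ x ∈ box κ c (-1) R, AtG t x) → (∀ x ∈ shell κ c R S r, s x = t x) →
    ∀ x ∈ box κ c (-1) R, s x = t x

end Pool.Agent.DQ
end

section

/-!
# DQ, module X: Banach algebras with a splitting, Toeplitz operators

`B` is a Banach algebra (Laurent series in `z`), `P` the projection onto the negative part,
`F N` the projection onto the indices `-N, …, -1`. The Toeplitz operator of `g` is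
`Tt g = (1 - P) + P g P`.
-/

set_option autoImplicit false

open Set Filter Topology

namespace Pool.Agent.DQ.X

/-- A splitting of a Banach algebra. -/
structure Split (B : Type*) [NormedRing B] [NormedAlgebra ℂ B] where
  /-- the negative part -/
  P : B →L[ℂ] B
  P_P : ∀ x, P (P x) = P x
  P_one : P 1 = 0
  plus_mul : ∀ {a b : B}, P a = 0 → P b = 0 → P (a * b) = 0
  /-- the part with indices `-N, …, -1` -/
  F : ℕ → B →L[ℂ] B
  F_F : ∀ N x, F N (F N x) = F N x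
  P_F : ∀ N x, P (F N x) = F N x
  F_P : ∀ N x, F N (P x) = F N x
  fin : ∀ N, FiniteDimensional ℂ (LinearMap.range (F N : B →ₗ[ℂ] B))
  tailL : ∀ {K : Set B}, IsCompact K → ∀ {ε : ℝ}, 0 < ε → ∃ N₀ : ℕ, ∀ N ≥ N₀, ∀ b ∈ K, ∀ x : B,
    ‖P (b * (x - P x)) - F N (b * (x - P x))‖ ≤ ε * ‖x‖
  tailR : ∀ {K : Set B}, IsCompact K → ∀ {ε : ℝ}, 0 < ε → ∃ N₀ : ℕ, ∀ N ≥ N₀, ∀ b ∈ K, ∀ x : B,
    ‖b * (P x - F N x) - P (b * (P x - F N x))‖ ≤ ε * ‖x‖

variable {B : Type*} [NormedRing B] [NormedAlgebra ℂ B]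

/-- multiplication from the left -/
noncomputable def mulL (b : B) : B →L[ℂ] B := ContinuousLinearMap.mul ℂ B b

@[simp] theorem mulL_apply (b x : B) : mulL b x = b * x := rfl

theorem mulL_mul (a b : B) : mulL (a * b) = mulL a * mulL b :=
  ContinuousLinearMap.ext fun x => mul_assoc a b x

theorem mulL_one : mulL (1 : B) = 1 := ContinuousLinearMap.ext fun x => one_mul x

variable (S : Split B)

/-- the Toeplitz operator of `g` (the identity on the nonnegative part) -/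
noncomputable def Tt (g : B) : B →L[ℂ] B := (1 - S.P) + S.P * mulL g * S.P

/-- the solution of `P (g (1 + τ)) = 0`, `τ` in the negative part -/
noncomputable def tau (g : B) : B := -(Ring.inverse (Tt S g)) (S.P g)

theorem PP : S.P * S.P = S.P := ContinuousLinearMap.ext fun x => S.P_P x

theorem PF (N : ℕ) : S.P * S.F N = S.F N := ContinuousLinearMap.ext fun x => S.P_F N x

theorem FP (N : ℕ) : S.F N * S.P = S.F N := ContinuousLinearMap.ext fun x => S.F_P N x

theorem FF (N : ℕ) : S.F N * S.F N = S.F N := ContinuousLinearMap.ext fun x => S.F_F N x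

theorem P_mul_Q {a : B} (ha : S.P a = 0) : S.P * mulL a * (1 - S.P) = 0 := by
  ext x
  change S.P (a * (x - S.P x)) = 0
  apply S.plus_mul ha
  rw [map_sub, S.P_P, sub_self]

theorem Tt_one : Tt S (1 : B) = 1 := by
  unfold Tt
  rw [mulL_one, mul_one, PP]
  abel

/-- Toeplitz operators are multiplicative if the left factor is in the nonnegative part. -/
theorem Tt_mul {a : B} (b : B) (ha : S.P a = 0) : Tt S (a * b) = Tt S a * Tt S b := by
  have h1 := P_mul_Q S ha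
  have h2 : S.P * mulL a = S.P * mulL a * S.P := by
    have : S.P * mulL a * (1 - S.P) = S.P * mulL a - S.P * mulL a * S.P := by
      rw [mul_sub, mul_one]
    rw [this, sub_eq_zero] at h1
    exact h1
  unfold Tt
  rw [mulL_mul]
  have e1 : (1 - S.P) * (1 - S.P) = 1 - S.P := by
    rw [sub_mul, one_mul, mul_sub, mul_one, PP]
    abel
  have e2 : (1 - S.P) * (S.P * mulL b * S.P) = 0 := by
    rw [← mul_assoc, ← mul_assoc, sub_mul, one_mul, PP, sub_self, zero_mul, zero_mul]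
  have e3 : S.P * mulL a * S.P * (1 - S.P) = 0 := by
    rw [mul_assoc, mul_sub, mul_one, PP, sub_self, mul_zero]
  have e4 : S.P * mulL a * S.P * (S.P * mulL b * S.P) = S.P * (mulL a * mulL b) * S.P := by
    calc S.P * mulL a * S.P * (S.P * mulL b * S.P)
        = S.P * mulL a * (S.P * S.P) * mulL b * S.P := by simp only [mul_assoc]
      _ = (S.P * mulL a * S.P) * mulL b * S.P := by rw [PP]
      _ = (S.P * mulL a) * mulL b * S.P := by rw [← h2]
      _ = S.P * (mulL a * mulL b) * S.P := by simp only [mul_assoc]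
  rw [add_mul, mul_add, mul_add, e1, e2, e3, e4]
  abel

end Pool.Agent.DQ.X
end

section

/-! # Toeplitz operators: the Birkhoff equation -/

set_option autoImplicit false

open Set Filter Topology

namespace Pool.Agent.DQ.X

variable {B : Type*} [NormedRing B] [NormedAlgebra ℂ B] (S : Split B)

theorem Tt_inv {a a' : B} (h : a * a' = 1) (h' : a' * a = 1) (ha : S.P a = 0)
    (ha' : S.P a' = 0) : Tt S a * Tt S a' = 1 ∧ Tt S a' * Tt S a = 1 := by
  rw [← Tt_mul S _ ha, ← Tt_mul S _ ha', h, h', Tt_one]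
  exact ⟨rfl, rfl⟩

theorem Tt_apply (g x : B) : Tt S g x = (x - S.P x) + S.P (g * S.P x) := rfl

theorem Tt_tau {g : B} (hg : IsUnit (Tt S g)) : Tt S g (tau S g) = -S.P g := by
  have h1 : Tt S g * Ring.inverse (Tt S g) = 1 := Ring.mul_inverse_cancel _ hg
  have h2 : Tt S g (Ring.inverse (Tt S g) (S.P g)) = S.P g :=
    congrArg (fun A : B →L[ℂ] B => A (S.P g)) h1
  unfold tau
  rw [map_neg, h2]

/-- The solution is in the negative part. -/
theorem P_tau {g : B} (hg : IsUnit (Tt S g)) : S.P (tau S g) = tau S g := by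
  have h1 := Tt_tau S hg
  rw [Tt_apply] at h1
  have h2 := congrArg S.P h1
  have h3 := congrArg (fun x => x - S.P x) h1
  simp only [map_add, map_sub, map_neg, S.P_P, sub_self, zero_add] at h3
  have h4 : tau S g - S.P (tau S g) = 0 := by
    rw [← h3]
    abel
  rw [sub_eq_zero] at h4
  exact h4.symm

/-- The Birkhoff equation. -/
theorem P_mul_tau {g : B} (hg : IsUnit (Tt S g)) : S.P (g * (1 + tau S g)) = 0 := by
  have h1 := Tt_tau S hg
  rw [Tt_apply, P_tau S hg, sub_self, zero_add] at h1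
  rw [mul_add, mul_one, map_add, h1, add_neg_cancel]

/-- Uniqueness. -/
theorem tau_unique {g τ : B} (hg : IsUnit (Tt S g)) (h1 : S.P τ = τ)
    (h2 : S.P (g * (1 + τ)) = 0) : τ = tau S g := by
  have h3 : Tt S g τ = -S.P g := by
    rw [Tt_apply, h1, sub_self, zero_add]
    rw [mul_add, mul_one, map_add] at h2
    rw [eq_neg_iff_add_eq_zero, add_comm]
    exact h2
  have h4 : Ring.inverse (Tt S g) * Tt S g = 1 := Ring.inverse_mul_cancel _ hg
  have h5 : Ring.inverse (Tt S g) (Tt S g τ) = τ :=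
    congrArg (fun A : B →L[ℂ] B => A τ) h4
  rw [h3, map_neg] at h5
  exact h5.symm

/-- Transformation by a factor in the nonnegative part. -/
theorem tau_mul {a a' g : B} (h : a * a' = 1) (h' : a' * a = 1) (ha : S.P a = 0)
    (ha' : S.P a' = 0) (hg : IsUnit (Tt S g)) :
    IsUnit (Tt S (a * g)) ∧ tau S (a * g) = tau S g := by
  have hu : IsUnit (Tt S a) :=
    ⟨⟨Tt S a, Tt S a', (Tt_inv S h h' ha ha').1, (Tt_inv S h h' ha ha').2⟩, rfl⟩
  have hag : IsUnit (Tt S (a * g)) := by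
    rw [Tt_mul S g ha]
    exact hu.mul hg
  refine ⟨hag, (tau_unique S hag (P_tau S hg) ?_).symm⟩
  rw [mul_assoc]
  exact S.plus_mul ha (P_mul_tau S hg)

section hol

variable {E : Type*} [NormedAddCommGroup E] [NormedSpace ℂ E]

theorem Tt_differentiableOn {g : E → B} {U : Set E} (hg : DifferentiableOn ℂ g U) :
    DifferentiableOn ℂ (fun p => Tt S (g p)) U := by
  unfold Tt
  have h1 : DifferentiableOn ℂ (fun p => mulL (g p)) U :=
    (ContinuousLinearMap.mul ℂ B).differentiable.comp_differentiableOn hg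
  exact (((differentiableOn_const _).mul h1).mul (differentiableOn_const _)).const_add _

theorem Tt_continuous : Continuous fun g : B => Tt S g := by
  unfold Tt
  have h1 : Continuous fun g : B => mulL g := (ContinuousLinearMap.mul ℂ B).continuous
  exact continuous_const.add ((continuous_const.mul h1).mul continuous_const)

theorem tau_differentiableOn [CompleteSpace B] {g : E → B} {U : Set E} (hU : IsOpen U)
    (hg : DifferentiableOn ℂ g U) (hu : ∀ p ∈ U, IsUnit (Tt S (g p))) :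
    DifferentiableOn ℂ (fun p => tau S (g p)) U := by
  intro p hp
  have h1 := (Tt_differentiableOn S hg).differentiableAt (hU.mem_nhds hp)
  have h2 : DifferentiableAt ℂ (fun p => Ring.inverse (Tt S (g p))) p := by
    have h3 : DifferentiableAt ℂ (Ring.inverse : (B →L[ℂ] B) → (B →L[ℂ] B)) (Tt S (g p)) :=
      differentiableAt_inverse (hu p hp)
    exact h3.comp p h1
  have h3 : DifferentiableAt ℂ (fun p => S.P (g p)) p :=
    S.P.differentiableAt.comp p (hg.differentiableAt (hU.mem_nhds hp))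
  exact (h2.clm_apply h3).neg.differentiableWithinAt

end hol

end Pool.Agent.DQ.X
end

section

/-! Campaign DQ, module W, file WLine: the germ ring of a product `V × ℂ` as an algebra over the germ ring of `V`;
regular germs; statements of Weierstrass theory in terms of germs (definitions). -/

set_option autoImplicit false

open Metric Set Filter Topology Polynomial

namespace Pool.Agent.DQ.W

variable {V : Type*} [NormedAddCommGroup V] [NormedSpace ℂ V]

theorem holAt_fst (p : V × ℂ) : HolAt (Prod.fst : V × ℂ → V) p :=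
  Eventually.of_forall fun _ => differentiableAt_fst

theorem holAt_snd (p : V × ℂ) : HolAt (Prod.snd : V × ℂ → ℂ) p :=
  Eventually.of_forall fun _ => differentiableAt_snd

/-- germs on `V` as germs on `V × ℂ` -/
noncomputable def iota (v₀ : V) (t₀ : ℂ) : OO v₀ →+* OO ((v₀, t₀) : V × ℂ) :=
  pull (Prod.fst : V × ℂ → V) (x := (v₀, t₀)) (holAt_fst _)

/-- Evaluation of polynomials over the germ ring of `V` at the last coordinate. -/
noncomputable def ev (v₀ : V) (t₀ : ℂ) : (OO v₀)[X] →+* OO ((v₀, t₀) : V × ℂ) :=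
  eval₂RingHom (iota v₀ t₀) (gm Prod.snd (holAt_snd (v₀, t₀)))

theorem iota_gm {v₀ : V} {t₀ : ℂ} {a : V → ℂ} (ha : HolAt a v₀) :
    iota v₀ t₀ (gm a ha) = gm (fun p : V × ℂ => a p.1) (ha.comp (f := Prod.fst) (x := (v₀, t₀)) (holAt_fst _)) := rfl

theorem ev_C {v₀ : V} {t₀ : ℂ} (a : OO v₀) : ev v₀ t₀ (C a) = iota v₀ t₀ a := by
  simp [ev]

theorem ev_X {v₀ : V} {t₀ : ℂ} : ev v₀ t₀ (X : (OO v₀)[X]) = gm Prod.snd (holAt_snd (v₀, t₀)) := by
  simp [ev]

/-- A germ on `V × ℂ` whose restriction to the line `{v₀} × ℂ` vanishes exactly to order `k` at `t₀`. -/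
def RegG (k : ℕ) {v₀ : V} {t₀ : ℂ} (g : OO ((v₀, t₀) : V × ℂ)) : Prop :=
  ∃ (f : V × ℂ → ℂ) (hf : HolAt f (v₀, t₀)), g = gm f hf ∧ Reg k f v₀ t₀

/-- Distinguished polynomial of degree `k` at `t₀`: monic with value polynomial `(X - t₀) ^ k`. -/
def Dist (k : ℕ) {v₀ : V} (t₀ : ℂ) (P : (OO v₀)[X]) : Prop :=
  P.Monic ∧ P.map (val v₀) = (X - C t₀) ^ k

theorem Dist.natDegree_eq {k : ℕ} {v₀ : V} {t₀ : ℂ} {P : (OO v₀)[X]} (h : Dist k t₀ P) : P.natDegree = k := by
  have h1 : (P.map (val v₀)).natDegree = P.natDegree := h.1.natDegree_map _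
  rw [← h1, h.2]
  simp

end Pool.Agent.DQ.W
end

section

/-! Campaign DQ, module W, file WEv: representatives of polynomials over the germ ring. -/

set_option autoImplicit false

open Metric Set Filter Topology Polynomial

namespace Pool.Agent.DQ.W

variable {V : Type*} [NormedAddCommGroup V] [NormedSpace ℂ V]

/-- Representatives of all coefficients.

Proof. `choose` from `exists_gm`. -/
theorem exists_coeff {v₀ : V} (P : (OO v₀)[X]) :
    ∃ (c : ℕ → V → ℂ) (hc : ∀ i, HolAt (c i) v₀), ∀ i, P.coeff i = gm (c i) (hc i) := by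
  have h := fun i => exists_gm (P.coeff i)
  choose c hc h using h
  exact ⟨c, hc, h⟩

/-- The evaluation of a polynomial is the germ of `∑ c i v * t ^ i`.

Proof. `ev P = ∑_{i<n} iota (P.coeff i) * (gm snd) ^ i` (`Polynomial.eval₂_eq_sum_range'`), then `iota_gm`, `gm_pow`,
`gm_mul`, `gm_sum`; the final equality of germs is `gm_eq` with equal functions. -/
theorem ev_eq {v₀ : V} {t₀ : ℂ} (P : (OO v₀)[X]) {n : ℕ} (hn : P.natDegree < n) {c : ℕ → V → ℂ}
    (hc : ∀ i, HolAt (c i) v₀) (h : ∀ i < n, P.coeff i = gm (c i) (hc i))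
    (hF : HolAt (fun p : V × ℂ => ∑ i ∈ Finset.range n, c i p.1 * p.2 ^ i) (v₀, t₀)) :
    ev v₀ t₀ P = gm (fun p : V × ℂ => ∑ i ∈ Finset.range n, c i p.1 * p.2 ^ i) hF := by
  have h1 : ev v₀ t₀ P = ∑ i ∈ Finset.range n,
      iota v₀ t₀ (P.coeff i) * (gm Prod.snd (holAt_snd (v₀, t₀))) ^ i := by
    unfold ev
    rw [coe_eval₂RingHom, eval₂_eq_sum_range' _ hn]
  have hterm : ∀ i, HolAt (fun p : V × ℂ => c i p.1 * p.2 ^ i) (v₀, t₀) := fun i =>
    ((hc i).comp (f := Prod.fst) (x := (v₀, t₀)) (holAt_fst _)).mul ((holAt_snd _).pow i)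
  have h2 : ∀ i ∈ Finset.range n,
      iota v₀ t₀ (P.coeff i) * (gm Prod.snd (holAt_snd (v₀, t₀))) ^ i = gm _ (hterm i) := by
    intro i hi
    rw [h i (Finset.mem_range.1 hi), iota_gm, gm_pow, gm_mul]
  rw [h1, Finset.sum_congr rfl h2, gm_sum]

/-- Constants as germs. -/
noncomputable def cst {E : Type*} [NormedAddCommGroup E] [NormedSpace ℂ E] (x : E) : ℂ →+* OO x where
  toFun c := gm (fun _ => c) (holAt_const c x)
  map_one' := rfl
  map_mul' _ _ := rfl
  map_zero' := rfl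
  map_add' _ _ := rfl

/-- Shifted polynomials: `ev (∑_{i<k} C (gm (r i)) * (X - C t₀) ^ i)` is the germ of `∑ r i v * (t - t₀) ^ i`, and the
polynomial has degree `< k`.

Proof. First part: `map_sum`, `map_mul`, `map_pow`, `map_sub`, `ev_C`, `ev_X`, `iota_gm`, `gm_sub`, `gm_pow`, `gm_mul`, `gm_sum`,
`gm_eq`. Second part: each term has degree `≤ i < k` (`Polynomial.degree_sum_le_of_forall_le` or
`Polynomial.degree_C_mul_le`, `degree_pow_le`, `degree_X_sub_C`); for `k = 0` the sum is `0` and `degree 0 = ⊥`. -/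
theorem ev_shift {v₀ : V} {t₀ : ℂ} (k : ℕ) {r : ℕ → V → ℂ} (hr : ∀ i, HolAt (r i) v₀)
    (hF : HolAt (fun p : V × ℂ => ∑ i ∈ Finset.range k, r i p.1 * (p.2 - t₀) ^ i) (v₀, t₀)) :
    ev v₀ t₀ (∑ i ∈ Finset.range k, C (gm (r i) (hr i)) * (X - C (cst v₀ t₀)) ^ i) =
      gm (fun p : V × ℂ => ∑ i ∈ Finset.range k, r i p.1 * (p.2 - t₀) ^ i) hF ∧
    (∑ i ∈ Finset.range k, C (gm (r i) (hr i)) * (X - C (cst v₀ t₀)) ^ i : (OO v₀)[X]).degree < k := by
  constructor
  · have hterm : ∀ i, HolAt (fun p : V × ℂ => r i p.1 * (p.2 - t₀) ^ i) (v₀, t₀) := fun i =>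
      ((hr i).comp (f := Prod.fst) (x := (v₀, t₀)) (holAt_fst _)).mul
        (((holAt_snd _).sub (holAt_const t₀ _)).pow i)
    have h2 : ∀ i ∈ Finset.range k,
        ev v₀ t₀ (C (gm (r i) (hr i)) * (X - C (cst v₀ t₀)) ^ i) = gm _ (hterm i) := by
      intro i _
      have h3 : iota v₀ t₀ (cst v₀ t₀) = gm (fun _ : V × ℂ => t₀) (holAt_const t₀ _) := rfl
      rw [map_mul, map_pow, map_sub, ev_C, ev_C, ev_X, iota_gm, h3, gm_sub, gm_pow, gm_mul]
    rw [map_sum, Finset.sum_congr rfl h2, gm_sum]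
  · refine (degree_sum_le _ _).trans_lt ((Finset.sup_lt_iff (WithBot.bot_lt_coe k)).2 ?_)
    intro i hi
    rw [Finset.mem_range] at hi
    have h1 : (C (gm (r i) (hr i)) * (X - C (cst v₀ t₀)) ^ i : (OO v₀)[X]).degree ≤ (i : ℕ) := by
      refine ((degree_mul_le _ _).trans (add_le_add degree_C_le le_rfl)).trans ?_
      rw [zero_add]
      have h4 := degree_pow_le_of_le (a := 1) i (degree_X_sub_C_le (cst v₀ t₀))
      simpa using h4
    exact h1.trans_lt (WithBot.coe_lt_coe.2 hi)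

/-- Every polynomial of degree `< k` is of the shifted form.

Proof. Taylor expansion: `P.comp (X + C b)` with `b := cst v₀ t₀` has degree `< k`
(`Polynomial.natDegree_comp`, or `Polynomial.taylor`: `Polynomial.natDegree_taylor`), so it is `∑_{i<k} C (a i) * X ^ i`
(`Polynomial.as_sum_range'`); composing with `X - C b` gives `P = ∑_{i<k} C (a i) * (X - C b) ^ i`
(`Polynomial.comp_assoc`, `sum_comp`). Take representatives of `a i`. For `k = 0`: `P = 0`. -/
theorem exists_shift {v₀ : V} {t₀ : ℂ} (k : ℕ) (P : (OO v₀)[X]) (hP : P.degree < k) :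
    ∃ (r : ℕ → V → ℂ) (hr : ∀ i, HolAt (r i) v₀),
      P = ∑ i ∈ Finset.range k, C (gm (r i) (hr i)) * (X - C (cst v₀ t₀)) ^ i := by
  set b := cst v₀ t₀ with hb
  obtain ⟨c, hc, hcoef⟩ := exists_coeff (taylor b P)
  refine ⟨c, hc, ?_⟩
  rcases Nat.eq_zero_or_pos k with rfl | hk
  · have hP0 : P = 0 := by
      rw [← degree_eq_bot]
      have : P.degree < 0 := by simpa using hP
      exact Nat.WithBot.lt_zero_iff.1 this
    rw [hP0]
    simp
  · have hdeg : (taylor b P).natDegree < k := by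
      rw [natDegree_taylor]
      by_cases hP0 : P = 0
      · rw [hP0, natDegree_zero]
        exact hk
      · exact (natDegree_lt_iff_degree_lt hP0).2 hP
    have h1 := sum_taylor_eq P b
    rw [sum_over_range' _ (by intro n; rw [C_0, zero_mul]) k hdeg] at h1
    rw [← h1]
    exact Finset.sum_congr rfl fun i _ => by rw [hcoef i]

end Pool.Agent.DQ.W
end

section

/-! # Algebraic identities for parametrices -/

set_option autoImplicit false

open Set Filter Topology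

namespace Pool.Agent.DQ.X

variable {B : Type*} [NormedRing B] [NormedAlgebra ℂ B] (S : Split B)

/-- TASK A3c. The algebraic identity behind the left parametrix.
PROOF. `P mulL ξ P mulL m P = P mulL ξ mulL m P - P mulL ξ (1 - P) mulL m P`; sum over `i` and use
`∑ ξ i m i = 1` (`mulL_mul`, `map_sum` for the additive map `ContinuousLinearMap.mul ℂ B`); `(P - F) P = P - F`
(`PP`, `FP`), `P * P = P`. So `∑ (P - F) mulL (ξ i) P (P mulL (m i) P) = (P - F) - ∑ (P - F) mulL (ξ i) (1 - P) mulL (m i) P`,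
and `(1 - P) + (P - F) = 1 - F`. -/
theorem left_identity {p : ℕ} {m ξ : Fin p → B} (h : ∑ i, ξ i * m i = 1) (N : ℕ)
    (T : Fin p → B →L[ℂ] B) :
    (1 - S.P) + ∑ i, (S.F N * T i + (S.P - S.F N) * mulL (ξ i) * S.P) *
        (S.P * mulL (m i) * S.P) =
      (1 - ∑ i, (S.P - S.F N) * mulL (ξ i) * (1 - S.P) * mulL (m i) * S.P) +
        S.F N * (∑ i, T i * (S.P * mulL (m i) * S.P) - 1) := by
  have hterm : ∀ i, (S.F N * T i + (S.P - S.F N) * mulL (ξ i) * S.P) * (S.P * mulL (m i) * S.P) =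
      S.F N * (T i * (S.P * mulL (m i) * S.P)) + ((S.P - S.F N) * mulL (ξ i * m i) * S.P -
        (S.P - S.F N) * mulL (ξ i) * (1 - S.P) * mulL (m i) * S.P) := by
    intro i
    have h1 : (S.P - S.F N) * mulL (ξ i) * S.P * (S.P * mulL (m i) * S.P) =
        (S.P - S.F N) * mulL (ξ i) * S.P * mulL (m i) * S.P := by
      calc (S.P - S.F N) * mulL (ξ i) * S.P * (S.P * mulL (m i) * S.P)
          = (S.P - S.F N) * mulL (ξ i) * (S.P * S.P) * mulL (m i) * S.P := by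
            simp only [mul_assoc]
        _ = (S.P - S.F N) * mulL (ξ i) * S.P * mulL (m i) * S.P := by rw [PP]
    rw [add_mul, h1, mul_assoc (S.F N), mulL_mul]
    congr 1
    have h2 : (S.P - S.F N) * mulL (ξ i) * (1 - S.P) * mulL (m i) * S.P =
        (S.P - S.F N) * mulL (ξ i) * mulL (m i) * S.P -
          (S.P - S.F N) * mulL (ξ i) * S.P * mulL (m i) * S.P := by
      rw [mul_sub, mul_one, sub_mul, sub_mul]
    rw [h2]
    simp only [mul_assoc]
    abel
  have hsum : ∑ i, (S.P - S.F N) * mulL (ξ i * m i) * S.P = S.P - S.F N := by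
    rw [← Finset.sum_mul, ← Finset.mul_sum]
    have h3 : ∑ i, mulL (ξ i * m i) = mulL (∑ i, ξ i * m i) := by
      unfold mulL
      rw [map_sum]
    rw [h3, h, mulL_one, mul_one, sub_mul, PP, FP]
  rw [Finset.sum_congr rfl fun i _ => hterm i, Finset.sum_add_distrib, Finset.sum_sub_distrib,
    hsum, ← Finset.mul_sum, mul_sub, mul_one]
  abel

/-- TASK A3d. The algebraic identity behind the right parametrix.
PROOF. `Tt b (1 - P) = 1 - P`, `Tt b (P mulL b' (P - F)) = P mulL b P mulL b' (P - F) =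
P mulL b mulL b' (P - F) - P mulL b (1 - P) mulL b' (P - F) = (P - F) - ...`; the sum with `Tt b * T * F N` and
`(1 - P) + (P - F) = 1 - F`. -/
theorem right_identity {b b' : B} (h : b * b' = 1) (N : ℕ) (T : B →L[ℂ] B) :
    Tt S b * ((1 - S.P) + T * S.F N + S.P * mulL b' * (S.P - S.F N)) =
      (1 - S.P * mulL b * (1 - S.P) * mulL b' * (S.P - S.F N)) +
        (Tt S b * T - 1) * S.F N := by
  have e1 : Tt S b * (1 - S.P) = 1 - S.P := by
    unfold Tt
    have a1 : (1 - S.P) * (1 - S.P) = 1 - S.P := by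
      rw [sub_mul, one_mul, mul_sub, mul_one, PP]
      abel
    have a2 : S.P * mulL b * S.P * (1 - S.P) = 0 := by
      rw [mul_assoc, mul_sub, mul_one, PP, sub_self, mul_zero]
    rw [add_mul, a1, a2, add_zero]
  have e2 : Tt S b * (S.P * mulL b' * (S.P - S.F N)) =
      (S.P - S.F N) - S.P * mulL b * (1 - S.P) * mulL b' * (S.P - S.F N) := by
    have a1 : (1 - S.P) * (S.P * mulL b' * (S.P - S.F N)) = 0 := by
      rw [← mul_assoc, ← mul_assoc, sub_mul, one_mul, PP, sub_self, zero_mul, zero_mul]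
    have a2 : S.P * mulL b * S.P * (S.P * mulL b' * (S.P - S.F N)) =
        S.P * mulL b * S.P * mulL b' * (S.P - S.F N) := by
      calc S.P * mulL b * S.P * (S.P * mulL b' * (S.P - S.F N))
          = S.P * mulL b * (S.P * S.P) * mulL b' * (S.P - S.F N) := by simp only [mul_assoc]
        _ = S.P * mulL b * S.P * mulL b' * (S.P - S.F N) := by rw [PP]
    have a3 : S.P * mulL b * (1 - S.P) * mulL b' * (S.P - S.F N) =
        S.P * mulL b * mulL b' * (S.P - S.F N) -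
          S.P * mulL b * S.P * mulL b' * (S.P - S.F N) := by
      rw [mul_sub (S.P * mulL b) 1 S.P, mul_one, sub_mul, sub_mul]
    have a4 : S.P * mulL b * mulL b' * (S.P - S.F N) = S.P - S.F N := by
      rw [mul_assoc S.P, ← mulL_mul, h, mulL_one, mul_one, mul_sub, PP, PF]
    unfold Tt
    rw [add_mul, a1, a2, a3, a4]
    abel
  rw [mul_add, mul_add, e1, e2, ← mul_assoc, sub_mul, one_mul]
  abel

end Pool.Agent.DQ.X
end

section

/-! # Tails of Toeplitz operators -/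

set_option autoImplicit false

open Set Filter Topology

namespace Pool.Agent.DQ.X

variable {B : Type*} [NormedRing B] [NormedAlgebra ℂ B] (S : Split B)

/-- TASK A3a. Small tails, uniformly on a compact set of parameters (families).
PROOF. `K' i = ξ i '' K` is compact (`IsCompact.image_of_continuousOn`), `m i` is bounded on `K`, `‖m i w‖ ≤ M`
(`IsCompact.exists_bound_of_continuousOn`). For every `i` choose `N₀ i` with `S.tailL (K' i)` and
`ε' = ε / ((p + 1) * (M + 1) * (‖S.P‖ + 1) + 1)` (any `ε'` with `p ε' M ‖S.P‖ ≤ ε`); for `N ≥ max N₀ i`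
the operator in question maps `x` to `∑ i, (P - F N) (ξ i w * (y i - P (y i)))`, `y i = m i w * P x`,
`‖y i‖ ≤ M ‖S.P‖ ‖x‖`, so the norm of the sum is `≤ p ε' M ‖S.P‖ ‖x‖ ≤ ε ‖x‖`
(`ContinuousLinearMap.opNorm_le_bound`). -/
theorem exists_tail {p : ℕ} {K : Set ℂ} (hK : IsCompact K) {m ξ : Fin p → ℂ → B}
    (hm : ∀ i, ContinuousOn (m i) K) (hξ : ∀ i, ContinuousOn (ξ i) K) {ε : ℝ} (hε : 0 < ε) :
    ∃ N₀ : ℕ, ∀ N ≥ N₀, ∀ w ∈ K,
      ‖∑ i, (S.P - S.F N) * mulL (ξ i w) * (1 - S.P) * mulL (m i w) * S.P‖ ≤ ε := by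
  have hM : ∀ i, ∃ M : ℝ, 0 ≤ M ∧ ∀ w ∈ K, ‖m i w‖ ≤ M := by
    intro i
    obtain ⟨M, hM⟩ := hK.exists_bound_of_continuousOn (hm i)
    exact ⟨max M 0, le_max_right _ _, fun w hw => (hM w hw).trans (le_max_left _ _)⟩
  choose M hM0 hM using hM
  set Q : ℝ := ∑ i, M i * ‖S.P‖ with hQ
  have hQ0 : 0 ≤ Q := Finset.sum_nonneg fun i _ => mul_nonneg (hM0 i) (norm_nonneg _)
  have hε' : 0 < ε / (Q + 1) := by positivity
  have hN : ∀ i, ∃ N₀ : ℕ, ∀ N ≥ N₀, ∀ b ∈ ξ i '' K, ∀ x : B,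
      ‖S.P (b * (x - S.P x)) - S.F N (b * (x - S.P x))‖ ≤ ε / (Q + 1) * ‖x‖ := fun i =>
    S.tailL (hK.image_of_continuousOn (hξ i)) hε'
  choose N₀ hN₀ using hN
  refine ⟨Finset.univ.sup N₀, fun N hN w hw => ?_⟩
  refine ContinuousLinearMap.opNorm_le_bound _ hε.le fun x => ?_
  rw [FunLike.coe_sum, Finset.sum_apply]
  have h1 : ∀ i, ‖((S.P - S.F N) * mulL (ξ i w) * (1 - S.P) * mulL (m i w) * S.P) x‖ ≤
      ε / (Q + 1) * (M i * ‖S.P‖ * ‖x‖) := by
    intro i
    have h2 := hN₀ i N ((Finset.le_sup (Finset.mem_univ i)).trans hN) (ξ i w) ⟨w, hw, rfl⟩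
      (m i w * S.P x)
    refine h2.trans (mul_le_mul_of_nonneg_left ?_ hε'.le)
    calc ‖m i w * S.P x‖ ≤ ‖m i w‖ * ‖S.P x‖ := norm_mul_le _ _
      _ ≤ M i * (‖S.P‖ * ‖x‖) :=
        mul_le_mul (hM i w hw) (S.P.le_opNorm x) (norm_nonneg _) (hM0 i)
      _ = M i * ‖S.P‖ * ‖x‖ := by ring
  calc ‖∑ i, ((S.P - S.F N) * mulL (ξ i w) * (1 - S.P) * mulL (m i w) * S.P) x‖
      ≤ ∑ i, ‖((S.P - S.F N) * mulL (ξ i w) * (1 - S.P) * mulL (m i w) * S.P) x‖ :=
        norm_sum_le _ _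
    _ ≤ ∑ i, ε / (Q + 1) * (M i * ‖S.P‖ * ‖x‖) := Finset.sum_le_sum fun i _ => h1 i
    _ = ε / (Q + 1) * Q * ‖x‖ := by
      rw [← Finset.mul_sum, ← Finset.sum_mul, hQ]
      ring
    _ ≤ ε * ‖x‖ := by
      refine mul_le_mul_of_nonneg_right ?_ (norm_nonneg _)
      rw [div_mul_eq_mul_div, div_le_iff₀ (by positivity)]
      nlinarith

/-- TASK A3b. PROOF. As `exists_tail`, with `S.tailR` for the compact set `b' '' K` and a bound of
`b` on `K`: the operator maps `x` to `P (b w * (1 - P) (b' w * (P - F N) x))`. -/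
theorem exists_tail' {K : Set ℂ} (hK : IsCompact K) {b b' : ℂ → B}
    (hb : ContinuousOn b K) (hb' : ContinuousOn b' K) {ε : ℝ} (hε : 0 < ε) :
    ∃ N₀ : ℕ, ∀ N ≥ N₀, ∀ w ∈ K,
      ‖S.P * mulL (b w) * (1 - S.P) * mulL (b' w) * (S.P - S.F N)‖ ≤ ε := by
  obtain ⟨M', hM'⟩ := hK.exists_bound_of_continuousOn hb
  set M : ℝ := max M' 0 with hMdef
  have hM0 : 0 ≤ M := le_max_right _ _
  have hM : ∀ w ∈ K, ‖b w‖ ≤ M := fun w hw => (hM' w hw).trans (le_max_left _ _)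
  set Q : ℝ := ‖S.P‖ * M with hQ
  have hQ0 : 0 ≤ Q := mul_nonneg (norm_nonneg _) hM0
  have hε' : 0 < ε / (Q + 1) := by positivity
  obtain ⟨N₀, hN₀⟩ := S.tailR (hK.image_of_continuousOn hb') hε'
  refine ⟨N₀, fun N hN w hw => ?_⟩
  refine ContinuousLinearMap.opNorm_le_bound _ hε.le fun x => ?_
  have h2 := hN₀ N hN (b' w) ⟨w, hw, rfl⟩ x
  have h3 : (S.P * mulL (b w) * (1 - S.P) * mulL (b' w) * (S.P - S.F N)) x =
      S.P (b w * (b' w * (S.P x - S.F N x) - S.P (b' w * (S.P x - S.F N x)))) := rfl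
  rw [h3]
  set y : B := b' w * (S.P x - S.F N x) - S.P (b' w * (S.P x - S.F N x)) with hy
  calc ‖S.P (b w * y)‖ ≤ ‖S.P‖ * ‖b w * y‖ := S.P.le_opNorm _
    _ ≤ ‖S.P‖ * (‖b w‖ * ‖y‖) := mul_le_mul_of_nonneg_left (norm_mul_le _ _) (norm_nonneg _)
    _ ≤ ‖S.P‖ * (M * (ε / (Q + 1) * ‖x‖)) := by
      refine mul_le_mul_of_nonneg_left ?_ (norm_nonneg _)
      exact mul_le_mul (hM w hw) h2 (norm_nonneg _) hM0
    _ = ε / (Q + 1) * Q * ‖x‖ := by
      rw [hQ]
      ring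
    _ ≤ ε * ‖x‖ := by
      refine mul_le_mul_of_nonneg_right ?_ (norm_nonneg _)
      rw [div_mul_eq_mul_div, div_le_iff₀ (by positivity)]
      nlinarith

end Pool.Agent.DQ.X
end

section

/-! # DQ, module H: open and closed boxes -/

set_option autoImplicit false

open Set Filter Topology

universe u v w

namespace Pool.Agent.DQ.H

variable {V : Type u} [NormedAddCommGroup V] [NormedSpace ℂ V] {n : ℕ}

theorem box_sub_cbox (κ : V ≃L[ℂ] (Fin n → ℂ)) (c : Fin n → ℂ) (r R : Fin n → ℝ) :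
    box κ c r R ⊆ cbox κ c r R :=
  fun _ hx i => ⟨(hx i).1.le, (hx i).2.le⟩

/-- Proof. finite intersection of preimages of open sets. -/
theorem isOpen_box (κ : V ≃L[ℂ] (Fin n → ℂ)) (c : Fin n → ℂ) (r R : Fin n → ℝ) :
    IsOpen (box κ c r R) := by
  have e : box κ c r R = ⋂ i, {x : V | r i < ‖κ x i - c i‖ ∧ ‖κ x i - c i‖ < R i} := by
    ext x
    simp only [Set.mem_iInter]
    exact Iff.rfl
  rw [e]
  refine isOpen_iInter_of_finite fun i => ?_
  have h1 : Continuous fun x : V => ‖κ x i - c i‖ :=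
    (((continuous_apply i).comp κ.continuous).sub continuous_const).norm
  exact (isOpen_lt continuous_const h1).inter (isOpen_lt h1 continuous_const)

/-- `U` is empty or an open product of discs and annuli whose closed version lies in `K` -/
def Boxy (κ : V ≃L[ℂ] (Fin n → ℂ)) (K U : Set V) : Prop :=
  U = ∅ ∨ ∃ c r R, U = box κ c r R ∧ cbox κ c r R ⊆ K ∧ GoodRadii r R

theorem Boxy.isOpen {κ : V ≃L[ℂ] (Fin n → ℂ)} {K U : Set V} (h : Boxy κ K U) : IsOpen U := by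
  rcases h with h | ⟨c, r, R, h, -, -⟩
  · rw [h]
    exact isOpen_empty
  · rw [h]
    exact isOpen_box κ c r R

theorem Boxy.sub {κ : V ≃L[ℂ] (Fin n → ℂ)} {K U : Set V} (h : Boxy κ K U) : U ⊆ K := by
  rcases h with h | ⟨c, r, R, h, h2, -⟩
  · rw [h]
    exact Set.empty_subset K
  · rw [h]
    exact (box_sub_cbox κ c r R).trans h2

theorem Coh.mono' {R : ERing.{u, v} V} {M : EMod.{u, v, w} R} {K L : Set V} (h : M.Coh K)
    (hL : L ⊆ K) : M.Coh L := fun x hx => h x (hL hx)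

theorem Coh.at' {R : ERing.{u, v} V} {M : EMod.{u, v, w} R} {K : Set V} (h : M.Coh K) {x : V}
    (hx : x ∈ K) : M.CohAt x := (h x hx).self_of_nhds

theorem TF.mono' {𝓐 : Defo.{u, v} V} {M : EMod.{u, v, w} 𝓐.A} {K L : Set V} (h : TF 𝓐 M K)
    (hL : L ⊆ K) : TF 𝓐 M L := fun x hx => h x (hL hx)

end Pool.Agent.DQ.H
end
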