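import Mathlib

section

/-! Campaign DQ, module W, file WDivU: uniqueness of the division by `t ^ k + c`. -/

set_option autoImplicit false

open Metric Set Filter Topology

namespace Pool.Agent.DQ.W


/-- Taylor remainder bound in one variable. -/
private theorem WDivU_rem {R : ℝ} (hR : 0 < R) (k : ℕ) :
    ∀ {B : ℝ} {G H : ℂ → ℂ} {a : ℕ → ℂ}, DifferentiableOn ℂ H (ball 0 R) →
      (∀ t ∈ ball (0 : ℂ) R, G t = ∑ i ∈ Finset.range k, a i * t ^ i + t ^ k * H t) →
      (∀ t ∈ ball (0 : ℂ) R, ‖G t‖ ≤ B) → ∀ t ∈ ball (0 : ℂ) R, ‖H t‖ ≤ (2 / R) ^ k * B := by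
  induction k with
  | zero =>
    intro B G H a _ hG hB t ht
    have h1 := hG t ht
    simp at h1
    simpa [h1] using hB t ht
  | succ k ih =>
    intro B G H a hH hG hB t ht
    set G1 : ℂ → ℂ := fun t => ∑ i ∈ Finset.range k, a (i + 1) * t ^ i + t ^ k * H t with hG1
    have hG1d : DifferentiableOn ℂ G1 (ball 0 R) := by
      have h1 : DifferentiableOn ℂ (fun t : ℂ => ∑ i ∈ Finset.range k, a (i + 1) * t ^ i) (ball 0 R) := by
        fun_prop
      exact h1.add (((differentiable_id.pow k).differentiableOn).mul hH)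
    have hGG : ∀ t ∈ ball (0 : ℂ) R, G t = a 0 + t * G1 t := by
      intro t ht
      rw [hG t ht, Finset.sum_range_succ', hG1]
      simp only [pow_succ, mul_add, Finset.mul_sum]
      have : ∀ i ∈ Finset.range k, a (i + 1) * (t ^ i * t) = t * (a (i + 1) * t ^ i) := fun i _ => by ring
      rw [Finset.sum_congr rfl this]
      ring
    have h0 : (0 : ℂ) ∈ ball (0 : ℂ) R := mem_ball_self hR
    have hG0 : G 0 = a 0 := by rw [hGG 0 h0]; simp
    have hGd : DifferentiableOn ℂ G (ball 0 R) := by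
      have h1 : DifferentiableOn ℂ (fun t => a 0 + t * G1 t) (ball 0 R) :=
        (differentiableOn_const _).add (differentiableOn_id.mul hG1d)
      exact h1.congr hGG
    have hds : ∀ t ∈ ball (0 : ℂ) R, dslope G 0 t = G1 t := by
      intro t ht
      by_cases h : t = 0
      · subst h
        rw [dslope_same]
        have hev : G =ᶠ[𝓝 0] fun t => a 0 + t * G1 t :=
          Filter.eventuallyEq_of_mem (ball_mem_nhds 0 hR) hGG
        have hd1 : HasDerivAt G1 (deriv G1 0) 0 :=
          (hG1d.differentiableAt (ball_mem_nhds 0 hR)).hasDerivAt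
        have hd2 : HasDerivAt (fun t => a 0 + t * G1 t) (1 * G1 0 + 0 * deriv G1 0) 0 :=
          ((hasDerivAt_id (0 : ℂ)).mul hd1).const_add (a 0)
        have hd3 := (hd2.congr_of_eventuallyEq hev).deriv
        rw [hd3]; ring
      · rw [dslope_of_ne _ h, slope_def_field, hGG t ht, hG0]
        field_simp
        ring
    have hmaps : MapsTo G (ball 0 R) (closedBall (G 0) (2 * B)) := by
      intro t ht
      rw [mem_closedBall, dist_eq_norm]
      calc ‖G t - G 0‖ ≤ _ := norm_sub_le _ _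
        _ ≤ 2 * B := by linarith [hB t ht, hB 0 h0]
    have hb : ∀ t ∈ ball (0 : ℂ) R, ‖G1 t‖ ≤ 2 * B / R := by
      intro t ht
      rw [← hds t ht]
      exact Complex.norm_dslope_le_div_of_mapsTo_ball hGd hmaps ht
    have h2 := ih (B := 2 * B / R) (G := G1) (H := H) (a := fun i => a (i + 1)) hH (fun t _ => rfl) hb t ht
    calc ‖H t‖ ≤ (2 / R) ^ k * (2 * B / R) := h2
      _ = (2 / R) ^ (k + 1) * B := by ring

/-- **Uniqueness of the division** (one variable): if `(t ^ k + c t) * q t + ∑_{i<k} r i * t ^ i = 0` on `ball 0 R`,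
`‖c‖ ≤ ε`, `ε * (2 / R) ^ k ≤ 1 / 2`, `c, q` holomorphic, then `q = 0` on the ball and `r i = 0` for `i < k`.

Proof. Choose `R' < R` close to `R` with `ε * (2 / R') ^ k ≤ 3 / 4` (continuity; if `k = 0` then `ε ≤ 1 / 2` and any
`R'` works). On `ball 0 R'` the function `q` is bounded (continuous on the compact `closedBall 0 R'`), let `M` be its
supremum there (`sSup` of norms). The one variable case of the Taylor estimate: the function
`G t := - c t * q t` equals `∑_{i<k} r i * t ^ i + t ^ k * q t` on `ball 0 R'`, so `q` is its `k`-th Taylor remainder.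
Claim: if `G t = ∑_{i<k} a i * t ^ i + t ^ k * H t` on `ball 0 R'` with `H` holomorphic and `‖G‖ ≤ B` then
`‖H‖ ≤ (2 / R') ^ k * B` on `ball 0 R'` and `‖a 0‖ ≤ B` (if `k > 0`): induction on `k`, since
`(G t - G 0) / t = ∑_{i<k-1} a (i+1) t ^ i + t ^ (k-1) * H t` is the `dslope` of `G` at `0`
(`Complex.norm_dslope_le_div_of_mapsTo_ball`). Hence `‖q‖ ≤ (2 / R') ^ k * ε * M ≤ (3 / 4) * M` on `ball 0 R'`, so
`M = 0` and `q = 0` on `ball 0 R'`, hence on `ball 0 R` (letting `R'` vary, or the identity theorem). Then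
`∑_{i<k} r i * t ^ i = 0` for all small `t`, so all `r i = 0` (polynomial with infinitely many zeros). -/
theorem div_small_unique {R ε : ℝ} (hR : 0 < R) (k : ℕ) (hε0 : 0 ≤ ε) (hε : ε * (2 / R) ^ k ≤ 1 / 2)
    {c q : ℂ → ℂ} {r : ℕ → ℂ} (hc : DifferentiableOn ℂ c (ball 0 R)) (hcε : ∀ t ∈ ball (0 : ℂ) R, ‖c t‖ ≤ ε)
    (hq : DifferentiableOn ℂ q (ball 0 R))
    (h : ∀ t ∈ ball (0 : ℂ) R, (t ^ k + c t) * q t + ∑ i ∈ Finset.range k, r i * t ^ i = 0) :
    (∀ t ∈ ball (0 : ℂ) R, q t = 0) ∧ ∀ i < k, r i = 0 := by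
  have hq0 : ∀ t ∈ ball (0 : ℂ) R, q t = 0 := by
    intro t ht
    have hev1 : ∀ᶠ x in 𝓝 R, ε * (2 / x) ^ k < 3 / 4 := by
      have hcont : ContinuousAt (fun x : ℝ => ε * (2 / x) ^ k) R := by
        have : ContinuousAt (fun x : ℝ => 2 / x) R := continuousAt_const.div continuousAt_id hR.ne'
        exact continuousAt_const.mul (this.pow k)
      exact hcont.eventually_lt continuousAt_const (lt_of_le_of_lt hε (by norm_num))
    have ht' : ‖t‖ < R := by simpa using ht
    have hev2 : ∀ᶠ x in 𝓝 R, ‖t‖ < x := lt_mem_nhds ht'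
    have hev3 : ∀ᶠ x in 𝓝 R, 0 < x := lt_mem_nhds hR
    obtain ⟨S, ⟨⟨hS1, hS2⟩, hS3⟩, hSR⟩ :=
      ((((hev1.and hev2).and hev3).filter_mono nhdsWithin_le_nhds).and
        (self_mem_nhdsWithin : Iio R ∈ 𝓝[<] R)).exists
    have hSR' : S < R := hSR
    have hsub : ball (0 : ℂ) S ⊆ ball 0 R := ball_subset_ball hSR'.le
    obtain ⟨B, hB⟩ := (isCompact_closedBall (0 : ℂ) S).exists_bound_of_continuousOn
      (hq.continuousOn.mono (closedBall_subset_ball hSR'))
    have hB0 : 0 ≤ B := (norm_nonneg _).trans (hB 0 (mem_closedBall_self hS3.le))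
    have key : ∀ n : ℕ, ∀ s ∈ ball (0 : ℂ) S, ‖q s‖ ≤ (3 / 4 : ℝ) ^ n * B := by
      intro n
      induction n with
      | zero => intro s hs; simpa using hB s (ball_subset_closedBall hs)
      | succ n ih =>
        intro s hs
        have h3 := WDivU_rem hS3 k (B := ε * ((3 / 4 : ℝ) ^ n * B)) (G := fun s => - (c s * q s)) (H := q) (a := r)
          (hq.mono hsub) (fun s hs => by
            have := h s (hsub hs)
            linear_combination -this) (fun s hs => by
            rw [norm_neg, norm_mul]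
            exact mul_le_mul (hcε s (hsub hs)) (ih s hs) (norm_nonneg _) hε0) s hs
        have h4 : 0 ≤ (3 / 4 : ℝ) ^ n * B := by positivity
        calc ‖q s‖ ≤ (2 / S) ^ k * (ε * ((3 / 4 : ℝ) ^ n * B)) := h3
          _ = (ε * (2 / S) ^ k) * ((3 / 4 : ℝ) ^ n * B) := by ring
          _ ≤ (3 / 4) * ((3 / 4 : ℝ) ^ n * B) := mul_le_mul_of_nonneg_right hS1.le h4
          _ = (3 / 4 : ℝ) ^ (n + 1) * B := by ring
    have htS : t ∈ ball (0 : ℂ) S := by simpa using hS2
    have hlim : Tendsto (fun n : ℕ => (3 / 4 : ℝ) ^ n * B) atTop (𝓝 0) := by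
      simpa using (tendsto_pow_atTop_nhds_zero_of_lt_one (by norm_num) (by norm_num : (3 / 4 : ℝ) < 1)).mul_const B
    have h5 : ‖q t‖ ≤ 0 := ge_of_tendsto' hlim (fun n => key n t htS)
    exact norm_le_zero_iff.mp h5
  refine ⟨hq0, ?_⟩
  set P : Polynomial ℂ := ∑ i ∈ Finset.range k, Polynomial.C (r i) * Polynomial.X ^ i with hP
  have hroot : ∀ t ∈ ball (0 : ℂ) R, P.eval t = 0 := by
    intro t ht
    have h1 := h t ht
    rw [hq0 t ht, mul_zero, zero_add] at h1
    rw [hP, Polynomial.eval_finsetSum]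
    simpa using h1
  have hP0 : P = 0 := by
    apply Polynomial.eq_zero_of_infinite_isRoot
    exact (infinite_of_mem_nhds (0 : ℂ) (ball_mem_nhds 0 hR)).mono (fun t ht => hroot t ht)
  intro i hi
  have h2 : P.coeff i = r i := by
    rw [hP, Polynomial.finsetSum_coeff]
    simp [Polynomial.coeff_C_mul, Polynomial.coeff_X_pow, hi]
  rw [← h2, hP0]
  simp

end Pool.Agent.DQ.W
end

section

/-! Campaign DQ, module W, file WOkaSys: polynomial relations of bounded degree as a linear system (pure algebra). -/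

set_option autoImplicit false

open Polynomial

namespace Pool.Agent.DQ.W

/-- The coefficients of the linear system. -/
def sysc {R : Type*} [Zero R] {ι : Type} (k : ℕ) (a : ι → ℕ → R) (x : ι × Fin k) (l : Fin (2 * k)) : R :=
  if (x.2 : ℕ) ≤ l ∧ (l : ℕ) - x.2 ≤ k then a x.1 (l - x.2) else 0

private theorem WOkaSys_coeff {R : Type*} [CommRing R] (k : ℕ) (a : ℕ → R) (n : ℕ) :
    (∑ m ∈ Finset.range (k + 1), C (a m) * X ^ m : R[X]).coeff n = if n ≤ k then a n else 0 := by
  rw [finsetSum_coeff]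
  simp only [coeff_C_mul_X_pow]
  by_cases hn : n ≤ k
  · rw [if_pos hn, Finset.sum_eq_single n]
    · rw [if_pos rfl]
    · intro m _ hm
      rw [if_neg (Ne.symm hm)]
    · intro h
      exact absurd (Finset.mem_range.mpr (by omega)) h
  · rw [if_neg hn]
    apply Finset.sum_eq_zero
    intro m hm
    rw [if_neg]
    have := Finset.mem_range.mp hm
    omega

private theorem WOkaSys_coeff_mul {R : Type*} [CommRing R] {ι : Type} [Fintype ι] (k : ℕ) (a : ι → ℕ → R)
    (b : ι × Fin k → R) (l : ℕ) :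
    (∑ i, (∑ j : Fin k, C (b (i, j)) * X ^ (j : ℕ)) * (∑ m ∈ Finset.range (k + 1), C (a i m) * X ^ m) : R[X]).coeff l
      = ∑ x : ι × Fin k, b x * (if (x.2 : ℕ) ≤ l ∧ l - x.2 ≤ k then a x.1 (l - x.2) else 0) := by
  rw [finsetSum_coeff, Fintype.sum_prod_type]
  apply Finset.sum_congr rfl
  intro i _
  rw [Finset.sum_mul, finsetSum_coeff]
  apply Finset.sum_congr rfl
  intro j _
  rw [mul_assoc, coeff_C_mul, coeff_X_pow_mul', WOkaSys_coeff]
  congr 1
  by_cases h1 : (j : ℕ) ≤ l
  · by_cases h2 : l - (j : ℕ) ≤ k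
    · rw [if_pos h1, if_pos h2, if_pos ⟨h1, h2⟩]
    · rw [if_pos h1, if_neg h2, if_neg (fun h => h2 h.2)]
  · rw [if_neg h1, if_neg (fun h => h1 h.1)]

/-- **Polynomial relations as a linear system.** With `A i = ∑_{j<k} C (b (i, j)) X ^ j`, `P i = ∑_{m≤k} C (a i m) X ^ m`:
`∑ A i * P i = 0` if and only if all coefficients `l < 2 k` vanish.

Proof. The polynomial `∑ A i * P i` has degree `< 2 k` (if `k = 0` then all `A i = 0`), so it is zero if and only if its
coefficients with index `l < 2 k` vanish. `coeff l (A i * P i) = ∑_{j<k} b (i, j) * (coeff (l - j) of P i if j ≤ l)`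
(multiply out: `A i * P i = ∑_j ∑_m C (b (i,j) * a i m) * X ^ (j + m)`, the coefficient at `l` is the sum over the pairs with
`j + m = l`; for given `j` this is `m = l - j`, present if and only if `j ≤ l` and `l - j ≤ k`). Sum over `ι × Fin k`:
`Fintype.sum_prod_type`. -/
theorem sys_iff {R : Type*} [CommRing R] {ι : Type} [Fintype ι] (k : ℕ) (a : ι → ℕ → R) (b : ι × Fin k → R) :
    (∑ i, (∑ j : Fin k, C (b (i, j)) * X ^ (j : ℕ)) * (∑ m ∈ Finset.range (k + 1), C (a i m) * X ^ m) = 0) ↔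
      ∀ l : Fin (2 * k), ∑ x : ι × Fin k, b x * sysc k a x l = 0 := by
  constructor
  · intro h l
    have h1 := congrArg (fun p : R[X] => p.coeff (l : ℕ)) h
    simp only [coeff_zero] at h1
    rw [WOkaSys_coeff_mul] at h1
    exact h1
  · intro h
    ext l
    rw [WOkaSys_coeff_mul, coeff_zero]
    by_cases hl : l < 2 * k
    · exact h ⟨l, hl⟩
    · apply Finset.sum_eq_zero
      intro x _
      rw [if_neg, mul_zero]
      have := x.2.isLt
      omega

/-- A polynomial of degree `< k` is the sum of its monomials over `Fin k`.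

Proof. `Polynomial.ext`, `coeff` of the sum; or `as_sum_range'` and `Fin.sum_univ_eq_sum_range`. -/
theorem eq_sum_fin {R : Type*} [CommRing R] {k : ℕ} {A : R[X]} (hA : A.degree < k) :
    A = ∑ j : Fin k, C (A.coeff j) * X ^ (j : ℕ) := by
  ext n
  rw [finsetSum_coeff]
  simp only [coeff_C_mul_X_pow]
  by_cases hn : n < k
  · rw [Finset.sum_eq_single (⟨n, hn⟩ : Fin k)]
    · rw [if_pos rfl]
    · intro m _ hm
      rw [if_neg]
      intro h
      apply hm
      ext
      exact h.symm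
    · intro h
      exact absurd (Finset.mem_univ _) h
  · rw [coeff_eq_zero_of_degree_lt (lt_of_lt_of_le hA (by exact_mod_cast not_lt.mp hn))]
    symm
    apply Finset.sum_eq_zero
    intro m _
    rw [if_neg]
    have := m.isLt
    omega

theorem sum_natDegree_le {R : Type*} [CommRing R] {k : ℕ} (a : ℕ → R) :
    (∑ m ∈ Finset.range (k + 1), C (a m) * X ^ m : R[X]).natDegree ≤ k := by
  rw [natDegree_le_iff_coeff_eq_zero]
  intro N hN
  rw [WOkaSys_coeff, if_neg (by omega)]

/-- Degree and leading coefficient of the sum. Proof. `k`-th coefficient is `1` and degree `≤ k`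
(`Polynomial.natDegree_sum_le_of_forall_le`, `monic_of_natDegree_le_of_coeff_eq_one`). -/
theorem sum_monic {R : Type*} [CommRing R] [Nontrivial R] {k : ℕ} {a : ℕ → R} (ha : a k = 1) :
    (∑ m ∈ Finset.range (k + 1), C (a m) * X ^ m : R[X]).Monic ∧
      (∑ m ∈ Finset.range (k + 1), C (a m) * X ^ m : R[X]).natDegree = k := by
  have h1 : (∑ m ∈ Finset.range (k + 1), C (a m) * X ^ m : R[X]).coeff k = 1 := by
    rw [WOkaSys_coeff, if_pos le_rfl, ha]
  have h2 := sum_natDegree_le (k := k) a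
  refine ⟨monic_of_natDegree_le_of_coeff_eq_one k h2 h1, ?_⟩
  apply le_antisymm h2
  apply le_natDegree_of_ne_zero
  rw [h1]
  exact one_ne_zero

end Pool.Agent.DQ.W
end

section

/-!
# Matrices of holomorphic functions near a compact set

* `MAn K g`: the matrix valued function `g` is analytic near `K` (entrywise);
* holomorphic germs near a compact connected plane set form a principal ideal domain; every
  idempotent matrix over this ring is conjugate to a constant diagonal one.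
-/

set_option autoImplicit false

open Metric Set Filter Topology

namespace DQ.F

section mat

variable {E : Type*} [NormedAddCommGroup E] [NormedSpace ℂ E]
variable {l m n : Type*}

/-- The matrix valued function `g` is analytic near (at every point of) `K`. -/
def MAn (K : Set E) (g : E → Matrix m n ℂ) : Prop :=
  ∀ i j, AnalyticOnNhd ℂ (fun x => g x i j) K

theorem MAn.mono {K L : Set E} {g : E → Matrix m n ℂ} (hg : MAn L g) (h : K ⊆ L) : MAn K g :=
  fun i j => (hg i j).mono h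

theorem MAn.const {K : Set E} (A : Matrix m n ℂ) : MAn K fun _ => A :=
  fun _ _ => analyticOnNhd_const

theorem MAn.add {K : Set E} {f g : E → Matrix m n ℂ} (hf : MAn K f) (hg : MAn K g) :
    MAn K fun x => f x + g x :=
  fun i j => (hf i j).add (hg i j)

theorem MAn.sub {K : Set E} {f g : E → Matrix m n ℂ} (hf : MAn K f) (hg : MAn K g) :
    MAn K fun x => f x - g x :=
  fun i j => (hf i j).sub (hg i j)

theorem MAn.neg {K : Set E} {f : E → Matrix m n ℂ} (hf : MAn K f) : MAn K fun x => -f x :=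
  fun i j => (hf i j).neg

theorem MAn.smul {K : Set E} {c : E → ℂ} {f : E → Matrix m n ℂ} (hc : AnalyticOnNhd ℂ c K)
    (hf : MAn K f) : MAn K fun x => c x • f x :=
  fun i j => hc.mul (hf i j)

theorem MAn.transpose {K : Set E} {f : E → Matrix m n ℂ} (hf : MAn K f) :
    MAn K fun x => (f x).transpose :=
  fun i j => hf j i

theorem MAn.mul {K : Set E} [Fintype m] {f : E → Matrix l m ℂ} {g : E → Matrix m n ℂ}
    (hf : MAn K f) (hg : MAn K g) : MAn K fun x => f x * g x := by
  intro i j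
  have : (fun x => (f x * g x) i j) = fun x => ∑ k, f x i k * g x k j := by
    funext x
    exact Matrix.mul_apply
  rw [this]
  exact fun x hx => Finset.analyticAt_fun_sum _ fun k _ => (hf i k x hx).mul (hg k j x hx)

theorem MAn.det {K : Set E} [Fintype n] [DecidableEq n] {f : E → Matrix n n ℂ} (hf : MAn K f) :
    AnalyticOnNhd ℂ (fun x => (f x).det) K := by
  have : (fun x => (f x).det) = fun x => ∑ σ : Equiv.Perm n,
      ((Equiv.Perm.sign σ : ℤ) : ℂ) * ∏ i, f x (σ i) i := by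
    funext x
    exact Matrix.det_apply' _
  rw [this]
  exact fun x hx => Finset.analyticAt_fun_sum _ fun σ _ =>
    analyticAt_const.mul (Finset.analyticAt_fun_prod _ fun i _ => hf (σ i) i x hx)

theorem MAn.adjugate {K : Set E} [Fintype n] [DecidableEq n] {f : E → Matrix n n ℂ}
    (hf : MAn K f) : MAn K fun x => (f x).adjugate := by
  intro i j
  have : (fun x => (f x).adjugate i j) = fun x => ((f x).updateRow j (Pi.single i 1)).det := by
    funext x
    exact Matrix.adjugate_apply _ _ _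
  rw [this]
  refine MAn.det fun a b => ?_
  by_cases h : a = j
  · subst h
    simpa using analyticOnNhd_const
  · simpa [Matrix.updateRow_ne h] using hf a b

theorem MAn.inv {K : Set E} [Fintype n] [DecidableEq n] {f : E → Matrix n n ℂ} (hf : MAn K f)
    (h : ∀ x ∈ K, (f x).det ≠ 0) : MAn K fun x => (f x)⁻¹ := by
  have : (fun x => (f x)⁻¹) = fun x => (f x).det⁻¹ • (f x).adjugate := by
    funext x
    rw [Matrix.inv_def, Ring.inverse_eq_inv']
  rw [this]
  exact MAn.smul (hf.det.inv h) hf.adjugate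

theorem MAn.continuousAt {K : Set E} {g : E → Matrix m n ℂ} (hg : MAn K g) {x : E} (hx : x ∈ K) :
    ContinuousAt g x :=
  continuousAt_pi.mpr fun i => continuousAt_pi.mpr fun j => (hg i j x hx).continuousAt

theorem MAn.comp {F : Type*} [NormedAddCommGroup F] [NormedSpace ℂ F] {K : Set E} {L : Set F}
    {g : E → Matrix m n ℂ} (hg : MAn K g) {φ : F → E} (hφ : AnalyticOnNhd ℂ φ L)
    (h : MapsTo φ L K) : MAn L fun y => g (φ y) :=
  fun i j => (hg i j).comp hφ h

theorem MAn.congr {K : Set E} {f g : E → Matrix m n ℂ} (hf : MAn K f) (h : ∀ᶠ x in 𝓝ˢ K, f x = g x) :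
    MAn K g := by
  intro i j x hx
  refine (hf i j x hx).congr ?_
  filter_upwards [h.filter_mono (nhds_le_nhdsSet hx)] with y hy
  rw [hy]

end mat

section pid

/-- Non-vanishing analytic functions near a compact set: the zeros are finite in number. -/
theorem finite_zeros {K : Set ℂ} (hK : IsCompact K) {f : ℂ → ℂ} (hf : AnalyticOnNhd ℂ f K)
    (h0 : ∀ x ∈ K, ¬ (∀ᶠ y in 𝓝 x, f y = 0)) : {x | x ∈ K ∧ f x = 0}.Finite := by
  have h1 : ∀ x ∈ K, ∃ U ∈ 𝓝 x, ∀ y ∈ U, y ≠ x → f y ≠ 0 := by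
    intro x hx
    rcases (hf x hx).eventually_eq_zero_or_eventually_ne_zero with h | h
    · exact absurd h (h0 x hx)
    · rw [eventually_nhdsWithin_iff] at h
      exact ⟨_, h, fun y hy hne => hy hne⟩
  choose! U hU hU' using h1
  obtain ⟨t, ht, hcov⟩ := hK.elim_nhds_subcover U hU
  refine (t.finite_toSet).subset ?_
  rintro x ⟨hx, hfx⟩
  obtain ⟨y, hy, hxy⟩ := mem_iUnion₂.mp (hcov hx)
  by_cases hne : x = y
  · rw [hne]; exact hy
  · exact absurd hfx (hU' y (ht y hy) x hxy hne)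

/-- Factorisation: polynomial times a function without zeros. -/
theorem exists_factor {K : Set ℂ} (hK : IsCompact K) {f : ℂ → ℂ} (hf : AnalyticOnNhd ℂ f K)
    (h0 : ∀ x ∈ K, ¬ (∀ᶠ y in 𝓝 x, f y = 0)) : ∃ (p : Polynomial ℂ) (u : ℂ → ℂ), p ≠ 0 ∧
      AnalyticOnNhd ℂ u K ∧ (∀ x ∈ K, u x ≠ 0) ∧ ∀ᶠ x in 𝓝ˢ K, f x = p.eval x * u x := by
  classical
  have hfin := finite_zeros hK hf h0
  set Z : Finset ℂ := hfin.toFinset with hZ
  have hZmem : ∀ x, x ∈ Z ↔ x ∈ K ∧ f x = 0 := by
    intro x; rw [hZ, Set.Finite.mem_toFinset]; rfl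
  have h1 : ∀ x ∈ Z, ∃ (m : ℕ) (g : ℂ → ℂ), AnalyticAt ℂ g x ∧ g x ≠ 0 ∧
      ∀ᶠ y in 𝓝 x, f y = (y - x) ^ m • g y := by
    intro x hx
    have hxK := ((hZmem x).mp hx).1
    exact (hf x hxK).exists_eventuallyEq_pow_smul_nonzero_iff.mpr (h0 x hxK)
  choose! m g hga hg0 hgf using h1
  set p : Polynomial ℂ := ∏ x ∈ Z, (Polynomial.X - Polynomial.C x) ^ m x with hp
  have hpe : ∀ y, p.eval y = ∏ x ∈ Z, (y - x) ^ m x := by
    intro y
    rw [hp, Polynomial.eval_prod]
    simp
  have hp0 : p ≠ 0 := by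
    rw [hp]
    exact Finset.prod_ne_zero_iff.mpr fun x _ => pow_ne_zero _ (Polynomial.X_sub_C_ne_zero x)
  let q : ℂ → ℂ → ℂ := fun x y => ∏ z ∈ Z.erase x, (y - z) ^ m z
  have hq : ∀ x ∈ Z, ∀ y, p.eval y = (y - x) ^ m x * q x y := by
    intro x hx y
    rw [hpe]
    exact (Finset.mul_prod_erase Z (fun z => (y - z) ^ m z) hx).symm
  have hqa : ∀ x y, AnalyticAt ℂ (q x) y := fun x y =>
    Finset.analyticAt_fun_prod _ fun z _ => (analyticAt_id.sub analyticAt_const).pow _
  have hq0 : ∀ x ∈ Z, q x x ≠ 0 := by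
    intro x _
    refine Finset.prod_ne_zero_iff.mpr fun z hz => pow_ne_zero _ ?_
    rw [sub_ne_zero]
    exact fun h => (Finset.ne_of_mem_erase hz) h.symm
  let u : ℂ → ℂ := fun y => if y ∈ Z then g y y / q y y else f y / p.eval y
  have huZ : ∀ x ∈ Z, ∀ᶠ y in 𝓝 x, u y = g x y / q x y := by
    intro x hx
    have e1 : ∀ᶠ y in 𝓝 x, y ∉ Z.erase x := by
      have hc : IsClosed ((Z.erase x : Finset ℂ) : Set ℂ) := (Z.erase x).finite_toSet.isClosed
      have := hc.isOpen_compl.mem_nhds (x := x) (by simp)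
      exact this
    have e2 : ∀ᶠ y in 𝓝 x, q x y ≠ 0 := (hqa x x).continuousAt.eventually_ne (hq0 x hx)
    filter_upwards [e1, hgf x hx, e2] with y hy1 hy2 hy3
    by_cases hyx : y = x
    · subst hyx
      simp only [u, if_pos hx]
    · have hyZ : y ∉ Z := fun h => hy1 (Finset.mem_erase.mpr ⟨hyx, h⟩)
      simp only [u, if_neg hyZ]
      have hne : (y - x) ^ m x ≠ 0 := pow_ne_zero _ (sub_ne_zero.mpr hyx)
      rw [hy2, hq x hx, smul_eq_mul, mul_div_mul_left _ _ hne]
  have hunZ : ∀ x ∈ K, x ∉ Z → (∀ᶠ y in 𝓝 x, u y = f y / p.eval y) ∧ p.eval x ≠ 0 := by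
    intro x _ hxZ
    have hc : IsClosed (Z : Set ℂ) := Z.finite_toSet.isClosed
    refine ⟨?_, ?_⟩
    · filter_upwards [hc.isOpen_compl.mem_nhds (x := x) hxZ] with y hy
      have hyZ : y ∉ Z := hy
      simp only [u, if_neg hyZ]
    · rw [hpe]
      refine Finset.prod_ne_zero_iff.mpr fun z hz => pow_ne_zero _ ?_
      rw [sub_ne_zero]
      exact fun h => hxZ (h ▸ hz)
  refine ⟨p, u, hp0, ?_, ?_, ?_⟩
  · intro x hx
    by_cases hxZ : x ∈ Z
    · exact ((hga x hxZ).div (hqa x x) (hq0 x hxZ)).congr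
        ((huZ x hxZ).mono fun y hy => hy.symm)
    · have hpa : AnalyticAt ℂ (fun y => p.eval y) x :=
        (AnalyticOnNhd.eval_polynomial p) x trivial
      exact ((hf x hx).div hpa (hunZ x hx hxZ).2).congr
        ((hunZ x hx hxZ).1.mono fun y hy => hy.symm)
  · intro x hx
    by_cases hxZ : x ∈ Z
    · simp only [u, if_pos hxZ]
      exact div_ne_zero (hg0 x hxZ) (hq0 x hxZ)
    · have := (hunZ x hx hxZ).2
      simp only [u, if_neg hxZ]
      exact div_ne_zero (fun h => hxZ ((hZmem x).mpr ⟨hx, h⟩)) this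
  · rw [eventually_nhdsSet_iff_forall]
    intro x hx
    by_cases hxZ : x ∈ Z
    · have e2 : ∀ᶠ y in 𝓝 x, q x y ≠ 0 := (hqa x x).continuousAt.eventually_ne (hq0 x hxZ)
      filter_upwards [huZ x hxZ, hgf x hxZ, e2] with y h1 h2 h3
      rw [h1, h2, hq x hxZ, smul_eq_mul]
      field_simp
    · have hpc : ContinuousAt (fun y => p.eval y) x := p.continuous.continuousAt
      filter_upwards [(hunZ x hx hxZ).1, hpc.eventually_ne (hunZ x hx hxZ).2] with y h1 h2
      rw [h1]
      field_simp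

/-- The ring of germs of holomorphic functions near `K`. -/
noncomputable def OK (K : Set ℂ) : Subring (Germ (𝓝ˢ K) ℂ) where
  carrier := {g | ∃ f : ℂ → ℂ, AnalyticOnNhd ℂ f K ∧ (f : Germ (𝓝ˢ K) ℂ) = g}
  mul_mem' := by
    rintro _ _ ⟨f, hf, rfl⟩ ⟨g, hg, rfl⟩
    exact ⟨f * g, hf.mul hg, rfl⟩
  one_mem' := ⟨1, analyticOnNhd_const, rfl⟩
  add_mem' := by
    rintro _ _ ⟨f, hf, rfl⟩ ⟨g, hg, rfl⟩
    exact ⟨f + g, hf.add hg, rfl⟩
  zero_mem' := ⟨0, analyticOnNhd_const, rfl⟩
  neg_mem' := by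
    rintro _ ⟨f, hf, rfl⟩
    exact ⟨-f, hf.neg, rfl⟩

/-- The element of `OK K` given by a function. -/
noncomputable def OK.mk {K : Set ℂ} (f : ℂ → ℂ) (hf : AnalyticOnNhd ℂ f K) : OK K := ⟨f, f, hf, rfl⟩

theorem OK.mk_eq_iff {K : Set ℂ} {f g : ℂ → ℂ} (hf : AnalyticOnNhd ℂ f K)
    (hg : AnalyticOnNhd ℂ g K) : OK.mk f hf = OK.mk g hg ↔ ∀ᶠ x in 𝓝ˢ K, f x = g x := by
  rw [Subtype.ext_iff]
  exact Germ.coe_eq

theorem OK.exists_rep {K : Set ℂ} (a : OK K) : ∃ f, ∃ hf : AnalyticOnNhd ℂ f K, a = OK.mk f hf := by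
  obtain ⟨_, f, hf, rfl⟩ := a
  exact ⟨f, hf, rfl⟩

theorem OK.mk_mul {K : Set ℂ} {f g : ℂ → ℂ} (hf : AnalyticOnNhd ℂ f K) (hg : AnalyticOnNhd ℂ g K) :
    OK.mk f hf * OK.mk g hg = OK.mk (fun x => f x * g x) (hf.mul hg) := rfl

/-- An analytic function near a connected set which vanishes near one point vanishes near the set. -/
theorem zero_near {K : Set ℂ} (hK : IsPreconnected K) {f : ℂ → ℂ} (hf : AnalyticOnNhd ℂ f K)
    {x : ℂ} (hx : x ∈ K) (h : ∀ᶠ y in 𝓝 x, f y = 0) : ∀ z ∈ K, ∀ᶠ y in 𝓝 z, f y = 0 := by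
  intro z hz
  -- a connected open neighbourhood is not available for general `K`: use clopen sets in `K`
  by_contra hcon
  have hU : IsOpen {y : ℂ | ∀ᶠ w in 𝓝 y, f w = 0} := isOpen_setOfPred_eventually_nhds
  have hV : IsOpen {y : ℂ | ∀ᶠ w in 𝓝[≠] y, f w ≠ 0} := by
    rw [isOpen_iff_mem_nhds]
    intro y hy
    have hy' : ∀ᶠ w in 𝓝[≠] y, f w ≠ 0 := hy
    rw [eventually_nhdsWithin_iff] at hy'
    filter_upwards [hy'.eventually_nhds] with w hw
    change ∀ᶠ v in 𝓝[≠] w, f v ≠ 0
    by_cases hwy : w = y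
    · rw [hwy]; exact hy
    · rw [eventually_nhdsWithin_iff]
      filter_upwards [hw, isOpen_ne.mem_nhds hwy] with v hv hvy _
      exact hv hvy
  obtain ⟨y, hyK, hy1, hy2⟩ := hK _ _ hU hV (by
      intro y hy
      rcases (hf y hy).eventually_eq_zero_or_eventually_ne_zero with h' | h'
      · exact Or.inl h'
      · exact Or.inr h') ⟨x, hx, h⟩ ⟨z, hz, by
      rcases (hf z hz).eventually_eq_zero_or_eventually_ne_zero with h' | h'
      · exact absurd h' hcon
      · exact h'⟩
  have h1 : ∀ᶠ w in 𝓝[≠] y, f w = 0 := hy1.filter_mono nhdsWithin_le_nhds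
  have h2 : ∀ᶠ w in 𝓝[≠] y, False := by
    filter_upwards [h1, hy2] with w a b
    exact b a
  exact (inferInstance : (𝓝[≠] y).NeBot).ne (Filter.eventually_false_iff_eq_bot.mp h2)

variable {K : Set ℂ}

theorem OK.isDomain (hK : IsPreconnected K) (hne : K.Nonempty) : IsDomain (OK K) := by
  obtain ⟨x₀, hx₀⟩ := hne
  have : Nontrivial (OK K) := by
    refine ⟨⟨0, 1, fun h => ?_⟩⟩
    have h' : OK.mk (fun _ => 0) analyticOnNhd_const = OK.mk (K := K) (fun _ => 1) analyticOnNhd_const := h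
    rw [OK.mk_eq_iff] at h'
    have := (h'.filter_mono (nhds_le_nhdsSet hx₀)).self_of_nhds
    norm_num at this
  have : NoZeroDivisors (OK K) := by
    refine ⟨fun {a b} hab => ?_⟩
    obtain ⟨f, hf, rfl⟩ := OK.exists_rep a
    obtain ⟨g, hg, rfl⟩ := OK.exists_rep b
    have h0 : (0 : OK K) = OK.mk (fun _ => 0) analyticOnNhd_const := rfl
    rw [OK.mk_mul, h0, OK.mk_eq_iff] at hab
    rw [h0, OK.mk_eq_iff, OK.mk_eq_iff]
    by_cases hfz : ∀ᶠ y in 𝓝 x₀, f y = 0
    · left
      rw [eventually_nhdsSet_iff_forall]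
      exact zero_near hK hf hx₀ hfz
    · right
      rw [eventually_nhdsSet_iff_forall]
      refine zero_near hK hg hx₀ ?_
      have h1 := ((hf x₀ hx₀).eventually_eq_zero_or_eventually_ne_zero).resolve_left hfz
      have h2 := (hab.filter_mono (nhds_le_nhdsSet hx₀)).filter_mono
        (nhdsWithin_le_nhds (s := {x₀}ᶜ))
      have h3 : ∀ᶠ y in 𝓝[≠] x₀, g y = 0 := by
        filter_upwards [h1, h2] with y a b
        exact (mul_eq_zero.mp b).resolve_left a
      exact (hg x₀ hx₀).frequently_zero_iff_eventually_zero.mp h3.frequently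
  exact NoZeroDivisors.to_isDomain _

/-- Polynomials as germs. -/
noncomputable def OK.poly (K : Set ℂ) : Polynomial ℂ →+* OK K where
  toFun p := OK.mk (fun x => p.eval x) ((AnalyticOnNhd.eval_polynomial p).mono (subset_univ K))
  map_one' := by simp only [Polynomial.eval_one]; rfl
  map_mul' p q := by simp only [Polynomial.eval_mul]; rfl
  map_zero' := by simp only [Polynomial.eval_zero]; rfl
  map_add' p q := by simp only [Polynomial.eval_add]; rfl

theorem OK.isPrincipal (hK : IsPreconnected K) (hc : IsCompact K) :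
    IsPrincipalIdealRing (OK K) := by
  refine ⟨fun I => ?_⟩
  obtain ⟨d, hd⟩ := (IsPrincipalIdealRing.principal (I.comap (OK.poly K))).principal
  refine ⟨OK.poly K d, le_antisymm ?_ ?_⟩
  · intro a ha
    obtain ⟨f, hf, rfl⟩ := OK.exists_rep a
    by_cases h0 : ∃ x ∈ K, ∀ᶠ y in 𝓝 x, f y = 0
    · obtain ⟨x, hx, h⟩ := h0
      have : OK.mk f hf = 0 := by
        have h0 : (0 : OK K) = OK.mk (fun _ => 0) analyticOnNhd_const := rfl
        rw [h0, OK.mk_eq_iff, eventually_nhdsSet_iff_forall]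
        exact zero_near hK hf hx h
      rw [this]
      exact Submodule.zero_mem _
    · push Not at h0
      obtain ⟨p, u, _, hu, hu0, hfe⟩ := exists_factor hc hf
        (fun x hx h => (h0 x hx) (h.mono fun y hy hne => hne hy))
      have hinv : OK.mk u hu * OK.mk (fun x => (u x)⁻¹) (hu.inv hu0) = 1 := by
        have h1 : (1 : OK K) = OK.mk (fun _ => 1) analyticOnNhd_const := rfl
        rw [OK.mk_mul, h1, OK.mk_eq_iff, eventually_nhdsSet_iff_forall]
        intro x hx
        filter_upwards [(hu x hx).continuousAt.eventually_ne (hu0 x hx)] with y hy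
        exact mul_inv_cancel₀ hy
      have hfac : OK.mk f hf = OK.poly K p * OK.mk u hu := by
        change _ = OK.mk (fun x => p.eval x)
          ((AnalyticOnNhd.eval_polynomial p).mono (subset_univ K)) * _
        rw [OK.mk_mul, OK.mk_eq_iff]
        exact hfe
      have hp : OK.poly K p ∈ I := by
        have : OK.poly K p = OK.mk (fun x => (u x)⁻¹) (hu.inv hu0) * OK.mk f hf := by
          rw [hfac, mul_comm (OK.poly K p), ← mul_assoc, mul_comm (OK.mk (fun x => (u x)⁻¹) _),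
            hinv, one_mul]
        rw [this]
        exact I.mul_mem_left _ ha
      have hp' : p ∈ I.comap (OK.poly K) := hp
      rw [hd] at hp'
      obtain ⟨q, hq⟩ := Submodule.mem_span_singleton.mp hp'
      rw [hfac, ← hq, smul_eq_mul, map_mul]
      refine Submodule.mem_span_singleton.mpr ⟨OK.mk u hu * OK.poly K q, ?_⟩
      rw [smul_eq_mul]
      ring
  · rw [Submodule.span_singleton_le_iff_mem]
    have : d ∈ I.comap (OK.poly K) := by
      rw [hd]
      exact Submodule.mem_span_singleton_self d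
    exact this

/-- An idempotent matrix over a principal ideal domain is conjugate to a diagonal one. -/
theorem idem_pid {R : Type*} [CommRing R] [IsDomain R] [IsPrincipalIdealRing R] {N : ℕ}
    (e : Matrix (Fin N) (Fin N) R) (he : e * e = e) :
    ∃ (V W : Matrix (Fin N) (Fin N) R) (d : Fin N → Bool), V * W = 1 ∧
      e * V = V * Matrix.diagonal fun i => if d i then (1 : R) else 0 := by
  classical
  set f : (Fin N → R) →ₗ[R] (Fin N → R) := e.mulVecLin with hf
  have hff : ∀ x, f (f x) = f x := by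
    intro x
    rw [hf, Matrix.mulVecLin_apply, Matrix.mulVecLin_apply, Matrix.mulVec_mulVec, he]
  set P := LinearMap.range f with hP
  set Q := LinearMap.ker f with hQ
  have hPfix : ∀ x ∈ P, f x = x := by
    rintro _ ⟨y, rfl⟩
    exact hff y
  have hcompl : IsCompl P Q := by
    constructor
    · rw [Submodule.disjoint_def]
      intro x hx hx'
      rw [← hPfix x hx]
      exact hx'
    · rw [codisjoint_iff, eq_top_iff]
      intro x _
      have : x = f x + (x - f x) := by abel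
      rw [this]
      refine Submodule.add_mem_sup ⟨x, rfl⟩ ?_
      change f (x - f x) = 0
      rw [map_sub, hff, sub_self]
  let bP := Module.Free.chooseBasis R P
  let bQ := Module.Free.chooseBasis R Q
  let B : Module.Basis (Module.Free.ChooseBasisIndex R P ⊕ Module.Free.ChooseBasisIndex R Q) R
      (Fin N → R) := (bP.prod bQ).map (Submodule.prodEquivOfIsCompl P Q hcompl)
  have hcard : Fintype.card (Module.Free.ChooseBasisIndex R P ⊕ Module.Free.ChooseBasisIndex R Q) =
      Fintype.card (Fin N) := by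
    rw [← Module.finrank_eq_card_basis B, ← Module.finrank_eq_card_basis (Pi.basisFun R (Fin N))]
  let σ := Fintype.equivOfCardEq hcard
  let C : Module.Basis (Fin N) R (Fin N → R) := B.reindex σ
  let d : Fin N → Bool := fun i => (σ.symm i).isLeft
  have hC : ∀ i, f (C i) = (if d i then (1 : R) else 0) • C i := by
    intro i
    have hCi : C i = B (σ.symm i) := Module.Basis.reindex_apply _ _ _
    rw [hCi]
    rcases h : σ.symm i with a | a
    · have hd : d i = true := by simp only [d, h]; rfl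
      rw [hd, if_pos rfl, one_smul]
      have : B (Sum.inl a) = (bP a : Fin N → R) := by
        simp [B]
      rw [this]
      exact hPfix _ (bP a).2
    · have hd : d i = false := by simp only [d, h]; rfl
      rw [hd]
      have : B (Sum.inr a) = (bQ a : Fin N → R) := by
        simp [B]
      rw [this]
      simp only [Bool.false_eq_true, ↓reduceIte, zero_smul]
      exact (bQ a).2
  refine ⟨(Pi.basisFun R (Fin N)).toMatrix C, C.toMatrix (Pi.basisFun R (Fin N)), d,
    Module.Basis.toMatrix_mul_toMatrix_flip _ _, ?_⟩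
  ext i j
  rw [Matrix.mul_diagonal]
  have h1 : (e * (Pi.basisFun R (Fin N)).toMatrix C) i j = f (C j) i := by
    rw [Matrix.mul_apply]
    simp only [Module.Basis.toMatrix_apply, Pi.basisFun_repr]
    rfl
  rw [h1, hC j]
  simp only [Module.Basis.toMatrix_apply, Pi.basisFun_repr, Pi.smul_apply, smul_eq_mul]
  ring

/-- An idempotent matrix of holomorphic functions near a compact connected plane set is conjugate to
a constant diagonal matrix with entries `0` and `1`. -/
theorem idem_plane (hK : IsPreconnected K) (hne : K.Nonempty) (hc : IsCompact K) {N : ℕ}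
    {e : ℂ → Matrix (Fin N) (Fin N) ℂ} (he : MAn K e) (hid : ∀ᶠ x in 𝓝ˢ K, e x * e x = e x) :
    ∃ (V : ℂ → Matrix (Fin N) (Fin N) ℂ) (d : Fin N → Bool), MAn K V ∧ (∀ x ∈ K, (V x).det ≠ 0) ∧
      ∀ᶠ x in 𝓝ˢ K, e x * V x = V x * Matrix.diagonal fun i => if d i then (1 : ℂ) else 0 := by
  classical
  have := OK.isDomain hK hne
  have := OK.isPrincipal hK hc
  let toM : (g : ℂ → Matrix (Fin N) (Fin N) ℂ) → MAn K g → Matrix (Fin N) (Fin N) (OK K) :=
    fun g hg => Matrix.of fun i j => OK.mk (fun x => g x i j) (hg i j)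
  have hsum : ∀ {ι : Type} (t : Finset ι) (f : ι → ℂ → ℂ) (hf : ∀ i, AnalyticOnNhd ℂ (f i) K),
      ∑ i ∈ t, OK.mk (f i) (hf i) = OK.mk (fun x => ∑ i ∈ t, f i x)
        (fun x hx => Finset.analyticAt_fun_sum _ fun i _ => hf i x hx) := by
    intro ι t f hf
    induction t using Finset.induction_on with
    | empty => simp only [Finset.sum_empty]; rfl
    | insert a s ha ih =>
      rw [Finset.sum_insert ha, ih]
      simp only [Finset.sum_insert ha]
      rfl
  have hmul : ∀ (g h : ℂ → Matrix (Fin N) (Fin N) ℂ) (hg : MAn K g) (hh : MAn K h),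
      toM g hg * toM h hh = toM (fun x => g x * h x) (hg.mul hh) := by
    intro g h hg hh
    ext1 i j
    rw [Matrix.mul_apply]
    change ∑ k, OK.mk (fun x => g x i k) (hg i k) * OK.mk (fun x => h x k j) (hh k j) =
      OK.mk (fun x => (g x * h x) i j) (hg.mul hh i j)
    simp only [OK.mk_mul]
    rw [hsum Finset.univ (fun k x => g x i k * h x k j) (fun k => (hg i k).mul (hh k j))]
    simp only [Matrix.mul_apply]
  have heq : ∀ (g h : ℂ → Matrix (Fin N) (Fin N) ℂ) (hg : MAn K g) (hh : MAn K h),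
      toM g hg = toM h hh ↔ ∀ᶠ x in 𝓝ˢ K, g x = h x := by
    intro g h hg hh
    constructor
    · intro H
      have : ∀ i j, ∀ᶠ x in 𝓝ˢ K, g x i j = h x i j := by
        intro i j
        have := congrFun (congrFun H i) j
        exact (OK.mk_eq_iff (hg i j) (hh i j)).mp this
      have h2 : ∀ᶠ x in 𝓝ˢ K, ∀ i j, g x i j = h x i j := by
        rw [eventually_all]
        intro i
        rw [eventually_all]
        exact this i
      filter_upwards [h2] with x hx
      ext i j
      exact hx i j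
    · intro H
      ext1 i j
      refine (OK.mk_eq_iff (hg i j) (hh i j)).mpr ?_
      filter_upwards [H] with x hx
      rw [hx]
  have hrep : ∀ M : Matrix (Fin N) (Fin N) (OK K), ∃ g, ∃ hg : MAn K g, M = toM g hg := by
    intro M
    choose f hf hfe using fun i j => OK.exists_rep (M i j)
    exact ⟨fun x => Matrix.of fun i j => f i j x, fun i j => hf i j, by
      ext1 i j
      exact hfe i j⟩
  have hid' : toM e he * toM e he = toM e he := by
    rw [hmul, heq]
    exact hid
  obtain ⟨V', W', d, hVW, heV⟩ := idem_pid (toM e he) hid'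
  obtain ⟨V, hV, rfl⟩ := hrep V'
  obtain ⟨W, hW, rfl⟩ := hrep W'
  refine ⟨V, d, hV, ?_, ?_⟩
  · have h1 : (1 : Matrix (Fin N) (Fin N) (OK K)) = toM (fun _ => 1) (MAn.const 1) := by
      ext1 i j
      by_cases hij : i = j
      · subst hij
        rw [Matrix.one_apply_eq]
        change _ = OK.mk (fun x => (1 : Matrix (Fin N) (Fin N) ℂ) i i) analyticOnNhd_const
        simp only [Matrix.one_apply_eq]
        rfl
      · rw [Matrix.one_apply_ne hij]
        change _ = OK.mk (fun x => (1 : Matrix (Fin N) (Fin N) ℂ) i j) analyticOnNhd_const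
        simp only [Matrix.one_apply_ne hij]
        rfl
    rw [hmul, h1, heq] at hVW
    intro x hx
    have h2 := (hVW.filter_mono (nhds_le_nhdsSet hx)).self_of_nhds
    have h3 : (V x).det * (W x).det = 1 := by rw [← Matrix.det_mul, h2, Matrix.det_one]
    exact left_ne_zero_of_mul_eq_one h3
  · have h1 : (Matrix.diagonal fun i => if d i then (1 : OK K) else 0) =
        toM (fun _ => Matrix.diagonal fun i => if d i then (1 : ℂ) else 0) (MAn.const _) := by
      ext1 i j
      by_cases hij : i = j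
      · subst hij
        rw [Matrix.diagonal_apply_eq]
        change _ = OK.mk (fun x => (Matrix.diagonal fun i => if d i then (1 : ℂ) else 0) i i)
          analyticOnNhd_const
        simp only [Matrix.diagonal_apply_eq]
        by_cases hd : d i
        · simp only [hd, if_true]
          rfl
        · simp only [hd]
          rfl
      · rw [Matrix.diagonal_apply_ne _ hij]
        change _ = OK.mk (fun x => (Matrix.diagonal fun i => if d i then (1 : ℂ) else 0) i j)
          analyticOnNhd_const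
        simp only [Matrix.diagonal_apply_ne _ hij]
        rfl
    rw [h1, hmul, hmul, heq] at heV
    exact heV

end pid

end DQ.F
end

section

/-! # A Baire category argument -/

set_option autoImplicit false

open Set Filter Topology Metric

namespace Pool.Agent.DQ.X

variable {T : Type*} [NormedAddCommGroup T] [NormedSpace ℂ T] [FiniteDimensional ℂ T]
  {Z : Type*} [NormedAddCommGroup Z] [NormedSpace ℂ Z]

/-- PROOF. Let `closedBall t₁ ε ⊆ W`, `ε > 0`. For `N : ℕ` let `S N` be the set of the `t ∈ closedBall t₁ ε` such that there is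
`p : Fin (N + 1) → ℂ` with `‖p‖ = 1` and `∑ i, p i • h (k + i) t = 0` for all `k`. `S N` is closed (sequentially:
`t_m → t` in `S N`, with `p_m` in the compact sphere, a subsequence `p_m → p` (`IsCompact.tendsto_subseq`), and the sum is
continuous in `(p, t)`, as `h (k + i)` is continuous on the ball; or: `S N` is the image under the projection `Prod.fst` of
the compact set `{(t, p) | t ∈ closedBall t₁ ε, p ∈ sphere 0 1, ∀ k, ... = 0}`; it is a closed subset of a compact set, by
`ContinuousOn.preimage_isClosed_of_isClosed`; `T` is a proper space, `FiniteDimensional.proper ℂ T`). Every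
`t` in the ball is in some `S N` (normalise `p`: divide by `‖p‖ ≠ 0`). The sets `f N = S N ∪ (ball t₁ ε)ᶜ` are closed and
their union is `univ`, `T` is complete, so by the Baire theorem (`dense_iUnion_interior_of_closed`) the union of the interiors is
dense; it meets `ball t₁ ε`: there are `N` and `x ∈ ball t₁ ε ∩ interior (f N)`. Let `W' = ball t₁ ε ∩ interior (f N)`, it
is contained in `S N`. `‖p‖ = 1` implies `p ≠ 0`. -/
theorem exists_N {W : Set T} (hW : IsOpen W) (hne : W.Nonempty) {h : ℕ → T → Z}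
    (hc : ∀ k, ContinuousOn (h k) W)
    (hex : ∀ t ∈ W, ∃ (N : ℕ) (p : Fin (N + 1) → ℂ), p ≠ 0 ∧ ∀ k : ℕ, ∑ i, p i • h (k + i) t = 0) :
    ∃ (N : ℕ) (W' : Set T), IsOpen W' ∧ W'.Nonempty ∧ W' ⊆ W ∧
      ∀ t ∈ W', ∃ p : Fin (N + 1) → ℂ, p ≠ 0 ∧ ∀ k : ℕ, ∑ i, p i • h (k + i) t = 0 := by
  classical
  have hprop : ProperSpace T := FiniteDimensional.proper ℂ T
  obtain ⟨t₁, ht₁⟩ := hne
  obtain ⟨ε, hε, hball⟩ := Metric.nhds_basis_closedBall.mem_iff.mp (hW.mem_nhds ht₁)
  let f : (N : ℕ) → T × (Fin (N + 1) → ℂ) → (ℕ → Z) := fun N q k => ∑ i, q.2 i • h (k + i) q.1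
  let C : (N : ℕ) → Set (T × (Fin (N + 1) → ℂ)) := fun N =>
    (closedBall t₁ ε ×ˢ sphere (0 : Fin (N + 1) → ℂ) 1) ∩ f N ⁻¹' {0}
  have hf : ∀ N, ContinuousOn (f N) (closedBall t₁ ε ×ˢ sphere (0 : Fin (N + 1) → ℂ) 1) := by
    intro N
    refine continuousOn_pi.mpr fun k => ?_
    refine continuousOn_finsetSum _ fun i _ => ?_
    refine ContinuousOn.smul ?_ ?_
    · exact ((continuous_apply i).comp continuous_snd).continuousOn
    · exact (hc (k + i)).comp continuousOn_fst fun q hq => hball hq.1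
  have hC : ∀ N, IsCompact (C N) := by
    intro N
    have h1 : IsCompact (closedBall t₁ ε ×ˢ sphere (0 : Fin (N + 1) → ℂ) 1) :=
      (isCompact_closedBall t₁ ε).prod (isCompact_sphere _ _)
    exact h1.of_isClosed_subset
      ((hf N).preimage_isClosed_of_isClosed h1.isClosed isClosed_singleton) inter_subset_left
  let S : ℕ → Set T := fun N => Prod.fst '' C N
  have hS : ∀ N, IsClosed (S N) := fun N => ((hC N).image continuous_fst).isClosed
  have hSmem : ∀ N, ∀ t ∈ S N, ∃ p : Fin (N + 1) → ℂ, p ≠ 0 ∧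
      ∀ k : ℕ, ∑ i, p i • h (k + i) t = 0 := by
    rintro N _ ⟨q, ⟨hq1, hq2⟩, rfl⟩
    refine ⟨q.2, ?_, fun k => congrFun hq2 k⟩
    intro h0
    have h1 := mem_sphere_zero_iff_norm.mp hq1.2
    rw [h0, norm_zero] at h1
    exact zero_ne_one h1
  have hcov : ⋃ N, (S N ∪ (ball t₁ ε)ᶜ) = univ := by
    refine eq_univ_of_forall fun t => ?_
    by_cases ht : t ∈ ball t₁ ε
    · obtain ⟨N, p, hp, hk⟩ := hex t (hball (ball_subset_closedBall ht))
      have hpn : ‖p‖ ≠ 0 := norm_ne_zero_iff.mpr hp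
      refine mem_iUnion.mpr ⟨N, Or.inl ⟨(t, ((‖p‖ : ℂ)⁻¹) • p),
        ⟨⟨ball_subset_closedBall ht, ?_⟩, ?_⟩, rfl⟩⟩
      · refine mem_sphere_zero_iff_norm.mpr ?_
        change ‖((‖p‖ : ℂ)⁻¹) • p‖ = 1
        rw [norm_smul, norm_inv, Complex.norm_real, norm_norm, inv_mul_cancel₀ hpn]
      · refine mem_singleton_iff.mpr (funext fun k => ?_)
        change ∑ i, (((‖p‖ : ℂ)⁻¹) • p) i • h (k + i) t = 0
        have h1 : ∑ i, (((‖p‖ : ℂ)⁻¹) • p) i • h (k + i) t =
            ((‖p‖ : ℂ)⁻¹) • ∑ i, p i • h (k + i) t := by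
          rw [Finset.smul_sum]
          refine Finset.sum_congr rfl fun i _ => ?_
          rw [Pi.smul_apply, smul_eq_mul, mul_smul]
        rw [h1, hk, smul_zero]
    · exact mem_iUnion.mpr ⟨0, Or.inr ht⟩
  have hcomp : CompleteSpace T := FiniteDimensional.complete ℂ T
  have hdense := dense_iUnion_interior_of_closed
    (fun N => (hS N).union isOpen_ball.isClosed_compl) hcov
  obtain ⟨x, hx1, hx2⟩ := hdense.inter_open_nonempty (ball t₁ ε) isOpen_ball
    ⟨t₁, mem_ball_self hε⟩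
  obtain ⟨N, hN⟩ := mem_iUnion.mp hx2
  refine ⟨N, ball t₁ ε ∩ interior (S N ∪ (ball t₁ ε)ᶜ), isOpen_ball.inter isOpen_interior,
    ⟨x, hx1, hN⟩, fun t ht => hball (ball_subset_closedBall ht.1), fun t ht => ?_⟩
  rcases interior_subset ht.2 with h1 | h1
  · exact hSmem N t h1
  · exact absurd ht.1 h1

end Pool.Agent.DQ.X
end

section

/-!
# Idempotent matrices on `A × S`, `A` a compact connected plane set, `S` compact and star shaped

Scaling homotopy: an idempotent matrix of holomorphic functions near `A ×ˢ S` is conjugate, by an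
invertible matrix of holomorphic functions near `A ×ˢ S`, to a constant diagonal matrix. In other words:
direct summands of free sheaves near `A ×ˢ S` are free.
-/

set_option autoImplicit false

open Metric Set Filter Topology

namespace DQ.F

section

variable {E : Type*} [NormedAddCommGroup E] [NormedSpace ℂ E]

/-- subdivision of `[0, 1]` adapted to an open condition near the diagonal -/
theorem exists_subdivision {X : Type*} [TopologicalSpace X] {K : Set X} (hK : IsCompact K)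
    {D : ℝ → ℝ → X → ℂ} (hD : ∀ s ∈ Icc (0 : ℝ) 1, ∀ x ∈ K,
      ContinuousAt (fun p : ℝ × ℝ × X => D p.1 p.2.1 p.2.2) (s, s, x))
    (h1 : ∀ s ∈ Icc (0 : ℝ) 1, ∀ x ∈ K, D s s x ≠ 0) :
    ∃ n : ℕ, 0 < n ∧ ∀ k < n, ∀ x ∈ K, D ((k : ℝ) / n) (((k + 1 : ℕ) : ℝ) / n) x ≠ 0 := by
  -- for each `s` a uniform radius
  have hloc : ∀ s ∈ Icc (0 : ℝ) 1, ∃ δ > 0, ∀ a ∈ ball s δ, ∀ b ∈ ball s δ, ∀ x ∈ K, D a b x ≠ 0 := by
    intro s hs
    have h2 : ∀ x ∈ K, ∀ᶠ p : (ℝ × ℝ) × X in 𝓝 (s, s) ×ˢ 𝓝 x, D p.1.1 p.1.2 p.2 ≠ 0 := by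
      intro x hx
      have h3 := (hD s hs x hx).eventually_ne (h1 s hs x hx)
      have h4 : Tendsto (fun p : (ℝ × ℝ) × X => (p.1.1, p.1.2, p.2)) (𝓝 (s, s) ×ˢ 𝓝 x)
          (𝓝 (s, s, x)) := by
        rw [← nhds_prod_eq]
        have : Continuous fun p : (ℝ × ℝ) × X => (p.1.1, p.1.2, p.2) := by fun_prop
        exact this.tendsto ((s, s), x)
      exact h4.eventually h3
    have h5 : ∀ᶠ p : (ℝ × ℝ) × X in 𝓝 (s, s) ×ˢ 𝓝ˢ K, D p.1.1 p.1.2 p.2 ≠ 0 := by
      rw [hK.prod_nhdsSet_eq_biSup]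
      simp only [eventually_iSup]
      exact h2
    have h6 : ∀ᶠ q : ℝ × ℝ in 𝓝 (s, s), ∀ x ∈ K, D q.1 q.2 x ≠ 0 := by
      have := h5.curry
      filter_upwards [this] with q hq x hx
      exact (hq.filter_mono (nhds_le_nhdsSet hx)).self_of_nhds
    obtain ⟨δ, hδ, hsub⟩ := Metric.mem_nhds_iff.mp h6
    refine ⟨δ, hδ, fun a ha b hb x hx => ?_⟩
    have : (a, b) ∈ ball (s, s) δ := by
      rw [mem_ball, Prod.dist_eq]
      exact max_lt ha hb
    exact hsub this x hx
  choose! δ hδ hδ' using hloc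
  obtain ⟨r, hr, hcov⟩ := lebesgue_number_lemma_of_metric (isCompact_Icc (a := (0 : ℝ)) (b := 1))
    (c := fun s : Icc (0 : ℝ) 1 => ball (s : ℝ) (δ s)) (fun s => isOpen_ball)
    (fun s hs => mem_iUnion.mpr ⟨⟨s, hs⟩, mem_ball_self (hδ s hs)⟩)
  obtain ⟨n, hn⟩ := exists_nat_gt (1 / r)
  have hn0 : 0 < n := by
    have : (0 : ℝ) < n := lt_trans (by positivity) hn
    exact_mod_cast this
  have hnr : (0 : ℝ) < n := by exact_mod_cast hn0
  refine ⟨n, hn0, fun k hk x hx => ?_⟩
  have hk1 : (k : ℝ) / n ∈ Icc (0 : ℝ) 1 := by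
    refine ⟨by positivity, ?_⟩
    rw [div_le_one hnr]
    exact_mod_cast hk.le
  obtain ⟨s, hs⟩ := hcov _ hk1
  refine hδ' s s.2 _ (hs (mem_ball_self hr)) _ (hs ?_) x hx
  rw [mem_ball, Real.dist_eq]
  have : ((k + 1 : ℕ) : ℝ) / n - (k : ℝ) / n = 1 / n := by
    push_cast
    ring
  rw [this, abs_of_pos (by positivity), div_lt_iff₀ hnr]
  rw [div_lt_iff₀ hr] at hn
  linarith

variable {N : ℕ}

/-- the intertwiner of two idempotents -/
theorem idem_intertwine {R : Type*} [Ring R] {e f : R} (he : e * e = e) (hf : f * f = f) :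
    e * (1 + (2 * e - 1) * (f - e)) = (1 + (2 * e - 1) * (f - e)) * f := by
  have h1 : (1 + (2 * e - 1) * (f - e)) = 1 - e - f + 2 * (e * f) := by
    have : (2 * e - 1) * (f - e) = 2 * (e * f) - 2 * (e * e) - f + e := by noncomm_ring
    rw [this, he]
    noncomm_ring
  rw [h1]
  have l : e * (1 - e - f + 2 * (e * f)) = e - e * e - e * f + 2 * (e * e * f) := by noncomm_ring
  have r : (1 - e - f + 2 * (e * f)) * f = f - e * f - f * f + 2 * (e * (f * f)) := by noncomm_ring
  rw [l, r, he, hf]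
  noncomm_ring

/-- Scaling homotopy for idempotents. -/
theorem idem_scale {A : Set ℂ} {S : Set E} (hA : IsCompact A) (hS : IsCompact S)
    (hstar : ∀ s ∈ Icc (0 : ℝ) 1, ∀ y ∈ S, (s : ℂ) • y ∈ S)
    {e : ℂ × E → Matrix (Fin N) (Fin N) ℂ} (he : MAn (A ×ˢ S) e)
    (hid : ∀ᶠ x in 𝓝ˢ (A ×ˢ S), e x * e x = e x) :
    ∃ u : ℂ × E → Matrix (Fin N) (Fin N) ℂ, MAn (A ×ˢ S) u ∧ (∀ x ∈ A ×ˢ S, (u x).det ≠ 0) ∧
      ∀ᶠ x in 𝓝ˢ (A ×ˢ S), e x * u x = u x * e (x.1, 0) := by
  -- the path of idempotents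
  let φ : ℝ → ℂ × E → ℂ × E := fun s x => (x.1, (s : ℂ) • x.2)
  have hφa : ∀ s, AnalyticOnNhd ℂ (φ s) univ := fun s x _ =>
    analyticAt_fst.prod (analyticAt_const.smul analyticAt_snd)
  have hφm : ∀ s ∈ Icc (0 : ℝ) 1, MapsTo (φ s) (A ×ˢ S) (A ×ˢ S) := by
    intro s hs x hx
    exact ⟨hx.1, hstar s hs _ hx.2⟩
  have hφc : Continuous fun p : ℝ × (ℂ × E) => φ p.1 p.2 := by
    simp only [φ]
    fun_prop
  let f : ℝ → ℂ × E → Matrix (Fin N) (Fin N) ℂ := fun s x => e (φ s x)
  have hfa : ∀ s ∈ Icc (0 : ℝ) 1, MAn (A ×ˢ S) (f s) := fun s hs =>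
    he.comp ((hφa s).mono (subset_univ _)) (hφm s hs)
  have hfid : ∀ s ∈ Icc (0 : ℝ) 1, ∀ᶠ x in 𝓝ˢ (A ×ˢ S), f s x * f s x = f s x := by
    intro s hs
    rw [eventually_nhdsSet_iff_forall]
    intro x hx
    have h1 : Tendsto (φ s) (𝓝 x) (𝓝 (φ s x)) := ((hφa s x trivial).continuousAt)
    exact h1.eventually (hid.filter_mono (nhds_le_nhdsSet (hφm s hs hx)))
  let g : ℝ → ℝ → ℂ × E → Matrix (Fin N) (Fin N) ℂ := fun s t x =>
    1 + (2 • f s x - 1) * (f t x - f s x)
  have hga : ∀ s ∈ Icc (0 : ℝ) 1, ∀ t ∈ Icc (0 : ℝ) 1, MAn (A ×ˢ S) (g s t) := by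
    intro s hs t ht
    have h2 : MAn (A ×ˢ S) fun x => 2 • f s x := by
      have := (hfa s hs).add (hfa s hs)
      simpa only [two_smul] using this
    exact (MAn.const 1).add ((h2.sub (MAn.const 1)).mul ((hfa t ht).sub (hfa s hs)))
  have hgD : ∀ s ∈ Icc (0 : ℝ) 1, ∀ x ∈ A ×ˢ S,
      ContinuousAt (fun p : ℝ × ℝ × (ℂ × E) => (g p.1 p.2.1 p.2.2).det) (s, s, x) := by
    intro s hs x hx
    have hc0 : ContinuousAt e (φ s x) := he.continuousAt (hφm s hs hx)
    have hc1 : ContinuousAt (fun p : ℝ × ℝ × (ℂ × E) => f p.1 p.2.2) (s, s, x) := by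
      refine ContinuousAt.comp (g := e) (f := fun p : ℝ × ℝ × (ℂ × E) => φ p.1 p.2.2) hc0 ?_
      exact (hφc.comp (by fun_prop : Continuous fun p : ℝ × ℝ × (ℂ × E) => (p.1, p.2.2))).continuousAt
    have hc2 : ContinuousAt (fun p : ℝ × ℝ × (ℂ × E) => f p.2.1 p.2.2) (s, s, x) := by
      refine ContinuousAt.comp (g := e) (f := fun p : ℝ × ℝ × (ℂ × E) => φ p.2.1 p.2.2) hc0 ?_
      exact (hφc.comp (by fun_prop : Continuous fun p : ℝ × ℝ × (ℂ × E) => (p.2.1, p.2.2))).continuousAt
    have hc3 : Continuous fun M : Matrix (Fin N) (Fin N) ℂ × Matrix (Fin N) (Fin N) ℂ =>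
        (1 + (2 • M.1 - 1) * (M.2 - M.1)).det := by
      refine Continuous.matrix_det ?_
      exact continuous_const.add ((((continuous_fst.const_smul 2).sub continuous_const)).matrix_mul
        (continuous_snd.sub continuous_fst))
    exact ContinuousAt.comp (g := fun M : Matrix (Fin N) (Fin N) ℂ × Matrix (Fin N) (Fin N) ℂ =>
        (1 + (2 • M.1 - 1) * (M.2 - M.1)).det) hc3.continuousAt (hc1.prodMk hc2)
  obtain ⟨n, hn, hne⟩ := exists_subdivision (hA.prod hS) (D := fun s t x => (g s t x).det) hgD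
    (by
      intro s hs x hx
      simp [g])
  have hnr : (0 : ℝ) < n := by exact_mod_cast hn
  have hmem : ∀ k ≤ n, (k : ℝ) / n ∈ Icc (0 : ℝ) 1 := by
    intro k hk
    refine ⟨by positivity, ?_⟩
    rw [div_le_one hnr]
    exact_mod_cast hk
  -- chain: `f (k/n) * u = u * f 0`
  have key : ∀ k ≤ n, ∃ u : ℂ × E → Matrix (Fin N) (Fin N) ℂ, MAn (A ×ˢ S) u ∧
      (∀ x ∈ A ×ˢ S, (u x).det ≠ 0) ∧
      ∀ᶠ x in 𝓝ˢ (A ×ˢ S), f 0 x * u x = u x * f ((k : ℝ) / n) x := by
    intro k
    induction k with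
    | zero =>
      intro _
      refine ⟨fun _ => 1, MAn.const 1, fun x _ => by simp, Eventually.of_forall fun x => ?_⟩
      simp
    | succ k ih =>
      intro hk
      obtain ⟨u, hu, hu0, hue⟩ := ih (by omega)
      have hk1 := hmem k (by omega)
      have hk2 := hmem (k + 1) hk
      refine ⟨fun x => u x * g ((k : ℝ) / n) (((k + 1 : ℕ) : ℝ) / n) x,
        hu.mul (hga _ hk1 _ hk2), fun x hx => ?_, ?_⟩
      · rw [Matrix.det_mul]
        exact mul_ne_zero (hu0 x hx) (hne k (by omega) x hx)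
      · filter_upwards [hue, hfid _ hk1, hfid _ hk2] with x h1 h2 h3
        have h4 : f ((k : ℝ) / n) x * g ((k : ℝ) / n) (((k + 1 : ℕ) : ℝ) / n) x =
            g ((k : ℝ) / n) (((k + 1 : ℕ) : ℝ) / n) x * f (((k + 1 : ℕ) : ℝ) / n) x := by
          have := idem_intertwine h2 h3
          have e2 : (2 : ℕ) • f ((k : ℝ) / n) x = 2 * f ((k : ℝ) / n) x := by
            rw [nsmul_eq_mul]; rfl
          simp only [g, e2]
          exact this
        rw [← mul_assoc, h1, mul_assoc, h4, mul_assoc]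
  obtain ⟨u, hu, hu0, hue⟩ := key n le_rfl
  refine ⟨fun x => (u x)⁻¹, hu.inv hu0, fun x hx => ?_, ?_⟩
  · rw [Matrix.det_nonsing_inv, Ring.inverse_eq_inv']
    exact inv_ne_zero (hu0 x hx)
  · have hdet : ∀ᶠ x in 𝓝ˢ (A ×ˢ S), (u x).det ≠ 0 := by
      rw [eventually_nhdsSet_iff_forall]
      intro x hx
      exact (hu.det x hx).continuousAt.eventually_ne (hu0 x hx)
    filter_upwards [hue, hdet] with x h1 h2
    have hunit : IsUnit (u x).det := isUnit_iff_ne_zero.mpr h2
    have e1 : f 0 x = e (x.1, 0) := by simp [f, φ]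
    have e2 : f ((n : ℝ) / n) x = e x := by
      rw [div_self hnr.ne']
      simp [f, φ]
    rw [e1, e2] at h1
    -- `e (x.1,0) * u = u * e x`
    calc e x * (u x)⁻¹ = (u x)⁻¹ * (u x * e x) * (u x)⁻¹ := by
          rw [← mul_assoc, Matrix.nonsing_inv_mul _ hunit, one_mul]
      _ = (u x)⁻¹ * e (x.1, 0) := by
          rw [← h1, mul_assoc, mul_assoc, Matrix.mul_nonsing_inv _ hunit, mul_one]

/-- MAIN RESULT: an idempotent matrix of holomorphic functions near `A ×ˢ S` (`A` a compact connected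
plane set, for example a closed annulus or disc; `S` compact and star shaped in a complex normed space, for
example a closed ball or polydisc around `0`) is conjugate to a constant diagonal matrix. -/
theorem idem_free {A : Set ℂ} {S : Set E} (hA : IsCompact A) (hAc : IsPreconnected A)
    (hAn : A.Nonempty) (hS : IsCompact S) (hSn : S.Nonempty)
    (hstar : ∀ s ∈ Icc (0 : ℝ) 1, ∀ y ∈ S, (s : ℂ) • y ∈ S)
    {e : ℂ × E → Matrix (Fin N) (Fin N) ℂ} (he : MAn (A ×ˢ S) e)
    (hid : ∀ᶠ x in 𝓝ˢ (A ×ˢ S), e x * e x = e x) :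
    ∃ (U : ℂ × E → Matrix (Fin N) (Fin N) ℂ) (d : Fin N → Bool), MAn (A ×ˢ S) U ∧
      (∀ x ∈ A ×ˢ S, (U x).det ≠ 0) ∧
      ∀ᶠ x in 𝓝ˢ (A ×ˢ S), e x * U x = U x * Matrix.diagonal fun i => if d i then (1 : ℂ) else 0 := by
  obtain ⟨y₀, hy₀⟩ := hSn
  have h0S : (0 : E) ∈ S := by
    have := hstar 0 ⟨le_rfl, zero_le_one⟩ y₀ hy₀
    simpa using this
  obtain ⟨u, hu, hu0, hue⟩ := idem_scale hA hS hstar he hid
  have hia : AnalyticOnNhd ℂ (fun w : ℂ => (w, (0 : E))) A := fun w _ =>
    analyticAt_id.prod analyticAt_const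
  have hmaps : MapsTo (fun w : ℂ => (w, (0 : E))) A (A ×ˢ S) := fun w hw => ⟨hw, h0S⟩
  have he0 : MAn A fun w : ℂ => e (w, 0) := he.comp hia hmaps
  have hid0 : ∀ᶠ w in 𝓝ˢ A, e (w, 0) * e (w, 0) = e (w, 0) := by
    rw [eventually_nhdsSet_iff_forall]
    intro w hw
    have : Tendsto (fun w : ℂ => (w, (0 : E))) (𝓝 w) (𝓝 (w, 0)) :=
      (by fun_prop : Continuous fun w : ℂ => (w, (0 : E))).tendsto w
    exact this.eventually (hid.filter_mono (nhds_le_nhdsSet (hmaps hw)))
  obtain ⟨V, d, hV, hV0, hVe⟩ := idem_plane hAc hAn hA he0 hid0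
  have hfst : AnalyticOnNhd ℂ (Prod.fst : ℂ × E → ℂ) (A ×ˢ S) := fun x _ => analyticAt_fst
  have hfm : MapsTo (Prod.fst : ℂ × E → ℂ) (A ×ˢ S) A := fun x hx => hx.1
  refine ⟨fun x => u x * V x.1, d, hu.mul (hV.comp hfst hfm), fun x hx => ?_, ?_⟩
  · rw [Matrix.det_mul]
    exact mul_ne_zero (hu0 x hx) (hV0 _ hx.1)
  · have hVe' : ∀ᶠ x in 𝓝ˢ (A ×ˢ S), e (x.1, 0) * V x.1 =
        V x.1 * Matrix.diagonal fun i => if d i then (1 : ℂ) else 0 := by
      rw [eventually_nhdsSet_iff_forall]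
      intro x hx
      have : Tendsto (Prod.fst : ℂ × E → ℂ) (𝓝 x) (𝓝 x.1) := continuous_fst.tendsto x
      exact this.eventually (hVe.filter_mono (nhds_le_nhdsSet hx.1))
    filter_upwards [hue, hVe'] with x h1 h2
    rw [← mul_assoc, h1, mul_assoc, h2, mul_assoc]

end

end DQ.F
end
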