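import Mathlib
import Pool.Agent.Lib.MP_4aa2a9_ag.Mg.G002
import Pool.Agent.Lib.MP_4aa2a9_ag.Mg.G001
import Pool.Agent.Lib.MP_4aa2a9_ag.Mg.G004
import Pool.Agent.Lib.MP_ca0fc2_an.Holo
import Pool.Agent.Lib.MP_4aa2a9_ag.Mg.G008

section

/-! # DQ: definitions of the modules H, G, X and of the conclusion of the local main theorem -/

set_option autoImplicit false

open Set Filter Topology Matrix

universe u v w

namespace Pool.Agent.DQ

variable {V : Type u} [NormedAddCommGroup V] [NormedSpace ℂ V] [FiniteDimensional ℂ V]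

/-! ## Module H -/

section H

variable (𝓐 : Defo.{u, v} V)

/-- `d`-reflexive at the points of `S` -/
structure DRefl (d : ℕ) (M : EMod.{u, v, w} 𝓐.A) (S : Set V) : Prop where
  coh : M.Coh S
  tf : TF 𝓐 M S
  ext : ∀ x ∈ S, ∀ j < d, ExtZero (𝓐.A.St x) (M.St x) j
  bid : ∀ x ∈ S, BidualBij (𝓐.A.St x) (M.St x) d

/-- the values at `x` of a sequence of matrices of families -/
def cm {g : ℕ → ℕ} (C : ∀ k, Fin (g k) → Fin (g (k + 1)) → (x : V) → 𝓐.A.St x) (k : ℕ) (x : V) :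
    Matrix (Fin (g k)) (Fin (g (k + 1))) (𝓐.A.St x) := of fun i j => C k i j x

/-- `M` is, near the set `K`, the cohomology at the place `d + 1` of a complex
`A^{g 1} → A^{g 2} → … → A^{g (d+2)}` (rows, `u ↦ u C_k`) which is exact at the places `1, …, d`
(`g 0 = 0`). This is the case for `M = Ext^d(E, A)`, `E` a coherent right module with
`Ext^j(E, A) = 0` for `j < d`. -/
structure HType (d : ℕ) (M : EMod.{u, v, w} 𝓐.A) (K : Set V) (g : ℕ → ℕ)
    (C : ∀ k, Fin (g k) → Fin (g (k + 1)) → (x : V) → 𝓐.A.St x)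
    (φ : ∀ x, (Fin (g (d + 1)) → 𝓐.A.St x) → M.St x) : Prop where
  sub : K ⊆ M.dom
  zero : g 0 = 0
  at_C : ∀ k i j, ∀ x ∈ K, 𝓐.A.At (C k i j) x
  comp : ∀ k, ∀ x ∈ K, cm 𝓐 C k x * cm 𝓐 C (k + 1) x = 0
  exact : ∀ k < d, ∀ x ∈ K, ∀ u, u ᵥ* cm 𝓐 C (k + 1) x = 0 → ∃ t, t ᵥ* cm 𝓐 C k x = u
  φ_add : ∀ x ∈ K, ∀ u u', u ᵥ* cm 𝓐 C (d + 1) x = 0 → u' ᵥ* cm 𝓐 C (d + 1) x = 0 →
    φ x (u + u') = φ x u + φ x u'
  φ_smul : ∀ x ∈ K, ∀ (a : 𝓐.A.St x) u, u ᵥ* cm 𝓐 C (d + 1) x = 0 → φ x (a • u) = a • φ x u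
  φ_surj : ∀ x ∈ K, ∀ m, ∃ u, u ᵥ* cm 𝓐 C (d + 1) x = 0 ∧ φ x u = m
  φ_ker : ∀ x ∈ K, ∀ u, u ᵥ* cm 𝓐 C (d + 1) x = 0 → (φ x u = 0 ↔ ∃ t, t ᵥ* cm 𝓐 C d x = u)
  φ_at : ∀ (u : (x : V) → Fin (g (d + 1)) → 𝓐.A.St x), ∀ x ∈ K, (𝓐.A.free _).At u x →
    (∀ᶠ y in 𝓝 x, u y ᵥ* cm 𝓐 C (d + 1) y = 0) → M.At (fun y => φ y (u y)) x

end H

/-! ## Module G -/

section G

/-- locally (near every point of `Y`) the zero set of finitely many holomorphic functions -/
def AnalyticNear (Y : Set V) (U : Set V) : Prop :=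
  ∀ y ∈ Y ∩ U, ∃ (m : ℕ) (f : Fin m → V → ℂ), (∀ j, HolAt (f j) y) ∧
    ∀ᶠ x in 𝓝 y, (x ∈ Y ↔ ∀ j, f j x = 0)

/-- an ideal of grade `≥ c`: it contains a regular sequence of length `c` -/
def IdealGrade {R : Type v} [CommRing R] (I : Ideal R) (c : ℕ) : Prop :=
  ∃ a : Fin c → R, (∀ i, a i ∈ I) ∧
    ∀ i b, a i * b ∈ Ideal.span (a '' {j | j < i}) → b ∈ Ideal.span (a '' {j | j < i})

/-- no nonzero element of the module is killed by an ideal of grade `≥ c` -/
def NoGrade (R : Type v) [CommRing R] (M : Type w) [AddCommGroup M] [Module R M] (c : ℕ) : Prop :=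
  ∀ m : M, IdealGrade (Module.annihilator R (Submodule.span R {m})) c → m = 0

/-- the sheaf `E` is free of rank `r` near `b` -/
def FreeAt {B : Type u} [NormedAddCommGroup B] [NormedSpace ℂ B] (E : EMod.{u, u, w} (O B))
    (r : ℕ) (b : B) : Prop :=
  ∃ f : Fin r → (b : B) → E.St b, (∀ i, E.At (f i) b) ∧
    ∀ᶠ b' in 𝓝 b, ∀ m : E.St b', ∃! a : Fin r → (O B).St b', m = ∑ i, a i • f i b'

/-- the type of base points `(t, w, z)` -/
abbrev Bs (k : ℕ) : Type := (Fin k → ℂ) × ℂ × ℂ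

variable {V : Type} [NormedAddCommGroup V] [NormedSpace ℂ V] [FiniteDimensional ℂ V]

/-- the closed product set with centre `c = e y₀` and radii `τ` (for `t`), `Rw`, `Rz`, `Rv` -/
def KK {k d : ℕ} (e : V ≃L[ℂ] Bs k × (Fin d → ℂ)) (y₀ : V) (τ Rw Rz Rv : ℝ) : Set V :=
  {x | ‖(e x).1.1 - (e y₀).1.1‖ ≤ τ ∧ ‖(e x).1.2.1 - (e y₀).1.2.1‖ ≤ Rw ∧
    ‖(e x).1.2.2 - (e y₀).1.2.2‖ ≤ Rz ∧ ‖(e x).2 - (e y₀).2‖ ≤ Rv}

/-- good coordinates -/
structure GoodCoord (d : ℕ) (M₀ : EMod.{0, 0, w} (O V)) (Y : Set V) (y₀ : V) (U : Set V) (k : ℕ)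
    (e : V ≃L[ℂ] Bs k × (Fin d → ℂ)) (τ rw Rw rz Rz Rv : ℝ) (rk : ℕ) (dir : Fin k → ℂ) :
    Prop where
  rad : 0 < τ ∧ 0 < rw ∧ rw < Rw ∧ 0 < rz ∧ rz < Rz ∧ 0 < Rv
  sub : KK e y₀ τ Rw Rz Rv ⊆ U
  Ymiss : ∀ x ∈ KK e y₀ τ Rw Rz Rv, x ∈ Y → ‖(e x).1.2.1 - (e y₀).1.2.1‖ < rw ∧
    ‖(e x).1.2.2 - (e y₀).1.2.2‖ < rz ∧ ‖(e x).2 - (e y₀).2‖ < Rv
  zero : ∀ x ∈ KK e y₀ τ Rw Rz Rv, ‖(e x).2 - (e y₀).2‖ = Rv → Subsingleton (M₀.St x)
  free : ∀ b : Bs k, ‖b.1 - (e y₀).1.1‖ ≤ τ → ‖b.2.1 - (e y₀).1.2.1‖ ≤ Rw →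
    ‖b.2.2 - (e y₀).1.2.2‖ ≤ Rz →
    (rw ≤ ‖b.2.1 - (e y₀).1.2.1‖ ∨ rz ≤ ‖b.2.2 - (e y₀).1.2.2‖) →
    FreeAt (M₀.push e (Metric.closedBall (e y₀).2 Rv) (isCompact_closedBall _ _)) rk b
  dir_ne : dir ≠ 0
  Ydir : ∀ x ∈ KK e y₀ τ Rw Rz Rv, ∀ a : ℂ, (e x).1.1 = (e y₀).1.1 + a • dir → a ≠ 0 → x ∉ Y

end G

/-! ## Module X -/

section X

variable {T : Type u} [NormedAddCommGroup T] [NormedSpace ℂ T] [FiniteDimensional ℂ T] {n : ℕ}

/-- matrix valued holomorphic function near all points of a set -/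
def MHol {E : Type u} [NormedAddCommGroup E] [NormedSpace ℂ E] {p q : ℕ}
    (a : E → Matrix (Fin p) (Fin q) ℂ) (S : Set E) : Prop := ∀ i j, HolNear (fun x => a x i j) S

/-- over the single point `t` the bundle with transition matrix `g` on the shell
(frames over disc × annulus and annulus × disc) is generated by finitely many sections -/
def GenFib (g : T × ℂ × ℂ → Matrix (Fin n) (Fin n) ℂ) (rw Rw rz Rz : ℝ) (t : T) : Prop :=
  ∃ (p : ℕ) (a b : ℂ × ℂ → Matrix (Fin n) (Fin p) ℂ),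
    MHol a (ring 0 (-1) Rw ×ˢ ring 0 rz Rz) ∧ MHol b (ring 0 rw Rw ×ˢ ring 0 (-1) Rz) ∧
    (∀ x ∈ ring 0 rw Rw ×ˢ ring 0 rz Rz, a x = g (t, x) * b x) ∧
    (∀ x ∈ ring 0 (-1) Rw ×ˢ ring 0 rz Rz, Function.Surjective (a x).mulVec) ∧
    ∀ x ∈ ring 0 rw Rw ×ˢ ring 0 (-1) Rz, Function.Surjective (b x).mulVec

end X

/-! ## The local main theorem -/

section Main

variable {V : Type} [NormedAddCommGroup V] [NormedSpace ℂ V] [FiniteDimensional ℂ V]
  (𝓐 : Defo.{0, v} V)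

/-- the conclusion of the local main theorem: `N` (on `U`) is the coherent direct image of `M` -/
structure LocalOut (d : ℕ) (Y : Set V) (y₀ : V) (M : EMod.{0, v, w} 𝓐.A) (U : Set V)
    (N : EMod.{0, v, v} 𝓐.A) (φ : ∀ x, N.St x → M.St x) : Prop where
  isOpen : IsOpen U
  mem : y₀ ∈ U
  sub : U ⊆ 𝓐.A.dom
  dom : N.dom = U
  coh : N.Coh U
  tf : TF 𝓐 N U
  lin : ∀ x ∈ U \ Y, (∀ m m', φ x (m + m') = φ x m + φ x m') ∧
    (∀ (a : 𝓐.A.St x) m, φ x (a • m) = a • φ x m) ∧ Function.Bijective (φ x)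
  at_map : ∀ s, ∀ x ∈ U \ Y, N.At s x → M.At (fun y => φ y (s y)) x
  ext : ∀ Z ⊆ U, IsOpen Z → ∀ s, M.On s (Z \ Y) → ∃ t, N.On t Z ∧ ∀ x ∈ Z \ Y, φ x (t x) = s x
  inj : ∀ Z ⊆ U, IsOpen Z → ∀ t, N.On t Z → (∀ x ∈ Z \ Y, t x = 0) → ∀ x ∈ Z, t x = 0
  /-- small neighbourhoods with a shell: sections of `M` over the shell `E'` extend to `K'`, and every
  point of `K'` off `Y` lies in a closed polydisc off `Y` whose shell is contained in `E'` -/
  sh : ∀ x₀ ∈ U, ∀ Z ∈ 𝓝 x₀, ∃ K' E' C : Set V, IsOpen K' ∧ x₀ ∈ K' ∧ K' ⊆ Z ∩ U ∧ IsOpen E' ∧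
    E' ⊆ K' \ Y ∧ IsCompact C ∧ E' ⊆ C ∧ C ⊆ (Z ∩ U) \ Y ∧
    (∀ s, M.On s E' → ∃ t, N.On t K' ∧ ∀ x ∈ E', φ x (t x) = s x) ∧
    ∀ x₁ ∈ K' \ Y, ∃ (n : ℕ) (κ : V ≃L[ℂ] (Fin n → ℂ)) (c : Fin n → ℂ) (R : Fin n → ℝ)
      (S : Finset (Fin n)) (r : Fin n → ℝ), (∀ i, 0 < R i) ∧ (∀ i ∈ S, 0 < r i ∧ r i < R i) ∧
      S.card = d + 1 ∧ cbox κ c (-1) R ⊆ K' \ Y ∧ x₁ ∈ box κ c (-1) R ∧ shell κ c R S r ⊆ E'

end Main

end Pool.Agent.DQ
end

section

/-!
# Holomorphic = analytic in several variables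

For a finite dimensional complex normed space `E` and an open set `U`, a function is complex
differentiable on `U` if and only if it is analytic on `U`.
-/

set_option autoImplicit false

open Metric Set MeasureTheory Filter Topology

namespace DQ.F

section basic

variable {E G : Type*} [NormedAddCommGroup E] [NormedSpace ℂ E]
  [NormedAddCommGroup G] [NormedSpace ℂ G]

/-- Quadratic Taylor estimate in one variable. -/
theorem taylor_one [CompleteSpace G] {φ : ℂ → G} {R M : ℝ} (hR : 0 < R)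
    (hφ : DifferentiableOn ℂ φ (ball 0 R)) (hM : ∀ t ∈ ball (0 : ℂ) R, ‖φ t‖ ≤ M) {t : ℂ}
    (ht : t ∈ ball (0 : ℂ) R) :
    ‖φ t - φ 0 - t • deriv φ 0‖ ≤ 4 * M / R ^ 2 * ‖t‖ ^ 2 := by
  have h0 : (0 : ℂ) ∈ ball (0 : ℂ) R := mem_ball_self hR
  have m1 : MapsTo φ (ball 0 R) (closedBall (φ 0) (2 * M)) := by
    intro s hs
    rw [mem_closedBall, dist_eq_norm]
    have := norm_sub_le (φ s) (φ 0)
    linarith [hM s hs, hM 0 h0]
  set χ : ℂ → G := dslope φ 0 with hχ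
  have b1 : ∀ s ∈ ball (0 : ℂ) R, ‖χ s‖ ≤ 2 * M / R := fun s hs =>
    Complex.norm_dslope_le_div_of_mapsTo_ball hφ m1 hs
  have hχd : DifferentiableOn ℂ χ (ball 0 R) :=
    (Complex.differentiableOn_dslope (isOpen_ball.mem_nhds h0)).mpr hφ
  have m2 : MapsTo χ (ball 0 R) (closedBall (χ 0) (4 * M / R)) := by
    intro s hs
    rw [mem_closedBall, dist_eq_norm]
    have := norm_sub_le (χ s) (χ 0)
    have e : 4 * M / R = 2 * M / R + 2 * M / R := by ring
    rw [e]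
    linarith [b1 s hs, b1 0 h0]
  have b2 : ‖dslope χ 0 t‖ ≤ 4 * M / R / R :=
    Complex.norm_dslope_le_div_of_mapsTo_ball hχd m2 ht
  have e1 : t • χ t = φ t - φ 0 := by
    have := sub_smul_dslope φ (0 : ℂ) t
    simpa using this
  have e2 : t • dslope χ 0 t = χ t - χ 0 := by
    have := sub_smul_dslope χ (0 : ℂ) t
    simpa using this
  have e3 : χ 0 = deriv φ 0 := by rw [hχ]; exact dslope_same φ 0
  have e4 : φ t - φ 0 - t • deriv φ 0 = t • (t • dslope χ 0 t) := by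
    rw [e2, smul_sub, e1, e3]
  rw [e4, norm_smul, norm_smul]
  calc ‖t‖ * (‖t‖ * ‖dslope χ 0 t‖) ≤ ‖t‖ * (‖t‖ * (4 * M / R / R)) := by gcongr
    _ = 4 * M / R ^ 2 * ‖t‖ ^ 2 := by field_simp

theorem line_diff {f : E → G} {x h : E} {r R : ℝ}
    (hf : DifferentiableOn ℂ f (ball x r)) (hh : h ≠ 0) (hR : R * ‖h‖ ≤ r) :
    DifferentiableOn ℂ (fun t : ℂ => f (x + t • h)) (ball 0 R) ∧
      ∀ t ∈ ball (0 : ℂ) R, x + t • h ∈ ball x r := by
  have hmem : ∀ t ∈ ball (0 : ℂ) R, x + t • h ∈ ball x r := by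
    intro t ht
    rw [mem_ball_zero_iff] at ht
    have h0 : 0 < ‖h‖ := norm_pos_iff.mpr hh
    simp only [mem_ball, dist_self_add_left, norm_smul]
    exact lt_of_lt_of_le (mul_lt_mul_of_pos_right ht h0) hR
  refine ⟨?_, hmem⟩
  have hd : DifferentiableOn ℂ (fun t : ℂ => x + t • h) (ball 0 R) := by fun_prop
  exact hf.comp hd hmem

theorem line_deriv {f : E → G} {x h : E} (hf : DifferentiableAt ℂ f x) :
    deriv (fun t : ℂ => f (x + t • h)) 0 = fderiv ℂ f x h := by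
  have h1 : HasFDerivAt f (fderiv ℂ f x) (x + (0 : ℂ) • h) := by simpa using hf.hasFDerivAt
  have h2 : HasDerivAt (fun t : ℂ => x + t • h) h 0 := by
    simpa using ((hasDerivAt_id (0 : ℂ)).smul_const h).const_add x
  exact (h1.comp_hasDerivAt (0 : ℂ) h2).deriv

/-- Cauchy estimate for the derivative. -/
theorem norm_fderiv_apply_le [CompleteSpace G] {f : E → G} {x : E} {r M : ℝ} (hr : 0 < r)
    (hf : DifferentiableOn ℂ f (ball x r)) (hM : ∀ z ∈ ball x r, ‖f z‖ ≤ M) (h : E) :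
    ‖fderiv ℂ f x h‖ ≤ 2 * M / r * ‖h‖ := by
  by_cases hh : h = 0
  · simp [hh]
  have h0 : 0 < ‖h‖ := norm_pos_iff.mpr hh
  have hRv : r / ‖h‖ * ‖h‖ = r := by field_simp
  obtain ⟨hd, hm⟩ := line_diff hf hh hRv.le
  have hRpos : 0 < r / ‖h‖ := by positivity
  have hmaps : MapsTo (fun t : ℂ => f (x + t • h)) (ball 0 (r / ‖h‖))
      (closedBall ((fun t : ℂ => f (x + t • h)) 0) (2 * M)) := by
    intro t ht
    have h1 := hM _ (hm t ht)
    have h2 := hM _ (hm 0 (mem_ball_self hRpos))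
    rw [mem_closedBall, dist_eq_norm]
    exact (norm_sub_le _ _).trans (by linarith)
  have hb := Complex.norm_dslope_le_div_of_mapsTo_ball hd hmaps (mem_ball_self hRpos)
  rw [dslope_same, line_deriv (hf.differentiableAt (ball_mem_nhds x hr))] at hb
  calc ‖fderiv ℂ f x h‖ ≤ 2 * M / (r / ‖h‖) := hb
    _ = 2 * M / r * ‖h‖ := by field_simp

/-- Quadratic Taylor estimate in several variables. -/
theorem taylor_two [CompleteSpace G] {f : E → G} {x : E} {r M : ℝ} (hr : 0 < r)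
    (hf : DifferentiableOn ℂ f (ball x r)) (hM : ∀ z ∈ ball x r, ‖f z‖ ≤ M) {h : E}
    (hh : ‖h‖ < r) :
    ‖f (x + h) - f x - fderiv ℂ f x h‖ ≤ 4 * M / r ^ 2 * ‖h‖ ^ 2 := by
  by_cases h0 : h = 0
  · simp [h0]
  have hp : 0 < ‖h‖ := norm_pos_iff.mpr h0
  have hRv : r / ‖h‖ * ‖h‖ = r := by field_simp
  obtain ⟨hd, hm⟩ := line_diff hf h0 hRv.le
  have hRpos : 0 < r / ‖h‖ := by positivity
  have h1 : (1 : ℂ) ∈ ball (0 : ℂ) (r / ‖h‖) := by
    rw [mem_ball_zero_iff, norm_one, lt_div_iff₀ hp]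
    linarith
  have := taylor_one hRpos hd (fun t ht => hM _ (hm t ht)) h1
  rw [line_deriv (hf.differentiableAt (ball_mem_nhds x hr))] at this
  simp only [one_smul, zero_smul, add_zero, norm_one, one_pow, mul_one] at this
  calc _ ≤ 4 * M / (r / ‖h‖) ^ 2 := this
    _ = 4 * M / r ^ 2 * ‖h‖ ^ 2 := by field_simp

end basic

section param

variable {S : Type*} [TopologicalSpace S] [CompactSpace S]
variable {E G : Type*} [NormedAddCommGroup E] [NormedSpace ℂ E]
  [NormedAddCommGroup G] [NormedSpace ℂ G] [CompleteSpace G]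

/-- A bounded family of holomorphic functions, continuous in the parameter `s` from a compact space,
is holomorphic as a function with values in the Banach space `C(S, G)`. -/
theorem param_diff {Φ : E → C(S, G)} {x : E} {r M : ℝ} (hr : 0 < r)
    (hd : ∀ s, DifferentiableOn ℂ (fun y => Φ y s) (ball x r))
    (hM : ∀ s, ∀ y ∈ ball x r, ‖Φ y s‖ ≤ M) : DifferentiableAt ℂ Φ x := by
  have hx : x ∈ ball x r := mem_ball_self hr
  -- continuity of the derivative in `s`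
  have hcont : ∀ h : E, Continuous fun s => fderiv ℂ (fun y => Φ y s) x h := by
    intro h
    -- uniform limit of difference quotients along `t = 1 / (n + N)`
    have hlim : TendstoUniformly (fun (t : ℂ) s => t⁻¹ • (Φ (x + t • h) s - Φ x s))
        (fun s => fderiv ℂ (fun y => Φ y s) x h) (𝓝[≠] 0) := by
      rw [Metric.tendstoUniformly_iff]
      intro ε hε
      have hcoef : Tendsto (fun t : ℂ => 4 * M / r ^ 2 * ‖h‖ ^ 2 * ‖t‖) (𝓝[≠] 0) (𝓝 0) := by
        have : Tendsto (fun t : ℂ => 4 * M / r ^ 2 * ‖h‖ ^ 2 * ‖t‖) (𝓝 0)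
            (𝓝 (4 * M / r ^ 2 * ‖h‖ ^ 2 * ‖(0 : ℂ)‖)) :=
          (continuous_const.mul continuous_norm).tendsto 0
        simp only [norm_zero, mul_zero] at this
        exact this.mono_left nhdsWithin_le_nhds
      have hsmall : ∀ᶠ t : ℂ in 𝓝[≠] 0, ‖t • h‖ < r := by
        have : Tendsto (fun t : ℂ => ‖t • h‖) (𝓝 0) (𝓝 ‖(0 : ℂ) • h‖) :=
          ((continuous_id.smul continuous_const).norm).tendsto 0
        simp only [zero_smul, norm_zero] at this
        exact (this.mono_left nhdsWithin_le_nhds).eventually (gt_mem_nhds hr)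
      filter_upwards [hcoef.eventually (gt_mem_nhds hε), hsmall, self_mem_nhdsWithin]
        with t ht1 ht2 ht0 s
      have ht0' : t ≠ 0 := ht0
      have hT := taylor_two hr (hd s) (hM s) ht2
      rw [dist_eq_norm]
      have e : fderiv ℂ (fun y => Φ y s) x h - t⁻¹ • (Φ (x + t • h) s - Φ x s) =
          -(t⁻¹ • (Φ (x + t • h) s - Φ x s - fderiv ℂ (fun y => Φ y s) x (t • h))) := by
        rw [map_smul, smul_sub t⁻¹ _ (t • _), inv_smul_smul₀ ht0']
        abel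
      rw [e, norm_neg, norm_smul, norm_inv]
      have htp : 0 < ‖t‖ := norm_pos_iff.mpr ht0'
      calc ‖t‖⁻¹ * ‖Φ (x + t • h) s - Φ x s - fderiv ℂ (fun y => Φ y s) x (t • h)‖
          ≤ ‖t‖⁻¹ * (4 * M / r ^ 2 * ‖t • h‖ ^ 2) := by gcongr
        _ = 4 * M / r ^ 2 * ‖h‖ ^ 2 * ‖t‖ := by
            rw [norm_smul]; field_simp
        _ < ε := ht1
    refine hlim.continuous (Frequently.of_forall fun t => ?_)
    exact ((Φ (x + t • h)).continuous.sub (Φ x).continuous).const_smul _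
  -- the derivative
  let L₀ : E →ₗ[ℂ] C(S, G) :=
    { toFun := fun h => ⟨fun s => fderiv ℂ (fun y => Φ y s) x h, hcont h⟩
      map_add' := fun a b => by ext s; simp
      map_smul' := fun c a => by ext s; simp }
  let L : E →L[ℂ] C(S, G) := L₀.mkContinuous (2 * |M| / r) (by
    intro h
    rw [ContinuousMap.norm_le _ (by positivity)]
    intro s
    refine (norm_fderiv_apply_le hr (hd s) (hM s) h).trans ?_
    have : 2 * M / r ≤ 2 * |M| / r := by gcongr; exact le_abs_self M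
    exact mul_le_mul_of_nonneg_right this (norm_nonneg _))
  have key : HasFDerivAt Φ L x := by
    rw [hasFDerivAt_iff_isLittleO_nhds_zero]
    have hO : (fun h => Φ (x + h) - Φ x - L h) =O[𝓝 0] fun h => ‖h‖ ^ 2 := by
      refine Asymptotics.IsBigO.of_bound (4 * |M| / r ^ 2) ?_
      have : ∀ᶠ h : E in 𝓝 0, ‖h‖ < r := by
        have : Tendsto (fun h : E => ‖h‖) (𝓝 0) (𝓝 ‖(0 : E)‖) := continuous_norm.tendsto 0
        rw [norm_zero] at this
        exact this.eventually (gt_mem_nhds hr)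
      filter_upwards [this] with h hh
      rw [Real.norm_of_nonneg (by positivity), ContinuousMap.norm_le _ (by positivity)]
      intro s
      have hT := taylor_two hr (hd s) (hM s) hh
      have hle : 4 * M / r ^ 2 * ‖h‖ ^ 2 ≤ 4 * |M| / r ^ 2 * ‖h‖ ^ 2 := by
        have := le_abs_self M
        gcongr
      exact hT.trans hle
    refine hO.trans_isLittleO ?_
    have := Asymptotics.isLittleO_norm_pow_id (E' := E) (n := 2) one_lt_two
    exact this
  exact key.differentiableAt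

end param

section step

/-- The point of the circle with angle `θ`, as an element of the sphere. -/
noncomputable def pt (c : ℂ) (ρ : ℝ) (hρ : 0 ≤ ρ) (θ : ℝ) : sphere c ρ :=
  ⟨circleMap c ρ θ, circleMap_mem_sphere c hρ θ⟩

theorem continuous_pt (c : ℂ) (ρ : ℝ) (hρ : 0 ≤ ρ) : Continuous (pt c ρ hρ) :=
  (continuous_circleMap c ρ).subtype_mk _

variable {G : Type*} [NormedAddCommGroup G] [NormedSpace ℂ G] [CompleteSpace G]

/-- The pairing `(ψ, φ) ↦ (2 π i)⁻¹ ∮ ψ φ`, bilinear. -/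
noncomputable def pairing₀ (c : ℂ) (ρ : ℝ) (hρ : 0 ≤ ρ) :
    C(sphere c ρ, ℂ) →ₗ[ℂ] C(sphere c ρ, G) →ₗ[ℂ] G :=
  LinearMap.mk₂ ℂ (fun ψ φ => (2 * Real.pi * Complex.I : ℂ)⁻¹ •
      ∫ θ in (0 : ℝ)..(2 * Real.pi), deriv (circleMap c ρ) θ • (ψ (pt c ρ hρ θ) • φ (pt c ρ hρ θ)))
    (by
      intro a b φ
      rw [← smul_add, ← intervalIntegral.integral_add]
      · simp [add_smul, smul_add]
      · apply Continuous.intervalIntegrable
        simp only [deriv_circleMap]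
        exact ((continuous_circleMap 0 ρ).mul continuous_const).smul
          ((a.continuous.comp (continuous_pt c ρ hρ)).smul (φ.continuous.comp (continuous_pt c ρ hρ)))
      · apply Continuous.intervalIntegrable
        simp only [deriv_circleMap]
        exact ((continuous_circleMap 0 ρ).mul continuous_const).smul
          ((b.continuous.comp (continuous_pt c ρ hρ)).smul (φ.continuous.comp (continuous_pt c ρ hρ))))
    (by
      intro a b φ
      have key : (∫ θ in (0 : ℝ)..(2 * Real.pi), deriv (circleMap c ρ) θ •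
          ((a • b) (pt c ρ hρ θ) • φ (pt c ρ hρ θ))) =
          a • ∫ θ in (0 : ℝ)..(2 * Real.pi), deriv (circleMap c ρ) θ •
          (b (pt c ρ hρ θ) • φ (pt c ρ hρ θ)) := by
        rw [← intervalIntegral.integral_smul]
        refine intervalIntegral.integral_congr fun θ _ => ?_
        simp only [ContinuousMap.smul_apply, smul_eq_mul, mul_smul]
        rw [smul_comm _ a]
      rw [key, smul_comm a])
    (by
      intro a b φ
      rw [← smul_add, ← intervalIntegral.integral_add]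
      · simp [smul_add]
      · apply Continuous.intervalIntegrable
        simp only [deriv_circleMap]
        exact ((continuous_circleMap 0 ρ).mul continuous_const).smul
          ((a.continuous.comp (continuous_pt c ρ hρ)).smul (b.continuous.comp (continuous_pt c ρ hρ)))
      · apply Continuous.intervalIntegrable
        simp only [deriv_circleMap]
        exact ((continuous_circleMap 0 ρ).mul continuous_const).smul
          ((a.continuous.comp (continuous_pt c ρ hρ)).smul (φ.continuous.comp (continuous_pt c ρ hρ))))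
    (by
      intro a b φ
      have key : (∫ θ in (0 : ℝ)..(2 * Real.pi), deriv (circleMap c ρ) θ •
          (b (pt c ρ hρ θ) • (a • φ) (pt c ρ hρ θ))) =
          a • ∫ θ in (0 : ℝ)..(2 * Real.pi), deriv (circleMap c ρ) θ •
          (b (pt c ρ hρ θ) • φ (pt c ρ hρ θ)) := by
        rw [← intervalIntegral.integral_smul]
        refine intervalIntegral.integral_congr fun θ _ => ?_
        simp only [ContinuousMap.smul_apply]
        rw [smul_comm _ a, smul_comm _ a]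
      rw [key, smul_comm a])

/-- The pairing `(ψ, φ) ↦ (2 π i)⁻¹ ∮ ψ φ`, continuous bilinear. -/
noncomputable def pairing (c : ℂ) (ρ : ℝ) (hρ : 0 ≤ ρ) :
    C(sphere c ρ, ℂ) →L[ℂ] C(sphere c ρ, G) →L[ℂ] G :=
  (pairing₀ (G := G) c ρ hρ).mkContinuous₂ ρ (by
    intro ψ φ
    change ‖(2 * Real.pi * Complex.I : ℂ)⁻¹ • ∫ θ in (0 : ℝ)..(2 * Real.pi),
      deriv (circleMap c ρ) θ • (ψ (pt c ρ hρ θ) • φ (pt c ρ hρ θ))‖ ≤ _
    rw [norm_smul]
    have h1 : ‖∫ θ in (0 : ℝ)..(2 * Real.pi),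
        deriv (circleMap c ρ) θ • (ψ (pt c ρ hρ θ) • φ (pt c ρ hρ θ))‖ ≤
          (ρ * (‖ψ‖ * ‖φ‖)) * |2 * Real.pi - 0| := by
      apply intervalIntegral.norm_integral_le_of_norm_le_const
      intro θ _
      rw [norm_smul, norm_smul]
      have e1 : ‖deriv (circleMap c ρ) θ‖ = ρ := by
        simp [deriv_circleMap, circleMap, abs_of_nonneg hρ]
      rw [e1]
      have e2 := ψ.norm_coe_le_norm (pt c ρ hρ θ)
      have e3 := φ.norm_coe_le_norm (pt c ρ hρ θ)
      gcongr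
    have h2 : ‖(2 * Real.pi * Complex.I : ℂ)⁻¹‖ = (2 * Real.pi)⁻¹ := by
      rw [norm_inv]
      simp [abs_of_pos Real.pi_pos]
    rw [h2]
    rw [sub_zero, abs_of_pos Real.two_pi_pos] at h1
    calc (2 * Real.pi)⁻¹ * _ ≤ (2 * Real.pi)⁻¹ * ((ρ * (‖ψ‖ * ‖φ‖)) * (2 * Real.pi)) := by
          gcongr
      _ = ρ * ‖ψ‖ * ‖φ‖ := by
          field_simp)

omit [CompleteSpace G] in
theorem pairing_apply (c : ℂ) (ρ : ℝ) (hρ : 0 ≤ ρ) (ψ : C(sphere c ρ, ℂ)) (φ : C(sphere c ρ, G)) :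
    pairing c ρ hρ ψ φ = (2 * Real.pi * Complex.I : ℂ)⁻¹ •
      ∫ θ in (0 : ℝ)..(2 * Real.pi), deriv (circleMap c ρ) θ •
        (ψ (pt c ρ hρ θ) • φ (pt c ρ hρ θ)) := rfl

end step

section main

universe u w

/-- The induction step. -/
theorem step {E : Type u} [NormedAddCommGroup E] [NormedSpace ℂ E]
    (IH : ∀ (H : Type w) [NormedAddCommGroup H] [NormedSpace ℂ H] [CompleteSpace H] (g : E → H)
      (y : E), (∀ᶠ z in 𝓝 y, DifferentiableAt ℂ g z) → AnalyticAt ℂ g y)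
    {G : Type w} [NormedAddCommGroup G] [NormedSpace ℂ G] [CompleteSpace G] {f : ℂ × E → G}
    {p : ℂ × E} (hf : ∀ᶠ q in 𝓝 p, DifferentiableAt ℂ f q) : AnalyticAt ℂ f p := by
  obtain ⟨c, y₀⟩ := p
  -- a bidisc on which `f` is differentiable and bounded
  obtain ⟨ρ, hρ, M, hd, hM⟩ : ∃ ρ > 0, ∃ M : ℝ, (∀ q ∈ ball (c, y₀) (2 * ρ), DifferentiableAt ℂ f q) ∧
      ∀ q ∈ ball (c, y₀) (2 * ρ), ‖f q‖ ≤ M := by
    have h1 : ∀ᶠ q in 𝓝 (c, y₀), ‖f q‖ ≤ ‖f (c, y₀)‖ + 1 := by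
      have := hf.self_of_nhds.continuousAt.norm
      filter_upwards [this.eventually (gt_mem_nhds (lt_add_one ‖f (c, y₀)‖))] with q hq
      exact hq.le
    obtain ⟨ε, hε, hsub⟩ := Metric.mem_nhds_iff.mp (hf.and h1)
    refine ⟨ε / 2, by positivity, _, fun q hq => (hsub ?_).1, fun q hq => (hsub ?_).2⟩ <;>
    · have : 2 * (ε / 2) = ε := by ring
      rwa [this] at hq
  have hmem : ∀ w ∈ closedBall c ρ, ∀ y ∈ ball y₀ ρ, (w, y) ∈ ball (c, y₀) (2 * ρ) := by
    intro w hw y hy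
    rw [mem_ball, Prod.dist_eq]
    rw [mem_closedBall] at hw
    rw [mem_ball] at hy
    exact max_lt (by simpa using lt_of_le_of_lt hw (by linarith)) (by simpa using lt_trans hy (by linarith))
  have hcont : ∀ y ∈ ball y₀ ρ, Continuous fun s : sphere c ρ => f ((s : ℂ), y) := by
    intro y hy
    rw [continuous_iff_continuousAt]
    intro s
    have h1 := (hd _ (hmem s (sphere_subset_closedBall s.2) y hy)).continuousAt
    exact ContinuousAt.comp (f := fun s : sphere c ρ => ((s : ℂ), y)) h1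
      (by fun_prop)
  classical
  let Φ : E → C(sphere c ρ, G) := fun y =>
    if h : Continuous fun s : sphere c ρ => f ((s : ℂ), y) then ⟨_, h⟩ else 0
  have hΦ : ∀ y ∈ ball y₀ ρ, ∀ s, Φ y s = f ((s : ℂ), y) := by
    intro y hy s
    simp only [Φ, dif_pos (hcont y hy)]
    rfl
  have hΦd : ∀ᶠ y in 𝓝 y₀, DifferentiableAt ℂ Φ y := by
    filter_upwards [ball_mem_nhds y₀ (half_pos hρ)] with y hy
    have hsub : ball y (ρ / 2) ⊆ ball y₀ ρ := by
      intro z hz
      rw [mem_ball] at hz hy ⊢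
      linarith [dist_triangle z y y₀]
    refine param_diff (r := ρ / 2) (M := M) (by positivity) ?_ ?_
    · intro s
      have : DifferentiableOn ℂ (fun z => f ((s : ℂ), z)) (ball y (ρ / 2)) := by
        intro z hz
        have h1 := hd _ (hmem s (sphere_subset_closedBall s.2) z (hsub hz))
        exact (DifferentiableAt.comp (f := fun z : E => ((s : ℂ), z)) z h1
          ((differentiableAt_const _).prodMk differentiableAt_id)).differentiableWithinAt
      exact this.congr fun z hz => hΦ z (hsub hz) s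
    · intro s z hz
      rw [hΦ z (hsub hz) s]
      exact hM _ (hmem s (sphere_subset_closedBall s.2) z (hsub hz))
  have hΦa : AnalyticAt ℂ Φ y₀ := IH _ Φ y₀ hΦd
  -- the Cauchy kernel
  have hne : ∀ z ∈ ball c ρ, ∀ s : sphere c ρ, (s : ℂ) - z ≠ 0 := by
    intro z hz s h0
    rw [sub_eq_zero] at h0
    have := s.2
    rw [h0, mem_sphere] at this
    rw [mem_ball] at hz
    linarith
  have hkc : ∀ z ∈ ball c ρ, Continuous fun s : sphere c ρ => ((s : ℂ) - z)⁻¹ := by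
    intro z hz
    exact (continuous_subtype_val.sub continuous_const).inv₀ (hne z hz)
  let Ψ : ℂ → C(sphere c ρ, ℂ) := fun z =>
    if h : Continuous fun s : sphere c ρ => ((s : ℂ) - z)⁻¹ then ⟨_, h⟩ else 0
  have hΨ : ∀ z ∈ ball c ρ, ∀ s, Ψ z s = ((s : ℂ) - z)⁻¹ := by
    intro z hz s
    simp only [Ψ, dif_pos (hkc z hz)]
    rfl
  have hΨa : AnalyticAt ℂ Ψ c := by
    have : DifferentiableOn ℂ Ψ (ball c (ρ / 4)) := by
      intro z hz
      have hsub : ball z (ρ / 4) ⊆ ball c (ρ / 2) := by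
        intro z' hz'
        rw [mem_ball] at hz hz' ⊢
        linarith [dist_triangle z' z c]
      have hsub2 : ball c (ρ / 2) ⊆ ball c ρ := ball_subset_ball (by linarith)
      refine (param_diff (r := ρ / 4) (M := (ρ / 2)⁻¹) (by positivity) ?_ ?_).differentiableWithinAt
      · intro s
        have : DifferentiableOn ℂ (fun z' => ((s : ℂ) - z')⁻¹) (ball z (ρ / 4)) := by
          intro z' hz'
          exact (((differentiableAt_const _).sub differentiableAt_id).inv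
            (hne z' (hsub2 (hsub hz')) s)).differentiableWithinAt
        exact this.congr fun z' hz' => hΨ z' (hsub2 (hsub hz')) s
      · intro s z' hz'
        rw [hΨ z' (hsub2 (hsub hz')) s, norm_inv]
        apply inv_anti₀ (by positivity)
        have h1 := hsub hz'
        have h2 : dist (s : ℂ) c = ρ := s.2
        rw [mem_ball] at h1
        rw [← dist_eq_norm]
        linarith [dist_triangle (s : ℂ) z' c]
    exact this.analyticAt (ball_mem_nhds c (by positivity))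
  have hprod : AnalyticAt ℂ (fun q : ℂ × E => pairing (G := G) c ρ hρ.le (Ψ q.1) (Φ q.2)) (c, y₀) := by
    have h1 : AnalyticAt ℂ (fun q : ℂ × E => Ψ q.1) (c, y₀) :=
      AnalyticAt.comp (g := Ψ) (f := Prod.fst) hΨa analyticAt_fst
    have h2 : AnalyticAt ℂ (fun q : ℂ × E => Φ q.2) (c, y₀) :=
      AnalyticAt.comp (g := Φ) (f := Prod.snd) hΦa analyticAt_snd
    have h3 := (pairing (G := G) c ρ hρ.le).analyticAt_bilinear (Ψ c, Φ y₀)
    exact AnalyticAt.comp₂ h3 h1 h2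
  refine hprod.congr ?_
  filter_upwards [prod_mem_nhds (ball_mem_nhds c hρ) (ball_mem_nhds y₀ hρ)] with q hq
  obtain ⟨hq1, hq2⟩ := hq
  rw [pairing_apply]
  have hdiff : DifferentiableOn ℂ (fun t : ℂ => f (t, q.2)) (closedBall c ρ) := by
    intro w hw
    exact (DifferentiableAt.comp (f := fun t : ℂ => (t, q.2)) w (hd _ (hmem w hw q.2 hq2))
      (differentiableAt_id.prodMk (differentiableAt_const _))).differentiableWithinAt
  have hc := DifferentiableOn.circleIntegral_sub_inv_smul hdiff hq1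
  have hc' : (∮ z in C(c, ρ), (z - q.1)⁻¹ • f (z, q.2)) = ∫ θ in (0 : ℝ)..(2 * Real.pi),
      deriv (circleMap c ρ) θ • (Ψ q.1 (pt c ρ hρ.le θ) • Φ q.2 (pt c ρ hρ.le θ)) := by
    rw [circleIntegral]
    refine intervalIntegral.integral_congr fun θ _ => ?_
    simp only [hΨ q.1 hq1, hΦ q.2 hq2]
    rfl
  rw [← hc', hc, smul_smul, inv_mul_cancel₀, one_smul]
  simp [Real.pi_ne_zero, Complex.I_ne_zero]

theorem analyticAt_fin (n : ℕ) : ∀ (G : Type w) [NormedAddCommGroup G] [NormedSpace ℂ G]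
    [CompleteSpace G] (f : (Fin n → ℂ) → G) (x : Fin n → ℂ),
    (∀ᶠ z in 𝓝 x, DifferentiableAt ℂ f z) → AnalyticAt ℂ f x := by
  induction n with
  | zero =>
    intro G _ _ _ f x _
    have : f = fun _ => f x := by
      funext y
      rw [Subsingleton.elim y x]
    rw [this]
    exact analyticAt_const
  | succ n ih =>
    intro G _ _ _ f x hf
    let e : (ℂ × (Fin n → ℂ)) ≃L[ℂ] (Fin (n + 1) → ℂ) := Fin.consEquivL ℂ (fun _ => ℂ)
    have h1 : AnalyticAt ℂ (fun q => f (e q)) (e.symm x) := by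
      refine step ih ?_
      have hx : e (e.symm x) = x := e.apply_symm_apply x
      have h2 : Tendsto e (𝓝 (e.symm x)) (𝓝 x) := by
        have := e.continuous.tendsto (e.symm x)
        rwa [hx] at this
      filter_upwards [h2.eventually hf] with q hq
      exact DifferentiableAt.comp q hq e.differentiableAt
    have h3 : AnalyticAt ℂ (fun y => f (e (e.symm y))) x :=
      AnalyticAt.comp (g := fun q => f (e q)) (f := e.symm) h1
        (e.symm.toContinuousLinearMap.analyticAt x)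
    simpa using h3

variable {E : Type u} [NormedAddCommGroup E] [NormedSpace ℂ E] [FiniteDimensional ℂ E]
variable {G : Type w} [NormedAddCommGroup G] [NormedSpace ℂ G] [CompleteSpace G]

/-- A function which is complex differentiable near a point of a finite dimensional space is analytic
at this point. -/
theorem analyticAt_of_eventually_differentiableAt {f : E → G} {x : E}
    (hf : ∀ᶠ z in 𝓝 x, DifferentiableAt ℂ f z) : AnalyticAt ℂ f x := by
  obtain ⟨e⟩ : Nonempty ((Fin (Module.finrank ℂ E) → ℂ) ≃L[ℂ] E) :=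
    ⟨(ContinuousLinearEquiv.ofFinrankEq (by simp))⟩
  have h1 : AnalyticAt ℂ (fun q => f (e q)) (e.symm x) := by
    refine analyticAt_fin _ G _ _ ?_
    have hx : e (e.symm x) = x := e.apply_symm_apply x
    have h2 : Tendsto e (𝓝 (e.symm x)) (𝓝 x) := by
      have := e.continuous.tendsto (e.symm x)
      rwa [hx] at this
    filter_upwards [h2.eventually hf] with q hq
    exact DifferentiableAt.comp q hq e.differentiableAt
  have h3 : AnalyticAt ℂ (fun y => f (e (e.symm y))) x :=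
    AnalyticAt.comp (g := fun q => f (e q)) (f := e.symm) h1
      (e.symm.toContinuousLinearMap.analyticAt x)
  simpa using h3

theorem analyticAt_iff_eventually_differentiableAt {f : E → G} {x : E} :
    AnalyticAt ℂ f x ↔ ∀ᶠ z in 𝓝 x, DifferentiableAt ℂ f z := by
  refine ⟨fun h => ?_, analyticAt_of_eventually_differentiableAt⟩
  filter_upwards [h.eventually_analyticAt] with z hz
  exact hz.differentiableAt

/-- Holomorphic = analytic on open subsets of a finite dimensional complex space. -/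
theorem differentiableOn_iff_analyticOnNhd {f : E → G} {U : Set E} (hU : IsOpen U) :
    DifferentiableOn ℂ f U ↔ AnalyticOnNhd ℂ f U := by
  constructor
  · intro h x hx
    refine analyticAt_of_eventually_differentiableAt ?_
    filter_upwards [hU.mem_nhds hx] with z hz
    exact h.differentiableAt (hU.mem_nhds hz)
  · intro h x hx
    exact (h x hx).differentiableAt.differentiableWithinAt

end main

end DQ.F
end

section

/-! Cartan's factorisation of a holomorphic matrix close to the unit matrix. -/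

set_option autoImplicit false

open Set Filter Topology MeasureTheory
open Pool.Agent.Lib.MP_ca0fc2_an (differentiableAt_integral)

namespace Pool.Agent.DQ.C

variable {E F : Type*} [NormedAddCommGroup E] [NormedSpace ℂ E] [NormedAddCommGroup F]
  [NormedSpace ℂ F]

/-- A normally convergent series of holomorphic functions is holomorphic. -/
theorem differentiableOn_tsum {U : Set E} (hU : IsOpen U) {f : ℕ → E → ℂ} {g : ℕ → ℝ}
    (hg : Summable g) (hf : ∀ k, DifferentiableOn ℂ (f k) U)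
    (hb : ∀ k, ∀ x ∈ U, ‖f k x‖ ≤ g k) : DifferentiableOn ℂ (fun x => ∑' k, f k x) U := by
  intro x hx
  obtain ⟨r, hr, hsub⟩ := Metric.isOpen_iff.mp hU x hx
  have hgi : Integrable g (Measure.count : Measure ℕ) := by
    rw [integrable_count_iff]
    exact hg.norm
  have hint : ∀ y ∈ U, Integrable (fun k => f k y) (Measure.count : Measure ℕ) := fun y hy =>
    hgi.mono' (by fun_prop) (Eventually.of_forall fun k => hb k y hy)
  have h1 : DifferentiableAt ℂ (fun y => ∫ k, f k y ∂(Measure.count : Measure ℕ)) x := by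
    refine differentiableAt_integral (G := fun y k => f k y) hr (g := g) ?_ ?_ hgi ?_
    · exact Eventually.of_forall fun k => (hf k).mono hsub
    · intro y hy
      fun_prop
    · exact Eventually.of_forall fun k y hy => hb k y (hsub hy)
  refine (h1.congr_of_eventuallyEq ?_).differentiableWithinAt
  filter_upwards [hU.mem_nhds hx] with y hy
  rw [integral_countable (hint y hy)]
  simp

/-- Cartan's factorisation: `1 + A = (1 + a) (1 + b)⁻¹`, written `1 + a = (1 + A) (1 + b)`. -/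
theorem factor {ι : Type*} [Fintype ι] {P' P'' N : Set ℂ} {χ : ℂ → ℝ}
    (h : Cut P' P'' N χ) {η : ℝ} (hη : 0 < η) :
    ∃ ε : ℝ, 0 < ε ∧ ∀ (W : Set F), IsOpen W → ∀ (A : ι → ι → ℂ × F → ℂ),
      (∀ i j, DifferentiableOn ℂ (A i j) (N ×ˢ W)) →
      (∀ i j, ∀ p ∈ N ×ˢ W, ‖A i j p‖ ≤ ε) →
      ∃ a b : ι → ι → ℂ × F → ℂ,
        (∀ i j, DifferentiableOn ℂ (a i j) ((P' ∪ N) ×ˢ W)) ∧
        (∀ i j, DifferentiableOn ℂ (b i j) ((P'' ∪ N) ×ˢ W)) ∧
        (∀ i j, ∀ p ∈ (P' ∪ N) ×ˢ W, ‖a i j p‖ ≤ η) ∧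
        (∀ i j, ∀ p ∈ (P'' ∪ N) ×ˢ W, ‖b i j p‖ ≤ η) ∧
        ∀ p ∈ N ×ˢ W, ∀ i j, a i j p = b i j p + A i j p + ∑ l, A i l p * b l j p := by
  obtain ⟨C, hC, hsp⟩ := split_bound (F := F) h
  set n : ℝ := (Fintype.card ι : ℝ) with hn
  have hn0 : 0 ≤ n := by positivity
  set ε : ℝ := min (1 / (2 * (n + 1) * C)) (η / (2 * C)) with hε
  have hε0 : 0 < ε := by rw [hε]; positivity
  have hε1 : ε ≤ 1 / (2 * (n + 1) * C) := min_le_left _ _
  have hε2 : ε ≤ η / (2 * C) := min_le_right _ _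
  set θ : ℝ := n * ε * C with hθ
  have hθ0 : 0 ≤ θ := by positivity
  have hθ1 : θ ≤ 1 / 2 := by
    have h1 : ε * (2 * (n + 1) * C) ≤ 1 := by
      rw [le_div_iff₀ (by positivity)] at hε1
      exact hε1
    rw [hθ]
    nlinarith [mul_pos hε0 hC]
  refine ⟨ε, hε0, fun W hW A hA hAb => ?_⟩
  have hspW := hsp W hW
  choose! s' s'' hs1 hs2 hs3 hs4 hs5 using hspW
  -- the successive approximations
  let G : ℕ → ι → ι → ℂ × F → ℂ := fun k => Nat.rec A
    (fun k g i j p => ∑ l, A i l p * s'' (g l j) (θ ^ k * ε) p) k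
  have hG0 : ∀ i j, G 0 i j = A i j := fun i j => rfl
  have hG1 : ∀ k i j, G (k + 1) i j = fun p => ∑ l, A i l p * s'' (G k l j) (θ ^ k * ε) p :=
    fun k i j => rfl
  have hm : ∀ k : ℕ, 0 ≤ θ ^ k * ε := fun k => by positivity
  have hsubN'' : N ×ˢ W ⊆ (P'' ∪ N) ×ˢ W := prod_mono subset_union_right le_rfl
  have key : ∀ k, (∀ i j, DifferentiableOn ℂ (G k i j) (N ×ˢ W)) ∧
      ∀ i j, ∀ p ∈ N ×ˢ W, ‖G k i j p‖ ≤ θ ^ k * ε := by
    intro k
    induction k with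
    | zero =>
      refine ⟨fun i j => hA i j, fun i j p hp => ?_⟩
      rw [hG0, pow_zero, one_mul]
      exact hAb i j p hp
    | succ k ih =>
      obtain ⟨ih1, ih2⟩ := ih
      constructor
      · intro i j
        rw [hG1]
        refine DifferentiableOn.fun_sum fun l _ => ?_
        exact (hA i l).mul ((hs2 (G k l j) (θ ^ k * ε) (hm k) (ih1 l j) (ih2 l j)).mono hsubN'')
      · intro i j p hp
        rw [hG1]
        calc ‖∑ l, A i l p * s'' (G k l j) (θ ^ k * ε) p‖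
            ≤ ∑ l, ‖A i l p * s'' (G k l j) (θ ^ k * ε) p‖ := norm_sum_le _ _
          _ ≤ ∑ _l : ι, ε * (C * (θ ^ k * ε)) := by
              refine Finset.sum_le_sum fun l _ => ?_
              rw [norm_mul]
              exact mul_le_mul (hAb i l p hp)
                (hs4 (G k l j) (θ ^ k * ε) (hm k) (ih1 l j) (ih2 l j) p (hsubN'' hp))
                (norm_nonneg _) hε0.le
          _ = θ ^ (k + 1) * ε := by
              rw [Finset.sum_const, Finset.card_univ, nsmul_eq_mul, ← hn, hθ]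
              ring
  set aa : ℕ → ι → ι → ℂ × F → ℂ := fun k i j => s' (G k i j) (θ ^ k * ε) with haa
  set bb : ℕ → ι → ι → ℂ × F → ℂ := fun k i j => s'' (G k i j) (θ ^ k * ε) with hbb
  have haad : ∀ k i j, DifferentiableOn ℂ (aa k i j) ((P' ∪ N) ×ˢ W) := fun k i j =>
    hs1 _ _ (hm k) ((key k).1 i j) ((key k).2 i j)
  have hbbd : ∀ k i j, DifferentiableOn ℂ (bb k i j) ((P'' ∪ N) ×ˢ W) := fun k i j =>
    hs2 _ _ (hm k) ((key k).1 i j) ((key k).2 i j)
  have haab : ∀ k i j, ∀ p ∈ (P' ∪ N) ×ˢ W, ‖aa k i j p‖ ≤ C * (θ ^ k * ε) := fun k i j =>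
    hs3 _ _ (hm k) ((key k).1 i j) ((key k).2 i j)
  have hbbb : ∀ k i j, ∀ p ∈ (P'' ∪ N) ×ˢ W, ‖bb k i j p‖ ≤ C * (θ ^ k * ε) := fun k i j =>
    hs4 _ _ (hm k) ((key k).1 i j) ((key k).2 i j)
  have hsplit : ∀ k i j, ∀ p ∈ N ×ˢ W, G k i j p = aa k i j p - bb k i j p := fun k i j =>
    hs5 _ _ (hm k) ((key k).1 i j) ((key k).2 i j)
  have hsum : Summable (fun k : ℕ => C * (θ ^ k * ε)) :=
    ((summable_geometric_of_lt_one hθ0 (by linarith)).mul_right ε).mul_left C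
  have htot : ∑' k : ℕ, C * (θ ^ k * ε) ≤ η := by
    rw [tsum_mul_left, tsum_mul_right, tsum_geometric_of_lt_one hθ0 (by linarith)]
    have h1 : (1 - θ)⁻¹ ≤ 2 := by
      rw [inv_le_comm₀ (by linarith) (by norm_num)]
      linarith
    have h2 : ε * (2 * C) ≤ η := by
      rwa [le_div_iff₀ (by positivity)] at hε2
    calc C * ((1 - θ)⁻¹ * ε) ≤ C * (2 * ε) := by gcongr
      _ = ε * (2 * C) := by ring
      _ ≤ η := h2
  refine ⟨fun i j p => ∑' k, aa k i j p, fun i j p => ∑' k, bb k i j p, ?_, ?_, ?_, ?_, ?_⟩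
  · intro i j
    exact differentiableOn_tsum ((h.openP'.union h.openN).prod hW) hsum (fun k => haad k i j)
      (fun k => haab k i j)
  · intro i j
    exact differentiableOn_tsum ((h.openP''.union h.openN).prod hW) hsum (fun k => hbbd k i j)
      (fun k => hbbb k i j)
  · intro i j p hp
    exact (tsum_of_norm_bounded hsum.hasSum (fun k => haab k i j p hp)).trans htot
  · intro i j p hp
    exact (tsum_of_norm_bounded hsum.hasSum (fun k => hbbb k i j p hp)).trans htot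
  · intro p hp i j
    have hp' : p ∈ (P' ∪ N) ×ˢ W := prod_mono subset_union_right le_rfl hp
    have hp'' : p ∈ (P'' ∪ N) ×ˢ W := hsubN'' hp
    have sa : ∀ i j, Summable (fun k => aa k i j p) := fun i j =>
      Summable.of_norm_bounded hsum (fun k => haab k i j p hp')
    have sb : ∀ i j, Summable (fun k => bb k i j p) := fun i j =>
      Summable.of_norm_bounded hsum (fun k => hbbb k i j p hp'')
    have sG : ∀ i j, Summable (fun k => G k i j p) := by
      intro i j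
      refine ((sa i j).sub (sb i j)).congr fun k => ?_
      exact (hsplit k i j p hp).symm
    have e1 : ∑' k, G k i j p = ∑' k, aa k i j p - ∑' k, bb k i j p := by
      rw [← (sa i j).tsum_sub (sb i j)]
      exact tsum_congr fun k => hsplit k i j p hp
    have e2 : ∑' k, G k i j p = A i j p + ∑' k, G (k + 1) i j p := by
      rw [(sG i j).tsum_eq_zero_add, hG0]
    have e3 : ∑' k, G (k + 1) i j p = ∑ l, A i l p * ∑' k, bb k l j p := by
      have : ∀ k, G (k + 1) i j p = ∑ l, A i l p * bb k l j p := fun k => rfl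
      rw [tsum_congr this, Summable.tsum_finsetSum]
      · refine Finset.sum_congr rfl fun l _ => ?_
        rw [tsum_mul_left]
      · intro l _
        exact (sb l j).mul_left _
    change ∑' k, aa k i j p = ∑' k, bb k i j p + A i j p + ∑ l, A i l p * ∑' k, bb k l j p
    rw [← e3]
    linear_combination e2 - e1

end Pool.Agent.DQ.C
end

section

/-! Taylor and Laurent approximation with holomorphic parameters. -/

set_option autoImplicit false

open Set Filter Topology MeasureTheory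
open Pool.Agent.Lib.MP_ca0fc2_an (differentiableAt_integral osgood)

namespace Pool.Agent.DQ.C

variable {F : Type*} [NormedAddCommGroup F] [NormedSpace ℂ F]

/-- Taylor coefficients in the first variable -/
noncomputable def tco (c : ℂ) (R : ℝ) (f : ℂ × F → ℂ) (k : ℕ) (w : F) : ℂ :=
  (cauchyPowerSeries (fun z => f (z, w)) c R k) (fun _ => (1 : ℂ))

theorem slice_fst {f : ℂ × F → ℂ} {N : Set ℂ} {W : Set F}
    (hf : DifferentiableOn ℂ f (N ×ˢ W)) {w : F} (hw : w ∈ W) :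
    DifferentiableOn ℂ (fun z => f (z, w)) N := by
  refine hf.comp (differentiableOn_id.prodMk (differentiableOn_const _)) ?_
  intro z hz
  exact ⟨hz, hw⟩

theorem slice_snd {f : ℂ × F → ℂ} {N : Set ℂ} {W : Set F}
    (hf : DifferentiableOn ℂ f (N ×ˢ W)) {z : ℂ} (hz : z ∈ N) :
    DifferentiableOn ℂ (fun w => f (z, w)) W := by
  refine hf.comp ((differentiableOn_const _).prodMk differentiableOn_id) ?_
  intro w hw
  exact ⟨hz, hw⟩

theorem tco_holo {c : ℂ} {R R' : ℝ} (hR : 0 < R) (hRR' : R < R') {W : Set F} (hW : IsOpen W)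
    {f : ℂ × F → ℂ} (hf : DifferentiableOn ℂ f ((Metric.ball c R' \ {c}) ×ˢ W)) {M : ℝ}
    (hM : ∀ p ∈ Metric.ball c R' ×ˢ W, ‖f p‖ ≤ M) (k : ℕ) :
    DifferentiableOn ℂ (tco c R f k) W := by
  intro w hw
  apply DifferentiableAt.differentiableWithinAt
  obtain ⟨r, hr, hsub⟩ := Metric.isOpen_iff.mp hW w hw
  have hmem0 : ∀ θ : ℝ, circleMap c R θ ∈ Metric.ball c R' := fun θ =>
    Metric.closedBall_subset_ball hRR' (circleMap_mem_closedBall c hR.le θ)
  have hmem : ∀ θ : ℝ, circleMap c R θ ∈ Metric.ball c R' \ {c} := fun θ =>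
    ⟨hmem0 θ, fun h => circleMap_ne_center hR.ne' h⟩
  have e : tco c R f k = fun w => (2 * Real.pi * Complex.I : ℂ)⁻¹ *
      ∫ θ in Set.Ioc 0 (2 * Real.pi), deriv (circleMap c R) θ *
        ((1 / (circleMap c R θ - c)) ^ k * ((circleMap c R θ - c)⁻¹ *
          f (circleMap c R θ, w))) := by
    ext w
    rw [tco, cauchyPowerSeries_apply, circleIntegral,
      intervalIntegral.integral_of_le (by positivity)]
    simp only [smul_eq_mul]
  rw [e]
  apply DifferentiableAt.const_mul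
  refine differentiableAt_integral (r := r) hr
    (G := fun w θ => deriv (circleMap c R) θ *
        ((1 / (circleMap c R θ - c)) ^ k * ((circleMap c R θ - c)⁻¹ *
          f (circleMap c R θ, w))))
    (g := fun _ => R * ((1 / R) ^ k * (R⁻¹ * |M|))) ?_ ?_ ?_ ?_
  · refine Eventually.of_forall fun θ => ?_
    have h1 : DifferentiableOn ℂ (fun y => f (circleMap c R θ, y)) (Metric.ball w r) :=
      (slice_snd hf (hmem θ)).mono hsub
    exact ((h1.const_mul _).const_mul _).const_mul _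
  · intro y hy
    have h1 : Continuous fun θ : ℝ => f (circleMap c R θ, y) := by
      have h2 : ContinuousOn (fun z => f (z, y)) (Metric.ball c R' \ {c}) :=
        (slice_fst hf (hsub hy)).continuousOn
      exact h2.comp_continuous (continuous_circleMap c R) hmem
    have h3 : Continuous fun θ : ℝ => circleMap c R θ - c := by fun_prop
    have h4 : ∀ θ : ℝ, circleMap c R θ - c ≠ 0 := fun θ => by
      simp [circleMap, hR.ne']
    have h5 : Continuous fun θ : ℝ => deriv (circleMap c R) θ := by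
      simp only [deriv_circleMap]
      fun_prop
    have h6 : Continuous fun θ : ℝ => (circleMap c R θ - c)⁻¹ := h3.inv₀ h4
    have h7 : Continuous fun θ : ℝ => (1 / (circleMap c R θ - c)) ^ k := by
      simp only [one_div]
      exact h6.pow k
    exact (h5.mul (h7.mul (h6.mul h1))).aestronglyMeasurable
  · exact integrableOn_const measure_Ioc_lt_top.ne enorm_ne_top
  · refine Eventually.of_forall fun θ y hy => ?_
    have h4 : ‖circleMap c R θ - c‖ = R := by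
      simp [circleMap, abs_of_pos hR]
    have h5 : ‖deriv (circleMap c R) θ‖ = R := by
      simp [deriv_circleMap, circleMap, abs_of_pos hR]
    rw [norm_mul, norm_mul, norm_mul, norm_pow, norm_div, norm_inv, h4, h5, norm_one]
    have h6 : ‖f (circleMap c R θ, y)‖ ≤ |M| := (hM _ ⟨hmem0 θ, hsub hy⟩).trans (le_abs_self _)
    gcongr

theorem tco_hasSum {c : ℂ} {R R' : ℝ} (hR : 0 < R) (hRR' : R < R')
    {f : ℂ × F → ℂ} {w : F} (hf : DifferentiableOn ℂ (fun z => f (z, w)) (Metric.ball c R'))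
    {z : ℂ} (hz : z ∈ Metric.ball c R) :
    HasSum (fun k => tco c R f k w * (z - c) ^ k) (f (z, w)) := by
  lift R to NNReal using hR.le
  have h1 : DifferentiableOn ℂ (fun z => f (z, w)) (Metric.closedBall c R) :=
    hf.mono (Metric.closedBall_subset_ball hRR')
  have h2 := DifferentiableOn.hasFPowerSeriesOnBall h1 (by exact_mod_cast hR)
  have h3 : z - c ∈ Metric.eball (0 : ℂ) (R : ENNReal) := by
    rw [Metric.mem_ball, dist_eq_norm] at hz
    rw [mem_eball_zero_iff, ← ofReal_norm]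
    exact (ENNReal.ofReal_lt_iff_lt_toReal (norm_nonneg _) (by simp)).mpr (by simpa using hz)
  have h4 := h2.hasSum h3
  have h5 : c + (z - c) = z := by ring
  rw [h5] at h4
  have h6 : (fun k => tco c R f k w * (z - c) ^ k) =
      fun k => (cauchyPowerSeries (fun z => f (z, w)) c R k) fun _ => (z - c) := by
    ext k
    have h7 : (fun _ : Fin k => z - c) = fun _ : Fin k => (z - c) • (1 : ℂ) := by simp
    rw [h7, ContinuousMultilinearMap.map_smul_univ]
    simp [tco, mul_comm]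
  rw [h6]
  exact h4

theorem tco_bound {c : ℂ} {R R' : ℝ} (hR : 0 < R) (hRR' : R < R') {W : Set F}
    {f : ℂ × F → ℂ} {M : ℝ} (hM : ∀ p ∈ Metric.ball c R' ×ˢ W, ‖f p‖ ≤ M) {w : F} (hw : w ∈ W)
    (k : ℕ) : ‖tco c R f k w‖ ≤ M * R⁻¹ ^ k := by
  have h1 : ‖tco c R f k w‖ ≤ ‖cauchyPowerSeries (fun z => f (z, w)) c R k‖ := by
    have := (cauchyPowerSeries (fun z => f (z, w)) c R k).le_opNorm (fun _ => (1 : ℂ))
    simpa [tco] using this
  refine h1.trans ((norm_cauchyPowerSeries_le _ _ _ _).trans ?_)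
  rw [abs_of_pos hR]
  refine mul_le_mul_of_nonneg_right ?_ (by positivity)
  have hmem : ∀ θ : ℝ, circleMap c R θ ∈ Metric.ball c R' := fun θ =>
    Metric.closedBall_subset_ball hRR' (circleMap_mem_closedBall c hR.le θ)
  have h2 : ‖∫ θ : ℝ in (0)..2 * Real.pi, ‖f (circleMap c R θ, w)‖‖ ≤ M * |2 * Real.pi - 0| := by
    refine intervalIntegral.norm_integral_le_of_norm_le_const fun θ _ => ?_
    rw [norm_norm]
    exact hM _ ⟨hmem θ, hw⟩
  have h3 : ∫ θ : ℝ in (0)..2 * Real.pi, ‖f (circleMap c R θ, w)‖ ≤ M * (2 * Real.pi) := by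
    refine (le_abs_self _).trans ?_
    rw [← Real.norm_eq_abs]
    refine h2.trans (le_of_eq ?_)
    rw [sub_zero, abs_of_pos (by positivity)]
  calc (2 * Real.pi)⁻¹ * ∫ θ : ℝ in (0)..2 * Real.pi, ‖f (circleMap c R θ, w)‖
      ≤ (2 * Real.pi)⁻¹ * (M * (2 * Real.pi)) := by gcongr
    _ = M := by field_simp

/-- Taylor approximation with holomorphic parameters (the function is only supposed to be
holomorphic in all variables outside the centre). -/
theorem taylor_approx' {c : ℂ} {ρ R' : ℝ} (hρ : 0 ≤ ρ) (hρR : ρ < R') {W : Set F} (hW : IsOpen W)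
    {f : ℂ × F → ℂ} (hf1 : ∀ w ∈ W, DifferentiableOn ℂ (fun z => f (z, w)) (Metric.ball c R'))
    (hf : DifferentiableOn ℂ f ((Metric.ball c R' \ {c}) ×ˢ W)) {M : ℝ}
    (hM : ∀ p ∈ Metric.ball c R' ×ˢ W, ‖f p‖ ≤ M) {ε : ℝ} (hε : 0 < ε) :
    ∃ g : ℂ × F → ℂ, DifferentiableOn ℂ g (univ ×ˢ W) ∧
      ∀ p ∈ Metric.closedBall c ρ ×ˢ W, ‖f p - g p‖ ≤ ε := by
  set R : ℝ := (ρ + R') / 2 with hRdef
  have hR : 0 < R := by rw [hRdef]; linarith
  have hRR' : R < R' := by rw [hRdef]; linarith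
  have hρR1 : ρ < R := by rw [hRdef]; linarith
  have hM' : ∀ p ∈ Metric.ball c R' ×ˢ W, ‖f p‖ ≤ |M| := fun p hp =>
    (hM p hp).trans (le_abs_self _)
  have hu : Summable (fun k : ℕ => |M| * (ρ / R) ^ k) :=
    (summable_geometric_of_lt_one (by positivity) ((div_lt_one hR).mpr hρR1)).mul_left _
  have hfu : ∀ (k : ℕ) (p : ℂ × F), p ∈ Metric.closedBall c ρ ×ˢ W →
      ‖tco c R f k p.2 * (p.1 - c) ^ k‖ ≤ |M| * (ρ / R) ^ k := by
    rintro k ⟨z, w⟩ ⟨hz, hw⟩
    simp only at hz hw ⊢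
    rw [Metric.mem_closedBall, dist_eq_norm] at hz
    rw [norm_mul, norm_pow]
    calc ‖tco c R f k w‖ * ‖z - c‖ ^ k ≤ (|M| * R⁻¹ ^ k) * ρ ^ k := by
          gcongr
          exact tco_bound hR hRR' hM' hw k
      _ = |M| * (ρ / R) ^ k := by rw [div_eq_mul_inv, mul_pow]; ring
  have hlim := tendstoUniformlyOn_tsum_nat hu hfu
  rw [Metric.tendstoUniformlyOn_iff] at hlim
  obtain ⟨n, hn⟩ := (hlim ε hε).exists
  refine ⟨fun p => ∑ k ∈ Finset.range n, tco c R f k p.2 * (p.1 - c) ^ k, ?_, ?_⟩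
  · refine DifferentiableOn.fun_sum fun k _ => ?_
    have h1 : DifferentiableOn ℂ (fun p : ℂ × F => tco c R f k p.2) (univ ×ˢ W) :=
      (tco_holo hR hRR' hW hf hM k).comp differentiableOn_snd (fun p hp => hp.2)
    exact h1.mul (by fun_prop)
  · intro p hp
    have h1 := (hn p hp).le
    rw [dist_eq_norm] at h1
    have h2 : p.1 ∈ Metric.ball c R := Metric.closedBall_subset_ball hρR1 hp.1
    have h3 := (tco_hasSum hR hRR' (hf1 p.2 hp.2) h2).tsum_eq
    rw [h3] at h1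
    exact h1

/-- Taylor approximation with holomorphic parameters. -/
theorem taylor_approx {c : ℂ} {ρ R' : ℝ} (hρ : 0 ≤ ρ) (hρR : ρ < R') {W : Set F} (hW : IsOpen W)
    {f : ℂ × F → ℂ} (hf : DifferentiableOn ℂ f (Metric.ball c R' ×ˢ W)) {M : ℝ}
    (hM : ∀ p ∈ Metric.ball c R' ×ˢ W, ‖f p‖ ≤ M) {ε : ℝ} (hε : 0 < ε) :
    ∃ g : ℂ × F → ℂ, DifferentiableOn ℂ g (univ ×ˢ W) ∧
      ∀ p ∈ Metric.closedBall c ρ ×ˢ W, ‖f p - g p‖ ≤ ε :=
  taylor_approx' hρ hρR hW (fun _ hw => slice_fst hf hw)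
    (hf.mono (prod_mono diff_subset le_rfl)) hM hε

end Pool.Agent.DQ.C
end

section

/-! Laurent approximation with holomorphic parameters. -/

set_option autoImplicit false

open Set Filter Topology MeasureTheory

namespace Pool.Agent.DQ.C

variable {F : Type*} [NormedAddCommGroup F] [NormedSpace ℂ F]

theorem cut_annulus (c : ℂ) {r₀ r₁ R₁ R₀ : ℝ} (h0 : 0 < r₁) (h1 : r₁ < R₁) :
    ∃ χ : ℂ → ℝ, Cut (Metric.ball c r₁) {z | R₁ < ‖z - c‖}
      {z | r₀ < ‖z - c‖ ∧ ‖z - c‖ < R₀} χ := by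
  let b : ContDiffBump c := ⟨r₁, R₁, h0, h1⟩
  refine ⟨b, ⟨Metric.isOpen_ball, ?_, ?_, ?_, ?_, b.contDiff, b.hasCompactSupport, ?_, ?_⟩⟩
  · exact isOpen_lt continuous_const (by fun_prop)
  · have e1 : IsOpen {z : ℂ | r₀ < ‖z - c‖} := isOpen_lt continuous_const (by fun_prop)
    have e2 : IsOpen {z : ℂ | ‖z - c‖ < R₀} := isOpen_lt (by fun_prop) continuous_const
    exact e1.inter e2
  · refine Metric.isBounded_ball.subset (s := {z | r₀ < ‖z - c‖ ∧ ‖z - c‖ < R₀})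
      (t := Metric.ball c R₀) ?_
    intro z hz
    rw [Metric.mem_ball, dist_eq_norm]
    exact hz.2
  · rw [Set.disjoint_left]
    intro z hz hz2
    rw [Metric.mem_ball, dist_eq_norm] at hz
    have : R₁ < ‖z - c‖ := hz2
    linarith
  · intro z hz
    exact b.one_of_mem_closedBall (Metric.ball_subset_closedBall hz)
  · intro z hz
    have hz2 : z ∉ Function.support b := by
      rw [b.support_eq, Metric.mem_ball, dist_eq_norm, not_lt]
      exact le_of_lt hz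
    simpa using hz2

/-- Laurent approximation. -/
theorem laurent_approx {c : ℂ} {r₀ r₁ R₁ R₀ : ℝ} (h0 : 0 < r₀) (h1 : r₀ < r₁) (h2 : r₁ < R₁)
    (h3 : R₁ < R₀) {W : Set F} (hW : IsOpen W) {f : ℂ × F → ℂ}
    (hf : DifferentiableOn ℂ f ({z | r₀ < ‖z - c‖ ∧ ‖z - c‖ < R₀} ×ˢ W)) {M : ℝ} (hM0 : 0 ≤ M)
    (hM : ∀ p ∈ {z | r₀ < ‖z - c‖ ∧ ‖z - c‖ < R₀} ×ˢ W, ‖f p‖ ≤ M) {ε : ℝ} (hε : 0 < ε) :
    ∃ g : ℂ × F → ℂ, DifferentiableOn ℂ g ({c}ᶜ ×ˢ W) ∧
      ∀ p ∈ {z | r₁ ≤ ‖z - c‖ ∧ ‖z - c‖ ≤ R₁} ×ˢ W, ‖f p - g p‖ ≤ ε := by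
  obtain ⟨χ, hcut⟩ := cut_annulus c (r₀ := r₀) (R₀ := R₀) (h0.trans h1) h2
  obtain ⟨C, hC, hsp⟩ := split_bound (F := F) hcut
  obtain ⟨f', f'', hf', hf'', hb', hb'', he⟩ := hsp W hW f M hM0 hf hM
  have hs1 : Metric.ball c R₀ ⊆ Metric.ball c r₁ ∪ {z | r₀ < ‖z - c‖ ∧ ‖z - c‖ < R₀} := by
    intro z hz
    rw [Metric.mem_ball, dist_eq_norm] at hz
    by_cases h : ‖z - c‖ < r₁
    · left; rwa [Metric.mem_ball, dist_eq_norm]
    · right; exact ⟨by linarith [not_lt.mp h], hz⟩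
  have hs2 : {z : ℂ | r₀ < ‖z - c‖} ⊆
      {z | R₁ < ‖z - c‖} ∪ {z | r₀ < ‖z - c‖ ∧ ‖z - c‖ < R₀} := by
    intro z hz
    by_cases h : R₁ < ‖z - c‖
    · left; exact h
    · right; exact ⟨hz, by linarith [not_lt.mp h]⟩
  obtain ⟨g', hg', hgb'⟩ := taylor_approx (ρ := R₁) (R' := R₀) (by linarith) h3 hW
    (hf'.mono (prod_mono hs1 le_rfl)) (fun p hp => hb' p (prod_mono hs1 le_rfl hp))
    (half_pos hε)
  -- the part at infinity
  have hd'' : DifferentiableOn ℂ f'' ({z : ℂ | r₀ < ‖z - c‖} ×ˢ W) :=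
    hf''.mono (prod_mono hs2 le_rfl)
  have hm : ∀ ζ : ℂ, ζ ∈ Metric.ball (0 : ℂ) r₀⁻¹ \ {0} → r₀ < ‖(c + ζ⁻¹) - c‖ := by
    rintro ζ ⟨hζ, hζ0⟩
    rw [add_sub_cancel_left, norm_inv]
    have hζ0' : 0 < ‖ζ‖ := norm_pos_iff.mpr hζ0
    rw [mem_ball_zero_iff] at hζ
    exact (lt_inv_comm₀ hζ0' h0).mp hζ
  set k : ℂ × F → ℂ := fun p => f'' (c + p.1⁻¹, p.2) with hk
  have hkd : DifferentiableOn ℂ k ((Metric.ball (0 : ℂ) r₀⁻¹ \ {0}) ×ˢ W) := by
    have h4 : DifferentiableOn ℂ (fun p : ℂ × F => (c + p.1⁻¹, p.2))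
        ((Metric.ball (0 : ℂ) r₀⁻¹ \ {0}) ×ˢ W) := by
      refine DifferentiableOn.prodMk ((differentiableOn_const _).add ?_) differentiableOn_snd
      refine DifferentiableOn.inv differentiableOn_fst ?_
      intro p hp
      exact hp.1.2
    exact hd''.comp h4 (fun p hp => ⟨hm _ hp.1, hp.2⟩)
  have hkb : ∀ p ∈ (Metric.ball (0 : ℂ) r₀⁻¹ \ {0}) ×ˢ W, ‖k p‖ ≤ C * M := fun p hp =>
    hb'' _ ⟨hs2 (hm _ hp.1), hp.2⟩
  set h : ℂ × F → ℂ := fun p =>
    Function.update (fun ζ => k (ζ, p.2)) 0 (limUnder (𝓝[≠] 0) (fun ζ => k (ζ, p.2))) p.1 with hh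
  have hhk : ∀ p : ℂ × F, p.1 ≠ 0 → h p = k p := by
    intro p hp
    simp [hh, Function.update_of_ne hp]
  have hhs : ∀ w ∈ W, DifferentiableOn ℂ (fun z => h (z, w)) (Metric.ball 0 r₀⁻¹) := by
    intro w hw
    have := Complex.differentiableOn_update_limUnder_of_bddAbove
      (s := Metric.ball (0 : ℂ) r₀⁻¹) (c := 0) (f := fun ζ => k (ζ, w))
      (Metric.ball_mem_nhds _ (by positivity)) (slice_fst hkd hw) ?_
    · exact this
    · refine ⟨C * M, ?_⟩
      rintro _ ⟨ζ, hζ, rfl⟩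
      exact hkb (ζ, w) ⟨hζ, hw⟩
  have hhd : DifferentiableOn ℂ h ((Metric.ball (0 : ℂ) r₀⁻¹ \ {0}) ×ˢ W) :=
    hkd.congr fun p hp => hhk p hp.1.2
  have hhb : ∀ p ∈ Metric.ball (0 : ℂ) r₀⁻¹ ×ˢ W, ‖h p‖ ≤ C * M := by
    rintro ⟨z, w⟩ ⟨hz, hw⟩
    simp only at hz hw
    by_cases hz0 : z = 0
    · subst hz0
      have hcont : ContinuousAt (fun z => h (z, w)) 0 :=
        ((hhs w hw).differentiableAt (Metric.ball_mem_nhds _ (by positivity))).continuousAt
      have ht : Tendsto (fun z => ‖h (z, w)‖) (𝓝[≠] 0) (𝓝 ‖h (0, w)‖) :=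
        hcont.norm.tendsto.mono_left nhdsWithin_le_nhds
      refine le_of_tendsto ht ?_
      have h5 : Metric.ball (0 : ℂ) r₀⁻¹ ∈ 𝓝[≠] (0 : ℂ) :=
        nhdsWithin_le_nhds (Metric.ball_mem_nhds _ (by positivity))
      filter_upwards [h5, self_mem_nhdsWithin] with t ht1 ht2
      rw [hhk (t, w) ht2]
      exact hkb (t, w) ⟨⟨ht1, ht2⟩, hw⟩
    · rw [hhk (z, w) hz0]
      exact hkb (z, w) ⟨⟨hz, hz0⟩, hw⟩
  have h0i : (0 : ℝ) < r₁⁻¹ := by
    have : 0 < r₁ := h0.trans h1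
    positivity
  obtain ⟨g'', hg'', hgb''⟩ := taylor_approx' (c := 0) (ρ := r₁⁻¹) (R' := r₀⁻¹) h0i.le
    (inv_strictAnti₀ h0 h1) hW hhs hhd hhb (half_pos hε)
  refine ⟨fun p => g' p - g'' ((p.1 - c)⁻¹, p.2), ?_, ?_⟩
  · refine (hg'.mono (prod_mono (subset_univ _) le_rfl)).sub ?_
    have h4 : DifferentiableOn ℂ (fun p : ℂ × F => ((p.1 - c)⁻¹, p.2)) ({c}ᶜ ×ˢ W) := by
      refine DifferentiableOn.prodMk ?_ differentiableOn_snd
      refine DifferentiableOn.inv (by fun_prop) ?_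
      intro p hp
      exact sub_ne_zero.mpr hp.1
    exact hg''.comp h4 (fun p hp => ⟨mem_univ _, hp.2⟩)
  · rintro ⟨z, w⟩ ⟨⟨hz1, hz2⟩, hw⟩
    simp only at hz1 hz2 hw ⊢
    have hne : z - c ≠ 0 := by
      intro h
      rw [h, norm_zero] at hz1
      linarith
    have e1 : f (z, w) = f' (z, w) - f'' (z, w) :=
      he (z, w) ⟨⟨by linarith, by linarith⟩, hw⟩
    have e2 : h ((z - c)⁻¹, w) = f'' (z, w) := by
      rw [hhk _ (inv_ne_zero hne), hk]
      simp
    have b1 := hgb' (z, w) ⟨by rw [Metric.mem_closedBall, dist_eq_norm]; exact hz2, hw⟩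
    have b2 := hgb'' ((z - c)⁻¹, w) ⟨by
      rw [mem_closedBall_zero_iff, norm_inv]
      exact inv_anti₀ (h0.trans h1) hz1, hw⟩
    rw [e2] at b2
    rw [e1]
    calc ‖f' (z, w) - f'' (z, w) - (g' (z, w) - g'' ((z - c)⁻¹, w))‖
        = ‖(f' (z, w) - g' (z, w)) - (f'' (z, w) - g'' ((z - c)⁻¹, w))‖ := by congr 1; ring
      _ ≤ ε / 2 + ε / 2 := (norm_sub_le _ _).trans (add_le_add b1 b2)
      _ = ε := by ring

end Pool.Agent.DQ.C
end

section

/-! Campaign DQ, module W, file WLim: locally uniform limits of holomorphic functions on open subsets of an arbitrary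
complex normed space. -/

set_option autoImplicit false

open Metric Set Filter Topology

namespace Pool.Agent.DQ.W

variable {E : Type*} [NormedAddCommGroup E] [NormedSpace ℂ E]

/-- **Locally uniform limits of holomorphic functions are holomorphic** (any complex normed space `E`, complex valued
functions).

Proof. Fix `x₀ ∈ U`, choose `r > 0` such that `ball x₀ (2 * r) ⊆ U` and `f n → g` uniformly on `ball x₀ (2 * r)`
(definition of `TendstoLocallyUniformlyOn`, shrink the neighbourhood to a ball). For `x ∈ ball x₀ r` and `n, m` the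
function `f n - f m` is holomorphic on `ball x r` and bounded there by `s n m := sup`, so
`Pool.Agent.Lib.MP_ca0fc2_an.norm_fderiv_apply_le` gives `‖fderiv ℂ (f n) x - fderiv ℂ (f m) x‖ ≤ 2 * ε / r` whenever
`‖f n - f m‖ ≤ ε` on `ball x₀ (2 * r)`. Hence `fderiv ℂ (f n)` is uniformly Cauchy on `ball x₀ r` with values in the
complete space `E →L[ℂ] ℂ`; its pointwise limit `g'` is a uniform limit, and
`hasFDerivAt_of_tendstoUniformlyOn` (Mathlib.Analysis.Calculus.UniformLimitsDeriv) gives `HasFDerivAt g (g' x₀) x₀`. -/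
theorem hol_lim {U : Set E} (hU : IsOpen U) {f : ℕ → E → ℂ} {g : E → ℂ}
    (hf : ∀ n, DifferentiableOn ℂ (f n) U) (hl : TendstoLocallyUniformlyOn f g atTop U) :
    DifferentiableOn ℂ g U := by
  intro x₀ hx₀
  have hcg : ContinuousOn g U :=
    hl.continuousOn (Frequently.of_forall fun n => (hf n).continuousOn)
  -- a ball on which everything is bounded
  obtain ⟨r, M, N, hr, hrU, hM⟩ : ∃ (r M : ℝ) (N : ℕ), 0 < r ∧ ball x₀ r ⊆ U ∧ ∀ n, N ≤ n → ∀ y ∈ ball x₀ r, ‖f n y‖ ≤ M := by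
    have h1 : ∀ᶠ y in 𝓝 x₀, ‖g y‖ < ‖g x₀‖ + 1 := by
      have := (hcg.continuousAt (hU.mem_nhds hx₀)).norm
      exact this.eventually (gt_mem_nhds (by linarith))
    obtain ⟨t, ht, h2⟩ := Metric.tendstoLocallyUniformlyOn_iff.mp hl 1 one_pos x₀ hx₀
    rw [hU.nhdsWithin_eq hx₀] at ht
    obtain ⟨N, hN⟩ := eventually_atTop.mp h2
    have h3 : t ∩ U ∈ 𝓝 x₀ := inter_mem ht (hU.mem_nhds hx₀)
    obtain ⟨r, hr, hr2⟩ := Metric.mem_nhds_iff.mp (inter_mem h3 h1)
    refine ⟨r, ‖g x₀‖ + 2, N, hr, fun y hy => (hr2 hy).1.2, fun n hn y hy => ?_⟩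
    have h4 := hN n hn y (hr2 hy).1.1
    have h5 : ‖g y‖ < ‖g x₀‖ + 1 := (hr2 hy).2
    rw [dist_eq_norm] at h4
    have h6 : ‖f n y‖ ≤ ‖g y‖ + ‖g y - f n y‖ := by
      have : f n y = g y - (g y - f n y) := by ring
      calc ‖f n y‖ = ‖g y - (g y - f n y)‖ := by rw [← this]
        _ ≤ ‖g y‖ + ‖g y - f n y‖ := norm_sub_le _ _
    linarith
  have hM0 : 0 ≤ M := (norm_nonneg _).trans (hM N le_rfl x₀ (mem_ball_self hr))
  set C : ℝ := 4 * M / r ^ 2 with hC
  have hC0 : 0 ≤ C := by positivity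
  have hpt : ∀ y ∈ ball x₀ r, Tendsto (fun n => f n y) atTop (𝓝 (g y)) := fun y hy => hl.tendsto_at (hrU hy)
  have htay : ∀ n, N ≤ n → ∀ v : E, ‖v‖ < r → ‖f n (x₀ + v) - f n x₀ - fderiv ℂ (f n) x₀ v‖ ≤ C * ‖v‖ ^ 2 := fun n hn v hv =>
    Pool.Agent.Lib.MP_ca0fc2_an.taylor_two hr ((hf n).mono hrU) (hM n hn) hv
  have hmem : ∀ v : E, ‖v‖ < r → x₀ + v ∈ ball x₀ r := fun v hv => by
    rw [mem_ball_iff_norm, add_sub_cancel_left]; exact hv
  -- the derivatives converge pointwise, first for short vectors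
  have hcau : ∀ v : E, ‖v‖ < r → CauchySeq (fun n => fderiv ℂ (f n) x₀ v) := by
    intro v hv
    rw [Metric.cauchySeq_iff]
    intro ε hε
    -- choose t
    set t : ℝ := min 1 (ε / (8 * (C * ‖v‖ ^ 2 + 1))) with ht
    have hden : 0 < C * ‖v‖ ^ 2 + 1 := by positivity
    have ht0 : 0 < t := lt_min one_pos (by positivity)
    have ht1 : t ≤ 1 := min_le_left _ _
    have ht2 : t * (C * ‖v‖ ^ 2 + 1) ≤ ε / 8 := by
      have : t ≤ ε / (8 * (C * ‖v‖ ^ 2 + 1)) := min_le_right _ _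
      calc t * (C * ‖v‖ ^ 2 + 1) ≤ ε / (8 * (C * ‖v‖ ^ 2 + 1)) * (C * ‖v‖ ^ 2 + 1) := by gcongr
        _ = ε / 8 := by field_simp
    have hnt : ‖((t : ℂ)) • v‖ = t * ‖v‖ := by
      rw [norm_smul, Complex.norm_real, Real.norm_of_nonneg ht0.le]
    have hvt : ‖((t : ℂ)) • v‖ < r := by
      rw [hnt]
      calc t * ‖v‖ ≤ 1 * ‖v‖ := by gcongr
        _ < r := by rw [one_mul]; exact hv
    have c1 := (hpt _ (hmem _ hvt)).cauchySeq
    have c2 := (hpt x₀ (mem_ball_self hr)).cauchySeq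
    obtain ⟨N1, hN1⟩ := (Metric.cauchySeq_iff.mp c1) (t * ε / 4) (by positivity)
    obtain ⟨N2, hN2⟩ := (Metric.cauchySeq_iff.mp c2) (t * ε / 4) (by positivity)
    refine ⟨max N (max N1 N2), fun m hm n hn => ?_⟩
    have hmN : N ≤ m := (le_max_left _ _).trans hm
    have hnN : N ≤ n := (le_max_left _ _).trans hn
    have hm1 : N1 ≤ m := (le_max_left _ _).trans ((le_max_right _ _).trans hm)
    have hn1 : N1 ≤ n := (le_max_left _ _).trans ((le_max_right _ _).trans hn)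
    have hm2 : N2 ≤ m := (le_max_right _ _).trans ((le_max_right _ _).trans hm)
    have hn2 : N2 ≤ n := (le_max_right _ _).trans ((le_max_right _ _).trans hn)
    have e1 := hN1 m hm1 n hn1
    have e2 := hN2 m hm2 n hn2
    have e3 := htay m hmN _ hvt
    have e4 := htay n hnN _ hvt
    rw [dist_eq_norm] at e1 e2 ⊢
    rw [hnt, map_smul, smul_eq_mul] at e3 e4
    have e5 : (t : ℂ) * (fderiv ℂ (f m) x₀ v - fderiv ℂ (f n) x₀ v) =
        (f m (x₀ + (t : ℂ) • v) - f n (x₀ + (t : ℂ) • v)) - (f m x₀ - f n x₀)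
          - (f m (x₀ + (t : ℂ) • v) - f m x₀ - (t : ℂ) * fderiv ℂ (f m) x₀ v)
          + (f n (x₀ + (t : ℂ) • v) - f n x₀ - (t : ℂ) * fderiv ℂ (f n) x₀ v) := by ring
    have e6 : t * ‖fderiv ℂ (f m) x₀ v - fderiv ℂ (f n) x₀ v‖ ≤ t * ε / 4 + t * ε / 4 + C * (t * ‖v‖) ^ 2 + C * (t * ‖v‖) ^ 2 := by
      have : t * ‖fderiv ℂ (f m) x₀ v - fderiv ℂ (f n) x₀ v‖ = ‖(t : ℂ) * (fderiv ℂ (f m) x₀ v - fderiv ℂ (f n) x₀ v)‖ := by
        rw [norm_mul, Complex.norm_real, Real.norm_of_nonneg ht0.le]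
      rw [this, e5]
      refine (norm_add_le _ _).trans (add_le_add ((norm_sub_le _ _).trans (add_le_add ((norm_sub_le _ _).trans (add_le_add e1.le e2.le)) e3)) e4)
    have e7 : t * ‖fderiv ℂ (f m) x₀ v - fderiv ℂ (f n) x₀ v‖ < t * ε := by
      have h8 : C * (t * ‖v‖) ^ 2 ≤ t * (ε / 8) := by
        calc C * (t * ‖v‖) ^ 2 = t * (t * (C * ‖v‖ ^ 2)) := by ring
          _ ≤ t * (t * (C * ‖v‖ ^ 2 + 1)) := by gcongr; linarith
          _ ≤ t * (ε / 8) := by gcongr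
      have h9 : 0 < t * ε := by positivity
      linarith
    exact lt_of_mul_lt_mul_left e7 ht0.le
  -- the limit for all vectors
  have hlimv : ∀ v : E, ∃ l : ℂ, Tendsto (fun n => fderiv ℂ (f n) x₀ v) atTop (𝓝 l) := by
    intro v
    have hpos : 0 < 2 * (‖v‖ + 1) / r := by positivity
    set c : ℝ := 2 * (‖v‖ + 1) / r with hc
    have hcv : ‖((c⁻¹ : ℝ) : ℂ) • v‖ < r := by
      rw [norm_smul, Complex.norm_real, Real.norm_of_nonneg (by positivity), hc, inv_div, div_mul_eq_mul_div,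
        div_lt_iff₀ (by positivity)]
      nlinarith [norm_nonneg v]
    obtain ⟨l, hl'⟩ := cauchySeq_tendsto_of_complete (hcau _ hcv)
    refine ⟨(c : ℂ) * l, (hl'.const_mul (c : ℂ)).congr fun n => ?_⟩
    rw [map_smul, smul_eq_mul, ← mul_assoc]
    have : (c : ℂ) * ((c⁻¹ : ℝ) : ℂ) = 1 := by
      rw [← Complex.ofReal_mul, mul_inv_cancel₀ hpos.ne', Complex.ofReal_one]
    rw [this, one_mul]
  choose L hL using hlimv
  have hLt : Tendsto (fun n v => (fderiv ℂ (f n) x₀).toLinearMap v) atTop (𝓝 L) := by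
    rw [tendsto_pi_nhds]
    exact hL
  let L₁ : E →ₗ[ℂ] ℂ := linearMapOfTendsto L (fun n => (fderiv ℂ (f n) x₀).toLinearMap) hLt
  have hL₁ : ∀ v, L₁ v = L v := fun v => rfl
  have hbound : ∀ v, ‖L₁ v‖ ≤ (2 * M / r) * ‖v‖ := by
    intro v
    rw [hL₁]
    refine le_of_tendsto (hL v).norm ?_
    filter_upwards [eventually_ge_atTop N] with n hn
    exact Pool.Agent.Lib.MP_ca0fc2_an.norm_fderiv_apply_le hr ((hf n).mono hrU) (hM n hn) v
  let L₂ : E →L[ℂ] ℂ := L₁.mkContinuous (2 * M / r) hbound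
  have hL₂ : ∀ v, L₂ v = L v := fun v => rfl
  have htayg : ∀ v : E, ‖v‖ < r → ‖g (x₀ + v) - g x₀ - L₂ v‖ ≤ C * ‖v‖ ^ 2 := by
    intro v hv
    rw [hL₂]
    have t1 := (((hpt _ (hmem v hv)).sub (hpt x₀ (mem_ball_self hr))).sub (hL v)).norm
    refine le_of_tendsto t1 ?_
    filter_upwards [eventually_ge_atTop N] with n hn
    exact htay n hn v hv
  have hd : HasFDerivAt g L₂ x₀ := by
    rw [hasFDerivAt_iff_isLittleO_nhds_zero, Asymptotics.isLittleO_iff]
    intro c hc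
    have hrr : 0 < min r (c / (C + 1)) := lt_min hr (by positivity)
    filter_upwards [ball_mem_nhds (0 : E) hrr] with v hv
    rw [mem_ball_zero_iff] at hv
    have hv1 : ‖v‖ < r := hv.trans_le (min_le_left _ _)
    have hv2 : ‖v‖ < c / (C + 1) := hv.trans_le (min_le_right _ _)
    refine (htayg v hv1).trans ?_
    have h3 : C * ‖v‖ ≤ c := by
      rw [lt_div_iff₀ (by positivity)] at hv2
      nlinarith [norm_nonneg v]
    calc C * ‖v‖ ^ 2 = (C * ‖v‖) * ‖v‖ := by ring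
      _ ≤ c * ‖v‖ := by gcongr
  exact hd.differentiableAt.differentiableWithinAt

/-- **Series of holomorphic functions** with a summable majorant.

Proof. `tendstoUniformlyOn_tsum_nat` (Weierstrass M-test) gives uniform convergence on `U` of the partial sums
`fun n x => ∑ i ∈ Finset.range n, f i x`, which are holomorphic; apply `hol_lim`. -/
theorem hol_tsum {U : Set E} (hU : IsOpen U) {f : ℕ → E → ℂ} {u : ℕ → ℝ} (hu : Summable u)
    (hf : ∀ n, DifferentiableOn ℂ (f n) U) (hb : ∀ n, ∀ x ∈ U, ‖f n x‖ ≤ u n) :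
    DifferentiableOn ℂ (fun x => ∑' n, f n x) U := by
  refine hol_lim hU (f := fun N x => ∑ i ∈ Finset.range N, f i x) (fun N => ?_) ?_
  · exact DifferentiableOn.fun_sum fun i _ => hf i
  · exact (tendstoUniformlyOn_tsum_nat hu hb).tendstoLocallyUniformlyOn

end Pool.Agent.DQ.W
end

section

/-! Campaign DQ, module W, file WCirc: circle integrals depending holomorphically on a parameter in an open
subset of an arbitrary complex normed space. -/

set_option autoImplicit false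

open Metric Set MeasureTheory Filter Topology

namespace Pool.Agent.DQ.W

variable {E : Type*} [NormedAddCommGroup E] [NormedSpace ℂ E]

/-- **Circle integral with a holomorphic parameter.** `U` open in any complex normed space `E`; `F x ζ` is jointly
continuous on `U × sphere c ρ` and holomorphic in `x ∈ U` for every `ζ` on the circle; then `x ↦ ∮ F x ζ dζ` is
holomorphic on `U`.

Proof. Fix `x₀ ∈ U`. The set `sphere c ρ` is compact and `F` is continuous on `U ×ˢ sphere c ρ`, hence (tube lemma /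
`IsCompact` argument: the continuous function `ζ ↦ F x₀ ζ` is bounded by some `M`, and the set of `(x, ζ)` with
`‖F x ζ‖ < M + 1` is a neighbourhood of `{x₀} × sphere c ρ` within `U ×ˢ sphere`) there is `r > 0` with
`ball x₀ (2 * r) ⊆ U` and `‖F x ζ‖ ≤ M + 1` for `x ∈ ball x₀ (2 * r)`, `ζ ∈ sphere c ρ`.
Write `∮ ζ in C(c, ρ), F x ζ = ∫ θ in 0..2π, deriv (circleMap c ρ) θ • F x (circleMap c ρ θ)` and use
`Pool.Agent.Lib.MP_ca0fc2_an.differentiableAt_integral` (file MP_ca0fc2_an/Holo.lean; look how it is used in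
MP_ca0fc2_an/Osgood.lean) with the dominating constant `|ρ| * (M + 1)`. -/
theorem hol_circleIntegral {U : Set E} (hU : IsOpen U) {c : ℂ} {ρ : ℝ} (hρ : 0 ≤ ρ) {F : E → ℂ → ℂ}
    (hc : ContinuousOn (fun p : E × ℂ => F p.1 p.2) (U ×ˢ sphere c ρ))
    (hd : ∀ ζ ∈ sphere c ρ, DifferentiableOn ℂ (fun x => F x ζ) U) :
    DifferentiableOn ℂ (fun x => ∮ ζ in C(c, ρ), F x ζ) U := by
  intro x₀ hx₀
  apply DifferentiableAt.differentiableWithinAt
  have hK : IsCompact (sphere c ρ) := isCompact_sphere c ρ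
  -- continuity in the second variable
  have hcx : ∀ x ∈ U, ContinuousOn (fun ζ => F x ζ) (sphere c ρ) := by
    intro x hx
    have h1 : ContinuousOn (fun ζ : ℂ => ((x, ζ) : E × ℂ)) (sphere c ρ) := by fun_prop
    exact hc.comp h1 (fun ζ hζ => ⟨hx, hζ⟩)
  obtain ⟨M, hM⟩ := hK.exists_bound_of_continuousOn (hcx x₀ hx₀)
  have hev : ∀ᶠ x in 𝓝 x₀, ∀ ζ ∈ sphere c ρ, ((x, ζ) : E × ℂ) ∈ U ×ˢ sphere c ρ →
      ‖F x ζ‖ < M + 1 := by
    refine hK.eventually_forall_of_forall_eventually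
      (P := fun x ζ => ((x, ζ) : E × ℂ) ∈ U ×ˢ sphere c ρ → ‖F x ζ‖ < M + 1) ?_
    intro ζ hζ
    have h1 : ContinuousWithinAt (fun p : E × ℂ => ‖F p.1 p.2‖) (U ×ˢ sphere c ρ) (x₀, ζ) :=
      (hc (x₀, ζ) ⟨hx₀, hζ⟩).norm
    have h2 : ‖F x₀ ζ‖ < M + 1 := by
      have := hM ζ hζ
      linarith
    have h3 := h1.eventually (gt_mem_nhds h2)
    rw [eventually_nhdsWithin_iff] at h3
    exact h3
  obtain ⟨r, hr, hball⟩ := Metric.eventually_nhds_iff_ball.1 (hev.and (hU.mem_nhds hx₀))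
  have hsub : ball x₀ r ⊆ U := fun x hx => (hball x hx).2
  have hbd : ∀ x ∈ ball x₀ r, ∀ ζ ∈ sphere c ρ, ‖F x ζ‖ ≤ M + 1 := fun x hx ζ hζ =>
    ((hball x hx).1 ζ hζ ⟨hsub hx, hζ⟩).le
  have hcirc : ∀ θ : ℝ, circleMap c ρ θ ∈ sphere c ρ := fun θ => circleMap_mem_sphere c hρ θ
  have key : DifferentiableAt ℂ (fun x => ∫ θ, deriv (circleMap c ρ) θ • F x (circleMap c ρ θ)
      ∂(volume.restrict (Ioc 0 (2 * Real.pi)))) x₀ := by
    refine Pool.Agent.Lib.MP_ca0fc2_an.differentiableAt_integral (r := r) hr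
      (g := fun _ => |ρ| * (M + 1)) ?_ ?_ ?_ ?_
    · refine Eventually.of_forall fun θ => ?_
      exact ((hd _ (hcirc θ)).mono hsub).const_smul (deriv (circleMap c ρ) θ)
    · intro x hx
      apply Continuous.aestronglyMeasurable
      have c1 : Continuous (fun θ => deriv (circleMap c ρ) θ) := by
        simp only [deriv_circleMap]
        exact (continuous_circleMap 0 ρ).mul continuous_const
      have c2 : Continuous (fun θ => F x (circleMap c ρ θ)) :=
        (hcx x (hsub hx)).comp_continuous (continuous_circleMap c ρ) hcirc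
      exact c1.smul c2
    · exact integrable_const _
    · refine Eventually.of_forall fun θ x hx => ?_
      rw [norm_smul]
      have h4 : ‖deriv (circleMap c ρ) θ‖ = |ρ| := by
        rw [deriv_circleMap, norm_mul, Complex.norm_I, mul_one, norm_circleMap_zero]
      rw [h4]
      exact mul_le_mul_of_nonneg_left (hbd x hx _ (hcirc θ)) (abs_nonneg ρ)
  have e : (fun x => ∮ ζ in C(c, ρ), F x ζ) = fun x => ∫ θ, deriv (circleMap c ρ) θ •
      F x (circleMap c ρ θ) ∂(volume.restrict (Ioc 0 (2 * Real.pi))) := by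
    funext x
    rw [circleIntegral, intervalIntegral.integral_of_le Real.two_pi_pos.le]
  rw [e]
  exact key

end Pool.Agent.DQ.W
end

section

/-! Campaign DQ, module W, file WSlope: Taylor splitting in the last variable, with bounds and holomorphic in the
parameter `v`. -/

set_option autoImplicit false

open Metric Set Filter Topology

namespace Pool.Agent.DQ.W

variable {V : Type*} [NormedAddCommGroup V] [NormedSpace ℂ V]

private theorem WSlope_line {D : Set V} {R : ℝ} {G : V × ℂ → ℂ}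
    (hG : DifferentiableOn ℂ G (D ×ˢ ball 0 R)) {v : V} (hv : v ∈ D) :
    DifferentiableOn ℂ (fun s : ℂ => G (v, s)) (ball 0 R) := by
  have h1 : DifferentiableOn ℂ (fun s : ℂ => (v, s)) (ball 0 R) := by fun_prop
  exact hG.comp h1 fun s hs => ⟨hv, hs⟩

private theorem WSlope_base {D : Set V} {R : ℝ} {G : V × ℂ → ℂ}
    (hG : DifferentiableOn ℂ G (D ×ˢ ball 0 R)) {ζ : ℂ} (hζ : ζ ∈ ball (0 : ℂ) R) {ρ : ℝ} :
    DifferentiableOn ℂ (fun p : V × ℂ => G (p.1, ζ)) (D ×ˢ ball 0 ρ) := by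
  have h1 : DifferentiableOn ℂ (fun p : V × ℂ => (p.1, ζ)) (D ×ˢ ball 0 ρ) := by fun_prop
  exact hG.comp h1 fun p hp => ⟨hp.1, hζ⟩

/-- **Slope in the last variable.** `G` holomorphic on `D × ball 0 R`. Then `G (v, t) = G (v, 0) + t * H (v, t)` with `H`
holomorphic on `D × ball 0 R`, and `‖H‖ ≤ 2 * M / R` if `‖G‖ ≤ M`.

Proof. Put `H (v, t) := dslope (fun s => G (v, s)) 0 t`. The identity is the definition of `dslope` (`t = 0` trivial).
Bound: for fixed `v ∈ D` the map `s ↦ G (v, s)` sends `ball 0 R` into `closedBall (G (v, 0)) (2 * M)`, use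
`Complex.norm_dslope_le_div_of_mapsTo_ball` (as in MP_ca0fc2_an/Holo.lean). Holomorphy: the set is open; at a point
`(v₁, t₁)` with `t₁ ≠ 0` near it `H (v, t) = (G (v, t) - G (v, 0)) / t`, differentiable. At `(v₁, 0)`: choose
`0 < ρ < R`; for `v ∈ D` and `‖t‖ < ρ` the function `H (v, ·)` is holomorphic on `ball 0 R`
(`Complex.differentiableOn_dslope`), so Cauchy gives `H (v, t) = (2πi)⁻¹ • ∮ ζ in C(0, ρ), (ζ - t)⁻¹ • H (v, ζ)`, and on
the circle `H (v, ζ) = (G (v, ζ) - G (v, 0)) / ζ`. The right hand side is holomorphic in `(v, t) ∈ D ×ˢ ball 0 ρ` by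
`hol_circleIntegral` (with `E := V × ℂ`, `U := D ×ˢ ball 0 ρ`, `F (v, t) ζ := (ζ - t)⁻¹ • ((G (v, ζ) - G (v, 0)) / ζ)`:
continuous on `U ×ˢ sphere 0 ρ`, holomorphic in `(v, t)` for fixed `ζ` because `v ↦ G (v, ζ)` is holomorphic on `D`). -/
theorem hol_slope {D : Set V} (hD : IsOpen D) {R : ℝ} (hR : 0 < R) {G : V × ℂ → ℂ}
    (hG : DifferentiableOn ℂ G (D ×ˢ ball 0 R)) :
    ∃ H : V × ℂ → ℂ, DifferentiableOn ℂ H (D ×ˢ ball 0 R) ∧
      (∀ v ∈ D, ∀ t ∈ ball (0 : ℂ) R, G (v, t) = G (v, 0) + t * H (v, t)) ∧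
      ∀ M : ℝ, (∀ v ∈ D, ∀ t ∈ ball (0 : ℂ) R, ‖G (v, t)‖ ≤ M) →
        ∀ v ∈ D, ∀ t ∈ ball (0 : ℂ) R, ‖H (v, t)‖ ≤ 2 * M / R := by
  refine ⟨fun p => dslope (fun s => G (p.1, s)) 0 p.2, ?_, ?_, ?_⟩
  · -- holomorphy
    rintro ⟨v₁, t₁⟩ ⟨hv₁, ht₁⟩
    have ht₁' : ‖t₁‖ < R := mem_ball_zero_iff.mp ht₁
    obtain ⟨ρ, hρ1, hρ2⟩ := exists_between ht₁'
    have hρ0 : 0 < ρ := lt_of_le_of_lt (norm_nonneg _) hρ1
    have hU : IsOpen (D ×ˢ ball (0 : ℂ) ρ) := hD.prod isOpen_ball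
    have hmem : (v₁, t₁) ∈ D ×ˢ ball (0 : ℂ) ρ := ⟨hv₁, mem_ball_zero_iff.mpr hρ1⟩
    have hsph : ∀ ζ ∈ sphere (0 : ℂ) ρ, ζ ∈ ball (0 : ℂ) R ∧ ζ ≠ 0 := by
      intro ζ hζ
      have h1 : ‖ζ‖ = ρ := mem_sphere_zero_iff_norm.mp hζ
      refine ⟨mem_ball_zero_iff.mpr (by rw [h1]; exact hρ2), ?_⟩
      intro h2
      rw [h2, norm_zero] at h1
      exact hρ0.ne h1
    have hne : ∀ ζ ∈ sphere (0 : ℂ) ρ, ∀ t ∈ ball (0 : ℂ) ρ, ζ - t ≠ 0 := by
      intro ζ hζ t ht h
      have h1 : ‖ζ‖ = ρ := mem_sphere_zero_iff_norm.mp hζ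
      have h2 : ‖t‖ < ρ := mem_ball_zero_iff.mp ht
      rw [sub_eq_zero.mp h] at h1
      exact h2.ne h1
    have hI : DifferentiableOn ℂ (fun p : V × ℂ => ∮ ζ in C(0, ρ),
        (ζ - p.2)⁻¹ • ((G (p.1, ζ) - G (p.1, 0)) / ζ)) (D ×ˢ ball (0 : ℂ) ρ) := by
      refine hol_circleIntegral hU hρ0.le ?_ ?_
      · have hc1 : ContinuousOn (fun q : (V × ℂ) × ℂ => G (q.1.1, q.2))
            ((D ×ˢ ball (0 : ℂ) ρ) ×ˢ sphere (0 : ℂ) ρ) := by
          refine hG.continuousOn.comp (by fun_prop) ?_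
          rintro ⟨⟨v, t⟩, ζ⟩ ⟨⟨h1, h2⟩, h3⟩
          exact ⟨h1, (hsph ζ h3).1⟩
        have hc2 : ContinuousOn (fun q : (V × ℂ) × ℂ => G (q.1.1, 0))
            ((D ×ˢ ball (0 : ℂ) ρ) ×ˢ sphere (0 : ℂ) ρ) := by
          refine hG.continuousOn.comp (by fun_prop) ?_
          rintro ⟨⟨v, t⟩, ζ⟩ ⟨⟨h1, h2⟩, h3⟩
          exact ⟨h1, mem_ball_self hR⟩
        have hc3 : ContinuousOn (fun q : (V × ℂ) × ℂ => (q.2 - q.1.2)⁻¹)
            ((D ×ˢ ball (0 : ℂ) ρ) ×ˢ sphere (0 : ℂ) ρ) := by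
          have h4 : ContinuousOn (fun q : (V × ℂ) × ℂ => q.2 - q.1.2)
            ((D ×ˢ ball (0 : ℂ) ρ) ×ˢ sphere (0 : ℂ) ρ) := by fun_prop
          refine h4.inv₀ ?_
          rintro ⟨⟨v, t⟩, ζ⟩ ⟨⟨h1, h2⟩, h3⟩
          exact hne ζ h3 t h2
        have hc4 : ContinuousOn (fun q : (V × ℂ) × ℂ => q.2)
            ((D ×ˢ ball (0 : ℂ) ρ) ×ˢ sphere (0 : ℂ) ρ) := by fun_prop
        refine hc3.smul ((hc1.sub hc2).div hc4 ?_)
        rintro ⟨⟨v, t⟩, ζ⟩ ⟨⟨h1, h2⟩, h3⟩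
        exact (hsph ζ h3).2
      · intro ζ hζ
        have hd1 := WSlope_base hG (hsph ζ hζ).1 (ρ := ρ)
        have hd2 := WSlope_base hG (mem_ball_self hR) (ρ := ρ)
        have hd3 : DifferentiableOn ℂ (fun p : V × ℂ => (ζ - p.2)⁻¹) (D ×ˢ ball (0 : ℂ) ρ) := by
          have h4 : DifferentiableOn ℂ (fun p : V × ℂ => ζ - p.2) (D ×ˢ ball (0 : ℂ) ρ) := by
            fun_prop
          refine h4.inv ?_
          rintro ⟨v, t⟩ ⟨h1, h2⟩
          exact hne ζ hζ t h2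
        simp only [div_eq_mul_inv]
        exact hd3.smul ((hd1.sub hd2).mul_const ζ⁻¹)
    have hEq : ∀ p ∈ D ×ˢ ball (0 : ℂ) ρ, dslope (fun s => G (p.1, s)) 0 p.2 =
        (2 * (Real.pi : ℂ) * Complex.I)⁻¹ • ∮ ζ in C(0, ρ),
          (ζ - p.2)⁻¹ • ((G (p.1, ζ) - G (p.1, 0)) / ζ) := by
      rintro ⟨v, t⟩ ⟨hv, ht⟩
      dsimp only
      have h1 := WSlope_line hG hv
      have h2 : DifferentiableOn ℂ (dslope (fun s => G (v, s)) 0) (ball 0 R) :=
        (Complex.differentiableOn_dslope (ball_mem_nhds 0 hR)).mpr h1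
      have h3 : DifferentiableOn ℂ (dslope (fun s => G (v, s)) 0) (closedBall 0 ρ) :=
        h2.mono (closedBall_subset_ball hρ2)
      have h4 := h3.circleIntegral_sub_inv_smul ht
      have h5 : (∮ ζ in C(0, ρ), (ζ - t)⁻¹ • ((G (v, ζ) - G (v, 0)) / ζ)) =
          ∮ ζ in C(0, ρ), (ζ - t)⁻¹ • dslope (fun s => G (v, s)) 0 ζ := by
        refine circleIntegral.integral_congr hρ0.le fun ζ hζ => ?_
        rw [dslope_of_ne _ (hsph ζ hζ).2, slope_def_field, sub_zero]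
      rw [h5, h4, smul_smul, inv_mul_cancel₀, one_smul]
      exact Complex.two_pi_I_ne_zero
    have hfin : DifferentiableAt ℂ (fun p : V × ℂ => (2 * (Real.pi : ℂ) * Complex.I)⁻¹ •
        ∮ ζ in C(0, ρ), (ζ - p.2)⁻¹ • ((G (p.1, ζ) - G (p.1, 0)) / ζ)) (v₁, t₁) :=
      (hI.differentiableAt (hU.mem_nhds hmem)).const_smul ((2 * (Real.pi : ℂ) * Complex.I)⁻¹)
    refine (hfin.congr_of_eventuallyEq ?_).differentiableWithinAt
    filter_upwards [hU.mem_nhds hmem] with p hp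
    exact hEq p hp
  · intro v hv t ht
    have h1 := sub_smul_dslope (fun s => G (v, s)) 0 t
    rw [smul_eq_mul, sub_zero] at h1
    rw [h1]
    ring
  · intro M hM v hv t ht
    refine Complex.norm_dslope_le_div_of_mapsTo_ball (WSlope_line hG hv) ?_ ht
    intro s hs
    have h1 := hM v hv s hs
    have h2 := hM v hv 0 (mem_ball_self hR)
    rw [mem_closedBall, dist_eq_norm]
    calc ‖G (v, s) - G (v, 0)‖ ≤ _ := norm_sub_le _ _
      _ ≤ 2 * M := by linarith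

end Pool.Agent.DQ.W
end

section

/-! Campaign DQ, module W, file WTaylor: Taylor splitting of order `k` in the last variable, with bounds. -/

set_option autoImplicit false

open Metric Set Filter Topology

namespace Pool.Agent.DQ.W

variable {V : Type*} [NormedAddCommGroup V] [NormedSpace ℂ V]

/-- **Taylor splitting of order `k` in the last variable**, with bounds.

Proof. Induction on `k`. `k = 0`: `H = G`. Step: take `g, H` for `k`, apply `hol_slope` to `H`: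
`H (v, t) = H (v, 0) + t * H' (v, t)`; the new coefficient is `g k v := H (v, 0)` (holomorphic on `D` as composition
with `v ↦ (v, 0)`), the new remainder `H'`. Bounds: `‖H (v, 0)‖ ≤ (2 / R) ^ k * M`,
`‖H' (v, t)‖ ≤ 2 * ((2 / R) ^ k * M) / R = (2 / R) ^ (k + 1) * M`. -/
theorem hol_taylor {D : Set V} (hD : IsOpen D) {R : ℝ} (hR : 0 < R) (k : ℕ) {G : V × ℂ → ℂ}
    (hG : DifferentiableOn ℂ G (D ×ˢ ball 0 R)) :
    ∃ (g : ℕ → V → ℂ) (H : V × ℂ → ℂ), (∀ i, DifferentiableOn ℂ (g i) D) ∧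
      DifferentiableOn ℂ H (D ×ˢ ball 0 R) ∧
      (∀ v ∈ D, ∀ t ∈ ball (0 : ℂ) R,
        G (v, t) = (∑ i ∈ Finset.range k, g i v * t ^ i) + t ^ k * H (v, t)) ∧
      ∀ M : ℝ, 0 ≤ M → (∀ v ∈ D, ∀ t ∈ ball (0 : ℂ) R, ‖G (v, t)‖ ≤ M) →
        (∀ i < k, ∀ v ∈ D, ‖g i v‖ ≤ (2 / R) ^ i * M) ∧
        ∀ v ∈ D, ∀ t ∈ ball (0 : ℂ) R, ‖H (v, t)‖ ≤ (2 / R) ^ k * M := by
  induction k with
  | zero =>
    refine ⟨fun _ _ => 0, G, fun _ => differentiableOn_const _, hG, ?_, ?_⟩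
    · intro v _ t _
      simp
    · intro M _ hM
      refine ⟨fun i hi => absurd hi (Nat.not_lt_zero i), fun v hv t ht => ?_⟩
      rw [pow_zero, one_mul]
      exact hM v hv t ht
  | succ k ih =>
    obtain ⟨g, H, hg, hH, hid, hbd⟩ := ih
    obtain ⟨H', hH', hid', hbd'⟩ := hol_slope hD hR hH
    have h0 : (0 : ℂ) ∈ ball (0 : ℂ) R := mem_ball_self hR
    have hH0 : DifferentiableOn ℂ (fun v : V => H (v, 0)) D := by
      have h1 : DifferentiableOn ℂ (fun v : V => (v, (0 : ℂ))) D := by fun_prop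
      exact hH.comp h1 fun v hv => ⟨hv, h0⟩
    refine ⟨Function.update g k (fun v => H (v, 0)), H', ?_, hH', ?_, ?_⟩
    · intro i
      by_cases hi : i = k
      · subst hi
        rw [Function.update_self]
        exact hH0
      · rw [Function.update_of_ne hi]
        exact hg i
    · intro v hv t ht
      rw [Finset.sum_range_succ, Function.update_self]
      have h1 : ∑ i ∈ Finset.range k, Function.update g k (fun v => H (v, 0)) i v * t ^ i =
          ∑ i ∈ Finset.range k, g i v * t ^ i := by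
        refine Finset.sum_congr rfl fun i hi => ?_
        rw [Function.update_of_ne (Finset.mem_range.mp hi).ne]
      rw [h1, hid v hv t ht, hid' v hv t ht]
      ring
    · intro M hM0 hM
      obtain ⟨hb1, hb2⟩ := hbd M hM0 hM
      refine ⟨fun i hi v hv => ?_, fun v hv t ht => ?_⟩
      · by_cases hik : i = k
        · subst hik
          rw [Function.update_self]
          exact hb2 v hv 0 h0
        · rw [Function.update_of_ne hik]
          exact hb1 i (by omega) v hv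
      · have h1 := hbd' ((2 / R) ^ k * M) hb2 v hv t ht
        calc ‖H' (v, t)‖ ≤ 2 * ((2 / R) ^ k * M) / R := h1
          _ = (2 / R) ^ (k + 1) * M := by rw [pow_succ]; ring

end Pool.Agent.DQ.W
end

section

/-! Campaign DQ, module W, file WDivA: Weierstrass division by `t ^ k + c (v, t)` with `c` small (Neumann series). -/

set_option autoImplicit false

open Metric Set Filter Topology

namespace Pool.Agent.DQ.W

variable {V : Type*} [NormedAddCommGroup V] [NormedSpace ℂ V]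

/-- **Division by `t ^ k + c`**, `‖c‖ ≤ ε` on `D × ball 0 R` with `ε * (2 / R) ^ k ≤ 1 / 2`: every bounded holomorphic `F`
on `D × ball 0 R` is `(t ^ k + c) * q + ∑_{i < k} r i v * t ^ i`, with bounds.

Proof. Define recursively `F 0 := F` and, splitting `F n = ∑_{i<k} g n i v * t ^ i + t ^ k * H n` by `hol_taylor` (choose),
`F (n + 1) := - c * H n`. With `θ := ε * (2 / R) ^ k ≤ 1 / 2` one gets by induction `‖F n‖ ≤ M * (1 / 2) ^ n`,
`‖H n‖ ≤ (2 / R) ^ k * M * (1 / 2) ^ n`, `‖g n i v‖ ≤ (2 / R) ^ i * M * (1 / 2) ^ n`. Put `q := ∑' n, H n`,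
`r i := ∑' n, g n i` (holomorphic by `hol_tsum`, bounds by `∑ (1 / 2) ^ n = 2`; `tsum_of_norm_bounded` or
`norm_tsum_le_tsum_norm`). Summing `t ^ k * H n = F n - ∑_i g n i v * t ^ i` over `n` and using
`∑' n, F (n + 1) = - c * q`, `∑' n, F n = F 0 + ∑' n, F (n + 1)`:
`t ^ k * q = F - c * q - ∑_i r i v * t ^ i`. (Define the sequence of functions as a sequence of subtype elements
`{G // DifferentiableOn ℂ G (D ×ˢ ball 0 R) ∧ bounded by ..}` or use `Nat.rec` with `Classical.choose`; for `i ≥ k`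
nothing is claimed.) -/
theorem div_small {D : Set V} (hD : IsOpen D) {R ε M : ℝ} (hR : 0 < R) (k : ℕ) (hM : 0 ≤ M)
    (hε : ε * (2 / R) ^ k ≤ 1 / 2) {c F : V × ℂ → ℂ}
    (hc : DifferentiableOn ℂ c (D ×ˢ ball 0 R)) (hcε : ∀ v ∈ D, ∀ t ∈ ball (0 : ℂ) R, ‖c (v, t)‖ ≤ ε)
    (hF : DifferentiableOn ℂ F (D ×ˢ ball 0 R)) (hFM : ∀ v ∈ D, ∀ t ∈ ball (0 : ℂ) R, ‖F (v, t)‖ ≤ M) :
    ∃ (q : V × ℂ → ℂ) (r : ℕ → V → ℂ), DifferentiableOn ℂ q (D ×ˢ ball 0 R) ∧
      (∀ i < k, DifferentiableOn ℂ (r i) D) ∧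
      (∀ v ∈ D, ∀ t ∈ ball (0 : ℂ) R,
        F (v, t) = (t ^ k + c (v, t)) * q (v, t) + ∑ i ∈ Finset.range k, r i v * t ^ i) ∧
      (∀ v ∈ D, ∀ t ∈ ball (0 : ℂ) R, ‖q (v, t)‖ ≤ 2 * (2 / R) ^ k * M) ∧
      ∀ i < k, ∀ v ∈ D, ‖r i v‖ ≤ 2 * (2 / R) ^ i * M := by
  choose g H hg hH hid hbd using
    fun G : {G : V × ℂ → ℂ // DifferentiableOn ℂ G (D ×ˢ ball 0 R)} => hol_taylor hD hR k G.2
  let Fs : ℕ → {G : V × ℂ → ℂ // DifferentiableOn ℂ G (D ×ˢ ball 0 R)} := fun n =>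
    Nat.rec ⟨F, hF⟩ (fun _ G => ⟨fun p => -(c p * H G p), (hc.mul (hH G)).neg⟩) n
  have hF0 : Fs 0 = ⟨F, hF⟩ := rfl
  have hFs : ∀ n p, (Fs (n + 1)).1 p = -(c p * H (Fs n) p) := fun n p => rfl
  have hR2 : 0 ≤ 2 / R := by positivity
  have hb : ∀ n, ∀ v ∈ D, ∀ t ∈ ball (0 : ℂ) R, ‖(Fs n).1 (v, t)‖ ≤ M * (1 / 2) ^ n := by
    intro n
    induction n with
    | zero =>
      intro v hv t ht
      rw [pow_zero, mul_one]
      exact hFM v hv t ht
    | succ n ih =>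
      intro v hv t ht
      have h1 := (hbd (Fs n) (M * (1 / 2) ^ n) (by positivity) ih).2 v hv t ht
      have h2 := hcε v hv t ht
      have hε0 : 0 ≤ ε := le_trans (norm_nonneg _) h2
      rw [hFs, norm_neg, norm_mul]
      calc ‖c (v, t)‖ * ‖H (Fs n) (v, t)‖ ≤ ε * ((2 / R) ^ k * (M * (1 / 2) ^ n)) :=
            mul_le_mul h2 h1 (norm_nonneg _) hε0
        _ = (ε * (2 / R) ^ k) * (M * (1 / 2) ^ n) := by ring
        _ ≤ (1 / 2) * (M * (1 / 2) ^ n) :=
            mul_le_mul_of_nonneg_right hε (by positivity)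
        _ = M * (1 / 2) ^ (n + 1) := by rw [pow_succ]; ring
  have hHb : ∀ n, ∀ v ∈ D, ∀ t ∈ ball (0 : ℂ) R,
      ‖H (Fs n) (v, t)‖ ≤ (2 / R) ^ k * (M * (1 / 2) ^ n) := fun n v hv t ht =>
    (hbd (Fs n) (M * (1 / 2) ^ n) (by positivity) (hb n)).2 v hv t ht
  have hgb : ∀ n, ∀ i < k, ∀ v ∈ D, ‖g (Fs n) i v‖ ≤ (2 / R) ^ i * (M * (1 / 2) ^ n) :=
    fun n i hi v hv => (hbd (Fs n) (M * (1 / 2) ^ n) (by positivity) (hb n)).1 i hi v hv
  have hgeo : ∀ C : ℝ, HasSum (fun n : ℕ => C * (M * (1 / 2) ^ n)) (C * (M * 2)) := fun C =>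
    (hasSum_geometric_two.mul_left M).mul_left C
  refine ⟨fun p => ∑' n, H (Fs n) p, fun i v => ∑' n, g (Fs n) i v, ?_, ?_, ?_, ?_, ?_⟩
  · refine hol_tsum (hD.prod isOpen_ball) (hgeo ((2 / R) ^ k)).summable (fun n => hH (Fs n)) ?_
    rintro n ⟨v, t⟩ ⟨hv, ht⟩
    exact hHb n v hv t ht
  · intro i hi
    exact hol_tsum hD (hgeo ((2 / R) ^ i)).summable (fun n => hg (Fs n) i)
      fun n v hv => hgb n i hi v hv
  · intro v hv t ht
    dsimp only
    have sa : Summable fun n => (Fs n).1 (v, t) := by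
      refine Summable.of_norm_bounded (hasSum_geometric_two.mul_left M).summable fun n => ?_
      exact hb n v hv t ht
    have sb : Summable fun n => H (Fs n) (v, t) :=
      Summable.of_norm_bounded (hgeo ((2 / R) ^ k)).summable fun n => hHb n v hv t ht
    have sg : ∀ i ∈ Finset.range k, Summable fun n => g (Fs n) i v * t ^ i := fun i hi =>
      (Summable.of_norm_bounded (hgeo ((2 / R) ^ i)).summable fun n =>
        hgb n i (Finset.mem_range.mp hi) v hv).mul_right _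
    have e1 : ∑' n, (Fs n).1 (v, t) = F (v, t) + ∑' n, (Fs (n + 1)).1 (v, t) := by
      rw [sa.tsum_eq_zero_add, hF0]
    have e2 : ∑' n, (Fs (n + 1)).1 (v, t) = -(c (v, t) * ∑' n, H (Fs n) (v, t)) := by
      rw [tsum_congr fun n => hFs n (v, t), tsum_neg, tsum_mul_left]
    have e3 : ∑' n, (Fs n).1 (v, t) = (∑ i ∈ Finset.range k, (∑' n, g (Fs n) i v) * t ^ i) +
        t ^ k * ∑' n, H (Fs n) (v, t) := by
      have h1 : ∀ n, (Fs n).1 (v, t) = (∑ i ∈ Finset.range k, g (Fs n) i v * t ^ i) +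
          t ^ k * H (Fs n) (v, t) := fun n => hid (Fs n) v hv t ht
      rw [tsum_congr h1, (summable_sum sg).tsum_add (sb.mul_left _), tsum_mul_left,
        Summable.tsum_finsetSum sg]
      simp only [tsum_mul_right]
    rw [e1, e2] at e3
    linear_combination e3
  · intro v hv t ht
    have h1 := tsum_of_norm_bounded (hgeo ((2 / R) ^ k)) fun n => hHb n v hv t ht
    calc _ ≤ _ := h1
      _ = _ := by ring
  · intro i hi v hv
    have h1 := tsum_of_norm_bounded (hgeo ((2 / R) ^ i)) fun n => hgb n i hi v hv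
    calc _ ≤ _ := h1
      _ = _ := by ring

end Pool.Agent.DQ.W
end

section

/-! Campaign DQ, module W, file WNorm: normal form `f = g * ((t - t₀) ^ k + c)` with small `c`. -/

set_option autoImplicit false

open Metric Set Filter Topology

namespace Pool.Agent.DQ.W

variable {V : Type*} [NormedAddCommGroup V] [NormedSpace ℂ V]

private theorem WNorm_coeff (k : ℕ) : ∀ (a : ℕ → ℂ) (w : ℂ → ℂ), ContinuousAt w 0 →
    (∀ᶠ s in 𝓝[≠] (0 : ℂ), ∑ i ∈ Finset.range k, a i * s ^ i = s ^ k * w s) →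
    (∀ i < k, a i = 0) ∧ w 0 = 0 := by
  induction k with
  | zero =>
    intro a w hw h
    refine ⟨fun i hi => absurd hi (Nat.not_lt_zero i), ?_⟩
    have h1 : Tendsto w (𝓝[≠] (0 : ℂ)) (𝓝 (w 0)) := hw.tendsto.mono_left nhdsWithin_le_nhds
    have h2 : Tendsto w (𝓝[≠] (0 : ℂ)) (𝓝 0) := by
      refine tendsto_const_nhds.congr' ?_
      filter_upwards [h] with s hs
      simpa using hs
    exact tendsto_nhds_unique h1 h2
  | succ k ih =>
    intro a w hw h
    have h0 : a 0 = 0 := by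
      have h1 : Tendsto (fun s : ℂ => ∑ i ∈ Finset.range (k + 1), a i * s ^ i) (𝓝[≠] (0 : ℂ))
          (𝓝 (a 0)) := by
        have hc : Continuous fun s : ℂ => ∑ i ∈ Finset.range (k + 1), a i * s ^ i := by fun_prop
        have h2 := hc.tendsto 0
        rw [Finset.sum_range_succ'] at h2
        simp only [ne_eq, Nat.add_eq_zero_iff, one_ne_zero, and_false, not_false_eq_true, zero_pow,
          mul_zero, Finset.sum_const_zero, pow_zero, mul_one, zero_add] at h2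
        exact h2.mono_left nhdsWithin_le_nhds
      have h3 : Tendsto (fun s : ℂ => s ^ (k + 1) * w s) (𝓝[≠] (0 : ℂ)) (𝓝 (0 ^ (k + 1) * w 0)) := by
        have h4 : Tendsto (fun s : ℂ => s ^ (k + 1) * w s) (𝓝 (0 : ℂ)) (𝓝 (0 ^ (k + 1) * w 0)) :=
          ((continuous_pow (k + 1)).tendsto 0).mul hw.tendsto
        exact h4.mono_left nhdsWithin_le_nhds
      rw [zero_pow (Nat.succ_ne_zero k), zero_mul] at h3
      exact tendsto_nhds_unique h1 (h3.congr' (h.mono fun s hs => hs.symm))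
    have h5 := ih (fun i => a (i + 1)) w hw (by
      filter_upwards [h, self_mem_nhdsWithin] with s hs hs0
      have hs0' : s ≠ 0 := hs0
      rw [Finset.sum_range_succ', h0, zero_mul, add_zero] at hs
      apply mul_left_cancel₀ hs0'
      rw [Finset.mul_sum]
      refine Eq.trans ?_ (hs.trans (by ring))
      refine Finset.sum_congr rfl fun i _ => ?_
      ring)
    refine ⟨?_, h5.2⟩
    intro i hi
    rcases i with _ | i
    · exact h0
    · exact h5.1 i (by omega)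

/-- **Normal form.** If `f` is holomorphic near `(v₀, t₀)` with `Reg k f v₀ t₀` then in every neighbourhood `W` of
`(v₀, t₀)` there is a product `D × ball t₀ R` on which `f = g * ((t - t₀) ^ k + c)`, `g` without zeros and bounded below,
`c` small compared with `R ^ k`, `c (v₀, ·) = 0`.

Proof. By translation we may put `t₀ = 0` in the estimates (apply `hol_taylor` to `G (v, s) := f (v, t₀ + s)`): on some
`ball v₀ r₁ ×ˢ ball t₀ R₁ ⊆ W` where `f` is holomorphic, `f (v, t) = ∑_{i<k} f i v * (t - t₀) ^ i + (t - t₀) ^ k * g (v, t)`.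
From `Reg` and uniqueness of Taylor coefficients (multiply out: `∑_{i<k} f i v₀ * s ^ i = s ^ k * (u - g)` near `s = 0`,
so inductively `f i v₀ = 0`, then `g (v₀, t) = u t` for `t ≠ t₀` near `t₀`, and by continuity at `t₀`) one gets
`f i v₀ = 0` for `i < k` and `g (v₀, t₀) = u t₀ ≠ 0`. By continuity of `g` choose `R ≤ R₁`, `r₂ ≤ r₁`,
`δ := ‖g (v₀, t₀)‖ / 2 > 0` with `‖g‖ ≥ δ` on `ball v₀ r₂ ×ˢ ball t₀ R`. Put `c := (∑_{i<k} f i v * (t - t₀) ^ i) / g`:
`‖c‖ ≤ (∑_{i<k} ‖f i v‖ * R ^ i) / δ`, which tends to `0` as `v → v₀` (continuity of `f i`, `f i v₀ = 0`); so with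
`ε := (1 / 2) * (R / 2) ^ k` (then `ε * (2 / R) ^ k = 1 / 2`) choose `D = ball v₀ r₃` small. -/
theorem normal_form {f : V × ℂ → ℂ} {v₀ : V} {t₀ : ℂ} {k : ℕ} (hf : HolAt f (v₀, t₀)) (hk : Reg k f v₀ t₀)
    {W : Set (V × ℂ)} (hW : W ∈ 𝓝 (v₀, t₀)) :
    ∃ (D : Set V) (R ε δ : ℝ) (g c : V × ℂ → ℂ), IsOpen D ∧ v₀ ∈ D ∧ 0 < R ∧ 0 < δ ∧ D ×ˢ ball t₀ R ⊆ W ∧
      DifferentiableOn ℂ f (D ×ˢ ball t₀ R) ∧
      DifferentiableOn ℂ g (D ×ˢ ball t₀ R) ∧ DifferentiableOn ℂ c (D ×ˢ ball t₀ R) ∧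
      0 ≤ ε ∧ ε * (2 / R) ^ k ≤ 1 / 2 ∧
      (∀ p ∈ D ×ˢ ball t₀ R, δ ≤ ‖g p‖ ∧ ‖c p‖ ≤ ε ∧ f p = g p * ((p.2 - t₀) ^ k + c p)) ∧
      ∀ t ∈ ball t₀ R, c (v₀, t) = 0 := by
  obtain ⟨r, hr, hfr⟩ := holAt_iff.1 hf
  obtain ⟨r', hr', hW'⟩ := Metric.mem_nhds_iff.1 hW
  obtain ⟨R₁, hR₁, hR₁r, hR₁r'⟩ : ∃ R₁ : ℝ, 0 < R₁ ∧ R₁ ≤ r ∧ R₁ ≤ r' :=
    ⟨min r r', lt_min hr hr', min_le_left _ _, min_le_right _ _⟩
  have hbox : ∀ v t, v ∈ ball v₀ R₁ → t ∈ ball t₀ R₁ → (v, t) ∈ ball (v₀, t₀) R₁ := by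
    intro v t hv ht
    rw [← ball_prod_same]
    exact ⟨hv, ht⟩
  have hfd : DifferentiableOn ℂ f (ball v₀ R₁ ×ˢ ball t₀ R₁) := by
    apply hfr.mono
    rw [ball_prod_same]
    exact ball_subset_ball hR₁r
  have hG : DifferentiableOn ℂ (fun p : V × ℂ => f (p.1, t₀ + p.2)) (ball v₀ R₁ ×ˢ ball 0 R₁) := by
    have h1 : DifferentiableOn ℂ (fun p : V × ℂ => (p.1, t₀ + p.2)) (ball v₀ R₁ ×ˢ ball 0 R₁) := by
      apply Differentiable.differentiableOn
      fun_prop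
    apply hfd.comp h1
    rintro ⟨v, s⟩ ⟨hv, hs⟩
    refine ⟨hv, ?_⟩
    simp only [mem_ball, dist_eq_norm] at hs ⊢
    simpa using hs
  obtain ⟨a, H, ha, hH, hsplit, -⟩ := hol_taylor isOpen_ball hR₁ k hG
  have hv₀ : v₀ ∈ ball v₀ R₁ := mem_ball_self hR₁
  have hopen : IsOpen (ball v₀ R₁ ×ˢ ball (0 : ℂ) R₁) := isOpen_ball.prod isOpen_ball
  have h0mem : (v₀, (0 : ℂ)) ∈ ball v₀ R₁ ×ˢ ball (0 : ℂ) R₁ := ⟨hv₀, mem_ball_self hR₁⟩
  have hHc : ContinuousAt H (v₀, 0) := (hH.continuousOn).continuousAt (hopen.mem_nhds h0mem)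
  -- uniqueness of the Taylor coefficients
  obtain ⟨u, hu, hu0, huk⟩ := hk
  have hcoef := WNorm_coeff k (fun i => a i v₀) (fun s => u (t₀ + s) - H (v₀, s)) (by
      apply ContinuousAt.sub
      · have h1 : ContinuousAt u (t₀ + 0) := by
          rw [add_zero]
          exact hu.differentiableAt.continuousAt
        exact ContinuousAt.comp (f := fun s : ℂ => t₀ + s) (g := u) (x := (0 : ℂ)) h1
          (continuous_const.add continuous_id).continuousAt
      · exact ContinuousAt.comp (f := fun s : ℂ => (v₀, s)) (g := H) (x := (0 : ℂ)) hHc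
          (Continuous.prodMk_right v₀).continuousAt)
    (by
      have h1 : ∀ᶠ s in 𝓝 (0 : ℂ), f (v₀, t₀ + s) = s ^ k * u (t₀ + s) := by
        have h2 : Tendsto (fun s : ℂ => t₀ + s) (𝓝 0) (𝓝 t₀) := by
          have hc : Continuous fun s : ℂ => t₀ + s := by fun_prop
          exact hc.tendsto' 0 t₀ (add_zero t₀)
        have h3 := h2.eventually huk
        filter_upwards [h3] with s hs
        rw [hs, add_sub_cancel_left]
      have h4 : ∀ᶠ s in 𝓝 (0 : ℂ), s ∈ ball (0 : ℂ) R₁ := isOpen_ball.mem_nhds (mem_ball_self hR₁)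
      apply Filter.Eventually.filter_mono nhdsWithin_le_nhds
      filter_upwards [h1, h4] with s hs hs4
      have h5 := hsplit v₀ hv₀ s hs4
      simp only at h5
      rw [hs] at h5
      linear_combination -h5)
  have ha0 : ∀ i < k, a i v₀ = 0 := hcoef.1
  have hH0 : H (v₀, 0) ≠ 0 := by
    have h1 := hcoef.2
    simp only [add_zero] at h1
    rw [← sub_eq_zero.1 h1]
    exact hu0
  -- lower bound
  obtain ⟨δ, hδ, hδ'⟩ : ∃ δ : ℝ, 0 < δ ∧ δ < ‖H (v₀, 0)‖ :=
    ⟨‖H (v₀, 0)‖ / 2, by positivity, half_lt_self (norm_pos_iff.2 hH0)⟩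
  have hev : ∀ᶠ p in 𝓝 (v₀, (0 : ℂ)), δ < ‖H p‖ := hHc.norm.eventually (lt_mem_nhds hδ')
  obtain ⟨r₂, hr₂, hr₂'⟩ := Metric.eventually_nhds_iff_ball.1 hev
  obtain ⟨R, hR, hRR₁, hRr₂⟩ : ∃ R : ℝ, 0 < R ∧ R ≤ R₁ ∧ R ≤ r₂ :=
    ⟨min R₁ r₂, lt_min hR₁ hr₂, min_le_left _ _, min_le_right _ _⟩
  have hlow : ∀ v ∈ ball v₀ R, ∀ s ∈ ball (0 : ℂ) R, δ < ‖H (v, s)‖ := by
    intro v hv s hs
    apply hr₂'
    rw [← ball_prod_same]
    exact ⟨ball_subset_ball hRr₂ hv, ball_subset_ball hRr₂ hs⟩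
  set ε : ℝ := 1 / 2 * (R / 2) ^ k with hε
  have hεpos : 0 < ε := by positivity
  -- the coefficients are small
  have hac : ∀ i, ContinuousAt (a i) v₀ := fun i =>
    ((ha i).continuousOn).continuousAt (isOpen_ball.mem_nhds hv₀)
  have hS : ContinuousAt (fun v => ∑ i ∈ Finset.range k, ‖a i v‖ * R ^ i) v₀ := by
    apply tendsto_finsetSum
    intro i _
    exact ((hac i).norm).mul continuousAt_const
  have hS0 : ∑ i ∈ Finset.range k, ‖a i v₀‖ * R ^ i = 0 := by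
    apply Finset.sum_eq_zero
    intro i hi
    rw [ha0 i (Finset.mem_range.1 hi), norm_zero, zero_mul]
  have hSev : ∀ᶠ v in 𝓝 v₀, ∑ i ∈ Finset.range k, ‖a i v‖ * R ^ i < ε * δ := by
    apply hS.tendsto.eventually_lt_const
    simp only [hS0]
    positivity
  obtain ⟨r₄, hr₄, hr₄'⟩ := Metric.eventually_nhds_iff_ball.1 hSev
  have hDR : ∀ v ∈ ball v₀ (min R r₄), v ∈ ball v₀ R ∧ v ∈ ball v₀ r₄ := fun v hv =>
    ⟨ball_subset_ball (min_le_left _ _) hv, ball_subset_ball (min_le_right _ _) hv⟩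
  have hshift : ∀ t ∈ ball t₀ R, t - t₀ ∈ ball (0 : ℂ) R := by
    intro t ht
    rw [mem_ball, dist_eq_norm] at ht
    rw [mem_ball, dist_eq_norm, sub_zero]
    exact ht
  have hshiftd : DifferentiableOn ℂ (fun p : V × ℂ => (p.1, p.2 - t₀))
      (ball v₀ (min R r₄) ×ˢ ball t₀ R) := by
    apply Differentiable.differentiableOn
    fun_prop
  have hmaps : MapsTo (fun p : V × ℂ => (p.1, p.2 - t₀)) (ball v₀ (min R r₄) ×ˢ ball t₀ R)
      (ball v₀ R₁ ×ˢ ball 0 R₁) := by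
    rintro ⟨v, t⟩ ⟨hv, ht⟩
    exact ⟨ball_subset_ball hRR₁ (hDR v hv).1, ball_subset_ball hRR₁ (hshift t ht)⟩
  have hgd : DifferentiableOn ℂ (fun p : V × ℂ => H (p.1, p.2 - t₀))
      (ball v₀ (min R r₄) ×ˢ ball t₀ R) := hH.comp hshiftd hmaps
  have hne : ∀ p ∈ ball v₀ (min R r₄) ×ˢ ball t₀ R, δ < ‖H (p.1, p.2 - t₀)‖ := by
    rintro ⟨v, t⟩ ⟨hv, ht⟩
    exact hlow v (hDR v hv).1 _ (hshift t ht)
  have hnum : DifferentiableOn ℂ (fun p : V × ℂ => ∑ i ∈ Finset.range k, a i p.1 * (p.2 - t₀) ^ i)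
      (ball v₀ (min R r₄) ×ˢ ball t₀ R) := by
    apply DifferentiableOn.fun_sum
    intro i _
    apply DifferentiableOn.mul
    · apply (ha i).comp differentiableOn_fst
      rintro ⟨v, t⟩ ⟨hv, ht⟩
      exact ball_subset_ball hRR₁ (hDR v hv).1
    · apply Differentiable.differentiableOn
      fun_prop
  refine ⟨ball v₀ (min R r₄), R, ε, δ, fun p => H (p.1, p.2 - t₀),
    fun p => (∑ i ∈ Finset.range k, a i p.1 * (p.2 - t₀) ^ i) / H (p.1, p.2 - t₀), isOpen_ball,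
    mem_ball_self (lt_min hR hr₄), hR, hδ, ?_, ?_, hgd, ?_, hεpos.le, ?_, ?_, ?_⟩
  · rintro ⟨v, t⟩ ⟨hv, ht⟩
    apply hW'
    apply ball_subset_ball hR₁r'
    exact hbox v t (ball_subset_ball hRR₁ (hDR v hv).1) (ball_subset_ball hRR₁ ht)
  · apply hfd.mono
    rintro ⟨v, t⟩ ⟨hv, ht⟩
    exact ⟨ball_subset_ball hRR₁ (hDR v hv).1, ball_subset_ball hRR₁ ht⟩
  · simp only [div_eq_mul_inv]
    apply hnum.mul
    apply hgd.inv
    intro p hp h0
    have h1 := hne p hp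
    rw [h0, norm_zero] at h1
    exact lt_asymm hδ h1
  · rw [hε, mul_assoc, ← mul_pow]
    have h1 : R / 2 * (2 / R) = 1 := by field_simp
    rw [h1, one_pow, mul_one]
  · rintro ⟨v, t⟩ ⟨hv, ht⟩
    have h1 : δ < ‖H (v, t - t₀)‖ := hne (v, t) ⟨hv, ht⟩
    have hHne : H (v, t - t₀) ≠ 0 := by
      intro h0
      rw [h0, norm_zero] at h1
      exact lt_asymm hδ h1
    have hts : ‖t - t₀‖ ≤ R := by
      have := hshift t ht
      rw [mem_ball, dist_eq_norm, sub_zero] at this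
      exact this.le
    refine ⟨h1.le, ?_, ?_⟩
    · simp only
      rw [norm_div, div_le_iff₀ (hδ.trans h1)]
      calc ‖∑ i ∈ Finset.range k, a i v * (t - t₀) ^ i‖
          ≤ ∑ i ∈ Finset.range k, ‖a i v‖ * R ^ i := by
            refine (norm_sum_le _ _).trans (Finset.sum_le_sum fun i _ => ?_)
            rw [norm_mul, norm_pow]
            exact mul_le_mul_of_nonneg_left (pow_le_pow_left₀ (norm_nonneg _) hts i)
              (norm_nonneg _)
        _ ≤ ε * δ := (hr₄' v (hDR v hv).2).le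
        _ ≤ ε * ‖H (v, t - t₀)‖ := mul_le_mul_of_nonneg_left h1.le hεpos.le
    · simp only
      have h2 := hsplit v (ball_subset_ball hRR₁ (hDR v hv).1) (t - t₀)
        (ball_subset_ball hRR₁ (hshift t ht))
      simp only [add_sub_cancel] at h2
      rw [h2]
      field_simp
      ring
  · intro t _
    simp only
    rw [Finset.sum_eq_zero, zero_div]
    intro i hi
    rw [ha0 i (Finset.mem_range.1 hi), zero_mul]

end Pool.Agent.DQ.W
end

section

/-! Campaign DQ, module W, file WWDiv: Weierstrass division on arbitrarily small product neighbourhoods. -/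

set_option autoImplicit false

open Metric Set Filter Topology

namespace Pool.Agent.DQ.W

variable {V : Type*} [NormedAddCommGroup V] [NormedSpace ℂ V]

/-- **Weierstrass division** by a general `f`, on arbitrarily small product neighbourhoods `D × ball t₀ R`: every bounded
holomorphic `F` on the product is `f * q + ∑_{i<k} r i v * (t - t₀) ^ i` there.

Proof. Take `normal_form`; by translation apply `div_small` to `c` and `F` (bounded by some `M ≥ 0`):
`F = ((t - t₀) ^ k + c) * q' + ∑ ..`; put `q := q' / g`. -/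
theorem weier_div {f : V × ℂ → ℂ} {v₀ : V} {t₀ : ℂ} {k : ℕ} (hf : HolAt f (v₀, t₀)) (hk : Reg k f v₀ t₀)
    {W : Set (V × ℂ)} (hW : W ∈ 𝓝 (v₀, t₀)) :
    ∃ (D : Set V) (R : ℝ), IsOpen D ∧ v₀ ∈ D ∧ 0 < R ∧ D ×ˢ ball t₀ R ⊆ W ∧
      ∀ (F : V × ℂ → ℂ) (M : ℝ), DifferentiableOn ℂ F (D ×ˢ ball t₀ R) → (∀ p ∈ D ×ˢ ball t₀ R, ‖F p‖ ≤ M) →
        ∃ (q : V × ℂ → ℂ) (r : ℕ → V → ℂ), DifferentiableOn ℂ q (D ×ˢ ball t₀ R) ∧
          (∀ i < k, DifferentiableOn ℂ (r i) D) ∧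
          ∀ p ∈ D ×ˢ ball t₀ R, F p = f p * q p + ∑ i ∈ Finset.range k, r i p.1 * (p.2 - t₀) ^ i := by
  obtain ⟨D, R, ε, δ, g, c, hD, hv₀, hR, hδ, hsub, -, hg, hc, hε0, hε, hall, -⟩ := normal_form hf hk hW
  refine ⟨D, R, hD, hv₀, hR, hsub, ?_⟩
  intro F M hF hFM
  have hmem : ∀ p ∈ D ×ˢ ball (0 : ℂ) R, ((p.1, t₀ + p.2) : V × ℂ) ∈ D ×ˢ ball t₀ R := by
    intro p hp
    refine ⟨hp.1, ?_⟩
    have := hp.2
    simpa using this
  have hline : DifferentiableOn ℂ (fun p : V × ℂ => ((p.1, t₀ + p.2) : V × ℂ)) (D ×ˢ ball 0 R) := by fun_prop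
  have hM : 0 ≤ M := (norm_nonneg _).trans (hFM (v₀, t₀) ⟨hv₀, mem_ball_self hR⟩)
  obtain ⟨q', r, hq', hr, hid, -, -⟩ := div_small hD hR k hM hε
    (c := fun p => c (p.1, t₀ + p.2)) (F := fun p => F (p.1, t₀ + p.2)) (hc.comp hline hmem)
    (fun v hv t ht => (hall _ (hmem (v, t) ⟨hv, ht⟩)).2.1) (hF.comp hline hmem)
    (fun v hv t ht => hFM _ (hmem (v, t) ⟨hv, ht⟩))
  have hmem' : ∀ p ∈ D ×ˢ ball t₀ R, ((p.1, p.2 - t₀) : V × ℂ) ∈ D ×ˢ ball (0 : ℂ) R := by
    intro p hp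
    refine ⟨hp.1, ?_⟩
    have := hp.2
    rw [mem_ball, dist_eq_norm] at this
    simpa using this
  have hline' : DifferentiableOn ℂ (fun p : V × ℂ => ((p.1, p.2 - t₀) : V × ℂ)) (D ×ˢ ball t₀ R) := by fun_prop
  have hg0 : ∀ p ∈ D ×ˢ ball t₀ R, g p ≠ 0 := by
    intro p hp h0
    have h4 := (hall p hp).1
    rw [h0, norm_zero] at h4
    exact absurd h4 (not_le.mpr hδ)
  refine ⟨fun p => q' (p.1, p.2 - t₀) * (g p)⁻¹, r, (hq'.comp hline' hmem').mul (hg.fun_inv hg0), hr, ?_⟩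
  intro p hp
  have h1 := hid p.1 hp.1 (p.2 - t₀) (hmem' p hp).2
  have h2 : (p.1, t₀ + (p.2 - t₀)) = p := by ext <;> simp
  simp only [h2] at h1
  rw [h1, (hall p hp).2.2]
  have := hg0 p hp
  field_simp

/-- **Germ form of the division.**

Proof. `F` is holomorphic and bounded on some neighbourhood `W` of `(v₀, t₀)` (continuity at the point); `weier_div`. -/
theorem weier_div_germ {f : V × ℂ → ℂ} {v₀ : V} {t₀ : ℂ} {k : ℕ} (hf : HolAt f (v₀, t₀)) (hk : Reg k f v₀ t₀)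
    {F : V × ℂ → ℂ} (hF : HolAt F (v₀, t₀)) :
    ∃ (q : V × ℂ → ℂ) (r : ℕ → V → ℂ), HolAt q (v₀, t₀) ∧ (∀ i < k, HolAt (r i) v₀) ∧
      ∀ᶠ p in 𝓝 (v₀, t₀), F p = f p * q p + ∑ i ∈ Finset.range k, r i p.1 * (p.2 - t₀) ^ i := by
  have h1 : ∀ᶠ p in 𝓝 (v₀, t₀), ‖F p‖ < ‖F (v₀, t₀)‖ + 1 :=
    hF.differentiableAt.continuousAt.norm.eventually_lt continuousAt_const (lt_add_one _)
  have hW : {p : V × ℂ | DifferentiableAt ℂ F p ∧ ‖F p‖ < ‖F (v₀, t₀)‖ + 1} ∈ 𝓝 (v₀, t₀) := hF.and h1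
  obtain ⟨D, R, hD, hv₀, hR, hsub, hdiv⟩ := weier_div hf hk hW
  obtain ⟨q, r, hq, hr, hid⟩ := hdiv F (‖F (v₀, t₀)‖ + 1)
    (fun p hp => (hsub hp).1.differentiableWithinAt) (fun p hp => (hsub hp).2.le)
  have ho : IsOpen (D ×ˢ ball t₀ R) := hD.prod isOpen_ball
  have hm : (v₀, t₀) ∈ D ×ˢ ball t₀ R := ⟨hv₀, mem_ball_self hR⟩
  refine ⟨q, r, holAt_of_isOpen ho hq hm, fun i hi => holAt_of_isOpen hD (hr i hi) hv₀, ?_⟩
  filter_upwards [ho.mem_nhds hm] with p hp
  exact hid p hp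

end Pool.Agent.DQ.W
end

section

/-! Campaign DQ, module W, file WPrep: Weierstrass preparation. -/

set_option autoImplicit false

open Metric Set Filter Topology

namespace Pool.Agent.DQ.W

variable {V : Type*} [NormedAddCommGroup V] [NormedSpace ℂ V]

private theorem WPrep_zero (k : ℕ) (b : ℕ → ℂ) (h : ℂ → ℂ) (hh : ContinuousAt h 0)
    (heq : ∀ᶠ s in 𝓝 (0 : ℂ), ∑ i ∈ Finset.range k, b i * s ^ i = s ^ k * h s) : ∀ i < k, b i = 0 := by
  by_contra hcon
  push Not at hcon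
  obtain ⟨i₀, hi₀, hb⟩ := hcon
  set P : Polynomial ℂ := ∑ i ∈ Finset.range k, Polynomial.C (b i) * Polynomial.X ^ i with hP
  have hcoef : P.coeff i₀ = b i₀ := by
    rw [hP, Polynomial.finsetSum_coeff]
    simp only [Polynomial.coeff_C_mul_X_pow]
    rw [Finset.sum_ite_eq]
    simp [hi₀]
  have hP0 : P ≠ 0 := by
    intro h0
    rw [h0, Polynomial.coeff_zero] at hcoef
    exact hb hcoef.symm
  have hdeg : P.natDegree < k := by
    refine (Polynomial.natDegree_lt_iff_degree_lt hP0).mpr ?_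
    rw [Polynomial.degree_lt_iff_coeff_zero]
    intro n hn
    rw [hP, Polynomial.finsetSum_coeff]
    refine Finset.sum_eq_zero fun i hi => ?_
    rw [Polynomial.coeff_C_mul_X_pow, if_neg]
    have := Finset.mem_range.mp hi
    omega
  have heval : ∀ s : ℂ, P.eval s = ∑ i ∈ Finset.range k, b i * s ^ i := by
    intro s
    rw [hP, Polynomial.eval_finsetSum]
    simp
  obtain ⟨Q, hQ, hQd⟩ := Polynomial.exists_eq_pow_rootMultiplicity_mul_and_not_dvd P hP0 0
  set m : ℕ := P.rootMultiplicity 0 with hm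
  have hmk : m < k := by
    refine lt_of_le_of_lt ?_ hdeg
    have h1 : ((Polynomial.X - Polynomial.C (0 : ℂ)) ^ m).natDegree ≤ P.natDegree :=
      Polynomial.natDegree_le_of_dvd ⟨Q, hQ⟩ hP0
    rwa [Polynomial.natDegree_pow, Polynomial.natDegree_X_sub_C, mul_one] at h1
  have hQ0 : Q.eval 0 ≠ 0 := by
    intro h0
    exact hQd (Polynomial.dvd_iff_isRoot.mpr h0)
  have h2 : ∀ᶠ s in 𝓝[≠] (0 : ℂ), Q.eval s = s ^ (k - m) * h s := by
    have h3 : ∀ᶠ s in 𝓝[≠] (0 : ℂ), ∑ i ∈ Finset.range k, b i * s ^ i = s ^ k * h s := heq.filter_mono nhdsWithin_le_nhds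
    filter_upwards [h3, self_mem_nhdsWithin] with s hs hs0
    have hs0' : s ≠ 0 := hs0
    rw [← heval s, hQ, Polynomial.eval_mul, Polynomial.eval_pow, Polynomial.eval_sub, Polynomial.eval_X, Polynomial.eval_C,
      sub_zero] at hs
    have h4 : s ^ k = s ^ m * s ^ (k - m) := by
      rw [← pow_add]; congr 1; omega
    rw [h4, mul_assoc] at hs
    exact mul_left_cancel₀ (pow_ne_zero m hs0') hs
  have h5 : Tendsto (fun s => Q.eval s) (𝓝[≠] (0 : ℂ)) (𝓝 (Q.eval 0)) :=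
    (Q.continuous.tendsto 0).mono_left nhdsWithin_le_nhds
  have h6 : Tendsto (fun s : ℂ => s ^ (k - m) * h s) (𝓝[≠] (0 : ℂ)) (𝓝 (0 ^ (k - m) * h 0)) :=
    (((continuous_pow (k - m)).tendsto 0).mul hh).mono_left nhdsWithin_le_nhds
  have h7 : Q.eval 0 = 0 ^ (k - m) * h 0 :=
    tendsto_nhds_unique (h5.congr' h2) h6
  rw [zero_pow (by omega), zero_mul] at h7
  exact hQ0 h7

/-- **Weierstrass preparation** on arbitrarily small product neighbourhoods: `f = u * P`, `u` without zeros, `P` the monic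
polynomial of degree `k` in `t - t₀` with holomorphic coefficients vanishing at `v₀`.

Proof. Apply `weier_div` (small `W`, bounded set) to `F := (t - t₀) ^ k`: `(t - t₀) ^ k = f * q + ∑_{i<k} r i v * (t - t₀) ^ i`.
At `v = v₀`, with `f (v₀, t) = (t - t₀) ^ k * u₀ t` near `t₀`: `∑_{i<k} r i v₀ * s ^ i = s ^ k * (1 - u₀ q)` forces
`r i v₀ = 0` for all `i < k` and then `u₀ t * q (v₀, t) = 1` near `t₀`, so `q (v₀, t₀) ≠ 0`. Shrink `D × ball t₀ R` to a
smaller product on which `q ≠ 0`; put `u := 1 / q`, `a i := - r i`. -/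
theorem weier_prep {f : V × ℂ → ℂ} {v₀ : V} {t₀ : ℂ} {k : ℕ} (hf : HolAt f (v₀, t₀)) (hk : Reg k f v₀ t₀)
    {W : Set (V × ℂ)} (hW : W ∈ 𝓝 (v₀, t₀)) :
    ∃ (D : Set V) (R : ℝ) (u : V × ℂ → ℂ) (a : ℕ → V → ℂ), IsOpen D ∧ v₀ ∈ D ∧ 0 < R ∧ D ×ˢ ball t₀ R ⊆ W ∧
      DifferentiableOn ℂ u (D ×ˢ ball t₀ R) ∧ (∀ i, DifferentiableOn ℂ (a i) D) ∧ (∀ i, a i v₀ = 0) ∧
      ∀ p ∈ D ×ˢ ball t₀ R, u p ≠ 0 ∧ f p = u p * PP k a p.1 (p.2 - t₀) := by
  obtain ⟨D, R, hDo, hvD, hR, hDW, hdiv⟩ := weier_div hf hk hW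
  have hopen : IsOpen (D ×ˢ ball t₀ R) := hDo.prod isOpen_ball
  have hmem0 : (v₀, t₀) ∈ D ×ˢ ball t₀ R := ⟨hvD, mem_ball_self hR⟩
  obtain ⟨q, r, hq, hr, heq⟩ := hdiv (fun p => (p.2 - t₀) ^ k) (R ^ k) (by fun_prop) (by
    rintro p ⟨-, hp⟩
    rw [norm_pow]
    rw [mem_ball_iff_norm] at hp
    gcongr)
  have hqc : ContinuousAt q (v₀, t₀) := (hq.differentiableAt (hopen.mem_nhds hmem0)).continuousAt
  obtain ⟨u₀, hu₀, hu₀0, hfu⟩ := hk
  have hct : Continuous (fun s : ℂ => ((v₀, t₀ + s) : V × ℂ)) := by fun_prop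
  have hq2 : ContinuousAt (fun s : ℂ => q (v₀, t₀ + s)) 0 := by
    have h1 : ContinuousAt q ((fun s : ℂ => ((v₀, t₀ + s) : V × ℂ)) 0) := by simpa using hqc
    exact ContinuousAt.comp (f := fun s : ℂ => ((v₀, t₀ + s) : V × ℂ)) h1 hct.continuousAt
  have hu2 : ContinuousAt (fun s : ℂ => u₀ (t₀ + s)) 0 := by
    have h1 : ContinuousAt u₀ ((fun s : ℂ => t₀ + s) 0) := by simpa using hu₀.differentiableAt.continuousAt
    exact ContinuousAt.comp (f := fun s : ℂ => t₀ + s) h1 (by fun_prop)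
  have hts : Tendsto (fun s : ℂ => t₀ + s) (𝓝 0) (𝓝 t₀) := by
    have := (continuous_const_add t₀).tendsto (0 : ℂ)
    simpa using this
  have hball : ∀ᶠ s in 𝓝 (0 : ℂ), t₀ + s ∈ ball t₀ R := hts.eventually (ball_mem_nhds t₀ hR)
  have hkey : ∀ᶠ s in 𝓝 (0 : ℂ), ∑ i ∈ Finset.range k, r i v₀ * s ^ i = s ^ k * (1 - u₀ (t₀ + s) * q (v₀, t₀ + s)) := by
    filter_upwards [hball, hts.eventually hfu] with s hs1 hs2
    have h1 := heq (v₀, t₀ + s) ⟨hvD, hs1⟩
    simp only [add_sub_cancel_left] at h1 hs2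
    rw [hs2] at h1
    linear_combination -h1
  have hr0 : ∀ i < k, r i v₀ = 0 := WPrep_zero k (fun i => r i v₀) (fun s => 1 - u₀ (t₀ + s) * q (v₀, t₀ + s))
    (continuousAt_const.sub (hu2.mul hq2)) hkey
  have hq0 : q (v₀, t₀) ≠ 0 := by
    have h1 : ∀ᶠ s in 𝓝[≠] (0 : ℂ), u₀ (t₀ + s) * q (v₀, t₀ + s) = 1 := by
      have h2 : ∀ᶠ s in 𝓝[≠] (0 : ℂ), ∑ i ∈ Finset.range k, r i v₀ * s ^ i = s ^ k * (1 - u₀ (t₀ + s) * q (v₀, t₀ + s)) :=
        hkey.filter_mono nhdsWithin_le_nhds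
      filter_upwards [h2, self_mem_nhdsWithin] with s hs hs0
      have hs0' : s ≠ 0 := hs0
      rw [Finset.sum_eq_zero (fun i hi => by rw [hr0 i (Finset.mem_range.mp hi), zero_mul])] at hs
      have h3 : 1 - u₀ (t₀ + s) * q (v₀, t₀ + s) = 0 :=
        (mul_eq_zero.mp hs.symm).resolve_left (pow_ne_zero k hs0')
      linear_combination -h3
    have h4 : Tendsto (fun s : ℂ => u₀ (t₀ + s) * q (v₀, t₀ + s)) (𝓝[≠] (0 : ℂ)) (𝓝 (u₀ (t₀ + 0) * q (v₀, t₀ + 0))) :=
      (hu2.mul hq2).mono_left nhdsWithin_le_nhds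
    have h5 : u₀ (t₀ + 0) * q (v₀, t₀ + 0) = 1 :=
      tendsto_nhds_unique h4 (tendsto_const_nhds.congr' (h1.mono fun s hs => hs.symm))
    intro h6
    rw [add_zero, h6, mul_zero] at h5
    exact zero_ne_one h5
  -- shrink
  have hne : ∀ᶠ p in 𝓝 (v₀, t₀), q p ≠ 0 := hqc.eventually_ne hq0
  have hne2 : {p : V × ℂ | q p ≠ 0} ∩ (D ×ˢ ball t₀ R) ∈ 𝓝 (v₀, t₀) := inter_mem hne (hopen.mem_nhds hmem0)
  rw [mem_nhds_prod_iff] at hne2
  obtain ⟨A, hA, Bs, hB, hAB⟩ := hne2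
  obtain ⟨R', hR', hRB⟩ := Metric.mem_nhds_iff.mp hB
  obtain ⟨D', hD'A, hD'o, hvD'⟩ := _root_.mem_nhds_iff.mp (inter_mem hA (hDo.mem_nhds hvD))
  have hsub : D' ×ˢ ball t₀ (min R R') ⊆ {p : V × ℂ | q p ≠ 0} ∩ (D ×ˢ ball t₀ R) := by
    rintro p ⟨hp1, hp2⟩
    exact hAB ⟨(hD'A hp1).1, hRB (ball_subset_ball (min_le_right _ _) hp2)⟩
  refine ⟨D', min R R', fun p => (q p)⁻¹, fun i v => if i < k then -r i v else 0, hD'o, hvD', lt_min hR hR',
    fun p hp => hDW (hsub hp).2, ?_, ?_, ?_, ?_⟩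
  · exact DifferentiableOn.inv (hq.mono fun p hp => (hsub hp).2) fun p hp => (hsub hp).1
  · intro i
    by_cases hi : i < k
    · simp only [hi, if_true]
      exact ((hr i hi).mono fun v hv => (hD'A hv).2).neg
    · simp only [hi, if_false]
      exact differentiableOn_const _
  · intro i
    by_cases hi : i < k
    · simp only [hi, if_true, hr0 i hi, neg_zero]
    · simp only [hi, if_false]
  · intro p hp
    have hp1 : q p ≠ 0 := (hsub hp).1
    refine ⟨inv_ne_zero hp1, ?_⟩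
    have h1 := heq p (hsub hp).2
    have h2 : PP k (fun i v => if i < k then -r i v else 0) p.1 (p.2 - t₀) = f p * q p := by
      unfold PP
      rw [h1]
      have h3 : ∑ i ∈ Finset.range k, (if i < k then -r i p.1 else 0) * (p.2 - t₀) ^ i =
          -∑ i ∈ Finset.range k, r i p.1 * (p.2 - t₀) ^ i := by
        rw [← Finset.sum_neg_distrib]
        refine Finset.sum_congr rfl fun i hi => ?_
        rw [if_pos (Finset.mem_range.mp hi)]
        ring
      rw [h3]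
      ring
    rw [h2]
    field_simp

end Pool.Agent.DQ.W
end

section

/-! Campaign DQ, module W, file WUniq: uniqueness of Weierstrass division. -/

set_option autoImplicit false

open Metric Set Filter Topology

namespace Pool.Agent.DQ.W

variable {V : Type*} [NormedAddCommGroup V] [NormedSpace ℂ V]

/-- **Uniqueness of the germ form.** If `f * q + ∑_{i<k} r i v * (t - t₀) ^ i = 0` near `(v₀, t₀)` then `q = 0` near
`(v₀, t₀)` and `r i = 0` near `v₀` for `i < k`.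

Proof. Choose a product `D × ball t₀ R` from `normal_form` inside the neighbourhood where everything is holomorphic and
the identity holds; for each `v ∈ D` apply `div_small_unique` (translated by `t₀`) to `c (v, ·)`, `g (v, ·) * q (v, ·)`,
`r i v`. -/
theorem weier_div_unique {f : V × ℂ → ℂ} {v₀ : V} {t₀ : ℂ} {k : ℕ} (hf : HolAt f (v₀, t₀)) (hk : Reg k f v₀ t₀)
    {q : V × ℂ → ℂ} {r : ℕ → V → ℂ} (hq : HolAt q (v₀, t₀))
    (h : ∀ᶠ p in 𝓝 (v₀, t₀), f p * q p + ∑ i ∈ Finset.range k, r i p.1 * (p.2 - t₀) ^ i = 0) :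
    (∀ᶠ p in 𝓝 (v₀, t₀), q p = 0) ∧ ∀ i < k, ∀ᶠ v in 𝓝 v₀, r i v = 0 := by
  have hW : {p : V × ℂ | DifferentiableAt ℂ q p ∧
      f p * q p + ∑ i ∈ Finset.range k, r i p.1 * (p.2 - t₀) ^ i = 0} ∈ 𝓝 (v₀, t₀) := hq.and h
  obtain ⟨D, R, ε, δ, g, c, hD, hv₀, hR, hδ, hsub, -, hg, hc, hε0, hε, hall, -⟩ := normal_form hf hk hW
  have key : ∀ v ∈ D, (∀ t ∈ ball (0 : ℂ) R, g (v, t₀ + t) * q (v, t₀ + t) = 0) ∧ ∀ i < k, r i v = 0 := by
    intro v hv
    have hmem : ∀ t ∈ ball (0 : ℂ) R, ((v, t₀ + t) : V × ℂ) ∈ D ×ˢ ball t₀ R := by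
      intro t ht
      refine ⟨hv, ?_⟩
      simpa using ht
    have hline : DifferentiableOn ℂ (fun t : ℂ => ((v, t₀ + t) : V × ℂ)) (ball 0 R) := by fun_prop
    refine div_small_unique (c := fun t => c (v, t₀ + t)) (q := fun t => g (v, t₀ + t) * q (v, t₀ + t))
      (r := fun i => r i v) hR k hε0 hε (hc.comp hline hmem) (fun t ht => (hall _ (hmem t ht)).2.1) ?_ ?_
    · refine (hg.comp hline hmem).mul ?_
      intro t ht
      have h1 := (hsub (hmem t ht)).1
      exact (h1.comp_differentiableWithinAt t (hline t ht))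
    · intro t ht
      have h1 := (hsub (hmem t ht)).2
      have h2 := (hall _ (hmem t ht)).2.2
      simp only [add_sub_cancel_left] at h1 h2
      rw [h2] at h1
      linear_combination h1
  constructor
  · have hN : D ×ˢ ball t₀ R ∈ 𝓝 (v₀, t₀) :=
      prod_mem_nhds (hD.mem_nhds hv₀) (ball_mem_nhds t₀ hR)
    filter_upwards [hN] with p hp
    have h1 := (key p.1 hp.1).1 (p.2 - t₀) (by
      have := hp.2
      rw [mem_ball, dist_eq_norm] at this
      simpa using this)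
    have h2 : (p.1, t₀ + (p.2 - t₀)) = p := by ext <;> simp
    rw [h2] at h1
    rcases mul_eq_zero.mp h1 with h3 | h3
    · have h4 := (hall p hp).1
      rw [h3, norm_zero] at h4
      exact absurd h4 (not_le.mpr hδ)
    · exact h3
  · intro i hi
    filter_upwards [hD.mem_nhds hv₀] with v hv
    exact (key v hv).2 i hi

end Pool.Agent.DQ.W
end

section

/-! Campaign DQ, module W, file WGDiv: Weierstrass division in the germ ring. -/

set_option autoImplicit false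

open Metric Set Filter Topology Polynomial

namespace Pool.Agent.DQ.W

variable {V : Type*} [NormedAddCommGroup V] [NormedSpace ℂ V]

private theorem WGDiv_hol {v₀ : V} (k : ℕ) {r : ℕ → V → ℂ} (hr : ∀ i, HolAt (r i) v₀) (t₀ : ℂ) :
    HolAt (fun p : V × ℂ => ∑ i ∈ Finset.range k, r i p.1 * (p.2 - t₀) ^ i) (v₀, t₀) :=
  HolAt.sum _ fun i _ => ((hr i).comp (f := Prod.fst) (x := (v₀, t₀)) (holAt_fst _)).mul
    (((holAt_snd _).sub (holAt_const t₀ _)).pow i)

/-- **Division.** Proof. Representatives `f` of `g` (from `RegG`) and `F` of `h`; `weier_div_germ`; replace `r i`, `i ≥ k`, by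
`0` and use `ev_shift`. -/
theorem div_germ {v₀ : V} {t₀ : ℂ} {k : ℕ} {g : OO ((v₀, t₀) : V × ℂ)} (hg : RegG k g) (h : OO ((v₀, t₀) : V × ℂ)) :
    ∃ (q : OO ((v₀, t₀) : V × ℂ)) (r : (OO v₀)[X]), r.degree < k ∧ h = q * g + ev v₀ t₀ r := by
  obtain ⟨f, hf, rfl, hk⟩ := hg
  obtain ⟨F, hF, rfl⟩ := exists_gm h
  obtain ⟨q, r, hq, hr, hev⟩ := weier_div_germ hf hk hF
  classical
  have hr' : ∀ i, HolAt (fun v => if i < k then r i v else 0) v₀ := by
    intro i
    by_cases hi : i < k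
    · simp only [hi, if_true]
      exact hr i hi
    · simp only [hi, if_false]
      exact holAt_const 0 v₀
  have hS := WGDiv_hol k hr' t₀
  refine ⟨gm q hq, ∑ i ∈ Finset.range k, C (gm _ (hr' i)) * (X - C (cst v₀ t₀)) ^ i,
    (ev_shift (t₀ := t₀) k hr' hS).2, ?_⟩
  rw [(ev_shift (t₀ := t₀) k hr' hS).1, gm_mul, gm_add, gm_eq]
  filter_upwards [hev] with p hp
  rw [hp, mul_comm (f p)]
  congr 1
  refine Finset.sum_congr rfl fun i hi => ?_
  rw [if_pos (Finset.mem_range.1 hi)]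

/-- **Uniqueness of division.** Proof. `exists_shift` for `r`, `ev_shift`, representatives, `weier_div_unique`; then all
coefficient germs `gm (r i)`, `i < k`, vanish (`gm_eq_zero`) so `r = 0`. -/
theorem div_germ_unique {v₀ : V} {t₀ : ℂ} {k : ℕ} {g : OO ((v₀, t₀) : V × ℂ)} (hg : RegG k g)
    {q : OO ((v₀, t₀) : V × ℂ)} {r : (OO v₀)[X]} (hr : r.degree < k) (h : q * g + ev v₀ t₀ r = 0) :
    q = 0 ∧ r = 0 := by
  obtain ⟨f, hf, rfl, hk⟩ := hg
  obtain ⟨Q, hQ, rfl⟩ := exists_gm q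
  obtain ⟨c, hc, rfl⟩ := exists_shift (t₀ := t₀) k r hr
  have hS := WGDiv_hol k hc t₀
  rw [(ev_shift (t₀ := t₀) k hc hS).1, gm_mul, gm_add, gm_eq_zero] at h
  have h1 := weier_div_unique hf hk hQ (r := c) (by
    filter_upwards [h] with p hp
    rw [mul_comm]
    exact hp)
  refine ⟨(gm_eq_zero hQ).2 h1.1, ?_⟩
  apply Finset.sum_eq_zero
  intro i hi
  rw [(gm_eq_zero (hc i)).2 (h1.2 i (Finset.mem_range.1 hi)), C_0, zero_mul]

/-- The germ of `(t - t₀) ^ k` is regular of order `k`.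

Proof. `Reg` with `u = 1`. -/
theorem regG_pow (v₀ : V) (t₀ : ℂ) (k : ℕ) : RegG k (ev v₀ t₀ ((X - C (cst v₀ t₀)) ^ k)) := by
  have h3 : iota v₀ t₀ (cst v₀ t₀) = gm (fun _ : V × ℂ => t₀) (holAt_const t₀ _) := rfl
  refine ⟨fun p => (p.2 - t₀) ^ k, ((holAt_snd _).sub (holAt_const t₀ _)).pow k, ?_, ?_⟩
  · rw [map_pow, map_sub, ev_C, ev_X, h3, gm_sub, gm_pow]
  · exact ⟨fun _ => 1, holAt_const 1 t₀, one_ne_zero, Eventually.of_forall fun t => by simp⟩

/-- `ev` is injective.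

Proof. `P` in the kernel, `k := P.natDegree + 1`: `0 * ev ((X - C t₀) ^ k) + ev P = 0` and `P.degree < k`; use
`regG_pow` and `div_germ_unique`. -/
theorem ev_injective (v₀ : V) (t₀ : ℂ) : Function.Injective (ev v₀ t₀) := by
  rw [injective_iff_map_eq_zero]
  intro P hP
  have hdeg : P.degree < ((P.natDegree + 1 : ℕ) : WithBot ℕ) :=
    degree_le_natDegree.trans_lt (WithBot.coe_lt_coe.2 (Nat.lt_succ_self _))
  exact (div_germ_unique (regG_pow v₀ t₀ (P.natDegree + 1)) (q := 0) hdeg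
    (by rw [hP, zero_mul, add_zero])).2

end Pool.Agent.DQ.W
end

section

/-! # DQ, module G, task GC1: the fibres of a compact analytic set over a hyperplane are finite -/

set_option autoImplicit false

open Set Filter Topology Module

universe u

namespace Pool.Agent.DQ

variable {E : Type u} [NormedAddCommGroup E] [NormedSpace ℂ E]

/-- Restriction to a line: `v ↦ f (t, v)` is analytic at `v₀`.

Proof. `HolAt f (t, v₀)` gives differentiability at all points of a neighbourhood of `(t, v₀)`; `v ↦ (t, v)` is differentiable and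
continuous, so `v ↦ f (t, v)` is differentiable at all `v` near `v₀`; `Complex.analyticAt_iff_eventually_differentiableAt`. -/
theorem hol_line {f : E × ℂ → ℂ} {t : E} {v₀ : ℂ} (hf : HolAt f (t, v₀)) :
    AnalyticAt ℂ (fun v => f (t, v)) v₀ := by
  rw [Complex.analyticAt_iff_eventually_differentiableAt]
  have h1 : Tendsto (fun v : ℂ => (t, v)) (𝓝 v₀) (𝓝 (t, v₀)) :=
    (by fun_prop : Continuous fun v : ℂ => (t, v)).tendsto v₀
  filter_upwards [h1.eventually hf] with v hv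
  exact hv.comp v ((differentiableAt_const t).prodMk differentiableAt_id)

/-- **A compact analytic subset of `E × ℂ` meets every line `{t} × ℂ` in a finite set.**

Proof. Let `Z = {v | (t, v) ∈ X}`. It is compact (`X` compact; `Z` is closed as preimage of a closed set under `v ↦ (t, v)`, and contained in the
compact image of `X` under the second projection). Let `A = interior Z`.
(1) `A` is closed. Let `v₀ ∈ closure A ⊆ Z` (`Z` closed). By `h` at `(t, v₀)` there are `f j`, holomorphic near `(t, v₀)`, with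
`x ∈ X ↔ ∀ j, f j x = 0` near `(t, v₀)`. Put `g j v = f j (t, v)`, analytic at `v₀` (`hol_line`). Since `v₀ ∈ closure A` and near `v₀` the points of `A ⊆ Z`
are zeros of `g j`, and `A` is open, there are points arbitrarily near to `v₀`, different from `v₀`, with `g j = 0` (if `v₀ ∈ A` take other
points of the open set `A`): `∃ᶠ v in 𝓝[≠] v₀, g j v = 0`. By `AnalyticAt.frequently_zero_iff_eventually_zero` `g j = 0` near `v₀`. So for all
`v` near `v₀`: `(t, v) ∈ X`, that is, a neighbourhood of `v₀` lies in `Z`, `v₀ ∈ A`.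
(2) `A` is open and closed in the connected space `ℂ`, so `A = ∅` or `A = univ` (`isClopen_iff`); `A = univ` is impossible since `Z` is compact
and `ℂ` is not (`noncompact_univ`). So `A = ∅`.
(3) Every `v₀ ∈ Z` is isolated in `Z`: take `f j`, `g j` as in (1). If all `g j` vanish near `v₀` then `v₀ ∈ interior Z`; contradiction. So some `g j` is
not eventually zero and `AnalyticAt.eventually_eq_zero_or_eventually_ne_zero` gives `∀ᶠ v in 𝓝[≠] v₀, g j v ≠ 0`, hence `v ∉ Z` for these.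
(4) A compact set all of whose points are isolated is finite: if `Z` were infinite it would have an accumulation point in `Z`
(`Set.Infinite.exists_accPt_of_subset_isCompact`), contradicting (3). -/
theorem fiber_finite (X : Set (E × ℂ)) (hX : IsCompact X) (h : AnalyticNear X univ) (t : E) :
    {v : ℂ | (t, v) ∈ X}.Finite := by
  obtain ⟨Z, hZ⟩ : ∃ Z : Set ℂ, Z = {v : ℂ | (t, v) ∈ X} := ⟨_, rfl⟩
  rw [← hZ]
  have hmem : ∀ v, v ∈ Z ↔ (t, v) ∈ X := fun v => by rw [hZ]; exact Iff.rfl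
  have hcont : Continuous fun v : ℂ => (t, v) := by fun_prop
  have hZc : IsClosed Z := by
    rw [hZ]
    exact hX.isClosed.preimage hcont
  have hZk : IsCompact Z := by
    refine (hX.image continuous_snd).of_isClosed_subset hZc ?_
    intro v hv
    exact ⟨(t, v), (hmem v).1 hv, rfl⟩
  -- near an accumulation point everything belongs to `Z`
  have hloc : ∀ v₀, AccPt v₀ (𝓟 Z) → Z ∈ 𝓝 v₀ := by
    intro v₀ hv₀
    have hv₀Z : v₀ ∈ Z := by
      have h1 := hv₀.clusterPt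
      exact hZc.closure_subset (mem_closure_iff_clusterPt.2 h1)
    obtain ⟨m, f, hf, hx⟩ := h (t, v₀) ⟨(hmem v₀).1 hv₀Z, mem_univ _⟩
    have h2 : ∀ᶠ v in 𝓝 v₀, ((t, v) ∈ X ↔ ∀ j, f j (t, v) = 0) :=
      (hcont.tendsto v₀).eventually hx
    have h3 : ∃ᶠ v in 𝓝[≠] v₀, v ∈ Z := accPt_iff_frequently_nhdsNE.1 hv₀
    have h4 : ∀ j, ∀ᶠ v in 𝓝 v₀, f j (t, v) = 0 := by
      intro j
      refine (hol_line (hf j)).frequently_zero_iff_eventually_zero.1 ?_
      refine (h3.and_eventually (h2.filter_mono nhdsWithin_le_nhds)).mono ?_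
      rintro v ⟨h5, h6⟩
      exact h6.1 ((hmem v).1 h5) j
    have h5 : ∀ᶠ v in 𝓝 v₀, ∀ j, f j (t, v) = 0 := eventually_all.2 h4
    filter_upwards [h2, h5] with v h6 h7
    exact (hmem v).2 (h6.2 h7)
  have hopen : IsOpen (derivedSet Z) := by
    rw [isOpen_iff_mem_nhds]
    intro v₀ hv₀
    have h1 := hloc v₀ hv₀
    filter_upwards [eventually_mem_nhds_iff.2 h1] with v hv
    have h2 : 𝓝[≠] v ≤ 𝓟 Z := nhdsWithin_le_nhds.trans (le_principal_iff.2 hv)
    show AccPt v (𝓟 Z)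
    unfold AccPt
    rw [inf_eq_left.2 h2]
    infer_instance
  have hclosed : IsClosed (derivedSet Z) := isClosed_derivedSet Z
  rcases isClopen_iff.1 ⟨hclosed, hopen⟩ with h1 | h1
  · by_contra hinf
    obtain ⟨x, -, hx⟩ := Set.Infinite.exists_accPt_of_subset_isCompact (K := Z) hinf hZk subset_rfl
    have h2 : x ∈ derivedSet Z := hx
    rw [h1] at h2
    exact h2
  · exfalso
    have h2 : Z = univ := by
      refine eq_univ_of_forall fun v => ?_
      have h3 : v ∈ derivedSet Z := by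
        rw [h1]
        exact mem_univ v
      exact mem_of_mem_nhds (hloc v h3)
    rw [h2] at hZk
    exact noncompact_univ ℂ hZk

end Pool.Agent.DQ
end
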