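import Pool.Agent.DQ.Mg_MP_4aa2a9_ag.G003
import Pool.Agent.Lib.MP_4aa2a9_ag.Mg.G001
import Pool.Agent.Lib.MP_4aa2a9_ag.Mg.G004
import Pool.Agent.Lib.MP_4aa2a9_ag.DQ.Alg

section

/-! The top of the tower. -/

set_option autoImplicit false

open Set Filter Topology

universe u v w

namespace Pool.Agent.DQ

variable {V : Type u} [NormedAddCommGroup V] [NormedSpace ℂ V]

namespace Defo

variable (𝓐 : Defo.{u, v} V)

theorem redv_mem_span {q : ℕ} {x : V} (hx : x ∈ 𝓐.A.dom) {ι : Type*} [Fintype ι]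
    {g : ι → Fin q → 𝓐.A.St x} {s : Fin q → 𝓐.A.St x}
    (hs : s ∈ Submodule.span (𝓐.A.St x) (Set.range g)) :
    𝓐.redv q x s ∈ Submodule.span ((O V).St x) (Set.range fun i => 𝓐.redv q x (g i)) := by
  obtain ⟨c, rfl⟩ := mem_span_fam.mp hs
  rw [𝓐.redv_comb hx]
  exact mem_span_fam.mpr ⟨_, rfl⟩

/-- division over `U` by generators of a saturated submodule of `A^q`, from the division by the
reductions -/
theorem div_free {U : Set V} (hU : IsOpen U) (hUd : U ⊆ 𝓐.A.dom) {q n : ℕ}
    (G : Fin n → (y : V) → Fin q → 𝓐.A.St y) (hG : ∀ i, (𝓐.A.free q).On (G i) U)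
    (hsat : ∀ y ∈ U, ∀ s : Fin q → 𝓐.A.St y,
      𝓐.hb y • s ∈ Submodule.span (𝓐.A.St y) (Set.range fun i => G i y) →
        s ∈ Submodule.span (𝓐.A.St y) (Set.range fun i => G i y))
    (hdiv : ∀ s : (y : V) → Fin q → (O V).St y, ((O V).free q).On s U →
      (∀ y ∈ U, s y ∈ Submodule.span ((O V).St y) (Set.range fun i => 𝓐.redv q y (G i y))) →
      ∃ c : Fin n → (y : V) → (O V).St y, (∀ i, ∀ y ∈ U, (O V).At (c i) y) ∧
        ∀ y ∈ U, s y = ∑ i, c i y • 𝓐.redv q y (G i y))
    (s : (y : V) → Fin q → 𝓐.A.St y) (hs : (𝓐.A.free q).On s U)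
    (hsG : ∀ y ∈ U, s y ∈ Submodule.span (𝓐.A.St y) (Set.range fun i => G i y)) :
    ∃ D : Fin n → (y : V) → 𝓐.A.St y, (∀ i, ∀ y ∈ U, 𝓐.A.At (D i) y) ∧
      ∀ y ∈ U, s y = ∑ i, D i y • G i y := by
  have step : ∀ s : (y : V) → Fin q → 𝓐.A.St y, (𝓐.A.free q).On s U →
      (∀ y ∈ U, s y ∈ Submodule.span (𝓐.A.St y) (Set.range fun i => G i y)) →
      ∃ (C : Fin n → (y : V) → 𝓐.A.St y) (t : (y : V) → Fin q → 𝓐.A.St y),
      (∀ i, ∀ y ∈ U, 𝓐.A.At (C i) y) ∧ (𝓐.A.free q).On t U ∧
      (∀ y ∈ U, t y ∈ Submodule.span (𝓐.A.St y) (Set.range fun i => G i y)) ∧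
      ∀ y ∈ U, s y = ∑ i, C i y • G i y + 𝓐.hb y • t y := by
    intro s hs hsG
    obtain ⟨c, hc, hcs⟩ := hdiv (fun y => 𝓐.redv q y (s y)) (fun y hy => 𝓐.redv_at (hs y hy))
      (fun y hy => 𝓐.redv_mem_span (hUd hy) (hsG y hy))
    obtain ⟨C, hC, hCc⟩ := 𝓐.lift_fam hU hUd hc
    have hcomb : (𝓐.A.free q).On (fun y => s y - ∑ i, C i y • G i y) U := fun y hy =>
      (𝓐.A.free q).sub' (hs y hy) ((𝓐.A.free q).comb (hUd hy) (fun i => hC i y hy)
        fun i => hG i y hy)
    obtain ⟨t, ht, hts'⟩ := 𝓐.divv hU hUd hcomb (fun y hy => by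
        rw [𝓐.redv_sub (hUd hy), 𝓐.redv_comb (hUd hy), hcs y hy, sub_eq_zero]
        exact Finset.sum_congr rfl fun i _ => by rw [hCc i y hy])
    refine ⟨C, t, hC, ht, ?_, ?_⟩
    · intro y hy
      apply hsat y hy
      rw [← hts' y hy]
      exact Submodule.sub_mem _ (hsG y hy) (mem_span_fam.mpr ⟨_, rfl⟩)
    · intro y hy
      rw [← hts' y hy]
      abel
  exact 𝓐.iterate (M := 𝓐.A.free q) hU hUd (fun y hy => 𝓐.sepAt_free q (hUd hy)) G
    (fun s => ∀ y ∈ U, s y ∈ Submodule.span (𝓐.A.St y) (Set.range fun i => G i y)) step s hs hsG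

/-- the top of the tower -/
theorem exists_top {x : V} {K : Set V} (hxK : K ∈ 𝓝 x) (hKd : K ⊆ 𝓐.A.dom)
    (hdiv : DivNear V x) (hnoe : ∀ y ∈ K, IsNoetherianRing (𝓐.A.St y))
    (hnoeO : IsNoetherianRing ((O V).St x)) {q : ℕ}
    (N : ℕ → ℕ) (G : ∀ m, Fin (N m) → (y : V) → Fin q → 𝓐.A.St y)
    (hG : ∀ m i, (𝓐.A.free q).On (G m i) K)
    (hstep : ∀ m, ∀ y ∈ K, ∀ s : Fin q → 𝓐.A.St y,
        s ∈ Submodule.span (𝓐.A.St y) (Set.range fun i => G (m + 1) i y) ↔
          𝓐.hb y • s ∈ Submodule.span (𝓐.A.St y) (Set.range fun i => G m i y)) :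
    ∃ (m : ℕ) (U : Set V), IsOpen U ∧ x ∈ U ∧ U ⊆ K ∧
      (∀ y ∈ U, ∀ s : Fin q → 𝓐.A.St y,
        𝓐.hb y • s ∈ Submodule.span (𝓐.A.St y) (Set.range fun i => G m i y) →
          s ∈ Submodule.span (𝓐.A.St y) (Set.range fun i => G m i y)) ∧
      ∀ s : (y : V) → Fin q → 𝓐.A.St y, (𝓐.A.free q).On s U →
        (∀ y ∈ U, s y ∈ Submodule.span (𝓐.A.St y) (Set.range fun i => G m i y)) →
        ∃ D : Fin (N m) → (y : V) → 𝓐.A.St y, (∀ i, ∀ y ∈ U, 𝓐.A.At (D i) y) ∧
          ∀ y ∈ U, s y = ∑ i, D i y • G m i y := by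
  have hxK' : x ∈ K := mem_of_mem_nhds hxK
  have hmono : ∀ m, ∀ y ∈ K, Submodule.span (𝓐.A.St y) (Set.range fun i => G m i y) ≤
      Submodule.span (𝓐.A.St y) (Set.range fun i => G (m + 1) i y) := by
    intro m y hy s hs
    rw [hstep m y hy]
    exact Submodule.smul_mem _ _ hs
  have hspanred : ∀ m m', ∀ y ∈ K, Submodule.span (𝓐.A.St y) (Set.range fun i => G m i y) ≤
      Submodule.span (𝓐.A.St y) (Set.range fun i => G m' i y) →
      Submodule.span ((O V).St y) (Set.range fun i => 𝓐.redv q y (G m i y)) ≤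
        Submodule.span ((O V).St y) (Set.range fun i => 𝓐.redv q y (G m' i y)) := by
    intro m m' y hy h
    rw [Submodule.span_le]
    rintro _ ⟨i, rfl⟩
    exact 𝓐.redv_mem_span (hKd hy) (h (Submodule.subset_span ⟨i, rfl⟩))
  let J : ℕ →o Submodule ((O V).St x) (Fin q → (O V).St x) :=
    { toFun := fun m => Submodule.span ((O V).St x) (Set.range fun i => 𝓐.redv q x (G m i x))
      monotone' := monotone_nat_of_le_succ fun m => hspanred m (m + 1) x hxK' (hmono m x hxK') }
  obtain ⟨m0, hm0⟩ := monotone_stabilizes_iff_noetherian.mpr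
    (inferInstance : IsNoetherian ((O V).St x) (Fin q → (O V).St x)) J
  obtain ⟨U, hUK, hU, hxU, -, hdivU⟩ := hdiv q (N m0) (fun i y => 𝓐.redv q y (G m0 i y))
    (fun i => 𝓐.redv_at (hG m0 i x hxK')) K hxK
  have hUd : U ⊆ 𝓐.A.dom := hUK.trans hKd
  -- the reductions are stationary over `U`
  have hredU : ∀ m, m0 ≤ m → ∀ y ∈ U, ∀ i, 𝓐.redv q y (G m i y) ∈
      Submodule.span ((O V).St y) (Set.range fun i => 𝓐.redv q y (G m0 i y)) := by
    intro m hm y hy i
    obtain ⟨c, -, hc⟩ := hdivU (fun y => 𝓐.redv q y (G m i y))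
      (fun z hz => 𝓐.redv_at (hG m i z (hUK hz))) (by
        have h1 : 𝓐.redv q x (G m i x) ∈ J m := Submodule.subset_span ⟨i, rfl⟩
        rw [← hm0 m hm] at h1
        exact h1)
    exact mem_span_fam.mpr ⟨_, hc y hy⟩
  -- the module is saturated over `U`
  have hsat' : ∀ y (hy : y ∈ U),
      (𝓐.stalk (hUd hy)).sat (Submodule.span (𝓐.A.St y) (Set.range fun i => G m0 i y)) ≤
        Submodule.span (𝓐.A.St y) (Set.range fun i => G m0 i y) := by
    intro y hy
    have hyK := hUK hy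
    have := hnoe y hyK
    refine (𝓐.stalk (hUd hy)).nakayama (IsNoetherian.noetherian _) ?_
    intro s hs
    obtain ⟨k, hk⟩ := hs
    have hk' : ∀ k m (s : Fin q → 𝓐.A.St y),
        𝓐.hb y ^ k • s ∈ Submodule.span (𝓐.A.St y) (Set.range fun i => G m i y) →
        s ∈ Submodule.span (𝓐.A.St y) (Set.range fun i => G (m + k) i y) := by
      intro k
      induction k with
      | zero =>
        intro m s h
        simpa using h
      | succ k ih =>
        intro m s h
        rw [← add_assoc, hstep (m + k) y hyK]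
        apply ih
        rwa [smul_smul, ← pow_succ]
    have h1 := hk' k m0 s hk
    have h2 : 𝓐.redv q y s ∈
        Submodule.span ((O V).St y) (Set.range fun i => 𝓐.redv q y (G m0 i y)) := by
      have h3 := 𝓐.redv_mem_span (hUd hy) h1
      refine (Submodule.span_le.mpr ?_) h3
      rintro _ ⟨i, rfl⟩
      exact hredU (m0 + k) (Nat.le_add_right _ _) y hy i
    obtain ⟨E, c', e⟩ := 𝓐.comb_of_red (hUd hy) (fun i => G m0 i y) s h2
    refine ⟨∑ i, E i • G m0 i y, mem_span_fam.mpr ⟨E, rfl⟩, c', ?_, e⟩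
    apply (𝓐.stalk (hUd hy)).sat_sat
    have h4 : (𝓐.stalk (hUd hy)).h • c' = s - ∑ i, E i • G m0 i y := by
      rw [𝓐.stalk_h, e]
      abel
    rw [h4]
    exact Submodule.sub_mem _ ⟨k, hk⟩ ((𝓐.stalk (hUd hy)).le_sat _ (mem_span_fam.mpr ⟨E, rfl⟩))
  have hsat : ∀ y ∈ U, ∀ s : Fin q → 𝓐.A.St y,
        𝓐.hb y • s ∈ Submodule.span (𝓐.A.St y) (Set.range fun i => G m0 i y) →
          s ∈ Submodule.span (𝓐.A.St y) (Set.range fun i => G m0 i y) := by
    intro y hy s hs
    exact hsat' y hy ⟨1, by rw [pow_one]; exact hs⟩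
  refine ⟨m0, U, hU, hxU, hUK, hsat, ?_⟩
  intro s hs hsG
  refine 𝓐.div_free hU hUd (G m0) (fun i y hy => hG m0 i y (hUK hy)) hsat ?_ s hs hsG
  intro s' hs' hsG'
  exact hdivU s' hs' (hsG' x hxU)

/-- the relations between generators of a saturated module -/
theorem relFG_top {x : V} {K : Set V} (hKd : K ⊆ 𝓐.A.dom) (hRel : RelGen K)
    (hnoe : ∀ y ∈ K, IsNoetherianRing (𝓐.A.St y)) {q n : ℕ}
    (G : Fin n → (y : V) → Fin q → 𝓐.A.St y) (hG : ∀ i, (𝓐.A.free q).On (G i) K)
    {U : Set V} (hU : IsOpen U) (hxU : x ∈ U) (hUK : U ⊆ K)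
    (hsat : ∀ y ∈ U, ∀ s : Fin q → 𝓐.A.St y,
      𝓐.hb y • s ∈ Submodule.span (𝓐.A.St y) (Set.range fun i => G i y) →
        s ∈ Submodule.span (𝓐.A.St y) (Set.range fun i => G i y))
    (hdiv : ∀ s : (y : V) → Fin q → 𝓐.A.St y, (𝓐.A.free q).On s U →
      (∀ y ∈ U, s y ∈ Submodule.span (𝓐.A.St y) (Set.range fun i => G i y)) →
      ∃ D : Fin n → (y : V) → 𝓐.A.St y, (∀ i, ∀ y ∈ U, 𝓐.A.At (D i) y) ∧
        ∀ y ∈ U, s y = ∑ i, D i y • G i y) :
    (𝓐.A.free q).RelFG G x := by
  obtain ⟨m, R, t, hR, ht, hRt, hgen⟩ := 𝓐.exists_lift_rel hKd hRel G hG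
  have ht' : ∀ k, ∀ y ∈ U, t k y ∈ Submodule.span (𝓐.A.St y) (Set.range fun i => G i y) := by
    intro k y hy
    apply hsat y hy
    rw [← hRt k y (hUK hy)]
    exact mem_span_fam.mpr ⟨fun i => R k y i, rfl⟩
  choose D hD hDt using fun k => hdiv (t k) (fun y hy => ht k y (hUK hy)) (ht' k)
  refine ⟨m, fun k i y => R k y i - 𝓐.hb y * D k i y, ?_, ?_⟩
  · intro k i
    exact 𝓐.A.sub ((hR k x (hUK hxU)).2 i) (𝓐.A.mul (𝓐.hb_at x (hKd (hUK hxU))) (hD k i x hxU))
  · filter_upwards [hU.mem_nhds hxU] with y hy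
    have hyK := hUK hy
    have := hnoe y hyK
    refine (𝓐.stalk (hKd hyK)).rel_of_mod (M := Fin q → 𝓐.A.St y)
      (fun m hm => 𝓐.tf_free (hKd hyK) m hm) (fun i => G i y) _ ?_ ?_
    · intro k
      change ∑ i, (R k y i - 𝓐.hb y * D k i y) • G i y = 0
      simp only [sub_smul, Finset.sum_sub_distrib, mul_smul]
      rw [hRt k y hyK, ← Finset.smul_sum, ← hDt k y hy, sub_self]
    · intro c hc
      obtain ⟨E, c', e⟩ := hgen y hyK c ⟨0, by rw [smul_zero]; exact hc⟩
      refine ⟨E, fun i => c' i + ∑ k, E k * D k i y, fun i => ?_⟩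
      have h1 : c i = ∑ k, E k * R k y i + 𝓐.hb y * c' i := by
        rw [e, Pi.add_apply, Finset.sum_apply]
        rfl
      rw [h1, 𝓐.stalk_h, mul_add, Finset.mul_sum]
      have h2 : ∑ k, E k * (R k y i - 𝓐.hb y * D k i y) =
          ∑ k, E k * R k y i - ∑ k, 𝓐.hb y * (E k * D k i y) := by
        rw [← Finset.sum_sub_distrib]
        refine Finset.sum_congr rfl fun k _ => ?_
        rw [mul_sub, ← mul_assoc (E k) (𝓐.hb y), ← 𝓐.hb_comm y (hKd hyK), mul_assoc]
      rw [h2]
      abel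

end Defo

end Pool.Agent.DQ
end

section

/-! Oka's theorem for a deformation, from the properties of the structure sheaf. -/

set_option autoImplicit false

open Set Filter Topology

universe u v w

namespace Pool.Agent.DQ

theorem mem_span_single {A : Type v} [Ring A] {n : ℕ} (c : Fin n → A) :
    c ∈ Submodule.span A (Set.range fun i : Fin n => (Pi.single i 1 : Fin n → A)) := by
  refine mem_span_fam.mpr ⟨c, ?_⟩
  funext j
  rw [Finset.sum_apply]
  simp [Pi.single_apply]

variable {V : Type u} [NormedAddCommGroup V] [NormedSpace ℂ V]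

/-- what is used about the sheaf of holomorphic functions -/
structure OBase (V : Type u) [NormedAddCommGroup V] [NormedSpace ℂ V] : Prop where
  noeth : ∀ x : V, IsNoetherianRing ((O V).St x)
  div : ∀ x : V, DivNear V x
  rel : ∀ x : V, ∀ W ∈ 𝓝 x, ∃ K ∈ 𝓝 x, K ⊆ W ∧ RelGen K

theorem OBase.oka (h : OBase V) (x : V) (q n : ℕ) (f : Fin n → (y : V) → Fin q → (O V).St y)
    (hf : ∀ i, ((O V).free q).At (f i) x) : ((O V).free q).RelFG f x := by
  have hW : {y | ∀ i, ((O V).free q).At (f i) y} ∈ 𝓝 x :=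
    eventually_all.mpr fun i => ((O V).free q).ev (hf i)
  obtain ⟨K, hK, hKW, hR⟩ := h.rel x _ hW
  obtain ⟨m, ρ, hρ, hgen⟩ := hR q n f fun i y hy => hKW hy i
  refine ⟨m, fun k i y => ρ k y i, fun k i => (hρ k x (mem_of_mem_nhds hK)).2 i, ?_⟩
  filter_upwards [hK] with y hy
  exact hgen y hy

namespace Defo

variable (𝓐 : Defo.{u, v} V)

/-- The relations between sections of `A^q` are finitely generated. -/
theorem relFG_free (h : OBase V) {x : V} {q n : ℕ}
    (g : Fin n → (y : V) → Fin q → 𝓐.A.St y) (hx : x ∈ 𝓐.A.dom)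
    (hg : ∀ i, (𝓐.A.free q).At (g i) x) : (𝓐.A.free q).RelFG g x := by
  have hW : {y | y ∈ 𝓐.A.dom ∧ ∀ i, (𝓐.A.free q).At (g i) y} ∈ 𝓝 x := by
    filter_upwards [𝓐.A.isOpen_dom.mem_nhds hx,
      eventually_all.mpr fun i => (𝓐.A.free q).ev (hg i)] with y h1 h2
    exact ⟨h1, h2⟩
  obtain ⟨K, hK, hKW, hR⟩ := h.rel x _ hW
  have hKd : K ⊆ 𝓐.A.dom := fun y hy => (hKW hy).1
  have hxK : x ∈ K := mem_of_mem_nhds hK
  have hnoe : ∀ y ∈ K, IsNoetherianRing (𝓐.A.St y) := fun y hy =>
    𝓐.noetherian (hKd hy) (h.div y) (h.noeth y)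
  obtain ⟨N, G, hG, hG0, hstep⟩ := 𝓐.tower hKd hR g fun i y hy => (hKW hy).2 i
  obtain ⟨m, U, hU, hxU, hUK, hsat, hdiv⟩ := 𝓐.exists_top hK hKd (h.div x) hnoe (h.noeth x)
    N G hG hstep
  have htop := 𝓐.relFG_top hKd hR hnoe (G m) (hG m) hU hxU hUK hsat hdiv
  -- descend
  have hdown : ∀ k, k ≤ m → (𝓐.A.free q).RelFG (G (m - k)) x := by
    intro k
    induction k with
    | zero => intro _; exact htop
    | succ k ih =>
      intro hk
      have h1 := ih (by omega)
      have e : m - k = m - (k + 1) + 1 := by omega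
      rw [e] at h1
      refine 𝓐.relFG_down (fun q n f hf => h.oka x q n f hf) (𝓐.A.free q) hx
        (G (m - (k + 1) + 1)) (fun i => hG _ i x hxK) h1 (G (m - (k + 1)))
        (fun i => hG _ i x hxK) (fun j => ?_) (fun i => ?_)
      · apply (hstep (m - (k + 1)) x hxK _).2
        exact Submodule.smul_mem _ _ (Submodule.subset_span ⟨j, rfl⟩)
      · exact (hstep (m - (k + 1)) x hxK _).1 (Submodule.subset_span ⟨i, rfl⟩)
  have h0 := hdown m le_rfl
  rw [Nat.sub_self] at h0
  refine 𝓐.relFG_down (fun q n f hf => h.oka x q n f hf) (𝓐.A.free q) hx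
        (G 0) (fun i => hG _ i x hxK) h0 g hg (fun j => ?_) (fun i => ?_)
  · exact (hG0 x hxK).ge (Submodule.subset_span ⟨j, rfl⟩)
  · exact Submodule.smul_mem _ _ ((hG0 x hxK).le (Submodule.subset_span ⟨i, rfl⟩))

/-- Oka's theorem for a deformation -/
theorem oka_of_base (h : OBase V) (n : ℕ) : (𝓐.A.free n).Coh 𝓐.A.dom := by
  intro x hx
  filter_upwards [𝓐.A.isOpen_dom.mem_nhds hx] with y hy
  refine ⟨hy, ⟨n, fun i _ => Pi.single i 1, fun i => ⟨hy, fun j => ?_⟩, ?_⟩, ?_⟩
  · by_cases hij : j = i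
    · subst hij
      refine 𝓐.A.congr (𝓐.A.one y hy) (Eventually.of_forall fun z => ?_)
      simp
    · refine 𝓐.A.congr (𝓐.A.zero y hy) (Eventually.of_forall fun z => ?_)
      simp [hij]
  · refine Eventually.of_forall fun z => ?_
    rw [eq_top_iff]
    intro c _
    exact mem_span_single c
  · intro m g hg
    exact 𝓐.relFG_free h g hy hg

end Defo

end Pool.Agent.DQ
end

section

/-! Campaign DQ, module S, file SKillC: an annulus without zeros (one complex variable). -/

set_option autoImplicit false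

open Set Filter Topology

universe u v w

namespace Pool.Agent.DQ

/-- **Annuli without zeros.**

Proof. The set of zeros of `g` in the closed disc is finite: otherwise it has an accumulation point in the compact disc, and `g` is
analytic near the closed disc, which is convex, so preconnected; the identity theorem
(`AnalyticOnNhd.eqOn_zero_of_preconnected_of_frequently_eq_zero`) gives `g = 0` on it, contradicting `g vb ≠ 0`. (Look at
`zeros_finite` in WXPrep.lean.) So only finitely many radii `‖v - c‖` occur; choose `r ∈ (r0, R)` different from all of them and then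
`r0 < r1 < r2 < R` around `r` with no occurring radius in `[r1, r2]`. -/
theorem exists_annulus {c : ℂ} {r0 R : ℝ} (h0 : r0 < R) {g : ℂ → ℂ} (hg : HolNear g (Metric.closedBall c R)) {vb : ℂ}
    (hvb : vb ∈ Metric.closedBall c R) (hne : g vb ≠ 0) :
    ∃ r1 r2, r0 < r1 ∧ r1 < r2 ∧ r2 < R ∧ ∀ v, r1 ≤ ‖v - c‖ → ‖v - c‖ ≤ r2 → g v ≠ 0 := by
  have han : AnalyticOnNhd ℂ g (Metric.closedBall c R) := fun x hx =>
    Complex.analyticAt_iff_eventually_differentiableAt.mpr (hg x hx)
  have hpc : IsPreconnected (Metric.closedBall c R) := (convex_closedBall c R).isPreconnected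
  have hkey : ∀ v ∈ Metric.closedBall c R, ∀ᶠ w in 𝓝[≠] v, g w ≠ 0 := by
    intro v hv
    by_contra hcon
    have hfr : ∃ᶠ w in 𝓝[≠] v, g w = 0 := by
      intro h
      exact hcon (h.mono fun w hw => hw)
    exact hne (han.eqOn_zero_of_preconnected_of_frequently_eq_zero hpc hv hfr hvb)
  have hfin : {v ∈ Metric.closedBall c R | g v = 0}.Finite := by
    by_contra hinf
    obtain ⟨x, hx, hacc⟩ := Set.Infinite.exists_accPt_of_subset_isCompact hinf (isCompact_closedBall c R)
      (fun v hv => hv.1)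
    rw [accPt_iff_frequently] at hacc
    have h1 := hkey x hx
    rw [eventually_nhdsWithin_iff] at h1
    refine hacc (h1.mono fun y hy hy2 => ?_)
    exact hy hy2.1 hy2.2.2
  have hS : ((fun v => ‖v - c‖) '' {v ∈ Metric.closedBall c R | g v = 0}).Finite := hfin.image _
  have hinf : (Ioo r0 R \ ((fun v => ‖v - c‖) '' {v ∈ Metric.closedBall c R | g v = 0})).Nonempty :=
    ((Ioo_infinite h0).sdiff hS).nonempty
  obtain ⟨r, hr1, hr2⟩ := hinf
  have hopen : Ioo r0 R ∩ ((fun v => ‖v - c‖) '' {v ∈ Metric.closedBall c R | g v = 0})ᶜ ∈ 𝓝 r :=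
    inter_mem (isOpen_Ioo.mem_nhds hr1) (hS.isClosed.isOpen_compl.mem_nhds hr2)
  obtain ⟨η, hη, hball⟩ := Metric.mem_nhds_iff.mp hopen
  have hmem : ∀ s : ℝ, r - η / 2 ≤ s → s ≤ r + η / 2 →
      s ∈ Ioo r0 R ∩ ((fun v => ‖v - c‖) '' {v ∈ Metric.closedBall c R | g v = 0})ᶜ := by
    intro s h1 h2
    apply hball
    rw [Metric.mem_ball, Real.dist_eq, abs_lt]
    constructor <;> linarith
  refine ⟨r - η / 2, r + η / 2, (hmem _ le_rfl (by linarith)).1.1, by linarith,
    (hmem _ (by linarith) le_rfl).1.2, ?_⟩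
  intro v h1 h2 h3
  have h4 := hmem _ h1 h2
  apply h4.2
  refine ⟨v, ⟨?_, h3⟩, rfl⟩
  rw [mem_closedBall_iff_norm]
  exact h4.1.2.le

end Pool.Agent.DQ
end

section

/-! M34, germ modules: the module of germs at a point `t` attached to a group of families with an
action of functions. -/

set_option autoImplicit false
set_option linter.unusedSectionVars false

open Set Filter Topology

universe u v w

namespace Pool.Agent.DQ

/-- data for a germ module at `t`: families `N` (defined near `t`), families `Z` which are zero near `t`,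
action of the functions holomorphic near `t` -/
structure GM {E : Type u} [NormedAddCommGroup E] [NormedSpace ℂ E] (t : E) (X : Type w)
    [AddCommGroup X] where
  N : AddSubgroup X
  Z : AddSubgroup X
  le : Z ≤ N
  act : (E → ℂ) → X → X
  act_N : ∀ {f : E → ℂ} {y : X}, HolAt f t → y ∈ N → act f y ∈ N
  act_Z : ∀ {f : E → ℂ} {y : X}, HolAt f t → y ∈ Z → act f y ∈ Z
  act_add : ∀ {f : E → ℂ} {y y' : X}, HolAt f t → y ∈ N → y' ∈ N →
    act f (y + y') - (act f y + act f y') ∈ Z
  add_act : ∀ {f g : E → ℂ} {y : X}, HolAt f t → HolAt g t → y ∈ N →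
    act (f + g) y - (act f y + act g y) ∈ Z
  mul_act : ∀ {f g : E → ℂ} {y : X}, HolAt f t → HolAt g t → y ∈ N →
    act (f * g) y - act f (act g y) ∈ Z
  one_act : ∀ {y : X}, y ∈ N → act 1 y - y ∈ Z
  congr : ∀ {f g : E → ℂ} {y : X}, HolAt f t → f =ᶠ[𝓝 t] g → y ∈ N → act f y - act g y ∈ Z

namespace GM

variable {E : Type u} [NormedAddCommGroup E] [NormedSpace ℂ E] {t : E} {X : Type w}
  [AddCommGroup X] (G : GM t X)

/-- the germ module -/
def Gm : Type w := G.N ⧸ G.Z.addSubgroupOf G.N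

noncomputable instance : AddCommGroup G.Gm := inferInstanceAs (AddCommGroup (_ ⧸ _))

open Classical in
/-- the class of a family (zero if it is not in `N`) -/
noncomputable def cl (y : X) : G.Gm :=
  if h : y ∈ G.N then (QuotientAddGroup.mk ⟨y, h⟩ : G.N ⧸ G.Z.addSubgroupOf G.N) else 0

variable {G} {y y' : X} {f g : E → ℂ}

theorem cl_mk (h : y ∈ G.N) :
    G.cl y = (QuotientAddGroup.mk ⟨y, h⟩ : G.N ⧸ G.Z.addSubgroupOf G.N) := dif_pos h

theorem cl_eq_zero (h : y ∈ G.N) : G.cl y = 0 ↔ y ∈ G.Z := by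
  rw [cl_mk h]
  change (QuotientAddGroup.mk ⟨y, h⟩ : G.N ⧸ G.Z.addSubgroupOf G.N) = 0 ↔ _
  rw [QuotientAddGroup.eq_zero_iff]
  exact Iff.rfl

theorem cl_add (h : y ∈ G.N) (h' : y' ∈ G.N) : G.cl (y + y') = G.cl y + G.cl y' := by
  rw [cl_mk h, cl_mk h', cl_mk (G.N.add_mem h h')]
  rfl

theorem cl_neg (h : y ∈ G.N) : G.cl (-y) = - G.cl y := by
  rw [cl_mk h, cl_mk (G.N.neg_mem h)]
  rfl

theorem cl_sub (h : y ∈ G.N) (h' : y' ∈ G.N) : G.cl (y - y') = G.cl y - G.cl y' := by
  rw [sub_eq_add_neg, cl_add h (G.N.neg_mem h'), cl_neg h', sub_eq_add_neg]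

theorem cl_zero : G.cl 0 = 0 := (cl_eq_zero G.N.zero_mem).2 G.Z.zero_mem

theorem cl_eq (h : y ∈ G.N) (h' : y' ∈ G.N) : G.cl y = G.cl y' ↔ y - y' ∈ G.Z := by
  rw [← sub_eq_zero, ← cl_sub h h', cl_eq_zero (G.N.sub_mem h h')]

theorem cl_surj (m : G.Gm) : ∃ y ∈ G.N, G.cl y = m := by
  obtain ⟨⟨y, hy⟩, rfl⟩ := QuotientAddGroup.mk_surjective (s := G.Z.addSubgroupOf G.N) m
  exact ⟨y, hy, cl_mk hy⟩

/-- action of a function on the germ module -/
noncomputable def actHom (hf : HolAt f t) : G.Gm →+ G.Gm :=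
  QuotientAddGroup.lift (G.Z.addSubgroupOf G.N)
    (AddMonoidHom.mk' (fun y : G.N => G.cl (G.act f y)) (by
      rintro ⟨y, hy⟩ ⟨y', hy'⟩
      rw [← cl_add (G.act_N hf hy) (G.act_N hf hy')]
      exact (cl_eq (G.act_N hf (G.N.add_mem hy hy'))
        (G.N.add_mem (G.act_N hf hy) (G.act_N hf hy'))).2 (G.act_add hf hy hy')))
    (by
      rintro ⟨y, hy⟩ h
      exact (cl_eq_zero (G.act_N hf hy)).2 (G.act_Z hf h))

theorem actHom_cl (hf : HolAt f t) (h : y ∈ G.N) :
    actHom (G := G) hf (G.cl y) = G.cl (G.act f y) := by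
  rw [cl_mk h]
  rfl

theorem actHom_congr (hf : HolAt f t) (hg : HolAt g t) (h : gm f t = gm g t) :
    actHom (G := G) hf = actHom hg := by
  ext m
  obtain ⟨y, hy, rfl⟩ := cl_surj m
  rw [actHom_cl hf hy, actHom_cl hg hy, cl_eq (G.act_N hf hy) (G.act_N hg hy)]
  exact G.congr hf ((gm_eq_iff hf hg).1 h) hy

/-- representative of a germ -/
noncomputable def rp (a : OGerm t) : E → ℂ := (exists_gm a).choose

theorem rp_hol (a : OGerm t) : HolAt (rp a) t := (exists_gm a).choose_spec.1
theorem rp_gm (a : OGerm t) : gm (rp a) t = a := (exists_gm a).choose_spec.2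

noncomputable instance : Module (OGerm t) G.Gm where
  smul a m := actHom (rp_hol a) m
  one_smul m := by
    obtain ⟨y, hy, rfl⟩ := cl_surj m
    change actHom (rp_hol (1 : OGerm t)) (G.cl y) = _
    have h1 : HolAt (1 : E → ℂ) t := HolAt.const 1 t
    rw [actHom_congr (rp_hol 1) h1 (by rw [rp_gm, gm_one]), actHom_cl h1 hy,
      cl_eq (G.act_N h1 hy) hy]
    exact G.one_act hy
  mul_smul a b m := by
    obtain ⟨y, hy, rfl⟩ := cl_surj m
    change actHom (rp_hol (a * b)) (G.cl y) = actHom (rp_hol a) (actHom (rp_hol b) (G.cl y))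
    have h1 : HolAt (rp a * rp b) t := by
      filter_upwards [rp_hol a, rp_hol b] with y h1 h2 using h1.mul h2
    rw [actHom_congr (rp_hol (a * b)) h1 (by
      rw [rp_gm, gm_mul (rp_hol a) (rp_hol b), rp_gm, rp_gm]), actHom_cl h1 hy,
      actHom_cl _ hy, actHom_cl _ (G.act_N (rp_hol b) hy),
      cl_eq (G.act_N h1 hy) (G.act_N (rp_hol a) (G.act_N (rp_hol b) hy))]
    exact G.mul_act (rp_hol a) (rp_hol b) hy
  smul_zero a := map_zero _
  smul_add a m m' := map_add _ m m'
  add_smul a b m := by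
    obtain ⟨y, hy, rfl⟩ := cl_surj m
    change actHom (rp_hol (a + b)) (G.cl y) =
      actHom (rp_hol a) (G.cl y) + actHom (rp_hol b) (G.cl y)
    have h1 : HolAt (rp a + rp b) t := by
      filter_upwards [rp_hol a, rp_hol b] with y h1 h2 using h1.add h2
    rw [actHom_congr (rp_hol (a + b)) h1 (by
      rw [rp_gm, gm_add (rp_hol a) (rp_hol b), rp_gm, rp_gm]), actHom_cl h1 hy,
      actHom_cl _ hy, actHom_cl _ hy, ← cl_add (G.act_N (rp_hol a) hy) (G.act_N (rp_hol b) hy),
      cl_eq (G.act_N h1 hy) (G.N.add_mem (G.act_N (rp_hol a) hy) (G.act_N (rp_hol b) hy))]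
    exact G.add_act (rp_hol a) (rp_hol b) hy
  zero_smul m := by
    obtain ⟨y, hy, rfl⟩ := cl_surj m
    change actHom (rp_hol (0 : OGerm t)) (G.cl y) = 0
    have h1 : HolAt (0 : E → ℂ) t := HolAt.const 0 t
    rw [actHom_congr (rp_hol 0) h1 (by rw [rp_gm, gm_zero]), actHom_cl h1 hy,
      cl_eq_zero (G.act_N h1 hy)]
    have h2 := G.add_act h1 h1 hy
    rw [add_zero] at h2
    have h3 := G.Z.neg_mem h2
    rwa [neg_sub, add_sub_cancel_right] at h3

noncomputable instance : Module ((O E).St t) G.Gm := inferInstanceAs (Module (OGerm t) G.Gm)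

theorem cl_act (hf : HolAt f t) (h : y ∈ G.N) : G.cl (G.act f y) = om f t • G.cl y := by
  change _ = actHom (rp_hol (gm f t)) (G.cl y)
  rw [actHom_congr (rp_hol (gm f t)) hf (rp_gm _), actHom_cl hf h]

/-- every germ of a function is given by a function -/
theorem exists_om (a : (O E).St t) : ∃ f : E → ℂ, HolAt f t ∧ om f t = a := exists_gm a

theorem cl_comb {n : ℕ} {f : Fin n → E → ℂ} {g : Fin n → X} (hf : ∀ i, HolAt (f i) t)
    (hg : ∀ i, g i ∈ G.N) :
    ∑ i, G.act (f i) (g i) ∈ G.N ∧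
      G.cl (∑ i, G.act (f i) (g i)) = ∑ i, om (f i) t • G.cl (g i) := by
  classical
  have h : ∀ I : Finset (Fin n), ∑ i ∈ I, G.act (f i) (g i) ∈ G.N ∧
      G.cl (∑ i ∈ I, G.act (f i) (g i)) = ∑ i ∈ I, om (f i) t • G.cl (g i) := by
    intro I
    induction I using Finset.induction_on with
    | empty => simp [cl_zero]
    | insert a I ha ih =>
      rw [Finset.sum_insert ha, Finset.sum_insert ha]
      refine ⟨G.N.add_mem (G.act_N (hf a) (hg a)) ih.1, ?_⟩
      rw [cl_add (G.act_N (hf a) (hg a)) ih.1, ih.2, cl_act (hf a) (hg a)]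
  exact h Finset.univ

section lift

variable {P : Type v} [AddCommGroup P] [Module ((O E).St t) P]

/-- linear maps on submodules of the germ module -/
noncomputable def liftSub (K : Submodule ((O E).St t) G.Gm) (φ : X → P)
    (hadd : ∀ y ∈ G.N, ∀ y' ∈ G.N, G.cl y ∈ K → G.cl y' ∈ K → φ (y + y') = φ y + φ y')
    (hsmul : ∀ y ∈ G.N, G.cl y ∈ K → ∀ f : E → ℂ, HolAt f t → φ (G.act f y) = om f t • φ y)
    (hzero : ∀ y ∈ G.Z, φ y = 0) : K →ₗ[(O E).St t] P := by
  have key : ∀ y ∈ G.N, ∀ y' ∈ G.N, G.cl y ∈ K → G.cl y = G.cl y' → φ y = φ y' := by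
    intro y hy y' hy' hK h
    have h1 := (cl_eq hy hy').1 h
    have h2 := hadd y' hy' (y - y') (G.N.sub_mem hy hy') (h ▸ hK) (by
      rw [(cl_eq_zero (G.le h1)).2 h1]
      exact K.zero_mem)
    rw [add_sub_cancel, hzero _ h1, add_zero] at h2
    exact h2
  refine
    { toFun := fun m => φ (cl_surj m.1).choose
      map_add' := ?_
      map_smul' := ?_ }
  · rintro ⟨m, hm⟩ ⟨m', hm'⟩
    obtain ⟨h1, h2⟩ := (cl_surj m).choose_spec
    obtain ⟨h1', h2'⟩ := (cl_surj m').choose_spec
    obtain ⟨h1'', h2''⟩ := (cl_surj (m + m')).choose_spec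
    change φ (cl_surj (m + m')).choose = φ (cl_surj m).choose + φ (cl_surj m').choose
    rw [← hadd _ h1 _ h1' (by rw [h2]; exact hm) (by rw [h2']; exact hm')]
    refine key _ h1'' _ (G.N.add_mem h1 h1') ?_ ?_
    · rw [h2'']
      exact K.add_mem hm hm'
    · rw [h2'', cl_add h1 h1', h2, h2']
  · rintro a ⟨m, hm⟩
    obtain ⟨f, hf, rfl⟩ := exists_om a
    obtain ⟨h1, h2⟩ := (cl_surj m).choose_spec
    obtain ⟨h1'', h2''⟩ := (cl_surj (om f t • m)).choose_spec
    change φ (cl_surj (om f t • m)).choose = om f t • φ (cl_surj m).choose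
    rw [← hsmul _ h1 (by rw [h2]; exact hm) f hf]
    refine key _ h1'' _ (G.act_N hf h1) ?_ ?_
    · rw [h2'']
      exact K.smul_mem _ hm
    · rw [h2'', cl_act hf h1, h2]

theorem liftSub_cl (K : Submodule ((O E).St t) G.Gm) (φ : X → P)
    (hadd : ∀ y ∈ G.N, ∀ y' ∈ G.N, G.cl y ∈ K → G.cl y' ∈ K → φ (y + y') = φ y + φ y')
    (hsmul : ∀ y ∈ G.N, G.cl y ∈ K → ∀ f : E → ℂ, HolAt f t → φ (G.act f y) = om f t • φ y)
    (hzero : ∀ y ∈ G.Z, φ y = 0) (hy : y ∈ G.N) (hK : G.cl y ∈ K) :
    liftSub K φ hadd hsmul hzero ⟨G.cl y, hK⟩ = φ y := by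
  obtain ⟨h1, h2⟩ := (cl_surj (G.cl y)).choose_spec
  change φ (cl_surj (G.cl y)).choose = φ y
  have h3 := (cl_eq h1 hy).1 h2
  have h4 := hadd y hy ((cl_surj (G.cl y)).choose - y) (G.N.sub_mem h1 hy) hK (by
    rw [(cl_eq_zero (G.le h3)).2 h3]
    exact K.zero_mem)
  rw [add_sub_cancel, hzero _ h3, add_zero] at h4
  exact h4

/-- linear maps on the germ module -/
noncomputable def lift (φ : X → P) (hadd : ∀ y ∈ G.N, ∀ y' ∈ G.N, φ (y + y') = φ y + φ y')
    (hsmul : ∀ y ∈ G.N, ∀ f : E → ℂ, HolAt f t → φ (G.act f y) = om f t • φ y)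
    (hzero : ∀ y ∈ G.Z, φ y = 0) : G.Gm →ₗ[(O E).St t] P :=
  (liftSub ⊤ φ (fun y hy y' hy' _ _ => hadd y hy y' hy') (fun y hy _ => hsmul y hy) hzero).comp
    (Submodule.topEquiv.symm : G.Gm ≃ₗ[(O E).St t] (⊤ : Submodule ((O E).St t) G.Gm)).toLinearMap

theorem lift_cl (φ : X → P) (hadd : ∀ y ∈ G.N, ∀ y' ∈ G.N, φ (y + y') = φ y + φ y')
    (hsmul : ∀ y ∈ G.N, ∀ f : E → ℂ, HolAt f t → φ (G.act f y) = om f t • φ y)
    (hzero : ∀ y ∈ G.Z, φ y = 0) (hy : y ∈ G.N) : lift φ hadd hsmul hzero (G.cl y) = φ y :=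
  liftSub_cl ⊤ φ (fun y hy y' hy' _ _ => hadd y hy y' hy') (fun y hy _ => hsmul y hy) hzero hy
    Submodule.mem_top

end lift

/-- submodules given by a property of families -/
noncomputable def subOf (P : X → Prop) (hN : ∀ y, P y → y ∈ G.N) (h0 : P 0)
    (hadd : ∀ y y', P y → P y' → P (y + y'))
    (hact : ∀ (f : E → ℂ) y, HolAt f t → P y → P (G.act f y)) :
    Submodule ((O E).St t) G.Gm where
  carrier := {m | ∃ y, P y ∧ G.cl y = m}
  add_mem' := by
    rintro _ _ ⟨y, hy, rfl⟩ ⟨y', hy', rfl⟩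
    exact ⟨y + y', hadd y y' hy hy', cl_add (hN y hy) (hN y' hy')⟩
  zero_mem' := ⟨0, h0, cl_zero⟩
  smul_mem' := by
    rintro a _ ⟨y, hy, rfl⟩
    obtain ⟨f, hf, rfl⟩ := exists_om a
    exact ⟨G.act f y, hact f y hf hy, cl_act hf (hN y hy)⟩

theorem mem_subOf {P : X → Prop} {hN : ∀ y, P y → y ∈ G.N} {h0 : P 0}
    {hadd : ∀ y y', P y → P y' → P (y + y')}
    {hact : ∀ (f : E → ℂ) y, HolAt f t → P y → P (G.act f y)} {m : G.Gm} :
    m ∈ subOf P hN h0 hadd hact ↔ ∃ y, P y ∧ G.cl y = m := Iff.rfl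

end GM

end Pool.Agent.DQ
end

section

/-! M34, sheaf tools 1: direct sums. -/

set_option autoImplicit false
set_option linter.unusedSectionVars false

open Set Filter Topology

universe u v w

namespace Pool.Agent.DQ

/-! ### Direct sums -/

section prod

variable {X : Type u} [TopologicalSpace X] {R : ERing.{u, v} X}

/-- direct sum of two sheaves -/
def EMod.prod (F G : EMod.{u, v, w} R) : EMod.{u, v, w} R where
  dom := F.dom ∩ G.dom
  dom_sub := inter_subset_left.trans F.dom_sub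
  St x := F.St x × G.St x
  At s x := F.At (fun y => (s y).1) x ∧ G.At (fun y => (s y).2) x
  mem_dom h := ⟨F.mem_dom h.1, G.mem_dom h.2⟩
  ev h := (F.ev h.1).and (G.ev h.2)
  congr h h' := ⟨F.congr h.1 (h'.mono fun y hy => by rw [hy]),
    G.congr h.2 (h'.mono fun y hy => by rw [hy])⟩
  inj h h' e := by
    filter_upwards [F.inj h.1 h'.1 (by rw [e]), G.inj h.2 h'.2 (by rw [e])] with y h1 h2
    exact Prod.ext h1 h2
  surj x hx g := by
    obtain ⟨s, hs, h1⟩ := F.surj x hx.1 g.1
    obtain ⟨t, ht, h2⟩ := G.surj x hx.2 g.2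
    exact ⟨fun y => (s y, t y), ⟨hs, ht⟩, Prod.ext h1 h2⟩
  zero x hx := ⟨F.zero x hx.1, G.zero x hx.2⟩
  add h h' := ⟨F.add h.1 h'.1, G.add h.2 h'.2⟩
  smul h h' := ⟨F.smul h h'.1, G.smul h h'.2⟩

/-- the direct sum of coherent sheaves is coherent. Proof: `EMod.cohAt_of_lfp` with the generators
`(g i, 0)`, `(0, g' j)` (`Fin.append`) and the relations of the `g i` and of the `g' j` (extended by zero). -/
theorem EMod.prod_cohAt {F G : EMod.{u, v, w} R} {x : X} (hR : R.RelAt x) (hF : F.CohAt x)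
    (hG : G.CohAt x) : (F.prod G).CohAt x := by
  obtain ⟨hxF, ⟨p, g, hg, hgen⟩, hF3⟩ := hF
  obtain ⟨hxG, ⟨p', g', hg', hgen'⟩, hG3⟩ := hG
  obtain ⟨q, ρ, hρ, hrel⟩ := hF3 p g hg
  obtain ⟨q', ρ', hρ', hrel'⟩ := hG3 p' g' hg'
  have hxR : x ∈ R.dom := F.dom_sub hxF
  obtain ⟨gg, hgg⟩ : ∃ gg : Fin (p + p') → (y : X) → F.St y × G.St y,
      gg = Fin.append (fun i y => ((g i y, 0) : F.St y × G.St y))
        (fun j y => ((0, g' j y) : F.St y × G.St y)) := ⟨_, rfl⟩
  obtain ⟨rr, hrr⟩ : ∃ rr : Fin (q + q') → Fin (p + p') → (y : X) → R.St y,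
      rr = Fin.append (fun l => Fin.append (ρ l) (fun _ => 0))
        (fun l => Fin.append (fun _ => 0) (ρ' l)) := ⟨_, rfl⟩
  have hg1 : ∀ i y, gg (Fin.castAdd p' i) y = (g i y, 0) := by
    intro i y
    rw [hgg, Fin.append_left]
  have hg2 : ∀ j y, gg (Fin.natAdd p j) y = (0, g' j y) := by
    intro j y
    rw [hgg, Fin.append_right]
  have hr11 : ∀ l i y, rr (Fin.castAdd q' l) (Fin.castAdd p' i) y = ρ l i y := by
    intro l i y
    rw [hrr, Fin.append_left, Fin.append_left]
  have hr12 : ∀ l j y, rr (Fin.castAdd q' l) (Fin.natAdd p j) y = 0 := by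
    intro l j y
    rw [hrr, Fin.append_left, Fin.append_right]
    rfl
  have hr21 : ∀ l i y, rr (Fin.natAdd q l) (Fin.castAdd p' i) y = 0 := by
    intro l i y
    rw [hrr, Fin.append_right, Fin.append_left]
    rfl
  have hr22 : ∀ l j y, rr (Fin.natAdd q l) (Fin.natAdd p j) y = ρ' l j y := by
    intro l j y
    rw [hrr, Fin.append_right, Fin.append_right]
  have hsum : ∀ (y : X) (c : Fin (p + p') → R.St y), ∑ k, c k • gg k y =
      (∑ i, c (Fin.castAdd p' i) • g i y, ∑ j, c (Fin.natAdd p j) • g' j y) := by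
    intro y c
    rw [Fin.sum_univ_add]
    simp only [hg1, hg2]
    refine Prod.ext ?_ ?_
    · rw [Prod.fst_add, Prod.fst_sum, Prod.fst_sum]
      simp only [Prod.smul_fst, smul_zero, Finset.sum_const_zero, add_zero]
    · rw [Prod.snd_add, Prod.snd_sum, Prod.snd_sum]
      simp only [Prod.smul_snd, smul_zero, Finset.sum_const_zero, zero_add]
  have hmem : ∀ (y : X) (c : Fin (p + p') → R.St y),
      c ∈ (F.prod G).rel (n := p + p') gg y ↔
        (fun i => c (Fin.castAdd p' i)) ∈ F.rel g y ∧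
          (fun j => c (Fin.natAdd p j)) ∈ G.rel g' y := by
    intro y c
    have h1 : c ∈ (F.prod G).rel (n := p + p') gg y ↔ ∑ k, c k • gg k y = 0 := Iff.rfl
    rw [h1, hsum, Prod.mk_eq_zero]
    exact Iff.rfl
  refine EMod.cohAt_of_lfp (F.prod G) ⟨hxF, hxG⟩ hR (p := p + p') (q := q + q') gg rr
    ?_ ?_ ?_ ?_
  · intro k
    refine Fin.addCases (fun i => ?_) (fun j => ?_) k
    · have e : gg (Fin.castAdd p' i) = fun y => (g i y, 0) := funext fun y => hg1 i y
      rw [e]
      exact ⟨hg i, G.zero x hxG⟩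
    · have e : gg (Fin.natAdd p j) = fun y => (0, g' j y) := funext fun y => hg2 j y
      rw [e]
      exact ⟨F.zero x hxF, hg' j⟩
  · intro l k
    refine Fin.addCases (fun l => ?_) (fun l => ?_) l
    · refine Fin.addCases (fun i => ?_) (fun j => ?_) k
      · rw [hrr, Fin.append_left, Fin.append_left]
        exact hρ l i
      · rw [hrr, Fin.append_left, Fin.append_right]
        exact R.zero x hxR
    · refine Fin.addCases (fun i => ?_) (fun j => ?_) k
      · rw [hrr, Fin.append_right, Fin.append_left]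
        exact R.zero x hxR
      · rw [hrr, Fin.append_right, Fin.append_right]
        exact hρ' l j
  · filter_upwards [hgen, hgen'] with y h1 h2
    rw [eq_top_iff]
    rintro ⟨a, b⟩ _
    have ha : a ∈ Submodule.span (R.St y) (Set.range fun i => g i y) := by
      rw [h1]
      exact Submodule.mem_top
    have hb : b ∈ Submodule.span (R.St y) (Set.range fun i => g' i y) := by
      rw [h2]
      exact Submodule.mem_top
    obtain ⟨c, hc⟩ := mem_span_fam.mp ha
    obtain ⟨c', hc'⟩ := mem_span_fam.mp hb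
    refine mem_span_fam.mpr ⟨Fin.append c c', ?_⟩
    refine Eq.trans ?_ (hsum y (Fin.append c c')).symm
    refine Prod.ext ?_ ?_
    · refine hc.trans (Finset.sum_congr rfl fun i _ => ?_)
      rw [Fin.append_left]
    · refine hc'.trans (Finset.sum_congr rfl fun i _ => ?_)
      rw [Fin.append_right]
  · filter_upwards [hrel, hrel'] with y h1 h2
    apply le_antisymm
    · intro c hc
      rw [hmem] at hc
      obtain ⟨hc1, hc2⟩ := hc
      rw [h1] at hc1
      rw [h2] at hc2
      obtain ⟨e, he⟩ := mem_span_fam.mp hc1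
      obtain ⟨e', he'⟩ := mem_span_fam.mp hc2
      refine mem_span_fam.mpr ⟨Fin.append e e', ?_⟩
      funext k
      rw [Finset.sum_apply, Fin.sum_univ_add]
      refine Fin.addCases (fun i => ?_) (fun j => ?_) k
      · have h3 := congrFun he i
        rw [Finset.sum_apply] at h3
        simp only [Pi.smul_apply, Fin.append_left, Fin.append_right, hr11, hr21, smul_zero,
          Finset.sum_const_zero, add_zero]
        exact h3
      · have h3 := congrFun he' j
        rw [Finset.sum_apply] at h3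
        simp only [Pi.smul_apply, Fin.append_left, Fin.append_right, hr12, hr22, smul_zero,
          Finset.sum_const_zero, zero_add]
        exact h3
    · rw [Submodule.span_le]
      rintro _ ⟨l, rfl⟩
      change (fun k => rr l k y) ∈ (F.prod G).rel (n := p + p') gg y
      rw [hmem]
      refine Fin.addCases (fun l => ?_) (fun l => ?_) l
      · simp only [hr11, hr12]
        refine ⟨?_, Submodule.zero_mem _⟩
        rw [h1]
        exact Submodule.subset_span ⟨l, rfl⟩
      · simp only [hr21, hr22]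
        refine ⟨Submodule.zero_mem _, ?_⟩
        rw [h2]
        exact Submodule.subset_span ⟨l, rfl⟩

end prod

end Pool.Agent.DQ
end

section

/-!
# DQ, module HA1, part a: matrices over a noncommutative ring, lifting, homotopies,
independence of `ExtZero` of the resolution, existence of resolutions.
-/

set_option autoImplicit false

universe v w w'

namespace Pool.Agent.DQ

open Matrix

section basic

variable {R : Type v} [Ring R]

/-- two matrices with the same row map are equal -/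
theorem mat_ext_row {a b : ℕ} {X Y : Matrix (Fin a) (Fin b) R}
    (h : ∀ v : Fin a → R, v ᵥ* X = v ᵥ* Y) : X = Y := by
  ext i j
  have := congrFun (h (Pi.single i 1)) j
  simpa using this

/-- two matrices with the same column map are equal -/
theorem mat_ext_col {a b : ℕ} {X Y : Matrix (Fin a) (Fin b) R}
    (h : ∀ v : Fin b → R, X *ᵥ v = Y *ᵥ v) : X = Y := by
  ext i j
  have := congrFun (h (Pi.single j 1)) i
  simpa using this

/-- lifting a matrix through a row map -/
theorem exists_row_lift {a b c : ℕ} (X : Matrix (Fin a) (Fin b) R) (Y : Matrix (Fin c) (Fin b) R)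
    (h : ∀ v : Fin a → R, ∃ u, u ᵥ* Y = v ᵥ* X) : ∃ Z : Matrix (Fin a) (Fin c) R, Z * Y = X := by
  choose f hf using fun i : Fin a => h (Pi.single i 1)
  refine ⟨Matrix.of f, ?_⟩
  ext i j
  have := congrFun (hf i) j
  rw [Matrix.single_one_vecMul] at this
  rw [← Matrix.row_apply X, ← this]
  rfl

/-- lifting a matrix through a column map -/
theorem exists_col_lift {a b c : ℕ} (X : Matrix (Fin a) (Fin b) R) (Y : Matrix (Fin a) (Fin c) R)
    (h : ∀ v : Fin b → R, ∃ u, Y *ᵥ u = X *ᵥ v) : ∃ Z : Matrix (Fin c) (Fin b) R, Y * Z = X := by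
  choose f hf using fun i : Fin b => h (Pi.single i 1)
  refine ⟨(Matrix.of f)ᵀ, ?_⟩
  ext i j
  have := congrFun (hf j) i
  rw [Matrix.mulVec_single_one] at this
  rw [← Matrix.col_apply X, ← this]
  rfl

end basic


section lift

variable {R : Type v} [Ring R]
variable {M : Type w} {M' : Type w'} [AddCommGroup M] [Module R M] [AddCommGroup M'] [Module R M']
variable {n : ℕ → ℕ} {B : ∀ k, Matrix (Fin (n (k + 1))) (Fin (n k)) R}
  {ε : (Fin (n 1) → R) →ₗ[R] M}
variable {n' : ℕ → ℕ} {B' : ∀ k, Matrix (Fin (n' (k + 1))) (Fin (n' k)) R}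
  {ε' : (Fin (n' 1) → R) →ₗ[R] M'}

omit [Ring R] in
theorem mat_eq_of_zero_right {a b : ℕ} (hb : b = 0) (X Y : Matrix (Fin a) (Fin b) R) : X = Y := by
  subst hb
  ext i j
  exact j.elim0

omit [Ring R] in
theorem mat_eq_of_zero_left {a b : ℕ} (ha : a = 0) (X Y : Matrix (Fin a) (Fin b) R) : X = Y := by
  subst ha
  ext i j
  exact i.elim0

/-- consecutive matrices of a resolution compose to zero -/
theorem IsRes.mul_eq_zero (h : IsRes n B ε) (k : ℕ) : B (k + 1) * B k = 0 := by
  rcases Nat.eq_zero_or_pos k with rfl | hk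
  · exact mat_eq_of_zero_right h.zero _ _
  · refine mat_ext_row fun v => ?_
    rw [← Matrix.vecMul_vecMul, (h.exact k hk _).2 ⟨v, rfl⟩, Matrix.vecMul_zero]

theorem IsRes.eps_one (h : IsRes n B ε) (v : Fin (n 2) → R) : ε (v ᵥ* B 1) = 0 :=
  (h.ker _).2 ⟨v, rfl⟩

/-- a matrix killed by `B k` from the right factors through `B (k+1)` -/
theorem IsRes.exists_factor (h : IsRes n B ε) {k : ℕ} (hk : 1 ≤ k) {a : ℕ}
    (X : Matrix (Fin a) (Fin (n (k + 1))) R)
    (hX : X * B k = 0) : ∃ Z : Matrix (Fin a) (Fin (n (k + 2))) R, Z * B (k + 1) = X := by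
  refine exists_row_lift X (B (k + 1)) fun v => ?_
  refine (h.exact k hk _).1 ?_
  rw [Matrix.vecMul_vecMul, hX, Matrix.vecMul_zero]

/-- a matrix with rows in the kernel of `ε` factors through `B 1` -/
theorem IsRes.exists_factor_one (h : IsRes n B ε) {a : ℕ}
    (X : Matrix (Fin a) (Fin (n 1)) R)
    (hX : ∀ v : Fin a → R, ε (v ᵥ* X) = 0) : ∃ Z : Matrix (Fin a) (Fin (n 2)) R, Z * B 1 = X := by
  refine exists_row_lift X (B 1) fun v => ?_
  exact (h.ker _).1 (hX v)

open Classical in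
/-- the recursive choice of a chain map -/
noncomputable def chainRec (n n' : ℕ → ℕ) (B : ∀ k, Matrix (Fin (n (k + 1))) (Fin (n k)) R)
    (B' : ∀ k, Matrix (Fin (n' (k + 1))) (Fin (n' k)) R)
    (F1 : Matrix (Fin (n 1)) (Fin (n' 1)) R) : ∀ k, Matrix (Fin (n k)) (Fin (n' k)) R
  | 0 => 0
  | 1 => F1
  | (k + 2) => Classical.epsilon fun Z => Z * B' (k + 1) = B (k + 1) * chainRec n n' B B' F1 (k + 1)

/-- chain maps lifting a linear map exist -/
theorem exists_chain_lift (h : IsRes n B ε) (h' : IsRes n' B' ε') (f : M →ₗ[R] M') :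
    ∃ F : ∀ k, Matrix (Fin (n k)) (Fin (n' k)) R, (∀ v, ε' (v ᵥ* F 1) = f (ε v)) ∧
      ∀ k, B k * F k = F (k + 1) * B' k := by
  -- the first matrix
  have h1 : ∃ F1 : Matrix (Fin (n 1)) (Fin (n' 1)) R, ∀ v, ε' (v ᵥ* F1) = f (ε v) := by
    choose g hg using fun i : Fin (n 1) => h'.surj (f (ε (Pi.single i 1)))
    refine ⟨Matrix.of g, fun v => ?_⟩
    have e1 : v ᵥ* Matrix.of g = ∑ i, v i • g i := by
      ext j
      simp [Matrix.vecMul, dotProduct, Finset.sum_apply]
    have e2 : v = ∑ i, v i • (Pi.single i (1 : R) : Fin (n 1) → R) := by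
      ext j
      simp [Finset.sum_apply, Pi.single_apply]
    rw [e1, map_sum]
    conv_rhs => rw [e2, map_sum, map_sum]
    refine Finset.sum_congr rfl fun i _ => ?_
    rw [map_smul, map_smul, map_smul, hg]
  obtain ⟨F1, hF1⟩ := h1
  refine ⟨chainRec n n' B B' F1, hF1, fun k => ?_⟩
  induction k with
  | zero => exact mat_eq_of_zero_right h'.zero _ _
  | succ k ih =>
    have key : ∃ Z, Z * B' (k + 1) = B (k + 1) * chainRec n n' B B' F1 (k + 1) := by
      rcases Nat.eq_zero_or_pos k with rfl | hk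
      · refine h'.exists_factor_one _ fun v => ?_
        rw [← Matrix.vecMul_vecMul]
        exact (hF1 _).trans (by rw [h.eps_one, map_zero])
      · refine h'.exists_factor (by omega) _ ?_
        rw [Matrix.mul_assoc, ← ih, ← Matrix.mul_assoc, h.mul_eq_zero, Matrix.zero_mul]
    have := Classical.epsilon_spec key
    exact this.symm

open Classical in
/-- the recursive choice of a homotopy -/
noncomputable def homRec (n n' : ℕ → ℕ) (B : ∀ k, Matrix (Fin (n (k + 1))) (Fin (n k)) R)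
    (B' : ∀ k, Matrix (Fin (n' (k + 1))) (Fin (n' k)) R)
    (F : ∀ k, Matrix (Fin (n k)) (Fin (n' k)) R) : ∀ k, Matrix (Fin (n k)) (Fin (n' (k + 1))) R
  | 0 => 0
  | (k + 1) => Classical.epsilon fun Z => Z * B' (k + 1) = F (k + 1) - B k * homRec n n' B B' F k

/-- a chain map lifting zero is homotopic to zero -/
theorem exists_homotopy (h : IsRes n B ε) (h' : IsRes n' B' ε')
    (F : ∀ k, Matrix (Fin (n k)) (Fin (n' k)) R) (hF : ∀ v, ε' (v ᵥ* F 1) = 0)
    (hc : ∀ k, B k * F k = F (k + 1) * B' k) :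
    ∃ S : ∀ k, Matrix (Fin (n k)) (Fin (n' (k + 1))) R,
      ∀ k, F (k + 1) = S (k + 1) * B' (k + 1) + B k * S k := by
  refine ⟨homRec n n' B B' F, fun k => ?_⟩
  have key : ∀ k, ∃ Z : Matrix (Fin (n (k + 1))) (Fin (n' (k + 2))) R,
      Z * B' (k + 1) = F (k + 1) - B k * homRec n n' B B' F k := by
    intro k
    induction k with
    | zero =>
      refine h'.exists_factor_one _ fun v => ?_
      have : B 0 * homRec n n' B B' F 0 = 0 := by simp [homRec]
      rw [this, sub_zero, hF]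
    | succ k ih =>
      refine h'.exists_factor (by omega) _ ?_
      have e := Classical.epsilon_spec ih
      change homRec n n' B B' F (k + 1) * B' (k + 1) = F (k + 1) - B k * homRec n n' B B' F k at e
      rw [Matrix.sub_mul, Matrix.mul_assoc, e, Matrix.mul_sub, ← hc, ← Matrix.mul_assoc (B (k + 1)),
        h.mul_eq_zero, Matrix.zero_mul, sub_zero, sub_self]
  have e := Classical.epsilon_spec (key k)
  change homRec n n' B B' F (k + 1) * B' (k + 1) = F (k + 1) - B k * homRec n n' B B' F k at e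
  rw [e]
  abel

/-- exactness of the dual complex of one resolution gives `ExtZero` -/
theorem ExtZero.of_res (h : IsRes n B ε) (j : ℕ)
    (hj : ∀ w, B (j + 1) *ᵥ w = 0 → ∃ u, B j *ᵥ u = w) : ExtZero R M j := by
  intro n' B' ε' h' w hw
  obtain ⟨F, hF1, hF⟩ := exists_chain_lift h' h (LinearMap.id : M →ₗ[R] M)
  obtain ⟨G, hG1, hG⟩ := exists_chain_lift h h' (LinearMap.id : M →ₗ[R] M)
  obtain ⟨S, hS⟩ := exists_homotopy h' h' (fun k => F k * G k - 1) (by
    intro v
    rw [Matrix.vecMul_sub, map_sub, ← Matrix.vecMul_vecMul, hG1, LinearMap.id_apply, hF1,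
      LinearMap.id_apply, Matrix.vecMul_one, sub_self]) (by
    intro k
    rw [Matrix.mul_sub, Matrix.sub_mul, ← Matrix.mul_assoc, hF, Matrix.mul_assoc, hG,
      Matrix.mul_one, Matrix.one_mul, Matrix.mul_assoc])
  have e1 : B (j + 1) *ᵥ (G (j + 1) *ᵥ w) = 0 := by
    rw [Matrix.mulVec_mulVec, hG, ← Matrix.mulVec_mulVec, hw, Matrix.mulVec_zero]
  obtain ⟨u, hu⟩ := hj _ e1
  refine ⟨F j *ᵥ u - S j *ᵥ w, ?_⟩
  have e2 := congrArg (fun X => X *ᵥ w) (hS j)
  simp only [Matrix.sub_mulVec, Matrix.one_mulVec, Matrix.add_mulVec, ← Matrix.mulVec_mulVec,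
    hw, Matrix.mulVec_zero, zero_add] at e2
  rw [Matrix.mulVec_sub, ← e2, Matrix.mulVec_mulVec, hF, ← Matrix.mulVec_mulVec, hu]
  abel

end lift

end Pool.Agent.DQ
end

section

/-!
# DQ, module HA1, part b: existence of resolutions (left and right), lifts `W`.
-/

set_option autoImplicit false

universe v w w'

namespace Pool.Agent.DQ

open Matrix MulOpposite

section fg

variable {R : Type v} [Ring R]

theorem vecMul_eq_sum {a b : ℕ} (v : Fin a → R) (X : Matrix (Fin a) (Fin b) R) :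
    v ᵥ* X = ∑ i, v i • X i := by
  ext j
  simp [Matrix.vecMul, dotProduct, Finset.sum_apply]

/-- a submodule of a free module over a left noetherian ring is a row image -/
theorem exists_rows [IsNoetherianRing R] {m : ℕ} (P : Submodule R (Fin m → R)) :
    ∃ (c : ℕ) (X : Matrix (Fin c) (Fin m) R), ∀ v, v ∈ P ↔ ∃ u, u ᵥ* X = v := by
  obtain ⟨c, s, hs⟩ := Submodule.fg_iff_exists_fin_generating_family.1
    (IsNoetherian.noetherian P)
  refine ⟨c, Matrix.of s, fun v => ?_⟩
  rw [← hs, Submodule.mem_span_range_iff_exists_fun]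
  refine exists_congr fun u => ?_
  rw [vecMul_eq_sum]
  rfl

/-- a right submodule of a free module over a right noetherian ring is a column image -/
theorem exists_cols [IsNoetherianRing Rᵐᵒᵖ] {m : ℕ} (P : Submodule Rᵐᵒᵖ (Fin m → R)) :
    ∃ (c : ℕ) (X : Matrix (Fin m) (Fin c) R), ∀ v, v ∈ P ↔ ∃ u, X *ᵥ u = v := by
  have e : R ≃ₗ[Rᵐᵒᵖ] Rᵐᵒᵖ :=
    { toFun := op
      invFun := unop
      left_inv := fun _ => rfl
      right_inv := fun _ => rfl
      map_add' := fun _ _ => rfl
      map_smul' := fun r x => by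
        induction r using MulOpposite.rec' with | _ r => rfl }
  have : IsNoetherian Rᵐᵒᵖ R := isNoetherian_of_linearEquiv e.symm
  obtain ⟨c, s, hs⟩ := Submodule.fg_iff_exists_fin_generating_family.1
    (IsNoetherian.noetherian P)
  refine ⟨c, (Matrix.of s)ᵀ, fun v => ?_⟩
  rw [← hs, Submodule.mem_span_range_iff_exists_fun]
  constructor
  · rintro ⟨u, hu⟩
    refine ⟨fun i => unop (u i), ?_⟩
    rw [← hu]
    ext j
    simp [Matrix.mulVec, dotProduct, Finset.sum_apply]
  · rintro ⟨u, hu⟩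
    refine ⟨fun i => op (u i), ?_⟩
    rw [← hu]
    ext j
    simp [Matrix.mulVec, dotProduct, Finset.sum_apply]

end fg

section seq

/-- sequences of composable arrows -/
theorem exists_seq {T : ℕ → ℕ → Type w} (rel : ∀ {a b c : ℕ}, T a b → T b c → Prop)
    (step : ∀ (a b : ℕ) (X : T a b), ∃ (c : ℕ) (Y : T b c), rel X Y)
    (P : ∀ a b, T a b → Prop) (h : ∃ a b X, P a b X) :
    ∃ (n : ℕ → ℕ) (B : ∀ k, T (n k) (n (k + 1))), P _ _ (B 0) ∧ ∀ k, rel (B k) (B (k + 1)) := by
  obtain ⟨a, b, X, hX⟩ := h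
  choose c Y hY using step
  let st : ℕ → (Σ (p : ℕ) (q : ℕ), T p q) := fun k =>
    Nat.rec ⟨a, b, X⟩ (fun _ s => ⟨s.2.1, c _ _ s.2.2, Y _ _ s.2.2⟩) k
  exact ⟨fun k => (st k).1, fun k => (st k).2.2, hX, fun k => hY _ _ _⟩

/-- shift of a sequence of numbers by one place -/
def shiftN (n : ℕ → ℕ) : ℕ → ℕ
  | 0 => 0
  | (k + 1) => n k

/-- shift of a sequence of matrices (left modules) -/
def shiftB {R : Type v} [Ring R] {n : ℕ → ℕ} (B : ∀ k, Matrix (Fin (n (k + 1))) (Fin (n k)) R) :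
    ∀ k, Matrix (Fin (shiftN n (k + 1))) (Fin (shiftN n k)) R
  | 0 => 0
  | (k + 1) => B k

/-- shift of a sequence of matrices (right modules) -/
def shiftC {R : Type v} [Ring R] {n : ℕ → ℕ} (B : ∀ k, Matrix (Fin (n k)) (Fin (n (k + 1))) R) :
    ∀ k, Matrix (Fin (shiftN n k)) (Fin (shiftN n (k + 1))) R
  | 0 => 0
  | (k + 1) => B k

end seq

section res

/-- every finitely generated left module over a left noetherian ring has a resolution -/
theorem exists_isRes (R : Type v) [Ring R] [IsNoetherianRing R] (M : Type w) [AddCommGroup M] [Module R M]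
    [Module.Finite R M] : ∃ (n : ℕ → ℕ) (B : ∀ k, Matrix (Fin (n (k + 1))) (Fin (n k)) R)
      (ε : (Fin (n 1) → R) →ₗ[R] M), IsRes n B ε := by
  obtain ⟨n, B, ⟨ε, h1, h2⟩, h3⟩ := exists_seq (T := fun a b => Matrix (Fin b) (Fin a) R)
    (fun {a b c} X Y => ∀ v, v ᵥ* X = 0 ↔ ∃ u, u ᵥ* Y = v)
    (fun a b X => by
      obtain ⟨c, Y, hY⟩ := exists_rows (LinearMap.ker (Matrix.vecMulLinear X))
      exact ⟨c, Y, fun v => by rw [← hY]; rfl⟩)
    (fun a b X => ∃ ε : (Fin a → R) →ₗ[R] M, Function.Surjective ε ∧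
      ∀ v, ε v = 0 ↔ ∃ u, u ᵥ* X = v) (by
      obtain ⟨a, ε, hε⟩ := Module.Finite.exists_fin' R M
      obtain ⟨b, X, hX⟩ := exists_rows (LinearMap.ker ε)
      exact ⟨a, b, X, ε, hε, fun v => by rw [← hX]; rfl⟩)
  exact ⟨shiftN n, shiftB B, ε,
    { zero := rfl
      surj := h1
      ker := h2
      exact := fun k hk => by
        obtain ⟨k, rfl⟩ : ∃ l, k = l + 1 := ⟨k - 1, by omega⟩
        exact h3 k }⟩

variable {R : Type v} [Ring R]

/-- `Ext^d` has a right resolution, with `W : R^{g 1} → R^{n (d+1)}` -/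
theorem exists_isResExt [IsNoetherianRing Rᵐᵒᵖ] (d : ℕ) (n : ℕ → ℕ)
    (B : ∀ k, Matrix (Fin (n (k + 1))) (Fin (n k)) R) :
    ∃ (g : ℕ → ℕ) (C : ∀ k, Matrix (Fin (g k)) (Fin (g (k + 1))) R)
      (W : Matrix (Fin (n (d + 1))) (Fin (g 1)) R), IsResExt d n B g C W := by
  obtain ⟨n', C, ⟨W, h1, h2, h4⟩, h3⟩ := exists_seq (T := fun a b => Matrix (Fin a) (Fin b) R)
    (fun {a b c} X Y => ∀ v, X *ᵥ v = 0 ↔ ∃ u, Y *ᵥ u = v)
    (fun a b X => by
      let P : Submodule Rᵐᵒᵖ (Fin b → R) :=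
        { carrier := {v | X *ᵥ v = 0}
          add_mem' := fun {v w} hv hw => by
            change X *ᵥ (v + w) = 0
            rw [Matrix.mulVec_add, show X *ᵥ v = 0 from hv, show X *ᵥ w = 0 from hw, add_zero]
          zero_mem' := Matrix.mulVec_zero _
          smul_mem' := fun r v hv => by
            change X *ᵥ (r • v) = 0
            rw [Matrix.mulVec_smul, show X *ᵥ v = 0 from hv, smul_zero] }
      obtain ⟨c, Y, hY⟩ := exists_cols P
      exact ⟨c, Y, fun v => by rw [← hY]; rfl⟩)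
    (fun a b X => ∃ W : Matrix (Fin (n (d + 1))) (Fin a) R, B (d + 1) * W = 0 ∧
      (∀ w, B (d + 1) *ᵥ w = 0 → ∃ u t, W *ᵥ u + B d *ᵥ t = w) ∧
      ∀ u, (∃ t, W *ᵥ u = B d *ᵥ t) ↔ ∃ v, X *ᵥ v = u) (by
      let P : Submodule Rᵐᵒᵖ (Fin (n (d + 1)) → R) :=
        { carrier := {v | B (d + 1) *ᵥ v = 0}
          add_mem' := fun {v w} hv hw => by
            change B (d + 1) *ᵥ (v + w) = 0
            rw [Matrix.mulVec_add, show B (d + 1) *ᵥ v = 0 from hv,
              show B (d + 1) *ᵥ w = 0 from hw, add_zero]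
          zero_mem' := Matrix.mulVec_zero _
          smul_mem' := fun r v hv => by
            change B (d + 1) *ᵥ (r • v) = 0
            rw [Matrix.mulVec_smul, show B (d + 1) *ᵥ v = 0 from hv, smul_zero] }
      obtain ⟨a, W, hW⟩ := exists_cols P
      let Q : Submodule Rᵐᵒᵖ (Fin a → R) :=
        { carrier := {u | ∃ t, W *ᵥ u = B d *ᵥ t}
          add_mem' := fun {v w} hv hw => by
            obtain ⟨s, hs⟩ := hv
            obtain ⟨t, ht⟩ := hw
            exact ⟨s + t, by rw [Matrix.mulVec_add, Matrix.mulVec_add, hs, ht]⟩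
          zero_mem' := ⟨0, by rw [Matrix.mulVec_zero, Matrix.mulVec_zero]⟩
          smul_mem' := fun r v hv => by
            obtain ⟨s, hs⟩ := hv
            exact ⟨r • s, by rw [Matrix.mulVec_smul, Matrix.mulVec_smul, hs]⟩ }
      obtain ⟨b, X, hX⟩ := exists_cols Q
      refine ⟨a, b, X, W, ?_, ?_, ?_⟩
      · refine mat_ext_col fun v => ?_
        rw [← Matrix.mulVec_mulVec, Matrix.zero_mulVec]
        exact (hW _).2 ⟨v, rfl⟩
      · intro w hw
        obtain ⟨u, hu⟩ := (hW w).1 hw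
        exact ⟨u, 0, by rw [hu, Matrix.mulVec_zero, add_zero]⟩
      · intro u
        rw [← hX]
        rfl)
  exact ⟨shiftN n', shiftC C, W,
    { zero := rfl
      cocycle := h1
      surj := h2
      ker := h4
      exact := fun k hk => by
        obtain ⟨k, rfl⟩ : ∃ l, k = l + 1 := ⟨k - 1, by omega⟩
        exact h3 k }⟩

end res

end Pool.Agent.DQ
end

section

/-! # DQ, module HA2: Rees' theorem and purity, elementwise -/

set_option autoImplicit false

open Matrix RingTheory.Sequence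

universe u v w

namespace Pool.Agent.DQ

variable {R : Type u} [CommRing R] {M : Type w} [AddCommGroup M] [Module R M] {n : ℕ → ℕ}
  {B : ∀ k, Matrix (Fin (n (k + 1))) (Fin (n k)) R} {ε : (Fin (n 1) → R) →ₗ[R] M}

theorem matrix_eq_of_vecMul {p q : ℕ} {A A' : Matrix (Fin p) (Fin q) R}
    (h : ∀ v, v ᵥ* A = v ᵥ* A') : A = A' := by
  ext i j
  have := congrFun (h (Pi.single i 1)) j
  simpa using this

theorem exists_matrix_mul {p q r : ℕ} {A : Matrix (Fin p) (Fin q) R} {C : Matrix (Fin r) (Fin q) R}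
    (h : ∀ i, ∃ u : Fin p → R, u ᵥ* A = C i) : ∃ S : Matrix (Fin r) (Fin p) R, S * A = C := by
  choose u hu using h
  refine ⟨u, ?_⟩
  ext i j
  have := congrFun (hu i) j
  rw [← this]
  rfl

/-- an element which kills `M` is null homotopic on every resolution -/
theorem IsRes.homotopy (h : IsRes n B ε) {a : R} (ha : a ∈ Module.annihilator R M) (j : ℕ) :
    ∃ (S : Matrix (Fin (n j)) (Fin (n (j + 1))) R)
      (S' : Matrix (Fin (n (j + 1))) (Fin (n (j + 2))) R), B j * S + S' * B (j + 1) = a • 1 := by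
  induction j with
  | zero =>
    have : ∀ i, ∃ u : Fin (n 2) → R, u ᵥ* B 1 =
        (a • (1 : Matrix (Fin (n 1)) (Fin (n 1)) R)) i := by
      intro i
      rw [← h.ker]
      have : (a • (1 : Matrix (Fin (n 1)) (Fin (n 1)) R)) i = a • (Pi.single i 1) := by
        ext k
        simp [Matrix.one_apply, Pi.single_apply, eq_comm]
      rw [this, map_smul]
      exact Module.mem_annihilator.1 ha _
    obtain ⟨S', hS'⟩ := exists_matrix_mul this
    refine ⟨0, S', ?_⟩
    rw [Matrix.mul_zero]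
    exact (zero_add _).trans hS'
  | succ j ih =>
    obtain ⟨S, S', hS⟩ := ih
    have : ∀ i, ∃ u : Fin (n (j + 3)) → R, u ᵥ* B (j + 2) =
        (a • (1 : Matrix (Fin (n (j + 2))) (Fin (n (j + 2))) R) - B (j + 1) * S') i := by
      intro i
      rw [← h.exact (j + 1) (by omega)]
      have h1 : (a • (1 : Matrix (Fin (n (j + 2))) (Fin (n (j + 2))) R) - B (j + 1) * S') *
          B (j + 1) = 0 := by
        have h2 : S' * B (j + 1) = a • 1 - B j * S := by rw [← hS]; abel
        rw [Matrix.sub_mul, Matrix.mul_assoc, h2, Matrix.mul_sub, ← Matrix.mul_assoc,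
          h.mul_eq_zero j]
        simp
      ext k
      exact congrFun (congrFun h1 i) k
    obtain ⟨S'', hS''⟩ := exists_matrix_mul this
    exact ⟨S', S'', by rw [hS'']; abel⟩

/-- an element which kills `M` kills `Ext^j(M, N)` -/
theorem IsRes.smul_ext (h : IsRes n B ε) {a : R} (ha : a ∈ Module.annihilator R M) {N : Type v}
    [AddCommGroup N] [Module R N] (j : ℕ) (w : Fin (n (j + 1)) → N)
    (hw : act (B (j + 1)) w = 0) : ∃ u : Fin (n j) → N, act (B j) u = a • w := by
  obtain ⟨S, S', hS⟩ := h.homotopy ha j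
  refine ⟨act S w, ?_⟩
  have : act (B j * S + S' * B (j + 1)) w =
      act (a • (1 : Matrix (Fin (n (j + 1))) (Fin (n (j + 1))) R)) w := by rw [hS]
  rwa [act_add, act_mul, act_mul, hw, map_zero, add_zero, act_smul, act_one] at this

theorem IsRes.annihilator_le_annExt (h : IsRes n B ε) (j : ℕ) :
    Module.annihilator R M ≤ AnnExt n B j := by
  intro a ha w hw
  rw [← act_eq_mulVec] at hw
  obtain ⟨u, hu⟩ := h.smul_ext ha j w hw
  exact ⟨u, by rw [← act_eq_mulVec, hu]⟩

theorem act_of_isEmpty {N : Type v} [AddCommGroup N] [Module R N] {p q : ℕ}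
    (A : Matrix (Fin p) (Fin q) R) (hq : q = 0) (u : Fin q → N) : act A u = 0 := by
  subst hq
  funext i
  simp [act_apply]

theorem sum_smul_single {N : Type v} [AddCommGroup N] [Module R N] {p : ℕ}
    (g : (Fin p → R) →ₗ[R] N) (v : Fin p → R) : ∑ j, v j • g (Pi.single j 1) = g v := by
  rw [LinearMap.pi_apply_eq_sum_univ g v]
  refine Finset.sum_congr rfl fun j _ => ?_
  congr 2
  ext k
  simp [Pi.single_apply, eq_comm]

/-- lift of a vector -/
theorem exists_lift_quotSMulTop {N : Type v} [AddCommGroup N] [Module R N] (x : R) {p : ℕ}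
    (w' : Fin p → QuotSMulTop x N) :
    ∃ w : Fin p → N, (fun i => Submodule.Quotient.mk (w i)) = w' := by
  choose w hw using fun i => Submodule.Quotient.mk_surjective _ (w' i)
  exact ⟨w, funext hw⟩

theorem exists_smul_of_mk_eq {N : Type v} [AddCommGroup N] [Module R N] (x : R) {p : ℕ}
    {w w' : Fin p → N} (h : ∀ i, (Submodule.Quotient.mk (w i) : QuotSMulTop x N) =
      Submodule.Quotient.mk (w' i)) : ∃ z : Fin p → N, w = w' + x • z := by
  have : ∀ i, ∃ z : N, w i = w' i + x • z := by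
    intro i
    have h1 := (Submodule.Quotient.eq _).1 (h i)
    rw [Submodule.mem_smul_pointwise_iff_exists] at h1
    obtain ⟨z, -, hz⟩ := h1
    exact ⟨z, by rw [hz]; abel⟩
  choose z hz using this
  exact ⟨z, funext hz⟩

theorem mk_act {N : Type v} [AddCommGroup N] [Module R N] (x : R) {p q : ℕ}
    (A : Matrix (Fin p) (Fin q) R) (w : Fin q → N) :
    act A (fun i => (Submodule.Quotient.mk (w i) : QuotSMulTop x N)) =
      fun i => Submodule.Quotient.mk (act A w i) :=
  act_map (Submodule.mkQ _) A w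

theorem smul_cancel {N : Type v} [AddCommGroup N] [Module R N] {x : R} (hx : IsSMulRegular N x)
    {p : ℕ} {w w' : Fin p → N} (h : x • w = x • w') : w = w' := by
  funext i
  exact hx (congrFun h i)

theorem mk_add_smul {N : Type v} [AddCommGroup N] [Module R N] (x : R) (w z : N) :
    (Submodule.Quotient.mk (w + x • z) : QuotSMulTop x N) = Submodule.Quotient.mk w := by
  rw [Submodule.Quotient.eq]
  rw [add_sub_cancel_left]
  exact Submodule.smul_mem_pointwise_smul z x ⊤ trivial

/-- Rees' theorem, easy direction -/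
theorem IsRes.exN_of_regular (h : IsRes n B ε) (rs : List R) {N : Type v} [AddCommGroup N]
    [Module R N] (hrs : IsWeaklyRegular N rs) (hann : ∀ r ∈ rs, r ∈ Module.annihilator R M)
    (j : ℕ) (hj : j < rs.length) : ExN n B N j := by
  induction rs generalizing N j with
  | nil => exact absurd hj (by simp)
  | cons x rs ih =>
    rw [isWeaklyRegular_cons_iff] at hrs
    obtain ⟨hx, hrs⟩ := hrs
    intro w hw
    obtain ⟨u, hu⟩ := h.smul_ext (hann x (by simp)) j w hw
    cases j with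
    | zero =>
      refine ⟨u, smul_cancel hx ?_⟩
      rw [← hu, act_of_isEmpty _ h.zero, smul_zero]
    | succ j =>
      have ih' := ih hrs (fun r hr => hann r (by simp [hr])) j (by simpa using hj)
      have h1 : act (B (j + 1)) (fun i => (Submodule.Quotient.mk (u i) : QuotSMulTop x N)) = 0 := by
        rw [mk_act, hu]
        funext i
        rw [Pi.smul_apply, ← zero_add (x • w i), mk_add_smul]
        rfl
      obtain ⟨y', hy'⟩ := ih' _ h1
      obtain ⟨y, rfl⟩ := exists_lift_quotSMulTop x y'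
      rw [mk_act] at hy'
      obtain ⟨z, hz⟩ := exists_smul_of_mk_eq x (w := u) (w' := act (B j) y)
        (fun i => (congrFun hy' i).symm)
      refine ⟨z, smul_cancel hx ?_⟩
      rw [← hu, hz, map_add, ← act_mul, h.mul_eq_zero, act_zero, zero_add, map_smul]

/-- dimension shift -/
theorem IsRes.exN_quot (h : IsRes n B ε) {N : Type v} [AddCommGroup N] [Module R N] {x : R}
    (hx : IsSMulRegular N x) {j : ℕ} (h1 : ExN n B N j) (h2 : ExN n B N (j + 1)) :
    ExN n B (QuotSMulTop x N) j := by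
  intro w' hw'
  obtain ⟨w, rfl⟩ := exists_lift_quotSMulTop x w'
  rw [mk_act] at hw'
  obtain ⟨z, hz⟩ := exists_smul_of_mk_eq x (w := act (B (j + 1)) w) (w' := 0)
    (fun i => congrFun hw' i)
  rw [zero_add] at hz
  have h3 : act (B (j + 2)) z = 0 := by
    apply smul_cancel hx
    rw [← map_smul, ← hz, ← act_mul, h.mul_eq_zero, act_zero, smul_zero]
  obtain ⟨y, hy⟩ := h2 z h3
  have h4 : act (B (j + 1)) (w - x • y) = 0 := by
    rw [map_sub, map_smul, hy, hz, sub_self]
  obtain ⟨u, hu⟩ := h1 _ h4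
  refine ⟨fun i => Submodule.Quotient.mk (u i), ?_⟩
  rw [mk_act, hu]
  funext i
  rw [← mk_add_smul x ((w - x • y) i) (y i)]
  simp

theorem IsRes.hom_eq_zero (h : IsRes n B ε) {N : Type v} [AddCommGroup N] [Module R N]
    (hN : ExN n B N 0) (f : M →ₗ[R] N) : f = 0 := by
  have h1 : act (B 1) (fun i => f (ε (Pi.single i 1))) = 0 := by
    funext i
    rw [act_apply]
    refine (sum_smul_single (f ∘ₗ ε) (B 1 i)).trans ?_
    have h3 : ε (B 1 i) = 0 := (h.ker _).2 ⟨Pi.single i 1, by
      rw [Matrix.single_one_vecMul]; rfl⟩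
    rw [LinearMap.comp_apply, h3, map_zero]
    rfl
  obtain ⟨u, hu⟩ := hN _ h1
  rw [act_of_isEmpty _ h.zero] at hu
  apply LinearMap.ext
  intro m
  obtain ⟨v, rfl⟩ := h.surj m
  rw [← LinearMap.comp_apply, ← sum_smul_single (f ∘ₗ ε) v]
  refine Finset.sum_eq_zero fun j _ => ?_
  have := congrFun hu j
  rw [LinearMap.comp_apply, ← this]
  exact smul_zero _

/-- Rees' theorem, converse -/
theorem IsRes.exists_regular [IsNoetherianRing R] (h : IsRes n B ε) {N : Type v} [AddCommGroup N]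
    [Module R N] [Module.Finite R N] (d : ℕ) (hN : ∀ j < d, ExN n B N j) :
    ∃ rs : List R, rs.length = d ∧ (∀ r ∈ rs, r ∈ Module.annihilator R M) ∧
      IsWeaklyRegular N rs := by
  have hM : Module.Finite R M := Module.Finite.of_surjective ε h.surj
  induction d generalizing N with
  | zero => exact ⟨[], rfl, by simp, by simp⟩
  | succ d ih =>
    have h0 : Subsingleton (M →ₗ[R] N) :=
      subsingleton_of_forall_eq 0 fun f => h.hom_eq_zero (hN 0 (by omega)) f
    obtain ⟨x, hxM, hx⟩ := IsSMulRegular.subsingleton_linearMap_iff.1 h0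
    obtain ⟨rs, h1, h2, h3⟩ := ih (N := QuotSMulTop x N)
      fun j hj => h.exN_quot hx (hN j (by omega)) (hN (j + 1) (by omega))
    refine ⟨x :: rs, by simp [h1], ?_, h3.cons hx⟩
    intro r hr
    rcases List.mem_cons.1 hr with rfl | hr
    · exact hxM
    · exact h2 r hr

/-- purity, general coefficients: if `Ext^j(M, N) = 0` for `j < d`, an element of
`N^{n (d+1)} / im` which is killed by a regular sequence of length `> d` vanishes -/
theorem IsRes.purityN (h : IsRes n B ε) (d : ℕ) {N : Type v} [AddCommGroup N] [Module R N]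
    (hN : ∀ j < d, ExN n B N j) (rs : List R) (hrs : IsWeaklyRegular N rs)
    (hlen : d < rs.length) (w : Fin (n (d + 1)) → N)
    (hw : ∀ x ∈ rs, ∃ u : Fin (n d) → N, act (B d) u = x • w) :
    ∃ u : Fin (n d) → N, act (B d) u = w := by
  induction d generalizing N rs with
  | zero =>
    cases rs with
    | nil => exact absurd hlen (by simp)
    | cons x rs =>
      rw [isWeaklyRegular_cons_iff] at hrs
      obtain ⟨u, hu⟩ := hw x (by simp)
      refine ⟨u, smul_cancel hrs.1 ?_⟩
      rw [← hu, act_of_isEmpty _ h.zero, smul_zero]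
  | succ d ih =>
    cases rs with
    | nil => exact absurd hlen (by simp)
    | cons x rs =>
      rw [isWeaklyRegular_cons_iff] at hrs
      obtain ⟨hx, hrs⟩ := hrs
      obtain ⟨u, hu⟩ := hw x (by simp)
      obtain ⟨t', ht'⟩ := ih (N := QuotSMulTop x N)
        (fun j hj => h.exN_quot hx (hN j (by omega)) (hN (j + 1) (by omega))) rs hrs
        (by simpa using hlen) (fun i => Submodule.Quotient.mk (u i)) (by
          intro y hy
          obtain ⟨v, hv⟩ := hw y (by simp [hy])
          have h1 : act (B (d + 1)) (y • u - x • v) = 0 := by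
            rw [map_sub, map_smul, map_smul, hu, hv, smul_comm, sub_self]
          obtain ⟨s, hs⟩ := hN d (by omega) _ h1
          refine ⟨fun i => Submodule.Quotient.mk (s i), ?_⟩
          rw [mk_act, hs]
          funext i
          rw [← mk_add_smul x ((y • u - x • v) i) (v i)]
          simp)
      obtain ⟨t, rfl⟩ := exists_lift_quotSMulTop x t'
      rw [mk_act] at ht'
      obtain ⟨z, hz⟩ := exists_smul_of_mk_eq x (w := u) (w' := act (B d) t)
        (fun i => (congrFun ht' i).symm)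
      refine ⟨z, smul_cancel hx ?_⟩
      rw [← hu, hz, map_add, ← act_mul, h.mul_eq_zero, act_zero, zero_add, map_smul]

/-! ### the consequences for `N = R` -/

/-- `Ext^j(M, R) = 0` for `j < grade (Ann M)` -/
theorem IsRes.exact_dual_of_grade (h : IsRes n B ε) {d : ℕ}
    (hd : GradeGE (Module.annihilator R M) d) {j : ℕ} (hj : j < d)
    (w : Fin (n (j + 1)) → R) (hw : B (j + 1) *ᵥ w = 0) : ∃ u, B j *ᵥ u = w := by
  obtain ⟨rs, h1, h2, h3⟩ := hd
  exact exN_iff.1 (h.exN_of_regular rs h3 h2 j (by omega)) w hw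

theorem extZero_of_grade {d : ℕ} (hd : GradeGE (Module.annihilator R M) d) {j : ℕ} (hj : j < d) :
    ExtZero R M j := fun _ _ _ h w hw => h.exact_dual_of_grade hd hj w hw

/-- the grade of `Ann M` is at least `d` if `Ext^j(M, R) = 0` for `j < d` -/
theorem IsRes.grade_of_exact_dual [IsNoetherianRing R] (h : IsRes n B ε) {d : ℕ}
    (hd : ∀ j < d, ∀ w, B (j + 1) *ᵥ w = 0 → ∃ u, B j *ᵥ u = w) :
    GradeGE (Module.annihilator R M) d :=
  h.exists_regular d fun j hj => exN_iff.2 (hd j hj)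

/-- purity: if `Ext^j(M, R) = 0` for `j < d` then no nonzero element of
`R^{n (d+1)} / B_d R^{n d}` (in particular of `Ext^d(M, R)`) is killed by an ideal of
grade `> d` -/
theorem IsRes.purity (h : IsRes n B ε) {d : ℕ}
    (hd : ∀ j < d, ∀ w, B (j + 1) *ᵥ w = 0 → ∃ u, B j *ᵥ u = w) {I : Ideal R}
    (hI : GradeGE I (d + 1)) (w : Fin (n (d + 1)) → R)
    (hw : ∀ x ∈ I, ∃ u, B d *ᵥ u = x • w) : ∃ u, B d *ᵥ u = w := by
  obtain ⟨rs, h1, h2, h3⟩ := hI
  obtain ⟨u, hu⟩ := h.purityN d (fun j hj => exN_iff.2 (hd j hj)) rs h3 (by omega) w (by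
    intro x hx
    obtain ⟨u, hu⟩ := hw x (h2 x hx)
    exact ⟨u, by rw [act_eq_mulVec, hu]⟩)
  exact ⟨u, by rw [← act_eq_mulVec, hu]⟩

end Pool.Agent.DQ
end

section

/-! # DQ, module HA2: grade -/

set_option autoImplicit false

open Matrix RingTheory.Sequence IsLocalRing Pointwise

universe u v w

namespace Pool.Agent.DQ

variable {R : Type u} [CommRing R]

theorem GradeGE.mono {I J : Ideal R} {d d' : ℕ} (h : GradeGE I d) (hIJ : I ≤ J) (hd : d' ≤ d) :
    GradeGE J d' := by
  obtain ⟨rs, h1, h2, h3⟩ := h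
  refine ⟨rs.take d', by simp [h1, hd], fun r hr => hIJ (h2 r (List.mem_of_mem_take hr)), ?_⟩
  rw [← List.take_append_drop d' rs] at h3
  exact ((isWeaklyRegular_append_iff _ _ _).1 h3).1

theorem isWeaklyRegular_of_subsingleton {N : Type v} [AddCommGroup N] [Module R N]
    [Subsingleton N] (rs : List R) : IsWeaklyRegular N rs := by
  refine ⟨fun i hi => ?_⟩
  have : Subsingleton (N ⧸ (Ideal.ofList (rs.take i) • ⊤ : Submodule R N)) :=
    Quotient.instSubsingletonQuotient _
  exact fun a b _ => Subsingleton.elim _ _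

theorem subsingleton_quotSMulTop {N : Type v} [AddCommGroup N] [Module R N] {x : R}
    (h : ∀ z : N, ∃ z' : N, x • z' = z) : Subsingleton (QuotSMulTop x N) := by
  refine ⟨fun a b => ?_⟩
  obtain ⟨a, rfl⟩ := Submodule.Quotient.mk_surjective _ a
  obtain ⟨b, rfl⟩ := Submodule.Quotient.mk_surjective _ b
  rw [Submodule.Quotient.eq]
  obtain ⟨z, hz⟩ := h (a - b)
  rw [← hz]
  exact Submodule.smul_mem_pointwise_smul z x ⊤ trivial

theorem GradeGE.of_top {I : Ideal R} (h : I = ⊤) (d : ℕ) : GradeGE I d := by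
  cases d with
  | zero => exact ⟨[], rfl, by simp, by simp⟩
  | succ d =>
    refine ⟨1 :: List.replicate d 1, by simp, fun r _ => by rw [h]; trivial, ?_⟩
    rw [isWeaklyRegular_cons_iff]
    refine ⟨fun a b hab => by simpa using hab, ?_⟩
    have := subsingleton_quotSMulTop (N := R) (x := (1 : R)) fun z => ⟨z, by simp⟩
    exact isWeaklyRegular_of_subsingleton _

theorem GradeGE.succ_iff {I : Ideal R} {d : ℕ} : GradeGE I (d + 1) ↔
    ∃ rs : List R, rs.length = d ∧ (∀ r ∈ rs, r ∈ I) ∧ IsWeaklyRegular R rs ∧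
      ∃ x ∈ I, IsWeaklyRegular R (rs ++ [x]) := by
  constructor
  · rintro ⟨rs, h1, h2, h3⟩
    have hne : rs ≠ [] := by
      rintro rfl
      simp at h1
    rw [← List.dropLast_append_getLast hne] at h3
    exact ⟨rs.dropLast, by simp [h1], fun r hr => h2 r (List.mem_of_mem_dropLast hr),
      ((isWeaklyRegular_append_iff _ _ _).1 h3).1, rs.getLast hne, h2 _ (List.getLast_mem hne), h3⟩
  · rintro ⟨rs, h1, h2, h3, x, hx, h4⟩
    refine ⟨rs ++ [x], by simp [h1], ?_, h4⟩
    intro r hr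
    rcases List.mem_append.1 hr with hr | hr
    · exact h2 r hr
    · rw [List.mem_singleton.1 hr]
      exact hx

/-! ### powers -/

/-- a weakly regular sequence on the two ends of a short exact sequence is weakly regular on the
middle term -/
theorem isWeaklyRegular_of_exact {N' N N'' : Type v} [AddCommGroup N'] [Module R N']
    [AddCommGroup N] [Module R N] [AddCommGroup N''] [Module R N''] {f : N' →ₗ[R] N}
    {g : N →ₗ[R] N''} (hf : Function.Injective f) (hfg : Function.Exact f g)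
    (hg : Function.Surjective g) (rs : List R) (h' : IsWeaklyRegular N' rs)
    (h'' : IsWeaklyRegular N'' rs) : IsWeaklyRegular N rs := by
  induction rs generalizing N' N N'' with
  | nil => simp
  | cons x rs ih =>
    rw [isWeaklyRegular_cons_iff] at h' h'' ⊢
    refine ⟨isSMulRegular_of_range_eq_ker hf hfg.linearMap_ker_eq.symm h'.1 h''.1, ?_⟩
    refine ih (f := QuotSMulTop.map x f) (g := QuotSMulTop.map x g) ?_
      (QuotSMulTop.map_exact x hfg hg) (QuotSMulTop.map_surjective x hg) h'.2 h''.2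
    have hz : Function.Exact (0 : PUnit.{v+1} →ₗ[R] N') f := by
      intro y
      constructor
      · intro hy
        exact ⟨0, by rw [map_zero]; exact (hf (hy.trans (map_zero f).symm)).symm⟩
      · rintro ⟨z, rfl⟩
        simp
    have := QuotSMulTop.map_first_exact_on_four_term_exact_of_isSMulRegular_last hz hfg h''.1
    rw [← LinearMap.ker_eq_bot, this.linearMap_ker_eq, LinearMap.range_eq_bot]
    exact map_zero _

theorem isWeaklyRegular_quot_pow {N : Type v} [AddCommGroup N] [Module R N] {r : R} (rs : List R)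
    (hr : IsSMulRegular N r) (h : IsWeaklyRegular (QuotSMulTop r N) rs) (l : ℕ) :
    IsWeaklyRegular (QuotSMulTop (r ^ l) N) rs := by
  induction l with
  | zero =>
    have := subsingleton_quotSMulTop (N := N) (x := r ^ 0) fun z => ⟨z, by simp⟩
    exact isWeaklyRegular_of_subsingleton _
  | succ l ih =>
    let f : QuotSMulTop (r ^ l) N →ₗ[R] QuotSMulTop (r ^ (l + 1)) N :=
      Submodule.mapQ _ _ (LinearMap.lsmul R N r) (by
        intro z hz
        obtain ⟨z', -, rfl⟩ := (Submodule.mem_smul_pointwise_iff_exists _ _ _).1 hz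
        refine (Submodule.mem_smul_pointwise_iff_exists _ _ _).2 ⟨z', trivial, ?_⟩
        rw [pow_succ', mul_smul]
        rfl)
    let g : QuotSMulTop (r ^ (l + 1)) N →ₗ[R] QuotSMulTop r N :=
      Submodule.factor (by
        intro z hz
        obtain ⟨z', -, rfl⟩ := (Submodule.mem_smul_pointwise_iff_exists _ _ _).1 hz
        refine (Submodule.mem_smul_pointwise_iff_exists _ _ _).2 ⟨r ^ l • z', trivial, ?_⟩
        simp [pow_succ', mul_smul])
    refine isWeaklyRegular_of_exact (f := f) (g := g) ?_ ?_ ?_ rs ih h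
    · rw [injective_iff_map_eq_zero]
      intro z hz
      obtain ⟨z, rfl⟩ := Submodule.Quotient.mk_surjective _ z
      have h1 : (Submodule.Quotient.mk (r • z) : QuotSMulTop (r ^ (l + 1)) N) = 0 := hz
      rw [Submodule.Quotient.mk_eq_zero, Submodule.mem_smul_pointwise_iff_exists] at h1 ⊢
      obtain ⟨z', -, hz'⟩ := h1
      refine ⟨z', trivial, hr ?_⟩
      simpa [pow_succ', mul_smul] using hz'
    · intro z
      obtain ⟨z, rfl⟩ := Submodule.Quotient.mk_surjective _ z
      constructor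
      · intro hz
        have h1 : (Submodule.Quotient.mk z : QuotSMulTop r N) = 0 := hz
        rw [Submodule.Quotient.mk_eq_zero, Submodule.mem_smul_pointwise_iff_exists] at h1
        obtain ⟨z', -, rfl⟩ := h1
        exact ⟨Submodule.Quotient.mk z', rfl⟩
      · rintro ⟨z', hz'⟩
        obtain ⟨z', rfl⟩ := Submodule.Quotient.mk_surjective _ z'
        rw [← hz']
        change (Submodule.Quotient.mk (r • z') : QuotSMulTop r N) = 0
        rw [Submodule.Quotient.mk_eq_zero]
        exact Submodule.smul_mem_pointwise_smul z' r ⊤ trivial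
    · intro z
      obtain ⟨z, rfl⟩ := Submodule.Quotient.mk_surjective _ z
      exact ⟨Submodule.Quotient.mk z, rfl⟩

/-- replace the elements of a regular sequence by powers times units -/
theorem isWeaklyRegular_powUnit {N : Type v} [AddCommGroup N] [Module R N] (rs rs' : List R)
    (h : IsWeaklyRegular N rs)
    (hh : List.Forall₂ (fun r r' : R => ∃ (c : Rˣ) (l : ℕ), ∀ z : N,
      r' • z = ((c : R) * r ^ l) • z) rs rs') : IsWeaklyRegular N rs' := by
  induction rs generalizing N rs' with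
  | nil =>
    rw [List.forall₂_nil_left_iff.1 hh]
    simp
  | cons r rs ih =>
    obtain ⟨r', rs'', ⟨c, l, hcl⟩, h2, rfl⟩ := List.forall₂_cons_left_iff.1 hh
    rw [isWeaklyRegular_cons_iff] at h ⊢
    refine ⟨?_, ?_⟩
    · intro a b hab
      have h3 : r' • a = r' • b := hab
      rw [hcl, hcl, mul_smul, mul_smul] at h3
      exact (h.1.pow l) (c.isUnit.smul_left_cancel.1 h3)
    · have heq : (r' • (⊤ : Submodule R N)) = (r ^ l) • (⊤ : Submodule R N) := by
        ext z
        rw [Submodule.mem_smul_pointwise_iff_exists, Submodule.mem_smul_pointwise_iff_exists]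
        constructor
        · rintro ⟨z', -, rfl⟩
          exact ⟨(c : R) • z', trivial, by rw [hcl, smul_smul, mul_comm]⟩
        · rintro ⟨z', -, rfl⟩
          refine ⟨((c⁻¹ : Rˣ) : R) • z', trivial, ?_⟩
          rw [hcl, smul_smul, mul_comm (c : R), mul_assoc, Units.mul_inv, mul_one]
      have h4 := isWeaklyRegular_quot_pow rs h.1 h.2 l
      rw [← (Submodule.quotEquivOfEq _ _ heq).isWeaklyRegular_congr rs] at h4
      refine ih (N := QuotSMulTop r' N) rs'' h4 (h2.imp ?_)
      rintro a b ⟨c', l', h5⟩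
      refine ⟨c', l', fun z => ?_⟩
      obtain ⟨z, rfl⟩ := Submodule.Quotient.mk_surjective _ z
      rw [← Submodule.Quotient.mk_smul, ← Submodule.Quotient.mk_smul, h5]

theorem isWeaklyRegular_pow {N : Type v} [AddCommGroup N] [Module R N] (rs : List R)
    (h : IsWeaklyRegular N rs) (k : ℕ) : IsWeaklyRegular N (rs.map (· ^ k)) := by
  apply isWeaklyRegular_powUnit rs _ h
  rw [List.forall₂_map_right_iff]
  exact List.forall₂_same.2 fun r _ => ⟨1, k, fun z => by simp⟩

theorem GradeGE.pow {I : Ideal R} {d : ℕ} (h : GradeGE I d) (k : ℕ) : GradeGE (I ^ k) d := by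
  obtain ⟨rs, h1, h2, h3⟩ := h
  refine ⟨rs.map (· ^ k), by simp [h1], ?_, isWeaklyRegular_pow rs h3 k⟩
  intro r hr
  obtain ⟨r', hr', rfl⟩ := List.mem_map.1 hr
  exact Ideal.pow_mem_pow (h2 r' hr') k

/-! ### existence of resolutions -/

section exists_isRes

variable (S : Type u) [Ring S]

theorem exists_gens [IsNoetherianRing S] {p : ℕ} {M : Type v} [AddCommGroup M] [Module S M]
    (f : (Fin p → S) →ₗ[S] M) :
    ∃ (p' : ℕ) (A' : Matrix (Fin p') (Fin p) S), ∀ v, f v = 0 ↔ ∃ u, u ᵥ* A' = v := by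
  obtain ⟨p', s, hs⟩ := Submodule.fg_iff_exists_fin_generating_family.1
    (IsNoetherian.noetherian (LinearMap.ker f))
  refine ⟨p', Matrix.of s, fun v => ?_⟩
  rw [← LinearMap.mem_ker, ← hs, Submodule.mem_span_range_iff_exists_fun]
  refine exists_congr fun u => ?_
  rw [Matrix.vecMul_eq_sum]
  rfl

/-- right multiplication by a matrix -/
def vecMulL {p q : ℕ} (A : Matrix (Fin p) (Fin q) S) : (Fin p → S) →ₗ[S] (Fin q → S) where
  toFun v := v ᵥ* A
  map_add' _ _ := Matrix.add_vecMul _ _ _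
  map_smul' _ _ := Matrix.smul_vecMul _ _ _

end exists_isRes

/-! ### prolongation of regular sequences -/

/-- if no element of `I` prolongs the regular sequence `rs` then `I` is contained in an associated
prime ideal of `R / (rs)` -/
theorem exists_prime_of_maximal [IsNoetherianRing R] {I : Ideal R} (rs : List R)
    (hrs : IsWeaklyRegular R rs) (h : ∀ x ∈ I, ¬ IsWeaklyRegular R (rs ++ [x])) :
    ∃ (p : Ideal R) (y : R), p.IsPrime ∧ I ≤ p ∧ y ∉ Ideal.ofList rs ∧
      ∀ a, a ∈ p ↔ a * y ∈ Ideal.ofList rs := by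
  let K : Submodule R R := Ideal.ofList rs • ⊤
  have hK : K = Ideal.ofList rs := by simp [K]
  have h1 : ∀ x ∈ I, ¬ IsSMulRegular (R ⧸ K) x := by
    intro x hx hreg
    apply h x hx
    rw [isWeaklyRegular_append_iff]
    exact ⟨hrs, (isWeaklyRegular_singleton_iff _ _).2 hreg⟩
  have hnt : Nontrivial (R ⧸ K) := by
    by_contra hn
    rw [not_nontrivial_iff_subsingleton] at hn
    exact h1 0 (zero_mem _) fun a b _ => Subsingleton.elim _ _
  obtain ⟨Ia, hIa⟩ := associatedPrimes.nonempty R (R ⧸ K)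
  have h2 : ∃ p ∈ associatedPrimes R (R ⧸ K), I ≤ p := by
    apply (Ideal.subset_union_prime_finite (associatedPrimes.finite R (R ⧸ K)) Ia Ia _).mp
    · rw [biUnion_associatedPrimes_eq_compl_regular R (R ⧸ K)]
      exact fun r hr ↦ h1 r hr
    · exact fun I hin _ _ ↦ IsAssociatedPrime.isPrime hin
  obtain ⟨p, hp, hIp⟩ := h2
  obtain ⟨hp1, y, hy⟩ := isAssociatedPrime_iff.1 hp
  obtain ⟨y, rfl⟩ := Submodule.Quotient.mk_surjective _ y
  have hmem : ∀ a, a ∈ p ↔ a * y ∈ Ideal.ofList rs := by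
    intro a
    rw [hy, Submodule.mem_colon_singleton, Submodule.mem_bot, ← Submodule.Quotient.mk_smul,
      Submodule.Quotient.mk_eq_zero, hK, smul_eq_mul]
  refine ⟨p, y, hp1, hIp, ?_, hmem⟩
  intro hy'
  apply hp1.ne_top
  rw [Ideal.eq_top_iff_one, hmem, one_mul]
  exact hy'

/-- over a noetherian ring an ideal has grade `≥ d` or is contained in an associated prime of
`R / (rs)`, `rs` a regular sequence of length `< d` in the ideal -/
theorem gradeGE_or_exists_prime [IsNoetherianRing R] (I : Ideal R) (d : ℕ) :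
    GradeGE I d ∨ ∃ (rs : List R) (p : Ideal R) (y : R), rs.length < d ∧ (∀ r ∈ rs, r ∈ I) ∧
      IsWeaklyRegular R rs ∧ p.IsPrime ∧ I ≤ p ∧ y ∉ Ideal.ofList rs ∧
      ∀ a, a ∈ p ↔ a * y ∈ Ideal.ofList rs := by
  induction d with
  | zero => exact Or.inl ⟨[], rfl, by simp, by simp⟩
  | succ d ih =>
    rcases ih with h | ⟨rs, p, y, h1, h2⟩
    · by_cases h' : GradeGE I (d + 1)
      · exact Or.inl h'
      · right
        obtain ⟨rs, h1, h2, h3⟩ := h
        obtain ⟨p, y, h4⟩ := exists_prime_of_maximal rs h3 (I := I) (by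
          intro x hx h5
          exact h' (GradeGE.succ_iff.2 ⟨rs, h1, h2, h3, x, hx, h5⟩))
        exact ⟨rs, p, y, by omega, h2, h3, h4⟩
    · exact Or.inr ⟨rs, p, y, by omega, h2⟩

theorem ExN.congr {n : ℕ → ℕ} {B : ∀ k, Matrix (Fin (n (k + 1))) (Fin (n k)) R} {j : ℕ}
    {N : Type v} [AddCommGroup N] [Module R N] {N' : Type w} [AddCommGroup N'] [Module R N']
    (h : ExN n B N j) (e : N ≃ₗ[R] N') : ExN n B N' j := by
  intro w hw
  obtain ⟨u, hu⟩ := h (fun i => e.symm (w i)) (by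
    refine (act_map e.symm.toLinearMap _ _).trans ?_
    rw [hw]
    funext i
    simp)
  refine ⟨fun i => e (u i), ?_⟩
  refine (act_map e.toLinearMap _ _).trans ?_
  rw [hu]
  funext i
  simp

theorem IsRes.exN_quot_list {M : Type w} [AddCommGroup M] [Module R M] {n : ℕ → ℕ}
    {B : ∀ k, Matrix (Fin (n (k + 1))) (Fin (n k)) R} {ε : (Fin (n 1) → R) →ₗ[R] M}
    (h : IsRes n B ε) (rs : List R) {N : Type v} [AddCommGroup N] [Module R N]
    (hrs : IsWeaklyRegular N rs) (d : ℕ) (hN : ∀ j < d + rs.length, ExN n B N j) :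
    ∀ j < d, ExN n B (N ⧸ (Ideal.ofList rs • ⊤ : Submodule R N)) j := by
  induction rs generalizing N with
  | nil =>
    intro j hj
    exact (hN j (by simpa using hj)).congr (Submodule.quotEquivOfEqBot _ (by simp)).symm
  | cons x rs ih =>
    rw [isWeaklyRegular_cons_iff] at hrs
    intro j hj
    refine (ih hrs.2 (fun j hj => ?_) j hj).congr
      (Submodule.quotOfListConsSMulTopEquivQuotSMulTopInner N x rs).symm
    exact h.exN_quot hrs.1 (hN j (by simp only [List.length_cons]; omega))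
      (hN (j + 1) (by simp only [List.length_cons]; omega))

/-- over a noetherian ring a regular sequence in `I` can be prolonged as long as its length is
smaller than the grade -/
theorem GradeGE.extend [IsNoetherianRing R] {I : Ideal R} {d : ℕ} (h : GradeGE I d) (rs : List R)
    (hrs : IsWeaklyRegular R rs) (hlen : rs.length < d) :
    ∃ x ∈ I, IsWeaklyRegular R (rs ++ [x]) := by
  by_contra hcon
  push Not at hcon
  obtain ⟨p, y, hp, hIp, hy, hpy⟩ := exists_prime_of_maximal rs hrs hcon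
  obtain ⟨n, B, ε, hres⟩ := exists_isRes R (R ⧸ I)
  obtain ⟨as, has, has', has''⟩ := h
  have h1 : ∀ j < d, ExN n B R j := by
    intro j hj
    refine hres.exN_of_regular as has'' ?_ j (by omega)
    intro r hr
    rw [Ideal.annihilator_quotient]
    exact has' r hr
  have h2 := hres.exN_quot_list rs hrs 1 (fun j hj => h1 j (by omega)) 0 (by omega)
  have hK : (Ideal.ofList rs • ⊤ : Submodule R R) = Ideal.ofList rs := by simp
  let φ : (R ⧸ I) →ₗ[R] (R ⧸ (Ideal.ofList rs • ⊤ : Submodule R R)) :=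
    Submodule.liftQ I (LinearMap.toSpanSingleton R _ (Submodule.Quotient.mk y)) (by
      intro a ha
      rw [LinearMap.mem_ker, LinearMap.toSpanSingleton_apply, ← Submodule.Quotient.mk_smul,
        Submodule.Quotient.mk_eq_zero, hK]
      exact (hpy a).1 (hIp ha))
  have h3 := LinearMap.congr_fun (hres.hom_eq_zero h2 φ) (Submodule.Quotient.mk 1)
  have h4 : φ (Submodule.Quotient.mk 1) = Submodule.Quotient.mk y := by
    refine (Submodule.liftQ_apply _ _ _).trans ?_
    simp
  rw [h4, LinearMap.zero_apply, Submodule.Quotient.mk_eq_zero, hK] at h3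
  exact hy h3

theorem mem_ofList_of_regular {rs : List R} {x y : R} (h : IsWeaklyRegular R (rs ++ [x]))
    (hxy : x * y ∈ Ideal.ofList rs) : y ∈ Ideal.ofList rs := by
  have h1 := (isWeaklyRegular_singleton_iff _ _).1 ((isWeaklyRegular_append_iff _ _ _).1 h).2
  have hK : (Ideal.ofList rs • ⊤ : Submodule R R) = Ideal.ofList rs := by simp
  have := mem_of_isSMulRegular_quotient_of_smul_mem h1 (x := y) (by rw [hK]; exact hxy)
  rwa [hK] at this

theorem GradeGE.mul [IsNoetherianRing R] {I J : Ideal R} {d : ℕ} (hI : GradeGE I d)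
    (hJ : GradeGE J d) : GradeGE (I * J) d := by
  rcases gradeGE_or_exists_prime (I * J) d with h | ⟨rs, p, y, h1, h2, h3, h4, h5, h6, h7⟩
  · exact h
  · exfalso
    rcases h4.mul_le.1 h5 with hp | hp
    · obtain ⟨x, hx, hx'⟩ := hI.extend rs h3 h1
      exact h6 (mem_ofList_of_regular hx' ((h7 x).1 (hp hx)))
    · obtain ⟨x, hx, hx'⟩ := hJ.extend rs h3 h1
      exact h6 (mem_ofList_of_regular hx' ((h7 x).1 (hp hx)))

theorem GradeGE.inf [IsNoetherianRing R] {I J : Ideal R} {d : ℕ} (hI : GradeGE I d)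
    (hJ : GradeGE J d) : GradeGE (I ⊓ J) d :=
  (hI.mul hJ).mono Ideal.mul_le_inf le_rfl

theorem GradeGE.of_radical [IsNoetherianRing R] {I J : Ideal R} {d : ℕ} (hI : GradeGE I d)
    (h : I ≤ J.radical) : GradeGE J d := by
  obtain ⟨k, hk⟩ := Ideal.exists_pow_le_of_le_radical_of_fg h ((isNoetherianRing_iff_ideal_fg R).1 inferInstance I)
  exact (hI.pow k).mono hk le_rfl

end Pool.Agent.DQ
end

section

/-!
# DQ, module HA1, part c: the chain map `W` and the bidual map.
-/

set_option autoImplicit false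

universe v w w'

namespace Pool.Agent.DQ

open Matrix

section W

variable {R : Type v} [Ring R] {d : ℕ} {n : ℕ → ℕ}
  {B : ∀ k, Matrix (Fin (n (k + 1))) (Fin (n k)) R} {g : ℕ → ℕ}
  {C : ∀ k, Matrix (Fin (g k)) (Fin (g (k + 1))) R} {W1 : Matrix (Fin (n (d + 1))) (Fin (g 1)) R}

theorem IsResExt.mul_eq_zero (h : IsResExt d n B g C W1) (k : ℕ) : C k * C (k + 1) = 0 := by
  rcases Nat.eq_zero_or_pos k with rfl | hk
  · exact mat_eq_of_zero_left h.zero _ _
  · refine mat_ext_col fun v => ?_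
    rw [← Matrix.mulVec_mulVec, (h.exact k hk _).2 ⟨v, rfl⟩, Matrix.zero_mulVec]

/-- a matrix killed by `C k` from the left factors through `C (k+1)` -/
theorem IsResExt.exists_factor (h : IsResExt d n B g C W1) {k : ℕ} (hk : 1 ≤ k) {a : ℕ}
    (X : Matrix (Fin (g (k + 1))) (Fin a) R)
    (hX : C k * X = 0) : ∃ Z : Matrix (Fin (g (k + 2))) (Fin a) R, C (k + 1) * Z = X := by
  refine exists_col_lift X (C (k + 1)) fun v => ?_
  refine (h.exact k hk _).1 ?_
  rw [Matrix.mulVec_mulVec, hX, Matrix.zero_mulVec]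

/-- recursive choice of the chain map `W` -/
noncomputable def wRec (d : ℕ) (n : ℕ → ℕ)
    (B : ∀ k, Matrix (Fin (n (k + 1))) (Fin (n k)) R) (g : ℕ → ℕ)
    (C : ∀ k, Matrix (Fin (g k)) (Fin (g (k + 1))) R) (W1 : Matrix (Fin (n (d + 1))) (Fin (g 1)) R) :
    ∀ k j, j + k = d + 2 → Matrix (Fin (n j)) (Fin (g k)) R
  | 0, _, _ => 0
  | 1, j, h => (show j = d + 1 by omega) ▸ W1
  | (k + 2), j, _ => Classical.epsilon fun X =>
      B j * X = wRec d n B g C W1 (k + 1) (j + 1) (by omega) * C (k + 1)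

/-- existence of the chain map `W` in the definition of `BidualBij` -/
theorem exists_W (h : IsResExt d n B g C W1)
    (hex : ∀ j < d, ∀ w, B (j + 1) *ᵥ w = 0 → ∃ u, B j *ᵥ u = w) :
    ∃ W : ∀ j k, j + k = d + 2 → Matrix (Fin (n j)) (Fin (g k)) R,
      W (d + 1) 1 (by omega) = W1 ∧
      ∀ j k (h : j + k = d + 1), W (j + 1) k (by omega) * C k = B j * W j (k + 1) (by omega) := by
  refine ⟨fun j k h => wRec d n B g C W1 k j h, rfl, fun j k => ?_⟩
  induction k generalizing j with
  | zero =>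
    intro hj
    obtain rfl : j = d + 1 := by omega
    change (0 : Matrix _ _ R) * C 0 = B (d + 1) * W1
    rw [Matrix.zero_mul]
    exact h.cocycle.symm
  | succ k ih =>
    intro hj
    have key : ∃ X, B j * X = wRec d n B g C W1 (k + 1) (j + 1) (by omega) * C (k + 1) := by
      refine exists_col_lift _ (B j) fun v => ?_
      rcases Nat.eq_zero_or_pos k with rfl | hk
      · obtain rfl : j = d := by omega
        have : wRec j n B g C W1 (0 + 1) (j + 1) (by omega) = W1 := rfl
        rw [this, ← Matrix.mulVec_mulVec]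
        obtain ⟨t, ht⟩ := (h.ker _).2 ⟨v, rfl⟩
        exact ⟨t, ht.symm⟩
      · refine hex j (by omega) _ ?_
        have e := ih (j + 1) (by omega)
        dsimp only at e
        rw [Matrix.mulVec_mulVec, ← Matrix.mul_assoc, ← e, Matrix.mul_assoc, h.mul_eq_zero,
          Matrix.mul_zero, Matrix.zero_mulVec]
    exact (Classical.epsilon_spec key).symm

end W

end Pool.Agent.DQ
end

section

/-! # DQ, module G, task GA6: a regular sequence of monic polynomials and a function of the parameters -/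

set_option autoImplicit false

open Set RingTheory.Sequence IsLocalRing

universe u v w

namespace Pool.Agent.DQ

private theorem GA6_choose {α : Type u} {β : Type v} {P : α → β → Prop} (vs : List α)
    (h : ∀ v ∈ vs, ∃ f, P v f) : ∃ fs, List.Forall₂ P vs fs := by
  induction vs with
  | nil => exact ⟨[], List.Forall₂.nil⟩
  | cons v vs ih =>
    obtain ⟨f, hf⟩ := h v (by simp)
    obtain ⟨fs, hfs⟩ := ih fun w hw => h w (by simp [hw])
    exact ⟨f :: fs, List.Forall₂.cons hf hfs⟩

private theorem GA6_act {R : Type u} [CommRing R] {J : Ideal R} {x y : R} (h : x - y ∈ J)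
    (z : R ⧸ (J • ⊤ : Submodule R R)) : x • z = y • z := by
  rw [← sub_eq_zero, ← sub_smul]
  obtain ⟨b, rfl⟩ := Submodule.Quotient.mk_surjective _ z
  rw [← Submodule.Quotient.mk_smul, Submodule.Quotient.mk_eq_zero]
  exact Submodule.smul_mem_smul h trivial

private theorem GA6_pow {R : Type u} [CommRing R] (ss vs fs : List R)
    (h : IsWeaklyRegular R (ss ++ vs))
    (hf : List.Forall₂ (fun v f : R => ∃ (c : Rˣ) (l : ℕ), f - (c : R) * v ^ l ∈ Ideal.ofList ss)
      vs fs) : IsWeaklyRegular R (ss ++ fs) := by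
  rw [isWeaklyRegular_append_iff] at h ⊢
  refine ⟨h.1, isWeaklyRegular_powUnit vs fs h.2 (hf.imp ?_)⟩
  rintro v f ⟨c, l, hcl⟩
  exact ⟨c, l, fun z => GA6_act hcl z⟩

/-- **Grade `≥ d + 1` from `d` monic polynomials and one more element.**

Proof. If for some member the exponent is `0` then the member of `I` is a unit: `a = c + (element of Ideal.ofList ts)`, `Ideal.ofList ts ≤ m` (`hm`), so `a` is a unit and `I = ⊤`: `GradeGE.of_top`. The same for the `f`'s
(`Ideal.ofList (ts ++ [t]) ≤ m`). So all exponents are positive (elements of `m`). Choose the list `fs` (`List.Forall₂`), all members in `I`.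
(1) `ts ++ (t :: vs)` is regular, so with `N = R ⧸ (ofList (ts ++ [t]))` (as a module, `R ⧸ (ofList (ts ++ [t]) • ⊤)`), `vs` is weakly regular on `N` (`isWeaklyRegular_append_iff`), and on `N` the element `f` acts as
`c * v ^ l` (the difference lies in the ideal). `isWeaklyRegular_powUnit` (module HA2): `fs` is weakly regular on `N`. So `ts ++ (t :: fs)` is weakly regular on `R`.
(2) So `t :: fs` is weakly regular on `R ⧸ (ofList ts)`; all elements are in `m`; over a noetherian local ring one may permute (`RingTheory.Sequence.IsWeaklyRegular.of_perm_of_subset_jacobson_annihilator` or the variant for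
local rings in `Mathlib.RingTheory.Regular.RegularSequence`; the module is finite): `fs ++ [t]` is weakly regular on `R ⧸ (ofList ts)`. So `t` is regular on `R ⧸ (ofList (ts ++ fs))`, where `a` acts as `c * t ^ l`: so `a` is
regular there (`isWeaklyRegular_powUnit` with lists of length one). So `ts ++ (fs ++ [a])` is weakly regular on `R`.
(3) Permute again: `(fs ++ [a]) ++ ts` is weakly regular, so `fs ++ [a]` is weakly regular (`isWeaklyRegular_append_iff`), it is contained in `I` and its length is `vs.length + 1`. -/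
theorem gradeGE_monic_succ {R : Type u} [CommRing R] [IsNoetherianRing R] [IsLocalRing R] (ts : List R) (t : R)
    (vs : List R) (hreg : IsWeaklyRegular R (ts ++ t :: vs)) (hm : ∀ r ∈ ts ++ t :: vs, r ∈ maximalIdeal R)
    (I : Ideal R) (ha : ∃ a ∈ I, ∃ (c : Rˣ) (l : ℕ), a - (c : R) * t ^ l ∈ Ideal.ofList ts)
    (hI : ∀ v ∈ vs, ∃ f ∈ I, ∃ (c : Rˣ) (l : ℕ), f - (c : R) * v ^ l ∈ Ideal.ofList (ts ++ [t])) :
    GradeGE I (vs.length + 1) := by
  by_cases htop : I = ⊤
  · exact GradeGE.of_top htop _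
  have hIm : I ≤ maximalIdeal R := IsLocalRing.le_maximalIdeal htop
  obtain ⟨a, haI, ca, la, hacl⟩ := ha
  obtain ⟨fs, hfs⟩ := GA6_choose (P := fun v f : R => f ∈ I ∧ ∃ (c : Rˣ) (l : ℕ),
    f - (c : R) * v ^ l ∈ Ideal.ofList (ts ++ [t])) vs fun v hv => by
      obtain ⟨f, hf, h⟩ := hI v hv
      exact ⟨f, hf, h⟩
  have hfI : ∀ f ∈ fs, f ∈ I := by
    have h1 : List.Forall₂ (fun _ f : R => f ∈ I) vs fs := hfs.imp fun v f h => h.1
    clear hfs hI hreg hm
    induction h1 with
    | nil => simp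
    | cons h _ ih =>
      intro f hf
      rcases List.mem_cons.1 hf with rfl | hf
      · exact h
      · exact ih f hf
  have hlen : vs.length = fs.length := hfs.length_eq
  have hts : ∀ r ∈ ts, r ∈ maximalIdeal R := fun r hr => hm r (by simp [hr])
  have ht : t ∈ maximalIdeal R := hm t (by simp)
  -- first step
  have h1 : IsWeaklyRegular R ((ts ++ [t]) ++ fs) := by
    refine GA6_pow (ts ++ [t]) vs fs ?_ (hfs.imp fun v f h => h.2)
    rw [List.append_assoc]
    exact hreg
  -- second step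
  have h2 : IsWeaklyRegular R ((ts ++ fs) ++ [t]) := by
    refine IsLocalRing.isWeaklyRegular_of_perm_of_subset_maximalIdeal h1 ?_ ?_
    · rw [List.append_assoc, List.append_assoc]
      exact List.Perm.append_left ts List.perm_append_comm
    · intro r hr
      rcases List.mem_append.1 hr with hr | hr
      · rcases List.mem_append.1 hr with hr | hr
        · exact hts r hr
        · rw [List.mem_singleton.1 hr]
          exact ht
      · exact hIm (hfI r hr)
  have h3 : IsWeaklyRegular R ((ts ++ fs) ++ [a]) := by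
    refine GA6_pow (ts ++ fs) [t] [a] h2 (List.Forall₂.cons ⟨ca, la, ?_⟩ List.Forall₂.nil)
    rw [Ideal.ofList_append]
    exact Ideal.mem_sup_left hacl
  -- third step
  have h4 : IsWeaklyRegular R ((fs ++ [a]) ++ ts) := by
    refine IsLocalRing.isWeaklyRegular_of_perm_of_subset_maximalIdeal h3 ?_ ?_
    · rw [List.append_assoc]
      exact List.perm_append_comm
    · intro r hr
      rcases List.mem_append.1 hr with hr | hr
      · rcases List.mem_append.1 hr with hr | hr
        · exact hts r hr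
        · exact hIm (hfI r hr)
      · rw [List.mem_singleton.1 hr]
        exact hIm haI
  refine ⟨fs ++ [a], by simp [hlen], ?_, ((isWeaklyRegular_append_iff R _ _).1 h4).1⟩
  intro r hr
  rcases List.mem_append.1 hr with hr | hr
  · exact hfI r hr
  · rw [List.mem_singleton.1 hr]
    exact haI

end Pool.Agent.DQ
end
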