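import Mathlib
import Pool.Agent.Lib.MP_4aa2a9_ag.Mg.G018
import Pool.Agent.DQ.Mg_MP_4aa2a9_ag.G003
import Pool.Agent.Lib.MP_4aa2a9_ag.Mg.G001
import Pool.Agent.Lib.MP_4aa2a9_ag.Mg.G004

section

/-!
# DQ, module HA1, part e: reduction modulo a central regular element of the radical, Nakayama.
-/

set_option autoImplicit false

universe v w w' u

namespace Pool.Agent.DQ

open Matrix MulOpposite

/-- `π : R → S` is the reduction modulo the central regular element `h` of the radical of `R` -/
structure HRed {R : Type v} {S : Type u} [Ring R] [CommRing S] (h : R) (π : R →+* S) : Prop where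
  comm : ∀ a, h * a = a * h
  reg : ∀ a, h * a = 0 → a = 0
  surj : Function.Surjective π
  ker : ∀ a, π a = 0 ↔ ∃ b, a = h * b
  unit : ∀ a, IsUnit (1 + h * a)

/-- `ρ : M → M₀` is the reduction modulo `h` of the module `M` -/
structure HRedMod {R : Type v} {S : Type u} [Ring R] [CommRing S] (h : R) (π : R →+* S)
    {M : Type w} {M₀ : Type w'} [AddCommGroup M] [Module R M] [AddCommGroup M₀] [Module S M₀]
    (ρ : M → M₀) : Prop where
  add : ∀ m m', ρ (m + m') = ρ m + ρ m'
  smul : ∀ (a : R) m, ρ (a • m) = π a • ρ m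
  surj : Function.Surjective ρ
  ker : ∀ m, ρ m = 0 ↔ ∃ m', m = h • m'

section nakayama

variable {R : Type v} [Ring R] {h : R}

theorem mem_jacobson_of_unit (hc : ∀ a, h * a = a * h) (hu : ∀ a, IsUnit (1 + h * a)) :
    h ∈ Ring.jacobson R := by
  rw [← Ideal.jacobson_bot, Ideal.mem_jacobson_iff]
  intro y
  obtain ⟨u, hu⟩ := hu y
  refine ⟨((u⁻¹ : Rˣ) : R), ?_⟩
  have e : ((u⁻¹ : Rˣ) : R) * y * h + ((u⁻¹ : Rˣ) : R) = 1 := by
    rw [mul_assoc, ← hc]
    calc ((u⁻¹ : Rˣ) : R) * (h * y) + ((u⁻¹ : Rˣ) : R)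
        = ((u⁻¹ : Rˣ) : R) * (1 + h * y) := by rw [mul_add, mul_one, add_comm]
      _ = 1 := by rw [← hu, Units.inv_mul]
  rw [e, sub_self]
  exact Ideal.zero_mem _

/-- Nakayama's lemma for left modules -/
theorem nakayama (hc : ∀ a, h * a = a * h) (hu : ∀ a, IsUnit (1 + h * a)) {M : Type w}
    [AddCommGroup M] [Module R M] (Z Y : Submodule R M) (hZ : Z.FG)
    (H : ∀ z ∈ Z, ∃ y ∈ Y, ∃ z' ∈ Z, z = y + h • z') : Z ≤ Y := by
  have h1 : Z.map Y.mkQ = ⊥ := by
    refine (hZ.map Y.mkQ).eq_bot_of_le_jacobson_smul ?_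
    rintro _ ⟨z, hz, rfl⟩
    obtain ⟨y, hy, z', hz', rfl⟩ := H z hz
    have e : Y.mkQ (y + h • z') = h • Y.mkQ z' := by
      rw [map_add, map_smul, show Y.mkQ y = 0 by simpa using hy, zero_add]
    rw [e]
    exact Submodule.smul_mem_smul (mem_jacobson_of_unit hc hu) ⟨z', hz', rfl⟩
  intro z hz
  have h2 : Y.mkQ z ∈ Z.map Y.mkQ := ⟨z, hz, rfl⟩
  rw [h1, Submodule.mem_bot] at h2
  simpa using h2

end nakayama

section red

variable {R : Type v} {S : Type u} [Ring R] [CommRing S] {h : R} {π : R →+* S}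

/-- the reduction of the opposite ring -/
def opHom (π : R →+* S) : Rᵐᵒᵖ →+* S where
  toFun a := π a.unop
  map_one' := by simp
  map_mul' a b := by simp [mul_comm]
  map_zero' := by simp
  map_add' a b := by simp

/-- the opposite reduction -/
theorem HRed.opp (H : HRed h π) : HRed (MulOpposite.op h) (opHom π) where
  comm a := unop_injective (H.comm _).symm
  reg a ha := by
    refine unop_injective (H.reg _ ?_)
    rw [H.comm]
    exact congrArg unop ha
  surj s := by
    obtain ⟨a, ha⟩ := H.surj s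
    exact ⟨op a, ha⟩
  ker a := by
    refine (H.ker a.unop).trans ⟨?_, ?_⟩
    · rintro ⟨b, hb⟩
      exact ⟨op b, unop_injective (hb.trans (H.comm b))⟩
    · rintro ⟨b, hb⟩
      exact ⟨b.unop, (congrArg unop hb).trans (H.comm _).symm⟩
  unit a := by
    have e : MulOpposite.op h * a = MulOpposite.op (h * a.unop) :=
      unop_injective (H.comm _).symm
    rw [e, ← op_one, ← op_add]
    exact (H.unit a.unop).op

variable {a b c : ℕ}

/-- `π` applied to the coordinates commutes with row maps -/
theorem map_vecMul (π : R →+* S) (v : Fin a → R) (X : Matrix (Fin a) (Fin b) R) :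
    (fun i => π ((v ᵥ* X) i)) = (fun i => π (v i)) ᵥ* X.map π := by
  ext j
  simp [Matrix.vecMul, dotProduct, map_sum]

theorem map_mulVec (π : R →+* S) (v : Fin b → R) (X : Matrix (Fin a) (Fin b) R) :
    (fun i => π ((X *ᵥ v) i)) = X.map π *ᵥ (fun i => π (v i)) := by
  ext j
  simp [Matrix.mulVec, dotProduct, map_sum]

/-- lifting of vectors -/
theorem HRed.lift_vec (H : HRed h π) (v : Fin a → S) : ∃ w : Fin a → R, (fun i => π (w i)) = v := by
  choose w hw using fun i => H.surj (v i)
  exact ⟨w, funext hw⟩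

theorem HRed.vec_ker (H : HRed h π) (v : Fin a → R) (hv : (fun i => π (v i)) = 0) :
    ∃ w : Fin a → R, v = h • w := by
  choose w hw using fun i => (H.ker (v i)).1 (congrFun hv i)
  exact ⟨w, funext hw⟩

theorem HRed.map_h (H : HRed h π) : π h = 0 := (H.ker h).2 ⟨1, by rw [mul_one]⟩

theorem HRed.vec_ker_iff (H : HRed h π) (v : Fin a → R) :
    (fun i => π (v i)) = 0 ↔ ∃ w : Fin a → R, v = h • w := by
  refine ⟨H.vec_ker v, ?_⟩
  rintro ⟨w, rfl⟩
  ext i
  simp [H.map_h]

theorem HRed.smul_inj (H : HRed h π) (v : Fin a → R) (hv : h • v = 0) : v = 0 :=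
  funext fun i => H.reg _ (congrFun hv i)

theorem HRed.smul_vecMul (_ : HRed h π) (v : Fin a → R) (X : Matrix (Fin a) (Fin b) R) :
    (h • v) ᵥ* X = h • (v ᵥ* X) := by
  ext j
  simp [Matrix.vecMul, dotProduct, Finset.mul_sum, mul_assoc]

theorem HRed.mulVec_smul (H : HRed h π) (v : Fin b → R) (X : Matrix (Fin a) (Fin b) R) :
    X *ᵥ (h • v) = h • (X *ᵥ v) := by
  ext j
  simp only [Matrix.mulVec, dotProduct, Pi.smul_apply, smul_eq_mul, Finset.mul_sum]
  refine Finset.sum_congr rfl fun i _ => ?_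
  rw [← mul_assoc, ← H.comm, mul_assoc]

/-- exactness of a row complex modulo `h` implies exactness -/
theorem HRed.row_exact (H : HRed h π) [IsNoetherianRing R] {X : Matrix (Fin b) (Fin a) R}
    {Y : Matrix (Fin c) (Fin b) R} (hYX : Y * X = 0)
    (hex : ∀ v : Fin b → S, v ᵥ* X.map π = 0 → ∃ u, u ᵥ* Y.map π = v) (v : Fin b → R)
    (hv : v ᵥ* X = 0) : ∃ u, u ᵥ* Y = v := by
  have key : LinearMap.ker (Matrix.vecMulLinear X) ≤ LinearMap.range (Matrix.vecMulLinear Y) := by
    refine nakayama H.comm H.unit _ _ (IsNoetherian.noetherian _) fun z hz => ?_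
    have hz' : z ᵥ* X = 0 := hz
    obtain ⟨u, hu⟩ := hex (fun i => π (z i)) (by
      rw [← map_vecMul, hz']
      ext i
      simp)
    obtain ⟨u', rfl⟩ := H.lift_vec u
    obtain ⟨w, hw⟩ := H.vec_ker (z - u' ᵥ* Y) (by
      have e : (fun i => π ((z - u' ᵥ* Y) i)) = (fun i => π (z i)) - fun i => π ((u' ᵥ* Y) i) := by
        ext i
        simp
      rw [e, map_vecMul, hu, sub_self])
    refine ⟨u' ᵥ* Y, ⟨u', rfl⟩, w, ?_, by rw [← hw]; abel⟩
    refine H.smul_inj _ ?_
    change h • (w ᵥ* X) = 0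
    rw [← H.smul_vecMul, ← hw, Matrix.sub_vecMul, hz', Matrix.vecMul_vecMul, hYX,
      Matrix.vecMul_zero, sub_zero]
  exact key hv

/-- exactness of a column complex modulo `h` implies exactness -/
theorem HRed.col_exact (H : HRed h π) [IsNoetherianRing Rᵐᵒᵖ] {X : Matrix (Fin a) (Fin b) R}
    {Y : Matrix (Fin b) (Fin c) R} (hXY : X * Y = 0)
    (hex : ∀ v : Fin b → S, X.map π *ᵥ v = 0 → ∃ u, Y.map π *ᵥ u = v) (v : Fin b → R)
    (hv : X *ᵥ v = 0) : ∃ u, Y *ᵥ u = v := by
  let Z : Submodule Rᵐᵒᵖ (Fin b → R) :=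
    { carrier := {v | X *ᵥ v = 0}
      add_mem' := fun {v w} hv hw => by
        change X *ᵥ (v + w) = 0
        rw [Matrix.mulVec_add, show X *ᵥ v = 0 from hv, show X *ᵥ w = 0 from hw, add_zero]
      zero_mem' := Matrix.mulVec_zero _
      smul_mem' := fun r v hv => by
        change X *ᵥ (r • v) = 0
        rw [Matrix.mulVec_smul, show X *ᵥ v = 0 from hv, smul_zero] }
  let I : Submodule Rᵐᵒᵖ (Fin b → R) :=
    { carrier := {v | ∃ u, Y *ᵥ u = v}
      add_mem' := fun {v w} hv hw => by
        obtain ⟨s, hs⟩ := hv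
        obtain ⟨t, ht⟩ := hw
        exact ⟨s + t, by rw [Matrix.mulVec_add, hs, ht]⟩
      zero_mem' := ⟨0, Matrix.mulVec_zero _⟩
      smul_mem' := fun r v hv => by
        obtain ⟨s, hs⟩ := hv
        exact ⟨r • s, by rw [Matrix.mulVec_smul, hs]⟩ }
  have hop : ∀ w : Fin b → R, (MulOpposite.op h) • w = h • w := fun w => by
    ext i
    exact (H.comm _).symm
  have key : Z ≤ I := by
    refine nakayama H.opp.comm H.opp.unit _ _ ?_ fun z hz => ?_
    · obtain ⟨m, X', hX'⟩ := exists_cols Z
      have : Z = Submodule.span Rᵐᵒᵖ (Set.range fun i : Fin m => X'.col i) := by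
        refine le_antisymm (fun z hz => ?_) ?_
        · obtain ⟨u, rfl⟩ := (hX' z).1 hz
          rw [Submodule.mem_span_range_iff_exists_fun]
          refine ⟨fun i => MulOpposite.op (u i), ?_⟩
          ext j
          simp [Matrix.mulVec, dotProduct, Finset.sum_apply]
        · rw [Submodule.span_le]
          rintro _ ⟨i, rfl⟩
          exact (hX' _).2 ⟨Pi.single i 1, by simp⟩
      rw [this]
      exact Submodule.fg_span (Set.finite_range _)
    · have hz' : X *ᵥ z = 0 := hz
      obtain ⟨u, hu⟩ := hex (fun i => π (z i)) (by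
        rw [← map_mulVec, hz']
        ext i
        simp)
      obtain ⟨u', rfl⟩ := H.lift_vec u
      obtain ⟨w, hw⟩ := H.vec_ker (z - Y *ᵥ u') (by
        have e : (fun i => π ((z - Y *ᵥ u') i)) = (fun i => π (z i)) - fun i => π ((Y *ᵥ u') i) := by
          ext i
          simp
        rw [e, map_mulVec, hu, sub_self])
      refine ⟨Y *ᵥ u', ⟨u', rfl⟩, w, ?_, by rw [hop, ← hw]; abel⟩
      refine H.smul_inj _ ?_
      change h • (X *ᵥ w) = 0
      rw [← H.mulVec_smul, ← hw, Matrix.mulVec_sub, hz', Matrix.mulVec_mulVec, hXY,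
        Matrix.zero_mulVec, sub_zero]
  exact key hv

end red

end Pool.Agent.DQ
end

section

/-!
# DQ, module HA1, part f: reduction of resolutions modulo `h`; the theorem (P0).
-/

set_option autoImplicit false

universe v w w' u

namespace Pool.Agent.DQ

open Matrix MulOpposite

section

variable {R : Type v} {S : Type u} [Ring R] [CommRing S] {h : R} {π : R →+* S}
variable {M : Type w} {M₀ : Type w'} [AddCommGroup M] [Module R M] [AddCommGroup M₀] [Module S M₀]
  {ρ : M → M₀}
variable {n : ℕ → ℕ} {B : ∀ k, Matrix (Fin (n (k + 1))) (Fin (n k)) R}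
  {ε : (Fin (n 1) → R) →ₗ[R] M}

theorem HRedMod.map_zero (hρ : HRedMod h π ρ) : ρ 0 = 0 := (hρ.ker 0).2 ⟨0, by rw [smul_zero]⟩

theorem HRedMod.map_sum (hρ : HRedMod h π ρ) {ι : Type*} (s : Finset ι) (f : ι → M) :
    ρ (∑ i ∈ s, f i) = ∑ i ∈ s, ρ (f i) := by
  classical
  induction s using Finset.induction_on with
  | empty => simpa using hρ.map_zero
  | insert a s ha ih => rw [Finset.sum_insert ha, Finset.sum_insert ha, hρ.add, ih]

/-- the reduction of the map `ε` -/
theorem HRedMod.exists_eps (hρ : HRedMod h π ρ) {a : ℕ} (ε : (Fin a → R) →ₗ[R] M) :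
    ∃ ε₀ : (Fin a → S) →ₗ[S] M₀, ∀ v : Fin a → R, ε₀ (fun i => π (v i)) = ρ (ε v) := by
  refine ⟨Fintype.linearCombination S fun i => ρ (ε (Pi.single i 1)), fun v => ?_⟩
  rw [Fintype.linearCombination_apply]
  have e2 : v = ∑ i, v i • (Pi.single i (1 : R) : Fin a → R) := by
    ext j
    simp [Finset.sum_apply, Pi.single_apply]
  conv_rhs => rw [e2, _root_.map_sum, hρ.map_sum]
  refine Finset.sum_congr rfl fun i _ => ?_
  rw [map_smul, hρ.smul]

theorem map_sub_fun (π : R →+* S) {a : ℕ} (v w : Fin a → R) :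
    (fun i => π ((v - w) i)) = (fun i => π (v i)) - fun i => π (w i) := by
  ext i
  simp

theorem HRedMod.neg (hρ : HRedMod h π ρ) (m : M) : ρ (-m) = - ρ m := by
  have := hρ.add m (-m)
  rw [add_neg_cancel, hρ.map_zero] at this
  exact (neg_eq_of_add_eq_zero_right this.symm).symm

theorem HRedMod.sub (hρ : HRedMod h π ρ) (m m' : M) : ρ (m - m') = ρ m - ρ m' := by
  rw [sub_eq_add_neg, hρ.add, hρ.neg, sub_eq_add_neg]

/-- the reduction of a resolution of a torsion-free module is an exact row complex -/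
theorem HRed.rowRes (H : HRed h π) (hres : IsRes n B ε) (tf : ∀ m : M, h • m = 0 → m = 0) :
    RowRes n (fun k => (B k).map π) where
  zero := hres.zero
  exact k hk v := by
    constructor
    · intro hv
      obtain ⟨v, rfl⟩ := H.lift_vec v
      rw [← map_vecMul] at hv
      obtain ⟨y, hy⟩ := H.vec_ker _ hv
      -- `y` is a row with `y B_{k-1} = 0` (or `ε y = 0`), so `y = z B_k`
      have hz : ∃ z, z ᵥ* B k = y := by
        obtain ⟨l, rfl⟩ : ∃ l, k = l + 1 := ⟨k - 1, by omega⟩
        rcases Nat.eq_zero_or_pos l with rfl | hl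
        · refine (hres.ker y).1 (tf _ ?_)
          rw [← map_smul, ← hy]
          exact hres.eps_one v
        · refine (hres.exact l hl y).1 (H.smul_inj _ ?_)
          rw [← H.smul_vecMul, ← hy, Matrix.vecMul_vecMul, hres.mul_eq_zero, Matrix.vecMul_zero]
      obtain ⟨z, rfl⟩ := hz
      have h0 : (v - h • z) ᵥ* B k = 0 := by
        rw [Matrix.sub_vecMul, hy, H.smul_vecMul, sub_self]
      obtain ⟨u, hu⟩ := (hres.exact k hk _).1 h0
      refine ⟨fun i => π (u i), ?_⟩
      rw [← map_vecMul, hu, map_sub_fun, (H.vec_ker_iff (h • z)).2 ⟨z, rfl⟩, sub_zero]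
    · rintro ⟨u, rfl⟩
      rw [Matrix.vecMul_vecMul, ← Matrix.map_mul, hres.mul_eq_zero]
      simp

/-- the reduction of a resolution of a torsion-free module is a resolution -/
theorem HRed.isRes (H : HRed h π) (hres : IsRes n B ε) (tf : ∀ m : M, h • m = 0 → m = 0)
    (hρ : HRedMod h π ρ) (ε₀ : (Fin (n 1) → S) →ₗ[S] M₀)
    (hε₀ : ∀ v : Fin (n 1) → R, ε₀ (fun i => π (v i)) = ρ (ε v)) :
    IsRes n (fun k => (B k).map π) ε₀ where
  zero := hres.zero
  surj m := by
    obtain ⟨m', rfl⟩ := hρ.surj m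
    obtain ⟨v, rfl⟩ := hres.surj m'
    exact ⟨_, hε₀ v⟩
  ker v := by
    obtain ⟨v, rfl⟩ := H.lift_vec v
    rw [hε₀, hρ.ker]
    constructor
    · rintro ⟨m', hm'⟩
      obtain ⟨y, rfl⟩ := hres.surj m'
      rw [← map_smul, ← sub_eq_zero, ← map_sub] at hm'
      obtain ⟨u, hu⟩ := (hres.ker _).1 hm'
      refine ⟨fun i => π (u i), ?_⟩
      rw [← map_vecMul, hu, map_sub_fun, (H.vec_ker_iff (h • y)).2 ⟨y, rfl⟩, sub_zero]
    · rintro ⟨u, hu⟩
      obtain ⟨u, rfl⟩ := H.lift_vec u
      rw [← map_vecMul] at hu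
      obtain ⟨w, hw⟩ := H.vec_ker (v - u ᵥ* B 1) (by rw [map_sub_fun, hu, sub_self])
      refine ⟨ε w, ?_⟩
      rw [← map_smul, ← hw, map_sub, hres.eps_one, sub_zero]
  exact := (H.rowRes hres tf).exact

theorem IsRes.rowRes (hres : IsRes n B ε) : RowRes n B := ⟨hres.zero, hres.exact⟩

/-- a class of `Ext^j` which is killed by a power of `h` vanishes if the dual complex is exact
modulo `h` at the place before -/
theorem HRed.tf_step (H : HRed h π) (hn : n 0 = 0) (hB : ∀ k, B (k + 1) * B k = 0) (j : ℕ)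
    (hj : ∀ i, i + 1 = j → ColEx (fun k => (B k).map π) i) (w : Fin (n (j + 1)) → R)
    (t : Fin (n j) → R) (ht : h • w = B j *ᵥ t) : ∃ t', w = B j *ᵥ t' := by
  rcases Nat.eq_zero_or_pos j with rfl | hj'
  · refine ⟨t, ?_⟩
    have e : B 0 *ᵥ t = 0 := by
      have : IsEmpty (Fin (n 0)) := by rw [hn]; infer_instance
      ext i
      simp [Matrix.mulVec, dotProduct]
    rw [e] at ht ⊢
    exact H.smul_inj _ ht
  · obtain ⟨i, rfl⟩ : ∃ i, j = i + 1 := ⟨j - 1, by omega⟩
    obtain ⟨s, hs⟩ := hj i rfl (fun i => π (t i)) (by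
      rw [← map_mulVec, ← ht]
      exact (H.vec_ker_iff _).2 ⟨w, rfl⟩)
    obtain ⟨s, rfl⟩ := H.lift_vec s
    simp only [← map_mulVec] at hs
    obtain ⟨t', ht'⟩ := H.vec_ker (t - B i *ᵥ s) (by rw [map_sub_fun, hs, sub_self])
    refine ⟨t', ?_⟩
    have e : h • w = h • (B (i + 1) *ᵥ t') := by
      rw [ht, ← H.mulVec_smul, ← ht', Matrix.mulVec_sub, Matrix.mulVec_mulVec, hB,
        Matrix.zero_mulVec, sub_zero]
    rw [← sub_eq_zero, ← smul_sub] at e
    exact sub_eq_zero.1 (H.smul_inj _ e)

/-- the same for powers -/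
theorem HRed.tf_pow (H : HRed h π) (hn : n 0 = 0) (hB : ∀ k, B (k + 1) * B k = 0) (j : ℕ)
    (hj : ∀ i, i + 1 = j → ColEx (fun k => (B k).map π) i) (m : ℕ) (w : Fin (n (j + 1)) → R)
    (t : Fin (n j) → R) (ht : h ^ m • w = B j *ᵥ t) : ∃ t', w = B j *ᵥ t' := by
  induction m generalizing t with
  | zero => exact ⟨t, by rw [← ht, pow_zero, one_smul]⟩
  | succ m ih =>
    obtain ⟨t', ht'⟩ := H.tf_step hn hB j hj (h ^ m • w) t (by rw [← ht, pow_succ', mul_smul])
    exact ih t' ht'

end

end Pool.Agent.DQ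
end

section

/-! # DQ, module H: signs -/

set_option autoImplicit false

namespace Pool.Agent.DQ.H

variable {ι : Type*} [LinearOrder ι] {G : Type*} [AddCommGroup G]

/-- the sign of the face opposite to `j` -/
def sg (j : ι) (T : Finset ι) : ℤ := (-1) ^ (T.filter (· < j)).card

/-- the differential of a cochain -/
def dC (z : Finset ι → G) (T : Finset ι) : G := ∑ j ∈ T, sg j T • z (T.erase j)

/-- the homotopy operator in the direction `i` -/
def kC (i : ι) (z : Finset ι → G) (T : Finset ι) : G :=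
  if i ∈ T then 0 else sg i (insert i T) • z (insert i T)

/-- Proof. `(-1)^k * (-1)^k = 1`: `← mul_pow`, `neg_mul_neg`, `one_pow`. -/
theorem sg_mul_self (j : ι) (T : Finset ι) : sg j T * sg j T = 1 := by
  unfold sg
  rw [← mul_pow, neg_mul_neg, one_mul, one_pow]

/-- `j` does not count for its own sign

Proof. the two filtered sets are equal (`j < j` is false). -/
theorem sg_erase_self (j : ι) (T : Finset ι) : sg j (T.erase j) = sg j T := by
  unfold sg
  congr 2
  ext x
  simp only [Finset.mem_filter, Finset.mem_erase]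
  exact ⟨fun h => ⟨h.1.2, h.2⟩, fun h => ⟨⟨ne_of_lt h.2, h.1⟩, h.2⟩⟩

theorem Alg0_aux_lt {i j : ι} (hij : i < j) {T : Finset ι} (hi : i ∈ T) :
    sg j T = - sg j (T.erase i) := by
  have h1 : (T.erase i).filter (· < j) = (T.filter (· < j)).erase i := by
    ext x
    simp only [Finset.mem_filter, Finset.mem_erase]
    tauto
  have h2 : i ∈ T.filter (· < j) := Finset.mem_filter.mpr ⟨hi, hij⟩
  have h3 := Finset.card_erase_add_one h2
  unfold sg
  rw [h1, ← h3, pow_succ]
  ring

theorem Alg0_aux_gt {i j : ι} (hij : i < j) {T : Finset ι} : sg i (T.erase j) = sg i T := by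
  unfold sg
  congr 2
  ext x
  simp only [Finset.mem_filter, Finset.mem_erase]
  exact ⟨fun h => ⟨h.1.2, h.2⟩, fun h => ⟨⟨ne_of_lt (h.2.trans hij), h.1⟩, h.2⟩⟩

theorem Alg0_aux {i j : ι} (hij : i < j) {T : Finset ι} (hi : i ∈ T) :
    sg i T * sg j (T.erase i) = - (sg j T * sg i (T.erase j)) := by
  rw [Alg0_aux_gt hij, Alg0_aux_lt hij hi]
  ring

/-- exchange of two different elements

Proof. let `i < j` (the other case follows by symmetry, `neg` both sides). Then `(T.erase i).filter (· < j) = (T.filter (· < j)).erase i` has one element less than `T.filter (· < j)` (which contains `i`), so `sg j (T.erase i) = - sg j T`, and `(T.erase j).filter (· < i) = T.filter (· < i)`. -/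
theorem sg_comm {i j : ι} (hij : i ≠ j) {T : Finset ι} (hi : i ∈ T) (hj : j ∈ T) :
    sg i T * sg j (T.erase i) = - (sg j T * sg i (T.erase j)) := by
  rcases lt_or_gt_of_ne hij with h | h
  · exact Alg0_aux h hi
  · rw [Alg0_aux h hj, neg_neg]

end Pool.Agent.DQ.H
end

section

/-! # DQ, module H: d d = 0 -/

set_option autoImplicit false

namespace Pool.Agent.DQ.H

variable {ι : Type*} [LinearOrder ι] {G : Type*} [AddCommGroup G]

/-- Proof. The double sum over pairs `(j, k)`, `j ∈ T`, `k ∈ T.erase j`, of `(sg j T * sg k (T.erase j)) • z ((T.erase j).erase k)`; the involution `(j, k) ↦ (k, j)` has no fixed point and changes the sign by `sg_comm` (`Finset.erase_right_comm`). Use `Finset.sum_sigma'` and `Finset.sum_involution`, or show that the sum `s` satisfies `s = -s` term by term and that the terms cancel in pairs (do not divide by 2, `G` may have 2-torsion). -/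
theorem dC_dC (z : Finset ι → G) (T : Finset ι) : dC (dC z) T = 0 := by
  have h1 : dC (dC z) T = ∑ p ∈ T.sigma (fun j => T.erase j),
      (sg p.1 T * sg p.2 (T.erase p.1)) • z ((T.erase p.1).erase p.2) := by
    rw [Finset.sum_sigma]
    unfold dC
    refine Finset.sum_congr rfl fun j _ => ?_
    rw [Finset.smul_sum]
    exact Finset.sum_congr rfl fun k _ => smul_smul _ _ _
  rw [h1]
  refine Finset.sum_involution (fun p _ => (⟨p.2, p.1⟩ : Sigma fun _ : ι => ι)) ?_ ?_ ?_ ?_
  · rintro ⟨j, k⟩ hp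
    rw [Finset.mem_sigma, Finset.mem_erase] at hp
    obtain ⟨hj, hkj, hk⟩ := hp
    change (sg j T * sg k (T.erase j)) • z ((T.erase j).erase k) +
      (sg k T * sg j (T.erase k)) • z ((T.erase k).erase j) = 0
    rw [Finset.erase_right_comm (a := k) (b := j), ← add_smul, sg_comm (Ne.symm hkj) hj hk,
      neg_add_cancel, zero_smul]
  · rintro ⟨j, k⟩ hp _ h
    rw [Finset.mem_sigma, Finset.mem_erase] at hp
    have h2 : k = j := congrArg Sigma.fst h
    exact hp.2.1 h2
  · rintro ⟨j, k⟩ hp
    rw [Finset.mem_sigma, Finset.mem_erase] at hp ⊢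
    exact ⟨hp.2.2, Ne.symm hp.2.1, hp.1⟩
  · rintro ⟨j, k⟩ _
    rfl

end Pool.Agent.DQ.H
end

section

/-! # DQ, module H: homotopy -/

set_option autoImplicit false

namespace Pool.Agent.DQ.H

variable {ι : Type*} [LinearOrder ι] {G : Type*} [AddCommGroup G]

/-- `d k + k d = id`

Proof. Case `i ∈ T`: the second summand is `0` and in the first one only `j = i` contributes (for `j ≠ i` the set `T.erase j` contains `i`); `insert i (T.erase i) = T`, `sg_erase_self`, `sg_mul_self`. Case `i ∉ T`: the second summand is `sg i (insert i T) • ∑_{j ∈ insert i T} sg j (insert i T) • z ((insert i T).erase j)`; the term `j = i` gives `z T`; the terms `j ∈ T` cancel with the first summand, because `(insert i T).erase j = insert i (T.erase j)` and `sg j T * sg i (insert i (T.erase j)) = - (sg i (insert i T) * sg j (insert i T))`. The latter follows from `sg_comm` (for the set `insert i T` and its elements `i`, `j`) and `sg_erase_self`, `Finset.erase_insert`, `sg_mul_self`, or directly from the cases `i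 < j`, `j < i`. -/
theorem dC_kC (i : ι) (z : Finset ι → G) (T : Finset ι) :
    dC (kC i z) T + kC i (dC z) T = z T := by
  by_cases hi : i ∈ T
  · have h1 : kC i (dC z) T = 0 := if_pos hi
    rw [h1, add_zero]
    unfold dC
    rw [Finset.sum_eq_single_of_mem i hi]
    · have h2 : kC i z (T.erase i) = sg i (insert i (T.erase i)) • z (insert i (T.erase i)) :=
        if_neg (Finset.notMem_erase i T)
      rw [h2, Finset.insert_erase hi, smul_smul, sg_mul_self, one_smul]
    · intro j _ hji
      have h2 : kC i z (T.erase j) = 0 := if_pos (Finset.mem_erase.2 ⟨Ne.symm hji, hi⟩)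
      rw [h2, smul_zero]
  · have h1 : kC i (dC z) T = sg i (insert i T) • dC z (insert i T) := if_neg hi
    rw [h1]
    unfold dC
    rw [Finset.sum_insert hi, Finset.erase_insert hi, smul_add, smul_smul, sg_mul_self, one_smul,
      Finset.smul_sum, add_left_comm, ← Finset.sum_add_distrib]
    have h3 : ∀ j ∈ T, sg j T • kC i z (T.erase j) +
        sg i (insert i T) • sg j (insert i T) • z ((insert i T).erase j) = 0 := by
      intro j hj
      have hij : i ≠ j := fun h => hi (h ▸ hj)
      have h4 : kC i z (T.erase j) = sg i (insert i (T.erase j)) • z (insert i (T.erase j)) :=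
        if_neg fun h => hi (Finset.mem_of_mem_erase h)
      have h5 : (insert i T).erase j = insert i (T.erase j) := Finset.erase_insert_of_ne hij
      have h6 := sg_comm hij (Finset.mem_insert_self i T) (Finset.mem_insert_of_mem hj)
      rw [Finset.erase_insert hi, h5] at h6
      have a2 := sg_mul_self i (insert i T)
      have e2 := sg_mul_self i (insert i (T.erase j))
      rw [h4, h5, smul_smul, smul_smul, ← add_smul]
      have h7 : sg j T * sg i (insert i (T.erase j)) + sg i (insert i T) * sg j (insert i T) = 0 := by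
        linear_combination (sg i (insert i T) * sg i (insert i (T.erase j))) * h6 -
          (sg j T * sg i (insert i (T.erase j))) * a2 -
          (sg i (insert i T) * sg j (insert i T)) * e2
      rw [h7, zero_smul]
    rw [Finset.sum_eq_zero h3, add_zero]

end Pool.Agent.DQ.H
end

section

/-! # DQ, module H: algebra of cochains -/

set_option autoImplicit false

namespace Pool.Agent.DQ.H

variable {ι : Type*} [LinearOrder ι] {G : Type*} [AddCommGroup G]

theorem dC_congr {z z' : Finset ι → G} {T : Finset ι}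
    (h : ∀ j ∈ T, z (T.erase j) = z' (T.erase j)) : dC z T = dC z' T := by
  unfold dC
  exact Finset.sum_congr rfl fun j hj => by rw [h j hj]

theorem dC_add (z z' : Finset ι → G) (T : Finset ι) :
    dC (fun T' => z T' + z' T') T = dC z T + dC z' T := by
  unfold dC
  rw [← Finset.sum_add_distrib]
  exact Finset.sum_congr rfl fun j _ => smul_add _ _ _

theorem dC_sub (z z' : Finset ι → G) (T : Finset ι) :
    dC (fun T' => z T' - z' T') T = dC z T - dC z' T := by
  unfold dC
  rw [← Finset.sum_sub_distrib]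
  exact Finset.sum_congr rfl fun j _ => smul_sub _ _ _

theorem dC_sum {κ : Type*} (s : Finset κ) (z : κ → Finset ι → G) (T : Finset ι) :
    dC (fun T' => ∑ k ∈ s, z k T') T = ∑ k ∈ s, dC (z k) T := by
  unfold dC
  rw [Finset.sum_comm]
  exact Finset.sum_congr rfl fun j _ => Finset.smul_sum

/-- naturality

Proof. `f` is a morphism of groups (`AddMonoidHom.mk'`), `map_sum`, `map_zsmul`. -/
theorem dC_map {G' : Type*} [AddCommGroup G'] (f : G → G') (hf : ∀ a b, f (a + b) = f a + f b)
    (z : Finset ι → G) (T : Finset ι) : f (dC z T) = dC (fun T' => f (z T')) T := by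
  have h1 : ∀ a, (AddMonoidHom.mk' f hf) a = f a := fun _ => rfl
  unfold dC
  rw [← h1, map_sum]
  exact Finset.sum_congr rfl fun j _ => map_zsmul (AddMonoidHom.mk' f hf) _ _

end Pool.Agent.DQ.H
end

section

/-! # DQ, module H: identity theorem -/

set_option autoImplicit false

open Set Filter Topology

universe u

namespace Pool.Agent.DQ.H

variable {V : Type u} [NormedAddCommGroup V] [NormedSpace ℂ V]

private theorem HolE_line {f : V → ℂ} {x y z : V} {r : ℝ} (hf : DifferentiableOn ℂ f (Metric.ball x r))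
    (hy : y ∈ Metric.ball x r) (hz : z ∈ Metric.ball x r)
    (h0 : ∀ᶠ t : ℂ in 𝓝 0, f (y + t • (z - y)) = 0) : f z = 0 := by
  set φ : ℂ → V := fun t => y + t • (z - y) with hφ
  have hφc : Continuous φ := by fun_prop
  have hφd : Differentiable ℂ φ := by
    rw [hφ]
    exact (differentiable_const y).add (differentiable_id.smul_const (z - y))
  set L : Set ℂ := φ ⁻¹' (Metric.ball x r) with hL
  have hLo : IsOpen L := Metric.isOpen_ball.preimage hφc
  have hLc : Convex ℝ L := by
    intro t₁ h₁ t₂ h₂ a b ha hb hab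
    have e₁ : ‖φ t₁ - x‖ < r := by rw [← dist_eq_norm]; exact h₁
    have e₂ : ‖φ t₂ - x‖ < r := by rw [← dist_eq_norm]; exact h₂
    have hb' : b = 1 - a := by linarith
    subst hb'
    have e : φ (a • t₁ + (1 - a) • t₂) - x =
        (a : ℂ) • (φ t₁ - x) + ((1 - a : ℝ) : ℂ) • (φ t₂ - x) := by
      simp only [hφ, Complex.real_smul]
      push_cast
      module
    show φ (a • t₁ + (1 - a) • t₂) ∈ Metric.ball x r
    rw [Metric.mem_ball, dist_eq_norm, e]
    have h3 := norm_add_le ((a : ℂ) • (φ t₁ - x)) (((1 - a : ℝ) : ℂ) • (φ t₂ - x))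
    rw [norm_smul, norm_smul, Complex.norm_real, Complex.norm_real, Real.norm_of_nonneg ha,
      Real.norm_of_nonneg hb] at h3
    have h4 : a * ‖φ t₁ - x‖ ≤ a * max ‖φ t₁ - x‖ ‖φ t₂ - x‖ :=
      mul_le_mul_of_nonneg_left (le_max_left _ _) ha
    have h5 : (1 - a) * ‖φ t₂ - x‖ ≤ (1 - a) * max ‖φ t₁ - x‖ ‖φ t₂ - x‖ :=
      mul_le_mul_of_nonneg_left (le_max_right _ _) hb
    have h6 : max ‖φ t₁ - x‖ ‖φ t₂ - x‖ < r := max_lt e₁ e₂
    linarith
  have hg : DifferentiableOn ℂ (fun t => f (φ t)) L :=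
    hf.comp hφd.differentiableOn (fun t ht => ht)
  have hga := hg.analyticOnNhd hLo
  have h0L : (0 : ℂ) ∈ L := by
    show φ 0 ∈ Metric.ball x r
    simp only [hφ, zero_smul, add_zero]
    exact hy
  have h1L : (1 : ℂ) ∈ L := by
    show φ 1 ∈ Metric.ball x r
    simp only [hφ, one_smul, add_sub_cancel]
    exact hz
  have h2 := hga.eqOn_zero_of_preconnected_of_eventuallyEq_zero hLc.isPreconnected h0L h0
  have h3 := h2 h1L
  simp only [hφ, one_smul, add_sub_cancel, Pi.zero_apply] at h3
  exact h3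

private theorem HolE_ball {f : V → ℂ} {x y : V} {r : ℝ} (hf : DifferentiableOn ℂ f (Metric.ball x r)) (hy : y ∈ Metric.ball x r)
    (h0 : ∀ᶠ w in 𝓝 y, f w = 0) : ∀ z ∈ Metric.ball x r, f z = 0 := by
  intro z hz
  refine HolE_line hf hy hz ?_
  have h1 : Continuous (fun t : ℂ => y + t • (z - y)) := by fun_prop
  have h2 := h1.tendsto 0
  simp only [zero_smul, add_zero] at h2
  exact h2.eventually h0

/-- identity theorem

Proof. The set `Z` of points near which `f = 0` is open; it is closed in `U`: let `x ∈ U` be a limit point, take a ball `B(x, ε) ⊆ U` on which `f` is differentiable; it contains `y ∈ Z`; for `z` in the ball `t ↦ f (y + t • (z - y))` is differentiable on the open convex set of `t : ℂ` with `y + t • (z - y)` in the ball, and zero near `t = 0`, hence zero at `t = 1` (`AnalyticOnNhd.eqOn_zero_of_preconnected_of_eventuallyEq_zero`, `DifferentiableOn.analyticOnNhd`). See `/team-store/DQ_WIdent.lean` (`ident_ball`) and `/team-store/DQ_FHol.lean` (`eqOn_of_isPreconnected`), which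 may be copied. Then `IsPreconnected.subset_of_closure_inter_subset` or `isPreconnected_iff_subset_of_disjoint`. -/
theorem ident {U : Set V} (hU : IsOpen U) (hc : IsPreconnected U) {f : V → ℂ} (hf : HolNear f U)
    {x₀ : V} (hx₀ : x₀ ∈ U) (h0 : ∀ᶠ y in 𝓝 x₀, f y = 0) : ∀ x ∈ U, f x = 0 := by
  set u : Set V := {x | ∀ᶠ y in 𝓝 x, f y = 0} with hu
  have huo : IsOpen u := isOpen_iff_mem_nhds.2 fun x hx => eventually_eventually_nhds.2 hx
  have hsub : U ⊆ u := by
    refine hc.subset_of_closure_inter_subset huo ⟨x₀, hx₀, h0⟩ ?_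
    rintro x ⟨hx, hxU⟩
    obtain ⟨ε, hε, hball⟩ := Metric.eventually_nhds_iff_ball.1 (hf x hxU)
    obtain ⟨y, hy, hyu⟩ := mem_closure_iff.1 hx (Metric.ball x ε) Metric.isOpen_ball
      (Metric.mem_ball_self hε)
    have h1 := HolE_ball (fun z hz => (hball z hz).differentiableWithinAt) hy hyu
    exact Metric.eventually_nhds_iff_ball.2 ⟨ε, hε, h1⟩
  intro x hx
  exact (hsub hx).self_of_nhds

end Pool.Agent.DQ.H
end

section

/-! # DQ, module H: sections of the structure sheaf and functions -/

set_option autoImplicit false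

open Set Filter Topology

universe u v

namespace Pool.Agent.DQ.H

variable {V : Type u} [NormedAddCommGroup V] [NormedSpace ℂ V]

/-- Proof. `gm_coe`, `Filter.Germ.value`. -/
theorem val_gm {f : V → ℂ} {x : V} (hf : HolAt f x) : val (gm f x) = f x := by
  unfold val
  rw [gm_coe hf]
  rfl

/-- a section of the structure sheaf is given by its function of values

Proof. `hs` is `∃ f, HolAt f x ∧ ∀ᶠ y in 𝓝 x, s y = gm f y`; near `x`, `val (s y) = f y` (`val_gm`, `HolAt.eventually`), so `HolAt.congr` and `gm_eq_iff`. -/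
theorem sec_val {s : (x : V) → OGerm x} {x : V} (hs : (O V).At s x) :
    HolAt (fun y => val (s y)) x ∧ s x = gm (fun y => val (s y)) x := by
  obtain ⟨f, hf, h⟩ := hs
  have h1 : f =ᶠ[𝓝 x] fun y => val (s y) := by
    filter_upwards [h, hf.eventually] with y h2 h3
    rw [h2, val_gm h3]
  have h2 : HolAt (fun y => val (s y)) x := hf.congr h1
  exact ⟨h2, h.self_of_nhds.trans ((gm_eq_iff hf h2).mpr h1)⟩

theorem val_add {x : V} (g g' : OGerm x) : val (g + g') = val g + val g' := by
  obtain ⟨f, hf, rfl⟩ := exists_gm g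
  obtain ⟨f', hf', rfl⟩ := exists_gm g'
  rw [← gm_add hf hf', val_gm hf, val_gm hf']
  exact val_gm (hf.add hf')

theorem val_zsmul {x : V} (k : ℤ) (g : OGerm x) : val (k • g) = k • val g :=
  map_zsmul (AddMonoidHom.mk' (fun g : OGerm x => val g) val_add) k g

/-- a section of the structure sheaf over an open set which is zero as a function is zero

Proof. `sec_val`: `s x = gm (fun y => val (s y)) x` and this function is zero near `x`; `gm_eq_iff`, `gm_zero`. -/
theorem sec_eq_zero {U : Set V} (hU : IsOpen U) {s : (x : V) → OGerm x}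
    (hs : ∀ x ∈ U, (O V).At s x) (h0 : ∀ x ∈ U, val (s x) = 0) : ∀ x ∈ U, s x = 0 := by
  intro x hx
  obtain ⟨h1, h2⟩ := sec_val (hs x hx)
  rw [h2, ← gm_zero x]
  refine (gm_eq_iff h1 (HolAt.const 0 x)).mpr ?_
  filter_upwards [hU.mem_nhds hx] with y hy
  exact h0 y hy

end Pool.Agent.DQ.H
end

section

/-! # DQ, module H: the subsheaf generated by finitely many sections -/

set_option autoImplicit false

open Set Filter Topology

universe u v w

namespace Pool.Agent.DQ

variable {X : Type u} [TopologicalSpace X] {R : ERing.{u, v} X}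

/-- the subsheaf generated by the sections `g i`, on the open set where they are sections -/
def EMod.imSh (M : EMod.{u, v, w} R) {n : ℕ} (g : Fin n → (x : X) → M.St x) :
    EMod.{u, v, w} R where
  dom := {x | x ∈ M.dom ∧ ∀ i, M.At (g i) x}
  dom_sub x hx := M.dom_sub hx.1
  St x := Submodule.span (R.St x) (Set.range fun i => g i x)
  At s x := (x ∈ M.dom ∧ ∀ i, M.At (g i) x) ∧ M.At (fun y => (s y : M.St y)) x
  mem_dom h := h.1
  ev := by
    rintro s x ⟨⟨h1, h2⟩, h3⟩
    have e1 : ∀ᶠ y in 𝓝 x, y ∈ M.dom := M.isOpen_dom.mem_nhds h1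
    have e2 : ∀ᶠ y in 𝓝 x, ∀ i, M.At (g i) y := eventually_all.mpr fun i => M.ev (h2 i)
    filter_upwards [e1, e2, M.ev h3] with y a b c using ⟨⟨a, b⟩, c⟩
  congr := by
    rintro s t x ⟨h1, h2⟩ h
    exact ⟨h1, M.congr h2 (h.mono fun y hy => by rw [hy])⟩
  inj := by
    rintro s t x ⟨-, h2⟩ ⟨-, h4⟩ e
    filter_upwards [M.inj h2 h4 (by rw [e])] with y hy
    exact Subtype.ext hy
  surj := by
    classical
    rintro x ⟨hx, hg⟩ ⟨m, hm⟩
    obtain ⟨s, hs, hsx⟩ := M.surj x hx m
    have hm' : s x ∈ Submodule.span (R.St x) (Set.range fun i => g i x) := by rw [hsx]; exact hm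
    have h2 := M.near_mem_span hs hg hm'
    refine ⟨fun y => if h : s y ∈ Submodule.span (R.St y) (Set.range fun i => g i y) then
      ⟨s y, h⟩ else 0, ?_, ?_⟩
    · refine ⟨⟨hx, hg⟩, M.congr hs ?_⟩
      filter_upwards [h2] with y hy
      simp [hy]
    · simp only [hsx]
      rw [dif_pos hm]
  zero x hx := ⟨hx, M.zero x hx.1⟩
  add h h' := ⟨h.1, M.add h.2 h'.2⟩
  smul h h' := ⟨h'.1, M.smul h h'.2⟩

/-- the inclusion -/
def EMod.imVal (M : EMod.{u, v, w} R) {n : ℕ} (g : Fin n → (x : X) → M.St x) (x : X) :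
    (M.imSh g).St x →ₗ[R.St x] M.St x :=
  (Submodule.span (R.St x) (Set.range fun i => g i x)).subtype

theorem EMod.imVal_injective (M : EMod.{u, v, w} R) {n : ℕ} (g : Fin n → (x : X) → M.St x)
    (x : X) : Function.Injective (M.imVal g x) :=
  Submodule.injective_subtype (Submodule.span (R.St x) (Set.range fun i => g i x))

theorem EMod.imVal_range (M : EMod.{u, v, w} R) {n : ℕ} (g : Fin n → (x : X) → M.St x) (x : X) :
    LinearMap.range (M.imVal g x) = Submodule.span (R.St x) (Set.range fun i => g i x) :=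
  Submodule.range_subtype (Submodule.span (R.St x) (Set.range fun i => g i x))

theorem EMod.imSh_at_iff {M : EMod.{u, v, w} R} {n : ℕ} {g : Fin n → (x : X) → M.St x}
    {s : (x : X) → (M.imSh g).St x} {x : X} : (M.imSh g).At s x ↔
      (x ∈ M.dom ∧ ∀ i, M.At (g i) x) ∧ M.At (fun y => M.imVal g y (s y)) x := Iff.rfl

open Classical in
/-- a section with values in the span as a section of the subsheaf -/
noncomputable def EMod.mkIm (M : EMod.{u, v, w} R) {n : ℕ} (g : Fin n → (x : X) → M.St x)
    (s : (x : X) → M.St x) (x : X) : (M.imSh g).St x :=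
  if h : s x ∈ Submodule.span (R.St x) (Set.range fun i => g i x) then
    (show (M.imSh g).St x from
      (⟨s x, h⟩ : Submodule.span (R.St x) (Set.range fun i => g i x))) else 0

/-- Proof. unfold, `dif_pos` (see `EMod.mkRel_val` in `CRel.lean`). -/
theorem EMod.mkIm_val {M : EMod.{u, v, w} R} {n : ℕ} {g : Fin n → (x : X) → M.St x}
    {s : (x : X) → M.St x} {x : X}
    (h : s x ∈ Submodule.span (R.St x) (Set.range fun i => g i x)) :
    M.imVal g x (M.mkIm g s x) = s x := by
  unfold EMod.mkIm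
  rw [dif_pos h]
  rfl

/-- Proof. near `x` the value `s y` is in the span (`EMod.near_mem_span`), so `imVal (mkIm …) = s` near `x` (see `EMod.mkRel_at`). -/
theorem EMod.mkIm_at {M : EMod.{u, v, w} R} {n : ℕ} {g : Fin n → (x : X) → M.St x}
    {s : (x : X) → M.St x} {x : X} (hx : x ∈ M.dom) (hg : ∀ i, M.At (g i) x) (hs : M.At s x)
    (h : s x ∈ Submodule.span (R.St x) (Set.range fun i => g i x)) :
    (M.imSh g).At (M.mkIm g s) x := by
  rw [EMod.imSh_at_iff]
  refine ⟨⟨hx, hg⟩, M.congr hs ?_⟩
  filter_upwards [M.near_mem_span hs hg h] with y hy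
  rw [EMod.mkIm_val hy]

/-- the generators, as sections of the subsheaf, generate it

Proof. apply `Submodule.map_injective_of_injective (M.imVal_injective g x)`: the image of the span is the span of the `g i x` (`Submodule.map_span`, `mkIm_val` with `Submodule.subset_span`), and `Submodule.map_top`, `EMod.imVal_range`. -/
theorem EMod.imSh_gen (M : EMod.{u, v, w} R) {n : ℕ} (g : Fin n → (x : X) → M.St x) (x : X) :
    Submodule.span (R.St x) (Set.range fun i => M.mkIm g (g i) x) = ⊤ := by
  apply Submodule.map_injective_of_injective (M.imVal_injective g x)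
  rw [Submodule.map_span, Submodule.map_top, EMod.imVal_range, ← Set.range_comp]
  congr 1
  congr 1
  funext j
  exact EMod.mkIm_val (Submodule.subset_span ⟨j, rfl⟩)

end Pool.Agent.DQ
end

section

/-! # DQ, module H: coherence of the subsheaf generated by finitely many sections -/

set_option autoImplicit false

open Set Filter Topology

universe u v w

namespace Pool.Agent.DQ

variable {X : Type u} [TopologicalSpace X] {R : ERing.{u, v} X}

/-- The subsheaf generated by finitely many sections of a coherent sheaf is coherent.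

Proof. domain; generators `M.mkIm g (g i)` (`mkIm_at`, `imSh_gen`); relations between sections `h j` of the subsheaf are relations between the sections `M.imVal g y (h j y)` of `M`, finitely generated by `hM.2.2` (same argument as at the end of `EMod.relSh_cohAt` in `CRel.lean`). -/
theorem EMod.imSh_cohAt {M : EMod.{u, v, w} R} {n : ℕ} {g : Fin n → (x : X) → M.St x} {x : X}
    (hg : ∀ i, M.At (g i) x) (hM : M.CohAt x) : (M.imSh g).CohAt x := by
  refine ⟨⟨hM.1, hg⟩, ⟨n, fun i => M.mkIm g (g i), fun i => EMod.mkIm_at hM.1 hg (hg i)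
    (Submodule.subset_span ⟨i, rfl⟩), Eventually.of_forall fun y => M.imSh_gen g y⟩, ?_⟩
  intro k h hh
  have h1 : ∀ j, M.At (fun y => M.imVal g y (h j y)) x :=
    fun j => (EMod.imSh_at_iff.mp (hh j)).2
  obtain ⟨m, r, hr, hspan⟩ := hM.2.2 k (fun j y => M.imVal g y (h j y)) h1
  refine ⟨m, r, hr, ?_⟩
  filter_upwards [hspan] with y hy
  rw [← hy]
  ext c
  change ∑ j, c j • h j y = 0 ↔ ∑ j, c j • M.imVal g y (h j y) = 0
  have e : M.imVal g y (∑ j, c j • h j y) = ∑ j, c j • M.imVal g y (h j y) := by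
    rw [map_sum]
    exact Finset.sum_congr rfl fun j _ => map_smul _ _ _
  rw [← e]
  exact (map_eq_zero_iff _ (M.imVal_injective g y)).symm

end Pool.Agent.DQ
end

section

/-! # DQ, module G, task GC3: elimination (pure algebra) -/

set_option autoImplicit false

open Matrix

namespace Pool.Agent.DQ

/-- the companion matrix of `v ^ k + ∑ a_i v ^ i`, acting on row vectors:
`(1, v, …, v^(k-1)) C = v (1, v, …, v^(k-1))` iff `v` is a root.
Column `j` (`j + 1 < k`) is the unit vector `e_(j+1)`, the last column is `-a`. -/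
def comp {R : Type*} [CommRing R] {k : ℕ} (a : Fin k → R) : Matrix (Fin k) (Fin k) R :=
  Matrix.of fun i j => if (j : ℕ) + 1 < k then (if (i : ℕ) = j + 1 then 1 else 0) else - a i

/-- Powers of `v` form an eigenvector.

Proof. Entry `j` of `(v ^ i)_i ᵥ* comp a`: if `j + 1 < k` it is `v ^ (j + 1)` (only `i = j + 1` contributes) `= v * v ^ j`. If `j + 1 = k` it is
`- ∑ a i * v ^ i = v ^ k = v * v ^ j` by the hypothesis. -/
theorem vecMul_comp {R : Type*} [CommRing R] {k : ℕ} (a : Fin k → R) {v : R}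
    (hv : v ^ k + ∑ i, a i * v ^ (i : ℕ) = 0) :
    (fun i : Fin k => v ^ (i : ℕ)) ᵥ* comp a = v • fun i : Fin k => v ^ (i : ℕ) := by
  funext j
  show ∑ i : Fin k, v ^ (i : ℕ) * (comp a) i j = v * v ^ (j : ℕ)
  by_cases hj : (j : ℕ) + 1 < k
  · rw [Finset.sum_eq_single (⟨(j : ℕ) + 1, hj⟩ : Fin k)]
    · have h1 : comp a ⟨(j : ℕ) + 1, hj⟩ j = 1 := by
        simp [comp, hj]
      rw [h1, mul_one, pow_succ']
    · intro i _ hi
      have h1 : comp a i j = 0 := by
        have h2 : ¬ ((i : ℕ) = j + 1) := fun h => hi (Fin.ext h)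
        simp [comp, hj, h2]
      rw [h1, mul_zero]
    · intro h
      exact absurd (Finset.mem_univ _) h
  · have h1 : ∀ i : Fin k, v ^ (i : ℕ) * (comp a) i j = -(a i * v ^ (i : ℕ)) := by
      intro i
      have h2 : comp a i j = -a i := by
        simp [comp, hj]
      rw [h2]
      ring
    rw [Finset.sum_congr rfl fun i _ => h1 i, Finset.sum_neg_distrib]
    have h2 : (j : ℕ) + 1 = k := by
      have := j.2
      omega
    rw [← pow_succ', h2]
    linear_combination -hv

/-- An eigenvector (row) of the companion matrix for the eigenvalue `v` forces `v` to be a root.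

Proof. Let `w ᵥ* comp a = v • w`, `w ≠ 0`. For `j + 1 < k` entry `j` says `w (j+1) = v * w j`; so `w j = v ^ j * w 0` for all `j` (induction on `j`), and
`w 0 ≠ 0` (otherwise `w = 0`; `k ≥ 1` because `w ≠ 0`). The last entry says `- ∑ w i * a i = v * w (k-1)`, i.e. `- w 0 * ∑ a i * v ^ i = w 0 * v ^ k`.
Cancel `w 0`. -/
theorem root_of_vecMul_comp {k : ℕ} (a : Fin k → ℂ) {v : ℂ} {w : Fin k → ℂ} (hw : w ≠ 0)
    (h : w ᵥ* comp a = v • w) : v ^ k + ∑ i, a i * v ^ (i : ℕ) = 0 := by
  have hent : ∀ j : Fin k, ∑ i : Fin k, w i * (comp a) i j = v * w j := fun j => congrFun h j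
  have hk : 0 < k := by
    by_contra hk
    apply hw
    funext i
    exact absurd i.2 (by omega)
  have hstep : ∀ (j : ℕ) (hj : j + 1 < k), w ⟨j + 1, hj⟩ = v * w ⟨j, by omega⟩ := by
    intro j hj
    have h1 := hent ⟨j, by omega⟩
    rw [Finset.sum_eq_single (⟨j + 1, hj⟩ : Fin k)] at h1
    · have h2 : comp a ⟨j + 1, hj⟩ ⟨j, by omega⟩ = 1 := by
        simp [comp, hj]
      rw [h2, mul_one] at h1
      exact h1
    · intro i _ hi
      have h2 : comp a i ⟨j, by omega⟩ = 0 := by
        have h3 : ¬ ((i : ℕ) = j + 1) := fun h => hi (Fin.ext h)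
        simp [comp, hj, h3]
      rw [h2, mul_zero]
    · intro h
      exact absurd (Finset.mem_univ _) h
  have hpow : ∀ (j : ℕ) (hj : j < k), w ⟨j, hj⟩ = v ^ j * w ⟨0, hk⟩ := by
    intro j
    induction j with
    | zero =>
      intro hj
      rw [pow_zero, one_mul]
    | succ j ih =>
      intro hj
      rw [hstep j hj, ih (by omega), pow_succ']
      ring
  have hw0 : w ⟨0, hk⟩ ≠ 0 := by
    intro h0
    apply hw
    funext i
    have h1 := hpow i i.2
    rw [h0, mul_zero] at h1
    exact h1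
  have hlast := hent ⟨k - 1, by omega⟩
  have h1 : ∀ i : Fin k, w i * (comp a) i ⟨k - 1, by omega⟩ =
      -(w ⟨0, hk⟩ * (a i * v ^ (i : ℕ))) := by
    intro i
    have h2 : comp a i ⟨k - 1, by omega⟩ = -a i := by
      have h3 : ¬ (k - 1 + 1 < k) := by omega
      simp [comp, h3]
    have h4 : w i = v ^ (i : ℕ) * w ⟨0, hk⟩ := hpow i i.2
    rw [h2, h4]
    ring
  rw [Finset.sum_congr rfl fun i _ => h1 i, Finset.sum_neg_distrib, ← Finset.mul_sum,
    hpow (k - 1) (by omega), ← mul_assoc, ← pow_succ', Nat.sub_add_cancel hk] at hlast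
  have h2 : w ⟨0, hk⟩ * (v ^ k + ∑ i, a i * v ^ (i : ℕ)) = 0 := by
    linear_combination -hlast
  exact (mul_eq_zero.1 h2).resolve_left hw0

/-- the value of the polynomial `∑ b_i X^i` at the companion matrix -/
def compVal {R : Type*} [CommRing R] {k : ℕ} (a b : Fin k → R) : Matrix (Fin k) (Fin k) R :=
  ∑ i, b i • comp a ^ (i : ℕ)

private theorem GC3_vecMul_val {k : ℕ} (a b : Fin k → ℂ) {w : Fin k → ℂ} {v : ℂ}
    (h : w ᵥ* comp a = v • w) : w ᵥ* compVal a b = (∑ i, b i * v ^ (i : ℕ)) • w := by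
  have hp : ∀ n : ℕ, w ᵥ* comp a ^ n = v ^ n • w := by
    intro n
    induction n with
    | zero => rw [pow_zero, pow_zero, Matrix.vecMul_one, one_smul]
    | succ n ih =>
      rw [pow_succ, ← Matrix.vecMul_vecMul, ih, Matrix.smul_vecMul, h, smul_smul, pow_succ]
  unfold compVal
  rw [Matrix.vecMul_sum, Finset.sum_smul]
  refine Finset.sum_congr rfl fun i _ => ?_
  rw [Matrix.vecMul_smul, hp, smul_smul]

private theorem GC3_commute {k : ℕ} (a b : Fin k → ℂ) :
    comp a * compVal a b = compVal a b * comp a := by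
  unfold compVal
  rw [Finset.mul_sum, Finset.sum_mul]
  refine Finset.sum_congr rfl fun i _ => ?_
  rw [Matrix.mul_smul, Matrix.smul_mul, ← pow_succ', ← pow_succ]

/-- If all minors vanish then the rows are linearly dependent. -/
private theorem GC3_minor {k m : ℕ} (N : Fin m → Matrix (Fin k) (Fin k) ℂ)
    (h : ∀ σ : Fin k → Fin m × Fin k, (Matrix.of fun i l => N (σ l).1 i (σ l).2).det = 0) :
    ∃ w : Fin k → ℂ, w ≠ 0 ∧ ∀ j, w ᵥ* N j = 0 := by
  classical
  let col : Fin m × Fin k → (Fin k → ℂ) := fun p i => N p.1 i p.2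
  by_cases hs : Submodule.span ℂ (Set.range col) = ⊤
  · exfalso
    obtain ⟨f, hf, -, hli⟩ := Submodule.exists_fun_fin_finrank_span_eq ℂ (Set.range col)
    have hfr : Module.finrank ℂ (Submodule.span ℂ (Set.range col)) = k := by
      rw [hs, finrank_top, Module.finrank_fin_fun]
    choose σ hσ using hf
    let τ : Fin k → Fin m × Fin k := fun l => σ (Fin.cast hfr.symm l)
    have hli2 : LinearIndependent ℂ fun l : Fin k => col (τ l) := by
      have h1 : (fun l : Fin k => col (τ l)) = f ∘ Fin.cast hfr.symm := by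
        funext l
        exact hσ _
      rw [h1]
      exact hli.comp _ (Fin.cast_injective _)
    have h2 : IsUnit (Matrix.of fun i l => N (τ l).1 i (τ l).2) := by
      rw [← Matrix.linearIndependent_cols_iff_isUnit]
      exact hli2
    have h3 := (Matrix.isUnit_iff_isUnit_det _).1 h2
    rw [h τ] at h3
    exact not_isUnit_zero h3
  · obtain ⟨φ, hφ, hle⟩ := Submodule.exists_le_ker_of_lt_top _ (lt_top_iff_ne_top.2 hs)
    have hrep : ∀ x : Fin k → ℂ, φ x = ∑ i, φ (Pi.single i 1) * x i := by
      intro x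
      conv_lhs => rw [← Finset.univ_sum_single x]
      rw [map_sum]
      refine Finset.sum_congr rfl fun i _ => ?_
      have h1 : (Pi.single i (x i) : Fin k → ℂ) = x i • Pi.single i 1 := by
        rw [← Pi.single_smul, smul_eq_mul, mul_one]
      rw [h1, map_smul, smul_eq_mul, mul_comm]
    refine ⟨fun i => φ (Pi.single i 1), ?_, ?_⟩
    · intro h0
      apply hφ
      ext x
      rw [LinearMap.comp_apply, hrep]
      refine Finset.sum_eq_zero fun i _ => ?_
      rw [show φ (Pi.single i 1) = 0 from congrFun h0 i, zero_mul]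
    · intro j
      funext l
      show ∑ i, φ (Pi.single i 1) * N j i l = 0
      rw [← hrep (fun i => N j i l)]
      exact hle (Submodule.subset_span ⟨(j, l), rfl⟩)

/-- **Common roots.** A monic polynomial and polynomials `∑ b_j,i v^i` have a common root iff all `k × k` minors of the block matrix
`[compVal a (b 0) | compVal a (b 1) | …]` vanish. A minor is given by a choice `σ : Fin k → Fin m × Fin k` of columns.

Proof. Write `M_j = compVal a (b j)`, `C = comp a`; `M_j` commutes with `C` (polynomial in `C`).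
(→) Let `v` be a common root, `w = (v ^ i)_i`. By `vecMul_comp`, `w ᵥ* C = v • w`, so `w ᵥ* C ^ i = v ^ i • w` (induction) and
`w ᵥ* M_j = (∑ b_j,i v ^ i) • w = 0`. If `k = 0` there is no root of the monic polynomial `1`, so `k ≥ 1` and `w ≠ 0` (`w 0 = 1`). For every `σ` the matrix
`of fun i l => M_(σ l).1 i (σ l).2` is killed by `w` from the left (`w ≠ 0`), so its determinant vanishes (`Matrix.exists_vecMul_eq_zero_iff`).
(←) Assume that all minors vanish. Let `N : Matrix (Fin k) (Fin m × Fin k) ℂ`, `N i (j, l) = M_j i l`. Its rank is `< k`: otherwise (rank `= k`: the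
columns span `ℂ^k`) there are `k` columns which form a basis, that is, a `σ` with nonzero determinant (e.g. choose a maximal linearly independent
subfamily of the columns: `exists_linearIndependent` or `Basis` from a spanning family, `Matrix.linearIndependent_cols_iff_isUnit` / `Matrix.isUnit_iff_isUnit_det`).
So the rows of `N` are linearly dependent: there is `w ≠ 0` with `w ᵥ* N = 0`, i.e. `w ᵥ* M_j = 0` for all `j`. (For `k = 0` the hypothesis is false:
the only minor, of the empty matrix, is `1`.) The space `W = {w | ∀ j, w ᵥ* M_j = 0}` is nonzero and stable under `w ↦ w ᵥ* C`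
(`w ᵥ* C ᵥ* M_j = w ᵥ* M_j ᵥ* C = 0`). A linear endomorphism of a nonzero finite dimensional complex vector space has an eigenvector
(`Module.End.exists_eigenvalue`): there are `w ≠ 0` in `W` and `v` with `w ᵥ* C = v • w`. `root_of_vecMul_comp` says that `v` is a root of the monic
polynomial; and `0 = w ᵥ* M_j = (∑ b_j,i v ^ i) • w` gives `∑ b_j,i v ^ i = 0`. -/
theorem common_root_iff {k m : ℕ} (a : Fin k → ℂ) (b : Fin m → Fin k → ℂ) :
    (∃ v : ℂ, v ^ k + ∑ i, a i * v ^ (i : ℕ) = 0 ∧ ∀ j, ∑ i, b j i * v ^ (i : ℕ) = 0) ↔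
      ∀ σ : Fin k → Fin m × Fin k,
        (Matrix.of fun i l => compVal a (b (σ l).1) i (σ l).2).det = 0 := by
  classical
  constructor
  · rintro ⟨v, hv, hb⟩ σ
    rw [← Matrix.exists_vecMul_eq_zero_iff]
    refine ⟨fun i : Fin k => v ^ (i : ℕ), ?_, ?_⟩
    · intro h0
      have hk : 0 < k := by
        by_contra hk
        have hk0 : k = 0 := by omega
        subst hk0
        simp at hv
      have h1 := congrFun h0 ⟨0, hk⟩
      simp at h1
    · funext l
      have h1 := GC3_vecMul_val a (b (σ l).1) (vecMul_comp a hv)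
      rw [hb, zero_smul] at h1
      exact congrFun h1 (σ l).2
  · intro h
    obtain ⟨w, hw, hN⟩ := GC3_minor (fun j => compVal a (b j)) h
    let W : Submodule ℂ (Fin k → ℂ) :=
      ⨅ j, LinearMap.ker (Matrix.vecMulLinear (compVal a (b j)))
    have hWmem : ∀ x, x ∈ W ↔ ∀ j, x ᵥ* compVal a (b j) = 0 := by
      intro x
      simp only [W, Submodule.mem_iInf, LinearMap.mem_ker, Matrix.vecMulLinear_apply]
    have hstab : ∀ x ∈ W, Matrix.vecMulLinear (comp a) x ∈ W := by
      intro x hx
      rw [hWmem] at hx ⊢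
      intro j
      rw [Matrix.vecMulLinear_apply, Matrix.vecMul_vecMul, GC3_commute, ← Matrix.vecMul_vecMul,
        hx j, Matrix.zero_vecMul]
    have hnt : Nontrivial W := by
      refine ⟨⟨⟨w, (hWmem w).2 hN⟩, 0, ?_⟩⟩
      intro h0
      exact hw (congrArg Subtype.val h0)
    obtain ⟨v, hv⟩ := Module.End.exists_eigenvalue
      ((Matrix.vecMulLinear (comp a)).restrict hstab : Module.End ℂ W)
    obtain ⟨x, hx⟩ := hv.exists_hasEigenvector
    have hx0 : (x : Fin k → ℂ) ≠ 0 := by
      intro h0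
      exact hx.2 (Subtype.ext h0)
    have hxe : (x : Fin k → ℂ) ᵥ* comp a = v • (x : Fin k → ℂ) :=
      congrArg Subtype.val hx.apply_eq_smul
    refine ⟨v, root_of_vecMul_comp a hx0 hxe, fun j => ?_⟩
    have h1 := GC3_vecMul_val a (b j) hxe
    rw [(hWmem x).1 x.2 j] at h1
    exact (smul_eq_zero.1 h1.symm).resolve_right hx0

end Pool.Agent.DQ
end
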