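import Mathlib
import Pool.Agent.Lib.MP_4aa2a9_ag.Mg.G003
import Pool.Agent.Lib.MP_4aa2a9_ag.Mg.G004
import Pool.Agent.Lib.MP_4aa2a9_ag.Mg.G001
import Pool.Agent.Lib.MP_4aa2a9_ag.Mg.G036

section

/-! Approximation with holomorphic parameters on discs, annuli, segments. -/

set_option autoImplicit false

open Set Filter Topology MeasureTheory

namespace Pool.Agent.DQ.C

/-- Functions holomorphic near `Δ × L` can be approximated, uniformly on a neighbourhood, by
functions holomorphic on `X × W`. -/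
def Appr (F : Type*) [NormedAddCommGroup F] [NormedSpace ℂ F] (Δ X : Set ℂ) : Prop :=
  ∀ L : Set F, IsCompact L → ∀ f : ℂ × F → ℂ, HolNear f (Δ ×ˢ L) →
    ∃ (N : Set ℂ) (W : Set F), IsOpen N ∧ IsOpen W ∧ Δ ⊆ N ∧ L ⊆ W ∧
      ∀ ε : ℝ, 0 < ε → ∃ g : ℂ × F → ℂ, HolNear g ((X ∪ N) ×ˢ W) ∧
        ∀ p ∈ N ×ˢ W, ‖f p - g p‖ ≤ ε

variable {F : Type*} [NormedAddCommGroup F] [NormedSpace ℂ F]

theorem Appr.inter {Δ₁ Δ₂ X : Set ℂ} (hc₁ : IsCompact Δ₁) (hc₂ : IsCompact Δ₂)
    (h₁ : Appr F Δ₁ X) (h₂ : Appr F Δ₂ X) : Appr F (Δ₁ ∩ Δ₂) X := by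
  intro L hL f hf
  obtain ⟨f', f'', hf', hf'', he⟩ := split_near hc₁ hc₂ hL hf
  obtain ⟨N₁, W₁, hN₁, hW₁, hΔ₁, hL₁, ha₁⟩ := h₁ L hL f' hf'
  obtain ⟨N₂, W₂, hN₂, hW₂, hΔ₂, hL₂, ha₂⟩ := h₂ L hL f'' hf''
  obtain ⟨U, hU, hU2, hU3⟩ := mem_nhdsSet_iff_exists.mp he
  obtain ⟨N₃, W₃, hN₃, hW₃, hΔ₃, hL₃, h3⟩ := generalized_tube_lemma (hc₁.inter hc₂) hL hU hU2
  refine ⟨N₁ ∩ N₂ ∩ N₃, W₁ ∩ W₂ ∩ W₃, (hN₁.inter hN₂).inter hN₃, (hW₁.inter hW₂).inter hW₃,
    fun z hz => ⟨⟨hΔ₁ hz.1, hΔ₂ hz.2⟩, hΔ₃ hz⟩, fun w hw => ⟨⟨hL₁ hw, hL₂ hw⟩, hL₃ hw⟩, ?_⟩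
  intro ε hε
  obtain ⟨g₁, hg₁, hb₁⟩ := ha₁ (ε / 2) (half_pos hε)
  obtain ⟨g₂, hg₂, hb₂⟩ := ha₂ (ε / 2) (half_pos hε)
  refine ⟨fun p => g₁ p - g₂ p, ?_, ?_⟩
  · rintro p ⟨hp1, hp2⟩
    exact (hg₁ p ⟨hp1.imp id fun h => h.1.1, hp2.1.1⟩).sub
      (hg₂ p ⟨hp1.imp id fun h => h.1.2, hp2.1.2⟩)
  · rintro p ⟨hp1, hp2⟩
    have e : f p = f' p - f'' p := hU3 (h3 ⟨hp1.2, hp2.2⟩)
    rw [e]
    calc ‖f' p - f'' p - (g₁ p - g₂ p)‖ = ‖(f' p - g₁ p) - (f'' p - g₂ p)‖ := by congr 1; ring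
      _ ≤ ε / 2 + ε / 2 := (norm_sub_le _ _).trans
          (add_le_add (hb₁ p ⟨hp1.1.1, hp2.1.1⟩) (hb₂ p ⟨hp1.1.2, hp2.1.2⟩))
      _ = ε := by ring

theorem Appr.of_subset {D X : Set ℂ} (hD : IsCompact D)
    (h : ∀ U : Set ℂ, IsOpen U → D ⊆ U → ∃ Δ : Set ℂ, D ⊆ Δ ∧ Δ ⊆ U ∧ Appr F Δ X) :
    Appr F D X := by
  intro L hL f hf
  obtain ⟨N, W, M, hN, hW, hDN, hLW, -, hd, -⟩ := hf.exists_tube hD hL
  obtain ⟨Δ, h1, h2, h3⟩ := h N hN hDN
  have hf' : HolNear f (Δ ×ˢ L) :=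
    ((holNear_iff_differentiableOn (hN.prod hW)).mpr hd).mono (prod_mono h2 hLW)
  obtain ⟨N', W', hN', hW', hΔ, hL', ha⟩ := h3 L hL f hf'
  exact ⟨N', W', hN', hW', h1.trans hΔ, hL', ha⟩

theorem Appr.mono {Δ X Y : Set ℂ} (h : Appr F Δ X) (hY : Y ⊆ X) : Appr F Δ Y := by
  intro L hL f hf
  obtain ⟨N, W, hN, hW, hΔ, hL', ha⟩ := h L hL f hf
  refine ⟨N, W, hN, hW, hΔ, hL', fun ε hε => ?_⟩
  obtain ⟨g, hg, hb⟩ := ha ε hε
  exact ⟨g, hg.mono (prod_mono (union_subset_union_left _ hY) le_rfl), hb⟩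

theorem appr_closedBall (c : ℂ) (ρ : ℝ) : Appr F (Metric.closedBall c ρ) univ := by
  intro L hL f hf
  by_cases hρ : ρ < 0
  · refine ⟨∅, univ, isOpen_empty, isOpen_univ, ?_, subset_univ _, fun ε _ => ⟨fun _ => 0, ?_, ?_⟩⟩
    · rw [Metric.closedBall_eq_empty.mpr hρ]
    · intro p _
      exact HolAt.const 0 p
    · rintro p ⟨hp, _⟩
      exact absurd hp (notMem_empty _)
  have hρ0 : 0 ≤ ρ := not_lt.mp hρ
  obtain ⟨N, W, M, hN, hW, hDN, hLW, hM0, hd, hM⟩ := hf.exists_tube (isCompact_closedBall c ρ) hL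
  obtain ⟨δ, hδ, hδN⟩ := (isCompact_closedBall c ρ).exists_cthickening_subset_open hN hDN
  rw [cthickening_closedBall hδ.le hρ0] at hδN
  refine ⟨Metric.ball c (δ / 2 + ρ), W, Metric.isOpen_ball, hW,
    Metric.closedBall_subset_ball (by linarith), hLW, fun ε hε => ?_⟩
  have hsub : Metric.ball c (δ + ρ) ×ˢ W ⊆ N ×ˢ W :=
    prod_mono (Metric.ball_subset_closedBall.trans hδN) le_rfl
  obtain ⟨g, hg, hb⟩ := taylor_approx (c := c) (ρ := δ / 2 + ρ) (R' := δ + ρ) (by positivity)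
    (by linarith) hW (hd.mono hsub) (fun p hp => hM p (hsub hp)) hε
  refine ⟨g, ((holNear_iff_differentiableOn (isOpen_univ.prod hW)).mpr hg).mono
    (prod_mono (subset_univ _) le_rfl), fun p hp => ?_⟩
  exact hb p ⟨Metric.ball_subset_closedBall hp.1, hp.2⟩

theorem isCompact_annulus (c : ℂ) (r R : ℝ) : IsCompact {z : ℂ | r ≤ ‖z - c‖ ∧ ‖z - c‖ ≤ R} := by
  have h1 : {z : ℂ | r ≤ ‖z - c‖ ∧ ‖z - c‖ ≤ R} = Metric.closedBall c R ∩ {z | r ≤ ‖z - c‖} := by
    ext z
    simp only [mem_ofPred_eq, mem_inter_iff, Metric.mem_closedBall, dist_eq_norm]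
    tauto
  rw [h1]
  exact (isCompact_closedBall c R).inter_right (isClosed_le continuous_const (by fun_prop))

theorem appr_annulus (c : ℂ) {r R : ℝ} (hr : 0 < r) (hrR : r ≤ R) :
    Appr F {z : ℂ | r ≤ ‖z - c‖ ∧ ‖z - c‖ ≤ R} {c}ᶜ := by
  intro L hL f hf
  obtain ⟨N, W, M, hN, hW, hDN, hLW, hM0, hd, hM⟩ := hf.exists_tube (isCompact_annulus c r R) hL
  -- a slightly larger annulus
  obtain ⟨δ, hδ, hδr, hδN⟩ : ∃ δ : ℝ, 0 < δ ∧ δ < r ∧
      {z : ℂ | r - δ < ‖z - c‖ ∧ ‖z - c‖ < R + δ} ⊆ N := by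
    obtain ⟨δ, hδ, hδN⟩ := (isCompact_annulus c r R).exists_thickening_subset_open hN hDN
    refine ⟨min δ (r / 2), by positivity, ?_, ?_⟩
    · exact (min_le_right _ _).trans_lt (by linarith)
    · rintro z ⟨hz1, hz2⟩
      apply hδN
      rw [Metric.mem_thickening_iff]
      have hm1 : min δ (r / 2) ≤ δ := min_le_left _ _
      have hm2 : min δ (r / 2) ≤ r / 2 := min_le_right _ _
      have hz0 : 0 < ‖z - c‖ := by linarith
      -- the radial projection
      set t : ℝ := max r (min ‖z - c‖ R) with ht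
      have ht1 : r ≤ t := le_max_left _ _
      have ht2 : t ≤ R := max_le hrR (min_le_right _ _)
      have ht3 : |‖z - c‖ - t| < δ := by
        rw [ht, abs_lt]
        constructor
        · rcases le_total ‖z - c‖ R with h | h
          · rw [min_eq_left h]
            rcases le_total r ‖z - c‖ with h' | h'
            · rw [max_eq_right h']; linarith
            · rw [max_eq_left h']; linarith
          · rw [min_eq_right h, max_eq_right hrR]; linarith
        · rcases le_total ‖z - c‖ R with h | h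
          · rw [min_eq_left h]
            rcases le_total r ‖z - c‖ with h' | h'
            · rw [max_eq_right h']; linarith
            · rw [max_eq_left h']; linarith
          · rw [min_eq_right h, max_eq_right hrR]; linarith
      have ht0 : 0 ≤ t := hr.le.trans ht1
      refine ⟨c + ((t / ‖z - c‖ : ℝ) : ℂ) * (z - c), ?_, ?_⟩
      · have : ‖c + ((t / ‖z - c‖ : ℝ) : ℂ) * (z - c) - c‖ = t := by
          rw [add_sub_cancel_left, norm_mul, Complex.norm_real, Real.norm_eq_abs,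
            abs_of_nonneg (by positivity)]
          field_simp
        exact ⟨by rw [this]; exact ht1, by rw [this]; exact ht2⟩
      · have e : z - (c + ((t / ‖z - c‖ : ℝ) : ℂ) * (z - c)) =
            (((‖z - c‖ - t) / ‖z - c‖ : ℝ) : ℂ) * (z - c) := by
          have : (‖z - c‖ : ℂ) ≠ 0 := by exact_mod_cast hz0.ne'
          push_cast
          field_simp
          ring
        rw [dist_eq_norm, e, norm_mul, Complex.norm_real, Real.norm_eq_abs, abs_div,
          abs_of_pos hz0]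
        field_simp
        exact ht3
  refine ⟨{z | r - δ / 2 < ‖z - c‖ ∧ ‖z - c‖ < R + δ / 2}, W, ?_, hW, ?_, hLW, fun ε hε => ?_⟩
  · have e1 : IsOpen {z : ℂ | r - δ / 2 < ‖z - c‖} := isOpen_lt continuous_const (by fun_prop)
    have e2 : IsOpen {z : ℂ | ‖z - c‖ < R + δ / 2} := isOpen_lt (by fun_prop) continuous_const
    exact e1.inter e2
  · rintro z ⟨h1, h2⟩
    exact ⟨by linarith, by linarith⟩
  · have hsub : {z : ℂ | r - δ < ‖z - c‖ ∧ ‖z - c‖ < R + δ} ×ˢ W ⊆ N ×ˢ W :=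
      prod_mono hδN le_rfl
    obtain ⟨g, hg, hb⟩ := laurent_approx (c := c) (r₀ := r - δ) (r₁ := r - δ / 2)
      (R₁ := R + δ / 2) (R₀ := R + δ) (by linarith) (by linarith) (by linarith) (by linarith) hW
      (hd.mono hsub) hM0 (fun p hp => hM p (hsub hp)) hε
    have hopen : IsOpen ({c}ᶜ ×ˢ W : Set (ℂ × F)) := isOpen_compl_singleton.prod hW
    refine ⟨g, ((holNear_iff_differentiableOn hopen).mpr hg).mono (prod_mono ?_ le_rfl),
      fun p hp => ?_⟩
    · refine union_subset le_rfl fun z hz => ?_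
      rintro rfl
      have := hz.1
      rw [sub_self, norm_zero] at this
      linarith
    exact hb p ⟨⟨hp.1.1.le, hp.1.2.le⟩, hp.2⟩

end Pool.Agent.DQ.C
end

section

/-! Splitting, factorisation and approximation in one of several linear coordinates. -/

set_option autoImplicit false

open Set Filter Topology

namespace Pool.Agent.DQ.C

variable {V : Type*} [NormedAddCommGroup V] [NormedSpace ℂ V] {n : ℕ}

/-- the product set `∏ C_i` in the linear coordinates `κ` -/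
def Box (κ : V ≃L[ℂ] (Fin n → ℂ)) (C : Fin n → Set ℂ) : Set V := {x | ∀ i, κ x i ∈ C i}

/-- the product set `∏ C_j` in which `C_i` is replaced by `S` -/
def Bx (κ : V ≃L[ℂ] (Fin n → ℂ)) (C : Fin n → Set ℂ) (i : Fin n) (S : Set ℂ) : Set V :=
  {x | κ x i ∈ S ∧ ∀ j, j ≠ i → κ x j ∈ C j}

/-- replace the `i`-th coordinate by `ζ` -/
noncomputable def upd (κ : V ≃L[ℂ] (Fin n → ℂ)) (i : Fin n) (p : ℂ × V) : V :=
  p.2 + κ.symm (Pi.single i (p.1 - κ p.2 i))

variable (κ : V ≃L[ℂ] (Fin n → ℂ)) (C : Fin n → Set ℂ) (i : Fin n)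

theorem box_eq : Box κ C = Bx κ C i (C i) := by
  ext x
  constructor
  · intro h
    exact ⟨h i, fun j _ => h j⟩
  · rintro ⟨h1, h2⟩ j
    by_cases hj : j = i
    · rw [hj]; exact h1
    · exact h2 j hj

theorem bx_update (S T : Set ℂ) : Bx κ (Function.update C i S) i T = Bx κ C i T := by
  ext x
  constructor
  · rintro ⟨h1, h2⟩
    exact ⟨h1, fun j hj => by simpa [Function.update_of_ne hj] using h2 j hj⟩
  · rintro ⟨h1, h2⟩
    exact ⟨h1, fun j hj => by simpa [Function.update_of_ne hj] using h2 j hj⟩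

theorem box_update (S : Set ℂ) : Box κ (Function.update C i S) = Bx κ C i S := by
  rw [box_eq κ (Function.update C i S) i, bx_update, Function.update_self]

theorem upd_same (p : ℂ × V) : κ (upd κ i p) i = p.1 := by simp [upd]

theorem upd_ne (p : ℂ × V) {j : Fin n} (hj : j ≠ i) : κ (upd κ i p) j = κ p.2 j := by
  simp [upd, Pi.single_eq_of_ne hj]

theorem differentiable_coord (j : Fin n) : Differentiable ℂ (fun x : V => κ x j) := by
  have h1 : Differentiable ℂ (fun x : V => κ x) := κ.differentiable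
  exact fun x => differentiableAt_pi.mp (h1 x) j

theorem differentiable_upd : Differentiable ℂ (upd κ i) := by
  have h1 : Differentiable ℂ (fun p : ℂ × V => (Pi.single i (p.1 - κ p.2 i) : Fin n → ℂ)) := by
    rw [differentiable_pi]
    intro j
    by_cases hj : j = i
    · subst hj
      simp only [Pi.single_eq_same]
      exact differentiable_fst.sub ((differentiable_coord κ j).comp differentiable_snd)
    · simp only [Pi.single_eq_of_ne hj]
      exact differentiable_const _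
  unfold upd
  exact differentiable_snd.add (κ.symm.differentiable.comp h1)

theorem continuous_upd : Continuous (upd κ i) := (differentiable_upd κ i).continuous

theorem continuous_coord (j : Fin n) : Continuous (fun x : V => κ x j) :=
  (differentiable_coord κ j).continuous

theorem ext_coord {x y : V} (h : ∀ j, κ x j = κ y j) : x = y := κ.injective (funext h)

/-- `x ↦ (x_i, x with x_i = 0)` -/
noncomputable def Phi (x : V) : ℂ × V := (κ x i, upd κ i (0, x))

theorem differentiable_Phi : Differentiable ℂ (Phi κ i) := by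
  unfold Phi
  refine (differentiable_coord κ i).prodMk ((differentiable_upd κ i).comp ?_)
  exact (differentiable_const _).prodMk differentiable_id

theorem upd_Phi (x : V) : upd κ i (Phi κ i x) = x := by
  refine ext_coord κ fun j => ?_
  by_cases hj : j = i
  · subst hj
    rw [upd_same]
    rfl
  · rw [upd_ne κ i _ hj]
    change κ (upd κ i (0, x)) j = κ x j
    rw [upd_ne κ i _ hj]

theorem Phi_upd (p : ℂ × V) : Phi κ i (upd κ i p) = (p.1, upd κ i (0, p.2)) := by
  unfold Phi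
  refine Prod.ext ?_ ?_
  · exact upd_same κ i p
  · refine ext_coord κ fun j => ?_
    simp only
    by_cases hj : j = i
    · subst hj
      rw [upd_same, upd_same]
    · rw [upd_ne κ i _ hj, upd_ne κ i _ hj, upd_ne κ i _ hj]

theorem upd_upd (x : V) : upd κ i (0, upd κ i (0, x)) = upd κ i (0, x) := by
  refine ext_coord κ fun j => ?_
  by_cases hj : j = i
  · subst hj
    rw [upd_same, upd_same]
  · rw [upd_ne κ i _ hj, upd_ne κ i _ hj]

theorem isCompact_box {C : Fin n → Set ℂ} (hC : ∀ j, IsCompact (C j)) :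
    IsCompact (Box κ C) := by
  have h1 : Box κ C = κ.symm '' (Set.pi univ C) := by
    ext x
    constructor
    · intro h
      exact ⟨κ x, fun j _ => h j, by simp⟩
    · rintro ⟨y, hy, rfl⟩ j
      simpa using hy j (mem_univ _)
  rw [h1]
  exact (isCompact_univ_pi hC).image κ.symm.continuous

variable {C} in
theorem isCompact_bx (hC : ∀ j, IsCompact (C j)) {S : Set ℂ} (hS : IsCompact S) :
    IsCompact (Bx κ C i S) := by
  rw [← box_update]
  refine isCompact_box κ fun j => ?_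
  by_cases hj : j = i
  · subst hj; simpa using hS
  · simpa [Function.update_of_ne hj] using hC j

theorem Phi_mem {S : Set ℂ} {x : V} (hx : x ∈ Bx κ C i S) : Phi κ i x ∈ S ×ˢ Bx κ C i {0} := by
  refine ⟨hx.1, ?_, fun j hj => ?_⟩
  · exact upd_same κ i _
  · change κ (upd κ i (0, x)) j ∈ C j
    rw [upd_ne κ i _ hj]
    exact hx.2 j hj

theorem upd_mem {S : Set ℂ} {p : ℂ × V} (hp : p ∈ S ×ˢ Bx κ C i {0}) : upd κ i p ∈ Bx κ C i S := by
  refine ⟨?_, fun j hj => ?_⟩
  · rw [upd_same]; exact hp.1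
  · rw [upd_ne κ i _ hj]
    exact hp.2.2 j hj

theorem holNear_upd {S : Set ℂ} {f : V → ℂ} (hf : HolNear f (Bx κ C i S)) :
    HolNear (fun p : ℂ × V => f (upd κ i p)) (S ×ˢ Bx κ C i {0}) := by
  intro p hp
  exact (hf _ (upd_mem κ C i hp)).comp
    (Eventually.of_forall fun q => (differentiable_upd κ i).differentiableAt)

theorem holNear_Phi {S : Set ℂ} {g : ℂ × V → ℂ} (hg : HolNear g (S ×ˢ Bx κ C i {0})) :
    HolNear (fun x => g (Phi κ i x)) (Bx κ C i S) := by
  intro x hx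
  exact (hg _ (Phi_mem κ C i hx)).comp
    (Eventually.of_forall fun q => (differentiable_Phi κ i).differentiableAt)

variable {C}

/-- additive splitting in the `i`-th coordinate -/
theorem split_bx (hC : ∀ j, IsCompact (C j)) {C' C'' : Set ℂ} (hC' : IsCompact C')
    (hC'' : IsCompact C'') {f : V → ℂ} (hf : HolNear f (Bx κ C i (C' ∩ C''))) :
    ∃ f' f'' : V → ℂ, HolNear f' (Bx κ C i C') ∧ HolNear f'' (Bx κ C i C'') ∧
      ∀ x ∈ Bx κ C i (C' ∩ C''), ∀ᶠ y in 𝓝 x, f y = f' y - f'' y := by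
  obtain ⟨g', g'', hg', hg'', he⟩ := split_near hC' hC''
    (isCompact_bx κ i hC isCompact_singleton) (holNear_upd κ C i hf)
  refine ⟨_, _, holNear_Phi κ C i hg', holNear_Phi κ C i hg'', fun x hx => ?_⟩
  have h1 := (mem_nhdsSet_iff_forall.mp he) _ (Phi_mem κ C i hx)
  have h2 : Tendsto (Phi κ i) (𝓝 x) (𝓝 (Phi κ i x)) :=
    (differentiable_Phi κ i).continuous.continuousAt
  filter_upwards [h2.eventually h1] with y hy
  rw [← hy, upd_Phi]

/-- approximation in the `i`-th coordinate -/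
theorem appr_bx (hC : ∀ j, IsCompact (C j)) {D X : Set ℂ} (hA : Appr V D X) {f : V → ℂ}
    (hf : HolNear f (Bx κ C i D)) :
    ∃ Ω : Set V, IsOpen Ω ∧ Bx κ C i D ⊆ Ω ∧
      ∀ ε : ℝ, 0 < ε → ∃ g : V → ℂ, HolNear g (Bx κ C i X) ∧ HolNear g Ω ∧
        ∀ x ∈ Ω, ‖f x - g x‖ ≤ ε := by
  obtain ⟨N, W, hN, hW, hDN, hLW, ha⟩ := hA _ (isCompact_bx κ i hC isCompact_singleton) _
    (holNear_upd κ C i hf)
  refine ⟨Phi κ i ⁻¹' (N ×ˢ W), (hN.prod hW).preimage (differentiable_Phi κ i).continuous, ?_, ?_⟩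
  · intro x hx
    exact prod_mono hDN hLW (Phi_mem κ C i hx)
  · intro ε hε
    obtain ⟨g, hg, hb⟩ := ha ε hε
    refine ⟨fun x => g (Phi κ i x), holNear_Phi κ C i (hg.mono
      (prod_mono subset_union_left hLW)), fun x hx => ?_, fun x hx => ?_⟩
    · exact (hg (Phi κ i x) ⟨Or.inr hx.1, hx.2⟩).comp
        (Eventually.of_forall fun q => (differentiable_Phi κ i).differentiableAt)
    · have := hb (Phi κ i x) hx
      rwa [upd_Phi] at this

/-- Cartan factorisation in the `i`-th coordinate: `1 + a = (1 + b) (1 + A)`. -/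
theorem factor_bx (hC : ∀ j, IsCompact (C j)) {C' C'' : Set ℂ} (hC' : IsCompact C')
    (hC'' : IsCompact C'') {Ω : Set V} (hΩ : IsOpen Ω) (hsub : Bx κ C i (C' ∩ C'') ⊆ Ω) (p : ℕ)
    {η : ℝ} (hη : 0 < η) :
    ∃ (Ω₁ : Set V) (ε : ℝ), IsOpen Ω₁ ∧ Bx κ C i (C' ∩ C'') ⊆ Ω₁ ∧ Ω₁ ⊆ Ω ∧ 0 < ε ∧
      ∀ A : Fin p → Fin p → V → ℂ, (∀ r s, HolNear (A r s) Ω₁) →
      (∀ r s, ∀ x ∈ Ω₁, ‖A r s x‖ ≤ ε) →
      ∃ a b : Fin p → Fin p → V → ℂ, (∀ r s, HolNear (a r s) (Bx κ C i C')) ∧
        (∀ r s, HolNear (b r s) (Bx κ C i C'')) ∧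
        (∀ r s, ∀ x ∈ Bx κ C i C', ∀ᶠ y in 𝓝 x, ‖a r s y‖ ≤ η) ∧
        (∀ r s, ∀ x ∈ Bx κ C i C'', ∀ᶠ y in 𝓝 x, ‖b r s y‖ ≤ η) ∧
        ∀ x ∈ Bx κ C i (C' ∩ C''), ∀ᶠ y in 𝓝 x, ∀ r s,
          a r s y = b r s y + A r s y + ∑ l, b r l y * A l s y := by
  have hL := isCompact_bx κ i hC (isCompact_singleton (x := (0 : ℂ)))
  obtain ⟨N, W, hN, hW, hCN, hLW, hNW⟩ := generalized_tube_lemma (hC'.inter hC'') hL
    (hΩ.preimage (continuous_upd κ i)) (fun q hq => hsub (upd_mem κ C i hq))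
  obtain ⟨P', P'', N₁, χ, hcut, hN₁N, hCN₁, h1, h2⟩ := exists_cut hC' hC'' hN hCN
  obtain ⟨ε, hε, hfac⟩ := factor (F := V) (ι := Fin p) hcut hη
  set W' : Set V := W ∩ (fun x => upd κ i (0, x)) ⁻¹' W with hW'
  have hcu : Continuous (fun x : V => upd κ i (0, x)) :=
    (continuous_upd κ i).comp (by fun_prop)
  have hW'o : IsOpen W' := hW.inter (hW.preimage hcu)
  have hLW' : Bx κ C i {0} ⊆ W' := by
    intro x hx
    refine ⟨hLW hx, ?_⟩
    have : upd κ i (0, x) = x := by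
      refine ext_coord κ fun j => ?_
      by_cases hj : j = i
      · subst hj
        rw [upd_same]
        exact hx.1.symm
      · rw [upd_ne κ i _ hj]
    simp only [mem_preimage, this]
    exact hLW hx
  have hΦ := (differentiable_Phi κ i).continuous
  have hsubΩ : Phi κ i ⁻¹' (N₁ ×ˢ W') ⊆ Ω := by
    intro x hx
    have := hNW (show Phi κ i x ∈ N ×ˢ W from ⟨hN₁N hx.1, hx.2.1⟩)
    rwa [mem_preimage, upd_Phi] at this
  have hmem : ∀ q ∈ N₁ ×ˢ W', upd κ i q ∈ Phi κ i ⁻¹' (N₁ ×ˢ W') := by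
    rintro ⟨ζ, x⟩ ⟨hζ, hx⟩
    rw [mem_preimage, Phi_upd]
    refine ⟨hζ, hx.2, ?_⟩
    simp only [mem_preimage, upd_upd]
    exact hx.2
  refine ⟨Phi κ i ⁻¹' (N₁ ×ˢ W'), ε, (hcut.openN.prod hW'o).preimage hΦ, ?_, hsubΩ, hε, ?_⟩
  · intro x hx
    exact prod_mono hCN₁ hLW' (Phi_mem κ C i hx)
  intro A hA hAb
  have hopenNW : IsOpen (N₁ ×ˢ W') := hcut.openN.prod hW'o
  obtain ⟨a, b, ha, hb, ha2, hb2, he⟩ := hfac W' hW'o
    (fun r s q => A s r (upd κ i q)) (fun r s => by
      refine (holNear_iff_differentiableOn hopenNW).mp fun q hq => ?_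
      exact (hA s r _ (hmem q hq)).comp
        (Eventually.of_forall fun q => (differentiable_upd κ i).differentiableAt))
    (fun r s q hq => hAb s r _ (hmem q hq))
  have ho' : IsOpen ((P' ∪ N₁) ×ˢ W') := (hcut.openP'.union hcut.openN).prod hW'o
  have ho'' : IsOpen ((P'' ∪ N₁) ×ˢ W') := (hcut.openP''.union hcut.openN).prod hW'o
  refine ⟨fun r s x => a s r (Phi κ i x), fun r s x => b s r (Phi κ i x), ?_, ?_, ?_, ?_, ?_⟩
  · intro r s
    exact holNear_Phi κ C i (((holNear_iff_differentiableOn ho').mpr (ha s r)).mono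
      (prod_mono h1 hLW'))
  · intro r s
    exact holNear_Phi κ C i (((holNear_iff_differentiableOn ho'').mpr (hb s r)).mono
      (prod_mono h2 hLW'))
  · intro r s x hx
    have h3 : Phi κ i ⁻¹' ((P' ∪ N₁) ×ˢ W') ∈ 𝓝 x :=
      (ho'.preimage hΦ).mem_nhds (prod_mono h1 hLW' (Phi_mem κ C i hx))
    filter_upwards [h3] with y hy using ha2 s r _ hy
  · intro r s x hx
    have h3 : Phi κ i ⁻¹' ((P'' ∪ N₁) ×ˢ W') ∈ 𝓝 x :=
      (ho''.preimage hΦ).mem_nhds (prod_mono h2 hLW' (Phi_mem κ C i hx))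
    filter_upwards [h3] with y hy using hb2 s r _ hy
  · intro x hx
    have h3 : Phi κ i ⁻¹' (N₁ ×ˢ W') ∈ 𝓝 x :=
      (hopenNW.preimage hΦ).mem_nhds (prod_mono hCN₁ hLW' (Phi_mem κ C i hx))
    filter_upwards [h3] with y hy r s
    have := he _ hy s r
    simp only [upd_Phi] at this
    rw [this]
    congr 1
    exact Finset.sum_congr rfl fun l _ => mul_comm _ _

end Pool.Agent.DQ.C
end

section

/-! The attaching lemma: generators on two adjacent sets give generators on the union. -/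

set_option autoImplicit false

open Set Filter Topology

universe u v w

namespace Pool.Agent.DQ.C

variable {V : Type u} [NormedAddCommGroup V] [NormedSpace ℂ V] {n : ℕ}
  (κ : V ≃L[ℂ] (Fin n → ℂ)) {C : Fin n → Set ℂ} (i : Fin n)

theorem bx_union (S T : Set ℂ) : Bx κ C i S ∪ Bx κ C i T = Bx κ C i (S ∪ T) := by
  ext x
  simp only [Bx, mem_union, mem_ofPred_eq]
  tauto

theorem bx_inter (S T : Set ℂ) : Bx κ C i S ∩ Bx κ C i T = Bx κ C i (S ∩ T) := by
  ext x
  simp only [Bx, mem_inter_iff, mem_ofPred_eq]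
  tauto

theorem bx_mono {S T : Set ℂ} (h : S ⊆ T) : Bx κ C i S ⊆ Bx κ C i T :=
  fun _ hx => ⟨h hx.1, hx.2⟩

/-- the stalks of a module sheaf over `O V` are modules over the rings `OGerm x` -/
noncomputable instance instModO (M : EMod.{u, u, w} (O V)) (x : V) :
    Module (OGerm x) (M.St x) := M.mod x

/-- a linear combination of sections with holomorphic coefficients is a section -/
theorem at_mact {M : EMod.{u, u, w} (O V)} {p q : ℕ} {A : Fin p → Fin q → V → ℂ}
    {t : Fin q → (x : V) → M.St x} {x : V} (hx : x ∈ M.dom) (hA : ∀ r s, HolAt (A r s) x)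
    (ht : ∀ s, M.At (t s) x) (r : Fin p) :
    M.At (fun y => mact (gmM A y) (fun s => t s y) r) x := by
  classical
  have key : ∀ S : Finset (Fin q), M.At (fun y => ∑ s ∈ S, gm (A r s) y • t s y) x := by
    intro S
    induction S using Finset.induction_on with
    | empty =>
      simp only [Finset.sum_empty]
      exact M.zero x hx
    | insert a S ha ih =>
      simp only [Finset.sum_insert ha]
      refine M.add ?_ ih
      exact M.smul (a := fun y => gm (A r a) y)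
        ⟨A r a, hA r a, Eventually.of_forall fun y => rfl⟩ (ht a)
  exact key Finset.univ

/-- One half of the attaching lemma. -/
theorem attach_one {M : EMod.{u, u, w} (O V)} (hC : ∀ j, IsCompact (C j)) {C' C'' X : Set ℂ}
    (hC' : IsCompact C') (hC'' : IsCompact C'') (hA : Appr V (C' ∩ C'') X) (hX : C'' ⊆ X)
    (hdom : Bx κ C i (C' ∪ C'') ⊆ M.dom) {p q : ℕ} {t' : Fin p → (x : V) → M.St x} {t'' : Fin q → (x : V) → M.St x}
    (ht' : ∀ r, M.On (t' r) (Bx κ C i C')) (ht'' : ∀ r, M.On (t'' r) (Bx κ C i C''))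
    {U : Fin q → Fin p → V → ℂ} (hU : ∀ r s, HolNear (U r s) (Bx κ C i (C' ∩ C'')))
    {T : Fin p → Fin q → V → ℂ} (hT : ∀ r s, HolNear (T r s) (Bx κ C i (C' ∩ C'')))
    (e1 : ∀ x ∈ Bx κ C i (C' ∩ C''), (fun r => t'' r x) = mact (gmM U x) (fun r => t' r x))
    (e2 : ∀ x ∈ Bx κ C i (C' ∩ C''), (fun r => t' r x) = mact (gmM T x) (fun r => t'' r x)) :
    ∃ s : Fin p → (x : V) → M.St x, (∀ r, M.On (s r) (Bx κ C i (C' ∪ C''))) ∧
      ∀ x ∈ Bx κ C i C', Submodule.span (OGerm x) (Set.range fun r => t' r x) ≤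
        Submodule.span (OGerm x) (Set.range fun r => s r x) := by
  classical
  have hK : IsCompact (Bx κ C i (C' ∩ C'')) := isCompact_bx κ i hC (hC'.inter hC'')
  have hsub' : Bx κ C i (C' ∩ C'') ⊆ Bx κ C i C' := bx_mono κ i inter_subset_left
  have hsub'' : Bx κ C i (C' ∩ C'') ⊆ Bx κ C i C'' := bx_mono κ i inter_subset_right
  -- the open set where everything is fine
  set G : Set V := {x | ∀ᶠ y in 𝓝 x, (∀ r s, HolAt (U r s) y) ∧ (∀ r s, HolAt (T r s) y) ∧
    (∀ r, M.At (t' r) y) ∧ (∀ r, M.At (t'' r) y) ∧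
    (fun r => t'' r y) = mact (gmM U y) (fun r => t' r y) ∧
    (fun r => t' r y) = mact (gmM T y) (fun r => t'' r y)} with hG
  have hGo : IsOpen G := isOpen_iff_mem_nhds.mpr fun x hx => eventually_eventually_nhds.mpr hx
  have hKG : Bx κ C i (C' ∩ C'') ⊆ G := by
    intro x hx
    have h1 : ∀ᶠ y in 𝓝 x, ∀ r s, HolAt (U r s) y :=
      eventually_all.mpr fun r => eventually_all.mpr fun s => (hU r s x hx).eventually
    have h2 : ∀ᶠ y in 𝓝 x, ∀ r s, HolAt (T r s) y :=
      eventually_all.mpr fun r => eventually_all.mpr fun s => (hT r s x hx).eventually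
    have h3 : ∀ᶠ y in 𝓝 x, ∀ r, M.At (t' r) y :=
      eventually_all.mpr fun r => M.ev (ht' r x (hsub' hx))
    have h4 : ∀ᶠ y in 𝓝 x, ∀ r, M.At (t'' r) y :=
      eventually_all.mpr fun r => M.ev (ht'' r x (hsub'' hx))
    have h5 : ∀ᶠ y in 𝓝 x, (fun r => t'' r y) = mact (gmM U y) (fun r => t' r y) := by
      have : ∀ r, ∀ᶠ y in 𝓝 x, t'' r y = mact (gmM U y) (fun r => t' r y) r := fun r =>
        M.inj (ht'' r x (hsub'' hx)) (at_mact (M.mem_dom (ht'' r x (hsub'' hx)))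
          (fun r s => hU r s x hx) (fun s => ht' s x (hsub' hx)) r) (congrFun (e1 x hx) r)
      filter_upwards [eventually_all.mpr this] with y hy using funext hy
    have h6 : ∀ᶠ y in 𝓝 x, (fun r => t' r y) = mact (gmM T y) (fun r => t'' r y) := by
      have : ∀ r, ∀ᶠ y in 𝓝 x, t' r y = mact (gmM T y) (fun r => t'' r y) r := fun r =>
        M.inj (ht' r x (hsub' hx)) (at_mact (M.mem_dom (ht' r x (hsub' hx)))
          (fun r s => hT r s x hx) (fun s => ht'' s x (hsub'' hx)) r) (congrFun (e2 x hx) r)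
      filter_upwards [eventually_all.mpr this] with y hy using funext hy
    show ∀ᶠ y in 𝓝 x, _
    filter_upwards [h1, h2, h3, h4, h5, h6] with y a b c d e f using ⟨a, b, c, d, e, f⟩
  obtain ⟨Ω₀, B, hΩ₀, hKΩ₀, hB0, hB⟩ := exists_bound_near_matrix hK hU
  choose Ω₂ hΩ₂ hKΩ₂ hap using fun r s => appr_bx κ i hC hA (hT r s)
  set Ω : Set V := G ∩ Ω₀ ∩ ⋂ r, ⋂ s, Ω₂ r s with hΩ
  have hΩo : IsOpen Ω := (hGo.inter hΩ₀).inter
    (isOpen_iInter_of_finite fun r => isOpen_iInter_of_finite fun s => hΩ₂ r s)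
  have hKΩ : Bx κ C i (C' ∩ C'') ⊆ Ω := fun x hx =>
    ⟨⟨hKG hx, hKΩ₀ hx⟩, mem_iInter.mpr fun r => mem_iInter.mpr fun s => hKΩ₂ r s hx⟩
  obtain ⟨Ω₁, ε, hΩ₁, hKΩ₁, hΩ₁Ω, hε, hfac⟩ := factor_bx κ i hC hC' hC'' hΩo hKΩ p
    (η := 1 / (2 * ((p : ℝ) + 1))) (by positivity)
  set ε' : ℝ := ε / (((q : ℝ) + 1) * (B + 1)) with hε'
  have hε'0 : 0 < ε' := by rw [hε']; positivity
  choose T' hT'1 hT'2 hT'3 using fun r s => hap r s ε' hε'0
  have hmemΩ₂ : ∀ x ∈ Ω₁, ∀ r s, x ∈ Ω₂ r s := fun x hx r s =>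
    mem_iInter.mp (mem_iInter.mp (hΩ₁Ω hx).2 r) s
  have hGm : ∀ x ∈ Ω₁, (∀ r s, HolAt (U r s) x) ∧ (∀ r s, HolAt (T r s) x) ∧
      (∀ r, M.At (t' r) x) ∧ (∀ r, M.At (t'' r) x) ∧
      (fun r => t'' r x) = mact (gmM U x) (fun r => t' r x) ∧
      (fun r => t' r x) = mact (gmM T x) (fun r => t'' r x) := fun x hx =>
    (show ∀ᶠ y in 𝓝 x, _ from (hΩ₁Ω hx).1.1).self_of_nhds
  set A : Fin p → Fin p → V → ℂ := fun r s x => - ∑ l, (T r l x - T' r l x) * U l s x with hAdef
  have hAhol : ∀ r s, HolNear (A r s) Ω₁ := by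
    intro r s x hx
    refine HolAt.neg (HolAt.sum _ fun l _ => ?_)
    exact (((hGm x hx).2.1 r l).sub (hT'2 r l x (hmemΩ₂ x hx r l))).mul ((hGm x hx).1 l s)
  have hAb : ∀ r s, ∀ x ∈ Ω₁, ‖A r s x‖ ≤ ε := by
    intro r s x hx
    rw [hAdef]
    simp only [norm_neg]
    calc ‖∑ l, (T r l x - T' r l x) * U l s x‖ ≤ ∑ l, ‖(T r l x - T' r l x) * U l s x‖ :=
          norm_sum_le _ _
      _ ≤ ∑ _l : Fin q, ε' * B := by
          refine Finset.sum_le_sum fun l _ => ?_
          rw [norm_mul]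
          exact mul_le_mul (hT'3 r l x (hmemΩ₂ x hx r l)) (hB l s x (hΩ₁Ω hx).1.2)
            (norm_nonneg _) hε'0.le
      _ = q * (ε' * B) := by simp
      _ ≤ ((q : ℝ) + 1) * (ε' * (B + 1)) := by
          have : (0 : ℝ) ≤ q := by positivity
          nlinarith [mul_nonneg hε'0.le hB0, mul_nonneg this hε'0.le]
      _ = ε := by rw [hε']; field_simp
  obtain ⟨a, b, ha, hb, ha2, hb2, hab⟩ := hfac A hAhol hAb
  -- the two families
  have hcmp' : IsCompact (Bx κ C i C') := isCompact_bx κ i hC hC'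
  have hcmp'' : IsCompact (Bx κ C i C'') := isCompact_bx κ i hC hC''
  set one : Fin p → Fin p → V → ℂ := fun r s _ => if r = s then 1 else 0 with hone
  set a1 : Fin p → Fin p → V → ℂ := fun r s x => one r s x + a r s x with ha1
  set bT : Fin p → Fin q → V → ℂ := fun r s x => ∑ l, (one r l x + b r l x) * T' l s x with hbT
  have honeh : ∀ r s x, HolAt (one r s) x := fun r s x => HolAt.const _ x
  have hgm1 : ∀ x, gmM one x = 1 := by
    intro x
    ext1 r s
    simp only [gmM, hone, Matrix.one_apply]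
    split_ifs
    · exact gm_one x
    · exact gm_zero x
  have hgma : ∀ x, (∀ r s, HolAt (a r s) x) → gmM a1 x = 1 + gmM a x := by
    intro x hx
    rw [← hgm1 x]
    ext1 r s
    exact gm_add (honeh r s x) (hx r s)
  have hgmb : ∀ x, (∀ r s, HolAt (b r s) x) → (∀ r s, HolAt (T' r s) x) →
      gmM bT x = (1 + gmM b x) * gmM T' x := by
    intro x hx hx2
    rw [← hgm1 x]
    ext1 r s
    rw [Matrix.mul_apply]
    simp only [gmM, hbT]
    rw [gm_sum _ fun l _ => ((honeh r l x).add (hx r l)).mul (hx2 l s)]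
    refine Finset.sum_congr rfl fun l _ => ?_
    rw [Matrix.add_apply]
    refine (gm_mul ((honeh r l x).add (hx r l)) (hx2 l s)).trans ?_
    congr 1
    exact gm_add (honeh r l x) (hx r l)
  obtain ⟨s, hs1, hs2⟩ := glue (St := fun x => Fin p → M.St x)
    (fun x => mact (gmM a1 x) fun r => t' r x) (fun x => mact (gmM bT x) fun r => t'' r x)
    hcmp' hcmp'' (by
      rw [bx_inter]
      intro x hx
      have g1 : ∀ᶠ y in 𝓝 x, ∀ r s, HolAt (a r s) y :=
        eventually_all.mpr fun r => eventually_all.mpr fun s =>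
          (ha r s x (hsub' hx)).eventually
      have g2 : ∀ᶠ y in 𝓝 x, ∀ r s, HolAt (b r s) y :=
        eventually_all.mpr fun r => eventually_all.mpr fun s =>
          (hb r s x (hsub'' hx)).eventually
      have g3 := eventually_eventually_nhds.mpr (hab x hx)
      filter_upwards [g1, g2, g3, hΩ₁.mem_nhds (hKΩ₁ hx)] with y h1 h2 h3 h4
      have h5 : ∀ r s, HolAt (T' r s) y := fun r s => hT'2 r s y (hmemΩ₂ y h4 r s)
      have h6 := hGm y h4
      rw [hgma y h1, hgmb y h2 h5]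
      have hAy : gmM A y = -((gmM T y - gmM T' y) * gmM U y) := by
        ext1 r s
        rw [Matrix.neg_apply, Matrix.mul_apply]
        have e0 : A r s = -(fun x => ∑ l, (T r l x - T' r l x) * U l s x) := rfl
        have hl : ∀ l ∈ (Finset.univ : Finset (Fin q)),
            HolAt (fun x => (T r l x - T' r l x) * U l s x) y := fun l _ =>
          ((h6.2.1 r l).sub (h5 r l)).mul (h6.1 l s)
        rw [gmM, e0, gm_neg (HolAt.sum _ hl), gm_sum _ hl]
        congr 1
        refine Finset.sum_congr rfl fun l _ => ?_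
        rw [Matrix.sub_apply]
        have e3 := gm_mul ((h6.2.1 r l).sub (h5 r l)) (h6.1 l s)
        refine e3.trans ?_
        rw [gm_sub' (h6.2.1 r l) (h5 r l)]
        rfl
      have hAyh : ∀ r s, HolAt (A r s) y := fun r s => hAhol r s y h4
      have hab' : 1 + gmM a y = (1 + gmM b y) * (1 + gmM A y) := by
        have h7 : gmM a y = gmM b y + gmM A y + gmM b y * gmM A y := by
          ext1 r s
          rw [Matrix.add_apply, Matrix.add_apply, Matrix.mul_apply]
          have e4 : a r s =ᶠ[𝓝 y] fun z => (b r s z + A r s z) + ∑ l, b r l z * A l s z := by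
            filter_upwards [h3] with z hz using hz r s
          have e5 : HolAt (fun z => ∑ l, b r l z * A l s z) y :=
            HolAt.sum _ fun l _ => (h2 r l).mul (hAyh l s)
          rw [gmM, gm_congr (h1 r s) e4]
          refine (gm_add ((h2 r s).add (hAyh r s)) e5).trans ?_
          rw [gm_sum _ fun l _ => (h2 r l).mul (hAyh l s)]
          congr 1
          · exact gm_add (h2 r s) (hAyh r s)
          · exact Finset.sum_congr rfl fun l _ => gm_mul (h2 r l) (hAyh l s)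
        rw [h7]
        noncomm_ring
      exact attach_algebra h6.2.2.2.2.2 h6.2.2.2.2.1 hAy hab')
  refine ⟨fun r x => s x r, fun r => ?_, ?_⟩
  · rw [← bx_union]
    rintro x (hx | hx)
    · refine M.congr (at_mact (A := a1) (t := t') (M.mem_dom (ht' r x hx)) ?_
        (fun s => ht' s x hx) r) ?_
      · intro r s
        exact (honeh r s x).add (ha r s x hx)
      · filter_upwards [hs1 x hx] with y hy
        rw [hy]
    · have hxd : x ∈ M.dom := hdom (by rw [← bx_union]; exact Or.inr hx)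
      refine M.congr (at_mact (A := bT) (t := t'') hxd ?_ (fun s => ht'' s x hx) r) ?_
      · intro r s
        exact HolAt.sum _ fun l _ => ((honeh r l x).add (hb r l x hx)).mul
          (hT'1 l s x (bx_mono κ i hX hx))
      · filter_upwards [hs2 x hx] with y hy
        rw [hy]
  · intro x hx
    have h1 := (hs1 x hx).self_of_nhds
    have h2 : (fun r => s x r) = mact (gmM a1 x) fun r => t' r x := h1
    rw [h2, hgma x fun r s => ha r s x hx]
    exact span_le_of_isUnit (isUnit_det_of_small (fun r s => ha r s x hx)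
      fun r s => (ha2 r s x hx).self_of_nhds) _

end Pool.Agent.DQ.C
end

section

/-! Cartan's theorems: the properties (A) and (B) and their behaviour under attaching. -/

set_option autoImplicit false

open Set Filter Topology

universe u v w

namespace Pool.Agent.DQ.C

variable {V : Type u} [NormedAddCommGroup V] [NormedSpace ℂ V] {n : ℕ}

/-- (A): there are finitely many sections near `K` which generate all stalks over `K` -/
def PropA (M : EMod.{u, u, w} (O V)) (K : Set V) : Prop :=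
  ∃ (p : ℕ) (g : Fin p → (x : V) → M.St x), (∀ r, M.On (g r) K) ∧ M.Gen g K

/-- the section `s` near `K` is a linear combination of the `g r` -/
def PropB1 (M : EMod.{u, u, w} (O V)) (K : Set V) {p : ℕ} (g : Fin p → (x : V) → M.St x)
    (s : (x : V) → M.St x) : Prop :=
  ∃ f : Fin p → V → ℂ, (∀ r, HolNear (f r) K) ∧ ∀ x ∈ K, s x = ∑ r, gm (f r) x • g r x

/-- (B): sections near `K` are linear combinations of given generators -/
def PropB (M : EMod.{u, u, w} (O V)) (K : Set V) : Prop :=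
  ∀ (p : ℕ) (g : Fin p → (x : V) → M.St x), (∀ r, M.On (g r) K) → M.Gen g K →
    ∀ s : (x : V) → M.St x, M.On s K → PropB1 M K g s

theorem PropA.mono {M : EMod.{u, u, w} (O V)} {K L : Set V} (h : PropA M K) (hL : L ⊆ K) :
    PropA M L := by
  obtain ⟨p, g, h1, h2⟩ := h
  exact ⟨p, g, fun r x hx => h1 r x (hL hx), fun x hx => h2 x (hL hx)⟩

theorem at_gm {f : V → ℂ} {x : V} (hf : HolAt f x) : (O V).At (gm f) x :=
  ⟨f, hf, Eventually.of_forall fun _ => rfl⟩

/-- a section of the structure sheaf is given by the function of its values -/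
theorem at_evg {a : (x : V) → (O V).St x} {x : V} (h : (O V).At a x) :
    HolAt (fun y => evg y (a y)) x ∧ ∀ᶠ y in 𝓝 x, a y = gm (fun y => evg y (a y)) y := by
  obtain ⟨f, hf, hfa⟩ := h
  have h1 : f =ᶠ[𝓝 x] fun y => evg y (a y) := by
    filter_upwards [hfa, hf.eventually] with y h1 h2
    rw [h1]
    exact (evg_gm h2).symm
  refine ⟨hf.congr h1, ?_⟩
  filter_upwards [hfa, hf.eventually, eventually_eventually_nhds.mpr h1] with y h2 h3 h4
  exact h2.trans (gm_congr h3 h4)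

theorem exists_coeff {M : EMod.{u, u, w} (O V)} {x : V} {p : ℕ}
    {g : Fin p → (x : V) → M.St x}
    (hg : Submodule.span ((O V).St x) (Set.range fun r => g r x) = ⊤) (m : M.St x) :
    ∃ c : Fin p → OGerm x, m = ∑ r, c r • g r x := by
  have h1 : m ∈ Submodule.span ((O V).St x) (Set.range fun r => g r x) := by
    rw [hg]; trivial
  rw [Submodule.mem_span_range_iff_exists_fun] at h1
  obtain ⟨c, hc⟩ := h1
  exact ⟨c, hc.symm⟩

theorem isCompact_bx' (κ : V ≃L[ℂ] (Fin n → ℂ)) {C : Fin n → Set ℂ} (i : Fin n)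
    (hC : ∀ j, IsCompact (C j)) {S : Set ℂ} (hS : IsCompact S) : IsCompact (Bx κ C i S) :=
  isCompact_bx κ i hC hS

variable (κ : V ≃L[ℂ] (Fin n → ℂ)) {C : Fin n → Set ℂ} (i : Fin n)

/-- attaching: property (A) -/
theorem attachA {M : EMod.{u, u, w} (O V)} (hC : ∀ j, IsCompact (C j)) {C' C'' X : Set ℂ}
    (hC' : IsCompact C') (hC'' : IsCompact C'') (hA : Appr V (C' ∩ C'') X) (hX : C' ∪ C'' ⊆ X)
    (hdom : Bx κ C i (C' ∪ C'') ⊆ M.dom) (h' : PropA M (Bx κ C i C'))
    (h'' : PropA M (Bx κ C i C'')) (hB : PropB M (Bx κ C i (C' ∩ C''))) :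
    PropA M (Bx κ C i (C' ∪ C'')) := by
  obtain ⟨p, t', ht', hg'⟩ := h'
  obtain ⟨q, t'', ht'', hg''⟩ := h''
  have hsub' : Bx κ C i (C' ∩ C'') ⊆ Bx κ C i C' := bx_mono κ i inter_subset_left
  have hsub'' : Bx κ C i (C' ∩ C'') ⊆ Bx κ C i C'' := bx_mono κ i inter_subset_right
  choose U hU eU using fun r => hB p t' (fun r x hx => ht' r x (hsub' hx))
    (fun x hx => hg' x (hsub' hx)) (t'' r) (fun x hx => ht'' r x (hsub'' hx))
  choose T hT eT using fun r => hB q t'' (fun r x hx => ht'' r x (hsub'' hx))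
    (fun x hx => hg'' x (hsub'' hx)) (t' r) (fun x hx => ht' r x (hsub' hx))
  have e1 : ∀ x ∈ Bx κ C i (C' ∩ C''), (fun r => t'' r x) = mact (gmM U x) (fun r => t' r x) :=
    fun x hx => funext fun r => eU r x hx
  have e2 : ∀ x ∈ Bx κ C i (C' ∩ C''), (fun r => t' r x) = mact (gmM T x) (fun r => t'' r x) :=
    fun x hx => funext fun r => eT r x hx
  obtain ⟨s₁, hs₁, hsp₁⟩ := attach_one κ i hC hC' hC'' hA (subset_union_right.trans hX) hdom
    ht' ht'' hU hT e1 e2
  have hA' : Appr V (C'' ∩ C') X := by rwa [inter_comm]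
  have hdom' : Bx κ C i (C'' ∪ C') ⊆ M.dom := by rwa [union_comm]
  obtain ⟨s₂, hs₂, hsp₂⟩ := attach_one κ i hC hC'' hC' hA' (subset_union_left.trans hX) hdom'
    ht'' ht' (U := T) (T := U) (by rwa [inter_comm]) (by rwa [inter_comm])
    (by rwa [inter_comm]) (by rwa [inter_comm])
  rw [union_comm] at hs₂
  refine ⟨p + q, fun r => Fin.addCases s₁ s₂ r, ?_, ?_⟩
  · intro r
    refine Fin.addCases (fun r => ?_) (fun r => ?_) r
    · simpa using hs₁ r
    · simpa using hs₂ r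
  · intro x hx
    rw [← bx_union] at hx
    rw [eq_top_iff]
    rcases hx with hx | hx
    · rw [← hg' x hx]
      refine (hsp₁ x hx).trans (Submodule.span_mono ?_)
      rintro _ ⟨r, rfl⟩
      exact ⟨Fin.castAdd q r, by simp⟩
    · rw [← hg'' x hx]
      refine (hsp₂ x hx).trans (Submodule.span_mono ?_)
      rintro _ ⟨r, rfl⟩
      exact ⟨Fin.natAdd p r, by simp⟩

theorem relVal_smul (M : EMod.{u, u, w} (O V)) {p : ℕ} (g : Fin p → (x : V) → M.St x) (x : V)
    (a : (O V).St x) (t : (M.relSh g).St x) (r : Fin p) :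
    M.relVal g x (a • t) r = a * M.relVal g x t r := by
  rw [map_smul]
  rfl

/-- attaching: property (B) -/
theorem attachB {M : EMod.{u, u, w} (O V)} (hC : ∀ j, IsCompact (C j)) {C' C'' : Set ℂ}
    (hC' : IsCompact C') (hC'' : IsCompact C'')
    (hdom : Bx κ C i (C' ∪ C'') ⊆ M.dom) {p : ℕ} {g : Fin p → (x : V) → M.St x}
    (hg : ∀ r, M.On (g r) (Bx κ C i (C' ∪ C''))) {s : (x : V) → M.St x}
    (h' : PropB1 M (Bx κ C i C') g s) (h'' : PropB1 M (Bx κ C i C'') g s)
    (hA : PropA (M.relSh g) (Bx κ C i (C' ∪ C'')))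
    (hB : PropB (M.relSh g) (Bx κ C i (C' ∩ C''))) :
    PropB1 M (Bx κ C i (C' ∪ C'')) g s := by
  obtain ⟨f', hf', e'⟩ := h'
  obtain ⟨f'', hf'', e''⟩ := h''
  obtain ⟨m, h, hh, hhg⟩ := hA
  have hsub' : Bx κ C i (C' ∩ C'') ⊆ Bx κ C i C' := bx_mono κ i inter_subset_left
  have hsub'' : Bx κ C i (C' ∩ C'') ⊆ Bx κ C i C'' := bx_mono κ i inter_subset_right
  have hsubu : Bx κ C i (C' ∩ C'') ⊆ Bx κ C i (C' ∪ C'') :=
    bx_mono κ i (inter_subset_left.trans subset_union_left)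
  have hsubu' : Bx κ C i C' ⊆ Bx κ C i (C' ∪ C'') := bx_mono κ i subset_union_left
  have hsubu'' : Bx κ C i C'' ⊆ Bx κ C i (C' ∪ C'') := bx_mono κ i subset_union_right
  -- the functions representing the `h j`
  set H : Fin m → Fin p → V → ℂ := fun j r y => evg y (M.relVal g y (h j y) r) with hH
  have hHat : ∀ j r, ∀ x ∈ Bx κ C i (C' ∪ C''), HolAt (H j r) x ∧
      ∀ᶠ y in 𝓝 x, M.relVal g y (h j y) r = gm (H j r) y := fun j r x hx =>
    at_evg (a := fun y => M.relVal g y (h j y) r) ((EMod.relSh_at_iff.mp (hh j x hx)).2 r)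
  have hHrel : ∀ j, ∀ x ∈ Bx κ C i (C' ∪ C''), ∑ r, gm (H j r) x • g r x = 0 := by
    intro j x hx
    have h1 := M.relVal_mem g x (h j x)
    rw [← h1]
    refine Finset.sum_congr rfl fun r _ => ?_
    rw [(hHat j r x hx).2.self_of_nhds]
    rfl
  -- the difference of the coefficients
  set d : Fin p → (x : V) → (O V).St x := fun r => gm (fun y => f' r y - f'' r y) with hd
  have hdh : ∀ r, HolNear (fun y => f' r y - f'' r y) (Bx κ C i (C' ∩ C'')) := fun r x hx =>
    (hf' r x (hsub' hx)).sub (hf'' r x (hsub'' hx))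
  have hdrel : ∀ x ∈ Bx κ C i (C' ∩ C''), ∑ r, d r x • g r x = 0 := by
    intro x hx
    have h1 : ∀ r, d r x = gm (f' r) x - gm (f'' r) x := fun r =>
      gm_sub' (hf' r x (hsub' hx)) (hf'' r x (hsub'' hx))
    have h2 : ∑ r, d r x • g r x = ∑ r, (gm (f' r) x • g r x - gm (f'' r) x • g r x) := by
      refine Finset.sum_congr rfl fun r _ => ?_
      rw [h1]
      exact sub_smul (gm (f' r) x) (gm (f'' r) x) (g r x)
    rw [h2, Finset.sum_sub_distrib, ← e' x (hsub' hx), ← e'' x (hsub'' hx), sub_self]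
  obtain ⟨c, hc, ec⟩ := hB m h (fun j x hx => hh j x (hsubu hx)) (fun x hx => hhg x (hsubu hx))
    (M.mkRel g d) (fun x hx => EMod.mkRel_at (hdom (hsubu hx)) (fun r => hg r x (hsubu hx))
      (fun r => at_gm (hdh r x hx)) (hdrel x hx))
  choose c' c'' hc' hc'' ecc using fun j => split_bx κ i hC hC' hC'' (hc j)
  -- near the intersection `d = ∑ c H`
  have hdc : ∀ r, ∀ x ∈ Bx κ C i (C' ∩ C''), ∀ᶠ y in 𝓝 x,
      f' r y - f'' r y = ∑ j, c j y * H j r y := by
    intro r x hx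
    have h1 : M.relVal g x (M.mkRel g d x) r = M.relVal g x (∑ j, gm (c j) x • h j x) r :=
      congrArg (fun t => M.relVal g x t r) (ec x hx)
    rw [EMod.mkRel_val (hdrel x hx)] at h1
    have h2 : M.relVal g x (∑ j, gm (c j) x • h j x) r =
        ∑ j, gm (c j) x * gm (H j r) x := by
      have e0 : M.relVal g x (∑ j, gm (c j) x • h j x) =
          ∑ j, M.relVal g x (gm (c j) x • h j x) := map_sum _ _ _
      rw [e0, Finset.sum_apply]
      refine Finset.sum_congr rfl fun j _ => ?_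
      refine (relVal_smul M g x (gm (c j) x) (h j x) r).trans ?_
      rw [(hHat j r x (hsubu hx)).2.self_of_nhds]
      rfl
    have hsum : HolAt (fun y => ∑ j, c j y * H j r y) x :=
      HolAt.sum _ fun j _ => (hc j x hx).mul (hHat j r x (hsubu hx)).1
    have h3 : gm (fun y => f' r y - f'' r y) x = gm (fun y => ∑ j, c j y * H j r y) x := by
      rw [gm_sum _ fun j _ => (hc j x hx).mul (hHat j r x (hsubu hx)).1]
      refine Eq.trans h1 (h2.trans ?_)
      exact Finset.sum_congr rfl fun j _ => (gm_mul (hc j x hx) (hHat j r x (hsubu hx)).1).symm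
    exact (gm_eq_iff (hdh r x hx) hsum).mp h3
  obtain ⟨F, hF1, hF2⟩ := glue (St := fun _ : V => Fin p → ℂ)
    (fun y r => f' r y - ∑ j, c' j y * H j r y) (fun y r => f'' r y - ∑ j, c'' j y * H j r y)
    (isCompact_bx κ i hC hC') (isCompact_bx κ i hC hC'') (by
      rw [bx_inter]
      intro x hx
      filter_upwards [eventually_all.mpr fun r => hdc r x hx,
        eventually_all.mpr fun j => ecc j x hx] with y h1 h2
      funext r
      have h3 := h1 r
      simp only [h2, sub_mul, Finset.sum_sub_distrib] at h3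
      linear_combination h3)
  -- the two local computations
  have key : ∀ (x : V), x ∈ Bx κ C i (C' ∪ C'') → ∀ (f₀ : Fin p → V → ℂ) (c₀ : Fin m → V → ℂ),
      (∀ r, HolAt (f₀ r) x) → (∀ j, HolAt (c₀ j) x) → s x = ∑ r, gm (f₀ r) x • g r x →
      (∀ᶠ y in 𝓝 x, F y = fun r => f₀ r y - ∑ j, c₀ j y * H j r y) →
      (∀ r, HolAt (fun y => F y r) x) ∧ s x = ∑ r, gm (fun y => F y r) x • g r x := by
    intro x hx f₀ c₀ hf₀ hc₀ hs hF
    have hsum : ∀ r, HolAt (fun y => ∑ j, c₀ j y * H j r y) x := fun r =>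
      HolAt.sum _ fun j _ => (hc₀ j).mul (hHat j r x hx).1
    have hsub : ∀ r, HolAt (fun y => f₀ r y - ∑ j, c₀ j y * H j r y) x := fun r =>
      (hf₀ r).sub (hsum r)
    have hFr : ∀ r, (fun y => f₀ r y - ∑ j, c₀ j y * H j r y) =ᶠ[𝓝 x] fun y => F y r := by
      intro r
      filter_upwards [hF] with y hy
      rw [hy]
    refine ⟨fun r => (hsub r).congr (hFr r), ?_⟩
    have h1 : ∀ r, gm (fun y => F y r) x =
        gm (f₀ r) x - ∑ j, gm (c₀ j) x * gm (H j r) x := by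
      intro r
      rw [← gm_congr (hsub r) (hFr r), gm_sub' (hf₀ r) (hsum r),
        gm_sum _ fun j _ => (hc₀ j).mul (hHat j r x hx).1]
      congr 1
      exact Finset.sum_congr rfl fun j _ => gm_mul (hc₀ j) (hHat j r x hx).1
    have h2 : ∑ r, gm (fun y => F y r) x • g r x =
        ∑ r, gm (f₀ r) x • g r x - ∑ j, gm (c₀ j) x • ∑ r, gm (H j r) x • g r x := by
      simp only [h1, sub_smul, Finset.sum_sub_distrib, Finset.sum_smul, Finset.smul_sum, mul_smul]
      rw [Finset.sum_comm]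
    rw [h2, ← hs]
    have h3 : ∑ j, gm (c₀ j) x • ∑ r, gm (H j r) x • g r x = 0 := by
      refine Finset.sum_eq_zero fun j _ => ?_
      rw [hHrel j x hx, smul_zero]
    rw [h3, sub_zero]
  have key' : ∀ x ∈ Bx κ C i (C' ∪ C''), (∀ r, HolAt (fun y => F y r) x) ∧
      s x = ∑ r, gm (fun y => F y r) x • g r x := by
    intro x hx
    have hx2 := hx
    rw [← bx_union] at hx2
    rcases hx2 with hx2 | hx2
    · exact key x hx f' c' (fun r => hf' r x hx2) (fun j => hc' j x hx2) (e' x hx2) (hF1 x hx2)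
    · exact key x hx f'' c'' (fun r => hf'' r x hx2) (fun j => hc'' j x hx2) (e'' x hx2)
        (hF2 x hx2)
  exact ⟨fun r y => F y r, fun r x hx => (key' x hx).1 r, fun x hx => (key' x hx).2⟩

end Pool.Agent.DQ.C
end

section

/-! Approximation on segments. -/

set_option autoImplicit false

open Set Filter Topology

namespace Pool.Agent.DQ.C

variable {F : Type*} [NormedAddCommGroup F] [NormedSpace ℂ F]

theorem mem_cb {w z : ℂ} {ρ : ℝ} (hρ : 0 ≤ ρ) :
    z ∈ Metric.closedBall w ρ ↔ (z.re - w.re) ^ 2 + (z.im - w.im) ^ 2 ≤ ρ ^ 2 := by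
  rw [Metric.mem_closedBall, dist_eq_norm, ← abs_of_nonneg (norm_nonneg (z - w)),
    ← abs_of_nonneg hρ, ← sq_le_sq, Complex.sq_norm, Complex.normSq_apply, abs_of_nonneg hρ]
  simp only [Complex.sub_re, Complex.sub_im]
  rw [← pow_two, ← pow_two]

/-- large radius: `ρ = √(s² + q)` is close to `s` -/
theorem exists_radius {q η : ℝ} (hq : 0 ≤ q) (hη : 0 < η) :
    ∃ s ρ : ℝ, 0 < s ∧ 0 ≤ ρ ∧ ρ ^ 2 = s ^ 2 + q ∧ ρ - s < η := by
  set s : ℝ := q / η + 1 with hs
  have hs0 : 0 < s := by rw [hs]; positivity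
  refine ⟨s, Real.sqrt (s ^ 2 + q), hs0, Real.sqrt_nonneg _, Real.sq_sqrt (by positivity), ?_⟩
  have h1 : Real.sqrt (s ^ 2 + q) < s + η := by
    rw [Real.sqrt_lt' (by linarith)]
    have h2 : s * η = q + η := by
      rw [hs]; field_simp
    nlinarith
  linarith

theorem isCompact_vseg (a c d : ℝ) : IsCompact {z : ℂ | z.re = a ∧ c ≤ z.im ∧ z.im ≤ d} := by
  have h1 : {z : ℂ | z.re = a ∧ c ≤ z.im ∧ z.im ≤ d} =
      (fun y : ℝ => (⟨a, y⟩ : ℂ)) '' Icc c d := by
    ext z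
    simp only [mem_ofPred_eq, mem_image, mem_Icc]
    constructor
    · rintro ⟨h1, h2, h3⟩
      exact ⟨z.im, ⟨h2, h3⟩, by rw [← h1]⟩
    · rintro ⟨y, ⟨h2, h3⟩, rfl⟩
      exact ⟨rfl, h2, h3⟩
  rw [h1]
  refine isCompact_Icc.image ?_
  have : (fun y : ℝ => (⟨a, y⟩ : ℂ)) = fun y : ℝ => (a : ℂ) + (y : ℂ) * Complex.I := by
    ext y
    apply Complex.ext <;> simp
  rw [this]
  fun_prop

theorem appr_vseg (a : ℝ) {c d : ℝ} (hcd : c ≤ d) :
    Appr F {z : ℂ | z.re = a ∧ c ≤ z.im ∧ z.im ≤ d} univ := by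
  refine Appr.of_subset (isCompact_vseg a c d) fun U hU hDU => ?_
  obtain ⟨η, hη, hηU⟩ := (isCompact_vseg a c d).exists_thickening_subset_open hU hDU
  set m : ℝ := (c + d) / 2 with hm
  set h : ℝ := (d - c) / 2 with hh
  have hh0 : 0 ≤ h := by rw [hh]; linarith
  obtain ⟨s, ρ, hs, hρ0, hρ, hρs⟩ := exists_radius (q := (h + η / 4) ^ 2) (η := η / 2)
    (by positivity) (by positivity)
  refine ⟨Metric.closedBall ⟨a - s, m⟩ ρ ∩ Metric.closedBall ⟨a + s, m⟩ ρ, ?_, ?_,
    Appr.inter (isCompact_closedBall _ _) (isCompact_closedBall _ _) (appr_closedBall _ _)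
      (appr_closedBall _ _)⟩
  · rintro z ⟨hz1, hz2, hz3⟩
    have e1 : (z.im - m) ^ 2 ≤ (h + η / 4) ^ 2 := by
      apply sq_le_sq'
      · rw [hm, hh]; linarith
      · rw [hm, hh]; linarith
    constructor
    · rw [mem_cb hρ0, hρ, hz1]
      simp only
      nlinarith
    · rw [mem_cb hρ0, hρ, hz1]
      simp only
      nlinarith
  · rintro z ⟨hz1, hz2⟩
    rw [mem_cb hρ0] at hz1 hz2
    simp only at hz1 hz2
    have e1 : |z.re - a| ≤ ρ - s := by
      rw [abs_le]
      have h1 := (abs_le.mp (abs_le_of_sq_le_sq (show (z.re - (a - s)) ^ 2 ≤ ρ ^ 2 by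
        nlinarith [sq_nonneg (z.im - m)]) hρ0)).2
      have h2 := (abs_le.mp (abs_le_of_sq_le_sq (show (z.re - (a + s)) ^ 2 ≤ ρ ^ 2 by
        nlinarith [sq_nonneg (z.im - m)]) hρ0)).1
      constructor <;> linarith
    have e2 : |z.im - m| ≤ h + η / 4 := by
      apply abs_le_of_sq_le_sq _ (by positivity)
      nlinarith [sq_nonneg (z.re - a)]
    apply hηU
    rw [Metric.mem_thickening_iff]
    refine ⟨⟨a, max c (min z.im d)⟩, ⟨rfl, le_max_left _ _, max_le hcd (min_le_right _ _)⟩, ?_⟩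
    rw [dist_eq_norm]
    refine (Complex.norm_le_abs_re_add_abs_im _).trans_lt ?_
    simp only [Complex.sub_re, Complex.sub_im]
    have e3 : |z.im - max c (min z.im d)| ≤ η / 4 := by
      rw [abs_le] at e2 ⊢
      rcases le_total z.im d with h1 | h1
      · rw [min_eq_left h1]
        rcases le_total c z.im with h2 | h2
        · rw [max_eq_right h2]; constructor <;> linarith
        · rw [max_eq_left h2]; constructor <;> linarith [e2.1]
      · rw [min_eq_right h1, max_eq_right hcd]; constructor <;> linarith [e2.2]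
    linarith

theorem norm_sub_sq (z c : ℂ) : ‖z - c‖ ^ 2 = (z.re - c.re) ^ 2 + (z.im - c.im) ^ 2 := by
  rw [Complex.sq_norm, Complex.normSq_apply]
  simp only [Complex.sub_re, Complex.sub_im]
  ring

theorem isCompact_hpair (c : ℂ) (r R : ℝ) :
    IsCompact {z : ℂ | z.im = c.im ∧ r ≤ ‖z - c‖ ∧ ‖z - c‖ ≤ R} := by
  have h1 : {z : ℂ | z.im = c.im ∧ r ≤ ‖z - c‖ ∧ ‖z - c‖ ≤ R} =
      {z : ℂ | r ≤ ‖z - c‖ ∧ ‖z - c‖ ≤ R} ∩ {z | z.im = c.im} := by
    ext z
    simp only [mem_ofPred_eq, mem_inter_iff]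
    tauto
  rw [h1]
  exact (isCompact_annulus c r R).inter_right
    (isClosed_eq Complex.continuous_im continuous_const)

theorem appr_hpair (c : ℂ) {r R : ℝ} (hr : 0 < r) (hrR : r ≤ R) :
    Appr F {z : ℂ | z.im = c.im ∧ r ≤ ‖z - c‖ ∧ ‖z - c‖ ≤ R} {c}ᶜ := by
  refine Appr.of_subset (isCompact_hpair c r R) fun U hU hDU => ?_
  obtain ⟨η, hη, hηU⟩ := (isCompact_hpair c r R).exists_thickening_subset_open hU hDU
  set δ : ℝ := min (η / 4) (r / 2) with hδ
  have hδ0 : 0 < δ := by rw [hδ]; positivity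
  have hδ1 : δ ≤ η / 4 := min_le_left _ _
  have hδ2 : δ ≤ r / 2 := min_le_right _ _
  obtain ⟨s, ρ, hs, hρ0, hρ, hρs⟩ := exists_radius (q := R ^ 2) (η := η / 4)
    (by positivity) (by positivity)
  refine ⟨Metric.closedBall ⟨c.re, c.im - s⟩ ρ ∩ Metric.closedBall ⟨c.re, c.im + s⟩ ρ ∩
    {z : ℂ | r - δ ≤ ‖z - c‖ ∧ ‖z - c‖ ≤ R}, ?_, ?_,
    Appr.inter ((isCompact_closedBall _ _).inter (isCompact_closedBall _ _))
      (isCompact_annulus _ _ _)
      ((Appr.inter (isCompact_closedBall _ _) (isCompact_closedBall _ _) (appr_closedBall _ _)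
      (appr_closedBall _ _)).mono (subset_univ _)) (appr_annulus c (by linarith) (by linarith))⟩
  · rintro z ⟨hz1, hz2, hz3⟩
    have e0 := norm_sub_sq z c
    have e1 : ‖z - c‖ ^ 2 ≤ R ^ 2 := by
      apply pow_le_pow_left₀ (norm_nonneg _) hz3
    rw [hz1, sub_self] at e0
    refine ⟨⟨?_, ?_⟩, by linarith, hz3⟩
    · rw [mem_cb hρ0, hρ, hz1]
      simp only
      nlinarith
    · rw [mem_cb hρ0, hρ, hz1]
      simp only
      nlinarith
  · rintro z ⟨⟨hz1, hz2⟩, hz3, hz4⟩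
    rw [mem_cb hρ0] at hz1 hz2
    simp only at hz1 hz2
    have e1 : |z.im - c.im| ≤ ρ - s := by
      rw [abs_le]
      have h1 := (abs_le.mp (abs_le_of_sq_le_sq (show (z.im - (c.im - s)) ^ 2 ≤ ρ ^ 2 by
        nlinarith [sq_nonneg (z.re - c.re)]) hρ0)).2
      have h2 := (abs_le.mp (abs_le_of_sq_le_sq (show (z.im - (c.im + s)) ^ 2 ≤ ρ ^ 2 by
        nlinarith [sq_nonneg (z.re - c.re)]) hρ0)).1
      constructor <;> linarith
    have e2 : ‖z - c‖ ≤ |z.re - c.re| + |z.im - c.im| := by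
      have := Complex.norm_le_abs_re_add_abs_im (z - c)
      simpa using this
    have e3 : |z.re - c.re| ≤ ‖z - c‖ := by
      have := Complex.abs_re_le_norm (z - c)
      simpa using this
    apply hηU
    rw [Metric.mem_thickening_iff]
    -- the sign of `z.re - c.re`
    have key : ∀ σ : ℝ, σ = 1 ∨ σ = -1 → |z.re - c.re| = σ * (z.re - c.re) →
        ∃ w ∈ {z : ℂ | z.im = c.im ∧ r ≤ ‖z - c‖ ∧ ‖z - c‖ ≤ R}, dist z w < η := by
      intro σ hσ hσ2
      set t : ℝ := max r |z.re - c.re| with ht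
      have ht1 : r ≤ t := le_max_left _ _
      have ht2 : t ≤ R := max_le hrR (e3.trans hz4)
      refine ⟨⟨c.re + σ * t, c.im⟩, ⟨rfl, ?_, ?_⟩, ?_⟩
      · have : ‖(⟨c.re + σ * t, c.im⟩ : ℂ) - c‖ = t := by
          apply (pow_left_inj₀ (norm_nonneg _) (hr.le.trans ht1) two_ne_zero).mp
          rw [norm_sub_sq]
          rcases hσ with rfl | rfl <;> simp
        rw [this]; exact ht1
      · have : ‖(⟨c.re + σ * t, c.im⟩ : ℂ) - c‖ = t := by
          apply (pow_left_inj₀ (norm_nonneg _) (hr.le.trans ht1) two_ne_zero).mp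
          rw [norm_sub_sq]
          rcases hσ with rfl | rfl <;> simp
        rw [this]; exact ht2
      · rw [dist_eq_norm]
        refine (Complex.norm_le_abs_re_add_abs_im _).trans_lt ?_
        simp only [Complex.sub_re, Complex.sub_im]
        have e4 : |z.re - (c.re + σ * t)| ≤ δ + (ρ - s) := by
          have e5 : z.re - (c.re + σ * t) = σ * (|z.re - c.re| - t) := by
            rw [hσ2]
            rcases hσ with rfl | rfl <;> ring
          have e6 : |σ| = 1 := by rcases hσ with rfl | rfl <;> simp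
          rw [e5, abs_mul, e6, one_mul, abs_sub_comm, abs_of_nonneg (by
            rw [ht]; linarith [le_max_right r |z.re - c.re|])]
          rw [ht]
          rcases le_total r |z.re - c.re| with h1 | h1
          · rw [max_eq_right h1]; linarith [abs_nonneg (z.im - c.im)]
          · rw [max_eq_left h1]; linarith
        linarith
    rcases le_total 0 (z.re - c.re) with h | h
    · exact key 1 (Or.inl rfl) (by rw [abs_of_nonneg h, one_mul])
    · exact key (-1) (Or.inr rfl) (by rw [abs_of_nonpos h]; ring)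

/-- compact sets all of whose vertical sections are segments -/
structure VConv (C : Set ℂ) : Prop where
  compact : IsCompact C
  sec : ∀ z ∈ C, ∀ w ∈ C, z.re = w.re → ∀ y : ℝ, z.im ≤ y → y ≤ w.im → (⟨z.re, y⟩ : ℂ) ∈ C

theorem VConv.section_eq {C : Set ℂ} (h : VConv C) (a : ℝ) :
    C ∩ {z | z.re = a} = ∅ ∨
      ∃ c d : ℝ, c ≤ d ∧ C ∩ {z | z.re = a} = {z : ℂ | z.re = a ∧ c ≤ z.im ∧ z.im ≤ d} := by
  rcases (C ∩ {z | z.re = a}).eq_empty_or_nonempty with h0 | hne
  · exact Or.inl h0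
  right
  have hc : IsCompact (C ∩ {z | z.re = a}) :=
    h.compact.inter_right (isClosed_eq Complex.continuous_re continuous_const)
  obtain ⟨u, hu, humin⟩ := hc.exists_isMinOn hne Complex.continuous_im.continuousOn
  obtain ⟨v, hv, hvmax⟩ := hc.exists_isMaxOn hne Complex.continuous_im.continuousOn
  refine ⟨u.im, v.im, humin hv, ?_⟩
  ext z
  constructor
  · intro hz
    exact ⟨hz.2, humin hz, hvmax hz⟩
  · rintro ⟨h1, h2, h3⟩
    have hu2 : u.re = a := hu.2
    have hv2 : v.re = a := hv.2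
    have := h.sec u hu.1 v hv.1 (by rw [hu2, hv2]) z.im h2 h3
    rw [hu2, ← h1] at this
    exact ⟨this, h1⟩

theorem appr_empty (X : Set ℂ) : Appr F ∅ X := by
  intro L _ f _
  exact ⟨∅, univ, isOpen_empty, isOpen_univ, subset_rfl, subset_univ _, fun ε _ =>
    ⟨fun _ => 0, fun p _ => HolAt.const 0 p, fun p hp => absurd hp.1 (notMem_empty _)⟩⟩

theorem VConv.appr_section {C : Set ℂ} (h : VConv C) (a : ℝ) :
    Appr F (C ∩ {z | z.re = a}) univ := by
  rcases h.section_eq a with h0 | ⟨c, d, hcd, h0⟩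
  · rw [h0]; exact appr_empty _
  · rw [h0]; exact appr_vseg a hcd

theorem VConv.inter_re {C : Set ℂ} (h : VConv C) {S : Set ℝ} (hS : IsClosed S) :
    VConv (C ∩ {z | z.re ∈ S}) where
  compact := h.compact.inter_right (hS.preimage Complex.continuous_re)
  sec z hz w hw e y h1 h2 := ⟨h.sec z hz.1 w hw.1 e y h1 h2, hz.2⟩

theorem VConv.inter_im {C : Set ℂ} (h : VConv C) {S : Set ℝ} (hS : IsClosed S)
    (hc : S.OrdConnected) : VConv (C ∩ {z | z.im ∈ S}) where
  compact := h.compact.inter_right (hS.preimage Complex.continuous_im)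
  sec z hz w hw e y h1 h2 := ⟨h.sec z hz.1 w hw.1 e y h1 h2, hc.out hz.2 hw.2 ⟨h1, h2⟩⟩

theorem vconv_closedBall (c : ℂ) (ρ : ℝ) : VConv (Metric.closedBall c ρ) where
  compact := isCompact_closedBall c ρ
  sec z hz w hw e y h1 h2 := by
    by_cases hρ : ρ < 0
    · rw [Metric.closedBall_eq_empty.mpr hρ] at hz
      exact absurd hz (notMem_empty _)
    have hρ0 : 0 ≤ ρ := not_lt.mp hρ
    rw [mem_cb hρ0] at hz hw ⊢
    simp only
    rw [← e] at hw
    rcases le_total y c.im with h | h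
    · nlinarith
    · nlinarith

/-- the two halves of an annulus -/
theorem vconv_halfAnnulus (c : ℂ) (r R : ℝ) (hr : 0 ≤ r) (hR : 0 ≤ R) :
    VConv {z : ℂ | c.im ≤ z.im ∧ r ≤ ‖z - c‖ ∧ ‖z - c‖ ≤ R} ∧
    VConv {z : ℂ | z.im ≤ c.im ∧ r ≤ ‖z - c‖ ∧ ‖z - c‖ ≤ R} := by
  have key : ∀ z : ℂ, (r ≤ ‖z - c‖ ∧ ‖z - c‖ ≤ R) ↔
      r ^ 2 ≤ (z.re - c.re) ^ 2 + (z.im - c.im) ^ 2 ∧
        (z.re - c.re) ^ 2 + (z.im - c.im) ^ 2 ≤ R ^ 2 := by
    intro z
    rw [← norm_sub_sq, pow_le_pow_iff_left₀ hr (norm_nonneg _) two_ne_zero,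
      pow_le_pow_iff_left₀ (norm_nonneg _) hR two_ne_zero]
  constructor
  · constructor
    · have h1 : {z : ℂ | c.im ≤ z.im ∧ r ≤ ‖z - c‖ ∧ ‖z - c‖ ≤ R} =
          {z : ℂ | r ≤ ‖z - c‖ ∧ ‖z - c‖ ≤ R} ∩ {z | c.im ≤ z.im} := by
        ext z
        simp only [mem_ofPred_eq, mem_inter_iff]
        tauto
      rw [h1]
      exact (isCompact_annulus c r R).inter_right
        (isClosed_le continuous_const Complex.continuous_im)
    · rintro z ⟨hz1, hz2⟩ w ⟨hw1, hw2⟩ e y h1 h2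
      rw [key] at hz2 hw2
      refine ⟨le_trans hz1 h1, (key _).mpr ?_⟩
      simp only
      rw [← e] at hw2
      constructor <;> nlinarith
  · constructor
    · have h1 : {z : ℂ | z.im ≤ c.im ∧ r ≤ ‖z - c‖ ∧ ‖z - c‖ ≤ R} =
          {z : ℂ | r ≤ ‖z - c‖ ∧ ‖z - c‖ ≤ R} ∩ {z | z.im ≤ c.im} := by
        ext z
        simp only [mem_ofPred_eq, mem_inter_iff]
        tauto
      rw [h1]
      exact (isCompact_annulus c r R).inter_right
        (isClosed_le Complex.continuous_im continuous_const)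
    · rintro z ⟨hz1, hz2⟩ w ⟨hw1, hw2⟩ e y h1 h2
      rw [key] at hz2 hw2
      refine ⟨le_trans h2 hw1, (key _).mpr ?_⟩
      simp only
      rw [← e] at hw2
      constructor <;> nlinarith

end Pool.Agent.DQ.C
end

section

/-! # DQ, module H: the coverings of Hartogs figures and shells -/

set_option autoImplicit false

open Set Filter Topology

universe u v

namespace Pool.Agent.DQ.H

/-- Covering data: linear coordinates, a polydisc, the directions `S` with their inner radii and an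
open set `Q` which does not depend on the coordinates in `S` (the small polydisc for a Hartogs
figure, the empty set for a shell). -/
structure CovD (V : Type u) [NormedAddCommGroup V] [NormedSpace ℂ V] (n : ℕ) where
  κ : V ≃L[ℂ] (Fin n → ℂ)
  c : Fin n → ℂ
  R : Fin n → ℝ
  S : Finset (Fin n)
  r : Fin n → ℝ
  Q : Set V
  R_pos : ∀ i, 0 < R i
  r_pos : ∀ i ∈ S, 0 < r i ∧ r i < R i
  Q_open : IsOpen Q
  Q_stab : ∀ i ∈ S, ∀ (x : V) (ζ : ℂ), C.upd κ i (ζ, x) ∈ Q ↔ x ∈ Q

variable {V : Type u} [NormedAddCommGroup V] [NormedSpace ℂ V] {n : ℕ} (D : CovD V n)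

/-- The intersection of the members of the covering with index in `T` (the index `⊥` is the one of
`Q`, the index `i` is the one of `{r_i < |x_i - c_i|}`, empty if `i ∉ S`), inside the polydisc. -/
def CovD.U (T : Finset (WithBot (Fin n))) : Set V :=
  {x | (∀ i, ‖D.κ x i - D.c i‖ < D.R i) ∧ (⊥ ∈ T → x ∈ D.Q) ∧
    ∀ i : Fin n, (i : WithBot (Fin n)) ∈ T → i ∈ D.S ∧ D.r i < ‖D.κ x i - D.c i‖}

/-- the directions `S` as indices -/
def CovD.S' : Finset (WithBot (Fin n)) := D.S.image WithBot.some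

/-- box of non-negative inner radii as a set of points

Proof. `ring (c i) (-1) (R i)`: `-1 < ‖·‖` always holds. -/
theorem mem_box_neg {κ : V ≃L[ℂ] (Fin n → ℂ)} {c : Fin n → ℂ} {R : Fin n → ℝ} {x : V} :
    x ∈ box κ c (-1) R ↔ ∀ i, ‖κ x i - c i‖ < R i := by
  constructor
  · intro h i
    exact (h i).2
  · intro h i
    refine ⟨?_, h i⟩
    have h1 : (-1 : Fin n → ℝ) i = -1 := rfl
    rw [h1]
    exact lt_of_lt_of_le (by norm_num) (norm_nonneg _)

theorem CovD.U_empty : D.U ∅ = box D.κ D.c (-1) D.R := by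
  ext x
  rw [mem_box_neg]
  constructor
  · intro h
    exact h.1
  · intro h
    exact ⟨h, fun h1 => absurd h1 (Finset.notMem_empty _),
      fun i h1 => absurd h1 (Finset.notMem_empty _)⟩

/-- Proof. finite intersections of open conditions (continuity of `x ↦ ‖D.κ x i - D.c i‖`); for fixed `T` the conditions `⊥ ∈ T`, `↑i ∈ T`, `i ∈ D.S` do not depend on `x` (`isOpen_iInter_of_finite`, `by_cases`). -/
theorem CovD.isOpen_U (T : Finset (WithBot (Fin n))) : IsOpen (D.U T) := by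
  have hc : ∀ i : Fin n, Continuous fun x : V => ‖D.κ x i - D.c i‖ := fun i =>
    (((continuous_apply i).comp D.κ.continuous).sub continuous_const).norm
  have h1 : IsOpen {x : V | ∀ i, ‖D.κ x i - D.c i‖ < D.R i} := by
    rw [Set.ofPred_forall]
    exact isOpen_iInter_of_finite fun i => isOpen_lt (hc i) continuous_const
  have h2 : IsOpen {x : V | ⊥ ∈ T → x ∈ D.Q} := by
    by_cases hT : (⊥ : WithBot (Fin n)) ∈ T
    · have e : {x : V | ⊥ ∈ T → x ∈ D.Q} = D.Q := by
        ext x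
        exact ⟨fun h => h hT, fun h _ => h⟩
      rw [e]
      exact D.Q_open
    · have e : {x : V | ⊥ ∈ T → x ∈ D.Q} = Set.univ := by
        ext x
        exact ⟨fun _ => trivial, fun _ h => absurd h hT⟩
      rw [e]
      exact isOpen_univ
  have h3 : IsOpen {x : V | ∀ i : Fin n, (i : WithBot (Fin n)) ∈ T →
      i ∈ D.S ∧ D.r i < ‖D.κ x i - D.c i‖} := by
    rw [Set.ofPred_forall]
    refine isOpen_iInter_of_finite fun i => ?_
    by_cases hT : (i : WithBot (Fin n)) ∈ T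
    · by_cases hS : i ∈ D.S
      · have e : {x : V | (i : WithBot (Fin n)) ∈ T → i ∈ D.S ∧ D.r i < ‖D.κ x i - D.c i‖} =
            {x : V | D.r i < ‖D.κ x i - D.c i‖} := by
          ext x
          exact ⟨fun h => (h hT).2, fun h _ => ⟨hS, h⟩⟩
        rw [e]
        exact isOpen_lt continuous_const (hc i)
      · have e : {x : V | (i : WithBot (Fin n)) ∈ T → i ∈ D.S ∧ D.r i < ‖D.κ x i - D.c i‖} =
            ∅ := by
          ext x
          exact ⟨fun h => absurd (h hT).1 hS, fun h => absurd h (Set.notMem_empty _)⟩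
        rw [e]
        exact isOpen_empty
    · have e : {x : V | (i : WithBot (Fin n)) ∈ T → i ∈ D.S ∧ D.r i < ‖D.κ x i - D.c i‖} =
          Set.univ := by
        ext x
        exact ⟨fun _ => trivial, fun _ h => absurd h hT⟩
      rw [e]
      exact isOpen_univ
  exact h1.inter (h2.inter h3)

theorem CovD.U_anti {T T' : Finset (WithBot (Fin n))} (h : T ⊆ T') : D.U T' ⊆ D.U T := by
  intro x hx
  exact ⟨hx.1, fun h1 => hx.2.1 (h h1), fun i h1 => hx.2.2 i (h h1)⟩

/-- Proof. `Finset.card_image_of_injective`, `WithBot.coe_injective` (`WithBot.some` is the coercion). -/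
theorem CovD.card_S' : D.S'.card = D.S.card :=
  Finset.card_image_of_injective _ WithBot.coe_injective

/-- `U T` is empty if `T` contains a direction outside `S` -/
theorem CovD.U_eq_empty {i : Fin n} (hi : i ∉ D.S) {T : Finset (WithBot (Fin n))}
    (hT : (i : WithBot (Fin n)) ∈ T) : D.U T = ∅ := by
  ext x
  exact ⟨fun h => absurd (h.2.2 i hT).1 hi, fun h => absurd h (Set.notMem_empty _)⟩

/-- Čech cohomology of the covering `U` with values in a sheaf of groups vanishes in degree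
`a - 1`: every alternating cocycle on the sets `U T`, `|T| = a`, is a coboundary (for `a = 0`: a
section over the polydisc which vanishes on the members of the covering is zero; for `a = 1`: a
compatible family of sections comes from a section over the polydisc). -/
def ColEx {X : Type u} [TopologicalSpace X] {ι : Type*} [LinearOrder ι] {G : X → Type v}
    [∀ x, AddCommGroup (G x)] (U : Finset ι → Set X) (At : ((x : X) → G x) → X → Prop) (a : ℕ) :
    Prop :=
  ∀ z : Finset ι → (x : X) → G x, (∀ T, T.card = a → ∀ x ∈ U T, At (z T) x) →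
    (∀ T, T.card = a + 1 → ∀ x ∈ U T, dC (fun T' => z T' x) T = 0) →
    ∃ y : Finset ι → (x : X) → G x, (∀ T, T.card + 1 = a → ∀ x ∈ U T, At (y T) x) ∧
      ∀ T, T.card = a → ∀ x ∈ U T, dC (fun T' => y T' x) T = z T x

end Pool.Agent.DQ.H
end

section

/-! # DQ, module H: projection of a function on an annulus to its part on the disc -/

set_option autoImplicit false

open Set Filter Topology

universe u

namespace Pool.Agent.DQ.H

variable {V : Type u} [NormedAddCommGroup V] [NormedSpace ℂ V] {n : ℕ}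

/-- the radius of the circle of integration -/
noncomputable def rad (κ : V ≃L[ℂ] (Fin n → ℂ)) (c : Fin n → ℂ) (r R : Fin n → ℝ) (i : Fin n)
    (x : V) : ℝ := (max (r i) ‖κ x i - c i‖ + R i) / 2

/-- Cauchy integral in the direction `i` -/
noncomputable def pj (κ : V ≃L[ℂ] (Fin n → ℂ)) (c : Fin n → ℂ) (r R : Fin n → ℝ) (i : Fin n)
    (f : V → ℂ) (x : V) : ℂ :=
  (2 * (Real.pi : ℂ) * Complex.I)⁻¹ *
    ∮ ζ in C(c i, rad κ c r R i x), (ζ - κ x i)⁻¹ * f (C.upd κ i (ζ, x))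

/-- the full region -/
def dreg (κ : V ≃L[ℂ] (Fin n → ℂ)) (c : Fin n → ℂ) (R : Fin n → ℝ) (i : Fin n) (Q : Set V) :
    Set V := {x | x ∈ Q ∧ ‖κ x i - c i‖ < R i}

/-- the annular region -/
def areg (κ : V ≃L[ℂ] (Fin n → ℂ)) (c : Fin n → ℂ) (r R : Fin n → ℝ) (i : Fin n) (Q : Set V) :
    Set V := {x | x ∈ Q ∧ r i < ‖κ x i - c i‖ ∧ ‖κ x i - c i‖ < R i}

variable {κ : V ≃L[ℂ] (Fin n → ℂ)} {c : Fin n → ℂ} {r R : Fin n → ℝ} {i : Fin n} {Q : Set V}

/-- the points of the circle of integration lie in the annular region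

Proof. put `w = κ x i - c i`, `ρ = rad … x = (max (r i) ‖w‖ + R i) / 2`; `max (r i) ‖w‖ < R i` gives `max (r i) ‖w‖ < ρ < R i`. `C.upd_same` gives the `i`-th coordinate of `C.upd κ i (ζ, x)`; `‖ζ - c i‖ = ρ`; if `ζ = κ x i` then `‖w‖ = ρ`, contradiction. -/
theorem circle_mem (h0 : 0 < r i) (hr : r i < R i)
    (hQ : ∀ (x : V) (ζ : ℂ), C.upd κ i (ζ, x) ∈ Q ↔ x ∈ Q) {x : V} (hx : x ∈ dreg κ c R i Q)
    {ζ : ℂ} (hζ : ζ ∈ Metric.sphere (c i) (rad κ c r R i x)) :
    C.upd κ i (ζ, x) ∈ areg κ c r R i Q ∧ ζ ≠ κ x i := by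
  obtain ⟨hxQ, hxR⟩ := hx
  have hn : ‖ζ - c i‖ = (max (r i) ‖κ x i - c i‖ + R i) / 2 := mem_sphere_iff_norm.mp hζ
  have hm : max (r i) ‖κ x i - c i‖ < R i := max_lt hr hxR
  have h1 : r i ≤ max (r i) ‖κ x i - c i‖ := le_max_left _ _
  have h2 : ‖κ x i - c i‖ ≤ max (r i) ‖κ x i - c i‖ := le_max_right _ _
  refine ⟨⟨(hQ x ζ).mpr hxQ, ?_, ?_⟩, ?_⟩
  · rw [C.upd_same]
    linarith
  · rw [C.upd_same]
    linarith
  · intro h
    rw [h] at hn
    linarith

end Pool.Agent.DQ.H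
end

section

/-! # DQ, module H: dependence on a direction -/

set_option autoImplicit false

open Set Filter Topology

universe u v

namespace Pool.Agent.DQ.H

variable {V : Type u} [NormedAddCommGroup V] [NormedSpace ℂ V] {n : ℕ} (D : CovD V n)

/-- the structure of `U T` with respect to a direction `i ∉ T`

Proof. `Q = {x | (∀ j ≠ i, ‖D.κ x j - D.c j‖ < D.R j) ∧ (⊥ ∈ T → x ∈ D.Q) ∧ ∀ j : Fin n, (j : WithBot (Fin n)) ∈ T → j ∈ D.S ∧ D.r j < ‖D.κ x j - D.c j‖}` (the `j` with `↑j ∈ T` are different from `i`). Open: finitely many open conditions. Stability: `C.upd_ne` for the coordinates `j ≠ i` and `D.Q_stab`. -/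
theorem CovD.U_split {i : Fin n} (hi : i ∈ D.S) {T : Finset (WithBot (Fin n))}
    (hT : (i : WithBot (Fin n)) ∉ T) :
    ∃ Q : Set V, IsOpen Q ∧ (∀ (x : V) (ζ : ℂ), C.upd D.κ i (ζ, x) ∈ Q ↔ x ∈ Q) ∧
      D.U T = dreg D.κ D.c D.R i Q ∧
      D.U (insert (i : WithBot (Fin n)) T) = areg D.κ D.c D.r D.R i Q := by
  classical
  have hc : ∀ j : Fin n, Continuous fun x : V => ‖D.κ x j - D.c j‖ := fun j =>
    ((C.continuous_coord D.κ j).sub continuous_const).norm
  refine ⟨{x | (∀ j, j ≠ i → ‖D.κ x j - D.c j‖ < D.R j) ∧ (⊥ ∈ T → x ∈ D.Q) ∧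
    ∀ j : Fin n, (j : WithBot (Fin n)) ∈ T → j ∈ D.S ∧ D.r j < ‖D.κ x j - D.c j‖}, ?_, ?_, ?_, ?_⟩
  · have e : {x | (∀ j, j ≠ i → ‖D.κ x j - D.c j‖ < D.R j) ∧ (⊥ ∈ T → x ∈ D.Q) ∧
        ∀ j : Fin n, (j : WithBot (Fin n)) ∈ T → j ∈ D.S ∧ D.r j < ‖D.κ x j - D.c j‖} =
        (⋂ j : Fin n, {x | j ≠ i → ‖D.κ x j - D.c j‖ < D.R j}) ∩ ({x | ⊥ ∈ T → x ∈ D.Q} ∩
        ⋂ j : Fin n, {x | (j : WithBot (Fin n)) ∈ T → j ∈ D.S ∧ D.r j < ‖D.κ x j - D.c j‖}) := by
      ext x
      rw [mem_inter_iff, mem_inter_iff, mem_iInter, mem_iInter]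
      rfl
    rw [e]
    refine IsOpen.inter (isOpen_iInter_of_finite fun j => ?_) (IsOpen.inter ?_
      (isOpen_iInter_of_finite fun j => ?_))
    · by_cases h : j = i
      · have : {x : V | j ≠ i → ‖D.κ x j - D.c j‖ < D.R j} = univ :=
          eq_univ_of_forall fun x h' => absurd h h'
        rw [this]
        exact isOpen_univ
      · have : {x : V | j ≠ i → ‖D.κ x j - D.c j‖ < D.R j} = {x : V | ‖D.κ x j - D.c j‖ < D.R j} := by
          ext x
          exact ⟨fun h' => h' h, fun h' _ => h'⟩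
        rw [this]
        exact isOpen_lt (hc j) continuous_const
    · by_cases h : (⊥ : WithBot (Fin n)) ∈ T
      · have : {x : V | ⊥ ∈ T → x ∈ D.Q} = D.Q := by
          ext x
          exact ⟨fun h' => h' h, fun h' _ => h'⟩
        rw [this]
        exact D.Q_open
      · have : {x : V | ⊥ ∈ T → x ∈ D.Q} = univ := eq_univ_of_forall fun x h' => absurd h' h
        rw [this]
        exact isOpen_univ
    · by_cases h : (j : WithBot (Fin n)) ∈ T
      · by_cases h2 : j ∈ D.S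
        · have : {x : V | (j : WithBot (Fin n)) ∈ T → j ∈ D.S ∧ D.r j < ‖D.κ x j - D.c j‖} =
              {x : V | D.r j < ‖D.κ x j - D.c j‖} := by
            ext x
            exact ⟨fun h' => (h' h).2, fun h' _ => ⟨h2, h'⟩⟩
          rw [this]
          exact isOpen_lt continuous_const (hc j)
        · have : {x : V | (j : WithBot (Fin n)) ∈ T → j ∈ D.S ∧ D.r j < ‖D.κ x j - D.c j‖} = ∅ :=
            eq_empty_of_forall_notMem fun x h' => h2 (h' h).1
          rw [this]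
          exact isOpen_empty
      · have : {x : V | (j : WithBot (Fin n)) ∈ T → j ∈ D.S ∧ D.r j < ‖D.κ x j - D.c j‖} = univ :=
          eq_univ_of_forall fun x h' => absurd h' h
        rw [this]
        exact isOpen_univ
  · intro x ζ
    have hne : ∀ j : Fin n, (j : WithBot (Fin n)) ∈ T → j ≠ i := by
      rintro j hj rfl
      exact hT hj
    constructor
    · rintro ⟨h1, h2, h3⟩
      refine ⟨fun j hj => ?_, fun h => (D.Q_stab i hi x ζ).mp (h2 h), fun j hj => ?_⟩
      · have := h1 j hj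
        rwa [C.upd_ne D.κ i _ hj] at this
      · have := h3 j hj
        rwa [C.upd_ne D.κ i _ (hne j hj)] at this
    · rintro ⟨h1, h2, h3⟩
      refine ⟨fun j hj => ?_, fun h => (D.Q_stab i hi x ζ).mpr (h2 h), fun j hj => ?_⟩
      · rw [C.upd_ne D.κ i _ hj]
        exact h1 j hj
      · rw [C.upd_ne D.κ i _ (hne j hj)]
        exact h3 j hj
  · ext x
    constructor
    · rintro ⟨h1, h2, h3⟩
      exact ⟨⟨fun j _ => h1 j, h2, h3⟩, h1 i⟩
    · rintro ⟨⟨h1, h2, h3⟩, h4⟩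
      refine ⟨fun j => ?_, h2, h3⟩
      by_cases hj : j = i
      · rw [hj]
        exact h4
      · exact h1 j hj
  · ext x
    constructor
    · rintro ⟨h1, h2, h3⟩
      exact ⟨⟨fun j _ => h1 j, fun h => h2 (Finset.mem_insert_of_mem h),
        fun j hj => h3 j (Finset.mem_insert_of_mem hj)⟩, (h3 i (Finset.mem_insert_self _ _)).2, h1 i⟩
    · rintro ⟨⟨h1, h2, h3⟩, h4, h5⟩
      refine ⟨fun j => ?_, fun h => h2 ?_, fun j hj => ?_⟩
      · by_cases hj : j = i
        · rw [hj]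
          exact h5
        · exact h1 j hj
      · rcases Finset.mem_insert.mp h with h | h
        · exact absurd h.symm (WithBot.coe_ne_bot)
        · exact h
      · rcases Finset.mem_insert.mp hj with h | h
        · have : j = i := WithBot.coe_injective h
          rw [this]
          exact ⟨hi, h4⟩
        · exact h3 j h

end Pool.Agent.DQ.H
end

section

/-! # DQ, module H: independence of the radius -/

set_option autoImplicit false

open Set Filter Topology

universe u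

namespace Pool.Agent.DQ.H

variable {V : Type u} [NormedAddCommGroup V] [NormedSpace ℂ V] {n : ℕ}
  {κ : V ≃L[ℂ] (Fin n → ℂ)} {c : Fin n → ℂ} {r R : Fin n → ℝ} {i : Fin n} {Q : Set V}

private theorem LauC_aux (h0 : 0 < r i)
    (hQ : ∀ (x : V) (ζ : ℂ), C.upd κ i (ζ, x) ∈ Q ↔ x ∈ Q) {f : V → ℂ}
    (hf : HolNear f (areg κ c r R i Q)) {x : V} (hx : x ∈ Q) {ρ σ : ℝ}
    (h1 : r i < ρ) (h2 : ‖κ x i - c i‖ < ρ) (h3 : ρ ≤ σ) (h4 : σ < R i) :
    (∮ ζ in C(c i, σ), (ζ - κ x i)⁻¹ * f (C.upd κ i (ζ, x))) =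
      ∮ ζ in C(c i, ρ), (ζ - κ x i)⁻¹ * f (C.upd κ i (ζ, x)) := by
  have key : ∀ ζ : ℂ, ρ ≤ ‖ζ - c i‖ → ‖ζ - c i‖ ≤ σ →
      DifferentiableAt ℂ (fun ζ : ℂ => (ζ - κ x i)⁻¹ * f (C.upd κ i (ζ, x))) ζ := by
    intro ζ ha hb
    have hne : ζ ≠ κ x i := by
      intro h
      rw [h] at ha
      exact absurd h2 (not_lt.mpr ha)
    have h5 : C.upd κ i (ζ, x) ∈ areg κ c r R i Q := by
      refine ⟨(hQ x ζ).mpr hx, ?_, ?_⟩
      · rw [C.upd_same]
        exact lt_of_lt_of_le h1 ha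
      · rw [C.upd_same]
        exact lt_of_le_of_lt hb h4
    have h6 : Differentiable ℂ (fun ζ : ℂ => C.upd κ i (ζ, x)) :=
      (C.differentiable_upd κ i).comp (differentiable_id.prodMk (differentiable_const _))
    have h7 : DifferentiableAt ℂ (fun ζ : ℂ => f (C.upd κ i (ζ, x))) ζ :=
      (hf _ h5).differentiableAt.comp ζ (h6 ζ)
    have h8 : DifferentiableAt ℂ (fun ζ : ℂ => (ζ - κ x i)⁻¹) ζ :=
      (differentiableAt_id.sub (differentiableAt_const _)).inv (sub_ne_zero.mpr hne)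
    exact h8.mul h7
  refine Complex.circleIntegral_eq_of_differentiable_on_annulus_off_countable
    (h0.trans h1) h3 countable_empty ?_ ?_
  · rintro ζ ⟨hz1, hz2⟩
    refine (key ζ ?_ (mem_closedBall_iff_norm.mp hz1)).continuousAt.continuousWithinAt
    rw [mem_ball_iff_norm, not_lt] at hz2
    exact hz2
  · rintro ζ ⟨⟨hz1, hz2⟩, -⟩
    refine key ζ ?_ (mem_ball_iff_norm.mp hz1).le
    rw [mem_closedBall_iff_norm, not_le] at hz2
    exact hz2.le

/-- the integral does not depend on the radius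

Proof. `Complex.circleIntegral_eq_of_differentiable_on_annulus_off_countable` (or `DiffContOnCl`-version) for the function `ζ ↦ (ζ - κ x i)⁻¹ * f (C.upd κ i (ζ, x))` on the closed annulus between the smaller and the larger of the two radii `ρ`, `rad … x` (`circle_mem`-type estimates: on this annulus `max (r i) ‖κ x i - c i‖ < ‖ζ - c i‖ < R i`, so `ζ ≠ κ x i` and `C.upd κ i (ζ, x)` is in `areg`). -/
theorem pj_radius (h0 : 0 < r i) (hr : r i < R i)
    (hQ : ∀ (x : V) (ζ : ℂ), C.upd κ i (ζ, x) ∈ Q ↔ x ∈ Q) {f : V → ℂ}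
    (hf : HolNear f (areg κ c r R i Q)) {x : V} (hx : x ∈ dreg κ c R i Q) {ρ : ℝ}
    (h1 : r i < ρ) (h2 : ‖κ x i - c i‖ < ρ) (h3 : ρ < R i) :
    pj κ c r R i f x = (2 * (Real.pi : ℂ) * Complex.I)⁻¹ *
      ∮ ζ in C(c i, ρ), (ζ - κ x i)⁻¹ * f (C.upd κ i (ζ, x)) := by
  obtain ⟨hxQ, hxR⟩ := hx
  have hm : max (r i) ‖κ x i - c i‖ < R i := max_lt hr hxR
  have ha : r i ≤ max (r i) ‖κ x i - c i‖ := le_max_left _ _
  have hb : ‖κ x i - c i‖ ≤ max (r i) ‖κ x i - c i‖ := le_max_right _ _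
  have hrad : rad κ c r R i x = (max (r i) ‖κ x i - c i‖ + R i) / 2 := rfl
  have hlt : rad κ c r R i x < R i := by rw [hrad]; linarith
  have hlt2 : ‖κ x i - c i‖ < rad κ c r R i x := by rw [hrad]; linarith
  have hlt1 : r i < rad κ c r R i x := by rw [hrad]; linarith
  unfold pj
  rcases le_total ρ (rad κ c r R i x) with h | h
  · rw [LauC_aux h0 hQ hf hxQ h1 h2 h hlt]
  · rw [LauC_aux h0 hQ hf hxQ hlt1 hlt2 h h3]

end Pool.Agent.DQ.H
end

section

/-! # DQ, module H: holomorphic dependence on parameters -/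

set_option autoImplicit false

open Set Filter Topology

universe u

namespace Pool.Agent.DQ.H

variable {V : Type u} [NormedAddCommGroup V] [NormedSpace ℂ V] {n : ℕ}
  {κ : V ≃L[ℂ] (Fin n → ℂ)} {c : Fin n → ℂ} {r R : Fin n → ℝ} {i : Fin n} {Q : Set V}

/-- the integral over a fixed circle is holomorphic in the parameter

Proof. (Differentiation under the integral sign.) The set of `y ∈ Q` with `‖κ y i - c i‖ < ρ` is an open neighbourhood of `x`; at such a point `y₀`, `F (y, ζ) = (ζ - κ y i)⁻¹ * f (C.upd κ i (ζ, y))` is holomorphic near `{y₀} × circle` and bounded on a ball around `y₀` times the circle (compactness; `HolNear.exists_tube` in `DHol.lean` gives a product neighbourhood and a bound). Use `Pool.Agent.Lib.MP_ca0fc2_an.Holo` (`differentiableAt_integral`, see the file, in the library `/team-store/DQ_C.tgz`), or `hasFDerivAt_integral_of_dominated_of_fderiv_le` with Cauchy estimates. `circleIntegral` is the interval integral of `deriv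 (circleMap c ρ) θ • F`; `CCT.lean`/`CTaylor.lean`/`CBox.lean` contain similar arguments. -/
theorem fixed_hol (hQo : IsOpen Q)
    (hQ : ∀ (x : V) (ζ : ℂ), C.upd κ i (ζ, x) ∈ Q ↔ x ∈ Q) {f : V → ℂ}
    (hf : HolNear f (areg κ c r R i Q)) {x : V} (hx : x ∈ Q) {ρ : ℝ} (h0 : 0 < ρ)
    (h1 : r i < ρ) (h2 : ‖κ x i - c i‖ < ρ) (h3 : ρ < R i) :
    HolAt (fun y => ∮ ζ in C(c i, ρ), (ζ - κ y i)⁻¹ * f (C.upd κ i (ζ, y))) x := by
  have hev : ∀ᶠ y in 𝓝 x, y ∈ Q ∧ ‖κ y i - c i‖ < ρ := by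
    have hc : Continuous fun y : V => ‖κ y i - c i‖ :=
      ((C.continuous_coord κ i).sub continuous_const).norm
    exact (hQo.eventually_mem hx).and ((isOpen_lt hc continuous_const).eventually_mem h2)
  filter_upwards [hev] with y₀ hy₀
  obtain ⟨hy1, hy2⟩ := hy₀
  obtain ⟨F, hFd⟩ : ∃ F : ℂ × V → ℂ, F = fun p : ℂ × V =>
      (p.1 - κ p.2 i)⁻¹ * f (C.upd κ i p) := ⟨_, rfl⟩
  have hF : HolNear F (Metric.sphere (c i) ρ ×ˢ {y₀}) := by
    rintro ⟨ζ, y⟩ ⟨hζ, hy⟩
    obtain rfl : y = y₀ := hy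
    have hn : ‖ζ - c i‖ = ρ := mem_sphere_iff_norm.mp hζ
    have ha : C.upd κ i (ζ, y) ∈ areg κ c r R i Q := by
      refine ⟨(hQ _ _).mpr hy1, ?_, ?_⟩
      · rw [C.upd_same]
        linarith
      · rw [C.upd_same]
        linarith
    have hne : ζ - κ y i ≠ 0 := by
      intro h
      rw [sub_eq_zero.mp h] at hn
      linarith
    have hg : Differentiable ℂ fun p : ℂ × V => p.1 - κ p.2 i :=
      differentiable_fst.sub ((C.differentiable_coord κ i).comp differentiable_snd)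
    rw [hFd]
    refine HolAt.mul ?_ ((hf _ ha).comp (Eventually.of_forall fun p => C.differentiable_upd κ i p))
    have hnz : ∀ᶠ p in 𝓝 ((ζ, y) : ℂ × V), p.1 - κ p.2 i ≠ 0 :=
      hg.continuous.continuousAt.eventually_ne hne
    filter_upwards [hnz] with p hp
    exact (hg p).inv hp
  obtain ⟨N, W, M, -, hW, hCN, hLW, -, hD, hB⟩ :=
    hF.exists_tube (isCompact_sphere _ _) isCompact_singleton
  obtain ⟨δ, hδ, hsub⟩ := Metric.isOpen_iff.mp hW y₀ (hLW rfl)
  have hmem : ∀ θ : ℝ, circleMap (c i) ρ θ ∈ N := fun θ =>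
    hCN (circleMap_mem_sphere (c i) h0.le θ)
  have e : (fun y => ∮ ζ in C(c i, ρ), (ζ - κ y i)⁻¹ * f (C.upd κ i (ζ, y))) =
      fun y => ∫ θ in Set.Ioc 0 (2 * Real.pi), deriv (circleMap (c i) ρ) θ *
        F (circleMap (c i) ρ θ, y) := by
    ext y
    rw [circleIntegral, intervalIntegral.integral_of_le (by positivity), hFd]
    simp only [smul_eq_mul]
  rw [e]
  clear e hFd hF hCN hLW
  refine Pool.Agent.Lib.MP_ca0fc2_an.differentiableAt_integral (r := δ) hδ
    (G := fun y θ => deriv (circleMap (c i) ρ) θ * F (circleMap (c i) ρ θ, y))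
    (g := fun _ => ρ * M) ?_ ?_ ?_ ?_
  · refine Eventually.of_forall fun θ => ?_
    have h5 : DifferentiableOn ℂ (fun y : V => ((circleMap (c i) ρ θ, y) : ℂ × V))
        (Metric.ball y₀ δ) := (differentiableOn_const _).prodMk differentiableOn_id
    have h6 : MapsTo (fun y : V => ((circleMap (c i) ρ θ, y) : ℂ × V)) (Metric.ball y₀ δ)
        (N ×ˢ W) := fun y hy => ⟨hmem θ, hsub hy⟩
    exact (hD.comp h5 h6).const_mul _
  · intro y hy
    have h5 : Continuous fun θ : ℝ => ((circleMap (c i) ρ θ, y) : ℂ × V) :=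
      (continuous_circleMap (c i) ρ).prodMk continuous_const
    have h4 : Continuous fun θ : ℝ => F (circleMap (c i) ρ θ, y) :=
      hD.continuousOn.comp_continuous h5 fun θ => ⟨hmem θ, hsub hy⟩
    have h6 : Continuous fun θ : ℝ => deriv (circleMap (c i) ρ) θ := by
      simp only [deriv_circleMap]
      fun_prop
    exact (h6.mul h4).aestronglyMeasurable
  · exact MeasureTheory.integrableOn_const measure_Ioc_lt_top.ne enorm_ne_top
  · refine Eventually.of_forall fun θ y hy => ?_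
    have h5 : ‖deriv (circleMap (c i) ρ) θ‖ = ρ := by
      simp [deriv_circleMap, circleMap, abs_of_pos h0]
    have h6 := hB (circleMap (c i) ρ θ, y) ⟨hmem θ, hsub hy⟩
    rw [norm_mul, h5]
    exact mul_le_mul_of_nonneg_left h6 h0.le

end Pool.Agent.DQ.H
end

section

/-! # DQ, module H: linearity of the projection -/

set_option autoImplicit false

open Set Filter Topology

universe u

namespace Pool.Agent.DQ.H

variable {V : Type u} [NormedAddCommGroup V] [NormedSpace ℂ V] {n : ℕ}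
  {κ : V ≃L[ℂ] (Fin n → ℂ)} {c : Fin n → ℂ} {r R : Fin n → ℝ} {i : Fin n} {Q : Set V}

private theorem LauA_rad_nonneg (h0 : 0 < r i) (hr : r i < R i) (x : V) :
    0 ≤ rad κ c r R i x := by
  have h1 : r i ≤ max (r i) ‖κ x i - c i‖ := le_max_left _ _
  have h2 : (0 : ℝ) ≤ (max (r i) ‖κ x i - c i‖ + R i) / 2 := by linarith
  exact h2

private theorem LauA_integrable (h0 : 0 < r i) (hr : r i < R i)
    (hQ : ∀ (x : V) (ζ : ℂ), C.upd κ i (ζ, x) ∈ Q ↔ x ∈ Q) {f : V → ℂ}
    (hf : HolNear f (areg κ c r R i Q)) {x : V} (hx : x ∈ dreg κ c R i Q) :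
    CircleIntegrable (fun ζ => (ζ - κ x i)⁻¹ * f (C.upd κ i (ζ, x))) (c i)
      (rad κ c r R i x) := by
  refine ContinuousOn.circleIntegrable (LauA_rad_nonneg h0 hr x) ?_
  intro ζ hζ
  obtain ⟨h1, h2⟩ := circle_mem h0 hr hQ hx hζ
  have h3 : ContinuousAt (fun ζ : ℂ => (ζ - κ x i)⁻¹) ζ :=
    (continuousAt_id.sub continuousAt_const).inv₀ (sub_ne_zero.mpr h2)
  have h4 : Continuous (fun ζ : ℂ => C.upd κ i (ζ, x)) :=
    (C.continuous_upd κ i).comp (continuous_id.prodMk continuous_const)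
  have h5 : ContinuousAt (fun ζ : ℂ => f (C.upd κ i (ζ, x))) ζ :=
    ContinuousAt.comp (f := fun ζ : ℂ => C.upd κ i (ζ, x)) (g := f)
      (hf _ h1).differentiableAt.continuousAt h4.continuousAt
  exact (h3.mul h5).continuousWithinAt

/-- Proof. the integrands agree on the circle (`circle_mem`), `circleIntegral.integral_congr` (radius nonnegative). -/
theorem pj_congr (h0 : 0 < r i) (hr : r i < R i)
    (hQ : ∀ (x : V) (ζ : ℂ), C.upd κ i (ζ, x) ∈ Q ↔ x ∈ Q) {f g : V → ℂ}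
    (hfg : ∀ x ∈ areg κ c r R i Q, f x = g x) {x : V} (hx : x ∈ dreg κ c R i Q) :
    pj κ c r R i f x = pj κ c r R i g x := by
  unfold pj
  congr 1
  refine circleIntegral.integral_congr (LauA_rad_nonneg h0 hr x) ?_
  intro ζ hζ
  have h1 := hfg _ (circle_mem h0 hr hQ hx hζ).1
  simp only [h1]

theorem pj_zero (h0 : 0 < r i) (hr : r i < R i)
    (hQ : ∀ (x : V) (ζ : ℂ), C.upd κ i (ζ, x) ∈ Q ↔ x ∈ Q) {f : V → ℂ}
    (hf : ∀ x ∈ areg κ c r R i Q, f x = 0) {x : V} (hx : x ∈ dreg κ c R i Q) :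
    pj κ c r R i f x = 0 := by
  rw [pj_congr h0 hr hQ (g := fun _ => 0) hf hx]
  unfold pj
  simp [circleIntegral]

/-- Proof. By `circle_mem` every `ζ ↦ (ζ - κ x i)⁻¹ * f j (C.upd κ i (ζ, x))` is continuous on the circle, so it is circle integrable (`ContinuousOn.circleIntegrable`); pull the finite sum and the integers out (`Finset.mul_sum`, `circleIntegral.integral_add`, `circleIntegral.integral_smul` or induction over `s`; `zsmul_eq_mul`). -/
theorem pj_sum (h0 : 0 < r i) (hr : r i < R i)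
    (hQ : ∀ (x : V) (ζ : ℂ), C.upd κ i (ζ, x) ∈ Q ↔ x ∈ Q) {J : Type*} (s : Finset J) (a : J → ℤ)
    (f : J → V → ℂ) (hf : ∀ j ∈ s, HolNear (f j) (areg κ c r R i Q)) {x : V}
    (hx : x ∈ dreg κ c R i Q) :
    pj κ c r R i (fun y => ∑ j ∈ s, a j • f j y) x = ∑ j ∈ s, a j • pj κ c r R i (f j) x := by
  have e : ∀ ζ : ℂ, (ζ - κ x i)⁻¹ * (∑ j ∈ s, a j • f j (C.upd κ i (ζ, x))) =
      ∑ j ∈ s, (a j : ℂ) * ((ζ - κ x i)⁻¹ * f j (C.upd κ i (ζ, x))) := by
    intro ζ
    rw [Finset.mul_sum]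
    refine Finset.sum_congr rfl fun j _ => ?_
    rw [zsmul_eq_mul]
    ring
  unfold pj
  simp only [e]
  rw [circleIntegral.integral_fun_sum, Finset.mul_sum]
  · refine Finset.sum_congr rfl fun j _ => ?_
    rw [circleIntegral.integral_const_mul, zsmul_eq_mul]
    ring
  · intro j hj
    have h1 := LauA_integrable h0 hr hQ (hf j hj) hx
    exact h1.const_mul _

end Pool.Agent.DQ.H
end
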