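import Mathlib
import Pool.Agent.Lib.MP_4aa2a9_ag.Mg.G004
import Pool.Agent.Lib.MP_4aa2a9_ag.Mg.G003
import Pool.Agent.Lib.MP_4aa2a9_ag.Mg.G001
import Pool.Agent.Lib.MP_4aa2a9_ag.Mg.G002

section

/-! Campaign DQ, module W, file WPoly: division by a monic polynomial with holomorphic coefficients, with the SAME base `D`, on a finite disjoint union of discs containing all roots (local-to-global principle of finite maps). -/

set_option autoImplicit false

open Metric Set Filter Topology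

namespace Pool.Agent.DQ.W

variable {V : Type*} [NormedAddCommGroup V] [NormedSpace ℂ V]

private theorem WPoly_circ {E : Type*} [NormedAddCommGroup E] [NormedSpace ℂ E] {U : Set E} (hU : IsOpen U)
    {c : ℂ} {ρ : ℝ} (hρ : 0 ≤ ρ) {Φ : E × ℂ → ℂ} (h : DifferentiableOn ℂ Φ (U ×ˢ sphere c ρ)) :
    DifferentiableOn ℂ (fun x => ∮ ζ in C(c, ρ), Φ (x, ζ)) U := by
  refine hol_circleIntegral (F := fun x ζ => Φ (x, ζ)) hU hρ h.continuousOn fun ζ hζ => ?_
  have h1 : DifferentiableOn ℂ (fun x : E => (x, ζ)) U := by fun_prop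
  exact h.comp h1 fun x hx => ⟨hx, hζ⟩

private theorem WPoly_div {E : Type*} [NormedAddCommGroup E] [NormedSpace ℂ E] {f g : E → ℂ} {s : Set E}
    (hf : DifferentiableOn ℂ f s) (hg : DifferentiableOn ℂ g s) (h0 : ∀ x ∈ s, g x ≠ 0) :
    DifferentiableOn ℂ (fun x => f x / g x) s := by
  simp only [div_eq_mul_inv]
  exact hf.mul (hg.inv h0)

private theorem WPoly_diffPP {D : Set V} {k : ℕ} {a : ℕ → V → ℂ}
    (ha : ∀ i < k, DifferentiableOn ℂ (a i) D) :
    DifferentiableOn ℂ (fun p : V × ℂ => PP k a p.1 p.2) (D ×ˢ univ) := by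
  unfold PP
  refine DifferentiableOn.add (by fun_prop) ?_
  refine DifferentiableOn.fun_sum fun i hi => ?_
  have h1 : DifferentiableOn ℂ (fun p : V × ℂ => a i p.1) (D ×ˢ univ) :=
    (ha i (Finset.mem_range.mp hi)).comp (by fun_prop) fun p hp => hp.1
  exact h1.mul (by fun_prop)

private theorem WPoly_diffcc {D : Set V} {k : ℕ} {a : ℕ → V → ℂ}
    (ha : ∀ i < k, DifferentiableOn ℂ (a i) D) (j : ℕ) :
    DifferentiableOn ℂ (fun p : V × ℂ => cc k a j p.1 p.2) (D ×ˢ univ) := by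
  unfold cc
  refine DifferentiableOn.add (by fun_prop) ?_
  refine DifferentiableOn.fun_sum fun i hi => ?_
  have h1 : DifferentiableOn ℂ (fun p : V × ℂ => a i p.1) (D ×ˢ univ) :=
    (ha i (Finset.mem_Ico.mp hi).2).comp (by fun_prop) fun p hp => hp.1
  exact h1.mul (by fun_prop)

private theorem WPoly_id {k : ℕ} {a : ℕ → V → ℂ} {τ : ℂ} {σ : ℝ} (hσ : 0 < σ) {v : V} {t : ℂ} {G : ℂ → ℂ}
    (hG : ContinuousOn G (sphere τ σ)) (hne : ∀ ζ ∈ sphere τ σ, PP k a v ζ ≠ 0)
    (hnt : ∀ ζ ∈ sphere τ σ, ζ - t ≠ 0) :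
    PP k a v t * (∮ ζ in C(τ, σ), G ζ / (PP k a v ζ * (ζ - t))) +
      ∑ j ∈ Finset.range k, (∮ ζ in C(τ, σ), G ζ / PP k a v ζ * cc k a j v ζ) * t ^ j =
    ∮ ζ in C(τ, σ), (ζ - t)⁻¹ • G ζ := by
  have hPc : ContinuousOn (fun ζ => PP k a v ζ) (sphere τ σ) := by unfold PP; fun_prop
  have hcc : ∀ j, ContinuousOn (fun ζ => cc k a j v ζ) (sphere τ σ) := by
    intro j; unfold cc; fun_prop
  have hsub : ContinuousOn (fun ζ : ℂ => ζ - t) (sphere τ σ) := by fun_prop
  have h1 : ContinuousOn (fun ζ => PP k a v t * (G ζ / (PP k a v ζ * (ζ - t)))) (sphere τ σ) :=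
    continuousOn_const.mul (hG.div (hPc.mul hsub) fun ζ hζ => mul_ne_zero (hne ζ hζ) (hnt ζ hζ))
  have h2 : ∀ j ∈ Finset.range k,
      ContinuousOn (fun ζ => t ^ j * (G ζ / PP k a v ζ * cc k a j v ζ)) (sphere τ σ) := fun j _ =>
    continuousOn_const.mul ((hG.div hPc hne).mul (hcc j))
  have e1 : ∀ j, (∮ ζ in C(τ, σ), G ζ / PP k a v ζ * cc k a j v ζ) * t ^ j =
      ∮ ζ in C(τ, σ), t ^ j * (G ζ / PP k a v ζ * cc k a j v ζ) := fun j => by
    rw [circleIntegral.integral_const_mul, mul_comm]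
  rw [← circleIntegral.integral_const_mul, Finset.sum_congr rfl fun j _ => e1 j,
    ← circleIntegral.integral_fun_sum fun j hj => (h2 j hj).circleIntegrable hσ.le,
    ← circleIntegral.integral_add (h1.circleIntegrable hσ.le)
      ((continuousOn_finsetSum _ h2).circleIntegrable hσ.le)]
  refine circleIntegral.integral_congr hσ.le fun ζ hζ => ?_
  have hP := hne ζ hζ
  have ht := hnt ζ hζ
  have h3 := PP_sub k a v ζ t
  have h4 : ∑ j ∈ Finset.range k, t ^ j * (G ζ / PP k a v ζ * cc k a j v ζ) =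
      G ζ / PP k a v ζ * ∑ j ∈ Finset.range k, cc k a j v ζ * t ^ j := by
    rw [Finset.mul_sum]
    exact Finset.sum_congr rfl fun j _ => by ring
  have h5 : ∑ j ∈ Finset.range k, cc k a j v ζ * t ^ j = (PP k a v ζ - PP k a v t) / (ζ - t) := by
    rw [h3]; field_simp
  simp only [smul_eq_mul]
  rw [h4, h5]
  field_simp
  ring

/-- **Division on several discs.** `D` open; `a i` holomorphic on `D` (`i < k`); finitely many discs `ball (τ i) (R i)` with
pairwise disjoint closures; all roots of `PP k a v`, `v ∈ D`, lie in `⋃ ball (τ i) (ρ i)`, `0 < ρ i < R i`. Then every `g`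
holomorphic on `D × ⋃ ball (τ i) (R i)` is `PP * h + ∑_{j<k} b j v * t ^ j` there with `b j` holomorphic on `D` and `h`
holomorphic on `D × ⋃ ball (τ i) (R i)`.

Proof. Choose `ρ i < σ i < R i`. On `sphere (τ i) (σ i)` and `v ∈ D` the polynomial has no zero (a root would lie in some
`ball (τ l) (ρ l)`; for `l = i` it has distance `< ρ i < σ i` from `τ i`, for `l ≠ i` closed balls are disjoint).
Put `b j v := ∑ i, (2πi)⁻¹ • ∮ ζ in C(τ i, σ i), g (v, ζ) / PP k a v ζ * cc k a j v ζ`, holomorphic on `D` by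
`hol_circleIntegral`, and for `t ∈ ball (τ i) (σ i)`: `h₁ (v, t) := ∑ l, (2πi)⁻¹ • ∮ ζ in C(τ l, σ l), g (v, ζ) / (PP k a v ζ * (ζ - t))`,
holomorphic on `D ×ˢ ⋃ ball (τ i) (σ i)` (`hol_circleIntegral` on `V × ℂ`; `ζ - t ≠ 0` on all circles by disjointness).
For such `t`: `g (v, t) = ∑ l, (2πi)⁻¹ • ∮ ζ in C(τ l, σ l), g (v, ζ) / (ζ - t)`: the term `l = i` is Cauchy's formula
(`DifferentiableOn.circleIntegral_sub_inv_smul`), the others vanish by Cauchy's theorem
(`Complex.circleIntegral_eq_zero_of_differentiable_on_off_countable` or `DiffContOnCl.circleIntegral_eq_zero`,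
`t ∉ closedBall (τ l) (σ l)`). Insert `1 = (PP v t + (PP v ζ - PP v t)) / PP v ζ` and `PP_sub`:
`g (v, t) = PP k a v t * h₁ (v, t) + ∑_{j<k} b j v * t ^ j`.
Finally define `h (v, t) := h₁ (v, t)` if `t ∈ ⋃ ball (τ i) (σ i)` and `h (v, t) := (g (v, t) - ∑ j, b j v * t ^ j) / PP k a v t`
otherwise. At points with `t ∈ ball (τ i) (σ i)` it equals `h₁` in a neighbourhood; at points with
`σ i ≤ ‖t - τ i‖ < R i` the second formula is valid in a whole neighbourhood (on `ρ i < ‖t - τ i‖ < R i` the polynomial has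
no zero and where `‖t - τ i‖ < σ i` both formulas agree by the identity just proved). -/
theorem poly_div {ι : Type} [Fintype ι] {D : Set V} (hD : IsOpen D) {k : ℕ} {a : ℕ → V → ℂ}
    (ha : ∀ i < k, DifferentiableOn ℂ (a i) D) {τ : ι → ℂ} {ρ R : ι → ℝ} (hρ : ∀ i, 0 < ρ i) (hρR : ∀ i, ρ i < R i)
    (hdisj : ∀ i j, i ≠ j → Disjoint (closedBall (τ i) (R i)) (closedBall (τ j) (R j)))
    (hroots : ∀ v ∈ D, ∀ s, PP k a v s = 0 → ∃ i, s ∈ ball (τ i) (ρ i))
    {g : V × ℂ → ℂ} (hg : DifferentiableOn ℂ g (D ×ˢ ⋃ i, ball (τ i) (R i))) :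
    ∃ (h : V × ℂ → ℂ) (b : ℕ → V → ℂ), DifferentiableOn ℂ h (D ×ˢ ⋃ i, ball (τ i) (R i)) ∧
      (∀ j, DifferentiableOn ℂ (b j) D) ∧
      ∀ v ∈ D, ∀ t ∈ ⋃ i, ball (τ i) (R i),
        g (v, t) = PP k a v t * h (v, t) + ∑ j ∈ Finset.range k, b j v * t ^ j := by
  classical
  set σ : ι → ℝ := fun i => (ρ i + R i) / 2 with hσdef
  have hρσ : ∀ i, ρ i < σ i := fun i => by
    have := hρR i
    simp only [hσdef]; linarith
  have hσR : ∀ i, σ i < R i := fun i => by
    have := hρR i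
    simp only [hσdef]; linarith
  have hσ0 : ∀ i, 0 < σ i := fun i => (hρ i).trans (hρσ i)
  -- no roots outside the small discs
  have hnz : ∀ v ∈ D, ∀ i, ∀ t ∈ closedBall (τ i) (R i), t ∉ closedBall (τ i) (ρ i) →
      PP k a v t ≠ 0 := by
    intro v hv i t ht htn h0
    obtain ⟨l, hl⟩ := hroots v hv t h0
    by_cases hil : l = i
    · subst hil
      exact htn (ball_subset_closedBall hl)
    · refine Set.disjoint_left.mp (hdisj l i hil) ?_ ht
      exact closedBall_subset_closedBall (hρR l).le (ball_subset_closedBall hl)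
  have hsph : ∀ i, ∀ ζ ∈ sphere (τ i) (σ i), ζ ∈ ball (τ i) (R i) ∧ ζ ∉ closedBall (τ i) (ρ i) := by
    intro i ζ hζ
    have h1 : dist ζ (τ i) = σ i := mem_sphere.mp hζ
    refine ⟨mem_ball.mpr (by rw [h1]; exact hσR i), fun h2 => ?_⟩
    have h3 : dist ζ (τ i) ≤ ρ i := mem_closedBall.mp h2
    rw [h1] at h3
    exact absurd h3 (not_le.mpr (hρσ i))
  have hne : ∀ v ∈ D, ∀ i, ∀ ζ ∈ sphere (τ i) (σ i), PP k a v ζ ≠ 0 := fun v hv i ζ hζ =>
    hnz v hv i ζ (ball_subset_closedBall (hsph i ζ hζ).1) (hsph i ζ hζ).2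
  set W : Set ℂ := ⋃ i, ball (τ i) (σ i) with hW
  have hWo : IsOpen W := isOpen_iUnion fun i => isOpen_ball
  have hWR : W ⊆ ⋃ i, ball (τ i) (R i) := iUnion_mono fun i => ball_subset_ball (hσR i).le
  have hBo : IsOpen (⋃ i, ball (τ i) (R i)) := isOpen_iUnion fun i => isOpen_ball
  have hnt : ∀ t ∈ W, ∀ l, ∀ ζ ∈ sphere (τ l) (σ l), ζ - t ≠ 0 := by
    intro t ht l ζ hζ h0
    have h1 : ζ = t := sub_eq_zero.mp h0
    obtain ⟨i, hi⟩ := mem_iUnion.mp ht
    by_cases hil : i = l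
    · subst hil
      have h2 : dist ζ (τ i) = σ i := mem_sphere.mp hζ
      rw [h1] at h2
      exact (mem_ball.mp hi).ne h2
    · have h2 : t ∈ closedBall (τ i) (R i) :=
        ball_subset_closedBall (ball_subset_ball (hσR i).le hi)
      have h3 : t ∈ closedBall (τ l) (R l) := by
        rw [← h1]; exact ball_subset_closedBall (hsph l ζ hζ).1
      exact Set.disjoint_left.mp (hdisj i l hil) h2 h3
  have hsphU : ∀ l, sphere (τ l) (σ l) ⊆ ⋃ i, ball (τ i) (R i) := fun l ζ hζ =>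
    mem_iUnion.mpr ⟨l, (hsph l ζ hζ).1⟩
  have hPP := WPoly_diffPP (k := k) (a := a) (D := D) ha
  have hgs : ∀ l, DifferentiableOn ℂ g (D ×ˢ sphere (τ l) (σ l)) := fun l =>
    hg.mono (prod_mono_right (hsphU l))
  have hPPs : ∀ l, DifferentiableOn ℂ (fun p : V × ℂ => PP k a p.1 p.2) (D ×ˢ sphere (τ l) (σ l)) :=
    fun l => hPP.mono (prod_mono_right (subset_univ _))
  -- the coefficients
  have hIb : ∀ l j, DifferentiableOn ℂ (fun v => ∮ ζ in C(τ l, σ l),
      g (v, ζ) / PP k a v ζ * cc k a j v ζ) D := by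
    intro l j
    refine WPoly_circ (Φ := fun p : V × ℂ => g p / PP k a p.1 p.2 * cc k a j p.1 p.2) hD (hσ0 l).le ?_
    have h1 := (WPoly_diffcc (k := k) (a := a) (D := D) ha j).mono
      (prod_mono_right (subset_univ (sphere (τ l) (σ l))))
    have h2 : DifferentiableOn ℂ (fun p : V × ℂ => g p / PP k a p.1 p.2)
        (D ×ˢ sphere (τ l) (σ l)) := by
      refine WPoly_div (hgs l) (hPPs l) ?_
      rintro ⟨v, ζ⟩ ⟨hv, hζ⟩
      exact hne v hv l ζ hζ
    exact h2.mul h1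
  -- the quotient near the roots
  have hIh : ∀ l, DifferentiableOn ℂ (fun p : V × ℂ => ∮ ζ in C(τ l, σ l),
      g (p.1, ζ) / (PP k a p.1 ζ * (ζ - p.2))) (D ×ˢ W) := by
    intro l
    refine WPoly_circ (Φ := fun q : (V × ℂ) × ℂ =>
      g (q.1.1, q.2) / (PP k a q.1.1 q.2 * (q.2 - q.1.2))) (hD.prod hWo) (hσ0 l).le ?_
    have hm : MapsTo (fun q : (V × ℂ) × ℂ => (q.1.1, q.2)) ((D ×ˢ W) ×ˢ sphere (τ l) (σ l))
        (D ×ˢ sphere (τ l) (σ l)) := by
      rintro ⟨⟨v, t⟩, ζ⟩ ⟨⟨h1, h2⟩, h3⟩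
      exact ⟨h1, h3⟩
    have hf : DifferentiableOn ℂ (fun q : (V × ℂ) × ℂ => (q.1.1, q.2))
        ((D ×ˢ W) ×ˢ sphere (τ l) (σ l)) := by fun_prop
    have h1 : DifferentiableOn ℂ (fun q : (V × ℂ) × ℂ => g (q.1.1, q.2))
        ((D ×ˢ W) ×ˢ sphere (τ l) (σ l)) := (hgs l).comp hf hm
    have h2 : DifferentiableOn ℂ (fun q : (V × ℂ) × ℂ => PP k a q.1.1 q.2)
        ((D ×ˢ W) ×ˢ sphere (τ l) (σ l)) := (hPPs l).comp hf hm
    have h3 : DifferentiableOn ℂ (fun q : (V × ℂ) × ℂ => q.2 - q.1.2)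
        ((D ×ˢ W) ×ˢ sphere (τ l) (σ l)) := by fun_prop
    refine WPoly_div h1 (h2.mul h3) ?_
    rintro ⟨⟨v, t⟩, ζ⟩ ⟨⟨hv, ht⟩, hζ⟩
    exact mul_ne_zero (hne v hv l ζ hζ) (hnt t ht l ζ hζ)
  set C₀ : ℂ := (2 * (Real.pi : ℂ) * Complex.I)⁻¹ with hC0
  have hC0' : C₀ * (2 * (Real.pi : ℂ) * Complex.I) = 1 := by
    rw [hC0, inv_mul_cancel₀ Complex.two_pi_I_ne_zero]
  set b : ℕ → V → ℂ := fun j v => C₀ * ∑ l, ∮ ζ in C(τ l, σ l), g (v, ζ) / PP k a v ζ * cc k a j v ζ
    with hb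
  set h₁ : V × ℂ → ℂ := fun p => C₀ * ∑ l, ∮ ζ in C(τ l, σ l),
      g (p.1, ζ) / (PP k a p.1 ζ * (ζ - p.2)) with hh1
  have hbd : ∀ j, DifferentiableOn ℂ (b j) D := fun j =>
    (DifferentiableOn.fun_sum fun l _ => hIb l j).const_mul C₀
  have hh1d : DifferentiableOn ℂ h₁ (D ×ˢ W) :=
    (DifferentiableOn.fun_sum fun l _ => hIh l).const_mul C₀
  -- the identity near the roots
  have hid : ∀ v ∈ D, ∀ t ∈ W,
      g (v, t) = PP k a v t * h₁ (v, t) + ∑ j ∈ Finset.range k, b j v * t ^ j := by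
    intro v hv t ht
    have hgv : DifferentiableOn ℂ (fun ζ : ℂ => g (v, ζ)) (⋃ i, ball (τ i) (R i)) := by
      have h1 : DifferentiableOn ℂ (fun ζ : ℂ => (v, ζ)) (⋃ i, ball (τ i) (R i)) := by fun_prop
      exact hg.comp h1 fun s hs => ⟨hv, hs⟩
    have e1 : ∀ l, PP k a v t * (∮ ζ in C(τ l, σ l), g (v, ζ) / (PP k a v ζ * (ζ - t))) +
        ∑ j ∈ Finset.range k, (∮ ζ in C(τ l, σ l), g (v, ζ) / PP k a v ζ * cc k a j v ζ) * t ^ j =
        ∮ ζ in C(τ l, σ l), (ζ - t)⁻¹ • g (v, ζ) := fun l =>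
      WPoly_id (hσ0 l) (hgv.continuousOn.mono (hsphU l)) (hne v hv l) (hnt t ht l)
    obtain ⟨i, hi⟩ := mem_iUnion.mp ht
    have hcb : ∀ l, closedBall (τ l) (σ l) ⊆ ⋃ i, ball (τ i) (R i) := fun l s hs =>
      mem_iUnion.mpr ⟨l, closedBall_subset_ball (hσR l) hs⟩
    have e2 : ∀ l, (∮ ζ in C(τ l, σ l), (ζ - t)⁻¹ • g (v, ζ)) =
        if l = i then (2 * (Real.pi : ℂ) * Complex.I) * g (v, t) else 0 := by
      intro l
      split_ifs with hl
      · subst hl
        have h1 := (hgv.mono (hcb l)).circleIntegral_sub_inv_smul hi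
        rw [h1, smul_eq_mul]
      · have htl : ∀ s ∈ closedBall (τ l) (σ l), s - t ≠ 0 := by
          intro s hs h0
          have h2 : t ∈ closedBall (τ l) (R l) := by
            rw [← sub_eq_zero.mp h0]
            exact closedBall_subset_closedBall (hσR l).le hs
          have h3 : t ∈ closedBall (τ i) (R i) :=
            ball_subset_closedBall (ball_subset_ball (hσR i).le hi)
          exact Set.disjoint_left.mp (hdisj l i hl) h2 h3
        have h2 : DifferentiableOn ℂ (fun ζ => (ζ - t)⁻¹ • g (v, ζ)) (closedBall (τ l) (σ l)) := by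
          have h3 : DifferentiableOn ℂ (fun ζ : ℂ => ζ - t) (closedBall (τ l) (σ l)) := by fun_prop
          exact (h3.inv htl).smul (hgv.mono (hcb l))
        exact (h2.diffContOnCl_ball le_rfl).circleIntegral_eq_zero (hσ0 l).le
    have e3 : ∑ l, (PP k a v t * (∮ ζ in C(τ l, σ l), g (v, ζ) / (PP k a v ζ * (ζ - t))) +
        ∑ j ∈ Finset.range k, (∮ ζ in C(τ l, σ l), g (v, ζ) / PP k a v ζ * cc k a j v ζ) * t ^ j) =
        (2 * (Real.pi : ℂ) * Complex.I) * g (v, t) := by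
      rw [Finset.sum_congr rfl fun l _ => (e1 l).trans (e2 l), Finset.sum_ite_eq']
      simp
    have e4 : PP k a v t * h₁ (v, t) + ∑ j ∈ Finset.range k, b j v * t ^ j =
        C₀ * ∑ l, (PP k a v t * (∮ ζ in C(τ l, σ l), g (v, ζ) / (PP k a v ζ * (ζ - t))) +
        ∑ j ∈ Finset.range k, (∮ ζ in C(τ l, σ l), g (v, ζ) / PP k a v ζ * cc k a j v ζ) * t ^ j) := by
      simp only [hh1, hb]
      rw [Finset.sum_add_distrib, mul_add, ← Finset.mul_sum]
      congr 1
      · ring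
      · rw [Finset.sum_comm, Finset.mul_sum]
        refine Finset.sum_congr rfl fun j _ => ?_
        rw [← Finset.sum_mul]
        ring
    rw [e4, e3, ← mul_assoc, hC0', one_mul]
  refine ⟨fun p => if p.2 ∈ W then h₁ p else (g p - ∑ j ∈ Finset.range k, b j p.1 * p.2 ^ j) /
    PP k a p.1 p.2, b, ?_, hbd, ?_⟩
  · rintro ⟨v, t⟩ ⟨hv, ht⟩
    by_cases htW : t ∈ W
    · have hU : IsOpen (D ×ˢ W) := hD.prod hWo
      have hm : (v, t) ∈ D ×ˢ W := ⟨hv, htW⟩
      refine ((hh1d.differentiableAt (hU.mem_nhds hm)).congr_of_eventuallyEq ?_).differentiableWithinAt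
      filter_upwards [hU.mem_nhds hm] with p hp
      rw [if_pos hp.2]
    · obtain ⟨i, hi⟩ := mem_iUnion.mp ht
      set N : Set ℂ := ball (τ i) (R i) \ closedBall (τ i) (ρ i) with hN
      have hNo : IsOpen N := isOpen_ball.sdiff isClosed_closedBall
      have htN : t ∈ N := by
        refine ⟨hi, fun h1 => htW (mem_iUnion.mpr ⟨i, ?_⟩)⟩
        exact closedBall_subset_ball (hρσ i) h1
      have hU : IsOpen (D ×ˢ N) := hD.prod hNo
      have hm : (v, t) ∈ D ×ˢ N := ⟨hv, htN⟩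
      have hPN : ∀ v' ∈ D, ∀ t' ∈ N, PP k a v' t' ≠ 0 := fun v' hv' t' ht' =>
        hnz v' hv' i t' (ball_subset_closedBall ht'.1) ht'.2
      have h2 : DifferentiableOn ℂ (fun p : V × ℂ => (g p - ∑ j ∈ Finset.range k, b j p.1 * p.2 ^ j) /
          PP k a p.1 p.2) (D ×ˢ N) := by
        have h3 : DifferentiableOn ℂ g (D ×ˢ N) :=
          hg.mono (prod_mono_right fun s hs => mem_iUnion.mpr ⟨i, hs.1⟩)
        have h4 : DifferentiableOn ℂ (fun p : V × ℂ => ∑ j ∈ Finset.range k, b j p.1 * p.2 ^ j)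
            (D ×ˢ N) := by
          refine DifferentiableOn.fun_sum fun j _ => ?_
          have h5 : DifferentiableOn ℂ (fun p : V × ℂ => b j p.1) (D ×ˢ N) :=
            (hbd j).comp (by fun_prop) fun p hp => hp.1
          exact h5.mul (by fun_prop)
        refine WPoly_div (h3.sub h4) (hPP.mono (prod_mono_right (subset_univ _))) ?_
        rintro ⟨v', t'⟩ ⟨hv', ht'⟩
        exact hPN v' hv' t' ht'
      refine ((h2.differentiableAt (hU.mem_nhds hm)).congr_of_eventuallyEq ?_).differentiableWithinAt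
      filter_upwards [hU.mem_nhds hm] with p hp
      obtain ⟨v', t'⟩ := p
      dsimp only
      split_ifs with h3
      · have h4 := hid v' hp.1 t' h3
        have h5 := hPN v' hp.1 t' hp.2
        rw [eq_div_iff h5, h4]
        ring
      · rfl
  · intro v hv t ht
    dsimp only
    split_ifs with h3
    · exact hid v hv t h3
    · obtain ⟨i, hi⟩ := mem_iUnion.mp ht
      have h5 : PP k a v t ≠ 0 := by
        refine hnz v hv i t (ball_subset_closedBall hi) fun h1 => h3 (mem_iUnion.mpr ⟨i, ?_⟩)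
        exact closedBall_subset_ball (hρσ i) h1
      field_simp
      ring

/-- **Division on one disc** (centre `0`).

Proof. `poly_div` with `ι = Unit`. -/
theorem poly_div_one {D : Set V} (hD : IsOpen D) {k : ℕ} {a : ℕ → V → ℂ}
    (ha : ∀ i < k, DifferentiableOn ℂ (a i) D) {ρ R : ℝ} (hρ : 0 < ρ) (hρR : ρ < R)
    (hroots : ∀ v ∈ D, ∀ s, PP k a v s = 0 → s ∈ ball (0 : ℂ) ρ)
    {g : V × ℂ → ℂ} (hg : DifferentiableOn ℂ g (D ×ˢ ball 0 R)) :
    ∃ (h : V × ℂ → ℂ) (b : ℕ → V → ℂ), DifferentiableOn ℂ h (D ×ˢ ball 0 R) ∧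
      (∀ j, DifferentiableOn ℂ (b j) D) ∧
      ∀ v ∈ D, ∀ t ∈ ball (0 : ℂ) R,
        g (v, t) = PP k a v t * h (v, t) + ∑ j ∈ Finset.range k, b j v * t ^ j := by
  have hU : (⋃ _ : Unit, ball (0 : ℂ) R) = ball 0 R := iUnion_const _
  obtain ⟨h, b, h1, h2, h3⟩ := poly_div (ι := Unit) hD ha (τ := fun _ => 0) (ρ := fun _ => ρ)
    (R := fun _ => R) (fun _ => hρ) (fun _ => hρR) (fun i j hij => absurd (Subsingleton.elim i j) hij)
    (fun v hv s hs => ⟨(), hroots v hv s hs⟩) (g := g) (by rw [hU]; exact hg)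
  rw [hU] at h1 h3
  exact ⟨h, b, h1, h2, h3⟩

end Pool.Agent.DQ.W
end

section

/-! Campaign DQ, module W, file WPolyU: uniqueness of division by a monic polynomial all of whose roots lie in the open
set where the quotient is holomorphic. -/

set_option autoImplicit false

open Metric Set Filter Topology

namespace Pool.Agent.DQ.W

/-- **Uniqueness, polynomial form.** `P` monic over `ℂ`, `A` of smaller degree, `U` open containing all roots of `P`,
`q` continuous on `U`, `P q + A = 0` on `U`. Then `A = 0` and `q = 0` on `U`.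

Proof. Induction on `P.natDegree`. Degree `0`: `P = 1` and `A = 0` (degree `< 0`), so `q = 0` on `U`. Step: `P` has a
root `z` (`Complex.exists_root`, degree `> 0`), `z ∈ U`, `P = (X - C z) * P₁` with `P₁` monic (`Polynomial.Monic.of_mul_monic_left`
or `mul_divByMonic_eq_iff_isRoot`). At `z`: `A.eval z = - P.eval z * q z = 0`, so `A = (X - C z) * A₁` and
`A₁.degree < P₁.degree`. For `t ∈ U`, `t ≠ z`: `(t - z) * (P₁.eval t * q t + A₁.eval t) = 0`, so the continuous function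
`P₁ q + A₁` on the open set `U` vanishes on `U \ {z}`, hence also at `z` (a point of the open set `U ⊆ ℂ` is not isolated:
`continuity`, e.g. `ContinuousOn` and density of `U \ {z}`; or `eventually` in `𝓝[≠] z` and `tendsto_nhds_unique`).
Induction gives `A₁ = 0` and `q = 0` on `U`. -/
theorem poly_unique_aux {U : Set ℂ} (hU : IsOpen U) (P A : Polynomial ℂ) (hP : P.Monic) (hA : A.degree < P.degree)
    (hroots : ∀ z, P.eval z = 0 → z ∈ U) {q : ℂ → ℂ} (hq : ContinuousOn q U)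
    (h : ∀ t ∈ U, P.eval t * q t + A.eval t = 0) : A = 0 ∧ ∀ t ∈ U, q t = 0 := by
  obtain ⟨n, hn⟩ : ∃ n, P.natDegree = n := ⟨_, rfl⟩
  induction n generalizing P A with
  | zero =>
    have hP1 : P = 1 := hP.natDegree_eq_zero.mp hn
    subst hP1
    have hA0 : A = 0 := by
      rw [Polynomial.degree_one] at hA
      by_contra h0
      exact absurd hA (not_lt.mpr (Polynomial.zero_le_degree_iff.mpr h0))
    refine ⟨hA0, fun t ht => ?_⟩
    have := h t ht
    simpa [hA0] using this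
  | succ n ih =>
    have hdeg : 0 < P.degree := by
      rw [Polynomial.degree_eq_natDegree hP.ne_zero, hn]
      exact_mod_cast Nat.succ_pos n
    obtain ⟨z, hz⟩ := Complex.exists_root hdeg
    have hz' : P.eval z = 0 := hz
    have hzU : z ∈ U := hroots z hz'
    obtain ⟨P1, hP1⟩ := Polynomial.dvd_iff_isRoot.mpr hz
    have hAz : A.eval z = 0 := by
      have := h z hzU
      rw [hz', zero_mul, zero_add] at this
      exact this
    obtain ⟨A1, hA1⟩ := Polynomial.dvd_iff_isRoot.mpr (show A.IsRoot z from hAz)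
    have hP1m : P1.Monic := (Polynomial.monic_X_sub_C z).of_mul_monic_left (hP1 ▸ hP)
    have hn1 : P1.natDegree = n := by
      have h1 := (Polynomial.monic_X_sub_C z).natDegree_mul hP1m
      rw [← hP1, hn, Polynomial.natDegree_X_sub_C] at h1
      omega
    have hAd : A1.degree < P1.degree := by
      rw [hA1, hP1, Polynomial.degree_mul, Polynomial.degree_mul, Polynomial.degree_X_sub_C] at hA
      by_cases hA0 : A1 = 0
      · rw [hA0, Polynomial.degree_zero]
        exact bot_lt_iff_ne_bot.mpr (fun h0 => hP1m.ne_zero (Polynomial.degree_eq_bot.mp h0))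
      · rw [Polynomial.degree_eq_natDegree hA0, Polynomial.degree_eq_natDegree hP1m.ne_zero] at hA ⊢
        have h3 : (1 + A1.natDegree : ℕ) < (1 + P1.natDegree : ℕ) := by exact_mod_cast hA
        exact_mod_cast (by omega : A1.natDegree < P1.natDegree)
    have hroots1 : ∀ w, P1.eval w = 0 → w ∈ U := fun w hw => hroots w (by
      rw [hP1, Polynomial.eval_mul, hw, mul_zero])
    have hne : ∀ t ∈ U, t ≠ z → P1.eval t * q t + A1.eval t = 0 := by
      intro t ht htz
      have h1 := h t ht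
      rw [hP1, hA1, Polynomial.eval_mul, Polynomial.eval_mul] at h1
      have h2 : (t - z) * (P1.eval t * q t + A1.eval t) = 0 := by
        simp only [Polynomial.eval_sub, Polynomial.eval_X, Polynomial.eval_C] at h1
        linear_combination h1
      rcases mul_eq_zero.mp h2 with h3 | h3
      · exact absurd (sub_eq_zero.mp h3) htz
      · exact h3
    have hall : ∀ t ∈ U, P1.eval t * q t + A1.eval t = 0 := by
      intro t ht
      by_cases htz : t = z
      · subst htz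
        have hc : ContinuousAt (fun t => P1.eval t * q t + A1.eval t) t :=
          (P1.continuous.continuousAt.mul (hq.continuousAt (hU.mem_nhds ht))).add A1.continuous.continuousAt
        have h1 : Tendsto (fun t => P1.eval t * q t + A1.eval t) (𝓝[≠] t) (𝓝 (P1.eval t * q t + A1.eval t)) :=
          hc.tendsto.mono_left nhdsWithin_le_nhds
        have h2 : Tendsto (fun t => P1.eval t * q t + A1.eval t) (𝓝[≠] t) (𝓝 0) := by
          refine tendsto_const_nhds.congr' ?_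
          have h3 : ∀ᶠ s in 𝓝[≠] t, s ∈ U := nhdsWithin_le_nhds (hU.mem_nhds ht)
          filter_upwards [h3, self_mem_nhdsWithin] with s hs hst
          exact (hne s hs hst).symm
        exact tendsto_nhds_unique h1 h2
      · exact hne t ht htz
    obtain ⟨h1, h2⟩ := ih P1 A1 hP1m hAd hroots1 hall hn1
    refine ⟨by rw [hA1, h1, mul_zero], h2⟩

/-- **Uniqueness, coefficient form.**

Proof. Let `P := X ^ k + ∑_{i<k} C (a i v) * X ^ i` (monic of degree `k`: `Polynomial.monic_X_pow_add` with the degree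
bound `Polynomial.degree_sum_fin_lt` or `degree_lt_iff`) and `A := ∑_{i<k} C (r i) * X ^ i`; `P.eval t = PP k a v t`.
`poly_unique_aux` gives `A = 0`, so all coefficients `r i` vanish (`Polynomial.finset_sum_coeff`). -/
theorem poly_unique {V : Type*} [NormedAddCommGroup V] [NormedSpace ℂ V] {U : Set ℂ} (hU : IsOpen U) {k : ℕ}
    {a : ℕ → V → ℂ} {v : V} (hroots : ∀ z, PP k a v z = 0 → z ∈ U) {q : ℂ → ℂ} (hq : ContinuousOn q U) {r : ℕ → ℂ}
    (h : ∀ t ∈ U, PP k a v t * q t + ∑ i ∈ Finset.range k, r i * t ^ i = 0) :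
    (∀ i < k, r i = 0) ∧ ∀ t ∈ U, q t = 0 := by
  set Q : Polynomial ℂ := ∑ i ∈ Finset.range k, Polynomial.C (a i v) * Polynomial.X ^ i with hQ
  set A : Polynomial ℂ := ∑ i ∈ Finset.range k, Polynomial.C (r i) * Polynomial.X ^ i with hA
  have hdeg : ∀ b : ℕ → ℂ, (∑ i ∈ Finset.range k, Polynomial.C (b i) * Polynomial.X ^ i).degree < (k : WithBot ℕ) := by
    intro b
    rw [Polynomial.degree_lt_iff_coeff_zero]
    intro m hm
    rw [Polynomial.finsetSum_coeff]
    refine Finset.sum_eq_zero fun i hi => ?_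
    have : m ≠ i := by
      have := Finset.mem_range.mp hi
      omega
    simp [Polynomial.coeff_C_mul, Polynomial.coeff_X_pow, this]
  have hPm : (Polynomial.X ^ k + Q).Monic := Polynomial.monic_X_pow_add (hdeg _)
  have hPd : (Polynomial.X ^ k + Q).degree = (k : WithBot ℕ) := by
    rw [Polynomial.degree_add_eq_left_of_degree_lt, Polynomial.degree_X_pow]
    rw [Polynomial.degree_X_pow]
    exact hdeg _
  have hev : ∀ z, (Polynomial.X ^ k + Q).eval z = PP k a v z := by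
    intro z
    rw [PP, Polynomial.eval_add, hQ, Polynomial.eval_finsetSum]
    simp
  have hevA : ∀ z, A.eval z = ∑ i ∈ Finset.range k, r i * z ^ i := by
    intro z
    rw [hA, Polynomial.eval_finsetSum]
    simp
  obtain ⟨h1, h2⟩ := poly_unique_aux hU (Polynomial.X ^ k + Q) A hPm (by rw [hPd]; exact hdeg _)
    (fun z hz => hroots z (by rw [← hev]; exact hz)) hq (fun t ht => by rw [hev, hevA]; exact h t ht)
  refine ⟨fun i hi => ?_, h2⟩
  have h3 : A.coeff i = r i := by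
    rw [hA, Polynomial.finsetSum_coeff]
    simp [Polynomial.coeff_C_mul, Polynomial.coeff_X_pow, hi]
  rw [← h3, h1]
  simp

end Pool.Agent.DQ.W
end

section

/-! Campaign DQ, module W, file WXMon: monic polynomials with holomorphic coefficients (notation of the campaign). -/

set_option autoImplicit false

open Set Filter Topology Polynomial

universe u

namespace Pool.Agent.DQ

/-- the monic polynomial `v ^ k + ∑ a_j(t) v ^ j` -/
def mon {E : Type u} {k : ℕ} (a : Fin k → E → ℂ) (t : E) (v : ℂ) : ℂ :=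
  v ^ k + ∑ j, a j t * v ^ (j : ℕ)

variable {V : Type u} [NormedAddCommGroup V] [NormedSpace ℂ V]

/-- Comparison with the notation `DQ.W.PP` of module W (coefficients indexed by `ℕ`).

Proof. `Finset.sum_range` (`∑ i ∈ range k, g i = ∑ i : Fin k, g i`), `dif_pos`. -/
theorem mon_eq_PP {k : ℕ} (a : Fin k → V → ℂ) (t : V) (v : ℂ) :
    mon a t v = DQ.W.PP k (fun i s => if h : i < k then a ⟨i, h⟩ s else 0) t v := by
  unfold mon DQ.W.PP
  rw [Finset.sum_range]
  congr 1
  refine Finset.sum_congr rfl fun j _ => ?_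
  simp only [dif_pos j.2]

/-- the ring of functions holomorphic near `t₀` -/
def HH (t₀ : V) : Subring (V → ℂ) where
  carrier := {f | HolAt f t₀}
  mul_mem' := fun {_ _} ha hb => HolAt.mul ha hb
  one_mem' := HolAt.const 1 t₀
  add_mem' := fun {_ _} ha hb => HolAt.add ha hb
  zero_mem' := HolAt.const 0 t₀
  neg_mem' := fun {_} ha => HolAt.neg ha

/-- evaluation of a polynomial over `HH t₀` at `(t, v)` -/
noncomputable def evH (t₀ t : V) (v : ℂ) : (HH t₀)[X] →+* ℂ :=
  eval₂RingHom ((Pi.evalRingHom (fun _ : V => ℂ) t).comp (HH t₀).subtype) v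

/-- A monic polynomial over `HH t₀` is of the form `mon`.

Proof. `a j := P.coeff j`; `Polynomial.Monic.as_sum` and `map_add`, `map_sum`, `eval₂_mul`, `eval₂_C`, `eval₂_X`, `Finset.sum_range`. -/
theorem mon_of_monic {t₀ : V} {P : (HH t₀)[X]} (hP : P.Monic) {k : ℕ} (hk : P.natDegree = k) :
    ∃ a : Fin k → V → ℂ, (∀ j, HolAt (a j) t₀) ∧ ∀ t v, mon a t v = evH t₀ t v P := by
  refine ⟨fun j => ((P.coeff j : HH t₀) : V → ℂ), fun j => (P.coeff j).2, fun t v => ?_⟩
  unfold evH mon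
  rw [coe_eval₂RingHom, eval₂_eq_sum_range, Finset.sum_range_succ, hP.coeff_natDegree, hk, map_one, one_mul,
    add_comm, Finset.sum_range]
  rfl

/-- `PP k a t (v - z)` is the evaluation of a monic polynomial of degree `k`.

Proof. `P := (X - C z) ^ k + ∑ i ∈ range k, C (a i) * (X - C z) ^ i` over `HH t₀` (`z` as a constant function); monic of degree `k`
because the second sum has degree `< k` (`Polynomial.Monic.add_of_left`, `Polynomial.degree_sum_le_of_forall_le`..;
`natDegree_add_eq_left_of_natDegree_lt`, `Polynomial.natDegree_pow_X_sub_C`..). -/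
theorem exists_monic_PP {t₀ : V} (k : ℕ) {a : ℕ → V → ℂ} (ha : ∀ i, HolAt (a i) t₀) (z : ℂ) :
    ∃ P : (HH t₀)[X], P.Monic ∧ P.natDegree = k ∧ ∀ t v, evH t₀ t v P = DQ.W.PP k a t (v - z) := by
  have hnt : Nontrivial (HH t₀) := inferInstance
  set zz : HH t₀ := ⟨fun _ => z, HolAt.const z t₀⟩ with hzz
  set Q : (HH t₀)[X] := X ^ k + ∑ i : Fin k, C (⟨a i, ha i⟩ : HH t₀) * X ^ (i : ℕ) with hQ
  have hdeg : (∑ i : Fin k, C (⟨a i, ha i⟩ : HH t₀) * X ^ (i : ℕ)).degree < (k : WithBot ℕ) :=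
    degree_sum_fin_lt _
  have hQm : Q.Monic := monic_X_pow_add hdeg
  have hQd : Q.natDegree = k := by
    rw [hQ, natDegree_add_eq_left_of_degree_lt, natDegree_X_pow]
    rw [degree_X_pow]
    exact hdeg
  refine ⟨taylor (-zz) Q, ?_, ?_, fun t v => ?_⟩
  · rw [Monic, leadingCoeff_taylor]
    exact hQm
  · rw [natDegree_taylor, hQd]
  · unfold evH
    rw [coe_eval₂RingHom, taylor_apply, eval₂_comp, hQ, eval₂_add, eval₂_pow, eval₂_X, eval₂_finsetSum, eval₂_add, eval₂_X,
      eval₂_C]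
    unfold DQ.W.PP
    rw [Finset.sum_range (fun i => a i t * (v - z) ^ i)]
    have hz : v + ((Pi.evalRingHom (fun _ : V => ℂ) t).comp (HH t₀).subtype) (-zz) = v - z := by
      rw [map_neg, ← sub_eq_add_neg]
      rfl
    rw [hz]
    congr 1
    refine Finset.sum_congr rfl fun i _ => ?_
    rw [eval₂_mul, eval₂_C, eval₂_pow, eval₂_X]
    rfl

private theorem WXMon_bound {k : ℕ} (b : Fin k → ℂ) {A : ℝ} (hA : ∑ j, ‖b j‖ ≤ A) {v : ℂ}
    (h : v ^ k + ∑ j, b j * v ^ (j : ℕ) = 0) : ‖v‖ ≤ 1 + A := by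
  by_contra hv
  push Not at hv
  have hA0 : 0 ≤ A := (Finset.sum_nonneg fun j _ => norm_nonneg (b j)).trans hA
  have hv1 : 1 ≤ ‖v‖ := by linarith
  have hk : k ≠ 0 := by
    intro hk
    subst hk
    simp at h
  obtain ⟨m, rfl⟩ := Nat.exists_eq_succ_of_ne_zero hk
  have h1 : ‖v‖ ^ (m + 1) ≤ A * ‖v‖ ^ m := by
    have h2 : v ^ (m + 1) = - ∑ j, b j * v ^ (j : ℕ) := eq_neg_of_add_eq_zero_left h
    calc ‖v‖ ^ (m + 1) = ‖v ^ (m + 1)‖ := (norm_pow _ _).symm
      _ = ‖∑ j, b j * v ^ (j : ℕ)‖ := by rw [h2, norm_neg]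
      _ ≤ ∑ j, ‖b j * v ^ (j : ℕ)‖ := norm_sum_le _ _
      _ ≤ ∑ j, ‖b j‖ * ‖v‖ ^ m := by
          refine Finset.sum_le_sum fun j _ => ?_
          rw [norm_mul, norm_pow]
          exact mul_le_mul_of_nonneg_left (pow_le_pow_right₀ hv1 (Nat.lt_succ_iff.mp j.2)) (norm_nonneg _)
      _ = (∑ j, ‖b j‖) * ‖v‖ ^ m := by rw [Finset.sum_mul]
      _ ≤ A * ‖v‖ ^ m := mul_le_mul_of_nonneg_right hA (pow_nonneg (norm_nonneg _) _)
  have h3 : 0 < ‖v‖ ^ m := pow_pos (by linarith) _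
  rw [pow_succ, mul_comm] at h1
  have h4 := le_of_mul_le_mul_right h1 h3
  linarith

/-- **Roots in a fixed disc**: if all roots of `mon a t₀` lie in the open disc of radius `R > 0` then for `t` near `t₀` all roots of
`mon a t` lie in a fixed smaller disc.

Proof. The set of roots of `mon a t₀` is finite (nonzero polynomial) so there is `0 < ρ < R` with `‖v - c‖ < ρ` for all of them (finite
maximum; or compactness of the zero set). For `t` near `t₀`: `‖a j t‖ ≤ A j := ‖a j t₀‖ + 1`, and every root of `mon a t` satisfies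
`‖v‖ ≤ M := 1 + ∑ A j`: if `‖v‖ > M ≥ 1` then `‖∑ a j t v ^ j‖ ≤ (∑ A j) * ‖v‖ ^ (k - 1) < ‖v‖ ^ k` (for `k = 0` there are no roots).
`K := {v | ρ ≤ ‖v - c‖ ∧ ‖v‖ ≤ M}` is compact and `mon a t₀ v ≠ 0` on `K`; for `v ∈ K` continuity of `(t, v') ↦ mon a t v'` at `(t₀, v)` gives
`∀ᶠ p in 𝓝 t₀ ×ˢ 𝓝 v, mon a p.1 p.2 ≠ 0`; `IsCompact.eventually_forall_of_forall_eventually` gives `∀ᶠ t, ∀ v ∈ K, mon a t v ≠ 0`. -/
theorem mon_root_near {k : ℕ} {a : Fin k → V → ℂ} {t₀ : V} (ha : ∀ j, ContinuousAt (a j) t₀) {c : ℂ} {R : ℝ} (hR : 0 < R)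
    (h : ∀ v, mon a t₀ v = 0 → ‖v - c‖ < R) :
    ∃ ρ, 0 < ρ ∧ ρ < R ∧ ∀ᶠ t in 𝓝 t₀, ∀ v, mon a t v = 0 → ‖v - c‖ < ρ := by
  have hcont0 : Continuous fun v : ℂ => mon a t₀ v := by
    unfold mon
    fun_prop
  set A : ℝ := ∑ j, ‖a j t₀‖ + 1 with hA
  have hb0 : ∀ v, mon a t₀ v = 0 → ‖v‖ ≤ 1 + A := fun v hv =>
    WXMon_bound (fun j => a j t₀) (by rw [hA]; linarith) hv
  -- the roots at the centre
  obtain ⟨ρ, hρ0, hρR, hρ⟩ : ∃ ρ, 0 < ρ ∧ ρ < R ∧ ∀ v, mon a t₀ v = 0 → ‖v - c‖ < ρ := by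
    have hK : IsCompact {v : ℂ | mon a t₀ v = 0} := by
      refine Metric.isCompact_of_isClosed_isBounded (isClosed_eq hcont0 continuous_const) ?_
      refine (Metric.isBounded_closedBall (x := (0 : ℂ)) (r := 1 + A)).subset fun v hv => ?_
      rw [mem_closedBall_zero_iff]
      exact hb0 v hv
    rcases ({v : ℂ | mon a t₀ v = 0}).eq_empty_or_nonempty with he | hne
    · refine ⟨R / 2, by linarith, by linarith, fun v hv => ?_⟩
      have : v ∈ ({v : ℂ | mon a t₀ v = 0}) := hv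
      rw [he] at this
      exact this.elim
    · obtain ⟨w, hw, hmax⟩ := hK.exists_isMaxOn hne (f := fun v : ℂ => ‖v - c‖) (by fun_prop)
      have hwR : ‖w - c‖ < R := h w hw
      have hw0 : 0 ≤ ‖w - c‖ := norm_nonneg _
      refine ⟨(‖w - c‖ + R) / 2, by linarith, by linarith, fun v hv => ?_⟩
      have h1 : ‖v - c‖ ≤ ‖w - c‖ := hmax hv
      linarith
  refine ⟨ρ, hρ0, hρR, ?_⟩
  have hbd : ∀ᶠ t in 𝓝 t₀, ∑ j, ‖a j t‖ ≤ A := by
    have h1 : ContinuousAt (fun t => ∑ j, ‖a j t‖) t₀ :=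
      tendsto_finsetSum _ fun j _ => (ha j).norm
    have h2 : ∑ j, ‖a j t₀‖ < A := by rw [hA]; linarith
    exact (h1.eventually (gt_mem_nhds h2)).mono fun t ht => le_of_lt ht
  set K : Set ℂ := {v : ℂ | ρ ≤ ‖v - c‖ ∧ ‖v‖ ≤ 1 + A} with hKdef
  have hK : IsCompact K := by
    refine Metric.isCompact_of_isClosed_isBounded ?_ ?_
    · have c1 : Continuous fun v : ℂ => ‖v - c‖ := by fun_prop
      exact (isClosed_le continuous_const c1).inter (isClosed_le continuous_norm continuous_const)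
    · refine (Metric.isBounded_closedBall (x := (0 : ℂ)) (r := 1 + A)).subset fun v hv => ?_
      rw [mem_closedBall_zero_iff]
      exact hv.2
  have hev : ∀ᶠ t in 𝓝 t₀, ∀ v ∈ K, mon a t v ≠ 0 := by
    refine hK.eventually_forall_of_forall_eventually fun v hv => ?_
    have h1 : ContinuousAt (fun p : V × ℂ => mon a p.1 p.2) (t₀, v) := by
      unfold mon
      refine ContinuousAt.add (by fun_prop) (tendsto_finsetSum _ fun j _ => ?_)
      have h2 : ContinuousAt (fun p : V × ℂ => a j p.1) (t₀, v) :=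
        ContinuousAt.comp (f := fun p : V × ℂ => p.1) (g := a j) (ha j) continuousAt_fst
      exact h2.mul (by fun_prop)
    have h3 : mon a t₀ v ≠ 0 := fun h4 => absurd (hρ v h4) (not_lt.mpr hv.1)
    exact h1.eventually_ne h3
  filter_upwards [hbd, hev] with t ht1 ht2 v hv
  by_contra hcon
  push Not at hcon
  exact ht2 v ⟨hcon, WXMon_bound (fun j => a j t) ht1 hv⟩ hv

end Pool.Agent.DQ
end

section

/-! Campaign DQ, module W, file WXDiv: Weierstrass division on a fixed disc. -/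

set_option autoImplicit false

open Set Filter Topology

universe u

namespace Pool.Agent.DQ

/-- uniqueness of Weierstrass division (pointwise in `t`; `R` may be any radius)

Proof. `DQ.W.poly_unique` (file WPolyU) with `V := Unit`-like parameter (any normed space, e.g. `V := ℂ`, constant functions `a i`) or
`DQ.W.poly_unique_aux` with `P = X ^ k + ∑ C (a j) X ^ j`, `A = ∑ C (b j) X ^ j`, `U = ball c R` (`q` holomorphic near the points of the ball, so
continuous on it). `A = 0` gives `b = 0` (coefficients). -/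
theorem wdiv_unique {c : ℂ} {R : ℝ} {k : ℕ} {a : Fin k → ℂ} {q : ℂ → ℂ} {b : Fin k → ℂ}
    (hroot : ∀ v, v ^ k + ∑ j, a j * v ^ (j : ℕ) = 0 → ‖v - c‖ < R)
    (hq : HolNear q (Metric.ball c R))
    (h : ∀ v ∈ Metric.ball c R,
      q v * (v ^ k + ∑ j, a j * v ^ (j : ℕ)) + ∑ j, b j * v ^ (j : ℕ) = 0) :
    b = 0 ∧ ∀ v ∈ Metric.ball c R, q v = 0 := by
  have hPP : ∀ z : ℂ, DQ.W.PP k (fun i (_ : ℂ) => if h : i < k then a ⟨i, h⟩ else 0) 0 z =
      z ^ k + ∑ j, a j * z ^ (j : ℕ) := by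
    intro z
    unfold DQ.W.PP
    rw [Finset.sum_range]
    congr 1
    refine Finset.sum_congr rfl fun j _ => ?_
    simp only [dif_pos j.2]
  have hqc : ContinuousOn q (Metric.ball c R) := fun v hv => (hq v hv).differentiableAt.continuousAt.continuousWithinAt
  obtain ⟨h1, h2⟩ := DQ.W.poly_unique (V := ℂ) (U := Metric.ball c R) Metric.isOpen_ball (k := k)
    (a := fun i (_ : ℂ) => if h : i < k then a ⟨i, h⟩ else 0) (v := 0)
    (fun z hz => by
      rw [Metric.mem_ball, dist_eq_norm]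
      exact hroot z (by rw [← hPP z]; exact hz))
    hqc (r := fun i => if h : i < k then b ⟨i, h⟩ else 0)
    (fun t ht => by
      rw [hPP t, Finset.sum_range, mul_comm]
      have h3 := h t ht
      rw [← h3]
      congr 1
      refine Finset.sum_congr rfl fun j _ => ?_
      simp only [dif_pos j.2])
  refine ⟨?_, h2⟩
  funext j
  have h4 := h1 j j.2
  simp only [dif_pos j.2] at h4
  exact h4

variable {V : Type u} [NormedAddCommGroup V] [NormedSpace ℂ V]

/-- Local version.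

Proof. If `R ≤ 0` the ball is empty: `b = 0`, `q = 0`. Otherwise `mon_root_near` gives `ρ` and a neighbourhood of `t₀`; let `D` be an open
neighbourhood of `t₀` inside it and inside `S`. `DQ.W.poly_div` (file WPoly) with `ι = Unit`, `τ = c`, radii `ρ < R`, coefficients as in
`mon_eq_PP` (zero for `i ≥ k`). `HolNear` on an open set is `DifferentiableOn` (`holNear_iff_differentiableOn`). -/
theorem wdiv_local {S : Set V} (hS : IsOpen S) {c : ℂ} {R : ℝ} {k : ℕ} {a : Fin k → V → ℂ}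
    (ha : ∀ j, HolNear (a j) S) (hroot : ∀ t ∈ S, ∀ v, mon a t v = 0 → ‖v - c‖ < R)
    {g : V × ℂ → ℂ} (hg : HolNear g (S ×ˢ Metric.ball c R)) {t₀ : V} (ht₀ : t₀ ∈ S) :
    ∃ (D : Set V) (q : V × ℂ → ℂ) (b : Fin k → V → ℂ), IsOpen D ∧ t₀ ∈ D ∧ D ⊆ S ∧
      HolNear q (D ×ˢ Metric.ball c R) ∧ (∀ j, HolNear (b j) D) ∧
      ∀ t ∈ D, ∀ v ∈ Metric.ball c R, g (t, v) = q (t, v) * mon a t v + ∑ j, b j t * v ^ (j : ℕ) := by
  rcases le_or_gt R 0 with hR | hR
  · refine ⟨S, fun _ => 0, fun _ _ => 0, hS, ht₀, Subset.rfl, ?_, fun j x _ => HolAt.const 0 x, ?_⟩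
    · exact fun x _ => HolAt.const 0 x
    · intro t _ v hv
      rw [Metric.ball_eq_empty.mpr hR] at hv
      exact hv.elim
  · obtain ⟨ρ, hρ0, hρR, hev⟩ := mon_root_near (fun j => (ha j t₀ ht₀).differentiableAt.continuousAt) hR (hroot t₀ ht₀)
    obtain ⟨D0, hD0, hD0o, hD0t⟩ := eventually_nhds_iff.mp hev
    set D : Set V := D0 ∩ S with hD
    have hDo : IsOpen D := hD0o.inter hS
    have hDS : D ⊆ S := inter_subset_right
    have hU : (⋃ _ : Unit, Metric.ball c R) = Metric.ball c R := iUnion_const _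
    set a' : ℕ → V → ℂ := fun i s => if h : i < k then a ⟨i, h⟩ s else 0 with ha'
    have had : ∀ i < k, DifferentiableOn ℂ (a' i) D := by
      intro i hi
      have h1 : a' i = a ⟨i, hi⟩ := by
        funext s
        simp only [ha', dif_pos hi]
      rw [h1]
      exact (holNear_iff_differentiableOn hDo).mp ((ha ⟨i, hi⟩).mono hDS)
    obtain ⟨q, b, hq, hb, hqb⟩ := DQ.W.poly_div (ι := Unit) hDo (k := k) (a := a') had (τ := fun _ => c)
      (ρ := fun _ => ρ) (R := fun _ => R) (fun _ => hρ0) (fun _ => hρR)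
      (fun i j hij => absurd (Subsingleton.elim i j) hij)
      (fun t ht s hs => ⟨(), by
        rw [Metric.mem_ball, dist_eq_norm]
        refine hD0 t ht.1 s ?_
        rw [mon_eq_PP]
        exact hs⟩) (g := g) (by
        rw [hU]
        exact (holNear_iff_differentiableOn (hDo.prod Metric.isOpen_ball)).mp
          (hg.mono (prod_mono hDS Subset.rfl)))
    rw [hU] at hq hqb
    refine ⟨D, q, fun j => b j, hDo, ⟨hD0t, ht₀⟩, hDS, ?_, fun j => ?_, fun t ht v hv => ?_⟩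
    · exact (holNear_iff_differentiableOn (hDo.prod Metric.isOpen_ball)).mpr hq
    · exact (holNear_iff_differentiableOn hDo).mpr (hb j)
    · rw [hqb t ht v hv, mul_comm, mon_eq_PP, Finset.sum_range]

/-- Weierstrass division on a fixed disc (open version)

Proof. For every `t ∈ S` choose by `wdiv_local` a neighbourhood `D t` and `q t`, `b t` there; put `Q (t, v) := q t (t, v)`,
`B j t := b t j t`. For `t₁ ∈ S` and `t ∈ D t₁`: by `wdiv_unique` applied to the differences (at the fixed parameter `t`),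
`Q (t, v) = q t₁ (t, v)` for `v` in the ball and `B j t = b t₁ j t`. So near the points over `t₁` the functions `Q`, `B j` agree with
holomorphic functions (`HolAt.congr`). -/
theorem wdiv {S : Set V} (hS : IsOpen S) {c : ℂ} {R : ℝ} {k : ℕ} {a : Fin k → V → ℂ}
    (ha : ∀ j, HolNear (a j) S) (hroot : ∀ t ∈ S, ∀ v, mon a t v = 0 → ‖v - c‖ < R)
    {g : V × ℂ → ℂ} (hg : HolNear g (S ×ˢ Metric.ball c R)) :
    ∃ (q : V × ℂ → ℂ) (b : Fin k → V → ℂ), HolNear q (S ×ˢ Metric.ball c R) ∧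
      (∀ j, HolNear (b j) S) ∧
      ∀ t ∈ S, ∀ v ∈ Metric.ball c R, g (t, v) = q (t, v) * mon a t v + ∑ j, b j t * v ^ (j : ℕ) := by
  have hloc : ∀ t₀ ∈ S, ∃ (D : Set V) (q : V × ℂ → ℂ) (b : Fin k → V → ℂ), IsOpen D ∧ t₀ ∈ D ∧ D ⊆ S ∧
      HolNear q (D ×ˢ Metric.ball c R) ∧ (∀ j, HolNear (b j) D) ∧
      ∀ t ∈ D, ∀ v ∈ Metric.ball c R, g (t, v) = q (t, v) * mon a t v + ∑ j, b j t * v ^ (j : ℕ) :=
    fun t₀ ht₀ => wdiv_local hS ha hroot hg ht₀
  choose! D q b hDo htD hDS hq hb hqb using hloc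
  -- comparison
  have hcmp : ∀ t₁ ∈ S, ∀ t ∈ D t₁, (∀ j, b t j t = b t₁ j t) ∧
      ∀ v ∈ Metric.ball c R, q t (t, v) = q t₁ (t, v) := by
    intro t₁ ht₁ t ht
    have htS : t ∈ S := hDS t₁ ht₁ ht
    have hsl : ∀ q' : V × ℂ → ℂ, ∀ v, HolAt q' (t, v) → HolAt (fun w => q' (t, w)) v := by
      intro q' v h
      refine HolAt.comp (f := q') (g := fun w : ℂ => (t, w)) h (Eventually.of_forall fun w => ?_)
      exact (differentiableAt_const t).prodMk differentiableAt_id
    obtain ⟨h1, h2⟩ := wdiv_unique (c := c) (R := R) (k := k) (a := fun j => a j t)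
      (q := fun v => q t (t, v) - q t₁ (t, v)) (b := fun j => b t j t - b t₁ j t) (hroot t htS)
      (fun v hv => (hsl (q t) v (hq t htS (t, v) ⟨htD t htS, hv⟩)).sub
        (hsl (q t₁) v (hq t₁ ht₁ (t, v) ⟨ht, hv⟩)))
      (fun v hv => by
        have e1 := hqb t htS t (htD t htS) v hv
        have e2 := hqb t₁ ht₁ t ht v hv
        have e3 : ∑ j, (b t j t - b t₁ j t) * v ^ (j : ℕ) =
            ∑ j, b t j t * v ^ (j : ℕ) - ∑ j, b t₁ j t * v ^ (j : ℕ) := by
          rw [← Finset.sum_sub_distrib]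
          exact Finset.sum_congr rfl fun j _ => sub_mul _ _ _
        rw [e3]
        change (q t (t, v) - q t₁ (t, v)) * mon a t v + _ = 0
        linear_combination e2 - e1)
    refine ⟨fun j => ?_, fun v hv => ?_⟩
    · have h3 := congrFun h1 j
      exact sub_eq_zero.mp h3
    · exact sub_eq_zero.mp (h2 v hv)
  refine ⟨fun p => q p.1 p, fun j t => b t j t, ?_, ?_, ?_⟩
  · rintro ⟨t₁, v₁⟩ ⟨ht₁, hv₁⟩
    have ht₁' : t₁ ∈ S := ht₁
    refine (hq t₁ ht₁' (t₁, v₁) ⟨htD t₁ ht₁', hv₁⟩).congr ?_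
    have hN : D t₁ ×ˢ Metric.ball c R ∈ 𝓝 (t₁, v₁) :=
      ((hDo t₁ ht₁').prod Metric.isOpen_ball).mem_nhds ⟨htD t₁ ht₁', hv₁⟩
    filter_upwards [hN] with p hp
    exact ((hcmp t₁ ht₁' p.1 hp.1).2 p.2 hp.2).symm
  · intro j t₁ ht₁
    refine (hb t₁ ht₁ j t₁ (htD t₁ ht₁)).congr ?_
    filter_upwards [(hDo t₁ ht₁).mem_nhds (htD t₁ ht₁)] with t ht
    exact ((hcmp t₁ ht₁ t ht).1 j).symm
  · intro t ht v hv
    exact hqb t ht t (htD t ht) v hv

end Pool.Agent.DQ
end

section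

/-! Campaign DQ, module W, file WXSlope: division by a linear form (Hadamard lemma). -/

set_option autoImplicit false

open Metric Set Filter Topology

universe u

namespace Pool.Agent.DQ.W

/-- **Slope along a direction.**

Proof. `f` is holomorphic on `ball x r`. Choose `r₁, R₁ > 0` with `r₁ + R₁ * ‖e‖ ≤ r`; `G (v, t) := f (v + t • e)` is holomorphic on
`ball x r₁ ×ˢ ball 0 R₁`; `hol_slope` (with `V := E`) gives `G (v, t) = G (v, 0) + t * H (v, t)`. Put
`h y := H (y - ℓ (y - x) • e, ℓ (y - x))`; the map `y ↦ (y - ℓ (y - x) • e, ℓ (y - x))` is differentiable and sends `x` to `(x, 0)`. Insert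
`v = y - ℓ (y - x) • e`, `t = ℓ (y - x)`. -/
theorem hol_slope_dir {E : Type u} [NormedAddCommGroup E] [NormedSpace ℂ E] {f : E → ℂ} {x : E} (hf : HolAt f x)
    (ℓ : E →L[ℂ] ℂ) (e : E) :
    ∃ h : E → ℂ, HolAt h x ∧ ∀ᶠ y in 𝓝 x, f y = f (y - ℓ (y - x) • e) + ℓ (y - x) * h y := by
  obtain ⟨r, hr, hd⟩ := holAt_iff.1 hf
  have he : 0 < ‖e‖ + 1 := by positivity
  have hr₁ : 0 < r / 2 := by positivity
  have hR₁ : 0 < r / 2 / (‖e‖ + 1) := by positivity
  set D : Set E := ball x (r / 2) with hD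
  set R : ℝ := r / 2 / (‖e‖ + 1) with hRdef
  have hRe : R * ‖e‖ ≤ r / 2 := by
    have h1 : R * (‖e‖ + 1) = r / 2 := by
      rw [hRdef]
      field_simp
    have h2 : R * ‖e‖ ≤ R * (‖e‖ + 1) := mul_le_mul_of_nonneg_left (by linarith) hR₁.le
    linarith
  have hmaps : ∀ p ∈ D ×ˢ ball (0 : ℂ) R, p.1 + p.2 • e ∈ ball x r := by
    rintro ⟨v, t⟩ ⟨hv, ht⟩
    have hv' : ‖v - x‖ < r / 2 := by rw [← dist_eq_norm]; exact hv
    have ht' : ‖t‖ < R := mem_ball_zero_iff.1 ht
    show v + t • e ∈ ball x r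
    rw [mem_ball, dist_eq_norm]
    have e1 : v + t • e - x = (v - x) + t • e := by abel
    rw [e1]
    have h3 := norm_add_le (v - x) (t • e)
    rw [norm_smul] at h3
    have h4 : ‖t‖ * ‖e‖ ≤ R * ‖e‖ := mul_le_mul_of_nonneg_right ht'.le (norm_nonneg _)
    linarith
  have hφ : Differentiable ℂ fun p : E × ℂ => p.1 + p.2 • e := by fun_prop
  have hG : DifferentiableOn ℂ (fun p : E × ℂ => f (p.1 + p.2 • e)) (D ×ˢ ball 0 R) :=
    hd.comp hφ.differentiableOn hmaps
  obtain ⟨H, hH, hid, -⟩ := hol_slope isOpen_ball hR₁ hG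
  have hψ : Differentiable ℂ fun y : E => ((y - ℓ (y - x) • e, ℓ (y - x)) : E × ℂ) := by fun_prop
  have hψx : ((x - ℓ (x - x) • e, ℓ (x - x)) : E × ℂ) = (x, 0) := by simp
  have hmem : ((x, 0) : E × ℂ) ∈ D ×ˢ ball (0 : ℂ) R := ⟨mem_ball_self hr₁, mem_ball_self hR₁⟩
  have hopen : IsOpen (D ×ˢ ball (0 : ℂ) R) := isOpen_ball.prod isOpen_ball
  have hev : ∀ᶠ y in 𝓝 x, ((y - ℓ (y - x) • e, ℓ (y - x)) : E × ℂ) ∈ D ×ˢ ball (0 : ℂ) R := by
    apply hψ.continuous.continuousAt.eventually_mem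
    rw [hψx]
    exact hopen.mem_nhds hmem
  refine ⟨fun y => H (y - ℓ (y - x) • e, ℓ (y - x)), ?_, ?_⟩
  · filter_upwards [hev] with y hy
    exact (hH.differentiableAt (hopen.mem_nhds hy)).comp y (hψ y)
  · filter_upwards [hev] with y hy
    have h5 := hid _ hy.1 _ hy.2
    simp only [sub_add_cancel, zero_smul, add_zero] at h5
    exact h5

end Pool.Agent.DQ.W
end

section

/-! # Factorisation of a projection with finite dimensional range -/

set_option autoImplicit false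

open Set Filter Topology Matrix

namespace Pool.Agent.DQ.X

variable {B : Type*} [NormedAddCommGroup B] [NormedSpace ℂ B]

/-- TASK A2a. A projection with finite dimensional range factors through `ℂ^κ`.
PROOF. Take a basis of the range `W` (`Module.finBasis ℂ W`, index type `Fin k`), so an equivalence
`e : W ≃L[ℂ] (Fin k → ℂ)` (`Basis.equivFunL` or `ContinuousLinearEquiv.ofFinrankEq`,
`W` is finite dimensional). Put `ι = (subtype of W) ∘ e.symm` and `π = e ∘ (F with codomain W)`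
(`ContinuousLinearMap.codRestrict`, or `F.rangeRestrict`). `ι (π x) = F x`, and `π (ι v) = e (F w) = e w = v`
for `w = e.symm v ∈ W` because `F` is the identity on its range (`F (F x) = F x`). -/
theorem exists_factor (F : B →L[ℂ] B) (hF : ∀ x, F (F x) = F x)
    (hfin : FiniteDimensional ℂ (LinearMap.range (F : B →ₗ[ℂ] B))) :
    ∃ (k : ℕ) (ι : (Fin k → ℂ) →L[ℂ] B) (π : B →L[ℂ] (Fin k → ℂ)),
      (∀ x, ι (π x) = F x) ∧ ∀ v, π (ι v) = v := by
  let e : (LinearMap.range (F : B →ₗ[ℂ] B)) ≃L[ℂ]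
      (Fin (Module.finrank ℂ (LinearMap.range (F : B →ₗ[ℂ] B))) → ℂ) :=
    ContinuousLinearEquiv.ofFinrankEq (by simp)
  let F' : B →L[ℂ] (LinearMap.range (F : B →ₗ[ℂ] B)) := F.codRestrict _ (fun x => ⟨x, rfl⟩)
  have hF' : ∀ x, ((F' x : LinearMap.range (F : B →ₗ[ℂ] B)) : B) = F x := fun x => rfl
  refine ⟨_, (LinearMap.range (F : B →ₗ[ℂ] B)).subtypeL.comp e.symm.toContinuousLinearMap,
    e.toContinuousLinearMap.comp F', ?_, ?_⟩
  · intro x
    change ((e.symm (e (F' x)) : LinearMap.range (F : B →ₗ[ℂ] B)) : B) = F x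
    rw [e.symm_apply_apply, hF']
  · intro v
    change e (F' ((e.symm v : LinearMap.range (F : B →ₗ[ℂ] B)) : B)) = v
    have h1 : F' ((e.symm v : LinearMap.range (F : B →ₗ[ℂ] B)) : B) = e.symm v := by
      apply Subtype.ext
      rw [hF']
      obtain ⟨x, hx⟩ := (e.symm v).2
      rw [← hx]
      exact hF x
    rw [h1, e.apply_symm_apply]

end Pool.Agent.DQ.X
end

section

/-! # The matrix of a finite rank operator -/

set_option autoImplicit false

open Set Filter Topology Matrix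

namespace Pool.Agent.DQ.X

variable {B : Type*} [NormedAddCommGroup B] [NormedSpace ℂ B]

/-- the matrix of `π A ι` -/
noncomputable def fm {k : ℕ} (ι : (Fin k → ℂ) →L[ℂ] B) (π : B →L[ℂ] (Fin k → ℂ))
    (A : B →L[ℂ] B) : Matrix (Fin k) (Fin k) ℂ :=
  Matrix.of fun i j => π (A (ι (Pi.single j 1))) i

/-- TASK A2b. PROOF. `ι v = ∑ j, v j • ι (Pi.single j 1)` (`pi_eq_sum_univ'` / `LinearMap.pi_apply_eq_sum_univ`
for the linear map `π ∘ A ∘ ι`), `Matrix.mulVec`, `dotProduct`. -/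
theorem fm_mulVec {k : ℕ} (ι : (Fin k → ℂ) →L[ℂ] B) (π : B →L[ℂ] (Fin k → ℂ))
    (A : B →L[ℂ] B) (v : Fin k → ℂ) : fm ι π A *ᵥ v = π (A (ι v)) := by
  have h1 : fm ι π A = LinearMap.toMatrix'
      ((π.comp (A.comp ι) : (Fin k → ℂ) →L[ℂ] (Fin k → ℂ)) : (Fin k → ℂ) →ₗ[ℂ] (Fin k → ℂ)) := by
    ext i j
    rw [LinearMap.toMatrix'_apply]
    rfl
  rw [h1, LinearMap.toMatrix'_mulVec]
  rfl

/-- the continuous linear map `ℂ^k → ℂ^k` of a matrix -/
noncomputable def mv {k : ℕ} (M : Matrix (Fin k) (Fin k) ℂ) : (Fin k → ℂ) →L[ℂ] (Fin k → ℂ) :=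
  LinearMap.toContinuousLinearMap M.mulVecLin

theorem mv_apply {k : ℕ} (M : Matrix (Fin k) (Fin k) ℂ) (v : Fin k → ℂ) : mv M v = M *ᵥ v := rfl

private theorem A2b_det {E : Type*} [NormedAddCommGroup E] [NormedSpace ℂ E] {k : ℕ}
    {M : E → Matrix (Fin k) (Fin k) ℂ} (h : ∀ i j, Differentiable ℂ fun A => M A i j) :
    Differentiable ℂ fun A => (M A).det := by
  simp only [Matrix.det_apply]
  refine Differentiable.fun_sum fun σ _ => ?_
  refine Differentiable.const_smul ?_ _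
  intro A
  exact (HasFDerivAt.finsetProd (u := Finset.univ) (g := fun i A => M A (σ i) i)
    fun i _ => ((h (σ i) i) A).hasFDerivAt).differentiableAt

private theorem A2b_mv {k : ℕ} (M : Matrix (Fin k) (Fin k) ℂ) :
    mv M = ∑ i, ∑ j, M i j • mv (Matrix.single i j (1 : ℂ)) := by
  ext v l
  simp only [FunLike.coe_sum, Finset.sum_apply, _root_.smul_apply, mv_apply,
    Pi.smul_apply, smul_eq_mul, Matrix.single_mulVec]
  simp [Matrix.mulVec, dotProduct, Function.update_apply, Finset.sum_ite_eq]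

/-- TASK A2c. Holomorphic dependence of `det (1 + π A ι)` and of the operator of the adjugate on `A`.
PROOF. The entries `A ↦ π (A (ι e_j)) i` are continuous linear functions of `A`
(`ContinuousLinearMap.apply`, composition, `ContinuousLinearMap.proj i`), so differentiable; `det` is
a polynomial in the entries (`Matrix.det_apply`, `DifferentiableOn.fun_sum`,
`DifferentiableOn.fun_finset_prod`, `Differentiable.const_smul`); the entries of the adjugate are
determinants of matrices with such entries (`Matrix.adjugate_apply`, `Matrix.updateRow`, the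
entries are constants or entries of `1 + fm`). For the operator valued map write
`mv M = ∑ i, ∑ j, M i j • mv (Matrix.single i j 1)` (`Matrix.matrix_eq_sum_single`; or
`mv` is a linear map on the finite dimensional space of matrices) and use `fun_sum`, `smul_const`. -/
theorem differentiable_fm {k : ℕ} (ι : (Fin k → ℂ) →L[ℂ] B) (π : B →L[ℂ] (Fin k → ℂ)) :
    (Differentiable ℂ fun A : B →L[ℂ] B => (1 + fm ι π A).det) ∧
      Differentiable ℂ fun A : B →L[ℂ] B => mv ((1 + fm ι π A).adjugate) := by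
  have h1 : ∀ i j, Differentiable ℂ fun A : B →L[ℂ] B => (1 + fm ι π A) i j := by
    intro i j
    have h2 : (fun A : B →L[ℂ] B => (1 + fm ι π A) i j) =
        fun A => (1 : Matrix (Fin k) (Fin k) ℂ) i j +
          (ContinuousLinearMap.proj (R := ℂ) (φ := fun _ : Fin k => ℂ) i).comp
            (π.comp (ContinuousLinearMap.apply ℂ B (ι (Pi.single j 1)))) A := by
      funext A
      rfl
    rw [h2]
    exact (ContinuousLinearMap.differentiable _).const_add _
  refine ⟨A2b_det h1, ?_⟩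
  simp only [A2b_mv (Matrix.adjugate _)]
  refine Differentiable.fun_sum fun i _ => Differentiable.fun_sum fun j _ => ?_
  refine Differentiable.smul_const ?_ _
  simp only [Matrix.adjugate_apply]
  refine A2b_det fun a b => ?_
  by_cases hja : a = j
  · subst hja
    simp only [Matrix.updateRow_self]
    exact differentiable_const _
  · simp only [Matrix.updateRow_ne hja]
    exact h1 a b

end Pool.Agent.DQ.X
end

section

/-! # Inverses of finite rank perturbations of the identity -/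

set_option autoImplicit false

open Set Filter Topology Matrix

namespace Pool.Agent.DQ.X

variable {B : Type*} [NormedAddCommGroup B] [NormedSpace ℂ B]

/-- TASK A2d. Inverse of `1 + F A` up to a scalar.
PROOF. Let `F = ι π`, `π ι = 1` (`exists_factor`), `δ A = det (1 + fm A)`, `G A = δ A • 1 - ι (adj (1 + fm A)) π A`
(`ι ∘L mv (adjugate) ∘L π ∘L A`). For `x` put `v = π (A x)`. Then
`G A ((1 + F A) x) = δ (x + ι v) - ι adj (π A x + π A ι v) = δ (x + ι v) - ι adj ((1 + fm A) v) =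
δ x + δ ι v - ι (δ v) = δ x` (`Matrix.adjugate_mul`, `fm_mulVec`, `Matrix.mulVec_mulVec`,
`Matrix.smul_mulVec`, `Matrix.one_mulVec`, `map_smul`).
Differentiability: `differentiable_fm`, compositions are bilinear (`ContinuousLinearMap` products:
`G A = δ A • 1 - (ι ∘L mv (..)) ∘L (π ∘L A)`, `Differentiable.clm_comp`).
If `F * A = 0`: `ι (π (A x)) = 0`, so `π (A x) = π (ι (π (A x))) = 0`, `fm A = 0` and `δ A = det 1 = 1`. -/
theorem exists_left (F : B →L[ℂ] B) (hF : ∀ x, F (F x) = F x)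
    (hfin : FiniteDimensional ℂ (LinearMap.range (F : B →ₗ[ℂ] B))) :
    ∃ (δ : (B →L[ℂ] B) → ℂ) (G : (B →L[ℂ] B) → (B →L[ℂ] B)), Differentiable ℂ δ ∧
      Differentiable ℂ G ∧ (∀ A, G A * (1 + F * A) = δ A • 1) ∧ ∀ A, F * A = 0 → δ A = 1 := by
  obtain ⟨k, ι, π, hι, hπ⟩ := exists_factor F hF hfin
  obtain ⟨hd1, hd2⟩ := differentiable_fm ι π
  refine ⟨fun A => (1 + fm ι π A).det, fun A => (1 + fm ι π A).det • 1 -
    (ι.comp (mv ((1 + fm ι π A).adjugate))).comp (π.comp A), hd1, ?_, ?_, ?_⟩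
  · refine (hd1.smul_const _).sub ?_
    exact ((differentiable_const _).clm_comp hd2).clm_comp
      ((differentiable_const _).clm_comp differentiable_id)
  · intro A
    ext x
    have h1 : F (A x) = ι (π (A x)) := (hι (A x)).symm
    have h2 : π (A (x + ι (π (A x)))) = (1 + fm ι π A) *ᵥ (π (A x)) := by
      rw [map_add, map_add, Matrix.add_mulVec, Matrix.one_mulVec, fm_mulVec]
    change (1 + fm ι π A).det • (x + F (A x)) -
      ι ((1 + fm ι π A).adjugate *ᵥ (π (A (x + F (A x))))) = (1 + fm ι π A).det • x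
    rw [h1, h2, Matrix.mulVec_mulVec, Matrix.adjugate_mul, Matrix.smul_mulVec,
      Matrix.one_mulVec, map_smul, smul_add]
    abel
  · intro A hA
    have h1 : fm ι π A = 0 := by
      ext i j
      have h2 : ∀ y, π (A y) = 0 := by
        intro y
        have h3 : F (A y) = 0 := congrArg (fun T : B →L[ℂ] B => T y) hA
        rw [← hπ (π (A y)), hι, h3, map_zero]
      change π (A (ι (Pi.single j 1))) i = 0
      rw [h2]
      rfl
    simp only [h1, add_zero, Matrix.det_one]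

/-- TASK A2e. The same for `1 + A F`.
PROOF. `G A = δ A • 1 - A ι (adj (1 + fm A)) π`. `(1 + A F) (G A x)` with `v = π x`, `u = adj v`:
`G A x = δ x - A ι u`, and `(1 + A ι π)(δ x - A ι u) = δ x - A ι u + δ A ι v - A ι (π A ι u) =
δ x + A ι (δ v - (1 + fm A) u) = δ x`. For `A = 0`: `fm 0 = 0`, `δ = 1`. -/
theorem exists_right (F : B →L[ℂ] B) (hF : ∀ x, F (F x) = F x)
    (hfin : FiniteDimensional ℂ (LinearMap.range (F : B →ₗ[ℂ] B))) :
    ∃ (δ : (B →L[ℂ] B) → ℂ) (G : (B →L[ℂ] B) → (B →L[ℂ] B)), Differentiable ℂ δ ∧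
      Differentiable ℂ G ∧ (∀ A, (1 + A * F) * G A = δ A • 1) ∧ δ 0 = 1 := by
  obtain ⟨k, ι, π, hι, hπ⟩ := exists_factor F hF hfin
  obtain ⟨hd1, hd2⟩ := differentiable_fm ι π
  refine ⟨fun A => (1 + fm ι π A).det, fun A => (1 + fm ι π A).det • 1 -
    (A.comp (ι.comp (mv ((1 + fm ι π A).adjugate)))).comp π, hd1, ?_, ?_, ?_⟩
  · refine (hd1.smul_const _).sub ?_
    exact (differentiable_id.clm_comp ((differentiable_const _).clm_comp hd2)).clm_comp
      (differentiable_const _)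
  · intro A
    ext x
    set u : Fin k → ℂ := (1 + fm ι π A).adjugate *ᵥ (π x) with hu
    have h1 : π (A (ι u)) = fm ι π A *ᵥ u := (fm_mulVec ι π A u).symm
    have h2 : (1 + fm ι π A) *ᵥ u = (1 + fm ι π A).det • π x := by
      rw [hu, Matrix.mulVec_mulVec, Matrix.mul_adjugate, Matrix.smul_mulVec, Matrix.one_mulVec]
    have h3 : u + π (A (ι u)) = (1 + fm ι π A).det • π x := by
      rw [h1, ← h2, Matrix.add_mulVec, Matrix.one_mulVec]
    change ((1 + fm ι π A).det • x - A (ι u)) + A (F ((1 + fm ι π A).det • x - A (ι u))) =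
      (1 + fm ι π A).det • x
    have h4 : F ((1 + fm ι π A).det • x - A (ι u)) = ι u := by
      rw [← hι, map_sub, map_smul, ← h3, add_sub_cancel_right]
    rw [h4]
    abel
  · have h1 : fm ι π (0 : B →L[ℂ] B) = 0 := by
      ext i j
      change π 0 i = 0
      rw [map_zero]
      rfl
    simp only [h1, add_zero, Matrix.det_one]

end Pool.Agent.DQ.X
end

section

/-! # The left parametrix -/

set_option autoImplicit false

open Set Filter Topology

namespace Pool.Agent.DQ.X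

variable {B : Type*} [NormedRing B] [NormedAlgebra ℂ B] [CompleteSpace B] (S : Split B)

/-- TASK A3e. Left parametrix, holomorphic in `w`.
PROOF. Choose `N` by `exists_tail` with `ε = 1 / 2`, let `E w` be the sum there, `‖E w‖ ≤ 1 / 2` on `K`, so
`1 - E w` is a unit (`Units.oneSub` / `isUnit_one_sub_of_norm_lt_one`) and `Ring.inverse (1 - E w)` is
differentiable on `Ω'` (`differentiableAt_inverse`; `E` is differentiable on `Ω'` as a sum of products, `mulL ∘ m i` is
differentiable because `ContinuousLinearMap.mul ℂ B` is continuous linear). Let `Ti w = P mulL (m i w) P`,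
`A w = (∑ i, T i * Ti w - 1) * Ring.inverse (1 - E w)`. By `left_identity`
`(1 - P) + ∑ i, C i w * Ti w = (1 + F A) (1 - E)` with `C i w = F N * T i + (P - F N) mulL (ξ i w) P`. With `δ'`, `G` of
`exists_left (S.F N)` put `δ w = δ' (A w)` and `𝓖 i w = Ring.inverse (1 - E w) * G (A w) * C i w`. Then
`Ring.inverse (1 - E) G(A) ((1 - P) + ∑ C i Ti) = Ring.inverse (1 - E) δ (1 - E) = δ • 1`; multiply by `P` on
the right: `(1 - P) P = 0`, `Ti P = Ti`, so `∑ 𝓖 i w * Ti w = δ w • P`. At `w₁`: `∑ T i Ti = P`, so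
`F A = F (P - 1) Ring.inverse .. = 0` (`FP`), and `δ w₁ = 1`. -/
theorem left_parametrix {p : ℕ} {Ω' K : Set ℂ} (hΩ' : IsOpen Ω') (hK : IsCompact K) (hsub : Ω' ⊆ K)
    {m ξ : Fin p → ℂ → B} (hmK : ∀ i, ContinuousOn (m i) K) (hξK : ∀ i, ContinuousOn (ξ i) K)
    (hm : ∀ i, DifferentiableOn ℂ (m i) Ω') (hξ : ∀ i, DifferentiableOn ℂ (ξ i) Ω')
    (h1 : ∀ w ∈ Ω', ∑ i, ξ i w * m i w = 1) {w₁ : ℂ} (hw₁ : w₁ ∈ Ω') (T : Fin p → B →L[ℂ] B)
    (hT : ∑ i, T i * (S.P * mulL (m i w₁) * S.P) = S.P) :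
    ∃ (δ : ℂ → ℂ) (G : Fin p → ℂ → B →L[ℂ] B), DifferentiableOn ℂ δ Ω' ∧
      (∀ i, DifferentiableOn ℂ (G i) Ω') ∧ δ w₁ = 1 ∧
      ∀ w ∈ Ω', ∑ i, G i w * (S.P * mulL (m i w) * S.P) = δ w • S.P := by
  obtain ⟨N₀, hN₀⟩ := exists_tail S hK hmK hξK (ε := 1 / 2) (by norm_num)
  obtain ⟨δ', G, hδ', hG, hGl, hδ1⟩ := exists_left (S.F N₀) (S.F_F N₀) (S.fin N₀)
  set E : ℂ → B →L[ℂ] B := fun w =>
    ∑ i, (S.P - S.F N₀) * mulL (ξ i w) * (1 - S.P) * mulL (m i w) * S.P with hE
  have hEn : ∀ w ∈ Ω', ‖E w‖ < 1 := fun w hw =>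
    lt_of_le_of_lt (hN₀ N₀ le_rfl w (hsub hw)) (by norm_num)
  have hu : ∀ w ∈ Ω', IsUnit (1 - E w) := fun w hw => isUnit_one_sub_of_norm_lt_one (hEn w hw)
  have dmul : ∀ {g : ℂ → B}, DifferentiableOn ℂ g Ω' →
      DifferentiableOn ℂ (fun w => mulL (g w)) Ω' := fun {g} hg =>
    (ContinuousLinearMap.mul ℂ B).differentiable.comp_differentiableOn hg
  have dE : DifferentiableOn ℂ E Ω' := by
    refine DifferentiableOn.fun_sum fun i _ => ?_
    exact (((((differentiableOn_const _).mul (dmul (hξ i))).mul (differentiableOn_const _)).mul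
      (dmul (hm i))).mul (differentiableOn_const _))
  have dI : DifferentiableOn ℂ (fun w => Ring.inverse (1 - E w)) Ω' := by
    intro w hw
    have h3 : DifferentiableAt ℂ (Ring.inverse : (B →L[ℂ] B) → (B →L[ℂ] B)) (1 - E w) :=
      differentiableAt_inverse (hu w hw)
    have h4 : DifferentiableAt ℂ (fun w => 1 - E w) w :=
      (dE.differentiableAt (hΩ'.mem_nhds hw)).const_sub _
    exact (h3.comp w h4).differentiableWithinAt
  set Ti : Fin p → ℂ → B →L[ℂ] B := fun i w => S.P * mulL (m i w) * S.P with hTi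
  have dT : ∀ i, DifferentiableOn ℂ (Ti i) Ω' := fun i =>
    ((differentiableOn_const _).mul (dmul (hm i))).mul (differentiableOn_const _)
  set A : ℂ → B →L[ℂ] B := fun w => (∑ i, T i * Ti i w - 1) * Ring.inverse (1 - E w) with hA
  have dA : DifferentiableOn ℂ A Ω' := by
    refine DifferentiableOn.mul ?_ dI
    refine DifferentiableOn.sub_const ?_ _
    exact DifferentiableOn.fun_sum fun i _ => (differentiableOn_const _).mul (dT i)
  set C : Fin p → ℂ → B →L[ℂ] B := fun i w =>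
    S.F N₀ * T i + (S.P - S.F N₀) * mulL (ξ i w) * S.P with hC
  have dC : ∀ i, DifferentiableOn ℂ (C i) Ω' := fun i =>
    (((differentiableOn_const _).mul (dmul (hξ i))).mul (differentiableOn_const _)).const_add _
  refine ⟨fun w => δ' (A w), fun i w => Ring.inverse (1 - E w) * G (A w) * C i w,
    hδ'.comp_differentiableOn dA, fun i => (dI.mul (hG.comp_differentiableOn dA)).mul (dC i),
    ?_, ?_⟩
  · apply hδ1
    have h2 : S.F N₀ * (∑ i, T i * Ti i w₁ - 1) = 0 := by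
      have h3 : ∑ i, T i * Ti i w₁ = S.P := hT
      rw [h3, mul_sub, FP, mul_one, sub_self]
    simp only [hA]
    rw [← mul_assoc, h2, zero_mul]
  · intro w hw
    have h2 : (1 - S.P) + ∑ i, C i w * Ti i w = (1 + S.F N₀ * A w) * (1 - E w) := by
      have h3 := left_identity S (h1 w hw) N₀ T
      have h4 : A w * (1 - E w) = ∑ i, T i * Ti i w - 1 := by
        simp only [hA]
        rw [mul_assoc, Ring.inverse_mul_cancel _ (hu w hw), mul_one]
      rw [add_mul, one_mul, mul_assoc, h4]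
      exact h3
    have h5 : Ring.inverse (1 - E w) * G (A w) * ((1 - S.P) + ∑ i, C i w * Ti i w) =
        δ' (A w) • 1 := by
      calc Ring.inverse (1 - E w) * G (A w) * ((1 - S.P) + ∑ i, C i w * Ti i w)
          = Ring.inverse (1 - E w) * (G (A w) * (1 + S.F N₀ * A w)) * (1 - E w) := by
            rw [h2]
            simp only [mul_assoc]
        _ = Ring.inverse (1 - E w) * (δ' (A w) • 1) * (1 - E w) := by rw [hGl]
        _ = δ' (A w) • (Ring.inverse (1 - E w) * (1 - E w)) := by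
            ext x
            exact map_smul (Ring.inverse (1 - E w)) _ _
        _ = δ' (A w) • 1 := by rw [Ring.inverse_mul_cancel _ (hu w hw)]
    have h6 : ((1 - S.P) + ∑ i, C i w * Ti i w) * S.P = ∑ i, C i w * Ti i w := by
      rw [add_mul, sub_mul, one_mul, PP, sub_self, zero_add, Finset.sum_mul]
      refine Finset.sum_congr rfl fun i _ => ?_
      simp only [hTi, mul_assoc]
      rw [PP]
    have h8 : (δ' (A w) • (1 : B →L[ℂ] B)) * S.P = δ' (A w) • S.P := by
      ext x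
      rfl
    have h7 : Ring.inverse (1 - E w) * G (A w) * ((1 - S.P) + ∑ i, C i w * Ti i w) * S.P =
        δ' (A w) • S.P := by
      rw [h5, h8]
    rw [mul_assoc, h6, Finset.mul_sum] at h7
    rw [← h7]
    refine Finset.sum_congr rfl fun i _ => ?_
    exact mul_assoc _ _ _

end Pool.Agent.DQ.X
end

section

/-! # Meromorphic extension of the solution over one parameter -/

set_option autoImplicit false

open Set Filter Topology

namespace Pool.Agent.DQ.X

variable {B : Type*} [NormedRing B] [NormedAlgebra ℂ B] [CompleteSpace B] (S : Split B)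

omit [CompleteSpace B] in
private theorem C3_Tt_Q (g : B) : Tt S g * (1 - S.P) = 1 - S.P := by
  have e1 : (1 - S.P) * (1 - S.P) = 1 - S.P := by
    rw [sub_mul, one_mul, mul_sub, mul_one, PP]
    abel
  have e2 : S.P * mulL g * S.P * (1 - S.P) = 0 := by
    rw [mul_assoc, mul_sub, mul_one, PP, sub_self, mul_zero]
  unfold Tt
  rw [add_mul, e1, e2, add_zero]

omit [CompleteSpace B] in
private theorem C3_T (g : B) (hu : IsUnit (Tt S g)) :
    Ring.inverse (Tt S g) * (S.P * mulL g * S.P) = S.P := by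
  have h1 : S.P * mulL g * S.P = Tt S g - (1 - S.P) := by
    unfold Tt
    abel
  have h2 : Ring.inverse (Tt S g) * (1 - S.P) = 1 - S.P := by
    conv_lhs => rw [← C3_Tt_Q S g]
    rw [← mul_assoc, Ring.inverse_mul_cancel _ hu, one_mul]
  rw [h1, mul_sub, h2, Ring.inverse_mul_cancel _ hu]
  abel

omit [CompleteSpace B] in
private theorem C3_mul {a : B} (b : B) (ha : S.P a = 0) :
    (S.P * mulL a * S.P) * (S.P * mulL b * S.P) = S.P * mulL (a * b) * S.P := by
  have h1 := P_mul_Q S ha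
  have h2 : S.P * mulL a * S.P = S.P * mulL a := by
    have : S.P * mulL a * (1 - S.P) = S.P * mulL a - S.P * mulL a * S.P := by
      rw [mul_sub, mul_one]
    rw [this, sub_eq_zero] at h1
    exact h1.symm
  calc (S.P * mulL a * S.P) * (S.P * mulL b * S.P)
      = S.P * mulL a * (S.P * S.P) * mulL b * S.P := by simp only [mul_assoc]
    _ = (S.P * mulL a * S.P) * mulL b * S.P := by rw [PP]
    _ = (S.P * mulL a) * mulL b * S.P := by rw [h2]
    _ = S.P * mulL (a * b) * S.P := by rw [mulL_mul]; simp only [mul_assoc]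

omit [CompleteSpace B] in
private theorem C3_key {m L g : B} (hL : S.P L = 0) (hm : m = L * g) (hu : IsUnit (Tt S g)) :
    (S.P * mulL m * S.P) (tau S g) = -S.P m := by
  have h0 : S.P (L * (g * (1 + tau S g))) = 0 := S.plus_mul hL (P_mul_tau S hu)
  have h1 : S.P (m * (1 + tau S g)) = 0 := by
    rw [hm, mul_assoc]
    exact h0
  change S.P (m * S.P (tau S g)) = -S.P m
  rw [P_tau S hu]
  rw [mul_add, mul_one, map_add] at h1
  rw [eq_neg_iff_add_eq_zero, add_comm]
  exact h1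

/-- TASK C3. PROOF. For `w ∈ A` and every `i`: `m i w * (1 + tau) = L i w * (g w * (1 + tau))` (`tau = tau S (g w)`) is in the kernel of `P`
(`P_mul_tau`, `S.plus_mul`), so with `S.P tau = tau` (`P_tau`): `(P * mulL (m i w) * P) tau = P (m i w * tau) = - P (m i w)`. (*)
Put `T i = Ring.inverse (Tt S (g w₁)) * S.P * mulL (η i) * S.P`. Then `∑ i, T i * (P mulL (m i w₁) P) = P`: as `P (η i) = 0`, `P mulL (η i) P =
P mulL (η i)` (`P_mul_Q`), so `P mulL (η i) P * (P mulL (m i w₁) P) = P mulL (η i) mulL (m i w₁) P = P mulL (η i * L i w₁ * g w₁) P`, and the sum over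
`i` is `P mulL (g w₁) P` (`hηL`); `Ring.inverse (Tt) * (P mulL g P) = Ring.inverse (Tt) * (Tt - (1 - P)) = 1 - Ring.inverse (Tt) * (1 - P) = 1 - (1 - P) = P`,
since `Tt * (1 - P) = 1 - P`. `left_parametrix` with this `T` and `w₁ ∈ A ⊆ Ω'` gives `δ` and `G i` with
`∑ i, G i w * (P mulL (m i w) P) = δ w • P` on `Ω'`. Put `σ w = - ∑ i, G i w (P (m i w))`, differentiable on `Ω'`. For `w ∈ A` apply the identity
to `tau`: `δ w • tau = ∑ i, G i w ((P mulL (m i w) P) tau) = σ w` by (*). -/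
theorem mero_abs {p : ℕ} {Ω' K A : Set ℂ} (hΩ' : IsOpen Ω') (hK : IsCompact K) (hsub : Ω' ⊆ K)
    (hA : A ⊆ Ω') {m ξ : Fin p → ℂ → B} (hmK : ∀ i, ContinuousOn (m i) K)
    (hξK : ∀ i, ContinuousOn (ξ i) K) (hm : ∀ i, DifferentiableOn ℂ (m i) Ω')
    (hξ : ∀ i, DifferentiableOn ℂ (ξ i) Ω') (h1 : ∀ w ∈ Ω', ∑ i, ξ i w * m i w = 1)
    {g : ℂ → B} {L : Fin p → ℂ → B} (hL : ∀ i, ∀ w ∈ A, S.P (L i w) = 0 ∧ m i w = L i w * g w)
    (hu : ∀ w ∈ A, IsUnit (Tt S (g w))) {w₁ : ℂ} (hw₁ : w₁ ∈ A) {η : Fin p → B}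
    (hη : ∀ i, S.P (η i) = 0) (hηL : ∑ i, η i * L i w₁ = 1) :
    ∃ (δ : ℂ → ℂ) (σ : ℂ → B), DifferentiableOn ℂ δ Ω' ∧ DifferentiableOn ℂ σ Ω' ∧ δ w₁ = 1 ∧
      ∀ w ∈ A, σ w = δ w • tau S (g w) := by
  have hT : ∑ i, (Ring.inverse (Tt S (g w₁)) * (S.P * mulL (η i) * S.P)) *
      (S.P * mulL (m i w₁) * S.P) = S.P := by
    have e : ∀ i, (Ring.inverse (Tt S (g w₁)) * (S.P * mulL (η i) * S.P)) *
        (S.P * mulL (m i w₁) * S.P) =
        Ring.inverse (Tt S (g w₁)) * (S.P * mulL (η i * m i w₁) * S.P) := fun i => by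
      rw [mul_assoc, C3_mul S _ (hη i)]
    have hsum : ∑ i, η i * m i w₁ = g w₁ := by
      calc ∑ i, η i * m i w₁ = ∑ i, (η i * L i w₁) * g w₁ :=
            Finset.sum_congr rfl fun i _ => by rw [(hL i w₁ hw₁).2, mul_assoc]
        _ = g w₁ := by rw [← Finset.sum_mul, hηL, one_mul]
    have hmul : ∑ i, mulL (η i * m i w₁) = mulL (g w₁) := by
      rw [← hsum]
      exact (map_sum (ContinuousLinearMap.mul ℂ B) (fun i => η i * m i w₁) Finset.univ).symm
    rw [Finset.sum_congr rfl fun i _ => e i, ← Finset.mul_sum, ← Finset.sum_mul,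
      ← Finset.mul_sum, hmul]
    exact C3_T S (g w₁) (hu w₁ hw₁)
  obtain ⟨δ, G, hδ, hG, hδ1, hGδ⟩ := left_parametrix S hΩ' hK hsub hmK hξK hm hξ h1 (hA hw₁)
    (fun i => Ring.inverse (Tt S (g w₁)) * (S.P * mulL (η i) * S.P)) hT
  refine ⟨δ, fun w => -∑ i, G i w (S.P (m i w)), hδ, ?_, hδ1, fun w hw => ?_⟩
  · refine (DifferentiableOn.fun_sum fun i _ => ?_).neg
    exact (hG i).clm_apply (S.P.differentiable.comp_differentiableOn (hm i))
  · have e := congrArg (fun X : B →L[ℂ] B => X (tau S (g w))) (hGδ w (hA hw))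
    have e1 : (δ w • S.P) (tau S (g w)) = δ w • tau S (g w) := by
      change δ w • S.P (tau S (g w)) = _
      rw [P_tau S (hu w hw)]
    have e2 : (∑ i, G i w * (S.P * mulL (m i w) * S.P)) (tau S (g w)) =
        -∑ i, G i w (S.P (m i w)) := by
      rw [sum_apply, ← Finset.sum_neg_distrib]
      refine Finset.sum_congr rfl fun i _ => ?_
      change G i w ((S.P * mulL (m i w) * S.P) (tau S (g w))) = _
      rw [C3_key S (hL i w hw).1 (hL i w hw).2 (hu w hw), map_neg]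
    have e3 : (∑ i, G i w * (S.P * mulL (m i w) * S.P)) (tau S (g w)) =
        (δ w • S.P) (tau S (g w)) := e
    rw [e1, e2] at e3
    exact e3

end Pool.Agent.DQ.X
end

section

/-! # The right parametrix -/

set_option autoImplicit false

open Set Filter Topology

namespace Pool.Agent.DQ.X

variable {B : Type*} [NormedRing B] [NormedAlgebra ℂ B] [CompleteSpace B] (S : Split B)

/-- TASK A3f. Right parametrix, holomorphic in `w`.
PROOF. As `left_parametrix`, with `exists_tail'`, `right_identity` and `exists_right`: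
`E w = P mulL (b w) (1 - P) mulL (b' w) (P - F N)`, `T = Ring.inverse (Tt S (b w₁))`,
`A w = Ring.inverse (1 - E w) * (Tt S (b w) * T - 1)`, so `Tt (b w) * C w = (1 - E) (1 + A F)` and
`G w = C w * G' (A w) * Ring.inverse (1 - E w)`. At `w₁`: `A w₁ = 0`. -/
theorem right_parametrix {Ω' K : Set ℂ} (hΩ' : IsOpen Ω') (hK : IsCompact K) (hsub : Ω' ⊆ K)
    {b b' : ℂ → B} (hbK : ContinuousOn b K) (hbK' : ContinuousOn b' K)
    (hb : DifferentiableOn ℂ b Ω') (hb' : DifferentiableOn ℂ b' Ω')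
    (h1 : ∀ w ∈ Ω', b w * b' w = 1) {w₁ : ℂ} (hw₁ : w₁ ∈ Ω') (hu : IsUnit (Tt S (b w₁))) :
    ∃ (δ : ℂ → ℂ) (G : ℂ → B →L[ℂ] B), DifferentiableOn ℂ δ Ω' ∧ DifferentiableOn ℂ G Ω' ∧
      δ w₁ = 1 ∧ ∀ w ∈ Ω', Tt S (b w) * G w = δ w • 1 := by
  obtain ⟨N, hN⟩ := exists_tail' S hK hbK hbK' (ε := 1 / 2) (by norm_num)
  obtain ⟨δ', G', hδ', hG', hmul, hδ0⟩ := exists_right (S.F N) (S.F_F N) (S.fin N)
  obtain ⟨T, hT⟩ : ∃ T, T = Ring.inverse (Tt S (b w₁)) := ⟨_, rfl⟩
  obtain ⟨E, hEdef⟩ : ∃ E : ℂ → B →L[ℂ] B, E = fun w =>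
    S.P * mulL (b w) * (1 - S.P) * mulL (b' w) * (S.P - S.F N) := ⟨_, rfl⟩
  have hbm : DifferentiableOn ℂ (fun w => mulL (b w)) Ω' :=
    (ContinuousLinearMap.mul ℂ B).differentiable.comp_differentiableOn hb
  have hbm' : DifferentiableOn ℂ (fun w => mulL (b' w)) Ω' :=
    (ContinuousLinearMap.mul ℂ B).differentiable.comp_differentiableOn hb'
  have hEd : DifferentiableOn ℂ E Ω' := by
    rw [hEdef]
    exact ((((differentiableOn_const _).mul hbm).mul (differentiableOn_const _)).mul hbm').mul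
      (differentiableOn_const _)
  have hEn : ∀ w ∈ Ω', ‖E w‖ < 1 := by
    intro w hw
    rw [hEdef]
    exact lt_of_le_of_lt (hN N le_rfl w (hsub hw)) (by norm_num)
  have hu1 : ∀ w ∈ Ω', IsUnit (1 - E w) := fun w hw => isUnit_one_sub_of_norm_lt_one (hEn w hw)
  have hRd : DifferentiableOn ℂ (fun w => Ring.inverse (1 - E w)) Ω' := by
    intro w hw
    have h2 : DifferentiableAt ℂ (fun w => 1 - E w) w :=
      (hEd.differentiableAt (hΩ'.mem_nhds hw)).const_sub 1
    have h3 : DifferentiableAt ℂ (Ring.inverse : (B →L[ℂ] B) → (B →L[ℂ] B)) (1 - E w) :=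
      differentiableAt_inverse (hu1 w hw)
    exact (h3.comp w h2).differentiableWithinAt
  obtain ⟨A, hAdef⟩ : ∃ A : ℂ → B →L[ℂ] B, A = fun w =>
    Ring.inverse (1 - E w) * (Tt S (b w) * T - 1) := ⟨_, rfl⟩
  obtain ⟨C, hCdef⟩ : ∃ C : ℂ → B →L[ℂ] B, C = fun w =>
    (1 - S.P) + T * S.F N + S.P * mulL (b' w) * (S.P - S.F N) := ⟨_, rfl⟩
  have hAd : DifferentiableOn ℂ A Ω' := by
    rw [hAdef]
    exact hRd.mul (((Tt_differentiableOn S hb).mul (differentiableOn_const _)).sub_const 1)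
  have hCd : DifferentiableOn ℂ C Ω' := by
    rw [hCdef]
    exact (((differentiableOn_const _).mul hbm').mul (differentiableOn_const _)).const_add _
  have hA1 : A w₁ = 0 := by
    rw [hAdef]
    change Ring.inverse (1 - E w₁) * (Tt S (b w₁) * T - 1) = 0
    rw [hT, Ring.mul_inverse_cancel _ hu, sub_self, mul_zero]
  refine ⟨fun w => δ' (A w), fun w => C w * G' (A w) * Ring.inverse (1 - E w),
    hδ'.comp_differentiableOn hAd, (hCd.mul (hG'.comp_differentiableOn hAd)).mul hRd, ?_, ?_⟩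
  · change δ' (A w₁) = 1
    rw [hA1, hδ0]
  · intro w hw
    have h2 : Tt S (b w) * C w = (1 - E w) * (1 + A w * S.F N) := by
      have h3 := right_identity S (h1 w hw) N T
      have h4 : (1 - E w) * (A w * S.F N) = (Tt S (b w) * T - 1) * S.F N := by
        rw [hAdef, ← mul_assoc, ← mul_assoc, Ring.mul_inverse_cancel _ (hu1 w hw), one_mul]
      rw [mul_add, mul_one, h4, hCdef]
      change Tt S (b w) * ((1 - S.P) + T * S.F N + S.P * mulL (b' w) * (S.P - S.F N)) = _
      rw [h3, hEdef]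
    change Tt S (b w) * (C w * G' (A w) * Ring.inverse (1 - E w)) = δ' (A w) • 1
    have h5 : (1 - E w) * (δ' (A w) • (1 : B →L[ℂ] B)) * Ring.inverse (1 - E w) =
        δ' (A w) • ((1 - E w) * Ring.inverse (1 - E w)) :=
      ContinuousLinearMap.ext fun x => map_smul (1 - E w) (δ' (A w)) (Ring.inverse (1 - E w) x)
    rw [← mul_assoc, ← mul_assoc, h2, mul_assoc (1 - E w), hmul, h5,
      Ring.mul_inverse_cancel _ (hu1 w hw)]

end Pool.Agent.DQ.X
end

section

/-! # Invertibility outside the zeros of a function -/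

set_option autoImplicit false

open Set Filter Topology

namespace Pool.Agent.DQ.X

variable {B : Type*} [NormedRing B] [NormedAlgebra ℂ B] [CompleteSpace B] (S : Split B)

omit [CompleteSpace B] in
private theorem A3u_smul_mul (c : ℂ) (X Y : B →L[ℂ] B) : (c • X) * Y = c • (X * Y) :=
  ContinuousLinearMap.ext fun _ => rfl

omit [CompleteSpace B] in
private theorem A3u_mul_smul (c : ℂ) (X Y : B →L[ℂ] B) : X * (c • Y) = c • (X * Y) :=
  ContinuousLinearMap.ext fun x => X.map_smul c (Y x)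

omit [CompleteSpace B] in
private theorem A3u_smul_zero (c : ℂ) : c • (0 : B →L[ℂ] B) = 0 :=
  ContinuousLinearMap.ext fun _ => smul_zero c

omit [CompleteSpace B] in
private theorem A3u_inv_smul {c : ℂ} (hc : c ≠ 0) (X : B →L[ℂ] B) : c⁻¹ • c • X = X :=
  ContinuousLinearMap.ext fun x => inv_smul_smul₀ hc (X x)

omit [CompleteSpace B] in
private theorem A3u_Tt_Q (g : B) : Tt S g * (1 - S.P) = 1 - S.P := by
  have e1 : (1 - S.P) * (1 - S.P) = 1 - S.P := by
    rw [sub_mul, one_mul, mul_sub, mul_one, PP]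
    abel
  have e2 : S.P * mulL g * S.P * (1 - S.P) = 0 := by
    rw [mul_assoc, mul_sub, mul_one, PP, sub_self, mul_zero]
  unfold Tt
  rw [add_mul, e1, e2, add_zero]

omit [CompleteSpace B] in
private theorem A3u_T (g : B) (hu : IsUnit (Tt S g)) :
    Ring.inverse (Tt S g) * (S.P * mulL g * S.P) = S.P := by
  have h1 : S.P * mulL g * S.P = Tt S g - (1 - S.P) := by
    unfold Tt
    abel
  have h2 : Ring.inverse (Tt S g) * (1 - S.P) = 1 - S.P := by
    conv_lhs => rw [← A3u_Tt_Q S g]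
    rw [← mul_assoc, Ring.inverse_mul_cancel _ hu, one_mul]
  rw [h1, mul_sub, h2, Ring.inverse_mul_cancel _ hu]
  abel

omit [CompleteSpace B] in
private theorem A3u_left (g : B) (G : B →L[ℂ] B) {c : ℂ} (hc : c ≠ 0)
    (hG : G * (S.P * mulL g * S.P) = c • S.P) :
    ((1 - S.P) + c⁻¹ • (S.P * G * S.P)) * Tt S g = 1 := by
  have e1 : (1 - S.P) * (1 - S.P) = 1 - S.P := by
    rw [sub_mul, one_mul, mul_sub, mul_one, PP]
    abel
  have e2 : (1 - S.P) * (S.P * mulL g * S.P) = 0 := by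
    rw [← mul_assoc, ← mul_assoc, sub_mul, one_mul, PP, sub_self, zero_mul, zero_mul]
  have e3 : S.P * G * S.P * (1 - S.P) = 0 := by
    rw [mul_assoc, mul_sub, mul_one, PP, sub_self, mul_zero]
  have e4 : S.P * G * S.P * (S.P * mulL g * S.P) = c • S.P := by
    calc S.P * G * S.P * (S.P * mulL g * S.P)
        = S.P * (G * ((S.P * S.P) * mulL g * S.P)) := by simp only [mul_assoc]
      _ = S.P * (G * (S.P * mulL g * S.P)) := by rw [PP]
      _ = c • S.P := by rw [hG, A3u_mul_smul, PP]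
  unfold Tt
  rw [add_mul, mul_add, mul_add, e1, e2, A3u_smul_mul, A3u_smul_mul, e3, e4, A3u_smul_zero,
    A3u_inv_smul hc]
  abel

/-- TASK A3g. Invertibility outside the zeros of a holomorphic function.
PROOF. Take `δ₁`, `G₁` of `left_parametrix` with `p = 1`, `m = b`, `ξ = b'`, `T = Ring.inverse (Tt S (b w₁)) * P`:
`hT`: `T * (P mulL (b w₁) P) = Ring.inverse (Tt) * (Tt - (1 - P)) = 1 - Ring.inverse (Tt) * (1 - P)` and
`Tt * (1 - P) = 1 - P` gives `Ring.inverse (Tt) * (1 - P) = 1 - P`; so `hT` holds. And `δ₂`, `G₂` of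
`right_parametrix`. Let `δ = δ₁ δ₂`. If `δ w ≠ 0` then `Tt (b w)` has the right inverse
`(δ₂ w)⁻¹ • G₂ w` and the left inverse `(1 - P) + (δ₁ w)⁻¹ • P * G₁ 0 w * P`: indeed
`P G₁ P (P mulL b P) = P (G₁ (P mulL b P)) = δ₁ P`, and the product with `1 - P` terms vanishes
(`(1 - P) P = 0`). An element of a ring with a left and a right inverse is a unit
(`left_inv_eq_right_inv`, `⟨⟨a, r, _, _⟩, rfl⟩`). -/
theorem exists_unit_off {Ω' K : Set ℂ} (hΩ' : IsOpen Ω') (hK : IsCompact K) (hsub : Ω' ⊆ K)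
    {b b' : ℂ → B} (hbK : ContinuousOn b K) (hbK' : ContinuousOn b' K)
    (hb : DifferentiableOn ℂ b Ω') (hb' : DifferentiableOn ℂ b' Ω')
    (h1 : ∀ w ∈ Ω', b w * b' w = 1) (h2 : ∀ w ∈ Ω', b' w * b w = 1)
    {w₁ : ℂ} (hw₁ : w₁ ∈ Ω') (hu : IsUnit (Tt S (b w₁))) :
    ∃ δ : ℂ → ℂ, DifferentiableOn ℂ δ Ω' ∧ δ w₁ = 1 ∧
      ∀ w ∈ Ω', δ w ≠ 0 → IsUnit (Tt S (b w)) := by
  obtain ⟨δ₁, G₁, hδ₁, -, h11, hG₁⟩ := left_parametrix S hΩ' hK hsub (m := fun _ : Fin 1 => b)
    (ξ := fun _ : Fin 1 => b') (fun _ => hbK) (fun _ => hbK') (fun _ => hb) (fun _ => hb')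
    (fun w hw => by simpa using h2 w hw) hw₁ (fun _ => Ring.inverse (Tt S (b w₁)))
    (by simpa using A3u_T S (b w₁) hu)
  obtain ⟨δ₂, G₂, hδ₂, -, h21, hG₂⟩ := right_parametrix S hΩ' hK hsub hbK hbK' hb hb' h1 hw₁ hu
  refine ⟨fun w => δ₁ w * δ₂ w, hδ₁.mul hδ₂, by simp [h11, h21], fun w hw hne => ?_⟩
  have n1 : δ₁ w ≠ 0 := left_ne_zero_of_mul hne
  have n2 : δ₂ w ≠ 0 := right_ne_zero_of_mul hne
  have e1 : G₁ 0 w * (S.P * mulL (b w) * S.P) = δ₁ w • S.P := by
    have := hG₁ w hw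
    simpa using this
  refine isUnit_iff_exists_and_exists.2 ⟨⟨(δ₂ w)⁻¹ • G₂ w, ?_⟩, ⟨_, A3u_left S (b w) (G₁ 0 w) n1 e1⟩⟩
  rw [A3u_mul_smul, hG₂ w hw, A3u_inv_smul n2]

end Pool.Agent.DQ.X
end

section

/-! Campaign DQ, module M12, block (f), file MF8b: the zeros of a monic polynomial depend continuously on
the coefficients. -/

set_option autoImplicit false
set_option linter.unusedVariables false

open Set Filter Topology

namespace Pool.Agent.DQ

namespace MF

variable {X : Type} [NormedAddCommGroup X] [NormedSpace ℂ X]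

/-- Cauchy's bound for the zeros. Proof. If `‖v‖ > 1 + ∑ ‖a j y‖` then `‖v‖ ^ l > ∑ ‖a j y‖ ‖v‖ ^ j` because `‖v‖ ^ j ≤ ‖v‖ ^ (l - 1)` for `j ≤ l - 1`. (`l = 0`: `mon = 1`.) -/
theorem root_bound {l : ℕ} (a : Fin l → X → ℂ) (y : X) {v : ℂ} (h : mon a y v = 0) :
    ‖v‖ ≤ 1 + ∑ j, ‖a j y‖ := by
  by_contra hcon
  push Not at hcon
  have hS : 0 ≤ ∑ j, ‖a j y‖ := Finset.sum_nonneg fun j _ => norm_nonneg _
  have hv1 : 1 < ‖v‖ := by linarith
  rcases Nat.eq_zero_or_pos l with hl | hl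
  · subst hl
    simp [mon] at h
  · have h1 : v ^ l = - ∑ j, a j y * v ^ (j : ℕ) := eq_neg_of_add_eq_zero_left h
    have h2 : ‖v‖ ^ l ≤ (∑ j, ‖a j y‖) * ‖v‖ ^ (l - 1) := by
      calc ‖v‖ ^ l = ‖v ^ l‖ := (norm_pow v l).symm
        _ = ‖∑ j, a j y * v ^ (j : ℕ)‖ := by rw [h1, norm_neg]
        _ ≤ ∑ j, ‖a j y * v ^ (j : ℕ)‖ := norm_sum_le _ _
        _ ≤ ∑ j, ‖a j y‖ * ‖v‖ ^ (l - 1) := by
            refine Finset.sum_le_sum fun j _ => ?_
            rw [norm_mul, norm_pow]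
            refine mul_le_mul_of_nonneg_left ?_ (norm_nonneg _)
            exact pow_le_pow_right₀ hv1.le (by have := j.2; omega)
        _ = (∑ j, ‖a j y‖) * ‖v‖ ^ (l - 1) := (Finset.sum_mul _ _ _).symm
    have h3 : ‖v‖ ^ l = ‖v‖ * ‖v‖ ^ (l - 1) := by
      rw [← pow_succ']
      congr 1
      omega
    rw [h3] at h2
    have h4 : 0 < ‖v‖ ^ (l - 1) := pow_pos (by linarith) _
    have h5 : ‖v‖ ≤ ∑ j, ‖a j y‖ := le_of_mul_le_mul_right h2 h4
    linarith

/-- joint continuity of the monic polynomial -/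
private theorem mon_cont {l : ℕ} {a : Fin l → X → ℂ} {y : X} (ha : ∀ j, HolAt (a j) y) (v : ℂ) :
    ContinuousAt (fun p : X × ℂ => mon a p.1 p.2) (y, v) := by
  unfold mon
  have h2 : ContinuousAt (fun p : X × ℂ => p.2) (y, v) := continuousAt_snd
  have h1 : ∀ j, ContinuousAt (fun p : X × ℂ => a j p.1) (y, v) := fun j =>
    ContinuousAt.comp (g := a j) (f := fun p : X × ℂ => p.1)
      (ha j).differentiableAt.continuousAt continuousAt_fst
  exact (h2.pow l).add (tendsto_finsetSum _ fun j _ => (h1 j).mul (h2.pow _))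

/-- **Zeros near the zeros.**

Proof. The zeros of the monic polynomial `mon a y` are finitely many (compare `exists_mon_ne` in SMonic.lean), so there is `r₁ < R` with `‖v - c₀‖ ≤ r₁` for all zeros of `mon a y` (if there is none take
`r₁ = R - 1`); put `r' = (r₁ + R) / 2`. By `root_bound` and the continuity of the `a j` at `y` there is `C` such that for `y'` near `y` all zeros of `mon a y'` satisfy `‖v‖ ≤ C`. The set
`L = {v | ‖v‖ ≤ C ∧ r' ≤ ‖v - c₀‖}` is compact, `mon a y v ≠ 0` on it, and `(y', v) ↦ mon a y' v` is continuous at the points `(y, v)`. So for every `v ∈ L` there are neighbourhoods of `y` and `v` where it does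
not vanish; finitely many of the latter cover `L` (`IsCompact.induction_on` or `generalized_tube_lemma`, `isCompact_closedBall.inter_right`). -/
theorem roots_near {l : ℕ} {a : Fin l → X → ℂ} {y : X} (ha : ∀ j, HolAt (a j) y) {c₀ : ℂ} {R : ℝ}
    (h : ∀ v, mon a y v = 0 → ‖v - c₀‖ < R) :
    ∃ r' < R, ∀ᶠ y' in 𝓝 y, ∀ v, mon a y' v = 0 → ‖v - c₀‖ < r' := by
  -- the zeros at `y`
  have hmc : Continuous fun v : ℂ => mon a y v := by
    unfold mon
    fun_prop
  have hr1 : ∃ r₁ < R, ∀ v, mon a y v = 0 → ‖v - c₀‖ ≤ r₁ := by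
    have hcl : IsClosed {v : ℂ | mon a y v = 0} := isClosed_eq hmc continuous_const
    have hK : IsCompact {v : ℂ | mon a y v = 0} := by
      refine Metric.isCompact_of_isClosed_isBounded hcl ?_
      refine (Metric.isBounded_closedBall (x := (0 : ℂ)) (r := 1 + ∑ j, ‖a j y‖)).subset ?_
      intro v hv
      rw [Metric.mem_closedBall, dist_zero_right]
      exact root_bound a y hv
    rcases eq_empty_or_nonempty {v : ℂ | mon a y v = 0} with he | hne
    · refine ⟨R - 1, by linarith, fun v hv => ?_⟩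
      have : v ∈ {v : ℂ | mon a y v = 0} := hv
      rw [he] at this
      exact absurd this (notMem_empty v)
    · obtain ⟨v₁, hv₁, hmax⟩ := hK.exists_isMaxOn hne
        (f := fun v : ℂ => ‖v - c₀‖) (by fun_prop)
      exact ⟨‖v₁ - c₀‖, h v₁ hv₁, fun v hv => hmax hv⟩
  obtain ⟨r₁, hr₁, hz⟩ := hr1
  set r' := (r₁ + R) / 2 with hr'
  refine ⟨r', by linarith, ?_⟩
  -- a bound for the zeros near `y`
  have hsum : ContinuousAt (fun y' => 1 + ∑ j, ‖a j y'‖) y :=
    continuousAt_const.add (tendsto_finsetSum _ fun j _ =>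
      (ha j).differentiableAt.continuousAt.norm)
  have hC : ∀ᶠ y' in 𝓝 y, 1 + ∑ j, ‖a j y'‖ < (1 + ∑ j, ‖a j y‖) + 1 :=
    hsum.eventually_lt continuousAt_const (by linarith)
  have hL : IsCompact (Metric.closedBall (0 : ℂ) ((1 + ∑ j, ‖a j y‖) + 1) ∩
      {v | r' ≤ ‖v - c₀‖}) :=
    (isCompact_closedBall _ _).inter_right (isClosed_le continuous_const (by fun_prop))
  have hne : ∀ᶠ y' in 𝓝 y, ∀ v ∈ Metric.closedBall (0 : ℂ) ((1 + ∑ j, ‖a j y‖) + 1) ∩
      {v | r' ≤ ‖v - c₀‖}, mon a y' v ≠ 0 := by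
    refine hL.eventually_forall_of_forall_eventually (P := fun y' v => mon a y' v ≠ 0) ?_
    rintro v ⟨_, hv⟩
    refine (mon_cont ha v).eventually_ne ?_
    intro h0
    have h1 := hz v h0
    have h2 : r' ≤ ‖v - c₀‖ := hv
    linarith
  filter_upwards [hC, hne] with y' h1 h2 v hv
  by_contra hcon
  push Not at hcon
  refine h2 v ⟨?_, hcon⟩ hv
  rw [Metric.mem_closedBall, dist_zero_right]
  exact (root_bound a y' hv).trans h1.le

end MF

end Pool.Agent.DQ
end
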