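import Mathlib
import Pool.Agent.Lib.MP_4aa2a9_ag.Mg.G010
import Pool.Agent.Lib.MP_4aa2a9_ag.Mg.G004
import Pool.Agent.Lib.MP_4aa2a9_ag.Mg.G001
import Pool.Agent.DQ.Mg_MP_4aa2a9_ag.G001
import Pool.Agent.Lib.MP_4aa2a9_ag.Mg.G018
import Pool.Agent.DQ.Mg_MP_4aa2a9_ag.G003
import Pool.Agent.Lib.MP_4aa2a9_ag.Mg.G003
import Pool.Agent.Lib.MP_4aa2a9_ag.Mg.G036

section

/-! Campaign DQ, module W, file WXSeq: the coordinates generate the maximal ideal and form a regular sequence. -/

set_option autoImplicit false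

open Set Filter Topology

universe u

namespace Pool.Agent.DQ

variable {V : Type u} [NormedAddCommGroup V] [NormedSpace ℂ V] {n : ℕ}

/-- Replace the first `i` coordinates by those of `x`. -/
noncomputable def frz (κ : V ≃L[ℂ] (Fin n → ℂ)) (x : V) (i : ℕ) (y : V) : V :=
  κ.symm fun j => if (j : ℕ) < i then κ x j else κ y j

/-- `frz` is an affine map fixing `x`, so differentiable.

Proof. `κ.symm` composed with a function whose components are constants or `κ y j` (`differentiableAt_pi`). -/
theorem frz_facts (κ : V ≃L[ℂ] (Fin n → ℂ)) (x : V) (i : ℕ) :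
    Differentiable ℂ (frz κ x i) ∧ frz κ x i x = x ∧ (∀ y, frz κ x 0 y = y) ∧ (∀ y, frz κ x n y = x) ∧
      (∀ y (j : Fin n), κ (frz κ x i y) j = if (j : ℕ) < i then κ x j else κ y j) ∧
      ∀ (hi : i < n) (y : V), frz κ x (i + 1) y =
        frz κ x i (y - (κ y ⟨i, hi⟩ - κ x ⟨i, hi⟩) • κ.symm (Pi.single ⟨i, hi⟩ 1)) := by
  have h5 : ∀ (k : ℕ) (y : V) (j : Fin n), κ (frz κ x k y) j = if (j : ℕ) < k then κ x j else κ y j := by
    intro k y j
    simp only [frz, ContinuousLinearEquiv.apply_symm_apply]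
  refine ⟨?_, ?_, ?_, ?_, h5 i, ?_⟩
  · refine κ.symm.differentiable.comp (differentiable_pi.2 fun j => ?_)
    by_cases hj : (j : ℕ) < i
    · simp only [hj, if_true]
      exact differentiable_const _
    · simp only [hj, if_false]
      exact (differentiable_apply j).comp κ.differentiable
  · apply κ.injective
    funext j
    rw [h5]
    split_ifs <;> rfl
  · intro y
    apply κ.injective
    funext j
    rw [h5]
    simp
  · intro y
    apply κ.injective
    funext j
    rw [h5]
    simp
  · intro hi y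
    apply κ.injective
    funext j
    rw [h5, h5]
    rcases lt_trichotomy (j : ℕ) i with hj | hj | hj
    · rw [if_pos (by omega), if_pos hj]
    · rw [if_pos (by omega), if_neg (by omega)]
      have hj' : j = ⟨i, hi⟩ := Fin.ext hj
      subst hj'
      simp
    · rw [if_neg (by omega), if_neg (by omega)]
      have hj' : j ≠ ⟨i, hi⟩ := fun h => by rw [h] at hj; exact lt_irrefl _ hj
      simp [Pi.single_eq_of_ne hj']

private theorem WXSeq_hol (κ : V ≃L[ℂ] (Fin n → ℂ)) (x : V) {f : V → ℂ} (hf : HolAt f x) (i : ℕ) :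
    HolAt (fun y => f (frz κ x i y)) x := by
  have h1 : HolAt f (frz κ x i x) := by
    rw [(frz_facts κ x i).2.1]
    exact hf
  exact h1.comp (Eventually.of_forall fun y => (frz_facts κ x i).1 y)

private theorem WXSeq_coord (κ : V ≃L[ℂ] (Fin n → ℂ)) (x : V) (i : Fin n) :
    HolAt (fun y => κ y i - κ x i) x :=
  Eventually.of_forall fun y =>
    (((differentiable_apply i).comp κ.differentiable).sub (differentiable_const (κ x i))) y

private theorem WXSeq_tendsto (κ : V ≃L[ℂ] (Fin n → ℂ)) (x : V) (i : ℕ) :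
    Tendsto (frz κ x i) (𝓝 x) (𝓝 x) := by
  have h := (frz_facts κ x i).1.continuous.tendsto x
  rwa [(frz_facts κ x i).2.1] at h

/-- Telescoping.

Proof. Induction on `i ≤ n`. `i = 0`: `frz κ x 0 y = y`, difference zero. Step: `F := f ∘ frz κ x i` is holomorphic near `x`;
`DQ.W.hol_slope_dir` with `ℓ y := κ y i` (`ContinuousLinearMap.proj i ∘L κ`) and `e := κ.symm (Pi.single i 1)`:
`F y = F (y - (κ y i - κ x i) • e) + (κ y i - κ x i) * h y = f (frz κ x (i+1) y) + ..`. The ideal grows with `i`. For germs: `gm_eq_iff`,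
`gm_add`, `gm_mul`. -/
theorem gm_sub_frz (κ : V ≃L[ℂ] (Fin n → ℂ)) (x : V) {f : V → ℂ} (hf : HolAt f x) (i : ℕ) (hi : i ≤ n) :
    (gm f x - gm (fun y => f (frz κ x i y)) x : OGerm x) ∈
      Ideal.span ((fun j => (gm (fun y => κ y j - κ x j) x : OGerm x)) '' {j : Fin n | (j : ℕ) < i}) := by
  classical
  induction i with
  | zero =>
    have e1 : (fun y => f (frz κ x 0 y)) = f := by
      funext y
      rw [(frz_facts κ x 0).2.2.1 y]
    rw [e1, sub_self]
    exact Ideal.zero_mem _
  | succ i ih =>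
    have hi' : i < n := by omega
    have ih' := ih (by omega)
    have hF := WXSeq_hol κ x hf i
    have hF' := WXSeq_hol κ x hf (i + 1)
    have hc := WXSeq_coord κ x ⟨i, hi'⟩
    obtain ⟨h, hh, hev⟩ := _root_.Pool.Agent.DQ.W.hol_slope_dir (f := fun y => f (frz κ x i y)) (x := x) hF
      ((ContinuousLinearMap.proj (R := ℂ) (φ := fun _ : Fin n => ℂ) (⟨i, hi'⟩ : Fin n)).comp
        (κ : V →L[ℂ] (Fin n → ℂ))) (κ.symm (Pi.single ⟨i, hi'⟩ 1))
    have hh' : HolAt h x := hh
    have hch : HolAt ((fun y => κ y ⟨i, hi'⟩ - κ x ⟨i, hi'⟩) * h) x := hc.mul hh'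
    have e2 : (gm (fun y => f (frz κ x i y)) x : OGerm x) =
        gm ((fun y => f (frz κ x (i + 1) y)) + (fun y => κ y ⟨i, hi'⟩ - κ x ⟨i, hi'⟩) * h) x := by
      refine (gm_eq_iff hF (hF'.add hch)).2 ?_
      filter_upwards [hev] with y hy
      have e3 := (frz_facts κ x i).2.2.2.2.2 hi' y
      simp only [ContinuousLinearMap.comp_apply, ContinuousLinearMap.proj_apply,
        ContinuousLinearEquiv.coe_coe, map_sub] at hy
      rw [hy, ← e3, Pi.mul_apply]
    have e4 : (gm f x - gm (fun y => f (frz κ x (i + 1) y)) x : OGerm x) =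
        (gm f x - gm (fun y => f (frz κ x i y)) x) +
          gm (fun y => κ y ⟨i, hi'⟩ - κ x ⟨i, hi'⟩) x * gm h x := by
      rw [e2, gm_add hF' hch, gm_mul hc hh']
      ring
    rw [e4]
    refine Ideal.add_mem _ (Ideal.span_mono ?_ ih') (Ideal.mul_mem_right _ _ (Ideal.subset_span ?_))
    · refine image_mono fun j hj => ?_
      have hj' : (j : ℕ) < i := hj
      show (j : ℕ) < i + 1
      omega
    · exact ⟨⟨i, hi'⟩, Nat.lt_succ_self i, rfl⟩

/-- **Vanishing ideal of a coordinate subspace.**

Proof. `←`: `gm_sub_frz` (the second germ is zero). `→`: the set of germs `g` with the property (for every representative `f` of `g`,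
`f (frz κ x i y) = 0` near `x`) (it does not depend on the representative, as `frz κ x i y → x`) is an ideal (`Submodule.span_le`, or
`Submodule.span_induction`) and contains the generators: `κ (frz κ x i y) j - κ x j = 0` for `j < i`. -/
theorem mem_span_coord_iff (κ : V ≃L[ℂ] (Fin n → ℂ)) (x : V) {f : V → ℂ} (hf : HolAt f x) (i : ℕ) (hi : i ≤ n) :
    (gm f x : OGerm x) ∈
      Ideal.span ((fun j => (gm (fun y => κ y j - κ x j) x : OGerm x)) '' {j : Fin n | (j : ℕ) < i}) ↔
      ∀ᶠ y in 𝓝 x, f (frz κ x i y) = 0 := by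
  constructor
  · intro hmem
    have hT := WXSeq_tendsto κ x i
    have key : ∀ g ∈ Ideal.span ((fun j => (gm (fun y => κ y j - κ x j) x : OGerm x)) '' {j : Fin n | (j : ℕ) < i}),
        ∀ f : V → ℂ, HolAt f x → gm f x = g → ∀ᶠ y in 𝓝 x, f (frz κ x i y) = 0 := by
      intro g hg
      induction hg using Submodule.span_induction with
      | mem g hg =>
        intro f hf hfg
        obtain ⟨j, hj, rfl⟩ := hg
        have h1 := (gm_eq_iff hf (WXSeq_coord κ x j)).1 hfg
        filter_upwards [hT.eventually h1] with y hy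
        rw [hy, (frz_facts κ x i).2.2.2.2.1 y j, if_pos (show (j : ℕ) < i from hj), sub_self]
      | zero =>
        intro f hf hfg
        rw [← gm_zero x] at hfg
        have h1 := (gm_eq_iff hf (HolAt.const 0 x)).1 hfg
        filter_upwards [hT.eventually h1] with y hy
        rw [hy]
      | add a b _ _ iha ihb =>
        intro f hf hfg
        obtain ⟨u, hu, rfl⟩ := exists_gm a
        obtain ⟨v, hv, rfl⟩ := exists_gm b
        rw [← gm_add hu hv] at hfg
        have h1 := (gm_eq_iff hf (hu.add hv)).1 hfg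
        filter_upwards [hT.eventually h1, iha u hu rfl, ihb v hv rfl] with y hy hy1 hy2
        rw [hy]
        show u _ + v _ = 0
        rw [hy1, hy2, add_zero]
      | smul a b _ ihb =>
        intro f hf hfg
        obtain ⟨u, hu, rfl⟩ := exists_gm a
        obtain ⟨v, hv, rfl⟩ := exists_gm b
        rw [smul_eq_mul, ← gm_mul hu hv] at hfg
        have h1 := (gm_eq_iff hf (hu.mul hv)).1 hfg
        filter_upwards [hT.eventually h1, ihb v hv rfl] with y hy hy2
        rw [hy]
        show u _ * v _ = 0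
        rw [hy2, mul_zero]
    exact key _ hmem f hf rfl
  · intro hev
    have h1 := gm_sub_frz κ x hf i hi
    have h2 : (gm (fun y => f (frz κ x i y)) x : OGerm x) = 0 := by
      rw [← gm_zero x]
      refine (gm_eq_iff (WXSeq_hol κ x hf i) (HolAt.const 0 x)).2 ?_
      filter_upwards [hev] with y hy
      rw [hy]
    rwa [h2, sub_zero] at h1

/-- the coordinate functions generate the maximal ideal

Proof. `mem_span_coord_iff` with `i = n` (`frz κ x n y = x`; the condition is `f x = 0`); `exists_gm`; `val (gm f x) = f x`. -/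
theorem OGerm.span_coord (κ : V ≃L[ℂ] (Fin n → ℂ)) (x : V) (g : OGerm x) :
    val g = 0 ↔ g ∈ Ideal.span (range fun i => (gm (fun y => κ y i - κ x i) x : OGerm x)) := by
  obtain ⟨f, hf, rfl⟩ := exists_gm g
  have h1 : val (gm f x : OGerm x) = f x := by
    rw [val, gm_coe hf]
    rfl
  have h2 : (range fun i => (gm (fun y => κ y i - κ x i) x : OGerm x)) =
      (fun j => (gm (fun y => κ y j - κ x j) x : OGerm x)) '' {j : Fin n | (j : ℕ) < n} := by
    rw [← image_univ]
    congr 1
    ext j
    simp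
  rw [h1, h2, mem_span_coord_iff κ x hf n le_rfl]
  constructor
  · intro h3
    refine Eventually.of_forall fun y => ?_
    rw [(frz_facts κ x n).2.2.2.1 y, h3]
  · intro h3
    obtain ⟨y, hy⟩ := h3.exists
    rwa [(frz_facts κ x n).2.2.2.1 y] at hy

/-- the coordinate functions form a regular sequence

Proof. Let `g = gm f x`. By `mem_span_coord_iff` the hypothesis says `(κ (frz κ x i y) i - κ x i) * f (frz κ x i y) = 0` near `x`, and
`κ (frz κ x i y) i = κ y i`. So the product of the germs of `κ y i - κ x i` and of `f ∘ frz κ x i` is zero; `OGerm x` is a domain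
(`DQ.W.isDomain_OO`) and the first germ is not zero (the function does not vanish at `x + t • κ.symm (Pi.single i 1)`, `t ≠ 0` small), so
the second is zero; `mem_span_coord_iff` again. -/
theorem OGerm.regular_coord (κ : V ≃L[ℂ] (Fin n → ℂ)) (x : V) (i : Fin n) (g : OGerm x)
    (h : gm (fun y => κ y i - κ x i) x * g ∈
      Ideal.span ((fun j => (gm (fun y => κ y j - κ x j) x : OGerm x)) '' {j | j < i})) :
    g ∈ Ideal.span ((fun j => (gm (fun y => κ y j - κ x j) x : OGerm x)) '' {j | j < i}) := by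
  obtain ⟨f, hf, rfl⟩ := exists_gm g
  have hc := WXSeq_coord κ x i
  have hset : {j : Fin n | j < i} = {j : Fin n | (j : ℕ) < (i : ℕ)} := rfl
  rw [hset] at h ⊢
  have hcf : HolAt ((fun y => κ y i - κ x i) * f) x := hc.mul hf
  rw [← gm_mul hc hf, mem_span_coord_iff κ x hcf i i.2.le] at h
  rw [mem_span_coord_iff κ x hf i i.2.le]
  have hF := WXSeq_hol κ x hf i
  have h1 : (gm (fun y => κ y i - κ x i) x : OGerm x) * gm (fun y => f (frz κ x i y)) x = 0 := by
    rw [← gm_mul hc hF, ← gm_zero x]
    refine (gm_eq_iff (hc.mul hF) (HolAt.const 0 x)).2 ?_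
    filter_upwards [h] with y hy
    have h2 : (κ (frz κ x i y) i - κ x i) * f (frz κ x i y) = 0 := hy
    rw [(frz_facts κ x i).2.2.2.2.1 y i, if_neg (lt_irrefl _)] at h2
    exact h2
  have : IsDomain (OGerm x) := _root_.Pool.Agent.DQ.W.isDomain_OO x
  rcases mul_eq_zero.1 h1 with h2 | h2
  · exfalso
    rw [← gm_zero x] at h2
    have h3 := (gm_eq_iff hc (HolAt.const 0 x)).1 h2
    have h4 : Tendsto (fun t : ℂ => x + t • κ.symm (Pi.single i 1)) (𝓝[≠] 0) (𝓝 x) := by
      have h5 : Continuous fun t : ℂ => x + t • κ.symm (Pi.single i 1) := by fun_prop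
      have h6 := h5.tendsto 0
      rw [zero_smul, add_zero] at h6
      exact h6.mono_left nhdsWithin_le_nhds
    obtain ⟨t, ht, ht'⟩ := ((h4.eventually h3).and (self_mem_nhdsWithin (a := (0 : ℂ)))).exists
    have h7 : κ (x + t • κ.symm (Pi.single i 1)) i - κ x i = 0 := ht
    rw [map_add, map_smul, ContinuousLinearEquiv.apply_symm_apply, Pi.add_apply, Pi.smul_apply,
      Pi.single_eq_same, smul_eq_mul, mul_one, add_sub_cancel_left] at h7
    exact ht' h7
  · rw [← gm_zero x] at h2
    exact (gm_eq_iff hF (HolAt.const 0 x)).1 h2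

end Pool.Agent.DQ
end

section

/-! # The lemma of Hartogs, Levi and Kronecker: definitions -/

set_option autoImplicit false

open Set Filter Topology Metric

namespace Pool.Agent.DQ.X

/-- an annulus -/
def An (j j' : ℝ) : Set ℂ := {w : ℂ | j < ‖w‖ ∧ ‖w‖ < j'}

theorem isOpen_An (j j' : ℝ) : IsOpen (An j j') :=
  (isOpen_lt continuous_const continuous_norm).inter (isOpen_lt continuous_norm continuous_const)

variable {Z : Type*} [NormedAddCommGroup Z] [NormedSpace ℂ Z]

/-- the moment `(2 π i)⁻¹ ∮ w ^ k f(w)`, the Laurent coefficient of index `-k-1`; the circle has radius `s` -/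
noncomputable def mom (s : ℝ) (f : ℂ → Z) (k : ℕ) : Z := DQ.F.lc f s (-(k : ℤ) - 1)

end Pool.Agent.DQ.X
end

section

/-! # DQ, module HA2: splitting of resolutions over local rings -/

set_option autoImplicit false

open Matrix RingTheory.Sequence IsLocalRing

universe u v w

namespace Pool.Agent.DQ

/-! ### von Neumann regular matrices -/

theorem VN.of_field {K : Type u} [Field K] {p q : ℕ} (A : Matrix (Fin p) (Fin q) K) : VN A := by
  let f : (Fin q → K) →ₗ[K] (Fin p → K) := Matrix.toLin' A
  obtain ⟨s, hs⟩ := f.rangeRestrict.exists_rightInverse_of_surjective (LinearMap.range_rangeRestrict f)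
  obtain ⟨p', hp'⟩ := (LinearMap.range f).subtype.exists_leftInverse_of_injective
    (Submodule.ker_subtype _)
  let g : (Fin p → K) →ₗ[K] (Fin q → K) := s ∘ₗ p'
  have hfgf : f ∘ₗ g ∘ₗ f = f := by
    apply LinearMap.ext
    intro x
    have h1 : p' (f x) = f.rangeRestrict x := by
      have := LinearMap.congr_fun hp' (f.rangeRestrict x)
      simpa using this
    have h2 := LinearMap.congr_fun hs (f.rangeRestrict x)
    have h3 : f (s (f.rangeRestrict x)) = f x := by
      have := congrArg Subtype.val h2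
      simpa using this
    simp only [LinearMap.comp_apply, g]
    rw [h1, h3]
  refine ⟨LinearMap.toMatrix' g, ?_⟩
  have hA : LinearMap.toMatrix' f = A := LinearMap.toMatrix'_toLin' A
  have := congrArg LinearMap.toMatrix' hfgf
  rw [LinearMap.toMatrix'_comp, LinearMap.toMatrix'_comp, hA, ← Matrix.mul_assoc] at this
  exact this

theorem VN.map {R : Type u} [CommRing R] {R' : Type v} [CommRing R'] (f : R →+* R') {p q : ℕ}
    {A : Matrix (Fin p) (Fin q) R} (h : VN A) : VN (A.map f) := by
  obtain ⟨S, hS⟩ := h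
  refine ⟨S.map f, ?_⟩
  rw [← Matrix.map_mul, ← Matrix.map_mul, hS]

theorem mul_aeval_of_mul {R : Type u} [CommRing R] {p q : ℕ} (A : Matrix (Fin p) (Fin q) R)
    (X : Matrix (Fin p) (Fin p) R) (Y : Matrix (Fin q) (Fin q) R) (h : A * Y = X * A)
    (P : Polynomial R) : A * Polynomial.aeval Y P = Polynomial.aeval X P * A := by
  have hpow : ∀ i : ℕ, A * Y ^ i = X ^ i * A := by
    intro i
    induction i with
    | zero => simp
    | succ i ih => rw [pow_succ, ← Matrix.mul_assoc, ih, Matrix.mul_assoc, h, ← Matrix.mul_assoc,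
        ← pow_succ]
  induction P using Polynomial.induction_on' with
  | add P Q hP hQ => rw [map_add, map_add, Matrix.mul_add, Matrix.add_mul, hP, hQ]
  | monomial i a =>
    rw [Polynomial.aeval_monomial, Polynomial.aeval_monomial, ← Matrix.mul_assoc,
      Algebra.algebraMap_eq_smul_one, Algebra.algebraMap_eq_smul_one]
    simp [hpow]

/-- if the rows of `A` generate a submodule `K` with `K ∩ m R^q = m K` then `K` is a direct
summand -/
theorem VN.of_local {R : Type u} [CommRing R] [IsLocalRing R] {p q : ℕ}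
    (A : Matrix (Fin p) (Fin q) R)
    (h : ∀ v : Fin p → R, (∀ i, (v ᵥ* A) i ∈ maximalIdeal R) →
      ∃ u : Fin p → R, (∀ i, u i ∈ maximalIdeal R) ∧ u ᵥ* A = v ᵥ* A) : VN A := by
  classical
  obtain ⟨T₀, hT₀⟩ := VN.of_field (A.map (residue R))
  choose T hT using fun i j => residue_surjective (T₀ i j)
  have hT' : (Matrix.of T).map (residue R) = T₀ := by
    ext i j
    exact hT i j
  set T' : Matrix (Fin q) (Fin p) R := Matrix.of T
  have hD : ∀ i j, (A * T' * A - A) i j ∈ maximalIdeal R := by
    intro i j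
    rw [← residue_eq_zero_iff]
    have : ((A * T' * A - A).map (residue R)) i j = 0 := by
      rw [Matrix.map_sub _ (map_sub _), Matrix.map_mul, Matrix.map_mul, hT', hT₀, sub_self]
      rfl
    exact this
  have hE : ∀ i, ∃ u : Fin p → R, (∀ k, u k ∈ maximalIdeal R) ∧ u ᵥ* A = (A * T' * A - A) i := by
    intro i
    let C : Matrix (Fin p) (Fin p) R := A * T' - 1
    have h1 : (C i) ᵥ* A = (A * T' * A - A) i := by
      have : C * A = A * T' * A - A := by simp only [C]; rw [Matrix.sub_mul, Matrix.one_mul]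
      rw [← this]
      rfl
    obtain ⟨u, hu, hu'⟩ := h (C i) (by
      intro k
      rw [h1]
      exact hD i k)
    exact ⟨u, hu, hu'.trans h1⟩
  choose E hEm hE' using hE
  have hEA : (Matrix.of E) * A = A * T' * A - A := by
    ext i j
    exact congrFun (hE' i) j
  set X : Matrix (Fin p) (Fin p) R := 1 + Matrix.of E
  have hX : A * (T' * A) = X * A := by
    rw [Matrix.add_mul, Matrix.one_mul, hEA, ← Matrix.mul_assoc]
    abel
  have hdet : IsUnit X.det := by
    have : residue R X.det = 1 := by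
      have h2 : (residue R).mapMatrix X = 1 := by
        ext i j
        have h3 : residue R (E i j) = 0 := (residue_eq_zero_iff _).2 (hEm i j)
        simp only [X, RingHom.mapMatrix_apply, Matrix.map_apply, Matrix.add_apply, map_add,
          Matrix.of_apply, h3, add_zero]
        rw [Matrix.one_apply, Matrix.one_apply]
        split_ifs <;> simp
      rw [RingHom.map_det, h2, Matrix.det_one]
    by_contra hn
    have h4 : X.det ∈ maximalIdeal R := (mem_maximalIdeal _).2 hn
    rw [← residue_eq_zero_iff, this] at h4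
    exact one_ne_zero h4
  have hχ := Matrix.aeval_self_charpoly X
  have h5 := mul_aeval_of_mul A X (T' * A) hX X.charpoly
  rw [hχ, Matrix.zero_mul, ← Polynomial.divX_mul_X_add X.charpoly, map_add, map_mul,
    Polynomial.aeval_X, Polynomial.aeval_C] at h5
  have h6 : IsUnit (X.charpoly.coeff 0) := by
    have := Matrix.det_eq_sign_charpoly_coeff X
    rw [this] at hdet
    exact isUnit_of_mul_isUnit_right hdet
  obtain ⟨c, hc⟩ := h6
  refine ⟨-((↑c⁻¹ : R) • (Polynomial.aeval (T' * A) X.charpoly.divX * T')), ?_⟩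
  have h7 : A * (Polynomial.aeval (T' * A) X.charpoly.divX * T') * A = -((c : R) • A) := by
    rw [Algebra.algebraMap_eq_smul_one, ← hc, Matrix.mul_add, Matrix.mul_smul, Matrix.mul_one] at h5
    rw [Matrix.mul_assoc, Matrix.mul_assoc]
    exact eq_neg_of_add_eq_zero_left h5
  rw [Matrix.mul_neg, Matrix.neg_mul, Matrix.mul_smul, Matrix.smul_mul, h7, smul_neg, neg_neg,
    smul_smul]
  simp

variable {R : Type u} [CommRing R] {n : ℕ → ℕ}
  {B : ∀ k, Matrix (Fin (n (k + 1))) (Fin (n k)) R}

theorem ExactAt.mul_eq_zero {k : ℕ} (h : ExactAt n B k) : B (k + 1) * B k = 0 := by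
  apply matrix_eq_of_vecMul
  intro v
  rw [← Matrix.vecMul_vecMul, vecMul_zero]
  exact (h _).2 ⟨v, rfl⟩

/-- the contracting homotopy -/
theorem VN.homotopy {k : ℕ} (hk : VN (B k)) (h : ExactAt n B k) :
    ∃ (S : Matrix (Fin (n k)) (Fin (n (k + 1))) R)
      (S' : Matrix (Fin (n (k + 1))) (Fin (n (k + 2))) R), B k * S + S' * B (k + 1) = 1 ∧
        B k * S * B k = B k ∧ B (k + 1) * S' * B (k + 1) = B (k + 1) := by
  obtain ⟨S, hS⟩ := hk
  have h1 : (1 - B k * S) * B k = 0 := by rw [Matrix.sub_mul, Matrix.one_mul, hS, sub_self]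
  obtain ⟨S', hS'⟩ : ∃ S' : Matrix (Fin (n (k + 1))) (Fin (n (k + 2))) R,
      S' * B (k + 1) = 1 - B k * S := by
    apply exists_matrix_mul
    intro i
    rw [← h]
    ext j
    exact congrFun (congrFun h1 i) j
  refine ⟨S, S', by rw [hS']; abel, hS, ?_⟩
  rw [Matrix.mul_assoc, hS', Matrix.mul_sub, ← Matrix.mul_assoc, h.mul_eq_zero]
  simp

theorem VN.of_le {a k : ℕ} (ha : VN (B a)) (hak : a ≤ k) (h : ∀ k, a ≤ k → ExactAt n B k) :
    VN (B k) := by
  induction k, hak using Nat.le_induction with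
  | base => exact ha
  | succ k hk ih =>
    obtain ⟨S, S', h1, h2, h3⟩ := ih.homotopy (h k hk)
    exact ⟨S', h3⟩

/-- the dual complex is exact where the complex splits -/
theorem VN.exN {k : ℕ} (hk : VN (B k)) (h : ExactAt n B k) (N : Type v) [AddCommGroup N]
    [Module R N] : ExN n B N k := by
  obtain ⟨S, S', h1, h2, h3⟩ := hk.homotopy h
  intro w hw
  refine ⟨act S w, ?_⟩
  have : act (B k * S + S' * B (k + 1)) w = w := by rw [h1, act_one]
  rwa [act_add, act_mul, act_mul, hw, map_zero, add_zero] at this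

/-- exactness of the complex modulo the maximal ideal at the place `k` -/
def PAt [IsLocalRing R] (n : ℕ → ℕ) (B : ∀ k, Matrix (Fin (n (k + 1))) (Fin (n k)) R) (k : ℕ) :
    Prop :=
  ∀ v : Fin (n (k + 1)) → R, (∀ i, (v ᵥ* B k) i ∈ maximalIdeal R) →
    ∃ u : Fin (n (k + 2)) → R, ∀ i, v i - (u ᵥ* B (k + 1)) i ∈ maximalIdeal R

theorem PAt.vn [IsLocalRing R] {k : ℕ} (hk : PAt n B k) (h : ExactAt n B k) : VN (B k) := by
  apply VN.of_local
  intro v hv
  obtain ⟨u, hu⟩ := hk v hv
  refine ⟨v - u ᵥ* B (k + 1), fun i => hu i, ?_⟩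
  rw [Matrix.sub_vecMul, Matrix.vecMul_vecMul, h.mul_eq_zero, vecMul_zero, sub_zero]

/-! ### reduction modulo a regular element -/

theorem exists_lift_vec {R' : Type v} [CommRing R'] (f : R →+* R') (hf : Function.Surjective f)
    {p : ℕ} (v : Fin p → R') : ∃ v' : Fin p → R, (fun i => f (v' i)) = v := by
  choose v' hv' using fun i => hf (v i)
  exact ⟨v', funext hv'⟩

theorem map_vecMul' {R' : Type v} [CommRing R'] (f : R →+* R') {p q : ℕ}
    (A : Matrix (Fin p) (Fin q) R) (v : Fin p → R) :
    (fun i => f (v i)) ᵥ* A.map f = fun j => f ((v ᵥ* A) j) := by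
  funext j
  simp [Matrix.vecMul, dotProduct]

theorem exists_smul_of_quot {x : R} {p : ℕ} {v v' : Fin p → R}
    (h : ∀ i, Ideal.Quotient.mk (Ideal.span {x}) (v i) = Ideal.Quotient.mk (Ideal.span {x}) (v' i)) :
    ∃ z : Fin p → R, v = v' + x • z := by
  have : ∀ i, ∃ z : R, v i = v' i + x • z := by
    intro i
    have h1 := Ideal.Quotient.eq.1 (h i)
    rw [Ideal.mem_span_singleton'] at h1
    obtain ⟨z, hz⟩ := h1
    exact ⟨z, by rw [smul_eq_mul, mul_comm, hz]; ring⟩
  choose z hz using this
  exact ⟨z, funext hz⟩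

theorem ExactAt.quot {x : R} (hx : IsSMulRegular R x) {k : ℕ} (h : ExactAt n B k)
    (h' : ExactAt n B (k + 1)) :
    ExactAt n (fun k => (B k).map (Ideal.Quotient.mk (Ideal.span {x}))) (k + 1) := by
  intro v'
  constructor
  · intro hv'
    obtain ⟨v, rfl⟩ := exists_lift_vec (Ideal.Quotient.mk (Ideal.span {x}))
      Ideal.Quotient.mk_surjective v'
    rw [map_vecMul'] at hv'
    obtain ⟨z, hz⟩ := exists_smul_of_quot (x := x) (v := v ᵥ* B (k + 1)) (v' := 0)
      (fun i => by simpa using congrFun hv' i)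
    rw [zero_add] at hz
    have h1 : z ᵥ* B k = 0 := by
      apply smul_cancel hx
      rw [← Matrix.smul_vecMul, ← hz, Matrix.vecMul_vecMul, h.mul_eq_zero, vecMul_zero, smul_zero]
    obtain ⟨u, hu⟩ := (h z).1 h1
    obtain ⟨u', hu'⟩ := (h' (v - x • u)).1 (by
      rw [Matrix.sub_vecMul, Matrix.smul_vecMul, hu, hz, sub_self])
    refine ⟨fun i => Ideal.Quotient.mk (Ideal.span {x}) (u' i), ?_⟩
    rw [map_vecMul', hu']
    funext i
    rw [Ideal.Quotient.eq]
    simp only [Pi.sub_apply, Pi.smul_apply, smul_eq_mul]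
    rw [show v i - x * u i - v i = (-u i) * x by ring]
    exact Ideal.mul_mem_left _ _ (Ideal.subset_span rfl)
  · rintro ⟨u', rfl⟩
    obtain ⟨u, rfl⟩ := exists_lift_vec (Ideal.Quotient.mk (Ideal.span {x}))
      Ideal.Quotient.mk_surjective u'
    rw [map_vecMul', map_vecMul', Matrix.vecMul_vecMul, h'.mul_eq_zero, vecMul_zero]
    funext i
    simp

theorem PAt.of_quot [IsLocalRing R] {x : R}
    [IsLocalRing (R ⧸ Ideal.span {x})] {k : ℕ}
    (h : PAt n (fun k => (B k).map (Ideal.Quotient.mk (Ideal.span {x}))) k) : PAt n B k := by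
  have hcomap : ∀ a : R, Ideal.Quotient.mk (Ideal.span {x}) a ∈
      maximalIdeal (R ⧸ Ideal.span {x}) ↔ a ∈ maximalIdeal R := by
    intro a
    have h1 : IsLocalHom (Ideal.Quotient.mk (Ideal.span {x})) :=
      IsLocalHom.of_surjective _ Ideal.Quotient.mk_surjective
    rw [mem_maximalIdeal, mem_maximalIdeal, mem_nonunits_iff, mem_nonunits_iff,
      not_iff_not]
    exact isUnit_map_iff _ _
  intro v hv
  obtain ⟨u', hu'⟩ := h (fun i => Ideal.Quotient.mk (Ideal.span {x}) (v i)) (by
    intro i
    rw [map_vecMul']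
    exact (hcomap _).2 (hv i))
  obtain ⟨u, rfl⟩ := exists_lift_vec (Ideal.Quotient.mk (Ideal.span {x}))
    Ideal.Quotient.mk_surjective u'
  refine ⟨u, fun i => ?_⟩
  have := hu' i
  rw [map_vecMul', ← map_sub] at this
  exact (hcomap _).1 this

theorem isLocalRing_quot [IsLocalRing R] {x : R} (hx : x ∈ maximalIdeal R) :
    IsLocalRing (R ⧸ Ideal.span {x}) := by
  have h1 : Nontrivial (R ⧸ Ideal.span {x}) := by
    rw [Ideal.Quotient.nontrivial_iff]
    intro h
    exact (mem_maximalIdeal x).1 hx (Ideal.span_singleton_eq_top.1 h)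
  exact IsLocalRing.of_surjective' _ Ideal.Quotient.mk_surjective

theorem maximalIdeal_quot [IsLocalRing R] {x : R}
    [IsLocalRing (R ⧸ Ideal.span {x})] : maximalIdeal (R ⧸ Ideal.span {x}) =
      (maximalIdeal R).map (Ideal.Quotient.mk (Ideal.span {x})) :=
  (map_maximalIdeal_of_surjective _ Ideal.Quotient.mk_surjective).symm

theorem isWeaklyRegular_quot_iff {x : R} (rs : List R) :
    IsWeaklyRegular (R ⧸ Ideal.span {x}) (rs.map (Ideal.Quotient.mk (Ideal.span {x}))) ↔
      IsWeaklyRegular (QuotSMulTop x R) rs := by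
  have e : QuotSMulTop x R ≃ₗ[R] (R ⧸ Ideal.span {x}) :=
    Submodule.quotEquivOfEq _ _ (by
      rw [← Submodule.ideal_span_singleton_smul]
      simp)
  rw [e.isWeaklyRegular_congr rs]
  exact isWeaklyRegular_map_algebraMap_iff (R := R) (R ⧸ Ideal.span {x}) (R ⧸ Ideal.span {x}) rs

theorem RegLoc.quot [IsLocalRing R] {x : R} {xs : List R} (hR : RegLoc R (x :: xs))
    [IsLocalRing (R ⧸ Ideal.span {x})] :
    RegLoc (R ⧸ Ideal.span {x}) (xs.map (Ideal.Quotient.mk (Ideal.span {x}))) := by
  refine ⟨?_, ?_⟩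
  · rw [maximalIdeal_quot, hR.span, Ideal.map_ofList, List.map_cons, Ideal.ofList_cons]
    have : Ideal.Quotient.mk (Ideal.span {x}) x = 0 :=
      Ideal.Quotient.eq_zero_iff_mem.2 (Ideal.subset_span rfl)
    rw [this]
    simp
  · rw [isWeaklyRegular_quot_iff]
    exact ((isWeaklyRegular_cons_iff _ _ _).1 hR.reg).2

theorem RegLoc.mem [IsLocalRing R] {xs : List R} (hR : RegLoc R xs) {x : R} (hx : x ∈ xs) :
    x ∈ maximalIdeal R := by
  rw [hR.span]
  exact Ideal.subset_span hx

/-- syzygies over a regular local ring: a complex which is exact at the places `≥ a` splits at the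
places `≥ a + dim R` -/
theorem PAt.of_regLoc [IsLocalRing R] {xs : List R} (hR : RegLoc R xs) {a : ℕ}
    (h : ∀ k, a ≤ k → ExactAt n B k) : PAt n B (a + xs.length) := by
  induction hl : xs.length generalizing R xs a with
  | zero =>
    have : xs = [] := List.length_eq_zero_iff.1 hl
    subst this
    intro v hv
    have h1 : v ᵥ* B a = 0 := by
      funext i
      have := hv i
      rw [hR.span] at this
      simpa using this
    obtain ⟨u, hu⟩ := (h a le_rfl v).1 h1
    refine ⟨u, fun i => ?_⟩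
    have : u ᵥ* B (a + 0 + 1) = v := hu
    rw [this, sub_self]
    exact zero_mem _
  | succ l ih =>
    cases xs with
    | nil => exact absurd hl (by simp)
    | cons x xs =>
      have hx : x ∈ maximalIdeal R := hR.mem (by simp)
      have := isLocalRing_quot hx
      have hreg : IsSMulRegular R x := ((isWeaklyRegular_cons_iff _ _ _).1 hR.reg).1
      have h1 := ih (B := fun k => (B k).map (Ideal.Quotient.mk (Ideal.span {x}))) (a := a + 1)
        hR.quot (by
          intro k hk
          obtain ⟨k, rfl⟩ : ∃ k', k = k' + 1 := ⟨k - 1, by omega⟩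
          exact ExactAt.quot hreg (h k (by omega)) (h (k + 1) (by omega)))
        (by simpa using hl)
      rw [show a + 1 + l = a + (l + 1) by ring] at h1
      exact PAt.of_quot h1

theorem VN.of_regLoc [IsLocalRing R] {xs : List R} (hR : RegLoc R xs) {a : ℕ}
    (h : ∀ k, a ≤ k → ExactAt n B k) {k : ℕ} (hk : a + xs.length ≤ k) : VN (B k) :=
  ((PAt.of_regLoc hR h).vn (h _ (by omega))).of_le hk fun k hk => h k (by omega)

/-- Auslander–Buchsbaum, depth `0` -/
theorem PAt.of_depth_zero [IsLocalRing R] {y : R} (hy : y ≠ 0)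
    (hy' : ∀ a ∈ maximalIdeal R, a * y = 0) {a l : ℕ} (hal : a ≤ l) (hl : VN (B l))
    (h : ∀ k, a ≤ k → ExactAt n B k) : PAt n B a := by
  have step : ∀ k, a ≤ k → VN (B (k + 1)) → PAt n B k := by
    rintro k hk ⟨S, hS⟩ v hv
    refine ⟨v ᵥ* S, fun i => ?_⟩
    by_contra hi
    have h1 : (y • v) ᵥ* B k = 0 := by
      rw [Matrix.smul_vecMul]
      funext j
      rw [Pi.smul_apply, smul_eq_mul, mul_comm]
      exact hy' _ (hv j)
    obtain ⟨u, hu⟩ := (h k hk _).1 h1
    have h2 : y • (v - v ᵥ* S ᵥ* B (k + 1)) = 0 := by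
      rw [smul_sub, ← Matrix.smul_vecMul, ← Matrix.smul_vecMul, ← hu, Matrix.vecMul_vecMul,
        Matrix.vecMul_vecMul, ← Matrix.mul_assoc, hS, sub_self]
    have h3 := congrFun h2 i
    simp only [Pi.smul_apply, Pi.sub_apply, smul_eq_mul, Pi.zero_apply] at h3
    rw [mem_maximalIdeal, mem_nonunits_iff, not_not] at hi
    exact hy (hi.mul_left_eq_zero.1 h3)
  have h1 : ∀ i, i ≤ l - a → VN (B (l - i)) := by
    intro i hi
    induction i with
    | zero => exact hl
    | succ i ih =>
      obtain ⟨m, hm⟩ : ∃ m, l - i = m + 1 := ⟨l - i - 1, by omega⟩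
      have h2 := ih (by omega)
      rw [hm] at h2
      have h3 := (step m (by omega) h2).vn (h m (by omega))
      rwa [show l - (i + 1) = m by omega]
  have h2 : VN (B a) := by
    have := h1 (l - a) le_rfl
    rwa [show l - (l - a) = a by omega] at this
  exact step a le_rfl (h2.of_le (by omega) h)

theorem PAt.of_depth [IsLocalRing R] (rs : List R) (hrs : IsWeaklyRegular R rs)
    (hm : ∀ r ∈ rs, r ∈ maximalIdeal R) {y : R} (hy : y ∉ Ideal.ofList rs)
    (hy' : ∀ a ∈ maximalIdeal R, a * y ∈ Ideal.ofList rs) {a l : ℕ} (hal : a ≤ l)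
    (hl : VN (B l)) (h : ∀ k, a ≤ k → ExactAt n B k) : PAt n B (a + rs.length) := by
  induction hlen : rs.length generalizing R rs y a l with
  | zero =>
    have : rs = [] := List.length_eq_zero_iff.1 hlen
    subst this
    exact PAt.of_depth_zero (y := y) (by simpa using hy) (fun b hb => by simpa using hy' b hb)
      hal hl h
  | succ m ih =>
    cases rs with
    | nil => exact absurd hlen (by simp)
    | cons x rs =>
      have hx : x ∈ maximalIdeal R := hm x (by simp)
      have := isLocalRing_quot hx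
      have hreg : IsSMulRegular R x := ((isWeaklyRegular_cons_iff _ _ _).1 hrs).1
      have key : ∀ b : R, Ideal.Quotient.mk (Ideal.span {x}) b ∈
          Ideal.ofList (rs.map (Ideal.Quotient.mk (Ideal.span {x}))) ↔
            b ∈ Ideal.ofList (x :: rs) := by
        intro b
        rw [← Ideal.map_ofList, ← Ideal.mem_comap, Ideal.comap_map_of_surjective _
          Ideal.Quotient.mk_surjective, ← RingHom.ker_eq_comap_bot, Ideal.mk_ker,
          Ideal.ofList_cons, sup_comm]
      have h1 := ih (B := fun k => (B k).map (Ideal.Quotient.mk (Ideal.span {x}))) (a := a + 1)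
        (l := l + 1) (y := Ideal.Quotient.mk (Ideal.span {x}) y)
        (rs.map (Ideal.Quotient.mk (Ideal.span {x})))
        ((isWeaklyRegular_quot_iff rs).2 ((isWeaklyRegular_cons_iff _ _ _).1 hrs).2)
        (by
          intro r hr
          obtain ⟨r', hr', rfl⟩ := List.mem_map.1 hr
          rw [maximalIdeal_quot]
          exact Ideal.mem_map_of_mem _ (hm r' (by simp [hr'])))
        (by rw [key]; exact hy)
        (by
          intro b hb
          rw [maximalIdeal_quot, Ideal.mem_map_iff_of_surjective _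
            Ideal.Quotient.mk_surjective] at hb
          obtain ⟨b, hb, rfl⟩ := hb
          rw [← map_mul, key]
          exact hy' b hb)
        (by omega)
        ((hl.of_le (Nat.le_succ l) fun k hk => h k (by omega)).map _)
        (by
          intro k hk
          obtain ⟨k, rfl⟩ : ∃ k', k = k' + 1 := ⟨k - 1, by omega⟩
          exact ExactAt.quot hreg (h k (by omega)) (h (k + 1) (by omega)))
        (by simpa using hlen)
      rw [show a + 1 + m = a + (m + 1) by ring] at h1
      exact PAt.of_quot h1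

/-- Auslander–Buchsbaum: if `rs` is a regular sequence and the maximal ideal is associated to
`R / (rs)`, a complex which is exact at the places `≥ a` and which splits somewhere splits at the
places `≥ a + rs.length` -/
theorem VN.of_depth [IsLocalRing R] (rs : List R) (hrs : IsWeaklyRegular R rs)
    (hm : ∀ r ∈ rs, r ∈ maximalIdeal R) {y : R} (hy : y ∉ Ideal.ofList rs)
    (hy' : ∀ a ∈ maximalIdeal R, a * y ∈ Ideal.ofList rs) {a l : ℕ} (hal : a ≤ l)
    (hl : VN (B l)) (h : ∀ k, a ≤ k → ExactAt n B k) {k : ℕ} (hk : a + rs.length ≤ k) :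
    VN (B k) :=
  ((PAt.of_depth rs hrs hm hy hy' hal hl h).vn (h _ (by omega))).of_le hk
    fun k hk => h k (by omega)

end Pool.Agent.DQ
end

section

/-! # DQ, module HA2: localisation, grade of the annihilator of `Ext` -/

set_option autoImplicit false

open Matrix RingTheory.Sequence IsLocalRing Pointwise

universe u v w

namespace Pool.Agent.DQ

variable {R : Type u} [CommRing R] (p : Ideal R) [hp : p.IsPrime]

theorem exists_clear {ι : Type} [Finite ι] (v : ι → Localization.AtPrime p) :
    ∃ (b : R) (v' : ι → R), b ∉ p ∧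
      ∀ i, algebraMap R (Localization.AtPrime p) b * v i = algebraMap R _ (v' i) := by
  obtain ⟨b, hb⟩ := IsLocalization.exist_integer_multiples_of_finite p.primeCompl v
  choose v' hv' using hb
  refine ⟨b, v', b.2, fun i => ?_⟩
  rw [hv' i, Algebra.smul_def]

theorem exists_kill_vec {ι : Type} [Finite ι] (v : ι → R)
    (h : ∀ i, algebraMap R (Localization.AtPrime p) (v i) = 0) :
    ∃ b : R, b ∉ p ∧ ∀ i, b * v i = 0 := by
  classical
  have := Fintype.ofFinite ι
  have h1 : ∀ i, ∃ b : p.primeCompl, (b : R) * v i = 0 := fun i =>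
    (IsLocalization.map_eq_zero_iff p.primeCompl _ _).1 (h i)
  choose b hb using h1
  refine ⟨((∏ i, b i : p.primeCompl) : R), (∏ i, b i).2, fun i => ?_⟩
  rw [← Finset.mul_prod_erase _ _ (Finset.mem_univ i), Submonoid.coe_mul, mul_assoc, mul_comm,
    mul_assoc, mul_comm (v i), hb, mul_zero]

theorem exists_eq_of_map_eq {ι : Type} [Finite ι] (v w : ι → R)
    (h : ∀ i, algebraMap R (Localization.AtPrime p) (v i) = algebraMap R _ (w i)) :
    ∃ b : R, b ∉ p ∧ ∀ i, b * v i = b * w i := by
  obtain ⟨b, hb, hb'⟩ := exists_kill_vec p (fun i => v i - w i) (fun i => by rw [map_sub, h, sub_self])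
  exact ⟨b, hb, fun i => by rw [← sub_eq_zero, ← mul_sub]; exact hb' i⟩

theorem isUnit_of_notMem {b : R} (hb : b ∉ p) : IsUnit (algebraMap R (Localization.AtPrime p) b) :=
  IsLocalization.map_units (Localization.AtPrime p) (⟨b, hb⟩ : p.primeCompl)

variable {n : ℕ → ℕ} {B : ∀ k, Matrix (Fin (n (k + 1))) (Fin (n k)) R}

/-- the localised complex -/
noncomputable abbrev locB (B : ∀ k, Matrix (Fin (n (k + 1))) (Fin (n k)) R) (k : ℕ) :
    Matrix (Fin (n (k + 1))) (Fin (n k)) (Localization.AtPrime p) :=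
  (B k).map (algebraMap R (Localization.AtPrime p))

theorem ExactAt.loc {k : ℕ} (h : ExactAt n B k) : ExactAt n (locB p B) k := by
  intro v'
  constructor
  · intro hv'
    obtain ⟨b, v, hb, hbv⟩ := exists_clear p v'
    obtain ⟨c, hc, hcv⟩ := exists_kill_vec p (v ᵥ* B k) (by
      intro i
      have h1 := congrFun (map_vecMul' (algebraMap R (Localization.AtPrime p)) (B k) v) i
      rw [← h1]
      have h2 : (fun i => algebraMap R (Localization.AtPrime p) (v i)) =
          algebraMap R (Localization.AtPrime p) b • v' := by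
        funext i
        rw [← hbv i]
        rfl
      rw [h2, Matrix.smul_vecMul, hv', smul_zero]
      rfl)
    obtain ⟨u, hu⟩ := (h (c • v)).1 (by
      rw [Matrix.smul_vecMul]
      funext i
      exact hcv i)
    obtain ⟨d, hd⟩ := (isUnit_of_notMem p hb).mul (isUnit_of_notMem p hc)
    refine ⟨((d⁻¹ : (Localization.AtPrime p)ˣ) : Localization.AtPrime p) •
      (fun i => algebraMap R _ (u i)), ?_⟩
    rw [Matrix.smul_vecMul, map_vecMul', hu]
    funext i
    simp only [Pi.smul_apply, smul_eq_mul, map_mul]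
    rw [← hbv i, ← mul_assoc (algebraMap R _ c), mul_comm (algebraMap R _ c), ← hd, ← mul_assoc,
      Units.inv_mul, one_mul]
  · rintro ⟨u, rfl⟩
    rw [Matrix.vecMul_vecMul]
    have : locB p B (k + 1) * locB p B k = 0 := by
      rw [← Matrix.map_mul, h.mul_eq_zero, Matrix.map_zero _ (map_zero _)]
    rw [this, vecMul_zero]

/-- descent of a contracting homotopy -/
theorem exists_notMem_of_homotopy {j : ℕ}
    (h : ∃ (S : Matrix (Fin (n j)) (Fin (n (j + 1))) (Localization.AtPrime p))
      (S' : Matrix (Fin (n (j + 1))) (Fin (n (j + 2))) (Localization.AtPrime p)),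
      locB p B j * S + S' * locB p B (j + 1) = 1) :
    ∃ (t : R) (S : Matrix (Fin (n j)) (Fin (n (j + 1))) R)
      (S' : Matrix (Fin (n (j + 1))) (Fin (n (j + 2))) R), t ∉ p ∧
      B j * S + S' * B (j + 1) = t • 1 := by
  obtain ⟨S, S', hS⟩ := h
  obtain ⟨b, T, hb, hT⟩ := exists_clear p (fun i : Fin (n j) × Fin (n (j + 1)) => S i.1 i.2)
  obtain ⟨b', T', hb', hT'⟩ := exists_clear p
    (fun i : Fin (n (j + 1)) × Fin (n (j + 2)) => S' i.1 i.2)
  let T1 : Matrix (Fin (n j)) (Fin (n (j + 1))) R := Matrix.of fun i k => T (i, k)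
  let T2 : Matrix (Fin (n (j + 1))) (Fin (n (j + 2))) R := Matrix.of fun i k => T' (i, k)
  have h1 : T1.map (algebraMap R (Localization.AtPrime p)) =
      algebraMap R (Localization.AtPrime p) b • S := by
    ext i k
    exact (hT (i, k)).symm
  have h2 : T2.map (algebraMap R (Localization.AtPrime p)) =
      algebraMap R (Localization.AtPrime p) b' • S' := by
    ext i k
    exact (hT' (i, k)).symm
  have h3 : ((b' • (B j * T1) + b • (T2 * B (j + 1))).map
      (algebraMap R (Localization.AtPrime p))) = ((b' * b) • (1 : Matrix (Fin (n (j + 1)))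
        (Fin (n (j + 1))) R)).map (algebraMap R (Localization.AtPrime p)) := by
    have h4 : ∀ (c : R) {q r : ℕ} (A : Matrix (Fin q) (Fin r) R),
        (c • A).map (algebraMap R (Localization.AtPrime p)) =
          algebraMap R (Localization.AtPrime p) c • A.map (algebraMap R _) := by
      intro c q r A
      ext i k
      simp
    rw [Matrix.map_add _ (map_add _), h4, h4, h4, Matrix.map_mul, Matrix.map_mul, h1, h2,
      Matrix.mul_smul, Matrix.smul_mul, smul_smul, smul_smul, map_mul, mul_comm (algebraMap R _ b),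
      ← smul_add, hS]
    congr 1
    exact (Matrix.map_one _ (map_zero _) (map_one _)).symm
  obtain ⟨c, hc, hc'⟩ := exists_eq_of_map_eq p
    (fun i : Fin (n (j + 1)) × Fin (n (j + 1)) =>
      (b' • (B j * T1) + b • (T2 * B (j + 1))) i.1 i.2)
    (fun i : Fin (n (j + 1)) × Fin (n (j + 1)) =>
      ((b' * b) • (1 : Matrix (Fin (n (j + 1))) (Fin (n (j + 1))) R)) i.1 i.2)
    (fun i => congrFun (congrFun h3 i.1) i.2)
  refine ⟨c * (b' * b), (c * b') • T1, (c * b) • T2,
    fun h => (hp.mem_or_mem h).elim hc fun h => (hp.mem_or_mem h).elim hb' hb, ?_⟩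
  rw [Matrix.mul_smul, Matrix.smul_mul, mul_smul, mul_smul, mul_smul, ← smul_add]
  ext i k
  exact hc' (i, k)

theorem exists_notMem_annExt {j : ℕ} (hj : VN (locB p B j)) (h : ExactAt n B j) :
    ∃ t, t ∉ p ∧ t ∈ AnnExt n B j := by
  obtain ⟨S, S', h1, -⟩ := hj.homotopy (h.loc p)
  obtain ⟨t, T, T', ht, hT⟩ := exists_notMem_of_homotopy p ⟨S, S', h1⟩
  refine ⟨t, ht, fun w hw => ⟨T *ᵥ w, ?_⟩⟩
  have : (B j * T + T' * B (j + 1)) *ᵥ w = t • w := by
    rw [hT, Matrix.smul_mulVec, Matrix.one_mulVec]
  rwa [Matrix.add_mulVec, ← Matrix.mulVec_mulVec, ← Matrix.mulVec_mulVec, hw, Matrix.mulVec_zero,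
    add_zero] at this

/-- the localisation at an associated prime of `R / (rs)` -/
theorem loc_depth {rs : List R} (hrs : IsWeaklyRegular R rs) {y : R}
    (hpy : ∀ a, a ∈ p ↔ a * y ∈ Ideal.ofList rs) :
    IsWeaklyRegular (Localization.AtPrime p) (rs.map (algebraMap R (Localization.AtPrime p))) ∧
    (∀ r ∈ rs.map (algebraMap R (Localization.AtPrime p)),
      r ∈ maximalIdeal (Localization.AtPrime p)) ∧
    algebraMap R (Localization.AtPrime p) y ∉
      Ideal.ofList (rs.map (algebraMap R (Localization.AtPrime p))) ∧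
    ∀ a ∈ maximalIdeal (Localization.AtPrime p), a * algebraMap R (Localization.AtPrime p) y ∈
      Ideal.ofList (rs.map (algebraMap R (Localization.AtPrime p))) := by
  refine ⟨hrs.of_isLocalization (Localization.AtPrime p) p.primeCompl, ?_, ?_, ?_⟩
  · intro r hr
    obtain ⟨r', hr', rfl⟩ := List.mem_map.1 hr
    rw [IsLocalization.AtPrime.to_map_mem_maximal_iff (Localization.AtPrime p) p, hpy]
    exact Ideal.mul_mem_right _ _ (Ideal.subset_span hr')
  · intro h
    rw [← Ideal.map_ofList, IsLocalization.mem_map_algebraMap_iff p.primeCompl] at h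
    obtain ⟨⟨i, s⟩, hs⟩ := h
    rw [← map_mul] at hs
    obtain ⟨c, hc⟩ := (IsLocalization.eq_iff_exists p.primeCompl _).1 hs
    have h1 : (c * s : R) * y ∈ Ideal.ofList rs := by
      rw [show (c * s : R) * y = c * (y * s) by ring, hc]
      exact Ideal.mul_mem_left _ _ i.2
    rw [← hpy] at h1
    exact (hp.mem_or_mem h1).elim c.2 s.2
  · intro a ha
    obtain ⟨a, s, rfl⟩ := IsLocalization.exists_mk'_eq p.primeCompl a
    have h1 : a ∈ p :=
      (IsLocalization.AtPrime.mk'_mem_maximal_iff (Localization.AtPrime p) p a s).1 ha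
    rw [IsLocalization.mk'_eq_mul_mk'_one, mul_right_comm, ← map_mul, ← Ideal.map_ofList]
    exact Ideal.mul_mem_right _ _ (Ideal.mem_map_of_mem _ ((hpy a).1 h1))

variable {p}

/-- Auslander–Buchsbaum at an associated prime of `R / (rs)` -/
theorem vn_loc {rs : List R} (hrs : IsWeaklyRegular R rs) {y : R}
    (hpy : ∀ a, a ∈ p ↔ a * y ∈ Ideal.ofList rs) (h : ∀ k, 1 ≤ k → ExactAt n B k) {l : ℕ}
    (hl1 : 1 ≤ l) (hl : VN (B l)) {k : ℕ} (hk : rs.length < k) : VN (locB p B k) := by
  obtain ⟨h1, h2, h3, h4⟩ := loc_depth p hrs hpy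
  exact VN.of_depth (B := locB p B) _ h1 h2 h3 h4 hl1 (hl.map _) (fun k hk => (h k hk).loc p)
    (by rw [List.length_map]; omega)

/-- the grade of the annihilator of `Ext^j` is at least `j` -/
theorem grade_annExt [IsNoetherianRing R] (h : ∀ k, 1 ≤ k → ExactAt n B k) {l : ℕ}
    (hl1 : 1 ≤ l) (hl : VN (B l)) (j : ℕ) : GradeGE (AnnExt n B j) j := by
  rcases gradeGE_or_exists_prime (AnnExt n B j) j with h' | ⟨rs, p, y, h1, h2, h3, h4, h5, h6, h7⟩
  · exact h'
  · obtain ⟨t, ht, ht'⟩ := exists_notMem_annExt p (vn_loc h3 h7 h hl1 hl h1) (h j (by omega))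
    exact absurd (h5 ht') ht

/-- `Ext^j(M, N) = 0` for `j > dim R`, `R` regular local -/
theorem IsRes.exN_of_regLoc {M : Type w} [AddCommGroup M] [Module R M]
    {ε : (Fin (n 1) → R) →ₗ[R] M} [IsLocalRing R] {xs : List R} (hR : RegLoc R xs)
    (h : IsRes n B ε)
    {j : ℕ} (hj : xs.length < j) (N : Type v) [AddCommGroup N] [Module R N] : ExN n B N j :=
  (VN.of_regLoc hR (a := 1) (fun k hk => h.exactAt hk) (by omega)).exN (h.exactAt (by omega)) N

/-- the grade of the annihilator of `Ext^j(M, R)` is at least `j`, `R` regular local -/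
theorem IsRes.grade_annExt {M : Type w} [AddCommGroup M] [Module R M]
    {ε : (Fin (n 1) → R) →ₗ[R] M} [IsNoetherianRing R] [IsLocalRing R] {xs : List R}
    (hR : RegLoc R xs) (h : IsRes n B ε) (j : ℕ) : GradeGE (AnnExt n B j) j :=
  Pool.Agent.DQ.grade_annExt (fun k hk => h.exactAt hk) (l := 1 + xs.length) (by omega)
    (VN.of_regLoc hR (a := 1) (fun k hk => h.exactAt hk) le_rfl) j

/-! ### the forms used in HA1 -/

theorem RowRes.exactAt {k : ℕ} (h : RowRes n B) (hk : 1 ≤ k) : ExactAt n B k := h.exact k hk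

theorem RowRes.isRes (h : RowRes n B) :
    IsRes n B (Submodule.mkQ (LinearMap.range (vecMulL R (B 1)))) where
  zero := h.zero
  surj := Submodule.mkQ_surjective _
  ker v := by
    rw [Submodule.mkQ_apply, Submodule.Quotient.mk_eq_zero]
    rfl
  exact := h.exact

theorem gradeAnn [IsNoetherianRing R] [IsLocalRing R] {xs : List R} (hR : RegLoc R xs) :
    GradeAnn R := by
  intro n B h j T _ _ _ hT i hi
  have h1 : GradeGE (AnnExt n B j) j := h.isRes.grade_annExt hR j
  have h2 : AnnExt n B j ≤ (Module.annihilator R T).radical := by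
    intro a ha
    obtain ⟨k, hk⟩ := hT a ha
    exact ⟨k, Module.mem_annihilator.2 hk⟩
  exact extZero_of_grade (h1.of_radical h2) hi

theorem pureExt [IsNoetherianRing R] : PureExt R := by
  intro n B h d hd I hI x hx
  obtain ⟨n', B', ε', h'⟩ := exists_isRes R (R ⧸ I)
  have h1 : GradeGE I (d + 1) := by
    have := h'.grade_of_exact_dual (d := d + 1) fun j hj => hI j (by omega) n' B' ε' h'
    rwa [Ideal.annihilator_quotient] at this
  exact h.isRes.purity (d := d) hd h1 x hx

end Pool.Agent.DQ
end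

section

/-! # DQ, module HA2: dimension, regular elements on modules -/

set_option autoImplicit false

open Matrix RingTheory.Sequence IsLocalRing Pointwise

universe u v w

namespace Pool.Agent.DQ

variable {R : Type u} [CommRing R] {n : ℕ → ℕ} {B : ∀ k, Matrix (Fin (n (k + 1))) (Fin (n k)) R}

theorem vecMul_mem {I : Ideal R} {p q : ℕ} {v : Fin p → R} (h : ∀ i, v i ∈ I)
    (A : Matrix (Fin p) (Fin q) R) (j : Fin q) : (v ᵥ* A) j ∈ I := by
  simp only [Matrix.vecMul, dotProduct]
  exact Ideal.sum_mem _ fun k _ => Ideal.mul_mem_right _ _ (h k)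

theorem exists_mul_matrix {p q r : ℕ} {A : Matrix (Fin q) (Fin p) R} {C : Matrix (Fin q) (Fin r) R}
    (h : ∀ i, ∃ u : Fin p → R, A *ᵥ u = fun k => C k i) :
    ∃ S : Matrix (Fin p) (Fin r) R, A * S = C := by
  choose u hu using h
  refine ⟨Matrix.of fun i j => u j i, ?_⟩
  ext i j
  have := congrFun (hu j) i
  rw [← this]
  rfl

/-- one step of the descent of a splitting along an exact dual complex -/
theorem VN.of_succ {j : ℕ} (h : VN (B (j + 1))) (h0 : B (j + 1) * B j = 0) (hj : ExN n B R j) :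
    ∃ (S : Matrix (Fin (n (j + 1))) (Fin (n (j + 2))) R)
      (T : Matrix (Fin (n j)) (Fin (n (j + 1))) R), B j * T + S * B (j + 1) = 1 ∧
        B j * T * B j = B j := by
  obtain ⟨S, hS⟩ := h
  obtain ⟨T, hT⟩ : ∃ T : Matrix (Fin (n j)) (Fin (n (j + 1))) R, B j * T = 1 - S * B (j + 1) := by
    apply exists_mul_matrix
    intro i
    have h1 : B (j + 1) * (1 - S * B (j + 1)) = 0 := by
      rw [Matrix.mul_sub, Matrix.mul_one, ← Matrix.mul_assoc, hS, sub_self]
    apply exN_iff.1 hj
    funext k
    exact congrFun (congrFun h1 k) i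
  refine ⟨S, T, by rw [hT]; abel, ?_⟩
  rw [hT, Matrix.sub_mul, Matrix.one_mul, Matrix.mul_assoc, h0, Matrix.mul_zero, sub_zero]

/-- a module of infinite grade with a finite resolution vanishes -/
theorem exists_mul_eq_one (hn : n 0 = 0) (h : ∀ k, B (k + 1) * B k = 0) {l : ℕ}
    (hl : VN (B (l + 1))) (hj : ∀ j ≤ l, ExN n B R j) :
    ∃ S : Matrix (Fin (n 1)) (Fin (n 2)) R, S * B 1 = 1 := by
  induction l with
  | zero =>
    obtain ⟨S, T, h1, -⟩ := hl.of_succ (h 0) (hj 0 le_rfl)
    refine ⟨S, ?_⟩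
    rw [← h1]
    have : B 0 * T = 0 := by
      ext i k
      rw [Matrix.mul_apply]
      refine Finset.sum_eq_zero fun x _ => ?_
      exact absurd x.2 (by omega)
    rw [this]
    exact (zero_add _).symm
  | succ l ih =>
    obtain ⟨S, T, h1, h2⟩ := hl.of_succ (h (l + 1)) (hj (l + 1) le_rfl)
    exact ih ⟨T, h2⟩ fun j hj' => hj j (by omega)

theorem IsRes.eq_zero_of_mul_eq_one {M : Type w} [AddCommGroup M] [Module R M]
    {ε : (Fin (n 1) → R) →ₗ[R] M} (h : IsRes n B ε) {t : R}
    {S : Matrix (Fin (n 1)) (Fin (n 2)) R} (hS : S * B 1 = t • 1) (m : M) : t • m = 0 := by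
  obtain ⟨v, rfl⟩ := h.surj m
  rw [← map_smul, h.ker]
  refine ⟨v ᵥ* S, ?_⟩
  rw [Matrix.vecMul_vecMul, hS, Matrix.vecMul_smul, Matrix.vecMul_one]

/-- an ideal of grade larger than the dimension is the unit ideal -/
theorem GradeGE.eq_top [IsNoetherianRing R] [IsLocalRing R] {xs : List R} (hR : RegLoc R xs)
    {I : Ideal R} (h : GradeGE I (xs.length + 1)) : I = ⊤ := by
  obtain ⟨n, B, ε, hres⟩ := exists_isRes R (R ⧸ I)
  obtain ⟨S, hS⟩ := exists_mul_eq_one hres.zero hres.mul_eq_zero (l := xs.length)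
    (VN.of_regLoc hR (a := 1) (fun k hk => hres.exactAt hk) (by omega)) (by
      intro j hj
      rw [exN_iff]
      intro w hw
      refine hres.exact_dual_of_grade (d := xs.length + 1) ?_ (by omega) w hw
      rwa [Ideal.annihilator_quotient])
  have h1 := hres.eq_zero_of_mul_eq_one (t := 1) (by rw [hS, one_smul]) (Submodule.Quotient.mk 1)
  rw [one_smul, Submodule.Quotient.mk_eq_zero] at h1
  exact Ideal.eq_top_of_isUnit_mem _ h1 isUnit_one

theorem mk_mem_ofList_iff {x : R} {rs : List R} {b : R} :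
    Ideal.Quotient.mk (Ideal.span {x}) b ∈
      Ideal.ofList (rs.map (Ideal.Quotient.mk (Ideal.span {x}))) ↔ b ∈ Ideal.ofList (x :: rs) := by
  rw [← Ideal.map_ofList, ← Ideal.mem_comap, Ideal.comap_map_of_surjective _
    Ideal.Quotient.mk_surjective, ← RingHom.ker_eq_comap_bot, Ideal.mk_ker,
    Ideal.ofList_cons, sup_comm]

/-- descent of socle elements along a regular sequence (`Tor_s(M, R / (rs)) = Hom(R / (rs), M)`) -/
theorem tor_descent (rs : List R) (hrs : IsWeaklyRegular R rs) (𝔪 : Ideal R) (a : ℕ)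
    (hex : ∀ k, a + 1 ≤ k → ExactAt n B k) (h0 : B (a + 1) * B a = 0) (m : ℕ)
    (hm : m = a + rs.length) (w : Fin (n (m + 1)) → R)
    (h1 : ¬ ∃ u, ∀ i, (w - u ᵥ* B (m + 1)) i ∈ Ideal.ofList rs)
    (h2 : ∀ r ∈ 𝔪, ∃ u, ∀ i, (r • w - u ᵥ* B (m + 1)) i ∈ Ideal.ofList rs)
    (h3 : ∀ i, (w ᵥ* B m) i ∈ Ideal.ofList rs) :
    ∃ z : Fin (n (a + 1)) → R, (¬ ∃ u, u ᵥ* B (a + 1) = z) ∧
      (∀ r ∈ 𝔪, ∃ u, u ᵥ* B (a + 1) = r • z) ∧ z ᵥ* B a = 0 := by
  induction hl : rs.length generalizing R rs 𝔪 a m with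
  | zero =>
    obtain rfl : rs = [] := List.length_eq_zero_iff.1 hl
    obtain rfl : m = a := by simpa using hm
    refine ⟨w, ?_, ?_, ?_⟩
    · rintro ⟨u, hu⟩
      exact h1 ⟨u, fun i => by rw [hu, sub_self]; exact zero_mem _⟩
    · intro r hr
      obtain ⟨u, hu⟩ := h2 r hr
      refine ⟨u, ?_⟩
      funext i
      have := hu i
      rw [Ideal.ofList_nil, Ideal.mem_bot, Pi.sub_apply, sub_eq_zero] at this
      exact this.symm
    · funext i
      simpa using h3 i
  | succ l ih =>
    cases rs with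
    | nil => exact absurd hl (by simp)
    | cons x rs =>
      have hx : IsSMulRegular R x := ((isWeaklyRegular_cons_iff _ _ _).1 hrs).1
      obtain ⟨z', hz1, hz2, hz3⟩ := ih
        (B := fun k => (B k).map (Ideal.Quotient.mk (Ideal.span {x})))
        (rs.map (Ideal.Quotient.mk (Ideal.span {x})))
        ((isWeaklyRegular_quot_iff rs).2 ((isWeaklyRegular_cons_iff _ _ _).1 hrs).2)
        (𝔪.map (Ideal.Quotient.mk (Ideal.span {x}))) (a + 1)
        (by
          intro k hk
          obtain ⟨k, rfl⟩ : ∃ k', k = k' + 1 := ⟨k - 1, by omega⟩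
          exact ExactAt.quot hx (hex k (by omega)) (hex (k + 1) (by omega)))
        (by
          rw [← Matrix.map_mul, (hex (a + 1) le_rfl).mul_eq_zero, Matrix.map_zero _ (map_zero _)])
        m (by simp only [List.length_cons, List.length_map] at hm ⊢; omega)
        (fun i => Ideal.Quotient.mk (Ideal.span {x}) (w i))
        (by
          rintro ⟨u', hu'⟩
          obtain ⟨u, rfl⟩ := exists_lift_vec (Ideal.Quotient.mk (Ideal.span {x}))
            Ideal.Quotient.mk_surjective u'
          refine h1 ⟨u, fun i => ?_⟩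
          have := hu' i
          rw [map_vecMul'] at this
          rw [← mk_mem_ofList_iff]
          simpa using this)
        (by
          intro r' hr'
          obtain ⟨r, hr, rfl⟩ := (Ideal.mem_map_iff_of_surjective _
            Ideal.Quotient.mk_surjective).1 hr'
          obtain ⟨u, hu⟩ := h2 r hr
          refine ⟨fun i => Ideal.Quotient.mk (Ideal.span {x}) (u i), fun i => ?_⟩
          have := hu i
          rw [← mk_mem_ofList_iff] at this
          rw [map_vecMul']
          simpa using this)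
        (by
          intro i
          rw [map_vecMul', mk_mem_ofList_iff]
          exact h3 i)
        (by simpa using hl)
      obtain ⟨z1, rfl⟩ := exists_lift_vec (Ideal.Quotient.mk (Ideal.span {x}))
        Ideal.Quotient.mk_surjective z'
      rw [map_vecMul'] at hz3
      obtain ⟨z, hz⟩ := exists_smul_of_quot (x := x) (v := z1 ᵥ* B (a + 1)) (v' := 0)
        (fun i => by simpa using congrFun hz3 i)
      rw [zero_add] at hz
      refine ⟨z, ?_, ?_, ?_⟩
      · rintro ⟨u, rfl⟩
        have h4 : (z1 - x • u) ᵥ* B (a + 1) = 0 := by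
          rw [Matrix.sub_vecMul, Matrix.smul_vecMul, hz, sub_self]
        obtain ⟨u2, hu2⟩ := (hex (a + 1) le_rfl _).1 h4
        refine hz1 ⟨fun i => Ideal.Quotient.mk (Ideal.span {x}) (u2 i), ?_⟩
        rw [map_vecMul', hu2]
        funext i
        rw [Ideal.Quotient.eq]
        simp only [Pi.sub_apply, Pi.smul_apply, smul_eq_mul]
        rw [show z1 i - x * u i - z1 i = (-u i) * x by ring]
        exact Ideal.mul_mem_left _ _ (Ideal.subset_span rfl)
      · intro r hr
        obtain ⟨u', hu'⟩ := hz2 (Ideal.Quotient.mk _ r) (Ideal.mem_map_of_mem _ hr)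
        obtain ⟨u, rfl⟩ := exists_lift_vec (Ideal.Quotient.mk (Ideal.span {x}))
          Ideal.Quotient.mk_surjective u'
        rw [map_vecMul'] at hu'
        obtain ⟨w', hw'⟩ := exists_smul_of_quot (x := x) (v := r • z1)
          (v' := u ᵥ* B (a + 1 + 1)) (fun i => by simpa using (congrFun hu' i).symm)
        have h5 : r • (z1 ᵥ* B (a + 1)) = x • (w' ᵥ* B (a + 1)) := by
          rw [← Matrix.smul_vecMul, hw', Matrix.add_vecMul, Matrix.vecMul_vecMul,
            (hex (a + 1) le_rfl).mul_eq_zero, vecMul_zero, zero_add, Matrix.smul_vecMul]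
        refine ⟨w', smul_cancel hx ?_⟩
        rw [← h5, hz, smul_comm]
      · apply smul_cancel hx
        rw [← Matrix.smul_vecMul, ← hz, Matrix.vecMul_vecMul, h0, vecMul_zero, smul_zero]

/-! ### a regular element on `M` raises the grade -/

theorem ExN.loc (p : Ideal R) [p.IsPrime] {j : ℕ} (h : ExN n B R j) :
    ExN n (locB p B) (Localization.AtPrime p) j := by
  rw [exN_iff] at h ⊢
  intro w' hw'
  obtain ⟨b, w, hb, hw⟩ := exists_clear p w'
  have hmap : ∀ {q r : ℕ} (A : Matrix (Fin q) (Fin r) R) (v : Fin r → R),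
      A.map (algebraMap R (Localization.AtPrime p)) *ᵥ (fun i => algebraMap R _ (v i)) =
        fun i => algebraMap R (Localization.AtPrime p) ((A *ᵥ v) i) := by
    intro q r A v
    funext i
    simp [Matrix.mulVec, dotProduct]
  have h2 : (fun i => algebraMap R (Localization.AtPrime p) (w i)) =
      algebraMap R (Localization.AtPrime p) b • w' := by
    funext i
    rw [← hw i]
    rfl
  obtain ⟨c, hc, hcw⟩ := exists_kill_vec p (B (j + 1) *ᵥ w) (by
    intro i
    have h1 := congrFun (hmap (B (j + 1)) w) i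
    rw [← h1, h2, Matrix.mulVec_smul, hw', smul_zero]
    rfl)
  obtain ⟨u, hu⟩ := h (c • w) (by
    rw [Matrix.mulVec_smul]
    funext i
    exact hcw i)
  obtain ⟨d, hd⟩ := (isUnit_of_notMem p hb).mul (isUnit_of_notMem p hc)
  refine ⟨((d⁻¹ : (Localization.AtPrime p)ˣ) : Localization.AtPrime p) •
    (fun i => algebraMap R _ (u i)), ?_⟩
  rw [Matrix.mulVec_smul, hmap, hu]
  funext i
  simp only [Pi.smul_apply, smul_eq_mul, map_mul]
  rw [← hw i, ← mul_assoc (algebraMap R _ c), mul_comm (algebraMap R _ c), ← hd, ← mul_assoc,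
    Units.inv_mul, one_mul]

/-- a local complex which is exact modulo `m` at the place `0` comes from the zero module -/
theorem PAt.zero_eq_one [IsLocalRing R] (hn : n 0 = 0) (hP : PAt n B 0) (h1 : VN (B 1)) :
    ∃ S : Matrix (Fin (n 1)) (Fin (n 2)) R, S * B 1 = 1 := by
  classical
  obtain ⟨S, hS⟩ := h1
  refine ⟨S, ?_⟩
  let e : Matrix (Fin (n 1)) (Fin (n 1)) R := 1 - S * B 1
  have h2 : B 1 * e = 0 := by
    simp only [e]
    rw [Matrix.mul_sub, Matrix.mul_one, ← Matrix.mul_assoc, hS, sub_self]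
  have h3 : ∀ i j, e i j ∈ maximalIdeal R := by
    intro i j
    obtain ⟨u, hu⟩ := hP (Pi.single i 1) fun k => absurd k.2 (by omega)
    have h4 : e i = (Pi.single i 1 - u ᵥ* B 1) ᵥ* e := by
      rw [Matrix.sub_vecMul, Matrix.vecMul_vecMul]
      have h5 : u ᵥ* (B 1 * e) = 0 := by rw [h2, vecMul_zero]
      rw [h5, sub_zero, Matrix.single_one_vecMul]
      rfl
    rw [h4]
    exact vecMul_mem hu e j
  have h5 : IsUnit (S * B 1).det := by
    have h6 : residue R (S * B 1).det = 1 := by
      have h7 : (residue R).mapMatrix (S * B 1) = 1 := by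
        have h8 : S * B 1 = 1 - e := by simp only [e]; abel
        rw [h8]
        ext i j
        have h9 : residue R (e i j) = 0 := (residue_eq_zero_iff _).2 (h3 i j)
        rw [RingHom.mapMatrix_apply, Matrix.map_apply, Matrix.sub_apply, map_sub, h9, sub_zero,
          Matrix.one_apply, Matrix.one_apply]
        split_ifs <;> simp
      rw [RingHom.map_det, h7, Matrix.det_one]
    by_contra hn
    have h4 : (S * B 1).det ∈ maximalIdeal R := (mem_maximalIdeal _).2 hn
    rw [← residue_eq_zero_iff, h6] at h4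
    exact one_ne_zero h4
  have h6 : e * (S * B 1) = 0 := by
    have h8 : S * B 1 = 1 - e := by simp only [e]; abel
    have h9 : S * B 1 * e = 0 := by rw [Matrix.mul_assoc, h2, Matrix.mul_zero]
    rw [h8] at h9 ⊢
    rw [Matrix.sub_mul, Matrix.one_mul] at h9
    rw [Matrix.mul_sub, Matrix.mul_one]
    exact h9
  have h7 : e = 0 := by
    have := congrArg (· * (S * B 1)⁻¹) h6
    simp only [Matrix.zero_mul] at this
    rwa [Matrix.mul_assoc, Matrix.mul_nonsing_inv _ h5, Matrix.mul_one] at this
  simp only [e] at h7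
  exact (sub_eq_zero.1 h7).symm

/-- If `f` is regular on `M` then the grade of `Ann M + (f)` is larger than the grade of
`Ann M`. -/
theorem IsRes.grade_sup_span [IsNoetherianRing R] {M : Type w} [AddCommGroup M] [Module R M]
    {ε : (Fin (n 1) → R) →ₗ[R] M} (h : IsRes n B ε) {l : ℕ} (hl1 : 1 ≤ l) (hl : VN (B l)) {c : ℕ}
    (hc : GradeGE (Module.annihilator R M) c) {f : R} (hf : IsSMulRegular M f) :
    GradeGE (Module.annihilator R M ⊔ Ideal.span {f}) (c + 1) := by
  rcases gradeGE_or_exists_prime (Module.annihilator R M ⊔ Ideal.span {f}) (c + 1) with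
    h' | ⟨rs, p, y, h1, h2, h3, h4, h5, h6, h7⟩
  · exact h'
  exfalso
  have hex : ∀ k, 1 ≤ k → ExactAt n B k := fun k hk => h.exactAt hk
  have hexp : ∀ k, 1 ≤ k → ExactAt n (locB p B) k := fun k hk => (hex k hk).loc p
  have hvn : ∀ k, rs.length < k → VN (locB p B k) := fun k hk => vn_loc h3 h7 hex hl1 hl hk
  obtain ⟨g1, g2, g3, g4⟩ := loc_depth p h3 h7
  have hzero : ∀ k, locB p B (k + 1) * locB p B k = 0 := by
    intro k
    rw [← Matrix.map_mul, h.mul_eq_zero, Matrix.map_zero _ (map_zero _)]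
  have hexN : ∀ j < c, ExN n (locB p B) (Localization.AtPrime p) j := fun j hj =>
    (exN_iff.2 fun w hw => h.exact_dual_of_grade hc hj w hw).loc p
  -- the localised module does not vanish
  have hne : ¬ ∃ S : Matrix (Fin (n 1)) (Fin (n 2)) (Localization.AtPrime p),
      S * locB p B 1 = 1 := by
    rintro ⟨S, hS⟩
    obtain ⟨t, T, T', ht, hT⟩ := exists_notMem_of_homotopy (B := B) p (j := 0) ⟨0, S, by
      rw [Matrix.mul_zero]
      exact (zero_add _).trans hS⟩
    have h0 : B 0 * T = 0 := by
      have := h.zero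
      ext i k
      rw [Matrix.mul_apply]
      refine Finset.sum_eq_zero fun x _ => ?_
      exact absurd x.2 (by omega)
    rw [h0] at hT
    have hT' : T' * B 1 = t • 1 := (zero_add _).symm.trans hT
    exact ht (h5 (Ideal.mem_sup_left (Module.mem_annihilator.2 (h.eq_zero_of_mul_eq_one hT'))))
  have hs : rs.length = c := by
    by_contra hs
    exact hne (exists_mul_eq_one h.zero hzero (l := rs.length) (hvn _ (by omega))
      fun j hj => hexN j (by omega))
  have hP : ¬ PAt n (locB p B) c := by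
    intro hP
    rcases Nat.eq_zero_or_pos c with hc0 | hc0
    · subst hc0
      exact hne (hP.zero_eq_one h.zero (hvn 1 (by omega)))
    · obtain ⟨c', rfl⟩ : ∃ c', c = c' + 1 := ⟨c - 1, by omega⟩
      exact hne (exists_mul_eq_one h.zero hzero (l := c') (hP.vn (hexp _ (by omega)))
        fun j hj => hexN j (by omega))
  unfold PAt at hP
  push Not at hP
  obtain ⟨v, hv, hv'⟩ := hP
  obtain ⟨S, hS⟩ := hvn (c + 1) (by omega)
  obtain ⟨z, hz1, hz2, -⟩ := tor_descent (B := locB p B)
    (rs.map (algebraMap R (Localization.AtPrime p))) g1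
    (maximalIdeal (Localization.AtPrime p)) 0 (fun k hk => hexp k (by omega)) (hzero 0) c
    (by simp [hs]) (algebraMap R (Localization.AtPrime p) y • v)
    (by
      rintro ⟨u, hu⟩
      obtain ⟨i, hi⟩ := hv' (v ᵥ* S)
      let e : Matrix (Fin (n (c + 1))) (Fin (n (c + 1))) (Localization.AtPrime p) :=
        1 - S * locB p B (c + 1)
      have he : locB p B (c + 1) * e = 0 := by
        simp only [e]
        rw [Matrix.mul_sub, Matrix.mul_one, ← Matrix.mul_assoc, hS, sub_self]
      have h8 : ((algebraMap R (Localization.AtPrime p) y • v - u ᵥ* locB p B (c + 1)) ᵥ* e) i ∈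
          Ideal.ofList (rs.map (algebraMap R (Localization.AtPrime p))) :=
        vecMul_mem hu e i
      rw [Matrix.sub_vecMul, Matrix.vecMul_vecMul, he, vecMul_zero, sub_zero, Matrix.smul_vecMul,
        Pi.smul_apply, smul_eq_mul] at h8
      have h9 : (v ᵥ* e) i = v i - (v ᵥ* S ᵥ* locB p B (c + 1)) i := by
        simp only [e]
        rw [Matrix.vecMul_sub, Matrix.vecMul_one, Matrix.vecMul_vecMul]
        rfl
      rw [h9] at h8
      rw [mem_maximalIdeal, mem_nonunits_iff, not_not] at hi
      exact g3 ((Ideal.mul_unit_mem_iff_mem _ hi).1 h8))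
    (by
      intro r hr
      refine ⟨0, fun i => ?_⟩
      rw [Matrix.zero_vecMul, sub_zero, Pi.smul_apply, Pi.smul_apply, smul_eq_mul, smul_eq_mul,
        ← mul_assoc]
      exact Ideal.mul_mem_right _ _ (g4 r hr))
    (by
      intro i
      rw [Matrix.smul_vecMul, Pi.smul_apply, smul_eq_mul, mul_comm]
      exact g4 _ (hv i))
  have hfp : f ∈ p := h5 (Ideal.mem_sup_right (Ideal.subset_span rfl))
  obtain ⟨u, hu⟩ := hz2 (algebraMap R _ f)
    ((IsLocalization.AtPrime.to_map_mem_maximal_iff (Localization.AtPrime p) p _).2 hfp)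
  obtain ⟨b, z0, hb, hbz⟩ := exists_clear p z
  obtain ⟨b', u0, hb', hbu⟩ := exists_clear p u
  have h2 : (fun i => algebraMap R (Localization.AtPrime p) (u0 i)) =
      algebraMap R (Localization.AtPrime p) b' • u := by
    funext i
    rw [← hbu i]
    rfl
  obtain ⟨c', hc', hc''⟩ := exists_eq_of_map_eq p (fun i => (f * b') * z0 i)
    (fun i => b * (u0 ᵥ* B 1) i) (by
      intro i
      have h8 := congrFun (map_vecMul' (algebraMap R (Localization.AtPrime p)) (B 1) u0) i
      rw [map_mul _ b, ← h8, h2, Matrix.smul_vecMul]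
      have h9 : u ᵥ* (B 1).map (algebraMap R (Localization.AtPrime p)) =
          algebraMap R (Localization.AtPrime p) f • z := hu
      rw [h9, map_mul, map_mul, ← hbz i]
      simp only [Pi.smul_apply, smul_eq_mul]
      ring)
  have h8 : f • ε ((c' * b') • z0) = 0 := by
    rw [← map_smul, h.ker]
    refine ⟨(c' * b) • u0, ?_⟩
    rw [Matrix.smul_vecMul]
    funext i
    have := hc'' i
    simp only [Pi.smul_apply, smul_eq_mul]
    rw [mul_assoc, ← this]
    ring
  have h9 : ε ((c' * b') • z0) = 0 := hf.right_eq_zero_of_smul h8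
  obtain ⟨u1, hu1⟩ := (h.ker _).1 h9
  obtain ⟨d, hd⟩ := ((isUnit_of_notMem p hc').mul (isUnit_of_notMem p hb')).mul
    (isUnit_of_notMem p hb)
  refine hz1 ⟨((d⁻¹ : (Localization.AtPrime p)ˣ) : Localization.AtPrime p) •
    (fun i => algebraMap R _ (u1 i)), ?_⟩
  rw [Matrix.smul_vecMul]
  refine (congrArg _ (map_vecMul' (algebraMap R (Localization.AtPrime p)) (B 1) u1)).trans ?_
  rw [hu1]
  funext i
  simp only [Pi.smul_apply, smul_eq_mul, map_mul]
  rw [← hbz i, ← mul_assoc (_ * _), ← hd, ← mul_assoc, Units.inv_mul, one_mul]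

end Pool.Agent.DQ
end

section

/-! # DQ, module HA2: systems of parameters, slices, monic polynomials -/

set_option autoImplicit false

open Matrix RingTheory.Sequence IsLocalRing Pointwise

universe u v w

namespace Pool.Agent.DQ

variable {R : Type u} [CommRing R]

theorem RegLoc.gradeGE [IsLocalRing R] {xs : List R} (hR : RegLoc R xs) :
    GradeGE (maximalIdeal R) xs.length := ⟨xs, rfl, fun _ hx => hR.mem hx, hR.reg⟩

/-- an ideal whose grade is the dimension contains a power of the maximal ideal -/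
theorem GradeGE.maximalIdeal_le_radical [IsNoetherianRing R] [IsLocalRing R] {xs : List R}
    (hR : RegLoc R xs) {I : Ideal R} (h : GradeGE I xs.length) : maximalIdeal R ≤ I.radical := by
  rw [Ideal.radical_eq_sInf]
  refine le_sInf fun p hp => ?_
  obtain ⟨hIp, hp⟩ := hp
  by_contra hle
  obtain ⟨f, hf, hfp⟩ := SetLike.not_le_iff_exists.1 hle
  obtain ⟨n, B, ε, hres⟩ := exists_isRes R (R ⧸ p)
  have hreg : IsSMulRegular (R ⧸ p) f := by
    rw [isSMulRegular_quotient_iff_mem_of_smul_mem]
    intro x hx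
    exact (hp.mem_or_mem hx).resolve_left hfp
  have h1 := hres.grade_sup_span (l := 1 + xs.length) (by omega)
    (VN.of_regLoc hR (a := 1) (fun k hk => hres.exactAt hk) le_rfl) (c := xs.length)
    (by rw [Ideal.annihilator_quotient]; exact h.mono hIp le_rfl) hreg
  rw [Ideal.annihilator_quotient] at h1
  have h2 := h1.eq_top hR
  have h3 : p ⊔ Ideal.span {f} ≤ maximalIdeal R :=
    sup_le (le_maximalIdeal hp.ne_top) ((Ideal.span_singleton_le_iff_mem _).2 hf)
  rw [h2, top_le_iff] at h3
  exact (maximalIdeal.isMaximal R).ne_top h3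

theorem GradeGE.exists_pow_le [IsNoetherianRing R] [IsLocalRing R] {xs : List R}
    (hR : RegLoc R xs) {I : Ideal R} (h : GradeGE I xs.length) :
    ∃ k : ℕ, maximalIdeal R ^ k ≤ I :=
  Ideal.exists_pow_le_of_le_radical_of_fg (h.maximalIdeal_le_radical hR)
    ((isNoetherianRing_iff_ideal_fg R).1 inferInstance _)

/-- slice lemma -/
theorem GradeGE.slice [IsNoetherianRing R] [IsLocalRing R] {xs : List R}
    (hR : RegLoc R xs) {I : Ideal R} {c : ℕ} (hI : GradeGE I c) (hc : c < xs.length) :
    ∃ P : Set (Ideal R), P.Finite ∧ (∀ p ∈ P, p.IsPrime ∧ p ≠ maximalIdeal R) ∧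
      ∀ f : R, (∀ p ∈ P, f ∉ p) → GradeGE (I ⊔ Ideal.span {f}) (c + 1) := by
  obtain ⟨rs, h1, h2, h3⟩ := hI
  let K : Submodule R R := Ideal.ofList rs • ⊤
  have hK : K = Ideal.ofList rs := by simp [K]
  refine ⟨associatedPrimes R (R ⧸ K), associatedPrimes.finite R _, ?_, ?_⟩
  · intro p hp
    refine ⟨IsAssociatedPrime.isPrime hp, ?_⟩
    rintro rfl
    obtain ⟨x, hx, hx'⟩ := hR.gradeGE.extend rs h3 (by omega)
    have h4 := (isWeaklyRegular_singleton_iff _ _).1 ((isWeaklyRegular_append_iff _ _ _).1 hx').2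
    have h5 : x ∈ ⋃ p ∈ associatedPrimes R (R ⧸ K), (p : Set R) := by
      simp only [Set.mem_iUnion]
      exact ⟨_, hp, hx⟩
    rw [biUnion_associatedPrimes_eq_compl_regular R (R ⧸ K)] at h5
    exact h5 h4
  · intro f hf
    rw [GradeGE.succ_iff]
    refine ⟨rs, h1, fun r hr => Ideal.mem_sup_left (h2 r hr), h3, f,
      Ideal.mem_sup_right (Ideal.subset_span rfl), ?_⟩
    rw [isWeaklyRegular_append_iff]
    refine ⟨h3, (isWeaklyRegular_singleton_iff _ _).2 ?_⟩
    by_contra hcon
    have h5 : f ∈ ⋃ p ∈ associatedPrimes R (R ⧸ K), (p : Set R) := by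
      rw [biUnion_associatedPrimes_eq_compl_regular R (R ⧸ K)]
      exact hcon
    simp only [Set.mem_iUnion] at h5
    obtain ⟨p, hp, hfp⟩ := h5
    exact hf p hp hfp

/-- one generator less, grade at most one less -/
theorem GradeGE.of_sup_span [IsNoetherianRing R] [IsLocalRing R] {J : Ideal R} {b : R}
    (hb : b ∈ maximalIdeal R) {d : ℕ} (h : GradeGE (J ⊔ Ideal.span {b}) (d + 1)) :
    GradeGE J d := by
  rcases gradeGE_or_exists_prime J d with h' | ⟨rs, p, y, h1, h2, h3, h4, h5, h6, h7⟩
  · exact h'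
  exfalso
  obtain ⟨x, hx, hrx⟩ := h.extend rs h3 (by omega)
  obtain ⟨x', hx', hrx'⟩ := h.extend (rs ++ [x]) hrx (by
    rw [List.length_append, List.length_singleton]; omega)
  obtain ⟨j, hj, s, hs, rfl⟩ := Submodule.mem_sup.1 hx
  obtain ⟨r, rfl⟩ := Ideal.mem_span_singleton'.1 hs
  obtain ⟨j', hj', s', hs', rfl⟩ := Submodule.mem_sup.1 hx'
  obtain ⟨r', rfl⟩ := Ideal.mem_span_singleton'.1 hs'
  let K : Ideal R := Ideal.ofList rs
  let H : Ideal R := K.colon (J : Set R)
  have hH : ∀ h, h ∈ H ↔ ∀ a ∈ J, a * h ∈ K := by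
    intro h
    simp only [H]
    rw [Submodule.mem_colon]
    simp [mul_comm]
  have hreg : ∀ z, (j + r * b) * z ∈ K → z ∈ K := fun z hz => mem_ofList_of_regular hrx hz
  have hle : H ≤ K ⊔ maximalIdeal R • H := by
    intro h hh
    rw [hH] at hh
    have h8 : r * h ∈ Ideal.ofList (rs ++ [j + r * b]) := by
      apply mem_ofList_of_regular hrx'
      rw [Ideal.ofList_append, Ideal.ofList_singleton]
      refine Submodule.mem_sup.2 ⟨r * (j' * h) - r' * (j * h),
        sub_mem (Ideal.mul_mem_left _ _ (hh j' hj')) (Ideal.mul_mem_left _ _ (hh j hj)),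
        (r' * h) * (j + r * b), Ideal.mul_mem_left _ _ (Ideal.subset_span rfl), by ring⟩
    rw [Ideal.ofList_append, Ideal.ofList_singleton] at h8
    obtain ⟨k, hk, t, ht, hkt⟩ := Submodule.mem_sup.1 h8
    obtain ⟨g, rfl⟩ := Ideal.mem_span_singleton'.1 ht
    have hg : g ∈ H := by
      rw [hH]
      intro a ha
      apply hreg
      have : (j + r * b) * (a * g) = r * (a * h) - a * k := by
        linear_combination a * hkt
      rw [this]
      exact sub_mem (Ideal.mul_mem_left _ _ (hh a ha)) (Ideal.mul_mem_left _ _ hk)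
    have hbg : b * g - h ∈ K := by
      apply hreg
      have : (j + r * b) * (b * g - h) = -(b * k) - j * h := by
        linear_combination b * hkt
      rw [this]
      exact sub_mem (neg_mem (Ideal.mul_mem_left _ _ hk)) (hh j hj)
    refine Submodule.mem_sup.2 ⟨-(b * g - h), neg_mem hbg, b * g,
      Submodule.smul_mem_smul hb hg, by ring⟩
  have hHK : H ≤ K := Submodule.le_of_le_smul_of_le_jacobson_bot
    ((isNoetherianRing_iff_ideal_fg R).1 inferInstance H) (maximalIdeal_le_jacobson _) hle
  exact h6 (hHK ((hH y).2 fun a ha => (h7 a).1 (h5 ha)))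

/-- elements of the maximal ideal which generate an ideal of maximal possible grade form a regular
sequence -/
theorem isWeaklyRegular_of_gradeGE [IsNoetherianRing R] [IsLocalRing R] (rs : List R)
    (hm : ∀ r ∈ rs, r ∈ maximalIdeal R) (h : GradeGE (Ideal.ofList rs) rs.length) :
    IsWeaklyRegular R rs := by
  induction rs using List.reverseRecOn with
  | nil => simp
  | append_singleton rs b ih =>
    rw [Ideal.ofList_append, Ideal.ofList_singleton, List.length_append, List.length_singleton] at h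
    have h1 := ih (fun r hr => hm r (by simp [hr])) (h.of_sup_span (hm b (by simp)))
    obtain ⟨x, hx, hrx⟩ := h.extend rs h1 (by omega)
    obtain ⟨j, hj, s, hs, rfl⟩ := Submodule.mem_sup.1 hx
    obtain ⟨r, rfl⟩ := Ideal.mem_span_singleton'.1 hs
    have hK : (Ideal.ofList rs • ⊤ : Submodule R R) = Ideal.ofList rs := by simp
    rw [isWeaklyRegular_append_iff]
    refine ⟨h1, (isWeaklyRegular_singleton_iff _ _).2 ?_⟩
    rw [isSMulRegular_quotient_iff_mem_of_smul_mem, hK]
    intro z hz
    apply mem_ofList_of_regular hrx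
    rw [add_mul]
    refine add_mem (Ideal.mul_mem_right _ _ hj) ?_
    rw [mul_assoc]
    exact Ideal.mul_mem_left _ _ hz

theorem GradeGE.exists_extend [IsNoetherianRing R] {I : Ideal R} {d : ℕ} (h : GradeGE I d)
    (rs : List R) (hrs : IsWeaklyRegular R rs) (hlen : rs.length ≤ d) :
    ∃ rs' : List R, (∀ r ∈ rs', r ∈ I) ∧ IsWeaklyRegular R (rs ++ rs') ∧
      (rs ++ rs').length = d := by
  induction hk : d - rs.length generalizing rs with
  | zero => exact ⟨[], by simp, by simpa using hrs, by simp; omega⟩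
  | succ k ih =>
    obtain ⟨x, hx, hrx⟩ := h.extend rs hrs (by omega)
    obtain ⟨rs', h1, h2, h3⟩ := ih (rs ++ [x]) hrx (by simp; omega) (by simp; omega)
    refine ⟨x :: rs', ?_, by simpa using h2, by simpa using h3⟩
    intro r hr
    rcases List.mem_cons.1 hr with rfl | hr
    · exact hx
    · exact h1 r hr

/-- a system of parameters is a regular sequence -/
theorem RegLoc.isWeaklyRegular_of_radical [IsNoetherianRing R] [IsLocalRing R] {xs : List R}
    (hR : RegLoc R xs) (rs : List R) (hlen : rs.length = xs.length)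
    (hm : ∀ r ∈ rs, r ∈ maximalIdeal R) (hrad : ∀ x ∈ xs, x ∈ (Ideal.ofList rs).radical) :
    IsWeaklyRegular R rs := by
  apply isWeaklyRegular_of_gradeGE rs hm
  rw [hlen]
  refine hR.gradeGE.of_radical ?_
  rw [hR.span, Ideal.span_le]
  exact hrad

/-! ### coordinates -/

/-- translation of the usual elementwise form of a regular sequence -/
theorem RegLoc.of_fin [IsLocalRing R] {N : ℕ} (x : Fin N → R)
    (hspan : maximalIdeal R = Ideal.span (Set.range x))
    (hreg : ∀ (i : Fin N) (g : R), x i * g ∈ Ideal.span (x '' {j | j < i}) →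
      g ∈ Ideal.span (x '' {j | j < i})) : RegLoc R (List.ofFn x) := by
  refine ⟨?_, ⟨?_⟩⟩
  · rw [hspan]
    congr 1
    ext r
    simp [List.mem_ofFn]
  · intro i hi
    have hi' : i < N := by simpa using hi
    have hset : {r | r ∈ (List.ofFn x).take i} = x '' {j | j < ⟨i, hi'⟩} := by
      ext r
      constructor
      · intro hr
        obtain ⟨j, hj, rfl⟩ := List.mem_take_iff_getElem.1 hr
        refine ⟨⟨j, by simp at hj; omega⟩, ?_, ?_⟩
        · simp only [Set.mem_ofPred_eq, Fin.mk_lt_mk]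
          omega
        · simp
      · rintro ⟨j, hj, rfl⟩
        have hj' : (j : ℕ) < i := hj
        refine List.mem_take_iff_getElem.2 ⟨j, ?_, ?_⟩
        · simp; omega
        · simp
    have hK : (Ideal.ofList ((List.ofFn x).take i) • ⊤ : Submodule R R) =
        Ideal.span (x '' {j | j < ⟨i, hi'⟩}) := by
      rw [smul_eq_mul, Ideal.mul_top]
      exact congrArg Ideal.span hset
    rw [isSMulRegular_quotient_iff_mem_of_smul_mem, hK]
    intro g hg
    apply hreg ⟨i, hi'⟩ g
    simpa using hg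

/-! ### monic polynomials -/

theorem exists_monic_list [IsLocalRing R] (ts vs : List R)
    (hm : ∀ r ∈ ts ++ vs, r ∈ maximalIdeal R) (I : Ideal R)
    (hI : ∀ v ∈ vs, ∃ f ∈ I, ∃ (c : Rˣ) (l : ℕ), f - (c : R) * v ^ l ∈ Ideal.ofList ts) :
    I = ⊤ ∨ ∃ fs : List R, fs.length = vs.length ∧ (∀ f ∈ fs, f ∈ I) ∧
      (∀ f ∈ fs, f ∈ maximalIdeal R) ∧
      ∀ v ∈ vs, v ∈ (Ideal.ofList fs ⊔ Ideal.ofList ts).radical := by
  induction vs with
  | nil => exact Or.inr ⟨[], rfl, by simp, by simp, by simp⟩
  | cons v vs ih =>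
    have hts : Ideal.ofList ts ≤ maximalIdeal R := by
      rw [Ideal.span_le]
      intro r hr
      exact hm r (List.mem_append_left _ hr)
    rcases ih (fun r hr => hm r (by
      rcases List.mem_append.1 hr with h | h
      · exact List.mem_append_left _ h
      · exact List.mem_append_right _ (List.mem_cons_of_mem _ h)))
      (fun v hv => hI v (List.mem_cons_of_mem _ hv)) with h | ⟨fs, h1, h2, h3, h4⟩
    · exact Or.inl h
    · obtain ⟨f, hf, c, l, hc⟩ := hI v List.mem_cons_self
      rcases Nat.eq_zero_or_pos l with hl | hl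
      · left
        subst hl
        rw [pow_zero, mul_one] at hc
        apply Ideal.eq_top_of_isUnit_mem _ hf
        by_contra hn
        have h5 : f ∈ maximalIdeal R := (mem_maximalIdeal _).2 hn
        have h6 : (c : R) ∈ maximalIdeal R := by
          have := sub_mem h5 (hts hc)
          simpa using this
        exact (mem_maximalIdeal _).1 h6 c.isUnit
      · right
        have hv : v ∈ maximalIdeal R := hm v (by simp)
        refine ⟨f :: fs, by simp [h1], ?_, ?_, ?_⟩
        · intro g hg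
          rcases List.mem_cons.1 hg with rfl | hg
          · exact hf
          · exact h2 g hg
        · intro g hg
          rcases List.mem_cons.1 hg with rfl | hg
          · have h5 : (c : R) * v ^ l ∈ maximalIdeal R :=
              Ideal.mul_mem_left _ _ (Ideal.pow_mem_of_mem _ hv l hl)
            have := add_mem (hts hc) h5
            simpa using this
          · exact h3 g hg
        · have hle : Ideal.ofList fs ⊔ Ideal.ofList ts ≤
              Ideal.ofList (f :: fs) ⊔ Ideal.ofList ts := by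
            rw [Ideal.ofList_cons]
            exact sup_le_sup le_sup_right le_rfl
          intro w hw
          rcases List.mem_cons.1 hw with rfl | hw
          · have h5 : f ∈ Ideal.ofList (f :: fs) ⊔ Ideal.ofList ts :=
              Ideal.mem_sup_left (Ideal.subset_span List.mem_cons_self)
            have h6 : (c : R) * w ^ l ∈ Ideal.ofList (f :: fs) ⊔ Ideal.ofList ts := by
              have := sub_mem h5 (Ideal.mem_sup_right hc)
              simpa using this
            refine ⟨l, ?_⟩
            have := Ideal.mul_mem_left _ ((c⁻¹ : Rˣ) : R) h6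
            simpa using this
          · exact Ideal.radical_mono hle (h4 w hw)

/-- monic polynomials in different variables -/
theorem gradeGE_monic [IsNoetherianRing R] [IsLocalRing R] (ts vs : List R)
    (hR : RegLoc R (ts ++ vs)) (I : Ideal R)
    (hI : ∀ v ∈ vs, ∃ f ∈ I, ∃ (c : Rˣ) (l : ℕ), f - (c : R) * v ^ l ∈ Ideal.ofList ts) :
    GradeGE I vs.length := by
  rcases exists_monic_list ts vs (fun r hr => hR.mem hr) I hI with h | ⟨fs, h1, h2, h3, h4⟩
  · exact GradeGE.of_top h _
  · have h5 : IsWeaklyRegular R (fs ++ ts) := by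
      refine hR.isWeaklyRegular_of_radical _ (by simp [h1]; omega) ?_ ?_
      · intro r hr
        rcases List.mem_append.1 hr with h | h
        · exact h3 r h
        · exact hR.mem (List.mem_append_left _ h)
      · intro x hx
        rw [Ideal.ofList_append]
        rcases List.mem_append.1 hx with h | h
        · exact Ideal.le_radical (Ideal.mem_sup_right (Ideal.subset_span h))
        · exact h4 x h
    exact ⟨fs, h1, h2, ((isWeaklyRegular_append_iff _ _ _).1 h5).1⟩

/-- monic polynomials in different variables and an element of the base ring -/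
theorem gradeGE_monic_sup [IsNoetherianRing R] [IsLocalRing R] {R' : Type v} [CommRing R']
    [IsNoetherianRing R'] [IsLocalRing R'] (φ : R' →+* R) (ts : List R') (vs : List R)
    (hR' : RegLoc R' ts) (hR : RegLoc R (ts.map φ ++ vs)) (I : Ideal R)
    (hI : ∀ v ∈ vs, ∃ f ∈ I, ∃ (c : Rˣ) (l : ℕ),
      f - (c : R) * v ^ l ∈ Ideal.ofList (ts.map φ))
    {a : R'} (ha : IsSMulRegular R' a) :
    GradeGE (I ⊔ Ideal.span {φ a}) (vs.length + 1) := by
  by_cases hau : IsUnit a
  · have h0 : φ a ∈ I ⊔ Ideal.span {φ a} :=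
      Ideal.mem_sup_right (Ideal.mem_span_singleton_self _)
    exact GradeGE.of_top (Ideal.eq_top_of_isUnit_mem _ h0 (hau.map φ)) _
  rcases exists_monic_list (ts.map φ) vs (fun r hr => hR.mem hr) I hI with
    h | ⟨fs, h1, h2, h3, h4⟩
  · have h0 : I ⊔ Ideal.span {φ a} = ⊤ := by rw [h]; exact top_sup_eq _
    exact GradeGE.of_top h0 _
  have ham : a ∈ maximalIdeal R' := (mem_maximalIdeal _).2 hau
  have hts : 1 ≤ ts.length := by
    by_contra hcon
    have : ts = [] := List.length_eq_zero_iff.1 (by omega)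
    subst this
    rw [hR'.span, Ideal.ofList_nil, Ideal.mem_bot] at ham
    subst ham
    have := ha (show (0 : R') • (1 : R') = (0 : R') • (0 : R') by simp)
    exact one_ne_zero this
  obtain ⟨as, h5, h6, h7⟩ := hR'.gradeGE.exists_extend [a]
    ((isWeaklyRegular_singleton_iff _ _).2 ha) (by simpa using hts)
  have h8 : GradeGE (Ideal.ofList ([a] ++ as)) ts.length :=
    ⟨[a] ++ as, h7, fun r hr => Ideal.subset_span hr, h6⟩
  have h9 := h8.maximalIdeal_le_radical hR'
  have h10 : ∀ t ∈ ts, φ t ∈ (Ideal.ofList (([a] ++ as).map φ)).radical := by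
    intro t ht
    obtain ⟨k, hk⟩ := h9 (hR'.mem ht)
    refine ⟨k, ?_⟩
    rw [← map_pow, ← Ideal.map_ofList]
    exact Ideal.mem_map_of_mem _ hk
  have hφm : ∀ t ∈ maximalIdeal R', φ t ∈ maximalIdeal R := by
    intro t ht
    rw [hR'.span] at ht
    have : φ t ∈ (Ideal.ofList ts).map φ := Ideal.mem_map_of_mem _ ht
    rw [Ideal.map_ofList] at this
    refine (Ideal.span_le.2 ?_ : Ideal.ofList (ts.map φ) ≤ maximalIdeal R) this
    intro r hr
    exact hR.mem (List.mem_append_left _ hr)
  have h11 : IsWeaklyRegular R (fs ++ ([a] ++ as).map φ) := by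
    refine hR.isWeaklyRegular_of_radical _ ?_ ?_ ?_
    · rw [List.length_append, List.length_map, h7, List.length_append, List.length_map, h1]
      omega
    · intro r hr
      rcases List.mem_append.1 hr with h | h
      · exact h3 r h
      · obtain ⟨r', hr', rfl⟩ := List.mem_map.1 h
        rcases List.mem_append.1 hr' with h | h
        · rw [List.mem_singleton.1 h]
          exact hφm a ham
        · exact hφm _ (h5 _ h)
    · have h12 : Ideal.ofList (ts.map φ) ≤ (Ideal.ofList (fs ++ ([a] ++ as).map φ)).radical := by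
        rw [Ideal.span_le]
        intro r hr
        obtain ⟨t, ht, rfl⟩ := List.mem_map.1 hr
        refine Ideal.radical_mono ?_ (h10 t ht)
        rw [Ideal.ofList_append fs]
        exact le_sup_right
      intro x hx
      rcases List.mem_append.1 hx with h | h
      · exact h12 (Ideal.subset_span h)
      · have h13 := h4 x h
        rw [← Ideal.radical_idem]
        refine Ideal.radical_mono ?_ h13
        refine sup_le ?_ h12
        rw [Ideal.ofList_append]
        exact le_trans le_sup_left Ideal.le_radical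
  have h12 : IsWeaklyRegular R (fs ++ [φ a]) := by
    rw [List.map_append, List.map_cons, List.map_nil, ← List.append_assoc] at h11
    exact ((isWeaklyRegular_append_iff _ _ _).1 h11).1
  refine ⟨fs ++ [φ a], by simp [h1], ?_, h12⟩
  intro r hr
  rcases List.mem_append.1 hr with h | h
  · exact Ideal.mem_sup_left (h2 r h)
  · rw [List.mem_singleton.1 h]
    exact Ideal.mem_sup_right (Ideal.mem_span_singleton_self _)

end Pool.Agent.DQ
end

section

/-! # DQ, module H: matrices of sections -/

set_option autoImplicit false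

open Set Filter Topology Matrix

universe u v w

namespace Pool.Agent.DQ.H

variable {V : Type u} [NormedAddCommGroup V] [NormedSpace ℂ V] {n : ℕ} [FiniteDimensional ℂ V]
  {𝓐 : Defo.{u, v} V} {M : EMod.{u, v, w} 𝓐.A} {d : ℕ} {K : Set V} {g : ℕ → ℕ}
  {C : ∀ k, Fin (g k) → Fin (g (k + 1)) → (x : V) → 𝓐.A.St x}
  {φ : ∀ x, (Fin (g (d + 1)) → 𝓐.A.St x) → M.St x}

theorem K_sub_dom (h : HType 𝓐 d M K g C φ) : K ⊆ 𝓐.A.dom := fun _ hx => M.dom_sub (h.sub hx)

private theorem RowC_sum (k : ℕ) (x : V) (u : Fin (g k) → 𝓐.A.St x) :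
    u ᵥ* cm 𝓐 C k x = ∑ i, u i • (fun j => C k i j x) := by
  funext j
  rw [Finset.sum_apply]
  rfl

/-- the rows are sections -/
theorem row_on (h : HType 𝓐 d M K g C φ) (k : ℕ) (i : Fin (g k)) :
    (𝓐.A.free (g (k + 1))).On (fun x j => C k i j x) K := by
  exact fun x hx => ⟨K_sub_dom h hx, fun j => h.at_C k i j x hx⟩

/-- the product of a vector of sections and of a matrix of sections

Proof. componentwise finite sums of products of sections (`ERing.mul`, `EMod.comb` for the module `𝓐.A.free _` with `vecMul_eq_sum`, `row_on`). -/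
theorem vecMul_at (h : HType 𝓐 d M K g C φ) (k : ℕ) {u : (x : V) → Fin (g k) → 𝓐.A.St x} {x : V}
    (hx : x ∈ K) (hu : (𝓐.A.free (g k)).At u x) :
    (𝓐.A.free (g (k + 1))).At (fun y => u y ᵥ* cm 𝓐 C k y) x := by
  have h1 := EMod.comb (M := 𝓐.A.free (g (k + 1))) (a := fun i y => u y i)
    (s := fun i y j => C k i j y) (K_sub_dom h hx) (fun i => hu.2 i)
    (fun i => row_on h k i x hx)
  refine EMod.congr _ h1 (Eventually.of_forall fun y => ?_)
  exact (RowC_sum k y (u y)).symm

/-- Proof. `funext j`, `Matrix.vecMul`, `dotProduct`, `Finset.sum_apply`. -/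
theorem vecMul_eq_sum (k : ℕ) (x : V) (u : Fin (g k) → 𝓐.A.St x) :
    u ᵥ* cm 𝓐 C k x = ∑ i, u i • (fun j => C k i j x) := by
  exact RowC_sum k x u

/-- Proof. Induction over `s` (`Finset.induction_on`); `h.φ_smul` with `a = 0` gives `φ x 0 = 0`. -/
theorem φ_sum (h : HType 𝓐 d M K g C φ) {x : V} (hx : x ∈ K) {J : Type*} (s : Finset J)
    (a : J → 𝓐.A.St x) (u : J → Fin (g (d + 1)) → 𝓐.A.St x)
    (hu : ∀ j ∈ s, u j ᵥ* cm 𝓐 C (d + 1) x = 0) :
    φ x (∑ j ∈ s, a j • u j) = ∑ j ∈ s, a j • φ x (u j) := by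
  classical
  have h0 : φ x 0 = 0 := by
    have h1 := h.φ_smul x hx 0 0 (Matrix.zero_vecMul _)
    rwa [zero_smul, zero_smul] at h1
  have hs : ∀ (b : 𝓐.A.St x) (v : Fin (g (d + 1)) → 𝓐.A.St x), v ᵥ* cm 𝓐 C (d + 1) x = 0 →
      (b • v) ᵥ* cm 𝓐 C (d + 1) x = 0 := by
    intro b v hv
    rw [Matrix.smul_vecMul, hv, smul_zero]
  induction s using Finset.induction_on with
  | empty => rw [Finset.sum_empty, Finset.sum_empty, h0]
  | insert j s hj ih =>
    have h2 := hu j (Finset.mem_insert_self _ _)
    have h3 : ∀ k ∈ s, u k ᵥ* cm 𝓐 C (d + 1) x = 0 := fun k hk => hu k (Finset.mem_insert_of_mem hk)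
    have h4 : (∑ k ∈ s, a k • u k) ᵥ* cm 𝓐 C (d + 1) x = 0 := by
      rw [Matrix.sum_vecMul]
      exact Finset.sum_eq_zero fun k hk => hs _ _ (h3 k hk)
    rw [Finset.sum_insert hj, Finset.sum_insert hj, h.φ_add x hx _ _ (hs _ _ h2) h4,
      h.φ_smul x hx _ _ h2, ih h3]

end Pool.Agent.DQ.H
end

section

/-! # DQ, module H: cochains of small degree -/

set_option autoImplicit false

open Set Filter Topology Matrix

universe u v w

namespace Pool.Agent.DQ.H

variable {V : Type u} [NormedAddCommGroup V] [NormedSpace ℂ V] {n : ℕ} [FiniteDimensional ℂ V]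
  {𝓐 : Defo.{u, v} V} {M : EMod.{u, v, w} 𝓐.A} {d : ℕ} {K : Set V} {g : ℕ → ℕ}
  {C : ∀ k, Fin (g k) → Fin (g (k + 1)) → (x : V) → 𝓐.A.St x}
  {φ : ∀ x, (Fin (g (d + 1)) → 𝓐.A.St x) → M.St x}

/-- the sum of the two signs of a set with two elements is zero

Proof. `T = {i, j}` with `i < j` (`Finset.card_eq_two`, `lt_or_gt_of_ne`): `sg i T = 1`, `sg j T = -1`. -/
theorem dC_const_two {ι : Type*} [LinearOrder ι] {G : Type*} [AddCommGroup G] (m : G)
    {T : Finset ι} (hT : T.card = 2) : dC (fun _ => m) T = 0 := by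
  obtain ⟨i, j, hij, rfl⟩ := Finset.card_eq_two.mp hT
  have key : ∀ i j : ι, i < j → dC (fun _ => m) ({i, j} : Finset ι) = 0 := by
    intro i j hij
    have h1 : (({i, j} : Finset ι).filter (· < i)) = ∅ := by
      ext k
      simp only [Finset.mem_filter, Finset.mem_insert, Finset.mem_singleton,
        Finset.notMem_empty, iff_false, not_and]
      rintro (rfl | rfl)
      · exact lt_irrefl _
      · exact hij.le.not_gt
    have h2 : (({i, j} : Finset ι).filter (· < j)) = {i} := by
      ext k
      simp only [Finset.mem_filter, Finset.mem_insert, Finset.mem_singleton]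
      constructor
      · rintro ⟨rfl | rfl, h⟩
        · rfl
        · exact absurd h (lt_irrefl _)
      · rintro rfl
        exact ⟨Or.inl rfl, hij⟩
    unfold dC sg
    rw [Finset.sum_pair hij.ne, h1, h2]
    simp
  rcases lt_or_gt_of_ne hij with h | h
  · exact key i j h
  · rw [Finset.pair_comm]
    exact key j i h

/-- Proof. `sg j {j} = 1`, `Finset.erase_singleton`. -/
theorem dC_single {ι : Type*} [LinearOrder ι] {G : Type*} [AddCommGroup G] (z : Finset ι → G)
    (j : ι) : dC z {j} = z ∅ := by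
  have h1 : (({j} : Finset ι).filter (· < j)) = ∅ := by
    ext k
    simp only [Finset.mem_filter, Finset.mem_singleton, Finset.notMem_empty, iff_false, not_and]
    rintro rfl
    exact lt_irrefl _
  unfold dC sg
  rw [Finset.sum_singleton, h1, Finset.erase_singleton]
  simp

/-- Proof. `dC_map` with `h.φ_add`. -/
theorem φ_dC (h : HType 𝓐 d M K g C φ) {x : V}
    (hx : x ∈ K) {ι : Type*} [LinearOrder ι] (z : Finset ι → Fin (g (d + 1)) → 𝓐.A.St x)
    (T : Finset ι) (hz : ∀ j ∈ T, z (T.erase j) ᵥ* cm 𝓐 C (d + 1) x = 0) :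
    φ x (dC z T) = dC (fun T' => φ x (z T')) T := by
  have h1 := φ_sum h hx T (fun j => ((sg j T : ℤ) : 𝓐.A.St x)) (fun j => z (T.erase j)) hz
  simp only [Int.cast_smul_eq_zsmul] at h1
  exact h1

/-- sections of `M` which vanish lift to the image of `C_d`: compatible lifts on a covering

Proof. `h.comp d`: `t ᵥ* cm 𝓐 C d x` is in the kernel (`Matrix.vecMul_vecMul`), and `φ` of it is zero (`h.φ_ker`); `u = (u - v) + v`, `h.φ_add`. -/
theorem φ_sub_row (h : HType 𝓐 d M K g C φ) {x : V}
    (hx : x ∈ K) (u : Fin (g (d + 1)) → 𝓐.A.St x) (t : Fin (g d) → 𝓐.A.St x)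
    (hu : u ᵥ* cm 𝓐 C (d + 1) x = 0) :
    φ x (u - t ᵥ* cm 𝓐 C d x) = φ x u ∧
      (u - t ᵥ* cm 𝓐 C d x) ᵥ* cm 𝓐 C (d + 1) x = u ᵥ* cm 𝓐 C (d + 1) x := by
  have h1 : (t ᵥ* cm 𝓐 C d x) ᵥ* cm 𝓐 C (d + 1) x = 0 := by
    rw [Matrix.vecMul_vecMul, h.comp d x hx, Matrix.vecMul_zero]
  have h2 : φ x (t ᵥ* cm 𝓐 C d x) = 0 := (h.φ_ker x hx _ h1).mpr ⟨t, rfl⟩
  constructor
  · have h3 := h.φ_add x hx (u - t ᵥ* cm 𝓐 C d x) (t ᵥ* cm 𝓐 C d x)
      (by rw [Matrix.sub_vecMul, h1, hu, sub_zero]) h1
    rw [sub_add_cancel, h2, add_zero] at h3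
    exact h3.symm
  · rw [Matrix.sub_vecMul, h1, sub_zero]

end Pool.Agent.DQ.H
end

section

/-! # DQ, module G, task GA3: grade of `I + (l)`; ideals of maximal grade -/

set_option autoImplicit false

open Matrix RingTheory.Sequence IsLocalRing

universe u v w

namespace Pool.Agent.DQ

variable {R : Type u} [CommRing R]

/-- **Slice lemma.** If `R` is regular local, `I` has grade `≥ c` and `l` is regular on `R / I` then `I + (l)` has grade `≥ c + 1`. -/
theorem gradeGE_sup_span [IsNoetherianRing R] [IsLocalRing R] {xs : List R} (hR : RegLoc R xs) {I : Ideal R}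
    {c : ℕ} (hI : GradeGE I c) {l : R} (hl : ∀ a, l * a ∈ I → a ∈ I) :
    GradeGE (I ⊔ Ideal.span {l}) (c + 1) := by
  obtain ⟨n, B, ε, hres⟩ := exists_isRes R (R ⧸ I)
  have hreg : IsSMulRegular (R ⧸ I) l := by
    rw [isSMulRegular_quotient_iff_mem_of_smul_mem]
    intro x hx
    exact hl x hx
  have h1 := hres.grade_sup_span (l := 1 + xs.length) (by omega)
    (VN.of_regLoc hR (a := 1) (fun k hk => hres.exactAt hk) le_rfl) (c := c)
    (by rw [Ideal.annihilator_quotient]; exact hI) hreg
  rwa [Ideal.annihilator_quotient] at h1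

/-- The maximal ideal does not contain a regular sequence which is longer than `xs`. -/
theorem not_gradeGE_maximalIdeal [IsNoetherianRing R] [IsLocalRing R] {xs : List R} (hR : RegLoc R xs) :
    ¬ GradeGE (maximalIdeal R) (xs.length + 1) := fun h =>
  (maximalIdeal.isMaximal R).ne_top (h.eq_top hR)

/-- **Ideals of maximal grade** contain a power of the maximal ideal. -/
theorem pow_le_of_gradeGE [IsNoetherianRing R] [IsLocalRing R] {xs : List R} (hR : RegLoc R xs) {I : Ideal R}
    (hI : GradeGE I xs.length) : ∃ k : ℕ, maximalIdeal R ^ k ≤ I := hI.exists_pow_le hR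

end Pool.Agent.DQ
end

section

/-! # DQ, module G, task GA7: torsion free modules embed into free modules; their `Ext` -/

set_option autoImplicit false

open Matrix RingTheory.Sequence IsLocalRing

universe u v w

namespace Pool.Agent.DQ

/-- **A finite torsion free module over a domain embeds into a finite free module.**

Proof. Let `K = FractionRing R` and `M' = LocalizedModule (nonZeroDivisors R) M` (a `K`-vector space, or `K ⊗[R] M`), `φ : M → M'` the canonical map; `φ m = 0` iff `a • m = 0` for some nonzerodivisor `a`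
(`LocalizedModule.mk_eq`, `IsLocalizedModule.eq_zero_iff`), so `φ` is injective by `htf`. `M'` is finite dimensional over `K`; let `b` be a basis, indexed by `Fin r` (`Module.finBasis`), and let `m_1, …, m_p` generate `M`. The
coordinates `b.repr (φ m_i) j ∈ K` are finitely many fractions; a common denominator `a ≠ 0` exists (`IsLocalization.exist_integer_multiples_of_finset`, or `IsLocalization.exist_integer_multiples`). So `a • b.repr (φ m) j` lies in the image of
`R → K` for all `m ∈ M` (the `m_i` generate; the image is a submodule); it defines `ι m j ∈ R` with `algebraMap (ι m j) = a • b.repr (φ m) j`, unique by injectivity of `R → K`, hence linear. Injective: `ι m = 0` gives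
`a • φ m = 0`, `φ m = 0`, `m = 0`. -/
theorem exists_embedding_tf {R : Type u} [CommRing R] [IsDomain R] {M : Type w} [AddCommGroup M]
    [Module R M] [Module.Finite R M] (htf : ∀ (a : R) (m : M), a ≠ 0 → a • m = 0 → m = 0) :
    ∃ (r : ℕ) (ι : M →ₗ[R] (Fin r → R)), Function.Injective ι := by
  let K := FractionRing R
  let φ : M →ₗ[R] TensorProduct R K M := TensorProduct.mk R K M 1
  have hloc : IsLocalizedModule (nonZeroDivisors R) φ :=
    (isLocalizedModule_iff_isBaseChange (nonZeroDivisors R) K _).2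
      (TensorProduct.isBaseChange R M K)
  let b := Module.finBasis K (TensorProduct R K M)
  obtain ⟨p, s, hs⟩ := Module.Finite.exists_fin (R := R) (M := M)
  obtain ⟨a, ha⟩ := IsLocalization.exist_integer_multiples_of_finite (nonZeroDivisors R)
    (fun q : Fin p × Fin (Module.finrank K (TensorProduct R K M)) => b.repr (φ (s q.1)) q.2)
  -- the coordinates with values in the field
  let g : Fin (Module.finrank K (TensorProduct R K M)) → M →ₗ[R] K := fun j =>
    (a : R) • ((b.coord j).restrictScalars R ∘ₗ φ)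
  have hg : ∀ j m, g j m = (a : R) • b.repr (φ m) j := fun j m => rfl
  have hrange : ∀ j m, g j m ∈ LinearMap.range (Algebra.linearMap R K) := by
    intro j m
    have hm : m ∈ Submodule.span R (Set.range s) := by rw [hs]; trivial
    have hle : Submodule.span R (Set.range s) ≤
        Submodule.comap (g j) (LinearMap.range (Algebra.linearMap R K)) := by
      rw [Submodule.span_le]
      rintro _ ⟨i, rfl⟩
      obtain ⟨x, hx⟩ := ha (i, j)
      exact ⟨x, hx⟩
    exact hle hm
  have hinj : Function.Injective (Algebra.linearMap R K) := IsFractionRing.injective R K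
  let e := LinearEquiv.ofInjective (Algebra.linearMap R K) hinj
  let ι : M →ₗ[R] (Fin (Module.finrank K (TensorProduct R K M)) → R) :=
    LinearMap.pi fun j => e.symm.toLinearMap ∘ₗ (g j).codRestrict _ (hrange j)
  have hι : ∀ j m, algebraMap R K (ι m j) = g j m := by
    intro j m
    have h1 : e (e.symm ((g j).codRestrict _ (hrange j) m)) = (g j).codRestrict _ (hrange j) m :=
      e.apply_symm_apply _
    exact congrArg Subtype.val h1
  refine ⟨_, ι, ?_⟩
  rw [injective_iff_map_eq_zero]
  intro m hm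
  have h1 : ∀ j, b.repr (φ m) j = 0 := by
    intro j
    have h2 := hι j m
    rw [hm, Pi.zero_apply, map_zero, hg] at h2
    have h3 : algebraMap R K (a : R) * b.repr (φ m) j = 0 := by
      rw [← Algebra.smul_def]
      exact h2.symm
    refine (mul_eq_zero.1 h3).resolve_left ?_
    intro h4
    have h5 : (a : R) = 0 := by
      apply IsFractionRing.injective R K
      rw [h4, map_zero]
    exact nonZeroDivisors.ne_zero a.2 h5
  have h2 : φ m = 0 := by
    apply b.repr.injective
    rw [map_zero]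
    ext j
    exact h1 j
  obtain ⟨c, hc⟩ := (IsLocalizedModule.eq_zero_iff (nonZeroDivisors R) φ).1 h2
  exact htf (c : R) m (nonZeroDivisors.ne_zero c.2) hc

variable {R : Type u} [CommRing R]

/-- sizes of the resolution of the cokernel of `M → R^r` -/
def shN (r : ℕ) (n : ℕ → ℕ) : ℕ → ℕ
  | 0 => 0
  | 1 => r
  | k + 2 => n (k + 1)

/-- matrices of the resolution of the cokernel of `M → R^r`, where `A` is the matrix of `R^{n 1} → M → R^r` -/
def shB {r : ℕ} {n : ℕ → ℕ} (A : Matrix (Fin (n 1)) (Fin r) R) (B : ∀ k, Matrix (Fin (n (k + 1))) (Fin (n k)) R) :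
    ∀ k, Matrix (Fin (shN r n (k + 1))) (Fin (shN r n k)) R
  | 0 => 0
  | 1 => A
  | k + 2 => B (k + 1)

variable {M : Type w} [AddCommGroup M] [Module R M] {n : ℕ → ℕ}
  {B : ∀ k, Matrix (Fin (n (k + 1))) (Fin (n k)) R} {ε : (Fin (n 1) → R) →ₗ[R] M}

/-- **Shifted resolution.**

Proof. `ε' = mkQ : R^r → R^r ⧸ range ι`. `zero`: definition. `surj`: `Submodule.mkQ_surjective`. `ker`: `mkQ v = 0` iff `v = ι m`; `m = ε u` (`h.surj`), `ι (ε u) = u ᵥ* A` (`hA`). `exact`: `k = 1`: `u ᵥ* A = 0` iff `ι (ε u) = 0` iff `ε u = 0`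
(injective) iff `∃ z, z ᵥ* B 1 = u` (`h.ker`). `k = i + 2`: `h.exact (i+1)`. (`match k` or `cases`, everything is `rfl` after unfolding `shN`, `shB`.) -/
theorem IsRes.shift (h : IsRes n B ε) {r : ℕ} (ι : M →ₗ[R] (Fin r → R)) (hι : Function.Injective ι)
    (A : Matrix (Fin (n 1)) (Fin r) R) (hA : ∀ v, ι (ε v) = v ᵥ* A) :
    IsRes (shN r n) (shB A B) (Submodule.mkQ (LinearMap.range ι)) := by
  have hsurj : Function.Surjective (Submodule.mkQ (LinearMap.range ι)) :=
    Submodule.mkQ_surjective _
  refine ⟨rfl, hsurj, ?_, ?_⟩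
  · intro v
    show Submodule.mkQ (LinearMap.range ι) v = 0 ↔ ∃ u : Fin (n 1) → R, u ᵥ* A = v
    rw [Submodule.mkQ_apply, Submodule.Quotient.mk_eq_zero, LinearMap.mem_range]
    constructor
    · rintro ⟨m, rfl⟩
      obtain ⟨u, rfl⟩ := h.surj m
      exact ⟨u, (hA u).symm⟩
    · rintro ⟨u, rfl⟩
      exact ⟨ε u, hA u⟩
  · intro k hk
    match k, hk with
    | 1, _ =>
      intro v
      show v ᵥ* A = 0 ↔ ∃ u : Fin (n 2) → R, u ᵥ* B 1 = v
      rw [← h.ker v]
      have h1 : v ᵥ* A = ι (ε v) := (hA v).symm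
      rw [h1]
      constructor
      · intro h2
        apply hι
        rw [h2, map_zero]
      · intro h2
        rw [h2, map_zero]
    | i + 2, _ => exact h.exact (i + 1) (by omega)

/-- **`Ext^j(M, R)`, `j ≥ 1`, has grade `≥ 2` for a torsion free `M`.**

Proof. `j ≥ 2`: `IsRes.grade_annExt` and `GradeGE.mono`. `j = 1`: `exists_embedding_tf` gives `ι : M → R^r`; `A i k = ι (ε (Pi.single i 1)) k` (then `hA` by linearity: `v = ∑ v i • Pi.single i 1`). By `IsRes.shift` the
matrices `shB A B` are a resolution of the finite module `R^r ⧸ range ι`; `IsRes.grade_annExt` with `j = 2`: `GradeGE (AnnExt (shN r n) (shB A B) 2) 2`, and `AnnExt (shN r n) (shB A B) 2 = AnnExt n B 1` (by unfolding: the matrices with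
indices `3`, `2` of `shB` are `B 2`, `B 1`). -/
theorem IsRes.grade_annExt_tf [IsNoetherianRing R] [IsLocalRing R] [IsDomain R] [Module.Finite R M] {xs : List R}
    (hR : RegLoc R xs) (h : IsRes n B ε) (htf : ∀ (a : R) (m : M), a ≠ 0 → a • m = 0 → m = 0) {j : ℕ} (hj : 1 ≤ j) :
    GradeGE (AnnExt n B j) 2 := by
  rcases Nat.lt_or_ge j 2 with h2 | h2
  · obtain rfl : j = 1 := by omega
    obtain ⟨r, ι, hι⟩ := exists_embedding_tf htf
    let A : Matrix (Fin (n 1)) (Fin r) R := fun i k => ι (ε (Pi.single i 1)) k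
    have hA : ∀ v, ι (ε v) = v ᵥ* A := by
      intro v
      have hv : v = ∑ i, v i • (Pi.single i 1 : Fin (n 1) → R) := by
        funext k
        simp [Finset.sum_apply, Pi.single_apply]
      conv_lhs => rw [hv]
      rw [map_sum, map_sum]
      funext k
      rw [Finset.sum_apply]
      simp only [map_smul, Pi.smul_apply, smul_eq_mul]
      rfl
    have h4 := h.shift ι hι A hA
    have h3 : GradeGE (AnnExt (shN r n) (shB A B) 2) 2 := h4.grade_annExt hR 2
    exact h3
  · exact (h.grade_annExt hR j).mono le_rfl h2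

end Pool.Agent.DQ
end
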