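import Mathlib
import Pool.Agent.Lib.MP_4aa2a9_ag.Mg.G003
import Pool.Agent.Lib.MP_4aa2a9_ag.Mg.G004
import Pool.Agent.Lib.MP_4aa2a9_ag.Mg.G002
import Pool.Agent.Lib.MP_4aa2a9_ag.Mg.G008
import Pool.Agent.Lib.MP_4aa2a9_ag.Mg.G010
import Pool.Agent.Lib.MP_4aa2a9_ag.Mg.G001
import Pool.Agent.Lib.MP_4aa2a9_ag.Mg.G036
import Pool.Agent.Lib.MP_4aa2a9_ag.Mg.G005

section

/-! Campaign DQ, module W, file WOkaF: Weierstrass form of a finite family. -/

set_option autoImplicit false

open Metric Set Filter Topology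

universe u

namespace Pool.Agent.DQ.W

private theorem WOkaF_one {V : Type u} [NormedAddCommGroup V] [NormedSpace ℂ V] {v₀ : V}
    {f : V × ℂ → ℂ} (hf : HolAt f (v₀, 0))
    (h : (∃ᶠ t in 𝓝 (0 : ℂ), f (v₀, t) ≠ 0) ∨ ∀ᶠ p in 𝓝 ((v₀, 0) : V × ℂ), f p = 0) :
    ∃ (k : ℕ) (a : ℕ → V → ℂ) (w : V × ℂ → ℂ), (∀ m, HolAt (a m) v₀) ∧
      ((∃ᶠ t in 𝓝 (0 : ℂ), f (v₀, t) ≠ 0) → ∀ v, a k v = 1) ∧
      ((¬ ∃ᶠ t in 𝓝 (0 : ℂ), f (v₀, t) ≠ 0) → k = 0) ∧ (∀ m, k < m → ∀ v, a m v = 0) ∧
      HolAt w (v₀, 0) ∧ w (v₀, 0) ≠ 0 ∧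
      ∀ᶠ p in 𝓝 ((v₀, 0) : V × ℂ), f p = w p * ∑ m ∈ Finset.range (k + 1), a m p.1 * p.2 ^ m := by
  by_cases h1 : ∃ᶠ t in 𝓝 (0 : ℂ), f (v₀, t) ≠ 0
  · obtain ⟨k, hk⟩ := exists_reg hf h1
    obtain ⟨D, R, u, a, hDo, hvD, hR, -, hu, ha, -, hall⟩ := weier_prep hf hk (W := univ) univ_mem
    have hopen : IsOpen (D ×ˢ ball (0 : ℂ) R) := hDo.prod isOpen_ball
    have hmem : ((v₀, 0) : V × ℂ) ∈ D ×ˢ ball (0 : ℂ) R := ⟨hvD, mem_ball_self hR⟩
    refine ⟨k, fun m v => if m < k then a m v else if m = k then 1 else 0, u, ?_, ?_, ?_, ?_, ?_, ?_, ?_⟩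
    · intro m
      by_cases h2 : m < k
      · simp only [h2, if_true]
        exact holAt_of_isOpen hDo (ha m) hvD
      · by_cases h3 : m = k
        · simp only [h2, if_false, h3, if_true]
          exact Eventually.of_forall fun _ => by simp
        · simp only [h2, if_false, h3]
          exact Eventually.of_forall fun _ => by simp
    · intro _ v
      simp
    · intro h2
      exact absurd h1 h2
    · intro m hm v
      have h2 : ¬ m < k := by omega
      have h3 : ¬ m = k := by omega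
      simp [h2, h3]
    · exact holAt_of_isOpen hopen hu hmem
    · exact (hall _ hmem).1
    · filter_upwards [hopen.mem_nhds hmem] with p hp
      rw [(hall p hp).2, sub_zero, Finset.sum_range_succ, PP]
      congr 1
      rw [add_comm]
      congr 1
      · refine Finset.sum_congr rfl fun m hm => ?_
        rw [if_pos (Finset.mem_range.mp hm)]
      · simp
  · have h2 := h.resolve_left h1
    refine ⟨0, fun _ _ => 0, fun _ => 1, fun m => Eventually.of_forall fun _ => by simp, fun h3 => absurd h3 h1,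
      fun _ => rfl, fun _ _ _ => rfl, Eventually.of_forall fun _ => by simp, one_ne_zero, ?_⟩
    filter_upwards [h2] with p hp
    simp [hp]

/-- Weierstrass form of finitely many functions on `V × ℂ` near `(v₀, 0)`, none of them zero on the line `v = v₀` unless zero
near the point.

Proof. For `i` with `h i` of the first kind: `exists_reg` and `weier_prep` (with `t₀ = 0`, `W = univ`):
`f i = w * PP k_i a v t` near `(v₀, 0)` with `w` without zeros. For `i` of the second kind: `f i = 0` near `(v₀, 0)`, take `w i = 1` and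
`k_i = 0`, polynomial `0`. If some `i` is of the first kind let `i₀` be one with maximal `k_i =: k` (`Finset.exists_max_image` or
`Finite.exists_max` on the subtype). Put `a i m v := PP`-coefficient for `m < k_i`, `1` for `m = k_i`, `0` for `m > k_i` (first kind), and `0`
(second kind). `∑_{m ≤ k} a i m v * t ^ m = PP k_i a v t` because `k_i ≤ k`. -/
theorem weier_family {V : Type u} [NormedAddCommGroup V] [NormedSpace ℂ V] {v₀ : V} {ι : Type} [Fintype ι]
    {f : ι → V × ℂ → ℂ} (hf : ∀ i, HolAt (f i) (v₀, 0))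
    (h : ∀ i, (∃ᶠ t in 𝓝 (0 : ℂ), f i (v₀, t) ≠ 0) ∨ ∀ᶠ p in 𝓝 ((v₀, 0) : V × ℂ), f i p = 0)
    (hne : ∃ i, ∃ᶠ t in 𝓝 (0 : ℂ), f i (v₀, t) ≠ 0) :
    ∃ (k : ℕ) (i₀ : ι) (a : ι → ℕ → V → ℂ) (w : ι → V × ℂ → ℂ), (∀ i m, HolAt (a i m) v₀) ∧
      (∀ᶠ v in 𝓝 v₀, a i₀ k v = 1) ∧ (∀ i, HolAt (w i) (v₀, 0)) ∧ (∀ i, w i (v₀, 0) ≠ 0) ∧
      ∀ i, ∀ᶠ p in 𝓝 ((v₀, 0) : V × ℂ), f i p = w i p * ∑ m ∈ Finset.range (k + 1), a i m p.1 * p.2 ^ m := by
  classical
  choose K a w ha h1 h2 h3 hw hw0 heq using fun i => WOkaF_one (hf i) (h i)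
  obtain ⟨i₀, hi₀, hmax⟩ := Finset.exists_max_image
    (Finset.univ.filter fun i => ∃ᶠ t in 𝓝 (0 : ℂ), f i (v₀, t) ≠ 0) K
    (by obtain ⟨i, hi⟩ := hne; exact ⟨i, by simpa using hi⟩)
  have hi₀' : ∃ᶠ t in 𝓝 (0 : ℂ), f i₀ (v₀, t) ≠ 0 := (Finset.mem_filter.mp hi₀).2
  refine ⟨K i₀, i₀, a, w, ha, Eventually.of_forall fun v => h1 i₀ hi₀' v, hw, hw0, fun i => ?_⟩
  have hK : K i ≤ K i₀ := by
    by_cases h4 : ∃ᶠ t in 𝓝 (0 : ℂ), f i (v₀, t) ≠ 0
    · exact hmax i (Finset.mem_filter.mpr ⟨Finset.mem_univ i, h4⟩)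
    · rw [h2 i h4]; exact Nat.zero_le _
  filter_upwards [heq i] with p hp
  rw [hp]
  congr 1
  refine Finset.sum_subset (Finset.range_mono (by omega)) fun m _ hm => ?_
  rw [h3 i m (by rw [Finset.mem_range] at hm; omega), zero_mul]

end Pool.Agent.DQ.W
end

section

/-! Campaign DQ, module W, file WGPrep: Weierstrass preparation in the germ ring; regularity of distinguished and of monic
polynomials. -/

set_option autoImplicit false

open Metric Set Filter Topology Polynomial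

namespace Pool.Agent.DQ.W

variable {V : Type*} [NormedAddCommGroup V] [NormedSpace ℂ V]

/-- **Preparation.** Proof. `weier_prep` for a representative: `f = u * PP k a v (t - t₀)` near `(v₀, t₀)`, `a i v₀ = 0`. Put
`P := (X - C t₀) ^ k + ∑_{i<k} C (gm (a i)) * (X - C t₀) ^ i` (with `C t₀` meaning `C (cst v₀ t₀)`). It is monic (the first
summand is monic of degree `k`, the second has degree `< k` by `ev_shift`; `Polynomial.Monic.add_of_left`), its image under
`val v₀` is `(X - C t₀) ^ k` because `a i v₀ = 0`, and `ev P` is the germ of `PP k a v (t - t₀)`. -/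
theorem prep_germ {v₀ : V} {t₀ : ℂ} {k : ℕ} {g : OO ((v₀, t₀) : V × ℂ)} (hg : RegG k g) :
    ∃ P : (OO v₀)[X], Dist k t₀ P ∧ ∃ u : OO ((v₀, t₀) : V × ℂ), IsUnit u ∧ g = u * ev v₀ t₀ P := by
  obtain ⟨f, hf, rfl, hk⟩ := hg
  obtain ⟨D, R, u, a, hD, hvD, hR, -, hu, ha, ha0, hfu⟩ := weier_prep hf hk Filter.univ_mem
  have hopen : IsOpen (D ×ˢ ball t₀ R) := hD.prod isOpen_ball
  have hmem : (v₀, t₀) ∈ D ×ˢ ball t₀ R := ⟨hvD, mem_ball_self hR⟩
  have huh : HolAt u (v₀, t₀) := holAt_of_isOpen hopen hu hmem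
  have hah : ∀ i, HolAt (a i) v₀ := fun i => holAt_of_isOpen hD (ha i) hvD
  have hS : HolAt (fun p : V × ℂ => ∑ i ∈ Finset.range k, a i p.1 * (p.2 - t₀) ^ i) (v₀, t₀) :=
    HolAt.sum _ fun i _ => ((hah i).comp (f := Prod.fst) (x := (v₀, t₀)) (holAt_fst _)).mul
      (((holAt_snd _).sub (holAt_const t₀ _)).pow i)
  have hsh := ev_shift (t₀ := t₀) k hah hS
  have h3 : iota v₀ t₀ (cst v₀ t₀) = gm (fun _ : V × ℂ => t₀) (holAt_const t₀ _) := rfl
  have hvc : val v₀ (cst v₀ t₀) = t₀ := rfl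
  have hmon : ((X - C (cst v₀ t₀)) ^ k : (OO v₀)[X]).Monic := (monic_X_sub_C _).pow k
  have : Nontrivial (OO v₀) := (val v₀).domain_nontrivial
  have hdeg : ((X - C (cst v₀ t₀)) ^ k : (OO v₀)[X]).degree = k := by
    rw [degree_pow' (by rw [leadingCoeff_X_sub_C, one_pow]; exact one_ne_zero), degree_X_sub_C,
      nsmul_one]
  refine ⟨(X - C (cst v₀ t₀)) ^ k +
    ∑ i ∈ Finset.range k, C (gm (a i) (hah i)) * (X - C (cst v₀ t₀)) ^ i, ⟨?_, ?_⟩, gm u huh, ?_, ?_⟩
  · apply hmon.add_of_left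
    rw [hdeg]
    exact hsh.2
  · rw [Polynomial.map_add, Polynomial.map_pow, Polynomial.map_sub, map_X, map_C, hvc]
    have h0 : (∑ i ∈ Finset.range k, C (gm (a i) (hah i)) * (X - C (cst v₀ t₀)) ^ i :
        (OO v₀)[X]).map (val v₀) = 0 := by
      rw [Polynomial.map_sum]
      apply Finset.sum_eq_zero
      intro i _
      rw [Polynomial.map_mul, map_C, val_gm, ha0, C_0, zero_mul]
    rw [h0, add_zero]
  · have hu0 : u (v₀, t₀) ≠ 0 := (hfu _ hmem).1
    refine IsUnit.of_mul_eq_one (gm (fun y => (u y)⁻¹) (huh.inv hu0)) ?_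
    rw [gm_mul, gm_one, gm_eq]
    filter_upwards [huh.continuousAt.eventually_ne hu0] with y hy
    exact mul_inv_cancel₀ hy
  · rw [map_add, hsh.1, map_pow, map_sub, ev_C, ev_X, h3, gm_sub, gm_pow, gm_add, gm_mul, gm_eq]
    filter_upwards [hopen.mem_nhds hmem] with p hp
    rw [(hfu p hp).2]
    rfl

/-- The restriction of `ev P` to the line `v = v₀` is the polynomial `P.map (val v₀)`: for representatives.

Proof. `exists_coeff`, `ev_eq` with `n = P.natDegree + 1`: the representative `F (v, t) = ∑ c i v * t ^ i` satisfies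
`F (v₀, t) = ∑ c i v₀ * t ^ i = (P.map (val v₀)).eval t` (`Polynomial.eval_eq_sum_range'`, `coeff_map`, `val_gm`). -/
theorem ev_line {v₀ : V} (t₀ : ℂ) (P : (OO v₀)[X]) :
    ∃ (F : V × ℂ → ℂ) (hF : HolAt F (v₀, t₀)), ev v₀ t₀ P = gm F hF ∧
      ∀ t : ℂ, F (v₀, t) = (P.map (val v₀)).eval t := by
  obtain ⟨c, hc, hcoef⟩ := exists_coeff P
  have hF : HolAt (fun p : V × ℂ => ∑ i ∈ Finset.range (P.natDegree + 1), c i p.1 * p.2 ^ i)
      (v₀, t₀) :=
    HolAt.sum _ fun i _ => ((hc i).comp (f := Prod.fst) (x := (v₀, t₀)) (holAt_fst _)).mul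
      ((holAt_snd _).pow i)
  refine ⟨_, hF, ev_eq P (Nat.lt_succ_self _) hc (fun i _ => hcoef i) hF, ?_⟩
  intro t
  have h1 : (P.map (val v₀)).natDegree < P.natDegree + 1 :=
    Nat.lt_succ_of_le natDegree_map_le
  rw [eval_eq_sum_range' h1]
  refine Finset.sum_congr rfl fun i _ => ?_
  rw [coeff_map, hcoef i, val_gm]

/-- Distinguished polynomials are regular of order equal to the degree.

Proof. `ev_line`: `F (v₀, t) = (t - t₀) ^ k * 1`. -/
theorem regG_of_dist {v₀ : V} {t₀ : ℂ} {k : ℕ} {P : (OO v₀)[X]} (hP : Dist k t₀ P) : RegG k (ev v₀ t₀ P) := by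
  obtain ⟨F, hF, hev, hline⟩ := ev_line t₀ P
  refine ⟨F, hF, hev, fun _ => 1, holAt_const 1 t₀, one_ne_zero, Eventually.of_forall fun t => ?_⟩
  rw [hline, hP.2]
  simp

/-- Monic polynomials are regular at every point of the fibre, of order at most the degree.

Proof. `Q := P.map (val v₀)` is monic, so `Q ≠ 0`; with `k := Q.rootMultiplicity t₀ ≤ Q.natDegree = P.natDegree`
write `Q = (X - C t₀) ^ k * Q₁`, `Q₁.eval t₀ ≠ 0` (`Polynomial.exists_eq_pow_rootMultiplicity_mul_and_not_dvd`,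
`Polynomial.dvd_iff_isRoot`). By `ev_line` the representative restricted to the line is `(t - t₀) ^ k * Q₁.eval t`. -/
theorem regG_of_monic {v₀ : V} (t₀ : ℂ) {P : (OO v₀)[X]} (hP : P.Monic) :
    ∃ k ≤ P.natDegree, RegG k (ev v₀ t₀ P) := by
  obtain ⟨F, hF, hev, hline⟩ := ev_line t₀ P
  set Q := P.map (val v₀) with hQ
  have hQm : Q.Monic := hP.map _
  obtain ⟨Q₁, hQ₁, hnd⟩ := exists_eq_pow_rootMultiplicity_mul_and_not_dvd Q hQm.ne_zero t₀
  refine ⟨Q.rootMultiplicity t₀, ?_, F, hF, hev, fun t => Q₁.eval t, ?_, ?_, ?_⟩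
  · have h1 : Q.natDegree = P.natDegree := hP.natDegree_map _
    rw [← h1]
    have h3 := congrArg natDegree hQ₁
    have hQ₁0 : Q₁ ≠ 0 := by
      rintro rfl
      exact hnd (dvd_zero _)
    rw [natDegree_mul (pow_ne_zero _ (X_sub_C_ne_zero t₀)) hQ₁0, natDegree_pow, natDegree_X_sub_C,
      mul_one] at h3
    omega
  · exact Eventually.of_forall fun t => Q₁.differentiable.differentiableAt
  · intro h0
    exact hnd (dvd_iff_isRoot.2 h0)
  · refine Eventually.of_forall fun t => ?_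
    rw [hline]
    conv_lhs => rw [hQ₁]
    simp

end Pool.Agent.DQ.W
end

section

/-! Campaign DQ, module W, file WOkaAlg: relations between polynomials over the germ ring (the division argument in Oka's theorem). -/

set_option autoImplicit false

open Metric Set Filter Topology Polynomial

namespace Pool.Agent.DQ.W

variable {V : Type*} [NormedAddCommGroup V] [NormedSpace ℂ V]

/-- A monic polynomial over the germ ring of `V` is, at a point `(v₁, t₁)`, a product `Q * W` with `W` distinguished at `t₁`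
and `ev Q` a unit.

Proof. `regG_of_monic`: `ev P` is regular of some order `k' ≤ natDegree P`. `prep_germ`: `ev P = u * ev W`, `W` distinguished of
degree `k'`, `u` a unit. Divide `P` by the monic `W`: `P = W * Q + ρ`, `Q = P /ₘ W`, `ρ = P %ₘ W`, `degree ρ < k'`
(`Polynomial.modByMonic_add_div`, `Polynomial.degree_modByMonic_lt`, `Dist.natDegree_eq`). Then
`(ev Q - u) * ev W + ev ρ = 0`, and `div_germ_unique` for `ev W` (`regG_of_dist`) gives `ρ = 0`, `ev Q = u`. So `P = W * Q`, `Q` is monic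
(`Polynomial.Monic.of_mul_monic_left`) of degree `natDegree P - k'`. -/
theorem monic_factor {v₁ : V} (t₁ : ℂ) {P : (OO v₁)[X]} (hP : P.Monic) :
    ∃ (k' : ℕ) (W Q : (OO v₁)[X]), Dist k' t₁ W ∧ Q.Monic ∧ P = Q * W ∧ k' + Q.natDegree = P.natDegree ∧
      IsUnit (ev v₁ t₁ Q) := by
  obtain ⟨k', _, hreg⟩ := regG_of_monic t₁ hP
  obtain ⟨W, hW, u, hu, hPW⟩ := prep_germ hreg
  haveI : Nontrivial (OO v₁) := RingHom.domain_nontrivial (val v₁)
  have h1 : P %ₘ W + W * (P /ₘ W) = P := modByMonic_add_div P W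
  have hdeg : (P %ₘ W).degree < (k' : WithBot ℕ) := by
    have h2 := degree_modByMonic_lt P hW.1
    rw [degree_eq_natDegree hW.1.ne_zero, hW.natDegree_eq] at h2
    exact h2
  have h3 : ev v₁ t₁ (P %ₘ W) + ev v₁ t₁ W * ev v₁ t₁ (P /ₘ W) = u * ev v₁ t₁ W := by
    rw [← map_mul, ← map_add, h1, hPW]
  have h4 : (ev v₁ t₁ (P /ₘ W) - u) * ev v₁ t₁ W + ev v₁ t₁ (P %ₘ W) = 0 := by
    linear_combination h3
  obtain ⟨h5, h6⟩ := div_germ_unique (regG_of_dist hW) hdeg h4
  have h7 : P = W * (P /ₘ W) := by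
    rw [h6, zero_add] at h1
    exact h1.symm
  have h8 : (P /ₘ W).Monic := by
    apply Monic.of_mul_monic_left hW.1
    rw [← h7]
    exact hP
  refine ⟨k', W, P /ₘ W, hW, h8, by rw [mul_comm]; exact h7, ?_, ?_⟩
  · have h9 := Monic.natDegree_mul hW.1 h8
    rw [← h7, hW.natDegree_eq] at h9
    exact h9.symm
  · rw [sub_eq_zero.mp h5]
    exact hu

private theorem WOkaAlg_deg {R : Type*} [CommRing R] {r P : R[X]} {k' k : ℕ} (hr : r.degree < (k' : WithBot ℕ))
    (hP : P.natDegree ≤ k) : (r * P).degree < ((k' + k : ℕ) : WithBot ℕ) := by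
  by_cases h0 : r = 0
  · rw [h0, zero_mul, degree_zero]
    exact WithBot.bot_lt_coe _
  · have h1 : r.natDegree < k' := (natDegree_lt_iff_degree_lt h0).mpr hr
    have h2 : (r * P).natDegree ≤ r.natDegree + P.natDegree := natDegree_mul_le
    apply lt_of_le_of_lt degree_le_natDegree
    have h3 : (r * P).natDegree < k' + k := by omega
    exact_mod_cast h3

/-- **The division argument.** Every relation `h` between polynomials `P i` of degree `≤ k`, `P i₀` monic of degree `k`, is a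
combination of the trivial relations `P i₀ * e j - P j * e i₀` and of one polynomial relation `A` of degree `< k`.

Proof. `monic_factor`: `P i₀ = Q * W`, `W` distinguished of degree `k'`, `u := ev Q` a unit. Divide (`div_germ` for `ev W`,
`regG_of_dist`) for `i ≠ i₀`: `h i = q i * ev W + ev (r i)`, `degree (r i) < k'`. Put `c i := q i * u⁻¹` for `i ≠ i₀`,
`c i₀ := 0`; so `h i = c i * ev (P i₀) + ev (r i)` for `i ≠ i₀`. Put `g := h i₀ + ∑ j, c j * ev (P j)`. From the relation: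
`g * ev (P i₀) + ∑_{i ≠ i₀} ev (r i) * ev (P i) = 0`. Let `G := ∑_{i ≠ i₀} r i * P i`, `degree G < k' + k`, and divide by the monic
`W`: `G = W * G' + G''`. Then `(g * u + ev G') * ev W + ev G'' = 0`, so by `div_germ_unique` `G'' = 0`, `g * u = - ev G'`, and
`degree G' < k` (`G = W * G'`, `W` monic of degree `k'`; if `k' = 0` and all `r i = 0` then `G = 0`). Put `A i := Q * r i`
(`i ≠ i₀`, degree `< (k - k') + k' = k`, or `r i = 0`), `A i₀ := - G'`. Then
`∑ A i * P i = Q * G - G' * P i₀ = Q * W * G' - G' * Q * W = 0`. With `w := u⁻¹`: `ev (r i) = w * ev (A i)` and `g = w * ev (A i₀)`.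
So `h i = c i * ev (P i₀) + w * ev (A i)` for `i ≠ i₀`, and `h i₀ = - ∑_j c j * ev (P j) + w * ev (A i₀)`, which is the claim
(as `c i₀ = 0`). -/
theorem rel_poly_germ {v₁ : V} {t₁ : ℂ} {ι : Type} [Fintype ι] [DecidableEq ι] {k : ℕ} {P : ι → (OO v₁)[X]}
    (hP : ∀ i, (P i).natDegree ≤ k) (i₀ : ι) (hm : (P i₀).Monic) (hk : (P i₀).natDegree = k)
    {h : ι → OO ((v₁, t₁) : V × ℂ)} (hrel : ∑ i, h i * ev v₁ t₁ (P i) = 0) :
    ∃ (c : ι → OO ((v₁, t₁) : V × ℂ)) (w : OO ((v₁, t₁) : V × ℂ)) (A : ι → (OO v₁)[X]),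
      (∀ i, (A i).degree < k) ∧ ∑ i, A i * P i = 0 ∧
      ∀ i, h i = (∑ j, c j * ((if i = j then ev v₁ t₁ (P i₀) else 0) - (if i = i₀ then ev v₁ t₁ (P j) else 0))) +
        w * ev v₁ t₁ (A i) := by
  haveI : Nontrivial (OO v₁) := RingHom.domain_nontrivial (val v₁)
  obtain ⟨k', W, Q, hW, hQ, hPQ, hdeg, hu⟩ := monic_factor t₁ hm
  obtain ⟨u', hu'⟩ := hu.exists_right_inv
  have hreg := regG_of_dist hW
  have hdiv : ∀ i, ∃ (q : OO ((v₁, t₁) : V × ℂ)) (r : (OO v₁)[X]), r.degree < (k' : WithBot ℕ) ∧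
      h i = q * ev v₁ t₁ W + ev v₁ t₁ r := fun i => div_germ hreg (h i)
  choose q r hr hqr using hdiv
  have hPi₀ : ev v₁ t₁ (P i₀) = ev v₁ t₁ Q * ev v₁ t₁ W := by rw [hPQ, map_mul]
  let c : ι → OO ((v₁, t₁) : V × ℂ) := fun i => if i = i₀ then 0 else q i * u'
  let r' : ι → (OO v₁)[X] := fun i => if i = i₀ then 0 else r i
  have hc0 : c i₀ = 0 := if_pos rfl
  have hr'0 : r' i₀ = 0 := if_pos rfl
  have hc : ∀ i, i ≠ i₀ → c i = q i * u' := fun i hi => if_neg hi
  have hr' : ∀ i, i ≠ i₀ → r' i = r i := fun i hi => if_neg hi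
  have hr'deg : ∀ i, (r' i).degree < (k' : WithBot ℕ) := by
    intro i
    by_cases hi : i = i₀
    · rw [hi, hr'0, degree_zero]
      exact WithBot.bot_lt_coe _
    · rw [hr' i hi]
      exact hr i
  have hh : ∀ i, i ≠ i₀ → h i = c i * ev v₁ t₁ (P i₀) + ev v₁ t₁ (r' i) := by
    intro i hi
    rw [hr' i hi, hc i hi, hPi₀, hqr i]
    linear_combination (-(q i * ev v₁ t₁ W)) * hu'
  let G : (OO v₁)[X] := ∑ i, r' i * P i
  have hG : G = ∑ i, r' i * P i := rfl
  let S : OO ((v₁, t₁) : V × ℂ) := ∑ j, c j * ev v₁ t₁ (P j)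
  have hS : S = ∑ j, c j * ev v₁ t₁ (P j) := rfl
  have hrel2 : (h i₀ + S) * ev v₁ t₁ (P i₀) + ev v₁ t₁ G = 0 := by
    have h1 : ∀ i, h i * ev v₁ t₁ (P i) = (c i * ev v₁ t₁ (P i)) * ev v₁ t₁ (P i₀) + ev v₁ t₁ (r' i * P i) +
        (if i = i₀ then h i₀ * ev v₁ t₁ (P i₀) else 0) := by
      intro i
      by_cases hi : i = i₀
      · rw [hi, hc0, hr'0, if_pos rfl, zero_mul, zero_mul, zero_mul, map_zero]
        ring
      · rw [if_neg hi, hh i hi, map_mul]
        ring
    rw [Finset.sum_congr rfl (fun i _ => h1 i), Finset.sum_add_distrib, Finset.sum_add_distrib,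
      Finset.sum_ite_eq' Finset.univ i₀ (fun _ => h i₀ * ev v₁ t₁ (P i₀)), if_pos (Finset.mem_univ _),
      ← Finset.sum_mul, ← map_sum] at hrel
    rw [← hS, ← hG] at hrel
    linear_combination hrel
  have h1 : G %ₘ W + W * (G /ₘ W) = G := modByMonic_add_div G W
  have hdegG : (G %ₘ W).degree < (k' : WithBot ℕ) := by
    have h2 := degree_modByMonic_lt G hW.1
    rw [degree_eq_natDegree hW.1.ne_zero, hW.natDegree_eq] at h2
    exact h2
  have h3 : ev v₁ t₁ (G %ₘ W) + ev v₁ t₁ W * ev v₁ t₁ (G /ₘ W) = ev v₁ t₁ G := by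
    rw [← map_mul, ← map_add, h1]
  have h4 : ((h i₀ + S) * ev v₁ t₁ Q + ev v₁ t₁ (G /ₘ W)) * ev v₁ t₁ W + ev v₁ t₁ (G %ₘ W) = 0 := by
    rw [hPi₀] at hrel2
    linear_combination hrel2 + h3
  obtain ⟨h5, h6⟩ := div_germ_unique hreg hdegG h4
  have h7 : G = W * (G /ₘ W) := by
    rw [h6, zero_add] at h1
    exact h1.symm
  have hGdeg : G.degree < ((k' + k : ℕ) : WithBot ℕ) := by
    rw [← mem_degreeLT]
    apply Submodule.sum_mem
    intro i _
    rw [mem_degreeLT]
    exact WOkaAlg_deg (hr'deg i) (hP i)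
  have hG'deg : (G /ₘ W).degree < (k : WithBot ℕ) := by
    by_cases h0 : G /ₘ W = 0
    · rw [h0, degree_zero]
      exact WithBot.bot_lt_coe _
    · have hG0 : G ≠ 0 := by
        intro hG0
        apply h0
        rw [h7] at hG0
        exact hW.1.mul_right_eq_zero_iff.mp hG0
      have h8 : G.natDegree < k' + k := (natDegree_lt_iff_degree_lt hG0).mpr hGdeg
      have h9 : G.natDegree = k' + (G /ₘ W).natDegree := by
        conv_lhs => rw [h7]
        rw [Monic.natDegree_mul' hW.1 h0, hW.natDegree_eq]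
      rw [← natDegree_lt_iff_degree_lt h0]
      omega
  refine ⟨c, u', fun i => if i = i₀ then -(G /ₘ W) else Q * r' i, ?_, ?_, ?_⟩
  · intro i
    by_cases hi : i = i₀
    · show (if i = i₀ then -(G /ₘ W) else Q * r' i).degree < (k : WithBot ℕ)
      rw [if_pos hi, degree_neg]
      exact hG'deg
    · show (if i = i₀ then -(G /ₘ W) else Q * r' i).degree < (k : WithBot ℕ)
      rw [if_neg hi, mul_comm]
      have h8 := WOkaAlg_deg (P := Q) (k := Q.natDegree) (hr'deg i) le_rfl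
      rw [hdeg, hk] at h8
      exact h8
  · have h8 : ∀ i, (if i = i₀ then -(G /ₘ W) else Q * r' i) * P i = Q * (r' i * P i) +
        (if i = i₀ then -(G /ₘ W) * P i₀ else 0) := by
      intro i
      by_cases hi : i = i₀
      · rw [if_pos hi, if_pos hi, hi, hr'0]
        ring
      · rw [if_neg hi, if_neg hi]
        ring
    show ∑ i, (if i = i₀ then -(G /ₘ W) else Q * r' i) * P i = 0
    rw [Finset.sum_congr rfl (fun i _ => h8 i), Finset.sum_add_distrib,
      Finset.sum_ite_eq' Finset.univ i₀ (fun _ => -(G /ₘ W) * P i₀), if_pos (Finset.mem_univ _), ← Finset.mul_sum, ← hG]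
    conv_lhs => rw [h7, hPQ]
    have h9 : (W * (G /ₘ W)) /ₘ W = G /ₘ W := by rw [← h7]
    rw [h9]
    ring
  · intro i
    show h i = _ + u' * ev v₁ t₁ (if i = i₀ then -(G /ₘ W) else Q * r' i)
    have h8 : ∑ j, c j * ((if i = j then ev v₁ t₁ (P i₀) else 0) - (if i = i₀ then ev v₁ t₁ (P j) else 0)) =
        c i * ev v₁ t₁ (P i₀) - (if i = i₀ then S else 0) := by
      simp only [mul_sub, Finset.sum_sub_distrib]
      congr 1
      · rw [Finset.sum_eq_single i]
        · rw [if_pos rfl]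
        · intro j _ hj
          rw [if_neg (Ne.symm hj), mul_zero]
        · intro h
          exact absurd (Finset.mem_univ _) h
      · by_cases hi : i = i₀
        · simp only [if_pos hi]
          rfl
        · simp only [if_neg hi, mul_zero, Finset.sum_const_zero]
    rw [h8]
    by_cases hi : i = i₀
    · rw [if_pos hi, if_pos hi, hi, hc0, map_neg, zero_mul, zero_sub]
      linear_combination (-(h i₀ + S)) * hu' + u' * h5
    · rw [if_neg hi, if_neg hi, hh i hi, map_mul]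
      linear_combination (-(ev v₁ t₁ (r' i))) * hu'

end Pool.Agent.DQ.W
end

section

/-! Campaign DQ, module W, file WOkaPoly: Oka's theorem for polynomials in the last variable. -/

set_option autoImplicit false

open Metric Set Filter Topology Polynomial

universe u

namespace Pool.Agent.DQ.W

variable {V : Type u} [NormedAddCommGroup V] [NormedSpace ℂ V]

/-- Evaluations of polynomials with coefficients `gt (c j) v` are germs of the obvious functions.

Proof. `gt_eq`, `map_sum`, `map_mul`, `map_pow`, `ev_C`, `ev_X`, `iota_gm`, `gm_pow`, `gm_mul`, `gm_sum`. (`gt` on the right side: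
the function is holomorphic near `(v, t)`, use `gt_eq`.) -/
theorem ev_sum_gt {σ : Type} [Fintype σ] {v : V} {t : ℂ} {c : σ → V → ℂ} (hc : ∀ j, HolAt (c j) v) (d : σ → ℕ) :
    ev v t (∑ j, C (gt (c j) v) * X ^ (d j)) = gt (fun p : V × ℂ => ∑ j, c j p.1 * p.2 ^ (d j)) (v, t) := by
  have h1 : ∀ j, HolAt (fun p : V × ℂ => c j p.1 * p.2 ^ (d j)) (v, t) := fun j =>
    ((hc j).comp (f := Prod.fst) (x := (v, t)) (holAt_fst _)).mul ((holAt_snd (v, t)).pow (d j))
  have hF : HolAt (fun p : V × ℂ => ∑ j, c j p.1 * p.2 ^ (d j)) (v, t) := HolAt.sum _ fun j _ => h1 j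
  have h2 : ∀ j, iota v t (gt (c j) v) * gm Prod.snd (holAt_snd (v, t)) ^ (d j) =
      gm (fun p : V × ℂ => c j p.1 * p.2 ^ (d j)) (h1 j) := by
    intro j
    rw [gt_eq (hc j), iota_gm, gm_pow, gm_mul]
  rw [gt_eq hF]
  simp only [map_sum, map_mul, map_pow, ev_C, ev_X]
  rw [Finset.sum_congr rfl (fun j _ => h2 j), gm_sum]

/-- Proof. As `ev_sum_gt` (sum over `Finset.range n`). -/
theorem ev_range_gt {n : ℕ} {v : V} {t : ℂ} {c : ℕ → V → ℂ} (hc : ∀ j, HolAt (c j) v) :
    ev v t (∑ j ∈ Finset.range n, C (gt (c j) v) * X ^ j) =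
      gt (fun p : V × ℂ => ∑ j ∈ Finset.range n, c j p.1 * p.2 ^ j) (v, t) := by
  have h1 : ∀ j, HolAt (fun p : V × ℂ => c j p.1 * p.2 ^ j) (v, t) := fun j =>
    ((hc j).comp (f := Prod.fst) (x := (v, t)) (holAt_fst _)).mul ((holAt_snd (v, t)).pow j)
  have hF : HolAt (fun p : V × ℂ => ∑ j ∈ Finset.range n, c j p.1 * p.2 ^ j) (v, t) := HolAt.sum _ fun j _ => h1 j
  have h2 : ∀ j, iota v t (gt (c j) v) * gm Prod.snd (holAt_snd (v, t)) ^ j =
      gm (fun p : V × ℂ => c j p.1 * p.2 ^ j) (h1 j) := by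
    intro j
    rw [gt_eq (hc j), iota_gm, gm_pow, gm_mul]
  rw [gt_eq hF]
  simp only [map_sum, map_mul, map_pow, ev_C, ev_X]
  rw [Finset.sum_congr rfl (fun j _ => h2 j), gm_sum]

/-- pure algebra -/
private theorem WOkaPoly_alg {R : Type*} [CommRing R] {σ : Type} [Fintype σ] {k : ℕ} (d : σ → R) (g : σ → Fin k → R) :
    (∑ j : Fin k, C (∑ s, d s * g s j) * X ^ (j : ℕ) : R[X]) =
      ∑ s, C (d s) * ∑ j : Fin k, C (g s j) * X ^ (j : ℕ) := by
  simp only [map_sum, map_mul, Finset.sum_mul, Finset.mul_sum, mul_assoc]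
  rw [Finset.sum_comm]

private theorem WOkaPoly_core (hV : Oka V) {v₀ : V} {t₀ : ℂ} {ι : Type} [Fintype ι] {k : ℕ} {a : ι → ℕ → V → ℂ}
    (ha : ∀ i m, HolAt (a i m) v₀) (hev : ∀ᶠ v in 𝓝 v₀, ∀ i m, HolAt (a i m) v)
    (i₀ : ι) (h₀ : ∀ᶠ v in 𝓝 v₀, a i₀ k v = 1) :
    OkaFor (fun i (_ : Unit) (p : V × ℂ) => ∑ m ∈ Finset.range (k + 1), a i m p.1 * p.2 ^ m) (v₀, t₀) := by
  classical
  obtain ⟨b, hbdef⟩ : ∃ b : ι × Fin k → Fin (2 * k) → V → ℂ,
      b = fun x l v => sysc k (fun i m => a i m v) x l := ⟨_, rfl⟩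
  have hbcase : ∀ x l, b x l = if (x.2 : ℕ) ≤ l ∧ (l : ℕ) - x.2 ≤ k then a x.1 (l - x.2) else fun _ => 0 := by
    intro x l
    rw [hbdef]
    funext v
    by_cases hc : (x.2 : ℕ) ≤ l ∧ (l : ℕ) - x.2 ≤ k
    · simp only [sysc, if_pos hc]
    · simp only [sysc, if_neg hc]
  have hb : ∀ x l, HolAt (b x l) v₀ := by
    intro x l
    rw [hbcase]
    split_ifs with hc
    · exact ha _ _
    · exact holAt_const 0 v₀
  obtain ⟨N, B, hB, hBrel⟩ := hV v₀ (ι × Fin k) (Fin (2 * k)) b hb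
  obtain ⟨P, hPdef⟩ : ∃ P : ι → V × ℂ → ℂ,
      P = fun i p => ∑ m ∈ Finset.range (k + 1), a i m p.1 * p.2 ^ m := ⟨_, rfl⟩
  have hPhol : ∀ {v : V} {t : ℂ}, (∀ i m, HolAt (a i m) v) → ∀ i, HolAt (P i) (v, t) := by
    intro v t h i
    rw [hPdef]
    exact HolAt.sum _ fun m _ =>
      ((h i m).comp (f := Prod.fst) (x := (v, t)) (holAt_fst _)).mul ((holAt_snd (v, t)).pow m)
  obtain ⟨R, hRdef⟩ : ∃ R : Fin N ⊕ ι → ι → V × ℂ → ℂ,
      R = Sum.elim (fun s i p => ∑ j : Fin k, B s (i, j) p.1 * p.2 ^ (j : ℕ))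
        (fun j i p => (if i = j then P i₀ p else 0) - (if i = i₀ then P j p else 0)) := ⟨_, rfl⟩
  have hRl : ∀ {v : V} {t : ℂ}, (∀ s x, HolAt (B s x) v) → ∀ s i, HolAt (R (Sum.inl s) i) (v, t) := by
    intro v t h s i
    rw [hRdef]
    exact HolAt.sum _ fun j _ =>
      ((h s (i, j)).comp (f := Prod.fst) (x := (v, t)) (holAt_fst _)).mul ((holAt_snd (v, t)).pow (j : ℕ))
  have hite : ∀ {q : V × ℂ} {c : Prop} [Decidable c] {g : V × ℂ → ℂ}, HolAt g q →
      HolAt (fun p => if c then g p else 0) q := by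
    intro q c _ g hg
    by_cases hc : c
    · simp only [hc, if_true]; exact hg
    · simp only [hc, if_false]; exact holAt_const 0 q
  have hRr : ∀ {v : V} {t : ℂ}, (∀ i m, HolAt (a i m) v) → ∀ j i, HolAt (R (Sum.inr j) i) (v, t) := by
    intro v t h j i
    rw [hRdef]
    exact (hite (hPhol h i₀)).sub (hite (hPhol h j))
  have hfst : Tendsto (Prod.fst : V × ℂ → V) (𝓝 (v₀, t₀)) (𝓝 v₀) := continuous_fst.tendsto (v₀, t₀)
  have e1 := hfst.eventually hev
  have e2 : ∀ᶠ p in 𝓝 (v₀, t₀), ∀ s x, HolAt (B s x) (Prod.fst p) := by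
    have : ∀ᶠ v in 𝓝 v₀, ∀ s x, HolAt (B s x) v :=
      eventually_all.mpr fun s => eventually_all.mpr fun x => (hB s x).eventually
    exact hfst.eventually this
  have e3 := hfst.eventually (eventually_eventually_nhds.mpr h₀)
  have e4 := hfst.eventually hBrel
  refine okaFor_of_fintype R ?_ ?_
  · rintro (s | j) i
    · exact hRl hB s i
    · exact hRr ha j i
  filter_upwards [e1, e2, e3, e4] with y hy1 hy2 hy3 hy4
  obtain ⟨v, t⟩ := y
  simp only at hy1 hy2 hy3 hy4
  obtain ⟨p, hpdef⟩ : ∃ p : ι → (OO v)[X],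
      p = fun i => ∑ m ∈ Finset.range (k + 1), C (gt (a i m) v) * X ^ m := ⟨_, rfl⟩
  have hevp : ∀ i, ev v t (p i) = gt (P i) (v, t) := by
    intro i
    rw [hpdef, hPdef]
    exact ev_range_gt (hy1 i)
  have hbgt : ∀ x l, gt (b x l) v = sysc k (fun i m => gt (a i m) v) x l := by
    intro x l
    rw [hbcase]
    by_cases hc : (x.2 : ℕ) ≤ l ∧ (l : ℕ) - x.2 ≤ k
    · simp only [sysc, if_pos hc]
    · simp only [sysc, if_neg hc]
      rw [gt_eq (holAt_const 0 v)]
      exact gm_zero.symm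
  have ha1 : gt (a i₀ k) v = 1 := by
    rw [gt_eq (hy1 i₀ k), gm_one, gm_eq]
    exact hy3
  have hmon := sum_monic (R := OO v) (k := k) (a := fun m => gt (a i₀ m) v) ha1
  have hRgt_l : ∀ s i, gt (R (Sum.inl s) i) (v, t) =
      ev v t (∑ j : Fin k, C (gt (B s (i, j)) v) * X ^ (j : ℕ)) := by
    intro s i
    rw [ev_sum_gt (fun j => hy2 s (i, j))]
    rw [hRdef]
    rfl
  have hRgt_r : ∀ j i, gt (R (Sum.inr j) i) (v, t) =
      (if i = j then ev v t (p i₀) else 0) - (if i = i₀ then ev v t (p j) else 0) := by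
    intro j i
    have hg1 : ∀ {c : Prop} [Decidable c] (l : ι), (if c then ev v t (p l) else 0) =
        gm (fun q => if c then P l q else 0) (hite (hPhol hy1 l)) := by
      intro c _ l
      by_cases hc : c
      · simp only [hc, if_true]
        rw [hevp l, gt_eq (hPhol hy1 l)]
      · simp only [hc, if_false]
        exact gm_zero
    rw [hg1, hg1, gm_sub, gt_eq (hRr hy1 j i)]
    rw [gm_eq]
    refine Eventually.of_forall fun q => ?_
    rw [hRdef]
    rfl
  apply le_antisymm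
  · intro h hh
    rw [mem_Rel] at hh
    have hrel := hh ()
    have hrel' : ∑ i, h i * ev v t (p i) = 0 := by
      rw [← hrel]
      refine Finset.sum_congr rfl fun i _ => ?_
      rw [hevp, hPdef]
    obtain ⟨c, w, A, hAdeg, hAsum, hrep⟩ := rel_poly_germ (P := p) (k := k)
      (fun i => by rw [hpdef]; exact sum_natDegree_le _) i₀ (by rw [hpdef]; exact hmon.1)
      (by rw [hpdef]; exact hmon.2) hrel'
    have hA : ∀ i, A i = ∑ j : Fin k, C ((A i).coeff j) * X ^ (j : ℕ) := fun i => eq_sum_fin (hAdeg i)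
    have hsys : (fun x : ι × Fin k => (A x.1).coeff x.2) ∈ Rel b v := by
      rw [mem_Rel]
      have h1 := (sys_iff k (fun i m => gt (a i m) v) (fun x : ι × Fin k => (A x.1).coeff x.2)).mp (by
        rw [← hAsum]
        refine Finset.sum_congr rfl fun i _ => ?_
        simp only
        rw [← hA i, hpdef])
      intro l
      rw [← h1 l]
      refine Finset.sum_congr rfl fun x _ => ?_
      rw [hbgt]
    rw [hy4, mem_span_gt] at hsys
    obtain ⟨d, hd⟩ := hsys
    rw [mem_span_gt]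
    refine ⟨Sum.elim (fun s => w * iota v t (d s)) c, fun i => ?_⟩
    rw [Fintype.sum_sum_type, hrep i]
    have hevA : ev v t (A i) = ∑ s, iota v t (d s) * gt (R (Sum.inl s) i) (v, t) := by
      have h2 : A i = ∑ s, C (d s) * ∑ j : Fin k, C (gt (B s (i, j)) v) * X ^ (j : ℕ) := by
        rw [← WOkaPoly_alg]
        calc A i = ∑ j : Fin k, C ((A i).coeff j) * X ^ (j : ℕ) := hA i
          _ = _ := Finset.sum_congr rfl fun j _ => by
            have h6 : (A i).coeff j = ∑ s, d s * gt (B s (i, j)) v := hd (i, j)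
            rw [h6]
      rw [h2, map_sum]
      refine Finset.sum_congr rfl fun s _ => ?_
      rw [map_mul, ev_C, hRgt_l]
    rw [hevA, add_comm, Finset.mul_sum]
    congr 1
    · refine Finset.sum_congr rfl fun s _ => ?_
      simp only [Sum.elim_inl, mul_assoc]
    · refine Finset.sum_congr rfl fun j _ => ?_
      simp only [Sum.elim_inr]
      rw [hRgt_r]
  · rw [Submodule.span_le]
    rintro _ ⟨s | j, rfl⟩
    · rw [SetLike.mem_coe, mem_Rel]
      intro _
      have h1 : (fun x => gt (B s x) v) ∈ Rel b v := by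
        rw [hy4]
        exact Submodule.subset_span ⟨s, rfl⟩
      rw [mem_Rel] at h1
      have h2 := (sys_iff k (fun i m => gt (a i m) v) (fun x : ι × Fin k => gt (B s x) v)).mpr (by
        intro l
        rw [← h1 l]
        refine Finset.sum_congr rfl fun x _ => ?_
        rw [hbgt])
      have h3 := congrArg (ev v t) h2
      rw [map_sum, map_zero] at h3
      rw [← h3]
      refine Finset.sum_congr rfl fun i _ => ?_
      have h4 := hevp i
      rw [hpdef, hPdef] at h4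
      change gt (R (Sum.inl s) i) (v, t) *
        gt (fun p : V × ℂ => ∑ m ∈ Finset.range (k + 1), a i m p.1 * p.2 ^ m) (v, t) = _
      rw [map_mul, hRgt_l, ← h4]
    · rw [SetLike.mem_coe, mem_Rel]
      intro _
      have h5 : ∀ i, gt (R (Sum.inr j) i) (v, t) *
          gt (fun p : V × ℂ => ∑ m ∈ Finset.range (k + 1), a i m p.1 * p.2 ^ m) (v, t) =
          (if i = j then ev v t (p i₀) * ev v t (p i) else 0) - (if i = i₀ then ev v t (p j) * ev v t (p i) else 0) := by
        intro i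
        have h4 := hevp i
        rw [hPdef] at h4
        rw [hRgt_r, ← h4, sub_mul, ite_mul, ite_mul, zero_mul]
      rw [Finset.sum_congr rfl (fun i _ => h5 i), Finset.sum_sub_distrib, Finset.sum_ite_eq' Finset.univ,
        Finset.sum_ite_eq' Finset.univ]
      simp only [Finset.mem_univ, if_true]
      ring

/-- **Oka's theorem for polynomials.**

Proof. Apply `hV` at `v₀` to the index types `ι × Fin k`, `Fin (2 * k)` and the functions
`b x l v := sysc k (fun i m => a i m v) x l` (each is either some `a i m` or `0`, so holomorphic near `v₀`): generators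
`B s : ι × Fin k → V → ℂ`, `s < N`. Use `okaFor_of_fintype` with `σ = Fin N ⊕ ι` and
`R (inl s) i := fun p => ∑ j : Fin k, B s (i, j) p.1 * p.2 ^ j`,
`R (inr j) i := fun p => (if i = j then P i₀ p else 0) - (if i = i₀ then P j p else 0)`, where
`P i p := ∑ m ∈ range (k+1), a i m p.1 * p.2 ^ m`. All holomorphic near `(v₀, t₀)`.
For `(v, t)` near `(v₀, t₀)`: `v` is near `v₀`, so all `a i m` (`m ≤ k`), `B s x` are holomorphic near `v`, `a i₀ k = 1` near `v`, and
`Rel b v = span (gt (B s) v)`. Put `p i := ∑ m ∈ range (k+1), C (gt (a i m) v) * X ^ m` (for the finitely many `m ≤ k`; one may replace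
`a i m` by `0` for `m > k` at the beginning so that all `a i m` are holomorphic near `v`), `ev (p i) = gt (P i) (v, t)` (`ev_range_gt`),
`natDegree (p i) ≤ k`, `p i₀` monic of degree `k` (`sum_monic`). Note `gt (b x l) v = sysc k (fun i m => gt (a i m) v) x l`.
(`⊆`) `h ∈ Rel`: `∑ h i * ev (p i) = 0`; `rel_poly_germ` gives `c`, `w`, `A`. By `eq_sum_fin` and `sys_iff` the family
`x ↦ (A x.1).coeff x.2` lies in `Rel b v`, so it is `∑ s, d s * gt (B s x) v` (`mem_span_gt`), hence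
`ev (A i) = ∑ s, iota (d s) * gt (R (inl s) i) (v, t)` (`ev_sum_gt`, `ev_C`). So `h i = ∑ j, c j * gt (R (inr j) i) + ∑ s, (w * iota (d s)) * gt (R (inl s) i)`
(`gt (R (inr j) i) = (if i = j then ev (p i₀) else 0) - (if i = i₀ then ev (p j) else 0)` by `gt_eq`, `gm_sub`); `mem_span_gt`,
`Fintype.sum_sum_type`.
(`⊇`) `Submodule.span_le`: `R (inr j)`: `∑ i, (δ_ij p i₀ - δ_{i i₀} p j) p i = 0`. `R (inl s)`: `gt (B s) v ∈ Rel b v` as it is one of the
generators, so by `sys_iff` `∑ i, (∑ j, C (gt (B s (i, j)) v) X ^ j) * p i = 0`, apply `ev`. -/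
theorem okaFor_poly (hV : Oka V) {v₀ : V} {t₀ : ℂ} {ι : Type} [Fintype ι] {k : ℕ} {a : ι → ℕ → V → ℂ}
    (ha : ∀ i m, HolAt (a i m) v₀) (i₀ : ι) (h₀ : ∀ᶠ v in 𝓝 v₀, a i₀ k v = 1) :
    OkaFor (fun i (_ : Unit) (p : V × ℂ) => ∑ m ∈ Finset.range (k + 1), a i m p.1 * p.2 ^ m) (v₀, t₀) := by
  obtain ⟨a', ha'⟩ : ∃ a' : ι → ℕ → V → ℂ, a' = fun i m => if m ≤ k then a i m else fun _ => 0 := ⟨_, rfl⟩
  have heq : (fun i (_ : Unit) (p : V × ℂ) => ∑ m ∈ Finset.range (k + 1), a i m p.1 * p.2 ^ m) =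
      fun i (_ : Unit) (p : V × ℂ) => ∑ m ∈ Finset.range (k + 1), a' i m p.1 * p.2 ^ m := by
    funext i _ p
    refine Finset.sum_congr rfl fun m hm => ?_
    have : m ≤ k := Nat.lt_succ_iff.mp (Finset.mem_range.mp hm)
    rw [ha']
    simp only [this, if_true]
  rw [heq]
  refine WOkaPoly_core hV ?_ ?_ i₀ ?_
  · intro i m
    rw [ha']
    by_cases hm : m ≤ k
    · simp only [hm, if_true]; exact ha i m
    · simp only [hm, if_false]; exact holAt_const 0 v₀
  · have h1 : ∀ᶠ v in 𝓝 v₀, ∀ i, ∀ m : Fin (k + 1), HolAt (a i m) v :=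
      eventually_all.mpr fun i => eventually_all.mpr fun m => (ha i m).eventually
    filter_upwards [h1] with v hv i m
    rw [ha']
    by_cases hm : m ≤ k
    · simp only [hm, if_true]; exact hv i ⟨m, Nat.lt_succ_iff.mpr hm⟩
    · simp only [hm, if_false]; exact holAt_const 0 v
  · rw [ha']
    simp only [le_refl, if_true]
    exact h₀

end Pool.Agent.DQ.W
end

section

/-! Campaign DQ, module W, file WXPrep: Weierstrass preparation on a fixed disc. -/

set_option autoImplicit false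

open Set Filter Topology Polynomial

universe u

namespace Pool.Agent.DQ

/-- The zeros in the closed disc are finite.

Proof. `g` is analytic on a neighbourhood of the closed disc (`DifferentiableOn.analyticAt` near each point), the closed disc is
convex, hence preconnected. If the zero set `Z` in it were infinite it would have an accumulation point in the compact disc
(`Set.Infinite.exists_accPt_of_subset_isCompact`), so `g` would vanish on the disc
(`AnalyticOnNhd.eqOn_zero_of_preconnected_of_frequently_eq_zero`), but `g (c + r) ≠ 0`. -/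
theorem zeros_finite {c : ℂ} {r R : ℝ} (hr : 0 < r) (hrR : r < R) {g : ℂ → ℂ} (hg : HolNear g (Metric.closedBall c R))
    (h0 : ∀ v, r ≤ ‖v - c‖ → ‖v - c‖ ≤ R → g v ≠ 0) :
    {v ∈ Metric.closedBall c R | g v = 0}.Finite ∧ ∀ v ∈ Metric.closedBall c R, ∃ᶠ w in 𝓝 v, g w ≠ 0 := by
  have han : AnalyticOnNhd ℂ g (Metric.closedBall c R) := fun x hx =>
    Complex.analyticAt_iff_eventually_differentiableAt.mpr (hg x hx)
  have hpc : IsPreconnected (Metric.closedBall c R) := (convex_closedBall c R).isPreconnected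
  have hkey : ∀ v ∈ Metric.closedBall c R, ∀ᶠ w in 𝓝[≠] v, g w ≠ 0 := by
    intro v hv
    by_contra hcon
    have hfr : ∃ᶠ w in 𝓝[≠] v, g w = 0 := by
      intro h
      exact hcon (h.mono fun w hw => hw)
    have heq := han.eqOn_zero_of_preconnected_of_frequently_eq_zero hpc hv hfr
    have hn : ‖(c + (r : ℂ)) - c‖ = r := by
      rw [add_sub_cancel_left, Complex.norm_real, Real.norm_eq_abs, abs_of_pos hr]
    have hm : c + (r : ℂ) ∈ Metric.closedBall c R := by
      rw [Metric.mem_closedBall, dist_eq_norm, hn]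
      exact hrR.le
    exact h0 (c + (r : ℂ)) (le_of_eq hn.symm) (by rw [hn]; exact hrR.le) (heq hm)
  refine ⟨?_, fun v hv => ?_⟩
  · by_contra hinf
    obtain ⟨x, hx, hacc⟩ := Set.Infinite.exists_accPt_of_subset_isCompact hinf (isCompact_closedBall c R)
      (fun v hv => hv.1)
    rw [accPt_iff_frequently] at hacc
    have h1 := hkey x hx
    rw [eventually_nhdsWithin_iff] at h1
    refine hacc (h1.mono fun y hy hy2 => ?_)
    exact hy hy2.1 hy2.2.2
  · exact ((hkey v hv).frequently).filter_mono nhdsWithin_le_nhds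

variable {V : Type u} [NormedAddCommGroup V] [NormedSpace ℂ V]

private theorem WXPrep_div {E : Type*} [NormedAddCommGroup E] [NormedSpace ℂ E] {f g : E → ℂ} {x : E}
    (hf : HolAt f x) (hg : HolAt g x) (h0 : g x ≠ 0) : HolAt (fun y => f y / g y) x := by
  filter_upwards [hf, hg, hg.differentiableAt.continuousAt.eventually_ne h0] with y h1 h2 h3
  have h4 : DifferentiableAt ℂ (fun z => f z * (g z)⁻¹) y := h1.fun_mul (h2.fun_inv h3)
  simpa only [div_eq_mul_inv] using h4

private theorem WXPrep_prod {E ι : Type*} [NormedAddCommGroup E] [NormedSpace ℂ E] {f : ι → E → ℂ} {x : E}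
    (s : Finset ι) (hf : ∀ i ∈ s, HolAt (f i) x) : HolAt (fun y => ∏ i ∈ s, f i y) x := by
  classical
  induction s using Finset.induction_on with
  | empty => simpa using HolAt.const (1 : ℂ) x
  | insert a s ha ih =>
    simp only [Finset.prod_insert ha]
    exact (hf a (Finset.mem_insert_self _ _)).mul
      (ih fun i hi => hf i (Finset.mem_insert_of_mem hi))

private theorem WXPrep_fst {a : V → ℂ} {t : V} (ha : HolAt a t) (v : ℂ) : HolAt (fun q : V × ℂ => a q.1) (t, v) :=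
  HolAt.comp (f := a) (g := fun q : V × ℂ => q.1) ha (Eventually.of_forall fun _ => differentiableAt_fst)

private theorem WXPrep_pow {t : V} (v z : ℂ) (n : ℕ) : HolAt (fun q : V × ℂ => (q.2 - z) ^ n) (t, v) :=
  Eventually.of_forall fun q => by fun_prop

private theorem WXPrep_PP {k : ℕ} {a : ℕ → V → ℂ} {t : V} (ha : ∀ i, HolAt (a i) t) (v z : ℂ) :
    HolAt (fun q : V × ℂ => DQ.W.PP k a q.1 (q.2 - z)) (t, v) := by
  unfold DQ.W.PP
  exact (WXPrep_pow v z k).add (HolAt.sum _ fun i _ => (WXPrep_fst (ha i) v).mul (WXPrep_pow v z i))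

private theorem WXPrep_mon {k : ℕ} {a : Fin k → V → ℂ} {t : V} (ha : ∀ i, HolAt (a i) t) (v : ℂ) :
    HolAt (fun q : V × ℂ => mon a q.1 q.2) (t, v) := by
  unfold mon
  have hp : ∀ n : ℕ, HolAt (fun q : V × ℂ => q.2 ^ n) (t, v) := fun n => Eventually.of_forall fun q => by fun_prop
  exact (hp k).add (HolAt.sum _ fun i _ => (WXPrep_fst (ha i) v).mul (hp i))

/-- local preparation at a point of the central fibre -/
private theorem WXPrep_loc {t₀ : V} {z : ℂ} {f : V × ℂ → ℂ} (hf : HolAt f (t₀, z))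
    (h0 : ∃ᶠ w in 𝓝 z, f (t₀, w) ≠ 0) :
    ∃ (k : ℕ) (u : V × ℂ → ℂ) (a : ℕ → V → ℂ), (∀ i, HolAt (a i) t₀) ∧ (∀ i, a i t₀ = 0) ∧
      HolAt u (t₀, z) ∧ u (t₀, z) ≠ 0 ∧ ∀ᶠ p in 𝓝 (t₀, z), f p = u p * DQ.W.PP k a p.1 (p.2 - z) := by
  obtain ⟨k, hk⟩ := DQ.W.exists_reg (f := f) hf h0
  obtain ⟨D, R, u, a, hDo, hvD, hR, -, hu, ha, ha0, hfu⟩ := DQ.W.weier_prep (f := f) hf hk (W := univ) univ_mem
  have hopen : IsOpen (D ×ˢ Metric.ball z R) := hDo.prod Metric.isOpen_ball
  have hmem : (t₀, z) ∈ D ×ˢ Metric.ball z R := ⟨hvD, Metric.mem_ball_self hR⟩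
  refine ⟨k, u, a, fun i => (holNear_iff_differentiableOn hDo).mpr (ha i) t₀ hvD, ha0,
    (holNear_iff_differentiableOn hopen).mpr hu _ hmem, (hfu _ hmem).1, ?_⟩
  filter_upwards [hopen.mem_nhds hmem] with p hp
  exact (hfu p hp).2

/-- Weierstrass preparation on a fixed disc

Proof. `Z := {v ∈ closedBall c R | f (t₀, v) = 0}` is finite and contained in `ball c r` (`zeros_finite`). For every `z ∈ Z`
`DQ.W.exists_reg` and `DQ.W.weier_prep` (with `W = univ`) give `k z`, and near `(t₀, z)`: `f = u z * PP (k z) (a z) t (v - z)`, `u z` holomorphic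
without zeros, `a z i` holomorphic near `t₀`, `a z i t₀ = 0` (so `PP (k z) (a z) t₀ (v - z) = (v - z) ^ k z`). Let `P z` be the monic
polynomials of `exists_monic_PP`, `P := ∏ z ∈ Z, P z`, monic of degree `k := ∑ k z`; `mon_of_monic` gives `a`, and
`mon a t v = ∏ z ∈ Z, p z t v`, `p z t v := PP (k z) (a z) t (v - z)`; at `t = t₀` it is `∏ (v - z) ^ k z`. Define
`u (t, v) := f (t, v) / mon a t v` if `mon a t v ≠ 0`; otherwise choose `z ∈ Z` with `p z t v = 0` and put
`u (t, v) := u z (t, v) / ∏ z' ∈ Z \ {z}, p z' t v`.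
CLAIM: for every `v₁ ∈ closedBall c R`: for `p` near `(t₀, v₁)`: `HolAt u p`, `u p ≠ 0` and `f p = u p * mon a p.1 p.2`. If `v₁ ∉ Z` then
`mon a t₀ v₁ ≠ 0` and `f (t₀, v₁) ≠ 0`, so near `(t₀, v₁)` `u = f / mon a`, all clear. If `v₁ = z ∈ Z`: near `(t₀, z)` all `p z' ≠ 0` for
`z' ≠ z` (value `(z - z') ^ k z' ≠ 0` at `(t₀, z)`, continuity) and `f = u z * p z`, so `u = u z / ∏ z' ≠ z, p z'` near `(t₀, z)` in both
cases of the definition. (`eventually_eventually_nhds` for `HolAt`.)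
By compactness of the closed disc (`IsCompact.eventually_forall_of_forall_eventually`) the claim holds for all `(t, v)`, `t` near `t₀`,
`v ∈ closedBall c R`. The roots of `mon a t₀` are the `z ∈ Z` (or there are none), in `ball c r`; `mon_root_near` with `R := r`. Take `S` open,
`t₀ ∈ S`, inside all these neighbourhoods and where all `a j` are holomorphic. -/
theorem wprep {t₀ : V} {c : ℂ} {r R : ℝ} (hr : 0 < r) (hrR : r < R) {f : V × ℂ → ℂ}
    (hf : HolNear f ({t₀} ×ˢ Metric.closedBall c R))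
    (h0 : ∀ v, r ≤ ‖v - c‖ → ‖v - c‖ ≤ R → f (t₀, v) ≠ 0) :
    ∃ (S : Set V) (k : ℕ) (a : Fin k → V → ℂ) (u : V × ℂ → ℂ), IsOpen S ∧ t₀ ∈ S ∧
      (∀ j, HolNear (a j) S) ∧ (∀ t ∈ S, ∀ v, mon a t v = 0 → ‖v - c‖ < r) ∧
      HolNear u (S ×ˢ Metric.closedBall c R) ∧
      ∀ t ∈ S, ∀ v ∈ Metric.closedBall c R, u (t, v) ≠ 0 ∧ f (t, v) = u (t, v) * mon a t v := by
  classical
  have hf' : ∀ v ∈ Metric.closedBall c R, HolAt f (t₀, v) := fun v hv => hf (t₀, v) ⟨rfl, hv⟩
  have hg : HolNear (fun v => f (t₀, v)) (Metric.closedBall c R) := by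
    intro v hv
    refine HolAt.comp (f := f) (g := fun w : ℂ => (t₀, w)) (hf' v hv) (Eventually.of_forall fun w => ?_)
    exact (differentiableAt_const t₀).prodMk differentiableAt_id
  obtain ⟨hfin, hfr⟩ := zeros_finite hr hrR hg h0
  set Z : Finset ℂ := hfin.toFinset with hZ
  have hZmem : ∀ z, z ∈ Z ↔ z ∈ Metric.closedBall c R ∧ f (t₀, z) = 0 := by
    intro z
    rw [hZ, Set.Finite.mem_toFinset]
    rfl
  have hloc := fun z (hz : z ∈ Metric.closedBall c R) => WXPrep_loc (hf' z hz) (hfr z hz)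
  choose! kk uu aa haa haa0 huu huu0 hfe using hloc
  -- outside the disc the coefficients are irrelevant: we work on `Z` only
  have hZc : ∀ z ∈ Z, z ∈ Metric.closedBall c R := fun z hz => ((hZmem z).mp hz).1
  have hpoly : ∀ z, z ∈ Z → ∃ P : (HH t₀)[X], P.Monic ∧ P.natDegree = kk z ∧
      ∀ t v, evH t₀ t v P = DQ.W.PP (kk z) (aa z) t (v - z) := fun z hz =>
    exists_monic_PP (kk z) (haa z (hZc z hz)) z
  choose! PZ hPm _hPd hPe using hpoly
  have hPmon : (∏ z ∈ Z, PZ z).Monic := monic_prod_of_monic _ _ fun z hz => hPm z hz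
  obtain ⟨a, ha, hae⟩ := mon_of_monic hPmon (k := (∏ z ∈ Z, PZ z).natDegree) rfl
  set p : ℂ → V → ℂ → ℂ := fun z t v => DQ.W.PP (kk z) (aa z) t (v - z) with hp
  have hmon : ∀ t v, mon a t v = ∏ z ∈ Z, p z t v := by
    intro t v
    rw [hae, map_prod]
    exact Finset.prod_congr rfl fun z hz => hPe z hz t v
  have hp0 : ∀ z ∈ Z, ∀ v, p z t₀ v = (v - z) ^ kk z := by
    intro z hz v
    have h1 : ∑ i ∈ Finset.range (kk z), aa z i t₀ * (v - z) ^ i = 0 :=
      Finset.sum_eq_zero fun i _ => by rw [haa0 z (hZc z hz) i, zero_mul]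
    simp only [hp, DQ.W.PP]
    rw [h1, add_zero]
  have hpne : ∀ z ∈ Z, ∀ v, v ≠ z → p z t₀ v ≠ 0 := by
    intro z hz v hv
    rw [hp0 z hz v]
    exact pow_ne_zero _ (sub_ne_zero.mpr hv)
  have hpH : ∀ z ∈ Z, ∀ v, HolAt (fun q : V × ℂ => p z q.1 q.2) (t₀, v) := fun z hz v =>
    WXPrep_PP (haa z (hZc z hz)) v z
  set zs : V × ℂ → ℂ := fun q => if h : ∃ z ∈ Z, p z q.1 q.2 = 0 then h.choose else 0 with hzs
  have hzs1 : ∀ q : V × ℂ, mon a q.1 q.2 = 0 → zs q ∈ Z ∧ p (zs q) q.1 q.2 = 0 := by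
    intro q hq
    rw [hmon, Finset.prod_eq_zero_iff] at hq
    have h1 : zs q = hq.choose := by simp only [hzs, dif_pos hq]
    rw [h1]
    exact hq.choose_spec
  set u : V × ℂ → ℂ := fun q => if mon a q.1 q.2 = 0 then
    uu (zs q) q / ∏ z' ∈ Z.erase (zs q), p z' q.1 q.2 else f q / mon a q.1 q.2 with hu
  have hclaim : ∀ v₁ ∈ Metric.closedBall c R, ∀ᶠ q : V × ℂ in 𝓝 (t₀, v₁),
      HolAt u q ∧ u q ≠ 0 ∧ f q = u q * mon a q.1 q.2 := by
    intro v₁ hv₁
    suffices h : ∃ w : V × ℂ → ℂ, HolAt w (t₀, v₁) ∧ w (t₀, v₁) ≠ 0 ∧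
        ∀ᶠ q : V × ℂ in 𝓝 (t₀, v₁), u q = w q ∧ f q = w q * mon a q.1 q.2 by
      obtain ⟨w, hw, hw0, hwe⟩ := h
      have h1 : HolAt u (t₀, v₁) := hw.congr (hwe.mono fun q hq => hq.1.symm)
      filter_upwards [h1.eventually, hw.differentiableAt.continuousAt.eventually_ne hw0, hwe] with q h2 h3 h4
      exact ⟨h2, by rw [h4.1]; exact h3, by rw [h4.1]; exact h4.2⟩
    by_cases hv₁Z : v₁ ∈ Z
    · have hcof : HolAt (fun q : V × ℂ => ∏ z' ∈ Z.erase v₁, p z' q.1 q.2) (t₀, v₁) :=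
        WXPrep_prod _ fun z' hz' => hpH z' (Finset.mem_of_mem_erase hz') v₁
      have hcof0 : ∏ z' ∈ Z.erase v₁, p z' t₀ v₁ ≠ 0 :=
        Finset.prod_ne_zero_iff.mpr fun z' hz' =>
          hpne z' (Finset.mem_of_mem_erase hz') v₁ (Finset.ne_of_mem_erase hz').symm
      refine ⟨fun q => uu v₁ q / ∏ z' ∈ Z.erase v₁, p z' q.1 q.2, WXPrep_div (huu v₁ hv₁) hcof hcof0, ?_, ?_⟩
      · exact div_ne_zero (huu0 v₁ hv₁) hcof0
      · have hne : ∀ᶠ q : V × ℂ in 𝓝 (t₀, v₁), ∏ z' ∈ Z.erase v₁, p z' q.1 q.2 ≠ 0 :=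
          hcof.differentiableAt.continuousAt.eventually_ne hcof0
        filter_upwards [hne, hfe v₁ hv₁] with q hq1 hq2
        have hm : mon a q.1 q.2 = p v₁ q.1 q.2 * ∏ z' ∈ Z.erase v₁, p z' q.1 q.2 := by
          rw [hmon, Finset.mul_prod_erase Z (fun z => p z q.1 q.2) hv₁Z]
        have hq2' : f q = uu v₁ q * p v₁ q.1 q.2 := hq2
        refine ⟨?_, ?_⟩
        · by_cases hm0 : mon a q.1 q.2 = 0
          · obtain ⟨h1, h2⟩ := hzs1 q hm0
            have h3 : zs q = v₁ := by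
              by_contra hcon
              exact Finset.prod_ne_zero_iff.mp hq1 (zs q) (Finset.mem_erase.mpr ⟨hcon, h1⟩) h2
            simp only [hu, if_pos hm0, h3]
          · simp only [hu, if_neg hm0]
            rw [hm] at hm0 ⊢
            have h4 : p v₁ q.1 q.2 ≠ 0 := left_ne_zero_of_mul hm0
            rw [hq2', div_eq_div_iff hm0 hq1]
            ring
        · rw [hm, hq2']
          field_simp
    · have hm0 : mon a t₀ v₁ ≠ 0 := by
        rw [hmon]
        exact Finset.prod_ne_zero_iff.mpr fun z hz => hpne z hz v₁ (fun h => hv₁Z (h ▸ hz))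
      have hf0 : f (t₀, v₁) ≠ 0 := fun h => hv₁Z ((hZmem v₁).mpr ⟨hv₁, h⟩)
      have hmH := WXPrep_mon ha v₁
      refine ⟨fun q => f q / mon a q.1 q.2, WXPrep_div (hf' v₁ hv₁) hmH hm0, div_ne_zero hf0 hm0, ?_⟩
      have hne : ∀ᶠ q : V × ℂ in 𝓝 (t₀, v₁), mon a q.1 q.2 ≠ 0 :=
        hmH.differentiableAt.continuousAt.eventually_ne hm0
      filter_upwards [hne] with q hq
      exact ⟨by simp only [hu, if_neg hq], (div_mul_cancel₀ _ hq).symm⟩
  have hev1 : ∀ᶠ t in 𝓝 t₀, ∀ v ∈ Metric.closedBall c R,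
      HolAt u (t, v) ∧ u (t, v) ≠ 0 ∧ f (t, v) = u (t, v) * mon a t v :=
    (isCompact_closedBall c R).eventually_forall_of_forall_eventually fun v hv => hclaim v hv
  obtain ⟨ρ, _, hρr, hev2⟩ := mon_root_near (a := a) (t₀ := t₀) (c := c)
    (fun j => (ha j).differentiableAt.continuousAt) hr (fun v hv => by
      rw [hmon, Finset.prod_eq_zero_iff] at hv
      obtain ⟨z, hz, hzv⟩ := hv
      have hvz : v = z := by
        by_contra hcon
        exact hpne z hz v hcon hzv
      rw [hvz]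
      by_contra hcon
      push Not at hcon
      have h1 := (hZmem z).mp hz
      have h2 := h1.1
      rw [Metric.mem_closedBall, dist_eq_norm] at h2
      exact h0 z hcon h2 h1.2)
  have hev3 : ∀ᶠ t in 𝓝 t₀, ∀ j, HolAt (a j) t := eventually_all.mpr fun j => (ha j).eventually
  obtain ⟨S, hS, hSo, hSt⟩ := eventually_nhds_iff.mp (hev1.and (hev2.and hev3))
  refine ⟨S, _, a, u, hSo, hSt, fun j t ht => (hS t ht).2.2 j, fun t ht v hv => ((hS t ht).2.1 v hv).trans hρr,
    ?_, fun t ht v hv => ((hS t ht).1 v hv).2⟩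
  rintro ⟨t, v⟩ ⟨ht, hv⟩
  exact ((hS t ht).1 v hv).1

end Pool.Agent.DQ
end

section

/-! # DQ, module H: from functions to sections -/

set_option autoImplicit false

open Set Filter Topology

universe u v

namespace Pool.Agent.DQ.H

variable {V : Type u} [NormedAddCommGroup V] [NormedSpace ℂ V]
  {ι : Type*} [LinearOrder ι] {U : Finset ι → Set V}

/-- value of a germ -/
private noncomputable def SecA_v {x : V} (g : (O V).St x) : ℂ := val (x := x) g

/-- germ of a function -/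
private noncomputable def SecA_g (f : V → ℂ) (x : V) : (O V).St x := gm f x

private theorem SecA_v_add {x : V} (g g' : (O V).St x) : SecA_v (g + g') = SecA_v g + SecA_v g' :=
  val_add (x := x) g g'

private theorem SecA_v_zero {x : V} : SecA_v (0 : (O V).St x) = 0 := by
  have := SecA_v_add (0 : (O V).St x) 0
  rw [add_zero] at this
  simpa using this

/-- Proof. Apply `h` to `fun T x => val (z T x)` (`sec_val`; cocycle condition by `dC_map` with `val`, `val_add`, `val` of zero is zero). It gives holomorphic `y`; put `y' T x = gm (y T) x`. For `T.card = a` both `fun x => dC (fun T' => y' T' x) T` and `z T` are sections over the open set `U T` (`y' T'` is a section over `U T' ⊇ U T` for `T' = T.erase j`; finite sums and integer multiples of sections) with the same values (`dC_map`, `val_gm`), so they agree (`sec_eq_zero` for the difference). -/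
theorem colEx_O (hU : ∀ T, IsOpen (U T)) (hanti : ∀ T T', T ⊆ T' → U T' ⊆ U T) {a : ℕ}
    (h : ColEx (G := fun _ : V => ℂ) U HolAt a) : ColEx (G := (O V).St) U (O V).At a := by
  intro z hz hzc
  have hdC : ∀ (w : Finset ι → (x : V) → (O V).St x) (T : Finset ι) (x : V),
      SecA_v (dC (fun T' => w T' x) T) = dC (fun T' => SecA_v (w T' x)) T := by
    intro w T x
    exact dC_map (fun g : (O V).St x => SecA_v g) SecA_v_add (fun T' => w T' x) T
  obtain ⟨y, hy1, hy2⟩ := h (fun T x => SecA_v (z T x)) (fun T hT x hx => (sec_val (hz T hT x hx)).1)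
    (fun T hT x hx => by
      have h1 := hdC z T x
      rw [hzc T hT x hx, SecA_v_zero] at h1
      exact h1.symm)
  have hy' : ∀ T, T.card + 1 = a → ∀ x ∈ U T, (O V).At (fun x => SecA_g (y T) x) x := fun T hT x hx =>
    ⟨y T, hy1 T hT x hx, Eventually.of_forall fun _ => rfl⟩
  refine ⟨fun T x => SecA_g (y T) x, hy', ?_⟩
  intro T hT x hx
  have hsec : ∀ x ∈ U T, (O V).At (fun x => dC (fun T' => SecA_g (y T') x) T - z T x) x := by
    intro x hx
    have h1 : ∀ j ∈ T, (O V).At (fun x => sg j T • SecA_g (y (T.erase j)) x) x := by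
      intro j hj
      have h2 : (O V).At (fun x => SecA_g (y (T.erase j)) x) x := by
        apply hy' _ _ x (hanti _ _ (Finset.erase_subset j T) hx)
        rw [Finset.card_erase_add_one hj, hT]
      have h3 : sg j T = 1 ∨ sg j T = -1 := by
        unfold sg
        exact neg_one_pow_eq_or ℤ _
      rcases h3 with h3 | h3
      · rw [h3]
        refine (O V).congr h2 (Eventually.of_forall fun y => ?_)
        rw [one_smul]
      · rw [h3]
        refine (O V).congr ((O V).neg h2) (Eventually.of_forall fun y => ?_)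
        rw [neg_smul, one_smul]
        rfl
    have h4 := ERing.sum (R := O V) T (x := x) (mem_univ x) h1
    refine (O V).congr ((O V).add h4 ((O V).neg (hz T hT x hx))) (Eventually.of_forall fun y => ?_)
    rw [sub_eq_add_neg, Pi.add_apply, Finset.sum_apply]
    rfl
  have hzero := sec_eq_zero (hU T) hsec (by
    intro x hx
    have e1 : SecA_v (dC (fun T' => SecA_g (y T') x) T - z T x) =
        SecA_v (dC (fun T' => SecA_g (y T') x) T) - SecA_v (z T x) :=
      map_sub (AddMonoidHom.mk' (fun g : (O V).St x => SecA_v g) SecA_v_add) _ _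
    refine e1.trans ?_
    rw [hdC (fun T' x => SecA_g (y T') x) T x, sub_eq_zero, ← hy2 T hT x hx]
    apply dC_congr
    intro j hj
    exact val_gm (hy1 _ (by rw [Finset.card_erase_add_one hj, hT]) x
      (hanti _ _ (Finset.erase_subset j T) hx)))
  exact sub_eq_zero.mp (hzero x hx)

end Pool.Agent.DQ.H
end

section

/-! # DQ, module H: division by the parameter -/

set_option autoImplicit false

open Set Filter Topology

universe u v

namespace Pool.Agent.DQ.H

variable {V : Type u} [NormedAddCommGroup V] [NormedSpace ℂ V]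
  {ι : Type*} [LinearOrder ι] {U : Finset ι → Set V} (𝓐 : Defo.{u, v} V)

/-- cocycles with values in a deformation -/
def Coc (U : Finset ι → Set V) (a : ℕ) (z : Finset ι → (x : V) → 𝓐.A.St x) : Prop :=
  (∀ T, T.card = a → ∀ x ∈ U T, 𝓐.A.At (z T) x) ∧
    ∀ T, T.card = a + 1 → ∀ x ∈ U T, dC (fun T' => z T' x) T = 0

private theorem SecB_sg (j : ι) (T : Finset ι) : sg j T = 1 ∨ sg j T = -1 :=
  neg_one_pow_eq_or ℤ _

private theorem SecB_zsmul {R : ERing.{u, v} V} {s : (x : V) → R.St x} {x : V} (hs : R.At s x)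
    (j : ι) (T : Finset ι) : R.At (fun y => sg j T • s y) x := by
  rcases SecB_sg j T with h | h
  · rw [h]
    refine R.congr hs (Eventually.of_forall fun y => ?_)
    rw [one_zsmul]
  · rw [h]
    refine R.congr (R.neg hs) (Eventually.of_forall fun y => ?_)
    rw [neg_one_zsmul]
    rfl

private theorem SecB_dC {R : ERing.{u, v} V} {y : Finset ι → (x : V) → R.St x} {T : Finset ι}
    {x : V} (hx : x ∈ R.dom) (h : ∀ j ∈ T, R.At (y (T.erase j)) x) :
    R.At (fun x => dC (fun T' => y T' x) T) x := by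
  have h1 := ERing.sum T (s := fun j => (fun x => sg j T • y (T.erase j) x)) hx
    (fun j hj => SecB_zsmul (h j hj) j T)
  refine R.congr h1 (Eventually.of_forall fun w => ?_)
  rw [Finset.sum_apply]
  rfl

/-- Proof. Apply `h` to `fun T x => 𝓐.red x (z T x)` (`𝓐.red_at`, `dC_map` with `𝓐.red_add`, `red_zero'`); it gives `y₀`; for every `T` with `T.card + 1 = a` lift `y₀ T` over `U T` by `𝓐.lift_at` to `y T` (`choose`; other `T`: zero). For `T.card = a` the section `z T x - dC (fun T' => y T' x) T` over `U T` has reduction zero, so by `𝓐.div_at` it is `𝓐.hb x * z' T x` with a section `z' T`. Cocycle: for `T.card = a + 1`, `x ∈ U T`: `𝓐.hb x * dC (fun T' => z' T' x) T = dC (fun T' => z T' x - dC _ T') T = 0` (`dC_map` for multiplication by `𝓐.hb x`, `dC_congr` because `x ∈ U (T.erase j)`, `dC_sub`, `dC_dC`, cocycle `z`), `𝓐.hb_reg`. -/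
theorem step_A (hU : ∀ T, IsOpen (U T)) (hanti : ∀ T T', T ⊆ T' → U T' ⊆ U T)
    (hd : U ∅ ⊆ 𝓐.A.dom) {a : ℕ} (h : ColEx (G := (O V).St) U (O V).At a)
    (z : Finset ι → (x : V) → 𝓐.A.St x) (hz : Coc 𝓐 U a z) :
    ∃ y z' : Finset ι → (x : V) → 𝓐.A.St x, (∀ T, T.card + 1 = a → ∀ x ∈ U T, 𝓐.A.At (y T) x) ∧
      Coc 𝓐 U a z' ∧ ∀ T, T.card = a → ∀ x ∈ U T,
        z T x = dC (fun T' => y T' x) T + 𝓐.hb x * z' T x := by
  classical
  have hsub : ∀ T, U T ⊆ 𝓐.A.dom := fun T => (hanti ∅ T (Finset.empty_subset _)).trans hd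
  obtain ⟨y0, hy0, hy0'⟩ := h (fun T x => 𝓐.red x (z T x))
    (fun T hT x hx => 𝓐.red_at (hsub T hx) (hz.1 T hT x hx))
    (fun T hT x hx => by
      have h1 := dC_map (𝓐.red x) (𝓐.red_add x (hsub T hx)) (fun T' => z T' x) T
      rw [hz.2 T hT x hx, 𝓐.red_zero' (hsub T hx)] at h1
      exact h1.symm)
  have hl : ∀ T : Finset ι, ∃ y : (x : V) → 𝓐.A.St x, T.card + 1 = a →
      (∀ x ∈ U T, 𝓐.A.At y x) ∧ ∀ x ∈ U T, 𝓐.red x (y x) = y0 T x := by
    intro T
    by_cases hT : T.card + 1 = a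
    · obtain ⟨y, h1, h2⟩ := 𝓐.lift_at (hU T) (hsub T) (hy0 T hT)
      exact ⟨y, fun _ => ⟨h1, h2⟩⟩
    · exact ⟨0, fun h => absurd h hT⟩
  choose y hy using hl
  have hcard : ∀ (T : Finset ι) (j : ι) (b : ℕ), j ∈ T → T.card = b + 1 →
      (T.erase j).card = b := by
    intro T j b hj hT
    rw [Finset.card_erase_of_mem hj, hT]
    rfl
  have hcard' : ∀ (T : Finset ι) (j : ι), j ∈ T → T.card = a → (T.erase j).card + 1 = a := by
    intro T j hj hT
    rw [Finset.card_erase_add_one hj, hT]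
  have hm : ∀ T : Finset ι, ∃ z' : (x : V) → 𝓐.A.St x, T.card = a →
      (∀ x ∈ U T, 𝓐.A.At z' x) ∧
        ∀ x ∈ U T, z T x - dC (fun T' => y T' x) T = 𝓐.hb x * z' x := by
    intro T
    by_cases hT : T.card = a
    · have h1 : ∀ x ∈ U T, 𝓐.A.At (fun x => z T x - dC (fun T' => y T' x) T) x := by
        intro x hx
        exact ERing.sub (hz.1 T hT x hx) (SecB_dC (hsub T hx) fun j hj =>
          (hy (T.erase j) (hcard' T j hj hT)).1 x (hanti _ _ (Finset.erase_subset j T) hx))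
      have h2 : ∀ x ∈ U T, 𝓐.red x (z T x - dC (fun T' => y T' x) T) = 0 := by
        intro x hx
        have h3 : 𝓐.red x (z T x - dC (fun T' => y T' x) T) =
            𝓐.red x (z T x) - 𝓐.red x (dC (fun T' => y T' x) T) :=
          map_sub (𝓐.redHom (hsub T hx)) _ _
        have h4 := dC_map (𝓐.red x) (𝓐.red_add x (hsub T hx)) (fun T' => y T' x) T
        have h5 : dC (fun T' => 𝓐.red x (y T' x)) T = dC (fun T' => y0 T' x) T :=
          dC_congr fun j hj => (hy (T.erase j) (hcard' T j hj hT)).2 x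
            (hanti _ _ (Finset.erase_subset j T) hx)
        rw [h3, h4, h5, hy0' T hT x hx, sub_self]
      obtain ⟨z', h6, h7⟩ := 𝓐.div_at (hU T) (hsub T) h1 h2
      exact ⟨z', fun _ => ⟨h6, h7⟩⟩
    · exact ⟨0, fun h => absurd h hT⟩
  choose z' hz' using hm
  refine ⟨y, z', fun T hT => (hy T hT).1, ⟨fun T hT => (hz' T hT).1, ?_⟩, ?_⟩
  · intro T hT x hx
    apply 𝓐.hb_reg x (hsub T hx)
    have h1 := dC_map (fun b => 𝓐.hb x * b) (fun b c => mul_add _ _ _) (fun T' => z' T' x) T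
    have h2 : dC (fun T' => 𝓐.hb x * z' T' x) T =
        dC (fun T' => z T' x - dC (fun T'' => y T'' x) T') T :=
      dC_congr fun j hj => ((hz' (T.erase j) (hcard T j a hj hT)).2 x
        (hanti _ _ (Finset.erase_subset j T) hx)).symm
    have h3 := dC_sub (fun T' => z T' x) (dC fun T'' => y T'' x) T
    rw [hz.2 T hT x hx, dC_dC, sub_self] at h3
    exact h1.trans (h2.trans h3)
  · intro T hT x hx
    rw [← (hz' T hT).2 x hx]
    abel

end Pool.Agent.DQ.H
end

section

/-! # DQ, module H: successive approximation -/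

set_option autoImplicit false

open Set Filter Topology

universe u v

namespace Pool.Agent.DQ.H

variable {V : Type u} [NormedAddCommGroup V] [NormedSpace ℂ V]
  {ι : Type*} [LinearOrder ι] {U : Finset ι → Set V} (𝓐 : Defo.{u, v} V)

/-- Proof. Iterate `step_A` (`choose`, `Nat.rec`; see the proof of `Defo.iterate` in `DIter.lean`): cocycles `z_k`, `z_0 = z`, and cochains `y_k` with `z_k T x = dC y_k T x + 𝓐.hb x * z_{k+1} T x`. By `𝓐.complete` for every `T` with `T.card + 1 = a` there is `y T` with `y T x = ∑_{i<k} 𝓐.hb x ^ i * y_i T x + 𝓐.hb x ^ k * b`. For `T.card = a`, `x ∈ U T`, all `k`: `z T x - dC (fun T' => y T' x) T` is in `𝓐.hb x ^ k * _` (`dC` of `𝓐.hb x ^ k * b_{T'}` is `𝓐.hb x ^ k * dC b`, `dC_map`), so it is zero by `𝓐.sep`. -/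
theorem colEx_A (hU : ∀ T, IsOpen (U T)) (hanti : ∀ T T', T ⊆ T' → U T' ⊆ U T)
    (hd : U ∅ ⊆ 𝓐.A.dom) {a : ℕ} (h : ColEx (G := (O V).St) U (O V).At a) :
    ColEx (G := 𝓐.A.St) U 𝓐.A.At a := by
  classical
  intro z hz hzc
  have hUd : ∀ T, U T ⊆ 𝓐.A.dom := fun T => (hanti ∅ T (Finset.empty_subset _)).trans hd
  have hst := fun z hz => step_A 𝓐 hU hanti hd h z hz
  choose! Y nx hY hnx hstep using hst
  let S : ℕ → Finset ι → (x : V) → 𝓐.A.St x := fun k => Nat.rec z (fun _ t => nx t) k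
  have hS : ∀ k, Coc 𝓐 U a (S k) := by
    intro k
    induction k with
    | zero => exact ⟨hz, hzc⟩
    | succ k ih => exact hnx _ ih
  have hSk : ∀ k, ∀ T, T.card = a → ∀ x ∈ U T,
      S k T x = dC (fun T' => Y (S k) T' x) T + 𝓐.hb x * S (k + 1) T x :=
    fun k T hT x hx => hstep _ (hS k) T hT x hx
  have hsum : ∀ k, ∀ T, T.card = a → ∀ x ∈ U T, z T x =
      dC (fun T' => ∑ i ∈ Finset.range k, 𝓐.hb x ^ i * Y (S i) T' x) T +
        𝓐.hb x ^ k * S k T x := by
    intro k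
    induction k with
    | zero =>
      intro T hT x hx
      simp [S, dC]
    | succ k ih =>
      intro T hT x hx
      rw [ih T hT x hx, hSk k T hT x hx, mul_add, ← mul_assoc, ← pow_succ, ← add_assoc]
      congr 1
      rw [dC_map (fun b => 𝓐.hb x ^ k * b) (fun a b => mul_add _ _ _), ← dC_add]
      simp only [Finset.sum_range_succ]
  have hlim : ∀ T : Finset ι, ∃ s : (x : V) → 𝓐.A.St x, T.card + 1 = a →
      (∀ x ∈ U T, 𝓐.A.At s x) ∧ ∀ k : ℕ, ∀ x ∈ U T, ∃ b,
        s x = (∑ i ∈ Finset.range k, 𝓐.hb x ^ i * Y (S i) T x) + 𝓐.hb x ^ k * b := by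
    intro T
    by_cases hT : T.card + 1 = a
    · obtain ⟨s, hs, hs'⟩ := 𝓐.complete (U := U T) (fun k => Y (S k) T) (hU T) (hUd T)
        (fun k x hx => hY _ (hS k) T hT x hx)
      exact ⟨s, fun _ => ⟨hs, hs'⟩⟩
    · exact ⟨fun _ => 0, fun h' => absurd h' hT⟩
  choose y hy using hlim
  refine ⟨y, fun T hT => (hy T hT).1, fun T hT x hx => ?_⟩
  symm
  rw [← sub_eq_zero]
  apply 𝓐.sep x (hUd T hx)
  intro k
  have hb0 : ∀ T' : Finset ι, ∃ b, T'.card + 1 = a → x ∈ U T' →
      y T' x = (∑ i ∈ Finset.range k, 𝓐.hb x ^ i * Y (S i) T' x) + 𝓐.hb x ^ k * b := by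
    intro T'
    by_cases hT' : T'.card + 1 = a ∧ x ∈ U T'
    · obtain ⟨b, hb⟩ := (hy T' hT'.1).2 k x hT'.2
      exact ⟨b, fun _ _ => hb⟩
    · exact ⟨0, fun h1 h2 => absurd ⟨h1, h2⟩ hT'⟩
  choose b hb using hb0
  refine ⟨S k T x - dC b T, ?_⟩
  have e1 : dC (fun T' => y T' x) T =
      dC (fun T' => (∑ i ∈ Finset.range k, 𝓐.hb x ^ i * Y (S i) T' x) + 𝓐.hb x ^ k * b T') T := by
    apply dC_congr
    intro j hj
    have hc : (T.erase j).card + 1 = a := by rw [Finset.card_erase_add_one hj, hT]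
    exact hb _ hc (hanti _ _ (Finset.erase_subset _ _) hx)
  rw [e1, dC_add, hsum k T hT x hx, mul_sub,
    dC_map (fun b => 𝓐.hb x ^ k * b) (fun a b => mul_add _ _ _) b T]
  abel

end Pool.Agent.DQ.H
end

section

/-! # DQ, module G, task GC2: the projection of an analytic set, near a point isolated in its fibre -/

set_option autoImplicit false

open Set Filter Topology Module

universe u

namespace Pool.Agent.DQ

variable {E : Type u} [NormedAddCommGroup E] [NormedSpace ℂ E]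

private theorem GC2_prod {ι : Type*} {f : ι → E → ℂ} {x : E} (s : Finset ι)
    (hf : ∀ i ∈ s, HolAt (f i) x) : HolAt (fun y => ∏ i ∈ s, f i y) x := by
  classical
  induction s using Finset.induction_on with
  | empty => simpa using HolAt.const (1 : ℂ) x
  | insert a s ha ih =>
    simp only [Finset.prod_insert ha]
    exact (hf a (Finset.mem_insert_self _ _)).mul
      (ih fun i hi => hf i (Finset.mem_insert_of_mem hi))

private theorem GC2_comp {k : ℕ} (a : Fin k → E → ℂ) {t : E} (ha : ∀ i, HolAt (a i) t)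
    (i l : Fin k) : HolAt (fun s => comp (fun i => a i s) i l) t := by
  by_cases h1 : (l : ℕ) + 1 < k
  · have h2 : (fun s => comp (fun i => a i s) i l) =
        fun _ => if (i : ℕ) = l + 1 then (1 : ℂ) else 0 := by
      funext s
      simp [comp, h1]
    rw [h2]
    exact HolAt.const _ _
  · have h2 : (fun s => comp (fun i => a i s) i l) = fun s => - a i s := by
      funext s
      simp [comp, h1]
    rw [h2]
    exact (ha i).neg

private theorem GC2_pow {k : ℕ} (a : Fin k → E → ℂ) {t : E} (ha : ∀ i, HolAt (a i) t) (n : ℕ) :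
    ∀ i l : Fin k, HolAt (fun s => (comp (fun i => a i s) ^ n) i l) t := by
  induction n with
  | zero =>
    intro i l
    simp only [pow_zero]
    exact HolAt.const _ _
  | succ n ih =>
    intro i l
    simp only [pow_succ, Matrix.mul_apply]
    exact HolAt.sum _ fun j _ => (ih i j).mul (GC2_comp a ha j l)

private theorem GC2_val {k : ℕ} (a b : Fin k → E → ℂ) {t : E} (ha : ∀ i, HolAt (a i) t)
    (hb : ∀ i, HolAt (b i) t) (i l : Fin k) :
    HolAt (fun s => compVal (fun i => a i s) (fun i => b i s) i l) t := by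
  simp only [compVal, Matrix.sum_apply, Matrix.smul_apply, smul_eq_mul]
  exact HolAt.sum _ fun j _ => (hb j).mul (GC2_pow a ha _ i l)

/-- The minors of `common_root_iff` are holomorphic if the coefficients are.

Proof. The entries of `compVal` are polynomials in the coefficients: `comp` has holomorphic entries; products and sums of matrices with holomorphic
entries (induction on the power) have holomorphic entries (`HolAt.sum`, `HolAt.mul`, `HolAt.const`, `HolAt.neg`); the determinant is a finite sum of finite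
products (`Matrix.det_apply`; a finite product of holomorphic functions: induction on the finset). -/
theorem hol_minor {k m : ℕ} (a : Fin k → E → ℂ) (b : Fin m → Fin k → E → ℂ) {t : E} (ha : ∀ i, HolAt (a i) t)
    (hb : ∀ j i, HolAt (b j i) t) (σ : Fin k → Fin m × Fin k) :
    HolAt (fun s => (Matrix.of fun i l =>
      compVal (fun i => a i s) (fun i => b (σ l).1 i s) i (σ l).2).det) t := by
  simp only [Matrix.det_apply', Matrix.of_apply]
  refine HolAt.sum _ fun τ _ => (HolAt.const _ _).mul (GC2_prod _ fun l _ => ?_)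
  exact GC2_val a (b (σ l).1) ha (hb _) _ _

/-- **Image of an analytic set under a projection with finite fibre, local form.**

Proof. `𝓝[≠] v₀` is nontrivial and for each `j` either `f j (t₀, v) = 0` for all `v` near `v₀` or `f j (t₀, v) ≠ 0` for all `v ≠ v₀` near `v₀`
(`hol_line`, `AnalyticAt.eventually_eq_zero_or_eventually_ne_zero`). If the first alternative were true for all `j` then `h0` would be violated. So there is `j₀`
with `f j₀ (t₀, v) ≠ 0` for `0 < ‖v - v₀‖ < ρ'`, some `ρ' > 0`. Choose `0 < R < min ρ ρ'` such that also all `f j` are holomorphic near all points of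
`{t₀} ×ˢ closedBall v₀ R` (`HolAt` is an open condition, `HolAt.eventually`, and `{t₀} ×ˢ closedBall v₀ R` is contained in a small ball around `(t₀, v₀)`).
`wprep` with `r := R / 2`, `c := v₀`, `f := f j₀`: open `S₁ ∋ t₀`, `k`, `a`, `u` with `f j₀ = u * mon a` on `S₁ ×ˢ closedBall v₀ R`, `u ≠ 0`, the roots of
`mon a t` in `ball v₀ (R/2)`. The set of points where all `f j` are holomorphic is open and contains the compact `{t₀} ×ˢ closedBall v₀ R`: by the tube lemma
(`generalized_tube_lemma`, or `HolNear.exists_tube` of file DHol) it contains `S₂ ×ˢ closedBall v₀ R` with `S₂` open. Let `S = S₁ ∩ S₂`. `wdiv` on `S`, ball `v₀ R`, gives for every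
`j`: `f j (t, v) = q j (t, v) * mon a t v + ∑ i, b j i t * v ^ i` for `t ∈ S`, `v ∈ ball v₀ R`.
For `t ∈ S`: `(∃ v ∈ closedBall v₀ R, ∀ j, f j (t, v) = 0) ↔ ∃ v, mon a t v = 0 ∧ ∀ j, ∑ i, b j i t * v ^ i = 0`:
(→) `f j₀ (t, v) = 0` and `u ≠ 0` give `mon a t v = 0`, so `v ∈ ball v₀ (R/2) ⊆ ball v₀ R` and the division formula gives the rest. (←) `v ∈ ball v₀ (R/2)`, division formula.
By `common_root_iff` this holds iff all minors vanish; the minors are indexed by the finite type `Fin k → Fin m × Fin k`: reindex by `Fin p`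
(`Fintype.equivFin`); holomorphic by `hol_minor`. -/
theorem local_image [FiniteDimensional ℂ E] {t₀ : E} {v₀ : ℂ} {m : ℕ} (f : Fin m → E × ℂ → ℂ) (hf : ∀ j, HolAt (f j) (t₀, v₀))
    (h0 : ∀ᶠ v in 𝓝[≠] v₀, ∃ j, f j (t₀, v) ≠ 0) {ρ : ℝ} (hρ : 0 < ρ) :
    ∃ (R : ℝ) (S : Set E) (p : ℕ) (g : Fin p → E → ℂ), 0 < R ∧ R < ρ ∧ IsOpen S ∧ t₀ ∈ S ∧
      (∀ i, HolNear (g i) S) ∧
      ∀ t ∈ S, (∃ v ∈ Metric.closedBall v₀ R, ∀ j, f j (t, v) = 0) ↔ ∀ i, g i t = 0 := by
  classical
  have hcont : Continuous fun v : ℂ => (t₀, v) := by fun_prop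
  -- one of the functions does not vanish near `v₀`
  obtain ⟨j₀, hj₀⟩ : ∃ j, ∀ᶠ v in 𝓝[≠] v₀, f j (t₀, v) ≠ 0 := by
    by_contra hcon
    push Not at hcon
    have h1 : ∀ j, ∀ᶠ v in 𝓝 v₀, f j (t₀, v) = 0 := fun j =>
      (hol_line (hf j)).eventually_eq_zero_or_eventually_ne_zero.resolve_right (by
        intro h2
        exact (hcon j) h2)
    have h2 : ∀ᶠ v in 𝓝[≠] v₀, ∀ j, f j (t₀, v) = 0 :=
      (eventually_all.2 h1).filter_mono nhdsWithin_le_nhds
    obtain ⟨v, ⟨j, hj⟩, hv⟩ := (h0.and h2).exists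
    exact hj (hv j)
  obtain ⟨ρ', hρ', hne⟩ := Metric.eventually_nhds_iff.1 (eventually_nhdsWithin_iff.1 hj₀)
  have hhol : ∀ᶠ v in 𝓝 v₀, ∀ j, HolAt (f j) (t₀, v) :=
    eventually_all.2 fun j => (hcont.tendsto v₀).eventually (hf j).eventually
  obtain ⟨ρ'', hρ'', hh⟩ := Metric.eventually_nhds_iff.1 hhol
  obtain ⟨R, hRdef⟩ : ∃ R : ℝ, R = min (min ρ ρ') ρ'' / 2 := ⟨_, rfl⟩
  have hmin : 0 < min (min ρ ρ') ρ'' := lt_min (lt_min hρ hρ') hρ''
  have hR : 0 < R := by rw [hRdef]; linarith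
  have hR1 : R < ρ := by
    have h1 : min (min ρ ρ') ρ'' ≤ ρ := (min_le_left _ _).trans (min_le_left _ _)
    rw [hRdef]
    linarith
  have hR2 : R < ρ' := by
    have h1 : min (min ρ ρ') ρ'' ≤ ρ' := (min_le_left _ _).trans (min_le_right _ _)
    rw [hRdef]
    linarith
  have hR3 : R < ρ'' := by
    have h1 : min (min ρ ρ') ρ'' ≤ ρ'' := min_le_right _ _
    rw [hRdef]
    linarith
  have hU : IsOpen {x : E × ℂ | ∀ j, HolAt (f j) x} := by
    rw [isOpen_iff_mem_nhds]
    intro x hx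
    exact eventually_all.2 fun j => (hx j).eventually
  have hsub : ({t₀} : Set E) ×ˢ Metric.closedBall v₀ R ⊆ {x : E × ℂ | ∀ j, HolAt (f j) x} := by
    rintro ⟨t, v⟩ ⟨ht, hv⟩
    have h1 : t = t₀ := ht
    subst h1
    rw [Metric.mem_closedBall] at hv
    exact hh (lt_of_le_of_lt hv hR3)
  obtain ⟨S₁, k, a, u, hS₁, ht₁, ha, hroot, hu, hfu⟩ := wprep (t₀ := t₀) (c := v₀) (r := R / 2)
    (R := R) (by linarith) (by linarith) (f := f j₀) (fun x hx => hsub hx j₀)
    (fun v hv1 hv2 => by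
      refine hne ?_ ?_
      · rw [dist_eq_norm]
        linarith
      · intro h1
        have h2 : v = v₀ := h1
        rw [h2, sub_self, norm_zero] at hv1
        linarith)
  obtain ⟨S₂, B, hS₂, hB, ht₂, hRB, hSB⟩ := generalized_tube_lemma isCompact_singleton
    (isCompact_closedBall v₀ R) hU hsub
  have hS : IsOpen (S₁ ∩ S₂) := hS₁.inter hS₂
  have ha' : ∀ j, HolNear (a j) (S₁ ∩ S₂) := fun j => (ha j).mono inter_subset_left
  have hroot' : ∀ t ∈ S₁ ∩ S₂, ∀ v, mon a t v = 0 → ‖v - v₀‖ < R := fun t ht v hv =>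
    (hroot t ht.1 v hv).trans (by linarith)
  have hg : ∀ j, HolNear (f j) ((S₁ ∩ S₂) ×ˢ Metric.ball v₀ R) := by
    intro j x hx
    exact hSB ⟨hx.1.2, hRB (Metric.ball_subset_closedBall hx.2)⟩ j
  choose q b hq hb hdiv using fun j => wdiv hS ha' hroot' (hg j)
  have hkey : ∀ t ∈ S₁ ∩ S₂, (∃ v ∈ Metric.closedBall v₀ R, ∀ j, f j (t, v) = 0) ↔
      ∃ v : ℂ, v ^ k + ∑ i, a i t * v ^ (i : ℕ) = 0 ∧ ∀ j, ∑ i, b j i t * v ^ (i : ℕ) = 0 := by
    intro t ht
    constructor
    · rintro ⟨v, hv, hfv⟩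
      obtain ⟨h1, h2⟩ := hfu t ht.1 v hv
      have h3 : mon a t v = 0 := by
        rw [hfv j₀] at h2
        exact (mul_eq_zero.1 h2.symm).resolve_left h1
      have h4 : v ∈ Metric.ball v₀ R := by
        rw [Metric.mem_ball, dist_eq_norm]
        exact hroot' t ht v h3
      refine ⟨v, h3, fun j => ?_⟩
      have h5 := hdiv j t ht v h4
      rw [hfv j, h3, mul_zero, zero_add] at h5
      exact h5.symm
    · rintro ⟨v, hv, hbv⟩
      have h3 : mon a t v = 0 := hv
      have h4 : v ∈ Metric.ball v₀ R := by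
        rw [Metric.mem_ball, dist_eq_norm]
        exact hroot' t ht v h3
      refine ⟨v, Metric.ball_subset_closedBall h4, fun j => ?_⟩
      rw [hdiv j t ht v h4, h3, mul_zero, zero_add, hbv j]
  refine ⟨R, S₁ ∩ S₂, Fintype.card (Fin k → Fin m × Fin k),
    fun i s => (Matrix.of fun i' l => compVal (fun i => a i s)
      (fun i'' => b ((Fintype.equivFin (Fin k → Fin m × Fin k)).symm i l).1 i'' s) i'
      ((Fintype.equivFin (Fin k → Fin m × Fin k)).symm i l).2).det, hR, hR1, hS,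
    ⟨ht₁, ht₂ rfl⟩, ?_, ?_⟩
  · intro i t ht
    exact hol_minor a b (fun i => ha' i t ht) (fun j i => hb j i t ht)
      ((Fintype.equivFin (Fin k → Fin m × Fin k)).symm i)
  · intro t ht
    rw [hkey t ht, common_root_iff (fun i => a i t) (fun j i => b j i t)]
    constructor
    · intro h1 i
      exact h1 ((Fintype.equivFin (Fin k → Fin m × Fin k)).symm i)
    · intro h1 σ
      have h2 := h1 (Fintype.equivFin (Fin k → Fin m × Fin k) σ)
      simp only [Equiv.symm_apply_apply] at h2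
      exact h2

end Pool.Agent.DQ
end

section

/-! # DQ, module G, task GC4: the projection of a compact analytic set is analytic -/

set_option autoImplicit false

open Set Filter Topology Module

universe u

namespace Pool.Agent.DQ

variable {E : Type u} [NormedAddCommGroup E] [NormedSpace ℂ E]

private theorem GC4_prod {s : ℕ} (f : Fin s → E → ℂ) {t₀ : E} (hf : ∀ i, HolAt (f i) t₀)
    (S : Finset (Fin s)) : HolAt (fun t => ∏ i ∈ S, f i t) t₀ := by
  classical
  induction S using Finset.induction_on with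
  | empty =>
    simp only [Finset.prod_empty]
    exact HolAt.const 1 t₀
  | insert a S ha ih =>
    have e : (fun t => ∏ i ∈ insert a S, f i t) = fun t => f a t * ∏ i ∈ S, f i t := by
      funext t
      exact Finset.prod_insert ha
    rw [e]
    exact (hf a).mul ih

/-- A finite union of zero sets is a zero set.

Proof. The functions are the products `∏ i, g i (φ i)`, `φ : ∀ i : Fin s, Fin (p i)`, reindexed by `Fin q` (`Fintype.equivFin`). If some `i` has all `g i l t = 0` then all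
products vanish. Conversely if for every `i` there is `l = φ i` with `g i (φ i) t ≠ 0` then the product of `φ` is not zero. Holomorphic: induction on
the finset, `HolAt.mul`. -/
theorem zero_union {s : ℕ} (p : Fin s → ℕ) (g : ∀ i, Fin (p i) → E → ℂ) {t₀ : E} (hg : ∀ i l, HolAt (g i l) t₀) :
    ∃ (q : ℕ) (h : Fin q → E → ℂ), (∀ l, HolAt (h l) t₀) ∧
      ∀ t, (∃ i, ∀ l, g i l t = 0) ↔ ∀ l, h l t = 0 := by
  classical
  obtain ⟨e⟩ : Nonempty ((∀ i : Fin s, Fin (p i)) ≃
      Fin (Fintype.card (∀ i : Fin s, Fin (p i)))) := ⟨Fintype.equivFin _⟩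
  refine ⟨_, fun l t => ∏ i, g i (e.symm l i) t, ?_, ?_⟩
  · intro l
    exact GC4_prod (fun i => g i (e.symm l i)) (fun i => hg i _) Finset.univ
  · intro t
    constructor
    · rintro ⟨i, hi⟩ l
      exact Finset.prod_eq_zero (Finset.mem_univ i) (hi _)
    · intro h
      by_contra hne
      push Not at hne
      choose φ hφ using hne
      have h1 : ∏ i, g i (e.symm (e φ) i) t = 0 := h (e φ)
      rw [Equiv.symm_apply_apply] at h1
      exact Finset.prod_ne_zero_iff.mpr (fun i _ => hφ i) h1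

/-- The local statement at one point of the fibre. -/
private theorem GC4_local [FiniteDimensional ℂ E] (X : Set (E × ℂ)) (h : AnalyticNear X univ)
    {t₀ : E} (hZ : {v : ℂ | (t₀, v) ∈ X}.Finite) {v : ℂ} (hv : (t₀, v) ∈ X) :
    ∃ (R : ℝ) (p : ℕ) (g : Fin p → E → ℂ), 0 < R ∧ (∀ l, HolAt (g l) t₀) ∧
      ∀ᶠ t in 𝓝 t₀, ((∃ w ∈ Metric.closedBall v R, (t, w) ∈ X) ↔ ∀ l, g l t = 0) := by
  obtain ⟨m, f, hf, hev⟩ := h (t₀, v) ⟨hv, mem_univ _⟩
  obtain ⟨ρ, hρ, hball⟩ := Metric.eventually_nhds_iff.1 hev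
  have hball' : ∀ t w, dist t t₀ < ρ → dist w v < ρ → ((t, w) ∈ X ↔ ∀ j, f j (t, w) = 0) := by
    intro t w h1 h2
    exact hball (by rw [Prod.dist_eq]; exact max_lt h1 h2)
  have h0 : ∀ᶠ w in 𝓝[≠] v, ∃ j, f j (t₀, w) ≠ 0 := by
    have h1 : ∀ᶠ w in 𝓝 v, w ∉ {v : ℂ | (t₀, v) ∈ X} \ {v} :=
      ((hZ.subset sdiff_subset).isClosed.isOpen_compl).mem_nhds (fun h2 => h2.2 rfl)
    have h2 : ∀ᶠ w in 𝓝 v, dist w v < ρ := Metric.ball_mem_nhds v hρ
    filter_upwards [mem_nhdsWithin_of_mem_nhds h1, mem_nhdsWithin_of_mem_nhds h2,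
      self_mem_nhdsWithin] with w h3 h4 h5
    by_contra hne
    push Not at hne
    exact h3 ⟨(hball' t₀ w (by rw [dist_self]; exact hρ) h4).2 hne, h5⟩
  obtain ⟨R, S, p, g, hR0, hRρ, hSo, ht₀S, hg, hiff⟩ := local_image f hf h0 hρ
  refine ⟨R, p, g, hR0, fun l => hg l t₀ ht₀S, ?_⟩
  have h2 : ∀ᶠ t in 𝓝 t₀, dist t t₀ < ρ := Metric.ball_mem_nhds t₀ hρ
  filter_upwards [hSo.mem_nhds ht₀S, h2] with t h3 h4
  rw [← hiff t h3]
  constructor
  · rintro ⟨w, hw, hx⟩
    exact ⟨w, hw, (hball' t w h4 (lt_of_le_of_lt (Metric.mem_closedBall.1 hw) hRρ)).1 hx⟩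
  · rintro ⟨w, hw, hx⟩
    exact ⟨w, hw, (hball' t w h4 (lt_of_le_of_lt (Metric.mem_closedBall.1 hw) hRρ)).2 hx⟩

/-- **The projection of a compact analytic subset of `E × ℂ` to `E` is analytic.**

Proof. Let `t₀ ∈ Prod.fst '' X`. The fibre `Z = {v | (t₀, v) ∈ X}` is finite (`fiber_finite`); enumerate it as `v_1, …, v_s` (injective family over `Fin s`).
For every `i`: `h` at `(t₀, v_i)` gives `f i j`, holomorphic near `(t₀, v_i)`, with `x ∈ X ↔ ∀ j, f i j x = 0` for `x` in a neighbourhood of `(t₀, v_i)`, which contains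
`ball t₀ ρ_i ×ˢ ball v_i ρ_i`, `ρ_i > 0`. As `Z` is finite, `v_i` is isolated in `Z`, so for `v ≠ v_i` near `v_i` we have `(t₀, v) ∉ X`, so some `f i j (t₀, v) ≠ 0`: hypothesis `h0`
of `local_image`. It gives `R_i < ρ_i`, `S_i`, `g i`. For `t ∈ S_i ∩ ball t₀ ρ_i`:
`(∃ v ∈ closedBall v_i R_i, (t, v) ∈ X) ↔ ∀ l, g i l t = 0`.
The set `X' = X \ ⋃ i, univ ×ˢ ball v_i R_i` is compact, its projection to `E` is compact, hence closed, and does not contain `t₀` (a point `(t₀, v) ∈ X` has `v = v_i` for some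
`i`). So for `t` near `t₀` every `(t, v) ∈ X` has `v ∈ ball v_i R_i` for some `i`. Hence for `t` near `t₀`:
`t ∈ Prod.fst '' X ↔ ∃ i, ∃ v ∈ closedBall v_i R_i, (t, v) ∈ X ↔ ∃ i, ∀ l, g i l t = 0`. Conclude with `zero_union`. -/
theorem analyticNear_fst [FiniteDimensional ℂ E] (X : Set (E × ℂ)) (hX : IsCompact X) (h : AnalyticNear X univ) :
    AnalyticNear (Prod.fst '' X) univ := by
  rintro t₀ -
  have hZ := fiber_finite X hX h t₀
  obtain ⟨s, v, hv⟩ := hZ.fin_embedding
  have hvX : ∀ i, (t₀, v i) ∈ X := fun i => by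
    have h1 : v i ∈ {v : ℂ | (t₀, v) ∈ X} := by
      rw [← hv]
      exact mem_range_self i
    exact h1
  choose R p g hR hg hiff using fun i => GC4_local X h hZ (hvX i)
  obtain ⟨q, hh, hhol, hunion⟩ := zero_union p g hg
  refine ⟨q, hh, hhol, ?_⟩
  obtain ⟨X', hX'⟩ : ∃ X', X' = X \ ⋃ i, univ ×ˢ Metric.ball (v i) (R i) := ⟨_, rfl⟩
  have hX'c : IsCompact X' := by
    rw [hX']
    exact hX.diff (isOpen_iUnion fun i => isOpen_univ.prod Metric.isOpen_ball)
  have hfar : ∀ᶠ t in 𝓝 t₀, t ∉ Prod.fst '' X' := by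
    refine (hX'c.image continuous_fst).isClosed.isOpen_compl.mem_nhds ?_
    rintro ⟨⟨t', w⟩, hx, rfl⟩
    rw [hX'] at hx
    have h1 : w ∈ range v := by
      rw [hv]
      exact hx.1
    obtain ⟨i, rfl⟩ := h1
    exact hx.2 (mem_iUnion.2 ⟨i, mem_univ _, Metric.mem_ball_self (hR i)⟩)
  filter_upwards [hfar, eventually_all.2 hiff] with t h1 h2
  rw [← hunion t]
  constructor
  · rintro ⟨⟨t', w⟩, hx, rfl⟩
    obtain ⟨i, hi⟩ : ∃ i, w ∈ Metric.ball (v i) (R i) := by
      by_contra hne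
      refine h1 ⟨(t', w), ?_, rfl⟩
      rw [hX']
      refine ⟨hx, fun hmem => hne ?_⟩
      obtain ⟨i, hi⟩ := mem_iUnion.1 hmem
      exact ⟨i, hi.2⟩
    exact ⟨i, (h2 i).1 ⟨w, Metric.ball_subset_closedBall hi, hx⟩⟩
  · rintro ⟨i, hi⟩
    obtain ⟨w, -, hw⟩ := (h2 i).2 hi
    exact ⟨(t, w), hw, rfl⟩

end Pool.Agent.DQ
end
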