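import Pool.Agent.Lib.MP_4aa2a9_ag.Mg.G018
import Pool.Agent.Lib.MP_4aa2a9_ag.Mg.G036
import Pool.Agent.Lib.MP_4aa2a9_ag.Mg.G003
import Pool.Agent.DQ.Mg_MP_4aa2a9_ag.G003
import Pool.Agent.Lib.MP_4aa2a9_ag.Mg.G011

section

/-!
# DQ, module HA1, part d: if the dual complex of a finite resolution is exact except at one place,
the bidual map is bijective.
-/

set_option autoImplicit false

universe v w w'

namespace Pool.Agent.DQ

open Matrix

section

variable {R : Type v} [Ring R] {d : ℕ} {n : ℕ → ℕ}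
  {B : ∀ k, Matrix (Fin (n (k + 1))) (Fin (n k)) R} {g : ℕ → ℕ}
  {C : ∀ k, Matrix (Fin (g k)) (Fin (g (k + 1))) R}

/-- lifting a matrix through the sum of two column maps -/
theorem exists_col_lift₂ {a b c c' : ℕ} (X : Matrix (Fin a) (Fin b) R)
    (Y : Matrix (Fin a) (Fin c) R) (Y' : Matrix (Fin a) (Fin c') R)
    (h : ∀ v : Fin b → R, ∃ u t, Y *ᵥ u + Y' *ᵥ t = X *ᵥ v) :
    ∃ (Z : Matrix (Fin c) (Fin b) R) (Z' : Matrix (Fin c') (Fin b) R), Y * Z + Y' * Z' = X := by
  choose f f' hf using fun i : Fin b => h (Pi.single i 1)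
  refine ⟨(Matrix.of f)ᵀ, (Matrix.of f')ᵀ, ?_⟩
  ext i j
  have := congrFun (hf j) i
  rw [Matrix.mulVec_single_one] at this
  rw [← Matrix.col_apply X, ← this]
  rfl

/-- splitting of a bounded exact complex of free modules -/
theorem exists_vnr {p d : ℕ} (hp : ∀ j, p < j → n j = 0) (hB : ∀ k, B (k + 1) * B k = 0)
    (hex : ∀ j, d < j → ∀ w, B (j + 1) *ᵥ w = 0 → ∃ u, B j *ᵥ u = w) (j : ℕ) (hj : d < j) :
    ∃ s : Matrix (Fin (n j)) (Fin (n (j + 1))) R, B j * s * B j = B j := by
  have key : ∀ i j, p + 1 ≤ j + i → d < j →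
      ∃ s : Matrix (Fin (n j)) (Fin (n (j + 1))) R, B j * s * B j = B j := by
    intro i
    induction i with
    | zero =>
      intro j h1 _
      exact ⟨0, mat_eq_of_zero_right (hp j (by omega)) _ _⟩
    | succ i ih =>
      intro j h1 h2
      obtain ⟨s, hs⟩ := ih (j + 1) (by omega) (by omega)
      have h3 : B (j + 1) * (1 - s * B (j + 1)) = 0 := by
        rw [Matrix.mul_sub, Matrix.mul_one, ← Matrix.mul_assoc, hs, sub_self]
      obtain ⟨s', hs'⟩ := exists_col_lift (1 - s * B (j + 1)) (B j) fun v =>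
        hex j h2 _ (by rw [Matrix.mulVec_mulVec, h3, Matrix.zero_mulVec])
      refine ⟨s', ?_⟩
      rw [hs', Matrix.sub_mul, Matrix.one_mul, Matrix.mul_assoc, hB, Matrix.mul_zero, sub_zero]
  exact key (p + 1) j (by omega) hj

/-- recursive choice of the inverse chain map -/
noncomputable def vRec (d : ℕ) (n : ℕ → ℕ)
    (B : ∀ k, Matrix (Fin (n (k + 1))) (Fin (n k)) R) (g : ℕ → ℕ)
    (C : ∀ k, Matrix (Fin (g k)) (Fin (g (k + 1))) R) (V1 : Matrix (Fin (g 1)) (Fin (n (d + 1))) R) :
    ∀ k j, j + k = d + 2 → Matrix (Fin (g k)) (Fin (n j)) R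
  | 0, _, _ => 0
  | 1, j, h => (show j = d + 1 by omega) ▸ V1
  | (k + 2), j, _ => Classical.epsilon fun X =>
      C (k + 1) * X = vRec d n B g C V1 (k + 1) (j + 1) (by omega) * B j

theorem bidual_core {p : ℕ} (hn : n 0 = 0) (hp : ∀ j, p < j → n j = 0)
    (hB : ∀ k, B (k + 1) * B k = 0)
    (hex : ∀ j, j ≠ d → ∀ w, B (j + 1) *ᵥ w = 0 → ∃ u, B j *ᵥ u = w)
    (W : ∀ j k, j + k = d + 2 → Matrix (Fin (n j)) (Fin (g k)) R)
    (hE : IsResExt d n B g C (W (d + 1) 1 (by omega)))
    (hW : ∀ j k (h : j + k = d + 1), W (j + 1) k (by omega) * C k = B j * W j (k + 1) (by omega)) :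
    (∀ v : Fin (n 1) → R, (∃ t : Fin (g d) → R, v ᵥ* W 1 (d + 1) (by omega) = t ᵥ* C d) →
      ∃ z, z ᵥ* B 1 = v) ∧
    ∀ u : Fin (g (d + 1)) → R, u ᵥ* C (d + 1) = 0 →
      ∃ (v : Fin (n 1) → R) (t : Fin (g d) → R), v ᵥ* W 1 (d + 1) (by omega) + t ᵥ* C d = u := by
  obtain ⟨s, hs⟩ := exists_vnr (R := R) (d := d) hp hB (fun j hj => hex j (by omega)) (d + 1)
    (by omega)
  have hP : B (d + 1) * (1 - s * B (d + 1)) = 0 := by
    rw [Matrix.mul_sub, Matrix.mul_one, ← Matrix.mul_assoc, hs, sub_self]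
  obtain ⟨V1, U, hVU⟩ := exists_col_lift₂ (1 - s * B (d + 1)) (W (d + 1) 1 (by omega)) (B d)
    fun v => hE.surj _ (by rw [Matrix.mulVec_mulVec, hP, Matrix.zero_mulVec])
  -- the chain map `V`
  set V : ∀ k j, j + k = d + 2 → Matrix (Fin (g k)) (Fin (n j)) R := vRec d n B g C V1 with hVdef
  have hV1 : V 1 (d + 1) (by omega) = V1 := rfl
  have hV : ∀ k j (h : j + k = d + 1), C k * V (k + 1) j (by omega) = V k (j + 1) (by omega) * B j := by
    intro k
    induction k with
    | zero => intro j hj; exact mat_eq_of_zero_left hE.zero _ _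
    | succ k ih =>
      intro j hj
      have key : ∃ X, C (k + 1) * X = V (k + 1) (j + 1) (by omega) * B j := by
        rcases Nat.eq_zero_or_pos k with rfl | hk
        · obtain rfl : j = d := by omega
          refine exists_col_lift _ (C 1) fun v => ?_
          change ∃ u, C 1 *ᵥ u = (V1 * B j) *ᵥ v
          refine (hE.ker _).1 ⟨(1 - U * B j) *ᵥ v, ?_⟩
          have e : W (j + 1) 1 (by omega) * V1 * B j = B j * (1 - U * B j) := by
            have : W (j + 1) 1 (by omega) * V1 = 1 - s * B (j + 1) - B j * U := by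
              rw [← hVU]; abel
            rw [this, Matrix.sub_mul, Matrix.sub_mul, Matrix.one_mul, Matrix.mul_assoc s, hB,
              Matrix.mul_zero, sub_zero, Matrix.mul_sub, Matrix.mul_one, Matrix.mul_assoc]
          rw [Matrix.mulVec_mulVec, ← Matrix.mul_assoc, e, Matrix.mulVec_mulVec]
        · refine hE.exists_factor hk _ ?_
          rw [← Matrix.mul_assoc, ih (j + 1) (by omega), Matrix.mul_assoc, hB, Matrix.mul_zero]
      exact Classical.epsilon_spec key
  -- homotopy on `B`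
  have hX : ∀ k i (h : i + k = d), ∃ (X : Matrix (Fin (n (i + 1))) (Fin (n (i + 2))) R)
      (Y : Matrix (Fin (n i)) (Fin (n (i + 1))) R),
      1 - W (i + 1) (k + 1) (by omega) * V (k + 1) (i + 1) (by omega) =
        X * B (i + 1) + B i * Y := by
    intro k
    induction k with
    | zero =>
      intro i hi
      obtain rfl : i = d := by omega
      refine ⟨s, U, ?_⟩
      change 1 - W (i + 1) 1 (by omega) * V1 = _
      have : W (i + 1) 1 (by omega) * V1 = 1 - s * B (i + 1) - B i * U := by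
        rw [← hVU]; abel
      rw [this]; abel
    | succ k ih =>
      intro i hi
      obtain ⟨X, Y, hXY⟩ := ih (i + 1) (by omega)
      have e : B (i + 1) * (1 - W (i + 1) (k + 2) (by omega) * V (k + 2) (i + 1) (by omega)
          - Y * B (i + 1)) = 0 := by
        have e1 := hW (i + 1) (k + 1) (by omega)
        have e2 := hV (k + 1) (i + 1) (by omega)
        have e3 : W (i + 2) (k + 1) (by omega) * V (k + 1) (i + 2) (by omega) =
            1 - X * B (i + 2) - B (i + 1) * Y := by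
          have := hXY
          rw [sub_eq_iff_eq_add] at this
          rw [this]; abel
        calc B (i + 1) * (1 - W (i + 1) (k + 2) (by omega) * V (k + 2) (i + 1) (by omega)
                - Y * B (i + 1))
            = B (i + 1) - (B (i + 1) * W (i + 1) (k + 2) (by omega)) * V (k + 2) (i + 1) (by omega)
                - B (i + 1) * Y * B (i + 1) := by
              rw [Matrix.mul_sub, Matrix.mul_sub, Matrix.mul_one, Matrix.mul_assoc,
                Matrix.mul_assoc]
          _ = B (i + 1) - (W (i + 2) (k + 1) (by omega) * V (k + 1) (i + 2) (by omega)) * B (i + 1)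
                - B (i + 1) * Y * B (i + 1) := by
              rw [← e1, Matrix.mul_assoc (W (i + 2) (k + 1) _), e2, ← Matrix.mul_assoc]
          _ = 0 := by
              rw [e3, Matrix.sub_mul, Matrix.sub_mul, Matrix.one_mul, Matrix.mul_assoc X, hB,
                Matrix.mul_zero]
              abel
      obtain ⟨Y', hY'⟩ := exists_col_lift
        (1 - W (i + 1) (k + 2) (by omega) * V (k + 2) (i + 1) (by omega) - Y * B (i + 1)) (B i)
        (fun v => hex i (by omega) _ (by rw [Matrix.mulVec_mulVec, e, Matrix.zero_mulVec]))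
      refine ⟨Y, Y', ?_⟩
      rw [hY']; abel
  -- homotopy on `C`
  have hS : ∀ k j (h : j + (k + 1) = d + 2), ∃ (S : Matrix (Fin (g (k + 2))) (Fin (g (k + 1))) R)
      (S' : Matrix (Fin (g (k + 1))) (Fin (g k)) R),
      1 - V (k + 1) j (by omega) * W j (k + 1) (by omega) = C (k + 1) * S + S' * C k := by
    intro k
    induction k with
    | zero =>
      intro j hj
      obtain rfl : j = d + 1 := by omega
      obtain ⟨S, hS⟩ := exists_col_lift (1 - V1 * W (d + 1) 1 (by omega)) (C 1) fun v => by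
        refine (hE.ker _).1 ⟨(U * W (d + 1) 1 (by omega)) *ᵥ v, ?_⟩
        rw [Matrix.mulVec_mulVec, Matrix.mulVec_mulVec]
        congr 1
        have : W (d + 1) 1 (by omega) * V1 = 1 - s * B (d + 1) - B d * U := by
          rw [← hVU]; abel
        rw [Matrix.mul_sub, Matrix.mul_one, ← Matrix.mul_assoc, this, Matrix.sub_mul,
          Matrix.sub_mul, Matrix.one_mul, Matrix.mul_assoc s, hE.cocycle, Matrix.mul_zero,
          Matrix.mul_assoc]
        abel
      exact ⟨S, 0, by rw [Matrix.zero_mul, add_zero, hS]; rfl⟩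
    | succ k ih =>
      intro j hj
      obtain ⟨S, S', hSS⟩ := ih (j + 1) (by omega)
      have e : C (k + 1) * (1 - V (k + 2) j (by omega) * W j (k + 2) (by omega)
          - S * C (k + 1)) = 0 := by
        have e1 := hW j (k + 1) (by omega)
        have e2 := hV (k + 1) j (by omega)
        have e3 : V (k + 1) (j + 1) (by omega) * W (j + 1) (k + 1) (by omega) =
            1 - C (k + 1) * S - S' * C k := by
          have := hSS
          rw [sub_eq_iff_eq_add] at this
          rw [this]; abel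
        calc C (k + 1) * (1 - V (k + 2) j (by omega) * W j (k + 2) (by omega) - S * C (k + 1))
            = C (k + 1) - (C (k + 1) * V (k + 2) j (by omega)) * W j (k + 2) (by omega)
                - C (k + 1) * S * C (k + 1) := by
              rw [Matrix.mul_sub, Matrix.mul_sub, Matrix.mul_one, Matrix.mul_assoc,
                Matrix.mul_assoc]
          _ = C (k + 1) - (V (k + 1) (j + 1) (by omega) * W (j + 1) (k + 1) (by omega)) * C (k + 1)
                - C (k + 1) * S * C (k + 1) := by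
              rw [e2, Matrix.mul_assoc, ← e1, ← Matrix.mul_assoc]
          _ = 0 := by
              rw [e3, Matrix.sub_mul, Matrix.sub_mul, Matrix.one_mul, Matrix.mul_assoc S',
                hE.mul_eq_zero, Matrix.mul_zero]
              abel
      obtain ⟨Y, hY⟩ := hE.exists_factor (k := k + 1) (by omega) _ e
      refine ⟨Y, S, ?_⟩
      rw [hY]; abel
  constructor
  · rintro v ⟨t, ht⟩
    obtain ⟨X, Y, hXY⟩ := hX d 0 (by omega)
    refine ⟨t ᵥ* V d 2 (by omega) + v ᵥ* X, ?_⟩
    have e1 := congrArg (fun Z => v ᵥ* Z) hXY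
    have e2 : B 0 * Y = 0 := by
      ext i j
      rw [Matrix.mul_apply]
      have : IsEmpty (Fin (n 0)) := by rw [hn]; infer_instance
      simp
    simp only [e2, add_zero, Matrix.vecMul_sub, Matrix.vecMul_one, ← Matrix.vecMul_vecMul] at e1
    have e3 : (v ᵥ* W 1 (d + 1) (by omega)) ᵥ* V (d + 1) 1 (by omega) =
        (t ᵥ* V d 2 (by omega)) ᵥ* B 1 := by
      rw [ht, Matrix.vecMul_vecMul, hV d 1 (by omega), Matrix.vecMul_vecMul]
    rw [Matrix.add_vecMul, ← e3, ← e1]
    abel
  · intro u hu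
    obtain ⟨S, S', hSS⟩ := hS d 1 (by omega)
    refine ⟨u ᵥ* V (d + 1) 1 (by omega), u ᵥ* S', ?_⟩
    have e1 := congrArg (fun Z => u ᵥ* Z) hSS
    simp only [Matrix.vecMul_sub, Matrix.vecMul_one, Matrix.vecMul_add, ← Matrix.vecMul_vecMul,
      hu, Matrix.zero_vecMul, zero_add] at e1
    rw [← e1]
    abel

end

end Pool.Agent.DQ
end

section

/-!
# DQ, module HA1, part g: bounded torsion and the theorem (P0).
-/

set_option autoImplicit false

universe v w w' u

namespace Pool.Agent.DQ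

open Matrix MulOpposite

section

variable {R : Type v} {S : Type u} [Ring R] [CommRing S] {h : R} {π : R →+* S}
variable {n : ℕ → ℕ} {B : ∀ k, Matrix (Fin (n (k + 1))) (Fin (n k)) R}

theorem HRed.pow_comm (H : HRed h π) (k : ℕ) (a : R) : h ^ k * a = a * h ^ k :=
  (Commute.pow_left (H.comm a : Commute _ _) k)

theorem HRed.mulVec_pow_smul (H : HRed h π) {a b : ℕ} (k : ℕ) (v : Fin b → R)
    (X : Matrix (Fin a) (Fin b) R) : X *ᵥ (h ^ k • v) = h ^ k • (X *ᵥ v) := by
  induction k with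
  | zero => simp
  | succ k ih => rw [pow_succ', mul_smul, mul_smul, H.mulVec_smul, ih]

theorem isNoetherian_cols [IsNoetherianRing Rᵐᵒᵖ] (b : ℕ) : IsNoetherian Rᵐᵒᵖ (Fin b → R) := by
  have e : R ≃ₗ[Rᵐᵒᵖ] Rᵐᵒᵖ :=
    { toFun := op
      invFun := unop
      left_inv := fun _ => rfl
      right_inv := fun _ => rfl
      map_add' := fun _ _ => rfl
      map_smul' := fun r x => by
        induction r using MulOpposite.rec' with | _ r => rfl }
  have : IsNoetherian Rᵐᵒᵖ R := isNoetherian_of_linearEquiv e.symm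
  infer_instance

/-- the `h`-torsion of a quotient of a free right module is bounded -/
theorem HRed.bdd_torsion (H : HRed h π) [IsNoetherianRing Rᵐᵒᵖ] {b c : ℕ}
    (Y : Matrix (Fin b) (Fin c) R) :
    ∃ k₀ : ℕ, ∀ (z : Fin b → R) (k : ℕ), (∃ u, h ^ k • z = Y *ᵥ u) → ∃ u, h ^ k₀ • z = Y *ᵥ u := by
  let T : ℕ →o Submodule Rᵐᵒᵖ (Fin b → R) :=
    { toFun := fun k =>
        { carrier := {z | ∃ u, h ^ k • z = Y *ᵥ u}
          add_mem' := fun {v w} hv hw => by
            obtain ⟨s, hs⟩ := hv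
            obtain ⟨t, ht⟩ := hw
            exact ⟨s + t, by rw [smul_add, hs, ht, Matrix.mulVec_add]⟩
          zero_mem' := ⟨0, by rw [smul_zero, Matrix.mulVec_zero]⟩
          smul_mem' := fun r v hv => by
            obtain ⟨s, hs⟩ := hv
            exact ⟨r • s, by rw [smul_comm, hs, Matrix.mulVec_smul]⟩ }
      monotone' := by
        refine monotone_nat_of_le_succ fun k z hz => ?_
        obtain ⟨u, hu⟩ := hz
        exact ⟨h • u, by rw [pow_succ', mul_smul, hu, H.mulVec_smul]⟩ }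
  have := isNoetherian_cols (R := R) b
  obtain ⟨k₀, hk₀⟩ := monotone_stabilizes_iff_noetherian.2 this T
  refine ⟨k₀, fun z k hz => ?_⟩
  rcases le_total k k₀ with hk | hk
  · exact T.monotone hk hz
  · have : T k₀ = T k := hk₀ k hk
    have h2 : z ∈ T k := hz
    rw [← this] at h2
    exact h2

theorem map_op_smul (π : R →+* S) {a : ℕ} (r : R) (w : Fin a → R) :
    (fun i => π ((MulOpposite.op r • w) i)) = π r • fun i => π (w i) := by
  ext i
  simp [mul_comm]

/-- the elements of the annihilator of `Ext^{j+1}(M₀)` act nilpotently on `Ext^j(M₀)` if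
`Ext^j(M) = 0` -/
theorem HRed.nilp (H : HRed h π) [IsNoetherianRing Rᵐᵒᵖ] (hB : ∀ k, B (k + 1) * B k = 0) (j : ℕ)
    (hj : ColEx B j) (a : R)
    (ha : ∀ w, (B (j + 2)).map π *ᵥ w = 0 → ∃ u, (B (j + 1)).map π *ᵥ u = π a • w) :
    ∃ k : ℕ, ∀ w : Fin (n (j + 1)) → R, (B (j + 1)).map π *ᵥ (fun i => π (w i)) = 0 →
      ∃ u : Fin (n j) → R, (B j).map π *ᵥ (fun i => π (u i)) = (π a) ^ k • fun i => π (w i) := by
  obtain ⟨k₀, hk₀⟩ := H.bdd_torsion (B (j + 1))
  refine ⟨k₀, fun w hw => ?_⟩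
  rw [← map_mulVec] at hw
  obtain ⟨y, hy⟩ := H.vec_ker _ hw
  have hy0 : B (j + 2) *ᵥ y = 0 := by
    refine H.smul_inj _ ?_
    rw [← H.mulVec_smul, ← hy, Matrix.mulVec_mulVec, hB, Matrix.zero_mulVec]
  -- `y a^m ∈ im B_{j+1} + h^m Z`
  have step : ∀ m : ℕ, ∃ (u : Fin (n (j + 1)) → R) (z : Fin (n (j + 2)) → R),
      B (j + 2) *ᵥ z = 0 ∧
        MulOpposite.op (a ^ m) • y = B (j + 1) *ᵥ u + h ^ m • z := by
    intro m
    induction m with
    | zero => exact ⟨0, y, hy0, by simp⟩
    | succ m ih =>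
      obtain ⟨u, z, hz, hu⟩ := ih
      obtain ⟨u', hu'⟩ := ha (fun i => π (z i)) (by
        rw [← map_mulVec, hz]
        ext i
        simp)
      obtain ⟨u', rfl⟩ := H.lift_vec u'
      rw [← map_mulVec, ← map_op_smul] at hu'
      obtain ⟨z', hz'⟩ := H.vec_ker (MulOpposite.op a • z - B (j + 1) *ᵥ u')
        (by rw [map_sub_fun, hu', sub_self])
      refine ⟨MulOpposite.op a • u + h ^ m • u', z', ?_, ?_⟩
      · refine H.smul_inj _ ?_
        rw [← H.mulVec_smul, ← hz', Matrix.mulVec_sub, Matrix.mulVec_smul, hz, smul_zero,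
          Matrix.mulVec_mulVec, hB, Matrix.zero_mulVec, sub_zero]
      · have e1 : MulOpposite.op a • z = B (j + 1) *ᵥ u' + h • z' := by
          rw [← hz']; abel
        rw [pow_succ, MulOpposite.op_mul, mul_smul, hu, smul_add, ← Matrix.mulVec_smul,
          smul_comm (MulOpposite.op a) (h ^ m) z, e1, smul_add, Matrix.mulVec_add,
          H.mulVec_pow_smul, ← mul_smul, ← pow_succ]
        exact (add_assoc _ _ _).symm
  obtain ⟨u, z, hz, hu⟩ := step k₀
  -- `h^{k₀} z` is a boundary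
  obtain ⟨s, hs⟩ := hk₀ z (k₀ + 1) ⟨MulOpposite.op (a ^ k₀) • w - h • u, by
    rw [Matrix.mulVec_sub, Matrix.mulVec_smul, hy, H.mulVec_smul, smul_comm (MulOpposite.op _) h y,
      hu, smul_add, add_sub_cancel_left, ← mul_smul, ← pow_succ']⟩
  rw [hs, ← Matrix.mulVec_add] at hu
  -- `B_{j+1}(w a^{k₀} - h (u + s)) = 0`
  have e2 : B (j + 1) *ᵥ (MulOpposite.op (a ^ k₀) • w - h • (u + s)) = 0 := by
    rw [Matrix.mulVec_sub, Matrix.mulVec_smul, hy, H.mulVec_smul, smul_comm (MulOpposite.op _) h y,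
      hu, sub_self]
  obtain ⟨t, ht⟩ := hj _ e2
  refine ⟨t, ?_⟩
  rw [← map_mulVec, ht, map_sub_fun, (H.vec_ker_iff (h • (u + s))).2 ⟨_, rfl⟩, sub_zero,
    map_op_smul, map_pow]

/-- (P0): if the reduced complex is a resolution and the dual complex over `R` has `h`-power
torsion cohomology at the places `< d`, then the dual complex of the reduction is exact at the
places `< d`. -/
theorem HRed.P0 (H : HRed h π) [IsNoetherianRing Rᵐᵒᵖ] [IsNoetherianRing S] (hA : GradeAnn S)
    (hP : PureExt S) (hn : n 0 = 0) (hB : ∀ k, B (k + 1) * B k = 0)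
    (hR : RowRes n (fun k => (B k).map π)) (d : ℕ)
    (htor : ∀ j < d, ∀ w, B (j + 1) *ᵥ w = 0 → ∃ (m : ℕ) (t : Fin (n j) → R),
      h ^ m • w = B j *ᵥ t) (j : ℕ) (hj : j < d) : ColEx (fun k => (B k).map π) j := by
  induction j using Nat.strong_induction_on with
  | _ j ih =>
    have hprev : ∀ i, i + 1 = j → ColEx (fun k => (B k).map π) i := fun i hi =>
      ih i (by omega) (by omega)
    have hj0 : ColEx B j := fun w hw => by
      obtain ⟨m, t, ht⟩ := htor j hj w hw
      obtain ⟨t', ht'⟩ := H.tf_pow hn hB j hprev m w t ht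
      exact ⟨t', ht'.symm⟩
    intro x hx
    let I : Ideal S :=
      { carrier := {a | ∃ u, (B j).map π *ᵥ u = a • x}
        add_mem' := fun {a b} ha hb => by
          obtain ⟨s, hs⟩ := ha
          obtain ⟨t, ht⟩ := hb
          exact ⟨s + t, by rw [Matrix.mulVec_add, hs, ht, add_smul]⟩
        zero_mem' := ⟨0, by rw [Matrix.mulVec_zero, zero_smul]⟩
        smul_mem' := fun r a ha => by
          obtain ⟨s, hs⟩ := ha
          exact ⟨r • s, by rw [Matrix.mulVec_smul, hs, smul_smul]; rfl⟩ }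
    refine hP n _ hR j (fun i hi => ih i hi (by omega)) I (fun i hi => ?_) x (fun a ha => ha)
    refine hA n _ hR (j + 1) (S ⧸ I) (fun a ha => ?_) i (by omega)
    obtain ⟨a, rfl⟩ := H.surj a
    obtain ⟨k, hk⟩ := H.nilp hB j hj0 a ha
    refine ⟨k, fun t => ?_⟩
    obtain ⟨b, rfl⟩ := Ideal.Quotient.mk_surjective t
    obtain ⟨w, rfl⟩ := H.lift_vec x
    obtain ⟨u, hu⟩ := hk w hx
    have hmem : π a ^ k ∈ I := ⟨_, hu⟩
    rw [← Ideal.Quotient.mk_eq_mk, ← Submodule.Quotient.mk_smul, smul_eq_mul]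
    exact (Submodule.Quotient.mk_eq_zero I).2 (I.mul_mem_right _ hmem)

end

end Pool.Agent.DQ
end

section

/-!
# DQ, module HA1, part h: `Ext^d(M, R)` and its resolution modulo `h`; exactness of the dual
complex below `d`.
-/

set_option autoImplicit false

universe v w w' u

namespace Pool.Agent.DQ

open Matrix MulOpposite

section

variable {R : Type v} {S : Type u} [Ring R] [CommRing S] {h : R} {π : R →+* S}
variable {d : ℕ} {n : ℕ → ℕ} {B : ∀ k, Matrix (Fin (n (k + 1))) (Fin (n k)) R}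
  {g : ℕ → ℕ} {C : ∀ k, Matrix (Fin (g k)) (Fin (g (k + 1))) R}
  {W1 : Matrix (Fin (n (d + 1))) (Fin (g 1)) R}

/-- the transposed matrices of the right resolution modulo `h` -/
def cT (π : R →+* S) (C : ∀ k, Matrix (Fin (g k)) (Fin (g (k + 1))) R) (k : ℕ) :
    Matrix (Fin (g (k + 1))) (Fin (g k)) S := ((C k).map π)ᵀ

/-- the reduction of the right resolution of `Ext^d(M, R)` is a resolution if `Ext^d(M, R)` has no
`h`-torsion -/
theorem HRed.rowRes_cT (H : HRed h π) (hE : IsResExt d n B g C W1)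
    (htf : ∀ (w : Fin (n (d + 1)) → R) (t : Fin (n d) → R), h • w = B d *ᵥ t →
      ∃ t', w = B d *ᵥ t') : RowRes g (cT π C) where
  zero := hE.zero
  exact k hk v := by
    unfold cT
    constructor
    · intro hv
      rw [Matrix.vecMul_transpose] at hv
      obtain ⟨v, rfl⟩ := H.lift_vec v
      rw [← map_mulVec] at hv
      obtain ⟨y, hy⟩ := H.vec_ker _ hv
      have hz : ∃ z, C k *ᵥ z = y := by
        obtain ⟨l, rfl⟩ : ∃ l, k = l + 1 := ⟨k - 1, by omega⟩
        rcases Nat.eq_zero_or_pos l with rfl | hl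
        · obtain ⟨t, ht⟩ := (hE.ker _).2 ⟨v, rfl⟩
          obtain ⟨t', ht'⟩ := htf (W1 *ᵥ y) t (by rw [← ht, ← H.mulVec_smul, ← hy])
          exact (hE.ker _).1 ⟨t', ht'⟩
        · refine (hE.exact l hl y).1 (H.smul_inj _ ?_)
          rw [← H.mulVec_smul, ← hy, Matrix.mulVec_mulVec, hE.mul_eq_zero, Matrix.zero_mulVec]
      obtain ⟨z, rfl⟩ := hz
      have h0 : C k *ᵥ (v - h • z) = 0 := by
        rw [Matrix.mulVec_sub, hy, H.mulVec_smul, sub_self]
      obtain ⟨u, hu⟩ := (hE.exact k hk _).1 h0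
      refine ⟨fun i => π (u i), ?_⟩
      rw [Matrix.vecMul_transpose, ← map_mulVec, hu, map_sub_fun,
        (H.vec_ker_iff (h • z)).2 ⟨z, rfl⟩, sub_zero]
    · rintro ⟨u, rfl⟩
      rw [Matrix.vecMul_transpose, Matrix.vecMul_transpose, Matrix.mulVec_mulVec,
        ← Matrix.map_mul, hE.mul_eq_zero]
      simp

/-- the annihilator of `Ext^d(M₀, S)` annihilates `Ext^d(M, R) / h` -/
theorem HRed.ann_coker (H : HRed h π) (hB : ∀ k, B (k + 1) * B k = 0)
    (hE : IsResExt d n B g C W1) (a : S)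
    (ha : ∀ w, (B (d + 1)).map π *ᵥ w = 0 → ∃ u, (B d).map π *ᵥ u = a • w) (v : Fin (g 1) → S) :
    ∃ z, (C 1).map π *ᵥ z = a • v := by
  obtain ⟨v, rfl⟩ := H.lift_vec v
  obtain ⟨a, rfl⟩ := H.surj a
  obtain ⟨t, ht⟩ := ha (fun i => π ((W1 *ᵥ v) i)) (by
    rw [← map_mulVec, Matrix.mulVec_mulVec, hE.cocycle, Matrix.zero_mulVec]
    ext i
    simp)
  obtain ⟨t, rfl⟩ := H.lift_vec t
  rw [← map_mulVec, ← map_op_smul] at ht
  obtain ⟨y, hy⟩ := H.vec_ker (MulOpposite.op a • (W1 *ᵥ v) - B d *ᵥ t)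
    (by rw [map_sub_fun, ht, sub_self])
  have hy0 : B (d + 1) *ᵥ y = 0 := by
    refine H.smul_inj _ ?_
    rw [← H.mulVec_smul, ← hy, Matrix.mulVec_sub, Matrix.mulVec_smul, Matrix.mulVec_mulVec,
      hE.cocycle, Matrix.zero_mulVec, smul_zero, Matrix.mulVec_mulVec, hB, Matrix.zero_mulVec,
      sub_zero]
  obtain ⟨u, t', hut⟩ := hE.surj y hy0
  obtain ⟨z, hz⟩ := (hE.ker (MulOpposite.op a • v - h • u)).1 ⟨t + h • t', by
    rw [Matrix.mulVec_sub, Matrix.mulVec_smul, H.mulVec_smul, Matrix.mulVec_add, H.mulVec_smul]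
    have e : MulOpposite.op a • (W1 *ᵥ v) = B d *ᵥ t + h • y := by
      rw [← hy]; abel
    rw [e, ← hut, smul_add]
    abel⟩
  refine ⟨fun i => π (z i), ?_⟩
  rw [← map_mulVec, hz, map_sub_fun, (H.vec_ker_iff (h • u)).2 ⟨u, rfl⟩, sub_zero, map_op_smul]

/-- `Ext^j(Ext^d(M, R) / h, S) = 0` for `j < d` -/
theorem HRed.colEx_cT (H : HRed h π) (hA : GradeAnn S) (hB : ∀ k, B (k + 1) * B k = 0)
    (hR : RowRes n (fun k => (B k).map π)) (hE : IsResExt d n B g C W1)
    (htf : ∀ (w : Fin (n (d + 1)) → R) (t : Fin (n d) → R), h • w = B d *ᵥ t →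
      ∃ t', w = B d *ᵥ t') (j : ℕ) (hj : j < d) : ColEx (cT π C) j := by
  let Q : Submodule S (Fin (g 1) → S) := LinearMap.range (Matrix.mulVecLin ((C 1).map π))
  have hR' := H.rowRes_cT hE htf
  have hres : IsRes g (cT π C) (Q.mkQ) :=
    { zero := hE.zero
      surj := Submodule.mkQ_surjective Q
      ker := fun v => by
        rw [Submodule.mkQ_apply, Submodule.Quotient.mk_eq_zero]
        unfold cT
        constructor
        · rintro ⟨u, hu⟩
          exact ⟨u, by rw [Matrix.vecMul_transpose]; exact hu⟩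
        · rintro ⟨u, hu⟩
          rw [Matrix.vecMul_transpose] at hu
          exact ⟨u, hu⟩
      exact := hR'.exact }
  refine hA n _ hR d ((Fin (g 1) → S) ⧸ Q) (fun a ha => ⟨1, fun t => ?_⟩) j hj g _ _ hres
  obtain ⟨v, rfl⟩ := Submodule.mkQ_surjective Q t
  rw [pow_one, ← map_smul, Submodule.mkQ_apply, Submodule.Quotient.mk_eq_zero]
  obtain ⟨z, hz⟩ := H.ann_coker hB hE a ha v
  exact ⟨z, hz⟩

/-- exactness of the row complex modulo `h`, in terms of `C` -/
theorem colEx_cT_iff (j : ℕ) : ColEx (cT π C) j ↔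
    ∀ v, v ᵥ* (C (j + 1)).map π = 0 → ∃ u, u ᵥ* (C j).map π = v := by
  unfold ColEx cT
  simp only [Matrix.mulVec_transpose]

/-- the dual of the resolution of `Ext^d(M, R)` is exact at the places `< d` -/
theorem HRed.rows_exact (H : HRed h π) [IsNoetherianRing R] (hA : GradeAnn S)
    (hB : ∀ k, B (k + 1) * B k = 0)
    (hR : RowRes n (fun k => (B k).map π)) (hE : IsResExt d n B g C W1)
    (htf : ∀ (w : Fin (n (d + 1)) → R) (t : Fin (n d) → R), h • w = B d *ᵥ t →
      ∃ t', w = B d *ᵥ t') (j : ℕ) (hj : j < d) (v : Fin (g (j + 1)) → R)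
    (hv : v ᵥ* C (j + 1) = 0) : ∃ u, u ᵥ* C j = v :=
  H.row_exact (hE.mul_eq_zero j) ((colEx_cT_iff j).1 (H.colEx_cT hA hB hR hE htf j hj)) v hv

end

end Pool.Agent.DQ
end

section

/-! # DQ, module G, task GA5: two definitions of grade; the grade of the annihilator -/

set_option autoImplicit false

open Set RingTheory.Sequence

universe u v w

namespace Pool.Agent.DQ

private theorem GA5_take {R : Type v} [CommRing R] {c : ℕ} (a : Fin c → R) (i : Fin c) :
    Ideal.ofList ((List.ofFn a).take i) = Ideal.span (a '' {j | j < i}) := by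
  have h : {r | r ∈ (List.ofFn a).take i} = a '' {j | j < i} := by
    ext r
    simp only [mem_setOf_eq, mem_image, List.mem_take_iff_getElem]
    constructor
    · rintro ⟨j, hj, rfl⟩
      have hj1 : j < i := lt_of_lt_of_le hj (min_le_left _ _)
      have hj2 : j < c := hj1.trans i.2
      refine ⟨⟨j, hj2⟩, Fin.lt_def.2 hj1, ?_⟩
      rw [List.getElem_ofFn]
    · rintro ⟨j, hj, rfl⟩
      refine ⟨j, lt_min (Fin.lt_def.1 hj) (by rw [List.length_ofFn]; exact j.2), ?_⟩
      rw [List.getElem_ofFn]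
  show Ideal.span {r | r ∈ (List.ofFn a).take i} = _
  rw [h]

private theorem GA5_reg {R : Type v} [CommRing R] (J : Ideal R) (x : R) :
    IsSMulRegular (R ⧸ (J • ⊤ : Submodule R R)) x ↔ ∀ b, x * b ∈ J → b ∈ J := by
  rw [isSMulRegular_quotient_iff_mem_of_smul_mem]
  have h : (J • ⊤ : Submodule R R) = J := by
    rw [smul_eq_mul, Ideal.mul_top]
  rw [h]
  rfl

private theorem GA5_ofFn {R : Type v} [CommRing R] {c : ℕ} (a : Fin c → R) :
    IsWeaklyRegular R (List.ofFn a) ↔
      ∀ i b, a i * b ∈ Ideal.span (a '' {j | j < i}) → b ∈ Ideal.span (a '' {j | j < i}) := by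
  rw [isWeaklyRegular_iff]
  constructor
  · intro h i
    have h1 := h i (by rw [List.length_ofFn]; exact i.2)
    rw [GA5_reg, GA5_take, List.getElem_ofFn] at h1
    exact h1
  · intro h i hi
    have hi' : i < c := by rwa [List.length_ofFn] at hi
    rw [GA5_reg, GA5_take a ⟨i, hi'⟩, List.getElem_ofFn]
    exact h ⟨i, hi'⟩

/-- The elementwise definition of the grade is the same as the one with lists.

Proof. (←) Given `rs` with `rs.length = c` take `a i = rs.get (Fin.cast _ i)` (subst `c`). `Mathlib.RingTheory.Sequence.isWeaklyRegular_iff_Fin`: for all `i : Fin rs.length`,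
`IsSMulRegular (R ⧸ (ofList (rs.take i) • ⊤ : Submodule R R)) rs[i]`. The ideal `ofList (rs.take i)` is the span of `{rs[j] | j < i}`, that is `Ideal.span (a '' {j | j < i})`, and `J • ⊤ = J` for ideals
(`Ideal.smul_top_eq_map`/`Submodule.smul_top..`, `smul_eq_mul`, `Ideal.mul_top`). Regularity of `rs[i]` on the quotient means: `rs[i] * b ∈ J → b ∈ J` (`isSMulRegular_quotient_iff_mem_of_smul_mem` or unfold with
`Submodule.Quotient.mk_eq_zero`). (→) `rs = List.ofFn a`, the same translation. (The lemma `RegLoc.of_fin` of module HA2 is of the same kind.) -/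
theorem idealGrade_iff {R : Type v} [CommRing R] {I : Ideal R} {c : ℕ} : IdealGrade I c ↔ GradeGE I c := by
  constructor
  · rintro ⟨a, ha, hreg⟩
    refine ⟨List.ofFn a, List.length_ofFn, ?_, (GA5_ofFn a).2 hreg⟩
    intro r hr
    obtain ⟨i, rfl⟩ := (List.mem_ofFn' a r).1 hr
    exact ha i
  · rintro ⟨rs, rfl, hrs, hreg⟩
    refine ⟨rs.get, fun i => hrs _ (List.get_mem _ _), ?_⟩
    rw [← List.ofFn_get rs] at hreg
    exact (GA5_ofFn rs.get).1 hreg

/-- **Rees.** `Ext^j(M, R) = 0` for `j < c` implies that the annihilator has grade `≥ c`.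

Proof. `exists_isRes` gives a resolution; `hext` gives the exactness of the dual complex; `IsRes.grade_of_exact_dual`. -/
theorem gradeGE_annihilator {R : Type u} [CommRing R] [IsNoetherianRing R] {M : Type w} [AddCommGroup M] [Module R M]
    [Module.Finite R M] {c : ℕ} (hext : ∀ j < c, ExtZero R M j) : GradeGE (Module.annihilator R M) c := by
  obtain ⟨n, B, ε, hres⟩ := exists_isRes R M
  exact hres.grade_of_exact_dual fun j hj w hw => hext j hj n B ε hres w hw

end Pool.Agent.DQ
end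

section

/-! # DQ, module G, task GT: direct images and linear changes of coordinates on the base -/

set_option autoImplicit false

open Set Filter Topology Module

universe u w

namespace Pool.Agent.DQ

variable {V : Type u} [NormedAddCommGroup V] [NormedSpace ℂ V] [FiniteDimensional ℂ V]
  {B : Type u} [NormedAddCommGroup B] [NormedSpace ℂ B] [FiniteDimensional ℂ B]
  {W : Type u} [NormedAddCommGroup W] [NormedSpace ℂ W] [FiniteDimensional ℂ W]

/-- the coordinates `e`, followed by the linear change of coordinates `A` on the base -/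
noncomputable def chg (e : V ≃L[ℂ] B × W) (A : B ≃L[ℂ] B) : V ≃L[ℂ] B × W :=
  e.trans (A.prodCongr (ContinuousLinearEquiv.refl ℂ W))

theorem chg_apply (e : V ≃L[ℂ] B × W) (A : B ≃L[ℂ] B) (x : V) : chg e A x = (A (e x).1, (e x).2) := by
  rfl

/-- The fibres are the same. Proof. `A` is injective. -/
theorem fib_chg (e : V ≃L[ℂ] B × W) (A : B ≃L[ℂ] B) (D : Set W) (b : B) : fib (chg e A) D (A b) = fib e D b := by
  ext x
  change (A (e x).1 = A b ∧ (e x).2 ∈ D) ↔ ((e x).1 = b ∧ (e x).2 ∈ D)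
  rw [A.injective.eq_iff]

/-- two fibres which are equal have the same sections -/
private theorem GT_transport (F : EMod.{u, u, w} (O V)) (e e' : V ≃L[ℂ] B × W) (D : Set W) (hD : IsCompact D)
    {t t' : B} (h : fib e D t = fib e' D t') (ht : t ∈ (F.push e D hD).dom) (m : (F.push e D hD).St t) :
    t' ∈ (F.push e' D hD).dom ∧ ∃ m' : (F.push e' D hD).St t', ∀ x (hx : x ∈ fib e D t) (hx' : x ∈ fib e' D t'),
      F.pushVal e' D hD t' m' x hx' = F.pushVal e D hD t m x hx := by
  obtain ⟨s₁, hs₁, rfl⟩ := (F.push e D hD).surj t ht m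
  obtain ⟨s, hs, hsv⟩ := F.push_on_mp e D hD (S := {t}) (s' := s₁) (by
    intro z hz
    rw [Set.mem_singleton_iff.1 hz]
    exact hs₁)
  obtain ⟨s', hs', hs'v⟩ := F.push_exists e' D hD {t'} s (by
    intro z hz
    rw [Set.mem_singleton_iff.1 hz, ← h]
    exact hs t rfl)
  refine ⟨(F.push e' D hD).mem_dom (hs' t' rfl), s' t', fun x hx hx' => ?_⟩
  rw [hs'v t' rfl x hx', hsv t rfl x hx]

private theorem GT_val_zero (F : EMod.{u, u, w} (O V)) (e : V ≃L[ℂ] B × W) (D : Set W) (hD : IsCompact D) (t : B)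
    (x : V) (hx : x ∈ fib e D t) : F.pushVal e D hD t 0 x hx = 0 := by
  have h1 := F.pushVal_add e D hD t 0 0 x hx
  rw [add_zero] at h1
  exact left_eq_add.1 h1

private theorem GT_val (F : EMod.{u, u, w} (O V)) (e : V ≃L[ℂ] B × W) (D : Set W) (hD : IsCompact D) {t : B} {r : ℕ}
    (f : Fin r → (F.push e D hD).St t) (α : Fin r → B → ℂ) (hα : ∀ i, HolAt (α i) t) (x : V) (hx : x ∈ fib e D t) :
    F.pushVal e D hD t (∑ i, (om (α i) t : (O B).St t) • f i) x hx =
      ∑ i, (om (fun y => α i (e y).1) x : (O V).St x) • F.pushVal e D hD t (f i) x hx := by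
  classical
  have key : ∀ T : Finset (Fin r), F.pushVal e D hD t (∑ i ∈ T, (om (α i) t : (O B).St t) • f i) x hx =
      ∑ i ∈ T, (om (fun y => α i (e y).1) x : (O V).St x) • F.pushVal e D hD t (f i) x hx := by
    intro T
    induction T using Finset.induction_on with
    | empty =>
      rw [Finset.sum_empty, Finset.sum_empty]
      exact GT_val_zero F e D hD t x hx
    | insert a T ha ih =>
      rw [Finset.sum_insert ha, Finset.sum_insert ha, F.pushVal_add, ih, F.pushVal_smul_om e D hD t (hα a)]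
  exact key Finset.univ

private theorem GT_hol (A : B ≃L[ℂ] B) {α : B → ℂ} {t : B} (h : HolAt α t) : HolAt (fun z => α (A.symm z)) (A t) := by
  refine HolAt.comp (f := α) (g := fun z => A.symm z) ?_ (Eventually.of_forall fun y => A.symm.differentiableAt)
  rw [A.symm_apply_apply]
  exact h

private theorem GT_hol' (A : B ≃L[ℂ] B) {γ : B → ℂ} {t : B} (h : HolAt γ (A t)) : HolAt (fun z => γ (A z)) t :=
  HolAt.comp (f := γ) (g := fun z => A z) h (Eventually.of_forall fun y => A.differentiableAt)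

/-- **Freeness is invariant under the change of coordinates.**

Proof. Let `P = F.push e D hD`, `P' = F.push (chg e A) D hD`. Let `f i`, `i : Fin r`, be sections of `P` near `b` which form a basis of the stalks at all `t ∈ S`, `S` an open neighbourhood of `b` with `P.On (f i) S` (`mem_nhds_iff`, `P.ev`). By `EMod.push_on` there are `s i : (x : V) → F.St x`, sections of `F` near `fib e D t`,
`t ∈ S`, with `pushVal t (f i t) x = s i x`. By `fib_chg` and `EMod.push_exists` (over the set `A '' S`) there are sections `f' i` of `P'` over `A '' S` with `pushVal (A t) (f' i (A t)) x = s i x` for `t ∈ S`, `x ∈ fib e D t`. `A '' S` is an open neighbourhood of `A b`.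
CLAIM: for `t ∈ S` every `m' ∈ P'.St (A t)` is a unique combination of the `f' i (A t)`. First, the bijection between the stalks: given `m'`, `P'.surj` (`A t ∈ P'.dom` because `f' i` or `0` is a section: if `r = 0` use that `m'` … see below) gives a section through `m'`; `push_on` over `{A t}` gives `s` near `fib e D t`, `push_exists` over `{t}` for `e` gives
`m ∈ P.St t` with `pushVal t m x = pushVal (A t) m' x` for all `x` in the fibre. `m = ∑ a i • f i t`, `a i = gm (α i) t`; put `a' i = gm (α i ∘ A.symm) (A t)`. Then `∑ a' i • f' i (A t)` and `m'` have the same values at all `x` in the fibre (`EMod.pushVal_add`, `EMod.pushVal_smul`: both give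
`∑ i, om (fun y => α i (e y).1) x • s i x`, since `(α i ∘ A.symm) ((chg e A y).1) = α i (e y).1`), so they are equal (`EMod.push_ext`). Uniqueness in the same way: if `∑ a' i • f' i (A t) = ∑ a'' i • f' i (A t)` then transport `a'`, `a''` back by composition with `A` and compare the values: `∑ a i • f i t` are equal by `push_ext`, so the coefficients are equal,
and composition with `A` is injective on germs.
Membership in the domains: `A t ∈ P'.dom`: apply `EMod.push_exists` over `A '' S` to the section `s = 0` of `F` (`F` is defined near the fibre because: by `push_on` for the section `0 : P` over `S`, `P.zero`, there is some section of `F` near the fibre) to get a section of `P'` near `A t`, and `P'.mem_dom`. -/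
theorem freeAt_chg (F : EMod.{u, u, w} (O V)) (e : V ≃L[ℂ] B × W) (A : B ≃L[ℂ] B) (D : Set W) (hD : IsCompact D) {r : ℕ}
    {b : B} (hb : b ∈ (F.push e D hD).dom) (h : FreeAt (F.push e D hD) r b) : FreeAt (F.push (chg e A) D hD) r (A b) := by
  obtain ⟨f, hf, hfree⟩ := h
  have h1 : ∀ᶠ t in 𝓝 b, t ∈ (F.push e D hD).dom ∧ (∀ i, (F.push e D hD).At (f i) t) ∧
      ∀ m : (F.push e D hD).St t, ∃! a : Fin r → (O B).St t, m = ∑ i, a i • f i t := by
    have h2 : ∀ᶠ t in 𝓝 b, t ∈ (F.push e D hD).dom := (F.push e D hD).isOpen_dom.mem_nhds hb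
    have h3 : ∀ᶠ t in 𝓝 b, ∀ i, (F.push e D hD).At (f i) t :=
      eventually_all.2 fun i => (F.push e D hD).ev (hf i)
    filter_upwards [h2, h3, hfree] with t ht1 ht2 ht3
    exact ⟨ht1, ht2, ht3⟩
  obtain ⟨S, hS, hSo, hbS⟩ := eventually_nhds_iff.1 h1
  -- the sections of `F`
  have h2 : ∀ i, ∃ s : (x : V) → F.St x, (∀ t ∈ S, F.On s (fib e D t)) ∧
      ∀ t ∈ S, ∀ (x : V) (hx : x ∈ fib e D t), F.pushVal e D hD t (f i t) x hx = s x := fun i =>
    F.push_on_mp e D hD (S := S) (s' := f i) fun t ht => (hS t ht).2.1 i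
  choose s hs hsv using h2
  have h3 : ∀ i, ∃ s' : (t : B) → (F.push (chg e A) D hD).St t, (F.push (chg e A) D hD).On s' (A '' S) ∧
      ∀ t ∈ A '' S, ∀ x (hx : x ∈ fib (chg e A) D t), F.pushVal (chg e A) D hD t (s' t) x hx = s i x := by
    intro i
    refine F.push_exists (chg e A) D hD (A '' S) (s i) ?_
    rintro _ ⟨t, ht, rfl⟩
    rw [fib_chg]
    exact hs i t ht
  choose f' hf' hf'v using h3
  have hAS : A '' S ∈ 𝓝 (A b) := (A.toHomeomorph.isOpenMap S hSo).mem_nhds ⟨b, hbS, rfl⟩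
  refine ⟨f', fun i => hf' i (A b) ⟨b, hbS, rfl⟩, ?_⟩
  filter_upwards [hAS]
  rintro _ ⟨t, ht, rfl⟩ m'
  obtain ⟨ht1, -, ht3⟩ := hS t ht
  -- the values of corresponding combinations
  have hval : ∀ α : Fin r → B → ℂ, (∀ i, HolAt (α i) t) → ∀ x (hx : x ∈ fib e D t)
      (hx' : x ∈ fib (chg e A) D (A t)),
      F.pushVal (chg e A) D hD (A t) (∑ i, (om (fun z => α i (A.symm z)) (A t) : (O B).St (A t)) • f' i (A t)) x hx' =
        F.pushVal e D hD t (∑ i, (om (α i) t : (O B).St t) • f i t) x hx := by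
    intro α hα x hx hx'
    rw [GT_val F (chg e A) D hD (fun i => f' i (A t)) (fun i z => α i (A.symm z)) (fun i => GT_hol A (hα i)) x hx',
      GT_val F e D hD (fun i => f i t) α hα x hx]
    refine Finset.sum_congr rfl fun i _ => ?_
    rw [hf'v i (A t) ⟨t, ht, rfl⟩ x hx', hsv i t ht x hx]
    congr 2
    funext y
    change α i (A.symm (A (e y).1)) = _
    rw [A.symm_apply_apply]
  obtain ⟨hAt, -⟩ := GT_transport F e (chg e A) D hD (fib_chg e A D t).symm ht1 0
  obtain ⟨-, m, hm⟩ := GT_transport F (chg e A) e D hD (fib_chg e A D t) hAt m'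
  obtain ⟨a, ha, hau⟩ := ht3 m
  choose α hα hαa using fun i => exists_gm (a i)
  have ha2 : m = ∑ i, (om (α i) t : (O B).St t) • f i t := by
    rw [ha]
    exact Finset.sum_congr rfl fun i _ => by rw [← hαa i]
  refine ⟨fun i => om (fun z => α i (A.symm z)) (A t), ?_, ?_⟩
  · apply F.push_ext
    intro x hx'
    have hx : x ∈ fib e D t := by rw [← fib_chg e A D t]; exact hx'
    rw [hval α hα x hx hx', ← ha2, hm x hx' hx]
  · intro a'' ha''
    choose γ hγ hγa using fun i => exists_gm (a'' i)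
    have hγ' : ∀ i, HolAt (fun z => γ i (A z)) t := fun i => GT_hol' A (hγ i)
    have h4 : m = ∑ i, (om (fun z => γ i (A z)) t : (O B).St t) • f i t := by
      apply F.push_ext
      intro x hx
      have hx' : x ∈ fib (chg e A) D (A t) := by rw [fib_chg e A D t]; exact hx
      rw [← hval (fun i z => γ i (A z)) hγ' x hx hx', hm x hx' hx, ha'']
      congr 1
      refine Finset.sum_congr rfl fun i _ => ?_
      rw [← hγa i]
      congr 2
      funext z
      rw [A.apply_symm_apply]
    have h5 := hau (fun i => om (fun z => γ i (A z)) t) h4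
    funext i
    have h6 : (gm (fun z => γ i (A z)) t : OGerm t) = gm (α i) t := (congrFun h5 i).trans (hαa i).symm
    rw [gm_eq_iff (hγ' i) (hα i)] at h6
    rw [← hγa i]
    refine (gm_eq_iff (hγ i) (GT_hol A (hα i))).2 ?_
    have h7 : Tendsto (fun z => A.symm z) (𝓝 (A t)) (𝓝 t) := by
      have := A.symm.continuous.tendsto (A t)
      rwa [A.symm_apply_apply] at this
    filter_upwards [h7.eventually h6] with z hz
    rw [← hz, A.apply_symm_apply]

end Pool.Agent.DQ
end

section

/-! # DQ, module G, task GZ1: adapted linear coordinates and their perturbations -/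

set_option autoImplicit false

open Set Filter Topology Module

universe u

namespace Pool.Agent.DQ

private noncomputable def GZ1_psi (k' d : ℕ) :
    ((Fin k' → ℂ) × ((ℂ × (ℂ × ℂ)) × (Fin d → ℂ))) ≃ₗ[ℂ] (Bs (k' + 1) × (Fin d → ℂ)) where
  toFun p := ((Fin.snoc (α := fun _ => ℂ) p.1 p.2.1.1, p.2.1.2), p.2.2)
  map_add' p q := by
    refine Prod.ext (Prod.ext ?_ rfl) rfl
    funext i
    refine Fin.lastCases ?_ (fun i => ?_) i <;> simp
  map_smul' c p := by
    refine Prod.ext (Prod.ext ?_ rfl) rfl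
    funext i
    refine Fin.lastCases ?_ (fun i => ?_) i <;> simp
  invFun q := (fun i => q.1.1 i.castSucc, ((q.1.1 (Fin.last k'), q.1.2), q.2))
  left_inv p := by
    refine Prod.ext ?_ (Prod.ext (Prod.ext ?_ rfl) rfl)
    · funext i
      simp
    · simp
  right_inv q := by
    refine Prod.ext (Prod.ext ?_ rfl) rfl
    funext i
    refine Fin.lastCases ?_ (fun i => ?_) i <;> simp

private noncomputable def GZ1_coordB (k : ℕ) : Bs k ≃ₗ[ℂ] (Fin (k + 2) → ℂ) where
  toFun b := Fin.append b.1 ![b.2.1, b.2.2]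
  map_add' p q := by
    funext i
    refine Fin.addCases (fun i => ?_) (fun i => ?_) i
    · simp
    · rw [Pi.add_apply, Fin.append_right, Fin.append_right, Fin.append_right]
      fin_cases i <;> rfl
  map_smul' c p := by
    funext i
    refine Fin.addCases (fun i => ?_) (fun i => ?_) i
    · simp
    · rw [Pi.smul_apply, Fin.append_right, Fin.append_right]
      fin_cases i <;> rfl
  invFun f := (fun i => f (Fin.castAdd 2 i), f (Fin.natAdd k 0), f (Fin.natAdd k 1))
  left_inv b := by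
    refine Prod.ext ?_ (Prod.ext ?_ ?_)
    · funext i
      simp
    · change Fin.append b.1 ![b.2.1, b.2.2] (Fin.natAdd k 0) = b.2.1
      rw [Fin.append_right]
      rfl
    · change Fin.append b.1 ![b.2.1, b.2.2] (Fin.natAdd k 1) = b.2.2
      rw [Fin.append_right]
      rfl
  right_inv f := by
    funext i
    change Fin.append (fun i => f (Fin.castAdd 2 i)) ![f (Fin.natAdd k 0), f (Fin.natAdd k 1)] i = f i
    refine Fin.addCases (fun i => ?_) (fun i => ?_) i
    · rw [Fin.append_left]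
    · rw [Fin.append_right]
      fin_cases i <;> rfl

/-- **Coordinates adapted to `L`**: all `t`-coordinates but the last one vanish exactly on `L`.

Proof. `n = finrank ℂ V`, `d + 3 ≤ n` (`Submodule.finrank_le`); `k' = n - d - 3`. Let `L'` be a complement of `L` (`Submodule.exists_isCompl`), `finrank L' = k'`; `V ≃ L' × L` (`Submodule.prodEquivOfIsCompl`), `L' ≃ (Fin k' → ℂ)`, `L ≃ ℂ × (ℂ × ℂ) × (Fin d → ℂ)` (dimension `d + 3`; `LinearEquiv.ofFinrankEq`). Put the
pieces together: `x ↦ ((Fin.snoc (coordinates in L') (first coordinate in L), second, third), rest)`; `Fin.snoc` gives a linear isomorphism `(Fin k' → ℂ) × ℂ ≃ (Fin (k' + 1) → ℂ)` (`Fin.snocEquiv`-like, or build it by hand with `Fin.init`, `Fin.last`). Linear equivalences between finite dimensional spaces are continuous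
(`LinearEquiv.toContinuousLinearEquiv`). -/
theorem adapted {V : Type} [NormedAddCommGroup V] [NormedSpace ℂ V] [FiniteDimensional ℂ V] (d : ℕ)
    (L : Submodule ℂ V) (hL : finrank ℂ L = d + 3) :
    ∃ (k' : ℕ) (e₀ : V ≃L[ℂ] Bs (k' + 1) × (Fin d → ℂ)),
      ∀ x, x ∈ L ↔ ∀ i : Fin k', (e₀ x).1.1 i.castSucc = 0 := by
  obtain ⟨L', hL'⟩ := Submodule.exists_isCompl L
  have h1 : finrank ℂ L + finrank ℂ L' = finrank ℂ V := Submodule.finrank_add_eq_of_isCompl hL'
  let Φ : (L' × L) ≃ₗ[ℂ] V := Submodule.prodEquivOfIsCompl L' L hL'.symm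
  let A : L' ≃ₗ[ℂ] (Fin (finrank ℂ L') → ℂ) := LinearEquiv.ofFinrankEq _ _ (by simp)
  let Bq : L ≃ₗ[ℂ] ((ℂ × (ℂ × ℂ)) × (Fin d → ℂ)) := LinearEquiv.ofFinrankEq _ _ (by
    rw [hL]
    simp
    omega)
  let E : V ≃ₗ[ℂ] (Bs (finrank ℂ L' + 1) × (Fin d → ℂ)) :=
    (Φ.symm.trans (A.prodCongr Bq)).trans (GZ1_psi (finrank ℂ L') d)
  refine ⟨finrank ℂ L', E.toContinuousLinearEquiv, fun x => ?_⟩
  have h2 : ∀ i : Fin (finrank ℂ L'), (E x).1.1 i.castSucc = A (Φ.symm x).1 i := by
    intro i
    change Fin.snoc (α := fun _ => ℂ) (A (Φ.symm x).1) (Bq (Φ.symm x).2).1.1 i.castSucc = _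
    rw [Fin.snoc_castSucc]
  have h3 : x ∈ L ↔ (Φ.symm x).1 = 0 :=
    (Submodule.prodEquivOfIsCompl_symm_apply_fst_eq_zero L' L hL'.symm).symm
  change x ∈ L ↔ ∀ i : Fin (finrank ℂ L'), (E x).1.1 i.castSucc = 0
  rw [h3]
  constructor
  · intro h i
    rw [h2, h, map_zero]
    rfl
  · intro h
    have h4 : A (Φ.symm x).1 = 0 := by
      funext i
      rw [← h2, h]
      rfl
    exact (LinearEquiv.map_eq_zero_iff A).mp h4

/-- Coordinates of `Bs k`. Proof. `κ b = Fin.append b.1 ![b.2.1, b.2.2]`, a linear bijection (inverse: `Fin.castAdd`, `Fin.natAdd`), continuous as the spaces are finite dimensional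
(`LinearEquiv.toContinuousLinearEquiv`). -/
theorem exists_coordB (k : ℕ) : ∃ κ : Bs k ≃L[ℂ] (Fin (k + 2) → ℂ), ∀ b i, κ b (Fin.castAdd 2 i) = b.1 i := by
  refine ⟨(GZ1_coordB k).toContinuousLinearEquiv, fun b i => ?_⟩
  change Fin.append b.1 ![b.2.1, b.2.2] (Fin.castAdd 2 i) = b.1 i
  rw [Fin.append_left]

/-- Proof. `Module.finrank_prod`, `Module.finrank_fin_fun`, `Module.finrank_self`. -/
theorem finrank_Bs (k : ℕ) : finrank ℂ (Bs k) = k + 2 := by
  simp

variable {V : Type} [NormedAddCommGroup V] [NormedSpace ℂ V] [FiniteDimensional ℂ V]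
  {B : Type} [NormedAddCommGroup B] [NormedSpace ℂ B] [FiniteDimensional ℂ B]
  {W : Type} [NormedAddCommGroup W] [NormedSpace ℂ W] [FiniteDimensional ℂ W] {m : ℕ}

/-- the form `x ↦ κ (e x).1 i` -/
noncomputable def frm (e : V ≃L[ℂ] B × W) (κ : B ≃L[ℂ] (Fin m → ℂ)) (i : Fin m) : V →L[ℂ] ℂ :=
  (ContinuousLinearMap.proj i).comp ((κ : B →L[ℂ] (Fin m → ℂ)).comp
    ((ContinuousLinearMap.fst ℂ B W).comp (e : V →L[ℂ] B × W)))

omit [FiniteDimensional ℂ V] [FiniteDimensional ℂ B] [FiniteDimensional ℂ W] in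
theorem frm_apply (e : V ≃L[ℂ] B × W) (κ : B ≃L[ℂ] (Fin m → ℂ)) (i : Fin m) (x : V) : frm e κ i x = κ (e x).1 i := rfl

/-- **Perturbation of the base coordinates.**

Proof. For forms `b'` let `T b' : V →L[ℂ] B × W`, `x ↦ (κ.symm (fun i => b' i x), (e₀ x).2)` (`ContinuousLinearMap.pi b'`). For `b' i = frm e₀ κ i` it is `e₀`. `‖T b' - e₀‖ ≤ ‖κ.symm‖ * max ‖b' i - frm e₀ κ i‖` (`ContinuousLinearMap.opNorm_le_bound`, `pi_norm_le_iff_of_nonneg`). The invertible operators form an open set
(`ContinuousLinearEquiv.isOpen`, `ContinuousLinearEquiv.nhds`), so for small `δ` `T b'` is (the coercion of) a `ContinuousLinearEquiv e`. (Alternatively: `T b' = e₀ ∘ (1 - …)`, injective for small `δ`, and equality of dimensions.) -/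
theorem perturb (e₀ : V ≃L[ℂ] B × W) (κ : B ≃L[ℂ] (Fin m → ℂ)) :
    ∃ δ > 0, ∀ b' : Fin m → V →L[ℂ] ℂ, (∀ i, ‖b' i - frm e₀ κ i‖ < δ) →
      ∃ e : V ≃L[ℂ] B × W, (∀ x i, κ (e x).1 i = b' i x) ∧ ∀ x, (e x).2 = (e₀ x).2 := by
  have hnh : Set.range ((↑) : (V ≃L[ℂ] B × W) → V →L[ℂ] B × W) ∈ 𝓝 (e₀ : V →L[ℂ] B × W) := by
    have : CompleteSpace V := FiniteDimensional.complete ℂ V
    exact e₀.nhds
  obtain ⟨η, hη, hball⟩ := Metric.mem_nhds_iff.mp hnh
  set N : ℝ := ‖(κ.symm : (Fin m → ℂ) →L[ℂ] B)‖ with hN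
  have hN0 : 0 ≤ N := norm_nonneg _
  have hδ : 0 < η / (2 * (N + 1)) := by positivity
  refine ⟨η / (2 * (N + 1)), hδ, fun b' hb' => ?_⟩
  set T : V →L[ℂ] B × W := ((κ.symm : (Fin m → ℂ) →L[ℂ] B).comp (ContinuousLinearMap.pi b')).prod
    ((ContinuousLinearMap.snd ℂ B W).comp (e₀ : V →L[ℂ] B × W)) with hT
  have hTx : ∀ x, T x = (κ.symm (fun i => b' i x), (e₀ x).2) := fun x => rfl
  have hdiff : ∀ x, (T - (e₀ : V →L[ℂ] B × W)) x =
      (κ.symm (fun i => (b' i - frm e₀ κ i) x), 0) := by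
    intro x
    change T x - e₀ x = _
    rw [hTx]
    refine Prod.ext ?_ ?_
    · change κ.symm (fun i => b' i x) - (e₀ x).1 = κ.symm (fun i => (b' i - frm e₀ κ i) x)
      have h1 : (e₀ x).1 = κ.symm (fun i => frm e₀ κ i x) := by
        rw [ContinuousLinearEquiv.eq_symm_apply]
        rfl
      rw [h1, ← map_sub]
      rfl
    · change (e₀ x).2 - (e₀ x).2 = 0
      rw [sub_self]
  have hnorm : ‖T - (e₀ : V →L[ℂ] B × W)‖ ≤ η / 2 := by
    refine ContinuousLinearMap.opNorm_le_bound _ (by positivity) fun x => ?_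
    rw [hdiff, Prod.norm_def, norm_zero, max_eq_left (norm_nonneg _)]
    have h1 : ‖κ.symm (fun i => (b' i - frm e₀ κ i) x)‖ ≤
        N * ‖(fun i => (b' i - frm e₀ κ i) x)‖ :=
      (κ.symm : (Fin m → ℂ) →L[ℂ] B).le_opNorm _
    have h2 : ‖(fun i => (b' i - frm e₀ κ i) x)‖ ≤ η / (2 * (N + 1)) * ‖x‖ := by
      rw [pi_norm_le_iff_of_nonneg (by positivity)]
      intro i
      exact ((b' i - frm e₀ κ i).le_opNorm x).trans
        (mul_le_mul_of_nonneg_right (hb' i).le (norm_nonneg _))
    refine h1.trans ((mul_le_mul_of_nonneg_left h2 hN0).trans ?_)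
    rw [← mul_assoc]
    refine mul_le_mul_of_nonneg_right ?_ (norm_nonneg _)
    have h3 : N * (η / (2 * (N + 1))) = η / 2 * (N / (N + 1)) := by
      field_simp
    rw [h3]
    have h4 : N / (N + 1) ≤ 1 := by
      rw [div_le_one (by positivity)]
      linarith
    nlinarith
  have hmem : T ∈ Set.range ((↑) : (V ≃L[ℂ] B × W) → V →L[ℂ] B × W) := by
    apply hball
    rw [Metric.mem_ball, dist_eq_norm]
    exact hnorm.trans_lt (by linarith)
  obtain ⟨e, he⟩ := hmem
  have hex : ∀ x, e x = T x := fun x => congrArg (fun S : V →L[ℂ] B × W => S x) he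
  refine ⟨e, fun x i => ?_, fun x => ?_⟩
  · rw [hex, hTx]
    change κ (κ.symm (fun i => b' i x)) i = b' i x
    rw [ContinuousLinearEquiv.apply_symm_apply]
  · rw [hex, hTx]

end Pool.Agent.DQ
end

section

/-! # DQ, module G, task GA9: a torsion free module splits outside a set of codimension two -/

set_option autoImplicit false

open Matrix RingTheory.Sequence IsLocalRing

universe u v w

namespace Pool.Agent.DQ

variable {R : Type u} [CommRing R] {M : Type w} [AddCommGroup M] [Module R M] {n : ℕ → ℕ}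
  {B : ∀ k, Matrix (Fin (n (k + 1))) (Fin (n k)) R} {ε : (Fin (n 1) → R) →ₗ[R] M}

/-- One step of the splitting.

Proof. Let `D = a ^ e • 1 - S * B (k+1)` (a square matrix of size `n (k+1)`). `B (k+1) * D = a ^ e • B (k+1) - B (k+1) * S * B (k+1) = 0` by `hS`. So every column `w` of `D` satisfies `B (k+1) *ᵥ w = 0`, so by `ha : a ∈ AnnExt n B k`
there is `u` with `B k *ᵥ u = a • w`. Collecting the columns: `a • D = B k * T` for a matrix `T` (`T i j = (u of the column j) i`). Put `S' = T`. Multiply by `B k` on the right: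
`B k * T * B k = a • D * B k = a • (a ^ e • B k - S * B (k+1) * B k) = a ^ (e+1) • B k`, since `B (k+1) * B k = 0`. -/
theorem split_step (hBB : ∀ k, B (k + 1) * B k = 0) {k : ℕ} {a : R} (ha : a ∈ AnnExt n B k) {e : ℕ}
    (S : Matrix (Fin (n (k + 1))) (Fin (n (k + 2))) R) (hS : B (k + 1) * S * B (k + 1) = a ^ e • B (k + 1)) :
    ∃ S' : Matrix (Fin (n k)) (Fin (n (k + 1))) R, B k * S' * B k = a ^ (e + 1) • B k := by
  set D : Matrix (Fin (n (k + 1))) (Fin (n (k + 1))) R := a ^ e • 1 - S * B (k + 1) with hD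
  have h0 : B (k + 1) * D = 0 := by
    rw [hD, Matrix.mul_sub, Matrix.mul_smul, Matrix.mul_one, ← Matrix.mul_assoc, hS, sub_self]
  have h1 : ∀ j, ∃ u : Fin (n k) → R, B k *ᵥ u = a • (fun i => D i j) := by
    intro j
    refine ha _ ?_
    funext i
    have := congrFun (congrFun h0 i) j
    simpa [Matrix.mul_apply, Matrix.mulVec, dotProduct] using this
  choose u hu using h1
  refine ⟨Matrix.of fun i j => u j i, ?_⟩
  have h2 : B k * (Matrix.of fun i j => u j i) = a • D := by
    ext i j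
    have := congrFun (hu j) i
    simpa [Matrix.mul_apply, Matrix.mulVec, dotProduct] using this
  rw [h2, Matrix.smul_mul, hD, Matrix.sub_mul, Matrix.mul_assoc, hBB, Matrix.mul_zero, sub_zero,
    Matrix.smul_mul, Matrix.one_mul, smul_smul, pow_succ']

/-- **Splitting outside codimension two.**

Proof. Let `N = xs.length` and `J = ⨅ j ∈ Finset.Icc 1 N, AnnExt n B j`. `GradeGE J 2`: each `AnnExt n B j`, `j ≥ 1`, has grade `≥ 2` (`IsRes.grade_annExt_tf`); finite infimum by induction on the finset with `GradeGE.inf`, empty infimum `⊤`: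
`GradeGE.of_top`. `B (k+1) * B k = 0` for all `k`: `IsRes.mul_eq_zero`. Let `a ∈ J`. `VN (B (N+1))` by `VN.of_regLoc` (with start `1`: `ExactAt n B k` for `k ≥ 1` by `IsRes.exactAt`; `1 + N ≤ N + 1`): `B (N+1) * S * B (N+1) = B (N+1) = a ^ 0 • B (N+1)`.
Descending from `N + 1` to `1` with `split_step` (`k = N, …, 1`, `a ∈ AnnExt n B k`): for all `i ≤ N` there are `e`, `S` with `B (N+1-i) * S * B (N+1-i) = a ^ e • B (N+1-i)` (induction on `i`; `e = i`); `i = N` is the claim. (To avoid
subtraction: prove `∀ k, 1 ≤ k → k ≤ N + 1 → ∃ e S, …` with `Nat.decreasingInduction` or `Nat.le_induction` backwards.) -/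
theorem IsRes.exists_split [IsNoetherianRing R] [IsLocalRing R] [IsDomain R] [Module.Finite R M] {xs : List R}
    (hR : RegLoc R xs) (h : IsRes n B ε) (htf : ∀ (a : R) (m : M), a ≠ 0 → a • m = 0 → m = 0) :
    ∃ J : Ideal R, GradeGE J 2 ∧ ∀ a ∈ J, ∃ (e : ℕ) (S : Matrix (Fin (n 1)) (Fin (n 2)) R),
      B 1 * S * B 1 = a ^ e • B 1 := by
  classical
  set N := xs.length with hN
  have hfin : ∀ s : Finset ℕ, (∀ j ∈ s, 1 ≤ j) → GradeGE (s.inf fun j => AnnExt n B j) 2 := by
    intro s
    induction s using Finset.induction_on with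
    | empty => intro _; exact GradeGE.of_top (by simp) 2
    | insert j s hj ih =>
      intro hs
      rw [Finset.inf_insert]
      exact GradeGE.inf (IsRes.grade_annExt_tf hR h htf (hs j (Finset.mem_insert_self j s)))
        (ih fun i hi => hs i (Finset.mem_insert_of_mem hi))
  refine ⟨(Finset.Icc 1 N).inf fun j => AnnExt n B j,
    hfin _ fun j hj => (Finset.mem_Icc.1 hj).1, ?_⟩
  intro a ha
  have hBB : ∀ k, B (k + 1) * B k = 0 := fun k => h.mul_eq_zero k
  have haj : ∀ j, 1 ≤ j → j ≤ N → a ∈ AnnExt n B j := by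
    intro j h1 h2
    have : (Finset.Icc 1 N).inf (fun j => AnnExt n B j) ≤ AnnExt n B j :=
      Finset.inf_le (Finset.mem_Icc.2 ⟨h1, h2⟩)
    exact this ha
  obtain ⟨S, hS⟩ := VN.of_regLoc hR (a := 1) (fun k hk => h.exactAt hk) (k := N + 1)
    (by omega)
  have key : ∀ i, ∀ k, 1 ≤ k → k + i = N + 1 →
      ∃ (e : ℕ) (S : Matrix (Fin (n k)) (Fin (n (k + 1))) R), B k * S * B k = a ^ e • B k := by
    intro i
    induction i with
    | zero =>
      intro k hk hki
      have : k = N + 1 := by omega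
      subst this
      exact ⟨0, S, by rw [hS, pow_zero, one_smul]⟩
    | succ i ih =>
      intro k hk hki
      obtain ⟨e, S', hS'⟩ := ih (k + 1) (by omega) (by omega)
      obtain ⟨S'', hS''⟩ := split_step hBB (haj k hk (by omega)) S' hS'
      exact ⟨e + 1, S'', hS''⟩
  exact key N 1 le_rfl (by omega)

end Pool.Agent.DQ
end

section

/-! # DQ, module G, task GM4: locally free points of a sheaf; constancy of the rank -/

set_option autoImplicit false

open Set Filter Topology Module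

universe u w

namespace Pool.Agent.DQ

variable {B : Type u} [NormedAddCommGroup B] [NormedSpace ℂ B] [FiniteDimensional ℂ B]
  {E : EMod.{u, u, w} (O B)}

/-- Proof. `E.ev` for the finitely many sections, `eventually_eventually_nhds`. -/
theorem FreeAt.near {r : ℕ} {b : B} (h : FreeAt E r b) : ∀ᶠ b' in 𝓝 b, FreeAt E r b' := by
  obtain ⟨f, hf, h⟩ := h
  have h1 : ∀ᶠ y in 𝓝 b, ∀ i, E.At (f i) y := eventually_all.2 fun i => E.ev (hf i)
  filter_upwards [h1, eventually_eventually_nhds.2 h] with y hy hy'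
  exact ⟨f, hy, hy'⟩

/-- The rank is unique.

Proof. At `b` itself (`Eventually.self_of_nhds`) the elements `f i b`, `i : Fin r`, form a basis of `E.St b` over the nontrivial commutative ring `OGerm b`: the map `a ↦ ∑ i, a i • f i b` is a bijective linear map `(Fin r → OGerm b) → E.St b`; so `OGerm b ^ r ≃ OGerm b ^ r'`, `r = r'`
(`LinearEquiv` and `invariantBasisNumber_of_nontrivial…`: `eq_of_fin_equiv`). -/
theorem FreeAt.unique {r r' : ℕ} {b : B} (h : FreeAt E r b) (h' : FreeAt E r' b) : r = r' := by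
  obtain ⟨f, -, h⟩ := h
  obtain ⟨f', -, h'⟩ := h'
  let _ : Module (OGerm b) (E.St b) := E.mod b
  have key : ∀ (k : ℕ) (v : Fin k → E.St b), (∀ m : E.St b, ∃! a : Fin k → OGerm b, m = ∑ i, a i • v i) →
      Nonempty ((Fin k → OGerm b) ≃ₗ[OGerm b] E.St b) := by
    intro k v hv
    refine ⟨LinearEquiv.ofBijective (Fintype.linearCombination (OGerm b) v) ⟨?_, ?_⟩⟩
    · intro a a' haa
      obtain ⟨c, -, hc⟩ := hv (∑ i, a i • v i)
      rw [Fintype.linearCombination_apply, Fintype.linearCombination_apply] at haa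
      exact (hc a rfl).trans (hc a' haa).symm
    · intro m
      obtain ⟨c, hc, -⟩ := hv m
      exact ⟨c, by rw [Fintype.linearCombination_apply]; exact hc.symm⟩
  obtain ⟨e⟩ := key r (fun i => f i b) h.self_of_nhds
  obtain ⟨e'⟩ := key r' (fun i => f' i b) h'.self_of_nhds
  exact eq_of_fin_equiv (OGerm b) (e.trans e'.symm)

/-- **The rank is constant on connected sets.**

Proof. If `C` is empty take `r = 0`. Otherwise let `b₀ ∈ C`, `FreeAt E r b₀`. The sets `U = {b | FreeAt E r b}` and `W = {b | ∃ r' ≠ r, FreeAt E r' b}` are open (`FreeAt.near`), cover `C` and do not meet (`FreeAt.unique`). `C` is preconnected and meets `U`, so it does not meet `W` (definition of `IsPreconnected`: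
otherwise `C ∩ (U ∩ W)` would be nonempty). -/
theorem FreeAt.const {C : Set B} (hC : IsPreconnected C) (h : ∀ b ∈ C, ∃ r, FreeAt E r b) :
    ∃ r, ∀ b ∈ C, FreeAt E r b := by
  rcases C.eq_empty_or_nonempty with rfl | ⟨b₀, hb₀⟩
  · exact ⟨0, fun b hb => hb.elim⟩
  obtain ⟨r, hr⟩ := h b₀ hb₀
  refine ⟨r, fun b hb => ?_⟩
  by_contra hcon
  obtain ⟨r', hr'⟩ := h b hb
  have hne : r' ≠ r := by
    rintro rfl
    exact hcon hr'
  have hU : IsOpen {b | FreeAt E r b} := isOpen_iff_mem_nhds.2 fun x hx => FreeAt.near hx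
  have hW : IsOpen {b | ∃ r', r' ≠ r ∧ FreeAt E r' b} := by
    refine isOpen_iff_mem_nhds.2 ?_
    rintro x ⟨s, hs, hx⟩
    filter_upwards [FreeAt.near hx] with y hy
    exact ⟨s, hs, hy⟩
  obtain ⟨y, -, hy1, s, hs, hy2⟩ := hC _ _ hU hW (by
    intro y hy
    obtain ⟨s, hs⟩ := h y hy
    by_cases hsr : s = r
    · left
      rw [hsr] at hs
      exact hs
    · exact Or.inr ⟨s, hsr, hs⟩) ⟨b₀, hb₀, hr⟩ ⟨b, hb, r', hne, hr'⟩
  exact hs (hy2.unique hy1)

end Pool.Agent.DQ
end
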