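import Mathlib
import Pool.Agent.Lib.MP_4aa2a9_ag.Mg.G036
import Pool.Agent.Lib.MP_4aa2a9_ag.Mg.G005
import Pool.Agent.Lib.MP_4aa2a9_ag.Mg.G007
import Pool.Agent.Lib.MP_4aa2a9_ag.Mg.G003
import Pool.Agent.Lib.MP_4aa2a9_ag.Mg.G040

section

/-! # DQ, module H: free modules -/

set_option autoImplicit false

open Set Filter Topology

universe u v

namespace Pool.Agent.DQ.H

variable {V : Type u} [NormedAddCommGroup V] [NormedSpace ℂ V]
  {ι : Type*} [LinearOrder ι] {U : Finset ι → Set V} (𝓐 : Defo.{u, v} V)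

/-- Proof. Componentwise: `(dC z T) i = dC (fun T' => z T' i) T` (`dC_map` with evaluation, or `Finset.sum_apply`), choose `y_i` for every component `i` from `h`. `(𝓐.A.free q).At u x` is `x ∈ 𝓐.A.dom ∧ ∀ i, 𝓐.A.At (fun y => u y i) x`; `U T ⊆ U ∅ ⊆ 𝓐.A.dom`. -/
theorem colEx_free (hanti : ∀ T T', T ⊆ T' → U T' ⊆ U T)
    (hd : U ∅ ⊆ 𝓐.A.dom) {a : ℕ} (h : ColEx (G := 𝓐.A.St) U 𝓐.A.At a) (q : ℕ) :
    ColEx (G := (𝓐.A.free q).St) U (𝓐.A.free q).At a := by
  intro z hz hdz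
  have hcomp : ∀ (w : Finset ι → (x : V) → Fin q → 𝓐.A.St x) (T : Finset ι) (x : V) (i : Fin q),
      (dC (fun T' => w T' x) T) i = dC (fun T' => w T' x i) T := by
    intro w T x i
    exact dC_map (G := Fin q → 𝓐.A.St x) (G' := 𝓐.A.St x) (fun g => g i) (fun _ _ => rfl)
      (fun T' => w T' x) T
  have h1 : ∀ i : Fin q, ∃ y : Finset ι → (x : V) → 𝓐.A.St x,
      (∀ T, T.card + 1 = a → ∀ x ∈ U T, 𝓐.A.At (y T) x) ∧
      ∀ T, T.card = a → ∀ x ∈ U T, dC (fun T' => y T' x) T = z T x i := by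
    intro i
    refine h (fun T x => z T x i) (fun T hT x hx => (hz T hT x hx).2 i) ?_
    intro T hT x hx
    have h2 := hdz T hT x hx
    have h3 := hcomp z T x i
    rw [← h3]
    exact congrFun h2 i
  choose y hy1 hy2 using h1
  refine ⟨fun T x i => y i T x, ?_, ?_⟩
  · intro T hT x hx
    exact ⟨hd (hanti _ _ (Finset.empty_subset _) hx), fun i => hy1 i T hT x hx⟩
  · intro T hT x hx
    funext i
    have h3 := hcomp (fun T x i => y i T x) T x i
    exact h3.trans (hy2 i T hT x hx)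

end Pool.Agent.DQ.H
end

section

/-! # DQ, module H: cohomology with values in free modules -/

set_option autoImplicit false

open Set Filter Topology Matrix

universe u v w

namespace Pool.Agent.DQ.H

variable {V : Type u} [NormedAddCommGroup V] [NormedSpace ℂ V] [FiniteDimensional ℂ V]
  {𝓐 : Defo.{u, v} V}

theorem colEx_of_hol {n : ℕ} (D : CovD V n) (hd : D.U ∅ ⊆ 𝓐.A.dom) {a : ℕ}
    (h : ColEx (G := fun _ : V => ℂ) D.U HolAt a) (q : ℕ) :
    ColEx (G := (𝓐.A.free q).St) D.U (𝓐.A.free q).At a :=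
  have h1 : ∀ T, IsOpen (D.U T) := D.isOpen_U
  have h2 : ∀ T T', T ⊆ T' → D.U T' ⊆ D.U T := fun _ _ h => D.U_anti h
  colEx_free 𝓐 h2 hd (colEx_A 𝓐 h1 h2 hd (colEx_O h1 h2 h)) q

end Pool.Agent.DQ.H
end

section

/-! # DQ, module H: coboundaries of cochains of sections -/

set_option autoImplicit false

open Set Filter Topology Matrix

universe u v w

namespace Pool.Agent.DQ.H

variable {V : Type u} [NormedAddCommGroup V] [NormedSpace ℂ V] {n : ℕ} [FiniteDimensional ℂ V]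
  {𝓐 : Defo.{u, v} V} {M : EMod.{u, v, w} 𝓐.A} {d : ℕ} {K : Set V} {g : ℕ → ℕ}
  {C : ∀ k, Fin (g k) → Fin (g (k + 1)) → (x : V) → 𝓐.A.St x}
  {φ : ∀ x, (Fin (g (d + 1)) → 𝓐.A.St x) → M.St x}

/-- Proof. `dC_map` with the additive map `u ↦ u ᵥ* cm 𝓐 C k x` (`Matrix.add_vecMul`). -/
theorem dC_vecMul {ι : Type*} [LinearOrder ι] (k : ℕ) (x : V)
    (z : Finset ι → Fin (g k) → 𝓐.A.St x) (T : Finset ι) :
    dC z T ᵥ* cm 𝓐 C k x = dC (fun T' => z T' ᵥ* cm 𝓐 C k x) T :=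
  dC_map (fun u => u ᵥ* cm 𝓐 C k x) (fun a b => Matrix.add_vecMul _ a b) z T

/-- the coboundary of a cochain of sections

Proof. finite sum of integer multiples of the sections `z (T.erase j)`, `j ∈ T`, over `U (T.erase j) ⊇ U T` (`EMod.sum` / `EMod.at_sum`, `EMod.neg`; `sg` is `1` or `-1`, or write `k • m = (k : R.St y) • m` and use that integer constants are sections). -/
theorem dC_at {R : ERing.{u, v} V} (N : EMod.{u, v, w} R) {ι : Type*} [LinearOrder ι]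
    {U : Finset ι → Set V} (hanti : ∀ T T', T ⊆ T' → U T' ⊆ U T) {a : ℕ}
    {z : Finset ι → (x : V) → N.St x} (hz : ∀ T, T.card = a → N.On (z T) (U T)) (hd : U ∅ ⊆ N.dom)
    {T : Finset ι} (hT : T.card = a + 1) : N.On (fun x => dC (fun T' => z T' x) T) (U T) := by
  intro x hx
  have hxd : x ∈ N.dom := hd (hanti ∅ T (Finset.empty_subset T) hx)
  have h1 : ∀ j ∈ T, N.At (fun y => sg j T • z (T.erase j) y) x := by
    intro j hj
    have h2 : N.At (z (T.erase j)) x := by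
      apply hz (T.erase j) (by rw [Finset.card_erase_of_mem hj, hT]; rfl)
      exact hanti _ _ (Finset.erase_subset j T) hx
    have h3 : sg j T = 1 ∨ sg j T = -1 := by
      unfold sg
      exact neg_one_pow_eq_or ℤ _
    rcases h3 with h3 | h3
    · rw [h3]
      refine N.congr h2 (Eventually.of_forall fun y => ?_)
      rw [one_smul]
    · rw [h3]
      refine N.congr (N.neg h2) (Eventually.of_forall fun y => ?_)
      rw [neg_smul, one_smul]
      rfl
  have h4 := N.sum T hxd h1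
  refine N.congr h4 (Eventually.of_forall fun y => ?_)
  rw [Finset.sum_apply]
  rfl

end Pool.Agent.DQ.H
end

section

/-!
# DQ, module HA1, part i: the consequences of `d`-reflexivity for a stalk.

`R` is the stalk of the deformation, `S = R / h` the stalk of the structure sheaf, `M` the stalk of
a coherent module, `M₀ = M / h`.
-/

set_option autoImplicit false

universe v w w' u

namespace Pool.Agent.DQ

open Matrix MulOpposite

/-- `M` is, by the map `ε v ↦ v V`, the cohomology at `R^{g (d+1)}` of the row complex `C` -/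
structure HdPres {R : Type v} [Ring R] {M : Type w} [AddCommGroup M] [Module R M] (d : ℕ)
    (g : ℕ → ℕ) (C : ∀ k, Matrix (Fin (g k)) (Fin (g (k + 1))) R) {a : ℕ}
    (ε : (Fin a → R) →ₗ[R] M) (V : Matrix (Fin a) (Fin (g (d + 1))) R) : Prop where
  surj : Function.Surjective ε
  cyc : V * C (d + 1) = 0
  ker : ∀ v, ε v = 0 ↔ ∃ t, v ᵥ* V = t ᵥ* C d
  onto : ∀ u, u ᵥ* C (d + 1) = 0 → ∃ v t, v ᵥ* V + t ᵥ* C d = u

section

variable {R : Type v} {S : Type u} [Ring R] [CommRing S] {h : R} {π : R →+* S}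
variable {M : Type w} {M₀ : Type w'} [AddCommGroup M] [Module R M] [AddCommGroup M₀] [Module S M₀]
  {ρ : M → M₀}
variable {d : ℕ} {n : ℕ → ℕ} {B : ∀ k, Matrix (Fin (n (k + 1))) (Fin (n k)) R}
  {ε : (Fin (n 1) → R) →ₗ[R] M}
  {g : ℕ → ℕ} {C : ∀ k, Matrix (Fin (g k)) (Fin (g (k + 1))) R}

omit [Ring R] in
theorem mul_eq_zero_of_mid {R : Type v} [Ring R] {a b c : ℕ} (hb : b = 0)
    (X : Matrix (Fin a) (Fin b) R) (Y : Matrix (Fin b) (Fin c) R) : X * Y = 0 := by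
  subst hb
  ext i j
  simp [Matrix.mul_apply]

/-- `BidualBij` in the form of `HdPres` -/
theorem BidualBij.hdPres (hbi : BidualBij R M d) (hres : IsRes n B ε)
    (W : ∀ j k, j + k = d + 2 → Matrix (Fin (n j)) (Fin (g k)) R)
    (hE : IsResExt d n B g C (W (d + 1) 1 (by omega)))
    (hW : ∀ j k (h : j + k = d + 1),
      W (j + 1) k (by omega) * C k = B j * W j (k + 1) (by omega)) :
    HdPres d g C ε (W 1 (d + 1) (by omega)) := by
  obtain ⟨h1, h2⟩ := hbi n B ε hres g C W hE hW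
  refine ⟨hres.surj, ?_, fun v => ⟨fun hv => ?_, h1 v⟩, h2⟩
  · have := hW 0 (d + 1) (by omega)
    rw [mul_eq_zero_of_mid hres.zero] at this
    exact this
  · obtain ⟨u, rfl⟩ := (hres.ker v).1 hv
    refine ⟨u ᵥ* W 2 d (by omega), ?_⟩
    rw [Matrix.vecMul_vecMul, ← hW 1 d (by omega), Matrix.vecMul_vecMul]

/-- purity of the reduction of a module which is the cohomology at the place `d` of the dual
complex of a resolution `C` (modulo `h`) of a module of grade `≥ d` -/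
theorem HdPres.pure {a : ℕ} {ε : (Fin a → R) →ₗ[R] M} {V : Matrix (Fin a) (Fin (g (d + 1))) R}
    (hM : HdPres d g C ε V) (H : HRed h π) (hP : PureExt S) (hρ : HRedMod h π ρ)
    (hC : ∀ k, C k * C (k + 1) = 0)
    (hR : RowRes g (cT π C)) (hcol : ∀ j < d, ColEx (cT π C) j) (I : Ideal S)
    (hI : ∀ i ≤ d, ExtZero S (S ⧸ I) i) (m₀ : M₀) (hm : ∀ a ∈ I, a • m₀ = 0) : m₀ = 0 := by
  obtain ⟨m, rfl⟩ := hρ.surj m₀
  obtain ⟨v, rfl⟩ := hM.surj m
  obtain ⟨s, hs⟩ := hP g (cT π C) hR d hcol I hI (fun i => π ((v ᵥ* V) i)) (fun a ha => by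
    have h1 := hm a ha
    obtain ⟨a, rfl⟩ := H.surj a
    rw [← hρ.smul, hρ.ker] at h1
    obtain ⟨m', hm'⟩ := h1
    obtain ⟨v', rfl⟩ := hM.surj m'
    rw [← map_smul, ← map_smul, ← sub_eq_zero, ← map_sub] at hm'
    obtain ⟨t, ht⟩ := (hM.ker _).1 hm'
    refine ⟨fun i => π (t i), ?_⟩
    unfold cT
    rw [Matrix.mulVec_transpose, ← map_vecMul, ← ht]
    ext i
    simp [Matrix.sub_vecMul, H.smul_vecMul, H.map_h, Matrix.smul_vecMul])
  obtain ⟨s, rfl⟩ := H.lift_vec s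
  unfold cT at hs
  rw [Matrix.mulVec_transpose, ← map_vecMul] at hs
  obtain ⟨u', hu'⟩ := H.vec_ker (v ᵥ* V - s ᵥ* C d) (by rw [map_sub_fun, hs, sub_self])
  have h2 : u' ᵥ* C (d + 1) = 0 := by
    refine H.smul_inj _ ?_
    rw [← H.smul_vecMul, ← hu', Matrix.sub_vecMul, Matrix.vecMul_vecMul, hM.cyc,
      Matrix.vecMul_vecMul, hC, Matrix.vecMul_zero, Matrix.vecMul_zero, sub_zero]
  obtain ⟨v', t', hvt⟩ := hM.onto u' h2
  rw [hρ.ker]
  refine ⟨ε v', ?_⟩
  rw [← map_smul, ← sub_eq_zero, ← map_sub, hM.ker]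
  refine ⟨s + h • t', ?_⟩
  have e : v ᵥ* V = s ᵥ* C d + h • u' := by rw [← hu']; abel
  rw [Matrix.sub_vecMul, e, H.smul_vecMul, Matrix.add_vecMul, H.smul_vecMul, ← hvt, smul_add]
  abel

/-! ### The exported theorems for a `d`-reflexive stalk -/

variable (H : HRed h π) [IsNoetherianRing R] [IsNoetherianRing Rᵐᵒᵖ] [IsNoetherianRing S]
  (hA : GradeAnn S) (hP : PureExt S)

include H hA hP

omit [IsNoetherianRing R] in
/-- (P0) for the dual complex of a resolution -/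
theorem colEx_red (hres : IsRes n B ε) (tf : ∀ m : M, h • m = 0 → m = 0)
    (hext : ∀ j < d, ExtZero R M j) (j : ℕ) (hj : j < d) : ColEx (fun k => (B k).map π) j := by
  refine H.P0 hA hP hres.zero hres.mul_eq_zero (H.rowRes hres tf) d (fun i hi w hw => ?_) j hj
  obtain ⟨u, hu⟩ := hext i hi n B ε hres w hw
  exact ⟨0, u, by rw [pow_zero, one_smul, hu]⟩

/-- `Ext^j(M₀, S) = 0` for `j < d` -/
theorem extZero_red [Module.Finite R M] (tf : ∀ m : M, h • m = 0 → m = 0)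
    (hext : ∀ j < d, ExtZero R M j) (hρ : HRedMod h π ρ) (j : ℕ) (hj : j < d) :
    ExtZero S M₀ j := by
  obtain ⟨n, B, ε, hres⟩ := exists_isRes R M
  obtain ⟨ε₀, hε₀⟩ := hρ.exists_eps ε
  exact ExtZero.of_res (H.isRes hres tf hρ ε₀ hε₀) j (colEx_red H hA hP hres tf hext j hj)

omit [IsNoetherianRing R] in
theorem tf_ext (hres : IsRes n B ε) (tf : ∀ m : M, h • m = 0 → m = 0)
    (hext : ∀ j < d, ExtZero R M j) (w : Fin (n (d + 1)) → R) (t : Fin (n d) → R)
    (ht : h • w = B d *ᵥ t) : ∃ t', w = B d *ᵥ t' :=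
  H.tf_step hres.zero hres.mul_eq_zero d
    (fun i hi => colEx_red H hA hP hres tf hext i (by omega)) w t ht

/-- the dual of the resolution `C` of `Ext^d(M, R)` is exact at the places `< d` -/
theorem dual_rows_exact (hres : IsRes n B ε) (tf : ∀ m : M, h • m = 0 → m = 0)
    (hext : ∀ j < d, ExtZero R M j) {W1 : Matrix (Fin (n (d + 1))) (Fin (g 1)) R}
    (hE : IsResExt d n B g C W1) (j : ℕ) (hj : j < d) (v : Fin (g (j + 1)) → R)
    (hv : v ᵥ* C (j + 1) = 0) : ∃ u, u ᵥ* C j = v :=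
  H.rows_exact hA hres.mul_eq_zero (H.rowRes hres tf) hE (tf_ext H hA hP hres tf hext) j hj v hv

/-- purity: no nonzero element of `M₀` is killed by an ideal `I` of grade `> d` -/
theorem pure_red [Module.Finite R M] (tf : ∀ m : M, h • m = 0 → m = 0)
    (hext : ∀ j < d, ExtZero R M j) (hbi : BidualBij R M d) (hρ : HRedMod h π ρ) (I : Ideal S)
    (hI : ∀ i ≤ d, ExtZero S (S ⧸ I) i) (m₀ : M₀) (hm : ∀ a ∈ I, a • m₀ = 0) : m₀ = 0 := by
  obtain ⟨n, B, ε, hres⟩ := exists_isRes R M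
  obtain ⟨g, C, W1, hE⟩ := exists_isResExt d n B
  obtain ⟨W, hW1, hW⟩ := exists_W hE fun j hj w hw => hext j hj n B ε hres w hw
  have hE' : IsResExt d n B g C (W (d + 1) 1 (by omega)) := by rw [hW1]; exact hE
  have htf := tf_ext H hA hP hres tf hext
  exact (hbi.hdPres hres W hE' hW).pure H hP hρ hE.mul_eq_zero (H.rowRes_cT hE htf)
    (H.colEx_cT hA hres.mul_eq_zero (H.rowRes hres tf) hE htf) I hI m₀ hm

end

end Pool.Agent.DQ
end

section

/-!
# DQ, module HA1, part j: independence of the bidual map of the choices.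
-/

set_option autoImplicit false

universe v w w' u

namespace Pool.Agent.DQ

open Matrix MulOpposite

/-- the data in the definition of `BidualBij` -/
structure BiDat {R : Type v} [Ring R] {M : Type w} [AddCommGroup M] [Module R M] (d : ℕ)
    (n : ℕ → ℕ) (B : ∀ k, Matrix (Fin (n (k + 1))) (Fin (n k)) R) (ε : (Fin (n 1) → R) →ₗ[R] M)
    (g : ℕ → ℕ) (C : ∀ k, Matrix (Fin (g k)) (Fin (g (k + 1))) R)
    (W : ∀ j k, j + k = d + 2 → Matrix (Fin (n j)) (Fin (g k)) R) : Prop where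
  res : IsRes n B ε
  rext : IsResExt d n B g C (W (d + 1) 1 (by omega))
  rel : ∀ j k (h : j + k = d + 1),
    W (j + 1) k (by omega) * C k = B j * W j (k + 1) (by omega)

section

variable {R : Type v} [Ring R] {M : Type w} [AddCommGroup M] [Module R M] {d : ℕ}
  {n : ℕ → ℕ} {B : ∀ k, Matrix (Fin (n (k + 1))) (Fin (n k)) R} {ε : (Fin (n 1) → R) →ₗ[R] M}
  {g : ℕ → ℕ} {C : ∀ k, Matrix (Fin (g k)) (Fin (g (k + 1))) R}
  {W : ∀ j k, j + k = d + 2 → Matrix (Fin (n j)) (Fin (g k)) R}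
  {n' : ℕ → ℕ} {B' : ∀ k, Matrix (Fin (n' (k + 1))) (Fin (n' k)) R}
  {ε' : (Fin (n' 1) → R) →ₗ[R] M}
  {g' : ℕ → ℕ} {C' : ∀ k, Matrix (Fin (g' k)) (Fin (g' (k + 1))) R}
  {W' : ∀ j k, j + k = d + 2 → Matrix (Fin (n' j)) (Fin (g' k)) R}

/-- recursive choice of the comparison of right resolutions -/
noncomputable def gRec (g g' : ℕ → ℕ) (C : ∀ k, Matrix (Fin (g k)) (Fin (g (k + 1))) R)
    (C' : ∀ k, Matrix (Fin (g' k)) (Fin (g' (k + 1))) R)
    (G1 : Matrix (Fin (g 1)) (Fin (g' 1)) R) : ∀ k, Matrix (Fin (g k)) (Fin (g' k)) R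
  | 0 => 0
  | 1 => G1
  | (k + 2) => Classical.epsilon fun X => C (k + 1) * X = gRec g g' C C' G1 (k + 1) * C' (k + 1)

/-- two choices of the data are homotopic -/
theorem BiDat.compare (D : BiDat d n B ε g C W) (D' : BiDat d n' B' ε' g' C' W')
    (hex' : ∀ j < d, ColEx B' j) :
    ∃ (F : Matrix (Fin (n' 1)) (Fin (n 1)) R) (G : ∀ k, Matrix (Fin (g k)) (Fin (g' k)) R)
      (T : Matrix (Fin (n' 1)) (Fin (g' d)) R),
      (∀ v, ε (v ᵥ* F) = ε' v) ∧ (∀ k, C k * G (k + 1) = G k * C' k) ∧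
      W' 1 (d + 1) (by omega) = F * W 1 (d + 1) (by omega) * G (d + 1) + T * C' d := by
  obtain ⟨F, hF1, hF⟩ := exists_chain_lift D'.res D.res (LinearMap.id : M →ₗ[R] M)
  obtain ⟨E, hE1, hE⟩ := exists_chain_lift D.res D'.res (LinearMap.id : M →ₗ[R] M)
  -- homotopies
  obtain ⟨S', hS'⟩ := exists_homotopy D'.res D'.res (fun k => F k * E k - 1) (by
    intro v
    rw [Matrix.vecMul_sub, map_sub, ← Matrix.vecMul_vecMul, hE1, LinearMap.id_apply, hF1,
      LinearMap.id_apply, Matrix.vecMul_one, sub_self]) (by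
    intro k
    rw [Matrix.mul_sub, Matrix.sub_mul, ← Matrix.mul_assoc, hF, Matrix.mul_assoc, hE,
      Matrix.mul_one, Matrix.one_mul, Matrix.mul_assoc])
  obtain ⟨S, hS⟩ := exists_homotopy D.res D.res (fun k => E k * F k - 1) (by
    intro v
    rw [Matrix.vecMul_sub, map_sub, ← Matrix.vecMul_vecMul, hF1, LinearMap.id_apply, hE1,
      LinearMap.id_apply, Matrix.vecMul_one, sub_self]) (by
    intro k
    rw [Matrix.mul_sub, Matrix.sub_mul, ← Matrix.mul_assoc, hE, Matrix.mul_assoc, hF,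
      Matrix.mul_one, Matrix.one_mul, Matrix.mul_assoc])
  -- `F_*` is surjective on `H^d`
  have hsurj : ∀ w, B' (d + 1) *ᵥ w = 0 → ∃ u t,
      (F (d + 1) * W (d + 1) 1 (by omega)) *ᵥ u + B' d *ᵥ t = w := by
    intro w hw
    have h1 : B (d + 1) *ᵥ (E (d + 1) *ᵥ w) = 0 := by
      rw [Matrix.mulVec_mulVec, hE, ← Matrix.mulVec_mulVec, hw, Matrix.mulVec_zero]
    obtain ⟨u, t, hut⟩ := D.rext.surj _ h1
    refine ⟨u, F d *ᵥ t - S' d *ᵥ w, ?_⟩
    have e2 := congrArg (fun X => X *ᵥ w) (hS' d)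
    simp only [Matrix.sub_mulVec, Matrix.one_mulVec, Matrix.add_mulVec, ← Matrix.mulVec_mulVec,
      hw, Matrix.mulVec_zero, zero_add] at e2
    rw [Matrix.mulVec_sub, Matrix.mulVec_mulVec, hF, ← e2, ← hut, Matrix.mulVec_add,
      ← Matrix.mulVec_mulVec, ← Matrix.mulVec_mulVec]
    abel
  -- `F_*` is injective on `H^d`
  have hinj : ∀ w, B (d + 1) *ᵥ w = 0 → (∃ t, F (d + 1) *ᵥ w = B' d *ᵥ t) →
      ∃ t, w = B d *ᵥ t := by
    rintro w hw ⟨t, ht⟩
    refine ⟨E d *ᵥ t - S d *ᵥ w, ?_⟩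
    have e2 := congrArg (fun X => X *ᵥ w) (hS d)
    simp only [Matrix.sub_mulVec, Matrix.one_mulVec, Matrix.add_mulVec, ← Matrix.mulVec_mulVec,
      hw, Matrix.mulVec_zero, zero_add] at e2
    rw [Matrix.mulVec_sub, ← e2, ht, Matrix.mulVec_mulVec, Matrix.mulVec_mulVec, hE]
    abel
  obtain ⟨G1, X, hG1⟩ := exists_col_lift₂ (W' (d + 1) 1 (by omega))
    (F (d + 1) * W (d + 1) 1 (by omega)) (B' d) (fun v => hsurj _ (by
      rw [Matrix.mulVec_mulVec, D'.rext.cocycle, Matrix.zero_mulVec]))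
  set G : ∀ k, Matrix (Fin (g k)) (Fin (g' k)) R := gRec g g' C C' G1 with hGdef
  have hG : ∀ k, C k * G (k + 1) = G k * C' k := by
    intro k
    induction k with
    | zero => exact mat_eq_of_zero_left D.rext.zero _ _
    | succ k ih =>
      have key : ∃ X, C (k + 1) * X = G (k + 1) * C' (k + 1) := by
        rcases Nat.eq_zero_or_pos k with rfl | hk
        · refine exists_col_lift _ (C 1) fun v => ?_
          change ∃ u, C 1 *ᵥ u = (G1 * C' 1) *ᵥ v
          obtain ⟨t, ht⟩ := (D'.rext.ker _).2 ⟨v, rfl⟩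
          obtain ⟨s, hs⟩ := hinj (W (d + 1) 1 (by omega) *ᵥ ((G1 * C' 1) *ᵥ v))
            (by rw [Matrix.mulVec_mulVec, D.rext.cocycle, Matrix.zero_mulVec])
            ⟨t - X *ᵥ (C' 1 *ᵥ v), by
              have e : F (d + 1) * W (d + 1) 1 (by omega) * G1 =
                  W' (d + 1) 1 (by omega) - B' d * X := by rw [← hG1]; abel
              rw [Matrix.mulVec_mulVec, Matrix.mulVec_mulVec, ← Matrix.mul_assoc, e,
                Matrix.sub_mul, Matrix.sub_mulVec, ← Matrix.mulVec_mulVec, ht, Matrix.mulVec_sub,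
                ← Matrix.mulVec_mulVec, ← Matrix.mulVec_mulVec]⟩
          exact (D.rext.ker _).1 ⟨s, hs⟩
        · refine D.rext.exists_factor hk _ ?_
          rw [← Matrix.mul_assoc, ih, Matrix.mul_assoc, D'.rext.mul_eq_zero, Matrix.mul_zero]
      exact Classical.epsilon_spec key
  -- the homotopy between `W'` and `F W G`
  have hT : ∀ l i (h : i + l = d), ∃ (T : Matrix (Fin (n' i)) (Fin (g' (l + 1))) R)
      (T' : Matrix (Fin (n' (i + 1))) (Fin (g' l)) R),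
      W' (i + 1) (l + 1) (by omega) - F (i + 1) * W (i + 1) (l + 1) (by omega) * G (l + 1) =
        B' i * T + T' * C' l := by
    intro l
    induction l with
    | zero =>
      intro i hi
      obtain rfl : i = d := by omega
      refine ⟨X, 0, ?_⟩
      rw [Matrix.zero_mul, add_zero]
      change W' (i + 1) 1 _ - F (i + 1) * W (i + 1) 1 _ * G1 = B' i * X
      rw [← hG1]; abel
    | succ l ih =>
      intro i hi
      obtain ⟨T, T', hTT⟩ := ih (i + 1) (by omega)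
      have e : B' (i + 1) * (W' (i + 1) (l + 2) (by omega)
          - F (i + 1) * W (i + 1) (l + 2) (by omega) * G (l + 2) - T * C' (l + 1)) = 0 := by
        have e1 := D'.rel (i + 1) (l + 1) (by omega)
        have e2 := D.rel (i + 1) (l + 1) (by omega)
        have e3 := hF (i + 1)
        have e4 := hG (l + 1)
        calc B' (i + 1) * (W' (i + 1) (l + 2) (by omega)
                - F (i + 1) * W (i + 1) (l + 2) (by omega) * G (l + 2) - T * C' (l + 1))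
            = B' (i + 1) * W' (i + 1) (l + 2) (by omega)
                - (B' (i + 1) * F (i + 1)) * W (i + 1) (l + 2) (by omega) * G (l + 2)
                - B' (i + 1) * T * C' (l + 1) := by
              simp only [Matrix.mul_sub, Matrix.mul_assoc]
          _ = W' (i + 2) (l + 1) (by omega) * C' (l + 1)
                - F (i + 2) * (W (i + 2) (l + 1) (by omega) * C (l + 1)) * G (l + 2)
                - B' (i + 1) * T * C' (l + 1) := by
              rw [← e1, e3, e2]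
              simp only [Matrix.mul_assoc]
          _ = (W' (i + 2) (l + 1) (by omega)
                - F (i + 2) * W (i + 2) (l + 1) (by omega) * G (l + 1)) * C' (l + 1)
                - B' (i + 1) * T * C' (l + 1) := by
              rw [Matrix.sub_mul]
              simp only [Matrix.mul_assoc]
              rw [e4]
          _ = 0 := by
              rw [hTT, Matrix.add_mul, Matrix.mul_assoc T', D'.rext.mul_eq_zero, Matrix.mul_zero]
              abel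
      obtain ⟨Y, hY⟩ := exists_col_lift (W' (i + 1) (l + 2) (by omega)
          - F (i + 1) * W (i + 1) (l + 2) (by omega) * G (l + 2) - T * C' (l + 1)) (B' i)
        (fun v => hex' i (by omega) _ (by rw [Matrix.mulVec_mulVec, e, Matrix.zero_mulVec]))
      refine ⟨Y, T, ?_⟩
      rw [hY]; abel
  obtain ⟨T, T', hTT⟩ := hT d 0 (by omega)
  refine ⟨F 1, G, T', hF1, hG, ?_⟩
  have e0 : B' 0 * T = 0 := mul_eq_zero_of_mid D'.res.zero _ _
  rw [e0] at hTT
  replace hTT := hTT.trans (zero_add _)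
  change W' 1 (d + 1) _ - F 1 * W 1 (d + 1) _ * G (d + 1) = T' * C' d at hTT
  exact (sub_eq_iff_eq_add'.1 hTT)

/-- `m'` becomes divisible by `h ^ k` in the double dual, with the choices `n, B, …` -/
def DivBy (h : R) (C : ∀ k, Matrix (Fin (g k)) (Fin (g (k + 1))) R) (ε : (Fin (n 1) → R) →ₗ[R] M)
    (W : ∀ j k, j + k = d + 2 → Matrix (Fin (n j)) (Fin (g k)) R) (m : M) (k : ℕ) : Prop :=
  ∃ (v : Fin (n 1) → R) (u : Fin (g (d + 1)) → R) (t : Fin (g d) → R), ε v = m ∧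
    u ᵥ* C (d + 1) = 0 ∧ v ᵥ* W 1 (d + 1) (by omega) = h ^ k • u + t ᵥ* C d

/-- independence of `DivBy` of the choices -/
theorem BiDat.divBy (D : BiDat d n B ε g C W) (D' : BiDat d n' B' ε' g' C' W')
    (hex' : ∀ j < d, ColEx B' j) {h : R} {m : M} {k : ℕ} (hm : DivBy h C ε W m k) :
    DivBy h C' ε' W' m k := by
  obtain ⟨v, u, t, hv, hu, hvu⟩ := hm
  obtain ⟨F, G, T, hF, hG, hW⟩ := D.compare D' hex'
  obtain ⟨v', rfl⟩ := D'.res.surj m
  -- `v' F - v ∈ ker ε = im B_1`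
  obtain ⟨z, hz⟩ := (D.res.ker (v' ᵥ* F - v)).1 (by rw [map_sub, hF, hv, sub_self])
  have e1 : v' ᵥ* F = v + z ᵥ* B 1 := by rw [hz]; abel
  have e2 : (z ᵥ* B 1) ᵥ* W 1 (d + 1) (by omega) = (z ᵥ* W 2 d (by omega)) ᵥ* C d := by
    rw [Matrix.vecMul_vecMul, ← D.rel 1 d (by omega), Matrix.vecMul_vecMul]
  refine ⟨v', u ᵥ* G (d + 1), t ᵥ* G d + (z ᵥ* W 2 d (by omega)) ᵥ* G d + v' ᵥ* T, rfl, ?_, ?_⟩
  · rw [Matrix.vecMul_vecMul, ← hG, ← Matrix.vecMul_vecMul, hu, Matrix.zero_vecMul]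
  · rw [hW, Matrix.vecMul_add, ← Matrix.vecMul_vecMul, ← Matrix.vecMul_vecMul,
      ← Matrix.vecMul_vecMul, e1, Matrix.add_vecMul, e2, hvu]
    have e3 : ∀ s : Fin (g d) → R, (s ᵥ* C d) ᵥ* G (d + 1) = (s ᵥ* G d) ᵥ* C' d := fun s => by
      rw [Matrix.vecMul_vecMul, hG, ← Matrix.vecMul_vecMul]
    simp only [Matrix.add_vecMul, e3, Matrix.smul_vecMul]
    abel

end

end Pool.Agent.DQ
end

section

/-! # DQ, module G, task GC5: compact analytic sets are finite (induction on the dimension) -/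

set_option autoImplicit false

open Set Filter Topology Module

universe u v

namespace Pool.Agent.DQ

/-- `AnalyticNear` is invariant under linear isomorphisms.

Proof. Let `y = e x ∈ e '' X`, `x ∈ X`; `f j` the functions at `x`; take `f j ∘ e.symm` (`HolAt.comp`, `e.symm` is differentiable and continuous, `e.symm (e x) = x`);
`z ∈ e '' X ↔ e.symm z ∈ X`. -/
theorem AnalyticNear.image {E : Type u} [NormedAddCommGroup E] [NormedSpace ℂ E] {F : Type v}
    [NormedAddCommGroup F] [NormedSpace ℂ F] (e : E ≃L[ℂ] F) {X : Set E} (h : AnalyticNear X univ) :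
    AnalyticNear (e '' X) univ := by
  rintro _ ⟨⟨x, hx, rfl⟩, -⟩
  obtain ⟨m, f, hf, hev⟩ := h x ⟨hx, trivial⟩
  refine ⟨m, fun j z => f j (e.symm z), fun j => ?_, ?_⟩
  · refine HolAt.comp (g := fun z => e.symm z) ?_ (Eventually.of_forall fun y =>
      e.symm.differentiableAt)
    rw [e.symm_apply_apply]
    exact hf j
  · have h1 : Tendsto e.symm (𝓝 (e x)) (𝓝 x) := by
      have h2 := e.symm.continuous.tendsto (e x)
      rwa [e.symm_apply_apply] at h2
    filter_upwards [h1.eventually hev] with z hz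
    rw [← hz]
    constructor
    · rintro ⟨w, hw, rfl⟩
      rw [e.symm_apply_apply]
      exact hw
    · intro hw
      exact ⟨e.symm z, hw, e.apply_symm_apply z⟩

/-- Induction on `n`.

Proof. `n = 0`: `Fin 0 → ℂ` has one element, every subset is finite. Step: let `X ⊆ Fin (n+1) → ℂ`. Choose a linear isomorphism
`e : (Fin (n+1) → ℂ) ≃L[ℂ] (Fin n → ℂ) × ℂ` (equality of dimensions, `ContinuousLinearEquiv.ofFinrankEq`, or `Fin.consEquivL`-like maps). `X' = e '' X` is compact and analytic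
(`AnalyticNear.image`). Its projection `Prod.fst '' X'` is compact and analytic (`analyticNear_fst`), so finite by induction; the fibres are finite (`fiber_finite`); so `X'` is
finite (`X' ⊆ ⋃ t ∈ Prod.fst '' X', {t} ×ˢ {v | (t, v) ∈ X'}`), and `X` is finite (`Set.Finite.of_finite_image`, `e` injective). -/
theorem compact_analytic_finite_pi (n : ℕ) (X : Set (Fin n → ℂ)) (hX : IsCompact X) (h : AnalyticNear X univ) :
    X.Finite := by
  induction n with
  | zero => exact Set.toFinite X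
  | succ n ih =>
    let e : (Fin (n + 1) → ℂ) ≃L[ℂ] (Fin n → ℂ) × ℂ := ContinuousLinearEquiv.ofFinrankEq (by simp)
    have hX' : IsCompact (e '' X) := hX.image e.continuous
    have h' : AnalyticNear (e '' X) univ := h.image e
    have h1 : (Prod.fst '' (e '' X)).Finite :=
      ih _ (hX'.image continuous_fst) (analyticNear_fst (e '' X) hX' h')
    have h2 : (e '' X).Finite := by
      refine (h1.biUnion fun t _ => (fiber_finite (e '' X) hX' h' t).image fun v => (t, v)).subset ?_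
      rintro ⟨t, v⟩ hx
      exact mem_iUnion₂.mpr ⟨t, ⟨(t, v), hx, rfl⟩, v, hx, rfl⟩
    exact h2.of_finite_image e.injective.injOn

/-- compact analytic subsets of `ℂ^k` are finite

Proof. `V ≃L[ℂ] (Fin (finrank ℂ V) → ℂ)` (`ContinuousLinearEquiv.ofFinrankEq`), `AnalyticNear.image`, `compact_analytic_finite_pi`. -/
theorem compact_analytic_finite_proof {V : Type u} [NormedAddCommGroup V] [NormedSpace ℂ V] [FiniteDimensional ℂ V]
    (X : Set V) (hX : IsCompact X) (h : AnalyticNear X univ) : X.Finite := by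
  let e : V ≃L[ℂ] (Fin (finrank ℂ V) → ℂ) := ContinuousLinearEquiv.ofFinrankEq (by simp)
  exact (compact_analytic_finite_pi _ (e '' X) (hX.image e.continuous) (h.image e)).of_finite_image
    e.injective.injOn

end Pool.Agent.DQ
end

section

/-! # DQ, module G, task GZ5: the closed shell in `ℂ²`: connectedness, choice of radii -/

set_option autoImplicit false

open Set Filter Topology Module

namespace Pool.Agent.DQ

/-- the closed product of a closed ball in `t` and the closed shell in `(w, z)` -/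
def Shl {k : ℕ} (b₀ : Bs k) (τ rw Rw rz Rz : ℝ) : Set (Bs k) :=
  {b | ‖b.1 - b₀.1‖ ≤ τ ∧ ‖b.2.1 - b₀.2.1‖ ≤ Rw ∧ ‖b.2.2 - b₀.2.2‖ ≤ Rz ∧
    (rw ≤ ‖b.2.1 - b₀.2.1‖ ∨ rz ≤ ‖b.2.2 - b₀.2.2‖)}

/-- A closed annulus is preconnected.

Proof. It is the image of the preconnected set `Icc r R ×ˢ univ` (`ℝ × ℝ`) under the continuous map `(s, θ) ↦ c + s * exp (θ * I)` (polar coordinates, `Complex.norm_mul_exp_arg_mul_I`). -/
theorem isPreconnected_annulus (c : ℂ) {r R : ℝ} (hr : 0 < r) : IsPreconnected {z : ℂ | r ≤ ‖z - c‖ ∧ ‖z - c‖ ≤ R} := by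
  have h1 : IsPreconnected (Icc r R ×ˢ (univ : Set ℝ)) :=
    isPreconnected_Icc.prod isPreconnected_univ
  have hc : Continuous (fun p : ℝ × ℝ => c + (p.1 : ℂ) * Complex.exp (p.2 * Complex.I)) := by
    fun_prop
  have h2 := h1.image _ hc.continuousOn
  have h3 : (fun p : ℝ × ℝ => c + (p.1 : ℂ) * Complex.exp (p.2 * Complex.I)) ''
      (Icc r R ×ˢ (univ : Set ℝ)) = {z : ℂ | r ≤ ‖z - c‖ ∧ ‖z - c‖ ≤ R} := by
    ext z
    constructor
    · rintro ⟨⟨s, θ⟩, ⟨hs, _⟩, rfl⟩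
      have hs0 : 0 ≤ s := hr.le.trans hs.1
      have h4 : ‖c + (s : ℂ) * Complex.exp (θ * Complex.I) - c‖ = s := by
        rw [add_sub_cancel_left, norm_mul, Complex.norm_exp_ofReal_mul_I, mul_one,
          Complex.norm_real, Real.norm_of_nonneg hs0]
      exact ⟨by rw [h4]; exact hs.1, by rw [h4]; exact hs.2⟩
    · rintro ⟨h4, h5⟩
      refine ⟨(‖z - c‖, Complex.arg (z - c)), ⟨⟨h4, h5⟩, mem_univ _⟩, ?_⟩
      simp only
      rw [Complex.norm_mul_exp_arg_mul_I]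
      ring
  rw [← h3]
  exact h2

/-- **The shell is preconnected.**

Proof. `Shl = T ×ˢ (A_w ×ˢ D_z) ∪ T ×ˢ (D_w ×ˢ A_z)`, with `T`, `D_w`, `D_z` closed balls (convex, preconnected), `A_w`, `A_z` closed annuli (`isPreconnected_annulus`). Products of preconnected sets are preconnected (`IsPreconnected.prod`); the two sets have a common point `(t₀, w₀ + Rw, z₀ + Rz)`: `IsPreconnected.union`. -/
theorem isPreconnected_shl {k : ℕ} (b₀ : Bs k) {τ rw Rw rz Rz : ℝ} (hτ : 0 < τ) (hrw : 0 < rw) (hRw : rw < Rw)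
    (hrz : 0 < rz) (hRz : rz < Rz) : IsPreconnected (Shl b₀ τ rw Rw rz Rz) := by
  have hball : ∀ {E : Type} [NormedAddCommGroup E] [NormedSpace ℂ E] (a : E) (R : ℝ),
      IsPreconnected {x : E | ‖x - a‖ ≤ R} := by
    intro E _ _ a R
    have : {x : E | ‖x - a‖ ≤ R} = Metric.closedBall a R := by
      ext x
      rw [Metric.mem_closedBall, dist_eq_norm]
      exact Iff.rfl
    rw [this]
    let _ : NormedSpace ℝ E := NormedSpace.restrictScalars ℝ ℂ E
    exact (convex_closedBall a R).isPreconnected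
  have h1 : IsPreconnected ({x : Fin k → ℂ | ‖x - b₀.1‖ ≤ τ} ×ˢ
      ({x : ℂ | rw ≤ ‖x - b₀.2.1‖ ∧ ‖x - b₀.2.1‖ ≤ Rw} ×ˢ {x : ℂ | ‖x - b₀.2.2‖ ≤ Rz})) :=
    (hball _ _).prod ((isPreconnected_annulus _ hrw).prod (hball _ _))
  have h2 : IsPreconnected ({x : Fin k → ℂ | ‖x - b₀.1‖ ≤ τ} ×ˢ
      ({x : ℂ | ‖x - b₀.2.1‖ ≤ Rw} ×ˢ {x : ℂ | rz ≤ ‖x - b₀.2.2‖ ∧ ‖x - b₀.2.2‖ ≤ Rz})) :=
    (hball _ _).prod ((hball _ _).prod (isPreconnected_annulus _ hrz))
  have e1 : ‖b₀.2.1 + (Rw : ℂ) - b₀.2.1‖ = Rw := by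
    rw [add_sub_cancel_left, Complex.norm_real, Real.norm_of_nonneg (by linarith)]
  have e2 : ‖b₀.2.2 + (Rz : ℂ) - b₀.2.2‖ = Rz := by
    rw [add_sub_cancel_left, Complex.norm_real, Real.norm_of_nonneg (by linarith)]
  have e3 : ‖b₀.1 - b₀.1‖ ≤ τ := by
    rw [sub_self, norm_zero]
    exact hτ.le
  have m1 : ((b₀.1, b₀.2.1 + (Rw : ℂ), b₀.2.2 + (Rz : ℂ)) : Bs k) ∈
      ({x : Fin k → ℂ | ‖x - b₀.1‖ ≤ τ} ×ˢ
      ({x : ℂ | rw ≤ ‖x - b₀.2.1‖ ∧ ‖x - b₀.2.1‖ ≤ Rw} ×ˢ {x : ℂ | ‖x - b₀.2.2‖ ≤ Rz})) :=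
    ⟨e3, ⟨⟨hRw.le.trans e1.ge, e1.le⟩, e2.le⟩⟩
  have m2 : ((b₀.1, b₀.2.1 + (Rw : ℂ), b₀.2.2 + (Rz : ℂ)) : Bs k) ∈
      ({x : Fin k → ℂ | ‖x - b₀.1‖ ≤ τ} ×ˢ
      ({x : ℂ | ‖x - b₀.2.1‖ ≤ Rw} ×ˢ {x : ℂ | rz ≤ ‖x - b₀.2.2‖ ∧ ‖x - b₀.2.2‖ ≤ Rz})) :=
    ⟨e3, ⟨e1.le, ⟨hRz.le.trans e2.ge, e2.le⟩⟩⟩
  have h3 := IsPreconnected.union _ m1 m2 h1 h2
  have h4 : Shl b₀ τ rw Rw rz Rz = ({x : Fin k → ℂ | ‖x - b₀.1‖ ≤ τ} ×ˢ
      ({x : ℂ | rw ≤ ‖x - b₀.2.1‖ ∧ ‖x - b₀.2.1‖ ≤ Rw} ×ˢ {x : ℂ | ‖x - b₀.2.2‖ ≤ Rz})) ∪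
      ({x : Fin k → ℂ | ‖x - b₀.1‖ ≤ τ} ×ˢ
      ({x : ℂ | ‖x - b₀.2.1‖ ≤ Rw} ×ˢ {x : ℂ | rz ≤ ‖x - b₀.2.2‖ ∧ ‖x - b₀.2.2‖ ≤ Rz})) := by
    ext b
    constructor
    · rintro ⟨g1, g2, g3, g4 | g4⟩
      · exact Or.inl ⟨g1, ⟨g4, g2⟩, g3⟩
      · exact Or.inr ⟨g1, g2, ⟨g4, g3⟩⟩
    · rintro (⟨g1, ⟨g4, g2⟩, g3⟩ | ⟨g1, g2, ⟨g4, g3⟩⟩)
      · exact ⟨g1, g2, g3, Or.inl g4⟩
      · exact ⟨g1, g2, g3, Or.inr g4⟩
  rw [h4]
  exact h3

/-- **Choice of the outer radii** such that the boundary of the bidisc avoids a countable set.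

Proof. The values `‖p.2.1 - b₀.2.1‖`, `p ∈ S`, form a countable set, so there is `Rw ∈ (0, ρ)` which is not a value (a countable set has dense complement in `ℝ`, `Set.Countable.dense_compl ℝ`); the same for `Rz`. -/
theorem exists_radii {k : ℕ} (b₀ : Bs k) {S : Set (Bs k)} (hS : S.Countable) {ρ : ℝ} (hρ : 0 < ρ) :
    ∃ Rw Rz : ℝ, 0 < Rw ∧ Rw < ρ ∧ 0 < Rz ∧ Rz < ρ ∧
      ∀ p ∈ S, ‖p.2.1 - b₀.2.1‖ ≠ Rw ∧ ‖p.2.2 - b₀.2.2‖ ≠ Rz := by
  obtain ⟨Rw, hw1, hw2, hw3⟩ := ((hS.image fun p => ‖p.2.1 - b₀.2.1‖).dense_compl ℝ).exists_between hρ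
  obtain ⟨Rz, hz1, hz2, hz3⟩ := ((hS.image fun p => ‖p.2.2 - b₀.2.2‖).dense_compl ℝ).exists_between hρ
  refine ⟨Rw, Rz, hw2, hw3, hz2, hz3, fun p hp => ⟨fun h => hw1 ⟨p, hp, h⟩, fun h => hz1 ⟨p, hp, h⟩⟩⟩

/-- **Thickening of the boundary of the bidisc.**

Proof. For `j : ℕ` large (`1/(j+1) < min Rw Rz`) let `K j = Shl b₀ (1/(j+1)) (Rw - 1/(j+1)) Rw (Rz - 1/(j+1)) Rz`, compact sets (closed and bounded in the proper space `Bs k`), decreasing in `j`, with intersection `{b | b.1 = b₀.1, ‖w‖ ≤ Rw, ‖z‖ ≤ Rz, ‖w‖ = Rw or ‖z‖ = Rz}` (here `‖w‖` means `‖b.2.1 - b₀.2.1‖` …): a point of the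
intersection satisfies `‖b.1 - b₀.1‖ ≤ 1/(j+1)` for all `j`, and for all `j` `Rw - 1/(j+1) ≤ ‖w‖` or `Rz - 1/(j+1) ≤ ‖z‖`, so one of the two alternatives holds for infinitely many `j`, hence for all, and in the limit `Rw ≤ ‖w‖` or `Rz ≤ ‖z‖`. The intersection is contained in the open set `G`, so some `K j ⊆ G`
(`exists_subset_nhds_of_isCompact'`, or by contradiction with a convergent subsequence of points `x j ∈ K j \ G`). -/
theorem exists_thick {k : ℕ} (b₀ : Bs k) {Rw Rz : ℝ} (hRw : 0 < Rw) (hRz : 0 < Rz) {G : Set (Bs k)} (hG : IsOpen G)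
    (h : ∀ b : Bs k, b.1 = b₀.1 → ‖b.2.1 - b₀.2.1‖ ≤ Rw → ‖b.2.2 - b₀.2.2‖ ≤ Rz →
      (‖b.2.1 - b₀.2.1‖ = Rw ∨ ‖b.2.2 - b₀.2.2‖ = Rz) → b ∈ G) {ρ : ℝ} (hρ : 0 < ρ) :
    ∃ τ rw rz : ℝ, 0 < τ ∧ τ < ρ ∧ 0 < rw ∧ rw < Rw ∧ 0 < rz ∧ rz < Rz ∧ Shl b₀ τ rw Rw rz Rz ⊆ G := by
  set K : ℕ → Set (Bs k) := fun j =>
    Shl b₀ (1 / ((j : ℝ) + 1)) (Rw - 1 / ((j : ℝ) + 1)) Rw (Rz - 1 / ((j : ℝ) + 1)) Rz with hK
  have hanti : ∀ i j : ℕ, i ≤ j → K j ⊆ K i := by
    intro i j hij b hb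
    obtain ⟨g1, g2, g3, g4⟩ := hb
    have h1 : 1 / ((j : ℝ) + 1) ≤ 1 / ((i : ℝ) + 1) := Nat.one_div_le_one_div hij
    refine ⟨g1.trans h1, g2, g3, ?_⟩
    rcases g4 with g4 | g4
    · exact Or.inl (by linarith)
    · exact Or.inr (by linarith)
  have hclosed : ∀ j, IsClosed (K j) := by
    intro j
    have c1 : Continuous fun b : Bs k => ‖b.1 - b₀.1‖ := by fun_prop
    have c2 : Continuous fun b : Bs k => ‖b.2.1 - b₀.2.1‖ := by fun_prop
    have c3 : Continuous fun b : Bs k => ‖b.2.2 - b₀.2.2‖ := by fun_prop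
    exact (isClosed_le c1 continuous_const).inter ((isClosed_le c2 continuous_const).inter
      ((isClosed_le c3 continuous_const).inter
        ((isClosed_le continuous_const c2).union (isClosed_le continuous_const c3))))
  have hcomp : ∀ j, IsCompact (K j) := by
    intro j
    refine Metric.isCompact_of_isClosed_isBounded (hclosed j) ?_
    refine (Metric.isBounded_closedBall (x := b₀) (r := 1 / ((j : ℝ) + 1) + Rw + Rz)).subset ?_
    rintro b ⟨g1, g2, g3, _⟩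
    have h0 : 0 < 1 / ((j : ℝ) + 1) := Nat.one_div_pos_of_nat
    rw [Metric.mem_closedBall, dist_eq_norm, Prod.norm_def, Prod.norm_def]
    refine max_le ?_ (max_le ?_ ?_)
    · exact g1.trans (by linarith)
    · exact g2.trans (by linarith)
    · exact g3.trans (by linarith)
  have hint : ∀ x ∈ ⋂ j, K j, G ∈ 𝓝 x := by
    intro x hx
    rw [mem_iInter] at hx
    refine hG.mem_nhds (h x ?_ (hx 0).2.1 (hx 0).2.2.1 ?_)
    · by_contra hne
      have h1 : 0 < ‖x.1 - b₀.1‖ := norm_pos_iff.2 (sub_ne_zero.2 hne)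
      obtain ⟨j, hj⟩ := exists_nat_one_div_lt h1
      exact absurd (hx j).1 (not_le.2 hj)
    · by_contra hne
      push Not at hne
      have h1 : ‖x.2.1 - b₀.2.1‖ < Rw := lt_of_le_of_ne (hx 0).2.1 hne.1
      have h2 : ‖x.2.2 - b₀.2.2‖ < Rz := lt_of_le_of_ne (hx 0).2.2.1 hne.2
      obtain ⟨j, hj⟩ := exists_nat_one_div_lt
        (lt_min (sub_pos.2 h1) (sub_pos.2 h2))
      have h3 := hj.trans_le (min_le_left _ _)
      have h4 := hj.trans_le (min_le_right _ _)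
      rcases (hx j).2.2.2 with g | g <;> linarith
  obtain ⟨j, hj⟩ := exists_subset_nhds_of_isCompact' (V := K)
    (fun i j => ⟨max i j, hanti _ _ (le_max_left _ _), hanti _ _ (le_max_right _ _)⟩)
    hcomp hclosed hint
  obtain ⟨i, hi⟩ := exists_nat_one_div_lt (lt_min hρ (lt_min hRw hRz))
  set m := max i j with hm
  have h1 : 1 / ((m : ℝ) + 1) ≤ 1 / ((i : ℝ) + 1) := Nat.one_div_le_one_div (le_max_left _ _)
  have h2 := h1.trans_lt hi
  have h3 := h2.trans_le (min_le_left _ _)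
  have h4 := (h2.trans_le (min_le_right _ _)).trans_le (min_le_left _ _)
  have h5 := (h2.trans_le (min_le_right _ _)).trans_le (min_le_right _ _)
  have h0 : 0 < 1 / ((m : ℝ) + 1) := Nat.one_div_pos_of_nat
  exact ⟨1 / ((m : ℝ) + 1), Rw - 1 / ((m : ℝ) + 1), Rz - 1 / ((m : ℝ) + 1), h0, h3, by linarith,
    by linarith, by linarith, by linarith, (hanti _ _ (le_max_right _ _)).trans hj⟩

end Pool.Agent.DQ
end
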