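import Mathlib
import Pool.Agent.Lib.MP_4aa2a9_ag.DQ.Alg

section

/-! # DQ: `Ext` up to torsion -/

set_option autoImplicit false

open Matrix

universe u v w

namespace Pool.Agent.DQ

/-- `Ext^j_R(M, R)` is killed by powers of the central element `h` (elementwise):
this is `Ext^j_{R[1/h]}(M[1/h], R[1/h]) = 0` -/
def ExtTor (R : Type v) [Ring R] (h : R) (M : Type w) [AddCommGroup M] [Module R M] (j : ℕ) :
    Prop :=
  ∀ (n : ℕ → ℕ) (B : ∀ k, Matrix (Fin (n (k + 1))) (Fin (n k)) R)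
    (ε : (Fin (n 1) → R) →ₗ[R] M), IsRes n B ε →
    ∀ w, B (j + 1) *ᵥ w = 0 → ∃ (m : ℕ) (u : Fin (n j) → R), B j *ᵥ u = h ^ m • w

end Pool.Agent.DQ
end

section

/-!
# `Ext` and inverting the parameter: algebra (campaign DQ, S)
-/

set_option autoImplicit false

open Matrix

universe v v' w w'

namespace Pool.Agent.DQ

/-- `R'` is the localisation of `R` at the powers of the central element `h` (`R` has no
`h`-torsion), via `l`. -/
structure IsLocH {R : Type v} [Ring R] {R' : Type v'} [Ring R'] (h : R) (l : R →+* R') :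
    Prop where
  comm : ∀ a : R, h * a = a * h
  inj : ∀ a : R, l a = 0 → a = 0
  comm' : ∀ a : R', l h * a = a * l h
  unit : ∃ u : R', l h * u = 1
  surj : ∀ a : R', ∃ (k : ℕ) (b : R), l h ^ k * a = l b

/-- `M` is the localisation of `N`, via `i` -/
structure IsLocHMod {R : Type v} [Ring R] {R' : Type v'} [Ring R'] (h : R) (l : R →+* R')
    {N : Type w} [AddCommGroup N] [Module R N] {M : Type w'} [AddCommGroup M] [Module R' M]
    (i : N →+ M) : Prop where
  smul : ∀ (a : R) (m : N), i (a • m) = l a • i m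
  inj : ∀ m : N, i m = 0 → m = 0
  surj : ∀ m : M, ∃ (k : ℕ) (m' : N), l h ^ k • m = i m'

section

variable {R : Type v} [Ring R] {R' : Type v'} [Ring R'] {h : R} {l : R →+* R'}

theorem IsLocH.pow_comm (H : IsLocH h l) (k : ℕ) (a : R') : l h ^ k * a = a * l h ^ k :=
  (Commute.pow_left (H.comm' a : Commute _ _) k)

theorem IsLocH.unit_pow (H : IsLocH h l) (k : ℕ) :
    ∃ u : R', l h ^ k * u = 1 ∧ u * l h ^ k = 1 := by
  obtain ⟨u, hu⟩ := H.unit
  have h1 : (l h) ^ k * u ^ k = 1 := by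
    have hc : Commute (l h) u := H.comm' u
    rw [← hc.mul_pow, hu, one_pow]
  exact ⟨u ^ k, h1, by rw [← H.pow_comm k, h1]⟩

/-- the parameter acts bijectively on modules over the localisation -/
theorem IsLocH.bijective (H : IsLocH h l) (M : Type w') [AddCommGroup M] [Module R' M] :
    Function.Bijective fun m : M => l h • m := by
  obtain ⟨u, hu, hu'⟩ := H.unit_pow 1
  rw [pow_one] at hu hu'
  constructor
  · intro m m' e
    have := congrArg (u • ·) e
    simpa [smul_smul, hu'] using this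
  · intro m
    exact ⟨u • m, by simp [smul_smul, hu]⟩

/-- a common denominator -/
theorem IsLocH.common (H : IsLocH h l) {p : ℕ} (a : Fin p → R') :
    ∃ (k : ℕ) (b : Fin p → R), ∀ i, l h ^ k * a i = l (b i) := by
  choose k b hb using fun i => H.surj (a i)
  refine ⟨∑ i, k i, fun i => h ^ (∑ j, k j - k i) * b i, fun i => ?_⟩
  have hle : k i ≤ ∑ j, k j := Finset.single_le_sum (fun _ _ => Nat.zero_le _) (Finset.mem_univ i)
  rw [map_mul, map_pow, ← hb i, ← mul_assoc, ← pow_add, Nat.sub_add_cancel hle]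

/-- `l` of a matrix -/
def lmap (l : R →+* R') {p q : ℕ} (B : Matrix (Fin p) (Fin q) R) : Matrix (Fin p) (Fin q) R' :=
  B.map l

/-- `l` of a vector -/
def lvec (l : R →+* R') {p : ℕ} (v : Fin p → R) : Fin p → R' := fun i => l (v i)

theorem lvec_mulVec {p q : ℕ} (B : Matrix (Fin p) (Fin q) R) (v : Fin q → R) :
    lmap l B *ᵥ lvec l v = lvec l (B *ᵥ v) := by
  funext i
  simp [lmap, lvec, mulVec, dotProduct, map_sum]

theorem lvec_vecMul {p q : ℕ} (B : Matrix (Fin p) (Fin q) R) (v : Fin p → R) :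
    lvec l v ᵥ* lmap l B = lvec l (v ᵥ* B) := by
  funext i
  simp [lmap, lvec, vecMul, dotProduct, map_sum]

theorem IsLocH.lvec_inj (H : IsLocH h l) {p : ℕ} {v w : Fin p → R} (e : lvec l v = lvec l w) :
    v = w := by
  funext i
  have := congrFun e i
  apply sub_eq_zero.1
  apply H.inj
  rw [map_sub]
  exact sub_eq_zero.2 this

theorem lvec_zero {p : ℕ} : lvec l (0 : Fin p → R) = 0 := by
  funext i
  simp [lvec]

theorem IsLocH.common' (H : IsLocH h l) {p : ℕ} (a : Fin p → R') :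
    ∃ (k : ℕ) (b : Fin p → R), l h ^ k • a = lvec l b := by
  obtain ⟨k, b, hb⟩ := H.common a
  exact ⟨k, b, funext fun i => hb i⟩

theorem IsLocH.smul_cancel (H : IsLocH h l) (k : ℕ) {p : ℕ} {a b : Fin p → R'}
    (e : l h ^ k • a = l h ^ k • b) : a = b := by
  obtain ⟨u, -, hu⟩ := H.unit_pow k
  have := congrArg (u • ·) e
  simpa [smul_smul, hu] using this

theorem IsLocH.mulVec_smul (H : IsLocH h l) (k : ℕ) {p q : ℕ} (B : Matrix (Fin p) (Fin q) R')
    (v : Fin q → R') : B *ᵥ (l h ^ k • v) = l h ^ k • (B *ᵥ v) := by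
  funext i
  simp only [mulVec, dotProduct, Pi.smul_apply, smul_eq_mul, Finset.mul_sum]
  refine Finset.sum_congr rfl fun j _ => ?_
  rw [← mul_assoc, ← H.pow_comm, mul_assoc]

theorem IsLocH.smul_vecMul' (_ : IsLocH h l) (k : ℕ) {p q : ℕ} (B : Matrix (Fin p) (Fin q) R')
    (v : Fin p → R') : (l h ^ k • v) ᵥ* B = l h ^ k • (v ᵥ* B) := by
  funext i
  simp only [vecMul, dotProduct, Pi.smul_apply, smul_eq_mul, Finset.mul_sum, mul_assoc]

variable {N : Type w} [AddCommGroup N] [Module R N] {M : Type w'} [AddCommGroup M] [Module R' M]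
  {i : N →+ M}

/-- the augmentation of the localised resolution -/
noncomputable def leps {p : ℕ} (i : N →+ M) (ε : (Fin p → R) →ₗ[R] N) : (Fin p → R') →ₗ[R'] M :=
  Fintype.linearCombination R' fun j => i (ε (Pi.single j 1))

theorem leps_lvec (Hi : IsLocHMod h l i) {p : ℕ} (ε : (Fin p → R) →ₗ[R] N) (v : Fin p → R) :
    leps i ε (lvec l v) = i (ε v) := by
  have h1 : v = ∑ j, v j • (Pi.single j 1 : Fin p → R) := by
    funext k
    simp [Finset.sum_apply, Pi.single_apply]
  have h2 : i (ε v) = ∑ j, l (v j) • i (ε (Pi.single j 1)) := by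
    conv_lhs => rw [h1]
    rw [map_sum, map_sum]
    exact Finset.sum_congr rfl fun j _ => by rw [map_smul, Hi.smul]
  rw [h2]
  simp [leps, Fintype.linearCombination_apply, lvec]

theorem IsRes.loc (H : IsLocH h l) (Hi : IsLocHMod h l i) {n : ℕ → ℕ}
    {B : ∀ k, Matrix (Fin (n (k + 1))) (Fin (n k)) R} {ε : (Fin (n 1) → R) →ₗ[R] N}
    (hB : IsRes n B ε) : IsRes n (fun k => lmap l (B k)) (leps (R' := R') i ε) where
  zero := hB.zero
  surj m := by
    obtain ⟨k, m', hm⟩ := Hi.surj m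
    obtain ⟨v, rfl⟩ := hB.surj m'
    obtain ⟨u, hu, hu'⟩ := H.unit_pow k
    refine ⟨u • lvec l v, ?_⟩
    rw [map_smul, leps_lvec Hi, ← hm, smul_smul, hu', one_smul]
  ker v := by
    constructor
    · intro hv
      obtain ⟨k, b, hb⟩ := H.common' v
      have h1 : i (ε b) = 0 := by
        rw [← leps_lvec Hi, ← hb, map_smul, hv, smul_zero]
      obtain ⟨u, hu⟩ := (hB.ker b).1 (Hi.inj _ h1)
      obtain ⟨t, ht, ht'⟩ := H.unit_pow k
      refine ⟨t • lvec l u, ?_⟩
      apply H.smul_cancel k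
      rw [← H.smul_vecMul', smul_smul, ht, one_smul, lvec_vecMul, hu, hb]
    · rintro ⟨u, rfl⟩
      obtain ⟨k, b, hb⟩ := H.common' u
      obtain ⟨t, ht, ht'⟩ := H.unit_pow k
      have h1 : leps (R' := R') i ε (l h ^ k • (u ᵥ* lmap l (B 1))) = 0 := by
        rw [← H.smul_vecMul', hb, lvec_vecMul, leps_lvec Hi, (hB.ker _).2 ⟨b, rfl⟩, map_zero]
      rw [map_smul] at h1
      have h2 := congrArg (t • ·) h1
      simpa [smul_smul, ht'] using h2
  exact k hk v := by
    constructor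
    · intro hv
      obtain ⟨j, b, hb⟩ := H.common' v
      have h1 : b ᵥ* B k = 0 := by
        apply H.lvec_inj
        rw [← lvec_vecMul, ← hb, H.smul_vecMul', hv, smul_zero, lvec_zero]
      obtain ⟨u, hu⟩ := (hB.exact k hk b).1 h1
      obtain ⟨t, ht, ht'⟩ := H.unit_pow j
      refine ⟨t • lvec l u, ?_⟩
      apply H.smul_cancel j
      rw [← H.smul_vecMul', smul_smul, ht, one_smul, lvec_vecMul, hu, hb]
    · rintro ⟨u, rfl⟩
      obtain ⟨j, b, hb⟩ := H.common' u
      apply H.smul_cancel j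
      rw [← H.smul_vecMul', ← H.smul_vecMul', hb, lvec_vecMul, lvec_vecMul,
        (hB.exact k hk _).2 ⟨b, rfl⟩, lvec_zero, smul_zero]

/-- vanishing of `Ext` over the localisation -/
theorem ExtZero.extTor (H : IsLocH h l) (Hi : IsLocHMod h l i) {j : ℕ} (hM : ExtZero R' M j) :
    ExtTor R h N j := by
  intro n B ε hB w hw
  obtain ⟨u, hu⟩ := hM n _ _ (hB.loc H Hi) (lvec l w) (by
    rw [lvec_mulVec, hw, lvec_zero])
  obtain ⟨k, b, hb⟩ := H.common' u
  refine ⟨k, b, ?_⟩
  apply H.lvec_inj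
  rw [← lvec_mulVec, ← hb, H.mulVec_smul, hu]
  funext a
  simp [lvec]

end

end Pool.Agent.DQ
end
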