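import Pool.Agent.Lib.MP_4aa2a9_ag.Mg.G036
import Pool.Agent.Lib.MP_4aa2a9_ag.Mg.G040
import Pool.Agent.Lib.MP_4aa2a9_ag.Mg.G038
import Pool.Agent.Lib.MP_4aa2a9_ag.Mg.G003
import Pool.Agent.Lib.MP_4aa2a9_ag.Mg.G048

section

/-!
# DQ, module L, part a: lifting of splittings modulo `h`; splitting up to powers of `h`; the bidual
map up to powers of `h`
-/

set_option autoImplicit false

universe v w w' u

namespace Pool.Agent.DQ

open Matrix MulOpposite

section vn

variable {R : Type v} {S : Type u} [Ring R] [CommRing S] {h : R} {π : R →+* S}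

/-- lifting of a splitting modulo `h` -/
theorem HRed.vn_lift (H : HRed h π) [IsNoetherianRing R] [IsLocalRing S] {a b : ℕ}
    (Y : Matrix (Fin b) (Fin a) R)
    (hvn : ∃ s : Matrix (Fin a) (Fin b) S, Y.map π * s * Y.map π = Y.map π)
    (tf : ∀ v : Fin a → R, (∃ u, u ᵥ* Y = h • v) → ∃ u, u ᵥ* Y = v) :
    ∃ s : Matrix (Fin a) (Fin b) R, Y * s * Y = Y := by
  obtain ⟨s, hs⟩ := hvn
  -- the cokernel modulo `h` is free
  let P : Submodule S (Fin a → S) := LinearMap.range (Matrix.vecMulLinear (Y.map π))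
  let i : ((Fin a → S) ⧸ P) →ₗ[S] (Fin a → S) :=
    P.liftQ (Matrix.vecMulLinear (1 - s * Y.map π)) (by
      rintro _ ⟨u, rfl⟩
      change (u ᵥ* Y.map π) ᵥ* (1 - s * Y.map π) = 0
      rw [Matrix.vecMul_vecMul, Matrix.mul_sub, Matrix.mul_one, ← Matrix.mul_assoc, hs, sub_self,
        Matrix.vecMul_zero])
  have hi : P.mkQ ∘ₗ i = LinearMap.id := by
    refine LinearMap.ext fun x => ?_
    obtain ⟨v, rfl⟩ := P.mkQ_surjective x
    change P.mkQ (v ᵥ* (1 - s * Y.map π)) = P.mkQ v
    rw [Matrix.vecMul_sub, Matrix.vecMul_one, map_sub, sub_eq_self, ← Matrix.vecMul_vecMul]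
    exact (Submodule.Quotient.mk_eq_zero P).2 ⟨_, rfl⟩
  have hproj : Module.Projective S ((Fin a → S) ⧸ P) := Module.Projective.of_split i P.mkQ hi
  have hfree : Module.Free S ((Fin a → S) ⧸ P) := Module.free_of_flat_of_isLocalRing
  let bs := Module.finBasis S ((Fin a → S) ⧸ P)
  set r := Module.finrank S ((Fin a → S) ⧸ P) with hr
  -- lifts of the basis
  have hlift : ∀ k : Fin r, ∃ z : Fin a → R, P.mkQ (fun i => π (z i)) = bs k := by
    intro k
    obtain ⟨v, hv⟩ := P.mkQ_surjective (bs k)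
    obtain ⟨z, rfl⟩ := H.lift_vec v
    exact ⟨z, hv⟩
  choose z hz using hlift
  let Z : Matrix (Fin r) (Fin a) R := Matrix.of z
  have hZ : ∀ c : Fin r → R, P.mkQ (fun i => π ((c ᵥ* Z) i)) = ∑ k, π (c k) • bs k := by
    intro c
    rw [map_vecMul, vecMul_eq_sum, map_sum]
    refine Finset.sum_congr rfl fun k _ => ?_
    rw [map_smul, ← hz]
    rfl
  have hY : ∀ u : Fin b → R, P.mkQ (fun i => π ((u ᵥ* Y) i)) = 0 := by
    intro u
    rw [map_vecMul]
    exact (Submodule.Quotient.mk_eq_zero P).2 ⟨_, rfl⟩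
  -- generation
  have hgen : ∀ v : Fin a → R, ∃ c u, c ᵥ* Z + u ᵥ* Y = v := by
    let I : Submodule R (Fin a → R) :=
      LinearMap.range (Matrix.vecMulLinear Z) ⊔ LinearMap.range (Matrix.vecMulLinear Y)
    have key : (⊤ : Submodule R (Fin a → R)) ≤ I := by
      refine nakayama H.comm H.unit _ _ (IsNoetherian.noetherian _) fun v _ => ?_
      obtain ⟨c, hc⟩ : ∃ c : Fin r → S, ∑ k, c k • bs k = P.mkQ (fun i => π (v i)) :=
        ⟨_, bs.sum_repr _⟩
      obtain ⟨c, rfl⟩ := H.lift_vec c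
      rw [← hZ, ← sub_eq_zero, ← map_sub, ← map_sub_fun] at hc
      obtain ⟨u, hu⟩ := (Submodule.Quotient.mk_eq_zero P).1 hc
      obtain ⟨u, rfl⟩ := H.lift_vec u
      change (fun i => π (u i)) ᵥ* Y.map π = _ at hu
      rw [← map_vecMul] at hu
      obtain ⟨w, hw⟩ := H.vec_ker (c ᵥ* Z - v - u ᵥ* Y) (by
        rw [map_sub_fun π (c ᵥ* Z - v), hu, sub_self])
      refine ⟨c ᵥ* Z - u ᵥ* Y, Submodule.sub_mem _ (Submodule.mem_sup_left ⟨c, rfl⟩)
        (Submodule.mem_sup_right ⟨u, rfl⟩), -w, trivial, ?_⟩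
      rw [smul_neg, ← hw]
      abel
    intro v
    obtain ⟨_, ⟨c, rfl⟩, _, ⟨u, rfl⟩, h3⟩ := Submodule.mem_sup.1 (key (show v ∈ ⊤ from trivial))
    exact ⟨c, u, h3⟩
  -- independence
  have hind : ∀ c : Fin r → R, (∃ u, u ᵥ* Y = c ᵥ* Z) → c = 0 := by
    let L : Submodule R (Fin r → R) :=
      { carrier := {c | ∃ u, u ᵥ* Y = c ᵥ* Z}
        add_mem' := by
          rintro c c' ⟨u, hu⟩ ⟨u', hu'⟩
          exact ⟨u + u', by rw [Matrix.add_vecMul, Matrix.add_vecMul, hu, hu']⟩
        zero_mem' := ⟨0, by rw [Matrix.zero_vecMul, Matrix.zero_vecMul]⟩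
        smul_mem' := by
          rintro t c ⟨u, hu⟩
          exact ⟨t • u, by rw [Matrix.smul_vecMul, Matrix.smul_vecMul, hu]⟩ }
    have key : L ≤ ⊥ := by
      refine nakayama H.comm H.unit _ _ (IsNoetherian.noetherian _) fun c hc => ?_
      obtain ⟨u, hu⟩ := hc
      have h1 : ∑ k, π (c k) • bs k = 0 := by rw [← hZ, ← hu, hY]
      have h2 : (fun k => π (c k)) = 0 := by
        have := (Fintype.linearIndependent_iff.1 bs.linearIndependent) _ h1
        exact funext this
      obtain ⟨c', rfl⟩ := H.vec_ker c h2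
      refine ⟨0, Submodule.zero_mem _, c', ?_, by rw [zero_add]⟩
      refine tf _ ⟨u, ?_⟩
      rw [hu, H.smul_vecMul]
    intro c hc
    exact (Submodule.mem_bot R).1 (key hc)
  -- the splitting
  choose x u hxu using fun j : Fin a => hgen (Pi.single j 1)
  refine ⟨Matrix.of u, ?_⟩
  have e1 : Matrix.of x * Z + Matrix.of u * Y = 1 := by
    refine mat_ext_row fun v => ?_
    rw [Matrix.vecMul_one, Matrix.vecMul_add, ← Matrix.vecMul_vecMul, ← Matrix.vecMul_vecMul]
    have e2 : v = ∑ j, v j • (Pi.single j (1 : R) : Fin a → R) := by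
      ext l
      simp [Finset.sum_apply, Pi.single_apply]
    conv_rhs => rw [e2]
    simp_rw [← hxu, smul_add, Finset.sum_add_distrib, ← Matrix.smul_vecMul]
    rw [vecMul_eq_sum v (Matrix.of x), vecMul_eq_sum v (Matrix.of u), Matrix.sum_vecMul,
      Matrix.sum_vecMul]
    rfl
  have e3 : Y * Matrix.of x = 0 := by
    refine mat_ext_row fun v => ?_
    rw [Matrix.vecMul_zero]
    refine hind _ ⟨v - v ᵥ* (Y * Matrix.of u), ?_⟩
    rw [← Matrix.vecMul_vecMul v, Matrix.sub_vecMul, Matrix.vecMul_vecMul (v ᵥ* Y), ← Matrix.vecMul_vecMul v,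
      Matrix.vecMul_vecMul _ _ Z]
    have : Matrix.of x * Z = 1 - Matrix.of u * Y := by rw [← e1]; abel
    rw [this, Matrix.vecMul_sub, Matrix.vecMul_one, Matrix.vecMul_vecMul]
  calc Y * Matrix.of u * Y = Y * (1 - Matrix.of x * Z) := by
        rw [Matrix.mul_assoc]
        congr 1
        rw [← e1]; abel
    _ = Y := by
        rw [Matrix.mul_sub, Matrix.mul_one, ← Matrix.mul_assoc, e3, Matrix.zero_mul, sub_zero]

end vn

end Pool.Agent.DQ
end

section

/-!
# DQ, module L, part b: splitting up to powers of `h`; the bidual map up to powers of `h`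
-/

set_option autoImplicit false

universe v w w' u

namespace Pool.Agent.DQ

open Matrix MulOpposite

section pow

variable {R : Type v} {S : Type u} [Ring R] [CommRing S] {h : R} {π : R →+* S}

theorem HRed.mul_pow_smul (H : HRed h π) {a b c : ℕ} (k : ℕ) (X : Matrix (Fin a) (Fin b) R)
    (Y : Matrix (Fin b) (Fin c) R) : X * (h ^ k • Y) = h ^ k • (X * Y) := by
  refine mat_ext_col fun v => ?_
  rw [← Matrix.mulVec_mulVec, Matrix.smul_mulVec, H.mulVec_pow_smul, Matrix.smul_mulVec,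
    Matrix.mulVec_mulVec]

theorem HRed.mul_pow_one (H : HRed h π) {a b : ℕ} (k : ℕ) (X : Matrix (Fin a) (Fin b) R) :
    X * (h ^ k • (1 : Matrix (Fin b) (Fin b) R)) = h ^ k • X := by
  rw [H.mul_pow_smul, Matrix.mul_one]

theorem pow_one_mul {a b : ℕ} (k : ℕ) (X : Matrix (Fin a) (Fin b) R) :
    (h ^ k • (1 : Matrix (Fin a) (Fin a) R)) * X = h ^ k • X := by
  rw [Matrix.smul_mul, Matrix.one_mul]

/-- lifting a matrix up to a power of `h` -/
theorem HRed.exists_col_lift_pow (H : HRed h π) {a b c : ℕ} (X : Matrix (Fin a) (Fin b) R)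
    (Y : Matrix (Fin a) (Fin c) R) (hv : ∀ v : Fin b → R, ∃ (m : ℕ) (u : Fin c → R),
      Y *ᵥ u = h ^ m • (X *ᵥ v)) :
    ∃ (m : ℕ) (Z : Matrix (Fin c) (Fin b) R), Y * Z = h ^ m • X := by
  choose m u hu using fun i : Fin b => hv (Pi.single i 1)
  refine ⟨Finset.univ.sup m, (Matrix.of fun i => h ^ (Finset.univ.sup m - m i) • u i)ᵀ, ?_⟩
  ext i j
  have h1 := congrFun (H.mulVec_pow_smul (Finset.univ.sup m - m j) (u j) Y) i
  rw [hu, ← mul_smul, ← pow_add, Nat.sub_add_cancel (Finset.le_sup (Finset.mem_univ j)),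
    Matrix.mulVec_single_one] at h1
  exact h1

variable {d : ℕ} {n : ℕ → ℕ} {B : ∀ k, Matrix (Fin (n (k + 1))) (Fin (n k)) R}

/-- the descending induction for splittings up to powers of `h` -/
theorem HRed.hvn (H : HRed h π) {q : ℕ} (hB : ∀ k, B (k + 1) * B k = 0)
    (hq : ∃ s : Matrix (Fin (n q)) (Fin (n (q + 1))) R, B q * s * B q = B q)
    (hex : ∀ j, d < j → ∀ w, B (j + 1) *ᵥ w = 0 → ∃ (m : ℕ) (u : Fin (n j) → R),
      B j *ᵥ u = h ^ m • w) (j : ℕ) (hj : d < j) (hjq : j ≤ q) :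
    ∃ (m : ℕ) (s : Matrix (Fin (n j)) (Fin (n (j + 1))) R), B j * s * B j = h ^ m • B j := by
  have key : ∀ i j, q = j + i → d < j →
      ∃ (m : ℕ) (s : Matrix (Fin (n j)) (Fin (n (j + 1))) R), B j * s * B j = h ^ m • B j := by
    intro i
    induction i with
    | zero =>
      intro j h1 _
      obtain rfl : q = j := by omega
      obtain ⟨s, hs⟩ := hq
      exact ⟨0, s, by rw [hs, pow_zero, one_smul]⟩
    | succ i ih =>
      intro j h1 h2
      obtain ⟨m, s, hs⟩ := ih (j + 1) (by omega) (by omega)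
      have h3 : B (j + 1) * (h ^ m • 1 - s * B (j + 1)) = 0 := by
        rw [Matrix.mul_sub, H.mul_pow_one, ← Matrix.mul_assoc, hs, sub_self]
      obtain ⟨m', s', hs'⟩ := H.exists_col_lift_pow (h ^ m • 1 - s * B (j + 1)) (B j) fun v =>
        hex j h2 _ (by rw [Matrix.mulVec_mulVec, h3, Matrix.zero_mulVec])
      refine ⟨m' + m, s', ?_⟩
      rw [hs', Matrix.smul_mul, Matrix.sub_mul, pow_one_mul, Matrix.mul_assoc, hB, Matrix.mul_zero,
        sub_zero, smul_smul, ← pow_add]
  exact key (q - j) j (by omega) hj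

variable {g : ℕ → ℕ} {C : ∀ k, Matrix (Fin (g k)) (Fin (g (k + 1))) R}

/-- the bidual map is bijective up to powers of `h` -/
theorem HRed.bidual_pow (H : HRed h π) (hn : n 0 = 0) (hB : ∀ k, B (k + 1) * B k = 0)
    (hex : ∀ j < d, ColEx B j)
    (hvn : ∃ (m : ℕ) (s : Matrix (Fin (n (d + 1))) (Fin (n (d + 2))) R),
      B (d + 1) * s * B (d + 1) = h ^ m • B (d + 1))
    (W : ∀ j k, j + k = d + 2 → Matrix (Fin (n j)) (Fin (g k)) R)
    (hE : IsResExt d n B g C (W (d + 1) 1 (by omega)))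
    (hW : ∀ j k (h : j + k = d + 1), W (j + 1) k (by omega) * C k = B j * W j (k + 1) (by omega)) :
    ∃ m : ℕ, (∀ v : Fin (n 1) → R,
      (∃ t : Fin (g d) → R, v ᵥ* W 1 (d + 1) (by omega) = t ᵥ* C d) →
      ∃ z, z ᵥ* B 1 = h ^ m • v) ∧
    ∀ u : Fin (g (d + 1)) → R, u ᵥ* C (d + 1) = 0 → ∃ (v : Fin (n 1) → R) (t : Fin (g d) → R),
      v ᵥ* W 1 (d + 1) (by omega) + t ᵥ* C d = h ^ m • u := by
  obtain ⟨m, s, hs⟩ := hvn
  refine ⟨m, ?_⟩
  have hP : B (d + 1) * (h ^ m • 1 - s * B (d + 1)) = 0 := by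
    rw [Matrix.mul_sub, H.mul_pow_one, ← Matrix.mul_assoc, hs, sub_self]
  obtain ⟨V1, U, hVU⟩ := exists_col_lift₂ (h ^ m • 1 - s * B (d + 1)) (W (d + 1) 1 (by omega)) (B d)
    fun v => hE.surj _ (by rw [Matrix.mulVec_mulVec, hP, Matrix.zero_mulVec])
  -- the chain map `V`
  set V : ∀ k j, j + k = d + 2 → Matrix (Fin (g k)) (Fin (n j)) R := vRec d n B g C V1 with hVdef
  have hV1 : V 1 (d + 1) (by omega) = V1 := rfl
  have hV : ∀ k j (h : j + k = d + 1), C k * V (k + 1) j (by omega) = V k (j + 1) (by omega) * B j := by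
    intro k
    induction k with
    | zero => intro j hj; exact mat_eq_of_zero_left hE.zero _ _
    | succ k ih =>
      intro j hj
      have key : ∃ X, C (k + 1) * X = V (k + 1) (j + 1) (by omega) * B j := by
        rcases Nat.eq_zero_or_pos k with rfl | hk
        · obtain rfl : j = d := by omega
          refine exists_col_lift _ (C 1) fun v => ?_
          change ∃ u, C 1 *ᵥ u = (V1 * B j) *ᵥ v
          refine (hE.ker _).1 ⟨(h ^ m • 1 - U * B j) *ᵥ v, ?_⟩
          have e : W (j + 1) 1 (by omega) * V1 * B j = B j * (h ^ m • 1 - U * B j) := by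
            have : W (j + 1) 1 (by omega) * V1 = h ^ m • 1 - s * B (j + 1) - B j * U := by
              rw [← hVU]; abel
            rw [this, Matrix.sub_mul, Matrix.sub_mul, pow_one_mul, Matrix.mul_assoc s, hB,
              Matrix.mul_zero, sub_zero, Matrix.mul_sub, H.mul_pow_one, Matrix.mul_assoc]
          rw [Matrix.mulVec_mulVec, ← Matrix.mul_assoc, e, Matrix.mulVec_mulVec]
        · refine hE.exists_factor hk _ ?_
          rw [← Matrix.mul_assoc, ih (j + 1) (by omega), Matrix.mul_assoc, hB, Matrix.mul_zero]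
      exact Classical.epsilon_spec key
  -- homotopy on `B`
  have hX : ∀ k i (_ : i + k = d), ∃ (X : Matrix (Fin (n (i + 1))) (Fin (n (i + 2))) R)
      (Y : Matrix (Fin (n i)) (Fin (n (i + 1))) R),
      h ^ m • 1 - W (i + 1) (k + 1) (by omega) * V (k + 1) (i + 1) (by omega) =
        X * B (i + 1) + B i * Y := by
    intro k
    induction k with
    | zero =>
      intro i hi
      obtain rfl : i = d := by omega
      refine ⟨s, U, ?_⟩
      change h ^ m • 1 - W (i + 1) 1 (by omega) * V1 = _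
      have : W (i + 1) 1 (by omega) * V1 = h ^ m • 1 - s * B (i + 1) - B i * U := by
        rw [← hVU]; abel
      rw [this]; abel
    | succ k ih =>
      intro i hi
      obtain ⟨X, Y, hXY⟩ := ih (i + 1) (by omega)
      have e : B (i + 1) * (h ^ m • 1 - W (i + 1) (k + 2) (by omega) * V (k + 2) (i + 1) (by omega)
          - Y * B (i + 1)) = 0 := by
        have e1 := hW (i + 1) (k + 1) (by omega)
        have e2 := hV (k + 1) (i + 1) (by omega)
        have e3 : W (i + 2) (k + 1) (by omega) * V (k + 1) (i + 2) (by omega) =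
            h ^ m • 1 - X * B (i + 2) - B (i + 1) * Y := by
          have := hXY
          rw [sub_eq_iff_eq_add] at this
          rw [this]; abel
        calc B (i + 1) * (h ^ m • 1 - W (i + 1) (k + 2) (by omega) * V (k + 2) (i + 1) (by omega)
                - Y * B (i + 1))
            = h ^ m • B (i + 1)
                - (B (i + 1) * W (i + 1) (k + 2) (by omega)) * V (k + 2) (i + 1) (by omega)
                - B (i + 1) * Y * B (i + 1) := by
              rw [Matrix.mul_sub, Matrix.mul_sub, H.mul_pow_one, Matrix.mul_assoc,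
                Matrix.mul_assoc]
          _ = h ^ m • B (i + 1)
                - (W (i + 2) (k + 1) (by omega) * V (k + 1) (i + 2) (by omega)) * B (i + 1)
                - B (i + 1) * Y * B (i + 1) := by
              rw [← e1, Matrix.mul_assoc (W (i + 2) (k + 1) _), e2, ← Matrix.mul_assoc]
          _ = 0 := by
              rw [e3, Matrix.sub_mul, Matrix.sub_mul, pow_one_mul, Matrix.mul_assoc X, hB,
                Matrix.mul_zero]
              abel
      obtain ⟨Y', hY'⟩ := exists_col_lift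
        (h ^ m • 1 - W (i + 1) (k + 2) (by omega) * V (k + 2) (i + 1) (by omega) - Y * B (i + 1))
        (B i) (fun v => hex i (by omega) _ (by rw [Matrix.mulVec_mulVec, e, Matrix.zero_mulVec]))
      refine ⟨Y, Y', ?_⟩
      rw [hY']; abel
  -- homotopy on `C`
  have hS : ∀ k j (_ : j + (k + 1) = d + 2), ∃ (S : Matrix (Fin (g (k + 2))) (Fin (g (k + 1))) R)
      (S' : Matrix (Fin (g (k + 1))) (Fin (g k)) R),
      h ^ m • 1 - V (k + 1) j (by omega) * W j (k + 1) (by omega) = C (k + 1) * S + S' * C k := by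
    intro k
    induction k with
    | zero =>
      intro j hj
      obtain rfl : j = d + 1 := by omega
      obtain ⟨S, hS⟩ := exists_col_lift (h ^ m • 1 - V1 * W (d + 1) 1 (by omega)) (C 1) fun v => by
        refine (hE.ker _).1 ⟨(U * W (d + 1) 1 (by omega)) *ᵥ v, ?_⟩
        rw [Matrix.mulVec_mulVec, Matrix.mulVec_mulVec]
        congr 1
        have : W (d + 1) 1 (by omega) * V1 = h ^ m • 1 - s * B (d + 1) - B d * U := by
          rw [← hVU]; abel
        rw [Matrix.mul_sub, H.mul_pow_one, ← Matrix.mul_assoc, this, Matrix.sub_mul,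
          Matrix.sub_mul, pow_one_mul, Matrix.mul_assoc s, hE.cocycle, Matrix.mul_zero,
          Matrix.mul_assoc]
        abel
      exact ⟨S, 0, by rw [Matrix.zero_mul, add_zero, hS]; rfl⟩
    | succ k ih =>
      intro j hj
      obtain ⟨S, S', hSS⟩ := ih (j + 1) (by omega)
      have e : C (k + 1) * (h ^ m • 1 - V (k + 2) j (by omega) * W j (k + 2) (by omega)
          - S * C (k + 1)) = 0 := by
        have e1 := hW j (k + 1) (by omega)
        have e2 := hV (k + 1) j (by omega)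
        have e3 : V (k + 1) (j + 1) (by omega) * W (j + 1) (k + 1) (by omega) =
            h ^ m • 1 - C (k + 1) * S - S' * C k := by
          have := hSS
          rw [sub_eq_iff_eq_add] at this
          rw [this]; abel
        calc C (k + 1) * (h ^ m • 1 - V (k + 2) j (by omega) * W j (k + 2) (by omega)
                - S * C (k + 1))
            = h ^ m • C (k + 1) - (C (k + 1) * V (k + 2) j (by omega)) * W j (k + 2) (by omega)
                - C (k + 1) * S * C (k + 1) := by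
              rw [Matrix.mul_sub, Matrix.mul_sub, H.mul_pow_one, Matrix.mul_assoc,
                Matrix.mul_assoc]
          _ = h ^ m • C (k + 1)
                - (V (k + 1) (j + 1) (by omega) * W (j + 1) (k + 1) (by omega)) * C (k + 1)
                - C (k + 1) * S * C (k + 1) := by
              rw [e2, Matrix.mul_assoc, ← e1, ← Matrix.mul_assoc]
          _ = 0 := by
              rw [e3, Matrix.sub_mul, Matrix.sub_mul, pow_one_mul, Matrix.mul_assoc S',
                hE.mul_eq_zero, Matrix.mul_zero]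
              abel
      obtain ⟨Y, hY⟩ := hE.exists_factor (k := k + 1) (by omega) _ e
      refine ⟨Y, S, ?_⟩
      rw [hY]; abel
  have hsm : ∀ {a : ℕ} (v : Fin a → R), v ᵥ* (h ^ m • (1 : Matrix (Fin a) (Fin a) R)) =
      h ^ m • v := by
    intro a v
    ext i
    have h1 : (v ᵥ* (h ^ m • (1 : Matrix (Fin a) (Fin a) R))) i = v i * h ^ m := by
      simp [Matrix.vecMul, dotProduct, Matrix.one_apply]
    rw [h1, ← H.pow_comm]
    rfl
  constructor
  · rintro v ⟨t, ht⟩
    obtain ⟨X, Y, hXY⟩ := hX d 0 (by omega)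
    refine ⟨t ᵥ* V d 2 (by omega) + v ᵥ* X, ?_⟩
    have e1 := congrArg (fun Z => v ᵥ* Z) hXY
    have e2 : B 0 * Y = 0 := mul_eq_zero_of_mid hn _ _
    simp only [e2, add_zero, Matrix.vecMul_sub, hsm, ← Matrix.vecMul_vecMul] at e1
    have e3 : (v ᵥ* W 1 (d + 1) (by omega)) ᵥ* V (d + 1) 1 (by omega) =
        (t ᵥ* V d 2 (by omega)) ᵥ* B 1 := by
      rw [ht, Matrix.vecMul_vecMul, hV d 1 (by omega), Matrix.vecMul_vecMul]
    rw [Matrix.add_vecMul, ← e3, ← e1]
    abel
  · intro u hu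
    obtain ⟨S, S', hSS⟩ := hS d 1 (by omega)
    refine ⟨u ᵥ* V (d + 1) 1 (by omega), u ᵥ* S', ?_⟩
    have e1 := congrArg (fun Z => u ᵥ* Z) hSS
    simp only [Matrix.vecMul_sub, hsm, Matrix.vecMul_add, ← Matrix.vecMul_vecMul,
      hu, Matrix.zero_vecMul, zero_add] at e1
    rw [← e1]
    abel

end pow

end Pool.Agent.DQ
end

section

/-! # DQ, module L: `d`-reflexive lattices in an `𝓐[1/ħ]`-module -/

set_option autoImplicit false

open Set Filter Topology Matrix

universe u v w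

namespace Pool.Agent.DQ

variable {V : Type} [NormedAddCommGroup V] [NormedSpace ℂ V] [FiniteDimensional ℂ V]
  (𝓐 : Defo.{0, v} V)

/-- `N₂` is a `d`-reflexive lattice in `M`, by the injective maps `ι₂` -/
structure Hull (d : ℕ) (Y : Set V) (M : EMod.{0, v, w} 𝓐.A) (N₂ : EMod.{0, v, w} 𝓐.A)
    (ι₂ : ∀ x, N₂.St x → M.St x) : Prop where
  dom : N₂.dom = 𝓐.A.dom \ Y
  refl : DRefl 𝓐 d N₂ N₂.dom
  add : ∀ x ∈ N₂.dom, ∀ m m', ι₂ x (m + m') = ι₂ x m + ι₂ x m'
  smul : ∀ x ∈ N₂.dom, ∀ (a : 𝓐.A.St x) m, ι₂ x (a • m) = a • ι₂ x m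
  inj : ∀ x, Function.Injective (ι₂ x)
  at_iff : ∀ s x, N₂.At s x ↔ M.At (fun y => ι₂ y (s y)) x
  range_near : ∀ s x, M.At s x → s x ∈ range (ι₂ x) → ∀ᶠ y in 𝓝 x, s y ∈ range (ι₂ y)
  gen : ∀ x ∈ N₂.dom, ∀ m : M.St x, ∃ (k : ℕ) (m' : N₂.St x), 𝓐.hb x ^ k • m = ι₂ x m'

end Pool.Agent.DQ
end
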