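import Mathlib
import Pool.Agent.Lib.MP_4aa2a9_ag.Mg.G003
import Pool.Agent.Lib.MP_4aa2a9_ag.Mg.G005
import Pool.Agent.Lib.MP_4aa2a9_ag.Mg.G002

section

/-! Module M12, file 1: germs of vector and matrix valued functions. -/

set_option autoImplicit false
set_option linter.unusedSectionVars false

open Set Filter Topology Matrix

universe u v w

namespace Pool.Agent.DQ.M12

variable {E : Type u} [NormedAddCommGroup E] [NormedSpace ℂ E] {p q r : ℕ}

/-- all entries are holomorphic near `x` -/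
def MHolAt (A : E → Matrix (Fin p) (Fin q) ℂ) (x : E) : Prop := ∀ i j, HolAt (fun y => A y i j) x

/-- all coordinates are holomorphic near `x` -/
def VHolAt (u : E → Fin p → ℂ) (x : E) : Prop := ∀ i, HolAt (fun y => u y i) x

/-- all coordinates are holomorphic near the points of `S` -/
def VHol (u : E → Fin p → ℂ) (S : Set E) : Prop := ∀ x ∈ S, VHolAt u x

/-- the matrix of germs at `x` -/
noncomputable def gmat (A : E → Matrix (Fin p) (Fin q) ℂ) (x : E) :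
    Matrix (Fin p) (Fin q) ((O E).St x) := of fun i j => om (fun y => A y i j) x

/-- the vector of germs at `x` -/
noncomputable def gvec (u : E → Fin p → ℂ) (x : E) : Fin p → (O E).St x :=
  fun i => om (fun y => u y i) x

theorem gmat_apply (A : E → Matrix (Fin p) (Fin q) ℂ) (x : E) (i : Fin p) (j : Fin q) :
    gmat A x i j = om (fun y => A y i j) x := rfl

theorem gvec_apply (u : E → Fin p → ℂ) (x : E) (i : Fin p) :
    gvec u x i = om (fun y => u y i) x := rfl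

theorem mHol_iff {A : E → Matrix (Fin p) (Fin q) ℂ} {S : Set E} :
    MHol A S ↔ ∀ x ∈ S, MHolAt A x :=
  ⟨fun h x hx i j => h i j x hx, fun h i j x hx => h x hx i j⟩

theorem MHolAt.eventually {A : E → Matrix (Fin p) (Fin q) ℂ} {x : E} (h : MHolAt A x) :
    ∀ᶠ y in 𝓝 x, MHolAt A y :=
  eventually_all.mpr fun i => eventually_all.mpr fun j => (h i j).eventually

theorem VHolAt.eventually {u : E → Fin p → ℂ} {x : E} (h : VHolAt u x) :
    ∀ᶠ y in 𝓝 x, VHolAt u y := eventually_all.mpr fun i => (h i).eventually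

theorem MHolAt.mul {A : E → Matrix (Fin p) (Fin q) ℂ} {B : E → Matrix (Fin q) (Fin r) ℂ} {x : E}
    (hA : MHolAt A x) (hB : MHolAt B x) : MHolAt (fun y => A y * B y) x := by
  intro i j
  simp only [Matrix.mul_apply]
  exact HolAt.sum _ fun l _ => (hA i l).mul (hB l j)

theorem MHolAt.add {A B : E → Matrix (Fin p) (Fin q) ℂ} {x : E}
    (hA : MHolAt A x) (hB : MHolAt B x) : MHolAt (fun y => A y + B y) x :=
  fun i j => (hA i j).add (hB i j)

theorem MHolAt.sub {A B : E → Matrix (Fin p) (Fin q) ℂ} {x : E}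
    (hA : MHolAt A x) (hB : MHolAt B x) : MHolAt (fun y => A y - B y) x :=
  fun i j => (hA i j).sub (hB i j)

theorem MHolAt.neg {A : E → Matrix (Fin p) (Fin q) ℂ} {x : E}
    (hA : MHolAt A x) : MHolAt (fun y => - A y) x := fun i j => (hA i j).neg

theorem MHolAt.smul {f : E → ℂ} {A : E → Matrix (Fin p) (Fin q) ℂ} {x : E} (hf : HolAt f x)
    (hA : MHolAt A x) : MHolAt (fun y => f y • A y) x := fun i j => hf.mul (hA i j)

theorem MHolAt.transpose {A : E → Matrix (Fin p) (Fin q) ℂ} {x : E}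
    (hA : MHolAt A x) : MHolAt (fun y => (A y)ᵀ) x := fun i j => hA j i

theorem MHolAt.const (A : Matrix (Fin p) (Fin q) ℂ) (x : E) : MHolAt (fun _ => A) x :=
  fun i j => HolAt.const (A i j) x

theorem MHolAt.congr {A B : E → Matrix (Fin p) (Fin q) ℂ} {x : E} (hA : MHolAt A x)
    (h : A =ᶠ[𝓝 x] B) : MHolAt B x := by
  intro i j
  refine (hA i j).congr ?_
  filter_upwards [h] with y hy
  rw [hy]

theorem MHolAt.mulVec {A : E → Matrix (Fin p) (Fin q) ℂ} {u : E → Fin q → ℂ} {x : E}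
    (hA : MHolAt A x) (hu : VHolAt u x) : VHolAt (fun y => A y *ᵥ u y) x := by
  intro i
  simp only [Matrix.mulVec, dotProduct]
  exact HolAt.sum _ fun l _ => (hA i l).mul (hu l)

theorem VHolAt.add {u v : E → Fin p → ℂ} {x : E} (hu : VHolAt u x) (hv : VHolAt v x) :
    VHolAt (fun y => u y + v y) x := fun i => (hu i).add (hv i)

theorem VHolAt.sub {u v : E → Fin p → ℂ} {x : E} (hu : VHolAt u x) (hv : VHolAt v x) :
    VHolAt (fun y => u y - v y) x := fun i => (hu i).sub (hv i)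

theorem VHolAt.neg {u : E → Fin p → ℂ} {x : E} (hu : VHolAt u x) :
    VHolAt (fun y => - u y) x := fun i => (hu i).neg

theorem VHolAt.smul {f : E → ℂ} {u : E → Fin p → ℂ} {x : E} (hf : HolAt f x) (hu : VHolAt u x) :
    VHolAt (fun y => f y • u y) x := fun i => hf.mul (hu i)

theorem VHolAt.zero (x : E) : VHolAt (fun _ => (0 : Fin p → ℂ)) x := fun _ => HolAt.const 0 x

theorem VHolAt.congr {u v : E → Fin p → ℂ} {x : E} (hu : VHolAt u x) (h : u =ᶠ[𝓝 x] v) :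
    VHolAt v x := by
  intro i
  refine (hu i).congr ?_
  filter_upwards [h] with y hy
  rw [hy]

/-! ### values -/

/-- the value at `x` of a germ -/
noncomputable def ev (x : E) : (O E).St x →+* ℂ := C.evg x

theorem ev_om {f : E → ℂ} {x : E} (h : HolAt f x) : ev x (om f x) = f x := C.evg_gm h

theorem ev_gmat {A : E → Matrix (Fin p) (Fin q) ℂ} {x : E} (hA : MHolAt A x) :
    (gmat A x).map (ev x) = A x := by
  ext i j
  exact C.evg_gm (hA i j)

theorem ev_gvec {u : E → Fin p → ℂ} {x : E} (hu : VHolAt u x) (i : Fin p) :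
    ev x (gvec u x i) = u x i := C.evg_gm (hu i)

theorem isUnit_of_ev {x : E} {g : (O E).St x} (h : ev x g ≠ 0) : IsUnit g := C.isUnit_of_evg h

/-- a section of the structure sheaf is given by the function of its values -/
theorem at_ev {a : (x : E) → (O E).St x} {x : E} (h : (O E).At a x) :
    HolAt (fun y => ev y (a y)) x ∧ ∀ᶠ y in 𝓝 x, a y = om (fun y => ev y (a y)) y := C.at_evg h

/-! ### equality of germs -/

theorem gvec_eq_iff {u v : E → Fin p → ℂ} {x : E} (hu : VHolAt u x) (hv : VHolAt v x) :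
    gvec u x = gvec v x ↔ u =ᶠ[𝓝 x] v := by
  constructor
  · intro h
    have h1 : ∀ i, (fun y => u y i) =ᶠ[𝓝 x] fun y => v y i := fun i =>
      (gm_eq_iff (hu i) (hv i)).mp (congrFun h i)
    filter_upwards [eventually_all.mpr h1] with y hy
    exact funext hy
  · intro h
    funext i
    refine (gm_eq_iff (hu i) (hv i)).mpr ?_
    filter_upwards [h] with y hy
    rw [hy]

theorem gvec_congr {u v : E → Fin p → ℂ} {x : E} (hu : VHolAt u x) (h : u =ᶠ[𝓝 x] v) :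
    gvec u x = gvec v x := (gvec_eq_iff hu (hu.congr h)).mpr h

theorem gmat_eq_iff {A B : E → Matrix (Fin p) (Fin q) ℂ} {x : E} (hA : MHolAt A x)
    (hB : MHolAt B x) : gmat A x = gmat B x ↔ A =ᶠ[𝓝 x] B := by
  constructor
  · intro h
    have h1 : ∀ i j, (fun y => A y i j) =ᶠ[𝓝 x] fun y => B y i j := fun i j =>
      (gm_eq_iff (hA i j) (hB i j)).mp (congrFun (congrFun h i) j)
    filter_upwards [eventually_all.mpr fun i => eventually_all.mpr (h1 i)] with y hy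
    ext i j
    exact hy i j
  · intro h
    ext1 i j
    refine (gm_eq_iff (hA i j) (hB i j)).mpr ?_
    filter_upwards [h] with y hy
    rw [hy]

theorem gmat_congr {A B : E → Matrix (Fin p) (Fin q) ℂ} {x : E} (hA : MHolAt A x)
    (h : A =ᶠ[𝓝 x] B) : gmat A x = gmat B x := (gmat_eq_iff hA (hA.congr h)).mpr h

/-! ### algebra -/

theorem om_sum {ι : Type*} (s : Finset ι) {f : ι → E → ℂ} {x : E}
    (hf : ∀ i ∈ s, HolAt (f i) x) : om (fun y => ∑ i ∈ s, f i y) x = ∑ i ∈ s, om (f i) x :=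
  C.gm_sum s hf

theorem om_mul {f g : E → ℂ} {x : E} (hf : HolAt f x) (hg : HolAt g x) :
    om (fun y => f y * g y) x = om f x * om g x := gm_mul hf hg

theorem om_add {f g : E → ℂ} {x : E} (hf : HolAt f x) (hg : HolAt g x) :
    om (fun y => f y + g y) x = om f x + om g x := gm_add hf hg

theorem om_sub {f g : E → ℂ} {x : E} (hf : HolAt f x) (hg : HolAt g x) :
    om (fun y => f y - g y) x = om f x - om g x := C.gm_sub' hf hg

theorem om_neg {f : E → ℂ} {x : E} (hf : HolAt f x) :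
    om (fun y => - f y) x = - om f x := gm_neg hf

theorem om_zero (x : E) : om (fun _ => (0 : ℂ)) x = 0 := gm_zero x

theorem om_one (x : E) : om (fun _ => (1 : ℂ)) x = 1 := gm_one x

theorem gmat_mul {A : E → Matrix (Fin p) (Fin q) ℂ} {B : E → Matrix (Fin q) (Fin r) ℂ} {x : E}
    (hA : MHolAt A x) (hB : MHolAt B x) : gmat (fun y => A y * B y) x = gmat A x * gmat B x := by
  ext1 i j
  rw [Matrix.mul_apply, gmat_apply]
  simp only [Matrix.mul_apply]
  rw [om_sum _ fun l _ => (hA i l).mul (hB l j)]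
  exact Finset.sum_congr rfl fun l _ => om_mul (hA i l) (hB l j)

theorem gmat_mulVec {A : E → Matrix (Fin p) (Fin q) ℂ} {u : E → Fin q → ℂ} {x : E}
    (hA : MHolAt A x) (hu : VHolAt u x) : gvec (fun y => A y *ᵥ u y) x = gmat A x *ᵥ gvec u x := by
  funext i
  rw [gvec_apply]
  simp only [Matrix.mulVec, dotProduct]
  rw [om_sum _ fun l _ => (hA i l).mul (hu l)]
  exact Finset.sum_congr rfl fun l _ => om_mul (hA i l) (hu l)

theorem gmat_add {A B : E → Matrix (Fin p) (Fin q) ℂ} {x : E} (hA : MHolAt A x)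
    (hB : MHolAt B x) : gmat (fun y => A y + B y) x = gmat A x + gmat B x := by
  ext1 i j
  exact om_add (hA i j) (hB i j)

theorem gmat_sub {A B : E → Matrix (Fin p) (Fin q) ℂ} {x : E} (hA : MHolAt A x)
    (hB : MHolAt B x) : gmat (fun y => A y - B y) x = gmat A x - gmat B x := by
  ext1 i j
  exact om_sub (hA i j) (hB i j)

theorem gvec_add {u v : E → Fin p → ℂ} {x : E} (hu : VHolAt u x) (hv : VHolAt v x) :
    gvec (fun y => u y + v y) x = gvec u x + gvec v x := funext fun i => om_add (hu i) (hv i)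

theorem gvec_sub {u v : E → Fin p → ℂ} {x : E} (hu : VHolAt u x) (hv : VHolAt v x) :
    gvec (fun y => u y - v y) x = gvec u x - gvec v x := funext fun i => om_sub (hu i) (hv i)

theorem gvec_neg {u : E → Fin p → ℂ} {x : E} (hu : VHolAt u x) :
    gvec (fun y => - u y) x = - gvec u x := funext fun i => om_neg (hu i)

theorem gvec_smul {f : E → ℂ} {u : E → Fin p → ℂ} {x : E} (hf : HolAt f x) (hu : VHolAt u x) :
    gvec (fun y => f y • u y) x = om f x • gvec u x := funext fun i => om_mul hf (hu i)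

theorem gvec_zero (x : E) : gvec (fun _ => (0 : Fin p → ℂ)) x = 0 := funext fun _ => om_zero x

theorem gmat_one (x : E) : gmat (fun _ => (1 : Matrix (Fin p) (Fin p) ℂ)) x = 1 := by
  ext1 i j
  rw [gmat_apply, Matrix.one_apply, Matrix.one_apply]
  split_ifs
  · exact om_one x
  · exact om_zero x

theorem gmat_zero (x : E) : gmat (fun _ => (0 : Matrix (Fin p) (Fin q) ℂ)) x = 0 := by
  ext1 i j
  exact om_zero x

theorem gmat_transpose (A : E → Matrix (Fin p) (Fin q) ℂ) (x : E) :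
    gmat (fun y => (A y)ᵀ) x = (gmat A x)ᵀ := rfl

/-! ### germs are germs of functions -/

theorem exists_om {x : E} (g : (O E).St x) : ∃ f : E → ℂ, HolAt f x ∧ om f x = g := exists_gm g

theorem exists_gvec {x : E} (g : Fin p → (O E).St x) :
    ∃ u : E → Fin p → ℂ, VHolAt u x ∧ gvec u x = g := by
  choose f hf hg using fun i => exists_om (g i)
  exact ⟨fun y i => f i y, hf, funext hg⟩

theorem exists_gmat {x : E} (g : Matrix (Fin p) (Fin q) ((O E).St x)) :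
    ∃ A : E → Matrix (Fin p) (Fin q) ℂ, MHolAt A x ∧ gmat A x = g := by
  choose f hf hg using fun i j => exists_om (g i j)
  exact ⟨fun y => of fun i j => f i j y, hf, by ext1 i j; exact hg i j⟩

/-- pointwise identities between matrix functions give identities between germs -/
theorem mul_eq_of_gmat {A : E → Matrix (Fin p) (Fin q) ℂ} {B : E → Matrix (Fin q) (Fin r) ℂ}
    {C' : E → Matrix (Fin p) (Fin r) ℂ} {x : E} (hA : MHolAt A x) (hB : MHolAt B x)
    (hC : MHolAt C' x) : gmat A x * gmat B x = gmat C' x ↔ ∀ᶠ y in 𝓝 x, A y * B y = C' y := by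
  rw [← gmat_mul hA hB, gmat_eq_iff (hA.mul hB) hC]
  rfl

theorem mulVec_eq_of_gmat {A : E → Matrix (Fin p) (Fin q) ℂ} {u : E → Fin q → ℂ}
    {v : E → Fin p → ℂ} {x : E} (hA : MHolAt A x) (hu : VHolAt u x) (hv : VHolAt v x) :
    gmat A x *ᵥ gvec u x = gvec v x ↔ ∀ᶠ y in 𝓝 x, A y *ᵥ u y = v y := by
  rw [← gmat_mulVec hA hu, gvec_eq_iff (hA.mulVec hu) hv]
  rfl

end Pool.Agent.DQ.M12
end

section

/-! # DQ: definitions for the main argument (modules M12, M34, M56, M7) -/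

set_option autoImplicit false

open Set Filter Topology Matrix

universe u v w

namespace Pool.Agent.DQ

noncomputable section MainDefs

variable {V : Type} [NormedAddCommGroup V] [NormedSpace ℂ V] [FiniteDimensional ℂ V] {k d : ℕ}

/-- the data of the product situation: coordinates `(t, w, z; v)`, centre `y₀`, radii -/
structure Sit (V : Type) [NormedAddCommGroup V] [NormedSpace ℂ V] (k d : ℕ) where
  e : V ≃L[ℂ] Bs k × (Fin d → ℂ)
  y₀ : V
  rw : ℝ
  Rw : ℝ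
  rz : ℝ
  Rz : ℝ
  Rv : ℝ
  rw_pos : 0 < rw
  rw_lt : rw < Rw
  rz_pos : 0 < rz
  rz_lt : rz < Rz
  Rv_pos : 0 < Rv

namespace Sit

variable (σ : Sit V k d)

/-- coordinates -/
def t (x : V) : Fin k → ℂ := (σ.e x).1.1
/-- centred coordinate `w` -/
def w (x : V) : ℂ := (σ.e x).1.2.1 - (σ.e σ.y₀).1.2.1
/-- centred coordinate `z` -/
def z (x : V) : ℂ := (σ.e x).1.2.2 - (σ.e σ.y₀).1.2.2
/-- centred coordinates `v` -/
def v (x : V) : Fin d → ℂ := (σ.e x).2 - (σ.e σ.y₀).2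
/-- the centre in the `t`-space -/
def t₀ : Fin k → ℂ := σ.t σ.y₀

/-- product sets over `T`, with `w ∈ W`, `z ∈ Z`, `‖v‖ < Rv` -/
def pr (T : Set (Fin k → ℂ)) (W Z : Set ℂ) : Set V :=
  {x | σ.t x ∈ T ∧ σ.w x ∈ W ∧ σ.z x ∈ Z ∧ ‖σ.v x‖ < σ.Rv}

/-- product sets over `T`, with `w ∈ W`, `z ∈ Z`, `‖v‖ ≤ Rv` -/
def prc (T : Set (Fin k → ℂ)) (W Z : Set ℂ) : Set V :=
  {x | σ.t x ∈ T ∧ σ.w x ∈ W ∧ σ.z x ∈ Z ∧ ‖σ.v x‖ ≤ σ.Rv}

/-- `T × annulus × disc × D_v` -/
def Q1 (T : Set (Fin k → ℂ)) : Set V := σ.pr T (ring 0 σ.rw σ.Rw) (ring 0 (-1) σ.Rz)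
/-- `T × disc × annulus × D_v` -/
def Q2 (T : Set (Fin k → ℂ)) : Set V := σ.pr T (ring 0 (-1) σ.Rw) (ring 0 σ.rz σ.Rz)
/-- `T × annulus × annulus × D_v` -/
def Q12 (T : Set (Fin k → ℂ)) : Set V := σ.pr T (ring 0 σ.rw σ.Rw) (ring 0 σ.rz σ.Rz)
/-- `T × disc × disc × D_v` -/
def KO (T : Set (Fin k → ℂ)) : Set V := σ.pr T (ring 0 (-1) σ.Rw) (ring 0 (-1) σ.Rz)
/-- closed versions -/
def Q1c (T : Set (Fin k → ℂ)) : Set V := σ.prc T (cring 0 σ.rw σ.Rw) (cring 0 (-1) σ.Rz)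
/-- closed version of `Q2` -/
def Q2c (T : Set (Fin k → ℂ)) : Set V := σ.prc T (cring 0 (-1) σ.Rw) (cring 0 σ.rz σ.Rz)
/-- closed version of `KO` -/
def KC (T : Set (Fin k → ℂ)) : Set V := σ.prc T (cring 0 (-1) σ.Rw) (cring 0 (-1) σ.Rz)

/-- the same situation with smaller outer radii in the directions `w` and `z` -/
def shrink (Rw' Rz' : ℝ) (hw : σ.rw < Rw') (hz : σ.rz < Rz') : Sit V k d :=
  { σ with Rw := Rw', Rz := Rz', rw_lt := hw, rz_lt := hz }

/-- a polydisc in the `t`-space (in some linear coordinates) around the centre -/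
structure Pd (σ : Sit V k d) where
  l : ℕ
  κ : (Fin k → ℂ) ≃L[ℂ] (Fin l → ℂ)
  R : Fin l → ℝ
  R_pos : ∀ i, 0 < R i

/-- the open polydisc -/
def Pd.T {σ : Sit V k d} (P : σ.Pd) : Set (Fin k → ℂ) := box P.κ (P.κ σ.t₀) (-1) P.R
/-- the closed polydisc -/
def Pd.Tc {σ : Sit V k d} (P : σ.Pd) : Set (Fin k → ℂ) := cbox P.κ (P.κ σ.t₀) (-1) P.R

end Sit

variable (𝓐 : Defo.{0, v} V)

/-- the standing assumptions of the main argument: `M` is `d`-reflexive on `A.dom` minus `Y`, near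
the closed sets `Q1c`, `Q2c` over the neighbourhood `T₀` of the centre, `M₀` is its reduction, `M₀`
vanishes for `‖v‖ = Rv`. -/
structure Main (M : EMod.{0, v, w} 𝓐.A) (M₀ : EMod.{0, 0, w} (O V)) (ρ : ∀ x, M.St x → M₀.St x)
    (Y : Set V) (σ : Sit V k d) (T₀ : Set (Fin k → ℂ)) : Prop where
  dom : M.dom = 𝓐.A.dom \ Y
  refl : DRefl 𝓐 d M M.dom
  red : IsRed 𝓐 M M₀ ρ
  T₀_open : IsOpen T₀
  mem_T₀ : σ.t₀ ∈ T₀
  KC_sub : σ.KC T₀ ⊆ 𝓐.A.dom
  Q1_sub : Disjoint (σ.Q1c T₀) Y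
  Q2_sub : Disjoint (σ.Q2c T₀) Y
  bdY : ∀ x ∈ σ.KC T₀, ‖σ.v x‖ = σ.Rv → x ∉ Y
  bd : ∀ x ∈ σ.KC T₀, ‖σ.v x‖ = σ.Rv → Subsingleton (M₀.St x)

/-- extension of the reduction: `M₀'` is a coherent sheaf near `KC T₀` which agrees (by `θ`) with
`M₀` near the closed shell, has no support for `‖v‖ = Rv`, and whose sections over `KO T` are the
sections of `M₀` over `Q1 T ∪ Q2 T`. -/
structure Ext0 (M₀ : EMod.{0, 0, w} (O V)) (σ : Sit V k d) (T₀ : Set (Fin k → ℂ))
    (M₀' : EMod.{0, 0, 0} (O V)) (θ : ∀ x, M₀'.St x → M₀.St x) : Prop where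
  coh : M₀'.Coh (σ.KC T₀)
  bd : ∀ x ∈ σ.KC T₀, ‖σ.v x‖ = σ.Rv → Subsingleton (M₀'.St x)
  add : ∀ x ∈ σ.Q1c T₀ ∪ σ.Q2c T₀, ∀ m m', θ x (m + m') = θ x m + θ x m'
  smul : ∀ x ∈ σ.Q1c T₀ ∪ σ.Q2c T₀, ∀ (a : (O V).St x) m, θ x (a • m) = a • θ x m
  bij : ∀ x ∈ σ.Q1c T₀ ∪ σ.Q2c T₀, Function.Bijective (θ x)
  at_map : ∀ s, ∀ x ∈ σ.Q1c T₀ ∪ σ.Q2c T₀, M₀'.At s x → M₀.At (fun y => θ y (s y)) x
  ext : ∀ T ⊆ T₀, IsOpen T → ∀ s, M₀.On s (σ.Q1 T ∪ σ.Q2 T) →
    ∃ s', M₀'.On s' (σ.KO T) ∧ ∀ x ∈ σ.Q1 T ∪ σ.Q2 T, θ x (s' x) = s x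
  inj : ∀ T ⊆ T₀, IsOpen T → ∀ s', M₀'.On s' (σ.KO T) → (∀ x ∈ σ.Q1 T ∪ σ.Q2 T, s' x = 0) →
    ∀ x ∈ σ.KO T, s' x = 0

/-- `y`, a section of `M₀` over `Q12 T`, is a difference of sections over `Q1 T` and `Q2 T`
(its class in `𝓗(T) = H¹(shell, M₀)` is zero) -/
def HZero (M₀ : EMod.{0, 0, w} (O V)) (σ : Sit V k d) (T : Set (Fin k → ℂ))
    (y : (x : V) → M₀.St x) : Prop :=
  ∃ y₁ y₂, M₀.On y₁ (σ.Q1 T) ∧ M₀.On y₂ (σ.Q2 T) ∧ ∀ x ∈ σ.Q12 T, y x = y₁ x - y₂ x

/-- pull back to `V` of a function of `t` -/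
def Sit.ft (σ : Sit V k d) (f : (Fin k → ℂ) → ℂ) : V → ℂ := fun x => f (σ.t x)

/-- structure of `𝓗(T) = H¹(shell, M₀)`: `𝓞(T)`-linear functionals `c i` (coefficients of the
tails) with values in `𝓞(T)`, and on the common kernel of the functionals a linear map `ν` to the
sections of a coherent sheaf `𝒩` on the `t`-space; both together are injective on `𝓗(T)`. -/
structure HX (M₀ : EMod.{0, 0, w} (O V)) (σ : Sit V k d) (T₀ : Set (Fin k → ℂ)) (ι : Type)
    (c : ι → ((x : V) → M₀.St x) → (Fin k → ℂ) → ℂ) (𝒩 : EMod.{0, 0, 0} (O (Fin k → ℂ)))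
    (ν : Set (Fin k → ℂ) → ((x : V) → M₀.St x) → (t : Fin k → ℂ) → 𝒩.St t) : Prop where
  cohN : 𝒩.Coh T₀
  c_hol : ∀ i, ∀ T ⊆ T₀, IsOpen T → ∀ y, M₀.On y (σ.Q12 T) → HolNear (c i y) T
  c_add : ∀ i, ∀ T ⊆ T₀, IsOpen T → ∀ y y', M₀.On y (σ.Q12 T) → M₀.On y' (σ.Q12 T) →
    ∀ t ∈ T, c i (fun x => y x + y' x) t = c i y t + c i y' t
  c_smul : ∀ i, ∀ T ⊆ T₀, IsOpen T → ∀ y, M₀.On y (σ.Q12 T) → ∀ f, HolNear f T →
    ∀ t ∈ T, c i (fun x => om (σ.ft f) x • y x) t = f t * c i y t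
  c_congr : ∀ i, ∀ T ⊆ T₀, IsOpen T → ∀ y y', M₀.On y (σ.Q12 T) → (∀ x ∈ σ.Q12 T, y x = y' x) →
    ∀ t ∈ T, c i y t = c i y' t
  c_zero : ∀ i, ∀ T ⊆ T₀, IsOpen T → ∀ y, M₀.On y (σ.Q12 T) → HZero M₀ σ T y →
    ∀ t ∈ T, c i y t = 0
  ν_on : ∀ T ⊆ T₀, IsOpen T → ∀ y, M₀.On y (σ.Q12 T) → (∀ i, ∀ t ∈ T, c i y t = 0) →
    𝒩.On (ν T y) T
  ν_add : ∀ T ⊆ T₀, IsOpen T → ∀ y y', M₀.On y (σ.Q12 T) → M₀.On y' (σ.Q12 T) →
    (∀ i, ∀ t ∈ T, c i y t = 0) → (∀ i, ∀ t ∈ T, c i y' t = 0) →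
    ∀ t ∈ T, ν T (fun x => y x + y' x) t = ν T y t + ν T y' t
  ν_smul : ∀ T ⊆ T₀, IsOpen T → ∀ y, M₀.On y (σ.Q12 T) → (∀ i, ∀ t ∈ T, c i y t = 0) →
    ∀ f, HolNear f T → ∀ t ∈ T, ν T (fun x => om (σ.ft f) x • y x) t = om f t • ν T y t
  ν_res : ∀ T ⊆ T₀, IsOpen T → ∀ T' ⊆ T, IsOpen T' → ∀ y, M₀.On y (σ.Q12 T) →
    (∀ i, ∀ t ∈ T, c i y t = 0) → ∀ t ∈ T', ν T' y t = ν T y t
  ν_congr : ∀ T ⊆ T₀, IsOpen T → ∀ y y', M₀.On y (σ.Q12 T) → (∀ x ∈ σ.Q12 T, y x = y' x) →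
    (∀ i, ∀ t ∈ T, c i y t = 0) → ∀ t ∈ T, ν T y t = ν T y' t
  ν_zero : ∀ T ⊆ T₀, IsOpen T → ∀ y, M₀.On y (σ.Q12 T) → HZero M₀ σ T y → ∀ t ∈ T, ν T y t = 0
  /-- injectivity, for polydiscs `T` whose closure is in `T₀` -/
  inj : ∀ P : σ.Pd, P.Tc ⊆ T₀ → ∀ y, M₀.On y (σ.Q12 P.T) → (∀ i, ∀ t ∈ P.T, c i y t = 0) →
    (∀ t ∈ P.T, ν P.T y t = 0) → HZero M₀ σ P.T y

/-- a section of `M₀` over `Q12 T` whose class vanishes after shrinking the outer radii has
vanishing class -/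
def HShrink (M₀ : EMod.{0, 0, w} (O V)) (σ : Sit V k d) (T₀ : Set (Fin k → ℂ)) : Prop :=
  ∀ (Rw' Rz' : ℝ) (hw : σ.rw < Rw') (hz : σ.rz < Rz'), Rw' ≤ σ.Rw → Rz' ≤ σ.Rz →
    ∀ P : σ.Pd, P.Tc ⊆ T₀ → ∀ y, M₀.On y (σ.Q12 P.T) →
      HZero M₀ (σ.shrink Rw' Rz' hw hz) P.T y → HZero M₀ σ P.T y

/-- `(x₁, x₂)` is a section over the shell modulo `ħ ^ m`, with `x₁ - x₂ = ħ ^ m y` -/
structure PK (M : EMod.{0, v, w} 𝓐.A) (σ : Sit V k d) (T : Set (Fin k → ℂ)) (m : ℕ)
    (x₁ x₂ y : (x : V) → M.St x) : Prop where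
  on₁ : M.On x₁ (σ.Q1 T)
  on₂ : M.On x₂ (σ.Q2 T)
  on_y : M.On y (σ.Q12 T)
  eq : ∀ x ∈ σ.Q12 T, x₁ x - x₂ x = 𝓐.hb x ^ m • y x

end MainDefs

end Pool.Agent.DQ
end

section

/-! The product sets of `Base3` (`Q1`, `Q2`, `Q12`, `KO`, `KC`, …) over polydiscs of the `t`-space are
boxes in the product coordinates `σ.kap κ`. -/

set_option autoImplicit false
set_option linter.unusedSectionVars false

open Set Filter Topology

universe u v w

namespace Pool.Agent.DQ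

/-- concatenation of coordinate vectors -/
noncomputable def appE (a b : ℕ) : ((Fin a → ℂ) × (Fin b → ℂ)) ≃L[ℂ] (Fin (a + b) → ℂ) :=
  LinearEquiv.toContinuousLinearEquiv
    { toFun := fun p => Fin.append p.1 p.2
      invFun := fun f => (fun i => f (Fin.castAdd b i), fun i => f (Fin.natAdd a i))
      map_add' := by
        intro p q
        funext i
        refine Fin.addCases (fun j => ?_) (fun j => ?_) i
        · simp [Fin.append_left]
        · simp [Fin.append_right]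
      map_smul' := by
        intro c p
        funext i
        refine Fin.addCases (fun j => ?_) (fun j => ?_) i
        · simp [Fin.append_left]
        · simp [Fin.append_right]
      left_inv := by
        intro p
        refine Prod.ext ?_ ?_
        · funext i; simp [Fin.append_left]
        · funext i; simp [Fin.append_right]
      right_inv := by
        intro f
        funext i
        refine Fin.addCases (fun j => ?_) (fun j => ?_) i
        · simp [Fin.append_left]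
        · simp [Fin.append_right] }

theorem appE_left {a b : ℕ} (p : (Fin a → ℂ) × (Fin b → ℂ)) (i : Fin a) :
    appE a b p (Fin.castAdd b i) = p.1 i := Fin.append_left _ _ _

theorem appE_right {a b : ℕ} (p : (Fin a → ℂ) × (Fin b → ℂ)) (i : Fin b) :
    appE a b p (Fin.natAdd a i) = p.2 i := Fin.append_right _ _ _

variable {V : Type} [NormedAddCommGroup V] [NormedSpace ℂ V] [FiniteDimensional ℂ V] {k d : ℕ}

namespace Sit

variable (σ : Sit V k d)

/-- product coordinates on `V`: first `κ (t x)` (`l` coordinates), then `w`, `z` (not centred), then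
`v` (not centred) -/
noncomputable def kap {l : ℕ} (κ : (Fin k → ℂ) ≃L[ℂ] (Fin l → ℂ)) :
    V ≃L[ℂ] (Fin (l + 2 + d) → ℂ) :=
  σ.e.trans ((((κ.prodCongr (ContinuousLinearEquiv.finTwoArrow ℂ ℂ).symm).trans
    (appE l 2)).prodCongr (ContinuousLinearEquiv.refl ℂ (Fin d → ℂ))).trans (appE (l + 2) d))

/-- index of a `t`-coordinate -/
def iT {l : ℕ} (i : Fin l) : Fin (l + 2 + d) := Fin.castAdd d (Fin.castAdd 2 i)
/-- index of the coordinate `w` -/
def iW {l : ℕ} : Fin (l + 2 + d) := Fin.castAdd d (Fin.natAdd l 0)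
/-- index of the coordinate `z` -/
def iZ {l : ℕ} : Fin (l + 2 + d) := Fin.castAdd d (Fin.natAdd l 1)
/-- index of a coordinate `v` -/
def iV {l : ℕ} (i : Fin d) : Fin (l + 2 + d) := Fin.natAdd (l + 2) i

theorem kap_T {l : ℕ} (κ : (Fin k → ℂ) ≃L[ℂ] (Fin l → ℂ)) (x : V) (i : Fin l) :
    σ.kap κ x (iT i) = κ (σ.t x) i := by
  simp only [kap, iT, ContinuousLinearEquiv.trans_apply, appE_left,
    ContinuousLinearEquiv.prodCongr_apply]
  rfl

theorem kap_W {l : ℕ} (κ : (Fin k → ℂ) ≃L[ℂ] (Fin l → ℂ)) (x : V) :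
    σ.kap κ x iW = (σ.e x).1.2.1 := by
  simp only [kap, iW, ContinuousLinearEquiv.trans_apply, appE_left, appE_right,
    ContinuousLinearEquiv.prodCongr_apply]
  rfl

theorem kap_Z {l : ℕ} (κ : (Fin k → ℂ) ≃L[ℂ] (Fin l → ℂ)) (x : V) :
    σ.kap κ x iZ = (σ.e x).1.2.2 := by
  simp only [kap, iZ, ContinuousLinearEquiv.trans_apply, appE_left, appE_right,
    ContinuousLinearEquiv.prodCongr_apply]
  rfl

theorem kap_V {l : ℕ} (κ : (Fin k → ℂ) ≃L[ℂ] (Fin l → ℂ)) (x : V) (i : Fin d) :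
    σ.kap κ x (iV i) = (σ.e x).2 i := by
  simp only [kap, iV, ContinuousLinearEquiv.trans_apply, appE_right,
    ContinuousLinearEquiv.prodCongr_apply]
  rfl

/-- a statement about all product coordinates -/
theorem forall_idx {l : ℕ} {P : Fin (l + 2 + d) → Prop} :
    (∀ i, P i) ↔ (∀ i, P (iT i)) ∧ P iW ∧ P iZ ∧ ∀ i, P (iV i) := by
  constructor
  · intro h
    exact ⟨fun i => h _, h _, h _, fun i => h _⟩
  · rintro ⟨h1, h2, h3, h4⟩ i
    refine Fin.addCases (fun j => ?_) (fun j => h4 j) i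
    refine Fin.addCases (fun j => h1 j) (fun j => ?_) j
    match j with
    | 0 => exact h2
    | 1 => exact h3

/-- vector of data indexed by the product coordinates -/
def vec {α : Type*} {l : ℕ} (a : Fin l → α) (b c : α) (e : Fin d → α) : Fin (l + 2 + d) → α :=
  Fin.append (Fin.append a ![b, c]) e

@[simp] theorem vec_T {α : Type*} {l : ℕ} (a : Fin l → α) (b c : α) (e : Fin d → α) (i : Fin l) :
    vec a b c e (iT i) = a i := by simp [vec, iT, Fin.append_left]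

@[simp] theorem vec_W {α : Type*} {l : ℕ} (a : Fin l → α) (b c : α) (e : Fin d → α) :
    vec a b c e iW = b := by
  rw [vec, iW, Fin.append_left, Fin.append_right]; rfl

@[simp] theorem vec_Z {α : Type*} {l : ℕ} (a : Fin l → α) (b c : α) (e : Fin d → α) :
    vec a b c e iZ = c := by
  rw [vec, iZ, Fin.append_left, Fin.append_right]; rfl

@[simp] theorem vec_V {α : Type*} {l : ℕ} (a : Fin l → α) (b c : α) (e : Fin d → α) (i : Fin d) :
    vec a b c e (iV i) = e i := by simp [vec, iV, Fin.append_right]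

/-- centre of the product boxes -/
noncomputable def cen {l : ℕ} (cT : Fin l → ℂ) : Fin (l + 2 + d) → ℂ :=
  vec cT (σ.e σ.y₀).1.2.1 (σ.e σ.y₀).1.2.2 (σ.e σ.y₀).2

theorem norm_lt_iff_v (x : V) (a : ℝ) (ha : 0 < a) :
    ‖σ.v x‖ < a ↔ ∀ i, -1 < ‖(σ.e x).2 i - (σ.e σ.y₀).2 i‖ ∧
      ‖(σ.e x).2 i - (σ.e σ.y₀).2 i‖ < a := by
  rw [pi_norm_lt_iff ha]
  exact forall_congr' fun i =>
    ⟨fun h => ⟨lt_of_lt_of_le (by norm_num) (norm_nonneg _), h⟩, fun h => h.2⟩

theorem norm_le_iff_v (x : V) (a : ℝ) (ha : 0 ≤ a) :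
    ‖σ.v x‖ ≤ a ↔ ∀ i, -1 ≤ ‖(σ.e x).2 i - (σ.e σ.y₀).2 i‖ ∧
      ‖(σ.e x).2 i - (σ.e σ.y₀).2 i‖ ≤ a := by
  rw [pi_norm_le_iff_of_nonneg ha]
  exact forall_congr' fun i =>
    ⟨fun h => ⟨le_trans (by norm_num) (norm_nonneg _), h⟩, fun h => h.2⟩

/-- `pr T W Z` is a box -/
theorem pr_eq_box {l : ℕ} (κ : (Fin k → ℂ) ≃L[ℂ] (Fin l → ℂ)) (cT : Fin l → ℂ) (rT RT : Fin l → ℝ)
    (a b a' b' : ℝ) :
    σ.pr (box κ cT rT RT) (ring 0 a b) (ring 0 a' b') =
      box (σ.kap κ) (σ.cen cT) (vec rT a a' fun _ => -1) (vec RT b b' fun _ => σ.Rv) := by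
  ext x
  show _ ↔ ∀ i, σ.kap κ x i ∈ ring (σ.cen cT i) ((vec rT a a' fun _ : Fin d => (-1 : ℝ)) i)
    ((vec RT b b' fun _ : Fin d => σ.Rv) i)
  rw [forall_idx]
  simp only [vec_T, vec_W, vec_Z, vec_V, kap_T, kap_W, kap_Z, kap_V, cen]
  constructor
  · rintro ⟨h1, h2, h3, h4⟩
    refine ⟨h1, ?_, ?_, ?_⟩
    · simpa [ring, w] using h2
    · simpa [ring, z] using h3
    · exact (σ.norm_lt_iff_v x _ σ.Rv_pos).1 h4
  · rintro ⟨h1, h2, h3, h4⟩
    refine ⟨h1, ?_, ?_, ?_⟩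
    · simpa [ring, w] using h2
    · simpa [ring, z] using h3
    · exact (σ.norm_lt_iff_v x _ σ.Rv_pos).2 h4

/-- `prc T W Z` is a closed box -/
theorem prc_eq_cbox {l : ℕ} (κ : (Fin k → ℂ) ≃L[ℂ] (Fin l → ℂ)) (cT : Fin l → ℂ)
    (rT RT : Fin l → ℝ) (a b a' b' : ℝ) :
    σ.prc (cbox κ cT rT RT) (cring 0 a b) (cring 0 a' b') =
      cbox (σ.kap κ) (σ.cen cT) (vec rT a a' fun _ => -1) (vec RT b b' fun _ => σ.Rv) := by
  ext x
  show _ ↔ ∀ i, σ.kap κ x i ∈ cring (σ.cen cT i) ((vec rT a a' fun _ : Fin d => (-1 : ℝ)) i)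
    ((vec RT b b' fun _ : Fin d => σ.Rv) i)
  rw [forall_idx]
  simp only [vec_T, vec_W, vec_Z, vec_V, kap_T, kap_W, kap_Z, kap_V, cen]
  constructor
  · rintro ⟨h1, h2, h3, h4⟩
    refine ⟨h1, ?_, ?_, ?_⟩
    · simpa [cring, w] using h2
    · simpa [cring, z] using h3
    · exact (σ.norm_le_iff_v x _ σ.Rv_pos.le).1 h4
  · rintro ⟨h1, h2, h3, h4⟩
    refine ⟨h1, ?_, ?_, ?_⟩
    · simpa [cring, w] using h2
    · simpa [cring, z] using h3
    · exact (σ.norm_le_iff_v x _ σ.Rv_pos.le).2 h4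

theorem goodRadii_vec {l : ℕ} {rT RT : Fin l → ℝ} (h : GoodRadii rT RT) {a b a' b' : ℝ}
    (h1 : a ≠ 0) (h2 : a < b) (h3 : 0 < b) (h1' : a' ≠ 0) (h2' : a' < b') (h3' : 0 < b') :
    GoodRadii (vec rT a a' fun _ : Fin d => -1) (vec RT b b' fun _ => σ.Rv) := by
  intro i
  revert i
  rw [forall_idx]
  simp only [vec_T, vec_W, vec_Z, vec_V]
  exact ⟨h, ⟨h1, h2, h3⟩, ⟨h1', h2', h3'⟩, fun i =>
    ⟨by norm_num, lt_trans (by norm_num) σ.Rv_pos, σ.Rv_pos⟩⟩

end Sit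

end Pool.Agent.DQ
end

section

/-! Campaign DQ, module M12: interface between the blocks (e) (sheaves `ker Q`, `ker Q' / im Q`,
the isomorphism `Lam`), (f) and (g). All base coordinates are the uncentred ones of
`Bs k = (t, w, z)`; the rings have the centres `σ.bw`, `σ.bz`. -/

set_option autoImplicit false
set_option linter.unusedSectionVars false

open Set Filter Topology Matrix

universe u v w

namespace Pool.Agent.DQ

variable {V : Type} [NormedAddCommGroup V] [NormedSpace ℂ V] [FiniteDimensional ℂ V] {k d : ℕ}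

/-- the `w`-coordinate of the centre -/
noncomputable def Sit.bw (σ : Sit V k d) : ℂ := (σ.e σ.y₀).1.2.1

/-- the `z`-coordinate of the centre -/
noncomputable def Sit.bz (σ : Sit V k d) : ℂ := (σ.e σ.y₀).1.2.2

/-- the part of `V` over the set `S` of base points -/
def Sit.reg (σ : Sit V k d) (S : Set (Bs k)) : Set V := {x | (σ.e x).1 ∈ S ∧ ‖σ.v x‖ < σ.Rv}

/-- products in the base: `t ∈ T`, `r₁ < |w - w₀| < R₁`, `r₂ < |z - z₀| < R₂` -/
def Sit.bx (σ : Sit V k d) (T : Set (Fin k → ℂ)) (r₁ R₁ r₂ R₂ : ℝ) : Set (Bs k) :=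
  T ×ˢ ring σ.bw r₁ R₁ ×ˢ ring σ.bz r₂ R₂

namespace M12

/-- the shell in the base -/
def shell (σ : Sit V k d) (T : Set (Fin k → ℂ)) (jw jw' jz jz' : ℝ) : Set (Bs k) :=
  σ.bx T jw jw' (-1) jz' ∪ σ.bx T (-1) jw' jz jz'

/-- the matrices `Q`, `Q'` over `T₀ × disc × disc`: a complex which is exact on the shell, and the
isomorphism `Lam` of `M₀` over the shell with the kernel of `Q` -/
structure LamData (M₀ : EMod.{0, 0, w} (O V)) (σ : Sit V k d) (T₀ : Set (Fin k → ℂ))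
    (jw jw' jz jz' : ℝ) {m N N' : ℕ} (Q : Bs k → Matrix (Fin N) (Fin m) ℂ)
    (Q' : Bs k → Matrix (Fin N') (Fin N) ℂ)
    (Lam : ((x : V) → M₀.St x) → Bs k → Fin m → ℂ) : Prop where
  T₀_open : IsOpen T₀
  jw_pos : 0 < jw
  jw_lt : jw < jw'
  jz_pos : 0 < jz
  jz_lt : jz < jz'
  Q_hol : MHol Q (σ.bx T₀ (-1) jw' (-1) jz')
  Q'_hol : MHol Q' (σ.bx T₀ (-1) jw' (-1) jz')
  comp : ∀ b ∈ σ.bx T₀ (-1) jw' (-1) jz', Q' b * Q b = 0
  exact : ∀ b ∈ shell σ T₀ jw jw' jz jz', ∀ q : Fin N → (O (Bs k)).St b,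
    (∀ i, ∑ j, om (fun b => Q' b i j) b * q j = 0) →
    ∃ u : Fin m → (O (Bs k)).St b, ∀ j, q j = ∑ l, om (fun b => Q b j l) b * u l
  hol : ∀ S ⊆ shell σ T₀ jw jw' jz jz', IsOpen S → ∀ y, M₀.On y (σ.reg S) →
    ∀ l, HolNear (fun b => Lam y b l) S
  add : ∀ S ⊆ shell σ T₀ jw jw' jz jz', IsOpen S → ∀ y y', M₀.On y (σ.reg S) →
    M₀.On y' (σ.reg S) → ∀ b ∈ S, Lam (fun x => y x + y' x) b = Lam y b + Lam y' b
  smul : ∀ S ⊆ shell σ T₀ jw jw' jz jz', IsOpen S → ∀ y, M₀.On y (σ.reg S) → ∀ f,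
    HolNear f S → ∀ b ∈ S, Lam (fun x => om (fun x => f (σ.e x).1) x • y x) b = f b • Lam y b
  congr : ∀ S ⊆ shell σ T₀ jw jw' jz jz', IsOpen S → ∀ y y', M₀.On y (σ.reg S) →
    (∀ x ∈ σ.reg S, y x = y' x) → ∀ b ∈ S, Lam y b = Lam y' b
  ker : ∀ S ⊆ shell σ T₀ jw jw' jz jz', IsOpen S → ∀ y, M₀.On y (σ.reg S) →
    ∀ b ∈ S, Q b *ᵥ Lam y b = 0
  inj : ∀ S ⊆ shell σ T₀ jw jw' jz jz', IsOpen S → ∀ y, M₀.On y (σ.reg S) →
    (∀ b ∈ S, Lam y b = 0) → ∀ x ∈ σ.reg S, y x = 0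
  surj : ∀ S ⊆ shell σ T₀ jw jw' jz jz', IsOpen S → ∀ u : Bs k → Fin m → ℂ,
    (∀ l, HolNear (fun b => u b l) S) → (∀ b ∈ S, Q b *ᵥ u b = 0) →
    ∃ y, M₀.On y (σ.reg S) ∧ ∀ b ∈ S, Lam y b = u b

end M12

end Pool.Agent.DQ
end

section

/-! M0: from good coordinates to the standing assumptions of the main argument. -/

set_option autoImplicit false
set_option linter.unusedSectionVars false

open Set Filter Topology

universe u v w w'

namespace Pool.Agent.DQ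

variable {V : Type} [NormedAddCommGroup V] [NormedSpace ℂ V] [FiniteDimensional ℂ V] {k d : ℕ}
  {𝓐 : Defo.{0, v} V} {M : EMod.{0, v, w} 𝓐.A} {M₀ : EMod.{0, 0, w} (O V)}
  {ρ : ∀ x, M.St x → M₀.St x} {Y : Set V}

/-- the closed set of the good coordinates contains `KC T₀` -/
theorem Sit.KC_sub_KK {y₀ : V} {e : V ≃L[ℂ] Bs k × (Fin d → ℂ)} {τ Rw Rz Rv : ℝ}
    (σ : Sit V k d) (he : σ.e = e) (hy : σ.y₀ = y₀) (hRw : σ.Rw ≤ Rw) (hRz : σ.Rz ≤ Rz)
    (hRv : σ.Rv ≤ Rv) (T₀ : Set (Fin k → ℂ)) (hT₀ : T₀ ⊆ Metric.ball σ.t₀ τ) :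
    σ.KC T₀ ⊆ KK e y₀ τ Rw Rz Rv := by
  subst he hy
  rintro x ⟨h1, h2, h3, h4⟩
  have h5 := hT₀ h1
  rw [mem_ball_iff_norm] at h5
  have h2' := h2.2
  have h3' := h3.2
  rw [sub_zero] at h2' h3'
  exact ⟨h5.le, h2'.trans hRw, h3'.trans hRz, h4.trans hRv⟩

theorem main_of_good' {y₀ : V} (hdom : M.dom = 𝓐.A.dom \ Y)
    (hM : DRefl 𝓐 d M M.dom) (hred : IsRed 𝓐 M M₀ ρ) {e : V ≃L[ℂ] Bs k × (Fin d → ℂ)}
    {τ rw Rw rz Rz Rv : ℝ} {rk : ℕ} {dir : Fin k → ℂ}
    (h : GoodCoord d M₀ Y y₀ 𝓐.A.dom k e τ rw Rw rz Rz Rv rk dir)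
    (σ : Sit V k d) (he : σ.e = e) (hy : σ.y₀ = y₀) (hrw : rw ≤ σ.rw) (hRw : σ.Rw ≤ Rw)
    (hrz : rz ≤ σ.rz) (hRz : σ.Rz ≤ Rz) (hRv : σ.Rv = Rv) (T₀ : Set (Fin k → ℂ))
    (hTo : IsOpen T₀) (hT : σ.t₀ ∈ T₀) (hT₀ : T₀ ⊆ Metric.ball σ.t₀ τ) :
    Main 𝓐 M M₀ ρ Y σ T₀ := by
  have hK := σ.KC_sub_KK he hy hRw hRz hRv.le T₀ hT₀
  subst he hy hRv
  have hQ1 : σ.Q1c T₀ ⊆ σ.KC T₀ := fun x hx =>
    ⟨hx.1, ⟨by linarith [norm_nonneg (σ.w x - 0)], hx.2.1.2⟩, hx.2.2⟩
  have hQ2 : σ.Q2c T₀ ⊆ σ.KC T₀ := fun x hx =>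
    ⟨hx.1, hx.2.1, ⟨by linarith [norm_nonneg (σ.z x - 0)], hx.2.2.1.2⟩, hx.2.2.2⟩
  exact
    { dom := hdom
      refl := hM
      red := hred
      T₀_open := hTo
      mem_T₀ := hT
      KC_sub := hK.trans h.sub
      Q1_sub := by
        rw [disjoint_left]
        intro x hx hxY
        have h1 := (h.Ymiss x (hK (hQ1 hx)) hxY).1
        have h2 := hx.2.1.1
        rw [sub_zero] at h2
        exact absurd h1 (not_lt.2 (hrw.trans h2))
      Q2_sub := by
        rw [disjoint_left]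
        intro x hx hxY
        have h1 := (h.Ymiss x (hK (hQ2 hx)) hxY).2.1
        have h2 := hx.2.2.1.1
        rw [sub_zero] at h2
        exact absurd h1 (not_lt.2 (hrz.trans h2))
      bdY := by
        intro x hx hv hxY
        exact absurd (h.Ymiss x (hK hx) hxY).2.2 (not_lt.2 hv.ge)
      bd := fun x hx hv => h.zero x (hK hx) hv }

theorem ydir_of_good {y₀ : V} {e : V ≃L[ℂ] Bs k × (Fin d → ℂ)}
    {τ rw Rw rz Rz Rv : ℝ} {rk : ℕ} {dir : Fin k → ℂ}
    (h : GoodCoord d M₀ Y y₀ 𝓐.A.dom k e τ rw Rw rz Rz Rv rk dir)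
    (σ : Sit V k d) (he : σ.e = e) (hy : σ.y₀ = y₀) (hRw : σ.Rw ≤ Rw)
    (hRz : σ.Rz ≤ Rz) (hRv : σ.Rv = Rv) (T₀ : Set (Fin k → ℂ))
    (hT₀ : T₀ ⊆ Metric.ball σ.t₀ τ) :
    ∀ x ∈ σ.KC T₀, ∀ a : ℂ, σ.t x = σ.t₀ + a • dir → a ≠ 0 → x ∉ Y := by
  have hK := σ.KC_sub_KK he hy hRw hRz hRv.le T₀ hT₀
  subst he hy hRv
  exact fun x hx a ha ha0 => h.Ydir x (hK hx) a ha ha0

end Pool.Agent.DQ
end

section

/-! # DQ, module H: Cauchy formula -/

set_option autoImplicit false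

open Set Filter Topology

universe u

namespace Pool.Agent.DQ.H

variable {V : Type u} [NormedAddCommGroup V] [NormedSpace ℂ V] {n : ℕ}
  {κ : V ≃L[ℂ] (Fin n → ℂ)} {c : Fin n → ℂ} {r R : Fin n → ℝ} {i : Fin n} {Q : Set V}

/-- Cauchy's formula

Proof. `pj_zero`-type computation is not needed: `g ζ = f (C.upd κ i (ζ, x))` is differentiable on the open disc of radius `R i` (composition of `f` with the holomorphic map `C.differentiable_upd`), which contains the closed disc of radius `rad … x`, and `κ x i` is in the open disc of radius `rad … x`; `DiffContOnCl.circleIntegral_sub_inv_smul` (or `Complex.circleIntegral_sub_inv_smul_of_differentiable_on_off_countable`) and `C.upd κ i (κ x i, x) = x` (`C.ext_coord`). -/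
theorem pj_eq (h0 : 0 < r i) (hr : r i < R i)
    (hQ : ∀ (x : V) (ζ : ℂ), C.upd κ i (ζ, x) ∈ Q ↔ x ∈ Q) {f : V → ℂ}
    (hf : HolNear f (dreg κ c R i Q)) {x : V} (hx : x ∈ dreg κ c R i Q) :
    pj κ c r R i f x = f x := by
  obtain ⟨hxQ, hxR⟩ := hx
  have hm : max (r i) ‖κ x i - c i‖ < R i := max_lt hr hxR
  have h1 : r i ≤ max (r i) ‖κ x i - c i‖ := le_max_left _ _
  have h2 : ‖κ x i - c i‖ ≤ max (r i) ‖κ x i - c i‖ := le_max_right _ _
  have hrad : rad κ c r R i x = (max (r i) ‖κ x i - c i‖ + R i) / 2 := rfl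
  have hlt : rad κ c r R i x < R i := by rw [hrad]; linarith
  have hlt2 : ‖κ x i - c i‖ < rad κ c r R i x := by rw [hrad]; linarith
  have hd : DifferentiableOn ℂ (fun ζ : ℂ => f (C.upd κ i (ζ, x))) (Metric.ball (c i) (R i)) := by
    intro ζ hζ
    have h3 : C.upd κ i (ζ, x) ∈ dreg κ c R i Q := by
      refine ⟨(hQ x ζ).mpr hxQ, ?_⟩
      rw [C.upd_same]
      exact mem_ball_iff_norm.mp hζ
    have h4 : Differentiable ℂ (fun ζ : ℂ => C.upd κ i (ζ, x)) :=
      (C.differentiable_upd κ i).comp (differentiable_id.prodMk (differentiable_const _))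
    exact ((hf _ h3).differentiableAt.comp ζ (h4 ζ)).differentiableWithinAt
  have hc : DiffContOnCl ℂ (fun ζ : ℂ => f (C.upd κ i (ζ, x)))
      (Metric.ball (c i) (rad κ c r R i x)) := by
    refine DifferentiableOn.diffContOnCl (hd.mono ?_)
    exact Metric.closure_ball_subset_closedBall.trans (Metric.closedBall_subset_ball hlt)
  have hk := hc.circleIntegral_sub_inv_smul (w := κ x i) (mem_ball_iff_norm.mpr hlt2)
  have hx' : C.upd κ i (κ x i, x) = x := by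
    refine C.ext_coord κ fun j => ?_
    by_cases hj : j = i
    · subst hj
      rw [C.upd_same]
    · rw [C.upd_ne κ i _ hj]
  simp only [smul_eq_mul] at hk
  unfold pj
  rw [hk, hx']
  have h5 : (2 * (Real.pi : ℂ) * Complex.I) ≠ 0 := Complex.two_pi_I_ne_zero
  field_simp

end Pool.Agent.DQ.H
end

section

/-! # DQ, module H: coverings of Hartogs figures and shells -/

set_option autoImplicit false

open Set Filter Topology Matrix

universe u v w

namespace Pool.Agent.DQ.H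

variable {V : Type u} [NormedAddCommGroup V] [NormedSpace ℂ V] {n : ℕ}

/-- the covering of a Hartogs figure

Proof. `Q_open`: finitely many open conditions. `Q_stab`: `C.upd_ne` (the indices `j ∉ S` are different from `i ∈ S`). -/
def covH (κ : V ≃L[ℂ] (Fin n → ℂ)) (c : Fin n → ℂ) (R : Fin n → ℝ) (S : Finset (Fin n))
    (r : Fin n → ℝ) (c' : Fin n → ℂ) (R' : Fin n → ℝ) (h : HFig c R S r c' R') : CovD V n where
  κ := κ
  c := c
  R := R
  S := S
  r := r
  Q := {x | ∀ i ∉ S, ‖κ x i - c' i‖ < R' i}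
  R_pos := h.R_pos
  r_pos := h.r_pos
  Q_open := by
    have h1 : {x : V | ∀ i ∉ S, ‖κ x i - c' i‖ < R' i} =
        ⋂ i, {x : V | i ∉ S → ‖κ x i - c' i‖ < R' i} := by
      ext x
      simp only [mem_setOf_eq, mem_iInter]
    rw [h1]
    refine isOpen_iInter_of_finite (fun i => ?_)
    by_cases hi : i ∈ S
    · have h2 : {x : V | i ∉ S → ‖κ x i - c' i‖ < R' i} = univ := by
        ext x
        simp only [mem_setOf_eq, mem_univ, iff_true]
        exact fun h => absurd hi h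
      rw [h2]
      exact isOpen_univ
    · have h2 : {x : V | i ∉ S → ‖κ x i - c' i‖ < R' i} = {x : V | ‖κ x i - c' i‖ < R' i} := by
        ext x
        simp only [mem_setOf_eq]
        exact ⟨fun h => h hi, fun h _ => h⟩
      rw [h2]
      have h3 : Continuous fun x : V => ‖κ x i - c' i‖ :=
        (((continuous_apply i).comp κ.continuous).sub continuous_const).norm
      exact isOpen_lt h3 continuous_const
  Q_stab := by
    intro i hi x ζ
    simp only [mem_setOf_eq]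
    refine forall_congr' fun j => forall_congr' fun hj => ?_
    have hji : j ≠ i := by
      rintro rfl
      exact hj hi
    rw [C.upd_ne κ i (ζ, x) hji]

/-- the covering of a shell -/
def covS (κ : V ≃L[ℂ] (Fin n → ℂ)) (c : Fin n → ℂ) (R : Fin n → ℝ) (S : Finset (Fin n))
    (r : Fin n → ℝ) (hR : ∀ i, 0 < R i) (hr : ∀ i ∈ S, 0 < r i ∧ r i < R i) : CovD V n where
  κ := κ
  c := c
  R := R
  S := S
  r := r
  Q := ∅
  R_pos := hR
  r_pos := hr
  Q_open := isOpen_empty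
  Q_stab := fun _ _ _ _ => Iff.rfl

end Pool.Agent.DQ.H
end

section

/-! # DQ, module H: the members of the coverings are boxes -/

set_option autoImplicit false

open Set Filter Topology Matrix

universe u v w

namespace Pool.Agent.DQ.H

variable {V : Type u} [NormedAddCommGroup V] [NormedSpace ℂ V] {n : ℕ}
  {κ : V ≃L[ℂ] (Fin n → ℂ)} {c : Fin n → ℂ} {R : Fin n → ℝ} {S : Finset (Fin n)}
  {r : Fin n → ℝ} {c' : Fin n → ℂ} {R' : Fin n → ℝ}

/-- Proof. If `T` contains `↑i` with `i ∉ S` then the set is empty (`CovD.U_eq_empty`). Otherwise it is `box κ c'' r'' R''` with `c'' i = if i ∉ S ∧ ⊥ ∈ T then c' i else c i`, `R'' i = if i ∉ S ∧ ⊥ ∈ T then R' i else R i`, `r'' i = if ↑i ∈ T then r i else -1`. `cbox κ c'' r'' R'' ⊆ cbox κ c (-1) R`: for `i ∉ S` a closed ball of positive radius `R' i` is the closure of the open ball (`closure_ball`), which is contained in `Metric.ball (c i) (R i)` by `h.ball`. -/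
theorem covH_boxy (h : HFig c R S r c' R') (T : Finset (WithBot (Fin n))) :
    Boxy κ (cbox κ c (-1) R) ((covH κ c R S r c' R' h).U T) := by
  classical
  by_cases hT : ∃ i : Fin n, i ∉ S ∧ (i : WithBot (Fin n)) ∈ T
  · obtain ⟨i, hi, hiT⟩ := hT
    exact Or.inl (CovD.U_eq_empty _ hi hiT)
  push Not at hT
  have hTS : ∀ i : Fin n, (i : WithBot (Fin n)) ∈ T → i ∈ S := by
    intro i hi
    by_contra hc
    exact hT i hc hi
  refine Or.inr ⟨fun i => if i ∉ S ∧ ⊥ ∈ T then c' i else c i,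
    fun i => if (i : WithBot (Fin n)) ∈ T then r i else -1,
    fun i => if i ∉ S ∧ ⊥ ∈ T then R' i else R i, ?_, ?_, ?_⟩
  · ext x
    constructor
    · rintro ⟨h1, h2, h3⟩ i
      show (if (i : WithBot (Fin n)) ∈ T then r i else -1) <
        ‖κ x i - (if i ∉ S ∧ ⊥ ∈ T then c' i else c i)‖ ∧
        ‖κ x i - (if i ∉ S ∧ ⊥ ∈ T then c' i else c i)‖ < (if i ∉ S ∧ ⊥ ∈ T then R' i else R i)
      by_cases hs : i ∉ S ∧ ⊥ ∈ T
      · rw [if_pos hs, if_pos hs, if_neg (fun h4 => hs.1 (hTS i h4))]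
        refine ⟨?_, h2 hs.2 i hs.1⟩
        have := norm_nonneg (κ x i - c' i)
        linarith
      · rw [if_neg hs, if_neg hs]
        refine ⟨?_, h1 i⟩
        by_cases hi : (i : WithBot (Fin n)) ∈ T
        · rw [if_pos hi]; exact (h3 i hi).2
        · rw [if_neg hi]
          have := norm_nonneg (κ x i - c i)
          linarith
    · intro hx
      have hx' : ∀ i : Fin n, (if (i : WithBot (Fin n)) ∈ T then r i else -1) <
        ‖κ x i - (if i ∉ S ∧ ⊥ ∈ T then c' i else c i)‖ ∧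
        ‖κ x i - (if i ∉ S ∧ ⊥ ∈ T then c' i else c i)‖ <
          (if i ∉ S ∧ ⊥ ∈ T then R' i else R i) := hx
      refine ⟨fun i => ?_, fun hb i hi => ?_, fun i hi => ⟨hTS i hi, ?_⟩⟩
      · have h1 := (hx' i).2
        by_cases hs : i ∉ S ∧ ⊥ ∈ T
        · rw [if_pos hs, if_pos hs] at h1
          have h2 : κ x i ∈ Metric.ball (c' i) (R' i) := by
            rw [Metric.mem_ball, dist_eq_norm]; exact h1
          have h3 := (h.ball i hs.1).2 h2
          rw [Metric.mem_ball, dist_eq_norm] at h3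
          exact h3
        · rw [if_neg hs, if_neg hs] at h1
          exact h1
      · have h1 := (hx' i).2
        rw [if_pos ⟨hi, hb⟩, if_pos ⟨hi, hb⟩] at h1
        exact h1
      · have h1 := (hx' i).1
        rw [if_pos hi, if_neg (fun hs => hs.1 (hTS i hi))] at h1
        exact h1
  · intro x hx i
    have hx' : ‖κ x i - (if i ∉ S ∧ ⊥ ∈ T then c' i else c i)‖ ≤
          (if i ∉ S ∧ ⊥ ∈ T then R' i else R i) := (hx i).2
    show (-1 : ℝ) ≤ ‖κ x i - c i‖ ∧ ‖κ x i - c i‖ ≤ R i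
    refine ⟨by have := norm_nonneg (κ x i - c i); linarith, ?_⟩
    by_cases hs : i ∉ S ∧ ⊥ ∈ T
    · rw [if_pos hs, if_pos hs] at hx'
      have h2 : κ x i ∈ Metric.closedBall (c' i) (R' i) := by
        rw [Metric.mem_closedBall, dist_eq_norm]; exact hx'
      rw [← closure_ball (c' i) (h.ball i hs.1).1.ne'] at h2
      have h3 := Metric.closure_ball_subset_closedBall (closure_mono (h.ball i hs.1).2 h2)
      rw [Metric.mem_closedBall, dist_eq_norm] at h3
      exact h3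
    · rw [if_neg hs, if_neg hs] at hx'
      exact hx'
  · intro i
    show (if (i : WithBot (Fin n)) ∈ T then r i else -1) ≠ 0 ∧
      (if (i : WithBot (Fin n)) ∈ T then r i else -1) < (if i ∉ S ∧ ⊥ ∈ T then R' i else R i) ∧
      0 < (if i ∉ S ∧ ⊥ ∈ T then R' i else R i)
    have hpos : 0 < (if i ∉ S ∧ ⊥ ∈ T then R' i else R i) := by
      by_cases hs : i ∉ S ∧ ⊥ ∈ T
      · rw [if_pos hs]; exact (h.ball i hs.1).1
      · rw [if_neg hs]; exact h.R_pos i
    by_cases hi : (i : WithBot (Fin n)) ∈ T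
    · have hs : ¬ (i ∉ S ∧ ⊥ ∈ T) := fun hs => hs.1 (hTS i hi)
      rw [if_pos hi, if_neg hs]
      exact ⟨(h.r_pos i (hTS i hi)).1.ne', (h.r_pos i (hTS i hi)).2, h.R_pos i⟩
    · rw [if_neg hi]
      exact ⟨by norm_num, by linarith, hpos⟩

/-- Proof. Similar and simpler: if `⊥ ∈ T` then the set is empty. -/
theorem covS_boxy (hR : ∀ i, 0 < R i) (hr : ∀ i ∈ S, 0 < r i ∧ r i < R i)
    (T : Finset (WithBot (Fin n))) :
    Boxy κ (cbox κ c (-1) R) ((covS κ c R S r hR hr).U T) := by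
  classical
  by_cases hT : ∃ i : Fin n, i ∉ S ∧ (i : WithBot (Fin n)) ∈ T
  · obtain ⟨i, hi, hiT⟩ := hT
    exact Or.inl (CovD.U_eq_empty _ hi hiT)
  push Not at hT
  have hTS : ∀ i : Fin n, (i : WithBot (Fin n)) ∈ T → i ∈ S := by
    intro i hi
    by_contra hc
    exact hT i hc hi
  by_cases hb : (⊥ : WithBot (Fin n)) ∈ T
  · left
    ext x
    constructor
    · rintro ⟨-, h2, -⟩
      exact h2 hb
    · intro hx
      exact hx.elim
  refine Or.inr ⟨c, fun i => if (i : WithBot (Fin n)) ∈ T then r i else -1, R, ?_, ?_, ?_⟩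
  · ext x
    constructor
    · rintro ⟨h1, h2, h3⟩ i
      show (if (i : WithBot (Fin n)) ∈ T then r i else -1) < ‖κ x i - c i‖ ∧ ‖κ x i - c i‖ < R i
      refine ⟨?_, h1 i⟩
      by_cases hi : (i : WithBot (Fin n)) ∈ T
      · rw [if_pos hi]; exact (h3 i hi).2
      · rw [if_neg hi]
        have := norm_nonneg (κ x i - c i)
        linarith
    · intro hx
      have hx' : ∀ i : Fin n, (if (i : WithBot (Fin n)) ∈ T then r i else -1) < ‖κ x i - c i‖ ∧
        ‖κ x i - c i‖ < R i := hx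
      refine ⟨fun i => (hx' i).2, fun h => absurd h hb, fun i hi => ⟨hTS i hi, ?_⟩⟩
      have h1 := (hx' i).1
      rw [if_pos hi] at h1
      exact h1
  · intro x hx i
    show (-1 : ℝ) ≤ ‖κ x i - c i‖ ∧ ‖κ x i - c i‖ ≤ R i
    exact ⟨by have := norm_nonneg (κ x i - c i); linarith, (hx i).2⟩
  · intro i
    show (if (i : WithBot (Fin n)) ∈ T then r i else -1) ≠ 0 ∧
      (if (i : WithBot (Fin n)) ∈ T then r i else -1) < R i ∧ 0 < R i
    by_cases hi : (i : WithBot (Fin n)) ∈ T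
    · rw [if_pos hi]
      exact ⟨(hr i (hTS i hi)).1.ne', (hr i (hTS i hi)).2, hR i⟩
    · rw [if_neg hi]
      have := hR i
      exact ⟨by norm_num, by linarith, hR i⟩

end Pool.Agent.DQ.H
end

section

/-! # DQ, module H: points of the coverings -/

set_option autoImplicit false

open Set Filter Topology Matrix

universe u v w

namespace Pool.Agent.DQ.H

variable {V : Type u} [NormedAddCommGroup V] [NormedSpace ℂ V] {n : ℕ}
  {κ : V ≃L[ℂ] (Fin n → ℂ)} {c : Fin n → ℂ} {R : Fin n → ℝ} {S : Finset (Fin n)}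
  {r : Fin n → ℝ} {c' : Fin n → ℂ} {R' : Fin n → ℝ}

/-- Proof. the point with coordinates `c i + (r i + R i) / 2` for `i ∈ S` and `c' i` for `i ∉ S`. -/
theorem covH_nonempty (h : HFig c R S r c' R') :
    ((covH κ c R S r c' R' h).U (insert ⊥ (covH κ c R S r c' R' h).S')).Nonempty := by
  classical
  refine ⟨κ.symm (fun i => if i ∈ S then c i + ((r i + R i) / 2 : ℝ) else c' i), ?_, ?_, ?_⟩
  · intro i
    change ‖κ (κ.symm _) i - c i‖ < R i
    rw [ContinuousLinearEquiv.apply_symm_apply]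
    by_cases hi : i ∈ S
    · obtain ⟨h1, h2⟩ := h.r_pos i hi
      rw [if_pos hi, add_sub_cancel_left, Complex.norm_real, Real.norm_eq_abs,
        abs_of_pos (by linarith)]
      linarith
    · obtain ⟨h1, h2⟩ := h.ball i hi
      rw [if_neg hi, ← dist_eq_norm]
      exact h2 (Metric.mem_ball_self h1)
  · intro _ i hi
    change ‖κ (κ.symm _) i - c' i‖ < R' i
    rw [ContinuousLinearEquiv.apply_symm_apply, if_neg hi, sub_self, norm_zero]
    exact (h.ball i hi).1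
  · intro i hi
    have hi' : i ∈ S := by
      rcases Finset.mem_insert.mp hi with h1 | h1
      · exact absurd h1 WithBot.coe_ne_bot
      · obtain ⟨j, hj, h2⟩ := Finset.mem_image.mp h1
        have : j = i := WithBot.coe_injective h2
        rw [← this]
        exact hj
    refine ⟨hi', ?_⟩
    change r i < ‖κ (κ.symm _) i - c i‖
    obtain ⟨h1, h2⟩ := h.r_pos i hi'
    rw [ContinuousLinearEquiv.apply_symm_apply, if_pos hi', add_sub_cancel_left,
      Complex.norm_real, Real.norm_eq_abs, abs_of_pos (by linarith)]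
    linarith

/-- the members of the covering cover the Hartogs figure

Proof. `hfig` has two alternatives: `j = ↑i` with `i ∈ S`, or `j = ⊥` (`mem_box_neg`, `WithBot` elements: `WithBot.recBotCoe` / `cases j`). -/
theorem covH_mem (h : HFig c R S r c' R') {x : V} :
    x ∈ hfig κ c R S r c' R' ↔ ∃ j, x ∈ (covH κ c R S r c' R' h).U {j} := by
  constructor
  · rintro ⟨h1, ⟨i, hi, h2⟩ | h2⟩
    · refine ⟨(i : WithBot (Fin n)), mem_box_neg.mp h1, ?_, ?_⟩
      · intro h3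
        exact absurd (Finset.mem_singleton.mp h3).symm WithBot.coe_ne_bot
      · intro j hj
        have : j = i := WithBot.coe_injective (Finset.mem_singleton.mp hj)
        rw [this]
        exact ⟨hi, h2⟩
    · refine ⟨⊥, mem_box_neg.mp h1, fun _ => h2, ?_⟩
      intro j hj
      exact absurd (Finset.mem_singleton.mp hj) WithBot.coe_ne_bot
  · rintro ⟨j, h1, h2, h3⟩
    refine ⟨mem_box_neg.mpr h1, ?_⟩
    cases j using WithBot.recBotCoe with
    | bot => exact Or.inr (h2 (Finset.mem_singleton_self _))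
    | coe i =>
      obtain ⟨h4, h5⟩ := h3 i (Finset.mem_singleton_self _)
      exact Or.inl ⟨i, h4, h5⟩

theorem covS_mem (hR : ∀ i, 0 < R i) (hr : ∀ i ∈ S, 0 < r i ∧ r i < R i) {x : V} :
    x ∈ shell κ c R S r ↔ ∃ j, x ∈ (covS κ c R S r hR hr).U {j} := by
  constructor
  · rintro ⟨h1, i, hi, h2⟩
    refine ⟨(i : WithBot (Fin n)), mem_box_neg.mp h1, ?_, ?_⟩
    · intro h3
      exact absurd (Finset.mem_singleton.mp h3).symm WithBot.coe_ne_bot
    · intro j hj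
      have : j = i := WithBot.coe_injective (Finset.mem_singleton.mp hj)
      rw [this]
      exact ⟨hi, h2⟩
  · rintro ⟨j, h1, h2, h3⟩
    refine ⟨mem_box_neg.mpr h1, ?_⟩
    cases j using WithBot.recBotCoe with
    | bot => exact absurd (h2 (Finset.mem_singleton_self _)) (Set.notMem_empty _)
    | coe i =>
      obtain ⟨h4, h5⟩ := h3 i (Finset.mem_singleton_self _)
      exact ⟨i, h4, h5⟩

end Pool.Agent.DQ.H
end
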