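import Mathlib
import Pool.Agent.DQ.Mg_MP_4aa2a9_ag.G002
import Pool.Agent.Lib.MP_4aa2a9_ag.Mg.G001
import Pool.Agent.Lib.MP_4aa2a9_ag.Mg.G003
import Pool.Agent.Lib.MP_4aa2a9_ag.Mg.G008
import Pool.Agent.Lib.MP_4aa2a9_ag.Mg.G017
import Pool.Agent.Lib.MP_4aa2a9_ag.Mg.G005
import Pool.Agent.Lib.MP_4aa2a9_ag.Mg.G036
import Pool.Agent.Lib.MP_4aa2a9_ag.Mg.G038

section

/-! Campaign DQ, module S, file SNear: stability of generators, relations and zero stalks. -/

set_option autoImplicit false

open Set Filter Topology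

universe u v w

namespace Pool.Agent.DQ

variable {V : Type u} [NormedAddCommGroup V] [NormedSpace ℂ V]
  {V' : Type u} [NormedAddCommGroup V'] [NormedSpace ℂ V']
  {W : Type v} [NormedAddCommGroup W] [NormedSpace ℂ W]

/-- the relations between the `g i` at all points of `K` are generated by the `h l` -/
def RelOn (F : EMod.{u, u, w} (O V)) {p q : ℕ} (g : Fin p → (x : V) → F.St x) (h : Fin q → Fin p → V → ℂ)
    (K : Set V) : Prop :=
  (∀ l i, HolNear (h l i) K) ∧
    ∀ x ∈ K, F.rel g x = Submodule.span ((O V).St x) (range fun l => fun i => om (h l i) x)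

/-- The generating property is stable.

Proof. `fib_tube` with the open condition: near every `x` of the fibre, `F.CohAt`, the `g i` are sections, and they generate
(`C.gen_open`, `F.ev`, `eventually_eventually_nhds`). -/
theorem gen_nearS (F : EMod.{u, u, w} (O V)) (e : V ≃L[ℂ] V' × W) {D : Set W} (hD : IsCompact D) {t : V'} {p : ℕ}
    {g : Fin p → (x : V) → F.St x} (hF : F.Coh (fib e D t)) (hg : ∀ i, F.On (g i) (fib e D t))
    (hgen : F.Gen g (fib e D t)) :
    ∀ᶠ t' in 𝓝 t, F.Coh (fib e D t') ∧ (∀ i, F.On (g i) (fib e D t')) ∧ F.Gen g (fib e D t') := by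
  have h1 := fib_tube e hD (t := t) (P := fun y => (∀ᶠ z in 𝓝 y, F.CohAt z) ∧ (∀ i, F.At (g i) y) ∧
    Submodule.span ((O V).St y) (Set.range fun i => g i y) = ⊤) (by
    intro x hx
    have h2 := hF x hx
    refine (eventually_eventually_nhds.mpr h2).and ((eventually_all.mpr fun i =>
      F.ev (hg i x hx)).and ?_)
    exact C.gen_open h2.self_of_nhds (fun i => hg i x hx) (hgen x hx))
  filter_upwards [h1] with t' ht'
  exact ⟨fun x hx => (ht' x hx).1, fun i x hx => (ht' x hx).2.1 i, fun x hx => (ht' x hx).2.2⟩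

/-- The property `RelOn` is stable.

Proof. Let `x` be in the fibre over `t`. `F` is coherent at `x`, so near `x` the relations of `g` are generated by finitely many
sections `r j` (definition of `CohAt`). At `x` every `r j x` is in `F.rel g x = span (om h x)`, so near `x` every `r j y` is in
`span (om h y)` (`EMod.near_mem_span` for the free sheaf, or take coefficients and use `inj`), and every `om (h l) y` is a relation near `x`
(it is one at `x`; `F.inj`). So equality holds near `x`. `fib_tube`. -/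
theorem rel_nearS (F : EMod.{u, u, w} (O V)) (e : V ≃L[ℂ] V' × W) {D : Set W} (hD : IsCompact D) {t : V'} {p q : ℕ}
    {g : Fin p → (x : V) → F.St x} {h : Fin q → Fin p → V → ℂ} (hF : F.Coh (fib e D t))
    (hg : ∀ i, F.On (g i) (fib e D t)) (hrel : RelOn F g h (fib e D t)) :
    ∀ᶠ t' in 𝓝 t, RelOn F g h (fib e D t') := by
  have h1 := fib_tube e hD (t := t) (P := fun y => (∀ l i, HolAt (h l i) y) ∧
    F.rel g y = Submodule.span ((O V).St y) (range fun l => fun i => om (h l i) y)) (by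
    intro x hx
    have hco : F.CohAt x := (hF x hx).self_of_nhds
    obtain ⟨m, r, hr, hrg⟩ := hco.2.2 p g (fun i => hg i x hx)
    have hhx : ∀ l i, HolAt (h l i) x := fun l i => hrel.1 l i x hx
    have hspan : Submodule.span ((O V).St x) (range fun j => fun i => r j i x) =
        Submodule.span ((O V).St x) (range fun l => fun i => om (h l i) x) := by
      rw [← hrg.self_of_nhds, hrel.2 x hx]
    have hrfree : ∀ j, ((O V).free p).At (fun y => fun i => r j i y) x := fun j =>
      ⟨mem_univ _, fun i => hr j i⟩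
    have hhfree : ∀ l, ((O V).free p).At (fun y => fun i => om (h l i) y) x := fun l =>
      ⟨mem_univ _, fun i => O_at_gm (hhx l i)⟩
    have h2 : ∀ j, ∀ᶠ y in 𝓝 x, (fun i => r j i y) ∈
        Submodule.span ((O V).St y) (range fun l => fun i => om (h l i) y) := by
      intro j
      refine ((O V).free p).near_mem_span (hrfree j) hhfree ?_
      change (fun i => r j i x) ∈ Submodule.span ((O V).St x) (range fun l => fun i => om (h l i) x)
      rw [← hspan]
      exact Submodule.subset_span ⟨j, rfl⟩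
    have h3 : ∀ l, ∀ᶠ y in 𝓝 x, (fun i => om (h l i) y) ∈
        Submodule.span ((O V).St y) (range fun j => fun i => r j i y) := by
      intro l
      refine ((O V).free p).near_mem_span (hhfree l) hrfree ?_
      change (fun i => om (h l i) x) ∈ Submodule.span ((O V).St x) (range fun j => fun i => r j i x)
      rw [hspan]
      exact Submodule.subset_span ⟨l, rfl⟩
    filter_upwards [eventually_all.mpr fun l => eventually_all.mpr fun i => (hhx l i).eventually,
      hrg, eventually_all.mpr h2, eventually_all.mpr h3] with y y1 y2 y3 y4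
    refine ⟨y1, ?_⟩
    rw [y2]
    apply le_antisymm
    · rw [Submodule.span_le]
      rintro _ ⟨j, rfl⟩
      exact y3 j
    · rw [Submodule.span_le]
      rintro _ ⟨l, rfl⟩
      exact y4 l)
  filter_upwards [h1] with t' ht'
  exact ⟨fun l i x hx => (ht' x hx).1 l i, fun x hx => (ht' x hx).2⟩

/-- A zero stalk of a coherent sheaf has zero neighbours.

Proof. Generators `g i` near `x` (from `CohAt`); `g i x = 0`, so `g i = 0` near `x` (`F.inj` with `F.zero`); then the stalk at `y` is
`span {0} = ⊥ = ⊤`. -/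
theorem zero_near (F : EMod.{u, u, w} (O V)) {x : V} (hF : F.CohAt x) (h0 : Subsingleton (F.St x)) :
    ∀ᶠ y in 𝓝 x, Subsingleton (F.St y) := by
  obtain ⟨hx, ⟨n, g, hg, hgen⟩, -⟩ := hF
  have h1 : ∀ i, ∀ᶠ y in 𝓝 x, g i y = (0 : (y : V) → F.St y) y := fun i =>
    F.inj (hg i) (F.zero x hx) (Subsingleton.elim _ _)
  filter_upwards [hgen, eventually_all.mpr h1] with y y1 y2
  refine ⟨fun a b => ?_⟩
  have h2 : ∀ m : F.St y, m = 0 := by
    intro m
    have h3 : m ∈ Submodule.span ((O V).St y) (Set.range fun i => g i y) := by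
      rw [y1]
      exact Submodule.mem_top
    have h4 : Submodule.span ((O V).St y) (Set.range fun i => g i y) ≤ ⊥ := by
      rw [Submodule.span_le]
      rintro _ ⟨i, rfl⟩
      exact y2 i
    exact (Submodule.mem_bot _).mp (h4 h3)
  rw [h2 a, h2 b]

end Pool.Agent.DQ
end

section

/-! Campaign DQ, module S, file SKillB: vanishing near the boundary of the fibre disc. -/

set_option autoImplicit false

open Set Filter Topology

universe u v w

namespace Pool.Agent.DQ

variable {V : Type u} [NormedAddCommGroup V] [NormedSpace ℂ V]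
  {V' : Type u} [NormedAddCommGroup V'] [NormedSpace ℂ V']

/-- **The stalks vanish near the boundary.**

Proof. Let `Z` be the set of `v ∈ closedBall c R` for which NOT `∀ᶠ q in 𝓝 (t, v), Subsingleton (F.St (e.symm q))`; it is closed in the compact
disc, so compact, and does not meet the circle (`zero_near`). So there is `r0 < R`, `0 < r0`, with `‖v - c‖ < r0` for all `v ∈ Z` (maximum of the
continuous function `‖v - c‖` on `Z`, or `Z` empty). `fib_tube` with `D := {v | r0 ≤ ‖v - c‖ ∧ ‖v - c‖ ≤ R}` (compact). -/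
theorem exists_zero_collar (F : EMod.{u, u, w} (O V)) (e : V ≃L[ℂ] V' × ℂ) (c : ℂ) {R : ℝ} (hR : 0 < R) (t : V')
    (hcoh : F.Coh (fib e (Metric.closedBall c R) t))
    (hzero : ∀ x ∈ fib e (Metric.closedBall c R) t, ‖(e x).2 - c‖ = R → Subsingleton (F.St x)) :
    ∃ r0, 0 < r0 ∧ r0 < R ∧ ∀ᶠ t' in 𝓝 t, ∀ x ∈ fib e (Metric.closedBall c R) t', r0 ≤ ‖(e x).2 - c‖ →
      Subsingleton (F.St x) := by
  set Q : V' × ℂ → Prop := fun q => Subsingleton (F.St (e.symm q)) with hQ
  set Z : Set ℂ := {v ∈ Metric.closedBall c R | ¬ ∀ᶠ q in 𝓝 (t, v), Q q} with hZ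
  have hZcl : IsClosed {v : ℂ | ¬ ∀ᶠ q in 𝓝 (t, v), Q q} := by
    rw [← isOpen_compl_iff, isOpen_iff_mem_nhds]
    intro v hv
    have hv' : ∀ᶠ q in 𝓝 (t, v), Q q := by
      by_contra h
      exact hv h
    have h1 : ∀ᶠ q in 𝓝 (t, v), ∀ᶠ q' in 𝓝 q, Q q' := eventually_eventually_nhds.mpr hv'
    have h2 : Tendsto (fun v' : ℂ => (t, v')) (𝓝 v) (𝓝 (t, v)) :=
      (Continuous.prodMk_right t).continuousAt
    filter_upwards [h2.eventually h1] with v' hv'
    exact fun h => h hv'
  have hZc : IsCompact Z := (isCompact_closedBall c R).inter_right hZcl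
  have hcirc : ∀ v ∈ Z, ‖v - c‖ < R := by
    intro v hv
    have h1 : ‖v - c‖ ≤ R := mem_closedBall_iff_norm.mp hv.1
    refine lt_of_le_of_ne h1 fun h2 => hv.2 ?_
    have hx : e.symm (t, v) ∈ fib e (Metric.closedBall c R) t := by
      refine ⟨by simp, ?_⟩
      simpa using hv.1
    have h3 : Subsingleton (F.St (e.symm (t, v))) := hzero _ hx (by simpa using h2)
    have h4 := zero_near F (hcoh _ hx).self_of_nhds h3
    exact (e.symm.continuous.continuousAt (x := (t, v))).tendsto.eventually h4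
  obtain ⟨r0, hr0, hr0R, hr0Z⟩ : ∃ r0, 0 < r0 ∧ r0 < R ∧ ∀ v ∈ Z, ‖v - c‖ < r0 := by
    rcases Z.eq_empty_or_nonempty with he | hne
    · refine ⟨R / 2, by linarith, by linarith, fun v hv => ?_⟩
      rw [he] at hv
      exact absurd hv (notMem_empty v)
    · obtain ⟨v0, hv0, hmax⟩ := hZc.exists_isMaxOn hne
        (f := fun v => ‖v - c‖) (by fun_prop)
      obtain ⟨r0, h1, h2⟩ := exists_between (max_lt (hcirc v0 hv0) hR)
      exact ⟨r0, (le_max_right _ _).trans_lt h1, h2,
        fun v hv => (hmax hv).trans_lt ((le_max_left _ _).trans_lt h1)⟩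
  refine ⟨r0, hr0, hr0R, ?_⟩
  have hDc : IsCompact {v : ℂ | r0 ≤ ‖v - c‖ ∧ ‖v - c‖ ≤ R} := by
    refine (isCompact_closedBall c R).of_isClosed_subset ?_ ?_
    · have hn : Continuous fun v : ℂ => ‖v - c‖ := (continuous_id.sub continuous_const).norm
      exact (isClosed_le continuous_const hn).inter (isClosed_le hn continuous_const)
    · intro v hv
      exact mem_closedBall_iff_norm.mpr hv.2
  have h5 := fib_tube e hDc (t := t) (P := fun y => Subsingleton (F.St y)) (by
    intro x hx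
    have hv : (e x).2 ∉ Z := fun h => absurd (hr0Z _ h) (not_lt.mpr hx.2.1)
    have h6 : ∀ᶠ q in 𝓝 (t, (e x).2), Q q := by
      by_contra h
      exact hv ⟨mem_closedBall_iff_norm.mpr hx.2.2, h⟩
    have h7 : (t, (e x).2) = e x := by
      rw [← hx.1]
    rw [h7] at h6
    have h8 := (e.continuous.continuousAt (x := x)).tendsto.eventually h6
    refine h8.mono fun y hy => ?_
    have h9 : Subsingleton (F.St (e.symm (e y))) := hy
    rwa [e.symm_apply_apply] at h9)
  filter_upwards [h5] with t' ht' x hx hr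
  exact ht' x ⟨hx.1, hr, mem_closedBall_iff_norm.mp hx.2⟩

end Pool.Agent.DQ
end

section

/-! Module M12: existence of frames near products of discs and one annulus. -/

set_option autoImplicit false
set_option linter.unusedSectionVars false

open Set Filter Topology Matrix

universe u v w

namespace Pool.Agent.DQ.M12

variable {B : Type u} [NormedAddCommGroup B] [NormedSpace ℂ B] {n m p q N : ℕ}

private theorem M12FrbB_cring_compact (c : ℂ) (r R : ℝ) : IsCompact (cring c r R) := by
  refine Metric.isCompact_of_isClosed_isBounded ?_ ?_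
  · have hcn : Continuous fun z : ℂ => ‖z - c‖ :=
      continuous_norm.comp (continuous_id.sub continuous_const)
    exact (isClosed_le continuous_const hcn).inter (isClosed_le hcn continuous_const)
  · refine (Metric.isBounded_closedBall (x := c) (r := R)).subset fun z hz => ?_
    rw [Metric.mem_closedBall, dist_eq_norm]
    exact hz.2

private theorem M12FrbB_cring_conn (c : ℂ) {r R : ℝ} (hr : 0 < r) : IsPreconnected (cring c r R) := by
  have h1 : IsPreconnected (Icc r R ×ˢ (univ : Set ℝ)) :=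
    isPreconnected_Icc.prod isPreconnected_univ
  have h2 : cring c r R = (fun p : ℝ × ℝ => c + (p.1 : ℂ) * Complex.exp (p.2 * Complex.I)) ''
      (Icc r R ×ˢ (univ : Set ℝ)) := by
    ext z
    constructor
    · rintro ⟨h3, h4⟩
      refine ⟨(‖z - c‖, Complex.arg (z - c)), ⟨⟨h3, h4⟩, mem_univ _⟩, ?_⟩
      change c + (‖z - c‖ : ℂ) * Complex.exp (Complex.arg (z - c) * Complex.I) = z
      rw [Complex.norm_mul_exp_arg_mul_I]
      ring
    · rintro ⟨⟨ρ, θ⟩, ⟨h3, -⟩, rfl⟩
      have h5 : ‖c + (ρ : ℂ) * Complex.exp (θ * Complex.I) - c‖ = ρ := by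
        rw [add_sub_cancel_left, norm_mul, Complex.norm_exp_ofReal_mul_I, mul_one,
          Complex.norm_real, Real.norm_of_nonneg (hr.le.trans h3.1)]
      change r ≤ ‖c + (ρ : ℂ) * Complex.exp (θ * Complex.I) - c‖ ∧
        ‖c + (ρ : ℂ) * Complex.exp (θ * Complex.I) - c‖ ≤ R
      rw [h5]
      exact h3
  rw [h2]
  refine h1.image _ (Continuous.continuousOn ?_)
  fun_prop

/-- **Idempotents split near a product of discs and one annulus.**

Proof. Let `E' = Fin N → ℂ`, `A = cring (c i₀) (r₀ i₀) (R i₀) ⊆ ℂ` (closed annulus: compact, nonempty, preconnected, as the image of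
`Icc (r₀ i₀) (R i₀) ×ˢ univ` under `(ρ, θ) ↦ c + ρ exp(iθ)`, compare `DQ.F.isPreconnected_ring`), `S = {y | y i₀ = 0 ∧ ∀ i, ‖y i‖ ≤ R i} ⊆ E'`:
compact, `0 ∈ S`, star shaped. For `(ζ, y) ∈ ℂ × E'` let `b(ζ, y) := κ.symm (fun i => if i = i₀ then ζ else c i + y i)`; it maps `A ×ˢ S` into (onto)
`cbox κ c r₀ R` (`r₀ i ≤ 0` for `i ≠ i₀`). Let `e (ζ, y) := Π (b(ζ, y))`: `DQ.F.MAn (A ×ˢ S) e` by `DQ.F.analyticAt_iff_eventually_differentiableAt`
(file FBridge; `HolAt` = differentiable near the point; composition with the analytic map `b(ζ, y)`), and `e x * e x = e x` near `A ×ˢ S`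
(`gmat_mul`, `gmat_eq_iff`: the identity holds near every point of the box; `eventually_nhdsSet_iff_forall`). `DQ.F.idem_free` gives `U`, `d`.
Back on `B`: `U' b := U (κ b i₀, fun i => if i = i₀ then 0 else κ b i - c i)` is holomorphic near `cbox`, invertible there, `Π U' = U' Δ` near `cbox`
(`b(ζ, y)` composed with this map is the identity), `Δ = diagonal (if d i then 1 else 0)`. With `m = #{i | d i}` and `ι : Fin m ≃ {i // d i = true}`:
`A b i j := U' b i (ι j)`, `A' b j i := (U' b)⁻¹ (ι j) i`. Then `A A' = U' Δ U'⁻¹ = Π`, `A' A = 1`. Holomorphy of the inverse: `Matrix.inv_def`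
(`Ring.inverse det • adjugate`) as in `DQ.F.MAn.inv`, or apply `DQ.F.MAn.inv` before going back to `B`. -/
theorem idem_split (κ : B ≃L[ℂ] (Fin N → ℂ)) (c : Fin N → ℂ) (r₀ R : Fin N → ℝ) (i₀ : Fin N)
    (h0 : 0 < r₀ i₀) (h1 : r₀ i₀ ≤ R i₀) (hr : ∀ i, i ≠ i₀ → r₀ i ≤ 0) (hR : ∀ i, 0 ≤ R i)
    (Pr : B → Matrix (Fin p) (Fin p) ℂ) (hPr : MHol Pr (cbox κ c r₀ R))
    (hid : ∀ b ∈ cbox κ c r₀ R, gmat Pr b * gmat Pr b = gmat Pr b) :
    ∃ (m : ℕ) (A : B → Matrix (Fin p) (Fin m) ℂ) (A' : B → Matrix (Fin m) (Fin p) ℂ),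
      MHol A (cbox κ c r₀ R) ∧ MHol A' (cbox κ c r₀ R) ∧
      ∀ b ∈ cbox κ c r₀ R, gmat A b * gmat A' b = gmat Pr b ∧ gmat A' b * gmat A b = 1 := by
  classical
  have hfd : FiniteDimensional ℂ B := κ.symm.toLinearEquiv.finiteDimensional
  have hPr' := mHol_iff.mp hPr
  let A₀ : Set ℂ := cring (c i₀) (r₀ i₀) (R i₀)
  let S : Set (Fin N → ℂ) := {y | y i₀ = 0 ∧ ∀ i, ‖y i‖ ≤ R i}
  let bb : ℂ × (Fin N → ℂ) → B := fun q => κ.symm fun i => if i = i₀ then q.1 else c i + q.2 i
  let back : B → ℂ × (Fin N → ℂ) := fun b => (κ b i₀, fun i => if i = i₀ then 0 else κ b i - c i)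
  have hbb : Differentiable ℂ bb := by
    refine κ.symm.differentiable.comp (differentiable_pi.mpr fun i => ?_)
    by_cases hi : i = i₀
    · simp only [if_pos hi]
      exact differentiable_fst
    · simp only [if_neg hi]
      exact ((differentiable_pi.mp (differentiable_snd (𝕜 := ℂ) (E := ℂ) (F := Fin N → ℂ))) i).const_add _
  have hκ : ∀ i, Differentiable ℂ fun b : B => κ b i := fun i =>
    (differentiable_pi.mp κ.differentiable) i
  have hback : Differentiable ℂ back := by
    refine (hκ i₀).prodMk (differentiable_pi.mpr fun i => ?_)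
    by_cases hi : i = i₀
    · simp only [if_pos hi]
      exact differentiable_const _
    · simp only [if_neg hi]
      exact (hκ i).sub_const _
  have hbback : ∀ b, bb (back b) = b := by
    intro b
    change κ.symm (fun i => if i = i₀ then κ b i₀ else c i + (if i = i₀ then 0 else κ b i - c i)) = b
    have h2 : (fun i => if i = i₀ then κ b i₀ else c i + (if i = i₀ then 0 else κ b i - c i)) =
        κ b := by
      funext i
      by_cases hi : i = i₀
      · rw [if_pos hi, hi]
      · rw [if_neg hi, if_neg hi]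
        ring
    rw [h2, ContinuousLinearEquiv.symm_apply_apply]
  have hbmem : ∀ b ∈ cbox κ c r₀ R, back b ∈ A₀ ×ˢ S := by
    intro b hb
    refine ⟨hb i₀, if_pos rfl, fun i => ?_⟩
    change ‖if i = i₀ then 0 else κ b i - c i‖ ≤ R i
    by_cases hi : i = i₀
    · rw [if_pos hi, norm_zero]
      exact hR i
    · rw [if_neg hi]
      exact (hb i).2
  have hbbmem : ∀ q ∈ A₀ ×ˢ S, bb q ∈ cbox κ c r₀ R := by
    rintro q ⟨hq1, hq2, hq3⟩ i
    have h2 : κ (bb q) i = if i = i₀ then q.1 else c i + q.2 i := by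
      change κ (κ.symm fun i => if i = i₀ then q.1 else c i + q.2 i) i = _
      rw [ContinuousLinearEquiv.apply_symm_apply]
    rw [h2]
    by_cases hi : i = i₀
    · rw [if_pos hi, hi]
      exact hq1
    · rw [if_neg hi]
      change r₀ i ≤ ‖c i + q.2 i - c i‖ ∧ ‖c i + q.2 i - c i‖ ≤ R i
      rw [add_sub_cancel_left]
      exact ⟨(hr i hi).trans (norm_nonneg _), hq3 i⟩
  let e : ℂ × (Fin N → ℂ) → Matrix (Fin p) (Fin p) ℂ := fun q => Pr (bb q)
  have he : DQ.F.MAn (A₀ ×ˢ S) e := by
    intro i j x hx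
    refine DQ.F.analyticAt_iff_eventually_differentiableAt.mpr ?_
    exact (hPr' (bb x) (hbbmem x hx) i j).comp (Eventually.of_forall fun y => hbb y)
  have hnear : ∀ b ∈ cbox κ c r₀ R, ∀ᶠ y in 𝓝 b, Pr y * Pr y = Pr y := by
    intro b hb
    have h2 : gmat (fun y => Pr y * Pr y) b = gmat Pr b := by
      rw [gmat_mul (hPr' b hb) (hPr' b hb), hid b hb]
    exact (gmat_eq_iff ((hPr' b hb).mul (hPr' b hb)) (hPr' b hb)).mp h2
  have hide : ∀ᶠ x in 𝓝ˢ (A₀ ×ˢ S), e x * e x = e x := by
    rw [eventually_nhdsSet_iff_forall]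
    intro x hx
    exact (hbb.continuous.tendsto x).eventually (hnear (bb x) (hbbmem x hx))
  have hScomp : IsCompact S := by
    have h2 : S = (Set.pi univ fun i => Metric.closedBall (0 : ℂ) (R i)) ∩ {y | y i₀ = 0} := by
      ext y
      constructor
      · rintro ⟨h3, h4⟩
        exact ⟨fun i _ => mem_closedBall_zero_iff.mpr (h4 i), h3⟩
      · rintro ⟨h3, h4⟩
        exact ⟨h4, fun i => mem_closedBall_zero_iff.mp (h3 i (mem_univ i))⟩
    rw [h2]
    exact (isCompact_univ_pi fun i => isCompact_closedBall (0 : ℂ) (R i)).inter_right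
      (isClosed_eq (continuous_apply i₀) continuous_const)
  obtain ⟨U, d, hU, hUdet, hUe⟩ := DQ.F.idem_free (A := A₀) (S := S)
    (M12FrbB_cring_compact _ _ _) (M12FrbB_cring_conn _ h0)
    ⟨c i₀ + (r₀ i₀ : ℂ), by
      change r₀ i₀ ≤ ‖c i₀ + (r₀ i₀ : ℂ) - c i₀‖ ∧ ‖c i₀ + (r₀ i₀ : ℂ) - c i₀‖ ≤ R i₀
      rw [add_sub_cancel_left, Complex.norm_real, Real.norm_of_nonneg h0.le]
      exact ⟨le_rfl, h1⟩⟩
    hScomp ⟨0, rfl, fun i => by rw [Pi.zero_apply, norm_zero]; exact hR i⟩
    (by
      rintro s ⟨hs0, hs1⟩ y ⟨hy1, hy2⟩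
      refine ⟨by rw [Pi.smul_apply, hy1, smul_zero], fun i => ?_⟩
      rw [Pi.smul_apply, norm_smul, Complex.norm_real, Real.norm_of_nonneg hs0]
      calc s * ‖y i‖ ≤ 1 * ‖y i‖ := mul_le_mul_of_nonneg_right hs1 (norm_nonneg _)
        _ ≤ R i := by rw [one_mul]; exact hy2 i)
    he hide
  have hUinv := hU.inv hUdet
  let U' : B → Matrix (Fin p) (Fin p) ℂ := fun b => U (back b)
  let Ui : B → Matrix (Fin p) (Fin p) ℂ := fun b => (U (back b))⁻¹
  have hMH : ∀ (W : ℂ × (Fin N → ℂ) → Matrix (Fin p) (Fin p) ℂ), DQ.F.MAn (A₀ ×ˢ S) W →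
      ∀ b ∈ cbox κ c r₀ R, MHolAt (fun y => W (back y)) b := by
    intro W hW b hb i j
    have h2 : HolAt (fun q => W q i j) (back b) :=
      DQ.F.analyticAt_iff_eventually_differentiableAt.mp (hW i j (back b) (hbmem b hb))
    exact h2.comp (Eventually.of_forall fun y => hback y)
  have hU'h : ∀ b ∈ cbox κ c r₀ R, MHolAt U' b := hMH U hU
  have hUih : ∀ b ∈ cbox κ c r₀ R, MHolAt Ui b := hMH (fun x => (U x)⁻¹) hUinv
  let Δ : Matrix (Fin p) (Fin p) ℂ := Matrix.diagonal fun i => if d i then (1 : ℂ) else 0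
  have hUnear : ∀ b ∈ cbox κ c r₀ R, ∀ᶠ y in 𝓝 b, Pr y * U' y = U' y * Δ ∧ U' y * Ui y = 1 ∧
      Ui y * U' y = 1 := by
    intro b hb
    have h2 : ∀ᶠ y in 𝓝 b, e (back y) * U (back y) = U (back y) * Δ :=
      (hback.continuous.tendsto b).eventually (hUe.filter_mono (nhds_le_nhdsSet (hbmem b hb)))
    have h3 : ∀ᶠ y in 𝓝 b, (U (back y)).det ≠ 0 := by
      have h4 : ContinuousAt (fun x => (U x).det) (back b) :=
        (hU.det (back b) (hbmem b hb)).continuousAt
      exact (hback.continuous.tendsto b).eventually (h4.eventually_ne (hUdet _ (hbmem b hb)))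
    filter_upwards [h2, h3] with y h5 h6
    have h7 : IsUnit (U (back y)).det := isUnit_iff_ne_zero.mpr h6
    refine ⟨?_, Matrix.mul_nonsing_inv _ h7, Matrix.nonsing_inv_mul _ h7⟩
    have h8 : e (back y) = Pr y := congrArg Pr (hbback y)
    rw [h8] at h5
    exact h5
  let ι : Fin (Fintype.card {i // d i = true}) ≃ {i // d i = true} := (Fintype.equivFin _).symm
  let A : B → Matrix (Fin p) (Fin (Fintype.card {i // d i = true})) ℂ :=
    fun b => Matrix.of fun i j => U' b i (ι j)
  let A' : B → Matrix (Fin (Fintype.card {i // d i = true})) (Fin p) ℂ :=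
    fun b => Matrix.of fun j i => Ui b (ι j) i
  have hAh : ∀ b ∈ cbox κ c r₀ R, MHolAt A b := fun b hb i j => hU'h b hb i (ι j)
  have hA'h : ∀ b ∈ cbox κ c r₀ R, MHolAt A' b := fun b hb j i => hUih b hb (ι j) i
  refine ⟨_, A, A', mHol_iff.mpr hAh, mHol_iff.mpr hA'h, fun b hb => ⟨?_, ?_⟩⟩
  · rw [← gmat_mul (hAh b hb) (hA'h b hb)]
    refine gmat_congr ((hAh b hb).mul (hA'h b hb)) ?_
    filter_upwards [hUnear b hb] with y hy
    have h2 : A y * A' y = U' y * Δ * Ui y := by
      ext i i'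
      rw [Matrix.mul_apply, Matrix.mul_apply]
      change ∑ j, U' y i (ι j) * Ui y (ι j) i' = ∑ l, (U' y * Δ) i l * Ui y l i'
      rw [Equiv.sum_comp ι (fun l => U' y i l * Ui y l i')]
      simp only [Δ, Matrix.mul_diagonal, mul_ite, mul_one, mul_zero, ite_mul, zero_mul]
      rw [← Finset.sum_filter]
      exact (Finset.sum_subtype (Finset.univ.filter fun l => d l = true)
        (fun x => by simp) (fun l => U' y i l * Ui y l i')).symm
    rw [h2, ← hy.1, Matrix.mul_assoc, hy.2.1, Matrix.mul_one]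
  · rw [← gmat_mul (hA'h b hb) (hAh b hb), ← gmat_one]
    refine gmat_congr ((hA'h b hb).mul (hAh b hb)) ?_
    filter_upwards [hUnear b hb] with y hy
    ext j j'
    have h2 : (A' y * A y) j j' = (Ui y * U' y) (ι j) (ι j') := rfl
    rw [h2, hy.2.2, Matrix.one_apply, Matrix.one_apply]
    by_cases hj : j = j'
    · rw [if_pos hj, if_pos (by rw [hj])]
    · rw [if_neg hj, if_neg fun h3 => hj (ι.injective (Subtype.ext h3))]

end Pool.Agent.DQ.M12
end

section

/-! # DQ, module H: holomorphy of the projection -/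

set_option autoImplicit false

open Set Filter Topology

universe u

namespace Pool.Agent.DQ.H

variable {V : Type u} [NormedAddCommGroup V] [NormedSpace ℂ V] {n : ℕ}
  {κ : V ≃L[ℂ] (Fin n → ℂ)} {c : Fin n → ℂ} {r R : Fin n → ℝ} {i : Fin n} {Q : Set V}

/-- the projection is holomorphic on the full region

Proof. Let `x ∈ dreg`. Put `ρ = rad … x`, so `max (r i) ‖κ x i - c i‖ < ρ < R i`. For `y` near `x` we have `y ∈ Q`, `‖κ y i - c i‖ < ρ`, so `y ∈ dreg` and `pj_radius` gives `pj … f y = const * ∮ … C(c i, ρ)`, which is holomorphic near `x` by `fixed_hol` (`HolAt.congr`, `HolAt.mul`, `HolAt.const`). -/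
theorem pj_hol (h0 : 0 < r i) (hr : r i < R i) (hQo : IsOpen Q)
    (hQ : ∀ (x : V) (ζ : ℂ), C.upd κ i (ζ, x) ∈ Q ↔ x ∈ Q) {f : V → ℂ}
    (hf : HolNear f (areg κ c r R i Q)) : HolNear (pj κ c r R i f) (dreg κ c R i Q) := by
  intro x hx
  obtain ⟨hxQ, hxR⟩ := hx
  have hm : max (r i) ‖κ x i - c i‖ < R i := max_lt hr hxR
  have ha : r i ≤ max (r i) ‖κ x i - c i‖ := le_max_left _ _
  have hb : ‖κ x i - c i‖ ≤ max (r i) ‖κ x i - c i‖ := le_max_right _ _
  obtain ⟨ρ, hρ⟩ : ∃ ρ : ℝ, ρ = (max (r i) ‖κ x i - c i‖ + R i) / 2 := ⟨_, rfl⟩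
  have h1 : r i < ρ := by rw [hρ]; linarith
  have h2 : ‖κ x i - c i‖ < ρ := by rw [hρ]; linarith
  have h3 : ρ < R i := by rw [hρ]; linarith
  have hev : ∀ᶠ y in 𝓝 x, y ∈ Q ∧ ‖κ y i - c i‖ < ρ := by
    have hc : Continuous fun y : V => ‖κ y i - c i‖ :=
      ((C.continuous_coord κ i).sub continuous_const).norm
    exact (hQo.eventually_mem hxQ).and ((isOpen_lt hc continuous_const).eventually_mem h2)
  have h4 := (HolAt.const (2 * (Real.pi : ℂ) * Complex.I)⁻¹ x).mul
    (fixed_hol hQo hQ hf hxQ (h0.trans h1) h1 h2 h3)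
  refine h4.congr ?_
  filter_upwards [hev] with y hy
  exact (pj_radius h0 hr hQ hf ⟨hy.1, hy.2.trans h3⟩ h1 hy.2 h3).symm

end Pool.Agent.DQ.H
end

section

/-! # DQ, module H: homotopy for functions -/

set_option autoImplicit false

open Set Filter Topology

universe u v

namespace Pool.Agent.DQ.H

variable {V : Type u} [NormedAddCommGroup V] [NormedSpace ℂ V] {n : ℕ} (D : CovD V n)

/-- the homotopy operator for functions, in the direction `i` -/
noncomputable def KK (i : Fin n) (z : Finset (WithBot (Fin n)) → V → ℂ)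
    (T : Finset (WithBot (Fin n))) (x : V) : ℂ :=
  kC (i : WithBot (Fin n)) (fun T' => pj D.κ D.c D.r D.R i (z T') x) T

/-- Proof. If `↑i ∈ T` the function is `0`. Otherwise `KK D i z T = sg … • pj … (z (insert ↑i T))`, `insert ↑i T` has `a` elements, `CovD.U_split`, `pj_hol`, and multiplication by the integer `sg …` (`zsmul_eq_mul`, `HolAt.mul`, `HolAt.const`). -/
theorem KK_hol {a : ℕ} {i : Fin n} (hi : i ∈ D.S) {z : Finset (WithBot (Fin n)) → V → ℂ}
    (hz : ∀ T, T.card = a → HolNear (z T) (D.U T)) {T : Finset (WithBot (Fin n))}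
    (hT : T.card + 1 = a) : HolNear (KK D i z T) (D.U T) := by
  intro x hx
  by_cases h : (i : WithBot (Fin n)) ∈ T
  · have e : KK D i z T = fun _ => 0 := by
      funext y
      unfold KK kC
      rw [if_pos h]
    rw [e]
    exact HolAt.const 0 x
  · have e : KK D i z T = fun y => ((sg (i : WithBot (Fin n)) (insert (i : WithBot (Fin n)) T) : ℤ) : ℂ) *
        pj D.κ D.c D.r D.R i (z (insert (i : WithBot (Fin n)) T)) y := by
      funext y
      unfold KK kC
      rw [if_neg h, zsmul_eq_mul]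
    obtain ⟨Q, hQo, hQ, h1, h2⟩ := D.U_split hi h
    rw [e]
    apply HolAt.mul (HolAt.const _ x)
    have h3 : HolNear (z (insert (i : WithBot (Fin n)) T)) (areg D.κ D.c D.r D.R i Q) := by
      rw [← h2]
      exact hz _ (by rw [Finset.card_insert_of_notMem h, hT])
    exact pj_hol (D.r_pos i hi).1 (D.r_pos i hi).2 hQo hQ h3 x (by rw [← h1]; exact hx)

end Pool.Agent.DQ.H
end

section

/-! # DQ, module H: homotopy for functions, first formula -/

set_option autoImplicit false

open Set Filter Topology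

universe u v

namespace Pool.Agent.DQ.H

variable {V : Type u} [NormedAddCommGroup V] [NormedSpace ℂ V] {n : ℕ} (D : CovD V n)

/-- a cocycle is, on the sets without the index `i`, the coboundary of its homotopy

Proof. Let `P T' = pj … (z T') x`, so that the left hand side is `dC (kC ↑i P) T`. By `dC_kC` it is `P T - kC ↑i (dC P) T`. With `Q` of `CovD.U_split` for `T`: `P T = z T x` (`pj_eq`) and `dC P (insert ↑i T) = ∑_{j ∈ insert ↑i T} sg j _ • pj … (z ((insert ↑i T).erase j)) x = pj … (fun y => ∑_j sg j _ • z (…) y) x` (`pj_sum`; the sets `(insert ↑i T).erase j` have `a` elements and `D.U (insert ↑i T) = areg` is contained in `D.U ((insert ↑i T).erase j)` by `CovD.U_anti`) `= 0` (`pj_zero`, `hc (insert ↑i T)`). -/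
theorem dC_KK_not_mem {a : ℕ} {i : Fin n} (hi : i ∈ D.S) {z : Finset (WithBot (Fin n)) → V → ℂ}
    (hz : ∀ T, T.card = a → HolNear (z T) (D.U T))
    (hc : ∀ T, T.card = a + 1 → ∀ x ∈ D.U T, dC (fun T' => z T' x) T = 0)
    {T : Finset (WithBot (Fin n))} (hT : T.card = a) (hiT : (i : WithBot (Fin n)) ∉ T) {x : V}
    (hx : x ∈ D.U T) : dC (fun T' => KK D i z T' x) T = z T x := by
  obtain ⟨Q, hQo, hQs, hU, hU'⟩ := D.U_split hi hiT
  have hr := D.r_pos i hi
  have hx' : x ∈ dreg D.κ D.c D.R i Q := by rw [← hU]; exact hx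
  set P : Finset (WithBot (Fin n)) → ℂ := fun T' => pj D.κ D.c D.r D.R i (z T') x with hP
  have h1 : dC (fun T' => KK D i z T' x) T = dC (kC (i : WithBot (Fin n)) P) T := rfl
  rw [h1]
  have h2 := dC_kC (i : WithBot (Fin n)) P T
  have h3 : P T = z T x := pj_eq hr.1 hr.2 hQs (by rw [← hU]; exact hz T hT) hx'
  have hcard : (insert (i : WithBot (Fin n)) T).card = a + 1 := by
    rw [Finset.card_insert_of_notMem hiT, hT]
  have h4 : dC P (insert (i : WithBot (Fin n)) T) = 0 := by
    unfold dC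
    have h5 := pj_sum hr.1 hr.2 hQs (insert (i : WithBot (Fin n)) T)
      (fun j => sg j (insert (i : WithBot (Fin n)) T))
      (fun j => z ((insert (i : WithBot (Fin n)) T).erase j)) (fun j hj => by
        rw [← hU']
        intro y hy
        refine hz _ ?_ y (D.U_anti (Finset.erase_subset _ _) hy)
        rw [Finset.card_erase_of_mem hj, hcard]
        rfl) hx'
    rw [← h5]
    refine pj_zero hr.1 hr.2 hQs (fun y hy => ?_) hx'
    rw [← hU'] at hy
    exact hc _ hcard y hy
  have h5 : kC (i : WithBot (Fin n)) (dC P) T = 0 := by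
    unfold kC
    rw [if_neg hiT, h4, smul_zero]
  rw [h5, add_zero, h3] at h2
  exact h2

end Pool.Agent.DQ.H
end

section

/-! # DQ, module H: homotopy for functions, second formula -/

set_option autoImplicit false

open Set Filter Topology

universe u v

namespace Pool.Agent.DQ.H

variable {V : Type u} [NormedAddCommGroup V] [NormedSpace ℂ V] {n : ℕ} (D : CovD V n)

/-- the coboundary of the homotopy vanishes on `T ∋ i` if the cocycle vanishes there

Proof. Let `P T' = pj … (z T') x`; the left hand side is `dC (kC ↑i P) T = P T - kC ↑i (dC P) T = P T` (`dC_kC`; `kC ↑i _ T = 0` as `↑i ∈ T`). `CovD.U_split` for `T.erase ↑i` (`insert ↑i (T.erase ↑i) = T`): `D.U T = areg …`, `x ∈ D.U (T.erase ↑i) = dreg …`; `pj_zero`. -/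
theorem dC_KK_mem {a : ℕ} {i : Fin n} (hi : i ∈ D.S) {z : Finset (WithBot (Fin n)) → V → ℂ}
    {T : Finset (WithBot (Fin n))} (hiT : (i : WithBot (Fin n)) ∈ T)
    (h0 : ∀ x ∈ D.U T, z T x = 0) {x : V}
    (hx : x ∈ D.U T) : dC (fun T' => KK D i z T' x) T = 0 := by
  have hiT' : (i : WithBot (Fin n)) ∉ T.erase (i : WithBot (Fin n)) := Finset.notMem_erase _ _
  obtain ⟨Q, hQo, hQs, hU, hU'⟩ := D.U_split hi hiT'
  rw [Finset.insert_erase hiT] at hU'
  have hr := D.r_pos i hi
  have hx' : x ∈ dreg D.κ D.c D.R i Q := by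
    rw [← hU]
    exact D.U_anti (Finset.erase_subset _ _) hx
  set P : Finset (WithBot (Fin n)) → ℂ := fun T' => pj D.κ D.c D.r D.R i (z T') x with hP
  have h1 : dC (fun T' => KK D i z T' x) T = dC (kC (i : WithBot (Fin n)) P) T := rfl
  rw [h1]
  have h2 := dC_kC (i : WithBot (Fin n)) P T
  have h3 : P T = 0 := pj_zero hr.1 hr.2 hQs (fun y hy => h0 y (by rw [hU']; exact hy)) hx'
  have h5 : kC (i : WithBot (Fin n)) (dC P) T = 0 := by
    unfold kC
    rw [if_pos hiT]
  rw [h5, add_zero, h3] at h2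
  exact h2

end Pool.Agent.DQ.H
end

section

/-! # DQ, module H: reduction in all directions -/

set_option autoImplicit false

open Set Filter Topology

universe u v

namespace Pool.Agent.DQ.H

variable {V : Type u} [NormedAddCommGroup V] [NormedSpace ℂ V] {n : ℕ} (D : CovD V n)

/-- all directions of `S₀ ⊆ S`

Proof. Induction over `S₀` (`Finset.induction_on`), for all `z`. Empty set: `∅ ⊆ T` always, nothing to prove (`y = 0`; `HolAt.const`). Step `insert i S₁`: let `y₁` be the cochain for `S₁`, `z₁ T x = z T x - dC (fun T' => y₁ T' x) T`: holomorphic on `D.U T` for `T.card = a` (finite sums of the `y₁ (T.erase j)`, `CovD.U_anti`), a cocycle (`dC_sub`, `dC_dC`), and zero on `D.U T` for `T.card = a`, `¬ S₁.image _ ⊆ T`. Put `y T x = y₁ T x + KK D i z₁ T x` (`KK_hol`). Let `T.card = a`, `¬ (insert i S₁).image _ ⊆ T`. If `↑i ∉ T`: `dC (KK …) T = z₁ T x` (`dC_KK_not_mem`), done. If `↑i ∈ T` then `¬ S₁.image _ ⊆ T`, so `z₁ T = 0` on `D.U T`, `dC_KK_mem`. -/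
theorem reduce {a : ℕ} (S₀ : Finset (Fin n)) (hS₀ : S₀ ⊆ D.S)
    (z : Finset (WithBot (Fin n)) → V → ℂ) (hz : ∀ T, T.card = a → HolNear (z T) (D.U T))
    (hc : ∀ T, T.card = a + 1 → ∀ x ∈ D.U T, dC (fun T' => z T' x) T = 0) :
    ∃ y : Finset (WithBot (Fin n)) → V → ℂ, (∀ T, T.card + 1 = a → HolNear (y T) (D.U T)) ∧
      ∀ T, T.card = a → ¬ S₀.image WithBot.some ⊆ T → ∀ x ∈ D.U T,
        dC (fun T' => y T' x) T = z T x := by
  induction S₀ using Finset.induction_on with
  | empty =>
    refine ⟨fun _ _ => 0, fun T _ x _ => HolAt.const 0 x, fun T _ h => ?_⟩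
    exact absurd (by simp) h
  | @insert i S₁ hi ih =>
    obtain ⟨y₁, hy₁, hy₁'⟩ := ih (fun j hj => hS₀ (Finset.mem_insert_of_mem hj))
    have hiS : i ∈ D.S := hS₀ (Finset.mem_insert_self _ _)
    set z₁ : Finset (WithBot (Fin n)) → V → ℂ :=
      fun T x => z T x - dC (fun T' => y₁ T' x) T with hz₁def
    have hz₁ : ∀ T, T.card = a → HolNear (z₁ T) (D.U T) := by
      intro T hT x hx
      refine (hz T hT x hx).sub ?_
      unfold dC
      refine HolAt.sum T fun j hj => ?_
      have h1 : HolAt (y₁ (T.erase j)) x := by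
        refine hy₁ _ ?_ x (D.U_anti (Finset.erase_subset _ _) hx)
        rw [Finset.card_erase_add_one hj, hT]
      have h2 := (HolAt.const ((sg j T : ℤ) : ℂ) x).mul h1
      refine h2.congr (Eventually.of_forall fun y => ?_)
      simp only [zsmul_eq_mul]
    have hc₁ : ∀ T, T.card = a + 1 → ∀ x ∈ D.U T, dC (fun T' => z₁ T' x) T = 0 := by
      intro T hT x hx
      have h1 := dC_sub (fun T' => z T' x) (dC fun T' => y₁ T' x) T
      rw [dC_dC, hc T hT x hx, sub_zero] at h1
      exact h1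
    refine ⟨fun T x => y₁ T x + KK D i z₁ T x,
      fun T hT x hx => (hy₁ T hT x hx).add (KK_hol D hiS hz₁ hT x hx), ?_⟩
    intro T hT hnot x hx
    have h2 := dC_add (fun T' => y₁ T' x) (fun T' => KK D i z₁ T' x) T
    refine h2.trans ?_
    by_cases hiT : (i : WithBot (Fin n)) ∈ T
    · have hS₁ : ¬ S₁.image WithBot.some ⊆ T := by
        intro h
        apply hnot
        rw [Finset.image_insert]
        exact Finset.insert_subset hiT h
      rw [hy₁' T hT hS₁ x hx]
      have h3 := dC_KK_mem (a := a) D hiS (z := z₁) hiT (fun y hy => by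
        change z T y - dC (fun T' => y₁ T' y) T = 0
        rw [hy₁' T hT hS₁ y hy, sub_self]) hx
      rw [h3, add_zero]
    · rw [dC_KK_not_mem D hiS hz₁ hc₁ hT hiT hx]
      exact add_sub_cancel _ _

end Pool.Agent.DQ.H
end

section

/-! # DQ, module H: vanishing in low degrees -/

set_option autoImplicit false

open Set Filter Topology

universe u v

namespace Pool.Agent.DQ.H

variable {V : Type u} [NormedAddCommGroup V] [NormedSpace ℂ V] {n : ℕ} (D : CovD V n)

/-- Proof. `reduce` for `S₀ = D.S`: if `D.S.image _ ⊆ T` then `D.S.card ≤ T.card = a` (`CovD.card_S'`), contradiction. For `ColEx` note `a` fixed: `∀ T, T.card = a → ∀ x ∈ D.U T, HolAt (z T) x` is `HolNear (z T) (D.U T)`. -/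
theorem colEx_hol_lt {a : ℕ} (ha : a < D.S.card) : ColEx (G := fun _ : V => ℂ) D.U HolAt a := by
  intro z hz hc
  obtain ⟨y, hy, hy'⟩ := reduce D D.S (Finset.Subset.refl _) z hz hc
  refine ⟨y, hy, fun T hT x hx => hy' T hT ?_ x hx⟩
  intro h
  have h1 := Finset.card_le_card h
  have h2 := D.card_S'
  unfold CovD.S' at h2
  rw [h2, hT] at h1
  omega

end Pool.Agent.DQ.H
end

section

/-! # DQ, module H: connectedness -/

set_option autoImplicit false

open Set Filter Topology

universe u v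

namespace Pool.Agent.DQ.H

variable {V : Type u} [NormedAddCommGroup V] [NormedSpace ℂ V] {n : ℕ} (D : CovD V n)

private theorem CovB_ann {c : ℂ} {r R : ℝ} (hr : 0 < r) :
    IsPreconnected {z : ℂ | r < ‖z - c‖ ∧ ‖z - c‖ < R} := by
  have e : {z : ℂ | r < ‖z - c‖ ∧ ‖z - c‖ < R} =
      (fun p : ℝ × ℝ => c + (p.1 : ℂ) * Complex.exp ((p.2 : ℂ) * Complex.I)) ''
        (Ioo r R ×ˢ (univ : Set ℝ)) := by
    ext z
    constructor
    · rintro ⟨h1, h2⟩
      refine ⟨(‖z - c‖, (z - c).arg), ⟨⟨h1, h2⟩, mem_univ _⟩, ?_⟩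
      show c + (‖z - c‖ : ℂ) * Complex.exp (((z - c).arg : ℂ) * Complex.I) = z
      rw [Complex.norm_mul_exp_arg_mul_I]
      ring
    · rintro ⟨⟨ρ, θ⟩, ⟨⟨h1, h2⟩, -⟩, rfl⟩
      have hρ : 0 < ρ := lt_trans hr h1
      have : ‖c + (ρ : ℂ) * Complex.exp ((θ : ℂ) * Complex.I) - c‖ = ρ := by
        rw [add_sub_cancel_left, norm_mul, Complex.norm_exp_ofReal_mul_I, mul_one, Complex.norm_real,
          Real.norm_of_nonneg hρ.le]
      show r < ‖c + (ρ : ℂ) * Complex.exp ((θ : ℂ) * Complex.I) - c‖ ∧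
        ‖c + (ρ : ℂ) * Complex.exp ((θ : ℂ) * Complex.I) - c‖ < R
      rw [this]
      exact ⟨h1, h2⟩
  rw [e]
  apply IsPreconnected.image
  · exact isPreconnected_Ioo.prod isPreconnected_univ
  · apply Continuous.continuousOn
    fun_prop

/-- `U S` is connected (a product of discs and annuli)

Proof. `D.U D.S' = D.κ.symm '' Set.pi univ (fun i => if i ∈ D.S then {z | D.r i < ‖z - D.c i‖ ∧ ‖z - D.c i‖ < D.R i} else Metric.ball (D.c i) (D.R i))` (note `⊥ ∉ D.S'`). A ball is convex; an annulus with `0 < r < R` is the image of `Ioo r R ×ˢ univ` (preconnected, `ℝ × ℝ`) under the continuous map `(ρ, θ) ↦ c + ρ * exp (θ I)` (`Complex.norm_mul_exp_arg_mul_I` for surjectivity). `isPreconnected_univ_pi`, `IsPreconnected.image`. -/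
theorem CovD.preconnected_U : IsPreconnected (D.U D.S') := by
  classical
  have hbot : (⊥ : WithBot (Fin n)) ∉ D.S' := by
    intro h
    obtain ⟨i, _, hi⟩ := Finset.mem_image.mp h
    exact WithBot.coe_ne_bot hi
  have hmem : ∀ i : Fin n, (i : WithBot (Fin n)) ∈ D.S' ↔ i ∈ D.S := by
    intro i
    constructor
    · intro h
      obtain ⟨j, hj, hji⟩ := Finset.mem_image.mp h
      have : j = i := WithBot.coe_injective hji
      rwa [← this]
    · intro h
      exact Finset.mem_image.mpr ⟨i, h, rfl⟩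
  have e : D.U D.S' = D.κ.symm '' Set.pi univ (fun i => if i ∈ D.S then
      {z : ℂ | D.r i < ‖z - D.c i‖ ∧ ‖z - D.c i‖ < D.R i} else Metric.ball (D.c i) (D.R i)) := by
    ext x
    constructor
    · rintro ⟨h1, -, h3⟩
      refine ⟨D.κ x, fun i _ => ?_, by simp⟩
      by_cases hi : i ∈ D.S
      · simp only [if_pos hi]
        exact ⟨(h3 i ((hmem i).mpr hi)).2, h1 i⟩
      · simp only [if_neg hi]
        rw [mem_ball_iff_norm]
        exact h1 i
    · rintro ⟨y, hy, rfl⟩
      have hk : D.κ (D.κ.symm y) = y := by simp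
      refine ⟨fun i => ?_, fun h => absurd h hbot, fun i hi => ?_⟩
      · rw [hk]
        have := hy i (mem_univ i)
        by_cases hi : i ∈ D.S
        · simp only [if_pos hi] at this
          exact this.2
        · simp only [if_neg hi] at this
          rwa [mem_ball_iff_norm] at this
      · rw [hk]
        have := hy i (mem_univ i)
        simp only [if_pos ((hmem i).mp hi)] at this
        exact ⟨(hmem i).mp hi, this.1⟩
  rw [e]
  apply IsPreconnected.image _ _ D.κ.symm.continuous.continuousOn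
  apply isPreconnected_univ_pi
  intro i
  by_cases hi : i ∈ D.S
  · simp only [if_pos hi]
    exact CovB_ann (D.r_pos i hi).1
  · simp only [if_neg hi]
    exact (convex_ball _ _).isPreconnected

end Pool.Agent.DQ.H
end

section

/-! # DQ, module H: vanishing in the top degree -/

set_option autoImplicit false

open Set Filter Topology

universe u v

namespace Pool.Agent.DQ.H

variable {V : Type u} [NormedAddCommGroup V] [NormedSpace ℂ V] {n : ℕ} (D : CovD V n)

/-- Proof. `reduce` with `S₀ = D.S`, `a = D.S.card` gives `y` and it remains to treat `T = D.S'` (`Finset.eq_of_subset_of_card_le`). Let `f x = z T x - dC (fun T' => y T' x) T`, holomorphic on `D.U T`. For `x ∈ D.U (insert ⊥ T)`: `0 = dC (fun T' => z T' x - dC (fun T'' => y T'' x) T') (insert ⊥ T)` (`dC_sub`, `dC_dC`, `hc`), and in this sum all terms `j ≠ ⊥` vanish since `(insert ⊥ T).erase j` does not contain `j ∈ D.S'`; the term `j = ⊥` is `± f x` (`⊥ ∉ D.S'`). So `f = 0` on the nonempty open set `D.U (insert ⊥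 T) ⊆ D.U T`; `ident`, `CovD.preconnected_U`. -/
theorem colEx_hol_eq (hne : (D.U (insert ⊥ D.S')).Nonempty) :
    ColEx (G := fun _ : V => ℂ) D.U HolAt D.S.card := by
  intro z hz hc
  obtain ⟨y, hy, hy'⟩ := reduce D D.S (Finset.Subset.refl _) z hz hc
  refine ⟨y, hy, fun T hT x hx => ?_⟩
  by_cases h : D.S.image WithBot.some ⊆ T
  swap
  · exact hy' T hT h x hx
  have hTS : D.S' = T := Finset.eq_of_subset_of_card_le h (by rw [hT, ← D.card_S'])
  subst hTS
  set f : V → ℂ := fun x => z D.S' x - dC (fun T' => y T' x) D.S' with hfdef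
  have hf : HolNear f (D.U D.S') := by
    intro x hx
    refine (hz D.S' hT x hx).sub ?_
    unfold dC
    refine HolAt.sum D.S' fun j hj => ?_
    have h1 : HolAt (y (D.S'.erase j)) x := by
      refine hy _ ?_ x (D.U_anti (Finset.erase_subset _ _) hx)
      rw [Finset.card_erase_add_one hj, hT]
    have h2 := (HolAt.const ((sg j D.S' : ℤ) : ℂ) x).mul h1
    refine h2.congr (Eventually.of_forall fun y => ?_)
    simp only [zsmul_eq_mul]
  have hbot : (⊥ : WithBot (Fin n)) ∉ D.S' := by
    unfold CovD.S'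
    simp
  have hcard : (insert (⊥ : WithBot (Fin n)) D.S').card = D.S.card + 1 := by
    rw [Finset.card_insert_of_notMem hbot, hT]
  have hzero : ∀ x ∈ D.U (insert ⊥ D.S'), f x = 0 := by
    intro x hx
    set w : Finset (WithBot (Fin n)) → ℂ :=
      fun T' => z T' x - dC (fun T'' => y T'' x) T' with hw
    have h1 : dC w (insert ⊥ D.S') = 0 := by
      have h3 := dC_sub (fun T' => z T' x) (dC fun T' => y T' x) (insert ⊥ D.S')
      rw [dC_dC, hc _ hcard x hx, sub_zero] at h3
      exact h3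
    have h2 : dC w (insert ⊥ D.S') = sg ⊥ (insert ⊥ D.S') • w D.S' := by
      unfold dC
      rw [Finset.sum_eq_single_of_mem ⊥ (Finset.mem_insert_self _ _), Finset.erase_insert hbot]
      intro j hj hjne
      have hj' : j ∈ D.S' := Finset.mem_of_mem_insert_of_ne hj hjne
      have h4 : w ((insert (⊥ : WithBot (Fin n)) D.S').erase j) = 0 := by
        refine sub_eq_zero.2 (hy' _ ?_ ?_ x (D.U_anti (Finset.erase_subset _ _) hx)).symm
        · rw [Finset.card_erase_of_mem hj, hcard]
          rfl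
        · intro h5
          exact absurd (h5 hj') (Finset.notMem_erase _ _)
      rw [h4, smul_zero]
    rw [h2] at h1
    have h6 := congrArg (fun v : ℂ => sg (⊥ : WithBot (Fin n)) (insert ⊥ D.S') • v) h1
    simp only [smul_smul, sg_mul_self, one_smul, smul_zero] at h6
    exact h6
  obtain ⟨x₀, hx₀⟩ := hne
  have h7 := ident (D.isOpen_U _) D.preconnected_U hf
    (D.U_anti (Finset.subset_insert _ _) hx₀)
    (eventually_of_mem ((D.isOpen_U _).mem_nhds hx₀) hzero) x hx
  exact (sub_eq_zero.1 h7).symm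

end Pool.Agent.DQ.H
end

section

/-! # DQ, module G, task GI: isolated points of an analytic set in planes -/

set_option autoImplicit false

open Set Filter Topology Module

universe u

namespace Pool.Agent.DQ

variable {V : Type u} [NormedAddCommGroup V] [NormedSpace ℂ V] [FiniteDimensional ℂ V]

open Metric in
/-- **Being isolated in a plane is an open condition on the plane.**

Proof. Choose `ε > 0` such that the closed ball `B = closedBall y₀ ε` lies in `U` and every `x ∈ B ∩ Y` with `τ i x = τ i y₀` for all `i` is `y₀`. `V` is proper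
(`FiniteDimensional.proper`), so `B` and the sphere are compact. `Y ∩ B` is compact: `B \ (U \ Y) = B ∩ Y` is closed in the compact `B`. On the compact set `K = Y ∩ sphere y₀ ε` the
continuous function `φ x = ∑ i, ‖τ i x - τ i y₀‖` has no zero (a zero would be `y₀`, which is not on the sphere), so there is `η > 0` with `φ ≥ η` on `K` (if `K` is empty: any `η`).
If `‖τ' i - τ i‖ < δ` for all `i` then `|‖τ' i (x - y₀)‖ - ‖τ i (x - y₀)‖| ≤ δ ε` on the sphere, so `∑ ‖τ' i x - τ' i y₀‖ ≥ η - p δ ε > 0` for `δ := η / ((p + 1) * ε)`. So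
`X = {x ∈ Y ∩ B | ∀ i, τ' i x = τ' i y₀}` does not meet the sphere. `X` is compact (closed in `Y ∩ B`). `AnalyticNear X univ`: let `y ∈ X`; then `y ∈ ball y₀ ε`, `y ∈ Y ∩ U`;
`hYan` gives `f : Fin m → V → ℂ`; near `y` the condition `x ∈ B` is true (interior), so `x ∈ X ↔ (∀ j, f j x = 0) ∧ ∀ i, τ' i x - τ' i y₀ = 0`; these are `m + p` functions
(`Fin.append`, or `Fin.addCases`). By `compact_analytic_finite_proof` `X` is finite, so `y₀` is isolated in `X`: `∀ᶠ x in 𝓝 y₀, x ∈ X → x = y₀` (`X \ {y₀}` is finite, closed), and near `y₀` we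
are in `B`. -/
theorem isolated_near {Y U : Set V} (hU : IsOpen U) (hYU : IsOpen (U \ Y)) (hYan : AnalyticNear Y U) {y₀ : V}
    (hy₀ : y₀ ∈ U) {p : ℕ} (τ : Fin p → V →L[ℂ] ℂ)
    (hiso : ∀ᶠ x in 𝓝 y₀, x ∈ Y → (∀ i, τ i x = τ i y₀) → x = y₀) :
    ∃ δ > 0, ∀ τ' : Fin p → V →L[ℂ] ℂ, (∀ i, ‖τ' i - τ i‖ < δ) →
      ∀ᶠ x in 𝓝 y₀, x ∈ Y → (∀ i, τ' i x = τ' i y₀) → x = y₀ := by
  classical
  have hprop : ProperSpace V := FiniteDimensional.proper ℂ V
  obtain ⟨ε, hε, hball⟩ := Metric.nhds_basis_closedBall.mem_iff.mp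
    (inter_mem (hU.mem_nhds hy₀) hiso)
  have hBU : ∀ x ∈ closedBall y₀ ε, x ∈ U := fun x hx => (hball hx).1
  have hBiso : ∀ x ∈ closedBall y₀ ε, x ∈ Y → (∀ i, τ i x = τ i y₀) → x = y₀ :=
    fun x hx => (hball hx).2
  have hYiff : ∀ x ∈ closedBall y₀ ε, (x ∈ Y ↔ x ∈ (U \ Y)ᶜ) := by
    intro x hx
    constructor
    · intro h1 h2
      exact h2.2 h1
    · intro h1
      by_contra h2
      exact h1 ⟨hBU x hx, h2⟩
  have hScomp : IsCompact (sphere y₀ ε ∩ (U \ Y)ᶜ) :=
    (isCompact_sphere y₀ ε).inter_right hYU.isClosed_compl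
  let φ : V → ℝ := fun x => ∑ i, ‖τ i x - τ i y₀‖
  have hφc : Continuous φ := by
    refine continuous_finsetSum _ fun i _ => ?_
    exact ((τ i).continuous.sub continuous_const).norm
  have hφpos : ∀ x ∈ sphere y₀ ε ∩ (U \ Y)ᶜ, 0 < φ x := by
    rintro x ⟨hx1, hx2⟩
    have hxB : x ∈ closedBall y₀ ε := sphere_subset_closedBall hx1
    have h0 : 0 ≤ φ x := Finset.sum_nonneg fun i _ => norm_nonneg _
    rcases h0.lt_or_eq with h1 | h1
    · exact h1
    · exfalso
      have h2 := (Finset.sum_eq_zero_iff_of_nonneg (fun i _ => norm_nonneg _)).mp h1.symm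
      have h3 := hBiso x hxB ((hYiff x hxB).mpr hx2) fun i =>
        sub_eq_zero.mp (norm_eq_zero.mp (h2 i (Finset.mem_univ i)))
      rw [h3, mem_sphere, dist_self] at hx1
      exact hε.ne hx1
  obtain ⟨η, hη, hηφ⟩ : ∃ η > 0, ∀ x ∈ sphere y₀ ε ∩ (U \ Y)ᶜ, η ≤ φ x := by
    rcases (sphere y₀ ε ∩ (U \ Y)ᶜ).eq_empty_or_nonempty with h1 | h1
    · exact ⟨1, one_pos, fun x hx => by rw [h1] at hx; exact absurd hx (notMem_empty x)⟩
    · obtain ⟨x, hx, hmin⟩ := hScomp.exists_isMinOn h1 hφc.continuousOn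
      exact ⟨φ x, hφpos x hx, fun z hz => hmin hz⟩
  refine ⟨η / ((p + 1) * ε), by positivity, fun τ' hτ' => ?_⟩
  have hnot : ∀ x ∈ sphere y₀ ε ∩ (U \ Y)ᶜ, ¬ ∀ i, τ' i x = τ' i y₀ := by
    intro x hx hall
    have h1 := hηφ x hx
    have hxn : ‖x - y₀‖ = ε := by rw [← dist_eq_norm]; exact hx.1
    have h2 : φ x ≤ ∑ _i : Fin p, η / ((p + 1) * ε) * ε := by
      refine Finset.sum_le_sum fun i _ => ?_
      have h3 : τ i x - τ i y₀ = (τ i - τ' i) (x - y₀) := by
        rw [map_sub, sub_apply, sub_apply, hall i]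
        ring
      rw [h3]
      refine ((τ i - τ' i).le_opNorm _).trans ?_
      rw [hxn, norm_sub_rev]
      exact mul_le_mul_of_nonneg_right (hτ' i).le hε.le
    rw [Finset.sum_const, Finset.card_univ, Fintype.card_fin, nsmul_eq_mul] at h2
    have h4 : (p : ℝ) * (η / ((p + 1) * ε) * ε) < η := by
      have h5 : (p : ℝ) * (η / ((p + 1) * ε) * ε) = p / (p + 1) * η := by
        field_simp
      rw [h5]
      have h6 : (p : ℝ) / (p + 1) < 1 := by
        rw [div_lt_one (by positivity)]
        linarith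
      nlinarith
    linarith
  let X : Set V := (closedBall y₀ ε ∩ (U \ Y)ᶜ) ∩ {x | ∀ i, τ' i x = τ' i y₀}
  have hXc : IsCompact X := by
    refine ((isCompact_closedBall y₀ ε).inter_right hYU.isClosed_compl).inter_right ?_
    rw [Set.ofPred_forall]
    exact isClosed_iInter fun i => isClosed_eq (τ' i).continuous continuous_const
  have hXa : AnalyticNear X univ := by
    rintro y ⟨⟨⟨hy1, hy2⟩, hy3⟩, -⟩
    have hyball : y ∈ ball y₀ ε := by
      rcases (mem_closedBall.mp hy1).lt_or_eq with h1 | h1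
      · exact h1
      · exact absurd hy3 (hnot y ⟨h1, hy2⟩)
    obtain ⟨m, f, hf, hev⟩ := hYan y ⟨(hYiff y hy1).mpr hy2, hBU y hy1⟩
    refine ⟨m + p, Fin.append f (fun i x => τ' i x - τ' i y₀), fun j => ?_, ?_⟩
    · refine Fin.addCases (fun i => ?_) (fun i => ?_) j
      · rw [Fin.append_left]
        exact hf i
      · rw [Fin.append_right]
        exact Eventually.of_forall fun z => (τ' i).differentiableAt.sub_const _
    · filter_upwards [hev, isOpen_ball.mem_nhds hyball] with x hx1 hx2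
      have hxB : x ∈ closedBall y₀ ε := ball_subset_closedBall hx2
      constructor
      · rintro ⟨⟨-, h1⟩, h2⟩ j
        refine Fin.addCases (fun i => ?_) (fun i => ?_) j
        · rw [Fin.append_left]
          exact hx1.mp ((hYiff x hxB).mpr h1) i
        · rw [Fin.append_right]
          exact sub_eq_zero.mpr (h2 i)
      · intro h1
        refine ⟨⟨hxB, (hYiff x hxB).mp (hx1.mpr fun j => ?_)⟩, fun i => ?_⟩
        · have h2 := h1 (Fin.castAdd p j)
          rwa [Fin.append_left] at h2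
        · have h2 := h1 (Fin.natAdd m i)
          rw [Fin.append_right] at h2
          exact sub_eq_zero.mp h2
  have hXf : X.Finite := compact_analytic_finite_proof X hXc hXa
  have h1 : (X \ {y₀})ᶜ ∈ 𝓝 y₀ :=
    (hXf.subset sdiff_subset).isClosed.isOpen_compl.mem_nhds fun h => h.2 rfl
  filter_upwards [h1, closedBall_mem_nhds y₀ hε] with x hx1 hx2 hxY hxτ
  by_contra hne
  exact hx1 ⟨⟨⟨hx2, (hYiff x hx2).mp hxY⟩, hxτ⟩, hne⟩

end Pool.Agent.DQ
end
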