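import Mathlib
import Pool.Agent.DQ.Mg_MP_4aa2a9_ag.G002
import Pool.Agent.Lib.MP_4aa2a9_ag.Mg.G007
import Pool.Agent.Lib.MP_4aa2a9_ag.Mg.G004
import Pool.Agent.DQ.Mg_MP_4aa2a9_ag.G001
import Pool.Agent.Lib.MP_4aa2a9_ag.Mg.G011
import Pool.Agent.Lib.MP_4aa2a9_ag.Mg.G008
import Pool.Agent.DQ.Mg_MP_4aa2a9_ag.G003

section

/-! Module C of DQ: Cartan's theorems A and B, from Oka's theorem. -/

set_option autoImplicit false

open Set Filter Topology

universe u v w

namespace Pool.Agent.DQ.C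

variable {V : Type u} [NormedAddCommGroup V] [NormedSpace ℂ V] {n : ℕ}

theorem AB_cbox (hO : Oka V) (κ : V ≃L[ℂ] (Fin n → ℂ)) (c : Fin n → ℂ) (r R : Fin n → ℝ) :
    AB.{u, w} (cbox κ c r R) := by
  choose l hl using fun j => lv_cring (V := V) (c j) (r j) (R j)
  exact AB_box.{u, w} κ hO hl

theorem cartanA (hO : Oka V) (κ : V ≃L[ℂ] (Fin n → ℂ)) (c : Fin n → ℂ) (r R : Fin n → ℝ)
    (F : EMod.{u, u, w} (O V)) (hF : F.Coh (cbox κ c r R)) :
    ∃ (p : ℕ) (g : Fin p → (x : V) → F.St x),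
      (∀ i, F.On (g i) (cbox κ c r R)) ∧ F.Gen g (cbox κ c r R) :=
  (AB_cbox.{u, w} hO κ c r R F hF).1

theorem cartanB (hO : Oka V) (κ : V ≃L[ℂ] (Fin n → ℂ)) (c : Fin n → ℂ) (r R : Fin n → ℝ)
    (F : EMod.{u, u, w} (O V)) (hF : F.Coh (cbox κ c r R)) {p : ℕ}
    (g : Fin p → (x : V) → F.St x) (hg : ∀ i, F.On (g i) (cbox κ c r R))
    (hgen : F.Gen g (cbox κ c r R)) (s : (x : V) → F.St x) (hs : F.On s (cbox κ c r R)) :
    ∃ a : Fin p → V → ℂ, (∀ i, HolNear (a i) (cbox κ c r R)) ∧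
      ∀ x ∈ cbox κ c r R, s x = ∑ i, om (a i) x • g i x :=
  (AB_cbox.{u, w} hO κ c r R F hF).2 p g hg hgen s hs

theorem torsor (hO : Oka V) (κ : V ≃L[ℂ] (Fin n → ℂ)) (c : Fin n → ℂ) (r R : Fin n → ℝ)
    (F : EMod.{u, u, w} (O V)) (hF : F.Coh (cbox κ c r R)) (S : Set V)
    (hS : S = cbox κ c r R ∨ (S = box κ c r R ∧ GoodRadii r R))
    {G : V → Type v} [∀ x, AddTorsor (F.St x) (G x)] (AtG : ((x : V) → G x) → V → Prop)
    (ev : ∀ s x, AtG s x → ∀ᶠ y in 𝓝 x, AtG s y)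
    (congr : ∀ s t x, AtG s x → (∀ᶠ y in 𝓝 x, s y = t y) → AtG t x)
    (add : ∀ f s x, F.At f x → AtG s x → AtG (fun y => f y +ᵥ s y) x)
    (sub : ∀ s t x, AtG s x → AtG t x → F.At (fun y => s y -ᵥ t y) x)
    (loc : ∀ x ∈ S, ∃ s, AtG s x) :
    ∃ s, ∀ x ∈ S, AtG s x := by
  have hT : IsTors F AtG := ⟨ev, congr, add, sub⟩
  rcases hS with rfl | ⟨rfl, hrR⟩
  · choose l hl using fun j => lv_cring (V := V) (c j) (r j) (R j)
    exact tors_compact κ hO hT hl hF loc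
  · exact tors_open κ hO hT c r R hrR hF loc

/-! ### (B) over open products -/

section coeffs

variable (F : EMod.{u, u, w} (O V)) {p : ℕ} (g : Fin p → (x : V) → F.St x) (t : (x : V) → F.St x)

/-- the possible coefficients of `t` with respect to the `g i`, at `x` -/
structure Coeff (x : V) : Type u where
  /-- the coefficients -/
  val : Fin p → (O V).St x
  mem : ∑ i, val i • g i x = t x

variable {F g t}

theorem Coeff.ext' {x : V} {c c' : Coeff F g t x} (h : c.val = c'.val) : c = c' := by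
  cases c
  cases c'
  cases h
  rfl

theorem Coeff.add_mem {x : V} (m : (F.relSh g).St x) (c : Coeff F g t x) :
    ∑ i, (F.relVal g x m i + c.val i) • g i x = t x := by
  have h1 := F.relVal_mem g x m
  have h2 := c.2
  simp only [add_smul, Finset.sum_add_distrib]
  rw [h1, h2, zero_add]

theorem Coeff.sub_mem {x : V} (c c' : Coeff F g t x) :
    (fun i => c.1 i - c'.1 i) ∈ F.rel g x := by
  have h1 := c.2
  have h2 := c'.2
  change ∑ i, (c.1 i - c'.1 i) • g i x = 0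
  simp only [sub_smul, Finset.sum_sub_distrib]
  rw [h1, h2, sub_self]

open Classical in
/-- the coefficients given by sections -/
noncomputable def mkCoeff (hne : ∀ x, Nonempty (Coeff F g t x))
    (f : Fin p → (x : V) → (O V).St x) (y : V) : Coeff F g t y :=
  if h : ∑ i, f i y • g i y = t y then ⟨fun i => f i y, h⟩ else Classical.choice (hne y)

theorem mkCoeff_val (hne : ∀ x, Nonempty (Coeff F g t x)) {f : Fin p → (x : V) → (O V).St x}
    {y : V} (h : ∑ i, f i y • g i y = t y) : (mkCoeff hne f y).1 = fun i => f i y := by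
  unfold mkCoeff
  rw [dif_pos h]

variable (F g t) in
/-- the torsor of the coefficients -/
@[instance_reducible]
noncomputable def coeffTorsor (x : V) (hne : Nonempty (Coeff F g t x)) :
    AddTorsor ((F.relSh g).St x) (Coeff F g t x) where
  vadd m c := ⟨fun i => F.relVal g x m i + c.1 i, Coeff.add_mem m c⟩
  zero_vadd c := by
    apply Coeff.ext'
    funext i
    change F.relVal g x 0 i + c.1 i = c.1 i
    rw [map_zero]
    exact zero_add _
  add_vadd m m' c := by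
    apply Coeff.ext'
    funext i
    change F.relVal g x (m + m') i + c.1 i = F.relVal g x m i + (F.relVal g x m' i + c.1 i)
    rw [map_add]
    exact add_assoc _ _ _
  vsub c c' := (⟨fun i => c.1 i - c'.1 i, Coeff.sub_mem c c'⟩ : F.rel g x)
  nonempty := hne
  vsub_vadd' c c' := by
    apply Coeff.ext'
    funext i
    change c.1 i - c'.1 i + c'.1 i = c.1 i
    exact sub_add_cancel _ _
  vadd_vsub' m c := by
    apply F.relVal_injective g x
    funext i
    change F.relVal g x m i + c.1 i - c.1 i = F.relVal g x m i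
    exact add_sub_cancel_right _ _

end coeffs

theorem cartanB_open (hO : Oka V) (κ : V ≃L[ℂ] (Fin n → ℂ)) (c : Fin n → ℂ) (r R : Fin n → ℝ)
    (hrR : GoodRadii r R) (F : EMod.{u, u, w} (O V)) (hF : F.Coh (cbox κ c r R)) {p : ℕ}
    (g : Fin p → (x : V) → F.St x) (hg : ∀ i, F.On (g i) (cbox κ c r R))
    (hgen : F.Gen g (cbox κ c r R)) (s : (x : V) → F.St x) (hs : F.On s (box κ c r R)) :
    ∃ a : Fin p → V → ℂ, (∀ i, HolNear (a i) (box κ c r R)) ∧
      ∀ x ∈ box κ c r R, s x = ∑ i, om (a i) x • g i x := by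
  classical
  have hsub := box_subset_cbox κ c r R
  have hUo : IsOpen (box κ c r R) := isOpen_Box κ fun j => isOpen_ring (c j) (r j) (R j)
  have hdom : ∀ x ∈ cbox κ c r R, x ∈ F.dom := fun x hx => (cohAt_of_coh hF hx).1
  -- the section, extended by zero
  set t : (x : V) → F.St x := fun x => if x ∈ box κ c r R then s x else 0 with ht
  have hts : ∀ x ∈ box κ c r R, ∀ᶠ y in 𝓝 x, s y = t y := by
    intro x hx
    filter_upwards [hUo.mem_nhds hx] with y hy
    simp only [ht, if_pos hy]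
  have htat : F.On t (box κ c r R) := fun x hx => F.congr (hs x hx) (hts x hx)
  have hne : ∀ x, Nonempty (Coeff F g t x) := by
    intro x
    by_cases hx : x ∈ box κ c r R
    · obtain ⟨co, hco⟩ := exists_coeff (hgen x (hsub hx)) (t x)
      exact ⟨⟨co, hco.symm⟩⟩
    · refine ⟨⟨fun _ => 0, ?_⟩⟩
      simp only [ht, if_neg hx, zero_smul, Finset.sum_const_zero]
  let _ : ∀ x, AddTorsor ((F.relSh g).St x) (Coeff F g t x) := fun x =>
    coeffTorsor F g t x (hne x)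
  have hN : (F.relSh g).Coh (cbox κ c r R) := relSh_coh hO hF hg
  obtain ⟨a, ha⟩ := torsor hO κ c r R (F.relSh g) hN (box κ c r R) (Or.inr ⟨rfl, hrR⟩)
    (G := fun x => Coeff F g t x)
    (fun a x => x ∈ box κ c r R ∧ ∀ i, (O V).At (fun y => (a y).1 i) x)
    (by
      rintro a x ⟨hx, ha⟩
      exact (eventually_of_mem (hUo.mem_nhds hx) fun _ h => h).and
        (eventually_all.mpr fun i => (O V).ev (ha i)))
    (by
      rintro a b x ⟨hx, ha⟩ hab
      refine ⟨hx, fun i => (O V).congr (ha i) ?_⟩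
      filter_upwards [hab] with y hy
      rw [hy])
    (by
      rintro m a x hm ⟨hx, ha⟩
      exact ⟨hx, fun i => (O V).add ((EMod.relSh_at_iff.mp hm).2 i) (ha i)⟩)
    (by
      rintro a b x ⟨hx, ha⟩ ⟨_, hb⟩
      rw [EMod.relSh_at_iff]
      refine ⟨⟨hdom x (hsub hx), fun i => hg i x (hsub hx)⟩, fun i => ?_⟩
      have h1 := (O V).add (ha i) ((O V).neg (hb i))
      refine (O V).congr h1 (Eventually.of_forall fun y => ?_)
      exact (sub_eq_add_neg ((a y).1 i) ((b y).1 i)).symm)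
    (by
      intro x hx
      obtain ⟨co, hco⟩ := exists_coeff (hgen x (hsub hx)) (t x)
      choose f hf hfx using fun i => exists_gm (co i)
      have h1 : F.At (fun y => ∑ i, gm (f i) y • g i y) x :=
        comb_at (hdom x (hsub hx)) (fun i => hg i x (hsub hx)) hf
      have h2 : ∀ᶠ y in 𝓝 x, ∑ i, gm (f i) y • g i y = t y := by
        refine F.inj h1 (htat x hx) ?_
        rw [hco]
        exact Finset.sum_congr rfl fun i _ => by rw [hfx i]
      refine ⟨mkCoeff hne (fun i => om (f i)), hx, fun i => ?_⟩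
      refine (O V).congr (at_gm (hf i)) ?_
      filter_upwards [h2] with y hy
      exact (congrFun (mkCoeff_val hne (f := fun i => om (f i)) hy) i).symm)
  have hev := fun i => fun x (hx : x ∈ box κ c r R) => at_evg ((ha x hx).2 i)
  refine ⟨fun i y => evg y ((a y).1 i), fun i x hx => (hev i x hx).1, fun x hx => ?_⟩
  have h1 := (a x).2
  have h2 : t x = s x := (hts x hx).self_of_nhds.symm
  rw [← h2, ← h1]
  refine Finset.sum_congr rfl fun i _ => ?_
  have h3 := (hev i x hx).2.self_of_nhds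
  exact congrArg (fun z : (O V).St x => z • g i x) h3

end Pool.Agent.DQ.C
end

section

/-! Campaign DQ, module W, file WOkaS: the induction step of Oka's theorem. -/

set_option autoImplicit false

open Metric Set Filter Topology

universe u

namespace Pool.Agent.DQ.W

/-- **Induction step.**

Proof. Let `x : E`, `f : ι → E → ℂ`. If all `f i` vanish near `x`: `okaFor_zero`. Otherwise let `J` be the subtype of the `i` with
`∃ᶠ y in 𝓝 x, f i y ≠ 0`, nonempty; `E` is nontrivial (dimension `n + 1 > 0`), `exists_dir_all` gives `e ≠ 0` with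
`∃ᶠ t in 𝓝 0, f i (x + t • e) ≠ 0` for all `i ∈ J`; `exists_coord` gives `V`, `φ : E ≃L[ℂ] V × ℂ`, `φ e = (0, 1)`, `finrank V = n`.
Put `Φ y := φ (y - x)`, `Ψ q := x + φ.symm q` (entire, inverse to each other, `Φ x = (0, 0)`), `F i := f i ∘ Ψ`;
`F i (0, t) = f i (x + t • e)`. `weier_family` (with `v₀ = 0`) gives `F i = w i * P i`; `okaFor_poly` (with `hV V`), `OkaFor.of_unit` give
`OkaFor (fun i _ => F i) (0, 0)`, and `OkaFor.pull` along `Φ` gives `OkaFor (fun i _ y => F i (Φ y)) x`, and `F i (Φ y) = f i y`. -/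
theorem oka_step (n : ℕ) (hV : ∀ (V : Type u) [NormedAddCommGroup V] [NormedSpace ℂ V] [FiniteDimensional ℂ V],
      Module.finrank ℂ V = n → Oka V)
    (E : Type u) [NormedAddCommGroup E] [NormedSpace ℂ E] [FiniteDimensional ℂ E] (hE : Module.finrank ℂ E = n + 1) :
    Oka1 E := by
  classical
  intro x ι _ f hf
  by_cases hall : ∀ i, ∀ᶠ y in 𝓝 x, f i y = 0
  · exact okaFor_zero fun i _ => hall i
  have hex : ∃ i, ∃ᶠ y in 𝓝 x, f i y ≠ 0 := by
    push Not at hall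
    exact hall
  have hnt : Nontrivial E := Module.nontrivial_of_finrank_pos (R := ℂ) (by omega)
  obtain ⟨e, he, hdir⟩ := exists_dir_all (ι := {i // ∃ᶠ y in 𝓝 x, f i y ≠ 0}) (x := x) (f := fun i => f i.1)
    (fun i => hf i.1) (fun i => i.2)
  obtain ⟨V, φ, hfin, hφe⟩ := exists_coord he
  have hV' : Module.finrank ℂ V = n := by omega
  have hφs : ∀ t : ℂ, φ.symm ((0, t) : V × ℂ) = t • e := by
    intro t
    have h1 : ((0, t) : V × ℂ) = t • ((0, 1) : V × ℂ) := by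
      ext <;> simp
    rw [h1, map_smul, ← hφe, φ.symm_apply_apply]
  obtain ⟨Φ, hΦ⟩ : ∃ Φ : E → V × ℂ, Φ = fun y => φ (y - x) := ⟨_, rfl⟩
  obtain ⟨Ψ, hΨ⟩ : ∃ Ψ : V × ℂ → E, Ψ = fun q => x + φ.symm q := ⟨_, rfl⟩
  have hΦd : Differentiable ℂ Φ := by
    rw [hΦ]
    exact φ.differentiable.comp (differentiable_id.sub_const x)
  have hΨd : Differentiable ℂ Ψ := by
    rw [hΨ]
    exact (φ.symm.differentiable).const_add x
  have h1 : ∀ y, Ψ (Φ y) = y := by
    intro y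
    rw [hΦ, hΨ]
    simp
  have h2 : ∀ q, Φ (Ψ q) = q := by
    intro q
    rw [hΦ, hΨ]
    simp
  have hΨ0 : Ψ (0, 0) = x := by
    rw [hΨ]
    simp only
    rw [hφs 0, zero_smul, add_zero]
  have hΦx : Φ x = (0, 0) := by
    rw [← hΨ0, h2]
  have hF : ∀ i, HolAt (fun q => f i (Ψ q)) ((0, 0) : V × ℂ) := by
    intro i
    refine HolAt.comp (f := Ψ) (x := ((0, 0) : V × ℂ)) ?_ (Eventually.of_forall fun q => hΨd q)
    rw [hΨ0]
    exact hf i
  have hline : ∀ t : ℂ, Ψ (0, t) = x + t • e := by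
    intro t
    rw [hΨ]
    simp only
    rw [hφs t]
  have hkind : ∀ i, (∃ᶠ t in 𝓝 (0 : ℂ), f i (Ψ (0, t)) ≠ 0) ∨
      ∀ᶠ p in 𝓝 ((0, 0) : V × ℂ), f i (Ψ p) = 0 := by
    intro i
    by_cases hi : ∃ᶠ y in 𝓝 x, f i y ≠ 0
    · left
      have h3 := hdir ⟨i, hi⟩
      refine h3.mono fun t ht => ?_
      rw [hline]
      exact ht
    · right
      have h3 : ∀ᶠ y in 𝓝 x, f i y = 0 := by
        rw [not_frequently] at hi
        exact hi.mono fun y hy => not_not.mp hy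
      have h4 : Tendsto Ψ (𝓝 ((0, 0) : V × ℂ)) (𝓝 x) := by
        have := hΨd.continuous.tendsto ((0, 0) : V × ℂ)
        rwa [hΨ0] at this
      exact h4.eventually h3
  have hne : ∃ i, ∃ᶠ t in 𝓝 (0 : ℂ), f i (Ψ (0, t)) ≠ 0 := by
    obtain ⟨i, hi⟩ := hex
    refine ⟨i, (hdir ⟨i, hi⟩).mono fun t ht => ?_⟩
    rw [hline]
    exact ht
  obtain ⟨k, i₀, a, w, ha, ha1, hw, hw0, heq⟩ := weier_family (v₀ := (0 : V)) hF hkind hne
  have hpoly := okaFor_poly (t₀ := 0) (hV V hV') ha i₀ ha1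
  have hP : ∀ i (_ : Unit), HolAt (fun p : V × ℂ => ∑ m ∈ Finset.range (k + 1), a i m p.1 * p.2 ^ m) ((0, 0) : V × ℂ) :=
    fun i _ => HolAt.sum _ fun m _ =>
      ((ha i m).comp (f := Prod.fst) (x := ((0, 0) : V × ℂ)) (holAt_fst _)).mul ((holAt_snd ((0, 0) : V × ℂ)).pow m)
  have hO : OkaFor (fun i (_ : Unit) (q : V × ℂ) => f i (Ψ q)) ((0, 0) : V × ℂ) :=
    OkaFor.of_unit hP hw hw0 (fun i _ => heq i) hpoly
  rw [← hΦx] at hO
  have hpull := OkaFor.pull hΦd hΨd h1 h2 (fun i _ => by rw [hΦx]; exact hF i) hO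
  simp only [h1] at hpull
  exact hpull

end Pool.Agent.DQ.W
end

section

/-! # Moments -/

set_option autoImplicit false

open Set Filter Topology Metric

namespace Pool.Agent.DQ.X

variable {T : Type*} [NormedAddCommGroup T] [NormedSpace ℂ T]
  {Z : Type*} [NormedAddCommGroup Z] [NormedSpace ℂ Z] [CompleteSpace Z]

private theorem K1a_mom_eq (s : ℝ) (f : ℂ → Z) (k : ℕ) : mom s f k =
    (2 * Real.pi * Complex.I : ℂ)⁻¹ • ∮ z in C(0, s), z ^ k • f z := by
  unfold mom DQ.F.lc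
  have h : -(-(k : ℤ) - 1) - 1 = (k : ℤ) := by ring
  rw [h]
  simp only [zpow_natCast]

/-- The moments do not depend on the radius.
PROOF. `DQ.F.lc_eq` for `min s s'`, `max s s'` (symmetric in `s`, `s'`; WLOG `s ≤ s'`). -/
theorem mom_radius {j j' s s' : ℝ} (hj : 0 < j) (h1 : j < s) (h2 : s < j') (h3 : j < s')
    (h4 : s' < j') {f : ℂ → Z} (hf : DifferentiableOn ℂ f (An j j')) (k : ℕ) :
    mom s f k = mom s' f k := by
  have key : ∀ {u v : ℝ}, u ≤ v → j < u → v < j' → mom v f k = mom u f k := by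
    intro u v huv hu hv
    unfold mom
    exact DQ.F.lc_eq (hj.trans hu) huv (fun z h5 h6 => hf.differentiableAt
      ((isOpen_An j j').mem_nhds ⟨hu.trans_le h5, h6.trans_lt hv⟩)) _
  rcases le_total s s' with h | h
  · exact (key h h1 h4).symm
  · exact key h h3 h2

/-- The moments depend holomorphically on the parameters.
PROOF. Let `t ∈ U`. Apply `DQ.F.differentiableAt_laur` with `r = R = s` (`haveI : Fact (0 < s)`), and
`a = (j + s) / 2`, `b = (s + j') / 2`; for `x` near `t` (`x ∈ U`) and `a ≤ ‖z‖ ≤ b` the point `(x, z)` is in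
the open set `U ×ˢ An j j'`. Then `t ↦ laur s s (f (t, ·))` is differentiable at `t`, compose with the continuous
linear map `DQ.F.Beur.coefL (-k-1)`; near `t` the composition is `mom s (f (t, ·)) k` by `DQ.F.coef_laur`
(`DifferentiableAt.congr_of_eventuallyEq`). -/
theorem mom_hol {U : Set T} (hU : IsOpen U) {j j' s : ℝ} (hj : 0 < j) (h1 : j < s) (h2 : s < j')
    {f : T × ℂ → Z} (hf : DifferentiableOn ℂ f (U ×ˢ An j j')) (k : ℕ) :
    DifferentiableOn ℂ (fun t => mom s (fun w => f (t, w)) k) U := by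
  intro t ht
  have : Fact (0 < s) := ⟨hj.trans h1⟩
  have ha0 : 0 < (j + s) / 2 := by linarith
  have ha1 : j < (j + s) / 2 := by linarith
  have ha2 : (j + s) / 2 < s := by linarith
  have hb1 : s < (s + j') / 2 := by linarith
  have hb2 : (s + j') / 2 < j' := by linarith
  have hev : ∀ᶠ x in 𝓝 t, ∀ z : ℂ, (j + s) / 2 ≤ ‖z‖ → ‖z‖ ≤ (s + j') / 2 →
      DifferentiableAt ℂ f (x, z) := by
    filter_upwards [hU.mem_nhds ht] with x hx z h5 h6
    exact hf.differentiableAt ((hU.prod (isOpen_An j j')).mem_nhds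
      ⟨hx, ha1.trans_le h5, h6.trans_lt hb2⟩)
  have h7 := DQ.F.differentiableAt_laur (r := s) (R := s) (g := f) ha0 ha2 le_rfl hb1 hev
  have h8 : DifferentiableAt ℂ (fun x => DQ.F.Beur.coefL (-(k : ℤ) - 1)
      (DQ.F.laur s s (fun z => f (x, z)))) t :=
    (ContinuousLinearMap.differentiableAt _).comp t h7
  refine (h8.congr_of_eventuallyEq ?_).differentiableWithinAt
  filter_upwards [hev] with x hx
  change mom s (fun w => f (x, w)) k = (DQ.F.laur s s (fun z => f (x, z))).coef (-(k : ℤ) - 1)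
  rw [DQ.F.coef_laur ha0 ha2 le_rfl hb1]
  · rfl
  · intro z h5 h6
    have h9 : DifferentiableAt ℂ (fun y : ℂ => ((x, y) : T × ℂ)) z := by fun_prop
    exact DifferentiableAt.comp (f := fun y : ℂ => ((x, y) : T × ℂ)) (g := f) z (hx z h5 h6) h9

/-- The moments of a polynomial multiple.
PROOF. `mom s f k = (2 π i)⁻¹ • ∮ z ^ k • f z` (the exponent `-(-k-1)-1` is `k`, `zpow_natCast`).
`z ^ k • (∑ i, p i * z ^ i) • f z = ∑ i, p i • z ^ (k + i) • f z`; `circleIntegral.integral_fun_sum`-type lemma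
(or induction / `intervalIntegral.integral_finset_sum`), `circleIntegral.integral_smul`; all functions are
circle integrable as they are continuous on the circle (`ContinuousOn.circleIntegrable`). -/
theorem mom_poly {s : ℝ} (hs : 0 < s) {f : ℂ → Z} (hf : ContinuousOn f (sphere 0 s)) {N : ℕ}
    (p : Fin N → ℂ) (k : ℕ) :
    mom s (fun w => (∑ i, p i * w ^ (i : ℕ)) • f w) k = ∑ i, p i • mom s f (k + i) := by
  rw [K1a_mom_eq, circleIntegral.integral_congr (g := fun z => ∑ i, p i • (z ^ (k + (i : ℕ)) • f z))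
    hs.le]
  · rw [circleIntegral.integral_fun_sum]
    · rw [Finset.smul_sum]
      refine Finset.sum_congr rfl fun i _ => ?_
      rw [circleIntegral.integral_smul, K1a_mom_eq, smul_comm]
    · intro i _
      refine ContinuousOn.circleIntegrable hs.le ?_
      exact ((continuousOn_id.pow (k + (i : ℕ))).smul hf).const_smul (p i)
  · intro z _
    change z ^ k • (∑ i, p i * z ^ (i : ℕ)) • f z = ∑ i, p i • (z ^ (k + (i : ℕ)) • f z)
    rw [smul_smul, Finset.mul_sum, Finset.sum_smul]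
    refine Finset.sum_congr rfl fun i _ => ?_
    rw [smul_smul]
    congr 1
    rw [pow_add]
    ring

/-- The moments of a function which extends to the disc vanish.
PROOF. The integral of `z ^ k • f z = z ^ k • F z` over the circle is zero by Cauchy's theorem
(`Complex.circleIntegral_eq_zero_of_differentiable_on_off_countable` with the empty set, `F` is
continuous and differentiable on `ball 0 b`, which contains `closedBall 0 s`);
`circleIntegral.integral_congr`. -/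
theorem mom_eq_zero {s b : ℝ} (hs : 0 < s) (hsb : s < b) {f F : ℂ → Z}
    (hF : DifferentiableOn ℂ F (ball 0 b)) (h : ∀ w : ℂ, ‖w‖ = s → f w = F w) (k : ℕ) :
    mom s f k = 0 := by
  rw [K1a_mom_eq, circleIntegral.integral_congr (g := fun z => z ^ k • F z) hs.le]
  · have hd : ∀ z : ℂ, ‖z‖ < b → DifferentiableAt ℂ (fun z => z ^ k • F z) z := by
      intro z hz
      exact (differentiableAt_id.pow k).smul
        (hF.differentiableAt (isOpen_ball.mem_nhds (mem_ball_zero_iff.mpr hz)))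
    rw [Complex.circleIntegral_eq_zero_of_differentiable_on_off_countable hs.le countable_empty
      (fun z hz => (hd z ?_).continuousAt.continuousWithinAt) (fun z hz => hd z ?_), smul_zero]
    · exact (mem_closedBall_zero_iff.mp hz).trans_lt hsb
    · exact (mem_ball_zero_iff.mp hz.1).trans hsb
  · intro z hz
    change z ^ k • f z = z ^ k • F z
    rw [h z (mem_sphere_zero_iff_norm.mp hz)]

end Pool.Agent.DQ.X
end

section

/-! # From a holomorphic multiplier to a polynomial multiplier -/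

set_option autoImplicit false

open Set Filter Topology Metric

namespace Pool.Agent.DQ.X

variable {Z : Type*} [NormedAddCommGroup Z] [NormedSpace ℂ Z] [CompleteSpace Z]

/-- PROOF. `DQ.F.exists_factor` for `K = closedBall 0 s` and `f = δ` (`δ` is analytic on `ball 0 j'`,
`DifferentiableOn.analyticOnNhd`; it is not locally zero at any point of the disc by the identity theorem
`AnalyticOnNhd.eqOn_zero_of_preconnected_of_eventuallyEq_zero` on the convex set `ball 0 j'`): a polynomial `P ≠ 0` and `u`, analytic near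
`K`, without zeros on `K`, `δ = P u` near `K`. Let `N = P.natDegree`, `p i = P.coeff i`; `p ≠ 0` as the leading coefficient
is not zero; `P.eval w = ∑ i : Fin (N + 1), p i * w ^ i` (`Polynomial.eval_eq_sum_range`, `Fin.sum_univ_eq_sum_range`).
The set of the points where `u` is differentiable and `≠ 0` contains an open neighbourhood of `K`
(`analyticOnNhd` on a set implies analytic at all near points, `AnalyticAt.eventually_analyticAt`), so it contains `ball 0 b` for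
some `b` with `s < b ≤ j'` (`IsCompact.exists_thickening_subset_open`, or `exists_larger` in spirit). Let `F w = (u w)⁻¹ • σ w`
on `ball 0 b`; for `‖w‖ = s` we have `P(w) • τ w = u⁻¹ P u • τ = u⁻¹ δ • τ = F w`. By `mom_poly` (the function `τ` is
continuous on the circle) the sum is `mom s (fun w => (∑ i, p i * w ^ i) • τ w) k`, which is zero by `mom_eq_zero`. -/
theorem exists_poly {j j' s : ℝ} (hj : 0 < j) (h1 : j < s) (h2 : s < j') {τ : ℂ → Z}
    (hτ : DifferentiableOn ℂ τ (An j j')) {δ : ℂ → ℂ} {σ : ℂ → Z}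
    (hδ : DifferentiableOn ℂ δ (ball 0 j')) (hσ : DifferentiableOn ℂ σ (ball 0 j'))
    (hne : ∃ w ∈ ball (0 : ℂ) j', δ w ≠ 0) (h : ∀ w ∈ An j j', σ w = δ w • τ w) :
    ∃ (N : ℕ) (p : Fin (N + 1) → ℂ), p ≠ 0 ∧ ∀ k : ℕ, ∑ i, p i • mom s τ (k + i) = 0 := by
  have hs : 0 < s := hj.trans h1
  have hsub : closedBall (0 : ℂ) s ⊆ ball 0 j' := closedBall_subset_ball h2
  have hδa : AnalyticOnNhd ℂ δ (ball 0 j') := hδ.analyticOnNhd isOpen_ball
  have hnz : ∀ x ∈ closedBall (0 : ℂ) s, ¬ (∀ᶠ y in 𝓝 x, δ y = 0) := by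
    intro x hx hev
    obtain ⟨w, hw, hne'⟩ := hne
    exact hne' (hδa.eqOn_zero_of_preconnected_of_eventuallyEq_zero
      (convex_ball (0 : ℂ) j').isPreconnected (hsub hx) hev hw)
  obtain ⟨P, u, hP, hu, hu0, hfac⟩ := DQ.F.exists_factor (isCompact_closedBall (0 : ℂ) s)
    (hδa.mono hsub) hnz
  -- a neighbourhood on which u is differentiable without zeros
  have hV : {w : ℂ | DifferentiableAt ℂ u w ∧ u w ≠ 0 ∧ w ∈ ball (0 : ℂ) j'} ∈
      𝓝ˢ (closedBall (0 : ℂ) s) := by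
    rw [mem_nhdsSet_iff_forall]
    intro x hx
    filter_upwards [(hu x hx).eventually_analyticAt,
      (hu x hx).continuousAt.eventually_ne (hu0 x hx), isOpen_ball.mem_nhds (hsub hx)]
      with y hy1 hy2 hy3
    exact ⟨hy1.differentiableAt, hy2, hy3⟩
  obtain ⟨V, hVo, hKV, hVs⟩ := mem_nhdsSet_iff_exists.mp hV
  obtain ⟨ε, hε, hth⟩ := (isCompact_closedBall (0 : ℂ) s).exists_thickening_subset_open hVo hKV
  rw [thickening_closedBall hε hs.le] at hth
  have hF : DifferentiableOn ℂ (fun w => (u w)⁻¹ • σ w) (ball 0 (ε + s)) := by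
    intro w hw
    obtain ⟨h5, h6, h7⟩ := hVs (hth hw)
    exact ((h5.inv h6).smul (hσ.differentiableAt (isOpen_ball.mem_nhds h7))).differentiableWithinAt
  refine ⟨P.natDegree, fun i => P.coeff i, ?_, fun k => ?_⟩
  · intro h0
    have h5 := congrFun h0 (Fin.last _)
    exact hP (Polynomial.leadingCoeff_eq_zero.mp h5)
  · have hcont : ContinuousOn τ (sphere 0 s) := hτ.continuousOn.mono fun w hw => by
      have h5 : ‖w‖ = s := mem_sphere_zero_iff_norm.mp hw
      exact ⟨by rw [h5]; exact h1, by rw [h5]; exact h2⟩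
    rw [← mom_poly hs hcont (fun i : Fin (P.natDegree + 1) => P.coeff i) k]
    refine mom_eq_zero hs (b := ε + s) (by linarith) hF ?_ k
    intro w hw
    have h5 : (∑ i : Fin (P.natDegree + 1), P.coeff i * w ^ (i : ℕ)) = P.eval w := by
      rw [Polynomial.eval_eq_sum_range,
        Fin.sum_univ_eq_sum_range (fun i => P.coeff i * w ^ i) (P.natDegree + 1)]
    have hwK : w ∈ closedBall (0 : ℂ) s := mem_closedBall_zero_iff.mpr hw.le
    have h6 : δ w = P.eval w * u w := hfac.self_of_nhdsSet w hwK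
    have h7 := h w ⟨by rw [hw]; exact h1, by rw [hw]; exact h2⟩
    change (∑ i : Fin (P.natDegree + 1), P.coeff i * w ^ (i : ℕ)) • τ w = (u w)⁻¹ • σ w
    rw [h5, h7, h6, smul_smul]
    congr 1
    field_simp [hu0 w hwK]

end Pool.Agent.DQ.X
end

section

/-! # Extension to the disc -/

set_option autoImplicit false

open Set Filter Topology Metric

namespace Pool.Agent.DQ.X

variable {T : Type*} [NormedAddCommGroup T] [NormedSpace ℂ T]
  {Z : Type*} [NormedAddCommGroup Z] [NormedSpace ℂ Z] [CompleteSpace Z]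

private theorem K1b_key {U : Set T} (hU : IsOpen U) {j j' s : ℝ} (hj : 0 < j) (h1 : j < s)
    (h2 : s < j') {f : T × ℂ → Z} (hf : DifferentiableOn ℂ f (U ×ˢ An j j'))
    (h0 : ∀ t ∈ U, ∀ k : ℕ, mom s (fun w => f (t, w)) k = 0) {r R : ℝ} [hr : Fact (0 < r)]
    [hR : Fact (0 < R)] (hjr : j < r) (hrR : r < R) (hRj : R < j') {t : T} (ht : t ∈ U) :
    (∀ w : ℂ, ‖w‖ ≤ R → DQ.F.evp w (DQ.F.laur r R (fun z => f (t, z))) =
      ∑' k : ℤ, DQ.F.chp w k • DQ.F.lc (fun z => f (t, z)) R k) ∧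
    ∀ w : ℂ, r ≤ ‖w‖ → ‖w‖ ≤ R → DQ.F.evp w (DQ.F.laur r R (fun z => f (t, z))) = f (t, w) := by
  have hd : ∀ z : ℂ, z ∈ An j j' → DifferentiableAt ℂ (fun z => f (t, z)) z := by
    intro z hz
    have h9 : DifferentiableAt ℂ (fun y : ℂ => ((t, y) : T × ℂ)) z := by fun_prop
    exact DifferentiableAt.comp (f := fun y : ℂ => ((t, y) : T × ℂ)) (g := f) z
      (hf.differentiableAt ((hU.prod (isOpen_An j j')).mem_nhds ⟨ht, hz⟩)) h9
  have ha0 : 0 < (j + r) / 2 := by linarith [hr.out]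
  have ha1 : j < (j + r) / 2 := by linarith
  have ha2 : (j + r) / 2 < r := by linarith
  have hb1 : R < (R + j') / 2 := by linarith
  have hb2 : (R + j') / 2 < j' := by linarith
  have hcoef : ∀ k, (DQ.F.laur r R (fun z => f (t, z))).coef k =
      DQ.F.lc (fun z => f (t, z)) R k := fun k =>
    DQ.F.coef_laur ha0 ha2 hrR.le hb1 (fun z h5 h6 => hd z ⟨ha1.trans_le h5, h6.trans_lt hb2⟩) k
  have hPm : DQ.F.Pm (DQ.F.laur r R (fun z => f (t, z))) = 0 := by
    refine DQ.F.Beur.proj_eq_zero_iff.mpr fun k hk => ?_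
    have hk' : k < 0 := hk
    obtain ⟨m, rfl⟩ : ∃ m : ℕ, k = -(m : ℤ) - 1 := ⟨(-k - 1).toNat, by omega⟩
    rw [hcoef]
    change mom R (fun z => f (t, z)) m = 0
    rw [mom_radius hj (hjr.trans hrR) hRj h1 h2 (f := fun z => f (t, z))
      (fun z hz => (hd z hz).differentiableWithinAt) m]
    exact h0 t ht m
  refine ⟨fun w hw => ?_, fun w hw1 hw2 => ?_⟩
  · rw [DQ.F.evp_apply hw]
    unfold DQ.F.Beur.eval
    exact tsum_congr fun k => by rw [hcoef]
  · rw [← DQ.F.ev_eq_evp hPm]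
    exact (DQ.F.differentiableOn_laur hU hjr hrR.le hRj hf).2 t ht w hw1 hw2

/-- A family of functions on an annulus whose moments vanish extends to the disc.
PROOF. Let `R` with `s < R < j'`. For `r` with `j < r < s` (`haveI : Fact (0 < r)`, `Fact (0 < R)`) let
`G r t = DQ.F.laur r R (fun w => f (t, w))` (`DQ.F.differentiableOn_laur` with `r₀ = j`, `R₀ = j'`): it is
differentiable in `t` on `U` and `ev w (G r t) = f (t, w)` for `r ≤ ‖w‖ ≤ R`. Its coefficients (`DQ.F.coef_laur`) are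
`lc (f (t, ·)) R k`; for `k < 0` this is the moment `mom R _ (-k-1)` and zero (`mom_radius`, `h0`); so `Pm (G r t) = 0`
(`Beur.proj_eq_zero_iff`) and `evp w (G r t) = ev w (G r t) = f (t, w)` for `r ≤ ‖w‖ ≤ R` (`DQ.F.ev_eq_evp`).
The coefficients do not depend on `r`, and `evp w b = ∑' k, chp w k • b.coef k` (`DQ.F.evp_apply`, `Beur.eval`), so
`evp w (G r t)` does not depend on `r`. Fix `r₁ = (j + s) / 2` and put
`σ (t, w) = if ‖w‖ < R then evp w (G r₁ t) else f (t, w)`. If `j < ‖w‖ < R`, take `r < min r₁ ‖w‖`, `j < r`: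
`evp w (G r₁ t) = evp w (G r t) = f (t, w)`. So `σ = f` on `U ×ˢ An j j'`. Differentiability at `(t, w)`: if
`‖w‖ < R`, `σ = evp w (G r₁ t)` on the open set `U ×ˢ ball 0 R` and `DQ.F.differentiableOn_evp_apply`;
otherwise `σ = f` on the open set `U ×ˢ An j j'`, which contains `(t, w)`. -/
theorem exists_ext {U : Set T} (hU : IsOpen U) {j j' s : ℝ} (hj : 0 < j) (h1 : j < s) (h2 : s < j')
    {f : T × ℂ → Z} (hf : DifferentiableOn ℂ f (U ×ˢ An j j'))
    (h0 : ∀ t ∈ U, ∀ k : ℕ, mom s (fun w => f (t, w)) k = 0) :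
    ∃ σ : T × ℂ → Z, DifferentiableOn ℂ σ (U ×ˢ ball 0 j') ∧
      ∀ t ∈ U, ∀ w ∈ An j j', σ (t, w) = f (t, w) := by
  classical
  obtain ⟨R, hR1, hR2⟩ := exists_between h2
  have hs : 0 < s := hj.trans h1
  have : Fact (0 < R) := ⟨hs.trans hR1⟩
  have hr1 : j < (j + s) / 2 := by linarith
  have hr2 : (j + s) / 2 < R := by linarith
  have : Fact (0 < (j + s) / 2) := ⟨hj.trans hr1⟩
  let σ : T × ℂ → Z := fun p => if ‖p.2‖ < R then
    DQ.F.evp p.2 (DQ.F.laur ((j + s) / 2) R (fun z => f (p.1, z))) else f p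
  have hσ : ∀ t ∈ U, ∀ w ∈ An j j', σ (t, w) = f (t, w) := by
    intro t ht w hw
    by_cases hwR : ‖w‖ < R
    · have e : σ (t, w) = DQ.F.evp w (DQ.F.laur ((j + s) / 2) R (fun z => f (t, z))) :=
        if_pos hwR
      rw [e, (K1b_key hU hj h1 h2 hf h0 hr1 hr2 hR2 ht).1 w hwR.le]
      obtain ⟨r, hrj, hrw⟩ := exists_between hw.1
      have : Fact (0 < r) := ⟨hj.trans hrj⟩
      have h5 := K1b_key hU hj h1 h2 hf h0 hrj (hrw.trans hwR) hR2 ht
      rw [← h5.1 w hwR.le]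
      exact h5.2 w hrw.le hwR.le
    · exact if_neg hwR
  refine ⟨σ, ?_, hσ⟩
  rintro ⟨t, w⟩ ⟨ht, hw⟩
  refine DifferentiableAt.differentiableWithinAt ?_
  have hwj : ‖w‖ < j' := mem_ball_zero_iff.mp hw
  by_cases hwR : ‖w‖ < R
  · have h5 : DifferentiableOn ℂ (fun p : T × ℂ =>
        DQ.F.evp p.2 (DQ.F.laur ((j + s) / 2) R (fun z => f (p.1, z)))) (U ×ˢ ball (0 : ℂ) R) :=
      DQ.F.differentiableOn_evp_apply hr2.le
        (DQ.F.differentiableOn_laur hU hr1 hr2.le hR2 hf).1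
    have hmem : U ×ˢ ball (0 : ℂ) R ∈ 𝓝 (t, w) :=
      (hU.prod isOpen_ball).mem_nhds ⟨ht, mem_ball_zero_iff.mpr hwR⟩
    refine (h5.differentiableAt hmem).congr_of_eventuallyEq ?_
    filter_upwards [hmem] with p hp
    exact if_pos (mem_ball_zero_iff.mp hp.2)
  · have hmem : U ×ˢ An j j' ∈ 𝓝 (t, w) :=
      (hU.prod (isOpen_An j j')).mem_nhds ⟨ht, (by linarith [not_lt.mp hwR] : j < ‖w‖), hwj⟩
    refine (hf.differentiableAt hmem).congr_of_eventuallyEq ?_
    filter_upwards [hmem] with p hp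
    exact hσ p.1 hp.1 p.2 hp.2

end Pool.Agent.DQ.X
end

section

/-! # The roots of the minimal multiplier -/

set_option autoImplicit false

open Set Filter Topology Metric

namespace Pool.Agent.DQ.X

variable {Z : Type*} [NormedAddCommGroup Z] [NormedSpace ℂ Z] [CompleteSpace Z]

/-- synthetic division -/
private theorem K5_div {ρ : ℕ} (c : Fin (ρ + 1) → ℂ) (w₁ w : ℂ) :
    (w - w₁) * ∑ k : Fin ρ, (∑ i : Fin (ρ + 1),
      if (k : ℕ) < i then c i * w₁ ^ ((i : ℕ) - 1 - k) else 0) * w ^ (k : ℕ) =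
      ∑ i, c i * w ^ (i : ℕ) - ∑ i, c i * w₁ ^ (i : ℕ) := by
  have h1 : ∑ k : Fin ρ, (∑ i : Fin (ρ + 1),
      if (k : ℕ) < i then c i * w₁ ^ ((i : ℕ) - 1 - k) else 0) * w ^ (k : ℕ) =
      ∑ i : Fin (ρ + 1), c i * ∑ k ∈ Finset.range i, w ^ k * w₁ ^ ((i : ℕ) - 1 - k) := by
    calc _ = ∑ k : Fin ρ, ∑ i : Fin (ρ + 1),
          (if (k : ℕ) < i then c i * (w ^ (k : ℕ) * w₁ ^ ((i : ℕ) - 1 - k)) else 0) := by
          refine Finset.sum_congr rfl fun k _ => ?_
          rw [Finset.sum_mul]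
          refine Finset.sum_congr rfl fun i _ => ?_
          split_ifs
          · ring
          · rw [zero_mul]
      _ = ∑ i : Fin (ρ + 1), ∑ k : Fin ρ,
          (if (k : ℕ) < i then c i * (w ^ (k : ℕ) * w₁ ^ ((i : ℕ) - 1 - k)) else 0) :=
          Finset.sum_comm
      _ = _ := by
          refine Finset.sum_congr rfl fun i _ => ?_
          rw [Finset.mul_sum]
          have h2 : ∀ k : ℕ, (if k < (i : ℕ) then c i * (w ^ k * w₁ ^ ((i : ℕ) - 1 - k)) else 0) =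
              (fun k : ℕ => if k < (i : ℕ) then c i * (w ^ k * w₁ ^ ((i : ℕ) - 1 - k)) else 0) k :=
            fun k => rfl
          rw [Fin.sum_univ_eq_sum_range (fun k : ℕ => if k < (i : ℕ) then
            c i * (w ^ k * w₁ ^ ((i : ℕ) - 1 - k)) else 0) ρ, ← Finset.sum_filter]
          have h3 : (Finset.range ρ).filter (fun k => k < (i : ℕ)) = Finset.range i := by
            ext k
            simp only [Finset.mem_filter, Finset.mem_range]
            have := i.2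
            omega
          rw [h3]
  rw [h1, Finset.mul_sum, ← Finset.sum_sub_distrib]
  refine Finset.sum_congr rfl fun i _ => ?_
  have h4 : (∑ k ∈ Finset.range (i : ℕ), w ^ k * w₁ ^ ((i : ℕ) - 1 - k)) * (w - w₁) =
      w ^ (i : ℕ) - w₁ ^ (i : ℕ) := geom_sum₂_mul w w₁ i
  rw [← mul_sub, ← h4]
  ring

/-- PROOF. Suppose `w₁` is a root with `‖w₁‖ > j`. Let `P = ∑ i, C (c i) * X ^ i`, `P.natDegree ≤ ρ`, `P.coeff ρ = c (last) ≠ 0`,
`P = (X - C w₁) * Q` (`Polynomial.mul_divByMonic_eq_iff_isRoot`), `Q ≠ 0`, `Q.natDegree + 1 = P.natDegree ≤ ρ`. Let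
`q i = Q.coeff i` for `i : Fin ρ`; `Q.eval w = ∑ i : Fin ρ, q i * w ^ i` (`Polynomial.eval_eq_sum_range'`,
`Fin.sum_univ_eq_sum_range`). The function `χ τ`, `χ w = ∑ i, c i * w ^ i`, has the moments zero (`mom_poly`, `h0`), so it extends to a
differentiable function `σ` on `ball 0 j'` (`exists_ext` with `T = ℂ`, `U = univ`, a function which does not depend on `t`;
`σ₁ w = σ (0, w)`). Let `b = min ‖w₁‖ j'` and `j < s' < b`. `F w = (w - w₁)⁻¹ • σ₁ w` is differentiable on `ball 0 b`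
(`w ≠ w₁` there) and `Q(w) • τ w = F w` for `‖w‖ = s'`. So `mom s' (fun w => (∑ i, q i * w ^ i) • τ w) k = 0` by `mom_eq_zero`,
and it is `∑ i, q i • mom s' τ (k + i) = ∑ i, q i • mom s τ (k + i)` (`mom_poly`, `mom_radius`). By `hq` we get `q = 0`, so `Q = 0`
(`Polynomial.ext`, the coefficients of index `≥ ρ` vanish since `Q.natDegree < ρ`), contradiction. -/
theorem roots_le {j j' s : ℝ} (hj : 0 < j) (h1 : j < s) (h2 : s < j') {τ : ℂ → Z}
    (hτ : DifferentiableOn ℂ τ (An j j')) {ρ : ℕ} {c : Fin (ρ + 1) → ℂ}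
    (hc : c (Fin.last ρ) ≠ 0) (h0 : ∀ k : ℕ, ∑ i, c i • mom s τ (k + i) = 0)
    (hq : ∀ q : Fin ρ → ℂ, (∀ k : ℕ, ∑ i, q i • mom s τ (k + i) = 0) → q = 0) :
    ∀ w : ℂ, ∑ i, c i * w ^ (i : ℕ) = 0 → ‖w‖ ≤ j := by
  intro w₁ hw₁
  by_contra hcon
  rw [not_le] at hcon
  set q : Fin ρ → ℂ := fun k => ∑ i : Fin (ρ + 1),
    if (k : ℕ) < i then c i * w₁ ^ ((i : ℕ) - 1 - k) else 0 with hqdef
  have hdiv : ∀ w : ℂ, (w - w₁) * ∑ k, q k * w ^ (k : ℕ) = ∑ i, c i * w ^ (i : ℕ) := by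
    intro w
    rw [hqdef, K5_div c w₁ w, hw₁, sub_zero]
  have hs : 0 < s := hj.trans h1
  have hAn : ∀ r : ℝ, j < r → r < j' → sphere (0 : ℂ) r ⊆ An j j' := by
    intro r hr1 hr2 w hw
    rw [mem_sphere_zero_iff_norm] at hw
    exact ⟨by rw [hw]; exact hr1, by rw [hw]; exact hr2⟩
  have hcontS : ContinuousOn τ (sphere 0 s) := hτ.continuousOn.mono (hAn s h1 h2)
  have hpoly : ∀ (n : ℕ) (p : Fin n → ℂ), Differentiable ℂ fun w : ℂ => ∑ i, p i * w ^ (i : ℕ) := by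
    intro n p
    exact Differentiable.fun_sum fun i _ => (differentiable_id.pow _).const_mul _
  -- extension of the product by the polynomial
  obtain ⟨σ, hσ, hσe⟩ := exists_ext (T := ℂ) (U := univ) isOpen_univ hj h1 h2
    (f := fun p : ℂ × ℂ => (∑ i, c i * p.2 ^ (i : ℕ)) • τ p.2) (by
      have e1 : DifferentiableOn ℂ (fun p : ℂ × ℂ => ∑ i, c i * p.2 ^ (i : ℕ)) (univ ×ˢ An j j') :=
        ((hpoly _ c).comp differentiable_snd).differentiableOn
      have e2 : DifferentiableOn ℂ (fun p : ℂ × ℂ => τ p.2) (univ ×ˢ An j j') :=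
        hτ.comp differentiable_snd.differentiableOn fun p hp => hp.2
      exact e1.smul e2) (by
      intro t _ k
      rw [mom_poly hs hcontS c k]
      exact h0 k)
  have hσ₁ : DifferentiableOn ℂ (fun w : ℂ => σ (0, w)) (ball 0 j') := by
    refine hσ.comp (f := fun w : ℂ => ((0 : ℂ), w)) ?_ ?_
    · exact ((differentiable_const _).prodMk differentiable_id).differentiableOn
    · intro w hw
      exact ⟨mem_univ _, hw⟩
  set b : ℝ := min ‖w₁‖ j' with hb
  have hjb : j < b := lt_min hcon (h1.trans h2)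
  obtain ⟨s', hs1, hs2⟩ := exists_between hjb
  have hs'j : s' < j' := hs2.trans_le (min_le_right _ _)
  have hs'0 : 0 < s' := hj.trans hs1
  have hF : DifferentiableOn ℂ (fun w : ℂ => (w - w₁)⁻¹ • σ (0, w)) (ball 0 b) := by
    refine DifferentiableOn.smul ?_ (hσ₁.mono (ball_subset_ball (min_le_right _ _)))
    intro w hw
    have hne : w - w₁ ≠ 0 := by
      intro h
      rw [sub_eq_zero] at h
      rw [mem_ball_zero_iff, h] at hw
      exact absurd (hw.trans_le (min_le_left _ _)) (lt_irrefl _)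
    exact ((differentiableAt_id.sub_const w₁).inv hne).differentiableWithinAt
  have hmom : ∀ k : ℕ, ∑ i, q i • mom s τ (k + i) = 0 := by
    intro k
    have hQd : DifferentiableOn ℂ (fun w => (∑ i, q i * w ^ (i : ℕ)) • τ w) (An j j') :=
      (hpoly _ q).differentiableOn.smul hτ
    rw [← mom_poly hs hcontS q k, mom_radius hj h1 h2 hs1 hs'j hQd k]
    refine mom_eq_zero hs'0 hs2 hF (fun w hw => ?_) k
    have hwA : w ∈ An j j' := hAn s' hs1 hs'j (by rw [mem_sphere_zero_iff_norm, hw])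
    have hne : w - w₁ ≠ 0 := by
      intro h
      rw [sub_eq_zero] at h
      rw [h] at hw
      rw [← hw] at hs2
      exact absurd (hs2.trans_le (min_le_left _ _)) (lt_irrefl _)
    rw [hσe 0 (mem_univ _) w hwA]
    change (∑ i, q i * w ^ (i : ℕ)) • τ w = (w - w₁)⁻¹ • ((∑ i, c i * w ^ (i : ℕ)) • τ w)
    rw [← hdiv w, smul_smul, inv_mul_cancel_left₀ hne]
  have hq0 := hq q hmom
  rcases Nat.eq_zero_or_pos ρ with hρ | hρ
  · subst hρ
    rw [Fin.sum_univ_one] at hw₁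
    apply hc
    have h3 : Fin.last 0 = 0 := rfl
    rw [h3]
    simpa using hw₁
  · have h3 := congrFun hq0 ⟨ρ - 1, by omega⟩
    simp only [hqdef, Pi.zero_apply] at h3
    rw [Finset.sum_eq_single (Fin.last ρ)] at h3
    · rw [if_pos (by rw [Fin.val_last]; omega), Fin.val_last, Nat.sub_self, pow_zero, mul_one] at h3
      exact hc h3
    · intro i _ hi
      have h4 : (i : ℕ) ≠ ρ := fun h => hi (Fin.ext h)
      have := i.2
      rw [if_neg (by omega)]
    · intro h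
      exact absurd (Finset.mem_univ _) h

end Pool.Agent.DQ.X
end

section

/-! # Hartogs extension of the product -/

set_option autoImplicit false

open Set Filter Topology Metric

namespace Pool.Agent.DQ.X

variable {T : Type*} [NormedAddCommGroup T] [NormedSpace ℂ T]

private theorem H3_hann {a b : ℝ} (ha : 0 < a) (hab : a < b) :
    ∃ y : ℂ, y ∈ An a b ∧ y ∈ ball (0 : ℂ) b := by
  obtain ⟨c, hc1, hc2⟩ := exists_between hab
  have hc : ‖((c : ℝ) : ℂ)‖ = c := by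
    rw [Complex.norm_real, Real.norm_of_nonneg (ha.trans hc1).le]
  refine ⟨(c : ℂ), ⟨?_, ?_⟩, ?_⟩
  · rw [hc]; exact hc1
  · rw [hc]; exact hc2
  · rw [mem_ball_zero_iff, hc]; exact hc2

private theorem H3_swap {T₀ : Set T} {W V : Set ℂ} {A : T × ℂ × ℂ → ℂ}
    (hA : DifferentiableOn ℂ A (T₀ ×ˢ W ×ˢ V)) :
    DifferentiableOn ℂ (fun p : (T × ℂ) × ℂ => A (p.1.1, p.2, p.1.2)) ((T₀ ×ˢ V) ×ˢ W) := by
  have hg : DifferentiableOn ℂ (fun p : (T × ℂ) × ℂ => ((p.1.1, p.2, p.1.2) : T × ℂ × ℂ))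
      ((T₀ ×ˢ V) ×ˢ W) := by fun_prop
  refine DifferentiableOn.comp (g := A) hA hg ?_
  rintro p ⟨⟨ht, hz⟩, hw⟩
  exact ⟨ht, hw, hz⟩

private theorem H3_unswap {T₀ : Set T} {W V : Set ℂ} {σ : (T × ℂ) × ℂ → ℂ}
    (hσ : DifferentiableOn ℂ σ ((T₀ ×ˢ V) ×ˢ W)) :
    DifferentiableOn ℂ (fun x : T × ℂ × ℂ => σ ((x.1, x.2.2), x.2.1)) (T₀ ×ˢ W ×ˢ V) := by
  have hg : DifferentiableOn ℂ (fun x : T × ℂ × ℂ => (((x.1, x.2.2), x.2.1) : (T × ℂ) × ℂ))
      (T₀ ×ˢ W ×ˢ V) := by fun_prop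
  refine DifferentiableOn.comp (g := σ) hσ hg ?_
  rintro x ⟨ht, hw, hz⟩
  exact ⟨⟨ht, hz⟩, hw⟩

private theorem H3_slice {T₀ : Set T} {W V : Set ℂ} {B : T × ℂ × ℂ → ℂ}
    (hB : DifferentiableOn ℂ B (T₀ ×ˢ W ×ˢ V)) {t : T} (ht : t ∈ T₀) {z : ℂ} (hz : z ∈ V) :
    DifferentiableOn ℂ (fun w : ℂ => B (t, w, z)) W := by
  have hg : DifferentiableOn ℂ (fun w : ℂ => ((t, w, z) : T × ℂ × ℂ)) W := by fun_prop
  refine DifferentiableOn.comp (g := B) hB hg ?_
  intro w hw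
  exact ⟨ht, hw, hz⟩

private theorem H3_sliceσ {T₀ : Set T} {W V : Set ℂ} {σ : (T × ℂ) × ℂ → ℂ}
    (hσ : DifferentiableOn ℂ σ ((T₀ ×ˢ V) ×ˢ W)) {t : T} (ht : t ∈ T₀) {z : ℂ} (hz : z ∈ V) :
    DifferentiableOn ℂ (fun w : ℂ => σ ((t, z), w)) W := by
  have hg : DifferentiableOn ℂ (fun w : ℂ => (((t, z), w) : (T × ℂ) × ℂ)) W := by fun_prop
  refine DifferentiableOn.comp (g := σ) hσ hg ?_
  intro w hw
  exact ⟨⟨ht, hz⟩, hw⟩

private theorem H3_slice2 {T₀ : Set T} {V : Set ℂ} {μ : T × ℂ → ℂ}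
    (hμ : DifferentiableOn ℂ μ (T₀ ×ˢ V)) {t : T} (ht : t ∈ T₀) :
    DifferentiableOn ℂ (fun z : ℂ => μ (t, z)) V := by
  have hg : DifferentiableOn ℂ (fun z : ℂ => ((t, z) : T × ℂ)) V := by fun_prop
  refine DifferentiableOn.comp (g := μ) hμ hg ?_
  intro z hz
  exact ⟨ht, hz⟩

private theorem H3_mom0 {T₀ : Set T} {jw jw' jz jz' s : ℝ} (h1 : 0 < jw) (hs1 : jw < s)
    (hs2 : s < jw') {A B : T × ℂ × ℂ → ℂ}
    (hB : DifferentiableOn ℂ B (T₀ ×ˢ ball 0 jw' ×ˢ An jz jz'))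
    (hAB : ∀ x ∈ T₀ ×ˢ An jw jw' ×ˢ An jz jz', A x = B x) (k : ℕ) {t : T} (ht : t ∈ T₀)
    {z : ℂ} (hz : z ∈ An jz jz') : mom s (fun w => A (t, w, z)) k = 0 := by
  refine mom_eq_zero (h1.trans hs1) hs2 (H3_slice hB ht hz) ?_ k
  intro w hw
  refine hAB (t, w, z) ⟨ht, ⟨?_, ?_⟩, hz⟩
  · change jw < ‖w‖
    rw [hw]; exact hs1
  · change ‖w‖ < jw'
    rw [hw]; exact hs2

private theorem H3_mom {T₀ : Set T} (hT₀ : IsOpen T₀) {jw jw' jz jz' s : ℝ} (h1 : 0 < jw)
    (hs1 : jw < s) (hs2 : s < jw') (h3 : 0 < jz) (h4 : jz < jz') {A B : T × ℂ × ℂ → ℂ}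
    (hA : DifferentiableOn ℂ A (T₀ ×ˢ An jw jw' ×ˢ ball 0 jz'))
    (hB : DifferentiableOn ℂ B (T₀ ×ˢ ball 0 jw' ×ˢ An jz jz'))
    (hAB : ∀ x ∈ T₀ ×ˢ An jw jw' ×ˢ An jz jz', A x = B x) (k : ℕ) {t : T} (ht : t ∈ T₀)
    {z : ℂ} (hz : z ∈ ball (0 : ℂ) jz') : mom s (fun w => A (t, w, z)) k = 0 := by
  obtain ⟨y, hy, hyb⟩ := H3_hann h3 h4
  have hμ := mom_hol (hT₀.prod isOpen_ball) h1 hs1 hs2 (H3_swap hA) k
  have hd := H3_slice2 hμ ht
  have hev : (fun z : ℂ => mom s (fun w => A (t, w, z)) k) =ᶠ[𝓝 y] fun _ => 0 := by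
    filter_upwards [(isOpen_An jz jz').mem_nhds hy] with z hz
    exact H3_mom0 h1 hs1 hs2 hB hAB k ht hz
  exact DQ.F.eqOn_ball hd (differentiableOn_const _) hyb hev hz

private theorem H3_ext {T₀ : Set T} (hT₀ : IsOpen T₀) {jw jw' jz jz' s : ℝ} (h1 : 0 < jw)
    (hs1 : jw < s) (hs2 : s < jw') (h3 : 0 < jz) (h4 : jz < jz') {A B : T × ℂ × ℂ → ℂ}
    (hA : DifferentiableOn ℂ A (T₀ ×ˢ An jw jw' ×ˢ ball 0 jz'))
    (hB : DifferentiableOn ℂ B (T₀ ×ˢ ball 0 jw' ×ˢ An jz jz'))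
    (hAB : ∀ x ∈ T₀ ×ˢ An jw jw' ×ˢ An jz jz', A x = B x) :
    ∃ σ : (T × ℂ) × ℂ → ℂ, DifferentiableOn ℂ σ ((T₀ ×ˢ ball (0 : ℂ) jz') ×ˢ ball (0 : ℂ) jw') ∧
      ∀ t ∈ T₀, ∀ z ∈ ball (0 : ℂ) jz', ∀ w ∈ An jw jw', σ ((t, z), w) = A (t, w, z) := by
  have h0 : ∀ q ∈ T₀ ×ˢ ball (0 : ℂ) jz', ∀ k : ℕ,
      mom s (fun w => A (q.1, w, q.2)) k = 0 := by
    rintro ⟨t, z⟩ ⟨ht, hz⟩ k
    exact H3_mom hT₀ h1 hs1 hs2 h3 h4 hA hB hAB k ht hz
  obtain ⟨σ, hσd, hσ⟩ := exists_ext (f := fun p : (T × ℂ) × ℂ => A (p.1.1, p.2, p.1.2))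
    (hT₀.prod isOpen_ball) h1 hs1 hs2 (H3_swap hA) h0
  exact ⟨σ, hσd, fun t ht z hz w hw => hσ (t, z) ⟨ht, hz⟩ w hw⟩

/-- TASK H3. PROOF. Let `f : (T × ℂ) × ℂ → ℂ`, `f ((t, z), w) = A (t, w, z)`, differentiable on `(T₀ ×ˢ ball 0 jz') ×ˢ An jw jw'`; let `s = (jw + jw') / 2`,
`μ k (t, z) = mom s (fun w => A (t, w, z)) k`, differentiable on `T₀ ×ˢ ball 0 jz'` (`mom_hol`). For `z ∈ An jz jz'` it is zero by `mom_eq_zero`
(`F w = B (t, w, z)`, `b = jw'`). For fixed `t ∈ T₀` the function `z ↦ μ k (t, z)` is differentiable on `ball 0 jz'` and zero on the nonempty open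
subset `An jz jz'`, so it is zero (`DQ.F.eqOn_ball` at a point of the annulus). `exists_ext` (`U = T₀ ×ˢ ball 0 jz'`) gives `σ`, differentiable on
`(T₀ ×ˢ ball 0 jz') ×ˢ ball 0 jw'`, with `σ ((t, z), w) = A (t, w, z)` for `w ∈ An jw jw'`. Put `P (t, w, z) = σ ((t, z), w)`. For `z ∈ An jz jz'` the
functions `w ↦ P (t, w, z)` and `w ↦ B (t, w, z)` are differentiable on `ball 0 jw'` and agree on `An jw jw'`, so they agree (`DQ.F.eqOn_ball`). -/
theorem ext_two {T₀ : Set T} (hT₀ : IsOpen T₀) {jw jw' jz jz' : ℝ} (h1 : 0 < jw) (h2 : jw < jw')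
    (h3 : 0 < jz) (h4 : jz < jz') {A B : T × ℂ × ℂ → ℂ}
    (hA : DifferentiableOn ℂ A (T₀ ×ˢ An jw jw' ×ˢ ball 0 jz'))
    (hB : DifferentiableOn ℂ B (T₀ ×ˢ ball 0 jw' ×ˢ An jz jz'))
    (hAB : ∀ x ∈ T₀ ×ˢ An jw jw' ×ˢ An jz jz', A x = B x) :
    ∃ P : T × ℂ × ℂ → ℂ, DifferentiableOn ℂ P (T₀ ×ˢ ball 0 jw' ×ˢ ball 0 jz') ∧
      (∀ x ∈ T₀ ×ˢ An jw jw' ×ˢ ball (0 : ℂ) jz', P x = A x) ∧
      ∀ x ∈ T₀ ×ˢ ball (0 : ℂ) jw' ×ˢ An jz jz', P x = B x := by
  obtain ⟨s, hs1, hs2⟩ := exists_between h2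
  obtain ⟨σ, hσd, hσ⟩ := H3_ext hT₀ h1 hs1 hs2 h3 h4 hA hB hAB
  refine ⟨fun x => σ ((x.1, x.2.2), x.2.1), H3_unswap hσd, ?_, ?_⟩
  · rintro ⟨t, w, z⟩ ⟨ht, hw, hz⟩
    exact hσ t ht z hz w hw
  rintro ⟨t, w, z⟩ ⟨ht, hw, hz⟩
  have hzb : z ∈ ball (0 : ℂ) jz' := mem_ball_zero_iff.mpr hz.2
  obtain ⟨y, hy, hyb⟩ := H3_hann h1 h2
  have hev : (fun w : ℂ => σ ((t, z), w)) =ᶠ[𝓝 y] fun w => B (t, w, z) := by
    filter_upwards [(isOpen_An jw jw').mem_nhds hy] with w hw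
    rw [← hAB (t, w, z) ⟨ht, hw, hz⟩]
    exact hσ t ht z hzb w hw
  exact DQ.F.eqOn_ball (H3_sliceσ hσd ht hzb) (H3_slice hB ht hz) hyb hev hw

end Pool.Agent.DQ.X
end
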