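import Pool.Agent.Lib.MP_4aa2a9_ag.Mg.G003
import Pool.Agent.Lib.MP_4aa2a9_ag.Mg.G004
import Pool.Agent.Lib.MP_4aa2a9_ag.Mg.G006
import Pool.Agent.Lib.MP_4aa2a9_ag.Mg.G008
import Pool.Agent.Lib.MP_4aa2a9_ag.Mg.G011
import Pool.Agent.Lib.MP_4aa2a9_ag.Mg.G010

section

/-! Campaign DQ, module W, file WNoethA: the quotient of the germ ring of `V × ℂ` by a regular germ is noetherian. -/

set_option autoImplicit false

open Metric Set Filter Topology Polynomial

namespace Pool.Agent.DQ.W

/-- If all quotients by nonzero principal ideals are noetherian then the ring is noetherian.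

Proof. `isNoetherianRing_iff_ideal_fg`: let `I` be an ideal; if `I = ⊥` it is finitely generated. Otherwise choose
`0 ≠ f ∈ I`; in `R ⧸ (f)` the ideal `I.map (mk)` is finitely generated; `Submodule.fg_of_fg_map_of_fg_inf_ker` for the
linear map `(Ideal.span {f}).mkQ : R →ₗ[R] R ⧸ span {f}` (the kernel is `span {f}`, `I ⊓ span {f} = span {f}` is
generated by one element; the image is finitely generated over `R` since finitely generated over `R ⧸ span {f}`,
or because `R ⧸ span {f}` is a noetherian `R`-module: `isNoetherian_of_surjective` / `isNoetherianRing` transfers along the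
surjection `Ideal.Quotient.mk`). -/
theorem noeth_of_quot {R : Type*} [CommRing R] (h : ∀ f : R, f ≠ 0 → IsNoetherianRing (R ⧸ Ideal.span {f})) :
    IsNoetherianRing R := by
  rw [isNoetherianRing_iff_ideal_fg]
  intro I
  by_cases hI : I = ⊥
  · rw [hI]
    exact Submodule.fg_bot
  obtain ⟨f, hfI, hf0⟩ := (Submodule.ne_bot_iff _).1 hI
  have hN := h f hf0
  have hmapfg : (I.map (Ideal.Quotient.mk (Ideal.span {f}))).FG :=
    (isNoetherianRing_iff_ideal_fg _).1 hN _
  have h1 : Submodule.restrictScalars R (I.map (Ideal.Quotient.mk (Ideal.span {f}))) =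
      Submodule.map (Ideal.span {f}).mkQ I := by
    ext x
    rw [Submodule.restrictScalars_mem,
      Ideal.mem_map_iff_of_surjective _ Ideal.Quotient.mk_surjective]
    rfl
  apply Submodule.fg_of_fg_map_of_fg_inf_ker (Ideal.span {f}).mkQ
  · rw [← h1]
    exact Submodule.FG.restrictScalars_of_surjective hmapfg Ideal.Quotient.mk_surjective
  · have h2 : I ⊓ LinearMap.ker (Ideal.span {f}).mkQ = Ideal.span {f} := by
      rw [Submodule.ker_mkQ]
      exact inf_eq_right.2 ((Ideal.span_singleton_le_iff_mem _).2 hfI)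
    rw [h2]
    exact ⟨{f}, by simp⟩

variable {V : Type*} [NormedAddCommGroup V] [NormedSpace ℂ V]

/-- **Finiteness of the Weierstrass quotient.**

Proof. Let `R = OO v₀`, `S = OO (v₀, t₀)`, algebra structure by `iota` (`letI := ((Ideal.Quotient.mk _).comp (iota v₀ t₀)).toAlgebra`
on `S ⧸ span {g}`). By `div_germ` every class is the class of `ev r` with `r.degree < k`, i.e. an `R`-combination of the
classes of `ev (X ^ i)`, `i < k` (`Polynomial.as_sum_range'`, `ev_C`). So `S ⧸ span {g}` is a finite `R`-module, hence a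
noetherian `R`-module, hence a noetherian ring (`IsNoetherianRing` from `isNoetherian_of_tower R`). -/
theorem quot_noeth {v₀ : V} {t₀ : ℂ} {k : ℕ} {g : OO ((v₀, t₀) : V × ℂ)} (hg : RegG k g)
    (hR : IsNoetherianRing (OO v₀)) : IsNoetherianRing (OO ((v₀, t₀) : V × ℂ) ⧸ Ideal.span {g}) := by
  let _ : Algebra (OO v₀) (OO ((v₀, t₀) : V × ℂ) ⧸ Ideal.span {g}) :=
    ((Ideal.Quotient.mk _).comp (iota v₀ t₀)).toAlgebra
  have hfin : Module.Finite (OO v₀) (OO ((v₀, t₀) : V × ℂ) ⧸ Ideal.span {g}) := by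
    apply Module.Finite.of_surjective (Fintype.linearCombination (OO v₀)
      (fun i : Fin k => (Ideal.Quotient.mk (Ideal.span {g}) (ev v₀ t₀ (X ^ (i : ℕ))))))
    intro x
    obtain ⟨h, rfl⟩ := Ideal.Quotient.mk_surjective x
    obtain ⟨q, r, hr, hqr⟩ := div_germ hg h
    have hr' : r = ∑ i ∈ Finset.range k, C (r.coeff i) * X ^ i := by
      rcases Nat.eq_zero_or_pos k with rfl | hk
      · have hP0 : r = 0 := by
          rw [← degree_eq_bot]
          have : r.degree < 0 := by simpa using hr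
          exact Nat.WithBot.lt_zero_iff.1 this
        rw [hP0]
        simp
      · apply as_sum_range_C_mul_X_pow'
        by_cases hP0 : r = 0
        · rw [hP0, natDegree_zero]
          exact hk
        · exact (natDegree_lt_iff_degree_lt hP0).2 hr
    refine ⟨fun i => r.coeff i, ?_⟩
    have h1 : Ideal.Quotient.mk (Ideal.span {g}) h =
        Ideal.Quotient.mk (Ideal.span {g}) (ev v₀ t₀ r) := by
      rw [hqr, map_add, map_mul, Ideal.Quotient.eq_zero_iff_mem.2 (Ideal.mem_span_singleton_self g),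
        mul_zero, zero_add]
    rw [h1]
    conv_rhs => rw [hr']
    rw [map_sum, map_sum, Fintype.linearCombination_apply, ← Fin.sum_univ_eq_sum_range
      (fun i => Ideal.Quotient.mk (Ideal.span {g}) (ev v₀ t₀ (C (r.coeff i) * X ^ i)))]
    refine Finset.sum_congr rfl fun i _ => ?_
    rw [map_mul, map_mul, ev_C]
    rfl
  exact IsNoetherianRing.of_finite (OO v₀) _

end Pool.Agent.DQ.W
end

section

/-! Campaign DQ, module W, file WNoeth: the germ ring of a finite-dimensional space is noetherian. -/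

set_option autoImplicit false

open Metric Set Filter Topology

universe u

namespace Pool.Agent.DQ.W

/-- **The germ ring is noetherian**, by induction on the dimension.

Proof. Induction on `n` for all `E` with `finrank ℂ E = n`. `n = 0`: `E` is a subsingleton
(`Module.finrank_zero_iff`), `𝓝 x` is `pure x`, so `val x` is injective, `OO x` embeds in ... every nonzero element is a
unit (`isUnit_iff_val`), so every ideal is `⊥` or `⊤` (or: `OO x ≃+* ℂ` by `val x`). Step `n + 1`: `noeth_of_quot`: let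
`f ≠ 0` in `OO x`, `f = gm F hF`, `F` not identically zero near `x`; `exists_dir_all` (one function) gives `e ≠ 0` with
`F (x + t • e) ≠ 0` frequently; `exists_coord` gives `V`, `φ : E ≃L[ℂ] V × ℂ`, `φ e = (0, 1)`; put `(v₀, t₀) := φ x`,
`F' := F ∘ φ.symm`, then `F' (v₀, t₀ + s) = F (x + s • e)`, so `exists_reg` gives `Reg k F' v₀ t₀`, and
`quot_noeth` with the induction hypothesis for `V` shows that `OO (φ x) ⧸ span {gm F'}` is noetherian. `exists_pullEquiv`
(for `φ`, `φ.symm`) gives `Φ : OO (φ x) ≃+* OO x` with `Φ (gm F') = gm F = f`, hence a ring isomorphism of quotients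
(`Ideal.quotientEquiv`), `isNoetherianRing_of_ringEquiv`. -/
theorem noeth_aux (n : ℕ) : ∀ (E : Type u) [NormedAddCommGroup E] [NormedSpace ℂ E] [FiniteDimensional ℂ E],
    Module.finrank ℂ E = n → ∀ x : E, IsNoetherianRing (OO x) := by
  induction n with
  | zero =>
    intro E _ _ _ hE x
    have hsub : Subsingleton E := Module.finrank_zero_iff.1 hE
    have hbij : Function.Bijective (val x) := by
      constructor
      · rw [injective_iff_map_eq_zero]
        intro g hg
        obtain ⟨f, hf, rfl⟩ := exists_gm g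
        rw [val_gm] at hg
        rw [gm_eq_zero]
        exact Eventually.of_forall fun y => by rw [Subsingleton.elim y x, hg]
      · intro c
        exact ⟨gm (fun _ => c) (holAt_const c x), rfl⟩
    exact isNoetherianRing_of_ringEquiv ℂ (RingEquiv.ofBijective (val x) hbij).symm
  | succ n ih =>
    intro E _ _ _ hE x
    have hnt : Nontrivial E := Module.nontrivial_of_finrank_pos (R := ℂ) (by omega)
    apply noeth_of_quot
    intro f hf0
    obtain ⟨F, hF, rfl⟩ := exists_gm f
    have hfreq : ∃ᶠ y in 𝓝 x, F y ≠ 0 := by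
      intro hcon
      apply hf0
      rw [gm_eq_zero]
      exact hcon.mono fun y hy => not_not.1 hy
    obtain ⟨e, he, hdir⟩ := exists_dir_all (ι := Unit) (f := fun _ => F) (fun _ => hF)
      (fun _ => hfreq)
    obtain ⟨V, φ, hdim, hφe⟩ := exists_coord he
    have hφd : Differentiable ℂ φ := φ.differentiable
    have hψd : Differentiable ℂ φ.symm := φ.symm.differentiable
    obtain ⟨Φ, hΦ⟩ := exists_pullEquiv (φ := φ) (ψ := φ.symm) hφd hψd (fun y => φ.symm_apply_apply y)
      (fun y => φ.apply_symm_apply y) x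
    have hF'' : HolAt F (φ.symm (φ x)) := by rwa [φ.symm_apply_apply]
    have hF' : HolAt (fun p => F (φ.symm p)) (φ x) :=
      hF''.comp (Eventually.of_forall fun y => hψd y)
    have hgmF : Φ (gm _ hF') = gm F hF := by
      rw [hΦ, gm_eq]
      exact Eventually.of_forall fun y => by simp
    have hV : Module.finrank ℂ V = n := by omega
    have hRV : IsNoetherianRing (OO (φ x).1) := ih V hV (φ x).1
    have hfr : ∃ᶠ t in 𝓝 (φ x).2, F (φ.symm ((φ x).1, t)) ≠ 0 := by
      have ht : Tendsto (fun s : ℂ => (φ x).2 + s) (𝓝 0) (𝓝 (φ x).2) := by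
        have hc : Continuous fun s : ℂ => (φ x).2 + s := by fun_prop
        exact hc.tendsto' 0 _ (add_zero _)
      apply ht.frequently
      refine (hdir ()).mono fun s hs => ?_
      have h1 : φ.symm ((φ x).1, (φ x).2 + s) = x + s • e := by
        rw [ContinuousLinearEquiv.symm_apply_eq, map_add, map_smul, hφe]
        apply Prod.ext
        · simp
        · simp
      rw [h1]
      exact hs
    obtain ⟨k, hk⟩ := exists_reg (f := fun p => F (φ.symm p)) (v₀ := (φ x).1) (t₀ := (φ x).2)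
      hF' hfr
    have hquot : IsNoetherianRing (OO (φ x) ⧸ Ideal.span {gm _ hF'}) :=
      quot_noeth (v₀ := (φ x).1) (t₀ := (φ x).2) (k := k) ⟨_, hF', rfl, hk⟩ hRV
    have hmap : (Ideal.span {gm F hF} : Ideal (OO x)) =
        (Ideal.span {gm _ hF'} : Ideal (OO (φ x))).map (Φ : OO (φ x) →+* OO x) := by
      rw [Ideal.map_span, Set.image_singleton]
      congr 2
      exact hgmF.symm
    exact isNoetherianRing_of_ringEquiv _ (Ideal.quotientEquiv _ _ Φ hmap)

instance isNoetherianRing_OO {E : Type u} [NormedAddCommGroup E] [NormedSpace ℂ E] [FiniteDimensional ℂ E] (x : E) :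
    IsNoetherianRing (OO x) := noeth_aux _ E rfl x

end Pool.Agent.DQ.W
end

section

/-! Campaign DQ, module W, file WOkaZ: Oka's theorem in dimension zero. -/

set_option autoImplicit false

open Metric Set Filter Topology

universe u

namespace Pool.Agent.DQ.W

/-- Dimension zero.

Proof. `E` is a subsingleton, so every function is holomorphic, every neighbourhood of `x` contains (only) `x`, `𝓝 x = pure x`
(`∀ᶠ y in 𝓝 x, p y` follows from `p x` since `y = x`). `OO x` is noetherian (`isNoetherianRing_OO`), so `Rel f x` is finitely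
generated (`IsNoetherian.noetherian`, `Submodule.fg_iff_exists_fin_generating_family`): generators `r j : ι → OO x`; choose
representatives (`exists_gm`, `gt_eq`). -/
theorem oka_of_subsingleton {E : Type u} [NormedAddCommGroup E] [NormedSpace ℂ E] [Subsingleton E] : Oka E := by
  intro x ι κ _ _ f hf
  have : FiniteDimensional ℂ E := inferInstance
  have : IsNoetherianRing (OO x) := isNoetherianRing_OO x
  have hfg : (Rel f x).FG := IsNoetherian.noetherian (Rel f x)
  obtain ⟨N, r, hr⟩ := Submodule.fg_iff_exists_fin_generating_family.mp hfg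
  choose R hR hrR using fun j i => exists_gm (r j i)
  refine ⟨N, R, hR, ?_⟩
  refine Eventually.of_forall (fun y => ?_)
  obtain rfl : y = x := Subsingleton.elim y x
  rw [← hr]
  congr 2
  funext j i
  rw [hrR j i, gt_eq (hR j i)]

end Pool.Agent.DQ.W
end

section

/-! Campaign DQ, module W, file WOka: **Oka's theorem**. -/

set_option autoImplicit false

open Metric Set Filter Topology

universe u

namespace Pool.Agent.DQ.W

/-- **Oka's theorem** by induction on the dimension. -/
theorem oka_aux (n : ℕ) : ∀ (E : Type u) [NormedAddCommGroup E] [NormedSpace ℂ E] [FiniteDimensional ℂ E],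
    Module.finrank ℂ E = n → Oka E := by
  induction n with
  | zero =>
    intro E _ _ _ h
    have : Subsingleton E := Module.finrank_zero_iff.mp h
    exact oka_of_subsingleton
  | succ n ih =>
    intro E _ _ _ h
    exact oka_of_oka1 (oka_step n ih E h)

theorem oka (E : Type u) [NormedAddCommGroup E] [NormedSpace ℂ E] [FiniteDimensional ℂ E] : Oka E :=
  oka_aux _ E rfl

end Pool.Agent.DQ.W
end

section

/-! Campaign DQ, module W, file WCoh: the free sheaves `O ^ n` are coherent. -/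

set_option autoImplicit false

open Metric Set Filter Topology

universe u

namespace Pool.Agent.DQ.W

open Pool.Agent.DQ (ERing EMod O OGerm)

/-- **Oka's coherence theorem** in the language of the campaign.

Proof. It suffices to prove `CohAt x` for every `x` (`Eventually.of_forall`). (1) `x ∈ dom = univ`. (2) Generators: `n` and
`g i y := Pi.single i 1` : `At` holds since each component is the constant `0` or `1` (`ERing.zero`, `ERing.one` of `O E`, or directly); the unit
vectors span `Fin n → OGerm y` (`mem_span_gt` or `Pi.basisFun`). (3) Relations: let `g : Fin m → (y : E) → Fin n → OGerm y` with `At (g i) x`;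
by definition of `O E` choose `f i l` holomorphic near `x` with `g i y l = Pool.Agent.DQ.gm (f i l) y` for `y` near `x`. `oka E x (Fin m) (Fin n) f`
gives `N`, `R`; put `r j i y := gt (R j i) y`. `At`: `⟨R j i, _, Eventually.of_forall fun _ => rfl⟩`. For `y` near `x` the submodules
`(free n).rel g y` and `Rel f y` are equal: `∑ i, c i • g i y = 0` in `Fin n → OGerm y` if and only if all components vanish
(`funext_iff`, `Finset.sum_apply`, `Pi.smul_apply`, `smul_eq_mul`). -/
theorem coh_free (E : Type u) [NormedAddCommGroup E] [NormedSpace ℂ E] [FiniteDimensional ℂ E] (n : ℕ) :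
    ((O E).free n).Coh Set.univ := by
  intro x₀ _
  refine Eventually.of_forall fun x => ⟨mem_univ x, ⟨n, fun i (y : E) => (Pi.single i (1 : OGerm y) : Fin n → OGerm y),
    fun i => ⟨mem_univ x, fun j => ?_⟩, ?_⟩, ?_⟩
  · by_cases hij : j = i
    · subst hij
      refine (O E).congr ((O E).one x (mem_univ x)) (Eventually.of_forall fun y => ?_)
      change (1 : OGerm y) = (Pi.single j (1 : OGerm y) : Fin n → OGerm y) j
      rw [Pi.single_eq_same]
    · refine (O E).congr ((O E).zero x (mem_univ x)) (Eventually.of_forall fun y => ?_)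
      change (0 : OGerm y) = (Pi.single i (1 : OGerm y) : Fin n → OGerm y) j
      rw [Pi.single_eq_of_ne hij]
  · refine Eventually.of_forall fun y => ?_
    have h1 := (Pi.basisFun (OGerm y) (Fin n)).span_eq
    have h2 : (⇑(Pi.basisFun (OGerm y) (Fin n)) : Fin n → Fin n → OGerm y) = fun i => Pi.single i 1 := by
      funext i
      rw [Pi.basisFun_apply]
    rw [h2] at h1
    exact h1
  · intro m g hg
    choose f hf hev using fun i l => (hg i).2 l
    obtain ⟨N, R, hR, hRel⟩ := oka E x (Fin m) (Fin n) f hf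
    refine ⟨N, fun j i y => gt (R j i) y, fun j i => ⟨R j i, hR j i, Eventually.of_forall fun _ => rfl⟩, ?_⟩
    filter_upwards [hRel, eventually_all.mpr fun i => eventually_all.mpr fun l => hev i l] with y h1 h2
    refine Eq.trans ?_ h1
    have h3 : ∀ (c : Fin m → OO y) (l : Fin n), (∑ i, (((O E).free n).mod y).toSMul.smul (c i) (g i y)) l =
        ∑ i, c i * gt (f i l) y := by
      intro c l
      refine (Finset.sum_apply l Finset.univ fun i => (((O E).free n).mod y).toSMul.smul (c i) (g i y)).trans ?_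
      refine Finset.sum_congr rfl fun i _ => ?_
      change c i * (show OO y from g i y l) = _
      rw [h2 i l]
    refine SetLike.ext fun c => ?_
    constructor
    · intro hc l
      have h4 : ∑ i, c i • g i y = 0 := hc
      exact (h3 c l).symm.trans (congrFun h4 l)
    · intro hc
      change ∑ i, c i • g i y = 0
      funext l
      exact (h3 c l).trans (hc l)

end Pool.Agent.DQ.W
end

section

/-! # Good circles -/

set_option autoImplicit false

open Set Filter Topology Metric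

namespace Pool.Agent.DQ.X

/-- TASK C1a. A circle without zeros.
PROOF. Let `φ u = δ (w₁ * exp u)` on the set `Σ = {u | a < ‖w₁‖ * Real.exp u.re ∧ ‖w₁‖ * Real.exp u.re < b}`, which is open and convex
(it is a vertical strip: preimage of an interval under `u ↦ u.re`) and contains `0`; `φ` is differentiable on `Σ` and `φ 0 ≠ 0`. There is
`x₀ > 0` such that `[-x₀, x₀] ×ℂ [0, 2 π]` is contained in `Σ` (all `u` with `|u.re| ≤ x₀`); let `K` be this compact rectangle
(`Complex.reProdIm`, `IsCompact.reProdIm`). `φ` is analytic near `K` and not locally zero at any point of `Σ` (identity theorem on the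
preconnected set `Σ`, `AnalyticOnNhd.eqOn_zero_of_preconnected_of_eventuallyEq_zero`), so its zeros in `K` are finite in number
(`DQ.F.finite_zeros`), and so are their real parts: there is `x` with `0 < x < x₀` which is not the real part of a zero in `K`
(`Set.Ioo_infinite`, `Set.Infinite.exists_notMem_finite`-type lemma). Let `j = ‖w₁‖ * Real.exp x`, `a < j < b`. If `‖w‖ = j` then `w / w₁`
has norm `Real.exp x` and argument `θ` in `[0, 2 π]` (take `arg` in `(-π, π]` and add `2 π` if it is negative), so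
`w = w₁ * exp (x + θ * I)` and `δ w = φ (x + θ I) ≠ 0`. -/
theorem good_radius {a b : ℝ} (ha : 0 < a) {δ : ℂ → ℂ} (hδ : DifferentiableOn ℂ δ (An a b))
    {w₁ : ℂ} (hw₁ : w₁ ∈ An a b) (h : δ w₁ ≠ 0) :
    ∃ j : ℝ, a < j ∧ j < b ∧ ∀ w : ℂ, ‖w‖ = j → δ w ≠ 0 := by
  have hL : 0 < ‖w₁‖ := ha.trans hw₁.1
  have hw0 : w₁ ≠ 0 := norm_pos_iff.mp hL
  have hlin : Continuous fun u : ℂ => ‖w₁‖ * Real.exp u.re :=
    continuous_const.mul (Real.continuous_exp.comp Complex.continuous_re)
  obtain ⟨Sg, hSg⟩ : ∃ Sg : Set ℂ, Sg = {u : ℂ | a < ‖w₁‖ * Real.exp u.re ∧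
      ‖w₁‖ * Real.exp u.re < b} := ⟨_, rfl⟩
  have hmem : ∀ u, u ∈ Sg ↔ a < ‖w₁‖ * Real.exp u.re ∧ ‖w₁‖ * Real.exp u.re < b := by
    intro u
    rw [hSg]
    exact Iff.rfl
  have hSo : IsOpen Sg := by
    rw [hSg]
    exact (isOpen_lt continuous_const hlin).inter (isOpen_lt hlin continuous_const)
  have hJ : Convex ℝ {t : ℝ | a < ‖w₁‖ * Real.exp t ∧ ‖w₁‖ * Real.exp t < b} := by
    apply Set.OrdConnected.convex
    refine ⟨fun s hs t ht x hx => ⟨?_, ?_⟩⟩
    · exact hs.1.trans_le (mul_le_mul_of_nonneg_left (Real.exp_le_exp.mpr hx.1) hL.le)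
    · exact (mul_le_mul_of_nonneg_left (Real.exp_le_exp.mpr hx.2) hL.le).trans_lt ht.2
  have hSc : Convex ℝ Sg := by
    have h1 := hJ.linear_preimage Complex.reLm
    rw [hSg]
    exact h1
  have hφ : DifferentiableOn ℂ (fun u => δ (w₁ * Complex.exp u)) Sg := by
    refine hδ.comp (f := fun u : ℂ => w₁ * Complex.exp u)
      ((differentiable_const _).mul Complex.differentiable_exp).differentiableOn ?_
    intro u hu
    have h1 := (hmem u).mp hu
    have h2 : ‖w₁ * Complex.exp u‖ = ‖w₁‖ * Real.exp u.re := by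
      rw [norm_mul, Complex.norm_exp]
    exact ⟨by rw [h2]; exact h1.1, by rw [h2]; exact h1.2⟩
  have hφa := hφ.analyticOnNhd hSo
  have h0S : (0 : ℂ) ∈ Sg := by
    rw [hmem]
    simp only [Complex.zero_re, Real.exp_zero, mul_one]
    exact hw₁
  have hnz : ∀ x ∈ Sg, ¬ (∀ᶠ y in 𝓝 x, δ (w₁ * Complex.exp y) = 0) := by
    intro x hx hev
    have h1 := hφa.eqOn_zero_of_preconnected_of_eventuallyEq_zero hSc.isPreconnected hx hev h0S
    simp only [Complex.exp_zero, mul_one, Pi.zero_apply] at h1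
    exact h h1
  obtain ⟨x₀, hx₀, hx₀b⟩ : ∃ x₀ : ℝ, 0 < x₀ ∧ ‖w₁‖ * Real.exp x₀ < b := by
    have h1 : ContinuousAt (fun t : ℝ => ‖w₁‖ * Real.exp t) 0 :=
      (continuous_const.mul Real.continuous_exp).continuousAt
    have h2 : ∀ᶠ t in 𝓝 (0 : ℝ), ‖w₁‖ * Real.exp t < b := by
      apply h1.eventually_lt_const
      simp only [Real.exp_zero, mul_one]
      exact hw₁.2
    obtain ⟨ε, hε, hb⟩ := Metric.eventually_nhds_iff.mp h2
    refine ⟨ε / 2, by positivity, hb ?_⟩
    rw [Real.dist_eq, sub_zero, abs_of_pos (by positivity)]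
    linarith
  have hK : IsCompact (Icc 0 x₀ ×ℂ Icc 0 (2 * Real.pi)) := isCompact_Icc.reProdIm isCompact_Icc
  have hKS : (Icc 0 x₀ ×ℂ Icc 0 (2 * Real.pi)) ⊆ Sg := by
    intro u hu
    rw [Complex.mem_reProdIm] at hu
    rw [hmem]
    constructor
    · refine hw₁.1.trans_le ?_
      have h1 : 1 ≤ Real.exp u.re := Real.one_le_exp hu.1.1
      nlinarith
    · exact (mul_le_mul_of_nonneg_left (Real.exp_le_exp.mpr hu.1.2) hL.le).trans_lt hx₀b
  have hfin := DQ.F.finite_zeros hK (hφa.mono hKS) fun x hx => hnz x (hKS hx)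
  obtain ⟨x, hx, hxn⟩ := ((Set.Ioo_infinite hx₀).sdiff (hfin.image Complex.re)).nonempty
  refine ⟨‖w₁‖ * Real.exp x, ?_, ?_, ?_⟩
  · refine hw₁.1.trans_le ?_
    have h1 : 1 ≤ Real.exp x := Real.one_le_exp hx.1.le
    nlinarith
  · exact (mul_le_mul_of_nonneg_left (Real.exp_le_exp.mpr hx.2.le) hL.le).trans_lt hx₀b
  · intro w hw hδw
    have h1 : ‖w / w₁‖ = Real.exp x := by
      rw [norm_div, hw, mul_div_cancel_left₀ _ hL.ne']
    obtain ⟨θ, hθ0, hθ1, hθ⟩ : ∃ θ : ℝ, 0 ≤ θ ∧ θ ≤ 2 * Real.pi ∧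
        Complex.exp (θ * Complex.I) = Complex.exp (Complex.arg (w / w₁) * Complex.I) := by
      rcases lt_or_ge (Complex.arg (w / w₁)) 0 with hneg | hpos
      · refine ⟨Complex.arg (w / w₁) + 2 * Real.pi, ?_, ?_, ?_⟩
        · have := Complex.neg_pi_lt_arg (w / w₁)
          have := Real.pi_pos
          linarith
        · linarith
        · have h2 : ((Complex.arg (w / w₁) + 2 * Real.pi : ℝ) : ℂ) * Complex.I =
              Complex.arg (w / w₁) * Complex.I + 2 * Real.pi * Complex.I := by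
            push_cast
            ring
          rw [h2, Complex.exp_add, Complex.exp_two_pi_mul_I, mul_one]
      · refine ⟨Complex.arg (w / w₁), hpos, ?_, rfl⟩
        have := Complex.arg_le_pi (w / w₁)
        have := Real.pi_pos
        linarith
    have h2 : w = w₁ * Complex.exp (x + θ * Complex.I) := by
      rw [Complex.exp_add, hθ]
      have h3 : (Complex.exp (x : ℂ)) = ((‖w / w₁‖ : ℝ) : ℂ) := by
        rw [h1, Complex.ofReal_exp]
      rw [h3, Complex.norm_mul_exp_arg_mul_I, mul_div_cancel₀ _ hw0]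
    apply hxn
    refine ⟨x + θ * Complex.I, ⟨?_, ?_⟩, by simp⟩
    · rw [Complex.mem_reProdIm]
      constructor
      · simp only [Complex.add_re, Complex.ofReal_re, Complex.mul_re, Complex.I_re, mul_zero,
          Complex.ofReal_im, Complex.I_im, mul_one, sub_self, add_zero]
        exact ⟨hx.1.le, hx.2.le⟩
      · simp only [Complex.add_im, Complex.ofReal_im, Complex.mul_im, Complex.ofReal_re,
          Complex.I_im, mul_one, Complex.I_re, mul_zero, add_zero, zero_add]
        exact ⟨hθ0, hθ1⟩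
    · rw [← h2]
      exact hδw

/-- TASK C1b. A tube around a circle.
PROOF. `generalized_tube_lemma` for the compact sets `{t₀}` and `sphere 0 j₀` gives open `N ∋ t₀` and `V ⊇ sphere 0 j₀` with
`N ×ˢ V ⊆ O`. By compactness there is `η > 0` with `thickening η (sphere 0 j₀) ⊆ V` (`IsCompact.exists_thickening_subset_open`). If
`|‖w‖ - j₀| < η`, `w ≠ 0`, the point `(j₀ / ‖w‖) • w` of the circle has distance `|‖w‖ - j₀| < η` from `w`. Take `j`, `j'` with
`max c (j₀ - η) < j < j₀ < j' < min d (j₀ + η)` and `j > 0`, and a ball in `N`. -/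
theorem tube_sphere {T : Type*} [NormedAddCommGroup T] {t₀ : T} {j₀ c d : ℝ} (hj : 0 < j₀)
    (hc : c < j₀) (hd : j₀ < d) {O : Set (T × ℂ)} (hO : IsOpen O)
    (h : ∀ w : ℂ, ‖w‖ = j₀ → (t₀, w) ∈ O) :
    ∃ ε j j' : ℝ, 0 < ε ∧ 0 < j ∧ c < j ∧ j < j₀ ∧ j₀ < j' ∧ j' < d ∧
      ∀ t ∈ ball t₀ ε, ∀ w : ℂ, j ≤ ‖w‖ → ‖w‖ ≤ j' → (t, w) ∈ O := by
  have hsub : ({t₀} : Set T) ×ˢ sphere (0 : ℂ) j₀ ⊆ O := by
    rintro ⟨t, w⟩ ⟨ht, hw⟩
    have ht' : t = t₀ := ht
    rw [ht']
    exact h w (by simpa using hw)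
  obtain ⟨N, Vv, hN, hV, htN, hsV, hNV⟩ :=
    generalized_tube_lemma isCompact_singleton (isCompact_sphere (0 : ℂ) j₀) hO hsub
  obtain ⟨η, hη, hthick⟩ := (isCompact_sphere (0 : ℂ) j₀).exists_thickening_subset_open hV hsV
  obtain ⟨ε, hε, hball⟩ := Metric.isOpen_iff.mp hN t₀ (htN rfl)
  have h1 : max (max c (j₀ - η)) 0 < j₀ := max_lt (max_lt hc (by linarith)) hj
  have h2 : j₀ < min d (j₀ + η) := lt_min hd (by linarith)
  have h3 : c ≤ max (max c (j₀ - η)) 0 := (le_max_left _ _).trans (le_max_left _ _)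
  have h4 : j₀ - η ≤ max (max c (j₀ - η)) 0 := (le_max_right _ _).trans (le_max_left _ _)
  have h5 : 0 ≤ max (max c (j₀ - η)) 0 := le_max_right _ _
  have h6 : min d (j₀ + η) ≤ d := min_le_left _ _
  have h7 : min d (j₀ + η) ≤ j₀ + η := min_le_right _ _
  refine ⟨ε, (max (max c (j₀ - η)) 0 + j₀) / 2, (min d (j₀ + η) + j₀) / 2, hε, by linarith,
    by linarith, by linarith, by linarith, by linarith, ?_⟩
  intro t ht w hw1 hw2
  apply hNV
  refine ⟨hball ht, hthick ?_⟩
  rw [Metric.mem_thickening_iff]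
  have hw0 : 0 < ‖w‖ := by linarith
  refine ⟨((j₀ / ‖w‖ : ℝ) : ℂ) * w, ?_, ?_⟩
  · rw [mem_sphere_zero_iff_norm, norm_mul, Complex.norm_real, Real.norm_eq_abs,
      abs_of_pos (by positivity), div_mul_cancel₀ _ hw0.ne']
  · rw [dist_eq_norm]
    have e1 : w - ((j₀ / ‖w‖ : ℝ) : ℂ) * w = ((1 - j₀ / ‖w‖ : ℝ) : ℂ) * w := by
      push_cast
      ring
    have e2 : (1 - j₀ / ‖w‖) * ‖w‖ = ‖w‖ - j₀ := by
      rw [sub_mul, one_mul, div_mul_cancel₀ _ hw0.ne']
    rw [e1, norm_mul, Complex.norm_real, Real.norm_eq_abs, ← abs_of_pos hw0, ← abs_mul,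
      abs_of_pos hw0, e2, abs_lt]
    constructor <;> linarith

end Pool.Agent.DQ.X
end

section

/-! # The good circle -/

set_option autoImplicit false

open Set Filter Topology Metric Matrix

namespace Pool.Agent.DQ.X

variable {T : Type*} [NormedAddCommGroup T] [NormedSpace ℂ T]

variable {B : Type*} [NormedRing B] [NormedAlgebra ℂ B] [CompleteSpace B] (S : Split B)

/-- TASK H0b. The good circle.
PROOF. Let `a' = (aw + ‖w₀‖) / 2`, `b' = (‖w₀‖ + bw) / 2`, `Ω' = An a' b'`, `K = {w | a' ≤ ‖w‖ ≤ b'}` (compact, contained in `An rw Rw`), `w₀ ∈ Ω'`.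
`exists_unit_off` for `w ↦ G (t₀, w)`, `w ↦ G' (t₀, w)` and for `w ↦ H (t₀, w)`, `w ↦ H' (t₀, w)` (`w₁ = w₀`, `Tt S 1 = 1` is a unit) gives `δ₁`, `δ₂`, both `1` at `w₀`.
`good_radius` for `δ₁ * δ₂` on `An a' b'` gives `j₀` with `a' < j₀ < b'` and no zeros on the circle. Let
`O = {p ∈ ball t₀ ε ×ˢ An rw Rw | IsUnit (Tt S (G p)) ∧ IsUnit (Tt S (H p))}`, an open set (`Units.isOpen`, `Tt_continuous`, `G` and `H` are continuous on the open
set; `ContinuousOn.isOpen_inter_preimage`). `tube_sphere` for `j₀`, `c = a'`, `d = b'` gives `ε₁`, `j`, `j'`; take the minimum of `ε₁` and `ε`. -/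
theorem good_tube {t₀ : T} {ε : ℝ} (hε : 0 < ε) {rw Rw aw bw : ℝ} (hw : 0 < rw) (haw : rw ≤ aw)
    (hbw : bw ≤ Rw) {w₀ : ℂ} (hw₀ : w₀ ∈ An aw bw) {G G' H H' : T × ℂ → B}
    (hG : DifferentiableOn ℂ G (ball t₀ ε ×ˢ An rw Rw))
    (hG' : DifferentiableOn ℂ G' (ball t₀ ε ×ˢ An rw Rw))
    (hH : DifferentiableOn ℂ H (ball t₀ ε ×ˢ An rw Rw))
    (hH' : DifferentiableOn ℂ H' (ball t₀ ε ×ˢ An rw Rw))
    (h1 : ∀ p ∈ ball t₀ ε ×ˢ An rw Rw, G p * G' p = 1 ∧ G' p * G p = 1)
    (h2 : ∀ p ∈ ball t₀ ε ×ˢ An rw Rw, H p * H' p = 1 ∧ H' p * H p = 1)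
    (h3 : G (t₀, w₀) = 1) (h4 : H (t₀, w₀) = 1) :
    ∃ ε₁ j j' : ℝ, 0 < ε₁ ∧ ε₁ ≤ ε ∧ aw < j ∧ j < j' ∧ j' < bw ∧
      ∀ t ∈ ball t₀ ε₁, ∀ w : ℂ, j ≤ ‖w‖ → ‖w‖ ≤ j' →
        IsUnit (Tt S (G (t, w))) ∧ IsUnit (Tt S (H (t, w))) := by
  have hn1 : aw < ‖w₀‖ := hw₀.1
  have hn2 : ‖w₀‖ < bw := hw₀.2
  obtain ⟨a', ha'⟩ : ∃ a' : ℝ, a' = (aw + ‖w₀‖) / 2 := ⟨_, rfl⟩
  obtain ⟨b', hb'⟩ : ∃ b' : ℝ, b' = (‖w₀‖ + bw) / 2 := ⟨_, rfl⟩
  have e1 : aw < a' := by linarith
  have e2 : a' < ‖w₀‖ := by linarith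
  have e3 : ‖w₀‖ < b' := by linarith
  have e4 : b' < bw := by linarith
  have hK : IsCompact {w : ℂ | a' ≤ ‖w‖ ∧ ‖w‖ ≤ b'} := DQ.F.isCompact_ann a' b'
  have hsub : An a' b' ⊆ {w : ℂ | a' ≤ ‖w‖ ∧ ‖w‖ ≤ b'} := fun w hw => ⟨hw.1.le, hw.2.le⟩
  have hKA : {w : ℂ | a' ≤ ‖w‖ ∧ ‖w‖ ≤ b'} ⊆ An rw Rw := fun w hw =>
    ⟨by have := hw.1; linarith, by have := hw.2; linarith⟩
  have hΩ : An a' b' ⊆ An rw Rw := hsub.trans hKA
  have slice : ∀ {F : T × ℂ → B}, DifferentiableOn ℂ F (ball t₀ ε ×ˢ An rw Rw) →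
      DifferentiableOn ℂ (fun w => F (t₀, w)) (An rw Rw) := by
    intro F hF
    refine hF.comp (f := fun w : ℂ => (t₀, w)) ?_ ?_
    · exact ((differentiable_const _).prodMk differentiable_id).differentiableOn
    · intro w hw
      exact ⟨mem_ball_self hε, hw⟩
  have hw₀' : w₀ ∈ An a' b' := ⟨e2, e3⟩
  have hmem : ∀ w ∈ An a' b', (t₀, w) ∈ ball t₀ ε ×ˢ An rw Rw := fun w hw =>
    ⟨mem_ball_self hε, hΩ hw⟩
  obtain ⟨δ₁, hδ₁, h11, hu₁⟩ := exists_unit_off S (isOpen_An a' b') hK hsub
    (b := fun w => G (t₀, w)) (b' := fun w => G' (t₀, w)) ((slice hG).continuousOn.mono hKA)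
    ((slice hG').continuousOn.mono hKA) ((slice hG).mono hΩ) ((slice hG').mono hΩ)
    (fun w hw => (h1 _ (hmem w hw)).1) (fun w hw => (h1 _ (hmem w hw)).2) hw₀'
    (by
      change IsUnit (Tt S (G (t₀, w₀)))
      rw [h3, Tt_one]
      exact isUnit_one)
  obtain ⟨δ₂, hδ₂, h21, hu₂⟩ := exists_unit_off S (isOpen_An a' b') hK hsub
    (b := fun w => H (t₀, w)) (b' := fun w => H' (t₀, w)) ((slice hH).continuousOn.mono hKA)
    ((slice hH').continuousOn.mono hKA) ((slice hH).mono hΩ) ((slice hH').mono hΩ)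
    (fun w hw => (h2 _ (hmem w hw)).1) (fun w hw => (h2 _ (hmem w hw)).2) hw₀'
    (by
      change IsUnit (Tt S (H (t₀, w₀)))
      rw [h4, Tt_one]
      exact isUnit_one)
  obtain ⟨j₀, hj1, hj2, hj3⟩ := good_radius (a := a') (b := b') (by linarith) (hδ₁.mul hδ₂) hw₀'
    (by
      change δ₁ w₀ * δ₂ w₀ ≠ 0
      rw [h11, h21, one_mul]
      exact one_ne_zero)
  have hbase : IsOpen (ball t₀ ε ×ˢ An rw Rw) := isOpen_ball.prod (isOpen_An rw Rw)
  have hO1 : IsOpen ((ball t₀ ε ×ˢ An rw Rw) ∩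
      (fun p => Tt S (G p)) ⁻¹' {A : B →L[ℂ] B | IsUnit A}) :=
    (ContinuousOn.comp (g := fun g : B => Tt S g) (t := univ) (Tt_continuous S).continuousOn
      hG.continuousOn (mapsTo_univ _ _)).isOpen_inter_preimage hbase Units.isOpen
  have hO2 : IsOpen ((ball t₀ ε ×ˢ An rw Rw) ∩
      (fun p => Tt S (H p)) ⁻¹' {A : B →L[ℂ] B | IsUnit A}) :=
    (ContinuousOn.comp (g := fun g : B => Tt S g) (t := univ) (Tt_continuous S).continuousOn
      hH.continuousOn (mapsTo_univ _ _)).isOpen_inter_preimage hbase Units.isOpen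
  obtain ⟨ε₁, j, j', k1, k2, k3, k4, k5, k6, k7⟩ := tube_sphere (t₀ := t₀) (j₀ := j₀) (c := a')
    (d := b') (by linarith) hj1 hj2 (hO1.inter hO2) (by
      intro w hw
      have hwA : w ∈ An a' b' := ⟨by rw [hw]; exact hj1, by rw [hw]; exact hj2⟩
      have hne := hj3 w hw
      have hne1 : δ₁ w ≠ 0 := left_ne_zero_of_mul hne
      have hne2 : δ₂ w ≠ 0 := right_ne_zero_of_mul hne
      exact ⟨⟨hmem w hwA, hu₁ w hwA hne1⟩, hmem w hwA, hu₂ w hwA hne2⟩)
  refine ⟨min ε₁ ε, j, j', lt_min k1 hε, min_le_right _ _, by linarith, by linarith, by linarith,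
    ?_⟩
  intro t ht w hw1 hw2
  obtain ⟨⟨-, q1⟩, -, q2⟩ := k7 t (ball_subset_ball (min_le_left _ _) ht) w hw1 hw2
  exact ⟨q1, q2⟩

end Pool.Agent.DQ.X
end
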