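import Pool.Agent.Lib.MP_4aa2a9_ag.Mg.G009
import Pool.Agent.Lib.MP_4aa2a9_ag.Mg.G011
import Pool.Agent.Lib.MP_4aa2a9_ag.Mg.G010
import Pool.Agent.Lib.MP_4aa2a9_ag.Mg.G007
import Pool.Agent.Lib.MP_4aa2a9_ag.Mg.G004
import Pool.Agent.Lib.MP_4aa2a9_ag.Mg.G006
import Pool.Agent.Lib.MP_4aa2a9_ag.Mg.G017
import Pool.Agent.DQ.Mg_MP_4aa2a9_ag.G002
import Pool.Agent.Lib.MP_4aa2a9_ag.Mg.G001
import Pool.Agent.Lib.MP_4aa2a9_ag.Mg.G019
import Pool.Agent.DQ.Mg_MP_4aa2a9_ag.G003

section

/-! # DQ, module W: germ algebra (exported theorems)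

Also exported by the imported files: `mon`, `wprep`, `wdiv`, `wdiv_unique`, `OGerm.span_coord`,
`OGerm.regular_coord`. -/

set_option autoImplicit false

open Set Filter Topology

universe u v w

namespace Pool.Agent.DQ

variable {V : Type u} [NormedAddCommGroup V] [NormedSpace ℂ V] [FiniteDimensional ℂ V]

theorem OGerm.isNoetherianRing (x : V) : IsNoetherianRing (OGerm x) := W.isNoetherianRing_OO x

omit [FiniteDimensional ℂ V] in
theorem OGerm.isLocalRing (x : V) : IsLocalRing (OGerm x) := W.isLocalRing_OO x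

omit [FiniteDimensional ℂ V] in
theorem OGerm.isDomain (x : V) : IsDomain (OGerm x) := W.isDomain_OO x

omit [FiniteDimensional ℂ V] in
theorem OGerm.isUnit_iff {x : V} (g : OGerm x) : IsUnit g ↔ val g ≠ 0 := W.isUnit_iff_val g

/-- Oka's theorem -/
theorem oka (n : ℕ) : ((O V).free n).Coh univ := W.coh_free V n

theorem oka_relAt (x : V) : (O V).RelAt x := by
  intro q n f hf
  exact ((oka (V := V) q x (mem_univ x)).self_of_nhds).2.2 n f hf

/-- consequence of Oka's theorem: local finite presentation implies coherence -/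
theorem coh_of_lfp (F : EMod.{u, u, w} (O V)) {x : V} (hx : x ∈ F.dom) {p q : ℕ}
    (g : Fin p → (y : V) → F.St y) (ρ : Fin q → Fin p → (y : V) → (O V).St y)
    (hg : ∀ i, F.At (g i) x) (hρ : ∀ j i, (O V).At (ρ j i) x)
    (hgen : ∀ᶠ y in 𝓝 x, Submodule.span ((O V).St y) (range fun i => g i y) = ⊤)
    (hrel : ∀ᶠ y in 𝓝 x,
      F.rel g y = Submodule.span ((O V).St y) (range fun j => fun i => ρ j i y)) :
    F.CohAt x :=
  F.cohAt_of_lfp hx (oka_relAt x) g ρ hg hρ hgen hrel

end Pool.Agent.DQ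
end

section

/-! Module C of DQ: the exported theorems. -/

set_option autoImplicit false

open Set Filter Topology

universe u v w

namespace Pool.Agent.DQ

variable {V : Type u} [NormedAddCommGroup V] [NormedSpace ℂ V] {n : ℕ}

theorem oka_of_coord (κ : V ≃L[ℂ] (Fin n → ℂ)) : C.Oka V := by
  have : FiniteDimensional ℂ V := κ.symm.toLinearEquiv.finiteDimensional
  exact fun p => oka (V := V) p

theorem cartanA (κ : V ≃L[ℂ] (Fin n → ℂ)) (c : Fin n → ℂ) (r R : Fin n → ℝ)
    (F : EMod.{u, u, w} (O V)) (hF : F.Coh (cbox κ c r R)) :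
    ∃ (p : ℕ) (g : Fin p → (x : V) → F.St x),
      (∀ i, F.On (g i) (cbox κ c r R)) ∧ F.Gen g (cbox κ c r R) :=
  C.cartanA (oka_of_coord κ) κ c r R F hF

theorem cartanB (κ : V ≃L[ℂ] (Fin n → ℂ)) (c : Fin n → ℂ) (r R : Fin n → ℝ)
    (F : EMod.{u, u, w} (O V)) (hF : F.Coh (cbox κ c r R)) {p : ℕ}
    (g : Fin p → (x : V) → F.St x) (hg : ∀ i, F.On (g i) (cbox κ c r R))
    (hgen : F.Gen g (cbox κ c r R)) (s : (x : V) → F.St x) (hs : F.On s (cbox κ c r R)) :
    ∃ a : Fin p → V → ℂ, (∀ i, HolNear (a i) (cbox κ c r R)) ∧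
      ∀ x ∈ cbox κ c r R, s x = ∑ i, om (a i) x • g i x :=
  C.cartanB (oka_of_coord κ) κ c r R F hF g hg hgen s hs

theorem cartanB_open (κ : V ≃L[ℂ] (Fin n → ℂ)) (c : Fin n → ℂ) (r R : Fin n → ℝ)
    (hrR : GoodRadii r R) (F : EMod.{u, u, w} (O V)) (hF : F.Coh (cbox κ c r R)) {p : ℕ}
    (g : Fin p → (x : V) → F.St x) (hg : ∀ i, F.On (g i) (cbox κ c r R))
    (hgen : F.Gen g (cbox κ c r R)) (s : (x : V) → F.St x) (hs : F.On s (box κ c r R)) :
    ∃ a : Fin p → V → ℂ, (∀ i, HolNear (a i) (box κ c r R)) ∧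
      ∀ x ∈ box κ c r R, s x = ∑ i, om (a i) x • g i x :=
  C.cartanB_open (oka_of_coord κ) κ c r R hrR F hF g hg hgen s hs

/-- torsors under a coherent sheaf are trivial (`H¹(K, F) = 0`); compact and open version:
`S` is `cbox κ c r R`, or `box κ c r R` when the radii are good -/
theorem torsor (κ : V ≃L[ℂ] (Fin n → ℂ)) (c : Fin n → ℂ) (r R : Fin n → ℝ)
    (F : EMod.{u, u, w} (O V)) (hF : F.Coh (cbox κ c r R)) (S : Set V)
    (hS : S = cbox κ c r R ∨ (S = box κ c r R ∧ GoodRadii r R))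
    {G : V → Type v} [∀ x, AddTorsor (F.St x) (G x)] (AtG : ((x : V) → G x) → V → Prop)
    (ev : ∀ s x, AtG s x → ∀ᶠ y in 𝓝 x, AtG s y)
    (congr : ∀ s t x, AtG s x → (∀ᶠ y in 𝓝 x, s y = t y) → AtG t x)
    (add : ∀ f s x, F.At f x → AtG s x → AtG (fun y => f y +ᵥ s y) x)
    (sub : ∀ s t x, AtG s x → AtG t x → F.At (fun y => s y -ᵥ t y) x)
    (loc : ∀ x ∈ S, ∃ s, AtG s x) :
    ∃ s, ∀ x ∈ S, AtG s x :=
  C.torsor (oka_of_coord κ) κ c r R F hF S hS AtG ev congr add sub loc

end Pool.Agent.DQ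
end

section

/-! # Right inverses of surjective matrices of holomorphic functions -/

set_option autoImplicit false

open Set Filter Topology Metric Matrix

universe u

namespace Pool.Agent.DQ.X

/-- matrix valued holomorphic function near all points of a set -/
def MHol {E : Type u} [NormedAddCommGroup E] [NormedSpace ℂ E] {p q : ℕ}
    (a : E → Matrix (Fin p) (Fin q) ℂ) (S : Set E) : Prop := ∀ i j, HolNear (fun x => a x i j) S

/-- over the single point `t` the bundle with transition matrix `g` on the shell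
(frames over disc × annulus and annulus × disc) is generated by finitely many sections -/
def GenFib {T : Type u} {n : ℕ} (g : T × ℂ × ℂ → Matrix (Fin n) (Fin n) ℂ) (rw Rw rz Rz : ℝ)
    (t : T) : Prop :=
  ∃ (p : ℕ) (a b : ℂ × ℂ → Matrix (Fin n) (Fin p) ℂ),
    MHol a (ring 0 (-1) Rw ×ˢ ring 0 rz Rz) ∧ MHol b (ring 0 rw Rw ×ˢ ring 0 (-1) Rz) ∧
    (∀ x ∈ ring 0 rw Rw ×ˢ ring 0 rz Rz, a x = g (t, x) * b x) ∧
    (∀ x ∈ ring 0 (-1) Rw ×ˢ ring 0 rz Rz, Function.Surjective (a x).mulVec) ∧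
    ∀ x ∈ ring 0 rw Rw ×ˢ ring 0 (-1) Rz, Function.Surjective (b x).mulVec

private theorem C0_gm_sum {V : Type u} [NormedAddCommGroup V] [NormedSpace ℂ V] {ι : Type*}
    (s : Finset ι) {f : ι → V → ℂ} {x : V} (hf : ∀ i ∈ s, HolAt (f i) x) :
    (gm (fun y => ∑ i ∈ s, f i y) x : OGerm x) = ∑ i ∈ s, gm (f i) x := by
  classical
  induction s using Finset.induction_on with
  | empty =>
    simp only [Finset.sum_empty]
    exact gm_zero x
  | insert a s ha ih =>
    have h1 : (fun y => ∑ i ∈ insert a s, f i y) = f a + fun y => ∑ i ∈ s, f i y := by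
      ext y
      simp [Finset.sum_insert ha]
    rw [h1, gm_add (hf a (Finset.mem_insert_self _ _))
      (HolAt.sum s fun i hi => hf i (Finset.mem_insert_of_mem hi)),
      ih fun i hi => hf i (Finset.mem_insert_of_mem hi), Finset.sum_insert ha]

private theorem C0_gen {V : Type u} [NormedAddCommGroup V] [NormedSpace ℂ V]
    [FiniteDimensional ℂ V] {n p : ℕ} {a : V → Matrix (Fin n) (Fin p) ℂ} {x : V}
    (ha : ∀ i j, HolAt (fun y => a y i j) x) (hs : Function.Surjective (a x).mulVec)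
    (v : Fin n → OGerm x) :
    ∃ c : Fin p → OGerm x, ∀ i, ∑ j, c j * gm (fun y => a y i j) x = v i := by
  classical
  choose c hc using fun i₀ : Fin n => hs (Pi.single i₀ 1)
  let A : Matrix (Fin n) (Fin p) (OGerm x) := Matrix.of fun i j => gm (fun y => a y i j) x
  let C : Matrix (Fin p) (Fin n) (OGerm x) := Matrix.of fun j i => gm (fun _ => c i j) x
  let vh : OGerm x →+* ℂ := (Filter.Germ.valueRingHom).comp (OGerm x).subtype
  have hvh : ∀ g, vh g = val g := fun g => rfl
  have hvg : ∀ {f : V → ℂ}, HolAt f x → vh (gm f x) = f x := by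
    intro f hf
    rw [hvh]
    unfold val
    rw [gm_coe hf]
    rfl
  have hM : IsUnit (A * C).det := by
    rw [OGerm.isUnit_iff, ← hvh, RingHom.map_det]
    have h1 : vh.mapMatrix (A * C) = 1 := by
      ext i i'
      have h2 : vh.mapMatrix (A * C) i i' = ∑ j, vh (A i j) * vh (C j i') := by
        simp [Matrix.mul_apply]
      rw [h2]
      have h3 : ∀ j, vh (A i j) * vh (C j i') = a x i j * c i' j := by
        intro j
        have e1 : vh (A i j) = a x i j := hvg (ha i j)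
        have e2 : vh (C j i') = c i' j := hvg (HolAt.const _ _)
        rw [e1, e2]
      simp only [h3]
      have h4 := congrFun (hc i') i
      have h5 : (a x).mulVec (c i') i = ∑ j, a x i j * c i' j := rfl
      rw [← h5, h4, Matrix.one_apply, Pi.single_apply]
    rw [h1, Matrix.det_one]
    exact one_ne_zero
  refine ⟨C.mulVec ((A * C)⁻¹.mulVec v), fun i => ?_⟩
  have h1 : A.mulVec (C.mulVec ((A * C)⁻¹.mulVec v)) = v := by
    rw [Matrix.mulVec_mulVec, Matrix.mulVec_mulVec, Matrix.mul_nonsing_inv _ hM,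
      Matrix.one_mulVec]
  have h2 := congrFun h1 i
  rw [← h2]
  have h3 : A.mulVec (C.mulVec ((A * C)⁻¹.mulVec v)) i =
      ∑ j, A i j * C.mulVec ((A * C)⁻¹.mulVec v) j := rfl
  rw [h3]
  exact Finset.sum_congr rfl fun j _ => mul_comm _ _


/-- TASK C0. PROOF. Let `F = (O V).free n`, coherent by `oka n` (in the sense needed by `cartanB`), let
`g j x = fun i => gm (fun y => a y i j) x`, `s i₀ x = fun i => if i = i₀ then 1 else 0`, sections near `cbox`. The `g j` generate the
stalks over `cbox`: at `x`, by surjectivity there is a constant matrix `C` with `a x * C = 1` (columns: preimages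
of the unit vectors); the matrix of germs `A * C` (`A i j = gm (fun y => a y i j) x`, `C` constant germs) has a determinant whose value
at `x` is `1`, so it is a unit (`OGerm.isUnit_iff`; or directly: `det (a y * C)` is a holomorphic function of `y`, not zero
near `x`, so its germ has an inverse), hence `A * (C * (A * C)⁻¹) = 1` and every vector of the stalk is a combination of the
columns of `A`. `cartanB` for the section `s i₀` gives holomorphic `y j i₀` near `cbox` with
`s i₀ x = ∑ j, om (y j i₀) x • g j x`, which is an equality of germs: `∑ j, a x' i j * y j i₀ x' = δ i i₀` for `x'` near `x`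
(`gm_eq_iff`, `gm_mul`, sums). -/
theorem exists_rinv {V : Type u} [NormedAddCommGroup V] [NormedSpace ℂ V] [FiniteDimensional ℂ V]
    {k : ℕ} (κ : V ≃L[ℂ] (Fin k → ℂ)) (c : Fin k → ℂ) (r R : Fin k → ℝ) {n p : ℕ}
    {a : V → Matrix (Fin n) (Fin p) ℂ} (ha : MHol a (cbox κ c r R))
    (hs : ∀ x ∈ cbox κ c r R, Function.Surjective (a x).mulVec) :
    ∃ y : V → Matrix (Fin p) (Fin n) ℂ, MHol y (cbox κ c r R) ∧
      ∀ x ∈ cbox κ c r R, ∀ᶠ x' in 𝓝 x, a x' * y x' = 1 := by
  classical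
  have hF : ((O V).free n).Coh (cbox κ c r R) := fun x _ => oka n x (mem_univ x)
  let g : Fin p → (x : V) → ((O V).free n).St x := fun j x i => gm (fun y => a y i j) x
  have hg : ∀ j, ((O V).free n).On (g j) (cbox κ c r R) := fun j x hx =>
    ⟨mem_univ _, fun i => ⟨fun y => a y i j, ha i j x hx, Eventually.of_forall fun _ => rfl⟩⟩
  have hgen : ((O V).free n).Gen g (cbox κ c r R) := by
    intro x hx
    rw [eq_top_iff]
    intro v _
    obtain ⟨cc, hcc⟩ := C0_gen (fun i j => ha i j x hx) (hs x hx) v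
    have h1 : v = ∑ j, (show (O V).St x from cc j) • g j x := by
      funext i
      have h2 : (∑ j, (show (O V).St x from cc j) • g j x) i =
          ∑ j, ((show (O V).St x from cc j) • g j x) i :=
        Finset.sum_apply i Finset.univ (fun j => (show (O V).St x from cc j) • g j x)
      rw [h2]
      exact (hcc i).symm
    rw [h1]
    exact Submodule.sum_mem _ fun j _ => Submodule.smul_mem _ _ (Submodule.subset_span ⟨j, rfl⟩)
  have hy : ∀ i₀ : Fin n, ∃ y : Fin p → V → ℂ, (∀ j, HolNear (y j) (cbox κ c r R)) ∧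
      ∀ x ∈ cbox κ c r R, ∀ i, (gm (fun _ => if i = i₀ then (1 : ℂ) else 0) x : OGerm x) =
        ∑ j, gm (y j) x * gm (fun y => a y i j) x := by
    intro i₀
    obtain ⟨y, hy, hye⟩ := cartanB κ c r R ((O V).free n) hF g hg hgen
      (fun x i => gm (fun _ => if i = i₀ then (1 : ℂ) else 0) x)
      (fun x _ => ⟨mem_univ _, fun i => ⟨fun _ => if i = i₀ then (1 : ℂ) else 0,
        HolAt.const _ _, Eventually.of_forall fun _ => rfl⟩⟩)
    refine ⟨y, hy, fun x hx i => ?_⟩
    have h1 := congrFun (hye x hx) i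
    have h2 : (∑ j, om (y j) x • g j x) i = ∑ j, (om (y j) x • g j x) i :=
      Finset.sum_apply i Finset.univ (fun j => om (y j) x • g j x)
    rw [h2] at h1
    exact h1
  choose y hyh hye using hy
  refine ⟨fun x => Matrix.of fun j i₀ => y i₀ j x, fun j i₀ => hyh i₀ j, fun x hx => ?_⟩
  have h1 : ∀ i i₀, ∀ᶠ x' in 𝓝 x, ∑ j, a x' i j * y i₀ j x' = if i = i₀ then (1 : ℂ) else 0 := by
    intro i i₀
    have h2 := hye i₀ x hx i
    have h3 : (gm (fun x' => ∑ j, a x' i j * y i₀ j x') x : OGerm x) =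
        ∑ j, gm (y i₀ j) x * gm (fun y => a y i j) x := by
      rw [C0_gm_sum Finset.univ (f := fun j x' => a x' i j * y i₀ j x')
        fun j _ => (ha i j x hx).mul (hyh i₀ j x hx)]
      refine Finset.sum_congr rfl fun j _ => ?_
      rw [mul_comm]
      exact gm_mul (ha i j x hx) (hyh i₀ j x hx)
    rw [← h3] at h2
    exact ((gm_eq_iff (HolAt.const _ _) (HolAt.sum Finset.univ
      fun j _ => (ha i j x hx).mul (hyh i₀ j x hx))).mp h2).symm
  have h2 := eventually_all.mpr fun i => eventually_all.mpr (h1 i)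
  filter_upwards [h2] with x' hx'
  ext i i₀
  rw [Matrix.mul_apply, Matrix.one_apply]
  exact hx' i i₀

end Pool.Agent.DQ.X
end

section

/-! Module M12, file 2: linear equations with holomorphic coefficients near closed boxes. -/

set_option autoImplicit false
set_option linter.unusedSectionVars false

open Set Filter Topology Matrix

universe u v w

namespace Pool.Agent.DQ.M12

variable {E : Type u} [NormedAddCommGroup E] [NormedSpace ℂ E] {p q r s n : ℕ}

/-- the columns of `B` generate the kernel of `A` at the points of `S` -/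
structure Ex (A : E → Matrix (Fin p) (Fin q) ℂ) (B : E → Matrix (Fin q) (Fin r) ℂ) (S : Set E) :
    Prop where
  holA : MHol A S
  holB : MHol B S
  comp : ∀ x ∈ S, gmat A x * gmat B x = 0
  exact : ∀ x ∈ S, ∀ u, gmat A x *ᵥ u = 0 → ∃ c, gmat B x *ᵥ c = u

theorem Ex.mono {A : E → Matrix (Fin p) (Fin q) ℂ} {B : E → Matrix (Fin q) (Fin r) ℂ} {S S' : Set E}
    (h : Ex A B S) (hS : S' ⊆ S) : Ex A B S' :=
  ⟨fun i j => (h.holA i j).mono hS, fun i j => (h.holB i j).mono hS, fun x hx => h.comp x (hS hx),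
    fun x hx => h.exact x (hS hx)⟩

/-- generators of the relations between finitely many sections (columns of `B`) -/
theorem exists_rel (κ : E ≃L[ℂ] (Fin n → ℂ)) (c : Fin n → ℂ) (r₀ R : Fin n → ℝ)
    (F : EMod.{u, u, w} (O E)) (hF : F.Coh (cbox κ c r₀ R)) (g : Fin p → (x : E) → F.St x)
    (hg : ∀ i, F.On (g i) (cbox κ c r₀ R)) :
    ∃ (s : ℕ) (B : E → Matrix (Fin p) (Fin s) ℂ), MHol B (cbox κ c r₀ R) ∧
      ∀ x ∈ cbox κ c r₀ R, ∀ a : Fin p → (O E).St x,
        ∑ i, a i • g i x = 0 ↔ ∃ d, gmat B x *ᵥ d = a := by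
  have hN : (F.relSh g).Coh (cbox κ c r₀ R) := C.relSh_coh (oka_of_coord κ) hF hg
  obtain ⟨q, t, ht, hgen⟩ := cartanA κ c r₀ R (F.relSh g) hN
  have hat : ∀ l i, ∀ x ∈ cbox κ c r₀ R,
      HolAt (fun y => C.evg y (F.relVal g y (t l y) i)) x ∧
      ∀ᶠ y in 𝓝 x, F.relVal g y (t l y) i = gm (fun y => C.evg y (F.relVal g y (t l y) i)) y :=
    fun l i x hx =>
      C.at_evg (a := fun y => F.relVal g y (t l y) i) ((EMod.relSh_at_iff.mp (ht l x hx)).2 i)
  refine ⟨q, fun y => of fun i l => C.evg y (F.relVal g y (t l y) i),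
    fun i l x hx => (hat l i x hx).1, fun x hx a => ?_⟩
  have h1 : F.rel g x = Submodule.span ((O E).St x)
      (range fun l => fun i => om (fun y => C.evg y (F.relVal g y (t l y) i)) x) := by
    rw [← F.relVal_range g x, ← Submodule.map_top, ← hgen x hx, Submodule.map_span,
      ← Set.range_comp]
    congr 1
    congr 1
    funext l
    funext i
    exact (hat l i x hx).2.self_of_nhds
  have h2 : (∑ i, a i • g i x = 0) ↔ a ∈ F.rel g x := Iff.rfl
  rw [h2, h1, mem_span_fam]
  refine exists_congr fun d => ?_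
  constructor
  · intro h
    rw [h]
    funext i
    rw [Finset.sum_apply]
    simp only [Matrix.mulVec, dotProduct, gmat_apply, Matrix.of_apply, Pi.smul_apply, smul_eq_mul]
    exact Finset.sum_congr rfl fun l _ => mul_comm _ _
  · intro h
    rw [← h]
    funext i
    rw [Finset.sum_apply]
    simp only [Matrix.mulVec, dotProduct, gmat_apply, Matrix.of_apply, Pi.smul_apply, smul_eq_mul]
    exact Finset.sum_congr rfl fun l _ => mul_comm _ _

/-- the column `j` of a matrix valued function, as a section of the free module -/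
noncomputable def col (A : E → Matrix (Fin p) (Fin q) ℂ) (j : Fin q) (y : E) :
    ((O E).free p).St y := fun i => om (fun z => A z i j) y

/-- a vector valued function, as a section of the free module -/
noncomputable def gsec (u : E → Fin p → ℂ) (y : E) : ((O E).free p).St y := gvec u y

theorem col_at {A : E → Matrix (Fin p) (Fin q) ℂ} {x : E} (hA : MHolAt A x) (j : Fin q) :
    ((O E).free p).At (col A j) x :=
  ⟨mem_univ _, fun i => C.at_gm (hA i j)⟩

theorem gsec_at {u : E → Fin p → ℂ} {x : E} (hu : VHolAt u x) :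
    ((O E).free p).At (gsec u) x := ⟨mem_univ _, fun i => C.at_gm (hu i)⟩

theorem sum_col (A : E → Matrix (Fin p) (Fin q) ℂ) (x : E) (c : Fin q → (O E).St x) :
    (∑ j, c j • col A j x : ((O E).free p).St x) = gmat A x *ᵥ c := by
  have h : ∀ s : Finset (Fin q), (∑ j ∈ s, c j • col A j x : ((O E).free p).St x) =
      fun i => ∑ j ∈ s, gmat A x i j * c j := by
    intro s
    induction s using Finset.induction_on with
    | empty =>
      simp only [Finset.sum_empty]
      rfl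
    | insert a s ha ih =>
      rw [Finset.sum_insert ha, ih]
      funext i
      rw [Finset.sum_insert ha, mul_comm (gmat A x i a)]
      rfl
  exact h Finset.univ

/-- generators of the kernel of a matrix -/
theorem exists_ker (κ : E ≃L[ℂ] (Fin n → ℂ)) (c : Fin n → ℂ) (r₀ R : Fin n → ℝ)
    (A : E → Matrix (Fin p) (Fin q) ℂ) (hA : MHol A (cbox κ c r₀ R)) :
    ∃ (s : ℕ) (B : E → Matrix (Fin q) (Fin s) ℂ), Ex A B (cbox κ c r₀ R) := by
  rw [mHol_iff] at hA
  have hO := oka_of_coord κ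
  obtain ⟨s, B, hB, h⟩ := exists_rel κ c r₀ R ((O E).free p)
    (fun x hx => hO p x (mem_univ x)) (fun j => col A j)
    (fun j x hx => col_at (hA x hx) j)
  refine ⟨s, B, mHol_iff.mpr hA, hB, fun x hx => ?_, fun x hx u hu => ?_⟩
  · ext1 i l
    have h1 := (h x hx (fun j => gmat B x j l)).2 ⟨Pi.single l 1, by
      funext j
      rw [Matrix.mulVec_single_one]
      rfl⟩
    rw [sum_col] at h1
    exact congrFun h1 i
  · refine (h x hx u).1 ?_
    rw [sum_col]
    exact hu

/-- the sheaf spanned by the columns of `A` -/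
noncomputable def spanSh (A : E → Matrix (Fin p) (Fin q) ℂ) : EMod.{u, u, u} (O E) :=
  ((O E).free p).sub (((O E).free p).spn fun j => col A j)
    (((O E).free p).spn_open fun j => col A j)

/-- a vector valued function as a section of the span -/
noncomputable def spanSec (A : E → Matrix (Fin p) (Fin q) ℂ) (b : E → Fin p → ℂ) (x : E) :
    (spanSh A).St x := ((O E).free p).toSub (((O E).free p).spn fun j => col A j) (gsec b) x

theorem spanSh_coh (hO : C.Oka E) {A : E → Matrix (Fin p) (Fin q) ℂ} {S : Set E}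
    (hA : MHol A S) : (spanSh A).Coh S := by
  rw [mHol_iff] at hA
  intro x hx
  filter_upwards [hO p x (mem_univ x), (hA x hx).eventually] with y h1 h2
  exact ((O E).free p).sub_cohAt _ _ h1 (fun j => col A j) (fun j => col_at h2 j)
    (((O E).free p).spn_near _ fun j => col_at h2 j)

theorem mem_spn {A : E → Matrix (Fin p) (Fin q) ℂ} {x : E} (hA : MHolAt A x)
    {m : ((O E).free p).St x} (h : ∃ d, gmat A x *ᵥ d = m) :
    m ∈ ((O E).free p).spn (fun j => col A j) x := by
  obtain ⟨d, hd⟩ := h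
  rw [EMod.spn_eq _ _ fun j => col_at hA j]
  exact mem_span_fam.mpr ⟨d, hd.symm.trans (sum_col A x d).symm⟩

theorem spanSec_at {A : E → Matrix (Fin p) (Fin q) ℂ} {x : E} (hA : MHolAt A x)
    {b : E → Fin p → ℂ} (hb : VHolAt b x) (h : ∃ d, gmat A x *ᵥ d = gvec b x) :
    (spanSh A).At (spanSec A b) x := by
  refine ((O E).free p).toSub_at _ (((O E).free p).spn_open _) (gsec_at hb) ?_
  have h1 := ((O E).free p).near_mem_span (gsec_at hb) (fun j => col_at hA j) (by
    rw [← EMod.spn_eq _ _ fun j => col_at hA j]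
    exact mem_spn hA h)
  filter_upwards [h1, ((O E).free p).spn_near _ fun j => col_at hA j] with y h2 h3
  rw [h3]
  exact h2

theorem col_eq_gsec (A : E → Matrix (Fin p) (Fin q) ℂ) (j : Fin q) :
    (col A j : (x : E) → ((O E).free p).St x) = gsec fun y i => A y i j := rfl

theorem spanSec_col_at {A : E → Matrix (Fin p) (Fin q) ℂ} {x : E} (hA : MHolAt A x) (j : Fin q) :
    (spanSh A).At (spanSec A fun y i => A y i j) x := by
  refine spanSec_at hA (fun i => hA i j) ⟨Pi.single j 1, ?_⟩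
  rw [Matrix.mulVec_single_one]
  rfl

theorem spanSec_gen {A : E → Matrix (Fin p) (Fin q) ℂ} {S : Set E} (hA : MHol A S) :
    (spanSh A).Gen (fun j : Fin q => spanSec A fun y i => A y i j) S := by
  rw [mHol_iff] at hA
  intro x hx
  exact span_toSub ((O E).free p) _ (fun j => col A j)
    (EMod.spn_eq _ _ fun j => col_at (hA x hx) j)

theorem spanSec_eq {A : E → Matrix (Fin p) (Fin q) ℂ} {x : E} (hA : MHolAt A x)
    {b : E → Fin p → ℂ} (h : ∃ d, gmat A x *ᵥ d = gvec b x) {a : Fin q → E → ℂ}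
    (hab : spanSec A b x = ∑ j, om (a j) x • spanSec A (fun y i => A y i j) x) :
    gmat A x *ᵥ gvec (fun y j => a j y) x = gvec b x := by
  let val : (spanSh A).St x →ₗ[(O E).St x] ((O E).free p).St x :=
    (((O E).free p).spn (fun j => col A j) x).subtype
  have h1 := congrArg val hab
  have h2 : val (spanSec A b x) = gsec b x := ((O E).free p).coe_toSub _ _ (mem_spn hA h)
  have h3 : val (∑ j, om (a j) x • spanSec A (fun y i => A y i j) x) =
      ∑ j, om (a j) x • col A j x := by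
    rw [map_sum]
    refine Finset.sum_congr rfl fun j _ => ?_
    rw [map_smul]
    congr 1
    refine ((O E).free p).coe_toSub _ _ (mem_spn hA ⟨Pi.single j 1, ?_⟩)
    rw [Matrix.mulVec_single_one]
    rfl
  exact ((h2.symm.trans (h1.trans h3)).trans (sum_col A x fun j => om (a j) x)).symm

/-- linear equations: solvability at the points implies solvability near a closed box -/
theorem lin_solve (κ : E ≃L[ℂ] (Fin n → ℂ)) (c : Fin n → ℂ) (r₀ R : Fin n → ℝ)
    (A : E → Matrix (Fin p) (Fin q) ℂ) (hA : MHol A (cbox κ c r₀ R)) (b : E → Fin p → ℂ)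
    (hb : VHol b (cbox κ c r₀ R)) (h : ∀ x ∈ cbox κ c r₀ R, ∃ d, gmat A x *ᵥ d = gvec b x) :
    ∃ u : E → Fin q → ℂ, VHol u (cbox κ c r₀ R) ∧
      ∀ x ∈ cbox κ c r₀ R, gmat A x *ᵥ gvec u x = gvec b x := by
  have hA' := mHol_iff.mp hA
  obtain ⟨a, ha, hae⟩ := cartanB κ c r₀ R (spanSh A) (spanSh_coh (oka_of_coord κ) hA) _
    (fun j x hx => spanSec_col_at (hA' x hx) j) (spanSec_gen hA) (spanSec A b)
    (fun x hx => spanSec_at (hA' x hx) (hb x hx) (h x hx))
  exact ⟨fun y j => a j y, fun x hx j => ha j x hx,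
    fun x hx => spanSec_eq (hA' x hx) (h x hx) (hae x hx)⟩

/-- linear equations: solvability at the points implies solvability on an open box -/
theorem lin_solve_open (κ : E ≃L[ℂ] (Fin n → ℂ)) (c : Fin n → ℂ) (r₀ R : Fin n → ℝ)
    (hrR : GoodRadii r₀ R) (A : E → Matrix (Fin p) (Fin q) ℂ) (hA : MHol A (cbox κ c r₀ R))
    (b : E → Fin p → ℂ) (hb : VHol b (box κ c r₀ R))
    (h : ∀ x ∈ box κ c r₀ R, ∃ d, gmat A x *ᵥ d = gvec b x) :
    ∃ u : E → Fin q → ℂ, VHol u (box κ c r₀ R) ∧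
      ∀ x ∈ box κ c r₀ R, gmat A x *ᵥ gvec u x = gvec b x := by
  have hA' := mHol_iff.mp hA
  have hsub : box κ c r₀ R ⊆ cbox κ c r₀ R := fun x hx i => ⟨(hx i).1.le, (hx i).2.le⟩
  obtain ⟨a, ha, hae⟩ := cartanB_open κ c r₀ R hrR (spanSh A) (spanSh_coh (oka_of_coord κ) hA) _
    (fun j x hx => spanSec_col_at (hA' x hx) j) (spanSec_gen hA) (spanSec A b)
    (fun x hx => spanSec_at (hA' x (hsub hx)) (hb x hx) (h x hx))
  exact ⟨fun y j => a j y, fun x hx j => ha j x hx,
    fun x hx => spanSec_eq (hA' x (hsub hx)) (h x hx) (hae x hx)⟩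

/-- matrix version of `lin_solve` -/
theorem lin_solve_mat (κ : E ≃L[ℂ] (Fin n → ℂ)) (c : Fin n → ℂ) (r₀ R : Fin n → ℝ)
    (A : E → Matrix (Fin p) (Fin q) ℂ) (hA : MHol A (cbox κ c r₀ R))
    (B : E → Matrix (Fin p) (Fin s) ℂ) (hB : MHol B (cbox κ c r₀ R))
    (h : ∀ x ∈ cbox κ c r₀ R, ∃ D, gmat A x * D = gmat B x) :
    ∃ U : E → Matrix (Fin q) (Fin s) ℂ, MHol U (cbox κ c r₀ R) ∧
      ∀ x ∈ cbox κ c r₀ R, gmat A x * gmat U x = gmat B x := by
  have hB' := mHol_iff.mp hB
  choose u hu hue using fun j : Fin s => lin_solve κ c r₀ R A hA (fun y i => B y i j)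
    (fun x hx i => hB' x hx i j) (fun x hx => by
      obtain ⟨D, hD⟩ := h x hx
      refine ⟨fun i => D i j, ?_⟩
      funext i
      exact congrFun (congrFun hD i) j)
  refine ⟨fun y => of fun i j => u j y i, fun i j x hx => hu j x hx i, fun x hx => ?_⟩
  ext1 i j
  exact congrFun (hue j x hx) i

end Pool.Agent.DQ.M12
end

section

/-! Campaign DQ, module S: kernel of the multiplication by a function; generic basis of a coherent
sheaf; identity theorem for sections. -/

set_option autoImplicit false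

open Set Filter Topology

universe u v w

namespace Pool.Agent.DQ.S

/-- generic basis of a finitely generated module over a domain -/
theorem exists_generic {A : Type*} [CommRing A] [IsDomain A] {M : Type*} [AddCommGroup M]
    [Module A M] {p : ℕ} (g : Fin p → M) :
    ∃ (q : ℕ) (ι : Fin q → Fin p) (f : A), f ≠ 0 ∧ LinearIndependent A (fun j => g (ι j)) ∧
      ∀ i, f • g i ∈ Submodule.span A (range fun j => g (ι j)) := by
  classical
  obtain ⟨s, hs, hmax⟩ := exists_maximal_linearIndepOn A g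
  have hex : ∀ i, ∃ a : A, a ≠ 0 ∧ a • g i ∈ Submodule.span A (g '' s) := by
    intro i
    by_cases hi : i ∈ s
    · exact ⟨1, one_ne_zero, by rw [one_smul]; exact Submodule.subset_span ⟨i, hi, rfl⟩⟩
    · exact hmax i hi
  choose a ha hag using hex
  let ε : Fin (Fintype.card s) ≃ s := (Fintype.equivFin s).symm
  have hrange : (range fun j => g (ε j).1) = g '' s := by
    ext m
    constructor
    · rintro ⟨j, rfl⟩
      exact ⟨_, (ε j).2, rfl⟩
    · rintro ⟨i, hi, rfl⟩
      exact ⟨ε.symm ⟨i, hi⟩, by simp⟩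
  refine ⟨Fintype.card s, fun j => (ε j).1, ∏ i, a i, Finset.prod_ne_zero_iff.mpr fun i _ => ha i,
    ?_, fun i => ?_⟩
  · exact hs.linearIndependent.comp ε ε.injective
  · rw [hrange, ← Finset.prod_erase_mul _ _ (Finset.mem_univ i), mul_smul]
    exact Submodule.smul_mem _ _ (hag i)

variable {V : Type u} [NormedAddCommGroup V] [NormedSpace ℂ V]

theorem smul_smul_comm (F : EMod.{u, u, w} (O V)) {x : V} (a b : (O V).St x) (m : F.St x) :
    a • b • m = b • a • m := by
  rw [← mul_smul, ← mul_smul, mul_comm]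

open Classical in
/-- kernel of the multiplication by `f` -/
noncomputable def kerMul (F : EMod.{u, u, w} (O V)) (f : V → ℂ) (x : V) :
    Submodule ((O V).St x) (F.St x) :=
  if HolAt f x then
    { carrier := {m | om f x • m = 0}
      add_mem' := by
        intro a b ha hb
        simp only [mem_ofPred_eq] at *
        rw [smul_add, ha, hb, add_zero]
      zero_mem' := smul_zero _
      smul_mem' := by
        intro a m hm
        simp only [mem_ofPred_eq] at *
        rw [smul_smul_comm, hm, smul_zero] }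
  else ⊥

theorem mem_kerMul {F : EMod.{u, u, w} (O V)} {f : V → ℂ} {x : V} (hf : HolAt f x) {m : F.St x} :
    m ∈ kerMul F f x ↔ om f x • m = 0 := by
  unfold kerMul
  rw [if_pos hf]
  rfl

theorem kerMul_open (F : EMod.{u, u, w} (O V)) (f : V → ℂ) : ∀ x ∈ F.dom, ∀ g ∈ kerMul F f x,
    ∃ s : (x : V) → F.St x, F.At s x ∧ s x = g ∧ ∀ᶠ y in 𝓝 x, s y ∈ kerMul F f y := by
  intro x hx g hg
  by_cases hf : HolAt f x
  · obtain ⟨s, hs, rfl⟩ := F.surj x hx g
    rw [mem_kerMul hf] at hg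
    refine ⟨s, hs, rfl, ?_⟩
    have h1 : F.At (fun y => om f y • s y) x := F.smul (O_at_gm hf) hs
    filter_upwards [F.inj h1 (F.zero x hx) hg, hf.eventually] with y h2 h3
    rw [mem_kerMul h3]
    exact h2
  · unfold kerMul at hg
    rw [if_neg hf, Submodule.mem_bot] at hg
    exact ⟨0, F.zero x hx, hg.symm, Eventually.of_forall fun y => Submodule.zero_mem _⟩

/-- the kernel sheaf of the multiplication by `f` -/
noncomputable def kerSh (F : EMod.{u, u, w} (O V)) (f : V → ℂ) : EMod.{u, u, w} (O V) :=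
  F.sub (kerMul F f) (kerMul_open F f)

theorem kerSh_cohAt {F : EMod.{u, u, w} (O V)} {f : V → ℂ} {x : V} (hF : F.CohAt x)
    (hf : HolAt f x) : (kerSh F f).CohAt x := by
  obtain ⟨p, g, hg, hgen⟩ := hF.2.1
  obtain ⟨m, ρ, hρ, hrel⟩ := hF.2.2 p (fun i y => om f y • g i y)
    (fun i => F.smul (O_at_gm hf) (hg i))
  refine F.sub_cohAt _ _ hF (n := m) (fun j y => ∑ i, ρ j i y • g i y)
    (fun j => F.at_comb hF.1 (hρ j) hg) ?_
  filter_upwards [hgen, hrel, hf.eventually] with y h1 h2 h3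
  have key : ∀ c : Fin p → (O V).St y, c ∈ F.rel (fun i y => om f y • g i y) y ↔
      om f y • ∑ i, c i • g i y = 0 := by
    intro c
    have e : om f y • ∑ i, c i • g i y = ∑ i, c i • om f y • g i y := by
      rw [Finset.smul_sum]
      exact Finset.sum_congr rfl fun i _ => smul_smul_comm F _ _ _
    rw [e]
    exact Iff.rfl
  apply le_antisymm
  · intro m hm
    rw [mem_kerMul h3] at hm
    have h4 : m ∈ Submodule.span ((O V).St y) (range fun i => g i y) := by rw [h1]; trivial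
    obtain ⟨c, hc⟩ := mem_span_fam.mp h4
    rw [hc] at hm
    have h5 := (key c).mpr hm
    rw [h2] at h5
    obtain ⟨d, hd⟩ := mem_span_fam.mp h5
    refine mem_span_fam.mpr ⟨d, ?_⟩
    rw [hc, hd]
    simp only [Finset.sum_apply, Pi.smul_apply, smul_eq_mul, Finset.sum_smul, Finset.smul_sum,
      mul_smul]
    rw [Finset.sum_comm]
  · rw [Submodule.span_le]
    rintro _ ⟨j, rfl⟩
    have h4 : (fun i => ρ j i y) ∈ F.rel (fun i y => om f y • g i y) y := by
      rw [h2]
      exact Submodule.subset_span ⟨j, rfl⟩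
    exact (mem_kerMul h3).mpr ((key _).mp h4)

theorem om_eq_zero {f : V → ℂ} {x : V} (hf : HolAt f x) :
    om f x = 0 ↔ ∀ᶠ y in 𝓝 x, f y = 0 := by
  have h1 : (om f x = (0 : OGerm x)) ↔ gm f x = gm (0 : V → ℂ) x := by
    rw [gm_zero]
    exact Iff.rfl
  exact h1.trans (gm_eq_iff hf (HolAt.const 0 x))

theorem isUnit_om {f : V → ℂ} {x : V} (hf : HolAt f x) (h : f x ≠ 0) : IsUnit (om f x) :=
  C.isUnit_of_evg (g := gm f x) (by rw [C.evg_gm hf]; exact h)

/-- local structure of coherent sheaves: a generic basis -/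
theorem exists_local {F : EMod.{u, u, w} (O V)} {x₀ : V} (hF : F.CohAt x₀) :
    ∃ (q : ℕ) (b : Fin q → (x : V) → F.St x) (f : V → ℂ), HolAt f x₀ ∧
      (∃ᶠ y in 𝓝 x₀, f y ≠ 0) ∧ (∀ j, F.At (b j) x₀) ∧
      ∀ᶠ y in 𝓝 x₀, F.rel b y = ⊥ ∧
        ∀ m : F.St y, om f y • m ∈ Submodule.span ((O V).St y) (range fun j => b j y) := by
  obtain ⟨hx, ⟨p, g, hg, hgen⟩, hrel⟩ := hF
  have : IsDomain ((O V).St x₀) := OGerm.isDomain x₀
  obtain ⟨q, ι, f₀, hf₀, hli, hspan⟩ := exists_generic (A := (O V).St x₀) (fun i => g i x₀)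
  obtain ⟨f, hf, rfl⟩ := exists_gm (show OGerm x₀ from f₀)
  have hb : ∀ j, F.At (g (ι j)) x₀ := fun j => hg (ι j)
  refine ⟨q, fun j => g (ι j), f, hf, ?_, hb, ?_⟩
  · intro h
    refine hf₀ ((om_eq_zero hf).mpr ?_)
    filter_upwards [h] with y hy
    by_contra h'
    exact hy h'
  · obtain ⟨m, ρ, hρ, hρrel⟩ := hrel q (fun j => g (ι j)) hb
    have h0 : ∀ k j, ρ k j x₀ = 0 := by
      intro k j
      have h1 := hρrel.self_of_nhds
      have h2 : (fun j => ρ k j x₀) ∈ F.rel (fun j => g (ι j)) x₀ := by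
        rw [h1]
        exact Submodule.subset_span ⟨k, rfl⟩
      exact Fintype.linearIndependent_iff.mp hli (fun j => ρ k j x₀) h2 j
    have h1 : ∀ᶠ y in 𝓝 x₀, ∀ k j, ρ k j y = 0 :=
      eventually_all.mpr fun k => eventually_all.mpr fun j =>
        (O V).inj (hρ k j) ((O V).zero x₀ (mem_univ _)) (h0 k j)
    have h2 : ∀ᶠ y in 𝓝 x₀, ∀ i, om f y • g i y ∈
        Submodule.span ((O V).St y) (range fun j => g (ι j) y) :=
      eventually_all.mpr fun i => F.near_mem_span (F.smul (O_at_gm hf) (hg i)) hb (hspan i)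
    filter_upwards [hgen, hρrel, h1, h2] with y y1 y2 y3 y4
    constructor
    · rw [y2, Submodule.span_eq_bot]
      rintro _ ⟨k, rfl⟩
      funext j
      exact y3 k j
    · intro m
      have h3 : m ∈ Submodule.span ((O V).St y) (range fun i => g i y) := by rw [y1]; trivial
      obtain ⟨c, rfl⟩ := mem_span_fam.mp h3
      rw [Finset.smul_sum]
      refine Submodule.sum_mem _ fun i _ => ?_
      rw [smul_smul_comm]
      exact Submodule.smul_mem _ _ (y4 i)

/-- unique coefficients are given by functions -/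
theorem coeff_section {F : EMod.{u, u, w} (O V)} {q : ℕ} {b : Fin q → (x : V) → F.St x}
    {Ω : Set V} (hΩ : IsOpen Ω) (hb : ∀ j, F.On (b j) Ω) (hrel : ∀ x ∈ Ω, F.rel b x = ⊥)
    {t : (x : V) → F.St x} (ht : F.On t Ω)
    (hspan : ∀ x ∈ Ω, t x ∈ Submodule.span ((O V).St x) (range fun j => b j x)) :
    ∃ h : Fin q → V → ℂ, (∀ j, HolNear (h j) Ω) ∧ ∀ x ∈ Ω, t x = ∑ j, om (h j) x • b j x := by
  have hex : ∀ x, ∃ c : Fin q → (O V).St x, x ∈ Ω → t x = ∑ j, c j • b j x := by
    intro x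
    by_cases hx : x ∈ Ω
    · obtain ⟨c, hc⟩ := mem_span_fam.mp (hspan x hx)
      exact ⟨c, fun _ => hc⟩
    · exact ⟨fun _ => 0, fun h => absurd h hx⟩
  choose c hc using hex
  have hat : ∀ j, ∀ x ∈ Ω, (O V).At (fun y => c y j) x := by
    intro j x hx
    choose f hf hfx using fun j => exists_gm (show OGerm x from c x j)
    have h1 : F.At (fun y => ∑ j, om (f j) y • b j y) x :=
      F.at_comb (F.mem_dom (ht x hx)) (fun j => O_at_gm (hf j)) fun j => hb j x hx
    have h2 : ∀ᶠ y in 𝓝 x, ∑ j, om (f j) y • b j y = t y := by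
      refine F.inj h1 (ht x hx) ?_
      rw [hc x hx]
      exact Finset.sum_congr rfl fun j _ => by
        rw [show om (f j) x = c x j from hfx j]
    refine (O V).congr (O_at_gm (hf j)) ?_
    filter_upwards [h2, hΩ.mem_nhds hx] with y y1 y2
    rw [hc y y2] at y1
    have h3 : (fun j => om (f j) y - c y j) ∈ F.rel b y := by
      change ∑ j, (om (f j) y - c y j) • b j y = 0
      simp only [sub_smul, Finset.sum_sub_distrib]
      rw [y1, sub_self]
    rw [hrel y y2, Submodule.mem_bot] at h3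
    exact sub_eq_zero.mp (congrFun h3 j)
  refine ⟨fun j y => C.evg y (c y j), fun j x hx => (C.at_evg (hat j x hx)).1, fun x hx => ?_⟩
  rw [hc x hx]
  refine Finset.sum_congr rfl fun j _ => ?_
  have := (C.at_evg (hat j x hx)).2.self_of_nhds
  exact congrArg (fun z : (O V).St x => z • b j x) this

/-- identity theorem on a box around its centre -/
theorem ident_box {n : ℕ} (κ : V ≃L[ℂ] (Fin n → ℂ)) (x₀ : V) (R : Fin n → ℝ) {h : V → ℂ}
    (hh : HolNear h (box κ (κ x₀) (-1) R)) (h0 : ∀ᶠ y in 𝓝 x₀, h y = 0) :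
    ∀ x ∈ box κ (κ x₀) (-1) R, h x = 0 := by
  intro x hx
  set φ : ℂ → V := fun z => x₀ + z • (x - x₀) with hφ
  have hφc : Continuous φ := by fun_prop
  have hφd : Differentiable ℂ φ := by
    rw [hφ]
    exact (differentiable_const x₀).add (differentiable_id.smul_const (x - x₀))
  have hcoord : ∀ z i, κ (φ z) i - κ x₀ i = z * (κ x i - κ x₀ i) := by
    intro z i
    simp only [hφ, map_add, map_smul, map_sub, Pi.add_apply, Pi.smul_apply, Pi.sub_apply,
      smul_eq_mul]
    ring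
  have hmem : ∀ z ∈ Metric.closedBall (0 : ℂ) 1, φ z ∈ box κ (κ x₀) (-1) R := by
    intro z hz i
    rw [mem_closedBall_zero_iff] at hz
    refine ⟨?_, ?_⟩
    · simp only [Pi.neg_apply, Pi.one_apply]
      linarith [norm_nonneg (κ (φ z) i - κ x₀ i)]
    · rw [hcoord, norm_mul]
      calc ‖z‖ * ‖κ x i - κ x₀ i‖ ≤ 1 * ‖κ x i - κ x₀ i‖ :=
            mul_le_mul_of_nonneg_right hz (norm_nonneg _)
        _ < R i := by rw [one_mul]; exact (hx i).2
  have hg : DifferentiableOn ℂ (fun z => h (φ z)) (Metric.ball 0 1) := by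
    intro z hz
    have h1 : DifferentiableAt ℂ h (φ z) :=
      (hh (φ z) (hmem z (Metric.ball_subset_closedBall hz))).differentiableAt
    exact (h1.comp z (hφd z)).differentiableWithinAt
  have hφ0 : φ 0 = x₀ := by simp [hφ]
  have h1 : ∀ᶠ z in 𝓝 (0 : ℂ), h (φ z) = 0 := by
    have h2 := hφc.tendsto 0
    rw [hφ0] at h2
    exact h2.eventually h0
  have h2 : EqOn (fun z => h (φ z)) 0 (Metric.ball 0 1) :=
    (hg.analyticOnNhd Metric.isOpen_ball).eqOn_zero_of_preconnected_of_eventuallyEq_zero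
      (convex_ball (0 : ℂ) 1).isPreconnected (Metric.mem_ball_self one_pos) h1
  have h3 : ContinuousAt (fun z => h (φ z)) 1 := by
    have h4 : DifferentiableAt ℂ h (φ 1) :=
      (hh (φ 1) (hmem 1 (by simp))).differentiableAt
    exact (h4.comp 1 (hφd 1)).continuousAt
  have h4 : (1 : ℂ) ∈ closure (Metric.ball (0 : ℂ) 1) := by
    rw [closure_ball (0 : ℂ) one_ne_zero]
    simp
  have h5 : (fun z => h (φ z)) 1 = 0 := by
    have h6 : (𝓝[Metric.ball (0 : ℂ) 1] 1).NeBot := mem_closure_iff_nhdsWithin_neBot.mp h4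
    have h7 : Tendsto (fun z => h (φ z)) (𝓝[Metric.ball (0 : ℂ) 1] 1) (𝓝 (h (φ 1))) :=
      h3.continuousWithinAt
    have h8 : Tendsto (fun z => h (φ z)) (𝓝[Metric.ball (0 : ℂ) 1] 1) (𝓝 0) :=
      tendsto_const_nhds.congr' (by
        filter_upwards [self_mem_nhdsWithin] with z hz using (h2 hz).symm)
    exact tendsto_nhds_unique h7 h8
  have h6 : φ 1 = x := by simp [hφ]
  rw [← h6]
  exact h5

/-- a section over a box which vanishes at the centre is killed by `f` -/
theorem kills {F : EMod.{u, u, w} (O V)} {q : ℕ} {b : Fin q → (x : V) → F.St x} {f : V → ℂ}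
    {n : ℕ} (κ : V ≃L[ℂ] (Fin n → ℂ)) {x₀ : V} {R : Fin n → ℝ} (hR : ∀ i, 0 < R i)
    (hb : ∀ j, F.On (b j) (box κ (κ x₀) (-1) R)) (hf : HolNear f (box κ (κ x₀) (-1) R))
    (hrel : ∀ x ∈ box κ (κ x₀) (-1) R, F.rel b x = ⊥)
    (hspan : ∀ x ∈ box κ (κ x₀) (-1) R, ∀ m : F.St x,
      om f x • m ∈ Submodule.span ((O V).St x) (range fun j => b j x))
    {s : (x : V) → F.St x} (hs : F.On s (box κ (κ x₀) (-1) R)) (h0 : s x₀ = 0) :
    ∀ x ∈ box κ (κ x₀) (-1) R, om f x • s x = 0 := by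
  have hΩ : IsOpen (box κ (κ x₀) (-1) R) :=
    C.isOpen_Box κ fun j => C.isOpen_ring (κ x₀ j) ((-1 : Fin n → ℝ) j) (R j)
  have hx₀ : x₀ ∈ box κ (κ x₀) (-1) R := by
    intro i
    simp only [ring, mem_ofPred_eq, sub_self, norm_zero, Pi.neg_apply, Pi.one_apply]
    exact ⟨by norm_num, hR i⟩
  obtain ⟨h, hh, he⟩ := coeff_section hΩ hb hrel (t := fun x => om f x • s x)
    (fun x hx => F.smul (O_at_gm (hf x hx)) (hs x hx)) (fun x hx => hspan x hx _)
  have h1 : ∀ j, om (h j) x₀ = 0 := by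
    intro j
    have h2 := he x₀ hx₀
    simp only [h0, smul_zero] at h2
    have h3 : (fun j => om (h j) x₀) ∈ F.rel b x₀ := h2.symm
    rw [hrel x₀ hx₀, Submodule.mem_bot] at h3
    exact congrFun h3 j
  have h2 : ∀ j, ∀ x ∈ box κ (κ x₀) (-1) R, h j x = 0 := fun j =>
    ident_box κ x₀ R (hh j) ((om_eq_zero (hh j x₀ hx₀)).mp (h1 j))
  intro x hx
  rw [he x hx]
  refine Finset.sum_eq_zero fun j _ => ?_
  have h3 : om (h j) x = 0 := (om_eq_zero (hh j x hx)).mpr (by
    filter_upwards [hΩ.mem_nhds hx] with y hy using h2 j y hy)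
  rw [h3, zero_smul]

end Pool.Agent.DQ.S
end

section

/-! Campaign DQ, module S, file SDiv: Weierstrass division near a fibre disc; coherence criterion with arbitrary finite index types. -/

set_option autoImplicit false

open Set Filter Topology

universe u v w

namespace Pool.Agent.DQ

variable {V : Type u} [NormedAddCommGroup V] [NormedSpace ℂ V]
  {V' : Type u} [NormedAddCommGroup V'] [NormedSpace ℂ V']

/-- **Division near a fibre disc.**

Proof. Choose an open `S ∋ t` on which all `a j` are holomorphic, the roots of `mon a t'` lie in `‖v - c‖ < ρ < R`, and such that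
`f` is holomorphic near the fibre discs over `S` (`fib_tube` for `HolAt f`, `isCompact_closedBall`). `wdiv` for `S`, `R` and `g q := f (e.symm q)` gives
`q'`, `b`; put `q := q' ∘ e`. (`HolAt` under the linear isomorphism `e`: `HolAt.comp`.) -/
theorem div_fib (e : V ≃L[ℂ] V' × ℂ) {c : ℂ} {ρ R : ℝ} (hρR : ρ < R) {k : ℕ} {a : Fin k → V' → ℂ} {t : V'}
    (ha : ∀ j, HolAt (a j) t) (hroot : ∀ᶠ t' in 𝓝 t, ∀ v, mon a t' v = 0 → ‖v - c‖ < ρ) {f : V → ℂ}
    (hf : HolNear f (fib e (Metric.closedBall c R) t)) :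
    ∃ (q : V → ℂ) (b : Fin k → V' → ℂ), (∀ j, HolAt (b j) t) ∧
      ∀ᶠ t' in 𝓝 t, HolNear q (fib e (Metric.ball c R) t') ∧
        ∀ x ∈ fib e (Metric.ball c R) t', f x = q x * mon a (e x).1 (e x).2 + ∑ j, b j (e x).1 * (e x).2 ^ (j : ℕ) := by
  have h1 : ∀ᶠ t' in 𝓝 t, ∀ j, HolAt (a j) t' := eventually_all.mpr fun j => (ha j).eventually
  have h2 : ∀ᶠ t' in 𝓝 t, ∀ x ∈ fib e (Metric.closedBall c R) t', HolAt f x :=
    fib_tube e (isCompact_closedBall c R) fun x hx => (hf x hx).eventually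
  obtain ⟨S, hS, hSo, hSt⟩ := eventually_nhds_iff.mp (h1.and (hroot.and h2))
  have hg : HolNear (fun q : V' × ℂ => f (e.symm q)) (S ×ˢ Metric.ball c R) := by
    rintro ⟨t', v⟩ ⟨ht', hv⟩
    refine HolAt.comp (f := f) (g := fun q : V' × ℂ => e.symm q) ?_ (Eventually.of_forall fun q => ?_)
    · refine (hS t' ht').2.2 _ ⟨?_, ?_⟩
      · rw [e.apply_symm_apply]
      · rw [e.apply_symm_apply]
        exact Metric.ball_subset_closedBall hv
    · exact (e.symm : V' × ℂ →L[ℂ] V).differentiableAt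
  obtain ⟨q, b, hq, hb, hqb⟩ := wdiv hSo (c := c) (R := R) (k := k) (a := a) (fun j t' ht' => (hS t' ht').1 j)
    (fun t' ht' v hv => ((hS t' ht').2.1 v hv).trans hρR) hg
  refine ⟨fun x => q (e x), b, fun j => hb j t hSt, ?_⟩
  filter_upwards [hSo.mem_nhds hSt] with t' ht'
  refine ⟨fun x hx => ?_, fun x hx => ?_⟩
  · refine HolAt.comp (f := q) (g := fun y : V => e y) (hq _ ⟨?_, hx.2⟩) (Eventually.of_forall fun y => ?_)
    · rw [hx.1]
      exact ht'
    · exact (e : V →L[ℂ] V' × ℂ).differentiableAt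
  · have h3 := hqb (e x).1 (by rw [hx.1]; exact ht') (e x).2 hx.2
    have h4 : ((e x).1, (e x).2) = e x := rfl
    rw [h4] at h3
    have h5 : f (e.symm (e x)) = f x := by rw [e.symm_apply_apply]
    rw [← h5]
    exact h3

/-- **Uniqueness of the division over one point.**

Proof. `wdiv_unique` with the numbers `a j t`, `b j`, the function `v ↦ q (e.symm (t, v))` and radius `R`. -/
theorem div_fib_unique (e : V ≃L[ℂ] V' × ℂ) {c : ℂ} {ρ R : ℝ} (hρR : ρ < R) {k : ℕ} {a : Fin k → V' → ℂ} {t : V'}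
    (hroot : ∀ v, mon a t v = 0 → ‖v - c‖ < ρ) {q : V → ℂ} {b : Fin k → ℂ}
    (hq : HolNear q (fib e (Metric.ball c R) t))
    (h : ∀ x ∈ fib e (Metric.ball c R) t, q x * mon a (e x).1 (e x).2 + ∑ j, b j * (e x).2 ^ (j : ℕ) = 0) : b = 0 := by
  have hmem : ∀ v ∈ Metric.ball c R, e.symm (t, v) ∈ fib e (Metric.ball c R) t := by
    intro v hv
    refine ⟨?_, ?_⟩
    · rw [e.apply_symm_apply]
    · rw [e.apply_symm_apply]
      exact hv
  refine (wdiv_unique (c := c) (R := R) (k := k) (a := fun j => a j t) (q := fun v => q (e.symm (t, v))) (b := b)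
    (fun v hv => (hroot v hv).trans hρR) (fun v hv => ?_) (fun v hv => ?_)).1
  · refine HolAt.comp (f := q) (g := fun w : ℂ => e.symm (t, w)) (hq _ (hmem v hv)) (Eventually.of_forall fun w => ?_)
    exact (e.symm : V' × ℂ →L[ℂ] V).differentiableAt.comp w
      ((differentiableAt_const t).prodMk differentiableAt_id)
  · have h1 := h _ (hmem v hv)
    rw [e.apply_symm_apply] at h1
    exact h1

/-- **Coherence criterion** with arbitrary finite index types.

Proof. `coh_of_lfp` after reindexing with `Fintype.equivFin`; `hgen`, `hrel` in the elementwise form are equivalent to the forms with spans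
(`Submodule.mem_span_range_iff_exists_fun`, `Equiv.sum_comp`). -/
theorem coh_of_lfp' [FiniteDimensional ℂ V] (F : EMod.{u, u, w} (O V)) {x : V} (hx : x ∈ F.dom) {ι κ : Type} [Fintype ι]
    [Fintype κ] (g : ι → (y : V) → F.St y) (ρ : κ → ι → (y : V) → (O V).St y)
    (hg : ∀ i, F.At (g i) x) (hρ : ∀ j i, (O V).At (ρ j i) x)
    (hgen : ∀ᶠ y in 𝓝 x, ∀ m : F.St y, ∃ b : ι → (O V).St y, m = ∑ i, b i • g i y)
    (hrel : ∀ᶠ y in 𝓝 x, ∀ b : ι → (O V).St y, (∑ i, b i • g i y = 0) ↔
      ∃ d : κ → (O V).St y, ∀ i, b i = ∑ j, d j * ρ j i y) :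
    F.CohAt x := by
  have ei := Fintype.equivFin ι
  have ek := Fintype.equivFin κ
  refine coh_of_lfp F hx (fun i => g (ei.symm i)) (fun j i => ρ (ek.symm j) (ei.symm i)) (fun i => hg _)
    (fun j i => hρ _ _) ?_ ?_
  · filter_upwards [hgen] with y hy
    rw [eq_top_iff]
    intro m _
    obtain ⟨b, rfl⟩ := hy m
    refine Submodule.sum_mem _ fun i _ => Submodule.smul_mem _ _ (Submodule.subset_span ⟨ei i, ?_⟩)
    simp only [Equiv.symm_apply_apply]
  · filter_upwards [hrel] with y hy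
    ext b'
    rw [Submodule.mem_span_range_iff_exists_fun]
    have h1 : b' ∈ F.rel (fun i => g (ei.symm i)) y ↔ ∑ i, b' (ei i) • g i y = 0 := by
      have h2 : ∑ i, b' (ei i) • g i y = ∑ i, b' i • g (ei.symm i) y := by
        refine Fintype.sum_equiv ei _ _ fun i => ?_
        rw [Equiv.symm_apply_apply]
      rw [h2]
      exact Iff.rfl
    rw [h1, hy]
    constructor
    · rintro ⟨d, hd⟩
      refine ⟨fun j => d (ek.symm j), ?_⟩
      funext i
      rw [Finset.sum_apply]
      have h3 := hd (ei.symm i)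
      rw [Equiv.apply_symm_apply] at h3
      rw [h3]
      exact (Fintype.sum_equiv ek (fun j => d j * ρ j (ei.symm i) y)
        (fun j => (d (ek.symm j) • fun i => ρ (ek.symm j) (ei.symm i) y) i) fun j => by
          simp only [Equiv.symm_apply_apply, Pi.smul_apply, smul_eq_mul]).symm
    · rintro ⟨d, hd⟩
      refine ⟨fun j => d (ek j), fun i => ?_⟩
      rw [← hd, Finset.sum_apply]
      exact (Fintype.sum_equiv ek (fun j => d (ek j) * ρ j i y)
        (fun j => (d j • fun i => ρ (ek.symm j) (ei.symm i) y) (ei i)) fun j => by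
          simp only [Equiv.symm_apply_apply, Pi.smul_apply, smul_eq_mul]).symm

end Pool.Agent.DQ
end

section

/-! Campaign DQ, module S, file SFib1: Cartan A and B over the compact fibres of a projection. -/

set_option autoImplicit false

open Set Filter Topology

universe u v w

namespace Pool.Agent.DQ

variable {V : Type u} [NormedAddCommGroup V] [NormedSpace ℂ V]
  {V' : Type u} [NormedAddCommGroup V'] [NormedSpace ℂ V'] [FiniteDimensional ℂ V']
  {W : Type v} [NormedAddCommGroup W] [NormedSpace ℂ W]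

private def SFib1_app (m k : ℕ) : ((Fin m → ℂ) × (Fin k → ℂ)) ≃ₗ[ℂ] (Fin (m + k) → ℂ) where
  toFun p := Fin.append p.1 p.2
  invFun f := (fun i => f (Fin.castAdd k i), fun i => f (Fin.natAdd m i))
  map_add' p q := by
    funext i
    refine Fin.addCases (fun i => ?_) (fun i => ?_) i
    · simp only [Fin.append_left, Pi.add_apply, Prod.fst_add]
    · simp only [Fin.append_right, Pi.add_apply, Prod.snd_add]
  map_smul' a p := by
    funext i
    refine Fin.addCases (fun i => ?_) (fun i => ?_) i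
    · simp only [Fin.append_left, Pi.smul_apply, Prod.smul_fst, RingHom.id_apply]
    · simp only [Fin.append_right, Pi.smul_apply, Prod.smul_snd, RingHom.id_apply]
  left_inv p := by
    apply Prod.ext
    · funext i
      exact Fin.append_left _ _ _
    · funext i
      exact Fin.append_right _ _ _
  right_inv f := by
    funext i
    refine Fin.addCases (fun i => ?_) (fun i => ?_) i
    · exact Fin.append_left _ _ _
    · exact Fin.append_right _ _ _

/-- **A fibre over a compact box is a compact box** in suitable coordinates of `V`.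

Proof. Let `κ₁ : V' ≃L[ℂ] (Fin m → ℂ)` be coordinates of `V'` (`(Module.finBasis ℂ V').equivFunL`). Take `n = m + k`,
`κ' x := Fin.append (κ₁ (e x).1) (κ (e x).2)` (compose `e`, `ContinuousLinearEquiv.prodCongr κ₁ κ` and the linear equivalence
`(Fin m → ℂ) × (Fin k → ℂ) ≃ (Fin (m + k) → ℂ)`, `Fin.appendEquiv` as a linear map, continuous since finite-dimensional:
`LinearEquiv.toContinuousLinearEquiv`), `c' := Fin.append (κ₁ t) c`, `r' := Fin.append (fun _ => -1) r`, `R' := Fin.append (fun _ => 0) R`.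
`cring (κ₁ t i) (-1) 0 = {κ₁ t i}` (`‖z - c‖ ≤ 0`), and `∀ i : Fin (m + k)` splits by `Fin.forall_fin_add` / `Fin.addCases`. -/
theorem exists_fib_coord (e : V ≃L[ℂ] V' × W) {k : ℕ} (κ : W ≃L[ℂ] (Fin k → ℂ)) (c : Fin k → ℂ) (r R : Fin k → ℝ)
    (t : V') :
    ∃ (n : ℕ) (κ' : V ≃L[ℂ] (Fin n → ℂ)) (c' : Fin n → ℂ) (r' R' : Fin n → ℝ),
      fib e (cbox κ c r R) t = cbox κ' c' r' R' := by
  let κ₁ : V' ≃L[ℂ] (Fin (Module.finrank ℂ V') → ℂ) := (Module.finBasis ℂ V').equivFunL
  refine ⟨Module.finrank ℂ V' + k, e.trans ((ContinuousLinearEquiv.prodCongr κ₁ κ).trans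
    (SFib1_app (Module.finrank ℂ V') k).toContinuousLinearEquiv), Fin.append (κ₁ t) c,
    Fin.append (fun _ => -1) r, Fin.append (fun _ => 0) R, ?_⟩
  have hκ : ∀ x : V, (e.trans ((ContinuousLinearEquiv.prodCongr κ₁ κ).trans
      (SFib1_app (Module.finrank ℂ V') k).toContinuousLinearEquiv)) x =
        Fin.append (κ₁ (e x).1) (κ (e x).2) := fun x => rfl
  ext x
  constructor
  · rintro ⟨h1, h2⟩ i
    rw [hκ]
    refine Fin.addCases (fun i => ?_) (fun i => ?_) i
    · rw [Fin.append_left, Fin.append_left, Fin.append_left, Fin.append_left, h1]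
      refine ⟨?_, ?_⟩
      · rw [sub_self, norm_zero]
        norm_num
      · rw [sub_self, norm_zero]
    · rw [Fin.append_right, Fin.append_right, Fin.append_right, Fin.append_right]
      exact h2 i
  · intro h
    refine ⟨?_, fun i => ?_⟩
    · apply κ₁.injective
      funext i
      have h1 := h (Fin.castAdd k i)
      rw [hκ, Fin.append_left, Fin.append_left, Fin.append_left, Fin.append_left] at h1
      have h2 : ‖κ₁ (e x).1 i - κ₁ t i‖ = 0 := le_antisymm h1.2 (norm_nonneg _)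
      exact sub_eq_zero.1 (norm_eq_zero.1 h2)
    · have h1 := h (Fin.natAdd (Module.finrank ℂ V') i)
      rw [hκ, Fin.append_right, Fin.append_right, Fin.append_right, Fin.append_right] at h1
      exact h1

/-- Cartan A over a fibre. Proof. `exists_fib_coord`, `cartanA`. -/
theorem cartanA_fib (F : EMod.{u, u, w} (O V)) (e : V ≃L[ℂ] V' × W) {k : ℕ} (κ : W ≃L[ℂ] (Fin k → ℂ)) (c : Fin k → ℂ)
    (r R : Fin k → ℝ) (t : V') (hF : F.Coh (fib e (cbox κ c r R) t)) :
    ∃ (p : ℕ) (g : Fin p → (x : V) → F.St x), (∀ i, F.On (g i) (fib e (cbox κ c r R) t)) ∧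
      F.Gen g (fib e (cbox κ c r R) t) := by
  obtain ⟨n, κ', c', r', R', h⟩ := exists_fib_coord e κ c r R t
  rw [h] at hF ⊢
  exact cartanA κ' c' r' R' F hF

/-- Cartan B over a fibre. Proof. `exists_fib_coord`, `cartanB`. -/
theorem cartanB_fib (F : EMod.{u, u, w} (O V)) (e : V ≃L[ℂ] V' × W) {k : ℕ} (κ : W ≃L[ℂ] (Fin k → ℂ)) (c : Fin k → ℂ)
    (r R : Fin k → ℝ) (t : V') (hF : F.Coh (fib e (cbox κ c r R) t)) {p : ℕ} (g : Fin p → (x : V) → F.St x)
    (hg : ∀ i, F.On (g i) (fib e (cbox κ c r R) t)) (hgen : F.Gen g (fib e (cbox κ c r R) t))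
    (s : (x : V) → F.St x) (hs : F.On s (fib e (cbox κ c r R) t)) :
    ∃ a : Fin p → V → ℂ, (∀ i, HolNear (a i) (fib e (cbox κ c r R) t)) ∧
      ∀ x ∈ fib e (cbox κ c r R) t, s x = ∑ i, om (a i) x • g i x := by
  obtain ⟨n, κ', c', r', R', h⟩ := exists_fib_coord e κ c r R t
  rw [h] at hF hg hgen hs ⊢
  exact cartanB κ' c' r' R' F hF g hg hgen s hs

/-- The closed disc as a box.

Proof. `κ₁ := (ContinuousLinearEquiv.funUnique (Fin 1) ℂ ℂ).symm`, `cring c (-1) R = closedBall c R` (`-1 ≤ ‖z - c‖` is automatic,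
`mem_closedBall_iff_norm`). -/
theorem exists_disc_box (c : ℂ) (R : ℝ) :
    ∃ κ : ℂ ≃L[ℂ] (Fin 1 → ℂ), cbox κ (fun _ => c) (fun _ => -1) (fun _ => R) = Metric.closedBall c R := by
  refine ⟨(ContinuousLinearEquiv.funUnique (Fin 1) ℂ ℂ).symm, ?_⟩
  ext z
  rw [mem_closedBall_iff_norm]
  constructor
  · intro h
    exact (h 0).2
  · intro h i
    exact ⟨le_trans (by norm_num) (norm_nonneg _), h⟩

end Pool.Agent.DQ
end

section

/-! Campaign DQ, module M12, block (b): generators, relations and the dual sheaf near a compact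
box. -/

set_option autoImplicit false

open Set Filter Topology

universe u v w

namespace Pool.Agent.DQ.M12b

variable {B : Type u} [NormedAddCommGroup B] [NormedSpace ℂ B]

/-- a frame of the sheaf `E` over the set `S` -/
structure IsFrame (E : EMod.{u, u, w} (O B)) {n : ℕ} (f : Fin n → (x : B) → E.St x)
    (S : Set B) : Prop where
  on : ∀ i, E.On (f i) S
  gen : ∀ x ∈ S, Submodule.span ((O B).St x) (range fun j => f j x) = ⊤
  free : ∀ x ∈ S, E.rel f x = ⊥

theorem IsFrame.mono {E : EMod.{u, u, w} (O B)} {n : ℕ} {f : Fin n → (x : B) → E.St x}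
    {S S' : Set B} (h : IsFrame E f S) (hS : S' ⊆ S) : IsFrame E f S' :=
  ⟨fun i x hx => h.on i x (hS hx), fun x hx => h.gen x (hS hx), fun x hx => h.free x (hS hx)⟩

theorem IsFrame.indep {E : EMod.{u, u, w} (O B)} {n : ℕ} {f : Fin n → (x : B) → E.St x}
    {S : Set B} (h : IsFrame E f S) {x : B} (hx : x ∈ S) (c : Fin n → (O B).St x)
    (hc : ∑ j, c j • f j x = 0) : c = 0 := by
  have h1 : c ∈ E.rel f x := hc
  rwa [h.free x hx, Submodule.mem_bot] at h1

theorem isFrame_of_existsUnique {E : EMod.{u, u, w} (O B)} {n : ℕ}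
    {f : Fin n → (x : B) → E.St x} {S : Set B} (on : ∀ i, E.On (f i) S)
    (h : ∀ x ∈ S, ∀ m : E.St x, ∃! a : Fin n → (O B).St x, m = ∑ i, a i • f i x) :
    IsFrame E f S := by
  refine ⟨on, fun x hx => ?_, fun x hx => ?_⟩
  · rw [eq_top_iff]
    intro m _
    obtain ⟨a, ha, -⟩ := h x hx m
    exact mem_span_fam.mpr ⟨a, ha⟩
  · rw [eq_bot_iff]
    intro c hc
    obtain ⟨a, -, hu⟩ := h x hx 0
    rw [Submodule.mem_bot, hu c (show ∑ i, c i • f i x = 0 from hc).symm,
      hu 0 (by simp)]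

theorem IsFrame.existsUnique {E : EMod.{u, u, w} (O B)} {n : ℕ} {f : Fin n → (x : B) → E.St x}
    {S : Set B} (h : IsFrame E f S) {x : B} (hx : x ∈ S) (m : E.St x) :
    ∃! a : Fin n → (O B).St x, m = ∑ i, a i • f i x := by
  obtain ⟨a, ha⟩ := mem_span_fam.mp (show m ∈ Submodule.span ((O B).St x)
    (range fun j => f j x) by rw [h.gen x hx]; trivial)
  refine ⟨a, ha, fun b hb => ?_⟩
  have h1 := h.indep hx (fun j => b j - a j) (by
    simp only [sub_smul, Finset.sum_sub_distrib]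
    rw [← ha, ← show m = ∑ i, b i • f i x from hb, sub_self])
  funext j
  exact sub_eq_zero.mp (congrFun h1 j)

/-- relations near a point -/
theorem relOn_near (F : EMod.{u, u, w} (O B)) {x : B} {p q : ℕ} {g : Fin p → (x : B) → F.St x}
    {h : Fin q → Fin p → B → ℂ} (hco : F.CohAt x) (hg : ∀ i, F.At (g i) x)
    (hhx : ∀ l i, HolAt (h l i) x)
    (hrel : F.rel g x = Submodule.span ((O B).St x) (range fun l => fun i => om (h l i) x)) :
    ∀ᶠ y in 𝓝 x, (∀ l i, HolAt (h l i) y) ∧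
      F.rel g y = Submodule.span ((O B).St y) (range fun l => fun i => om (h l i) y) := by
  obtain ⟨m, r, hr, hrg⟩ := hco.2.2 p g hg
  have hspan : Submodule.span ((O B).St x) (range fun j => fun i => r j i x) =
      Submodule.span ((O B).St x) (range fun l => fun i => om (h l i) x) := by
    rw [← hrg.self_of_nhds, hrel]
  have hrfree : ∀ j, ((O B).free p).At (fun y => fun i => r j i y) x := fun j =>
    ⟨mem_univ _, fun i => hr j i⟩
  have hhfree : ∀ l, ((O B).free p).At (fun y => fun i => om (h l i) y) x := fun l =>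
    ⟨mem_univ _, fun i => O_at_gm (hhx l i)⟩
  have h2 : ∀ j, ∀ᶠ y in 𝓝 x, (fun i => r j i y) ∈
      Submodule.span ((O B).St y) (range fun l => fun i => om (h l i) y) := by
    intro j
    refine ((O B).free p).near_mem_span (hrfree j) hhfree ?_
    change (fun i => r j i x) ∈ Submodule.span ((O B).St x) (range fun l => fun i => om (h l i) x)
    rw [← hspan]
    exact Submodule.subset_span ⟨j, rfl⟩
  have h3 : ∀ l, ∀ᶠ y in 𝓝 x, (fun i => om (h l i) y) ∈
      Submodule.span ((O B).St y) (range fun j => fun i => r j i y) := by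
    intro l
    refine ((O B).free p).near_mem_span (hhfree l) hrfree ?_
    change (fun i => om (h l i) x) ∈ Submodule.span ((O B).St x) (range fun j => fun i => r j i x)
    rw [hspan]
    exact Submodule.subset_span ⟨l, rfl⟩
  filter_upwards [eventually_all.mpr fun l => eventually_all.mpr fun i => (hhx l i).eventually,
    hrg, eventually_all.mpr h2, eventually_all.mpr h3] with y y1 y2 y3 y4
  refine ⟨y1, ?_⟩
  rw [y2]
  apply le_antisymm
  · rw [Submodule.span_le]
    rintro _ ⟨j, rfl⟩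
    exact y3 j
  · rw [Submodule.span_le]
    rintro _ ⟨l, rfl⟩
    exact y4 l

variable {k : ℕ}

/-- the relations between sections near a compact box are finitely generated -/
theorem relgen_cbox (κ : B ≃L[ℂ] (Fin k → ℂ)) (c : Fin k → ℂ) (r R : Fin k → ℝ)
    (F : EMod.{u, u, w} (O B)) (hF : F.Coh (cbox κ c r R)) {p : ℕ}
    (g : Fin p → (x : B) → F.St x) (hg : ∀ i, F.On (g i) (cbox κ c r R)) :
    ∃ (q : ℕ) (h : Fin q → Fin p → B → ℂ), RelOn F g h (cbox κ c r R) := by
  have hN : (F.relSh g).Coh (cbox κ c r R) := C.relSh_coh (oka_of_coord κ) hF hg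
  obtain ⟨q, s, hs, hgen⟩ := cartanA κ c r R (F.relSh g) hN
  have hat : ∀ l i, ∀ x ∈ cbox κ c r R,
      HolAt (fun y => C.evg y (F.relVal g y (s l y) i)) x ∧
      ∀ᶠ y in 𝓝 x, F.relVal g y (s l y) i = gm (fun y => C.evg y (F.relVal g y (s l y) i)) y :=
    fun l i x hx =>
      C.at_evg (a := fun y => F.relVal g y (s l y) i) ((EMod.relSh_at_iff.mp (hs l x hx)).2 i)
  refine ⟨q, fun l i y => C.evg y (F.relVal g y (s l y) i), fun l i x hx => (hat l i x hx).1,
    fun x hx => ?_⟩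
  rw [← F.relVal_range g x, ← Submodule.map_top, ← hgen x hx, Submodule.map_span, ← Set.range_comp]
  congr 1
  congr 1
  funext l
  funext i
  exact (hat l i x hx).2.self_of_nhds

/-- generators, relations and generators of the dual sheaf in an open neighbourhood of a compact
box -/
theorem exists_data (κ : B ≃L[ℂ] (Fin k → ℂ)) (c : Fin k → ℂ) (r R : Fin k → ℝ)
    (E : EMod.{u, u, w} (O B)) (hE : E.Coh (cbox κ c r R)) :
    ∃ (Ω : Set B) (p q p' : ℕ) (g : Fin p → (x : B) → E.St x) (ρ : Fin q → Fin p → B → ℂ)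
      (h : Fin p' → Fin p → B → ℂ), IsOpen Ω ∧ cbox κ c r R ⊆ Ω ∧ (∀ i, E.On (g i) Ω) ∧
      E.Gen g Ω ∧ RelOn E g ρ Ω ∧
      RelOn ((O B).free q) (fun i x l => om (ρ l i) x) h Ω := by
  set K := cbox κ c r R with hK
  have hO : C.Oka B := oka_of_coord κ
  obtain ⟨p, g, hg, hgen⟩ := cartanA κ c r R E hE
  obtain ⟨q, ρ, hρ⟩ := relgen_cbox κ c r R E hE g hg
  have hfree : ((O B).free q).Coh K := fun x _ => hO q x (mem_univ _)
  have hcol : ∀ i, ((O B).free q).On (fun x l => om (ρ l i) x) K := fun i x hx =>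
    ⟨mem_univ _, fun l => O_at_gm (hρ.1 l i x hx)⟩
  obtain ⟨p', h, hh⟩ := relgen_cbox κ c r R ((O B).free q) hfree
    (fun i x l => om (ρ l i) x) hcol
  let P : B → Prop := fun y => ((∀ i, E.At (g i) y) ∧
    Submodule.span ((O B).St y) (Set.range fun i => g i y) = ⊤) ∧ ((∀ l i, HolAt (ρ l i) y) ∧
      E.rel g y = Submodule.span ((O B).St y) (range fun l => fun i => om (ρ l i) y)) ∧
      ((∀ l i, HolAt (h l i) y) ∧ ((O B).free q).rel (fun i x l => om (ρ l i) x) y =
        Submodule.span ((O B).St y) (range fun l => fun i => om (h l i) y))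
  have hP : ∀ x ∈ K, ∀ᶠ y in 𝓝 x, P y := by
    intro x hx
    refine ((eventually_all.mpr fun i => E.ev (hg i x hx)).and
      (C.gen_open (hE x hx).self_of_nhds (fun i => hg i x hx) (hgen x hx))).and
      ((relOn_near E (hE x hx).self_of_nhds (fun i => hg i x hx) (fun l i => hρ.1 l i x hx)
        (hρ.2 x hx)).and
      (relOn_near ((O B).free q) (hfree x hx).self_of_nhds (fun i => hcol i x hx)
        (fun l i => hh.1 l i x hx) (hh.2 x hx)))
  refine ⟨{x | ∀ᶠ y in 𝓝 x, P y}, p, q, p', g, ρ, h,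
    isOpen_iff_mem_nhds.mpr fun x hx => eventually_eventually_nhds.mpr hx, fun x hx => hP x hx,
    fun i x hx => ?_, fun x hx => ?_, ⟨fun l i x hx => ?_, fun x hx => ?_⟩,
    ⟨fun l i x hx => ?_, fun x hx => ?_⟩⟩
  · exact (show ∀ᶠ y in 𝓝 x, P y from hx).self_of_nhds.1.1 i
  · exact (show ∀ᶠ y in 𝓝 x, P y from hx).self_of_nhds.1.2
  · exact (show ∀ᶠ y in 𝓝 x, P y from hx).self_of_nhds.2.1.1 l i
  · exact (show ∀ᶠ y in 𝓝 x, P y from hx).self_of_nhds.2.1.2
  · exact (show ∀ᶠ y in 𝓝 x, P y from hx).self_of_nhds.2.2.1 l i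
  · exact (show ∀ᶠ y in 𝓝 x, P y from hx).self_of_nhds.2.2.2

end Pool.Agent.DQ.M12b
end

section

/-! Campaign DQ, module S: finite mappings with several fibre variables. -/

set_option autoImplicit false

open Set Filter Topology Metric

universe u v w w' v₁ v₂

namespace Pool.Agent.DQ

/-! ### Transfer of coherence -/

section Transfer

variable {X : Type u} [TopologicalSpace X] {R : ERing.{u, v} X}

theorem EMod.CohAt.transfer {M : EMod.{u, v, w} R} {N : EMod.{u, v, w'} R} {x : X}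
    (hM : M.CohAt x) (φ : ∀ y, M.St y →ₗ[R.St y] N.St y)
    (hbij : ∀ᶠ y in 𝓝 x, Function.Bijective (φ y))
    (h1 : ∀ s : (y : X) → M.St y, M.At s x → N.At (fun y => φ y (s y)) x)
    (h2 : ∀ s' : (y : X) → N.St y, N.At s' x → ∃ s : (y : X) → M.St y, M.At s x ∧
      ∀ᶠ y in 𝓝 x, φ y (s y) = s' y) : N.CohAt x := by
  refine ⟨N.mem_dom (h1 0 (M.zero x hM.1)), ?_, ?_⟩
  · obtain ⟨n, g, hg, hgen⟩ := hM.2.1
    refine ⟨n, fun i y => φ y (g i y), fun i => h1 _ (hg i), ?_⟩
    filter_upwards [hgen, hbij] with y hy hb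
    have h3 : (Set.range fun i => φ y (g i y)) = φ y '' Set.range fun i => g i y := by
      rw [← Set.range_comp]
      rfl
    rw [h3, Submodule.span_image, hy, Submodule.map_top, LinearMap.range_eq_top.mpr hb.2]
  · intro n g' hg'
    choose g hg hgg using fun i => h2 (g' i) (hg' i)
    obtain ⟨m, r, hr, hrel⟩ := hM.2.2 n g hg
    refine ⟨m, r, hr, ?_⟩
    filter_upwards [hrel, hbij, eventually_all.mpr hgg] with y h3 h4 h5
    rw [← h3]
    ext c
    change ∑ i, c i • g' i y = 0 ↔ ∑ i, c i • g i y = 0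
    have h6 : ∑ i, c i • g' i y = φ y (∑ i, c i • g i y) := by
      rw [map_sum]
      exact Finset.sum_congr rfl fun i _ => by rw [map_smul, h5]
    rw [h6]
    constructor
    · intro h7
      exact h4.1 (by rw [h7, map_zero])
    · intro h7
      rw [h7, map_zero]

end Transfer

/-! ### Composition of direct images -/

section PushPush

variable {V : Type u} [NormedAddCommGroup V] [NormedSpace ℂ V]
  {V₁ : Type u} [NormedAddCommGroup V₁] [NormedSpace ℂ V₁]
  {V' : Type u} [NormedAddCommGroup V'] [NormedSpace ℂ V']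
  {W : Type v} [NormedAddCommGroup W] [NormedSpace ℂ W]
  {W₁ : Type v₁} [NormedAddCommGroup W₁] [NormedSpace ℂ W₁]
  {W₂ : Type v₂} [NormedAddCommGroup W₂] [NormedSpace ℂ W₂]
  (F : EMod.{u, u, w} (O V)) (e : V ≃L[ℂ] V' × W) (D : Set W) (hD : IsCompact D)
  (e₁ : V ≃L[ℂ] V₁ × W₁) (D₁ : Set W₁) (hD₁ : IsCompact D₁)
  (e₂ : V₁ ≃L[ℂ] V' × W₂) (D₂ : Set W₂) (hD₂ : IsCompact D₂)
  (he : ∀ x, (e x).1 = (e₂ (e₁ x).1).1)
  (heD : ∀ x, (e x).2 ∈ D ↔ (e₂ (e₁ x).1).2 ∈ D₂ ∧ (e₁ x).2 ∈ D₁)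

include he heD in
theorem fib_fib {t : V'} {x : V} (hx : x ∈ fib e D t) :
    (e₁ x).1 ∈ fib e₂ D₂ t ∧ x ∈ fib e₁ D₁ (e₁ x).1 :=
  ⟨⟨(he x).symm.trans hx.1, ((heD x).1 hx.2).1⟩, rfl, ((heD x).1 hx.2).2⟩

include he heD in
theorem fib_of_fib_fib {t : V'} {y : V₁} {x : V} (hy : y ∈ fib e₂ D₂ t) (hx : x ∈ fib e₁ D₁ y) :
    x ∈ fib e D t := by
  obtain ⟨rfl, hx⟩ := hx
  exact ⟨(he x).trans hy.1, (heD x).2 ⟨hy.2, hx⟩⟩

/-- value of an element of the iterated direct image -/
noncomputable def pp (t : V') (m : ((F.push e₁ D₁ hD₁).push e₂ D₂ hD₂).St t) (x : fib e D t) :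
    F.St x.1 :=
  F.pushVal e₁ D₁ hD₁ (e₁ x.1).1 ((F.push e₁ D₁ hD₁).pushVal e₂ D₂ hD₂ t m (e₁ x.1).1
    (fib_fib e D e₁ D₁ e₂ D₂ he heD x.2).1) x.1 (fib_fib e D e₁ D₁ e₂ D₂ he heD x.2).2

include he heD in
/-- sections of the iterated direct image -/
theorem pp_section {S : Set V'} {s' : (t : V') → ((F.push e₁ D₁ hD₁).push e₂ D₂ hD₂).St t}
    (h : ((F.push e₁ D₁ hD₁).push e₂ D₂ hD₂).On s' S) :
    ∃ s : (x : V) → F.St x, ∀ t ∈ S, F.On s (fib e D t) ∧
      ∀ x : fib e D t, pp F e D e₁ D₁ hD₁ e₂ D₂ hD₂ he heD t (s' t) x = s x := by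
  obtain ⟨r, hr, hr'⟩ := (F.push e₁ D₁ hD₁).push_on_mp e₂ D₂ hD₂ h
  obtain ⟨s, hs, hs'⟩ := F.push_on_mp e₁ D₁ hD₁ (S := {y | ∃ t ∈ S, y ∈ fib e₂ D₂ t}) (s' := r) (by
    rintro y ⟨t, ht, hy⟩
    exact hr t ht y hy)
  refine ⟨s, fun t ht => ⟨fun x hx => ?_, fun x => ?_⟩⟩
  · obtain ⟨h1, h2⟩ := fib_fib e D e₁ D₁ e₂ D₂ he heD hx
    exact hs _ ⟨t, ht, h1⟩ x h2
  · obtain ⟨h1, h2⟩ := fib_fib e D e₁ D₁ e₂ D₂ he heD x.2
    unfold pp
    rw [hr' t ht _ h1]
    exact hs' _ ⟨t, ht, h1⟩ x.1 h2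

/-- an element of the iterated direct image gives an element of the direct image -/
noncomputable def ppElt (t : V') (m : ((F.push e₁ D₁ hD₁).push e₂ D₂ hD₂).St t) :
    (F.push e D hD).St t :=
  (⟨fun x => pp F e D e₁ D₁ hD₁ e₂ D₂ hD₂ he heD t m x, by
    obtain ⟨σ, h0 | ⟨r, hr, h⟩⟩ := (show pushSub (F.push e₁ D₁ hD₁) e₂ D₂ t from m)
    · subst h0
      exact Or.inl rfl
    · obtain ⟨s, hs, hs'⟩ := F.push_on_mp e₁ D₁ hD₁ hr
      refine Or.inr ⟨s, fun x hx => ?_, fun x => ?_⟩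
      · obtain ⟨h1, h2⟩ := fib_fib e D e₁ D₁ e₂ D₂ he heD hx
        exact hs _ h1 x h2
      · obtain ⟨h1, h2⟩ := fib_fib e D e₁ D₁ e₂ D₂ he heD x.2
        have h3 := h ⟨(e₁ x.1).1, h1⟩
        have h4 := hs' _ h1 x.1 h2
        rw [← h4]
        exact congrArg (fun m => F.pushVal e₁ D₁ hD₁ (e₁ x.1).1 m x.1 h2) h3⟩ : pushSub F e D t)

theorem pushVal_ppElt (t : V') (m : ((F.push e₁ D₁ hD₁).push e₂ D₂ hD₂).St t) (x : V)
    (hx : x ∈ fib e D t) :
    F.pushVal e D hD t (ppElt F e D hD e₁ D₁ hD₁ e₂ D₂ hD₂ he heD t m) x hx =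
      pp F e D e₁ D₁ hD₁ e₂ D₂ hD₂ he heD t m ⟨x, hx⟩ := rfl

theorem pp_smul (t : V') {f : V' → ℂ} (hf : HolAt f t)
    (m : ((F.push e₁ D₁ hD₁).push e₂ D₂ hD₂).St t) (x : fib e D t) :
    pp F e D e₁ D₁ hD₁ e₂ D₂ hD₂ he heD t (om f t • m) x =
      om (fun z => f (e z).1) x.1 • pp F e D e₁ D₁ hD₁ e₂ D₂ hD₂ he heD t m x := by
  obtain ⟨h1, h2⟩ := fib_fib e D e₁ D₁ e₂ D₂ he heD x.2
  unfold pp
  rw [(F.push e₁ D₁ hD₁).pushVal_smul_om e₂ D₂ hD₂ t hf m _ h1,
    F.pushVal_smul_om e₁ D₁ hD₁ _ (hf.comp_fst e₂ h1.1) _ x.1 h2]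
  have h3 : (fun z => f (e z).1) = fun z => f (e₂ (e₁ z).1).1 := funext fun z => by rw [he]
  rw [h3]

/-- the comparison of the iterated direct image with the direct image -/
noncomputable def ppHom (t : V') : ((F.push e₁ D₁ hD₁).push e₂ D₂ hD₂).St t →ₗ[(O V').St t]
    (F.push e D hD).St t where
  toFun := ppElt F e D hD e₁ D₁ hD₁ e₂ D₂ hD₂ he heD t
  map_add' m m' := F.push_ext e D hD t _ _ fun x hx => rfl
  map_smul' a m := by
    refine F.push_ext e D hD t _ _ fun x hx => ?_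
    obtain ⟨f, hf, rfl⟩ := exists_gm (show OGerm t from a)
    change F.pushVal e D hD t (ppElt F e D hD e₁ D₁ hD₁ e₂ D₂ hD₂ he heD t (om f t • m)) x hx =
      F.pushVal e D hD t (om f t • ppElt F e D hD e₁ D₁ hD₁ e₂ D₂ hD₂ he heD t m) x hx
    rw [F.pushVal_smul_om e D hD t hf, pushVal_ppElt, pushVal_ppElt, pp_smul _ _ _ _ _ _ _ _ _ _ _ _ hf]

theorem ppHom_injective (t : V') :
    Function.Injective (ppHom F e D hD e₁ D₁ hD₁ e₂ D₂ hD₂ he heD t) := by
  rw [injective_iff_map_eq_zero]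
  intro m hm
  refine (F.push e₁ D₁ hD₁).push_ext e₂ D₂ hD₂ t _ _ fun _ hy => ?_
  refine F.push_ext e₁ D₁ hD₁ _ _ _ fun x hx => ?_
  obtain ⟨rfl, hx'⟩ := hx
  have h1 := fib_of_fib_fib e D e₁ D₁ e₂ D₂ he heD hy ⟨rfl, hx'⟩
  have h2 := congrArg (fun m => F.pushVal e D hD t m x h1) hm
  exact h2

/-- a section of `F` gives a section of the iterated direct image -/
noncomputable def ppSec (s : (x : V) → F.St x) :
    (t : V') → ((F.push e₁ D₁ hD₁).push e₂ D₂ hD₂).St t :=
  (F.push e₁ D₁ hD₁).pushSec e₂ D₂ hD₂ (F.pushSec e₁ D₁ hD₁ s)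

include he heD in
theorem ppSec_on {s : (x : V) → F.St x} {t : V'} (hs : F.On s (fib e D t)) :
    (F.push e₁ D₁ hD₁).On (F.pushSec e₁ D₁ hD₁ s) (fib e₂ D₂ t) := fun _ hy =>
  F.pushSec_at e₁ D₁ hD₁ fun x hx => hs x (fib_of_fib_fib e D e₁ D₁ e₂ D₂ he heD hy hx)

theorem ppHom_ppSec {s : (x : V) → F.St x} {t : V'} (hs : F.On s (fib e D t)) :
    ppHom F e D hD e₁ D₁ hD₁ e₂ D₂ hD₂ he heD t (ppSec F e₁ D₁ hD₁ e₂ D₂ hD₂ s t) =
      F.pushSec e D hD s t := by
  refine F.push_ext e D hD t _ _ fun x hx => ?_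
  obtain ⟨h1, h2⟩ := fib_fib e D e₁ D₁ e₂ D₂ he heD hx
  rw [F.pushVal_pushSec e D hD hs]
  change F.pushVal e₁ D₁ hD₁ (e₁ x).1 ((F.push e₁ D₁ hD₁).pushVal e₂ D₂ hD₂ t
    ((F.push e₁ D₁ hD₁).pushSec e₂ D₂ hD₂ (F.pushSec e₁ D₁ hD₁ s) t) (e₁ x).1 h1) x h2 = s x
  rw [(F.push e₁ D₁ hD₁).pushVal_pushSec e₂ D₂ hD₂ (ppSec_on F e D e₁ D₁ hD₁ e₂ D₂ he heD hs),
    F.pushVal_pushSec e₁ D₁ hD₁]
  exact fun z hz => hs z (fib_of_fib_fib e D e₁ D₁ e₂ D₂ he heD h1 hz)

include he heD in
/-- the direct image is coherent if the iterated direct image is -/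
theorem push_cohAt_of_push_push {t : V'}
    (h : ((F.push e₁ D₁ hD₁).push e₂ D₂ hD₂).CohAt t) : (F.push e D hD).CohAt t := by
  have hdom : fib e D t ⊆ F.dom := by
    intro x hx
    obtain ⟨h1, h2⟩ := fib_fib e D e₁ D₁ e₂ D₂ he heD hx
    exact h.1 h1 h2
  have hdom' : ∀ᶠ t' in 𝓝 t, fib e D t' ⊆ F.dom :=
    fib_tube e hD (P := fun x => x ∈ F.dom) fun x hx => F.isOpen_dom.mem_nhds (hdom hx)
  refine h.transfer (ppHom F e D hD e₁ D₁ hD₁ e₂ D₂ hD₂ he heD) ?_ ?_ ?_
  · filter_upwards [hdom'] with t' ht'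
    refine ⟨ppHom_injective F e D hD e₁ D₁ hD₁ e₂ D₂ hD₂ he heD t', fun m => ?_⟩
    obtain ⟨s, hs, rfl⟩ := F.exists_pushSec e D hD ht' m
    exact ⟨_, ppHom_ppSec F e D hD e₁ D₁ hD₁ e₂ D₂ hD₂ he heD hs⟩
  · intro s' hs'
    obtain ⟨N, hN, hNo, htN⟩ := _root_.eventually_nhds_iff.mp
      (((F.push e₁ D₁ hD₁).push e₂ D₂ hD₂).ev hs')
    obtain ⟨s, hs⟩ := pp_section F e D e₁ D₁ hD₁ e₂ D₂ hD₂ he heD (S := N) (s' := s') hN
    rw [F.push_at]
    refine ⟨s, ?_⟩
    filter_upwards [hNo.mem_nhds htN] with t' ht'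
    exact ⟨(hs t' ht').1, fun x hx => (hs t' ht').2 ⟨x, hx⟩⟩
  · intro s' hs'
    obtain ⟨s, hs⟩ := (F.push_at e D hD).1 hs'
    refine ⟨ppSec F e₁ D₁ hD₁ e₂ D₂ hD₂ s, ?_, ?_⟩
    · exact (F.push e₁ D₁ hD₁).pushSec_at e₂ D₂ hD₂
        (ppSec_on F e D e₁ D₁ hD₁ e₂ D₂ he heD hs.self_of_nhds.1)
    · filter_upwards [hs] with t' ht'
      rw [ppHom_ppSec F e D hD e₁ D₁ hD₁ e₂ D₂ hD₂ he heD ht'.1]
      refine F.push_ext e D hD t' _ _ fun x hx => ?_
      rw [F.pushVal_pushSec e D hD ht'.1, ht'.2]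

end PushPush

/-! ### A fibre which is a point -/

section Point

variable {V : Type u} [NormedAddCommGroup V] [NormedSpace ℂ V]
  {V' : Type u} [NormedAddCommGroup V'] [NormedSpace ℂ V'] [FiniteDimensional ℂ V']
  {W : Type v} [NormedAddCommGroup W] [NormedSpace ℂ W] [Subsingleton W]
  (F : EMod.{u, u, w} (O V)) (e : V ≃L[ℂ] V' × W) (D : Set W) (hD : IsCompact D)
  (h0 : (0 : W) ∈ D)

omit [FiniteDimensional ℂ V'] in
theorem pullS_bijective_point (t : V') :
    Function.Bijective (pullS e (x := e.symm (t, (0 : W))) (t := t) (by simp)) := by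
  have hT : Tendsto (fun t' : V' => e.symm (t', (0 : W))) (𝓝 t) (𝓝 (e.symm (t, 0))) := by
    have : Continuous fun t' : V' => e.symm (t', (0 : W)) :=
      e.symm.continuous.comp (continuous_id.prodMk continuous_const)
    exact this.continuousAt
  have hz : ∀ z : V, e.symm ((e z).1, (0 : W)) = z := by
    intro z
    rw [← Subsingleton.elim (e z).2 0]
    exact e.symm_apply_apply z
  constructor
  · rw [injective_iff_map_eq_zero]
    intro a ha
    obtain ⟨f, hf, rfl⟩ := exists_gm (show OGerm t from a)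
    rw [show pullS e (x := e.symm (t, (0 : W))) (t := t) (by simp) (gm f t) =
      om (fun z => f (e z).1) (e.symm (t, 0)) from pullS_gm e (by simp) hf] at ha
    have hz0 : HolAt (0 : V → ℂ) (e.symm (t, (0 : W))) := HolAt.const 0 _
    have h1 : (fun z => f (e z).1) =ᶠ[𝓝 (e.symm (t, (0 : W)))] (0 : V → ℂ) :=
      (gm_eq_iff (hf.comp_fst e (x := e.symm (t, (0 : W))) (by simp)) hz0).1
        (by rw [gm_zero]; exact ha)
    have h2 : f =ᶠ[𝓝 t] (0 : V' → ℂ) := by
      filter_upwards [hT.eventually h1] with t' ht'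
      simpa using ht'
    have h3 : gm f t = gm (0 : V' → ℂ) t := (gm_eq_iff hf (HolAt.const 0 _)).2 h2
    rw [h3, gm_zero]
    rfl
  · intro c
    obtain ⟨f, hf, rfl⟩ := exists_gm (show OGerm (e.symm (t, (0 : W))) from c)
    have hf' : HolAt (fun t' => f (e.symm (t', 0))) t := by
      refine HolAt.comp (g := fun t' : V' => e.symm (t', (0 : W))) hf
        (Eventually.of_forall fun y => ?_)
      exact ((e.symm : V' × W →L[ℂ] V).comp
        (ContinuousLinearMap.inl ℂ V' W)).differentiableAt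
    refine ⟨om (fun t' => f (e.symm (t', 0))) t, ?_⟩
    rw [pullS_gm e _ hf']
    have h5 : (fun z => f (e.symm ((e z).1, (0 : W)))) = f := funext fun z => by rw [hz]
    exact congrArg (fun h => om h _) h5

include h0 in
theorem push_cohAt_point {t : V'} (hF : F.CohAt (e.symm (t, 0))) : (F.push e D hD).CohAt t := by
  have hmem : ∀ t', e.symm (t', 0) ∈ fib e D t' := fun t' => by simp [fib, h0]
  have hfib : ∀ t' x, x ∈ fib e D t' → x = e.symm (t', 0) := by
    rintro t' x ⟨rfl, _⟩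
    rw [← Subsingleton.elim (e x).2 0]
    exact (e.symm_apply_apply x).symm
  have hx : ∀ {P : V → Prop}, (∀ᶠ x in 𝓝 (e.symm (t, 0)), P x) → ∀ᶠ t' in 𝓝 t, P (e.symm (t', 0)) := by
    intro P hP
    have h1 : Tendsto (fun t' : V' => e.symm (t', (0 : W))) (𝓝 t) (𝓝 (e.symm (t, 0))) := by
      have : Continuous fun t' : V' => e.symm (t', (0 : W)) :=
        e.symm.continuous.comp (continuous_id.prodMk continuous_const)
      exact this.continuousAt
    exact h1.eventually hP
  have hdom : fib e D t ⊆ F.dom := fun x hx => by rw [hfib t x hx]; exact hF.1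
  obtain ⟨p, g, hg, hgen⟩ := hF.2.1
  obtain ⟨q, ρ, hρ, hrel⟩ := hF.2.2 p g hg
  choose f hf hρf using hρ
  -- the functions on the base
  have hf' : ∀ j i, HolAt (fun t' => f j i (e.symm (t', 0))) t := by
    intro j i
    refine HolAt.comp (g := fun t' : V' => e.symm (t', (0 : W))) (hf j i)
      (Eventually.of_forall fun y => ?_)
    exact ((e.symm : V' × W →L[ℂ] V).comp
      (ContinuousLinearMap.inl ℂ V' W)).differentiableAt
  have hgon : ∀ i, F.On (g i) (fib e D t) := fun i x hx => by rw [hfib t x hx]; exact hg i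
  have hpull : ∀ᶠ t' in 𝓝 t, ∀ j i, pullS e (x := e.symm (t', 0)) (t := t') (by simp)
      (om (fun t' => f j i (e.symm (t', 0))) t') = ρ j i (e.symm (t', 0)) := by
    have h1 : ∀ᶠ t' in 𝓝 t, ∀ j i, HolAt (fun t' => f j i (e.symm (t', 0))) t' :=
      eventually_all.mpr fun j => eventually_all.mpr fun i => (hf' j i).eventually
    have h2 : ∀ᶠ t' in 𝓝 t, ∀ j i, ρ j i (e.symm (t', 0)) = gm (f j i) (e.symm (t', 0)) :=
      eventually_all.mpr fun j => eventually_all.mpr fun i => hx (hρf j i)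
    filter_upwards [h1, h2] with t' h3 h4 j i
    rw [pullS_gm e _ (h3 j i), h4]
    have h5 : (fun z => f j i (e.symm ((e z).1, 0))) = f j i := by
      funext z
      rw [← Subsingleton.elim (e z).2 0]
      exact congrArg _ (e.symm_apply_apply z)
    exact congrArg (fun h => om h _) h5
  refine coh_of_lfp (F.push e D hD) hdom (fun i => F.pushSec e D hD (g i))
    (fun j i => om fun t' => f j i (e.symm (t', 0))) (fun i => F.pushSec_at e D hD (hgon i))
    (fun j i => O_at_gm (hf' j i)) ?_ ?_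
  · have h1 : ∀ᶠ t' in 𝓝 t, ∀ i, F.On (g i) (fib e D t') :=
      eventually_all.mpr fun i => EMod.on_near F e D hD (hgon i)
    have h2 : ∀ᶠ t' in 𝓝 t, fib e D t' ⊆ F.dom :=
      fib_tube e hD (P := fun x => x ∈ F.dom) fun x hx => F.isOpen_dom.mem_nhds (hdom hx)
    filter_upwards [h1, h2, hx hgen] with t' h3 h4 h5
    rw [eq_top_iff]
    intro m _
    obtain ⟨s, hs, rfl⟩ := F.exists_pushSec e D hD h4 m
    have h6 : s (e.symm (t', 0)) ∈ Submodule.span ((O V).St (e.symm (t', 0)))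
        (range fun i => g i (e.symm (t', 0))) := by
      rw [h5]
      exact Submodule.mem_top
    obtain ⟨c, hc⟩ := mem_span_fam.mp h6
    choose a ha using fun i => (pullS_bijective_point e t').2 (c i)
    refine mem_span_fam.mpr ⟨a, F.push_ext e D hD t' _ _ fun x hx => ?_⟩
    obtain rfl := hfib t' x hx
    rw [F.pushVal_sum, F.pushVal_pushSec e D hD hs, hc]
    refine Finset.sum_congr rfl fun i _ => ?_
    rw [F.pushVal_smul, F.pushVal_pushSec e D hD (h3 i)]
    exact congrArg (fun z => z • g i (e.symm (t', 0))) (ha i).symm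
  · have h1 : ∀ᶠ t' in 𝓝 t, ∀ i, F.On (g i) (fib e D t') :=
      eventually_all.mpr fun i => EMod.on_near F e D hD (hgon i)
    filter_upwards [h1, hx hrel, hpull] with t' h3 h4 h5
    have h6 : ∀ c : Fin p → (O V').St t', c ∈ (F.push e D hD).rel
        (fun i => F.pushSec e D hD (g i)) t' ↔
        (fun i => pullS e (x := e.symm (t', 0)) (t := t') (by simp) (c i)) ∈
          F.rel g (e.symm (t', 0)) := by
      intro c
      have h7 : F.pushVal e D hD t' (∑ i, c i • F.pushSec e D hD (g i) t') (e.symm (t', 0))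
          (hmem t') = ∑ i, pullS e (x := e.symm (t', 0)) (t := t') (by simp) (c i) •
            g i (e.symm (t', 0)) := by
        rw [F.pushVal_sum]
        refine Finset.sum_congr rfl fun i _ => ?_
        rw [F.pushVal_smul, F.pushVal_pushSec e D hD (h3 i)]
      constructor
      · intro h8
        have h9 : ∑ i, c i • F.pushSec e D hD (g i) t' = 0 := h8
        rw [h9] at h7
        exact h7.symm
      · intro h8
        refine F.push_ext e D hD t' _ _ fun x hx => ?_
        obtain rfl := hfib t' x hx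
        rw [h7]
        exact h8
    ext c
    rw [h6, h4]
    constructor
    · intro h7
      obtain ⟨d, hd⟩ := mem_span_fam.mp h7
      choose b hb using fun j => (pullS_bijective_point e t').2 (d j)
      refine mem_span_fam.mpr ⟨b, funext fun i => (pullS_bijective_point e t').1 ?_⟩
      have h8 := congrFun hd i
      rw [Finset.sum_apply] at h8
      refine h8.trans ?_
      rw [Finset.sum_apply, map_sum]
      refine Finset.sum_congr rfl fun j _ => ?_
      rw [Pi.smul_apply, Pi.smul_apply, smul_eq_mul, smul_eq_mul, map_mul, hb, h5]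
    · intro h7
      obtain ⟨b, rfl⟩ := mem_span_fam.mp h7
      refine mem_span_fam.mpr ⟨fun j => pullS e (x := e.symm (t', 0)) (t := t') (by simp) (b j),
        funext fun i => ?_⟩
      rw [Finset.sum_apply, Finset.sum_apply, map_sum]
      refine Finset.sum_congr rfl fun j _ => ?_
      rw [Pi.smul_apply, Pi.smul_apply, smul_eq_mul, smul_eq_mul, map_mul, h5]

end Point

end Pool.Agent.DQ
end

section

/-! # DQ, module HA2: the grade of ideals of germs which contain monic polynomials -/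

set_option autoImplicit false

open Set Filter Topology IsLocalRing RingTheory.Sequence

universe u v w

namespace Pool.Agent.DQ

namespace HA2G

variable {V : Type u} [NormedAddCommGroup V] [NormedSpace ℂ V]

theorem val_gm {f : V → ℂ} {x : V} (hf : HolAt f x) : val (gm f x : OGerm x) = f x := by
  unfold val
  rw [gm_coe hf]
  rfl

theorem regLoc_coord {n : ℕ} (κ : V ≃L[ℂ] (Fin n → ℂ)) (x : V) :
    haveI := OGerm.isLocalRing x
    RegLoc (OGerm x) (List.ofFn fun i => (gm (fun y => κ y i - κ x i) x : OGerm x)) := by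
  have := OGerm.isLocalRing x
  apply RegLoc.of_fin
  · ext g
    rw [mem_maximalIdeal, mem_nonunits_iff, OGerm.isUnit_iff, not_not]
    exact OGerm.span_coord κ x g
  · intro i g h
    exact OGerm.regular_coord κ x i g h

theorem holAt_coord {n : ℕ} (κ : V ≃L[ℂ] (Fin n → ℂ)) (x : V) (j : Fin n) :
    HolAt (fun y => κ y j) x :=
  Eventually.of_forall fun y => differentiableAt_pi.1 (κ.differentiable y) j

theorem gm_pow {f : V → ℂ} {x : V} (hf : HolAt f x) (k : ℕ) :
    HolAt (fun y => f y ^ k) x ∧ gm (fun y => f y ^ k) x = (gm f x) ^ k := by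
  induction k with
  | zero =>
    refine ⟨by simpa using HolAt.const 1 x, ?_⟩
    simp only [pow_zero]
    exact gm_one x
  | succ k ih =>
    have h1 : (fun y => f y ^ (k + 1)) = (fun y => f y ^ k) * f := by
      funext y
      simp [pow_succ]
    refine ⟨?_, ?_⟩
    · rw [h1]
      exact ih.1.mul hf
    · rw [h1, gm_mul ih.1 hf, ih.2, pow_succ]

/-- a nonzero polynomial of one coordinate is a unit times a power of the coordinate, modulo the
other coordinates -/
theorem mod_poly {n : ℕ} (κ : V ≃L[ℂ] (Fin n → ℂ)) (x : V) {f : V → ℂ} (hf : HolAt f x) (i : ℕ)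
    (hi : i ≤ n) (j : Fin n) (hij : i ≤ (j : ℕ)) (P : Polynomial ℂ) (hP : P ≠ 0)
    (h : ∀ y, f (frz κ x i y) = P.eval (κ y j)) :
    ∃ (c : (OGerm x)ˣ) (l : ℕ), gm f x - (c : OGerm x) *
      (gm (fun y => κ y j - κ x j) x : OGerm x) ^ l ∈
      Ideal.span ((fun j => (gm (fun y => κ y j - κ x j) x : OGerm x)) ''
        {j : Fin n | (j : ℕ) < i}) := by
  obtain ⟨Q, hQ, hQ'⟩ := P.exists_eq_pow_rootMultiplicity_mul_and_not_dvd hP (κ x j)
  rw [Polynomial.dvd_iff_isRoot, Polynomial.IsRoot.def] at hQ'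
  generalize P.rootMultiplicity (κ x j) = l at hQ
  have hQh : HolAt (fun y => Q.eval (κ y j)) x :=
    Eventually.of_forall fun y => Q.differentiable.differentiableAt.comp y
      (differentiableAt_pi.1 (κ.differentiable y) j)
  have hc : HolAt (fun y => κ y j - κ x j) x := (holAt_coord κ x j).sub (HolAt.const _ x)
  have hu : IsUnit (gm (fun y => Q.eval (κ y j)) x : OGerm x) := by
    rw [OGerm.isUnit_iff, val_gm hQh]
    exact hQ'
  refine ⟨hu.unit, l, ?_⟩
  have hG : HolAt (f - (fun y => Q.eval (κ y j)) * fun y => (κ y j - κ x j) ^ l) x :=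
    hf.sub (hQh.mul (gm_pow hc l).1)
  have hgm : gm f x - ((hu.unit : (OGerm x)ˣ) : OGerm x) *
      (gm (fun y => κ y j - κ x j) x : OGerm x) ^ l =
      gm (f - (fun y => Q.eval (κ y j)) * fun y => (κ y j - κ x j) ^ l) x := by
    have h1 : gm (-((fun y => Q.eval (κ y j)) * fun y => (κ y j - κ x j) ^ l)) x =
        -gm ((fun y => Q.eval (κ y j)) * fun y => (κ y j - κ x j) ^ l) x :=
      gm_neg (hQh.mul (gm_pow hc l).1)
    have h2 : gm (f + -((fun y => Q.eval (κ y j)) * fun y => (κ y j - κ x j) ^ l)) x =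
        gm f x + gm (-((fun y => Q.eval (κ y j)) * fun y => (κ y j - κ x j) ^ l)) x :=
      gm_add hf (hQh.mul (gm_pow hc l).1).neg
    rw [sub_eq_add_neg f, h2, h1, gm_mul hQh (gm_pow hc l).1, (gm_pow hc l).2, sub_eq_add_neg]
    rfl
  rw [hgm, mem_span_coord_iff κ x hG i hi]
  refine Eventually.of_forall fun y => ?_
  have h2 : κ (frz κ x i y) j = κ y j := by
    rw [(frz_facts κ x i).2.2.2.2.1, if_neg (by omega)]
  simp only [Pi.sub_apply, Pi.mul_apply]
  rw [h, h2, hQ]
  simp [mul_comm]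

end HA2G

open HA2G in
/-- An ideal of germs which contains monic polynomials in `d` different fibre coordinates has
grade `≥ d`. -/
theorem gradeGE_monic_germ {V V' : Type u} [NormedAddCommGroup V] [NormedSpace ℂ V]
    [FiniteDimensional ℂ V] [NormedAddCommGroup V'] [NormedSpace ℂ V'] [FiniteDimensional ℂ V']
    {d : ℕ} (e : V ≃L[ℂ] V' × (Fin d → ℂ)) (x : V) (l : Fin d → ℕ)
    (a : ∀ i, Fin (l i) → V' → ℂ) (ha : ∀ i j, HolAt (a i j) (e x).1) (I : Ideal ((O V).St x))
    (hI : ∀ i, om (fun y => mon (a i) (e y).1 ((e y).2 i)) x ∈ I) : GradeGE I d := by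
  have := OGerm.isLocalRing x
  have := OGerm.isNoetherianRing x
  let m := Module.finrank ℂ V'
  let κ' : V' ≃L[ℂ] (Fin m → ℂ) :=
    ContinuousLinearEquiv.ofFinrankEq (by rw [Module.finrank_fin_fun])
  let κ : V ≃L[ℂ] (Fin (m + d) → ℂ) :=
    (e.toLinearEquiv ≪≫ₗ (κ'.toLinearEquiv.prodCongr (LinearEquiv.refl ℂ (Fin d → ℂ))) ≪≫ₗ
      (LinearEquiv.sumArrowLequivProdArrow (Fin m) (Fin d) ℂ ℂ).symm ≪≫ₗ
      LinearEquiv.funCongrLeft ℂ ℂ finSumFinEquiv.symm).toContinuousLinearEquiv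
  have hκ1 : ∀ y (i : Fin m), κ y (Fin.castAdd d i) = κ' (e y).1 i := by
    intro y i
    simp [κ, LinearEquiv.funCongrLeft]
  have hκ2 : ∀ y (i : Fin d), κ y (Fin.natAdd m i) = (e y).2 i := by
    intro y i
    simp [κ, LinearEquiv.funCongrLeft]
  let co : Fin (m + d) → OGerm x := fun j => gm (fun y => κ y j - κ x j) x
  have hR : RegLoc (OGerm x) (List.ofFn (fun i => co (Fin.castAdd d i)) ++
      List.ofFn (fun i => co (Fin.natAdd m i))) := by
    have := regLoc_coord κ x
    rwa [List.ofFn_add] at this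
  have hts : Ideal.span ((fun j => (gm (fun y => κ y j - κ x j) x : OGerm x)) ''
      {j : Fin (m + d) | (j : ℕ) < m}) = Ideal.ofList (List.ofFn (fun i => co (Fin.castAdd d i))) := by
    congr 1
    ext r
    simp only [mem_image, mem_ofPred_eq, List.mem_ofFn]
    constructor
    · rintro ⟨j, hj, rfl⟩
      exact ⟨⟨j, hj⟩, rfl⟩
    · rintro ⟨j, rfl⟩
      exact ⟨Fin.castAdd d j, j.2, rfl⟩
  have h := gradeGE_monic (List.ofFn (fun i => co (Fin.castAdd d i)))
    (List.ofFn (fun i => co (Fin.natAdd m i))) hR (I : Ideal (OGerm x)) (by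
      intro v hv
      obtain ⟨i, rfl⟩ := List.mem_ofFn.1 hv
      refine ⟨_, hI i, ?_⟩
      rw [← hts]
      let P : Polynomial ℂ := Polynomial.X ^ (l i) +
        ∑ j : Fin (l i), Polynomial.C (a i j (e x).1) * Polynomial.X ^ (j : ℕ)
      have hP : P ≠ 0 := by
        have : P.Monic := Polynomial.monic_X_pow_add
          (Polynomial.degree_sum_fin_lt fun j : Fin (l i) => a i j (e x).1)
        exact this.ne_zero
      have hco : HolAt (fun y => (e y).2 i) x := by
        have := holAt_coord κ x (Fin.natAdd m i)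
        simpa only [hκ2] using this
      refine mod_poly κ x (f := fun y => mon (a i) (e y).1 ((e y).2 i)) ?_ m (by omega)
        (Fin.natAdd m i) (by simp) P hP ?_
      · refine (gm_pow hco (l i)).1.add (HolAt.sum _ fun j _ => ?_)
        refine HolAt.mul ?_ (gm_pow hco j).1
        exact HolAt.comp (ha i j) (Eventually.of_forall fun y => (e.differentiable y).fst)
      · intro y
        have h1 : (e (frz κ x m y)).1 = (e x).1 := by
          apply κ'.injective
          funext k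
          rw [← hκ1, ← hκ1, (frz_facts κ x m).2.2.2.2.1, if_pos (by simp)]
        have h2 : (e (frz κ x m y)).2 i = κ y (Fin.natAdd m i) := by
          rw [← hκ2, (frz_facts κ x m).2.2.2.2.1, if_neg (by simp)]
        change mon (a i) (e (frz κ x m y)).1 ((e (frz κ x m y)).2 i) = _
        rw [h1, h2, mon]
        simp [P, Polynomial.eval_finsetSum])
  rwa [List.length_ofFn] at h

end Pool.Agent.DQ
end
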