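import Pool.Agent.Lib.MP_4aa2a9_ag.Mg.G012
import Pool.Agent.DQ.Mg_MP_4aa2a9_ag.G002
import Pool.Agent.Lib.MP_4aa2a9_ag.Mg.G010
import Pool.Agent.Lib.MP_4aa2a9_ag.Mg.G019
import Pool.Agent.Lib.MP_4aa2a9_ag.Mg.G018

section

/-! # Right inverses of surjective matrices of holomorphic functions: disc and disc times annulus -/

set_option autoImplicit false

open Set Filter Topology Metric Matrix

universe u

namespace Pool.Agent.DQ.X

/-- TASK C0b1. PROOF. Choose `b < b'' < Rw`, `rz < r1' < r1`, `r2 < r2' < Rz` (if `b < 0` or `r2 < r1` things are only easier; take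
`b''` with `max b 0 < b'' < Rw`, where `0 < Rw` as otherwise `ball 0 Rw` is empty: if `Rw ≤ 0` then `ball 0 b` is empty and there is
nothing to prove). Let `κ : ℂ × ℂ ≃L[ℂ] (Fin 2 → ℂ)` be the usual one (`ContinuousLinearEquiv.finTwoArrow` and its symmetry: it exists as
`(ContinuousLinearEquiv.finTwoArrow ℂ ℂ).symm`), apply `exists_rinv` with `c = 0`, radii `r = ![-1, r1']`, `R = ![b'', r2']`:
the closed box is contained in `ball 0 Rw ×ˢ An rz Rz`, and it contains the open set `ball 0 b ×ˢ An r1 r2`, on which `y` is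
differentiable entrywise (`HolAt` implies differentiable) and `a x * y x = 1` (`Eventually.self_of_nhds`). -/
theorem exists_rinv2 {Rw rz Rz : ℝ} {n p : ℕ} {a : ℂ × ℂ → Matrix (Fin n) (Fin p) ℂ}
    (ha : MHol a (ring 0 (-1) Rw ×ˢ ring 0 rz Rz))
    (hs : ∀ x ∈ ring 0 (-1) Rw ×ˢ ring 0 rz Rz, Function.Surjective (a x).mulVec)
    {b r1 r2 : ℝ} (hb : b < Rw) (h1 : rz < r1) (h2 : r2 < Rz) :
    ∃ y : ℂ × ℂ → Matrix (Fin p) (Fin n) ℂ,
      (∀ i j, DifferentiableOn ℂ (fun x => y x i j) (ball 0 b ×ˢ An r1 r2)) ∧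
      ∀ x ∈ ball (0 : ℂ) b ×ˢ An r1 r2, a x * y x = 1 := by
  have hsub : cbox (ContinuousLinearEquiv.finTwoArrow ℂ ℂ).symm 0 ![-1, (rz + r1) / 2]
      ![(b + Rw) / 2, (r2 + Rz) / 2] ⊆ ring 0 (-1) Rw ×ˢ ring 0 rz Rz := by
    intro x hx
    have h0 : x.1 ∈ cring 0 (-1) ((b + Rw) / 2) := hx 0
    have h3 : x.2 ∈ cring 0 ((rz + r1) / 2) ((r2 + Rz) / 2) := hx 1
    obtain ⟨a1, a2⟩ := h0
    obtain ⟨a3, a4⟩ := h3
    rw [sub_zero] at a1 a2 a3 a4
    have n1 := norm_nonneg x.1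
    refine ⟨⟨?_, ?_⟩, ⟨?_, ?_⟩⟩
    · rw [sub_zero]; linarith
    · rw [sub_zero]; linarith
    · rw [sub_zero]; linarith
    · rw [sub_zero]; linarith
  have hsup : ball (0 : ℂ) b ×ˢ An r1 r2 ⊆ cbox (ContinuousLinearEquiv.finTwoArrow ℂ ℂ).symm 0
      ![-1, (rz + r1) / 2] ![(b + Rw) / 2, (r2 + Rz) / 2] := by
    intro x hx
    obtain ⟨h0, h3, h4⟩ := hx
    rw [mem_ball_zero_iff] at h0
    have n1 := norm_nonneg x.1
    intro i
    fin_cases i
    · change x.1 ∈ cring 0 (-1) ((b + Rw) / 2)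
      refine ⟨?_, ?_⟩
      · rw [sub_zero]; linarith
      · rw [sub_zero]; linarith
    · change x.2 ∈ cring 0 ((rz + r1) / 2) ((r2 + Rz) / 2)
      refine ⟨?_, ?_⟩
      · rw [sub_zero]; linarith
      · rw [sub_zero]; linarith
  obtain ⟨y, hy, hay⟩ := exists_rinv (ContinuousLinearEquiv.finTwoArrow ℂ ℂ).symm 0
    ![-1, (rz + r1) / 2] ![(b + Rw) / 2, (r2 + Rz) / 2] (a := a)
    (fun i j x hx => ha i j x (hsub hx)) (fun x hx => hs x (hsub hx))
  exact ⟨y, fun i j x hx => (hy i j x (hsup hx)).differentiableAt.differentiableWithinAt,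
    fun x hx => (hay x (hsup hx)).self_of_nhds⟩

/-- TASK C0b2. PROOF. The same with `V = ℂ` and a disc (`κ : ℂ ≃L[ℂ] (Fin 1 → ℂ)`,
`(ContinuousLinearEquiv.funUnique (Fin 1) ℂ ℂ).symm`). -/
theorem exists_rinv1 {Rz : ℝ} {n p : ℕ} {b : ℂ → Matrix (Fin n) (Fin p) ℂ}
    (hb : MHol b (ring 0 (-1) Rz))
    (hs : ∀ z ∈ ring 0 (-1) Rz, Function.Surjective (b z).mulVec) {r2 : ℝ} (h2 : r2 < Rz) :
    ∃ y : ℂ → Matrix (Fin p) (Fin n) ℂ,
      (∀ i j, DifferentiableOn ℂ (fun x => y x i j) (ball 0 r2)) ∧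
      ∀ z ∈ ball (0 : ℂ) r2, b z * y z = 1 := by
  have hsub : cbox (ContinuousLinearEquiv.funUnique (Fin 1) ℂ ℂ).symm 0 (fun _ => -1)
      (fun _ => (r2 + Rz) / 2) ⊆ ring 0 (-1) Rz := by
    intro x hx
    have h0 : x ∈ cring 0 (-1) ((r2 + Rz) / 2) := hx 0
    obtain ⟨a1, a2⟩ := h0
    rw [sub_zero] at a1 a2
    have n1 := norm_nonneg x
    refine ⟨?_, ?_⟩
    · rw [sub_zero]; linarith
    · rw [sub_zero]; linarith
  have hsup : ball (0 : ℂ) r2 ⊆ cbox (ContinuousLinearEquiv.funUnique (Fin 1) ℂ ℂ).symm 0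
      (fun _ => -1) (fun _ => (r2 + Rz) / 2) := by
    intro x hx
    rw [mem_ball_zero_iff] at hx
    have n1 := norm_nonneg x
    intro i
    change x ∈ cring 0 (-1) ((r2 + Rz) / 2)
    refine ⟨?_, ?_⟩
    · rw [sub_zero]; linarith
    · rw [sub_zero]; linarith
  obtain ⟨y, hy, hay⟩ := exists_rinv (ContinuousLinearEquiv.funUnique (Fin 1) ℂ ℂ).symm 0
    (fun _ => -1) (fun _ => (r2 + Rz) / 2) (a := b)
    (fun i j x hx => hb i j x (hsub hx)) (fun x hx => hs x (hsub hx))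
  exact ⟨y, fun i j x hx => (hy i j x (hsup hx)).differentiableAt.differentiableWithinAt,
    fun x hx => (hay x (hsup hx)).self_of_nhds⟩

end Pool.Agent.DQ.X
end

section

/-! # Conversions -/

set_option autoImplicit false

open Set Filter Topology Metric Matrix

universe u

namespace Pool.Agent.DQ.X

theorem ring_eq (r R : ℝ) : ring 0 r R = An r R := by
  ext z
  simp only [ring, An, sub_zero]

theorem ring_eq_ball (R : ℝ) : ring 0 (-1) R = ball (0 : ℂ) R := by
  ext z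
  simp only [ring, mem_setOf_eq, sub_zero, mem_ball_zero_iff]
  exact ⟨fun h => h.2, fun h => ⟨by linarith [norm_nonneg z], h⟩⟩

theorem mhol_iff {E : Type u} [NormedAddCommGroup E] [NormedSpace ℂ E] {p q : ℕ}
    {a : E → Matrix (Fin p) (Fin q) ℂ} {S : Set E} (hS : IsOpen S) :
    MHol a S ↔ ∀ i j, DifferentiableOn ℂ (fun x => a x i j) S :=
  forall_congr' fun _ => forall_congr' fun _ => holNear_iff_differentiableOn hS

theorem mhol_iff' {E : Type u} [NormedAddCommGroup E] [NormedSpace ℂ E] {n : ℕ}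
    {a : E → Mt n} {S : Set E} (hS : IsOpen S) : MHol a S ↔ DifferentiableOn ℂ a S := by
  rw [mhol_iff hS, diffOn_iff]

/-- the matrix with the row `v` at the place `j₀` and zero elsewhere -/
def rowM {n : ℕ} (j₀ : Fin n) (v : Fin n → ℂ) : Mt n := Matrix.of fun i j => if i = j₀ then v j else 0

/-- the matrix with the column `v` at the place `j₀` and zero elsewhere -/
def colM {n : ℕ} (j₀ : Fin n) (v : Fin n → ℂ) : Mt n := Matrix.of fun i j => if j = j₀ then v i else 0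

theorem colM_mul_rowM {n : ℕ} (j₀ : Fin n) (v u : Fin n → ℂ) :
    colM j₀ v * rowM j₀ u = Matrix.of fun i j => v i * u j := by
  ext i j
  simp only [colM, rowM, Matrix.mul_apply, Matrix.of_apply]
  rw [Finset.sum_eq_single j₀]
  · simp
  · intro b _ hb
    simp [hb]
  · simp

theorem rowM_mul {n : ℕ} (j₀ : Fin n) (v : Fin n → ℂ) (A : Mt n) :
    rowM j₀ v * A = rowM j₀ (v ᵥ* A) := by
  ext i j
  simp only [rowM, Matrix.mul_apply, Matrix.of_apply, Matrix.vecMul, dotProduct]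
  by_cases h : i = j₀
  · simp [h]
  · simp [h]

end Pool.Agent.DQ.X
end

section

/-! # Meromorphic extension of the solution over one parameter -/

set_option autoImplicit false

open Set Filter Topology Metric Matrix

namespace Pool.Agent.DQ.X

private theorem C4_row {n : ℕ} (j₀ : Fin n) {E : Type*} [NormedAddCommGroup E] [NormedSpace ℂ E]
    {S : Set E} {F : E → Fin n → ℂ}
    (h : ∀ l, DifferentiableOn ℂ (fun x => F x l) S) :
    DifferentiableOn ℂ (fun x => rowM j₀ (F x)) S := by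
  rw [diffOn_iff]
  intro i' l
  by_cases hi : i' = j₀
  · have : (fun x => rowM j₀ (F x) i' l) = fun x => F x l := by
      funext x
      simp [rowM, hi]
    rw [this]
    exact h l
  · have : (fun x => rowM j₀ (F x) i' l) = fun _ => 0 := by
      funext x
      simp [rowM, hi]
    rw [this]
    exact differentiableOn_const 0

private theorem C4_col {n : ℕ} (j₀ : Fin n) {E : Type*} [NormedAddCommGroup E] [NormedSpace ℂ E]
    {S : Set E} {F : E → Fin n → ℂ}
    (h : ∀ l, DifferentiableOn ℂ (fun x => F x l) S) :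
    DifferentiableOn ℂ (fun x => colM j₀ (F x)) S := by
  rw [diffOn_iff]
  intro l i'
  by_cases hi : i' = j₀
  · have : (fun x => colM j₀ (F x) l i') = fun x => F x l := by
      funext x
      simp [colM, hi]
    rw [this]
    exact h l
  · have : (fun x => colM j₀ (F x) l i') = fun _ => 0 := by
      funext x
      simp [colM, hi]
    rw [this]
    exact differentiableOn_const 0

private theorem C4_mul {l m k : ℕ} {E : Type*} [NormedAddCommGroup E] [NormedSpace ℂ E]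
    {S : Set E} {F : E → Matrix (Fin l) (Fin m) ℂ} {G : E → Matrix (Fin m) (Fin k) ℂ}
    (hF : ∀ i j, DifferentiableOn ℂ (fun x => F x i j) S)
    (hG : ∀ i j, DifferentiableOn ℂ (fun x => G x i j) S) (i : Fin l) (j : Fin k) :
    DifferentiableOn ℂ (fun x => (F x * G x) i j) S := by
  have : (fun x => (F x * G x) i j) = fun x => ∑ q, F x i q * G x q j := by
    funext x
    exact Matrix.mul_apply
  rw [this]
  exact DifferentiableOn.fun_sum fun q _ => (hF i q).mul (hG q j)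

private theorem C4_sum {n p : ℕ} (j₀ : Fin n) (X : Matrix (Fin n) (Fin p) ℂ)
    (Z : Matrix (Fin p) (Fin n) ℂ) :
    ∑ i, colM j₀ (fun l => X l i) * rowM j₀ (Z i) = X * Z := by
  ext l l'
  rw [Matrix.sum_apply, Matrix.mul_apply]
  refine Finset.sum_congr rfl fun i _ => ?_
  rw [colM_mul_rowM]
  rfl

/-- TASK C4. PROOF. If `n = 0`, `BB 0 ρ` has only one element (`Beur.ext`, the coefficients are matrices without entries), take `δ = 1`,
`σ = 0`. Otherwise let `j₀ : Fin n`. Let `j' < b' < b'' < Rw`, `rz < r' < ρ.r`, `ρ.R < R' < Rz`. `exists_rinv2` for `a` gives `y` with `a y = 1` on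
`ball 0 b'' ×ˢ An r' R'`. Define the `Mt n` valued functions (`rowM`, `colM` in R0)
`m i (w, z) = rowM j₀ (fun l => ∑ k, a (w, z) k i * b₀ z k l)` (row `i` of `aᵀ b₀`),
`ξ i (w, z) = colM j₀ (fun l => ∑ k, b₀' z l k * y (w, z) i k)` (column `i` of `b₀' yᵀ`); they are differentiable on `ball 0 b'' ×ˢ An r' R'`
(`diffOn_iff`, entries), and `∑ i, ξ i * m i = b₀' yᵀ aᵀ b₀ = b₀' (a y)ᵀ b₀ = 1` (`colM_mul_rowM`). By `exists_real` (`E = ℂ`, `U = ball 0 b''`) there are
`M i`, `Ξ i : ℂ → BB n ρ`, differentiable on `ball 0 b''`, with these values; `∑ i, Ξ i w * M i w = 1` by `ev_injective` (`ev_mul`, `ev_one`, `map_sum`).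
`exists_real` for `U = An rw Rw`, outer radius `Rz`: `L i : ℂ → BB n ρ` with the values `rowM j₀ (fun l => b (w, z) l i)`, which is differentiable on
`An rw Rw ×ˢ ball 0 Rz`, so `P (L i w) = 0`. For `w ∈ An j j'`: `M i w = L i w * g w` by `ev_injective`: `rowM_mul`,
`aᵀ = bᵀ s` on the product of the annuli (transpose of `hab`). Let `w₁` with `j < ‖w₁‖ < j'`; `exists_rinv1` for `z ↦ b (w₁, z)` with `r2 = R'` gives `y₁`
and `η i` (`exists_real`, a family which does not depend on the parameter, `U = univ`) with the values `colM j₀ (fun l => y₁ z i l)`, differentiable on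
`ball 0 R'`, so `P (η i) = 0`; `∑ i, η i * L i w₁ = 1` by `ev_injective`, as `y₁ᵀ bᵀ = (b y₁)ᵀ = 1`. Apply `mero_abs` with `Ω' = ball 0 b'`,
`K = closedBall 0 b'`, `A = An j j'`. -/
theorem fib_mero {n : ℕ} {ρ : Rad} {rw Rw rz Rz : ℝ} (hw : 0 < rw) (hz : 0 < rz)
    (hρ : rz < ρ.r) (hρ' : ρ.R < Rz) {j j' : ℝ} (hj : rw ≤ j) (hjj : j < j') (hj' : j' < Rw)
    {s : ℂ × ℂ → Mt n} {b₀ b₀' : ℂ → Mt n} (hb₀ : DifferentiableOn ℂ b₀ (An rz Rz))
    (hb₀' : DifferentiableOn ℂ b₀' (An rz Rz)) (hbb : ∀ z ∈ An rz Rz, b₀' z * b₀ z = 1)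
    {p : ℕ} {a b : ℂ × ℂ → Matrix (Fin n) (Fin p) ℂ}
    (ha : MHol a (ring 0 (-1) Rw ×ˢ ring 0 rz Rz)) (hb : MHol b (ring 0 rw Rw ×ˢ ring 0 (-1) Rz))
    (hab : ∀ x ∈ ring 0 rw Rw ×ˢ ring 0 rz Rz, a x = (s x)ᵀ * b x)
    (hsa : ∀ x ∈ ring 0 (-1) Rw ×ˢ ring 0 rz Rz, Function.Surjective (a x).mulVec)
    (hsb : ∀ x ∈ ring 0 rw Rw ×ˢ ring 0 (-1) Rz, Function.Surjective (b x).mulVec)
    {g : ℂ → BB n ρ} (hg : ∀ w ∈ An rw Rw, ∀ z : ℂ, ρ.r ≤ ‖z‖ → ‖z‖ ≤ ρ.R →
      ev z (g w) = s (w, z) * b₀ z)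
    (hu : ∀ w ∈ An j j', IsUnit (Tt (SS n ρ) (g w))) :
    ∃ (δ : ℂ → ℂ) (σ : ℂ → BB n ρ), DifferentiableOn ℂ δ (ball 0 j') ∧
      DifferentiableOn ℂ σ (ball 0 j') ∧ (∃ w ∈ ball (0 : ℂ) j', δ w ≠ 0) ∧
      ∀ w ∈ An j j', σ w = δ w • tau (SS n ρ) (g w) := by
  have hj0 : 0 < j := hw.trans_le hj
  rcases Nat.eq_zero_or_pos n with hn | hn
  · subst hn
    refine ⟨fun _ => 1, fun _ => 0, differentiableOn_const _, differentiableOn_const _,
      ⟨0, mem_ball_self (by linarith), one_ne_zero⟩, fun w _ => ?_⟩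
    exact ev_injective (s := ρ.r) le_rfl ρ.lt.le fun z _ => Subsingleton.elim _ _
  obtain ⟨j₀⟩ : Nonempty (Fin n) := ⟨⟨0, hn⟩⟩
  have ha' := ha
  have hb' := hb
  rw [ring_eq_ball, ring_eq, mhol_iff (isOpen_ball.prod (isOpen_An _ _))] at ha'
  rw [ring_eq_ball, ring_eq, mhol_iff ((isOpen_An _ _).prod isOpen_ball)] at hb'
  rw [ring_eq, ring_eq] at hab
  obtain ⟨b1, hb1⟩ : ∃ b1 : ℝ, b1 = (j' + Rw) / 2 := ⟨_, rfl⟩
  obtain ⟨b2, hb2⟩ : ∃ b2 : ℝ, b2 = (b1 + Rw) / 2 := ⟨_, rfl⟩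
  obtain ⟨r', hr'⟩ : ∃ r' : ℝ, r' = (rz + ρ.r) / 2 := ⟨_, rfl⟩
  obtain ⟨R', hR'⟩ : ∃ R' : ℝ, R' = (ρ.R + Rz) / 2 := ⟨_, rfl⟩
  have e1 : j' < b1 := by linarith
  have e2 : b1 < b2 := by linarith
  have e3 : b2 < Rw := by linarith
  have e4 : rz < r' := by linarith
  have e5 : r' < ρ.r := by linarith
  have e6 : ρ.R < R' := by linarith
  have e7 : R' < Rz := by linarith
  have hlt := ρ.lt
  have hpos := ρ.pos
  have hAn : An r' R' ⊆ An rz Rz := fun z hz => ⟨e4.trans hz.1, hz.2.trans e7⟩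
  have hbox : ball (0 : ℂ) b2 ×ˢ An r' R' ⊆ ball (0 : ℂ) Rw ×ˢ An rz Rz :=
    prod_mono (ball_subset_ball e3.le) hAn
  obtain ⟨y, hy, hay⟩ := exists_rinv2 ha hsa (b := b2) (r1 := r') (r2 := R') e3 e4 e7
  -- the families
  have hb₀e : ∀ i l, DifferentiableOn ℂ (fun x : ℂ × ℂ => b₀ x.2 i l)
      (ball (0 : ℂ) b2 ×ˢ An r' R') := fun i l =>
    (diffOn_iff.1 hb₀ i l).comp differentiable_snd.differentiableOn fun x hx => hAn hx.2
  have hb₀e' : ∀ i l, DifferentiableOn ℂ (fun x : ℂ × ℂ => b₀' x.2 i l)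
      (ball (0 : ℂ) b2 ×ˢ An r' R') := fun i l =>
    (diffOn_iff.1 hb₀' i l).comp differentiable_snd.differentiableOn fun x hx => hAn hx.2
  have hae : ∀ i l, DifferentiableOn ℂ (fun x : ℂ × ℂ => (a x)ᵀ i l)
      (ball (0 : ℂ) b2 ×ˢ An r' R') := fun i l => (ha' l i).mono hbox
  have hye : ∀ i l, DifferentiableOn ℂ (fun x : ℂ × ℂ => (y x)ᵀ i l)
      (ball (0 : ℂ) b2 ×ˢ An r' R') := fun i l => hy l i
  have hm0 : ∀ i, DifferentiableOn ℂ (fun x : ℂ × ℂ => rowM j₀ (((a x)ᵀ * b₀ x.2) i))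
      (ball (0 : ℂ) b2 ×ˢ {z : ℂ | r' < ‖z‖ ∧ ‖z‖ < R'}) := fun i =>
    C4_row j₀ fun l => C4_mul hae hb₀e i l
  have hξ0 : ∀ i, DifferentiableOn ℂ (fun x : ℂ × ℂ => colM j₀ fun l => (b₀' x.2 * (y x)ᵀ) l i)
      (ball (0 : ℂ) b2 ×ˢ {z : ℂ | r' < ‖z‖ ∧ ‖z‖ < R'}) := fun i =>
    C4_col j₀ fun l => C4_mul hb₀e' hye l i
  choose M hMd hMe hM' using fun i => exists_real (n := n) (ρ := ρ) isOpen_ball e5 e6 (hm0 i)
  choose Ξ hΞd hΞe hΞ' using fun i => exists_real (n := n) (ρ := ρ) isOpen_ball e5 e6 (hξ0 i)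
  have hrm : ∀ {z : ℂ}, ‖z‖ = ρ.r → z ∈ An r' R' := fun {z} hz =>
    ⟨by rw [hz]; exact e5, by rw [hz]; linarith⟩
  have hone : ∀ w ∈ ball (0 : ℂ) b2, ∑ i, Ξ i w * M i w = 1 := by
    intro w hw
    refine ev_injective (s := ρ.r) le_rfl hlt.le fun z hz => ?_
    have hz1 : ρ.r ≤ ‖z‖ := hz.ge
    have hz2 : ‖z‖ ≤ ρ.R := by rw [hz]; exact hlt.le
    rw [map_sum, ev_one hz1 hz2]
    have h1 : ∀ i, ev z (Ξ i w * M i w) = colM j₀ (fun l => (b₀' z * (y (w, z))ᵀ) l i) *
        rowM j₀ (((a (w, z))ᵀ * b₀ z) i) := by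
      intro i
      rw [ev_mul hz1 hz2, hΞe i w hw z hz1 hz2, hMe i w hw z hz1 hz2]
    rw [Finset.sum_congr rfl fun i _ => h1 i,
      C4_sum j₀ (b₀' z * (y (w, z))ᵀ) ((a (w, z))ᵀ * b₀ z)]
    have h2 : (y (w, z))ᵀ * (a (w, z))ᵀ = 1 := by
      rw [← Matrix.transpose_mul, hay (w, z) ⟨hw, hrm hz⟩, Matrix.transpose_one]
    calc b₀' z * (y (w, z))ᵀ * ((a (w, z))ᵀ * b₀ z)
        = b₀' z * ((y (w, z))ᵀ * (a (w, z))ᵀ) * b₀ z := by simp only [Matrix.mul_assoc]
      _ = 1 := by rw [h2, Matrix.mul_one, hbb z (hAn (hrm hz))]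
  -- the family `L`
  have hLd : ∀ i, DifferentiableOn ℂ (fun x : ℂ × ℂ => rowM j₀ fun l => b x l i)
      (An rw Rw ×ˢ ball (0 : ℂ) Rz) := fun i => C4_row j₀ fun l => hb' l i
  choose L hLd' hLe hLP using fun i => exists_real (n := n) (ρ := ρ) (isOpen_An rw Rw) hρ hρ'
    ((hLd i).mono (prod_mono_right fun z hz => by
      have : ‖z‖ < Rz := hz.2
      simpa using this))
  have hAj : An j j' ⊆ An rw Rw := fun w hw' => ⟨hj.trans_lt hw'.1, hw'.2.trans hj'⟩
  have hAb : An j j' ⊆ ball (0 : ℂ) b1 := fun w hw' => by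
    have : ‖w‖ < b1 := hw'.2.trans e1
    simpa using this
  have hbb12 : closedBall (0 : ℂ) b1 ⊆ ball (0 : ℂ) b2 := closedBall_subset_ball e2
  have hML : ∀ i, ∀ w ∈ An j j', (SS n ρ).P (L i w) = 0 ∧ M i w = L i w * g w := by
    intro i w hw'
    refine ⟨(hLP i (hLd i) w (hAj hw')).1, ?_⟩
    refine ev_injective (s := ρ.r) le_rfl hlt.le fun z hz => ?_
    have hz1 : ρ.r ≤ ‖z‖ := hz.ge
    have hz2 : ‖z‖ ≤ ρ.R := by rw [hz]; exact hlt.le
    rw [ev_mul hz1 hz2, hMe i w (hbb12 (ball_subset_closedBall (hAb hw'))) z hz1 hz2,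
      hLe i w (hAj hw') z hz1 hz2, hg w (hAj hw') z hz1 hz2, rowM_mul]
    have h1 : (a (w, z))ᵀ * b₀ z = (b (w, z))ᵀ * (s (w, z) * b₀ z) := by
      rw [hab (w, z) ⟨hAj hw', hAn (hrm hz)⟩, Matrix.transpose_mul, Matrix.transpose_transpose,
        Matrix.mul_assoc]
    show rowM j₀ (((a (w, z))ᵀ * b₀ z) i) = rowM j₀ ((fun l => b (w, z) l i) ᵥ* (s (w, z) * b₀ z))
    rw [h1]
    rfl
  -- the point `w₁`
  obtain ⟨w₁, hw₁⟩ : ∃ w₁ : ℂ, w₁ ∈ An j j' := by
    refine ⟨(((j + j') / 2 : ℝ) : ℂ), ?_, ?_⟩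
    · rw [Complex.norm_real, Real.norm_eq_abs, abs_of_pos (by linarith)]
      linarith
    · rw [Complex.norm_real, Real.norm_eq_abs, abs_of_pos (by linarith)]
      linarith
  have hbs : MHol (fun z => b (w₁, z)) (ring 0 (-1) Rz) := by
    rw [ring_eq_ball, mhol_iff isOpen_ball]
    intro i l
    refine (hb' i l).comp (f := fun z : ℂ => (w₁, z)) ?_ ?_
    · exact ((differentiable_const _).prodMk differentiable_id).differentiableOn
    · intro z hz'
      exact ⟨hAj hw₁, hz'⟩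
  have hw₁r : w₁ ∈ ring 0 rw Rw := by
    rw [ring_eq]
    exact hAj hw₁
  obtain ⟨y₁, hy₁, hby⟩ := exists_rinv1 hbs (fun z hz' => hsb (w₁, z) ⟨hw₁r, hz'⟩) e7
  have hηd : ∀ i, DifferentiableOn ℂ (fun x : ℂ × ℂ => colM j₀ fun l => y₁ x.2 i l)
      (univ ×ˢ ball (0 : ℂ) R') := fun i => C4_col j₀ fun l =>
    (hy₁ i l).comp differentiable_snd.differentiableOn fun x hx => hx.2
  choose η hηd' hηe hηP using fun i => exists_real (n := n) (ρ := ρ) isOpen_univ e5 e6
    ((hηd i).mono (prod_mono_right fun z hz => by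
      have : ‖z‖ < R' := hz.2
      simpa using this))
  have hηL : ∑ i, η i 0 * L i w₁ = 1 := by
    refine ev_injective (s := ρ.r) le_rfl hlt.le fun z hz => ?_
    have hz1 : ρ.r ≤ ‖z‖ := hz.ge
    have hz2 : ‖z‖ ≤ ρ.R := by rw [hz]; exact hlt.le
    rw [map_sum, ev_one hz1 hz2]
    have h1 : ∀ i, ev z (η i 0 * L i w₁) = colM j₀ (fun l => (y₁ z)ᵀ l i) *
        rowM j₀ ((b (w₁, z))ᵀ i) := by
      intro i
      rw [ev_mul hz1 hz2, hηe i 0 (mem_univ _) z hz1 hz2, hLe i w₁ (hAj hw₁) z hz1 hz2]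
      rfl
    rw [Finset.sum_congr rfl fun i _ => h1 i, C4_sum j₀ (y₁ z)ᵀ (b (w₁, z))ᵀ,
      ← Matrix.transpose_mul]
    have h2 : z ∈ ball (0 : ℂ) R' := by
      have : ‖z‖ < R' := (hrm hz).2
      simpa using this
    rw [hby z h2, Matrix.transpose_one]
  have hdM : ∀ i, DifferentiableOn ℂ (M i) (ball 0 b1) := fun i =>
    (hMd i).mono (ball_subset_ball e2.le)
  have hdΞ : ∀ i, DifferentiableOn ℂ (Ξ i) (ball 0 b1) := fun i =>
    (hΞd i).mono (ball_subset_ball e2.le)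
  obtain ⟨δ, σ, hδ, hσ, hδ1, hσe⟩ := mero_abs (SS n ρ) (Ω' := ball 0 b1) (K := closedBall 0 b1)
    (A := An j j') isOpen_ball (isCompact_closedBall _ _) ball_subset_closedBall hAb
    (m := M) (ξ := Ξ) (fun i => (hMd i).continuousOn.mono hbb12)
    (fun i => (hΞd i).continuousOn.mono hbb12) hdM hdΞ
    (fun w hw' => hone w (hbb12 (ball_subset_closedBall hw'))) (g := g) (L := L) hML hu
    (w₁ := w₁) hw₁ (η := fun i => η i 0) (fun i => (hηP i (hηd i) 0 (mem_univ _)).1) hηL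
  have hjb : ball (0 : ℂ) j' ⊆ ball 0 b1 := ball_subset_ball e1.le
  refine ⟨δ, σ, hδ.mono hjb, hσ.mono hjb, ⟨w₁, ?_, ?_⟩, hσe⟩
  · have : ‖w₁‖ < j' := hw₁.2
    simpa using this
  · rw [hδ1]
    exact one_ne_zero

end Pool.Agent.DQ.X
end

section

/-! Campaign DQ, module S, file SFib2: generators and Cartan B for the relations over fibres. -/

set_option autoImplicit false

open Set Filter Topology

universe u v w

namespace Pool.Agent.DQ

variable {V : Type u} [NormedAddCommGroup V] [NormedSpace ℂ V]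
  {V' : Type u} [NormedAddCommGroup V'] [NormedSpace ℂ V'] [FiniteDimensional ℂ V']
  {W : Type v} [NormedAddCommGroup W] [NormedSpace ℂ W]

/-- **Generators of the relations over a fibre.**

Proof. `F.relSh g` (file CRel) is coherent on `K` (`C.relSh_coh`, with `C.Oka V` from `W.coh_free` / `oka_of_coord` or module W;
`V` is finite-dimensional because of `e` and ... if `V` is not known to be finite-dimensional use `exists_fib_coord` to get coordinates `κ'` and
`oka_of_coord κ'`). `cartanA_fib` for it: generators `s l`; `h l i y := C.evg y (F.relVal g y (s l y) i)`; `C.at_evg` gives `HolNear` and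
`F.relVal g x (s l x) i = om (h l i) x` on `K`. `F.rel g x = range (relVal) = map relVal ⊤ = map relVal (span (s l x)) = span (om (h l ·) x)`
(`EMod.relVal_range`, `Submodule.map_span`). -/
theorem relgen_fib (F : EMod.{u, u, w} (O V)) (e : V ≃L[ℂ] V' × W) {k : ℕ} (κ : W ≃L[ℂ] (Fin k → ℂ)) (c : Fin k → ℂ)
    (r R : Fin k → ℝ) (t : V') (hF : F.Coh (fib e (cbox κ c r R) t)) {p : ℕ} (g : Fin p → (x : V) → F.St x)
    (hg : ∀ i, F.On (g i) (fib e (cbox κ c r R) t)) :
    ∃ (q : ℕ) (h : Fin q → Fin p → V → ℂ), RelOn F g h (fib e (cbox κ c r R) t) := by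
  obtain ⟨n, κ', c', r', R', hK⟩ := exists_fib_coord e κ c r R t
  have hN : (F.relSh g).Coh (fib e (cbox κ c r R) t) := C.relSh_coh (oka_of_coord κ') hF hg
  obtain ⟨q, s, hs, hgen⟩ := cartanA_fib (F.relSh g) e κ c r R t hN
  have hat : ∀ l i, ∀ x ∈ fib e (cbox κ c r R) t,
      HolAt (fun y => C.evg y (F.relVal g y (s l y) i)) x ∧
      ∀ᶠ y in 𝓝 x, F.relVal g y (s l y) i = gm (fun y => C.evg y (F.relVal g y (s l y) i)) y :=
    fun l i x hx =>
      C.at_evg (a := fun y => F.relVal g y (s l y) i) ((EMod.relSh_at_iff.mp (hs l x hx)).2 i)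
  refine ⟨q, fun l i y => C.evg y (F.relVal g y (s l y) i), fun l i x hx => (hat l i x hx).1,
    fun x hx => ?_⟩
  rw [← F.relVal_range g x, ← Submodule.map_top, ← hgen x hx, Submodule.map_span, ← Set.range_comp]
  congr 1
  congr 1
  funext l
  funext i
  exact (hat l i x hx).2.self_of_nhds

/-- **Cartan B for the relations over a fibre.**

Proof. `cartanB_fib` for the coherent sheaf `F.relSh g` with the generators `F.mkRel g (fun i y => om (h l i) y)` (they generate: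
`relVal` is injective with range `F.rel g x`, as in the proof of `EMod.relSh_cohAt`) and the section
`F.mkRel g (fun i y => om (a i) y)` (`EMod.mkRel_at`). Apply `relVal` to the result (`EMod.mkRel_val`, `C.relVal_smul`). -/
theorem relB_fib (F : EMod.{u, u, w} (O V)) (e : V ≃L[ℂ] V' × W) {k : ℕ} (κ : W ≃L[ℂ] (Fin k → ℂ)) (c : Fin k → ℂ)
    (r R : Fin k → ℝ) (t : V') (hF : F.Coh (fib e (cbox κ c r R) t)) {p q : ℕ} {g : Fin p → (x : V) → F.St x}
    {h : Fin q → Fin p → V → ℂ} (hg : ∀ i, F.On (g i) (fib e (cbox κ c r R) t))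
    (hrel : RelOn F g h (fib e (cbox κ c r R) t)) {a : Fin p → V → ℂ}
    (ha : ∀ i, HolNear (a i) (fib e (cbox κ c r R) t))
    (h0 : ∀ x ∈ fib e (cbox κ c r R) t, ∑ i, om (a i) x • g i x = 0) :
    ∃ C : Fin q → V → ℂ, (∀ l, HolNear (C l) (fib e (cbox κ c r R) t)) ∧
      ∀ x ∈ fib e (cbox κ c r R) t, ∀ i, om (a i) x = ∑ l, om (C l) x * om (h l i) x := by
  obtain ⟨n, κ', c', r', R', hK⟩ := exists_fib_coord e κ c r R t
  have hN : (F.relSh g).Coh (fib e (cbox κ c r R) t) := C.relSh_coh (oka_of_coord κ') hF hg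
  have hdom : ∀ x ∈ fib e (cbox κ c r R) t, x ∈ F.dom := fun x hx => (hF x hx).self_of_nhds.1
  have hz : ∀ l, ∀ x ∈ fib e (cbox κ c r R) t, ∑ i, om (h l i) x • g i x = 0 := by
    intro l x hx
    have h1 : (fun i => om (h l i) x) ∈ F.rel g x := by
      rw [hrel.2 x hx]
      exact Submodule.subset_span ⟨l, rfl⟩
    exact h1
  have hG : ∀ l, (F.relSh g).On (F.mkRel g fun i y => om (h l i) y)
      (fib e (cbox κ c r R) t) := fun l x hx =>
    EMod.mkRel_at (hdom x hx) (fun i => hg i x hx) (fun i => C.at_gm (hrel.1 l i x hx))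
      (hz l x hx)
  have hGgen : (F.relSh g).Gen (fun l => F.mkRel g fun i y => om (h l i) y)
      (fib e (cbox κ c r R) t) := by
    intro x hx
    apply Submodule.map_injective_of_injective (F.relVal_injective g x)
    rw [Submodule.map_span, Submodule.map_top, EMod.relVal_range, ← Set.range_comp, hrel.2 x hx]
    congr 1
    congr 1
    funext l
    exact EMod.mkRel_val (hz l x hx)
  obtain ⟨Co, hC, hCe⟩ := cartanB_fib (F.relSh g) e κ c r R t hN
    (fun l => F.mkRel g fun i y => om (h l i) y) hG hGgen (F.mkRel g fun i y => om (a i) y)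
    (fun x hx => EMod.mkRel_at (hdom x hx) (fun i => hg i x hx) (fun i => C.at_gm (ha i x hx))
      (h0 x hx))
  refine ⟨Co, hC, fun x hx i => ?_⟩
  have h1 := congrArg (fun m => F.relVal g x m i) (hCe x hx)
  rw [EMod.mkRel_val (h0 x hx)] at h1
  refine h1.trans ?_
  have e0 : F.relVal g x (∑ l, om (Co l) x • F.mkRel g (fun i y => om (h l i) y) x) =
      ∑ l, F.relVal g x (om (Co l) x • F.mkRel g (fun i y => om (h l i) y) x) := map_sum _ _ _
  rw [e0, Finset.sum_apply]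
  refine Finset.sum_congr rfl fun l _ => ?_
  refine (C.relVal_smul F g x (om (Co l) x) _ i).trans ?_
  rw [EMod.mkRel_val (hz l x hx)]

end Pool.Agent.DQ
end

section

/-! Campaign DQ, module S, file SKillA: a function which kills a coherent sheaf over a fibre disc. -/

set_option autoImplicit false

open Set Filter Topology

universe u v w

namespace Pool.Agent.DQ

variable {V : Type u} [NormedAddCommGroup V] [NormedSpace ℂ V]
  {V' : Type u} [NormedAddCommGroup V'] [NormedSpace ℂ V'] [FiniteDimensional ℂ V']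

/-- A function killing one section, nonzero at a point where the stalk vanishes.

Proof. `exists_disc_box` and `relgen_fib` with `p = 1` and the single section `g`: functions `h l` near `K` with `om (h l) x • g x = 0`
on `K` and generating the relations. At `x_b ∈ K` the stalk is zero, so `F.rel (fun _ => g) x_b = ⊤`, so the constant family `1` is
`∑ c l • om (h l) x_b`; evaluate (`C.evg`): `1 = ∑ evg (c l) * h l x_b`, so some `h l x_b ≠ 0`. -/
theorem exists_kill_one (F : EMod.{u, u, w} (O V)) (e : V ≃L[ℂ] V' × ℂ) (c : ℂ) {R : ℝ} (t : V')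
    (hcoh : F.Coh (fib e (Metric.closedBall c R) t)) {xb : V} (hxb : xb ∈ fib e (Metric.closedBall c R) t)
    (h0 : Subsingleton (F.St xb)) {g : (x : V) → F.St x} (hg : F.On g (fib e (Metric.closedBall c R) t)) :
    ∃ h : V → ℂ, HolNear h (fib e (Metric.closedBall c R) t) ∧ h xb ≠ 0 ∧
      ∀ x ∈ fib e (Metric.closedBall c R) t, om h x • g x = 0 := by
  obtain ⟨κ, hκ⟩ := exists_disc_box c R
  rw [← hκ] at hcoh hxb hg ⊢
  obtain ⟨q, h, hh, hrel⟩ := relgen_fib F e κ (fun _ => c) (fun _ => -1) (fun _ => R) t hcoh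
    (fun _ : Fin 1 => g) (fun _ => hg)
  have h1 : (fun _ : Fin 1 => (1 : (O V).St xb)) ∈ F.rel (fun _ : Fin 1 => g) xb := by
    change ∑ i : Fin 1, (1 : (O V).St xb) • g xb = 0
    exact Subsingleton.elim _ _
  rw [hrel xb hxb] at h1
  obtain ⟨a, ha⟩ := mem_span_fam.mp h1
  have h2 : (1 : (O V).St xb) = ∑ l, a l * om (h l 0) xb := by
    have h3 := congrFun ha 0
    rw [Finset.sum_apply] at h3
    exact h3
  have h4 : (1 : ℂ) = ∑ l, C.evg xb (a l) * h l 0 xb := by
    have h5 := congrArg (C.evg xb) (show (1 : OGerm xb) = ∑ l, (show OGerm xb from a l) * gm (h l 0) xb from h2)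
    rw [map_one, map_sum] at h5
    rw [h5]
    refine Finset.sum_congr rfl fun l _ => ?_
    rw [map_mul, C.evg_gm (hh l 0 xb hxb)]
  obtain ⟨l, hl⟩ : ∃ l, h l 0 xb ≠ 0 := by
    by_contra hcon
    push Not at hcon
    rw [Finset.sum_eq_zero fun l _ => by rw [hcon l, mul_zero]] at h4
    exact one_ne_zero h4
  refine ⟨h l 0, hh l 0, hl, fun x hx => ?_⟩
  have h6 : (fun i => om (h l i) x) ∈ F.rel (fun _ : Fin 1 => g) x := by
    rw [hrel x hx]
    exact Submodule.subset_span ⟨l, rfl⟩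
  have h7 : ∑ i : Fin 1, om (h l i) x • g x = 0 := h6
  rwa [Fin.sum_univ_one] at h7

private theorem SKillA_prod {ι : Type*} {f : ι → V → ℂ} {x : V} (s : Finset ι)
    (hf : ∀ i ∈ s, HolAt (f i) x) : HolAt (fun y => ∏ i ∈ s, f i y) x := by
  classical
  induction s using Finset.induction_on with
  | empty => simpa using HolAt.const (1 : ℂ) x
  | insert a s ha ih =>
    simp only [Finset.prod_insert ha]
    exact (hf a (Finset.mem_insert_self _ _)).mul
      (ih fun i hi => hf i (Finset.mem_insert_of_mem hi))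

/-- **A function killing the sheaf.**

Proof. Generators `g i` over `K` (`cartanA_fib`, `exists_disc_box`); `h i` from `exists_kill_one`; `h := ∏ i, h i`. On `K` it kills every `g i`
(`om h x = (∏_{j ≠ i} ..) * om (h i) x`), hence near `K` (`F.inj`: `om h y • g i y` and `0` are sections which agree at `x`), and
`gen_nearS`: for `t'` near `t` the `g i` generate all stalks over the fibre of `t'`, so `om h x` kills `F.St x`
(`Submodule.span_induction`, or `h • : F.St x →ₗ F.St x` is zero on generators). -/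
theorem exists_kill (F : EMod.{u, u, w} (O V)) (e : V ≃L[ℂ] V' × ℂ) (c : ℂ) {R : ℝ} (t : V')
    (hcoh : F.Coh (fib e (Metric.closedBall c R) t)) {xb : V} (hxb : xb ∈ fib e (Metric.closedBall c R) t)
    (h0 : Subsingleton (F.St xb)) :
    ∃ h : V → ℂ, HolNear h (fib e (Metric.closedBall c R) t) ∧ h xb ≠ 0 ∧
      ∀ᶠ t' in 𝓝 t, ∀ x ∈ fib e (Metric.closedBall c R) t', ∀ m : F.St x, om h x • m = 0 := by
  classical
  obtain ⟨κ, hκ⟩ := exists_disc_box c R
  have hA := cartanA_fib F e κ (fun _ => c) (fun _ => -1) (fun _ => R) t (by rw [hκ]; exact hcoh)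
  rw [hκ] at hA
  obtain ⟨p, g, hg, hgen⟩ := hA
  choose h hh hhxb hkill using fun i => exists_kill_one F e c t hcoh hxb h0 (hg i)
  have hH : HolNear (fun y => ∏ i, h i y) (fib e (Metric.closedBall c R) t) := fun x hx =>
    SKillA_prod Finset.univ fun i _ => hh i x hx
  refine ⟨fun y => ∏ i, h i y, hH, ?_, ?_⟩
  · exact Finset.prod_ne_zero_iff.mpr fun i _ => hhxb i
  · have h1 : ∀ x ∈ fib e (Metric.closedBall c R) t, ∀ i,
        om (fun y => ∏ i, h i y) x • g i x = 0 := by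
      intro x hx i
      have h2 : HolAt (fun y => ∏ j ∈ Finset.univ.erase i, h j y) x :=
        SKillA_prod _ fun j _ => hh j x hx
      have h3 : (fun y => ∏ i, h i y) = (fun y => ∏ j ∈ Finset.univ.erase i, h j y) * h i := by
        funext y
        rw [Pi.mul_apply]
        exact (Finset.prod_erase_mul _ _ (Finset.mem_univ i)).symm
      have h4 : om (fun y => ∏ i, h i y) x =
          om (fun y => ∏ j ∈ Finset.univ.erase i, h j y) x * om (h i) x := by
        rw [h3]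
        exact gm_mul h2 (hh i x hx)
      rw [h4, mul_smul, hkill i x hx, smul_zero]
    have h5 := fib_tube e (isCompact_closedBall c R) (t := t)
      (P := fun y => ∀ i, om (fun y => ∏ i, h i y) y • g i y = 0) (by
      intro x hx
      refine eventually_all.mpr fun i => ?_
      exact F.inj (F.smul (O_at_gm (hH x hx)) (hg i x hx)) (F.zero x (F.mem_dom (hg i x hx)))
        (h1 x hx i))
    have h6 := gen_nearS F e (isCompact_closedBall c R) hcoh hg hgen
    filter_upwards [h5, h6] with t' h7 h8 x hx m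
    have h9 : m ∈ Submodule.span ((O V).St x) (Set.range fun i => g i x) := by
      rw [h8.2.2 x hx]
      exact Submodule.mem_top
    induction h9 using Submodule.span_induction with
    | mem y hy =>
      obtain ⟨i, rfl⟩ := hy
      exact h7 x hx i
    | zero => rw [smul_zero]
    | add y z _ _ hy hz => rw [smul_add, hy, hz, add_zero]
    | smul a y _ hy =>
      have h10 : om (fun y => ∏ i, h i y) x • a • y = a • om (fun y => ∏ i, h i y) x • y := by
        rw [smul_smul, smul_smul]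
        congr 1
        exact mul_comm (show OGerm x from gm (fun y => ∏ i, h i y) x) (show OGerm x from a)
      rw [h10, hy, smul_zero]

end Pool.Agent.DQ
end

section

/-! Campaign DQ, module S, file SKill: a monic polynomial which kills a sheaf with finite support in the fibre direction. -/

set_option autoImplicit false

open Set Filter Topology

universe u v w

namespace Pool.Agent.DQ

variable {V : Type u} [NormedAddCommGroup V] [NormedSpace ℂ V]
  {V' : Type u} [NormedAddCommGroup V'] [NormedSpace ℂ V'] [FiniteDimensional ℂ V']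

private theorem SKill_mon {V : Type u} [NormedAddCommGroup V] [NormedSpace ℂ V]
    {V' : Type u} [NormedAddCommGroup V'] [NormedSpace ℂ V'] (e : V ≃L[ℂ] V' × ℂ) {k : ℕ} {a : Fin k → V' → ℂ} {x : V}
    (ha : ∀ j, HolAt (a j) (e x).1) : HolAt (fun y => mon a (e y).1 (e y).2) x := by
  unfold mon
  have hp : ∀ n : ℕ, HolAt (fun y : V => (e y).2 ^ n) x := fun n => Eventually.of_forall fun y => by
    have h1 : DifferentiableAt ℂ (fun y : V => (e y).2) y :=
      ((ContinuousLinearMap.snd ℂ V' ℂ).comp (e : V →L[ℂ] V' × ℂ)).differentiableAt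
    exact h1.fun_pow n
  exact (hp k).add (HolAt.sum _ fun j _ => ((ha j).comp_fst e rfl).mul (hp j))

/-- **Main result of the file.**

Proof. `xb := e.symm (t, c + R)`; `exists_kill` gives `h`, `exists_zero_collar` gives `r0`, `exists_annulus` for
`g v := h (e.symm (t, v))`, `vb := c + R`, gives `r1 < r2`. `wprep` (radii `r1 < r2`, `f q := h (e.symm q)`, holomorphic near
`{t} ×ˢ closedBall c r2`): `h (e.symm (t', v)) = u (t', v) * mon a t' v`, `u ≠ 0`, roots in `‖v - c‖ < r1`. Put `ρ := r1`. For `t'` near `t` and `x` in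
the fibre over `t'`: if `ρ ≤ ‖(e x).2 - c‖` the stalk is zero. Otherwise `‖(e x).2 - c‖ < r1 < r2`, so near `x`
`h y = u (e y) * mon a (e y).1 (e y).2` and `u ∘ e` is holomorphic and nonzero near `x`; `om (u ∘ e) x` is a unit (`C.isUnit_of_evg`), and
`om h x • m = 0` gives `om (mon ..) x • m = 0` (`gm_mul`, `gm_eq_iff`; `IsUnit.smul_eq_zero`). -/
theorem exists_mon_kill (F : EMod.{u, u, w} (O V)) (e : V ≃L[ℂ] V' × ℂ) (c : ℂ) {R : ℝ} (hR : 0 < R)
    (t : V') (hcoh : F.Coh (fib e (Metric.closedBall c R) t))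
    (hzero : ∀ x ∈ fib e (Metric.closedBall c R) t, ‖(e x).2 - c‖ = R → Subsingleton (F.St x)) :
    ∃ (ρ : ℝ) (k : ℕ) (a : Fin k → V' → ℂ), 0 < ρ ∧ ρ < R ∧ (∀ j, HolAt (a j) t) ∧
      ∀ᶠ t' in 𝓝 t, (∀ v, mon a t' v = 0 → ‖v - c‖ < ρ) ∧ ∀ x ∈ fib e (Metric.closedBall c R) t',
        (ρ ≤ ‖(e x).2 - c‖ → Subsingleton (F.St x)) ∧
        ∀ m : F.St x, om (fun y => mon a (e y).1 (e y).2) x • m = 0 := by
  have hmem : ∀ v ∈ Metric.closedBall c R, e.symm (t, v) ∈ fib e (Metric.closedBall c R) t := by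
    intro v hv
    refine ⟨?_, ?_⟩
    · rw [e.apply_symm_apply]
    · rw [e.apply_symm_apply]
      exact hv
  have hn : ‖(c + (R : ℂ)) - c‖ = R := by
    rw [add_sub_cancel_left, Complex.norm_real, Real.norm_eq_abs, abs_of_pos hR]
  have hvb : c + (R : ℂ) ∈ Metric.closedBall c R := by
    rw [Metric.mem_closedBall, dist_eq_norm, hn]
  have hxb := hmem _ hvb
  have h0 : Subsingleton (F.St (e.symm (t, c + (R : ℂ)))) := by
    refine hzero _ hxb ?_
    rw [e.apply_symm_apply]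
    exact hn
  obtain ⟨h, hh, hne, hkill⟩ := exists_kill F e c t hcoh hxb h0
  obtain ⟨r0, hr0, hr0R, hcol⟩ := exists_zero_collar F e c hR t hcoh hzero
  have hsymm : ∀ q : V' × ℂ, DifferentiableAt ℂ (fun q : V' × ℂ => e.symm q) q := fun q =>
    (e.symm : V' × ℂ →L[ℂ] V).differentiableAt
  have hg : HolNear (fun v => h (e.symm (t, v))) (Metric.closedBall c R) := by
    intro v hv
    refine HolAt.comp (f := h) (g := fun w : ℂ => e.symm (t, w)) (hh _ (hmem v hv)) (Eventually.of_forall fun w => ?_)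
    exact (e.symm : V' × ℂ →L[ℂ] V).differentiableAt.comp w
      ((differentiableAt_const t).prodMk differentiableAt_id)
  obtain ⟨r1, r2, hr01, hr12, hr2R, hann⟩ := exists_annulus hr0R hg hvb hne
  have hr1 : 0 < r1 := hr0.trans hr01
  have hsub : Metric.closedBall c r2 ⊆ Metric.closedBall c R := Metric.closedBall_subset_closedBall hr2R.le
  have hf : HolNear (fun q : V' × ℂ => h (e.symm q)) ({t} ×ˢ Metric.closedBall c r2) := by
    rintro ⟨t', v⟩ ⟨ht', hv⟩
    have ht'' : t' = t := ht'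
    rw [ht'']
    exact HolAt.comp (f := h) (g := fun q : V' × ℂ => e.symm q) (hh _ (hmem v (hsub hv)))
      (Eventually.of_forall hsymm)
  obtain ⟨S, k, a, u, hSo, hSt, ha, hroot, hu, hfu⟩ := wprep hr1 hr12 hf hann
  refine ⟨r1, k, a, hr1, hr12.trans hr2R, fun j => ha j t hSt, ?_⟩
  filter_upwards [hSo.mem_nhds hSt, hkill, hcol] with t' ht' hk' hc'
  refine ⟨hroot t' ht', fun x hx => ⟨fun hxr => hc' x hx (hr01.le.trans hxr), fun m => ?_⟩⟩
  rcases le_or_gt r1 ‖(e x).2 - c‖ with hxr | hxr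
  · have := hc' x hx (hr01.le.trans hxr)
    exact Subsingleton.elim _ _
  · have hx1 : (e x).1 ∈ S := by
      rw [hx.1]
      exact ht'
    have hx2 : (e x).2 ∈ Metric.closedBall c r2 := by
      rw [Metric.mem_closedBall, dist_eq_norm]
      exact (hxr.trans hr12).le
    have huH : HolAt (fun y => u (e y)) x :=
      HolAt.comp (f := u) (g := fun y : V => e y) (hu _ ⟨hx1, hx2⟩)
        (Eventually.of_forall fun y => (e : V →L[ℂ] V' × ℂ).differentiableAt)
    have hmH : HolAt (fun y => mon a (e y).1 (e y).2) x := SKill_mon e fun j => ha j _ hx1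
    have hux : u (e x) ≠ 0 := (hfu _ hx1 _ hx2).1
    have hopen : ∀ᶠ y in 𝓝 x, (e y).1 ∈ S ∧ ‖(e y).2 - c‖ < r2 := by
      have c1 : Continuous fun y : V => (e y).1 := continuous_fst.comp e.continuous
      have c2 : Continuous fun y : V => ‖(e y).2 - c‖ :=
        ((continuous_snd.comp e.continuous).sub continuous_const).norm
      exact (c1.continuousAt.eventually (hSo.mem_nhds hx1)).and
        (c2.continuousAt.eventually (gt_mem_nhds (hxr.trans hr12)))
    have heq : ((fun y => u (e y)) * fun y => mon a (e y).1 (e y).2) =ᶠ[𝓝 x] h := by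
      filter_upwards [hopen] with y hy
      have h3 := (hfu (e y).1 hy.1 (e y).2 (by
        rw [Metric.mem_closedBall, dist_eq_norm]
        exact hy.2.le)).2
      have h4 : ((e y).1, (e y).2) = e y := rfl
      rw [h4] at h3
      rw [e.symm_apply_apply] at h3
      exact h3.symm
    have hmul : gm h x = gm (fun y => u (e y)) x * gm (fun y => mon a (e y).1 (e y).2) x := by
      rw [← gm_mul huH hmH]
      exact (C.gm_congr (huH.mul hmH) heq).symm
    have hunit : IsUnit (gm (fun y => u (e y)) x) := by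
      refine C.isUnit_of_evg ?_
      rw [C.evg_gm huH]
      exact hux
    have hkm : om h x • m = 0 := hk' x hx m
    have hunit' : IsUnit (om (fun y => u (e y)) x : (O V).St x) := hunit
    have hmul' : (om h x : (O V).St x) = om (fun y => u (e y)) x * om (fun y => mon a (e y).1 (e y).2) x := hmul
    rw [hmul', mul_smul] at hkm
    exact hunit'.smul_eq_zero.mp hkm

end Pool.Agent.DQ
end

section

/-! Campaign DQ, module S, file SDD: the data over a point of the base used for the direct image along a disc. -/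

set_option autoImplicit false

open Set Filter Topology

universe u v w

namespace Pool.Agent.DQ

variable {V : Type u} [NormedAddCommGroup V] [NormedSpace ℂ V]
  {V' : Type u} [NormedAddCommGroup V'] [NormedSpace ℂ V']

/-- The data at the point `t` of the base. -/
structure DD (F : EMod.{u, u, w} (O V)) (e : V ≃L[ℂ] V' × ℂ) (c : ℂ) (ρ R : ℝ) {k p q : ℕ} (a : Fin k → V' → ℂ)
    (g : Fin p → (x : V) → F.St x) (h : Fin q → Fin p → V → ℂ) (t : V') : Prop where
  ha : ∀ j, HolAt (a j) t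
  root : ∀ v, mon a t v = 0 → ‖v - c‖ < ρ
  coh : F.Coh (fib e (Metric.closedBall c R) t)
  hg : ∀ i, F.On (g i) (fib e (Metric.closedBall c R) t)
  gen : F.Gen g (fib e (Metric.closedBall c R) t)
  rel : RelOn F g h (fib e (Metric.closedBall c R) t)
  zero : ∀ x ∈ fib e (Metric.closedBall c R) t, ρ ≤ ‖(e x).2 - c‖ → Subsingleton (F.St x)
  kill : ∀ x ∈ fib e (Metric.closedBall c R) t, ∀ m : F.St x, om (fun y => mon a (e y).1 (e y).2) x • m = 0

private theorem SDD_snd (e : V ≃L[ℂ] V' × ℂ) (m : ℕ) (x : V) : HolAt (fun z => (e z).2 ^ m) x := by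
  refine Eventually.of_forall fun z => ?_
  have h1 : DifferentiableAt ℂ (fun z => (e z).2) z :=
    ((ContinuousLinearMap.snd ℂ V' ℂ).comp (e : V →L[ℂ] V' × ℂ)).differentiableAt
  exact h1.pow m

private theorem SDD_mon (e : V ≃L[ℂ] V' × ℂ) {k : ℕ} {a : Fin k → V' → ℂ} {x : V} (ha : ∀ j, HolAt (a j) (e x).1) :
    HolAt (fun y => mon a (e y).1 (e y).2) x := by
  unfold mon
  exact (SDD_snd e k x).add (HolAt.sum _ fun j _ => ((ha j).comp_fst e rfl).mul (SDD_snd e j x))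

/-- the generator `v ^ m * g i` -/
noncomputable def GG (F : EMod.{u, u, w} (O V)) (e : V ≃L[ℂ] V' × ℂ) {k p : ℕ} (g : Fin p → (x : V) → F.St x)
    (x : Fin p × Fin k) (y : V) : F.St y := om (fun z => (e z).2 ^ (x.2 : ℕ)) y • g x.1 y

/-- Proof. `F.smul` with the section `om (fun z => (e z).2 ^ m)` of the structure sheaf (the function is entire). -/
theorem GG_on {F : EMod.{u, u, w} (O V)} {e : V ≃L[ℂ] V' × ℂ} {k p : ℕ} {g : Fin p → (x : V) → F.St x} {K : Set V}
    (hg : ∀ i, F.On (g i) K) (x : Fin p × Fin k) : F.On (GG F e g x) K := by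
  intro y hy
  exact F.smul (O_at_gm (SDD_snd e x.2 y)) (hg x.1 y hy)

/-- **Existence of the data.**

Proof. `exists_mon_kill`: `ρ`, `k`, `a`; `cartanA_fib` (with `exists_disc_box`): `g`; `relgen_fib`: `h`; `gen_nearS`, `rel_nearS` make the properties
hold for all `t'` near `t` (`HolAt.eventually` for `a`). -/
theorem exists_DD [FiniteDimensional ℂ V'] (F : EMod.{u, u, w} (O V)) (e : V ≃L[ℂ] V' × ℂ) (c : ℂ) {R : ℝ} (hR : 0 < R)
    (t : V') (hcoh : F.Coh (fib e (Metric.closedBall c R) t))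
    (hzero : ∀ x ∈ fib e (Metric.closedBall c R) t, ‖(e x).2 - c‖ = R → Subsingleton (F.St x)) :
    ∃ (ρ : ℝ) (k p q : ℕ) (a : Fin k → V' → ℂ) (g : Fin p → (x : V) → F.St x) (h : Fin q → Fin p → V → ℂ),
      0 < ρ ∧ ρ < R ∧ ∀ᶠ t' in 𝓝 t, DD F e c ρ R a g h t' := by
  obtain ⟨ρ, k, a, hρ, hρR, ha, hk⟩ := exists_mon_kill F e c hR t hcoh hzero
  obtain ⟨κ, hκ⟩ := exists_disc_box c R
  have hcoh' : F.Coh (fib e (cbox κ (fun _ => c) (fun _ => -1) (fun _ => R)) t) := by rw [hκ]; exact hcoh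
  obtain ⟨p, g, hg, hgen⟩ := cartanA_fib F e κ _ _ _ t hcoh'
  obtain ⟨q, h, hrel⟩ := relgen_fib F e κ _ _ _ t hcoh' g hg
  rw [hκ] at hg hgen hrel
  refine ⟨ρ, k, p, q, a, g, h, hρ, hρR, ?_⟩
  have h1 := gen_nearS F e (isCompact_closedBall c R) hcoh hg hgen
  have h2 := rel_nearS F e (isCompact_closedBall c R) hcoh hg hrel
  have h3 : ∀ᶠ t' in 𝓝 t, ∀ j, HolAt (a j) t' := eventually_all.mpr fun j => (ha j).eventually
  filter_upwards [hk, h1, h2, h3] with t' k1 k2 k3 k4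
  exact ⟨k4, k1.1, k2.1, k2.2.1, k2.2.2, k3, fun x hx => (k1.2 x hx).1, fun x hx => (k1.2 x hx).2⟩

/-- **The remainders of the relations.**

Proof. For every `y = (l, j)` and `i` apply `div_fib` to `f := fun x => (e x).2 ^ j * h l i x`: `Q y i`, and coefficients `E y (i, m)`, `m < k`.
Finitely many, `eventually_all`. -/
theorem exists_rem {F : EMod.{u, u, w} (O V)} {e : V ≃L[ℂ] V' × ℂ} {c : ℂ} {ρ R : ℝ} (hρR : ρ < R) {k p q : ℕ}
    {a : Fin k → V' → ℂ} {g : Fin p → (x : V) → F.St x} {h : Fin q → Fin p → V → ℂ} {t : V'}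
    (hD : ∀ᶠ t' in 𝓝 t, DD F e c ρ R a g h t') :
    ∃ (E : Fin q × Fin k → Fin p × Fin k → V' → ℂ) (Q : Fin q × Fin k → Fin p → V → ℂ), (∀ y x, HolAt (E y x) t) ∧
      ∀ᶠ t' in 𝓝 t, ∀ (y : Fin q × Fin k) (i : Fin p), HolNear (Q y i) (fib e (Metric.ball c R) t') ∧
        ∀ x ∈ fib e (Metric.ball c R) t', (e x).2 ^ (y.2 : ℕ) * h y.1 i x =
          Q y i x * mon a (e x).1 (e x).2 + ∑ m : Fin k, E y (i, m) (e x).1 * (e x).2 ^ (m : ℕ) := by
  have hD0 := hD.self_of_nhds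
  have hroot : ∀ᶠ t' in 𝓝 t, ∀ v, mon a t' v = 0 → ‖v - c‖ < ρ := hD.mono fun t' h' => h'.root
  have h1 : ∀ (y : Fin q × Fin k) (i : Fin p), HolNear (fun x => (e x).2 ^ (y.2 : ℕ) * h y.1 i x)
      (fib e (Metric.closedBall c R) t) := fun y i x hx =>
    (SDD_snd e y.2 x).mul (hD0.rel.1 y.1 i x hx)
  choose Q b hb hQ using fun (y : Fin q × Fin k) (i : Fin p) => div_fib e hρR hD0.ha hroot (h1 y i)
  refine ⟨fun y z => b y z.1 z.2, Q, fun y z => hb y z.1 z.2, ?_⟩
  rw [eventually_all]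
  intro y
  rw [eventually_all]
  intro i
  exact hQ y i

/-- Combinations of the generators at a point of the fibre: if `A i = Q i * mon + ∑ m, b (i, m) * v ^ m` near `x` then
`∑ i, om (A i) x • g i x = ∑ (i, m), om (b (i, m) ∘ pr) x • GG (i, m) x`, because `mon` kills.

Proof. `gm_eq_iff`/`C.gm_congr`: `om (A i) x = om (Q i) x * om (mon) x + ∑ m, om (b (i, m) ∘ pr) x * om (v ^ m) x` (`gm_add`, `gm_mul`, `C.gm_sum`);
`add_smul`, `mul_smul`, `kill`; `Fintype.sum_prod_type`. -/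
theorem comb_eq {F : EMod.{u, u, w} (O V)} {e : V ≃L[ℂ] V' × ℂ} {k p : ℕ} {a : Fin k → V' → ℂ}
    {g : Fin p → (x : V) → F.St x} {x : V} (ha : ∀ j, HolAt (a j) (e x).1)
    (kill : ∀ m : F.St x, om (fun y => mon a (e y).1 (e y).2) x • m = 0) {A Q : Fin p → V → ℂ}
    {b : Fin p × Fin k → V' → ℂ} (hQ : ∀ i, HolAt (Q i) x) (hb : ∀ i, HolAt (b i) (e x).1)
    (h : ∀ i, ∀ᶠ y in 𝓝 x, A i y = Q i y * mon a (e y).1 (e y).2 + ∑ m : Fin k, b (i, m) (e y).1 * (e y).2 ^ (m : ℕ)) :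
    ∑ i, om (A i) x • g i x = ∑ z, om (fun y => b z (e y).1) x • GG F e g z x := by
  have hmon : HolAt (fun y => mon a (e y).1 (e y).2) x := SDD_mon e ha
  have hbm : ∀ z : Fin p × Fin k, HolAt (fun y => b z (e y).1) x := fun z => (hb z).comp_fst e rfl
  have hA : ∀ i, gm (A i) x = gm (Q i) x * gm (fun y => mon a (e y).1 (e y).2) x +
      ∑ m : Fin k, gm (fun y => b (i, m) (e y).1) x * gm (fun y => (e y).2 ^ (m : ℕ)) x := by
    intro i
    have e1 : HolAt (fun y => Q i y * mon a (e y).1 (e y).2) x := (hQ i).mul hmon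
    have e2 : ∀ m : Fin k, HolAt (fun y => b (i, m) (e y).1 * (e y).2 ^ (m : ℕ)) x := fun m =>
      (hbm (i, m)).mul (SDD_snd e m x)
    have e3 : HolAt (fun y => ∑ m : Fin k, b (i, m) (e y).1 * (e y).2 ^ (m : ℕ)) x :=
      HolAt.sum _ fun m _ => e2 m
    have e4 : gm (A i) x = gm ((fun y => Q i y * mon a (e y).1 (e y).2) +
        fun y => ∑ m : Fin k, b (i, m) (e y).1 * (e y).2 ^ (m : ℕ)) x := by
      symm
      refine C.gm_congr (e1.add e3) ?_
      filter_upwards [h i] with y hy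
      rw [hy]
      rfl
    rw [e4, gm_add e1 e3, C.gm_sum _ fun m _ => e2 m]
    congr 1
    · exact gm_mul (hQ i) hmon
    · refine Finset.sum_congr rfl fun m _ => ?_
      exact gm_mul (hbm (i, m)) (SDD_snd e m x)
  rw [Fintype.sum_prod_type]
  refine Finset.sum_congr rfl fun i _ => ?_
  have hA' : om (A i) x = om (Q i) x * om (fun y => mon a (e y).1 (e y).2) x +
      ∑ m : Fin k, om (fun y => b (i, m) (e y).1) x * om (fun y => (e y).2 ^ (m : ℕ)) x := hA i
  rw [hA', add_smul, mul_smul, kill, smul_zero, zero_add, Finset.sum_smul]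
  refine Finset.sum_congr rfl fun m _ => ?_
  rw [mul_smul]
  rfl

end Pool.Agent.DQ
end
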