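import Mathlib
import Pool.Agent.DQ.Mg_MP_4aa2a9_ag.G003
import Pool.Agent.DQ.Mg_MP_4aa2a9_ag.G001
import Pool.Agent.Lib.MP_4aa2a9_ag.Mg.G006
import Pool.Agent.Lib.MP_4aa2a9_ag.Mg.G008
import Pool.Agent.Lib.MP_4aa2a9_ag.Mg.G001
import Pool.Agent.Lib.MP_4aa2a9_ag.Mg.G017
import Pool.Agent.Lib.MP_4aa2a9_ag.Mg.G003
import Pool.Agent.Lib.MP_4aa2a9_ag.Mg.G012
import Pool.Agent.Lib.MP_4aa2a9_ag.Mg.G011

section

/-! # Riemann extension -/

set_option autoImplicit false

open Set Filter Topology Metric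

namespace Pool.Agent.DQ.X

variable {T : Type*} [NormedAddCommGroup T] [NormedSpace ℂ T]

/-- PROOF. Otherwise a point of the ball has a neighbourhood on which `δ = 0`; the identity theorem
`DQ.F.eqOn_ball` gives `δ = 0` on the ball. -/
theorem dense_ne {t₀ : T} {ε : ℝ} {δ : T → ℂ} (hδ : DifferentiableOn ℂ δ (ball t₀ ε))
    (hne : ∃ t ∈ ball t₀ ε, δ t ≠ 0) :
    ball t₀ ε ⊆ closure {t | t ∈ ball t₀ ε ∧ δ t ≠ 0} := by
  intro x hx
  rw [mem_closure_iff_nhds]
  intro V hV
  by_contra hcon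
  rw [not_nonempty_iff_eq_empty] at hcon
  have h1 : δ =ᶠ[𝓝 x] fun _ => (0 : ℂ) := by
    filter_upwards [hV, isOpen_ball.mem_nhds hx] with y hy hyb
    by_contra hne0
    have h2 : y ∈ V ∩ {t | t ∈ ball t₀ ε ∧ δ t ≠ 0} := ⟨hy, hyb, hne0⟩
    rw [hcon] at h2
    exact h2
  obtain ⟨t, ht, htne⟩ := hne
  exact htne (DQ.F.eqOn_ball hδ (differentiableOn_const _) hx h1 ht)

/-- One variable: division of holomorphic functions.
PROOF. Let `h x = limUnder (𝓝[≠] x) (fun y => g y / φ y)`. Let `x ∈ ball 0 b`. `φ` is not zero on a punctured neighbourhood of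
`x` (`AnalyticAt.eventually_eq_zero_or_eventually_ne_zero` and the identity theorem on the convex set `ball 0 b`), there `g / φ` is
differentiable and bounded by `M`, so (`Complex.differentiableOn_update_limUnder_of_bddAbove`) the function
`Function.update (g / φ) x (h x)` is differentiable near `x`. For `y ≠ x` near `x` we have `φ y ≠ 0`, `g / φ` is continuous at `y`
and `h y = g y / φ y` (`Tendsto.limUnder_eq`). So `h` is near `x` the updated function, hence differentiable at `x`. `g x = h x * φ x`: clear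
if `φ x ≠ 0`, and if `φ x = 0` then `‖g x‖ ≤ M * 0`. -/
theorem div_one {b M : ℝ} {g φ : ℂ → ℂ} (hg : DifferentiableOn ℂ g (ball 0 b))
    (hφ : DifferentiableOn ℂ φ (ball 0 b)) (hne : ∃ x ∈ ball (0 : ℂ) b, φ x ≠ 0)
    (hM : ∀ x ∈ ball (0 : ℂ) b, ‖g x‖ ≤ M * ‖φ x‖) :
    ∃ h : ℂ → ℂ, DifferentiableOn ℂ h (ball 0 b) ∧ ∀ x ∈ ball (0 : ℂ) b, g x = h x * φ x := by
  set ψ : ℂ → ℂ := fun y => g y / φ y with hψ
  have hval : ∀ y ∈ ball (0 : ℂ) b, φ y ≠ 0 → limUnder (𝓝[≠] y) ψ = ψ y := by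
    intro y hy hφy
    have h1 : ContinuousAt ψ y := by
      refine ContinuousAt.div ?_ ?_ hφy
      · exact (hg.differentiableAt (isOpen_ball.mem_nhds hy)).continuousAt
      · exact (hφ.differentiableAt (isOpen_ball.mem_nhds hy)).continuousAt
    exact Tendsto.limUnder_eq (h1.tendsto.mono_left nhdsWithin_le_nhds)
  refine ⟨fun x => limUnder (𝓝[≠] x) ψ, ?_, ?_⟩
  · intro x hx
    have hiso : ∀ᶠ z in 𝓝[≠] x, φ z ≠ 0 := by
      have h2 : AnalyticAt ℂ φ x := hφ.analyticAt (isOpen_ball.mem_nhds hx)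
      rcases h2.eventually_eq_zero_or_eventually_ne_zero with h3 | h3
      · exfalso
        obtain ⟨y, hy, hyne⟩ := hne
        exact hyne (DQ.F.eqOn_ball hφ (differentiableOn_const (0 : ℂ)) hx h3 hy)
      · exact h3
    rw [eventually_nhdsWithin_iff] at hiso
    obtain ⟨V, hV, hVo, hxV⟩ := _root_.eventually_nhds_iff.mp (hiso.and (isOpen_ball.mem_nhds hx))
    have hVd : DifferentiableOn ℂ ψ (V \ {x}) := by
      intro y hy
      obtain ⟨h4, h5⟩ := hV y hy.1
      refine DifferentiableAt.differentiableWithinAt ?_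
      refine DifferentiableAt.div ?_ ?_ (h4 hy.2)
      · exact hg.differentiableAt (isOpen_ball.mem_nhds h5)
      · exact hφ.differentiableAt (isOpen_ball.mem_nhds h5)
    have hVb : BddAbove (norm ∘ ψ '' (V \ {x})) := by
      refine ⟨M, ?_⟩
      rintro _ ⟨y, hy, rfl⟩
      obtain ⟨h4, h5⟩ := hV y hy.1
      have h6 : 0 < ‖φ y‖ := norm_pos_iff.mpr (h4 hy.2)
      change ‖g y / φ y‖ ≤ M
      rw [norm_div, div_le_iff₀ h6]
      exact hM y h5
    have h7 := Complex.differentiableOn_update_limUnder_of_bddAbove (hVo.mem_nhds hxV) hVd hVb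
    have h8 := h7.differentiableAt (hVo.mem_nhds hxV)
    refine DifferentiableAt.differentiableWithinAt (h8.congr_of_eventuallyEq ?_)
    filter_upwards [hVo.mem_nhds hxV] with y hy
    by_cases hyx : y = x
    · rw [hyx, Function.update_self]
    · rw [Function.update_of_ne hyx]
      obtain ⟨h4, h5⟩ := hV y hy
      exact hval y h5 (h4 hyx)
  · intro x hx
    by_cases hφx : φ x = 0
    · have h1 := hM x hx
      rw [hφx, norm_zero, mul_zero] at h1
      rw [hφx, mul_zero]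
      exact norm_le_zero_iff.mp h1
    · change g x = limUnder (𝓝[≠] x) ψ * φ x
      rw [hval x hx hφx, hψ]
      change g x = g x / φ x * φ x
      rw [div_mul_cancel₀ _ hφx]

/-- Riemann extension of `c / δ` near the centre.
PROOF. If `δ t₀ ≠ 0` then `δ ≠ 0` near `t₀` and `χ = c / δ` will do. Otherwise let `t₁` be in the ball with `δ t₁ ≠ 0` and
`e = t₁ - t₀ ≠ 0`, `‖e‖ < ε`. The function `φ x = δ (t₀ + x • e)` is differentiable on `ball 0 (ε / ‖e‖)`, which contains `1`, and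
`φ 1 ≠ 0`; so `0` is an isolated zero of it (identity theorem) and there is `s > 0`, `s * ‖e‖ < ε / 2`, with `φ x ≠ 0` for
`0 < ‖x‖ ≤ 2 s`. By compactness of the annulus `{s / 2 ≤ ‖x‖ ≤ 2 s}` (`generalized_tube_lemma` or
`IsCompact.eventually_forall_of_forall_eventually`) there is `ε'` with `δ (t + x • e) ≠ 0` for `t ∈ ball t₀ ε'` and
`s / 2 ≤ ‖x‖ ≤ 2 s`, and `ε' + 2 s ‖e‖ ≤ ε` (take `s` and `ε'` small), so all these points are in the ball. Let
`χ t = DQ.F.lc (fun x => c (t + x • e) / δ (t + x • e)) s 0`. It is differentiable on `ball t₀ ε'` by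
`DQ.F.differentiableAt_laur` (`r = R = s`, `a = s / 2`, `b = 2 s`, function `(t, x) ↦ c / δ (t + x • e)` on `T × ℂ`), composed with
`DQ.F.Beur.coefL 0` (`DQ.F.coef_laur`). If `t ∈ ball t₀ ε'` and `δ t ≠ 0`: by `div_one` on `ball 0 (2 s)` there is a
differentiable `h` with `c (t + x • e) = h x * δ (t + x • e)`, so on the circle the integrand is `x⁻¹ • h x`, and
Cauchy's formula (`Complex.circleIntegral_sub_inv_smul_of_differentiable_on_off_countable` at the centre) gives
`χ t = h 0 = c t / δ t`. The bound `hM` at the points with `δ = 0`: by `dense_ne` and continuity (`‖c‖ ≤ M ‖δ‖` on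
the closure). -/
theorem riemann {t₀ : T} {ε : ℝ} (hε : 0 < ε) {δ c : T → ℂ}
    (hδ : DifferentiableOn ℂ δ (ball t₀ ε)) (hne : ∃ t ∈ ball t₀ ε, δ t ≠ 0)
    (hc : DifferentiableOn ℂ c (ball t₀ ε)) {M : ℝ}
    (hM : ∀ t ∈ ball t₀ ε, δ t ≠ 0 → ‖c t / δ t‖ ≤ M) :
    ∃ (ε' : ℝ) (χ : T → ℂ), 0 < ε' ∧ ε' ≤ ε ∧ DifferentiableOn ℂ χ (ball t₀ ε') ∧
      ∀ t ∈ ball t₀ ε', δ t ≠ 0 → χ t = c t / δ t := by
  by_cases h00 : δ t₀ = 0
  swap
  · have hct : ContinuousAt δ t₀ := (hδ.differentiableAt (ball_mem_nhds _ hε)).continuousAt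
    have h1 : ∀ᶠ t in 𝓝 t₀, δ t ≠ 0 := hct.eventually_ne h00
    obtain ⟨η, hη, h2⟩ := Metric.eventually_nhds_iff_ball.mp h1
    refine ⟨min η ε, fun t => c t / δ t, lt_min hη hε, min_le_right _ _, ?_, fun t _ _ => rfl⟩
    simp only [div_eq_mul_inv]
    exact (hc.mono (ball_subset_ball (min_le_right _ _))).mul
      ((hδ.mono (ball_subset_ball (min_le_right _ _))).inv
      fun t ht => h2 t (ball_subset_ball (min_le_left _ _) ht))
  -- the bound
  have hM' : ∀ t ∈ ball t₀ ε, ‖c t‖ ≤ M * ‖δ t‖ := by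
    intro t ht
    have h1 : t ∈ closure {t | t ∈ ball t₀ ε ∧ δ t ≠ 0} := dense_ne hδ hne ht
    have hcl : ∀ᶠ s in 𝓝[{t | t ∈ ball t₀ ε ∧ δ t ≠ 0}] t, ‖c s‖ ≤ M * ‖δ s‖ := by
      filter_upwards [self_mem_nhdsWithin] with s hs
      have h2 := hM s hs.1 hs.2
      rwa [norm_div, div_le_iff₀ (norm_pos_iff.mpr hs.2)] at h2
    have h3 : Tendsto (fun s => ‖c s‖) (𝓝[{t | t ∈ ball t₀ ε ∧ δ t ≠ 0}] t) (𝓝 ‖c t‖) :=
      ((hc.differentiableAt (isOpen_ball.mem_nhds ht)).continuousAt.norm).tendsto.mono_left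
        nhdsWithin_le_nhds
    have h4 : Tendsto (fun s => M * ‖δ s‖) (𝓝[{t | t ∈ ball t₀ ε ∧ δ t ≠ 0}] t)
        (𝓝 (M * ‖δ t‖)) :=
      ((hδ.differentiableAt (isOpen_ball.mem_nhds ht)).continuousAt.norm.const_mul
        M).tendsto.mono_left nhdsWithin_le_nhds
    have : (𝓝[{t | t ∈ ball t₀ ε ∧ δ t ≠ 0}] t).NeBot := mem_closure_iff_nhdsWithin_neBot.mp h1
    exact le_of_tendsto_of_tendsto h3 h4 hcl
  obtain ⟨t₁, ht₁, hδ₁⟩ := hne
  set e : T := t₁ - t₀ with he
  have hene : e ≠ 0 := by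
    intro h
    rw [he, sub_eq_zero] at h
    rw [h] at hδ₁
    exact hδ₁ h00
  have hen : 0 < ‖e‖ := norm_pos_iff.mpr hene
  have heε : ‖e‖ < ε := by
    rw [mem_ball, dist_eq_norm] at ht₁
    exact ht₁
  -- the slice
  have hsl := (DQ.F.line_diff (R := ε / ‖e‖) hδ hene (by rw [div_mul_cancel₀ _ hen.ne'])).1
  have h1mem : (1 : ℂ) ∈ ball (0 : ℂ) (ε / ‖e‖) := by
    rw [mem_ball_zero_iff, norm_one, lt_div_iff₀ hen, one_mul]
    exact heε
  have h0mem : (0 : ℂ) ∈ ball (0 : ℂ) (ε / ‖e‖) := mem_ball_self (div_pos hε hen)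
  have hiso : ∀ᶠ z in 𝓝[≠] (0 : ℂ), δ (t₀ + z • e) ≠ 0 := by
    have h2 : AnalyticAt ℂ (fun z : ℂ => δ (t₀ + z • e)) 0 :=
      hsl.analyticAt (isOpen_ball.mem_nhds h0mem)
    rcases h2.eventually_eq_zero_or_eventually_ne_zero with h3 | h3
    · exfalso
      have h4 := DQ.F.eqOn_ball hsl (differentiableOn_const (0 : ℂ)) h0mem h3 h1mem
      simp only [one_smul, he, add_sub_cancel] at h4
      exact hδ₁ h4
    · exact h3
  rw [eventually_nhdsWithin_iff] at hiso
  obtain ⟨η, hη, hηne⟩ := Metric.eventually_nhds_iff_ball.mp hiso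
  set s : ℝ := min (η / 4) (ε / (8 * ‖e‖)) with hs
  have hs0 : 0 < s := lt_min (by positivity) (by positivity)
  have hsη : 2 * s < η := by
    have := min_le_left (η / 4) (ε / (8 * ‖e‖))
    linarith
  have hsε : 2 * s * ‖e‖ < ε / 2 := by
    have h2 : s ≤ ε / (8 * ‖e‖) := min_le_right _ _
    have h3 : s * ‖e‖ ≤ ε / (8 * ‖e‖) * ‖e‖ := mul_le_mul_of_nonneg_right h2 hen.le
    have h4 : ε / (8 * ‖e‖) * ‖e‖ = ε / 8 := by
      field_simp
    linarith
  -- points
  have hpt : ∀ (t : T) (x : ℂ), t ∈ ball t₀ (ε / 2) → ‖x‖ ≤ 2 * s → t + x • e ∈ ball t₀ ε := by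
    intro t x ht hx
    rw [mem_ball, dist_eq_norm] at ht ⊢
    have h2 : t + x • e - t₀ = (t - t₀) + x • e := by abel
    rw [h2]
    have h3 : ‖x • e‖ ≤ 2 * s * ‖e‖ := by
      rw [norm_smul]
      exact mul_le_mul_of_nonneg_right hx hen.le
    have h4 := norm_add_le (t - t₀) (x • e)
    linarith
  have htube : ∀ᶠ t in 𝓝 t₀, ∀ x ∈ {x : ℂ | s / 2 ≤ ‖x‖ ∧ ‖x‖ ≤ 2 * s}, δ (t + x • e) ≠ 0 := by
    refine IsCompact.eventually_forall_of_forall_eventually (DQ.F.isCompact_ann (s / 2) (2 * s)) ?_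
    intro x hx
    have h2 : δ (t₀ + x • e) ≠ 0 := by
      refine hηne x ?_ ?_
      · rw [mem_ball_zero_iff]
        exact lt_of_le_of_lt hx.2 hsη
      · intro h
        have h3 : x = 0 := h
        have h4 := hx.1
        rw [h3, norm_zero] at h4
        linarith
    have h3 : ContinuousAt (fun z : T × ℂ => δ (z.1 + z.2 • e)) (t₀, x) := by
      have h4 : ContinuousAt δ (t₀ + x • e) :=
        (hδ.differentiableAt (isOpen_ball.mem_nhds
          (hpt t₀ x (mem_ball_self (by positivity)) hx.2))).continuousAt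
      refine ContinuousAt.comp (g := δ) (f := fun z : T × ℂ => z.1 + z.2 • e) h4 ?_
      exact (continuous_fst.add (continuous_snd.smul continuous_const)).continuousAt
    exact h3.eventually_ne h2
  obtain ⟨ε₁, hε₁, htub⟩ := Metric.eventually_nhds_iff_ball.mp htube
  set ε' : ℝ := min ε₁ (ε / 2) with hε'
  have hε'0 : 0 < ε' := lt_min hε₁ (by positivity)
  have hε'ε : ε' ≤ ε := (min_le_right _ _).trans (by linarith)
  have : Fact (0 < s) := ⟨hs0⟩
  have hdiff : ∀ t ∈ ball t₀ ε', ∀ z : ℂ, s / 2 ≤ ‖z‖ → ‖z‖ ≤ 2 * s →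
      DifferentiableAt ℂ (fun q : T × ℂ => c (q.1 + q.2 • e) / δ (q.1 + q.2 • e)) (t, z) := by
    intro t ht z hz1 hz2
    have hmem := hpt t z (ball_subset_ball (min_le_right _ _) ht) hz2
    have h4 : DifferentiableAt ℂ (fun q : T × ℂ => q.1 + q.2 • e) (t, z) :=
      (differentiable_fst.add (differentiable_snd.smul_const e)).differentiableAt
    simp only [div_eq_mul_inv]
    refine DifferentiableAt.mul ?_ (DifferentiableAt.inv ?_ ?_)
    · exact DifferentiableAt.comp (t, z) (g := c) (f := fun q : T × ℂ => q.1 + q.2 • e)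
        (hc.differentiableAt (isOpen_ball.mem_nhds hmem)) h4
    · exact DifferentiableAt.comp (t, z) (g := δ) (f := fun q : T × ℂ => q.1 + q.2 • e)
        (hδ.differentiableAt (isOpen_ball.mem_nhds hmem)) h4
    · exact htub t (ball_subset_ball (min_le_left _ _) ht) z ⟨hz1, hz2⟩
  refine ⟨ε', fun t => DQ.F.lc (fun x => c (t + x • e) / δ (t + x • e)) s 0, hε'0, hε'ε, ?_, ?_⟩
  · intro t ht
    have h5 : DifferentiableAt ℂ (fun t => DQ.F.laur s s
        (fun z : ℂ => c (t + z • e) / δ (t + z • e))) t := by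
      refine DQ.F.differentiableAt_laur (F := ℂ) (a := s / 2) (b := 2 * s)
        (g := fun q : T × ℂ => c (q.1 + q.2 • e) / δ (q.1 + q.2 • e)) (by positivity)
        (by linarith) le_rfl (by linarith) ?_
      filter_upwards [isOpen_ball.mem_nhds ht] with t' ht' z hz1 hz2
      exact hdiff t' ht' z hz1 hz2
    have h6 := ((DQ.F.Beur.coefL (0 : ℤ) :
      DQ.F.Beur (DQ.F.wt s s) ℂ →L[ℂ] ℂ).differentiableAt).comp t h5
    refine DifferentiableAt.differentiableWithinAt (h6.congr_of_eventuallyEq ?_)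
    filter_upwards [isOpen_ball.mem_nhds ht] with t' ht'
    have h7 := DQ.F.coef_laur (f := fun z : ℂ => c (t' + z • e) / δ (t' + z • e))
      (a := s / 2) (b := 2 * s) (r := s) (R := s) (by positivity) (by linarith) le_rfl
      (by linarith) (fun z hz1 hz2 => by
        refine DifferentiableAt.comp z
          (g := fun q : T × ℂ => c (q.1 + q.2 • e) / δ (q.1 + q.2 • e))
          (f := fun z : ℂ => (t', z)) (hdiff t' ht' z hz1 hz2) ?_
        exact (differentiableAt_const _).prodMk differentiableAt_id) 0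
    exact h7.symm
  · intro t ht hδt
    have htt : t ∈ ball t₀ (ε / 2) := ball_subset_ball (min_le_right _ _) ht
    have hline : Differentiable ℂ fun x : ℂ => t + x • e :=
      (differentiable_const _).add (differentiable_id.smul_const e)
    have hmaps : ∀ x ∈ ball (0 : ℂ) (2 * s), t + x • e ∈ ball t₀ ε := by
      intro x hx
      rw [mem_ball_zero_iff] at hx
      exact hpt t x htt hx.le
    obtain ⟨h, hh, hgh⟩ := div_one (b := 2 * s) (M := M) (g := fun x => c (t + x • e))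
      (φ := fun x => δ (t + x • e)) (hc.comp hline.differentiableOn hmaps)
      (hδ.comp hline.differentiableOn hmaps)
      ⟨0, mem_ball_self (by positivity), by simpa using hδt⟩
      (fun x hx => hM' _ (hmaps x hx))
    have h8 : DQ.F.lc (fun x => c (t + x • e) / δ (t + x • e)) s 0 = h 0 := by
      unfold DQ.F.lc
      have hcirc : (∮ z in C(0, s), z ^ (-(0 : ℤ) - 1) • (c (t + z • e) / δ (t + z • e))) =
          ∮ z in C(0, s), (z - 0)⁻¹ • h z := by
        refine circleIntegral.integral_congr hs0.le fun z hz => ?_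
        rw [mem_sphere_zero_iff_norm] at hz
        have h9 := hgh z (by rw [mem_ball_zero_iff, hz]; linarith)
        have h10 : δ (t + z • e) ≠ 0 := htub t (ball_subset_ball (min_le_left _ _) ht) z
          ⟨by rw [hz]; linarith, by rw [hz]; linarith⟩
        change c (t + z • e) = h z * δ (t + z • e) at h9
        change z ^ (-(0 : ℤ) - 1) • (c (t + z • e) / δ (t + z • e)) = (z - 0)⁻¹ • h z
        rw [h9, mul_div_cancel_right₀ _ h10, neg_zero, zero_sub, zpow_neg_one, sub_zero]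
      rw [hcirc]
      exact Complex.two_pi_I_inv_smul_circleIntegral_sub_inv_smul_of_differentiable_on_off_countable
        countable_empty (mem_ball_self hs0)
        (hh.continuousOn.mono (closedBall_subset_ball (by linarith)))
        (fun x hx => hh.differentiableAt (isOpen_ball.mem_nhds
          (ball_subset_ball (by linarith) hx.1)))
    have h11 := hgh 0 (mem_ball_self (by positivity))
    simp only [zero_smul, add_zero] at h11
    change DQ.F.lc (fun x => c (t + x • e) / δ (t + x • e)) s 0 = c t / δ t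
    rw [h8, h11, mul_div_cancel_right₀ _ hδt]

end Pool.Agent.DQ.X
end

section

/-! # The lemma of Hartogs, Levi and Kronecker -/

set_option autoImplicit false

open Set Filter Topology Metric

namespace Pool.Agent.DQ.X

variable {T : Type*} [NormedAddCommGroup T] [NormedSpace ℂ T] [FiniteDimensional ℂ T]
  {Z : Type*} [NormedAddCommGroup Z] [NormedSpace ℂ Z] [CompleteSpace Z]

/-- Meromorphic extension with parameters: if for the `t` in a nonempty open set the function `τ (t, ·)` on an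
annulus extends meromorphically to the disc, then it does so near all `t`, with a denominator without
zeros on the annulus.
PROOF. Let `s = (j + j') / 2`, `h k t = mom s (τ (t, ·)) k`, holomorphic on the ball (`mom_hol`). `exists_poly` for `t ∈ W`,
`exists_N`, `exists_cramer` give `ρ` and `c`. Let `δ = c (Fin.last ρ)`. For `t` in the ball with `δ t ≠ 0`, `roots_le` and
`monic_bounds` apply to `c · t`. `riemann` for every `i` (`M = (1 + j) ^ ρ * 2 ^ ρ`), and the minimum of the radii: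
`ε'` and holomorphic `χ i` on `ball t₀ ε'` with `χ i t = c i t / δ t` if `δ t ≠ 0`. Let `χ (t, w) = ∑ i, χ i t * w ^ i`. The set
`{δ ≠ 0}` is dense in the ball (`dense_ne`; to stay in `ball t₀ ε'` intersect with the open ball, or apply
`mem_closure_iff` with neighbourhoods inside `ball t₀ ε'`). By continuity: `∑ i, χ i t • h (k + i) t = 0` for all
`t ∈ ball t₀ ε'` (true where `δ t ≠ 0`, as `∑ i, c i t • h (k + i) t = 0`; both sides are continuous on the open ball), and
`(‖w‖ - j) ^ ρ ≤ ‖χ (t, w)‖` for `‖w‖ > j`, so `χ (t, w) ≠ 0`. `exists_ext` for `f (t, w) = χ (t, w) • τ (t, w)` on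
`ball t₀ ε' ×ˢ An j j'` (the moments are zero by `mom_poly`) gives `σ`. -/
theorem hlk {t₀ : T} {ε : ℝ} (hε : 0 < ε) {j j' : ℝ} (hj : 0 < j) (hjj : j < j')
    {τ : T × ℂ → Z} (hτ : DifferentiableOn ℂ τ (ball t₀ ε ×ˢ An j j'))
    {W : Set T} (hW : IsOpen W) (hne : W.Nonempty) (hsub : W ⊆ ball t₀ ε)
    (h : ∀ t ∈ W, ∃ (δ : ℂ → ℂ) (σ : ℂ → Z), DifferentiableOn ℂ δ (ball 0 j') ∧
      DifferentiableOn ℂ σ (ball 0 j') ∧ (∃ w ∈ ball (0 : ℂ) j', δ w ≠ 0) ∧
      ∀ w ∈ An j j', σ w = δ w • τ (t, w)) :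
    ∃ (ε' : ℝ) (χ : T × ℂ → ℂ) (σ : T × ℂ → Z), 0 < ε' ∧ ε' ≤ ε ∧
      DifferentiableOn ℂ χ (ball t₀ ε' ×ˢ univ) ∧ DifferentiableOn ℂ σ (ball t₀ ε' ×ˢ ball 0 j') ∧
      (∀ t ∈ ball t₀ ε', ∀ w : ℂ, j < ‖w‖ → χ (t, w) ≠ 0) ∧
      ∀ t ∈ ball t₀ ε', ∀ w ∈ An j j', σ (t, w) = χ (t, w) • τ (t, w) := by
  set s : ℝ := (j + j') / 2 with hs
  have h1 : j < s := by rw [hs]; linarith
  have h2 : s < j' := by rw [hs]; linarith
  have hs0 : 0 < s := hj.trans h1
  set m : ℕ → T → Z := fun k t => mom s (fun w => τ (t, w)) k with hm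
  have hslice : ∀ t ∈ ball t₀ ε, DifferentiableOn ℂ (fun w => τ (t, w)) (An j j') := by
    intro t ht
    refine hτ.comp (f := fun w : ℂ => (t, w)) ?_ ?_
    · exact ((differentiable_const _).prodMk differentiable_id).differentiableOn
    · intro w hw
      exact ⟨ht, hw⟩
  have hAn : sphere (0 : ℂ) s ⊆ An j j' := by
    intro w hw
    rw [mem_sphere_zero_iff_norm] at hw
    exact ⟨by rw [hw]; exact h1, by rw [hw]; exact h2⟩
  have hmd : ∀ k, DifferentiableOn ℂ (m k) (ball t₀ ε) := fun k =>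
    mom_hol isOpen_ball hj h1 h2 hτ k
  obtain ⟨N, W', hW'o, hW'n, hW'W, hW'⟩ := exists_N hW hne (h := m)
    (fun k => (hmd k).continuousOn.mono hsub) (by
    intro t ht
    obtain ⟨δ, σ, hδ, hσ, hδne, hστ⟩ := h t ht
    exact exists_poly hj h1 h2 (hslice t (hsub ht)) hδ hσ hδne hστ)
  obtain ⟨ρ, c, hcd, hcne, hc0, hcq⟩ := exists_cramer hmd hW'o hW'n (hW'W.trans hsub) hW'
  have hroots : ∀ t ∈ ball t₀ ε, c (Fin.last ρ) t ≠ 0 →
      ∀ w : ℂ, ∑ i, c i t * w ^ (i : ℕ) = 0 → ‖w‖ ≤ j := by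
    intro t ht hct
    exact roots_le hj h1 h2 (hslice t ht) (c := fun i => c i t) hct (fun k => hc0 t ht k)
      (fun q hq => hcq t ht hct q hq)
  have hbd : ∀ t ∈ ball t₀ ε, c (Fin.last ρ) t ≠ 0 →
      (∀ i, ‖c i t / c (Fin.last ρ) t‖ ≤ (1 + j) ^ ρ * 2 ^ ρ) ∧
      ∀ w : ℂ, j ≤ ‖w‖ → (‖w‖ - j) ^ ρ ≤ ‖∑ i, c i t / c (Fin.last ρ) t * w ^ (i : ℕ)‖ := by
    intro t ht hct
    exact monic_bounds hj (c := fun i => c i t) hct (hroots t ht hct)
  have hri : ∀ i : Fin (ρ + 1), ∃ (ε' : ℝ) (χ : T → ℂ), 0 < ε' ∧ ε' ≤ ε ∧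
      DifferentiableOn ℂ χ (ball t₀ ε') ∧
      ∀ t ∈ ball t₀ ε', c (Fin.last ρ) t ≠ 0 → χ t = c i t / c (Fin.last ρ) t := fun i =>
    riemann hε (hcd (Fin.last ρ)) hcne (hcd i) (M := (1 + j) ^ ρ * 2 ^ ρ)
      (fun t ht hct => (hbd t ht hct).1 i)
  choose εs χs hεs hεsε hχd hχe using hri
  set ε' : ℝ := Finset.univ.inf' Finset.univ_nonempty εs with hε'
  have hε'0 : 0 < ε' := by
    rw [hε', Finset.lt_inf'_iff]
    exact fun i _ => hεs i
  have hε'i : ∀ i, ε' ≤ εs i := fun i => Finset.inf'_le _ (Finset.mem_univ i)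
  have hε'ε : ε' ≤ ε := (hε'i 0).trans (hεsε 0)
  have hbb : ball t₀ ε' ⊆ ball t₀ ε := ball_subset_ball hε'ε
  have hχd' : ∀ i, DifferentiableOn ℂ (χs i) (ball t₀ ε') := fun i =>
    (hχd i).mono (ball_subset_ball (hε'i i))
  have hχe' : ∀ i, ∀ t ∈ ball t₀ ε', c (Fin.last ρ) t ≠ 0 →
      χs i t = c i t / c (Fin.last ρ) t := fun i t ht =>
    hχe i t (ball_subset_ball (hε'i i) ht)
  -- density
  have hdense : ∀ t ∈ ball t₀ ε', t ∈ closure {t | t ∈ ball t₀ ε' ∧ c (Fin.last ρ) t ≠ 0} := by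
    intro t ht
    have h3 := dense_ne (hcd (Fin.last ρ)) hcne (hbb ht)
    rw [mem_closure_iff_nhds] at h3 ⊢
    intro V hV
    obtain ⟨x, hx1, hx2, hx3⟩ := h3 (V ∩ ball t₀ ε') (inter_mem hV (isOpen_ball.mem_nhds ht))
    exact ⟨x, hx1.1, hx1.2, hx3⟩
  have hrel : ∀ k : ℕ, ∀ t ∈ ball t₀ ε', ∑ i, χs i t • m (k + i) t = 0 := by
    intro k t ht
    have hNB : (𝓝[{t | t ∈ ball t₀ ε' ∧ c (Fin.last ρ) t ≠ 0}] t).NeBot :=
      mem_closure_iff_nhdsWithin_neBot.mp (hdense t ht)
    have hcont : ContinuousAt (fun t => ∑ i, χs i t • m (k + i) t) t := by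
      have h4 : DifferentiableOn ℂ (fun t => ∑ i, χs i t • m (k + i) t) (ball t₀ ε') :=
        DifferentiableOn.fun_sum fun i _ => (hχd' i).smul ((hmd (k + i)).mono hbb)
      exact (h4.differentiableAt (isOpen_ball.mem_nhds ht)).continuousAt
    have h5 : Tendsto (fun t => ∑ i, χs i t • m (k + i) t)
        (𝓝[{t | t ∈ ball t₀ ε' ∧ c (Fin.last ρ) t ≠ 0}] t)
        (𝓝 (∑ i, χs i t • m (k + i) t)) := hcont.tendsto.mono_left nhdsWithin_le_nhds
    have h6 : Tendsto (fun t => ∑ i, χs i t • m (k + i) t)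
        (𝓝[{t | t ∈ ball t₀ ε' ∧ c (Fin.last ρ) t ≠ 0}] t) (𝓝 0) := by
      refine Tendsto.congr' ?_ tendsto_const_nhds
      filter_upwards [self_mem_nhdsWithin] with x hx
      have h7 : ∀ i : Fin (ρ + 1), χs i x • m (k + i) x =
          (c (Fin.last ρ) x)⁻¹ • (c i x • m (k + i) x) := by
        intro i
        rw [hχe' i x hx.1 hx.2, smul_smul, div_eq_inv_mul]
      rw [Finset.sum_congr rfl fun i _ => h7 i, ← Finset.smul_sum, hc0 x (hbb hx.1) k, smul_zero]
    exact tendsto_nhds_unique h5 h6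
  have hlow : ∀ w : ℂ, j < ‖w‖ → ∀ t ∈ ball t₀ ε',
      (‖w‖ - j) ^ ρ ≤ ‖∑ i, χs i t * w ^ (i : ℕ)‖ := by
    intro w hw t ht
    have hNB : (𝓝[{t | t ∈ ball t₀ ε' ∧ c (Fin.last ρ) t ≠ 0}] t).NeBot :=
      mem_closure_iff_nhdsWithin_neBot.mp (hdense t ht)
    have hcont : ContinuousAt (fun t => ‖∑ i, χs i t * w ^ (i : ℕ)‖) t := by
      have h4 : DifferentiableOn ℂ (fun t => ∑ i, χs i t * w ^ (i : ℕ)) (ball t₀ ε') :=
        DifferentiableOn.fun_sum fun i _ => (hχd' i).mul (differentiableOn_const _)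
      exact (h4.differentiableAt (isOpen_ball.mem_nhds ht)).continuousAt.norm
    have h5 : Tendsto (fun t => ‖∑ i, χs i t * w ^ (i : ℕ)‖)
        (𝓝[{t | t ∈ ball t₀ ε' ∧ c (Fin.last ρ) t ≠ 0}] t)
        (𝓝 ‖∑ i, χs i t * w ^ (i : ℕ)‖) := hcont.tendsto.mono_left nhdsWithin_le_nhds
    refine ge_of_tendsto h5 ?_
    filter_upwards [self_mem_nhdsWithin] with x hx
    have h7 : ∑ i, χs i x * w ^ (i : ℕ) = ∑ i, c i x / c (Fin.last ρ) x * w ^ (i : ℕ) :=
      Finset.sum_congr rfl fun i _ => by rw [hχe' i x hx.1 hx.2]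
    rw [h7]
    exact (hbd x (hbb hx.1) hx.2).2 w hw.le
  have hχ : DifferentiableOn ℂ (fun p : T × ℂ => ∑ i, χs i p.1 * p.2 ^ (i : ℕ))
      (ball t₀ ε' ×ˢ univ) := by
    refine DifferentiableOn.fun_sum fun i _ => ?_
    refine DifferentiableOn.mul ?_ ?_
    · exact (hχd' i).comp differentiable_fst.differentiableOn fun p hp => hp.1
    · exact (differentiable_snd.pow _).differentiableOn
  obtain ⟨σ, hσd, hσe⟩ := exists_ext (U := ball t₀ ε') isOpen_ball hj h1 h2
    (f := fun p : T × ℂ => (∑ i, χs i p.1 * p.2 ^ (i : ℕ)) • τ p)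
    ((hχ.mono (prod_mono_right (subset_univ _))).smul (hτ.mono (prod_mono_left hbb))) (by
      intro t ht k
      have h3 := mom_poly hs0 (f := fun w => τ (t, w))
        ((hslice t (hbb ht)).continuousOn.mono hAn) (fun i => χs i t) k
      rw [h3]
      exact hrel k t ht)
  refine ⟨ε', fun p => ∑ i, χs i p.1 * p.2 ^ (i : ℕ), σ, hε'0, hε'ε, hχ, hσd, ?_, ?_⟩
  · intro t ht w hw hzero
    have h3 := hlow w hw t ht
    have h4 : ∑ i, χs i t * w ^ (i : ℕ) = 0 := hzero
    rw [h4, norm_zero] at h3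
    have h5 : 0 < (‖w‖ - j) ^ ρ := pow_pos (by linarith) _
    linarith
  · intro t ht w hw
    exact hσe t ht w hw

end Pool.Agent.DQ.X
end

section

/-!
# Laurent projections in one direction

`pplus c r R f (t, z) = (2 π i)⁻¹ ∮_{|ζ - c| = ρ(z)} f (t, ζ) / (ζ - z) dζ` for functions `f` on
`Ω × {r < |z - c| < R}`.
-/

set_option autoImplicit false
set_option linter.unusedSectionVars false
set_option linter.unusedVariables false
set_option linter.style.haveILetI false

open Filter Topology Set Metric MeasureTheory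

namespace DQ.F

section proj

variable {E F : Type*} [NormedAddCommGroup E] [NormedSpace ℂ E] [NormedAddCommGroup F]
  [NormedSpace ℂ F]

/-- the radius of integration -/
noncomputable def rad (c : ℂ) (r R : ℝ) (z : ℂ) : ℝ := (max (max r 0) ‖z - c‖ + R) / 2

theorem rad_spec {c : ℂ} {r R : ℝ} (hrR : r < R) {z : ℂ} (hz : ‖z - c‖ < R) :
    0 < rad c r R z ∧ r < rad c r R z ∧ ‖z - c‖ < rad c r R z ∧ rad c r R z < R := by
  have hR : 0 < R := (norm_nonneg _).trans_lt hz
  have h0 : max (max r 0) ‖z - c‖ < R := max_lt (max_lt hrR hR) hz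
  have h1 : r ≤ max (max r 0) ‖z - c‖ := (le_max_left _ _).trans (le_max_left _ _)
  have h2 : 0 ≤ max (max r 0) ‖z - c‖ := (le_max_right _ _).trans (le_max_left _ _)
  have h3 : ‖z - c‖ ≤ max (max r 0) ‖z - c‖ := le_max_right _ _
  unfold rad
  refine ⟨by linarith, by linarith, by linarith, by linarith⟩

/-- Cauchy integral over the circle `|ζ - c| = ρ` -/
noncomputable def cint (c : ℂ) (ρ : ℝ) (f : ℂ → F) (z : ℂ) : F :=
  (2 * Real.pi * Complex.I : ℂ)⁻¹ • ∮ ζ in C(c, ρ), (ζ - z)⁻¹ • f ζ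

/-- the nonnegative part of the Laurent expansion at `c` in the variable `z` -/
noncomputable def pplus (c : ℂ) (r R : ℝ) (f : E × ℂ → F) (q : E × ℂ) : F :=
  cint c (rad c r R q.2) (fun ζ => f (q.1, ζ)) q.2

theorem mem_ring_iff_sphere {c : ℂ} {ρ : ℝ} {ζ : ℂ} (h : ζ ∈ sphere c ρ) : ‖ζ - c‖ = ρ := by
  rwa [mem_sphere, dist_eq_norm] at h

/-- independence of the radius -/
theorem cint_eq [CompleteSpace F] {c : ℂ} {f : ℂ → F} {z : ℂ} {ρ₁ ρ₂ : ℝ} (h0 : 0 < ρ₁) (h1 : ‖z - c‖ < ρ₁)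
    (h2 : ρ₁ ≤ ρ₂) (hf : ∀ ζ, ρ₁ ≤ ‖ζ - c‖ → ‖ζ - c‖ ≤ ρ₂ → DifferentiableAt ℂ f ζ) :
    cint c ρ₂ f z = cint c ρ₁ f z := by
  unfold cint
  congr 1
  have hd : ∀ ζ, ρ₁ ≤ ‖ζ - c‖ → ‖ζ - c‖ ≤ ρ₂ →
      DifferentiableAt ℂ (fun ζ => (ζ - z)⁻¹ • f ζ) ζ := by
    intro ζ h3 h4
    have hne : ζ - z ≠ 0 := by
      intro h5
      rw [sub_eq_zero] at h5
      rw [h5] at h3
      linarith
    exact ((differentiableAt_id.sub (differentiableAt_const z)).inv hne).smul (hf ζ h3 h4)
  refine Complex.circleIntegral_eq_of_differentiable_on_annulus_off_countable h0 h2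
    (s := ∅) countable_empty ?_ ?_
  · intro ζ hζ
    rw [Set.mem_sdiff, mem_closedBall, mem_ball, dist_eq_norm, not_lt] at hζ
    exact (hd ζ hζ.2 hζ.1).continuousAt.continuousWithinAt
  · rintro ζ ⟨hζ, -⟩
    rw [Set.mem_sdiff, mem_closedBall, mem_ball, dist_eq_norm, not_le] at hζ
    exact hd ζ hζ.2.le hζ.1.le

/-- all admissible radii give the same value -/
theorem cint_eq_cint [CompleteSpace F] {c : ℂ} {r R : ℝ} {f : ℂ → F}
    (hf : ∀ ζ, r < ‖ζ - c‖ → ‖ζ - c‖ < R → DifferentiableAt ℂ f ζ) {z : ℂ} {ρ₁ ρ₂ : ℝ}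
    (h1 : 0 < ρ₁) (h2 : 0 < ρ₂) (h3 : r < ρ₁) (h4 : r < ρ₂) (h5 : ρ₁ < R) (h6 : ρ₂ < R)
    (h7 : ‖z - c‖ < ρ₁) (h8 : ‖z - c‖ < ρ₂) : cint c ρ₁ f z = cint c ρ₂ f z := by
  rcases le_total ρ₁ ρ₂ with h | h
  · exact (cint_eq h1 h7 h fun ζ h9 h10 => hf ζ (h3.trans_le h9) (h10.trans_lt h6)).symm
  · exact cint_eq h2 h8 h fun ζ h9 h10 => hf ζ (h4.trans_le h9) (h10.trans_lt h5)

theorem pplus_eq_cint [CompleteSpace F] {c : ℂ} {r R : ℝ} {f : E × ℂ → F} {t : E} {z : ℂ}
    (hf : ∀ ζ, r < ‖ζ - c‖ → ‖ζ - c‖ < R → DifferentiableAt ℂ (fun ζ => f (t, ζ)) ζ) {ρ : ℝ}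
    (h1 : 0 < ρ) (h2 : r < ρ) (h3 : ρ < R) (h4 : ‖z - c‖ < ρ) :
    pplus c r R f (t, z) = cint c ρ (fun ζ => f (t, ζ)) z := by
  obtain ⟨a1, a2, a3, a4⟩ := rad_spec (c := c) (r := r) (R := R) (h2.trans h3) (h4.trans h3)
  exact cint_eq_cint hf a1 h1 a2 h2 a4 h3 a3 h4

/-- the value of `pplus` only depends on the values on the slice -/
theorem pplus_congr {c : ℂ} {r R : ℝ} {f g : E × ℂ → F} {t t' : E} {z : ℂ} (hrR : r < R)
    (hz : ‖z - c‖ < R) (h : ∀ ζ, r < ‖ζ - c‖ → ‖ζ - c‖ < R → f (t, ζ) = g (t', ζ)) :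
    pplus c r R f (t, z) = pplus c r R g (t', z) := by
  obtain ⟨a1, a2, a3, a4⟩ := rad_spec hrR hz
  unfold pplus cint
  congr 1
  refine circleIntegral.integral_congr a1.le fun ζ hζ => ?_
  change (ζ - z)⁻¹ • f (t, ζ) = (ζ - z)⁻¹ • g (t', ζ)
  rw [h ζ (by rw [mem_ring_iff_sphere hζ]; exact a2) (by rw [mem_ring_iff_sphere hζ]; exact a4)]

theorem circleIntegrable_aux [CompleteSpace F] {c : ℂ} {ρ : ℝ} (hρ : 0 < ρ) {f : ℂ → F} {z : ℂ}
    (hz : ‖z - c‖ < ρ) (hf : ∀ ζ, ‖ζ - c‖ = ρ → ContinuousAt f ζ) :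
    CircleIntegrable (fun ζ => (ζ - z)⁻¹ • f ζ) c ρ := by
  refine ContinuousOn.circleIntegrable hρ.le fun ζ hζ => ?_
  have h1 := mem_ring_iff_sphere hζ
  have hne : ζ - z ≠ 0 := by
    intro h5
    rw [sub_eq_zero] at h5
    rw [h5] at h1
    linarith
  exact (((continuousAt_id.sub continuousAt_const).inv₀ hne).smul (hf ζ h1)).continuousWithinAt

theorem pplus_add [CompleteSpace F] {c : ℂ} {r R : ℝ} (hrR : r < R) {f g : E × ℂ → F} {t : E} {z : ℂ}
    (hz : ‖z - c‖ < R) (hf : ∀ ζ, r < ‖ζ - c‖ → ‖ζ - c‖ < R → ContinuousAt (fun ζ => f (t, ζ)) ζ)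
    (hg : ∀ ζ, r < ‖ζ - c‖ → ‖ζ - c‖ < R → ContinuousAt (fun ζ => g (t, ζ)) ζ) :
    pplus c r R (fun q => f q + g q) (t, z) = pplus c r R f (t, z) + pplus c r R g (t, z) := by
  obtain ⟨a1, a2, a3, a4⟩ := rad_spec hrR hz
  unfold pplus cint
  rw [← smul_add, ← circleIntegral.integral_add]
  · congr 1
    refine circleIntegral.integral_congr a1.le fun ζ _ => ?_
    exact smul_add _ _ _
  · exact circleIntegrable_aux a1 a3 fun ζ hζ => hf ζ (by rw [hζ]; exact a2) (by rw [hζ]; exact a4)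
  · exact circleIntegrable_aux a1 a3 fun ζ hζ => hg ζ (by rw [hζ]; exact a2) (by rw [hζ]; exact a4)

theorem pplus_smul {c : ℂ} {r R : ℝ} (a : ℂ) (f : E × ℂ → F) (q : E × ℂ) :
    pplus c r R (fun q => a • f q) q = a • pplus c r R f q := by
  unfold pplus cint
  rw [smul_comm a]
  congr 1
  rw [← circleIntegral.integral_smul]
  refine congrArg (fun g => circleIntegral g c (rad c r R q.2)) ?_
  funext ζ
  exact smul_comm _ _ _

/-- functions of `t` alone can be pulled out -/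
theorem pplus_fsmul {c : ℂ} {r R : ℝ} (a : E → ℂ) (f : E × ℂ → F) (q : E × ℂ) :
    pplus c r R (fun q => a q.1 • f q) q = a q.1 • pplus c r R f q := by
  unfold pplus cint
  rw [smul_comm (a q.1)]
  congr 1
  rw [← circleIntegral.integral_smul]
  refine congrArg (fun g => circleIntegral g c (rad c r R q.2)) ?_
  funext ζ
  exact smul_comm _ _ _

theorem pplus_zero {c : ℂ} {r R : ℝ} (q : E × ℂ) : pplus c r R (fun _ => (0 : F)) q = 0 := by
  unfold pplus cint
  simp [circleIntegral]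

/-- Cauchy's formula: nothing changes for functions holomorphic on the whole disc -/
theorem pplus_eq_self [CompleteSpace F] {c : ℂ} {r R : ℝ} (hrR : r < R) {f : E × ℂ → F} {t : E} {z : ℂ}
    (hz : ‖z - c‖ < R) (hf : ∀ ζ, ‖ζ - c‖ < R → DifferentiableAt ℂ (fun ζ => f (t, ζ)) ζ) :
    pplus c r R f (t, z) = f (t, z) := by
  obtain ⟨a1, a2, a3, a4⟩ := rad_spec hrR hz
  unfold pplus cint
  refine Complex.two_pi_I_inv_smul_circleIntegral_sub_inv_smul_of_differentiable_on_off_countable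
    (s := ∅) countable_empty (by rw [mem_ball, dist_eq_norm]; exact a3) ?_ ?_
  · intro ζ hζ
    rw [mem_closedBall, dist_eq_norm] at hζ
    exact (hf ζ (hζ.trans_lt a4)).continuousAt.continuousWithinAt
  · rintro ζ ⟨hζ, -⟩
    rw [mem_ball, dist_eq_norm] at hζ
    exact hf ζ (hζ.trans a4)

/-- holomorphy in `(t, z)` of the Cauchy integral -/
theorem differentiableAt_cint [CompleteSpace F] {c : ℂ} {ρ : ℝ} (hρ : 0 < ρ) {f : E × ℂ → F} {t₀ : E}
    {z₀ : ℂ} (hz : ‖z₀ - c‖ < ρ)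
    (hf : ∀ᶠ t in 𝓝 t₀, ∀ ζ, ‖ζ - c‖ = ρ → DifferentiableAt ℂ f (t, ζ)) :
    DifferentiableAt ℂ (fun q : E × ℂ => cint c ρ (fun ζ => f (q.1, ζ)) q.2) (t₀, z₀) := by
  have hcomp : ∀ x z, DifferentiableAt ℂ f (x, z) → DifferentiableAt ℂ (fun y => f (y, z)) x := by
    intro x z h
    have h1 : DifferentiableAt ℂ (fun y : E => ((y, z) : E × ℂ)) x := by fun_prop
    exact DifferentiableAt.comp (f := fun y : E => ((y, z) : E × ℂ)) (g := f) x h h1
  have h1 : DifferentiableAt ℂ (cur (sphere c ρ) f) t₀ := by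
    refine differentiableAt_cur (isCompact_sphere c ρ) ?_
    filter_upwards [hf] with t ht ζ hζ
    have := ht ζ (mem_ring_iff_sphere hζ)
    exact ⟨this.continuousAt, hcomp t ζ this⟩
  have hne : ∀ᶠ z in 𝓝 z₀, ∀ ζ ∈ sphere c ρ, ζ - z ≠ 0 := by
    have : ∀ᶠ z in 𝓝 z₀, ‖z - c‖ < ρ :=
      (continuous_norm.comp (continuous_id.sub continuous_const)).continuousAt.eventually
        (gt_mem_nhds hz)
    filter_upwards [this] with z hz ζ hζ h0
    rw [sub_eq_zero] at h0
    have h2 := mem_ring_iff_sphere hζ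
    rw [h0] at h2
    linarith
  have h2 : DifferentiableAt ℂ (cur (sphere c ρ) (fun q : ℂ × ℂ => (q.2 - q.1)⁻¹)) z₀ := by
    refine differentiableAt_cur (isCompact_sphere c ρ) ?_
    filter_upwards [hne] with z hz' ζ hζ
    refine ⟨?_, ?_⟩
    · exact ((continuousAt_snd.sub continuousAt_fst).inv₀ (hz' ζ hζ))
    · exact ((differentiableAt_const ζ).sub differentiableAt_id).inv (hz' ζ hζ)
  have h3 : DifferentiableAt ℂ (fun q : E × ℂ => pairing c ρ hρ.le
      (cur (sphere c ρ) (fun q : ℂ × ℂ => (q.2 - q.1)⁻¹) q.2) (cur (sphere c ρ) f q.1)) (t₀, z₀) := by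
    have e1 : DifferentiableAt ℂ (fun q : E × ℂ => cur (sphere c ρ) f q.1) (t₀, z₀) :=
      DifferentiableAt.comp (g := cur (sphere c ρ) f) (f := fun q : E × ℂ => q.1) (t₀, z₀) h1
        differentiableAt_fst
    have e2 : DifferentiableAt ℂ (fun q : E × ℂ =>
        cur (sphere c ρ) (fun q : ℂ × ℂ => (q.2 - q.1)⁻¹) q.2) (t₀, z₀) :=
      DifferentiableAt.comp (g := cur (sphere c ρ) (fun q : ℂ × ℂ => (q.2 - q.1)⁻¹))
        (f := fun q : E × ℂ => q.2) (t₀, z₀) h2 differentiableAt_snd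
    have e3 : DifferentiableAt ℂ (fun q : E × ℂ => (pairing (G := F) c ρ hρ.le)
        (cur (sphere c ρ) (fun q : ℂ × ℂ => (q.2 - q.1)⁻¹) q.2)) (t₀, z₀) :=
      (ContinuousLinearMap.differentiableAt _).comp (t₀, z₀) e2
    exact e3.clm_apply e1
  refine h3.congr_of_eventuallyEq ?_
  have hev : ∀ᶠ q : E × ℂ in 𝓝 (t₀, z₀), (∀ ζ, ‖ζ - c‖ = ρ → DifferentiableAt ℂ f (q.1, ζ)) ∧
      ∀ ζ ∈ sphere c ρ, ζ - q.2 ≠ 0 := by
    rw [nhds_prod_eq]
    exact hf.prod_mk hne
  filter_upwards [hev] with q hq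
  rw [pairing_apply, cint, circleIntegral]
  congr 1
  refine intervalIntegral.integral_congr fun θ _ => ?_
  change _ = deriv (circleMap c ρ) θ •
    ((cur (sphere c ρ) (fun q : ℂ × ℂ => (q.2 - q.1)⁻¹) q.2) (pt c ρ hρ.le θ) •
      (cur (sphere c ρ) f q.1) (pt c ρ hρ.le θ))
  rw [cur_apply (fun z hz => (hq.1 z (mem_ring_iff_sphere hz)).continuousAt),
    cur_apply (g := fun q : ℂ × ℂ => (q.2 - q.1)⁻¹)
      (fun z hz => (continuousAt_snd.sub continuousAt_fst).inv₀ (hq.2 z hz))]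
  rfl

/-- holomorphy of `pplus` on the full disc -/
theorem differentiableOn_pplus [CompleteSpace F] {c : ℂ} {r R : ℝ} (hrR : r < R) {f : E × ℂ → F}
    {Ω : Set E} (hΩ : IsOpen Ω)
    (hf : DifferentiableOn ℂ f (Ω ×ˢ {z : ℂ | r < ‖z - c‖ ∧ ‖z - c‖ < R})) :
    DifferentiableOn ℂ (pplus c r R f) (Ω ×ˢ {z : ℂ | ‖z - c‖ < R}) := by
  have hcn : Continuous fun z : ℂ => ‖z - c‖ := continuous_norm.comp (continuous_id.sub continuous_const)
  have hopen : IsOpen (Ω ×ˢ {z : ℂ | r < ‖z - c‖ ∧ ‖z - c‖ < R}) :=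
    hΩ.prod ((isOpen_lt continuous_const hcn).inter (isOpen_lt hcn continuous_const))
  have hd : ∀ t ∈ Ω, ∀ ζ, r < ‖ζ - c‖ → ‖ζ - c‖ < R → DifferentiableAt ℂ f (t, ζ) :=
    fun t ht ζ h1 h2 => hf.differentiableAt (hopen.mem_nhds ⟨ht, h1, h2⟩)
  have hd' : ∀ t ∈ Ω, ∀ ζ, r < ‖ζ - c‖ → ‖ζ - c‖ < R →
      DifferentiableAt ℂ (fun ζ => f (t, ζ)) ζ := by
    intro t ht ζ h1 h2
    have h3 : DifferentiableAt ℂ (fun y : ℂ => ((t, y) : E × ℂ)) ζ := by fun_prop
    exact DifferentiableAt.comp (f := fun y : ℂ => ((t, y) : E × ℂ)) (g := f) ζ (hd t ht ζ h1 h2) h3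
  rintro ⟨t₀, z₀⟩ ⟨ht₀, hz₀⟩
  have hz₀ : ‖z₀ - c‖ < R := hz₀
  obtain ⟨a1, a2, a3, a4⟩ := rad_spec hrR hz₀
  set ρ := rad c r R z₀
  have h1 := differentiableAt_cint (F := F) a1 (f := f) (t₀ := t₀) a3 (by
    filter_upwards [hΩ.mem_nhds ht₀] with t ht ζ hζ
    exact hd t ht ζ (by rw [hζ]; exact a2) (by rw [hζ]; exact a4))
  refine (h1.congr_of_eventuallyEq ?_).differentiableWithinAt
  have h2 : ∀ᶠ z in 𝓝 z₀, ‖z - c‖ < ρ :=
    (continuous_norm.comp (continuous_id.sub continuous_const)).continuousAt.eventually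
      (gt_mem_nhds a3)
  have h3 : ∀ᶠ t in 𝓝 t₀, t ∈ Ω := hΩ.mem_nhds ht₀
  rw [nhds_prod_eq]
  filter_upwards [h3.prod_mk h2] with q hq
  exact pplus_eq_cint (hd' q.1 hq.1) a1 a2 a4 hq.2

end proj

end DQ.F
end

section

/-!
# Laurent projections in the direction `j` on products of discs and annuli in linear coordinates
-/

set_option autoImplicit false
set_option linter.unusedSectionVars false
set_option linter.unusedVariables false
set_option linter.style.haveILetI false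

open Filter Topology Set Metric MeasureTheory

namespace DQ.F

open Pool.Agent.DQ

universe u

section proj

variable {V : Type u} [NormedAddCommGroup V] [NormedSpace ℂ V] {n : ℕ} (κ : V ≃L[ℂ] (Fin n → ℂ))

/-- replace the `j`-th coordinate of `x` by `ζ` -/
noncomputable def repl (j : Fin n) (x : V) (ζ : ℂ) : V := κ.symm (Function.update (κ x) j ζ)

theorem κ_repl (j : Fin n) (x : V) (ζ : ℂ) : κ (repl κ j x ζ) = Function.update (κ x) j ζ := by
  rw [repl, ContinuousLinearEquiv.apply_symm_apply]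

theorem κ_repl_same (j : Fin n) (x : V) (ζ : ℂ) : κ (repl κ j x ζ) j = ζ := by
  rw [κ_repl, Function.update_self]

theorem κ_repl_ne {i j : Fin n} (h : i ≠ j) (x : V) (ζ : ℂ) : κ (repl κ j x ζ) i = κ x i := by
  rw [κ_repl, Function.update_of_ne h]

theorem repl_self (j : Fin n) (x : V) : repl κ j x (κ x j) = x := by
  rw [repl, Function.update_eq_self, ContinuousLinearEquiv.symm_apply_apply]

theorem repl_repl (j : Fin n) (x : V) (ζ ξ : ℂ) : repl κ j (repl κ j x ζ) ξ = repl κ j x ξ := by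
  rw [repl, κ_repl, Function.update_idem, repl]

theorem differentiable_repl (j : Fin n) : Differentiable ℂ fun q : V × ℂ => repl κ j q.1 q.2 := by
  have h : Differentiable ℂ fun q : V × ℂ => Function.update (κ q.1) j q.2 := by
    rw [differentiable_pi]
    intro i
    by_cases hi : i = j
    · subst hi
      simp only [Function.update_self]
      exact differentiable_snd
    · simp only [Function.update_of_ne hi]
      have h1 : Differentiable ℂ fun q : V × ℂ => κ q.1 := κ.differentiable.comp differentiable_fst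
      exact (differentiable_pi.mp h1) i
  exact κ.symm.differentiable.comp h

/-- the Laurent projection (nonnegative part) in direction `j`, for the ring `r < |z - c| < R` -/
noncomputable def pj (j : Fin n) (c : ℂ) (r R : ℝ) (f : V → ℂ) (x : V) : ℂ :=
  pplus c r R (fun q : V × ℂ => f (repl κ j q.1 q.2)) (x, κ x j)

variable {κ}

theorem isOpen_ring (c : ℂ) (r R : ℝ) : IsOpen (ring c r R) := by
  have hcn : Continuous fun z : ℂ => ‖z - c‖ := continuous_norm.comp (continuous_id.sub continuous_const)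
  exact (isOpen_lt continuous_const hcn).inter (isOpen_lt hcn continuous_const)

theorem isOpen_box' (c : Fin n → ℂ) (r R : Fin n → ℝ) : IsOpen (box κ c r R) := by
  have : box κ c r R = ⋂ i, (fun x => κ x i) ⁻¹' ring (c i) (r i) (R i) := by
    ext x
    simp [box]
  rw [this]
  refine isOpen_iInter_of_finite fun i => (isOpen_ring _ _ _).preimage ?_
  exact (continuous_apply i).comp κ.continuous

theorem slice_hol {j : Fin n} {f : V → ℂ} {x : V} {ζ : ℂ} (h : DifferentiableAt ℂ f (repl κ j x ζ)) :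
    DifferentiableAt ℂ (fun ζ => f (repl κ j x ζ)) ζ := by
  have h1 : DifferentiableAt ℂ (fun y : ℂ => repl κ j x y) ζ := by
    have h2 : DifferentiableAt ℂ (fun y : ℂ => ((x, y) : V × ℂ)) ζ := by fun_prop
    exact DifferentiableAt.comp (f := fun y : ℂ => ((x, y) : V × ℂ))
      (g := fun q : V × ℂ => repl κ j q.1 q.2) ζ (differentiable_repl κ j _) h2
  exact DifferentiableAt.comp (f := fun y : ℂ => repl κ j x y) (g := f) ζ h h1

/-- `pj` only depends on the values on the `j`-line through `x` -/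
theorem pj_congr {j : Fin n} {c : ℂ} {r R : ℝ} (hrR : r < R) {f g : V → ℂ} {x : V}
    (hx : ‖κ x j - c‖ < R) (h : ∀ ζ ∈ ring c r R, f (repl κ j x ζ) = g (repl κ j x ζ)) :
    pj κ j c r R f x = pj κ j c r R g x :=
  pplus_congr hrR hx fun ζ h1 h2 => h ζ ⟨h1, h2⟩

theorem pj_add {j : Fin n} {c : ℂ} {r R : ℝ} (hrR : r < R) {f g : V → ℂ} {x : V}
    (hx : ‖κ x j - c‖ < R) (hf : ∀ ζ ∈ ring c r R, DifferentiableAt ℂ f (repl κ j x ζ))
    (hg : ∀ ζ ∈ ring c r R, DifferentiableAt ℂ g (repl κ j x ζ)) :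
    pj κ j c r R (fun y => f y + g y) x = pj κ j c r R f x + pj κ j c r R g x :=
  pplus_add hrR hx (fun ζ h1 h2 => (slice_hol (hf ζ ⟨h1, h2⟩)).continuousAt)
    fun ζ h1 h2 => (slice_hol (hg ζ ⟨h1, h2⟩)).continuousAt

theorem pj_smul {j : Fin n} {c : ℂ} {r R : ℝ} (a : ℂ) (f : V → ℂ) (x : V) :
    pj κ j c r R (fun y => a * f y) x = a * pj κ j c r R f x :=
  pplus_smul a (fun q : V × ℂ => f (repl κ j q.1 q.2)) (x, κ x j)

theorem pj_neg {j : Fin n} {c : ℂ} {r R : ℝ} (f : V → ℂ) (x : V) :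
    pj κ j c r R (fun y => - f y) x = - pj κ j c r R f x := by
  have := pj_smul (κ := κ) (j := j) (c := c) (r := r) (R := R) (-1) f x
  simpa using this

theorem pj_sub {j : Fin n} {c : ℂ} {r R : ℝ} (hrR : r < R) {f g : V → ℂ} {x : V}
    (hx : ‖κ x j - c‖ < R) (hf : ∀ ζ ∈ ring c r R, DifferentiableAt ℂ f (repl κ j x ζ))
    (hg : ∀ ζ ∈ ring c r R, DifferentiableAt ℂ g (repl κ j x ζ)) :
    pj κ j c r R (fun y => f y - g y) x = pj κ j c r R f x - pj κ j c r R g x := by
  have h := pj_add (κ := κ) (g := fun y => - g y) hrR hx hf fun ζ hζ => (hg ζ hζ).neg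
  rw [pj_neg] at h
  simpa only [sub_eq_add_neg] using h

theorem pj_zero {j : Fin n} {c : ℂ} {r R : ℝ} (x : V) : pj κ j c r R (fun _ => (0 : ℂ)) x = 0 :=
  pplus_zero (x, κ x j)

theorem pj_sum {ι : Type*} (s : Finset ι) {j : Fin n} {c : ℂ} {r R : ℝ} (hrR : r < R) {f : ι → V → ℂ}
    {x : V} (hx : ‖κ x j - c‖ < R)
    (hf : ∀ i ∈ s, ∀ ζ ∈ ring c r R, DifferentiableAt ℂ (f i) (repl κ j x ζ)) :
    pj κ j c r R (fun y => ∑ i ∈ s, f i y) x = ∑ i ∈ s, pj κ j c r R (f i) x := by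
  classical
  induction s using Finset.induction_on with
  | empty =>
    simp only [Finset.sum_empty]
    exact pj_zero x
  | insert a s ha ih =>
    simp only [Finset.sum_insert ha]
    rw [pj_add hrR hx (hf a (Finset.mem_insert_self _ _)) (fun ζ hζ => ?_),
      ih fun i hi => hf i (Finset.mem_insert_of_mem hi)]
    exact DifferentiableAt.fun_sum fun i hi => hf i (Finset.mem_insert_of_mem hi) ζ hζ

/-- functions which do not depend on the `j`-th coordinate can be pulled out -/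
theorem pj_mul_const {j : Fin n} {c : ℂ} {r R : ℝ} {a f : V → ℂ} {x : V}
    (ha : ∀ y ζ, a (repl κ j y ζ) = a y) :
    pj κ j c r R (fun y => a y * f y) x = a x * pj κ j c r R f x := by
  have := pplus_fsmul (c := c) (r := r) (R := R) a (fun q : V × ℂ => f (repl κ j q.1 q.2)) (x, κ x j)
  unfold pj
  rw [← smul_eq_mul (a x), ← this]
  refine congrArg (fun g => pplus c r R g (x, κ x j)) ?_
  funext q
  change a (repl κ j q.1 q.2) * f (repl κ j q.1 q.2) = a q.1 • f (repl κ j q.1 q.2)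
  rw [ha, smul_eq_mul]

/-- nothing changes for functions which are holomorphic on the whole `j`-disc through `x` -/
theorem pj_eq_self {j : Fin n} {c : ℂ} {r R : ℝ} (hrR : r < R) {f : V → ℂ} {x : V}
    (hx : ‖κ x j - c‖ < R) (hf : ∀ ζ, ‖ζ - c‖ < R → DifferentiableAt ℂ f (repl κ j x ζ)) :
    pj κ j c r R f x = f x := by
  have h := pplus_eq_self (c := c) (r := r) (R := R) hrR (f := fun q : V × ℂ => f (repl κ j q.1 q.2))
    (t := x) (z := κ x j) hx fun ζ hζ => slice_hol (hf ζ hζ)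
  rw [pj, h]
  change f (repl κ j x (κ x j)) = f x
  rw [repl_self]

/-- holomorphy of the projection -/
theorem differentiableOn_pj {j : Fin n} {c : ℂ} {r R : ℝ} (hrR : r < R) {f : V → ℂ} {Ω Ω' : Set V}
    (hΩ : IsOpen Ω) (hΩ' : IsOpen Ω') (hf : DifferentiableOn ℂ f Ω)
    (h1 : ∀ x ∈ Ω', ‖κ x j - c‖ < R) (h2 : ∀ x ∈ Ω', ∀ ζ ∈ ring c r R, repl κ j x ζ ∈ Ω) :
    DifferentiableOn ℂ (pj κ j c r R f) Ω' := by
  have h3 : DifferentiableOn ℂ (fun q : V × ℂ => f (repl κ j q.1 q.2))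
      (Ω' ×ˢ {z : ℂ | r < ‖z - c‖ ∧ ‖z - c‖ < R}) := by
    have h4 := hf.comp (differentiable_repl κ j).differentiableOn
      (s := Ω' ×ˢ {z : ℂ | r < ‖z - c‖ ∧ ‖z - c‖ < R}) fun q hq => h2 q.1 hq.1 q.2 hq.2
    exact h4
  have h5 := differentiableOn_pplus hrR hΩ' h3
  have h6 : DifferentiableOn ℂ (fun x : V => ((x, κ x j) : V × ℂ)) Ω' := by
    have h7 : Differentiable ℂ fun x : V => κ x j := (differentiable_pi.mp κ.differentiable) j
    exact (differentiable_id.prodMk h7).differentiableOn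
  exact h5.comp h6 fun x hx => ⟨hx, h1 x hx⟩

/-- the box version: the projection is holomorphic on the box with the `j`-th annulus filled -/
theorem pj_holNear {j : Fin n} {c : Fin n → ℂ} {r R : Fin n → ℝ} (hrR : r j < R j) {f : V → ℂ}
    (hf : HolNear f (box κ c r R)) :
    HolNear (pj κ j (c j) (r j) (R j) f) (box κ c (Function.update r j (-1)) R) := by
  rw [holNear_iff_differentiableOn (isOpen_box' _ _ _)] at hf ⊢
  refine differentiableOn_pj hrR (isOpen_box' _ _ _) (isOpen_box' _ _ _) hf (fun x hx => (hx j).2) ?_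
  intro x hx ζ hζ i
  by_cases hi : i = j
  · subst hi
    rw [κ_repl_same]
    exact hζ
  · rw [κ_repl_ne κ hi]
    have := hx i
    rwa [Function.update_of_ne hi] at this

/-- the box version of `pj_eq_self` -/
theorem pj_eq_self_box {j : Fin n} {c : Fin n → ℂ} {r R : Fin n → ℝ} (hrR : r j < R j) {f : V → ℂ}
    (hf : HolNear f (box κ c (Function.update r j (-1)) R)) {x : V}
    (hx : x ∈ box κ c (Function.update r j (-1)) R) : pj κ j (c j) (r j) (R j) f x = f x := by
  rw [holNear_iff_differentiableOn (isOpen_box' _ _ _)] at hf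
  refine pj_eq_self hrR (hx j).2 fun ζ hζ => ?_
  refine hf.differentiableAt ((isOpen_box' _ _ _).mem_nhds fun i => ?_)
  by_cases hi : i = j
  · subst hi
    rw [κ_repl_same, Function.update_self]
    exact ⟨by have := norm_nonneg (ζ - c i); linarith, hζ⟩
  · rw [κ_repl_ne κ hi]
    exact hx i

/-- the box version of `pj_congr` -/
theorem pj_congr_box {j : Fin n} {c : Fin n → ℂ} {r R : Fin n → ℝ} (hrR : r j < R j) {f g : V → ℂ}
    (h : ∀ y ∈ box κ c r R, f y = g y) {x : V}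
    (hx : x ∈ box κ c (Function.update r j (-1)) R) :
    pj κ j (c j) (r j) (R j) f x = pj κ j (c j) (r j) (R j) g x := by
  refine pj_congr hrR (hx j).2 fun ζ hζ => h _ fun i => ?_
  by_cases hi : i = j
  · subst hi
    rw [κ_repl_same]
    exact hζ
  · rw [κ_repl_ne κ hi]
    have := hx i
    rwa [Function.update_of_ne hi] at this

/-- additivity on boxes -/
theorem pj_add_box {j : Fin n} {c : Fin n → ℂ} {r R : Fin n → ℝ} (hrR : r j < R j) {f g : V → ℂ}
    (hf : HolNear f (box κ c r R)) (hg : HolNear g (box κ c r R)) {x : V}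
    (hx : x ∈ box κ c (Function.update r j (-1)) R) :
    pj κ j (c j) (r j) (R j) (fun y => f y + g y) x =
      pj κ j (c j) (r j) (R j) f x + pj κ j (c j) (r j) (R j) g x := by
  have hmem : ∀ ζ ∈ ring (c j) (r j) (R j), repl κ j x ζ ∈ box κ c r R := by
    intro ζ hζ i
    by_cases hi : i = j
    · subst hi
      rw [κ_repl_same]
      exact hζ
    · rw [κ_repl_ne κ hi]
      have := hx i
      rwa [Function.update_of_ne hi] at this
  exact pj_add hrR (hx j).2 (fun ζ hζ => (hf _ (hmem ζ hζ)).differentiableAt)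
    fun ζ hζ => (hg _ (hmem ζ hζ)).differentiableAt

end proj

/-! ### Identity theorem on boxes -/

section ident

variable {V : Type u} [NormedAddCommGroup V] [NormedSpace ℂ V] {n : ℕ} {κ : V ≃L[ℂ] (Fin n → ℂ)}

theorem isPreconnected_ring (c : ℂ) (r R : ℝ) : IsPreconnected (ring c r R) := by
  by_cases hr : 0 ≤ r
  · -- image of a strip under `(ρ, θ) ↦ c + ρ e^{iθ}`
    have h1 : IsPreconnected (Ioo r R ×ˢ (univ : Set ℝ)) :=
      isPreconnected_Ioo.prod isPreconnected_univ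
    have h2 : ring c r R = (fun p : ℝ × ℝ => c + (p.1 : ℂ) * Complex.exp (p.2 * Complex.I)) ''
        (Ioo r R ×ˢ (univ : Set ℝ)) := by
      ext z
      constructor
      · rintro ⟨h3, h4⟩
        refine ⟨(‖z - c‖, Complex.arg (z - c)), ⟨⟨h3, h4⟩, mem_univ _⟩, ?_⟩
        change c + (‖z - c‖ : ℂ) * Complex.exp (Complex.arg (z - c) * Complex.I) = z
        rw [Complex.norm_mul_exp_arg_mul_I]
        ring
      · rintro ⟨⟨ρ, θ⟩, ⟨h3, -⟩, rfl⟩
        have h5 : ‖c + (ρ : ℂ) * Complex.exp (θ * Complex.I) - c‖ = ρ := by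
          rw [add_sub_cancel_left, norm_mul, Complex.norm_exp_ofReal_mul_I, mul_one,
            Complex.norm_real, Real.norm_of_nonneg (hr.trans h3.1.le)]
        change r < ‖c + (ρ : ℂ) * Complex.exp (θ * Complex.I) - c‖ ∧
          ‖c + (ρ : ℂ) * Complex.exp (θ * Complex.I) - c‖ < R
        rw [h5]
        exact h3
    rw [h2]
    refine h1.image _ (Continuous.continuousOn ?_)
    fun_prop
  · have h2 : ring c r R = ball c R := by
      ext z
      rw [mem_ball, dist_eq_norm]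
      exact ⟨fun h => h.2, fun h => ⟨by have := norm_nonneg (z - c); push Not at hr; linarith, h⟩⟩
    rw [h2]
    exact (convex_ball c R).isPreconnected

theorem isPreconnected_box (c : Fin n → ℂ) (r R : Fin n → ℝ) : IsPreconnected (box κ c r R) := by
  have h1 : IsPreconnected (Set.pi univ fun i => ring (c i) (r i) (R i)) :=
    isPreconnected_univ_pi fun i => isPreconnected_ring _ _ _
  have h2 : box κ c r R = κ.symm '' (Set.pi univ fun i => ring (c i) (r i) (R i)) := by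
    ext x
    constructor
    · intro hx
      exact ⟨κ x, fun i _ => hx i, κ.symm_apply_apply x⟩
    · rintro ⟨y, hy, rfl⟩ i
      rw [κ.apply_symm_apply]
      exact hy i (mem_univ i)
  rw [h2]
  exact h1.image _ κ.symm.continuous.continuousOn

/-- identity theorem on boxes: functions holomorphic on a box which agree near one point agree -/
theorem eqOn_box {c : Fin n → ℂ} {r R : Fin n → ℝ} {f g : V → ℂ} (hf : HolNear f (box κ c r R))
    (hg : HolNear g (box κ c r R)) {x : V} (hx : x ∈ box κ c r R) (h : f =ᶠ[𝓝 x] g) :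
    ∀ y ∈ box κ c r R, f y = g y := by
  rw [holNear_iff_differentiableOn (isOpen_box' _ _ _)] at hf hg
  exact eqOn_of_isPreconnected (isOpen_box' _ _ _) (isPreconnected_box _ _ _) hf hg hx h

/-- identity theorem on boxes: agreement on a nonempty smaller box -/
theorem eqOn_box_of_box {c c' : Fin n → ℂ} {r R r' R' : Fin n → ℝ} {f g : V → ℂ}
    (hf : HolNear f (box κ c r R)) (hg : HolNear g (box κ c r R))
    (hne : (box κ c r R ∩ box κ c' r' R').Nonempty)
    (h : ∀ y ∈ box κ c r R ∩ box κ c' r' R', f y = g y) : ∀ y ∈ box κ c r R, f y = g y := by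
  obtain ⟨x, hx⟩ := hne
  refine eqOn_box hf hg hx.1 ?_
  filter_upwards [((isOpen_box' c r R).inter (isOpen_box' c' r' R')).mem_nhds hx] with y hy
  exact h y hy

end ident

end DQ.F
end

section

/-! Module M12, file 3: one sided inverses, regular matrices. -/

set_option autoImplicit false
set_option linter.unusedSectionVars false

open Set Filter Topology Matrix

universe u v w

namespace Pool.Agent.DQ.M12

section Local

variable {E : Type u} [NormedAddCommGroup E] [NormedSpace ℂ E] {p q r s n : ℕ}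

/-- a square matrix of germs with invertible value is invertible -/
theorem isUnit_gmat {A : E → Matrix (Fin p) (Fin p) ℂ} {x : E} (hA : MHolAt A x)
    (h : IsUnit (A x).det) : IsUnit (gmat A x).det := by
  apply isUnit_of_ev
  rw [RingHom.map_det]
  have h1 : (ev x).mapMatrix (gmat A x) = A x := ev_gmat hA
  rw [h1]
  exact h.ne_zero

theorem isUnit_det_of_gmat {A : E → Matrix (Fin p) (Fin p) ℂ} {x : E} (hA : MHolAt A x)
    (h : IsUnit (gmat A x).det) : IsUnit (A x).det := by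
  have h1 := h.map (ev x)
  rw [RingHom.map_det] at h1
  have h2 : (ev x).mapMatrix (gmat A x) = A x := ev_gmat hA
  rwa [h2] at h1

theorem exists_right_inv {A : E → Matrix (Fin p) (Fin q) ℂ} {x : E} (hA : MHolAt A x)
    (h : Function.Surjective (A x).mulVec) :
    ∃ X : Matrix (Fin q) (Fin p) ((O E).St x), gmat A x * X = 1 := by
  choose u hu using fun i : Fin p => h (Pi.single i 1)
  let X₀ : Matrix (Fin q) (Fin p) ℂ := of fun j i => u i j
  have h1 : A x * X₀ = 1 := by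
    ext1 i j
    have := congrFun (hu j) i
    rw [Matrix.mul_apply]
    simp only [Matrix.mulVec, dotProduct] at this
    rw [Matrix.one_apply]
    simp only [X₀, Matrix.of_apply]
    rw [this, Pi.single_apply]
  have h2 : MHolAt (fun y => A y * X₀) x := hA.mul (MHolAt.const X₀ x)
  have h3 : IsUnit (gmat (fun y => A y * X₀) x).det := isUnit_gmat h2 (by rw [h1, det_one]; exact isUnit_one)
  refine ⟨gmat (fun _ => X₀) x * (gmat (fun y => A y * X₀) x)⁻¹, ?_⟩
  rw [← Matrix.mul_assoc, ← gmat_mul hA (MHolAt.const X₀ x), Matrix.mul_nonsing_inv _ h3]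

theorem exists_left_inv {A : E → Matrix (Fin p) (Fin q) ℂ} {x : E} (hA : MHolAt A x)
    (h : Function.Injective (A x).mulVec) :
    ∃ Y : Matrix (Fin q) (Fin p) ((O E).St x), Y * gmat A x = 1 := by
  have h1 : LinearMap.ker (A x).mulVecLin = ⊥ := by
    rw [LinearMap.ker_eq_bot]
    exact h
  obtain ⟨g, hg⟩ := (A x).mulVecLin.exists_leftInverse_of_injective h1
  let Y₀ : Matrix (Fin q) (Fin p) ℂ := LinearMap.toMatrix' g
  have h2 : Y₀ * A x = 1 := by
    have h3 : LinearMap.toMatrix' (g ∘ₗ (A x).mulVecLin) = 1 := by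
      rw [hg, LinearMap.toMatrix'_id]
    rw [LinearMap.toMatrix'_comp] at h3
    have h4 : LinearMap.toMatrix' (A x).mulVecLin = A x := LinearMap.toMatrix'_toLin' (A x)
    rwa [h4] at h3
  have h2' : MHolAt (fun y => Y₀ * A y) x := (MHolAt.const Y₀ x).mul hA
  have h3 : IsUnit (gmat (fun y => Y₀ * A y) x).det :=
    isUnit_gmat h2' (by rw [h2, det_one]; exact isUnit_one)
  refine ⟨(gmat (fun y => Y₀ * A y) x)⁻¹ * gmat (fun _ => Y₀) x, ?_⟩
  rw [Matrix.mul_assoc, ← gmat_mul (MHolAt.const Y₀ x) hA, Matrix.nonsing_inv_mul _ h3]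

theorem surj_of_right_inv {A : E → Matrix (Fin p) (Fin q) ℂ} {x : E} (hA : MHolAt A x)
    {X : Matrix (Fin q) (Fin p) ((O E).St x)} (h : gmat A x * X = 1) :
    Function.Surjective (A x).mulVec := by
  obtain ⟨X', hX', rfl⟩ := exists_gmat X
  have h1 : gmat (fun y => A y * X' y) x = gmat (fun _ => 1) x := by
    rw [gmat_mul hA hX', h, gmat_one]
  have h2 := ((gmat_eq_iff (hA.mul hX') (MHolAt.const 1 x)).mp h1).self_of_nhds
  intro v
  refine ⟨X' x *ᵥ v, ?_⟩
  have h3 : A x * X' x = 1 := h2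
  rw [Matrix.mulVec_mulVec, h3, Matrix.one_mulVec]

theorem inj_of_left_inv {A : E → Matrix (Fin p) (Fin q) ℂ} {x : E} (hA : MHolAt A x)
    {Y : Matrix (Fin q) (Fin p) ((O E).St x)} (h : Y * gmat A x = 1) :
    Function.Injective (A x).mulVec := by
  obtain ⟨Y', hY', rfl⟩ := exists_gmat Y
  have h1 : gmat (fun y => Y' y * A y) x = gmat (fun _ => 1) x := by
    rw [gmat_mul hY' hA, h, gmat_one]
  have h2 := ((gmat_eq_iff (hY'.mul hA) (MHolAt.const 1 x)).mp h1).self_of_nhds
  have h3 : Y' x * A x = 1 := h2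
  intro v w hvw
  have h4 := congrArg (fun u => Y' x *ᵥ u) hvw
  simp only [Matrix.mulVec_mulVec, h3, Matrix.one_mulVec] at h4
  exact h4

/-- unique solutions of `L c = u`, `L` injective, depend holomorphically on the point -/
theorem lift_inj {S : Set E} {L : E → Matrix (Fin p) (Fin q) ℂ} (hL : MHol L S)
    (hinj : ∀ x ∈ S, Function.Injective (L x).mulVec) {u : E → Fin p → ℂ} (hu : VHol u S)
    (h : ∀ x ∈ S, ∃ c, gmat L x *ᵥ c = gvec u x) :
    ∃ c : E → Fin q → ℂ, VHol c S ∧ ∀ x ∈ S, (gmat L x *ᵥ gvec c x = gvec u x) ∧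
      L x *ᵥ c x = u x := by
  classical
  rw [mHol_iff] at hL
  -- local solutions
  have hloc : ∀ x ∈ S, ∃ c : E → Fin q → ℂ, VHolAt c x ∧ ∀ᶠ y in 𝓝 x, L y *ᵥ c y = u y := by
    intro x hx
    obtain ⟨c, hc⟩ := h x hx
    obtain ⟨c, hc', rfl⟩ := exists_gvec c
    exact ⟨c, hc', (mulVec_eq_of_gmat (hL x hx) hc' (hu x hx)).mp hc⟩
  choose! c hc hcu using hloc
  have hinj' : ∀ x ∈ S, ∀ᶠ y in 𝓝 x, Function.Injective (L y).mulVec := by
    intro x hx
    obtain ⟨Y, hY⟩ := exists_left_inv (hL x hx) (hinj x hx)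
    obtain ⟨Y', hY', rfl⟩ := exists_gmat Y
    have h1 : gmat (fun y => Y' y * L y) x = gmat (fun _ => 1) x := by
      rw [gmat_mul hY' (hL x hx), hY, gmat_one]
    have h2 := (gmat_eq_iff (hY'.mul (hL x hx)) (MHolAt.const 1 x)).mp h1
    filter_upwards [h2] with y hy
    have h3 : Y' y * L y = 1 := hy
    intro v w hvw
    have h4 := congrArg (fun u => Y' y *ᵥ u) hvw
    simp only [Matrix.mulVec_mulVec, h3, Matrix.one_mulVec] at h4
    exact h4
  -- the pointwise solution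
  let C' : E → Fin q → ℂ := fun y => if h : ∃ v, L y *ᵥ v = u y then h.choose else 0
  have hC : ∀ x ∈ S, C' =ᶠ[𝓝 x] c x := by
    intro x hx
    filter_upwards [hcu x hx, hinj' x hx] with y h1 h2
    have h3 : ∃ v, L y *ᵥ v = u y := ⟨_, h1⟩
    have h4 : C' y = h3.choose := dif_pos h3
    rw [h4]
    exact h2 (h3.choose_spec.trans h1.symm)
  have hCh : VHol C' S := fun x hx => (hc x hx).congr (hC x hx).symm
  refine ⟨C', hCh, fun x hx => ?_⟩
  have h5 : ∀ᶠ y in 𝓝 x, L y *ᵥ C' y = u y := by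
    filter_upwards [hcu x hx, hC x hx] with y h1 h2
    rw [h2]
    exact h1
  exact ⟨(mulVec_eq_of_gmat (hL x hx) (hCh x hx) (hu x hx)).mpr h5, h5.self_of_nhds⟩

end Local

/-! ### regular matrices over a commutative ring -/

section Alg

variable {R : Type u} [CommRing R] {n N q q' : ℕ}

/-- `Q` generates the left kernel of `P = L U`, `U` with right inverse, `L` with left inverse:
the kernel of `Q` is the image of `L` -/
theorem ker_eq_of_factor {P : Matrix (Fin N) (Fin N) R} {L : Matrix (Fin N) (Fin n) R}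
    {U : Matrix (Fin n) (Fin N) R} {X : Matrix (Fin N) (Fin n) R} {Y : Matrix (Fin n) (Fin N) R}
    (hP : P = L * U) (hX : U * X = 1) (hY : Y * L = 1) {Q : Matrix (Fin q) (Fin N) R}
    (hQ : Q * P = 0) (hQ' : ∀ c : Fin N → R, c ᵥ* P = 0 → ∃ d, d ᵥ* Q = c) :
    Q * L = 0 ∧ (∃ Z : Matrix (Fin N) (Fin q) R, 1 - L * Y = Z * Q) ∧
      ∀ u, Q *ᵥ u = 0 → ∃ c, L *ᵥ c = u := by
  have h1 : Q * L = 0 := by
    have : Q * P * X = 0 := by rw [hQ, Matrix.zero_mul]
    rwa [hP, ← Matrix.mul_assoc, Matrix.mul_assoc, hX, Matrix.mul_one] at this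
  have h2 : ∃ Z : Matrix (Fin N) (Fin q) R, 1 - L * Y = Z * Q := by
    have h3 : (1 - L * Y) * P = 0 := by
      rw [hP, Matrix.sub_mul, Matrix.one_mul, Matrix.mul_assoc L Y, ← Matrix.mul_assoc Y L, hY,
        Matrix.one_mul, sub_self]
    choose d hd using fun i => hQ' (fun j => (1 - L * Y : Matrix (Fin N) (Fin N) R) i j) (by
      funext j
      exact congrFun (congrFun h3 i) j)
    refine ⟨of d, ?_⟩
    ext1 i j
    have := congrFun (hd i) j
    rw [← this]
    rfl
  refine ⟨h1, h2, fun u hu => ?_⟩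
  obtain ⟨Z, hZ⟩ := h2
  refine ⟨Y *ᵥ u, ?_⟩
  have h3 : (1 - L * Y) *ᵥ u = 0 := by
    rw [hZ, ← Matrix.mulVec_mulVec, hu, Matrix.mulVec_zero]
  rw [Matrix.sub_mulVec, Matrix.one_mulVec, sub_eq_zero] at h3
  rw [Matrix.mulVec_mulVec]
  exact h3.symm

/-- in this situation, if `Q'` generates the left kernel of `Q`, the kernel of `Q'` is the image
of `Q` -/
theorem ker_eq_of_factor' {L : Matrix (Fin N) (Fin n) R} {Y : Matrix (Fin n) (Fin N) R}
    {Q : Matrix (Fin q) (Fin N) R} {Z : Matrix (Fin N) (Fin q) R} (hQL : Q * L = 0)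
    (hZ : 1 - L * Y = Z * Q) {Q' : Matrix (Fin q') (Fin q) R}
    (hQ' : ∀ c : Fin q → R, c ᵥ* Q = 0 → ∃ d, d ᵥ* Q' = c) (h : Fin q → R) (hh : Q' *ᵥ h = 0) :
    ∃ u, Q *ᵥ u = h := by
  have h1 : (1 - Q * Z) * Q = 0 := by
    have : Q * (1 - L * Y) = Q * (Z * Q) := by rw [hZ]
    rw [Matrix.mul_sub, Matrix.mul_one, ← Matrix.mul_assoc, hQL, Matrix.zero_mul, sub_zero,
      ← Matrix.mul_assoc] at this
    rw [Matrix.sub_mul, Matrix.one_mul, ← this, sub_self]
  choose d hd using fun i => hQ' (fun j => (1 - Q * Z : Matrix (Fin q) (Fin q) R) i j) (by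
    funext j
    exact congrFun (congrFun h1 i) j)
  have h2 : 1 - Q * Z = of d * Q' := by
    ext1 i j
    have := congrFun (hd i) j
    rw [← this]
    rfl
  refine ⟨Z *ᵥ h, ?_⟩
  have h3 : (1 - Q * Z) *ᵥ h = 0 := by
    rw [h2, ← Matrix.mulVec_mulVec, hh, Matrix.mulVec_zero]
  rw [Matrix.sub_mulVec, Matrix.one_mulVec, sub_eq_zero] at h3
  rw [Matrix.mulVec_mulVec]
  exact h3.symm

end Alg

end Pool.Agent.DQ.M12
end

section

/-! Module M12, file 4: frames of locally free sheaves. -/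

set_option autoImplicit false
set_option linter.unusedSectionVars false

open Set Filter Topology Matrix

universe u v w

namespace Pool.Agent.DQ.M12

variable {B : Type u} [NormedAddCommGroup B] [NormedSpace ℂ B] {n m p q : ℕ}

/-- `f` is a frame of the sheaf `F` near the points of `S` -/
def IsFrame (F : EMod.{u, u, w} (O B)) (f : Fin n → (b : B) → F.St b) (S : Set B) : Prop :=
  ∀ b ∈ S, (∀ i, F.At (f i) b) ∧
    ∀ᶠ b' in 𝓝 b, ∀ t : F.St b', ∃! a : Fin n → (O B).St b', t = ∑ i, a i • f i b'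

theorem freeAt_iff {F : EMod.{u, u, w} (O B)} {b : B} :
    FreeAt F n b ↔ ∃ f : Fin n → (b : B) → F.St b, IsFrame F f {b} := by
  constructor
  · rintro ⟨f, h⟩
    exact ⟨f, fun b' hb' => by rw [mem_singleton_iff.mp hb']; exact h⟩
  · rintro ⟨f, h⟩
    exact ⟨f, h b rfl⟩

theorem IsFrame.mono {F : EMod.{u, u, w} (O B)} {f : Fin n → (b : B) → F.St b} {S S' : Set B}
    (h : IsFrame F f S) (hS : S' ⊆ S) : IsFrame F f S' := fun b hb => h b (hS hb)

theorem IsFrame.at {F : EMod.{u, u, w} (O B)} {f : Fin n → (b : B) → F.St b} {S : Set B}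
    (h : IsFrame F f S) {b : B} (hb : b ∈ S) (i : Fin n) : F.At (f i) b := (h b hb).1 i

/-- coefficients with respect to a frame are unique -/
theorem IsFrame.uniq {F : EMod.{u, u, w} (O B)} {f : Fin n → (b : B) → F.St b} {S : Set B}
    (h : IsFrame F f S) {b : B} (hb : b ∈ S) {a a' : Fin n → (O B).St b}
    (e : ∑ i, a i • f i b = ∑ i, a' i • f i b) : a = a' :=
  ((h b hb).2.self_of_nhds (∑ i, a i • f i b)).unique rfl e

theorem IsFrame.exists {F : EMod.{u, u, w} (O B)} {f : Fin n → (b : B) → F.St b} {S : Set B}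
    (h : IsFrame F f S) {b : B} (hb : b ∈ S) (t : F.St b) :
    ∃ a : Fin n → (O B).St b, t = ∑ i, a i • f i b :=
  ((h b hb).2.self_of_nhds t).exists

/-- coefficients with respect to a frame are functions -/
theorem IsFrame.coeff {F : EMod.{u, u, w} (O B)} {f : Fin n → (b : B) → F.St b} {S : Set B}
    (h : IsFrame F f S) {s : (b : B) → F.St b} (hs : F.On s S) :
    ∃ a : B → Fin n → ℂ, VHol a S ∧ ∀ b ∈ S, s b = ∑ i, gvec a b i • f i b := by
  classical
  -- the germ coefficients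
  have h0 : ∀ b, ∃ a : Fin n → (O B).St b,
      (∃! a : Fin n → (O B).St b, s b = ∑ i, a i • f i b) → s b = ∑ i, a i • f i b := by
    intro b
    by_cases hb : ∃! a : Fin n → (O B).St b, s b = ∑ i, a i • f i b
    · exact ⟨hb.exists.choose, fun _ => hb.exists.choose_spec⟩
    · exact ⟨0, fun hb' => (hb hb').elim⟩
  choose a ha using h0
  have hat : ∀ b ∈ S, ∀ i, (O B).At (fun y => a y i) b := by
    intro b hb i
    obtain ⟨c, hc, hce⟩ := F.near_comb (F.mem_dom (hs b hb)) (hs b hb) (h.at hb) (by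
      obtain ⟨a, ha⟩ := h.exists hb (s b)
      exact mem_span_fam.mpr ⟨a, ha⟩)
    refine (O B).congr (hc i) ?_
    filter_upwards [hce, (h b hb).2] with y h1 h2
    have h3 := ha y (h2 (s y))
    exact congrFun ((h2 (s y)).unique h1 h3) i
  refine ⟨fun y i => ev y (a y i), fun b hb i => (at_ev (hat b hb i)).1, fun b hb => ?_⟩
  have h1 := ha b ((h b hb).2.self_of_nhds (s b))
  refine h1.trans (Finset.sum_congr rfl fun i _ => ?_)
  congr 1
  exact (at_ev (hat b hb i)).2.self_of_nhds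

/-- two frames near `S` differ by an invertible matrix of functions -/
theorem IsFrame.trans {F : EMod.{u, u, w} (O B)} {f f' : Fin n → (b : B) → F.St b} {S : Set B}
    (h : IsFrame F f S) (h' : IsFrame F f' S) :
    ∃ g : B → Matrix (Fin n) (Fin n) ℂ, MHol g S ∧ (∀ b ∈ S, IsUnit (g b).det) ∧
      ∀ b ∈ S, ∀ j, f' j b = ∑ i, gmat g b i j • f i b := by
  choose a ha hae using fun j => h.coeff fun b hb => h'.at hb j
  choose a' ha' hae' using fun j => h'.coeff fun b hb => h.at hb j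
  let g : B → Matrix (Fin n) (Fin n) ℂ := fun b => of fun i j => a j b i
  let g' : B → Matrix (Fin n) (Fin n) ℂ := fun b => of fun i j => a' j b i
  have hg : ∀ b ∈ S, MHolAt g b := fun b hb i j => ha j b hb i
  have hg' : ∀ b ∈ S, MHolAt g' b := fun b hb i j => ha' j b hb i
  have e : ∀ b ∈ S, ∀ j, f' j b = ∑ i, gmat g b i j • f i b := fun b hb j => hae j b hb
  have e' : ∀ b ∈ S, ∀ j, f j b = ∑ i, gmat g' b i j • f' i b := fun b hb j => hae' j b hb
  refine ⟨g, mHol_iff.mpr hg, fun b hb => ?_, e⟩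
  have h1 : gmat g b * gmat g' b = 1 := by
    ext1 i j
    have h2 : ∑ i, (gmat g b * gmat g' b) i j • f i b =
        ∑ i, (1 : Matrix (Fin n) (Fin n) ((O B).St b)) i j • f i b := by
      have h3 : ∑ i, (1 : Matrix (Fin n) (Fin n) ((O B).St b)) i j • f i b = f j b := by
        rw [Finset.sum_eq_single j]
        · rw [Matrix.one_apply_eq, one_smul]
        · intro i _ hij
          rw [Matrix.one_apply_ne hij, zero_smul]
        · intro hj
          exact (hj (Finset.mem_univ j)).elim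
      rw [h3, e' b hb j]
      simp only [e b hb, Matrix.mul_apply, Finset.sum_smul, Finset.smul_sum, mul_smul]
      rw [Finset.sum_comm]
      refine Finset.sum_congr rfl fun x _ => Finset.sum_congr rfl fun y _ => ?_
      rw [smul_smul, smul_smul, mul_comm]
    exact congrFun (h.uniq hb h2) i
  have h2 : IsUnit (gmat g b).det := by
    refine IsUnit.of_mul_eq_one (gmat g' b).det ?_
    rw [← Matrix.det_mul, h1, Matrix.det_one]
  exact isUnit_det_of_gmat (hg b hb) h2

end Pool.Agent.DQ.M12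
end

section

/-! # DQ, module G: definitions -/

set_option autoImplicit false

open Set Filter Topology Module

universe u v w

namespace Pool.Agent.DQ

variable {V : Type u} [NormedAddCommGroup V] [NormedSpace ℂ V]

instance instFinOGerm [FiniteDimensional ℂ V] (x : V) : IsNoetherianRing (OGerm x) := OGerm.isNoetherianRing x

instance instLocOGerm (x : V) : IsLocalRing (OGerm x) := OGerm.isLocalRing x

instance instDomOGerm (x : V) : IsDomain (OGerm x) := OGerm.isDomain x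

/-- the ideal generated by the germs at `x` of the functions `f j` -/
noncomputable def gid {m : ℕ} (f : Fin m → V → ℂ) (x : V) : Ideal (OGerm x) :=
  Ideal.span (range fun j => (gm (f j) x : OGerm x))

/-- near `x` the set `Z` is contained in the zero set of finitely many holomorphic functions whose germs
at `x` generate an ideal of grade `≥ c` -/
def GCodim (Z : Set V) (c : ℕ) (x : V) : Prop :=
  ∃ (m : ℕ) (f : Fin m → V → ℂ), (∀ j, HolAt (f j) x) ∧ (∀ᶠ y in 𝓝 x, y ∈ Z → ∀ j, f j y = 0) ∧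
    GradeGE (gid f x) c

/-- the locus where the sheaf `E` is not locally free -/
def Sing {B : Type u} [NormedAddCommGroup B] [NormedSpace ℂ B] (E : EMod.{u, u, w} (O B)) : Set B :=
  {b | ¬ ∃ r, FreeAt E r b}

/-- the support of the sheaf `F` -/
def Supp {B : Type u} [NormedAddCommGroup B] [NormedSpace ℂ B] (F : EMod.{u, u, w} (O B)) : Set B :=
  {b | ¬ Subsingleton (F.St b)}

end Pool.Agent.DQ
end

section

/-! # DQ, module G, task GS0: the ring of germs is regular local -/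

set_option autoImplicit false

open Set Filter Topology Module IsLocalRing RingTheory.Sequence

universe u

namespace Pool.Agent.DQ

variable {V : Type u} [NormedAddCommGroup V] [NormedSpace ℂ V] [FiniteDimensional ℂ V]

/-- Proof. `IsLocalRing.mem_maximalIdeal`, `mem_nonunits_iff`, `OGerm.isUnit_iff`. -/
theorem mem_maximalIdeal_iff {x : V} (g : OGerm x) : g ∈ maximalIdeal (OGerm x) ↔ val g = 0 := by
  rw [IsLocalRing.mem_maximalIdeal, mem_nonunits_iff, OGerm.isUnit_iff, not_not]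

/-- Proof. `val` is the value of the germ; `gm_coe`, `Filter.Germ.value_..` (the value of the germ of `f` is `f x`, by `rfl`). -/
theorem val_gm_g {f : V → ℂ} {x : V} (hf : HolAt f x) : val (gm f x : OGerm x) = f x := by
  unfold val
  rw [gm_coe hf]
  rfl

/-- The coordinates form a regular system of parameters.

Proof. `RegLoc.of_fin` with `x i = gm (fun y => κ y i - κ x i) x`: the span condition is `OGerm.span_coord` and `mem_maximalIdeal_iff`; the regularity is `OGerm.regular_coord`. -/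
theorem regLoc_coord {n : ℕ} (κ : V ≃L[ℂ] (Fin n → ℂ)) (x : V) :
    RegLoc (OGerm x) (List.ofFn fun i => (gm (fun y => κ y i - κ x i) x : OGerm x)) := by
  apply RegLoc.of_fin
  · ext g
    rw [mem_maximalIdeal_iff]
    exact OGerm.span_coord κ x g
  · intro i g h
    exact OGerm.regular_coord κ x i g h

/-- Proof. Take any `κ : V ≃L[ℂ] (Fin (finrank ℂ V) → ℂ)` (`ContinuousLinearEquiv.ofFinrankEq`), `regLoc_coord`, `List.length_ofFn`. -/
theorem exists_regLoc (x : V) : ∃ xs : List (OGerm x), RegLoc (OGerm x) xs ∧ xs.length = finrank ℂ V := by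
  have κ : V ≃L[ℂ] (Fin (finrank ℂ V) → ℂ) :=
    ContinuousLinearEquiv.ofFinrankEq (by rw [Module.finrank_fin_fun])
  exact ⟨_, regLoc_coord κ x, by rw [List.length_ofFn]⟩

private theorem GS0_gm_sum {m : ℕ} (s : Finset (Fin m)) {f : Fin m → V → ℂ} {x : V}
    (hf : ∀ i ∈ s, HolAt (f i) x) :
    (gm (fun y => ∑ i ∈ s, f i y) x : OGerm x) = ∑ i ∈ s, gm (f i) x := by
  classical
  induction s using Finset.induction_on with
  | empty =>
    simp only [Finset.sum_empty]
    exact gm_zero x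
  | insert a s ha ih =>
    have h1 : (fun y => ∑ i ∈ insert a s, f i y) = f a + fun y => ∑ i ∈ s, f i y := by
      ext y
      simp [Finset.sum_insert ha]
    rw [h1, gm_add (hf a (Finset.mem_insert_self _ _))
      (HolAt.sum s fun i hi => hf i (Finset.mem_insert_of_mem hi)),
      ih fun i hi => hf i (Finset.mem_insert_of_mem hi), Finset.sum_insert ha]

private theorem GS0_gm_comb {m : ℕ} (f : Fin m → V → ℂ) {x : V} (hf : ∀ j, HolAt (f j) x)
    (C : Fin m → V → ℂ) (hC : ∀ j, HolAt (C j) x) :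
    (gm (fun y => ∑ j, C j y * f j y) x : OGerm x) = ∑ j, gm (C j) x * gm (f j) x := by
  rw [GS0_gm_sum Finset.univ (f := fun j y => C j y * f j y) fun j _ => (hC j).mul (hf j)]
  refine Finset.sum_congr rfl fun j _ => ?_
  exact gm_mul (hC j) (hf j)

/-- Every element of `gid f x` is the germ of a holomorphic combination of the `f j`, for which moreover the relation holds near `x`.

Proof. `Submodule.mem_span_range_iff_exists_fun`: `g = ∑ j, c j * gm (f j) x`; `exists_gm` gives `C j` holomorphic near `x` with `gm (C j) x = c j`. `gm_mul`, `gm_add` (finite sums: induction on the finset;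
`gm (fun y => ∑ j, C j y * f j y) x`). -/
theorem exists_comb {m : ℕ} (f : Fin m → V → ℂ) {x : V} (hf : ∀ j, HolAt (f j) x) {g : OGerm x} (hg : g ∈ gid f x) :
    ∃ C : Fin m → V → ℂ, (∀ j, HolAt (C j) x) ∧ gm (fun y => ∑ j, C j y * f j y) x = g := by
  unfold gid at hg
  obtain ⟨c, hc⟩ := (Submodule.mem_span_range_iff_exists_fun (OGerm x)).mp hg
  choose C hC hCc using fun j => exists_gm (c j)
  refine ⟨C, hC, ?_⟩
  rw [GS0_gm_comb f hf C hC, ← hc]
  refine Finset.sum_congr rfl fun j _ => ?_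
  rw [hCc j]
  rfl

/-- Germs of holomorphic combinations belong to `gid f x`. Proof. `gm` of the sum is `∑ j, gm (C j) x * gm (f j) x`. -/
theorem comb_mem {m : ℕ} (f : Fin m → V → ℂ) {x : V} (hf : ∀ j, HolAt (f j) x) (C : Fin m → V → ℂ)
    (hC : ∀ j, HolAt (C j) x) : (gm (fun y => ∑ j, C j y * f j y) x : OGerm x) ∈ gid f x := by
  rw [GS0_gm_comb f hf C hC]
  unfold gid
  exact Ideal.sum_mem _ fun j _ => Ideal.mul_mem_left _ _ (Ideal.subset_span ⟨j, rfl⟩)

/-- **Spreading out**: a relation `g ∈ gid f` at `x` holds near `x`.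

Proof. `exists_comb` gives `C`; `gm_eq_iff`: `g = ∑ C j f j` near `x`, so (eventually_eventually_nhds) near every `y` near `x`, where everything is holomorphic (`HolAt.eventually`); `comb_mem` at `y`, and
`gm g y = gm (∑ …) y` (`gm_eq_iff`). -/
theorem mem_gid_near {m : ℕ} (f : Fin m → V → ℂ) {x : V} (hf : ∀ j, HolAt (f j) x) {g : V → ℂ} (hg : HolAt g x)
    (h : (gm g x : OGerm x) ∈ gid f x) : ∀ᶠ y in 𝓝 x, (gm g y : OGerm y) ∈ gid f y := by
  obtain ⟨C, hC, hCg⟩ := exists_comb f hf h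
  have hcomb : HolAt (fun y => ∑ j, C j y * f j y) x :=
    HolAt.sum Finset.univ fun j _ => (hC j).mul (hf j)
  have h1 := (gm_eq_iff hcomb hg).mp hCg
  filter_upwards [eventually_eventually_nhds.mpr h1, hg.eventually, hcomb.eventually,
    eventually_all.mpr fun j => (hC j).eventually, eventually_all.mpr fun j => (hf j).eventually]
    with y hy hgy hcy hCy hfy
  rw [← (gm_eq_iff hcy hgy).mpr hy]
  exact comb_mem f hfy C hCy

/-- If `gid f x ≤ gid f' x` then the same near `x`. Proof. `mem_gid_near` for the finitely many generators; `Ideal.span_le`. -/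
theorem gid_le_near {m m' : ℕ} (f : Fin m → V → ℂ) (f' : Fin m' → V → ℂ) {x : V} (hf : ∀ j, HolAt (f j) x)
    (hf' : ∀ j, HolAt (f' j) x) (h : gid f x ≤ gid f' x) : ∀ᶠ y in 𝓝 x, gid f y ≤ gid f' y := by
  have h1 : ∀ j, ∀ᶠ y in 𝓝 x, (gm (f j) y : OGerm y) ∈ gid f' y := fun j =>
    mem_gid_near f' hf' (hf j) (h (Ideal.subset_span ⟨j, rfl⟩))
  filter_upwards [eventually_all.mpr h1] with y hy
  unfold gid
  rw [Ideal.span_le]
  rintro _ ⟨j, rfl⟩
  exact hy j

/-- Every ideal of `OGerm x` is of the form `gid f x`.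

Proof. The ring is noetherian, so `I` is generated by a finite set, `I = Ideal.span (range a)`, `a : Fin m → OGerm x` (`Submodule.fg_iff_exists_fin_generating_family`); `exists_gm`. -/
theorem exists_gid {x : V} (I : Ideal (OGerm x)) :
    ∃ (m : ℕ) (f : Fin m → V → ℂ), (∀ j, HolAt (f j) x) ∧ gid f x = I := by
  have hfg : I.FG := (isNoetherianRing_iff_ideal_fg (OGerm x)).mp inferInstance I
  obtain ⟨m, a, ha⟩ := Submodule.fg_iff_exists_fin_generating_family.mp hfg
  choose f hf hfa using fun j => exists_gm (a j)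
  refine ⟨m, f, hf, ?_⟩
  unfold gid
  simp only [hfa]
  exact ha

/-- Functions in the ideal vanish at common zeros: if `gm g y ∈ gid f y`, `g` and the `f j` are holomorphic near `y` and `f j y = 0` for all `j`, then `g y = 0`.

Proof. `exists_comb`, `gm_eq_iff`, evaluate at `y` (`Filter.EventuallyEq.eq_of_nhds`). -/
theorem eq_zero_of_mem_gid {m : ℕ} (f : Fin m → V → ℂ) {y : V} (hf : ∀ j, HolAt (f j) y) {g : V → ℂ} (hg : HolAt g y)
    (h : (gm g y : OGerm y) ∈ gid f y) (h0 : ∀ j, f j y = 0) : g y = 0 := by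
  obtain ⟨C, hC, hCg⟩ := exists_comb f hf h
  have hcomb : HolAt (fun y => ∑ j, C j y * f j y) y :=
    HolAt.sum Finset.univ fun j _ => (hC j).mul (hf j)
  have h1 := (gm_eq_iff hcomb hg).mp hCg
  rw [← h1.eq_of_nhds]
  simp [h0]

end Pool.Agent.DQ
end

section

/-! # DQ, module G, task GS4a: prime decomposition of an ideal, spread out -/

set_option autoImplicit false

open Set Filter Topology Module

universe u

namespace Pool.Agent.DQ

variable {V : Type u} [NormedAddCommGroup V] [NormedSpace ℂ V] [FiniteDimensional ℂ V]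

/-- `J` is near `x₀` a family of ideals generated by finitely many holomorphic functions -/
private def GS4aRep (J : ∀ x : V, Ideal (OGerm x)) (x₀ : V) : Prop :=
  ∃ (m : ℕ) (q : Fin m → V → ℂ), (∀ l, HolAt (q l) x₀) ∧ ∀ᶠ x in 𝓝 x₀, gid q x = J x

omit [FiniteDimensional ℂ V] in
private theorem GS4a_rep_self {m : ℕ} (f : Fin m → V → ℂ) {x₀ : V} (hf : ∀ j, HolAt (f j) x₀) :
    GS4aRep (fun x => gid f x) x₀ := ⟨m, f, hf, Eventually.of_forall fun _ => rfl⟩

omit [FiniteDimensional ℂ V] in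
private theorem GS4a_rep_one (x₀ : V) : GS4aRep (fun x : V => (1 : Ideal (OGerm x))) x₀ := by
  refine ⟨1, fun _ => (1 : V → ℂ), fun _ => HolAt.const 1 x₀, Eventually.of_forall fun x => ?_⟩
  unfold gid
  have h : (range fun _ : Fin 1 => (gm (1 : V → ℂ) x : OGerm x)) = {1} := by
    rw [range_const, gm_one]
  rw [h, Ideal.span_singleton_one]
  exact Ideal.one_eq_top.symm

omit [FiniteDimensional ℂ V] in
private theorem GS4a_rep_mul {J J' : ∀ x : V, Ideal (OGerm x)} {x₀ : V} (h : GS4aRep J x₀) (h' : GS4aRep J' x₀) :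
    GS4aRep (fun x => J x * J' x) x₀ := by
  obtain ⟨m, q, hq, hJ⟩ := h
  obtain ⟨m', q', hq', hJ'⟩ := h'
  refine ⟨m * m', fun l => q (finProdFinEquiv.symm l).1 * q' (finProdFinEquiv.symm l).2,
    fun l => (hq _).mul (hq' _), ?_⟩
  filter_upwards [hJ, hJ', eventually_all.mpr fun l => (hq l).eventually,
    eventually_all.mpr fun l => (hq' l).eventually] with x h1 h2 h3 h4
  rw [← h1, ← h2]
  unfold gid
  rw [Ideal.span_mul_span']
  congr 1
  ext g
  constructor
  · rintro ⟨l, rfl⟩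
    exact ⟨_, ⟨(finProdFinEquiv.symm l).1, rfl⟩, _, ⟨(finProdFinEquiv.symm l).2, rfl⟩, (gm_mul (h3 _) (h4 _)).symm⟩
  · rintro ⟨_, ⟨i, rfl⟩, _, ⟨j, rfl⟩, rfl⟩
    refine ⟨finProdFinEquiv (i, j), ?_⟩
    simp only [Equiv.symm_apply_apply]
    exact gm_mul (h3 _) (h4 _)

omit [FiniteDimensional ℂ V] in
private theorem GS4a_rep_pow {J : ∀ x : V, Ideal (OGerm x)} {x₀ : V} (h : GS4aRep J x₀) (k : ℕ) :
    GS4aRep (fun x => J x ^ k) x₀ := by
  induction k with
  | zero => simpa only [pow_zero] using GS4a_rep_one x₀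
  | succ k ih => simpa only [pow_succ] using GS4a_rep_mul ih h

omit [FiniteDimensional ℂ V] in
private theorem GS4a_rep_prod {ι : Type*} (S : Finset ι) (J : ι → ∀ x : V, Ideal (OGerm x)) {x₀ : V}
    (h : ∀ i, GS4aRep (J i) x₀) : GS4aRep (fun x => ∏ i ∈ S, J i x) x₀ := by
  classical
  induction S using Finset.induction_on with
  | empty => simpa only [Finset.prod_empty] using GS4a_rep_one x₀
  | insert a S ha ih => simpa only [Finset.prod_insert ha] using GS4a_rep_mul (h a) ih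

/-- **Prime decomposition near a point.** (The ideals `gid (h i) x` are prime at `x₀` only.)

Proof. `R = OGerm x₀` is noetherian, `I = gid f x₀`. The minimal primes of `I` are finitely many (`Ideal.finite_minimalPrimes_of_isNoetherianRing`): enumerate them as `p i`, `i : Fin s`. Then `∏ i, p i ≤ ⨅ i, p i = I.radical` (`Ideal.sInf_minimalPrimes`,
`Ideal.prod_le_inf`) and `I.radical ^ k ≤ I` for some `k` (`Ideal.exists_radical_pow_le_of_fg`), so `(∏ i, p i) ^ k ≤ I` (`Ideal.pow_right_mono`). If `I = ⊤` there are no minimal primes, `s = 0`, and the product is `⊤`.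
`exists_gid` gives `h i` with `gid (h i) x₀ = p i`. Near `x₀`: `gid f x ≤ gid (h i) x` (`gid_le_near`, since `I ≤ p i`). Finally `(∏ i, gid (h i) x) ^ k ≤ gid f x` near `x₀`: the product of ideals `gid h x * gid h' x` is `gid (all products h j * h' j') x` for all `x` near `x₀` (where the functions
are holomorphic; `Ideal.span_mul_span'`, `gm_mul`; index set `Fin m × Fin m' ≃ Fin (m * m')`, `finProdFinEquiv`); so by induction there are finitely many functions `q l`, holomorphic near `x₀`, with `(∏ i, gid (h i) x) ^ k = gid q x` for `x` near `x₀`; then `gid_le_near`. -/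
theorem exists_primes_near {m : ℕ} (f : Fin m → V → ℂ) {x₀ : V} (hf : ∀ j, HolAt (f j) x₀) :
    ∃ (s k : ℕ) (mm : Fin s → ℕ) (h : ∀ i, Fin (mm i) → V → ℂ), (∀ i j, HolAt (h i j) x₀) ∧
      (∀ i, (gid (h i) x₀).IsPrime) ∧
      ∀ᶠ x in 𝓝 x₀, (∀ i, gid f x ≤ gid (h i) x) ∧ (∏ i, gid (h i) x) ^ k ≤ gid f x := by
  classical
  have hfin := Ideal.finite_minimalPrimes_of_isNoetherianRing (OGerm x₀) (gid f x₀)
  obtain ⟨s, p, hp⟩ : ∃ (s : ℕ) (p : Fin s → Ideal (OGerm x₀)), range p = (gid f x₀).minimalPrimes := by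
    obtain ⟨s, p, hp⟩ := hfin.fin_param
    exact ⟨s, p, hp.2⟩
  obtain ⟨k, hk⟩ := Ideal.exists_radical_pow_le_of_fg (gid f x₀) (IsNoetherian.noetherian _)
  choose mm h hh hgid using fun i => exists_gid (x := x₀) (p i)
  have hmem : ∀ i, p i ∈ (gid f x₀).minimalPrimes := fun i => hp ▸ mem_range_self i
  refine ⟨s, k, mm, h, hh, fun i => ?_, ?_⟩
  · rw [hgid i]
    exact (hmem i).1.1
  have hle : ∀ i, gid f x₀ ≤ gid (h i) x₀ := fun i => by
    rw [hgid i]
    exact (hmem i).1.2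
  obtain ⟨M, q, hq, hqJ⟩ := GS4a_rep_pow (GS4a_rep_prod Finset.univ (fun i x => gid (h i) x)
    fun i => GS4a_rep_self (h i) (hh i)) k
  have hprod : (∏ i, gid (h i) x₀) ≤ (gid f x₀).radical := by
    rw [← Ideal.sInf_minimalPrimes]
    refine le_sInf fun P hP => ?_
    rw [← hp] at hP
    obtain ⟨i, rfl⟩ := hP
    rw [← hgid i]
    exact Ideal.prod_le_inf.trans (Finset.inf_le (Finset.mem_univ i))
  have hq0 : gid q x₀ ≤ gid f x₀ := by
    rw [hqJ.self_of_nhds]
    exact (Ideal.pow_right_mono hprod k).trans hk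
  filter_upwards [eventually_all.mpr fun i => gid_le_near f (h i) hf (hh i) (hle i), hqJ,
    gid_le_near q f hq hf hq0] with x h1 h2 h3
  exact ⟨h1, h2 ▸ h3⟩

/-- Not all affine linear functions vanishing at `b₀` lie in a prime ideal which is not maximal.

Proof. Suppose all `gm (fun y => l y - l b₀) x₀` lie in `P`. If `x₀ ≠ b₀` there is `l` with `l x₀ ≠ l b₀` (`exists_dual_vector`, or a coordinate), so the germ is a unit (`OGerm.isUnit_iff`, `val_gm_g`), `P = ⊤`, contradiction. If `x₀ = b₀`: `P` contains all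
`gm (fun y => κ y i - κ x₀ i) x₀`, so the whole maximal ideal (`OGerm.span_coord`, `mem_maximalIdeal_iff`), so `P` is the maximal ideal (`P ≠ ⊤`, maximality). -/
theorem exists_form_notMem {x₀ : V} (b₀ : V) {P : Ideal (OGerm x₀)} (hP : P.IsPrime)
    (hP' : P ≠ IsLocalRing.maximalIdeal (OGerm x₀)) :
    ∃ l : V →L[ℂ] ℂ, (gm (fun y => l y - l b₀) x₀ : OGerm x₀) ∉ P := by
  by_contra hcon
  have hall : ∀ l : V →L[ℂ] ℂ, (gm (fun y => l y - l b₀) x₀ : OGerm x₀) ∈ P := by
    intro l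
    by_contra hl
    exact hcon ⟨l, hl⟩
  have hhol : ∀ (l : V →L[ℂ] ℂ) (c : ℂ) (x : V), HolAt (fun y => l y - c) x := fun l c x =>
    Eventually.of_forall fun y => l.differentiableAt.sub (differentiableAt_const _)
  by_cases hx : x₀ = b₀
  · subst hx
    let κ : V ≃L[ℂ] (Fin (finrank ℂ V) → ℂ) := ContinuousLinearEquiv.ofFinrankEq (by simp)
    have hle : IsLocalRing.maximalIdeal (OGerm x₀) ≤ P := by
      intro g hg
      rw [mem_maximalIdeal_iff, OGerm.span_coord κ x₀ g] at hg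
      refine (Ideal.span_le.mpr ?_) hg
      rintro _ ⟨i, rfl⟩
      exact hall ((ContinuousLinearMap.proj i).comp (κ : V →L[ℂ] (Fin (finrank ℂ V) → ℂ)))
    exact hP' (le_antisymm (IsLocalRing.le_maximalIdeal hP.ne_top) hle)
  · have hne : ‖x₀ - b₀‖ ≠ 0 := by
      rw [norm_ne_zero_iff]
      exact sub_ne_zero.mpr hx
    obtain ⟨l, -, hl⟩ := exists_dual_vector ℂ (x₀ - b₀) hne
    refine hP.ne_top (Ideal.eq_top_of_isUnit_mem _ (hall l) ?_)
    rw [OGerm.isUnit_iff, val_gm_g (hhol l _ x₀), ← map_sub, hl]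
    exact RCLike.ofReal_ne_zero.mpr hne

end Pool.Agent.DQ
end
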