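import Pool.Agent.DQ.Mg_MP_4aa2a9_ag.G002
import Pool.Agent.Lib.MP_4aa2a9_ag.Mg.G009
import Pool.Agent.Lib.MP_4aa2a9_ag.Mg.G013
import Pool.Agent.Lib.MP_4aa2a9_ag.Mg.G014
import Pool.Agent.Lib.MP_4aa2a9_ag.Mg.G012
import Pool.Agent.Lib.MP_4aa2a9_ag.Mg.G017
import Pool.Agent.DQ.Mg_MP_4aa2a9_ag.G003

section

/-! # One half of the extension theorem -/

set_option autoImplicit false

open Set Filter Topology Metric Matrix

universe u

namespace Pool.Agent.DQ.X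

private theorem H1_dual {n : ℕ} {A B : Mt n} (hA : IsUnit A.det) (hB : IsUnit B.det) :
    ((A⁻¹)ᵀ * ((B⁻¹)ᵀ)⁻¹)ᵀ * (A * B⁻¹) = 1 := by
  have h1 : ((B⁻¹)ᵀ)⁻¹ = Bᵀ := by
    rw [Matrix.transpose_nonsing_inv, Matrix.nonsing_inv_nonsing_inv]
    rw [Matrix.det_transpose]
    exact hB
  rw [h1, Matrix.transpose_mul, Matrix.transpose_transpose, Matrix.transpose_transpose]
  calc B * A⁻¹ * (A * B⁻¹) = B * (A⁻¹ * A) * B⁻¹ := by simp only [Matrix.mul_assoc]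
    _ = 1 := by rw [Matrix.nonsing_inv_mul _ hA, Matrix.mul_one, Matrix.mul_nonsing_inv _ hB]

private theorem H1_eq {n : ℕ} {ρ : Rad} {g : BB n ρ} (hg : IsUnit (Tt (SS n ρ) g)) {z : ℂ}
    (h1 : ρ.r ≤ ‖z‖) (h2 : ‖z‖ ≤ ρ.R) {S S₀ : Mt n} (he : ev z g = S * S₀⁻¹) (c : ℂ) :
    c • evp z (g * (1 + tau (SS n ρ) g)) =
      S * (S₀⁻¹ * (c • 1 + evm z (c • tau (SS n ρ) g))) := by
  rw [← ev_eq_evp (P_mul_tau _ hg) z, ev_mul h1 h2, map_add, ev_one h1 h2,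
    ev_eq_evm (P_tau _ hg) z, he, map_smul, ← smul_add, ← Matrix.mul_assoc, Matrix.mul_smul]

private theorem H1_evm {n : ℕ} {ρ : Rad} {E : Type*} [NormedAddCommGroup E] [NormedSpace ℂ E]
    {S : Set E} {f : E → ℂ} (hf : DifferentiableOn ℂ f S) (hS : ∀ x ∈ S, ρ.r < ‖f x‖)
    {b : E → BB n ρ} (hb : DifferentiableOn ℂ b S) :
    DifferentiableOn ℂ (fun x => evm (f x) (b x)) S := by
  have hm : DifferentiableOn ℂ (evm : ℂ → BB n ρ →L[ℂ] Mt n) {z | ρ.r < ‖z‖} := evm_hol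
  let i1 : NormedAddCommGroup (BB n ρ →L[ℂ] Mt n) := ContinuousLinearMap.toNormedAddCommGroup
  let i2 : NormedSpace ℂ (BB n ρ →L[ℂ] Mt n) := ContinuousLinearMap.toNormedSpace
  have h1 : DifferentiableOn ℂ (fun x : E => (evm (f x) : BB n ρ →L[ℂ] Mt n)) S :=
    DifferentiableOn.comp (G := BB n ρ →L[ℂ] Mt n) (g := fun z : ℂ => evm z)
      (f := f) hm hf fun x hx => hS x hx
  exact h1.clm_apply hb

private theorem H1_evp {n : ℕ} {ρ : Rad} {E : Type*} [NormedAddCommGroup E] [NormedSpace ℂ E]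
    {S : Set E} {f : E → ℂ} (hf : DifferentiableOn ℂ f S) (hS : ∀ x ∈ S, f x ∈ ball (0 : ℂ) ρ.R)
    {b : E → BB n ρ} (hb : DifferentiableOn ℂ b S) :
    DifferentiableOn ℂ (fun x => evp (f x) (b x)) S := by
  have hm : DifferentiableOn ℂ (evp : ℂ → BB n ρ →L[ℂ] Mt n) (ball 0 ρ.R) := evp_hol
  let i1 : NormedAddCommGroup (BB n ρ →L[ℂ] Mt n) := ContinuousLinearMap.toNormedAddCommGroup
  let i2 : NormedSpace ℂ (BB n ρ →L[ℂ] Mt n) := ContinuousLinearMap.toNormedSpace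
  have h1 : DifferentiableOn ℂ (fun x : E => (evp (f x) : BB n ρ →L[ℂ] Mt n)) S :=
    DifferentiableOn.comp (G := BB n ρ →L[ℂ] Mt n) (g := fun z : ℂ => evp z)
      (f := f) hm hf fun x hx => hS x hx
  exact h1.clm_apply hb

/-- TASK H1. PROOF. Let `ρ` be the `Rad` with the radii `r1`, `r2`, `w₀ = ((aw + bw) / 2 : ℝ)`. `exists_sym` for `s` gives `G`, `G'`, and for
`s* x = ((s x)⁻¹)ᵀ` gives `H`, `H'` (`s*` is differentiable by `diffOn_inv`, `diffOn_transpose`, its determinant is a unit). For `r1 ≤ ‖z‖ ≤ r2`: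
`(ev z (H p))ᵀ * ev z (G p) = 1`: indeed `(s* (p, z) * (s* (t₀, w₀, z))⁻¹)ᵀ = s₀ * s⁻¹` with `s = s (p, z)`, `s₀ = s (t₀, w₀, z)`, and `s₀ s⁻¹ * (s s₀⁻¹) = 1`
(`Matrix.transpose_mul`, `Matrix.transpose_nonsing_inv`, ...). `good_tube` (`S = SS n ρ`) gives `ε₁`, `j`, `j'`. Let `τ p = tau (SS n ρ) (G p)`,
differentiable on `ball t₀ ε₁ ×ˢ An j j'` (`tau_differentiableOn`). Let `W` be given by `hgen (ball t₀ ε₁)`. For `t ∈ W`, `fib_mero` with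
`s (t, ·)`, `b₀ z = (s (t₀, w₀, z))⁻¹`, `b₀' z = s (t₀, w₀, z)` (differentiable on `An rz Rz`), `a`, `b` from `GenFib`, `g w = G (t, w)`, gives `δ` and `σ` as needed in
`hlk` (`Z = BB n ρ`, centre `t₀`, radius `ε₁`, annulus `An j j'`). `hlk` gives `ε'`, `χ`, `σ`. Define
`V (t, w, z) = (s (t₀, w₀, z))⁻¹ * (χ (t, w) • 1 + evm z (σ (t, w)))`, `U (t, w, z) = χ (t, w) • evp z (G (t, w) * (1 + τ (t, w)))`.
`V` is differentiable on `ball t₀ ε' ×ˢ ball 0 j' ×ˢ An r1 r2` (`evm_hol` composed, `DifferentiableOn.clm_apply`), `U` on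
`ball t₀ ε' ×ˢ An j j' ×ˢ ball 0 r2` (`evp_hol`). On the product of the annuli: `σ = χ • τ`, `evm z (τ) + 1 = ev z (1 + τ)` (`P_tau`, `ev_eq_evm`, `ev_one`), so
`s * V = χ • (s * s₀⁻¹) * ev z (1 + τ) = χ • ev z (G) * ev z (1 + τ) = χ • ev z (G * (1 + τ)) = U` (`ev_mul`, `P_mul_tau`, `ev_eq_evp`).
`birkhoff` for `g = G p`, `g' = H p`: `evp z (G (1 + τ))` has a left inverse for `‖z‖ < r2`, so its determinant is a unit
(`Matrix.isUnit_det_of_left_inverse`), and `χ (t, w) ≠ 0` for `j < ‖w‖` (`Matrix.det_smul`). -/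
theorem half {T : Type u} [NormedAddCommGroup T] [NormedSpace ℂ T] [FiniteDimensional ℂ T] {n : ℕ}
    {t₀ : T} {ε : ℝ} (hε : 0 < ε) {rw Rw rz Rz : ℝ} (hw : 0 < rw) (hz : 0 < rz)
    {s : T × ℂ × ℂ → Mt n} (hs : DifferentiableOn ℂ s (ball t₀ ε ×ˢ An rw Rw ×ˢ An rz Rz))
    (hd : ∀ x ∈ ball t₀ ε ×ˢ An rw Rw ×ˢ An rz Rz, IsUnit (s x).det)
    (hgen : ∀ N ∈ 𝓝 t₀, ∃ W : Set T, IsOpen W ∧ W.Nonempty ∧ W ⊆ N ∧
      ∀ t ∈ W, GenFib (fun x => (s x)ᵀ) rw Rw rz Rz t)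
    {aw bw r1 r2 : ℝ} (haw : rw ≤ aw) (hab : aw < bw) (hbw : bw ≤ Rw) (h1 : rz < r1)
    (h12 : r1 < r2) (h2 : r2 < Rz) :
    ∃ (jw jw' ε' : ℝ) (V U : T × ℂ × ℂ → Mt n), aw < jw ∧ jw < jw' ∧ jw' < bw ∧ 0 < ε' ∧
      ε' ≤ ε ∧ DifferentiableOn ℂ V (ball t₀ ε' ×ˢ ball 0 jw' ×ˢ An r1 r2) ∧
      DifferentiableOn ℂ U (ball t₀ ε' ×ˢ An jw jw' ×ˢ ball 0 r2) ∧
      (∀ x ∈ ball t₀ ε' ×ˢ An jw jw' ×ˢ ball (0 : ℂ) r2, IsUnit (U x).det) ∧
      ∀ x ∈ ball t₀ ε' ×ˢ An jw jw' ×ˢ An r1 r2, U x = s x * V x := by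
  obtain ⟨w₀, hw₀d⟩ : ∃ w₀ : ℂ, w₀ = (((aw + bw) / 2 : ℝ) : ℂ) := ⟨_, rfl⟩
  have haw0 : 0 < aw := hw.trans_le haw
  have hnw : ‖w₀‖ = (aw + bw) / 2 := by
    rw [hw₀d, Complex.norm_real, Real.norm_eq_abs, abs_of_pos (by linarith)]
  have hw₀ : w₀ ∈ An aw bw := ⟨by rw [hnw]; linarith, by rw [hnw]; linarith⟩
  have hw₀A : w₀ ∈ An rw Rw := ⟨haw.trans_lt hw₀.1, hw₀.2.trans_le hbw⟩
  obtain ⟨ρ, hρ1, hρ2⟩ : ∃ ρ : Rad, ρ.r = r1 ∧ ρ.R = r2 := ⟨⟨r1, r2, hz.trans h1, h12⟩, rfl, rfl⟩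
  have hr1 : rz < ρ.r := by rw [hρ1]; exact h1
  have hr2 : ρ.R < Rz := by rw [hρ2]; exact h2
  have hopen : IsOpen (ball t₀ ε ×ˢ An rw Rw ×ˢ An rz Rz) :=
    isOpen_ball.prod ((isOpen_An _ _).prod (isOpen_An _ _))
  obtain ⟨G, G', hGd, hGd', hGG, hG1, hGe⟩ := exists_sym hε (ρ := ρ) hr1 hr2 hs hd hw₀A
  have hsd : DifferentiableOn ℂ (fun x => ((s x)⁻¹)ᵀ) (ball t₀ ε ×ˢ An rw Rw ×ˢ An rz Rz) :=
    diffOn_transpose (diffOn_inv hopen hs hd)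
  obtain ⟨H, H', hHd, hHd', hHH, hH1, hHe⟩ := exists_sym hε (ρ := ρ) hr1 hr2 hsd (fun x hx => by
    rw [Matrix.det_transpose]
    exact Matrix.isUnit_nonsing_inv_det _ (hd x hx)) hw₀A
  have hdz : ∀ z : ℂ, ρ.r ≤ ‖z‖ → ‖z‖ ≤ ρ.R → IsUnit (s (t₀, w₀, z)).det := fun z hz1 hz2 =>
    hd _ ⟨mem_ball_self hε, hw₀A, hr1.trans_le hz1, hz2.trans_lt hr2⟩
  have hHG : ∀ p ∈ ball t₀ ε ×ˢ An rw Rw, ∀ z : ℂ, ρ.r ≤ ‖z‖ → ‖z‖ ≤ ρ.R →
      (ev z (H p))ᵀ * ev z (G p) = 1 := by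
    intro p hp z hz1 hz2
    rw [hGe p hp z hz1 hz2, hHe p hp z hz1 hz2]
    exact H1_dual (hd _ ⟨hp.1, hp.2, hr1.trans_le hz1, hz2.trans_lt hr2⟩) (hdz z hz1 hz2)
  obtain ⟨ε₁, j, j', hε₁, hε₁ε, hj1, hjj, hj2, hunit⟩ := good_tube (SS n ρ) hε hw haw hbw hw₀
    hGd hGd' hHd hHd' hGG hHH hG1 hH1
  have hj0 : 0 < j := haw0.trans hj1
  have hbb : ball t₀ ε₁ ⊆ ball t₀ ε := ball_subset_ball hε₁ε
  have hAj : An j j' ⊆ An rw Rw := fun w hw' =>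
    ⟨(haw.trans_lt hj1).trans hw'.1, (hw'.2.trans hj2).trans_le hbw⟩
  have hug : ∀ t ∈ ball t₀ ε₁, ∀ w ∈ An j j', IsUnit (Tt (SS n ρ) (G (t, w))) ∧
      IsUnit (Tt (SS n ρ) (H (t, w))) := fun t ht w hw' => hunit t ht w hw'.1.le hw'.2.le
  have hτ : DifferentiableOn ℂ (fun p => tau (SS n ρ) (G p)) (ball t₀ ε₁ ×ˢ An j j') :=
    tau_differentiableOn (SS n ρ) (isOpen_ball.prod (isOpen_An _ _))
      (hGd.mono (prod_mono hbb hAj)) (fun p hp => (hug p.1 hp.1 p.2 hp.2).1)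
  obtain ⟨W, hWo, hWn, hWs, hW⟩ := hgen (ball t₀ ε₁) (ball_mem_nhds _ hε₁)
  -- slices of `s`
  have hs₀ : DifferentiableOn ℂ (fun z => s (t₀, w₀, z)) (An rz Rz) := by
    refine hs.comp (f := fun z : ℂ => (t₀, w₀, z)) ?_ ?_
    · exact ((differentiable_const _).prodMk
        ((differentiable_const _).prodMk differentiable_id)).differentiableOn
    · intro z hz'
      exact ⟨mem_ball_self hε, hw₀A, hz'⟩
  have hs₀i : DifferentiableOn ℂ (fun z => (s (t₀, w₀, z))⁻¹) (An rz Rz) :=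
    diffOn_inv (isOpen_An _ _) hs₀ fun z hz' => hd _ ⟨mem_ball_self hε, hw₀A, hz'⟩
  obtain ⟨ε', χ, σ, hε', hε'ε, hχ, hσ, hχ0, hσe⟩ := hlk hε₁ hj0 hjj hτ hWo hWn hWs (by
    intro t ht
    obtain ⟨p, a, b, ha, hb, hab', hsa, hsb⟩ := hW t ht
    exact fib_mero (s := fun x => s (t, x)) (b₀ := fun z => (s (t₀, w₀, z))⁻¹)
      (b₀' := fun z => s (t₀, w₀, z)) hw hz hr1 hr2 (haw.trans hj1.le) hjj (hj2.trans_le hbw)
      hs₀i hs₀ (fun z hz' => Matrix.mul_nonsing_inv _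
        (hd _ ⟨mem_ball_self hε, hw₀A, hz'⟩)) ha hb hab' hsa hsb (g := fun w => G (t, w))
      (fun w hw' z hz1 hz2 => hGe (t, w) ⟨hbb (hWs ht), hw'⟩ z hz1 hz2)
      (fun w hw' => (hug t (hWs ht) w hw').1))
  have hbb' : ball t₀ ε' ⊆ ball t₀ ε₁ := ball_subset_ball hε'ε
  have hp12 : Differentiable ℂ fun x : T × ℂ × ℂ => (x.1, x.2.1) :=
    differentiable_fst.prodMk (differentiable_fst.comp differentiable_snd)
  have hp3 : Differentiable ℂ fun x : T × ℂ × ℂ => x.2.2 :=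
    differentiable_snd.comp differentiable_snd
  refine ⟨j, j', ε', fun x => (s (t₀, w₀, x.2.2))⁻¹ * (χ (x.1, x.2.1) • 1 +
      evm x.2.2 (σ (x.1, x.2.1))),
    fun x => χ (x.1, x.2.1) • evp x.2.2 (G (x.1, x.2.1) * (1 + tau (SS n ρ) (G (x.1, x.2.1)))),
    hj1, hjj, hj2, hε', hε'ε.trans hε₁ε, ?_, ?_, ?_, ?_⟩
  · have a1 : DifferentiableOn ℂ (fun x : T × ℂ × ℂ => (s (t₀, w₀, x.2.2))⁻¹)
        (ball t₀ ε' ×ˢ ball 0 j' ×ˢ An r1 r2) :=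
      hs₀i.comp (f := fun x : T × ℂ × ℂ => x.2.2) hp3.differentiableOn fun x hx =>
        ⟨h1.trans hx.2.2.1, hx.2.2.2.trans h2⟩
    have a2 : DifferentiableOn ℂ (fun x : T × ℂ × ℂ => χ (x.1, x.2.1))
        (ball t₀ ε' ×ˢ ball 0 j' ×ˢ An r1 r2) :=
      hχ.comp (f := fun x : T × ℂ × ℂ => (x.1, x.2.1)) hp12.differentiableOn fun x hx =>
        ⟨hx.1, mem_univ _⟩
    have a3 : DifferentiableOn ℂ (fun x : T × ℂ × ℂ => σ (x.1, x.2.1))
        (ball t₀ ε' ×ˢ ball 0 j' ×ˢ An r1 r2) :=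
      hσ.comp (f := fun x : T × ℂ × ℂ => (x.1, x.2.1)) hp12.differentiableOn fun x hx =>
        ⟨hx.1, hx.2.1⟩
    have a4 : DifferentiableOn ℂ (fun x : T × ℂ × ℂ => evm x.2.2 (σ (x.1, x.2.1)))
        (ball t₀ ε' ×ˢ ball 0 j' ×ˢ An r1 r2) :=
      H1_evm hp3.differentiableOn (fun x hx => by
        rw [hρ1]
        exact hx.2.2.1) a3
    exact a1.mul ((a2.smul (differentiableOn_const (1 : Mt n))).add a4)
  · have a2 : DifferentiableOn ℂ (fun x : T × ℂ × ℂ => χ (x.1, x.2.1))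
        (ball t₀ ε' ×ˢ An j j' ×ˢ ball 0 r2) :=
      hχ.comp (f := fun x : T × ℂ × ℂ => (x.1, x.2.1)) hp12.differentiableOn fun x hx =>
        ⟨hx.1, mem_univ _⟩
    have a3 : DifferentiableOn ℂ (fun x : T × ℂ × ℂ => G (x.1, x.2.1))
        (ball t₀ ε' ×ˢ An j j' ×ˢ ball 0 r2) :=
      hGd.comp (f := fun x : T × ℂ × ℂ => (x.1, x.2.1)) hp12.differentiableOn fun x hx =>
        ⟨hbb (hbb' hx.1), hAj hx.2.1⟩
    have a5 : DifferentiableOn ℂ (fun x : T × ℂ × ℂ => tau (SS n ρ) (G (x.1, x.2.1)))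
        (ball t₀ ε' ×ˢ An j j' ×ˢ ball 0 r2) :=
      hτ.comp (f := fun x : T × ℂ × ℂ => (x.1, x.2.1)) hp12.differentiableOn fun x hx =>
        ⟨hbb' hx.1, hx.2.1⟩
    have a6 : DifferentiableOn ℂ (fun x : T × ℂ × ℂ =>
        G (x.1, x.2.1) * (1 + tau (SS n ρ) (G (x.1, x.2.1))))
        (ball t₀ ε' ×ˢ An j j' ×ˢ ball 0 r2) :=
      a3.mul ((differentiableOn_const (1 : BB n ρ)).add a5)
    have a4 : DifferentiableOn ℂ (fun x : T × ℂ × ℂ =>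
        evp x.2.2 (G (x.1, x.2.1) * (1 + tau (SS n ρ) (G (x.1, x.2.1)))))
        (ball t₀ ε' ×ˢ An j j' ×ˢ ball 0 r2) :=
      H1_evp hp3.differentiableOn (fun x hx => by
        rw [hρ2]
        exact hx.2.2) a6
    exact a2.smul a4
  · intro x hx
    have hp : (x.1, x.2.1) ∈ ball t₀ ε ×ˢ An rw Rw := ⟨hbb (hbb' hx.1), hAj hx.2.1⟩
    have hu := hug x.1 (hbb' hx.1) x.2.1 hx.2.1
    have hb := (birkhoff hu.1 hu.2 (hHG _ hp)).2 x.2.2 (by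
      rw [hρ2]
      exact hx.2.2)
    have hE : IsUnit (evp x.2.2 (G (x.1, x.2.1) * (1 + tau (SS n ρ) (G (x.1, x.2.1))))).det :=
      Matrix.isUnit_det_of_left_inverse hb
    show IsUnit (χ (x.1, x.2.1) •
      evp x.2.2 (G (x.1, x.2.1) * (1 + tau (SS n ρ) (G (x.1, x.2.1))))).det
    rw [Matrix.det_smul]
    refine IsUnit.mul (IsUnit.pow _ (isUnit_iff_ne_zero.2 ?_)) hE
    exact hχ0 x.1 hx.1 x.2.1 hx.2.1.1
  · intro x hx
    have hp : (x.1, x.2.1) ∈ ball t₀ ε ×ˢ An rw Rw := ⟨hbb (hbb' hx.1), hAj hx.2.1⟩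
    have hu := hug x.1 (hbb' hx.1) x.2.1 hx.2.1
    have hz1 : ρ.r ≤ ‖x.2.2‖ := by rw [hρ1]; exact hx.2.2.1.le
    have hz2 : ‖x.2.2‖ ≤ ρ.R := by rw [hρ2]; exact hx.2.2.2.le
    have h3 := H1_eq hu.1 hz1 hz2 (hGe _ hp x.2.2 hz1 hz2) (χ (x.1, x.2.1))
    show χ (x.1, x.2.1) • evp x.2.2 (G (x.1, x.2.1) * (1 + tau (SS n ρ) (G (x.1, x.2.1)))) = _
    rw [h3, ← hσe x.1 hx.1 x.2.1 hx.2.1]

end Pool.Agent.DQ.X
end

section

/-! # Exchange of the two variables -/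

set_option autoImplicit false

open Set Filter Topology Metric Matrix

universe u

namespace Pool.Agent.DQ.X

private theorem H2a_mhol {p q : ℕ} {a : ℂ × ℂ → Matrix (Fin p) (Fin q) ℂ} {A B : Set ℂ}
    (ha : MHol a (A ×ˢ B)) : MHol (fun x => a x.swap) (B ×ˢ A) := by
  intro i j x hx
  exact HolAt.comp (f := fun y => a y i j) (g := Prod.swap) (ha i j x.swap ⟨hx.2, hx.1⟩)
    (Eventually.of_forall fun _ => differentiableAt_snd.prodMk differentiableAt_fst)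

/-- TASK H2a. PROOF. Let `(p, a, b)` be given by `h`, `a = g b` on the product of the annuli. Take `(p, a', b')` with `a' (z, w) = b (w, z)` and
`b' (z, w) = a (w, z)`: `a' = g⁻¹ b'` (`Matrix.nonsing_inv_mul`). `MHol` of the composition with the swap: `HolAt.comp`
(the swap `Prod.swap` is a continuous linear map). -/
theorem GenFib.swap {T : Type u} {n : ℕ} {g : T × ℂ × ℂ → Matrix (Fin n) (Fin n) ℂ}
    {rw Rw rz Rz : ℝ} {t : T} (hd : ∀ x ∈ ring 0 rw Rw ×ˢ ring 0 rz Rz, IsUnit (g (t, x)).det)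
    (h : GenFib g rw Rw rz Rz t) :
    GenFib (fun x => (g (x.1, x.2.2, x.2.1))⁻¹) rz Rz rw Rw t := by
  obtain ⟨p, a, b, ha, hb, hab, hsa, hsb⟩ := h
  refine ⟨p, fun x => b x.swap, fun x => a x.swap, H2a_mhol hb, H2a_mhol ha, ?_, ?_, ?_⟩
  · intro x hx
    have hx' : x.swap ∈ ring 0 rw Rw ×ˢ ring 0 rz Rz := ⟨hx.2, hx.1⟩
    change b x.swap = (g (t, x.swap))⁻¹ * a x.swap
    rw [hab _ hx', ← Matrix.mul_assoc, Matrix.nonsing_inv_mul _ (hd _ hx'), Matrix.one_mul]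
  · exact fun x hx => hsb x.swap ⟨hx.2, hx.1⟩
  · exact fun x hx => hsa x.swap ⟨hx.2, hx.1⟩

end Pool.Agent.DQ.X
end

section

/-! Module M12, file 5: definitions (regions in the base, Laurent projections, frames over the
base, the data of the shell). -/

set_option autoImplicit false
set_option linter.unusedSectionVars false

open Set Filter Topology Matrix

universe u v w

namespace Pool.Agent.DQ.M12

/-! ### Regions in the base -/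

/-- inner and outer radii in the directions `w`, `z` -/
structure Rd where
  rw : ℝ
  Rw : ℝ
  rz : ℝ
  Rz : ℝ
  rw_pos : 0 < rw
  rw_lt : rw < Rw
  rz_pos : 0 < rz
  rz_lt : rz < Rz

/-- `ρ'` is strictly inside `ρ` -/
structure Rd.In (ρ' ρ : Rd) : Prop where
  rw : ρ.rw < ρ'.rw
  Rw : ρ'.Rw < ρ.Rw
  rz : ρ.rz < ρ'.rz
  Rz : ρ'.Rz < ρ.Rz

section Regions

variable {k : ℕ}

/-- product region in the base `(t, w, z)` with centre `b₀` -/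
def rg (b₀ : Bs k) (T : Set (Fin k → ℂ)) (W Z : Set ℂ) : Set (Bs k) :=
  {b | b.1 ∈ T ∧ b.2.1 - b₀.2.1 ∈ W ∧ b.2.2 - b₀.2.2 ∈ Z}

/-- `T × annulus × disc` -/
def B1 (b₀ : Bs k) (ρ : Rd) (T : Set (Fin k → ℂ)) : Set (Bs k) :=
  rg b₀ T (ring 0 ρ.rw ρ.Rw) (ring 0 (-1) ρ.Rz)
/-- `T × disc × annulus` -/
def B2 (b₀ : Bs k) (ρ : Rd) (T : Set (Fin k → ℂ)) : Set (Bs k) :=
  rg b₀ T (ring 0 (-1) ρ.Rw) (ring 0 ρ.rz ρ.Rz)
/-- `T × annulus × annulus` -/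
def B12 (b₀ : Bs k) (ρ : Rd) (T : Set (Fin k → ℂ)) : Set (Bs k) :=
  rg b₀ T (ring 0 ρ.rw ρ.Rw) (ring 0 ρ.rz ρ.Rz)
/-- `T × disc × disc` -/
def B0 (b₀ : Bs k) (ρ : Rd) (T : Set (Fin k → ℂ)) : Set (Bs k) :=
  rg b₀ T (ring 0 (-1) ρ.Rw) (ring 0 (-1) ρ.Rz)

theorem rg_mono {b₀ : Bs k} {T T' : Set (Fin k → ℂ)} {W W' Z Z' : Set ℂ} (hT : T ⊆ T')
    (hW : W ⊆ W') (hZ : Z ⊆ Z') : rg b₀ T W Z ⊆ rg b₀ T' W' Z' :=
  fun _ hb => ⟨hT hb.1, hW hb.2.1, hZ hb.2.2⟩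

theorem ring_mono {c : ℂ} {r R r' R' : ℝ} (h : r' ≤ r) (h' : R ≤ R') : ring c r R ⊆ ring c r' R' :=
  fun _ hz => ⟨h.trans_lt hz.1, hz.2.trans_le h'⟩

theorem ring_subset_cring {c : ℂ} {r R : ℝ} : ring c r R ⊆ cring c r R :=
  fun _ hz => ⟨hz.1.le, hz.2.le⟩

theorem cring_subset_ring {c : ℂ} {r R r' R' : ℝ} (h : r' < r) (h' : R < R') :
    cring c r R ⊆ ring c r' R' := fun _ hz => ⟨h.trans_le hz.1, hz.2.trans_lt h'⟩

theorem ring_disc {c : ℂ} {r R : ℝ} : ring c r R ⊆ ring c (-1) R :=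
  fun z hz => ⟨lt_of_lt_of_le (by norm_num) (norm_nonneg _), hz.2⟩

theorem cring_disc {c : ℂ} {R R' : ℝ} (h' : R < R') : cring c (-1) R ⊆ ring c (-1) R' :=
  fun z hz => ⟨lt_of_lt_of_le (by norm_num) (norm_nonneg _), hz.2.trans_lt h'⟩

theorem B12_sub_B1 (b₀ : Bs k) (ρ : Rd) (T : Set (Fin k → ℂ)) : B12 b₀ ρ T ⊆ B1 b₀ ρ T :=
  rg_mono le_rfl le_rfl ring_disc
theorem B12_sub_B2 (b₀ : Bs k) (ρ : Rd) (T : Set (Fin k → ℂ)) : B12 b₀ ρ T ⊆ B2 b₀ ρ T :=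
  rg_mono le_rfl ring_disc le_rfl
theorem B1_sub_B0 (b₀ : Bs k) (ρ : Rd) (T : Set (Fin k → ℂ)) : B1 b₀ ρ T ⊆ B0 b₀ ρ T :=
  rg_mono le_rfl ring_disc le_rfl
theorem B2_sub_B0 (b₀ : Bs k) (ρ : Rd) (T : Set (Fin k → ℂ)) : B2 b₀ ρ T ⊆ B0 b₀ ρ T :=
  rg_mono le_rfl le_rfl ring_disc
theorem B12_eq (b₀ : Bs k) (ρ : Rd) (T : Set (Fin k → ℂ)) :
    B12 b₀ ρ T = B1 b₀ ρ T ∩ B2 b₀ ρ T := by
  ext b
  constructor
  · intro h
    exact ⟨B12_sub_B1 _ _ _ h, B12_sub_B2 _ _ _ h⟩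
  · rintro ⟨h1, h2⟩
    exact ⟨h1.1, h1.2.1, h2.2.2⟩

theorem isOpen_rg {b₀ : Bs k} {T : Set (Fin k → ℂ)} {W Z : Set ℂ} (hT : IsOpen T) (hW : IsOpen W)
    (hZ : IsOpen Z) : IsOpen (rg b₀ T W Z) := by
  have h1 : Continuous fun b : Bs k => b.1 := continuous_fst
  have h2 : Continuous fun b : Bs k => b.2.1 - b₀.2.1 :=
    (continuous_fst.comp continuous_snd).sub continuous_const
  have h3 : Continuous fun b : Bs k => b.2.2 - b₀.2.2 :=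
    (continuous_snd.comp continuous_snd).sub continuous_const
  exact (hT.preimage h1).inter ((hW.preimage h2).inter (hZ.preimage h3))

theorem isOpen_B1 {b₀ : Bs k} {ρ : Rd} {T : Set (Fin k → ℂ)} (hT : IsOpen T) :
    IsOpen (B1 b₀ ρ T) := isOpen_rg hT (DQ.F.isOpen_ring _ _ _) (DQ.F.isOpen_ring _ _ _)
theorem isOpen_B2 {b₀ : Bs k} {ρ : Rd} {T : Set (Fin k → ℂ)} (hT : IsOpen T) :
    IsOpen (B2 b₀ ρ T) := isOpen_rg hT (DQ.F.isOpen_ring _ _ _) (DQ.F.isOpen_ring _ _ _)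
theorem isOpen_B12 {b₀ : Bs k} {ρ : Rd} {T : Set (Fin k → ℂ)} (hT : IsOpen T) :
    IsOpen (B12 b₀ ρ T) := isOpen_rg hT (DQ.F.isOpen_ring _ _ _) (DQ.F.isOpen_ring _ _ _)
theorem isOpen_B0 {b₀ : Bs k} {ρ : Rd} {T : Set (Fin k → ℂ)} (hT : IsOpen T) :
    IsOpen (B0 b₀ ρ T) := isOpen_rg hT (DQ.F.isOpen_ring _ _ _) (DQ.F.isOpen_ring _ _ _)

/-! ### Laurent projections in the directions `w` and `z` -/

/-- nonnegative part of the Laurent expansion in the direction `w` (annulus `r < |w| < R`) -/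
noncomputable def pw (b₀ : Bs k) (r R : ℝ) (f : Bs k → ℂ) (b : Bs k) : ℂ :=
  DQ.F.pplus b₀.2.1 r R (fun q : ((Fin k → ℂ) × ℂ) × ℂ => f (q.1.1, q.2, q.1.2))
    ((b.1, b.2.2), b.2.1)

/-- nonnegative part of the Laurent expansion in the direction `z` (annulus `r < |z| < R`) -/
noncomputable def pz (b₀ : Bs k) (r R : ℝ) (f : Bs k → ℂ) (b : Bs k) : ℂ :=
  DQ.F.pplus b₀.2.2 r R (fun q : ((Fin k → ℂ) × ℂ) × ℂ => f (q.1.1, q.1.2, q.2))
    ((b.1, b.2.1), b.2.2)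

/-- componentwise `pw` -/
noncomputable def pwv {p : ℕ} (b₀ : Bs k) (r R : ℝ) (u : Bs k → Fin p → ℂ) (b : Bs k) :
    Fin p → ℂ := fun i => pw b₀ r R (fun y => u y i) b

/-- componentwise `pz` -/
noncomputable def pzv {p : ℕ} (b₀ : Bs k) (r R : ℝ) (u : Bs k → Fin p → ℂ) (b : Bs k) :
    Fin p → ℂ := fun i => pz b₀ r R (fun y => u y i) b

end Regions

/-! ### Frames of `M₀` over the base -/

section Frames

variable {V : Type} [NormedAddCommGroup V] [NormedSpace ℂ V] {k d n m : ℕ}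

/-- the combination `∑ c_j f_j` of sections, with coefficients depending only on the base point -/
noncomputable def comb {M₀ : EMod.{0, 0, w} (O V)} (e : V ≃L[ℂ] Bs k × (Fin d → ℂ))
    (f : Fin n → (x : V) → M₀.St x) (c : Bs k → Fin n → ℂ) (x : V) : M₀.St x :=
  ∑ j, om (fun y => c (e y).1 j) x • f j x

/-- `f` is a frame of `M₀` over the open set `S` of the base (the fibres are the compact sets `D`):
every section of `M₀` near the fibres over an open subset of `S` is a unique combination of the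
`f j` with coefficients depending only on the base point -/
structure Fr (M₀ : EMod.{0, 0, w} (O V)) (e : V ≃L[ℂ] Bs k × (Fin d → ℂ)) (D : Set (Fin d → ℂ))
    (f : Fin n → (x : V) → M₀.St x) (S : Set (Bs k)) : Prop where
  isOpen : IsOpen S
  on : ∀ j, ∀ b ∈ S, M₀.On (f j) (fib e D b)
  gen : ∀ T ⊆ S, IsOpen T → ∀ s, (∀ b ∈ T, M₀.On s (fib e D b)) →
    ∃ c : Bs k → Fin n → ℂ, VHol c T ∧ ∀ b ∈ T, ∀ x ∈ fib e D b, s x = comb e f c x
  uniq : ∀ T ⊆ S, IsOpen T → ∀ c : Bs k → Fin n → ℂ, VHol c T →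
    (∀ b ∈ T, ∀ x ∈ fib e D b, comb e f c x = 0) → ∀ b ∈ T, c b = 0

/-- the frames over the shell: `f` over `T × disc × annulus`, `f'` over `T × annulus × disc`,
`f' = f g` over `T × annulus × annulus`; `c₀` is the centre, `D` the closed polydisc with centre
`c₀.2` and radius `Rv` -/
structure SF (M₀ : EMod.{0, 0, w} (O V)) (e : V ≃L[ℂ] Bs k × (Fin d → ℂ))
    (c₀ : Bs k × (Fin d → ℂ)) (Rv : ℝ) (T : Set (Fin k → ℂ)) (ρ : Rd)
    (f f' : Fin n → (x : V) → M₀.St x) (g : Bs k → Matrix (Fin n) (Fin n) ℂ) : Prop where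
  Rv_pos : 0 < Rv
  T_open : IsOpen T
  coh : ∀ b ∈ B1 c₀.1 ρ T ∪ B2 c₀.1 ρ T, M₀.Coh (fib e (Metric.closedBall c₀.2 Rv) b)
  bd : ∀ b ∈ B1 c₀.1 ρ T ∪ B2 c₀.1 ρ T, ∀ x ∈ fib e (Metric.closedBall c₀.2 Rv) b,
    ‖(e x).2 - c₀.2‖ = Rv → Subsingleton (M₀.St x)
  fr2 : Fr M₀ e (Metric.closedBall c₀.2 Rv) f (B2 c₀.1 ρ T)
  fr1 : Fr M₀ e (Metric.closedBall c₀.2 Rv) f' (B1 c₀.1 ρ T)
  g_hol : MHol g (B12 c₀.1 ρ T)
  g_det : ∀ b ∈ B12 c₀.1 ρ T, IsUnit (g b).det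
  trans : ∀ b ∈ B12 c₀.1 ρ T, ∀ x ∈ fib e (Metric.closedBall c₀.2 Rv) b, ∀ j,
    f' j x = comb e f (fun y i => g y i j) x

/-- the matrices given by the extension theorem -/
structure SX (b₀ : Bs k) (T : Set (Fin k → ℂ)) (ρ : Rd) (g : Bs k → Matrix (Fin n) (Fin n) ℂ)
    (U : Bs k → Matrix (Fin n) (Fin m) ℂ) (L₁ : Bs k → Matrix (Fin m) (Fin n) ℂ)
    (V' : Bs k → Matrix (Fin n) (Fin m) ℂ) (L₂ : Bs k → Matrix (Fin m) (Fin n) ℂ)
    (P : Bs k → Matrix (Fin m) (Fin m) ℂ) : Prop where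
  U_hol : MHol U (B2 b₀ ρ T)
  L₁_hol : MHol L₁ (B2 b₀ ρ T)
  V_hol : MHol V' (B1 b₀ ρ T)
  L₂_hol : MHol L₂ (B1 b₀ ρ T)
  P_hol : MHol P (B0 b₀ ρ T)
  U_surj : ∀ b ∈ B2 b₀ ρ T, Function.Surjective (U b).mulVec
  L₁_inj : ∀ b ∈ B2 b₀ ρ T, Function.Injective (L₁ b).mulVec
  V_surj : ∀ b ∈ B1 b₀ ρ T, Function.Surjective (V' b).mulVec
  L₂_inj : ∀ b ∈ B1 b₀ ρ T, Function.Injective (L₂ b).mulVec
  UgV : ∀ b ∈ B12 b₀ ρ T, U b = g b * V' b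
  L₂g : ∀ b ∈ B12 b₀ ρ T, L₂ b = L₁ b * g b
  P₂ : ∀ b ∈ B2 b₀ ρ T, P b = L₁ b * U b
  P₁ : ∀ b ∈ B1 b₀ ρ T, P b = L₂ b * V' b

variable {N q q' s s' s'' : ℕ}

/-- the matrices used in the sequel: over the shell the kernel of `Q` is the image of `L₁`, `L₂`, and
the kernel of `Q'` is the image of `Q`; `K` generates the kernel of `Q`, `R` the kernel of `K` and
`τ` the kernel of `Q'` everywhere -/
structure SM (b₀ : Bs k) (T : Set (Fin k → ℂ)) (ρ : Rd) (g : Bs k → Matrix (Fin n) (Fin n) ℂ)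
    (L₁ L₂ : Bs k → Matrix (Fin N) (Fin n) ℂ) (Q : Bs k → Matrix (Fin q) (Fin N) ℂ)
    (Q' : Bs k → Matrix (Fin q') (Fin q) ℂ) (K : Bs k → Matrix (Fin N) (Fin s) ℂ)
    (R : Bs k → Matrix (Fin s) (Fin s') ℂ) (τ : Bs k → Matrix (Fin q) (Fin s'') ℂ) : Prop where
  L₁_hol : MHol L₁ (B2 b₀ ρ T)
  L₂_hol : MHol L₂ (B1 b₀ ρ T)
  L₁_inj : ∀ b ∈ B2 b₀ ρ T, Function.Injective (L₁ b).mulVec
  L₂_inj : ∀ b ∈ B1 b₀ ρ T, Function.Injective (L₂ b).mulVec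
  L₂g : ∀ b ∈ B12 b₀ ρ T, L₂ b = L₁ b * g b
  QL₁ : ∀ b ∈ B2 b₀ ρ T, gmat Q b * gmat L₁ b = 0
  QL₂ : ∀ b ∈ B1 b₀ ρ T, gmat Q b * gmat L₂ b = 0
  kerQ₂ : ∀ b ∈ B2 b₀ ρ T, ∀ u, gmat Q b *ᵥ u = 0 → ∃ c, gmat L₁ b *ᵥ c = u
  kerQ₁ : ∀ b ∈ B1 b₀ ρ T, ∀ u, gmat Q b *ᵥ u = 0 → ∃ c, gmat L₂ b *ᵥ c = u
  kerQ' : ∀ b ∈ B1 b₀ ρ T ∪ B2 b₀ ρ T, ∀ h, gmat Q' b *ᵥ h = 0 → ∃ u, gmat Q b *ᵥ u = h
  Q'Q : ∀ b ∈ B0 b₀ ρ T, gmat Q' b * gmat Q b = 0
  exK : Ex Q K (B0 b₀ ρ T)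
  exR : Ex K R (B0 b₀ ρ T)
  exτ : Ex Q' τ (B0 b₀ ρ T)

/-- the centred coordinate `v_i` on `V` -/
noncomputable def vc (e : V ≃L[ℂ] Bs k × (Fin d → ℂ)) (c₀ : Bs k × (Fin d → ℂ)) (i : Fin d) (x : V) : ℂ :=
  (e x).2 i - c₀.2 i

/-- the action of the coordinates `v_i` on the frames (`A i`, `A' i`), on the generators of the kernel
of `Q` (`Nv i`), and the characteristic polynomials (coefficients `a i`) -/
structure SV {M₀ : EMod.{0, 0, w} (O V)} (e : V ≃L[ℂ] Bs k × (Fin d → ℂ))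
    (c₀ : Bs k × (Fin d → ℂ)) (Rv : ℝ) (T : Set (Fin k → ℂ)) (ρ : Rd)
    (f f' : Fin n → (x : V) → M₀.St x) (L₁ L₂ : Bs k → Matrix (Fin N) (Fin n) ℂ)
    (K : Bs k → Matrix (Fin N) (Fin s) ℂ) (A A' : Fin d → Bs k → Matrix (Fin n) (Fin n) ℂ)
    (m₂ m₁ : Bs k → Matrix (Fin n) (Fin s) ℂ) (Nv : Fin d → Bs k → Matrix (Fin s) (Fin s) ℂ)
    (a : Fin d → Fin n → Bs k → ℂ) : Prop where
  A_hol : ∀ i, MHol (A i) (B2 c₀.1 ρ T)
  A'_hol : ∀ i, MHol (A' i) (B1 c₀.1 ρ T)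
  vA : ∀ i j, ∀ b ∈ B2 c₀.1 ρ T, ∀ x ∈ fib e (Metric.closedBall c₀.2 Rv) b,
    om (vc e c₀ i) x • f j x = comb e f (fun y l => A i y l j) x
  vA' : ∀ i j, ∀ b ∈ B1 c₀.1 ρ T, ∀ x ∈ fib e (Metric.closedBall c₀.2 Rv) b,
    om (vc e c₀ i) x • f' j x = comb e f' (fun y l => A' i y l j) x
  m₂_hol : MHol m₂ (B2 c₀.1 ρ T)
  m₁_hol : MHol m₁ (B1 c₀.1 ρ T)
  Km₂ : ∀ b ∈ B2 c₀.1 ρ T, K b = L₁ b * m₂ b
  Km₁ : ∀ b ∈ B1 c₀.1 ρ T, K b = L₂ b * m₁ b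
  N_hol : ∀ i, MHol (Nv i) (B0 c₀.1 ρ T)
  Nm₂ : ∀ i, ∀ b ∈ B2 c₀.1 ρ T, m₂ b * Nv i b = A i b * m₂ b
  Nm₁ : ∀ i, ∀ b ∈ B1 c₀.1 ρ T, m₁ b * Nv i b = A' i b * m₁ b
  a_hol : ∀ i j, HolNear (a i j) (B0 c₀.1 ρ T)
  root : ∀ i, ∀ b ∈ B0 c₀.1 ρ T, ∀ ζ, mon (a i) b ζ = 0 → ‖ζ‖ < Rv
  chA : ∀ i, ∀ b ∈ B2 c₀.1 ρ T, A i b ^ n + ∑ j, a i j b • A i b ^ (j : ℕ) = 0
  chA' : ∀ i, ∀ b ∈ B1 c₀.1 ρ T, A' i b ^ n + ∑ j, a i j b • A' i b ^ (j : ℕ) = 0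
  chN : ∀ i, ∀ b ∈ B0 c₀.1 ρ T, K b * (Nv i b ^ n + ∑ j, a i j b • Nv i b ^ (j : ℕ)) = 0

end Frames

end Pool.Agent.DQ.M12
end

section

/-! Module M12: the regions of the base as boxes. -/

set_option autoImplicit false
set_option linter.unusedSectionVars false

open Set Filter Topology Matrix

universe u v w

namespace Pool.Agent.DQ.M12

variable {k l : ℕ}

/-- product coordinates of the base: `κ t`, `w`, `z` (not centred) -/
noncomputable def kb (κ : (Fin k → ℂ) ≃L[ℂ] (Fin l → ℂ)) : Bs k ≃L[ℂ] (Fin (l + 2) → ℂ) :=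
  (κ.prodCongr (ContinuousLinearEquiv.finTwoArrow ℂ ℂ).symm).trans (appE l 2)

/-- data vector in the product coordinates -/
def vb {α : Type*} (a : Fin l → α) (b c : α) : Fin (l + 2) → α := Fin.append a ![b, c]

theorem kb_T (κ : (Fin k → ℂ) ≃L[ℂ] (Fin l → ℂ)) (b : Bs k) (i : Fin l) :
    kb κ b (Fin.castAdd 2 i) = κ b.1 i := by
  simp only [kb, ContinuousLinearEquiv.trans_apply, appE_left,
    ContinuousLinearEquiv.prodCongr_apply]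

theorem kb_W (κ : (Fin k → ℂ) ≃L[ℂ] (Fin l → ℂ)) (b : Bs k) :
    kb κ b (Fin.natAdd l 0) = b.2.1 := by
  simp only [kb, ContinuousLinearEquiv.trans_apply, appE_right,
    ContinuousLinearEquiv.prodCongr_apply]
  rfl

theorem kb_Z (κ : (Fin k → ℂ) ≃L[ℂ] (Fin l → ℂ)) (b : Bs k) :
    kb κ b (Fin.natAdd l 1) = b.2.2 := by
  simp only [kb, ContinuousLinearEquiv.trans_apply, appE_right,
    ContinuousLinearEquiv.prodCongr_apply]
  rfl

theorem forall_ib {P : Fin (l + 2) → Prop} :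
    (∀ i, P i) ↔ (∀ i : Fin l, P (Fin.castAdd 2 i)) ∧ P (Fin.natAdd l 0) ∧ P (Fin.natAdd l 1) := by
  constructor
  · intro h
    exact ⟨fun i => h _, h _, h _⟩
  · rintro ⟨h1, h2, h3⟩ i
    refine Fin.addCases (fun j => h1 j) (fun j => ?_) i
    match j with
    | 0 => exact h2
    | 1 => exact h3

@[simp] theorem vb_T {α : Type*} (a : Fin l → α) (b c : α) (i : Fin l) :
    vb a b c (Fin.castAdd 2 i) = a i := by simp [vb, Fin.append_left]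

@[simp] theorem vb_W {α : Type*} (a : Fin l → α) (b c : α) : vb a b c (Fin.natAdd l 0) = b := by
  rw [vb, Fin.append_right]; rfl

@[simp] theorem vb_Z {α : Type*} (a : Fin l → α) (b c : α) : vb a b c (Fin.natAdd l 1) = c := by
  rw [vb, Fin.append_right]; rfl

theorem rg_eq_box (b₀ : Bs k) (κ : (Fin k → ℂ) ≃L[ℂ] (Fin l → ℂ)) (cT : Fin l → ℂ)
    (rT RT : Fin l → ℝ) (a b a' b' : ℝ) :
    rg b₀ (box κ cT rT RT) (ring 0 a b) (ring 0 a' b') =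
      box (kb κ) (vb cT b₀.2.1 b₀.2.2) (vb rT a a') (vb RT b b') := by
  ext x
  show _ ↔ ∀ i, kb κ x i ∈ ring (vb cT b₀.2.1 b₀.2.2 i) (vb rT a a' i) (vb RT b b' i)
  rw [forall_ib]
  simp only [vb_T, vb_W, vb_Z, kb_T, kb_W, kb_Z]
  constructor
  · rintro ⟨h1, h2, h3⟩
    refine ⟨h1, ?_, ?_⟩
    · simpa [ring] using h2
    · simpa [ring] using h3
  · rintro ⟨h1, h2, h3⟩
    refine ⟨h1, ?_, ?_⟩
    · simpa [ring] using h2
    · simpa [ring] using h3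

theorem rg_eq_cbox (b₀ : Bs k) (κ : (Fin k → ℂ) ≃L[ℂ] (Fin l → ℂ)) (cT : Fin l → ℂ)
    (rT RT : Fin l → ℝ) (a b a' b' : ℝ) :
    rg b₀ (cbox κ cT rT RT) (cring 0 a b) (cring 0 a' b') =
      cbox (kb κ) (vb cT b₀.2.1 b₀.2.2) (vb rT a a') (vb RT b b') := by
  ext x
  show _ ↔ ∀ i, kb κ x i ∈ cring (vb cT b₀.2.1 b₀.2.2 i) (vb rT a a' i) (vb RT b b' i)
  rw [forall_ib]
  simp only [vb_T, vb_W, vb_Z, kb_T, kb_W, kb_Z]
  constructor
  · rintro ⟨h1, h2, h3⟩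
    refine ⟨h1, ?_, ?_⟩
    · simpa [cring] using h2
    · simpa [cring] using h3
  · rintro ⟨h1, h2, h3⟩
    refine ⟨h1, ?_, ?_⟩
    · simpa [cring] using h2
    · simpa [cring] using h3

theorem goodRadii_vb {rT RT : Fin l → ℝ} (h : GoodRadii rT RT) {a b a' b' : ℝ} (h1 : a ≠ 0)
    (h2 : a < b) (h3 : 0 < b) (h1' : a' ≠ 0) (h2' : a' < b') (h3' : 0 < b') :
    GoodRadii (vb rT a a') (vb RT b b') := by
  intro i
  revert i
  rw [forall_ib]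
  simp only [vb_T, vb_W, vb_Z]
  exact ⟨h, ⟨h1, h2, h3⟩, ⟨h1', h2', h3'⟩⟩

theorem closedBall_eq_cbox (t₀ : Fin k → ℂ) {δ : ℝ} (hδ : 0 ≤ δ) :
    Metric.closedBall t₀ δ =
      cbox (ContinuousLinearEquiv.refl ℂ (Fin k → ℂ)) t₀ (fun _ => -1) (fun _ => δ) := by
  ext t
  rw [mem_closedBall_iff_norm, pi_norm_le_iff_of_nonneg hδ]
  exact forall_congr' fun i => ⟨fun h => ⟨le_trans (by norm_num) (norm_nonneg _), h⟩, fun h => h.2⟩

theorem ball_eq_box (t₀ : Fin k → ℂ) {δ : ℝ} (hδ : 0 < δ) :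
    Metric.ball t₀ δ =
      box (ContinuousLinearEquiv.refl ℂ (Fin k → ℂ)) t₀ (fun _ => -1) (fun _ => δ) := by
  ext t
  rw [mem_ball_iff_norm, pi_norm_lt_iff hδ]
  exact forall_congr' fun i =>
    ⟨fun h => ⟨lt_of_lt_of_le (by norm_num) (norm_nonneg _), h⟩, fun h => h.2⟩

/-- the closed region over a closed ball is a closed box -/
theorem crg_eq (b₀ : Bs k) {δ : ℝ} (hδ : 0 ≤ δ) (t₀ : Fin k → ℂ) (a b a' b' : ℝ) :
    rg b₀ (Metric.closedBall t₀ δ) (cring 0 a b) (cring 0 a' b') =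
      cbox (kb (ContinuousLinearEquiv.refl ℂ (Fin k → ℂ))) (vb t₀ b₀.2.1 b₀.2.2)
        (vb (fun _ => -1) a a') (vb (fun _ => δ) b b') := by
  rw [closedBall_eq_cbox t₀ hδ, rg_eq_cbox]

/-- the closed polydisc over a smaller ball is contained in `B0` -/
theorem crg_sub_B0 {b₀ : Bs k} {δ δ' : ℝ} (hδ : δ' < δ) {ρ : Rd} {b b' : ℝ} (hb : b < ρ.Rw)
    (hb' : b' < ρ.Rz) (t₀ : Fin k → ℂ) :
    rg b₀ (Metric.closedBall t₀ δ') (cring 0 (-1) b) (cring 0 (-1) b') ⊆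
      B0 b₀ ρ (Metric.ball t₀ δ) :=
  rg_mono (Metric.closedBall_subset_ball hδ) (cring_disc hb) (cring_disc hb')

/-- `B0` of smaller radii is contained in the closed region -/
theorem B0_sub_crg {b₀ : Bs k} {δ : ℝ} {ρ : Rd} (t₀ : Fin k → ℂ) :
    B0 b₀ ρ (Metric.ball t₀ δ) ⊆
      rg b₀ (Metric.closedBall t₀ δ) (cring 0 (-1) ρ.Rw) (cring 0 (-1) ρ.Rz) :=
  rg_mono Metric.ball_subset_closedBall ring_subset_cring ring_subset_cring

theorem MHol.mono {E : Type u} [NormedAddCommGroup E] [NormedSpace ℂ E] {p q : ℕ}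
    {A : E → Matrix (Fin p) (Fin q) ℂ} {S S' : Set E} (h : MHol A S) (hS : S' ⊆ S) : MHol A S' :=
  fun i j => (h i j).mono hS

theorem VHol.mono {E : Type u} [NormedAddCommGroup E] [NormedSpace ℂ E] {p : ℕ}
    {A : E → Fin p → ℂ} {S S' : Set E} (h : VHol A S) (hS : S' ⊆ S) : VHol A S' :=
  fun x hx => h x (hS hx)

theorem B1_mono {b₀ : Bs k} {ρ ρ' : Rd} {T T' : Set (Fin k → ℂ)} (hρ : ρ'.In ρ) (hT : T' ⊆ T) :
    B1 b₀ ρ' T' ⊆ B1 b₀ ρ T := rg_mono hT (ring_mono hρ.rw.le hρ.Rw.le) (ring_mono le_rfl hρ.Rz.le)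
theorem B2_mono {b₀ : Bs k} {ρ ρ' : Rd} {T T' : Set (Fin k → ℂ)} (hρ : ρ'.In ρ) (hT : T' ⊆ T) :
    B2 b₀ ρ' T' ⊆ B2 b₀ ρ T := rg_mono hT (ring_mono le_rfl hρ.Rw.le) (ring_mono hρ.rz.le hρ.Rz.le)
theorem B12_mono {b₀ : Bs k} {ρ ρ' : Rd} {T T' : Set (Fin k → ℂ)} (hρ : ρ'.In ρ) (hT : T' ⊆ T) :
    B12 b₀ ρ' T' ⊆ B12 b₀ ρ T :=
  rg_mono hT (ring_mono hρ.rw.le hρ.Rw.le) (ring_mono hρ.rz.le hρ.Rz.le)
theorem B0_mono {b₀ : Bs k} {ρ ρ' : Rd} {T T' : Set (Fin k → ℂ)} (hρ : ρ'.In ρ) (hT : T' ⊆ T) :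
    B0 b₀ ρ' T' ⊆ B0 b₀ ρ T := rg_mono hT (ring_mono le_rfl hρ.Rw.le) (ring_mono le_rfl hρ.Rz.le)

end Pool.Agent.DQ.M12
end

section

/-! Module M12: combinations with coefficients from the base, frames over the base. -/

set_option autoImplicit false
set_option linter.unusedSectionVars false

open Set Filter Topology Matrix

universe u v w

namespace Pool.Agent.DQ.M12

section Zero

variable {E : Type u} [NormedAddCommGroup E] [NormedSpace ℂ E]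

/-- a coherent sheaf with zero stalk vanishes near the point -/
theorem subsingleton_near {F : EMod.{u, u, w} (O E)} {x : E} (hF : F.CohAt x)
    (h : Subsingleton (F.St x)) : ∀ᶠ y in 𝓝 x, Subsingleton (F.St y) := by
  obtain ⟨hx, ⟨n, g, hg, hgen⟩, -⟩ := hF
  have h0 : ∀ i, ∀ᶠ y in 𝓝 x, g i y = 0 := fun i =>
    F.inj (hg i) (F.zero x hx) (Subsingleton.elim _ _)
  filter_upwards [hgen, eventually_all.mpr h0] with y h1 h2
  have h3 : (⊤ : Submodule ((O E).St y) (F.St y)) = ⊥ := by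
    rw [← h1, Submodule.span_eq_bot]
    rintro _ ⟨i, rfl⟩
    exact h2 i
  constructor
  intro a b
  have ha : a ∈ (⊤ : Submodule ((O E).St y) (F.St y)) := Submodule.mem_top
  have hb : b ∈ (⊤ : Submodule ((O E).St y) (F.St y)) := Submodule.mem_top
  rw [h3, Submodule.mem_bot] at ha hb
  rw [ha, hb]

/-- near a zero of the sheaf every family is a section -/
theorem at_of_zero {F : EMod.{u, u, w} (O E)} {x : E} (hF : F.CohAt x)
    (h : Subsingleton (F.St x)) (s : (x : E) → F.St x) : F.At s x := by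
  refine F.congr (F.zero x hF.1) ?_
  filter_upwards [subsingleton_near hF h] with y hy
  exact Subsingleton.elim _ _

end Zero

variable {V : Type} [NormedAddCommGroup V] [NormedSpace ℂ V] {k d n m : ℕ}
  {M₀ : EMod.{0, 0, w} (O V)} {e : V ≃L[ℂ] Bs k × (Fin d → ℂ)}

theorem pb_hol {f : Bs k → ℂ} {x : V} (hf : HolAt f (e x).1) : HolAt (fun y => f (e y).1) x :=
  hf.comp_fst e rfl

theorem vc_hol (c₀ : Bs k × (Fin d → ℂ)) (i : Fin d) (x : V) : HolAt (vc e c₀ i) x := by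
  refine Eventually.of_forall fun y => ?_
  have h1 : DifferentiableAt ℂ (fun y : V => (e y).2 i) y := by
    have h2 : DifferentiableAt ℂ (fun y : V => (e y).2) y :=
      (differentiableAt_snd).comp y e.differentiableAt
    exact (differentiableAt_pi.mp h2) i
  exact h1.sub (differentiableAt_const _)

theorem comb_at {f : Fin n → (x : V) → M₀.St x} {c : Bs k → Fin n → ℂ} {x : V}
    (hx : x ∈ M₀.dom) (hc : VHolAt c (e x).1) (hf : ∀ j, M₀.At (f j) x) :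
    M₀.At (comb e f c) x :=
  M₀.at_comb hx (fun j => O_at_gm (pb_hol (hc j))) hf

theorem comb_add {f : Fin n → (x : V) → M₀.St x} {c c' : Bs k → Fin n → ℂ} {x : V}
    (hc : VHolAt c (e x).1) (hc' : VHolAt c' (e x).1) :
    comb e f (fun y => c y + c' y) x = comb e f c x + comb e f c' x := by
  unfold comb
  rw [← Finset.sum_add_distrib]
  refine Finset.sum_congr rfl fun j _ => ?_
  rw [← add_smul, ← om_add (pb_hol (hc j)) (pb_hol (hc' j))]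
  rfl

theorem comb_neg {f : Fin n → (x : V) → M₀.St x} {c : Bs k → Fin n → ℂ} {x : V}
    (hc : VHolAt c (e x).1) : comb e f (fun y => - c y) x = - comb e f c x := by
  unfold comb
  rw [← Finset.sum_neg_distrib]
  refine Finset.sum_congr rfl fun j _ => ?_
  rw [← neg_smul, ← om_neg (pb_hol (hc j))]
  rfl

theorem comb_smul {f : Fin n → (x : V) → M₀.St x} {a : Bs k → ℂ} {c : Bs k → Fin n → ℂ} {x : V}
    (ha : HolAt a (e x).1) (hc : VHolAt c (e x).1) :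
    comb e f (fun y => a y • c y) x = om (fun y => a (e y).1) x • comb e f c x := by
  unfold comb
  rw [Finset.smul_sum]
  refine Finset.sum_congr rfl fun j _ => ?_
  rw [smul_smul, ← om_mul (pb_hol ha) (pb_hol (hc j))]
  rfl

theorem comb_zero {f : Fin n → (x : V) → M₀.St x} {x : V} :
    comb e f (fun _ => (0 : Fin n → ℂ)) x = 0 := by
  unfold comb
  refine Finset.sum_eq_zero fun j _ => ?_
  change om (fun _ => (0 : ℂ)) x • f j x = 0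
  rw [om_zero, zero_smul]

theorem comb_congr {f : Fin n → (x : V) → M₀.St x} {c c' : Bs k → Fin n → ℂ} {x : V}
    (hc : VHolAt c (e x).1) (h : c =ᶠ[𝓝 (e x).1] c') : comb e f c x = comb e f c' x := by
  unfold comb
  refine Finset.sum_congr rfl fun j _ => ?_
  congr 1
  refine C.gm_congr (pb_hol (hc j)) ?_
  filter_upwards [(tendsto_fst e (x := x) rfl).eventually h] with y hy
  rw [hy]

/-- combinations of combinations -/
theorem sum_comb {f : Fin n → (x : V) → M₀.St x} {g : Bs k → Matrix (Fin n) (Fin m) ℂ}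
    {c : Bs k → Fin m → ℂ} {x : V} {t : Fin m → M₀.St x} (hg : MHolAt g (e x).1)
    (hc : VHolAt c (e x).1) (h : ∀ j, t j = comb e f (fun y i => g y i j) x) :
    ∑ j, om (fun y => c (e y).1 j) x • t j = comb e f (fun y => g y *ᵥ c y) x := by
  have h1 : ∀ i, om (fun y => (g (e y).1 *ᵥ c (e y).1) i) x =
      ∑ j, om (fun y => g (e y).1 i j) x * om (fun y => c (e y).1 j) x := by
    intro i
    simp only [Matrix.mulVec, dotProduct]
    rw [om_sum _ fun j _ => (pb_hol (hg i j)).mul (pb_hol (hc j))]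
    exact Finset.sum_congr rfl fun j _ => om_mul (pb_hol (hg i j)) (pb_hol (hc j))
  simp only [h1, h, comb, Finset.smul_sum, Finset.sum_smul, smul_smul]
  rw [Finset.sum_comm]
  refine Finset.sum_congr rfl fun i _ => Finset.sum_congr rfl fun j _ => ?_
  rw [mul_comm]

/-- combinations of combinations -/
theorem comb_mulVec {f : Fin n → (x : V) → M₀.St x} {f' : Fin m → (x : V) → M₀.St x}
    {g : Bs k → Matrix (Fin n) (Fin m) ℂ} {c : Bs k → Fin m → ℂ} {x : V}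
    (hg : MHolAt g (e x).1) (hc : VHolAt c (e x).1)
    (h : ∀ j, f' j x = comb e f (fun y i => g y i j) x) :
    comb e f' c x = comb e f (fun y => g y *ᵥ c y) x := sum_comb hg hc h

/-- multiplication with a function, given by a matrix on the frame -/
theorem smul_comb {f : Fin n → (x : V) → M₀.St x} {A : Bs k → Matrix (Fin n) (Fin n) ℂ}
    {c : Bs k → Fin n → ℂ} {x : V} {φ : (O V).St x} (hA : MHolAt A (e x).1)
    (hc : VHolAt c (e x).1) (h : ∀ j, φ • f j x = comb e f (fun y l => A y l j) x) :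
    φ • comb e f c x = comb e f (fun y => A y *ᵥ c y) x := by
  rw [← sum_comb hA hc h]
  unfold comb
  rw [Finset.smul_sum]
  refine Finset.sum_congr rfl fun j _ => ?_
  rw [smul_smul, smul_smul, mul_comm]

/-- a frame of the direct image gives a frame of `M₀` over the base.

Proof. `f̃ j` from `EMod.push_on` (`S` open, `(M₀.push e D hD).On (f j) S`). `gen`: for `s` near the fibres over `T` open the family
`M₀.pushSec e D hD s` is a section over `T` (`EMod.pushSec_at`); `IsFrame.coeff` (restricted to `T`) gives `c` with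
`pushSec s b = ∑ j, gvec c b j • f j b`; take `pushVal` at `x` (`pushVal_pushSec`, `pushVal_sum`, `pushVal_smul_om`). `uniq`: `comb e f̃ c = 0` on the
fibre over `b` means `∑ j, gvec c b j • f j b = 0` by `push_ext`; `IsFrame.uniq` with `0`: `gvec c b = 0`, so `c b = 0` (`ev_gvec`). -/
theorem fr_of_isFrame [FiniteDimensional ℂ V] (D : Set (Fin d → ℂ)) (hD : IsCompact D)
    {S : Set (Bs k)} (hS : IsOpen S) (f : Fin n → (b : Bs k) → (M₀.push e D hD).St b)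
    (hf : IsFrame (M₀.push e D hD) f S) :
    ∃ f' : Fin n → (x : V) → M₀.St x, Fr M₀ e D f' S ∧
      ∀ j, ∀ b ∈ S, ∀ x (hx : x ∈ fib e D b), M₀.pushVal e D hD b (f j b) x hx = f' j x := by
  have h0 := fun j => (EMod.push_on M₀ e D hD hS (f j)).1 fun b hb => hf.at hb j
  choose f' hf' hval using h0
  refine ⟨f', ⟨hS, fun j b hb => hf' j b hb, ?_, ?_⟩, fun j b hb x hx => hval j b hb x hx⟩
  · intro T hT hTo s hs
    have h1 : (M₀.push e D hD).On (M₀.pushSec e D hD s) T := fun b hb =>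
      EMod.pushSec_at M₀ e D hD (hs b hb)
    obtain ⟨c, hc, hce⟩ := (hf.mono hT).coeff h1
    refine ⟨c, hc, fun b hb x hx => ?_⟩
    have h2 := congrArg (fun m => M₀.pushVal e D hD b m x hx) (hce b hb)
    rw [EMod.pushVal_pushSec M₀ e D hD (hs b hb), EMod.pushVal_sum] at h2
    rw [h2]
    unfold comb
    refine Finset.sum_congr rfl fun j _ => ?_
    rw [gvec_apply, EMod.pushVal_smul_om M₀ e D hD b (hc b hb j), hval j b (hT hb) x hx]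
  · intro T hT hTo c hc h0 b hb
    have h1 : ∑ j, gvec c b j • f j b = ∑ j, (0 : Fin n → (O (Bs k)).St b) j • f j b := by
      refine M₀.push_ext e D hD b _ _ fun x hx => ?_
      rw [EMod.pushVal_sum, EMod.pushVal_sum]
      have h2 := h0 b hb x hx
      unfold comb at h2
      have h3 : ∑ j, M₀.pushVal e D hD b ((0 : Fin n → (O (Bs k)).St b) j • f j b) x hx = 0 := by
        refine Finset.sum_eq_zero fun j _ => ?_
        rw [Pi.zero_apply, zero_smul]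
        rfl
      rw [h3, ← h2]
      refine Finset.sum_congr rfl fun j _ => ?_
      rw [gvec_apply, EMod.pushVal_smul_om M₀ e D hD b (hc b hb j), hval j b (hT hb) x hx]
    have h2 := hf.uniq (hT hb) h1
    funext j
    rw [← ev_gvec (hc b hb) j, h2]
    exact map_zero _

end Pool.Agent.DQ.M12
end

section

/-! Module M12: Laurent projections in the base, identity theorem, Hartogs extension.

`pplus` and its lemmas are in `Pool/Agent/DQ/FProj.lean` (namespace `DQ.F`), identity theorem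
`DQ.F.eqOn_of_isPreconnected` in `FHol.lean`, `DQ.F.isPreconnected_ring` in `FProjB.lean`. Compare
the corresponding lemmas `pj_…` in `FProjB.lean`, which are proved in the same way. -/

set_option autoImplicit false
set_option linter.unusedSectionVars false

open Set Filter Topology Matrix

namespace Pool.Agent.DQ.M12

variable {k : ℕ} {b₀ : Bs k} {T : Set (Fin k → ℂ)} {W Z : Set ℂ} {r R : ℝ}

/-- **Identity theorem in the fibres over `t`.** `f` and `g` are holomorphic on `T × W × Z`, `W` and `Z` open and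
preconnected, and agree on `T × W' × Z'` with `W' ⊆ W`, `Z' ⊆ Z` open and nonempty: they agree on `T × W × Z`.

Proof. Fix `t ∈ T`. The functions `(w, z) ↦ f (t, w, z)`, `g (t, w, z)` on `ℂ × ℂ` are differentiable on the open preconnected set
`{(w, z) | w - w₀ ∈ W, z - z₀ ∈ Z}` (a translate of `W ×ˢ Z`; `IsPreconnected.prod`, image under a homeomorphism) and agree near one of
its points: `DQ.F.eqOn_of_isPreconnected` (identity theorem, file `FHol`). -/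
theorem ident_fib (hT : IsOpen T) {W' Z' : Set ℂ} (hW : IsOpen W) (hWc : IsPreconnected W)
    (hZ : IsOpen Z) (hZc : IsPreconnected Z) (hW' : IsOpen W') (hWW : W' ⊆ W) (hWn : W'.Nonempty)
    (hZ' : IsOpen Z') (hZZ : Z' ⊆ Z) (hZn : Z'.Nonempty) {f g : Bs k → ℂ}
    (hf : HolNear f (rg b₀ T W Z)) (hg : HolNear g (rg b₀ T W Z))
    (h : ∀ b ∈ rg b₀ T W' Z', f b = g b) : ∀ b ∈ rg b₀ T W Z, f b = g b := by
  intro b hb
  obtain ⟨ht, hw, hz⟩ := hb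
  let φ : ℂ × ℂ → Bs k := fun q => (b.1, q.1 + b₀.2.1, q.2 + b₀.2.2)
  have hφ : Differentiable ℂ φ := by
    refine (differentiable_const _).prodMk (Differentiable.prodMk ?_ ?_)
    · exact differentiable_fst.add_const _
    · exact differentiable_snd.add_const _
  have hφm : ∀ q ∈ W ×ˢ Z, φ q ∈ rg b₀ T W Z := by
    rintro q ⟨h1, h2⟩
    refine ⟨ht, ?_, ?_⟩
    · change q.1 + b₀.2.1 - b₀.2.1 ∈ W
      rwa [add_sub_cancel_right]
    · change q.2 + b₀.2.2 - b₀.2.2 ∈ Z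
      rwa [add_sub_cancel_right]
  have hφm' : ∀ q ∈ W' ×ˢ Z', φ q ∈ rg b₀ T W' Z' := by
    rintro q ⟨h1, h2⟩
    refine ⟨ht, ?_, ?_⟩
    · change q.1 + b₀.2.1 - b₀.2.1 ∈ W'
      rwa [add_sub_cancel_right]
    · change q.2 + b₀.2.2 - b₀.2.2 ∈ Z'
      rwa [add_sub_cancel_right]
  have hd : ∀ F : Bs k → ℂ, HolNear F (rg b₀ T W Z) →
      DifferentiableOn ℂ (fun q => F (φ q)) (W ×ˢ Z) := fun F hF q hq =>
    ((hF (φ q) (hφm q hq)).differentiableAt.comp q (hφ q)).differentiableWithinAt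
  obtain ⟨w', hw'⟩ := hWn
  obtain ⟨z', hz'⟩ := hZn
  have key := DQ.F.eqOn_of_isPreconnected' (hW.prod hZ) (hWc.prod hZc) (hd f hf) (hd g hg)
    (hW'.prod hZ') ⟨(w', z'), ⟨hWW hw', hZZ hz'⟩, ⟨hw', hz'⟩⟩
    (fun q hq => h (φ q) (hφm' q hq.2))
  have h1 := key (x := (b.2.1 - b₀.2.1, b.2.2 - b₀.2.2)) ⟨hw, hz⟩
  have h2 : φ (b.2.1 - b₀.2.1, b.2.2 - b₀.2.2) = b := by
    change ((b.1, b.2.1 - b₀.2.1 + b₀.2.1, b.2.2 - b₀.2.2 + b₀.2.2) : Bs k) = b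
    rw [sub_add_cancel, sub_add_cancel]
  simp only [h2] at h1
  exact h1

end Pool.Agent.DQ.M12
end
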