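import Pool.Agent.DQ.Mg_MP_4aa2a9_ag.G003
import Pool.Agent.Lib.MP_4aa2a9_ag.Mg.G012
import Pool.Agent.Lib.MP_4aa2a9_ag.Mg.G015
import Pool.Agent.Lib.MP_4aa2a9_ag.Mg.G017
import Pool.Agent.Lib.MP_4aa2a9_ag.Mg.G014

section

/-! Campaign DQ, module M12, block (b): coefficients of generators and of dual sections with
respect to frames. -/

set_option autoImplicit false

open Set Filter Topology

universe u v w

namespace Pool.Agent.DQ.M12b

variable {B : Type u} [NormedAddCommGroup B] [NormedSpace ℂ B]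

/-- a right inverse on the level of germs gives surjectivity of the values -/
theorem surj_of_right_inv {n p : ℕ} {a : Fin n → Fin p → B → ℂ} {x : B}
    (ha : ∀ j i, HolAt (a j i) x)
    (h : ∀ j, ∃ d : Fin p → (O B).St x, ∀ m, ∑ i, d i * om (a m i) x = if m = j then 1 else 0) :
    Function.Surjective (Matrix.mulVec (Matrix.of fun j i => a j i x)) := by
  choose d hd using h
  intro t
  refine ⟨fun i => ∑ j, t j * C.evg x (d j i), ?_⟩
  funext m
  simp only [Matrix.mulVec, dotProduct, Matrix.of_apply, Finset.mul_sum]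
  rw [Finset.sum_comm]
  have h1 : ∀ j, ∑ i, C.evg x (d j i) * a m i x = if m = j then 1 else 0 := by
    intro j
    have h2 : ∑ i, C.evg x (d j i) * a m i x = C.evg x (if m = j then 1 else 0) := by
      refine Eq.trans ?_ (congrArg (C.evg x) (hd j m))
      refine Eq.trans ?_ (map_sum (C.evg x) (fun i => (show OGerm x from d j i) * gm (a m i) x)
        Finset.univ).symm
      refine Finset.sum_congr rfl fun i _ => ?_
      refine Eq.trans ?_ (map_mul (C.evg x) _ _).symm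
      exact congrArg _ (C.evg_gm (ha m i)).symm
    refine h2.trans ?_
    split_ifs
    · exact map_one _
    · exact map_zero _
  have h3 : ∀ j, ∑ i, a m i x * (t j * C.evg x (d j i)) = t j * if m = j then 1 else 0 := by
    intro j
    rw [← h1 j, Finset.mul_sum]
    exact Finset.sum_congr rfl fun i _ => by ring
  rw [Finset.sum_congr rfl fun j _ => h3 j]
  simp

/-- coefficients with respect to a frame -/
theorem frame_data {E : EMod.{u, u, w} (O B)} {S : Set B} (hS : IsOpen S) {n p q p' : ℕ}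
    {f : Fin n → (x : B) → E.St x} (hf : IsFrame E f S) {g : Fin p → (x : B) → E.St x}
    (hg : ∀ i, E.On (g i) S) (hgen : E.Gen g S) {ρ : Fin q → Fin p → B → ℂ}
    (hρ : RelOn E g ρ S) {h : Fin p' → Fin p → B → ℂ}
    (hh : RelOn ((O B).free q) (fun i x l => om (ρ l i) x) h S) :
    ∃ (a : Fin n → Fin p → B → ℂ) (a' : Fin n → Fin p' → B → ℂ),
      (∀ j i, HolNear (a j i) S) ∧ (∀ j l, HolNear (a' j l) S) ∧
      (∀ x ∈ S, ∀ i, g i x = ∑ j, om (a j i) x • f j x) ∧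
      (∀ x ∈ S, ∀ l i, om (h l i) x = ∑ j, om (a' j l) x * om (a j i) x) ∧
      (∀ x ∈ S, ∀ j, ∃ d : Fin p → (O B).St x,
        ∀ m, ∑ i, d i * om (a m i) x = if m = j then 1 else 0) ∧
      ∀ x ∈ S, ∀ j, ∃ d : Fin p' → (O B).St x,
        ∀ m, ∑ l, d l * om (a' m l) x = if m = j then 1 else 0 := by
  choose b hb hbe using fun i => Pool.Agent.DQ.S.coeff_section hS hf.on hf.free (hg i) fun x hx => by
    rw [hf.gen x hx]
    trivial
  have hs : ∀ x ∈ S, ∃ s : Fin n → Fin p → (O B).St x, ∀ j, f j x = ∑ i, s j i • g i x := by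
    intro x hx
    have h1 : ∀ j, ∃ s : Fin p → (O B).St x, f j x = ∑ i, s i • g i x := fun j =>
      mem_span_fam.mp (by rw [hgen x hx]; trivial)
    choose s hs using h1
    exact ⟨s, hs⟩
  have hann : ∀ x ∈ S, ∀ l, ∀ c : Fin p → (O B).St x, ∑ i, c i • g i x = 0 →
      ∑ i, c i * om (h l i) x = 0 := by
    intro x hx l c hc
    have h1 : c ∈ E.rel g x := hc
    rw [hρ.2 x hx] at h1
    obtain ⟨d, hd⟩ := mem_span_fam.mp h1
    have h2 : (fun i => om (h l i) x) ∈ ((O B).free q).rel (fun i x l => om (ρ l i) x) x := by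
      rw [hh.2 x hx]
      exact Submodule.subset_span ⟨l, rfl⟩
    have h3 : ∀ m, ∑ i, om (h l i) x * om (ρ m i) x = 0 := by
      intro m
      have h4 := congrFun (show (∑ i, om (h l i) x • (fun l => om (ρ l i) x) :
        Fin q → (O B).St x) = 0 from h2) m
      rw [Finset.sum_apply] at h4
      exact h4
    have h5 : ∀ i, c i = ∑ m, d m * om (ρ m i) x := by
      intro i
      rw [hd, Finset.sum_apply]
      rfl
    calc ∑ i, c i * om (h l i) x = ∑ m, d m * ∑ i, om (h l i) x * om (ρ m i) x := by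
          simp only [h5, Finset.sum_mul, Finset.mul_sum]
          rw [Finset.sum_comm]
          exact Finset.sum_congr rfl fun m _ => Finset.sum_congr rfl fun i _ => by ring
      _ = 0 := Finset.sum_eq_zero fun m _ => by rw [h3, mul_zero]
  have hrow : ∀ j, ((O B).free p).On (fun x i => om (b i j) x) S := fun j x hx =>
    ⟨mem_univ _, fun i => O_at_gm (hb i j x hx)⟩
  have hrow0 : ∀ x ∈ S, ((O B).free p).rel (fun j x i => om (b i j) x) x = ⊥ := by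
    intro x hx
    rw [eq_bot_iff]
    intro c hc
    obtain ⟨s, hs⟩ := hs x hx
    have h1 : ∀ i, ∑ j, c j * om (b i j) x = 0 := by
      intro i
      have h4 := congrFun (show (∑ j, c j • (fun i => om (b i j) x) :
        Fin p → (O B).St x) = 0 from hc) i
      rw [Finset.sum_apply] at h4
      exact h4
    rw [Submodule.mem_bot]
    funext m
    have h2 := coeff_mul (fun c hc => hf.indep hx c hc) (a := fun j i => om (b i j) x)
      (fun i => hbe i x hx) hs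
    have h3 : ∑ i, s m i * ∑ j, c j * om (b i j) x = c m := by
      have h4 : ∑ i, s m i * ∑ j, c j * om (b i j) x =
          ∑ j, c j * ∑ i, s m i * om (b i j) x := by
        simp only [Finset.mul_sum]
        rw [Finset.sum_comm]
        exact Finset.sum_congr rfl fun m _ => Finset.sum_congr rfl fun i _ => by ring
      rw [h4, Finset.sum_congr rfl fun j _ => by rw [h2 m j]]
      simp
    rw [← h3]
    simp [h1]
  have hsol : ∀ x ∈ S, ∀ s : Fin n → Fin p → (O B).St x, (∀ j, f j x = ∑ i, s j i • g i x) →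
      ∀ l i, om (h l i) x = ∑ j, (∑ m, s j m * om (h l m) x) * om (b i j) x := by
    intro x hx s hs l i
    exact dual_coeff (a := fun j i => om (b i j) x) (fun i => hbe i x hx) hs
      (w := fun i => om (h l i) x) (hann x hx l) i
  choose b' hb' hbe' using fun l => Pool.Agent.DQ.S.coeff_section (F := (O B).free p) hS hrow hrow0
    (t := fun x i => om (h l i) x)
    (fun x hx => ⟨mem_univ _, fun i => O_at_gm (hh.1 l i x hx)⟩) fun x hx => by
      obtain ⟨s, hs⟩ := hs x hx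
      refine mem_span_fam.mpr ⟨fun j => ∑ m, s j m * om (h l m) x, ?_⟩
      funext i
      exact (hsol x hx s hs l i).trans (Finset.sum_apply i Finset.univ (fun j i' =>
        (∑ m, s j m * om (h l m) x) * om (b i' j) x)).symm
  have hbe2 : ∀ x ∈ S, ∀ l i, om (h l i) x = ∑ j, om (b' l j) x * om (b i j) x := by
    intro x hx l i
    exact (congrFun (hbe' l x hx) i).trans (Finset.sum_apply i Finset.univ (fun j i' =>
      om (b' l j) x * om (b i' j) x))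
  refine ⟨fun j i => b i j, fun j l => b' l j, fun j i => hb i j, fun j l => hb' l j,
    fun x hx i => hbe i x hx, hbe2, fun x hx j => ?_, fun x hx j => ?_⟩
  · obtain ⟨s, hs⟩ := hs x hx
    exact ⟨s j, fun m => coeff_mul (fun c hc => hf.indep hx c hc)
      (a := fun j i => om (b i j) x) (fun i => hbe i x hx) hs j m⟩
  · obtain ⟨s, hs⟩ := hs x hx
    obtain ⟨d, hd⟩ := dual_span (fun c hc => hf.indep hx c hc)
      (a := fun j i => om (b i j) x) (fun i => hbe i x hx) hs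
      (ρ := fun l i => om (ρ l i) x) (fun l => by
        have h1 : (fun i => om (ρ l i) x) ∈ E.rel g x := by
          rw [hρ.2 x hx]
          exact Submodule.subset_span ⟨l, rfl⟩
        exact h1)
      (w := fun l i => om (h l i) x) (fun c hc => by
        have h1 : c ∈ ((O B).free q).rel (fun i x l => om (ρ l i) x) x := by
          change (∑ i, c i • (fun l => om (ρ l i) x) : Fin q → (O B).St x) = 0
          funext l
          rw [Finset.sum_apply]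
          exact hc l
        rw [hh.2 x hx] at h1
        obtain ⟨d, hd⟩ := mem_span_fam.mp h1
        refine ⟨d, fun i => ?_⟩
        rw [hd, Finset.sum_apply]
        rfl) j
    refine ⟨d, fun m => ?_⟩
    rw [← hd m]
    refine Finset.sum_congr rfl fun l _ => ?_
    congr 1
    have h1 : (fun j => ∑ m, s j m * om (h l m) x) = fun j => om (b' l j) x := by
      have h2 : (fun j => (∑ m, s j m * om (h l m) x) - om (b' l j) x) ∈
          ((O B).free p).rel (fun j x i => om (b i j) x) x := by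
        change (∑ j, ((∑ m, s j m * om (h l m) x) - om (b' l j) x) • (fun i => om (b i j) x) :
          Fin p → (O B).St x) = 0
        funext i
        rw [Finset.sum_apply]
        change ∑ j, ((∑ m, s j m * om (h l m) x) - om (b' l j) x) * om (b i j) x = 0
        simp only [sub_mul, Finset.sum_sub_distrib]
        rw [← hsol x hx s hs l i, ← hbe2 x hx l i, sub_self]
      rw [hrow0 x hx, Submodule.mem_bot] at h2
      funext j
      exact sub_eq_zero.mp (congrFun h2 j)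
    exact (congrFun h1 m).symm

end Pool.Agent.DQ.M12b
end

section

/-! Campaign DQ, module M12, block (g): consequences of `LamData` over the regions of a situation
`σ` strictly inside. -/

set_option autoImplicit false
set_option linter.unusedSectionVars false

open Set Filter Topology Matrix

universe u v w

namespace Pool.Agent.DQ.M12

variable {V : Type} [NormedAddCommGroup V] [NormedSpace ℂ V] [FiniteDimensional ℂ V] {k d : ℕ}

/-- the centre of the base -/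
noncomputable def cb (σ : Sit V k d) : Bs k := (σ.e σ.y₀).1

/-- the radii -/
def rd (σ : Sit V k d) : Rd :=
  ⟨σ.rw, σ.Rw, σ.rz, σ.Rz, σ.rw_pos, σ.rw_lt, σ.rz_pos, σ.rz_lt⟩

omit [FiniteDimensional ℂ V] in
theorem bx_eq (σ : Sit V k d) (T : Set (Fin k → ℂ)) (r₁ R₁ r₂ R₂ : ℝ) :
    σ.bx T r₁ R₁ r₂ R₂ = rg (cb σ) T (ring 0 r₁ R₁) (ring 0 r₂ R₂) := by
  ext b
  simp only [Sit.bx, rg, ring, mem_prod, mem_ofPred_eq, sub_zero]
  rfl

omit [FiniteDimensional ℂ V] in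
theorem Q1_eq (σ : Sit V k d) (T : Set (Fin k → ℂ)) : σ.Q1 T = σ.reg (B1 (cb σ) (rd σ) T) := by
  ext x
  simp only [Sit.Q1, Sit.pr, Sit.reg, B1, rg, mem_ofPred_eq, and_assoc]
  rfl

omit [FiniteDimensional ℂ V] in
theorem Q2_eq (σ : Sit V k d) (T : Set (Fin k → ℂ)) : σ.Q2 T = σ.reg (B2 (cb σ) (rd σ) T) := by
  ext x
  simp only [Sit.Q2, Sit.pr, Sit.reg, B2, rg, mem_ofPred_eq, and_assoc]
  rfl

omit [FiniteDimensional ℂ V] in
theorem Q12_eq (σ : Sit V k d) (T : Set (Fin k → ℂ)) : σ.Q12 T = σ.reg (B12 (cb σ) (rd σ) T) := by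
  ext x
  simp only [Sit.Q12, Sit.pr, Sit.reg, B12, rg, mem_ofPred_eq, and_assoc]
  rfl

/-- `LamData` with radii strictly outside those of `σ` -/
structure LD (M₀ : EMod.{0, 0, w} (O V)) (σ : Sit V k d) (T₀ : Set (Fin k → ℂ))
    (jw jw' jz jz' : ℝ) {m N N' : ℕ} (Q : Bs k → Matrix (Fin N) (Fin m) ℂ)
    (Q' : Bs k → Matrix (Fin N') (Fin N) ℂ)
    (Lam : ((x : V) → M₀.St x) → Bs k → Fin m → ℂ) : Prop where
  lam : LamData M₀ σ T₀ jw jw' jz jz' Q Q' Lam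
  jw : jw < σ.rw
  jw' : σ.Rw < jw'
  jz : jz < σ.rz
  jz' : σ.Rz < jz'

variable {M₀ : EMod.{0, 0, w} (O V)} {σ : Sit V k d} {T₀ : Set (Fin k → ℂ)} {jw jw' jz jz' : ℝ}
  {m N N' : ℕ} {Q : Bs k → Matrix (Fin N) (Fin m) ℂ} {Q' : Bs k → Matrix (Fin N') (Fin N) ℂ}
  {Lam : ((x : V) → M₀.St x) → Bs k → Fin m → ℂ} (H : LD M₀ σ T₀ jw jw' jz jz' Q Q' Lam)
  {T : Set (Fin k → ℂ)}

include H

/-- the region where the matrices live -/
theorem LD.B0_sub (hT : T ⊆ T₀) : B0 (cb σ) (rd σ) T ⊆ σ.bx T₀ (-1) jw' (-1) jz' := by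
  rw [bx_eq]
  exact rg_mono hT (ring_mono le_rfl H.jw'.le) (ring_mono le_rfl H.jz'.le)

theorem LD.B1_sub (hT : T ⊆ T₀) : B1 (cb σ) (rd σ) T ⊆ shell σ T₀ jw jw' jz jz' := by
  intro b hb
  left
  rw [bx_eq]
  exact rg_mono hT (ring_mono H.jw.le H.jw'.le) (ring_mono le_rfl H.jz'.le) hb

theorem LD.B2_sub (hT : T ⊆ T₀) : B2 (cb σ) (rd σ) T ⊆ shell σ T₀ jw jw' jz jz' := by
  intro b hb
  right
  rw [bx_eq]
  exact rg_mono hT (ring_mono le_rfl H.jw'.le) (ring_mono H.jz.le H.jz'.le) hb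

theorem LD.B12_sub (hT : T ⊆ T₀) : B12 (cb σ) (rd σ) T ⊆ shell σ T₀ jw jw' jz jz' :=
  (B12_sub_B1 _ _ _).trans (H.B1_sub hT)

theorem LD.Q_at {b : Bs k} (hb : b ∈ σ.bx T₀ (-1) jw' (-1) jz') : MHolAt Q b :=
  mHol_iff.mp H.lam.Q_hol b hb

theorem LD.Q'_at {b : Bs k} (hb : b ∈ σ.bx T₀ (-1) jw' (-1) jz') : MHolAt Q' b :=
  mHol_iff.mp H.lam.Q'_hol b hb

theorem LD.Q_hol (hT : T ⊆ T₀) : MHol Q (B0 (cb σ) (rd σ) T) :=
  mHol_iff.mpr fun _ hb => H.Q_at (H.B0_sub hT hb)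

theorem LD.Q'_hol (hT : T ⊆ T₀) : MHol Q' (B0 (cb σ) (rd σ) T) :=
  mHol_iff.mpr fun _ hb => H.Q'_at (H.B0_sub hT hb)

theorem LD.isOpen_bx : IsOpen (σ.bx T₀ (-1) jw' (-1) jz') :=
  H.lam.T₀_open.prod ((DQ.F.isOpen_ring _ _ _).prod (DQ.F.isOpen_ring _ _ _))

theorem LD.comp {b : Bs k} (hb : b ∈ σ.bx T₀ (-1) jw' (-1) jz') :
    gmat Q' b * gmat Q b = 0 := by
  rw [← gmat_mul (H.Q'_at hb) (H.Q_at hb), ← gmat_zero b]
  refine gmat_congr ((H.Q'_at hb).mul (H.Q_at hb)) ?_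
  filter_upwards [H.isOpen_bx.mem_nhds hb] with y hy
  exact H.lam.comp y hy

theorem LD.exact {b : Bs k} (hb : b ∈ shell σ T₀ jw jw' jz jz') (h : Fin N → (O (Bs k)).St b)
    (hh : gmat Q' b *ᵥ h = 0) : ∃ u, gmat Q b *ᵥ u = h := by
  obtain ⟨u, hu⟩ := H.lam.exact b hb h fun i => congrFun hh i
  exact ⟨u, funext fun j => (hu j).symm⟩

theorem LD.shell_sub : shell σ T₀ jw jw' jz jz' ⊆ σ.bx T₀ (-1) jw' (-1) jz' := by
  rintro b (hb | hb)
  · rw [bx_eq] at hb ⊢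
    exact rg_mono le_rfl ring_disc le_rfl hb
  · rw [bx_eq] at hb ⊢
    exact rg_mono le_rfl le_rfl ring_disc hb

variable {y y' : (x : V) → M₀.St x}

theorem LD.hol12 (hT : T ⊆ T₀) (hTo : IsOpen T) (hy : M₀.On y (σ.Q12 T)) :
    VHol (Lam y) (B12 (cb σ) (rd σ) T) := by
  rw [Q12_eq] at hy
  exact fun b hb l => H.lam.hol _ (H.B12_sub hT) (isOpen_B12 hTo) y hy l b hb

theorem LD.hol1 (hT : T ⊆ T₀) (hTo : IsOpen T) (hy : M₀.On y (σ.Q1 T)) :
    VHol (Lam y) (B1 (cb σ) (rd σ) T) := by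
  rw [Q1_eq] at hy
  exact fun b hb l => H.lam.hol _ (H.B1_sub hT) (isOpen_B1 hTo) y hy l b hb

theorem LD.hol2 (hT : T ⊆ T₀) (hTo : IsOpen T) (hy : M₀.On y (σ.Q2 T)) :
    VHol (Lam y) (B2 (cb σ) (rd σ) T) := by
  rw [Q2_eq] at hy
  exact fun b hb l => H.lam.hol _ (H.B2_sub hT) (isOpen_B2 hTo) y hy l b hb

theorem LD.ker12 (hT : T ⊆ T₀) (hTo : IsOpen T) (hy : M₀.On y (σ.Q12 T)) :
    ∀ b ∈ B12 (cb σ) (rd σ) T, Q b *ᵥ Lam y b = 0 := by
  rw [Q12_eq] at hy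
  exact H.lam.ker _ (H.B12_sub hT) (isOpen_B12 hTo) y hy

theorem LD.ker1 (hT : T ⊆ T₀) (hTo : IsOpen T) (hy : M₀.On y (σ.Q1 T)) :
    ∀ b ∈ B1 (cb σ) (rd σ) T, Q b *ᵥ Lam y b = 0 := by
  rw [Q1_eq] at hy
  exact H.lam.ker _ (H.B1_sub hT) (isOpen_B1 hTo) y hy

theorem LD.ker2 (hT : T ⊆ T₀) (hTo : IsOpen T) (hy : M₀.On y (σ.Q2 T)) :
    ∀ b ∈ B2 (cb σ) (rd σ) T, Q b *ᵥ Lam y b = 0 := by
  rw [Q2_eq] at hy
  exact H.lam.ker _ (H.B2_sub hT) (isOpen_B2 hTo) y hy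

theorem LD.add12 (hT : T ⊆ T₀) (hTo : IsOpen T) (hy : M₀.On y (σ.Q12 T))
    (hy' : M₀.On y' (σ.Q12 T)) : ∀ b ∈ B12 (cb σ) (rd σ) T,
      Lam (fun x => y x + y' x) b = Lam y b + Lam y' b := by
  rw [Q12_eq] at hy hy'
  exact H.lam.add _ (H.B12_sub hT) (isOpen_B12 hTo) y y' hy hy'

theorem LD.congr12 (hT : T ⊆ T₀) (hTo : IsOpen T) (hy : M₀.On y (σ.Q12 T))
    (h : ∀ x ∈ σ.Q12 T, y x = y' x) : ∀ b ∈ B12 (cb σ) (rd σ) T, Lam y b = Lam y' b := by
  rw [Q12_eq] at hy h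
  exact H.lam.congr _ (H.B12_sub hT) (isOpen_B12 hTo) y y' hy h

theorem LD.smul12 (hT : T ⊆ T₀) (hTo : IsOpen T) (hy : M₀.On y (σ.Q12 T))
    {f : (Fin k → ℂ) → ℂ} (hf : HolNear f T) : ∀ b ∈ B12 (cb σ) (rd σ) T,
      Lam (fun x => om (σ.ft f) x • y x) b = f b.1 • Lam y b := by
  rw [Q12_eq] at hy
  refine H.lam.smul _ (H.B12_sub hT) (isOpen_B12 hTo) y hy (fun b => f b.1) ?_
  intro b hb
  exact HolAt.comp (g := fun b : Bs k => b.1) (hf b.1 hb.1)
    (Eventually.of_forall fun _ => differentiableAt_fst)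

/-- the decomposition of `Lam y` given by a decomposition of `y` -/
theorem LD.sub12 (hT : T ⊆ T₀) (hTo : IsOpen T) (hy : M₀.On y (σ.Q12 T))
    {y₁ y₂ : (x : V) → M₀.St x} (h₁ : M₀.On y₁ (σ.Q12 T)) (h₂ : M₀.On y₂ (σ.Q12 T))
    (h : ∀ x ∈ σ.Q12 T, y x = y₁ x - y₂ x) : ∀ b ∈ B12 (cb σ) (rd σ) T,
      Lam y b = Lam y₁ b + -(Lam y₂ b) := by
  intro b hb
  have h1 := H.add12 hT hTo hy h₂ b hb
  have h2 := H.congr12 hT hTo h₁ (y' := fun x => y x + y₂ x)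
    (fun x hx => by rw [h x hx, sub_add_cancel]) b hb
  rw [h2, h1]
  abel

end Pool.Agent.DQ.M12
end

section

/-! Module M12: Laurent projections in the base, identity theorem, Hartogs extension.

`pplus` and its lemmas are in `Pool/Agent/DQ/FProj.lean` (namespace `DQ.F`), identity theorem
`DQ.F.eqOn_of_isPreconnected` in `FHol.lean`, `DQ.F.isPreconnected_ring` in `FProjB.lean`. Compare
the corresponding lemmas `pj_…` in `FProjB.lean`, which are proved in the same way. -/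

set_option autoImplicit false
set_option linter.unusedSectionVars false

open Set Filter Topology Matrix

namespace Pool.Agent.DQ.M12

variable {k : ℕ} {b₀ : Bs k} {T : Set (Fin k → ℂ)} {W Z : Set ℂ} {r R : ℝ}

private theorem M12LaurA_mem {z c : ℂ} {r R : ℝ} :
    z - c ∈ ring 0 r R ↔ r < ‖z - c‖ ∧ ‖z - c‖ < R := by
  change (r < ‖z - c - 0‖ ∧ ‖z - c - 0‖ < R) ↔ _
  rw [sub_zero]

private theorem M12LaurA_mem' {z c : ℂ} {R : ℝ} :
    z - c ∈ ring 0 (-1) R ↔ ‖z - c‖ < R := by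
  rw [M12LaurA_mem]
  constructor
  · exact fun h => h.2
  · exact fun h => ⟨by linarith [norm_nonneg (z - c)], h⟩

private theorem M12LaurA_sw {f : Bs k → ℂ} {t : Fin k → ℂ} {z ζ : ℂ}
    (h : DifferentiableAt ℂ f (t, ζ, z)) : DifferentiableAt ℂ (fun ζ => f (t, ζ, z)) ζ := by
  have h1 : DifferentiableAt ℂ (fun y : ℂ => ((t, y, z) : Bs k)) ζ := by fun_prop
  exact DifferentiableAt.comp (f := fun y : ℂ => ((t, y, z) : Bs k)) (g := f) ζ h h1

private theorem M12LaurA_sz {f : Bs k → ℂ} {t : Fin k → ℂ} {w ζ : ℂ}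
    (h : DifferentiableAt ℂ f (t, w, ζ)) : DifferentiableAt ℂ (fun ζ => f (t, w, ζ)) ζ := by
  have h1 : DifferentiableAt ℂ (fun y : ℂ => ((t, w, y) : Bs k)) ζ := by fun_prop
  exact DifferentiableAt.comp (f := fun y : ℂ => ((t, w, y) : Bs k)) (g := f) ζ h h1

/-- **Holomorphy.** Proof. `DQ.F.differentiableOn_pplus` with `E = (Fin k → ℂ) × ℂ`, `Ω = {(t, z) | t ∈ T, z - z₀ ∈ Z}`,
composed with the linear maps which permute the variables (`holNear_iff_differentiableOn`, `isOpen_rg`). `ring 0 r R` in the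
variable `w - w₀` is `{w | r < ‖w - w₀‖ < R}`. -/
theorem pw_hol (hT : IsOpen T) (hZ : IsOpen Z) (hrR : r < R) {f : Bs k → ℂ}
    (hf : HolNear f (rg b₀ T (ring 0 r R) Z)) :
    HolNear (pw b₀ r R f) (rg b₀ T (ring 0 (-1) R) Z) := by
  rw [holNear_iff_differentiableOn (isOpen_rg hT (DQ.F.isOpen_ring _ _ _) hZ)] at hf ⊢
  let Ω : Set ((Fin k → ℂ) × ℂ) := {p | p.1 ∈ T ∧ p.2 - b₀.2.2 ∈ Z}
  have hΩ : IsOpen Ω := (hT.preimage continuous_fst).inter
    (hZ.preimage (continuous_snd.sub continuous_const))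
  have h3 : DifferentiableOn ℂ (fun q : ((Fin k → ℂ) × ℂ) × ℂ => f (q.1.1, q.2, q.1.2))
      (Ω ×ˢ {z : ℂ | r < ‖z - b₀.2.1‖ ∧ ‖z - b₀.2.1‖ < R}) := by
    have h4 : Differentiable ℂ (fun q : ((Fin k → ℂ) × ℂ) × ℂ => ((q.1.1, q.2, q.1.2) : Bs k)) := by
      fun_prop
    exact hf.comp h4.differentiableOn fun q hq => ⟨hq.1.1, M12LaurA_mem.mpr hq.2, hq.1.2⟩
  have h5 := DQ.F.differentiableOn_pplus hrR hΩ h3
  have h6 : Differentiable ℂ (fun b : Bs k => (((b.1, b.2.2), b.2.1) : ((Fin k → ℂ) × ℂ) × ℂ)) := by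
    fun_prop
  exact h5.comp h6.differentiableOn fun b hb => ⟨⟨hb.1, hb.2.2⟩, M12LaurA_mem'.mp hb.2.1⟩

/-- Proof. As `pw_hol`. -/
theorem pz_hol (hT : IsOpen T) (hW : IsOpen W) (hrR : r < R) {f : Bs k → ℂ}
    (hf : HolNear f (rg b₀ T W (ring 0 r R))) :
    HolNear (pz b₀ r R f) (rg b₀ T W (ring 0 (-1) R)) := by
  rw [holNear_iff_differentiableOn (isOpen_rg hT hW (DQ.F.isOpen_ring _ _ _))] at hf ⊢
  let Ω : Set ((Fin k → ℂ) × ℂ) := {p | p.1 ∈ T ∧ p.2 - b₀.2.1 ∈ W}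
  have hΩ : IsOpen Ω := (hT.preimage continuous_fst).inter
    (hW.preimage (continuous_snd.sub continuous_const))
  have h3 : DifferentiableOn ℂ (fun q : ((Fin k → ℂ) × ℂ) × ℂ => f (q.1.1, q.1.2, q.2))
      (Ω ×ˢ {z : ℂ | r < ‖z - b₀.2.2‖ ∧ ‖z - b₀.2.2‖ < R}) := by
    have h4 : Differentiable ℂ (fun q : ((Fin k → ℂ) × ℂ) × ℂ => ((q.1.1, q.1.2, q.2) : Bs k)) := by
      fun_prop
    exact hf.comp h4.differentiableOn fun q hq => ⟨hq.1.1, hq.1.2, M12LaurA_mem.mpr hq.2⟩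
  have h5 := DQ.F.differentiableOn_pplus hrR hΩ h3
  have h6 : Differentiable ℂ (fun b : Bs k => (((b.1, b.2.1), b.2.2) : ((Fin k → ℂ) × ℂ) × ℂ)) := by
    fun_prop
  exact h5.comp h6.differentiableOn fun b hb => ⟨⟨hb.1, hb.2.1⟩, M12LaurA_mem'.mp hb.2.2⟩

/-- `pw` only depends on the values on the line. Proof. `DQ.F.pplus_congr`. -/
theorem pw_congr (hrR : r < R) {f g : Bs k → ℂ} {b : Bs k} (hb : ‖b.2.1 - b₀.2.1‖ < R)
    (h : ∀ ζ, r < ‖ζ - b₀.2.1‖ → ‖ζ - b₀.2.1‖ < R → f (b.1, ζ, b.2.2) = g (b.1, ζ, b.2.2)) :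
    pw b₀ r R f b = pw b₀ r R g b := by
  exact DQ.F.pplus_congr hrR hb fun ζ h1 h2 => h ζ h1 h2

/-- Proof. `DQ.F.pplus_congr`. -/
theorem pz_congr (hrR : r < R) {f g : Bs k → ℂ} {b : Bs k} (hb : ‖b.2.2 - b₀.2.2‖ < R)
    (h : ∀ ζ, r < ‖ζ - b₀.2.2‖ → ‖ζ - b₀.2.2‖ < R → f (b.1, b.2.1, ζ) = g (b.1, b.2.1, ζ)) :
    pz b₀ r R f b = pz b₀ r R g b := by
  exact DQ.F.pplus_congr hrR hb fun ζ h1 h2 => h ζ h1 h2

/-- Proof. `DQ.F.pplus_add`; the functions are holomorphic near the points of the line (compose with `ζ ↦ (b.1, ζ, b.2.2)`). -/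
theorem pw_add (hrR : r < R) {f g : Bs k → ℂ} (hf : HolNear f (rg b₀ T (ring 0 r R) Z))
    (hg : HolNear g (rg b₀ T (ring 0 r R) Z)) {b : Bs k} (hb : b ∈ rg b₀ T (ring 0 (-1) R) Z) :
    pw b₀ r R (fun y => f y + g y) b = pw b₀ r R f b + pw b₀ r R g b := by
  exact DQ.F.pplus_add hrR (M12LaurA_mem'.mp hb.2.1)
    (fun ζ h1 h2 => (M12LaurA_sw (hf (b.1, ζ, b.2.2)
      ⟨hb.1, M12LaurA_mem.mpr ⟨h1, h2⟩, hb.2.2⟩).differentiableAt).continuousAt)
    (fun ζ h1 h2 => (M12LaurA_sw (hg (b.1, ζ, b.2.2)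
      ⟨hb.1, M12LaurA_mem.mpr ⟨h1, h2⟩, hb.2.2⟩).differentiableAt).continuousAt)

/-- Proof. As `pw_add`. -/
theorem pz_add (hrR : r < R) {f g : Bs k → ℂ} (hf : HolNear f (rg b₀ T W (ring 0 r R)))
    (hg : HolNear g (rg b₀ T W (ring 0 r R))) {b : Bs k} (hb : b ∈ rg b₀ T W (ring 0 (-1) R)) :
    pz b₀ r R (fun y => f y + g y) b = pz b₀ r R f b + pz b₀ r R g b := by
  exact DQ.F.pplus_add hrR (M12LaurA_mem'.mp hb.2.2)
    (fun ζ h1 h2 => (M12LaurA_sz (hf (b.1, b.2.1, ζ)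
      ⟨hb.1, hb.2.1, M12LaurA_mem.mpr ⟨h1, h2⟩⟩).differentiableAt).continuousAt)
    (fun ζ h1 h2 => (M12LaurA_sz (hg (b.1, b.2.1, ζ)
      ⟨hb.1, hb.2.1, M12LaurA_mem.mpr ⟨h1, h2⟩⟩).differentiableAt).continuousAt)

/-- functions of `t` can be pulled out. Proof. `DQ.F.pplus_fsmul` (with `a := fun q => a q.1`). -/
theorem pw_mul (a : (Fin k → ℂ) → ℂ) (f : Bs k → ℂ) (b : Bs k) :
    pw b₀ r R (fun y => a y.1 * f y) b = a b.1 * pw b₀ r R f b := by
  exact DQ.F.pplus_fsmul (fun q : (Fin k → ℂ) × ℂ => a q.1)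
    (fun q : ((Fin k → ℂ) × ℂ) × ℂ => f (q.1.1, q.2, q.1.2)) ((b.1, b.2.2), b.2.1)

/-- Proof. `DQ.F.pplus_fsmul`. -/
theorem pz_mul (a : (Fin k → ℂ) → ℂ) (f : Bs k → ℂ) (b : Bs k) :
    pz b₀ r R (fun y => a y.1 * f y) b = a b.1 * pz b₀ r R f b := by
  exact DQ.F.pplus_fsmul (fun q : (Fin k → ℂ) × ℂ => a q.1)
    (fun q : ((Fin k → ℂ) × ℂ) × ℂ => f (q.1.1, q.1.2, q.2)) ((b.1, b.2.1), b.2.2)

/-- nothing changes for functions which are holomorphic on the whole disc. Proof. `DQ.F.pplus_eq_self`. -/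
theorem pw_self (hrR : r < R) {f : Bs k → ℂ} (hf : HolNear f (rg b₀ T (ring 0 (-1) R) Z)) {b : Bs k}
    (hb : b ∈ rg b₀ T (ring 0 (-1) R) Z) : pw b₀ r R f b = f b := by
  exact DQ.F.pplus_eq_self hrR (M12LaurA_mem'.mp hb.2.1) fun ζ h1 =>
    M12LaurA_sw (hf (b.1, ζ, b.2.2) ⟨hb.1, M12LaurA_mem'.mpr h1, hb.2.2⟩).differentiableAt

/-- Proof. `DQ.F.pplus_eq_self`. -/
theorem pz_self (hrR : r < R) {f : Bs k → ℂ} (hf : HolNear f (rg b₀ T W (ring 0 (-1) R))) {b : Bs k}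
    (hb : b ∈ rg b₀ T W (ring 0 (-1) R)) : pz b₀ r R f b = f b := by
  exact DQ.F.pplus_eq_self hrR (M12LaurA_mem'.mp hb.2.2) fun ζ h1 =>
    M12LaurA_sz (hf (b.1, b.2.1, ζ) ⟨hb.1, hb.2.1, M12LaurA_mem'.mpr h1⟩).differentiableAt

/-- the outer radius does not matter. Proof. `DQ.F.pplus_eq_cint` for both sides, with a radius `ρ`,
`max (max r 0) ‖b.2.1 - b₀.2.1‖ < ρ < R'`. -/
theorem pw_radius {R' : ℝ} (hrR' : r < R') (hR : R' ≤ R) {f : Bs k → ℂ}
    (hf : HolNear f (rg b₀ T (ring 0 r R) Z)) {b : Bs k} (hb : b ∈ rg b₀ T (ring 0 (-1) R') Z) :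
    pw b₀ r R' f b = pw b₀ r R f b := by
  have hbR : ‖b.2.1 - b₀.2.1‖ < R' := M12LaurA_mem'.mp hb.2.1
  have h0 : (0 : ℝ) < R' := (norm_nonneg _).trans_lt hbR
  obtain ⟨ρ, h1, h2⟩ := exists_between (max_lt (max_lt hrR' h0) hbR)
  have h3 : r < ρ := ((le_max_left _ _).trans (le_max_left _ _)).trans_lt h1
  have h4 : 0 < ρ := ((le_max_right _ _).trans (le_max_left _ _)).trans_lt h1
  have h5 : ‖b.2.1 - b₀.2.1‖ < ρ := (le_max_right _ _).trans_lt h1
  have hd : ∀ ζ, r < ‖ζ - b₀.2.1‖ → ‖ζ - b₀.2.1‖ < R →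
      DifferentiableAt ℂ (fun ζ => f (b.1, ζ, b.2.2)) ζ := fun ζ h6 h7 =>
    M12LaurA_sw (hf (b.1, ζ, b.2.2) ⟨hb.1, M12LaurA_mem.mpr ⟨h6, h7⟩, hb.2.2⟩).differentiableAt
  exact (DQ.F.pplus_eq_cint (f := fun q : ((Fin k → ℂ) × ℂ) × ℂ => f (q.1.1, q.2, q.1.2))
    (t := (b.1, b.2.2)) (fun ζ h6 h7 => hd ζ h6 (h7.trans_le hR)) h4 h3 h2 h5).trans
    (DQ.F.pplus_eq_cint (f := fun q : ((Fin k → ℂ) × ℂ) × ℂ => f (q.1.1, q.2, q.1.2))
    (t := (b.1, b.2.2)) hd h4 h3 (h2.trans_le hR) h5).symm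

/-- Proof. As `pw_radius`. -/
theorem pz_radius {R' : ℝ} (hrR' : r < R') (hR : R' ≤ R) {f : Bs k → ℂ}
    (hf : HolNear f (rg b₀ T W (ring 0 r R))) {b : Bs k} (hb : b ∈ rg b₀ T W (ring 0 (-1) R')) :
    pz b₀ r R' f b = pz b₀ r R f b := by
  have hbR : ‖b.2.2 - b₀.2.2‖ < R' := M12LaurA_mem'.mp hb.2.2
  have h0 : (0 : ℝ) < R' := (norm_nonneg _).trans_lt hbR
  obtain ⟨ρ, h1, h2⟩ := exists_between (max_lt (max_lt hrR' h0) hbR)
  have h3 : r < ρ := ((le_max_left _ _).trans (le_max_left _ _)).trans_lt h1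
  have h4 : 0 < ρ := ((le_max_right _ _).trans (le_max_left _ _)).trans_lt h1
  have h5 : ‖b.2.2 - b₀.2.2‖ < ρ := (le_max_right _ _).trans_lt h1
  have hd : ∀ ζ, r < ‖ζ - b₀.2.2‖ → ‖ζ - b₀.2.2‖ < R →
      DifferentiableAt ℂ (fun ζ => f (b.1, b.2.1, ζ)) ζ := fun ζ h6 h7 =>
    M12LaurA_sz (hf (b.1, b.2.1, ζ) ⟨hb.1, hb.2.1, M12LaurA_mem.mpr ⟨h6, h7⟩⟩).differentiableAt
  exact (DQ.F.pplus_eq_cint (f := fun q : ((Fin k → ℂ) × ℂ) × ℂ => f (q.1.1, q.1.2, q.2))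
    (t := (b.1, b.2.1)) (fun ζ h6 h7 => hd ζ h6 (h7.trans_le hR)) h4 h3 h2 h5).trans
    (DQ.F.pplus_eq_cint (f := fun q : ((Fin k → ℂ) × ℂ) × ℂ => f (q.1.1, q.1.2, q.2))
    (t := (b.1, b.2.1)) hd h4 h3 (h2.trans_le hR) h5).symm

end Pool.Agent.DQ.M12
end

section

/-! Module M12, blocks (d), (e), part 1: the complex `Q' Q = 0` over `T × disc × disc`, exact over the
shell, with `ker Q = im L₁ = im L₂` over the shell. -/

set_option autoImplicit false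
set_option linter.unusedSectionVars false

open Set Filter Topology Matrix

universe u v w

namespace Pool.Agent.DQ.M12

section Coords

variable {k : ℕ}

/-- linear coordinates on the base -/
noncomputable def kapB (k : ℕ) : Bs k ≃L[ℂ] (Fin (k + 2) → ℂ) :=
  ((ContinuousLinearEquiv.refl ℂ (Fin k → ℂ)).prodCongr
    (ContinuousLinearEquiv.finTwoArrow ℂ ℂ).symm).trans (appE k 2)

theorem kapB_left (b : Bs k) (i : Fin k) : kapB k b (Fin.castAdd 2 i) = b.1 i := by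
  simp only [kapB, ContinuousLinearEquiv.trans_apply, appE_left,
    ContinuousLinearEquiv.prodCongr_apply]
  rfl

theorem kapB_right0 (b : Bs k) : kapB k b (Fin.natAdd k 0) = b.2.1 := by
  simp only [kapB, ContinuousLinearEquiv.trans_apply, appE_right,
    ContinuousLinearEquiv.prodCongr_apply]
  rfl

theorem kapB_right1 (b : Bs k) : kapB k b (Fin.natAdd k 1) = b.2.2 := by
  simp only [kapB, ContinuousLinearEquiv.trans_apply, appE_right,
    ContinuousLinearEquiv.prodCongr_apply]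
  rfl

/-- closed polydiscs in the base are boxes -/
theorem exists_cboxB (t₀ : Fin k → ℂ) (w₀ z₀ : ℂ) {τ : ℝ} (hτ : 0 ≤ τ) (R R' : ℝ) :
    ∃ (c : Fin (k + 2) → ℂ) (r₀ Rr : Fin (k + 2) → ℝ), cbox (kapB k) c r₀ Rr =
      {b | b.1 ∈ Metric.closedBall t₀ τ ∧ ‖b.2.1 - w₀‖ ≤ R ∧ ‖b.2.2 - z₀‖ ≤ R'} := by
  refine ⟨kapB k (t₀, w₀, z₀), fun _ => -1, Fin.append (fun _ => τ) ![R, R'], ?_⟩
  ext b
  have hneg : ∀ x : ℂ, -1 ≤ ‖x‖ := fun x => by linarith [norm_nonneg x]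
  simp only [cbox, cring, mem_ofPred_eq, hneg, true_and, Metric.mem_closedBall, dist_eq_norm]
  rw [pi_norm_le_iff_of_nonneg hτ]
  constructor
  · intro h
    refine ⟨fun i => ?_, ?_, ?_⟩
    · have := h (Fin.castAdd 2 i)
      rwa [kapB_left, kapB_left, Fin.append_left] at this
    · have := h (Fin.natAdd k 0)
      rwa [kapB_right0, kapB_right0, Fin.append_right] at this
    · have := h (Fin.natAdd k 1)
      rwa [kapB_right1, kapB_right1, Fin.append_right] at this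
  · rintro ⟨h1, h2, h3⟩ i
    refine Fin.addCases (fun j => ?_) (fun j => ?_) i
    · rw [kapB_left, kapB_left, Fin.append_left]
      exact h1 j
    · match j with
      | 0 =>
        rw [kapB_right0, kapB_right0, Fin.append_right]
        exact h2
      | 1 =>
        rw [kapB_right1, kapB_right1, Fin.append_right]
        exact h3

end Coords

section Reg

variable {E : Type u} [NormedAddCommGroup E] [NormedSpace ℂ E] {m n N N' : ℕ}

/-- germs of a factorization -/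
theorem gmat_factor {P : E → Matrix (Fin m) (Fin m) ℂ} {L : E → Matrix (Fin m) (Fin n) ℂ}
    {U : E → Matrix (Fin n) (Fin m) ℂ} {x : E} (hP : MHolAt P x) (hL : MHolAt L x)
    (hU : MHolAt U x) (h : ∀ᶠ y in 𝓝 x, P y = L y * U y) : gmat P x = gmat L x * gmat U x := by
  rw [← gmat_mul hL hU]
  exact gmat_congr hP h

theorem vecMul_eq_transpose {R : Type u} [CommRing R] (A : Matrix (Fin m) (Fin n) R)
    (c : Fin m → R) : c ᵥ* A = Aᵀ *ᵥ c := (Matrix.mulVec_transpose A c).symm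

/-- the complex: `Q`, `Q'` generate the left kernels of `P`, `Q` near the set `C` -/
structure LK (P : E → Matrix (Fin m) (Fin m) ℂ) (Q : E → Matrix (Fin N) (Fin m) ℂ)
    (Q' : E → Matrix (Fin N') (Fin N) ℂ) (C : Set E) : Prop where
  P_hol : ∀ x ∈ C, MHolAt P x
  Q_hol : ∀ x ∈ C, MHolAt Q x
  Q'_hol : ∀ x ∈ C, MHolAt Q' x
  QP : ∀ x ∈ C, gmat Q x * gmat P x = 0
  Q'Q : ∀ x ∈ C, gmat Q' x * gmat Q x = 0
  lk : ∀ x ∈ C, ∀ c, c ᵥ* gmat P x = 0 → ∃ d, d ᵥ* gmat Q x = c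
  lk' : ∀ x ∈ C, ∀ c, c ᵥ* gmat Q x = 0 → ∃ d, d ᵥ* gmat Q' x = c

theorem exists_LK {l : ℕ} (κ : E ≃L[ℂ] (Fin l → ℂ)) (c : Fin l → ℂ) (r₀ R : Fin l → ℝ)
    {P : E → Matrix (Fin m) (Fin m) ℂ} (hP : ∀ x ∈ cbox κ c r₀ R, MHolAt P x) :
    ∃ (N N' : ℕ) (Q : E → Matrix (Fin N) (Fin m) ℂ) (Q' : E → Matrix (Fin N') (Fin N) ℂ),
      LK P Q Q' (cbox κ c r₀ R) := by
  obtain ⟨N, B, hB⟩ := exists_ker κ c r₀ R (fun y => (P y)ᵀ)
    (mHol_iff.mpr fun x hx => (hP x hx).transpose)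
  obtain ⟨N', B', hB'⟩ := exists_ker κ c r₀ R B hB.holB
  have hBh := mHol_iff.mp hB.holB
  have hBh' := mHol_iff.mp hB'.holB
  refine ⟨N, N', fun y => (B y)ᵀ, fun y => (B' y)ᵀ, hP, fun x hx => (hBh x hx).transpose,
    fun x hx => (hBh' x hx).transpose, fun x hx => ?_, fun x hx => ?_, fun x hx c hc => ?_,
    fun x hx c hc => ?_⟩
  · rw [gmat_transpose]
    have h1 := hB.comp x hx
    rw [gmat_transpose] at h1
    have h2 := congrArg Matrix.transpose h1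
    rwa [Matrix.transpose_mul, Matrix.transpose_transpose, Matrix.transpose_zero] at h2
  · rw [gmat_transpose, gmat_transpose]
    have h2 := congrArg Matrix.transpose (hB'.comp x hx)
    rwa [Matrix.transpose_mul, Matrix.transpose_zero] at h2
  · obtain ⟨d, hd⟩ := hB.exact x hx c (by rw [gmat_transpose, Matrix.mulVec_transpose]; exact hc)
    refine ⟨d, ?_⟩
    rw [gmat_transpose, Matrix.vecMul_transpose]
    exact hd
  · rw [gmat_transpose, Matrix.vecMul_transpose] at hc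
    obtain ⟨d, hd⟩ := hB'.exact x hx c hc
    refine ⟨d, ?_⟩
    rw [gmat_transpose, Matrix.vecMul_transpose]
    exact hd

/-- where `P = L U` the complex is exact and the kernel of `Q` is the image of `L` -/
theorem LK.exact {P : E → Matrix (Fin m) (Fin m) ℂ} {Q : E → Matrix (Fin N) (Fin m) ℂ}
    {Q' : E → Matrix (Fin N') (Fin N) ℂ} {C : Set E} (h : LK P Q Q' C)
    {L : E → Matrix (Fin m) (Fin n) ℂ} {U : E → Matrix (Fin n) (Fin m) ℂ} {x : E} (hx : x ∈ C)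
    (hL : MHolAt L x) (hU : MHolAt U x) (hinj : Function.Injective (L x).mulVec)
    (hsurj : Function.Surjective (U x).mulVec) (hPLU : ∀ᶠ y in 𝓝 x, P y = L y * U y) :
    gmat Q x * gmat L x = 0 ∧ (∀ u, gmat Q x *ᵥ u = 0 → ∃ c, gmat L x *ᵥ c = u) ∧
      ∀ q, gmat Q' x *ᵥ q = 0 → ∃ u, gmat Q x *ᵥ u = q := by
  obtain ⟨X, hX⟩ := exists_right_inv hU hsurj
  obtain ⟨Y, hY⟩ := exists_left_inv hL hinj
  have hP := gmat_factor (h.P_hol x hx) hL hU hPLU
  obtain ⟨h1, ⟨Z, hZ⟩, h2⟩ := ker_eq_of_factor hP hX hY (h.QP x hx) (h.lk x hx)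
  exact ⟨h1, h2, ker_eq_of_factor' h1 hZ (h.lk' x hx)⟩

end Reg

end Pool.Agent.DQ.M12
end

section

/-! Campaign DQ, module M12, block (f), file MFL0: the kernel sheaf of a matrix of functions. -/

set_option autoImplicit false
set_option linter.unusedVariables false

open Set Filter Topology Matrix

namespace Pool.Agent.DQ

namespace MF

open M12

section KS

variable {B : Type} [NormedAddCommGroup B] [NormedSpace ℂ B] {m N : ℕ}

/-- the kernel sheaf of the matrix `Q` -/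
noncomputable def ks (Q : B → Matrix (Fin N) (Fin m) ℂ) : EMod.{0, 0, 0} (O B) :=
  ((O B).free N).relSh fun l => col Q l

/-- the vector of germs of an element of the kernel sheaf -/
noncomputable def kv (Q : B → Matrix (Fin N) (Fin m) ℂ) (b : B) :
    (ks Q).St b →ₗ[(O B).St b] (Fin m → (O B).St b) :=
  ((O B).free N).relVal (fun l => col Q l) b

/-- a vector of functions as an element of the kernel sheaf -/
noncomputable def kmk (Q : B → Matrix (Fin N) (Fin m) ℂ) (u : B → Fin m → ℂ) (b : B) :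
    (ks Q).St b :=
  ((O B).free N).mkRel (fun l => col Q l) (fun l y => om (fun z => u z l) y) b

variable {Q : B → Matrix (Fin N) (Fin m) ℂ} {b : B}

theorem kv_inj : Function.Injective (kv Q b) := ((O B).free N).relVal_injective _ b

theorem kv_ker (s : (ks Q).St b) : gmat Q b *ᵥ kv Q b s = 0 := by
  have h := ((O B).free N).relVal_mem (fun l => col Q l) b s
  have h2 := sum_col Q b (kv Q b s)
  exact h2.symm.trans h

theorem free_col_at (hQ : MHolAt Q b) (l : Fin m) : ((O B).free N).At (col Q l) b := col_at hQ l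

theorem ks_dom (hQ : MHolAt Q b) : b ∈ (ks Q).dom := ⟨mem_univ b, fun l => free_col_at hQ l⟩

theorem ks_at_iff (hQ : MHolAt Q b) {s : (b : B) → (ks Q).St b} :
    (ks Q).At s b ↔ ∀ l, (O B).At (fun y => kv Q y (s y) l) b := by
  refine (EMod.relSh_at_iff (M := (O B).free N) (g := fun l => col Q l) (s := s)).trans ?_
  constructor
  · intro h
    exact h.2
  · intro h
    exact ⟨⟨mem_univ b, fun l => free_col_at hQ l⟩, h⟩

theorem gker_of_near (hQ : MHolAt Q b) {u : B → Fin m → ℂ} (hu : VHolAt u b)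
    (h : ∀ᶠ y in 𝓝 b, Q y *ᵥ u y = 0) : gmat Q b *ᵥ gvec u b = 0 := by
  rw [← gvec_zero b]
  exact (mulVec_eq_of_gmat hQ hu (VHolAt.zero b)).mpr h

theorem near_of_gker (hQ : MHolAt Q b) {u : B → Fin m → ℂ} (hu : VHolAt u b)
    (h : gmat Q b *ᵥ gvec u b = 0) : ∀ᶠ y in 𝓝 b, Q y *ᵥ u y = 0 := by
  rw [← gvec_zero b] at h
  exact (mulVec_eq_of_gmat hQ hu (VHolAt.zero b)).mp h

theorem kv_kmk (hQ : MHolAt Q b) {u : B → Fin m → ℂ} (hu : VHolAt u b)
    (h : ∀ᶠ y in 𝓝 b, Q y *ᵥ u y = 0) : kv Q b (kmk Q u b) = gvec u b := by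
  have h1 := gker_of_near hQ hu h
  refine EMod.mkRel_val ?_
  exact (sum_col Q b (gvec u b)).trans h1

theorem kmk_at (hQ : MHolAt Q b) {u : B → Fin m → ℂ} (hu : VHolAt u b)
    (h : ∀ᶠ y in 𝓝 b, Q y *ᵥ u y = 0) : (ks Q).At (kmk Q u) b := by
  refine EMod.mkRel_at (mem_univ b) (fun l => free_col_at hQ l) (fun l => C.at_gm (hu l)) ?_
  exact (sum_col Q b (gvec u b)).trans (gker_of_near hQ hu h)

theorem kmk_congr (hQ : MHolAt Q b) {u u' : B → Fin m → ℂ} (hu : VHolAt u b)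
    (h : ∀ᶠ y in 𝓝 b, Q y *ᵥ u y = 0) (he : u =ᶠ[𝓝 b] u') : kmk Q u b = kmk Q u' b := by
  have h' : ∀ᶠ y in 𝓝 b, Q y *ᵥ u' y = 0 := by
    filter_upwards [h, he] with y h1 h2
    rw [← h2]
    exact h1
  apply kv_inj
  rw [kv_kmk hQ hu h, kv_kmk hQ (hu.congr he) h']
  exact gvec_congr hu he

theorem kmk_inj (hQ : MHolAt Q b) {u u' : B → Fin m → ℂ} (hu : VHolAt u b) (hu' : VHolAt u' b)
    (h : ∀ᶠ y in 𝓝 b, Q y *ᵥ u y = 0) (h' : ∀ᶠ y in 𝓝 b, Q y *ᵥ u' y = 0)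
    (he : kmk Q u b = kmk Q u' b) : u =ᶠ[𝓝 b] u' := by
  have h1 := congrArg (kv Q b) he
  rw [kv_kmk hQ hu h, kv_kmk hQ hu' h'] at h1
  exact (gvec_eq_iff hu hu').mp h1

theorem kmk_add (hQ : MHolAt Q b) {u u' : B → Fin m → ℂ} (hu : VHolAt u b) (hu' : VHolAt u' b)
    (h : ∀ᶠ y in 𝓝 b, Q y *ᵥ u y = 0) (h' : ∀ᶠ y in 𝓝 b, Q y *ᵥ u' y = 0) :
    kmk Q (fun y => u y + u' y) b = kmk Q u b + kmk Q u' b := by
  have h2 : ∀ᶠ y in 𝓝 b, Q y *ᵥ (u y + u' y) = 0 := by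
    filter_upwards [h, h'] with y h1 h2
    rw [Matrix.mulVec_add, h1, h2, add_zero]
  apply kv_inj
  rw [map_add, kv_kmk hQ hu h, kv_kmk hQ hu' h', kv_kmk hQ (hu.add hu') h2, gvec_add hu hu']

theorem kmk_smul (hQ : MHolAt Q b) {u : B → Fin m → ℂ} (hu : VHolAt u b)
    (h : ∀ᶠ y in 𝓝 b, Q y *ᵥ u y = 0) {f : B → ℂ} (hf : HolAt f b) :
    kmk Q (fun y => f y • u y) b = om f b • kmk Q u b := by
  have h2 : ∀ᶠ y in 𝓝 b, Q y *ᵥ (f y • u y) = 0 := by
    filter_upwards [h] with y h1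
    rw [Matrix.mulVec_smul, h1, smul_zero]
  apply kv_inj
  rw [map_smul, kv_kmk hQ hu h, kv_kmk hQ (hu.smul hf) h2, gvec_smul hf hu]

/-- the vector of values of a section of the kernel sheaf -/
noncomputable def kval (Q : B → Matrix (Fin N) (Fin m) ℂ) (s : (b : B) → (ks Q).St b) (y : B) :
    Fin m → ℂ := fun l => ev y (kv Q y (s y) l)

theorem kval_at (hQ : MHolAt Q b) {s : (b : B) → (ks Q).St b} (hs : (ks Q).At s b) :
    VHolAt (kval Q s) b ∧ (∀ᶠ y in 𝓝 b, Q y *ᵥ kval Q s y = 0) ∧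
      ∀ᶠ y in 𝓝 b, s y = kmk Q (kval Q s) y := by
  have h1 := (ks_at_iff hQ).mp hs
  have h2 : VHolAt (kval Q s) b := fun l => (at_ev (h1 l)).1
  have h3 : ∀ᶠ y in 𝓝 b, ∀ l, kv Q y (s y) l = om (fun y => kval Q s y l) y :=
    eventually_all.mpr fun l => (at_ev (h1 l)).2
  have h3' : ∀ᶠ y in 𝓝 b, kv Q y (s y) = gvec (kval Q s) y := by
    filter_upwards [h3] with y hy
    exact funext hy
  have h4 : ∀ᶠ y in 𝓝 b, Q y *ᵥ kval Q s y = 0 := by
    refine near_of_gker hQ h2 ?_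
    rw [← h3'.self_of_nhds]
    exact kv_ker _
  refine ⟨h2, h4, ?_⟩
  filter_upwards [h3', hQ.eventually, h2.eventually, eventually_eventually_nhds.mpr h4]
    with y e1 e2 e3 e4
  apply kv_inj
  rw [kv_kmk e2 e3 e4]
  exact e1

/-- every element of the kernel sheaf is given by a vector of functions -/
theorem exists_kmk (hQ : MHolAt Q b) (c : (ks Q).St b) : ∃ u : B → Fin m → ℂ, VHolAt u b ∧
    (∀ᶠ y in 𝓝 b, Q y *ᵥ u y = 0) ∧ kmk Q u b = c := by
  obtain ⟨u, hu, huc⟩ := exists_gvec (kv Q b c)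
  have h1 : ∀ᶠ y in 𝓝 b, Q y *ᵥ u y = 0 := by
    refine near_of_gker hQ hu ?_
    rw [huc]
    exact kv_ker c
  refine ⟨u, hu, h1, ?_⟩
  apply kv_inj
  rw [kv_kmk hQ hu h1, huc]

theorem ks_coh (hO : C.Oka B) {S : Set B} (hQ : ∀ b ∈ S, MHolAt Q b) : (ks Q).Coh S :=
  C.relSh_coh hO (fun b hb => hO N b (mem_univ b)) fun l b hb => free_col_at (hQ b hb) l

end KS

end MF

end Pool.Agent.DQ
end
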