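import Pool.Agent.Lib.MP_4aa2a9_ag.Mg.G013
import Pool.Agent.Lib.MP_4aa2a9_ag.Mg.G012
import Pool.Agent.Lib.MP_4aa2a9_ag.Mg.G018
import Pool.Agent.Lib.MP_4aa2a9_ag.Mg.G015
import Pool.Agent.Lib.MP_4aa2a9_ag.Mg.G022
import Pool.Agent.Lib.MP_4aa2a9_ag.Mg.G017

section

/-! Campaign DQ, module S, file SPushG: generation of the direct image along a disc. -/

set_option autoImplicit false

open Set Filter Topology

universe u v w

namespace Pool.Agent.DQ

variable {V : Type u} [NormedAddCommGroup V] [NormedSpace ℂ V]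
  {V' : Type u} [NormedAddCommGroup V'] [NormedSpace ℂ V'] [FiniteDimensional ℂ V']

/-- **Generation.**

Proof. `m = pushSec s t` with `s` a section near the fibre disc (`EMod.exists_pushSec`; the fibre is in `F.dom` by coherence).
`cartanB_fib` (with `exists_disc_box`): `s x = ∑ i, om (A i) x • g i x` on the fibre. `div_fib` for every `A i` (`hD` gives the roots for all
`t'` near `t`): `Q i`, `b (i, ·)`. Equality of elements of the stalk: `EMod.push_ext`, `pushVal_sum`, `pushVal_smul_om`, `pushVal_pushSec`: at `x` with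
`‖(e x).2 - c‖ < R` it is `comb_eq` (the points near `x` lie in the open discs over `t'` near `t`, where the division formula holds); at
`‖(e x).2 - c‖ = R` both sides are in the zero module (`DD.zero`). -/
theorem DD.push_gen {F : EMod.{u, u, w} (O V)} {e : V ≃L[ℂ] V' × ℂ} {c : ℂ} {ρ R : ℝ} (hρR : ρ < R) {k p q : ℕ}
    {a : Fin k → V' → ℂ} {g : Fin p → (x : V) → F.St x} {h : Fin q → Fin p → V → ℂ} {t : V'}
    (hD : ∀ᶠ t' in 𝓝 t, DD F e c ρ R a g h t')
    (m : (F.push e (Metric.closedBall c R) (isCompact_closedBall c R)).St t) :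
    ∃ b : Fin p × Fin k → V' → ℂ, (∀ z, HolAt (b z) t) ∧
      m = ∑ z, om (b z) t • F.pushSec e (Metric.closedBall c R) (isCompact_closedBall c R) (GG F e g z) t := by
  have hDt := hD.self_of_nhds
  have hdom : fib e (Metric.closedBall c R) t ⊆ F.dom := fun x hx =>
    (hDt.coh x hx).self_of_nhds.1
  obtain ⟨s, hs, rfl⟩ := F.exists_pushSec e (Metric.closedBall c R) (isCompact_closedBall c R)
    hdom m
  obtain ⟨κ, hκ⟩ := exists_disc_box c R
  obtain ⟨A, hA, hsA⟩ := cartanB_fib F e κ (fun _ => c) (fun _ => -1) (fun _ => R) t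
    (by rw [hκ]; exact hDt.coh) g (by rw [hκ]; exact hDt.hg) (by rw [hκ]; exact hDt.gen) s
    (by rw [hκ]; exact hs)
  rw [hκ] at hA hsA
  choose Q b0 hb0 hQ using fun i => div_fib e hρR hDt.ha (hD.mono fun t' ht' => ht'.root) (hA i)
  refine ⟨fun z => b0 z.1 z.2, fun z => hb0 z.1 z.2, ?_⟩
  refine F.push_ext e _ _ t _ _ fun x hx => ?_
  by_cases hR : R ≤ ‖(e x).2 - c‖
  · have := hDt.zero x hx (hρR.le.trans hR)
    exact Subsingleton.elim _ _
  · have hxb : (e x).2 ∈ Metric.ball c R := by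
      rw [mem_ball_iff_norm]
      exact not_le.mp hR
    have hx' : x ∈ fib e (Metric.ball c R) t := ⟨hx.1, hxb⟩
    rw [F.pushVal_pushSec e _ _ hs x hx, F.pushVal_sum]
    have e1 : ∀ z : Fin p × Fin k,
        F.pushVal e (Metric.closedBall c R) (isCompact_closedBall c R) t
          (om (b0 z.1 z.2) t • F.pushSec e (Metric.closedBall c R) (isCompact_closedBall c R)
            (GG F e g z) t) x hx = om (fun y => b0 z.1 z.2 (e y).1) x • GG F e g z x := by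
      intro z
      rw [F.pushVal_smul_om e _ _ t (hb0 z.1 z.2), F.pushVal_pushSec e _ _ (GG_on hDt.hg z)]
    rw [Finset.sum_congr rfl fun z _ => e1 z, hsA x hx]
    refine comb_eq (a := a) (Q := Q) (b := fun z => b0 z.1 z.2) ?_ (hDt.kill x hx) ?_ ?_ ?_
    · intro j
      rw [hx.1]
      exact hDt.ha j
    · intro i
      exact (hQ i).self_of_nhds.1 x hx'
    · intro z
      rw [hx.1]
      exact hb0 z.1 z.2
    · intro i
      have h1 : ∀ᶠ y in 𝓝 x, (e y).2 ∈ Metric.ball c R :=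
        (continuous_snd.comp e.continuous).continuousAt.eventually
          (Metric.isOpen_ball.mem_nhds hxb)
      filter_upwards [(tendsto_fst e hx.1).eventually (hQ i), h1] with y hy1 hy2
      exact hy1.2 y ⟨rfl, hy2⟩

end Pool.Agent.DQ
end

section

/-! Campaign DQ, module S, file SPushR: the remainders are relations. -/

set_option autoImplicit false

open Set Filter Topology

universe u v w

namespace Pool.Agent.DQ

variable {V : Type u} [NormedAddCommGroup V] [NormedSpace ℂ V]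
  {V' : Type u} [NormedAddCommGroup V'] [NormedSpace ℂ V'] [FiniteDimensional ℂ V']

omit [FiniteDimensional ℂ V'] in
private theorem SPushR_hol_pow (e : V ≃L[ℂ] V' × ℂ) (j : ℕ) (x : V) :
    HolAt (fun y => (e y).2 ^ j) x := by
  refine Eventually.of_forall fun y => ?_
  have h1 : DifferentiableAt ℂ (fun y => (e y).2) y :=
    ((ContinuousLinearMap.snd ℂ V' ℂ).comp (e : V →L[ℂ] V' × ℂ)).differentiableAt
  exact h1.pow j

/-- **The remainders are relations.**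

Proof. `EMod.push_ext`, `pushVal_sum`, `pushVal_smul_om`, `pushVal_pushSec`. At `x` with `‖(e x).2 - c‖ = R`: zero module. At `x` in the open
disc: by `comb_eq` (with `A i := fun x => (e x).2 ^ j * h l i x`, `Q := Q y`, `b := E y`) the sum is `∑ i, om (A i) x • g i x =
om (v ^ j) x • ∑ i, om (h l i) x • g i x = 0` since `om (h l) x ∈ F.rel g x` (`RelOn`). -/
theorem DD.push_rel_mem {F : EMod.{u, u, w} (O V)} {e : V ≃L[ℂ] V' × ℂ} {c : ℂ} {ρ R : ℝ} (hρR : ρ < R) {k p q : ℕ}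
    {a : Fin k → V' → ℂ} {g : Fin p → (x : V) → F.St x} {h : Fin q → Fin p → V → ℂ} {t : V'}
    (hD : ∀ᶠ t' in 𝓝 t, DD F e c ρ R a g h t')
    {E : Fin q × Fin k → Fin p × Fin k → V' → ℂ} {Q : Fin q × Fin k → Fin p → V → ℂ} (hE : ∀ y x, HolAt (E y x) t)
    (hQ : ∀ᶠ t' in 𝓝 t, ∀ (y : Fin q × Fin k) (i : Fin p), HolNear (Q y i) (fib e (Metric.ball c R) t') ∧
        ∀ x ∈ fib e (Metric.ball c R) t', (e x).2 ^ (y.2 : ℕ) * h y.1 i x =
          Q y i x * mon a (e x).1 (e x).2 + ∑ m : Fin k, E y (i, m) (e x).1 * (e x).2 ^ (m : ℕ))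
    (y : Fin q × Fin k) :
    ∑ z, om (E y z) t • F.pushSec e (Metric.closedBall c R) (isCompact_closedBall c R) (GG F e g z) t = 0 := by
  have hDt := hD.self_of_nhds
  refine F.push_ext e _ _ t _ _ fun x hx => ?_
  by_cases hR : R ≤ ‖(e x).2 - c‖
  · have := hDt.zero x hx (hρR.le.trans hR)
    exact Subsingleton.elim _ _
  · have hxb : (e x).2 ∈ Metric.ball c R := by
      rw [mem_ball_iff_norm]
      exact not_le.mp hR
    have hx' : x ∈ fib e (Metric.ball c R) t := ⟨hx.1, hxb⟩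
    rw [F.pushVal_sum, F.pushVal_zero]
    have e1 : ∀ z : Fin p × Fin k,
        F.pushVal e (Metric.closedBall c R) (isCompact_closedBall c R) t
          (om (E y z) t • F.pushSec e (Metric.closedBall c R) (isCompact_closedBall c R)
            (GG F e g z) t) x hx = om (fun u => E y z (e u).1) x • GG F e g z x := by
      intro z
      rw [F.pushVal_smul_om e _ _ t (hE y z), F.pushVal_pushSec e _ _ (GG_on hDt.hg z)]
    rw [Finset.sum_congr rfl fun z _ => e1 z]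
    have e2 := comb_eq (F := F) (e := e) (a := a) (g := g) (x := x)
      (A := fun i u => (e u).2 ^ (y.2 : ℕ) * h y.1 i u) (Q := Q y) (b := E y)
      (fun j => by rw [hx.1]; exact hDt.ha j) (hDt.kill x hx)
      (fun i => (hQ.self_of_nhds y i).1 x hx')
      (fun z => by rw [hx.1]; exact hE y z)
      (fun i => by
        have h1 : ∀ᶠ u in 𝓝 x, (e u).2 ∈ Metric.ball c R :=
          (continuous_snd.comp e.continuous).continuousAt.eventually
            (Metric.isOpen_ball.mem_nhds hxb)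
        filter_upwards [(tendsto_fst e hx.1).eventually hQ, h1] with u hu1 hu2
        exact (hu1 y i).2 u ⟨rfl, hu2⟩)
    rw [← e2]
    have hh : ∀ i, HolAt (h y.1 i) x := fun i => hDt.rel.1 y.1 i x hx
    have e3 : ∀ i, om (fun u => (e u).2 ^ (y.2 : ℕ) * h y.1 i u) x • g i x =
        om (fun u => (e u).2 ^ (y.2 : ℕ)) x • om (h y.1 i) x • g i x := by
      intro i
      rw [← mul_smul]
      congr 1
      exact gm_mul (SPushR_hol_pow e y.2 x) (hh i)
    rw [Finset.sum_congr rfl fun i _ => e3 i, ← Finset.smul_sum]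
    have e4 : (fun i => om (h y.1 i) x) ∈ F.rel g x := by
      rw [hDt.rel.2 x hx]
      exact Submodule.subset_span ⟨y.1, rfl⟩
    have e5 : ∑ i, om (h y.1 i) x • g i x = 0 := e4
    rw [e5, smul_zero]

end Pool.Agent.DQ
end

section

/-! Campaign DQ, module S, file SPushS: all relations are combinations of the remainders. -/

set_option autoImplicit false

open Set Filter Topology

universe u v w

namespace Pool.Agent.DQ

variable {V : Type u} [NormedAddCommGroup V] [NormedSpace ℂ V]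
  {V' : Type u} [NormedAddCommGroup V'] [NormedSpace ℂ V'] [FiniteDimensional ℂ V']

private theorem SPushS_snd {V : Type u} [NormedAddCommGroup V] [NormedSpace ℂ V]
    {V' : Type u} [NormedAddCommGroup V'] [NormedSpace ℂ V'] (e : V ≃L[ℂ] V' × ℂ) (m : ℕ) (x : V) :
    HolAt (fun z => (e z).2 ^ m) x := by
  refine Eventually.of_forall fun z => ?_
  have h1 : DifferentiableAt ℂ (fun z => (e z).2) z :=
    ((ContinuousLinearMap.snd ℂ V' ℂ).comp (e : V →L[ℂ] V' × ℂ)).differentiableAt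
  exact h1.pow m

private theorem SPushS_alg {p q k : ℕ} (i : Fin p) (v M : ℂ) (C q' : Fin q → ℂ) (d : Fin q → Fin k → ℂ)
    (h : Fin q → ℂ) (Q : Fin q × Fin k → ℂ) (E : Fin q × Fin k → Fin k → ℂ)
    (hC : ∀ l, C l = q' l * M + ∑ j, d l j * v ^ (j : ℕ))
    (hQ : ∀ y : Fin q × Fin k, v ^ (y.2 : ℕ) * h y.1 = Q y * M + ∑ m, E y m * v ^ (m : ℕ)) :
    ∑ l, C l * h l = (∑ l, q' l * h l + ∑ y : Fin q × Fin k, d y.1 y.2 * Q y) * M +
      ∑ m, (∑ y : Fin q × Fin k, d y.1 y.2 * E y m) * v ^ (m : ℕ) := by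
  have e1 : ∑ l, C l * h l = (∑ l, q' l * h l) * M + ∑ y : Fin q × Fin k, d y.1 y.2 * (v ^ (y.2 : ℕ) * h y.1) := by
    rw [Fintype.sum_prod_type, Finset.sum_mul, ← Finset.sum_add_distrib]
    refine Finset.sum_congr rfl fun l _ => ?_
    rw [hC l, add_mul, Finset.sum_mul]
    congr 1
    · ring
    · exact Finset.sum_congr rfl fun j _ => by ring
  have e2 : ∑ y : Fin q × Fin k, d y.1 y.2 * (v ^ (y.2 : ℕ) * h y.1) =
      (∑ y : Fin q × Fin k, d y.1 y.2 * Q y) * M +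
      ∑ m, (∑ y : Fin q × Fin k, d y.1 y.2 * E y m) * v ^ (m : ℕ) := by
    have e3 : ∑ m, (∑ y : Fin q × Fin k, d y.1 y.2 * E y m) * v ^ (m : ℕ) =
        ∑ y : Fin q × Fin k, d y.1 y.2 * ∑ m, E y m * v ^ (m : ℕ) := by
      simp only [Finset.sum_mul, Finset.mul_sum]
      rw [Finset.sum_comm]
      refine Finset.sum_congr rfl fun y _ => Finset.sum_congr rfl fun m _ => ?_
      ring
    rw [e3, Finset.sum_mul, ← Finset.sum_add_distrib]
    refine Finset.sum_congr rfl fun y _ => ?_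
    rw [hQ y]
    ring
  rw [e1, e2]
  ring

private theorem SPushS_sum {X : Type u} [NormedAddCommGroup X] [NormedSpace ℂ X] {ι : Type} [Fintype ι] (x : X)
    {f : ι → X → ℂ} (hf : ∀ i, HolAt (f i) x) : gm (fun y => ∑ i, f i y) x = ∑ i, gm (f i) x :=
  C.gm_sum _ fun i _ => hf i

private theorem SPushS_congr {X : Type u} [NormedAddCommGroup X] [NormedSpace ℂ X] {x : X}
    {f g : X → ℂ} (hf : HolAt f x) (h : f =ᶠ[𝓝 x] g) : gm f x = gm g x := C.gm_congr hf h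

/-- **All relations are combinations of the remainders.**

Proof. `b z = om (b' z) t` (`exists_gm`). Put `B i x := ∑ m : Fin k, b' (i, m) (e x).1 * (e x).2 ^ m`, holomorphic near the fibre. The hypothesis
(values on the fibre) says `∑ i, om (B i) x • g i x = 0` for all `x` in the fibre over `t` (`comb_eq` with `Q = 0`, or directly), so
`relB_fib` gives `C l` holomorphic near the fibre with `om (B i) x = ∑ l, om (C l) x * om (h l i) x` on the fibre, hence `B i = ∑ l, C l * h l i`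
near the fibre, and (`fib_tube`) on the fibres over `t'` near `t`. `div_fib` for `C l`: `C l = Q' l * mon + ∑ j, d (l, j) * v ^ j` on the open discs over `t'`
near `t`. With `hQ`: `B i = (∑ l, Q' l * h l i + ∑ (l, j), d (l, j) * Q (l, j) i) * mon + ∑ m, (∑ (l, j), d (l, j) * E (l, j) (i, m)) * v ^ m` there. For
each such `t'`, `div_fib_unique` gives `b' (i, m) t' = ∑ y, d y t' * E y (i, m) t'`. So the germs at `t` agree (`gm_eq_iff`, `gm_mul`, `C.gm_sum`);
take `om (d y) t`. -/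
theorem DD.push_rel_gen {F : EMod.{u, u, w} (O V)} {e : V ≃L[ℂ] V' × ℂ} {c : ℂ} {ρ R : ℝ} (hρR : ρ < R) {k p q : ℕ}
    {a : Fin k → V' → ℂ} {g : Fin p → (x : V) → F.St x} {h : Fin q → Fin p → V → ℂ} {t : V'}
    (hD : ∀ᶠ t' in 𝓝 t, DD F e c ρ R a g h t')
    {E : Fin q × Fin k → Fin p × Fin k → V' → ℂ} {Q : Fin q × Fin k → Fin p → V → ℂ} (hE : ∀ y x, HolAt (E y x) t)
    (hQ : ∀ᶠ t' in 𝓝 t, ∀ (y : Fin q × Fin k) (i : Fin p), HolNear (Q y i) (fib e (Metric.ball c R) t') ∧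
        ∀ x ∈ fib e (Metric.ball c R) t', (e x).2 ^ (y.2 : ℕ) * h y.1 i x =
          Q y i x * mon a (e x).1 (e x).2 + ∑ m : Fin k, E y (i, m) (e x).1 * (e x).2 ^ (m : ℕ))
    (b : Fin p × Fin k → (O V').St t)
    (hb : ∑ z, b z • F.pushSec e (Metric.closedBall c R) (isCompact_closedBall c R) (GG F e g z) t = 0) :
    ∃ d : Fin q × Fin k → (O V').St t, ∀ z, b z = ∑ y, d y * om (E y z) t := by
  have hD0 := hD.self_of_nhds
  obtain ⟨κ, hκ⟩ := exists_disc_box c R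
  choose b' hb' hbb using fun z => exists_gm (show OGerm t from b z)
  -- the functions `B i`
  obtain ⟨B, hB⟩ : ∃ B : Fin p → V → ℂ, ∀ i x, B i x = ∑ m : Fin k, b' (i, m) (e x).1 * (e x).2 ^ (m : ℕ) :=
    ⟨_, fun _ _ => rfl⟩
  have hBfun : ∀ i, B i = fun x => ∑ m : Fin k, b' (i, m) (e x).1 * (e x).2 ^ (m : ℕ) := fun i => funext (hB i)
  have hBnear : ∀ i, HolNear (B i) (fib e (Metric.closedBall c R) t) := by
    intro i x hx
    rw [hBfun]
    exact HolAt.sum _ fun m _ => ((hb' (i, m)).comp_fst e hx.1).mul (SPushS_snd e m x)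
  have hsum : ∀ x ∈ fib e (Metric.closedBall c R) t, ∑ i, om (B i) x • g i x = 0 := by
    intro x hx
    have ha : ∀ j, HolAt (a j) (e x).1 := fun j => by rw [hx.1]; exact hD0.ha j
    have hbx : ∀ z, HolAt (b' z) (e x).1 := fun z => by rw [hx.1]; exact hb' z
    have h1 := comb_eq (F := F) (e := e) (a := a) (g := g) (x := x) ha (hD0.kill x hx) (A := B) (Q := fun _ _ => 0)
      (b := b') (fun i => HolAt.const 0 x) hbx (fun i => Eventually.of_forall fun y => by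
        rw [hB i y, zero_mul, zero_add])
    rw [h1]
    have h2 := congrArg (fun m => F.pushVal e (Metric.closedBall c R) (isCompact_closedBall c R) t m x hx) hb
    simp only [F.pushVal_sum, F.pushVal_zero] at h2
    rw [← h2]
    refine Finset.sum_congr rfl fun z _ => ?_
    have h3 : b z = om (b' z) t := (hbb z).symm
    rw [h3, F.pushVal_smul_om e _ _ t (hb' z), F.pushVal_pushSec e _ _ (GG_on hD0.hg z)]
  have hcoh' : F.Coh (fib e (cbox κ (fun _ => c) (fun _ => -1) (fun _ => R)) t) := by rw [hκ]; exact hD0.coh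
  have hg' : ∀ i, F.On (g i) (fib e (cbox κ (fun _ => c) (fun _ => -1) (fun _ => R)) t) := by
    rw [hκ]; exact hD0.hg
  have hrel' : RelOn F g h (fib e (cbox κ (fun _ => c) (fun _ => -1) (fun _ => R)) t) := by
    rw [hκ]; exact hD0.rel
  obtain ⟨C, hC, hCB⟩ := relB_fib F e κ _ _ _ t hcoh' hg' hrel' (a := B) (by rw [hκ]; exact hBnear)
    (by rw [hκ]; exact hsum)
  rw [hκ] at hC hCB
  -- division of the `C l`
  have hroot : ∀ᶠ t' in 𝓝 t, ∀ v, mon a t' v = 0 → ‖v - c‖ < ρ := hD.mono fun t' h' => h'.root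
  choose q' d hd hq' using fun l => div_fib e hρR hD0.ha hroot (hC l)
  -- the equality `B i = ∑ C l * h l i` near the fibre
  have hBC : ∀ᶠ t' in 𝓝 t, ∀ x ∈ fib e (Metric.closedBall c R) t', ∀ i, B i x = ∑ l, C l x * h l i x := by
    refine fib_tube e (isCompact_closedBall c R) ?_
    intro x hx
    rw [eventually_all]
    intro i
    have h1 : ∀ l, HolAt (fun y => C l y * h l i y) x := fun l => (hC l x hx).mul (hD0.rel.1 l i x hx)
    have h2 : gm (B i) x = gm (fun y => ∑ l, C l y * h l i y) x := by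
      rw [SPushS_sum x h1]
      refine (hCB x hx i).trans (Finset.sum_congr rfl fun l _ => ?_)
      exact (gm_mul (hC l x hx) (hD0.rel.1 l i x hx)).symm
    exact (gm_eq_iff (hBnear i x hx) (HolAt.sum _ fun l _ => h1 l)).mp h2
  have hkey : ∀ᶠ t' in 𝓝 t, ∀ i m, b' (i, m) t' = ∑ y : Fin q × Fin k, d y.1 y.2 t' * E y (i, m) t' := by
    filter_upwards [hD, hQ, eventually_all.mpr hq', hBC] with t' k1 k2 k3 k4
    intro i
    have h1 : HolNear (fun x => ∑ l, q' l x * h l i x + ∑ y : Fin q × Fin k, d y.1 y.2 t' * Q y i x)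
        (fib e (Metric.ball c R) t') := by
      intro x hx
      have hx' : x ∈ fib e (Metric.closedBall c R) t' := ⟨hx.1, Metric.ball_subset_closedBall hx.2⟩
      exact (HolAt.sum _ fun l _ => ((k3 l).1 x hx).mul (k1.rel.1 l i x hx')).add
        (HolAt.sum _ fun y _ => (HolAt.const _ x).mul ((k2 y i).1 x hx))
    have h2 := div_fib_unique e hρR k1.root (q := fun x => ∑ l, q' l x * h l i x +
        ∑ y : Fin q × Fin k, d y.1 y.2 t' * Q y i x)
      (b := fun m => (∑ y : Fin q × Fin k, d y.1 y.2 t' * E y (i, m) t') - b' (i, m) t') h1 (by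
        intro x hx
        have hx' : x ∈ fib e (Metric.closedBall c R) t' := ⟨hx.1, Metric.ball_subset_closedBall hx.2⟩
        have e1 := k4 x hx' i
        have e2 := SPushS_alg i (e x).2 (mon a (e x).1 (e x).2) (fun l => C l x) (fun l => q' l x)
          (fun l j => d l j t') (fun l => h l i x) (fun y => Q y i x) (fun y m => E y (i, m) t')
          (fun l => by
            have e3 := (k3 l).2 x hx
            rw [e3]
            congr 1
            refine Finset.sum_congr rfl fun j _ => ?_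
            rw [hx.1])
          (fun y => by
            have e3 := (k2 y i).2 x hx
            rw [e3]
            congr 1
            refine Finset.sum_congr rfl fun j _ => ?_
            rw [hx.1])
        have e4 : ∑ m : Fin k, ((∑ y : Fin q × Fin k, d y.1 y.2 t' * E y (i, m) t') - b' (i, m) t') * (e x).2 ^ (m : ℕ) =
            ∑ m : Fin k, (∑ y : Fin q × Fin k, d y.1 y.2 t' * E y (i, m) t') * (e x).2 ^ (m : ℕ) - B i x := by
          rw [hB i x, hx.1, ← Finset.sum_sub_distrib]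
          exact Finset.sum_congr rfl fun m _ => by ring
        rw [e4, e1, e2]
        ring)
    intro m
    have h3 := congrFun h2 m
    simp only [Pi.zero_apply] at h3
    exact (sub_eq_zero.mp h3).symm
  refine ⟨fun y => om (d y.1 y.2) t, ?_⟩
  rintro ⟨i, m⟩
  have h1 : ∀ y : Fin q × Fin k, HolAt (fun t' => d y.1 y.2 t' * E y (i, m) t') t := fun y =>
    (hd y.1 y.2).mul (hE y (i, m))
  have h2 : gm (b' (i, m)) t = gm (fun t' => ∑ y : Fin q × Fin k, d y.1 y.2 t' * E y (i, m) t') t := by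
    refine SPushS_congr (hb' (i, m)) ?_
    filter_upwards [hkey] with t' ht'
    exact ht' i m
  have h3 : b (i, m) = gm (b' (i, m)) t := (hbb (i, m)).symm
  rw [h3, h2, SPushS_sum t h1]
  exact Finset.sum_congr rfl fun y _ => gm_mul (hd y.1 y.2) (hE y (i, m))

end Pool.Agent.DQ
end

section

/-! Campaign DQ, module S, file SPushDisc: **the direct image along a disc is coherent**. -/

set_option autoImplicit false

open Set Filter Topology

universe u v w

namespace Pool.Agent.DQ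

variable {V : Type u} [NormedAddCommGroup V] [NormedSpace ℂ V]
  {V' : Type u} [NormedAddCommGroup V'] [NormedSpace ℂ V'] [FiniteDimensional ℂ V']

/-- **The direct image along a disc is coherent.**

Proof. `exists_DD`, `exists_rem`; `coh_of_lfp'` for `F.push ..` with generators `pushSec (GG z)` (`pushSec_at`, `GG_on`), relations
`fun y z => om (E y z)`; the conditions for `t'` near `t` are `DD.push_gen`, `DD.push_rel_mem` (multiply by `d y` and sum: `Finset.sum_comm`, `sum_smul`,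
`mul_smul`), `DD.push_rel_gen` at `t'` (`eventually_eventually_nhds`). `t ∈ dom`: the fibre is contained in `F.dom` by coherence. -/
theorem push_cohAt_disc (F : EMod.{u, u, w} (O V)) (e : V ≃L[ℂ] V' × ℂ) (c : ℂ) {R : ℝ} (hR : 0 < R)
    (t : V') (hcoh : F.Coh (fib e (Metric.closedBall c R) t))
    (hzero : ∀ x ∈ fib e (Metric.closedBall c R) t, ‖(e x).2 - c‖ = R → Subsingleton (F.St x)) :
    (F.push e (Metric.closedBall c R) (isCompact_closedBall c R)).CohAt t := by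
  obtain ⟨ρ, k, p, q, a, g, h, _, hρR, hD⟩ := exists_DD F e c hR t hcoh hzero
  obtain ⟨E, Q, hE, hQ⟩ := exists_rem hρR hD
  have hdom : t ∈ (F.push e (Metric.closedBall c R) (isCompact_closedBall c R)).dom :=
    fun x hx => (hcoh x hx).self_of_nhds.1
  have hE2 : ∀ᶠ t' in 𝓝 t, ∀ y x, HolAt (E y x) t' :=
    eventually_all.mpr fun y => eventually_all.mpr fun x => (hE y x).eventually
  refine coh_of_lfp' (F.push e (Metric.closedBall c R) (isCompact_closedBall c R)) hdom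
    (ι := Fin p × Fin k) (κ := Fin q × Fin k)
    (fun z => F.pushSec e (Metric.closedBall c R) (isCompact_closedBall c R) (GG F e g z))
    (fun y z t' => om (E y z) t')
    (fun z => F.pushSec_at e _ _ (GG_on hD.self_of_nhds.hg z))
    (fun y z => O_at_gm (hE y z)) ?_ ?_
  · filter_upwards [eventually_eventually_nhds.mpr hD] with t' hD' m
    obtain ⟨b, _, hm⟩ := DD.push_gen hρR hD' m
    exact ⟨fun z => om (b z) t', hm⟩
  · filter_upwards [eventually_eventually_nhds.mpr hD, eventually_eventually_nhds.mpr hQ, hE2]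
      with t' hD' hQ' hE' b
    constructor
    · exact fun hb => DD.push_rel_gen hρR hD' hE' hQ' b hb
    · rintro ⟨d, hd⟩
      have h1 : ∀ z, b z • F.pushSec e (Metric.closedBall c R) (isCompact_closedBall c R)
          (GG F e g z) t' = ∑ y, d y • om (E y z) t' •
            F.pushSec e (Metric.closedBall c R) (isCompact_closedBall c R) (GG F e g z) t' := by
        intro z
        rw [hd z, Finset.sum_smul]
        exact Finset.sum_congr rfl fun y _ => mul_smul _ _ _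
      rw [Finset.sum_congr rfl fun z _ => h1 z, Finset.sum_comm]
      refine Finset.sum_eq_zero fun y _ => ?_
      rw [← Finset.smul_sum, DD.push_rel_mem hρR hD' hE' hQ' y, smul_zero]

end Pool.Agent.DQ
end

section

/-! Campaign DQ, module S: uniform neighbourhoods (SN'). -/

set_option autoImplicit false

open Set Filter Topology

universe u v w w'

namespace Pool.Agent.DQ

/-! ### change of universe -/

/-- the same sheaf in a larger universe -/
def EMod.ulift {X : Type u} [TopologicalSpace X] {R : ERing.{u, v} X} (F : EMod.{u, v, w} R) :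
    EMod.{u, v, max w' w} R where
  dom := F.dom
  dom_sub := F.dom_sub
  St x := ULift.{w'} (F.St x)
  At s x := F.At (fun y => (s y).down) x
  mem_dom h := F.mem_dom h
  ev h := F.ev h
  congr h h' := F.congr h (h'.mono fun y hy => by rw [hy])
  inj h h' e := (F.inj h h' (by rw [e])).mono fun y hy => ULift.down_injective hy
  surj x hx g := by
    obtain ⟨s, hs, h⟩ := F.surj x hx g.down
    exact ⟨fun y => ⟨s y⟩, hs, ULift.down_injective h⟩
  zero x hx := F.zero x hx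
  add h h' := F.add h h'
  smul h h' := F.smul h h'

theorem EMod.ulift_cohAt {X : Type u} [TopologicalSpace X] {R : ERing.{u, v} X}
    {F : EMod.{u, v, w} R} {x : X} (h : F.CohAt x) : (EMod.ulift.{u, v, w, w'} F).CohAt x := by
  have hsum : ∀ {y : X} {n : ℕ} (c : Fin n → R.St y) (g : Fin n → ULift.{w'} (F.St y)),
      (∑ i, c i • g i).down = ∑ i, c i • (g i).down := by
    intro y n c g
    exact (map_sum (ULift.moduleEquiv (R := R.St y) (M := F.St y)) _ _)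
  obtain ⟨hx, ⟨p, g, hg, hgen⟩, hrel⟩ := h
  refine ⟨hx, ⟨p, fun i y => ⟨g i y⟩, hg, ?_⟩, ?_⟩
  · filter_upwards [hgen] with y hy
    rw [eq_top_iff]
    intro m _
    have h1 : m.down ∈ Submodule.span (R.St y) (range fun i => g i y) := by rw [hy]; trivial
    obtain ⟨c, hc⟩ := mem_span_fam.mp h1
    refine mem_span_fam.mpr ⟨c, ULift.down_injective ?_⟩
    rw [hc]
    exact (hsum c fun i => ⟨g i y⟩).symm
  · intro n s hs
    obtain ⟨m, ρ, hρ, hρrel⟩ := hrel n (fun i y => (s i y).down) hs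
    refine ⟨m, ρ, hρ, ?_⟩
    filter_upwards [hρrel] with y hy
    rw [← hy]
    ext c
    change ∑ i, c i • s i y = 0 ↔ ∑ i, c i • (s i y).down = 0
    have h1 := hsum c fun i => s i y
    exact ⟨fun h => h1.symm.trans (congrArg ULift.down h),
      fun h => ULift.down_injective (h1.trans h)⟩

namespace S

theorem kerSh_bot {V : Type u} [NormedAddCommGroup V] [NormedSpace ℂ V]
    {F : EMod.{u, u, w} (O V)} {f : V → ℂ} {x : V} (hf : HolAt f x) (h : f x ≠ 0) {m : F.St x}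
    (hm : m ∈ kerMul F f x) : m = 0 := by
  rw [mem_kerMul hf] at hm
  obtain ⟨u, hu⟩ := isUnit_om hf h
  rw [← hu] at hm
  have h1 : (↑u⁻¹ : (O V).St x) • ((u : (O V).St x) • m) = 0 := by rw [hm, smul_zero]
  rw [← mul_smul, Units.inv_mul, one_smul] at h1
  exact h1

theorem kerSh_subsingleton {V : Type u} [NormedAddCommGroup V] [NormedSpace ℂ V]
    {F : EMod.{u, u, w} (O V)} {f : V → ℂ} {x : V} (hf : HolAt f x) (h : f x ≠ 0) :
    Subsingleton ((kerSh F f).St x) := by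
  refine ⟨fun a b => Subtype.ext ?_⟩
  rw [kerSh_bot hf h a.2, kerSh_bot hf h b.2]

/-- coordinates on a product with a line -/
noncomputable def consCoord {V V' : Type u} [NormedAddCommGroup V] [NormedSpace ℂ V]
    [NormedAddCommGroup V'] [NormedSpace ℂ V'] {n : ℕ} (e : V ≃L[ℂ] V' × ℂ)
    (κ' : V' ≃L[ℂ] (Fin n → ℂ)) : V ≃L[ℂ] (Fin (n + 1) → ℂ) :=
  (e.trans (ContinuousLinearEquiv.prodComm ℂ V' ℂ)).trans
    (((ContinuousLinearEquiv.refl ℂ ℂ).prodCongr κ').trans (Fin.consEquivL ℂ (fun _ => ℂ)))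

section coord

variable {V V' : Type u} [NormedAddCommGroup V] [NormedSpace ℂ V]
    [NormedAddCommGroup V'] [NormedSpace ℂ V'] {n : ℕ} (e : V ≃L[ℂ] V' × ℂ)
    (κ' : V' ≃L[ℂ] (Fin n → ℂ))

theorem consCoord_zero (x : V) : consCoord e κ' x 0 = (e x).2 := rfl

theorem consCoord_succ (x : V) (i : Fin n) : consCoord e κ' x i.succ = κ' (e x).1 i := rfl

theorem mem_box_cons {x x₀ : V} {R : Fin (n + 1) → ℝ} :
    x ∈ box (consCoord e κ') (consCoord e κ' x₀) (-1) R ↔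
      ‖(e x).2 - (e x₀).2‖ < R 0 ∧ (e x).1 ∈ box κ' (κ' (e x₀).1) (-1) (fun i => R i.succ) := by
  have hneg : ∀ z : ℂ, (-1 : ℝ) < ‖z‖ := fun z => by linarith [norm_nonneg z]
  constructor
  · intro h
    exact ⟨(h 0).2, fun i => ⟨hneg _, (h i.succ).2⟩⟩
  · rintro ⟨h1, h2⟩ i
    refine Fin.cases ?_ (fun j => ?_) i
    · exact ⟨hneg _, h1⟩
    · exact ⟨hneg _, (h2 j).2⟩

theorem mem_cbox_cons {x x₀ : V} {R : Fin (n + 1) → ℝ} :
    x ∈ cbox (consCoord e κ') (consCoord e κ' x₀) (-1) R ↔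
      ‖(e x).2 - (e x₀).2‖ ≤ R 0 ∧ (e x).1 ∈ cbox κ' (κ' (e x₀).1) (-1) (fun i => R i.succ) := by
  have hneg : ∀ z : ℂ, (-1 : ℝ) ≤ ‖z‖ := fun z => by linarith [norm_nonneg z]
  constructor
  · intro h
    exact ⟨(h 0).2, fun i => ⟨hneg _, (h i.succ).2⟩⟩
  · rintro ⟨h1, h2⟩ i
    refine Fin.cases ?_ (fun j => ?_) i
    · exact ⟨hneg _, h1⟩
    · exact ⟨hneg _, (h2 j).2⟩

end coord

/-- uniform neighbourhoods: the statement of the induction -/
def SNPR {V : Type u} [NormedAddCommGroup V] [NormedSpace ℂ V] (F : EMod.{u, u, w} (O V)) (x₀ : V)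
    (W : Set V) : Prop :=
  ∃ (n : ℕ) (κ : V ≃L[ℂ] (Fin n → ℂ)) (r R : Fin n → ℝ), (∀ i, 0 < r i ∧ r i < R i) ∧
    cbox κ (κ x₀) (-1) R ⊆ W ∧ F.Coh (cbox κ (κ x₀) (-1) R) ∧
    ∀ R' : Fin n → ℝ, (∀ i, r i < R' i ∧ R' i ≤ R i) →
      ∀ s : (x : V) → F.St x, F.On s (box κ (κ x₀) (-1) R') → s x₀ = 0 →
        ∀ x ∈ box κ (κ x₀) (-1) R', s x = 0

theorem snp_step {V V' : Type u} [NormedAddCommGroup V] [NormedSpace ℂ V] [FiniteDimensional ℂ V]
    [NormedAddCommGroup V'] [NormedSpace ℂ V'] [FiniteDimensional ℂ V']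
    {F : EMod.{u, u, max u w} (O V)} {x₀ : V} {W : Set V} (φ : V ≃L[ℂ] V' × ℂ) {f : V → ℂ}
    {q : ℕ} {b : Fin q → (x : V) → F.St x}
    (hgood : ∀ᶠ y in 𝓝 x₀, y ∈ W ∧ F.CohAt y ∧ HolAt f y ∧ (∀ j, F.At (b j) y) ∧ F.rel b y = ⊥ ∧
      ∀ m : F.St y, om f y • m ∈ Submodule.span ((O V).St y) (range fun j => b j y))
    (hne : ∃ᶠ v in 𝓝 (φ x₀).2, f (φ.symm ((φ x₀).1, v)) ≠ 0)
    (IH : ∀ (G : EMod.{u, u, max u w} (O V')) (t : V'), G.CohAt t → ∀ S ∈ 𝓝 t, SNPR G t S) :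
    SNPR F x₀ W := by
  classical
  set t₀ := (φ x₀).1 with ht₀
  set c := (φ x₀).2 with hc
  set Good : V → Prop := fun y => y ∈ W ∧ F.CohAt y ∧ HolAt f y ∧ (∀ j, F.At (b j) y) ∧
    F.rel b y = ⊥ ∧
      ∀ m : F.St y, om f y • m ∈ Submodule.span ((O V).St y) (range fun j => b j y) with hGood
  have hx₀ : φ.symm (t₀, c) = x₀ := by
    rw [ht₀, hc]
    exact φ.symm_apply_apply x₀
  have hline : Continuous fun v : ℂ => φ.symm (t₀, v) := by fun_prop
  have hlined : Differentiable ℂ fun v : ℂ => φ.symm (t₀, v) := by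
    have : Differentiable ℂ fun v : ℂ => ((t₀, v) : V' × ℂ) :=
      (differentiable_const _).prodMk differentiable_id
    exact φ.symm.differentiable.comp this
  have htend : Tendsto (fun v : ℂ => φ.symm (t₀, v)) (𝓝 c) (𝓝 x₀) := by
    have := hline.tendsto c
    rwa [hx₀] at this
  -- the function on the line
  have hfx₀ : HolAt f x₀ := hgood.self_of_nhds.2.2.1
  have hp : ∀ᶠ v in 𝓝 c, DifferentiableAt ℂ (fun v => f (φ.symm (t₀, v))) v := by
    filter_upwards [htend.eventually hfx₀] with v hv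
    exact hv.comp v (hlined v)
  have hne' : ∀ᶠ v in 𝓝 c, v ≠ c → f (φ.symm (t₀, v)) ≠ 0 := by
    have han : AnalyticAt ℂ (fun v => f (φ.symm (t₀, v))) c :=
      Complex.analyticAt_iff_eventually_differentiableAt.mpr hp
    rcases han.eventually_eq_zero_or_eventually_ne_zero with h | h
    · exact absurd (h.mono fun v hv => not_not.mpr hv) (by
        intro h'
        exact hne h')
    · rw [eventually_nhdsWithin_iff] at h
      exact h
  have hgood2 : ∀ᶠ v in 𝓝 c, ∀ᶠ y in 𝓝 (φ.symm (t₀, v)), Good y :=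
    htend.eventually (eventually_eventually_nhds.mpr hgood)
  obtain ⟨ε, hε, hball⟩ := Metric.eventually_nhds_iff_ball.mp (hne'.and hgood2)
  set R := ε / 2 with hR
  set ρ := ε / 4 with hρ
  have hRpos : 0 < R := by positivity
  have hρpos : 0 < ρ := by positivity
  have hρR : ρ < R := by rw [hR, hρ]; linarith
  have hRε : R < ε := by rw [hR]; linarith
  set D : Set ℂ := Metric.closedBall c R with hD
  have hDc : IsCompact D := isCompact_closedBall c R
  have hsymm : ∀ (t : V') (x : V), (φ x).1 = t → φ.symm (t, (φ x).2) = x := by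
    rintro _ x rfl
    exact φ.symm_apply_apply x
  have hDball : ∀ v ∈ D, v ∈ Metric.ball c ε := fun v hv =>
    Metric.closedBall_subset_ball hRε hv
  have hfib : ∀ x ∈ fib φ D t₀, ∀ᶠ y in 𝓝 x, Good y := by
    intro x hx
    have := (hball _ (hDball _ hx.2)).2
    rwa [hsymm t₀ x hx.1] at this
  -- good base points
  have hS1 : ∀ᶠ t in 𝓝 t₀, ∀ x ∈ fib φ D t, ∀ᶠ y in 𝓝 x, Good y :=
    fib_tube φ hDc fun x hx => eventually_eventually_nhds.mpr (hfib x hx)
  have hfne : ∀ x ∈ fib φ D t₀, (φ x).2 ≠ c → f x ≠ 0 := by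
    intro x hx hxc
    have := (hball _ (hDball _ hx.2)).1 hxc
    rwa [hsymm t₀ x hx.1] at this
  have hAnn : IsCompact (cring c ρ R) := C.isCompact_annulus c ρ R
  have hAnnD : cring c ρ R ⊆ D := fun v hv => by
    rw [hD, Metric.mem_closedBall, dist_eq_norm]
    exact hv.2
  have hS2 : ∀ᶠ t in 𝓝 t₀, ∀ x ∈ fib φ (cring c ρ R) t, ∀ᶠ y in 𝓝 x, HolAt f y ∧ f y ≠ 0 := by
    refine fib_tube φ hAnn fun x hx => eventually_eventually_nhds.mpr ?_
    have hxD : x ∈ fib φ D t₀ := ⟨hx.1, hAnnD hx.2⟩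
    have hxc : (φ x).2 ≠ c := by
      intro h
      have := hx.2.1
      rw [h, sub_self, norm_zero] at this
      linarith
    have hfx : HolAt f x := (hfib x hxD).self_of_nhds.2.2.1
    have h1 : ∀ᶠ y in 𝓝 x, f y ≠ 0 :=
      hfx.differentiableAt.continuousAt.eventually_ne (hfne x hxD hxc)
    exact hfx.eventually.and h1
  -- the torsion sheaf and its direct image
  have hTcoh : (kerSh F f).Coh (fib φ D t₀) := by
    intro x hx
    filter_upwards [hfib x hx] with y hy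
    exact kerSh_cohAt hy.2.1 hy.2.2.1
  have hT0 : ∀ x ∈ fib φ D t₀, ‖(φ x).2 - c‖ = R → Subsingleton ((kerSh F f).St x) := by
    intro x hx hxR
    refine kerSh_subsingleton (hfib x hx).self_of_nhds.2.2.1 (hfne x hx ?_)
    intro h
    rw [h, sub_self, norm_zero] at hxR
    linarith
  have hG := push_cohAt_disc (kerSh F f) φ c hRpos t₀ hTcoh hT0
  obtain ⟨n, κ', r', R', hr', hsub', -, huniq⟩ :=
    IH ((kerSh F f).push φ D hDc) t₀ hG _ (hS1.and hS2)
  have hκc : consCoord φ κ' x₀ = consCoord φ κ' x₀ := rfl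
  -- points of the closed box are good
  have hgoodbox : ∀ x ∈ cbox (consCoord φ κ') (consCoord φ κ' x₀) (-1) (Fin.cons R R'),
      ∀ᶠ y in 𝓝 x, Good y := by
    intro x hx
    rw [mem_cbox_cons] at hx
    refine (hsub' hx.2).1 x ⟨rfl, ?_⟩
    rw [hD, Metric.mem_closedBall, dist_eq_norm]
    exact hx.1
  refine ⟨n + 1, consCoord φ κ', Fin.cons ρ r', Fin.cons R R', ?_, ?_, ?_, ?_⟩
  · intro i
    refine Fin.cases ?_ (fun j => ?_) i
    · exact ⟨hρpos, hρR⟩
    · exact hr' j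
  · intro x hx
    exact (hgoodbox x hx).self_of_nhds.1
  · intro x hx
    exact (hgoodbox x hx).mono fun y hy => hy.2.1
  intro R'' hR'' s hs hs0
  have hR0 : ρ < R'' 0 ∧ R'' 0 ≤ R := hR'' 0
  have hRs : ∀ i : Fin n, r' i < R'' i.succ ∧ R'' i.succ ≤ R' i := fun i => hR'' i.succ
  have hR''pos : ∀ i, 0 < R'' i := by
    intro i
    refine Fin.cases ?_ (fun j => ?_) i
    · exact hρpos.trans hR0.1
    · exact (hr' j).1.trans (hRs j).1
  set Ω := box (consCoord φ κ') (consCoord φ κ' x₀) (-1) R'' with hΩ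
  have hΩo : IsOpen Ω :=
    C.isOpen_Box _ fun j => C.isOpen_ring (consCoord φ κ' x₀ j) ((-1 : Fin (n + 1) → ℝ) j) (R'' j)
  have hΩsub : Ω ⊆ cbox (consCoord φ κ') (consCoord φ κ' x₀) (-1) (Fin.cons R R') := by
    intro x hx i
    refine ⟨(hx i).1.le, (hx i).2.le.trans ?_⟩
    refine Fin.cases ?_ (fun j => ?_) i
    · exact hR0.2
    · exact (hRs j).2
  have hgoodΩ : ∀ x ∈ Ω, Good x := fun x hx => (hgoodbox x (hΩsub hx)).self_of_nhds
  have hkill : ∀ x ∈ Ω, om f x • s x = 0 :=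
    kills (consCoord φ κ') hR''pos (fun j x hx => (hgoodΩ x hx).2.2.2.1 j)
      (fun x hx => (hgoodΩ x hx).2.2.1) (fun x hx => (hgoodΩ x hx).2.2.2.2.1)
      (fun x hx => (hgoodΩ x hx).2.2.2.2.2) hs hs0
  -- the section of the torsion sheaf
  set s' : (x : V) → F.St x := fun x => if x ∈ Ω then s x else 0 with hs'
  have hs'N : ∀ x, s' x ∈ kerMul F f x := by
    intro x
    by_cases hx : x ∈ Ω
    · simp only [hs', if_pos hx]
      exact (mem_kerMul (hgoodΩ x hx).2.2.1).mpr (hkill x hx)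
    · simp only [hs', if_neg hx]
      exact Submodule.zero_mem _
  set σ : (x : V) → (kerSh F f).St x := fun x => (⟨s' x, hs'N x⟩ : kerMul F f x) with hσ
  set Ω' := box κ' (κ' t₀) (-1) (fun i => R'' i.succ) with hΩ'
  have hΩ'sub : ∀ t ∈ Ω', t ∈ cbox κ' (κ' t₀) (-1) R' := fun t ht i =>
    ⟨(ht i).1.le, (ht i).2.le.trans (hRs i).2⟩
  have hσon : ∀ t ∈ Ω', (kerSh F f).On σ (fib φ D t) := by
    intro t ht x hx
    have hF : F.At s' x := by
      by_cases hv : ‖(φ x).2 - c‖ < R'' 0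
      · have hxΩ : x ∈ Ω := by
          rw [hΩ, mem_box_cons]
          refine ⟨hv, ?_⟩
          rw [hx.1]
          exact ht
        refine F.congr (hs x hxΩ) ?_
        filter_upwards [hΩo.mem_nhds hxΩ] with y hy
        simp only [hs', if_pos hy]
      · have hxA : x ∈ fib φ (cring c ρ R) t := by
          refine ⟨hx.1, hR0.1.le.trans (not_lt.mp hv), ?_⟩
          have := hx.2
          rwa [hD, Metric.mem_closedBall, dist_eq_norm] at this
        have h1 := (hsub' (hΩ'sub t ht)).2 x hxA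
        have h2 : F.CohAt x := ((hsub' (hΩ'sub t ht)).1 x hx).self_of_nhds.2.1
        refine F.congr (F.zero x h2.1) ?_
        filter_upwards [h1] with y hy
        exact (kerSh_bot hy.1 hy.2 (hs'N y)).symm
    exact hF
  have hGon : ((kerSh F f).push φ D hDc).On ((kerSh F f).pushSec φ D hDc σ) Ω' := fun t ht =>
    (kerSh F f).pushSec_at φ D hDc (hσon t ht)
  have ht₀Ω : t₀ ∈ Ω' := by
    intro i
    simp only [ring, mem_ofPred_eq, sub_self, norm_zero, Pi.neg_apply, Pi.one_apply]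
    exact ⟨by norm_num, hR''pos i.succ⟩
  have hG0 : (kerSh F f).pushSec φ D hDc σ t₀ = 0 := by
    refine (kerSh F f).push_ext φ D hDc t₀ _ _ fun x hx => ?_
    rw [(kerSh F f).pushVal_pushSec φ D hDc (hσon t₀ ht₀Ω), (kerSh F f).pushVal_zero]
    apply Subtype.ext
    change s' x = 0
    by_cases hxc : (φ x).2 = c
    · have hxx : x = x₀ := φ.injective (Prod.ext hx.1 hxc)
      rw [hxx]
      simp only [hs']
      split_ifs
      · exact hs0
      · rfl
    · exact kerSh_bot (hfib x hx).self_of_nhds.2.2.1 (hfne x hx hxc) (hs'N x)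
  have hGz := huniq (fun i => R'' i.succ) hRs _ hGon hG0
  intro x hx
  have hx2 := hx
  rw [hΩ, mem_box_cons] at hx2
  have hxfib : x ∈ fib φ D (φ x).1 := by
    refine ⟨rfl, ?_⟩
    rw [hD, Metric.mem_closedBall, dist_eq_norm]
    exact hx2.1.le.trans hR0.2
  have h1 := (kerSh F f).pushVal_pushSec φ D hDc (hσon _ hx2.2) x hxfib
  rw [hGz _ hx2.2, (kerSh F f).pushVal_zero] at h1
  have h2 : s' x = 0 := congrArg (fun z : kerMul F f x => (z : F.St x)) h1.symm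
  simpa only [hs', if_pos hx] using h2

theorem snp_aux (k : ℕ) : ∀ (V : Type u) [NormedAddCommGroup V] [NormedSpace ℂ V]
    [FiniteDimensional ℂ V], Module.finrank ℂ V = k →
    ∀ (F : EMod.{u, u, max u w} (O V)) (x₀ : V), F.CohAt x₀ → ∀ W ∈ 𝓝 x₀, SNPR F x₀ W := by
  induction k with
  | zero =>
    intro V _ _ _ hk F x₀ hF W hW
    have hss : Subsingleton V := Module.finrank_zero_iff.mp hk
    have κ : V ≃L[ℂ] (Fin 0 → ℂ) := ContinuousLinearEquiv.ofFinrankEq (by simp [hk])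
    refine ⟨0, κ, fun i => i.elim0, fun i => i.elim0, fun i => i.elim0, ?_, ?_, ?_⟩
    · intro x _
      rw [Subsingleton.elim x x₀]
      exact mem_of_mem_nhds hW
    · intro x _
      refine Eventually.of_forall fun y => ?_
      rw [Subsingleton.elim y x₀]
      exact hF
    · intro R' _ s _ h0 x _
      rw [Subsingleton.elim x x₀]
      exact h0
  | succ k ih =>
    intro V _ _ _ hk F x₀ hF W hW
    have : Nontrivial V := Module.nontrivial_of_finrank_pos (R := ℂ) (by omega)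
    obtain ⟨q, b, f, hf, hfne, hb, hloc⟩ := exists_local hF
    obtain ⟨e₀, he₀, hdir⟩ := Pool.Agent.DQ.W.exists_dir_all (ι := Unit) (f := fun _ => f) (x := x₀)
      (fun _ => hf) (fun _ => hfne)
    obtain ⟨V', φ, hV', hφ⟩ := Pool.Agent.DQ.W.exists_coord he₀
    have hgood : ∀ᶠ y in 𝓝 x₀, y ∈ W ∧ F.CohAt y ∧ HolAt f y ∧ (∀ j, F.At (b j) y) ∧
        F.rel b y = ⊥ ∧
        ∀ m : F.St y, om f y • m ∈ Submodule.span ((O V).St y) (range fun j => b j y) := by
      filter_upwards [hW, hF.eventually (Eventually.of_forall fun y => oka_relAt y),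
        hf.eventually, eventually_all.mpr fun j => F.ev (hb j), hloc] with y a1 a2 a3 a4 a5
      exact ⟨a1, a2, a3, a4, a5⟩
    refine snp_step φ hgood ?_ (fun G t hG S hS => ih V' (by omega) G t hG S hS)
    -- the line in direction `e₀`
    have h1 : ∃ᶠ z in 𝓝 (0 : ℂ), f (x₀ + z • e₀) ≠ 0 := hdir ()
    have h2 : ∀ z : ℂ, φ.symm ((φ x₀).1, z + (φ x₀).2) = x₀ + z • e₀ := by
      intro z
      apply φ.injective
      rw [φ.apply_symm_apply, map_add, map_smul, hφ]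
      ext
      · simp
      · simp [add_comm]
    have h3 : Tendsto (fun z : ℂ => z + (φ x₀).2) (𝓝 0) (𝓝 (φ x₀).2) := by
      have : Continuous fun z : ℂ => z + (φ x₀).2 := by fun_prop
      simpa using this.tendsto 0
    refine h3.frequently (h1.mono fun z hz => ?_)
    rw [h2]
    exact hz

end S

section final

variable {V : Type u} [NormedAddCommGroup V] [NormedSpace ℂ V] [FiniteDimensional ℂ V]

/-- (SN') uniform neighbourhoods, all boxes between two boxes -/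
theorem snp_range (F : EMod.{u, u, w} (O V)) {x₀ : V} (hF : F.CohAt x₀) {W : Set V}
    (hW : W ∈ 𝓝 x₀) :
    ∃ (n : ℕ) (κ : V ≃L[ℂ] (Fin n → ℂ)) (r R : Fin n → ℝ), (∀ i, 0 < r i ∧ r i < R i) ∧
      cbox κ (κ x₀) (-1) R ⊆ W ∧ F.Coh (cbox κ (κ x₀) (-1) R) ∧
      ∀ R' : Fin n → ℝ, (∀ i, r i < R' i ∧ R' i ≤ R i) →
        ∀ s : (x : V) → F.St x, F.On s (box κ (κ x₀) (-1) R') → s x₀ = 0 →
          ∀ x ∈ box κ (κ x₀) (-1) R', s x = 0 := by
  have hev : ∀ᶠ y in 𝓝 x₀, y ∈ W ∧ F.Coh {y} := by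
    have h1 := hF.eventually (Eventually.of_forall fun y => oka_relAt y)
    filter_upwards [hW, eventually_eventually_nhds.mpr h1] with y a b
    exact ⟨a, fun z hz => by rw [mem_singleton_iff.mp hz]; exact b⟩
  obtain ⟨n, κ, r, R, h1, h2, -, h4⟩ := S.snp_aux.{u, w} _ V rfl (EMod.ulift.{u, u, w, u} F) x₀
    (EMod.ulift_cohAt hF) _ hev
  refine ⟨n, κ, r, R, h1, fun x hx => (h2 hx).1, fun x hx => (h2 hx).2 x rfl, ?_⟩
  intro R' hR' s hs h0 x hx
  have h5 := h4 R' hR' (fun y => ⟨s y⟩) hs (ULift.down_injective h0) x hx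
  exact congrArg ULift.down h5

/-- (SN') uniform neighbourhoods: sections over suitable arbitrarily small polydiscs are
determined by their germ at the centre -/
theorem snp (F : EMod.{u, u, w} (O V)) {x₀ : V} (hF : F.CohAt x₀) {W : Set V} (hW : W ∈ 𝓝 x₀) :
    ∃ (n : ℕ) (κ : V ≃L[ℂ] (Fin n → ℂ)) (R : Fin n → ℝ), (∀ i, 0 < R i) ∧
      cbox κ (κ x₀) (-1) R ⊆ W ∧ F.Coh (cbox κ (κ x₀) (-1) R) ∧
      ∀ s, F.On s (box κ (κ x₀) (-1) R) → s x₀ = 0 → ∀ x ∈ box κ (κ x₀) (-1) R, s x = 0 := by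
  obtain ⟨n, κ, r, R, h1, h2, h3, h4⟩ := snp_range F hF hW
  exact ⟨n, κ, R, fun i => (h1 i).1.trans (h1 i).2, h2, h3, h4 R fun i => ⟨(h1 i).2, le_rfl⟩⟩

/-- a germ of a function which is a nonzerodivisor on the stalk at the centre is a nonzerodivisor
on all stalks over a polydisc which only depends on the sheaf (and not on the function) -/
theorem snp_regular (F : EMod.{u, u, w} (O V)) {x₀ : V} (hF : F.CohAt x₀) :
    ∃ U : Set V, IsOpen U ∧ x₀ ∈ U ∧ ∀ f : V → ℂ, HolNear f U →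
      (∀ m : F.St x₀, om f x₀ • m = 0 → m = 0) →
      ∀ x ∈ U, ∀ m : F.St x, om f x • m = 0 → m = 0 := by
  obtain ⟨n, κ, r, R, h1, -, h3, h4⟩ := snp_range F hF univ_mem
  have hx₀ : ∀ R' : Fin n → ℝ, (∀ i, 0 < R' i) → x₀ ∈ box κ (κ x₀) (-1) R' := by
    intro R' hR' i
    simp only [ring, mem_ofPred_eq, sub_self, norm_zero, Pi.neg_apply, Pi.one_apply]
    exact ⟨by norm_num, hR' i⟩
  refine ⟨box κ (κ x₀) (-1) R,
    C.isOpen_Box κ fun j => C.isOpen_ring (κ x₀ j) ((-1 : Fin n → ℝ) j) (R j),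
    hx₀ R fun i => (h1 i).1.trans (h1 i).2, ?_⟩
  intro f hf hreg x hx
  set R' : Fin n → ℝ := fun i => (max (r i) ‖κ x i - κ x₀ i‖ + R i) / 2 with hR'
  have hlt : ∀ i, max (r i) ‖κ x i - κ x₀ i‖ < R i := fun i => max_lt (h1 i).2 (hx i).2
  have hR'1 : ∀ i, max (r i) ‖κ x i - κ x₀ i‖ < R' i ∧ R' i < R i := by
    intro i
    have := hlt i
    constructor <;> simp only [hR'] <;> linarith
  have hr' : ∀ i, r i < R' i := fun i => (le_max_left _ _).trans_lt (hR'1 i).1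
  have hsub : cbox κ (κ x₀) (-1) R' ⊆ box κ (κ x₀) (-1) R := by
    intro y hy i
    refine ⟨?_, (hy i).2.trans_lt (hR'1 i).2⟩
    simp only [Pi.neg_apply, Pi.one_apply]
    linarith [norm_nonneg (κ y i - κ x₀ i)]
  have hxR' : x ∈ box κ (κ x₀) (-1) R' := fun i =>
    ⟨(hx i).1, (le_max_right _ _).trans_lt (hR'1 i).1⟩
  have hbc : box κ (κ x₀) (-1) R' ⊆ cbox κ (κ x₀) (-1) R' := C.box_subset_cbox κ _ _ _
  have hNcoh : (S.kerSh F f).Coh (cbox κ (κ x₀) (-1) R') := by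
    intro y hy
    have h5 := h3 y (C.box_subset_cbox κ _ _ _ (hsub hy))
    filter_upwards [h5, (hf y (hsub hy)).eventually] with z h6 h7
    exact S.kerSh_cohAt h6 h7
  obtain ⟨p, g, hg, hgen⟩ := cartanA κ (κ x₀) (-1) R' (S.kerSh F f) hNcoh
  have hgF : ∀ i, F.On (fun y => ((show S.kerMul F f y from g i y) : F.St y))
      (box κ (κ x₀) (-1) R') := fun i y hy => hg i y (hbc hy)
  have hx₀' : x₀ ∈ box κ (κ x₀) (-1) R' := hx₀ R' fun i => (h1 i).1.trans (hr' i)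
  have hg0 : ∀ i, ((show S.kerMul F f x₀ from g i x₀) : F.St x₀) = 0 := by
    intro i
    exact hreg _ ((S.mem_kerMul (hf x₀ (hsub (hbc hx₀')))).mp (Subtype.property
      (p := fun m => m ∈ S.kerMul F f x₀) (g i x₀)))
  have hgz : ∀ i, ((show S.kerMul F f x from g i x) : F.St x) = 0 := fun i =>
    h4 R' (fun i => ⟨hr' i, (hR'1 i).2.le⟩) _ (hgF i) (hg0 i) x hxR'
  intro m hm
  have hmN : m ∈ S.kerMul F f x := (S.mem_kerMul (hf x hx)).mpr hm
  have h5 : (show (S.kerSh F f).St x from (⟨m, hmN⟩ : S.kerMul F f x)) ∈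
      Submodule.span ((O V).St x) (range fun i => g i x) := by
    rw [hgen x (hbc hxR')]
    trivial
  obtain ⟨c, hc⟩ := mem_span_fam.mp h5
  have h6 : ∀ i, g i x = 0 := fun i => Subtype.ext (hgz i)
  simp only [h6, smul_zero, Finset.sum_const_zero] at hc
  exact congrArg (fun z : S.kerMul F f x => (z : F.St x)) hc

end final

end Pool.Agent.DQ
end

section

/-! The properties of the sheaf of holomorphic functions used for deformations. -/

set_option autoImplicit false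

open Set Filter Topology

universe u v w

namespace Pool.Agent.DQ

section boxes

variable {V : Type u} [NormedAddCommGroup V] [NormedSpace ℂ V] {n : ℕ}

theorem isOpen_ring (c : ℂ) (r R : ℝ) : IsOpen (ring c r R) :=
  (isOpen_lt continuous_const (continuous_id.sub continuous_const).norm).inter
    (isOpen_lt (continuous_id.sub continuous_const).norm continuous_const)

theorem isOpen_box (κ : V ≃L[ℂ] (Fin n → ℂ)) (c : Fin n → ℂ) (r R : Fin n → ℝ) :
    IsOpen (box κ c r R) := by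
  have : box κ c r R = ⋂ i, (fun x => κ x i) ⁻¹' ring (c i) (r i) (R i) := by
    ext x
    simp [box]
  rw [this]
  exact isOpen_iInter_of_finite fun i =>
    (isOpen_ring _ _ _).preimage ((continuous_apply i).comp κ.continuous)

theorem box_subset_cbox (κ : V ≃L[ℂ] (Fin n → ℂ)) (c : Fin n → ℂ) (r R : Fin n → ℝ) :
    box κ c r R ⊆ cbox κ c r R := fun _ hx i => ⟨(hx i).1.le, (hx i).2.le⟩

theorem center_mem_box (κ : V ≃L[ℂ] (Fin n → ℂ)) (x : V) {r R : Fin n → ℝ} (hr : ∀ i, r i < 0)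
    (hR : ∀ i, 0 < R i) : x ∈ box κ (κ x) r R := by
  intro i
  constructor
  · simpa using hr i
  · simpa using hR i

/-- arbitrarily small closed boxes around a point -/
theorem exists_cbox_subset (κ : V ≃L[ℂ] (Fin n → ℂ)) (x : V) {W : Set V} (hW : W ∈ 𝓝 x) :
    ∃ ε : ℝ, 0 < ε ∧ cbox κ (κ x) (fun _ => -1) (fun _ => ε) ⊆ W := by
  have h1 : κ.symm ⁻¹' W ∈ 𝓝 (κ x) := by
    apply κ.symm.continuous.continuousAt.preimage_mem_nhds
    simpa using hW
  obtain ⟨ε, hε, h⟩ := Metric.nhds_basis_closedBall.mem_iff.mp h1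
  refine ⟨ε, hε, fun y hy => ?_⟩
  have h2 : κ y ∈ Metric.closedBall (κ x) ε := by
    rw [mem_closedBall_iff_norm, pi_norm_le_iff_of_nonneg hε.le]
    intro i
    exact (hy i).2
  have h3 := h h2
  simpa using h3

end boxes

/-- `om` of functions holomorphic near the points of a set are sections -/
theorem at_om {V : Type u} [NormedAddCommGroup V] [NormedSpace ℂ V] {f : V → ℂ} {x : V}
    (hf : HolAt f x) : (O V).At (om f) x :=
  ⟨f, hf, Eventually.of_forall fun _ => rfl⟩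

variable {V : Type u} [NormedAddCommGroup V] [NormedSpace ℂ V] [FiniteDimensional ℂ V]

theorem O_relAt (x : V) : (O V).RelAt x := by
  intro q n f hf
  exact ((oka (V := V) q x (mem_univ x)).self_of_nhds).relFG f hf

theorem O_free_cohAt (q : ℕ) (x : V) : ((O V).free q).CohAt x :=
  (oka (V := V) q x (mem_univ x)).self_of_nhds

/-- Cartan B combined with the noetherian property, for coherent sheaves: there are arbitrarily
small open boxes `U` around `x` such that every section over `U` whose germ at `x` is a combination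
of the `f i`, is a combination of the `f i` over `U`. -/
theorem exists_div (M : EMod.{u, u, w} (O V)) {x : V} (hM : M.CohAt x) {n : ℕ}
    (f : Fin n → (y : V) → M.St y) (hf : ∀ i, M.At (f i) x) {W : Set V} (hW : W ∈ 𝓝 x) :
    ∃ (k : ℕ) (κ : V ≃L[ℂ] (Fin k → ℂ)) (R : Fin k → ℝ), (∀ i, 0 < R i) ∧
      cbox κ (κ x) (-1) R ⊆ W ∧ (∀ i, M.On (f i) (cbox κ (κ x) (-1) R)) ∧
      ∀ s, M.On s (box κ (κ x) (-1) R) →
        s x ∈ Submodule.span ((O V).St x) (Set.range fun i => f i x) →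
        ∃ c : Fin n → V → ℂ, (∀ i, HolNear (c i) (box κ (κ x) (-1) R)) ∧
          ∀ y ∈ box κ (κ x) (-1) R, s y = ∑ i, om (c i) y • f i y := by
  have hW0 : {y | M.CohAt y ∧ ∀ i, M.At (f i) y} ∈ 𝓝 x :=
    (hM.eventually (Eventually.of_forall O_relAt)).and (eventually_all.mpr fun i => M.ev (hf i))
  have hcoh : (M.quot (M.spn f) (M.spn_open f)).CohAt x :=
    M.quot_cohAt _ _ (O_relAt x) hM f hf (M.spn_near f hf)
  obtain ⟨k, κ, R, hR, hsub, hK, huniq⟩ := snp _ hcoh (Filter.inter_mem hW hW0)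
  refine ⟨k, κ, R, hR, hsub.trans inter_subset_left, fun i y hy => (hsub hy).2.2 i, ?_⟩
  intro s hs hsx
  -- the image of `s` in the quotient vanishes over the box
  have h0 := huniq (fun y => (M.spn f y).mkQ (s y))
    (fun y hy => ⟨s, hs y hy, Eventually.of_forall fun _ => rfl⟩) (by
      change (M.spn f x).mkQ (s x) = 0
      rw [Submodule.mkQ_apply, Submodule.Quotient.mk_eq_zero, M.spn_eq f hf]
      exact hsx)
  have hmem : ∀ y ∈ box κ (κ x) (-1) R, s y ∈ M.spn f y := by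
    intro y hy
    have h1 : (M.spn f y).mkQ (s y) = 0 := h0 y hy
    rwa [Submodule.mkQ_apply, Submodule.Quotient.mk_eq_zero] at h1
  -- Cartan B for the span of the `f i`
  have hnear : ∀ y ∈ cbox κ (κ x) (-1) R, ∀ᶠ z in 𝓝 y, M.spn f z =
      Submodule.span ((O V).St z) (range fun i => f i z) :=
    fun y hy => M.spn_near f (hsub hy).2.2
  have hNcoh : (M.sub (M.spn f) (M.spn_open f)).Coh (cbox κ (κ x) (-1) R) := by
    intro y hy
    have h2 := (hsub hy).2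
    filter_upwards [h2.1.eventually (Eventually.of_forall O_relAt),
      eventually_all.mpr fun i => M.ev (h2.2 i)] with z z1 z2
    exact M.sub_cohAt _ _ z1 f z2 (M.spn_near f z2)
  obtain ⟨a, ha, hsa⟩ := cartanB_open κ (κ x) (-1) R
    (fun i => ⟨by simp, by simpa using (by linarith [hR i] : (-1 : ℝ) < R i), hR i⟩) _ hNcoh
    (fun i => M.toSub (M.spn f) (f i))
    (fun i y hy => M.toSub_at _ _ ((hsub hy).2.2 i) (by
      filter_upwards [hnear y hy] with z hz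
      rw [hz]
      exact Submodule.subset_span ⟨i, rfl⟩))
    (fun y hy => span_toSub M _ f (hnear y hy).self_of_nhds)
    (M.toSub (M.spn f) s) (fun y hy => M.toSub_at _ _ (hs y hy) (by
      filter_upwards [(isOpen_box κ (κ x) (-1) R).mem_nhds hy] with z hz
      exact hmem z hz))
  refine ⟨a, ha, fun y hy => ?_⟩
  have h1 : M.toSub (M.spn f) s y = ∑ i, om (a i) y • M.toSub (M.spn f) (f i) y := hsa y hy
  have h2 := congrArg (Subtype.val) h1
  rw [AddSubmonoidClass.coe_finsetSum, M.coe_toSub _ _ (hmem y hy)] at h2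
  refine h2.trans (Finset.sum_congr rfl fun i _ => ?_)
  rw [Submodule.coe_smul, M.coe_toSub]
  rw [(hnear y (box_subset_cbox _ _ _ _ hy)).self_of_nhds]
  exact Submodule.subset_span ⟨i, rfl⟩

theorem divNear (x : V) : DivNear V x := by
  intro q n f hf W hW
  obtain ⟨k, κ, R, hR, hsub, hon, h⟩ := exists_div ((O V).free q) (O_free_cohAt q x) f hf hW
  refine ⟨box κ (κ x) (-1) R, (box_subset_cbox _ _ _ _).trans hsub, isOpen_box _ _ _ _,
    center_mem_box κ x (fun i => by simp) hR,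
    fun i y hy => hon i y (box_subset_cbox _ _ _ _ hy), ?_⟩
  intro s hs hsx
  obtain ⟨c, hc, hcs⟩ := h s hs hsx
  exact ⟨fun i => om (c i), fun i y hy => at_om (hc i y hy), hcs⟩

/-- Cartan A for relation sheaves near closed boxes -/
theorem relGen_cbox {k : ℕ} (κ : V ≃L[ℂ] (Fin k → ℂ)) (c : Fin k → ℂ) (r R : Fin k → ℝ) :
    RelGen (cbox κ c r R) := by
  intro q n f hf
  set M := (O V).free q with hM
  set L := (O V).free n with hL
  set N := L.sub (M.relSub f) (M.relSub_open f) with hN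
  have hcoh : N.Coh (cbox κ c r R) := by
    intro y hy
    have hfy : ∀ i, M.At (f i) y := fun i => hf i y hy
    filter_upwards [eventually_all.mpr fun i => M.ev (hfy i)] with z hz
    obtain ⟨m, ρ, hρ, hrel⟩ := O_relAt z q n f hz
    refine L.sub_cohAt _ _ (O_free_cohAt n z) (fun k y i => ρ k i y)
      (fun k => ⟨mem_univ _, fun i => hρ k i⟩) ?_
    filter_upwards [hrel, M.relSub_near f (mem_univ z) hz] with w w1 w2
    rw [w2]
    exact w1
  obtain ⟨p, g, hg, hgen⟩ := cartanA κ c r R N hcoh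
  let g' : Fin p → (y : V) → M.relSub f y := g
  refine ⟨p, fun k y => (g' k y : Fin n → (O V).St y), fun k y hy => hg k y hy, ?_⟩
  intro y hy
  have hfy : ∀ i, M.At (f i) y := fun i => hf i y hy
  rw [← M.relSub_eq f (mem_univ y) hfy]
  have h1 : Submodule.span ((O V).St y) (Set.range fun k => g' k y) = ⊤ := hgen y hy
  apply le_antisymm
  · intro m hm
    have h2 : (⟨m, hm⟩ : M.relSub f y) ∈ Submodule.span ((O V).St y)
        (Set.range fun k => g' k y) := by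
      rw [h1]
      exact Submodule.mem_top
    obtain ⟨e, he⟩ := mem_span_fam.mp h2
    have h3 := congrArg Subtype.val he
    rw [AddSubmonoidClass.coe_finsetSum] at h3
    exact mem_span_fam.mpr ⟨e, h3⟩
  · rw [Submodule.span_le]
    rintro _ ⟨k, rfl⟩
    exact (g' k y).2

theorem oBase : OBase V where
  noeth := OGerm.isNoetherianRing
  div := divNear
  rel := by
    intro x W hW
    let n := Module.finrank ℂ V
    let κ : V ≃L[ℂ] (Fin n → ℂ) := ContinuousLinearEquiv.ofFinrankEq (by simp [n])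
    obtain ⟨ε, hε, h⟩ := exists_cbox_subset κ x hW
    refine ⟨_, ?_, h, relGen_cbox κ _ _ _⟩
    exact Filter.mem_of_superset ((isOpen_box κ (κ x) (fun _ => -1) (fun _ => ε)).mem_nhds
      (center_mem_box κ x (fun _ => by norm_num) (fun _ => hε))) (box_subset_cbox _ _ _ _)

variable (𝓐 : Defo.{u, v} V)

theorem Defo.isNoetherian {x : V} (hx : x ∈ 𝓐.A.dom) : IsNoetherianRing (𝓐.A.St x) :=
  𝓐.noetherian hx (divNear x) (OGerm.isNoetherianRing x)

/-- Oka's theorem for a deformation -/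
theorem Defo.oka (n : ℕ) : (𝓐.A.free n).Coh 𝓐.A.dom := 𝓐.oka_of_base oBase n

theorem Defo.relAt {x : V} (hx : x ∈ 𝓐.A.dom) : 𝓐.A.RelAt x := by
  intro q n f hf
  exact ((𝓐.oka q x hx).self_of_nhds).relFG f hf

theorem Defo.coh_of_lfp (F : EMod.{u, v, w} 𝓐.A) {x : V} (hx : x ∈ F.dom) {p q : ℕ}
    (g : Fin p → (y : V) → F.St y) (ρ : Fin q → Fin p → (y : V) → 𝓐.A.St y)
    (hg : ∀ i, F.At (g i) x) (hρ : ∀ j i, 𝓐.A.At (ρ j i) x)
    (hgen : ∀ᶠ y in 𝓝 x, Submodule.span (𝓐.A.St y) (range fun i => g i y) = ⊤)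
    (hrel : ∀ᶠ y in 𝓝 x,
      F.rel g y = Submodule.span (𝓐.A.St y) (range fun j => fun i => ρ j i y)) :
    F.CohAt x :=
  F.cohAt_of_lfp hx (𝓐.relAt (F.dom_sub hx)) g ρ hg hρ hgen hrel

end Pool.Agent.DQ
end

section

/-! Module M12, blocks (d), (e), part 2: coefficients of sections with respect to frames, and the
map `Lam` from sections of `M₀` to vectors of functions on the base. -/

set_option autoImplicit false
set_option linter.unusedSectionVars false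

open Set Filter Topology Matrix

universe u v w

namespace Pool.Agent.DQ.M12

section

variable {V : Type} [NormedAddCommGroup V] [NormedSpace ℂ V] {k d n m : ℕ}
  {M₀ : EMod.{0, 0, w} (O V)} {e : V ≃L[ℂ] Bs k × (Fin d → ℂ)} {D : Set (Fin d → ℂ)}

/-- over `T` the section `y` has the coefficients `c` -/
structure Co (M₀ : EMod.{0, 0, w} (O V)) (e : V ≃L[ℂ] Bs k × (Fin d → ℂ)) (D : Set (Fin d → ℂ))
    (f : Fin n → (x : V) → M₀.St x) (T : Set (Bs k)) (y : (x : V) → M₀.St x)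
    (c : Bs k → Fin n → ℂ) : Prop where
  isOpen : IsOpen T
  hol : VHol c T
  eq : ∀ b ∈ T, ∀ x ∈ fib e D b, y x = comb e f c x

variable {f : Fin n → (x : V) → M₀.St x} {S : Set (Bs k)}

theorem Co.mono {T T' : Set (Bs k)} {y : (x : V) → M₀.St x} {c : Bs k → Fin n → ℂ}
    (h : Co M₀ e D f T y c) (hT : T' ⊆ T) (ho : IsOpen T') : Co M₀ e D f T' y c :=
  ⟨ho, fun b hb => h.hol b (hT hb), fun b hb => h.eq b (hT hb)⟩

/-- coefficients are unique -/
theorem Co.uniq {T T' : Set (Bs k)} {y : (x : V) → M₀.St x} {c c' : Bs k → Fin n → ℂ}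
    (hF : Fr M₀ e D f S) (h : Co M₀ e D f T y c) (h' : Co M₀ e D f T' y c') (hT : T ⊆ S) :
    ∀ b ∈ T ∩ T', c b = c' b := by
  have h1 := hF.uniq (T ∩ T') (inter_subset_left.trans hT) (h.isOpen.inter h'.isOpen)
    (fun b => c b + -c' b) (fun b hb => (h.hol b hb.1).add (h'.hol b hb.2).neg) (by
      intro b hb x hx
      have hxb : (e x).1 = b := hx.1
      have e1 := h.hol b hb.1
      have e2 := h'.hol b hb.2
      rw [← hxb] at e1 e2
      rw [comb_add e1 e2.neg, comb_neg e2, ← h.eq b hb.1 x hx, ← h'.eq b hb.2 x hx,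
        add_neg_cancel])
  intro b hb
  have := h1 b hb
  exact eq_of_sub_eq_zero (by rw [sub_eq_add_neg]; exact this)

theorem Co.add {T : Set (Bs k)} {y y' : (x : V) → M₀.St x} {c c' : Bs k → Fin n → ℂ}
    (h : Co M₀ e D f T y c) (h' : Co M₀ e D f T y' c') :
    Co M₀ e D f T (fun x => y x + y' x) fun b => c b + c' b := by
  refine ⟨h.isOpen, fun b hb => (h.hol b hb).add (h'.hol b hb), fun b hb x hx => ?_⟩
  have hxb : (e x).1 = b := hx.1
  have e1 := h.hol b hb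
  have e2 := h'.hol b hb
  rw [← hxb] at e1 e2
  rw [comb_add e1 e2, h.eq b hb x hx, h'.eq b hb x hx]

theorem Co.smul {T : Set (Bs k)} {y : (x : V) → M₀.St x} {c : Bs k → Fin n → ℂ}
    (h : Co M₀ e D f T y c) {φ : Bs k → ℂ} (hφ : HolNear φ T) :
    Co M₀ e D f T (fun x => om (fun x => φ (e x).1) x • y x) fun b => φ b • c b := by
  refine ⟨h.isOpen, fun b hb => (h.hol b hb).smul (hφ b hb), fun b hb x hx => ?_⟩
  have hxb : (e x).1 = b := hx.1
  have e1 := h.hol b hb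
  have e2 := hφ b hb
  rw [← hxb] at e1 e2
  rw [comb_smul e2 e1, h.eq b hb x hx]

/-- change of frames -/
theorem Co.trans {f' : Fin m → (x : V) → M₀.St x} {T : Set (Bs k)} {y : (x : V) → M₀.St x}
    {c : Bs k → Fin m → ℂ} (h : Co M₀ e D f' T y c) {g : Bs k → Matrix (Fin n) (Fin m) ℂ}
    (hg : ∀ b ∈ T, MHolAt g b)
    (ht : ∀ b ∈ T, ∀ x ∈ fib e D b, ∀ j, f' j x = comb e f (fun y i => g y i j) x) :
    Co M₀ e D f T y fun b => g b *ᵥ c b := by
  refine ⟨h.isOpen, fun b hb => (hg b hb).mulVec (h.hol b hb), fun b hb x hx => ?_⟩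
  have hxb : (e x).1 = b := hx.1
  have e1 := h.hol b hb
  have e2 := hg b hb
  rw [← hxb] at e1 e2
  rw [h.eq b hb x hx]
  exact comb_mulVec e2 e1 (ht b hb x hx)

open Classical in
/-- the value at `b` of the coefficients of `y` -/
noncomputable def co (M₀ : EMod.{0, 0, w} (O V)) (e : V ≃L[ℂ] Bs k × (Fin d → ℂ))
    (D : Set (Fin d → ℂ)) (f : Fin n → (x : V) → M₀.St x) (S : Set (Bs k))
    (y : (x : V) → M₀.St x) (b : Bs k) : Fin n → ℂ :=
  if h : ∃ v, ∃ T ⊆ S, b ∈ T ∧ ∃ c, Co M₀ e D f T y c ∧ c b = v then h.choose else 0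

theorem Co.co_eq {T : Set (Bs k)} {y : (x : V) → M₀.St x} {c : Bs k → Fin n → ℂ}
    (h : Co M₀ e D f T y c) (hF : Fr M₀ e D f S) (hT : T ⊆ S) {b : Bs k} (hb : b ∈ T) :
    co M₀ e D f S y b = c b := by
  have h1 : ∃ v, ∃ T ⊆ S, b ∈ T ∧ ∃ c, Co M₀ e D f T y c ∧ c b = v := ⟨c b, T, hT, hb, c, h, rfl⟩
  have h2 : co M₀ e D f S y b = h1.choose := dif_pos h1
  rw [h2]
  obtain ⟨T', hT', hb', c', hc', hcv⟩ := h1.choose_spec
  rw [← hcv]
  exact Co.uniq hF hc' h hT' b ⟨hb', hb⟩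

end

/-! ### The map `Lam` -/

section Lam

variable {V : Type} [NormedAddCommGroup V] [NormedSpace ℂ V] {k d n m : ℕ}
  {M₀ : EMod.{0, 0, w} (O V)} {e : V ≃L[ℂ] Bs k × (Fin d → ℂ)} {c₀ : Bs k × (Fin d → ℂ)} {Rv : ℝ}
  {T : Set (Fin k → ℂ)} {ρ : Rd} {f f' : Fin n → (x : V) → M₀.St x}
  {g : Bs k → Matrix (Fin n) (Fin n) ℂ} {L₁ L₂ : Bs k → Matrix (Fin m) (Fin n) ℂ}

open Classical in
/-- the vector of functions on the base given by the section `y` of `M₀` -/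
noncomputable def lam (M₀ : EMod.{0, 0, w} (O V)) (e : V ≃L[ℂ] Bs k × (Fin d → ℂ))
    (c₀ : Bs k × (Fin d → ℂ)) (Rv : ℝ) (T : Set (Fin k → ℂ)) (ρ : Rd)
    (f f' : Fin n → (x : V) → M₀.St x) (L₁ L₂ : Bs k → Matrix (Fin m) (Fin n) ℂ)
    (y : (x : V) → M₀.St x) (b : Bs k) : Fin m → ℂ :=
  if b ∈ B2 c₀.1 ρ T then L₁ b *ᵥ co M₀ e (Metric.closedBall c₀.2 Rv) f (B2 c₀.1 ρ T) y b
  else L₂ b *ᵥ co M₀ e (Metric.closedBall c₀.2 Rv) f' (B1 c₀.1 ρ T) y b

theorem lam_two (hF : SF M₀ e c₀ Rv T ρ f f' g) {T' : Set (Bs k)} (hT' : T' ⊆ B2 c₀.1 ρ T)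
    {y : (x : V) → M₀.St x} {c : Bs k → Fin n → ℂ}
    (h : Co M₀ e (Metric.closedBall c₀.2 Rv) f T' y c) {b : Bs k} (hb : b ∈ T') :
    lam M₀ e c₀ Rv T ρ f f' L₁ L₂ y b = L₁ b *ᵥ c b := by
  rw [lam, if_pos (hT' hb), h.co_eq hF.fr2 hT' hb]

theorem lam_one (hF : SF M₀ e c₀ Rv T ρ f f' g)
    (hL : ∀ b ∈ B12 c₀.1 ρ T, L₂ b = L₁ b * g b) {T' : Set (Bs k)} (hT' : T' ⊆ B1 c₀.1 ρ T)
    {y : (x : V) → M₀.St x} {c : Bs k → Fin n → ℂ}
    (h : Co M₀ e (Metric.closedBall c₀.2 Rv) f' T' y c) {b : Bs k} (hb : b ∈ T') :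
    lam M₀ e c₀ Rv T ρ f f' L₁ L₂ y b = L₂ b *ᵥ c b := by
  by_cases hb2 : b ∈ B2 c₀.1 ρ T
  · have hsub : T' ∩ B2 c₀.1 ρ T ⊆ B12 c₀.1 ρ T := by
      rw [B12_eq]
      exact inter_subset_inter_left _ hT'
    have h1 : Co M₀ e (Metric.closedBall c₀.2 Rv) f (T' ∩ B2 c₀.1 ρ T) y fun b => g b *ᵥ c b :=
      (h.mono inter_subset_left (h.isOpen.inter hF.fr2.isOpen)).trans
        (fun b hb => mHol_iff.mp hF.g_hol b (hsub hb)) fun b hb => hF.trans b (hsub hb)
    rw [lam_two hF inter_subset_right h1 ⟨hb, hb2⟩, hL b (hsub ⟨hb, hb2⟩), Matrix.mulVec_mulVec]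
  · rw [lam, if_neg hb2, h.co_eq hF.fr1 hT' hb]

end Lam

end Pool.Agent.DQ.M12
end

section

/-! Module M12, blocks (d), (e), part 3: from the frames over the shell and the matrices of the
extension theorem to `LamData`. -/

set_option autoImplicit false
set_option linter.unusedSectionVars false

open Set Filter Topology Matrix

universe u v w

namespace Pool.Agent.DQ.M12

section

variable {V : Type} [NormedAddCommGroup V] [NormedSpace ℂ V] [FiniteDimensional ℂ V] {k d n m : ℕ}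
  {M₀ : EMod.{0, 0, w} (O V)} {σ : Sit V k d} {T T₀ : Set (Fin k → ℂ)} {ρ ρ' : Rd}
  {f f' : Fin n → (x : V) → M₀.St x} {g : Bs k → Matrix (Fin n) (Fin n) ℂ}

theorem mem_bx_iff {r₁ R₁ r₂ R₂ : ℝ} {b : Bs k} :
    b ∈ σ.bx T₀ r₁ R₁ r₂ R₂ ↔ b ∈ rg (σ.e σ.y₀).1 T₀ (ring 0 r₁ R₁) (ring 0 r₂ R₂) := by
  simp only [Sit.bx, rg, ring, mem_prod, mem_ofPred_eq, sub_zero, Sit.bw, Sit.bz]

theorem shell_eq : shell σ T₀ ρ.rw ρ.Rw ρ.rz ρ.Rz =
    B1 (σ.e σ.y₀).1 ρ T₀ ∪ B2 (σ.e σ.y₀).1 ρ T₀ := by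
  ext b
  rw [shell, mem_union, mem_union, mem_bx_iff, mem_bx_iff]
  rfl

theorem B1_in (h : ρ'.In ρ) (hT : T₀ ⊆ T) (b₀ : Bs k) : B1 b₀ ρ' T₀ ⊆ B1 b₀ ρ T :=
  rg_mono hT (ring_mono h.rw.le h.Rw.le) (ring_mono le_rfl h.Rz.le)

theorem B2_in (h : ρ'.In ρ) (hT : T₀ ⊆ T) (b₀ : Bs k) : B2 b₀ ρ' T₀ ⊆ B2 b₀ ρ T :=
  rg_mono hT (ring_mono le_rfl h.Rw.le) (ring_mono h.rz.le h.Rz.le)

/-- sections over `reg S` are sections near the fibres over `S` -/
theorem on_fib (hF : SF M₀ σ.e (σ.e σ.y₀) σ.Rv T ρ f f' g) {S : Set (Bs k)}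
    (hS : S ⊆ B1 (σ.e σ.y₀).1 ρ T ∪ B2 (σ.e σ.y₀).1 ρ T) {y : (x : V) → M₀.St x}
    (hy : M₀.On y (σ.reg S)) :
    ∀ b ∈ S, M₀.On y (fib σ.e (Metric.closedBall (σ.e σ.y₀).2 σ.Rv) b) := by
  intro b hb x hx
  have h1 : ‖(σ.e x).2 - (σ.e σ.y₀).2‖ ≤ σ.Rv := by
    have := hx.2
    rwa [Metric.mem_closedBall, dist_eq_norm] at this
  rcases h1.lt_or_eq with h2 | h2
  · exact hy x ⟨by rw [hx.1]; exact hb, h2⟩
  · exact at_of_zero ((hF.coh b (hS hb) x hx).self_of_nhds) (hF.bd b (hS hb) x hx h2) y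

theorem eq_fib (hF : SF M₀ σ.e (σ.e σ.y₀) σ.Rv T ρ f f' g) {S : Set (Bs k)}
    (hS : S ⊆ B1 (σ.e σ.y₀).1 ρ T ∪ B2 (σ.e σ.y₀).1 ρ T) {y y' : (x : V) → M₀.St x}
    (hy : ∀ x ∈ σ.reg S, y x = y' x) :
    ∀ b ∈ S, ∀ x ∈ fib σ.e (Metric.closedBall (σ.e σ.y₀).2 σ.Rv) b, y x = y' x := by
  intro b hb x hx
  have h1 : ‖(σ.e x).2 - (σ.e σ.y₀).2‖ ≤ σ.Rv := by
    have := hx.2
    rwa [Metric.mem_closedBall, dist_eq_norm] at this
  rcases h1.lt_or_eq with h2 | h2
  · exact hy x ⟨by rw [hx.1]; exact hb, h2⟩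
  · have := hF.bd b (hS hb) x hx h2
    exact Subsingleton.elim _ _

theorem reg_mem_fib {S : Set (Bs k)} {x : V} (hx : x ∈ σ.reg S) :
    x ∈ fib σ.e (Metric.closedBall (σ.e σ.y₀).2 σ.Rv) (σ.e x).1 := by
  refine ⟨rfl, ?_⟩
  rw [Metric.mem_closedBall, dist_eq_norm]
  exact hx.2.le

theorem isOpen_reg {S : Set (Bs k)} (hS : IsOpen S) : IsOpen (σ.reg S) := by
  have h1 : Continuous fun x : V => (σ.e x).1 := continuous_fst.comp σ.e.continuous
  have h2 : Continuous fun x : V => ‖σ.v x‖ :=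
    ((continuous_snd.comp σ.e.continuous).sub continuous_const).norm
  exact (hS.preimage h1).inter (isOpen_lt h2 continuous_const)

/-- coefficients of a section over `S ∩ B2` -/
theorem exists_co2 (hF : SF M₀ σ.e (σ.e σ.y₀) σ.Rv T ρ f f' g) {S : Set (Bs k)}
    (hS : S ⊆ B1 (σ.e σ.y₀).1 ρ T ∪ B2 (σ.e σ.y₀).1 ρ T) (hSo : IsOpen S)
    {y : (x : V) → M₀.St x} (hy : M₀.On y (σ.reg S)) :
    ∃ c, Co M₀ σ.e (Metric.closedBall (σ.e σ.y₀).2 σ.Rv) f (S ∩ B2 (σ.e σ.y₀).1 ρ T) y c := by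
  obtain ⟨c, hc, hc'⟩ := hF.fr2.gen (S ∩ B2 (σ.e σ.y₀).1 ρ T) inter_subset_right
    (hSo.inter hF.fr2.isOpen) y fun b hb => on_fib hF hS hy b hb.1
  exact ⟨c, hSo.inter hF.fr2.isOpen, hc, hc'⟩

/-- coefficients of a section over `S ∩ B1` -/
theorem exists_co1 (hF : SF M₀ σ.e (σ.e σ.y₀) σ.Rv T ρ f f' g) {S : Set (Bs k)}
    (hS : S ⊆ B1 (σ.e σ.y₀).1 ρ T ∪ B2 (σ.e σ.y₀).1 ρ T) (hSo : IsOpen S)
    {y : (x : V) → M₀.St x} (hy : M₀.On y (σ.reg S)) :
    ∃ c, Co M₀ σ.e (Metric.closedBall (σ.e σ.y₀).2 σ.Rv) f' (S ∩ B1 (σ.e σ.y₀).1 ρ T) y c := by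
  obtain ⟨c, hc, hc'⟩ := hF.fr1.gen (S ∩ B1 (σ.e σ.y₀).1 ρ T) inter_subset_right
    (hSo.inter hF.fr1.isOpen) y fun b hb => on_fib hF hS hy b hb.1
  exact ⟨c, hSo.inter hF.fr1.isOpen, hc, hc'⟩

/-- **Blocks (d), (e)**: frames over the shell and the matrices of the extension theorem give
`LamData`. -/
theorem exists_lam (hF : SF M₀ σ.e (σ.e σ.y₀) σ.Rv T ρ f f' g)
    {U V' : Bs k → Matrix (Fin n) (Fin m) ℂ} {L₁ L₂ : Bs k → Matrix (Fin m) (Fin n) ℂ}
    {P : Bs k → Matrix (Fin m) (Fin m) ℂ} (hX : SX (σ.e σ.y₀).1 T ρ g U L₁ V' L₂ P)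
    (hρ : ρ'.In ρ) (hT₀ : IsOpen T₀) {t₀ : Fin k → ℂ} {τ : ℝ} (hτ : 0 ≤ τ)
    (hT₀τ : T₀ ⊆ Metric.closedBall t₀ τ) (hτT : Metric.closedBall t₀ τ ⊆ T) :
    ∃ (N N' : ℕ) (Q : Bs k → Matrix (Fin N) (Fin m) ℂ) (Q' : Bs k → Matrix (Fin N') (Fin N) ℂ)
      (Lam : ((x : V) → M₀.St x) → Bs k → Fin m → ℂ),
      LamData M₀ σ T₀ ρ'.rw ρ'.Rw ρ'.rz ρ'.Rz Q Q' Lam := by
  classical
  obtain ⟨c, r₀, Rr, hbox⟩ := exists_cboxB t₀ (σ.e σ.y₀).1.2.1 (σ.e σ.y₀).1.2.2 hτ ρ'.Rw ρ'.Rz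
  have hCB : cbox (kapB k) c r₀ Rr ⊆ B0 (σ.e σ.y₀).1 ρ T := by
    rw [hbox]
    rintro b ⟨h1, h2, h3⟩
    have hneg : ∀ x : ℂ, -1 < ‖x‖ := fun x => by linarith [norm_nonneg x]
    refine ⟨hτT h1, ⟨hneg _, ?_⟩, ⟨hneg _, ?_⟩⟩
    · rw [sub_zero]
      exact h2.trans_lt hρ.Rw
    · rw [sub_zero]
      exact h3.trans_lt hρ.Rz
  have hPh : ∀ b ∈ cbox (kapB k) c r₀ Rr, MHolAt P b := fun b hb =>
    mHol_iff.mp hX.P_hol b (hCB hb)
  obtain ⟨N, N', Q, Q', hQ⟩ := exists_LK (kapB k) c r₀ Rr hPh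
  -- the region is in the box
  have hBC : B0 (σ.e σ.y₀).1 ρ' T₀ ⊆ cbox (kapB k) c r₀ Rr := by
    rw [hbox]
    rintro b ⟨h1, h2, h3⟩
    refine ⟨hT₀τ h1, ?_, ?_⟩
    · have := h2.2.le
      rwa [sub_zero] at this
    · have := h3.2.le
      rwa [sub_zero] at this
  have hT₀T : T₀ ⊆ T := hT₀τ.trans hτT
  have hB1C : B1 (σ.e σ.y₀).1 ρ' T₀ ⊆ cbox (kapB k) c r₀ Rr := (B1_sub_B0 _ _ _).trans hBC
  have hB2C : B2 (σ.e σ.y₀).1 ρ' T₀ ⊆ cbox (kapB k) c r₀ Rr := (B2_sub_B0 _ _ _).trans hBC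
  have hB1 := B1_in (T := T) hρ hT₀T (σ.e σ.y₀).1
  have hB2 := B2_in (T := T) hρ hT₀T (σ.e σ.y₀).1
  have hL1 := mHol_iff.mp hX.L₁_hol
  have hL2 := mHol_iff.mp hX.L₂_hol
  have hU := mHol_iff.mp hX.U_hol
  have hV := mHol_iff.mp hX.V_hol
  have ex2 : ∀ b ∈ B2 (σ.e σ.y₀).1 ρ T ∩ cbox (kapB k) c r₀ Rr, _ := fun b hb =>
    hQ.exact hb.2 (hL1 b hb.1) (hU b hb.1) (hX.L₁_inj b hb.1) (hX.U_surj b hb.1)
      (by filter_upwards [(isOpen_B2 hF.T_open).mem_nhds hb.1] with y hy using hX.P₂ y hy)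
  have ex1 : ∀ b ∈ B1 (σ.e σ.y₀).1 ρ T ∩ cbox (kapB k) c r₀ Rr, _ := fun b hb =>
    hQ.exact hb.2 (hL2 b hb.1) (hV b hb.1) (hX.L₂_inj b hb.1) (hX.V_surj b hb.1)
      (by filter_upwards [(isOpen_B1 hF.T_open).mem_nhds hb.1] with y hy using hX.P₁ y hy)
  -- pointwise products
  have hQL1 : ∀ b ∈ B2 (σ.e σ.y₀).1 ρ T ∩ cbox (kapB k) c r₀ Rr, Q b * L₁ b = 0 := by
    intro b hb
    have h1 : gmat Q b * gmat L₁ b = gmat (fun _ => 0) b := by
      rw [(ex2 b hb).1, gmat_zero]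
    exact ((mul_eq_of_gmat (hQ.Q_hol b hb.2) (hL1 b hb.1) (MHolAt.const 0 b)).mp h1).self_of_nhds
  have hQL2 : ∀ b ∈ B1 (σ.e σ.y₀).1 ρ T ∩ cbox (kapB k) c r₀ Rr, Q b * L₂ b = 0 := by
    intro b hb
    have h1 : gmat Q b * gmat L₂ b = gmat (fun _ => 0) b := by
      rw [(ex1 b hb).1, gmat_zero]
    exact ((mul_eq_of_gmat (hQ.Q_hol b hb.2) (hL2 b hb.1) (MHolAt.const 0 b)).mp h1).self_of_nhds
  have lam2 := fun {T' : Set (Bs k)} (hT' : T' ⊆ B2 (σ.e σ.y₀).1 ρ T)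
    {y : (x : V) → M₀.St x} {c : Bs k → Fin n → ℂ}
    (h : Co M₀ σ.e (Metric.closedBall (σ.e σ.y₀).2 σ.Rv) f T' y c) {b : Bs k} (hb : b ∈ T') =>
    lam_two (L₁ := L₁) (L₂ := L₂) hF hT' h hb
  have lam1 := fun {T' : Set (Bs k)} (hT' : T' ⊆ B1 (σ.e σ.y₀).1 ρ T)
    {y : (x : V) → M₀.St x} {c : Bs k → Fin n → ℂ}
    (h : Co M₀ σ.e (Metric.closedBall (σ.e σ.y₀).2 σ.Rv) f' T' y c) {b : Bs k} (hb : b ∈ T') =>
    lam_one (L₁ := L₁) (L₂ := L₂) hF hX.L₂g hT' h hb
  have hsh : shell σ T₀ ρ'.rw ρ'.Rw ρ'.rz ρ'.Rz ⊆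
      B1 (σ.e σ.y₀).1 ρ T ∪ B2 (σ.e σ.y₀).1 ρ T := by
    rw [shell_eq]
    exact union_subset_union hB1 hB2
  have hshC : shell σ T₀ ρ'.rw ρ'.Rw ρ'.rz ρ'.Rz ⊆ cbox (kapB k) c r₀ Rr := by
    rw [shell_eq]
    exact union_subset hB1C hB2C
  have hbxC : σ.bx T₀ (-1) ρ'.Rw (-1) ρ'.Rz ⊆ cbox (kapB k) c r₀ Rr := fun b hb =>
    hBC (mem_bx_iff.mp hb)
  have hSB2 : ∀ {S : Set (Bs k)}, S ∩ B2 (σ.e σ.y₀).1 ρ T ⊆ B2 (σ.e σ.y₀).1 ρ T := by
    intro S b hb
    exact hb.2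
  have hSB1 : ∀ {S : Set (Bs k)}, S ∩ B1 (σ.e σ.y₀).1 ρ T ⊆ B1 (σ.e σ.y₀).1 ρ T := by
    intro S b hb
    exact hb.2
  refine ⟨N, N', Q, Q', lam M₀ σ.e (σ.e σ.y₀) σ.Rv T ρ f f' L₁ L₂, hT₀, ρ'.rw_pos, ρ'.rw_lt,
    ρ'.rz_pos, ρ'.rz_lt, mHol_iff.mpr fun b hb => hQ.Q_hol b (hbxC hb),
    mHol_iff.mpr fun b hb => hQ.Q'_hol b (hbxC hb), ?_, ?_, ?_, ?_, ?_, ?_, ?_, ?_, ?_⟩
  · -- comp
    intro b hb
    have hbC := hbxC hb
    have h1 : gmat Q' b * gmat Q b = gmat (fun _ => 0) b := by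
      rw [hQ.Q'Q b hbC, gmat_zero]
    exact ((mul_eq_of_gmat (hQ.Q'_hol b hbC) (hQ.Q_hol b hbC) (MHolAt.const 0 b)).mp
      h1).self_of_nhds
  · -- exact
    intro b hb q hq
    have hbC := hshC hb
    have h1 : gmat Q' b *ᵥ q = 0 := funext fun i => hq i
    have h2 : ∃ u, gmat Q b *ᵥ u = q := by
      rcases hsh hb with h | h
      · exact (ex1 b ⟨h, hbC⟩).2.2 q h1
      · exact (ex2 b ⟨h, hbC⟩).2.2 q h1
    obtain ⟨u, hu⟩ := h2
    exact ⟨u, fun j => (congrFun hu j).symm⟩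
  · -- hol
    intro S hS hSo y hy l b hb
    rcases hsh (hS hb) with h | h
    · obtain ⟨c1, hc1⟩ := exists_co1 hF (hS.trans hsh) hSo hy
      have hbS : b ∈ S ∩ B1 (σ.e σ.y₀).1 ρ T := ⟨hb, h⟩
      have h1 : VHolAt (fun b => L₂ b *ᵥ c1 b) b := (hL2 b h).mulVec (hc1.hol b hbS)
      refine (h1 l).congr ?_
      filter_upwards [hc1.isOpen.mem_nhds hbS] with b' hb'
      rw [lam1 hSB1 hc1 hb']
    · obtain ⟨c2, hc2⟩ := exists_co2 hF (hS.trans hsh) hSo hy
      have hbS : b ∈ S ∩ B2 (σ.e σ.y₀).1 ρ T := ⟨hb, h⟩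
      have h1 : VHolAt (fun b => L₁ b *ᵥ c2 b) b := (hL1 b h).mulVec (hc2.hol b hbS)
      refine (h1 l).congr ?_
      filter_upwards [hc2.isOpen.mem_nhds hbS] with b' hb'
      rw [lam2 hSB2 hc2 hb']
  · -- add
    intro S hS hSo y y' hy hy' b hb
    rcases hsh (hS hb) with h | h
    · obtain ⟨c1, hc1⟩ := exists_co1 hF (hS.trans hsh) hSo hy
      obtain ⟨c1', hc1'⟩ := exists_co1 hF (hS.trans hsh) hSo hy'
      have hbS : b ∈ S ∩ B1 (σ.e σ.y₀).1 ρ T := ⟨hb, h⟩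
      rw [lam1 hSB1 hc1 hbS, lam1 hSB1 hc1' hbS, lam1 hSB1 (hc1.add hc1') hbS, Matrix.mulVec_add]
    · obtain ⟨c2, hc2⟩ := exists_co2 hF (hS.trans hsh) hSo hy
      obtain ⟨c2', hc2'⟩ := exists_co2 hF (hS.trans hsh) hSo hy'
      have hbS : b ∈ S ∩ B2 (σ.e σ.y₀).1 ρ T := ⟨hb, h⟩
      rw [lam2 hSB2 hc2 hbS, lam2 hSB2 hc2' hbS, lam2 hSB2 (hc2.add hc2') hbS, Matrix.mulVec_add]
  · -- smul
    intro S hS hSo y hy φ hφ b hb
    rcases hsh (hS hb) with h | h
    · obtain ⟨c1, hc1⟩ := exists_co1 hF (hS.trans hsh) hSo hy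
      have hbS : b ∈ S ∩ B1 (σ.e σ.y₀).1 ρ T := ⟨hb, h⟩
      rw [lam1 hSB1 hc1 hbS, lam1 hSB1 (hc1.smul fun b hb => hφ b hb.1) hbS, Matrix.mulVec_smul]
    · obtain ⟨c2, hc2⟩ := exists_co2 hF (hS.trans hsh) hSo hy
      have hbS : b ∈ S ∩ B2 (σ.e σ.y₀).1 ρ T := ⟨hb, h⟩
      rw [lam2 hSB2 hc2 hbS, lam2 hSB2 (hc2.smul fun b hb => hφ b hb.1) hbS, Matrix.mulVec_smul]
  · -- congr
    intro S hS hSo y y' hy hyy b hb
    have heq := eq_fib hF (hS.trans hsh) hyy
    rcases hsh (hS hb) with h | h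
    · obtain ⟨c1, hc1⟩ := exists_co1 hF (hS.trans hsh) hSo hy
      have hbS : b ∈ S ∩ B1 (σ.e σ.y₀).1 ρ T := ⟨hb, h⟩
      have hc1' : Co M₀ σ.e (Metric.closedBall (σ.e σ.y₀).2 σ.Rv) f'
          (S ∩ B1 (σ.e σ.y₀).1 ρ T) y' c1 :=
        ⟨hc1.isOpen, hc1.hol, fun b hb x hx => (heq b hb.1 x hx).symm.trans (hc1.eq b hb x hx)⟩
      rw [lam1 hSB1 hc1 hbS, lam1 hSB1 hc1' hbS]
    · obtain ⟨c2, hc2⟩ := exists_co2 hF (hS.trans hsh) hSo hy
      have hbS : b ∈ S ∩ B2 (σ.e σ.y₀).1 ρ T := ⟨hb, h⟩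
      have hc2' : Co M₀ σ.e (Metric.closedBall (σ.e σ.y₀).2 σ.Rv) f
          (S ∩ B2 (σ.e σ.y₀).1 ρ T) y' c2 :=
        ⟨hc2.isOpen, hc2.hol, fun b hb x hx => (heq b hb.1 x hx).symm.trans (hc2.eq b hb x hx)⟩
      rw [lam2 hSB2 hc2 hbS, lam2 hSB2 hc2' hbS]
  · -- ker
    intro S hS hSo y hy b hb
    have hbC := hshC (hS hb)
    rcases hsh (hS hb) with h | h
    · obtain ⟨c1, hc1⟩ := exists_co1 hF (hS.trans hsh) hSo hy
      rw [lam1 hSB1 hc1 ⟨hb, h⟩, Matrix.mulVec_mulVec, hQL2 b ⟨h, hbC⟩, Matrix.zero_mulVec]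
    · obtain ⟨c2, hc2⟩ := exists_co2 hF (hS.trans hsh) hSo hy
      rw [lam2 hSB2 hc2 ⟨hb, h⟩, Matrix.mulVec_mulVec, hQL1 b ⟨h, hbC⟩, Matrix.zero_mulVec]
  · -- inj
    intro S hS hSo y hy h0 x hx
    have hb : (σ.e x).1 ∈ S := hx.1
    rcases hsh (hS hb) with h | h
    · obtain ⟨c1, hc1⟩ := exists_co1 hF (hS.trans hsh) hSo hy
      have hbS : (σ.e x).1 ∈ S ∩ B1 (σ.e σ.y₀).1 ρ T := ⟨hb, h⟩
      have hz : ∀ b ∈ S ∩ B1 (σ.e σ.y₀).1 ρ T, c1 b = 0 := by
        intro b hbb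
        have h1 := lam1 hSB1 hc1 hbb
        rw [h0 b hbb.1] at h1
        exact hX.L₂_inj b hbb.2 (h1.symm.trans (Matrix.mulVec_zero _).symm)
      rw [hc1.eq _ hbS x (reg_mem_fib hx), comb_congr (c' := fun _ => 0) (hc1.hol _ hbS)
        (by filter_upwards [hc1.isOpen.mem_nhds hbS] with b' hb' using hz b' hb'), comb_zero]
    · obtain ⟨c2, hc2⟩ := exists_co2 hF (hS.trans hsh) hSo hy
      have hbS : (σ.e x).1 ∈ S ∩ B2 (σ.e σ.y₀).1 ρ T := ⟨hb, h⟩
      have hz : ∀ b ∈ S ∩ B2 (σ.e σ.y₀).1 ρ T, c2 b = 0 := by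
        intro b hbb
        have h1 := lam2 hSB2 hc2 hbb
        rw [h0 b hbb.1] at h1
        exact hX.L₁_inj b hbb.2 (h1.symm.trans (Matrix.mulVec_zero _).symm)
      rw [hc2.eq _ hbS x (reg_mem_fib hx), comb_congr (c' := fun _ => 0) (hc2.hol _ hbS)
        (by filter_upwards [hc2.isOpen.mem_nhds hbS] with b' hb' using hz b' hb'), comb_zero]
  · -- surj
    intro S hS hSo u hu hQu
    have huh : VHol u S := fun b hb l => hu l b hb
    have hgk : ∀ b ∈ S, gmat Q b *ᵥ gvec u b = 0 := by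
      intro b hb
      have hbC := hshC (hS hb)
      rw [← gvec_zero b]
      refine (mulVec_eq_of_gmat (hQ.Q_hol b hbC) (huh b hb) (VHolAt.zero b)).mpr ?_
      filter_upwards [hSo.mem_nhds hb] with b' hb' using hQu b' hb'
    obtain ⟨c2, hc2, hc2'⟩ := lift_inj (S := S ∩ B2 (σ.e σ.y₀).1 ρ T) (L := L₁) (u := u)
      (mHol_iff.mpr fun b hb => hL1 b hb.2) (fun b hb => hX.L₁_inj b hb.2)
      (fun b hb => huh b hb.1) (fun b hb => (ex2 b ⟨hb.2, hshC (hS hb.1)⟩).2.1 _ (hgk b hb.1))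
    obtain ⟨c1, hc1, hc1'⟩ := lift_inj (S := S ∩ B1 (σ.e σ.y₀).1 ρ T) (L := L₂) (u := u)
      (mHol_iff.mpr fun b hb => hL2 b hb.2) (fun b hb => hX.L₂_inj b hb.2)
      (fun b hb => huh b hb.1) (fun b hb => (ex1 b ⟨hb.2, hshC (hS hb.1)⟩).2.1 _ (hgk b hb.1))
    have ho2 : IsOpen (S ∩ B2 (σ.e σ.y₀).1 ρ T) := hSo.inter hF.fr2.isOpen
    have ho1 : IsOpen (S ∩ B1 (σ.e σ.y₀).1 ρ T) := hSo.inter hF.fr1.isOpen
    -- agreement
    have hag : ∀ b ∈ S, b ∈ B1 (σ.e σ.y₀).1 ρ T → b ∈ B2 (σ.e σ.y₀).1 ρ T →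
        c2 b = g b *ᵥ c1 b := by
      intro b hb h1 h2
      have h12 : b ∈ B12 (σ.e σ.y₀).1 ρ T := by
        rw [B12_eq]
        exact ⟨h1, h2⟩
      apply hX.L₁_inj b h2
      rw [(hc2' b ⟨hb, h2⟩).2, Matrix.mulVec_mulVec, ← hX.L₂g b h12, (hc1' b ⟨hb, h1⟩).2]
    let y : (x : V) → M₀.St x := fun x =>
      if (σ.e x).1 ∈ B2 (σ.e σ.y₀).1 ρ T then comb σ.e f c2 x else comb σ.e f' c1 x
    have hco2 : Co M₀ σ.e (Metric.closedBall (σ.e σ.y₀).2 σ.Rv) f
        (S ∩ B2 (σ.e σ.y₀).1 ρ T) y c2 := by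
      refine ⟨ho2, hc2, fun b hb x hx => ?_⟩
      have hxb : (σ.e x).1 = b := hx.1
      have h1 : (σ.e x).1 ∈ B2 (σ.e σ.y₀).1 ρ T := by rw [hxb]; exact hb.2
      exact if_pos h1
    have hco1 : Co M₀ σ.e (Metric.closedBall (σ.e σ.y₀).2 σ.Rv) f'
        (S ∩ B1 (σ.e σ.y₀).1 ρ T) y c1 := by
      refine ⟨ho1, hc1, fun b hb x hx => ?_⟩
      have hxb : (σ.e x).1 = b := hx.1
      by_cases h2 : b ∈ B2 (σ.e σ.y₀).1 ρ T
      · have h12 : b ∈ B12 (σ.e σ.y₀).1 ρ T := by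
          rw [B12_eq]
          exact ⟨hb.2, h2⟩
        rw [hco2.eq b ⟨hb.1, h2⟩ x hx]
        have e1 := hc1 b hb
        have e2 := mHol_iff.mp hF.g_hol b h12
        have e3 := hc2 b ⟨hb.1, h2⟩
        rw [← hxb] at e1 e2 e3
        rw [comb_mulVec e2 e1 (hF.trans b h12 x hx)]
        refine comb_congr e3 ?_
        rw [hxb]
        filter_upwards [ho2.mem_nhds ⟨hb.1, h2⟩, ho1.mem_nhds hb] with b' h3 h4
        exact hag b' h3.1 h4.2 h3.2
      · exact if_neg (by rw [hxb]; exact h2)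
    refine ⟨y, fun x hx => ?_, fun b hb => ?_⟩
    · have hb : (σ.e x).1 ∈ S := hx.1
      have hfx := reg_mem_fib hx
      have hreg : ∀ᶠ x' in 𝓝 x, x' ∈ σ.reg S := (isOpen_reg hSo).mem_nhds hx
      have hcf : Tendsto (fun x' => (σ.e x').1) (𝓝 x) (𝓝 (σ.e x).1) :=
        (continuous_fst.comp σ.e.continuous).continuousAt
      rcases hsh (hS hb) with h | h
      · have hdom : x ∈ M₀.dom := (hF.coh _ (Or.inl h) x hfx).self_of_nhds.1
        refine M₀.congr (comb_at (f := f') hdom (hc1 _ ⟨hb, h⟩) fun j => hF.fr1.on j _ h x hfx) ?_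
        filter_upwards [hreg, hcf.eventually (ho1.mem_nhds ⟨hb, h⟩)] with x' h1 h2
        exact (hco1.eq _ h2 x' (reg_mem_fib h1)).symm
      · have hdom : x ∈ M₀.dom := (hF.coh _ (Or.inr h) x hfx).self_of_nhds.1
        refine M₀.congr (comb_at (f := f) hdom (hc2 _ ⟨hb, h⟩) fun j => hF.fr2.on j _ h x hfx) ?_
        filter_upwards [hreg, hcf.eventually (ho2.mem_nhds ⟨hb, h⟩)] with x' h1 h2
        exact (hco2.eq _ h2 x' (reg_mem_fib h1)).symm
    · rcases hsh (hS hb) with h | h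
      · rw [lam1 hSB1 hco1 ⟨hb, h⟩, (hc1' b ⟨hb, h⟩).2]
      · rw [lam2 hSB2 hco2 ⟨hb, h⟩, (hc2' b ⟨hb, h⟩).2]

end

end Pool.Agent.DQ.M12
end
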