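import Pool.Agent.Lib.MP_4aa2a9_ag.Mg.G022
import Pool.Agent.Lib.MP_4aa2a9_ag.Mg.G015
import Pool.Agent.Lib.MP_4aa2a9_ag.Mg.G017

section

/-! Module M12: Hartogs extension over the shell, Laurent splitting. -/

set_option autoImplicit false
set_option linter.unusedSectionVars false

open Set Filter Topology Matrix

namespace Pool.Agent.DQ.M12

variable {k : ℕ} {b₀ : Bs k} {T : Set (Fin k → ℂ)} {ρ : Rd} {p q N : ℕ}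

private theorem M12SplA_ne {r R : ℝ} (h0 : 0 < r) (h : r < R) : (ring (0 : ℂ) r R).Nonempty := by
  refine ⟨(((r + R) / 2 : ℝ) : ℂ), ?_⟩
  have h1 : ‖((((r + R) / 2 : ℝ) : ℂ)) - 0‖ = (r + R) / 2 := by
    rw [sub_zero, Complex.norm_real, Real.norm_eq_abs, abs_of_pos (by linarith)]
  change r < ‖((((r + R) / 2 : ℝ) : ℂ)) - 0‖ ∧ ‖((((r + R) / 2 : ℝ) : ℂ)) - 0‖ < R
  rw [h1]
  constructor <;> linarith

/-- identity theorem: functions on `B0` which agree on `B12` agree. Proof. `ident_fib`. The annuli are nonempty: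
`((rw + Rw) / 2 : ℂ)`. -/
theorem ident_B0 (hT : IsOpen T) {f g : Bs k → ℂ} (hf : HolNear f (B0 b₀ ρ T))
    (hg : HolNear g (B0 b₀ ρ T)) (h : ∀ b ∈ B12 b₀ ρ T, f b = g b) : ∀ b ∈ B0 b₀ ρ T, f b = g b :=
  ident_fib (b₀ := b₀) hT (DQ.F.isOpen_ring _ _ _) (DQ.F.isPreconnected_ring _ _ _)
    (DQ.F.isOpen_ring _ _ _) (DQ.F.isPreconnected_ring _ _ _) (DQ.F.isOpen_ring _ _ _) ring_disc
    (M12SplA_ne ρ.rw_pos ρ.rw_lt) (DQ.F.isOpen_ring _ _ _) ring_disc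
    (M12SplA_ne ρ.rz_pos ρ.rz_lt) hf hg h

/-- Proof. `ident_fib`. -/
theorem ident_B1 (hT : IsOpen T) {f g : Bs k → ℂ} (hf : HolNear f (B1 b₀ ρ T))
    (hg : HolNear g (B1 b₀ ρ T)) (h : ∀ b ∈ B12 b₀ ρ T, f b = g b) : ∀ b ∈ B1 b₀ ρ T, f b = g b :=
  ident_fib (b₀ := b₀) hT (DQ.F.isOpen_ring _ _ _) (DQ.F.isPreconnected_ring _ _ _)
    (DQ.F.isOpen_ring _ _ _) (DQ.F.isPreconnected_ring _ _ _) (DQ.F.isOpen_ring _ _ _)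
    Subset.rfl (M12SplA_ne ρ.rw_pos ρ.rw_lt) (DQ.F.isOpen_ring _ _ _) ring_disc
    (M12SplA_ne ρ.rz_pos ρ.rz_lt) hf hg h

/-- Proof. `ident_fib`. -/
theorem ident_B2 (hT : IsOpen T) {f g : Bs k → ℂ} (hf : HolNear f (B2 b₀ ρ T))
    (hg : HolNear g (B2 b₀ ρ T)) (h : ∀ b ∈ B12 b₀ ρ T, f b = g b) : ∀ b ∈ B2 b₀ ρ T, f b = g b :=
  ident_fib (b₀ := b₀) hT (DQ.F.isOpen_ring _ _ _) (DQ.F.isPreconnected_ring _ _ _)
    (DQ.F.isOpen_ring _ _ _) (DQ.F.isPreconnected_ring _ _ _) (DQ.F.isOpen_ring _ _ _) ring_disc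
    (M12SplA_ne ρ.rw_pos ρ.rw_lt) (DQ.F.isOpen_ring _ _ _) Subset.rfl
    (M12SplA_ne ρ.rz_pos ρ.rz_lt) hf hg h

/-- **Hartogs.** Functions on `T × annulus × disc` and `T × disc × annulus` which agree on `T × annulus × annulus` have a
common extension to `T × disc × disc`, namely `pw f₁`.

Proof. `pw_hol`. On `B12`: `pw f₁ = pw f₂` (`pw_congr`, the line in direction `w` through a point of `B12` stays in `B12`) `= f₂ = f₁`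
(`pw_self` for `f₂`, holomorphic on the whole disc in `w`). Then `ident_B1`, `ident_B2`. -/
theorem hartogs_pw (hT : IsOpen T) {f₁ f₂ : Bs k → ℂ} (h₁ : HolNear f₁ (B1 b₀ ρ T))
    (h₂ : HolNear f₂ (B2 b₀ ρ T)) (h : ∀ b ∈ B12 b₀ ρ T, f₁ b = f₂ b) :
    HolNear (pw b₀ ρ.rw ρ.Rw f₁) (B0 b₀ ρ T) ∧ (∀ b ∈ B1 b₀ ρ T, pw b₀ ρ.rw ρ.Rw f₁ b = f₁ b) ∧
      ∀ b ∈ B2 b₀ ρ T, pw b₀ ρ.rw ρ.Rw f₁ b = f₂ b := by
  have k0 : HolNear (pw b₀ ρ.rw ρ.Rw f₁) (B0 b₀ ρ T) :=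
    pw_hol (b₀ := b₀) (T := T) (Z := ring 0 (-1) ρ.Rz) (r := ρ.rw) (R := ρ.Rw) hT
      (DQ.F.isOpen_ring _ _ _) ρ.rw_lt h₁
  have k1 : ∀ b ∈ B12 b₀ ρ T, pw b₀ ρ.rw ρ.Rw f₁ b = f₂ b := by
    intro b hb
    have hw : ‖b.2.1 - b₀.2.1‖ < ρ.Rw := by
      have h1 := hb.2.1.2
      rwa [sub_zero] at h1
    have h2 : pw b₀ ρ.rw ρ.Rw f₁ b = pw b₀ ρ.rw ρ.Rw f₂ b :=
      pw_congr (b₀ := b₀) (r := ρ.rw) (R := ρ.Rw) ρ.rw_lt hw fun ζ hζ hζ' => by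
        refine h (b.1, ζ, b.2.2) ⟨hb.1, ⟨?_, ?_⟩, hb.2.2⟩
        · rw [sub_zero]
          exact hζ
        · rw [sub_zero]
          exact hζ'
    rw [h2]
    exact pw_self (b₀ := b₀) (T := T) (Z := ring 0 ρ.rz ρ.Rz) (r := ρ.rw) (R := ρ.Rw) ρ.rw_lt h₂
      (B12_sub_B2 _ _ _ hb)
  refine ⟨k0, ?_, ?_⟩
  · exact ident_B1 hT (k0.mono (B1_sub_B0 _ _ _)) h₁ fun b hb => (k1 b hb).trans (h b hb).symm
  · exact ident_B2 hT (k0.mono (B2_sub_B0 _ _ _)) h₂ k1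

/-- vector version of `hartogs_pw` -/
theorem hartogs_vec (hT : IsOpen T) {u₁ u₂ : Bs k → Fin p → ℂ} (h₁ : VHol u₁ (B1 b₀ ρ T))
    (h₂ : VHol u₂ (B2 b₀ ρ T)) (h : ∀ b ∈ B12 b₀ ρ T, u₁ b = u₂ b) :
    VHol (pwv b₀ ρ.rw ρ.Rw u₁) (B0 b₀ ρ T) ∧ (∀ b ∈ B1 b₀ ρ T, pwv b₀ ρ.rw ρ.Rw u₁ b = u₁ b) ∧
      ∀ b ∈ B2 b₀ ρ T, pwv b₀ ρ.rw ρ.Rw u₁ b = u₂ b := by
  have key := fun i : Fin p => hartogs_pw (ρ := ρ) hT (f₁ := fun y => u₁ y i)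
    (f₂ := fun y => u₂ y i) (fun x hx => h₁ x hx i) (fun x hx => h₂ x hx i)
    fun b hb => congrFun (h b hb) i
  exact ⟨fun x hx i => (key i).1 x hx, fun b hb => funext fun i => (key i).2.1 b hb,
    fun b hb => funext fun i => (key i).2.2 b hb⟩

/-- matrix version of `hartogs_pw` -/
theorem hartogs_mat (hT : IsOpen T) {A₁ A₂ : Bs k → Matrix (Fin p) (Fin q) ℂ}
    (h₁ : MHol A₁ (B1 b₀ ρ T)) (h₂ : MHol A₂ (B2 b₀ ρ T)) (h : ∀ b ∈ B12 b₀ ρ T, A₁ b = A₂ b) :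
    ∃ A : Bs k → Matrix (Fin p) (Fin q) ℂ, MHol A (B0 b₀ ρ T) ∧
      (∀ b ∈ B1 b₀ ρ T, A b = A₁ b) ∧ ∀ b ∈ B2 b₀ ρ T, A b = A₂ b := by
  have key := fun (i : Fin p) (j : Fin q) => hartogs_pw (ρ := ρ) hT (f₁ := fun y => A₁ y i j)
    (f₂ := fun y => A₂ y i j) (h₁ i j) (h₂ i j) fun b hb => congrFun (congrFun (h b hb) i) j
  refine ⟨fun b => Matrix.of fun i j => pw b₀ ρ.rw ρ.Rw (fun y => A₁ y i j) b,
    fun i j => (key i j).1, fun b hb => ?_, fun b hb => ?_⟩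
  · ext i j
    exact (key i j).2.1 b hb
  · ext i j
    exact (key i j).2.2 b hb

/-- vector version of `ident_B0` -/
theorem ident_vec (hT : IsOpen T) {f g : Bs k → Fin p → ℂ} (hf : VHol f (B0 b₀ ρ T))
    (hg : VHol g (B0 b₀ ρ T)) (h : ∀ b ∈ B12 b₀ ρ T, f b = g b) : ∀ b ∈ B0 b₀ ρ T, f b = g b :=
  fun b hb => funext fun i => ident_B0 (f := fun y => f y i) (g := fun y => g y i) hT
    (fun x hx => hf x hx i) (fun x hx => hg x hx i) (fun b hb => congrFun (h b hb) i) b hb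

/-- matrix version of `ident_B0` -/
theorem ident_mat (hT : IsOpen T) {f g : Bs k → Matrix (Fin p) (Fin q) ℂ} (hf : MHol f (B0 b₀ ρ T))
    (hg : MHol g (B0 b₀ ρ T)) (h : ∀ b ∈ B12 b₀ ρ T, f b = g b) : ∀ b ∈ B0 b₀ ρ T, f b = g b := by
  intro b hb
  ext i j
  exact ident_B0 (f := fun y => f y i j) (g := fun y => g y i j) hT (hf i j) (hg i j)
    (fun b hb => congrFun (congrFun (h b hb) i) j) b hb

end Pool.Agent.DQ.M12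
end

section

/-! Module M12: Hartogs extension over the shell, Laurent splitting. -/

set_option autoImplicit false
set_option linter.unusedSectionVars false

open Set Filter Topology Matrix

namespace Pool.Agent.DQ.M12

variable {k : ℕ} {b₀ : Bs k} {T : Set (Fin k → ℂ)} {ρ : Rd} {p q N : ℕ}

/-! ### splitting -/

/-- scalar version of `mm` -/
private noncomputable def mms (b₀ : Bs k) (ρ : Rd) (f : Bs k → ℂ) (b : Bs k) : ℂ :=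
  f b - pz b₀ ρ.rz ρ.Rz f b - pw b₀ ρ.rw ρ.Rw (fun y => f y - pz b₀ ρ.rz ρ.Rz f y) b

private theorem lineZ {b : Bs k} (hb : b ∈ B12 b₀ ρ T) {ζ : ℂ} (h1 : ρ.rz < ‖ζ - b₀.2.2‖)
    (h2 : ‖ζ - b₀.2.2‖ < ρ.Rz) : (b.1, b.2.1, ζ) ∈ B12 b₀ ρ T :=
  ⟨hb.1, hb.2.1, by simpa [ring] using ⟨h1, h2⟩⟩

private theorem lineW {b : Bs k} (hb : b ∈ B12 b₀ ρ T) {ζ : ℂ} (h1 : ρ.rw < ‖ζ - b₀.2.1‖)
    (h2 : ‖ζ - b₀.2.1‖ < ρ.Rw) : (b.1, ζ, b.2.2) ∈ B12 b₀ ρ T :=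
  ⟨hb.1, by simpa [ring] using ⟨h1, h2⟩, hb.2.2⟩

private theorem ltZ {b : Bs k} (hb : b ∈ B12 b₀ ρ T) : ‖b.2.2 - b₀.2.2‖ < ρ.Rz := by
  have := hb.2.2.2
  simpa using this

private theorem ltW {b : Bs k} (hb : b ∈ B12 b₀ ρ T) : ‖b.2.1 - b₀.2.1‖ < ρ.Rw := by
  have := hb.2.1.2
  simpa using this

private theorem pz_cg {f g : Bs k → ℂ} (h : ∀ b ∈ B12 b₀ ρ T, f b = g b) :
    ∀ b ∈ B12 b₀ ρ T, pz b₀ ρ.rz ρ.Rz f b = pz b₀ ρ.rz ρ.Rz g b := fun b hb =>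
  pz_congr ρ.rz_lt (ltZ hb) fun ζ h1 h2 => h _ (lineZ hb h1 h2)

private theorem pw_cg {f g : Bs k → ℂ} (h : ∀ b ∈ B12 b₀ ρ T, f b = g b) :
    ∀ b ∈ B12 b₀ ρ T, pw b₀ ρ.rw ρ.Rw f b = pw b₀ ρ.rw ρ.Rw g b := fun b hb =>
  pw_congr ρ.rw_lt (ltW hb) fun ζ h1 h2 => h _ (lineW hb h1 h2)

private theorem pz_h (hT : IsOpen T) {f : Bs k → ℂ} (hf : HolNear f (B12 b₀ ρ T)) :
    HolNear (pz b₀ ρ.rz ρ.Rz f) (B1 b₀ ρ T) :=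
  pz_hol hT (DQ.F.isOpen_ring _ _ _) ρ.rz_lt hf

private theorem pw_h (hT : IsOpen T) {f : Bs k → ℂ} (hf : HolNear f (B12 b₀ ρ T)) :
    HolNear (pw b₀ ρ.rw ρ.Rw f) (B2 b₀ ρ T) :=
  pw_hol hT (DQ.F.isOpen_ring _ _ _) ρ.rw_lt hf

private theorem sub_h (hT : IsOpen T) {f : Bs k → ℂ} (hf : HolNear f (B12 b₀ ρ T)) :
    HolNear (fun y => f y - pz b₀ ρ.rz ρ.Rz f y) (B12 b₀ ρ T) := fun x hx =>
  (hf x hx).sub (pz_h hT hf x (B12_sub_B1 _ _ _ hx))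

private theorem mms_congr {f g : Bs k → ℂ} (h : ∀ b ∈ B12 b₀ ρ T, f b = g b) :
    ∀ b ∈ B12 b₀ ρ T, mms b₀ ρ f b = mms b₀ ρ g b := by
  intro b hb
  have h1 := pz_cg h
  have h2 : ∀ y ∈ B12 b₀ ρ T, f y - pz b₀ ρ.rz ρ.Rz f y = g y - pz b₀ ρ.rz ρ.Rz g y :=
    fun y hy => by rw [h y hy, h1 y hy]
  simp only [mms]
  rw [h b hb, h1 b hb, pw_cg h2 b hb]

private theorem mms_add (hT : IsOpen T) {f g : Bs k → ℂ} (hf : HolNear f (B12 b₀ ρ T))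
    (hg : HolNear g (B12 b₀ ρ T)) :
    ∀ b ∈ B12 b₀ ρ T, mms b₀ ρ (fun y => f y + g y) b = mms b₀ ρ f b + mms b₀ ρ g b := by
  intro b hb
  have h1 : ∀ y ∈ B12 b₀ ρ T, pz b₀ ρ.rz ρ.Rz (fun y => f y + g y) y =
      pz b₀ ρ.rz ρ.Rz f y + pz b₀ ρ.rz ρ.Rz g y := fun y hy =>
    pz_add (W := ring 0 ρ.rw ρ.Rw) ρ.rz_lt hf hg (B12_sub_B1 _ _ _ hy)
  have h2 : ∀ y ∈ B12 b₀ ρ T, f y + g y - pz b₀ ρ.rz ρ.Rz (fun y => f y + g y) y =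
      (f y - pz b₀ ρ.rz ρ.Rz f y) + (g y - pz b₀ ρ.rz ρ.Rz g y) := fun y hy => by
    rw [h1 y hy]; ring
  have h3 := pw_add (Z := ring 0 ρ.rz ρ.Rz) ρ.rw_lt (sub_h hT hf) (sub_h hT hg)
    (B12_sub_B2 _ _ _ hb)
  simp only [mms]
  rw [pw_cg h2 b hb, h3, h1 b hb]
  ring

private theorem mms_zero_of_B1 (hT : IsOpen T) {f : Bs k → ℂ} (hf : HolNear f (B1 b₀ ρ T)) :
    ∀ b ∈ B12 b₀ ρ T, mms b₀ ρ f b = 0 := by
  intro b hb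
  have h1 : ∀ y ∈ B12 b₀ ρ T, pz b₀ ρ.rz ρ.Rz f y = f y := fun y hy =>
    pz_self ρ.rz_lt hf (B12_sub_B1 _ _ _ hy)
  have h2 : ∀ y ∈ B12 b₀ ρ T, f y - pz b₀ ρ.rz ρ.Rz f y = (fun _ => (0 : ℂ)) y := fun y hy => by
    rw [h1 y hy, sub_self]
  have h3 : pw b₀ ρ.rw ρ.Rw (fun _ => (0 : ℂ)) b = 0 := DQ.F.pplus_zero _
  simp only [mms]
  rw [pw_cg h2 b hb, h3, h1 b hb]
  ring

private theorem mms_zero_of_B2 (hT : IsOpen T) {f : Bs k → ℂ} (hf : HolNear f (B2 b₀ ρ T)) :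
    ∀ b ∈ B12 b₀ ρ T, mms b₀ ρ f b = 0 := by
  intro b hb
  have h1 : HolNear (pz b₀ ρ.rz ρ.Rz f) (B0 b₀ ρ T) :=
    pz_hol hT (DQ.F.isOpen_ring _ _ _) ρ.rz_lt hf
  have h2 : HolNear (fun y => f y - pz b₀ ρ.rz ρ.Rz f y) (B2 b₀ ρ T) := fun x hx =>
    (hf x hx).sub (h1 x (B2_sub_B0 _ _ _ hx))
  have h3 := pw_self ρ.rw_lt h2 (B12_sub_B2 _ _ _ hb)
  simp only [mms]
  rw [h3]
  ring

private theorem mms_radius {ρ' : Rd} (hrw : ρ'.rw = ρ.rw) (hrz : ρ'.rz = ρ.rz)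
    (hRw : ρ'.Rw ≤ ρ.Rw) (hRz : ρ'.Rz ≤ ρ.Rz) (hT : IsOpen T) {f : Bs k → ℂ}
    (hf : HolNear f (B12 b₀ ρ T)) : ∀ b ∈ B12 b₀ ρ' T, mms b₀ ρ' f b = mms b₀ ρ f b := by
  intro b hb
  have hsub : B12 b₀ ρ' T ⊆ B12 b₀ ρ T :=
    rg_mono le_rfl (ring_mono hrw.ge hRw) (ring_mono hrz.ge hRz)
  have h1 : ∀ y ∈ B12 b₀ ρ' T, pz b₀ ρ'.rz ρ'.Rz f y = pz b₀ ρ.rz ρ.Rz f y := by
    intro y hy
    rw [hrz]
    refine pz_radius (W := ring 0 ρ.rw ρ.Rw) (hrz ▸ ρ'.rz_lt) hRz hf ?_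
    exact rg_mono le_rfl (ring_mono hrw.ge hRw) le_rfl (B12_sub_B1 _ _ _ hy)
  have h2 : ∀ y ∈ B12 b₀ ρ' T, f y - pz b₀ ρ'.rz ρ'.Rz f y = f y - pz b₀ ρ.rz ρ.Rz f y :=
    fun y hy => by rw [h1 y hy]
  have h3 : pw b₀ ρ'.rw ρ'.Rw (fun y => f y - pz b₀ ρ.rz ρ.Rz f y) b =
      pw b₀ ρ.rw ρ.Rw (fun y => f y - pz b₀ ρ.rz ρ.Rz f y) b := by
    rw [hrw]
    refine pw_radius (Z := ring 0 ρ.rz ρ.Rz) (hrw ▸ ρ'.rw_lt) hRw (sub_h hT hf) ?_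
    exact rg_mono le_rfl le_rfl (ring_mono hrz.ge hRz) (B12_sub_B2 _ _ _ hb)
  simp only [mms]
  rw [pw_cg h2 b hb, h3, h1 b hb]

/-- the part of a vector valued function on `B12` with negative exponents in `w` and `z` -/
noncomputable def mm (b₀ : Bs k) (ρ : Rd) (F : Bs k → Fin N → ℂ) (b : Bs k) : Fin N → ℂ :=
  F b - pzv b₀ ρ.rz ρ.Rz F b - pwv b₀ ρ.rw ρ.Rw (fun y => F y - pzv b₀ ρ.rz ρ.Rz F y) b

/-- Proof. `pz_hol`, `pw_hol`, restricted to `B12`. -/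
theorem mm_hol (hT : IsOpen T) {F : Bs k → Fin N → ℂ} (hF : VHol F (B12 b₀ ρ T)) :
    VHol (mm b₀ ρ F) (B12 b₀ ρ T) := by
  intro x hx i
  have h1 : HolNear (fun y => F y i) (B12 b₀ ρ T) := fun y hy => hF y hy i
  exact ((sub_h hT h1) x hx).sub (pw_h hT (sub_h hT h1) x (B12_sub_B2 _ _ _ hx))

/-- `mm` at a point over `t` only depends on the values over `t`. Proof. `pz_congr`, `pw_congr`. -/
theorem mm_congr {F G : Bs k → Fin N → ℂ} (h : ∀ b ∈ B12 b₀ ρ T, F b = G b) :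
    ∀ b ∈ B12 b₀ ρ T, mm b₀ ρ F b = mm b₀ ρ G b := by
  intro b hb
  funext i
  exact mms_congr (fun y hy => congrFun (h y hy) i) b hb

/-- Proof. `pz_add`, `pw_add`. (`pw (fun y => (F y + G y) - pz (F + G) y) = pw (fun y => (F y - pz F y) + (G y - pz G y))` by
`pw_congr` and `pz_add` on the line.) -/
theorem mm_add (hT : IsOpen T) {F G : Bs k → Fin N → ℂ} (hF : VHol F (B12 b₀ ρ T))
    (hG : VHol G (B12 b₀ ρ T)) :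
    ∀ b ∈ B12 b₀ ρ T, mm b₀ ρ (fun y => F y + G y) b = mm b₀ ρ F b + mm b₀ ρ G b := by
  intro b hb
  funext i
  exact mms_add hT (fun y hy => hF y hy i) (fun y hy => hG y hy i) b hb

/-- Proof. `pz_mul`, `pw_mul`. -/
theorem mm_mul (a : (Fin k → ℂ) → ℂ) (F : Bs k → Fin N → ℂ) (b : Bs k) :
    mm b₀ ρ (fun y => a y.1 • F y) b = a b.1 • mm b₀ ρ F b := by
  funext i
  have h1 : ∀ y, pz b₀ ρ.rz ρ.Rz (fun y => a y.1 * F y i) y =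
      a y.1 * pz b₀ ρ.rz ρ.Rz (fun y => F y i) y := fun y => pz_mul a _ y
  have h2 : (fun y => a y.1 * F y i - pz b₀ ρ.rz ρ.Rz (fun y => a y.1 * F y i) y) =
      fun y : Bs k => a y.1 * (F y i - pz b₀ ρ.rz ρ.Rz (fun y => F y i) y) := by
    funext y
    rw [h1 y]
    ring
  have h3 : mms b₀ ρ (fun y => a y.1 * F y i) b = a b.1 * mms b₀ ρ (fun y => F y i) b := by
    simp only [mms]
    rw [h2, pw_mul, h1 b]
    ring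
  exact h3

/-- **splitting.** Proof. `u₁ := pzv F` (`pz_hol`), `u₂ := pwv (F - pzv F)` (`pz_hol` restricted to `B12`, then `pw_hol`); `mm F = 0`
means `F - u₁ - u₂ = 0`. -/
theorem mm_split (hT : IsOpen T) {F : Bs k → Fin N → ℂ} (hF : VHol F (B12 b₀ ρ T))
    (h0 : ∀ b ∈ B12 b₀ ρ T, mm b₀ ρ F b = 0) :
    VHol (pzv b₀ ρ.rz ρ.Rz F) (B1 b₀ ρ T) ∧
      VHol (pwv b₀ ρ.rw ρ.Rw fun y => F y - pzv b₀ ρ.rz ρ.Rz F y) (B2 b₀ ρ T) ∧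
      ∀ b ∈ B12 b₀ ρ T, F b = pzv b₀ ρ.rz ρ.Rz F b +
        pwv b₀ ρ.rw ρ.Rw (fun y => F y - pzv b₀ ρ.rz ρ.Rz F y) b := by
  refine ⟨fun x hx i => pz_h hT (fun y hy => hF y hy i) x hx,
    fun x hx i => pw_h hT (sub_h hT fun y hy => hF y hy i) x hx, fun b hb => ?_⟩
  have h1 := h0 b hb
  unfold mm at h1
  rw [sub_sub, sub_eq_zero] at h1
  exact h1

/-- Proof. `mm_add` (and `mm_congr`) reduces to `F = F₁` and `F = F₂`. For `F₁` holomorphic on `B1`: `pz F₁ = F₁` on `B12`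
(`pz_self`, restricted), so `F₁ - pz F₁ = 0` on `B12` and `pw` of it is `0` (`pw_congr` with `g = 0`, and `pw_mul` with `a = 0` or
`DQ.F.pplus_zero`). For `F₂` holomorphic on `B2`: `pz F₂` is holomorphic on `B0` (`pz_hol`), so `F₂ - pz F₂` is holomorphic on `B2` and
`pw` of it is itself (`pw_self`). -/
theorem mm_eq_zero (hT : IsOpen T) {F F₁ F₂ : Bs k → Fin N → ℂ} (h₁ : VHol F₁ (B1 b₀ ρ T))
    (h₂ : VHol F₂ (B2 b₀ ρ T)) (h : ∀ b ∈ B12 b₀ ρ T, F b = F₁ b + F₂ b) :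
    ∀ b ∈ B12 b₀ ρ T, mm b₀ ρ F b = 0 := by
  intro b hb
  have h3 : VHol F₁ (B12 b₀ ρ T) := fun y hy => h₁ y (B12_sub_B1 _ _ _ hy)
  have h4 : VHol F₂ (B12 b₀ ρ T) := fun y hy => h₂ y (B12_sub_B2 _ _ _ hy)
  rw [mm_congr (G := fun y => F₁ y + F₂ y) h b hb, mm_add hT h3 h4 b hb]
  have h5 : mm b₀ ρ F₁ b = 0 := funext fun i => mms_zero_of_B1 hT (fun y hy => h₁ y hy i) b hb
  have h6 : mm b₀ ρ F₂ b = 0 := funext fun i => mms_zero_of_B2 hT (fun y hy => h₂ y hy i) b hb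
  rw [h5, h6, add_zero]

/-- the outer radii do not matter. Proof. `pz_radius`, `pw_radius`, `pw_congr`. -/
theorem mm_radius {ρ' : Rd} (hrw : ρ'.rw = ρ.rw) (hrz : ρ'.rz = ρ.rz) (hRw : ρ'.Rw ≤ ρ.Rw)
    (hRz : ρ'.Rz ≤ ρ.Rz) (hT : IsOpen T) {F : Bs k → Fin N → ℂ} (hF : VHol F (B12 b₀ ρ T)) :
    ∀ b ∈ B12 b₀ ρ' T, mm b₀ ρ' F b = mm b₀ ρ F b := by
  intro b hb
  funext i
  exact mms_radius hrw hrz hRw hRz hT (fun y hy => hF y hy i) b hb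

end Pool.Agent.DQ.M12
end

section

/-! Module M12: Hartogs extension over the shell, Laurent splitting. -/

set_option autoImplicit false
set_option linter.unusedSectionVars false

open Set Filter Topology Matrix

namespace Pool.Agent.DQ.M12

variable {k : ℕ} {b₀ : Bs k} {T : Set (Fin k → ℂ)} {ρ : Rd} {p q N : ℕ}

/-! ### the class of a splitting -/

/-- the section `Q u₁ = - Q u₂` of `O^q` given by the splitting `F = u₁ + u₂`, `Q F = 0` -/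
noncomputable def qf (b₀ : Bs k) (ρ : Rd) (Q : Bs k → Matrix (Fin q) (Fin N) ℂ)
    (F : Bs k → Fin N → ℂ) (b : Bs k) : Fin q → ℂ :=
  pwv b₀ ρ.rw ρ.Rw (fun y => Q y *ᵥ pzv b₀ ρ.rz ρ.Rz F y) b

/-- Proof. `mm_split`, then `hartogs_vec` with `u₁ := fun y => Q y *ᵥ pzv F y` on `B1` and `u₂ := fun y => - (Q y *ᵥ pwv (F - pzv F) y)`
on `B2`; they agree on `B12` since `Q F = 0`. -/
theorem qf_spec (hT : IsOpen T) {Q : Bs k → Matrix (Fin q) (Fin N) ℂ} (hQ : MHol Q (B0 b₀ ρ T))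
    {F : Bs k → Fin N → ℂ} (hF : VHol F (B12 b₀ ρ T))
    (h0 : ∀ b ∈ B12 b₀ ρ T, mm b₀ ρ F b = 0) (hQF : ∀ b ∈ B12 b₀ ρ T, Q b *ᵥ F b = 0) :
    VHol (qf b₀ ρ Q F) (B0 b₀ ρ T) ∧
      (∀ b ∈ B1 b₀ ρ T, qf b₀ ρ Q F b = Q b *ᵥ pzv b₀ ρ.rz ρ.Rz F b) ∧
      ∀ b ∈ B2 b₀ ρ T, qf b₀ ρ Q F b =
        - (Q b *ᵥ pwv b₀ ρ.rw ρ.Rw (fun y => F y - pzv b₀ ρ.rz ρ.Rz F y) b) := by
  obtain ⟨h1, h2, h3⟩ := mm_split hT hF h0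
  rw [mHol_iff] at hQ
  refine hartogs_vec (u₁ := fun y => Q y *ᵥ pzv b₀ ρ.rz ρ.Rz F y)
    (u₂ := fun y => - (Q y *ᵥ pwv b₀ ρ.rw ρ.Rw (fun y => F y - pzv b₀ ρ.rz ρ.Rz F y) y)) hT
    (fun x hx => (hQ x (B1_sub_B0 _ _ _ hx)).mulVec (h1 x hx))
    (fun x hx => ((hQ x (B2_sub_B0 _ _ _ hx)).mulVec (h2 x hx)).neg) fun b hb => ?_
  have h4 := hQF b hb
  rw [h3 b hb, Matrix.mulVec_add] at h4
  exact eq_neg_of_add_eq_zero_left h4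

/-- Proof. `pz_congr`, `pw_congr`. -/
theorem qf_congr {Q : Bs k → Matrix (Fin q) (Fin N) ℂ} {F G : Bs k → Fin N → ℂ}
    (h : ∀ b ∈ B12 b₀ ρ T, F b = G b) :
    ∀ b ∈ B0 b₀ ρ T, qf b₀ ρ Q F b = qf b₀ ρ Q G b := by
  intro b hb
  have hw : ‖b.2.1 - b₀.2.1‖ < ρ.Rw := by
    have h1 := hb.2.1.2
    rwa [sub_zero] at h1
  have hz : ‖b.2.2 - b₀.2.2‖ < ρ.Rz := by
    have h1 := hb.2.2.2
    rwa [sub_zero] at h1
  have key : ∀ ζ, ρ.rw < ‖ζ - b₀.2.1‖ → ‖ζ - b₀.2.1‖ < ρ.Rw →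
      pzv b₀ ρ.rz ρ.Rz F (b.1, ζ, b.2.2) = pzv b₀ ρ.rz ρ.Rz G (b.1, ζ, b.2.2) := by
    intro ζ hζ hζ'
    funext j
    have h1 := pz_congr (b₀ := b₀) (r := ρ.rz) (R := ρ.Rz) ρ.rz_lt (f := fun y => F y j)
      (g := fun y => G y j) (b := (b.1, ζ, b.2.2)) hz (fun ζ' h2 h3 => by
        have h4 : ((b.1, ζ, ζ') : Bs k) ∈ B12 b₀ ρ T := by
          refine ⟨hb.1, ⟨?_, ?_⟩, ⟨?_, ?_⟩⟩
          · rw [sub_zero]
            exact hζ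
          · rw [sub_zero]
            exact hζ'
          · rw [sub_zero]
            exact h2
          · rw [sub_zero]
            exact h3
        exact congrFun (h _ h4) j)
    exact h1
  funext i
  have h1 := pw_congr (b₀ := b₀) (r := ρ.rw) (R := ρ.Rw) ρ.rw_lt
    (f := fun y => (Q y *ᵥ pzv b₀ ρ.rz ρ.Rz F y) i)
    (g := fun y => (Q y *ᵥ pzv b₀ ρ.rz ρ.Rz G y) i) (b := b) hw (fun ζ hζ hζ' => by
      change (Q (b.1, ζ, b.2.2) *ᵥ pzv b₀ ρ.rz ρ.Rz F (b.1, ζ, b.2.2)) i =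
        (Q (b.1, ζ, b.2.2) *ᵥ pzv b₀ ρ.rz ρ.Rz G (b.1, ζ, b.2.2)) i
      rw [key ζ hζ hζ'])
  exact h1

/-- Proof. `pz_add`, `pw_add`, `Matrix.mulVec_add`, `pw_congr`. -/
theorem qf_add (hT : IsOpen T) {Q : Bs k → Matrix (Fin q) (Fin N) ℂ} (hQ : MHol Q (B0 b₀ ρ T))
    {F G : Bs k → Fin N → ℂ} (hF : VHol F (B12 b₀ ρ T)) (hG : VHol G (B12 b₀ ρ T)) :
    ∀ b ∈ B0 b₀ ρ T, qf b₀ ρ Q (fun y => F y + G y) b = qf b₀ ρ Q F b + qf b₀ ρ Q G b := by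
  intro b hb
  rw [mHol_iff] at hQ
  have hF' : ∀ j, HolNear (fun y => F y j) (rg b₀ T (ring 0 ρ.rw ρ.Rw) (ring 0 ρ.rz ρ.Rz)) :=
    fun j x hx => hF x hx j
  have hG' : ∀ j, HolNear (fun y => G y j) (rg b₀ T (ring 0 ρ.rw ρ.Rw) (ring 0 ρ.rz ρ.Rz)) :=
    fun j x hx => hG x hx j
  have key : ∀ {H : Bs k → Fin N → ℂ},
      (∀ j, HolNear (fun y => H y j) (rg b₀ T (ring 0 ρ.rw ρ.Rw) (ring 0 ρ.rz ρ.Rz))) →
      ∀ i, HolNear (fun y => (Q y *ᵥ pzv b₀ ρ.rz ρ.Rz H y) i)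
        (rg b₀ T (ring 0 ρ.rw ρ.Rw) (ring 0 (-1) ρ.Rz)) := by
    intro H hH i x hx
    exact (hQ x (B1_sub_B0 _ _ _ hx)).mulVec
      (u := fun y => pzv b₀ ρ.rz ρ.Rz H y)
      (fun j => pz_hol hT (DQ.F.isOpen_ring _ _ _) ρ.rz_lt (hH j) x hx) i
  funext i
  have h1 : pw b₀ ρ.rw ρ.Rw (fun y => (Q y *ᵥ pzv b₀ ρ.rz ρ.Rz (fun y => F y + G y) y) i) b =
      pw b₀ ρ.rw ρ.Rw (fun y => (Q y *ᵥ pzv b₀ ρ.rz ρ.Rz F y) i +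
        (Q y *ᵥ pzv b₀ ρ.rz ρ.Rz G y) i) b := by
    refine pw_congr ρ.rw_lt (by simpa using hb.2.1.2) fun ζ hζ hζ' => ?_
    have h2 : pzv b₀ ρ.rz ρ.Rz (fun y => F y + G y) (b.1, ζ, b.2.2) =
        pzv b₀ ρ.rz ρ.Rz F (b.1, ζ, b.2.2) + pzv b₀ ρ.rz ρ.Rz G (b.1, ζ, b.2.2) := by
      funext j
      exact pz_add (T := T) (W := ring 0 ρ.rw ρ.Rw) ρ.rz_lt (hF' j) (hG' j)
        ⟨hb.1, ⟨by simpa using hζ, by simpa using hζ'⟩, hb.2.2⟩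
    rw [h2, Matrix.mulVec_add]
    rfl
  exact h1.trans (pw_add (T := T) (Z := ring 0 (-1) ρ.Rz) ρ.rw_lt (key hF' i) (key hG' i) hb)

/-- Proof. `pz_mul`, `pw_mul`, `Matrix.mulVec_smul`. -/
theorem qf_mul (Q : Bs k → Matrix (Fin q) (Fin N) ℂ) (a : (Fin k → ℂ) → ℂ)
    (F : Bs k → Fin N → ℂ) (b : Bs k) :
    qf b₀ ρ Q (fun y => a y.1 • F y) b = a b.1 • qf b₀ ρ Q F b := by
  funext i
  have h1 : (fun y => (Q y *ᵥ pzv b₀ ρ.rz ρ.Rz (fun y => a y.1 • F y) y) i) =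
      fun y => a y.1 * (Q y *ᵥ pzv b₀ ρ.rz ρ.Rz F y) i := by
    funext y
    have h2 : pzv b₀ ρ.rz ρ.Rz (fun y => a y.1 • F y) y = a y.1 • pzv b₀ ρ.rz ρ.Rz F y := by
      funext j
      exact pz_mul a (fun y => F y j) y
    rw [h2, Matrix.mulVec_smul]
    rfl
  have h3 := pw_mul (b₀ := b₀) (r := ρ.rw) (R := ρ.Rw) a
    (fun y => (Q y *ᵥ pzv b₀ ρ.rz ρ.Rz F y) i) b
  rw [← h1] at h3
  exact h3

/-- **The class of `qf F` vanishes if `F` splits over a smaller shell.** Let `ρ'` have the same inner radii and smaller outer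
radii. If `F = G₁ + G₂` on `B12 ρ'` with `Q G₁ = 0` on `B1 ρ'`, `Q G₂ = 0` on `B2 ρ'`, then there is `h` on `B0 ρ'` with `qf F = Q h`.

Proof. `u₁ := pzv F`, `u₂ := pwv (F - pzv F)` (`mm_split`): `u₁ - G₁ = G₂ - u₂` on `B12 ρ'`, the left side is holomorphic on `B1 ρ'`, the
right side on `B2 ρ'` (`B1 b₀ ρ' T ⊆ B1 b₀ ρ T` etc., `rg_mono`): `hartogs_vec` gives `h` on `B0 ρ'`. On `B1 ρ'`:
`Q h = Q u₁ - Q G₁ = Q u₁ = qf F` (`qf_spec`); by `ident_vec` (both sides are holomorphic on `B0 ρ'`, `B12 ⊆ B1`) `qf F = Q h` on `B0 ρ'`. -/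
theorem qf_eq_mul {ρ' : Rd} (hrw : ρ'.rw = ρ.rw) (hrz : ρ'.rz = ρ.rz) (hRw : ρ'.Rw ≤ ρ.Rw)
    (hRz : ρ'.Rz ≤ ρ.Rz) (hT : IsOpen T) {Q : Bs k → Matrix (Fin q) (Fin N) ℂ}
    (hQ : MHol Q (B0 b₀ ρ T)) {F G₁ G₂ : Bs k → Fin N → ℂ} (hF : VHol F (B12 b₀ ρ T))
    (h0 : ∀ b ∈ B12 b₀ ρ T, mm b₀ ρ F b = 0) (hQF : ∀ b ∈ B12 b₀ ρ T, Q b *ᵥ F b = 0)
    (hG₁ : VHol G₁ (B1 b₀ ρ' T)) (hG₂ : VHol G₂ (B2 b₀ ρ' T))
    (hQ₁ : ∀ b ∈ B1 b₀ ρ' T, Q b *ᵥ G₁ b = 0) (hQ₂ : ∀ b ∈ B2 b₀ ρ' T, Q b *ᵥ G₂ b = 0)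
    (h : ∀ b ∈ B12 b₀ ρ' T, F b = G₁ b + G₂ b) :
    ∃ u : Bs k → Fin N → ℂ, VHol u (B0 b₀ ρ' T) ∧ ∀ b ∈ B0 b₀ ρ' T, qf b₀ ρ Q F b = Q b *ᵥ u b := by
  have s0 : B0 b₀ ρ' T ⊆ B0 b₀ ρ T := rg_mono le_rfl (ring_mono le_rfl hRw) (ring_mono le_rfl hRz)
  have s1 : B1 b₀ ρ' T ⊆ B1 b₀ ρ T := rg_mono le_rfl (ring_mono hrw.ge hRw) (ring_mono le_rfl hRz)
  have s2 : B2 b₀ ρ' T ⊆ B2 b₀ ρ T := rg_mono le_rfl (ring_mono le_rfl hRw) (ring_mono hrz.ge hRz)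
  have s12 : B12 b₀ ρ' T ⊆ B12 b₀ ρ T :=
    rg_mono le_rfl (ring_mono hrw.ge hRw) (ring_mono hrz.ge hRz)
  obtain ⟨h1, h2, h3⟩ := mm_split hT hF h0
  obtain ⟨q1, q2, _⟩ := qf_spec hT hQ hF h0 hQF
  rw [mHol_iff] at hQ
  obtain ⟨a1, a2, _⟩ := hartogs_vec (ρ := ρ')
    (u₁ := fun y => pzv b₀ ρ.rz ρ.Rz F y - G₁ y)
    (u₂ := fun y => G₂ y - pwv b₀ ρ.rw ρ.Rw (fun y => F y - pzv b₀ ρ.rz ρ.Rz F y) y) hT
    (fun x hx => (h1 x (s1 hx)).sub (hG₁ x hx)) (fun x hx => (hG₂ x hx).sub (h2 x (s2 hx)))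
    (fun b hb => by
      have h4 := h3 b (s12 hb)
      rw [h b hb] at h4
      rw [sub_eq_sub_iff_add_eq_add, add_comm (G₂ b)]
      exact h4.symm)
  refine ⟨_, a1, ?_⟩
  refine ident_vec (ρ := ρ') hT (fun x hx => q1 x (s0 hx))
    (fun x hx => (hQ x (s0 hx)).mulVec (a1 x hx)) fun b hb => ?_
  have hb1 : b ∈ B1 b₀ ρ' T := B12_sub_B1 _ _ _ hb
  rw [q2 b (s1 hb1), a2 b hb1, Matrix.mulVec_sub, hQ₁ b hb1, sub_zero]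

end Pool.Agent.DQ.M12
end

section

/-! Campaign DQ, module M12, block (g): the functionals `c` and the section `qf` of `ker Q'`. -/

set_option autoImplicit false
set_option linter.unusedSectionVars false

open Set Filter Topology Matrix

universe u v w

namespace Pool.Agent.DQ.M12

variable {V : Type} [NormedAddCommGroup V] [NormedSpace ℂ V] [FiniteDimensional ℂ V] {k d : ℕ}
variable {M₀ : EMod.{0, 0, w} (O V)} {σ : Sit V k d} {T₀ : Set (Fin k → ℂ)} {jw jw' jz jz' : ℝ}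
  {m N N' : ℕ} {Q : Bs k → Matrix (Fin N) (Fin m) ℂ} {Q' : Bs k → Matrix (Fin N') (Fin N) ℂ}
  {Lam : ((x : V) → M₀.St x) → Bs k → Fin m → ℂ} {T : Set (Fin k → ℂ)}

/-- the point over `t` with centred coordinates `w`, `z` -/
noncomputable def ptB (σ : Sit V k d) (w z : ℂ) (t : Fin k → ℂ) : Bs k :=
  (t, (cb σ).2.1 + w, (cb σ).2.2 + z)

omit [FiniteDimensional ℂ V] in
theorem ptB_mem {w z : ℂ} (hw : w ∈ ring 0 σ.rw σ.Rw) (hz : z ∈ ring 0 σ.rz σ.Rz)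
    {t : Fin k → ℂ} (ht : t ∈ T) : ptB σ w z t ∈ B12 (cb σ) (rd σ) T := by
  refine ⟨ht, ?_, ?_⟩
  · simp only [ptB, add_sub_cancel_left]
    exact hw
  · simp only [ptB, add_sub_cancel_left]
    exact hz

open Classical in
/-- the functionals: values of the part with negative exponents -/
noncomputable def cf (σ : Sit V k d) (Lam : ((x : V) → M₀.St x) → Bs k → Fin m → ℂ)
    (i : ℂ × ℂ × Fin m) (y : (x : V) → M₀.St x) (t : Fin k → ℂ) : ℂ :=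
  if i.1 ∈ ring 0 σ.rw σ.Rw ∧ i.2.1 ∈ ring 0 σ.rz σ.Rz then
    mm (cb σ) (rd σ) (Lam y) (ptB σ i.1 i.2.1 t) i.2.2 else 0

/-- the section of `ker Q'` attached to `y` -/
noncomputable def qy (σ : Sit V k d) (Q : Bs k → Matrix (Fin N) (Fin m) ℂ)
    (Lam : ((x : V) → M₀.St x) → Bs k → Fin m → ℂ) (y : (x : V) → M₀.St x) :
    Bs k → Fin N → ℂ := qf (cb σ) (rd σ) Q (Lam y)

omit [FiniteDimensional ℂ V] in
theorem mm_of_cf {y : (x : V) → M₀.St x} (h : ∀ i, ∀ t ∈ T, cf σ Lam i y t = 0) :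
    ∀ b ∈ B12 (cb σ) (rd σ) T, mm (cb σ) (rd σ) (Lam y) b = 0 := by
  intro b hb
  funext l
  have h1 := h (b.2.1 - (cb σ).2.1, b.2.2 - (cb σ).2.2, l) b.1 hb.1
  have h2 : ptB σ (b.2.1 - (cb σ).2.1) (b.2.2 - (cb σ).2.2) b.1 = b := by
    simp only [ptB, add_sub_cancel]
  unfold cf at h1
  rw [if_pos ⟨hb.2.1, hb.2.2⟩] at h1
  simp only at h1
  rw [h2] at h1
  exact h1

omit [FiniteDimensional ℂ V] in
theorem cf_of_mm {y : (x : V) → M₀.St x}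
    (h : ∀ b ∈ B12 (cb σ) (rd σ) T, mm (cb σ) (rd σ) (Lam y) b = 0) :
    ∀ i, ∀ t ∈ T, cf σ Lam i y t = 0 := by
  intro i t ht
  unfold cf
  by_cases hi : i.1 ∈ ring 0 σ.rw σ.Rw ∧ i.2.1 ∈ ring 0 σ.rz σ.Rz
  · rw [if_pos hi, h _ (ptB_mem hi.1 hi.2 ht)]
    rfl
  · rw [if_neg hi]

variable (H : LD M₀ σ T₀ jw jw' jz jz' Q Q' Lam) {y y' : (x : V) → M₀.St x}

include H

theorem LD.c_hol (hT : T ⊆ T₀) (hTo : IsOpen T) (hy : M₀.On y (σ.Q12 T)) (i : ℂ × ℂ × Fin m) :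
    HolNear (cf σ Lam i y) T := by
  intro t ht
  by_cases hi : i.1 ∈ ring 0 σ.rw σ.Rw ∧ i.2.1 ∈ ring 0 σ.rz σ.Rz
  · have h1 : cf σ Lam i y = fun t => mm (cb σ) (rd σ) (Lam y) (ptB σ i.1 i.2.1 t) i.2.2 := by
      funext t
      unfold cf
      rw [if_pos hi]
    rw [h1]
    refine HolAt.comp (g := ptB σ i.1 i.2.1)
      (f := fun b => mm (cb σ) (rd σ) (Lam y) b i.2.2)
      (mm_hol hTo (H.hol12 hT hTo hy) _ (ptB_mem hi.1 hi.2 ht) i.2.2)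
      (Eventually.of_forall fun t => ?_)
    unfold ptB
    fun_prop
  · have h1 : cf σ Lam i y = fun _ => 0 := by
      funext t
      unfold cf
      rw [if_neg hi]
    rw [h1]
    exact HolAt.const 0 t

theorem LD.c_add (hT : T ⊆ T₀) (hTo : IsOpen T) (hy : M₀.On y (σ.Q12 T))
    (hy' : M₀.On y' (σ.Q12 T)) (i : ℂ × ℂ × Fin m) :
    ∀ t ∈ T, cf σ Lam i (fun x => y x + y' x) t = cf σ Lam i y t + cf σ Lam i y' t := by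
  intro t ht
  unfold cf
  by_cases hi : i.1 ∈ ring 0 σ.rw σ.Rw ∧ i.2.1 ∈ ring 0 σ.rz σ.Rz
  · rw [if_pos hi, if_pos hi, if_pos hi]
    have hb := ptB_mem hi.1 hi.2 ht (σ := σ)
    rw [mm_congr (H.add12 hT hTo hy hy') _ hb,
      mm_add hTo (H.hol12 hT hTo hy) (H.hol12 hT hTo hy') _ hb]
    rfl
  · rw [if_neg hi, if_neg hi, if_neg hi, add_zero]

theorem LD.c_smul (hT : T ⊆ T₀) (hTo : IsOpen T) (hy : M₀.On y (σ.Q12 T))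
    (i : ℂ × ℂ × Fin m) {f : (Fin k → ℂ) → ℂ} (hf : HolNear f T) :
    ∀ t ∈ T, cf σ Lam i (fun x => om (σ.ft f) x • y x) t = f t * cf σ Lam i y t := by
  intro t ht
  unfold cf
  by_cases hi : i.1 ∈ ring 0 σ.rw σ.Rw ∧ i.2.1 ∈ ring 0 σ.rz σ.Rz
  · rw [if_pos hi, if_pos hi]
    have hb := ptB_mem hi.1 hi.2 ht (σ := σ)
    rw [mm_congr (H.smul12 hT hTo hy hf) _ hb, mm_mul]
    rfl
  · rw [if_neg hi, if_neg hi, mul_zero]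

theorem LD.c_congr (hT : T ⊆ T₀) (hTo : IsOpen T) (hy : M₀.On y (σ.Q12 T))
    (h : ∀ x ∈ σ.Q12 T, y x = y' x) (i : ℂ × ℂ × Fin m) :
    ∀ t ∈ T, cf σ Lam i y t = cf σ Lam i y' t := by
  intro t ht
  unfold cf
  by_cases hi : i.1 ∈ ring 0 σ.rw σ.Rw ∧ i.2.1 ∈ ring 0 σ.rz σ.Rz
  · rw [if_pos hi, if_pos hi]
    rw [mm_congr (H.congr12 hT hTo hy h) _ (ptB_mem hi.1 hi.2 ht)]
  · rw [if_neg hi, if_neg hi]

/-- the two parts of `Lam y` for a trivial class -/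
theorem LD.hzero (hT : T ⊆ T₀) (hTo : IsOpen T) (hy : M₀.On y (σ.Q12 T))
    (hz : HZero M₀ σ T y) : ∃ G₁ G₂ : Bs k → Fin m → ℂ, VHol G₁ (B1 (cb σ) (rd σ) T) ∧
      VHol G₂ (B2 (cb σ) (rd σ) T) ∧ (∀ b ∈ B1 (cb σ) (rd σ) T, Q b *ᵥ G₁ b = 0) ∧
      (∀ b ∈ B2 (cb σ) (rd σ) T, Q b *ᵥ G₂ b = 0) ∧
      ∀ b ∈ B12 (cb σ) (rd σ) T, Lam y b = G₁ b + G₂ b := by
  obtain ⟨y₁, y₂, h₁, h₂, h⟩ := hz
  have hs1 : σ.Q12 T ⊆ σ.Q1 T := by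
    rw [Q12_eq, Q1_eq]
    exact fun x hx => ⟨B12_sub_B1 _ _ _ hx.1, hx.2⟩
  have hs2 : σ.Q12 T ⊆ σ.Q2 T := by
    rw [Q12_eq, Q2_eq]
    exact fun x hx => ⟨B12_sub_B2 _ _ _ hx.1, hx.2⟩
  refine ⟨Lam y₁, fun b => -(Lam y₂ b), H.hol1 hT hTo h₁, fun b hb => (H.hol2 hT hTo h₂ b hb).neg,
    H.ker1 hT hTo h₁, fun b hb => ?_, H.sub12 hT hTo hy (fun x hx => h₁ x (hs1 hx))
      (fun x hx => h₂ x (hs2 hx)) h⟩
  rw [Matrix.mulVec_neg, H.ker2 hT hTo h₂ b hb, neg_zero]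

theorem LD.c_zero (hT : T ⊆ T₀) (hTo : IsOpen T) (hy : M₀.On y (σ.Q12 T))
    (hz : HZero M₀ σ T y) : ∀ i, ∀ t ∈ T, cf σ Lam i y t = 0 := by
  obtain ⟨G₁, G₂, h₁, h₂, -, -, h⟩ := H.hzero hT hTo hy hz
  exact cf_of_mm (mm_eq_zero hTo h₁ h₂ h)

variable (hT : T ⊆ T₀) (hTo : IsOpen T)

include hT hTo

theorem LD.qy_hol (hy : M₀.On y (σ.Q12 T)) (h0 : ∀ i, ∀ t ∈ T, cf σ Lam i y t = 0) :
    VHol (qy σ Q Lam y) (B0 (cb σ) (rd σ) T) :=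
  (qf_spec hTo (H.Q_hol hT) (H.hol12 hT hTo hy) (mm_of_cf h0) (H.ker12 hT hTo hy)).1

theorem LD.qy_ker (hy : M₀.On y (σ.Q12 T)) (h0 : ∀ i, ∀ t ∈ T, cf σ Lam i y t = 0) :
    ∀ b ∈ B0 (cb σ) (rd σ) T, gmat Q' b *ᵥ gvec (qy σ Q Lam y) b = 0 := by
  have hsp := qf_spec hTo (H.Q_hol hT) (H.hol12 hT hTo hy) (mm_of_cf h0) (H.ker12 hT hTo hy)
  have h1 : ∀ b ∈ B0 (cb σ) (rd σ) T, Q' b *ᵥ qy σ Q Lam y b = 0 := by
    refine ident_vec (f := fun b => Q' b *ᵥ qy σ Q Lam y b) (g := fun _ => 0) hTo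
      (fun b hb => (H.Q'_at (H.B0_sub hT hb)).mulVec (H.qy_hol hT hTo hy h0 b hb))
      (fun b _ => VHolAt.zero b) ?_
    intro b hb
    have h2 := hsp.2.1 b (B12_sub_B1 _ _ _ hb)
    change Q' b *ᵥ qf (cb σ) (rd σ) Q (Lam y) b = 0
    rw [h2, Matrix.mulVec_mulVec,
      H.lam.comp b (H.B0_sub hT (B1_sub_B0 _ _ _ (B12_sub_B1 _ _ _ hb))), Matrix.zero_mulVec]
  intro b hb
  have h2 := H.Q'_at (H.B0_sub hT hb)
  have h3 := H.qy_hol hT hTo hy h0 b hb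
  rw [← gmat_mulVec h2 h3, ← gvec_zero b]
  refine gvec_congr (h2.mulVec h3) ?_
  filter_upwards [(isOpen_B0 hTo).mem_nhds hb] with x hx
  exact h1 x hx

theorem LD.qy_add (hy : M₀.On y (σ.Q12 T)) (hy' : M₀.On y' (σ.Q12 T)) :
    ∀ b ∈ B0 (cb σ) (rd σ) T,
      qy σ Q Lam (fun x => y x + y' x) b = qy σ Q Lam y b + qy σ Q Lam y' b := by
  intro b hb
  unfold qy
  rw [qf_congr (H.add12 hT hTo hy hy') b hb]
  exact qf_add hTo (H.Q_hol hT) (H.hol12 hT hTo hy) (H.hol12 hT hTo hy') b hb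

theorem LD.qy_smul (hy : M₀.On y (σ.Q12 T)) {f : (Fin k → ℂ) → ℂ} (hf : HolNear f T) :
    ∀ b ∈ B0 (cb σ) (rd σ) T,
      qy σ Q Lam (fun x => om (σ.ft f) x • y x) b = f b.1 • qy σ Q Lam y b := by
  intro b hb
  unfold qy
  rw [qf_congr (H.smul12 hT hTo hy hf) b hb]
  exact qf_mul Q f (Lam y) b

theorem LD.qy_congr (hy : M₀.On y (σ.Q12 T)) (h : ∀ x ∈ σ.Q12 T, y x = y' x) :
    ∀ b ∈ B0 (cb σ) (rd σ) T, qy σ Q Lam y b = qy σ Q Lam y' b := by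
  intro b hb
  exact qf_congr (H.congr12 hT hTo hy h) b hb

theorem LD.qy_zero (hy : M₀.On y (σ.Q12 T)) (hz : HZero M₀ σ T y) :
    ∀ b ∈ B0 (cb σ) (rd σ) T, ∃ u, gmat Q b *ᵥ u = gvec (qy σ Q Lam y) b := by
  obtain ⟨G₁, G₂, h₁, h₂, hq₁, hq₂, h⟩ := H.hzero hT hTo hy hz
  obtain ⟨u, hu, he⟩ := qf_eq_mul (ρ' := rd σ) (ρ := rd σ) rfl rfl le_rfl le_rfl hTo (H.Q_hol hT)
    (H.hol12 hT hTo hy) (mm_eq_zero hTo h₁ h₂ h) (H.ker12 hT hTo hy) h₁ h₂ hq₁ hq₂ h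
  intro b hb
  refine ⟨gvec u b, ?_⟩
  have h3 := H.Q_at (H.B0_sub hT hb)
  rw [← gmat_mulVec h3 (hu b hb)]
  refine (gvec_congr (H.qy_hol hT hTo hy (H.c_zero hT hTo hy hz) b hb) ?_).symm
  filter_upwards [(isOpen_B0 hTo).mem_nhds hb] with x hx
  exact he x hx

end Pool.Agent.DQ.M12
end

section

/-! Campaign DQ, module M12, block (f), file MFL1: the Hartogs property of the kernel sheaf. -/

set_option autoImplicit false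
set_option linter.unusedVariables false
set_option linter.unusedSectionVars false

open Set Filter Topology Matrix

namespace Pool.Agent.DQ

namespace MF

open M12

section Hart

variable {V : Type} [NormedAddCommGroup V] [NormedSpace ℂ V] [FiniteDimensional ℂ V] {k d : ℕ}
  {σ : Sit V k d} {m N : ℕ} {Q : Bs k → Matrix (Fin N) (Fin m) ℂ} {T : Set (Fin k → ℂ)}

theorem mem_bx_rg {T : Set (Fin k → ℂ)} {r₁ R₁ r₂ R₂ : ℝ} {b : Bs k} :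
    b ∈ σ.bx T r₁ R₁ r₂ R₂ ↔ b ∈ rg (σ.e σ.y₀).1 T (ring 0 r₁ R₁) (ring 0 r₂ R₂) := by
  simp only [Sit.bx, rg, ring, mem_prod, mem_ofPred_eq, sub_zero, Sit.bw, Sit.bz]

theorem isOpen_bx_L (σ : Sit V k d) {T : Set (Fin k → ℂ)} (hT : IsOpen T) (r₁ R₁ r₂ R₂ : ℝ) :
    IsOpen (σ.bx T r₁ R₁ r₂ R₂) := by
  have h : σ.bx T r₁ R₁ r₂ R₂ = rg (σ.e σ.y₀).1 T (ring 0 r₁ R₁) (ring 0 r₂ R₂) := by
    ext b
    exact mem_bx_rg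
  rw [h]
  exact isOpen_rg hT (DQ.F.isOpen_ring _ _ _) (DQ.F.isOpen_ring _ _ _)

theorem isOpen_shell_L (σ : Sit V k d) {T : Set (Fin k → ℂ)} (hT : IsOpen T) (a A b B : ℝ) :
    IsOpen (M12.shell σ T a A b B) :=
  (isOpen_bx_L σ hT _ _ _ _).union (isOpen_bx_L σ hT _ _ _ _)

theorem bx_mono_L {T T' : Set (Fin k → ℂ)} (hT : T ⊆ T') {r₁ R₁ r₂ R₂ r₁' R₁' r₂' R₂' : ℝ}
    (h1 : r₁' ≤ r₁) (h2 : R₁ ≤ R₁') (h3 : r₂' ≤ r₂) (h4 : R₂ ≤ R₂') :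
    σ.bx T r₁ R₁ r₂ R₂ ⊆ σ.bx T' r₁' R₁' r₂' R₂' := by
  rintro b ⟨h, ⟨h5, h6⟩, h7, h8⟩
  exact ⟨hT h, ⟨h1.trans_lt h5, h6.trans_le h2⟩, h3.trans_lt h7, h8.trans_le h4⟩

theorem shell_mono_L {T T' : Set (Fin k → ℂ)} (hT : T ⊆ T') {a A b B a' A' b' B' : ℝ}
    (h1 : a' ≤ a) (h2 : A ≤ A') (h3 : b' ≤ b) (h4 : B ≤ B') :
    M12.shell σ T a A b B ⊆ M12.shell σ T' a' A' b' B' :=
  union_subset_union (bx_mono_L hT h1 h2 le_rfl h4) (bx_mono_L hT le_rfl h2 h3 h4)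

theorem ring_sub_disc {c : ℂ} {r R : ℝ} {z : ℂ} (h : z ∈ ring c r R) : z ∈ ring c (-1) R :=
  ⟨lt_of_lt_of_le (by norm_num) (norm_nonneg _), h.2⟩

theorem shell_sub_bx {T : Set (Fin k → ℂ)} {a A b B : ℝ} :
    M12.shell σ T a A b B ⊆ σ.bx T (-1) A (-1) B := by
  rintro x (⟨h1, h2, h3⟩ | ⟨h1, h2, h3⟩)
  · exact ⟨h1, ring_sub_disc h2, h3⟩
  · exact ⟨h1, h2, ring_sub_disc h3⟩

/-- Hartogs for vectors of functions -/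
theorem hart_vec {T : Set (Fin k → ℂ)} (hT : IsOpen T) {a A b B : ℝ} (ha : 0 < a) (haA : a < A)
    (hb : 0 < b) (hbB : b < B) {u : Bs k → Fin m → ℂ} (hu : VHol u (M12.shell σ T a A b B)) :
    ∃ u' : Bs k → Fin m → ℂ, VHol u' (σ.bx T (-1) A (-1) B) ∧
      ∀ x ∈ M12.shell σ T a A b B, u' x = u x := by
  let ρ : Rd := ⟨a, A, b, B, ha, haA, hb, hbB⟩
  have e1 : ∀ x, x ∈ B1 (σ.e σ.y₀).1 ρ T ↔ x ∈ σ.bx T a A (-1) B := fun x => mem_bx_rg.symm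
  have e2 : ∀ x, x ∈ B2 (σ.e σ.y₀).1 ρ T ↔ x ∈ σ.bx T (-1) A b B := fun x => mem_bx_rg.symm
  have e0 : ∀ x, x ∈ B0 (σ.e σ.y₀).1 ρ T ↔ x ∈ σ.bx T (-1) A (-1) B := fun x => mem_bx_rg.symm
  obtain ⟨h1, h2, h3⟩ := hartogs_vec (b₀ := (σ.e σ.y₀).1) (ρ := ρ) hT (u₁ := u) (u₂ := u)
    (fun x hx => hu x (Or.inl ((e1 x).mp hx))) (fun x hx => hu x (Or.inr ((e2 x).mp hx)))
    (fun x hx => rfl)
  refine ⟨_, fun x hx => h1 x ((e0 x).mpr hx), ?_⟩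
  rintro x (hx | hx)
  · exact h2 x ((e1 x).mpr hx)
  · exact h3 x ((e2 x).mpr hx)

/-- uniqueness for vectors of functions -/
theorem uniq_vec {T : Set (Fin k → ℂ)} (hT : IsOpen T) {a A b B : ℝ} (ha : 0 < a) (haA : a < A)
    (hb : 0 < b) (hbB : b < B) {p : ℕ} {u : Bs k → Fin p → ℂ}
    (hu : VHol u (σ.bx T (-1) A (-1) B)) (h0 : ∀ x ∈ M12.shell σ T a A b B, u x = 0) :
    ∀ x ∈ σ.bx T (-1) A (-1) B, u x = 0 := by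
  let ρ : Rd := ⟨a, A, b, B, ha, haA, hb, hbB⟩
  have e0 : ∀ x, x ∈ B0 (σ.e σ.y₀).1 ρ T ↔ x ∈ σ.bx T (-1) A (-1) B := fun x => mem_bx_rg.symm
  have h := ident_vec (b₀ := (σ.e σ.y₀).1) (ρ := ρ) hT (f := u) (g := fun _ => 0)
    (fun x hx => hu x ((e0 x).mp hx)) (fun x hx => VHolAt.zero x)
    (fun x hx => h0 x (Or.inl (mem_bx_rg.mpr (B12_sub_B1 _ _ _ hx))))
  exact fun x hx => h x ((e0 x).mpr hx)

/-- Hartogs for sections of the kernel sheaf -/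
theorem ks_hart {T : Set (Fin k → ℂ)} (hT : IsOpen T) {a A b B : ℝ} (ha : 0 < a) (haA : a < A)
    (hb : 0 < b) (hbB : b < B) (hQ : ∀ x ∈ σ.bx T (-1) A (-1) B, MHolAt Q x)
    {s : (b : Bs k) → (ks Q).St b} (hs : (ks Q).On s (M12.shell σ T a A b B)) :
    ∃ s', (ks Q).On s' (σ.bx T (-1) A (-1) B) ∧ ∀ x ∈ M12.shell σ T a A b B, s' x = s x := by
  have hk := fun x (hx : x ∈ M12.shell σ T a A b B) => kval_at (hQ x (shell_sub_bx hx)) (hs x hx)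
  obtain ⟨u', hu', he⟩ := hart_vec (σ := σ) hT ha haA hb hbB (u := kval Q s)
    fun x hx => (hk x hx).1
  have hz : ∀ x ∈ σ.bx T (-1) A (-1) B, Q x *ᵥ u' x = 0 := by
    refine uniq_vec (σ := σ) hT ha haA hb hbB (u := fun x => Q x *ᵥ u' x)
      (fun x hx => (hQ x hx).mulVec (hu' x hx)) fun x hx => ?_
    rw [he x hx]
    exact (hk x hx).2.1.self_of_nhds
  have hz' : ∀ x ∈ σ.bx T (-1) A (-1) B, ∀ᶠ y in 𝓝 x, Q y *ᵥ u' y = 0 := fun x hx => by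
    filter_upwards [(isOpen_bx_L σ hT _ _ _ _).mem_nhds hx] with y hy using hz y hy
  refine ⟨kmk Q u', fun x hx => kmk_at (hQ x hx) (hu' x hx) (hz' x hx), fun x hx => ?_⟩
  rw [(hk x hx).2.2.self_of_nhds]
  refine kmk_congr (hQ x (shell_sub_bx hx)) (hu' x (shell_sub_bx hx)) (hz' x (shell_sub_bx hx)) ?_
  filter_upwards [(isOpen_shell_L σ hT a A b B).mem_nhds hx] with y hy using he y hy

/-- uniqueness for sections of the kernel sheaf -/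
theorem ks_uniq {T : Set (Fin k → ℂ)} (hT : IsOpen T) {a A b B : ℝ} (ha : 0 < a) (haA : a < A)
    (hb : 0 < b) (hbB : b < B) (hQ : ∀ x ∈ σ.bx T (-1) A (-1) B, MHolAt Q x)
    {s : (b : Bs k) → (ks Q).St b} (hs : (ks Q).On s (σ.bx T (-1) A (-1) B))
    (h0 : ∀ x ∈ M12.shell σ T a A b B, s x = 0) : ∀ x ∈ σ.bx T (-1) A (-1) B, s x = 0 := by
  have hk := fun x (hx : x ∈ σ.bx T (-1) A (-1) B) => kval_at (hQ x hx) (hs x hx)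
  have h1 : ∀ x ∈ σ.bx T (-1) A (-1) B, kval Q s x = 0 := by
    refine uniq_vec (σ := σ) hT ha haA hb hbB (fun x hx => (hk x hx).1) fun x hx => ?_
    funext l
    change ev x (kv Q x (s x) l) = 0
    rw [h0 x hx, map_zero]
    exact map_zero _
  intro x hx
  rw [(hk x hx).2.2.self_of_nhds]
  have h2 : kmk Q (kval Q s) x = kmk Q (fun _ => 0) x := by
    refine kmk_congr (hQ x hx) (hk x hx).1 (hk x hx).2.1 ?_
    filter_upwards [(isOpen_bx_L σ hT _ _ _ _).mem_nhds hx] with y hy using h1 y hy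
  rw [h2]
  apply kv_inj
  rw [kv_kmk (hQ x hx) (VHolAt.zero x) (Eventually.of_forall fun y => Matrix.mulVec_zero _),
    map_zero, gvec_zero]

end Hart

end MF

end Pool.Agent.DQ
end
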