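import Pool.Agent.Lib.MP_4aa2a9_ag.Mg.G016
import Pool.Agent.Lib.MP_4aa2a9_ag.Mg.G019
import Pool.Agent.Lib.MP_4aa2a9_ag.Mg.G012
import Pool.Agent.Lib.MP_4aa2a9_ag.Mg.G003
import Pool.Agent.Lib.MP_4aa2a9_ag.Mg.G020
import Pool.Agent.Lib.MP_4aa2a9_ag.Mg.G022
import Pool.Agent.Lib.MP_4aa2a9_ag.Mg.G024
import Pool.Agent.Lib.MP_4aa2a9_ag.Mg.G017

section

/-! Module M12: existence of frames near products of discs and one annulus. -/

set_option autoImplicit false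
set_option linter.unusedSectionVars false

open Set Filter Topology Matrix

universe u v w

namespace Pool.Agent.DQ.M12

variable {B : Type u} [NormedAddCommGroup B] [NormedSpace ℂ B] {n m p q N : ℕ}

private theorem M12FrbC_alg {R : Type v} [CommRing R] {M : Type w} [AddCommGroup M] [Module R M]
    {p q m : ℕ} (u : Fin p → M) (hu : Submodule.span R (range u) = ⊤)
    (ρ : Matrix (Fin p) (Fin q) R)
    (hρ : ∀ a : Fin p → R, ∑ i, a i • u i = 0 ↔ ∃ d, ρ *ᵥ d = a)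
    (Y : Matrix (Fin q) (Fin p) R) (P : Matrix (Fin p) (Fin p) R) (hP : P = 1 - ρ * Y)
    (hPρ : P * ρ = 0) (A : Matrix (Fin p) (Fin m) R) (A' : Matrix (Fin m) (Fin p) R)
    (h1 : A * A' = P) (h2 : A' * A = 1) :
    ∀ t : M, ∃! c : Fin m → R, t = ∑ j, c j • ∑ i, A i j • u i := by
  let D : (Fin p → R) →ₗ[R] M := Fintype.linearCombination R u
  have hD : ∀ a, D a = ∑ i, a i • u i := fun a => rfl
  have hcomb : ∀ c : Fin m → R, ∑ j, c j • ∑ i, A i j • u i = D (A *ᵥ c) := by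
    intro c
    rw [hD]
    simp only [Finset.smul_sum, Matrix.mulVec, dotProduct, Finset.sum_smul]
    rw [Finset.sum_comm]
    refine Finset.sum_congr rfl fun i _ => Finset.sum_congr rfl fun j _ => ?_
    rw [smul_smul, mul_comm]
  have hDP : ∀ a, D (P *ᵥ a) = D a := by
    intro a
    have h3 : D (ρ *ᵥ (Y *ᵥ a)) = 0 := (hρ _).mpr ⟨_, rfl⟩
    rw [hP, Matrix.sub_mulVec, Matrix.one_mulVec, map_sub, ← Matrix.mulVec_mulVec, h3, sub_zero]
  intro t
  obtain ⟨a, ha⟩ := mem_span_fam.mp (show t ∈ Submodule.span R (range u) by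
    rw [hu]; exact Submodule.mem_top)
  refine ⟨A' *ᵥ a, ?_, ?_⟩
  · change t = ∑ j, (A' *ᵥ a) j • ∑ i, A i j • u i
    rw [hcomb, Matrix.mulVec_mulVec, h1, hDP]
    exact ha
  · intro c hc
    have hc' : t = ∑ j, c j • ∑ i, A i j • u i := hc
    rw [hcomb] at hc'
    have h3 : D (A *ᵥ (c - A' *ᵥ a)) = 0 := by
      rw [Matrix.mulVec_sub, map_sub, ← hc', Matrix.mulVec_mulVec, h1, hDP, ha]
      exact sub_self _
    obtain ⟨d, hd⟩ := (hρ _).mp h3
    have h4 : P *ᵥ (A *ᵥ (c - A' *ᵥ a)) = 0 := by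
      rw [← hd, Matrix.mulVec_mulVec, hPρ, Matrix.zero_mulVec]
    have h5 : P *ᵥ (A *ᵥ (c - A' *ᵥ a)) = A *ᵥ (c - A' *ᵥ a) := by
      rw [Matrix.mulVec_mulVec, ← h1, Matrix.mul_assoc, h2, Matrix.mul_one]
    rw [h5] at h4
    have h6 : A' *ᵥ (A *ᵥ (c - A' *ᵥ a)) = c - A' *ᵥ a := by
      rw [Matrix.mulVec_mulVec, h2, Matrix.one_mulVec]
    rw [h4, Matrix.mulVec_zero] at h6
    exact sub_eq_zero.mp h6.symm

private theorem M12FrbC_sys (κ : B ≃L[ℂ] (Fin N → ℂ)) (c : Fin N → ℂ) (r₀ R : Fin N → ℝ)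
    (ρ : B → Matrix (Fin p) (Fin q) ℂ) (hρ : MHol ρ (cbox κ c r₀ R))
    (h : ∀ x ∈ cbox κ c r₀ R, ∃ Y : Matrix (Fin q) (Fin p) ((O B).St x),
      gmat ρ x * Y * gmat ρ x = gmat ρ x) :
    ∃ Y : B → Matrix (Fin q) (Fin p) ℂ, MHol Y (cbox κ c r₀ R) ∧
      ∀ x ∈ cbox κ c r₀ R, gmat ρ x * gmat Y x * gmat ρ x = gmat ρ x := by
  have hρ' := mHol_iff.mp hρ
  let e1 : Fin p × Fin q ≃ Fin (p * q) := finProdFinEquiv
  let e2 : Fin q × Fin p ≃ Fin (q * p) := finProdFinEquiv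
  let C : B → Matrix (Fin (p * q)) (Fin (q * p)) ℂ := fun y => Matrix.of fun a b =>
    ρ y (e1.symm a).1 (e2.symm b).1 * ρ y (e2.symm b).2 (e1.symm a).2
  let rhs : B → Fin (p * q) → ℂ := fun y a => ρ y (e1.symm a).1 (e1.symm a).2
  have hC : MHol C (cbox κ c r₀ R) := mHol_iff.mpr fun x hx a b =>
    (hρ' x hx _ _).mul (hρ' x hx _ _)
  have hrhs : VHol rhs (cbox κ c r₀ R) := fun x hx a => hρ' x hx _ _
  have key : ∀ x ∈ cbox κ c r₀ R, ∀ Y : Matrix (Fin q) (Fin p) ((O B).St x), ∀ a,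
      (gmat C x *ᵥ fun b => Y (e2.symm b).1 (e2.symm b).2) a =
        (gmat ρ x * Y * gmat ρ x) (e1.symm a).1 (e1.symm a).2 := by
    intro x hx Y a
    change ∑ b, gmat C x a b * Y (e2.symm b).1 (e2.symm b).2 = _
    have h1 : ∀ b, gmat C x a b = gmat ρ x (e1.symm a).1 (e2.symm b).1 *
        gmat ρ x (e2.symm b).2 (e1.symm a).2 := fun b =>
      om_mul (hρ' x hx _ _) (hρ' x hx _ _)
    simp only [h1]
    rw [← Equiv.sum_comp e2]
    simp only [Equiv.symm_apply_apply]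
    rw [Fintype.sum_prod_type, Matrix.mul_apply]
    simp only [Matrix.mul_apply, Finset.sum_mul]
    rw [Finset.sum_comm]
    refine Finset.sum_congr rfl fun i' _ => Finset.sum_congr rfl fun l' _ => ?_
    ring
  obtain ⟨u, hu, hue⟩ := lin_solve κ c r₀ R C hC rhs hrhs (fun x hx => by
    obtain ⟨Y, hY⟩ := h x hx
    refine ⟨fun b => Y (e2.symm b).1 (e2.symm b).2, ?_⟩
    funext a
    rw [key x hx Y a, hY]
    rfl)
  refine ⟨fun y => Matrix.of fun l i => u y (e2 (l, i)), mHol_iff.mpr fun x hx l i => hu x hx _,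
    fun x hx => ?_⟩
  ext1 i l
  have h1 := key x hx (gmat (fun y => Matrix.of fun l i => u y (e2 (l, i))) x) (e1 (i, l))
  rw [Equiv.symm_apply_apply] at h1
  rw [← h1]
  have h2 := congrFun (hue x hx) (e1 (i, l))
  have h3 : (fun b => gmat (fun y => Matrix.of fun l i => u y (e2 (l, i))) x (e2.symm b).1
      (e2.symm b).2) = gvec u x := by
    funext b
    change om (fun y => u y (e2 ((e2.symm b).1, (e2.symm b).2))) x = om (fun y => u y b) x
    rw [Prod.mk.eta, Equiv.apply_symm_apply]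
  rw [h3, h2]
  change om (fun y => ρ y (e1.symm (e1 (i, l))).1 (e1.symm (e1 (i, l))).2) x = _
  rw [Equiv.symm_apply_apply]
  rfl

private theorem M12FrbC_spread {F : EMod.{u, u, w} (O B)} {b : B} (hd : b ∈ F.dom)
    {f₀ : Fin n → (b : B) → F.St b} {f : Fin m → (b : B) → F.St b} (h₀ : ∀ i, F.At (f₀ i) b)
    (h₀' : ∀ᶠ b' in 𝓝 b, ∀ t : F.St b', ∃! a : Fin n → (O B).St b', t = ∑ i, a i • f₀ i b')
    (h : ∀ j, F.At (f j) b)
    (hb : ∀ t : F.St b, ∃! a : Fin m → (O B).St b, t = ∑ i, a i • f i b) :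
    ∀ᶠ b' in 𝓝 b, ∀ t : F.St b', ∃! a : Fin m → (O B).St b', t = ∑ i, a i • f i b' := by
  classical
  choose G hG hGe using fun j => F.near_comb hd (h j) h₀ (by
    obtain ⟨a, ha⟩ := (h₀'.self_of_nhds (f j b)).exists
    exact mem_span_fam.mpr ⟨a, ha⟩)
  choose G' hG' hG'e using fun i => F.near_comb hd (h₀ i) h (by
    obtain ⟨a, ha⟩ := (hb (f₀ i b)).exists
    exact mem_span_fam.mpr ⟨a, ha⟩)
  have hdO : b ∈ (O B).dom := mem_univ b
  have hsec : ∀ j j', (O B).At (fun y => ∑ i, G j i y * G' i j' y) b := by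
    intro j j'
    have h1 := (O B).sum (Finset.univ : Finset (Fin n)) (s := fun i => G j i * G' i j') hdO
      fun i _ => (O B).mul (hG j i) (hG' i j')
    refine (O B).congr h1 (Eventually.of_forall fun y => ?_)
    rw [Finset.sum_apply]
    rfl
  have hone : ∀ j j' : Fin m, (O B).At (fun y => if j = j' then (1 : (O B).St y) else 0) b := by
    intro j j'
    by_cases hjj : j = j'
    · simp only [if_pos hjj]
      exact (O B).one b hdO
    · simp only [if_neg hjj]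
      exact (O B).zero b hdO
  have hcol : ∀ {y : B} (c : Fin m → (O B).St y), (∀ j, f j y = ∑ i, G j i y • f₀ i y) →
      ∑ j, c j • f j y = ∑ i, (∑ j, c j * G j i y) • f₀ i y := by
    intro y c hy
    simp only [Finset.sum_smul]
    rw [Finset.sum_comm]
    refine Finset.sum_congr rfl fun j _ => ?_
    rw [hy j, Finset.smul_sum]
    exact Finset.sum_congr rfl fun i _ => (mul_smul _ _ _).symm
  have hcol' : ∀ {y : B} (c : Fin n → (O B).St y), (∀ i, f₀ i y = ∑ j, G' i j y • f j y) →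
      ∑ i, c i • f₀ i y = ∑ j, (∑ i, c i * G' i j y) • f j y := by
    intro y c hy
    simp only [Finset.sum_smul]
    rw [Finset.sum_comm]
    refine Finset.sum_congr rfl fun j _ => ?_
    rw [hy j, Finset.smul_sum]
    exact Finset.sum_congr rfl fun i _ => (mul_smul _ _ _).symm
  have hE : ∀ j j', ∀ᶠ y in 𝓝 b, ∑ i, G j i y * G' i j' y = if j = j' then 1 else 0 := by
    intro j j'
    refine (O B).inj (hsec j j') (hone j j') ?_
    have h1 : (fun j' => ∑ i, G j i b * G' i j' b) =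
        fun j' => if j = j' then (1 : (O B).St b) else 0 := by
      refine (hb (f j b)).unique ?_ ?_
      · change f j b = ∑ j', (∑ i, G j i b * G' i j' b) • f j' b
        rw [← hcol' (fun i => G j i b) fun i => (hG'e i).self_of_nhds]
        exact (hGe j).self_of_nhds
      · change f j b = ∑ j', (if j = j' then (1 : (O B).St b) else 0) • f j' b
        rw [Finset.sum_eq_single j]
        · rw [if_pos rfl, one_smul]
        · intro i _ hi
          rw [if_neg hi.symm, zero_smul]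
        · intro hj
          exact absurd (Finset.mem_univ j) hj
    exact congrFun h1 j'
  filter_upwards [eventually_all.mpr hGe, eventually_all.mpr hG'e, h₀',
    eventually_all.mpr fun j => eventually_all.mpr (hE j)] with y y1 y2 y3 y4
  intro t
  obtain ⟨a, ha⟩ := (y3 t).exists
  have hinv : ∀ c : Fin m → (O B).St y, ∀ j', c j' = ∑ i, (∑ j, c j * G j i y) * G' i j' y := by
    intro c j'
    have h1 : ∑ i, (∑ j, c j * G j i y) * G' i j' y =
        ∑ j, c j * ∑ i, G j i y * G' i j' y := by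
      simp only [Finset.sum_mul, Finset.mul_sum]
      rw [Finset.sum_comm]
      exact Finset.sum_congr rfl fun j _ => Finset.sum_congr rfl fun i _ => mul_assoc _ _ _
    rw [h1]
    simp only [y4]
    rw [Finset.sum_eq_single j']
    · rw [if_pos rfl, mul_one]
    · intro i _ hi
      rw [if_neg hi, mul_zero]
    · intro hj
      exact absurd (Finset.mem_univ _) hj
  refine ⟨fun j => ∑ i, a i * G' i j y, ?_, ?_⟩
  · change t = ∑ j, (∑ i, a i * G' i j y) • f j y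
    rw [← hcol' a y2]
    exact ha
  · intro c hc
    have hc' : t = ∑ j, c j • f j y := hc
    rw [hcol c y1] at hc'
    have h1 := (y3 t).unique hc' ha
    funext j'
    rw [hinv c j']
    exact Finset.sum_congr rfl fun i _ => by rw [← h1]

/-- **Existence of frames.**

Proof. `K = cbox κ c r₀ R`. `F` is coherent on `K` (`coh_of_freeAt`). `cartanA`: generators `u i`, `i < p`. `exists_rel`: `ρ` (`p × q`), the columns
generate the relations at the points of `K`. At every `b ∈ K`: `exists_split` (basis `f` of `F_b` from `FreeAt`) gives `Y_b` with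
`gmat ρ b * Y_b * gmat ρ b = gmat ρ b`. This is a linear system for the `q * p` entries of `Y`: with the isomorphisms `Fin q × Fin p ≃ Fin (q * p)`,
`Fin p × Fin q ≃ Fin (p * q)` (`finProdFinEquiv`) the matrix `C (i, l) (l', i') := ρ i l' * ρ i' l` and the right hand side `(i, l) ↦ ρ i l`;
`lin_solve` gives a holomorphic `Y` near `K` with `gmat ρ b * gmat Y b * gmat ρ b = gmat ρ b` on `K`.
`Π := 1 - ρ Y`: `Π ρ = 0` and `Π * Π = Π` (germs). `idem_split`: `Π = A A'`, `A' A = 1` (`m`). Put `f j := ∑ i, om (A i j) • u i` (`F.at_comb`).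
At `b ∈ K` write `u·a := ∑ i, a i • u i b`. `u·(Π a) = u·a` since `u·(ρ d) = 0`; if `u·a = 0` then `a = ρ d`, so `Π a = 0`.
Generation: `t = u·a = u·(A (A' a)) = ∑ j, (A' a) j • f j`. Uniqueness: if `∑ j, c j • f j b = 0` then `u·(A c) = 0`, so `0 = Π A c = A c` and
`c = A' A c = 0`. So `f` (`m` elements) is a basis of `F_b` for all `b ∈ K`, and also of `F_{b'}` for `b'` near `K`: the `m × m`… for `b'` near `b` use
that `F` is free at `b`: near `b` a frame `f₀` with `n` elements, `f = f₀ G` with `G` (`n × m`) a matrix of functions near `b` with two sided inverse germ at `b`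
(express `f₀` by `f` at `b`), so the identities `G G' = 1`, `G' G = 1` hold near `b` and `f` is a basis of `F_{b'}` for `b'` near `b`.
`m = n` by `rank_unique` (at some point of `K`, which is nonempty: `κ.symm` of `c` with `c i₀ + r₀ i₀` at `i₀`; germs of functions form a nontrivial ring). -/
theorem exists_frame (κ : B ≃L[ℂ] (Fin N → ℂ)) (c : Fin N → ℂ) (r₀ R : Fin N → ℝ) (i₀ : Fin N)
    (h0 : 0 < r₀ i₀) (h1 : r₀ i₀ ≤ R i₀) (hr : ∀ i, i ≠ i₀ → r₀ i ≤ 0) (hR : ∀ i, 0 ≤ R i)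
    (F : EMod.{u, u, w} (O B)) (hF : ∀ b ∈ cbox κ c r₀ R, FreeAt F n b) :
    ∃ f : Fin n → (b : B) → F.St b, IsFrame F f (cbox κ c r₀ R) := by
  classical
  have hfd : FiniteDimensional ℂ B := κ.symm.toLinearEquiv.finiteDimensional
  rcases Nat.eq_zero_or_pos n with hn | hn
  · subst hn
    refine ⟨fun i => i.elim0, fun b hb => ⟨fun i => i.elim0, ?_⟩⟩
    obtain ⟨f₀, -, h2⟩ := hF b hb
    filter_upwards [h2] with y hy
    have h3 : f₀ = fun i => i.elim0 := funext fun i => i.elim0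
    rw [h3] at hy
    exact hy
  have hS : cbox κ c r₀ R ⊆ F.dom := by
    intro b hb
    obtain ⟨f₀, h2, -⟩ := hF b hb
    exact F.mem_dom (h2 ⟨0, hn⟩)
  have hcoh : F.Coh (cbox κ c r₀ R) := coh_of_freeAt hF hS
  obtain ⟨p, u, hu, hgen⟩ := cartanA κ c r₀ R F hcoh
  obtain ⟨q, ρ, hρ, hrel⟩ := exists_rel κ c r₀ R F hcoh u hu
  have hρ' := mHol_iff.mp hρ
  obtain ⟨Y, hY, hYe⟩ := M12FrbC_sys κ c r₀ R ρ hρ (fun x hx => by
    obtain ⟨f₀, -, h2⟩ := hF x hx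
    exact exists_split (fun i => u i x) (hgen x hx) (fun i => f₀ i x) h2.self_of_nhds (gmat ρ x)
      (hrel x hx))
  have hY' := mHol_iff.mp hY
  let Pr : B → Matrix (Fin p) (Fin p) ℂ := fun y => 1 - ρ y * Y y
  have hPr : MHol Pr (cbox κ c r₀ R) := mHol_iff.mpr fun x hx =>
    (MHolAt.const 1 x).sub ((hρ' x hx).mul (hY' x hx))
  have hPre : ∀ x ∈ cbox κ c r₀ R, gmat Pr x = 1 - gmat ρ x * gmat Y x := by
    intro x hx
    have h1 := gmat_sub (MHolAt.const (1 : Matrix (Fin p) (Fin p) ℂ) x)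
      ((hρ' x hx).mul (hY' x hx))
    rw [gmat_mul (hρ' x hx) (hY' x hx), gmat_one] at h1
    exact h1
  have hPρ : ∀ x ∈ cbox κ c r₀ R, gmat Pr x * gmat ρ x = 0 := by
    intro x hx
    rw [hPre x hx, Matrix.sub_mul, Matrix.one_mul, hYe x hx, sub_self]
  obtain ⟨m, A, A', hA, hA', hAA⟩ := idem_split κ c r₀ R i₀ h0 h1 hr hR Pr hPr (fun x hx => by
    conv_lhs => rw [hPre x hx]
    rw [← hPre x hx]
    conv_lhs => rw [show gmat Pr x * gmat Pr x = gmat Pr x * (1 - gmat ρ x * gmat Y x) by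
      rw [← hPre x hx]]
    rw [Matrix.mul_sub, Matrix.mul_one, ← Matrix.mul_assoc, hPρ x hx, Matrix.zero_mul, sub_zero])
  have hAt := mHol_iff.mp hA
  let f : Fin m → (b : B) → F.St b := fun j b => ∑ i, gmat A b i j • u i b
  have hfAt : ∀ b ∈ cbox κ c r₀ R, ∀ j, F.At (f j) b := by
    intro b hb j
    exact F.comb (hS hb) (a := fun i y => gmat A y i j) (fun i => C.at_gm (hAt b hb i j))
      fun i => hu i b hb
  have hfb : ∀ b ∈ cbox κ c r₀ R, ∀ t : F.St b, ∃! a : Fin m → (O B).St b,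
      t = ∑ j, a j • f j b := fun b hb =>
    M12FrbC_alg (fun i => u i b) (hgen b hb) (gmat ρ b) (hrel b hb) (gmat Y b) (gmat Pr b)
      (hPre b hb) (hPρ b hb) (gmat A b) (gmat A' b) (hAA b hb).1 (hAA b hb).2
  have hne : (cbox κ c r₀ R).Nonempty := by
    refine ⟨κ.symm fun i => if i = i₀ then c i₀ + (r₀ i₀ : ℂ) else c i, fun i => ?_⟩
    rw [ContinuousLinearEquiv.apply_symm_apply]
    by_cases hi : i = i₀
    · subst hi
      change r₀ i ≤ ‖(if i = i then c i + (r₀ i : ℂ) else c i) - c i‖ ∧ _ ≤ R i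
      rw [if_pos rfl, add_sub_cancel_left, Complex.norm_real, Real.norm_of_nonneg h0.le]
      exact ⟨le_rfl, h1⟩
    · change r₀ i ≤ ‖(if i = i₀ then c i₀ + (r₀ i₀ : ℂ) else c i) - c i‖ ∧ _ ≤ R i
      rw [if_neg hi, sub_self, norm_zero]
      exact ⟨hr i hi, hR i⟩
  obtain ⟨b₁, hb₁⟩ := hne
  have hmn : m = n := by
    obtain ⟨f₀, -, h2⟩ := hF b₁ hb₁
    have hnt : Nontrivial ((O B).St b₁) := (ev b₁).domain_nontrivial
    exact rank_unique (fun j => f j b₁) (hfb b₁ hb₁) (fun i => f₀ i b₁) h2.self_of_nhds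
  subst hmn
  refine ⟨f, fun b hb => ⟨hfAt b hb, ?_⟩⟩
  obtain ⟨f₀, h2, h3⟩ := hF b hb
  exact M12FrbC_spread (hS hb) h2 h3 (hfAt b hb) (hfb b hb)

end Pool.Agent.DQ.M12
end

section

/-! Campaign DQ, module M12, block (b): the transition matrix between two frames satisfies the
condition of generation over a point of the parameter space. -/

set_option autoImplicit false

open Set Filter Topology Matrix

universe u v w

namespace Pool.Agent.DQ.M12b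

variable {T : Type u} [NormedAddCommGroup T] [NormedSpace ℂ T]

theorem val_mul_sum {B : Type u} [NormedAddCommGroup B] [NormedSpace ℂ B] {n : ℕ} {x : B}
    {F : B → ℂ} {G H : Fin n → B → ℂ} (hF : HolAt F x) (hG : ∀ j, HolAt (G j) x)
    (hH : ∀ j, HolAt (H j) x) (h : om F x = ∑ j, om (G j) x * om (H j) x) :
    F x = ∑ j, G j x * H j x := by
  have h1 := congrArg (C.evg x) h
  rw [← C.evg_gm hF]
  refine h1.trans ?_
  refine (map_sum (C.evg x) (fun j => gm (G j) x * gm (H j) x) Finset.univ).trans ?_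
  refine Finset.sum_congr rfl fun j _ => ?_
  rw [map_mul, C.evg_gm (hG j), C.evg_gm (hH j)]

/-- shift to the centre -/
def sh (t : T) (w₀ z₀ : ℂ) (x : ℂ × ℂ) : T × ℂ × ℂ := (t, w₀ + x.1, z₀ + x.2)

theorem holAt_sh {F : T × ℂ × ℂ → ℂ} {t : T} {w₀ z₀ : ℂ} {x : ℂ × ℂ}
    (h : HolAt F (sh t w₀ z₀ x)) : HolAt (fun x => F (sh t w₀ z₀ x)) x := by
  refine HolAt.comp (g := sh t w₀ z₀) h (Eventually.of_forall fun y => ?_)
  unfold sh
  fun_prop

theorem ring_shift {c : ℂ} {r R : ℝ} {z : ℂ} : c + z ∈ ring c r R ↔ z ∈ ring 0 r R := by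
  simp [ring]

variable [FiniteDimensional ℂ T]

theorem exists_cbox_fib (t : T) (w₀ z₀ : ℂ) (Rw Rz : ℝ) :
    ∃ (k : ℕ) (κ : (T × ℂ × ℂ) ≃L[ℂ] (Fin k → ℂ)) (c : Fin k → ℂ) (r R : Fin k → ℝ),
      {b : T × ℂ × ℂ | b.1 = t ∧ ‖b.2.1 - w₀‖ ≤ Rw ∧ ‖b.2.2 - z₀‖ ≤ Rz} = cbox κ c r R := by
  obtain ⟨k, κ, c, r, R, h⟩ := exists_fib_coord (ContinuousLinearEquiv.refl ℂ (T × ℂ × ℂ))
    (ContinuousLinearEquiv.finTwoArrow ℂ ℂ).symm ![w₀, z₀] (fun _ => -1) ![Rw, Rz] t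
  refine ⟨k, κ, c, r, R, ?_⟩
  rw [← h]
  ext b
  have e1 : ∀ (z : ℂ) (c : ℂ) (R : ℝ), z ∈ cring c (-1) R ↔ ‖z - c‖ ≤ R := fun z c R =>
    ⟨fun h => h.2, fun h => ⟨by linarith [norm_nonneg (z - c)], h⟩⟩
  constructor
  · rintro ⟨h1, h2, h3⟩
    refine ⟨h1, fun i => ?_⟩
    fin_cases i
    · exact (e1 _ _ _).mpr h2
    · exact (e1 _ _ _).mpr h3
  · rintro ⟨h1, h2⟩
    exact ⟨h1, (e1 _ _ _).mp (h2 0), (e1 _ _ _).mp (h2 1)⟩

/-- the transition matrix between two frames (over disc × annulus and annulus × disc) of a sheaf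
which is coherent near the closed bidisc over `t` -/
theorem genFib_of_frames {E : EMod.{u, u, w} (O (T × ℂ × ℂ))} {w₀ z₀ : ℂ} {rw' Rw rz Rz : ℝ}
    {n : ℕ} {W : Set T} (hW : IsOpen W) {t : T} (ht : t ∈ W)
    (hcoh : E.Coh {b : T × ℂ × ℂ | b.1 = t ∧ ‖b.2.1 - w₀‖ ≤ Rw ∧ ‖b.2.2 - z₀‖ ≤ Rz})
    {f f' : Fin n → (x : T × ℂ × ℂ) → E.St x}
    (hf : IsFrame E f (W ×ˢ ring w₀ (-1) Rw ×ˢ ring z₀ rz Rz))
    (hf' : IsFrame E f' (W ×ˢ ring w₀ rw' Rw ×ˢ ring z₀ (-1) Rz))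
    (hrw : 0 ≤ rw') (hrz : 0 ≤ rz)
    (g : T × ℂ × ℂ → Matrix (Fin n) (Fin n) ℂ)
    (hg : MHol g (W ×ˢ ring w₀ rw' Rw ×ˢ ring z₀ rz Rz))
    (hdet : ∀ x ∈ W ×ˢ ring w₀ rw' Rw ×ˢ ring z₀ rz Rz, IsUnit (g x).det)
    (hgf : ∀ x ∈ W ×ˢ ring w₀ rw' Rw ×ˢ ring z₀ rz Rz, ∀ j,
      f' j x = ∑ i, om (fun y => g y i j) x • f i x) :
    GenFib (fun x => g (sh x.1 w₀ z₀ x.2)) rw' Rw rz Rz t ∧
      GenFib (fun x => (g (sh x.1 w₀ z₀ x.2))⁻¹ᵀ) rw' Rw rz Rz t := by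
  obtain ⟨k, κ, c, r, R, hK⟩ := exists_cbox_fib t w₀ z₀ Rw Rz
  rw [hK] at hcoh
  obtain ⟨Ω, p, q, p', u, ρ, h, hΩ, hKΩ, hu, hgen, hρ, hh⟩ := exists_data κ c r R E hcoh
  rw [← hK] at hKΩ
  set S₁ := Ω ∩ W ×ˢ ring w₀ (-1) Rw ×ˢ ring z₀ rz Rz with hS₁
  set S₂ := Ω ∩ W ×ˢ ring w₀ rw' Rw ×ˢ ring z₀ (-1) Rz with hS₂
  have hS₁o : IsOpen S₁ := hΩ.inter (hW.prod ((isOpen_ring _ _ _).prod (isOpen_ring _ _ _)))
  have hS₂o : IsOpen S₂ := hΩ.inter (hW.prod ((isOpen_ring _ _ _).prod (isOpen_ring _ _ _)))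
  obtain ⟨a, a', ha, ha', hua, hha, hda, hda'⟩ := frame_data hS₁o (hf.mono inter_subset_right)
    (fun i x hx => hu i x hx.1) (fun x hx => hgen x hx.1)
    ⟨fun l i x hx => hρ.1 l i x hx.1, fun x hx => hρ.2 x hx.1⟩
    ⟨fun l i x hx => hh.1 l i x hx.1, fun x hx => hh.2 x hx.1⟩
  obtain ⟨b, b', hb, hb', hub, hhb, hdb, hdb'⟩ := frame_data hS₂o (hf'.mono inter_subset_right)
    (fun i x hx => hu i x hx.1) (fun x hx => hgen x hx.1)
    ⟨fun l i x hx => hρ.1 l i x hx.1, fun x hx => hρ.2 x hx.1⟩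
    ⟨fun l i x hx => hh.1 l i x hx.1, fun x hx => hh.2 x hx.1⟩
  have hmem₁ : ∀ x ∈ ring 0 (-1) Rw ×ˢ ring 0 rz Rz, sh t w₀ z₀ x ∈ S₁ := by
    intro x hx
    refine ⟨hKΩ ⟨rfl, ?_, ?_⟩, ht, ring_shift.mpr hx.1, ring_shift.mpr hx.2⟩
    · exact (ring_shift (c := w₀).mpr hx.1).2.le
    · exact (ring_shift (c := z₀).mpr hx.2).2.le
  have hmem₂ : ∀ x ∈ ring 0 rw' Rw ×ˢ ring 0 (-1) Rz, sh t w₀ z₀ x ∈ S₂ := by
    intro x hx
    refine ⟨hKΩ ⟨rfl, ?_, ?_⟩, ht, ring_shift.mpr hx.1, ring_shift.mpr hx.2⟩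
    · exact (ring_shift (c := w₀).mpr hx.1).2.le
    · exact (ring_shift (c := z₀).mpr hx.2).2.le
  have hsub₁ : ∀ x ∈ ring 0 rw' Rw ×ˢ ring 0 rz Rz, x ∈ ring 0 (-1) Rw ×ˢ ring 0 rz Rz :=
    fun x hx => ⟨⟨by linarith [hx.1.1], hx.1.2⟩, hx.2⟩
  have hsub₂ : ∀ x ∈ ring 0 rw' Rw ×ˢ ring 0 rz Rz, x ∈ ring 0 rw' Rw ×ˢ ring 0 (-1) Rz :=
    fun x hx => ⟨hx.1, ⟨by linarith [hx.2.1], hx.2.2⟩⟩
  have hmem₁₂ : ∀ x ∈ ring 0 rw' Rw ×ˢ ring 0 rz Rz,
      sh t w₀ z₀ x ∈ W ×ˢ ring w₀ rw' Rw ×ˢ ring z₀ rz Rz := fun x hx =>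
    ⟨ht, ring_shift.mpr hx.1, ring_shift.mpr hx.2⟩
  -- the germ identities
  have hab : ∀ x ∈ S₁ ∩ S₂, x ∈ W ×ˢ ring w₀ rw' Rw ×ˢ ring z₀ rz Rz → ∀ l i,
      om (a l i) x = ∑ j, om (fun y => g y l j) x * om (b j i) x := by
    intro x hx hx' l i
    have h1 : ∑ l, (om (a l i) x - ∑ j, om (fun y => g y l j) x * om (b j i) x) • f l x = 0 := by
      simp only [sub_smul, Finset.sum_sub_distrib]
      rw [← hua x hx.1 i, hub x hx.2 i]
      have h2 : ∑ j, om (b j i) x • f' j x =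
          ∑ l, (∑ j, om (fun y => g y l j) x * om (b j i) x) • f l x := by
        simp only [Finset.sum_smul]
        rw [Finset.sum_comm]
        refine Finset.sum_congr rfl fun j _ => ?_
        rw [hgf x hx' j, Finset.smul_sum]
        refine Finset.sum_congr rfl fun m _ => ?_
        rw [← mul_smul, mul_comm]
      rw [h2, sub_self]
    exact sub_eq_zero.mp (congrFun (hf.indep hx.1.2 _ h1) l)
  have hab' : ∀ x ∈ S₁ ∩ S₂, x ∈ W ×ˢ ring w₀ rw' Rw ×ˢ ring z₀ rz Rz → ∀ j l,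
      om (b' j l) x = ∑ m, om (fun y => g y m j) x * om (a' m l) x := by
    intro x hx hx' j l
    have h1 : ∀ i, ∑ j, (om (b' j l) x - ∑ m, om (fun y => g y m j) x * om (a' m l) x) *
        om (b j i) x = 0 := by
      intro i
      simp only [sub_mul, Finset.sum_sub_distrib]
      rw [← hhb x hx.2 l i, hha x hx.1 l i]
      have h2 : ∑ j, om (a' j l) x * om (a j i) x =
          ∑ j, (∑ m, om (fun y => g y m j) x * om (a' m l) x) * om (b j i) x := by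
        simp only [Finset.sum_mul]
        rw [Finset.sum_comm]
        refine Finset.sum_congr rfl fun j _ => ?_
        rw [hab x hx hx' j i, Finset.mul_sum]
        refine Finset.sum_congr rfl fun m _ => ?_
        ring
      rw [h2, sub_self]
    obtain ⟨d, hd⟩ := hdb x hx.2 j
    have h3 : ∑ i, d i * ∑ m, (om (b' m l) x - ∑ k, om (fun y => g y k m) x * om (a' k l) x) *
        om (b m i) x = om (b' j l) x - ∑ m, om (fun y => g y m j) x * om (a' m l) x := by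
      have h4 : ∑ i, d i * ∑ m, (om (b' m l) x - ∑ k, om (fun y => g y k m) x *
          om (a' k l) x) * om (b m i) x = ∑ m, (om (b' m l) x -
          ∑ k, om (fun y => g y k m) x * om (a' k l) x) * ∑ i, d i * om (b m i) x := by
        simp only [Finset.mul_sum]
        rw [Finset.sum_comm]
        exact Finset.sum_congr rfl fun m _ => Finset.sum_congr rfl fun i _ => by ring
      rw [h4, Finset.sum_congr rfl fun m _ => by rw [hd m]]
      simp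
    rw [Finset.sum_eq_zero fun i _ => by rw [h1 i, mul_zero]] at h3
    exact sub_eq_zero.mp h3.symm
  -- the identities of values
  have hAB : ∀ x ∈ ring 0 rw' Rw ×ˢ ring 0 rz Rz, ∀ l i, a l i (sh t w₀ z₀ x) =
      ∑ j, g (sh t w₀ z₀ x) l j * b j i (sh t w₀ z₀ x) := by
    intro x hx l i
    have h1 := hmem₁ x (hsub₁ x hx)
    have h2 := hmem₂ x (hsub₂ x hx)
    exact val_mul_sum (G := fun j y => g y l j) (H := fun j => b j i) (ha l i _ h1)
      (fun j => hg l j _ (hmem₁₂ x hx)) (fun j => hb j i _ h2) (hab _ ⟨h1, h2⟩ (hmem₁₂ x hx) l i)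
  have hAB' : ∀ x ∈ ring 0 rw' Rw ×ˢ ring 0 rz Rz, ∀ j l, b' j l (sh t w₀ z₀ x) =
      ∑ m, g (sh t w₀ z₀ x) m j * a' m l (sh t w₀ z₀ x) := by
    intro x hx j l
    have h1 := hmem₁ x (hsub₁ x hx)
    have h2 := hmem₂ x (hsub₂ x hx)
    exact val_mul_sum (G := fun m y => g y m j) (H := fun m => a' m l) (hb' j l _ h2)
      (fun m => hg m j _ (hmem₁₂ x hx)) (fun m => ha' m l _ h1)
      (hab' _ ⟨h1, h2⟩ (hmem₁₂ x hx) j l)
  constructor
  · refine ⟨p, fun x => Matrix.of fun j i => a j i (sh t w₀ z₀ x),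
      fun x => Matrix.of fun j i => b j i (sh t w₀ z₀ x),
      fun j i x hx => holAt_sh (ha j i _ (hmem₁ x hx)),
      fun j i x hx => holAt_sh (hb j i _ (hmem₂ x hx)), fun x hx => ?_, fun x hx => ?_,
      fun x hx => ?_⟩
    · ext l i
      rw [Matrix.mul_apply]
      exact hAB x hx l i
    · exact surj_of_right_inv (fun j i => ha j i _ (hmem₁ x hx)) (hda _ (hmem₁ x hx))
    · exact surj_of_right_inv (fun j i => hb j i _ (hmem₂ x hx)) (hdb _ (hmem₂ x hx))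
  · refine ⟨p', fun x => Matrix.of fun j i => a' j i (sh t w₀ z₀ x),
      fun x => Matrix.of fun j i => b' j i (sh t w₀ z₀ x),
      fun j i x hx => holAt_sh (ha' j i _ (hmem₁ x hx)),
      fun j i x hx => holAt_sh (hb' j i _ (hmem₂ x hx)), fun x hx => ?_, fun x hx => ?_,
      fun x hx => ?_⟩
    · have h1 : (Matrix.of fun j i => b' j i (sh t w₀ z₀ x)) =
          (g (sh t w₀ z₀ x))ᵀ * Matrix.of fun j i => a' j i (sh t w₀ z₀ x) := by
        ext j l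
        rw [Matrix.mul_apply]
        exact hAB' x hx j l
      have h2 : IsUnit (g (sh t w₀ z₀ x))ᵀ.det := by
        rw [Matrix.det_transpose]
        exact hdet _ (hmem₁₂ x hx)
      change (Matrix.of fun j i => a' j i (sh t w₀ z₀ x)) =
        (g (sh t w₀ z₀ x))⁻¹ᵀ * Matrix.of fun j i => b' j i (sh t w₀ z₀ x)
      rw [h1, Matrix.transpose_nonsing_inv, ← Matrix.mul_assoc,
        Matrix.nonsing_inv_mul _ h2, Matrix.one_mul]
    · exact surj_of_right_inv (fun j i => ha' j i _ (hmem₁ x hx)) (hda' _ (hmem₁ x hx))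
    · exact surj_of_right_inv (fun j i => hb' j i _ (hmem₂ x hx)) (hdb' _ (hmem₂ x hx))

end Pool.Agent.DQ.M12b
end

section

/-! Campaign DQ, module S: finite mapping theorem. -/

set_option autoImplicit false

open Set Filter Topology Metric

universe u v w

namespace Pool.Agent.DQ

/-- coherence of sheaves of `O`-modules is an open condition -/
theorem EMod.CohAt.near {V : Type u} [NormedAddCommGroup V] [NormedSpace ℂ V]
    [FiniteDimensional ℂ V] {F : EMod.{u, u, w} (O V)} {x : V} (h : F.CohAt x) :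
    ∀ᶠ y in 𝓝 x, F.CohAt y := by
  obtain ⟨p, g, hg, hgen⟩ := h.2.1
  obtain ⟨q, ρ, hρ, hrel⟩ := h.2.2 p g hg
  filter_upwards [F.isOpen_dom.mem_nhds h.1, eventually_all.mpr fun i => F.ev (hg i),
    eventually_all.mpr fun j => eventually_all.mpr fun i => (O V).ev (hρ j i),
    eventually_eventually_nhds.mpr hgen, eventually_eventually_nhds.mpr hrel] with y h1 h2 h3 h4 h5
  exact coh_of_lfp F h1 g ρ h2 h3 h4 h5

theorem isCompact_cring (c : ℂ) (r R : ℝ) : IsCompact (cring c r R) := by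
  have h1 : IsClosed {z : ℂ | r ≤ ‖z - c‖} := isClosed_le continuous_const (by fun_prop)
  have h2 : IsClosed {z : ℂ | ‖z - c‖ ≤ R} := isClosed_le (by fun_prop) continuous_const
  refine (isCompact_closedBall c R).of_isClosed_subset (h1.inter h2) ?_
  · intro z hz
    rw [mem_closedBall, dist_eq_norm]
    exact hz.2

theorem isCompact_cbox {V : Type u} [NormedAddCommGroup V] [NormedSpace ℂ V] {n : ℕ}
    (κ : V ≃L[ℂ] (Fin n → ℂ)) (c : Fin n → ℂ) (r R : Fin n → ℝ) : IsCompact (cbox κ c r R) := by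
  have h1 : IsCompact (univ.pi fun i => cring (c i) (r i) (R i)) :=
    isCompact_univ_pi fun i => isCompact_cring _ _ _
  have h2 := h1.image κ.symm.continuous
  convert h2 using 1
  ext x
  constructor
  · intro hx
    exact ⟨κ x, fun i _ => hx i, κ.symm_apply_apply x⟩
  · rintro ⟨z, hz, rfl⟩ i
    rw [κ.apply_symm_apply]
    exact hz i (mem_univ i)

/-- splitting off the first coordinate -/
noncomputable def splitL (k : ℕ) : (Fin (k + 1) → ℂ) ≃L[ℂ] (Fin k → ℂ) × ℂ :=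
  LinearEquiv.toContinuousLinearEquiv
    { toFun := fun x => (fun i => x i.succ, x 0)
      invFun := fun p => Fin.cons p.2 p.1
      map_add' := fun _ _ => rfl
      map_smul' := fun _ _ => rfl
      left_inv := fun x => by
        funext i
        refine Fin.cases ?_ (fun i => ?_) i <;> simp
      right_inv := fun p => by
        refine Prod.ext (funext fun i => ?_) ?_ <;> simp }

theorem splitL_apply (k : ℕ) (x : Fin (k + 1) → ℂ) : splitL k x = (fun i => x i.succ, x 0) := rfl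

section

variable {V : Type u} [NormedAddCommGroup V] [NormedSpace ℂ V]
  {V' : Type u} [NormedAddCommGroup V'] [NormedSpace ℂ V']
  {W : Type v} [NormedAddCommGroup W] [NormedSpace ℂ W]

/-- intermediate projection -/
noncomputable def midL (e : V ≃L[ℂ] V' × W) {k : ℕ} (κ : W ≃L[ℂ] (Fin (k + 1) → ℂ)) :
    V ≃L[ℂ] (V' × (Fin k → ℂ)) × ℂ :=
  (e.trans ((ContinuousLinearEquiv.refl ℂ V').prodCongr (κ.trans (splitL k)))).trans
    (ContinuousLinearEquiv.prodAssoc ℂ V' (Fin k → ℂ) ℂ).symm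

theorem midL_apply (e : V ≃L[ℂ] V' × W) {k : ℕ} (κ : W ≃L[ℂ] (Fin (k + 1) → ℂ)) (x : V) :
    midL e κ x = (((e x).1, fun i => κ (e x).2 i.succ), κ (e x).2 0) := rfl

end

/-- the statement of the finite mapping theorem for the product of `V'` and `ℂ ^ k` -/
def FinMap (V' : Type u) [NormedAddCommGroup V'] [NormedSpace ℂ V'] (k : ℕ) : Prop :=
  ∀ (G : EMod.{u, u, w} (O (V' × (Fin k → ℂ)))) (c : Fin k → ℂ) (R : Fin k → ℝ),
    (∀ i, 0 < R i) →
    ∀ (t : V'), G.Coh (fib (ContinuousLinearEquiv.refl ℂ (V' × (Fin k → ℂ)))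
        (cbox (ContinuousLinearEquiv.refl ℂ (Fin k → ℂ)) c (-1) R) t) →
      (∀ x ∈ fib (ContinuousLinearEquiv.refl ℂ (V' × (Fin k → ℂ)))
        (cbox (ContinuousLinearEquiv.refl ℂ (Fin k → ℂ)) c (-1) R) t,
        x.2 ∉ box (ContinuousLinearEquiv.refl ℂ (Fin k → ℂ)) c (-1) R → Subsingleton (G.St x)) →
      (G.push (ContinuousLinearEquiv.refl ℂ (V' × (Fin k → ℂ)))
        (cbox (ContinuousLinearEquiv.refl ℂ (Fin k → ℂ)) c (-1) R)
        (isCompact_cbox _ _ _ _)).CohAt t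

variable {V : Type u} [NormedAddCommGroup V] [NormedSpace ℂ V]
  {V' : Type u} [NormedAddCommGroup V'] [NormedSpace ℂ V'] [FiniteDimensional ℂ V']
  {W : Type v} [NormedAddCommGroup W] [NormedSpace ℂ W]

theorem finMap_step {k : ℕ} (hP : FinMap.{u, max u w} V' k) (F : EMod.{u, u, w} (O V))
    (e : V ≃L[ℂ] V' × W) (κ : W ≃L[ℂ] (Fin (k + 1) → ℂ)) (c : Fin (k + 1) → ℂ)
    (R : Fin (k + 1) → ℝ) (hR : ∀ i, 0 < R i) (hD : IsCompact (cbox κ c (-1) R)) (t : V')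
    (hcoh : F.Coh (fib e (cbox κ c (-1) R) t))
    (hzero : ∀ x ∈ fib e (cbox κ c (-1) R) t, (e x).2 ∉ box κ c (-1) R → Subsingleton (F.St x)) :
    (F.push e (cbox κ c (-1) R) hD).CohAt t := by
  have heD : ∀ x : V, (e x).2 ∈ cbox κ c (-1) R ↔
      (ContinuousLinearEquiv.refl ℂ (V' × (Fin k → ℂ)) (midL e κ x).1).2 ∈
        cbox (ContinuousLinearEquiv.refl ℂ (Fin k → ℂ)) (fun i => c i.succ) (-1)
          (fun i => R i.succ) ∧ (midL e κ x).2 ∈ closedBall (c 0) (R 0) := by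
    intro x
    rw [midL_apply]
    constructor
    · intro h
      refine ⟨fun i => h i.succ, ?_⟩
      rw [mem_closedBall, dist_eq_norm]
      exact (h 0).2
    · rintro ⟨h1, h2⟩ i
      refine Fin.cases ?_ (fun i => ?_) i
      · rw [mem_closedBall, dist_eq_norm] at h2
        refine ⟨le_trans (by simp) (norm_nonneg _), h2⟩
      · exact h1 i
  have hbox : ∀ x : V, (e x).2 ∈ box κ c (-1) R →
      (midL e κ x).1.2 ∈ box (ContinuousLinearEquiv.refl ℂ (Fin k → ℂ)) (fun i => c i.succ) (-1)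
          (fun i => R i.succ) ∧ ‖(midL e κ x).2 - c 0‖ < R 0 := by
    intro x hx
    exact ⟨fun i => hx i.succ, (hx 0).2⟩
  have hfib : ∀ {y : V' × (Fin k → ℂ)} {x : V}, y ∈ fib (ContinuousLinearEquiv.refl ℂ _)
      (cbox (ContinuousLinearEquiv.refl ℂ (Fin k → ℂ)) (fun i => c i.succ) (-1)
        (fun i => R i.succ)) t → x ∈ fib (midL e κ) (closedBall (c 0) (R 0)) y →
      x ∈ fib e (cbox κ c (-1) R) t := fun {y x} hy hx =>
    fib_of_fib_fib e (cbox κ c (-1) R) (midL e κ) (closedBall (c 0) (R 0))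
      (ContinuousLinearEquiv.refl ℂ _) _ (fun x => rfl) heD hy hx
  refine push_cohAt_of_push_push F e (cbox κ c (-1) R) hD (midL e κ) (closedBall (c 0) (R 0))
    (isCompact_closedBall _ _) (ContinuousLinearEquiv.refl ℂ (V' × (Fin k → ℂ)))
    (cbox (ContinuousLinearEquiv.refl ℂ (Fin k → ℂ)) (fun i => c i.succ) (-1)
      (fun i => R i.succ)) (isCompact_cbox _ _ _ _) (fun x => rfl) heD ?_
  refine hP (F.push (midL e κ) (closedBall (c 0) (R 0)) (isCompact_closedBall _ _))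
    (fun i => c i.succ) (fun i => R i.succ) (fun i => hR i.succ) t ?_ ?_
  · intro y hy
    apply EMod.CohAt.near
    refine push_cohAt_disc F (midL e κ) (c 0) (hR 0) y (fun x hx => hcoh x (hfib hy hx)) ?_
    intro x hx hxR
    refine hzero x (hfib hy hx) fun hbx => ?_
    have := (hbox x hbx).2
    rw [hxR] at this
    exact lt_irrefl _ this
  · intro y hy hyb
    refine ⟨fun m m' => F.push_ext _ _ _ y _ _ fun x hx => ?_⟩
    have h1 : (e x).2 ∉ box κ c (-1) R := by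
      intro hbx
      apply hyb
      have h2 := (hbox x hbx).1
      rw [hx.1] at h2
      exact h2
    have := hzero x (hfib hy hx) h1
    exact Subsingleton.elim _ _

theorem finMap_zero : FinMap.{u, w} V' 0 := by
  intro G c R hR t hcoh _
  have h0 : (0 : Fin 0 → ℂ) ∈ cbox (ContinuousLinearEquiv.refl ℂ (Fin 0 → ℂ)) c (-1) R :=
    fun i => i.elim0
  refine push_cohAt_point G (ContinuousLinearEquiv.refl ℂ (V' × (Fin 0 → ℂ))) _ _ h0 ?_
  exact (hcoh _ (by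
    constructor
    · rfl
    · exact h0)).self_of_nhds

theorem finMap (k : ℕ) : FinMap.{u, max u w} V' k := by
  induction k with
  | zero => exact finMap_zero
  | succ k ih =>
    intro G c R hR t hcoh hzero
    exact finMap_step.{u, 0, max u w} ih G (ContinuousLinearEquiv.refl ℂ _)
      (ContinuousLinearEquiv.refl ℂ _) c R hR (isCompact_cbox _ _ _ _) t hcoh hzero

/-- finite mapping theorem -/
theorem finite_mapping (F : EMod.{u, u, w} (O V)) (e : V ≃L[ℂ] V' × W) {k : ℕ}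
    (κ : W ≃L[ℂ] (Fin k → ℂ)) (c : Fin k → ℂ) (R : Fin k → ℝ) (hR : ∀ i, 0 < R i)
    (hD : IsCompact (cbox κ c (-1) R)) (t : V') (hcoh : F.Coh (fib e (cbox κ c (-1) R) t))
    (hzero : ∀ x ∈ fib e (cbox κ c (-1) R) t, (e x).2 ∉ box κ c (-1) R → Subsingleton (F.St x)) :
    (F.push e (cbox κ c (-1) R) hD).CohAt t := by
  cases k with
  | zero =>
    have hW : Subsingleton W := κ.injective.subsingleton
    have h0 : (0 : W) ∈ cbox κ c (-1) R := fun i => i.elim0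
    refine push_cohAt_point F e _ hD h0 ?_
    exact (hcoh _ (by
      constructor
      · simp
      · simpa using h0)).self_of_nhds
  | succ k => exact finMap_step (finMap.{u, w} k) F e κ c R hR hD t hcoh hzero

end Pool.Agent.DQ
end

section

/-! Campaign DQ, module M12, block (b): the generation condition of the extension theorem, from
good coordinates. -/

set_option autoImplicit false

open Set Filter Topology Matrix

universe u v w

namespace Pool.Agent.DQ.M12b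

variable {V : Type} [NormedAddCommGroup V] [NormedSpace ℂ V] [FiniteDimensional ℂ V] {k d : ℕ}
  {M₀ : EMod.{0, 0, w} (O V)} {Y U : Set V} {y₀ : V} {e : V ≃L[ℂ] Bs k × (Fin d → ℂ)}
  {τ rw' Rw rz Rz Rv : ℝ} {rk : ℕ} {dir : Fin k → ℂ}

/-- the closed product set is compact -/
theorem isCompact_KK (e : V ≃L[ℂ] Bs k × (Fin d → ℂ)) (y₀ : V) (τ Rw Rz Rv : ℝ) :
    IsCompact (KK e y₀ τ Rw Rz Rv) := by
  have h1 : KK e y₀ τ Rw Rz Rv = e.toHomeomorph ⁻¹' ((Metric.closedBall (e y₀).1.1 τ ×ˢ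
      Metric.closedBall (e y₀).1.2.1 Rw ×ˢ Metric.closedBall (e y₀).1.2.2 Rz) ×ˢ
      Metric.closedBall (e y₀).2 Rv) := by
    ext x
    simp only [KK, mem_ofPred_eq, mem_preimage, mem_prod, mem_closedBall_iff_norm, and_assoc]
    rfl
  rw [h1, Homeomorph.isCompact_preimage]
  exact ((isCompact_closedBall _ _).prod ((isCompact_closedBall _ _).prod
    (isCompact_closedBall _ _))).prod (isCompact_closedBall _ _)

/-- the direct image of `M₀` is coherent at the points `b` over which there are no points of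
`Y` -/
theorem push_cohAt (h : GoodCoord d M₀ Y y₀ U k e τ rw' Rw rz Rz Rv rk dir)
    (hcoh : M₀.Coh (U \ Y)) {b : Bs k} (hb1 : ‖b.1 - (e y₀).1.1‖ ≤ τ)
    (hb2 : ‖b.2.1 - (e y₀).1.2.1‖ ≤ Rw) (hb3 : ‖b.2.2 - (e y₀).1.2.2‖ ≤ Rz)
    (hbY : ∀ x ∈ fib e (Metric.closedBall (e y₀).2 Rv) b, x ∉ Y) :
    (M₀.push e (Metric.closedBall (e y₀).2 Rv) (isCompact_closedBall _ _)).CohAt b := by
  have hRv : 0 < Rv := h.rad.2.2.2.2.2
  have hmem : ∀ (κ : (Fin d → ℂ) ≃L[ℂ] (Fin d → ℂ)), (∀ v i, κ v i = v i) → ∀ v,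
      (v ∈ cbox κ (e y₀).2 (-1) (fun _ => Rv) ↔ ‖v - (e y₀).2‖ ≤ Rv) ∧
      (v ∈ box κ (e y₀).2 (-1) (fun _ => Rv) ↔ ‖v - (e y₀).2‖ < Rv) := by
    intro κ hκ v
    constructor
    · rw [pi_norm_le_iff_of_nonneg hRv.le]
      constructor
      · intro hv i
        have := (hv i).2
        rwa [hκ] at this
      · intro hv i
        refine ⟨?_, ?_⟩
        · simp only [Pi.neg_apply, Pi.one_apply]
          linarith [norm_nonneg (κ v i - (e y₀).2 i)]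
        · rw [hκ]
          exact hv i
    · rw [pi_norm_lt_iff hRv]
      constructor
      · intro hv i
        have := (hv i).2
        rwa [hκ] at this
      · intro hv i
        refine ⟨?_, ?_⟩
        · simp only [Pi.neg_apply, Pi.one_apply]
          linarith [norm_nonneg (κ v i - (e y₀).2 i)]
        · rw [hκ]
          exact hv i
  set κ : (Fin d → ℂ) ≃L[ℂ] (Fin d → ℂ) := ContinuousLinearEquiv.refl ℂ _ with hκ
  have hκ' : ∀ v i, κ v i = v i := fun v i => rfl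
  have hD : Metric.closedBall (e y₀).2 Rv = cbox κ (e y₀).2 (-1) (fun _ => Rv) := by
    ext v
    rw [mem_closedBall_iff_norm]
    exact (hmem κ hκ' v).1.symm
  have hKK : ∀ x ∈ fib e (Metric.closedBall (e y₀).2 Rv) b, x ∈ KK e y₀ τ Rw Rz Rv := by
    rintro x ⟨h1, h2⟩
    rw [mem_closedBall_iff_norm] at h2
    exact ⟨by rw [h1]; exact hb1, by rw [h1]; exact hb2, by rw [h1]; exact hb3, h2⟩
  have key : ∀ (D : Set (Fin d → ℂ)) (hD' : IsCompact D)
      (hDe : D = cbox κ (e y₀).2 (-1) (fun _ => Rv)), (M₀.push e D hD').CohAt b := by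
    intro D hD' hDe
    subst hDe
    rw [hD] at hKK hbY
    refine finite_mapping M₀ e κ (e y₀).2 (fun _ => Rv) (fun _ => hRv) hD' b ?_ ?_
    · intro x hx
      exact hcoh x ⟨h.sub (hKK x hx), hbY x hx⟩
    · intro x hx hx'
      rw [(hmem κ hκ' _).2, not_lt] at hx'
      refine h.zero x (hKK x hx) (le_antisymm ?_ hx')
      exact (hKK x hx).2.2.2
  exact key _ _ hD

/-- (M12, block (b)) the generation condition of the extension theorem -/
theorem hgen (h : GoodCoord d M₀ Y y₀ U k e τ rw' Rw rz Rz Rv rk dir)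
    (hYc : IsOpen (U \ Y)) (hcoh : M₀.Coh (U \ Y)) {T₁ : Set (Fin k → ℂ)}
    (hT₁ : T₁ ∈ 𝓝 (e y₀).1.1) {n : ℕ}
    {f f' : Fin n → (x : Bs k) →
      (M₀.push e (Metric.closedBall (e y₀).2 Rv) (isCompact_closedBall _ _)).St x}
    (hf : IsFrame (M₀.push e (Metric.closedBall (e y₀).2 Rv) (isCompact_closedBall _ _)) f
      (T₁ ×ˢ ring (e y₀).1.2.1 (-1) Rw ×ˢ ring (e y₀).1.2.2 rz Rz))
    (hf' : IsFrame (M₀.push e (Metric.closedBall (e y₀).2 Rv) (isCompact_closedBall _ _)) f'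
      (T₁ ×ˢ ring (e y₀).1.2.1 rw' Rw ×ˢ ring (e y₀).1.2.2 (-1) Rz))
    (g : (Fin k → ℂ) × ℂ × ℂ → Matrix (Fin n) (Fin n) ℂ)
    (hg : MHol g (T₁ ×ˢ ring (e y₀).1.2.1 rw' Rw ×ˢ ring (e y₀).1.2.2 rz Rz))
    (hdet : ∀ x ∈ T₁ ×ˢ ring (e y₀).1.2.1 rw' Rw ×ˢ ring (e y₀).1.2.2 rz Rz, IsUnit (g x).det)
    (hgf : ∀ x ∈ T₁ ×ˢ ring (e y₀).1.2.1 rw' Rw ×ˢ ring (e y₀).1.2.2 rz Rz, ∀ j,
      f' j x = ∑ i, om (fun y => g y i j) x • f i x) :
    ∀ N ∈ 𝓝 (e y₀).1.1, ∃ W : Set (Fin k → ℂ), IsOpen W ∧ W.Nonempty ∧ W ⊆ N ∩ T₁ ∧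
      ∀ t ∈ W, GenFib (fun x => g (sh x.1 (e y₀).1.2.1 (e y₀).1.2.2 x.2)) rw' Rw rz Rz t ∧
        GenFib (fun x => (g (sh x.1 (e y₀).1.2.1 (e y₀).1.2.2 x.2))⁻¹ᵀ) rw' Rw rz Rz t := by
  intro N hN
  set t₀ := (e y₀).1.1 with ht₀
  set C : Set (Fin k → ℂ) := (fun x => (e x).1.1) '' (KK e y₀ τ Rw Rz Rv ∩ Y) with hC
  have hCc : IsClosed C := by
    have h1 : KK e y₀ τ Rw Rz Rv ∩ Y = KK e y₀ τ Rw Rz Rv \ (U \ Y) := by
      ext x
      constructor
      · rintro ⟨h1, h2⟩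
        exact ⟨h1, fun h3 => h3.2 h2⟩
      · rintro ⟨h1, h2⟩
        refine ⟨h1, ?_⟩
        by_contra h3
        exact h2 ⟨h.sub h1, h3⟩
    have h2 : IsCompact (KK e y₀ τ Rw Rz Rv ∩ Y) := by
      rw [h1]
      exact (isCompact_KK e y₀ τ Rw Rz Rv).diff hYc
    exact (h2.image (continuous_fst.comp (continuous_fst.comp e.continuous))).isClosed
  have hτ : 0 < τ := h.rad.1
  refine ⟨interior N ∩ interior T₁ ∩ Metric.ball t₀ τ ∩ Cᶜ, ?_, ?_, ?_, ?_⟩
  · exact ((isOpen_interior.inter isOpen_interior).inter Metric.isOpen_ball).inter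
      hCc.isOpen_compl
  · have hc : Tendsto (fun a : ℂ => t₀ + a • dir) (𝓝 0) (𝓝 t₀) := by
      have : Continuous fun a : ℂ => t₀ + a • dir := by fun_prop
      have h1 := this.tendsto 0
      simpa using h1
    have h1 : ∀ᶠ a in 𝓝 (0 : ℂ), t₀ + a • dir ∈ interior N ∩ interior T₁ ∩ Metric.ball t₀ τ :=
      hc.eventually ((isOpen_interior.inter isOpen_interior).inter
        Metric.isOpen_ball |>.mem_nhds ⟨⟨mem_interior_iff_mem_nhds.mpr hN,
          mem_interior_iff_mem_nhds.mpr hT₁⟩, Metric.mem_ball_self hτ⟩)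
    have h2 : ∀ᶠ a in 𝓝[≠] (0 : ℂ), t₀ + a • dir ∈ interior N ∩ interior T₁ ∩
        Metric.ball t₀ τ := h1.filter_mono nhdsWithin_le_nhds
    obtain ⟨a, ha, ha0⟩ := (h2.and self_mem_nhdsWithin).exists
    refine ⟨t₀ + a • dir, ha, ?_⟩
    rintro ⟨x, ⟨hx1, hx2⟩, hx3⟩
    exact h.Ydir x hx1 a hx3 ha0 hx2
  · rintro t ⟨⟨⟨h1, h2⟩, -⟩, -⟩
    exact ⟨interior_subset h1, interior_subset h2⟩
  · intro t ht
    have hsub : interior N ∩ interior T₁ ∩ Metric.ball t₀ τ ∩ Cᶜ ⊆ T₁ := fun t ht =>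
      interior_subset ht.1.1.2
    refine genFib_of_frames (W := interior N ∩ interior T₁ ∩ Metric.ball t₀ τ ∩ Cᶜ) ?_ ht ?_
      (hf.mono ?_) (hf'.mono ?_) h.rad.2.1.le h.rad.2.2.2.1.le g ?_ ?_ ?_
    · exact ((isOpen_interior.inter isOpen_interior).inter Metric.isOpen_ball).inter
        hCc.isOpen_compl
    · rintro b ⟨hb1, hb2, hb3⟩
      have hbt : ‖b.1 - (e y₀).1.1‖ ≤ τ := by
        rw [hb1]
        have := ht.1.2
        rw [mem_ball_iff_norm] at this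
        exact this.le
      refine (push_cohAt h hcoh hbt hb2 hb3 ?_).eventually
        (Eventually.of_forall fun y => O_relAt y)
      rintro x ⟨hx1, hx2⟩ hxY
      rw [mem_closedBall_iff_norm] at hx2
      refine ht.2 ⟨x, ⟨⟨?_, ?_, ?_, hx2⟩, hxY⟩, ?_⟩
      · rw [hx1]; exact hbt
      · rw [hx1]; exact hb2
      · rw [hx1]; exact hb3
      · simp only [hx1, hb1]
    · exact prod_mono hsub subset_rfl
    · exact prod_mono hsub subset_rfl
    · intro i j x hx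
      exact hg i j x ⟨hsub hx.1, hx.2⟩
    · intro x hx
      exact hdet x ⟨hsub hx.1, hx.2⟩
    · intro x hx
      exact hgf x ⟨hsub hx.1, hx.2⟩

end Pool.Agent.DQ.M12b
end

section

/-! Campaign DQ, module M12, block (g): the structure of `H¹` of the shell (`HX`, `HShrink`) from
`LamData`. -/

set_option autoImplicit false
set_option linter.unusedSectionVars false

open Set Filter Topology Matrix

universe u v w

namespace Pool.Agent.DQ.M12

variable {V : Type} [NormedAddCommGroup V] [NormedSpace ℂ V] [FiniteDimensional ℂ V] {k d : ℕ}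

/-! ### the direct image -/

/-- the projection of the base to the `t`-space -/
noncomputable def eB (k : ℕ) : Bs k ≃L[ℂ] (Fin k → ℂ) × (ℂ × ℂ) := ContinuousLinearEquiv.refl ℂ (Bs k)

/-- coordinates in the fibre -/
noncomputable def kap2 : (ℂ × ℂ) ≃L[ℂ] (Fin 2 → ℂ) := (ContinuousLinearEquiv.finTwoArrow ℂ ℂ).symm

/-- the closed bidisc of intermediate radii in the fibre -/
def DD (σ : Sit V k d) : Set (ℂ × ℂ) :=
  cbox kap2 ![(cb σ).2.1, (cb σ).2.2] (-1) ![(σ.rw + σ.Rw) / 2, (σ.rz + σ.Rz) / 2]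

theorem mem_DD (σ : Sit V k d) (p : ℂ × ℂ) : p ∈ DD σ ↔
    ‖p.1 - (cb σ).2.1‖ ≤ (σ.rw + σ.Rw) / 2 ∧ ‖p.2 - (cb σ).2.2‖ ≤ (σ.rz + σ.Rz) / 2 := by
  have hneg : ∀ x : ℂ, -1 ≤ ‖x‖ := fun x => by linarith [norm_nonneg x]
  constructor
  · intro h
    exact ⟨(h 0).2, (h 1).2⟩
  · rintro ⟨h1, h2⟩ i
    refine ⟨hneg _, ?_⟩
    match i with
    | 0 => exact h1
    | 1 => exact h2

theorem isCompact_DD (σ : Sit V k d) : IsCompact (DD σ) := isCompact_cbox _ _ _ _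

theorem mem_fibB (σ : Sit V k d) (t : Fin k → ℂ) (b : Bs k) : b ∈ fib (eB k) (DD σ) t ↔
    b.1 = t ∧ ‖b.2.1 - (cb σ).2.1‖ ≤ (σ.rw + σ.Rw) / 2 ∧
      ‖b.2.2 - (cb σ).2.2‖ ≤ (σ.rz + σ.Rz) / 2 :=
  ⟨fun h => ⟨h.1, (mem_DD σ b.2).mp h.2⟩, fun h => ⟨h.1, (mem_DD σ b.2).mpr h.2⟩⟩

theorem fibB_sub (σ : Sit V k d) {T : Set (Fin k → ℂ)} {t : Fin k → ℂ} (ht : t ∈ T) :
    fib (eB k) (DD σ) t ⊆ B0 (cb σ) (rd σ) T := by
  intro b hb
  obtain ⟨h1, h2, h3⟩ := (mem_fibB σ t b).mp hb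
  have := σ.rw_lt
  have := σ.rz_lt
  refine ⟨by rw [h1]; exact ht, ⟨?_, ?_⟩, ⟨?_, ?_⟩⟩
  · linarith [norm_nonneg (b.2.1 - (cb σ).2.1 - 0)]
  · rw [sub_zero]
    change _ < σ.Rw
    linarith
  · linarith [norm_nonneg (b.2.2 - (cb σ).2.2 - 0)]
  · rw [sub_zero]
    change _ < σ.Rz
    linarith

/-! ### polydiscs in the base -/

/-- linear coordinates of the base -/
noncomputable def kapP {l : ℕ} (κ : (Fin k → ℂ) ≃L[ℂ] (Fin l → ℂ)) : Bs k ≃L[ℂ] (Fin (l + 2) → ℂ) :=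
  (κ.prodCongr kap2).trans (appE l 2)

theorem kapP_left {l : ℕ} (κ : (Fin k → ℂ) ≃L[ℂ] (Fin l → ℂ)) (b : Bs k) (i : Fin l) :
    kapP κ b (Fin.castAdd 2 i) = κ b.1 i := by
  simp only [kapP, ContinuousLinearEquiv.trans_apply, appE_left,
    ContinuousLinearEquiv.prodCongr_apply]

theorem kapP_right0 {l : ℕ} (κ : (Fin k → ℂ) ≃L[ℂ] (Fin l → ℂ)) (b : Bs k) :
    kapP κ b (Fin.natAdd l 0) = b.2.1 := by
  simp only [kapP, ContinuousLinearEquiv.trans_apply, appE_right,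
    ContinuousLinearEquiv.prodCongr_apply]
  rfl

theorem kapP_right1 {l : ℕ} (κ : (Fin k → ℂ) ≃L[ℂ] (Fin l → ℂ)) (b : Bs k) :
    kapP κ b (Fin.natAdd l 1) = b.2.2 := by
  simp only [kapP, ContinuousLinearEquiv.trans_apply, appE_right,
    ContinuousLinearEquiv.prodCongr_apply]
  rfl

/-- radii of the polydisc -/
noncomputable def RP (σ : Sit V k d) (P : σ.Pd) : Fin (P.l + 2) → ℝ :=
  Fin.append P.R ![σ.Rw, σ.Rz]

theorem goodRadii_RP (σ : Sit V k d) (P : σ.Pd) : GoodRadii (-1 : Fin (P.l + 2) → ℝ) (RP σ P) := by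
  have key : ∀ i, 0 < RP σ P i := by
    intro i
    refine Fin.addCases (fun j => ?_) (fun j => ?_) i
    · unfold RP
      rw [Fin.append_left]
      exact P.R_pos j
    · unfold RP
      rw [Fin.append_right]
      match j with
      | 0 => exact σ.rw_pos.trans σ.rw_lt
      | 1 => exact σ.rz_pos.trans σ.rz_lt
  intro i
  refine ⟨by simp, ?_, key i⟩
  have := key i
  simp only [Pi.neg_apply, Pi.one_apply]
  linarith

theorem boxP_eq (σ : Sit V k d) (P : σ.Pd) :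
    box (kapP P.κ) (kapP P.κ (σ.t₀, (cb σ).2.1, (cb σ).2.2)) (-1) (RP σ P) =
      B0 (cb σ) (rd σ) P.T := by
  ext b
  constructor
  · intro h
    refine ⟨fun i => ?_, ?_, ?_⟩
    · have h1 := h (Fin.castAdd 2 i)
      unfold RP at h1
      rw [kapP_left, kapP_left, Fin.append_left] at h1
      exact h1
    · have h1 := h (Fin.natAdd P.l 0)
      unfold RP at h1
      rw [kapP_right0, kapP_right0, Fin.append_right] at h1
      refine ⟨?_, ?_⟩
      · rw [sub_zero]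
        exact h1.1
      · rw [sub_zero]
        exact h1.2
    · have h1 := h (Fin.natAdd P.l 1)
      unfold RP at h1
      rw [kapP_right1, kapP_right1, Fin.append_right] at h1
      refine ⟨?_, ?_⟩
      · rw [sub_zero]
        exact h1.1
      · rw [sub_zero]
        exact h1.2
  · rintro ⟨h1, h2, h3⟩ i
    refine Fin.addCases (fun j => ?_) (fun j => ?_) i
    · unfold RP
      rw [kapP_left, kapP_left, Fin.append_left]
      exact h1 j
    · unfold RP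
      match j with
      | 0 =>
        rw [kapP_right0, kapP_right0, Fin.append_right]
        have h4 := h2.2
        rw [sub_zero] at h4
        exact ⟨by
          simp only [Pi.neg_apply, Pi.one_apply]
          linarith [norm_nonneg (b.2.1 - (cb σ).2.1)], h4⟩
      | 1 =>
        rw [kapP_right1, kapP_right1, Fin.append_right]
        have h4 := h3.2
        rw [sub_zero] at h4
        exact ⟨by
          simp only [Pi.neg_apply, Pi.one_apply]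
          linarith [norm_nonneg (b.2.2 - (cb σ).2.2)], h4⟩

theorem cboxP_sub (σ : Sit V k d) (P : σ.Pd) {T₀ : Set (Fin k → ℂ)} (hP : P.Tc ⊆ T₀)
    {jw' jz' : ℝ} (hw : σ.Rw < jw') (hz : σ.Rz < jz') :
    cbox (kapP P.κ) (kapP P.κ (σ.t₀, (cb σ).2.1, (cb σ).2.2)) (-1) (RP σ P) ⊆
      σ.bx T₀ (-1) jw' (-1) jz' := by
  intro b h
  have hneg : ∀ x : ℂ, -1 < ‖x‖ := fun x => by linarith [norm_nonneg x]
  refine ⟨hP fun i => ?_, ⟨hneg _, ?_⟩, ⟨hneg _, ?_⟩⟩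
  · have h1 := h (Fin.castAdd 2 i)
    unfold RP at h1
    rw [kapP_left, kapP_left, Fin.append_left] at h1
    exact h1
  · have h1 := h (Fin.natAdd P.l 0)
    unfold RP at h1
    rw [kapP_right0, kapP_right0, Fin.append_right] at h1
    exact h1.2.trans_lt hw
  · have h1 := h (Fin.natAdd P.l 1)
    unfold RP at h1
    rw [kapP_right1, kapP_right1, Fin.append_right] at h1
    exact h1.2.trans_lt hz

theorem isOpen_PT (σ : Sit V k d) (P : σ.Pd) : IsOpen P.T := DQ.F.isOpen_box' _ _ _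

theorem PT_sub (σ : Sit V k d) (P : σ.Pd) : P.T ⊆ P.Tc := fun _ h i => ⟨(h i).1.le, (h i).2.le⟩

/-! ### the structure -/

variable {M₀ : EMod.{0, 0, w} (O V)} {σ : Sit V k d} {T₀ : Set (Fin k → ℂ)} {jw jw' jz jz' : ℝ}
  {m N N' : ℕ} {Q : Bs k → Matrix (Fin N) (Fin m) ℂ} {Q' : Bs k → Matrix (Fin N') (Fin N) ℂ}
  {Lam : ((x : V) → M₀.St x) → Bs k → Fin m → ℂ} {T : Set (Fin k → ℂ)}

/-- the sheaf on the `t`-space -/
noncomputable def NN (σ : Sit V k d) (Q : Bs k → Matrix (Fin N) (Fin m) ℂ)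
    (Q' : Bs k → Matrix (Fin N') (Fin N) ℂ) : EMod.{0, 0, 0} (O (Fin k → ℂ)) :=
  (NH Q Q').push (eB k) (DD σ) (isCompact_DD σ)

/-- the map to its sections -/
noncomputable def nuf (σ : Sit V k d) (Q : Bs k → Matrix (Fin N) (Fin m) ℂ)
    (Q' : Bs k → Matrix (Fin N') (Fin N) ℂ)
    (Lam : ((x : V) → M₀.St x) → Bs k → Fin m → ℂ) (_T : Set (Fin k → ℂ))
    (y : (x : V) → M₀.St x) (t : Fin k → ℂ) : (NN σ Q Q').St t :=
  (NH Q Q').pushSec (eB k) (DD σ) (isCompact_DD σ) (cls Q Q' (qy σ Q Lam y)) t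

variable (H : LD M₀ σ T₀ jw jw' jz jz' Q Q' Lam) {y y' : (x : V) → M₀.St x}

include H

theorem LD.cohN : (NN σ Q Q').Coh T₀ := by
  have key : ∀ t ∈ T₀, (NN σ Q Q').CohAt t := by
    intro t ht
    have hw := σ.rw_pos
    have hw' := σ.rw_lt
    have hz := σ.rz_pos
    have hz' := σ.rz_lt
    have hsub := (fibB_sub σ ht).trans (H.B0_sub subset_rfl)
    refine finite_mapping (NH Q Q') (eB k) kap2 ![(cb σ).2.1, (cb σ).2.2]
      ![(σ.rw + σ.Rw) / 2, (σ.rz + σ.Rz) / 2] ?_ (isCompact_DD σ) t ?_ ?_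
    · intro i
      match i with
      | 0 =>
        change 0 < (σ.rw + σ.Rw) / 2
        linarith
      | 1 =>
        change 0 < (σ.rz + σ.Rz) / 2
        linarith
    · intro b hb
      filter_upwards [H.isOpen_bx.mem_nhds (hsub hb)] with x hx
      exact NH_cohAt (H.Q_at hx) (H.Q'_at hx) (H.comp hx)
    · intro b hb hb'
      have hb0 := hsub hb
      obtain ⟨h1, h2, h3⟩ := (mem_fibB σ t b).mp hb
      have hsh : b ∈ shell σ T₀ jw jw' jz jz' := by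
        by_contra hcon
        apply hb'
        have hneg : ∀ x : ℂ, -1 < ‖x‖ := fun x => by linarith [norm_nonneg x]
        intro i
        refine ⟨hneg _, ?_⟩
        match i with
        | 0 =>
          change ‖b.2.1 - (cb σ).2.1‖ < (σ.rw + σ.Rw) / 2
          by_contra h4
          rw [not_lt] at h4
          apply hcon
          left
          refine ⟨hb0.1, ⟨?_, hb0.2.1.2⟩, hb0.2.2⟩
          have := H.jw
          change jw < ‖b.2.1 - (cb σ).2.1‖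
          linarith
        | 1 =>
          change ‖b.2.2 - (cb σ).2.2‖ < (σ.rz + σ.Rz) / 2
          by_contra h4
          rw [not_lt] at h4
          apply hcon
          right
          refine ⟨hb0.1, hb0.2.1, ⟨?_, hb0.2.2.2⟩⟩
          have := H.jz
          change jz < ‖b.2.2 - (cb σ).2.2‖
          linarith
      exact NH_zero (H.Q_at hb0) (H.Q'_at hb0) (H.comp hb0) (H.exact hsh)
  intro t ht
  filter_upwards [H.lam.T₀_open.mem_nhds ht] with t' ht'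
  exact key t' ht'

/-- the class of `qy` is a section -/
theorem LD.cls_on (hT : T ⊆ T₀) (hTo : IsOpen T) (hy : M₀.On y (σ.Q12 T))
    (h0 : ∀ i, ∀ t ∈ T, cf σ Lam i y t = 0) :
    (NH Q Q').On (cls Q Q' (qy σ Q Lam y)) (B0 (cb σ) (rd σ) T) := fun b hb =>
  cls_at (H.Q'_at (H.B0_sub hT hb)) (H.qy_hol hT hTo hy h0 b hb) (H.qy_ker hT hTo hy h0 b hb)

/-- values of `ν` -/
theorem LD.nuf_val (hT : T ⊆ T₀) (hTo : IsOpen T) (hy : M₀.On y (σ.Q12 T))
    (h0 : ∀ i, ∀ t ∈ T, cf σ Lam i y t = 0) {T' : Set (Fin k → ℂ)} {t : Fin k → ℂ} (ht : t ∈ T)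
    {b : Bs k} (hb : b ∈ fib (eB k) (DD σ) t) :
    (NH Q Q').pushVal (eB k) (DD σ) (isCompact_DD σ) t (nuf σ Q Q' Lam T' y t) b hb =
      cls Q Q' (qy σ Q Lam y) b :=
  (NH Q Q').pushVal_pushSec (eB k) (DD σ) (isCompact_DD σ)
    (fun x hx => H.cls_on hT hTo hy h0 x (fibB_sub σ ht hx)) b hb

theorem LD.c_sum (hT : T ⊆ T₀) (hTo : IsOpen T) (hy : M₀.On y (σ.Q12 T))
    (hy' : M₀.On y' (σ.Q12 T)) (h0 : ∀ i, ∀ t ∈ T, cf σ Lam i y t = 0)
    (h0' : ∀ i, ∀ t ∈ T, cf σ Lam i y' t = 0) :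
    ∀ i, ∀ t ∈ T, cf σ Lam i (fun x => y x + y' x) t = 0 := by
  intro i t ht
  rw [H.c_add hT hTo hy hy' i t ht, h0 i t ht, h0' i t ht, add_zero]

/-- solvability of `Q u = qy` on a polydisc if the class vanishes -/
theorem LD.solve (P : σ.Pd) (hP : P.Tc ⊆ T₀) (hy : M₀.On y (σ.Q12 P.T))
    (h0 : ∀ i, ∀ t ∈ P.T, cf σ Lam i y t = 0)
    (hq : ∀ b ∈ B0 (cb σ) (rd σ) P.T, ∃ u, gmat Q b *ᵥ u = gvec (qy σ Q Lam y) b) :
    ∃ u : Bs k → Fin m → ℂ, VHol u (B0 (cb σ) (rd σ) P.T) ∧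
      ∀ b ∈ B0 (cb σ) (rd σ) P.T, qy σ Q Lam y b = Q b *ᵥ u b := by
  have hTo := isOpen_PT σ P
  have hT : P.T ⊆ T₀ := (PT_sub σ P).trans hP
  have hsub := cboxP_sub σ P hP H.jw' H.jz'
  have hhol := H.qy_hol hT hTo hy h0
  rw [← boxP_eq] at hq hhol
  obtain ⟨u, hu, he⟩ := lin_solve_open (kapP P.κ) (kapP P.κ (σ.t₀, (cb σ).2.1, (cb σ).2.2)) (-1)
    (RP σ P) (goodRadii_RP σ P) Q (mHol_iff.mpr fun b hb => H.Q_at (hsub hb))
    (qy σ Q Lam y) hhol hq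
  rw [boxP_eq] at hu he hhol
  refine ⟨u, hu, fun b hb => ?_⟩
  exact ((mulVec_eq_of_gmat (H.Q_at (H.B0_sub hT hb)) (hu b hb) (hhol b hb)).mp
    (he b hb)).self_of_nhds.symm

/-- injectivity -/
theorem LD.inj_aux (P : σ.Pd) (hP : P.Tc ⊆ T₀) (hy : M₀.On y (σ.Q12 P.T))
    (h0 : ∀ i, ∀ t ∈ P.T, cf σ Lam i y t = 0)
    (hq : ∀ b ∈ B0 (cb σ) (rd σ) P.T, ∃ u, gmat Q b *ᵥ u = gvec (qy σ Q Lam y) b) :
    HZero M₀ σ P.T y := by
  have hTo := isOpen_PT σ P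
  have hT : P.T ⊆ T₀ := (PT_sub σ P).trans hP
  have hF := H.hol12 hT hTo hy
  have hmm := mm_of_cf h0
  obtain ⟨s1, s2, s3⟩ := mm_split hTo hF hmm
  obtain ⟨-, q1, q2⟩ := qf_spec hTo (H.Q_hol hT) hF hmm (H.ker12 hT hTo hy)
  obtain ⟨u, hu, he⟩ := H.solve P hP hy h0 hq
  -- the two sections
  obtain ⟨y₁, hy₁, e₁⟩ := H.lam.surj (B1 (cb σ) (rd σ) P.T) (H.B1_sub hT) (isOpen_B1 hTo)
    (fun b => pzv (cb σ) (rd σ).rz (rd σ).Rz (Lam y) b - u b)
    (fun l b hb => (s1 b hb l).sub (hu b (B1_sub_B0 _ _ _ hb) l)) (fun b hb => by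
      rw [Matrix.mulVec_sub, ← q1 b hb, ← he b (B1_sub_B0 _ _ _ hb)]
      exact sub_self _)
  obtain ⟨y₂, hy₂, e₂⟩ := H.lam.surj (B2 (cb σ) (rd σ) P.T) (H.B2_sub hT) (isOpen_B2 hTo)
    (fun b => -(pwv (cb σ) (rd σ).rw (rd σ).Rw (fun y' => Lam y y' -
      pzv (cb σ) (rd σ).rz (rd σ).Rz (Lam y) y') b + u b))
    (fun l b hb => ((s2 b hb l).add (hu b (B2_sub_B0 _ _ _ hb) l)).neg) (fun b hb => by
      have h1 := q2 b hb
      have h2 := he b (B2_sub_B0 _ _ _ hb)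
      change qf (cb σ) (rd σ) Q (Lam y) b = _ at h2
      rw [Matrix.mulVec_neg, Matrix.mulVec_add, ← h2, h1]
      simp)
  refine ⟨y₁, y₂, by rw [Q1_eq]; exact hy₁, by rw [Q2_eq]; exact hy₂, ?_⟩
  have hy₁' : M₀.On y₁ (σ.reg (B12 (cb σ) (rd σ) P.T)) := fun x hx =>
    hy₁ x ⟨B12_sub_B1 _ _ _ hx.1, hx.2⟩
  have hy₂' : M₀.On y₂ (σ.reg (B12 (cb σ) (rd σ) P.T)) := fun x hx =>
    hy₂ x ⟨B12_sub_B2 _ _ _ hx.1, hx.2⟩
  rw [Q12_eq] at hy ⊢
  -- `y + y₂ - y₁` vanishes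
  have hs := isOpen_B12 hTo (b₀ := cb σ) (ρ := rd σ)
  have hsh := H.B12_sub hT
  have hB : ∀ x ∈ σ.reg (B12 (cb σ) (rd σ) P.T), M₀.At (fun x => -(y₁ x)) x := fun x hx =>
    M₀.neg (hy₁' x hx)
  have hneg : ∀ b ∈ B12 (cb σ) (rd σ) P.T, Lam (fun x => -(y₁ x)) b = -(Lam y₁ b) := by
    intro b hb
    have h1 := H.lam.add _ hsh hs _ _ hy₁' hB b hb
    have h2 : Lam (fun x => y₁ x + -(y₁ x)) b = 0 := by
      have h3 := H.lam.smul _ hsh hs y₁ hy₁' (fun _ => 0) (fun b _ => HolAt.const 0 b) b hb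
      rw [zero_smul] at h3
      rw [← h3]
      refine H.lam.congr _ hsh hs _ _ (fun x hx => M₀.add (hy₁' x hx) (hB x hx)) (fun x hx => ?_)
        b hb
      have h4 : om (fun _ : V => (0 : ℂ)) x = 0 := om_zero x
      change y₁ x + -(y₁ x) = om (fun _ : V => (0 : ℂ)) x • y₁ x
      rw [h4, zero_smul, add_neg_cancel]
    rw [h2] at h1
    exact (neg_eq_of_add_eq_zero_right h1.symm).symm
  have hz := H.lam.inj _ hsh hs (fun x => (y x + y₂ x) + -(y₁ x))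
    (fun x hx => M₀.add (M₀.add (hy x hx) (hy₂' x hx)) (hB x hx)) (fun b hb => by
      rw [H.lam.add _ hsh hs (fun x => y x + y₂ x) _
        (fun x hx => M₀.add (hy x hx) (hy₂' x hx)) hB b hb,
        H.lam.add _ hsh hs _ _ hy hy₂' b hb, hneg b hb, e₁ b (B12_sub_B1 _ _ _ hb),
        e₂ b (B12_sub_B2 _ _ _ hb)]
      have h1 := s3 b hb
      conv_lhs => rw [h1]
      abel)
  intro x hx
  have h1 := hz x hx
  have h2 : y x = y₁ x - y₂ x := by
    rw [eq_sub_iff_add_eq]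
    exact add_neg_eq_zero.mp h1
  exact h2

/-- the structure of `H¹` of the shell -/
theorem LD.hx : HX M₀ σ T₀ (ℂ × ℂ × Fin m) (cf σ Lam) (NN σ Q Q') (nuf σ Q Q' Lam) where
  cohN := H.cohN
  c_hol i T hT hTo y hy := H.c_hol hT hTo hy i
  c_add i T hT hTo y y' hy hy' := H.c_add hT hTo hy hy' i
  c_smul i T hT hTo y hy f hf := H.c_smul hT hTo hy i hf
  c_congr i T hT hTo y y' hy h := H.c_congr hT hTo hy h i
  c_zero i T hT hTo y hy hz := H.c_zero hT hTo hy hz i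
  ν_on T hT hTo y hy h0 := fun t ht =>
    (NH Q Q').pushSec_at (eB k) (DD σ) (isCompact_DD σ)
      (fun x hx => H.cls_on hT hTo hy h0 x (fibB_sub σ ht hx))
  ν_add T hT hTo y y' hy hy' h0 h0' := by
    intro t ht
    refine (NH Q Q').push_ext (eB k) (DD σ) (isCompact_DD σ) t _ _ fun b hb => ?_
    have hb0 := fibB_sub σ ht hb
    have hyy : M₀.On (fun x => y x + y' x) (σ.Q12 T) := fun x hx => M₀.add (hy x hx) (hy' x hx)
    have hs0 := H.c_sum hT hTo hy hy' h0 h0'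
    rw [H.nuf_val hT hTo hyy hs0 ht hb]
    refine Eq.trans ?_ (EMod.pushVal_add (NH Q Q') (eB k) (DD σ) (isCompact_DD σ) t _ _ b hb).symm
    rw [H.nuf_val hT hTo hy h0 ht hb, H.nuf_val hT hTo hy' h0' ht hb]
    have e1 := H.qy_hol hT hTo hy h0 b hb0
    have e2 := H.qy_hol hT hTo hy' h0' b hb0
    rw [← cls_add e1 e2 (H.qy_ker hT hTo hy h0 b hb0) (H.qy_ker hT hTo hy' h0' b hb0)]
    refine cls_congr (gvec_congr (H.qy_hol hT hTo hyy hs0 b hb0) ?_)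
    filter_upwards [(isOpen_B0 hTo).mem_nhds hb0] with x hx
    exact H.qy_add hT hTo hy hy' x hx
  ν_smul T hT hTo y hy h0 f hf := by
    intro t ht
    refine (NH Q Q').push_ext (eB k) (DD σ) (isCompact_DD σ) t _ _ fun b hb => ?_
    have hb0 := fibB_sub σ ht hb
    have hfy : M₀.On (fun x => om (σ.ft f) x • y x) (σ.Q12 T) := fun x hx => by
      refine M₀.smul (O_at_gm ?_) (hy x hx)
      have hx1 : σ.t x ∈ T := hx.1
      exact HolAt.comp (g := σ.t) (hf _ hx1) (Eventually.of_forall fun z => by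
        unfold Sit.t
        exact (((ContinuousLinearMap.fst ℂ (Fin k → ℂ) (ℂ × ℂ)).comp
          (ContinuousLinearMap.fst ℂ (Bs k) (Fin d → ℂ))).comp
          (σ.e : V →L[ℂ] Bs k × (Fin d → ℂ))).differentiableAt)
    have hs0 : ∀ i, ∀ t ∈ T, cf σ Lam i (fun x => om (σ.ft f) x • y x) t = 0 := by
      intro i t ht
      rw [H.c_smul hT hTo hy i hf t ht, h0 i t ht, mul_zero]
    rw [H.nuf_val hT hTo hfy hs0 ht hb]
    have hft := hf t ht
    refine Eq.trans ?_ (EMod.pushVal_smul_om (NH Q Q') (eB k) (DD σ) (isCompact_DD σ) t hft _ b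
      hb).symm
    rw [H.nuf_val hT hTo hy h0 ht hb]
    have e1 := H.qy_hol hT hTo hy h0 b hb0
    have hb1 : b.1 ∈ T := hb0.1
    have hf1 : HolAt (fun z : Bs k => f z.1) b := HolAt.comp (g := fun z : Bs k => z.1)
      (hf b.1 hb1) (Eventually.of_forall fun _ => differentiableAt_fst)
    refine Eq.trans ?_ (cls_smul hf1 e1 (H.qy_ker hT hTo hy h0 b hb0))
    refine cls_congr (gvec_congr (H.qy_hol hT hTo hfy hs0 b hb0) ?_)
    filter_upwards [(isOpen_B0 hTo).mem_nhds hb0] with x hx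
    exact H.qy_smul hT hTo hy hf x hx
  ν_res T hT hTo T' hT' hTo' y hy h0 := fun t ht => rfl
  ν_congr T hT hTo y y' hy h h0 := by
    intro t ht
    have hy' : M₀.On y' (σ.Q12 T) := by
      intro x hx
      refine M₀.congr (hy x hx) ?_
      have ho : IsOpen (σ.Q12 T) := by
        rw [Q12_eq]
        have h1 : Continuous fun x : V => (σ.e x).1 := continuous_fst.comp σ.e.continuous
        have h2 : Continuous fun x : V => ‖σ.v x‖ := by
          unfold Sit.v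
          exact continuous_norm.comp ((continuous_snd.comp σ.e.continuous).sub continuous_const)
        exact ((isOpen_B12 hTo).preimage h1).inter (isOpen_lt h2 continuous_const)
      filter_upwards [ho.mem_nhds hx] with z hz
      exact h z hz
    have h0' : ∀ i, ∀ t ∈ T, cf σ Lam i y' t = 0 := by
      intro i t ht
      rw [← H.c_congr hT hTo hy h i t ht, h0 i t ht]
    refine (NH Q Q').push_ext (eB k) (DD σ) (isCompact_DD σ) t _ _ fun b hb => ?_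
    have hb0 := fibB_sub σ ht hb
    rw [H.nuf_val hT hTo hy h0 ht hb, H.nuf_val hT hTo hy' h0' ht hb]
    refine cls_congr (gvec_congr (H.qy_hol hT hTo hy h0 b hb0) ?_)
    filter_upwards [(isOpen_B0 hTo).mem_nhds hb0] with x hx
    exact H.qy_congr hT hTo hy h x hx
  ν_zero T hT hTo y hy hz := by
    intro t ht
    have h0 := H.c_zero hT hTo hy hz
    refine (NH Q Q').push_ext (eB k) (DD σ) (isCompact_DD σ) t _ _ fun b hb => ?_
    have hb0 := fibB_sub σ ht hb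
    have hb1 := H.B0_sub hT hb0
    rw [H.nuf_val hT hTo hy h0 ht hb]
    refine Eq.trans ?_ (EMod.pushVal_zero (NH Q Q') (eB k) (DD σ) (isCompact_DD σ) t b hb).symm
    exact (cls_eq_zero (H.Q_at hb1) (H.Q'_at hb1) (H.comp hb1)
      (H.qy_ker hT hTo hy h0 b hb0)).mpr (H.qy_zero hT hTo hy hz b hb0)
  inj P hP y hy h0 hν := by
    refine H.inj_aux P hP hy h0 fun b hb => ?_
    have hTo := isOpen_PT σ P
    have hT : P.T ⊆ T₀ := (PT_sub σ P).trans hP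
    have hb1 := H.B0_sub hT hb
    by_cases hbf : b ∈ fib (eB k) (DD σ) b.1
    · have h1 := H.nuf_val hT hTo hy h0 (T' := P.T) hb.1 hbf
      rw [hν b.1 hb.1] at h1
      have h2 : cls Q Q' (qy σ Q Lam y) b = 0 := h1.symm
      exact (cls_eq_zero (H.Q_at hb1) (H.Q'_at hb1) (H.comp hb1)
        (H.qy_ker hT hTo hy h0 b hb)).mp h2
    · refine H.exact ?_ _ (H.qy_ker hT hTo hy h0 b hb)
      rw [mem_fibB] at hbf
      have hw := σ.rw_lt
      have hz := σ.rz_lt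
      have hjw := H.jw
      have hjz := H.jz
      by_cases h1 : ‖b.2.1 - (cb σ).2.1‖ ≤ (σ.rw + σ.Rw) / 2
      · right
        have h2 : ¬ ‖b.2.2 - (cb σ).2.2‖ ≤ (σ.rz + σ.Rz) / 2 := fun h2 => hbf ⟨rfl, h1, h2⟩
        rw [not_le] at h2
        refine ⟨hb1.1, hb1.2.1, ⟨?_, hb1.2.2.2⟩⟩
        change jz < ‖b.2.2 - (cb σ).2.2‖
        linarith
      · left
        rw [not_le] at h1
        refine ⟨hb1.1, ⟨?_, hb1.2.1.2⟩, hb1.2.2⟩
        change jw < ‖b.2.1 - (cb σ).2.1‖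
        linarith

end Pool.Agent.DQ.M12
end

section

/-! Campaign DQ, module M12, block (g): `HShrink` from `LamData`, final form. -/

set_option autoImplicit false
set_option linter.unusedSectionVars false

open Set Filter Topology Matrix

universe u v w

namespace Pool.Agent.DQ.M12

variable {V : Type} [NormedAddCommGroup V] [NormedSpace ℂ V] [FiniteDimensional ℂ V] {k d : ℕ}
variable {M₀ : EMod.{0, 0, w} (O V)} {σ : Sit V k d} {T₀ : Set (Fin k → ℂ)} {jw jw' jz jz' : ℝ}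
  {m N N' : ℕ} {Q : Bs k → Matrix (Fin N) (Fin m) ℂ} {Q' : Bs k → Matrix (Fin N') (Fin N) ℂ}
  {Lam : ((x : V) → M₀.St x) → Bs k → Fin m → ℂ} {T : Set (Fin k → ℂ)}

theorem ring_ne {r R : ℝ} (h0 : 0 < r) (h : r < R) : (ring (0 : ℂ) r R).Nonempty := by
  refine ⟨(((r + R) / 2 : ℝ) : ℂ), ?_, ?_⟩
  · rw [sub_zero, Complex.norm_real, Real.norm_of_nonneg (by linarith)]
    linarith
  · rw [sub_zero, Complex.norm_real, Real.norm_of_nonneg (by linarith)]
    linarith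

/-- `LamData` for smaller `T₀` -/
theorem LamData.mono (h : LamData M₀ σ T₀ jw jw' jz jz' Q Q' Lam) (hT : T ⊆ T₀) (hTo : IsOpen T) :
    LamData M₀ σ T jw jw' jz jz' Q Q' Lam := by
  have h1 : ∀ r₁ R₁ r₂ R₂, σ.bx T r₁ R₁ r₂ R₂ ⊆ σ.bx T₀ r₁ R₁ r₂ R₂ :=
    fun r₁ R₁ r₂ R₂ b hb => ⟨hT hb.1, hb.2⟩
  have h2 : shell σ T jw jw' jz jz' ⊆ shell σ T₀ jw jw' jz jz' :=
    union_subset_union (h1 _ _ _ _) (h1 _ _ _ _)
  exact
    { T₀_open := hTo
      jw_pos := h.jw_pos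
      jw_lt := h.jw_lt
      jz_pos := h.jz_pos
      jz_lt := h.jz_lt
      Q_hol := fun i j b hb => h.Q_hol i j b (h1 _ _ _ _ hb)
      Q'_hol := fun i j b hb => h.Q'_hol i j b (h1 _ _ _ _ hb)
      comp := fun b hb => h.comp b (h1 _ _ _ _ hb)
      exact := fun b hb => h.exact b (h2 hb)
      hol := fun S hS => h.hol S (hS.trans h2)
      add := fun S hS => h.add S (hS.trans h2)
      smul := fun S hS => h.smul S (hS.trans h2)
      congr := fun S hS => h.congr S (hS.trans h2)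
      ker := fun S hS => h.ker S (hS.trans h2)
      inj := fun S hS => h.inj S (hS.trans h2)
      surj := fun S hS => h.surj S (hS.trans h2) }

variable (H : LD M₀ σ T₀ jw jw' jz jz' Q Q' Lam) {y y' : (x : V) → M₀.St x}

include H

/-- the data for the situation with smaller outer radii -/
theorem LD.shrink (Rw' Rz' : ℝ) (hw : σ.rw < Rw') (hz : σ.rz < Rz') (hw' : Rw' ≤ σ.Rw)
    (hz' : Rz' ≤ σ.Rz) : LD M₀ (σ.shrink Rw' Rz' hw hz) T₀ jw jw' jz jz' Q Q' Lam where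
  lam :=
    { T₀_open := H.lam.T₀_open
      jw_pos := H.lam.jw_pos
      jw_lt := H.lam.jw_lt
      jz_pos := H.lam.jz_pos
      jz_lt := H.lam.jz_lt
      Q_hol := H.lam.Q_hol
      Q'_hol := H.lam.Q'_hol
      comp := H.lam.comp
      exact := H.lam.exact
      hol := H.lam.hol
      add := H.lam.add
      smul := H.lam.smul
      congr := H.lam.congr
      ker := H.lam.ker
      inj := H.lam.inj
      surj := H.lam.surj }
  jw := H.jw
  jw' := hw'.trans_lt H.jw'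
  jz := H.jz
  jz' := hz'.trans_lt H.jz'

/-- vanishing of the class for smaller outer radii implies vanishing of the class -/
theorem LD.hshrink : HShrink M₀ σ T₀ := by
  intro Rw' Rz' hw hz hw' hz' P hP y hy hz0
  have hTo := isOpen_PT σ P
  have hT : P.T ⊆ T₀ := (PT_sub σ P).trans hP
  have H' := H.shrink Rw' Rz' hw hz hw' hz'
  have hy' : M₀.On y ((σ.shrink Rw' Rz' hw hz).Q12 P.T) := fun x hx =>
    hy x ⟨hx.1, ⟨hx.2.1.1, hx.2.1.2.trans_le hw'⟩, ⟨hx.2.2.1.1, hx.2.2.1.2.trans_le hz'⟩, hx.2.2.2⟩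
  obtain ⟨G₁, G₂, h₁, h₂, hq₁, hq₂, h⟩ := H'.hzero hT hTo hy' hz0
  have hF := H.hol12 hT hTo hy
  have hm' : ∀ b ∈ B12 (cb σ) (rd (σ.shrink Rw' Rz' hw hz)) P.T,
      mm (cb σ) (rd σ) (Lam y) b = 0 := by
    intro b hb
    rw [← mm_radius (ρ := rd σ) (ρ' := rd (σ.shrink Rw' Rz' hw hz)) rfl rfl hw' hz' hTo hF b hb]
    exact mm_eq_zero hTo h₁ h₂ h b hb
  have hm : ∀ b ∈ B12 (cb σ) (rd σ) P.T, mm (cb σ) (rd σ) (Lam y) b = 0 := by
    intro b hb
    funext l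
    have hh := mm_hol hTo hF
    exact ident_fib (b₀ := cb σ) (T := P.T) (W := ring 0 σ.rw σ.Rw) (Z := ring 0 σ.rz σ.Rz)
      (W' := ring 0 σ.rw Rw') (Z' := ring 0 σ.rz Rz') hTo (DQ.F.isOpen_ring _ _ _)
      (DQ.F.isPreconnected_ring _ _ _) (DQ.F.isOpen_ring _ _ _) (DQ.F.isPreconnected_ring _ _ _)
      (DQ.F.isOpen_ring _ _ _) (ring_mono le_rfl hw') (ring_ne σ.rw_pos hw)
      (DQ.F.isOpen_ring _ _ _) (ring_mono le_rfl hz') (ring_ne σ.rz_pos hz)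
      (f := fun b => mm (cb σ) (rd σ) (Lam y) b l) (g := fun _ => 0) (fun b hb => hh b hb l)
      (fun b _ => HolAt.const 0 b) (fun b hb => congrFun (hm' b hb) l) b hb
  obtain ⟨u, hu, he⟩ := qf_eq_mul (ρ' := rd (σ.shrink Rw' Rz' hw hz)) (ρ := rd σ) rfl rfl hw' hz'
    hTo (H.Q_hol hT) hF hm (H.ker12 hT hTo hy) h₁ h₂ hq₁ hq₂ h
  have h0 := cf_of_mm hm
  refine H.inj_aux P hP hy h0 fun b hb => ?_
  by_cases hb' : b ∈ B0 (cb σ) (rd (σ.shrink Rw' Rz' hw hz)) P.T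
  · refine ⟨gvec u b, ?_⟩
    have h3 := H.Q_at (H.B0_sub hT hb)
    rw [← gmat_mulVec h3 (hu b hb')]
    refine (gvec_congr (H.qy_hol hT hTo hy h0 b hb) ?_).symm
    filter_upwards [(isOpen_B0 hTo).mem_nhds hb'] with x hx
    exact he x hx
  · refine H.exact ?_ _ (H.qy_ker hT hTo hy h0 b hb)
    have hb1 := H.B0_sub hT hb
    have hjw := H.jw
    have hjz := H.jz
    by_cases h1 : ‖b.2.1 - (cb σ).2.1‖ < Rw'
    · right
      have h2 : ¬ ‖b.2.2 - (cb σ).2.2‖ < Rz' := by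
        intro h2
        refine hb' ⟨hb.1, ⟨hb.2.1.1, ?_⟩, ⟨hb.2.2.1, ?_⟩⟩
        · rw [sub_zero]
          exact h1
        · rw [sub_zero]
          exact h2
      rw [not_lt] at h2
      refine ⟨hb1.1, hb1.2.1, ⟨?_, hb1.2.2.2⟩⟩
      change jz < ‖b.2.2 - (cb σ).2.2‖
      linarith
    · left
      rw [not_lt] at h1
      refine ⟨hb1.1, ⟨?_, hb1.2.1.2⟩, hb1.2.2⟩
      change jw < ‖b.2.1 - (cb σ).2.1‖
      linarith

omit H

/-- **Block (g).** The structure of `H¹` of the shell. -/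
theorem hx_of_lam (h : LamData M₀ σ T jw jw' jz jz' Q Q' Lam)
    (h1 : jw < σ.rw) (h2 : σ.Rw < jw') (h3 : jz < σ.rz) (h4 : σ.Rz < jz') {τ₀ : ℝ} (hτ₀ : 0 < τ₀)
    (hT : Metric.closedBall σ.t₀ τ₀ ⊆ T) :
    ∃ (ι : Type) (c : ι → ((x : V) → M₀.St x) → (Fin k → ℂ) → ℂ)
      (𝒩 : EMod.{0, 0, 0} (O (Fin k → ℂ)))
      (ν : Set (Fin k → ℂ) → ((x : V) → M₀.St x) → (t : Fin k → ℂ) → 𝒩.St t),
      HX M₀ σ (Metric.ball σ.t₀ τ₀) ι c 𝒩 ν ∧ HShrink M₀ σ (Metric.ball σ.t₀ τ₀) := by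
  have H : LD M₀ σ (Metric.ball σ.t₀ τ₀) jw jw' jz jz' Q Q' Lam :=
    ⟨h.mono (Metric.ball_subset_closedBall.trans hT) Metric.isOpen_ball, h1, h2, h3, h4⟩
  exact ⟨_, _, _, _, H.hx, H.hshrink⟩

end Pool.Agent.DQ.M12
end

section

/-! # DQ, module M56, part a: the product sets are boxes in product coordinates -/

set_option autoImplicit false
set_option linter.unusedSectionVars false

open Set Filter Topology

universe u v w

namespace Pool.Agent.DQ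

theorem forall_fin_add5 {m n : ℕ} {p : Fin (m + n) → Prop} :
    (∀ i, p i) ↔ (∀ i, p (Fin.castAdd n i)) ∧ ∀ j, p (Fin.natAdd m j) :=
  ⟨fun h => ⟨fun _ => h _, fun _ => h _⟩, fun h i => Fin.addCases h.1 h.2 i⟩

theorem mem_ring_sub5 (x c : ℂ) (a b : ℝ) : x ∈ ring c a b ↔ x - c ∈ ring 0 a b := by
  simp [ring]

theorem mem_cring_sub5 (x c : ℂ) (a b : ℝ) : x ∈ cring c a b ↔ x - c ∈ cring 0 a b := by
  simp [cring]

section boxes

variable {V : Type} [NormedAddCommGroup V] [NormedSpace ℂ V] [FiniteDimensional ℂ V] {k d : ℕ}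

namespace Sit

variable (σ : Sit V k d) (P : σ.Pd)

/-- product coordinates, linear map -/
noncomputable def kapL5 : V →ₗ[ℂ] (Fin (P.l + (2 + d)) → ℂ) where
  toFun x := Fin.append (P.κ (σ.t x)) (Fin.append ![(σ.e x).1.2.1, (σ.e x).1.2.2] (σ.e x).2)
  map_add' x y := by
    funext i
    simp only [Sit.t]
    refine Fin.addCases (fun i => ?_) (fun i => ?_) i
    · simp
    · refine Fin.addCases (fun i => ?_) (fun i => ?_) i
      · fin_cases i <;> simp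
      · simp
  map_smul' a x := by
    funext i
    simp only [Sit.t]
    refine Fin.addCases (fun i => ?_) (fun i => ?_) i
    · simp
    · refine Fin.addCases (fun i => ?_) (fun i => ?_) i
      · fin_cases i <;> simp
      · simp

theorem kapL_t5 (x : V) (i : Fin P.l) : σ.kapL5 P x (Fin.castAdd _ i) = P.κ (σ.t x) i := by
  simp [kapL5]

theorem kapL_w5 (x : V) : σ.kapL5 P x (Fin.natAdd P.l (Fin.castAdd d 0)) = (σ.e x).1.2.1 := by
  simp [kapL5]

theorem kapL_z5 (x : V) : σ.kapL5 P x (Fin.natAdd P.l (Fin.castAdd d 1)) = (σ.e x).1.2.2 := by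
  simp [kapL5]

theorem kapL_v5 (x : V) (i : Fin d) :
    σ.kapL5 P x (Fin.natAdd P.l (Fin.natAdd 2 i)) = (σ.e x).2 i := by
  simp [kapL5]

theorem kapL_bij5 : Function.Bijective (σ.kapL5 P) := by
  constructor
  · intro x y h
    apply σ.e.injective
    have h1 := fun i => congrFun h i
    rw [forall_fin_add5] at h1
    obtain ⟨h2, h3⟩ := h1
    rw [forall_fin_add5] at h3
    obtain ⟨h3, h4⟩ := h3
    have e1 : σ.t x = σ.t y := by
      apply P.κ.injective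
      funext i
      have := h2 i
      rwa [kapL_t5, kapL_t5] at this
    have e2 : (σ.e x).1.2.1 = (σ.e y).1.2.1 := by
      have := h3 0
      rwa [kapL_w5, kapL_w5] at this
    have e3 : (σ.e x).1.2.2 = (σ.e y).1.2.2 := by
      have := h3 1
      rwa [kapL_z5, kapL_z5] at this
    have e4 : (σ.e x).2 = (σ.e y).2 := by
      funext i
      have := h4 i
      rwa [kapL_v5, kapL_v5] at this
    exact Prod.ext (Prod.ext e1 (Prod.ext e2 e3)) e4
  · intro f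
    refine ⟨σ.e.symm ((P.κ.symm fun i => f (Fin.castAdd _ i), f (Fin.natAdd P.l (Fin.castAdd d 0)),
      f (Fin.natAdd P.l (Fin.castAdd d 1))), fun i => f (Fin.natAdd P.l (Fin.natAdd 2 i))), ?_⟩
    funext i
    revert i
    rw [forall_fin_add5]
    refine ⟨fun i => ?_, ?_⟩
    · rw [kapL_t5]
      simp [Sit.t]
    · rw [forall_fin_add5, Fin.forall_fin_two]
      refine ⟨⟨?_, ?_⟩, fun i => ?_⟩
      · rw [kapL_w5]
        simp
      · rw [kapL_z5]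
        simp
      · rw [kapL_v5]
        simp

/-- product coordinates -/
noncomputable def kap5 : V ≃L[ℂ] (Fin (P.l + (2 + d)) → ℂ) :=
  (LinearEquiv.ofBijective (σ.kapL5 P) (σ.kapL_bij5 P)).toContinuousLinearEquiv

theorem kap_apply5 (x : V) : σ.kap5 P x = σ.kapL5 P x := rfl

/-- product radii -/
def rad5 {P : σ.Pd} (ρ : Fin P.l → ℝ) (a b c : ℝ) : Fin (P.l + (2 + d)) → ℝ :=
  Fin.append ρ (Fin.append ![a, b] fun _ => c)

variable {P}

theorem rad_t5 (ρ : Fin P.l → ℝ) (a b c : ℝ) (i : Fin P.l) :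
    σ.rad5 ρ a b c (Fin.castAdd _ i) = ρ i := by
  simp [rad5]

theorem rad_w5 (ρ : Fin P.l → ℝ) (a b c : ℝ) :
    σ.rad5 ρ a b c (Fin.natAdd P.l (Fin.castAdd d 0)) = a := by
  simp [rad5]

theorem rad_z5 (ρ : Fin P.l → ℝ) (a b c : ℝ) :
    σ.rad5 ρ a b c (Fin.natAdd P.l (Fin.castAdd d 1)) = b := by
  simp [rad5]

theorem rad_v5 (ρ : Fin P.l → ℝ) (a b c : ℝ) (i : Fin d) :
    σ.rad5 ρ a b c (Fin.natAdd P.l (Fin.natAdd 2 i)) = c := by
  simp [rad5]

variable (P)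

/-- a product set is a box -/
theorem pr_eq_box5 (hRv : 0 < σ.Rv) (a b a' b' : ℝ) : σ.pr P.T (ring 0 a b) (ring 0 a' b') =
    box (σ.kap5 P) (σ.kap5 P σ.y₀) (σ.rad5 (P := P) (-1) a a' (-1))
      (σ.rad5 (P := P) P.R b b' σ.Rv) := by
  ext x
  simp only [pr, box, mem_ofPred_eq, kap_apply5]
  rw [forall_fin_add5, forall_fin_add5, Fin.forall_fin_two]
  simp only [kapL_t5, kapL_w5, kapL_z5, kapL_v5, rad_t5, rad_w5, rad_z5, rad_v5]
  rw [mem_ring_sub5 (σ.e x).1.2.1, mem_ring_sub5 (σ.e x).1.2.2]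
  have h1 : ‖σ.v x‖ < σ.Rv ↔ ∀ i, (σ.e x).2 i ∈ ring ((σ.e σ.y₀).2 i) (-1) σ.Rv := by
    rw [pi_norm_lt_iff hRv]
    refine forall_congr' fun i => ?_
    exact ⟨fun h => ⟨by linarith [norm_nonneg ((σ.e x).2 i - (σ.e σ.y₀).2 i)], h⟩, fun h => h.2⟩
  rw [← h1]
  have h2 : σ.t x ∈ P.T ↔ ∀ i, P.κ (σ.t x) i ∈ ring (P.κ (σ.t σ.y₀) i) ((-1 : Fin P.l → ℝ) i)
    (P.R i) := Iff.rfl
  rw [h2]
  constructor
  · rintro ⟨h, h', h'', h3⟩
    exact ⟨h, ⟨h', h''⟩, h3⟩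
  · rintro ⟨h, ⟨h', h''⟩, h3⟩
    exact ⟨h, h', h'', h3⟩

/-- a closed product set is a closed box -/
theorem prc_eq_cbox5 (hRv : 0 < σ.Rv) (a b a' b' : ℝ) :
    σ.prc P.Tc (cring 0 a b) (cring 0 a' b') =
      cbox (σ.kap5 P) (σ.kap5 P σ.y₀) (σ.rad5 (P := P) (-1) a a' (-1))
        (σ.rad5 (P := P) P.R b b' σ.Rv) := by
  ext x
  simp only [prc, cbox, mem_ofPred_eq, kap_apply5]
  rw [forall_fin_add5, forall_fin_add5, Fin.forall_fin_two]
  simp only [kapL_t5, kapL_w5, kapL_z5, kapL_v5, rad_t5, rad_w5, rad_z5, rad_v5]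
  rw [mem_cring_sub5 (σ.e x).1.2.1, mem_cring_sub5 (σ.e x).1.2.2]
  have h1 : ‖σ.v x‖ ≤ σ.Rv ↔ ∀ i, (σ.e x).2 i ∈ cring ((σ.e σ.y₀).2 i) (-1) σ.Rv := by
    rw [pi_norm_le_iff_of_nonneg hRv.le]
    refine forall_congr' fun i => ?_
    exact ⟨fun h => ⟨by linarith [norm_nonneg ((σ.e x).2 i - (σ.e σ.y₀).2 i)], h⟩, fun h => h.2⟩
  rw [← h1]
  have h2 : σ.t x ∈ P.Tc ↔ ∀ i, P.κ (σ.t x) i ∈ cring (P.κ (σ.t σ.y₀) i) ((-1 : Fin P.l → ℝ) i)
    (P.R i) := Iff.rfl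
  rw [h2]
  constructor
  · rintro ⟨h, h', h'', h3⟩
    exact ⟨h, ⟨h', h''⟩, h3⟩
  · rintro ⟨h, ⟨h', h''⟩, h3⟩
    exact ⟨h, h', h'', h3⟩

theorem goodRadii_rad5 {a b a' b' : ℝ} (ha : a ≠ 0) (hab : a < b) (hb : 0 < b) (ha' : a' ≠ 0)
    (hab' : a' < b') (hb' : 0 < b') :
    GoodRadii (σ.rad5 (P := P) (-1) a a' (-1)) (σ.rad5 (P := P) P.R b b' σ.Rv) := by
  intro i
  revert i
  rw [forall_fin_add5, forall_fin_add5, Fin.forall_fin_two]
  simp only [rad_t5, rad_w5, rad_z5, rad_v5]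
  refine ⟨fun i => ⟨by simp, ?_, P.R_pos i⟩, ⟨⟨ha, hab, hb⟩, ha', hab', hb'⟩, fun i =>
    ⟨by norm_num, by linarith [σ.Rv_pos], σ.Rv_pos⟩⟩
  have := P.R_pos i
  simp only [Pi.neg_apply, Pi.one_apply]
  linarith

/-! ### The four product sets -/

/-- lower radii -/
def rQ15 : Fin (P.l + (2 + d)) → ℝ := σ.rad5 (P := P) (-1) σ.rw (-1) (-1)
/-- lower radii -/
def rQ25 : Fin (P.l + (2 + d)) → ℝ := σ.rad5 (P := P) (-1) (-1) σ.rz (-1)
/-- lower radii -/
def rQ125 : Fin (P.l + (2 + d)) → ℝ := σ.rad5 (P := P) (-1) σ.rw σ.rz (-1)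
/-- lower radii -/
def rKO5 : Fin (P.l + (2 + d)) → ℝ := σ.rad5 (P := P) (-1) (-1) (-1) (-1)
/-- upper radii -/
def RKO5 : Fin (P.l + (2 + d)) → ℝ := σ.rad5 (P := P) P.R σ.Rw σ.Rz σ.Rv

theorem Q1_eq5 : σ.Q1 P.T = box (σ.kap5 P) (σ.kap5 P σ.y₀) (σ.rQ15 P) (σ.RKO5 P) :=
  σ.pr_eq_box5 P σ.Rv_pos _ _ _ _

theorem Q2_eq5 : σ.Q2 P.T = box (σ.kap5 P) (σ.kap5 P σ.y₀) (σ.rQ25 P) (σ.RKO5 P) :=
  σ.pr_eq_box5 P σ.Rv_pos _ _ _ _

theorem Q12_eq5 : σ.Q12 P.T = box (σ.kap5 P) (σ.kap5 P σ.y₀) (σ.rQ125 P) (σ.RKO5 P) :=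
  σ.pr_eq_box5 P σ.Rv_pos _ _ _ _

theorem KO_eq5 : σ.KO P.T = box (σ.kap5 P) (σ.kap5 P σ.y₀) (σ.rKO5 P) (σ.RKO5 P) :=
  σ.pr_eq_box5 P σ.Rv_pos _ _ _ _

theorem Q1c_eq5 : σ.Q1c P.Tc = cbox (σ.kap5 P) (σ.kap5 P σ.y₀) (σ.rQ15 P) (σ.RKO5 P) :=
  σ.prc_eq_cbox5 P σ.Rv_pos _ _ _ _

theorem Q2c_eq5 : σ.Q2c P.Tc = cbox (σ.kap5 P) (σ.kap5 P σ.y₀) (σ.rQ25 P) (σ.RKO5 P) :=
  σ.prc_eq_cbox5 P σ.Rv_pos _ _ _ _

theorem KC_eq5 : σ.KC P.Tc = cbox (σ.kap5 P) (σ.kap5 P σ.y₀) (σ.rKO5 P) (σ.RKO5 P) :=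
  σ.prc_eq_cbox5 P σ.Rv_pos _ _ _ _

theorem Rw_pos5 : 0 < σ.Rw := σ.rw_pos.trans σ.rw_lt

theorem Rz_pos5 : 0 < σ.Rz := σ.rz_pos.trans σ.rz_lt

theorem good_Q15 : GoodRadii (σ.rQ15 P) (σ.RKO5 P) :=
  σ.goodRadii_rad5 P σ.rw_pos.ne' σ.rw_lt σ.Rw_pos5 (by norm_num) (by linarith [σ.Rz_pos5]) σ.Rz_pos5

theorem good_Q25 : GoodRadii (σ.rQ25 P) (σ.RKO5 P) :=
  σ.goodRadii_rad5 P (by norm_num) (by linarith [σ.Rw_pos5]) σ.Rw_pos5 σ.rz_pos.ne' σ.rz_lt σ.Rz_pos5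

theorem good_KO5 : GoodRadii (σ.rKO5 P) (σ.RKO5 P) :=
  σ.goodRadii_rad5 P (by norm_num) (by linarith [σ.Rw_pos5]) σ.Rw_pos5 (by norm_num)
    (by linarith [σ.Rz_pos5]) σ.Rz_pos5

theorem isOpen_Q15 : IsOpen (σ.Q1 P.T) := by
  rw [Q1_eq5]
  exact isOpen_box _ _ _ _

theorem isOpen_Q25 : IsOpen (σ.Q2 P.T) := by
  rw [Q2_eq5]
  exact isOpen_box _ _ _ _

theorem isOpen_Q125 : IsOpen (σ.Q12 P.T) := by
  rw [Q12_eq5]
  exact isOpen_box _ _ _ _

theorem isOpen_KO5 : IsOpen (σ.KO P.T) := by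
  rw [KO_eq5]
  exact isOpen_box _ _ _ _

theorem isCompact_KC5 : IsCompact (σ.KC P.Tc) := by
  rw [KC_eq5]
  exact isCompact_cbox _ _ _ _

theorem Pd.T_subset5 (P : σ.Pd) : P.T ⊆ P.Tc := fun _ h i => ⟨(h i).1.le, (h i).2.le⟩

theorem Pd.isOpen_T5 (P : σ.Pd) : IsOpen P.T := isOpen_box _ _ _ _

theorem Pd.mem_T5 (P : σ.Pd) : σ.t₀ ∈ P.T :=
  center_mem_box P.κ σ.t₀ (fun _ => by simp) P.R_pos

/-! ### Inclusions -/

theorem Q1_sub_KO5 (T : Set (Fin k → ℂ)) : σ.Q1 T ⊆ σ.KO T := fun x hx =>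
  ⟨hx.1, ⟨by linarith [norm_nonneg (σ.w x - 0)], hx.2.1.2⟩, hx.2.2.1, hx.2.2.2⟩

theorem Q2_sub_KO5 (T : Set (Fin k → ℂ)) : σ.Q2 T ⊆ σ.KO T := fun x hx =>
  ⟨hx.1, hx.2.1, ⟨by linarith [norm_nonneg (σ.z x - 0)], hx.2.2.1.2⟩, hx.2.2.2⟩

theorem Q12_sub_Q15 (T : Set (Fin k → ℂ)) : σ.Q12 T ⊆ σ.Q1 T := fun x hx =>
  ⟨hx.1, hx.2.1, ⟨by linarith [norm_nonneg (σ.z x - 0)], hx.2.2.1.2⟩, hx.2.2.2⟩

theorem Q12_sub_Q25 (T : Set (Fin k → ℂ)) : σ.Q12 T ⊆ σ.Q2 T := fun x hx =>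
  ⟨hx.1, ⟨by linarith [norm_nonneg (σ.w x - 0)], hx.2.1.2⟩, hx.2.2.1, hx.2.2.2⟩

theorem Q1_inter_Q25 (T : Set (Fin k → ℂ)) : σ.Q1 T ∩ σ.Q2 T = σ.Q12 T := by
  ext x
  exact ⟨fun h => ⟨h.1.1, h.1.2.1, h.2.2.2.1, h.1.2.2.2⟩,
    fun h => ⟨σ.Q12_sub_Q15 T h, σ.Q12_sub_Q25 T h⟩⟩

theorem Q1_sub_Q1c5 {T T' : Set (Fin k → ℂ)} (h : T ⊆ T') : σ.Q1 T ⊆ σ.Q1c T' := fun x hx =>
  ⟨h hx.1, ⟨hx.2.1.1.le, hx.2.1.2.le⟩, ⟨hx.2.2.1.1.le, hx.2.2.1.2.le⟩, hx.2.2.2.le⟩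

theorem Q2_sub_Q2c5 {T T' : Set (Fin k → ℂ)} (h : T ⊆ T') : σ.Q2 T ⊆ σ.Q2c T' := fun x hx =>
  ⟨h hx.1, ⟨hx.2.1.1.le, hx.2.1.2.le⟩, ⟨hx.2.2.1.1.le, hx.2.2.1.2.le⟩, hx.2.2.2.le⟩

theorem KO_sub_KC5 {T T' : Set (Fin k → ℂ)} (h : T ⊆ T') : σ.KO T ⊆ σ.KC T' := fun x hx =>
  ⟨h hx.1, ⟨hx.2.1.1.le, hx.2.1.2.le⟩, ⟨hx.2.2.1.1.le, hx.2.2.1.2.le⟩, hx.2.2.2.le⟩

theorem KC_mono5 {T T' : Set (Fin k → ℂ)} (h : T ⊆ T') : σ.KC T ⊆ σ.KC T' := fun _ hx =>
  ⟨h hx.1, hx.2⟩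

theorem Q1c_mono5 {T T' : Set (Fin k → ℂ)} (h : T ⊆ T') : σ.Q1c T ⊆ σ.Q1c T' := fun _ hx =>
  ⟨h hx.1, hx.2⟩

theorem Q2c_mono5 {T T' : Set (Fin k → ℂ)} (h : T ⊆ T') : σ.Q2c T ⊆ σ.Q2c T' := fun _ hx =>
  ⟨h hx.1, hx.2⟩

theorem Q1c_sub_KC5 (T : Set (Fin k → ℂ)) : σ.Q1c T ⊆ σ.KC T := fun x hx =>
  ⟨hx.1, ⟨by linarith [norm_nonneg (σ.w x - 0)], hx.2.1.2⟩, hx.2.2.1, hx.2.2.2⟩

theorem Q2c_sub_KC5 (T : Set (Fin k → ℂ)) : σ.Q2c T ⊆ σ.KC T := fun x hx =>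
  ⟨hx.1, hx.2.1, ⟨by linarith [norm_nonneg (σ.z x - 0)], hx.2.2.1.2⟩, hx.2.2.2⟩

/-! ### Continuity of the coordinates -/

theorem continuous_t5 : Continuous σ.t :=
  continuous_fst.comp (continuous_fst.comp σ.e.continuous)

theorem continuous_v5 : Continuous σ.v :=
  (continuous_snd.comp σ.e.continuous).sub continuous_const

end Sit

end boxes

end Pool.Agent.DQ
end
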