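import Pool.Agent.Lib.MP_4aa2a9_ag.Mg.G014
import Pool.Agent.Lib.MP_4aa2a9_ag.Mg.G011
import Pool.Agent.DQ.Mg_MP_4aa2a9_ag.G003
import Pool.Agent.Lib.MP_4aa2a9_ag.Mg.G018

section

/-! # DQ, module G, task GS8: sets of maximal codimension are discrete -/

set_option autoImplicit false

open Set Filter Topology Module IsLocalRing

universe u

namespace Pool.Agent.DQ

variable {V : Type u} [NormedAddCommGroup V] [NormedSpace ℂ V] [FiniteDimensional ℂ V]

private theorem GS8_hol_pow {f : V → ℂ} {x : V} (hf : HolAt f x) (k : ℕ) :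
    HolAt (fun y => f y ^ k) x := by
  filter_upwards [hf] with y h using h.pow k

private theorem GS8_gm_pow {f : V → ℂ} {x : V} (hf : HolAt f x) (k : ℕ) :
    (gm (fun y => f y ^ k) x : OGerm x) = gm f x ^ k := by
  induction k with
  | zero =>
    simp only [pow_zero]
    exact gm_one x
  | succ k ih =>
    have h1 : (fun y => f y ^ (k + 1)) = (fun y => f y ^ k) * f := by
      ext y
      simp [pow_succ]
    rw [h1, gm_mul (GS8_hol_pow hf k) hf, ih, pow_succ]

/-- **Maximal codimension means isolated.**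

Proof. Let `f` be as in `GCodim`. `exists_regLoc x` and `pow_le_of_gradeGE` give `k` with `maximalIdeal (OGerm x) ^ k ≤ gid f x`. Let `κ : V ≃L[ℂ] (Fin n → ℂ)` be coordinates. `gm (fun y => (κ y i - κ x i) ^ k) x = (gm (fun y => κ y i - κ x i) x) ^ k ∈ maximalIdeal ^ k ≤ gid f x`
(`gm_mul`, induction). By `mem_gid_near` the same relation holds at all `y` near `x`; if moreover `y ∈ Z` then all `f j y = 0` and `eq_zero_of_mem_gid` gives `(κ y i - κ x i) ^ k = 0`, so `κ y i = κ x i` for all `i` (if `k = 0` we get `1 = 0`, so there is no such `y`), `y = x`. -/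
theorem GCodim.isolated {Z : Set V} {x : V} (h : GCodim Z (finrank ℂ V) x) : ∀ᶠ y in 𝓝 x, y ∈ Z → y = x := by
  obtain ⟨m, f, hf, hZ, hgr⟩ := h
  obtain ⟨xs, hxs, hlen⟩ := exists_regLoc x
  rw [← hlen] at hgr
  obtain ⟨k, hk⟩ := pow_le_of_gradeGE hxs hgr
  have κ : V ≃L[ℂ] (Fin (finrank ℂ V) → ℂ) :=
    ContinuousLinearEquiv.ofFinrankEq (by rw [Module.finrank_fin_fun])
  have hh : ∀ (i : Fin (finrank ℂ V)) (y : V), HolAt (fun z => κ z i - κ x i) y := by
    intro i y
    apply HolAt.sub _ (HolAt.const _ _)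
    refine Eventually.of_forall fun z => ?_
    have h1 : DifferentiableAt ℂ (fun z => κ z) z := κ.differentiableAt
    exact (differentiableAt_pi.mp h1) i
  have h1 : ∀ i, (gm (fun y => (κ y i - κ x i) ^ k) x : OGerm x) ∈ gid f x := by
    intro i
    apply hk
    rw [GS8_gm_pow (hh i x) k]
    apply Ideal.pow_mem_pow
    rw [mem_maximalIdeal_iff, val_gm_g (hh i x), sub_self]
  have h2 := eventually_all.mpr fun i => mem_gid_near f hf (GS8_hol_pow (hh i x) k) (h1 i)
  filter_upwards [h2, hZ, eventually_all.mpr fun j => (hf j).eventually] with y hy hyZ hfy hyZ'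
  apply κ.injective
  funext i
  have h3 := eq_zero_of_mem_gid f hfy (GS8_hol_pow (hh i y) k) (hy i) (hyZ hyZ')
  have h4 : κ y i - κ x i = 0 := eq_zero_of_pow_eq_zero h3
  exact sub_eq_zero.mp h4

/-- **A set of maximal codimension in an open set is countable.**

Proof. For `x ∈ Ω` let `W x` be an open neighbourhood of `x` with `W x ∩ Z ⊆ {x}` (`GCodim.isolated`). Countably many `W (x_k)` cover `Ω` (second countable). So `Z ∩ Ω ⊆ {x_k}` is countable. -/
theorem countable_of_gCodim {Ω Z : Set V} (h : ∀ x ∈ Ω, GCodim Z (finrank ℂ V) x) : (Z ∩ Ω).Countable := by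
  classical
  have h1 : ∀ x ∈ Ω, ∃ W : Set V, IsOpen W ∧ x ∈ W ∧ ∀ y ∈ W, y ∈ Z → y = x := by
    intro x hx
    obtain ⟨W, hW, hWo, hxW⟩ := eventually_nhds_iff.mp (h x hx).isolated
    exact ⟨W, hWo, hxW, hW⟩
  choose! W hWo hxW hW using h1
  have : SecondCountableTopology V := by
    have : ProperSpace V := FiniteDimensional.proper ℂ V
    infer_instance
  obtain ⟨T, hT⟩ := TopologicalSpace.isOpen_iUnion_countable (fun x : Ω => W x)
    fun x => hWo x x.2
  refine (hT.1.image (fun x : Ω => (x : V))).mono ?_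
  rintro y ⟨hyZ, hyΩ⟩
  have hy : y ∈ ⋃ x : Ω, W x := mem_iUnion.mpr ⟨⟨y, hyΩ⟩, hxW y hyΩ⟩
  rw [← hT.2] at hy
  obtain ⟨x, hxT, hyx⟩ := mem_iUnion₂.mp hy
  exact ⟨x, hxT, (hW x x.2 y hyx hyZ).symm⟩

end Pool.Agent.DQ
end

section

/-! # DQ, module G, task GM3a: functions of one coordinate modulo other coordinates -/

set_option autoImplicit false

open Set Filter Topology Module RingTheory.Sequence

universe u w

namespace Pool.Agent.DQ

variable {V : Type u} [NormedAddCommGroup V] [NormedSpace ℂ V] [FiniteDimensional ℂ V]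
  {B : Type u} [NormedAddCommGroup B] [NormedSpace ℂ B] [FiniteDimensional ℂ B]

/-- A holomorphic function of one variable which is not eventually zero is `(s - s₀) ^ l * unit`.

Proof. `φ` is analytic at `s₀` (`Complex.analyticAt_iff_eventually_differentiableAt`); `AnalyticAt.exists_eventuallyEq_pow_smul_nonzero_iff` (or `AnalyticAt.analyticOrderAt_eq_natCast`). -/
theorem one_var_factor {φ : ℂ → ℂ} {s₀ : ℂ} (hφ : HolAt φ s₀) (h : ∃ᶠ s in 𝓝 s₀, φ s ≠ 0) :
    ∃ (l : ℕ) (ψ : ℂ → ℂ), HolAt ψ s₀ ∧ ψ s₀ ≠ 0 ∧ ∀ᶠ s in 𝓝 s₀, φ s = (s - s₀) ^ l * ψ s := by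
  have h1 : AnalyticAt ℂ φ s₀ := Complex.analyticAt_iff_eventually_differentiableAt.mpr hφ
  obtain ⟨l, ψ, hψ, hψ0, he⟩ := h1.exists_eventuallyEq_pow_smul_nonzero_iff.mpr (fun h2 =>
    h (h2.mono fun s hs hs' => hs' hs))
  refine ⟨l, ψ, Complex.analyticAt_iff_eventually_differentiableAt.mp hψ, hψ0, ?_⟩
  filter_upwards [he] with s hs
  rw [hs, smul_eq_mul]

/-- **Form of a function modulo coordinates.** Let `κ` be linear coordinates and `f` holomorphic near `x`, and suppose that modulo the first `i` coordinates (frozen at `x`) `f` depends only on the coordinate `j ≥ i`: `f (frz κ x i y) = φ (κ y j)` near `x`, where `φ` is not identically zero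
near `κ x j`. Then `f` is a unit times a power of the coordinate `j`, modulo the ideal of the first `i` coordinates.

Proof. `one_var_factor`: `φ s = (s - κ x j) ^ l * ψ s`. Let `c = gm (fun y => ψ (κ y j)) x`, a unit (`OGerm.isUnit_iff`, `val_gm_g`). The function `F y = f y - ψ (κ y j) * (κ y j - κ x j) ^ l` is holomorphic near `x` and `F (frz κ x i y) = 0` near `x` (`κ (frz κ x i y) j = κ y j` as `j ≥ i`, `frz_facts`).
`mem_span_coord_iff`. Translate `gm F x = gm f x - c * (gm (coordinate)) ^ l` (`gm_add`, `gm_neg`, `gm_mul`). -/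
theorem mod_coord {n : ℕ} (κ : V ≃L[ℂ] (Fin n → ℂ)) (x : V) {f : V → ℂ} (hf : HolAt f x) (i : ℕ) (j : Fin n)
    (hij : i ≤ (j : ℕ)) {φ : ℂ → ℂ} (hφ : HolAt φ (κ x j)) (h : ∀ᶠ y in 𝓝 x, f (frz κ x i y) = φ (κ y j))
    (h0 : ∃ᶠ s in 𝓝 (κ x j), φ s ≠ 0) :
    ∃ (c : (OGerm x)ˣ) (l : ℕ), gm f x - (c : OGerm x) * (gm (fun y => κ y j - κ x j) x : OGerm x) ^ l ∈
      Ideal.span ((fun j => (gm (fun y => κ y j - κ x j) x : OGerm x)) '' {j : Fin n | (j : ℕ) < i}) := by
  obtain ⟨l, ψ, hψ, hψ0, he⟩ := one_var_factor hφ h0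
  obtain ⟨-, hfx, -, -, hfc, -⟩ := frz_facts κ x i
  have hcd : ∀ᶠ y in 𝓝 x, DifferentiableAt ℂ (fun y => κ y j) y := Eventually.of_forall fun y =>
    ((ContinuousLinearMap.proj (R := ℂ) (φ := fun _ : Fin n => ℂ) j).comp
      (κ : V →L[ℂ] (Fin n → ℂ))).differentiableAt
  have hcont : Tendsto (fun y => κ y j) (𝓝 x) (𝓝 (κ x j)) :=
    hcd.self_of_nhds.continuousAt
  have hψc : HolAt (fun y => ψ (κ y j)) x := HolAt.comp (g := fun y => κ y j) hψ hcd
  have hX : HolAt (fun y => κ y j - κ x j) x := by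
    filter_upwards [hcd] with y hy using hy.sub_const _
  have hu : IsUnit (gm (fun y => ψ (κ y j)) x : OGerm x) := by
    rw [OGerm.isUnit_iff, val_gm_g hψc]
    exact hψ0
  obtain ⟨c, hc⟩ := hu
  have hpow : ∀ m : ℕ, HolAt (fun y => (κ y j - κ x j) ^ m) x ∧
      (gm (fun y => (κ y j - κ x j) ^ m) x : OGerm x) = (gm (fun y => κ y j - κ x j) x) ^ m := by
    intro m
    induction m with
    | zero =>
      refine ⟨by simpa using HolAt.const (1 : ℂ) x, ?_⟩
      have h1 : (fun y : V => (κ y j - κ x j) ^ 0) = 1 := by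
        funext y
        simp
      rw [h1, pow_zero, gm_one]
    | succ m ih =>
      have h1 : (fun y : V => (κ y j - κ x j) ^ (m + 1)) =
          (fun y => (κ y j - κ x j) ^ m) * (fun y => κ y j - κ x j) := by
        funext y
        rw [Pi.mul_apply, pow_succ]
      refine ⟨?_, ?_⟩
      · rw [h1]
        exact ih.1.mul hX
      · rw [h1, gm_mul ih.1 hX, ih.2, pow_succ]
  have hprod : HolAt ((fun y => ψ (κ y j)) * fun y => (κ y j - κ x j) ^ l) x := hψc.mul (hpow l).1
  have hneg : HolAt (-((fun y => ψ (κ y j)) * fun y => (κ y j - κ x j) ^ l)) x := hprod.neg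
  refine ⟨c, l, ?_⟩
  have h2 : gm f x - (c : OGerm x) * (gm (fun y => κ y j - κ x j) x : OGerm x) ^ l =
      gm (f + -((fun y => ψ (κ y j)) * fun y => (κ y j - κ x j) ^ l)) x := by
    rw [gm_add hf hneg, gm_neg hprod, gm_mul hψc (hpow l).1, (hpow l).2, hc, sub_eq_add_neg]
  rw [h2]
  have hi : i ≤ n := hij.trans j.2.le
  rw [mem_span_coord_iff κ x (f := f + -((fun y => ψ (κ y j)) * fun y => (κ y j - κ x j) ^ l))
    (hf.add hneg) i hi]
  filter_upwards [h, hcont.eventually he] with y h3 h4
  have h5 : κ (frz κ x i y) j = κ y j := by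
    rw [hfc y j, if_neg (not_lt.mpr hij)]
  rw [Pi.add_apply, Pi.neg_apply, Pi.mul_apply, h3, h5, h4]
  ring

end Pool.Agent.DQ
end

section

/-! # DQ, module G, task GM3c: the grade of the ideal of a base function and d monic polynomials -/

set_option autoImplicit false

open Set Filter Topology Module RingTheory.Sequence

universe u w

namespace Pool.Agent.DQ

variable {V : Type u} [NormedAddCommGroup V] [NormedSpace ℂ V] [FiniteDimensional ℂ V]
  {B : Type u} [NormedAddCommGroup B] [NormedSpace ℂ B] [FiniteDimensional ℂ B]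

private noncomputable def GM3c_app (m d : ℕ) :
    ((Fin m → ℂ) × (Fin d → ℂ)) ≃ₗ[ℂ] (Fin (m + d) → ℂ) where
  toFun p := Fin.append p.1 p.2
  map_add' p q := by
    funext i
    refine Fin.addCases (fun i => ?_) (fun i => ?_) i <;> simp
  map_smul' c p := by
    funext i
    refine Fin.addCases (fun i => ?_) (fun i => ?_) i <;> simp
  invFun f := (fun i => f (Fin.castAdd d i), fun i => f (Fin.natAdd m i))
  left_inv p := by
    refine Prod.ext ?_ ?_
    · funext i
      simp
    · funext i
      simp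
  right_inv f := by
    funext i
    refine Fin.addCases (fun i => ?_) (fun i => ?_) i <;> simp

omit [FiniteDimensional ℂ V] [FiniteDimensional ℂ B] in
private theorem GM3c_coord {m d : ℕ} (e : V ≃L[ℂ] B × (Fin d → ℂ)) (κB : B ≃L[ℂ] (Fin m → ℂ)) :
    ∃ κ : V ≃L[ℂ] (Fin (m + d) → ℂ), (∀ y i, κ y (Fin.castAdd d i) = κB (e y).1 i) ∧
      ∀ y i, κ y (Fin.natAdd m i) = (e y).2 i := by
  refine ⟨(e.trans (κB.prodCongr (ContinuousLinearEquiv.refl ℂ (Fin d → ℂ)))).trans
    (GM3c_app m d).toContinuousLinearEquiv, ?_, ?_⟩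
  · intro y i
    change Fin.append (κB (e y).1) (e y).2 (Fin.castAdd d i) = _
    rw [Fin.append_left]
  · intro y i
    change Fin.append (κB (e y).1) (e y).2 (Fin.natAdd m i) = _
    rw [Fin.append_right]

/-- **The ideal generated by a nonzero function of the base and `d` monic polynomials in the fibre variables has grade `≥ d + 1`.**

Proof. If `finrank ℂ B = 0`: `α` is a nonzero constant near `b` (`B` is a point), so `gm (α ∘ …) x` is a unit, the ideal is `⊤`: `GradeGE.of_top`. Otherwise `finrank ℂ B = n' + 1`; let `κB` be as in `exists_coord_dir`. Let `κ : V ≃L[ℂ] (Fin (n' + 1 + d) → ℂ)`, `κ y = Fin.append (κB (e y).1) (e y).2`.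
The coordinates `0, …, n'-1` are the list `ts`, the coordinate `n'` is `t`, the coordinates `n'+1, …` are the list `vs` (length `d`); `regLoc_coord κ x`: `ts ++ t :: vs` is a regular sequence in the maximal ideal (`List.ofFn` of an append: `List.ofFn_fin_append`, `List.ofFn_succ'`/`List.ofFn_add`).
(1) `f = α ∘ fst ∘ e`: `mod_coord` with `i = n'`, `j = n'` (index `Fin.natAdd`/castAdd of the last): `frz κ x n' y` has the same first `n'` coordinates as `x`, so its `B`-component is `(e x).1 + (κ y n' - κ x n') • κB.symm (Pi.single (last) 1)`, so `f (frz κ x n' y) = φ (κ y n')` with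
`φ s = α (b + (s - κ x n') • κB.symm (Pi.single last 1))`, which is not identically zero near `κ x n'`.
(2) `f_i = mon (a i) (e y).1 ((e y).2 i)`: `mod_coord` with index `n' + 1` (all `B`-coordinates frozen): `φ s = mon (a i) b s`, a monic polynomial in `s`, so not identically zero near any point (finitely many roots; if its degree is `0` it is `1`).
`gradeGE_monic_succ` (the ideals `Ideal.ofList ts`, `Ideal.ofList (ts ++ [t])` are the spans of the coordinates `< n'`, `< n' + 1`). -/
theorem gradeGE_fibre {d : ℕ} (e : V ≃L[ℂ] B × (Fin d → ℂ)) (x : V) {α : B → ℂ} (hα : HolAt α (e x).1)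
    (hα0 : (gm α (e x).1 : OGerm (e x).1) ≠ 0) (l : Fin d → ℕ) (a : ∀ i, Fin (l i) → B → ℂ)
    (ha : ∀ i j, HolAt (a i j) (e x).1) (I : Ideal (OGerm x))
    (h1 : (gm (fun y => α (e y).1) x : OGerm x) ∈ I)
    (h2 : ∀ i, (gm (fun y => mon (a i) (e y).1 ((e y).2 i)) x : OGerm x) ∈ I) : GradeGE I (d + 1) := by
  have hfst : ∀ᶠ y in 𝓝 x, DifferentiableAt ℂ (fun y => (e y).1) y := Eventually.of_forall fun y =>
    ((ContinuousLinearMap.fst ℂ B (Fin d → ℂ)).comp (e : V →L[ℂ] B × (Fin d → ℂ))).differentiableAt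
  have hsnd : ∀ i : Fin d, HolAt (fun y => (e y).2 i) x := fun i => Eventually.of_forall fun y =>
    ((ContinuousLinearMap.proj (R := ℂ) (φ := fun _ : Fin d => ℂ) i).comp
      ((ContinuousLinearMap.snd ℂ B (Fin d → ℂ)).comp
        (e : V →L[ℂ] B × (Fin d → ℂ)))).differentiableAt
  have hf : HolAt (fun y => α (e y).1) x := HolAt.comp (g := fun y => (e y).1) hα hfst
  rcases Nat.eq_zero_or_pos (finrank ℂ B) with hB | hB
  · have hsub : Subsingleton B := Module.finrank_zero_iff.mp hB
    refine GradeGE.of_top (Ideal.eq_top_of_isUnit_mem _ h1 ?_) _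
    rw [OGerm.isUnit_iff, val_gm_g hf]
    intro h0
    apply hα0
    have h2 : gm α (e x).1 = gm (0 : B → ℂ) (e x).1 := by
      refine (gm_eq_iff hα (HolAt.const 0 _)).mpr (Eventually.of_forall fun y => ?_)
      rw [Subsingleton.elim y (e x).1]
      exact h0
    rw [h2, gm_zero]
  obtain ⟨n', hn'⟩ : ∃ n', finrank ℂ B = n' + 1 := ⟨finrank ℂ B - 1, by omega⟩
  obtain ⟨κB, hκB⟩ := exists_coord_dir hn' hα hα0
  obtain ⟨κ, hκ1, hκ2⟩ := GM3c_coord e κB
  set X : Fin (n' + 1 + d) → OGerm x := fun i => gm (fun y => κ y i - κ x i) x with hX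
  set ts : List (OGerm x) := List.ofFn fun i : Fin n' => X (Fin.castAdd d i.castSucc) with hts
  set t : OGerm x := X (Fin.castAdd d (Fin.last n')) with ht
  set vs : List (OGerm x) := List.ofFn fun i : Fin d => X (Fin.natAdd (n' + 1) i) with hvs
  have hlist : List.ofFn X = ts ++ t :: vs := by
    rw [List.ofFn_add, List.ofFn_succ', List.concat_eq_append, List.append_assoc]
    rfl
  have hreg := regLoc_coord κ x
  have hreg' : RegLoc (OGerm x) (ts ++ t :: vs) := by
    rw [← hlist]
    exact hreg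
  have hm : ∀ r ∈ ts ++ t :: vs, r ∈ IsLocalRing.maximalIdeal (OGerm x) := by
    intro r hr
    rw [hreg'.span]
    exact Ideal.subset_span hr
  have hspan1 : Ideal.span ((fun j => (gm (fun y => κ y j - κ x j) x : OGerm x)) ''
      {j : Fin (n' + 1 + d) | (j : ℕ) < n'}) ≤ Ideal.ofList ts := by
    rw [Ideal.span_le]
    rintro _ ⟨j, hj, rfl⟩
    refine Ideal.subset_span ?_
    have h3 : j = Fin.castAdd d (Fin.castSucc ⟨(j : ℕ), hj⟩) := Fin.ext rfl
    change X j ∈ ts
    rw [h3, hts, List.mem_ofFn]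
    exact ⟨⟨(j : ℕ), hj⟩, rfl⟩
  have hspan2 : Ideal.span ((fun j => (gm (fun y => κ y j - κ x j) x : OGerm x)) ''
      {j : Fin (n' + 1 + d) | (j : ℕ) < n' + 1}) ≤ Ideal.ofList (ts ++ [t]) := by
    rw [Ideal.span_le]
    rintro _ ⟨j, hj, rfl⟩
    refine Ideal.subset_span ?_
    change X j ∈ ts ++ [t]
    rw [List.mem_append]
    have hj' : (j : ℕ) < n' + 1 := hj
    rcases Nat.lt_or_ge (j : ℕ) n' with h3 | h3
    · left
      have h4 : j = Fin.castAdd d (Fin.castSucc ⟨(j : ℕ), h3⟩) := Fin.ext rfl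
      rw [h4, hts, List.mem_ofFn]
      exact ⟨⟨(j : ℕ), h3⟩, rfl⟩
    · right
      have h4 : j = Fin.castAdd d (Fin.last n') := Fin.ext (by simp; omega)
      rw [List.mem_singleton, h4]
  have hfz : ∀ (i : ℕ) (y : V) (j : Fin (n' + 1 + d)), κ (frz κ x i y) j =
      if (j : ℕ) < i then κ x j else κ y j := fun i y j => (frz_facts κ x i).2.2.2.2.1 y j
  have hmain := gradeGE_monic_succ ts t vs hreg'.reg hm I ?_ ?_
  · rw [hvs, List.length_ofFn] at hmain
    exact hmain
  · -- the function of the base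
    set j : Fin (n' + 1 + d) := Fin.castAdd d (Fin.last n') with hj
    have hjv : (j : ℕ) = n' := rfl
    set w : B := κB.symm (Pi.single (Fin.last n') 1) with hw
    have hκw : ∀ i, κB w i = if i = Fin.last n' then 1 else 0 := by
      intro i
      rw [hw, ContinuousLinearEquiv.apply_symm_apply, Pi.single_apply]
    have hφ : HolAt (fun s : ℂ => α ((e x).1 + (s - κ x j) • w)) (κ x j) := by
      refine HolAt.comp (f := α) (g := fun s : ℂ => (e x).1 + (s - κ x j) • w) ?_ ?_
      · rw [sub_self, zero_smul, add_zero]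
        exact hα
      · exact Eventually.of_forall fun s =>
          ((differentiableAt_id.sub_const _).smul_const w).const_add _
    obtain ⟨c, l', hcl⟩ := mod_coord κ x hf n' j (le_of_eq hjv.symm) hφ
      (Eventually.of_forall fun y => by
        change α (e (frz κ x n' y)).1 = α ((e x).1 + (κ y j - κ x j) • w)
        congr 1
        apply κB.injective
        funext i
        rw [← hκ1, hfz, map_add, map_smul, Pi.add_apply, Pi.smul_apply, hκw, smul_eq_mul, ← hκ1]
        by_cases hi : i = Fin.last n'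
        · subst hi
          rw [if_pos rfl, if_neg (by simp), ← hj]
          ring
        · have hi' : (i : ℕ) < n' := by
            have h5 : (i : ℕ) ≠ n' := fun h => hi (Fin.ext h)
            have := i.2
            omega
          rw [if_neg hi, if_pos (by simpa using hi'), mul_zero, add_zero])
      (by
        have h5 : Tendsto (fun s : ℂ => s + κ x j) (𝓝 0) (𝓝 (κ x j)) := by
          have h6 : ContinuousAt (fun s : ℂ => s + κ x j) 0 := by fun_prop
          have h7 := h6.tendsto
          rwa [zero_add] at h7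
        refine h5.frequently ?_
        refine hκB.mono fun s hs => ?_
        rw [add_sub_cancel_right]
        exact hs)
    exact ⟨_, h1, c, l', hspan1 hcl⟩
  · intro v hv
    rw [hvs, List.mem_ofFn] at hv
    obtain ⟨i, rfl⟩ := hv
    set j : Fin (n' + 1 + d) := Fin.natAdd (n' + 1) i with hj
    have hjv : (j : ℕ) = n' + 1 + i := rfl
    have hpow : ∀ {E : Type u} [NormedAddCommGroup E] [NormedSpace ℂ E] {g : E → ℂ} {z : E} (m : ℕ),
        HolAt g z → HolAt (fun y => g y ^ m) z := by
      intro E _ _ g z m hg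
      filter_upwards [hg] with y hy using hy.pow m
    have hpow1 : ∀ {g : ℂ → ℂ} {z : ℂ} (m : ℕ), HolAt g z → HolAt (fun y => g y ^ m) z := by
      intro g z m hg
      filter_upwards [hg] with y hy using hy.pow m
    have hfi : HolAt (fun y => mon (a i) (e y).1 ((e y).2 i)) x := by
      unfold mon
      refine (hpow (l i) (hsnd i)).add (HolAt.sum _ fun k _ => ?_)
      exact (HolAt.comp (g := fun y => (e y).1) (ha i k) hfst).mul (hpow _ (hsnd i))
    have hid : HolAt (fun s : ℂ => s) (κ x j) := Eventually.of_forall fun s => differentiableAt_id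
    have hφ : HolAt (fun s : ℂ => mon (a i) (e x).1 s) (κ x j) := by
      unfold mon
      refine (hpow1 (l i) hid).add (HolAt.sum _ fun k _ => ?_)
      exact (HolAt.const _ _).mul (hpow1 _ hid)
    obtain ⟨c, l', hcl⟩ := mod_coord κ x hfi (n' + 1) j (by rw [hjv]; omega) hφ
      (Eventually.of_forall fun y => by
        change mon (a i) (e (frz κ x (n' + 1) y)).1 ((e (frz κ x (n' + 1) y)).2 i) =
          mon (a i) (e x).1 (κ y j)
        have h5 : (e (frz κ x (n' + 1) y)).1 = (e x).1 := by
          apply κB.injective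
          funext k
          rw [← hκ1, hfz, if_pos (by have := k.2; simpa using this), hκ1]
        have h6 : (e (frz κ x (n' + 1) y)).2 i = κ y j := by
          rw [← hκ2, hfz, if_neg (by simp; omega)]
        rw [h5, h6])
      (by
        intro hcon
        have h5 : {s : ℂ | mon (a i) (e x).1 s = 0} ∈ 𝓝 (κ x j) :=
          hcon.mono fun s hs => not_not.mp hs
        have h6 : {s : ℂ | mon (a i) (e x).1 s = 0}.Infinite := infinite_of_mem_nhds _ h5
        set P : Polynomial ℂ := Polynomial.X ^ (l i) +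
          ∑ k : Fin (l i), Polynomial.C (a i k (e x).1) * Polynomial.X ^ (k : ℕ) with hP
        have hPe : ∀ s, P.eval s = mon (a i) (e x).1 s := by
          intro s
          simp [hP, mon, Polynomial.eval_finsetSum]
        have hP0 : P = 0 := by
          refine Polynomial.eq_zero_of_infinite_isRoot P (h6.mono fun s hs => ?_)
          change P.eval s = 0
          rw [hPe]
          exact hs
        have hmonic : P.Monic := by
          refine Polynomial.monic_X_pow_add ?_
          refine (Polynomial.degree_sum_le _ _).trans_lt ?_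
          rw [Finset.sup_lt_iff (by exact_mod_cast WithBot.bot_lt_coe _)]
          intro k _
          refine (Polynomial.degree_C_mul_X_pow_le _ _).trans_lt ?_
          exact_mod_cast k.2
        exact hmonic.ne_zero hP0)
    exact ⟨_, h2 i, c, l', hspan2 hcl⟩

end Pool.Agent.DQ
end
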