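import Pool.Agent.Lib.MP_4aa2a9_ag.Mg.G003
import Pool.Agent.Lib.MP_4aa2a9_ag.Mg.G012
import Pool.Agent.DQ.Mg_MP_4aa2a9_ag.G002
import Pool.Agent.Lib.MP_4aa2a9_ag.Mg.G002

section

/-! # DQ, module G, task GM6: a split presentation is locally free -/

set_option autoImplicit false

open Set Filter Topology Module Matrix

universe u w

namespace Pool.Agent.DQ

variable {B : Type u} [NormedAddCommGroup B] [NormedSpace ℂ B] [FiniteDimensional ℂ B]

/-- A basis of `ℂ^p` adapted to an idempotent matrix acting on row vectors.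

Proof. `x ↦ x ᵥ* P` is an idempotent endomorphism of `ℂ^p`; the space is the direct sum of its range `{x | x ᵥ* P = x}` and its kernel (`LinearMap.IsIdempotentElem.isCompl` / `IsIdempotentElem`). Take bases of the two subspaces, indexed by `Fin r` and `Fin s`, `r + s = p`
(`Submodule.finrank_add_eq_of_isCompl`), and put them together (`Basis.prod`/`Submodule.prodEquivOfIsCompl`), reindexed by `finSumFinEquiv`. `W` is the matrix with these rows; it is invertible as its rows form a basis. -/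
theorem exists_adapted {p : ℕ} (P : Matrix (Fin p) (Fin p) ℂ) (hP : P * P = P) :
    ∃ (r s : ℕ) (hrs : r + s = p) (W : Matrix (Fin (r + s)) (Fin p) ℂ), (∀ i : Fin r, W (Fin.castAdd s i) ᵥ* P = W (Fin.castAdd s i)) ∧
      (∀ i : Fin s, W (Fin.natAdd r i) ᵥ* P = 0) ∧ (W.submatrix (Fin.cast hrs.symm) id).det ≠ 0 := by
  classical
  set f : (Fin p → ℂ) →ₗ[ℂ] (Fin p → ℂ) := Matrix.vecMulLinear P with hf
  have hfa : ∀ v, f v = v ᵥ* P := fun v => rfl
  have hid : IsIdempotentElem f := by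
    apply LinearMap.ext
    intro v
    change f (f v) = f v
    rw [hfa, hfa, Matrix.vecMul_vecMul, hP]
  have hc := LinearMap.IsIdempotentElem.isCompl hid
  have hrs : finrank ℂ (LinearMap.range f) + finrank ℂ (LinearMap.ker f) = p := by
    rw [LinearMap.finrank_range_add_finrank_ker, Module.finrank_fin_fun]
  let b1 := Module.finBasis ℂ (LinearMap.range f)
  let b2 := Module.finBasis ℂ (LinearMap.ker f)
  let b := ((b1.prod b2).map (Submodule.prodEquivOfIsCompl _ _ hc)).reindex finSumFinEquiv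
  have hb1 : ∀ i, b (Fin.castAdd _ i) = (b1 i : Fin p → ℂ) := by
    intro i
    simp [b, Module.Basis.reindex_apply, finSumFinEquiv_symm_apply_castAdd]
  have hb2 : ∀ i, b (Fin.natAdd _ i) = (b2 i : Fin p → ℂ) := by
    intro i
    simp [b, Module.Basis.reindex_apply, finSumFinEquiv_symm_apply_natAdd]
  refine ⟨_, _, hrs, Matrix.of fun k => b k, fun i => ?_, fun i => ?_, ?_⟩
  · change b (Fin.castAdd _ i) ᵥ* P = b (Fin.castAdd _ i)
    rw [hb1, ← hfa]
    obtain ⟨w, hw⟩ := (b1 i).2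
    rw [← hw]
    exact LinearMap.congr_fun hid w
  · change b (Fin.natAdd _ i) ᵥ* P = 0
    rw [hb2, ← hfa]
    exact (b2 i).2
  · have hli : LinearIndependent ℂ
        ((Matrix.of fun k => b k).submatrix (Fin.cast hrs.symm) id).row := by
      have h1 := b.linearIndependent.comp (Fin.cast hrs.symm) (Fin.cast_injective _)
      exact h1
    have h2 := (Matrix.isUnit_iff_isUnit_det _).1 (Matrix.linearIndependent_rows_iff_isUnit.1 hli)
    exact h2.ne_zero

private theorem GM6_alg {R : Type u} [CommRing R] {M : Type w} [AddCommGroup M] [Module R M]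
    {r t q : ℕ} (g : Fin (r + t) → M) (hgen : Submodule.span R (range g) = ⊤)
    (b : Matrix (Fin q) (Fin (r + t)) R)
    (hrel : ∀ v : Fin (r + t) → R, ∑ i, v i • g i = 0 ↔
      v ∈ Submodule.span R (range fun k => b k))
    (s : Matrix (Fin (r + t)) (Fin q) R) (hbsb : b * s * b = b)
    (W : Matrix (Fin (r + t)) (Fin (r + t)) R) (hdet : IsUnit W.det)
    (h1 : ∀ i : Fin r, W (Fin.castAdd t i) ᵥ* (s * b) = 0)
    (h2 : ∀ i : Fin t, W (Fin.natAdd r i) ᵥ* (s * b) = W (Fin.natAdd r i)) (m : M) :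
    ∃! a : Fin r → R, m = ∑ i, a i • ∑ j, W (Fin.castAdd t i) j • g j := by
  classical
  set φ : (Fin (r + t) → R) →ₗ[R] M := Fintype.linearCombination R g with hφ
  have hφa : ∀ v, φ v = ∑ i, v i • g i := fun v => rfl
  have hA : ∀ v, φ v = 0 ↔ v ᵥ* (s * b) = v := by
    intro v
    rw [hφa, hrel v]
    constructor
    · intro hv
      obtain ⟨u, hu⟩ := (Submodule.mem_span_range_iff_exists_fun R).1 hv
      have hu' : u ᵥ* b = v := by rw [Matrix.vecMul_eq_sum]; exact hu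
      rw [← hu', Matrix.vecMul_vecMul, ← Matrix.mul_assoc, hbsb]
    · intro hv
      rw [← hv, ← Matrix.vecMul_vecMul, Matrix.vecMul_eq_sum]
      exact (Submodule.mem_span_range_iff_exists_fun R).2 ⟨v ᵥ* s, rfl⟩
  have hsum : ∀ c : Fin (r + t) → R, c ᵥ* W =
      ∑ i : Fin r, c (Fin.castAdd t i) • W (Fin.castAdd t i) +
        ∑ i : Fin t, c (Fin.natAdd r i) • W (Fin.natAdd r i) := by
    intro c
    rw [Matrix.vecMul_eq_sum, Fin.sum_univ_add]
  have hm : ∃ v, φ v = m := by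
    have : m ∈ Submodule.span R (range g) := by rw [hgen]; exact Submodule.mem_top
    obtain ⟨v, hv⟩ := (Submodule.mem_span_range_iff_exists_fun R).1 this
    exact ⟨v, hv⟩
  obtain ⟨v, hv⟩ := hm
  have hφW : ∀ a : Fin r → R, φ (∑ i, a i • W (Fin.castAdd t i)) =
      ∑ i, a i • ∑ j, W (Fin.castAdd t i) j • g j := by
    intro a
    rw [map_sum]
    refine Finset.sum_congr rfl fun i _ => ?_
    rw [map_smul, hφa]
  refine ⟨fun i => (v ᵥ* W⁻¹) (Fin.castAdd t i), ?_, ?_⟩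
  · have h3 : (v ᵥ* W⁻¹) ᵥ* W = v := by
      rw [Matrix.vecMul_vecMul, Matrix.nonsing_inv_mul _ hdet, Matrix.vecMul_one]
    rw [hsum] at h3
    change m = ∑ i, (v ᵥ* W⁻¹) (Fin.castAdd t i) • ∑ j, W (Fin.castAdd t i) j • g j
    rw [← hφW, ← hv]
    conv_lhs => rw [← h3]
    rw [map_add]
    have h4 : φ (∑ i : Fin t, (v ᵥ* W⁻¹) (Fin.natAdd r i) • W (Fin.natAdd r i)) = 0 := by
      rw [map_sum]
      refine Finset.sum_eq_zero fun i _ => ?_
      rw [map_smul, (hA _).2 (h2 i), smul_zero]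
    rw [h4, add_zero]
  · intro a ha
    have ha' : m = φ (∑ i, a i • W (Fin.castAdd t i)) := by rw [hφW]; exact ha
    have h3 : (v ᵥ* W⁻¹) ᵥ* W = v := by
      rw [Matrix.vecMul_vecMul, Matrix.nonsing_inv_mul _ hdet, Matrix.vecMul_one]
    set c := v ᵥ* W⁻¹ with hc
    -- the difference of `v` and the combination is a relation
    have h5 : φ (∑ i, (c (Fin.castAdd t i) - a i) • W (Fin.castAdd t i)) = 0 := by
      have h6 : (∑ i, (c (Fin.castAdd t i) - a i) • W (Fin.castAdd t i)) =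
          (∑ i, c (Fin.castAdd t i) • W (Fin.castAdd t i)) -
            ∑ i, a i • W (Fin.castAdd t i) := by
        rw [← Finset.sum_sub_distrib]
        exact Finset.sum_congr rfl fun i _ => sub_smul _ _ _
      have h7 : φ (∑ i, c (Fin.castAdd t i) • W (Fin.castAdd t i)) = m := by
        rw [hsum] at h3
        have h4 : φ (∑ i : Fin t, c (Fin.natAdd r i) • W (Fin.natAdd r i)) = 0 := by
          rw [map_sum]
          refine Finset.sum_eq_zero fun i _ => ?_
          rw [map_smul, (hA _).2 (h2 i), smul_zero]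
        have h8 : φ v = m := hv
        rw [← h3, map_add, h4, add_zero] at h8
        exact h8
      rw [h6, map_sub, h7, ← ha', sub_self]
    have h9 := (hA _).1 h5
    have h10 : (∑ i, (c (Fin.castAdd t i) - a i) • W (Fin.castAdd t i)) ᵥ* (s * b) = 0 := by
      rw [Matrix.sum_vecMul]
      refine Finset.sum_eq_zero fun i _ => ?_
      rw [Matrix.smul_vecMul, h1 i, smul_zero]
    rw [h10] at h9
    have h11 : (Fin.append (fun i => c (Fin.castAdd t i) - a i) (0 : Fin t → R)) ᵥ* W = 0 := by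
      rw [hsum]
      simp only [Fin.append_left, Fin.append_right, Pi.zero_apply, zero_smul,
        Finset.sum_const_zero, add_zero]
      exact h9.symm
    have h12 : (Fin.append (fun i => c (Fin.castAdd t i) - a i) (0 : Fin t → R)) = 0 := by
      have h13 := congrArg (fun u => u ᵥ* W⁻¹) h11
      simpa [Matrix.vecMul_vecMul, Matrix.mul_nonsing_inv _ hdet] using h13
    funext i
    have h14 := congrFun h12 (Fin.castAdd t i)
    rw [Fin.append_left] at h14
    exact (sub_eq_zero.1 h14).symm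

/-- matrix of germs -/
private noncomputable def GM6m {a b : ℕ} (A : Fin a → Fin b → B → ℂ) (z : B) :
    Matrix (Fin a) (Fin b) (OGerm z) := Matrix.of fun i j => gm (A i j) z

omit [FiniteDimensional ℂ B] in
private theorem GM6_congr {a b : ℕ} {A C : Fin a → Fin b → B → ℂ} {z : B}
    (hA : ∀ i j, HolAt (A i j) z) (h : ∀ i j, A i j =ᶠ[𝓝 z] C i j) : GM6m A z = GM6m C z := by
  ext i j
  exact congrArg _ ((gm_eq_iff (hA i j) ((hA i j).congr (h i j))).2 (h i j))

omit [FiniteDimensional ℂ B] in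
private theorem GM6_sum {ι : Type*} (s : Finset ι) {f : ι → B → ℂ} {x : B}
    (hf : ∀ i ∈ s, HolAt (f i) x) : gm (fun y => ∑ i ∈ s, f i y) x = ∑ i ∈ s, gm (f i) x := by
  classical
  induction s using Finset.induction_on with
  | empty =>
    simp only [Finset.sum_empty]
    exact gm_zero x
  | insert a s ha ih =>
    have h1 : (fun y => ∑ i ∈ insert a s, f i y) = f a + fun y => ∑ i ∈ s, f i y := by
      ext y; simp [Finset.sum_insert ha]
    rw [h1, gm_add (hf a (Finset.mem_insert_self _ _))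
      (HolAt.sum s fun i hi => hf i (Finset.mem_insert_of_mem hi)),
      ih fun i hi => hf i (Finset.mem_insert_of_mem hi), Finset.sum_insert ha]

omit [FiniteDimensional ℂ B] in
private theorem GM6_mul {a b c : ℕ} {A : Fin a → Fin b → B → ℂ} {C : Fin b → Fin c → B → ℂ} {z : B}
    (hA : ∀ i j, HolAt (A i j) z) (hC : ∀ i j, HolAt (C i j) z) :
    GM6m A z * GM6m C z = GM6m (fun i k w => ∑ j, A i j w * C j k w) z := by
  ext i k
  have h1 : gm (fun w => ∑ j, A i j w * C j k w) z = ∑ j, gm (A i j) z * gm (C j k) z := by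
    rw [GM6_sum _ fun j _ => (hA i j).mul (hC j k)]
    exact Finset.sum_congr rfl fun j _ => gm_mul (hA i j) (hC j k)
  have h2 : (GM6m A z * GM6m C z) i k = ∑ j, gm (A i j) z * gm (C j k) z := by
    rw [Matrix.mul_apply]
    rfl
  rw [h2, ← h1]
  rfl

/-- evaluation of germs -/
private noncomputable def GM6ev (z : B) : OGerm z →+* ℂ :=
  (Filter.Germ.valueRingHom : Filter.Germ (𝓝 z) ℂ →+* ℂ).comp (OGerm z).subtype

omit [FiniteDimensional ℂ B] in
private theorem GM6_ev_gm {f : B → ℂ} {z : B} (h : HolAt f z) : GM6ev z (gm f z) = f z := by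
  change Filter.Germ.valueRingHom ((gm f z : OGerm z) : Filter.Germ (𝓝 z) ℂ) = f z
  rw [gm_coe h]
  rfl

private theorem GM6_isUnit_det {p : ℕ} {A : Fin p → Fin p → B → ℂ} {z : B}
    (hA : ∀ i j, HolAt (A i j) z) (h : (Matrix.of fun i j => A i j z).det ≠ 0) :
    IsUnit (GM6m A z).det := by
  rw [OGerm.isUnit_iff]
  change GM6ev z (GM6m A z).det ≠ 0
  rw [RingHom.map_det]
  have : (GM6ev z).mapMatrix (GM6m A z) = Matrix.of fun i j => A i j z := by
    ext i j
    exact GM6_ev_gm (hA i j)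
  rw [this]
  exact h

private theorem GM6_main {r t q : ℕ} (E : EMod.{u, u, w} (O B)) {y : B}
    (g : Fin (r + t) → (z : B) → E.St z)
    (hg : ∀ i, E.At (g i) y)
    (hgen : ∀ᶠ z in 𝓝 y, Submodule.span ((O B).St z) (range fun i => g i z) = ⊤)
    (β : Fin q → Fin (r + t) → B → ℂ) (hβ : ∀ k i, HolAt (β k i) y)
    (hrel : ∀ᶠ z in 𝓝 y, E.rel g z =
      Submodule.span ((O B).St z) (range fun k => fun i => om (β k i) z))
    (S : Fin (r + t) → Fin q → B → ℂ) (hS : ∀ i k, HolAt (S i k) y)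
    (h : ∀ᶠ z in 𝓝 y, (Matrix.of fun k i => β k i z) * (Matrix.of fun i k => S i k z) *
      (Matrix.of fun k i => β k i z) = Matrix.of fun k i => β k i z)
    (W : Matrix (Fin (r + t)) (Fin (r + t)) ℂ) (hW : W.det ≠ 0)
    (hW1 : ∀ i : Fin r, W (Fin.castAdd t i) ᵥ*
      ((Matrix.of fun i k => S i k y) * (Matrix.of fun k i => β k i y)) = 0)
    (hW2 : ∀ i : Fin t, W (Fin.natAdd r i) ᵥ*
      ((Matrix.of fun i k => S i k y) * (Matrix.of fun k i => β k i y)) =
        W (Fin.natAdd r i)) : FreeAt E r y := by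
  classical
  -- the idempotent matrix of functions
  let π : Fin (r + t) → Fin (r + t) → B → ℂ := fun l j z => ∑ k, S l k z * β k j z
  have hπ : ∀ l j, HolAt (π l j) y := fun l j => HolAt.sum _ fun k _ => (hS l k).mul (hβ k j)
  have hπm : ∀ z, (Matrix.of fun l j => π l j z) =
      (Matrix.of fun i k => S i k z) * (Matrix.of fun k i => β k i z) := by
    intro z
    ext l j
    rfl
  let W1 : Fin (r + t) → Fin (r + t) → B → ℂ := fun k j z =>
    Fin.addCases (motive := fun _ => ℂ) (fun i => W (Fin.castAdd t i) j - ∑ l, W (Fin.castAdd t i) l * π l j z)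
      (fun i => ∑ l, W (Fin.natAdd r i) l * π l j z) k
  have hW1l : ∀ (i : Fin r) j, W1 (Fin.castAdd t i) j =
      fun z => W (Fin.castAdd t i) j - ∑ l, W (Fin.castAdd t i) l * π l j z := by
    intro i j
    funext z
    simp [W1]
  have hW1r : ∀ (i : Fin t) j, W1 (Fin.natAdd r i) j =
      fun z => ∑ l, W (Fin.natAdd r i) l * π l j z := by
    intro i j
    funext z
    simp [W1]
  have hW1hol : ∀ k j, HolAt (W1 k j) y := by
    intro k j
    refine Fin.addCases (fun i => ?_) (fun i => ?_) k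
    · rw [hW1l]
      exact (HolAt.const _ _).sub (HolAt.sum _ fun l _ => (HolAt.const _ _).mul (hπ l j))
    · rw [hW1r]
      exact HolAt.sum _ fun l _ => (HolAt.const _ _).mul (hπ l j)
  have hWy : (Matrix.of fun k j => W1 k j y) = W := by
    ext k j
    change W1 k j y = W k j
    refine Fin.addCases (fun i => ?_) (fun i => ?_) k
    · rw [hW1l]
      have h1 := congrFun (hW1 i) j
      rw [← hπm] at h1
      have h2 : ∑ l, W (Fin.castAdd t i) l * π l j y = 0 := h1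
      change W (Fin.castAdd t i) j - ∑ l, W (Fin.castAdd t i) l * π l j y = _
      rw [h2, sub_zero]
    · rw [hW1r]
      have h1 := congrFun (hW2 i) j
      rw [← hπm] at h1
      exact h1
  have hdet : ∀ᶠ z in 𝓝 y, (Matrix.of fun k j => W1 k j z).det ≠ 0 := by
    have hc : ContinuousAt (fun z => (Matrix.of fun k j => W1 k j z)) y := by
      refine continuousAt_pi.2 fun k => continuousAt_pi.2 fun j => ?_
      exact (hW1hol k j).differentiableAt.continuousAt
    have hc2 : ContinuousAt (fun z => (Matrix.of fun k j => W1 k j z).det) y :=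
      (Continuous.matrix_det continuous_id).continuousAt.comp hc
    refine hc2.eventually_ne ?_
    rw [hWy]
    exact hW
  have hAtom : ∀ {f : B → ℂ}, HolAt f y → (O B).At (fun z => om f z) y := fun hf =>
    ⟨_, hf, Eventually.of_forall fun _ => rfl⟩
  refine ⟨fun i z => ∑ j, om (W1 (Fin.castAdd t i) j) z • g j z, fun i => ?_, ?_⟩
  · have hsum : ∀ s : Finset (Fin (r + t)),
        E.At (fun z => ∑ j ∈ s, om (W1 (Fin.castAdd t i) j) z • g j z) y := by
      intro s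
      induction s using Finset.induction_on with
      | empty =>
        simp only [Finset.sum_empty]
        exact E.zero y (E.mem_dom (hg (Fin.castAdd t i)))
      | insert a s ha ih =>
        simp only [Finset.sum_insert ha]
        exact E.add (E.smul (hAtom (hW1hol _ a)) (hg a)) ih
    exact hsum Finset.univ
  · filter_upwards [hgen, hrel, eventually_eventually_nhds.2 h, hdet,
      eventually_all.2 fun k => eventually_all.2 fun i => (hβ k i).eventually,
      eventually_all.2 fun i => eventually_all.2 fun k => (hS i k).eventually,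
      eventually_all.2 fun k => eventually_all.2 fun j => (hW1hol k j).eventually,
      eventually_all.2 fun k => eventually_all.2 fun j => (hπ k j).eventually]
      with z zgen zrel zh zdet zβ zS zW zπ
    intro m
    -- germs at `z`
    have hsb : GM6m S z * GM6m β z = GM6m π z := GM6_mul zS zβ
    have hbsb : GM6m β z * GM6m S z * GM6m β z = GM6m β z := by
      rw [Matrix.mul_assoc, hsb, GM6_mul zβ zπ]
      refine GM6_congr (fun i j => HolAt.sum _ fun k _ => (zβ i k).mul (zπ k j)) fun i j => ?_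
      filter_upwards [zh] with w hw
      rw [Matrix.mul_assoc, ← hπm] at hw
      exact congrFun (congrFun hw i) j
    have hWπ : GM6m W1 z * GM6m π z = GM6m (fun k j w => ∑ l, W1 k l w * π l j w) z :=
      GM6_mul zW zπ
    have hππ : ∀ᶠ w in 𝓝 z, (Matrix.of fun l j => π l j w) * (Matrix.of fun l j => π l j w) =
        (Matrix.of fun l j => π l j w) := by
      filter_upwards [zh] with w hw
      rw [hπm]
      calc _ = (Matrix.of fun i k => S i k w) * ((Matrix.of fun k i => β k i w) *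
            (Matrix.of fun i k => S i k w) * (Matrix.of fun k i => β k i w)) := by
            simp only [Matrix.mul_assoc]
        _ = _ := by rw [hw]
    have key1 : ∀ i : Fin r, (GM6m W1 z) (Fin.castAdd t i) ᵥ* (GM6m S z * GM6m β z) = 0 := by
      intro i
      rw [hsb, ← Matrix.mul_apply_eq_vecMul, hWπ]
      funext j
      change gm (fun w => ∑ l, W1 (Fin.castAdd t i) l w * π l j w) z = 0
      rw [← gm_zero z]
      refine (gm_eq_iff (HolAt.sum _ fun l _ => (zW _ l).mul (zπ l j)) (HolAt.const 0 z)).2 ?_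
      filter_upwards [hππ] with w hw
      have h3 : (W (Fin.castAdd t i) - W (Fin.castAdd t i) ᵥ* (Matrix.of fun l j => π l j w)) ᵥ*
          (Matrix.of fun l j => π l j w) = 0 := by
        rw [Matrix.sub_vecMul, Matrix.vecMul_vecMul, hw, sub_self]
      have h4 := congrFun h3 j
      have h5 : ∀ l, W1 (Fin.castAdd t i) l w =
          (W (Fin.castAdd t i) - W (Fin.castAdd t i) ᵥ* (Matrix.of fun l j => π l j w)) l := by
        intro l
        rw [hW1l]
        rfl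
      simp only [h5]
      exact h4
    have key2 : ∀ i : Fin t, (GM6m W1 z) (Fin.natAdd r i) ᵥ* (GM6m S z * GM6m β z) =
        (GM6m W1 z) (Fin.natAdd r i) := by
      intro i
      rw [hsb, ← Matrix.mul_apply_eq_vecMul, hWπ]
      funext j
      change gm (fun w => ∑ l, W1 (Fin.natAdd r i) l w * π l j w) z = gm (W1 (Fin.natAdd r i) j) z
      refine (gm_eq_iff (HolAt.sum _ fun l _ => (zW _ l).mul (zπ l j)) (zW _ j)).2 ?_
      filter_upwards [hππ] with w hw
      have h3 : (W (Fin.natAdd r i) ᵥ* (Matrix.of fun l j => π l j w)) ᵥ*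
          (Matrix.of fun l j => π l j w) =
          W (Fin.natAdd r i) ᵥ* (Matrix.of fun l j => π l j w) := by
        rw [Matrix.vecMul_vecMul, hw]
      have h4 := congrFun h3 j
      have h5 : ∀ l, W1 (Fin.natAdd r i) l w =
          (W (Fin.natAdd r i) ᵥ* (Matrix.of fun l j => π l j w)) l := by
        intro l
        rw [hW1r]
        rfl
      simp only [h5]
      exact h4
    have hrel' : ∀ v : Fin (r + t) → (O B).St z, ∑ i, v i • g i z = 0 ↔
        v ∈ Submodule.span ((O B).St z) (range fun k => fun i => om (β k i) z) := by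
      intro v
      have h1 : v ∈ E.rel g z ↔ ∑ i, v i • g i z = 0 := Iff.rfl
      rw [← h1, zrel]
    exact GM6_alg (R := (O B).St z) (fun i => g i z) zgen (GM6m β z) hrel' (GM6m S z) hbsb
      (GM6m W1 z) (GM6_isUnit_det zW zdet) key1 key2 m

/-- **Split presentations are locally free.** `g` generates, the rows of `β` generate the relations, and `β S β = β`.

Proof. Put `π z = S z * β z` (`p × p` matrix of functions), so near `y`: `β π = β`, `π π = S β S β = S β = π`; `P = 1 - π`, `P P = P`. For a row vector `v` over `OGerm z`, `z` near `y`, with `π` as matrix of germs: `v` is a relation iff `v ᵥ* π = v`: if `v = u ᵥ* β` then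
`v π = u β S β = u β = v`; conversely `v = v π = (v S) β` is in the span of the rows of `β`.
Take `r`, `s`, `W₀` from `exists_adapted (P y)` (numbers). Define functions: for `i : Fin r` the row `W i z = W₀ i ᵥ* P z`, for `i : Fin s` the row `W (r + i) z = W₀ (r+i) ᵥ* π z`; at `z = y` `W y = W₀`. So `det W z ≠ 0` near `y` (continuity), and for `z` near `y` the germs at `z` of the rows of `W` form a basis of
`(OGerm z)^p` (the determinant of the matrix of germs is the germ of the determinant, a unit).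
Sections `f i z = ∑ j, om (fun z => W i z j) z • g j z` for `i : Fin r` (sections near `y`). CLAIM: for `z` near `y` every `m ∈ E.St z` is a unique combination of the `f i z`. Existence: `m = ∑ v j • g j z`, `v = ∑ a i • W i` (`a : Fin (r+s) → OGerm z`); the rows `W (r+i)` satisfy `W (r+i) π = W (r+i)` (as `π π = π`), so they are
relations and contribute `0`; so `m = ∑ (i : Fin r), a i • f i z`. Uniqueness: it is enough that `∑ a i • f i z = 0` implies `a = 0`: `v = ∑ (i : Fin r) a i • W i` is a relation, so `v π = v`; but `W i P = W i` for `i < r` (`P P = P`), so `v P = v`, so `v = v π P = 0` (`π P = 0`), and `a = 0` because the rows of `W` are a basis. -/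
theorem freeAt_of_split {p q : ℕ} (E : EMod.{u, u, w} (O B)) {y : B} (g : Fin p → (z : B) → E.St z)
    (hg : ∀ i, E.At (g i) y) (hgen : ∀ᶠ z in 𝓝 y, Submodule.span ((O B).St z) (range fun i => g i z) = ⊤)
    (β : Fin q → Fin p → B → ℂ) (hβ : ∀ k i, HolAt (β k i) y)
    (hrel : ∀ᶠ z in 𝓝 y, E.rel g z = Submodule.span ((O B).St z) (range fun k => fun i => om (β k i) z))
    (S : Fin p → Fin q → B → ℂ) (hS : ∀ i k, HolAt (S i k) y)
    (h : ∀ᶠ z in 𝓝 y, (Matrix.of fun k i => β k i z) * (Matrix.of fun i k => S i k z) * (Matrix.of fun k i => β k i z) =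
      Matrix.of fun k i => β k i z) : ∃ r, FreeAt E r y := by
  classical
  have hP : (1 - (Matrix.of fun i k => S i k y) * (Matrix.of fun k i => β k i y)) *
      (1 - (Matrix.of fun i k => S i k y) * (Matrix.of fun k i => β k i y)) =
      1 - (Matrix.of fun i k => S i k y) * (Matrix.of fun k i => β k i y) := by
    have h1 := h.self_of_nhds
    have h2 : ((Matrix.of fun i k => S i k y) * (Matrix.of fun k i => β k i y)) *
        ((Matrix.of fun i k => S i k y) * (Matrix.of fun k i => β k i y)) =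
        (Matrix.of fun i k => S i k y) * (Matrix.of fun k i => β k i y) := by
      calc _ = (Matrix.of fun i k => S i k y) * ((Matrix.of fun k i => β k i y) *
            (Matrix.of fun i k => S i k y) * (Matrix.of fun k i => β k i y)) := by
            simp only [Matrix.mul_assoc]
        _ = _ := by rw [h1]
    rw [Matrix.mul_sub, Matrix.mul_one, Matrix.sub_mul, Matrix.one_mul, h2, sub_self, sub_zero]
  obtain ⟨r, t, hrs, W, hW1, hW2, hW⟩ := exists_adapted _ hP
  subst hrs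
  refine ⟨r, GM6_main E g hg hgen β hβ hrel S hS h W ?_ (fun i => ?_) fun i => ?_⟩
  · have h1 : W.submatrix (Fin.cast rfl) id = W := by
      ext i j
      rfl
    rw [h1] at hW
    exact hW
  · have h1 := hW1 i
    rw [Matrix.vecMul_sub, Matrix.vecMul_one] at h1
    exact sub_eq_self.1 h1
  · have h1 := hW2 i
    rw [Matrix.vecMul_sub, Matrix.vecMul_one] at h1
    exact (sub_eq_zero.1 h1).symm

end Pool.Agent.DQ
end

section

/-! Campaign DQ, module H: the sweep, geometric part. -/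

set_option autoImplicit false

open Set Filter Topology

universe u v w

namespace Pool.Agent.DQ.Sw

theorem preconn (c : ℂ) (r : ℝ) {F : Set ℂ} (hF : F.Finite) :
    IsPreconnected (Metric.ball c r \ F) := by
  rcases le_or_gt r 0 with hr | hr
  · rw [Metric.ball_eq_empty.mpr hr, empty_sdiff]
    exact isPreconnected_empty
  set φ := OpenPartialHomeomorph.univBall c r with hφ
  have hs : φ.source = univ := OpenPartialHomeomorph.univBall_source c r
  have ht : φ.target = Metric.ball c r := OpenPartialHomeomorph.univBall_target c hr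
  have hinj : Function.Injective φ := by
    intro x y h
    exact φ.injOn (by rw [hs]; trivial) (by rw [hs]; trivial) h
  have hc : Continuous φ := OpenPartialHomeomorph.continuous_univBall c r
  have h1 : (φ ⁻¹' F).Countable := hF.countable.preimage_of_injOn hinj.injOn
  have h2 : IsPreconnected ((φ ⁻¹' F)ᶜ) :=
    (h1.isConnected_compl_of_one_lt_rank
      (by rw [Complex.rank_real_complex]; norm_num)).isPreconnected
  have h3 : Metric.ball c r \ F = φ '' ((φ ⁻¹' F)ᶜ) := by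
    ext z
    constructor
    · rintro ⟨h4, h5⟩
      rw [← ht, ← φ.image_source_eq_target] at h4
      obtain ⟨w, hw, rfl⟩ := h4
      exact ⟨w, h5, rfl⟩
    · rintro ⟨w, hw, rfl⟩
      refine ⟨?_, hw⟩
      rw [← ht]
      exact φ.map_source (by rw [hs]; trivial)
  rw [h3]
  exact h2.image φ hc.continuousOn

variable {n : ℕ}

/-- the linear form `∑ η ^ (i + 1) y_i` -/
noncomputable def lin (S' : Finset (Fin n)) (η : ℂ) (y : Fin n → ℂ) : ℂ :=
  ∑ i ∈ S', η ^ ((i : ℕ) + 1) * y i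

theorem lin_add (S' : Finset (Fin n)) (η : ℂ) (y z : Fin n → ℂ) :
    lin S' η (y + z) = lin S' η y + lin S' η z := by
  simp only [lin, Pi.add_apply, mul_add, Finset.sum_add_distrib]

theorem lin_sub (S' : Finset (Fin n)) (η : ℂ) (y z : Fin n → ℂ) :
    lin S' η (y - z) = lin S' η y - lin S' η z := by
  simp only [lin, Pi.sub_apply, mul_sub, Finset.sum_sub_distrib]

theorem lin_smul (S' : Finset (Fin n)) (η a : ℂ) (y : Fin n → ℂ) :
    lin S' η (a • y) = a * lin S' η y := by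
  simp only [lin, Pi.smul_apply, smul_eq_mul, Finset.mul_sum]
  exact Finset.sum_congr rfl fun i _ => by ring

theorem lin_update {S' : Finset (Fin n)} {i₁ : Fin n} (h : i₁ ∉ S') (η : ℂ) (y : Fin n → ℂ)
    (z : ℂ) : lin S' η (Function.update y i₁ z) = lin S' η y := by
  unfold lin
  refine Finset.sum_congr rfl fun i hi => ?_
  rw [Function.update_of_ne]
  rintro rfl
  exact h hi

/-- the transvection with the linear form `lin` -/
noncomputable def trL (S : Finset (Fin n)) (i₁ : Fin n) (η : ℂ) :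
    (Fin n → ℂ) ≃ₗ[ℂ] (Fin n → ℂ) where
  toFun y := Function.update y i₁ (y i₁ + lin (S.erase i₁) η y)
  invFun y := Function.update y i₁ (y i₁ - lin (S.erase i₁) η y)
  map_add' y z := by
    funext j
    by_cases hj : j = i₁
    · subst hj
      simp only [Function.update_self, Pi.add_apply, lin_add]
      ring
    · simp only [Function.update_of_ne hj, Pi.add_apply]
  map_smul' a y := by
    funext j
    by_cases hj : j = i₁
    · subst hj
      simp only [Function.update_self, Pi.smul_apply, smul_eq_mul, lin_smul, RingHom.id_apply]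
      ring
    · simp only [Function.update_of_ne hj, Pi.smul_apply, RingHom.id_apply]
  left_inv y := by
    simp only [lin_update (Finset.notMem_erase i₁ S), Function.update_self,
      Function.update_idem, add_sub_cancel_right, Function.update_eq_self]
  right_inv y := by
    simp only [lin_update (Finset.notMem_erase i₁ S), Function.update_self,
      Function.update_idem, sub_add_cancel, Function.update_eq_self]

variable {V : Type u} [NormedAddCommGroup V] [NormedSpace ℂ V]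

/-- the deformed coordinates -/
noncomputable def kap (κ : V ≃L[ℂ] (Fin n → ℂ)) (S : Finset (Fin n)) (i₁ : Fin n) (η : ℂ) :
    V ≃L[ℂ] (Fin n → ℂ) := κ.trans (trL S i₁ η).toContinuousLinearEquiv

variable (κ : V ≃L[ℂ] (Fin n → ℂ)) (S : Finset (Fin n)) (i₁ : Fin n)

theorem kap_self (η : ℂ) (x : V) : kap κ S i₁ η x i₁ = κ x i₁ + lin (S.erase i₁) η (κ x) := by
  change Function.update (κ x) i₁ (κ x i₁ + lin (S.erase i₁) η (κ x)) i₁ = _
  rw [Function.update_self]

theorem kap_ne (η : ℂ) (x : V) {j : Fin n} (hj : j ≠ i₁) : kap κ S i₁ η x j = κ x j := by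
  change Function.update (κ x) i₁ (κ x i₁ + lin (S.erase i₁) η (κ x)) j = _
  rw [Function.update_of_ne hj]

/-- move the coordinate `i₁` by `z` -/
noncomputable def mv (z : ℂ) (p : V) : V := κ.symm (Function.update (κ p) i₁ (κ p i₁ + z))

theorem mv_self (z : ℂ) (p : V) : κ (mv κ i₁ z p) i₁ = κ p i₁ + z := by
  simp [mv]

theorem mv_ne (z : ℂ) (p : V) {j : Fin n} (hj : j ≠ i₁) : κ (mv κ i₁ z p) j = κ p j := by
  simp [mv, Function.update_of_ne hj]

theorem kap_mv_self (η z : ℂ) (p : V) :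
    kap κ S i₁ η (mv κ i₁ z p) i₁ = kap κ S i₁ η p i₁ + z := by
  have h : κ (mv κ i₁ z p) = Function.update (κ p) i₁ (κ p i₁ + z) := by simp [mv]
  rw [kap_self, kap_self, mv_self, h, lin_update (Finset.notMem_erase i₁ S)]
  ring

theorem mv_zero (p : V) : mv κ i₁ 0 p = p := by
  simp [mv]

theorem mv_mv (z w : ℂ) (p : V) : mv κ i₁ z (mv κ i₁ w p) = mv κ i₁ (w + z) p := by
  apply κ.injective
  funext j
  by_cases hj : j = i₁
  · subst hj
    rw [mv_self, mv_self, mv_self]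
    ring
  · rw [mv_ne κ i₁ _ _ hj, mv_ne κ i₁ _ _ hj, mv_ne κ i₁ _ _ hj]

/-- error of the deformation -/
noncomputable def err (R : Fin n → ℝ) (S' : Finset (Fin n)) (η : ℂ) : ℝ :=
  ∑ i ∈ S', ‖η‖ ^ ((i : ℕ) + 1) * (2 * R i)

theorem continuous_err (R : Fin n → ℝ) (S' : Finset (Fin n)) : Continuous (err R S') := by
  unfold err
  fun_prop

theorem err_zero (R : Fin n → ℝ) (S' : Finset (Fin n)) : err R S' 0 = 0 := by
  unfold err
  simp

theorem exists_eta {R : Fin n → ℝ} {S' : Finset (Fin n)} {a : ℝ} (ha : 0 < a) :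
    ∃ η₀ : ℝ, 0 < η₀ ∧ ∀ η : ℂ, ‖η‖ < η₀ → err R S' η < a := by
  have h := (continuous_err R S').tendsto 0
  rw [err_zero] at h
  obtain ⟨η₀, hη₀, hb⟩ := Metric.eventually_nhds_iff_ball.mp (h.eventually (gt_mem_nhds ha))
  exact ⟨η₀, hη₀, fun η hη => hb η (mem_ball_zero_iff.mpr hη)⟩

/-- the data of the sweep -/
structure Dat (κ : V ≃L[ℂ] (Fin n → ℂ)) (c : Fin n → ℂ) (R Rm r : Fin n → ℝ)
    (S : Finset (Fin n)) (i₁ : Fin n) (η₀ : ℝ) (Y : Set V) : Prop where
  R_pos : ∀ i, 0 < R i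
  r_pos : ∀ i ∈ S, 0 < r i
  r_lt : ∀ i ∈ S, r i < Rm i
  Rm_lt : ∀ i ∈ S, Rm i < R i
  mem : i₁ ∈ S
  η₀_pos : 0 < η₀
  err1 : ∀ η : ℂ, ‖η‖ < η₀ → err R (S.erase i₁) η < R i₁ - Rm i₁
  err2 : ∀ η : ℂ, ‖η‖ < η₀ → err R (S.erase i₁) η < (Rm i₁ - r i₁) / 2
  isOpen : IsOpen (box κ c (-1) R \ Y)
  sh : ∀ x ∈ shell κ c R S r, x ∉ Y
  fin : ∀ t : Fin n → ℂ, {x | x ∈ Y ∧ x ∈ box κ c (-1) R ∧ ∀ i ∉ S, κ x i = t i}.Finite

theorem mem_box_neg {κ : V ≃L[ℂ] (Fin n → ℂ)} {c : Fin n → ℂ} {R : Fin n → ℝ} {x : V} :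
    x ∈ box κ c (-1) R ↔ ∀ i, ‖κ x i - c i‖ < R i := by
  refine forall_congr' fun i => ?_
  simp only [ring, mem_ofPred_eq, Pi.neg_apply, Pi.one_apply]
  exact ⟨fun h => h.2, fun h => ⟨by linarith [norm_nonneg (κ x i - c i)], h⟩⟩

theorem mem_cbox_neg {κ : V ≃L[ℂ] (Fin n → ℂ)} {c : Fin n → ℂ} {R : Fin n → ℝ} {x : V} :
    x ∈ cbox κ c (-1) R ↔ ∀ i, ‖κ x i - c i‖ ≤ R i := by
  refine forall_congr' fun i => ?_
  simp only [cring, mem_ofPred_eq, Pi.neg_apply, Pi.one_apply]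
  exact ⟨fun h => h.2, fun h => ⟨by linarith [norm_nonneg (κ x i - c i)], h⟩⟩

/-- centre of the slab -/
noncomputable def cen (c : Fin n → ℂ) (η : ℂ) (p : V) (j : Fin n) : ℂ :=
  if j ∈ S.erase i₁ then c j else kap κ S i₁ η p j

/-- radii of the slab -/
noncomputable def rad (Rm : Fin n → ℝ) (ρ : ℝ) (j : Fin n) : ℝ :=
  if j ∈ S.erase i₁ then Rm j else ρ

/-- the open slab -/
def slab (c : Fin n → ℂ) (Rm : Fin n → ℝ) (η : ℂ) (p : V) (ρ : ℝ) : Set V :=
  box (kap κ S i₁ η) (cen κ S i₁ c η p) (-1) (rad S i₁ Rm ρ)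

/-- the closed slab -/
def cslab (c : Fin n → ℂ) (Rm : Fin n → ℝ) (η : ℂ) (p : V) (ρ : ℝ) : Set V :=
  cbox (kap κ S i₁ η) (cen κ S i₁ c η p) (-1) (rad S i₁ Rm ρ)

variable {κ S i₁} {c : Fin n → ℂ} {R Rm r : Fin n → ℝ} {η₀ : ℝ} {Y : Set V}

theorem mem_slab {η : ℂ} {p x : V} {ρ : ℝ} : x ∈ slab κ S i₁ c Rm η p ρ ↔
    (∀ i ∈ S.erase i₁, ‖κ x i - c i‖ < Rm i) ∧
      ∀ j ∉ S.erase i₁, ‖kap κ S i₁ η x j - kap κ S i₁ η p j‖ < ρ := by
  unfold slab
  rw [mem_box_neg]
  constructor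
  · intro h
    refine ⟨fun i hi => ?_, fun j hj => ?_⟩
    · have := h i
      simp only [cen, rad, if_pos hi] at this
      rwa [kap_ne κ S i₁ η x (Finset.ne_of_mem_erase hi)] at this
    · have := h j
      simpa only [cen, rad, if_neg hj] using this
  · rintro ⟨h1, h2⟩ i
    by_cases hi : i ∈ S.erase i₁
    · simp only [cen, rad, if_pos hi]
      rw [kap_ne κ S i₁ η x (Finset.ne_of_mem_erase hi)]
      exact h1 i hi
    · simp only [cen, rad, if_neg hi]
      exact h2 i hi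

theorem mem_cslab {η : ℂ} {p x : V} {ρ : ℝ} : x ∈ cslab κ S i₁ c Rm η p ρ ↔
    (∀ i ∈ S.erase i₁, ‖κ x i - c i‖ ≤ Rm i) ∧
      ∀ j ∉ S.erase i₁, ‖kap κ S i₁ η x j - kap κ S i₁ η p j‖ ≤ ρ := by
  unfold cslab
  rw [mem_cbox_neg]
  constructor
  · intro h
    refine ⟨fun i hi => ?_, fun j hj => ?_⟩
    · have := h i
      simp only [cen, rad, if_pos hi] at this
      rwa [kap_ne κ S i₁ η x (Finset.ne_of_mem_erase hi)] at this
    · have := h j
      simpa only [cen, rad, if_neg hj] using this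
  · rintro ⟨h1, h2⟩ i
    by_cases hi : i ∈ S.erase i₁
    · simp only [cen, rad, if_pos hi]
      rw [kap_ne κ S i₁ η x (Finset.ne_of_mem_erase hi)]
      exact h1 i hi
    · simp only [cen, rad, if_neg hi]
      exact h2 i hi

theorem slab_subset_cslab {η : ℂ} {p : V} {ρ : ℝ} :
    slab κ S i₁ c Rm η p ρ ⊆ cslab κ S i₁ c Rm η p ρ := by
  intro x hx
  rw [mem_slab] at hx
  rw [mem_cslab]
  exact ⟨fun i hi => (hx.1 i hi).le, fun j hj => (hx.2 j hj).le⟩

theorem isOpen_slab {η : ℂ} {p : V} {ρ : ℝ} : IsOpen (slab κ S i₁ c Rm η p ρ) :=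
  C.isOpen_Box _ fun j => C.isOpen_ring (cen κ S i₁ c η p j) ((-1 : Fin n → ℝ) j)
    (rad S i₁ Rm ρ j)

theorem self_mem_slab {η : ℂ} {p : V} {ρ : ℝ} (hρ : 0 < ρ)
    (hp : ∀ i ∈ S.erase i₁, ‖κ p i - c i‖ < Rm i) : p ∈ slab κ S i₁ c Rm η p ρ := by
  rw [mem_slab]
  refine ⟨hp, fun j _ => ?_⟩
  rw [sub_self, norm_zero]
  exact hρ

/-- the deformation changes the coordinate `i₁` by at most `err` -/
theorem coord_near {η : ℂ} {x p : V} {ρ : ℝ}
    (hx : ∀ i ∈ S.erase i₁, ‖κ x i - c i‖ ≤ R i) (hp : ∀ i ∈ S.erase i₁, ‖κ p i - c i‖ ≤ R i)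
    (h : ‖kap κ S i₁ η x i₁ - kap κ S i₁ η p i₁‖ ≤ ρ) :
    ‖κ x i₁ - κ p i₁‖ ≤ ρ + err R (S.erase i₁) η := by
  have h1 : κ x i₁ - κ p i₁ = (kap κ S i₁ η x i₁ - kap κ S i₁ η p i₁) -
      lin (S.erase i₁) η (κ x - κ p) := by
    rw [kap_self, kap_self, lin_sub]
    ring
  have h2 : ‖lin (S.erase i₁) η (κ x - κ p)‖ ≤ err R (S.erase i₁) η := by
    unfold lin err
    refine (norm_sum_le _ _).trans (Finset.sum_le_sum fun i hi => ?_)
    rw [norm_mul, norm_pow]
    refine mul_le_mul_of_nonneg_left ?_ (by positivity)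
    calc ‖(κ x - κ p) i‖ = ‖(κ x i - c i) - (κ p i - c i)‖ := by
          congr 1
          simp only [Pi.sub_apply]
          ring
      _ ≤ R i + R i := (norm_sub_le _ _).trans (add_le_add (hx i hi) (hp i hi))
      _ = 2 * R i := by ring
  rw [h1]
  exact (norm_sub_le _ _).trans (add_le_add h h2)

/-- the core -/
def Core (κ : V ≃L[ℂ] (Fin n → ℂ)) (c : Fin n → ℂ) (R Rm : Fin n → ℝ) (S : Finset (Fin n)) :
    Set V := {p | p ∈ box κ c (-1) R ∧ ∀ i ∈ S, ‖κ p i - c i‖ < Rm i}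

/-- admissible parameters: the slice misses `Y` -/
def Adm (κ : V ≃L[ℂ] (Fin n → ℂ)) (S : Finset (Fin n)) (i₁ : Fin n) (c : Fin n → ℂ)
    (R : Fin n → ℝ) (Y : Set V) (η : ℂ) (p : V) : Prop :=
  ∀ y ∈ Y, y ∈ box κ c (-1) R → (∀ j ∉ S, κ y j = κ p j) →
    kap κ S i₁ η y i₁ ≠ kap κ S i₁ η p i₁

theorem isOpen_core : IsOpen (Core κ c R Rm S) := by
  have h1 : IsOpen (box κ c (-1) R) :=
    C.isOpen_Box _ fun j => C.isOpen_ring (c j) ((-1 : Fin n → ℝ) j) (R j)
  have h2 : Core κ c R Rm S = box κ c (-1) R ∩ ⋂ i ∈ S, {p | ‖κ p i - c i‖ < Rm i} := by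
    ext p
    simp [Core]
  rw [h2]
  refine h1.inter (isOpen_biInter_finset fun i _ => ?_)
  have h3 : Continuous fun p : V => κ p i := C.continuous_coord κ i
  exact isOpen_lt (by fun_prop) continuous_const

/-- small closed slabs around an admissible slice miss `Y` -/
theorem tube (hD : Dat κ c R Rm r S i₁ η₀ Y) {η : ℂ} (hη : ‖η‖ < η₀) {p : V}
    (hp : p ∈ Core κ c R Rm S) (hA : Adm κ S i₁ c R Y η p) :
    ∃ ρ : ℝ, 0 < ρ ∧ cslab κ S i₁ c Rm η p ρ ⊆ box κ c (-1) R \ Y := by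
  have hpR := mem_box_neg.mp hp.1
  -- the slice
  have hslice : ∀ x, (∀ i ∈ S.erase i₁, ‖κ x i - c i‖ ≤ Rm i) →
      (∀ j ∉ S.erase i₁, kap κ S i₁ η x j = kap κ S i₁ η p j) → x ∈ box κ c (-1) R \ Y := by
    intro x h1 h2
    have h3 : ∀ j ∉ S, κ x j = κ p j := by
      intro j hj
      have hji : j ≠ i₁ := by
        rintro rfl
        exact hj hD.mem
      have := h2 j (fun h => hj (Finset.mem_of_mem_erase h))
      rwa [kap_ne κ S i₁ η x hji, kap_ne κ S i₁ η p hji] at this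
    have hi₁ : i₁ ∉ S.erase i₁ := Finset.notMem_erase i₁ S
    have hxbox : x ∈ box κ c (-1) R := by
      rw [mem_box_neg]
      intro i
      by_cases hi : i ∈ S.erase i₁
      · exact (h1 i hi).trans_lt (hD.Rm_lt i (Finset.mem_of_mem_erase hi))
      · by_cases hii : i = i₁
        · subst hii
          have h4 := coord_near (κ := κ) (S := S) (i₁ := i) (c := c) (η := η) (x := x)
            (p := p) (ρ := 0)
            (fun i' hi' => (h1 i' hi').trans (hD.Rm_lt i' (Finset.mem_of_mem_erase hi')).le)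
            (fun i' _ => (hpR i').le) (by rw [h2 i hi, sub_self, norm_zero])
          rw [zero_add] at h4
          calc ‖κ x i - c i‖ = ‖(κ x i - κ p i) + (κ p i - c i)‖ := by congr 1; ring
            _ ≤ err R (S.erase i) η + ‖κ p i - c i‖ :=
                (norm_add_le _ _).trans (add_le_add_left h4 _)
            _ < R i := by linarith [hD.err1 η hη, hp.2 i hD.mem]
        · have hiS : i ∉ S := fun h => hi (Finset.mem_erase.mpr ⟨hii, h⟩)
          rw [h3 i hiS]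
          exact hpR i
    exact ⟨hxbox, fun hY => hA x hY hxbox h3 (h2 i₁ hi₁)⟩
  -- compactness
  set K₁ := cslab κ S i₁ c Rm η p 1 with hK₁
  have hK₁c : IsCompact K₁ := C.isCompact_box _ fun j => by
    rw [C.cring_of_nonpos (by simp : ((-1 : Fin n → ℝ) j) ≤ 0)]
    exact isCompact_closedBall _ _
  have hK₂ : IsCompact (K₁ \ (box κ c (-1) R \ Y)) := hK₁c.diff hD.isOpen
  set m : V → ℝ := fun x => ∑ j ∈ (Finset.univ \ S.erase i₁),
    ‖kap κ S i₁ η x j - kap κ S i₁ η p j‖ with hm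
  have hmc : Continuous m := by
    rw [hm]
    refine continuous_finsetSum _ fun j _ => ?_
    have : Continuous fun x : V => kap κ S i₁ η x j := C.continuous_coord _ j
    fun_prop
  rcases (K₁ \ (box κ c (-1) R \ Y)).eq_empty_or_nonempty with h0 | hne
  · refine ⟨1, one_pos, fun x hx => ?_⟩
    by_contra h
    have : x ∈ K₁ \ (box κ c (-1) R \ Y) := ⟨hx, h⟩
    rw [h0] at this
    exact this
  · obtain ⟨x₀, hx₀, hmin⟩ := hK₂.exists_isMinOn hne hmc.continuousOn
    have hpos : 0 < m x₀ := by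
      rcases (Finset.sum_nonneg fun j _ => norm_nonneg
        (kap κ S i₁ η x₀ j - kap κ S i₁ η p j)).lt_or_eq with h | h
      · exact h
      · exfalso
        refine hx₀.2 (hslice x₀ (mem_cslab.mp hx₀.1).1 fun j hj => ?_)
        have h1 := (Finset.sum_eq_zero_iff_of_nonneg fun j _ => norm_nonneg
          (kap κ S i₁ η x₀ j - kap κ S i₁ η p j)).mp h.symm j (by simpa using hj)
        exact sub_eq_zero.mp (norm_eq_zero.mp h1)
    refine ⟨min 1 (m x₀ / (n + 1)), by positivity, fun x hx => ?_⟩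
    rw [mem_cslab] at hx
    by_contra h
    have hxK : x ∈ K₁ := by
      rw [hK₁, mem_cslab]
      exact ⟨hx.1, fun j hj => (hx.2 j hj).trans (min_le_left _ _)⟩
    have h1 : m x₀ ≤ m x := hmin (show x ∈ K₁ \ (box κ c (-1) R \ Y) from ⟨hxK, h⟩)
    have h2 : m x ≤ n * (m x₀ / (n + 1)) := by
      calc m x ≤ ∑ j ∈ (Finset.univ \ S.erase i₁), m x₀ / (n + 1) := by
            refine Finset.sum_le_sum fun j hj => ?_
            rw [Finset.mem_sdiff] at hj
            exact (hx.2 j hj.2).trans (min_le_right _ _)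
        _ = (Finset.univ \ S.erase i₁).card * (m x₀ / (n + 1)) := by
            rw [Finset.sum_const, nsmul_eq_mul]
        _ ≤ n * (m x₀ / (n + 1)) := by
            refine mul_le_mul_of_nonneg_right ?_ (by positivity)
            have : (Finset.univ \ S.erase i₁).card ≤ n :=
              (Finset.card_le_univ _).trans (by simp)
            exact_mod_cast this
    have h3 : (n : ℝ) * (m x₀ / (n + 1)) < m x₀ := by
      rw [mul_div_assoc', div_lt_iff₀ (by positivity)]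
      nlinarith
    linarith

/-- only finitely many parameters are not admissible -/
theorem finite_eta (hD : Dat κ c R Rm r S i₁ η₀ Y) {p : V} (hp : p ∉ Y) :
    {η : ℂ | ¬ Adm κ S i₁ c R Y η p}.Finite := by
  classical
  have hF := hD.fin (κ p)
  set Q : V → Polynomial ℂ := fun y => Polynomial.C (κ y i₁ - κ p i₁) +
    ∑ i ∈ S.erase i₁, Polynomial.C (κ y i - κ p i) * Polynomial.X ^ ((i : ℕ) + 1) with hQ
  have heval : ∀ y η, (Q y).eval η = kap κ S i₁ η y i₁ - kap κ S i₁ η p i₁ := by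
    intro y η
    simp only [hQ, Polynomial.eval_add, Polynomial.eval_C, Polynomial.eval_finsetSum,
      Polynomial.eval_mul, Polynomial.eval_pow, Polynomial.eval_X]
    rw [kap_self, kap_self]
    have h1 : ∑ i ∈ S.erase i₁, (κ y i - κ p i) * η ^ ((i : ℕ) + 1) =
        lin (S.erase i₁) η (κ y) - lin (S.erase i₁) η (κ p) := by
      rw [← lin_sub]
      unfold lin
      exact Finset.sum_congr rfl fun i _ => by rw [Pi.sub_apply]; ring
    rw [h1]
    ring
  have hne : ∀ y, y ∈ Y → (∀ j ∉ S, κ y j = κ p j) → Q y ≠ 0 := by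
    intro y hy hyp h0
    apply hp
    have h1 : κ y = κ p := by
      funext j
      by_cases hj : j ∈ S
      · by_cases hji : j = i₁
        · subst hji
          have h2 := congrArg (fun q => Polynomial.coeff q 0) h0
          simp only [hQ, Polynomial.coeff_add, Polynomial.coeff_C_zero, Polynomial.finsetSum_coeff,
            Polynomial.coeff_C_mul, Polynomial.coeff_X_pow, Polynomial.coeff_zero] at h2
          rw [Finset.sum_eq_zero (fun i _ => by simp)] at h2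
          rw [add_zero] at h2
          exact sub_eq_zero.mp h2
        · have hje : j ∈ S.erase i₁ := Finset.mem_erase.mpr ⟨hji, hj⟩
          have h2 := congrArg (fun q => Polynomial.coeff q ((j : ℕ) + 1)) h0
          simp only [hQ, Polynomial.coeff_add, Polynomial.finsetSum_coeff,
            Polynomial.coeff_C_mul, Polynomial.coeff_X_pow, Polynomial.coeff_zero] at h2
          rw [Polynomial.coeff_C_of_ne_zero (by omega), zero_add,
            Finset.sum_eq_single j (fun i _ hij => by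
              have : ¬ ((j : ℕ) + 1 = (i : ℕ) + 1) := by
                intro h
                exact hij (Fin.ext (by omega))
              rw [if_neg this, mul_zero]) (fun h => absurd hje h), if_pos rfl, mul_one] at h2
          exact sub_eq_zero.mp h2
      · exact hyp j hj
    rw [← κ.injective h1]
    exact hy
  refine (hF.biUnion (t := fun y => {η : ℂ | (Q y) ≠ 0 ∧ (Q y).eval η = 0}) fun y _ => ?_).subset ?_
  · by_cases h0 : Q y = 0
    · simp [h0]
    · refine (Q y).roots.toFinset.finite_toSet.subset ?_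
      rintro η ⟨_, h⟩
      simp only [Finset.mem_coe, Multiset.mem_toFinset]
      exact (Polynomial.mem_roots h0).mpr h
  · intro η hη
    simp only [Adm, not_forall, mem_ofPred_eq, not_not] at hη
    obtain ⟨y, hy, hyb, hyp, he⟩ := hη
    simp only [mem_iUnion, mem_ofPred_eq]
    exact ⟨y, ⟨hy, hyb, hyp⟩, hne y hy hyp, by rw [heval, he, sub_self]⟩

/-- along a line only finitely many points are not admissible -/
theorem finite_z (hD : Dat κ c R Rm r S i₁ η₀ Y) (η : ℂ) (p : V) :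
    {z : ℂ | ¬ Adm κ S i₁ c R Y η (mv κ i₁ z p)}.Finite := by
  refine ((hD.fin (κ p)).image fun y => kap κ S i₁ η y i₁ - kap κ S i₁ η p i₁).subset ?_
  intro z hz
  simp only [Adm, not_forall, mem_ofPred_eq, not_not] at hz
  obtain ⟨y, hy, hyb, hyp, he⟩ := hz
  refine ⟨y, ⟨hy, hyb, fun j hj => ?_⟩, ?_⟩
  · rw [hyp j hj, mv_ne κ i₁ z p]
    rintro rfl
    exact hj hD.mem
  · simp only
    rw [he, kap_mv_self]
    ring

theorem exists_adm (hD : Dat κ c R Rm r S i₁ η₀ Y) {p : V} (hp : p ∉ Y) :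
    ∃ η : ℂ, ‖η‖ < η₀ ∧ Adm κ S i₁ c R Y η p := by
  have h1 : (Metric.ball (0 : ℂ) η₀).Infinite :=
    infinite_of_mem_nhds 0 (Metric.ball_mem_nhds 0 hD.η₀_pos)
  obtain ⟨η, hη, hη2⟩ := h1.exists_notMem_finite (finite_eta hD hp)
  exact ⟨η, mem_ball_zero_iff.mp hη, not_not.mp hη2⟩

end Pool.Agent.DQ.Sw
end

section

/-! Campaign DQ, module H: the sweep. -/

set_option autoImplicit false

open Set Filter Topology

universe u v w

namespace Pool.Agent.DQ.Sw

variable {V : Type u} [NormedAddCommGroup V] [NormedSpace ℂ V] {n : ℕ}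
variable {κ : V ≃L[ℂ] (Fin n → ℂ)} {S : Finset (Fin n)} {i₁ : Fin n} {c : Fin n → ℂ}
  {R Rm r : Fin n → ℝ} {η₀ : ℝ} {Y : Set V} {G : V → Type w} {d : ℕ}

/-- `σ` extends `s` over the slab -/
structure IsExt (κ : V ≃L[ℂ] (Fin n → ℂ)) (S : Finset (Fin n)) (i₁ : Fin n) (c : Fin n → ℂ)
    (R Rm r : Fin n → ℝ) (Y : Set V) (AtG : ((x : V) → G x) → V → Prop) (s : (x : V) → G x)
    (η : ℂ) (p : V) (ρ : ℝ) (σ : (x : V) → G x) : Prop where
  pos : 0 < ρ
  sub : cslab κ S i₁ c Rm η p ρ ⊆ box κ c (-1) R \ Y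
  at_ : ∀ x ∈ slab κ S i₁ c Rm η p ρ, AtG σ x
  eq : ∀ x ∈ slab κ S i₁ c Rm η p ρ, (∃ i ∈ S.erase i₁, r i < ‖κ x i - c i‖) → σ x = s x

variable {AtG : ((x : V) → G x) → V → Prop} {s : (x : V) → G x}

theorem IsExt.restrict {η : ℂ} {p : V} {ρ : ℝ} {σ : (x : V) → G x}
    (h : IsExt κ S i₁ c R Rm r Y AtG s η p ρ σ) {η' : ℂ} {p' : V} {ρ' : ℝ} (hρ' : 0 < ρ')
    (h1 : cslab κ S i₁ c Rm η' p' ρ' ⊆ cslab κ S i₁ c Rm η p ρ)
    (h2 : slab κ S i₁ c Rm η' p' ρ' ⊆ slab κ S i₁ c Rm η p ρ) :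
    IsExt κ S i₁ c R Rm r Y AtG s η' p' ρ' σ :=
  ⟨hρ', h1.trans h.sub, fun x hx => h.at_ x (h2 hx), fun x hx => h.eq x (h2 hx)⟩

theorem slab_sub {η : ℂ} {p p' : V} {ρ ρ' : ℝ}
    (h : ∀ j ∉ S.erase i₁, ‖kap κ S i₁ η p' j - kap κ S i₁ η p j‖ + ρ' ≤ ρ) :
    cslab κ S i₁ c Rm η p' ρ' ⊆ cslab κ S i₁ c Rm η p ρ ∧
      slab κ S i₁ c Rm η p' ρ' ⊆ slab κ S i₁ c Rm η p ρ := by
  have key : ∀ x j, kap κ S i₁ η x j - kap κ S i₁ η p j =
      (kap κ S i₁ η x j - kap κ S i₁ η p' j) + (kap κ S i₁ η p' j - kap κ S i₁ η p j) :=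
    fun x j => by ring
  constructor
  · intro x hx
    rw [mem_cslab] at hx ⊢
    refine ⟨hx.1, fun j hj => ?_⟩
    rw [key]
    exact (norm_add_le _ _).trans (by linarith [hx.2 j hj, h j hj])
  · intro x hx
    rw [mem_slab] at hx ⊢
    refine ⟨hx.1, fun j hj => ?_⟩
    rw [key]
    exact (norm_add_le _ _).trans_lt (by linarith [hx.2 j hj, h j hj])

theorem slab_mono {η : ℂ} {p : V} {ρ ρ' : ℝ} (h : ρ' ≤ ρ) :
    cslab κ S i₁ c Rm η p ρ' ⊆ cslab κ S i₁ c Rm η p ρ ∧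
      slab κ S i₁ c Rm η p ρ' ⊆ slab κ S i₁ c Rm η p ρ :=
  slab_sub fun j _ => by rw [sub_self, norm_zero, zero_add]; exact h

theorem slab_mv {η z : ℂ} {p : V} {ρ ρ' : ℝ} (h : ‖z‖ + ρ' ≤ ρ) :
    cslab κ S i₁ c Rm η (mv κ i₁ z p) ρ' ⊆ cslab κ S i₁ c Rm η p ρ ∧
      slab κ S i₁ c Rm η (mv κ i₁ z p) ρ' ⊆ slab κ S i₁ c Rm η p ρ := by
  refine slab_sub fun j _ => ?_
  by_cases hj : j = i₁
  · subst hj
    rw [kap_mv_self, add_sub_cancel_left]
    exact h
  · rw [kap_ne κ S i₁ η _ hj, kap_ne κ S i₁ η _ hj, mv_ne κ i₁ z p hj, sub_self, norm_zero,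
      zero_add]
    linarith [norm_nonneg z]

/-- nearby deformations -/
theorem slab_eta (hD : Dat κ c R Rm r S i₁ η₀ Y) {p : V} (hp : p ∈ box κ c (-1) R) (η : ℂ)
    {ρ ρ' : ℝ} (h : ρ' < ρ) : ∀ᶠ η' in 𝓝 η,
      cslab κ S i₁ c Rm η' p ρ' ⊆ cslab κ S i₁ c Rm η p ρ ∧
        slab κ S i₁ c Rm η' p ρ' ⊆ slab κ S i₁ c Rm η p ρ := by
  have hpR := mem_box_neg.mp hp
  set Δ : ℂ → ℝ := fun η' => ∑ i ∈ S.erase i₁,
    ‖η ^ ((i : ℕ) + 1) - η' ^ ((i : ℕ) + 1)‖ * (2 * R i) with hΔ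
  have hΔc : Continuous Δ := by
    rw [hΔ]
    fun_prop
  have hΔ0 : Δ η = 0 := by simp [hΔ]
  have h1 := hΔc.tendsto η
  rw [hΔ0] at h1
  filter_upwards [h1.eventually (gt_mem_nhds (show (0 : ℝ) < ρ - ρ' by linarith))] with η' hη'
  have key : ∀ x, (∀ i ∈ S.erase i₁, ‖κ x i - c i‖ ≤ Rm i) →
      ‖kap κ S i₁ η x i₁ - kap κ S i₁ η p i₁‖ ≤
        ‖kap κ S i₁ η' x i₁ - kap κ S i₁ η' p i₁‖ + Δ η' := by
    intro x hx
    have h2 : kap κ S i₁ η x i₁ - kap κ S i₁ η p i₁ =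
        (kap κ S i₁ η' x i₁ - kap κ S i₁ η' p i₁) + ∑ i ∈ S.erase i₁,
          (η ^ ((i : ℕ) + 1) - η' ^ ((i : ℕ) + 1)) * (κ x i - κ p i) := by
      simp only [kap_self, lin, sub_mul, mul_sub, Finset.sum_sub_distrib]
      ring
    rw [h2]
    refine (norm_add_le _ _).trans (add_le_add_right ?_ _)
    refine (norm_sum_le _ _).trans (Finset.sum_le_sum fun i hi => ?_)
    rw [norm_mul]
    refine mul_le_mul_of_nonneg_left ?_ (norm_nonneg _)
    calc ‖κ x i - κ p i‖ = ‖(κ x i - c i) - (κ p i - c i)‖ := by congr 1; ring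
      _ ≤ R i + R i := (norm_sub_le _ _).trans (add_le_add
          ((hx i hi).trans (hD.Rm_lt i (Finset.mem_of_mem_erase hi)).le) (hpR i).le)
      _ = 2 * R i := by ring
  constructor
  · intro x hx
    rw [mem_cslab] at hx ⊢
    refine ⟨hx.1, fun j hj => ?_⟩
    by_cases hji : j = i₁
    · subst hji
      linarith [key x hx.1, hx.2 j hj]
    · have := hx.2 j hj
      rw [kap_ne κ S i₁ η' _ hji, kap_ne κ S i₁ η' _ hji] at this
      rw [kap_ne κ S i₁ η _ hji, kap_ne κ S i₁ η _ hji]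
      linarith
  · intro x hx
    rw [mem_slab] at hx ⊢
    refine ⟨hx.1, fun j hj => ?_⟩
    by_cases hji : j = i₁
    · subst hji
      linarith [key x fun i hi => (hx.1 i hi).le, hx.2 j hj]
    · have := hx.2 j hj
      rw [kap_ne κ S i₁ η' _ hji, kap_ne κ S i₁ η' _ hji] at this
      rw [kap_ne κ S i₁ η _ hji, kap_ne κ S i₁ η _ hji]
      linarith

theorem rad_pos (hD : Dat κ c R Rm r S i₁ η₀ Y) {ρ : ℝ} (hρ : 0 < ρ) (i : Fin n) :
    0 < rad S i₁ Rm ρ i := by
  unfold rad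
  split_ifs with h
  · exact (hD.r_pos i (Finset.mem_of_mem_erase h)).trans (hD.r_lt i (Finset.mem_of_mem_erase h))
  · exact hρ

theorem rad_lt (hD : Dat κ c R Rm r S i₁ η₀ Y) {ρ : ℝ} {i : Fin n} (hi : i ∈ S.erase i₁) :
    0 < r i ∧ r i < rad S i₁ Rm ρ i := by
  unfold rad
  rw [if_pos hi]
  exact ⟨hD.r_pos i (Finset.mem_of_mem_erase hi), hD.r_lt i (Finset.mem_of_mem_erase hi)⟩

theorem card_erase (hD : Dat κ c R Rm r S i₁ η₀ Y) (hS : S.card = d + 2) :
    (S.erase i₁).card = d + 1 := by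
  rw [Finset.card_erase_of_mem hD.mem, hS]
  rfl

theorem shell_iff {η : ℂ} {p x : V} {i : Fin n} (hi : i ∈ S.erase i₁) :
    ‖kap κ S i₁ η x i - cen κ S i₁ c η p i‖ = ‖κ x i - c i‖ := by
  unfold cen
  rw [if_pos hi, kap_ne κ S i₁ η x (Finset.ne_of_mem_erase hi)]

/-- uniqueness on slabs -/
theorem slab_unique (hD : Dat κ c R Rm r S i₁ η₀ Y) (hS : S.card = d + 2)
    (hG : HartogsProp AtG d n (box κ c (-1) R \ Y)) {η : ℂ} {p : V} {ρ : ℝ} (hρ : 0 < ρ)
    (hsub : cslab κ S i₁ c Rm η p ρ ⊆ box κ c (-1) R \ Y) {σ τ : (x : V) → G x}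
    (hσ : ∀ x ∈ slab κ S i₁ c Rm η p ρ, AtG σ x) (hτ : ∀ x ∈ slab κ S i₁ c Rm η p ρ, AtG τ x)
    (h : ∀ x ∈ slab κ S i₁ c Rm η p ρ, (∃ i ∈ S.erase i₁, r i < ‖κ x i - c i‖) → σ x = τ x) :
    ∀ x ∈ slab κ S i₁ c Rm η p ρ, σ x = τ x := by
  refine hG.unique (kap κ S i₁ η) (cen κ S i₁ c η p) (rad S i₁ Rm ρ) (S.erase i₁) r
    (rad_pos hD hρ) (fun i hi => rad_lt hD hi) (card_erase hD hS) hsub σ τ hσ hτ ?_
  rintro x ⟨hx, i, hi, hxi⟩
  rw [shell_iff hi] at hxi
  exact h x hx ⟨i, hi, hxi⟩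

theorem IsExt.unique (hD : Dat κ c R Rm r S i₁ η₀ Y) (hS : S.card = d + 2)
    (hG : HartogsProp AtG d n (box κ c (-1) R \ Y)) {η : ℂ} {p : V} {ρ : ℝ}
    {σ τ : (x : V) → G x} (h : IsExt κ S i₁ c R Rm r Y AtG s η p ρ σ)
    (h' : IsExt κ S i₁ c R Rm r Y AtG s η p ρ τ) : ∀ x ∈ slab κ S i₁ c Rm η p ρ, σ x = τ x :=
  slab_unique hD hS hG h.pos h.sub h.at_ h'.at_ fun x hx hi => (h.eq x hx hi).trans
    (h'.eq x hx hi).symm

/-- the value at `p` of the extension over the slabs around `p` -/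
def Val (κ : V ≃L[ℂ] (Fin n → ℂ)) (S : Finset (Fin n)) (i₁ : Fin n) (c : Fin n → ℂ)
    (R Rm r : Fin n → ℝ) (Y : Set V) (AtG : ((x : V) → G x) → V → Prop) (s : (x : V) → G x)
    (η : ℂ) (p : V) (g : G p) : Prop :=
  ∃ (ρ : ℝ) (σ : (x : V) → G x), IsExt κ S i₁ c R Rm r Y AtG s η p ρ σ ∧ σ p = g

theorem Core.lt {p : V} (hp : p ∈ Core κ c R Rm S) : ∀ i ∈ S.erase i₁, ‖κ p i - c i‖ < Rm i :=
  fun i hi => hp.2 i (Finset.mem_of_mem_erase hi)

theorem Val.unique (hD : Dat κ c R Rm r S i₁ η₀ Y) (hS : S.card = d + 2)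
    (hG : HartogsProp AtG d n (box κ c (-1) R \ Y)) {η : ℂ} {p : V}
    (hp : p ∈ Core κ c R Rm S) {g g' : G p} (h : Val κ S i₁ c R Rm r Y AtG s η p g)
    (h' : Val κ S i₁ c R Rm r Y AtG s η p g') : g = g' := by
  obtain ⟨ρ, σ, h1, rfl⟩ := h
  obtain ⟨ρ', τ, h2, rfl⟩ := h'
  have hm : 0 < min ρ ρ' := lt_min h1.pos h2.pos
  have h3 := h1.restrict hm (slab_mono (min_le_left ρ ρ')).1 (slab_mono (min_le_left ρ ρ')).2
  have h4 := h2.restrict hm (slab_mono (min_le_right ρ ρ')).1 (slab_mono (min_le_right ρ ρ')).2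
  exact h3.unique hD hS hG h4 p (self_mem_slab hm (Core.lt hp))

/-- from a smaller slab to a bigger one -/
theorem ext_big (hD : Dat κ c R Rm r S i₁ η₀ Y) (hS : S.card = d + 2)
    (hG : HartogsProp AtG d n (box κ c (-1) R \ Y)) (hs : ∀ x ∈ shell κ c R S r, AtG s x)
    {η z : ℂ} {p : V} {ρ : ℝ} (hρ : 0 < ρ)
    (hsub : cslab κ S i₁ c Rm η p ρ ⊆ box κ c (-1) R \ Y) (hz : ‖z‖ < ρ) {ρ₁ : ℝ}
    {τ : (x : V) → G x} (hτ : IsExt κ S i₁ c R Rm r Y AtG s η (mv κ i₁ z p) ρ₁ τ) :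
    ∃ σ, IsExt κ S i₁ c R Rm r Y AtG s η p ρ σ := by
  classical
  -- make the small slab smaller
  set ρ' := min ρ₁ (ρ - ‖z‖) with hρ'
  have hρ'pos : 0 < ρ' := lt_min hτ.pos (by linarith)
  have hσ := hτ.restrict hρ'pos (slab_mono (min_le_left ρ₁ (ρ - ‖z‖))).1
    (slab_mono (min_le_left ρ₁ (ρ - ‖z‖))).2
  have hle : ‖z‖ + ρ' ≤ ρ := by linarith [min_le_right ρ₁ (ρ - ‖z‖)]
  set P := slab κ S i₁ c Rm η (mv κ i₁ z p) ρ' with hP
  set s' : (x : V) → G x := fun x => if x ∈ P then τ x else s x with hs'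
  have hshell : ∀ x ∈ slab κ S i₁ c Rm η p ρ, (∃ i ∈ S.erase i₁, r i < ‖κ x i - c i‖) →
      x ∈ shell κ c R S r := by
    rintro x hx ⟨i, hi, hxi⟩
    exact ⟨(hsub (slab_subset_cslab hx)).1, i, Finset.mem_of_mem_erase hi, hxi⟩
  have hs's : ∀ x, (∃ i ∈ S.erase i₁, r i < ‖κ x i - c i‖) → s' x = s x := by
    intro x hx
    simp only [hs']
    split_ifs with h
    · exact hσ.eq x h hx
    · rfl
  have hs'at : ∀ x ∈ hfig (kap κ S i₁ η) (cen κ S i₁ c η p) (rad S i₁ Rm ρ) (S.erase i₁) r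
      (fun j => kap κ S i₁ η (mv κ i₁ z p) j) (fun _ => ρ'), AtG s' x := by
    rintro x ⟨hx, hx2⟩
    have hx' : x ∈ slab κ S i₁ c Rm η p ρ := hx
    by_cases hxP : x ∈ P
    · refine hG.congr τ s' x (hσ.at_ x hxP) ?_
      filter_upwards [isOpen_slab.mem_nhds hxP] with y hy
      simp only [hs', hP, if_pos hy]
    · have hx3 : ∃ i ∈ S.erase i₁, r i < ‖κ x i - c i‖ := by
        rcases hx2 with ⟨i, hi, hxi⟩ | h
        · rw [shell_iff hi] at hxi
          exact ⟨i, hi, hxi⟩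
        · exfalso
          apply hxP
          rw [hP, mem_slab]
          exact ⟨(mem_slab.mp hx').1, h⟩
      refine hG.congr s s' x (hs x (hshell x hx' hx3)) ?_
      obtain ⟨i, hi, hxi⟩ := hx3
      have hcont : Continuous fun y : V => κ y i := C.continuous_coord κ i
      have hopen : IsOpen {y : V | r i < ‖κ y i - c i‖} :=
        isOpen_lt continuous_const (by fun_prop)
      filter_upwards [hopen.mem_nhds hxi] with y hy
      exact (hs's y ⟨i, hi, hy⟩).symm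
  have hfigD : HFig (cen κ S i₁ c η p) (rad S i₁ Rm ρ) (S.erase i₁) r
      (fun j => kap κ S i₁ η (mv κ i₁ z p) j) (fun _ => ρ') := by
    refine ⟨rad_pos hD hρ, fun i hi => rad_lt hD hi, fun i hi => ⟨hρ'pos, ?_⟩⟩
    refine Metric.ball_subset_ball' ?_
    simp only [cen, rad, if_neg hi]
    rw [dist_eq_norm]
    have h1 : ‖kap κ S i₁ η (mv κ i₁ z p) i - kap κ S i₁ η p i‖ ≤ ‖z‖ := by
      by_cases hj : i = i₁
      · subst hj
        rw [kap_mv_self, add_sub_cancel_left]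
      · rw [kap_ne κ S i₁ η _ hj, kap_ne κ S i₁ η _ hj, mv_ne κ i₁ z p hj, sub_self, norm_zero]
        exact norm_nonneg z
    linarith
  obtain ⟨t, ht, hts⟩ := hG.exist (kap κ S i₁ η) (cen κ S i₁ c η p) (rad S i₁ Rm ρ)
    (S.erase i₁) r _ _ hfigD (card_erase hD hS) hsub s' hs'at
  refine ⟨t, hρ, hsub, ht, fun x hx hx2 => ?_⟩
  obtain ⟨i, hi, hxi⟩ := hx2
  rw [hts x ⟨hx, Or.inl ⟨i, hi, by rw [shell_iff hi]; exact hxi⟩⟩]
  exact hs's x ⟨i, hi, hxi⟩

/-- some slab around `p` has an extension -/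
def HasV (κ : V ≃L[ℂ] (Fin n → ℂ)) (S : Finset (Fin n)) (i₁ : Fin n) (c : Fin n → ℂ)
    (R Rm r : Fin n → ℝ) (Y : Set V) (AtG : ((x : V) → G x) → V → Prop) (s : (x : V) → G x)
    (η : ℂ) (p : V) : Prop := ∃ (ρ : ℝ) (σ : (x : V) → G x),
      IsExt κ S i₁ c R Rm r Y AtG s η p ρ σ

theorem hasV_mv (hD : Dat κ c R Rm r S i₁ η₀ Y) (hS : S.card = d + 2)
    (hG : HartogsProp AtG d n (box κ c (-1) R \ Y)) (hs : ∀ x ∈ shell κ c R S r, AtG s x)
    {η z : ℂ} {p : V} {ρ : ℝ} (hρ : 0 < ρ)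
    (hsub : cslab κ S i₁ c Rm η p ρ ⊆ box κ c (-1) R \ Y) (hz : ‖z‖ < ρ) :
    HasV κ S i₁ c R Rm r Y AtG s η p ↔ HasV κ S i₁ c R Rm r Y AtG s η (mv κ i₁ z p) := by
  constructor
  · rintro ⟨ρ₁, τ, hτ⟩
    have h0 : mv κ i₁ 0 p = p := mv_zero κ i₁ p
    obtain ⟨σ, hσ⟩ := ext_big hD hS hG hs hρ hsub (z := 0) (by rw [norm_zero]; exact hρ)
      (τ := τ) (ρ₁ := ρ₁) (by rw [h0]; exact hτ)
    have hle : ‖z‖ + (ρ - ‖z‖) ≤ ρ := by linarith
    exact ⟨ρ - ‖z‖, σ, hσ.restrict (by linarith) (slab_mv hle).1 (slab_mv hle).2⟩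
  · rintro ⟨ρ₁, τ, hτ⟩
    obtain ⟨σ, hσ⟩ := ext_big hD hS hG hs hρ hsub hz hτ
    exact ⟨ρ, σ, hσ⟩

/-- existence far out -/
theorem val_far (hD : Dat κ c R Rm r S i₁ η₀ Y) (hs : ∀ x ∈ shell κ c R S r, AtG s x)
    {η : ℂ} (hη : ‖η‖ < η₀) {p : V} (hp : p ∈ Core κ c R Rm S)
    (hfar : r i₁ + err R (S.erase i₁) η < ‖κ p i₁ - c i₁‖) :
    Val κ S i₁ c R Rm r Y AtG s η p (s p) := by
  have hpR := mem_box_neg.mp hp.1
  have hnear : ∀ x ρ, (∀ i ∈ S.erase i₁, ‖κ x i - c i‖ ≤ R i) →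
      ‖kap κ S i₁ η x i₁ - kap κ S i₁ η p i₁‖ ≤ ρ →
      ‖κ p i₁ - c i₁‖ - (ρ + err R (S.erase i₁) η) ≤ ‖κ x i₁ - c i₁‖ := by
    intro x ρ h1 h2
    have h3 := coord_near (κ := κ) (S := S) (i₁ := i₁) (c := c) (R := R) (η := η) (x := x)
      (p := p) (ρ := ρ) h1 (fun i _ => (hpR i).le) h2
    have h4 : ‖κ p i₁ - c i₁‖ ≤ ‖κ x i₁ - c i₁‖ + ‖κ x i₁ - κ p i₁‖ := by
      calc ‖κ p i₁ - c i₁‖ = ‖(κ x i₁ - c i₁) - (κ x i₁ - κ p i₁)‖ := by congr 1; ring
        _ ≤ _ := norm_sub_le _ _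
    linarith
  have hA : Adm κ S i₁ c R Y η p := by
    intro y hy hyb _ he
    have h1 := hnear y 0 (fun i _ => (mem_box_neg.mp hyb i).le) (by rw [he, sub_self, norm_zero])
    refine hD.sh y ⟨hyb, i₁, hD.mem, ?_⟩ hy
    linarith
  obtain ⟨ρ₀, hρ₀, hsub⟩ := tube hD hη hp hA
  set ρ := min ρ₀ ((‖κ p i₁ - c i₁‖ - (r i₁ + err R (S.erase i₁) η)) / 2) with hρ
  have hρpos : 0 < ρ := lt_min hρ₀ (by linarith)
  have hsub' : cslab κ S i₁ c Rm η p ρ ⊆ box κ c (-1) R \ Y :=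
    (slab_mono (min_le_left _ _)).1.trans hsub
  refine ⟨ρ, s, ⟨hρpos, hsub', fun x hx => ?_, fun x _ _ => rfl⟩, rfl⟩
  have hxb := (hsub' (slab_subset_cslab hx)).1
  have h1 := hnear x ρ (fun i _ => (mem_box_neg.mp hxb i).le)
    ((mem_slab.mp hx).2 i₁ (Finset.notMem_erase i₁ S)).le
  refine hs x ⟨hxb, i₁, hD.mem, ?_⟩
  have h2 : ρ ≤ (‖κ p i₁ - c i₁‖ - (r i₁ + err R (S.erase i₁) η)) / 2 := min_le_right _ _
  linarith

theorem mv_core {z : ℂ} {p : V} (hp : p ∈ Core κ c R Rm S) (hi₁ : i₁ ∈ S)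
    (hD : Dat κ c R Rm r S i₁ η₀ Y) (hz : ‖κ p i₁ + z - c i₁‖ < Rm i₁) :
    mv κ i₁ z p ∈ Core κ c R Rm S := by
  refine ⟨mem_box_neg.mpr fun i => ?_, fun i hi => ?_⟩
  · by_cases hii : i = i₁
    · subst hii
      rw [mv_self]
      exact hz.trans (hD.Rm_lt i hi₁)
    · rw [mv_ne κ i₁ z p hii]
      exact mem_box_neg.mp hp.1 i
  · by_cases hii : i = i₁
    · subst hii
      rw [mv_self]
      exact hz
    · rw [mv_ne κ i₁ z p hii]
      exact hp.2 i hi

/-- existence for all admissible parameters -/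
theorem hasV_all (hD : Dat κ c R Rm r S i₁ η₀ Y) (hS : S.card = d + 2)
    (hG : HartogsProp AtG d n (box κ c (-1) R \ Y)) (hs : ∀ x ∈ shell κ c R S r, AtG s x)
    {η : ℂ} (hη : ‖η‖ < η₀) {p : V} (hp : p ∈ Core κ c R Rm S) (hA : Adm κ S i₁ c R Y η p) :
    HasV κ S i₁ c R Rm r Y AtG s η p := by
  set Z : Set ℂ := Metric.ball (c i₁ - κ p i₁) (Rm i₁) \
    {z : ℂ | ¬ Adm κ S i₁ c R Y η (mv κ i₁ z p)} with hZ
  have hZc : IsPreconnected Z := preconn _ _ (finite_z hD η p)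
  have hball : ∀ z, z ∈ Metric.ball (c i₁ - κ p i₁) (Rm i₁) ↔ ‖κ p i₁ + z - c i₁‖ < Rm i₁ := by
    intro z
    rw [Metric.mem_ball, dist_eq_norm]
    rw [show z - (c i₁ - κ p i₁) = κ p i₁ + z - c i₁ by ring]
  -- local constancy
  have hloc : ∀ z ∈ Z, ∀ᶠ z' in 𝓝[Z] z, (HasV κ S i₁ c R Rm r Y AtG s η (mv κ i₁ z p) ↔
      HasV κ S i₁ c R Rm r Y AtG s η (mv κ i₁ z' p)) := by
    intro z hz
    have hz1 := mv_core hp hD.mem hD ((hball z).mp hz.1)
    have hz2 : Adm κ S i₁ c R Y η (mv κ i₁ z p) := not_not.mp hz.2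
    obtain ⟨ρ, hρ, hsub⟩ := tube hD hη hz1 hz2
    refine nhdsWithin_le_nhds ?_
    filter_upwards [Metric.ball_mem_nhds z hρ] with z' hz'
    rw [Metric.mem_ball, dist_eq_norm] at hz'
    have h1 := hasV_mv hD hS hG hs hρ hsub hz'
    rw [mv_mv, add_sub_cancel] at h1
    exact h1
  -- the point far out
  set z₁ : ℂ := (c i₁ - κ p i₁) + (((r i₁ + Rm i₁) / 2 : ℝ) : ℂ) with hz₁
  have hr1 := hD.r_pos i₁ hD.mem
  have hr2 := hD.r_lt i₁ hD.mem
  have hz₁n : ‖κ p i₁ + z₁ - c i₁‖ = (r i₁ + Rm i₁) / 2 := by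
    rw [hz₁, show κ p i₁ + (c i₁ - κ p i₁ + (((r i₁ + Rm i₁) / 2 : ℝ) : ℂ)) - c i₁ =
      (((r i₁ + Rm i₁) / 2 : ℝ) : ℂ) by ring, Complex.norm_real,
      Real.norm_of_nonneg (by linarith)]
  have hz₁c : mv κ i₁ z₁ p ∈ Core κ c R Rm S :=
    mv_core hp hD.mem hD (by rw [hz₁n]; linarith)
  have hfar : r i₁ + err R (S.erase i₁) η < ‖κ (mv κ i₁ z₁ p) i₁ - c i₁‖ := by
    rw [mv_self, hz₁n]
    linarith [hD.err2 η hη]
  have hz₁A : Adm κ S i₁ c R Y η (mv κ i₁ z₁ p) := by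
    intro y hy hyb _ he
    have h3 := coord_near (κ := κ) (S := S) (i₁ := i₁) (c := c) (R := R) (η := η) (x := y)
      (p := mv κ i₁ z₁ p) (ρ := 0) (fun i _ => (mem_box_neg.mp hyb i).le)
      (fun i _ => (mem_box_neg.mp hz₁c.1 i).le) (by rw [he, sub_self, norm_zero])
    refine hD.sh y ⟨hyb, i₁, hD.mem, ?_⟩ hy
    have h4 : ‖κ (mv κ i₁ z₁ p) i₁ - c i₁‖ ≤ ‖κ y i₁ - c i₁‖ +
        ‖κ y i₁ - κ (mv κ i₁ z₁ p) i₁‖ := by
      calc ‖κ (mv κ i₁ z₁ p) i₁ - c i₁‖ =
            ‖(κ y i₁ - c i₁) - (κ y i₁ - κ (mv κ i₁ z₁ p) i₁)‖ := by congr 1; ring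
        _ ≤ _ := norm_sub_le _ _
    linarith
  have h1 : z₁ ∈ Z := ⟨(hball z₁).mpr (by rw [hz₁n]; linarith), not_not.mpr hz₁A⟩
  have h0 : (0 : ℂ) ∈ Z := by
    refine ⟨(hball 0).mpr (by rw [add_zero]; exact hp.2 i₁ hD.mem), not_not.mpr ?_⟩
    rw [mv_zero]
    exact hA
  have h2 := hZc.induction₂ (fun z z' => (HasV κ S i₁ c R Rm r Y AtG s η (mv κ i₁ z p) ↔
      HasV κ S i₁ c R Rm r Y AtG s η (mv κ i₁ z' p))) hloc
    (fun _ _ _ _ _ _ h h' => h.trans h') (fun _ _ _ _ h => h.symm) h1 h0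
  obtain ⟨ρ, σ, hσ, -⟩ := val_far hD hs hη hz₁c hfar
  have h3 := h2.mp ⟨ρ, σ, hσ⟩
  rwa [mv_zero] at h3

/-- independence of the parameter -/
theorem val_indep (hD : Dat κ c R Rm r S i₁ η₀ Y) (hS : S.card = d + 2)
    (hG : HartogsProp AtG d n (box κ c (-1) R \ Y)) (hs : ∀ x ∈ shell κ c R S r, AtG s x)
    {p : V} (hp : p ∈ Core κ c R Rm S) (hpY : p ∉ Y) {η η' : ℂ} (hη : ‖η‖ < η₀)
    (hη' : ‖η'‖ < η₀) (hA : Adm κ S i₁ c R Y η p) (hA' : Adm κ S i₁ c R Y η' p) (g : G p) :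
    Val κ S i₁ c R Rm r Y AtG s η p g ↔ Val κ S i₁ c R Rm r Y AtG s η' p g := by
  set H : Set ℂ := Metric.ball (0 : ℂ) η₀ \ {η : ℂ | ¬ Adm κ S i₁ c R Y η p} with hH
  have hHc : IsPreconnected H := preconn _ _ (finite_eta hD hpY)
  have hloc : ∀ η ∈ H, ∀ᶠ η' in 𝓝[H] η, ∀ g : G p, (Val κ S i₁ c R Rm r Y AtG s η p g ↔
      Val κ S i₁ c R Rm r Y AtG s η' p g) := by
    intro η hη
    obtain ⟨ρ, σ, hσ⟩ := hasV_all hD hS hG hs (mem_ball_zero_iff.mp hη.1) hp (not_not.mp hη.2)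
    have hρ := hσ.pos
    refine nhdsWithin_le_nhds ?_
    filter_upwards [slab_eta hD hp.1 η (show ρ / 2 < ρ by linarith)] with η' hη' g
    have hσ' := hσ.restrict (half_pos hρ) hη'.1 hη'.2
    have hv : Val κ S i₁ c R Rm r Y AtG s η p (σ p) := ⟨ρ, σ, hσ, rfl⟩
    have hv' : Val κ S i₁ c R Rm r Y AtG s η' p (σ p) := ⟨ρ / 2, σ, hσ', rfl⟩
    constructor
    · intro h
      rw [h.unique hD hS hG hp hv]
      exact hv'
    · intro h
      rw [h.unique hD hS hG hp hv']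
      exact hv
  exact hHc.induction₂ (fun η η' => ∀ g : G p, (Val κ S i₁ c R Rm r Y AtG s η p g ↔
      Val κ S i₁ c R Rm r Y AtG s η' p g)) hloc
    (fun _ _ _ _ _ _ h h' g => (h g).trans (h' g)) (fun _ _ _ _ h g => (h g).symm)
    ⟨mem_ball_zero_iff.mpr hη, not_not.mpr hA⟩ ⟨mem_ball_zero_iff.mpr hη', not_not.mpr hA'⟩ g

/-- the data exist -/
theorem exists_dat (hR : ∀ i, 0 < R i) (hr : ∀ i ∈ S, 0 < r i ∧ r i < R i)
    (hRm : ∀ i ∈ S, r i < Rm i ∧ Rm i < R i) (hi₁ : i₁ ∈ S)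
    (hY : IsOpen (box κ c (-1) R \ Y)) (hYs : ∀ x ∈ shell κ c R S r, x ∉ Y)
    (hfin : ∀ t : Fin n → ℂ, {x | x ∈ Y ∧ x ∈ box κ c (-1) R ∧ ∀ i ∉ S, κ x i = t i}.Finite) :
    ∃ η₀ : ℝ, Dat κ c R Rm r S i₁ η₀ Y := by
  obtain ⟨η₁, h1, h1'⟩ := exists_eta (R := R) (S' := S.erase i₁) (a := R i₁ - Rm i₁)
    (by linarith [(hRm i₁ hi₁).2])
  obtain ⟨η₂, h2, h2'⟩ := exists_eta (R := R) (S' := S.erase i₁) (a := (Rm i₁ - r i₁) / 2)
    (by linarith [(hRm i₁ hi₁).1])
  exact ⟨min η₁ η₂, hR, fun i hi => (hr i hi).1, fun i hi => (hRm i hi).1,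
    fun i hi => (hRm i hi).2, hi₁, lt_min h1 h2, fun η hη => h1' η (hη.trans_le (min_le_left _ _)),
    fun η hη => h2' η (hη.trans_le (min_le_right _ _)), hY, hYs, hfin⟩

end Pool.Agent.DQ.Sw

namespace Pool.Agent.DQ

open Sw

variable {V : Type u} [NormedAddCommGroup V] [NormedSpace ℂ V]

/-- every point off `Y` lies in a polydisc off `Y` whose shell is contained in the given shell -/
theorem exists_slab {d n : ℕ} (κ : V ≃L[ℂ] (Fin n → ℂ)) (c : Fin n → ℂ) (R : Fin n → ℝ)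
    (S : Finset (Fin n)) (r : Fin n → ℝ) (hR : ∀ i, 0 < R i) (hr : ∀ i ∈ S, 0 < r i ∧ r i < R i)
    (hS : S.card = d + 2)
    (Y : Set V) (hY : IsOpen (box κ c (-1) R \ Y)) (hYs : ∀ x ∈ shell κ c R S r, x ∉ Y)
    (hfin : ∀ t : Fin n → ℂ, {x | x ∈ Y ∧ x ∈ box κ c (-1) R ∧ ∀ i ∉ S, κ x i = t i}.Finite) :
    ∀ x₁ ∈ box κ c (-1) R \ Y, ∃ (κ' : V ≃L[ℂ] (Fin n → ℂ)) (c' : Fin n → ℂ)
      (R' : Fin n → ℝ) (S' : Finset (Fin n)) (r' : Fin n → ℝ), (∀ i, 0 < R' i) ∧
      (∀ i ∈ S', 0 < r' i ∧ r' i < R' i) ∧ S'.card = d + 1 ∧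
      cbox κ' c' (-1) R' ⊆ box κ c (-1) R \ Y ∧ x₁ ∈ box κ' c' (-1) R' ∧
      shell κ' c' R' S' r' ⊆ shell κ c R S r := by
  intro x₁ hx₁
  have hx₁R := mem_box_neg.mp hx₁.1
  obtain ⟨i₁, hi₁⟩ : S.Nonempty := Finset.card_pos.mp (by omega)
  set Rm : Fin n → ℝ := fun i => (max (r i) ‖κ x₁ i - c i‖ + R i) / 2 with hRm
  have hlt : ∀ i ∈ S, max (r i) ‖κ x₁ i - c i‖ < R i := fun i hi => max_lt (hr i hi).2 (hx₁R i)
  have hRm1 : ∀ i ∈ S, max (r i) ‖κ x₁ i - c i‖ < Rm i ∧ Rm i < R i := by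
    intro i hi
    have := hlt i hi
    constructor <;> simp only [hRm] <;> linarith
  obtain ⟨η₀, hD⟩ := exists_dat (κ := κ) (c := c) (R := R) (Rm := Rm) (r := r) (S := S)
    (i₁ := i₁) (Y := Y) hR hr
    (fun i hi => ⟨(le_max_left _ _).trans_lt (hRm1 i hi).1, (hRm1 i hi).2⟩) hi₁ hY hYs hfin
  have hcore : x₁ ∈ Core κ c R Rm S :=
    ⟨hx₁.1, fun i hi => (le_max_right _ _).trans_lt (hRm1 i hi).1⟩
  obtain ⟨η, hη, hA⟩ := exists_adm hD hx₁.2
  obtain ⟨ρ, hρ, hsub⟩ := tube hD hη hcore hA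
  refine ⟨kap κ S i₁ η, cen κ S i₁ c η x₁, rad S i₁ Rm ρ, S.erase i₁, r, rad_pos hD hρ,
    fun i hi => rad_lt hD hi, card_erase hD hS, hsub, self_mem_slab hρ (Core.lt hcore), ?_⟩
  rintro x ⟨hx, i, hi, hxi⟩
  rw [shell_iff hi] at hxi
  exact ⟨(hsub (slab_subset_cslab hx)).1, i, Finset.mem_of_mem_erase hi, hxi⟩

/-- (HS), purely topological: sections over a shell in `d + 2` directions extend uniquely to the
complement of a closed set with finite fibres which does not meet the shell -/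
theorem sweep {G : V → Type w} {AtG : ((x : V) → G x) → V → Prop} {d n : ℕ}
    (κ : V ≃L[ℂ] (Fin n → ℂ)) (c : Fin n → ℂ) (R : Fin n → ℝ) (S : Finset (Fin n))
    (r : Fin n → ℝ) (hR : ∀ i, 0 < R i) (hr : ∀ i ∈ S, 0 < r i ∧ r i < R i) (hS : S.card = d + 2)
    (Y : Set V) (hY : IsOpen (box κ c (-1) R \ Y)) (hYs : ∀ x ∈ shell κ c R S r, x ∉ Y)
    (hfin : ∀ t : Fin n → ℂ, {x | x ∈ Y ∧ x ∈ box κ c (-1) R ∧ ∀ i ∉ S, κ x i = t i}.Finite)
    (hG : HartogsProp AtG d n (box κ c (-1) R \ Y)) :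
    (∀ s, (∀ x ∈ shell κ c R S r, AtG s x) →
      ∃ t, (∀ x ∈ box κ c (-1) R \ Y, AtG t x) ∧ ∀ x ∈ shell κ c R S r, t x = s x) ∧
    ∀ s t, (∀ x ∈ box κ c (-1) R \ Y, AtG s x) → (∀ x ∈ box κ c (-1) R \ Y, AtG t x) →
      (∀ x ∈ shell κ c R S r, s x = t x) → ∀ x ∈ box κ c (-1) R \ Y, s x = t x := by
  classical
  constructor
  · intro s hs
    obtain ⟨i₁, hi₁⟩ : S.Nonempty := Finset.card_pos.mp (by omega)
    set Rm : Fin n → ℝ := fun i => (r i + R i) / 2 with hRm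
    have hRm1 : ∀ i ∈ S, r i < Rm i ∧ Rm i < R i := by
      intro i hi
      have := (hr i hi).2
      constructor <;> simp only [hRm] <;> linarith
    obtain ⟨η₀, hD⟩ := exists_dat (κ := κ) (c := c) (R := R) (Rm := Rm) (r := r) (S := S)
      (i₁ := i₁) (Y := Y) hR hr hRm1 hi₁ hY hYs hfin
    have hshell_open : IsOpen (shell κ c R S r) := by
      have h1 : IsOpen (box κ c (-1) R) :=
        C.isOpen_Box _ fun j => C.isOpen_ring (c j) ((-1 : Fin n → ℝ) j) (R j)
      have h2 : shell κ c R S r = box κ c (-1) R ∩ ⋃ i ∈ S, {x | r i < ‖κ x i - c i‖} := by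
        ext x
        simp [shell]
      rw [h2]
      refine h1.inter (isOpen_biUnion fun i _ => ?_)
      have h3 : Continuous fun p : V => κ p i := C.continuous_coord κ i
      exact isOpen_lt continuous_const (by fun_prop)
    -- values in the core
    have hex : ∀ p, p ∈ Core κ c R Rm S \ Y → ∃ g : G p, ∃ η : ℂ, ‖η‖ < η₀ ∧
        Adm κ S i₁ c R Y η p ∧ Val κ S i₁ c R Rm r Y AtG s η p g := by
      rintro p ⟨hp, hpY⟩
      obtain ⟨η, hη, hA⟩ := exists_adm hD hpY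
      obtain ⟨ρ, σ, hσ⟩ := hasV_all hD hS hG hs hη hp hA
      exact ⟨σ p, η, hη, hA, ρ, σ, hσ, rfl⟩
    have hne : ∀ p, Nonempty (G p) := fun p => ⟨s p⟩
    choose! τ hτ using hex
    have hτeq : ∀ p ∈ Core κ c R Rm S \ Y, ∀ η : ℂ, ‖η‖ < η₀ → Adm κ S i₁ c R Y η p →
        ∀ g : G p, Val κ S i₁ c R Rm r Y AtG s η p g → τ p = g := by
      intro p hp η hη hA g hg
      obtain ⟨η', hη', hA', hv⟩ := hτ p hp
      have h1 := (val_indep hD hS hG hs hp.1 hp.2 hη' hη hA' hA (τ p)).mp hv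
      exact h1.unique hD hS hG hp.1 hg
    -- near a point of the core
    have hnear : ∀ p ∈ Core κ c R Rm S \ Y, ∃ σ : (x : V) → G x, AtG σ p ∧
        (∀ᶠ x in 𝓝 p, x ∈ Core κ c R Rm S \ Y ∧ τ x = σ x) := by
      intro p hp
      obtain ⟨η, hη, hA⟩ := exists_adm hD hp.2
      obtain ⟨ρ, σ, hσ⟩ := hasV_all hD hS hG hs hη hp.1 hA
      have hρ := hσ.pos
      refine ⟨σ, hσ.at_ p (self_mem_slab hρ (Core.lt hp.1)), ?_⟩
      have h1 : ∀ᶠ x in 𝓝 p, x ∈ slab κ S i₁ c Rm η p (ρ / 2) :=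
        isOpen_slab.mem_nhds (self_mem_slab (half_pos hρ) (Core.lt hp.1))
      filter_upwards [h1, isOpen_core.mem_nhds hp.1] with x hx hxc
      have hx2 := (mem_slab.mp hx).2
      have hincl := slab_sub (κ := κ) (S := S) (i₁ := i₁) (c := c) (Rm := Rm) (η := η) (p := p)
        (p' := x) (ρ := ρ) (ρ' := ρ / 2) (fun j hj => by linarith [hx2 j hj])
      have hσx := hσ.restrict (half_pos hρ) hincl.1 hincl.2
      have hxslab := self_mem_slab (κ := κ) (S := S) (i₁ := i₁) (c := c) (Rm := Rm) (η := η)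
        (half_pos hρ) (Core.lt hxc)
      have hxY : x ∉ Y := (hσx.sub (slab_subset_cslab hxslab)).2
      have hAx : Adm κ S i₁ c R Y η x := by
        intro y hy hyb hyx he
        -- `y` would lie in the slab
        have h2 : ∀ i ∈ S, ‖κ y i - c i‖ ≤ r i := by
          intro i hi
          by_contra h
          exact hYs y ⟨hyb, i, hi, not_le.mp h⟩ hy
        have h3 : y ∈ slab κ S i₁ c Rm η x (ρ / 2) := by
          rw [mem_slab]
          refine ⟨fun i hi => (h2 i (Finset.mem_of_mem_erase hi)).trans_lt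
            (hRm1 i (Finset.mem_of_mem_erase hi)).1, fun j hj => ?_⟩
          by_cases hji : j = i₁
          · subst hji
            rw [he, sub_self, norm_zero]
            exact half_pos hρ
          · rw [kap_ne κ S i₁ η _ hji, kap_ne κ S i₁ η _ hji, hyx j (fun h => hj
              (Finset.mem_erase.mpr ⟨hji, h⟩)), sub_self, norm_zero]
            exact half_pos hρ
        exact (hσx.sub (slab_subset_cslab h3)).2 hy
      exact ⟨⟨hxc, hxY⟩, hτeq x ⟨hxc, hxY⟩ η hη hAx _ ⟨ρ / 2, σ, hσx, rfl⟩⟩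
    -- on the shell
    have hτs : ∀ p ∈ Core κ c R Rm S \ Y, p ∈ shell κ c R S r → τ p = s p := by
      rintro p hp ⟨-, i, hi, hpi⟩
      by_cases hii : i = i₁
      · subst hii
        have h0 : ‖(0 : ℂ)‖ < η₀ := by rw [norm_zero]; exact hD.η₀_pos
        have hfar : r i + err R (S.erase i) 0 < ‖κ p i - c i‖ := by
          rw [err_zero, add_zero]
          exact hpi
        have hv := val_far hD hs h0 hp.1 hfar
        have hA : Adm κ S i c R Y 0 p := by
          intro y hy hyb _ he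
          have h3 := coord_near (κ := κ) (S := S) (i₁ := i) (c := c) (R := R) (η := 0) (x := y)
            (p := p) (ρ := 0) (fun i _ => (mem_box_neg.mp hyb i).le)
            (fun i _ => (mem_box_neg.mp hp.1.1 i).le) (by rw [he, sub_self, norm_zero])
          rw [err_zero, add_zero] at h3
          have h4 : κ y i = κ p i := sub_eq_zero.mp (norm_le_zero_iff.mp h3)
          exact hYs y ⟨hyb, i, hi, by rw [h4]; exact hpi⟩ hy
        exact hτeq p hp 0 h0 hA _ hv
      · obtain ⟨η, hη, hA, ρ, σ, hσ, hσp⟩ := hτ p hp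
        rw [← hσp]
        exact hσ.eq p (self_mem_slab hσ.pos (Core.lt hp.1))
          ⟨i, Finset.mem_erase.mpr ⟨hii, hi⟩, hpi⟩
    -- the extension
    set t : (x : V) → G x := fun x => if x ∈ Core κ c R Rm S \ Y then τ x else s x with ht
    have hts : ∀ x ∈ shell κ c R S r, t x = s x := by
      intro x hx
      simp only [ht]
      split_ifs with h
      · exact hτs x h hx
      · rfl
    refine ⟨t, fun x hx => ?_, hts⟩
    by_cases hxc : x ∈ Core κ c R Rm S
    · obtain ⟨σ, hσ, hev⟩ := hnear x ⟨hxc, hx.2⟩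
      refine hG.congr σ t x hσ ?_
      filter_upwards [hev] with y hy
      simp only [ht, if_pos hy.1]
      exact hy.2.symm
    · have hxs : x ∈ shell κ c R S r := by
        simp only [Core, mem_ofPred_eq, not_and, not_forall] at hxc
        obtain ⟨i, hi, hxi⟩ := hxc hx.1
        exact ⟨hx.1, i, hi, (hRm1 i hi).1.trans_le (not_lt.mp hxi)⟩
      refine hG.congr s t x (hs x hxs) ?_
      filter_upwards [hshell_open.mem_nhds hxs] with y hy
      exact (hts y hy).symm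
  · intro s t hs ht hst x hx
    obtain ⟨κ', c', R', S', r', h1, h2, h3, h4, h5, h6⟩ :=
      exists_slab κ c R S r hR hr hS Y hY hYs hfin x hx
    exact hG.unique κ' c' R' S' r' h1 h2 h3 h4 s t
      (fun y hy => hs y (h4 (C.box_subset_cbox κ' _ _ _ hy)))
      (fun y hy => ht y (h4 (C.box_subset_cbox κ' _ _ _ hy))) (fun y hy => hst y (h6 hy)) x h5

end Pool.Agent.DQ
end
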