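import Pool.Agent.Lib.MP_4aa2a9_ag.Mg.G014
import Pool.Agent.Lib.MP_4aa2a9_ag.Mg.G040
import Pool.Agent.Lib.MP_4aa2a9_ag.Mg.G045
import Pool.Agent.Lib.MP_4aa2a9_ag.Mg.G038

section

/-! # DQ, module G, task GM1: supports of coherent sheaves -/

set_option autoImplicit false

open Set Filter Topology Module

universe u w

namespace Pool.Agent.DQ

variable {V : Type u} [NormedAddCommGroup V] [NormedSpace ℂ V] [FiniteDimensional ℂ V]

/-- Finitely many sections which agree at `x` agree near `x`; in particular a section which vanishes at `x` vanishes near `x`.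

Proof. `F.inj hs (F.zero x _)`; `x ∈ F.dom` by `F.mem_dom hs`. -/
theorem section_zero_near (F : EMod.{u, u, w} (O V)) {s : (y : V) → F.St y} {x : V} (hs : F.At s x) (h : s x = 0) :
    ∀ᶠ y in 𝓝 x, s y = 0 :=
  F.inj hs (F.zero x (F.mem_dom hs)) h

/-- the complement of the support is open

Proof. Generators `g i` near `x` (first part of `F.CohAt x`): `g i x = 0` (the stalk is zero), so `g i y = 0` near `x` (`section_zero_near`), and they span the stalk at `y`: `⊤ = span {0} = ⊥`, so the stalk is a subsingleton. -/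
theorem supp_open (F : EMod.{u, u, w} (O V)) {x : V} (hF : F.CohAt x) (h : Subsingleton (F.St x)) :
    ∀ᶠ y in 𝓝 x, Subsingleton (F.St y) := by
  obtain ⟨-, ⟨n, g, hg, hgen⟩, -⟩ := hF
  have h1 : ∀ᶠ y in 𝓝 x, ∀ i, g i y = 0 :=
    eventually_all.2 fun i => section_zero_near F (hg i) (Subsingleton.elim _ _)
  filter_upwards [hgen, h1] with y hy hy0
  have h2 : (⊤ : Submodule ((O V).St y) (F.St y)) = ⊥ := by
    rw [← hy, Submodule.span_eq_bot]
    rintro _ ⟨i, rfl⟩
    exact hy0 i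
  refine ⟨fun a b => ?_⟩
  have ha : a ∈ (⊥ : Submodule ((O V).St y) (F.St y)) := by rw [← h2]; exact Submodule.mem_top
  have hb : b ∈ (⊥ : Submodule ((O V).St y) (F.St y)) := by rw [← h2]; exact Submodule.mem_top
  rw [(Submodule.mem_bot _).1 ha, (Submodule.mem_bot _).1 hb]

/-- The stalk of a coherent sheaf is a finite module. Proof. The generators at `x` (`Eventually.self_of_nhds`); `Module.Finite` from a finite spanning family. -/
theorem finite_stalk (F : EMod.{u, u, w} (O V)) {x : V} (hF : F.CohAt x) : Module.Finite ((O V).St x) (F.St x) := by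
  obtain ⟨-, ⟨n, g, hg, hgen⟩, -⟩ := hF
  refine ⟨?_⟩
  rw [← hgen.self_of_nhds]
  exact Submodule.fg_span (Set.finite_range _)

/-- **The support of a coherent sheaf with `Ext^j(F, O) = 0` for `j < c` has codimension `≥ c`.**

Proof. `M = F.St x` is finite over the noetherian ring `OGerm x` (`(O V).St x` is by definition `OGerm x`); `gradeGE_annihilator`: `GradeGE (Module.annihilator _ M) c`. `exists_gid`: the annihilator is `gid f x`, `f j` holomorphic near `x`. Let `g i` be generators of `F` near `x`. `om (f j) x • g i x = 0`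
as `gm (f j) x` is in the annihilator; the section `y ↦ om (f j) y • g i y` (`F.smul`; `(O V).At (om (f j)) x` by definition of `O`) vanishes near `x` (`section_zero_near`). So for `y` near `x` `om (f j) y` kills all generators, hence `F.St y` (`Submodule.span_induction`). If `f j y ≠ 0` then `gm (f j) y` is a
unit (`OGerm.isUnit_iff`, `val_gm_g`), so `F.St y` is zero and `y ∉ Supp F`. So `y ∈ Supp F → ∀ j, f j y = 0`. -/
theorem gCodim_supp (F : EMod.{u, u, w} (O V)) {x : V} (hF : F.CohAt x) {c : ℕ}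
    (hext : ∀ j < c, ExtZero ((O V).St x) (F.St x) j) : GCodim (Supp F) c x := by
  have hfin := finite_stalk F hF
  let _ : Module (OGerm x) (F.St x) := F.mod x
  have hfin' : Module.Finite (OGerm x) (F.St x) := hfin
  have hg0 : GradeGE (Module.annihilator (OGerm x) (F.St x)) c := gradeGE_annihilator hext
  obtain ⟨m, f, hf, hfx⟩ := exists_gid (Module.annihilator (OGerm x) (F.St x))
  obtain ⟨-, ⟨n, g, hg, hgen⟩, -⟩ := hF
  refine ⟨m, f, hf, ?_, by rw [hfx]; exact hg0⟩
  have h1 : ∀ j i, (om (f j) x : (O V).St x) • g i x = 0 := by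
    intro j i
    have h2 : (gm (f j) x : OGerm x) ∈ Module.annihilator (OGerm x) (F.St x) := by
      rw [← hfx]
      exact Ideal.subset_span ⟨j, rfl⟩
    exact Module.mem_annihilator.1 h2 (g i x)
  have h2 : ∀ᶠ y in 𝓝 x, ∀ j i, (om (f j) y : (O V).St y) • g i y = 0 := by
    refine eventually_all.2 fun j => eventually_all.2 fun i => ?_
    have h3 : (O V).At (om (f j)) x := ⟨f j, hf j, Eventually.of_forall fun y => rfl⟩
    exact section_zero_near F (F.smul h3 (hg i)) (h1 j i)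
  have h3 : ∀ᶠ y in 𝓝 x, ∀ j, HolAt (f j) y := eventually_all.2 fun j => (hf j).eventually
  filter_upwards [hgen, h2, h3] with y hy h2y h3y hys j
  by_contra hne
  apply hys
  have hu : IsUnit (gm (f j) y : OGerm y) := by
    rw [OGerm.isUnit_iff, val_gm_g (h3y j)]
    exact hne
  obtain ⟨u, hu⟩ := hu
  have hkill : ∀ z : F.St y, (om (f j) y : (O V).St y) • z = 0 := by
    intro z
    have hz : z ∈ Submodule.span ((O V).St y) (Set.range fun i => g i y) := by
      rw [hy]; exact Submodule.mem_top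
    let _ : Module (OGerm y) (F.St y) := F.mod y
    induction hz using Submodule.span_induction with
    | mem z hz =>
      obtain ⟨i, rfl⟩ := hz
      exact h2y j i
    | zero => exact smul_zero _
    | add a b _ _ ha hb => rw [smul_add, ha, hb, add_zero]
    | smul a b _ hb =>
      have h4 : (om (f j) y : (O V).St y) • a • b = a • (om (f j) y : (O V).St y) • b := by
        rw [smul_smul, smul_smul]
        congr 1
        exact mul_comm (gm (f j) y : OGerm y) a
      rw [h4, hb, smul_zero]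
  have hz : ∀ z : F.St y, z = 0 := by
    intro z
    let _ : Module (OGerm y) (F.St y) := F.mod y
    have h5 : (u : OGerm y) • z = 0 := by
      rw [hu]
      exact hkill z
    have h6 := (Units.smul_def u z).trans h5
    rw [smul_eq_zero_iff_eq] at h6
    exact h6
  exact ⟨fun a b => by rw [hz a, hz b]⟩

end Pool.Agent.DQ
end

section

/-! # DQ, module G, task GM5: a local presentation which extends a given resolution of the stalk -/

set_option autoImplicit false

open Set Filter Topology Module Matrix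

universe u w

namespace Pool.Agent.DQ

variable {B : Type u} [NormedAddCommGroup B] [NormedSpace ℂ B] [FiniteDimensional ℂ B]

/-- finite sums of sections -/
private theorem GM5_sum (E : EMod.{u, u, w} (O B)) {b : B} (hb : b ∈ E.dom) {ι : Type*} (T : Finset ι)
    (s : ι → (y : B) → E.St y) (hs : ∀ i ∈ T, E.At (s i) b) : E.At (fun y => ∑ i ∈ T, s i y) b := by
  classical
  induction T using Finset.induction_on with
  | empty =>
    simp only [Finset.sum_empty]
    exact E.zero b hb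
  | insert a T ha ih =>
    simp only [Finset.sum_insert ha]
    exact E.add (hs a (Finset.mem_insert_self _ _)) (ih fun i hi => hs i (Finset.mem_insert_of_mem hi))

private theorem GM5_comb (E : EMod.{u, u, w} (O B)) {b : B} (hb : b ∈ E.dom) {p : ℕ}
    (g : Fin p → (y : B) → E.St y) (hg : ∀ i, E.At (g i) b) (C : Fin p → B → ℂ) (hC : ∀ i, HolAt (C i) b) :
    E.At (fun y => ∑ i, (om (C i) y : (O B).St y) • g i y) b :=
  GM5_sum E hb Finset.univ _ fun i _ => E.smul ⟨C i, hC i, Eventually.of_forall fun _ => rfl⟩ (hg i)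

/-- Sections which generate the stalk of a coherent sheaf at `b` generate it near `b`.

Proof. Let `g' j` be generators near `b` (`E.CohAt b`, first part). `g' j b = ∑ i, c j i • g i b`; represent `c j i = gm (C j i) b` (`exists_gm`); the sections `g' j` and `∑ i, om (C j i) • g i` agree at `b`, hence near `b` (`E.inj`, `E.add`, `E.smul`; finite sums of sections are sections: induction).
So for `y` near `b` the span of the `g i y` contains all `g' j y`, it is `⊤`. -/
theorem gen_near_g (E : EMod.{u, u, w} (O B)) {b : B} (hE : E.CohAt b) {p : ℕ} (g : Fin p → (y : B) → E.St y)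
    (hg : ∀ i, E.At (g i) b) (h : Submodule.span ((O B).St b) (range fun i => g i b) = ⊤) :
    ∀ᶠ y in 𝓝 b, Submodule.span ((O B).St y) (range fun i => g i y) = ⊤ := by
  obtain ⟨hb, ⟨m, g', hg', hgen⟩, -⟩ := hE
  have h1 : ∀ j, ∃ C : Fin p → B → ℂ, (∀ i, HolAt (C i) b) ∧
      g' j b = ∑ i, (om (C i) b : (O B).St b) • g i b := by
    intro j
    have h2 : g' j b ∈ Submodule.span ((O B).St b) (range fun i => g i b) := by
      rw [h]; exact Submodule.mem_top
    obtain ⟨c, hc⟩ := (Submodule.mem_span_range_iff_exists_fun _).1 h2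
    choose C hC hC' using fun i => exists_gm (c i)
    refine ⟨C, hC, ?_⟩
    rw [← hc]
    exact Finset.sum_congr rfl fun i _ => by rw [← hC' i]
  choose C hC hC' using h1
  have h2 : ∀ᶠ y in 𝓝 b, ∀ j, g' j y = ∑ i, (om (C j i) y : (O B).St y) • g i y :=
    eventually_all.2 fun j => E.inj (hg' j) (GM5_comb E hb g hg (C j) (hC j)) (hC' j)
  filter_upwards [hgen, h2] with y hy hy2
  rw [eq_top_iff, ← hy, Submodule.span_le]
  rintro _ ⟨j, rfl⟩
  change g' j y ∈ _
  rw [hy2 j]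
  exact Submodule.sum_mem _ fun i _ => Submodule.smul_mem _ _ (Submodule.subset_span ⟨i, rfl⟩)

private theorem GM5_gm_sum {ι : Type*} (T : Finset ι) (f : ι → B → ℂ) {y : B} (hf : ∀ i ∈ T, HolAt (f i) y) :
    (gm (fun z => ∑ i ∈ T, f i z) y : OGerm y) = ∑ i ∈ T, gm (f i) y := by
  classical
  induction T using Finset.induction_on with
  | empty =>
    simp only [Finset.sum_empty]
    exact gm_zero y
  | insert a T ha ih =>
    have h1 : HolAt (fun z => ∑ i ∈ T, f i z) y :=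
      HolAt.sum T fun i hi => hf i (Finset.mem_insert_of_mem hi)
    rw [Finset.sum_insert ha, ← ih fun i hi => hf i (Finset.mem_insert_of_mem hi),
      ← gm_add (hf a (Finset.mem_insert_self _ _)) h1]
    congr 1
    funext z
    rw [Finset.sum_insert ha]
    rfl

/-- Relations which generate the relation module at `b` generate it near `b`.

Proof. By `E.CohAt b` (second part, for `g`) the relation modules are generated near `b` by sections `r 1, …, r m`; write `r j i y = gm (r' j i) y` near `b` with `r' j i` holomorphic near `b` (definition of `(O B).At`). (⊇) `om (β k i) b` (`i : Fin p`) is a relation at `b`: `∑ i, om (β k i) b • g i b = 0`; the section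
`∑ i, om (β k i) y • g i y` vanishes at `b`, so near `b` (`section_zero_near`). (⊆) `r j b = ∑ k, c j k • (row k of β at b)`, `c j k = gm (C j k) b`: the functions `r' j i` and `∑ k, C j k * β k i` have the same germ at `b`, so they agree near `b` (`gm_eq_iff`), so near `b` the rows `r j y` are in the span of the
rows `om (β k i) y`. -/
theorem rel_near_g (E : EMod.{u, u, w} (O B)) {b : B} (hE : E.CohAt b) {p q : ℕ} (g : Fin p → (y : B) → E.St y)
    (hg : ∀ i, E.At (g i) b) (β : Fin q → Fin p → B → ℂ) (hβ : ∀ k i, HolAt (β k i) b)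
    (h : E.rel g b = Submodule.span ((O B).St b) (range fun k => fun i => om (β k i) b)) :
    ∀ᶠ y in 𝓝 b, E.rel g y = Submodule.span ((O B).St y) (range fun k => fun i => om (β k i) y) := by
  obtain ⟨hb, -, hrel⟩ := hE
  obtain ⟨m, r, hr, hrel⟩ := hrel p g hg
  -- the rows of `β` are relations
  have h1 : ∀ᶠ y in 𝓝 b, ∀ k, ∑ i, (om (β k i) y : (O B).St y) • g i y = 0 := by
    refine eventually_all.2 fun k => ?_
    refine section_zero_near E (GM5_comb E hb g hg (β k) (hβ k)) ?_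
    have h2 : (fun i => om (β k i) b) ∈ E.rel g b := by
      rw [h]
      exact Submodule.subset_span ⟨k, rfl⟩
    exact h2
  -- the relations are combinations of the rows
  have h2 : ∀ j, ∃ C : Fin q → B → ℂ, (∀ k, HolAt (C k) b) ∧
      ∀ i, r j i b = (gm (fun z => ∑ k, C k z * β k i z) b : OGerm b) := by
    intro j
    have h3 : (fun i => r j i b) ∈ Submodule.span ((O B).St b) (range fun k => fun i => om (β k i) b) := by
      rw [← h, hrel.self_of_nhds]
      exact Submodule.subset_span ⟨j, rfl⟩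
    obtain ⟨c, hc⟩ := (Submodule.mem_span_range_iff_exists_fun _).1 h3
    choose C hC hC' using fun k => exists_gm (c k)
    refine ⟨C, hC, fun i => ?_⟩
    have h4 := congrFun hc i
    rw [GM5_gm_sum Finset.univ (fun k => fun z => C k z * β k i z) fun k _ => (hC k).mul (hβ k i)]
    rw [← h4, Finset.sum_apply]
    refine Finset.sum_congr rfl fun k _ => ?_
    have h5 : (gm (fun z => C k z * β k i z) b : OGerm b) = gm (C k) b * gm (β k i) b :=
      gm_mul (hC k) (hβ k i)
    rw [h5, hC' k]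
    rfl
  choose C hC hC' using h2
  have h3 : ∀ᶠ y in 𝓝 b, ∀ j i, r j i y = (gm (fun z => ∑ k, C j k z * β k i z) y : OGerm y) := by
    refine eventually_all.2 fun j => eventually_all.2 fun i => ?_
    have h4 : HolAt (fun z => ∑ k, C j k z * β k i z) b :=
      HolAt.sum Finset.univ fun k _ => (hC j k).mul (hβ k i)
    exact (O B).inj (hr j i) ⟨_, h4, Eventually.of_forall fun _ => rfl⟩ (hC' j i)
  have h4 : ∀ᶠ y in 𝓝 b, ∀ k i, HolAt (β k i) y :=
    eventually_all.2 fun k => eventually_all.2 fun i => (hβ k i).eventually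
  have h5 : ∀ᶠ y in 𝓝 b, ∀ j k, HolAt (C j k) y :=
    eventually_all.2 fun j => eventually_all.2 fun k => (hC j k).eventually
  filter_upwards [hrel, h1, h3, h4, h5] with y hy hy1 hy3 hy4 hy5
  apply le_antisymm
  · rw [hy, Submodule.span_le]
    rintro _ ⟨j, rfl⟩
    have h6 : (fun i => r j i y) = ∑ k, (om (C j k) y : (O B).St y) • fun i => om (β k i) y := by
      funext i
      rw [hy3 j i, GM5_gm_sum Finset.univ (fun k => fun z => C j k z * β k i z)
        fun k _ => (hy5 j k).mul (hy4 k i), Finset.sum_apply]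
      refine Finset.sum_congr rfl fun k _ => ?_
      exact gm_mul (hy5 j k) (hy4 k i)
    change (fun i => r j i y) ∈ _
    rw [h6]
    exact Submodule.sum_mem _ fun k _ => Submodule.smul_mem _ _ (Submodule.subset_span ⟨k, rfl⟩)
  · rw [Submodule.span_le]
    rintro _ ⟨k, rfl⟩
    exact hy1 k

/-- **Extension of the beginning of a resolution of the stalk.**

Proof. `g i` := a section near `b` with `g i b = ε (Pi.single i 1)` (`E.surj`; `b ∈ E.dom` by `hE.1`). They generate at `b` (`h.surj`: `ε v = ∑ v i • ε (Pi.single i 1)`), so near `b` (`gen_near_g`). `β k i` := a function holomorphic near `b` with `gm (β k i) b = A 1 k i` (`exists_gm`). `E.rel g b = {v | ε v = 0} = {u ᵥ* A 1}` (`h.ker`)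
`= span` of the rows of `A 1`; `rel_near_g`. -/
theorem exists_presentation (E : EMod.{u, u, w} (O B)) {b : B} (hE : E.CohAt b) {n : ℕ → ℕ}
    {A : ∀ k, Matrix (Fin (n (k + 1))) (Fin (n k)) ((O B).St b)} {ε : (Fin (n 1) → (O B).St b) →ₗ[(O B).St b] E.St b}
    (h : IsRes n A ε) :
    ∃ (g : Fin (n 1) → (y : B) → E.St y) (β : Fin (n 2) → Fin (n 1) → B → ℂ), (∀ i, E.At (g i) b) ∧
      (∀ k i, HolAt (β k i) b) ∧ (∀ k i, om (β k i) b = A 1 k i) ∧
      (∀ᶠ y in 𝓝 b, Submodule.span ((O B).St y) (range fun i => g i y) = ⊤) ∧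
      ∀ᶠ y in 𝓝 b, E.rel g y = Submodule.span ((O B).St y) (range fun k => fun i => om (β k i) y) := by
  choose g hg hgb using fun i : Fin (n 1) => E.surj b hE.1 (ε (Pi.single i 1))
  choose β hβ hβA using fun (k : Fin (n 2)) (i : Fin (n 1)) => exists_gm (A 1 k i)
  have hε : ∀ v : Fin (n 1) → (O B).St b, ε v = ∑ i, v i • g i b := by
    intro v
    have h1 : v = ∑ i, v i • (Pi.single i (1 : (O B).St b) : Fin (n 1) → (O B).St b) := by
      funext j
      rw [Finset.sum_apply]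
      simp [Pi.single_apply]
    conv_lhs => rw [h1]
    rw [map_sum]
    refine Finset.sum_congr rfl fun i _ => ?_
    rw [map_smul, hgb]
  refine ⟨g, β, hg, hβ, hβA, gen_near_g E hE g hg ?_, rel_near_g E hE g hg β hβ ?_⟩
  · rw [eq_top_iff]
    intro z _
    obtain ⟨v, rfl⟩ := h.surj z
    rw [hε]
    exact Submodule.sum_mem _ fun i _ => Submodule.smul_mem _ _ (Submodule.subset_span ⟨i, rfl⟩)
  · ext v
    have h1 : v ∈ E.rel g b ↔ ε v = 0 := by
      rw [hε]
      exact Iff.rfl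
    rw [h1, h.ker v, Submodule.mem_span_range_iff_exists_fun]
    refine exists_congr fun u => ?_
    have h2 : u ᵥ* A 1 = ∑ k, u k • fun i => (om (β k i) b : (O B).St b) := by
      funext i
      rw [Finset.sum_apply]
      change ∑ k, u k * A 1 k i = ∑ k, u k * _
      exact Finset.sum_congr rfl fun k _ => by rw [← hβA k i]
    rw [h2]

end Pool.Agent.DQ
end

section

/-! # DQ, module G, task GM7: a torsion free coherent sheaf is locally free outside codimension two -/

set_option autoImplicit false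

open Set Filter Topology Module Matrix

universe u w

namespace Pool.Agent.DQ

variable {B : Type u} [NormedAddCommGroup B] [NormedSpace ℂ B] [FiniteDimensional ℂ B]

omit [FiniteDimensional ℂ B] in
private theorem GM7_mul {f g : B → ℂ} {x : B} (hf : HolAt f x) (hg : HolAt g x) :
    gm (fun y => f y * g y) x = gm f x * gm g x := gm_mul hf hg

omit [FiniteDimensional ℂ B] in
private theorem GM7_sum {ι : Type} (s : Finset ι) {f : ι → B → ℂ} {x : B} (hf : ∀ i, HolAt (f i) x) :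
    gm (fun y => ∑ i ∈ s, f i y) x = ∑ i ∈ s, gm (f i) x := by
  classical
  induction s using Finset.induction_on with
  | empty =>
    simp only [Finset.sum_empty]
    exact gm_zero x
  | insert a s ha ih =>
    simp only [Finset.sum_insert ha]
    rw [← ih]
    exact gm_add (hf a) (HolAt.sum s fun i _ => hf i)

omit [FiniteDimensional ℂ B] in
private theorem GM7_holpow {f : B → ℂ} {x : B} (hf : HolAt f x) (e : ℕ) :
    HolAt (fun y => f y ^ e) x := by
  filter_upwards [hf] with y h1 using h1.pow e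

omit [FiniteDimensional ℂ B] in
private theorem GM7_pow {f : B → ℂ} {x : B} (hf : HolAt f x) (e : ℕ) :
    gm (fun y => f y ^ e) x = gm f x ^ e := by
  induction e with
  | zero =>
    simp only [pow_zero]
    exact gm_one x
  | succ e ih =>
    simp only [pow_succ]
    rw [GM7_mul (GM7_holpow hf e) hf, ih]

set_option backward.isDefEq.respectTransparency false in
/-- **A coherent sheaf with torsion free stalk at `b` is, near `b`, locally free outside a set of codimension `≥ 2`.**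

Proof. `E.St b` is a finite module (`finite_stalk`) over the noetherian ring `(O B).St b`; `exists_isRes` gives a resolution `n`, `A`, `ε`; `exists_presentation` gives `g`, `β` near `b`. `exists_regLoc b` and `IsRes.exists_split` give `J`, `GradeGE J 2`, and for `a ∈ J`: `A 1 * S * A 1 = a ^ e • A 1`. By `exists_gid` `J = gid f b`, `f j` holomorphic
near `b`, `j : Fin m`. For each `j` (with `a = gm (f j) b ∈ J`): `e j`, `S j`; represent the entries of `S j` by functions `S' j i k` holomorphic near `b`. The identity of germs at `b` gives near `b` the identity of numbers `β z * S' j z * β z = (f j z) ^ (e j) • β z` (entrywise `gm_eq_iff`; `gm` of finite sums of products).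
CLAIM: for `y` near `b`: if `f j y ≠ 0` for some `j` then `y ∉ Sing E`. Near `y` put `S z = (f j z) ^ (-e j) * S' j z` (`f j z ≠ 0` near `y`, holomorphic: `DifferentiableAt.inv`); `freeAt_of_split` at `y` (all hypotheses hold at the points near `b`: `eventually_eventually_nhds`, `HolAt.eventually`, `E.ev`). So `y ∈ Sing E → ∀ j, f j y = 0` near `b`:
`GCodim (Sing E) 2 b` with the functions `f j`. -/
theorem gCodim_sing (E : EMod.{u, u, w} (O B)) {b : B} (hE : E.CohAt b)
    (htf : ∀ (a : (O B).St b) (m : E.St b), a ≠ 0 → a • m = 0 → m = 0) : GCodim (Sing E) 2 b := by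
  have hfin := finite_stalk E hE
  have hnoe : IsNoetherianRing ((O B).St b) := instFinOGerm b
  obtain ⟨n, A, ε, hres⟩ := exists_isRes ((O B).St b) (E.St b)
  obtain ⟨g, β, hg, hβ, hβA, hgen, hrel⟩ := exists_presentation E hE hres
  obtain ⟨xs, hxs, -⟩ := exists_regLoc b
  have hloc : IsLocalRing ((O B).St b) := instLocOGerm b
  have hdom : IsDomain ((O B).St b) := instDomOGerm b
  obtain ⟨J, hJ, hsplit⟩ := IsRes.exists_split (R := (O B).St b) (xs := xs) hxs hres htf
  obtain ⟨m, f, hf, hfJ⟩ := exists_gid J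
  refine ⟨m, f, hf, ?_, by rw [hfJ]; exact hJ⟩
  have hkey : ∀ j, ∀ᶠ y in 𝓝 b, f j y ≠ 0 → y ∉ Sing E := by
    intro j
    obtain ⟨e, S, hS⟩ := hsplit (gm (f j) b) (by
      rw [← hfJ]
      exact Ideal.subset_span ⟨j, rfl⟩)
    let SS : Fin (n 1) → Fin (n 2) → OGerm b := fun i k => S i k
    let AA : Fin (n 2) → Fin (n 1) → OGerm b := fun k i => A 1 k i
    have hAA : ∀ k i, gm (β k i) b = AA k i := hβA
    have hSA : ∀ k l, ∑ i', (∑ i, AA k i * SS i i') * AA i' l = gm (f j) b ^ e * AA k l := by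
      intro k l
      have h3 := congrFun (congrFun hS k) l
      rw [Matrix.mul_apply] at h3
      simp only [Matrix.mul_apply] at h3
      exact h3
    choose S' hS' hSe using fun i k => exists_gm (SS i k)
    have hid : ∀ k l, ∀ᶠ z in 𝓝 b, ∑ i', (∑ i, β k i z * S' i i' z) * β i' l z =
        f j z ^ e * β k l z := by
      intro k l
      have h1 : HolAt (fun z => ∑ i', (∑ i, β k i z * S' i i' z) * β i' l z) b :=
        HolAt.sum _ fun i' _ => (HolAt.sum _ fun i _ => (hβ k i).mul (hS' i i')).mul (hβ i' l)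
      have h2 : HolAt (fun z => f j z ^ e * β k l z) b := (GM7_holpow (hf j) e).mul (hβ k l)
      refine (gm_eq_iff h1 h2).1 ?_
      rw [GM7_sum _ fun i' => (HolAt.sum _ fun i _ => (hβ k i).mul (hS' i i')).mul (hβ i' l),
        GM7_mul (GM7_holpow (hf j) e) (hβ k l), GM7_pow (hf j), hAA, ← hSA k l]
      refine Finset.sum_congr rfl fun i' _ => ?_
      rw [GM7_mul (HolAt.sum _ fun i _ => (hβ k i).mul (hS' i i')) (hβ i' l),
        GM7_sum _ fun i => (hβ k i).mul (hS' i i'), hAA]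
      congr 1
      refine Finset.sum_congr rfl fun i _ => ?_
      rw [GM7_mul (hβ k i) (hS' i i'), hSe, hAA]
    have hall : ∀ᶠ z in 𝓝 b, ∀ k l, ∑ i', (∑ i, β k i z * S' i i' z) * β i' l z =
        f j z ^ e * β k l z :=
      eventually_all.2 fun k => eventually_all.2 fun l => hid k l
    have hg' : ∀ᶠ y in 𝓝 b, ∀ i, E.At (g i) y := eventually_all.2 fun i => E.ev (hg i)
    have hβ' : ∀ᶠ y in 𝓝 b, ∀ k i, HolAt (β k i) y :=
      eventually_all.2 fun k => eventually_all.2 fun i => (hβ k i).eventually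
    have hS'' : ∀ᶠ y in 𝓝 b, ∀ i k, HolAt (S' i k) y :=
      eventually_all.2 fun i => eventually_all.2 fun k => (hS' i k).eventually
    filter_upwards [hg', hβ', hS'', (hf j).eventually, eventually_eventually_nhds.2 hgen,
      eventually_eventually_nhds.2 hrel, eventually_eventually_nhds.2 hall] with
      y y1 y2 y3 y4 y5 y6 y7 hne hsing
    have hne' : ∀ᶠ z in 𝓝 y, f j z ≠ 0 := y4.differentiableAt.continuousAt.eventually_ne hne
    refine hsing (freeAt_of_split E g y1 y5 β y2 y6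
      (fun i k z => (f j z ^ e)⁻¹ * S' i k z) (fun i k => ?_) ?_)
    · refine HolAt.mul ?_ (y3 i k)
      filter_upwards [y4, hne'] with z h1 h2
      exact (h1.pow e).inv (pow_ne_zero e h2)
    · filter_upwards [y7, hne'] with z h1 h2
      ext k l
      rw [Matrix.mul_apply, Matrix.of_apply]
      simp only [Matrix.mul_apply, Matrix.of_apply]
      have h3 : ∀ i', (∑ i, β k i z * ((f j z ^ e)⁻¹ * S' i i' z)) * β i' l z =
          (f j z ^ e)⁻¹ * ((∑ i, β k i z * S' i i' z) * β i' l z) := by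
        intro i'
        rw [← mul_assoc, Finset.mul_sum]
        congr 1
        refine Finset.sum_congr rfl fun i _ => ?_
        ring
      simp only [h3]
      rw [← Finset.mul_sum, h1 k l, ← mul_assoc, inv_mul_cancel₀ (pow_ne_zero e h2), one_mul]
  filter_upwards [eventually_all.2 hkey] with y hy hs j
  by_contra hne
  exact hy j hne hs

end Pool.Agent.DQ
end

section

/-! # DQ, module G, task GZ3: choice of the polydisc in the fibre direction -/

set_option autoImplicit false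

open Set Filter Topology Module

universe w

namespace Pool.Agent.DQ

variable {V : Type} [NormedAddCommGroup V] [NormedSpace ℂ V] [FiniteDimensional ℂ V]
  {B : Type} [NormedAddCommGroup B] [NormedSpace ℂ B] [FiniteDimensional ℂ B]
  {W : Type} [NormedAddCommGroup W] [NormedSpace ℂ W] [FiniteDimensional ℂ W]

omit [FiniteDimensional ℂ V] [FiniteDimensional ℂ B] [FiniteDimensional ℂ W] in
private theorem GZ3_tube (e : V ≃L[ℂ] B × W) {b₀ : B} {C : Set W} (hC : IsCompact C) {G : Set V} (hG : IsOpen G)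
    (h : ∀ x, (e x).1 = b₀ → (e x).2 ∈ C → x ∈ G) :
    ∃ ρ > 0, ∀ x, ‖(e x).1 - b₀‖ < ρ → (e x).2 ∈ C → x ∈ G := by
  have hn : IsOpen {q : B × W | e.symm q ∈ G} := hG.preimage e.symm.continuous
  have hp : ({b₀} : Set B) ×ˢ C ⊆ {q : B × W | e.symm q ∈ G} := by
    rintro ⟨b, w⟩ ⟨hb, hw⟩
    have hb' : b = b₀ := hb
    subst hb'
    refine h _ ?_ ?_
    · simp
    · simpa using hw
  obtain ⟨u, v, hu, hv, hbu, hCv, huv⟩ := generalized_tube_lemma isCompact_singleton hC hn hp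
  obtain ⟨ρ, hρ, hball⟩ := Metric.isOpen_iff.mp hu b₀ (hbu rfl)
  refine ⟨ρ, hρ, fun x hx hxC => ?_⟩
  have h1 : e x ∈ u ×ˢ v := ⟨hball (by rw [Metric.mem_ball, dist_eq_norm]; exact hx), hCv hxC⟩
  have h2 := huv h1
  have h3 : e.symm (e x) ∈ G := h2
  rwa [e.symm_apply_apply] at h3

/-- The set of good points is open: `{x ∈ U \ Y | M₀.St x = 0}`. Proof. `supp_open`; `hM` gives `CohAt` at the points of `U \ Y` (`Eventually.self_of_nhds`). -/
theorem good_open {M₀ : EMod.{0, 0, w} (O V)} {Y U : Set V} (hYU : IsOpen (U \ Y)) (hM : M₀.Coh (U \ Y)) :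
    IsOpen {x | x ∈ U \ Y ∧ Subsingleton (M₀.St x)} := by
  rw [isOpen_iff_mem_nhds]
  rintro x ⟨hx, hxs⟩
  filter_upwards [hYU.mem_nhds hx, supp_open M₀ (hM x hx).self_of_nhds hxs] with y h1 h2
  exact ⟨h1, h2⟩

/-- **Choice of `Rv` and of the ball in the base.**

Proof. Write `b₀ = (e y₀).1`, `c = (e y₀).2`, and `F r = {x | (e x).1 = b₀ ∧ ‖(e x).2 - c‖ ≤ r}`, a compact set (`e.symm '' ({b₀} ×ˢ closedBall c r)`, `W` is proper). Choose `r₀ > 0` such that for `x` with `(e x).1 = b₀`, `‖(e x).2 - c‖ < r₀`: `x ∈ U` and (`x ∈ Y → x = y₀`) (`hU`, `hiso`, continuity of `e.symm`).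
The set of values `{‖(e x).2 - c‖ | x ∈ Supp M₀ ∩ {x | (e x).1 = b₀} ∩ (U \ Y)}` is countable (`hcount`), the interval `(0, r₀)` is not (`Set.Countable.. `, `not_countable` / `Cardinal.mk_Ioo_real`, or: a countable set has dense complement, `Set.Countable.dense_compl ℝ`), so there is `Rv ∈ (0, r₀)` which is not a value. So the compact
set `C = {x | (e x).1 = b₀ ∧ ‖(e x).2 - c‖ = Rv}` lies in `U`, does not meet `Y` (a point of `Y` in it would be `y₀`, but `Rv > 0`), nor `Supp M₀`: it lies in the open set `G` of `good_open`. In the product `B × W`: `{b₀} ×ˢ sphere c Rv ⊆ e '' G` (open), `{b₀} ×ˢ closedBall c Rv ⊆ e '' U` (open); by the tube lemma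
(`generalized_tube_lemma`) there is an open `N ∋ b₀` with `N ×ˢ sphere c Rv ⊆ e '' G` and `N ×ˢ closedBall c Rv ⊆ e '' U`; choose `ρ₀` with `ball b₀ ρ₀ ⊆ N`. -/
theorem stage_one {M₀ : EMod.{0, 0, w} (O V)} {Y U : Set V} {y₀ : V} (hU : IsOpen U) (hy₀ : y₀ ∈ U)
    (hYU : IsOpen (U \ Y)) (hM : M₀.Coh (U \ Y)) (e : V ≃L[ℂ] B × W)
    (hcount : (Supp M₀ ∩ {x | (e x).1 = (e y₀).1} ∩ (U \ Y)).Countable)
    (hiso : ∀ᶠ x in 𝓝 y₀, x ∈ Y → (e x).1 = (e y₀).1 → x = y₀) :
    ∃ Rv > 0, ∃ ρ₀ > 0, (∀ x, ‖(e x).1 - (e y₀).1‖ < ρ₀ → ‖(e x).2 - (e y₀).2‖ ≤ Rv → x ∈ U) ∧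
      (∀ x, ‖(e x).1 - (e y₀).1‖ < ρ₀ → ‖(e x).2 - (e y₀).2‖ = Rv → x ∉ Y ∧ Subsingleton (M₀.St x)) ∧
      ∀ x ∈ Y, (e x).1 = (e y₀).1 → ‖(e x).2 - (e y₀).2‖ ≤ Rv → x = y₀ := by
  set b₀ : B := (e y₀).1 with hb₀
  set c : W := (e y₀).2 with hc
  have hP : ∀ᶠ x in 𝓝 y₀, x ∈ U ∧ (x ∈ Y → (e x).1 = b₀ → x = y₀) := by
    filter_upwards [hU.mem_nhds hy₀, hiso] with x h1 h2
    exact ⟨h1, h2⟩
  obtain ⟨r₀, hr₀, hr⟩ : ∃ r₀ > 0, ∀ w : W, ‖w - c‖ < r₀ →
      (e.symm (b₀, w) ∈ U ∧ (e.symm (b₀, w) ∈ Y → (e (e.symm (b₀, w))).1 = b₀ → e.symm (b₀, w) = y₀)) := by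
    have h1 : Tendsto (fun w : W => e.symm (b₀, w)) (𝓝 c) (𝓝 y₀) := by
      have h2 : ContinuousAt (fun w : W => e.symm (b₀, w)) c :=
        (e.symm.continuous.comp (Continuous.prodMk_right b₀)).continuousAt
      have h3 : e.symm (b₀, c) = y₀ := by
        rw [hb₀, hc]
        simp
      have h4 := h2.tendsto
      rwa [h3] at h4
    obtain ⟨r₀, hr₀, h5⟩ := Metric.eventually_nhds_iff_ball.mp (h1.eventually hP)
    refine ⟨r₀, hr₀, fun w hw => h5 w ?_⟩
    rw [Metric.mem_ball, dist_eq_norm]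
    exact hw
  have hloc : ∀ x, (e x).1 = b₀ → ‖(e x).2 - c‖ < r₀ → x ∈ U ∧ (x ∈ Y → x = y₀) := by
    intro x hx1 hx2
    have h1 : e.symm (b₀, (e x).2) = x := by
      rw [← hx1]
      simp
    have h2 := hr _ hx2
    rw [h1] at h2
    exact ⟨h2.1, fun h => h2.2 h hx1⟩
  have hS : ((fun x => ‖(e x).2 - c‖) '' (Supp M₀ ∩ {x | (e x).1 = b₀} ∩ (U \ Y))).Countable :=
    hcount.image _
  obtain ⟨Rv, hRvS, hRv⟩ := (hS.dense_compl ℝ).exists_mem_open isOpen_Ioo
    (nonempty_Ioo.mpr hr₀)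
  obtain ⟨ρ₁, hρ₁, ht1⟩ := GZ3_tube e (b₀ := b₀) (isCompact_sphere c Rv) (good_open hYU hM) (by
    intro x hx1 hx2
    rw [mem_sphere_iff_norm] at hx2
    obtain ⟨h1, h2⟩ := hloc x hx1 (by rw [hx2]; exact hRv.2)
    have hxY : x ∉ Y := by
      intro h3
      have h4 := h2 h3
      rw [h4, ← hc, sub_self, norm_zero] at hx2
      exact absurd hRv.1 (by rw [← hx2]; exact lt_irrefl _)
    refine ⟨⟨h1, hxY⟩, ?_⟩
    by_contra h3
    exact hRvS ⟨x, ⟨⟨h3, hx1⟩, h1, hxY⟩, hx2⟩)
  obtain ⟨ρ₂, hρ₂, ht2⟩ := GZ3_tube e (b₀ := b₀) (isCompact_closedBall c Rv) hU (by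
    intro x hx1 hx2
    rw [mem_closedBall_iff_norm] at hx2
    exact (hloc x hx1 (hx2.trans_lt hRv.2)).1)
  refine ⟨Rv, hRv.1, min ρ₁ ρ₂, lt_min hρ₁ hρ₂, ?_, ?_, ?_⟩
  · intro x h1 h2
    exact ht2 x (h1.trans_le (min_le_right _ _)) (mem_closedBall_iff_norm.mpr h2)
  · intro x h1 h2
    have h3 := ht1 x (h1.trans_le (min_le_left _ _)) (mem_sphere_iff_norm.mpr h2)
    exact ⟨h3.1.2, h3.2⟩
  · intro x hxY h1 h2
    exact (hloc x h1 (h2.trans_lt hRv.2)).2 hxY

/-- **The projection of `Y` is closed.**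

Proof. Let `b` be in the ball and not in the projection. The compact set `{b} ×ˢ closedBall c Rv` is contained in the open set `e '' (U \ Y)`; tube lemma: a neighbourhood `N` of `b` with `N ×ˢ closedBall c Rv ⊆ e '' (U \ Y)`; so `N ∩ ball` is contained in the set. -/
theorem proj_closed {Y U : Set V} (hYU : IsOpen (U \ Y)) (e : V ≃L[ℂ] B × W) {b₀ : B} {c : W} {Rv ρ₀ : ℝ}
    (hsub : ∀ x, ‖(e x).1 - b₀‖ < ρ₀ → ‖(e x).2 - c‖ ≤ Rv → x ∈ U) :
    IsOpen {b | ‖b - b₀‖ < ρ₀ ∧ ∀ x, (e x).1 = b → ‖(e x).2 - c‖ ≤ Rv → x ∉ Y} := by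
  rw [isOpen_iff_mem_nhds]
  rintro b ⟨hb1, hb2⟩
  obtain ⟨ρ, hρ, ht⟩ := GZ3_tube e (b₀ := b) (isCompact_closedBall c Rv) hYU (by
    intro x hx1 hx2
    rw [mem_closedBall_iff_norm] at hx2
    exact ⟨hsub x (by rw [hx1]; exact hb1) hx2, hb2 x hx1 hx2⟩)
  have hcont : Continuous fun b' : B => ‖b' - b₀‖ := (continuous_id.sub continuous_const).norm
  filter_upwards [Metric.ball_mem_nhds b hρ, (isOpen_lt hcont continuous_const).mem_nhds hb1]
    with b' h1 h2
  refine ⟨h2, fun x hx1 hx2 => ?_⟩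
  rw [Metric.mem_ball, dist_eq_norm] at h1
  exact (ht x (by rw [hx1]; exact h1) (mem_closedBall_iff_norm.mpr hx2)).2

/-- **Points of `Y` over points near `b₀` are near `y₀`.**

Proof. Let `G` be an open set with `y₀ ∈ G` and `G ⊆ {x | P x}`. The compact set `{b₀} ×ˢ closedBall c Rv` is contained in the open set `e '' (G ∪ (U \ Y))` (its points in `Y` are `y₀`; all its points are in `U`: `hsub` for the points over `b₀`, `ρ₀ > 0`). Tube lemma. -/
theorem near_y₀ {Y U : Set V} (hYU : IsOpen (U \ Y)) (e : V ≃L[ℂ] B × W) {y₀ : V} {Rv ρ₀ : ℝ} (hρ₀ : 0 < ρ₀)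
    (hsub : ∀ x, ‖(e x).1 - (e y₀).1‖ < ρ₀ → ‖(e x).2 - (e y₀).2‖ ≤ Rv → x ∈ U)
    (hone : ∀ x ∈ Y, (e x).1 = (e y₀).1 → ‖(e x).2 - (e y₀).2‖ ≤ Rv → x = y₀) {P : V → Prop}
    (hP : ∀ᶠ x in 𝓝 y₀, P x) :
    ∃ ρ₁ > 0, ρ₁ ≤ ρ₀ ∧ ∀ x ∈ Y, ‖(e x).1 - (e y₀).1‖ < ρ₁ → ‖(e x).2 - (e y₀).2‖ ≤ Rv → P x := by
  obtain ⟨ρ, hρ, ht⟩ := GZ3_tube e (b₀ := (e y₀).1) (isCompact_closedBall (e y₀).2 Rv)
    (isOpen_interior.union hYU : IsOpen (interior {x | P x} ∪ (U \ Y))) (by
    intro x hx1 hx2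
    rw [mem_closedBall_iff_norm] at hx2
    by_cases hxY : x ∈ Y
    · left
      rw [hone x hxY hx1 hx2]
      exact mem_interior_iff_mem_nhds.mpr hP
    · right
      exact ⟨hsub x (by rw [hx1, sub_self, norm_zero]; exact hρ₀) hx2, hxY⟩)
  refine ⟨min ρ ρ₀, lt_min hρ hρ₀, min_le_right _ _, fun x hxY h1 h2 => ?_⟩
  rcases ht x (h1.trans_le (min_le_left _ _)) (mem_closedBall_iff_norm.mpr h2) with h3 | h3
  · exact interior_subset h3
  · exact absurd hxY h3.2

end Pool.Agent.DQ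
end

section

/-! # DQ, module G, task GZ6: choice of the radii in the base -/

set_option autoImplicit false

open Set Filter Topology Module

universe w

namespace Pool.Agent.DQ

variable {V : Type} [NormedAddCommGroup V] [NormedSpace ℂ V] [FiniteDimensional ℂ V]

/-- **Final choice of radii.** The coordinates `e` are given; `E = M₀.push e (closedBall c Rv)`.

Proof. Write `b₀ = (e y₀).1`, `c = (e y₀).2`. `near_y₀` with `P x := x ∈ Y → (∀ i : Fin k', (e x).1.1 i.castSucc = (e y₀).1.1 i.castSucc) → x = y₀` gives `ρ₁ ≤ ρ₀`. The set `S = {b | ‖b - b₀‖ < ρ₀ ∧ b.1 = b₀.1 ∧ (∀ x, (e x).1 = b → ‖(e x).2 - c‖ ≤ Rv → x ∉ Y) ∧ b ∈ Sing E}` is countable (`hcount`). `exists_radii` gives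
`Rw, Rz < ρ₁` avoiding the values of `S`. Let `G = {b | ‖b - b₀‖ < ρ₁ ∧ (∀ x, (e x).1 = b → ‖(e x).2 - c‖ ≤ Rv → x ∉ Y) ∧ ∃ r, FreeAt E r b}`; open by `proj_closed` (with `ρ₁`) and `FreeAt.near`. Let `b` be as in the hypothesis `h` of `exists_thick`. `‖b - b₀‖ = max 0 (max ‖w‖ ‖z‖) < ρ₁`. If `x ∈ Y`, `(e x).1 = b`, `‖(e x).2 - c‖ ≤ Rv` then, as
`b.1 = b₀.1`, `P x` gives `x = y₀`, `b = b₀`, contradiction to `‖w‖ = Rw > 0` or `‖z‖ = Rz > 0`. So if `b ∉ G` then `b ∈ Sing E`, `b ∈ S`, contradiction to the choice of the radii. `exists_thick` gives `τ < ρ₁`, `rw`, `rz` with `Shl … ⊆ G`. `isPreconnected_shl` and `FreeAt.const` give `rk`. `dir = Pi.single (Fin.last k') 1`.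
The fields of `GoodCoord`: `rad` clear. `sub`: for `x ∈ KK`, `‖(e x).1 - b₀‖ = max (‖t‖) (max ‖w‖ ‖z‖) < ρ₁ ≤ ρ₀`, `hsub`. `Ymiss`: `x ∈ KK ∩ Y`: `(e x).1 ∉ G`, so it is not in the shell, so `‖w‖ < rw` and `‖z‖ < rz`; `‖(e x).2 - c‖ ≠ Rv` by `hbd`. `zero`: `hbd`. `free`: `b ∈ Shl …` . `dir_ne`: the entry at `Fin.last` is `1`. `Ydir`: let
`x ∈ KK ∩ Y`, `(e x).1.1 = t₀ + a • dir`, `a ≠ 0`. The entries `i.castSucc` agree with those of `t₀` (`Pi.single_eq_of_ne`), so `P x` (`ρ₁`) gives `x = y₀`; then `a • dir = 0`, contradiction. -/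
theorem final_radii (d k' : ℕ) {M₀ : EMod.{0, 0, w} (O V)} {Y U : Set V} {y₀ : V} (hYU : IsOpen (U \ Y))
    (e : V ≃L[ℂ] Bs (k' + 1) × (Fin d → ℂ)) {Rv ρ₀ : ℝ} (hRv : 0 < Rv) (hρ₀ : 0 < ρ₀)
    (hsub : ∀ x, ‖(e x).1 - (e y₀).1‖ < ρ₀ → ‖(e x).2 - (e y₀).2‖ ≤ Rv → x ∈ U)
    (hbd : ∀ x, ‖(e x).1 - (e y₀).1‖ < ρ₀ → ‖(e x).2 - (e y₀).2‖ = Rv → x ∉ Y ∧ Subsingleton (M₀.St x))
    (hone : ∀ x ∈ Y, (e x).1 = (e y₀).1 → ‖(e x).2 - (e y₀).2‖ ≤ Rv → x = y₀)
    (hiso : ∀ᶠ x in 𝓝 y₀, x ∈ Y → (∀ i : Fin k', (e x).1.1 i.castSucc = (e y₀).1.1 i.castSucc) → x = y₀)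
    (hcount : {b : Bs (k' + 1) | ‖b - (e y₀).1‖ < ρ₀ ∧ b.1 = (e y₀).1.1 ∧
      (∀ x, (e x).1 = b → ‖(e x).2 - (e y₀).2‖ ≤ Rv → x ∉ Y) ∧
      b ∈ Sing (M₀.push e (Metric.closedBall (e y₀).2 Rv) (isCompact_closedBall _ _))}.Countable) :
    ∃ (τ rw Rw rz Rz : ℝ) (rk : ℕ) (dir : Fin (k' + 1) → ℂ),
      GoodCoord d M₀ Y y₀ U (k' + 1) e τ rw Rw rz Rz Rv rk dir := by
  set E := M₀.push e (Metric.closedBall (e y₀).2 Rv) (isCompact_closedBall _ _) with hE
  obtain ⟨ρ₁, hρ₁, hρ₁₀, hnear⟩ := near_y₀ hYU e hρ₀ hsub hone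
    (P := fun x => x ∈ Y → (∀ i : Fin k', (e x).1.1 i.castSucc = (e y₀).1.1 i.castSucc) → x = y₀) hiso
  obtain ⟨Rw, Rz, hRw, hRw', hRz, hRz', hav⟩ := exists_radii (e y₀).1 hcount hρ₁
  set G : Set (Bs (k' + 1)) := {b | ‖b - (e y₀).1‖ < ρ₁ ∧
    ∀ x, (e x).1 = b → ‖(e x).2 - (e y₀).2‖ ≤ Rv → x ∉ Y} ∩ {b | ∃ r, FreeAt E r b} with hG
  have hGo : IsOpen G := by
    refine (proj_closed hYU e (ρ₀ := ρ₁) fun x h1 h2 => hsub x (h1.trans_le hρ₁₀) h2).inter ?_
    rw [isOpen_iff_eventually]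
    rintro b ⟨r, hr⟩
    exact hr.near.mono fun b' h' => ⟨r, h'⟩
  have hnorm : ∀ b : Bs (k' + 1), ‖b.1 - (e y₀).1.1‖ < ρ₁ → ‖b.2.1 - (e y₀).1.2.1‖ ≤ Rw →
      ‖b.2.2 - (e y₀).1.2.2‖ ≤ Rz → ‖b - (e y₀).1‖ < ρ₁ := by
    intro b h1 h2 h3
    rw [Prod.norm_def, Prod.norm_def]
    exact max_lt h1 (max_lt (lt_of_le_of_lt h2 hRw') (lt_of_le_of_lt h3 hRz'))
  obtain ⟨τ, rw, rz, hτ, hτ', hrw, hrw', hrz, hrz', hShl⟩ := exists_thick (e y₀).1 hRw hRz hGo (by
    intro b h1 h2 h3 h4
    have hn : ‖b - (e y₀).1‖ < ρ₁ := hnorm b (by rw [h1, sub_self, norm_zero]; exact hρ₁) h2 h3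
    have hmiss : ∀ x, (e x).1 = b → ‖(e x).2 - (e y₀).2‖ ≤ Rv → x ∉ Y := by
      intro x hx h5 hY
      have h6 : x = y₀ := hnear x hY (by rw [hx]; exact hn) h5 hY (fun i => by rw [hx, h1])
      rw [h6] at hx
      rw [← hx, sub_self, norm_zero, sub_self, norm_zero] at h4
      rcases h4 with h4 | h4
      · exact hRw.ne h4
      · exact hRz.ne h4
    refine ⟨⟨hn, hmiss⟩, ?_⟩
    by_contra hns
    have h5 := hav b ⟨hn.trans_le hρ₁₀, h1, hmiss, hns⟩
    rcases h4 with h4 | h4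
    · exact h5.1 h4
    · exact h5.2 h4) hρ₁
  obtain ⟨rk, hrk⟩ := FreeAt.const (E := E) (isPreconnected_shl (e y₀).1 hτ hrw hrw' hrz hrz')
    fun b hb => (hShl hb).2
  have hKn : ∀ x ∈ KK e y₀ τ Rw Rz Rv, ‖(e x).1 - (e y₀).1‖ < ρ₁ := by
    rintro x ⟨g1, g2, g3, _⟩
    exact hnorm _ (lt_of_le_of_lt g1 hτ') g2 g3
  refine ⟨τ, rw, Rw, rz, Rz, rk, Pi.single (Fin.last k') 1, ?_⟩
  refine ⟨⟨hτ, hrw, hrw', hrz, hrz', hRv⟩, ?_, ?_, ?_, ?_, ?_, ?_⟩
  · intro x hx
    exact hsub x ((hKn x hx).trans_le hρ₁₀) hx.2.2.2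
  · intro x hx hY
    have hns : ¬ (rw ≤ ‖(e x).1.2.1 - (e y₀).1.2.1‖ ∨ rz ≤ ‖(e x).1.2.2 - (e y₀).1.2.2‖) := by
      intro h1
      have h2 : (e x).1 ∈ G := hShl ⟨hx.1, hx.2.1, hx.2.2.1, h1⟩
      exact h2.1.2 x rfl hx.2.2.2 hY
    push Not at hns
    refine ⟨hns.1, hns.2, lt_of_le_of_ne hx.2.2.2 fun h1 => ?_⟩
    exact (hbd x ((hKn x hx).trans_le hρ₁₀) h1).1 hY
  · intro x hx h1
    exact (hbd x ((hKn x hx).trans_le hρ₁₀) h1).2
  · intro b h1 h2 h3 h4
    exact hrk b ⟨h1, h2, h3, h4⟩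
  · intro h
    have h1 := congrFun h (Fin.last k')
    rw [Pi.single_eq_same] at h1
    exact one_ne_zero h1
  · intro x hx a ha ha0 hY
    have h6 : x = y₀ := hnear x hY (hKn x hx) hx.2.2.2 hY (fun i => by
      rw [ha, Pi.add_apply, Pi.smul_apply, Pi.single_eq_of_ne (Fin.castSucc_lt_last i).ne, smul_zero,
        add_zero])
    rw [h6] at ha
    have h7 := congrFun ha (Fin.last k')
    rw [Pi.add_apply, Pi.smul_apply, Pi.single_eq_same, smul_eq_mul, mul_one] at h7
    exact ha0 (by simpa using h7)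

end Pool.Agent.DQ
end
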