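import Pool.Agent.Lib.MP_4aa2a9_ag.Mg.G016
import Pool.Agent.Lib.MP_4aa2a9_ag.Mg.G015
import Pool.Agent.Lib.MP_4aa2a9_ag.Mg.G021
import Pool.Agent.Lib.MP_4aa2a9_ag.Mg.G040
import Pool.Agent.Lib.MP_4aa2a9_ag.Mg.G043
import Pool.Agent.Lib.MP_4aa2a9_ag.Mg.G044

section

/-! Module M12: frames of the direct image over the two parts of the shell, their transition
matrix, and the extension theorem. -/

set_option autoImplicit false
set_option linter.unusedSectionVars false

open Set Filter Topology Matrix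

universe u v w

namespace Pool.Agent.DQ.M12

variable {V : Type} [NormedAddCommGroup V] [NormedSpace ℂ V] [FiniteDimensional ℂ V] {k d : ℕ}
  {M₀ : EMod.{0, 0, w} (O V)} {Y U : Set V} {y₀ : V} {e : V ≃L[ℂ] Bs k × (Fin d → ℂ)}
  {τ rw' Rw rz Rz Rv : ℝ} {rk : ℕ} {dir : Fin k → ℂ}

/-- the direct image of `M₀` -/
noncomputable abbrev pE (M₀ : EMod.{0, 0, w} (O V)) (e : V ≃L[ℂ] Bs k × (Fin d → ℂ)) (y₀ : V)
    (Rv : ℝ) : EMod.{0, 0, w} (O (Bs k)) :=
  M₀.push e (Metric.closedBall (e y₀).2 Rv) (isCompact_closedBall _ _)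

theorem mem_crg {b₀ b : Bs k} {t₀ : Fin k → ℂ} {τ a b₁ a' b₁' : ℝ} :
    b ∈ rg b₀ (Metric.closedBall t₀ τ) (cring 0 a b₁) (cring 0 a' b₁') ↔ ‖b.1 - t₀‖ ≤ τ ∧
      (a ≤ ‖b.2.1 - b₀.2.1‖ ∧ ‖b.2.1 - b₀.2.1‖ ≤ b₁) ∧
      (a' ≤ ‖b.2.2 - b₀.2.2‖ ∧ ‖b.2.2 - b₀.2.2‖ ≤ b₁') := by
  unfold rg cring
  simp only [mem_ofPred_eq, mem_closedBall_iff_norm, sub_zero]

/-- frames near the closed parts of the shell -/
theorem exists_frames (h : GoodCoord d M₀ Y y₀ U k e τ rw' Rw rz Rz Rv rk dir) :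
    ∃ f f' : Fin rk → (b : Bs k) → (pE M₀ e y₀ Rv).St b,
      IsFrame (pE M₀ e y₀ Rv) f (rg (e y₀).1 (Metric.closedBall (e y₀).1.1 τ)
        (cring 0 (-1) Rw) (cring 0 rz Rz)) ∧
      IsFrame (pE M₀ e y₀ Rv) f' (rg (e y₀).1 (Metric.closedBall (e y₀).1.1 τ)
        (cring 0 rw' Rw) (cring 0 (-1) Rz)) := by
  obtain ⟨hτ, h1, h2, h3, h4, h5⟩ := h.rad
  have key1 : ∀ b ∈ rg (e y₀).1 (Metric.closedBall (e y₀).1.1 τ)
      (cring 0 (-1) Rw) (cring 0 rz Rz), FreeAt (pE M₀ e y₀ Rv) rk b := by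
    intro b hb
    obtain ⟨hb1, hb2, hb3⟩ := mem_crg.mp hb
    exact h.free b hb1 hb2.2 hb3.2 (Or.inr hb3.1)
  have key2 : ∀ b ∈ rg (e y₀).1 (Metric.closedBall (e y₀).1.1 τ)
      (cring 0 rw' Rw) (cring 0 (-1) Rz), FreeAt (pE M₀ e y₀ Rv) rk b := by
    intro b hb
    obtain ⟨hb1, hb2, hb3⟩ := mem_crg.mp hb
    exact h.free b hb1 hb2.2 hb3.2 (Or.inl hb2.1)
  rw [crg_eq _ hτ.le] at key1 key2 ⊢
  rw [crg_eq _ hτ.le]
  obtain ⟨f, hf⟩ := exists_frame (kb (ContinuousLinearEquiv.refl ℂ (Fin k → ℂ)))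
    (vb (e y₀).1.1 (e y₀).1.2.1 (e y₀).1.2.2) (vb (fun _ => -1) (-1) rz) (vb (fun _ => τ) Rw Rz)
    (Fin.natAdd k 1) (by simpa using h3) (by simpa using h4.le) (by
      rw [forall_ib]
      simp only [vb_T, vb_W, vb_Z]
      refine ⟨fun _ _ => by norm_num, fun _ => by norm_num, fun h => (h rfl).elim⟩) (by
      rw [forall_ib]
      simp only [vb_T, vb_W, vb_Z]
      exact ⟨fun _ => hτ.le, by linarith, by linarith⟩) (pE M₀ e y₀ Rv) key1
  obtain ⟨f', hf'⟩ := exists_frame (kb (ContinuousLinearEquiv.refl ℂ (Fin k → ℂ)))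
    (vb (e y₀).1.1 (e y₀).1.2.1 (e y₀).1.2.2) (vb (fun _ => -1) rw' (-1)) (vb (fun _ => τ) Rw Rz)
    (Fin.natAdd k 0) (by simpa using h1) (by simpa using h2.le) (by
      rw [forall_ib]
      simp only [vb_T, vb_W, vb_Z]
      refine ⟨fun _ _ => by norm_num, fun h => (h rfl).elim, fun _ => by norm_num⟩) (by
      rw [forall_ib]
      simp only [vb_T, vb_W, vb_Z]
      exact ⟨fun _ => hτ.le, by linarith, by linarith⟩) (pE M₀ e y₀ Rv) key2
  exact ⟨f, f', hf, hf'⟩

/-- uncentred to centred coordinates -/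
def un (w₀ z₀ : ℂ) (b : Bs k) : (Fin k → ℂ) × ℂ × ℂ := (b.1, b.2.1 - w₀, b.2.2 - z₀)

theorem holAt_un {F : (Fin k → ℂ) × ℂ × ℂ → ℂ} {w₀ z₀ : ℂ} {b : Bs k}
    (h : HolAt F (un w₀ z₀ b)) : HolAt (fun b => F (un w₀ z₀ b)) b := by
  refine HolAt.comp (g := un w₀ z₀) h (Eventually.of_forall fun y => ?_)
  unfold un
  fun_prop

theorem mem_un {w₀ z₀ : ℂ} {T : Set (Fin k → ℂ)} {a b a' b' : ℝ} {x : Bs k} :
    un w₀ z₀ x ∈ T ×ˢ ring 0 a b ×ˢ ring 0 a' b' ↔ x ∈ T ×ˢ ring w₀ a b ×ˢ ring z₀ a' b' := by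
  simp [un, ring]

theorem mHol_un {w₀ z₀ : ℂ} {p q : ℕ} {F : (Fin k → ℂ) × ℂ × ℂ → Matrix (Fin p) (Fin q) ℂ}
    {T : Set (Fin k → ℂ)} {a b a' b' : ℝ} (h : MHol F (T ×ˢ ring 0 a b ×ˢ ring 0 a' b')) :
    MHol (fun x => F (un w₀ z₀ x)) (T ×ˢ ring w₀ a b ×ˢ ring z₀ a' b') :=
  fun i j x hx => holAt_un (F := fun y => F y i j) (h i j _ (mem_un.mpr hx))

/-- a point of the closed product over a point of the shell is not in `Y` -/
theorem not_mem_Y (h : GoodCoord d M₀ Y y₀ U k e τ rw' Rw rz Rz Rv rk dir) {b : Bs k}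
    (h1 : ‖b.1 - (e y₀).1.1‖ ≤ τ) (h2 : ‖b.2.1 - (e y₀).1.2.1‖ ≤ Rw)
    (h3 : ‖b.2.2 - (e y₀).1.2.2‖ ≤ Rz)
    (h4 : rw' ≤ ‖b.2.1 - (e y₀).1.2.1‖ ∨ rz ≤ ‖b.2.2 - (e y₀).1.2.2‖) {x : V}
    (hx : x ∈ fib e (Metric.closedBall (e y₀).2 Rv) b) :
    x ∈ KK e y₀ τ Rw Rz Rv ∧ x ∉ Y := by
  obtain ⟨hb, hv⟩ := hx
  rw [mem_closedBall_iff_norm] at hv
  have hK : x ∈ KK e y₀ τ Rw Rz Rv := ⟨by rw [hb]; exact h1, by rw [hb]; exact h2,
    by rw [hb]; exact h3, hv⟩
  refine ⟨hK, fun hY => ?_⟩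
  obtain ⟨h5, h6, -⟩ := h.Ymiss x hK hY
  rw [hb] at h5 h6
  rcases h4 with h4 | h4
  · exact absurd h5 (not_lt.mpr h4)
  · exact absurd h6 (not_lt.mpr h4)

/-- conversion of frames -/
theorem IsFrame.toB {B : Type u} [NormedAddCommGroup B] [NormedSpace ℂ B]
    {E : EMod.{u, u, w} (O B)} {n : ℕ} {f : Fin n → (x : B) → E.St x} {S : Set B}
    (h : IsFrame E f S) : M12b.IsFrame E f S :=
  M12b.isFrame_of_existsUnique (fun i b hb => h.at hb i) fun b hb m =>
    (h b hb).2.self_of_nhds m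

theorem exists_sf_sx (hYc : IsOpen (U \ Y)) (hcoh : M₀.Coh (U \ Y))
    (h : GoodCoord d M₀ Y y₀ U k e τ rw' Rw rz Rz Rv rk dir) :
    ∃ (ρ : Rd) (δ : ℝ) (f f' : Fin rk → (x : V) → M₀.St x)
      (g : Bs k → Matrix (Fin rk) (Fin rk) ℂ) (U : Bs k → Matrix (Fin rk) (Fin (2 * rk)) ℂ)
      (L₁ : Bs k → Matrix (Fin (2 * rk)) (Fin rk) ℂ)
      (V' : Bs k → Matrix (Fin rk) (Fin (2 * rk)) ℂ)
      (L₂ : Bs k → Matrix (Fin (2 * rk)) (Fin rk) ℂ)
      (P : Bs k → Matrix (Fin (2 * rk)) (Fin (2 * rk)) ℂ),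
      0 < δ ∧ δ ≤ τ ∧ rw' < ρ.rw ∧ ρ.Rw < Rw ∧ rz < ρ.rz ∧ ρ.Rz < Rz ∧
      SF M₀ e (e y₀) Rv (Metric.ball (e y₀).1.1 δ) ρ f f' g ∧
      SX (e y₀).1 (Metric.ball (e y₀).1.1 δ) ρ g U L₁ V' L₂ P := by
  obtain ⟨hτ, h1, h2, h3, h4, h5⟩ := h.rad
  obtain ⟨F, F', hF, hF'⟩ := exists_frames h
  -- the transition matrix
  have hF12 := hF.mono (S' := rg (e y₀).1 (Metric.closedBall (e y₀).1.1 τ)
    (cring 0 rw' Rw) (cring 0 rz Rz)) (rg_mono le_rfl (fun z hz => ⟨by linarith [norm_nonneg (z - 0)], hz.2⟩) le_rfl)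
  have hF12' := hF'.mono (S' := rg (e y₀).1 (Metric.closedBall (e y₀).1.1 τ)
    (cring 0 rw' Rw) (cring 0 rz Rz)) (rg_mono le_rfl le_rfl (fun z hz => ⟨by linarith [norm_nonneg (z - 0)], hz.2⟩))
  obtain ⟨g, hg, hdet, hgf⟩ := hF12.trans hF12'
  set w₀ := (e y₀).1.2.1 with hw₀
  set z₀ := (e y₀).1.2.2 with hz₀
  set t₀ := (e y₀).1.1 with ht₀
  -- open products are contained in the closed regions
  have hsub : ∀ {T : Set (Fin k → ℂ)} {a b a' b' : ℝ}, T ⊆ Metric.closedBall t₀ τ →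
      T ×ˢ ring w₀ a b ×ˢ ring z₀ a' b' ⊆ rg (e y₀).1 (Metric.closedBall t₀ τ) (cring 0 a b)
        (cring 0 a' b') := by
    rintro T a b a' b' hT x ⟨hx1, hx2, hx3⟩
    exact ⟨hT hx1, ⟨by simpa using hx2.1.le, by simpa using hx2.2.le⟩,
      ⟨by simpa using hx3.1.le, by simpa using hx3.2.le⟩⟩
  have hT₁ : Metric.ball t₀ τ ∈ 𝓝 t₀ := Metric.ball_mem_nhds _ hτ
  have hT₁' : Metric.ball t₀ τ ⊆ Metric.closedBall t₀ τ := Metric.ball_subset_closedBall
  have hgen := M12b.hgen h hYc hcoh hT₁ (hF.mono (hsub hT₁')).toB (hF'.mono (hsub hT₁')).toB g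
    (MHol.mono hg (hsub hT₁')) (fun x hx => hdet x (hsub hT₁' hx))
    (fun x hx j => hgf x (hsub hT₁' hx) j)
  have e1 : ∀ b : Bs k, M12b.sh (un w₀ z₀ b).1 w₀ z₀ (un w₀ z₀ b).2 = b := by
    intro b
    unfold M12b.sh un
    ext <;> simp
  have hsh : ∀ {T : Set (Fin k → ℂ)} {a b a' b' : ℝ} {x : (Fin k → ℂ) × ℂ × ℂ},
      x ∈ T ×ˢ ring 0 a b ×ˢ ring 0 a' b' →
      M12b.sh x.1 w₀ z₀ x.2 ∈ T ×ˢ ring w₀ a b ×ˢ ring z₀ a' b' := by
    rintro T a b a' b' x ⟨hx1, hx2, hx3⟩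
    exact ⟨hx1, M12b.ring_shift.mpr hx2, M12b.ring_shift.mpr hx3⟩
  obtain ⟨jw, jw', jz, jz', T₀, U, L₁, V', L₂, P, i1, i2, i3, i4, i5, i6, hT₀, hmT₀, hT₀₁, hV', hL₂,
    hVL, hU, hL₁, hUL, hUV, hP, hP₁, hP₂⟩ := extension t₀ (Metric.ball t₀ τ) hT₁ h1 h2 h3 h4
    (fun x : (Fin k → ℂ) × ℂ × ℂ => g (M12b.sh x.1 w₀ z₀ x.2))
    (fun i j x hx => by
      have h6 : HolAt (fun y => g y i j) (M12b.sh x.1 w₀ z₀ x.2) :=
        hg i j _ (hsub hT₁' (hsh hx))
      refine HolAt.comp (f := fun y => g y i j) (g := fun x : (Fin k → ℂ) × ℂ × ℂ => M12b.sh x.1 w₀ z₀ x.2) h6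
        (Eventually.of_forall fun y => ?_)
      unfold M12b.sh
      fun_prop)
    (fun x hx => hdet _ (hsub hT₁' (hsh hx))) hgen rw' Rw rz Rz le_rfl h2 le_rfl le_rfl h4 le_rfl
  obtain ⟨δ, hδ, hδT⟩ := Metric.isOpen_iff.mp hT₀ t₀ hmT₀
  let ρ : Rd := ⟨jw, jw', jz, jz', h1.trans i1, i2, h3.trans i4, i5⟩
  have hball : Metric.ball t₀ (min δ τ) ⊆ T₀ := (Metric.ball_subset_ball (min_le_left _ _)).trans hδT
  have hb2 : ∀ {b : Bs k}, b ∈ B2 (e y₀).1 ρ (Metric.ball t₀ (min δ τ)) →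
      b ∈ T₀ ×ˢ ring w₀ (-1) jw' ×ˢ ring z₀ jz jz' := fun hb =>
    ⟨hball hb.1, by simpa [ring] using hb.2.1, by simpa [ring] using hb.2.2⟩
  have hb1 : ∀ {b : Bs k}, b ∈ B1 (e y₀).1 ρ (Metric.ball t₀ (min δ τ)) →
      b ∈ T₀ ×ˢ ring w₀ jw jw' ×ˢ ring z₀ (-1) jz' := fun hb =>
    ⟨hball hb.1, by simpa [ring] using hb.2.1, by simpa [ring] using hb.2.2⟩
  have hb12 : ∀ {b : Bs k}, b ∈ B12 (e y₀).1 ρ (Metric.ball t₀ (min δ τ)) →
      b ∈ T₀ ×ˢ ring w₀ jw jw' ×ˢ ring z₀ jz jz' := fun hb =>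
    ⟨hball hb.1, by simpa [ring] using hb.2.1, by simpa [ring] using hb.2.2⟩
  have hb0 : ∀ {b : Bs k}, b ∈ B0 (e y₀).1 ρ (Metric.ball t₀ (min δ τ)) →
      b ∈ T₀ ×ˢ ring w₀ (-1) jw' ×ˢ ring z₀ (-1) jz' := fun hb =>
    ⟨hball hb.1, by simpa [ring] using hb.2.1, by simpa [ring] using hb.2.2⟩
  -- bounds
  have hmin : Metric.ball t₀ (min δ τ) ⊆ Metric.closedBall t₀ τ :=
    (Metric.ball_subset_ball (min_le_right _ _)).trans hT₁'
  have hc2 : B2 (e y₀).1 ρ (Metric.ball t₀ (min δ τ)) ⊆ rg (e y₀).1 (Metric.closedBall t₀ τ)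
      (cring 0 (-1) Rw) (cring 0 rz Rz) := rg_mono hmin
    (fun z hz => ⟨hz.1.le, (hz.2.trans i3).le⟩) (fun z hz => ⟨(i4.trans hz.1).le, (hz.2.trans i6).le⟩)
  have hc1 : B1 (e y₀).1 ρ (Metric.ball t₀ (min δ τ)) ⊆ rg (e y₀).1 (Metric.closedBall t₀ τ)
      (cring 0 rw' Rw) (cring 0 (-1) Rz) := rg_mono hmin
    (fun z hz => ⟨(i1.trans hz.1).le, (hz.2.trans i3).le⟩) (fun z hz => ⟨hz.1.le, (hz.2.trans i6).le⟩)
  have hc12 : B12 (e y₀).1 ρ (Metric.ball t₀ (min δ τ)) ⊆ rg (e y₀).1 (Metric.closedBall t₀ τ)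
      (cring 0 rw' Rw) (cring 0 rz Rz) := rg_mono hmin
    (fun z hz => ⟨(i1.trans hz.1).le, (hz.2.trans i3).le⟩)
    (fun z hz => ⟨(i4.trans hz.1).le, (hz.2.trans i6).le⟩)
  have hcY : ∀ b ∈ B1 (e y₀).1 ρ (Metric.ball t₀ (min δ τ)) ∪
      B2 (e y₀).1 ρ (Metric.ball t₀ (min δ τ)), ∀ x ∈ fib e (Metric.closedBall (e y₀).2 Rv) b,
      x ∈ KK e y₀ τ Rw Rz Rv ∧ x ∉ Y := by
    rintro b (hb | hb) x hx
    · obtain ⟨k1, k2, k3⟩ := mem_crg.mp (hc1 hb)
      exact not_mem_Y h k1 k2.2 k3.2 (Or.inl k2.1) hx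
    · obtain ⟨k1, k2, k3⟩ := mem_crg.mp (hc2 hb)
      exact not_mem_Y h k1 k2.2 k3.2 (Or.inr k3.1) hx
  have ho1 : IsOpen (B1 (e y₀).1 ρ (Metric.ball t₀ (min δ τ))) := isOpen_B1 Metric.isOpen_ball
  have ho2 : IsOpen (B2 (e y₀).1 ρ (Metric.ball t₀ (min δ τ))) := isOpen_B2 Metric.isOpen_ball
  obtain ⟨f, hf, hfF⟩ := fr_of_isFrame (M₀ := M₀) (e := e) (Metric.closedBall (e y₀).2 Rv)
    (isCompact_closedBall _ _) ho2 F (hF.mono hc2)
  obtain ⟨f', hf', hfF'⟩ := fr_of_isFrame (M₀ := M₀) (e := e) (Metric.closedBall (e y₀).2 Rv)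
    (isCompact_closedBall _ _) ho1 F' (hF'.mono hc1)
  refine ⟨ρ, min δ τ, f, f', g, fun b => U (un w₀ z₀ b), fun b => L₁ (un w₀ z₀ b),
    fun b => V' (un w₀ z₀ b), fun b => L₂ (un w₀ z₀ b), fun b => P (un w₀ z₀ b),
    lt_min hδ hτ, min_le_right _ _, i1, i3, i4, i6, ?_, ?_⟩
  · exact
    { Rv_pos := h5
      T_open := Metric.isOpen_ball
      coh := fun b hb x hx => hcoh x ⟨h.sub (hcY b hb x hx).1, (hcY b hb x hx).2⟩
      bd := fun b hb x hx hv => h.zero x (hcY b hb x hx).1 hv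
      fr2 := hf
      fr1 := hf'
      g_hol := MHol.mono hg hc12
      g_det := fun b hb => hdet b (hc12 hb)
      trans := by
        intro b hb x hx j
        have k1 := hgf b (hc12 hb) j
        rw [← hfF' j b (B12_sub_B1 _ _ _ hb) x hx, k1, EMod.pushVal_sum]
        unfold comb
        refine Finset.sum_congr rfl fun i _ => ?_
        rw [← hfF i b (B12_sub_B2 _ _ _ hb) x hx]
        exact EMod.pushVal_smul_om M₀ e _ _ b (hg i j b (hc12 hb)) _ x hx }
  · refine
    { U_hol := MHol.mono (mHol_un hU) fun b hb => hb2 hb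
      L₁_hol := MHol.mono (mHol_un hL₁) fun b hb => hb2 hb
      V_hol := MHol.mono (mHol_un hV') fun b hb => hb1 hb
      L₂_hol := MHol.mono (mHol_un hL₂) fun b hb => hb1 hb
      P_hol := MHol.mono (mHol_un hP) fun b hb => hb0 hb
      U_surj := fun b hb => (hUL _ (mem_un.mpr (hb2 hb))).1
      L₁_inj := fun b hb => (hUL _ (mem_un.mpr (hb2 hb))).2
      V_surj := fun b hb => (hVL _ (mem_un.mpr (hb1 hb))).1
      L₂_inj := fun b hb => (hVL _ (mem_un.mpr (hb1 hb))).2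
      UgV := fun b hb => by
        have := (hUV _ (mem_un.mpr (hb12 hb))).1
        rwa [e1] at this
      L₂g := fun b hb => by
        have := (hUV _ (mem_un.mpr (hb12 hb))).2
        rwa [e1] at this
      P₂ := fun b hb => hP₁ _ (mem_un.mpr (hb2 hb))
      P₁ := fun b hb => hP₂ _ (mem_un.mpr (hb1 hb)) }

end Pool.Agent.DQ.M12
end

section

/-! Campaign DQ, module S: monic equations for the fibre coordinates. -/

set_option autoImplicit false

open Set Filter Topology Metric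

universe u v w

namespace Pool.Agent.DQ

theorem HolAt.pow' {E : Type u} [NormedAddCommGroup E] [NormedSpace ℂ E] {f : E → ℂ} {x : E}
    (hf : HolAt f x) (k : ℕ) : HolAt (fun y => f y ^ k) x := by
  filter_upwards [hf] with y hy using hy.pow k

section Basic

variable {V : Type u} [NormedAddCommGroup V] [NormedSpace ℂ V]
  {V' : Type u} [NormedAddCommGroup V'] [NormedSpace ℂ V']
  {W : Type v} [NormedAddCommGroup W] [NormedSpace ℂ W]

theorem om_mul {f g : V → ℂ} {x : V} (hf : HolAt f x) (hg : HolAt g x) :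
    om (fun y => f y * g y) x = om f x * om g x := gm_mul hf hg

theorem om_add {f g : V → ℂ} {x : V} (hf : HolAt f x) (hg : HolAt g x) :
    om (fun y => f y + g y) x = om f x + om g x := gm_add hf hg

theorem om_one (x : V) : om (fun _ => (1 : ℂ)) x = 1 := gm_one x

theorem om_zero (x : V) : om (fun _ => (0 : ℂ)) x = 0 := gm_zero x

theorem om_pow {f : V → ℂ} {x : V} (hf : HolAt f x) (k : ℕ) :
    om (fun y => f y ^ k) x = om f x ^ k := by
  induction k with
  | zero => simpa using om_one x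
  | succ k ih =>
    rw [pow_succ, ← ih, ← om_mul (hf.pow' k) hf]
    simp only [pow_succ]

theorem om_sum {ι : Type*} (s : Finset ι) {f : ι → V → ℂ} {x : V}
    (hf : ∀ i ∈ s, HolAt (f i) x) : om (fun y => ∑ i ∈ s, f i y) x = ∑ i ∈ s, om (f i) x := by
  classical
  induction s using Finset.induction_on with
  | empty => simpa using om_zero x
  | insert a s ha ih =>
    simp only [Finset.sum_insert ha]
    rw [om_add (hf a (Finset.mem_insert_self _ _))
      (HolAt.sum s fun i hi => hf i (Finset.mem_insert_of_mem hi)),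
      ih fun i hi => hf i (Finset.mem_insert_of_mem hi)]

theorem om_congr {f g : V → ℂ} {x : V} (hf : HolAt f x) (h : f =ᶠ[𝓝 x] g) : om f x = om g x :=
  (gm_eq_iff hf (hf.congr h)).2 h

theorem val_om {f : V → ℂ} {x : V} (hf : HolAt f x) : val (gm f x : OGerm x) = f x := by
  unfold val
  rw [gm_coe hf]
  rfl

theorem isUnit_om {f : V → ℂ} {x : V} (hf : HolAt f x) (h : f x ≠ 0) : IsUnit (om f x) := by
  have h1 : IsUnit (gm f x : OGerm x) := (OGerm.isUnit_iff _).2 (by rw [val_om hf]; exact h)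
  exact h1

/-- the fibre coordinate is holomorphic -/
theorem holAt_fibc (e : V ≃L[ℂ] V' × W) {k : ℕ} (κ : W ≃L[ℂ] (Fin k → ℂ)) (i : Fin k) (x : V) :
    HolAt (fun y => κ (e y).2 i) x := by
  refine Eventually.of_forall fun y => ?_
  exact (((ContinuousLinearMap.proj i : (Fin k → ℂ) →L[ℂ] ℂ).comp (κ : W →L[ℂ] (Fin k → ℂ))).comp
    ((ContinuousLinearMap.snd ℂ V' W).comp (e : V →L[ℂ] V' × W))).differentiableAt

theorem holAt_mon (e : V ≃L[ℂ] V' × W) {k : ℕ} (κ : W ≃L[ℂ] (Fin k → ℂ)) (i : Fin k) {x : V}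
    {t : V'} (hx : (e x).1 = t) {l : ℕ} {a : Fin l → V' → ℂ} (ha : ∀ j, HolAt (a j) t) :
    HolAt (fun y => mon a (e y).1 (κ (e y).2 i)) x := by
  unfold mon
  exact ((holAt_fibc e κ i x).pow' l).add (HolAt.sum _ fun j _ =>
    ((ha j).comp_fst e hx).mul ((holAt_fibc e κ i x).pow' j))

theorem om_mon (e : V ≃L[ℂ] V' × W) {k : ℕ} (κ : W ≃L[ℂ] (Fin k → ℂ)) (i : Fin k) {x : V}
    {t : V'} (hx : (e x).1 = t) {l : ℕ} {a : Fin l → V' → ℂ} (ha : ∀ j, HolAt (a j) t) :
    om (fun y => mon a (e y).1 (κ (e y).2 i)) x =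
      om (fun y => κ (e y).2 i) x ^ l + ∑ j, om (fun y => a j (e y).1) x *
        om (fun y => κ (e y).2 i) x ^ (j : ℕ) := by
  unfold mon
  rw [om_add ((holAt_fibc e κ i x).pow' l) (HolAt.sum _ fun j _ =>
    ((ha j).comp_fst e hx).mul ((holAt_fibc e κ i x).pow' j)), om_pow (holAt_fibc e κ i x),
    om_sum _ fun j _ => ((ha j).comp_fst e hx).mul ((holAt_fibc e κ i x).pow' j)]
  congr 1
  refine Finset.sum_congr rfl fun j _ => ?_
  rw [om_mul ((ha j).comp_fst e hx) ((holAt_fibc e κ i x).pow' j), om_pow (holAt_fibc e κ i x)]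

/-- the fibre over a point is compact -/
theorem isCompact_fib (e : V ≃L[ℂ] V' × W) {D : Set W} (hD : IsCompact D) (t : V') :
    IsCompact (fib e D t) := by
  have h1 : IsCompact ({t} ×ˢ D) := isCompact_singleton.prod hD
  have h2 := h1.image e.symm.continuous
  convert h2 using 1
  ext x
  constructor
  · rintro ⟨hx, hxD⟩
    exact ⟨e x, ⟨hx, hxD⟩, e.symm_apply_apply x⟩
  · rintro ⟨z, ⟨hz, hzD⟩, rfl⟩
    constructor
    · simpa using hz
    · simpa using hzD

variable (F : EMod.{u, u, w} (O V)) (e : V ≃L[ℂ] V' × W) (D : Set W) (hD : IsCompact D)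
  {k : ℕ} (κ : W ≃L[ℂ] (Fin k → ℂ)) (i : Fin k)

/-- multiplication by the fibre coordinate on the direct image -/
noncomputable def mulC (t : V') : (F.push e D hD).St t →ₗ[(O V').St t] (F.push e D hD).St t where
  toFun m := (⟨fun x => om (fun y => κ (e y).2 i) x.1 • (show pushSub F e D t from m).1 x, by
    obtain ⟨σ, rfl | ⟨s, hs, h⟩⟩ := (show pushSub F e D t from m)
    · exact Or.inl (funext fun x => smul_zero _)
    · refine Or.inr ⟨fun y => om (fun y => κ (e y).2 i) y • s y, fun x hx =>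
        F.smul (O_at_gm (holAt_fibc e κ i x)) (hs x hx), fun x => ?_⟩
      change om _ x.1 • σ x = _
      rw [h x]⟩ : pushSub F e D t)
  map_add' m m' := F.push_ext e D hD t _ _ fun x hx => smul_add _ _ _
  map_smul' a m := by
    refine F.push_ext e D hD t _ _ fun x hx => ?_
    change om (fun y => κ (e y).2 i) x • (pullS e hx.1 a • F.pushVal e D hD t m x hx) =
      pullS e hx.1 a • (om (fun y => κ (e y).2 i) x • F.pushVal e D hD t m x hx)
    rw [smul_smul, smul_smul, mul_comm]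

theorem pushVal_mulC (t : V') (m : (F.push e D hD).St t) (x : V) (hx : x ∈ fib e D t) :
    F.pushVal e D hD t (mulC F e D hD κ i t m) x hx =
      om (fun y => κ (e y).2 i) x • F.pushVal e D hD t m x hx := rfl

theorem pushVal_mulC_pow (t : V') (j : ℕ) (m : (F.push e D hD).St t) (x : V)
    (hx : x ∈ fib e D t) :
    F.pushVal e D hD t ((mulC F e D hD κ i t ^ j) m) x hx =
      om (fun y => κ (e y).2 i) x ^ j • F.pushVal e D hD t m x hx := by
  induction j with
  | zero => rw [pow_zero, pow_zero, one_smul]; rfl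
  | succ j ih =>
    rw [pow_succ', pow_succ', mul_smul, ← ih]
    exact pushVal_mulC F e D hD κ i t _ x hx

/-- the characteristic equation at `t` -/
theorem exists_char {t : V'} (hP : (F.push e D hD).CohAt t) :
    ∃ (l : ℕ) (b : Fin l → V' → ℂ), (∀ j, HolAt (b j) t) ∧
      ∀ (m : (F.push e D hD).St t) (x : V) (hx : x ∈ fib e D t),
        om (fun y => mon b (e y).1 (κ (e y).2 i)) x • F.pushVal e D hD t m x hx = 0 := by
  obtain ⟨n, g, hg, hgen⟩ := hP.2.1
  have hfin : Module.Finite ((O V').St t) ((F.push e D hD).St t) :=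
    Module.finite_def.2 (Submodule.fg_def.2 ⟨_, Set.finite_range _, hgen.self_of_nhds⟩)
  obtain ⟨p, hp, hdeg, hp0⟩ :=
    LinearMap.exists_monic_and_natDegree_eq_and_aeval_eq_zero (R := (O V').St t)
      (mulC F e D hD κ i t)
  choose b hb hbp using fun j : Fin p.natDegree => exists_gm (show OGerm t from p.coeff j)
  refine ⟨p.natDegree, b, hb, fun m x hx => ?_⟩
  have h1 : (Polynomial.aeval (mulC F e D hD κ i t) p) m = 0 := by
    rw [hp0]
    rfl
  rw [Polynomial.aeval_eq_sum_range, LinearMap.sum_apply, Finset.sum_range_succ] at h1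
  have hj : ∀ j, F.pushVal e D hD t ((p.coeff j • mulC F e D hD κ i t ^ j) m) x hx =
      (pullS e hx.1 (p.coeff j) * om (fun y => κ (e y).2 i) x ^ j) • F.pushVal e D hD t m x hx := by
    intro j
    rw [mul_smul, ← pushVal_mulC_pow]
    rfl
  have h2 : F.pushVal e D hD t (∑ j ∈ Finset.range p.natDegree,
      (p.coeff j • mulC F e D hD κ i t ^ j) m +
      (p.coeff p.natDegree • mulC F e D hD κ i t ^ p.natDegree) m) x hx = 0 := by
    rw [h1]
    rfl
  rw [F.pushVal_add, F.pushVal_sum, hj, Finset.sum_congr rfl fun j _ => hj j, ← Finset.sum_smul,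
    ← add_smul] at h2
  rw [om_mon e κ i hx.1 hb, ← h2]
  congr 1
  rw [add_comm, Finset.sum_range]
  congr 1
  · refine Finset.sum_congr rfl fun j _ => ?_
    have h7 : pullS e hx.1 (p.coeff j) = om (fun y => b j (e y).1) x := by
      rw [← pullS_gm e hx.1 (hb j)]
      exact congrArg (pullS e hx.1) (hbp j).symm
    rw [h7]
  · rw [show p.coeff p.natDegree = 1 from hp, map_one, one_mul]

end Basic

section Main

variable {V : Type u} [NormedAddCommGroup V] [NormedSpace ℂ V]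
  {V' : Type u} [NormedAddCommGroup V'] [NormedSpace ℂ V'] [FiniteDimensional ℂ V']
  {W : Type v} [NormedAddCommGroup W] [NormedSpace ℂ W]

omit [NormedAddCommGroup V'] [NormedSpace ℂ V'] [FiniteDimensional ℂ V'] in
/-- a monic polynomial does not vanish on a disc -/
theorem exists_mon_ne {l : ℕ} (b : Fin l → V' → ℂ) (t : V') (c : ℂ) {R : ℝ} (hR : 0 < R) :
    ∃ v ∈ closedBall c R, mon b t v ≠ 0 := by
  by_contra hcon
  push Not at hcon
  let P : Polynomial ℂ := Polynomial.X ^ l + ∑ j : Fin l, Polynomial.C (b j t) *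
    Polynomial.X ^ (j : ℕ)
  have hP : P.Monic := Polynomial.monic_X_pow_add (Polynomial.degree_sum_fin_lt fun j => b j t)
  have hev : ∀ v, P.eval v = mon b t v := by
    intro v
    simp [P, mon, Polynomial.eval_finsetSum]
  have hinf : (closedBall c R).Infinite := infinite_of_mem_nhds c (closedBall_mem_nhds c hR)
  refine hP.ne_zero (Polynomial.eq_zero_of_infinite_isRoot P (hinf.mono fun v hv => ?_))
  change P.eval v = 0
  rw [hev]
  exact hcon v hv

omit [FiniteDimensional ℂ V'] in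
/-- vanishing near the face number `i` -/
theorem exists_zero_face (F : EMod.{u, u, w} (O V)) (e : V ≃L[ℂ] V' × W) {k : ℕ}
    (κ : W ≃L[ℂ] (Fin k → ℂ)) (c : Fin k → ℂ) (R : Fin k → ℝ)
    (t : V') (hcoh : F.Coh (fib e (cbox κ c (-1) R) t))
    (hzero : ∀ x ∈ fib e (cbox κ c (-1) R) t, (e x).2 ∉ box κ c (-1) R → Subsingleton (F.St x))
    (i : Fin k) (hR : 0 < R i) :
    ∃ r0, 0 < r0 ∧ r0 < R i ∧ ∀ᶠ t' in 𝓝 t, ∀ x ∈ fib e (cbox κ c (-1) R) t',
      r0 ≤ ‖κ (e x).2 i - c i‖ → Subsingleton (F.St x) := by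
  have hD := isCompact_cbox κ c (-1) R
  have hcont : Continuous fun x : V => ‖κ (e x).2 i - c i‖ := by
    have h1 : Continuous fun x : V => κ (e x).2 i :=
      (continuous_apply i).comp (κ.continuous.comp (continuous_snd.comp e.continuous))
    exact (h1.sub continuous_const).norm
  let N : Set V := {x | ∀ᶠ y in 𝓝 x, Subsingleton (F.St y)}
  have hN : IsOpen N := isOpen_iff_mem_nhds.2 fun x hx => eventually_eventually_nhds.mpr hx
  have hK : IsCompact (fib e (cbox κ c (-1) R) t \ N) := (isCompact_fib e hD t).diff hN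
  have hlt : ∀ x ∈ fib e (cbox κ c (-1) R) t \ N, ‖κ (e x).2 i - c i‖ < R i := by
    rintro x ⟨hx, hxN⟩
    by_contra hcon
    push Not at hcon
    apply hxN
    refine zero_near F (hcoh x hx).self_of_nhds (hzero x hx fun hb => ?_)
    exact absurd (hb i).2 (not_lt.mpr hcon)
  have hmax : ∃ r0, 0 < r0 ∧ r0 < R i ∧ ∀ x ∈ fib e (cbox κ c (-1) R) t \ N,
      ‖κ (e x).2 i - c i‖ < r0 := by
    rcases (fib e (cbox κ c (-1) R) t \ N).eq_empty_or_nonempty with hemp | hne
    · exact ⟨R i / 2, by linarith, by linarith, by rw [hemp]; simp⟩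
    · obtain ⟨x₁, hx₁, hmax⟩ := hK.exists_isMaxOn hne hcont.continuousOn
      have h1 := hlt x₁ hx₁
      have h2 : 0 ≤ ‖κ (e x₁).2 i - c i‖ := norm_nonneg _
      refine ⟨(‖κ (e x₁).2 i - c i‖ + R i) / 2, by linarith, by linarith, fun x hx => ?_⟩
      have h3 : ‖κ (e x).2 i - c i‖ ≤ ‖κ (e x₁).2 i - c i‖ := hmax hx
      linarith
  obtain ⟨r0, h0, h1, h2⟩ := hmax
  refine ⟨r0, h0, h1, ?_⟩
  refine fib_tube e hD (P := fun x => r0 ≤ ‖κ (e x).2 i - c i‖ → Subsingleton (F.St x)) ?_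
  intro x hx
  by_cases hxN : x ∈ N
  · filter_upwards [show ∀ᶠ y in 𝓝 x, Subsingleton (F.St y) from hxN] with y hy _ using hy
  · have h3 := h2 x ⟨hx, hxN⟩
    filter_upwards [hcont.continuousAt.eventually_lt continuousAt_const h3] with y hy hy'
    exact absurd hy (not_lt.mpr hy')

/-- the characteristic equation kills the sheaf near the fibre over `t` -/
theorem exists_char_near (F : EMod.{u, u, w} (O V)) (e : V ≃L[ℂ] V' × W) {k : ℕ}
    (κ : W ≃L[ℂ] (Fin k → ℂ)) (c : Fin k → ℂ) (R : Fin k → ℝ) (hR : ∀ i, 0 < R i)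
    (t : V') (hcoh : F.Coh (fib e (cbox κ c (-1) R) t))
    (hzero : ∀ x ∈ fib e (cbox κ c (-1) R) t, (e x).2 ∉ box κ c (-1) R → Subsingleton (F.St x))
    (i : Fin k) :
    ∃ (l : ℕ) (b : Fin l → V' → ℂ), (∀ j, HolAt (b j) t) ∧
      ∀ᶠ t' in 𝓝 t, ∀ x ∈ fib e (cbox κ c (-1) R) t', ∀ m : F.St x,
        om (fun y => mon b (e y).1 (κ (e y).2 i)) x • m = 0 := by
  have hD := isCompact_cbox κ c (-1) R
  obtain ⟨l, b, hb, hker⟩ := exists_char F e _ hD κ i
    (finite_mapping F e κ c R hR hD t hcoh hzero)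
  refine ⟨l, b, hb, ?_⟩
  obtain ⟨p, g, hg, hgen⟩ := cartanA_fib F e κ c (-1) R t hcoh
  have h1 : ∀ x ∈ fib e (cbox κ c (-1) R) t, ∀ᶠ y in 𝓝 x, ∀ j,
      om (fun y => mon b (e y).1 (κ (e y).2 i)) y • g j y = 0 := by
    intro x hx
    refine eventually_all.mpr fun j => ?_
    have h2 : F.At (fun y => om (fun y => mon b (e y).1 (κ (e y).2 i)) y • g j y) x :=
      F.smul (O_at_gm (holAt_mon e κ i hx.1 hb)) (hg j x hx)
    refine F.inj h2 (F.zero x (F.mem_dom h2)) ?_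
    have h3 := hker (F.pushSec e _ hD (g j) t) x hx
    rw [F.pushVal_pushSec e _ hD (hg j)] at h3
    exact h3
  filter_upwards [fib_tube e hD h1, gen_nearS F e hD hcoh hg hgen] with t' h2 h3 x hx m
  have h4 : m ∈ Submodule.span ((O V).St x) (range fun j => g j x) := by
    rw [h3.2.2 x hx]
    exact Submodule.mem_top
  obtain ⟨d, rfl⟩ := mem_span_fam.mp h4
  rw [Finset.smul_sum]
  refine Finset.sum_eq_zero fun j _ => ?_
  rw [smul_smul, mul_comm, mul_smul, h2 x hx j, smul_zero]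

/-- the fibre coordinates satisfy monic equations on a sheaf with finite support -/
theorem finite_monic (F : EMod.{u, u, w} (O V)) (e : V ≃L[ℂ] V' × W) {k : ℕ}
    (κ : W ≃L[ℂ] (Fin k → ℂ)) (c : Fin k → ℂ) (R : Fin k → ℝ) (hR : ∀ i, 0 < R i)
    (t : V') (hcoh : F.Coh (fib e (cbox κ c (-1) R) t))
    (hzero : ∀ x ∈ fib e (cbox κ c (-1) R) t, (e x).2 ∉ box κ c (-1) R → Subsingleton (F.St x))
    (i : Fin k) :
    ∃ (l : ℕ) (a : Fin l → V' → ℂ), (∀ j, HolAt (a j) t) ∧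
      ∀ᶠ t' in 𝓝 t, (∀ v, mon a t' v = 0 → ‖v - c i‖ < R i) ∧
        ∀ x ∈ fib e (cbox κ c (-1) R) t', ∀ m : F.St x,
          om (fun y => mon a (e y).1 (κ (e y).2 i)) x • m = 0 := by
  have hD := isCompact_cbox κ c (-1) R
  obtain ⟨l, b, hb, hkill⟩ := exists_char_near F e κ c R hR t hcoh hzero i
  obtain ⟨r0, hr0, hr0R, hzr⟩ := exists_zero_face F e κ c R t hcoh hzero i (hR i)
  -- an annulus without zeros
  have hmonV : ∀ (v : ℂ) (t' : V'), (∀ j, HolAt (b j) t') →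
      HolAt (fun q : V' × ℂ => mon b q.1 q.2) (t', v) := by
    intro v t' hbt
    unfold mon
    have h2 : HolAt (fun q : V' × ℂ => q.2) (t', v) := Eventually.of_forall fun q =>
      (ContinuousLinearMap.snd ℂ V' ℂ).differentiableAt
    refine (h2.pow' l).add (HolAt.sum _ fun j _ => HolAt.mul ?_ (h2.pow' j))
    exact HolAt.comp (g := fun q : V' × ℂ => q.1) (hbt j) (Eventually.of_forall fun q =>
      (ContinuousLinearMap.fst ℂ V' ℂ).differentiableAt)
  have hslice : HolNear (fun v => mon b t v) (closedBall (c i) (R i)) := by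
    intro v _
    exact HolAt.comp (g := fun v : ℂ => (t, v)) (hmonV v t hb) (Eventually.of_forall fun q =>
      (differentiableAt_const t).prodMk differentiableAt_id)
  obtain ⟨vb, hvb, hvbne⟩ := exists_mon_ne b t (c i) (hR i)
  obtain ⟨r1, r2, h01, h12, h2R, hne⟩ := exists_annulus hr0R hslice hvb hvbne
  obtain ⟨S, l', a, f, hS, htS, ha, hroot, hf, heq⟩ := wprep (t₀ := t) (c := c i) (r := r1)
    (R := r2) (by linarith) h12 (f := fun q => mon b q.1 q.2)
    (by rintro ⟨t', v⟩ ⟨ht', _⟩; obtain rfl : t' = t := ht'; exact hmonV v t' hb) hne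
  refine ⟨l', a, fun j => ha j t htS, ?_⟩
  filter_upwards [hS.mem_nhds htS, hkill, hzr,
    (eventually_all.mpr fun j => (hb j).eventually : ∀ᶠ t' in 𝓝 t, ∀ j, HolAt (b j) t')]
    with t' ht' h1 h2 h3
  refine ⟨fun v hv => (hroot t' ht' v hv).trans (h12.trans h2R), fun x hx m => ?_⟩
  by_cases hv : ‖κ (e x).2 i - c i‖ < r2
  · have hx1 : (e x).1 = t' := hx.1
    -- the factor is invertible near `x`
    have hpt : ((e x).1, κ (e x).2 i) ∈ S ×ˢ closedBall (c i) r2 := by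
      refine ⟨by rw [hx1]; exact ht', ?_⟩
      rw [mem_closedBall, dist_eq_norm]
      exact hv.le
    have hfx : HolAt (fun y => f ((e y).1, κ (e y).2 i)) x := by
      refine HolAt.comp (g := fun y : V => ((e y).1, κ (e y).2 i)) (hf _ hpt)
        (Eventually.of_forall fun y => ?_)
      exact (((ContinuousLinearMap.fst ℂ V' W).comp (e : V →L[ℂ] V' × W)).prod
        (((ContinuousLinearMap.proj i : (Fin k → ℂ) →L[ℂ] ℂ).comp
          (κ : W →L[ℂ] (Fin k → ℂ))).comp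
          ((ContinuousLinearMap.snd ℂ V' W).comp (e : V →L[ℂ] V' × W)))).differentiableAt
    have hunit : IsUnit (om (fun y => f ((e y).1, κ (e y).2 i)) x) :=
      isUnit_om hfx (heq _ hpt.1 _ hpt.2).1
    have hprod : om (fun y => mon b (e y).1 (κ (e y).2 i)) x =
        om (fun y => f ((e y).1, κ (e y).2 i)) x *
          om (fun y => mon a (e y).1 (κ (e y).2 i)) x := by
      rw [← om_mul hfx (holAt_mon e κ i hx1 fun j => ha j t' ht')]
      refine om_congr (holAt_mon e κ i hx1 h3) ?_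
      have h6 : ∀ᶠ y in 𝓝 x, (e y).1 ∈ S := (tendsto_fst e hx1).eventually (hS.mem_nhds ht')
      have h7 : ∀ᶠ y in 𝓝 x, ‖κ (e y).2 i - c i‖ < r2 := by
        have h8 : ContinuousAt (fun y : V => ‖κ (e y).2 i - c i‖) x :=
          ((holAt_fibc e κ i x).differentiableAt.continuousAt.sub continuousAt_const).norm
        exact h8.eventually_lt continuousAt_const hv
      filter_upwards [h6, h7] with y h9 h10
      refine (heq _ h9 _ ?_).2
      rw [mem_closedBall, dist_eq_norm]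
      exact h10.le
    have h4 := h1 x hx m
    rw [hprod, mul_smul] at h4
    obtain ⟨f', hf'⟩ := hunit.exists_left_inv
    rw [← one_smul ((O V).St x) (om (fun y => mon a (e y).1 (κ (e y).2 i)) x • m), ← hf',
      mul_smul, h4, smul_zero]
  · have := h2 x hx (by linarith)
    exact Subsingleton.elim _ _

end Main

end Pool.Agent.DQ
end

section

/-! Campaign DQ, module M12, block (f), file MF0: cokernel sheaves of matrices of functions. -/

set_option autoImplicit false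

open Set Filter Topology

namespace Pool.Agent.DQ

namespace MF

section restr

universe u v w

variable {X : Type u} [TopologicalSpace X] {R : ERing.{u, v} X}

/-- restriction of the domain of a module to an open set -/
def restr (M : EMod.{u, v, w} R) (U : Set X) (hU : IsOpen U) : EMod.{u, v, w} R where
  dom := M.dom ∩ U
  dom_sub := fun _ hx => M.dom_sub hx.1
  St := M.St
  At s x := M.At s x ∧ x ∈ U
  mem_dom h := ⟨M.mem_dom h.1, h.2⟩
  ev h := (M.ev h.1).and (hU.mem_nhds h.2)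
  congr h h' := ⟨M.congr h.1 h', h.2⟩
  inj h h' e := M.inj h.1 h'.1 e
  surj x hx g := by
    obtain ⟨s, hs, h⟩ := M.surj x hx.1 g
    exact ⟨s, ⟨hs, hx.2⟩, h⟩
  zero x hx := ⟨M.zero x hx.1, hx.2⟩
  add h h' := ⟨M.add h.1 h'.1, h.2⟩
  smul h h' := ⟨M.smul h h'.1, h'.2⟩

end restr

section rows

variable {Z : Type} [NormedAddCommGroup Z] [NormedSpace ℂ Z] {ι : Type} {s : ℕ}

/-- the germs at `x` of a vector of functions -/
noncomputable def gv (a : Fin s → Z → ℂ) (x : Z) : Fin s → (O Z).St x := fun j => om (a j) x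

/-- the submodule of `𝓞_x ^ s` spanned by the rows of a matrix of functions -/
noncomputable def rowSp (A : ι → Fin s → Z → ℂ) (x : Z) :
    Submodule ((O Z).St x) (Fin s → (O Z).St x) :=
  Submodule.span ((O Z).St x) (range fun k => gv (A k) x)

/-- all entries are holomorphic near `x` -/
def MatAt (A : ι → Fin s → Z → ℂ) (x : Z) : Prop := ∀ k j, HolAt (A k j) x

theorem MatAt.ev [Finite ι] {A : ι → Fin s → Z → ℂ} {x : Z} (h : MatAt A x) :
    ∀ᶠ y in 𝓝 x, MatAt A y :=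
  eventually_all.mpr fun k => eventually_all.mpr fun j => (h k j).eventually

theorem isOpen_matAt [Finite ι] (A : ι → Fin s → Z → ℂ) : IsOpen {x | MatAt A x} :=
  isOpen_iff_mem_nhds.2 fun _ hx => MatAt.ev hx

theorem gv_at {a : Fin s → Z → ℂ} {x : Z} (ha : ∀ j, HolAt (a j) x) : ((O Z).free s).At (gv a) x :=
  ⟨mem_univ x, fun j => O_at_gm (ha j)⟩

theorem free_at_exists {u : (x : Z) → ((O Z).free s).St x} {x : Z} (hu : ((O Z).free s).At u x) :
    ∃ a : Fin s → Z → ℂ, (∀ j, HolAt (a j) x) ∧ ∀ᶠ y in 𝓝 x, u y = gv a y := by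
  choose a ha h using fun j => hu.2 j
  refine ⟨a, ha, ?_⟩
  filter_upwards [eventually_all.mpr h] with y hy
  exact funext hy

theorem rowSp_open [Finite ι] (A : ι → Fin s → Z → ℂ) :
    ∀ x ∈ (restr ((O Z).free s) {x | MatAt A x} (isOpen_matAt A)).dom, ∀ g ∈ rowSp A x,
      ∃ t : (x : Z) → Fin s → (O Z).St x,
        (restr ((O Z).free s) {x | MatAt A x} (isOpen_matAt A)).At t x ∧ t x = g ∧
          ∀ᶠ y in 𝓝 x, t y ∈ rowSp A y := by
  classical
  intro x hx g hg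
  cases nonempty_fintype ι
  obtain ⟨c, hc⟩ := mem_span_fam.mp hg
  choose f hf hfc using fun k => exists_gm (show OGerm x from c k)
  refine ⟨fun y => ∑ k, om (f k) y • gv (A k) y, ⟨⟨mem_univ x, fun j => ?_⟩, hx.2⟩, ?_, ?_⟩
  · have h1 : ∀ y, (∑ k, om (f k) y • gv (A k) y) j = ∑ k, om (f k) y * om (A k j) y := by
      intro y
      rw [Finset.sum_apply]
      rfl
    have h2 : (O Z).At (∑ k, fun y => om (f k) y * om (A k j) y) x := by
      refine ERing.sum (R := O Z) _ (mem_univ x) fun k _ => ?_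
      exact (O Z).mul (O_at_gm (hf k)) (O_at_gm (hx.2 k j))
    refine (O Z).congr h2 (Eventually.of_forall fun y => ?_)
    refine Eq.trans ?_ (h1 y).symm
    exact Finset.sum_apply y _ _
  · rw [hc]
    refine Finset.sum_congr rfl fun k _ => ?_
    exact congrArg (fun z => z • gv (A k) x) (hfc k)
  · refine Eventually.of_forall fun y => ?_
    exact Submodule.sum_mem _ fun k _ => Submodule.smul_mem _ _ (Submodule.subset_span ⟨k, rfl⟩)

/-- the cokernel of a matrix of functions -/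
noncomputable def cok [Finite ι] (A : ι → Fin s → Z → ℂ) : EMod.{0, 0, 0} (O Z) :=
  (restr ((O Z).free s) {x | MatAt A x} (isOpen_matAt A)).quot (rowSp A) (rowSp_open A)

variable [Finite ι] (A : ι → Fin s → Z → ℂ)

/-- the class of a vector of germs -/
noncomputable def mk (x : Z) : (Fin s → (O Z).St x) →ₗ[(O Z).St x] (cok A).St x := (rowSp A x).mkQ

theorem mk_surj (x : Z) : Function.Surjective (mk A x) := (rowSp A x).mkQ_surjective

theorem mk_eq_zero {x : Z} {c : Fin s → (O Z).St x} : mk A x c = 0 ↔ c ∈ rowSp A x :=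
  Submodule.Quotient.mk_eq_zero _

theorem mk_eq {x : Z} {c c' : Fin s → (O Z).St x} : mk A x c = mk A x c' ↔ c - c' ∈ rowSp A x :=
  Submodule.Quotient.eq _

theorem mem_cok_dom {x : Z} : x ∈ (cok A).dom ↔ MatAt A x :=
  ⟨fun h => h.2, fun h => ⟨mem_univ x, h⟩⟩

theorem cok_at_mk {x : Z} (hx : MatAt A x) {a : Fin s → Z → ℂ} (ha : ∀ j, HolAt (a j) x) :
    (cok A).At (fun y => mk A y (gv a y)) x :=
  ⟨gv a, ⟨gv_at ha, hx⟩, Eventually.of_forall fun _ => rfl⟩

theorem cok_at_exists {σ : (x : Z) → (cok A).St x} {x : Z} (h : (cok A).At σ x) :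
    ∃ a : Fin s → Z → ℂ, (∀ j, HolAt (a j) x) ∧ ∀ᶠ y in 𝓝 x, σ y = mk A y (gv a y) := by
  obtain ⟨u, hu, h⟩ := h
  obtain ⟨a, ha, hua⟩ := free_at_exists hu.1
  refine ⟨a, ha, ?_⟩
  filter_upwards [h, hua] with y h1 h2
  rw [h1]
  change mk A y (u y) = mk A y (gv a y)
  exact congrArg _ h2

/-- the classes of the basis vectors -/
noncomputable def cokE (j : Fin s) (x : Z) : (cok A).St x := mk A x (Pi.single j 1)

theorem mk_eq_sum (x : Z) (c : Fin s → (O Z).St x) : mk A x c = ∑ j, c j • cokE A j x := by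
  have h : c = ∑ j, c j • (Pi.single j 1 : Fin s → (O Z).St x) := by
    funext i
    rw [Finset.sum_apply, Finset.sum_eq_single i]
    · simp
    · intro j _ hj
      rw [Pi.smul_apply, Pi.single_eq_of_ne (Ne.symm hj), smul_zero]
    · intro h
      exact absurd (Finset.mem_univ i) h
  conv_lhs => rw [h]
  rw [map_sum]
  exact Finset.sum_congr rfl fun j _ => by rw [map_smul]; rfl

theorem cokE_at (j : Fin s) {x : Z} (hx : MatAt A x) : (cok A).At (cokE A j) x := by
  classical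
  refine (cok A).congr (cok_at_mk A hx (a := fun i _ => if i = j then 1 else 0) fun i =>
    HolAt.const _ x) (Eventually.of_forall fun y => ?_)
  refine congrArg (mk A y) (funext fun i => ?_)
  by_cases h : i = j
  · subst h
    simp only [gv, if_true, Pi.single_eq_same]
    exact om_one y
  · simp only [gv, if_neg h]
    rw [Pi.single_eq_of_ne h]
    exact om_zero y

theorem cokE_gen (S : Set Z) : (cok A).Gen (cokE A) S := by
  intro x _
  rw [eq_top_iff]
  intro m _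
  obtain ⟨c, rfl⟩ := mk_surj A x m
  rw [mk_eq_sum]
  exact mem_span_fam.mpr ⟨c, rfl⟩

theorem cok_rel (x : Z) : (cok A).rel (cokE A) x = rowSp A x := by
  ext c
  change ∑ j, c j • cokE A j x = 0 ↔ _
  rw [← mk_eq_sum, mk_eq_zero]

theorem cok_cohAt [FiniteDimensional ℂ Z] {x : Z} (hx : MatAt A x) : (cok A).CohAt x := by
  cases nonempty_fintype ι
  refine coh_of_lfp' (cok A) ((mem_cok_dom A).2 hx) (cokE A) (fun k j y => om (A k j) y)
    (fun j => cokE_at A j hx) (fun k j => O_at_gm (hx k j)) ?_ ?_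
  · refine Eventually.of_forall fun y m => ?_
    obtain ⟨c, rfl⟩ := mk_surj A y m
    exact ⟨c, mk_eq_sum A y c⟩
  · refine Eventually.of_forall fun y b => ?_
    rw [← mk_eq_sum, mk_eq_zero]
    constructor
    · intro h
      obtain ⟨d, hd⟩ := mem_span_fam.mp h
      refine ⟨d, fun i => ?_⟩
      rw [hd, Finset.sum_apply]
      rfl
    · rintro ⟨d, hd⟩
      refine mem_span_fam.mpr ⟨d, funext fun i => ?_⟩
      rw [hd, Finset.sum_apply]
      rfl

/-- `u` is, modulo the rows of `A`, a section of `𝓞 ^ s` near `x` -/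
def SecMod (u : (x : Z) → Fin s → (O Z).St x) (x : Z) : Prop :=
  ∃ a : Fin s → Z → ℂ, (∀ j, HolAt (a j) x) ∧ ∀ᶠ y in 𝓝 x, u y - gv a y ∈ rowSp A y

end rows

end MF

end Pool.Agent.DQ
end

section

/-! Campaign DQ, module M12, block (f), file MF1: definitions (pull back of vectors, operators given by
matrices, the presentations over `X × ℂ` and `X × ℂ ^ d`, the standing hypotheses). -/

set_option autoImplicit false
set_option linter.unusedVariables false

open Set Filter Topology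

namespace Pool.Agent.DQ

namespace MF

section pv

variable {X Z W : Type} [NormedAddCommGroup X] [NormedSpace ℂ X] [NormedAddCommGroup Z]
  [NormedSpace ℂ Z] [NormedAddCommGroup W] [NormedSpace ℂ W] {s : ℕ}

/-- pull back of a vector of germs along the projection -/
noncomputable def pv (e : Z ≃L[ℂ] X × W) {x : Z} {t : X} (hx : (e x).1 = t)
    (c : Fin s → (O X).St t) : Fin s → (O Z).St x := fun j => pullS e hx (c j)

theorem pv_add (e : Z ≃L[ℂ] X × W) {x : Z} {t : X} (hx : (e x).1 = t)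
    (c c' : Fin s → (O X).St t) : pv e hx (c + c') = pv e hx c + pv e hx c' :=
  funext fun j => map_add (pullS e hx) _ _

theorem pv_sub (e : Z ≃L[ℂ] X × W) {x : Z} {t : X} (hx : (e x).1 = t)
    (c c' : Fin s → (O X).St t) : pv e hx (c - c') = pv e hx c - pv e hx c' :=
  funext fun j => map_sub (pullS e hx) _ _

theorem pv_zero (e : Z ≃L[ℂ] X × W) {x : Z} {t : X} (hx : (e x).1 = t) :
    pv e hx (0 : Fin s → (O X).St t) = 0 := funext fun j => map_zero (pullS e hx)

theorem pv_smul (e : Z ≃L[ℂ] X × W) {x : Z} {t : X} (hx : (e x).1 = t) (a : (O X).St t)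
    (c : Fin s → (O X).St t) : pv e hx (a • c) = pullS e hx a • pv e hx c :=
  funext fun j => map_mul (pullS e hx) _ _

theorem pv_sum (e : Z ≃L[ℂ] X × W) {x : Z} {t : X} (hx : (e x).1 = t) {ι : Type*} (I : Finset ι)
    (c : ι → Fin s → (O X).St t) : pv e hx (∑ i ∈ I, c i) = ∑ i ∈ I, pv e hx (c i) := by
  classical
  induction I using Finset.induction_on with
  | empty => simpa using pv_zero e hx
  | insert a I ha ih => rw [Finset.sum_insert ha, Finset.sum_insert ha, pv_add, ih]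

theorem pv_single (e : Z ≃L[ℂ] X × W) {x : Z} {t : X} (hx : (e x).1 = t) (j : Fin s) :
    pv e hx (Pi.single j 1) = Pi.single j 1 := by
  funext i
  by_cases h : i = j
  · subst h
    simp [pv]
  · simp [pv, Pi.single_eq_of_ne h]

theorem pv_gv (e : Z ≃L[ℂ] X × W) {x : Z} {t : X} (hx : (e x).1 = t) {a : Fin s → X → ℂ}
    (ha : ∀ j, HolAt (a j) t) : pv e hx (gv a t) = gv (fun j y => a j (e y).1) x :=
  funext fun j => pullS_gm e hx (ha j)

/-- every vector of germs is the vector of germs of a vector of functions -/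
theorem exists_gv {t : X} (c : Fin s → (O X).St t) :
    ∃ a : Fin s → X → ℂ, (∀ j, HolAt (a j) t) ∧ gv a t = c := by
  choose a ha h using fun j => exists_gm (show OGerm t from c j)
  exact ⟨a, ha, funext h⟩

end pv

section ops

variable {X : Type} [NormedAddCommGroup X] [NormedSpace ℂ X] {s : ℕ}

/-- the operator `c ↦ c N₀` on row vectors of germs -/
noncomputable def Nop (N₀ : Fin s → Fin s → X → ℂ) (t : X) :
    (Fin s → (O X).St t) →ₗ[(O X).St t] (Fin s → (O X).St t) where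
  toFun c := ∑ j, c j • gv (N₀ j) t
  map_add' c c' := by simp only [Pi.add_apply, add_smul, Finset.sum_add_distrib]
  map_smul' a c := by simp only [Pi.smul_apply, smul_eq_mul, mul_smul, ← Finset.smul_sum, RingHom.id_apply]

theorem Nop_apply (N₀ : Fin s → Fin s → X → ℂ) (t : X) (c : Fin s → (O X).St t) :
    Nop N₀ t c = ∑ j, c j • gv (N₀ j) t := rfl

/-- the value of the monic polynomial with the coefficients `a` at the operator `N₀` -/
noncomputable def chiN {l : ℕ} (a : Fin l → X → ℂ) (N₀ : Fin s → Fin s → X → ℂ) (t : X)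
    (c : Fin s → (O X).St t) : Fin s → (O X).St t :=
  (Nop N₀ t ^ l) c + ∑ j : Fin l, om (a j) t • (Nop N₀ t ^ (j : ℕ)) c

end ops

section pres

variable {X Z V : Type} [NormedAddCommGroup X] [NormedSpace ℂ X] [NormedAddCommGroup Z]
  [NormedSpace ℂ Z] [NormedAddCommGroup V] [NormedSpace ℂ V] {ι : Type} {s d : ℕ}

/-- the presentation over `X × ℂ` given by the presentation `ρ` and the operator `N₀`: the rows of `ρ`
and the rows of `v - N₀` -/
noncomputable def stepRows (e : Z ≃L[ℂ] X × ℂ) (ρ : ι → Fin s → X → ℂ) (N₀ : Fin s → Fin s → X → ℂ) :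
    ι ⊕ Fin s → Fin s → Z → ℂ
  | Sum.inl k => fun j x => ρ k j (e x).1
  | Sum.inr p => fun l x => (if p = l then (e x).2 else 0) - N₀ p l (e x).1

/-- the presentation over `X × ℂ ^ d` given by the presentation `ρ` and the operators `N i`: the rows
of `ρ` and the rows of `v i - N i` -/
noncomputable def bigRows (e : V ≃L[ℂ] X × (Fin d → ℂ)) (ρ : ι → Fin s → X → ℂ)
    (N : Fin d → Fin s → Fin s → X → ℂ) : ι ⊕ (Fin d × Fin s) → Fin s → V → ℂ
  | Sum.inl k => fun j x => ρ k j (e x).1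
  | Sum.inr p => fun l x => (if p.2 = l then (e x).2 p.1 else 0) - N p.1 p.2 l (e x).1

/-- standing hypotheses at `b` for one operator -/
structure Good1 (ρ : ι → Fin s → X → ℂ) (N₀ : Fin s → Fin s → X → ℂ) (c₀ : ℂ) (R₀ : ℝ) (b : X) :
    Prop where
  hρ : MatAt ρ b
  hN : MatAt N₀ b
  stab : ∀ᶠ y in 𝓝 b, ∀ c ∈ rowSp ρ y, Nop N₀ y c ∈ rowSp ρ y
  kill : ∃ (l : ℕ) (a : Fin l → X → ℂ) (r' : ℝ), (∀ j, HolAt (a j) b) ∧ r' < R₀ ∧
    ∀ᶠ y in 𝓝 b, (∀ v, mon a y v = 0 → ‖v - c₀‖ < r') ∧ ∀ c, chiN a N₀ y c ∈ rowSp ρ y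

/-- standing hypotheses at `b` for `d` commuting operators -/
structure Good (ρ : ι → Fin s → X → ℂ) (N : Fin d → Fin s → Fin s → X → ℂ) (cc : Fin d → ℂ)
    (RR : Fin d → ℝ) (b : X) : Prop where
  hρ : MatAt ρ b
  hN : ∀ i, MatAt (N i) b
  stab : ∀ᶠ y in 𝓝 b, ∀ i, ∀ c ∈ rowSp ρ y, Nop (N i) y c ∈ rowSp ρ y
  comm : ∀ᶠ y in 𝓝 b, ∀ i i' c,
    Nop (N i) y (Nop (N i') y c) - Nop (N i') y (Nop (N i) y c) ∈ rowSp ρ y
  kill : ∀ i, ∃ (l : ℕ) (a : Fin l → X → ℂ) (r' : ℝ), (∀ j, HolAt (a j) b) ∧ r' < RR i ∧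
    ∀ᶠ y in 𝓝 b, (∀ v, mon a y v = 0 → ‖v - cc i‖ < r') ∧ ∀ c, chiN a (N i) y c ∈ rowSp ρ y

/-- the closed polydisc in `ℂ ^ d` -/
abbrev PD (cc : Fin d → ℂ) (RR : Fin d → ℝ) : Set (Fin d → ℂ) :=
  cbox (ContinuousLinearEquiv.refl ℂ (Fin d → ℂ)) cc (-1) RR

theorem mem_PD {cc : Fin d → ℂ} {RR : Fin d → ℝ} {v : Fin d → ℂ} :
    v ∈ PD cc RR ↔ ∀ i, ‖v i - cc i‖ ≤ RR i :=
  ⟨fun h i => (h i).2, fun h i => ⟨le_trans (by simp) (norm_nonneg _), h i⟩⟩

theorem isCompact_PD (cc : Fin d → ℂ) (RR : Fin d → ℝ) : IsCompact (PD cc RR) :=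
  isCompact_cbox _ _ _ _

theorem Good.eventually [Finite ι] {ρ : ι → Fin s → X → ℂ} {N : Fin d → Fin s → Fin s → X → ℂ}
    {cc : Fin d → ℂ} {RR : Fin d → ℝ} {b : X} (h : Good ρ N cc RR b) :
    ∀ᶠ y in 𝓝 b, Good ρ N cc RR y := by
  have hk : ∀ᶠ y in 𝓝 b, ∀ i, ∃ (l : ℕ) (a : Fin l → X → ℂ) (r' : ℝ), (∀ j, HolAt (a j) y) ∧
      r' < RR i ∧ ∀ᶠ y in 𝓝 y, (∀ v, mon a y v = 0 → ‖v - cc i‖ < r') ∧
        ∀ c, chiN a (N i) y c ∈ rowSp ρ y := by
    refine eventually_all.mpr fun i => ?_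
    obtain ⟨l, a, r', ha, hr', h1⟩ := h.kill i
    filter_upwards [eventually_all.mpr fun j => (ha j).eventually,
      eventually_eventually_nhds.mpr h1] with y h2 h3
    exact ⟨l, a, r', h2, hr', h3⟩
  filter_upwards [h.hρ.ev, eventually_all.mpr fun i => (h.hN i).ev,
    eventually_eventually_nhds.mpr h.stab, eventually_eventually_nhds.mpr h.comm, hk]
    with y h1 h2 h3 h4 h5
  exact ⟨h1, h2, h3, h4, h5⟩

theorem Good.good1 {ρ : ι → Fin s → X → ℂ} {N : Fin d → Fin s → Fin s → X → ℂ} {cc : Fin d → ℂ}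
    {RR : Fin d → ℝ} {b : X} (h : Good ρ N cc RR b) (i : Fin d) :
    Good1 ρ (N i) (cc i) (RR i) b :=
  ⟨h.hρ, h.hN i, h.stab.mono fun _ h c hc => h i c hc, h.kill i⟩

end pres

end MF

end Pool.Agent.DQ
end

section

/-! Campaign DQ, module M12, block (f), file MF2: multiplication by the coordinate `v` modulo the rows of
`v - N₀` (generic version: a submodule `S` of `𝓞_x ^ s`). -/

set_option autoImplicit false
set_option linter.unusedVariables false

open Set Filter Topology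

namespace Pool.Agent.DQ

namespace MF

variable {X Z W : Type} [NormedAddCommGroup X] [NormedSpace ℂ X] [NormedAddCommGroup Z]
  [NormedSpace ℂ Z] [NormedAddCommGroup W] [NormedSpace ℂ W] {s : ℕ}

/-- Proof. `w = pv e hx c` in `hS`: `∑ j, (pv e hx c) j • pv e hx (gv (N₀ j) t) = pv e hx (∑ j, c j • gv (N₀ j) t)` by `pv_sum`, `pv_smul`, and
`Nop_apply`. -/
theorem v_pv (e : Z ≃L[ℂ] X × W) {x : Z} {t : X} (hx : (e x).1 = t) {N₀ : Fin s → Fin s → X → ℂ}
    {φ : Z → ℂ} (S : Submodule ((O Z).St x) (Fin s → (O Z).St x))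
    (hS : ∀ w : Fin s → (O Z).St x, om φ x • w - ∑ j, w j • pv e hx (gv (N₀ j) t) ∈ S)
    (c : Fin s → (O X).St t) : om φ x • pv e hx c - pv e hx (Nop N₀ t c) ∈ S := by
  have h := hS (pv e hx c)
  have h2 : ∑ j, (pv e hx c) j • pv e hx (gv (N₀ j) t) = pv e hx (Nop N₀ t c) := by
    rw [Nop_apply, pv_sum]
    exact Finset.sum_congr rfl fun j _ => (pv_smul e hx (c j) (gv (N₀ j) t)).symm
  rw [h2] at h
  exact h

/-- Proof. Induction on `n`: `φ^(n+1) • pv c - pv (N^(n+1) c) = φ • (φ^n • pv c - pv (N^n c)) + (φ • pv (N^n c) - pv (N (N^n c)))`, `v_pv`,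
`pow_succ'` (`(N ^ (n+1)) c = N ((N ^ n) c)`: `pow_succ'`, `Module.End.mul_apply`). -/
theorem v_pow_pv (e : Z ≃L[ℂ] X × W) {x : Z} {t : X} (hx : (e x).1 = t)
    {N₀ : Fin s → Fin s → X → ℂ} {φ : Z → ℂ} (S : Submodule ((O Z).St x) (Fin s → (O Z).St x))
    (hS : ∀ w : Fin s → (O Z).St x, om φ x • w - ∑ j, w j • pv e hx (gv (N₀ j) t) ∈ S)
    (n : ℕ) (c : Fin s → (O X).St t) :
    om φ x ^ n • pv e hx c - pv e hx ((Nop N₀ t ^ n) c) ∈ S := by
  induction n with
  | zero =>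
    have h0 : om φ x ^ 0 • pv e hx c - pv e hx ((Nop N₀ t ^ 0) c) = 0 := by
      rw [pow_zero, pow_zero, one_smul, Module.End.one_apply, sub_self]
    rw [h0]
    exact S.zero_mem
  | succ n ih =>
    have h1 := S.smul_mem (om φ x) ih
    have h2 := v_pv e hx S hS ((Nop N₀ t ^ n) c)
    have h3 := S.add_mem h1 h2
    have h4 : om φ x • (om φ x ^ n • pv e hx c - pv e hx ((Nop N₀ t ^ n) c)) +
        (om φ x • pv e hx ((Nop N₀ t ^ n) c) - pv e hx (Nop N₀ t ((Nop N₀ t ^ n) c))) =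
        om φ x ^ (n + 1) • pv e hx c - pv e hx ((Nop N₀ t ^ (n + 1)) c) := by
      rw [smul_sub, sub_add_sub_cancel, smul_smul, ← pow_succ', pow_succ' (Nop N₀ t) n,
        Module.End.mul_apply]
    rw [h4] at h3
    exact h3

/-- **The monic polynomial kills modulo `S`.**

Proof. `w = ∑ j, w j • pv e hx (Pi.single j 1)` (`pv_single`), so it suffices to treat `w = pv e hx c` for all `c` (`c = Pi.single j 1`), as `S` is a
submodule. The germ of `fun y => mon a (e y).1 (φ y)` is `om φ x ^ l + ∑ j, pullS e hx (om (a j) t) * om φ x ^ j` (`om_add`, `om_sum`, `om_mul`, `om_pow`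
of SMonic.lean, `pullS_gm`, compare `om_mon`). Multiply by `pv c`; by `v_pow_pv` and `pv_smul` this is congruent modulo `S` to
`pv ((N ^ l) c) + ∑ j, pv (om (a j) t • (N ^ j) c) = pv (chiN a N₀ t c)`, which is in `S` by `hpv` and `hkill`. -/
theorem chi_smul_mem (e : Z ≃L[ℂ] X × W) {x : Z} {t : X} (hx : (e x).1 = t)
    {N₀ : Fin s → Fin s → X → ℂ} {φ : Z → ℂ} (hφ : HolAt φ x)
    (S : Submodule ((O Z).St x) (Fin s → (O Z).St x))
    (hS : ∀ w : Fin s → (O Z).St x, om φ x • w - ∑ j, w j • pv e hx (gv (N₀ j) t) ∈ S)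
    {l : ℕ} {a : Fin l → X → ℂ} (ha : ∀ j, HolAt (a j) t)
    (hkill : ∀ c : Fin s → (O X).St t, pv e hx (chiN a N₀ t c) ∈ S) (w : Fin s → (O Z).St x) :
    om (fun y => mon a (e y).1 (φ y)) x • w ∈ S := by
  have hm : om (fun y => mon a (e y).1 (φ y)) x =
      om φ x ^ l + ∑ j : Fin l, pullS e hx (om (a j) t) * om φ x ^ (j : ℕ) := by
    unfold mon
    rw [om_add (hφ.pow' l) (HolAt.sum _ fun j _ =>
      ((ha j).comp_fst e hx).mul (hφ.pow' j)), om_pow hφ,
      om_sum _ fun j _ => ((ha j).comp_fst e hx).mul (hφ.pow' j)]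
    congr 1
    refine Finset.sum_congr rfl fun j _ => ?_
    rw [om_mul ((ha j).comp_fst e hx) (hφ.pow' j), om_pow hφ, pullS_gm e hx (ha j)]
  have hc : ∀ c : Fin s → (O X).St t,
      om (fun y => mon a (e y).1 (φ y)) x • pv e hx c ∈ S := by
    intro c
    have h1 : om (fun y => mon a (e y).1 (φ y)) x • pv e hx c - pv e hx (chiN a N₀ t c) =
        (om φ x ^ l • pv e hx c - pv e hx ((Nop N₀ t ^ l) c)) +
          ∑ j : Fin l, pullS e hx (om (a j) t) •
            (om φ x ^ (j : ℕ) • pv e hx c - pv e hx ((Nop N₀ t ^ (j : ℕ)) c)) := by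
      have h2 : pv e hx (chiN a N₀ t c) = pv e hx ((Nop N₀ t ^ l) c) +
          ∑ j : Fin l, pullS e hx (om (a j) t) • pv e hx ((Nop N₀ t ^ (j : ℕ)) c) := by
        unfold chiN
        rw [pv_add, pv_sum]
        congr 1
        exact Finset.sum_congr rfl fun j _ => pv_smul e hx _ _
      have h3 : ∑ j : Fin l, pullS e hx (om (a j) t) •
            (om φ x ^ (j : ℕ) • pv e hx c - pv e hx ((Nop N₀ t ^ (j : ℕ)) c)) =
          ∑ j : Fin l, (pullS e hx (om (a j) t) * om φ x ^ (j : ℕ)) • pv e hx c -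
          ∑ j : Fin l, pullS e hx (om (a j) t) • pv e hx ((Nop N₀ t ^ (j : ℕ)) c) := by
        rw [← Finset.sum_sub_distrib]
        exact Finset.sum_congr rfl fun j _ => by rw [smul_sub, smul_smul]
      rw [hm, h2, h3, add_smul, Finset.sum_smul]
      abel
    have h4 : om (fun y => mon a (e y).1 (φ y)) x • pv e hx c =
        (om (fun y => mon a (e y).1 (φ y)) x • pv e hx c - pv e hx (chiN a N₀ t c)) +
          pv e hx (chiN a N₀ t c) := (sub_add_cancel _ _).symm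
    rw [h4]
    refine S.add_mem ?_ (hkill c)
    rw [h1]
    exact S.add_mem (v_pow_pv e hx S hS l c)
      (S.sum_mem fun j _ => S.smul_mem _ (v_pow_pv e hx S hS (j : ℕ) c))
  have hw : w = ∑ j, w j • pv e hx (Pi.single j 1) := by
    simp only [pv_single]
    funext i
    rw [Finset.sum_apply]
    simp [Pi.single_apply]
  rw [hw, Finset.smul_sum]
  refine S.sum_mem fun j _ => ?_
  rw [smul_comm]
  exact S.smul_mem _ (hc _)

/-- **Where the monic polynomial does not vanish `S` is everything.**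

Proof. `chi_smul_mem`; the germ of `fun y => mon a (e y).1 (φ y)` at `x` is a unit (`isUnit_om` of SMonic.lean, value `mon a t (φ x) ≠ 0`; holomorphic: `HolAt`
rules, `HolAt.comp_fst`, `HolAt.pow'`). -/
theorem eq_top_of_mon_ne (e : Z ≃L[ℂ] X × W) [FiniteDimensional ℂ Z] {x : Z} {t : X} (hx : (e x).1 = t)
    {N₀ : Fin s → Fin s → X → ℂ} {φ : Z → ℂ} (hφ : HolAt φ x)
    (S : Submodule ((O Z).St x) (Fin s → (O Z).St x))
    (hS : ∀ w : Fin s → (O Z).St x, om φ x • w - ∑ j, w j • pv e hx (gv (N₀ j) t) ∈ S)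
    {l : ℕ} {a : Fin l → X → ℂ} (ha : ∀ j, HolAt (a j) t)
    (hkill : ∀ c : Fin s → (O X).St t, pv e hx (chiN a N₀ t c) ∈ S)
    (hne : mon a t (φ x) ≠ 0) : S = ⊤ := by
  have hh : HolAt (fun y => mon a (e y).1 (φ y)) x := by
    unfold mon
    exact (hφ.pow' l).add (HolAt.sum _ fun j _ => ((ha j).comp_fst e hx).mul (hφ.pow' j))
  have hu : IsUnit (om (fun y => mon a (e y).1 (φ y)) x) := by
    refine isUnit_om hh ?_
    change mon a (e x).1 (φ x) ≠ 0
    rw [hx]
    exact hne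
  refine (Submodule.eq_top_iff').2 fun w => ?_
  obtain ⟨u, hu⟩ := hu
  have h1 := chi_smul_mem e hx hφ S hS ha hkill ((↑u⁻¹ : (O Z).St x) • w)
  rw [← hu, smul_smul, Units.mul_inv, one_smul] at h1
  exact h1

end MF

end Pool.Agent.DQ
end

section

/-! Campaign DQ, module M12, block (f), file MF3: the relations `stepRows` and `bigRows`. -/

set_option autoImplicit false
set_option linter.unusedVariables false

open Set Filter Topology

namespace Pool.Agent.DQ

namespace MF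

variable {X Z V : Type} [NormedAddCommGroup X] [NormedSpace ℂ X] [NormedAddCommGroup Z]
  [NormedSpace ℂ Z] [NormedAddCommGroup V] [NormedSpace ℂ V] {ι : Type} {s d : ℕ}

private theorem MF3_hol2 (e : Z ≃L[ℂ] X × ℂ) (x : Z) : HolAt (fun y => (e y).2) x :=
  Eventually.of_forall fun _ =>
    ((ContinuousLinearMap.snd ℂ X ℂ).comp (e : Z →L[ℂ] X × ℂ)).differentiableAt

private theorem MF3_hold (e : V ≃L[ℂ] X × (Fin d → ℂ)) (x : V) (i : Fin d) :
    HolAt (fun y => (e y).2 i) x :=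
  Eventually.of_forall fun _ =>
    (((ContinuousLinearMap.proj i : (Fin d → ℂ) →L[ℂ] ℂ)).comp
      ((ContinuousLinearMap.snd ℂ X (Fin d → ℂ)).comp
        (e : V →L[ℂ] X × (Fin d → ℂ)))).differentiableAt

private theorem MF3_row {x : Z} {φ : Z → ℂ} (hφ : HolAt φ x) {b : Fin s → Z → ℂ}
    (hb : ∀ l, HolAt (b l) x) (j : Fin s) :
    gv (fun l y => (if j = l then φ y else 0) - b l y) x =
      om φ x • (Pi.single j 1 : Fin s → (O Z).St x) - gv b x := by
  funext l
  change om (fun y => (if j = l then φ y else 0) - b l y) x =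
    om φ x • (Pi.single j 1 : Fin s → (O Z).St x) l - om (b l) x
  have h2 : om (fun y => - b l y) x = - om (b l) x := gm_neg (hb l)
  by_cases h : j = l
  · subst h
    rw [Pi.single_eq_same, smul_eq_mul, mul_one]
    simp only [if_true]
    simp only [sub_eq_add_neg]
    rw [om_add hφ (hb j).neg, h2]
  · rw [Pi.single_eq_of_ne (Ne.symm h), smul_zero]
    simp only [if_neg h]
    simp only [sub_eq_add_neg]
    rw [om_add (HolAt.const 0 x) (hb l).neg, h2, om_zero]

private theorem MF3_sum {x : Z} (φ : (O Z).St x) (w : Fin s → (O Z).St x)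
    (q : Fin s → Fin s → (O Z).St x) :
    φ • w - ∑ j, w j • q j =
      ∑ j, w j • (φ • (Pi.single j 1 : Fin s → (O Z).St x) - q j) := by
  have h : w = ∑ j, w j • (Pi.single j 1 : Fin s → (O Z).St x) := by
    funext i
    rw [Finset.sum_apply, Finset.sum_eq_single i]
    · simp
    · intro j _ hj
      rw [Pi.smul_apply, Pi.single_eq_of_ne (Ne.symm hj), smul_zero]
    · intro h
      exact absurd (Finset.mem_univ i) h
  simp only [smul_sub, Finset.sum_sub_distrib]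
  congr 1
  conv_lhs => rw [h]
  rw [Finset.smul_sum]
  exact Finset.sum_congr rfl fun j _ => smul_comm _ _ _

section step

variable (e : Z ≃L[ℂ] X × ℂ) {x : Z} {t : X} (hx : (e x).1 = t) {ρ : ι → Fin s → X → ℂ}
  {N₀ : Fin s → Fin s → X → ℂ}

include hx

/-- Proof. `HolAt.comp_fst`, the coordinate `(e y).2` is holomorphic (continuous linear), `HolAt.sub`. -/
theorem stepRows_matAt (hρ : MatAt ρ t) (hN : MatAt N₀ t) : MatAt (stepRows e ρ N₀) x := by
  rintro (k | p) j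
  · exact HolAt.comp_fst e hx (hρ k j)
  · change HolAt (fun y => (if p = j then (e y).2 else 0) - N₀ p j (e y).1) x
    refine HolAt.sub ?_ (HolAt.comp_fst e hx (hN p j))
    by_cases h : p = j
    · simp only [if_pos h]
      exact MF3_hol2 e x
    · simp only [if_neg h]
      exact HolAt.const 0 x

/-- Proof. `Submodule.span_induction` (or `mem_span_fam`) for `hc`: `pv e hx (gv (ρ k) t) = gv (stepRows e ρ N₀ (Sum.inl k)) x` by `pv_gv`; `pv_add`,
`pv_smul`, `pv_zero`. -/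
theorem pv_mem_step (hρ : MatAt ρ t) {c : Fin s → (O X).St t} (hc : c ∈ rowSp ρ t) :
    pv e hx c ∈ rowSp (stepRows e ρ N₀) x := by
  induction hc using Submodule.span_induction with
  | mem c hc =>
    obtain ⟨k, rfl⟩ := hc
    change pv e hx (gv (ρ k) t) ∈ _
    rw [pv_gv e hx (fun j => hρ k j)]
    exact Submodule.subset_span ⟨Sum.inl k, rfl⟩
  | zero =>
    rw [pv_zero]
    exact Submodule.zero_mem _
  | add c c' _ _ h h' =>
    rw [pv_add]
    exact Submodule.add_mem _ h h'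
  | smul a c _ h =>
    rw [pv_smul]
    exact Submodule.smul_mem _ _ h

/-- Proof. `gv (stepRows e ρ N₀ (Sum.inr j)) x = om (fun y => (e y).2) x • Pi.single j 1 - pv e hx (gv (N₀ j) t)` (germs of a difference: `gm_add`, `gm_neg`, or
`om_add`; `pv_gv`), and `w = ∑ j, w j • Pi.single j 1`. So the vector is `∑ j, w j • gv (stepRows e ρ N₀ (Sum.inr j)) x`. -/
theorem vN_mem_step (hN : MatAt N₀ t) (w : Fin s → (O Z).St x) :
    om (fun y => (e y).2) x • w - ∑ j, w j • pv e hx (gv (N₀ j) t) ∈ rowSp (stepRows e ρ N₀) x := by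
  have hrow : ∀ j, gv (stepRows e ρ N₀ (Sum.inr j)) x =
      om (fun y => (e y).2) x • (Pi.single j 1 : Fin s → (O Z).St x) - pv e hx (gv (N₀ j) t) := by
    intro j
    rw [pv_gv e hx (fun l => hN j l)]
    exact MF3_row (MF3_hol2 e x) (fun l => HolAt.comp_fst e hx (hN j l)) j
  have h1 : om (fun y => (e y).2) x • w - ∑ j, w j • pv e hx (gv (N₀ j) t) =
      ∑ j, w j • gv (stepRows e ρ N₀ (Sum.inr j)) x := by
    rw [MF3_sum (om _ x) w fun j => pv e hx _]
    exact Finset.sum_congr rfl fun j _ => congrArg _ (hrow j).symm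
  rw [h1]
  exact Submodule.sum_mem _ fun j _ => Submodule.smul_mem _ _ (Submodule.subset_span ⟨Sum.inr j, rfl⟩)

/-- Proof. `eq_top_of_mon_ne` with `φ y = (e y).2`, `vN_mem_step`, `pv_mem_step`; the polynomial of `hG.kill` (take the `∀ᶠ` at the point `b`) does not
vanish at `(e x).2` because its zeros satisfy `‖v - c₀‖ < r' < R₀ ≤ ‖(e x).2 - c₀‖`. -/
theorem step_top [FiniteDimensional ℂ Z] {c₀ : ℂ} {R₀ : ℝ} (hG : Good1 ρ N₀ c₀ R₀ t)
    (hv : R₀ ≤ ‖(e x).2 - c₀‖) : rowSp (stepRows e ρ N₀) x = ⊤ := by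
  obtain ⟨l, a, r', ha, hr', hk⟩ := hG.kill
  have hk' := hk.self_of_nhds
  refine eq_top_of_mon_ne e hx (MF3_hol2 e x) _ (vN_mem_step e hx hG.hN) ha
    (fun c => pv_mem_step e hx hG.hρ (hk'.2 c)) fun h0 => ?_
  exact absurd (hk'.1 _ h0) (not_lt.2 (hr'.le.trans hv))

end step

section big

variable (e : V ≃L[ℂ] X × (Fin d → ℂ)) {x : V} {t : X} (hx : (e x).1 = t) {ρ : ι → Fin s → X → ℂ}
  {N : Fin d → Fin s → Fin s → X → ℂ}

include hx

/-- Proof. As `stepRows_matAt`. -/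
theorem bigRows_matAt (hρ : MatAt ρ t) (hN : ∀ i, MatAt (N i) t) : MatAt (bigRows e ρ N) x := by
  rintro (k | p) j
  · exact HolAt.comp_fst e hx (hρ k j)
  · change HolAt (fun y => (if p.2 = j then (e y).2 p.1 else 0) - N p.1 p.2 j (e y).1) x
    refine HolAt.sub ?_ (HolAt.comp_fst e hx (hN p.1 p.2 j))
    by_cases h : p.2 = j
    · simp only [if_pos h]
      exact MF3_hold e x p.1
    · simp only [if_neg h]
      exact HolAt.const 0 x

/-- Proof. As `pv_mem_step`. -/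
theorem pv_mem_big (hρ : MatAt ρ t) {c : Fin s → (O X).St t} (hc : c ∈ rowSp ρ t) :
    pv e hx c ∈ rowSp (bigRows e ρ N) x := by
  induction hc using Submodule.span_induction with
  | mem c hc =>
    obtain ⟨k, rfl⟩ := hc
    change pv e hx (gv (ρ k) t) ∈ _
    rw [pv_gv e hx (fun j => hρ k j)]
    exact Submodule.subset_span ⟨Sum.inl k, rfl⟩
  | zero =>
    rw [pv_zero]
    exact Submodule.zero_mem _
  | add c c' _ _ h h' =>
    rw [pv_add]
    exact Submodule.add_mem _ h h'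
  | smul a c _ h =>
    rw [pv_smul]
    exact Submodule.smul_mem _ _ h

/-- Proof. As `vN_mem_step`, with the rows `Sum.inr (i, j)`. -/
theorem vN_mem_big (hN : ∀ i, MatAt (N i) t) (i : Fin d) (w : Fin s → (O V).St x) :
    om (fun y => (e y).2 i) x • w - ∑ j, w j • pv e hx (gv (N i j) t) ∈ rowSp (bigRows e ρ N) x := by
  have hrow : ∀ j, gv (bigRows e ρ N (Sum.inr (i, j))) x =
      om (fun y => (e y).2 i) x • (Pi.single j 1 : Fin s → (O V).St x) - pv e hx (gv (N i j) t) := by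
    intro j
    rw [pv_gv e hx (fun l => hN i j l)]
    exact MF3_row (MF3_hold e x i) (fun l => HolAt.comp_fst e hx (hN i j l)) j
  have h1 : om (fun y => (e y).2 i) x • w - ∑ j, w j • pv e hx (gv (N i j) t) =
      ∑ j, w j • gv (bigRows e ρ N (Sum.inr (i, j))) x := by
    rw [MF3_sum (om _ x) w fun j => pv e hx _]
    exact Finset.sum_congr rfl fun j _ => congrArg _ (hrow j).symm
  rw [h1]
  exact Submodule.sum_mem _ fun j _ =>
    Submodule.smul_mem _ _ (Submodule.subset_span ⟨Sum.inr (i, j), rfl⟩)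

/-- Proof. As `step_top` (`eq_top_of_mon_ne` with `φ y = (e y).2 i`). -/
theorem big_top [FiniteDimensional ℂ V] {cc : Fin d → ℂ} {RR : Fin d → ℝ} (hG : Good ρ N cc RR t)
    {i : Fin d} (hv : RR i ≤ ‖(e x).2 i - cc i‖) : rowSp (bigRows e ρ N) x = ⊤ := by
  obtain ⟨l, a, r', ha, hr', hk⟩ := hG.kill i
  have hk' := hk.self_of_nhds
  refine eq_top_of_mon_ne e hx (MF3_hold e x i) _ (vN_mem_big e hx hG.hN i) ha
    (fun c => pv_mem_big e hx hG.hρ (hk'.2 c)) fun h0 => ?_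
  exact absurd (hk'.1 _ h0) (not_lt.2 (hr'.le.trans hv))

end big

end MF

end Pool.Agent.DQ
end

section

/-! Campaign DQ, module M12, block (f), file MF4a: global representatives over compact fibres. -/

set_option autoImplicit false
set_option linter.unusedVariables false

open Set Filter Topology

namespace Pool.Agent.DQ

namespace MF

section basic

variable {Z : Type} [NormedAddCommGroup Z] [NormedSpace ℂ Z] {ι κ : Type} {s : ℕ}

/-- `SecMod` is an open condition. Proof. `HolAt.eventually`, `eventually_all`, `eventually_eventually_nhds`. -/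
theorem SecMod.ev {A : ι → Fin s → Z → ℂ} {u : (x : Z) → Fin s → (O Z).St x} {x : Z}
    (h : SecMod A u x) : ∀ᶠ y in 𝓝 x, SecMod A u y := by
  obtain ⟨a, ha, h⟩ := h
  filter_upwards [eventually_all.mpr fun j => (ha j).eventually, eventually_eventually_nhds.mpr h]
    with y h1 h2
  exact ⟨a, h1, h2⟩

/-- Proof. Rewrite with `h`. -/
theorem SecMod.congr_rows {A : ι → Fin s → Z → ℂ} {B : κ → Fin s → Z → ℂ}
    (h : ∀ x, rowSp A x = rowSp B x) {u : (x : Z) → Fin s → (O Z).St x} {x : Z} :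
    SecMod A u x ↔ SecMod B u x := by
  unfold SecMod
  simp only [h]

/-- Proof. `a` from `hu`: near `x` the classes `mk A y (u y)` and `mk A y (gv a y)` agree (`mk_eq`); `cok_at_mk`, `(cok A).congr`. -/
theorem SecMod.at_mk [Finite ι] {A : ι → Fin s → Z → ℂ} {u : (x : Z) → Fin s → (O Z).St x} {x : Z}
    (hA : MatAt A x) (hu : SecMod A u x) : (cok A).At (fun y => mk A y (u y)) x := by
  obtain ⟨a, ha, h⟩ := hu
  refine (cok A).congr (cok_at_mk A hA ha) ?_
  filter_upwards [h] with y hy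
  exact ((mk_eq A).2 hy).symm

/-- Proof. `cok_at_exists` and `mk_eq`. -/
theorem secMod_of_at_mk [Finite ι] {A : ι → Fin s → Z → ℂ} {u : (x : Z) → Fin s → (O Z).St x} {x : Z}
    (h : (cok A).At (fun y => mk A y (u y)) x) : SecMod A u x := by
  obtain ⟨a, ha, h⟩ := cok_at_exists A h
  refine ⟨a, ha, ?_⟩
  filter_upwards [h] with y hy
  exact (mk_eq A).1 hy

/-- If the vector of germs of `a` at `x` is in the row space, so it is near `x`.

Proof. `SecMod.at_mk`-like: `fun y => mk A y (gv a y)` and `0` are sections of `cok A` near `x` with the same value at `x` (`mk_eq_zero`); `(cok A).inj`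
(`cok_at_mk`, `(cok A).zero`). -/
theorem gv_mem_near [Finite ι] {A : ι → Fin s → Z → ℂ} {x : Z} (hA : MatAt A x)
    {a : Fin s → Z → ℂ} (ha : ∀ j, HolAt (a j) x) (h : gv a x ∈ rowSp A x) :
    ∀ᶠ y in 𝓝 x, gv a y ∈ rowSp A y := by
  have h1 := (cok A).inj (cok_at_mk A hA ha) ((cok A).zero x ((mem_cok_dom A).2 hA))
    ((mk_eq_zero A).2 h)
  filter_upwards [h1] with y hy
  exact (mk_eq_zero A).1 hy

end basic

private theorem MF4a_restr {Z : Type} [NormedAddCommGroup Z] [NormedSpace ℂ Z]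
    {M : EMod.{0, 0, 0} (O Z)} (U : Set Z) (hU : IsOpen U) {x : Z} (hx : x ∈ U)
    (h : M.CohAt x) : (restr M U hU).CohAt x := by
  refine ⟨⟨h.1, hx⟩, ?_, fun n g hg => h.2.2 n g fun i => (hg i).1⟩
  obtain ⟨n, g, hg, hgen⟩ := h.2.1
  exact ⟨n, g, fun i => ⟨hg i, hx⟩, hgen⟩

section fibre

variable {X Z : Type} [NormedAddCommGroup X] [NormedSpace ℂ X] [FiniteDimensional ℂ X]
  [NormedAddCommGroup Z] [NormedSpace ℂ Z] [FiniteDimensional ℂ Z] {ι : Type} [Finite ι] {s : ℕ}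

/-- **Representatives over a fibre disc.**

Proof. `F := cok A` is coherent at the points of the fibre and near it (`cok_cohAt`, `MatAt.ev`). `σ x := mk A x (u x)` is a section on the fibre
(`SecMod.at_mk`), the `cokE A j` generate (`cokE_gen`) and are sections (`cokE_at`). By `cartanB_fib` (file SFib1, with the box of `exists_disc_box c₀ R₀` for the closed disc)
`σ x = ∑ j, om (a j) x • cokE A j x = mk A x (gv a x)` (`mk_eq_sum`). Conclude with `mk_eq`. -/
theorem exists_rep (A : ι → Fin s → Z → ℂ) (e : Z ≃L[ℂ] X × ℂ) (c₀ : ℂ) (R₀ : ℝ) (b : X)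
    (hA : ∀ x ∈ fib e (Metric.closedBall c₀ R₀) b, MatAt A x)
    (u : (x : Z) → Fin s → (O Z).St x)
    (hu : ∀ x ∈ fib e (Metric.closedBall c₀ R₀) b, SecMod A u x) :
    ∃ a : Fin s → Z → ℂ, (∀ j, HolNear (a j) (fib e (Metric.closedBall c₀ R₀) b)) ∧
      ∀ x ∈ fib e (Metric.closedBall c₀ R₀) b, u x - gv a x ∈ rowSp A x := by
  obtain ⟨κ, hκ⟩ := exists_disc_box c₀ R₀
  rw [← hκ] at hA hu ⊢
  obtain ⟨a, ha, h⟩ := cartanB_fib (cok A) e κ (fun _ => c₀) (fun _ => -1) (fun _ => R₀) b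
    (fun x hx => (MatAt.ev (hA x hx)).mono fun y hy => cok_cohAt A hy) (cokE A)
    (fun j x hx => cokE_at A j (hA x hx)) (cokE_gen A _) (fun x => mk A x (u x))
    (fun x hx => SecMod.at_mk (hA x hx) (hu x hx))
  refine ⟨a, ha, fun x hx => ?_⟩
  refine (mk_eq A).1 ((h x hx).trans ?_)
  exact (mk_eq_sum A x (gv a x)).symm

/-- **Coefficients over a fibre disc.**

Proof. Let `F := (restr ((O Z).free s) {x | MatAt A x} _).sub (rowSp A) (rowSp_open A)` (the sheaf of row spaces). Take `w : κ ≃ Fin n`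
(`Fintype.equivFin κ`) and index the generators by `Fin n`. `F` is coherent at `x` with `MatAt A x`: `EMod.sub_cohAt` (file DCoh) for `M = restr ..` (coherent: `Oka`, i.e. `oka s`, transferred to the
restriction; or the unrestricted free module: `M.CohAt` only uses germs near `x`, see `EMod.restr_cohAt` in M7a.lean for the proof) with the generators `gv (A k)`.
The sections `EMod.toSub _ _ (gv (A k))` generate `F` on the fibre (`span_toSub`), `EMod.toSub _ _ (gv a)` is a section (`EMod.toSub_at`, `gv_at`, and `gv_mem_near` for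
`∀ᶠ y in 𝓝 x, gv a y ∈ rowSp A y`). `cartanB_fib` with the box of `exists_disc_box`; take the coercions to `Fin s → (O Z).St x`. -/
theorem exists_coeff {κ : Type} [Fintype κ] (A : κ → Fin s → Z → ℂ) (e : Z ≃L[ℂ] X × ℂ) (c₀ : ℂ)
    (R₀ : ℝ) (b : X) (hA : ∀ x ∈ fib e (Metric.closedBall c₀ R₀) b, MatAt A x) (a : Fin s → Z → ℂ)
    (ha : ∀ j, HolNear (a j) (fib e (Metric.closedBall c₀ R₀) b))
    (h : ∀ x ∈ fib e (Metric.closedBall c₀ R₀) b, gv a x ∈ rowSp A x) :
    ∃ α : κ → Z → ℂ, (∀ k, HolNear (α k) (fib e (Metric.closedBall c₀ R₀) b)) ∧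
      ∀ x ∈ fib e (Metric.closedBall c₀ R₀) b, gv a x = ∑ k, om (α k) x • gv (A k) x := by
  classical
  obtain ⟨δ, hδ⟩ := exists_disc_box c₀ R₀
  rw [← hδ] at hA ha h ⊢
  let w : κ ≃ Fin (Fintype.card κ) := Fintype.equivFin κ
  let M := restr ((O Z).free s) {x | MatAt A x} (isOpen_matAt A)
  let F := M.sub (rowSp A) (rowSp_open A)
  let g : Fin (Fintype.card κ) → (x : Z) → M.St x := fun k => gv (A (w.symm k))
  have hrow : ∀ y, rowSp A y = Submodule.span ((O Z).St y) (range fun k => g k y) := by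
    intro y
    have h1 : (range fun k => g k y) = range fun k => gv (A k) y := by
      ext v
      constructor
      · rintro ⟨k, rfl⟩
        exact ⟨w.symm k, rfl⟩
      · rintro ⟨k, rfl⟩
        refine ⟨w k, ?_⟩
        change gv (A (w.symm (w k))) y = gv (A k) y
        rw [Equiv.symm_apply_apply]
    rw [h1]
    rfl
  have hgat : ∀ x, MatAt A x → ∀ k, M.At (g k) x := fun x hx k => ⟨gv_at (hx (w.symm k)), hx⟩
  have hcoh : F.Coh (fib e (cbox δ (fun _ => c₀) (fun _ => -1) (fun _ => R₀)) b) := by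
    intro x hx
    filter_upwards [MatAt.ev (hA x hx), oka (V := Z) s x (mem_univ x)] with y hy hy'
    exact M.sub_cohAt (rowSp A) (rowSp_open A) (MF4a_restr _ _ hy hy') g (hgat y hy)
      (Eventually.of_forall hrow)
  obtain ⟨α, hα, hs⟩ := cartanB_fib F e δ (fun _ => c₀) (fun _ => -1) (fun _ => R₀) b hcoh
    (fun k => M.toSub (rowSp A) (g k))
    (fun k x hx => M.toSub_at (rowSp A) (rowSp_open A) (hgat x (hA x hx) k)
      (Eventually.of_forall fun y => by
        rw [hrow y]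
        exact Submodule.subset_span ⟨k, rfl⟩))
    (fun x hx => span_toSub M (rowSp A) g (hrow x))
    (M.toSub (rowSp A) (gv a))
    (fun x hx => M.toSub_at (rowSp A) (rowSp_open A)
      ⟨gv_at fun j => ha j x hx, hA x hx⟩ (gv_mem_near (hA x hx) (fun j => ha j x hx) (h x hx)))
  refine ⟨fun k => α (w k), fun k => hα (w k), fun x hx => ?_⟩
  have h1 : (rowSp A x).subtype (show rowSp A x from M.toSub (rowSp A) (gv a) x) =
      (rowSp A x).subtype (∑ k, om (α k) x • (show rowSp A x from M.toSub (rowSp A) (g k) x)) :=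
    congrArg (rowSp A x).subtype (hs x hx)
  have h2 : ∀ k, (rowSp A x).subtype (show rowSp A x from M.toSub (rowSp A) (g k) x) = g k x :=
    fun k => M.coe_toSub (rowSp A) (g k) (by
      rw [hrow x]
      exact Submodule.subset_span ⟨k, rfl⟩)
  have h3 : (rowSp A x).subtype (show rowSp A x from M.toSub (rowSp A) (gv a) x) = gv a x :=
    M.coe_toSub (rowSp A) (gv a) (h x hx)
  rw [map_sum] at h1
  refine h3.symm.trans (h1.trans ?_)
  have h4 : ∀ k, (rowSp A x).subtype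
      (om (α k) x • (show rowSp A x from M.toSub (rowSp A) (g k) x)) =
        om (α k) x • (show Fin s → (O Z).St x from g k x) := by
    intro k
    rw [map_smul, h2]
  refine (Finset.sum_congr rfl fun k _ => h4 k).trans ?_
  refine (Equiv.sum_comp w
    (fun k => om (α k) x • (show Fin s → (O Z).St x from g k x))).symm.trans ?_
  refine Finset.sum_congr rfl fun k _ => ?_
  change om (α (w k)) x • gv (A (w.symm (w k))) x = _
  rw [Equiv.symm_apply_apply]

end fibre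

end MF

end Pool.Agent.DQ
end

section

/-! # DQ, module G, task GM3: the direct image of a sheaf without embedded part is torsion free -/

set_option autoImplicit false

open Set Filter Topology Module RingTheory.Sequence

universe u w

namespace Pool.Agent.DQ

variable {V : Type} [NormedAddCommGroup V] [NormedSpace ℂ V] [FiniteDimensional ℂ V]
  {B : Type} [NormedAddCommGroup B] [NormedSpace ℂ B] [FiniteDimensional ℂ B]

/-- **Torsion freeness of the direct image.**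

Proof. By `EMod.push_ext` it is enough that `μ = pushVal b m x` is zero for every `x` in the fibre (the value of `0` is `0`: `EMod.pushVal_add` with `m = m' = 0`). Let `x ∈ fib e D b`, so `(e x).1 = b` (subst). Represent the germ `a = gm α b` (`exists_gm`). `om (α ∘ …) x • μ = pushVal (om α b • m) x = pushVal 0 x = 0`
(`EMod.pushVal_smul`). `finite_monic` (with `κ = ContinuousLinearEquiv.refl`, `D = cbox … `; `t = b`) gives for every `i` `l i`, `a i` with `om (mon (a i) …) x • μ = 0` (take `t' = b`, `Eventually.self_of_nhds`). So the annihilator of `μ` contains the elements of `gradeGE_fibre`, hence has grade `≥ d + 1`,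
also as `IdealGrade` (`idealGrade_iff`; `Module.annihilator R (span {μ})` is the set of `r` with `r • μ = 0`: `Submodule.mem_annihilator_span_singleton`). `hpure` gives `μ = 0`. -/
theorem push_torsionFree (d : ℕ) (F : EMod.{0, 0, w} (O V)) (e : V ≃L[ℂ] B × (Fin d → ℂ)) (c : Fin d → ℂ) {ρ : ℝ}
    (hρ : 0 < ρ) (hD : IsCompact (cbox (ContinuousLinearEquiv.refl ℂ (Fin d → ℂ)) c (-1) fun _ => ρ)) (b : B)
    (hcoh : F.Coh (fib e (cbox (ContinuousLinearEquiv.refl ℂ (Fin d → ℂ)) c (-1) fun _ => ρ) b))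
    (hzero : ∀ x ∈ fib e (cbox (ContinuousLinearEquiv.refl ℂ (Fin d → ℂ)) c (-1) fun _ => ρ) b,
      (e x).2 ∉ box (ContinuousLinearEquiv.refl ℂ (Fin d → ℂ)) c (-1) (fun _ => ρ) → Subsingleton (F.St x))
    (hpure : ∀ x ∈ fib e (cbox (ContinuousLinearEquiv.refl ℂ (Fin d → ℂ)) c (-1) fun _ => ρ) b,
      NoGrade ((O V).St x) (F.St x) (d + 1))
    (a : (O B).St b) (ha : a ≠ 0) (m : (F.push e _ hD).St b) (ham : a • m = 0) : m = 0 := by
  have hz : ∀ x (hx : x ∈ fib e (cbox (ContinuousLinearEquiv.refl ℂ (Fin d → ℂ)) c (-1) fun _ => ρ) b),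
      F.pushVal e _ hD b 0 x hx = 0 := by
    intro x hx
    have h1 := F.pushVal_add e _ hD b 0 0 x hx
    rw [add_zero] at h1
    exact left_eq_add.mp h1
  apply F.push_ext e _ hD b m 0
  intro x hx
  rw [hz x hx]
  have hx' := hx
  obtain ⟨hxb, hxD⟩ := hx'
  subst hxb
  obtain ⟨α, hα, hαa⟩ := exists_gm (show OGerm (e x).1 from a)
  have hα0 : (gm α (e x).1 : OGerm (e x).1) ≠ 0 := by
    rw [hαa]
    exact ha
  choose l A hA hAk using fun i => finite_monic F e (ContinuousLinearEquiv.refl ℂ (Fin d → ℂ)) c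
    (fun _ => ρ) (fun _ => hρ) (e x).1 hcoh hzero i
  set μ : F.St x := F.pushVal e _ hD (e x).1 m x hx with hμ
  refine hpure x hx μ (idealGrade_iff.mpr ?_)
  refine gradeGE_fibre e x hα hα0 l A hA (Module.annihilator ((O V).St x)
    (Submodule.span ((O V).St x) {μ})) ?_ ?_
  · have h1 : om (fun y => α (e y).1) x • μ = 0 := by
      rw [hμ, ← F.pushVal_smul_om e _ hD (e x).1 hα m x hx]
      have h2 : om α (e x).1 • m = 0 := by
        have h3 : om α (e x).1 = a := hαa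
        rw [h3, ham]
      rw [h2, hz x hx]
    have h4 := (Submodule.mem_annihilator_span_singleton (R := (O V).St x) μ
      (om (fun y => α (e y).1) x)).mpr h1
    exact h4
  · intro i
    have h1 : om (fun y => mon (A i) (e y).1 ((e y).2 i)) x • μ = 0 :=
      ((hAk i).self_of_nhds).2 x hx μ
    have h4 := (Submodule.mem_annihilator_span_singleton (R := (O V).St x) μ
      (om (fun y => mon (A i) (e y).1 ((e y).2 i)) x)).mpr h1
    exact h4

end Pool.Agent.DQ
end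

section

/-! # DQ, module G, task GZ4: the direct image is coherent, and locally free outside codimension two -/

set_option autoImplicit false

open Set Filter Topology Module

universe w

namespace Pool.Agent.DQ

variable {V : Type} [NormedAddCommGroup V] [NormedSpace ℂ V] [FiniteDimensional ℂ V]
  {B : Type} [NormedAddCommGroup B] [NormedSpace ℂ B] [FiniteDimensional ℂ B]

/-- A ball for the maximum norm is a polydisc. Proof. `Metric.mem_closedBall`, `dist_eq_norm`, `pi_norm_le_iff_of_nonneg`; `-1 ≤ ‖_‖` is always true. -/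
theorem closedBall_eq_cbox {d : ℕ} (c : Fin d → ℂ) {R : ℝ} (hR : 0 < R) :
    Metric.closedBall c R = cbox (ContinuousLinearEquiv.refl ℂ (Fin d → ℂ)) c (-1) fun _ => R := by
  ext x
  rw [Metric.mem_closedBall, dist_eq_norm, pi_norm_le_iff_of_nonneg hR.le]
  constructor
  · intro h i
    refine ⟨?_, h i⟩
    rw [Pi.neg_apply, Pi.one_apply]
    linarith [norm_nonneg ((ContinuousLinearEquiv.refl ℂ (Fin d → ℂ)) x i - c i)]
  · intro h i
    exact (h i).2

/-- Proof. `subst hD`; proof irrelevance. -/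
theorem push_congr (F : EMod.{0, 0, w} (O V)) {W : Type} [NormedAddCommGroup W] [NormedSpace ℂ W] (e : V ≃L[ℂ] B × W)
    {D D' : Set W} (h : D = D') (hD : IsCompact D) (hD' : IsCompact D') : F.push e D hD = F.push e D' hD' := by
  subst h
  rfl

/-- **The direct image over the complement of the projection of `Y`.**

Proof. Let `D = closedBall c Rv`, `D' = cbox refl c (-1) (fun _ => Rv)`, equal by `closedBall_eq_cbox`; by `push_congr` we may work with `D'`. Let `b` be in the set. All `x ∈ fib e D' b` satisfy `‖(e x).1 - b₀‖ < ρ₀` and `‖(e x).2 - c‖ ≤ Rv`, so they are in `U \ Y`, and `M₀.Coh (fib e D' b)` follows from `hM`. If `(e x).2 ∉ box refl c (-1) (fun _ => Rv)` then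
`‖(e x).2 i - c i‖ ≥ Rv` for some `i`, so `‖(e x).2 - c‖ = Rv` (`norm_le_pi_norm`), and `M₀.St x = 0` by `hbd`. `finite_mapping` (with `κ = refl`, `R = fun _ => Rv`) gives `CohAt b`; `push_torsionFree` gives the torsion freeness; `gCodim_sing` concludes. -/
theorem push_facts (d : ℕ) {M₀ : EMod.{0, 0, w} (O V)} {Y U : Set V} (hM : M₀.Coh (U \ Y))
    (hpure : ∀ x ∈ U \ Y, NoGrade ((O V).St x) (M₀.St x) (d + 1)) (e : V ≃L[ℂ] B × (Fin d → ℂ)) {b₀ : B}
    {c : Fin d → ℂ} {Rv ρ₀ : ℝ} (hRv : 0 < Rv) (hsub : ∀ x, ‖(e x).1 - b₀‖ < ρ₀ → ‖(e x).2 - c‖ ≤ Rv → x ∈ U)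
    (hbd : ∀ x, ‖(e x).1 - b₀‖ < ρ₀ → ‖(e x).2 - c‖ = Rv → x ∉ Y ∧ Subsingleton (M₀.St x)) (b : B)
    (hb : ‖b - b₀‖ < ρ₀) (hbY : ∀ x, (e x).1 = b → ‖(e x).2 - c‖ ≤ Rv → x ∉ Y) :
    (M₀.push e (Metric.closedBall c Rv) (isCompact_closedBall _ _)).CohAt b ∧
      GCodim (Sing (M₀.push e (Metric.closedBall c Rv) (isCompact_closedBall _ _))) 2 b := by
  have hcb := closedBall_eq_cbox c hRv
  have hD' : IsCompact (cbox (ContinuousLinearEquiv.refl ℂ (Fin d → ℂ)) c (-1) fun _ => Rv) :=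
    hcb ▸ isCompact_closedBall c Rv
  rw [push_congr M₀ e hcb (isCompact_closedBall _ _) hD']
  have hmem : ∀ x ∈ fib e (cbox (ContinuousLinearEquiv.refl ℂ (Fin d → ℂ)) c (-1) fun _ => Rv) b,
      ‖(e x).1 - b₀‖ < ρ₀ ∧ ‖(e x).2 - c‖ ≤ Rv := by
    intro x hx
    refine ⟨by rw [hx.1]; exact hb, ?_⟩
    have h1 : (e x).2 ∈ Metric.closedBall c Rv := hcb ▸ hx.2
    rwa [Metric.mem_closedBall, dist_eq_norm] at h1
  have hUY : ∀ x ∈ fib e (cbox (ContinuousLinearEquiv.refl ℂ (Fin d → ℂ)) c (-1) fun _ => Rv) b, x ∈ U \ Y :=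
    fun x hx => ⟨hsub x (hmem x hx).1 (hmem x hx).2, hbY x hx.1 (hmem x hx).2⟩
  have hcoh : M₀.Coh (fib e (cbox (ContinuousLinearEquiv.refl ℂ (Fin d → ℂ)) c (-1) fun _ => Rv) b) :=
    fun x hx => hM x (hUY x hx)
  have hzero : ∀ x ∈ fib e (cbox (ContinuousLinearEquiv.refl ℂ (Fin d → ℂ)) c (-1) fun _ => Rv) b,
      (e x).2 ∉ box (ContinuousLinearEquiv.refl ℂ (Fin d → ℂ)) c (-1) (fun _ => Rv) → Subsingleton (M₀.St x) := by
    intro x hx hnb
    refine (hbd x (hmem x hx).1 (le_antisymm (hmem x hx).2 ?_)).2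
    by_contra hlt
    rw [not_le] at hlt
    refine hnb fun i => ?_
    refine ⟨?_, ?_⟩
    · rw [Pi.neg_apply, Pi.one_apply]
      linarith [norm_nonneg ((ContinuousLinearEquiv.refl ℂ (Fin d → ℂ)) (e x).2 i - c i)]
    · exact (norm_le_pi_norm ((e x).2 - c) i).trans_lt hlt
  have hC := finite_mapping M₀ e (ContinuousLinearEquiv.refl ℂ (Fin d → ℂ)) c (fun _ => Rv) (fun _ => hRv) hD' b
    hcoh hzero
  refine ⟨hC, gCodim_sing _ hC fun a m ha ham => ?_⟩
  exact push_torsionFree d M₀ e c hRv hD' b hcoh hzero (fun x hx => hpure x (hUY x hx)) a ha m ham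

end Pool.Agent.DQ
end
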