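import Pool.Agent.Lib.MP_4aa2a9_ag.Mg.G016
import Pool.Agent.Lib.MP_4aa2a9_ag.Mg.G021

section

/-! Cartan B and completeness over open boxes. -/

set_option autoImplicit false

open Set Filter Topology

universe u v w

namespace Pool.Agent.DQ

variable {V : Type u} [NormedAddCommGroup V] [NormedSpace ℂ V] [FiniteDimensional ℂ V]
  (𝓐 : Defo.{u, v} V)

variable {n : ℕ} (κ : V ≃L[ℂ] (Fin n → ℂ)) (c : Fin n → ℂ) (r R : Fin n → ℝ)

theorem Defo.cartanB_open (F : EMod.{u, v, w} 𝓐.A) (hF : F.Coh (cbox κ c r R))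
    (htf : TF 𝓐 F (cbox κ c r R)) (hrR : GoodRadii r R) {p : ℕ}
    (g : Fin p → (x : V) → F.St x) (hg : ∀ i, F.On (g i) (cbox κ c r R))
    (hgen : F.Gen g (cbox κ c r R)) (s : (x : V) → F.St x) (hs : F.On s (box κ c r R)) :
    ∃ a : Fin p → (x : V) → 𝓐.A.St x, (∀ i, ∀ x ∈ box κ c r R, 𝓐.A.At (a i) x) ∧
      ∀ x ∈ box κ c r R, s x = ∑ i, a i x • g i x := by
  obtain ⟨F₀, ρ, h⟩ := exists_isRed 𝓐 F
  have hbc := box_subset_cbox κ c r R
  have hUM : box κ c r R ⊆ F.dom := fun x hx => (hF.cohAt (hbc hx)).1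
  have hUd : box κ c r R ⊆ 𝓐.A.dom := hUM.trans F.dom_sub
  have hU := isOpen_box κ c r R
  refine 𝓐.iterate hU hUM (fun x hx => (hF.cohAt (hbc hx)).sepAt) g (fun _ => True) ?_ s hs trivial
  intro s hs _
  obtain ⟨a, ha, hsa⟩ := DQ.cartanB_open κ c r R hrR F₀ (h.coh' hF) (fun i y => ρ y (g i y))
    (fun i y hy => h.at_map (hg i y hy))
    (fun y hy => h.span_eq_top ((hF.cohAt hy).1) (hgen y hy)) (fun y => ρ y (s y))
    (fun y hy => h.at_map (hs y hy))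
  obtain ⟨C, hC, hCa⟩ := 𝓐.lift_fam hU hUd (fun i x hx => at_om (ha i x hx))
  obtain ⟨t, ht, hts⟩ := 𝓐.div_mod (M := F) hU hUM (fun x hx => htf x (hbc hx))
    (s := s - fun y => ∑ i, C i y • g i y)
    (fun y hy => F.sub' (hs y hy) (F.comb (hUM hy) (fun i => hC i y hy)
      fun i => hg i y (hbc hy))) (fun y hy => by
        apply (h.ker y (hUM hy) _).1
        rw [Pi.sub_apply, h.map_sub (hUM hy), h.comb (hUM hy), hsa y hy, sub_eq_zero]
        exact Finset.sum_congr rfl fun i _ => by rw [hCa i y hy])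
  refine ⟨C, t, hC, ht, trivial, fun y hy => ?_⟩
  rw [← hts y hy, Pi.sub_apply]
  abel

/-- completeness of a coherent torsion-free module over an open box, given generators -/
theorem Defo.complete_mod_of_gen (F : EMod.{u, v, w} 𝓐.A) (hrR : GoodRadii r R)
    (hF : F.Coh (cbox κ c r R)) (htf : TF 𝓐 F (cbox κ c r R)) {p : ℕ}
    (g : Fin p → (x : V) → F.St x) (hg : ∀ i, F.On (g i) (cbox κ c r R))
    (hgen : F.Gen g (cbox κ c r R))
    (s : ℕ → ∀ x, F.St x) (hs : ∀ k, F.On (s k) (box κ c r R)) :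
    ∃ t : ∀ x, F.St x, F.On t (box κ c r R) ∧ ∀ k : ℕ, ∀ x ∈ box κ c r R,
      ∃ m, t x = (∑ i ∈ Finset.range k, 𝓐.hb x ^ i • s i x) + 𝓐.hb x ^ k • m := by
  have hbc := box_subset_cbox κ c r R
  have hUM : box κ c r R ⊆ F.dom := fun x hx => (hF.cohAt (hbc hx)).1
  have hUd : box κ c r R ⊆ 𝓐.A.dom := hUM.trans F.dom_sub
  choose a ha hsa using fun k => 𝓐.cartanB_open κ c r R F hF htf hrR g hg hgen (s k) (hs k)
  choose D hD hDk using fun i => 𝓐.complete (U := box κ c r R) (fun k => a k i)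
    (isOpen_box κ c r R) hUd (fun k x hx => ha k i x hx)
  refine ⟨fun y => ∑ i, D i y • g i y, fun y hy => F.comb (hUM hy) (fun i => hD i y hy)
    (fun i => hg i y (hbc hy)), ?_⟩
  intro k x hx
  choose b hb using fun i => hDk i k x hx
  refine ⟨∑ i, b i • g i x, ?_⟩
  have h1 : ∀ j, 𝓐.hb x ^ j • s j x = ∑ i, (𝓐.hb x ^ j * a j i x) • g i x := by
    intro j
    rw [hsa j x hx, Finset.smul_sum]
    exact Finset.sum_congr rfl fun i _ => by rw [smul_smul]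
  simp only [hb, h1, add_smul, Finset.sum_add_distrib, Finset.smul_sum, mul_smul, Finset.sum_smul]
  congr 1
  rw [Finset.sum_comm]

end Pool.Agent.DQ
end

section

/-! Lifting of sections modulo powers of `ħ` (torsors). -/

set_option autoImplicit false

open Set Filter Topology

universe u v w

namespace Pool.Agent.DQ

section general

variable {V : Type u} [NormedAddCommGroup V] [NormedSpace ℂ V] (𝓐 : Defo.{u, v} V)

/-- `τ` is, modulo `ħ ^ k`, a section near `x` -/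
def AtMod (F : EMod.{u, v, w} 𝓐.A) (k : ℕ) (τ : (x : V) → F.St x) (x : V) : Prop :=
  ∃ t : (x : V) → F.St x, F.At t x ∧ ∀ᶠ y in 𝓝 x, ∃ m : F.St y, τ y = t y + 𝓐.hb y ^ k • m

variable {𝓐}

theorem AtMod.eventually {F : EMod.{u, v, w} 𝓐.A} {k : ℕ} {τ : (x : V) → F.St x} {x : V}
    (h : AtMod 𝓐 F k τ x) : ∀ᶠ y in 𝓝 x, AtMod 𝓐 F k τ y := by
  obtain ⟨t, ht, h⟩ := h
  filter_upwards [F.ev ht, eventually_eventually_nhds.mpr h] with y h1 h2
  exact ⟨t, h1, h2⟩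

theorem AtMod.congr {F : EMod.{u, v, w} 𝓐.A} {k : ℕ} {τ τ' : (x : V) → F.St x} {x : V}
    (h : AtMod 𝓐 F k τ x) (h' : ∀ᶠ y in 𝓝 x, τ y = τ' y) : AtMod 𝓐 F k τ' x := by
  obtain ⟨t, ht, h⟩ := h
  refine ⟨t, ht, ?_⟩
  filter_upwards [h, h'] with y h1 h2
  rw [← h2]
  exact h1

theorem tf_pow {F : EMod.{u, v, w} 𝓐.A} {x : V} (htf : ∀ m : F.St x, 𝓐.hb x • m = 0 → m = 0)
    (k : ℕ) {m : F.St x} (h : 𝓐.hb x ^ k • m = 0) : m = 0 := by
  induction k with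
  | zero => simpa using h
  | succ k ih =>
    rw [pow_succ', mul_smul] at h
    exact ih (htf _ h)

theorem tf_pow_inj {F : EMod.{u, v, w} 𝓐.A} {x : V} (htf : ∀ m : F.St x, 𝓐.hb x • m = 0 → m = 0)
    (k : ℕ) {m m' : F.St x} (h : 𝓐.hb x ^ k • m = 𝓐.hb x ^ k • m') : m = m' := by
  rw [← sub_eq_zero]
  apply tf_pow htf k
  rw [smul_sub, h, sub_self]

/-- a section which is divisible by `ħ ^ k` at a point is divisible near the point -/
theorem div_pow_near {F : EMod.{u, v, w} 𝓐.A} {k : ℕ} {x : V} {s : (x : V) → F.St x}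
    (hs : F.At s x) {m : F.St x} (hm : s x = 𝓐.hb x ^ k • m) :
    ∃ u : (x : V) → F.St x, F.At u x ∧ u x = m ∧ ∀ᶠ y in 𝓝 x, s y = 𝓐.hb y ^ k • u y := by
  have hx := F.mem_dom hs
  obtain ⟨u, hu, rfl⟩ := F.surj x hx m
  exact ⟨u, hu, rfl, F.inj hs (F.smul (𝓐.A.pow (𝓐.hb_at x (F.dom_sub hx)) k) hu) hm⟩

end general

variable {V : Type u} [NormedAddCommGroup V] [NormedSpace ℂ V] [FiniteDimensional ℂ V]
  {𝓐 : Defo.{u, v} V}

variable {n : ℕ} (κ : V ≃L[ℂ] (Fin n → ℂ)) (c : Fin n → ℂ) (r R : Fin n → ℝ)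

/-- one step: a section modulo `ħ ^ k` lifts to a section modulo `ħ ^ (k + 1)` -/
theorem torsor_step {F : EMod.{u, v, w} 𝓐.A} {F₀ : EMod.{u, u, w} (O V)}
    {ρ : ∀ x, F.St x → F₀.St x} (h : IsRed 𝓐 F F₀ ρ) (hrR : GoodRadii r R)
    (hF : F.Coh (cbox κ c r R)) (htf : TF 𝓐 F (cbox κ c r R))
    (L : ∀ x, F₀.St x → F.St x) (hL : ∀ x ∈ F.dom, ∀ m, ρ x (L x m) = m)
    (k : ℕ) (τ : (x : V) → F.St x) (hτ : ∀ x ∈ box κ c r R, AtMod 𝓐 F k τ x) :
    ∃ s : (x : V) → F₀.St x, ∀ x ∈ box κ c r R,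
      AtMod 𝓐 F (k + 1) (fun y => τ y + 𝓐.hb y ^ k • L y (s y)) x := by
  classical
  have hbc := box_subset_cbox κ c r R
  have hUM : box κ c r R ⊆ F.dom := fun x hx => (hF.cohAt (hbc hx)).1
  have hU := isOpen_box κ c r R
  refine (torsor κ c r R F₀ (h.coh' hF) (box κ c r R) (Or.inr ⟨rfl, hrR⟩)
    (G := F₀.St) (fun s x => x ∈ box κ c r R ∧
      AtMod 𝓐 F (k + 1) (fun y => τ y + 𝓐.hb y ^ k • L y (s y)) x) ?_ ?_ ?_ ?_ ?_).imp
      fun s hs x hx => (hs x hx).2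
  · rintro s x ⟨hx, h1⟩
    filter_upwards [hU.mem_nhds hx, h1.eventually] with y y1 y2
    exact ⟨y1, y2⟩
  · rintro s t x ⟨hx, h1⟩ h2
    refine ⟨hx, h1.congr ?_⟩
    filter_upwards [h2] with y y1
    rw [y1]
  · rintro f s x hf ⟨hx, t, ht, h1⟩
    obtain ⟨φ, hφ, hφf⟩ := h.lift_near hf
    have hxF := hUM hx
    refine ⟨hx, fun y => t y + 𝓐.hb y ^ k • φ y, F.add ht
      (F.smul (𝓐.A.pow (𝓐.hb_at x (F.dom_sub hxF)) k) hφ), ?_⟩
    filter_upwards [h1, hφf, F.isOpen_dom.mem_nhds hxF] with y y1 y2 y3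
    obtain ⟨m, hm⟩ := y1
    have e1 : ρ y (L y (f y + s y)) = ρ y (φ y + L y (s y)) := by
      rw [hL y y3, h.add y y3, y2, hL y y3]
    obtain ⟨l, hl⟩ := (h.eq_iff y3 _ _).1 e1
    refine ⟨m + l, ?_⟩
    have hv : (f y +ᵥ s y : F₀.St y) = f y + s y := rfl
    rw [hv, hl, smul_add, smul_add, smul_add, smul_smul (𝓐.hb y ^ k) (𝓐.hb y), ← pow_succ]
    calc τ y + (𝓐.hb y ^ k • φ y + 𝓐.hb y ^ k • L y (s y) + 𝓐.hb y ^ (k + 1) • l)
        = (τ y + 𝓐.hb y ^ k • L y (s y)) + (𝓐.hb y ^ k • φ y + 𝓐.hb y ^ (k + 1) • l) := by abel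
      _ = _ := by
        rw [hm]
        abel
  · rintro s s' x ⟨hx, t, ht, h1⟩ ⟨_, t', ht', h2⟩
    have hxF := hUM hx
    obtain ⟨m, hm⟩ := h1.self_of_nhds
    obtain ⟨m', hm'⟩ := h2.self_of_nhds
    have key : ∀ y (t t' a b m m' T : F.St y), T + 𝓐.hb y ^ k • a = t + 𝓐.hb y ^ (k + 1) • m →
        T + 𝓐.hb y ^ k • b = t' + 𝓐.hb y ^ (k + 1) • m' →
        t - t' = 𝓐.hb y ^ k • (a - b + 𝓐.hb y • (m' - m)) := by
      intro y t t' a b m m' T e e'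
      rw [smul_add, smul_sub, smul_smul (𝓐.hb y ^ k) (𝓐.hb y), ← pow_succ, smul_sub]
      have e1 : t = T + 𝓐.hb y ^ k • a - 𝓐.hb y ^ (k + 1) • m := by rw [e]; abel
      have e2 : t' = T + 𝓐.hb y ^ k • b - 𝓐.hb y ^ (k + 1) • m' := by rw [e']; abel
      rw [e1, e2]
      abel
    obtain ⟨u, hu, -, hdiv⟩ := div_pow_near (𝓐 := 𝓐) (F.sub' ht ht')
      (key x _ _ _ _ _ _ _ hm hm')
    refine F₀.congr (h.at_map hu) ?_
    filter_upwards [hdiv, h1, h2, hU.mem_nhds hx] with y y1 y2 y3 y4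
    obtain ⟨l, hl⟩ := y2
    obtain ⟨l', hl'⟩ := y3
    have e1 := key y _ _ _ _ _ _ _ hl hl'
    rw [Pi.sub_apply] at y1
    rw [y1] at e1
    have e2 := tf_pow_inj (htf y (hbc y4)) k e1
    have hyF := hUM y4
    have e3 : ρ y (𝓐.hb y • (l' - l)) = 0 := (h.ker y hyF _).2 ⟨_, rfl⟩
    rw [e2, h.add y hyF, h.map_sub hyF, hL y hyF, hL y hyF, e3, add_zero]
    rfl
  · intro x hx
    obtain ⟨t, ht, h1⟩ := hτ x hx
    have h2 : ∀ y, ∃ m : F.St y, (∃ m', τ y = t y + 𝓐.hb y ^ k • m') →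
        τ y = t y + 𝓐.hb y ^ k • m := by
      intro y
      by_cases h : ∃ m', τ y = t y + 𝓐.hb y ^ k • m'
      · obtain ⟨m', hm'⟩ := h
        exact ⟨m', fun _ => hm'⟩
      · exact ⟨0, fun h' => absurd h' h⟩
    choose m hm using h2
    refine ⟨fun y => - ρ y (m y), hx, t, ht, ?_⟩
    filter_upwards [h1, F.isOpen_dom.mem_nhds (hUM hx)] with y y1 y2
    have e1 : ρ y (L y (- ρ y (m y))) = ρ y (- m y) := by rw [hL y y2, h.map_neg y2]
    obtain ⟨l, hl⟩ := (h.eq_iff y2 _ _).1 e1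
    refine ⟨l, ?_⟩
    rw [hl, hm y y1, smul_add, smul_neg, smul_smul (𝓐.hb y ^ k) (𝓐.hb y), ← pow_succ]
    abel

end Pool.Agent.DQ
end

section

/-! Completeness of coherent modules, and lifting of sections of the reduction. -/

set_option autoImplicit false

open Set Filter Topology

universe u v w

namespace Pool.Agent.DQ

variable {V : Type u} [NormedAddCommGroup V] [NormedSpace ℂ V] [FiniteDimensional ℂ V]
  {𝓐 : Defo.{u, v} V}

variable {n : ℕ} (κ : V ≃L[ℂ] (Fin n → ℂ)) (c : Fin n → ℂ) (r R : Fin n → ℝ)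

/-- a compatible sequence of sections modulo the powers of `ħ` converges (on a box where the module
has generators) -/
theorem local_complete (F : EMod.{u, v, w} 𝓐.A) (hrR : GoodRadii r R)
    (hF : F.Coh (cbox κ c r R)) (htf : TF 𝓐 F (cbox κ c r R)) {p : ℕ}
    (g : Fin p → (x : V) → F.St x) (hg : ∀ i, F.On (g i) (cbox κ c r R))
    (hgen : F.Gen g (cbox κ c r R)) (τ : ℕ → (x : V) → F.St x)
    (hτ : ∀ k, ∀ x ∈ box κ c r R, AtMod 𝓐 F k (τ k) x)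
    (hcomp : ∀ k, ∀ x ∈ box κ c r R, ∃ m, τ (k + 1) x = τ k x + 𝓐.hb x ^ k • m) :
    ∃ t : (x : V) → F.St x, F.On t (box κ c r R) ∧
      ∀ k, ∀ x ∈ box κ c r R, ∃ m, t x = τ k x + 𝓐.hb x ^ k • m := by
  classical
  obtain ⟨F₀, ρ, h⟩ := exists_isRed 𝓐 F
  have hbc := box_subset_cbox κ c r R
  have hUM : box κ c r R ⊆ F.dom := fun x hx => (hF.cohAt (hbc hx)).1
  have hUd : box κ c r R ⊆ 𝓐.A.dom := hUM.trans F.dom_sub
  have hU := isOpen_box κ c r R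
  -- one step
  have step : ∀ (k : ℕ) (P : Fin p → (x : V) → 𝓐.A.St x),
      (∀ i, ∀ x ∈ box κ c r R, 𝓐.A.At (P i) x) →
      (∀ x ∈ box κ c r R, ∃ m, τ k x = ∑ i, P i x • g i x + 𝓐.hb x ^ k • m) →
      ∃ C : Fin p → (x : V) → 𝓐.A.St x, (∀ i, ∀ x ∈ box κ c r R, 𝓐.A.At (C i) x) ∧
        ∀ x ∈ box κ c r R, ∃ m, τ (k + 1) x =
          ∑ i, (P i x + 𝓐.hb x ^ k * C i x) • g i x + 𝓐.hb x ^ (k + 1) • m := by
    intro k P hP hPτ
    have h1 : ∀ x, ∃ μ : F.St x, x ∈ box κ c r R →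
        τ (k + 1) x = ∑ i, P i x • g i x + 𝓐.hb x ^ k • μ := by
      intro x
      by_cases hx : x ∈ box κ c r R
      · obtain ⟨m, hm⟩ := hPτ x hx
        obtain ⟨m', hm'⟩ := hcomp k x hx
        exact ⟨m + m', fun _ => by rw [hm', hm, smul_add]; abel⟩
      · exact ⟨0, fun h => absurd h hx⟩
    choose μ hμ using h1
    have h2 : F₀.On (fun y => ρ y (μ y)) (box κ c r R) := by
      intro x hx
      obtain ⟨t, ht, h3⟩ := hτ (k + 1) x hx
      have hPg : F.At (fun y => ∑ i, P i y • g i y) x :=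
        F.comb (hUM hx) (fun i => hP i x hx) fun i => hg i x (hbc hx)
      have key : ∀ y (a t μ m : F.St y), a + 𝓐.hb y ^ k • μ = t + 𝓐.hb y ^ (k + 1) • m →
          t - a = 𝓐.hb y ^ k • (μ - 𝓐.hb y • m) := by
        intro y a t μ m e
        rw [smul_sub, smul_smul, ← pow_succ]
        have : t = a + 𝓐.hb y ^ k • μ - 𝓐.hb y ^ (k + 1) • m := by rw [e]; abel
        rw [this]
        abel
      obtain ⟨m, hm⟩ := h3.self_of_nhds
      rw [hμ x hx] at hm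
      obtain ⟨u, hu, -, hdiv⟩ := div_pow_near (𝓐 := 𝓐) (F.sub' ht hPg) (key x _ _ _ _ hm)
      refine F₀.congr (h.at_map hu) ?_
      filter_upwards [hdiv, h3, hU.mem_nhds hx] with y y1 y2 y3
      obtain ⟨m, hm⟩ := y2
      rw [hμ y y3] at hm
      have e1 := key y _ _ _ _ hm
      rw [Pi.sub_apply] at y1
      rw [y1] at e1
      have e2 := tf_pow_inj (htf y (hbc y3)) k e1
      have hyF := hUM y3
      have e3 : ρ y (𝓐.hb y • m) = 0 := (h.ker y hyF _).2 ⟨_, rfl⟩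
      rw [e2, h.map_sub hyF, e3, sub_zero]
    obtain ⟨a, ha, hsa⟩ := DQ.cartanB_open κ c r R hrR F₀ (h.coh' hF) (fun i y => ρ y (g i y))
      (fun i y hy => h.at_map (hg i y hy))
      (fun y hy => h.span_eq_top ((hF.cohAt hy).1) (hgen y hy)) _ h2
    obtain ⟨C, hC, hCa⟩ := 𝓐.lift_fam hU hUd (fun i x hx => at_om (ha i x hx))
    refine ⟨C, hC, fun x hx => ?_⟩
    have hxF := hUM hx
    have e1 : ρ x (μ x) = ρ x (∑ i, C i x • g i x) := by
      rw [h.comb hxF]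
      refine (hsa x hx).trans (Finset.sum_congr rfl fun i _ => by rw [hCa i x hx])
    obtain ⟨l, hl⟩ := (h.eq_iff hxF _ _).1 e1
    refine ⟨l, ?_⟩
    rw [hμ x hx, hl, smul_add, smul_smul (𝓐.hb x ^ k) (𝓐.hb x), ← pow_succ, ← add_assoc]
    congr 1
    simp only [add_smul, Finset.sum_add_distrib, Finset.smul_sum, mul_smul]
  choose! nx hnx hnxτ using step
  let S : ℕ → Fin p → (x : V) → 𝓐.A.St x := fun k => Nat.rec (fun _ _ => 0)
    (fun k P => fun i x => P i x + 𝓐.hb x ^ k * nx k P i x) k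
  have hS : ∀ k, (∀ i, ∀ x ∈ box κ c r R, 𝓐.A.At (S k i) x) ∧
      (∀ x ∈ box κ c r R, ∃ m, τ k x = ∑ i, S k i x • g i x + 𝓐.hb x ^ k • m) := by
    intro k
    induction k with
    | zero =>
      refine ⟨fun i x hx => 𝓐.A.zero x (hUd hx), fun x hx => ⟨τ 0 x, ?_⟩⟩
      simp [S]
    | succ k ih =>
      refine ⟨fun i x hx => ?_, fun x hx => hnxτ k (S k) ih.1 ih.2 x hx⟩
      exact 𝓐.A.add (ih.1 i x hx) (𝓐.A.mul (𝓐.A.pow (𝓐.hb_at x (hUd hx)) k)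
        (hnx k (S k) ih.1 ih.2 i x hx))
  have hSsum : ∀ k i x, S k i x = ∑ j ∈ Finset.range k, 𝓐.hb x ^ j * nx j (S j) i x := by
    intro k i x
    induction k with
    | zero => simp [S]
    | succ k ih =>
      rw [Finset.sum_range_succ, ← ih]
  choose D hD hDk using fun i => 𝓐.complete (U := box κ c r R) (fun k => nx k (S k) i) hU hUd
    (fun k x hx => hnx k (S k) (hS k).1 (hS k).2 i x hx)
  refine ⟨fun y => ∑ i, D i y • g i y, fun y hy => F.comb (hUM hy) (fun i => hD i y hy)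
    (fun i => hg i y (hbc hy)), ?_⟩
  intro k x hx
  choose b hb using fun i => hDk i k x hx
  obtain ⟨m, hm⟩ := (hS k).2 x hx
  refine ⟨∑ i, b i • g i x - m, ?_⟩
  have e1 : ∀ i, D i x = S k i x + 𝓐.hb x ^ k * b i := fun i => by rw [hb i, hSsum]
  simp only [e1, add_smul, Finset.sum_add_distrib, mul_smul]
  rw [hm, smul_sub, Finset.smul_sum]
  abel

/-- a compatible sequence of sections modulo the powers of `ħ` converges, on any open set -/
theorem glue_complete (F : EMod.{u, v, w} 𝓐.A) {S : Set V} (hS : IsOpen S) (hF : F.Coh S)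
    (htf : TF 𝓐 F S) (τ : ℕ → (x : V) → F.St x) (hτ : ∀ k, ∀ x ∈ S, AtMod 𝓐 F k (τ k) x)
    (hcomp : ∀ k, ∀ x ∈ S, ∃ m, τ (k + 1) x = τ k x + 𝓐.hb x ^ k • m) :
    ∃ t : (x : V) → F.St x, F.On t S ∧
      ∀ k, ∀ x ∈ S, ∃ m, t x = τ k x + 𝓐.hb x ^ k • m := by
  classical
  let n := Module.finrank ℂ V
  let κ : V ≃L[ℂ] (Fin n → ℂ) := ContinuousLinearEquiv.ofFinrankEq (by simp [n])
  have hloc : ∀ x ∈ S, ∃ t : (x : V) → F.St x, F.At t x ∧ ∀ᶠ y in 𝓝 x,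
      ∀ k, ∃ m, t y = τ k y + 𝓐.hb y ^ k • m := by
    intro x hx
    have hFx := hF.cohAt hx
    obtain ⟨p, g, hg, hgen⟩ := hFx.2.1
    have hW : ∀ᶠ y in 𝓝 x, (∀ i, F.At (g i) y) ∧
        Submodule.span (𝓐.A.St y) (range fun i => g i y) = ⊤ ∧ y ∈ S := by
      filter_upwards [eventually_all.mpr fun i => F.ev (hg i), hgen, hS.mem_nhds hx]
        with y y1 y2 y3
      exact ⟨y1, y2, y3⟩
    obtain ⟨ε, hε, hsub⟩ := exists_cbox_subset κ x hW
    have hbc := box_subset_cbox κ (κ x) (fun _ => -1) (fun _ => ε)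
    obtain ⟨t, ht, htk⟩ := local_complete κ (κ x) (fun _ => -1) (fun _ => ε) F
      (fun i => ⟨by norm_num, by linarith, hε⟩) (fun y hy => hF y (hsub hy).2.2)
      (fun y hy => htf y (hsub hy).2.2) g (fun i y hy => (hsub hy).1 i)
      (fun y hy => (hsub hy).2.1) τ (fun k y hy => hτ k y (hsub (hbc hy)).2.2)
      (fun k y hy => hcomp k y (hsub (hbc hy)).2.2)
    have hxb : x ∈ box κ (κ x) (fun _ => -1) (fun _ => ε) :=
      center_mem_box κ x (fun _ => by norm_num) (fun _ => hε)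
    refine ⟨t, ht x hxb, ?_⟩
    filter_upwards [(isOpen_box κ (κ x) (fun _ => -1) (fun _ => ε)).mem_nhds hxb] with y hy k
    exact htk k y hy
  have huniq : ∀ x ∈ S, ∀ a b : F.St x, (∀ k, ∃ m, a = τ k x + 𝓐.hb x ^ k • m) →
      (∀ k, ∃ m, b = τ k x + 𝓐.hb x ^ k • m) → a = b := by
    intro x hx a b ha hb
    rw [← sub_eq_zero]
    apply (hF.cohAt hx).sepAt
    intro k
    obtain ⟨m, hm⟩ := ha k
    obtain ⟨m', hm'⟩ := hb k
    exact ⟨m - m', by rw [hm, hm', smul_sub]; abel⟩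
  have hex : ∀ x, ∃ a : F.St x, x ∈ S → ∀ k, ∃ m, a = τ k x + 𝓐.hb x ^ k • m := by
    intro x
    by_cases hx : x ∈ S
    · obtain ⟨t, -, ht⟩ := hloc x hx
      exact ⟨t x, fun _ => ht.self_of_nhds⟩
    · exact ⟨0, fun h => absurd h hx⟩
  choose T hT using hex
  refine ⟨T, fun x hx => ?_, fun k x hx => hT x hx k⟩
  obtain ⟨t, ht, htk⟩ := hloc x hx
  refine F.congr ht ?_
  filter_upwards [htk, hS.mem_nhds hx] with y y1 y2
  exact huniq y y2 _ _ y1 (hT y y2)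

/-- sections of the reduction over an open box lift -/
theorem IsRed.liftBox {F : EMod.{u, v, w} 𝓐.A} {F₀ : EMod.{u, u, w} (O V)}
    {ρ : ∀ x, F.St x → F₀.St x} (h : IsRed 𝓐 F F₀ ρ) (hrR : GoodRadii r R)
    (hF : F.Coh (cbox κ c r R)) (htf : TF 𝓐 F (cbox κ c r R))
    (s : ∀ x, F₀.St x) (hs : F₀.On s (box κ c r R)) :
    ∃ t : ∀ x, F.St x, F.On t (box κ c r R) ∧ ∀ x ∈ box κ c r R, ρ x (t x) = s x := by
  classical
  have hbc := box_subset_cbox κ c r R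
  have hUM : box κ c r R ⊆ F.dom := fun x hx => (hF.cohAt (hbc hx)).1
  have hU := isOpen_box κ c r R
  -- a set theoretic section of the reduction
  have hL' : ∀ x (m : F₀.St x), ∃ l : F.St x, x ∈ F.dom → ρ x l = m := by
    intro x m
    by_cases hx : x ∈ F.dom
    · obtain ⟨l, hl⟩ := h.surj x hx m
      exact ⟨l, fun _ => hl⟩
    · exact ⟨0, fun h => absurd h hx⟩
  choose L hL using hL'
  have hL'' : ∀ x ∈ F.dom, ∀ m, ρ x (L x m) = m := fun x hx m => hL x m hx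
  have hstep := fun (k : ℕ) (τ : (x : V) → F.St x)
    (hτ : ∀ x ∈ box κ c r R, AtMod 𝓐 F k τ x) =>
      torsor_step κ c r R h hrR hF htf L hL'' k τ hτ
  choose! nx hnx using hstep
  let T : ℕ → (x : V) → F.St x := fun k => Nat.rec (fun x => L x (s x))
    (fun k t => fun x => t x + 𝓐.hb x ^ (k + 1) • L x (nx (k + 1) t x)) k
  have hT : ∀ k, ∀ x ∈ box κ c r R, AtMod 𝓐 F (k + 1) (T k) x := by
    intro k
    induction k with
    | zero =>
      intro x hx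
      obtain ⟨t, ht, h1⟩ := h.lift_near (hs x hx)
      refine ⟨t, ht, ?_⟩
      filter_upwards [h1, F.isOpen_dom.mem_nhds (hUM hx)] with y y1 y2
      have e1 : ρ y (L y (s y)) = ρ y (t y) := by rw [hL y _ y2, y1]
      obtain ⟨l, hl⟩ := (h.eq_iff y2 _ _).1 e1
      exact ⟨l, by rw [zero_add, pow_one]; exact hl⟩
    | succ k ih => exact hnx (k + 1) (T k) ih
  obtain ⟨t, ht, htk⟩ := glue_complete (𝓐 := 𝓐) F hU (fun x hx => hF x (hbc hx))
    (fun x hx => htf x (hbc hx)) (fun k => T (k - 1)) (fun k x hx => by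
      cases k with
      | zero =>
        exact ⟨0, F.zero x (hUM hx), Eventually.of_forall fun y => ⟨T 0 y, by simp⟩⟩
      | succ k => exact hT k x hx) (fun k x hx => by
      cases k with
      | zero => exact ⟨0, by simp⟩
      | succ k => exact ⟨L x (nx (k + 1) (T k) x), rfl⟩)
  refine ⟨t, ht, fun x hx => ?_⟩
  obtain ⟨m, hm⟩ := htk 1 x hx
  have hxF := hUM hx
  rw [pow_one] at hm
  rw [hm, h.add x hxF]
  have e3 : ρ x (𝓐.hb x • m) = 0 := (h.ker x hxF _).2 ⟨_, rfl⟩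
  rw [e3, add_zero]
  exact hL x _ hxF

end Pool.Agent.DQ
end

section

/-! Cartan A for deformations. -/

set_option autoImplicit false

open Set Filter Topology

universe u v w

namespace Pool.Agent.DQ

section boxes

variable {V : Type u} [NormedAddCommGroup V] [NormedSpace ℂ V] {n : ℕ}

theorem isClosed_cring (c : ℂ) (r R : ℝ) : IsClosed (cring c r R) :=
  (isClosed_le continuous_const (continuous_id.sub continuous_const).norm).inter
    (isClosed_le (continuous_id.sub continuous_const).norm continuous_const)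

/-- a closed box has a neighbourhood basis of boxes -/
theorem exists_larger_box (κ : V ≃L[ℂ] (Fin n → ℂ)) (c : Fin n → ℂ) {r R : Fin n → ℝ}
    (hrR : GoodRadii r R) {W : Set V} (hW : IsOpen W) (hsub : cbox κ c r R ⊆ W) :
    ∃ r' R' : Fin n → ℝ, GoodRadii r' R' ∧ cbox κ c r R ⊆ box κ c r' R' ∧
      cbox κ c r' R' ⊆ W := by
  classical
  -- radii depending on a small parameter
  let rr : ℕ → Fin n → ℝ := fun m i => if r i < 0 then r i else r i * (1 - 1 / (m + 2))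
  let RR : ℕ → Fin n → ℝ := fun m i => R i + 1 / (m + 1)
  have hpos : ∀ m : ℕ, (0 : ℝ) < 1 / (m + 1) := fun m => by positivity
  have hlt : ∀ m : ℕ, (1 : ℝ) / (m + 2) < 1 := by
    intro m
    rw [div_lt_one (by positivity)]
    have : (0 : ℝ) ≤ m := Nat.cast_nonneg m
    linarith
  have hpos2 : ∀ m : ℕ, (0 : ℝ) < 1 / (m + 2) := fun m => by positivity
  have hrr : ∀ m i, rr m i ≤ r i := by
    intro m i
    by_cases h : r i < 0
    · simp [rr, h]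
    · simp only [rr, if_neg h]
      push Not at h
      nlinarith [hpos2 m]
  have hgood : ∀ m, GoodRadii (rr m) (RR m) := by
    intro m i
    obtain ⟨h0, h1, h2⟩ := hrR i
    refine ⟨?_, ?_, by
      have := hpos m
      simp only [RR]
      linarith⟩
    · by_cases h : r i < 0
      · simp only [rr, if_pos h]
        exact h0
      · simp only [rr, if_neg h]
        have := hlt m
        exact mul_ne_zero h0 (by linarith)
    · have := hpos m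
      have := hrr m i
      simp only [RR]
      linarith
  have hbox : ∀ m, cbox κ c r R ⊆ box κ c (rr m) (RR m) := by
    intro m x hx i
    obtain ⟨h1, h2⟩ := hx i
    obtain ⟨h0, h3, h4⟩ := hrR i
    constructor
    · by_cases h : r i < 0
      · simp only [rr, if_pos h]
        exact h.trans_le (norm_nonneg _)
      · simp only [rr, if_neg h]
        push Not at h
        have h5 : 0 < r i := lt_of_le_of_ne h (Ne.symm h0)
        have : r i * (1 - 1 / (m + 2)) < r i := by nlinarith [hpos2 m]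
        exact this.trans_le h1
    · have := hpos m
      simp only [RR]
      linarith
  -- the closed boxes decrease to the given one
  have hanti : ∀ m m' : ℕ, m ≤ m' → cbox κ c (rr m') (RR m') ⊆ cbox κ c (rr m) (RR m) := by
    intro m m' hmm x hx i
    obtain ⟨h1, h2⟩ := hx i
    have hc : (m : ℝ) ≤ m' := Nat.cast_le.mpr hmm
    have hm0 : (0 : ℝ) ≤ m := Nat.cast_nonneg m
    constructor
    · refine le_trans ?_ h1
      by_cases h : r i < 0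
      · simp [rr, h]
      · simp only [rr, if_neg h]
        push Not at h
        have : (1 : ℝ) / (m' + 2) ≤ 1 / (m + 2) :=
          one_div_le_one_div_of_le (by linarith) (by linarith)
        exact mul_le_mul_of_nonneg_left (by linarith) h
    · refine h2.trans ?_
      have : (1 : ℝ) / (m' + 1) ≤ 1 / (m + 1) :=
        one_div_le_one_div_of_le (by linarith) (by linarith)
      simp only [RR]
      linarith
  have hinter : ∀ x ∈ ⋂ m : ℕ, cbox κ c (rr m) (RR m), W ∈ 𝓝 x := by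
    intro x hx
    apply hW.mem_nhds
    apply hsub
    rw [mem_iInter] at hx
    intro i
    constructor
    · have h1 : Tendsto (fun m : ℕ => rr m i) atTop (𝓝 (r i)) := by
        by_cases h : r i < 0
        · simp only [rr, if_pos h]
          exact tendsto_const_nhds
        · simp only [rr, if_neg h]
          have h2 : Tendsto (fun m : ℕ => (1 : ℝ) / (m + 2)) atTop (𝓝 0) := by
            have h3 := (tendsto_one_div_add_atTop_nhds_zero_nat (𝕜 := ℝ)).comp (tendsto_add_atTop_nat 1)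
            refine h3.congr fun m => ?_
            simp only [Function.comp_apply, Nat.cast_add, Nat.cast_one]
            congr 1
            ring
          have h4 := (tendsto_const_nhds (x := r i)).mul ((tendsto_const_nhds (x := (1 : ℝ))).sub h2)
          simpa using h4
      exact le_of_tendsto h1 (Eventually.of_forall fun m => (hx m i).1)
    · have h1 : Tendsto (fun m : ℕ => RR m i) atTop (𝓝 (R i)) := by
        have h4 := (tendsto_const_nhds (x := R i)).add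
          (tendsto_one_div_add_atTop_nhds_zero_nat (𝕜 := ℝ))
        simpa [RR] using h4
      exact ge_of_tendsto h1 (Eventually.of_forall fun m => (hx m i).2)
  obtain ⟨m, hm⟩ := exists_subset_nhds_of_isCompact'
    (V := fun m : ℕ => cbox κ c (rr m) (RR m))
    (directed_of_isDirected_le (fun m m' h => hanti m m' h))
    (fun m => isCompact_cbox _ _ _ _) (fun m => (isCompact_cbox _ _ _ _).isClosed) hinter
  exact ⟨rr m, RR m, hgood m, hbox m, hm⟩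

end boxes

/-- generators at a point of a coherent module generate near the point -/
theorem EMod.CohAt.gen_near {X : Type u} [TopologicalSpace X] {R : ERing.{u, v} X}
    {F : EMod.{u, v, w} R} {x : X} (hF : F.CohAt x) {p : ℕ} {g : Fin p → (y : X) → F.St y}
    (hg : ∀ i, F.At (g i) x) (h : Submodule.span (R.St x) (range fun i => g i x) = ⊤) :
    ∀ᶠ y in 𝓝 x, Submodule.span (R.St y) (range fun i => g i y) = ⊤ := by
  obtain ⟨q, G, hG, hGen⟩ := hF.2.1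
  have h1 : ∀ j, ∀ᶠ y in 𝓝 x, G j y ∈ Submodule.span (R.St y) (range fun i => g i y) := fun j =>
    F.near_mem_span (hG j) hg (by rw [h]; exact Submodule.mem_top)
  filter_upwards [hGen, eventually_all.mpr h1] with y y1 y2
  rw [eq_top_iff, ← y1, Submodule.span_le]
  rintro _ ⟨j, rfl⟩
  exact y2 j

variable {V : Type u} [NormedAddCommGroup V] [NormedSpace ℂ V] [FiniteDimensional ℂ V]
  (𝓐 : Defo.{u, v} V)

variable {n : ℕ} (κ : V ≃L[ℂ] (Fin n → ℂ)) (c : Fin n → ℂ) (r R : Fin n → ℝ)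

theorem Defo.cartanA (F : EMod.{u, v, w} 𝓐.A) (hF : F.Coh (cbox κ c r R))
    (htf : TF 𝓐 F (cbox κ c r R)) (hrR : GoodRadii r R) :
    ∃ (p : ℕ) (g : Fin p → (x : V) → F.St x),
      (∀ i, F.On (g i) (cbox κ c r R)) ∧ F.Gen g (cbox κ c r R) := by
  obtain ⟨F₀, ρ, h⟩ := exists_isRed 𝓐 F
  -- the module is coherent and torsion free on a larger box
  let W : Set V := {x | ∀ᶠ y in 𝓝 x, F.CohAt y ∧ ∀ m : F.St y, 𝓐.hb y • m = 0 → m = 0}
  have hW : IsOpen W := by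
    rw [isOpen_iff_mem_nhds]
    intro x hx
    exact eventually_eventually_nhds.mpr hx
  have hsub : cbox κ c r R ⊆ W := by
    intro x hx
    exact (hF x hx).and (tf_near (hF.cohAt hx) (htf x hx))
  obtain ⟨r', R', hgood, hb, hc⟩ := exists_larger_box κ c hrR hW hsub
  have hF' : F.Coh (cbox κ c r' R') := fun x hx => (hc hx).mono fun y hy => hy.1
  have htf' : TF 𝓐 F (cbox κ c r' R') := fun x hx => ((hc hx).self_of_nhds).2
  obtain ⟨p, g, hg, hgen⟩ := DQ.cartanA κ c r' R' F₀ (h.coh' hF')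
  have hbc' := box_subset_cbox κ c r' R'
  choose t ht htg using fun i => IsRed.liftBox κ c r' R' h hgood hF' htf' (g i)
    (fun x hx => hg i x (hbc' hx))
  refine ⟨p, t, fun i x hx => ht i x (hb hx), fun x hx => ?_⟩
  have hxb := hb hx
  have hFx := hF.cohAt hx
  have hxF := hFx.1
  have := hFx.noeth
  refine (𝓐.stalk (F.dom_sub hxF)).nakayama_top ?_
  intro m
  have h1 : ρ x m ∈ Submodule.span ((O V).St x) (range fun i => g i x) := by
    rw [hgen x (hbc' hxb)]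
    exact Submodule.mem_top
  obtain ⟨a, ha⟩ := mem_span_fam.mp h1
  choose A hA using fun i => 𝓐.red_surj x (F.dom_sub hxF) (a i)
  have h2 : ρ x m = ρ x (∑ i, A i • t i x) := by
    rw [h.comb hxF, ha]
    exact Finset.sum_congr rfl fun i _ => by rw [hA, htg i x hxb]
  obtain ⟨l, hl⟩ := (h.eq_iff hxF _ _).1 h2
  exact ⟨_, mem_span_fam.mpr ⟨A, rfl⟩, l, hl⟩

/-- closed version of Cartan B -/
theorem Defo.cartanB (F : EMod.{u, v, w} 𝓐.A) (hF : F.Coh (cbox κ c r R))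
    (htf : TF 𝓐 F (cbox κ c r R)) (hrR : GoodRadii r R) {p : ℕ}
    (g : Fin p → (x : V) → F.St x) (hg : ∀ i, F.On (g i) (cbox κ c r R))
    (hgen : F.Gen g (cbox κ c r R)) (s : (x : V) → F.St x) (hs : F.On s (cbox κ c r R)) :
    ∃ a : Fin p → (x : V) → 𝓐.A.St x, (∀ i, ∀ x ∈ cbox κ c r R, 𝓐.A.At (a i) x) ∧
      ∀ x ∈ cbox κ c r R, s x = ∑ i, a i x • g i x := by
  let P : V → Prop := fun y => F.CohAt y ∧ (∀ m : F.St y, 𝓐.hb y • m = 0 → m = 0) ∧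
    (∀ i, F.At (g i) y) ∧ Submodule.span (𝓐.A.St y) (range fun i => g i y) = ⊤ ∧ F.At s y
  let W : Set V := {x | ∀ᶠ y in 𝓝 x, P y}
  have hW : IsOpen W := by
    rw [isOpen_iff_mem_nhds]
    intro x hx
    exact eventually_eventually_nhds.mpr hx
  have hsub : cbox κ c r R ⊆ W := by
    intro x hx
    have hFx := hF.cohAt hx
    filter_upwards [hF x hx, tf_near hFx (htf x hx),
      eventually_all.mpr fun i => F.ev (hg i x hx), hFx.gen_near (fun i => hg i x hx) (hgen x hx),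
      F.ev (hs x hx)] with y y1 y2 y3 y4 y5
    exact ⟨y1, y2, y3, y4, y5⟩
  obtain ⟨r', R', hgood, hb, hc⟩ := exists_larger_box κ c hrR hW hsub
  have hbc' := box_subset_cbox κ c r' R'
  have hP : ∀ x ∈ cbox κ c r' R', P x := fun x hx => (hc hx).self_of_nhds
  obtain ⟨a, ha, hsa⟩ := 𝓐.cartanB_open κ c r' R' F (fun x hx => (hc hx).mono fun y hy => hy.1)
    (fun x hx => (hP x hx).2.1) hgood g (fun i x hx => (hP x hx).2.2.1 i)
    (fun x hx => (hP x hx).2.2.2.1) s (fun x hx => (hP x (hbc' hx)).2.2.2.2)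
  exact ⟨a, fun i x hx => ha i x (hb hx), fun x hx => hsa x (hb hx)⟩

/-- completeness of a coherent torsion-free module over an open box -/
theorem Defo.complete_mod (F : EMod.{u, v, w} 𝓐.A) (hrR : GoodRadii r R)
    (hF : F.Coh (cbox κ c r R)) (htf : TF 𝓐 F (cbox κ c r R))
    (s : ℕ → ∀ x, F.St x) (hs : ∀ k, F.On (s k) (box κ c r R)) :
    ∃ t : ∀ x, F.St x, F.On t (box κ c r R) ∧ ∀ k : ℕ, ∀ x ∈ box κ c r R,
      ∃ m, t x = (∑ i ∈ Finset.range k, 𝓐.hb x ^ i • s i x) + 𝓐.hb x ^ k • m := by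
  obtain ⟨p, g, hg, hgen⟩ := 𝓐.cartanA κ c r R F hF htf hrR
  exact 𝓐.complete_mod_of_gen κ c r R F hrR hF htf g hg hgen s hs

end Pool.Agent.DQ
end

section

/-! Module D: the exported theorems with their official signatures (the others are in `DBase`,
`DRed`, `DCartB`, `DCartA`). -/

set_option autoImplicit false

open Set Filter Topology

universe u v w

namespace Pool.Agent.DQ

variable {V : Type u} [NormedAddCommGroup V] [NormedSpace ℂ V] [FiniteDimensional ℂ V]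
  (𝓐 : Defo.{u, v} V)

/-- the reduction of a coherent module is coherent -/
theorem IsRed.coh {F : EMod.{u, v, w} 𝓐.A} {F₀ : EMod.{u, u, w} (O V)}
    {ρ : ∀ x, F.St x → F₀.St x} (h : IsRed 𝓐 F F₀ ρ) {x : V} (hF : F.CohAt x) : F₀.CohAt x :=
  h.cohAt hF

variable {n : ℕ} (κ : V ≃L[ℂ] (Fin n → ℂ)) (c : Fin n → ℂ) (r R : Fin n → ℝ)

/-- sections of the reduction over an open box lift -/
theorem IsRed.lift {F : EMod.{u, v, w} 𝓐.A} {F₀ : EMod.{u, u, w} (O V)}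
    {ρ : ∀ x, F.St x → F₀.St x} (h : IsRed 𝓐 F F₀ ρ) (hrR : GoodRadii r R)
    (hF : F.Coh (cbox κ c r R)) (htf : TF 𝓐 F (cbox κ c r R))
    (s : ∀ x, F₀.St x) (hs : F₀.On s (box κ c r R)) :
    ∃ t : ∀ x, F.St x, F.On t (box κ c r R) ∧ ∀ x ∈ box κ c r R, ρ x (t x) = s x :=
  h.liftBox κ c r R hrR hF htf s hs

end Pool.Agent.DQ
end

section

/-! # DQ, module M56, part b: Mittag-Leffler (56.1) -/

set_option autoImplicit false
set_option linter.unusedSectionVars false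

open Set Filter Topology

universe u v w

namespace Pool.Agent.DQ

variable {V : Type} [NormedAddCommGroup V] [NormedSpace ℂ V] [FiniteDimensional ℂ V] {k d : ℕ}
  {𝓐 : Defo.{0, v} V} {M : EMod.{0, v, w} 𝓐.A} {M₀ : EMod.{0, 0, w} (O V)}
  {ρ : ∀ x, M.St x → M₀.St x} {Y : Set V}

section mainFacts

variable {σ : Sit V k d} {T₀ : Set (Fin k → ℂ)}

theorem Main.Q1c_sub5 (h : Main 𝓐 M M₀ ρ Y σ T₀) : σ.Q1c T₀ ⊆ M.dom := fun x hx => by
  rw [h.dom]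
  exact ⟨h.KC_sub (σ.Q1c_sub_KC5 T₀ hx), disjoint_left.mp h.Q1_sub hx⟩

theorem Main.Q2c_sub5 (h : Main 𝓐 M M₀ ρ Y σ T₀) : σ.Q2c T₀ ⊆ M.dom := fun x hx => by
  rw [h.dom]
  exact ⟨h.KC_sub (σ.Q2c_sub_KC5 T₀ hx), disjoint_left.mp h.Q2_sub hx⟩

theorem Main.coh5 (h : Main 𝓐 M M₀ ρ Y σ T₀) : M.Coh M.dom := h.refl.coh

theorem Main.tf5 (h : Main 𝓐 M M₀ ρ Y σ T₀) : TF 𝓐 M M.dom := h.refl.tf

theorem EMod.Coh.mono5 {X : Type u} [TopologicalSpace X] {R : ERing.{u, v} X}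
    {F : EMod.{u, v, w} R} {K L : Set X} (h : F.Coh K) (hL : L ⊆ K) : F.Coh L :=
  fun x hx => h x (hL hx)

theorem TF.mono5 {F : EMod.{0, v, w} 𝓐.A} {K L : Set V} (h : TF 𝓐 F K) (hL : L ⊆ K) :
    TF 𝓐 F L := fun x hx => h x (hL hx)

variable (P : σ.Pd)

theorem Main.Q1_sub5 (h : Main 𝓐 M M₀ ρ Y σ T₀) (hP : P.Tc ⊆ T₀) : σ.Q1 P.T ⊆ M.dom :=
  (σ.Q1_sub_Q1c5 (P.T_subset5.trans hP)).trans h.Q1c_sub5

theorem Main.Q2_sub5 (h : Main 𝓐 M M₀ ρ Y σ T₀) (hP : P.Tc ⊆ T₀) : σ.Q2 P.T ⊆ M.dom :=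
  (σ.Q2_sub_Q2c5 (P.T_subset5.trans hP)).trans h.Q2c_sub5

/-- sections of the reduction over `Q1` lift -/
theorem Main.lift1 (h : Main 𝓐 M M₀ ρ Y σ T₀) (hP : P.Tc ⊆ T₀) (s : ∀ x, M₀.St x)
    (hs : M₀.On s (σ.Q1 P.T)) :
    ∃ t : ∀ x, M.St x, M.On t (σ.Q1 P.T) ∧ ∀ x ∈ σ.Q1 P.T, ρ x (t x) = s x := by
  have h1 : σ.Q1c P.Tc ⊆ M.dom := (σ.Q1c_mono5 hP).trans h.Q1c_sub5
  rw [σ.Q1c_eq5] at h1
  rw [σ.Q1_eq5] at hs ⊢
  exact h.red.liftBox _ _ _ _ (σ.good_Q15 P) (h.coh5.mono5 h1) (TF.mono5 h.tf5 h1) s hs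

/-- sections of the reduction over `Q2` lift -/
theorem Main.lift2 (h : Main 𝓐 M M₀ ρ Y σ T₀) (hP : P.Tc ⊆ T₀) (s : ∀ x, M₀.St x)
    (hs : M₀.On s (σ.Q2 P.T)) :
    ∃ t : ∀ x, M.St x, M.On t (σ.Q2 P.T) ∧ ∀ x ∈ σ.Q2 P.T, ρ x (t x) = s x := by
  have h1 : σ.Q2c P.Tc ⊆ M.dom := (σ.Q2c_mono5 hP).trans h.Q2c_sub5
  rw [σ.Q2c_eq5] at h1
  rw [σ.Q2_eq5] at hs ⊢
  exact h.red.liftBox _ _ _ _ (σ.good_Q25 P) (h.coh5.mono5 h1) (TF.mono5 h.tf5 h1) s hs

end mainFacts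

variable {σ : Sit V k d} {T₀ : Set (Fin k → ℂ)}

/-- one step: from `P_m` to `P_(m+1)` -/
theorem ml_step5 (hmain : Main 𝓐 M M₀ ρ Y σ T₀) (P : σ.Pd) (hP : P.Tc ⊆ T₀) (m₀ : ℕ)
    (hstat : ∀ m ≥ m₀, ∀ x₁ x₂ y, PK 𝓐 M σ P.T m x₁ x₂ y → ∃ x₁' x₂' y',
      PK 𝓐 M σ P.T m₀ x₁' x₂' y' ∧ HZero M₀ σ P.T (fun x => ρ x (y x) - ρ x (y' x)))
    (e : ℕ) (x₁ x₂ y : ∀ x, M.St x) (h : PK 𝓐 M σ P.T (m₀ + e) x₁ x₂ y) :
    ∃ x₁' x₂' y', PK 𝓐 M σ P.T (m₀ + (e + 1)) x₁' x₂' y' ∧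
      (∀ x ∈ σ.Q1 P.T, ∃ u, x₁' x = x₁ x + 𝓐.hb x ^ e • u) ∧
      ∀ x ∈ σ.Q2 P.T, ∃ u, x₂' x = x₂ x + 𝓐.hb x ^ e • u := by
  obtain ⟨a₁, a₂, b, ha, y₁, y₂, hy₁, hy₂, hy⟩ := hstat (m₀ + e) (by omega) x₁ x₂ y h
  obtain ⟨c₁, hc₁, hc₁'⟩ := hmain.lift1 P hP y₁ hy₁
  obtain ⟨c₂, hc₂, hc₂'⟩ := hmain.lift2 P hP y₂ hy₂
  have hQ1 := hmain.Q1_sub5 P hP
  have hQ2 := hmain.Q2_sub5 P hP
  have h12 := σ.Q12_sub_Q15 P.T
  have h12' := σ.Q12_sub_Q25 P.T
  obtain ⟨t, ht, hts⟩ := 𝓐.div_mod (M := M) (U := σ.Q12 P.T) (σ.isOpen_Q125 P) (h12.trans hQ1)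
    (fun x hx => hmain.tf5 x (hQ1 (h12 hx)))
    (s := (y - b) - (c₁ - c₂))
    (fun x hx => M.sub' (M.sub' (h.on_y x hx) (ha.on_y x hx))
      (M.sub' (hc₁ x (h12 hx)) (hc₂ x (h12' hx)))) (fun x hx => by
        have hxd := hQ1 (h12 hx)
        apply (hmain.red.ker x hxd _).1
        simp only [Pi.sub_apply]
        rw [hmain.red.map_sub hxd, hmain.red.map_sub hxd, hmain.red.map_sub hxd,
          hc₁' x (h12 hx), hc₂' x (h12' hx), sub_eq_zero]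
        exact hy x hx)
  have hpow : ∀ x ∈ M.dom, ∀ n, 𝓐.A.At (fun y => 𝓐.hb y ^ n) x := fun x hx n =>
    𝓐.A.pow (𝓐.hb_at x (M.dom_sub hx)) n
  refine ⟨fun x => x₁ x - 𝓐.hb x ^ e • a₁ x - 𝓐.hb x ^ (m₀ + e) • c₁ x,
    fun x => x₂ x - 𝓐.hb x ^ e • a₂ x - 𝓐.hb x ^ (m₀ + e) • c₂ x, t, ⟨?_, ?_, ht, ?_⟩, ?_, ?_⟩
  · intro x hx
    exact M.sub' (M.sub' (h.on₁ x hx) (M.smul (hpow x (hQ1 hx) e) (ha.on₁ x hx)))
      (M.smul (hpow x (hQ1 hx) _) (hc₁ x hx))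
  · intro x hx
    exact M.sub' (M.sub' (h.on₂ x hx) (M.smul (hpow x (hQ2 hx) e) (ha.on₂ x hx)))
      (M.smul (hpow x (hQ2 hx) _) (hc₂ x hx))
  · intro x hx
    have e1 := h.eq x hx
    have e2 := ha.eq x hx
    have e3 := hts x hx
    simp only [Pi.sub_apply] at e3
    have e4 : 𝓐.hb x ^ (m₀ + (e + 1)) • t x = 𝓐.hb x ^ (m₀ + e) • (y x - b x - (c₁ x - c₂ x)) := by
      rw [e3, smul_smul, ← pow_succ]
      rfl
    have e5 : 𝓐.hb x ^ e • (a₁ x - a₂ x) = 𝓐.hb x ^ (m₀ + e) • b x := by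
      rw [e2, smul_smul, ← pow_add, add_comm e m₀]
    rw [e4]
    calc x₁ x - 𝓐.hb x ^ e • a₁ x - 𝓐.hb x ^ (m₀ + e) • c₁ x -
          (x₂ x - 𝓐.hb x ^ e • a₂ x - 𝓐.hb x ^ (m₀ + e) • c₂ x)
        = (x₁ x - x₂ x) - 𝓐.hb x ^ e • (a₁ x - a₂ x) - 𝓐.hb x ^ (m₀ + e) • (c₁ x - c₂ x) := by
          rw [smul_sub, smul_sub]
          abel
      _ = 𝓐.hb x ^ (m₀ + e) • (y x - b x - (c₁ x - c₂ x)) := by
          rw [e1, e5]
          simp only [smul_sub]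
  · intro x _
    refine ⟨- a₁ x - 𝓐.hb x ^ m₀ • c₁ x, ?_⟩
    rw [smul_sub, smul_smul, ← pow_add, smul_neg, add_comm e m₀]
    abel_nf
  · intro x _
    refine ⟨- a₂ x - 𝓐.hb x ^ m₀ • c₂ x, ?_⟩
    rw [smul_sub, smul_smul, ← pow_add, smul_neg, add_comm e m₀]
    abel_nf

/-- (56.1) every section modulo `ħ ^ (m₀ + 1)` comes, modulo `ħ`, from a section of `M` over the
shell -/
theorem ml (hmain : Main 𝓐 M M₀ ρ Y σ T₀) (P : σ.Pd) (hP : P.Tc ⊆ T₀) (m₀ : ℕ)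
    (hstat : ∀ m ≥ m₀, ∀ x₁ x₂ y, PK 𝓐 M σ P.T m x₁ x₂ y → ∃ x₁' x₂' y',
      PK 𝓐 M σ P.T m₀ x₁' x₂' y' ∧ HZero M₀ σ P.T (fun x => ρ x (y x) - ρ x (y' x)))
    (x₁ x₂ y : ∀ x, M.St x) (h : PK 𝓐 M σ P.T (m₀ + 1) x₁ x₂ y) :
    ∃ X, M.On X (σ.Q1 P.T ∪ σ.Q2 P.T) ∧ (∀ x ∈ σ.Q1 P.T, ρ x (X x) = ρ x (x₁ x)) ∧
      ∀ x ∈ σ.Q2 P.T, ρ x (X x) = ρ x (x₂ x) := by
  classical
  have step := fun (e : ℕ) (s : (∀ x, M.St x) × (∀ x, M.St x) × (∀ x, M.St x))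
    (hs : PK 𝓐 M σ P.T (m₀ + (e + 1)) s.1 s.2.1 s.2.2) =>
      ml_step5 hmain P hP m₀ hstat (e + 1) s.1 s.2.1 s.2.2 hs
  have step' : ∀ (e : ℕ) (s : (∀ x, M.St x) × (∀ x, M.St x) × (∀ x, M.St x)),
      PK 𝓐 M σ P.T (m₀ + (e + 1)) s.1 s.2.1 s.2.2 →
      ∃ s' : (∀ x, M.St x) × (∀ x, M.St x) × (∀ x, M.St x),
        PK 𝓐 M σ P.T (m₀ + (e + 1 + 1)) s'.1 s'.2.1 s'.2.2 ∧
        (∀ x ∈ σ.Q1 P.T, ∃ u, s'.1 x = s.1 x + 𝓐.hb x ^ (e + 1) • u) ∧
        ∀ x ∈ σ.Q2 P.T, ∃ u, s'.2.1 x = s.2.1 x + 𝓐.hb x ^ (e + 1) • u := by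
    intro e s hs
    obtain ⟨a, b, c, h1⟩ := step e s hs
    exact ⟨(a, b, c), h1⟩
  choose! nx hnx hnx1 hnx2 using step'
  let S : ℕ → (∀ x, M.St x) × (∀ x, M.St x) × (∀ x, M.St x) := fun j =>
    Nat.rec (x₁, x₂, y) (fun e s => nx e s) j
  have hS : ∀ j, PK 𝓐 M σ P.T (m₀ + (j + 1)) (S j).1 (S j).2.1 (S j).2.2 := by
    intro j
    induction j with
    | zero => exact h
    | succ j ih => exact hnx j (S j) ih
  have hS1 : ∀ j, ∀ x ∈ σ.Q1 P.T, ∃ u, (S (j + 1)).1 x = (S j).1 x + 𝓐.hb x ^ (j + 1) • u :=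
    fun j => hnx1 j (S j) (hS j)
  have hS2 : ∀ j, ∀ x ∈ σ.Q2 P.T, ∃ u, (S (j + 1)).2.1 x = (S j).2.1 x + 𝓐.hb x ^ (j + 1) • u :=
    fun j => hnx2 j (S j) (hS j)
  have hQ1 := hmain.Q1_sub5 P hP
  have hQ2 := hmain.Q2_sub5 P hP
  have hd : σ.Q1 P.T ∪ σ.Q2 P.T ⊆ M.dom := union_subset hQ1 hQ2
  let τ : ℕ → (x : V) → M.St x := fun j x => if x ∈ σ.Q1 P.T then (S j).1 x else (S j).2.1 x
  have hτ1 : ∀ j, ∀ x ∈ σ.Q1 P.T, τ j x = (S j).1 x := fun j x hx => if_pos hx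
  have hτ2 : ∀ j, ∀ x ∈ σ.Q2 P.T, ∃ u, τ j x = (S j).2.1 x + 𝓐.hb x ^ (j + 1) • u := by
    intro j x hx
    by_cases h1 : x ∈ σ.Q1 P.T
    · refine ⟨𝓐.hb x ^ m₀ • (S j).2.2 x, ?_⟩
      have e1 := (hS j).eq x (by
        rw [← σ.Q1_inter_Q25]
        exact ⟨h1, hx⟩)
      rw [hτ1 j x h1, smul_smul, ← pow_add, add_comm (j + 1) m₀, ← e1]
      abel
    · refine ⟨0, ?_⟩
      rw [smul_zero, add_zero]
      exact if_neg h1
  obtain ⟨X, hX, hXτ⟩ := glue_complete M (S := σ.Q1 P.T ∪ σ.Q2 P.T)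
    ((σ.isOpen_Q15 P).union (σ.isOpen_Q25 P)) (hmain.coh5.mono5 hd) (TF.mono5 hmain.tf5 hd) τ
    (by
      rintro j x (hx | hx)
      · refine ⟨(S j).1, (hS j).on₁ x hx, ?_⟩
        filter_upwards [(σ.isOpen_Q15 P).mem_nhds hx] with z hz
        exact ⟨0, by rw [smul_zero, add_zero]; exact hτ1 j z hz⟩
      · refine ⟨(S j).2.1, (hS j).on₂ x hx, ?_⟩
        filter_upwards [(σ.isOpen_Q25 P).mem_nhds hx] with z hz
        obtain ⟨u, hu⟩ := hτ2 j z hz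
        exact ⟨𝓐.hb z • u, by rw [hu, smul_smul, ← pow_succ]⟩)
    (by
      rintro j x (hx | hx)
      · obtain ⟨u, hu⟩ := hS1 j x hx
        refine ⟨𝓐.hb x • u, ?_⟩
        rw [hτ1 j x hx, hτ1 (j + 1) x hx, hu, smul_smul, ← pow_succ]
      · obtain ⟨u, hu⟩ := hS2 j x hx
        obtain ⟨a, ha⟩ := hτ2 j x hx
        obtain ⟨b, hb⟩ := hτ2 (j + 1) x hx
        refine ⟨𝓐.hb x • u - 𝓐.hb x • a + (𝓐.hb x * 𝓐.hb x) • b, ?_⟩
        have e1 : 𝓐.hb x ^ j • 𝓐.hb x • u = 𝓐.hb x ^ (j + 1) • u := by rw [smul_smul, ← pow_succ]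
        have e2 : 𝓐.hb x ^ j • 𝓐.hb x • a = 𝓐.hb x ^ (j + 1) • a := by rw [smul_smul, ← pow_succ]
        have e3 : 𝓐.hb x ^ j • (𝓐.hb x * 𝓐.hb x) • b = 𝓐.hb x ^ (j + 1 + 1) • b := by
          rw [smul_smul, ← mul_assoc, ← pow_succ, ← pow_succ]
        rw [ha, hb, hu, smul_add, smul_sub, e1, e2, e3]
        abel)
  refine ⟨X, hX, fun x hx => ?_, fun x hx => ?_⟩
  · obtain ⟨m, hm⟩ := hXτ 1 x (Or.inl hx)
    obtain ⟨u, hu⟩ := hS1 0 x hx
    rw [hmain.red.eq_iff (hQ1 hx)]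
    refine ⟨u + m, ?_⟩
    have e1 : (S 1).1 x = x₁ x + 𝓐.hb x • u := by
      rw [zero_add, pow_one] at hu
      exact hu
    rw [hm, hτ1 1 x hx, e1, smul_add, pow_one, add_assoc]
  · obtain ⟨m, hm⟩ := hXτ 1 x (Or.inr hx)
    obtain ⟨u, hu⟩ := hS2 0 x hx
    obtain ⟨a, ha⟩ := hτ2 1 x hx
    rw [hmain.red.eq_iff (hQ2 hx)]
    refine ⟨u + 𝓐.hb x • a + m, ?_⟩
    have e1 : (S 1).2.1 x = x₂ x + 𝓐.hb x • u := by
      rw [zero_add, pow_one] at hu
      exact hu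
    rw [hm, ha, e1, smul_add, smul_add, smul_smul, ← pow_two, pow_one]
    abel

end Pool.Agent.DQ
end
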