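import Mathlib
import Pool.Agent.Lib.MP_4aa2a9_ag.Mg.G020
import Pool.Agent.Lib.MP_4aa2a9_ag.Mg.G002
import Pool.Agent.Lib.MP_4aa2a9_ag.Mg.G036
import Pool.Agent.Lib.MP_4aa2a9_ag.Mg.G028
import Pool.Agent.Lib.MP_4aa2a9_ag.Mg.G011
import Pool.Agent.Lib.MP_4aa2a9_ag.Mg.G038
import Pool.Agent.Lib.MP_4aa2a9_ag.Mg.G005
import Pool.Agent.Lib.MP_4aa2a9_ag.Mg.G014
import Pool.Agent.Lib.MP_4aa2a9_ag.Mg.G040
import Pool.Agent.Lib.MP_4aa2a9_ag.Mg.G003
import Pool.Agent.Lib.MP_4aa2a9_ag.Mg.G016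

section

/-! # DQ, module H: coherence of sheaves of images and relations -/

set_option autoImplicit false

open Set Filter Topology

universe u v w

namespace Pool.Agent.DQ.H

variable {V : Type u} [NormedAddCommGroup V] [NormedSpace ℂ V] {n : ℕ} [FiniteDimensional ℂ V]
  {𝓐 : Defo.{u, v} V}

/-- Proof. `Coh K` means: for `x ∈ K`, for `y` near `x`, `CohAt y`. Near `x` all `f i` are sections (`EMod.ev`), `Defo.oka` gives coherence of the free module near `x`, `EMod.imSh_cohAt`. -/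
theorem imSh_coh {q p : ℕ} {f : Fin p → (x : V) → Fin q → 𝓐.A.St x} {K : Set V}
    (hK : K ⊆ 𝓐.A.dom) (hf : ∀ i, (𝓐.A.free q).On (f i) K) : ((𝓐.A.free q).imSh f).Coh K := by
  intro x hx
  have h1 : ∀ᶠ y in 𝓝 x, ∀ i, (𝓐.A.free q).At (f i) y :=
    eventually_all.mpr fun i => (𝓐.A.free q).ev (hf i x hx)
  have h2 : ∀ᶠ y in 𝓝 x, (𝓐.A.free q).CohAt y := 𝓐.oka q x (hK hx)
  filter_upwards [h1, h2] with y a b
  exact EMod.imSh_cohAt a b

/-- Proof. the stalk is a submodule of `Fin q → 𝓐.A.St x` (`EMod.imVal_injective`, `map_smul`), `Defo.tf_free`. -/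
theorem imSh_tf {q p : ℕ} {f : Fin p → (x : V) → Fin q → 𝓐.A.St x} {K : Set V}
    (hK : K ⊆ 𝓐.A.dom) : TF 𝓐 ((𝓐.A.free q).imSh f) K := by
  intro x hx m hm
  apply (𝓐.A.free q).imVal_injective f x
  rw [map_zero]
  apply 𝓐.tf_free (hK hx)
  have h1 := congrArg ((𝓐.A.free q).imVal f x) hm
  rw [map_smul, map_zero] at h1
  exact h1

/-- Proof. the same with `EMod.relSh_cohAt` (needs the free modules of rank `q` and of rank `p`). -/
theorem relSh_coh {q p : ℕ} {f : Fin p → (x : V) → Fin q → 𝓐.A.St x} {K : Set V}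
    (hK : K ⊆ 𝓐.A.dom) (hf : ∀ i, (𝓐.A.free q).On (f i) K) : ((𝓐.A.free q).relSh f).Coh K := by
  intro x hx
  have h1 : ∀ᶠ y in 𝓝 x, ∀ i, (𝓐.A.free q).At (f i) y :=
    eventually_all.mpr fun i => (𝓐.A.free q).ev (hf i x hx)
  have h2 : ∀ᶠ y in 𝓝 x, (𝓐.A.free q).CohAt y := 𝓐.oka q x (hK hx)
  have h3 : ∀ᶠ y in 𝓝 x, (𝓐.A.free p).CohAt y := 𝓐.oka p x (hK hx)
  filter_upwards [h1, h2, h3] with y a b c
  exact EMod.relSh_cohAt a b c

/-- Proof. `EMod.relVal_injective`, `Defo.tf_free`. -/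
theorem relSh_tf {q p : ℕ} {f : Fin p → (x : V) → Fin q → 𝓐.A.St x} {K : Set V}
    (hK : K ⊆ 𝓐.A.dom) : TF 𝓐 ((𝓐.A.free q).relSh f) K := by
  intro x hx m hm
  apply (𝓐.A.free q).relVal_injective f x
  rw [map_zero]
  apply 𝓐.tf_free (hK hx)
  have h1 := congrArg ((𝓐.A.free q).relVal f x) hm
  rw [map_smul, map_zero] at h1
  exact h1

end Pool.Agent.DQ.H
end

section

/-! # DQ, module H: lifting to the generators of an image -/

set_option autoImplicit false

open Set Filter Topology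

universe u v w

namespace Pool.Agent.DQ.H

variable {V : Type u} [NormedAddCommGroup V] [NormedSpace ℂ V] {n : ℕ} [FiniteDimensional ℂ V]
  {𝓐 : Defo.{u, v} V}

/-- a section over an open box with values in the subsheaf generated by sections near the closed
box is a combination of them

Proof. `Defo.cartanB_open` for `F = (𝓐.A.free q).imSh f`, generators `(𝓐.A.free q).mkIm f (f i)` (`mkIm_at`, `imSh_gen`) and the section `(𝓐.A.free q).mkIm f s` over the open box (`box ⊆ cbox`); then apply `imVal` (`map_sum`, `map_smul`, `mkIm_val`). -/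
theorem im_lift {κ : V ≃L[ℂ] (Fin n → ℂ)} {c : Fin n → ℂ} {r R : Fin n → ℝ}
    (hrR : GoodRadii r R) {q p : ℕ} {f : Fin p → (x : V) → Fin q → 𝓐.A.St x}
    (hf : ∀ i, (𝓐.A.free q).On (f i) (cbox κ c r R)) {s : (x : V) → Fin q → 𝓐.A.St x}
    (hs : (𝓐.A.free q).On s (box κ c r R))
    (hm : ∀ x ∈ box κ c r R, s x ∈ Submodule.span (𝓐.A.St x) (range fun i => f i x)) :
    ∃ a : Fin p → (x : V) → 𝓐.A.St x, (∀ i, ∀ x ∈ box κ c r R, 𝓐.A.At (a i) x) ∧
      ∀ x ∈ box κ c r R, s x = ∑ i, a i x • f i x := by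
  rcases p with _ | p
  · refine ⟨fun i => i.elim0, fun i => i.elim0, fun x hx => ?_⟩
    have h1 := hm x hx
    have h2 : (range fun i : Fin 0 => f i x) = ∅ := range_eq_empty _
    rw [h2, Submodule.span_empty, Submodule.mem_bot] at h1
    rw [h1]
    simp
  · have hK : cbox κ c r R ⊆ 𝓐.A.dom := fun x hx => (hf 0 x hx).1
    have hsub : box κ c r R ⊆ cbox κ c r R := box_sub_cbox κ c r R
    have hmem : ∀ (i : Fin (p + 1)) (x : V),
        f i x ∈ Submodule.span (𝓐.A.St x) (range fun i => f i x) :=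
      fun i x => Submodule.subset_span ⟨i, rfl⟩
    obtain ⟨a, ha, has⟩ := Defo.cartanB_open 𝓐 κ c r R ((𝓐.A.free q).imSh f)
      (imSh_coh hK hf) (imSh_tf hK) hrR (fun i => (𝓐.A.free q).mkIm f (f i))
      (fun i x hx => EMod.mkIm_at (hK hx) (fun j => hf j x hx) (hf i x hx) (hmem i x))
      (fun x _ => (𝓐.A.free q).imSh_gen f x) ((𝓐.A.free q).mkIm f s)
      (fun x hx => EMod.mkIm_at (hK (hsub hx)) (fun j => hf j x (hsub hx)) (hs x hx) (hm x hx))
    refine ⟨a, ha, fun x hx => ?_⟩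
    have h1 := congrArg ((𝓐.A.free q).imVal f x) (has x hx)
    have h2 : (𝓐.A.free q).imVal f x ((𝓐.A.free q).mkIm f s x) = s x :=
      EMod.mkIm_val (M := 𝓐.A.free q) (g := f) (s := s) (x := x) (hm x hx)
    have h3 : ∀ i, (𝓐.A.free q).imVal f x ((𝓐.A.free q).mkIm f (f i) x) = f i x := fun i =>
      EMod.mkIm_val (M := 𝓐.A.free q) (g := f) (s := f i) (x := x) (hmem i x)
    rw [map_sum] at h1
    refine (h2.symm.trans h1).trans (Finset.sum_congr rfl fun i _ => ?_)
    rw [map_smul]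
    exact congrArg (fun m => a i x • m) (h3 i)

end Pool.Agent.DQ.H
end

section

/-! # DQ, module H: lifting along the maps of the complex -/

set_option autoImplicit false

open Set Filter Topology Matrix

universe u v w

namespace Pool.Agent.DQ.H

variable {V : Type u} [NormedAddCommGroup V] [NormedSpace ℂ V] {n : ℕ} [FiniteDimensional ℂ V]
  {𝓐 : Defo.{u, v} V} {M : EMod.{u, v, w} 𝓐.A} {d : ℕ} {K : Set V} {g : ℕ → ℕ}
  {C : ∀ k, Fin (g k) → Fin (g (k + 1)) → (x : V) → 𝓐.A.St x}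
  {φ : ∀ x, (Fin (g (d + 1)) → 𝓐.A.St x) → M.St x}

/-- lifting along the maps of the complex

Proof. If `U = ∅` take `t = 0`. If `U = box κ c r R`: `im_lift` for `f i x = fun j => C k i j x` (`row_on`, monotonicity `cbox ⊆ K`), with `hm` rewritten by `vecMul_eq_sum` and `mem_span_fam` / `Submodule.mem_span_range_iff_exists_fun`. -/
theorem row_lift (h : HType 𝓐 d M K g C φ) {κ : V ≃L[ℂ] (Fin n → ℂ)} {U : Set V}
    (hU : Boxy κ K U) (k : ℕ) {s : (x : V) → Fin (g (k + 1)) → 𝓐.A.St x}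
    (hs : (𝓐.A.free (g (k + 1))).On s U) (hm : ∀ x ∈ U, ∃ t, t ᵥ* cm 𝓐 C k x = s x) :
    ∃ t : (x : V) → Fin (g k) → 𝓐.A.St x, (𝓐.A.free (g k)).On t U ∧
      ∀ x ∈ U, t x ᵥ* cm 𝓐 C k x = s x := by
  rcases hU with rfl | ⟨c, r, R, rfl, hcK, hrR⟩
  · exact ⟨0, fun x hx => absurd hx (notMem_empty x), fun x hx => absurd hx (notMem_empty x)⟩
  · obtain ⟨a, ha, has⟩ := im_lift (κ := κ) (c := c) hrR
      (f := fun i x => fun j => C k i j x) (fun i x hx => row_on h k i x (hcK hx)) hs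
      (fun x hx => by
        obtain ⟨t, ht⟩ := hm x hx
        rw [mem_span_fam]
        exact ⟨t, by rw [← ht, vecMul_eq_sum]⟩)
    refine ⟨fun x i => a i x, fun x hx => ⟨?_, fun i => ha i x hx⟩, fun x hx => ?_⟩
    · exact K_sub_dom h (hcK (box_sub_cbox κ c r R hx))
    · rw [vecMul_eq_sum, has x hx]

end Pool.Agent.DQ.H
end

section

/-! # DQ, module H: the staircase argument -/

set_option autoImplicit false

open Set Filter Topology Matrix

universe u v w

namespace Pool.Agent.DQ.H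

variable {V : Type u} [NormedAddCommGroup V] [NormedSpace ℂ V] {n : ℕ} [FiniteDimensional ℂ V]
  {𝓐 : Defo.{u, v} V} {M : EMod.{u, v, w} 𝓐.A} {d : ℕ} {K : Set V} {g : ℕ → ℕ}
  {C : ∀ k, Fin (g k) → Fin (g (k + 1)) → (x : V) → 𝓐.A.St x}
  {φ : ∀ x, (Fin (g (d + 1)) → 𝓐.A.St x) → M.St x}

/-- The staircase argument.

Proof. Case `k = 0`: `w T x ᵥ* cm 𝓐 C 0 x = 0` because `Fin (g 0)` is empty (`h.zero`), take `y = 0` and use `hzw`. Case `k + 1`: for `T.card = a + 2`, `x ∈ U T` put `v = dC (fun T' => w T' x) T`; then `v ᵥ* cm 𝓐 C (k + 1) x = dC (fun T' => w T' x ᵥ* cm 𝓐 C (k + 1) x) T = dC (fun T' => dC (fun T'' => z T'' x) T') T = 0` (`dC_vecMul`, `dC_congr` with `hzw` and `hanti`, `dC_dC`), so by `h.exact k` (`k < d`, `x ∈ K` by `Boxy.sub`) it is in the image of `cm 𝓐 C k x`; `row_lift` (`dC_at`) gives sections `w' T` over `U T` (`choose`, other `T`: `0`) with `w' T x ᵥ* cm 𝓐 C k x = v`. Apply `ih` with `a + 1`, `z := w`, `w := w'`: `y'` with `dC (fun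 T' => w T' x - y' T' x ᵥ* cm 𝓐 C k x) T = 0` for `T.card = a + 2`. By `hcol (a + 1)` for the rank `g (k + 1)` there is `y` (sections for `T.card + 1 = a + 1`) with `dC (fun T' => y T' x) T = w T x - y' T x ᵥ* cm 𝓐 C k x` for `T.card = a + 1`. Then for `T.card = a + 1`: `dC (fun T' => z T' x - y T' x ᵥ* cm 𝓐 C (k + 1) x) T = w T x ᵥ* cm … - (w T x - y' T x ᵥ* cm 𝓐 C k x) ᵥ* cm 𝓐 C (k + 1) x = 0` (`dC_sub`, `dC_vecMul`, `h.comp k`, `Matrix.vecMul_vecMul`). The sections `w T - y' T ᵥ* C_k`: `vecMul_at`, `EMod.sub'`. -/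
theorem stair (h : HType 𝓐 d M K g C φ) {ι : Type*} [LinearOrder ι] {U : Finset ι → Set V}
    {κ : V ≃L[ℂ] (Fin n → ℂ)} (hB : ∀ T, Boxy κ K (U T)) (hanti : ∀ T T', T ⊆ T' → U T' ⊆ U T)
    (k : ℕ) : k ≤ d → ∀ a : ℕ,
    (∀ b, a < b → b ≤ a + k → ∀ q, ColEx (G := (𝓐.A.free q).St) U (𝓐.A.free q).At b) →
    ∀ (z : Finset ι → (x : V) → Fin (g (k + 1)) → 𝓐.A.St x)
      (w : Finset ι → (x : V) → Fin (g k) → 𝓐.A.St x),
    (∀ T, T.card = a → (𝓐.A.free (g (k + 1))).On (z T) (U T)) →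
    (∀ T, T.card = a + 1 → (𝓐.A.free (g k)).On (w T) (U T)) →
    (∀ T, T.card = a + 1 → ∀ x ∈ U T, dC (fun T' => z T' x) T = w T x ᵥ* cm 𝓐 C k x) →
    ∃ y : Finset ι → (x : V) → Fin (g k) → 𝓐.A.St x,
      (∀ T, T.card = a → (𝓐.A.free (g k)).On (y T) (U T)) ∧
      ∀ T, T.card = a + 1 → ∀ x ∈ U T,
        dC (fun T' => z T' x - y T' x ᵥ* cm 𝓐 C k x) T = 0 := by
  induction k with
  | zero =>
    intro _ a _ z w hz hw hzw
    refine ⟨fun _ _ => 0, fun T _ x hx => ?_, fun T hT x hx => ?_⟩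
    · exact (𝓐.A.free (g 0)).zero x (K_sub_dom h ((hB T).sub hx))
    · have h0 : w T x = 0 := by
        funext i
        exfalso
        have h1 := i.isLt
        have h2 := h.zero
        omega
      simp only [Matrix.zero_vecMul, sub_zero]
      rw [hzw T hT x hx, h0, Matrix.zero_vecMul]
  | succ k ih =>
    intro hk a hcol z w hz hw hzw
    classical
    have hw0 : ∀ T : Finset ι, ∃ w' : (x : V) → Fin (g k) → 𝓐.A.St x, T.card = a + 2 →
        (𝓐.A.free (g k)).On w' (U T) ∧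
          ∀ x ∈ U T, w' x ᵥ* cm 𝓐 C k x = dC (fun T' => w T' x) T := by
      intro T
      by_cases hT : T.card = a + 2
      · have hs : (𝓐.A.free (g (k + 1))).On (fun x => dC (fun T' => w T' x) T) (U T) :=
          dC_at (𝓐.A.free (g (k + 1))) hanti (a := a + 1) (z := w) hw
            (fun x hx => K_sub_dom h ((hB ∅).sub hx)) hT
        have hm : ∀ x ∈ U T, ∃ t, t ᵥ* cm 𝓐 C k x = dC (fun T' => w T' x) T := by
          intro x hx
          apply h.exact k hk x ((hB T).sub hx)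
          rw [dC_vecMul]
          have e1 : dC (fun T' => w T' x ᵥ* cm 𝓐 C (k + 1) x) T =
              dC (dC (fun T'' => z T'' x)) T := by
            apply dC_congr
            intro j hj
            have hc : (T.erase j).card = a + 1 := by
              rw [Finset.card_erase_of_mem hj, hT]
              rfl
            exact (hzw _ hc x (hanti _ _ (Finset.erase_subset _ _) hx)).symm
          rw [e1]
          exact dC_dC _ _
        obtain ⟨t, ht, ht'⟩ := row_lift h (hB T) k hs hm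
        exact ⟨t, fun _ => ⟨ht, ht'⟩⟩
      · exact ⟨fun _ => 0, fun h' => absurd h' hT⟩
    choose w' hw' using hw0
    obtain ⟨y', hy', hy'2⟩ := ih (by omega) (a + 1)
      (fun b hb hb' q => hcol b (by omega) (by omega) q) w w' hw (fun T hT => (hw' T hT).1)
      (fun T hT x hx => ((hw' T hT).2 x hx).symm)
    obtain ⟨y, hy, hy2⟩ : ∃ y : Finset ι → (x : V) → Fin (g (k + 1)) → 𝓐.A.St x,
        (∀ T, T.card + 1 = a + 1 → ∀ x ∈ U T, (𝓐.A.free (g (k + 1))).At (y T) x) ∧
        ∀ T, T.card = a + 1 → ∀ x ∈ U T,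
          dC (fun T' => y T' x) T = w T x - y' T x ᵥ* cm 𝓐 C k x := hcol (a + 1) (by omega) (by omega) (g (k + 1))
      (fun T x => w T x - y' T x ᵥ* cm 𝓐 C k x)
      (fun T hT x hx => (𝓐.A.free (g (k + 1))).sub' (hw T hT x hx)
        (vecMul_at h k ((hB T).sub hx) (hy' T hT x hx))) hy'2
    refine ⟨y, fun T hT x hx => hy T (by omega) x hx, fun T hT x hx => ?_⟩
    rw [dC_sub, hzw T hT x hx, ← dC_vecMul, hy2 T hT x hx, Matrix.sub_vecMul,
      Matrix.vecMul_vecMul, h.comp k x ((hB T).sub hx), Matrix.vecMul_zero, sub_zero, sub_self]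

end Pool.Agent.DQ.H
end

section

/-!
# DQ, modules H9 and L: the stalks of the structure sheaf and of a deformation
-/

set_option autoImplicit false

open Set Filter Topology Matrix MulOpposite

universe u v w w'

namespace Pool.Agent.DQ

variable {V : Type u} [NormedAddCommGroup V] [NormedSpace ℂ V] [FiniteDimensional ℂ V]

theorem O_isNoetherianRingL (x : V) : IsNoetherianRing ((O V).St x) := OGerm.isNoetherianRing x

theorem O_isLocalRingL (x : V) : IsLocalRing ((O V).St x) := OGerm.isLocalRing x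

/-- the germs of the coordinates -/
noncomputable def coordGerms {n : ℕ} (κ : V ≃L[ℂ] (Fin n → ℂ)) (x : V) (i : Fin n) :
    (O V).St x := (gm (fun y => κ y i - κ x i) x : OGerm x)

theorem O_regLocL {n : ℕ} (κ : V ≃L[ℂ] (Fin n → ℂ)) (x : V) :
    @RegLoc ((O V).St x) _ (O_isLocalRingL x) (List.ofFn (coordGerms κ x)) := by
  have := O_isLocalRingL x
  refine RegLoc.of_fin _ ?_ (fun i g h => OGerm.regular_coord κ x i g h)
  ext g
  rw [IsLocalRing.mem_maximalIdeal, mem_nonunits_iff]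
  have h1 : IsUnit g ↔ val (show OGerm x from g) ≠ 0 := OGerm.isUnit_iff _
  rw [h1, not_not]
  exact OGerm.span_coord κ x g

theorem exists_coord (V : Type u) [NormedAddCommGroup V] [NormedSpace ℂ V]
    [FiniteDimensional ℂ V] : Nonempty (V ≃L[ℂ] (Fin (Module.finrank ℂ V) → ℂ)) :=
  ⟨ContinuousLinearEquiv.ofFinrankEq (by simp)⟩

theorem O_gradeAnn (x : V) : GradeAnn ((O V).St x) := by
  have := O_isLocalRingL x
  have := O_isNoetherianRingL x
  obtain ⟨κ⟩ := exists_coord V
  exact gradeAnn (O_regLocL κ x)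

theorem O_pureExt (x : V) : PureExt ((O V).St x) := by
  have := O_isNoetherianRingL x
  exact pureExt

variable (𝓐 : Defo.{u, v} V)

theorem Defo.isNoetherian_op {x : V} (hx : x ∈ 𝓐.A.dom) : IsNoetherianRing (𝓐.A.St x)ᵐᵒᵖ :=
  𝓐.op.isNoetherian hx

omit [FiniteDimensional ℂ V] in
theorem Defo.hRed {x : V} (hx : x ∈ 𝓐.A.dom) : HRed (𝓐.hb x) (𝓐.redHom hx) where
  comm := 𝓐.hb_comm x hx
  reg := 𝓐.hb_reg x hx
  surj := 𝓐.red_surj x hx
  ker := 𝓐.red_ker x hx
  unit a := by
    have := 𝓐.unit_one_sub hx (-a)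
    rwa [mul_neg, sub_neg_eq_add] at this

variable {𝓐}

omit [FiniteDimensional ℂ V] in
/-- the reduction of a stalk -/
theorem IsRed.hRedMod {F : EMod.{u, v, w} 𝓐.A} {F₀ : EMod.{u, u, w} (O V)}
    {ρ : ∀ x, F.St x → F₀.St x} (h : IsRed 𝓐 F F₀ ρ) {x : V} (hx : x ∈ F.dom) :
    HRedMod (𝓐.hb x) (𝓐.redHom (F.dom_sub hx)) (ρ x) where
  add := h.add x hx
  smul := h.smul x hx
  surj := h.surj x hx
  ker := h.ker x hx

omit [FiniteDimensional ℂ V] in
theorem EMod.CohAt.finite {F : EMod.{u, v, w} 𝓐.A} {x : V} (hF : F.CohAt x) :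
    Module.Finite (𝓐.A.St x) (F.St x) := by
  obtain ⟨p, g, hg, hgen⟩ := hF.2.1
  constructor
  rw [← hgen.self_of_nhds]
  exact Submodule.fg_span (Set.finite_range _)

end Pool.Agent.DQ
end

section

/-! # DQ, module G, task GS1a: the sheaf O/(f), regular elements, uniform neighbourhoods -/

set_option autoImplicit false

open Set Filter Topology Module

universe u

namespace Pool.Agent.DQ

variable {V : Type u} [NormedAddCommGroup V] [NormedSpace ℂ V] [FiniteDimensional ℂ V]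

omit [FiniteDimensional ℂ V] in
private theorem GS1a_gid_iff {m : ℕ} (f : Fin m → V → ℂ) (y : V) (a : OGerm y) :
    a ∈ gid f y ↔ ∃ c : Fin m → OGerm y, ∑ j, c j * (gm (f j) y : OGerm y) = a := by
  unfold gid Ideal.span
  rw [Submodule.mem_span_range_iff_exists_fun]
  rfl

private noncomputable def GS1a_N {m : ℕ} (f : Fin m → V → ℂ) (y : V) :
    Submodule ((O V).St y) (Fin 1 → (O V).St y) where
  carrier := {v | (v 0 : OGerm y) ∈ gid f y}
  add_mem' := fun ha hb => (gid f y).add_mem ha hb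
  zero_mem' := (gid f y).zero_mem
  smul_mem' := fun c _ hv => (gid f y).mul_mem_left c hv

omit [FiniteDimensional ℂ V] in
private theorem GS1a_mem {m : ℕ} (f : Fin m → V → ℂ) (y : V) (v : Fin 1 → (O V).St y) :
    v ∈ GS1a_N f y ↔ (v 0 : OGerm y) ∈ gid f y := Iff.rfl

omit [FiniteDimensional ℂ V] in
private theorem GS1a_at_gm {f : V → ℂ} {x : V} (hf : HolAt f x) :
    (O V).At (fun y => (gm f y : OGerm y)) x := ⟨f, hf, Eventually.of_forall fun _ => rfl⟩

omit [FiniteDimensional ℂ V] in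
private theorem GS1a_at_sum {ι : Type} (H : Finset ι) (s : ι → (y : V) → (O V).St y) (x : V)
    (h : ∀ i ∈ H, (O V).At (s i) x) : (O V).At (fun y => ∑ i ∈ H, s i y) x := by
  classical
  induction H using Finset.induction_on with
  | empty =>
    refine (O V).congr ((O V).zero x (mem_univ x)) (Eventually.of_forall fun y => ?_)
    rw [Finset.sum_empty]
    rfl
  | insert a H ha ih =>
    refine (O V).congr ((O V).add (h a (Finset.mem_insert_self _ _))
      (ih fun i hi => h i (Finset.mem_insert_of_mem hi))) (Eventually.of_forall fun y => ?_)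
    rw [Finset.sum_insert ha]
    rfl

omit [FiniteDimensional ℂ V] in
private theorem GS1a_hN {m : ℕ} (f : Fin m → V → ℂ) (x : V) (v : Fin 1 → (O V).St x)
    (hv : v ∈ GS1a_N f x) : ∃ s : (y : V) → ((O V).free 1).St y,
      ((O V).free 1).At s x ∧ s x = v ∧ ∀ᶠ y in 𝓝 x, s y ∈ GS1a_N f y := by
  classical
  rw [GS1a_mem] at hv
  obtain ⟨c, hc⟩ := (GS1a_gid_iff f x (v 0)).mp hv
  choose C hC hCc using fun j => exists_gm (c j)
  let H : Finset (Fin m) := Finset.univ.filter fun j => HolAt (f j) x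
  refine ⟨fun y _ => ∑ j ∈ H, ((gm (C j) y * gm (f j) y : OGerm y) : (O V).St y), ?_, ?_, ?_⟩
  · refine ⟨mem_univ x, fun i => ?_⟩
    refine GS1a_at_sum H (fun j y => ((gm (C j) y * gm (f j) y : OGerm y) : (O V).St y)) x ?_
    intro j hj
    exact (O V).mul (GS1a_at_gm (hC j)) (GS1a_at_gm (Finset.mem_filter.mp hj).2)
  · funext i
    have hi : i = 0 := Subsingleton.elim _ _
    subst hi
    change (∑ j ∈ H, (gm (C j) x * gm (f j) x : OGerm x) : OGerm x) = v 0
    rw [← hc]
    refine Eq.trans ?_ (Finset.sum_subset (Finset.subset_univ H) ?_)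
    · exact Finset.sum_congr rfl fun j _ => by rw [hCc]
    · intro j _ hj
      have h1 : ¬ HolAt (f j) x := fun h => hj (Finset.mem_filter.mpr ⟨Finset.mem_univ j, h⟩)
      have h2 : (gm (f j) x : OGerm x) = 0 := by
        unfold gm
        rw [dif_neg h1]
      change c j * (gm (f j) x : OGerm x) = 0
      rw [h2, mul_zero]
  · refine Eventually.of_forall fun y => ?_
    change (∑ j ∈ H, (gm (C j) y * gm (f j) y : OGerm y) : OGerm y) ∈ gid f y
    exact Ideal.sum_mem _ fun j _ => Ideal.mul_mem_left _ _ (Ideal.subset_span ⟨j, rfl⟩)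

/-- **The sheaf `O / (f_1, …, f_m)`.**

Proof. Let `N y : Submodule (OGerm y) (Fin 1 → OGerm y)` be `{v | v 0 ∈ gid f y}` (comap of `gid f y` under the evaluation at `0`). The condition `hN` of `EMod.quot ((O V).free 1) N`: let `v ∈ N y`, `v 0 = ∑ j, c j * gm (f j) y`
(`Submodule.mem_span_range_iff_exists_fun`). If `f j` is not holomorphic near `y` then `gm (f j) y = 0`; let `H = {j | HolAt (f j) y}`; represent `c j = gm (C j) y` (`exists_gm`) and take the section
`s z = fun _ => gm (fun t => ∑ j ∈ H, C j t * f j t) z`; near `y` it lies in `N z` (as in `comb_mem`), and `s y = v`. So `F := EMod.quot ((O V).free 1) N hN` is a sheaf, `π y a = mkQ (fun _ => a)`: surjective (a vector of length one is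
determined by its entry), kernel `gid f y`, `π y (b * a) = b • π y a`. Sections: if `a` is a section of `O` near `y` then `π (a)` is a section of `F` near `y` by definition of `quot`.
`F.CohAt x₀`: `coh_of_lfp` with `p = 1`, `g 0 y = π y 1`, `q = m`, `ρ j 0 y = gm (f j) y`: `π y 1` generates; `F.rel g y = {c | c 0 • π y 1 = 0} = {c | c 0 ∈ gid f y}`, which is the span of the vectors `fun _ => gm (f j) y`. -/
theorem exists_quot_sheaf {m : ℕ} (f : Fin m → V → ℂ) {x₀ : V} (hf : ∀ j, HolAt (f j) x₀) :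
    ∃ (F : EMod.{u, u, u} (O V)) (π : ∀ y, (O V).St y → F.St y), F.CohAt x₀ ∧
      (∀ y, Function.Surjective (π y)) ∧ (∀ y (b a : (O V).St y), π y (b * a) = b • π y a) ∧
      (∀ y (a : (O V).St y), π y a = 0 ↔ (a : OGerm y) ∈ gid f y) ∧
      ∀ (a : ∀ y, (O V).St y) (y : V), (O V).At a y → F.At (fun z => π z (a z)) y := by
  let F : EMod.{u, u, u} (O V) := ((O V).free 1).quot (GS1a_N f)
    (fun x _ v hv => GS1a_hN f x v hv)
  let π : ∀ y, (O V).St y → F.St y := fun y a => (GS1a_N f y).mkQ (fun _ => a)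
  have hs : ∀ y, Function.Surjective (π y) := by
    intro y q
    obtain ⟨v, rfl⟩ := (GS1a_N f y).mkQ_surjective q
    refine ⟨v 0, ?_⟩
    change (GS1a_N f y).mkQ (fun _ => v 0) = (GS1a_N f y).mkQ v
    congr 1
    funext i
    rw [Subsingleton.elim i 0]
  have hm : ∀ y (b a : (O V).St y), π y (b * a) = b • π y a := by
    intro y b a
    exact (GS1a_N f y).mkQ.map_smul b (fun _ => a)
  have hk : ∀ y (a : (O V).St y), π y a = 0 ↔ (a : OGerm y) ∈ gid f y := by
    intro y a
    exact Submodule.Quotient.mk_eq_zero (GS1a_N f y)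
  have ha : ∀ (a : ∀ y, (O V).St y) (y : V), (O V).At a y → F.At (fun z => π z (a z)) y := by
    intro a y hy
    exact ⟨fun z _ => a z, ⟨mem_univ y, fun _ => hy⟩, Eventually.of_forall fun _ => rfl⟩
  refine ⟨F, π, ?_, hs, hm, hk, ha⟩
  refine coh_of_lfp F (mem_univ x₀) (p := 1) (q := m) (fun _ y => π y 1)
    (fun j _ y => (gm (f j) y : OGerm y)) (fun _ => ha _ x₀ ((O V).one x₀ (mem_univ x₀)))
    (fun j _ => GS1a_at_gm (hf j)) ?_ ?_
  · refine Eventually.of_forall fun y => ?_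
    rw [eq_top_iff]
    intro q _
    obtain ⟨a, rfl⟩ := hs y q
    have h1 : π y a = a • π y 1 := by rw [← hm, mul_one]
    rw [h1]
    exact Submodule.smul_mem _ _ (Submodule.subset_span ⟨0, rfl⟩)
  · refine Eventually.of_forall fun y => ?_
    ext c
    have h1 : c ∈ F.rel (fun _ y => π y 1) y ↔ (c 0 : OGerm y) ∈ gid f y := by
      change ∑ i, c i • π y 1 = 0 ↔ _
      rw [Fin.sum_univ_one, ← hm, mul_one]
      exact hk y (c 0)
    refine h1.trans ((GS1a_gid_iff f y (c 0)).trans (Iff.trans ?_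
      (Submodule.mem_span_range_iff_exists_fun _).symm))
    constructor
    · rintro ⟨b, hb⟩
      refine ⟨b, ?_⟩
      funext i
      rw [Subsingleton.elim i 0, ← hb, Finset.sum_apply]
      rfl
    · rintro ⟨b, hb⟩
      refine ⟨b, ?_⟩
      rw [← hb, Finset.sum_apply]
      rfl

/-- **Uniform regularity modulo an ideal.**

Proof. `exists_quot_sheaf` gives `F`, `π`; `snp_regular F` at `x₀` gives `U`. Let `g` be holomorphic near `U` and regular modulo `gid f x₀`. If `m ∈ F.St x₀` and `om g x₀ • m = 0`, write `m = π x₀ a`: `π x₀ (gm g x₀ * a) = 0`, so `gm g x₀ * a ∈ gid f x₀`,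
`a ∈ gid f x₀`, `m = 0`. So for `x ∈ U` multiplication by `om g x` is injective on `F.St x`; translate back in the same way. -/
theorem gid_regular {m : ℕ} (f : Fin m → V → ℂ) {x₀ : V} (hf : ∀ j, HolAt (f j) x₀) :
    ∃ U : Set V, IsOpen U ∧ x₀ ∈ U ∧ ∀ g : V → ℂ, HolNear g U →
      (∀ a : OGerm x₀, gm g x₀ * a ∈ gid f x₀ → a ∈ gid f x₀) →
      ∀ x ∈ U, ∀ a : OGerm x, gm g x * a ∈ gid f x → a ∈ gid f x := by
  obtain ⟨F, π, hF, hs, hm, hk, ha⟩ := exists_quot_sheaf f hf
  obtain ⟨U, hU, hxU, h⟩ := snp_regular F hF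
  refine ⟨U, hU, hxU, fun g hg hreg x hx a hax => ?_⟩
  have h1 := h g hg (fun q hq => by
    obtain ⟨b, rfl⟩ := hs x₀ q
    rw [← hm] at hq
    exact (hk x₀ b).mpr (hreg b ((hk x₀ _).mp hq))) x hx (π x a)
    ((hm x (om g x) a).symm.trans ((hk x _).mpr hax))
  exact (hk x a).mp h1

/-- The same for one function which is holomorphic near `x₀` only (neighbourhood depending on the function).

Proof. `F`, `π` as in `exists_quot_sheaf`. The section `s₁ y = om g y • π y 1` of `F` near `x₀` (one section). By the second part of `F.CohAt x₀` (with `n = 1`) its relation module is generated near `x₀` by finitely many sections `r l : Fin 1 → …`,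
`l : Fin q`; `F.rel _ y = {c | c 0 • s₁ y = 0} = {c | c 0 * gm g y ∈ gid f y}`. Each `r l 0` is near `x₀` the germ family of a function `ρ l` holomorphic near `x₀` (definition of `(O V).At`). At `x₀`: `r l x₀` belongs to the relation module, so `gm g x₀ * gm (ρ l) x₀ ∈ gid f x₀`,
so by `h` `gm (ρ l) x₀ ∈ gid f x₀`; by `mem_gid_near` `gm (ρ l) y ∈ gid f y` for `y` near `x₀`. So for `y` near `x₀`: `gm g y * a ∈ gid f y` implies `(fun _ => a) ∈ F.rel _ y = span`, so `a ∈ gid f y`. -/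
theorem gid_regular_near {m : ℕ} (f : Fin m → V → ℂ) {x₀ : V} (hf : ∀ j, HolAt (f j) x₀) {g : V → ℂ} (hg : HolAt g x₀)
    (h : ∀ a : OGerm x₀, gm g x₀ * a ∈ gid f x₀ → a ∈ gid f x₀) :
    ∀ᶠ x in 𝓝 x₀, ∀ a : OGerm x, gm g x * a ∈ gid f x → a ∈ gid f x := by
  obtain ⟨F, π, hF, hs, hm, hk, ha⟩ := exists_quot_sheaf f hf
  obtain ⟨q, r, hr, hrel⟩ := hF.2.2 1 (fun _ y => π y (om g y)) (fun _ => ha _ x₀ (GS1a_at_gm hg))
  have h1 : ∀ j : Fin q, ∀ᶠ y in 𝓝 x₀, (r j 0 y : OGerm y) ∈ gid f y := by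
    intro j
    obtain ⟨ρ, hρ, hrρ⟩ := hr j 0
    have h2 : (fun i => r j i x₀) ∈ F.rel (fun _ y => π y (om g y)) x₀ := by
      rw [hrel.self_of_nhds]
      exact Submodule.subset_span ⟨j, rfl⟩
    have h3 : ∑ i : Fin 1, r j i x₀ • π x₀ (om g x₀) = 0 := h2
    rw [Fin.sum_univ_one, ← hm] at h3
    have h4 : (gm g x₀ * (show OGerm x₀ from r j 0 x₀) : OGerm x₀) ∈ gid f x₀ := by
      rw [mul_comm]
      exact (hk x₀ _).mp h3
    have h5 : (gm ρ x₀ : OGerm x₀) ∈ gid f x₀ := by
      have h6 : (show OGerm x₀ from r j 0 x₀) = gm ρ x₀ := hrρ.self_of_nhds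
      rw [← h6]
      exact h _ h4
    filter_upwards [mem_gid_near f hf hρ h5, hrρ] with y hy hy'
    have h6 : ∀ a : OGerm y, a = gm ρ y → a ∈ gid f y := fun a h => by rw [h]; exact hy
    exact h6 _ hy'
  filter_upwards [hrel, eventually_all.mpr h1] with y hy1 hy2 a hay
  have h2 : (fun _ => a : Fin 1 → (O V).St y) ∈
      F.rel (fun _ y => π y (om g y)) y := by
    change ∑ _i : Fin 1, (show (O V).St y from a) • π y (om g y) = 0
    rw [Fin.sum_univ_one, ← hm]
    refine (hk y _).mpr ?_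
    change (a * gm g y : OGerm y) ∈ gid f y
    rw [mul_comm]
    exact hay
  rw [hy1] at h2
  have h3 : Submodule.span ((O V).St y) (range fun j => fun i => r j i y) ≤ GS1a_N f y := by
    rw [Submodule.span_le]
    rintro _ ⟨j, rfl⟩
    exact hy2 j
  exact h3 h2

end Pool.Agent.DQ
end

section

/-! # DQ, module G, task GS1: the grade is lower semicontinuous -/

set_option autoImplicit false

open Set Filter Topology Module

universe u

namespace Pool.Agent.DQ

variable {V : Type u} [NormedAddCommGroup V] [NormedSpace ℂ V] [FiniteDimensional ℂ V]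

omit [FiniteDimensional ℂ V] in
private theorem GS1_gid {c : ℕ} (A : Fin c → V → ℂ) (i : Fin c) (y : V) :
    gid (fun j : Fin i => A (Fin.castLE i.2.le j)) y =
      Ideal.span ((fun j => (gm (A j) y : OGerm y)) '' {j | j < i}) := by
  unfold gid
  congr 1
  ext z
  constructor
  · rintro ⟨j, rfl⟩
    exact ⟨Fin.castLE i.2.le j, j.2, rfl⟩
  · rintro ⟨j, hj, rfl⟩
    exact ⟨⟨j, hj⟩, rfl⟩

/-- **The grade is lower semicontinuous.**

Proof. `idealGrade_iff`. Let `a : Fin c → OGerm x`, `a i ∈ gid f x`, be a regular sequence. `exists_comb`: `a i = gm (A i) x`, `A i = ∑ j, C i j * f j`, holomorphic near `x`. For `y` near `x`: `gm (A i) y ∈ gid f y` (`mem_gid_near`). Regularity: for every `i : Fin c` the family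
`fun j : Fin i => A (Fin.castLE i.2.le j)` (of `i` functions `V → ℂ`) generates at every `y` the ideal `Ideal.span ((fun j => gm (A j) y) '' {j | j < i})` (same set of generators); `gid_regular_near` for this family and `g = A i` gives regularity near `x`. Finite intersection over
`i` (`eventually_all`); `idealGrade_iff` at `y`. -/
theorem gradeGE_near {m : ℕ} (f : Fin m → V → ℂ) {x : V} (hf : ∀ j, HolAt (f j) x) {c : ℕ}
    (h : GradeGE (gid f x) c) : ∀ᶠ y in 𝓝 x, GradeGE (gid f y) c := by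
  rw [← idealGrade_iff] at h
  obtain ⟨a, ha, hreg⟩ := h
  choose A hA hgA using fun i => exists_gm (a i)
  have haA : (fun j => (gm (A j) x : OGerm x)) = a := funext hgA
  have h1 : ∀ i : Fin c, ∀ᶠ y in 𝓝 x, ∀ b : OGerm y,
      gm (A i) y * b ∈ gid (fun j : Fin i => A (Fin.castLE i.2.le j)) y →
      b ∈ gid (fun j : Fin i => A (Fin.castLE i.2.le j)) y := by
    intro i
    refine gid_regular_near _ (fun j => hA _) (hA i) ?_
    intro b hb
    rw [GS1_gid, haA] at hb ⊢
    rw [hgA i] at hb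
    exact hreg i b hb
  have h2 : ∀ i : Fin c, ∀ᶠ y in 𝓝 x, (gm (A i) y : OGerm y) ∈ gid f y := by
    intro i
    refine mem_gid_near f hf (hA i) ?_
    rw [hgA i]
    exact ha i
  filter_upwards [eventually_all.mpr h1, eventually_all.mpr h2] with y h3 h4
  refine idealGrade_iff.mp ⟨fun i => gm (A i) y, h4, fun i b hb => ?_⟩
  have h5 := h3 i b
  rw [GS1_gid] at h5
  exact h5 hb

/-- Proof. The same functions: `HolAt.eventually`, `eventually_eventually_nhds`, `gradeGE_near`. -/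
theorem GCodim.near {Z : Set V} {c : ℕ} {x : V} (h : GCodim Z c x) : ∀ᶠ y in 𝓝 x, GCodim Z c y := by
  obtain ⟨m, f, hf, hz, hg⟩ := h
  filter_upwards [eventually_all.mpr fun j => (hf j).eventually, eventually_eventually_nhds.mpr hz,
    gradeGE_near f hf hg] with y h1 h2 h3
  exact ⟨m, f, h1, h2, h3⟩

end Pool.Agent.DQ
end

section

/-! The stalks of the structure sheaf and of the reduction of a `d`-reflexive module. -/

set_option autoImplicit false
set_option linter.unusedSectionVars false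

open Set Filter Topology

universe u v w w'

namespace Pool.Agent.DQ

variable {V : Type u} [NormedAddCommGroup V] [NormedSpace ℂ V] [FiniteDimensional ℂ V]

variable {𝓐 : Defo.{u, v} V}

theorem DRefl.extZero_red {d : ℕ} {M : EMod.{u, v, w} 𝓐.A} {S : Set V} (hM : DRefl 𝓐 d M S)
    {M₀ : EMod.{u, u, w} (O V)} {ρ : ∀ x, M.St x → M₀.St x} (h : IsRed 𝓐 M M₀ ρ) {x : V}
    (hx : x ∈ S) (j : ℕ) (hj : j < d) : ExtZero ((O V).St x) (M₀.St x) j := by
  have hc := hM.coh.cohAt hx
  have hxM := hc.1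
  have hxA := M.dom_sub hxM
  have := 𝓐.isNoetherian hxA
  have := 𝓐.isNoetherian_op hxA
  have := O_isNoetherianRingL x
  have := hc.noeth
  exact DQ.extZero_red (𝓐.hRed hxA) (O_gradeAnn x) (O_pureExt x) (hM.tf x hx) (hM.ext x hx)
    (h.hRedMod hxM) j hj

/-- relation between the two notions of grade -/
theorem IdealGrade.gradeGE {R : Type v} [CommRing R] {I : Ideal R} {c : ℕ} (h : IdealGrade I c) :
    GradeGE I c := by
  obtain ⟨a, ha, hreg⟩ := h
  refine ⟨List.ofFn a, by simp, ?_, ⟨?_⟩⟩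
  · intro r hr
    rw [List.mem_ofFn] at hr
    obtain ⟨i, rfl⟩ := hr
    exact ha i
  · intro i hi
    have hi' : i < c := by simpa using hi
    have h1 : Ideal.ofList ((List.ofFn a).take i) = Ideal.span (a '' {j | j < ⟨i, hi'⟩}) := by
      refine congrArg Ideal.span ?_
      ext r
      change r ∈ (List.ofFn a).take i ↔ r ∈ a '' {j | j < ⟨i, hi'⟩}
      rw [List.mem_take_iff_getElem]
      constructor
      · rintro ⟨j, hj, rfl⟩
        have hj' : j < c := by
          have := lt_min_iff.1 hj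
          omega
        exact ⟨⟨j, hj'⟩, (lt_min_iff.1 hj).1, by simp⟩
      · rintro ⟨j, hj, rfl⟩
        exact ⟨j, lt_min_iff.2 ⟨hj, by simp⟩, by simp⟩
    have h2 : (List.ofFn a)[i] = a ⟨i, hi'⟩ := by simp
    rw [h2, h1]
    rw [isSMulRegular_iff_right_eq_zero_of_smul]
    intro b hb
    obtain ⟨b, rfl⟩ := Submodule.Quotient.mk_surjective _ b
    rw [← Submodule.Quotient.mk_smul, Submodule.Quotient.mk_eq_zero] at hb
    rw [Submodule.Quotient.mk_eq_zero]
    simp only [smul_eq_mul, Ideal.mul_top] at hb ⊢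
    exact hreg ⟨i, hi'⟩ b hb

theorem DRefl.noGrade_red {d : ℕ} {M : EMod.{u, v, w} 𝓐.A} {S : Set V} (hM : DRefl 𝓐 d M S)
    {M₀ : EMod.{u, u, w} (O V)} {ρ : ∀ x, M.St x → M₀.St x} (h : IsRed 𝓐 M M₀ ρ) {x : V}
    (hx : x ∈ S) : NoGrade ((O V).St x) (M₀.St x) (d + 1) := by
  have hc := hM.coh.cohAt hx
  have hxM := hc.1
  have hxA := M.dom_sub hxM
  have := 𝓐.isNoetherian hxA
  have := 𝓐.isNoetherian_op hxA
  have := O_isNoetherianRingL x
  have := hc.noeth
  intro m hm
  set I := Module.annihilator ((O V).St x) (Submodule.span ((O V).St x) {m}) with hI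
  refine DQ.pure_red (𝓐.hRed hxA) (O_gradeAnn x) (O_pureExt x) (hM.tf x hx) (hM.ext x hx)
    (hM.bid x hx) (h.hRedMod hxM) I ?_ m ?_
  · intro i hi
    refine extZero_of_grade (d := d + 1) ?_ (by omega)
    rw [Ideal.annihilator_quotient]
    exact hm.gradeGE
  · intro a ha
    have := Module.mem_annihilator.1 ha ⟨m, Submodule.mem_span_singleton_self m⟩
    exact congrArg Subtype.val this

end Pool.Agent.DQ
end
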