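import Mathlib
import Pool.Agent.Lib.MP_4aa2a9_ag.Mg.G023
import Pool.Agent.DQ.Mg_MP_4aa2a9_ag.G003
import Pool.Agent.Lib.MP_4aa2a9_ag.Mg.G028
import Pool.Agent.Lib.MP_4aa2a9_ag.Mg.G002
import Pool.Agent.Lib.MP_4aa2a9_ag.Mg.G010
import Pool.Agent.Lib.MP_4aa2a9_ag.Mg.G039
import Pool.Agent.Lib.MP_4aa2a9_ag.Mg.G011
import Pool.Agent.Lib.MP_4aa2a9_ag.Mg.G017
import Pool.Agent.Lib.MP_4aa2a9_ag.Mg.G038
import Pool.Agent.Lib.MP_4aa2a9_ag.Mg.G019

section

/-! Campaign DQ, module M12, block (f), file MF4b: one variable, surjectivity. -/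

set_option autoImplicit false
set_option linter.unusedVariables false

open Set Filter Topology

namespace Pool.Agent.DQ

namespace MF

variable {X Z : Type} [NormedAddCommGroup X] [NormedSpace ℂ X] [FiniteDimensional ℂ X]
  [NormedAddCommGroup Z] [NormedSpace ℂ Z] [FiniteDimensional ℂ Z] {ι : Type} [Finite ι] {s : ℕ}

/-- **Reduction of a vector of functions modulo the rows.** `q`, `r` come from the division of the `a j` by the monic polynomial `mon χ`.

Proof. Germs at `x` of the identity `hdiv` (`gv`, `om_add`, `om_mul`, `om_sum`, `om_pow`, `pullS_gm`): with `v = om (fun y => (e y).2) x`,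
`gv a x = (germ of mon χ) • gv q x + ∑ i, v ^ i • pv e rfl (gv (r i) (e x).1)`. The first term is in the row space (`chi_smul_mem` with `φ y = (e y).2`,
`S = rowSp (stepRows e ρ N₀) x`, `hS` from `vN_mem_step`, `hkill` from `hkill` and `pv_mem_step`). By `v_pow_pv` the terms of the sum are congruent to
`pv e rfl ((Nop N₀ _ ^ i) (gv (r i) _))`. Add up with `pv_sum`. -/
theorem gv_congr_rem (e : Z ≃L[ℂ] X × ℂ) {ρ : ι → Fin s → X → ℂ} {N₀ : Fin s → Fin s → X → ℂ}
    {l : ℕ} {χ : Fin l → X → ℂ} {x : Z} (hρ : MatAt ρ (e x).1) (hN : MatAt N₀ (e x).1)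
    (hχ : ∀ j, HolAt (χ j) (e x).1) (hkill : ∀ c, chiN χ N₀ (e x).1 c ∈ rowSp ρ (e x).1)
    {a q : Fin s → Z → ℂ} {r : Fin l → Fin s → X → ℂ} (ha : ∀ j, HolAt (a j) x)
    (hq : ∀ j, HolAt (q j) x) (hr : ∀ i j, HolAt (r i j) (e x).1)
    (hdiv : ∀ᶠ y in 𝓝 x, ∀ j, a j y = q j y * mon χ (e y).1 (e y).2 +
      ∑ i, r i j (e y).1 * (e y).2 ^ (i : ℕ)) :
    gv a x - pv e rfl (∑ i : Fin l, (Nop N₀ (e x).1 ^ (i : ℕ)) (gv (r i) (e x).1)) ∈
      rowSp (stepRows e ρ N₀) x := by
  have hφ : HolAt (fun y => (e y).2) x := Eventually.of_forall fun y =>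
    ((ContinuousLinearMap.snd ℂ X ℂ).comp (e : Z →L[ℂ] X × ℂ)).differentiableAt
  have hrx : ∀ i j, HolAt (fun y => r i j (e y).1) x := fun i j => HolAt.comp_fst e rfl (hr i j)
  have hmon : HolAt (fun y => mon χ (e y).1 (e y).2) x :=
    (hφ.pow' l).add (HolAt.sum _ fun j _ => (HolAt.comp_fst e rfl (hχ j)).mul (hφ.pow' j))
  have hS := fun w => vN_mem_step e (rfl : (e x).1 = (e x).1) (ρ := ρ) hN w
  have hgv : gv a x = om (fun y => mon χ (e y).1 (e y).2) x • gv q x +
      ∑ i : Fin l, om (fun y => (e y).2) x ^ (i : ℕ) • pv e rfl (gv (r i) (e x).1) := by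
    funext j
    have h1 : om (a j) x = om (fun y => q j y * mon χ (e y).1 (e y).2 +
        ∑ i, r i j (e y).1 * (e y).2 ^ (i : ℕ)) x :=
      om_congr (ha j) (by filter_upwards [hdiv] with y hy using hy j)
    have h2 := om_add (f := fun y => q j y * mon χ (e y).1 (e y).2)
      (g := fun y => ∑ i, r i j (e y).1 * (e y).2 ^ (i : ℕ)) ((hq j).mul hmon)
      (HolAt.sum Finset.univ fun i _ => (hrx i j).mul (hφ.pow' i))
    have h3 := om_mul (hq j) hmon
    have h4 := om_sum Finset.univ (f := fun (i : Fin l) y => r i j (e y).1 * (e y).2 ^ (i : ℕ))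
      (x := x) (fun i _ => (hrx i j).mul (hφ.pow' i))
    have h5 : ∀ i : Fin l, om (fun y => r i j (e y).1 * (e y).2 ^ (i : ℕ)) x =
        om (fun y => (e y).2) x ^ (i : ℕ) * om (fun y => r i j (e y).1) x := by
      intro i
      rw [om_mul (hrx i j) (hφ.pow' i), om_pow hφ, mul_comm]
    have h6 : ∀ i : Fin l, (om (fun y => (e y).2) x ^ (i : ℕ) • pv e rfl (gv (r i) (e x).1)) j =
        om (fun y => (e y).2) x ^ (i : ℕ) * om (fun y => r i j (e y).1) x := by
      intro i
      rw [pv_gv e rfl (hr i)]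
      rfl
    change om (a j) x = om (fun y => mon χ (e y).1 (e y).2) x * om (q j) x +
      (∑ i : Fin l, om (fun y => (e y).2) x ^ (i : ℕ) • pv e rfl (gv (r i) (e x).1)) j
    rw [Finset.sum_apply, h1, h2, h3, h4, Finset.sum_congr rfl fun i _ => h5 i,
      Finset.sum_congr rfl fun i _ => h6 i, mul_comm (om (q j) x)]
  have hkill' : ∀ c : Fin s → (O X).St (e x).1,
      pv e rfl (chiN χ N₀ (e x).1 c) ∈ rowSp (stepRows e ρ N₀) x := fun c =>
    pv_mem_step e rfl hρ (hkill c)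
  have h7 := chi_smul_mem e rfl hφ (rowSp (stepRows e ρ N₀) x) hS hχ hkill' (gv q x)
  have h8 : ∀ i : Fin l, om (fun y => (e y).2) x ^ (i : ℕ) • pv e rfl (gv (r i) (e x).1) -
      pv e rfl ((Nop N₀ (e x).1 ^ (i : ℕ)) (gv (r i) (e x).1)) ∈ rowSp (stepRows e ρ N₀) x :=
    fun i => v_pow_pv e rfl (rowSp (stepRows e ρ N₀) x) hS i (gv (r i) (e x).1)
  rw [hgv, pv_sum, add_sub_assoc, ← Finset.sum_sub_distrib]
  exact Submodule.add_mem _ h7 (Submodule.sum_mem _ fun i _ => h8 i)

/-- **One variable, surjectivity.**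

Proof. `exists_rep` for `A = stepRows e ρ N₀` (holomorphic: `stepRows_matAt`) gives `a`. Let `χ`, `r'` be from `hG.kill`. Divide each `a j` by `div_fib` (file SDiv,
`ρ := r'`, `R := R₀`): `q j`, `bb j : Fin l → X → ℂ`; put `r i j := bb j i`, `c := ∑ i, (Nop N₀ b ^ i) (gv (r i) b)`. Let `x` be in the fibre. If `‖(e x).2 - c₀‖ < R₀`:
near `x` the identity of the division holds (`∀ᶠ t' in 𝓝 b` pulled back by `tendsto_fst`, and `(e y).2 ∈ ball c₀ R₀` is open), so `gv_congr_rem` (with `(e x).1 = b`: `obtain ⟨rfl, hx2⟩ := hx`)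
gives `gv a x - pv c ∈ rowSp`; add `u x - gv a x`. If `R₀ ≤ ‖(e x).2 - c₀‖` the row space is everything (`step_top`). -/
theorem step_surj (e : Z ≃L[ℂ] X × ℂ) {ρ : ι → Fin s → X → ℂ} {N₀ : Fin s → Fin s → X → ℂ} {c₀ : ℂ}
    {R₀ : ℝ} {b : X} (hG : Good1 ρ N₀ c₀ R₀ b) (u : (x : Z) → Fin s → (O Z).St x)
    (hu : ∀ x ∈ fib e (Metric.closedBall c₀ R₀) b, SecMod (stepRows e ρ N₀) u x) :
    ∃ c : Fin s → (O X).St b, ∀ x (hx : x ∈ fib e (Metric.closedBall c₀ R₀) b),
      u x - pv e hx.1 c ∈ rowSp (stepRows e ρ N₀) x := by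
  obtain ⟨a, ha, hua⟩ := exists_rep (stepRows e ρ N₀) e c₀ R₀ b
    (fun x hx => stepRows_matAt e hx.1 hG.hρ hG.hN) u hu
  obtain ⟨l, χ, r', hχ, hr', hev⟩ := hG.kill
  have hroot : ∀ᶠ y in 𝓝 b, ∀ v, mon χ y v = 0 → ‖v - c₀‖ < r' := hev.mono fun y hy => hy.1
  have hkill := hev.self_of_nhds.2
  choose q bb hbb hdiv using fun j => div_fib e hr' hχ hroot (ha j)
  refine ⟨∑ i : Fin l, (Nop N₀ b ^ (i : ℕ)) (gv (fun j => bb j i) b), ?_⟩
  rintro x ⟨hx1, hx2⟩
  subst hx1
  by_cases hv : R₀ ≤ ‖(e x).2 - c₀‖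
  · rw [step_top e rfl hG hv]
    exact Submodule.mem_top
  · have hv' : (e x).2 ∈ Metric.ball c₀ R₀ := by
      rw [mem_ball_iff_norm]
      exact not_le.mp hv
    have hq : ∀ j, HolAt (q j) x := fun j => (hdiv j).self_of_nhds.1 x ⟨rfl, hv'⟩
    have hd : ∀ᶠ y in 𝓝 x, ∀ j, a j y = q j y * mon χ (e y).1 (e y).2 +
        ∑ i, bb j i (e y).1 * (e y).2 ^ (i : ℕ) := by
      have h1 := (tendsto_fst e (rfl : (e x).1 = (e x).1)).eventually (eventually_all.mpr hdiv)
      have h2 : ∀ᶠ y in 𝓝 x, (e y).2 ∈ Metric.ball c₀ R₀ :=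
        (continuous_snd.comp e.continuous).continuousAt.eventually
          (Metric.isOpen_ball.mem_nhds hv')
      filter_upwards [h1, h2] with y h3 h4 j
      exact (h3 j).2 y ⟨rfl, h4⟩
    have h5 := gv_congr_rem e (ρ := ρ) (N₀ := N₀) hG.hρ hG.hN hχ hkill
      (fun j => ha j x ⟨rfl, hx2⟩) hq (r := fun i j => bb j i) (fun i j => hbb j i) hd
    have h6 := Submodule.add_mem _ (hua x ⟨rfl, hx2⟩) h5
    rw [sub_add_sub_cancel] at h6
    exact h6

end MF

end Pool.Agent.DQ
end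

section

/-! Campaign DQ, module M12, block (f), file MF4c: one variable, injectivity. -/

set_option autoImplicit false
set_option linter.unusedVariables false

open Set Filter Topology

namespace Pool.Agent.DQ

namespace MF

variable {X Z : Type} [NormedAddCommGroup X] [NormedSpace ℂ X] [FiniteDimensional ℂ X]
  [NormedAddCommGroup Z] [NormedSpace ℂ Z] [FiniteDimensional ℂ Z] {ι : Type} [Fintype ι] {s : ℕ}

/-- **Division of a relation, at one point of the base.** The numbers `c l`, `ρ k l`, `N j l`, `χ i`, `A k i`, `B j i` and the functions `q j`, `q' k` of `v` in the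
disc satisfy `c l = ∑ k, α_k ρ k l + ∑ j, β_j (δ_{jl} v - N j l)` with `α_k = q'_k χ(v) + ∑ i, A k i v^i`, `β_j = q_j χ(v) + ∑ i, B j i v^i`. Then the remainders satisfy
the coefficient identities.

Proof. Insert the divisions and use `v ^ (m+1) = χ(v) - ∑ i, χ i * v ^ i` in the top term `∑ i, B l i v^(i+1)` (`Fin.sum_univ_castSucc`). One obtains
`G(v) * χ(v) + ∑ i, d i * v ^ i = 0` on the disc, where `d 0 = c l - ∑ k, A k 0 * ρ k l + ∑ j, B j 0 * N j l + χ 0 * B l (last m)`,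
`d i.succ = - ∑ k, A k i.succ * ρ k l - B l i.castSucc + ∑ j, B j i.succ * N j l + χ i.succ * B l (last m)` and
`G = -(∑ k, q' k * ρ k l + (q l * v - ∑ j, q j * N j l) + B l (last m))`. By `wdiv_unique` all `d i = 0`. -/
theorem coeff_rel {m : ℕ} {c₀ : ℂ} {R : ℝ} {χ : Fin (m + 1) → ℂ}
    (hroot : ∀ v, v ^ (m + 1) + ∑ j, χ j * v ^ (j : ℕ) = 0 → ‖v - c₀‖ < R) (c : Fin s → ℂ)
    (ρ : ι → Fin s → ℂ) (N : Fin s → Fin s → ℂ) (A : ι → Fin (m + 1) → ℂ)
    (B : Fin s → Fin (m + 1) → ℂ) (q' : ι → ℂ → ℂ) (q : Fin s → ℂ → ℂ)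
    (hq' : ∀ k, HolNear (q' k) (Metric.ball c₀ R)) (hq : ∀ j, HolNear (q j) (Metric.ball c₀ R))
    (h : ∀ v ∈ Metric.ball c₀ R, ∀ l, c l =
      ∑ k, (q' k v * (v ^ (m + 1) + ∑ j, χ j * v ^ (j : ℕ)) + ∑ i, A k i * v ^ (i : ℕ)) * ρ k l +
      ∑ j, (q j v * (v ^ (m + 1) + ∑ j, χ j * v ^ (j : ℕ)) + ∑ i, B j i * v ^ (i : ℕ)) *
        ((if j = l then v else 0) - N j l)) :
    (∀ l, c l - ∑ k, A k 0 * ρ k l + ∑ j, B j 0 * N j l + χ 0 * B l (Fin.last m) = 0) ∧
    ∀ (i : Fin m) l, - ∑ k, A k i.succ * ρ k l - B l i.castSucc + ∑ j, B j i.succ * N j l +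
      χ i.succ * B l (Fin.last m) = 0 := by
  have key : ∀ l, (fun i : Fin (m + 1) => (Fin.cons (c l) (fun _ => 0) : Fin (m + 1) → ℂ) i -
      ∑ k, A k i * ρ k l + ∑ j, B j i * N j l + χ i * B l (Fin.last m) -
      (Fin.cons 0 (fun i : Fin m => B l i.castSucc) : Fin (m + 1) → ℂ) i) = 0 := by
    intro l
    refine (wdiv_unique (c := c₀) (R := R) (k := m + 1) (a := χ)
      (q := fun v => -(∑ k, q' k v * ρ k l + (q l v * v - ∑ j, q j v * N j l) + B l (Fin.last m)))
      hroot ?_ ?_).1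
    · intro v hv
      refine HolAt.neg (HolAt.add (HolAt.add (HolAt.sum _ fun k _ => (hq' k v hv).mul
        (HolAt.const _ v)) (HolAt.sub ((hq l v hv).mul ?_) (HolAt.sum _ fun j _ =>
          (hq j v hv).mul (HolAt.const _ v)))) (HolAt.const _ v))
      exact Eventually.of_forall fun w => differentiableAt_id
    · intro v hv
      have h1 := h v hv l
      have e1 : ∑ i : Fin (m + 1), (Fin.cons (c l) (fun _ => 0) : Fin (m + 1) → ℂ) i * v ^ (i : ℕ) =
          c l := by
        rw [Fin.sum_univ_succ]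
        simp
      have e2 : ∑ i : Fin (m + 1), (Fin.cons 0 (fun i : Fin m => B l i.castSucc) :
          Fin (m + 1) → ℂ) i * v ^ (i : ℕ) =
          v * ∑ i, B l i * v ^ (i : ℕ) - B l (Fin.last m) * v ^ (m + 1) := by
        rw [Fin.sum_univ_succ, Fin.sum_univ_castSucc (fun i => B l i * v ^ (i : ℕ)), mul_add,
          Finset.mul_sum]
        simp only [Fin.cons_zero, zero_mul, Fin.cons_succ, Fin.val_succ, Fin.val_castSucc,
          Fin.val_last, zero_add]
        have e3 : ∀ i : Fin m, B l i.castSucc * v ^ ((i : ℕ) + 1) =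
            v * (B l i.castSucc * v ^ (i : ℕ)) := fun i => by rw [pow_succ]; ring
        rw [Finset.sum_congr rfl fun i _ => e3 i, pow_succ]
        ring
      have e4 : ∑ i : Fin (m + 1), (∑ k, A k i * ρ k l) * v ^ (i : ℕ) =
          ∑ k, (∑ i, A k i * v ^ (i : ℕ)) * ρ k l := by
        simp only [Finset.sum_mul]
        rw [Finset.sum_comm]
        exact Finset.sum_congr rfl fun k _ => Finset.sum_congr rfl fun i _ => by ring
      have e5 : ∑ i : Fin (m + 1), (∑ j, B j i * N j l) * v ^ (i : ℕ) =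
          ∑ j, (∑ i, B j i * v ^ (i : ℕ)) * N j l := by
        simp only [Finset.sum_mul]
        rw [Finset.sum_comm]
        exact Finset.sum_congr rfl fun k _ => Finset.sum_congr rfl fun i _ => by ring
      have e6 : ∑ i : Fin (m + 1), (χ i * B l (Fin.last m)) * v ^ (i : ℕ) =
          (∑ j, χ j * v ^ (j : ℕ)) * B l (Fin.last m) := by
        rw [Finset.sum_mul]
        exact Finset.sum_congr rfl fun i _ => by ring
      have e7 : ∑ i : Fin (m + 1), ((Fin.cons (c l) (fun _ => 0) : Fin (m + 1) → ℂ) i -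
          ∑ k, A k i * ρ k l + ∑ j, B j i * N j l + χ i * B l (Fin.last m) -
          (Fin.cons 0 (fun i : Fin m => B l i.castSucc) : Fin (m + 1) → ℂ) i) * v ^ (i : ℕ) =
          c l - ∑ k, (∑ i, A k i * v ^ (i : ℕ)) * ρ k l +
            ∑ j, (∑ i, B j i * v ^ (i : ℕ)) * N j l +
            (∑ j, χ j * v ^ (j : ℕ)) * B l (Fin.last m) -
            (v * ∑ i, B l i * v ^ (i : ℕ) - B l (Fin.last m) * v ^ (m + 1)) := by
        simp only [sub_mul, add_mul, Finset.sum_add_distrib, Finset.sum_sub_distrib]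
        rw [e1, e2, e4, e5, e6]
      have e8 : ∑ k, (q' k v * (v ^ (m + 1) + ∑ j, χ j * v ^ (j : ℕ)) +
          ∑ i, A k i * v ^ (i : ℕ)) * ρ k l =
          (∑ k, q' k v * ρ k l) * (v ^ (m + 1) + ∑ j, χ j * v ^ (j : ℕ)) +
            ∑ k, (∑ i, A k i * v ^ (i : ℕ)) * ρ k l := by
        rw [Finset.sum_mul, ← Finset.sum_add_distrib]
        exact Finset.sum_congr rfl fun k _ => by ring
      have e9 : ∑ j, (q j v * (v ^ (m + 1) + ∑ j, χ j * v ^ (j : ℕ)) +
          ∑ i, B j i * v ^ (i : ℕ)) * ((if j = l then v else 0) - N j l) =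
          (q l v * (v ^ (m + 1) + ∑ j, χ j * v ^ (j : ℕ)) + ∑ i, B l i * v ^ (i : ℕ)) * v -
          ((∑ j, q j v * N j l) * (v ^ (m + 1) + ∑ j, χ j * v ^ (j : ℕ)) +
            ∑ j, (∑ i, B j i * v ^ (i : ℕ)) * N j l) := by
        have e10 : ∑ j, (q j v * (v ^ (m + 1) + ∑ j, χ j * v ^ (j : ℕ)) +
            ∑ i, B j i * v ^ (i : ℕ)) * (if j = l then v else 0) =
            (q l v * (v ^ (m + 1) + ∑ j, χ j * v ^ (j : ℕ)) + ∑ i, B l i * v ^ (i : ℕ)) * v := by
          rw [Finset.sum_eq_single l]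
          · rw [if_pos rfl]
          · intro j _ hj
            rw [if_neg hj, mul_zero]
          · intro h2
            exact absurd (Finset.mem_univ l) h2
        rw [← e10, Finset.sum_mul, ← Finset.sum_add_distrib, ← Finset.sum_sub_distrib]
        exact Finset.sum_congr rfl fun j _ => by ring
      rw [e8, e9] at h1
      rw [e7]
      linear_combination h1
  refine ⟨fun l => ?_, fun i l => ?_⟩
  · have h1 := congrFun (key l) 0
    simp only [Fin.cons_zero, Pi.zero_apply, sub_zero] at h1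
    exact h1
  · have h1 := congrFun (key l) i.succ
    simp only [Fin.cons_succ, Pi.zero_apply, zero_sub] at h1
    linear_combination h1

private theorem m4c_sub {V : Type} [NormedAddCommGroup V] [NormedSpace ℂ V] {f g : V → ℂ} {x : V}
    (hf : HolAt f x) (hg : HolAt g x) : om (fun y => f y - g y) x = om f x - om g x := by
  have h1 : om (fun y => f y + -g y) x = om f x + om (fun y => -g y) x := om_add hf hg.neg
  have h2 : om (fun y => -g y) x = -om g x := gm_neg hg
  rw [sub_eq_add_neg, ← h2, ← h1]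
  simp only [sub_eq_add_neg]

private theorem m4c_neg {V : Type} [NormedAddCommGroup V] [NormedSpace ℂ V] {g : V → ℂ} {x : V}
    (hg : HolAt g x) : om (fun y => -g y) x = -om g x := gm_neg hg

/-- **The coefficient identities imply membership.**

Proof. `step_alg` for the module `Fin s → (O X).St b`, `S = rowSp ρ b`, `N = Nop N₀ b`, `B i := gv (fun j => B j i) b`, `a i := om (χ i) b`, `c := gv c b`,
`r i := ∑ k, om (A k i) b • gv (ρ k) b` (in `S`). The hypotheses `h0`, `h1` of `step_alg` are the germs at `b` of the identities `h`: the components are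
germs of the functions (`om_add`, `om_mul`, `om_sum`, `gm_neg`, `om_congr`, `om_zero`; `Nop_apply`, `Finset.sum_apply`). `hkill` is `hχ`. -/
theorem mem_of_coeff {m : ℕ} {b : X} {ρ : ι → Fin s → X → ℂ} {N₀ : Fin s → Fin s → X → ℂ}
    {χ : Fin (m + 1) → X → ℂ} (hρ : MatAt ρ b) (hN : MatAt N₀ b) (hχ : ∀ j, HolAt (χ j) b)
    (hstab : ∀ c ∈ rowSp ρ b, Nop N₀ b c ∈ rowSp ρ b)
    (hkill : ∀ c, chiN χ N₀ b c ∈ rowSp ρ b) {c : Fin s → X → ℂ} (hc : ∀ j, HolAt (c j) b)
    {A : ι → Fin (m + 1) → X → ℂ} (hA : ∀ k i, HolAt (A k i) b)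
    {B : Fin s → Fin (m + 1) → X → ℂ} (hB : ∀ j i, HolAt (B j i) b)
    (h : ∀ᶠ t in 𝓝 b,
      (∀ l, c l t - ∑ k, A k 0 t * ρ k l t + ∑ j, B j 0 t * N₀ j l t + χ 0 t * B l (Fin.last m) t = 0) ∧
      ∀ (i : Fin m) l, - ∑ k, A k i.succ t * ρ k l t - B l i.castSucc t + ∑ j, B j i.succ t * N₀ j l t +
        χ i.succ t * B l (Fin.last m) t = 0) :
    gv c b ∈ rowSp ρ b := by
  have hr : ∀ i : Fin (m + 1), ∑ k, om (A k i) b • gv (ρ k) b ∈ rowSp ρ b := fun i =>
    Submodule.sum_mem _ fun k _ => Submodule.smul_mem _ _ (Submodule.subset_span ⟨k, rfl⟩)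
  have hsum1 : ∀ (i : Fin (m + 1)) (l : Fin s), (∑ k, om (A k i) b • gv (ρ k) b) l =
      om (fun t => ∑ k, A k i t * ρ k l t) b := by
    intro i l
    rw [om_sum _ fun k _ => (hA k i).mul (hρ k l), Finset.sum_apply]
    exact Finset.sum_congr rfl fun k _ => (om_mul (hA k i) (hρ k l)).symm
  have hsum2 : ∀ (i : Fin (m + 1)) (l : Fin s), (Nop N₀ b (gv (fun j => B j i) b)) l =
      om (fun t => ∑ j, B j i t * N₀ j l t) b := by
    intro i l
    rw [om_sum _ fun j _ => (hB j i).mul (hN j l), Nop_apply, Finset.sum_apply]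
    exact Finset.sum_congr rfl fun j _ => (om_mul (hB j i) (hN j l)).symm
  have hsum3 : ∀ (i : Fin (m + 1)) (l : Fin s), (om (χ i) b • gv (fun j => B j (Fin.last m)) b) l =
      om (fun t => χ i t * B l (Fin.last m) t) b := fun i l =>
    (om_mul (hχ i) (hB l (Fin.last m))).symm
  refine step_alg (rowSp ρ b) (Nop N₀ b) hstab (fun i => gv (fun j => B j i) b)
    (fun i => om (χ i) b) (fun i => ∑ k, om (A k i) b • gv (ρ k) b) hr (gv c b) ?_ ?_ (hkill _)
  · funext l
    have h1 : HolAt (fun t => ∑ k, A k 0 t * ρ k l t) b :=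
      HolAt.sum _ fun k _ => (hA k 0).mul (hρ k l)
    have h2 : HolAt (fun t => ∑ j, B j 0 t * N₀ j l t) b :=
      HolAt.sum _ fun j _ => (hB j 0).mul (hN j l)
    have h3 : HolAt (fun t => χ 0 t * B l (Fin.last m) t) b := (hχ 0).mul (hB l (Fin.last m))
    have h4 : om (fun t => c l t - ∑ k, A k 0 t * ρ k l t + ∑ j, B j 0 t * N₀ j l t +
        χ 0 t * B l (Fin.last m) t) b = 0 := by
      rw [← om_zero b]
      refine om_congr ((((hc l).sub h1).add h2).add h3) ?_
      filter_upwards [h] with t ht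
      exact ht.1 l
    rw [om_add (((hc l).sub h1).add h2) h3, om_add ((hc l).sub h1) h2, m4c_sub (hc l) h1,
      ← hsum1, ← hsum2, ← hsum3] at h4
    exact h4
  · intro i
    funext l
    have h1 : HolAt (fun t => ∑ k, A k i.succ t * ρ k l t) b :=
      HolAt.sum _ fun k _ => (hA k i.succ).mul (hρ k l)
    have h2 : HolAt (fun t => ∑ j, B j i.succ t * N₀ j l t) b :=
      HolAt.sum _ fun j _ => (hB j i.succ).mul (hN j l)
    have h3 : HolAt (fun t => χ i.succ t * B l (Fin.last m) t) b :=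
      (hχ i.succ).mul (hB l (Fin.last m))
    have h4 : om (fun t => - ∑ k, A k i.succ t * ρ k l t - B l i.castSucc t +
        ∑ j, B j i.succ t * N₀ j l t + χ i.succ t * B l (Fin.last m) t) b = 0 := by
      rw [← om_zero b]
      refine om_congr (((h1.neg.sub (hB l i.castSucc)).add h2).add h3) ?_
      filter_upwards [h] with t ht
      exact ht.2 i l
    rw [om_add ((h1.neg.sub (hB l i.castSucc)).add h2) h3,
      om_add (h1.neg.sub (hB l i.castSucc)) h2, m4c_sub h1.neg (hB l i.castSucc), m4c_neg h1,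
      ← hsum1, ← hsum2, ← hsum3] at h4
    exact h4

/-- **One variable, injectivity.**

Proof. Let `χ : Fin l → X → ℂ`, `r'` be from `hG.kill`. If `l = 0` then `chiN χ N₀ b c = c` (`pow_zero`, empty sum) is in `rowSp ρ b`. Let `l = m + 1`. Write
`c = gv c' b` (`exists_gv`). `exists_coeff` for `A = stepRows e ρ N₀` and `a = fun j y => c' j (e y).1` (`gv a x = pv e hx.1 c` by `pv_gv`): functions `α k`,
`k : ι`, and `β j`, `j : Fin s` (index type `ι ⊕ Fin s`, `Fintype.sum_sum_type`), near the fibre disc with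
`gv a x = ∑ k, om (α k) x • gv (inl k row) x + ∑ j, om (β j) x • gv (inr j row) x` on the fibre. Equality of germs at the points of the compact fibre gives equality of values
near the fibre (`gm_eq_iff`; `fib_tube` with `isCompact_closedBall`): for `t` near `b` and all `y` in the fibre over `t`:
`c' l t = ∑ k, α k y * ρ k l t + ∑ j, β j y * ((if j = l then (e y).2 else 0) - N₀ j l t)`. Divide `α k`, `β j` by `div_fib` (file SDiv, with `ρ := r'`). For `t` near `b`
apply `coeff_rel` with `R := R₀`, `q j v := (quotient) (e.symm (t, v))`. Then `mem_of_coeff`. -/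
theorem step_inj (e : Z ≃L[ℂ] X × ℂ) {ρ : ι → Fin s → X → ℂ} {N₀ : Fin s → Fin s → X → ℂ} {c₀ : ℂ}
    {R₀ : ℝ} {b : X} (hG : Good1 ρ N₀ c₀ R₀ b) (c : Fin s → (O X).St b)
    (h : ∀ x (hx : x ∈ fib e (Metric.closedBall c₀ R₀) b),
      pv e hx.1 c ∈ rowSp (stepRows e ρ N₀) x) : c ∈ rowSp ρ b := by
  obtain ⟨l, χ, r', hχ, hr', hkill⟩ := hG.kill
  rcases Nat.eq_zero_or_pos l with rfl | hl
  · have h1 := hkill.self_of_nhds.2 c
    unfold chiN at h1
    simpa using h1
  obtain ⟨m, rfl⟩ : ∃ m, l = m + 1 := ⟨l - 1, by omega⟩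
  obtain ⟨c', hc', rfl⟩ := exists_gv c
  have hmat : ∀ x ∈ fib e (Metric.closedBall c₀ R₀) b, MatAt (stepRows e ρ N₀) x := fun x hx =>
    stepRows_matAt e hx.1 hG.hρ hG.hN
  obtain ⟨α, hα, hα2⟩ := exists_coeff (stepRows e ρ N₀) e c₀ R₀ b hmat
    (fun j y => c' j (e y).1) (fun j x hx => (hc' j).comp_fst e hx.1) (fun x hx => by
      rw [← pv_gv e hx.1 hc']
      exact h x hx)
  -- the identity near the fibre
  have hnear : ∀ᶠ t in 𝓝 b, ∀ x ∈ fib e (Metric.closedBall c₀ R₀) t, ∀ l, c' l (e x).1 =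
      ∑ k, α k x * stepRows e ρ N₀ k l x := by
    refine fib_tube e (isCompact_closedBall c₀ R₀) fun x hx => ?_
    rw [eventually_all]
    intro l
    have h1 := congrFun (hα2 x hx) l
    rw [Finset.sum_apply] at h1
    have h2 : om (fun y => ∑ k, α k y * stepRows e ρ N₀ k l y) x =
        ∑ k, (om (α k) x • gv (stepRows e ρ N₀ k) x) l := by
      rw [om_sum _ fun k _ => (hα k x hx).mul (hmat x hx k l)]
      exact Finset.sum_congr rfl fun k _ => om_mul (hα k x hx) (hmat x hx k l)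
    rw [← h2] at h1
    exact (gm_eq_iff ((hc' l).comp_fst e hx.1) (HolAt.sum _ fun k _ =>
      (hα k x hx).mul (hmat x hx k l))).1 h1
  have hroot : ∀ᶠ t' in 𝓝 b, ∀ v, mon χ t' v = 0 → ‖v - c₀‖ < r' := hkill.mono fun t ht => ht.1
  choose q bb hbb hq using fun k => div_fib e hr' hχ hroot (hα k)
  refine mem_of_coeff hG.hρ hG.hN hχ hG.stab.self_of_nhds hkill.self_of_nhds.2 hc'
    (A := fun k i => bb (Sum.inl k) i) (fun k i => hbb _ i)
    (B := fun j i => bb (Sum.inr j) i) (fun j i => hbb _ i) ?_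
  filter_upwards [hnear, hroot, eventually_all.mpr hq] with t h1 h2 h3
  have hmem : ∀ v ∈ Metric.ball c₀ R₀, e.symm (t, v) ∈ fib e (Metric.ball c₀ R₀) t := by
    intro v hv
    refine ⟨?_, ?_⟩
    · rw [e.apply_symm_apply]
    · rw [e.apply_symm_apply]
      exact hv
  have hqh : ∀ k, HolNear (fun v => q k (e.symm (t, v))) (Metric.ball c₀ R₀) := by
    intro k v hv
    refine HolAt.comp (f := q k) (g := fun w : ℂ => e.symm (t, w)) ((h3 k).1 _ (hmem v hv))
      (Eventually.of_forall fun w => ?_)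
    exact (e.symm : X × ℂ →L[ℂ] Z).differentiableAt.comp w
      ((differentiableAt_const t).prodMk differentiableAt_id)
  refine coeff_rel (c₀ := c₀) (R := R₀) (χ := fun j => χ j t) (fun v hv => (h2 v hv).trans hr')
    (fun l => c' l t) (fun k l => ρ k l t) (fun j l => N₀ j l t)
    (fun k i => bb (Sum.inl k) i t) (fun j i => bb (Sum.inr j) i t)
    (fun k v => q (Sum.inl k) (e.symm (t, v))) (fun j v => q (Sum.inr j) (e.symm (t, v)))
    (fun k => hqh _) (fun j => hqh _) ?_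
  intro v hv l
  have h4 := hmem v hv
  have h5 := h1 _ ⟨h4.1, Metric.ball_subset_closedBall h4.2⟩ l
  have h6 : (e (e.symm (t, v))).1 = t := by rw [e.apply_symm_apply]
  have h7 : (e (e.symm (t, v))).2 = v := by rw [e.apply_symm_apply]
  rw [Fintype.sum_sum_type] at h5
  have h8 : ∀ k, α k (e.symm (t, v)) = q k (e.symm (t, v)) * mon χ t v +
      ∑ j, bb k j t * v ^ (j : ℕ) := by
    intro k
    have h9 := (h3 k).2 _ h4
    rw [h6, h7] at h9
    exact h9
  simp only [h8, stepRows, h6, h7] at h5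
  exact h5

end MF

end Pool.Agent.DQ
end

section

/-! Campaign DQ, module M12, block (f), file MF5c: no variable. -/

set_option autoImplicit false
set_option linter.unusedVariables false

open Set Filter Topology

namespace Pool.Agent.DQ

namespace MF

variable {X V : Type} [NormedAddCommGroup X] [NormedSpace ℂ X] [FiniteDimensional ℂ X]
  [NormedAddCommGroup V] [NormedSpace ℂ V] [FiniteDimensional ℂ V] {ι : Type} [Finite ι] {s : ℕ}

/-- **No variable, injectivity.** (`Fin 0 → ℂ` has one element.)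

Proof. The point `x = e.symm (b, 0)` is in the fibre (`mem_PD` is empty). The row space at `x` is spanned by the `gv (bigRows .. (inl k)) x = pv e hx (gv (ρ k) b)` (the other
index type `Fin 0 × Fin s` is empty), so `pv e hx c = ∑ k, d k • pv e hx (gv (ρ k) b)`; `pullS e hx` is bijective (`pullS_bijective_point`, file SIter), `d k = pullS e hx (d' k)`;
injectivity of `pullS` gives `c = ∑ k, d' k • gv (ρ k) b`. -/
theorem zero_inj (e : V ≃L[ℂ] X × (Fin 0 → ℂ)) {ρ : ι → Fin s → X → ℂ}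
    {N : Fin 0 → Fin s → Fin s → X → ℂ} {cc : Fin 0 → ℂ} {RR : Fin 0 → ℝ} {b : X}
    (hρ : MatAt ρ b) (c : Fin s → (O X).St b)
    (h : ∀ x (hx : x ∈ fib e (PD cc RR) b), pv e hx.1 c ∈ rowSp (bigRows e ρ N) x) :
    c ∈ rowSp ρ b := by
  have hbij := pullS_bijective_point (W := Fin 0 → ℂ) e b
  have hx : (e (e.symm (b, (0 : Fin 0 → ℂ)))).1 = b := by simp
  have h1 := h (e.symm (b, 0)) ⟨hx, mem_PD.2 fun i => i.elim0⟩
  have h2 : ∀ v ∈ rowSp (bigRows e ρ N) (e.symm (b, (0 : Fin 0 → ℂ))),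
      ∃ c' ∈ rowSp ρ b, pv e hx c' = v := by
    intro v hv
    induction hv using Submodule.span_induction with
    | mem v hv =>
      obtain ⟨k, rfl⟩ := hv
      rcases k with k | p
      · exact ⟨gv (ρ k) b, Submodule.subset_span ⟨k, rfl⟩, pv_gv e hx (hρ k)⟩
      · exact p.1.elim0
    | zero => exact ⟨0, Submodule.zero_mem _, pv_zero e hx⟩
    | add v w _ _ hv hw =>
      obtain ⟨c₁, h₁, rfl⟩ := hv
      obtain ⟨c₂, h₂, rfl⟩ := hw
      exact ⟨c₁ + c₂, Submodule.add_mem _ h₁ h₂, pv_add e hx c₁ c₂⟩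
    | smul a v _ hv =>
      obtain ⟨c₁, h₁, rfl⟩ := hv
      obtain ⟨a', rfl⟩ := hbij.2 a
      exact ⟨a' • c₁, Submodule.smul_mem _ a' h₁, pv_smul e hx a' c₁⟩
  obtain ⟨c', hc', he⟩ := h2 _ h1
  have : c' = c := funext fun j => hbij.1 (congrFun he j)
  rwa [← this]

/-- **No variable, surjectivity.**

Proof. The only point of the fibre is `x = e.symm (b, 0)`; `c j := ` the preimage of `u x j` under the bijection `pullS e _` (`pullS_bijective_point`); then `u x - pv e hx.1 c = 0`. -/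
theorem zero_surj (e : V ≃L[ℂ] X × (Fin 0 → ℂ)) {ρ : ι → Fin s → X → ℂ}
    {N : Fin 0 → Fin s → Fin s → X → ℂ} {cc : Fin 0 → ℂ} {RR : Fin 0 → ℝ} {b : X}
    (u : (x : V) → Fin s → (O V).St x) :
    ∃ c : Fin s → (O X).St b, ∀ x (hx : x ∈ fib e (PD cc RR) b),
      u x - pv e hx.1 c ∈ rowSp (bigRows e ρ N) x := by
  have hbij := pullS_bijective_point (W := Fin 0 → ℂ) e b
  choose c hc using fun j => hbij.2 (u (e.symm (b, (0 : Fin 0 → ℂ))) j)
  refine ⟨c, fun x hx => ?_⟩
  obtain rfl : e.symm (b, (0 : Fin 0 → ℂ)) = x := by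
    rw [e.symm_apply_eq]
    exact Prod.ext hx.1.symm (Subsingleton.elim _ _)
  have h : u (e.symm (b, (0 : Fin 0 → ℂ))) = pv e hx.1 c := funext fun j => (hc j).symm
  rw [h, sub_self]
  exact Submodule.zero_mem _

end MF

end Pool.Agent.DQ
end

section

/-! Germs of homomorphisms between two coherent modules have the Hartogs property, if the target has
it. -/

set_option autoImplicit false
set_option linter.unusedSectionVars false

open Set Filter Topology

universe u v w w'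

namespace Pool.Agent.DQ

section pres

variable {V : Type u} [NormedAddCommGroup V] [NormedSpace ℂ V] [FiniteDimensional ℂ V]
  (𝓐 : Defo.{u, v} V) {n : ℕ} (κ : V ≃L[ℂ] (Fin n → ℂ)) (c : Fin n → ℂ) (r R : Fin n → ℝ)

/-- relations between sections near a closed box are generated by finitely many relations near the
closed box -/
theorem Defo.relGen_box (F : EMod.{u, v, w} 𝓐.A) (hF : F.Coh (cbox κ c r R))
    (hrR : GoodRadii r R) {p : ℕ} (g : Fin p → (x : V) → F.St x)
    (hg : ∀ i, F.On (g i) (cbox κ c r R)) :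
    ∃ (q : ℕ) (ρ : Fin q → Fin p → (x : V) → 𝓐.A.St x),
      (∀ j i, ∀ x ∈ cbox κ c r R, 𝓐.A.At (ρ j i) x) ∧
      ∀ x ∈ cbox κ c r R, F.rel g x =
        Submodule.span (𝓐.A.St x) (range fun j => fun i => ρ j i x) := by
  set L := 𝓐.A.free p with hL
  set N := L.sub (F.relSub g) (F.relSub_open g) with hN
  have hcoh : N.Coh (cbox κ c r R) := by
    intro y hy
    filter_upwards [hF y hy, eventually_all.mpr fun i => F.ev (hg i y hy)] with z hz hgz
    obtain ⟨m, ρ, hρ, hrel⟩ := hz.relFG g hgz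
    have hzA : z ∈ 𝓐.A.dom := F.dom_sub hz.1
    refine L.sub_cohAt _ _ ((𝓐.oka p z hzA).self_of_nhds) (fun k y i => ρ k i y)
      (fun k => ⟨hzA, fun i => hρ k i⟩) ?_
    filter_upwards [hrel, F.relSub_near g hz.1 hgz] with w w1 w2
    rw [w2]
    exact w1
  have htf : TF 𝓐 N (cbox κ c r R) := by
    intro y hy m hm
    have hyA : y ∈ 𝓐.A.dom := F.dom_sub (hF.cohAt hy).1
    apply Subtype.ext
    exact 𝓐.tf_free hyA _ (congrArg Subtype.val hm)
  obtain ⟨q, G, hG, hGen⟩ := 𝓐.cartanA κ c r R N hcoh htf hrR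
  let G' : Fin q → (y : V) → F.relSub g y := G
  refine ⟨q, fun j i y => (G' j y : Fin p → 𝓐.A.St y) i, fun j i y hy => (hG j y hy).2 i, ?_⟩
  intro y hy
  have hy1 := (hF.cohAt hy).1
  rw [← F.relSub_eq g hy1 fun i => hg i y hy]
  have h1 : Submodule.span (𝓐.A.St y) (Set.range fun k => G' k y) = ⊤ := hGen y hy
  apply le_antisymm
  · intro m hm
    have h2 : (⟨m, hm⟩ : F.relSub g y) ∈ Submodule.span (𝓐.A.St y)
        (Set.range fun k => G' k y) := by
      rw [h1]
      exact Submodule.mem_top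
    obtain ⟨e, he⟩ := mem_span_fam.mp h2
    have h3 := congrArg Subtype.val he
    rw [AddSubmonoidClass.coe_finsetSum] at h3
    exact mem_span_fam.mpr ⟨e, h3⟩
  · rw [Submodule.span_le]
    rintro _ ⟨k, rfl⟩
    exact (G' k y).2

end pres

section hom

variable {X : Type u} [TopologicalSpace X] {R : ERing.{u, v} X}

/-- `f` is a homomorphism of sheaves near `x` -/
def HomAt (M : EMod.{u, v, w} R) (N : EMod.{u, v, w'} R) (f : (x : X) → M.St x → N.St x)
    (x : X) : Prop :=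
  x ∈ M.dom ∧ x ∈ N.dom ∧ ∀ᶠ y in 𝓝 x, (∀ m m', f y (m + m') = f y m + f y m') ∧
    (∀ (a : R.St y) m, f y (a • m) = a • f y m) ∧
    ∀ s, M.At s y → N.At (fun y' => f y' (s y')) y

theorem HomAt.ev {M : EMod.{u, v, w} R} {N : EMod.{u, v, w'} R} {f : (x : X) → M.St x → N.St x}
    {x : X} (h : HomAt M N f x) : ∀ᶠ y in 𝓝 x, HomAt M N f y := by
  filter_upwards [M.isOpen_dom.mem_nhds h.1, N.isOpen_dom.mem_nhds h.2.1,
    eventually_eventually_nhds.mpr h.2.2] with y h1 h2 h3
  exact ⟨h1, h2, h3⟩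

theorem HomAt.congr {M : EMod.{u, v, w} R} {N : EMod.{u, v, w'} R}
    {f g : (x : X) → M.St x → N.St x} {x : X} (h : HomAt M N f x)
    (h' : ∀ᶠ y in 𝓝 x, f y = g y) : HomAt M N g x := by
  refine ⟨h.1, h.2.1, ?_⟩
  filter_upwards [h.2.2, eventually_eventually_nhds.mpr h'] with y h1 h2
  have h3 := h2.self_of_nhds
  refine ⟨?_, ?_, ?_⟩
  · rw [← h3]
    exact h1.1
  · rw [← h3]
    exact h1.2.1
  · intro s hs
    refine N.congr (h1.2.2 s hs) ?_
    filter_upwards [h2] with z hz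
    rw [hz]

theorem HomAt.map_add {M : EMod.{u, v, w} R} {N : EMod.{u, v, w'} R}
    {f : (x : X) → M.St x → N.St x} {x : X} (h : HomAt M N f x) (m m' : M.St x) :
    f x (m + m') = f x m + f x m' := h.2.2.self_of_nhds.1 m m'

theorem HomAt.map_smul {M : EMod.{u, v, w} R} {N : EMod.{u, v, w'} R}
    {f : (x : X) → M.St x → N.St x} {x : X} (h : HomAt M N f x) (a : R.St x) (m : M.St x) :
    f x (a • m) = a • f x m := h.2.2.self_of_nhds.2.1 a m

theorem HomAt.at {M : EMod.{u, v, w} R} {N : EMod.{u, v, w'} R}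
    {f : (x : X) → M.St x → N.St x} {x : X} (h : HomAt M N f x) {s : (x : X) → M.St x}
    (hs : M.At s x) : N.At (fun y => f y (s y)) x := h.2.2.self_of_nhds.2.2 s hs

theorem HomAt.map_zero {M : EMod.{u, v, w} R} {N : EMod.{u, v, w'} R}
    {f : (x : X) → M.St x → N.St x} {x : X} (h : HomAt M N f x) : f x 0 = 0 := by
  have := h.map_add 0 0
  rw [add_zero] at this
  exact left_eq_add.mp this

theorem HomAt.map_sum {M : EMod.{u, v, w} R} {N : EMod.{u, v, w'} R}
    {f : (x : X) → M.St x → N.St x} {x : X} (h : HomAt M N f x) {ι : Type*} (I : Finset ι)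
    (a : ι → R.St x) (m : ι → M.St x) :
    f x (∑ i ∈ I, a i • m i) = ∑ i ∈ I, a i • f x (m i) := by
  classical
  induction I using Finset.induction_on with
  | empty => rw [Finset.sum_empty, Finset.sum_empty, h.map_zero]
  | insert j s hj ih => rw [Finset.sum_insert hj, Finset.sum_insert hj, h.map_add, h.map_smul, ih]

/-- a homomorphism is determined by its values on generators -/
theorem HomAt.ext_gen {M : EMod.{u, v, w} R} {N : EMod.{u, v, w'} R}
    {f f' : (x : X) → M.St x → N.St x} {x : X} (h : HomAt M N f x) (h' : HomAt M N f' x) {p : ℕ}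
    {g : Fin p → M.St x} (hg : Submodule.span (R.St x) (range g) = ⊤)
    (e : ∀ i, f x (g i) = f' x (g i)) : f x = f' x := by
  funext m
  have hm : m ∈ Submodule.span (R.St x) (range g) := by
    rw [hg]
    exact Submodule.mem_top
  obtain ⟨c, hc⟩ := mem_span_fam.mp hm
  rw [hc, h.map_sum, h'.map_sum]
  exact Finset.sum_congr rfl fun i _ => by rw [e]

theorem HomAt.inj {M : EMod.{u, v, w} R} {N : EMod.{u, v, w'} R}
    {f f' : (x : X) → M.St x → N.St x} {x : X} (hM : M.CohAt x) (h : HomAt M N f x)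
    (h' : HomAt M N f' x) (e : f x = f' x) : ∀ᶠ y in 𝓝 x, f y = f' y := by
  obtain ⟨p, g, hg, hgen⟩ := hM.2.1
  have h1 : ∀ᶠ y in 𝓝 x, ∀ i, f y (g i y) = f' y (g i y) :=
    eventually_all.mpr fun i => N.inj (h.at (hg i)) (h'.at (hg i)) (by rw [e])
  filter_upwards [h1, hgen, h.ev, h'.ev] with y y1 y2 y3 y4
  exact y3.ext_gen y4 y2 y1

/-- homomorphisms from generators and relations -/
theorem exists_hom (M : EMod.{u, v, w} R) (N : EMod.{u, v, w'} R) {p q : ℕ}
    (g : Fin p → (x : X) → M.St x) (ρ : Fin q → Fin p → (x : X) → R.St x)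
    (ν : Fin p → (x : X) → N.St x) (B : Set X) (hB : IsOpen B) (hg : ∀ i, M.On (g i) B)
    (hgen : M.Gen g B)
    (hrel : ∀ x ∈ B, M.rel g x = Submodule.span (R.St x) (range fun j => fun i => ρ j i x))
    (hν : ∀ i, N.On (ν i) B) (hBN : B ⊆ N.dom) (hBM : B ⊆ M.dom)
    (hρν : ∀ x ∈ B, ∀ j, ∑ i, ρ j i x • ν i x = 0) :
    ∃ f : (x : X) → M.St x → N.St x, (∀ x ∈ B, HomAt M N f x) ∧ ∀ x ∈ B, ∀ i, f x (g i x) = ν i x := by
  classical
  have hex : ∀ x ∈ B, ∀ m : M.St x, ∃ c : Fin p → R.St x, m = ∑ i, c i • g i x := by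
    intro x hx m
    have hm : m ∈ Submodule.span (R.St x) (range fun i => g i x) := by
      rw [hgen x hx]
      exact Submodule.mem_top
    exact mem_span_fam.mp hm
  have hwd : ∀ x ∈ B, ∀ c c' : Fin p → R.St x, ∑ i, c i • g i x = ∑ i, c' i • g i x →
      ∑ i, c i • ν i x = ∑ i, c' i • ν i x := by
    intro x hx c c' e
    have h1 : c - c' ∈ M.rel g x := by
      change ∑ i, (c - c') i • g i x = 0
      simp only [Pi.sub_apply, sub_smul, Finset.sum_sub_distrib, e, sub_self]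
    rw [hrel x hx] at h1
    obtain ⟨d, hd⟩ := mem_span_fam.mp h1
    rw [← sub_eq_zero, ← Finset.sum_sub_distrib]
    have h2 : ∀ i, c i • ν i x - c' i • ν i x = ∑ j, d j • (ρ j i x • ν i x) := by
      intro i
      have := congrFun hd i
      rw [Pi.sub_apply, Finset.sum_apply] at this
      rw [← sub_smul, this, Finset.sum_smul]
      exact Finset.sum_congr rfl fun j _ => by rw [Pi.smul_apply, smul_eq_mul, mul_smul]
    simp only [h2]
    rw [Finset.sum_comm]
    refine Finset.sum_eq_zero fun j _ => ?_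
    rw [← Finset.smul_sum, hρν x hx j, smul_zero]
  choose! c hc using hex
  let f : (x : X) → M.St x → N.St x := fun x m => if x ∈ B then ∑ i, c x m i • ν i x else 0
  have hf : ∀ x ∈ B, ∀ (e : Fin p → R.St x), f x (∑ i, e i • g i x) = ∑ i, e i • ν i x := by
    intro x hx e
    simp only [f, if_pos hx]
    exact hwd x hx _ _ (hc x hx _).symm
  have hfl : ∀ x ∈ B, (∀ m m', f x (m + m') = f x m + f x m') ∧
      ∀ (a : R.St x) m, f x (a • m) = a • f x m := by
    intro x hx
    constructor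
    · intro m m'
      rw [hc x hx m, hc x hx m', ← Finset.sum_add_distrib]
      simp only [← add_smul]
      rw [hf x hx, hf x hx, hf x hx, ← Finset.sum_add_distrib]
      simp only [← add_smul]
    · intro a m
      rw [hc x hx m, Finset.smul_sum]
      simp only [smul_smul]
      rw [hf x hx, hf x hx, Finset.smul_sum]
      simp only [smul_smul]
  refine ⟨f, fun x hx => ⟨hBM hx, hBN hx, ?_⟩, fun x hx i => ?_⟩
  · filter_upwards [hB.mem_nhds hx] with y hy
    refine ⟨(hfl y hy).1, (hfl y hy).2, fun s hs => ?_⟩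
    obtain ⟨a, ha, hsa⟩ := M.near_comb (hBM hy) hs (fun i => hg i y hy)
      (by rw [hgen y hy]; exact Submodule.mem_top)
    refine N.congr (N.comb (hBN hy) ha fun i => hν i y hy) ?_
    filter_upwards [hsa, hB.mem_nhds hy] with z hz hzB
    rw [hz, hf z hzB]
  · have h1 : g i x = ∑ j, (Pi.single i 1 : Fin p → R.St x) j • g j x := by
      rw [Finset.sum_eq_single i]
      · rw [Pi.single_eq_same, one_smul]
      · intro j _ hj
        rw [Pi.single_eq_of_ne hj, zero_smul]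
      · intro h
        exact absurd (Finset.mem_univ i) h
    rw [h1, hf x hx, Finset.sum_eq_single i]
    · rw [Pi.single_eq_same, one_smul]
    · intro j _ hj
      rw [Pi.single_eq_of_ne hj, zero_smul]
    · intro h
      exact absurd (Finset.mem_univ i) h

end hom

section hartogs

variable {V : Type u} [NormedAddCommGroup V] [NormedSpace ℂ V] [FiniteDimensional ℂ V]
  {𝓐 : Defo.{u, v} V}

theorem HFig.good {n : ℕ} {R : Fin n → ℝ} (hR : ∀ i, 0 < R i) :
    GoodRadii (n := n) (fun _ => -1) R := fun i => ⟨by norm_num, by linarith [hR i], hR i⟩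

/-- germs of homomorphisms have the Hartogs property -/
theorem hartogs_hom {M : EMod.{u, v, w} 𝓐.A} {N : EMod.{u, v, w'} 𝓐.A} {d n : ℕ} {Ω : Set V}
    (hM : M.Coh Ω) (htf : TF 𝓐 M Ω) (hNΩ : Ω ⊆ N.dom)
    (hN : HartogsProp (fun (s : (x : V) → N.St x) x => N.At s x) d n Ω) :
    HartogsProp (fun (f : (x : V) → M.St x → N.St x) x => HomAt M N f x) d n Ω where
  ev := fun f x h => h.ev
  congr := fun f f' x h h' => h.congr h'
  inj := fun f f' x hx h h' e => HomAt.inj (hM.cohAt hx) h h' e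
  exist := by
    intro κ c R S r c' R' hfg hS hsub f hf
    have hgood := HFig.good hfg.R_pos
    have hbc := box_subset_cbox κ c (fun _ => -1) R
    have hM' : M.Coh (cbox κ c (fun _ => -1) R) := fun x hx => hM x (hsub hx)
    have htf' : TF 𝓐 M (cbox κ c (fun _ => -1) R) := fun x hx => htf x (hsub hx)
    obtain ⟨p, g, hg, hgen⟩ := 𝓐.cartanA κ c _ R M hM' htf' hgood
    obtain ⟨q, ρ, hρ, hrel⟩ := 𝓐.relGen_box κ c _ R M hM' hgood g hg
    have hfig_sub : hfig κ c R S r c' R' ⊆ box κ c (fun _ => -1) R := fun x hx => hx.1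
    have hsh_sub : shell κ c R S r ⊆ hfig κ c R S r c' R' := fun x hx => ⟨hx.1, Or.inl hx.2⟩
    choose ν hν hνf using fun i => hN.exist κ c R S r c' R' hfg hS hsub
      (fun y => f y (g i y)) (fun x hx => (hf x hx).at (hg i x (hbc (hfig_sub hx))))
    have hBN : box κ c (fun _ => -1) R ⊆ N.dom := (hbc.trans hsub).trans hNΩ
    have hBM : box κ c (fun _ => -1) R ⊆ M.dom := fun x hx => (hM'.cohAt (hbc hx)).1
    have hρν : ∀ x ∈ box κ c (fun _ => -1) R, ∀ j, ∑ i, ρ j i x • ν i x = 0 := by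
      intro x hx j
      refine hN.unique κ c R S r hfg.R_pos hfg.r_pos hS hsub (fun y => ∑ i, ρ j i y • ν i y)
        (fun _ => 0) ?_ ?_ ?_ x hx
      · intro y hy
        exact N.comb (hBN hy) (fun i => hρ j i y (hbc hy)) fun i => hν i y hy
      · intro y hy
        exact N.zero y (hBN hy)
      · intro y hy
        have hyf := hsh_sub hy
        have hyb := hbc hy.1
        have h1 : ∑ i, ρ j i y • g i y = 0 := by
          have : (fun i => ρ j i y) ∈ M.rel g y := by
            rw [hrel y hyb]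
            exact Submodule.subset_span ⟨j, rfl⟩
          exact this
        have h2 := (hf y hyf).map_sum Finset.univ (fun i => ρ j i y) fun i => g i y
        rw [h1, (hf y hyf).map_zero] at h2
        rw [show (∑ i, ρ j i y • ν i y) = ∑ i, ρ j i y • f y (g i y) from
          Finset.sum_congr rfl fun i _ => by rw [hνf i y hyf]]
        exact h2.symm
    obtain ⟨t, ht, htν⟩ := exists_hom M N g ρ ν (box κ c (fun _ => -1) R) (isOpen_box _ _ _ _)
      (fun i x hx => hg i x (hbc hx)) (fun x hx => hgen x (hbc hx))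
      (fun x hx => hrel x (hbc hx)) hν hBN hBM hρν
    refine ⟨t, ht, fun x hx => ?_⟩
    have hxb := hfig_sub hx
    refine (ht x hxb).ext_gen (hf x hx) (hgen x (hbc hxb)) fun i => ?_
    rw [htν x hxb i, hνf i x hx]
  unique := by
    intro κ c R S r hR hr hS hsub f f' hf hf' he x hx
    have hgood := HFig.good hR
    have hbc := box_subset_cbox κ c (fun _ => -1) R
    have hM' : M.Coh (cbox κ c (fun _ => -1) R) := fun x hx => hM x (hsub hx)
    have htf' : TF 𝓐 M (cbox κ c (fun _ => -1) R) := fun x hx => htf x (hsub hx)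
    obtain ⟨p, g, hg, hgen⟩ := 𝓐.cartanA κ c _ R M hM' htf' hgood
    refine (hf x hx).ext_gen (hf' x hx) (hgen x (hbc hx)) fun i => ?_
    exact hN.unique κ c R S r hR hr hS hsub (fun y => f y (g i y)) (fun y => f' y (g i y))
      (fun y hy => (hf y hy).at (hg i y (hbc hy))) (fun y hy => (hf' y hy).at (hg i y (hbc hy)))
      (fun y hy => by rw [he y hy]) x hx

end hartogs

end Pool.Agent.DQ
end

section

/-! Campaign DQ, module M12, block (f), file MF8c: monic polynomials which kill the operators. -/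

set_option autoImplicit false
set_option linter.unusedVariables false

open Set Filter Topology

namespace Pool.Agent.DQ

namespace MF

variable {X : Type} [NormedAddCommGroup X] [NormedSpace ℂ X] [FiniteDimensional ℂ X]
  {ι : Type} [Fintype ι] {s : ℕ}

/-- the value map as a ring homomorphism. Proof of surjectivity: constants. -/
theorem exists_valHom (y : X) : ∃ π : (O X).St y →+* ℂ, Function.Surjective π ∧
    ∀ f : X → ℂ, HolAt f y → π (om f y) = f y := by
  let π : OGerm y →+* ℂ :=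
    (Filter.Germ.valueRingHom (X := X) (E := ℂ) (x := y)).comp (OGerm y).subtype
  have h : ∀ f : X → ℂ, HolAt f y → π (gm f y) = f y := fun f hf => val_om hf
  let π' : (O X).St y →+* ℂ :=
    { toFun := fun g => π g
      map_one' := map_one π
      map_mul' := fun a b => map_mul π (show OGerm y from a) b
      map_zero' := map_zero π
      map_add' := fun a b => map_add π (show OGerm y from a) b }
  exact ⟨π', fun c => ⟨om (fun _ => c) y, h _ (HolAt.const c y)⟩, h⟩

/-- an `𝓞`-linear endomorphism of `KS` which is given by the matrix `N₀` on the generators `κ`. Proof. `HomAt.map_sum`, `Nop_apply`, `Finset.sum_comm`. -/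
theorem hom_comb {KS : EMod.{0, 0, 0} (O X)} {κ : Fin s → (b : X) → KS.St b}
    {N₀ : Fin s → Fin s → X → ℂ} {f : (b : X) → KS.St b → KS.St b} {b : X} (hf : HomAt KS KS f b)
    (hfN : ∀ j, f b (κ j b) = ∑ l, om (N₀ j l) b • κ l b) (c : Fin s → (O X).St b) :
    f b (∑ j, c j • κ j b) = ∑ j, (Nop N₀ b c) j • κ j b := by
  rw [hf.map_sum]
  simp only [hfN, Finset.smul_sum, smul_smul]
  rw [Finset.sum_comm]
  refine Finset.sum_congr rfl fun l _ => ?_
  rw [← Finset.sum_smul]
  congr 1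
  rw [Nop_apply, Finset.sum_apply]
  rfl

/-- the polynomial of the operator as a linear map -/
private noncomputable def chiL {l : ℕ} (a : Fin l → X → ℂ) (N₀ : Fin s → Fin s → X → ℂ) (t : X) :
    (Fin s → (O X).St t) →ₗ[(O X).St t] (Fin s → (O X).St t) :=
  Nop N₀ t ^ l + ∑ j : Fin l, om (a j) t • Nop N₀ t ^ (j : ℕ)

private theorem chiL_apply {l : ℕ} (a : Fin l → X → ℂ) (N₀ : Fin s → Fin s → X → ℂ) (t : X)
    (c : Fin s → (O X).St t) : chiL a N₀ t c = chiN a N₀ t c := by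
  unfold chiL chiN
  rw [LinearMap.add_apply, LinearMap.sum_apply]
  rfl

private theorem Nop_gv {N₀ : Fin s → Fin s → X → ℂ} {t : X} (hN : MatAt N₀ t)
    {u : Fin s → X → ℂ} (hu : ∀ j, HolAt (u j) t) :
    Nop N₀ t (gv u t) = gv (fun l y => ∑ j, u j y * N₀ j l y) t := by
  funext l
  rw [Nop_apply, Finset.sum_apply]
  change ∑ j, om (u j) t * om (N₀ j l) t = om (fun y => ∑ j, u j y * N₀ j l y) t
  rw [om_sum _ fun j _ => (hu j).mul (hN j l)]
  exact Finset.sum_congr rfl fun j _ => (om_mul (hu j) (hN j l)).symm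

private theorem Nop_pow_gv {N₀ : Fin s → Fin s → X → ℂ} {y : X} (hN : MatAt N₀ y)
    {u : Fin s → X → ℂ} (hu : ∀ j, HolAt (u j) y) (i : ℕ) :
    ∃ u' : Fin s → X → ℂ, (∀ j, HolAt (u' j) y) ∧
      ∀ᶠ y' in 𝓝 y, (Nop N₀ y' ^ i) (gv u y') = gv u' y' := by
  induction i with
  | zero => exact ⟨u, hu, Eventually.of_forall fun y' => rfl⟩
  | succ i ih =>
    obtain ⟨w, hw, h⟩ := ih
    refine ⟨fun l y => ∑ j, w j y * N₀ j l y,
      fun l => HolAt.sum _ fun j _ => (hw j).mul (hN j l), ?_⟩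
    filter_upwards [h, hN.ev, eventually_all.mpr fun j => (hw j).eventually] with y' h1 h2 h3
    rw [pow_succ', Module.End.mul_apply, h1]
    exact Nop_gv h2 h3

private theorem chiN_gv {l : ℕ} {a : Fin l → X → ℂ} {N₀ : Fin s → Fin s → X → ℂ} {y : X}
    (ha : ∀ j, HolAt (a j) y) (hN : MatAt N₀ y) {u : Fin s → X → ℂ} (hu : ∀ j, HolAt (u j) y) :
    ∃ u' : Fin s → X → ℂ, (∀ j, HolAt (u' j) y) ∧
      ∀ᶠ y' in 𝓝 y, chiN a N₀ y' (gv u y') = gv u' y' := by
  obtain ⟨w, hw, h⟩ := Nop_pow_gv hN hu l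
  choose v hv hv' using fun j : Fin l => Nop_pow_gv hN hu (j : ℕ)
  refine ⟨fun i y => w i y + ∑ j, a j y * v j i y,
    fun i => (hw i).add (HolAt.sum _ fun j _ => (ha j).mul (hv j i)), ?_⟩
  filter_upwards [h, eventually_all.mpr hv', eventually_all.mpr fun i => (hw i).eventually,
    eventually_all.mpr fun j => (ha j).eventually,
    eventually_all.mpr fun j => eventually_all.mpr fun i => (hv j i).eventually]
    with y' h1 h2 h3 h4 h5
  unfold chiN
  rw [h1]
  simp only [h2]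
  funext i
  rw [Pi.add_apply, Finset.sum_apply]
  change om (w i) y' + ∑ j, om (a j) y' * om (v j i) y' =
    om (fun y => w i y + ∑ j, a j y * v j i y) y'
  rw [om_add (h3 i) (HolAt.sum _ fun j _ => (h4 j).mul (h5 j i)),
    om_sum _ fun j _ => (h4 j).mul (h5 j i)]
  congr 1
  exact Finset.sum_congr rfl fun j _ => (om_mul (h4 j) (h5 j i)).symm

private theorem single_eq_gv (j : Fin s) (y : X) :
    (Pi.single j 1 : Fin s → (O X).St y) = gv (fun i _ => if i = j then 1 else 0) y := by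
  classical
  funext i
  by_cases h : i = j
  · subst h
    simp only [gv, if_true, Pi.single_eq_same]
    exact (om_one y).symm
  · simp only [gv, if_neg h]
    rw [Pi.single_eq_of_ne h]
    exact (om_zero y).symm

private theorem vec_eq_sum {y : X} (c : Fin s → (O X).St y) :
    c = ∑ j, c j • (Pi.single j 1 : Fin s → (O X).St y) := by
  funext i
  rw [Finset.sum_apply, Finset.sum_eq_single i]
  · simp
  · intro j _ hj
    rw [Pi.smul_apply, Pi.single_eq_of_ne (Ne.symm hj), smul_zero]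
  · intro h
    exact absurd (Finset.mem_univ i) h

/-- **The monic polynomial.**

Proof. Let `R = (O X).St y`, a local ring (`OGerm.isLocalRing`), `π` from `exists_valHom`, `P = KS.St y` (finite: generated by the `κ j y`), `F : P →ₗ[R] P` the map `f y` (`HomAt.map_add`, `map_smul`).
`exists_charpoly` (file MFAlg2) gives `χ`. Let `l = χ.natDegree`, choose functions `a j` with `om (a j) y = χ.coeff j` (`exists_gm`). For `v : ℂ`: `mon a y v = (χ.map π).eval v` (`Polynomial.eval_eq_sum_range`,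
`χ.Monic`). If `mon a y v = 0` and `R₀ ≤ ‖v - c₀‖` then `χ.map π` has the root `v = π (om (fun _ => v) y)`, so `fun p => om (fun _ => v) y • p - f y p` is not surjective: contradiction to `hsurj`. So the zeros at `y` satisfy
`‖v - c₀‖ < R₀`; `roots_near` gives `r'`. The vectors `chiN a N₀ y c` are in `rowSp ρ y = KS.rel κ y`: by `hom_comb` (iterated) `∑ j, (chiN a N₀ y c) j • κ j y = (aeval F χ) (∑ j, c j • κ j y) = 0`
(`Polynomial.aeval_eq_sum_range`, compare `exists_char` in SMonic.lean). Near `y`: `chiN a N₀ y' (Pi.single j 1)` is the vector of germs at `y'` of fixed functions holomorphic near `y` (write `Nop N₀ y' ^ i` applied to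
`gv u y'` as `gv u' y'`, induction on `i`; sums and products of functions), so by `gv_mem_near` it is in `rowSp ρ y'` for `y'` near `y`; for general `c` take the linear combination (`chiN` is additive and homogeneous in
`c`, `c = ∑ j, c j • Pi.single j 1`). -/
theorem kill_of_surj {KS : EMod.{0, 0, 0} (O X)} {U : Set X} (hU : IsOpen U)
    {κ : Fin s → (b : X) → KS.St b} (hκ : ∀ j, KS.On (κ j) U) (hgen : KS.Gen κ U)
    {ρ : ι → Fin s → X → ℂ} (hρ : ∀ b ∈ U, MatAt ρ b) (hrel : ∀ b ∈ U, KS.rel κ b = rowSp ρ b)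
    {N₀ : Fin s → Fin s → X → ℂ} (hN : ∀ b ∈ U, MatAt N₀ b) {f : (b : X) → KS.St b → KS.St b}
    (hf : ∀ b ∈ U, HomAt KS KS f b)
    (hfN : ∀ b ∈ U, ∀ j, f b (κ j b) = ∑ l, om (N₀ j l) b • κ l b) {c₀ : ℂ} {R₀ : ℝ} {y : X}
    (hy : y ∈ U) (hsurj : ∀ c₁ : ℂ, R₀ ≤ ‖c₁ - c₀‖ →
      Function.Surjective fun m : KS.St y => om (fun _ => c₁) y • m - f y m) :
    ∃ (l : ℕ) (a : Fin l → X → ℂ) (r' : ℝ), (∀ j, HolAt (a j) y) ∧ r' < R₀ ∧
      ∀ᶠ y' in 𝓝 y, (∀ v, mon a y' v = 0 → ‖v - c₀‖ < r') ∧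
        ∀ c, chiN a N₀ y' c ∈ rowSp ρ y' := by
  classical
  obtain ⟨π, hπs, hπ⟩ := exists_valHom (X := X) y
  haveI : IsLocalRing ((O X).St y) := OGerm.isLocalRing y
  haveI : Module.Finite ((O X).St y) (KS.St y) :=
    Module.finite_def.2 (Submodule.fg_def.2 ⟨_, Set.finite_range _, hgen y hy⟩)
  let F : KS.St y →ₗ[(O X).St y] KS.St y :=
    { toFun := f y
      map_add' := (hf y hy).map_add
      map_smul' := (hf y hy).map_smul }
  obtain ⟨χ, hχ, hχ0, hroot⟩ := exists_charpoly π hπs F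
  choose a ha hac using fun j : Fin χ.natDegree => exists_gm (show OGerm y from χ.coeff j)
  have hac' : ∀ j : Fin χ.natDegree, om (a j) y = χ.coeff j := hac
  -- the zeros at `y`
  have hmon : ∀ v, mon a y v = (χ.map π).eval v := by
    intro v
    rw [Polynomial.eval_map, Polynomial.eval₂_eq_sum_range, Finset.sum_range_succ,
      show χ.coeff χ.natDegree = 1 from hχ, map_one, one_mul, add_comm, Finset.sum_range]
    unfold mon
    congr 1
    refine Finset.sum_congr rfl fun j _ => ?_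
    rw [← hac' j, hπ _ (ha j)]
  have hz : ∀ v, mon a y v = 0 → ‖v - c₀‖ < R₀ := by
    intro v hv
    by_contra hcon
    push Not at hcon
    have h1 : (χ.map π).IsRoot (π (om (fun _ => v) y)) := by
      rw [hπ _ (HolAt.const v y), Polynomial.IsRoot.def, ← hmon]
      exact hv
    exact hroot _ h1 (hsurj v hcon)
  obtain ⟨r', hr', hnear⟩ := roots_near ha hz
  refine ⟨χ.natDegree, a, r', ha, hr', ?_⟩
  -- at the point `y`
  have hΦ : ∀ (i : ℕ) (c : Fin s → (O X).St y),
      ∑ j, ((Nop N₀ y ^ i) c) j • κ j y = (F ^ i) (∑ j, c j • κ j y) := by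
    intro i
    induction i with
    | zero => intro c; rfl
    | succ i ih =>
      intro c
      rw [pow_succ', Module.End.mul_apply, pow_succ', Module.End.mul_apply, ← ih]
      exact (hom_comb (hf y hy) (hfN y hy) _).symm
  have hat : ∀ c, chiN a N₀ y c ∈ rowSp ρ y := by
    intro c
    rw [← hrel y hy]
    change ∑ j, (chiN a N₀ y c) j • κ j y = 0
    have h1 : (Polynomial.aeval F χ) (∑ j, c j • κ j y) = 0 := by
      rw [hχ0]
      rfl
    rw [Polynomial.aeval_eq_sum_range, LinearMap.sum_apply, Finset.sum_range_succ,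
      show χ.coeff χ.natDegree = 1 from hχ, one_smul, Finset.sum_range] at h1
    rw [← h1, add_comm]
    have h2 : ∀ j, (chiN a N₀ y c) j • κ j y = ((Nop N₀ y ^ χ.natDegree) c) j • κ j y +
        ∑ i : Fin χ.natDegree, om (a i) y • (((Nop N₀ y ^ (i : ℕ)) c) j • κ j y) := by
      intro j
      unfold chiN
      rw [Pi.add_apply, Finset.sum_apply, add_smul, Finset.sum_smul]
      congr 1
      refine Finset.sum_congr rfl fun i _ => ?_
      rw [Pi.smul_apply, smul_eq_mul, mul_smul]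
    simp only [h2]
    rw [Finset.sum_add_distrib, hΦ, Finset.sum_comm]
    congr 1
    refine Finset.sum_congr rfl fun i _ => ?_
    rw [← Finset.smul_sum, hΦ, hac' i]
    rfl
  -- near the point `y`
  have hnear2 : ∀ j : Fin s, ∀ᶠ y' in 𝓝 y, chiN a N₀ y' (Pi.single j 1) ∈ rowSp ρ y' := by
    intro j
    obtain ⟨u', hu', h⟩ := chiN_gv (u := fun i _ => if i = j then 1 else 0) ha (hN y hy)
      (fun i => HolAt.const _ y)
    have h1 : gv u' y ∈ rowSp ρ y := by
      rw [← h.self_of_nhds]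
      exact hat _
    filter_upwards [h, gv_mem_near (hρ y hy) hu' h1] with y' h2 h3
    rw [single_eq_gv, h2]
    exact h3
  filter_upwards [hnear, eventually_all.mpr hnear2] with y' h1 h2
  refine ⟨h1, fun c => ?_⟩
  rw [← chiL_apply, vec_eq_sum c, map_sum]
  refine Submodule.sum_mem _ fun j _ => ?_
  rw [map_smul, chiL_apply]
  exact Submodule.smul_mem _ _ (h2 j)

end MF

end Pool.Agent.DQ
end

section

/-! # DQ, module H: generators of the kernel -/

set_option autoImplicit false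

open Set Filter Topology Matrix

universe u v w

namespace Pool.Agent.DQ.H

variable {V : Type u} [NormedAddCommGroup V] [NormedSpace ℂ V] {n : ℕ} [FiniteDimensional ℂ V]
  {𝓐 : Defo.{u, v} V} {M : EMod.{u, v, w} 𝓐.A} {d : ℕ} {K : Set V} {g : ℕ → ℕ}
  {C : ∀ k, Fin (g k) → Fin (g (k + 1)) → (x : V) → 𝓐.A.St x}
  {φ : ∀ x, (Fin (g (d + 1)) → 𝓐.A.St x) → M.St x}

/-- generators of the kernel of `C_{d+1}`

Proof. `F = (𝓐.A.free (g (d + 2))).relSh f` with `f i x = fun j => C (d + 1) i j x`; its stalk consists of the `u` with `∑ i, u i • f i x = 0`, i.e. `u ᵥ* cm 𝓐 C (d + 1) x = 0` (`vecMul_eq_sum`). Coherent and torsion-free (`relSh_coh`, `relSh_tf`), so `Defo.cartanA` on `cbox κ c r R` gives generators; `z i x = relVal f x (generator i x)`. Near a point of the box the generators are sections, in particular their values are relations everywhere where they are defined (`EMod.relVal_mem`). -/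
theorem ker_gen (h : HType 𝓐 d M K g C φ) {κ : V ≃L[ℂ] (Fin n → ℂ)} {c : Fin n → ℂ}
    {r R : Fin n → ℝ} (hrR : GoodRadii r R) (hK : cbox κ c r R ⊆ K) :
    ∃ (p : ℕ) (z : Fin p → (x : V) → Fin (g (d + 1)) → 𝓐.A.St x),
      (∀ i, ∀ x ∈ cbox κ c r R, (𝓐.A.free (g (d + 1))).At (z i) x ∧
        ∀ᶠ y in 𝓝 x, z i y ᵥ* cm 𝓐 C (d + 1) y = 0) ∧
      ∀ x ∈ cbox κ c r R, ∀ u, u ᵥ* cm 𝓐 C (d + 1) x = 0 →
        ∃ a : Fin p → 𝓐.A.St x, u = ∑ i, a i • z i x := by
  have hKd : cbox κ c r R ⊆ 𝓐.A.dom := fun x hx => K_sub_dom h (hK hx)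
  set f : Fin (g (d + 1)) → (x : V) → Fin (g (d + 1 + 1)) → 𝓐.A.St x :=
    fun i x j => C (d + 1) i j x with hf
  have hfon : ∀ i, (𝓐.A.free (g (d + 1 + 1))).On (f i) (cbox κ c r R) := fun i x hx =>
    row_on h (d + 1) i x (hK hx)
  have hcoh : ((𝓐.A.free (g (d + 1 + 1))).relSh f).Coh (cbox κ c r R) := relSh_coh hKd hfon
  have htf : TF 𝓐 ((𝓐.A.free (g (d + 1 + 1))).relSh f) (cbox κ c r R) := relSh_tf hKd
  obtain ⟨p, z, hz, hgen⟩ := Defo.cartanA 𝓐 κ c r R _ hcoh htf hrR
  refine ⟨p, fun i x => (𝓐.A.free (g (d + 1 + 1))).relVal f x (z i x), ?_, ?_⟩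
  · intro i x hx
    refine ⟨⟨hKd hx, (EMod.relSh_at_iff.mp (hz i x hx)).2⟩, Eventually.of_forall fun y => ?_⟩
    rw [vecMul_eq_sum]
    exact (𝓐.A.free (g (d + 1 + 1))).relVal_mem f y (z i y)
  · intro x hx u hu
    rw [vecMul_eq_sum] at hu
    obtain ⟨m, hm⟩ := (SetLike.ext_iff.mp
      ((𝓐.A.free (g (d + 1 + 1))).relVal_range f x) u).mpr hu
    have hm2 : m ∈ Submodule.span (𝓐.A.St x) (Set.range fun i => z i x) := by
      rw [hgen x hx]
      exact Submodule.mem_top
    obtain ⟨a, ha⟩ := mem_span_fam.mp hm2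
    refine ⟨a, ?_⟩
    rw [← hm, ha, map_sum]
    refine Finset.sum_congr rfl fun i _ => ?_
    rw [map_smul]

end Pool.Agent.DQ.H
end

section

/-! # DQ, module H: lifting of sections of the module -/

set_option autoImplicit false

open Set Filter Topology Matrix

universe u v w

namespace Pool.Agent.DQ.H

variable {V : Type u} [NormedAddCommGroup V] [NormedSpace ℂ V] {n : ℕ} [FiniteDimensional ℂ V]
  {𝓐 : Defo.{u, v} V} {M : EMod.{u, v, w} 𝓐.A} {d : ℕ} {K : Set V} {g : ℕ → ℕ}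
  {C : ∀ k, Fin (g k) → Fin (g (k + 1)) → (x : V) → 𝓐.A.St x}
  {φ : ∀ x, (Fin (g (d + 1)) → 𝓐.A.St x) → M.St x}

/-- sections of `M` over an open box lift to the kernel of `C_{d+1}`

Proof. If `U = ∅` take `u = 0`. If `U = box κ c r R`: take the generators `z i` of `ker_gen`; `m i x = φ x (z i x)` is a section of `M` near `cbox κ c r R` (`h.φ_at`) and these sections generate (`h.φ_surj`, `φ_sum`). `Defo.cartanB_open` for `M` (coherent, torsion-free on the closed box) gives `a i` with `s x = ∑ i, a i x • m i x` on the open box; `u x = ∑ i, a i x • z i x`: a section (`EMod.comb`), in the kernel (`Matrix.vecMul` is linear: `Matrix.smul_vecMul`, sums), `φ_sum`. -/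
theorem mod_lift (h : HType 𝓐 d M K g C φ) (hcoh : M.Coh K) (htf : TF 𝓐 M K)
    {κ : V ≃L[ℂ] (Fin n → ℂ)} {U : Set V} (hU : Boxy κ K U) {s : (x : V) → M.St x}
    (hs : M.On s U) :
    ∃ u : (x : V) → Fin (g (d + 1)) → 𝓐.A.St x, (𝓐.A.free (g (d + 1))).On u U ∧
      (∀ x ∈ U, u x ᵥ* cm 𝓐 C (d + 1) x = 0) ∧ ∀ x ∈ U, φ x (u x) = s x := by
  rcases hU with rfl | ⟨c, r, R, rfl, hcK, hrR⟩
  · exact ⟨0, fun x hx => absurd hx (notMem_empty x), fun x hx => absurd hx (notMem_empty x),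
      fun x hx => absurd hx (notMem_empty x)⟩
  · obtain ⟨p, z, hz, hgen⟩ := ker_gen h hrR hcK
    have hsub : box κ c r R ⊆ cbox κ c r R := box_sub_cbox κ c r R
    obtain ⟨a, ha, has⟩ := Defo.cartanB_open 𝓐 κ c r R M (Coh.mono' hcoh hcK)
      (TF.mono' htf hcK) hrR (fun i x => φ x (z i x))
      (fun i x hx => h.φ_at (z i) x (hcK hx) (hz i x hx).1 (hz i x hx).2)
      (fun x hx => by
        rw [eq_top_iff]
        intro m _
        obtain ⟨u, hu, rfl⟩ := h.φ_surj x (hcK hx) m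
        obtain ⟨b, hb⟩ := hgen x hx u hu
        rw [mem_span_fam]
        refine ⟨b, ?_⟩
        rw [hb, φ_sum h (hcK hx) _ _ _ fun i _ => (hz i x hx).2.self_of_nhds]) s hs
    refine ⟨fun x => ∑ i, a i x • z i x, fun x hx => ?_, fun x hx => ?_, fun x hx => ?_⟩
    · exact (𝓐.A.free (g (d + 1))).comb (K_sub_dom h (hcK (hsub hx))) (fun i => ha i x hx)
        (fun i => (hz i x (hsub hx)).1)
    · rw [Matrix.sum_vecMul]
      refine Finset.sum_eq_zero fun i _ => ?_
      rw [Matrix.smul_vecMul, (hz i x (hsub hx)).2.self_of_nhds, smul_zero]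
    · rw [φ_sum h (hcK (hsub hx)) _ _ _ fun i _ => (hz i x (hsub hx)).2.self_of_nhds, has x hx]

end Pool.Agent.DQ.H
end

section

/-! # DQ, module H: existence -/

set_option autoImplicit false

open Set Filter Topology Matrix

universe u v w

namespace Pool.Agent.DQ.H

variable {V : Type u} [NormedAddCommGroup V] [NormedSpace ℂ V] [FiniteDimensional ℂ V]
  {𝓐 : Defo.{u, v} V}

/-- Proof. Let `D = covH …`, `K = cbox κ c (-1) R`, `D.U ∅ = box κ c (-1) R ⊆ K ⊆ 𝓐.A.dom` (`CovD.U_empty`, `K_sub_dom`). (1) For `T.card = 1`, `D.U T ⊆ hfig` (`Finset.card_eq_one`, `covH_mem`), so `mod_lift` (`covH_boxy`) gives `z T` over `D.U T`, in the kernel of `C_{d+1}`, with `φ x (z T x) = s x` (`choose`; zero for the other `T`). (2) For `T.card = 2`, `x ∈ D.U T`: `dC (fun T' => z T' x) T` is in the kernel of `C_{d+1}` (`dC_vecMul`-type: all `z (T.erase j) x` are) and `φ` of it is `dC (fun _ => s x) T = 0` (`φ_dC`, `dC_congr`, `dC_const_two`), so by `h.φ_ker` it is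 in the image of `C_d`; `row_lift` (`dC_at` for `N = 𝓐.A.free _`) gives sections `w T`. (3) `stair` with `k = d`, `a = 1`: the vanishing `ColEx` for `b ≤ d + 1 = S.card` from `colEx_of_hol` with `colEx_hol_lt` and `colEx_hol_eq` (`covH_nonempty`). It gives `y`. (4) `z₁ T x = z T x - y T x ᵥ* cm 𝓐 C d x` is a cocycle for `a = 1`; `ColEx … 1` gives `y₀` with `z₁ T x = dC (fun T' => y₀ T' x) T = y₀ ∅ x` for `T = {j}` (`dC_single`). (5) `v x = y₀ ∅ x ᵥ* cm 𝓐 C (d + 1) x` is a section over the box which vanishes on all `D.U {j}` (`φ_sub_row`), so it vanishes by `ColEx … 0` (for the constant cochain `fun _ => v`). (6) `t x = φ x (y₀ ∅ x)`: section by `h.φ_at`; on `D.U {j}`: `t x = φ x (z₁ {j} x) = φ x (z {j} x) = s x` (`φ_sub_row`). -/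
theorem hartogs_exists {d : ℕ} {M : EMod.{u, v, w} 𝓐.A} {n : ℕ} {κ : V ≃L[ℂ] (Fin n → ℂ)}
    {c : Fin n → ℂ} {R : Fin n → ℝ} {S : Finset (Fin n)} {r : Fin n → ℝ} {c' : Fin n → ℂ}
    {R' : Fin n → ℝ} (hfig' : HFig c R S r c' R') (hS : S.card = d + 1)
    {g : ℕ → ℕ} {C : ∀ k, Fin (g k) → Fin (g (k + 1)) → (x : V) → 𝓐.A.St x}
    {φ : ∀ x, (Fin (g (d + 1)) → 𝓐.A.St x) → M.St x}
    (h : HType 𝓐 d M (cbox κ c (-1) R) g C φ) (hcoh : M.Coh (cbox κ c (-1) R))
    (htf : TF 𝓐 M (cbox κ c (-1) R)) (s : (x : V) → M.St x)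
    (hs : M.On s (hfig κ c R S r c' R')) :
    ∃ t, M.On t (box κ c (-1) R) ∧ ∀ x ∈ hfig κ c R S r c' R', t x = s x := by
  classical
  let D := covH κ c R S r c' R' hfig'
  have hanti : ∀ T T', T ⊆ T' → D.U T' ⊆ D.U T := fun _ _ h => D.U_anti h
  have hB : ∀ T, Boxy κ (cbox κ c (-1) R) (D.U T) := covH_boxy hfig'
  have hUempty : D.U ∅ = box κ c (-1) R := D.U_empty
  have hUK : ∀ T, D.U T ⊆ cbox κ c (-1) R := fun T => (hB T).sub
  have hdom : D.U ∅ ⊆ 𝓐.A.dom := (hUK ∅).trans (K_sub_dom h)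
  have hcol : ∀ b ≤ d + 1, ∀ q, ColEx (G := (𝓐.A.free q).St) D.U (𝓐.A.free q).At b := by
    intro b hb q
    apply colEx_of_hol D hdom
    rcases hb.lt_or_eq with hb' | hb'
    · exact colEx_hol_lt D (lt_of_lt_of_eq hb' hS.symm)
    · rw [hb', ← hS]
      exact colEx_hol_eq D (covH_nonempty hfig')
  -- (1) lifts on the members of the covering
  have hcard1 : ∀ T : Finset (WithBot (Fin n)), T.card = 1 →
      D.U T ⊆ hfig κ c R S r c' R' := by
    intro T hT x hx
    obtain ⟨j, rfl⟩ := Finset.card_eq_one.mp hT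
    exact (covH_mem hfig').mpr ⟨j, hx⟩
  have hz : ∀ T : Finset (WithBot (Fin n)), ∃ u : (x : V) → Fin (g (d + 1)) → 𝓐.A.St x,
      T.card = 1 → ((𝓐.A.free (g (d + 1))).On u (D.U T) ∧
        (∀ x ∈ D.U T, u x ᵥ* cm 𝓐 C (d + 1) x = 0) ∧ ∀ x ∈ D.U T, φ x (u x) = s x) := by
    intro T
    by_cases hT : T.card = 1
    · obtain ⟨u, hu⟩ := mod_lift h hcoh htf (hB T) (fun x hx => hs x (hcard1 T hT hx))
      exact ⟨u, fun _ => hu⟩
    · exact ⟨0, fun h => absurd h hT⟩
  choose z hz using hz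
  -- (2) the differences
  have herase : ∀ T : Finset (WithBot (Fin n)), T.card = 2 → ∀ j ∈ T, (T.erase j).card = 1 := by
    intro T hT j hj
    rw [Finset.card_erase_of_mem hj, hT]
  have hsub : ∀ (T : Finset (WithBot (Fin n))) (j : WithBot (Fin n)), D.U T ⊆ D.U (T.erase j) :=
    fun T j => hanti _ _ (Finset.erase_subset _ _)
  have hw : ∀ T : Finset (WithBot (Fin n)), ∃ w : (x : V) → Fin (g d) → 𝓐.A.St x,
      T.card = 2 → ((𝓐.A.free (g d)).On w (D.U T) ∧
        ∀ x ∈ D.U T, w x ᵥ* cm 𝓐 C d x = dC (fun T' => z T' x) T) := by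
    intro T
    by_cases hT : T.card = 2
    · have hon : (𝓐.A.free (g (d + 1))).On (fun x => dC (fun T' => z T' x) T) (D.U T) :=
        dC_at (𝓐.A.free (g (d + 1))) hanti (a := 1) (fun T' hT' => (hz T' hT').1) hdom hT
      have him : ∀ x ∈ D.U T, ∃ t, t ᵥ* cm 𝓐 C d x = dC (fun T' => z T' x) T := by
        intro x hx
        have hk : dC (fun T' => z T' x) T ᵥ* cm 𝓐 C (d + 1) x = 0 := by
          rw [dC_vecMul (d + 1) x (fun T' => z T' x) T,
            dC_congr (z' := fun _ => 0) (fun j hj =>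
              (hz (T.erase j) (herase T hT j hj)).2.1 x (hsub T j hx))]
          exact dC_const_two 0 hT
        refine (h.φ_ker x (hUK T hx) _ hk).mp ?_
        rw [φ_dC h (hUK T hx) (fun T' => z T' x) T (fun j hj =>
            (hz (T.erase j) (herase T hT j hj)).2.1 x (hsub T j hx)),
          dC_congr (z' := fun _ => s x) (fun j hj =>
            (hz (T.erase j) (herase T hT j hj)).2.2 x (hsub T j hx))]
        exact dC_const_two (s x) hT
      obtain ⟨w, hw1, hw2⟩ := row_lift h (hB T) d hon him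
      exact ⟨w, fun _ => ⟨hw1, hw2⟩⟩
    · exact ⟨0, fun h => absurd h hT⟩
  choose w hw using hw
  -- (3) the staircase
  obtain ⟨y, hy1, hy2⟩ := stair h hB hanti d le_rfl 1 (fun b _ hb q => hcol b (by omega) q) z w
    (fun T hT => (hz T hT).1) (fun T hT => (hw T hT).1)
    (fun T hT x hx => ((hw T hT).2 x hx).symm)
  -- (4) the cocycle
  obtain ⟨y₀, hy₀1, hy₀2⟩ := hcol 1 (by omega) (g (d + 1))
    (fun T x => z T x - y T x ᵥ* cm 𝓐 C d x)
    (fun T hT x hx => (𝓐.A.free (g (d + 1))).sub' ((hz T hT).1 x hx)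
      (vecMul_at h d (hUK T hx) (hy1 T hT x hx)))
    (fun T hT x hx => hy2 T hT x hx)
  have hy₀ : ∀ j, ∀ x ∈ D.U {j}, y₀ ∅ x = z {j} x - y {j} x ᵥ* cm 𝓐 C d x := by
    intro j x hx
    have h1 := hy₀2 {j} (Finset.card_singleton j) x hx
    rw [dC_single (fun T' => y₀ T' x) j] at h1
    exact h1
  have hy₀at : ∀ x ∈ D.U ∅, (𝓐.A.free (g (d + 1))).At (y₀ ∅) x := fun x hx =>
    hy₀1 ∅ (by simp) x hx
  -- (5) the kernel
  obtain ⟨y₁, -, hy₁⟩ := hcol 0 (by omega) (g (d + 2))
    (fun _ x => y₀ ∅ x ᵥ* cm 𝓐 C (d + 1) x)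
    (fun T hT x hx => by
      rw [Finset.card_eq_zero] at hT
      subst hT
      exact vecMul_at h (d + 1) (hUK ∅ hx) (hy₀at x hx))
    (fun T hT x hx => by
      obtain ⟨j, rfl⟩ := Finset.card_eq_one.mp hT
      have h1 := (φ_sub_row h (hUK _ hx) (z {j} x) (y {j} x)
        ((hz {j} (Finset.card_singleton j)).2.1 x hx)).2
      have h2 := (hz {j} (Finset.card_singleton j)).2.1 x hx
      have h3 := hy₀ j x hx
      have h4 : (fun u : Fin (g (d + 1)) → 𝓐.A.St x => u ᵥ* cm 𝓐 C (d + 1) x) (y₀ ∅ x) = 0 :=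
        (congrArg (fun u : Fin (g (d + 1)) → 𝓐.A.St x => u ᵥ* cm 𝓐 C (d + 1) x) h3).trans
          (h1.trans h2)
      exact (dC_single (G := Fin (g (d + 2)) → 𝓐.A.St x)
        (fun _ => (fun u : Fin (g (d + 1)) → 𝓐.A.St x => u ᵥ* cm 𝓐 C (d + 1) x) (y₀ ∅ x)) j).trans
          h4)
  have hker : ∀ x ∈ D.U ∅, y₀ ∅ x ᵥ* cm 𝓐 C (d + 1) x = 0 := by
    intro x hx
    have h1 := hy₁ ∅ Finset.card_empty x hx
    exact h1.symm
  -- (6) the section
  refine ⟨fun x => φ x (y₀ ∅ x), fun x hx => ?_, fun x hx => ?_⟩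
  · rw [← hUempty] at hx
    refine h.φ_at (y₀ ∅) x (hUK ∅ hx) (hy₀at x hx) ?_
    filter_upwards [(D.isOpen_U ∅).mem_nhds hx] with y hy using hker y hy
  · obtain ⟨j, hj⟩ := (covH_mem hfig').mp hx
    have h1 := (φ_sub_row h (hUK _ hj) (z {j} x) (y {j} x)
      ((hz {j} (Finset.card_singleton j)).2.1 x hj)).1
    have h2 := (hz {j} (Finset.card_singleton j)).2.2 x hj
    have h3 := hy₀ j x hj
    rw [← h2, ← h1]
    exact congrArg (φ x) h3

end Pool.Agent.DQ.H
end
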