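import Pool.Agent.Lib.MP_4aa2a9_ag.Mg.G028
import Pool.Agent.Lib.MP_4aa2a9_ag.Mg.G017
import Pool.Agent.Lib.MP_4aa2a9_ag.Mg.G021
import Pool.Agent.Lib.MP_4aa2a9_ag.Mg.G018

section

/-! M34, geometry: boxes, polydiscs in the `t`-space, product sets, fibre coordinates. -/

set_option autoImplicit false
set_option linter.unusedSectionVars false

open Set Filter Topology

universe u v w

namespace Pool.Agent.DQ

/-! ### Boxes -/

section IsBox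

variable {V : Type u} [NormedAddCommGroup V] [NormedSpace ℂ V] [FiniteDimensional ℂ V]

/-- `S` is an open box with good radii and `Sc` the corresponding closed box -/
def IsBox (S Sc : Set V) : Prop :=
  ∃ (n : ℕ) (κ : V ≃L[ℂ] (Fin n → ℂ)) (c : Fin n → ℂ) (r R : Fin n → ℝ),
    GoodRadii r R ∧ S = box κ c r R ∧ Sc = cbox κ c r R

variable {S Sc : Set V}

theorem IsBox.isOpen (h : IsBox S Sc) : IsOpen S := by
  obtain ⟨n, κ, c, r, R, -, rfl, rfl⟩ := h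
  exact isOpen_box κ c r R

theorem IsBox.subset (h : IsBox S Sc) : S ⊆ Sc := by
  obtain ⟨n, κ, c, r, R, -, rfl, rfl⟩ := h
  exact box_subset_cbox κ c r R

theorem IsBox.cartanA (h : IsBox S Sc) (F : EMod.{u, u, w} (O V)) (hF : F.Coh Sc) :
    ∃ (p : ℕ) (g : Fin p → (x : V) → F.St x), (∀ i, F.On (g i) Sc) ∧ F.Gen g Sc := by
  obtain ⟨n, κ, c, r, R, -, rfl, rfl⟩ := h
  exact Pool.Agent.DQ.cartanA κ c r R F hF

theorem IsBox.cartanB (h : IsBox S Sc) (F : EMod.{u, u, w} (O V)) (hF : F.Coh Sc) {p : ℕ}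
    (g : Fin p → (x : V) → F.St x) (hg : ∀ i, F.On (g i) Sc) (hgen : F.Gen g Sc)
    (s : (x : V) → F.St x) (hs : F.On s Sc) :
    ∃ a : Fin p → V → ℂ, (∀ i, HolNear (a i) Sc) ∧ ∀ x ∈ Sc, s x = ∑ i, om (a i) x • g i x := by
  obtain ⟨n, κ, c, r, R, -, rfl, rfl⟩ := h
  exact Pool.Agent.DQ.cartanB κ c r R F hF g hg hgen s hs

theorem IsBox.cartanB_open (h : IsBox S Sc) (F : EMod.{u, u, w} (O V)) (hF : F.Coh Sc) {p : ℕ}
    (g : Fin p → (x : V) → F.St x) (hg : ∀ i, F.On (g i) Sc) (hgen : F.Gen g Sc)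
    (s : (x : V) → F.St x) (hs : F.On s S) :
    ∃ a : Fin p → V → ℂ, (∀ i, HolNear (a i) S) ∧ ∀ x ∈ S, s x = ∑ i, om (a i) x • g i x := by
  obtain ⟨n, κ, c, r, R, hrR, rfl, rfl⟩ := h
  exact Pool.Agent.DQ.cartanB_open κ c r R hrR F hF g hg hgen s hs

theorem IsBox.lift (h : IsBox S Sc) {𝓐 : Defo.{u, v} V} {F : EMod.{u, v, w} 𝓐.A}
    {F₀ : EMod.{u, u, w} (O V)} {ρ : ∀ x, F.St x → F₀.St x} (hr : IsRed 𝓐 F F₀ ρ) (hF : F.Coh Sc)
    (htf : TF 𝓐 F Sc) (s : ∀ x, F₀.St x) (hs : F₀.On s S) :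
    ∃ t : ∀ x, F.St x, F.On t S ∧ ∀ x ∈ S, ρ x (t x) = s x := by
  obtain ⟨n, κ, c, r, R, hrR, rfl, rfl⟩ := h
  exact hr.lift 𝓐 κ c r R hrR hF htf s hs

end IsBox

/-! ### Polydiscs in the `t`-space -/

/-- a polydisc in `ℂ^k` (in some linear coordinates) -/
structure TB (k : ℕ) where
  l : ℕ
  κ : (Fin k → ℂ) ≃L[ℂ] (Fin l → ℂ)
  c : Fin l → ℂ
  R : Fin l → ℝ
  R_pos : ∀ i, 0 < R i

namespace TB

variable {k : ℕ}

/-- the open polydisc -/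
def T (B : TB k) : Set (Fin k → ℂ) := box B.κ B.c (-1) B.R
/-- the closed polydisc -/
def Tc (B : TB k) : Set (Fin k → ℂ) := cbox B.κ B.c (-1) B.R

theorem goodRadii (B : TB k) : GoodRadii (-1 : Fin B.l → ℝ) B.R := fun i =>
  ⟨by simp, by
    have := B.R_pos i
    simp only [Pi.neg_apply, Pi.one_apply]
    linarith, B.R_pos i⟩

theorem isBox (B : TB k) : IsBox B.T B.Tc := ⟨B.l, B.κ, B.c, -1, B.R, B.goodRadii, rfl, rfl⟩

theorem isOpen (B : TB k) : IsOpen B.T := isOpen_box _ _ _ _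

theorem sub (B : TB k) : B.T ⊆ B.Tc := box_subset_cbox _ _ _ _

theorem isCompact (B : TB k) : IsCompact B.Tc := isCompact_cbox _ _ _ _

/-- polydiscs are connected. Proof: `T` is the preimage under the linear map `κ` of the product of the
discs `‖z - c i‖ < R i` (the condition `-1 < ‖·‖` is void), so it is convex. -/
theorem isPreconnected (B : TB k) : IsPreconnected B.T := by
  have h1 : B.T = B.κ ⁻¹' (Set.univ.pi fun i => Metric.ball (B.c i) (B.R i)) := by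
    ext t
    simp only [T, box, ring, mem_ofPred_eq, mem_preimage, Set.mem_pi, mem_univ, forall_const,
      mem_ball_iff_norm, Pi.neg_apply, Pi.one_apply]
    exact forall_congr' fun i =>
      ⟨fun h => h.2, fun h => ⟨lt_of_lt_of_le (by norm_num) (norm_nonneg _), h⟩⟩
  have h2 : Convex ℝ (Set.univ.pi fun i => Metric.ball (B.c i) (B.R i)) :=
    convex_pi fun i _ => convex_ball _ _
  have h3 : Convex ℝ B.T := by
    rw [h1]
    exact h2.linear_preimage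
      ((B.κ.toLinearEquiv.toLinearMap.restrictScalars ℝ))
  exact h3.isPreconnected

end TB

/-- small polydiscs around a point. Proof: `exists_cbox_subset` for `κ = ContinuousLinearEquiv.refl`. -/
theorem exists_TB {k : ℕ} (t : Fin k → ℂ) {W : Set (Fin k → ℂ)} (hW : W ∈ 𝓝 t) :
    ∃ B : TB k, t ∈ B.T ∧ B.Tc ⊆ W := by
  obtain ⟨ε, hε, h⟩ := exists_cbox_subset (ContinuousLinearEquiv.refl ℂ (Fin k → ℂ)) t hW
  refine ⟨⟨k, ContinuousLinearEquiv.refl ℂ _, t, fun _ => ε, fun _ => hε⟩, ?_, h⟩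
  exact center_mem_box (ContinuousLinearEquiv.refl ℂ (Fin k → ℂ)) t (fun i => by simp)
    fun _ => hε

/-- identity theorem on connected open sets. Proof: the set of points of `T` near which `f` vanishes is
open, and closed in `T` (`W.ident_ball` of `WIdent`: take a ball in `T` around a limit point). -/
theorem ident_conn {E : Type u} [NormedAddCommGroup E] [NormedSpace ℂ E] {f : E → ℂ} {T : Set E}
    (hT : IsOpen T) (hc : IsPreconnected T) (hf : HolNear f T) {t : E} (ht : t ∈ T)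
    (h0 : ∀ᶠ y in 𝓝 t, f y = 0) : ∀ y ∈ T, f y = 0 := by
  -- points near which `f` vanishes, and points near which it does not
  have hU : IsOpen {y | ∀ᶠ z in 𝓝 y, f z = 0} :=
    isOpen_iff_mem_nhds.2 fun y hy => eventually_eventually_nhds.2 hy
  have hV : IsOpen {y | y ∈ T ∧ ¬ ∀ᶠ z in 𝓝 y, f z = 0} := by
    rw [isOpen_iff_mem_nhds]
    rintro y ⟨hyT, hy⟩
    obtain ⟨r, hr, hb⟩ := Metric.isOpen_iff.1 hT y hyT
    filter_upwards [Metric.ball_mem_nhds y hr] with z hz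
    refine ⟨hb hz, fun h => hy ?_⟩
    have hd : DifferentiableOn ℂ f (Metric.ball y r) := fun w hw =>
      (hf w (hb hw)).differentiableAt.differentiableWithinAt
    filter_upwards [Metric.ball_mem_nhds y hr] with w hw
    exact W.ident_ball hd hz h w hw
  intro y hy
  by_contra hne
  have h1 : T ⊆ {y | ∀ᶠ z in 𝓝 y, f z = 0} ∪ {y | y ∈ T ∧ ¬ ∀ᶠ z in 𝓝 y, f z = 0} := by
    intro z hz
    by_cases h : ∀ᶠ w in 𝓝 z, f w = 0
    · exact Or.inl h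
    · exact Or.inr ⟨hz, h⟩
  obtain ⟨z, hz, hz1, hz2⟩ := hc _ _ hU hV h1 ⟨t, ht, h0⟩
    ⟨y, hy, hy, fun h => hne h.self_of_nhds⟩
  exact hz2.2 hz1

/-! ### Product sets -/

variable {V : Type} [NormedAddCommGroup V] [NormedSpace ℂ V] [FiniteDimensional ℂ V] {k d : ℕ}

namespace Sit

variable (σ : Sit V k d)

/-- polydisc around the centre -/
noncomputable def Pd.tb {σ : Sit V k d} (P : σ.Pd) : TB k := ⟨P.l, P.κ, P.κ σ.t₀, P.R, P.R_pos⟩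

theorem Pd.tb_T {σ : Sit V k d} (P : σ.Pd) : P.tb.T = P.T := rfl
theorem Pd.tb_Tc {σ : Sit V k d} (P : σ.Pd) : P.tb.Tc = P.Tc := rfl

theorem Pd.mem {σ : Sit V k d} (P : σ.Pd) : σ.t₀ ∈ P.T :=
  center_mem_box P.κ σ.t₀ (fun i => by simp) P.R_pos

theorem Pd.isOpen {σ : Sit V k d} (P : σ.Pd) : IsOpen P.T := isOpen_box _ _ _ _

theorem Pd.sub {σ : Sit V k d} (P : σ.Pd) : P.T ⊆ P.Tc := box_subset_cbox _ _ _ _

theorem exists_Pd {W : Set (Fin k → ℂ)} (hW : W ∈ 𝓝 σ.t₀) : ∃ P : σ.Pd, P.Tc ⊆ W := by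
  obtain ⟨ε, hε, h⟩ := exists_cbox_subset (ContinuousLinearEquiv.refl ℂ (Fin k → ℂ)) σ.t₀ hW
  exact ⟨⟨k, ContinuousLinearEquiv.refl ℂ _, fun _ => ε, fun _ => hε⟩, h⟩

theorem continuous_t : Continuous σ.t := (continuous_fst.comp continuous_fst).comp σ.e.continuous

theorem continuous_w : Continuous σ.w :=
  (((continuous_fst.comp continuous_snd).comp continuous_fst).comp σ.e.continuous).sub
    continuous_const

theorem continuous_z : Continuous σ.z :=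
  (((continuous_snd.comp continuous_snd).comp continuous_fst).comp σ.e.continuous).sub
    continuous_const

theorem continuous_v : Continuous σ.v := (continuous_snd.comp σ.e.continuous).sub continuous_const

/-- `t` is holomorphic. Proof: continuous linear. -/
theorem differentiable_t : Differentiable ℂ σ.t :=
  ((ContinuousLinearMap.fst ℂ (Fin k → ℂ) (ℂ × ℂ)).comp
    ((ContinuousLinearMap.fst ℂ (Bs k) (Fin d → ℂ)).comp
      (σ.e : V →L[ℂ] Bs k × (Fin d → ℂ)))).differentiable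

theorem holAt_w (x : V) : HolAt σ.w x :=
  Eventually.of_forall fun _ => (((ContinuousLinearMap.fst ℂ ℂ ℂ).comp
    ((ContinuousLinearMap.snd ℂ (Fin k → ℂ) (ℂ × ℂ)).comp
      ((ContinuousLinearMap.fst ℂ (Bs k) (Fin d → ℂ)).comp
        (σ.e : V →L[ℂ] Bs k × (Fin d → ℂ))))).differentiableAt).sub
          (differentiableAt_const _)

theorem holAt_z (x : V) : HolAt σ.z x :=
  Eventually.of_forall fun _ => (((ContinuousLinearMap.snd ℂ ℂ ℂ).comp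
    ((ContinuousLinearMap.snd ℂ (Fin k → ℂ) (ℂ × ℂ)).comp
      ((ContinuousLinearMap.fst ℂ (Bs k) (Fin d → ℂ)).comp
        (σ.e : V →L[ℂ] Bs k × (Fin d → ℂ))))).differentiableAt).sub
          (differentiableAt_const _)

/-- pull back of a function of `t` -/
theorem holAt_ft {f : (Fin k → ℂ) → ℂ} {x : V} (hf : HolAt f (σ.t x)) : HolAt (σ.ft f) x :=
  HolAt.comp (g := σ.t) hf (Eventually.of_forall fun y => σ.differentiable_t y)

theorem ft_near {f : (Fin k → ℂ) → ℂ} {T : Set (Fin k → ℂ)} {W Z : Set ℂ} (hf : HolNear f T) :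
    HolNear (σ.ft f) (σ.pr T W Z) := fun _ hx => σ.holAt_ft (hf _ hx.1)

theorem pr_mono {T T' : Set (Fin k → ℂ)} {W W' Z Z' : Set ℂ} (hT : T ⊆ T') (hW : W ⊆ W')
    (hZ : Z ⊆ Z') : σ.pr T W Z ⊆ σ.pr T' W' Z' :=
  fun _ hx => ⟨hT hx.1, hW hx.2.1, hZ hx.2.2.1, hx.2.2.2⟩

theorem prc_mono {T T' : Set (Fin k → ℂ)} {W W' Z Z' : Set ℂ} (hT : T ⊆ T') (hW : W ⊆ W')
    (hZ : Z ⊆ Z') : σ.prc T W Z ⊆ σ.prc T' W' Z' :=
  fun _ hx => ⟨hT hx.1, hW hx.2.1, hZ hx.2.2.1, hx.2.2.2⟩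

theorem isOpen_pr {T : Set (Fin k → ℂ)} (hT : IsOpen T) (a b a' b' : ℝ) (c c' : ℂ) :
    IsOpen (σ.pr T (ring c a b) (ring c' a' b')) :=
  (hT.preimage σ.continuous_t).inter (((isOpen_ring c a b).preimage σ.continuous_w).inter
    (((isOpen_ring c' a' b').preimage σ.continuous_z).inter
      (isOpen_lt σ.continuous_v.norm continuous_const)))

section sets

variable {T T' : Set (Fin k → ℂ)}

theorem isOpen_Q1 (hT : IsOpen T) : IsOpen (σ.Q1 T) := σ.isOpen_pr hT _ _ _ _ _ _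
theorem isOpen_Q2 (hT : IsOpen T) : IsOpen (σ.Q2 T) := σ.isOpen_pr hT _ _ _ _ _ _
theorem isOpen_Q12 (hT : IsOpen T) : IsOpen (σ.Q12 T) := σ.isOpen_pr hT _ _ _ _ _ _
theorem isOpen_KO (hT : IsOpen T) : IsOpen (σ.KO T) := σ.isOpen_pr hT _ _ _ _ _ _

theorem Q1_mono (h : T ⊆ T') : σ.Q1 T ⊆ σ.Q1 T' := σ.pr_mono h subset_rfl subset_rfl
theorem Q2_mono (h : T ⊆ T') : σ.Q2 T ⊆ σ.Q2 T' := σ.pr_mono h subset_rfl subset_rfl
theorem Q12_mono (h : T ⊆ T') : σ.Q12 T ⊆ σ.Q12 T' := σ.pr_mono h subset_rfl subset_rfl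
theorem KO_mono (h : T ⊆ T') : σ.KO T ⊆ σ.KO T' := σ.pr_mono h subset_rfl subset_rfl
theorem KC_mono34 (h : T ⊆ T') : σ.KC T ⊆ σ.KC T' := σ.prc_mono h subset_rfl subset_rfl
theorem Q1c_mono (h : T ⊆ T') : σ.Q1c T ⊆ σ.Q1c T' := σ.prc_mono h subset_rfl subset_rfl
theorem Q2c_mono (h : T ⊆ T') : σ.Q2c T ⊆ σ.Q2c T' := σ.prc_mono h subset_rfl subset_rfl

theorem mem_KO {x : V} : x ∈ σ.KO T ↔ σ.t x ∈ T ∧ ‖σ.w x‖ < σ.Rw ∧ ‖σ.z x‖ < σ.Rz ∧
    ‖σ.v x‖ < σ.Rv := by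
  simp only [KO, pr, mem_ofPred_eq, ring, sub_zero]
  have h1 : (-1 : ℝ) < ‖σ.w x‖ := lt_of_lt_of_le (by norm_num) (norm_nonneg _)
  have h2 : (-1 : ℝ) < ‖σ.z x‖ := lt_of_lt_of_le (by norm_num) (norm_nonneg _)
  tauto

theorem mem_KC {x : V} : x ∈ σ.KC T ↔ σ.t x ∈ T ∧ ‖σ.w x‖ ≤ σ.Rw ∧ ‖σ.z x‖ ≤ σ.Rz ∧
    ‖σ.v x‖ ≤ σ.Rv := by
  simp only [KC, prc, mem_ofPred_eq, cring, sub_zero]
  have h1 : (-1 : ℝ) ≤ ‖σ.w x‖ := le_trans (by norm_num) (norm_nonneg _)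
  have h2 : (-1 : ℝ) ≤ ‖σ.z x‖ := le_trans (by norm_num) (norm_nonneg _)
  tauto

theorem mem_Q1 {x : V} : x ∈ σ.Q1 T ↔ σ.t x ∈ T ∧ σ.rw < ‖σ.w x‖ ∧ ‖σ.w x‖ < σ.Rw ∧
    ‖σ.z x‖ < σ.Rz ∧ ‖σ.v x‖ < σ.Rv := by
  simp only [Q1, pr, mem_ofPred_eq, ring, sub_zero]
  have h2 : (-1 : ℝ) < ‖σ.z x‖ := lt_of_lt_of_le (by norm_num) (norm_nonneg _)
  tauto

theorem mem_Q2 {x : V} : x ∈ σ.Q2 T ↔ σ.t x ∈ T ∧ ‖σ.w x‖ < σ.Rw ∧ σ.rz < ‖σ.z x‖ ∧
    ‖σ.z x‖ < σ.Rz ∧ ‖σ.v x‖ < σ.Rv := by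
  simp only [Q2, pr, mem_ofPred_eq, ring, sub_zero]
  have h2 : (-1 : ℝ) < ‖σ.w x‖ := lt_of_lt_of_le (by norm_num) (norm_nonneg _)
  tauto

theorem mem_Q12 {x : V} : x ∈ σ.Q12 T ↔ σ.t x ∈ T ∧ (σ.rw < ‖σ.w x‖ ∧ ‖σ.w x‖ < σ.Rw) ∧
    (σ.rz < ‖σ.z x‖ ∧ ‖σ.z x‖ < σ.Rz) ∧ ‖σ.v x‖ < σ.Rv := by
  simp only [Q12, pr, mem_ofPred_eq, ring, sub_zero]

theorem mem_Q1c {x : V} : x ∈ σ.Q1c T ↔ σ.t x ∈ T ∧ σ.rw ≤ ‖σ.w x‖ ∧ ‖σ.w x‖ ≤ σ.Rw ∧
    ‖σ.z x‖ ≤ σ.Rz ∧ ‖σ.v x‖ ≤ σ.Rv := by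
  simp only [Q1c, prc, mem_ofPred_eq, cring, sub_zero]
  have h2 : (-1 : ℝ) ≤ ‖σ.z x‖ := le_trans (by norm_num) (norm_nonneg _)
  tauto

theorem mem_Q2c {x : V} : x ∈ σ.Q2c T ↔ σ.t x ∈ T ∧ ‖σ.w x‖ ≤ σ.Rw ∧ σ.rz ≤ ‖σ.z x‖ ∧
    ‖σ.z x‖ ≤ σ.Rz ∧ ‖σ.v x‖ ≤ σ.Rv := by
  simp only [Q2c, prc, mem_ofPred_eq, cring, sub_zero]
  have h2 : (-1 : ℝ) ≤ ‖σ.w x‖ := le_trans (by norm_num) (norm_nonneg _)
  tauto

theorem Q1_sub_KO : σ.Q1 T ⊆ σ.KO T := fun x hx => by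
  rw [mem_Q1] at hx
  exact σ.mem_KO.2 ⟨hx.1, hx.2.2.1, hx.2.2.2⟩

theorem Q2_sub_KO : σ.Q2 T ⊆ σ.KO T := fun x hx => by
  rw [mem_Q2] at hx
  exact σ.mem_KO.2 ⟨hx.1, hx.2.1, hx.2.2.2⟩

theorem Q12_eq : σ.Q12 T = σ.Q1 T ∩ σ.Q2 T := by
  ext x
  rw [mem_inter_iff, mem_Q1, mem_Q2, mem_Q12]
  tauto

theorem Q12_sub_Q1 : σ.Q12 T ⊆ σ.Q1 T := by rw [Q12_eq]; exact inter_subset_left
theorem Q12_sub_Q2 : σ.Q12 T ⊆ σ.Q2 T := by rw [Q12_eq]; exact inter_subset_right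
theorem Q12_sub_KO : σ.Q12 T ⊆ σ.KO T := σ.Q12_sub_Q1.trans σ.Q1_sub_KO

theorem KO_sub_KC : σ.KO T ⊆ σ.KC T := fun x hx => by
  rw [mem_KO] at hx
  exact σ.mem_KC.2 ⟨hx.1, hx.2.1.le, hx.2.2.1.le, hx.2.2.2.le⟩

theorem Q1_sub_Q1c : σ.Q1 T ⊆ σ.Q1c T := fun x hx => by
  rw [mem_Q1] at hx
  exact σ.mem_Q1c.2 ⟨hx.1, hx.2.1.le, hx.2.2.1.le, hx.2.2.2.1.le, hx.2.2.2.2.le⟩

theorem Q2_sub_Q2c : σ.Q2 T ⊆ σ.Q2c T := fun x hx => by
  rw [mem_Q2] at hx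
  exact σ.mem_Q2c.2 ⟨hx.1, hx.2.1.le, hx.2.2.1.le, hx.2.2.2.1.le, hx.2.2.2.2.le⟩

theorem Q1c_sub_KC : σ.Q1c T ⊆ σ.KC T := fun x hx => by
  rw [mem_Q1c] at hx
  exact σ.mem_KC.2 ⟨hx.1, hx.2.2.1, hx.2.2.2⟩

theorem Q2c_sub_KC : σ.Q2c T ⊆ σ.KC T := fun x hx => by
  rw [mem_Q2c] at hx
  exact σ.mem_KC.2 ⟨hx.1, hx.2.1, hx.2.2.2⟩

end sets

/-! ### The product sets over polydiscs are boxes -/

theorem isBox_Q1 (B : TB k) : IsBox (σ.Q1 B.T) (σ.Q1c B.Tc) :=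
  ⟨_, σ.kap B.κ, σ.cen B.c, _, _, σ.goodRadii_vec B.goodRadii σ.rw_pos.ne' σ.rw_lt
    (σ.rw_pos.trans σ.rw_lt) (by norm_num) (by linarith [σ.rz_pos, σ.rz_lt])
    (σ.rz_pos.trans σ.rz_lt), σ.pr_eq_box B.κ B.c _ _ _ _ _ _, σ.prc_eq_cbox B.κ B.c _ _ _ _ _ _⟩

theorem isBox_Q2 (B : TB k) : IsBox (σ.Q2 B.T) (σ.Q2c B.Tc) :=
  ⟨_, σ.kap B.κ, σ.cen B.c, _, _, σ.goodRadii_vec B.goodRadii (by norm_num)
    (by linarith [σ.rw_pos, σ.rw_lt]) (σ.rw_pos.trans σ.rw_lt) σ.rz_pos.ne' σ.rz_lt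
    (σ.rz_pos.trans σ.rz_lt), σ.pr_eq_box B.κ B.c _ _ _ _ _ _, σ.prc_eq_cbox B.κ B.c _ _ _ _ _ _⟩

theorem isBox_KO (B : TB k) : IsBox (σ.KO B.T) (σ.KC B.Tc) :=
  ⟨_, σ.kap B.κ, σ.cen B.c, _, _, σ.goodRadii_vec B.goodRadii (by norm_num)
    (by linarith [σ.rw_pos, σ.rw_lt]) (σ.rw_pos.trans σ.rw_lt) (by norm_num)
    (by linarith [σ.rz_pos, σ.rz_lt])
    (σ.rz_pos.trans σ.rz_lt), σ.pr_eq_box B.κ B.c _ _ _ _ _ _, σ.prc_eq_cbox B.κ B.c _ _ _ _ _ _⟩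

/-- the same situation with smaller outer radii -/
def cut (Rw' Rz' Rv' : ℝ) (hw : σ.rw < Rw') (hz : σ.rz < Rz') (hv : 0 < Rv') : Sit V k d :=
  { σ with Rw := Rw', Rz := Rz', Rv := Rv', rw_lt := hw, rz_lt := hz, Rv_pos := hv }

/-! ### The projection to the `t`-space -/

/-- coordinates `(t, ((w, z), v))` -/
noncomputable def fe : V ≃L[ℂ] (Fin k → ℂ) × ((ℂ × ℂ) × (Fin d → ℂ)) :=
  σ.e.trans (ContinuousLinearEquiv.prodAssoc ℂ (Fin k → ℂ) (ℂ × ℂ) (Fin d → ℂ))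

theorem fe_fst (x : V) : (σ.fe x).1 = σ.t x := rfl

/-- coordinates of the fibre -/
noncomputable def fk : ((ℂ × ℂ) × (Fin d → ℂ)) ≃L[ℂ] (Fin (2 + d) → ℂ) :=
  ((ContinuousLinearEquiv.finTwoArrow ℂ ℂ).symm.prodCongr
    (ContinuousLinearEquiv.refl ℂ (Fin d → ℂ))).trans (appE 2 d)

/-- centre of the fibre polydisc -/
noncomputable def fc : Fin (2 + d) → ℂ :=
  Fin.append ![(σ.e σ.y₀).1.2.1, (σ.e σ.y₀).1.2.2] (σ.e σ.y₀).2

/-- radii of the fibre polydisc -/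
def fR : Fin (2 + d) → ℝ := Fin.append ![σ.Rw, σ.Rz] fun _ => σ.Rv

/-- the fibre polydisc -/
def FD : Set ((ℂ × ℂ) × (Fin d → ℂ)) := cbox fk σ.fc (-1) σ.fR

theorem FD_compact : IsCompact σ.FD := isCompact_cbox _ _ _ _

/-- Proof: unfold the coordinates (`appE_left`, `appE_right`, `Fin.append`), `norm_le_iff_v`. -/
theorem mem_FD (q : (ℂ × ℂ) × (Fin d → ℂ)) : q ∈ σ.FD ↔
    ‖q.1.1 - (σ.e σ.y₀).1.2.1‖ ≤ σ.Rw ∧ ‖q.1.2 - (σ.e σ.y₀).1.2.2‖ ≤ σ.Rz ∧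
      ‖q.2 - (σ.e σ.y₀).2‖ ≤ σ.Rv := by
  have hk1 : ∀ i : Fin 2, fk (d := d) q (Fin.castAdd d i) = ![q.1.1, q.1.2] i := by
    intro i
    simp only [fk, ContinuousLinearEquiv.trans_apply, appE_left]
    match i with
    | 0 => rfl
    | 1 => rfl
  have hk2 : ∀ i : Fin d, fk (d := d) q (Fin.natAdd 2 i) = q.2 i := by
    intro i
    simp only [fk, ContinuousLinearEquiv.trans_apply, appE_right]
    rfl
  have hm : ∀ a : ℂ, (-1 : ℝ) ≤ ‖a‖ := fun a => le_trans (by norm_num) (norm_nonneg _)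
  rw [pi_norm_le_iff_of_nonneg σ.Rv_pos.le]
  constructor
  · intro h
    have h0 := h (Fin.castAdd d 0)
    have h1 := h (Fin.castAdd d 1)
    rw [hk1] at h0 h1
    simp only [fc, fR, Fin.append_left] at h0 h1
    refine ⟨h0.2, h1.2, fun i => ?_⟩
    have h2 := h (Fin.natAdd 2 i)
    rw [hk2] at h2
    simp only [fc, fR, Fin.append_right] at h2
    exact h2.2
  · rintro ⟨h0, h1, h2⟩ i
    refine Fin.addCases (fun j => ?_) (fun j => ?_) i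
    · rw [hk1]
      simp only [fc, fR, Fin.append_left]
      match j with
      | 0 => exact ⟨hm _, h0⟩
      | 1 => exact ⟨hm _, h1⟩
    · rw [hk2]
      simp only [fc, fR, Fin.append_right]
      exact ⟨hm _, h2 j⟩

/-- the interior of the fibre polydisc -/
theorem not_mem_box (q : (ℂ × ℂ) × (Fin d → ℂ)) (hq : q ∈ σ.FD)
    (h : q ∉ box fk σ.fc (-1) σ.fR) : ‖q.1.1 - (σ.e σ.y₀).1.2.1‖ = σ.Rw ∨
      ‖q.1.2 - (σ.e σ.y₀).1.2.2‖ = σ.Rz ∨ ‖q.2 - (σ.e σ.y₀).2‖ = σ.Rv := by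
  by_contra hne
  push Not at hne
  obtain ⟨n1, n2, n3⟩ := hne
  obtain ⟨h1, h2, h3⟩ := (σ.mem_FD q).1 hq
  have h1' := lt_of_le_of_ne h1 n1
  have h2' := lt_of_le_of_ne h2 n2
  have h3' := lt_of_le_of_ne h3 n3
  refine h ?_
  have hk1 : ∀ i : Fin 2, fk (d := d) q (Fin.castAdd d i) = ![q.1.1, q.1.2] i := by
    intro i
    simp only [fk, ContinuousLinearEquiv.trans_apply, appE_left]
    match i with
    | 0 => rfl
    | 1 => rfl
  have hk2 : ∀ i : Fin d, fk (d := d) q (Fin.natAdd 2 i) = q.2 i := by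
    intro i
    simp only [fk, ContinuousLinearEquiv.trans_apply, appE_right]
    rfl
  have hm : ∀ a : ℂ, (-1 : ℝ) < ‖a‖ := fun a => lt_of_lt_of_le (by norm_num) (norm_nonneg _)
  rw [pi_norm_lt_iff σ.Rv_pos] at h3'
  intro i
  refine Fin.addCases (fun j => ?_) (fun j => ?_) i
  · rw [hk1]
    simp only [fc, fR, Fin.append_left]
    match j with
    | 0 => exact ⟨hm _, h1'⟩
    | 1 => exact ⟨hm _, h2'⟩
  · rw [hk2]
    simp only [fc, fR, Fin.append_right]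
    exact ⟨hm _, h3' j⟩

theorem fib_eq (t : Fin k → ℂ) : fib σ.fe σ.FD t = σ.KC {t} := by
  ext x
  rw [mem_KC]
  change (σ.fe x).1 = t ∧ (σ.fe x).2 ∈ σ.FD ↔ _
  rw [mem_FD]
  exact Iff.rfl

theorem KC_eq_biUnion (T : Set (Fin k → ℂ)) : σ.KC T = ⋃ t ∈ T, σ.KC {t} := by
  ext x
  simp only [mem_iUnion, mem_KC, mem_singleton_iff]
  constructor
  · rintro ⟨h1, h2⟩
    exact ⟨_, h1, rfl, h2⟩
  · rintro ⟨t, ht, rfl, h2⟩
    exact ⟨ht, h2⟩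

/-- compactness of `KC` over compact sets. -/
theorem isCompact_KC {T : Set (Fin k → ℂ)} (hT : IsCompact T) : IsCompact (σ.KC T) := by
  have h1 : σ.KC T = σ.fe.symm '' (T ×ˢ σ.FD) := by
    ext x
    rw [mem_image]
    constructor
    · intro hx
      refine ⟨σ.fe x, ⟨((σ.mem_KC).1 hx).1, ?_⟩, by simp⟩
      rw [mem_FD]
      exact ((σ.mem_KC).1 hx).2
    · rintro ⟨q, ⟨hq1, hq2⟩, rfl⟩
      rw [mem_KC]
      have h3 : σ.fe (σ.fe.symm q) = q := by simp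
      rw [mem_FD, ← h3] at hq2
      rw [← h3] at hq1
      exact ⟨hq1, hq2⟩
  rw [h1]
  exact (hT.prod σ.FD_compact).image σ.fe.symm.continuous

/-- tube lemma: a property which holds near every point of the fibre `KC {t}` holds on `KC {t'}` for
`t'` near `t`. -/
theorem KC_tube {t : Fin k → ℂ} {P : V → Prop} (h : ∀ x ∈ σ.KC {t}, ∀ᶠ y in 𝓝 x, P y) :
    ∀ᶠ t' in 𝓝 t, ∀ x ∈ σ.KC {t'}, P x := by
  have h1 := fib_tube σ.fe σ.FD_compact (t := t) (P := P) (by rw [fib_eq]; exact h)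
  filter_upwards [h1] with t' ht'
  rw [← fib_eq]
  exact ht' 

/-- direct image to the `t`-space along the fibre polydisc -/
noncomputable def ps (F : EMod.{0, 0, 0} (O V)) : EMod.{0, 0, 0} (O (Fin k → ℂ)) :=
  F.push σ.fe σ.FD σ.FD_compact

/-- coherence of the direct image. Proof: `finite_mapping` with `κ = fk`, `c = fc`, `R = fR`, and
`fib_eq`; a point of the fibre not in the open polydisc has `‖w‖ = Rw`, `‖z‖ = Rz` or `‖v‖ = Rv`. -/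
theorem ps_cohAt (F : EMod.{0, 0, 0} (O V)) {t : Fin k → ℂ} (hcoh : F.Coh (σ.KC {t}))
    (hzero : ∀ x ∈ σ.KC {t}, (‖σ.w x‖ = σ.Rw ∨ ‖σ.z x‖ = σ.Rz ∨ ‖σ.v x‖ = σ.Rv) →
      Subsingleton (F.St x)) : (σ.ps F).CohAt t := by
  refine finite_mapping F σ.fe fk σ.fc σ.fR ?_ σ.FD_compact t ?_ ?_
  · intro i
    refine Fin.addCases (fun j => ?_) (fun j => ?_) i
    · simp only [fR, Fin.append_left]
      match j with
      | 0 => exact σ.rw_pos.trans σ.rw_lt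
      | 1 => exact σ.rz_pos.trans σ.rz_lt
    · simp only [fR, Fin.append_right]
      exact σ.Rv_pos
  · change F.Coh (fib σ.fe σ.FD t)
    rw [fib_eq]
    exact hcoh
  · intro x hx hxb
    have hx1 : x ∈ fib σ.fe σ.FD t := hx
    rw [fib_eq] at hx1
    exact hzero x hx1 (σ.not_mem_box _ hx.2 hxb)

end Sit

end Pool.Agent.DQ
end

section

/-! M34, sections over the shell: definitions and formal properties of `HZero`. -/

set_option autoImplicit false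
set_option linter.unusedSectionVars false

open Set Filter Topology

universe u v w

namespace Pool.Agent.DQ

variable {V : Type} [NormedAddCommGroup V] [NormedSpace ℂ V] [FiniteDimensional ℂ V] {k d : ℕ}

section gen

variable {R : ERing.{0, v} V} {F : EMod.{0, v, w} R}

theorem EMod.On.add {s t : (x : V) → F.St x} {S : Set V} (hs : F.On s S) (ht : F.On t S) :
    F.On (fun x => s x + t x) S := fun x hx => F.add (hs x hx) (ht x hx)

theorem EMod.On.sub {s t : (x : V) → F.St x} {S : Set V} (hs : F.On s S) (ht : F.On t S) :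
    F.On (fun x => s x - t x) S := fun x hx => F.sub' (hs x hx) (ht x hx)

theorem EMod.On.neg {s : (x : V) → F.St x} {S : Set V} (hs : F.On s S) :
    F.On (fun x => - s x) S := fun x hx => F.neg (hs x hx)

theorem EMod.On.mono {s : (x : V) → F.St x} {S S' : Set V} (hs : F.On s S) (h : S' ⊆ S) :
    F.On s S' := fun x hx => hs x (h hx)

theorem EMod.On.congr {s t : (x : V) → F.St x} {S : Set V} (hs : F.On s S) (hS : IsOpen S)
    (h : ∀ x ∈ S, s x = t x) : F.On t S := fun x hx =>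
  F.congr (hs x hx) (by filter_upwards [hS.mem_nhds hx] with y hy using h y hy)

end gen

theorem EMod.On.smul {F : EMod.{0, 0, w} (O V)} {s : (x : V) → F.St x} {S : Set V} {f : V → ℂ}
    (hs : F.On s S) (hf : HolNear f S) : F.On (fun x => om f x • s x) S :=
  fun x hx => F.smul (at_om (hf x hx)) (hs x hx)

theorem EMod.On.comb {F : EMod.{0, 0, w} (O V)} {n : ℕ} {s : Fin n → (x : V) → F.St x} {S : Set V}
    {f : Fin n → V → ℂ} (hS : S ⊆ F.dom) (hs : ∀ i, F.On (s i) S) (hf : ∀ i, HolNear (f i) S) :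
    F.On (fun x => ∑ i, om (f i) x • s i x) S :=
  fun x hx => F.comb (hS hx) (fun i => at_om (hf i x hx)) fun i => hs i x hx

/-- germs of functions: formal rules -/
theorem om_add34 {f g : V → ℂ} {x : V} (hf : HolAt f x) (hg : HolAt g x) :
    om (f + g) x = om f x + om g x := gm_add hf hg

theorem om_mul34 {f g : V → ℂ} {x : V} (hf : HolAt f x) (hg : HolAt g x) :
    om (f * g) x = om f x * om g x := gm_mul hf hg

theorem om_congr34 {f g : V → ℂ} {x : V} (hf : HolAt f x) (h : f =ᶠ[𝓝 x] g) : om f x = om g x :=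
  (gm_eq_iff hf (hf.congr h)).2 h

variable {M₀ : EMod.{0, 0, w} (O V)} {σ : Sit V k d} {T T' : Set (Fin k → ℂ)}
  {y y' : (x : V) → M₀.St x}

theorem HZero.on (h : HZero M₀ σ T y) (hT : IsOpen T) : M₀.On y (σ.Q12 T) := by
  obtain ⟨y₁, y₂, h₁, h₂, h⟩ := h
  exact ((h₁.mono σ.Q12_sub_Q1).sub (h₂.mono σ.Q12_sub_Q2)).congr (σ.isOpen_Q12 hT)
    fun x hx => (h x hx).symm

theorem HZero.add (h : HZero M₀ σ T y) (h' : HZero M₀ σ T y') :
    HZero M₀ σ T fun x => y x + y' x := by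
  obtain ⟨y₁, y₂, h₁, h₂, h⟩ := h
  obtain ⟨y₁', y₂', h₁', h₂', h'⟩ := h'
  refine ⟨_, _, h₁.add h₁', h₂.add h₂', fun x hx => ?_⟩
  change y x + y' x = _
  rw [h x hx, h' x hx]
  abel

theorem HZero.neg (h : HZero M₀ σ T y) : HZero M₀ σ T fun x => - y x := by
  obtain ⟨y₁, y₂, h₁, h₂, h⟩ := h
  refine ⟨_, _, h₁.neg, h₂.neg, fun x hx => ?_⟩
  change - y x = _
  rw [h x hx]
  abel

theorem HZero.sub (h : HZero M₀ σ T y) (h' : HZero M₀ σ T y') :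
    HZero M₀ σ T fun x => y x - y' x := by
  have := h.add h'.neg
  simpa [sub_eq_add_neg] using this

theorem HZero.congr (h : HZero M₀ σ T y) (he : ∀ x ∈ σ.Q12 T, y x = y' x) : HZero M₀ σ T y' := by
  obtain ⟨y₁, y₂, h₁, h₂, h⟩ := h
  exact ⟨y₁, y₂, h₁, h₂, fun x hx => by rw [← he x hx, h x hx]⟩

theorem HZero.smul (h : HZero M₀ σ T y) {f : V → ℂ} (hf : HolNear f (σ.KO T)) :
    HZero M₀ σ T fun x => om f x • y x := by
  obtain ⟨y₁, y₂, h₁, h₂, h⟩ := h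
  refine ⟨_, _, h₁.smul (hf.mono σ.Q1_sub_KO), h₂.smul (hf.mono σ.Q2_sub_KO), fun x hx => ?_⟩
  change om f x • y x = _
  rw [h x hx, smul_sub]

theorem HZero.mono (h : HZero M₀ σ T y) (hT : T' ⊆ T) : HZero M₀ σ T' y := by
  obtain ⟨y₁, y₂, h₁, h₂, h⟩ := h
  exact ⟨y₁, y₂, h₁.mono (σ.Q1_mono hT), h₂.mono (σ.Q2_mono hT),
    fun x hx => h x (σ.Q12_mono hT hx)⟩

theorem hzero_of_eq (h1 : σ.Q1 T ⊆ M₀.dom) (h2 : σ.Q2 T ⊆ M₀.dom)
    (h : ∀ x ∈ σ.Q12 T, y x = 0) : HZero M₀ σ T y :=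
  ⟨0, 0, fun x hx => M₀.zero x (h1 hx), fun x hx => M₀.zero x (h2 hx), fun x hx => by
    rw [h x hx]
    simp⟩

/-- finite combinations -/
theorem HZero.comb {n : ℕ} {g : Fin n → (x : V) → M₀.St x} {f : Fin n → V → ℂ}
    (h1 : σ.Q1 T ⊆ M₀.dom) (h2 : σ.Q2 T ⊆ M₀.dom) (h : ∀ i, HZero M₀ σ T (g i))
    (hf : ∀ i, HolNear (f i) (σ.KO T)) : HZero M₀ σ T fun x => ∑ i, om (f i) x • g i x := by
  choose g₁ g₂ hg₁ hg₂ hg using h
  refine ⟨_, _, EMod.On.comb h1 hg₁ fun i => (hf i).mono σ.Q1_sub_KO,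
    EMod.On.comb h2 hg₂ fun i => (hf i).mono σ.Q2_sub_KO, fun x hx => ?_⟩
  rw [← Finset.sum_sub_distrib]
  exact Finset.sum_congr rfl fun i _ => by rw [hg i x hx, smul_sub]

/-! ### The obstruction classes and the reductions of sections modulo `ħ ^ m` -/

/-- the section `h` of `M₀` over `Q12 T` is, up to a section with vanishing class, the reduction of
`y` for some `(x₁, x₂, y)` in `PK m` -/
def DD34 (𝓐 : Defo.{0, v} V) (M : EMod.{0, v, w} 𝓐.A) (M₀ : EMod.{0, 0, w} (O V))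
    (ρ : ∀ x, M.St x → M₀.St x) (σ : Sit V k d) (m : ℕ) (T : Set (Fin k → ℂ))
    (h : (x : V) → M₀.St x) : Prop :=
  M₀.On h (σ.Q12 T) ∧ ∃ x₁ x₂ y, PK 𝓐 M σ T m x₁ x₂ y ∧ HZero M₀ σ T fun x => h x - ρ x (y x)

/-- the section `s` of `M₀` over `Q1 T ∪ Q2 T` is the reduction of a section modulo `ħ ^ m` -/
def JJ (𝓐 : Defo.{0, v} V) (M : EMod.{0, v, w} 𝓐.A) (M₀ : EMod.{0, 0, w} (O V))
    (ρ : ∀ x, M.St x → M₀.St x) (σ : Sit V k d) (m : ℕ) (T : Set (Fin k → ℂ))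
    (s : (x : V) → M₀.St x) : Prop :=
  ∃ x₁ x₂ y, PK 𝓐 M σ T m x₁ x₂ y ∧ (∀ x ∈ σ.Q1 T, ρ x (x₁ x) = s x) ∧
    ∀ x ∈ σ.Q2 T, ρ x (x₂ x) = s x

variable {𝓐 : Defo.{0, v} V} {M : EMod.{0, v, w} 𝓐.A} {ρ : ∀ x, M.St x → M₀.St x} {Y : Set V}
  {T₀ : Set (Fin k → ℂ)}

namespace Main

variable (hm : Main 𝓐 M M₀ ρ Y σ T₀)
include hm

theorem Q1_dom (hT : T ⊆ T₀) : σ.Q1c T ⊆ M.dom := by
  intro x hx
  have hx' := σ.Q1c_mono hT hx
  rw [hm.dom]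
  exact ⟨hm.KC_sub (σ.Q1c_sub_KC hx'), fun hY => (Set.disjoint_left.1 hm.Q1_sub hx') hY⟩

theorem Q2_dom (hT : T ⊆ T₀) : σ.Q2c T ⊆ M.dom := by
  intro x hx
  have hx' := σ.Q2c_mono hT hx
  rw [hm.dom]
  exact ⟨hm.KC_sub (σ.Q2c_sub_KC hx'), fun hY => (Set.disjoint_left.1 hm.Q2_sub hx') hY⟩

theorem Q1_dom' (hT : T ⊆ T₀) : σ.Q1 T ⊆ M.dom := σ.Q1_sub_Q1c.trans (hm.Q1_dom hT)
theorem Q2_dom' (hT : T ⊆ T₀) : σ.Q2 T ⊆ M.dom := σ.Q2_sub_Q2c.trans (hm.Q2_dom hT)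
theorem Q12_dom' (hT : T ⊆ T₀) : σ.Q12 T ⊆ M.dom := σ.Q12_sub_Q1.trans (hm.Q1_dom' hT)
theorem Q1_dom₀ (hT : T ⊆ T₀) : σ.Q1 T ⊆ M₀.dom := by rw [hm.red.dom]; exact hm.Q1_dom' hT
theorem Q2_dom₀ (hT : T ⊆ T₀) : σ.Q2 T ⊆ M₀.dom := by rw [hm.red.dom]; exact hm.Q2_dom' hT
theorem Q12_dom₀ (hT : T ⊆ T₀) : σ.Q12 T ⊆ M₀.dom := σ.Q12_sub_Q1.trans (hm.Q1_dom₀ hT)

theorem KO_domA (hT : T ⊆ T₀) : σ.KO T ⊆ 𝓐.A.dom :=
  (σ.KO_sub_KC.trans (σ.KC_mono34 hT)).trans hm.KC_sub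

theorem tf : TF 𝓐 M M.dom := hm.refl.tf

end Main

end Pool.Agent.DQ
end

section

/-! M34, sections over the shell: formal properties of `DD34` and `JJ`. -/

set_option autoImplicit false
set_option linter.unusedSectionVars false

open Set Filter Topology

universe u v w

namespace Pool.Agent.DQ

variable {V : Type} [NormedAddCommGroup V] [NormedSpace ℂ V] [FiniteDimensional ℂ V] {k d : ℕ}
  {𝓐 : Defo.{0, v} V} {M : EMod.{0, v, w} 𝓐.A} {M₀ : EMod.{0, 0, w} (O V)}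
  {ρ : ∀ x, M.St x → M₀.St x} {Y : Set V} {σ : Sit V k d} {T₀ T T' : Set (Fin k → ℂ)}

namespace PK

variable {m : ℕ} {x₁ x₂ y x₁' x₂' y' : (x : V) → M.St x}

theorem mono (h : PK 𝓐 M σ T m x₁ x₂ y) (hT : T' ⊆ T) : PK 𝓐 M σ T' m x₁ x₂ y :=
  ⟨h.on₁.mono (σ.Q1_mono hT), h.on₂.mono (σ.Q2_mono hT), h.on_y.mono (σ.Q12_mono hT),
    fun x hx => h.eq x (σ.Q12_mono hT hx)⟩

theorem add (h : PK 𝓐 M σ T m x₁ x₂ y) (h' : PK 𝓐 M σ T m x₁' x₂' y') :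
    PK 𝓐 M σ T m (fun x => x₁ x + x₁' x) (fun x => x₂ x + x₂' x) fun x => y x + y' x :=
  ⟨h.on₁.add h'.on₁, h.on₂.add h'.on₂, h.on_y.add h'.on_y, fun x hx => by
    rw [smul_add, ← h.eq x hx, ← h'.eq x hx]
    abel⟩

theorem sub (h : PK 𝓐 M σ T m x₁ x₂ y) (h' : PK 𝓐 M σ T m x₁' x₂' y') :
    PK 𝓐 M σ T m (fun x => x₁ x - x₁' x) (fun x => x₂ x - x₂' x) fun x => y x - y' x :=
  ⟨h.on₁.sub h'.on₁, h.on₂.sub h'.on₂, h.on_y.sub h'.on_y, fun x hx => by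
    rw [smul_sub, ← h.eq x hx, ← h'.eq x hx]
    abel⟩

/-- multiplication by `ħ` raises the order -/
theorem hb_smul (h : PK 𝓐 M σ T m x₁ x₂ y) (hT : σ.KO T ⊆ 𝓐.A.dom) :
    PK 𝓐 M σ T (m + 1) (fun x => 𝓐.hb x • x₁ x) (fun x => 𝓐.hb x • x₂ x) y :=
  ⟨fun x hx => M.smul (𝓐.hb_at x (hT (σ.Q1_sub_KO hx))) (h.on₁ x hx),
    fun x hx => M.smul (𝓐.hb_at x (hT (σ.Q2_sub_KO hx))) (h.on₂ x hx), h.on_y, fun x hx => by
    rw [← smul_sub, h.eq x hx, smul_smul, pow_succ']⟩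

/-- `ħ ^ (m+1) y = ħ ^ m (ħ y)` -/
theorem of_succ (h : PK 𝓐 M σ T (m + 1) x₁ x₂ y) (hT : σ.KO T ⊆ 𝓐.A.dom) :
    PK 𝓐 M σ T m x₁ x₂ fun x => 𝓐.hb x • y x :=
  ⟨h.on₁, h.on₂, fun x hx => M.smul (𝓐.hb_at x (hT (σ.Q12_sub_KO hx))) (h.on_y x hx),
    fun x hx => by rw [h.eq x hx, smul_smul, pow_succ]⟩

/-- multiplication by a section of `𝓐` over `KO T` -/
theorem smul (h : PK 𝓐 M σ T m x₁ x₂ y) (hT : σ.KO T ⊆ 𝓐.A.dom) {a : (x : V) → 𝓐.A.St x}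
    (ha : ∀ x ∈ σ.KO T, 𝓐.A.At a x) :
    PK 𝓐 M σ T m (fun x => a x • x₁ x) (fun x => a x • x₂ x) fun x => a x • y x :=
  ⟨fun x hx => M.smul (ha x (σ.Q1_sub_KO hx)) (h.on₁ x hx),
    fun x hx => M.smul (ha x (σ.Q2_sub_KO hx)) (h.on₂ x hx),
    fun x hx => M.smul (ha x (σ.Q12_sub_KO hx)) (h.on_y x hx), fun x hx => by
    rw [← smul_sub, h.eq x hx, 𝓐.hb_pow_smul_comm (hT (σ.Q12_sub_KO hx))]⟩

/-- a section over the whole set -/
theorem full {x₁ : (x : V) → M.St x} (h : M.On x₁ (σ.KO T)) : PK 𝓐 M σ T m x₁ x₁ 0 :=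
  ⟨h.mono σ.Q1_sub_KO, h.mono σ.Q2_sub_KO, fun x hx => M.zero x (M.mem_dom
    (h x (σ.Q12_sub_KO hx))), fun x hx => by simp⟩

end PK

/-- lifting a function to a section of `𝓐` over `KO T` (`Defo.lift_at`, `at_om`) -/
theorem exists_lift (hT : IsOpen T) (hTA : σ.KO T ⊆ 𝓐.A.dom) {f : V → ℂ}
    (hf : HolNear f (σ.KO T)) : ∃ a : (x : V) → 𝓐.A.St x, (∀ x ∈ σ.KO T, 𝓐.A.At a x) ∧
      ∀ x ∈ σ.KO T, 𝓐.red x (a x) = om f x :=
  𝓐.lift_at (σ.isOpen_KO hT) hTA fun x hx => at_om (hf x hx)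

namespace Main

variable (hm : Main 𝓐 M M₀ ρ Y σ T₀)
include hm

theorem ρ_on₁ {s : (x : V) → M.St x} {S : Set V} (hs : M.On s S) :
    M₀.On (fun x => ρ x (s x)) S := fun x hx => hm.red.at_map (hs x hx)

variable {m : ℕ} {h h' s s' : (x : V) → M₀.St x}

theorem dd_of_pk (hT : T ⊆ T₀) {x₁ x₂ y : (x : V) → M.St x} (hp : PK 𝓐 M σ T m x₁ x₂ y) :
    DD34 𝓐 M M₀ ρ σ m T fun x => ρ x (y x) :=
  ⟨hm.ρ_on₁ hp.on_y, x₁, x₂, y, hp, hzero_of_eq (hm.Q1_dom₀ hT) (hm.Q2_dom₀ hT) fun x _ =>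
    sub_self _⟩

theorem dd_zero (hT : T ⊆ T₀) : DD34 𝓐 M M₀ ρ σ m T 0 := by
  refine ⟨fun x hx => M₀.zero x (hm.Q12_dom₀ hT hx), 0, 0, 0, ⟨fun x hx => M.zero x
    (hm.Q1_dom' hT hx), fun x hx => M.zero x (hm.Q2_dom' hT hx), fun x hx => M.zero x
    (hm.Q12_dom' hT hx), fun x _ => by simp⟩, hzero_of_eq (hm.Q1_dom₀ hT) (hm.Q2_dom₀ hT)
      fun x hx => ?_⟩
  change (0 : M₀.St x) - ρ x 0 = 0
  rw [hm.red.map_zero (hm.Q12_dom' hT hx), sub_zero]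

/-- Proof: `PK.add`, `HZero.add`, additivity of `ρ`. -/
theorem dd_add (hT : T ⊆ T₀) (hd : DD34 𝓐 M M₀ ρ σ m T h) (hd' : DD34 𝓐 M M₀ ρ σ m T h') :
    DD34 𝓐 M M₀ ρ σ m T fun x => h x + h' x := by
  obtain ⟨h1, x₁, x₂, y, hp, hz⟩ := hd
  obtain ⟨h1', x₁', x₂', y', hp', hz'⟩ := hd'
  refine ⟨h1.add h1', _, _, _, hp.add hp', (hz.add hz').congr fun x hx => ?_⟩
  rw [hm.red.add _ (hm.Q12_dom' hT hx)]
  exact sub_add_sub_comm _ _ _ _

/-- Proof: lift `f` by `exists_lift`, `PK.smul`, `HZero.smul`, `hm.red.smul`. -/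
theorem dd_smul (hTo : IsOpen T) (hT : T ⊆ T₀) (hd : DD34 𝓐 M M₀ ρ σ m T h) {f : V → ℂ}
    (hf : HolNear f (σ.KO T)) : DD34 𝓐 M M₀ ρ σ m T fun x => om f x • h x := by
  obtain ⟨h1, x₁, x₂, y, hp, hz⟩ := hd
  obtain ⟨a, ha, hae⟩ := exists_lift hTo (hm.KO_domA hT) hf
  refine ⟨h1.smul (hf.mono σ.Q12_sub_KO), _, _, _, hp.smul (hm.KO_domA hT) ha,
    (hz.smul hf).congr fun x hx => ?_⟩
  rw [hm.red.smul _ (hm.Q12_dom' hT hx), hae x (σ.Q12_sub_KO hx), smul_sub]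

/-- finite combinations. Proof: induction from `dd_add`, `dd_smul`, `dd_zero` (or directly). -/
theorem dd_comb (hTo : IsOpen T) (hT : T ⊆ T₀) {n : ℕ} {g : Fin n → (x : V) → M₀.St x}
    {f : Fin n → V → ℂ} (hd : ∀ i, DD34 𝓐 M M₀ ρ σ m T (g i)) (hf : ∀ i, HolNear (f i) (σ.KO T)) :
    DD34 𝓐 M M₀ ρ σ m T fun x => ∑ i, om (f i) x • g i x := by
  induction n with
  | zero =>
    have e : (fun x => ∑ i : Fin 0, om (f i) x • g i x) = (0 : (x : V) → M₀.St x) := by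
      funext x
      exact Finset.sum_empty
    rw [e]
    exact hm.dd_zero hT
  | succ n ih =>
    have e : (fun x => ∑ i : Fin (n + 1), om (f i) x • g i x) =
        fun x => om (f 0) x • g 0 x + ∑ i : Fin n, om (f i.succ) x • g i.succ x := by
      funext x
      exact Fin.sum_univ_succ _
    rw [e]
    exact hm.dd_add hT (hm.dd_smul hTo hT (hd 0) (hf 0))
      (ih (g := fun i => g i.succ) (f := fun i => f i.succ) (fun i => hd i.succ) fun i => hf i.succ)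

omit hm in
theorem _root_.Pool.Agent.DQ.DD34.mono (hd : DD34 𝓐 M M₀ ρ σ m T h) (hT : T' ⊆ T) :
    DD34 𝓐 M M₀ ρ σ m T' h := by
  obtain ⟨h1, x₁, x₂, y, hp, hz⟩ := hd
  exact ⟨h1.mono (σ.Q12_mono hT), x₁, x₂, y, hp.mono hT, hz.mono hT⟩

/-- changing by a section with vanishing class -/
theorem dd_congr (hTo : IsOpen T) (hd : DD34 𝓐 M M₀ ρ σ m T h)
    (hz : HZero M₀ σ T fun x => h' x - h x) : DD34 𝓐 M M₀ ρ σ m T h' := by
  obtain ⟨h1, x₁, x₂, y, hp, hz'⟩ := hd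
  refine ⟨((hz.on hTo).add h1).congr (σ.isOpen_Q12 hTo) fun x _ => sub_add_cancel _ _, x₁, x₂, y,
    hp, (hz.add hz').congr fun x _ => ?_⟩
  abel

/-- `D_0 = 0`. Proof: `ρ y = ρ x₁ - ρ x₂`. -/
theorem hzero_of_dd (hT : T ⊆ T₀) (hd : DD34 𝓐 M M₀ ρ σ 0 T h) : HZero M₀ σ T h := by
  obtain ⟨h1, x₁, x₂, y, hp, hz⟩ := hd
  have hz2 : HZero M₀ σ T fun x => ρ x (y x) :=
    ⟨fun x => ρ x (x₁ x), fun x => ρ x (x₂ x), hm.ρ_on₁ hp.on₁, hm.ρ_on₁ hp.on₂, fun x hx => by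
      have h2 := hm.red.map_sub (hm.Q12_dom' hT hx) (x₁ x) (x₂ x)
      rw [hp.eq x hx, pow_zero, one_smul] at h2
      exact h2⟩
  exact (hz.add hz2).congr fun x _ => sub_add_cancel _ _

/-- `D_m ⊆ D_(m+1)`. Proof: `PK.hb_smul`. -/
theorem dd_succ (hT : T ⊆ T₀) (hd : DD34 𝓐 M M₀ ρ σ m T h) : DD34 𝓐 M M₀ ρ σ (m + 1) T h := by
  obtain ⟨h1, x₁, x₂, y, hp, hz⟩ := hd
  exact ⟨h1, _, _, y, hp.hb_smul (hm.KO_domA hT), hz⟩

theorem dd_le (hT : T ⊆ T₀) {m' : ℕ} (hmm : m ≤ m') (hd : DD34 𝓐 M M₀ ρ σ m T h) :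
    DD34 𝓐 M M₀ ρ σ m' T h := by
  induction hmm with
  | refl => exact hd
  | step _ ih => exact hm.dd_succ hT ih

/-- Proof: `PK.add`. -/
theorem jj_add (hT : T ⊆ T₀) (hj : JJ 𝓐 M M₀ ρ σ m T s) (hj' : JJ 𝓐 M M₀ ρ σ m T s') :
    JJ 𝓐 M M₀ ρ σ m T fun x => s x + s' x := by
  obtain ⟨x₁, x₂, y, hp, h1, h2⟩ := hj
  obtain ⟨x₁', x₂', y', hp', h1', h2'⟩ := hj'
  refine ⟨_, _, _, hp.add hp', fun x hx => ?_, fun x hx => ?_⟩
  · rw [hm.red.add x (hm.Q1_dom' hT hx), h1 x hx, h1' x hx]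
  · rw [hm.red.add x (hm.Q2_dom' hT hx), h2 x hx, h2' x hx]

theorem jj_sub (hT : T ⊆ T₀) (hj : JJ 𝓐 M M₀ ρ σ m T s) (hj' : JJ 𝓐 M M₀ ρ σ m T s') :
    JJ 𝓐 M M₀ ρ σ m T fun x => s x - s' x := by
  obtain ⟨x₁, x₂, y, hp, h1, h2⟩ := hj
  obtain ⟨x₁', x₂', y', hp', h1', h2'⟩ := hj'
  refine ⟨_, _, _, hp.sub hp', fun x hx => ?_, fun x hx => ?_⟩
  · rw [hm.red.map_sub (hm.Q1_dom' hT hx), h1 x hx, h1' x hx]
  · rw [hm.red.map_sub (hm.Q2_dom' hT hx), h2 x hx, h2' x hx]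

/-- Proof: `exists_lift`, `PK.smul`. -/
theorem jj_smul (hTo : IsOpen T) (hT : T ⊆ T₀) (hj : JJ 𝓐 M M₀ ρ σ m T s) {f : V → ℂ}
    (hf : HolNear f (σ.KO T)) : JJ 𝓐 M M₀ ρ σ m T fun x => om f x • s x := by
  obtain ⟨x₁, x₂, y, hp, h1, h2⟩ := hj
  obtain ⟨a, ha, hae⟩ := exists_lift hTo (hm.KO_domA hT) hf
  refine ⟨_, _, _, hp.smul (hm.KO_domA hT) ha, fun x hx => ?_, fun x hx => ?_⟩
  · rw [hm.red.smul _ (hm.Q1_dom' hT hx), hae x (σ.Q1_sub_KO hx), h1 x hx]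
  · rw [hm.red.smul _ (hm.Q2_dom' hT hx), hae x (σ.Q2_sub_KO hx), h2 x hx]

theorem jj_zero (hT : T ⊆ T₀) : JJ 𝓐 M M₀ ρ σ m T 0 :=
  ⟨0, 0, 0, ⟨fun x hx => M.zero x (hm.Q1_dom' hT hx), fun x hx => M.zero x (hm.Q2_dom' hT hx),
    fun x hx => M.zero x (hm.Q12_dom' hT hx), fun x _ => by simp⟩,
    fun _ hx => hm.red.map_zero (hm.Q1_dom' hT hx), fun _ hx => hm.red.map_zero (hm.Q2_dom' hT hx)⟩

/-- finite combinations -/
theorem jj_comb (hTo : IsOpen T) (hT : T ⊆ T₀) {n : ℕ} {g : Fin n → (x : V) → M₀.St x}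
    {f : Fin n → V → ℂ} (hj : ∀ i, JJ 𝓐 M M₀ ρ σ m T (g i)) (hf : ∀ i, HolNear (f i) (σ.KO T)) :
    JJ 𝓐 M M₀ ρ σ m T fun x => ∑ i, om (f i) x • g i x := by
  induction n with
  | zero =>
    have e : (fun x => ∑ i : Fin 0, om (f i) x • g i x) = (0 : (x : V) → M₀.St x) := by
      funext x
      exact Finset.sum_empty
    rw [e]
    exact hm.jj_zero hT
  | succ n ih =>
    have e : (fun x => ∑ i : Fin (n + 1), om (f i) x • g i x) =
        fun x => om (f 0) x • g 0 x + ∑ i : Fin n, om (f i.succ) x • g i.succ x := by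
      funext x
      exact Fin.sum_univ_succ _
    rw [e]
    exact hm.jj_add hT (hm.jj_smul hTo hT (hj 0) (hf 0))
      (ih (g := fun i => g i.succ) (f := fun i => f i.succ) (fun i => hj i.succ) fun i => hf i.succ)

omit hm in
theorem _root_.Pool.Agent.DQ.JJ.mono (hj : JJ 𝓐 M M₀ ρ σ m T s) (hT : T' ⊆ T) :
    JJ 𝓐 M M₀ ρ σ m T' s := by
  obtain ⟨x₁, x₂, y, hp, h1, h2⟩ := hj
  exact ⟨x₁, x₂, y, hp.mono hT, fun x hx => h1 x (σ.Q1_mono hT hx),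
    fun x hx => h2 x (σ.Q2_mono hT hx)⟩

omit hm in
theorem _root_.Pool.Agent.DQ.JJ.congr (hj : JJ 𝓐 M M₀ ρ σ m T s)
    (h : ∀ x ∈ σ.Q1 T ∪ σ.Q2 T, s x = s' x) : JJ 𝓐 M M₀ ρ σ m T s' := by
  obtain ⟨x₁, x₂, y, hp, h1, h2⟩ := hj
  exact ⟨x₁, x₂, y, hp, fun x hx => by rw [h1 x hx, h x (Or.inl hx)],
    fun x hx => by rw [h2 x hx, h x (Or.inr hx)]⟩

/-- a member of `JJ` is a section. Proof: `EMod.On.congr` on `Q1 T` and on `Q2 T`. -/
theorem jj_on (hTo : IsOpen T) (hj : JJ 𝓐 M M₀ ρ σ m T s) : M₀.On s (σ.Q1 T ∪ σ.Q2 T) := by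
  obtain ⟨x₁, x₂, y, hp, h1, h2⟩ := hj
  rintro x (hx | hx)
  · exact (hm.ρ_on₁ hp.on₁).congr (σ.isOpen_Q1 hTo) h1 x hx
  · exact (hm.ρ_on₁ hp.on₂).congr (σ.isOpen_Q2 hTo) h2 x hx

/-- `J_(m+1) ⊆ J_m`. Proof: `PK.of_succ`. -/
theorem jj_of_succ (hT : T ⊆ T₀) (hj : JJ 𝓐 M M₀ ρ σ (m + 1) T s) : JJ 𝓐 M M₀ ρ σ m T s := by
  obtain ⟨x₁, x₂, y, hp, h1, h2⟩ := hj
  exact ⟨x₁, x₂, _, hp.of_succ (hm.KO_domA hT), h1, h2⟩

end Main

end Pool.Agent.DQ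
end

section

/-! M34, sheaf tools 1b: uniform polydiscs for several sheaves. -/

set_option autoImplicit false
set_option linter.unusedSectionVars false

open Set Filter Topology

universe u v w

namespace Pool.Agent.DQ

/-! ### Good polydiscs -/

section DivOn

variable {E : Type u} [NormedAddCommGroup E] [NormedSpace ℂ E] [FiniteDimensional ℂ E]

/-- on the box `T` (with closed box `Tc`) around `t₀` every section whose germ at `t₀` is a combination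
of the `f i`, is a combination of the `f i` -/
def DivOn (F : EMod.{u, u, w} (O E)) {n : ℕ} (f : Fin n → (t : E) → F.St t) (t₀ : E)
    (T Tc : Set E) : Prop :=
  (∀ i, F.On (f i) Tc) ∧ ∀ s, F.On s T →
    s t₀ ∈ Submodule.span ((O E).St t₀) (range fun i => f i t₀) →
    ∃ c : Fin n → E → ℂ, (∀ i, HolNear (c i) T) ∧ ∀ t ∈ T, s t = ∑ i, om (c i) t • f i t

private theorem M34C1b_sum {F G : EMod.{u, u, w} (O E)} {n m : ℕ}
    (f : Fin n → (t : E) → F.St t) (g : Fin m → (t : E) → G.St t) (t : E)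
    (c : Fin (n + m) → (O E).St t) :
    ∑ k, c k • (Fin.append (fun i t => ((f i t, 0) : F.St t × G.St t))
      (fun j t => ((0, g j t) : F.St t × G.St t)) k t) =
      ((∑ i, c (Fin.castAdd m i) • f i t, ∑ j, c (Fin.natAdd n j) • g j t) :
        F.St t × G.St t) := by
  rw [Fin.sum_univ_add]
  simp only [Fin.append_left, Fin.append_right]
  refine Prod.ext ?_ ?_
  · rw [Prod.fst_add, Prod.fst_sum, Prod.fst_sum]
    simp only [Prod.smul_fst, smul_zero, Finset.sum_const_zero, add_zero]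
  · rw [Prod.snd_add, Prod.snd_sum, Prod.snd_sum]
    simp only [Prod.smul_snd, smul_zero, Finset.sum_const_zero, zero_add]

/-- Proof: `s ↦ (s, 0)`; the coefficients of the `(0, g j)` are dropped. -/
theorem DivOn.fst {F G : EMod.{u, u, w} (O E)} {n m : ℕ} {f : Fin n → (t : E) → F.St t}
    {g : Fin m → (t : E) → G.St t} {t₀ : E} {T Tc : Set E} (ht : t₀ ∈ T)
    (h : DivOn (F.prod G) (Fin.append (fun i t => ((f i t, 0) : F.St t × G.St t))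
      fun j t => ((0, g j t) : F.St t × G.St t)) t₀ T Tc) (hT : T ⊆ Tc) (hTG : T ⊆ G.dom) :
    DivOn F f t₀ T Tc := by
  refine ⟨fun i t ht' => ?_, fun s hs hsp => ?_⟩
  · have h1 := (F.prod G).congr (h.1 (Fin.castAdd m i) t ht')
      (Eventually.of_forall fun y => congrFun (Fin.append_left
        (fun i t => ((f i t, 0) : F.St t × G.St t)) (fun j t => ((0, g j t) : F.St t × G.St t))
        i) y)
    exact h1.1
  · have hS : (F.prod G).On (fun t => ((s t, 0) : F.St t × G.St t)) T := fun t ht' =>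
      ⟨hs t ht', G.zero t (hTG ht')⟩
    obtain ⟨c, hc⟩ := mem_span_fam.mp hsp
    have hsp' : ((s t₀, 0) : F.St t₀ × G.St t₀) ∈ Submodule.span ((O E).St t₀)
        (range fun k => (Fin.append (fun i t => ((f i t, 0) : F.St t × G.St t))
          (fun j t => ((0, g j t) : F.St t × G.St t)) k t₀)) := by
      refine mem_span_fam.mpr ⟨Fin.append c (fun _ => 0), ?_⟩
      rw [M34C1b_sum]
      refine Prod.ext ?_ ?_
      · refine hc.trans (Finset.sum_congr rfl fun i _ => ?_)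
        rw [Fin.append_left]
      · simp only [Fin.append_right, zero_smul, Finset.sum_const_zero]
    obtain ⟨C, hC, hCs⟩ := h.2 _ hS hsp'
    refine ⟨fun i => C (Fin.castAdd m i), fun i => hC _, fun t ht' => ?_⟩
    have h1 := hCs t ht'
    have h2 := M34C1b_sum f g t (fun k => om (C k) t)
    exact congrArg Prod.fst (h1.trans h2)

theorem DivOn.snd {F G : EMod.{u, u, w} (O E)} {n m : ℕ} {f : Fin n → (t : E) → F.St t}
    {g : Fin m → (t : E) → G.St t} {t₀ : E} {T Tc : Set E} (ht : t₀ ∈ T)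
    (h : DivOn (F.prod G) (Fin.append (fun i t => ((f i t, 0) : F.St t × G.St t))
      fun j t => ((0, g j t) : F.St t × G.St t)) t₀ T Tc) (hT : T ⊆ Tc) (hTF : T ⊆ F.dom) :
    DivOn G g t₀ T Tc := by
  refine ⟨fun i t ht' => ?_, fun s hs hsp => ?_⟩
  · have h1 := (F.prod G).congr (h.1 (Fin.natAdd n i) t ht')
      (Eventually.of_forall fun y => congrFun (Fin.append_right
        (fun i t => ((f i t, 0) : F.St t × G.St t)) (fun j t => ((0, g j t) : F.St t × G.St t))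
        i) y)
    exact h1.2
  · have hS : (F.prod G).On (fun t => ((0, s t) : F.St t × G.St t)) T := fun t ht' =>
      ⟨F.zero t (hTF ht'), hs t ht'⟩
    obtain ⟨c, hc⟩ := mem_span_fam.mp hsp
    have hsp' : ((0, s t₀) : F.St t₀ × G.St t₀) ∈ Submodule.span ((O E).St t₀)
        (range fun k => (Fin.append (fun i t => ((f i t, 0) : F.St t × G.St t))
          (fun j t => ((0, g j t) : F.St t × G.St t)) k t₀)) := by
      refine mem_span_fam.mpr ⟨Fin.append (fun _ => 0) c, ?_⟩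
      rw [M34C1b_sum]
      refine Prod.ext ?_ ?_
      · simp only [Fin.append_left, zero_smul, Finset.sum_const_zero]
      · refine hc.trans (Finset.sum_congr rfl fun i _ => ?_)
        rw [Fin.append_right]
    obtain ⟨C, hC, hCs⟩ := h.2 _ hS hsp'
    refine ⟨fun i => C (Fin.natAdd n i), fun i => hC _, fun t ht' => ?_⟩
    have h1 := hCs t ht'
    have h2 := M34C1b_sum f g t (fun k => om (C k) t)
    exact congrArg Prod.snd (h1.trans h2)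

/-- a section with zero germ vanishes on a good polydisc -/
theorem DivOn.zero {F : EMod.{u, u, w} (O E)} {f : Fin 0 → (t : E) → F.St t} {t₀ : E}
    {T Tc : Set E} (h : DivOn F f t₀ T Tc) {s : (t : E) → F.St t} (hs : F.On s T)
    (h0 : s t₀ = 0) : ∀ t ∈ T, s t = 0 := by
  obtain ⟨c, -, h1⟩ := h.2 s hs (by rw [h0]; exact Submodule.zero_mem _)
  intro t ht
  rw [h1 t ht]
  simp

end DivOn

variable {V : Type} [NormedAddCommGroup V] [NormedSpace ℂ V] [FiniteDimensional ℂ V] {k d : ℕ}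

/-- common good polydiscs for four sheaves, in every neighbourhood of the centre. Proof:
`exists_div` for the direct sum `(F₁ ⊕ F₂) ⊕ (F₃ ⊕ F₄)` with the generators `Fin.append` of
`Fin.append`, `DivOn.fst`, `DivOn.snd`. (`exists_div` with `W` replaced by `W ∩` the open set where all sheaves live
and are coherent.) -/
theorem exists_divOn {σ : Sit V k d} {F₁ F₂ F₃ F₄ : EMod.{0, 0, 0} (O (Fin k → ℂ))}
    (h₁ : F₁.CohAt σ.t₀) (h₂ : F₂.CohAt σ.t₀) (h₃ : F₃.CohAt σ.t₀) (h₄ : F₄.CohAt σ.t₀)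
    {n₁ n₂ n₃ n₄ : ℕ} (f₁ : Fin n₁ → (t : Fin k → ℂ) → F₁.St t) (hf₁ : ∀ i, F₁.At (f₁ i) σ.t₀)
    (f₂ : Fin n₂ → (t : Fin k → ℂ) → F₂.St t) (hf₂ : ∀ i, F₂.At (f₂ i) σ.t₀)
    (f₃ : Fin n₃ → (t : Fin k → ℂ) → F₃.St t) (hf₃ : ∀ i, F₃.At (f₃ i) σ.t₀)
    (f₄ : Fin n₄ → (t : Fin k → ℂ) → F₄.St t) (hf₄ : ∀ i, F₄.At (f₄ i) σ.t₀)
    {N : Set (Fin k → ℂ)} (hN : N ∈ 𝓝 σ.t₀) :
    ∃ P : σ.Pd, P.Tc ⊆ N ∧ DivOn F₁ f₁ σ.t₀ P.T P.Tc ∧ DivOn F₂ f₂ σ.t₀ P.T P.Tc ∧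
      DivOn F₃ f₃ σ.t₀ P.T P.Tc ∧ DivOn F₄ f₄ σ.t₀ P.T P.Tc := by
  have hR : (O (Fin k → ℂ)).RelAt σ.t₀ := O_relAt σ.t₀
  have hc12 := EMod.prod_cohAt hR h₁ h₂
  have hc34 := EMod.prod_cohAt hR h₃ h₄
  have hc := EMod.prod_cohAt hR hc12 hc34
  have hW : N ∩ ((F₁.dom ∩ F₂.dom) ∩ (F₃.dom ∩ F₄.dom)) ∈ 𝓝 σ.t₀ :=
    Filter.inter_mem hN (Filter.inter_mem
      (Filter.inter_mem (F₁.isOpen_dom.mem_nhds h₁.1) (F₂.isOpen_dom.mem_nhds h₂.1))
      (Filter.inter_mem (F₃.isOpen_dom.mem_nhds h₃.1) (F₄.isOpen_dom.mem_nhds h₄.1)))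
  have hat : ∀ {F G : EMod.{0, 0, 0} (O (Fin k → ℂ))} {n m : ℕ}
      {f : Fin n → (t : Fin k → ℂ) → F.St t} {g : Fin m → (t : Fin k → ℂ) → G.St t},
      (∀ i, F.At (f i) σ.t₀) → (∀ i, G.At (g i) σ.t₀) → σ.t₀ ∈ F.dom → σ.t₀ ∈ G.dom →
      ∀ i, (F.prod G).At (Fin.append (fun i t => ((f i t, 0) : F.St t × G.St t))
        (fun j t => ((0, g j t) : F.St t × G.St t)) i) σ.t₀ := by
    intro F G n m f g hf hg hF hG i
    refine Fin.addCases (fun i => ?_) (fun j => ?_) i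
    · exact (F.prod G).congr (s := fun t => ((f i t, 0) : F.St t × G.St t))
        ⟨hf i, G.zero _ hG⟩ (Eventually.of_forall fun y => (congrFun (Fin.append_left
          (fun i t => ((f i t, 0) : F.St t × G.St t)) (fun j t => ((0, g j t) : F.St t × G.St t))
          i) y).symm)
    · exact (F.prod G).congr (s := fun t => ((0, g j t) : F.St t × G.St t))
        ⟨F.zero _ hF, hg j⟩ (Eventually.of_forall fun y => (congrFun (Fin.append_right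
          (fun i t => ((f i t, 0) : F.St t × G.St t)) (fun j t => ((0, g j t) : F.St t × G.St t))
          j) y).symm)
  have hat12 := hat hf₁ hf₂ h₁.1 h₂.1
  have hat34 := hat hf₃ hf₄ h₃.1 h₄.1
  have hat' := hat hat12 hat34 hc12.1 hc34.1
  obtain ⟨l, κ, R, hRp, hsub, hon, hdiv⟩ := exists_div _ hc _ hat' hW
  obtain ⟨P, hP⟩ : ∃ P : σ.Pd, P = ⟨l, κ, R, hRp⟩ := ⟨_, rfl⟩
  have hT : P.T = box κ (κ σ.t₀) (-1) R := by rw [hP]; rfl
  have hTc : P.Tc = cbox κ (κ σ.t₀) (-1) R := by rw [hP]; rfl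
  have hsub' : P.Tc ⊆ N ∩ ((F₁.dom ∩ F₂.dom) ∩ (F₃.dom ∩ F₄.dom)) := by rw [hTc]; exact hsub
  have hTT : P.T ⊆ P.Tc := P.sub
  have hmem : σ.t₀ ∈ P.T := P.mem
  have hD : DivOn ((F₁.prod F₂).prod (F₃.prod F₄))
      (Fin.append
        (fun i t => ((Fin.append (fun i t => ((f₁ i t, 0) : F₁.St t × F₂.St t))
          (fun j t => ((0, f₂ j t) : F₁.St t × F₂.St t)) i t, 0) :
            (F₁.prod F₂).St t × (F₃.prod F₄).St t))
        fun j t => ((0, Fin.append (fun i t => ((f₃ i t, 0) : F₃.St t × F₄.St t))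
          (fun j t => ((0, f₄ j t) : F₃.St t × F₄.St t)) j t) :
            (F₁.prod F₂).St t × (F₃.prod F₄).St t)) σ.t₀ P.T P.Tc := by
    rw [hT, hTc]
    exact ⟨hon, hdiv⟩
  have hs : ∀ t ∈ P.T, (t ∈ F₁.dom ∧ t ∈ F₂.dom) ∧ (t ∈ F₃.dom ∧ t ∈ F₄.dom) :=
    fun t ht => (hsub' (hTT ht)).2
  have hD12 := DivOn.fst hmem hD hTT (fun t ht => ⟨(hs t ht).2.1, (hs t ht).2.2⟩)
  have hD34 := DivOn.snd hmem hD hTT (fun t ht => ⟨(hs t ht).1.1, (hs t ht).1.2⟩)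
  exact ⟨P, hsub'.trans inter_subset_left, DivOn.fst hmem hD12 hTT fun t ht => (hs t ht).1.2,
    DivOn.snd hmem hD12 hTT fun t ht => (hs t ht).1.1,
    DivOn.fst hmem hD34 hTT fun t ht => (hs t ht).2.2,
    DivOn.snd hmem hD34 hTT fun t ht => (hs t ht).2.1⟩

end Pool.Agent.DQ
end

section

/-! M34, sheaf tools 2: zero stalks, sections of quotients and subsheaves over boxes. -/

set_option autoImplicit false
set_option linter.unusedSectionVars false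

open Set Filter Topology

universe u v w

namespace Pool.Agent.DQ

section

variable {X : Type u} [TopologicalSpace X] {R : ERing.{u, v} X}

/-- the support of a coherent sheaf is closed. Proof: generators `g i` near `x`; `g i x = 0 = 0 x`, so
`g i = 0` near `x` (`inj`), and the stalks near `x` are spanned by the `g i`. -/
theorem EMod.CohAt.subsingleton_near {F : EMod.{u, v, w} R} {x : X} (hF : F.CohAt x)
    (h : Subsingleton (F.St x)) : ∀ᶠ y in 𝓝 x, Subsingleton (F.St y) := by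
  obtain ⟨n, g, hg, hgen⟩ := hF.2.1
  have h1 : ∀ᶠ y in 𝓝 x, ∀ i, g i y = 0 :=
    eventually_all.2 fun i => F.inj (hg i) (F.zero x hF.1) (Subsingleton.elim _ _)
  filter_upwards [hgen, h1] with y hy1 hy2
  have h2 : (⊤ : Submodule (R.St y) (F.St y)) = ⊥ := by
    rw [← hy1, Submodule.span_eq_bot]
    rintro _ ⟨i, rfl⟩
    exact hy2 i
  refine ⟨fun a b => ?_⟩
  have ha : a - b ∈ (⊤ : Submodule (R.St y) (F.St y)) := Submodule.mem_top
  rw [h2, Submodule.mem_bot] at ha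
  exact sub_eq_zero.1 ha

/-- where the stalks vanish every family is a section -/
theorem EMod.at_of_subsingleton {F : EMod.{u, v, w} R} {x : X} (hx : x ∈ F.dom)
    (h : ∀ᶠ y in 𝓝 x, Subsingleton (F.St y)) (s : (y : X) → F.St y) : F.At s x :=
  F.congr (F.zero x hx) (h.mono fun _ _ => Subsingleton.elim _ _)

end

variable {V : Type u} [NormedAddCommGroup V] [NormedSpace ℂ V] [FiniteDimensional ℂ V]
  {S Sc : Set V}

/-- sections of a quotient near a closed box lift. Proof: generators `g i` of `F` near `Sc`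
(`IsBox.cartanA`); the `mkQ (g i)` generate the quotient; `IsBox.cartanB`:
`s = ∑ om (a i) • mkQ (g i)`; `s' := ∑ om (a i) • g i`. -/
theorem IsBox.quot_lift (h : IsBox S Sc) (F : EMod.{u, u, w} (O V)) (hF : F.Coh Sc)
    (N : ∀ x, Submodule ((O V).St x) (F.St x))
    (hN : ∀ x ∈ F.dom, ∀ g ∈ N x, ∃ s : (x : V) → F.St x,
      F.At s x ∧ s x = g ∧ ∀ᶠ y in 𝓝 x, s y ∈ N y) (hQ : (F.quot N hN).Coh Sc)
    (s : (x : V) → F.St x ⧸ N x) (hs : (F.quot N hN).On s Sc) :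
    ∃ s' : (x : V) → F.St x, F.On s' Sc ∧ ∀ x ∈ Sc, (N x).mkQ (s' x) = s x := by
  obtain ⟨p, g, hg, hgen⟩ := h.cartanA F hF
  have hgQ : ∀ i, (F.quot N hN).On (fun x => (N x).mkQ (g i x)) Sc := fun i x hx =>
    ⟨g i, hg i x hx, Eventually.of_forall fun _ => rfl⟩
  have hgenQ : (F.quot N hN).Gen (fun i x => (N x).mkQ (g i x)) Sc := by
    intro x hx
    have h1 : Set.range (fun i => (N x).mkQ (g i x)) = (N x).mkQ '' Set.range (fun i => g i x) := by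
      rw [← Set.range_comp]
      rfl
    change Submodule.span ((O V).St x) (Set.range (fun i => (N x).mkQ (g i x))) = ⊤
    rw [h1, Submodule.span_image, hgen x hx, Submodule.map_top, Submodule.range_mkQ]
  obtain ⟨a, ha, hs'⟩ := h.cartanB (F.quot N hN) hQ _ hgQ hgenQ s hs
  refine ⟨fun x => ∑ i, om (a i) x • g i x, fun x hx => F.comb (hF x hx).self_of_nhds.1
    (fun i => at_om (ha i x hx)) fun i => hg i x hx, fun x hx => ?_⟩
  have h2 : s x = ∑ i, om (a i) x • (N x).mkQ (g i x) := hs' x hx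
  rw [h2, map_sum]
  exact Finset.sum_congr rfl fun i _ => map_smul _ _ _

/-- sections over the open box with values in the span of sections near the closed box. Proof: as in
`exists_div` (DBase): `IsBox.cartanB_open` for `F.sub (F.spn g)`. -/
theorem IsBox.sub_comb (h : IsBox S Sc) (F : EMod.{u, u, w} (O V)) (hF : F.Coh Sc) {p : ℕ}
    (g : Fin p → (x : V) → F.St x) (hg : ∀ i, F.On (g i) Sc) (s : (x : V) → F.St x)
    (hs : F.On s S) (hmem : ∀ x ∈ S, s x ∈ Submodule.span ((O V).St x) (range fun i => g i x)) :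
    ∃ a : Fin p → V → ℂ, (∀ i, HolNear (a i) S) ∧ ∀ x ∈ S, s x = ∑ i, om (a i) x • g i x := by
  have hnear : ∀ y ∈ Sc, ∀ᶠ z in 𝓝 y, F.spn g z =
      Submodule.span ((O V).St z) (range fun i => g i z) :=
    fun y hy => F.spn_near g fun i => hg i y hy
  have hmem' : ∀ y ∈ S, s y ∈ F.spn g y := by
    intro y hy
    rw [F.spn_eq g fun i => hg i y (h.subset hy)]
    exact hmem y hy
  have hNcoh : (F.sub (F.spn g) (F.spn_open g)).Coh Sc := by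
    intro y hy
    filter_upwards [hF y hy, eventually_all.mpr fun i => F.ev (hg i y hy)] with z z1 z2
    exact F.sub_cohAt _ _ z1 g z2 (F.spn_near g z2)
  obtain ⟨a, ha, hsa⟩ := h.cartanB_open _ hNcoh
    (fun i => F.toSub (F.spn g) (g i))
    (fun i y hy => F.toSub_at _ _ (hg i y hy) (by
      filter_upwards [hnear y hy] with z hz
      rw [hz]
      exact Submodule.subset_span ⟨i, rfl⟩))
    (fun y hy => span_toSub F _ g (hnear y hy).self_of_nhds)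
    (F.toSub (F.spn g) s) (fun y hy => F.toSub_at _ _ (hs y hy) (by
      filter_upwards [h.isOpen.mem_nhds hy] with z hz
      exact hmem' z hz))
  refine ⟨a, ha, fun y hy => ?_⟩
  have h1 : F.toSub (F.spn g) s y = ∑ i, om (a i) y • F.toSub (F.spn g) (g i) y := hsa y hy
  have h2 := congrArg (Subtype.val) h1
  rw [AddSubmonoidClass.coe_finsetSum, F.coe_toSub _ _ (hmem' y hy)] at h2
  refine h2.trans (Finset.sum_congr rfl fun i _ => ?_)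
  rw [Submodule.coe_smul, F.coe_toSub]
  rw [(hnear y (h.subset hy)).self_of_nhds]
  exact Submodule.subset_span ⟨i, rfl⟩

end Pool.Agent.DQ
end

section

/-! M34, sections modulo `ħ ^ (m₀ + 1)`, part 1: the sheaf `S = M₀' / (ωw ^ m₀, ωz ^ m₀)` and its direct
image. -/

set_option autoImplicit false
set_option linter.unusedSectionVars false

open Set Filter Topology

universe u v w

namespace Pool.Agent.DQ

variable {V : Type} [NormedAddCommGroup V] [NormedSpace ℂ V] [FiniteDimensional ℂ V] {k d : ℕ}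
  {𝓐 : Defo.{0, v} V} {M : EMod.{0, v, w} 𝓐.A} {M₀ : EMod.{0, 0, w} (O V)}
  {ρ : ∀ x, M.St x → M₀.St x} {Y : Set V} {σ : Sit V k d} {T₀ T T' : Set (Fin k → ℂ)}
  {M₀' : EMod.{0, 0, 0} (O V)} {θ : ∀ x, M₀'.St x → M₀.St x} {m₀ : ℕ}

/-- functions `ωw`, `ωz` without zeros for `rw' ≤ ‖w‖`, `rz' ≤ ‖z‖`, and generators of `M₀'` near a closed
set `KC P₁.Tc` -/
structure KD (M₀' : EMod.{0, 0, 0} (O V)) (σ : Sit V k d) (T₀ : Set (Fin k → ℂ)) where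
  rw' : ℝ
  rz' : ℝ
  hrw : σ.rw < rw'
  hrw' : rw' < σ.Rw
  hrz : σ.rz < rz'
  hrz' : rz' < σ.Rz
  ωw : V → ℂ
  ωz : V → ℂ
  P₁ : σ.Pd
  P₁_sub : P₁.Tc ⊆ T₀
  ωw_hol : HolNear ωw (σ.KC P₁.Tc)
  ωz_hol : HolNear ωz (σ.KC P₁.Tc)
  ωw_ne : ∀ x ∈ σ.KC P₁.Tc, rw' ≤ ‖σ.w x‖ → ωw x ≠ 0
  ωz_ne : ∀ x ∈ σ.KC P₁.Tc, rz' ≤ ‖σ.z x‖ → ωz x ≠ 0
  p : ℕ
  κ : Fin p → (x : V) → M₀'.St x
  κ_on : ∀ l, M₀'.On (κ l) (σ.KC P₁.Tc)
  κ_gen : M₀'.Gen κ (σ.KC P₁.Tc)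

namespace KD

variable (K : KD M₀' σ T₀)

/-- the sections `ωw ^ m₀ κ l`, `ωz ^ m₀ κ l` -/
noncomputable def L (m₀ : ℕ) : Fin (K.p + K.p) → (x : V) → M₀'.St x :=
  Fin.append (fun l x => om (fun x => K.ωw x ^ m₀) x • K.κ l x)
    fun l x => om (fun x => K.ωz x ^ m₀) x • K.κ l x

private theorem pow_near {f : V → ℂ} {S : Set V} (hf : HolNear f S) (m : ℕ) :
    HolNear (fun x => f x ^ m) S := fun x hx => by
  filter_upwards [hf x hx] with y hy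
  exact hy.pow m

/-- Proof: `Fin.addCases`, `EMod.smul`, `at_om`, powers of holomorphic functions (`DifferentiableAt.pow`). -/
theorem L_on (i : Fin (K.p + K.p)) : M₀'.On (K.L m₀ i) (σ.KC K.P₁.Tc) := by
  refine Fin.addCases (fun l => ?_) (fun l => ?_) i
  · have h1 : K.L m₀ (Fin.castAdd K.p l) = fun x => om (fun x => K.ωw x ^ m₀) x • K.κ l x :=
      Fin.append_left _ _ l
    rw [h1]
    exact (K.κ_on l).smul (pow_near K.ωw_hol m₀)
  · have h1 : K.L m₀ (Fin.natAdd K.p l) = fun x => om (fun x => K.ωz x ^ m₀) x • K.κ l x :=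
      Fin.append_right _ _ l
    rw [h1]
    exact (K.κ_on l).smul (pow_near K.ωz_hol m₀)

private theorem unit_om {f : V → ℂ} {x : V} (hf : HolAt f x) (h : f x ≠ 0) :
    ∃ u : (O V).St x, u * om f x = 1 := by
  have h1 : val (gm f x : OGerm x) = f x := by
    rw [val, gm_coe hf]
    rfl
  have h2 : IsUnit (gm f x : OGerm x) := (OGerm.isUnit_iff _).2 (by rw [h1]; exact h)
  obtain ⟨u, hu⟩ := h2.exists_left_inv
  exact ⟨u, hu⟩

/-- Proof: the germ `om (ωw ^ m₀) x` is a unit if `ωw x ≠ 0` (`OGerm.isUnit_iff`, the value of `gm f x` is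
`f x`), so the span of the `ωw ^ m₀ κ l` contains all `κ l x`. -/
theorem L_span {x : V} (hx : x ∈ σ.KC K.P₁.Tc) (h : K.rw' ≤ ‖σ.w x‖ ∨ K.rz' ≤ ‖σ.z x‖) :
    Submodule.span ((O V).St x) (range fun i => K.L m₀ i x) = ⊤ := by
  have hκ := K.κ_gen x hx
  rw [eq_top_iff, ← hκ, Submodule.span_le]
  rintro _ ⟨l, rfl⟩
  rcases h with h | h
  · obtain ⟨u, hu⟩ := unit_om (pow_near K.ωw_hol m₀ x hx) (pow_ne_zero m₀ (K.ωw_ne x hx h))
    have h1 : K.L m₀ (Fin.castAdd K.p l) x = om (fun x => K.ωw x ^ m₀) x • K.κ l x :=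
      congrFun (Fin.append_left _ _ l) x
    have h2 : K.κ l x = u • K.L m₀ (Fin.castAdd K.p l) x := by
      rw [h1, smul_smul, hu, one_smul]
    rw [SetLike.mem_coe]
    change K.κ l x ∈ _
    rw [h2]
    exact Submodule.smul_mem _ _ (Submodule.subset_span ⟨_, rfl⟩)
  · obtain ⟨u, hu⟩ := unit_om (pow_near K.ωz_hol m₀ x hx) (pow_ne_zero m₀ (K.ωz_ne x hx h))
    have h1 : K.L m₀ (Fin.natAdd K.p l) x = om (fun x => K.ωz x ^ m₀) x • K.κ l x :=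
      congrFun (Fin.append_right _ _ l) x
    have h2 : K.κ l x = u • K.L m₀ (Fin.natAdd K.p l) x := by
      rw [h1, smul_smul, hu, one_smul]
    rw [SetLike.mem_coe]
    change K.κ l x ∈ _
    rw [h2]
    exact Submodule.smul_mem _ _ (Submodule.subset_span ⟨_, rfl⟩)

/-- the quotient sheaf -/
noncomputable def S (m₀ : ℕ) : EMod.{0, 0, 0} (O V) :=
  M₀'.quot (M₀'.spn (K.L m₀)) (M₀'.spn_open (K.L m₀))

private theorem S_near (hext : Ext0 M₀ σ T₀ M₀' θ) {x : V} (hx : x ∈ σ.KC K.P₁.Tc) :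
    ∀ᶠ y in 𝓝 x, (K.S m₀).CohAt y := by
  have h1 : ∀ᶠ y in 𝓝 x, ∀ i, M₀'.At (K.L m₀ i) y :=
    eventually_all.2 fun i => M₀'.ev (K.L_on i x hx)
  filter_upwards [hext.coh x (σ.KC_mono34 K.P₁_sub hx), h1] with y hy1 hy2
  exact M₀'.quot_cohAt _ _ (O_relAt y) hy1 (K.L m₀) hy2 (M₀'.spn_near _ hy2)

/-- Proof: `EMod.quot_cohAt`, `O_relAt`, `EMod.Coh.cohAt`, `EMod.spn_near`. -/
theorem S_cohAt (hext : Ext0 M₀ σ T₀ M₀' θ) {x : V} (hx : x ∈ σ.KC K.P₁.Tc) :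
    (K.S m₀).CohAt x := (K.S_near hext hx).self_of_nhds

/-- Proof: `L_span` with `EMod.spn_eq` (the quotient by `⊤`), or `M₀'.St x` is zero (`hext.bd`). -/
theorem S_zero (hext : Ext0 M₀ σ T₀ M₀' θ) {x : V} (hx : x ∈ σ.KC K.P₁.Tc)
    (h : K.rw' ≤ ‖σ.w x‖ ∨ K.rz' ≤ ‖σ.z x‖ ∨ ‖σ.v x‖ = σ.Rv) :
    Subsingleton ((K.S m₀).St x) := by
  change Subsingleton (M₀'.St x ⧸ M₀'.spn (K.L m₀) x)
  have h1 : (K.rw' ≤ ‖σ.w x‖ ∨ K.rz' ≤ ‖σ.z x‖) → Subsingleton (M₀'.St x ⧸ M₀'.spn (K.L m₀) x) := by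
    intro h
    rw [Submodule.Quotient.subsingleton_iff, M₀'.spn_eq _ fun i => K.L_on i x hx]
    exact K.L_span hx h
  rcases h with h | h | h
  · exact h1 (Or.inl h)
  · exact h1 (Or.inr h)
  · have h2 := hext.bd x (σ.KC_mono34 K.P₁_sub hx) h
    exact (Submodule.mkQ_surjective _).subsingleton

/-- Proof: `Sit.ps_cohAt`, `S_cohAt`, `S_zero` (`‖w‖ = Rw` implies `rw' ≤ ‖w‖`). -/
theorem ps_cohAt (hext : Ext0 M₀ σ T₀ M₀' θ) {t : Fin k → ℂ} (ht : t ∈ K.P₁.T) :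
    (σ.ps (K.S m₀)).CohAt t := by
  have hsub : σ.KC {t} ⊆ σ.KC K.P₁.Tc :=
    σ.KC_mono34 (singleton_subset_iff.2 (K.P₁.sub ht))
  refine σ.ps_cohAt _ (fun x hx => K.S_near hext (hsub hx)) fun x hx h => ?_
  refine K.S_zero hext (hsub hx) ?_
  rcases h with h | h | h
  · exact Or.inl (by rw [h]; exact K.hrw'.le)
  · exact Or.inr (Or.inl (by rw [h]; exact K.hrz'.le))
  · exact Or.inr (Or.inr h)

open Classical in
/-- the class of a section over `KO T`, extended by zero -/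
noncomputable def sx (m₀ : ℕ) (T : Set (Fin k → ℂ)) (s' : (x : V) → M₀'.St x) :
    (x : V) → (K.S m₀).St x :=
  fun x => if x ∈ σ.KO T then (M₀'.spn (K.L m₀) x).mkQ (s' x) else 0

theorem sx_eq {s' : (x : V) → M₀'.St x} {x : V} (hx : x ∈ σ.KO T) :
    K.sx m₀ T s' x = (M₀'.spn (K.L m₀) x).mkQ (s' x) := if_pos hx

/-- the extension by zero is a section near `KC T`. Proof: near the points of the open set `KO T` it is the class of
`s'`; a point `x ∈ KC T` not in `KO T` has `‖w‖ = Rw`, `‖z‖ = Rz` or `‖v‖ = Rv` (`mem_KO`, `mem_KC`), `S` vanishes near `x`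
(`S_zero`, `S_cohAt`, `EMod.CohAt.subsingleton_near`): `EMod.at_of_subsingleton`. -/
theorem sx_on (hext : Ext0 M₀ σ T₀ M₀' θ) (hT : IsOpen T) (hTP : T ⊆ K.P₁.T)
    {s' : (x : V) → M₀'.St x} (hs : M₀'.On s' (σ.KO T)) :
    (K.S m₀).On (K.sx m₀ T s') (σ.KC T) := by
  intro x hx
  by_cases hxo : x ∈ σ.KO T
  · refine ⟨s', hs x hxo, ?_⟩
    filter_upwards [(σ.isOpen_KO hT).mem_nhds hxo] with y hy
    exact K.sx_eq hy
  · have hxP : x ∈ σ.KC K.P₁.Tc := σ.KC_mono34 (hTP.trans K.P₁.sub) hx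
    have hz : Subsingleton ((K.S m₀).St x) := by
      refine K.S_zero hext hxP ?_
      rw [Sit.mem_KC] at hx
      rw [Sit.mem_KO] at hxo
      by_cases h1 : ‖σ.w x‖ < σ.Rw
      · by_cases h2 : ‖σ.z x‖ < σ.Rz
        · have h3 : ¬ ‖σ.v x‖ < σ.Rv := fun h3 => hxo ⟨hx.1, h1, h2, h3⟩
          exact Or.inr (Or.inr (le_antisymm hx.2.2.2 (not_lt.1 h3)))
        · exact Or.inr (Or.inl (K.hrz'.le.trans (not_lt.1 h2)))
      · exact Or.inl (K.hrw'.le.trans (not_lt.1 h1))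
    exact EMod.at_of_subsingleton (K.S_cohAt hext hxP).1
      ((K.S_cohAt hext hxP).subsingleton_near hz) _

end KD

end Pool.Agent.DQ
end

section

/-! M34, rank bound 2: the image of `M₀` in its extension `M₀'`, at the points over regular `t`. -/

set_option autoImplicit false
set_option linter.unusedSectionVars false

open Set Filter Topology

universe u v w

namespace Pool.Agent.DQ

variable {V : Type} [NormedAddCommGroup V] [NormedSpace ℂ V] [FiniteDimensional ℂ V] {k d : ℕ}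
  {𝓐 : Defo.{0, v} V} {M : EMod.{0, v, w} 𝓐.A} {M₀ : EMod.{0, 0, w} (O V)}
  {ρ : ∀ x, M.St x → M₀.St x} {Y : Set V} {σ : Sit V k d} {T₀ T T' : Set (Fin k → ℂ)}
  {M₀' : EMod.{0, 0, 0} (O V)} {θ : ∀ x, M₀'.St x → M₀.St x}

/-- `s'` (a section of `M₀'` over `KO T`) is the extension of a section of `M₀` over `KO T` -/
def IsExt34 (M₀ : EMod.{0, 0, w} (O V)) (σ : Sit V k d) (M₀' : EMod.{0, 0, 0} (O V))
    (θ : ∀ x, M₀'.St x → M₀.St x) (T : Set (Fin k → ℂ)) (s' : (x : V) → M₀'.St x) : Prop :=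
  M₀'.On s' (σ.KO T) ∧ ∃ s, M₀.On s (σ.KO T) ∧ ∀ y ∈ σ.Q1 T ∪ σ.Q2 T, θ y (s' y) = s y

/-- the subsheaf of `M₀'` generated by the extensions of sections of `M₀` -/
noncomputable def Ns (M₀ : EMod.{0, 0, w} (O V)) (σ : Sit V k d) (T₀ : Set (Fin k → ℂ))
    (M₀' : EMod.{0, 0, 0} (O V)) (θ : ∀ x, M₀'.St x → M₀.St x) (x : V) :
    Submodule ((O V).St x) (M₀'.St x) :=
  Submodule.span _ {g | ∃ T, IsOpen T ∧ T ⊆ T₀ ∧ x ∈ σ.KO T ∧
    ∃ s', IsExt34 M₀ σ M₀' θ T s' ∧ s' x = g}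

/-- Proof: `Submodule.span_induction`: for a generator the section `s'` itself (its values at the points of
the open set `KO T` are in `Ns`); zero, sums, multiples by germs `om f x` (`EMod.add`, `EMod.smul`, `at_om`). -/
theorem Ns_open (M₀ : EMod.{0, 0, w} (O V)) (σ : Sit V k d) (T₀ : Set (Fin k → ℂ))
    (M₀' : EMod.{0, 0, 0} (O V)) (θ : ∀ x, M₀'.St x → M₀.St x) :
    ∀ x ∈ M₀'.dom, ∀ g ∈ Ns M₀ σ T₀ M₀' θ x, ∃ s : (x : V) → M₀'.St x,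
      M₀'.At s x ∧ s x = g ∧ ∀ᶠ y in 𝓝 x, s y ∈ Ns M₀ σ T₀ M₀' θ y := by
  intro x hx g hg
  refine Submodule.span_induction (p := fun g _ => ∃ s : (x : V) → M₀'.St x,
    M₀'.At s x ∧ s x = g ∧ ∀ᶠ y in 𝓝 x, s y ∈ Ns M₀ σ T₀ M₀' θ y) ?_ ?_ ?_ ?_ hg
  · rintro _ ⟨T, hT, hT0, hxT, s', he, rfl⟩
    refine ⟨s', he.1 x hxT, rfl, ?_⟩
    filter_upwards [(σ.isOpen_KO hT).mem_nhds hxT] with y hy
    exact Submodule.subset_span ⟨T, hT, hT0, hy, s', he, rfl⟩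
  · exact ⟨0, M₀'.zero x hx, rfl, Eventually.of_forall fun y => Submodule.zero_mem _⟩
  · rintro a b _ _ ⟨s, hs, rfl, hsN⟩ ⟨t, ht, rfl, htN⟩
    refine ⟨s + t, M₀'.add hs ht, rfl, ?_⟩
    filter_upwards [hsN, htN] with y h1 h2
    exact Submodule.add_mem _ h1 h2
  · rintro a b _ ⟨s, hs, rfl, hsN⟩
    obtain ⟨f, hf, hfa⟩ := (O V).surj x (mem_univ x) a
    refine ⟨fun y => f y • s y, M₀'.smul hf hs, ?_, ?_⟩
    · change f x • s x = a • s x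
      rw [hfa]
    · filter_upwards [hsN] with y h1
      exact Submodule.smul_mem _ _ h1

/-- the quotient of `M₀'` by the extensions of sections of `M₀` -/
noncomputable def QQ (M₀ : EMod.{0, 0, w} (O V)) (σ : Sit V k d) (T₀ : Set (Fin k → ℂ))
    (M₀' : EMod.{0, 0, 0} (O V)) (θ : ∀ x, M₀'.St x → M₀.St x) : EMod.{0, 0, 0} (O V) :=
  M₀'.quot (Ns M₀ σ T₀ M₀' θ) (Ns_open M₀ σ T₀ M₀' θ)

/-- `θ` commutes with finite combinations. Proof: `hext.add`, `hext.smul` (and `θ 0 = 0` from `hext.add`). -/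
theorem Ext0.comb (hext : Ext0 M₀ σ T₀ M₀' θ) {x : V} (hx : x ∈ σ.Q1c T₀ ∪ σ.Q2c T₀) {n : ℕ}
    (a : Fin n → (O V).St x) (g : Fin n → M₀'.St x) :
    θ x (∑ i, a i • g i) = ∑ i, a i • θ x (g i) := by
  have h0 : θ x 0 = 0 := by
    have h1 := hext.add x hx 0 0
    rw [add_zero] at h1
    exact left_eq_add.mp h1
  have h2 : ∀ I : Finset (Fin n), θ x (∑ i ∈ I, a i • g i) = ∑ i ∈ I, a i • θ x (g i) := by
    intro I
    induction I using Finset.induction_on with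
    | empty => simpa using h0
    | insert i I hi ih =>
      rw [Finset.sum_insert hi, Finset.sum_insert hi, hext.add x hx, hext.smul x hx, ih]
  exact h2 Finset.univ

theorem Ext0.sub (hext : Ext0 M₀ σ T₀ M₀' θ) {x : V} (hx : x ∈ σ.Q1c T₀ ∪ σ.Q2c T₀)
    (m m' : M₀'.St x) : θ x (m - m') = θ x m - θ x m' := by
  have h1 := hext.add x hx (m - m') m'
  rw [sub_add_cancel] at h1
  rw [h1, add_sub_cancel_right]

/-- generators of `Ns` over regular polydiscs: a structure with the data -/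
structure Gens (M₀ : EMod.{0, 0, w} (O V)) (σ : Sit V k d) (T₀ : Set (Fin k → ℂ))
    (M₀' : EMod.{0, 0, 0} (O V)) (θ : ∀ x, M₀'.St x → M₀.St x) (B : TB k) where
  p : ℕ
  g : Fin p → (x : V) → M₀.St x
  g' : Fin p → (x : V) → M₀'.St x
  on : ∀ i, M₀.On (g i) (σ.KC B.Tc)
  gen : M₀.Gen g (σ.KC B.Tc)
  on' : ∀ i, M₀'.On (g' i) (σ.KO B.T)
  eq : ∀ i, ∀ x ∈ σ.Q1 B.T ∪ σ.Q2 B.T, θ x (g' i x) = g i x
  span : ∀ x ∈ σ.KO B.T, Ns M₀ σ T₀ M₀' θ x = Submodule.span ((O V).St x) (range fun i => g' i x)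

/-- (34.4) Proof: `M₀` is coherent near `KC B.Tc` (`hm.red.coh`); `g` from `IsBox.cartanA` for `σ.isBox_KO B`;
`g'` from `hext.ext B.T`. `span`, `≥`: `g' i` is an extension (`IsExt34`) over `B.T`. `≤`: let `s'` extend `s` over `T'`,
`x ∈ KO T'`, `x ∈ KO B.T`; take a polydisc `B'` with `σ.t x ∈ B'.T`, `B'.Tc ⊆ T' ∩ B.T`; `IsBox.cartanB_open` for
`σ.isBox_KO B'`, `M₀` and the generators `g`: `s = ∑ om (a i) • g i` on `KO B'.T`; `s' - ∑ om (a i) • g' i` is a section of `M₀'`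
over `KO B'.T` killed by `θ` on the shell (`Ext0.comb`, `Ext0.sub`), so zero there (`hext.bij`), so zero on `KO B'.T`
by `hext.inj`. -/
theorem exists_gens34 (hm : Main 𝓐 M M₀ ρ Y σ T₀) (hext : Ext0 M₀ σ T₀ M₀' θ) (B : TB k)
    (hB : B.Tc ⊆ T₀) (hBM : σ.KC B.Tc ⊆ M.dom) : Nonempty (Gens M₀ σ T₀ M₀' θ B) := by
  have hcoh : M₀.Coh (σ.KC B.Tc) := by
    intro x hx
    filter_upwards [hm.refl.coh x (hBM hx)] with y hy
    exact IsRed.coh 𝓐 hm.red hy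
  have hBT : B.T ⊆ T₀ := B.sub.trans hB
  have hKO : σ.KO B.T ⊆ σ.KC B.Tc := σ.KO_sub_KC.trans (σ.KC_mono34 B.sub)
  obtain ⟨p, g, hg, hgen⟩ := (σ.isBox_KO B).cartanA M₀ hcoh
  have hg1 : ∀ i, M₀.On (g i) (σ.Q1 B.T ∪ σ.Q2 B.T) := fun i x hx =>
    hg i x (hKO (hx.elim (fun h => σ.Q1_sub_KO h) fun h => σ.Q2_sub_KO h))
  choose g' hg' hθ using fun i => hext.ext B.T hBT B.isOpen (g i) (hg1 i)
  refine ⟨⟨p, g, g', hg, hgen, hg', hθ, fun x hx => le_antisymm ?_ ?_⟩⟩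
  · refine Submodule.span_le.2 ?_
    rintro _ ⟨T', hT', hT'0, hxT', s', ⟨hs', s, hs, hsθ⟩, rfl⟩
    have hxx := hx
    have hxx' := hxT'
    rw [Sit.mem_KO] at hxx hxx'
    obtain ⟨B', hxB', hB'⟩ := exists_TB (σ.t x)
      ((hT'.inter B.isOpen).mem_nhds ⟨hxx'.1, hxx.1⟩)
    have hB'T' : B'.T ⊆ T' := fun t ht => (hB' (B'.sub ht)).1
    have hB'B : B'.Tc ⊆ B.Tc := fun t ht => B.sub (hB' ht).2
    have hB'0 : B'.T ⊆ T₀ := hB'T'.trans hT'0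
    have hxK : x ∈ σ.KO B'.T := by
      rw [Sit.mem_KO]
      exact ⟨hxB', hxx.2⟩
    have hKC : σ.KC B'.Tc ⊆ σ.KC B.Tc := σ.KC_mono34 hB'B
    have hcoh' : M₀.Coh (σ.KC B'.Tc) := fun y hy => hcoh y (hKC hy)
    obtain ⟨a, ha, has⟩ := (σ.isBox_KO B').cartanB_open M₀ hcoh' g
      (fun i => (hg i).mono hKC) (fun y hy => hgen y (hKC hy)) s
      (hs.mono (σ.KO_mono hB'T'))
    have hs'' : M₀'.On s' (σ.KO B'.T) := hs'.mono (σ.KO_mono hB'T')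
    have hKO' : σ.KO B'.T ⊆ σ.KO B.T := σ.KO_mono fun t ht => (hB' (B'.sub ht)).2
    have hon : M₀'.On (fun y => s' y - ∑ i, om (a i) y • g' i y) (σ.KO B'.T) :=
      hs''.sub (EMod.On.comb (fun y hy => M₀'.mem_dom (hs'' y hy))
        (fun i => (hg' i).mono hKO') ha)
    have hz : ∀ y ∈ σ.Q1 B'.T ∪ σ.Q2 B'.T, s' y - ∑ i, om (a i) y • g' i y = 0 := by
      intro y hy
      have hyc : y ∈ σ.Q1c T₀ ∪ σ.Q2c T₀ := hy.elim
        (fun h => Or.inl (σ.Q1c_mono hB'0 (σ.Q1_sub_Q1c h)))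
        fun h => Or.inr (σ.Q2c_mono hB'0 (σ.Q2_sub_Q2c h))
      have hyK : y ∈ σ.KO B'.T := hy.elim (fun h => σ.Q1_sub_KO h) fun h => σ.Q2_sub_KO h
      have hyT' : y ∈ σ.Q1 T' ∪ σ.Q2 T' := hy.elim
        (fun h => Or.inl (σ.Q1_mono hB'T' h)) fun h => Or.inr (σ.Q2_mono hB'T' h)
      have hyB : y ∈ σ.Q1 B.T ∪ σ.Q2 B.T := hy.elim
        (fun h => Or.inl (σ.Q1_mono (fun t ht => (hB' (B'.sub ht)).2) h))
        fun h => Or.inr (σ.Q2_mono (fun t ht => (hB' (B'.sub ht)).2) h)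
      have h0 : θ y 0 = 0 := by
        have h1 := hext.sub hyc 0 0
        rwa [sub_zero, sub_self] at h1
      apply (hext.bij y hyc).1
      rw [h0, hext.sub hyc, hext.comb hyc, hsθ y hyT', has y hyK, sub_eq_zero]
      exact Finset.sum_congr rfl fun i _ => by rw [hθ i y hyB]
    have hx0 := hext.inj B'.T hB'0 B'.isOpen _ hon hz x hxK
    have hx1 : s' x = ∑ i, om (a i) x • g' i x := sub_eq_zero.1 hx0
    rw [SetLike.mem_coe, hx1]
    exact Submodule.sum_mem _ fun i _ => Submodule.smul_mem _ _ (Submodule.subset_span ⟨i, rfl⟩)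
  · refine Submodule.span_le.2 ?_
    rintro _ ⟨i, rfl⟩
    exact Submodule.subset_span ⟨B.T, B.isOpen, hBT, hx, g' i, ⟨hg' i, g i, (hg i).mono hKO, hθ i⟩,
      rfl⟩

end Pool.Agent.DQ
end
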