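import Pool.Agent.Lib.MP_4aa2a9_ag.Mg.G029
import Pool.Agent.Lib.MP_4aa2a9_ag.Mg.G025
import Pool.Agent.Lib.MP_4aa2a9_ag.Mg.G032
import Pool.Agent.Lib.MP_4aa2a9_ag.Mg.G018
import Pool.Agent.DQ.Mg_MP_4aa2a9_ag.G003

section

/-! Campaign DQ, module M12, block (f), file MF8d: operators on `KS` from operators on the direct image of
`M₀` over the shell. -/

set_option autoImplicit false
set_option linter.unusedVariables false

open Set Filter Topology

namespace Pool.Agent.DQ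

namespace MF

universe w

variable {V : Type} [NormedAddCommGroup V] [NormedSpace ℂ V] [FiniteDimensional ℂ V] {k d : ℕ}
  {M₀ : EMod.{0, 0, w} (O V)} {σ : Sit V k d} {T' : Set (Fin k → ℂ)} {jw jw' jz jz' : ℝ}
  {KS : EMod.{0, 0, 0} (O (Bs k))} {Λ : ∀ b, (EE M₀ σ).St b → KS.St b}

/-- multiplication by the coordinate `v i` on the direct image -/
noncomputable abbrev vm (M₀ : EMod.{0, 0, w} (O V)) (σ : Sit V k d) (i : Fin d) (b : Bs k) :
    (EE M₀ σ).St b →ₗ[(O (Bs k)).St b] (EE M₀ σ).St b :=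
  mulC M₀ σ.e (DD σ) (isCompact_PD _ _) (ContinuousLinearEquiv.refl ℂ (Fin d → ℂ)) i b

/-- Proof. `EMod.push_at`: `μ` is given by a section `s` of `M₀` near the fibres, `vm ∘ μ` by `fun x => om (fun y => (σ.e y).2 i) x • s x` (`pushVal_mulC`, `M₀.smul`, `holAt_fibc`). -/
theorem vm_at (i : Fin d) {μ : (b : Bs k) → (EE M₀ σ).St b} {b : Bs k} (hμ : (EE M₀ σ).At μ b) :
    (EE M₀ σ).At (fun b' => vm M₀ σ i b' (μ b')) b := by
  obtain ⟨s, hs⟩ := (M₀.push_at σ.e (DD σ) (isCompact_PD _ _)).1 hμ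
  refine (M₀.push_at σ.e (DD σ) (isCompact_PD _ _)).2
    ⟨fun x => om (fun y => (ContinuousLinearEquiv.refl ℂ (Fin d → ℂ)) (σ.e y).2 i) x • s x, ?_⟩
  filter_upwards [hs] with b' hb'
  refine ⟨fun x hx => M₀.smul (O_at_gm (holAt_fibc σ.e _ i x)) (hb'.1 x hx), fun x hx => ?_⟩
  rw [pushVal_mulC, hb'.2 x hx]

/-- Proof. `push_ext`, `pushVal_mulC`, `smul_smul`, `mul_comm`. -/
theorem vm_comm (i i' : Fin d) (b : Bs k) (m : (EE M₀ σ).St b) :
    vm M₀ σ i b (vm M₀ σ i' b m) = vm M₀ σ i' b (vm M₀ σ i b m) := by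
  refine M₀.push_ext σ.e (DD σ) (isCompact_PD _ _) b _ _ fun x hx => ?_
  rw [pushVal_mulC, pushVal_mulC, pushVal_mulC, pushVal_mulC, smul_smul, smul_smul, mul_comm]

/-- **Inverse image of a section.** Proof. `classical`; `μ b` := the element with `Λ b (μ b) = S b` for `b ∈ S₁` (`h.bij`), `0` otherwise; `h.at_iff`: near `b ∈ S₁` (open) `Λ b' (μ b') = S b'`. -/
theorem exists_inv (h : KSData M₀ σ T' jw jw' jz jz' KS Λ) {S₁ : Set (Bs k)} (hS₁ : IsOpen S₁)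
    (hsub : S₁ ⊆ M12.shell σ T' jw jw' jz jz') {S : (b : Bs k) → KS.St b} (hS : KS.On S S₁) :
    ∃ μ : (b : Bs k) → (EE M₀ σ).St b, (EE M₀ σ).On μ S₁ ∧ ∀ b ∈ S₁, Λ b (μ b) = S b := by
  classical
  have hex : ∀ b, ∃ m : (EE M₀ σ).St b, b ∈ S₁ → Λ b m = S b := by
    intro b
    by_cases hb : b ∈ S₁
    · obtain ⟨m, hm⟩ := (h.bij b (hsub hb)).2 (S b)
      exact ⟨m, fun _ => hm⟩
    · exact ⟨0, fun h' => absurd h' hb⟩
  choose μ hμ using hex
  refine ⟨μ, fun b hb => ?_, fun b hb => hμ b hb⟩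
  rw [h.at_iff b (hsub hb)]
  refine KS.congr (hS b hb) ?_
  filter_upwards [hS₁.mem_nhds hb] with b' hb'
  exact (hμ b' hb').symm

/-- **Extension of operators.** (`hT`, `hA`, … say that the radii are admissible.)

Proof. Let `S₁ = M12.shell σ (ball σ.t₀ τ) jw A jz B`, open (`isOpen_shell`), contained in the big shell (`shell_mono`), and in `oB σ τ A B` (`shell_subset_bx`). `exists_inv` for `S` on `S₁` gives `μ`; `φ ∘ μ` is a section on `S₁`
(`hφ`), so `fun b => Λ b (φ b (μ b))` is a section of `KS` on `S₁` (`h.at_iff`). `h.hart` (with `T = ball`, `a = jw`, `b = jz`) extends it to `S'` on `oB σ τ A B`. If `Λ b m = S b` then `m = μ b` (`h.bij`). -/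
theorem ext_op (h : KSData M₀ σ T' jw jw' jz jz' KS Λ) {τ A B : ℝ}
    (hT : Metric.ball σ.t₀ τ ⊆ T') (hA : jw < A) (hA' : A ≤ jw') (hB : jz < B) (hB' : B ≤ jz')
    (φ : ∀ b, (EE M₀ σ).St b → (EE M₀ σ).St b)
    (hφ : ∀ b ∈ M12.shell σ T' jw jw' jz jz', ∀ μ, (EE M₀ σ).At μ b →
      (EE M₀ σ).At (fun b' => φ b' (μ b')) b)
    {S : (b : Bs k) → KS.St b} (hS : KS.On S (oB σ τ A B)) :
    ∃ S' : (b : Bs k) → KS.St b, KS.On S' (oB σ τ A B) ∧
      ∀ b ∈ M12.shell σ (Metric.ball σ.t₀ τ) jw A jz B, ∀ m, Λ b m = S b → S' b = Λ b (φ b m) := by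
  have hop : IsOpen (M12.shell σ (Metric.ball σ.t₀ τ) jw A jz B) :=
    isOpen_shell σ Metric.isOpen_ball _ _ _ _
  have hsub : M12.shell σ (Metric.ball σ.t₀ τ) jw A jz B ⊆ M12.shell σ T' jw jw' jz jz' :=
    shell_mono σ hT le_rfl hA' le_rfl hB'
  have hin : M12.shell σ (Metric.ball σ.t₀ τ) jw A jz B ⊆ oB σ τ A B :=
    shell_subset_bx σ _ _ _ _ _
  obtain ⟨μ, hμ, hμS⟩ := exists_inv h hop hsub (S := S) fun b hb => hS b (hin hb)
  have h1 : KS.On (fun b => Λ b (φ b (μ b))) (M12.shell σ (Metric.ball σ.t₀ τ) jw A jz B) := by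
    intro b hb
    exact (h.at_iff b (hsub hb) (fun b' => φ b' (μ b'))).1 (hφ b (hsub hb) μ (hμ b hb))
  obtain ⟨S', hS', hS'e⟩ := h.hart _ hT Metric.isOpen_ball jw A jz B le_rfl hA hA' le_rfl hB hB'
    _ h1
  refine ⟨S', hS', fun b hb m hm => ?_⟩
  have h2 : m = μ b := (h.bij b (hsub hb)).1 (by rw [hm, hμS b hb])
  rw [hS'e b hb, h2]

/-- Proof. `h.uniq` with `T = ball`, `a = jw`, `b = jz`. -/
theorem zero_of_shell (h : KSData M₀ σ T' jw jw' jz jz' KS Λ) {τ A B : ℝ}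
    (hT : Metric.ball σ.t₀ τ ⊆ T') (hA : jw < A) (hA' : A ≤ jw') (hB : jz < B) (hB' : B ≤ jz')
    {S : (b : Bs k) → KS.St b} (hS : KS.On S (oB σ τ A B))
    (h0 : ∀ b ∈ M12.shell σ (Metric.ball σ.t₀ τ) jw A jz B, S b = 0) :
    ∀ b ∈ oB σ τ A B, S b = 0 :=
  h.uniq _ hT Metric.isOpen_ball jw A jz B le_rfl hA hA' le_rfl hB hB' S hS h0

/-- **Division by `c₁ - v i` on the direct image**, `‖c₁ - cc σ i‖ ≥ Rv`.

Proof. For a section `s` of `M₀` near the fibre over `b` (in the shell) let `s' x := om (fun y => (c₁ - (σ.e y).2 i)⁻¹) x • s x`. It is a section at the points `x` of the fibre: if `(σ.e x).2 i ≠ c₁` the function is holomorphic near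
`x`; otherwise `σ.Rv ≤ ‖(σ.e x).2 i - cc σ i‖ ≤ ‖σ.v x‖ ≤ σ.Rv` (`norm_le_pi_norm`), so the stalk is trivial at `x` (`h.bd`) and near `x` (`zero_near`, `h.cohM`), and every family is a section there (`M₀.congr` with
`M₀.zero`). And `(c₁ - v i) • s' x = s x` on the fibre (germs: `om_mul`, or trivial stalk). Uniqueness: if `m ∈ (EE M₀ σ).St b` (`b` in the shell) satisfies `c₁ • m = vm m` then `m = 0`
(`push_ext`; at `x` with `(σ.e x).2 i ≠ c₁` the germ of `c₁ - v i` is a unit, otherwise the stalk is trivial). `φ b m := if h : ∃ m', om (fun _ => c₁) b • m' - vm M₀ σ i b m' = m then h.choose else 0`. For `b` in the shell the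
element exists (`m = pushSec s b`, `exists_pushSec`, `m' = pushSec s' b`), and if `μ` is a section near `b`, given by `s` (`push_at`), then `φ b' (μ b') = pushSec s' b'` for `b'` near `b` (uniqueness; the shell is open,
`isOpen_shell` with `h.T_open`), which is a section (`pushSec_at`, `EMod.on_near`). Note `pushVal (om (fun _ => c₁) b • m) x = om (fun _ => c₁) x • pushVal m x` (`pushVal_smul_om`). -/
theorem exists_div (h : KSData M₀ σ T' jw jw' jz jz' KS Λ) (i : Fin d) {c₁ : ℂ}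
    (hc : σ.Rv ≤ ‖c₁ - cc σ i‖) :
    ∃ φ : ∀ b, (EE M₀ σ).St b → (EE M₀ σ).St b,
      (∀ b ∈ M12.shell σ T' jw jw' jz jz', ∀ m,
        om (fun _ => c₁) b • φ b m - vm M₀ σ i b (φ b m) = m) ∧
      ∀ b ∈ M12.shell σ T' jw jw' jz jz', ∀ μ, (EE M₀ σ).At μ b →
        (EE M₀ σ).At (fun b' => φ b' (μ b')) b := by
  classical
  -- the function `c₁ - v i` and its inverse
  set κ := ContinuousLinearEquiv.refl ℂ (Fin d → ℂ) with hκ
  have hvh : ∀ x : V, HolAt (fun y => κ (σ.e y).2 i) x := holAt_fibc σ.e κ i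
  have hgh : ∀ x : V, HolAt (fun y => c₁ - κ (σ.e y).2 i) x := fun x =>
    (HolAt.const c₁ x).sub (hvh x)
  have hih : ∀ x : V, c₁ - κ (σ.e x).2 i ≠ 0 → HolAt (fun y => (c₁ - κ (σ.e y).2 i)⁻¹) x := by
    intro x hx
    have hc0 : ∀ᶠ y in 𝓝 x, c₁ - κ (σ.e y).2 i ≠ 0 :=
      (hgh x).differentiableAt.continuousAt.eventually_ne hx
    filter_upwards [hgh x, hc0] with y h1 h2
    exact h1.inv h2
  have hmul : ∀ x : V, c₁ - κ (σ.e x).2 i ≠ 0 →
      om (fun y => c₁ - κ (σ.e y).2 i) x * om (fun y => (c₁ - κ (σ.e y).2 i)⁻¹) x = 1 := by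
    intro x hx
    rw [← om_mul (hgh x) (hih x hx), ← om_one x]
    refine om_congr ((hgh x).mul (hih x hx)) ?_
    have hc0 : ∀ᶠ y in 𝓝 x, c₁ - κ (σ.e y).2 i ≠ 0 :=
      (hgh x).differentiableAt.continuousAt.eventually_ne hx
    filter_upwards [hc0] with y h2
    exact mul_inv_cancel₀ h2
  have hsubs : ∀ b ∈ M12.shell σ T' jw jw' jz jz', ∀ x ∈ fib σ.e (DD σ) b,
      c₁ - κ (σ.e x).2 i = 0 → Subsingleton (M₀.St x) := by
    intro b hb x hx h0
    refine h.bd b hb x hx (le_antisymm ?_ ?_)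
    · rw [pi_norm_le_iff_of_nonneg σ.Rv_pos.le]
      intro l
      exact mem_PD.1 hx.2 l
    · have h1 : (σ.e x).2 i = c₁ := (sub_eq_zero.1 h0).symm
      calc σ.Rv ≤ ‖c₁ - cc σ i‖ := hc
        _ = ‖σ.v x i‖ := by
            rw [← h1]
            rfl
        _ ≤ ‖σ.v x‖ := norm_le_pi_norm _ i
  -- the key formula
  have hval : ∀ (b : Bs k) (m : (EE M₀ σ).St b) (x : V) (hx : x ∈ fib σ.e (DD σ) b),
      M₀.pushVal σ.e (DD σ) (isCompact_PD _ _) b (om (fun _ => c₁) b • m - vm M₀ σ i b m) x hx =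
        om (fun y => c₁ - κ (σ.e y).2 i) x •
          M₀.pushVal σ.e (DD σ) (isCompact_PD _ _) b m x hx := by
    intro b m x hx
    have e1 : om (fun y => c₁ - κ (σ.e y).2 i) x =
        om (fun _ => c₁) x - om (fun y => κ (σ.e y).2 i) x := by
      rw [eq_sub_iff_add_eq, ← om_add (hgh x) (hvh x)]
      congr 1
      funext y
      ring
    have e2 : M₀.pushVal σ.e (DD σ) (isCompact_PD _ _) b (om (fun _ => c₁) b • m) x hx =
        om (fun _ => c₁) x • M₀.pushVal σ.e (DD σ) (isCompact_PD _ _) b m x hx :=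
      M₀.pushVal_smul_om σ.e (DD σ) (isCompact_PD _ _) b (HolAt.const c₁ b) m x hx
    rw [e1, sub_smul, ← e2]
    rfl
  have hsec : ∀ b ∈ M12.shell σ T' jw jw' jz jz', ∀ s : (x : V) → M₀.St x,
      M₀.On s (fib σ.e (DD σ) b) →
      M₀.On (fun x => om (fun y => (c₁ - κ (σ.e y).2 i)⁻¹) x • s x) (fib σ.e (DD σ) b) := by
    intro b hb s hs x hx
    by_cases h0 : c₁ - κ (σ.e x).2 i = 0
    · have h1 := hsubs b hb x hx h0
      have h2 := zero_near M₀ (h.cohM b hb x hx).self_of_nhds h1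
      refine M₀.congr (M₀.zero x (M₀.mem_dom (hs x hx))) ?_
      filter_upwards [h2] with y hy
      exact Subsingleton.elim _ _
    · exact M₀.smul (O_at_gm (hih x h0)) (hs x hx)
  have huniq : ∀ b ∈ M12.shell σ T' jw jw' jz jz', ∀ m m' : (EE M₀ σ).St b,
      om (fun _ => c₁) b • m - vm M₀ σ i b m = om (fun _ => c₁) b • m' - vm M₀ σ i b m' →
      m = m' := by
    intro b hb m m' hmm
    refine M₀.push_ext σ.e (DD σ) (isCompact_PD _ _) b _ _ fun x hx => ?_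
    by_cases h0 : c₁ - κ (σ.e x).2 i = 0
    · have h1 := hsubs b hb x hx h0
      exact Subsingleton.elim _ _
    · have h1 := hval b m x hx
      rw [hmm, hval b m' x hx] at h1
      have h2 := congrArg (fun z => om (fun y => (c₁ - κ (σ.e y).2 i)⁻¹) x • z) h1
      simp only [smul_smul] at h2
      rw [mul_comm, hmul x h0, one_smul, one_smul] at h2
      exact h2.symm
  have hsol : ∀ b ∈ M12.shell σ T' jw jw' jz jz', ∀ (s : (x : V) → M₀.St x),
      M₀.On s (fib σ.e (DD σ) b) → ∀ m : (EE M₀ σ).St b,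
      (∀ x (hx : x ∈ fib σ.e (DD σ) b), M₀.pushVal σ.e (DD σ) (isCompact_PD _ _) b m x hx = s x) →
      om (fun _ => c₁) b • M₀.pushSec σ.e (DD σ) (isCompact_PD _ _)
        (fun x => om (fun y => (c₁ - κ (σ.e y).2 i)⁻¹) x • s x) b -
        vm M₀ σ i b (M₀.pushSec σ.e (DD σ) (isCompact_PD _ _)
        (fun x => om (fun y => (c₁ - κ (σ.e y).2 i)⁻¹) x • s x) b) = m := by
    intro b hb s hs m hm
    refine M₀.push_ext σ.e (DD σ) (isCompact_PD _ _) b _ _ fun x hx => ?_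
    rw [hval, M₀.pushVal_pushSec σ.e (DD σ) (isCompact_PD _ _) (hsec b hb s hs), hm x hx]
    by_cases h0 : c₁ - κ (σ.e x).2 i = 0
    · have h1 := hsubs b hb x hx h0
      exact Subsingleton.elim _ _
    · rw [smul_smul, hmul x h0, one_smul]
  have hex : ∀ b, ∃ φ : (EE M₀ σ).St b → (EE M₀ σ).St b, b ∈ M12.shell σ T' jw jw' jz jz' →
      ∀ m, om (fun _ => c₁) b • φ m - vm M₀ σ i b (φ m) = m := by
    intro b
    by_cases hb : b ∈ M12.shell σ T' jw jw' jz jz'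
    · have hex2 : ∀ m : (EE M₀ σ).St b, ∃ m' : (EE M₀ σ).St b,
          om (fun _ => c₁) b • m' - vm M₀ σ i b m' = m := by
        intro m
        obtain ⟨s, hs, hsm⟩ := M₀.exists_pushSec σ.e (DD σ) (isCompact_PD _ _)
          (fun x hx => (h.cohM b hb x hx).self_of_nhds.1) m
        refine ⟨_, hsol b hb s hs m fun x hx => ?_⟩
        rw [← hsm, M₀.pushVal_pushSec σ.e (DD σ) (isCompact_PD _ _) hs]
      choose φ hφ using hex2
      exact ⟨φ, fun _ => hφ⟩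
    · exact ⟨id, fun h' => absurd h' hb⟩
  choose φ hφ using hex
  refine ⟨φ, fun b hb m => hφ b hb m, fun b hb μ hμ => ?_⟩
  obtain ⟨s, hs⟩ := (M₀.push_at σ.e (DD σ) (isCompact_PD _ _)).1 hμ
  have hop : IsOpen (M12.shell σ T' jw jw' jz jz') := isOpen_shell σ h.T_open _ _ _ _
  refine (EE M₀ σ).congr (M₀.pushSec_at σ.e (DD σ) (isCompact_PD _ _)
    (hsec b hb s hs.self_of_nhds.1)) ?_
  filter_upwards [hs, hop.mem_nhds hb] with b' hb' hb''
  refine huniq b' hb'' _ _ ?_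
  rw [hφ b' hb'' (μ b')]
  exact hsol b' hb'' s hb'.1 (μ b') hb'.2

end MF

end Pool.Agent.DQ
end

section

/-! Campaign DQ, module M12, block (f), file MF8f: the action of the coordinates `v i` on `KS`. -/

set_option autoImplicit false
set_option linter.unusedVariables false

open Set Filter Topology

namespace Pool.Agent.DQ

namespace MF

universe w

variable {V : Type} [NormedAddCommGroup V] [NormedSpace ℂ V] [FiniteDimensional ℂ V] {k d : ℕ}
  {M₀ : EMod.{0, 0, w} (O V)} {σ : Sit V k d} {T' : Set (Fin k → ℂ)} {jw jw' jz jz' : ℝ}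
  {KS : EMod.{0, 0, 0} (O (Bs k))} {Λ : ∀ b, (EE M₀ σ).St b → KS.St b}

/-- `Λ b` as a linear map, `b` in the shell -/
private noncomputable def lamL (h : KSData M₀ σ T' jw jw' jz jz' KS Λ) {b : Bs k}
    (hb : b ∈ M12.shell σ T' jw jw' jz jz') : (EE M₀ σ).St b →ₗ[(O (Bs k)).St b] KS.St b where
  toFun := Λ b
  map_add' := h.add b hb
  map_smul' := h.smul b hb

private theorem lam_sum (h : KSData M₀ σ T' jw jw' jz jz' KS Λ) {b : Bs k}
    (hb : b ∈ M12.shell σ T' jw jw' jz jz') {s : ℕ} (c : Fin s → (O (Bs k)).St b)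
    (m : Fin s → (EE M₀ σ).St b) : Λ b (∑ j, c j • m j) = ∑ j, c j • Λ b (m j) := by
  have h1 : lamL h hb (∑ j, c j • m j) = ∑ j, c j • lamL h hb (m j) := by
    rw [map_sum]
    exact Finset.sum_congr rfl fun j _ => map_smul _ _ _
  exact h1

private theorem lam_zero (h : KSData M₀ σ T' jw jw' jz jz' KS Λ) {b : Bs k}
    (hb : b ∈ M12.shell σ T' jw jw' jz jz') : Λ b 0 = 0 := map_zero (lamL h hb)

private theorem lam_sub (h : KSData M₀ σ T' jw jw' jz jz' KS Λ) {b : Bs k}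
    (hb : b ∈ M12.shell σ T' jw jw' jz jz') (m m' : (EE M₀ σ).St b) :
    Λ b (m - m') = Λ b m - Λ b m' := map_sub (lamL h hb) m m'

private theorem exists_comb {X : Type} [TopologicalSpace X] {R : ERing X} {F : EMod R} {s : ℕ}
    {g : Fin s → (x : X) → F.St x} {S : Set X} (hgen : F.Gen g S) {x : X} (hx : x ∈ S)
    (m : F.St x) : ∃ c : Fin s → R.St x, m = ∑ j, c j • g j x := by
  have hm : m ∈ Submodule.span (R.St x) (range fun i => g i x) := by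
    rw [hgen x hx]
    exact Submodule.mem_top
  exact mem_span_fam.mp hm

/-- generators, relations, matrices and operators over the open polydisc `oB σ τ A B` -/
structure Act (M₀ : EMod.{0, 0, w} (O V)) (σ : Sit V k d) (jw jz : ℝ)
    (KS : EMod.{0, 0, 0} (O (Bs k))) (Λ : ∀ b, (EE M₀ σ).St b → KS.St b) (τ A B : ℝ) {s q : ℕ}
    (κ : Fin s → (b : Bs k) → KS.St b) (ρ : Fin q → Fin s → Bs k → ℂ)
    (N : Fin d → Fin s → Fin s → Bs k → ℂ) (f : Fin d → (b : Bs k) → KS.St b → KS.St b) : Prop where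
  κ_on : ∀ j, KS.On (κ j) (oB σ τ A B)
  gen : KS.Gen κ (oB σ τ A B)
  ρ_hol : ∀ b ∈ oB σ τ A B, MatAt ρ b
  rel : ∀ b ∈ oB σ τ A B, KS.rel κ b = rowSp ρ b
  N_hol : ∀ i, ∀ b ∈ oB σ τ A B, MatAt (N i) b
  hom : ∀ i, ∀ b ∈ oB σ τ A B, HomAt KS KS (f i) b
  f_κ : ∀ i, ∀ b ∈ oB σ τ A B, ∀ j, f i b (κ j b) = ∑ l, om (N i j l) b • κ l b
  f_Λ : ∀ i, ∀ b ∈ M12.shell σ (Metric.ball σ.t₀ τ) jw A jz B, ∀ m,
    f i b (Λ b m) = Λ b (vm M₀ σ i b m)

/-- **Existence of the operators.**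

Proof. `cB σ τ₁ A₁ B₁` is in the region of `h.coh` (`cB_subset_bx`), `cB_gen` gives `κ` on it. For every `i`, `j` `ext_op` (radii `τ₁ A₁ B₁`, `φ = vm M₀ σ i`, `vm_at`; `ball ⊆ closedBall ⊆ T'`) for `S = κ j` on
`oB σ τ₁ A₁ B₁ ⊆ cB σ τ₁ A₁ B₁` gives `V i j`, a section on `oB σ τ₁ A₁ B₁ ⊇ cB σ τ₂ A₂ B₂` (`cB_subset_oB`). `cB_rel` on `cB σ τ₂ A₂ B₂` gives `ρ`. `cB_sec` on `cB σ τ₂ A₂ B₂` gives
`V i j b = ∑ l, om (N i j l) b • κ l b`. Let `U = oB σ τ₂ A₂ B₂` and let `S₁` be the shell over it. For every relation row `ρ l`: `∑ j, om (ρ l j) b • V i j b = 0` on `U`: it is a section on `U`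
(`EMod.comb` in DStalk.lean), and on `S₁` it is `0`: write `κ j b = Λ b (μ_j)`, then `∑ om (ρ l j) b • V i j b = Λ b (vm (∑ om (ρ l j) b • μ_j))` and `Λ b (∑ om (ρ l j) b • μ_j) = ∑ om (ρ l j) b • κ j b = 0`, so the argument is
`0` by injectivity; so `zero_of_shell`. `exists_hom` (file MHom) with `M = N = KS`, `g = κ`, `ρ := fun l j b => om (ρ l j) b`, `ν = V i`, `B = U` gives `f i`. `f_Λ`: both sides are additive and homogeneous in `m`, and
`m = ∑ c_j • μ_j` (`Λ b m = ∑ c_j • κ j b` by `gen`, injectivity), so it suffices that `f i b (κ j b) = V i j b = Λ b (vm M₀ σ i b μ_j)`. -/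
theorem exists_act (h : KSData M₀ σ T' jw jw' jz jz' KS Λ) {τ₂ A₂ B₂ τ₁ A₁ B₁ : ℝ}
    (hτ₂ : 0 < τ₂) (hτ : τ₂ < τ₁) (hT : Metric.closedBall σ.t₀ τ₁ ⊆ T') (hA₂ : jw < A₂)
    (hA : A₂ < A₁) (hA₁ : A₁ < jw') (hB₂ : jz < B₂) (hB : B₂ < B₁) (hB₁ : B₁ < jz') :
    ∃ (s q : ℕ) (κ : Fin s → (b : Bs k) → KS.St b) (ρ : Fin q → Fin s → Bs k → ℂ)
      (N : Fin d → Fin s → Fin s → Bs k → ℂ) (f : Fin d → (b : Bs k) → KS.St b → KS.St b),
      Act M₀ σ jw jz KS Λ τ₂ A₂ B₂ κ ρ N f := by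
  have hτ₁ : 0 < τ₁ := hτ₂.trans hτ
  have hTb : Metric.ball σ.t₀ τ₁ ⊆ T' := Metric.ball_subset_closedBall.trans hT
  have hTb₂ : Metric.ball σ.t₀ τ₂ ⊆ T' := (Metric.ball_subset_ball hτ.le).trans hTb
  have hcoh₁ : KS.Coh (cB σ τ₁ A₁ B₁) := fun x hx => h.coh x (cB_subset_bx σ hT hA₁ hB₁ hx)
  have h21 : cB σ τ₂ A₂ B₂ ⊆ oB σ τ₁ A₁ B₁ := cB_subset_oB σ hτ hA hB
  have h1c : oB σ τ₁ A₁ B₁ ⊆ cB σ τ₁ A₁ B₁ := oB_subset_cB σ _ _ _
  have hcoh₂ : KS.Coh (cB σ τ₂ A₂ B₂) := fun x hx => hcoh₁ x (h1c (h21 hx))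
  have h2o : oB σ τ₂ A₂ B₂ ⊆ cB σ τ₂ A₂ B₂ := oB_subset_cB σ _ _ _
  obtain ⟨s, κ, hκ, hgen⟩ := cB_gen σ hτ₁.le hcoh₁
  have hκ₂ : ∀ j, KS.On (κ j) (cB σ τ₂ A₂ B₂) := fun j x hx => hκ j x (h1c (h21 hx))
  have hgen₂ : KS.Gen κ (cB σ τ₂ A₂ B₂) := fun x hx => hgen x (h1c (h21 hx))
  have hV : ∀ (i : Fin d) (j : Fin s), ∃ S' : (b : Bs k) → KS.St b, KS.On S' (oB σ τ₁ A₁ B₁) ∧
      ∀ b ∈ M12.shell σ (Metric.ball σ.t₀ τ₁) jw A₁ jz B₁, ∀ m, Λ b m = κ j b →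
        S' b = Λ b (vm M₀ σ i b m) := fun i j =>
    ext_op h hTb (hA₂.trans hA) hA₁.le (hB₂.trans hB) hB₁.le (fun b => vm M₀ σ i b)
      (fun b _ μ hμ => vm_at i hμ) (S := κ j) fun x hx => hκ j x (h1c hx)
  choose W hW hWe using hV
  obtain ⟨q, ρ, hρ, hrel⟩ := cB_rel σ hτ₂.le hcoh₂ hκ₂
  have hN : ∀ (i : Fin d) (j : Fin s), ∃ a : Fin s → Bs k → ℂ,
      (∀ l, HolNear (a l) (cB σ τ₂ A₂ B₂)) ∧
      ∀ b ∈ cB σ τ₂ A₂ B₂, W i j b = ∑ l, om (a l) b • κ l b := fun i j =>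
    cB_sec σ hτ₂.le hcoh₂ hκ₂ hgen₂ fun x hx => hW i j x (h21 hx)
  choose N hNh hNe using hN
  have hsh1 : M12.shell σ (Metric.ball σ.t₀ τ₂) jw A₂ jz B₂ ⊆
      M12.shell σ (Metric.ball σ.t₀ τ₁) jw A₁ jz B₁ :=
    shell_mono σ (Metric.ball_subset_ball hτ.le) le_rfl hA.le le_rfl hB.le
  have hsh2 : M12.shell σ (Metric.ball σ.t₀ τ₁) jw A₁ jz B₁ ⊆ M12.shell σ T' jw jw' jz jz' :=
    shell_mono σ hTb le_rfl hA₁.le le_rfl hB₁.le
  have hsho : M12.shell σ (Metric.ball σ.t₀ τ₂) jw A₂ jz B₂ ⊆ oB σ τ₂ A₂ B₂ :=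
    shell_subset_bx σ _ _ _ _ _
  have hdom : oB σ τ₂ A₂ B₂ ⊆ KS.dom := fun x hx => (hcoh₂ x (h2o hx)).self_of_nhds.1
  have hρat : ∀ x ∈ oB σ τ₂ A₂ B₂, ∀ l j, (O (Bs k)).At (fun b => om (ρ l j) b) x :=
    fun x hx l j => O_at_gm (hρ x (h2o hx) l j)
  have hzero : ∀ (i : Fin d), ∀ x ∈ oB σ τ₂ A₂ B₂, ∀ l, ∑ j, om (ρ l j) x • W i j x = 0 := by
    intro i x hx l
    refine zero_of_shell h hTb₂ hA₂ (hA.le.trans hA₁.le) hB₂ (hB.le.trans hB₁.le)
      (S := fun x => ∑ j, om (ρ l j) x • W i j x) ?_ ?_ x hx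
    · intro y hy
      exact KS.comb (hdom hy) (fun j => hρat y hy l j) fun j => hW i j y (h21 (h2o hy))
    · intro y hy
      have hyb := hsh2 (hsh1 hy)
      choose μ hμ using fun j => (h.bij y hyb).2 (κ j y)
      have e1 : ∑ j, om (ρ l j) y • W i j y = ∑ j, om (ρ l j) y • Λ y (vm M₀ σ i y (μ j)) :=
        Finset.sum_congr rfl fun j _ => by rw [hWe i j y (hsh1 hy) (μ j) (hμ j)]
      have e2 : ∑ j, om (ρ l j) y • μ j = 0 := by
        refine (h.bij y hyb).1 ?_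
        rw [lam_sum h hyb, lam_zero h hyb]
        have e3 : (fun j => om (ρ l j) y) ∈ KS.rel κ y := by
          rw [hrel y (h2o (hsho hy))]
          exact Submodule.subset_span ⟨l, rfl⟩
        have e4 : ∑ j, om (ρ l j) y • κ j y = 0 := e3
        rw [← e4]
        exact Finset.sum_congr rfl fun j _ => by rw [hμ j]
      change ∑ j, om (ρ l j) y • W i j y = 0
      rw [e1, ← lam_sum h hyb]
      have e5 : ∑ j, om (ρ l j) y • vm M₀ σ i y (μ j) = vm M₀ σ i y (∑ j, om (ρ l j) y • μ j) := by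
        rw [map_sum]
        exact Finset.sum_congr rfl fun j _ => (map_smul _ _ _).symm
      rw [e5, e2, map_zero, lam_zero h hyb]
  have hf : ∀ i : Fin d, ∃ f : (x : Bs k) → KS.St x → KS.St x,
      (∀ x ∈ oB σ τ₂ A₂ B₂, HomAt KS KS f x) ∧
      ∀ x ∈ oB σ τ₂ A₂ B₂, ∀ j, f x (κ j x) = W i j x := fun i =>
    exists_hom KS KS κ (fun l j x => om (ρ l j) x) (W i) (oB σ τ₂ A₂ B₂) (isOpen_oB σ _ _ _)
      (fun j x hx => hκ₂ j x (h2o hx)) (fun x hx => hgen₂ x (h2o hx))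
      (fun x hx => hrel x (h2o hx)) (fun j x hx => hW i j x (h21 (h2o hx))) hdom hdom
      fun x hx l => hzero i x hx l
  choose f hfh hfe using hf
  refine ⟨s, q, κ, ρ, N, f, fun j x hx => hκ₂ j x (h2o hx), fun x hx => hgen₂ x (h2o hx),
    fun x hx => hρ x (h2o hx), fun x hx => hrel x (h2o hx),
    fun i x hx j l => hNh i j l x (h2o hx), fun i x hx => hfh i x hx, fun i x hx j => ?_,
    fun i x hx m => ?_⟩
  · rw [hfe i x hx j]
    exact hNe i j x (h2o hx)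
  · have hxo := hsho hx
    have hxb := hsh2 (hsh1 hx)
    choose μ hμ using fun j => (h.bij x hxb).2 (κ j x)
    obtain ⟨c, hc⟩ := exists_comb (g := κ) (fun x hx => hgen₂ x (h2o hx)) hxo (Λ x m)
    have e1 : m = ∑ j, c j • μ j := by
      refine (h.bij x hxb).1 ?_
      rw [hc, lam_sum h hxb]
      exact Finset.sum_congr rfl fun j _ => by rw [hμ j]
    have e2 : vm M₀ σ i x m = ∑ j, c j • vm M₀ σ i x (μ j) := by
      rw [e1, map_sum]
      exact Finset.sum_congr rfl fun j _ => map_smul _ _ _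
    rw [hc, (hfh i x hxo).map_sum, e2, lam_sum h hxb]
    exact Finset.sum_congr rfl fun j _ => by
      rw [hfe i x hxo j, hWe i j x (hsh1 hx) (μ j) (hμ j)]

variable {τ A B : ℝ} {s q : ℕ} {κ : Fin s → (b : Bs k) → KS.St b} {ρ : Fin q → Fin s → Bs k → ℂ}
  {N : Fin d → Fin s → Fin s → Bs k → ℂ} {f : Fin d → (b : Bs k) → KS.St b → KS.St b}

/-- **The operators commute.**

Proof. It suffices on the generators (`gen`, `HomAt.map_sum`): the section `fun b => f i b (f i' b (κ j b)) - f i' b (f i b (κ j b))` (`HomAt.at`, `EMod.sub'`) of `KS` on `oB σ τ A B` vanishes on the shell: there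
`κ j b = Λ b m` (`h.bij`) and `f_Λ` twice, `vm_comm`. `zero_of_shell`. -/
theorem Act.comm (h : KSData M₀ σ T' jw jw' jz jz' KS Λ) (hT : Metric.ball σ.t₀ τ ⊆ T')
    (hA : jw < A) (hA' : A ≤ jw') (hB : jz < B) (hB' : B ≤ jz')
    (ha : Act M₀ σ jw jz KS Λ τ A B κ ρ N f) (i i' : Fin d) {b : Bs k} (hb : b ∈ oB σ τ A B)
    (m : KS.St b) : f i b (f i' b m) = f i' b (f i b m) := by
  have hsub : M12.shell σ (Metric.ball σ.t₀ τ) jw A jz B ⊆ M12.shell σ T' jw jw' jz jz' :=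
    shell_mono σ hT le_rfl hA' le_rfl hB'
  have hsho : M12.shell σ (Metric.ball σ.t₀ τ) jw A jz B ⊆ oB σ τ A B :=
    shell_subset_bx σ _ _ _ _ _
  have hkey : ∀ j, ∀ x ∈ oB σ τ A B,
      f i x (f i' x (κ j x)) - f i' x (f i x (κ j x)) = 0 := by
    intro j
    refine zero_of_shell h hT hA hA' hB hB'
      (S := fun x => f i x (f i' x (κ j x)) - f i' x (f i x (κ j x))) ?_ ?_
    · intro x hx
      exact KS.sub' ((ha.hom i x hx).at ((ha.hom i' x hx).at (ha.κ_on j x hx)))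
        ((ha.hom i' x hx).at ((ha.hom i x hx).at (ha.κ_on j x hx)))
    · intro x hx
      obtain ⟨μ, hμ⟩ := (h.bij x (hsub hx)).2 (κ j x)
      change f i x (f i' x (κ j x)) - f i' x (f i x (κ j x)) = 0
      rw [← hμ, ha.f_Λ i' x hx, ha.f_Λ i x hx, ha.f_Λ i x hx, ha.f_Λ i' x hx, vm_comm, sub_self]
  obtain ⟨c, hc⟩ := exists_comb (g := κ) ha.gen hb m
  rw [hc, (ha.hom i' b hb).map_sum, (ha.hom i b hb).map_sum, (ha.hom i b hb).map_sum,
    (ha.hom i' b hb).map_sum]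
  exact Finset.sum_congr rfl fun j _ => by rw [sub_eq_zero.1 (hkey j b hb)]

/-- **Surjectivity of `c₁ - v i`.**

Proof. `exists_div h i hc` gives `φ`; `ext_op` for `φ` and `S = κ j` gives `S' j` on `oB σ τ A B` with `S' j b = Λ b (φ b m)` when `Λ b m = κ j b`. The section `fun b => om (fun _ => c₁) b • S' j b - f i b (S' j b) - κ j b` vanishes on the
shell (`f_Λ`, linearity of `Λ b`, the property of `φ`), hence on `oB σ τ A B` (`zero_of_shell`). So every `κ j b` is in the range of the linear map `m ↦ om (fun _ => c₁) b • m - f i b m`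
(linear by `HomAt.map_add`, `map_smul`, and `smul_smul`, `mul_comm`); the range is a submodule containing the generators, so it is everything (`gen`). -/
theorem Act.surj (h : KSData M₀ σ T' jw jw' jz jz' KS Λ) (hT : Metric.ball σ.t₀ τ ⊆ T')
    (hA : jw < A) (hA' : A ≤ jw') (hB : jz < B) (hB' : B ≤ jz')
    (ha : Act M₀ σ jw jz KS Λ τ A B κ ρ N f) (i : Fin d) {c₁ : ℂ} (hc : σ.Rv ≤ ‖c₁ - cc σ i‖)
    {b : Bs k} (hb : b ∈ oB σ τ A B) :
    Function.Surjective fun m : KS.St b => om (fun _ => c₁) b • m - f i b m := by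
  have hsub : M12.shell σ (Metric.ball σ.t₀ τ) jw A jz B ⊆ M12.shell σ T' jw jw' jz jz' :=
    shell_mono σ hT le_rfl hA' le_rfl hB'
  obtain ⟨φ, hφ, hφat⟩ := exists_div h i hc
  have hex : ∀ j, ∃ m : KS.St b, om (fun _ => c₁) b • m - f i b m = κ j b := by
    intro j
    obtain ⟨S', hS', hS'e⟩ := ext_op h hT hA hA' hB hB' φ hφat (ha.κ_on j)
    have hz := zero_of_shell h hT hA hA' hB hB'
      (S := fun x => om (fun _ => c₁) x • S' x - f i x (S' x) - κ j x) (by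
        intro x hx
        exact KS.sub' (KS.sub' (KS.smul (O_at_gm (HolAt.const c₁ x)) (hS' x hx))
          ((ha.hom i x hx).at (hS' x hx))) (ha.κ_on j x hx)) (by
        intro x hx
        obtain ⟨μ, hμ⟩ := (h.bij x (hsub hx)).2 (κ j x)
        change om (fun _ => c₁) x • S' x - f i x (S' x) - κ j x = 0
        rw [hS'e x hx μ hμ, ha.f_Λ i x hx, ← h.smul x (hsub hx), ← lam_sub h (hsub hx),
          hφ x (hsub hx), hμ, sub_self])
    exact ⟨S' b, sub_eq_zero.1 (hz b hb)⟩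
  choose m hm using hex
  intro y
  obtain ⟨c, hc'⟩ := exists_comb (g := κ) ha.gen hb y
  refine ⟨∑ j, c j • m j, ?_⟩
  change om (fun _ => c₁) b • (∑ j, c j • m j) - f i b (∑ j, c j • m j) = y
  rw [(ha.hom i b hb).map_sum, Finset.smul_sum, ← Finset.sum_sub_distrib, hc']
  refine Finset.sum_congr rfl fun j _ => ?_
  rw [← hm j, smul_sub, smul_smul, smul_smul, mul_comm]

end MF

end Pool.Agent.DQ
end

section

/-! M34, germs of `H¹` of the shell: the germ module `HG` at a point of the `t`-space, the submodules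
`Dh m`, the functionals, multiplication by functions on `V`. -/

set_option autoImplicit false
set_option linter.unusedSectionVars false

open Set Filter Topology

universe u v w

namespace Pool.Agent.DQ

variable {V : Type} [NormedAddCommGroup V] [NormedSpace ℂ V] [FiniteDimensional ℂ V] {k d : ℕ}
  {𝓐 : Defo.{0, v} V} {M : EMod.{0, v, w} 𝓐.A} {M₀ : EMod.{0, 0, w} (O V)}
  {ρ : ∀ x, M.St x → M₀.St x} {Y : Set V} {σ : Sit V k d} {T₀ T T' : Set (Fin k → ℂ)}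

/-- a function holomorphic near a point is holomorphic near an open set inside a given one -/
theorem HolAt.exists_set {E : Type*} [NormedAddCommGroup E] [NormedSpace ℂ E] {f : E → ℂ} {t : E}
    (hf : HolAt f t) : ∃ S : Set E, IsOpen S ∧ t ∈ S ∧ HolNear f S := by
  refine ⟨{y | HolAt f y}, ?_, hf, fun y hy => hy⟩
  exact isOpen_iff_mem_nhds.2 fun y hy => HolAt.eventually hy

namespace Main

variable (hm : Main 𝓐 M M₀ ρ Y σ T₀) {t₁ : Fin k → ℂ} (ht : t₁ ∈ T₀)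

/-- the germ module of `H¹` of the shell at `t₁` -/
noncomputable def HG : GM t₁ ((x : V) → M₀.St x) where
  N :=
    { carrier := {y | ∃ T, IsOpen T ∧ t₁ ∈ T ∧ T ⊆ T₀ ∧ M₀.On y (σ.Q12 T)}
      zero_mem' := ⟨T₀, hm.T₀_open, ht, subset_rfl, fun x hx =>
        M₀.zero x (hm.Q12_dom₀ subset_rfl hx)⟩
      add_mem' := by
        rintro a b ⟨T, hT, h1, h2, h3⟩ ⟨T', hT', h1', h2', h3'⟩
        exact ⟨T ∩ T', hT.inter hT', ⟨h1, h1'⟩, inter_subset_left.trans h2,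
          (h3.mono (σ.Q12_mono inter_subset_left)).add (h3'.mono (σ.Q12_mono inter_subset_right))⟩
      neg_mem' := by
        rintro a ⟨T, hT, h1, h2, h3⟩
        exact ⟨T, hT, h1, h2, h3.neg⟩ }
  Z :=
    { carrier := {y | ∃ T, IsOpen T ∧ t₁ ∈ T ∧ T ⊆ T₀ ∧ HZero M₀ σ T y}
      zero_mem' := ⟨T₀, hm.T₀_open, ht, subset_rfl,
        hzero_of_eq (hm.Q1_dom₀ subset_rfl) (hm.Q2_dom₀ subset_rfl) fun x _ => rfl⟩
      add_mem' := by
        rintro a b ⟨T, hT, h1, h2, h3⟩ ⟨T', hT', h1', h2', h3'⟩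
        exact ⟨T ∩ T', hT.inter hT', ⟨h1, h1'⟩, inter_subset_left.trans h2,
          (h3.mono inter_subset_left).add (h3'.mono inter_subset_right)⟩
      neg_mem' := by
        rintro a ⟨T, hT, h1, h2, h3⟩
        exact ⟨T, hT, h1, h2, h3.neg⟩ }
  le := by
    rintro y ⟨T, hT, h1, h2, h3⟩
    exact ⟨T, hT, h1, h2, h3.on hT⟩
  act f y := fun x => om (σ.ft f) x • y x
  act_N := by
    rintro f y hf ⟨T, hT, h1, h2, h3⟩
    obtain ⟨S, hS, hS1, hS2⟩ := hf.exists_set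
    exact ⟨T ∩ S, hT.inter hS, ⟨h1, hS1⟩, inter_subset_left.trans h2,
      (h3.mono (σ.Q12_mono inter_subset_left)).smul
        (σ.ft_near (hS2.mono inter_subset_right))⟩
  act_Z := by
    rintro f y hf ⟨T, hT, h1, h2, h3⟩
    obtain ⟨S, hS, hS1, hS2⟩ := hf.exists_set
    exact ⟨T ∩ S, hT.inter hS, ⟨h1, hS1⟩, inter_subset_left.trans h2,
      (h3.mono inter_subset_left).smul (σ.ft_near (hS2.mono inter_subset_right))⟩
  act_add := by
    intro f y y' _ _ _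
    refine ⟨T₀, hm.T₀_open, ht, subset_rfl,
      hzero_of_eq (hm.Q1_dom₀ subset_rfl) (hm.Q2_dom₀ subset_rfl) fun x _ => ?_⟩
    change om (σ.ft f) x • (y x + y' x) - (om (σ.ft f) x • y x + om (σ.ft f) x • y' x) = 0
    rw [smul_add, sub_self]
  add_act := by
    intro f g y hf hg _
    obtain ⟨S, hS, hS1, hS2⟩ := hf.exists_set
    obtain ⟨S', hS', hS1', hS2'⟩ := hg.exists_set
    have hsub : T₀ ∩ (S ∩ S') ⊆ T₀ := inter_subset_left
    refine ⟨T₀ ∩ (S ∩ S'), hm.T₀_open.inter (hS.inter hS'), ⟨ht, hS1, hS1'⟩, hsub,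
      hzero_of_eq (hm.Q1_dom₀ hsub) (hm.Q2_dom₀ hsub) fun x hx => ?_⟩
    change om (σ.ft (f + g)) x • y x - (om (σ.ft f) x • y x + om (σ.ft g) x • y x) = 0
    have h1 : HolAt (σ.ft f) x := σ.holAt_ft (hS2 _ hx.1.2.1)
    have h2 : HolAt (σ.ft g) x := σ.holAt_ft (hS2' _ hx.1.2.2)
    have h3 : om (σ.ft (f + g)) x = om (σ.ft f) x + om (σ.ft g) x := om_add34 h1 h2
    rw [h3, add_smul, sub_self]
  mul_act := by
    intro f g y hf hg _
    obtain ⟨S, hS, hS1, hS2⟩ := hf.exists_set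
    obtain ⟨S', hS', hS1', hS2'⟩ := hg.exists_set
    have hsub : T₀ ∩ (S ∩ S') ⊆ T₀ := inter_subset_left
    refine ⟨T₀ ∩ (S ∩ S'), hm.T₀_open.inter (hS.inter hS'), ⟨ht, hS1, hS1'⟩, hsub,
      hzero_of_eq (hm.Q1_dom₀ hsub) (hm.Q2_dom₀ hsub) fun x hx => ?_⟩
    change om (σ.ft (f * g)) x • y x - om (σ.ft f) x • om (σ.ft g) x • y x = 0
    have h1 : HolAt (σ.ft f) x := σ.holAt_ft (hS2 _ hx.1.2.1)
    have h2 : HolAt (σ.ft g) x := σ.holAt_ft (hS2' _ hx.1.2.2)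
    have h3 : om (σ.ft (f * g)) x = om (σ.ft f) x * om (σ.ft g) x := om_mul34 h1 h2
    rw [h3, mul_smul, sub_self]
  one_act := by
    intro y _
    refine ⟨T₀, hm.T₀_open, ht, subset_rfl,
      hzero_of_eq (hm.Q1_dom₀ subset_rfl) (hm.Q2_dom₀ subset_rfl) fun x _ => ?_⟩
    change om (σ.ft 1) x • y x - y x = 0
    have h3 : om (σ.ft (1 : (Fin k → ℂ) → ℂ)) x = 1 := gm_one x
    rw [h3, one_smul, sub_self]
  congr := by
    intro f g y hf hfg _
    obtain ⟨S, hS, hSo, hS1⟩ := eventually_nhds_iff.1 (hf.eventually.and hfg)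
    have hsub : T₀ ∩ S ⊆ T₀ := inter_subset_left
    refine ⟨T₀ ∩ S, hm.T₀_open.inter hSo, ⟨ht, hS1⟩, hsub,
      hzero_of_eq (hm.Q1_dom₀ hsub) (hm.Q2_dom₀ hsub) fun x hx => ?_⟩
    change om (σ.ft f) x • y x - om (σ.ft g) x • y x = 0
    have h1 : HolAt (σ.ft f) x := σ.holAt_ft (hS _ hx.1.2).1
    have h2 : σ.ft f =ᶠ[𝓝 x] σ.ft g := by
      filter_upwards [(σ.continuous_t.continuousAt).eventually (hSo.mem_nhds hx.1.2)] with z hz
      exact (hS _ hz).2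
    rw [om_congr34 h1 h2, sub_self]

theorem mem_N {y : (x : V) → M₀.St x} :
    y ∈ (hm.HG ht).N ↔ ∃ T, IsOpen T ∧ t₁ ∈ T ∧ T ⊆ T₀ ∧ M₀.On y (σ.Q12 T) := Iff.rfl

theorem mem_Z {y : (x : V) → M₀.St x} :
    y ∈ (hm.HG ht).Z ↔ ∃ T, IsOpen T ∧ t₁ ∈ T ∧ T ⊆ T₀ ∧ HZero M₀ σ T y := Iff.rfl

theorem N_mk {y : (x : V) → M₀.St x} {T : Set (Fin k → ℂ)} (hT : IsOpen T) (h1 : t₁ ∈ T)
    (h2 : T ⊆ T₀) (h3 : M₀.On y (σ.Q12 T)) : y ∈ (hm.HG ht).N := ⟨T, hT, h1, h2, h3⟩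

theorem Z_mk {y : (x : V) → M₀.St x} {T : Set (Fin k → ℂ)} (hT : IsOpen T) (h1 : t₁ ∈ T)
    (h2 : T ⊆ T₀) (h3 : HZero M₀ σ T y) : y ∈ (hm.HG ht).Z := ⟨T, hT, h1, h2, h3⟩

theorem act_eq (f : (Fin k → ℂ) → ℂ) (y : (x : V) → M₀.St x) :
    (hm.HG ht).act f y = fun x => om (σ.ft f) x • y x := rfl

/-- germs of obstruction classes of order `m` -/
noncomputable def Dh (m : ℕ) : Submodule ((O (Fin k → ℂ)).St t₁) (hm.HG ht).Gm :=
  GM.subOf (fun y => ∃ T, IsOpen T ∧ t₁ ∈ T ∧ T ⊆ T₀ ∧ DD34 𝓐 M M₀ ρ σ m T y)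
    (by
      rintro y ⟨T, hT, h1, h2, h3⟩
      exact ⟨T, hT, h1, h2, h3.1⟩)
    ⟨T₀, hm.T₀_open, ht, subset_rfl, hm.dd_zero subset_rfl⟩
    (by
      rintro y y' ⟨T, hT, h1, h2, h3⟩ ⟨T', hT', h1', h2', h3'⟩
      exact ⟨T ∩ T', hT.inter hT', ⟨h1, h1'⟩, inter_subset_left.trans h2,
        hm.dd_add (inter_subset_left.trans h2) (h3.mono inter_subset_left)
          (h3'.mono inter_subset_right)⟩)
    (by
      rintro f y hf ⟨T, hT, h1, h2, h3⟩
      obtain ⟨S, hS, hS1, hS2⟩ := hf.exists_set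
      exact ⟨T ∩ S, hT.inter hS, ⟨h1, hS1⟩, inter_subset_left.trans h2,
        hm.dd_smul (hT.inter hS) (inter_subset_left.trans h2) (h3.mono inter_subset_left)
          (σ.ft_near (hS2.mono inter_subset_right))⟩)

theorem mem_Dh {m : ℕ} {g : (hm.HG ht).Gm} : g ∈ hm.Dh ht m ↔
    ∃ y, (∃ T, IsOpen T ∧ t₁ ∈ T ∧ T ⊆ T₀ ∧ DD34 𝓐 M M₀ ρ σ m T y) ∧ (hm.HG ht).cl y = g :=
  Iff.rfl

theorem Dh_zero {g : (hm.HG ht).Gm} (hg : g ∈ hm.Dh ht 0) : g = 0 := by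
  obtain ⟨y, ⟨T, hT, h1, h2, h3⟩, rfl⟩ := hg
  exact (GM.cl_eq_zero (hm.N_mk ht hT h1 h2 h3.1)).2
    (hm.Z_mk ht hT h1 h2 (hm.hzero_of_dd h2 h3))

theorem Dh_le {m m' : ℕ} (h : m ≤ m') : hm.Dh ht m ≤ hm.Dh ht m' := by
  rintro g ⟨y, ⟨T, hT, h1, h2, h3⟩, rfl⟩
  exact ⟨y, ⟨T, hT, h1, h2, hm.dd_le h2 h h3⟩, rfl⟩

/-- a family whose class is in `Dh m` is in `DD34 m` near `t₁` -/
theorem dd_of_cl {m : ℕ} {y : (x : V) → M₀.St x} (hy : y ∈ (hm.HG ht).N)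
    (h : (hm.HG ht).cl y ∈ hm.Dh ht m) :
    ∃ T, IsOpen T ∧ t₁ ∈ T ∧ T ⊆ T₀ ∧ DD34 𝓐 M M₀ ρ σ m T y := by
  obtain ⟨y', ⟨T, hT, h1, h2, h3⟩, he⟩ := h
  have hz := (GM.cl_eq hy (show y' ∈ (hm.HG ht).N from ⟨T, hT, h1, h2, h3.1⟩)).1 he.symm
  obtain ⟨T', hT', h1', h2', h3'⟩ := hz
  exact ⟨T ∩ T', hT.inter hT', ⟨h1, h1'⟩, inter_subset_left.trans h2,
    hm.dd_congr (hT.inter hT') (h3.mono inter_subset_left) (h3'.mono inter_subset_right)⟩

/-- multiplication by a holomorphic function on `V`. -/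
noncomputable def mulV (g : V → ℂ) (hg : ∀ x, HolAt g x) :
    (hm.HG ht).Gm →ₗ[(O (Fin k → ℂ)).St t₁] (hm.HG ht).Gm :=
  GM.lift (fun y => (hm.HG ht).cl fun x => om g x • y x)
    (by
      rintro y ⟨T, hT, h1, h2, h3⟩ y' ⟨T', hT', h1', h2', h3'⟩
      change (hm.HG ht).cl (fun x => om g x • (y x + y' x)) = _
      rw [← GM.cl_add (hm.N_mk ht hT h1 h2 (h3.smul fun x _ => hg x))
        (hm.N_mk ht hT' h1' h2' (h3'.smul fun x _ => hg x))]
      congr 1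
      funext x
      exact smul_add _ _ _)
    (by
      rintro y ⟨T, hT, h1, h2, h3⟩ f hf
      rw [← GM.cl_act hf (hm.N_mk ht hT h1 h2 (h3.smul fun x _ => hg x))]
      congr 1
      funext x
      change om g x • om (σ.ft f) x • y x = om (σ.ft f) x • om g x • y x
      rw [smul_smul, smul_smul, mul_comm])
    (by
      rintro y ⟨T, hT, h1, h2, h3⟩
      exact (GM.cl_eq_zero (hm.N_mk ht hT h1 h2 ((h3.on hT).smul fun x _ => hg x))).2
        (hm.Z_mk ht hT h1 h2 (h3.smul fun x _ => hg x)))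

theorem mulV_cl (g : V → ℂ) (hg : ∀ x, HolAt g x) {y : (x : V) → M₀.St x}
    (hy : y ∈ (hm.HG ht).N) :
    hm.mulV ht g hg ((hm.HG ht).cl y) = (hm.HG ht).cl fun x => om g x • y x :=
  GM.lift_cl _ _ _ _ hy

theorem mulV_mem (g : V → ℂ) (hg : ∀ x, HolAt g x) {m : ℕ} {a : (hm.HG ht).Gm}
    (ha : a ∈ hm.Dh ht m) : hm.mulV ht g hg a ∈ hm.Dh ht m := by
  obtain ⟨y, ⟨T, hT, h1, h2, h3⟩, rfl⟩ := ha
  rw [hm.mulV_cl ht g hg (hm.N_mk ht hT h1 h2 h3.1)]
  exact ⟨_, ⟨T, hT, h1, h2, hm.dd_smul hT h2 h3 fun x _ => hg x⟩, rfl⟩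

section functional

variable {ι : Type} {c : ι → ((x : V) → M₀.St x) → (Fin k → ℂ) → ℂ}
  {𝒩 : EMod.{0, 0, 0} (O (Fin k → ℂ))}
  {ν : Set (Fin k → ℂ) → ((x : V) → M₀.St x) → (t : Fin k → ℂ) → 𝒩.St t}
  (hx : HX M₀ σ T₀ ι c 𝒩 ν)

include hx in
theorem c_hol {y : (x : V) → M₀.St x} (hy : y ∈ (hm.HG ht).N) (i : ι) : HolAt (c i y) t₁ := by
  obtain ⟨T, hT, h1, h2, h3⟩ := hy
  exact hx.c_hol i T h2 hT y h3 t₁ h1

/-- the functionals on the germ module -/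
noncomputable def ch (i : ι) : (hm.HG ht).Gm →ₗ[(O (Fin k → ℂ)).St t₁] (O (Fin k → ℂ)).St t₁ :=
  GM.lift (fun y => om (c i y) t₁)
    (by
      rintro y hy y' hy'
      have e1 := hm.c_hol ht hx hy i
      have e2 := hm.c_hol ht hx hy' i
      obtain ⟨T, hT, h1, h2, h3⟩ := hy
      obtain ⟨T', hT', h1', h2', h3'⟩ := hy'
      rw [← om_add34 e1 e2]
      have e3 : HolAt (c i y + c i y') t₁ := e1.add e2
      refine (om_congr34 e3 ?_).symm
      filter_upwards [(hT.inter hT').mem_nhds ⟨h1, h1'⟩] with t ht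
      exact (hx.c_add i (T ∩ T') (inter_subset_left.trans h2) (hT.inter hT') y y'
        (h3.mono (σ.Q12_mono inter_subset_left)) (h3'.mono (σ.Q12_mono inter_subset_right)) t
          ht).symm)
    (by
      rintro y hy f hf
      have e1 := hm.c_hol ht hx hy i
      obtain ⟨T, hT, h1, h2, h3⟩ := hy
      obtain ⟨S, hS, hS1, hS2⟩ := hf.exists_set
      rw [smul_eq_mul, ← om_mul34 hf e1]
      have e3 : HolAt (f * c i y) t₁ := hf.mul e1
      refine (om_congr34 e3 ?_).symm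
      filter_upwards [(hT.inter hS).mem_nhds ⟨h1, hS1⟩] with t ht
      exact (hx.c_smul i (T ∩ S) (inter_subset_left.trans h2) (hT.inter hS) y
        (h3.mono (σ.Q12_mono inter_subset_left)) f (hS2.mono inter_subset_right) t ht).symm)
    (by
      rintro y ⟨T, hT, h1, h2, h3⟩
      have e1 := hm.c_hol ht hx (hm.HG ht |>.le ⟨T, hT, h1, h2, h3⟩) i
      refine (om_congr34 e1 ?_).trans (gm_zero t₁)
      filter_upwards [hT.mem_nhds h1] with t ht
      exact hx.c_zero i T h2 hT y (h3.on hT) h3 t ht)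

theorem ch_cl (i : ι) {y : (x : V) → M₀.St x} (hy : y ∈ (hm.HG ht).N) :
    hm.ch ht hx i ((hm.HG ht).cl y) = om (c i y) t₁ := GM.lift_cl _ _ _ _ hy

end functional

end Main

end Pool.Agent.DQ
end

section

/-! M34, finite generation of the germs of obstruction classes at the centre. -/

set_option autoImplicit false
set_option linter.unusedSectionVars false

open Set Filter Topology

universe u v w

namespace Pool.Agent.DQ

/-- germs of finite products of functions -/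
private theorem om_prod_aux {E : Type u} [NormedAddCommGroup E] [NormedSpace ℂ E] {ι : Type*}
    {t : E} (s : Finset ι) {f : ι → E → ℂ} (hf : ∀ i ∈ s, HolAt (f i) t) :
    HolAt (fun y => ∏ i ∈ s, f i y) t ∧
      ∏ i ∈ s, gm (f i) t = gm (fun y => ∏ i ∈ s, f i y) t := by
  classical
  induction s using Finset.induction_on with
  | empty =>
    simp only [Finset.prod_empty]
    exact ⟨HolAt.const 1 t, (gm_one t).symm⟩
  | insert a s ha ih =>
    obtain ⟨h1, h2⟩ := ih fun i hi => hf i (Finset.mem_insert_of_mem hi)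
    have h3 := hf a (Finset.mem_insert_self _ _)
    simp only [Finset.prod_insert ha]
    refine ⟨h3.mul h1, ?_⟩
    rw [h2, ← gm_mul h3 h1]
    rfl

/-- germs of finite sums of functions -/
private theorem om_sum_aux {E : Type u} [NormedAddCommGroup E] [NormedSpace ℂ E] {ι : Type*}
    {t : E} (s : Finset ι) {f : ι → E → ℂ} (hf : ∀ i ∈ s, HolAt (f i) t) :
    HolAt (fun y => ∑ i ∈ s, f i y) t ∧
      ∑ i ∈ s, gm (f i) t = gm (fun y => ∑ i ∈ s, f i y) t := by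
  classical
  induction s using Finset.induction_on with
  | empty =>
    simp only [Finset.sum_empty]
    exact ⟨HolAt.const 0 t, (gm_zero t).symm⟩
  | insert a s ha ih =>
    obtain ⟨h1, h2⟩ := ih fun i hi => hf i (Finset.mem_insert_of_mem hi)
    have h3 := hf a (Finset.mem_insert_self _ _)
    simp only [Finset.sum_insert ha]
    refine ⟨h3.add h1, ?_⟩
    rw [h2, ← gm_add h3 h1]
    rfl

/-- germs of functions multiplied by a sign -/
private theorem om_sign_aux {E : Type u} [NormedAddCommGroup E] [NormedSpace ℂ E] {t : E}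
    (e : ℤˣ) {f : E → ℂ} (hf : HolAt f t) :
    HolAt (fun y => e • f y) t ∧ e • gm f t = gm (fun y => e • f y) t := by
  rcases Int.units_eq_one_or e with rfl | rfl
  · simp only [one_smul]
    exact ⟨hf, trivial⟩
  · simp only [Units.neg_smul, one_smul]
    exact ⟨hf.neg, (gm_neg hf).symm⟩

/-- germs of determinants of functions. Proof: `Matrix.det_apply`; sums, products and signs of germs
(`gm_add`, `gm_mul`, `gm_neg`, induction over finite sets). -/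
theorem om_det {E : Type u} [NormedAddCommGroup E] [NormedSpace ℂ E] {n : ℕ}
    {f : Fin n → Fin n → E → ℂ} {t : E} (hf : ∀ p q, HolAt (f p q) t) :
    HolAt (fun t => (Matrix.of fun p q => f p q t).det) t ∧
      (Matrix.of fun p q => om (f p q) t).det =
        om (fun t => (Matrix.of fun p q => f p q t).det) t := by
  have hp : ∀ e : Equiv.Perm (Fin n), HolAt (fun y => ∏ i, f (e i) i y) t ∧
      ∏ i, gm (f (e i) i) t = gm (fun y => ∏ i, f (e i) i y) t := fun e =>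
    om_prod_aux Finset.univ fun i _ => hf (e i) i
  have hq : ∀ e : Equiv.Perm (Fin n),
      HolAt (fun y => Equiv.Perm.sign e • ∏ i, f (e i) i y) t ∧
      Equiv.Perm.sign e • ∏ i, gm (f (e i) i) t =
        gm (fun y => Equiv.Perm.sign e • ∏ i, f (e i) i y) t := fun e => by
    rw [(hp e).2]
    exact om_sign_aux _ (hp e).1
  obtain ⟨h1, h2⟩ := om_sum_aux (t := t) (Finset.univ : Finset (Equiv.Perm (Fin n)))
    (f := fun e y => Equiv.Perm.sign e • ∏ i, f (e i) i y) fun e _ => (hq e).1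
  have h3 : (fun t => (Matrix.of fun p q => f p q t).det) =
      fun y => ∑ e : Equiv.Perm (Fin n), Equiv.Perm.sign e • ∏ i, f (e i) i y := by
    funext y
    rw [Matrix.det_apply]
    rfl
  rw [h3]
  refine ⟨h1, ?_⟩
  rw [Matrix.det_apply]
  refine Eq.trans ?_ h2
  exact Finset.sum_congr rfl fun e _ => (hq e).2

variable {V : Type} [NormedAddCommGroup V] [NormedSpace ℂ V] [FiniteDimensional ℂ V] {k d : ℕ}
  {𝓐 : Defo.{0, v} V} {M : EMod.{0, v, w} 𝓐.A} {M₀ : EMod.{0, 0, w} (O V)}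
  {ρ : ∀ x, M.St x → M₀.St x} {Y : Set V} {σ : Sit V k d} {T₀ T T' : Set (Fin k → ℂ)}

instance isNoetherianRing_St {E : Type u} [NormedAddCommGroup E] [NormedSpace ℂ E]
    [FiniteDimensional ℂ E] (x : E) : IsNoetherianRing ((O E).St x) := OGerm.isNoetherianRing x

/-- stalks of coherent sheaves are noetherian modules. Proof: finitely generated. -/
theorem EMod.CohAt.isNoetherian {E : Type u} [NormedAddCommGroup E] [NormedSpace ℂ E]
    [FiniteDimensional ℂ E] {F : EMod.{u, u, w} (O E)} {x : E} (hF : F.CohAt x) :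
    IsNoetherian ((O E).St x) (F.St x) := by
  obtain ⟨n, g, -, hgen⟩ := hF.2.1
  have : Module.Finite ((O E).St x) (F.St x) :=
    ⟨⟨Set.Finite.toFinset (Set.finite_range fun i => g i x), by
      rw [Set.Finite.coe_toFinset]
      exact hgen.self_of_nhds⟩⟩
  infer_instance

namespace Main

variable (hm : Main 𝓐 M M₀ ρ Y σ T₀)

/-- arbitrarily close to the centre there are points where any `b + 1` obstruction classes are linearly
dependent -/
def RankBound (b : ℕ) : Prop :=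
  ∀ W ∈ 𝓝 σ.t₀, ∃ t₁ ∈ W, ∃ ht₁ : t₁ ∈ T₀, ∀ (m : ℕ) (x : Fin (b + 1) → (hm.HG ht₁).Gm),
    (∀ p, x p ∈ hm.Dh ht₁ m) → ¬ LinearIndependent ((O (Fin k → ℂ)).St t₁) x

variable {ι : Type} {c : ι → ((x : V) → M₀.St x) → (Fin k → ℂ) → ℂ}
  {𝒩 : EMod.{0, 0, 0} (O (Fin k → ℂ))}
  {ν : Set (Fin k → ℂ) → ((x : V) → M₀.St x) → (t : Fin k → ℂ) → 𝒩.St t}
  (hx : HX M₀ σ T₀ ι c 𝒩 ν)

/-- all functionals at the centre -/
noncomputable def chA : (hm.HG hm.mem_T₀).Gm →ₗ[(O (Fin k → ℂ)).St σ.t₀]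
    (ι → (O (Fin k → ℂ)).St σ.t₀) := LinearMap.pi fun i => hm.ch hm.mem_T₀ hx i

/-- the open sets over which all functionals of `y` vanish -/
def GoodT (M₀ : EMod.{0, 0, w} (O V)) (σ : Sit V k d) (T₀ : Set (Fin k → ℂ)) {ι : Type}
    (c : ι → ((x : V) → M₀.St x) → (Fin k → ℂ) → ℂ) (y : (x : V) → M₀.St x)
    (T : Set (Fin k → ℂ)) : Prop :=
  IsOpen T ∧ σ.t₀ ∈ T ∧ T ⊆ T₀ ∧ M₀.On y (σ.Q12 T) ∧ ∀ i, ∀ t ∈ T, c i y t = 0

/-- Proof: let `y` be a section over `Q12 T'`; take a polydisc `B` with `t₀ ∈ B.T`, `B.Tc ⊆ T'`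
(`exists_TB`). The germ of `c i y` at `t₀` is zero (`ch_cl`, `gm_eq_iff` with `gm_zero`), `c i y` is holomorphic
on `B.T`: `ident_conn` with `B.isPreconnected`. -/
theorem exists_goodT {y : (x : V) → M₀.St x} (hy : y ∈ (hm.HG hm.mem_T₀).N)
    (hk : (hm.HG hm.mem_T₀).cl y ∈ LinearMap.ker (hm.chA hx)) : ∃ T, GoodT M₀ σ T₀ c y T := by
  obtain ⟨T, hT, h1, h2, h3⟩ := hy
  have hyN : y ∈ (hm.HG hm.mem_T₀).N := hm.N_mk hm.mem_T₀ hT h1 h2 h3
  obtain ⟨B, hB, hBT⟩ := exists_TB σ.t₀ (hT.mem_nhds h1)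
  have hBT' : B.T ⊆ T := B.sub.trans hBT
  have hon : M₀.On y (σ.Q12 B.T) := h3.mono (σ.Q12_mono hBT')
  refine ⟨B.T, B.isOpen, hB, hBT'.trans h2, hon, fun i => ?_⟩
  have hhol : HolNear (c i y) B.T := hx.c_hol i B.T (hBT'.trans h2) B.isOpen y hon
  have hz : om (c i y) σ.t₀ = 0 := by
    have h4 : hm.chA hx ((hm.HG hm.mem_T₀).cl y) = 0 := LinearMap.mem_ker.1 hk
    have h5 := congrFun h4 i
    rw [← hm.ch_cl hm.mem_T₀ hx i hyN]
    exact h5
  have hev : ∀ᶠ t in 𝓝 σ.t₀, c i y t = 0 := by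
    have h6 : gm (c i y) σ.t₀ = gm (0 : (Fin k → ℂ) → ℂ) σ.t₀ := by
      rw [gm_zero]
      exact hz
    exact (gm_eq_iff (hhol _ hB) (HolAt.const 0 _)).1 h6
  exact ident_conn B.isOpen B.isPreconnected hhol hB hev

variable {hx} in
/-- the value at the centre does not depend on the good set -/
private theorem nu_eq_aux {y : (x : V) → M₀.St x} {T T' : Set (Fin k → ℂ)}
    (hg : GoodT M₀ σ T₀ c y T) (hg' : GoodT M₀ σ T₀ c y T') (hx : HX M₀ σ T₀ ι c 𝒩 ν) :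
    ν T y σ.t₀ = ν T' y σ.t₀ := by
  obtain ⟨hT, h1, h2, h3, h4⟩ := hg
  obtain ⟨hT', h1', h2', h3', h4'⟩ := hg'
  rw [← hx.ν_res T h2 hT (T ∩ T') inter_subset_left (hT.inter hT') y h3 h4 σ.t₀ ⟨h1, h1'⟩,
    ← hx.ν_res T' h2' hT' (T ∩ T') inter_subset_right (hT.inter hT') y h3' h4' σ.t₀ ⟨h1, h1'⟩]

open Classical in
/-- the value at the centre of the second invariant -/
private noncomputable def phiAux (M₀ : EMod.{0, 0, w} (O V)) (σ : Sit V k d)
    (T₀ : Set (Fin k → ℂ)) {ι : Type}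
    (c : ι → ((x : V) → M₀.St x) → (Fin k → ℂ) → ℂ) {𝒩 : EMod.{0, 0, 0} (O (Fin k → ℂ))}
    (ν : Set (Fin k → ℂ) → ((x : V) → M₀.St x) → (t : Fin k → ℂ) → 𝒩.St t)
    (y : (x : V) → M₀.St x) : 𝒩.St σ.t₀ :=
  if h : ∃ T, GoodT M₀ σ T₀ c y T then ν h.choose y σ.t₀ else 0

private theorem phiAux_eq {y : (x : V) → M₀.St x} {T : Set (Fin k → ℂ)}
    (hx : HX M₀ σ T₀ ι c 𝒩 ν) (hg : GoodT M₀ σ T₀ c y T) :
    phiAux M₀ σ T₀ c ν y = ν T y σ.t₀ := by
  have h : ∃ T, GoodT M₀ σ T₀ c y T := ⟨T, hg⟩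
  rw [phiAux, dif_pos h]
  exact nu_eq_aux h.choose_spec hg hx

private theorem goodT_mono {y : (x : V) → M₀.St x} {T T' : Set (Fin k → ℂ)}
    (hg : GoodT M₀ σ T₀ c y T) (hT' : IsOpen T') (h0 : σ.t₀ ∈ T') (h : T' ⊆ T) :
    GoodT M₀ σ T₀ c y T' :=
  ⟨hT', h0, h.trans hg.2.2.1, hg.2.2.2.1.mono (σ.Q12_mono h),
    fun i t ht => hg.2.2.2.2 i t (h ht)⟩

private theorem phiAux_add (hx : HX M₀ σ T₀ ι c 𝒩 ν) {y y' : (x : V) → M₀.St x}
    (h : ∃ T, GoodT M₀ σ T₀ c y T) (h' : ∃ T, GoodT M₀ σ T₀ c y' T) :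
    phiAux M₀ σ T₀ c ν (y + y') = phiAux M₀ σ T₀ c ν y + phiAux M₀ σ T₀ c ν y' := by
  obtain ⟨T, hg⟩ := h
  obtain ⟨T', hg'⟩ := h'
  have hI : IsOpen (T ∩ T') := hg.1.inter hg'.1
  have h0 : σ.t₀ ∈ T ∩ T' := ⟨hg.2.1, hg'.2.1⟩
  have g1 := goodT_mono hg hI h0 inter_subset_left
  have g2 := goodT_mono hg' hI h0 inter_subset_right
  have g3 : GoodT M₀ σ T₀ c (y + y') (T ∩ T') :=
    ⟨hI, h0, g1.2.2.1, g1.2.2.2.1.add g2.2.2.2.1, fun i t ht => by
      have e := hx.c_add i (T ∩ T') g1.2.2.1 hI y y' g1.2.2.2.1 g2.2.2.2.1 t ht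
      rw [g1.2.2.2.2 i t ht, g2.2.2.2.2 i t ht, add_zero] at e
      exact e⟩
  rw [phiAux_eq hx g1, phiAux_eq hx g2, phiAux_eq hx g3]
  exact hx.ν_add (T ∩ T') g1.2.2.1 hI y y' g1.2.2.2.1 g2.2.2.2.1 g1.2.2.2.2 g2.2.2.2.2 σ.t₀ h0

private theorem phiAux_smul (hx : HX M₀ σ T₀ ι c 𝒩 ν) {y : (x : V) → M₀.St x}
    (h : ∃ T, GoodT M₀ σ T₀ c y T) {f : (Fin k → ℂ) → ℂ} (hf : HolAt f σ.t₀) :
    phiAux M₀ σ T₀ c ν (fun x => om (σ.ft f) x • y x) =
      om f σ.t₀ • phiAux M₀ σ T₀ c ν y := by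
  obtain ⟨T, hg⟩ := h
  obtain ⟨S, hS, hS1, hS2⟩ := hf.exists_set
  have hI : IsOpen (T ∩ S) := hg.1.inter hS
  have h0 : σ.t₀ ∈ T ∩ S := ⟨hg.2.1, hS1⟩
  have g1 := goodT_mono hg hI h0 inter_subset_left
  have hfn : HolNear f (T ∩ S) := hS2.mono inter_subset_right
  have g3 : GoodT M₀ σ T₀ c (fun x => om (σ.ft f) x • y x) (T ∩ S) :=
    ⟨hI, h0, g1.2.2.1, g1.2.2.2.1.smul (σ.ft_near hfn), fun i t ht => by
      rw [hx.c_smul i (T ∩ S) g1.2.2.1 hI y g1.2.2.2.1 f hfn t ht, g1.2.2.2.2 i t ht, mul_zero]⟩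
  rw [phiAux_eq hx g1, phiAux_eq hx g3]
  exact hx.ν_smul (T ∩ S) g1.2.2.1 hI y g1.2.2.2.1 g1.2.2.2.2 f hfn σ.t₀ h0

private theorem phiAux_zero (hx : HX M₀ σ T₀ ι c 𝒩 ν) {y : (x : V) → M₀.St x}
    {T : Set (Fin k → ℂ)} (hT : IsOpen T) (h1 : σ.t₀ ∈ T) (h2 : T ⊆ T₀)
    (h3 : HZero M₀ σ T y) : phiAux M₀ σ T₀ c ν y = 0 := by
  have g : GoodT M₀ σ T₀ c y T :=
    ⟨hT, h1, h2, h3.on hT, fun i t ht => hx.c_zero i T h2 hT y (h3.on hT) h3 t ht⟩
  rw [phiAux_eq hx g]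
  exact hx.ν_zero T h2 hT y (h3.on hT) h3 σ.t₀ h1

/-- **the kernel of the functionals is noetherian.** Proof: `φ y := ν T y t₀` for a good `T` (choice;
`GoodT`), zero if there is none. The value does not depend on the good `T`: `ν_res` for `T ∩ T'`. By `GM.liftSub` for
`K = ker (chA hx)` (with `exists_goodT`; `ν_add`, `ν_smul`, `ν_zero` on intersections of good sets; a function
holomorphic at `t₀`: `HolAt.exists_set`; for `y ∈ Z`: `HZero` over `T'`, `c_zero` shows that `T'` is good) one gets a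
linear map `K → 𝒩.St t₀`. It is injective: if `ν T y t₀ = 0` then `ν T y` vanishes near `t₀` (`𝒩.inj` with the zero
section, `ν_on`, `hx.cohN`), take `P : σ.Pd` with `P.Tc ⊆ T` and contained in this neighbourhood (`σ.exists_Pd`),
`HX.inj P` gives `HZero` over `P.T`, so the class of `y` is zero. `𝒩.St t₀` is noetherian (`hx.cohN`,
`EMod.CohAt.isNoetherian`), so `K` is noetherian (`isNoetherian_of_injective`), and every submodule of `K` is f.g.
(`isNoetherian_submodule`). -/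
theorem ker_fg (D : Submodule ((O (Fin k → ℂ)).St σ.t₀) (hm.HG hm.mem_T₀).Gm) :
    (D ⊓ LinearMap.ker (hm.chA hx)).FG := by
  have hsub : IsNoetherian ((O (Fin k → ℂ)).St σ.t₀) (LinearMap.ker (hm.chA hx)) := by
    have hN : IsNoetherian ((O (Fin k → ℂ)).St σ.t₀) (𝒩.St σ.t₀) :=
      EMod.CohAt.isNoetherian (hx.cohN σ.t₀ hm.mem_T₀).self_of_nhds
    let F : LinearMap.ker (hm.chA hx) →ₗ[(O (Fin k → ℂ)).St σ.t₀] 𝒩.St σ.t₀ :=
      GM.liftSub (LinearMap.ker (hm.chA hx)) (phiAux M₀ σ T₀ c ν)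
        (fun y hy y' hy' hk hk' => phiAux_add hx (hm.exists_goodT hx hy hk)
          (hm.exists_goodT hx hy' hk'))
        (fun y hy hk f hf => phiAux_smul hx (hm.exists_goodT hx hy hk) hf)
        (fun y hy => by
          obtain ⟨T, hT, h1, h2, h3⟩ := hy
          exact phiAux_zero hx hT h1 h2 h3)
    refine isNoetherian_of_injective F (LinearMap.ker_eq_bot.1 (LinearMap.ker_eq_bot'.2 ?_))
    rintro ⟨m, hmk⟩ h0
    obtain ⟨y, hy, rfl⟩ := GM.cl_surj m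
    have e1 : F ⟨(hm.HG hm.mem_T₀).cl y, hmk⟩ = phiAux M₀ σ T₀ c ν y :=
      GM.liftSub_cl _ _ _ _ _ hy hmk
    obtain ⟨T, hg⟩ := hm.exists_goodT hx hy hmk
    rw [h0, phiAux_eq hx hg] at e1
    obtain ⟨hT, h1, h2, h3, h4⟩ := hg
    have h5 : 𝒩.At (ν T y) σ.t₀ := hx.ν_on T h2 hT y h3 h4 σ.t₀ h1
    have h6 := 𝒩.inj h5 (𝒩.zero _ (𝒩.mem_dom h5)) e1.symm
    obtain ⟨P, hP⟩ := Sit.exists_Pd (σ := σ) (Filter.inter_mem (hT.mem_nhds h1) h6)
    have hPT : P.T ⊆ T := P.sub.trans (hP.trans inter_subset_left)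
    have h7 : HZero M₀ σ P.T y :=
      hx.inj P ((hP.trans inter_subset_left).trans h2) y (h3.mono (σ.Q12_mono hPT))
        (fun i t ht => h4 i t (hPT ht)) fun t ht => by
          rw [hx.ν_res T h2 hT P.T hPT P.isOpen y h3 h4 t ht]
          exact (hP (P.sub ht)).2
    apply Subtype.ext
    exact (GM.cl_eq_zero hy).2 (hm.Z_mk hm.mem_T₀ P.isOpen P.mem (hPT.trans h2) h7)
  exact (isNoetherian_submodule.1 hsub) _ inf_le_right

end Main

end Pool.Agent.DQ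
end

section

/-! M34, stationarity of the germs of obstruction classes. -/

set_option autoImplicit false
set_option linter.unusedSectionVars false

open Set Filter Topology

universe u v w

namespace Pool.Agent.DQ

variable {V : Type} [NormedAddCommGroup V] [NormedSpace ℂ V] [FiniteDimensional ℂ V] {k d : ℕ}
  {𝓐 : Defo.{0, v} V} {M : EMod.{0, v, w} 𝓐.A} {M₀ : EMod.{0, 0, w} (O V)}
  {ρ : ∀ x, M.St x → M₀.St x} {Y : Set V} {σ : Sit V k d} {T₀ T T' : Set (Fin k → ℂ)}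

namespace Main

variable (hm : Main 𝓐 M M₀ ρ Y σ T₀) {ι : Type}
  {c : ι → ((x : V) → M₀.St x) → (Fin k → ℂ) → ℂ} {𝒩 : EMod.{0, 0, 0} (O (Fin k → ℂ))}
  {ν : Set (Fin k → ℂ) → ((x : V) → M₀.St x) → (t : Fin k → ℂ) → 𝒩.St t}
  (hx : HX M₀ σ T₀ ι c 𝒩 ν)

/-- **vanishing of the minors.** Proof: let `x p` be the class of `y p`, `DD34 m (T p) (y p)`. Take a polydisc `B` with
`t₀ ∈ B.T`, `B.Tc ⊆ ⋂ T p`. The function `Δ t = det (c (i q) (y p) t)` is holomorphic on `B.T` (`HX.c_hol`, `om_det`). By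
the rank bound with `W = B.T` there is `t₁ ∈ B.T` such that the classes of the `y p` at `t₁`, which are in `Dh ht₁ m`, are
linearly dependent; by `M34.det_of_dep` with the functionals `hm.ch ht₁ hx (i q)` and `ch_cl`, `om_det`: the germ of `Δ`
at `t₁` is zero. `ident_conn`: `Δ = 0` on `B.T`, so its germ at `t₀` is zero; `om_det` again. -/
theorem minor_eq_zero {b : ℕ} (hb : hm.RankBound b) {m : ℕ}
    (x : Fin (b + 1) → (hm.HG hm.mem_T₀).Gm) (hxm : ∀ p, x p ∈ hm.Dh hm.mem_T₀ m)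
    (i : Fin (b + 1) → ι) :
    (Matrix.of fun p q => hm.ch hm.mem_T₀ hx (i q) (x p)).det = 0 := by
  choose y T hTo htp hTs hDD hcl using
    fun p => (show ∃ y T, IsOpen T ∧ σ.t₀ ∈ T ∧ T ⊆ T₀ ∧ DD34 𝓐 M M₀ ρ σ m T y ∧
      (hm.HG hm.mem_T₀).cl y = x p from by
        obtain ⟨y, ⟨T, h1, h2, h3, h4⟩, h5⟩ := (hm.mem_Dh hm.mem_T₀).1 (hxm p)
        exact ⟨y, T, h1, h2, h3, h4, h5⟩)
  have hW : (T₀ ∩ ⋂ p, T p) ∈ 𝓝 σ.t₀ :=
    Filter.inter_mem (hm.T₀_open.mem_nhds hm.mem_T₀)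
      (Filter.iInter_mem.2 fun p => (hTo p).mem_nhds (htp p))
  obtain ⟨B, hB1, hB2⟩ := exists_TB σ.t₀ hW
  have hBT₀ : B.T ⊆ T₀ := fun t ht => (hB2 (B.sub ht)).1
  have hBT : ∀ p, B.T ⊆ T p := fun p t ht => Set.mem_iInter.1 (hB2 (B.sub ht)).2 p
  have hon : ∀ p, M₀.On (y p) (σ.Q12 B.T) := fun p => (hDD p).1.mono (σ.Q12_mono (hBT p))
  have hhol : ∀ p q, HolNear (c (i q) (y p)) B.T := fun p q =>
    hx.c_hol (i q) B.T hBT₀ B.isOpen (y p) (hon p)
  have hdet : HolNear (fun t => (Matrix.of fun p q => c (i q) (y p) t).det) B.T := fun t ht =>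
    (om_det (f := fun p q => c (i q) (y p)) fun p q => hhol p q t ht).1
  obtain ⟨t₁, ht₁B, ht₁, hdep⟩ := hb B.T (B.isOpen.mem_nhds hB1)
  have hd1 : ∀ p, (hm.HG ht₁).cl (y p) ∈ hm.Dh ht₁ m := fun p =>
    ⟨y p, ⟨B.T, B.isOpen, ht₁B, hBT₀, (hDD p).mono (hBT p)⟩, rfl⟩
  have : IsDomain ((O (Fin k → ℂ)).St t₁) := OGerm.isDomain t₁
  have hd2 := M34.det_of_dep (fun p => (hm.HG ht₁).cl (y p)) (hdep m _ hd1)
    fun q => hm.ch ht₁ hx (i q)
  have hd3 : ∀ p q, hm.ch ht₁ hx (i q) ((hm.HG ht₁).cl (y p)) = om (c (i q) (y p)) t₁ :=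
    fun p q => hm.ch_cl ht₁ hx (i q) (hm.N_mk ht₁ B.isOpen ht₁B hBT₀ (hon p))
  simp only [hd3] at hd2
  rw [(om_det (f := fun p q => c (i q) (y p)) fun p q => hhol p q t₁ ht₁B).2] at hd2
  have hd4 : om (fun t => (Matrix.of fun p q => c (i q) (y p) t).det) t₁ =
      gm (0 : (Fin k → ℂ) → ℂ) t₁ := hd2.trans (gm_zero t₁).symm
  have hd5 := (gm_eq_iff (hdet t₁ ht₁B) (HolAt.const 0 t₁)).1 hd4
  have hd6 := ident_conn B.isOpen B.isPreconnected hdet ht₁B hd5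
  have hd7 : ∀ p q, hm.ch hm.mem_T₀ hx (i q) (x p) = om (c (i q) (y p)) σ.t₀ := by
    intro p q
    rw [← hcl p]
    exact hm.ch_cl hm.mem_T₀ hx (i q) (hm.N_mk hm.mem_T₀ B.isOpen hB1 hBT₀ (hon p))
  simp only [hd7]
  rw [(om_det (f := fun p q => c (i q) (y p)) fun p q => hhol p q σ.t₀ hB1).2]
  refine Eq.trans ((gm_eq_iff (hdet σ.t₀ hB1) (HolAt.const 0 σ.t₀)).2 ?_) (gm_zero σ.t₀)
  filter_upwards [B.isOpen.mem_nhds hB1] with t ht
  exact hd6 t ht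

/-- **stationarity of the germs.** Proof: `D := ⨆ m, Dh m`, an increasing union (`hm.Dh_le`;
`Submodule.mem_iSup_of_directed`). `D.map (chA hx)` is f.g. by `M34.fg_of_minors` and `minor_eq_zero` (finitely many
elements of `D` lie in one `Dh m`), `D ⊓ ker` by `ker_fg`, so `D` is f.g. (`Submodule.fg_of_fg_map_of_fg_inf_ker`);
finitely many generators lie in one `Dh m₀` (take `m₀ ≥ 1`), so `D = Dh m₀`. The coordinates: `M34.exists_coords` for
`D.map (chA hx)`. -/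
theorem exists_m₀ {b : ℕ} (hb : hm.RankBound b) :
    ∃ m₀, 1 ≤ m₀ ∧ (∀ m, hm.Dh hm.mem_T₀ m ≤ hm.Dh hm.mem_T₀ m₀) ∧
      (hm.Dh hm.mem_T₀ m₀).FG ∧ ∃ (r : ℕ) (i : Fin r → ι), ∀ g ∈ hm.Dh hm.mem_T₀ m₀,
        (∀ q, hm.ch hm.mem_T₀ hx (i q) g = 0) → ∀ j, hm.ch hm.mem_T₀ hx j g = 0 := by
  have : IsDomain ((O (Fin k → ℂ)).St σ.t₀) := OGerm.isDomain σ.t₀
  have hmono : Monotone fun m => hm.Dh hm.mem_T₀ m := fun m m' h => hm.Dh_le hm.mem_T₀ h
  have hmem : ∀ g, g ∈ (⨆ m, hm.Dh hm.mem_T₀ m) ↔ ∃ m, g ∈ hm.Dh hm.mem_T₀ m := fun g =>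
    Submodule.mem_iSup_of_directed _ hmono.directed_le
  have hmin : ∀ (x : Fin (b + 1) → ((⨆ m, hm.Dh hm.mem_T₀ m).map (hm.chA hx)))
      (i : Fin (b + 1) → ι),
      (Matrix.of fun p q => (x p : ι → (O (Fin k → ℂ)).St σ.t₀) (i q)).det = 0 := by
    intro x i
    choose g hg hgx using fun p => Submodule.mem_map.1 (x p).2
    choose f hf using fun p => (hmem (g p)).1 (hg p)
    have h1 := hm.minor_eq_zero hx hb g
      (fun p => hm.Dh_le hm.mem_T₀ (Finset.le_sup (f := f) (Finset.mem_univ p)) (hf p)) i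
    have h2 : ∀ p q, (x p : ι → (O (Fin k → ℂ)).St σ.t₀) (i q) =
        hm.ch hm.mem_T₀ hx (i q) (g p) := by
      intro p q
      rw [← hgx p]
      rfl
    simp only [h2]
    exact h1
  have hfg : (⨆ m, hm.Dh hm.mem_T₀ m).FG :=
    Submodule.fg_of_fg_map_of_fg_inf_ker (hm.chA hx) (M34.fg_of_minors b _ hmin)
      (hm.ker_fg hx _)
  obtain ⟨S, hS⟩ := hfg
  have h1 : ∀ s ∈ S, ∃ m, s ∈ hm.Dh hm.mem_T₀ m := by
    intro s hs
    rw [← hmem, ← hS]
    exact Submodule.subset_span hs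
  choose! f hf using h1
  have h2 : (⨆ m, hm.Dh hm.mem_T₀ m) ≤ hm.Dh hm.mem_T₀ (max 1 (S.sup f)) := by
    rw [← hS, Submodule.span_le]
    intro s hs
    exact hm.Dh_le hm.mem_T₀ ((Finset.le_sup (f := f) hs).trans (le_max_right _ _)) (hf s hs)
  have h3 : hm.Dh hm.mem_T₀ (max 1 (S.sup f)) = ⨆ m, hm.Dh hm.mem_T₀ m :=
    le_antisymm (le_iSup (fun m => hm.Dh hm.mem_T₀ m) _) h2
  obtain ⟨r, i, hi⟩ := M34.exists_coords b _ hmin
  refine ⟨max 1 (S.sup f), le_max_left _ _, fun m => ?_, ?_, r, i, fun g hg h j => ?_⟩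
  · exact (le_iSup (fun m => hm.Dh hm.mem_T₀ m) m).trans h2
  · rw [h3]
    exact ⟨S, hS⟩
  · have h4 := hi (hm.chA hx g) (Submodule.mem_map_of_mem (h3 ▸ hg)) fun q => h q
    exact congrFun h4 j

end Main

end Pool.Agent.DQ
end

section

/-! M34, uniform polydiscs 1: the functionals `c` and the map `ν` on combinations and germs. -/

set_option autoImplicit false
set_option linter.unusedSectionVars false

open Set Filter Topology

universe u v w

namespace Pool.Agent.DQ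

variable {V : Type} [NormedAddCommGroup V] [NormedSpace ℂ V] [FiniteDimensional ℂ V] {k d : ℕ}
  {𝓐 : Defo.{0, v} V} {M : EMod.{0, v, w} 𝓐.A} {M₀ : EMod.{0, 0, w} (O V)}
  {ρ : ∀ x, M.St x → M₀.St x} {Y : Set V} {σ : Sit V k d} {T₀ T T' : Set (Fin k → ℂ)}

namespace Main

variable (hm : Main 𝓐 M M₀ ρ Y σ T₀) {ι : Type}
  {c : ι → ((x : V) → M₀.St x) → (Fin k → ℂ) → ℂ} {𝒩 : EMod.{0, 0, 0} (O (Fin k → ℂ))}
  {ν : Set (Fin k → ℂ) → ((x : V) → M₀.St x) → (t : Fin k → ℂ) → 𝒩.St t}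
  (hx : HX M₀ σ T₀ ι c 𝒩 ν)
include hm hx

/-- a family which is zero on `Q12 T` is killed by the functionals and by `ν`. Proof: `c_zero`, `ν_zero`
with `hzero_of_eq`. -/
theorem c_of_zero (hT : IsOpen T) (hTT : T ⊆ T₀) {y : (x : V) → M₀.St x}
    (hy : ∀ x ∈ σ.Q12 T, y x = 0) (i : ι) : ∀ t ∈ T, c i y t = 0 := by
  have h1 : HZero M₀ σ T y := hzero_of_eq (hm.Q1_dom₀ hTT) (hm.Q2_dom₀ hTT) hy
  exact hx.c_zero i T hTT hT y (h1.on hT) h1

/-- Proof: induction on `n` (`Fin.sum_univ_castSucc`) with `c_add`, `c_smul`, `c_congr`; empty sum: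
`c_of_zero`. -/
theorem c_comb (hT : IsOpen T) (hTT : T ⊆ T₀) {n : ℕ} {y : Fin n → (x : V) → M₀.St x}
    (hy : ∀ j, M₀.On (y j) (σ.Q12 T)) {a : Fin n → (Fin k → ℂ) → ℂ} (ha : ∀ j, HolNear (a j) T)
    (i : ι) : ∀ t ∈ T, c i (fun x => ∑ j, om (σ.ft (a j)) x • y j x) t =
      ∑ j, a j t * c i (y j) t := by
  induction n with
  | zero =>
    intro t ht
    rw [Fin.sum_univ_zero]
    exact c_of_zero hm hx hT hTT (fun x _ => Fin.sum_univ_zero _) i t ht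
  | succ n ih =>
    intro t ht
    have e : (fun x => ∑ j, om (σ.ft (a j)) x • y j x) =
        fun x => (∑ j : Fin n, om (σ.ft (a j.castSucc)) x • y j.castSucc x) +
          om (σ.ft (a (Fin.last n))) x • y (Fin.last n) x := by
      funext x
      exact Fin.sum_univ_castSucc _
    have h1 : M₀.On (fun x => ∑ j : Fin n, om (σ.ft (a j.castSucc)) x • y j.castSucc x)
        (σ.Q12 T) :=
      EMod.On.comb (f := fun j : Fin n => σ.ft (a j.castSucc)) (hm.Q12_dom₀ hTT)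
        (fun j => hy j.castSucc) fun j => σ.ft_near (ha j.castSucc)
    have h2 : M₀.On (fun x => om (σ.ft (a (Fin.last n))) x • y (Fin.last n) x) (σ.Q12 T) :=
      (hy (Fin.last n)).smul (σ.ft_near (ha (Fin.last n)))
    rw [e, hx.c_add i T hTT hT _ _ h1 h2 t ht,
      ih (y := fun j : Fin n => y j.castSucc) (a := fun j : Fin n => a j.castSucc)
        (fun j => hy j.castSucc) (fun j => ha j.castSucc) t ht,
      hx.c_smul i T hTT hT _ (hy (Fin.last n)) _ (ha (Fin.last n)) t ht, Fin.sum_univ_castSucc]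

/-- Proof: `y - y' = y + (-1) y'`: `c_add`, `c_smul` with the constant function `-1`, `c_congr`. -/
theorem c_sub (hT : IsOpen T) (hTT : T ⊆ T₀) {y y' : (x : V) → M₀.St x}
    (hy : M₀.On y (σ.Q12 T)) (hy' : M₀.On y' (σ.Q12 T)) (i : ι) :
    ∀ t ∈ T, c i (fun x => y x - y' x) t = c i y t - c i y' t := by
  intro t ht
  have h1 := hx.c_add i T hTT hT (fun x => y x - y' x) y' (hy.sub hy') hy' t ht
  have e : (fun x => (fun x => y x - y' x) x + y' x) = y := by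
    funext x
    exact sub_add_cancel _ _
  rw [e] at h1
  exact eq_sub_of_add_eq h1.symm

/-- Proof: like `c_comb`, with `ν_add`, `ν_smul`, `ν_congr`, `ν_zero`; the functionals of the partial sums
vanish by `c_comb`. -/
theorem ν_comb (hT : IsOpen T) (hTT : T ⊆ T₀) {n : ℕ} {y : Fin n → (x : V) → M₀.St x}
    (hy : ∀ j, M₀.On (y j) (σ.Q12 T)) (h0 : ∀ j i, ∀ t ∈ T, c i (y j) t = 0)
    {a : Fin n → (Fin k → ℂ) → ℂ} (ha : ∀ j, HolNear (a j) T) :
    ∀ t ∈ T, ν T (fun x => ∑ j, om (σ.ft (a j)) x • y j x) t = ∑ j, om (a j) t • ν T (y j) t := by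
  induction n with
  | zero =>
    intro t ht
    rw [Fin.sum_univ_zero]
    have h1 : HZero M₀ σ T (fun x => ∑ j : Fin 0, om (σ.ft (a j)) x • y j x) :=
      hzero_of_eq (hm.Q1_dom₀ hTT) (hm.Q2_dom₀ hTT) fun x _ => Fin.sum_univ_zero _
    exact hx.ν_zero T hTT hT _ (h1.on hT) h1 t ht
  | succ n ih =>
    intro t ht
    have e : (fun x => ∑ j, om (σ.ft (a j)) x • y j x) =
        fun x => (∑ j : Fin n, om (σ.ft (a j.castSucc)) x • y j.castSucc x) +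
          om (σ.ft (a (Fin.last n))) x • y (Fin.last n) x := by
      funext x
      exact Fin.sum_univ_castSucc _
    have h1 : M₀.On (fun x => ∑ j : Fin n, om (σ.ft (a j.castSucc)) x • y j.castSucc x)
        (σ.Q12 T) :=
      EMod.On.comb (f := fun j : Fin n => σ.ft (a j.castSucc)) (hm.Q12_dom₀ hTT)
        (fun j => hy j.castSucc) fun j => σ.ft_near (ha j.castSucc)
    have h2 : M₀.On (fun x => om (σ.ft (a (Fin.last n))) x • y (Fin.last n) x) (σ.Q12 T) :=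
      (hy (Fin.last n)).smul (σ.ft_near (ha (Fin.last n)))
    have h3 : ∀ i, ∀ t ∈ T,
        c i (fun x => ∑ j : Fin n, om (σ.ft (a j.castSucc)) x • y j.castSucc x) t = 0 := by
      intro i t ht
      rw [c_comb hm hx hT hTT (y := fun j : Fin n => y j.castSucc)
        (a := fun j : Fin n => a j.castSucc) (fun j => hy j.castSucc)
        (fun j => ha j.castSucc) i t ht]
      exact Finset.sum_eq_zero fun j _ => by rw [h0 j.castSucc i t ht, mul_zero]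
    have h4 : ∀ i, ∀ t ∈ T, c i (fun x => om (σ.ft (a (Fin.last n))) x • y (Fin.last n) x) t = 0 := by
      intro i t ht
      rw [hx.c_smul i T hTT hT _ (hy (Fin.last n)) _ (ha (Fin.last n)) t ht,
        h0 (Fin.last n) i t ht, mul_zero]
    rw [e, hx.ν_add T hTT hT _ _ h1 h2 h3 h4 t ht,
      ih (y := fun j : Fin n => y j.castSucc) (a := fun j : Fin n => a j.castSucc)
        (fun j => hy j.castSucc) (fun j => h0 j.castSucc) (fun j => ha j.castSucc) t ht,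
      hx.ν_smul T hTT hT _ (hy (Fin.last n)) (h0 (Fin.last n)) _ (ha (Fin.last n)) t ht,
      Fin.sum_univ_castSucc]

theorem ν_sub (hT : IsOpen T) (hTT : T ⊆ T₀) {y y' : (x : V) → M₀.St x}
    (hy : M₀.On y (σ.Q12 T)) (hy' : M₀.On y' (σ.Q12 T)) (h0 : ∀ i, ∀ t ∈ T, c i y t = 0)
    (h0' : ∀ i, ∀ t ∈ T, c i y' t = 0) :
    ∀ t ∈ T, ν T (fun x => y x - y' x) t = ν T y t - ν T y' t := by
  intro t ht
  have h2 : ∀ i, ∀ t ∈ T, c i (fun x => y x - y' x) t = 0 := by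
    intro i t ht
    rw [c_sub hm hx hT hTT hy hy' i t ht, h0 i t ht, h0' i t ht, sub_zero]
  have h1 := hx.ν_add T hTT hT (fun x => y x - y' x) y' (hy.sub hy') hy' h2 h0' t ht
  have e : (fun x => (fun x => y x - y' x) x + y' x) = y := by
    funext x
    exact sub_add_cancel _ _
  rw [e] at h1
  exact eq_sub_of_add_eq h1.symm

/-- a functional with zero germ vanishes on connected sets. Proof: `ch_cl`, `gm_eq_iff`, `gm_zero`,
`ident_conn`, `c_hol`. -/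
theorem c_of_germ (hT : IsOpen T) (hTc : IsPreconnected T) (ht : σ.t₀ ∈ T) (hTT : T ⊆ T₀)
    {y : (x : V) → M₀.St x} (hy : M₀.On y (σ.Q12 T)) (i : ι)
    (h : hm.ch hm.mem_T₀ hx i ((hm.HG hm.mem_T₀).cl y) = 0) : ∀ t ∈ T, c i y t = 0 := by
  rw [hm.ch_cl hm.mem_T₀ hx i (hm.N_mk hm.mem_T₀ hT ht hTT hy)] at h
  have h1 : HolAt (c i y) σ.t₀ := hx.c_hol i T hTT hT y hy σ.t₀ ht
  have h2 : om (c i y) σ.t₀ = gm (0 : (Fin k → ℂ) → ℂ) σ.t₀ := h.trans (gm_zero σ.t₀).symm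
  have h3 := (gm_eq_iff h1 (HolAt.const 0 σ.t₀)).1 h2
  exact ident_conn hT hTc (hx.c_hol i T hTT hT y hy) ht h3

/-- Proof: `HZero` over some `T'` (`mem_Z`); `ν_res` to `T ∩ T'`, `ν_zero`. -/
theorem ν_of_cl_zero (hT : IsOpen T) (ht : σ.t₀ ∈ T) (hTT : T ⊆ T₀) {y : (x : V) → M₀.St x}
    (hy : M₀.On y (σ.Q12 T)) (h0 : ∀ i, ∀ t ∈ T, c i y t = 0)
    (h : (hm.HG hm.mem_T₀).cl y = 0) : ν T y σ.t₀ = 0 := by
  obtain ⟨T', hT', h1', h2', h3'⟩ :=
    (GM.cl_eq_zero (hm.N_mk hm.mem_T₀ hT ht hTT hy)).1 h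
  have h4 := hx.ν_res T hTT hT (T ∩ T') inter_subset_left (hT.inter hT') y hy h0 σ.t₀ ⟨ht, h1'⟩
  rw [← h4]
  exact hx.ν_zero (T ∩ T') (inter_subset_left.trans hTT) (hT.inter hT') y
    (hy.mono (σ.Q12_mono inter_subset_left)) (h3'.mono inter_subset_right) σ.t₀ ⟨ht, h1'⟩

end Main

end Pool.Agent.DQ
end

section

/-! M34, uniform polydiscs 2. -/

set_option autoImplicit false
set_option linter.unusedSectionVars false

open Set Filter Topology

universe u v w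

namespace Pool.Agent.DQ

private theorem M34H2_gm_sum {E : Type u} [NormedAddCommGroup E] [NormedSpace ℂ E]
    {ι : Type*} (s : Finset ι) {f : ι → E → ℂ} {x : E} (hf : ∀ i ∈ s, HolAt (f i) x) :
    gm (fun y => ∑ i ∈ s, f i y) x = ∑ i ∈ s, gm (f i) x := by
  classical
  induction s using Finset.induction_on with
  | empty =>
    simp only [Finset.sum_empty]
    exact gm_zero x
  | insert a s ha ih =>
    have h1 : (fun y => ∑ i ∈ insert a s, f i y) = f a + fun y => ∑ i ∈ s, f i y := by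
      ext y
      simp [Finset.sum_insert ha]
    rw [h1, gm_add (hf a (Finset.mem_insert_self _ _))
      (HolAt.sum s fun i hi => hf i (Finset.mem_insert_of_mem hi)),
      ih fun i hi => hf i (Finset.mem_insert_of_mem hi), Finset.sum_insert ha]

variable {V : Type} [NormedAddCommGroup V] [NormedSpace ℂ V] [FiniteDimensional ℂ V] {k d : ℕ}
  {𝓐 : Defo.{0, v} V} {M : EMod.{0, v, w} 𝓐.A} {M₀ : EMod.{0, 0, w} (O V)}
  {ρ : ∀ x, M.St x → M₀.St x} {Y : Set V} {σ : Sit V k d} {T₀ T T' : Set (Fin k → ℂ)}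

namespace Main

variable (hm : Main 𝓐 M M₀ ρ Y σ T₀) {ι : Type}
  {c : ι → ((x : V) → M₀.St x) → (Fin k → ℂ) → ℂ} {𝒩 : EMod.{0, 0, 0} (O (Fin k → ℂ))}
  {ν : Set (Fin k → ℂ) → ((x : V) → M₀.St x) → (t : Fin k → ℂ) → 𝒩.St t}
  (hx : HX M₀ σ T₀ ι c 𝒩 ν)

/-- the polydisc `P` is good for the classes `dd i`: every section over `Q12 P.T` whose class at the centre is
an obstruction class of order `m₀` is a combination of the `dd i` modulo sections with vanishing class, and if the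
class at the centre is zero then the class over `P.T` is zero -/
structure Star (m₀ : ℕ) {s : ℕ} (dd : Fin s → (x : V) → M₀.St x) (P : σ.Pd) : Prop where
  comb : ∀ y, M₀.On y (σ.Q12 P.T) →
    (hm.HG hm.mem_T₀).cl y ∈ hm.Dh hm.mem_T₀ m₀ →
    ∃ a : Fin s → (Fin k → ℂ) → ℂ, (∀ i, HolNear (a i) P.T) ∧
      HZero M₀ σ P.T fun x => y x - ∑ i, om (σ.ft (a i)) x • dd i x
  zero : ∀ y, M₀.On y (σ.Q12 P.T) → (hm.HG hm.mem_T₀).cl y = 0 → HZero M₀ σ P.T y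

include hx in
/-- (34.10, germ zero) Proof: `c i y = 0` on `P.T` (`c_of_germ`; `P.tb.isPreconnected`), `ν P.T y` is a section
of `𝒩` over `P.T` with zero germ at `t₀` (`ν_of_cl_zero`), so it vanishes on `P.T` (`DivOn.zero`); `HX.inj`. -/
theorem star_zero (P : σ.Pd) (hP : P.Tc ⊆ T₀) (f : Fin 0 → (t : Fin k → ℂ) → 𝒩.St t)
    (hd : DivOn 𝒩 f σ.t₀ P.T P.Tc) {y : (x : V) → M₀.St x} (hy : M₀.On y (σ.Q12 P.T))
    (h : (hm.HG hm.mem_T₀).cl y = 0) : HZero M₀ σ P.T y := by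
  have hTT : P.T ⊆ T₀ := P.sub.trans hP
  have hc : ∀ i, ∀ t ∈ P.T, c i y t = 0 := fun i =>
    hm.c_of_germ hx P.isOpen P.tb.isPreconnected P.mem hTT hy i (by rw [h, map_zero])
  exact hx.inj P hP y hy hc (hd.zero (hx.ν_on P.T hTT P.isOpen y hy hc)
    (hm.ν_of_cl_zero hx P.isOpen P.mem hTT hy hc h))

/-- (34.10, first step) Proof: the section `t ↦ (om (c (i q) y) t)_q` of `O^r` over `P.T` has at `t₀` a germ in the
span of the germs of `t ↦ (om (c (i q) (dd j)) t)_q` (apply the functionals `ch (i q)` to `cl y ∈ span (cl (dd j))`,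
`mem_span_fam`, `ch_cl`), so `DivOn` gives `a j` with `c (i q) y = ∑ a j * c (i q) (dd j)` on `P.T` (compare values:
equality of germs of functions at a point gives equality of values, `gm_eq_iff`). For
`y' = y - ∑ om (ft (a j)) • dd j`: `c (i q) y' = 0` on `P.T` (`c_sub`, `c_comb`); the class of `y'` is in `Dh m₀`, so by
`hc` all functionals of its class vanish and `c_of_germ` gives the claim. -/
theorem star_step1 {m₀ r s : ℕ} (i : Fin r → ι)
    (hc : ∀ g ∈ hm.Dh hm.mem_T₀ m₀, (∀ q, hm.ch hm.mem_T₀ hx (i q) g = 0) →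
      ∀ j, hm.ch hm.mem_T₀ hx j g = 0) (dd : Fin s → (x : V) → M₀.St x) {T₁ : Set (Fin k → ℂ)}
    (hT₁ : IsOpen T₁) (ht : σ.t₀ ∈ T₁) (hT₁' : T₁ ⊆ T₀)
    (hdd : ∀ j, DD34 𝓐 M M₀ ρ σ m₀ T₁ (dd j))
    (hspan : hm.Dh hm.mem_T₀ m₀ = Submodule.span ((O (Fin k → ℂ)).St σ.t₀)
      (range fun j => (hm.HG hm.mem_T₀).cl (dd j))) (P : σ.Pd) (hP : P.Tc ⊆ T₁)
    (hd : DivOn ((O (Fin k → ℂ)).free r) (fun j t q => om (c (i q) (dd j)) t) σ.t₀ P.T P.Tc)
    {y : (x : V) → M₀.St x} (hy : M₀.On y (σ.Q12 P.T))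
    (h : (hm.HG hm.mem_T₀).cl y ∈ hm.Dh hm.mem_T₀ m₀) :
    ∃ a : Fin s → (Fin k → ℂ) → ℂ, (∀ j, HolNear (a j) P.T) ∧
      ∀ j, ∀ t ∈ P.T, c j (fun x => y x - ∑ j, om (σ.ft (a j)) x • dd j x) t = 0 := by
  have hTT₁ : P.T ⊆ T₁ := P.sub.trans hP
  have hTT : P.T ⊆ T₀ := hTT₁.trans hT₁'
  have hddN : ∀ j, dd j ∈ (hm.HG hm.mem_T₀).N := fun j =>
    hm.N_mk hm.mem_T₀ hT₁ ht hT₁' (hdd j).1
  have hddP : ∀ j, M₀.On (dd j) (σ.Q12 P.T) := fun j => (hdd j).1.mono (σ.Q12_mono hTT₁)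
  have hyN : y ∈ (hm.HG hm.mem_T₀).N := hm.N_mk hm.mem_T₀ P.isOpen P.mem hTT hy
  have hcy : ∀ i, HolNear (c i y) P.T := fun i => hx.c_hol i P.T hTT P.isOpen y hy
  have hcd : ∀ i j, HolNear (c i (dd j)) P.T := fun i j =>
    hx.c_hol i P.T hTT P.isOpen (dd j) (hddP j)
  -- the germs of the functionals
  obtain ⟨e, he⟩ := mem_span_fam.1 (hspan ▸ h)
  have hs0 : ∀ i, om (c i y) σ.t₀ = ∑ j, e j • om (c i (dd j)) σ.t₀ := by
    intro i
    have h1 := congrArg (hm.ch hm.mem_T₀ hx i) he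
    rw [map_sum, hm.ch_cl hm.mem_T₀ hx i hyN] at h1
    rw [h1]
    refine Finset.sum_congr rfl fun j _ => ?_
    rw [map_smul, hm.ch_cl hm.mem_T₀ hx i (hddN j)]
  obtain ⟨a, ha, ha'⟩ := hd.2 (fun t q => om (c (i q) y) t)
    (fun t ht' => ⟨mem_univ t, fun q => at_om (hcy (i q) t ht')⟩)
    (mem_span_fam.2 ⟨e, by
      funext q
      have e2 : (∑ j, e j • (fun q => om (c (i q) (dd j)) σ.t₀ :
          Fin r → (O (Fin k → ℂ)).St σ.t₀)) q = ∑ j, e j • om (c (i q) (dd j)) σ.t₀ := by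
        rw [Finset.sum_apply]
        rfl
      exact (hs0 (i q)).trans e2.symm⟩)
  refine ⟨a, ha, ?_⟩
  -- the values of the functionals
  have hval : ∀ q, ∀ t ∈ P.T, c (i q) y t = ∑ j, a j t * c (i q) (dd j) t := by
    intro q t ht'
    have e2 : (∑ j, om (a j) t • (fun q => om (c (i q) (dd j)) t :
        Fin r → (O (Fin k → ℂ)).St t)) q = ∑ j, om (a j) t • om (c (i q) (dd j)) t := by
      rw [Finset.sum_apply]
      rfl
    have h1 : om (c (i q) y) t = ∑ j, om (a j) t • om (c (i q) (dd j)) t :=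
      (congrFun (ha' t ht') q).trans e2
    have h2 : gm (c (i q) y) t = gm (fun t => ∑ j, a j t * c (i q) (dd j) t) t := by
      rw [M34H2_gm_sum _ fun j _ => (ha j t ht').mul (hcd (i q) j t ht')]
      refine Eq.trans h1 (Finset.sum_congr rfl fun j _ => ?_)
      exact (gm_mul (ha j t ht') (hcd (i q) j t ht')).symm
    exact ((gm_eq_iff (hcy (i q) t ht') (HolAt.sum _ fun j _ =>
      (ha j t ht').mul (hcd (i q) j t ht'))).1 h2).self_of_nhds
  have hft : ∀ j, HolNear (σ.ft (a j)) (σ.Q12 P.T) := fun j => σ.ft_near (ha j)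
  have hcomb : M₀.On (fun x => ∑ j, om (σ.ft (a j)) x • dd j x) (σ.Q12 P.T) :=
    EMod.On.comb (hm.Q12_dom₀ hTT) hddP hft
  have hy' : M₀.On (fun x => y x - ∑ j, om (σ.ft (a j)) x • dd j x) (σ.Q12 P.T) := hy.sub hcomb
  have hyN' : (fun x => y x - ∑ j, om (σ.ft (a j)) x • dd j x) ∈ (hm.HG hm.mem_T₀).N :=
    hm.N_mk hm.mem_T₀ P.isOpen P.mem hTT hy'
  have hv : ∀ q, ∀ t ∈ P.T, c (i q) (fun x => y x - ∑ j, om (σ.ft (a j)) x • dd j x) t = 0 := by
    intro q t ht'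
    rw [hm.c_sub hx P.isOpen hTT hy hcomb (i q) t ht', hm.c_comb hx P.isOpen hTT hddP ha (i q) t ht',
      hval q t ht', sub_self]
  have hmem : (hm.HG hm.mem_T₀).cl (fun x => y x - ∑ j, om (σ.ft (a j)) x • dd j x) ∈
      hm.Dh hm.mem_T₀ m₀ := by
    obtain ⟨g1, g2⟩ := GM.cl_comb (G := hm.HG hm.mem_T₀) (fun j => ha j σ.t₀ P.mem) hddN
    have e1 : (fun x => y x - ∑ j, om (σ.ft (a j)) x • dd j x) =
        y - ∑ j, (hm.HG hm.mem_T₀).act (a j) (dd j) := by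
      funext x
      rw [Pi.sub_apply, Finset.sum_apply]
      rfl
    rw [e1, GM.cl_sub hyN g1, g2]
    refine Submodule.sub_mem _ h (Submodule.sum_mem _ fun j _ => Submodule.smul_mem _ _ ?_)
    exact ⟨dd j, ⟨T₁, hT₁, ht, hT₁', hdd j⟩, rfl⟩
  intro j
  refine hm.c_of_germ hx P.isOpen P.tb.isPreconnected P.mem hTT hy' j ?_
  refine hc _ hmem (fun q => ?_) j
  rw [hm.ch_cl hm.mem_T₀ hx (i q) hyN']
  refine (om_congr34 (hx.c_hol (i q) P.T hTT P.isOpen _ hy' σ.t₀ P.mem) ?_).trans (gm_zero σ.t₀)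
  filter_upwards [P.isOpen.mem_nhds P.mem] with t ht'
  exact hv q t ht'

end Main

end Pool.Agent.DQ
end
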