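import Mathlib
import Pool.Agent.Lib.MP_4aa2a9_ag.Mg.G032
import Pool.Agent.DQ.Mg_MP_4aa2a9_ag.G003
import Pool.Agent.Lib.MP_4aa2a9_ag.Mg.G017
import Pool.Agent.Lib.MP_4aa2a9_ag.Mg.G011
import Pool.Agent.Lib.MP_4aa2a9_ag.Mg.G038
import Pool.Agent.Lib.MP_4aa2a9_ag.Mg.G039
import Pool.Agent.Lib.MP_4aa2a9_ag.Mg.G025
import Pool.Agent.Lib.MP_4aa2a9_ag.Mg.G019
import Pool.Agent.Lib.MP_4aa2a9_ag.Mg.G028
import Pool.Agent.Lib.MP_4aa2a9_ag.Mg.G018

section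

/-! M34, sheaf tools 3: nonzero germs, independent sections. -/

set_option autoImplicit false
set_option linter.unusedSectionVars false

open Set Filter Topology

universe u v w

namespace Pool.Agent.DQ

variable {E : Type} [NormedAddCommGroup E] [NormedSpace ℂ E] [FiniteDimensional ℂ E]

instance (x : E) : IsDomain ((O E).St x) := OGerm.isDomain x

/-- a nonzero germ has nonzero germs at all nearby points. Proof: `f` is holomorphic on a ball around `x`; if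
its germ at a point of the ball is zero then `f = 0` on the ball (`ident_conn` or `W.ident_ball`). -/
theorem om_ne_zero_near {f : E → ℂ} {x : E} (hf : HolAt f x) (h : om f x ≠ 0) :
    ∀ᶠ y in 𝓝 x, om f y ≠ 0 := by
  obtain ⟨r, hr, hball⟩ := Metric.eventually_nhds_iff.1 hf
  have hHol : HolNear f (Metric.ball x r) := by
    intro y hy
    have hy1 : ∀ᶠ z in 𝓝 y, z ∈ Metric.ball x r := Metric.isOpen_ball.mem_nhds hy
    exact hy1.mono fun z hz => hball hz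
  filter_upwards [Metric.ball_mem_nhds x hr] with y hy h0
  refine h ?_
  have hy' : HolAt f y := hHol y hy
  have h1 : gm f y = gm (0 : E → ℂ) y := by
    rw [gm_zero]
    exact h0
  have h2 : ∀ᶠ z in 𝓝 y, f z = 0 := (gm_eq_iff hy' (HolAt.const 0 y)).1 h1
  have h3 := ident_conn Metric.isOpen_ball (convex_ball x r).isPreconnected hHol hy h2
  have h4 : f =ᶠ[𝓝 x] (0 : E → ℂ) := by
    filter_upwards [Metric.ball_mem_nhds x hr] with z hz
    exact h3 z hz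
  have h5 : gm f x = gm (0 : E → ℂ) x := (gm_eq_iff hf (HolAt.const 0 x)).2 h4
  rw [gm_zero] at h5
  exact h5

/-- sections which are linearly independent at `x` are so near `x`. Proof: the relations near `x` are
generated by finitely many families `r j` of germs of functions (coherence); at `x` they vanish, hence near `x`
(`inj` of the sheaf `O`). -/
theorem indep_near {F : EMod.{0, 0, 0} (O E)} {x : E} (hF : F.CohAt x) {n : ℕ}
    (g : Fin n → (y : E) → F.St y) (hg : ∀ i, F.At (g i) x)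
    (h : LinearIndependent ((O E).St x) fun i => g i x) :
    ∀ᶠ y in 𝓝 x, LinearIndependent ((O E).St y) fun i => g i y := by
  obtain ⟨m, r, hr, hrel⟩ := hF.2.2 n g hg
  have h0 : ∀ j i, r j i x = 0 := by
    intro j
    have h1 : (fun i => r j i x) ∈ F.rel g x := by
      rw [hrel.self_of_nhds]
      exact Submodule.subset_span ⟨j, rfl⟩
    have h2 : ∑ i, r j i x • g i x = 0 := h1
    exact Fintype.linearIndependent_iff.1 h (fun i => r j i x) h2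
  have h1 : ∀ᶠ y in 𝓝 x, ∀ j i, r j i y = 0 :=
    eventually_all.2 fun j => eventually_all.2 fun i =>
      (O E).inj (hr j i) ((O E).zero x (mem_univ x)) (h0 j i)
  filter_upwards [hrel, h1] with y hy hy0
  rw [Fintype.linearIndependent_iff]
  intro c hc
  have h2 : c ∈ F.rel g y := hc
  have h3 : (Set.range fun j => fun i => r j i y) ⊆ {0} := by
    rintro _ ⟨j, rfl⟩
    exact Set.mem_singleton_iff.2 (funext fun i => hy0 j i)
  rw [hy] at h2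
  have h4 : c ∈ Submodule.span ((O E).St y) ({0} : Set (Fin n → (O E).St y)) :=
    Submodule.span_mono h3 h2
  rw [Submodule.span_zero_singleton, Submodule.mem_bot] at h4
  intro i
  rw [h4]
  rfl

end Pool.Agent.DQ
end

section

/-! M34, sheaf tools 3: the rank of a coherent sheaf is locally constant. -/

set_option autoImplicit false
set_option linter.unusedSectionVars false

open Set Filter Topology

universe u v w

namespace Pool.Agent.DQ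

variable {E : Type} [NormedAddCommGroup E] [NormedSpace ℂ E] [FiniteDimensional ℂ E]

/-- **the rank is locally constant.** Proof: generators `g i` near `x`; `M34.exists_max_indep` for the
`g i x` gives `J`; `indep_near` for the subfamily `J` (reindexed by `J.orderEmbOfFin`/`Finset.equivFin`); the relations
`r i • g i x = ∑ c j • g j x` with `r i ≠ 0` extend to a neighbourhood (`surj` for `O`, `inj` for `F`; `om_ne_zero_near`, every germ of
function is `om f`); `M34.rank_of_indep` at the points near `x`. -/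
theorem rank_near {F : EMod.{0, 0, 0} (O E)} {x : E} (hF : F.CohAt x) :
    ∃ b : ℕ, ∀ᶠ y in 𝓝 x, Module.rank ((O E).St y) (F.St y) = b := by
  obtain ⟨n, g, hg, hgen⟩ := hF.2.1
  obtain ⟨J, hJ, hJ'⟩ := M34.exists_max_indep (R := (O E).St x) (fun i => g i x)
  refine ⟨J.card, ?_⟩
  have h1 : LinearIndependent ((O E).St x) fun k : Fin J.card => g (J.equivFin.symm k) x :=
    hJ.comp _ J.equivFin.symm.injective
  have h2 := indep_near hF (fun k : Fin J.card => g (J.equivFin.symm k)) (fun k => hg _) h1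
  have e1 : ∀ y, (fun i => g i y) '' (J : Set (Fin n)) = Set.range fun j : J => g j y := by
    intro y
    ext m
    constructor
    · rintro ⟨i, hi, rfl⟩
      exact ⟨⟨i, hi⟩, rfl⟩
    · rintro ⟨j, rfl⟩
      exact ⟨j, j.2, rfl⟩
  have h3 : ∀ i, ∀ᶠ y in 𝓝 x, ∃ r : (O E).St y, r ≠ 0 ∧
      r • g i y ∈ Submodule.span ((O E).St y) ((fun i => g i y) '' (J : Set (Fin n))) := by
    intro i
    obtain ⟨r, hr0, hr⟩ := hJ' i
    obtain ⟨f, hf, rfl⟩ := exists_gm r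
    have h4 := om_ne_zero_near hf hr0
    have h5 : F.At (fun y => om f y • g i y) x :=
      F.smul ⟨f, hf, Eventually.of_forall fun _ => rfl⟩ (hg i)
    have h6 := F.near_mem_span (ι := J) (g := fun j : J => g j) h5 (fun j => hg _) (by
      rw [← e1]
      exact hr)
    filter_upwards [h4, h6] with y y1 y2
    exact ⟨om f y, y1, by rw [e1]; exact y2⟩
  filter_upwards [hgen, h2, eventually_all.mpr h3] with y y1 y2 y3
  exact M34.rank_of_indep (fun i => g i y) y1 J ((linearIndependent_equiv J.equivFin.symm).1 y2) y3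

/-- the rank is constant along a segment. Proof: `rank_near`, the interval `(0, ε)` is preconnected
(`IsPreconnected`; e.g. `IsPreconnected.induction₂` or `isPreconnected_Ioo` with the locally constant function
`a ↦ rank`). -/
theorem rank_segment {F : EMod.{0, 0, 0} (O E)} (x dir : E) {ε : ℝ} (hε : 0 < ε)
    (hF : ∀ a : ℝ, 0 < a → a < ε → F.CohAt (x + (a : ℂ) • dir)) :
    ∃ b : ℕ, ∀ a : ℝ, 0 < a → a < ε →
      Module.rank ((O E).St (x + (a : ℂ) • dir)) (F.St (x + (a : ℂ) • dir)) = b := by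
  have hloc : ∀ a ∈ Ioo (0 : ℝ) ε, ∀ᶠ a' : ℝ in 𝓝[Ioo (0 : ℝ) ε] a,
      Module.rank ((O E).St (x + (a : ℂ) • dir)) (F.St (x + (a : ℂ) • dir)) =
        Module.rank ((O E).St (x + (a' : ℂ) • dir)) (F.St (x + (a' : ℂ) • dir)) := by
    intro a ha
    obtain ⟨b, hb⟩ := rank_near (hF a ha.1 ha.2)
    have hcont : Continuous fun a' : ℝ => x + (a' : ℂ) • dir := by fun_prop
    have h1 := (hcont.tendsto a).eventually hb
    refine (h1.filter_mono nhdsWithin_le_nhds).mono fun a' ha' => ?_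
    rw [hb.self_of_nhds, ha']
  obtain ⟨b, hb⟩ := rank_near (hF (ε / 2) (by linarith) (by linarith))
  refine ⟨b, fun a h0 h1 => ?_⟩
  have h2 := isPreconnected_Ioo.induction₂ (fun a a' : ℝ =>
    Module.rank ((O E).St (x + (a : ℂ) • dir)) (F.St (x + (a : ℂ) • dir)) =
      Module.rank ((O E).St (x + (a' : ℂ) • dir)) (F.St (x + (a' : ℂ) • dir))) hloc
    (fun _ _ _ _ _ _ h h' => h.trans h') (fun _ _ _ _ h => h.symm)
    (show a ∈ Ioo (0 : ℝ) ε from ⟨h0, h1⟩)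
    (show ε / 2 ∈ Ioo (0 : ℝ) ε from ⟨by linarith, by linarith⟩)
  exact h2.trans hb.self_of_nhds

end Pool.Agent.DQ
end

section

/-! M34, rank bound 1: smaller radii. -/

set_option autoImplicit false
set_option linter.unusedSectionVars false

open Set Filter Topology

universe u v w

namespace Pool.Agent.DQ

variable {V : Type} [NormedAddCommGroup V] [NormedSpace ℂ V] [FiniteDimensional ℂ V] {k d : ℕ}
  {𝓐 : Defo.{0, v} V} {M : EMod.{0, v, w} 𝓐.A} {M₀ : EMod.{0, 0, w} (O V)}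
  {ρ : ∀ x, M.St x → M₀.St x} {Y : Set V} {σ : Sit V k d} {T₀ T T' : Set (Fin k → ℂ)}
  {M₀' : EMod.{0, 0, 0} (O V)} {θ : ∀ x, M₀'.St x → M₀.St x}

/-- smaller radii, and a neighbourhood `T₁` of the centre over which `M₀` and `M₀'` vanish for
`Rv₂ ≤ ‖v‖` -/
structure CutD (M : EMod.{0, v, w} 𝓐.A) (M₀ : EMod.{0, 0, w} (O V)) (M₀' : EMod.{0, 0, 0} (O V))
    (σ : Sit V k d) (T₀ : Set (Fin k → ℂ)) where
  Rw₁ : ℝ
  Rz₁ : ℝ
  Rv₁ : ℝ
  Rv₂ : ℝ
  T₁ : Set (Fin k → ℂ)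
  hw : σ.rw < Rw₁
  hw' : Rw₁ < σ.Rw
  hz : σ.rz < Rz₁
  hz' : Rz₁ < σ.Rz
  hv2 : 0 < Rv₂
  hv : Rv₂ < Rv₁
  hv' : Rv₁ < σ.Rv
  T₁_open : IsOpen T₁
  mem_T₁ : σ.t₀ ∈ T₁
  T₁_sub : T₁ ⊆ T₀
  van : ∀ x ∈ σ.KC T₁, Rv₂ ≤ ‖σ.v x‖ →
    x ∈ M.dom ∧ Subsingleton (M₀.St x) ∧ Subsingleton (M₀'.St x)

/-- **Existence.** Proof: the set `Z₀` of the points near which `M` lives and `M₀`, `M₀'` vanish is open;
every `x ∈ KC T₀` with `‖σ.v x‖ = Rv` is in `Z₀`: `x ∉ Y` by `hm.bdY`, so `x ∈ M.dom` (`hm.dom`, `hm.KC_sub`; open), `M₀` is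
coherent at `x` (`hm.red.coh` from `hm.refl.coh`; the field `hm.bd` and `EMod.CohAt.subsingleton_near`), `M₀'` is coherent at
`x` (`hext.coh`, `hext.bd`). Let `B` be a polydisc with `t₀ ∈ B.T`, `B.Tc ⊆ T₀` (`exists_TB`). `K := KC B.Tc \ Z₀` is
compact (`σ.isCompact_KC`, `IsCompact.diff`) and `‖σ.v x‖ < Rv` on `K` (`mem_KC`). If `K` is empty take `Rv₂ = Rv / 2`, else
`Rv₂ = (m + Rv) / 2`, `m` the maximum of `‖σ.v ·‖` on `K` (`IsCompact.exists_isMaxOn`). `Rv₁ = (Rv₂ + Rv) / 2`,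
`Rw₁ = (rw + Rw) / 2`, `Rz₁ = (rz + Rz) / 2`, `T₁ = B.T`. -/
theorem exists_cutD (hm : Main 𝓐 M M₀ ρ Y σ T₀) (hext : Ext0 M₀ σ T₀ M₀' θ) :
    Nonempty (CutD M M₀ M₀' σ T₀) := by
  classical
  set Z₀ : Set V := {x | ∀ᶠ y in 𝓝 x, y ∈ M.dom ∧ Subsingleton (M₀.St y) ∧
    Subsingleton (M₀'.St y)} with hZ₀
  have hZo : IsOpen Z₀ :=
    isOpen_iff_mem_nhds.2 fun x hx => eventually_eventually_nhds.2 hx
  have hZbd : ∀ x ∈ σ.KC T₀, ‖σ.v x‖ = σ.Rv → x ∈ Z₀ := by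
    intro x hx hv
    have hxM : x ∈ M.dom := by
      rw [hm.dom]
      exact ⟨hm.KC_sub hx, hm.bdY x hx hv⟩
    have h1 : M₀.CohAt x := hm.red.cohAt (hm.refl.coh.cohAt hxM)
    have h2 : M₀'.CohAt x := hext.coh.cohAt hx
    have h3 := h1.subsingleton_near (hm.bd x hx hv)
    have h4 := h2.subsingleton_near (hext.bd x hx hv)
    filter_upwards [M.isOpen_dom.mem_nhds hxM, h3, h4] with y y1 y2 y3
    exact ⟨y1, y2, y3⟩
  obtain ⟨B, hB1, hB2⟩ := exists_TB σ.t₀ (hm.T₀_open.mem_nhds hm.mem_T₀)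
  have hK : IsCompact (σ.KC B.Tc \ Z₀) := (σ.isCompact_KC B.isCompact).diff hZo
  have hlt : ∀ x ∈ σ.KC B.Tc \ Z₀, ‖σ.v x‖ < σ.Rv := by
    rintro x ⟨hx1, hx2⟩
    refine lt_of_le_of_ne (σ.mem_KC.1 hx1).2.2.2 fun h => hx2 ?_
    exact hZbd x (σ.KC_mono34 hB2 hx1) h
  obtain ⟨m, hm0, hm1, hm2⟩ : ∃ m : ℝ, 0 ≤ m ∧ m < σ.Rv ∧ ∀ x ∈ σ.KC B.Tc \ Z₀, ‖σ.v x‖ ≤ m := by
    rcases (σ.KC B.Tc \ Z₀).eq_empty_or_nonempty with he | hne
    · exact ⟨0, le_rfl, σ.Rv_pos, fun x hx => by rw [he] at hx; exact hx.elim⟩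
    · obtain ⟨x, hx, hmax⟩ := hK.exists_isMaxOn hne σ.continuous_v.norm.continuousOn
      exact ⟨‖σ.v x‖, norm_nonneg _, hlt x hx, fun y hy => hmax hy⟩
  have hRv := σ.Rv_pos
  have hrw := σ.rw_lt
  have hrz := σ.rz_lt
  exact ⟨{
    Rw₁ := (σ.rw + σ.Rw) / 2
    Rz₁ := (σ.rz + σ.Rz) / 2
    Rv₁ := ((m + σ.Rv) / 2 + σ.Rv) / 2
    Rv₂ := (m + σ.Rv) / 2
    T₁ := B.T
    hw := by linarith
    hw' := by linarith
    hz := by linarith
    hz' := by linarith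
    hv2 := by linarith
    hv := by linarith
    hv' := by linarith
    T₁_open := B.isOpen
    mem_T₁ := hB1
    T₁_sub := B.sub.trans hB2
    van := by
      intro x hx hv
      by_contra hcon
      have hx' : x ∈ σ.KC B.Tc \ Z₀ := by
        refine ⟨σ.KC_mono34 B.sub hx, fun h => hcon ?_⟩
        exact h.self_of_nhds
      have := hm2 x hx'
      linarith }⟩

namespace CutD

variable (C : CutD M M₀ M₀' σ T₀)

/-- the situation with the smaller outer radii -/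
noncomputable def σ₁ : Sit V k d := σ.cut C.Rw₁ C.Rz₁ C.Rv₁ C.hw C.hz (C.hv2.trans C.hv)

theorem mem_KC₁ {x : V} : x ∈ C.σ₁.KC T ↔ σ.t x ∈ T ∧ ‖σ.w x‖ ≤ C.Rw₁ ∧ ‖σ.z x‖ ≤ C.Rz₁ ∧
    ‖σ.v x‖ ≤ C.Rv₁ := C.σ₁.mem_KC

theorem mem_KO₁ {x : V} : x ∈ C.σ₁.KO T ↔ σ.t x ∈ T ∧ ‖σ.w x‖ < C.Rw₁ ∧ ‖σ.z x‖ < C.Rz₁ ∧
    ‖σ.v x‖ < C.Rv₁ := C.σ₁.mem_KO

/-- the closed smaller set is inside the open larger one -/
theorem KC₁_sub : C.σ₁.KC T ⊆ σ.KO T := by
  intro x hx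
  rw [mem_KC₁] at hx
  exact σ.mem_KO.2 ⟨hx.1, hx.2.1.trans_lt C.hw', hx.2.2.1.trans_lt C.hz', hx.2.2.2.trans_lt C.hv'⟩

/-- the fibre over `t` does not meet the singular set -/
def Reg (t : Fin k → ℂ) : Prop := t ∈ C.T₁ ∧ σ.KC {t} ⊆ M.dom

/-- Proof: `σ.KC_tube` for the open set `M.dom`; `C.T₁_open`. -/
theorem reg_near {t : Fin k → ℂ} (h : C.Reg t) : ∀ᶠ t' in 𝓝 t, C.Reg t' := by
  have h1 : ∀ᶠ t' in 𝓝 t, ∀ x ∈ σ.KC {t'}, x ∈ M.dom :=
    σ.KC_tube fun x hx => M.isOpen_dom.mem_nhds (h.2 hx)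
  filter_upwards [C.T₁_open.mem_nhds h.1, h1] with t' ht1 ht2
  exact ⟨ht1, ht2⟩

/-- small polydiscs around a regular point. Proof: `exists_TB` for the intersection of `W` with the set of
regular points, `KC B.Tc = ⋃ t' ∈ B.Tc, KC {t'}` (`σ.KC_eq_biUnion`). -/
theorem exists_B {t : Fin k → ℂ} (h : C.Reg t) {W : Set (Fin k → ℂ)} (hW : W ∈ 𝓝 t) :
    ∃ B : TB k, t ∈ B.T ∧ B.Tc ⊆ W ∧ B.Tc ⊆ C.T₁ ∧ σ.KC B.Tc ⊆ M.dom := by
  obtain ⟨B, hB1, hB2⟩ := exists_TB t (inter_mem hW (C.reg_near h))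
  refine ⟨B, hB1, fun x hx => (hB2 hx).1, fun x hx => (hB2 hx).2.1, ?_⟩
  rw [σ.KC_eq_biUnion]
  exact iUnion₂_subset fun t' ht' => (hB2 ht').2.2

end CutD

end Pool.Agent.DQ
end

section

/-! M34, rank bound 3: coherence of the quotient and of its direct image. -/

set_option autoImplicit false
set_option linter.unusedSectionVars false

open Set Filter Topology

universe u v w

namespace Pool.Agent.DQ

variable {V : Type} [NormedAddCommGroup V] [NormedSpace ℂ V] [FiniteDimensional ℂ V] {k d : ℕ}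
  {𝓐 : Defo.{0, v} V} {M : EMod.{0, v, w} 𝓐.A} {M₀ : EMod.{0, 0, w} (O V)}
  {ρ : ∀ x, M.St x → M₀.St x} {Y : Set V} {σ : Sit V k d} {T₀ T T' : Set (Fin k → ℂ)}
  {M₀' : EMod.{0, 0, 0} (O V)} {θ : ∀ x, M₀'.St x → M₀.St x}

/-- the quotient is coherent. Proof: `EMod.quot_cohAt` with `O_relAt`, `hext.coh` (`EMod.Coh.cohAt` for the points of
`KO B.T ⊆ KC T₀`) and the sections `g'`; `KO B.T` is open. -/
theorem Gens.qq_cohAt (hext : Ext0 M₀ σ T₀ M₀' θ) {B : TB k} (hB : B.Tc ⊆ T₀)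
    (G : Gens M₀ σ T₀ M₀' θ B) {x : V} (hx : x ∈ σ.KO B.T) : (QQ M₀ σ T₀ M₀' θ).CohAt x := by
  have hxC : x ∈ σ.KC T₀ := σ.KC_mono34 (B.sub.trans hB) (σ.KO_sub_KC hx)
  refine M₀'.quot_cohAt _ _ (O_relAt x) (hext.coh x hxC).self_of_nhds G.g'
    (fun i => G.on' i x hx) ?_
  filter_upwards [(σ.isOpen_KO B.isOpen).mem_nhds hx] with y hy
  exact G.span y hy

/-- the quotient vanishes on the shell. Proof: `θ x` is bijective and semilinear and the `g i x = θ x (g' i x)` span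
`M₀.St x`, so the `g' i x` span `M₀'.St x`; the quotient by `⊤` is zero. -/
theorem Gens.qq_zero (hext : Ext0 M₀ σ T₀ M₀' θ) {B : TB k} (hB : B.Tc ⊆ T₀)
    (G : Gens M₀ σ T₀ M₀' θ B) {x : V} (hx : x ∈ σ.Q1 B.T ∪ σ.Q2 B.T) :
    Subsingleton ((QQ M₀ σ T₀ M₀' θ).St x) := by
  have hBT : B.T ⊆ T₀ := B.sub.trans hB
  have hxO : x ∈ σ.KO B.T := hx.elim (fun h => σ.Q1_sub_KO h) fun h => σ.Q2_sub_KO h
  have hxQ : x ∈ σ.Q1c T₀ ∪ σ.Q2c T₀ := hx.elim
    (fun h => Or.inl (σ.Q1c_mono hBT (σ.Q1_sub_Q1c h)))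
    fun h => Or.inr (σ.Q2c_mono hBT (σ.Q2_sub_Q2c h))
  have hxC : x ∈ σ.KC B.Tc := σ.KC_mono34 B.sub (σ.KO_sub_KC hxO)
  have htop : Ns M₀ σ T₀ M₀' θ x = ⊤ := by
    rw [G.span x hxO, eq_top_iff]
    intro m _
    have h1 : θ x m ∈ Submodule.span ((O V).St x) (range fun i => G.g i x) := by
      rw [G.gen x hxC]
      exact Submodule.mem_top
    obtain ⟨a, ha⟩ := (Submodule.mem_span_range_iff_exists_fun _).1 h1
    have h2 : θ x (∑ i, a i • G.g' i x) = θ x m := by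
      rw [hext.comb hxQ, ← ha]
      exact Finset.sum_congr rfl fun i _ => by rw [G.eq i x hx]
    have h3 : ∑ i, a i • G.g' i x = m := (hext.bij x hxQ).1 h2
    rw [← h3]
    exact Submodule.sum_mem _ fun i _ => Submodule.smul_mem _ _ (Submodule.subset_span ⟨i, rfl⟩)
  exact Submodule.Quotient.subsingleton_iff.2 htop

/-- coherence of the direct image at regular points. Proof: `exists_B` with `W = univ`, `exists_gens34`; `Sit.ps_cohAt`
for `C.σ₁`: the points of `C.σ₁.KC {t}` are in `σ.KO B.T` (`C.KC₁_sub`); if `‖w‖ = Rw₁` or `‖z‖ = Rz₁` the point is in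
`Q1 ∪ Q2` (`qq_zero`), if `‖v‖ = Rv₁` then `M₀'.St x` is zero by `C.van`, so its quotient is zero. -/
theorem CutD.ps_cohAt (hm : Main 𝓐 M M₀ ρ Y σ T₀) (hext : Ext0 M₀ σ T₀ M₀' θ)
    (C : CutD M M₀ M₀' σ T₀) {t : Fin k → ℂ} (h : C.Reg t) :
    (C.σ₁.ps (QQ M₀ σ T₀ M₀' θ)).CohAt t := by
  obtain ⟨B, htB, -, hBT, hBM⟩ := C.exists_B h (univ_mem (f := 𝓝 t))
  have hB0 : B.Tc ⊆ T₀ := hBT.trans C.T₁_sub
  obtain ⟨G⟩ := exists_gens34 hm hext B hB0 hBM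
  have hO : ∀ x ∈ C.σ₁.KC {t}, x ∈ σ.KO B.T := fun x hx =>
    σ.KO_mono (singleton_subset_iff.2 htB) (C.KC₁_sub hx)
  refine C.σ₁.ps_cohAt _ ?_ ?_
  · intro x hx
    filter_upwards [(σ.isOpen_KO B.isOpen).mem_nhds (hO x hx)] with y hy
    exact G.qq_cohAt hext hB0 hy
  · intro x hx hor
    have h1 := σ.mem_KO.1 (hO x hx)
    rcases hor with hw | hz | hv
    · refine G.qq_zero hext hB0 (Or.inl (σ.mem_Q1.2 ⟨h1.1, ?_, h1.2.1, h1.2.2.1, h1.2.2.2⟩))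
      have hw' : ‖σ.w x‖ = C.Rw₁ := hw
      rw [hw']
      exact C.hw
    · refine G.qq_zero hext hB0 (Or.inr (σ.mem_Q2.2 ⟨h1.1, h1.2.1, ?_, h1.2.2.1, h1.2.2.2⟩))
      have hz' : ‖σ.z x‖ = C.Rz₁ := hz
      rw [hz']
      exact C.hz
    · have hv' : ‖σ.v x‖ = C.Rv₁ := hv
      have hxT : x ∈ σ.KC C.T₁ :=
        σ.KC_mono34 (B.sub.trans hBT) (σ.KO_sub_KC (hO x hx))
      obtain ⟨-, -, h3⟩ := C.van x hxT (by rw [hv']; exact C.hv.le)
      refine ⟨fun a b => ?_⟩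
      obtain ⟨a, rfl⟩ := Submodule.mkQ_surjective _ a
      obtain ⟨b, rfl⟩ := Submodule.mkQ_surjective _ b
      rw [Subsingleton.elim a b]

end Pool.Agent.DQ
end

section

/-! M34, rank bound 5b: gluing. -/

set_option autoImplicit false
set_option linter.unusedSectionVars false

open Set Filter Topology

universe u v w

namespace Pool.Agent.DQ

variable {V : Type} [NormedAddCommGroup V] [NormedSpace ℂ V] [FiniteDimensional ℂ V] {k d : ℕ}
  {𝓐 : Defo.{0, v} V} {M : EMod.{0, v, w} 𝓐.A} {M₀ : EMod.{0, 0, w} (O V)}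
  {ρ : ∀ x, M.St x → M₀.St x} {Y : Set V} {σ : Sit V k d} {T₀ T T' : Set (Fin k → ℂ)}
  {M₀' : EMod.{0, 0, 0} (O V)} {θ : ∀ x, M₀'.St x → M₀.St x}

variable (hm : Main 𝓐 M M₀ ρ Y σ T₀) (hext : Ext0 M₀ σ T₀ M₀' θ) (C : CutD M M₀ M₀' σ T₀)
  {t₁ : Fin k → ℂ} (ht : t₁ ∈ T₀)

include hm hext in
/-- gluing (34.4): if `s'` is, over the smaller set, a combination of the extensions `g' i`, then its
restriction to the shell is the restriction of a section of `M₀` over `KO B.T`. Proof: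
`r x := ∑ i, om (a i) x • G.g i x` on `C.σ₁.KO B.T`, `θ x (s' x)` on the rest of `Q1 ∪ Q2`, zero elsewhere. Near a point of
`C.σ₁.KO B.T`: the first formula (open set, `EMod.comb`). Near a point of `Q1 ∪ Q2` (open set): `r = θ s'` (on the
intersection both agree by `Ext0.comb`, `G.eq`), a section by `hext.at_map`. At the other points of `KO B.T`:
`‖w‖ ≤ rw < Rw₁`, `‖z‖ ≤ rz < Rz₁`, so `Rv₁ ≤ ‖v‖`, and `M₀` vanishes near the point (`C.van` on the open set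
`{x ∈ KO B.T | Rv₂ < ‖σ.v x‖}`): `EMod.at_of_subsingleton`. -/
theorem glue_r {B : TB k} (hB : B.Tc ⊆ C.T₁) (hBM : σ.KC B.Tc ⊆ M.dom)
    (G : Gens M₀ σ T₀ M₀' θ B) {B' : TB k} (hB' : B'.Tc ⊆ B.T) {s' : (x : V) → M₀'.St x}
    (hs' : M₀'.On s' (σ.KO B'.T)) {a : Fin G.p → V → ℂ} (ha : ∀ i, HolNear (a i) (C.σ₁.KO B'.T))
    (h : ∀ x ∈ C.σ₁.KO B'.T, s' x = ∑ i, om (a i) x • G.g' i x) :
    ∃ r : (x : V) → M₀.St x, M₀.On r (σ.KO B'.T) ∧
      ∀ x ∈ σ.Q1 B'.T ∪ σ.Q2 B'.T, r x = θ x (s' x) := by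
  classical
  have hTT : B'.T ⊆ B.T := B'.sub.trans hB'
  have hT0 : B.T ⊆ T₀ := (B.sub.trans hB).trans C.T₁_sub
  have hQ : ∀ x ∈ σ.Q1 B'.T ∪ σ.Q2 B'.T, x ∈ σ.Q1 B.T ∪ σ.Q2 B.T := fun x hx => hx.elim
    (fun h' => Or.inl (σ.Q1_mono hTT h')) fun h' => Or.inr (σ.Q2_mono hTT h')
  have hQc : ∀ x ∈ σ.Q1 B'.T ∪ σ.Q2 B'.T, x ∈ σ.Q1c T₀ ∪ σ.Q2c T₀ := fun x hx => (hQ x hx).elim
    (fun h' => Or.inl (σ.Q1c_mono hT0 (σ.Q1_sub_Q1c h')))
    fun h' => Or.inr (σ.Q2c_mono hT0 (σ.Q2_sub_Q2c h'))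
  have hKO : ∀ x ∈ σ.Q1 B'.T ∪ σ.Q2 B'.T, x ∈ σ.KO B'.T := fun x hx => hx.elim
    (fun h' => σ.Q1_sub_KO h') fun h' => σ.Q2_sub_KO h'
  have hKCM : ∀ x ∈ σ.KC B.Tc, x ∈ M₀.dom := fun x hx => by
    rw [hm.red.dom]
    exact hBM hx
  have hσ₁ : ∀ x ∈ C.σ₁.KO B'.T, x ∈ σ.KC B.Tc := fun x hx =>
    σ.KC_mono34 (hTT.trans B.sub) (σ.KO_sub_KC (C.KC₁_sub (C.σ₁.KO_sub_KC hx)))
  have e1 : ∀ x ∈ C.σ₁.KO B'.T, x ∈ σ.Q1 B'.T ∪ σ.Q2 B'.T →
      ∑ i, om (a i) x • G.g i x = θ x (s' x) := by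
    intro x hx hx'
    rw [h x hx, hext.comb (hQc x hx')]
    exact Finset.sum_congr rfl fun i _ => by rw [G.eq i x (hQ x hx')]
  obtain ⟨r, hr1, hr2⟩ : ∃ r : (x : V) → M₀.St x,
      (∀ x ∈ C.σ₁.KO B'.T, r x = ∑ i, om (a i) x • G.g i x) ∧
      ∀ x ∈ σ.Q1 B'.T ∪ σ.Q2 B'.T, r x = θ x (s' x) := by
    refine ⟨fun x => if x ∈ C.σ₁.KO B'.T then ∑ i, om (a i) x • G.g i x else θ x (s' x),
      fun x hx => if_pos hx, fun x hx => ?_⟩
    by_cases hx1 : x ∈ C.σ₁.KO B'.T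
    · exact (if_pos hx1).trans (e1 x hx1 hx)
    · exact if_neg hx1
  refine ⟨r, fun x hx => ?_, hr2⟩
  have hxC : x ∈ σ.KC B.Tc := σ.KC_mono34 (hTT.trans B.sub) (σ.KO_sub_KC hx)
  by_cases hx1 : x ∈ C.σ₁.KO B'.T
  · have h1 : M₀.At (fun y => ∑ i, om (a i) y • G.g i y) x :=
      M₀.comb (hKCM x hxC) (fun i => at_om (ha i x hx1)) fun i => G.on i x hxC
    refine M₀.congr h1 ?_
    filter_upwards [(C.σ₁.isOpen_KO B'.isOpen).mem_nhds hx1] with y hy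
    exact (hr1 y hy).symm
  by_cases hx2 : x ∈ σ.Q1 B'.T ∪ σ.Q2 B'.T
  · have h1 := hext.at_map s' x (hQc x hx2) (hs' x hx)
    refine M₀.congr h1 ?_
    filter_upwards [((σ.isOpen_Q1 B'.isOpen).union (σ.isOpen_Q2 B'.isOpen)).mem_nhds hx2]
      with y hy
    exact (hr2 y hy).symm
  · have hx' := σ.mem_KO.1 hx
    have hw : ‖σ.w x‖ ≤ σ.rw := by
      by_contra hlt
      push Not at hlt
      exact hx2 (Or.inl (σ.mem_Q1.2 ⟨hx'.1, hlt, hx'.2.1, hx'.2.2.1, hx'.2.2.2⟩))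
    have hz : ‖σ.z x‖ ≤ σ.rz := by
      by_contra hlt
      push Not at hlt
      exact hx2 (Or.inr (σ.mem_Q2.2 ⟨hx'.1, hx'.2.1, hlt, hx'.2.2.1, hx'.2.2.2⟩))
    have hv : C.Rv₁ ≤ ‖σ.v x‖ := by
      by_contra hlt
      push Not at hlt
      exact hx1 (C.mem_KO₁.2 ⟨hx'.1, hw.trans_lt C.hw, hz.trans_lt C.hz, hlt⟩)
    have hO : IsOpen {y | y ∈ σ.KO B'.T ∧ C.Rv₂ < ‖σ.v y‖} :=
      (σ.isOpen_KO B'.isOpen).inter (isOpen_lt continuous_const σ.continuous_v.norm)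
    refine EMod.at_of_subsingleton (hKCM x hxC) ?_ r
    filter_upwards [hO.mem_nhds ⟨hx, C.hv.trans_le hv⟩] with y hy
    exact (C.van y (σ.KC_mono34 ((hTT.trans B.sub).trans hB) (σ.KO_sub_KC hy.1)) hy.2.le).2.1

end Pool.Agent.DQ
end

section

/-! # DQ, module H: uniqueness -/

set_option autoImplicit false

open Set Filter Topology Matrix

universe u v w

namespace Pool.Agent.DQ.H

variable {V : Type u} [NormedAddCommGroup V] [NormedSpace ℂ V] [FiniteDimensional ℂ V]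
  {𝓐 : Defo.{u, v} V}

/-- Proof. Let `D = covS …`, `K = cbox κ c (-1) R`. (1) `mod_lift` for `U = D.U ∅` (`covS_boxy`, `CovD.U_empty`): `u` with `u x` in the kernel of `C_{d+1}` and `φ x (u x) = t x`. (2) For `T = {j}`, `x ∈ D.U T`: `x` is in the shell (`covS_mem`), `φ x (u x) = 0`, so `u x` is in the image of `C_d` (`h.φ_ker`), `row_lift` gives sections `w T` over `D.U T` with `w T x ᵥ* cm 𝓐 C d x = u x = dC (fun _ => u x) T` (`dC_single`). (3) `stair` with `k = d`, `a = 0`, `z = fun _ => u` (`ColEx` for `b ≤ d < S.card` from `colEx_of_hol`, `colEx_hol_lt`): `y`. (4) `ColEx … 0` for the cochain `fun T x => u x - y T x ᵥ* cm 𝓐 C d x`: it is zero on the box for `T = ∅` (`dC` of anything at `∅` is `0`). (5) `t x = φ x (u x) = φ x (y ∅ x ᵥ* cm 𝓐 C d x) = 0` (`h.φ_ker`, `h.comp d`). -/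
theorem hartogs_unique {d : ℕ} {M : EMod.{u, v, w} 𝓐.A} {n : ℕ} {κ : V ≃L[ℂ] (Fin n → ℂ)}
    {c : Fin n → ℂ} {R : Fin n → ℝ} {S : Finset (Fin n)} {r : Fin n → ℝ}
    (hR : ∀ i, 0 < R i) (hr : ∀ i ∈ S, 0 < r i ∧ r i < R i) (hS : S.card = d + 1)
    {g : ℕ → ℕ} {C : ∀ k, Fin (g k) → Fin (g (k + 1)) → (x : V) → 𝓐.A.St x}
    {φ : ∀ x, (Fin (g (d + 1)) → 𝓐.A.St x) → M.St x}
    (h : HType 𝓐 d M (cbox κ c (-1) R) g C φ) (hcoh : M.Coh (cbox κ c (-1) R))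
    (htf : TF 𝓐 M (cbox κ c (-1) R)) (t : (x : V) → M.St x)
    (ht : M.On t (box κ c (-1) R)) (h0 : ∀ x ∈ shell κ c R S r, t x = 0) :
    ∀ x ∈ box κ c (-1) R, t x = 0 := by
  set D := covS κ c R S r hR hr with hD
  have hU0 : D.U ∅ = box κ c (-1) R := D.U_empty
  have hB : ∀ T, Boxy κ (cbox κ c (-1) R) (D.U T) := fun T => covS_boxy hR hr T
  have hanti : ∀ T T', T ⊆ T' → D.U T' ⊆ D.U T := fun T T' hT => D.U_anti hT
  have hsubK : box κ c (-1) R ⊆ cbox κ c (-1) R := box_sub_cbox κ c (-1) R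
  have hU0K : ∀ x ∈ D.U ∅, x ∈ cbox κ c (-1) R := fun x hx => hsubK (hU0 ▸ hx)
  have hdom : D.U ∅ ⊆ 𝓐.A.dom := fun x hx => K_sub_dom h (hU0K x hx)
  obtain ⟨u, hu, huk, huφ⟩ := mod_lift h hcoh htf (hB ∅) (s := t) (by rw [hU0]; exact ht)
  have hcol : ∀ b, b ≤ d → ∀ q, ColEx (G := (𝓐.A.free q).St) D.U (𝓐.A.free q).At b :=
    fun b hb q => colEx_of_hol D hdom (colEx_hol_lt D (by
      change b < S.card
      rw [hS]
      exact Nat.lt_succ_of_le hb)) q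
  have hw : ∀ T : Finset (WithBot (Fin n)), T.card = 0 + 1 →
      ∃ w : (x : V) → Fin (g d) → 𝓐.A.St x,
        (𝓐.A.free (g d)).On w (D.U T) ∧ ∀ x ∈ D.U T, w x ᵥ* cm 𝓐 C d x = u x := by
    intro T hT
    obtain ⟨j, rfl⟩ := Finset.card_eq_one.mp hT
    refine row_lift h (hB {j}) d (s := u)
      (fun x hx => hu x (hanti _ _ (Finset.empty_subset _) hx)) fun x hx => ?_
    have hx0 : x ∈ D.U ∅ := hanti _ _ (Finset.empty_subset _) hx
    refine (h.φ_ker x (hU0K x hx0) (u x) (huk x hx0)).mp ?_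
    rw [huφ x hx0]
    exact h0 x ((covS_mem hR hr).mpr ⟨j, hx⟩)
  choose! w hw1 hw2 using hw
  obtain ⟨y, hy, hyd⟩ := stair h hB hanti d le_rfl 0
    (fun b _ hb q => hcol b (by omega) q) (fun _ => u) w
    (fun T hT => by
      have hT' : T = ∅ := Finset.card_eq_zero.mp hT
      rw [hT']
      exact hu) hw1
    (fun T hT x hx => by
      obtain ⟨j, rfl⟩ := Finset.card_eq_one.mp hT
      rw [dC_single, hw2 _ hT x hx])
  obtain ⟨y', -, hy'⟩ := hcol 0 (Nat.zero_le _) (g (d + 1))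
    (fun T x => u x - y T x ᵥ* cm 𝓐 C d x)
    (fun T hT x hx => by
      have hT' : T = ∅ := Finset.card_eq_zero.mp hT
      subst hT'
      exact EMod.sub' (𝓐.A.free (g (d + 1))) (hu x hx) (vecMul_at h d (hU0K x hx) (hy ∅ rfl x hx)))
    hyd
  intro x hx
  have hx0 : x ∈ D.U ∅ := by
    rw [hU0]
    exact hx
  have h1 := hy' ∅ rfl x hx0
  have h2 : u x - y ∅ x ᵥ* cm 𝓐 C d x = 0 := by
    rw [← h1]
    exact Finset.sum_empty
  rw [← huφ x hx0]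
  exact (h.φ_ker x (hU0K x hx0) (u x) (huk x hx0)).mpr ⟨y ∅ x, (sub_eq_zero.mp h2).symm⟩

end Pool.Agent.DQ.H
end

section

/-!
# DQ, modules H9 and L: families of matrices near a closed box
-/

set_option autoImplicit false

open Set Filter Topology Matrix MulOpposite

universe u v w

namespace Pool.Agent.DQ

variable {V : Type u} [NormedAddCommGroup V] [NormedSpace ℂ V] [FiniteDimensional ℂ V]
  (𝓐 : Defo.{u, v} V)

/-- the value at `x` of a family of matrices -/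
def fm {a b : ℕ} (X : Fin a → Fin b → (x : V) → 𝓐.A.St x) (x : V) :
    Matrix (Fin a) (Fin b) (𝓐.A.St x) := of fun i j => X i j x

/-- the entries of the family of matrices are sections near `K` -/
def MAt {a b : ℕ} (X : Fin a → Fin b → (x : V) → 𝓐.A.St x) (K : Set V) : Prop :=
  ∀ i j, ∀ x ∈ K, 𝓐.A.At (X i j) x

/-- generators of a subsheaf -/
theorem mem_of_gen_sub {X : Type u} [TopologicalSpace X] {R : ERing.{u, v} X}
    (F : EMod.{u, v, w} R) (N : ∀ x, Submodule (R.St x) (F.St x)) {m : ℕ} {x : X}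
    (g : Fin m → N x) (h : Submodule.span (R.St x) (range g) = ⊤) (a : F.St x) :
    a ∈ N x ↔ ∃ u : Fin m → R.St x, a = ∑ j, u j • (g j : F.St x) := by
  constructor
  · intro ha
    have h2 : (⟨a, ha⟩ : N x) ∈ Submodule.span (R.St x) (range g) := by
      rw [h]
      exact Submodule.mem_top
    obtain ⟨u, hu⟩ := mem_span_fam.mp h2
    refine ⟨u, ?_⟩
    have h3 := congrArg Subtype.val hu
    rw [AddSubmonoidClass.coe_finsetSum] at h3
    exact h3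
  · rintro ⟨u, rfl⟩
    exact Submodule.sum_mem _ fun j _ => Submodule.smul_mem _ _ (g j).2

section

variable {n : ℕ} (κ : V ≃L[ℂ] (Fin n → ℂ)) (c : Fin n → ℂ) (r R : Fin n → ℝ)

omit [FiniteDimensional ℂ V] in
/-- generation of a coherent sheaf is an open condition -/
theorem gen_nearL {F : EMod.{u, v, w} 𝓐.A} {x : V} (hF : F.CohAt x) {p : ℕ}
    {g : Fin p → (x : V) → F.St x} (hg : ∀ i, F.At (g i) x)
    (hgen : Submodule.span (𝓐.A.St x) (range fun i => g i x) = ⊤) :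
    ∀ᶠ y in 𝓝 x, Submodule.span (𝓐.A.St y) (range fun i => g i y) = ⊤ := by
  obtain ⟨m, G, hG, hGen⟩ := hF.2.1
  have h1 : ∀ j, ∀ᶠ y in 𝓝 x, G j y ∈ Submodule.span (𝓐.A.St y) (range fun i => g i y) :=
    fun j => F.near_mem_span (hG j) hg (by rw [hgen]; exact Submodule.mem_top)
  filter_upwards [hGen, eventually_all.mpr h1] with y y1 y2
  rw [eq_top_iff, ← y1, Submodule.span_le]
  rintro _ ⟨j, rfl⟩
  exact y2 j

/-- Cartan B for a closed box -/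
theorem Defo.cartanB_closed (F : EMod.{u, v, w} 𝓐.A) (hF : F.Coh (cbox κ c r R))
    (htf : TF 𝓐 F (cbox κ c r R)) (hrR : GoodRadii r R) {p : ℕ}
    (g : Fin p → (x : V) → F.St x) (hg : ∀ i, F.On (g i) (cbox κ c r R))
    (hgen : F.Gen g (cbox κ c r R)) (s : (x : V) → F.St x) (hs : F.On s (cbox κ c r R)) :
    ∃ a : Fin p → (x : V) → 𝓐.A.St x, (∀ i, ∀ x ∈ cbox κ c r R, 𝓐.A.At (a i) x) ∧
      ∀ x ∈ cbox κ c r R, s x = ∑ i, a i x • g i x := by
  let W : Set V := {x | ∀ᶠ y in 𝓝 x, F.CohAt y ∧ (∀ m : F.St y, 𝓐.hb y • m = 0 → m = 0) ∧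
    (∀ i, F.At (g i) y) ∧ F.At s y ∧
      Submodule.span (𝓐.A.St y) (range fun i => g i y) = ⊤}
  have hW : IsOpen W := by
    rw [isOpen_iff_mem_nhds]
    intro x hx
    exact eventually_eventually_nhds.mpr hx
  have hsub : cbox κ c r R ⊆ W := by
    intro x hx
    filter_upwards [hF x hx, tf_near (hF.cohAt hx) (htf x hx),
      eventually_all.mpr fun i => F.ev (hg i x hx), F.ev (hs x hx),
      gen_nearL 𝓐 (hF.cohAt hx) (fun i => hg i x hx) (hgen x hx)] with y y1 y2 y3 y4 y5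
    exact ⟨y1, y2, y3, y4, y5⟩
  obtain ⟨r', R', hgood, hb, hc⟩ := exists_larger_box κ c hrR hW hsub
  obtain ⟨a, ha, hsa⟩ := 𝓐.cartanB_open κ c r' R' F (fun x hx => (hc hx).mono fun y hy => hy.1)
    (fun x hx => ((hc hx).self_of_nhds).2.1) hgood g
    (fun i x hx => ((hc hx).self_of_nhds).2.2.1 i) (fun x hx => ((hc hx).self_of_nhds).2.2.2.2) s
    (fun x hx => ((hc (box_subset_cbox κ c r' R' hx)).self_of_nhds).2.2.2.1)
  exact ⟨a, fun i x hx => ha i x (hb hx), fun x hx => hsa x (hb hx)⟩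

/-- the relations between sections of a coherent sheaf near a closed box are generated by finitely
many relations near the box -/
theorem exists_rel_box (F : EMod.{u, v, w} 𝓐.A) (hF : F.Coh (cbox κ c r R))
    (hrR : GoodRadii r R) {p : ℕ}
    (g : Fin p → (x : V) → F.St x) (hg : ∀ i, F.On (g i) (cbox κ c r R)) :
    ∃ (m : ℕ) (ρ : Fin m → Fin p → (x : V) → 𝓐.A.St x), MAt 𝓐 ρ (cbox κ c r R) ∧
      ∀ x ∈ cbox κ c r R, ∀ v : Fin p → 𝓐.A.St x, ∑ i, v i • g i x = 0 ↔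
        ∃ u, u ᵥ* fm 𝓐 ρ x = v := by
  have hKM : ∀ x ∈ cbox κ c r R, x ∈ F.dom := fun x hx => (hF.cohAt hx).1
  let N := (𝓐.A.free p).sub (F.relSub g) (F.relSub_open g)
  have hcohN : N.Coh (cbox κ c r R) := by
    intro x hx
    have hxd := F.dom_sub (hKM x hx)
    have h1 : N.CohAt x := by
      obtain ⟨m, ρ, hρ, hrel⟩ := (hF.cohAt hx).relFG g (fun i => hg i x hx)
      refine (𝓐.A.free p).sub_cohAt _ _ ((𝓐.oka p).cohAt hxd) (fun j y i => ρ j i y)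
        (fun j => ⟨hxd, fun i => hρ j i⟩) ?_
      filter_upwards [hrel, F.relSub_near g (hKM x hx) (fun i => hg i x hx)] with y y1 y2
      rw [y2, y1]
      rfl
    exact h1.eventually (Defo.relAt_near hxd)
  have htfN : TF 𝓐 N (cbox κ c r R) := by
    intro x hx m hm
    refine Subtype.ext (𝓐.tf_free (F.dom_sub (hKM x hx)) m.1 ?_)
    exact congrArg Subtype.val hm
  obtain ⟨m, g', hg', hgen'⟩ := 𝓐.cartanA κ c r R N hcohN htfN hrR
  refine ⟨m, fun j i x => (g' j x).1 i, fun j i x hx => (hg' j x hx).2 i, fun x hx v => ?_⟩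
  have e1 : ∑ i, v i • g i x = 0 ↔ v ∈ F.relSub g x := by
    rw [F.relSub_eq g (hKM x hx) (fun i => hg i x hx)]
    rfl
  rw [e1]
  refine (mem_of_gen_sub (𝓐.A.free p) (F.relSub g) (fun j => g' j x) (hgen' x hx) v).trans ?_
  refine exists_congr fun u => ?_
  rw [vecMul_eq_sum]
  exact eq_comm

variable {κ c r R}

/-- row kernels near a closed box -/
theorem exists_rows_box (hrR : GoodRadii r R) (hK : cbox κ c r R ⊆ 𝓐.A.dom) {a b : ℕ}
    (X : Fin a → Fin b → (x : V) → 𝓐.A.St x) (hX : MAt 𝓐 X (cbox κ c r R)) :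
    ∃ (m : ℕ) (Y : Fin m → Fin a → (x : V) → 𝓐.A.St x), MAt 𝓐 Y (cbox κ c r R) ∧
      ∀ x ∈ cbox κ c r R, ∀ v, v ᵥ* fm 𝓐 X x = 0 ↔ ∃ u, u ᵥ* fm 𝓐 Y x = v := by
  obtain ⟨m, Y, hY, h⟩ := exists_rel_box 𝓐 κ c r R (𝓐.A.free b)
    (fun x hx => (𝓐.oka b) x (hK hx)) hrR (fun i y j => X i j y)
    (fun i x hx => ⟨hK hx, fun j => hX i j x hx⟩)
  refine ⟨m, Y, hY, fun x hx v => ?_⟩
  rw [← h x hx, vecMul_eq_sum]
  rfl

/-- lifting through row maps near a closed box -/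
theorem exists_row_lift_box (hrR : GoodRadii r R) (hK : cbox κ c r R ⊆ 𝓐.A.dom) {a b m : ℕ}
    (X : Fin a → Fin b → (x : V) → 𝓐.A.St x) (hX : MAt 𝓐 X (cbox κ c r R))
    (Y : Fin m → Fin b → (x : V) → 𝓐.A.St x) (hY : MAt 𝓐 Y (cbox κ c r R))
    (h : ∀ x ∈ cbox κ c r R, ∀ v, ∃ u, u ᵥ* fm 𝓐 Y x = v ᵥ* fm 𝓐 X x) :
    ∃ Z : Fin a → Fin m → (x : V) → 𝓐.A.St x, MAt 𝓐 Z (cbox κ c r R) ∧
      ∀ x ∈ cbox κ c r R, fm 𝓐 Z x * fm 𝓐 Y x = fm 𝓐 X x := by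
  let F := 𝓐.A.free b
  let g : Fin m → (x : V) → F.St x := fun i y j => Y i j y
  have hg : ∀ x ∈ cbox κ c r R, ∀ i, F.At (g i) x := fun x hx i => ⟨hK hx, fun j => hY i j x hx⟩
  let N := F.sub (F.spn g) (F.spn_open g)
  have hcohN : N.Coh (cbox κ c r R) := by
    intro x hx
    have h1 : N.CohAt x := F.sub_cohAt _ _ ((𝓐.oka b).cohAt (hK hx)) g (hg x hx)
      (F.spn_near g (hg x hx))
    exact h1.eventually (Defo.relAt_near (hK hx))
  have htfN : TF 𝓐 N (cbox κ c r R) := by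
    intro x hx m hm
    refine Subtype.ext (𝓐.tf_free (hK hx) m.1 ?_)
    exact congrArg Subtype.val hm
  have hgN : ∀ i, N.On (F.toSub (F.spn g) (g i)) (cbox κ c r R) := by
    intro i x hx
    refine F.toSub_at _ (F.spn_open g) (hg x hx i) ?_
    filter_upwards [F.spn_near g (hg x hx)] with y hy
    rw [hy]
    exact Submodule.subset_span ⟨i, rfl⟩
  have hgen : N.Gen (fun i => F.toSub (F.spn g) (g i)) (cbox κ c r R) := by
    intro x hx
    exact span_toSub F (F.spn g) g (F.spn_eq g (hg x hx))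
  have key : ∀ i : Fin a, ∃ z : Fin m → (x : V) → 𝓐.A.St x,
      (∀ k, ∀ x ∈ cbox κ c r R, 𝓐.A.At (z k) x) ∧
      ∀ x ∈ cbox κ c r R, ∀ j, X i j x = ∑ k, z k x * Y k j x := by
    intro i
    let s : (x : V) → F.St x := fun y j => X i j y
    have hs : F.On s (cbox κ c r R) := fun x hx => ⟨hK hx, fun j => hX i j x hx⟩
    have hmem : ∀ x ∈ cbox κ c r R, s x ∈ Submodule.span (𝓐.A.St x) (range fun k => g k x) := by
      intro x hx
      obtain ⟨u, hu⟩ := h x hx (Pi.single i 1)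
      rw [Matrix.single_one_vecMul, vecMul_eq_sum] at hu
      exact mem_span_fam.2 ⟨u, hu.symm⟩
    obtain ⟨z, hz, hz'⟩ := 𝓐.cartanB_closed κ c r R N hcohN htfN hrR _ hgN hgen
      (F.toSub (F.spn g) s) (fun x hx => by
        refine F.toSub_at _ (F.spn_open g) (hs x hx) ?_
        filter_upwards [F.spn_near g (hg x hx), F.near_mem_span (hs x hx) (hg x hx) (hmem x hx)]
          with y y1 y2
        rw [y1]
        exact y2)
    refine ⟨z, hz, fun x hx j => ?_⟩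
    have hspn := F.spn_eq g (hg x hx)
    have h2 : ((F.toSub (F.spn g) s x : F.spn g x) : F.St x) = s x :=
      F.coe_toSub _ _ (by rw [hspn]; exact hmem x hx)
    have h3 : ∀ k, ((F.toSub (F.spn g) (g k) x : F.spn g x) : F.St x) = g k x := fun k =>
      F.coe_toSub _ _ (by rw [hspn]; exact Submodule.subset_span ⟨k, rfl⟩)
    have h1 : s x = ∑ k, z k x • g k x := by
      rw [← h2]
      refine (congrArg Subtype.val (hz' x hx)).trans ?_
      refine (AddSubmonoidClass.coe_finsetSum _ _).trans ?_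
      refine Finset.sum_congr rfl fun k _ => ?_
      rw [← h3 k]
      rfl
    refine (congrFun h1 j).trans ?_
    refine (Finset.sum_apply _ _ _).trans ?_
    rfl
  choose Z hZ hZ' using key
  refine ⟨Z, fun i j x hx => hZ i j x hx, fun x hx => ?_⟩
  ext i j
  rw [Matrix.mul_apply]
  exact (hZ' i x hx j).symm

end

end Pool.Agent.DQ
end

section

/-!
# DQ, modules H9 and L: resolutions near a closed box
-/

set_option autoImplicit false

open Set Filter Topology Matrix MulOpposite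

universe u v w

namespace Pool.Agent.DQ

section op

variable {R : Type v} [Ring R] {a b c : ℕ}

/-- the opposite transposed matrix -/
def opT (X : Matrix (Fin a) (Fin b) R) : Matrix (Fin b) (Fin a) Rᵐᵒᵖ := of fun j i => op (X i j)

theorem op_mulVec (X : Matrix (Fin a) (Fin b) R) (v : Fin b → R) :
    (fun j => op (v j)) ᵥ* opT X = fun i => op ((X *ᵥ v) i) := by
  ext i
  simp [Matrix.vecMul, Matrix.mulVec, dotProduct, opT]

omit [Ring R] in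
theorem opT_inj {X Y : Matrix (Fin a) (Fin b) R} (h : opT X = opT Y) : X = Y := by
  ext i j
  exact op_injective (congrFun (congrFun h j) i)

theorem opT_mul (X : Matrix (Fin a) (Fin b) R) (Y : Matrix (Fin b) (Fin c) R) :
    opT (X * Y) = opT Y * opT X := by
  ext i j
  simp [Matrix.mul_apply, opT]

omit [Ring R] in
theorem op_vec_eq_iff {a : ℕ} (v w : Fin a → R) :
    ((fun j => op (v j)) = fun j => op (w j)) ↔ v = w := by
  constructor
  · intro h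
    ext i
    exact op_injective (congrFun h i)
  · rintro rfl
    rfl

omit [Ring R] in
theorem op_vec_surj {a : ℕ} (v : Fin a → Rᵐᵒᵖ) : ∃ w : Fin a → R, (fun j => op (w j)) = v :=
  ⟨fun j => unop (v j), rfl⟩

end op

variable {V : Type u} [NormedAddCommGroup V] [NormedSpace ℂ V] [FiniteDimensional ℂ V]
  (𝓐 : Defo.{u, v} V) {n : ℕ} {κ : V ≃L[ℂ] (Fin n → ℂ)} {c : Fin n → ℂ} {r R : Fin n → ℝ}

/-- the opposite transposed family -/
def fop {a b : ℕ} (X : Fin a → Fin b → (x : V) → 𝓐.A.St x) :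
    Fin b → Fin a → (x : V) → 𝓐.op.A.St x := fun j i x => op (X i j x)

/-- the inverse construction -/
def fun_op {a b : ℕ} (X : Fin a → Fin b → (x : V) → 𝓐.op.A.St x) :
    Fin b → Fin a → (x : V) → 𝓐.A.St x := fun j i x => unop (X i j x)

omit [FiniteDimensional ℂ V] in
theorem fop_vecMul {a b : ℕ} (X : Fin a → Fin b → (x : V) → 𝓐.A.St x) (x : V)
    (v : Fin b → 𝓐.A.St x) :
    (fun j => (op (v j) : 𝓐.op.A.St x)) ᵥ* fm 𝓐.op (fop 𝓐 X) x =
      fun i => (op ((fm 𝓐 X x *ᵥ v) i) : 𝓐.op.A.St x) := op_mulVec (fm 𝓐 X x) v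

omit [FiniteDimensional ℂ V] in
theorem fop_fun_op {a b : ℕ} (X : Fin a → Fin b → (x : V) → 𝓐.op.A.St x) :
    fop 𝓐 (fun_op 𝓐 X) = X := rfl

/-- column kernels near a closed box -/
theorem exists_cols_box (hrR : GoodRadii r R) (hK : cbox κ c r R ⊆ 𝓐.A.dom) {a b : ℕ}
    (X : Fin a → Fin b → (x : V) → 𝓐.A.St x) (hX : MAt 𝓐 X (cbox κ c r R)) :
    ∃ (m : ℕ) (Y : Fin b → Fin m → (x : V) → 𝓐.A.St x), MAt 𝓐 Y (cbox κ c r R) ∧
      ∀ x ∈ cbox κ c r R, ∀ v, fm 𝓐 X x *ᵥ v = 0 ↔ ∃ u, fm 𝓐 Y x *ᵥ u = v := by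
  obtain ⟨m, Y, hY, h⟩ := exists_rows_box 𝓐.op hrR (show cbox κ c r R ⊆ 𝓐.op.A.dom from hK)
    (fop 𝓐 X) (fun j i x hx => hX i j x hx)
  refine ⟨m, fun_op 𝓐 Y, fun j i x hx => hY i j x hx, fun x hx v => ?_⟩
  have h1 := h x hx (fun j => (op (v j) : 𝓐.op.A.St x))
  have e3 : (fun j => (op (v j) : 𝓐.op.A.St x)) ᵥ* fm 𝓐.op (fop 𝓐 X) x = 0 ↔
      fm 𝓐 X x *ᵥ v = 0 := by
    have h2 := fop_vecMul 𝓐 X x v
    constructor
    · intro h3
      exact (op_vec_eq_iff (fm 𝓐 X x *ᵥ v) 0).1 (h2.symm.trans h3)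
    · intro h3
      refine h2.trans ((op_vec_eq_iff (fm 𝓐 X x *ᵥ v) 0).2 h3)
  refine e3.symm.trans (h1.trans ?_)
  constructor
  · rintro ⟨u, hu⟩
    refine ⟨fun j => unop (u j), ?_⟩
    have h2 := fop_vecMul 𝓐 (fun_op 𝓐 Y) x (fun j => unop (u j))
    exact (op_vec_eq_iff _ _).1 (h2.symm.trans hu)
  · rintro ⟨u, rfl⟩
    exact ⟨fun j => op (u j), fop_vecMul 𝓐 (fun_op 𝓐 Y) x u⟩

/-- lifting through column maps near a closed box -/
theorem exists_col_lift_box (hrR : GoodRadii r R) (hK : cbox κ c r R ⊆ 𝓐.A.dom) {a b m : ℕ}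
    (X : Fin a → Fin b → (x : V) → 𝓐.A.St x) (hX : MAt 𝓐 X (cbox κ c r R))
    (Y : Fin a → Fin m → (x : V) → 𝓐.A.St x) (hY : MAt 𝓐 Y (cbox κ c r R))
    (h : ∀ x ∈ cbox κ c r R, ∀ v, ∃ u, fm 𝓐 Y x *ᵥ u = fm 𝓐 X x *ᵥ v) :
    ∃ Z : Fin m → Fin b → (x : V) → 𝓐.A.St x, MAt 𝓐 Z (cbox κ c r R) ∧
      ∀ x ∈ cbox κ c r R, fm 𝓐 Y x * fm 𝓐 Z x = fm 𝓐 X x := by
  obtain ⟨Z, hZ, hZ'⟩ := exists_row_lift_box 𝓐.op hrR (show cbox κ c r R ⊆ 𝓐.op.A.dom from hK)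
    (fop 𝓐 X) (fun j i x hx => hX i j x hx) (fop 𝓐 Y) (fun j i x hx => hY i j x hx) (by
      intro x hx v
      obtain ⟨u, hu⟩ := h x hx fun j => unop (v j)
      refine ⟨fun j => op (u j), ?_⟩
      refine (fop_vecMul 𝓐 Y x u).trans ?_
      rw [hu]
      exact (fop_vecMul 𝓐 X x fun j => unop (v j)).symm)
  refine ⟨fun_op 𝓐 Z, fun i j x hx => hZ j i x hx, fun x hx => ?_⟩
  refine opT_inj ?_
  rw [opT_mul]
  exact hZ' x hx

end Pool.Agent.DQ
end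

section

/-!
# DQ, modules H9 and L: the resolution data `B`, `C`, `W` near a closed box
-/

set_option autoImplicit false

open Set Filter Topology Matrix MulOpposite

universe u v w

namespace Pool.Agent.DQ

variable {V : Type u} [NormedAddCommGroup V] [NormedSpace ℂ V] [FiniteDimensional ℂ V]
  (𝓐 : Defo.{u, v} V) {m : ℕ} {κ : V ≃L[ℂ] (Fin m → ℂ)} {c : Fin m → ℂ} {r R : Fin m → ℝ}

/-- shift of a sequence of families -/
def shiftBF {n : ℕ → ℕ} (B : ∀ k, Fin (n (k + 1)) → Fin (n k) → (x : V) → 𝓐.A.St x) :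
    ∀ k, Fin (shiftN n (k + 1)) → Fin (shiftN n k) → (x : V) → 𝓐.A.St x
  | 0 => fun _ j => j.elim0
  | (k + 1) => B k

/-- shift of a sequence of families -/
def shiftCF {n : ℕ → ℕ} (B : ∀ k, Fin (n k) → Fin (n (k + 1)) → (x : V) → 𝓐.A.St x) :
    ∀ k, Fin (shiftN n k) → Fin (shiftN n (k + 1)) → (x : V) → 𝓐.A.St x
  | 0 => fun j => j.elim0
  | (k + 1) => B k

/-- the values at `x` of a sequence of families (left modules) -/
def fB {n : ℕ → ℕ} (B : ∀ k, Fin (n (k + 1)) → Fin (n k) → (x : V) → 𝓐.A.St x) (x : V) (k : ℕ) :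
    Matrix (Fin (n (k + 1))) (Fin (n k)) (𝓐.A.St x) := fm 𝓐 (B k) x

/-- the values at `x` of a sequence of families (right modules) -/
def fC {n : ℕ → ℕ} (C : ∀ k, Fin (n k) → Fin (n (k + 1)) → (x : V) → 𝓐.A.St x) (x : V) (k : ℕ) :
    Matrix (Fin (n k)) (Fin (n (k + 1))) (𝓐.A.St x) := fm 𝓐 (C k) x

/-- the map given by sections -/
noncomputable def fe {M : EMod.{u, v, w} 𝓐.A} {p : ℕ} (G : Fin p → (x : V) → M.St x) (x : V) :
    (Fin p → 𝓐.A.St x) →ₗ[𝓐.A.St x] M.St x := Fintype.linearCombination (𝓐.A.St x) fun i => G i x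

omit [FiniteDimensional ℂ V] in
theorem fe_apply {M : EMod.{u, v, w} 𝓐.A} {p : ℕ} (G : Fin p → (x : V) → M.St x) (x : V)
    (a : Fin p → 𝓐.A.St x) : fe 𝓐 G x a = ∑ i, a i • G i x := rfl

/-- resolutions near a closed box -/
theorem exists_isRes_box (hrR : GoodRadii r R) (M : EMod.{u, v, w} 𝓐.A)
    (hM : M.Coh (cbox κ c r R)) (htf : TF 𝓐 M (cbox κ c r R)) :
    ∃ (n : ℕ → ℕ) (B : ∀ k, Fin (n (k + 1)) → Fin (n k) → (x : V) → 𝓐.A.St x)
      (G : Fin (n 1) → (x : V) → M.St x), (∀ k, MAt 𝓐 (B k) (cbox κ c r R)) ∧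
      (∀ i, M.On (G i) (cbox κ c r R)) ∧
      ∀ x ∈ cbox κ c r R, IsRes n (fB 𝓐 B x) (fe 𝓐 G x) := by
  have hK : cbox κ c r R ⊆ 𝓐.A.dom := fun x hx => M.dom_sub (hM.cohAt hx).1
  obtain ⟨n, B, ⟨G, h1, h2, h4⟩, h3⟩ := exists_seq
    (T := fun a b => {X : Fin b → Fin a → (x : V) → 𝓐.A.St x // MAt 𝓐 X (cbox κ c r R)})
    (fun {a b c'} X Y => ∀ x ∈ cbox κ c r R, ∀ v, v ᵥ* fm 𝓐 X.1 x = 0 ↔
      ∃ u, u ᵥ* fm 𝓐 Y.1 x = v)
    (fun a b X => by
      obtain ⟨p, Y, hY, h⟩ := exists_rows_box 𝓐 hrR hK X.1 X.2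
      exact ⟨p, ⟨Y, hY⟩, h⟩)
    (fun a b X => ∃ G : Fin a → (x : V) → M.St x, (∀ i, M.On (G i) (cbox κ c r R)) ∧
      M.Gen G (cbox κ c r R) ∧ ∀ x ∈ cbox κ c r R, ∀ v : Fin a → 𝓐.A.St x,
        fe 𝓐 G x v = 0 ↔ ∃ u, u ᵥ* fm 𝓐 X.1 x = v) (by
      obtain ⟨a, G, hG, hGen⟩ := 𝓐.cartanA κ c r R M hM htf hrR
      obtain ⟨b, X, hX, hX'⟩ := exists_rel_box 𝓐 κ c r R M hM hrR G hG
      exact ⟨a, b, ⟨X, hX⟩, G, hG, hGen, hX'⟩)
  refine ⟨shiftN n, shiftBF 𝓐 (fun k => (B k).1), G, ?_, h1, fun x hx => ?_⟩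
  · rintro (_ | k)
    · exact fun _ j => j.elim0
    · exact (B k).2
  · exact
    { zero := rfl
      surj := fun a => by
        have h5 : a ∈ Submodule.span (𝓐.A.St x) (range fun i => G i x) := by
          rw [h2 x hx]
          exact Submodule.mem_top
        obtain ⟨u, hu⟩ := mem_span_fam.mp h5
        exact ⟨u, hu.symm⟩
      ker := h4 x hx
      exact := fun k hk => by
        obtain ⟨k, rfl⟩ : ∃ l, k = l + 1 := ⟨k - 1, by omega⟩
        exact h3 k x hx }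

/-- the kernel of `(w, B)` on columns: `{(u, t) : w u = B t}` -/
theorem exists_pull_box (hrR : GoodRadii r R) (hK : cbox κ c r R ⊆ 𝓐.A.dom) {a b b' : ℕ}
    (W : Fin a → Fin b → (x : V) → 𝓐.A.St x) (hW : MAt 𝓐 W (cbox κ c r R))
    (B : Fin a → Fin b' → (x : V) → 𝓐.A.St x) (hB : MAt 𝓐 B (cbox κ c r R)) :
    ∃ (p : ℕ) (C : Fin b → Fin p → (x : V) → 𝓐.A.St x), MAt 𝓐 C (cbox κ c r R) ∧
      ∀ x ∈ cbox κ c r R, ∀ u, (∃ t, fm 𝓐 W x *ᵥ u = fm 𝓐 B x *ᵥ t) ↔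
        ∃ v, fm 𝓐 C x *ᵥ v = u := by
  obtain ⟨p, Y, hY, h⟩ := exists_cols_box 𝓐 hrR hK
    (fun (i : Fin a) => Fin.append (W i) (B i)) (fun i j x hx => by
      refine Fin.addCases (fun j => ?_) (fun j => ?_) j
      · dsimp only
        rw [Fin.append_left]
        exact hW i j x hx
      · dsimp only
        rw [Fin.append_right]
        exact hB i j x hx)
  have key : ∀ (x : V) (u : Fin b → 𝓐.A.St x) (t : Fin b' → 𝓐.A.St x),
      fm 𝓐 (fun (i : Fin a) => Fin.append (W i) (B i)) x *ᵥ (Fin.append u t) =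
        fm 𝓐 W x *ᵥ u + fm 𝓐 B x *ᵥ t := by
    intro x u t
    ext i
    simp only [Matrix.mulVec, dotProduct, fm, of_apply, Pi.add_apply]
    rw [Fin.sum_univ_add]
    simp only [Fin.append_left, Fin.append_right]
  refine ⟨p, fun i j => Y (Fin.castAdd b' i) j, fun i j x hx => hY _ _ x hx, fun x hx u => ?_⟩
  constructor
  · rintro ⟨t, ht⟩
    obtain ⟨v, hv⟩ := (h x hx (Fin.append u (-t))).1 (by
      rw [key, ht, Matrix.mulVec_neg, add_neg_cancel])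
    refine ⟨v, ?_⟩
    ext i
    have := congrFun hv (Fin.castAdd b' i)
    rw [Fin.append_left] at this
    exact this
  · rintro ⟨v, rfl⟩
    have h1 := (h x hx _).2 ⟨v, rfl⟩
    refine ⟨-fun i => (fm 𝓐 Y x *ᵥ v) (Fin.natAdd b i), ?_⟩
    have h2 : fm 𝓐 Y x *ᵥ v = Fin.append (fun i => (fm 𝓐 Y x *ᵥ v) (Fin.castAdd b' i))
        (fun i => (fm 𝓐 Y x *ᵥ v) (Fin.natAdd b i)) := by
      ext i
      refine Fin.addCases (fun j => ?_) (fun j => ?_) i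
      · rw [Fin.append_left]
      · rw [Fin.append_right]
    rw [h2, key] at h1
    rw [Matrix.mulVec_neg]
    exact eq_neg_of_add_eq_zero_left h1

/-- the right resolution of `Ext^d` near a closed box -/
theorem exists_isResExt_box (hrR : GoodRadii r R) (hK : cbox κ c r R ⊆ 𝓐.A.dom) (d : ℕ)
    (n : ℕ → ℕ) (B : ∀ k, Fin (n (k + 1)) → Fin (n k) → (x : V) → 𝓐.A.St x)
    (hB : ∀ k, MAt 𝓐 (B k) (cbox κ c r R)) :
    ∃ (g : ℕ → ℕ) (C : ∀ k, Fin (g k) → Fin (g (k + 1)) → (x : V) → 𝓐.A.St x)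
      (W : Fin (n (d + 1)) → Fin (g 1) → (x : V) → 𝓐.A.St x),
      (∀ k, MAt 𝓐 (C k) (cbox κ c r R)) ∧ MAt 𝓐 W (cbox κ c r R) ∧
      ∀ x ∈ cbox κ c r R, IsResExt d n (fB 𝓐 B x) g (fC 𝓐 C x) (fm 𝓐 W x) := by
  obtain ⟨n', C, ⟨W, hW, h1, h4⟩, h3⟩ := exists_seq
    (T := fun a b => {X : Fin a → Fin b → (x : V) → 𝓐.A.St x // MAt 𝓐 X (cbox κ c r R)})
    (fun {a b c'} X Y => ∀ x ∈ cbox κ c r R, ∀ v, fm 𝓐 X.1 x *ᵥ v = 0 ↔
      ∃ u, fm 𝓐 Y.1 x *ᵥ u = v)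
    (fun a b X => by
      obtain ⟨p, Y, hY, h⟩ := exists_cols_box 𝓐 hrR hK X.1 X.2
      exact ⟨p, ⟨Y, hY⟩, h⟩)
    (fun a b X => ∃ W : Fin (n (d + 1)) → Fin a → (x : V) → 𝓐.A.St x, MAt 𝓐 W (cbox κ c r R) ∧
      (∀ x ∈ cbox κ c r R, ∀ v, fm 𝓐 (B (d + 1)) x *ᵥ v = 0 ↔ ∃ u, fm 𝓐 W x *ᵥ u = v) ∧
      ∀ x ∈ cbox κ c r R, ∀ u, (∃ t, fm 𝓐 W x *ᵥ u = fm 𝓐 (B d) x *ᵥ t) ↔
        ∃ v, fm 𝓐 X.1 x *ᵥ v = u) (by
      obtain ⟨a, W, hW, hW'⟩ := exists_cols_box 𝓐 hrR hK (B (d + 1)) (hB (d + 1))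
      obtain ⟨b, X, hX, hX'⟩ := exists_pull_box 𝓐 hrR hK W hW (B d) (hB d)
      exact ⟨a, b, ⟨X, hX⟩, W, hW, hW', hX'⟩)
  refine ⟨shiftN n', shiftCF 𝓐 (fun k => (C k).1), W, ?_, hW, fun x hx => ?_⟩
  · rintro (_ | k)
    · exact fun j => j.elim0
    · exact (C k).2
  · exact
    { zero := rfl
      cocycle := mat_ext_col fun v => by
        rw [← Matrix.mulVec_mulVec, Matrix.zero_mulVec]
        exact (h1 x hx _).2 ⟨v, rfl⟩
      surj := fun w hw => by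
        obtain ⟨u, hu⟩ := (h1 x hx w).1 hw
        refine ⟨u, 0, ?_⟩
        rw [Matrix.mulVec_zero, add_zero]
        exact hu
      ker := h4 x hx
      exact := fun k hk => by
        obtain ⟨k, rfl⟩ : ∃ l, k = l + 1 := ⟨k - 1, by omega⟩
        exact h3 k x hx }

/-- recursive choice of the families `W` -/
noncomputable def wRecF (K : Set V) (d : ℕ) (n : ℕ → ℕ)
    (B : ∀ k, Fin (n (k + 1)) → Fin (n k) → (x : V) → 𝓐.A.St x) (g : ℕ → ℕ)
    (C : ∀ k, Fin (g k) → Fin (g (k + 1)) → (x : V) → 𝓐.A.St x)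
    (W1 : Fin (n (d + 1)) → Fin (g 1) → (x : V) → 𝓐.A.St x) :
    ∀ k j, j + k = d + 2 → (Fin (n j) → Fin (g k) → (x : V) → 𝓐.A.St x)
  | 0, _, _ => fun _ _ _ => 0
  | 1, j, h => (show j = d + 1 by omega) ▸ W1
  | (k + 2), j, _ => Classical.epsilon fun X => MAt 𝓐 X K ∧ ∀ x ∈ K,
      fm 𝓐 (B j) x * fm 𝓐 X x =
        fm 𝓐 (wRecF K d n B g C W1 (k + 1) (j + 1) (by omega)) x * fm 𝓐 (C (k + 1)) x

omit [FiniteDimensional ℂ V] in
theorem mat_mul {K : Set V} (hK : K ⊆ 𝓐.A.dom) {a b c' : ℕ}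
    {X : Fin a → Fin b → (x : V) → 𝓐.A.St x} (hX : MAt 𝓐 X K)
    {Y : Fin b → Fin c' → (x : V) → 𝓐.A.St x} (hY : MAt 𝓐 Y K) :
    MAt 𝓐 (fun i j x => (fm 𝓐 X x * fm 𝓐 Y x) i j) K := by
  intro i j x hx
  have := 𝓐.A.sum Finset.univ (s := fun (l : Fin b) y => X i l y * Y l j y) (hK hx)
    (fun l _ => 𝓐.A.mul (hX i l x hx) (hY l j x hx))
  refine 𝓐.A.congr this (Eventually.of_forall fun y => ?_)
  simp [Matrix.mul_apply, fm, Finset.sum_apply]

/-- the families `W` near a closed box -/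
theorem exists_W_box (hrR : GoodRadii r R) (hK : cbox κ c r R ⊆ 𝓐.A.dom) {d : ℕ}
    {n : ℕ → ℕ} {B : ∀ k, Fin (n (k + 1)) → Fin (n k) → (x : V) → 𝓐.A.St x}
    (hB : ∀ k, MAt 𝓐 (B k) (cbox κ c r R)) {g : ℕ → ℕ}
    {C : ∀ k, Fin (g k) → Fin (g (k + 1)) → (x : V) → 𝓐.A.St x}
    (hC : ∀ k, MAt 𝓐 (C k) (cbox κ c r R)) {W1 : Fin (n (d + 1)) → Fin (g 1) → (x : V) → 𝓐.A.St x}
    (hW1 : MAt 𝓐 W1 (cbox κ c r R))
    (h : ∀ x ∈ cbox κ c r R, IsResExt d n (fB 𝓐 B x) g (fC 𝓐 C x) (fm 𝓐 W1 x))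
    (hex : ∀ x ∈ cbox κ c r R, ∀ j < d, ColEx (fB 𝓐 B x) j) :
    ∃ W : ∀ j k, j + k = d + 2 → (Fin (n j) → Fin (g k) → (x : V) → 𝓐.A.St x),
      (∀ j k h, MAt 𝓐 (W j k h) (cbox κ c r R)) ∧ W (d + 1) 1 (by omega) = W1 ∧
      ∀ x ∈ cbox κ c r R, ∀ j k (h : j + k = d + 1),
        fm 𝓐 (W (j + 1) k (by omega)) x * fC 𝓐 C x k =
          fB 𝓐 B x j * fm 𝓐 (W j (k + 1) (by omega)) x := by
  let W := fun k j h => wRecF 𝓐 (cbox κ c r R) d n B g C W1 k j h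
  have key : ∀ k j (h : j + k = d + 1), MAt 𝓐 (W k (j + 1) (by omega)) (cbox κ c r R) ∧
      MAt 𝓐 (W (k + 1) j (by omega)) (cbox κ c r R) ∧ ∀ x ∈ cbox κ c r R,
        fm 𝓐 (W k (j + 1) (by omega)) x * fC 𝓐 C x k =
          fB 𝓐 B x j * fm 𝓐 (W (k + 1) j (by omega)) x := by
    intro k
    induction k with
    | zero =>
      intro j hj
      obtain rfl : j = d + 1 := by omega
      have e : W 1 (d + 1) (by omega) = W1 := rfl
      refine ⟨fun _ _ x hx => 𝓐.A.zero x (hK hx), by rw [e]; exact hW1, fun x hx => ?_⟩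
      rw [e]
      have : fm 𝓐 (W 0 (d + 1 + 1) (by omega)) x = 0 := rfl
      rw [this, Matrix.zero_mul]
      exact (h x hx).cocycle.symm
    | succ k ih =>
      intro j hj
      obtain ⟨-, ih2, ih3⟩ := ih (j + 1) (by omega)
      have key : ∃ X : Fin (n j) → Fin (g (k + 2)) → (x : V) → 𝓐.A.St x,
          MAt 𝓐 X (cbox κ c r R) ∧ ∀ x ∈ cbox κ c r R, fm 𝓐 (B j) x * fm 𝓐 X x =
            fm 𝓐 (wRecF 𝓐 (cbox κ c r R) d n B g C W1 (k + 1) (j + 1) (by omega)) x *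
              fm 𝓐 (C (k + 1)) x := by
        refine exists_col_lift_box 𝓐 hrR hK (fun i l x =>
          (fm 𝓐 (wRecF 𝓐 (cbox κ c r R) d n B g C W1 (k + 1) (j + 1) (by omega)) x *
              fm 𝓐 (C (k + 1)) x) i l) (mat_mul 𝓐 hK ih2 (hC (k + 1))) (B j) (hB j) ?_
        intro x hx v
        change ∃ u, fB 𝓐 B x j *ᵥ u = (fm 𝓐 (W (k + 1) (j + 1) (by omega)) x *
              fC 𝓐 C x (k + 1)) *ᵥ v
        rcases Nat.eq_zero_or_pos k with rfl | hk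
        · obtain rfl : j = d := by omega
          have : W (0 + 1) (j + 1) (by omega) = W1 := rfl
          rw [this, ← Matrix.mulVec_mulVec]
          obtain ⟨t, ht⟩ := ((h x hx).ker _).2 ⟨v, rfl⟩
          exact ⟨t, ht.symm⟩
        · refine hex x hx j (by omega) _ ?_
          have e := ih3 x hx
          rw [Matrix.mulVec_mulVec, ← Matrix.mul_assoc, ← e, Matrix.mul_assoc,
            (h x hx).mul_eq_zero, Matrix.mul_zero, Matrix.zero_mulVec]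
      have := Classical.epsilon_spec key
      exact ⟨ih2, this.1, fun x hx => (this.2 x hx).symm⟩
  refine ⟨fun j k h => W k j h, fun j k h => ?_, rfl, fun x hx j k h => (key k j h).2.2 x hx⟩
  rcases Nat.eq_zero_or_pos k with rfl | hk
  · exact fun _ _ x hx => 𝓐.A.zero x (hK hx)
  · obtain ⟨k, rfl⟩ : ∃ l, k = l + 1 := ⟨k - 1, by omega⟩
    exact (key k j (by omega)).2.1

end Pool.Agent.DQ
end
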