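import Pool.Agent.Lib.MP_4aa2a9_ag.Mg.G032
import Pool.Agent.Lib.MP_4aa2a9_ag.Mg.G030
import Pool.Agent.Lib.MP_4aa2a9_ag.Mg.G035

section

/-! M34, sections modulo `ħ ^ (m₀ + 1)`, part 2: the sections `JK`. -/

set_option autoImplicit false
set_option linter.unusedSectionVars false

open Set Filter Topology

universe u v w

namespace Pool.Agent.DQ

variable {V : Type} [NormedAddCommGroup V] [NormedSpace ℂ V] [FiniteDimensional ℂ V] {k d : ℕ}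
  {𝓐 : Defo.{0, v} V} {M : EMod.{0, v, w} 𝓐.A} {M₀ : EMod.{0, 0, w} (O V)}
  {ρ : ∀ x, M.St x → M₀.St x} {Y : Set V} {σ : Sit V k d} {T₀ T T' : Set (Fin k → ℂ)}
  {M₀' : EMod.{0, 0, 0} (O V)} {θ : ∀ x, M₀'.St x → M₀.St x} {m₀ : ℕ}

/-- `s'`, a section of `M₀'` over `KO T`, is (on the shell) the reduction of a section modulo `ħ ^ m` -/
def JK (𝓐 : Defo.{0, v} V) (M : EMod.{0, v, w} 𝓐.A) (M₀ : EMod.{0, 0, w} (O V))
    (ρ : ∀ x, M.St x → M₀.St x) (σ : Sit V k d) (M₀' : EMod.{0, 0, 0} (O V))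
    (θ : ∀ x, M₀'.St x → M₀.St x) (m : ℕ) (T : Set (Fin k → ℂ)) (s' : (x : V) → M₀'.St x) :
    Prop := M₀'.On s' (σ.KO T) ∧ JJ 𝓐 M M₀ ρ σ m T fun x => θ x (s' x)

variable {s s' : (x : V) → M₀'.St x}

theorem JK.mono {m : ℕ} (h : JK 𝓐 M M₀ ρ σ M₀' θ m T s) (hT : T' ⊆ T) :
    JK 𝓐 M M₀ ρ σ M₀' θ m T' s := ⟨h.1.mono (σ.KO_mono hT), h.2.mono hT⟩

private theorem mem_shell (hT : T ⊆ T₀) {x : V} (hx : x ∈ σ.Q1 T ∪ σ.Q2 T) :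
    x ∈ σ.Q1c T₀ ∪ σ.Q2c T₀ := by
  rcases hx with hx | hx
  · exact Or.inl (σ.Q1c_mono hT (σ.Q1_sub_Q1c hx))
  · exact Or.inr (σ.Q2c_mono hT (σ.Q2_sub_Q2c hx))

private theorem KO_dom' (hext : Ext0 M₀ σ T₀ M₀' θ) (hT : T ⊆ T₀) : σ.KO T ⊆ M₀'.dom :=
  fun x hx => (hext.coh x (σ.KO_sub_KC (σ.KO_mono hT hx))).self_of_nhds.1

/-- Proof: `jj_add`, `JJ.congr` with `hext.add`. -/
theorem JK.add (hm : Main 𝓐 M M₀ ρ Y σ T₀) (hext : Ext0 M₀ σ T₀ M₀' θ) (hT : T ⊆ T₀) {m : ℕ}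
    (h : JK 𝓐 M M₀ ρ σ M₀' θ m T s) (h' : JK 𝓐 M M₀ ρ σ M₀' θ m T s') :
    JK 𝓐 M M₀ ρ σ M₀' θ m T fun x => s x + s' x :=
  ⟨h.1.add h'.1, (hm.jj_add hT h.2 h'.2).congr fun x hx =>
    (hext.add x (mem_shell hT hx) _ _).symm⟩

/-- Proof: `jj_smul`, `JJ.congr` with `hext.smul`. -/
theorem JK.smul (hm : Main 𝓐 M M₀ ρ Y σ T₀) (hext : Ext0 M₀ σ T₀ M₀' θ) (hTo : IsOpen T)
    (hT : T ⊆ T₀) {m : ℕ} (h : JK 𝓐 M M₀ ρ σ M₀' θ m T s) {f : V → ℂ}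
    (hf : HolNear f (σ.KO T)) : JK 𝓐 M M₀ ρ σ M₀' θ m T fun x => om f x • s x :=
  ⟨h.1.smul hf, (hm.jj_smul hTo hT h.2 hf).congr fun x hx =>
    (hext.smul x (mem_shell hT hx) _ _).symm⟩

theorem JK.zero (hm : Main 𝓐 M M₀ ρ Y σ T₀) (hext : Ext0 M₀ σ T₀ M₀' θ) (hT : T ⊆ T₀) {m : ℕ} :
    JK 𝓐 M M₀ ρ σ M₀' θ m T 0 := by
  refine ⟨fun x hx => M₀'.zero x (KO_dom' hext hT hx), (hm.jj_zero hT).congr fun x hx => ?_⟩
  change (0 : M₀.St x) = θ x 0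
  have h1 := hext.add x (mem_shell hT hx) 0 0
  rw [add_zero] at h1
  exact (left_eq_add.1 h1).symm

/-- finite combinations. Proof: induction, or `jj_comb` with `Ext0.comb`. -/
theorem JK.comb (hm : Main 𝓐 M M₀ ρ Y σ T₀) (hext : Ext0 M₀ σ T₀ M₀' θ) (hTo : IsOpen T)
    (hT : T ⊆ T₀) {m n : ℕ} {g : Fin n → (x : V) → M₀'.St x}
    (h : ∀ i, JK 𝓐 M M₀ ρ σ M₀' θ m T (g i)) {f : Fin n → V → ℂ}
    (hf : ∀ i, HolNear (f i) (σ.KO T)) :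
    JK 𝓐 M M₀ ρ σ M₀' θ m T fun x => ∑ i, om (f i) x • g i x :=
  ⟨EMod.On.comb (KO_dom' hext hT) (fun i => (h i).1) hf,
    (hm.jj_comb hTo hT (fun i => (h i).2) hf).congr fun x hx =>
      (hext.comb (mem_shell hT hx) (fun i => om (f i) x) fun i => g i x).symm⟩

end Pool.Agent.DQ
end

section

/-! M34, direct images to the `t`-space: sections. -/

set_option autoImplicit false
set_option linter.unusedSectionVars false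

open Set Filter Topology

universe u v w

namespace Pool.Agent.DQ

variable {V : Type} [NormedAddCommGroup V] [NormedSpace ℂ V] [FiniteDimensional ℂ V] {k d : ℕ}

namespace Sit

variable (σ : Sit V k d) (F : EMod.{0, 0, 0} (O V)) {t : Fin k → ℂ} {s s' : (x : V) → F.St x}

/-- the section of the direct image given by a section of `F` near the fibre -/
noncomputable def sec (s : (x : V) → F.St x) (t : Fin k → ℂ) : (σ.ps F).St t :=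
  F.pushSec σ.fe σ.FD σ.FD_compact s t

variable {F}

theorem on_fib (hs : F.On s (σ.KC {t})) : F.On s (fib σ.fe σ.FD t) := by
  rw [fib_eq]
  exact hs

theorem sec_eq_of (m : (σ.ps F).St t) (hs : F.On s (σ.KC {t}))
    (h : ∀ x (hx : x ∈ fib σ.fe σ.FD t), F.pushVal σ.fe σ.FD σ.FD_compact t m x hx = s x) :
    σ.sec F s t = m :=
  F.push_ext σ.fe σ.FD σ.FD_compact t _ _ fun x hx => by
    rw [sec, F.pushVal_pushSec σ.fe σ.FD σ.FD_compact (σ.on_fib hs) x hx, h x hx]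

theorem sec_congr (hs : F.On s (σ.KC {t})) (hs' : F.On s' (σ.KC {t}))
    (h : ∀ x ∈ σ.KC {t}, s x = s' x) : σ.sec F s t = σ.sec F s' t := by
  refine σ.sec_eq_of _ hs fun x hx => ?_
  rw [sec, F.pushVal_pushSec σ.fe σ.FD σ.FD_compact (σ.on_fib hs') x hx]
  exact (h x (by rw [← fib_eq]; exact hx)).symm

theorem sec_add (hs : F.On s (σ.KC {t})) (hs' : F.On s' (σ.KC {t})) :
    σ.sec F (fun x => s x + s' x) t = σ.sec F s t + σ.sec F s' t := by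
  refine σ.sec_eq_of _ (hs.add hs') fun x hx => ?_
  have h1 := F.pushVal_add σ.fe σ.FD σ.FD_compact t (σ.sec F s t) (σ.sec F s' t) x hx
  refine h1.trans ?_
  rw [sec, sec, F.pushVal_pushSec σ.fe σ.FD σ.FD_compact (σ.on_fib hs) x hx,
    F.pushVal_pushSec σ.fe σ.FD σ.FD_compact (σ.on_fib hs') x hx]

theorem sec_smul {f : (Fin k → ℂ) → ℂ} (hf : HolAt f t) (hs : F.On s (σ.KC {t})) :
    σ.sec F (fun x => om (σ.ft f) x • s x) t = om f t • σ.sec F s t := by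
  have h0 : F.On (fun x => om (σ.ft f) x • s x) (σ.KC {t}) :=
    hs.smul fun x hx => σ.holAt_ft (by
      rw [mem_KC] at hx
      rw [mem_singleton_iff.1 hx.1]
      exact hf)
  refine σ.sec_eq_of _ h0 fun x hx => ?_
  have h1 := F.pushVal_smul_om σ.fe σ.FD σ.FD_compact t hf (σ.sec F s t) x hx
  refine h1.trans ?_
  rw [sec, F.pushVal_pushSec σ.fe σ.FD σ.FD_compact (σ.on_fib hs) x hx]
  rfl

theorem sec_eq_iff (hs : F.On s (σ.KC {t})) (hs' : F.On s' (σ.KC {t})) :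
    σ.sec F s t = σ.sec F s' t ↔ ∀ x ∈ σ.KC {t}, s x = s' x := by
  refine ⟨fun h x hx => ?_, σ.sec_congr hs hs'⟩
  have hx' : x ∈ fib σ.fe σ.FD t := by
    rw [fib_eq]
    exact hx
  rw [← F.pushVal_pushSec σ.fe σ.FD σ.FD_compact (σ.on_fib hs) x hx',
    ← F.pushVal_pushSec σ.fe σ.FD σ.FD_compact (σ.on_fib hs') x hx']
  exact congrArg (fun m => F.pushVal σ.fe σ.FD σ.FD_compact t m x hx') h

theorem sec_zero (ht : σ.KC {t} ⊆ F.dom) : σ.sec F 0 t = 0 := by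
  refine σ.sec_eq_of _ (fun x hx => F.zero x (ht hx)) fun x hx => ?_
  exact F.pushVal_zero σ.fe σ.FD σ.FD_compact t x hx

theorem sec_eq_zero_iff (hs : F.On s (σ.KC {t})) :
    σ.sec F s t = 0 ↔ ∀ x ∈ σ.KC {t}, s x = 0 := by
  have h1 : σ.KC {t} ⊆ F.dom := fun x hx => F.mem_dom (hs x hx)
  rw [← σ.sec_zero h1, σ.sec_eq_iff hs (fun x hx => F.zero x (h1 hx))]
  rfl

theorem sec_comb {n : ℕ} {f : Fin n → (Fin k → ℂ) → ℂ} {g : Fin n → (x : V) → F.St x}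
    (ht : σ.KC {t} ⊆ F.dom) (hf : ∀ i, HolAt (f i) t) (hg : ∀ i, F.On (g i) (σ.KC {t})) :
    σ.sec F (fun x => ∑ i, om (σ.ft (f i)) x • g i x) t = ∑ i, om (f i) t • σ.sec F (g i) t := by
  have hf' : ∀ i, HolNear (σ.ft (f i)) (σ.KC {t}) := fun i x hx => σ.holAt_ft (by
    rw [mem_KC] at hx
    rw [mem_singleton_iff.1 hx.1]
    exact hf i)
  refine σ.sec_eq_of _ (EMod.On.comb ht hg hf') fun x hx => ?_
  have h1 := F.pushVal_sum σ.fe σ.FD σ.FD_compact Finset.univ t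
    (fun i => om (f i) t • σ.sec F (g i) t) x hx
  refine h1.trans (Finset.sum_congr rfl fun i _ => ?_)
  have h2 := F.pushVal_smul_om σ.fe σ.FD σ.FD_compact t (hf i) (σ.sec F (g i) t) x hx
  refine h2.trans ?_
  rw [sec, F.pushVal_pushSec σ.fe σ.FD σ.FD_compact (σ.on_fib (hg i)) x hx]
  rfl

theorem sec_at (hs : F.On s (σ.KC {t})) : (σ.ps F).At (σ.sec F s) t :=
  F.pushSec_at σ.fe σ.FD σ.FD_compact (σ.on_fib hs)

theorem exists_sec (ht : σ.KC {t} ⊆ F.dom) (m : (σ.ps F).St t) :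
    ∃ s : (x : V) → F.St x, F.On s (σ.KC {t}) ∧ σ.sec F s t = m := by
  obtain ⟨s, hs, h⟩ := F.exists_pushSec σ.fe σ.FD σ.FD_compact (t := t)
    (by rw [fib_eq]; exact ht) m
  refine ⟨s, ?_, h⟩
  rw [← fib_eq]
  exact hs

end Sit

end Pool.Agent.DQ
end

section

/-! M34, sections modulo `ħ ^ (m₀ + 1)`, part 3: finitely many generators modulo `(ωw ^ m₀, ωz ^ m₀)`. -/

set_option autoImplicit false
set_option linter.unusedSectionVars false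

open Set Filter Topology

universe u v w

namespace Pool.Agent.DQ

variable {V : Type} [NormedAddCommGroup V] [NormedSpace ℂ V] [FiniteDimensional ℂ V] {k d : ℕ}
  {𝓐 : Defo.{0, v} V} {M : EMod.{0, v, w} 𝓐.A} {M₀ : EMod.{0, 0, w} (O V)}
  {ρ : ∀ x, M.St x → M₀.St x} {Y : Set V} {σ : Sit V k d} {T₀ T T' : Set (Fin k → ℂ)}
  {M₀' : EMod.{0, 0, 0} (O V)} {θ : ∀ x, M₀'.St x → M₀.St x} {m₀ : ℕ}

namespace KD

variable (K : KD M₀' σ T₀)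

private theorem KO_fib {t : Fin k → ℂ} {x : V} (hx : x ∈ σ.KC {t}) (ht' : t ∈ T')
    (h : x ∈ σ.KO T) : x ∈ σ.KO T' := by
  rw [σ.mem_KC, mem_singleton_iff] at hx
  rw [σ.mem_KO] at h ⊢
  exact ⟨hx.1 ▸ ht', h.2⟩

/-- the value over the fibre does not depend on the open set -/
private theorem sx_fib {t : Fin k → ℂ} {x : V} (hx : x ∈ σ.KC {t}) (ht : t ∈ T) (ht' : t ∈ T')
    (m₀ : ℕ) (s' : (x : V) → M₀'.St x) : K.sx m₀ T s' x = K.sx m₀ T' s' x := by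
  by_cases h : x ∈ σ.KO T
  · rw [K.sx_eq h, K.sx_eq (KO_fib hx ht' h)]
  · have h' : x ∉ σ.KO T' := fun h1 => h (KO_fib hx ht h1)
    rw [sx, sx, if_neg h, if_neg h']

private theorem sx_add' {x : V} (m₀ : ℕ) (s s' : (x : V) → M₀'.St x) :
    K.sx m₀ T (fun x => s x + s' x) x = K.sx m₀ T s x + K.sx m₀ T s' x := by
  by_cases h : x ∈ σ.KO T
  · rw [K.sx_eq h, K.sx_eq h, K.sx_eq h]
    exact map_add _ _ _
  · rw [sx, sx, sx, if_neg h, if_neg h, if_neg h]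
    exact (add_zero _).symm

private theorem sx_smul' {x : V} (m₀ : ℕ) (f : V → ℂ) (s : (x : V) → M₀'.St x) :
    K.sx m₀ T (fun x => om f x • s x) x = om f x • K.sx m₀ T s x := by
  by_cases h : x ∈ σ.KO T
  · rw [K.sx_eq h, K.sx_eq h]
    exact map_smul _ _ _
  · rw [sx, sx, if_neg h, if_neg h]
    exact (smul_zero _).symm

private theorem sx_zero' {x : V} (m₀ : ℕ) : K.sx m₀ T 0 x = 0 := by
  by_cases h : x ∈ σ.KO T
  · rw [K.sx_eq h]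
    exact map_zero _
  · rw [sx, if_neg h]

/-- **finitely many generators.** Proof: the germs `σ.sec (K.S m₀) (K.sx m₀ T s') t₀` of the `s'` with
`JK (m₀+1) T s'`, `T` an open neighbourhood of `t₀` in `K.P₁.T`, form a submodule of `(σ.ps (K.S m₀)).St t₀`
(`JK.add`, `JK.smul` on intersections; `Sit.sec_add`, `Sit.sec_smul`, `Sit.sec_congr`, `sx_on`), which is finitely generated
(`K.ps_cohAt` at `t₀`, `EMod.CohAt.isNoetherian`). Intersect the finitely many neighbourhoods. -/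
theorem exists_r (hm : Main 𝓐 M M₀ ρ Y σ T₀) (hext : Ext0 M₀ σ T₀ M₀' θ) (m₀ : ℕ) :
    ∃ (n : ℕ) (r : Fin n → (x : V) → M₀'.St x) (T₃ : Set (Fin k → ℂ)), IsOpen T₃ ∧ σ.t₀ ∈ T₃ ∧
      T₃ ⊆ K.P₁.T ∧ (∀ i, JK 𝓐 M M₀ ρ σ M₀' θ (m₀ + 1) T₃ (r i)) ∧
      ∀ T, IsOpen T → σ.t₀ ∈ T → T ⊆ K.P₁.T → ∀ s', JK 𝓐 M M₀ ρ σ M₀' θ (m₀ + 1) T s' →
        σ.sec (K.S m₀) (K.sx m₀ T s') σ.t₀ ∈ Submodule.span ((O (Fin k → ℂ)).St σ.t₀)
          (range fun i => σ.sec (K.S m₀) (K.sx m₀ T₃ (r i)) σ.t₀) := by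
  have hPT₀ : K.P₁.T ⊆ T₀ := K.P₁.sub.trans K.P₁_sub
  -- the sections near the central fibre
  have hon : ∀ {T : Set (Fin k → ℂ)}, IsOpen T → σ.t₀ ∈ T → T ⊆ K.P₁.T →
      ∀ {s' : (x : V) → M₀'.St x}, JK 𝓐 M M₀ ρ σ M₀' θ (m₀ + 1) T s' →
      (K.S m₀).On (K.sx m₀ T s') (σ.KC {σ.t₀}) := by
    intro T hT ht hTP s' hs
    exact (K.sx_on hext hT hTP hs.1).mono (σ.KC_mono34 (singleton_subset_iff.2 ht))
  let N : Submodule ((O (Fin k → ℂ)).St σ.t₀) ((σ.ps (K.S m₀)).St σ.t₀) :=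
    { carrier := {g | ∃ T, IsOpen T ∧ σ.t₀ ∈ T ∧ T ⊆ K.P₁.T ∧
        ∃ s', JK 𝓐 M M₀ ρ σ M₀' θ (m₀ + 1) T s' ∧ σ.sec (K.S m₀) (K.sx m₀ T s') σ.t₀ = g}
      add_mem' := by
        rintro _ _ ⟨T, hT, ht, hTP, s, hs, rfl⟩ ⟨T', hT', ht', hTP', s', hs', rfl⟩
        have hTT : T ∩ T' ⊆ K.P₁.T := inter_subset_left.trans hTP
        have hj : JK 𝓐 M M₀ ρ σ M₀' θ (m₀ + 1) (T ∩ T') fun x => s x + s' x :=
          JK.add hm hext (hTT.trans hPT₀) (hs.mono inter_subset_left)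
            (hs'.mono inter_subset_right)
        refine ⟨T ∩ T', hT.inter hT', ⟨ht, ht'⟩, hTT, _, hj, ?_⟩
        rw [← σ.sec_add (hon hT ht hTP hs) (hon hT' ht' hTP' hs')]
        refine σ.sec_congr (hon (hT.inter hT') ⟨ht, ht'⟩ hTT hj)
          ((hon hT ht hTP hs).add (hon hT' ht' hTP' hs')) fun x hx => ?_
        rw [K.sx_add', K.sx_fib hx (show σ.t₀ ∈ T ∩ T' from ⟨ht, ht'⟩) ht,
          K.sx_fib hx (show σ.t₀ ∈ T ∩ T' from ⟨ht, ht'⟩) ht']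
      zero_mem' := by
        have hj : JK 𝓐 M M₀ ρ σ M₀' θ (m₀ + 1) K.P₁.T 0 := JK.zero hm hext hPT₀
        refine ⟨K.P₁.T, K.P₁.isOpen, K.P₁.mem, subset_rfl, 0, hj, ?_⟩
        rw [σ.sec_eq_zero_iff (hon K.P₁.isOpen K.P₁.mem subset_rfl hj)]
        exact fun x _ => K.sx_zero' m₀
      smul_mem' := by
        rintro a _ ⟨T, hT, ht, hTP, s, hs, rfl⟩
        obtain ⟨f, hf, rfl⟩ := exists_gm a
        obtain ⟨U, hU, hU1, hU2⟩ := hf.exists_set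
        have hTT : T ∩ U ⊆ K.P₁.T := inter_subset_left.trans hTP
        have hj : JK 𝓐 M M₀ ρ σ M₀' θ (m₀ + 1) (T ∩ U) fun x => om (σ.ft f) x • s x :=
          JK.smul hm hext (hT.inter hU) (hTT.trans hPT₀) (hs.mono inter_subset_left)
            (σ.ft_near (hU2.mono inter_subset_right))
        refine ⟨T ∩ U, hT.inter hU, ⟨ht, hU1⟩, hTT, _, hj, ?_⟩
        have h1 := σ.sec_smul hf (hon hT ht hTP hs)
        refine Eq.trans ?_ h1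
        refine σ.sec_congr (hon (hT.inter hU) ⟨ht, hU1⟩ hTT hj)
          ((hon hT ht hTP hs).smul fun x hx => σ.holAt_ft ?_) fun x hx => ?_
        · rw [σ.mem_KC, mem_singleton_iff] at hx
          rw [hx.1]
          exact hf
        · rw [K.sx_smul', K.sx_fib hx (show σ.t₀ ∈ T ∩ U from ⟨ht, hU1⟩) ht] }
  have hnoeth : IsNoetherian ((O (Fin k → ℂ)).St σ.t₀) ((σ.ps (K.S m₀)).St σ.t₀) :=
    (K.ps_cohAt hext K.P₁.mem).isNoetherian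
  obtain ⟨n, g, hg⟩ := Submodule.fg_iff_exists_fin_generating_family.1 (hnoeth.noetherian N)
  have hgN : ∀ i, g i ∈ N := fun i => hg ▸ Submodule.subset_span (mem_range_self i)
  choose T hT ht hTP r hr hrg using hgN
  refine ⟨n, r, K.P₁.T ∩ ⋂ i, T i, K.P₁.isOpen.inter (isOpen_iInter_of_finite hT),
    ⟨K.P₁.mem, mem_iInter.2 ht⟩, inter_subset_left, fun i => (hr i).mono
      (inter_subset_right.trans (iInter_subset _ i)), fun T' hT' ht' hTP' s' hs' => ?_⟩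
  have h1 : σ.sec (K.S m₀) (K.sx m₀ T' s') σ.t₀ ∈ N := ⟨T', hT', ht', hTP', s', hs', rfl⟩
  have h2 : (fun i => σ.sec (K.S m₀) (K.sx m₀ (K.P₁.T ∩ ⋂ i, T i) (r i)) σ.t₀) = g := by
    funext i
    rw [← hrg i]
    refine σ.sec_congr (hon (K.P₁.isOpen.inter (isOpen_iInter_of_finite hT))
      ⟨K.P₁.mem, mem_iInter.2 ht⟩ inter_subset_left ((hr i).mono
        (inter_subset_right.trans (iInter_subset _ i)))) (hon (hT i) (ht i) (hTP i) (hr i))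
      fun x hx => K.sx_fib hx (show σ.t₀ ∈ K.P₁.T ∩ ⋂ i, T i from
        ⟨K.P₁.mem, mem_iInter.2 ht⟩) (ht i) m₀ (r i)
  rw [h2, hg]
  exact h1

end KD

end Pool.Agent.DQ
end

section

/-! M34, sections modulo `ħ ^ (m₀ + 1)`, part 4: good polydiscs. -/

set_option autoImplicit false
set_option linter.unusedSectionVars false

open Set Filter Topology

universe u v w

namespace Pool.Agent.DQ

variable {V : Type} [NormedAddCommGroup V] [NormedSpace ℂ V] [FiniteDimensional ℂ V] {k d : ℕ}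
  {𝓐 : Defo.{0, v} V} {M : EMod.{0, v, w} 𝓐.A} {M₀ : EMod.{0, 0, w} (O V)}
  {ρ : ∀ x, M.St x → M₀.St x} {Y : Set V} {σ : Sit V k d} {T₀ T T' : Set (Fin k → ℂ)}
  {M₀' : EMod.{0, 0, 0} (O V)} {θ : ∀ x, M₀'.St x → M₀.St x} {m₀ : ℕ}

namespace KD

variable (K : KD M₀' σ T₀)

private theorem S_coh {S : Set V} (hext : Ext0 M₀ σ T₀ M₀' θ) (hS : S ⊆ σ.KC K.P₁.Tc) (m₀ : ℕ) :
    (K.S m₀).Coh S := fun _ hx =>
  (K.S_cohAt hext (hS hx)).eventually (Eventually.of_forall fun y => O_relAt y)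

private theorem mem_span_of_mkQ {x : V} (hx : x ∈ σ.KC K.P₁.Tc) {a b : M₀'.St x}
    (h : (M₀'.spn (K.L m₀) x).mkQ a = (M₀'.spn (K.L m₀) x).mkQ b) :
    a - b ∈ Submodule.span ((O V).St x) (range fun i => K.L m₀ i x) := by
  rw [← M₀'.spn_eq (K.L m₀) fun i => K.L_on i x hx]
  exact (Submodule.Quotient.eq _).1 h

/-- **generation over good polydiscs.** Proof: `DivOn` for the section `σ.sec (K.S m₀) (K.sx m₀ P.T s')`
(`Sit.sec_at`, `sx_on`) of the direct image over `P.T` and the generators of `exists_r`; at every `t ∈ P.T`: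
`Sit.sec_comb`, `Sit.sec_eq_iff` give `sx s' x = ∑ om (σ.ft (b i)) x • sx (r i) x` for `x ∈ KC {t}`, hence
`s' x - ∑ om (σ.ft (b i)) x • r i x ∈ spn (K.L m₀) x` for `x ∈ KO P.T` (`sx_eq`, `EMod.spn_eq`); `IsBox.sub_comb` for
`σ.isBox_KO P.tb`. -/
theorem gen_r (hext : Ext0 M₀ σ T₀ M₀' θ) {n : ℕ} (r : Fin n → (x : V) → M₀'.St x)
    {T₃ : Set (Fin k → ℂ)} (hT₃ : IsOpen T₃) (hT₃' : T₃ ⊆ K.P₁.T)
    (hr : ∀ i, M₀'.On (r i) (σ.KO T₃)) (P : σ.Pd) (hP : P.Tc ⊆ T₃)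
    (hd : DivOn (σ.ps (K.S m₀)) (fun i => σ.sec (K.S m₀) (K.sx m₀ T₃ (r i))) σ.t₀ P.T P.Tc)
    {s' : (x : V) → M₀'.St x} (hs : M₀'.On s' (σ.KO P.T))
    (hs0 : σ.sec (K.S m₀) (K.sx m₀ P.T s') σ.t₀ ∈ Submodule.span ((O (Fin k → ℂ)).St σ.t₀)
      (range fun i => σ.sec (K.S m₀) (K.sx m₀ T₃ (r i)) σ.t₀)) :
    ∃ (b : Fin n → (Fin k → ℂ) → ℂ) (α : Fin (K.p + K.p) → V → ℂ), (∀ i, HolNear (b i) P.T) ∧
      (∀ i, HolNear (α i) (σ.KO P.T)) ∧ ∀ x ∈ σ.KO P.T,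
        s' x = ∑ i, om (σ.ft (b i)) x • r i x + ∑ i, om (α i) x • K.L m₀ i x := by
  have hPT : P.T ⊆ T₃ := P.sub.trans hP
  have hPP : P.T ⊆ K.P₁.T := hPT.trans hT₃'
  have hPc : σ.KC P.Tc ⊆ σ.KC K.P₁.Tc := σ.KC_mono34 ((hP.trans hT₃').trans K.P₁.sub)
  have hKO : σ.KO P.T ⊆ σ.KC K.P₁.Tc := σ.KO_sub_KC.trans ((σ.KC_mono34 P.sub).trans hPc)
  have hon1 : ∀ t ∈ P.T, (K.S m₀).On (K.sx m₀ P.T s') (σ.KC {t}) := fun t ht =>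
    (K.sx_on hext P.isOpen hPP hs).mono (σ.KC_mono34 (singleton_subset_iff.2 ht))
  have hon2 : ∀ i, ∀ t ∈ P.T, (K.S m₀).On (K.sx m₀ T₃ (r i)) (σ.KC {t}) := fun i t ht =>
    (K.sx_on hext hT₃ hT₃' (hr i)).mono (σ.KC_mono34 (singleton_subset_iff.2 (hPT ht)))
  have hdom : ∀ t ∈ P.T, σ.KC {t} ⊆ (K.S m₀).dom := fun t ht x hx =>
    (K.S m₀).mem_dom (hon1 t ht x hx)
  obtain ⟨b, hb, h1⟩ := hd.2 (σ.sec (K.S m₀) (K.sx m₀ P.T s'))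
    (fun t ht => σ.sec_at (hon1 t ht)) hs0
  have h2 : ∀ x ∈ σ.KO P.T,
      (M₀'.spn (K.L m₀) x).mkQ (s' x) =
        (M₀'.spn (K.L m₀) x).mkQ (∑ i, om (σ.ft (b i)) x • r i x) := by
    intro x hx
    have ht : σ.t x ∈ P.T := ((σ.mem_KO).1 hx).1
    have hxf : x ∈ σ.KC {σ.t x} := by
      have h3 := (σ.mem_KC).1 (σ.KO_sub_KC hx)
      exact (σ.mem_KC).2 ⟨rfl, h3.2⟩
    have h4 := h1 (σ.t x) ht
    rw [← σ.sec_comb (hdom _ ht) (fun i => hb i _ ht) (fun i => hon2 i _ ht)] at h4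
    have h5 := (σ.sec_eq_iff (hon1 _ ht) (EMod.On.comb (hdom _ ht) (fun i => hon2 i _ ht)
      fun i y hy => σ.holAt_ft (by
        rw [σ.mem_KC, mem_singleton_iff] at hy
        rw [hy.1]
        exact hb i _ ht))).1 h4 x hxf
    rw [K.sx_eq hx] at h5
    rw [h5, map_sum]
    refine Finset.sum_congr rfl fun i _ => ?_
    rw [K.sx_eq (σ.KO_mono hPT hx)]
    exact (map_smul _ _ _).symm
  obtain ⟨α, hα, h3⟩ := (σ.isBox_KO P.tb).sub_comb M₀'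
    (fun x hx => hext.coh x (σ.KC_mono34 (K.P₁_sub) (hPc hx))) (K.L m₀)
    (fun i => (K.L_on i).mono hPc) (fun x => s' x - ∑ i, om (σ.ft (b i)) x • r i x)
    (hs.sub (EMod.On.comb (fun x hx => M₀'.mem_dom (hs x hx))
      (fun i => (hr i).mono (σ.KO_mono hPT)) fun i => σ.ft_near (hb i)))
    (fun x hx => K.mem_span_of_mkQ (hKO hx) (h2 x hx))
  refine ⟨b, α, hb, hα, fun x hx => ?_⟩
  rw [← h3 x hx]
  abel

/-- **closed representatives.** Proof: `sx T₃ r` is a section of `K.S m₀` near `KC P.Tc` (`sx_on`, `P.Tc ⊆ T₃`);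
`IsBox.quot_lift` for `σ.isBox_KO P.tb` gives `j` near `KC P.Tc` with the same class; on `KO P.T`: `j x - r x` is in
`spn (K.L m₀) x`; `IsBox.sub_comb`. -/
theorem exists_closed (hext : Ext0 M₀ σ T₀ M₀' θ) {r : (x : V) → M₀'.St x}
    {T₃ : Set (Fin k → ℂ)} (hT₃ : IsOpen T₃) (hT₃' : T₃ ⊆ K.P₁.T)
    (hr : M₀'.On r (σ.KO T₃)) (P : σ.Pd) (hP : P.Tc ⊆ T₃) :
    ∃ (j : (x : V) → M₀'.St x) (α : Fin (K.p + K.p) → V → ℂ), M₀'.On j (σ.KC P.Tc) ∧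
      (∀ i, HolNear (α i) (σ.KO P.T)) ∧
      ∀ x ∈ σ.KO P.T, j x = r x + ∑ i, om (α i) x • K.L m₀ i x := by
  have hPT : P.T ⊆ T₃ := P.sub.trans hP
  have hPc : σ.KC P.Tc ⊆ σ.KC K.P₁.Tc := σ.KC_mono34 ((hP.trans hT₃').trans K.P₁.sub)
  have hKO : σ.KO P.T ⊆ σ.KC K.P₁.Tc := σ.KO_sub_KC.trans ((σ.KC_mono34 P.sub).trans hPc)
  have hcoh : M₀'.Coh (σ.KC P.Tc) := fun x hx => hext.coh x (σ.KC_mono34 (K.P₁_sub) (hPc hx))
  obtain ⟨j, hj, h1⟩ := (σ.isBox_KO P.tb).quot_lift M₀' hcoh (M₀'.spn (K.L m₀))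
    (M₀'.spn_open (K.L m₀)) (K.S_coh hext hPc m₀) (K.sx m₀ T₃ r)
    ((K.sx_on hext hT₃ hT₃' hr).mono (σ.KC_mono34 hP))
  have h2 : ∀ x ∈ σ.KO P.T,
      (M₀'.spn (K.L m₀) x).mkQ (j x) = (M₀'.spn (K.L m₀) x).mkQ (r x) := by
    intro x hx
    rw [h1 x (σ.KO_sub_KC.trans (σ.KC_mono34 P.sub) hx), K.sx_eq (σ.KO_mono hPT hx)]
  have hjO : M₀'.On j (σ.KO P.T) := EMod.On.mono hj (σ.KO_sub_KC.trans (σ.KC_mono34 P.sub))
  obtain ⟨α, hα, h3⟩ := (σ.isBox_KO P.tb).sub_comb M₀' hcoh (K.L m₀)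
    (fun i => (K.L_on i).mono hPc) (fun x => j x - r x)
    (hjO.sub (hr.mono (σ.KO_mono hPT)))
    (fun x hx => K.mem_span_of_mkQ (hKO hx) (h2 x hx))
  refine ⟨j, α, hj, hα, fun x hx => ?_⟩
  rw [← h3 x hx]
  abel

end KD

end Pool.Agent.DQ
end

section

/-! M34, sections over the shell: the relation between obstruction classes and reductions. -/

set_option autoImplicit false
set_option linter.unusedSectionVars false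

open Set Filter Topology

universe u v w

namespace Pool.Agent.DQ

variable {V : Type} [NormedAddCommGroup V] [NormedSpace ℂ V] [FiniteDimensional ℂ V] {k d : ℕ}
  {𝓐 : Defo.{0, v} V} {M : EMod.{0, v, w} 𝓐.A} {M₀ : EMod.{0, 0, w} (O V)}
  {ρ : ∀ x, M.St x → M₀.St x} {Y : Set V} {σ : Sit V k d} {T₀ T T' : Set (Fin k → ℂ)}

namespace Main

variable (hm : Main 𝓐 M M₀ ρ Y σ T₀)
include hm

variable {m : ℕ} {h h' s s' : (x : V) → M₀.St x} {x₁ x₂ y : (x : V) → M.St x}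

/-- division by `ħ` of a section of `M` over an open subset of `M.dom` whose reduction vanishes.
Proof: `hm.red.ker`, `Defo.div_mod` with `hm.tf`. -/
theorem div_of_ρ {S : Set V} (hS : IsOpen S) (hSM : S ⊆ M.dom) {x₁ : (x : V) → M.St x}
    (hx : M.On x₁ S) (h0 : ∀ x ∈ S, ρ x (x₁ x) = 0) :
    ∃ x₁' : (x : V) → M.St x, M.On x₁' S ∧ ∀ x ∈ S, x₁ x = 𝓐.hb x • x₁' x :=
  𝓐.div_mod hS hSM (fun x hx m hm' => hm.tf x (hSM hx) m hm') hx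
    fun x hx => (hm.red.ker x (hSM hx) _).mp (h0 x hx)

/-- lift of sections of `M₀` over `Q1 T`, for polydiscs `T`. Proof: `IsBox.lift` for `σ.isBox_Q1 B`,
`hm.refl.coh`, `hm.refl.tf`, `hm.Q1_dom hB`. -/
theorem lift_Q1 (B : TB k) (hB : B.Tc ⊆ T₀) (hs : M₀.On s (σ.Q1 B.T)) :
    ∃ x₁ : (x : V) → M.St x, M.On x₁ (σ.Q1 B.T) ∧ ∀ x ∈ σ.Q1 B.T, ρ x (x₁ x) = s x :=
  (σ.isBox_Q1 B).lift hm.red (fun x hx => hm.refl.coh x (hm.Q1_dom hB hx))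
    (fun x hx => hm.refl.tf x (hm.Q1_dom hB hx)) s hs

theorem lift_Q2 (B : TB k) (hB : B.Tc ⊆ T₀) (hs : M₀.On s (σ.Q2 B.T)) :
    ∃ x₁ : (x : V) → M.St x, M.On x₁ (σ.Q2 B.T) ∧ ∀ x ∈ σ.Q2 B.T, ρ x (x₁ x) = s x :=
  (σ.isBox_Q2 B).lift hm.red (fun x hx => hm.refl.coh x (hm.Q2_dom hB hx))
    (fun x hx => hm.refl.tf x (hm.Q2_dom hB hx)) s hs

/-- `J_1` is everything. Proof: `lift_Q1`, `lift_Q2`; on `Q12 = Q1 ∩ Q2` the difference reduces to `0`: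
`div_of_ρ`. -/
theorem jj_one (B : TB k) (hB : B.Tc ⊆ T₀) (hs : M₀.On s (σ.Q1 B.T ∪ σ.Q2 B.T)) :
    JJ 𝓐 M M₀ ρ σ 1 B.T s := by
  obtain ⟨x₁, h1, e1⟩ := hm.lift_Q1 B hB (s := s) (hs.mono subset_union_left)
  obtain ⟨x₂, h2, e2⟩ := hm.lift_Q2 B hB (s := s) (hs.mono subset_union_right)
  have hT : B.T ⊆ T₀ := B.sub.trans hB
  obtain ⟨y, hy, ey⟩ := hm.div_of_ρ (σ.isOpen_Q12 B.isOpen) (hm.Q12_dom' hT)
    ((h1.mono σ.Q12_sub_Q1).sub (h2.mono σ.Q12_sub_Q2)) fun x hx => by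
      rw [hm.red.map_sub (hm.Q12_dom' hT hx), e1 x (σ.Q12_sub_Q1 hx), e2 x (σ.Q12_sub_Q2 hx),
        sub_self]
  exact ⟨x₁, x₂, y, ⟨h1, h2, hy, fun x hx => by rw [pow_one]; exact ey x hx⟩, e1, e2⟩

end Main

end Pool.Agent.DQ
end

section

/-! M34, sections over the shell: the relation between obstruction classes and reductions. -/

set_option autoImplicit false
set_option linter.unusedSectionVars false

open Set Filter Topology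

universe u v w

namespace Pool.Agent.DQ

variable {V : Type} [NormedAddCommGroup V] [NormedSpace ℂ V] [FiniteDimensional ℂ V] {k d : ℕ}
  {𝓐 : Defo.{0, v} V} {M : EMod.{0, v, w} 𝓐.A} {M₀ : EMod.{0, 0, w} (O V)}
  {ρ : ∀ x, M.St x → M₀.St x} {Y : Set V} {σ : Sit V k d} {T₀ T T' : Set (Fin k → ℂ)}

namespace Main

variable (hm : Main 𝓐 M M₀ ρ Y σ T₀)
include hm

variable {m : ℕ} {h h' s s' : (x : V) → M₀.St x} {x₁ x₂ y : (x : V) → M.St x}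

private theorem ρ_pow {x : V} (hx : x ∈ M.dom) (n : ℕ) (z : M.St x) :
    ρ x (𝓐.hb x ^ (n + 1) • z) = 0 :=
  (hm.red.ker x hx _).mpr ⟨𝓐.hb x ^ n • z, by rw [smul_smul, pow_succ']⟩

private theorem ρ_hb {x : V} (hx : x ∈ M.dom) (z : M.St x) : ρ x (𝓐.hb x • z) = 0 :=
  (hm.red.ker x hx _).mpr ⟨z, rfl⟩

omit hm in
private theorem on_pow {S : Set V} (hS : S ⊆ M.dom) {z : (x : V) → M.St x} (hz : M.On z S)
    (n : ℕ) : M.On (fun x => 𝓐.hb x ^ n • z x) S := fun x hx =>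
  M.smul (s := fun y => z y) (a := 𝓐.hb ^ n)
    (ERing.pow (𝓐.hb_at x (M.dom_sub (hS hx))) n) (hz x hx)

/-- (34.2 (i)) Proof: `ρ y = y₁ - y₂` on `Q12`; lift `y₁`, `y₂` to `z₁` on `Q1`, `z₂` on `Q2`
(`lift_Q1`, `lift_Q2`); `y - z₁ + z₂ = ħ y'` on `Q12` (`div_of_ρ`); `x₁' = x₁ - ħ^(m+1) z₁`, `x₂' = x₂ - ħ^(m+1) z₂`.
(`ρ (ħ^(m+1) z) = 0` by `hm.red.smul` and `red ħ = 0`, or `hm.red.ker`.) -/
theorem pk_step (B : TB k) (hB : B.Tc ⊆ T₀) (hp : PK 𝓐 M σ B.T (m + 1) x₁ x₂ y)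
    (hz : HZero M₀ σ B.T fun x => ρ x (y x)) :
    ∃ x₁' x₂' y', PK 𝓐 M σ B.T (m + 2) x₁' x₂' y' ∧
      (∀ x ∈ σ.Q1 B.T, ρ x (x₁' x) = ρ x (x₁ x)) ∧
      ∀ x ∈ σ.Q2 B.T, ρ x (x₂' x) = ρ x (x₂ x) := by
  have hT : B.T ⊆ T₀ := B.sub.trans hB
  obtain ⟨y₁, y₂, hy1, hy2, hy⟩ := hz
  obtain ⟨z₁, hz1, ez1⟩ := hm.lift_Q1 B hB hy1
  obtain ⟨z₂, hz2, ez2⟩ := hm.lift_Q2 B hB hy2
  obtain ⟨y', hy', ey'⟩ := hm.div_of_ρ (σ.isOpen_Q12 B.isOpen) (hm.Q12_dom' hT)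
    (hp.on_y.sub ((hz1.mono σ.Q12_sub_Q1).sub (hz2.mono σ.Q12_sub_Q2))) fun x hx => by
      rw [hm.red.map_sub (hm.Q12_dom' hT hx), hm.red.map_sub (hm.Q12_dom' hT hx),
        ez1 x (σ.Q12_sub_Q1 hx), ez2 x (σ.Q12_sub_Q2 hx)]
      exact sub_eq_zero.mpr (hy x hx)
  refine ⟨fun x => x₁ x - 𝓐.hb x ^ (m + 1) • z₁ x, fun x => x₂ x - 𝓐.hb x ^ (m + 1) • z₂ x, y',
    ⟨hp.on₁.sub (on_pow (hm.Q1_dom' hT) hz1 _), hp.on₂.sub (on_pow (hm.Q2_dom' hT) hz2 _), hy',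
      fun x hx => ?_⟩, fun x hx => ?_, fun x hx => ?_⟩
  · have e1 : x₁ x - 𝓐.hb x ^ (m + 1) • z₁ x - (x₂ x - 𝓐.hb x ^ (m + 1) • z₂ x) =
        (x₁ x - x₂ x) - 𝓐.hb x ^ (m + 1) • (z₁ x - z₂ x) := by
      rw [smul_sub]
      abel
    have e2 : y x - (z₁ x - z₂ x) = 𝓐.hb x • y' x := ey' x hx
    rw [e1, hp.eq x hx, ← smul_sub, e2, smul_smul, ← pow_succ]
  · rw [hm.red.map_sub (hm.Q1_dom' hT hx), ρ_pow hm (hm.Q1_dom' hT hx), sub_zero]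
  · rw [hm.red.map_sub (hm.Q2_dom' hT hx), ρ_pow hm (hm.Q2_dom' hT hx), sub_zero]

/-- (34.2 (ii)) Proof: `hd` gives `PK m x₁' x₂' y'` with `ρ y - ρ y'` of class zero; `PK.hb_smul` and
`PK.sub`: `(x₁ - ħ x₁', x₂ - ħ x₂', y - y')` is `PK (m+1)`; `pk_step`; the reductions are those of `x₁`, `x₂`. -/
theorem jj_of_dd (B : TB k) (hB : B.Tc ⊆ T₀) (hp : PK 𝓐 M σ B.T (m + 1) x₁ x₂ y)
    (hd : DD34 𝓐 M M₀ ρ σ m B.T fun x => ρ x (y x)) (h1 : ∀ x ∈ σ.Q1 B.T, ρ x (x₁ x) = s x)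
    (h2 : ∀ x ∈ σ.Q2 B.T, ρ x (x₂ x) = s x) : JJ 𝓐 M M₀ ρ σ (m + 2) B.T s := by
  have hT : B.T ⊆ T₀ := B.sub.trans hB
  obtain ⟨-, x₁', x₂', y', hp', hz⟩ := hd
  have hp2 := hp.sub (hp'.hb_smul (hm.KO_domA hT))
  obtain ⟨x₁'', x₂'', y'', hp'', e1, e2⟩ := hm.pk_step B hB hp2 (hz.congr fun x hx => by
    rw [hm.red.map_sub (hm.Q12_dom' hT hx)])
  refine ⟨x₁'', x₂'', y'', hp'', fun x hx => ?_, fun x hx => ?_⟩
  · rw [e1 x hx, hm.red.map_sub (hm.Q1_dom' hT hx), ρ_hb hm (hm.Q1_dom' hT hx), sub_zero, h1 x hx]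
  · rw [e2 x hx, hm.red.map_sub (hm.Q2_dom' hT hx), ρ_hb hm (hm.Q2_dom' hT hx), sub_zero, h2 x hx]

/-- (34.2 (iii)) Proof: `hj` gives `PK (m+2) x₁'' x₂'' y''` with the same reductions; by `div_of_ρ` on `Q1` and
on `Q2`: `x₁ - x₁'' = ħ x₁'`, `x₂ - x₂'' = ħ x₂'`; on `Q12`: `ħ (x₁' - x₂') = ħ (ħ^m (y - ħ y''))`, so (torsion free)
`x₁' - x₂' = ħ^m (y - ħ y'')`; `PK m x₁' x₂' (y - ħ y'')` and `ρ (y - ħ y'') = ρ y`. -/
theorem dd_of_jj (hTo : IsOpen T) (hT : T ⊆ T₀) (hp : PK 𝓐 M σ T (m + 1) x₁ x₂ y)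
    (hj : JJ 𝓐 M M₀ ρ σ (m + 2) T s) (h1 : ∀ x ∈ σ.Q1 T, ρ x (x₁ x) = s x)
    (h2 : ∀ x ∈ σ.Q2 T, ρ x (x₂ x) = s x) : DD34 𝓐 M M₀ ρ σ m T fun x => ρ x (y x) := by
  obtain ⟨x₁'', x₂'', y'', hp'', e1, e2⟩ := hj
  obtain ⟨x₁', hx1, ex1⟩ := hm.div_of_ρ (σ.isOpen_Q1 hTo) (hm.Q1_dom' hT)
    (hp.on₁.sub hp''.on₁) fun x hx => by
      rw [hm.red.map_sub (hm.Q1_dom' hT hx), h1 x hx, e1 x hx, sub_self]
  obtain ⟨x₂', hx2, ex2⟩ := hm.div_of_ρ (σ.isOpen_Q2 hTo) (hm.Q2_dom' hT)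
    (hp.on₂.sub hp''.on₂) fun x hx => by
      rw [hm.red.map_sub (hm.Q2_dom' hT hx), h2 x hx, e2 x hx, sub_self]
  have hy2 : M.On (fun x => y x - 𝓐.hb x • y'' x) (σ.Q12 T) :=
    hp.on_y.sub fun x hx => M.smul (𝓐.hb_at x (M.dom_sub (hm.Q12_dom' hT hx))) (hp''.on_y x hx)
  have hpk : PK 𝓐 M σ T m x₁' x₂' fun x => y x - 𝓐.hb x • y'' x := by
    refine ⟨hx1, hx2, hy2, fun x hx => ?_⟩
    have hd := hm.Q12_dom' hT hx
    have a1 : x₁ x - x₁'' x = 𝓐.hb x • x₁' x := ex1 x (σ.Q12_sub_Q1 hx)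
    have a2 : x₂ x - x₂'' x = 𝓐.hb x • x₂' x := ex2 x (σ.Q12_sub_Q2 hx)
    have a3 : 𝓐.hb x • (x₁' x - x₂' x - 𝓐.hb x ^ m • (y x - 𝓐.hb x • y'' x)) = 0 := by
      have b1 := hp.eq x hx
      have b2 := hp''.eq x hx
      have b3 : 𝓐.hb x • 𝓐.hb x ^ m • (y x - 𝓐.hb x • y'' x) =
          𝓐.hb x ^ (m + 1) • y x - 𝓐.hb x ^ (m + 2) • y'' x := by
        rw [smul_smul, ← pow_succ', smul_sub, smul_smul, ← pow_succ]
      rw [smul_sub, smul_sub, ← a1, ← a2, b3, ← b1, ← b2]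
      abel
    exact sub_eq_zero.mp (hm.tf x hd _ a3)
  refine ⟨hm.ρ_on₁ hp.on_y, x₁', x₂', _, hpk, hzero_of_eq (hm.Q1_dom₀ hT) (hm.Q2_dom₀ hT)
    fun x hx => ?_⟩
  change ρ x (y x) - ρ x (y x - 𝓐.hb x • y'' x) = 0
  rw [hm.red.map_sub (hm.Q12_dom' hT hx), ρ_hb hm (hm.Q12_dom' hT hx), sub_zero, sub_self]

end Main

end Pool.Agent.DQ
end

section

/-! M34, sections over the shell: the relation between obstruction classes and reductions. -/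

set_option autoImplicit false
set_option linter.unusedSectionVars false

open Set Filter Topology

universe u v w

namespace Pool.Agent.DQ

variable {V : Type} [NormedAddCommGroup V] [NormedSpace ℂ V] [FiniteDimensional ℂ V] {k d : ℕ}
  {𝓐 : Defo.{0, v} V} {M : EMod.{0, v, w} 𝓐.A} {M₀ : EMod.{0, 0, w} (O V)}
  {ρ : ∀ x, M.St x → M₀.St x} {Y : Set V} {σ : Sit V k d} {T₀ T T' : Set (Fin k → ℂ)}

namespace Main

variable (hm : Main 𝓐 M M₀ ρ Y σ T₀)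
include hm

variable {m : ℕ} {h h' s s' : (x : V) → M₀.St x} {x₁ x₂ y : (x : V) → M.St x}

/-- (34.3) multiplication by a function which kills the obstruction classes. Proof: lift `f` to `a`
(`exists_lift`), `PK.smul`, `ρ (a y) = om f • ρ y` has class zero by `hk` and `dd_of_pk`; `pk_step`. -/
theorem jj_kill (B : TB k) (hB : B.Tc ⊆ T₀) {f : V → ℂ} (hf : HolNear f (σ.KO B.T))
    (hk : ∀ h, DD34 𝓐 M M₀ ρ σ (m + 1) B.T h → HZero M₀ σ B.T fun x => om f x • h x)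
    (hj : JJ 𝓐 M M₀ ρ σ (m + 1) B.T s) : JJ 𝓐 M M₀ ρ σ (m + 2) B.T fun x => om f x • s x := by
  have hT : B.T ⊆ T₀ := B.sub.trans hB
  obtain ⟨x₁, x₂, y, hp, h1, h2⟩ := hj
  obtain ⟨a, ha, hfa⟩ := exists_lift (𝓐 := 𝓐) B.isOpen (hm.KO_domA hT) hf
  have hp' := hp.smul (hm.KO_domA hT) ha
  have hz : HZero M₀ σ B.T fun x => ρ x (a x • y x) := by
    refine (hk _ (hm.dd_of_pk hT hp)).congr fun x hx => ?_
    rw [hm.red.smul x (hm.Q12_dom' hT hx), hfa x (σ.Q12_sub_KO hx)]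
  obtain ⟨x₁', x₂', y', hp'', h1', h2'⟩ := hm.pk_step B hB hp' hz
  refine ⟨x₁', x₂', y', hp'', fun x hx => ?_, fun x hx => ?_⟩
  · rw [h1' x hx, hm.red.smul x (hm.Q1_dom' hT hx), hfa x (σ.Q1_sub_KO hx), h1 x hx]
  · rw [h2' x hx, hm.red.smul x (hm.Q2_dom' hT hx), hfa x (σ.Q2_sub_KO hx), h2 x hx]

/-- iteration of `jj_kill`, starting with `jj_one`. (`om (f ^ (n+1)) = om f * om (f ^ n)` on `KO T`:
`om_mul34`.) -/
theorem jj_pow (B : TB k) (hB : B.Tc ⊆ T₀) {f : V → ℂ} (hf : HolNear f (σ.KO B.T))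
    (hk : ∀ m h, DD34 𝓐 M M₀ ρ σ m B.T h → HZero M₀ σ B.T fun x => om f x • h x)
    (hs : M₀.On s (σ.Q1 B.T ∪ σ.Q2 B.T)) (n : ℕ) :
    JJ 𝓐 M M₀ ρ σ (n + 1) B.T fun x => om (fun x => f x ^ n) x • s x := by
  induction n with
  | zero =>
    refine (hm.jj_one B hB hs).congr fun x _ => ?_
    have h1 : (fun x => f x ^ 0) = (1 : V → ℂ) := by
      funext x
      simp
    have h2 : om (1 : V → ℂ) x = (1 : (O V).St x) := gm_one x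
    rw [h1, h2, one_smul]
  | succ n ih =>
    refine (hm.jj_kill B hB hf (fun h hd => hk (n + 1) h hd) ih).congr fun x hx => ?_
    have hx' : x ∈ σ.KO B.T := hx.elim (fun h => σ.Q1_sub_KO h) fun h => σ.Q2_sub_KO h
    have hfx : HolAt f x := hf x hx'
    have h1 : (fun x => f x ^ (n + 1)) = f * fun x => f x ^ n := by
      funext x
      exact pow_succ' _ _
    have hfn : HolAt (fun x => f x ^ n) x :=
      Filter.Eventually.mono hfx fun y hy => hy.pow n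
    rw [h1, om_mul34 hfx hfn, mul_smul]

/-- the section of `M₀` over `Q1 ∪ Q2` given by an element of `PK (m+1)`. Proof: `s = ρ x₁` on `Q1` and
`ρ x₂` elsewhere; on `Q12` they agree as `ρ (ħ^(m+1) y) = 0`. -/
theorem exists_jj (hTo : IsOpen T) (hT : T ⊆ T₀) (hp : PK 𝓐 M σ T (m + 1) x₁ x₂ y) :
    ∃ s, JJ 𝓐 M M₀ ρ σ (m + 1) T s ∧ (∀ x ∈ σ.Q1 T, ρ x (x₁ x) = s x) ∧
      ∀ x ∈ σ.Q2 T, ρ x (x₂ x) = s x := by
  classical
  have h1 : ∀ x ∈ σ.Q1 T, ρ x (x₁ x) =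
      if x ∈ σ.Q1 T then ρ x (x₁ x) else ρ x (x₂ x) := fun x hx => by rw [if_pos hx]
  have h2 : ∀ x ∈ σ.Q2 T, ρ x (x₂ x) =
      if x ∈ σ.Q1 T then ρ x (x₁ x) else ρ x (x₂ x) := fun x hx => by
    by_cases hx1 : x ∈ σ.Q1 T
    · rw [if_pos hx1]
      have hx12 : x ∈ σ.Q12 T := by
        rw [σ.Q12_eq]
        exact ⟨hx1, hx⟩
      have hd := hm.Q12_dom' hT hx12
      have e1 : x₁ x = x₂ x + 𝓐.hb x ^ (m + 1) • y x := by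
        rw [← hp.eq x hx12]
        abel
      have e2 : ρ x (𝓐.hb x ^ (m + 1) • y x) = 0 :=
        (hm.red.ker x hd _).2 ⟨𝓐.hb x ^ m • y x, by rw [smul_smul, pow_succ']⟩
      rw [e1, hm.red.add x hd, e2, add_zero]
    · rw [if_neg hx1]
  exact ⟨fun x => if x ∈ σ.Q1 T then ρ x (x₁ x) else ρ x (x₂ x),
    ⟨x₁, x₂, y, hp, h1, h2⟩, h1, h2⟩

end Main

end Pool.Agent.DQ
end

section

/-! M34, sections modulo `ħ ^ (m₀ + 1)`, part 5: multiples of `ωw ^ m₀`, `ωz ^ m₀`. -/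

set_option autoImplicit false
set_option linter.unusedSectionVars false

open Set Filter Topology

universe u v w

namespace Pool.Agent.DQ

variable {V : Type} [NormedAddCommGroup V] [NormedSpace ℂ V] [FiniteDimensional ℂ V] {k d : ℕ}
  {𝓐 : Defo.{0, v} V} {M : EMod.{0, v, w} 𝓐.A} {M₀ : EMod.{0, 0, w} (O V)}
  {ρ : ∀ x, M.St x → M₀.St x} {Y : Set V} {σ : Sit V k d} {T₀ T T' : Set (Fin k → ℂ)}
  {M₀' : EMod.{0, 0, 0} (O V)} {θ : ∀ x, M₀'.St x → M₀.St x} {m₀ : ℕ}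

namespace KD

variable (K : KD M₀' σ T₀)

private theorem L_jk_aux (hm : Main 𝓐 M M₀ ρ Y σ T₀) (hext : Ext0 M₀ σ T₀ M₀' θ) (P : σ.Pd)
    (hP : P.Tc ⊆ K.P₁.Tc) {f : V → ℂ} (hf : HolNear f (σ.KC K.P₁.Tc))
    (hk : ∀ m y, DD34 𝓐 M M₀ ρ σ m P.T y → HZero M₀ σ P.T fun x => om f x • y x) (l : Fin K.p) :
    JK 𝓐 M M₀ ρ σ M₀' θ (m₀ + 1) P.T fun x => om (fun x => f x ^ m₀) x • K.κ l x := by
  have hPT : P.Tc ⊆ T₀ := hP.trans K.P₁_sub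
  have hsub : σ.KO P.T ⊆ σ.KC K.P₁.Tc :=
    σ.KO_sub_KC.trans (σ.KC_mono34 (P.sub.trans hP))
  have hQ : σ.Q1 P.T ∪ σ.Q2 P.T ⊆ σ.Q1c T₀ ∪ σ.Q2c T₀ := by
    rintro x (hx | hx)
    · exact Or.inl (σ.Q1c_mono (P.sub.trans hPT) (σ.Q1_sub_Q1c hx))
    · exact Or.inr (σ.Q2c_mono (P.sub.trans hPT) (σ.Q2_sub_Q2c hx))
  have hQK : σ.Q1 P.T ∪ σ.Q2 P.T ⊆ σ.KO P.T := union_subset σ.Q1_sub_KO σ.Q2_sub_KO
  have hfn : HolNear (fun x => f x ^ m₀) (σ.KO P.T) := by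
    intro x hx
    have h := hf x (hsub hx)
    filter_upwards [h] with y hy using hy.pow m₀
  refine ⟨((K.κ_on l).mono hsub).smul hfn, ?_⟩
  have hs : M₀.On (fun x => θ x (K.κ l x)) (σ.Q1 P.tb.T ∪ σ.Q2 P.tb.T) := by
    intro x hx
    exact hext.at_map _ x (hQ hx) (K.κ_on l x (hsub (hQK hx)))
  have h := hm.jj_pow P.tb hPT (f := f) (hf.mono hsub) hk hs m₀
  refine JJ.congr h fun x hx => ?_
  exact (hext.smul x (hQ hx) _ _).symm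

/-- the `K.L m₀ i` are in `JK (m₀ + 1)`. Proof: `hm.jj_pow` for `f = ωw`, `s = θ (κ l)` (a section over `Q1 ∪ Q2` by
`hext.at_map`), `n = m₀`; `JJ.congr` with `hext.smul`; the same for `ωz`. -/
theorem L_jk (hm : Main 𝓐 M M₀ ρ Y σ T₀) (hext : Ext0 M₀ σ T₀ M₀' θ) (P : σ.Pd)
    (hP : P.Tc ⊆ K.P₁.Tc)
    (hkw : ∀ m y, DD34 𝓐 M M₀ ρ σ m P.T y → HZero M₀ σ P.T fun x => om K.ωw x • y x)
    (hkz : ∀ m y, DD34 𝓐 M M₀ ρ σ m P.T y → HZero M₀ σ P.T fun x => om K.ωz x • y x)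
    (i : Fin (K.p + K.p)) : JK 𝓐 M M₀ ρ σ M₀' θ (m₀ + 1) P.T (K.L m₀ i) := by
  refine Fin.addCases (fun l => ?_) (fun l => ?_) i
  · have h : K.L m₀ (Fin.castAdd K.p l) = fun x => om (fun x => K.ωw x ^ m₀) x • K.κ l x := by
      unfold KD.L
      rw [Fin.append_left]
    rw [h]
    exact K.L_jk_aux hm hext P hP K.ωw_hol hkw l
  · have h : K.L m₀ (Fin.natAdd K.p l) = fun x => om (fun x => K.ωz x ^ m₀) x • K.κ l x := by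
      unfold KD.L
      rw [Fin.append_right]
    rw [h]
    exact K.L_jk_aux hm hext P hP K.ωz_hol hkz l

end KD

end Pool.Agent.DQ
end

section

/-! M34, rank bound 4: pairs (obstruction class, class modulo `M₀`). -/

set_option autoImplicit false
set_option linter.unusedSectionVars false

open Set Filter Topology

universe u v w

namespace Pool.Agent.DQ

variable {V : Type} [NormedAddCommGroup V] [NormedSpace ℂ V] [FiniteDimensional ℂ V] {k d : ℕ}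
  {𝓐 : Defo.{0, v} V} {M : EMod.{0, v, w} 𝓐.A} {M₀ : EMod.{0, 0, w} (O V)}
  {ρ : ∀ x, M.St x → M₀.St x} {Y : Set V} {σ : Sit V k d} {T₀ T T' : Set (Fin k → ℂ)}
  {M₀' : EMod.{0, 0, 0} (O V)} {θ : ∀ x, M₀'.St x → M₀.St x}

/-- `(x₁, x₂, y)` is in `PK (n+1)` over `T` and the section `s'` of `M₀'` over `KO T` is the extension of its
reduction -/
structure PE (𝓐 : Defo.{0, v} V) (M : EMod.{0, v, w} 𝓐.A) (M₀ : EMod.{0, 0, w} (O V))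
    (ρ : ∀ x, M.St x → M₀.St x) (σ : Sit V k d) (M₀' : EMod.{0, 0, 0} (O V))
    (θ : ∀ x, M₀'.St x → M₀.St x) (n : ℕ) (T : Set (Fin k → ℂ)) (x₁ x₂ y : (x : V) → M.St x)
    (s' : (x : V) → M₀'.St x) : Prop where
  pk : PK 𝓐 M σ T (n + 1) x₁ x₂ y
  on : M₀'.On s' (σ.KO T)
  eq₁ : ∀ x ∈ σ.Q1 T, θ x (s' x) = ρ x (x₁ x)
  eq₂ : ∀ x ∈ σ.Q2 T, θ x (s' x) = ρ x (x₂ x)

theorem PE.mono {n : ℕ} {x₁ x₂ y : (x : V) → M.St x} {s' : (x : V) → M₀'.St x}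
    (h : PE 𝓐 M M₀ ρ σ M₀' θ n T x₁ x₂ y s') (hT : T' ⊆ T) :
    PE 𝓐 M M₀ ρ σ M₀' θ n T' x₁ x₂ y s' :=
  ⟨h.pk.mono hT, h.on.mono (σ.KO_mono hT), fun x hx => h.eq₁ x (σ.Q1_mono hT hx),
    fun x hx => h.eq₂ x (σ.Q2_mono hT hx)⟩

/-- the class of a section of `M₀'` in the quotient `QQ` -/
noncomputable def qk (M₀ : EMod.{0, 0, w} (O V)) (σ : Sit V k d) (T₀ : Set (Fin k → ℂ))
    (M₀' : EMod.{0, 0, 0} (O V)) (θ : ∀ x, M₀'.St x → M₀.St x) (s' : (x : V) → M₀'.St x) :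
    (x : V) → (QQ M₀ σ T₀ M₀' θ).St x := fun x => (Ns M₀ σ T₀ M₀' θ x).mkQ (s' x)

theorem qk_on {s' : (x : V) → M₀'.St x} {S : Set V} (h : M₀'.On s' S) :
    (QQ M₀ σ T₀ M₀' θ).On (qk M₀ σ T₀ M₀' θ s') S :=
  fun x hx => ⟨s', h x hx, Eventually.of_forall fun _ => rfl⟩

/-- Proof: `PK.add`, `hm.red.add`, `hext.add`. -/
theorem PE.add (hm : Main 𝓐 M M₀ ρ Y σ T₀) (hext : Ext0 M₀ σ T₀ M₀' θ) (hT : T ⊆ T₀) {n : ℕ}
    {x₁ x₂ y x₁' x₂' y' : (x : V) → M.St x} {s s' : (x : V) → M₀'.St x}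
    (h : PE 𝓐 M M₀ ρ σ M₀' θ n T x₁ x₂ y s) (h' : PE 𝓐 M M₀ ρ σ M₀' θ n T x₁' x₂' y' s') :
    PE 𝓐 M M₀ ρ σ M₀' θ n T (fun x => x₁ x + x₁' x) (fun x => x₂ x + x₂' x)
      (fun x => y x + y' x) fun x => s x + s' x := by
  refine ⟨h.pk.add h'.pk, h.on.add h'.on, fun x hx => ?_, fun x hx => ?_⟩
  · change θ x (s x + s' x) = ρ x (x₁ x + x₁' x)
    rw [hext.add x (Or.inl (σ.Q1_sub_Q1c (σ.Q1_mono hT hx))), h.eq₁ x hx, h'.eq₁ x hx,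
      hm.red.add x (hm.Q1_dom' hT hx)]
  · change θ x (s x + s' x) = ρ x (x₂ x + x₂' x)
    rw [hext.add x (Or.inr (σ.Q2_sub_Q2c (σ.Q2_mono hT hx))), h.eq₂ x hx, h'.eq₂ x hx,
      hm.red.add x (hm.Q2_dom' hT hx)]

/-- Proof: lift `σ.ft f` to a section `a` of `𝓐` over `KO T` (`exists_lift`); `PK.smul`, `hm.red.smul`, `hext.smul`. -/
theorem PE.smul (hm : Main 𝓐 M M₀ ρ Y σ T₀) (hext : Ext0 M₀ σ T₀ M₀' θ) (hTo : IsOpen T)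
    (hT : T ⊆ T₀) {n : ℕ} {x₁ x₂ y : (x : V) → M.St x} {s : (x : V) → M₀'.St x}
    (h : PE 𝓐 M M₀ ρ σ M₀' θ n T x₁ x₂ y s) {f : (Fin k → ℂ) → ℂ} (hf : HolNear f T) :
    ∃ x₁' x₂' y' : (x : V) → M.St x, PE 𝓐 M M₀ ρ σ M₀' θ n T x₁' x₂' y'
      (fun x => om (σ.ft f) x • s x) ∧
      ∀ x ∈ σ.Q12 T, ρ x (y' x) = om (σ.ft f) x • ρ x (y x) := by
  have hfK : HolNear (σ.ft f) (σ.KO T) := σ.ft_near hf
  obtain ⟨a, ha, hra⟩ := exists_lift hTo (hm.KO_domA hT) hfK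
  refine ⟨_, _, _, ⟨h.pk.smul (hm.KO_domA hT) ha, h.on.smul hfK, fun x hx => ?_,
    fun x hx => ?_⟩, fun x hx => ?_⟩
  · change θ x (om (σ.ft f) x • s x) = ρ x (a x • x₁ x)
    rw [hext.smul x (Or.inl (σ.Q1_sub_Q1c (σ.Q1_mono hT hx))), h.eq₁ x hx,
      hm.red.smul x (hm.Q1_dom' hT hx), hra x (σ.Q1_sub_KO hx)]
  · change θ x (om (σ.ft f) x • s x) = ρ x (a x • x₂ x)
    rw [hext.smul x (Or.inr (σ.Q2_sub_Q2c (σ.Q2_mono hT hx))), h.eq₂ x hx,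
      hm.red.smul x (hm.Q2_dom' hT hx), hra x (σ.Q2_sub_KO hx)]
  · change ρ x (a x • y x) = _
    rw [hm.red.smul x (hm.Q12_dom' hT hx), hra x (σ.Q12_sub_KO hx)]

private theorem PE.qk_on' {n : ℕ} {x₁ x₂ y : (x : V) → M.St x} {s : (x : V) → M₀'.St x}
    (C : CutD M M₀ M₀' σ T₀) {t₁ : Fin k → ℂ} (h1 : t₁ ∈ T)
    (h : PE 𝓐 M M₀ ρ σ M₀' θ n T x₁ x₂ y s) :
    (QQ M₀ σ T₀ M₀' θ).On (qk M₀ σ T₀ M₀' θ s) (C.σ₁.KC {t₁}) :=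
  qk_on (h.on.mono (C.KC₁_sub.trans (σ.KO_mono (singleton_subset_iff.2 h1))))

private theorem PE.ρy_mem (hm : Main 𝓐 M M₀ ρ Y σ T₀) {n : ℕ} {x₁ x₂ y : (x : V) → M.St x}
    {s : (x : V) → M₀'.St x} {t₁ : Fin k → ℂ} (ht : t₁ ∈ T₀) (hTo : IsOpen T) (h1 : t₁ ∈ T)
    (hT : T ⊆ T₀) (h : PE 𝓐 M M₀ ρ σ M₀' θ n T x₁ x₂ y s) :
    (fun x => ρ x (y x)) ∈ (hm.HG ht).N := hm.N_mk ht hTo h1 hT (hm.ρ_on₁ h.pk.on_y)

private theorem cl_eq_of (hm : Main 𝓐 M M₀ ρ Y σ T₀) {t₁ : Fin k → ℂ} (ht : t₁ ∈ T₀)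
    (hTo : IsOpen T) (h1 : t₁ ∈ T) (hT : T ⊆ T₀) {y y' : (x : V) → M₀.St x}
    (hy : y ∈ (hm.HG ht).N) (hy' : y' ∈ (hm.HG ht).N) (h : ∀ x ∈ σ.Q12 T, y x = y' x) :
    (hm.HG ht).cl y = (hm.HG ht).cl y' := by
  rw [GM.cl_eq hy hy']
  refine hm.Z_mk ht hTo h1 hT (hzero_of_eq (hm.Q1_dom₀ hT) (hm.Q2_dom₀ hT) fun x hx => ?_)
  change y x - y' x = 0
  rw [h x hx, sub_self]

/-- the pairs (class of `ρ y`, class of `s'` modulo `M₀`) of the elements of `PE n` near `t₁`; a submodule. Proof of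
the closure properties: `PE.add`, `PE.smul` on intersections; `GM.cl_add`, `GM.cl_act` (and `GM.cl_eq` with
`hzero_of_eq` for families which agree on `Q12 T`), `Sit.sec_add`, `Sit.sec_smul`, `Sit.sec_congr` with `qk_on` and
`C.KC₁_sub`; zero: `T = T₀`, all families zero. -/
noncomputable def GG34 (hm : Main 𝓐 M M₀ ρ Y σ T₀) (hext : Ext0 M₀ σ T₀ M₀' θ)
    (C : CutD M M₀ M₀' σ T₀) {t₁ : Fin k → ℂ} (ht : t₁ ∈ T₀) (n : ℕ) : Submodule ((O (Fin k → ℂ)).St t₁)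
    ((hm.HG ht).Gm × (C.σ₁.ps (QQ M₀ σ T₀ M₀' θ)).St t₁) where
  carrier := {p | ∃ T, IsOpen T ∧ t₁ ∈ T ∧ T ⊆ T₀ ∧ ∃ x₁ x₂ y s',
    PE 𝓐 M M₀ ρ σ M₀' θ n T x₁ x₂ y s' ∧ p.1 = (hm.HG ht).cl (fun x => ρ x (y x)) ∧
    p.2 = C.σ₁.sec (QQ M₀ σ T₀ M₀' θ) (qk M₀ σ T₀ M₀' θ s') t₁}
  add_mem' := by
    rintro p p' ⟨T, hTo, h1, hT, x₁, x₂, y, s, hp, he1, he2⟩
      ⟨T', hTo', h1', hT', x₁', x₂', y', s', hp', he1', he2'⟩
    have hTT : T ∩ T' ⊆ T₀ := inter_subset_left.trans hT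
    have hTTo : IsOpen (T ∩ T') := hTo.inter hTo'
    have hq := (hp.mono inter_subset_left).add hm hext hTT (hp'.mono inter_subset_right)
    refine ⟨T ∩ T', hTTo, ⟨h1, h1'⟩, hTT, _, _, _, _, hq, ?_, ?_⟩
    · change p.1 + p'.1 = _
      rw [he1, he1', ← GM.cl_add (hp.ρy_mem hm ht hTo h1 hT) (hp'.ρy_mem hm ht hTo' h1' hT')]
      refine cl_eq_of hm ht hTTo ⟨h1, h1'⟩ hTT ?_ (hq.ρy_mem hm ht hTTo ⟨h1, h1'⟩ hTT) ?_
      · exact (hm.HG ht).N.add_mem (hp.ρy_mem hm ht hTo h1 hT) (hp'.ρy_mem hm ht hTo' h1' hT')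
      · intro x hx
        change ρ x (y x) + ρ x (y' x) = ρ x (y x + y' x)
        rw [hm.red.add x (hm.Q12_dom' hTT hx)]
    · change p.2 + p'.2 = _
      rw [he2, he2', ← C.σ₁.sec_add (hp.qk_on' C h1) (hp'.qk_on' C h1')]
      rfl
  zero_mem' := by
    have hKO : σ.KO T₀ ⊆ M₀'.dom := fun x hx => (hext.coh.cohAt (σ.KO_sub_KC hx)).1
    have hθ : ∀ x ∈ σ.Q1c T₀ ∪ σ.Q2c T₀, θ x 0 = 0 := by
      intro x hx
      have := hext.add x hx 0 0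
      rw [add_zero] at this
      exact left_eq_add.1 this
    have hq : PE 𝓐 M M₀ ρ σ M₀' θ n T₀ 0 0 0 0 := by
      refine ⟨⟨fun x hx => M.zero x (hm.Q1_dom' subset_rfl hx), fun x hx => M.zero x
        (hm.Q2_dom' subset_rfl hx), fun x hx => M.zero x (hm.Q12_dom' subset_rfl hx),
        fun x _ => by simp⟩, fun x hx => M₀'.zero x (hKO hx), fun x hx => ?_, fun x hx => ?_⟩
      · change θ x 0 = ρ x 0
        rw [hθ x (Or.inl (σ.Q1_sub_Q1c hx)), hm.red.map_zero (hm.Q1_dom' subset_rfl hx)]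
      · change θ x 0 = ρ x 0
        rw [hθ x (Or.inr (σ.Q2_sub_Q2c hx)), hm.red.map_zero (hm.Q2_dom' subset_rfl hx)]
    refine ⟨T₀, hm.T₀_open, ht, subset_rfl, 0, 0, 0, 0, hq, ?_, ?_⟩
    · change (0 : (hm.HG ht).Gm) = _
      rw [← GM.cl_zero]
      refine cl_eq_of hm ht hm.T₀_open ht subset_rfl (hm.HG ht).N.zero_mem
        (hq.ρy_mem hm ht hm.T₀_open ht subset_rfl) fun x hx => ?_
      change (0 : M₀.St x) = ρ x 0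
      rw [hm.red.map_zero (hm.Q12_dom' subset_rfl hx)]
    · change (0 : (C.σ₁.ps (QQ M₀ σ T₀ M₀' θ)).St t₁) = _
      symm
      rw [C.σ₁.sec_eq_zero_iff (hq.qk_on' C ht)]
      intro x _
      exact map_zero (Ns M₀ σ T₀ M₀' θ x).mkQ
  smul_mem' := by
    rintro r p ⟨T, hTo, h1, hT, x₁, x₂, y, s, hp, he1, he2⟩
    obtain ⟨f, hf, rfl⟩ := GM.exists_om r
    obtain ⟨S, hS, hS1, hS2⟩ := hf.exists_set
    have hTT : T ∩ S ⊆ T₀ := inter_subset_left.trans hT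
    have hTTo : IsOpen (T ∩ S) := hTo.inter hS
    obtain ⟨x₁', x₂', y', hq, hy'⟩ := (hp.mono inter_subset_left).smul hm hext hTTo hTT
      (hS2.mono inter_subset_right)
    refine ⟨T ∩ S, hTTo, ⟨h1, hS1⟩, hTT, _, _, _, _, hq, ?_, ?_⟩
    · change om f t₁ • p.1 = _
      rw [he1, ← GM.cl_act hf (hp.ρy_mem hm ht hTo h1 hT)]
      refine cl_eq_of hm ht hTTo ⟨h1, hS1⟩ hTT ((hm.HG ht).act_N hf
        (hp.ρy_mem hm ht hTo h1 hT)) (hq.ρy_mem hm ht hTTo ⟨h1, hS1⟩ hTT) ?_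
      intro x hx
      exact (hy' x hx).symm
    · change om f t₁ • p.2 = _
      rw [he2, ← C.σ₁.sec_smul hf (hp.qk_on' C h1)]
      rfl

theorem mem_GG {hm : Main 𝓐 M M₀ ρ Y σ T₀} {hext : Ext0 M₀ σ T₀ M₀' θ}
    {C : CutD M M₀ M₀' σ T₀} {t₁ : Fin k → ℂ} {ht : t₁ ∈ T₀} {n : ℕ}
    {p : (hm.HG ht).Gm × (C.σ₁.ps (QQ M₀ σ T₀ M₀' θ)).St t₁} :
    p ∈ GG34 hm hext C ht n ↔ ∃ T, IsOpen T ∧ t₁ ∈ T ∧ T ⊆ T₀ ∧ ∃ x₁ x₂ y s',
      PE 𝓐 M M₀ ρ σ M₀' θ n T x₁ x₂ y s' ∧ p.1 = (hm.HG ht).cl (fun x => ρ x (y x)) ∧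
      p.2 = C.σ₁.sec (QQ M₀ σ T₀ M₀' θ) (qk M₀ σ T₀ M₀' θ s') t₁ := Iff.rfl

end Pool.Agent.DQ
end

section

/-! M34, rank bound 5: the two relations between the pairs. -/

set_option autoImplicit false
set_option linter.unusedSectionVars false

open Set Filter Topology

universe u v w

namespace Pool.Agent.DQ

variable {V : Type} [NormedAddCommGroup V] [NormedSpace ℂ V] [FiniteDimensional ℂ V] {k d : ℕ}
  {𝓐 : Defo.{0, v} V} {M : EMod.{0, v, w} 𝓐.A} {M₀ : EMod.{0, 0, w} (O V)}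
  {ρ : ∀ x, M.St x → M₀.St x} {Y : Set V} {σ : Sit V k d} {T₀ T T' : Set (Fin k → ℂ)}
  {M₀' : EMod.{0, 0, 0} (O V)} {θ : ∀ x, M₀'.St x → M₀.St x}

variable (hm : Main 𝓐 M M₀ ρ Y σ T₀) (hext : Ext0 M₀ σ T₀ M₀' θ) (C : CutD M M₀ M₀' σ T₀)
  {t₁ : Fin k → ℂ} (ht : t₁ ∈ T₀)

/-- (Fact A) Proof: `PK.of_succ`: `(x₁, x₂, ħ y)` is in `PK (n+1)` with the same reductions; `ρ (ħ y) = 0` on
`Q12 T` (`hm.red.ker`), so the class is zero (`GM.cl_eq_zero`, `hzero_of_eq`). -/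
theorem GG_A {n : ℕ} {h : (hm.HG ht).Gm} {γ : (C.σ₁.ps (QQ M₀ σ T₀ M₀' θ)).St t₁}
    (hp : (h, γ) ∈ GG34 hm hext C ht (n + 1)) : ((0 : (hm.HG ht).Gm), γ) ∈ GG34 hm hext C ht n := by
  obtain ⟨T, hT, h1, h2, x₁, x₂, y, s', hPE, -, hγ⟩ := mem_GG.1 hp
  have hpk := hPE.pk.of_succ (hm.KO_domA h2)
  refine mem_GG.2 ⟨T, hT, h1, h2, x₁, x₂, _, s', ⟨hpk, hPE.on, hPE.eq₁, hPE.eq₂⟩, ?_, hγ⟩
  refine ((GM.cl_eq_zero (hm.N_mk ht hT h1 h2 (hm.ρ_on₁ hpk.on_y))).2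
    (hm.Z_mk ht hT h1 h2 (hzero_of_eq (hm.Q1_dom₀ h2) (hm.Q2_dom₀ h2) fun x hx => ?_))).symm
  exact (hm.red.ker x (hm.Q12_dom' h2 hx) _).2 ⟨y x, rfl⟩

/-- Proof: `h = cl y₀` with `DD34 (n+1)` over `T`: `PK (n+1)` with `y₀ - ρ y` of class zero, so `h = cl (ρ y)`
(`GM.cl_eq`). `exists_jj` (M34D4; or directly: the reductions of `x₁`, `x₂` agree on `Q12 T`) gives a section of `M₀` over
`Q1 T ∪ Q2 T`, and `hext.ext T` a section `s'` of `M₀'` over `KO T`. -/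
theorem exists_GG {n : ℕ} {h : (hm.HG ht).Gm} (hh : h ∈ hm.Dh ht (n + 1)) :
    ∃ γ, (h, γ) ∈ GG34 hm hext C ht n := by
  obtain ⟨y₀, ⟨T, hT, h1, h2, hy₀, x₁, x₂, y, hpk, hz⟩, rfl⟩ := (hm.mem_Dh ht).1 hh
  obtain ⟨s, hj, hs1, hs2⟩ := hm.exists_jj hT h2 hpk
  obtain ⟨s', hs', he⟩ := hext.ext T h2 hT s (hm.jj_on hT hj)
  refine ⟨_, mem_GG.2 ⟨T, hT, h1, h2, x₁, x₂, y, s', ⟨hpk, hs', fun x hx => ?_, fun x hx => ?_⟩,
    ?_, rfl⟩⟩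
  · rw [he x (Or.inl hx), hs1 x hx]
  · rw [he x (Or.inr hx), hs2 x hx]
  · exact (GM.cl_eq (hm.N_mk ht hT h1 h2 hy₀)
      (hm.N_mk ht hT h1 h2 (hm.ρ_on₁ hpk.on_y))).2 (hm.Z_mk ht hT h1 h2 hz)

end Pool.Agent.DQ
end
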