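import Pool.Agent.Lib.MP_4aa2a9_ag.Mg.G032
import Pool.Agent.Lib.MP_4aa2a9_ag.Mg.G030
import Pool.Agent.Lib.MP_4aa2a9_ag.Mg.G034
import Pool.Agent.Lib.MP_4aa2a9_ag.Mg.G035
import Pool.Agent.DQ.Mg_MP_4aa2a9_ag.G003

section

/-! M34, uniform polydiscs 3. -/

set_option autoImplicit false
set_option linter.unusedSectionVars false

open Set Filter Topology

universe u v w

namespace Pool.Agent.DQ

variable {V : Type} [NormedAddCommGroup V] [NormedSpace ℂ V] [FiniteDimensional ℂ V] {k d : ℕ}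
  {𝓐 : Defo.{0, v} V} {M : EMod.{0, v, w} 𝓐.A} {M₀ : EMod.{0, 0, w} (O V)}
  {ρ : ∀ x, M.St x → M₀.St x} {Y : Set V} {σ : Sit V k d} {T₀ T T' : Set (Fin k → ℂ)}

namespace Main

variable (hm : Main 𝓐 M M₀ ρ Y σ T₀) {ι : Type}
  {c : ι → ((x : V) → M₀.St x) → (Fin k → ℂ) → ℂ} {𝒩 : EMod.{0, 0, 0} (O (Fin k → ℂ))}
  {ν : Set (Fin k → ℂ) → ((x : V) → M₀.St x) → (t : Fin k → ℂ) → 𝒩.St t}
  (hx : HX M₀ σ T₀ ι c 𝒩 ν)

include hx in
/-- (34.10, second step) Proof: `ν P.T y` is a section of `𝒩` over `P.T`. Its germ at `t₀` is in the span of the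
`ν T₁ (kk j) t₀`: `cl y = ∑ om (e j) t₀ • cl (kk j)` (`mem_span_fam`, `GM.exists_om`), so
`y - ∑ om (ft (e j)) • kk j` has class zero; on a small open `T' ⊆ P.T` with the `e j` holomorphic:
`ν_of_cl_zero`, `ν_sub`, `ν_comb`, `ν_res`. `DivOn` gives `u j` with `ν P.T y = ∑ om (u j) • ν T₁ (kk j)` on `P.T`; for
`y' = y - ∑ om (ft (u j)) • kk j` the functionals vanish (`c_sub`, `c_comb`) and `ν P.T y' = 0` (`ν_sub`, `ν_comb`,
`ν_res`): `HX.inj`. -/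
theorem star_step2 {l : ℕ} (kk : Fin l → (x : V) → M₀.St x) {T₁ : Set (Fin k → ℂ)}
    (hT₁ : IsOpen T₁) (ht : σ.t₀ ∈ T₁) (hT₁' : T₁ ⊆ T₀)
    (hkk : ∀ j, M₀.On (kk j) (σ.Q12 T₁)) (hk0 : ∀ j i, ∀ t ∈ T₁, c i (kk j) t = 0)
    (P : σ.Pd) (hP : P.Tc ⊆ T₁) (hd : DivOn 𝒩 (fun j => ν T₁ (kk j)) σ.t₀ P.T P.Tc)
    {y : (x : V) → M₀.St x} (hy : M₀.On y (σ.Q12 P.T)) (h0 : ∀ i, ∀ t ∈ P.T, c i y t = 0)
    (h : (hm.HG hm.mem_T₀).cl y ∈ Submodule.span ((O (Fin k → ℂ)).St σ.t₀)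
      (range fun j => (hm.HG hm.mem_T₀).cl (kk j))) :
    ∃ u : Fin l → (Fin k → ℂ) → ℂ, (∀ j, HolNear (u j) P.T) ∧
      HZero M₀ σ P.T fun x => y x - ∑ j, om (σ.ft (u j)) x • kk j x := by
  have hTT₁ : P.T ⊆ T₁ := P.sub.trans hP
  have hTT : P.T ⊆ T₀ := hTT₁.trans hT₁'
  have hkkN : ∀ j, kk j ∈ (hm.HG hm.mem_T₀).N := fun j =>
    hm.N_mk hm.mem_T₀ hT₁ ht hT₁' (hkk j)
  have hkkP : ∀ j, M₀.On (kk j) (σ.Q12 P.T) := fun j => (hkk j).mono (σ.Q12_mono hTT₁)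
  have hk0P : ∀ j i, ∀ t ∈ P.T, c i (kk j) t = 0 := fun j i t ht' => hk0 j i t (hTT₁ ht')
  have hyN : y ∈ (hm.HG hm.mem_T₀).N := hm.N_mk hm.mem_T₀ P.isOpen P.mem hTT hy
  -- combinations of the `kk j` over an open subset of `P.T`
  have key : ∀ (T' : Set (Fin k → ℂ)), IsOpen T' → T' ⊆ P.T → ∀ (u : Fin l → (Fin k → ℂ) → ℂ),
      (∀ j, HolNear (u j) T') →
      M₀.On (fun x => ∑ j, om (σ.ft (u j)) x • kk j x) (σ.Q12 T') ∧
      (∀ i, ∀ t ∈ T', c i (fun x => ∑ j, om (σ.ft (u j)) x • kk j x) t = 0) ∧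
      M₀.On (fun x => y x - ∑ j, om (σ.ft (u j)) x • kk j x) (σ.Q12 T') ∧
      (∀ i, ∀ t ∈ T', c i (fun x => y x - ∑ j, om (σ.ft (u j)) x • kk j x) t = 0) ∧
      ∀ t ∈ T', ν T' (fun x => y x - ∑ j, om (σ.ft (u j)) x • kk j x) t =
        ν P.T y t - ∑ j, om (u j) t • ν T₁ (kk j) t := by
    intro T' hT' hTP u hu
    have hT'0 : T' ⊆ T₀ := hTP.trans hTT
    have hk' : ∀ j, M₀.On (kk j) (σ.Q12 T') := fun j => (hkkP j).mono (σ.Q12_mono hTP)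
    have hy' : M₀.On y (σ.Q12 T') := hy.mono (σ.Q12_mono hTP)
    have hk0' : ∀ j i, ∀ t ∈ T', c i (kk j) t = 0 := fun j i t ht' => hk0P j i t (hTP ht')
    have h0' : ∀ i, ∀ t ∈ T', c i y t = 0 := fun i t ht' => h0 i t (hTP ht')
    have g1 : M₀.On (fun x => ∑ j, om (σ.ft (u j)) x • kk j x) (σ.Q12 T') :=
      EMod.On.comb (hm.Q12_dom₀ hT'0) hk' fun j => σ.ft_near (hu j)
    have g2 : ∀ i, ∀ t ∈ T', c i (fun x => ∑ j, om (σ.ft (u j)) x • kk j x) t = 0 := by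
      intro i t ht'
      rw [hm.c_comb hx hT' hT'0 hk' hu i t ht']
      refine Finset.sum_eq_zero fun j _ => ?_
      rw [hk0' j i t ht', mul_zero]
    refine ⟨g1, g2, hy'.sub g1, ?_, ?_⟩
    · intro i t ht'
      rw [hm.c_sub hx hT' hT'0 hy' g1 i t ht', h0' i t ht', g2 i t ht', sub_zero]
    · intro t ht'
      rw [hm.ν_sub hx hT' hT'0 hy' g1 h0' g2 t ht', hm.ν_comb hx hT' hT'0 hk' hk0' hu t ht',
        hx.ν_res P.T hTT P.isOpen T' hTP hT' y hy h0 t ht']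
      congr 1
      refine Finset.sum_congr rfl fun j _ => ?_
      rw [hx.ν_res T₁ hT₁' hT₁ T' (hTP.trans hTT₁) hT' (kk j) (hkk j) (hk0 j) t ht']
  -- the germ of `ν P.T y`
  obtain ⟨e, he⟩ := mem_span_fam.1 h
  choose e' he' hee using fun j => GM.exists_om (e j)
  have hgerm : ν P.T y σ.t₀ = ∑ j, e j • ν T₁ (kk j) σ.t₀ := by
    choose S hS hS1 hS2 using fun j => (he' j).exists_set
    have hT' : IsOpen (P.T ∩ ⋂ j, S j) := P.isOpen.inter (isOpen_iInter_of_finite hS)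
    obtain ⟨g1, g2, g3, g4, g5⟩ := key (P.T ∩ ⋂ j, S j) hT' inter_subset_left e' fun j =>
      (hS2 j).mono (inter_subset_right.trans (iInter_subset _ j))
    have hmem : σ.t₀ ∈ P.T ∩ ⋂ j, S j := ⟨P.mem, mem_iInter.2 hS1⟩
    obtain ⟨f1, f2⟩ := GM.cl_comb (G := hm.HG hm.mem_T₀) he' hkkN
    have hcl : (hm.HG hm.mem_T₀).cl (fun x => y x - ∑ j, om (σ.ft (e' j)) x • kk j x) = 0 := by
      have e1 : (fun x => y x - ∑ j, om (σ.ft (e' j)) x • kk j x) =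
          y - ∑ j, (hm.HG hm.mem_T₀).act (e' j) (kk j) := by
        funext x
        rw [Pi.sub_apply, Finset.sum_apply]
        rfl
      rw [e1, GM.cl_sub hyN f1, f2, he]
      refine sub_eq_zero.2 (Finset.sum_congr rfl fun j _ => ?_)
      rw [hee]
    have h1 := hm.ν_of_cl_zero hx hT' hmem (inter_subset_left.trans hTT) g3 g4 hcl
    rw [g5 _ hmem] at h1
    rw [sub_eq_zero.1 h1]
    exact Finset.sum_congr rfl fun j _ => by rw [hee]
  obtain ⟨u, hu, hu'⟩ := hd.2 (ν P.T y) (hx.ν_on P.T hTT P.isOpen y hy h0)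
    (mem_span_fam.2 ⟨e, hgerm⟩)
  obtain ⟨g1, g2, g3, g4, g5⟩ := key P.T P.isOpen subset_rfl u hu
  refine ⟨u, hu, hx.inj P (hP.trans hT₁') _ g3 g4 fun t ht' => ?_⟩
  rw [g5 t ht', hu' t ht', sub_self]

end Main

end Pool.Agent.DQ
end

section

/-! M34, uniform polydiscs 4. -/

set_option autoImplicit false
set_option linter.unusedSectionVars false

open Set Filter Topology

universe u v w

namespace Pool.Agent.DQ

private theorem M34H4_gm_sum {E : Type u} [NormedAddCommGroup E] [NormedSpace ℂ E]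
    {ι : Type*} (s : Finset ι) {f : ι → E → ℂ} {x : E} (hf : ∀ i ∈ s, HolAt (f i) x) :
    gm (fun y => ∑ i ∈ s, f i y) x = ∑ i ∈ s, gm (f i) x := by
  classical
  induction s using Finset.induction_on with
  | empty =>
    simp only [Finset.sum_empty]
    exact gm_zero x
  | insert a s ha ih =>
    have h1 : (fun y => ∑ i ∈ insert a s, f i y) = f a + fun y => ∑ i ∈ s, f i y := by
      ext y
      simp [Finset.sum_insert ha]
    rw [h1, gm_add (hf a (Finset.mem_insert_self _ _))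
      (HolAt.sum s fun i hi => hf i (Finset.mem_insert_of_mem hi)),
      ih fun i hi => hf i (Finset.mem_insert_of_mem hi), Finset.sum_insert ha]

/-- combination of the coefficients -/
private theorem M34H4_coef {E : Type u} [NormedAddCommGroup E] [NormedSpace ℂ E] {l : ℕ}
    {a : E → ℂ} {u b : Fin l → E → ℂ} {x : E} (ha : HolAt a x) (hu : ∀ j, HolAt (u j) x)
    (hb : ∀ j, HolAt (b j) x) :
    om (fun y => a y + ∑ j, u j y * b j y) x = om a x + ∑ j, om (u j) x * om (b j) x := by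
  have h1 : om (fun y => a y + ∑ j, u j y * b j y) x =
      gm a x + gm (fun y => ∑ j, u j y * b j y) x :=
    gm_add ha (HolAt.sum _ fun j _ => (hu j).mul (hb j))
  rw [h1, M34H4_gm_sum _ fun j _ => (hu j).mul (hb j)]
  have h2 : ∀ j, gm (fun y => u j y * b j y) x = gm (u j) x * gm (b j) x := fun j =>
    gm_mul (hu j) (hb j)
  simp only [h2]
  rfl

private theorem M34H4_alg {R : Type u} [Ring R] {X : Type v} [AddCommGroup X] [Module R X]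
    {s l : ℕ} (y : X) (a : Fin s → R) (u : Fin l → R) (b : Fin l → Fin s → R) (d : Fin s → X) :
    y - ∑ i, (a i + ∑ j, u j * b j i) • d i =
      (y - ∑ i, a i • d i) - ∑ j, u j • ∑ i, b j i • d i := by
  have h1 : ∑ i, (∑ j, u j * b j i) • d i = ∑ j, u j • ∑ i, b j i • d i := by
    simp only [Finset.sum_smul, Finset.smul_sum, mul_smul]
    exact Finset.sum_comm
  simp only [add_smul, Finset.sum_add_distrib, h1]
  abel

variable {V : Type} [NormedAddCommGroup V] [NormedSpace ℂ V] [FiniteDimensional ℂ V] {k d : ℕ}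
  {𝓐 : Defo.{0, v} V} {M : EMod.{0, v, w} 𝓐.A} {M₀ : EMod.{0, 0, w} (O V)}
  {ρ : ∀ x, M.St x → M₀.St x} {Y : Set V} {σ : Sit V k d} {T₀ T T' : Set (Fin k → ℂ)}

namespace Main

variable (hm : Main 𝓐 M M₀ ρ Y σ T₀) {ι : Type}
  {c : ι → ((x : V) → M₀.St x) → (Fin k → ℂ) → ℂ} {𝒩 : EMod.{0, 0, 0} (O (Fin k → ℂ))}
  {ν : Set (Fin k → ℂ) → ((x : V) → M₀.St x) → (t : Fin k → ℂ) → 𝒩.St t}
  (hx : HX M₀ σ T₀ ι c 𝒩 ν)

include hx in
/-- **uniform polydiscs** (34.10). Proof: generators `cl (dd j)` of `Dh m₀` with `DD34 m₀ T' (dd j)`; generators of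
`Dh m₀ ⊓ ker (chA hx)` (`ker_fg`), each is `∑ i, om (a j i) t₀ • cl (dd i) = cl (kk j)`,
`kk j := ∑ i, om (ft (a j i)) • dd i` (`GM.cl_comb`). `T₁` = open polydisc around `t₀` in `T'` on which the `a j i` are
holomorphic (`exists_TB`); the functionals of `kk j` vanish on `T₁` (`c_of_germ`). `F₁ = O^r`, `F₂ = 𝒩` with
`ν T₁ (kk j)` (`ν_on`), `F₃ = 𝒩` without generators. `Star.comb`: `star_step1` gives `y'` with vanishing functionals,
its class is in `Dh m₀ ⊓ ker`; `star_step2`; combine the coefficients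
(`om (ft (a i + ∑ j u j * a j i))`, `om_add34`, `om_mul34` on `Q12 P.T`). `Star.zero`: `star_zero`. -/
theorem exists_star {m₀ r : ℕ} (hfg : (hm.Dh hm.mem_T₀ m₀).FG) (i : Fin r → ι)
    (hc : ∀ g ∈ hm.Dh hm.mem_T₀ m₀, (∀ q, hm.ch hm.mem_T₀ hx (i q) g = 0) →
      ∀ j, hm.ch hm.mem_T₀ hx j g = 0) :
    ∃ (s : ℕ) (dd : Fin s → (x : V) → M₀.St x) (T₁ : Set (Fin k → ℂ)), IsOpen T₁ ∧ σ.t₀ ∈ T₁ ∧
      T₁ ⊆ T₀ ∧ (∀ j, DD34 𝓐 M M₀ ρ σ m₀ T₁ (dd j)) ∧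
      ∃ (F₁ F₂ F₃ : EMod.{0, 0, 0} (O (Fin k → ℂ))) (n₁ n₂ n₃ : ℕ)
        (f₁ : Fin n₁ → (t : Fin k → ℂ) → F₁.St t) (f₂ : Fin n₂ → (t : Fin k → ℂ) → F₂.St t)
        (f₃ : Fin n₃ → (t : Fin k → ℂ) → F₃.St t),
        F₁.CohAt σ.t₀ ∧ F₂.CohAt σ.t₀ ∧ F₃.CohAt σ.t₀ ∧ (∀ j, F₁.At (f₁ j) σ.t₀) ∧
        (∀ j, F₂.At (f₂ j) σ.t₀) ∧ (∀ j, F₃.At (f₃ j) σ.t₀) ∧
        ∀ P : σ.Pd, P.Tc ⊆ T₁ → DivOn F₁ f₁ σ.t₀ P.T P.Tc → DivOn F₂ f₂ σ.t₀ P.T P.Tc →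
          DivOn F₃ f₃ σ.t₀ P.T P.Tc → hm.Star m₀ dd P := by
  classical
  -- generators of `Dh m₀`
  obtain ⟨s, g, hg⟩ := Submodule.fg_iff_exists_fin_generating_family.1 hfg
  have hgm : ∀ j, g j ∈ hm.Dh hm.mem_T₀ m₀ := fun j => by
    rw [← hg]
    exact Submodule.subset_span ⟨j, rfl⟩
  choose dd hdd0 hddcl using fun j => (hm.mem_Dh hm.mem_T₀).1 (hgm j)
  choose T' hT' hT'm hT'0 hdd using hdd0
  have hspan : hm.Dh hm.mem_T₀ m₀ = Submodule.span ((O (Fin k → ℂ)).St σ.t₀)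
      (range fun j => (hm.HG hm.mem_T₀).cl (dd j)) := by
    rw [← hg]
    congr 2
    funext j
    exact (hddcl j).symm
  have hddN : ∀ j, dd j ∈ (hm.HG hm.mem_T₀).N := fun j =>
    hm.N_mk hm.mem_T₀ (hT' j) (hT'm j) (hT'0 j) (hdd j).1
  -- generators of the kernel of the functionals
  obtain ⟨l, g', hg'⟩ := Submodule.fg_iff_exists_fin_generating_family.1
    (hm.ker_fg hx (hm.Dh hm.mem_T₀ m₀))
  have hgm' : ∀ j, g' j ∈ hm.Dh hm.mem_T₀ m₀ ⊓ LinearMap.ker (hm.chA hx) := fun j => by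
    rw [← hg']
    exact Submodule.subset_span ⟨j, rfl⟩
  choose e he using fun j => mem_span_fam.1 (hspan ▸ (hgm' j).1)
  choose b hb hbe using fun j i => GM.exists_om (e j i)
  choose S hS hS1 hS2 using fun j i => (hb j i).exists_set
  -- the polydisc
  obtain ⟨B, hB, hB'⟩ := exists_TB σ.t₀ (W := T₀ ∩ ((⋂ j, T' j) ∩ ⋂ j, ⋂ i, S j i)) (by
    refine Filter.inter_mem (hm.T₀_open.mem_nhds hm.mem_T₀) (Filter.inter_mem ?_ ?_)
    · exact (isOpen_iInter_of_finite hT').mem_nhds (mem_iInter.2 hT'm)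
    · exact (isOpen_iInter_of_finite fun j => isOpen_iInter_of_finite (hS j)).mem_nhds
        (mem_iInter.2 fun j => mem_iInter.2 (hS1 j)))
  have hBT : B.T ⊆ T₀ ∩ ((⋂ j, T' j) ∩ ⋂ j, ⋂ i, S j i) := B.sub.trans hB'
  have hB0 : B.T ⊆ T₀ := hBT.trans inter_subset_left
  have hBT' : ∀ j, B.T ⊆ T' j := fun j =>
    (hBT.trans (inter_subset_right.trans inter_subset_left)).trans (iInter_subset _ j)
  have hBS : ∀ j i, B.T ⊆ S j i := fun j i =>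
    ((hBT.trans (inter_subset_right.trans inter_subset_right)).trans (iInter_subset _ j)).trans
      (iInter_subset _ i)
  have hbB : ∀ j i, HolNear (b j i) B.T := fun j i => (hS2 j i).mono (hBS j i)
  have hddB : ∀ j, DD34 𝓐 M M₀ ρ σ m₀ B.T (dd j) := fun j => (hdd j).mono (hBT' j)
  have hkk : ∀ j, M₀.On (fun x => ∑ i, om (σ.ft (b j i)) x • dd i x) (σ.Q12 B.T) := fun j =>
    EMod.On.comb (hm.Q12_dom₀ hB0) (fun i => (hddB i).1) fun i => σ.ft_near (hbB j i)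
  have hkcl : ∀ j, (hm.HG hm.mem_T₀).cl (fun x => ∑ i, om (σ.ft (b j i)) x • dd i x) = g' j := by
    intro j
    obtain ⟨f1, f2⟩ := GM.cl_comb (G := hm.HG hm.mem_T₀) (hb j) hddN
    have e1 : (fun x => ∑ i, om (σ.ft (b j i)) x • dd i x) =
        ∑ i, (hm.HG hm.mem_T₀).act (b j i) (dd i) := by
      funext x
      rw [Finset.sum_apply]
      rfl
    rw [e1, f2, he j]
    refine Finset.sum_congr rfl fun i _ => ?_
    rw [hbe]
  have hk0 : ∀ j q, ∀ t ∈ B.T, c q (fun x => ∑ i, om (σ.ft (b j i)) x • dd i x) t = 0 := by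
    intro j q
    refine hm.c_of_germ hx B.isOpen B.isPreconnected hB hB0 (hkk j) q ?_
    rw [hkcl j]
    exact congrFun (LinearMap.mem_ker.1 (hgm' j).2) q
  have hk2 : Submodule.span ((O (Fin k → ℂ)).St σ.t₀) (range fun j =>
      (hm.HG hm.mem_T₀).cl (fun x => ∑ i, om (σ.ft (b j i)) x • dd i x)) =
      hm.Dh hm.mem_T₀ m₀ ⊓ LinearMap.ker (hm.chA hx) := by
    rw [← hg']
    congr 2
    funext j
    exact hkcl j
  have hN : 𝒩.CohAt σ.t₀ := (hx.cohN σ.t₀ hm.mem_T₀).self_of_nhds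
  refine ⟨s, dd, B.T, B.isOpen, hB, hB0, hddB, (O (Fin k → ℂ)).free r, 𝒩, 𝒩, s, l, 0,
    fun j t q => om (c (i q) (dd j)) t,
    fun j => ν B.T (fun x => ∑ i, om (σ.ft (b j i)) x • dd i x), fun j => j.elim0,
    O_free_cohAt r σ.t₀, hN, hN, ?_, ?_, fun j => j.elim0, ?_⟩
  · intro j
    exact ⟨mem_univ _, fun q => at_om (hx.c_hol (i q) B.T hB0 B.isOpen _ (hddB j).1 σ.t₀ hB)⟩
  · intro j
    exact hx.ν_on B.T hB0 B.isOpen _ (hkk j) (hk0 j) σ.t₀ hB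
  intro P hP hd1 hd2 hd3
  have hPT : P.T ⊆ B.T := P.sub.trans hP
  have hPT0 : P.T ⊆ T₀ := hPT.trans hB0
  refine ⟨?_, fun y hy h => hm.star_zero hx P (hP.trans hB0) _ hd3 hy h⟩
  intro y hy h
  have hyN : y ∈ (hm.HG hm.mem_T₀).N := hm.N_mk hm.mem_T₀ P.isOpen P.mem hPT0 hy
  obtain ⟨a, ha, hv⟩ := hm.star_step1 hx i hc dd B.isOpen hB hB0 hddB hspan P hP hd1 hy h
  have hcomb : M₀.On (fun x => ∑ j, om (σ.ft (a j)) x • dd j x) (σ.Q12 P.T) :=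
    EMod.On.comb (hm.Q12_dom₀ hPT0) (fun j => (hddB j).1.mono (σ.Q12_mono hPT))
      fun j => σ.ft_near (ha j)
  have hy' : M₀.On (fun x => y x - ∑ j, om (σ.ft (a j)) x • dd j x) (σ.Q12 P.T) := hy.sub hcomb
  have hyN' : (fun x => y x - ∑ j, om (σ.ft (a j)) x • dd j x) ∈ (hm.HG hm.mem_T₀).N :=
    hm.N_mk hm.mem_T₀ P.isOpen P.mem hPT0 hy'
  have hmem : (hm.HG hm.mem_T₀).cl (fun x => y x - ∑ j, om (σ.ft (a j)) x • dd j x) ∈
      hm.Dh hm.mem_T₀ m₀ := by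
    obtain ⟨g1, g2⟩ := GM.cl_comb (G := hm.HG hm.mem_T₀) (fun j => ha j σ.t₀ P.mem) hddN
    have e1 : (fun x => y x - ∑ j, om (σ.ft (a j)) x • dd j x) =
        y - ∑ j, (hm.HG hm.mem_T₀).act (a j) (dd j) := by
      funext x
      rw [Pi.sub_apply, Finset.sum_apply]
      rfl
    rw [e1, GM.cl_sub hyN g1, g2]
    refine Submodule.sub_mem _ h (Submodule.sum_mem _ fun j _ => Submodule.smul_mem _ _ ?_)
    rw [hddcl j]
    exact hgm j
  have hker : (hm.HG hm.mem_T₀).cl (fun x => y x - ∑ j, om (σ.ft (a j)) x • dd j x) ∈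
      LinearMap.ker (hm.chA hx) := by
    rw [LinearMap.mem_ker]
    funext q
    change hm.ch hm.mem_T₀ hx q _ = 0
    rw [hm.ch_cl hm.mem_T₀ hx q hyN']
    refine (om_congr34 (hx.c_hol q P.T hPT0 P.isOpen _ hy' σ.t₀ P.mem) ?_).trans (gm_zero σ.t₀)
    filter_upwards [P.isOpen.mem_nhds P.mem] with t ht'
    exact hv q t ht'
  obtain ⟨u, hu, hz⟩ := hm.star_step2 hx (fun j x => ∑ i, om (σ.ft (b j i)) x • dd i x)
    B.isOpen hB hB0 hkk hk0 P hP hd2 hy' hv (by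
      rw [hk2]
      exact ⟨hmem, hker⟩)
  refine ⟨fun i t => a i t + ∑ j, u j t * b j i t, fun i t ht' => ?_, hz.congr fun x hx' => ?_⟩
  · exact (ha i t ht').add (HolAt.sum _ fun j _ => (hu j t ht').mul (hbB j i t (hPT ht')))
  · have htx : σ.t x ∈ P.T := hx'.1
    have hcoef : ∀ i, om (σ.ft fun t => a i t + ∑ j, u j t * b j i t) x =
        om (σ.ft (a i)) x + ∑ j, om (σ.ft (u j)) x * om (σ.ft (b j i)) x := fun i =>
      M34H4_coef (σ.holAt_ft (ha i _ htx)) (fun j => σ.holAt_ft (hu j _ htx))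
        fun j => σ.holAt_ft (hbB j i _ (hPT htx))
    simp only [hcoef]
    exact (M34H4_alg (y x) (fun i => om (σ.ft (a i)) x) (fun j => om (σ.ft (u j)) x)
      (fun j i => om (σ.ft (b j i)) x) fun i => dd i x).symm

end Main

end Pool.Agent.DQ
end

section

/-! M34, functions which kill the obstruction classes 1: Cayley-Hamilton, Weierstrass preparation. -/

set_option autoImplicit false
set_option linter.unusedSectionVars false

open Set Filter Topology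

universe u v w

namespace Pool.Agent.DQ

/-- powers -/
private theorem holAt_pow' {E : Type*} [NormedAddCommGroup E] [NormedSpace ℂ E] {f : E → ℂ} {x : E}
    (hf : HolAt f x) (n : ℕ) : HolAt (fun y => f y ^ n) x := by
  filter_upwards [hf] with y h using h.pow n

private theorem holAt_inv' {E : Type*} [NormedAddCommGroup E] [NormedSpace ℂ E] {f : E → ℂ} {x : E}
    (hf : HolAt f x) (h0 : f x ≠ 0) : HolAt (fun y => (f y)⁻¹) x := by
  filter_upwards [hf, hf.differentiableAt.continuousAt.eventually_ne h0] with y h h1 using h.inv h1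

private theorem mon_zeros {E : Type} {t₀ : E} {n : ℕ} (α : Fin n → E → ℂ) :
    {v : ℂ | mon α t₀ v = 0}.Finite := by
  classical
  set p : Polynomial ℂ := Polynomial.X ^ n +
    ∑ j : Fin n, Polynomial.C (α j t₀) * Polynomial.X ^ (j : ℕ) with hp
  have hm : p.Monic := Polynomial.monic_X_pow_add (Polynomial.degree_sum_fin_lt _)
  refine (Polynomial.finite_setOfPred_isRoot hm.ne_zero).subset fun v hv => ?_
  have h1 : p.eval v = mon α t₀ v := by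
    simp [hp, mon, Polynomial.eval_finsetSum]
  change p.eval v = 0
  rw [h1]
  exact hv

private theorem exists_radii_finite {Z : Set ℝ} (hZ : Z.Finite) {r R : ℝ} (hrR : r < R) :
    ∃ r' R' : ℝ, r < r' ∧ r' < R' ∧ R' < R ∧ ∀ s, r' ≤ s → s ≤ R' → s ∉ Z := by
  have h1 : (Ioo r R \ Z).Nonempty := ((Ioo_infinite hrR).sdiff hZ).nonempty
  obtain ⟨m, hm⟩ := h1
  have h2 : IsOpen (Ioo r R \ Z) := isOpen_Ioo.sdiff hZ.isClosed
  obtain ⟨ε, hε, h3⟩ := Metric.isOpen_iff.1 h2 m hm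
  refine ⟨m, m + ε / 2, hm.1.1, by linarith, ?_, fun s hs hs' => ?_⟩
  · exact (h3 (show m + ε / 2 ∈ Metric.ball m ε by
      rw [Metric.mem_ball, Real.dist_eq, add_sub_cancel_left, abs_of_pos (by linarith)]
      linarith)).1.2
  · exact (h3 (show s ∈ Metric.ball m ε by
      rw [Metric.mem_ball, Real.dist_eq, abs_of_nonneg (by linarith)]
      linarith)).2

/-- Weierstrass preparation of a monic polynomial in an annulus without zeros. Proof: the polynomial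
`v ↦ mon α t₀ v` is monic, so it has finitely many zeros; choose `r < r' < R' < R` such that no zero has
`r' ≤ ‖v‖ ≤ R'`. `wprep` (BaseO) for `f (t, v) = mon α t v` with `c = 0`; shrink `S` to the open set where the `α j` are
holomorphic. -/
theorem exists_prep {E : Type} [NormedAddCommGroup E] [NormedSpace ℂ E] [FiniteDimensional ℂ E]
    {t₀ : E} {n : ℕ} {α : Fin n → E → ℂ} (hα : ∀ j, HolAt (α j) t₀) {r R : ℝ} (hr : 0 < r)
    (hrR : r < R) :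
    ∃ r' R' : ℝ, r < r' ∧ r' < R' ∧ R' < R ∧ ∃ (S : Set E) (l : ℕ) (a : Fin l → E → ℂ)
      (u : E × ℂ → ℂ), IsOpen S ∧ t₀ ∈ S ∧ (∀ j, HolNear (a j) S) ∧ (∀ j, HolNear (α j) S) ∧
      (∀ t ∈ S, ∀ v, mon a t v = 0 → ‖v‖ < r') ∧
      HolNear u (S ×ˢ Metric.closedBall 0 R') ∧
      ∀ t ∈ S, ∀ v ∈ Metric.closedBall (0 : ℂ) R', u (t, v) ≠ 0 ∧
        mon α t v = u (t, v) * mon a t v := by
  classical
  obtain ⟨r', R', h1, h2, h3, h4⟩ := exists_radii_finite ((mon_zeros (t₀ := t₀) α).image fun v => ‖v‖) hrR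
  have hhol : ∀ p : E × ℂ, (∀ j, HolAt (α j) p.1) → HolAt (fun q : E × ℂ => mon α q.1 q.2) p := by
    intro p hp
    have e2 : HolAt (fun q : E × ℂ => q.2) p := Eventually.of_forall fun q => differentiableAt_snd
    have e1 : ∀ j, HolAt (fun q : E × ℂ => α j q.1) p := fun j =>
      (hp j).comp (Eventually.of_forall fun q => differentiableAt_fst)
    exact (holAt_pow' e2 n).add (HolAt.sum _ fun j _ => (e1 j).mul (holAt_pow' e2 j))
  obtain ⟨S, l, a, u, hS, hS0, ha, hroot, hu, hue⟩ := wprep (t₀ := t₀) (c := 0) (hr.trans h1) h2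
    (f := fun p : E × ℂ => mon α p.1 p.2)
    (by
      rintro ⟨t, v⟩ ⟨ht, hv⟩
      obtain rfl : t = t₀ := ht
      exact hhol _ hα)
    (by
      intro v hv1 hv2 h0
      rw [sub_zero] at hv1 hv2
      exact h4 _ hv1 hv2 ⟨v, h0, rfl⟩)
  have hU : ∀ᶠ t in 𝓝 t₀, ∀ j, HolAt (α j) t := eventually_all.2 fun j => (hα j).eventually
  obtain ⟨S', hS', hS'o, hS'0⟩ := eventually_nhds_iff.1 hU
  refine ⟨r', R', h1, h2, h3, S ∩ S', l, a, u, hS.inter hS'o, ⟨hS0, hS'0⟩,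
    fun j => (ha j).mono inter_subset_left, fun j t ht => hS' t ht.2 j, fun t ht v hv => ?_,
    hu.mono (prod_mono inter_subset_left subset_rfl), fun t ht v hv => hue t ht.1 v hv⟩
  have := hroot t ht.1 v hv
  rwa [sub_zero] at this

variable {V : Type} [NormedAddCommGroup V] [NormedSpace ℂ V] [FiniteDimensional ℂ V] {k d : ℕ}
  {𝓐 : Defo.{0, v} V} {M : EMod.{0, v, w} 𝓐.A} {M₀ : EMod.{0, 0, w} (O V)}
  {ρ : ∀ x, M.St x → M₀.St x} {Y : Set V} {σ : Sit V k d} {T₀ T T' : Set (Fin k → ℂ)}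

/-- `x ↦ mon a (t x) (g x)` -/
noncomputable def Sit.mf (σ : Sit V k d) {n : ℕ} (a : Fin n → (Fin k → ℂ) → ℂ) (g : V → ℂ) : V → ℂ :=
  fun x => mon a (σ.t x) (g x)

/-- Proof: sums and products of holomorphic functions, `σ.holAt_ft`. -/
theorem Sit.mf_hol (σ : Sit V k d) {n : ℕ} {a : Fin n → (Fin k → ℂ) → ℂ} {g : V → ℂ}
    (hg : ∀ x, HolAt g x) {x : V} (ha : ∀ j, HolAt (a j) (σ.t x)) : HolAt (σ.mf a g) x :=
  (holAt_pow' (hg x) n).add (HolAt.sum _ fun j _ => (σ.holAt_ft (ha j)).mul (holAt_pow' (hg x) j))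

/-- (34.9) multiplication by a unit near the smaller set. Proof: `χ • y = y₁ - y₂` on `Q12`; for the
situation `σ' = σ.shrink Rw' Rz'`: `ω • y = u⁻¹ • y₁ - u⁻¹ • y₂` on `σ'.Q12 P.T` (`om ω x = om u⁻¹ x * om χ x`), so
`HZero M₀ σ'`; conclude by `hs` (`ω • y` is a section over `σ.Q12 P.T`). -/
theorem kill_of_unit (hs : HShrink M₀ σ T₀) {Rw' Rz' : ℝ} (hw : σ.rw < Rw') (hz : σ.rz < Rz')
    (hw' : Rw' ≤ σ.Rw) (hz' : Rz' ≤ σ.Rz) (P : σ.Pd) (hP : P.Tc ⊆ T₀) {χ u ω : V → ℂ}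
    (hω : HolNear ω (σ.KO P.T)) (hu : HolNear u ((σ.shrink Rw' Rz' hw hz).KO P.T))
    (hu0 : ∀ x ∈ (σ.shrink Rw' Rz' hw hz).KO P.T, u x ≠ 0)
    (he : ∀ x ∈ (σ.shrink Rw' Rz' hw hz).KO P.T, χ x = u x * ω x) {y : (x : V) → M₀.St x}
    (hy : M₀.On y (σ.Q12 P.T)) (hy0 : HZero M₀ σ P.T fun x => om χ x • y x) :
    HZero M₀ σ P.T fun x => om ω x • y x := by
  set σ' := σ.shrink Rw' Rz' hw hz with hσ'
  have hsubKO : σ'.KO P.T ⊆ σ.KO P.T := by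
    intro x hx
    rw [Sit.mem_KO] at hx ⊢
    exact ⟨hx.1, lt_of_lt_of_le hx.2.1 hw', lt_of_lt_of_le hx.2.2.1 hz', hx.2.2.2⟩
  have hsub1 : σ'.Q1 P.T ⊆ σ.Q1 P.T := by
    intro x hx
    rw [Sit.mem_Q1] at hx ⊢
    exact ⟨hx.1, hx.2.1, lt_of_lt_of_le hx.2.2.1 hw', lt_of_lt_of_le hx.2.2.2.1 hz', hx.2.2.2.2⟩
  have hsub2 : σ'.Q2 P.T ⊆ σ.Q2 P.T := by
    intro x hx
    rw [Sit.mem_Q2] at hx ⊢
    exact ⟨hx.1, lt_of_lt_of_le hx.2.1 hw', hx.2.2.1, lt_of_lt_of_le hx.2.2.2.1 hz', hx.2.2.2.2⟩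
  have hsub12 : σ'.Q12 P.T ⊆ σ.Q12 P.T := by
    rw [Sit.Q12_eq, Sit.Q12_eq]
    exact inter_subset_inter hsub1 hsub2
  have hui : HolNear (fun x => (u x)⁻¹) (σ'.KO P.T) := fun x hx => holAt_inv' (hu x hx) (hu0 x hx)
  refine hs Rw' Rz' hw hz hw' hz' P hP _
    (hy.smul (hω.mono σ.Q12_sub_KO)) ?_
  obtain ⟨y₁, y₂, e1, e2, e3⟩ := hy0
  refine ⟨fun x => om (fun x => (u x)⁻¹) x • y₁ x, fun x => om (fun x => (u x)⁻¹) x • y₂ x,
    (e1.mono hsub1).smul (hui.mono σ'.Q1_sub_KO), (e2.mono hsub2).smul (hui.mono σ'.Q2_sub_KO),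
    fun x hx => ?_⟩
  rw [← smul_sub, ← e3 x (hsub12 hx), smul_smul]
  have hxK : x ∈ σ'.KO P.T := σ'.Q12_sub_KO hx
  have hχ : HolAt χ x := by
    refine HolAt.congr ((hu x hxK).mul (hω x (hsubKO hxK))) ?_
    filter_upwards [(σ'.isOpen_KO P.isOpen).mem_nhds hxK] with z hz using (he z hz).symm
  rw [← om_mul34 (hui x hxK) hχ]
  change om ω x • y x = _
  have key : om ω x = om ((fun x => (u x)⁻¹) * χ) x := by
    refine om_congr34 (hω x (hsubKO hxK)) ?_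
    filter_upwards [(σ'.isOpen_KO P.isOpen).mem_nhds hxK] with z hz
    change ω z = (u z)⁻¹ * χ z
    rw [he z hz, inv_mul_cancel_left₀ (hu0 z hz)]
  rw [key]

namespace Main

variable (hm : Main 𝓐 M M₀ ρ Y σ T₀)

/-- (34.9) Cayley-Hamilton. Proof: `mulV g` restricts to an endomorphism `f` of the finitely generated
module `Dh m₀` (`mulV_mem`, `LinearMap.restrict`); `LinearMap.exists_monic_and_aeval_eq_zero` gives a monic `p` with
`p(f) = 0`; `n = p.natDegree`, `om (α j) t₀ = p.coeff j` (`GM.exists_om`). For `y` with `cl y ∈ Dh m₀`: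
`(mulV g)^j (cl y) = cl (om (g^j) • y)` (induction, `mulV_cl`), so
`0 = cl (om (g^n) • y + ∑ j, om (ft (α j)) • om (g^j) • y)` (`GM.cl_act`, `GM.cl_add`, `GM.cl_comb`) and this family
agrees with `om (σ.mf α g) • y` on `Q12 T` for small `T` (`om_add34`, `om_mul34`), so the classes are equal
(`GM.cl_eq`, `hzero_of_eq`). -/
theorem exists_mon {m₀ : ℕ} (hfg : (hm.Dh hm.mem_T₀ m₀).FG) (g : V → ℂ) (hg : ∀ x, HolAt g x) :
    ∃ (n : ℕ) (α : Fin n → (Fin k → ℂ) → ℂ), (∀ j, HolAt (α j) σ.t₀) ∧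
      ∀ y ∈ (hm.HG hm.mem_T₀).N, (hm.HG hm.mem_T₀).cl y ∈ hm.Dh hm.mem_T₀ m₀ →
        (hm.HG hm.mem_T₀).cl (fun x => om (σ.mf α g) x • y x) = 0 := by
  classical
  have hfin : Module.Finite ((O (Fin k → ℂ)).St σ.t₀) (hm.Dh hm.mem_T₀ m₀) :=
    Module.Finite.iff_fg.2 hfg
  set F := hm.mulV hm.mem_T₀ g hg with hF
  set f : Module.End ((O (Fin k → ℂ)).St σ.t₀) (hm.Dh hm.mem_T₀ m₀) :=
    F.restrict (fun a ha => hm.mulV_mem hm.mem_T₀ g hg ha) with hf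
  obtain ⟨p, hp, hp0⟩ := LinearMap.exists_monic_and_aeval_eq_zero ((O (Fin k → ℂ)).St σ.t₀) f
  have hpow : ∀ (j : ℕ) (a : hm.Dh hm.mem_T₀ m₀), ((f ^ j) a : (hm.HG hm.mem_T₀).Gm) =
      (F ^ j) (a : (hm.HG hm.mem_T₀).Gm) := by
    intro j
    induction j with
    | zero => intro a; rfl
    | succ j ih =>
      intro a
      rw [pow_succ', pow_succ', Module.End.mul_apply, Module.End.mul_apply, ← ih]
      rfl
  choose α hα hαp using fun j : Fin p.natDegree => GM.exists_om (t := σ.t₀) (p.coeff j)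
  refine ⟨p.natDegree, α, hα, fun y hy hyD => ?_⟩
  have hgp : ∀ j : ℕ, ∀ x, HolAt (fun z => g z ^ j) x := fun j x => holAt_pow' (hg x) j
  have hN : ∀ j : ℕ, (fun x => om (fun z => g z ^ j) x • y x) ∈ (hm.HG hm.mem_T₀).N := by
    intro j
    obtain ⟨T, hT, h1, h2, h3⟩ := hy
    exact hm.N_mk hm.mem_T₀ hT h1 h2 (h3.smul fun x _ => hgp j x)
  have hcl : ∀ j : ℕ, (F ^ j) ((hm.HG hm.mem_T₀).cl y) =
      (hm.HG hm.mem_T₀).cl (fun x => om (fun z => g z ^ j) x • y x) := by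
    intro j
    induction j with
    | zero =>
      rw [pow_zero, Module.End.one_apply]
      congr 1
      funext x
      have h1 : om (fun z => g z ^ 0) x = 1 := by
        have h2 : (fun z => g z ^ 0) = (1 : V → ℂ) := by
          funext z
          exact pow_zero _
        rw [h2]
        exact gm_one x
      rw [h1, one_smul]
    | succ j ih =>
      rw [pow_succ', Module.End.mul_apply, ih, hF, hm.mulV_cl hm.mem_T₀ g hg (hN j)]
      congr 1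
      funext x
      rw [smul_smul, ← om_mul34 (hg x) (hgp j x)]
      have h2 : (fun z => g z ^ (j + 1)) = g * fun z => g z ^ j := by
        funext z
        exact pow_succ' _ _
      rw [h2]
  have h0 : (F ^ p.natDegree) ((hm.HG hm.mem_T₀).cl y) +
      ∑ j : Fin p.natDegree, om (α j) σ.t₀ • (F ^ (j : ℕ)) ((hm.HG hm.mem_T₀).cl y) = 0 := by
    have h1 : ((Polynomial.aeval f p) ⟨(hm.HG hm.mem_T₀).cl y, hyD⟩ : hm.Dh hm.mem_T₀ m₀) = 0 := by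
      rw [hp0]
      rfl
    rw [Polynomial.aeval_eq_sum_range, LinearMap.sum_apply, Finset.sum_range_succ] at h1
    have h2 := congrArg (Subtype.val) h1
    rw [Submodule.coe_add, Submodule.coe_sum, hp.coeff_natDegree, one_smul, hpow] at h2
    rw [add_comm] at h2
    refine Eq.trans ?_ h2
    rw [Finset.sum_range]
    congr 1
    refine Finset.sum_congr rfl fun j _ => ?_
    rw [hαp, ← hpow j ⟨(hm.HG hm.mem_T₀).cl y, hyD⟩]
    rfl
  rw [hcl] at h0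
  have h1 : ∀ j : Fin p.natDegree, om (α j) σ.t₀ • (F ^ (j : ℕ)) ((hm.HG hm.mem_T₀).cl y) =
      om (α j) σ.t₀ • (hm.HG hm.mem_T₀).cl (fun x => om (fun z => g z ^ (j : ℕ)) x • y x) :=
    fun j => by rw [hcl]
  rw [Finset.sum_congr rfl fun j _ => h1 j,
    ← (GM.cl_comb (G := hm.HG hm.mem_T₀) hα fun j : Fin p.natDegree => hN j).2,
    ← GM.cl_add (hN _) (GM.cl_comb (G := hm.HG hm.mem_T₀) hα
      fun j : Fin p.natDegree => hN j).1] at h0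
  rw [← h0]
  obtain ⟨T, hT, e1, e2, e3⟩ := hy
  have hU : ∀ᶠ t in 𝓝 σ.t₀, ∀ j, HolAt (α j) t := eventually_all.2 fun j => (hα j).eventually
  obtain ⟨S, hS, hSo, hS0⟩ := eventually_nhds_iff.1 hU
  have hsub : T ∩ S ⊆ T₀ := inter_subset_left.trans e2
  have hmN : (fun x => om (σ.mf α g) x • y x) ∈ (hm.HG hm.mem_T₀).N :=
    hm.N_mk hm.mem_T₀ (hT.inter hSo) ⟨e1, hS0⟩ hsub
      ((e3.mono (σ.Q12_mono inter_subset_left)).smul
        fun x hx => σ.mf_hol hg fun j => hS _ hx.1.2 j)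
  have hy : y ∈ (hm.HG hm.mem_T₀).N := hm.N_mk hm.mem_T₀ hT e1 e2 e3
  refine (GM.cl_eq hmN ((hm.HG hm.mem_T₀).N.add_mem (hN _) (GM.cl_comb (G := hm.HG hm.mem_T₀) hα
      fun j : Fin p.natDegree => hN j).1)).2 ?_
  refine hm.Z_mk hm.mem_T₀ (hT.inter hSo) ⟨e1, hS0⟩ hsub
    (hzero_of_eq (hm.Q1_dom₀ hsub) (hm.Q2_dom₀ hsub) fun x hx => ?_)
  have hαx : ∀ j, HolAt (α j) (σ.t x) := hS _ hx.1.2
  have key : om (σ.mf α g) x = om (fun z => g z ^ p.natDegree) x +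
      ∑ j : Fin p.natDegree, om (σ.ft (α j)) x * om (fun z => g z ^ (j : ℕ)) x := by
    have h2 : ∀ I : Finset (Fin p.natDegree),
        om (fun z => ∑ j ∈ I, σ.ft (α j) z * g z ^ (j : ℕ)) x =
          ∑ j ∈ I, om (σ.ft (α j)) x * om (fun z => g z ^ (j : ℕ)) x := by
      intro I
      induction I using Finset.induction_on with
      | empty =>
        simp only [Finset.sum_empty]
        exact gm_zero x
      | insert a I ha ih =>
        rw [Finset.sum_insert ha, ← ih, ← om_mul34 (σ.holAt_ft (hαx a)) (hgp _ x)]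
        refine Eq.trans ?_ (om_add34 (f := σ.ft (α a) * fun z => g z ^ (a : ℕ))
          (g := fun z => ∑ j ∈ I, σ.ft (α j) z * g z ^ (j : ℕ))
          ((σ.holAt_ft (hαx a)).mul (hgp _ x))
            (HolAt.sum _ fun j _ => (σ.holAt_ft (hαx j)).mul (hgp _ x)))
        congr 1
        funext z
        exact Finset.sum_insert ha
    rw [← h2, ← om_add34 (hgp _ x) (HolAt.sum _ fun j _ => (σ.holAt_ft (hαx j)).mul (hgp _ x))]
    rfl
  change om (σ.mf α g) x • y x - (om (fun z => g z ^ p.natDegree) x • y x +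
    (∑ j : Fin p.natDegree, (hm.HG hm.mem_T₀).act (α j)
      (fun x => om (fun z => g z ^ (j : ℕ)) x • y x)) x) = 0
  rw [Finset.sum_apply, key, add_smul, Finset.sum_smul, sub_eq_zero]
  congr 1
  refine Finset.sum_congr rfl fun j _ => ?_
  rw [hm.act_eq, mul_smul]

end Main

end Pool.Agent.DQ
end

section

/-! M34, functions which kill the obstruction classes 2. -/

set_option autoImplicit false
set_option linter.unusedSectionVars false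

open Set Filter Topology

universe u v w

namespace Pool.Agent.DQ

variable {V : Type} [NormedAddCommGroup V] [NormedSpace ℂ V] [FiniteDimensional ℂ V] {k d : ℕ}
  {𝓐 : Defo.{0, v} V} {M : EMod.{0, v, w} 𝓐.A} {M₀ : EMod.{0, 0, w} (O V)}
  {ρ : ∀ x, M.St x → M₀.St x} {Y : Set V} {σ : Sit V k d} {T₀ T T' : Set (Fin k → ℂ)}

namespace Main

variable (hm : Main 𝓐 M M₀ ρ Y σ T₀)

/-- (34.9) a monic polynomial in `w`, with all roots in a smaller disc, which kills all obstruction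
classes over good polydiscs. Proof: `exists_mon` for `g = σ.w`, `exists_prep` with `r = σ.rw`, `R = σ.Rw`:
`rw' := r'`, `S` intersected with `T₀`. Let `y` be in `DD34 m` over `P.T`: its class is in `Dh m ≤ Dh m₀`; the class of
`om (σ.mf α σ.w) • y` is zero, so by `Star.zero` this section (it is a section over `Q12 P.T`) has vanishing class over
`P.T`; `kill_of_unit` with `Rw' = R'`, `Rz' = σ.Rz`, `χ = σ.mf α σ.w`, `u x = u (σ.t x, σ.w x)`, `ω = σ.mf a σ.w`. -/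
theorem exists_killer_w {m₀ : ℕ} (hs : HShrink M₀ σ T₀) (hfg : (hm.Dh hm.mem_T₀ m₀).FG)
    (hle : ∀ m, hm.Dh hm.mem_T₀ m ≤ hm.Dh hm.mem_T₀ m₀) :
    ∃ rw' : ℝ, σ.rw < rw' ∧ rw' < σ.Rw ∧ ∃ (S : Set (Fin k → ℂ)) (l : ℕ)
      (a : Fin l → (Fin k → ℂ) → ℂ), IsOpen S ∧ σ.t₀ ∈ S ∧ S ⊆ T₀ ∧ (∀ j, HolNear (a j) S) ∧
      (∀ t ∈ S, ∀ v, mon a t v = 0 → ‖v‖ < rw') ∧
      ∀ (P : σ.Pd) (s : ℕ) (dd : Fin s → (x : V) → M₀.St x), P.Tc ⊆ S → hm.Star m₀ dd P →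
        ∀ m y, DD34 𝓐 M M₀ ρ σ m P.T y → HZero M₀ σ P.T fun x => om (σ.mf a σ.w) x • y x := by
  obtain ⟨n, α, hα, hk⟩ := hm.exists_mon hfg σ.w σ.holAt_w
  obtain ⟨r', R', h1, h2, h3, S, l, a, u, hS, htS, haS, hαS, hroot, hu, hmul⟩ :=
    exists_prep hα σ.rw_pos σ.rw_lt
  refine ⟨r', h1, h2.trans h3, S ∩ T₀, l, a, hS.inter hm.T₀_open, ⟨htS, hm.mem_T₀⟩,
    inter_subset_right, fun j => (haS j).mono inter_subset_left, fun t ht => hroot t ht.1, ?_⟩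
  intro P s dd hP hstar m y hy
  have hPS : P.T ⊆ S := P.sub.trans (hP.trans inter_subset_left)
  have hPcT : P.Tc ⊆ T₀ := hP.trans inter_subset_right
  have hPT : P.T ⊆ T₀ := P.sub.trans hPcT
  have hyN : y ∈ (hm.HG hm.mem_T₀).N := hm.N_mk hm.mem_T₀ P.isOpen P.mem hPT hy.1
  have hyD : (hm.HG hm.mem_T₀).cl y ∈ hm.Dh hm.mem_T₀ m₀ :=
    hle m ⟨y, ⟨P.T, P.isOpen, P.mem, hPT, hy⟩, rfl⟩
  have hcl := hk y hyN hyD
  have hmf : ∀ (q : ℕ) (b : Fin q → (Fin k → ℂ) → ℂ), (∀ j, HolNear (b j) S) →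
      HolNear (σ.mf b σ.w) (σ.KO P.T) := fun q b hb x hx =>
    σ.mf_hol σ.holAt_w fun j => hb j _ (hPS (σ.mem_KO.1 hx).1)
  have h0 : HZero M₀ σ P.T fun x => om (σ.mf α σ.w) x • y x :=
    hstar.zero _ (hy.1.smul ((hmf n α hαS).mono σ.Q12_sub_KO)) hcl
  have hmem : ∀ x ∈ (σ.shrink R' σ.Rz (h1.trans h2) σ.rz_lt).KO P.T,
      σ.t x ∈ S ∧ σ.w x ∈ Metric.closedBall (0 : ℂ) R' := by
    intro x hx
    have hx' := (Sit.mem_KO _).1 hx
    exact ⟨hPS hx'.1, mem_closedBall_zero_iff.2 hx'.2.1.le⟩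
  refine kill_of_unit hs (h1.trans h2) σ.rz_lt h3.le le_rfl P hPcT (χ := σ.mf α σ.w)
    (u := fun x => u (σ.t x, σ.w x)) (hmf l a haS) ?_ ?_ ?_ hy.1 h0
  · intro x hx
    refine HolAt.comp (g := fun x => (σ.t x, σ.w x)) (hu _ (hmem x hx)) ?_
    filter_upwards [σ.holAt_w x] with y hy
    exact (σ.differentiable_t y).prodMk hy
  · intro x hx
    exact (hmul _ (hmem x hx).1 _ (hmem x hx).2).1
  · intro x hx
    exact (hmul _ (hmem x hx).1 _ (hmem x hx).2).2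

/-- the same for `z` -/
theorem exists_killer_z {m₀ : ℕ} (hs : HShrink M₀ σ T₀) (hfg : (hm.Dh hm.mem_T₀ m₀).FG)
    (hle : ∀ m, hm.Dh hm.mem_T₀ m ≤ hm.Dh hm.mem_T₀ m₀) :
    ∃ rz' : ℝ, σ.rz < rz' ∧ rz' < σ.Rz ∧ ∃ (S : Set (Fin k → ℂ)) (l : ℕ)
      (a : Fin l → (Fin k → ℂ) → ℂ), IsOpen S ∧ σ.t₀ ∈ S ∧ S ⊆ T₀ ∧ (∀ j, HolNear (a j) S) ∧
      (∀ t ∈ S, ∀ v, mon a t v = 0 → ‖v‖ < rz') ∧
      ∀ (P : σ.Pd) (s : ℕ) (dd : Fin s → (x : V) → M₀.St x), P.Tc ⊆ S → hm.Star m₀ dd P →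
        ∀ m y, DD34 𝓐 M M₀ ρ σ m P.T y → HZero M₀ σ P.T fun x => om (σ.mf a σ.z) x • y x := by
  obtain ⟨n, α, hα, hk⟩ := hm.exists_mon hfg σ.z σ.holAt_z
  obtain ⟨r', R', h1, h2, h3, S, l, a, u, hS, htS, haS, hαS, hroot, hu, hmul⟩ :=
    exists_prep hα σ.rz_pos σ.rz_lt
  refine ⟨r', h1, h2.trans h3, S ∩ T₀, l, a, hS.inter hm.T₀_open, ⟨htS, hm.mem_T₀⟩,
    inter_subset_right, fun j => (haS j).mono inter_subset_left, fun t ht => hroot t ht.1, ?_⟩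
  intro P s dd hP hstar m y hy
  have hPS : P.T ⊆ S := P.sub.trans (hP.trans inter_subset_left)
  have hPcT : P.Tc ⊆ T₀ := hP.trans inter_subset_right
  have hPT : P.T ⊆ T₀ := P.sub.trans hPcT
  have hyN : y ∈ (hm.HG hm.mem_T₀).N := hm.N_mk hm.mem_T₀ P.isOpen P.mem hPT hy.1
  have hyD : (hm.HG hm.mem_T₀).cl y ∈ hm.Dh hm.mem_T₀ m₀ :=
    hle m ⟨y, ⟨P.T, P.isOpen, P.mem, hPT, hy⟩, rfl⟩
  have hcl := hk y hyN hyD
  have hmf : ∀ (q : ℕ) (b : Fin q → (Fin k → ℂ) → ℂ), (∀ j, HolNear (b j) S) →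
      HolNear (σ.mf b σ.z) (σ.KO P.T) := fun q b hb x hx =>
    σ.mf_hol σ.holAt_z fun j => hb j _ (hPS (σ.mem_KO.1 hx).1)
  have h0 : HZero M₀ σ P.T fun x => om (σ.mf α σ.z) x • y x :=
    hstar.zero _ (hy.1.smul ((hmf n α hαS).mono σ.Q12_sub_KO)) hcl
  have hmem : ∀ x ∈ (σ.shrink σ.Rw R' σ.rw_lt (h1.trans h2)).KO P.T,
      σ.t x ∈ S ∧ σ.z x ∈ Metric.closedBall (0 : ℂ) R' := by
    intro x hx
    have hx' := (Sit.mem_KO _).1 hx
    exact ⟨hPS hx'.1, mem_closedBall_zero_iff.2 hx'.2.2.1.le⟩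
  refine kill_of_unit hs σ.rw_lt (h1.trans h2) le_rfl h3.le P hPcT (χ := σ.mf α σ.z)
    (u := fun x => u (σ.t x, σ.z x)) (hmf l a haS) ?_ ?_ ?_ hy.1 h0
  · intro x hx
    refine HolAt.comp (g := fun x => (σ.t x, σ.z x)) (hu _ (hmem x hx)) ?_
    filter_upwards [σ.holAt_z x] with y hy
    exact (σ.differentiable_t y).prodMk hy
  · intro x hx
    exact (hmul _ (hmem x hx).1 _ (hmem x hx).2).1
  · intro x hx
    exact (hmul _ (hmem x hx).1 _ (hmem x hx).2).2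

end Main

end Pool.Agent.DQ
end

section

/-! M34, rank bound 5c: Fact B. -/

set_option autoImplicit false
set_option linter.unusedSectionVars false

open Set Filter Topology

universe u v w

namespace Pool.Agent.DQ

variable {V : Type} [NormedAddCommGroup V] [NormedSpace ℂ V] [FiniteDimensional ℂ V] {k d : ℕ}
  {𝓐 : Defo.{0, v} V} {M : EMod.{0, v, w} 𝓐.A} {M₀ : EMod.{0, 0, w} (O V)}
  {ρ : ∀ x, M.St x → M₀.St x} {Y : Set V} {σ : Sit V k d} {T₀ T T' : Set (Fin k → ℂ)}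
  {M₀' : EMod.{0, 0, 0} (O V)} {θ : ∀ x, M₀'.St x → M₀.St x}

variable (hm : Main 𝓐 M M₀ ρ Y σ T₀) (hext : Ext0 M₀ σ T₀ M₀' θ) (C : CutD M M₀ M₀' σ T₀)
  {t₁ : Fin k → ℂ} (ht : t₁ ∈ T₀)

/-- (Fact B) Proof: let `(h, 0)` be given by `PE n` over `T` with `s'`. `Sit.sec_eq_zero_iff`: `s' x ∈ Ns x` for
`x ∈ C.σ₁.KC {t₁}`, hence (the section `qk s'` of `QQ` vanishes near such `x`; `Sit.KC_tube`) for `x ∈ C.σ₁.KC {t}`, `t` near `t₁`.
Let `B` be a regular polydisc around `t₁` (`C.exists_B`) inside `T` and this neighbourhood, `G : Gens … B`, `B'` a smaller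
polydisc, `t₁ ∈ B'.T`, `B'.Tc ⊆ B.T`. `IsBox.sub_comb` for `C.σ₁.isBox_KO B'`, `M₀'` and the sections `G.g'`
(`G.span`): `s' = ∑ om (a i) • G.g' i` on `C.σ₁.KO B'.T`. `glue_r`: `r`. Lift `r` to a section `X` of `M` over `KO B'.T`
(`IsBox.lift` for `σ.isBox_KO B'`, `hm.refl.coh`, `hm.refl.tf`). `PK.full`: `JJ (n+2) B'.T r`. `hm.dd_of_jj` for the
restriction of `(x₁, x₂, y)` to `B'.T`: `DD34 n B'.T (ρ y)`, so `h ∈ Dh n`. -/
theorem GG_B {n : ℕ} (hreg : C.Reg t₁) {h : (hm.HG ht).Gm}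
    (hp : (h, (0 : (C.σ₁.ps (QQ M₀ σ T₀ M₀' θ)).St t₁)) ∈ GG34 hm hext C ht n) :
    h ∈ hm.Dh ht n := by
  obtain ⟨T, hT, h1, h2, x₁, x₂, y, s', hPE, hh, h0⟩ := mem_GG.1 hp
  -- the section vanishes near the fibre
  have hKC1 : C.σ₁.KC {t₁} ⊆ σ.KO T := fun x hx =>
    σ.KO_mono (singleton_subset_iff.2 h1) (C.KC₁_sub hx)
  have hon : (QQ M₀ σ T₀ M₀' θ).On (qk M₀ σ T₀ M₀' θ s') (σ.KO T) := qk_on hPE.on
  have hz := (C.σ₁.sec_eq_zero_iff (hon.mono hKC1)).1 h0.symm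
  have hnear : ∀ᶠ t in 𝓝 t₁, ∀ x ∈ C.σ₁.KC {t}, qk M₀ σ T₀ M₀' θ s' x = 0 := by
    refine C.σ₁.KC_tube fun x hx => ?_
    have h3 := hon x (hKC1 hx)
    have h4 : x ∈ (QQ M₀ σ T₀ M₀' θ).dom := (QQ M₀ σ T₀ M₀' θ).mem_dom h3
    exact (QQ M₀ σ T₀ M₀' θ).inj h3 ((QQ M₀ σ T₀ M₀' θ).zero x h4) (hz x hx)
  -- a regular polydisc
  obtain ⟨B, htB, hBW, hBT, hBM⟩ := C.exists_B hreg (inter_mem (hT.mem_nhds h1) hnear)
  obtain ⟨G⟩ := exists_gens34 hm hext B (hBT.trans C.T₁_sub) hBM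
  obtain ⟨B', htB', hB'⟩ := exists_TB t₁ (B.isOpen.mem_nhds htB)
  have hB'T : B'.Tc ⊆ T := fun t ht' => (hBW (B.sub (hB' ht'))).1
  have hB'T₀ : B'.Tc ⊆ T₀ := hB'T.trans h2
  have hB'o : B'.T ⊆ T := B'.sub.trans hB'T
  have hcoh' : M₀'.Coh (C.σ₁.KC B'.Tc) := fun x hx =>
    hext.coh x (σ.KC_mono34 hB'T₀ (σ.KO_sub_KC (C.KC₁_sub hx)))
  obtain ⟨a, ha, hsa⟩ := (C.σ₁.isBox_KO B').sub_comb M₀' hcoh' G.g'
    (fun i x hx => G.on' i x (σ.KO_mono hB' (C.KC₁_sub hx))) s'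
    (fun x hx => hPE.on x (σ.KO_mono hB'o (C.KC₁_sub (C.σ₁.KO_sub_KC hx))))
    (fun x hx => by
      have hx1 : x ∈ C.σ₁.KC B'.T := C.σ₁.KO_sub_KC hx
      have hxO : x ∈ σ.KO B.T := σ.KO_mono (B'.sub.trans hB') (C.KC₁_sub hx1)
      rw [← G.span x hxO]
      have ht2 : σ.t x ∈ B'.T := (σ.mem_KO.1 (C.KC₁_sub hx1)).1
      have h5 := (hBW (B.sub (hB' (B'.sub ht2)))).2 x
        (C.mem_KC₁.2 ⟨rfl, (C.mem_KC₁.1 hx1).2⟩)
      exact (Submodule.Quotient.mk_eq_zero _).1 h5)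
  obtain ⟨r, hr, hre⟩ := glue_r hm hext C hBT hBM G hB'
    (hPE.on.mono (σ.KO_mono hB'o)) ha hsa
  -- lift to a section of `M`
  have hKCM : σ.KC B'.Tc ⊆ M.dom := (σ.KC_mono34 (hB'.trans B.sub)).trans hBM
  obtain ⟨X, hX, hXr⟩ := (σ.isBox_KO B').lift hm.red
    (fun x hx => hm.refl.coh x (hKCM hx)) (fun x hx => hm.refl.tf x (hKCM hx)) r hr
  have hj : JJ 𝓐 M M₀ ρ σ (n + 2) B'.T r :=
    ⟨X, X, 0, PK.full hX, fun x hx => hXr x (σ.Q1_sub_KO hx), fun x hx => hXr x (σ.Q2_sub_KO hx)⟩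
  have hd := hm.dd_of_jj B'.isOpen (hB'o.trans h2) (hPE.pk.mono hB'o) hj
    (fun x hx => by
      rw [hre x (Or.inl hx), hPE.eq₁ x (σ.Q1_mono hB'o hx)])
    (fun x hx => by
      rw [hre x (Or.inr hx), hPE.eq₂ x (σ.Q2_mono hB'o hx)])
  exact (hm.mem_Dh ht).2 ⟨_, ⟨B'.T, B'.isOpen, htB', hB'o.trans h2, hd⟩, hh.symm⟩

end Pool.Agent.DQ
end

section

/-! M34, rank bound 6: conclusion. -/

set_option autoImplicit false
set_option linter.unusedSectionVars false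

open Set Filter Topology

universe u v w

namespace Pool.Agent.DQ

variable {V : Type} [NormedAddCommGroup V] [NormedSpace ℂ V] [FiniteDimensional ℂ V] {k d : ℕ}
  {𝓐 : Defo.{0, v} V} {M : EMod.{0, v, w} 𝓐.A} {M₀ : EMod.{0, 0, w} (O V)}
  {ρ : ∀ x, M.St x → M₀.St x} {Y : Set V} {σ : Sit V k d} {T₀ T T' : Set (Fin k → ℂ)}
  {M₀' : EMod.{0, 0, 0} (O V)} {θ : ∀ x, M₀'.St x → M₀.St x}

/-- **dependence at a regular point.** Proof: `M34.dep_of_filtration` with `G 0 = (⊥).prod ⊤`,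
`G (n+1) = GG34 hm hext C ht n`: `hA` from `GG_A` (for `n = 0`: clear), `hB` for `0`: `GG_B` with `n = 0` and
`hm.Dh_zero`; for `n + 1`: `GG_B` and `exists_GG`; `h0` clear; `hx`: for `m = 0` `Dh_zero`, for `m = n + 1`
`exists_GG`. -/
theorem dep_at (hm : Main 𝓐 M M₀ ρ Y σ T₀) (hext : Ext0 M₀ σ T₀ M₀' θ)
    (C : CutD M M₀ M₀' σ T₀) {t₁ : Fin k → ℂ} (ht : t₁ ∈ T₀) (hreg : C.Reg t₁) {b : ℕ}
    (hb : Module.rank ((O (Fin k → ℂ)).St t₁) ((C.σ₁.ps (QQ M₀ σ T₀ M₀' θ)).St t₁) ≤ b) {m : ℕ}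
    (x : Fin (b + 1) → (hm.HG ht).Gm) (hxm : ∀ p, x p ∈ hm.Dh ht m) :
    ¬ LinearIndependent ((O (Fin k → ℂ)).St t₁) x := by
  set G : ℕ → Submodule ((O (Fin k → ℂ)).St t₁)
      ((hm.HG ht).Gm × (C.σ₁.ps (QQ M₀ σ T₀ M₀' θ)).St t₁) :=
    fun j => Nat.casesOn j ((⊥ : Submodule ((O (Fin k → ℂ)).St t₁) (hm.HG ht).Gm).prod ⊤)
      (fun n => GG34 hm hext C ht n) with hG
  have hG0 : ∀ h γ, (h, γ) ∈ G 0 ↔ h = 0 := fun h γ => by
    change (h, γ) ∈ (⊥ : Submodule ((O (Fin k → ℂ)).St t₁) (hm.HG ht).Gm).prod ⊤ ↔ _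
    rw [Submodule.mem_prod, Submodule.mem_bot]
    exact ⟨fun h' => h'.1, fun h' => ⟨h', Submodule.mem_top⟩⟩
  have hGs : ∀ n, G (n + 1) = GG34 hm hext C ht n := fun n => rfl
  have hD : ∀ j, ∀ h ∈ hm.Dh ht j, ∃ γ, (h, γ) ∈ G j := by
    intro j h hh
    cases j with
    | zero => exact ⟨0, (hG0 h 0).2 (hm.Dh_zero ht hh)⟩
    | succ n =>
      rw [hGs]
      exact exists_GG hm hext C ht hh
  refine M34.dep_of_filtration b hb G ?_ ?_ ?_ m x fun i => hD m _ (hxm i)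
  · intro j h γ hp
    rw [hGs] at hp
    cases j with
    | zero => exact (hG0 0 γ).2 rfl
    | succ n =>
      rw [hGs]
      exact GG_A hm hext C ht hp
  · intro j h hp
    rw [hGs] at hp
    exact hD j h (GG_B hm hext C ht hreg hp)
  · intro h γ hp
    exact (hG0 h γ).1 hp

/-- **rank bound.** Proof: `exists_cutD`; choose `ε > 0` with `t₀ + a • dir ∈ C.T₁` for `0 < a < ε`; these points
are regular: `KC {t₀ + a • dir}` is in `𝓐.A.dom` (`hm.KC_sub`) and outside of `Y` by `hYdir`, so in `M.dom` (`hm.dom`).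
`C.ps_cohAt`, `rank_segment`: the rank is `b` at all of them. For `W ∈ 𝓝 t₀` take `a` small; `dep_at`. -/
theorem exists_rankBound (hm : Main 𝓐 M M₀ ρ Y σ T₀) (hext : Ext0 M₀ σ T₀ M₀' θ)
    (dir : Fin k → ℂ)
    (hYdir : ∀ x ∈ σ.KC T₀, ∀ a : ℂ, σ.t x = σ.t₀ + a • dir → a ≠ 0 → x ∉ Y) :
    ∃ b, hm.RankBound b := by
  obtain ⟨C⟩ := exists_cutD hm hext
  have hcont : Continuous fun a : ℝ => σ.t₀ + (a : ℂ) • dir := by fun_prop
  have h00 : σ.t₀ + ((0 : ℝ) : ℂ) • dir = σ.t₀ := by simp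
  have hnear : ∀ W ∈ 𝓝 σ.t₀, ∃ ε > 0, ∀ a : ℝ, 0 < a → a < ε → σ.t₀ + (a : ℂ) • dir ∈ W := by
    intro W hW
    have h3 : W ∈ 𝓝 (σ.t₀ + ((0 : ℝ) : ℂ) • dir) := by
      rw [h00]
      exact hW
    have h1 : ∀ᶠ a : ℝ in 𝓝 0, σ.t₀ + (a : ℂ) • dir ∈ W :=
      (hcont.continuousAt (x := (0 : ℝ))).eventually h3
    obtain ⟨ε, hε, h2⟩ := Metric.eventually_nhds_iff.1 h1
    refine ⟨ε, hε, fun a ha ha' => h2 ?_⟩
    rw [Real.dist_eq, sub_zero, abs_of_pos ha]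
    exact ha'
  obtain ⟨ε, hε, hC⟩ := hnear C.T₁ (C.T₁_open.mem_nhds C.mem_T₁)
  have hreg : ∀ a : ℝ, 0 < a → a < ε → C.Reg (σ.t₀ + (a : ℂ) • dir) := by
    intro a ha ha'
    refine ⟨hC a ha ha', fun x hx => ?_⟩
    have h1 : x ∈ σ.KC T₀ :=
      σ.KC_mono34 (singleton_subset_iff.2 (C.T₁_sub (hC a ha ha'))) hx
    rw [hm.dom]
    refine ⟨hm.KC_sub h1, hYdir x h1 a ?_ ?_⟩
    · exact (σ.mem_KC.1 hx).1
    · exact_mod_cast ha.ne'
  obtain ⟨b, hb⟩ := rank_segment σ.t₀ dir hε fun a ha ha' =>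
    C.ps_cohAt hm hext (hreg a ha ha')
  refine ⟨b, fun W hW => ?_⟩
  obtain ⟨ε', hε', hW'⟩ := hnear W hW
  have hmin : 0 < min ε ε' := lt_min hε hε'
  have ha : 0 < min ε ε' / 2 := by positivity
  have ha1 : min ε ε' / 2 < ε := (half_lt_self hmin).trans_le (min_le_left _ _)
  have ha2 : min ε ε' / 2 < ε' := (half_lt_self hmin).trans_le (min_le_right _ _)
  refine ⟨_, hW' _ ha ha2, C.T₁_sub (hC _ ha ha1), fun m x hxm => ?_⟩
  exact dep_at hm hext C _ (hreg _ ha ha1) (hb _ ha ha1).le x hxm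

end Pool.Agent.DQ
end
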