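import Pool.Agent.Lib.MP_4aa2a9_ag.Mg.G016
import Pool.Agent.Lib.MP_4aa2a9_ag.Mg.G036
import Pool.Agent.Lib.MP_4aa2a9_ag.Mg.G017
import Pool.Agent.Lib.MP_4aa2a9_ag.Mg.G023
import Pool.Agent.Lib.MP_4aa2a9_ag.Mg.G012

section

/-! # DQ, module M56, part c: generators, relations and syzygies lift (56.4, 56.5) -/

set_option autoImplicit false
set_option linter.unusedSectionVars false

open Set Filter Topology

universe u v w

namespace Pool.Agent.DQ

/-- Successive approximation with coefficients over `U` and equality over `E ⊆ U`. -/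
theorem Defo.iterate25 {V : Type u} [NormedAddCommGroup V] [NormedSpace ℂ V] (𝓐 : Defo.{u, v} V)
    {M : EMod.{u, v, w} 𝓐.A} {U E : Set V} (hU : IsOpen U) (hUd : U ⊆ 𝓐.A.dom) (hEU : E ⊆ U)
    (hsep : ∀ x ∈ E, 𝓐.SepAt M x) {ι : Type*} [Fintype ι] (β : ι → (x : V) → M.St x)
    (P : ((x : V) → M.St x) → Prop)
    (step : ∀ s, P s → ∃ (C : ι → (x : V) → 𝓐.A.St x) (s' : (x : V) → M.St x),
      (∀ i, ∀ x ∈ U, 𝓐.A.At (C i) x) ∧ P s' ∧
      ∀ x ∈ E, s x = ∑ i, C i x • β i x + 𝓐.hb x • s' x)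
    (s : (x : V) → M.St x) (hPs : P s) :
    ∃ D : ι → (x : V) → 𝓐.A.St x, (∀ i, ∀ x ∈ U, 𝓐.A.At (D i) x) ∧
      ∀ x ∈ E, s x = ∑ i, D i x • β i x := by
  classical
  choose! C nx hC hPnx hstep using step
  let S : ℕ → (x : V) → M.St x := fun k => Nat.rec s (fun _ t => nx t) k
  have hS : ∀ k, P (S k) := by
    intro k
    induction k with
    | zero => exact hPs
    | succ k ih => exact hPnx _ ih
  have hSk : ∀ k, ∀ x ∈ E, S k x = ∑ i, C (S k) i x • β i x + 𝓐.hb x • S (k + 1) x :=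
    fun k x hx => hstep _ (hS k) x hx
  have hsum : ∀ k, ∀ x ∈ E, s x =
      ∑ i, (∑ j ∈ Finset.range k, 𝓐.hb x ^ j * C (S j) i x) • β i x + 𝓐.hb x ^ k • S k x := by
    intro k x hx
    induction k with
    | zero => simp [S]
    | succ k ih =>
      rw [ih, hSk k x hx, smul_add, smul_smul, ← pow_succ, ← add_assoc]
      congr 1
      rw [Finset.smul_sum, ← Finset.sum_add_distrib]
      refine Finset.sum_congr rfl fun i _ => ?_
      rw [Finset.sum_range_succ, add_smul, smul_smul]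
  choose D hD hDk using fun i => 𝓐.complete (U := U) (fun k => C (S k) i) hU hUd
    (fun k x hx => hC _ (hS k) i x hx)
  refine ⟨D, hD, fun x hx => ?_⟩
  rw [← sub_eq_zero]
  apply hsep x hx
  intro k
  choose b hb using fun i => hDk i k x (hEU hx)
  refine ⟨S k x - ∑ i, b i • β i x, ?_⟩
  rw [hsum k x hx, smul_sub, Finset.smul_sum]
  have : ∑ i, D i x • β i x = ∑ i, (∑ j ∈ Finset.range k, 𝓐.hb x ^ j * C (S j) i x) • β i x +
      ∑ i, 𝓐.hb x ^ k • b i • β i x := by
    rw [← Finset.sum_add_distrib]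
    refine Finset.sum_congr rfl fun i _ => ?_
    rw [hb i, add_smul, mul_smul]
  rw [this]
  abel

variable {V : Type} [NormedAddCommGroup V] [NormedSpace ℂ V] [FiniteDimensional ℂ V]

/-- the situation of the assembly: sections of `M` over `E`, coefficients over `U` -/
structure Asm (𝓐 : Defo.{0, v} V) (M : EMod.{0, v, w} 𝓐.A) (M₀ : EMod.{0, 0, w} (O V))
    (ρ : ∀ x, M.St x → M₀.St x) (M₀' : EMod.{0, 0, 0} (O V)) (θ : ∀ x, M₀'.St x → M₀.St x)
    (E U : Set V) {p : ℕ} (j : Fin p → (x : V) → M₀'.St x) (s : Fin p → (x : V) → M.St x) :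
    Prop where
  E_open : IsOpen E
  U_open : IsOpen U
  EU : E ⊆ U
  UA : U ⊆ 𝓐.A.dom
  UM : U ⊆ M₀'.dom
  red : IsRed 𝓐 M M₀ ρ
  coh : M.Coh E
  tf : TF 𝓐 M E
  θ_add : ∀ x ∈ E, ∀ m m', θ x (m + m') = θ x m + θ x m'
  θ_smul : ∀ x ∈ E, ∀ (a : (O V).St x) m, θ x (a • m) = a • θ x m
  θ_inj : ∀ x ∈ E, Function.Injective (θ x)
  j_on : ∀ i, M₀'.On (j i) U
  s_on : ∀ i, M.On (s i) E
  s_j : ∀ i, ∀ x ∈ E, ρ x (s i x) = θ x (j i x)
  gen : ∀ X, M.On X E → ∃ a : Fin p → V → ℂ, (∀ i, HolNear (a i) U) ∧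
    ∀ x ∈ E, ρ x (X x) = ∑ i, om (a i) x • θ x (j i x)
  ext0 : ∀ s', M₀'.On s' U → (∀ x ∈ E, s' x = 0) → ∀ x ∈ U, s' x = 0

namespace Asm

variable {𝓐 : Defo.{0, v} V} {M : EMod.{0, v, w} 𝓐.A} {M₀ : EMod.{0, 0, w} (O V)}
  {ρ : ∀ x, M.St x → M₀.St x} {M₀' : EMod.{0, 0, 0} (O V)} {θ : ∀ x, M₀'.St x → M₀.St x}
  {E U : Set V} {p : ℕ} {j : Fin p → (x : V) → M₀'.St x} {s : Fin p → (x : V) → M.St x}
  (h : Asm 𝓐 M M₀ ρ M₀' θ E U j s)

include h

theorem EM : E ⊆ M.dom := fun _ hx => (h.coh.cohAt hx).1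

theorem θ_comb {x : V} (hx : x ∈ E) {ι : Type*} [Fintype ι] (c : ι → (O V).St x)
    (m : ι → M₀'.St x) : θ x (∑ i, c i • m i) = ∑ i, c i • θ x (m i) := by
  let f : M₀'.St x →ₗ[(O V).St x] M₀.St x :=
    { toFun := θ x, map_add' := h.θ_add x hx, map_smul' := h.θ_smul x hx }
  have : f (∑ i, c i • m i) = ∑ i, c i • f (m i) := by simp
  exact this

theorem θ_zero {x : V} (hx : x ∈ E) : θ x 0 = 0 := by
  have := h.θ_smul x hx 0 0
  rwa [zero_smul, zero_smul] at this

/-- one step -/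
theorem step (X : (x : V) → M.St x) (hX : M.On X E) :
    ∃ (C : Fin p → (x : V) → 𝓐.A.St x) (X' : (x : V) → M.St x),
      (∀ i, ∀ x ∈ U, 𝓐.A.At (C i) x) ∧ M.On X' E ∧
      ∀ x ∈ E, X x = ∑ i, C i x • s i x + 𝓐.hb x • X' x := by
  obtain ⟨a, ha, haX⟩ := h.gen X hX
  obtain ⟨C, hC, hCa⟩ := 𝓐.lift_fam h.U_open h.UA (fun i x hx => at_om (ha i x hx))
  obtain ⟨t, ht, hts⟩ := 𝓐.div_mod (M := M) h.E_open h.EM h.tf
    (s := X - fun y => ∑ i, C i y • s i y)
    (fun y hy => M.sub' (hX y hy) (M.comb (h.EM hy) (fun i => hC i y (h.EU hy))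
      fun i => h.s_on i y hy)) (fun y hy => by
        apply (h.red.ker y (h.EM hy) _).1
        rw [Pi.sub_apply, h.red.map_sub (h.EM hy), h.red.comb (h.EM hy), haX y hy, sub_eq_zero]
        exact Finset.sum_congr rfl fun i _ => by rw [hCa i y (h.EU hy), h.s_j i y hy])
  refine ⟨C, t, hC, ht, fun y hy => ?_⟩
  rw [← hts y hy, Pi.sub_apply]
  abel

/-- (56.4) generation -/
theorem gen_all (X : (x : V) → M.St x) (hX : M.On X E) :
    ∃ a : Fin p → (x : V) → 𝓐.A.St x, (∀ i, ∀ x ∈ U, 𝓐.A.At (a i) x) ∧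
      ∀ x ∈ E, X x = ∑ i, a i x • s i x :=
  𝓐.iterate25 h.U_open h.UA h.EU (fun x hx => (h.coh.cohAt hx).sepAt) s (fun X => M.On X E)
    (fun X hX => h.step X hX) X hX

/-- (56.5) relations lift -/
theorem lift_rel (r₀ : Fin p → (x : V) → (O V).St x) (hr₀ : ∀ i, ∀ x ∈ U, (O V).At (r₀ i) x)
    (h0 : ∀ x ∈ U, ∑ i, r₀ i x • j i x = 0) :
    ∃ r : Fin p → (x : V) → 𝓐.A.St x, (∀ i, ∀ x ∈ U, 𝓐.A.At (r i) x) ∧
      (∀ i, ∀ x ∈ U, 𝓐.red x (r i x) = r₀ i x) ∧ ∀ x ∈ E, ∑ i, r i x • s i x = 0 := by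
  obtain ⟨C, hC, hCa⟩ := 𝓐.lift_fam h.U_open h.UA hr₀
  obtain ⟨t, ht, hts⟩ := 𝓐.div_mod (M := M) h.E_open h.EM h.tf
    (s := fun y => ∑ i, C i y • s i y)
    (fun y hy => M.comb (h.EM hy) (fun i => hC i y (h.EU hy)) fun i => h.s_on i y hy)
    (fun y hy => by
        apply (h.red.ker y (h.EM hy) _).1
        rw [h.red.comb (h.EM hy)]
        have e1 : ∑ i, 𝓐.red y (C i y) • ρ y (s i y) = ∑ i, r₀ i y • θ y (j i y) :=
          Finset.sum_congr rfl fun i _ => by rw [hCa i y (h.EU hy), h.s_j i y hy]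
        rw [e1, ← h.θ_comb hy, h0 y (h.EU hy), h.θ_zero hy])
  obtain ⟨a, ha, hat⟩ := h.gen_all t ht
  refine ⟨fun i x => C i x - 𝓐.hb x * a i x, fun i x hx => ?_, fun i x hx => ?_, fun x hx => ?_⟩
  · exact 𝓐.A.sub (hC i x hx) (𝓐.A.mul (𝓐.hb_at x (h.UA hx)) (ha i x hx))
  · have e1 : 𝓐.redHom (h.UA hx) (C i x - 𝓐.hb x * a i x) =
      𝓐.redHom (h.UA hx) (C i x) - 𝓐.redHom (h.UA hx) (𝓐.hb x * a i x) := _root_.map_sub _ _ _
    have e2 : 𝓐.redHom (h.UA hx) (𝓐.hb x * a i x) = 0 := (𝓐.red_ker x (h.UA hx) _).2 ⟨_, rfl⟩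
    rw [e2, sub_zero] at e1
    exact e1.trans (hCa i x hx)
  · simp only [sub_smul, Finset.sum_sub_distrib, mul_smul]
    rw [← Finset.smul_sum, ← hat x hx, ← hts x hx, sub_self]

variable {q : ℕ} (R : Fin q → Fin p → (x : V) → 𝓐.A.St x)
  (hR : ∀ l i, ∀ x ∈ U, 𝓐.A.At (R l i) x) (hRs : ∀ l, ∀ x ∈ E, ∑ i, R l i x • s i x = 0)
  (hRgen : ∀ c : Fin p → (x : V) → (O V).St x, (∀ i, ∀ x ∈ U, (O V).At (c i) x) →
    (∀ x ∈ U, ∑ i, c i x • j i x = 0) → ∃ a : Fin q → V → ℂ, (∀ l, HolNear (a l) U) ∧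
      ∀ x ∈ U, ∀ i, c i x = ∑ l, om (a l) x * 𝓐.red x (R l i x))

include hR hRs hRgen

/-- one step -/
theorem rel_step (c : Fin p → (x : V) → 𝓐.A.St x) (hc : ∀ i, ∀ x ∈ U, 𝓐.A.At (c i) x)
    (hcs : ∀ x ∈ E, ∑ i, c i x • s i x = 0) :
    ∃ (A : Fin q → (x : V) → 𝓐.A.St x) (t : Fin p → (x : V) → 𝓐.A.St x),
      (∀ l, ∀ x ∈ U, 𝓐.A.At (A l) x) ∧ (∀ i, ∀ x ∈ U, 𝓐.A.At (t i) x) ∧
      (∀ x ∈ E, ∑ i, t i x • s i x = 0) ∧
      ∀ x ∈ U, ∀ i, c i x = ∑ l, A l x * R l i x + 𝓐.hb x * t i x := by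
  -- the reduction of `c` is a relation of the `j i`
  have h1 : ∀ x ∈ U, ∑ i, 𝓐.red x (c i x) • j i x = 0 := by
    refine h.ext0 (fun x => ∑ i, 𝓐.red x (c i x) • j i x) (fun x hx => ?_) (fun x hx => ?_)
    · exact M₀'.comb (h.UM hx) (fun i => 𝓐.red_at (h.UA hx) (hc i x hx))
        fun i => h.j_on i x hx
    · apply h.θ_inj x hx
      rw [h.θ_zero hx, h.θ_comb hx]
      have e1 : ∑ i, 𝓐.red x (c i x) • θ x (j i x) = ρ x (∑ i, c i x • s i x) := by
        rw [h.red.comb (h.EM hx)]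
        exact Finset.sum_congr rfl fun i _ => by rw [h.s_j i x hx]
      rw [e1, hcs x hx, h.red.map_zero (h.EM hx)]
  obtain ⟨a, ha, hac⟩ := hRgen (fun i x => 𝓐.red x (c i x))
    (fun i x hx => 𝓐.red_at (h.UA hx) (hc i x hx)) h1
  obtain ⟨A, hA, hAa⟩ := 𝓐.lift_fam h.U_open h.UA (fun l x hx => at_om (ha l x hx))
  have hat : ∀ i, ∀ x ∈ U, 𝓐.A.At (fun y => c i y - ∑ l, A l y * R l i y) x := by
    intro i x hx
    refine 𝓐.A.sub (hc i x hx) ?_
    have := 𝓐.A.sum Finset.univ (s := fun l y => A l y * R l i y) (h.UA hx)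
      (fun l _ => 𝓐.A.mul (hA l x hx) (hR l i x hx))
    refine 𝓐.A.congr this (Eventually.of_forall fun y => ?_)
    simp [Finset.sum_apply]
  choose t ht hts using fun i => 𝓐.div_at (a := fun y => c i y - ∑ l, A l y * R l i y)
    h.U_open h.UA (hat i) (fun x hx => by
      have hxd := h.UA hx
      have e1 : 𝓐.redHom hxd (c i x - ∑ l, A l x * R l i x) =
        𝓐.redHom hxd (c i x) - ∑ l, 𝓐.redHom hxd (A l x) * 𝓐.redHom hxd (R l i x) := by
        rw [_root_.map_sub, map_sum]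
        simp only [map_mul]
      refine e1.trans ?_
      rw [sub_eq_zero]
      refine (hac x hx i).trans (Finset.sum_congr rfl fun l _ => ?_)
      rw [← hAa l x hx]
      rfl)
  refine ⟨A, t, hA, ht, ?_, ?_⟩
  · intro x hx
    apply h.tf x hx
    have e1 : ∑ i, (𝓐.hb x * t i x) • s i x =
        ∑ i, c i x • s i x - ∑ l, A l x • ∑ i, R l i x • s i x := by
      have e2 : ∀ i, 𝓐.hb x * t i x = c i x - ∑ l, A l x * R l i x := fun i =>
        (hts i x (h.EU hx)).symm
      simp only [e2, sub_smul, Finset.sum_sub_distrib, Finset.sum_smul, Finset.smul_sum,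
        mul_smul]
      congr 1
      rw [Finset.sum_comm]
    rw [Finset.smul_sum]
    simp only [smul_smul]
    rw [e1, hcs x hx]
    simp only [hRs _ x hx, smul_zero, Finset.sum_const_zero, sub_zero]
  · intro x hx i
    have e2 : 𝓐.hb x * t i x = c i x - ∑ l, A l x * R l i x := (hts i x hx).symm
    rw [e2]
    abel

/-- every relation over `U` is a combination of the rows -/
theorem rel_gen (c : Fin p → (x : V) → 𝓐.A.St x) (hc : ∀ i, ∀ x ∈ U, 𝓐.A.At (c i) x)
    (hcs : ∀ x ∈ E, ∑ i, c i x • s i x = 0) :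
    ∃ a : Fin q → (x : V) → 𝓐.A.St x, (∀ l, ∀ x ∈ U, 𝓐.A.At (a l) x) ∧
      ∀ x ∈ U, ∀ i, c i x = ∑ l, a l x * R l i x := by
  have key := 𝓐.iterate (M := 𝓐.A.free p) h.U_open h.UA (fun x hx => 𝓐.sepAt_free p (h.UA hx))
    (fun (l : Fin q) x => (fun i => R l i x : Fin p → 𝓐.A.St x))
    (fun c => ∀ x ∈ E, ∑ i, (c x : Fin p → 𝓐.A.St x) i • s i x = 0) (by
      intro c hc hcs
      obtain ⟨A, t, hA, ht, hts, e⟩ := h.rel_step R hR hRs hRgen
        (fun i x => (c x : Fin p → 𝓐.A.St x) i) (fun i x hx => (hc x hx).2 i) hcs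
      refine ⟨A, fun x => (fun i => t i x : Fin p → 𝓐.A.St x), hA,
        fun x hx => ⟨h.UA hx, fun i => ht i x hx⟩, hts, fun x hx => ?_⟩
      refine funext fun i => (e x hx i).trans ?_
      have e3 : (∑ l, A l x • (fun i => R l i x : Fin p → 𝓐.A.St x) + 𝓐.hb x •
        (fun i => t i x : Fin p → 𝓐.A.St x)) i = ∑ l, A l x * R l i x + 𝓐.hb x * t i x := by
        simp [Finset.sum_apply]
      exact e3.symm)
    (fun x => (fun i => c i x : Fin p → 𝓐.A.St x)) (fun x hx => ⟨h.UA hx, fun i => hc i x hx⟩) hcs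
  obtain ⟨a, ha, hac⟩ := key
  refine ⟨a, ha, fun x hx i => ?_⟩
  have := congrFun (hac x hx) i
  refine this.trans ?_
  have e3 : (∑ l, a l x • (fun i => R l i x : Fin p → 𝓐.A.St x)) i = ∑ l, a l x * R l i x := by
    simp [Finset.sum_apply]
  exact e3

/-- syzygies lift -/
theorem lift_syz (r₀ : Fin q → (x : V) → (O V).St x) (hr₀ : ∀ l, ∀ x ∈ U, (O V).At (r₀ l) x)
    (h0 : ∀ x ∈ U, ∀ i, ∑ l, r₀ l x * 𝓐.red x (R l i x) = 0) :
    ∃ r : Fin q → (x : V) → 𝓐.A.St x, (∀ l, ∀ x ∈ U, 𝓐.A.At (r l) x) ∧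
      (∀ l, ∀ x ∈ U, 𝓐.red x (r l x) = r₀ l x) ∧ ∀ x ∈ U, ∀ i, ∑ l, r l x * R l i x = 0 := by
  obtain ⟨C, hC, hCa⟩ := 𝓐.lift_fam h.U_open h.UA hr₀
  have hat : ∀ i, ∀ x ∈ U, 𝓐.A.At (fun y => ∑ l, C l y * R l i y) x := by
    intro i x hx
    have := 𝓐.A.sum Finset.univ (s := fun l y => C l y * R l i y) (h.UA hx)
      (fun l _ => 𝓐.A.mul (hC l x hx) (hR l i x hx))
    refine 𝓐.A.congr this (Eventually.of_forall fun y => ?_)
    simp [Finset.sum_apply]
  choose t ht hts using fun i => 𝓐.div_at (a := fun y => ∑ l, C l y * R l i y)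
    h.U_open h.UA (hat i) (fun x hx => by
      have hxd := h.UA hx
      have e1 : 𝓐.redHom hxd (∑ l, C l x * R l i x) =
        ∑ l, 𝓐.redHom hxd (C l x) * 𝓐.redHom hxd (R l i x) := by
        rw [map_sum]
        simp only [map_mul]
      refine e1.trans ?_
      rw [← h0 x hx i]
      refine Finset.sum_congr rfl fun l _ => ?_
      rw [← hCa l x hx]
      rfl)
  obtain ⟨a, ha, hat'⟩ := h.rel_gen R hR hRs hRgen t ht (fun x hx => by
    apply h.tf x hx
    rw [Finset.smul_sum]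
    simp only [smul_smul]
    have e1 : ∀ i, 𝓐.hb x * t i x = ∑ l, C l x * R l i x := fun i => (hts i x (h.EU hx)).symm
    simp only [e1, Finset.sum_smul, mul_smul]
    rw [Finset.sum_comm]
    refine Finset.sum_eq_zero fun l _ => ?_
    rw [← Finset.smul_sum, hRs l x hx, smul_zero])
  refine ⟨fun l x => C l x - 𝓐.hb x * a l x, fun l x hx => ?_, fun l x hx => ?_, fun x hx i => ?_⟩
  · exact 𝓐.A.sub (hC l x hx) (𝓐.A.mul (𝓐.hb_at x (h.UA hx)) (ha l x hx))
  · have e1 : 𝓐.redHom (h.UA hx) (C l x - 𝓐.hb x * a l x) =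
      𝓐.redHom (h.UA hx) (C l x) - 𝓐.redHom (h.UA hx) (𝓐.hb x * a l x) := _root_.map_sub _ _ _
    have e2 : 𝓐.redHom (h.UA hx) (𝓐.hb x * a l x) = 0 := (𝓐.red_ker x (h.UA hx) _).2 ⟨_, rfl⟩
    rw [e2, sub_zero] at e1
    exact e1.trans (hCa l x hx)
  · simp only [sub_mul, Finset.sum_sub_distrib, mul_assoc]
    rw [← Finset.mul_sum, ← hat' x hx i, sub_eq_zero]
    exact hts i x hx

end Asm

end Pool.Agent.DQ
end

section

/-! # DQ, module M56, part d: the presentation of the extension (56.5, 56.6) -/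

set_option autoImplicit false
set_option linter.unusedSectionVars false

open Set Filter Topology

universe u v w

namespace Pool.Agent.DQ

theorem span_coe_of_top5 {A : Type u} [Ring A] {M : Type v} [AddCommGroup M] [Module A M]
    {N : Submodule A M} {ι : Type w} (g : ι → N) (h : Submodule.span A (range g) = ⊤) :
    N = Submodule.span A (range fun i => (g i : M)) := by
  have h2 := congrArg (Submodule.map N.subtype) h
  rw [Submodule.map_span, Submodule.map_top, Submodule.range_subtype, ← Set.range_comp] at h2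
  exact h2.symm

section relbox

variable {V : Type u} [NormedAddCommGroup V] [NormedSpace ℂ V] [FiniteDimensional ℂ V]
variable {n : ℕ} (κ : V ≃L[ℂ] (Fin n → ℂ)) (c : Fin n → ℂ) (r R : Fin n → ℝ)

/-- relations over a closed box -/
theorem rel_box5 {F : EMod.{u, u, w} (O V)} (hrR : GoodRadii r R) (hF : F.Coh (cbox κ c r R))
    {p : ℕ} (j : Fin p → (x : V) → F.St x) (hj : ∀ i, F.On (j i) (cbox κ c r R)) :
    ∃ (q : ℕ) (ρ : Fin q → Fin p → (x : V) → (O V).St x),
      (∀ l i, ∀ x ∈ cbox κ c r R, (O V).At (ρ l i) x) ∧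
      (∀ x ∈ cbox κ c r R,
        F.rel j x = Submodule.span ((O V).St x) (range fun l => fun i => ρ l i x)) ∧
      ∀ e : Fin p → (x : V) → (O V).St x, (∀ i, ∀ x ∈ box κ c r R, (O V).At (e i) x) →
        (∀ x ∈ box κ c r R, ∑ i, e i x • j i x = 0) → ∃ a : Fin q → V → ℂ,
          (∀ l, HolNear (a l) (box κ c r R)) ∧
          ∀ x ∈ box κ c r R, ∀ i, e i x = ∑ l, om (a l) x * ρ l i x := by
  classical
  have hbc := box_subset_cbox κ c r R
  have hcoh : (((O V).free p).sub (F.relSub j) (F.relSub_open j)).Coh (cbox κ c r R) := by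
    intro x hx
    have hFx := hF.cohAt hx
    obtain ⟨m, ρ, hρ, hrel⟩ := hFx.2.2 p j (fun i => hj i x hx)
    have h1 : (((O V).free p).sub (F.relSub j) (F.relSub_open j)).CohAt x := by
      refine ((O V).free p).sub_cohAt (F.relSub j) (F.relSub_open j) (O_free_cohAt p x)
        (fun l y => (fun i => ρ l i y : Fin p → (O V).St y)) (fun l => ⟨mem_univ x, hρ l⟩) ?_
      filter_upwards [hrel, F.relSub_near j hFx.1 (fun i => hj i x hx)] with y y1 y2
      rw [y2, y1]
      rfl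
    exact h1.eventually (Eventually.of_forall O_relAt)
  obtain ⟨q, g, hg, hgen⟩ := cartanA κ c r R _ hcoh
  refine ⟨q, fun l i x => ((show F.relSub j x from g l x) : Fin p → (O V).St x) i, fun l i x hx => (hg l x hx).2 i,
    fun x hx => ?_, fun e he hej => ?_⟩
  · have hFx := hF.cohAt hx
    rw [← F.relSub_eq j hFx.1 (fun i => hj i x hx)]
    exact span_coe_of_top5 (N := F.relSub j x) (fun l => (show F.relSub j x from g l x))
      (hgen x hx)
  · have hs : (((O V).free p).sub (F.relSub j) (F.relSub_open j)).On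
        (((O V).free p).toSub (F.relSub j) (fun x => (fun i => e i x : Fin p → (O V).St x)))
        (box κ c r R) := by
      intro x hx
      refine ((O V).free p).toSub_at (F.relSub j) (F.relSub_open j)
        ⟨mem_univ x, fun i => he i x hx⟩ ?_
      filter_upwards [(isOpen_box κ c r R).mem_nhds hx] with y hy
      rw [F.relSub_eq j (hF.cohAt (hbc hy)).1 (fun i => hj i y (hbc hy))]
      exact hej y hy
    obtain ⟨a, ha, has⟩ := cartanB_open κ c r R hrR _ hcoh g hg hgen _ hs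
    refine ⟨a, ha, fun x hx i => ?_⟩
    have h1 := congrArg (fun m : F.relSub j x => (m : Fin p → (O V).St x) i) (has x hx)
    have h2 : (fun i => e i x : Fin p → (O V).St x) ∈ F.relSub j x := by
      rw [F.relSub_eq j (hF.cohAt (hbc hx)).1 (fun i => hj i x (hbc hx))]
      exact hej x hx
    have h3 := congrFun (((O V).free p).coe_toSub (F.relSub j)
      (fun x => (fun i => e i x : Fin p → (O V).St x)) h2) i
    refine h3.symm.trans (h1.trans ?_)
    have h4 : ∀ (b : Fin q → (O V).St x) (f : Fin q → F.relSub j x),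
        ((∑ l, b l • f l : F.relSub j x) : Fin p → (O V).St x) i =
          ∑ l, b l * (f l : Fin p → (O V).St x) i := by
      intro b f
      rw [AddSubmonoidClass.coe_finsetSum, Finset.sum_apply]
      rfl
    exact h4 _ _

end relbox

variable {V : Type} [NormedAddCommGroup V] [NormedSpace ℂ V] [FiniteDimensional ℂ V]

/-- the presentation of the extension over `U`: rows `R` whose reductions generate the relations
of the `j i`, and the cokernel has no `ħ`-torsion -/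
structure Pres (𝓐 : Defo.{0, v} V) (M₀' : EMod.{0, 0, 0} (O V)) (U : Set V) {p q : ℕ}
    (j : Fin p → (x : V) → M₀'.St x) (R : Fin q → Fin p → (x : V) → 𝓐.A.St x) : Prop where
  U_open : IsOpen U
  UA : U ⊆ 𝓐.A.dom
  at_R : ∀ l i, ∀ x ∈ U, 𝓐.A.At (R l i) x
  rel : ∀ x ∈ U, M₀'.rel j x =
    Submodule.span ((O V).St x) (range fun l => fun i => 𝓐.red x (R l i x))
  tf : ∀ x ∈ U, ∀ c : Fin p → 𝓐.A.St x,
    𝓐.hb x • c ∈ Submodule.span (𝓐.A.St x) (range fun l => fun i => R l i x) →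
      c ∈ Submodule.span (𝓐.A.St x) (range fun l => fun i => R l i x)

variable {𝓐 : Defo.{0, v} V} {M : EMod.{0, v, w} 𝓐.A} {M₀ : EMod.{0, 0, w} (O V)}
  {ρ : ∀ x, M.St x → M₀.St x} {M₀' : EMod.{0, 0, 0} (O V)} {θ : ∀ x, M₀'.St x → M₀.St x}
  {E : Set V} {p : ℕ} {j : Fin p → (x : V) → M₀'.St x} {s : Fin p → (x : V) → M.St x}

theorem Asm.exists_pres {n : ℕ} {κ : V ≃L[ℂ] (Fin n → ℂ)} {c : Fin n → ℂ} {r R : Fin n → ℝ}
    (h : Asm 𝓐 M M₀ ρ M₀' θ E (box κ c r R) j s) (hrR : GoodRadii r R)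
    (hF : M₀'.Coh (cbox κ c r R)) (hj : ∀ i, M₀'.On (j i) (cbox κ c r R)) :
    ∃ (q : ℕ) (T : Fin q → Fin p → (x : V) → 𝓐.A.St x),
      Pres 𝓐 M₀' (box κ c r R) j T ∧ ∀ l, ∀ x ∈ E, ∑ i, T l i x • s i x = 0 := by
  classical
  have hbc := box_subset_cbox κ c r R
  obtain ⟨q, r₀, hr₀, hrel, hrgen⟩ := rel_box5 κ c r R hrR hF j hj
  -- the rows
  have h1 : ∀ l, ∃ T : Fin p → (x : V) → 𝓐.A.St x, (∀ i, ∀ x ∈ box κ c r R, 𝓐.A.At (T i) x) ∧
      (∀ i, ∀ x ∈ box κ c r R, 𝓐.red x (T i x) = r₀ l i x) ∧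
      ∀ x ∈ E, ∑ i, T i x • s i x = 0 := by
    intro l
    refine h.lift_rel (r₀ l) (fun i x hx => hr₀ l i x (hbc hx)) fun x hx => ?_
    have h2 : (fun i => r₀ l i x) ∈ M₀'.rel j x := by
      rw [hrel x (hbc hx)]
      exact Submodule.subset_span ⟨l, rfl⟩
    exact h2
  choose T hT hTr hTs using h1
  have hTgen : ∀ e : Fin p → (x : V) → (O V).St x,
      (∀ i, ∀ x ∈ box κ c r R, (O V).At (e i) x) →
      (∀ x ∈ box κ c r R, ∑ i, e i x • j i x = 0) → ∃ a : Fin q → V → ℂ,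
        (∀ l, HolNear (a l) (box κ c r R)) ∧
        ∀ x ∈ box κ c r R, ∀ i, e i x = ∑ l, om (a l) x * 𝓐.red x (T l i x) := by
    intro e he hej
    obtain ⟨a, ha, hae⟩ := hrgen e he hej
    refine ⟨a, ha, fun x hx i => ?_⟩
    rw [hae x hx i]
    exact Finset.sum_congr rfl fun l _ => by rw [hTr l i x hx]
  -- the syzygies
  obtain ⟨q', s₀, hs₀, hsrel, -⟩ := rel_box5 κ c r R hrR (F := (O V).free p)
    (fun x _ => (O_free_cohAt p x).eventually (Eventually.of_forall O_relAt))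
    (fun (l : Fin q) x => (fun i => r₀ l i x : Fin p → (O V).St x))
    (fun l x hx => ⟨mem_univ x, fun i => hr₀ l i x hx⟩)
  have h3 : ∀ m, ∃ S : Fin q → (x : V) → 𝓐.A.St x, (∀ l, ∀ x ∈ box κ c r R, 𝓐.A.At (S l) x) ∧
      (∀ l, ∀ x ∈ box κ c r R, 𝓐.red x (S l x) = s₀ m l x) ∧
      ∀ x ∈ box κ c r R, ∀ i, ∑ l, S l x * T l i x = 0 := by
    intro m
    refine h.lift_syz T hT hTs hTgen (s₀ m) (fun l x hx => hs₀ m l x (hbc hx)) fun x hx i => ?_
    have h4 : (fun l => s₀ m l x) ∈ ((O V).free p).rel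
        (fun (l : Fin q) x => (fun i => r₀ l i x : Fin p → (O V).St x)) x := by
      rw [hsrel x (hbc hx)]
      exact Submodule.subset_span ⟨m, rfl⟩
    have h5 : ∑ l, s₀ m l x • (fun i => r₀ l i x : Fin p → (O V).St x) = 0 := h4
    have h6 := congrFun h5 i
    rw [Finset.sum_apply] at h6
    refine Eq.trans ?_ h6
    exact Finset.sum_congr rfl fun l _ => by rw [hTr l i x hx]; rfl
  choose S hS hSr hST using h3
  refine ⟨q, T, ⟨isOpen_box κ c r R, h.UA, hT, fun x hx => ?_, fun x hx e he => ?_⟩, hTs⟩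
  · rw [hrel x (hbc hx)]
    congr 1
    ext m
    simp only [mem_range]
    refine exists_congr fun l => ?_
    have : (fun i => r₀ l i x) = fun i => 𝓐.red x (T l i x) := funext fun i => (hTr l i x hx).symm
    rw [this]
  · have hxd := h.UA hx
    obtain ⟨a, ha⟩ := mem_span_fam.mp he
    have ha' : ∀ i, 𝓐.hb x * e i = ∑ l, a l * T l i x := by
      intro i
      have := congrFun ha i
      rw [Finset.sum_apply] at this
      exact this
    have h4 : (fun l => 𝓐.red x (a l)) ∈ ((O V).free p).rel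
        (fun (l : Fin q) x => (fun i => r₀ l i x : Fin p → (O V).St x)) x := by
      have h5 : ∑ l, 𝓐.red x (a l) • (fun i => r₀ l i x : Fin p → (O V).St x) = 0 := by
        funext i
        rw [Finset.sum_apply]
        have h6 := congrArg (𝓐.redHom hxd) (ha' i)
        rw [map_mul, map_sum] at h6
        have h7 : 𝓐.redHom hxd (𝓐.hb x) = 0 := (𝓐.red_ker x hxd _).2 ⟨1, (mul_one _).symm⟩
        rw [h7, zero_mul] at h6
        refine Eq.trans ?_ h6.symm
        refine Finset.sum_congr rfl fun l _ => ?_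
        have h8 : 𝓐.redHom hxd (T l i x) = r₀ l i x := hTr l i x hx
        rw [map_mul, h8]
        rfl
      exact h5
    rw [hsrel x (hbc hx)] at h4
    obtain ⟨b, hb⟩ := mem_span_fam.mp h4
    choose B hB using fun m => 𝓐.red_surj x hxd (b m)
    have h8 : ∀ l, ∃ a', a l - ∑ m, B m * S m l x = 𝓐.hb x * a' := by
      intro l
      apply (𝓐.red_ker x hxd _).1
      have e1 : 𝓐.redHom hxd (a l - ∑ m, B m * S m l x) =
          𝓐.redHom hxd (a l) - ∑ m, 𝓐.redHom hxd (B m) * 𝓐.redHom hxd (S m l x) := by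
        rw [_root_.map_sub, map_sum]
        simp only [map_mul]
      refine e1.trans ?_
      rw [sub_eq_zero]
      have h9 := congrFun hb l
      rw [Finset.sum_apply] at h9
      refine h9.trans (Finset.sum_congr rfl fun m _ => ?_)
      have h10 : 𝓐.redHom hxd (S m l x) = s₀ m l x := hSr m l x hx
      have h11 : 𝓐.redHom hxd (B m) = b m := hB m
      rw [h10, h11]
      rfl
    choose a' ha'' using h8
    refine mem_span_fam.mpr ⟨a', funext fun i => ?_⟩
    rw [Finset.sum_apply]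
    have h10 : 𝓐.hb x * e i = 𝓐.hb x * ∑ l, a' l * T l i x := by
      rw [ha' i]
      have h11 : ∀ l, a l = ∑ m, B m * S m l x + 𝓐.hb x * a' l := fun l => by
        rw [← ha'' l]
        abel
      have h12 : ∑ l, (∑ m, B m * S m l x) * T l i x = 0 := by
        simp only [Finset.sum_mul, mul_assoc]
        rw [Finset.sum_comm]
        refine Finset.sum_eq_zero fun m _ => ?_
        rw [← Finset.mul_sum, hST m x hx i, mul_zero]
      calc ∑ l, a l * T l i x = ∑ l, (∑ m, B m * S m l x) * T l i x +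
            ∑ l, 𝓐.hb x * a' l * T l i x := by
            rw [← Finset.sum_add_distrib]
            exact Finset.sum_congr rfl fun l _ => by rw [← add_mul, ← h11 l]
        _ = _ := by
          rw [h12, zero_add, Finset.mul_sum]
          exact Finset.sum_congr rfl fun l _ => by rw [mul_assoc]
    exact (𝓐.stalk hxd).reg_iff.mp h10

end Pool.Agent.DQ
end

section

/-! # DQ, module M56, part e: the extension as a sheaf of modules (56.6, 56.7) -/

set_option autoImplicit false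
set_option linter.unusedSectionVars false

open Set Filter Topology

universe u v w

namespace Pool.Agent.DQ

variable {V : Type} [NormedAddCommGroup V] [NormedSpace ℂ V] [FiniteDimensional ℂ V]
  {𝓐 : Defo.{0, v} V}

section def'

variable {p q : ℕ} (R : Fin q → Fin p → (x : V) → 𝓐.A.St x)

/-- the rows as sections of the free module -/
def rowF : Fin q → (x : V) → (𝓐.A.free p).St x := fun l x => (fun i => R l i x : Fin p → 𝓐.A.St x)

/-- the cokernel of the rows -/
noncomputable def presMod : EMod.{0, v, v} 𝓐.A :=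
  (𝓐.A.free p).quot ((𝓐.A.free p).spn (rowF R)) ((𝓐.A.free p).spn_open (rowF R))

/-- the projection to the cokernel -/
noncomputable def presMk (x : V) : (Fin p → 𝓐.A.St x) →ₗ[𝓐.A.St x] (presMod R).St x :=
  ((𝓐.A.free p).spn (rowF R) x).mkQ

theorem presMk_surj (x : V) : Function.Surjective (presMk R x) :=
  Submodule.mkQ_surjective ((𝓐.A.free p).spn (rowF R) x)

theorem presMk_at {c : Fin p → (x : V) → 𝓐.A.St x} {x : V} (hx : x ∈ 𝓐.A.dom)
    (hc : ∀ i, 𝓐.A.At (c i) x) : (presMod R).At (fun y => presMk R y fun i => c i y) x :=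
  ⟨fun y => (fun i => c i y : Fin p → 𝓐.A.St y), ⟨hx, hc⟩, Eventually.of_forall fun _ => rfl⟩

theorem presMod_at {s : (x : V) → (presMod R).St x} {x : V} (h : (presMod R).At s x) :
    ∃ c : Fin p → (x : V) → 𝓐.A.St x, (∀ i, 𝓐.A.At (c i) x) ∧
      ∀ᶠ y in 𝓝 x, s y = presMk R y fun i => c i y := by
  obtain ⟨t, ht, h⟩ := h
  exact ⟨fun i y => (t y : Fin p → 𝓐.A.St y) i, ht.2, h⟩

end def'

variable {M₀' : EMod.{0, 0, 0} (O V)} {U : Set V} {p q : ℕ}
  {j : Fin p → (x : V) → M₀'.St x} {R : Fin q → Fin p → (x : V) → 𝓐.A.St x}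

namespace Pres

variable (h : Pres 𝓐 M₀' U j R)

include h

theorem row_at {x : V} (hx : x ∈ U) (l : Fin q) : (𝓐.A.free p).At (rowF R l) x :=
  ⟨h.UA hx, fun i => h.at_R l i x hx⟩

theorem mk_zero {x : V} (hx : x ∈ U) (c : Fin p → 𝓐.A.St x) : presMk R x c = 0 ↔
    c ∈ Submodule.span (𝓐.A.St x) (range fun l => (fun i => R l i x : Fin p → 𝓐.A.St x)) := by
  have h1 : presMk R x c = 0 ↔ c ∈ (𝓐.A.free p).spn (rowF R) x :=
    Submodule.Quotient.mk_eq_zero _
  rw [h1, (𝓐.A.free p).spn_eq (rowF R) (h.row_at hx)]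
  rfl

theorem mk_eq {x : V} (hx : x ∈ U) (c c' : Fin p → 𝓐.A.St x) : presMk R x c = presMk R x c' ↔
    c - c' ∈ Submodule.span (𝓐.A.St x) (range fun l => (fun i => R l i x : Fin p → 𝓐.A.St x)) := by
  rw [← h.mk_zero hx, map_sub, sub_eq_zero]

/-- the extension is coherent -/
theorem coh : (presMod R).Coh U := by
  intro x hx
  have h1 : ∀ y ∈ U, (presMod R).CohAt y := fun y hy =>
    (𝓐.A.free p).quot_cohAt _ _ (𝓐.relAt (h.UA hy)) ((𝓐.oka p).cohAt (h.UA hy)) (rowF R)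
      (h.row_at hy) ((𝓐.A.free p).spn_near (rowF R) (h.row_at hy))
  filter_upwards [h.U_open.mem_nhds hx] with y hy
  exact h1 y hy

/-- the extension has no torsion -/
theorem tf' : TF 𝓐 (presMod R) U := by
  intro x hx m hm
  obtain ⟨c, rfl⟩ := presMk_surj R x m
  rw [← map_smul, h.mk_zero hx] at hm
  rw [h.mk_zero hx]
  exact h.tf x hx c hm

theorem red_comb {x : V} (hx : x ∈ U) {c : Fin p → 𝓐.A.St x}
    (hc : c ∈ Submodule.span (𝓐.A.St x)
      (range fun l => (fun i => R l i x : Fin p → 𝓐.A.St x))) :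
    ∑ i, 𝓐.red x (c i) • j i x = 0 := by
  obtain ⟨a, rfl⟩ := mem_span_fam.mp hc
  have h1 : (fun i => 𝓐.redHom (h.UA hx) ((∑ l, a l • fun i => R l i x) i)) =
      ∑ l, 𝓐.redHom (h.UA hx) (a l) • (fun i => 𝓐.red x (R l i x) : Fin p → (O V).St x) := by
    funext i
    rw [Finset.sum_apply, Finset.sum_apply, map_sum]
    refine Finset.sum_congr rfl fun l _ => ?_
    exact map_mul (𝓐.redHom (h.UA hx)) _ _
  have h2 : (fun i => 𝓐.redHom (h.UA hx) ((∑ l, a l • fun i => R l i x) i)) ∈ M₀'.rel j x := by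
    rw [h1, h.rel x hx]
    exact mem_span_fam.mpr ⟨_, rfl⟩
  exact h2

/-- if the reduction of `c` is a relation, then `c` is a combination of the rows up to `ħ` -/
theorem div_of_red {x : V} (hx : x ∈ U) {c : Fin p → 𝓐.A.St x}
    (hc : ∑ i, 𝓐.red x (c i) • j i x = 0) :
    ∃ a ∈ Submodule.span (𝓐.A.St x) (range fun l => (fun i => R l i x : Fin p → 𝓐.A.St x)),
      ∃ c', c = a + 𝓐.hb x • c' := by
  have hxd := h.UA hx
  have h1 : (fun i => 𝓐.red x (c i)) ∈ M₀'.rel j x := hc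
  rw [h.rel x hx] at h1
  obtain ⟨b, hb⟩ := mem_span_fam.mp h1
  choose B hB using fun l => 𝓐.red_surj x hxd (b l)
  have h2 : ∀ i, ∃ c', c i - ∑ l, B l * R l i x = 𝓐.hb x * c' := by
    intro i
    apply (𝓐.red_ker x hxd _).1
    have e1 : 𝓐.redHom hxd (c i - ∑ l, B l * R l i x) =
        𝓐.redHom hxd (c i) - ∑ l, 𝓐.redHom hxd (B l) * 𝓐.redHom hxd (R l i x) := by
      rw [_root_.map_sub, map_sum]
      simp only [map_mul]
    refine e1.trans ?_
    rw [sub_eq_zero]
    have h9 := congrFun hb i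
    rw [Finset.sum_apply] at h9
    refine h9.trans (Finset.sum_congr rfl fun l _ => ?_)
    have h11 : 𝓐.redHom hxd (B l) = b l := hB l
    rw [h11]
    rfl
  choose c' hc' using h2
  refine ⟨∑ l, B l • (fun i => R l i x), mem_span_fam.mpr ⟨B, rfl⟩, c', funext fun i => ?_⟩
  rw [Pi.add_apply, Finset.sum_apply]
  simp only [Pi.smul_apply, smul_eq_mul]
  rw [← hc' i]
  abel

/-- the extension vanishes where `M₀'` vanishes -/
theorem subsingleton {x : V} (hx : x ∈ U) (h0 : Subsingleton (M₀'.St x)) :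
    Subsingleton ((presMod R).St x) := by
  have hxd := h.UA hx
  have := 𝓐.isNoetherian hxd
  have key : Submodule.span (𝓐.A.St x)
      (range fun l => (fun i => R l i x : Fin p → 𝓐.A.St x)) = ⊤ := by
    refine (𝓐.stalk hxd).nakayama_top ?_
    intro c
    obtain ⟨a, ha, c', e⟩ := h.div_of_red hx (c := c) (Subsingleton.elim _ _)
    exact ⟨a, ha, c', e⟩
  refine ⟨fun m m' => ?_⟩
  obtain ⟨c, rfl⟩ := presMk_surj R x m
  obtain ⟨c', rfl⟩ := presMk_surj R x m'
  rw [h.mk_eq hx, key]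
  exact Submodule.mem_top

end Pres

/-! ### The map to `M` -/

section theta

variable {M : EMod.{0, v, w} 𝓐.A} {M₀ : EMod.{0, 0, w} (O V)}
  {ρ : ∀ x, M.St x → M₀.St x} {θ : ∀ x, M₀'.St x → M₀.St x} {E : Set V}
  {s : Fin p → (x : V) → M.St x}

variable (R s) in
/-- the map from the extension to `M`: the class of `c` goes to `∑ c_i s_i` -/
noncomputable def presθ (x : V) (m : (presMod R).St x) : M.St x :=
  ∑ i, (presMk_surj R x m).choose i • s i x

variable (h : Pres 𝓐 M₀' U j R) (ha : Asm 𝓐 M M₀ ρ M₀' θ E U j s)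
  (hs : ∀ l, ∀ x ∈ E, ∑ i, R l i x • s i x = 0)

include h ha hs

theorem presθ_mk {x : V} (hx : x ∈ E) (c : Fin p → 𝓐.A.St x) :
    presθ R s x (presMk R x c) = ∑ i, c i • s i x := by
  have h1 := (presMk_surj R x (presMk R x c)).choose_spec
  rw [h.mk_eq (ha.EU hx)] at h1
  obtain ⟨a, e⟩ := mem_span_fam.mp h1
  rw [presθ, ← sub_eq_zero, ← Finset.sum_sub_distrib]
  simp only [← sub_smul]
  have e2 : ∀ i, (presMk_surj R x (presMk R x c)).choose i - c i = ∑ l, a l * R l i x := by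
    intro i
    have := congrFun e i
    rw [Finset.sum_apply] at this
    exact this
  simp only [e2, Finset.sum_smul, mul_smul]
  rw [Finset.sum_comm]
  refine Finset.sum_eq_zero fun l _ => ?_
  rw [← Finset.smul_sum, hs l x hx, smul_zero]

theorem presθ_add {x : V} (hx : x ∈ E) (m m' : (presMod R).St x) :
    presθ R s x (m + m') = presθ R s x m + presθ R s x m' := by
  obtain ⟨c, rfl⟩ := presMk_surj R x m
  obtain ⟨c', rfl⟩ := presMk_surj R x m'
  rw [← map_add, presθ_mk h ha hs hx, presθ_mk h ha hs hx, presθ_mk h ha hs hx]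
  simp only [Pi.add_apply, add_smul, Finset.sum_add_distrib]

theorem presθ_smul {x : V} (hx : x ∈ E) (a : 𝓐.A.St x) (m : (presMod R).St x) :
    presθ R s x (a • m) = a • presθ R s x m := by
  obtain ⟨c, rfl⟩ := presMk_surj R x m
  rw [← map_smul, presθ_mk h ha hs hx, presθ_mk h ha hs hx, Finset.smul_sum]
  exact Finset.sum_congr rfl fun i _ => by rw [Pi.smul_apply, smul_eq_mul, mul_smul]

theorem presθ_at {x : V} (hx : x ∈ E) {t : (x : V) → (presMod R).St x}
    (ht : (presMod R).At t x) : M.At (fun y => presθ R s y (t y)) x := by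
  obtain ⟨c, hc, hct⟩ := presMod_at R ht
  refine M.congr (M.comb (ha.EM hx) hc fun i => ha.s_on i x hx) ?_
  filter_upwards [hct, ha.E_open.mem_nhds hx] with y y1 y2
  rw [y1, presθ_mk h ha hs y2]

/-- (56.7) bijectivity where the `j i` generate `M₀'` -/
theorem presθ_bij {x : V} (hx : x ∈ E)
    (hj : Submodule.span ((O V).St x) (range fun i => j i x) = ⊤)
    (hθ : Function.Surjective (θ x)) : Function.Bijective (presθ R s x) := by
  have hxU := ha.EU hx
  have hxd := h.UA hxU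
  have hxM := ha.EM hx
  have := 𝓐.isNoetherian hxd
  have hMn := (ha.coh.cohAt hx).noeth
  constructor
  · -- injectivity
    have key : relOf (𝓐.A.St x) (fun i => s i x) ≤
        Submodule.span (𝓐.A.St x) (range fun l => (fun i => R l i x : Fin p → 𝓐.A.St x)) := by
      refine (𝓐.stalk hxd).nakayama (IsNoetherian.noetherian _) ?_
      intro c hc
      have hc' : ∑ i, c i • s i x = 0 := hc
      have h1 : ∑ i, 𝓐.red x (c i) • j i x = 0 := by
        apply ha.θ_inj x hx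
        rw [ha.θ_zero hx, ha.θ_comb hx]
        have e1 : ∑ i, 𝓐.red x (c i) • θ x (j i x) = ρ x (∑ i, c i • s i x) := by
          rw [ha.red.comb hxM]
          exact Finset.sum_congr rfl fun i _ => by rw [ha.s_j i x hx]
        rw [e1, hc', ha.red.map_zero hxM]
      obtain ⟨a, haa, c', e⟩ := h.div_of_red hxU h1
      refine ⟨a, haa, c', ?_, e⟩
      obtain ⟨b, rfl⟩ := mem_span_fam.mp haa
      change ∑ i, c' i • s i x = 0
      apply ha.tf x hx
      have e3 : 𝓐.hb x • ∑ i, c' i • s i x =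
          ∑ i, c i • s i x - ∑ i, (∑ l, b l • fun i => R l i x) i • s i x := by
        rw [Finset.smul_sum, ← Finset.sum_sub_distrib]
        refine Finset.sum_congr rfl fun i _ => ?_
        rw [← sub_smul, smul_smul]
        congr 1
        rw [e, Pi.add_apply, Pi.smul_apply, smul_eq_mul]
        abel
      rw [e3, hc', zero_sub, neg_eq_zero]
      simp only [Finset.sum_apply, Pi.smul_apply, smul_eq_mul, Finset.sum_smul, mul_smul]
      rw [Finset.sum_comm]
      refine Finset.sum_eq_zero fun l _ => ?_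
      rw [← Finset.smul_sum, hs l x hx, smul_zero]
    intro m m' e
    obtain ⟨c, rfl⟩ := presMk_surj R x m
    obtain ⟨c', rfl⟩ := presMk_surj R x m'
    rw [presθ_mk h ha hs hx, presθ_mk h ha hs hx, ← sub_eq_zero, ← Finset.sum_sub_distrib] at e
    rw [h.mk_eq hxU]
    apply key
    change ∑ i, (c - c') i • s i x = 0
    rw [← e]
    exact Finset.sum_congr rfl fun i _ => by rw [Pi.sub_apply, sub_smul]
  · -- surjectivity
    have key : Submodule.span (𝓐.A.St x) (range fun i => s i x) = ⊤ := by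
      refine (𝓐.stalk hxd).nakayama_top ?_
      intro m
      obtain ⟨m', hm'⟩ := hθ (ρ x m)
      have h1 : m' ∈ Submodule.span ((O V).St x) (range fun i => j i x) := by
        rw [hj]
        exact Submodule.mem_top
      obtain ⟨a, rfl⟩ := mem_span_fam.mp h1
      choose A hA using fun i => 𝓐.red_surj x hxd (a i)
      have h2 : ρ x m = ρ x (∑ i, A i • s i x) := by
        rw [← hm', ha.θ_comb hx, ha.red.comb hxM]
        exact Finset.sum_congr rfl fun i _ => by rw [hA, ha.s_j i x hx]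
      obtain ⟨l, hl⟩ := (ha.red.eq_iff hxM _ _).1 h2
      exact ⟨_, mem_span_fam.mpr ⟨A, rfl⟩, l, hl⟩
    intro m
    have h1 : m ∈ Submodule.span (𝓐.A.St x) (range fun i => s i x) := by
      rw [key]
      exact Submodule.mem_top
    obtain ⟨c, rfl⟩ := mem_span_fam.mp h1
    exact ⟨presMk R x c, presθ_mk h ha hs hx c⟩

end theta

end Pool.Agent.DQ
end

section

/-! # DQ, module M56, part f: vanishing of `Ext` (56.8), algebraic part -/

set_option autoImplicit false
set_option linter.unusedSectionVars false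

open Set Filter Topology Matrix

universe u v w w'

namespace Pool.Agent.DQ

/-- `Ext^j` vanishes if it vanishes modulo `h` -/
theorem extZero_of_red5 {R : Type v} {S : Type u} [Ring R] [CommRing S] {h : R} {π : R →+* S}
    (H : HRed h π) [IsNoetherianRing Rᵐᵒᵖ] {M : Type w} {M₀ : Type w'} [AddCommGroup M]
    [Module R M] [AddCommGroup M₀] [Module S M₀] {ρ : M → M₀} (hρ : HRedMod h π ρ)
    (tf : ∀ m : M, h • m = 0 → m = 0) {j : ℕ} (hj : ExtZero S M₀ j) : ExtZero R M j := by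
  intro n B ε hres w hw
  obtain ⟨ε₀, hε₀⟩ := hρ.exists_eps ε
  have h1 := H.isRes hres tf hρ ε₀ hε₀
  refine H.col_exact (hres.mul_eq_zero j) (fun v hv => ?_) w hw
  exact hj _ _ _ h1 v hv

variable {V : Type} [NormedAddCommGroup V] [NormedSpace ℂ V] [FiniteDimensional ℂ V]
  {𝓐 : Defo.{0, v} V}

theorem Defo.hred5 {x : V} (hx : x ∈ 𝓐.A.dom) : HRed (𝓐.hb x) (𝓐.redHom hx) where
  comm := 𝓐.hb_comm x hx
  reg := 𝓐.hb_reg x hx
  surj := 𝓐.red_surj x hx
  ker := 𝓐.red_ker x hx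
  unit := (𝓐.stalk hx).unit'

theorem Defo.isNoetherian_op5 {x : V} (hx : x ∈ 𝓐.A.dom) : IsNoetherianRing (𝓐.A.St x)ᵐᵒᵖ :=
  𝓐.op.isNoetherian hx

variable {M₀' : EMod.{0, 0, 0} (O V)} {U : Set V} {p q : ℕ}
  {j : Fin p → (x : V) → M₀'.St x} {R : Fin q → Fin p → (x : V) → 𝓐.A.St x}

/-- the span of the `j i` at `x` -/
noncomputable def jsp (j : Fin p → (x : V) → M₀'.St x) (x : V) : Submodule ((O V).St x) (M₀'.St x) :=
  Submodule.span ((O V).St x) (range fun i => j i x)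

variable (R) in
/-- the reduction of the extension, with values in the span of the `j i` -/
noncomputable def presRed (j : Fin p → (x : V) → M₀'.St x) (x : V) (m : (presMod R).St x) :
    jsp j x :=
  ⟨∑ i, 𝓐.red x ((presMk_surj R x m).choose i) • j i x, mem_span_fam.mpr ⟨_, rfl⟩⟩

namespace Pres

variable (h : Pres 𝓐 M₀' U j R)

include h

theorem red_mk {x : V} (hx : x ∈ U) (c : Fin p → 𝓐.A.St x) :
    (presRed R j x (presMk R x c) : M₀'.St x) = ∑ i, 𝓐.red x (c i) • j i x := by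
  have h1 := (presMk_surj R x (presMk R x c)).choose_spec
  rw [h.mk_eq hx] at h1
  have h2 := h.red_comb hx h1
  change ∑ i, 𝓐.red x ((presMk_surj R x (presMk R x c)).choose i) • j i x = _
  rw [← sub_eq_zero, ← Finset.sum_sub_distrib, ← h2]
  refine Finset.sum_congr rfl fun i _ => ?_
  rw [← sub_smul]
  congr 1
  exact (map_sub (𝓐.redHom (h.UA hx)) _ _).symm

/-- the reduction of the extension is the span of the `j i` -/
theorem hredMod {x : V} (hx : x ∈ U) :
    HRedMod (𝓐.hb x) (𝓐.redHom (h.UA hx)) (presRed R j x) where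
  add m m' := by
    obtain ⟨c, rfl⟩ := presMk_surj R x m
    obtain ⟨c', rfl⟩ := presMk_surj R x m'
    apply Subtype.ext
    rw [← map_add, Submodule.coe_add, h.red_mk hx, h.red_mk hx, h.red_mk hx,
      ← Finset.sum_add_distrib]
    refine Finset.sum_congr rfl fun i _ => ?_
    rw [← add_smul]
    congr 1
    exact map_add (𝓐.redHom (h.UA hx)) _ _
  smul a m := by
    obtain ⟨c, rfl⟩ := presMk_surj R x m
    apply Subtype.ext
    rw [← map_smul, Submodule.coe_smul, h.red_mk hx, h.red_mk hx, Finset.smul_sum]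
    refine Finset.sum_congr rfl fun i _ => ?_
    rw [smul_smul]
    congr 1
    exact map_mul (𝓐.redHom (h.UA hx)) _ _
  surj := by
    rintro ⟨m, hm⟩
    obtain ⟨b, rfl⟩ := mem_span_fam.mp hm
    choose B hB using fun i => 𝓐.red_surj x (h.UA hx) (b i)
    refine ⟨presMk R x B, Subtype.ext ?_⟩
    rw [h.red_mk hx]
    exact Finset.sum_congr rfl fun i _ => by rw [hB]
  ker m := by
    obtain ⟨c, rfl⟩ := presMk_surj R x m
    rw [← Subtype.coe_inj, h.red_mk hx, Submodule.coe_zero]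
    constructor
    · intro h0
      obtain ⟨a, ha, c', e⟩ := h.div_of_red hx h0
      refine ⟨presMk R x c', ?_⟩
      rw [e, map_add, map_smul, (h.mk_zero hx a).2 ha, zero_add]
    · rintro ⟨m', hm'⟩
      obtain ⟨c', rfl⟩ := presMk_surj R x m'
      rw [← map_smul, h.mk_eq hx] at hm'
      have h2 := h.red_comb hx hm'
      rw [← h2]
      refine Finset.sum_congr rfl fun i _ => ?_
      congr 1
      have h3 : 𝓐.redHom (h.UA hx) ((𝓐.hb x • c') i) = 0 :=
        (𝓐.red_ker x (h.UA hx) _).2 ⟨c' i, rfl⟩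
      have h4 : 𝓐.redHom (h.UA hx) ((c - 𝓐.hb x • c') i) =
          𝓐.redHom (h.UA hx) (c i) - 𝓐.redHom (h.UA hx) ((𝓐.hb x • c') i) :=
        map_sub (𝓐.redHom (h.UA hx)) _ _
      rw [h3, sub_zero] at h4
      exact h4.symm

/-- (56.8) vanishing of `Ext` of the extension -/
theorem extZero {x : V} (hx : x ∈ U) {i : ℕ} (hi : ExtZero ((O V).St x) (jsp j x) i) :
    ExtZero (𝓐.A.St x) ((presMod R).St x) i := by
  have := Defo.isNoetherian_op5 (h.UA hx)
  exact extZero_of_red5 (Defo.hred5 (h.UA hx)) (h.hredMod hx) (h.tf' x hx) hi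

end Pres

end Pool.Agent.DQ
end

section

/-! # DQ, module M56, part g: monic equations in the fibre variables, compactness (56.8, 56.9) -/

set_option autoImplicit false
set_option linter.unusedSectionVars false

open Set Filter Topology

universe u v w

namespace Pool.Agent.DQ

section van

variable {X : Type u} [TopologicalSpace X] {R : ERing.{u, v} X}

/-- the vanishing of a coherent sheaf is an open condition -/
theorem EMod.CohAt.subsingleton_near5 {F : EMod.{u, v, w} R} {x : X} (hF : F.CohAt x)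
    (h : Subsingleton (F.St x)) : ∀ᶠ y in 𝓝 x, Subsingleton (F.St y) := by
  obtain ⟨q, G, hG, hGen⟩ := hF.2.1
  have h1 : ∀ j, ∀ᶠ y in 𝓝 x, G j y = (0 : (y : X) → F.St y) y := fun j =>
    F.inj (hG j) (F.zero x hF.1) (Subsingleton.elim _ _)
  filter_upwards [hGen, eventually_all.mpr h1] with y y1 y2
  have h2 : ∀ m : F.St y, m = 0 := by
    intro m
    have h3 : m ∈ Submodule.span (R.St y) (range fun i => G i y) := by
      rw [y1]
      exact Submodule.mem_top
    obtain ⟨c, rfl⟩ := mem_span_fam.mp h3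
    refine Finset.sum_eq_zero fun i _ => ?_
    have h4 : G i y = 0 := y2 i
    rw [h4, smul_zero]
  exact ⟨fun a b => by rw [h2 a, h2 b]⟩

end van

/-- on a compact set, a condition which holds near the points with `f = a` (the maximal value)
holds at the points with `f ≥ a'` for some `a' < a` -/
theorem exists_lt_of_compact5 {X : Type u} [TopologicalSpace X] {K : Set X} (hK : IsCompact K)
    {f : X → ℝ} (hf : Continuous f) {a : ℝ} (ha : 0 < a) (hle : ∀ x ∈ K, f x ≤ a)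
    {Q : X → Prop} (hQ : ∀ x ∈ K, f x = a → ∀ᶠ y in 𝓝 x, Q y) :
    ∃ a', 0 < a' ∧ a' < a ∧ ∀ x ∈ K, a' ≤ f x → Q x := by
  let W : Set X := {x | ∀ᶠ y in 𝓝 x, Q y}
  have hW : IsOpen W := by
    rw [isOpen_iff_mem_nhds]
    intro x hx
    exact eventually_eventually_nhds.mpr hx
  have hKW : IsCompact (K \ W) := hK.diff hW
  rcases (K \ W).eq_empty_or_nonempty with h0 | h0
  · refine ⟨a / 2, by linarith, by linarith, fun x hx _ => ?_⟩
    have : x ∈ W := by
      by_contra h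
      exact (h0.le ⟨hx, h⟩ : x ∈ (∅ : Set X)).elim
    exact Eventually.self_of_nhds this
  · obtain ⟨x₀, hx₀, hmax⟩ := hKW.exists_isMaxOn h0 hf.continuousOn
    have h1 : f x₀ < a := by
      rcases lt_or_eq_of_le (hle x₀ hx₀.1) with h | h
      · exact h
      · exact absurd (hQ x₀ hx₀.1 h) hx₀.2
    refine ⟨max (a / 2) ((f x₀ + a) / 2), lt_max_of_lt_left (by linarith),
      max_lt (by linarith) (by linarith), fun x hx hax => ?_⟩
    have : x ∈ W := by
      by_contra h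
      have h2 := hmax (show x ∈ K \ W from ⟨hx, h⟩)
      have h3 : f x ≤ f x₀ := h2
      have h4 := (le_max_right (a / 2) ((f x₀ + a) / 2)).trans hax
      linarith
    exact Eventually.self_of_nhds this

variable {V : Type} [NormedAddCommGroup V] [NormedSpace ℂ V] [FiniteDimensional ℂ V] {k d : ℕ}
  {M₀ : EMod.{0, 0, w} (O V)} {σ : Sit V k d} {T₀ : Set (Fin k → ℂ)}
  {M₀' : EMod.{0, 0, 0} (O V)} {θ : ∀ x, M₀'.St x → M₀.St x}

/-- (56.8) monic polynomials in the fibre variables kill the stalks of `M₀'` -/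
theorem Ext0.monic (hext : Ext0 M₀ σ T₀ M₀' θ) {x : V} (hx : x ∈ σ.KC T₀) :
    ∃ (l : Fin d → ℕ) (a : ∀ i, Fin (l i) → Bs k → ℂ), (∀ i j, HolAt (a i j) (σ.e x).1) ∧
      ∀ i, ∀ m : M₀'.St x, om (fun y => mon (a i) (σ.e y).1 ((σ.e y).2 i)) x • m = 0 := by
  have hsub : ∀ y ∈ fib σ.e (cbox (ContinuousLinearEquiv.refl ℂ (Fin d → ℂ)) (σ.e σ.y₀).2 (-1)
      (fun _ => σ.Rv)) (σ.e x).1, y ∈ σ.KC T₀ := by
    rintro y ⟨hy, hyv⟩
    refine ⟨?_, ?_, ?_, ?_⟩
    · have : σ.t y = σ.t x := by simp only [Sit.t, hy]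
      rw [this]
      exact hx.1
    · have : σ.w y = σ.w x := by simp only [Sit.w, hy]
      rw [this]
      exact hx.2.1
    · have : σ.z y = σ.z x := by simp only [Sit.z, hy]
      rw [this]
      exact hx.2.2.1
    · rw [pi_norm_le_iff_of_nonneg σ.Rv_pos.le]
      exact fun i => (hyv i).2
  have hxf : x ∈ fib σ.e (cbox (ContinuousLinearEquiv.refl ℂ (Fin d → ℂ)) (σ.e σ.y₀).2 (-1)
      (fun _ => σ.Rv)) (σ.e x).1 := by
    refine ⟨rfl, fun i => ⟨?_, ?_⟩⟩
    · simp only [Pi.neg_apply, Pi.one_apply]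
      linarith [norm_nonneg ((ContinuousLinearEquiv.refl ℂ (Fin d → ℂ)) (σ.e x).2 i -
        (σ.e σ.y₀).2 i)]
    · have := hx.2.2.2
      rw [pi_norm_le_iff_of_nonneg σ.Rv_pos.le] at this
      exact this i
  have key := fun i => finite_monic M₀' σ.e (ContinuousLinearEquiv.refl ℂ (Fin d → ℂ))
    (σ.e σ.y₀).2 (fun _ => σ.Rv) (fun _ => σ.Rv_pos) (σ.e x).1
    (fun y hy => hext.coh y (hsub y hy)) (fun y hy hyb => by
      refine hext.bd y (hsub y hy) ?_
      refine le_antisymm (hsub y hy).2.2.2 ?_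
      by_contra hlt
      apply hyb
      rw [not_le, pi_norm_lt_iff σ.Rv_pos] at hlt
      intro i
      refine ⟨?_, hlt i⟩
      simp only [Pi.neg_apply, Pi.one_apply]
      linarith [norm_nonneg ((ContinuousLinearEquiv.refl ℂ (Fin d → ℂ)) (σ.e y).2 i -
        (σ.e σ.y₀).2 i)]) i
  choose l a ha hev using key
  refine ⟨l, a, ha, fun i m => ?_⟩
  exact ((hev i).self_of_nhds).2 x hxf m

end Pool.Agent.DQ
end

section

/-! # DQ, module M56, part h: vanishing of `Ext` of the extension -/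

set_option autoImplicit false
set_option linter.unusedSectionVars false

open Set Filter Topology

universe u v w

namespace Pool.Agent.DQ

variable {V : Type} [NormedAddCommGroup V] [NormedSpace ℂ V] [FiniteDimensional ℂ V] {k d : ℕ}
  {𝓐 : Defo.{0, v} V} {M₀ : EMod.{0, 0, w} (O V)} {σ : Sit V k d} {T₀ : Set (Fin k → ℂ)}
  {M₀' : EMod.{0, 0, 0} (O V)} {θ : ∀ x, M₀'.St x → M₀.St x}

/-- (56.8) -/
theorem Ext0.extZero (hext : Ext0 M₀ σ T₀ M₀' θ) {x : V} (hx : x ∈ σ.KC T₀) {p : ℕ}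
    (j : Fin p → (x : V) → M₀'.St x) {i : ℕ} (hi : i < d) :
    ExtZero ((O V).St x) (jsp j x) i := by
  obtain ⟨l, a, ha, hk⟩ := hext.monic hx
  refine extZero_of_grade (d := d) ?_ hi
  refine gradeGE_monic_germ σ.e x l a ha _ fun i => ?_
  rw [Module.mem_annihilator]
  intro m
  exact Subtype.ext (hk i m)

end Pool.Agent.DQ
end
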