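import Pool.Agent.Lib.MP_4aa2a9_ag.Mg.G035
import Pool.Agent.Lib.MP_4aa2a9_ag.Mg.G003
import Pool.Agent.Lib.MP_4aa2a9_ag.Mg.G038
import Pool.Agent.Lib.MP_4aa2a9_ag.Mg.G039
import Pool.Agent.Lib.MP_4aa2a9_ag.Mg.G025
import Pool.Agent.Lib.MP_4aa2a9_ag.DQ.MGeo
import Pool.Agent.Lib.MP_4aa2a9_ag.Mg.G045

section

/-!
# DQ, modules H9 and L: open conditions; the cohomology sheaf of a complex of free modules
-/

set_option autoImplicit false

open Set Filter Topology Matrix MulOpposite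

universe u v w w'

namespace Pool.Agent.DQ

variable {V : Type u} [NormedAddCommGroup V] [NormedSpace ℂ V] [FiniteDimensional ℂ V]
  (𝓐 : Defo.{u, v} V)

section near

variable {𝓐} {x : V}

omit [FiniteDimensional ℂ V] in
theorem mAt_near {a b : ℕ} {X : Fin a → Fin b → (x : V) → 𝓐.A.St x} (hX : MAt 𝓐 X {x}) :
    ∀ᶠ y in 𝓝 x, MAt 𝓐 X {y} := by
  have h : ∀ i j, ∀ᶠ y in 𝓝 x, 𝓐.A.At (X i j) y := fun i j => 𝓐.A.ev (hX i j x rfl)
  filter_upwards [eventually_all.mpr fun i => eventually_all.mpr (h i)] with y hy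
  rintro i j z rfl
  exact hy i j

omit [FiniteDimensional ℂ V] in
/-- identities between matrices of sections are open -/
theorem fm_near {a b : ℕ} {X Y : Fin a → Fin b → (x : V) → 𝓐.A.St x} (hX : MAt 𝓐 X {x})
    (hY : MAt 𝓐 Y {x}) (h : fm 𝓐 X x = fm 𝓐 Y x) : ∀ᶠ y in 𝓝 x, fm 𝓐 X y = fm 𝓐 Y y := by
  have h1 : ∀ i j, ∀ᶠ y in 𝓝 x, X i j y = Y i j y := fun i j =>
    𝓐.A.inj (hX i j x rfl) (hY i j x rfl) (congrFun (congrFun h i) j)
  filter_upwards [eventually_all.mpr fun i => eventually_all.mpr (h1 i)] with y hy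
  ext i j
  exact hy i j

omit [FiniteDimensional ℂ V] in
theorem fm_mul_near {a b c a' : ℕ} (hx : x ∈ 𝓐.A.dom)
    {X : Fin a → Fin b → (x : V) → 𝓐.A.St x} (hX : MAt 𝓐 X {x})
    {Y : Fin b → Fin c → (x : V) → 𝓐.A.St x} (hY : MAt 𝓐 Y {x})
    {X' : Fin a → Fin a' → (x : V) → 𝓐.A.St x} (hX' : MAt 𝓐 X' {x})
    {Y' : Fin a' → Fin c → (x : V) → 𝓐.A.St x} (hY' : MAt 𝓐 Y' {x})
    (h : fm 𝓐 X x * fm 𝓐 Y x = fm 𝓐 X' x * fm 𝓐 Y' x) :
    ∀ᶠ y in 𝓝 x, fm 𝓐 X y * fm 𝓐 Y y = fm 𝓐 X' y * fm 𝓐 Y' y :=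
  fm_near (X := fun i j x => (fm 𝓐 X x * fm 𝓐 Y x) i j)
    (Y := fun i j x => (fm 𝓐 X' x * fm 𝓐 Y' x) i j)
    (mat_mul 𝓐 (singleton_subset_iff.2 hx) hX hY) (mat_mul 𝓐 (singleton_subset_iff.2 hx) hX' hY') h

omit [FiniteDimensional ℂ V] in
theorem fm_mul_near_zero {a b c : ℕ} (hx : x ∈ 𝓐.A.dom)
    {X : Fin a → Fin b → (x : V) → 𝓐.A.St x} (hX : MAt 𝓐 X {x})
    {Y : Fin b → Fin c → (x : V) → 𝓐.A.St x} (hY : MAt 𝓐 Y {x})
    (h : fm 𝓐 X x * fm 𝓐 Y x = 0) : ∀ᶠ y in 𝓝 x, fm 𝓐 X y * fm 𝓐 Y y = 0 :=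
  fm_near (X := fun i j x => (fm 𝓐 X x * fm 𝓐 Y x) i j) (Y := fun _ _ _ => 0)
    (mat_mul 𝓐 (singleton_subset_iff.2 hx) hX hY)
    (fun _ _ y hy => 𝓐.A.zero y (by rw [mem_singleton_iff.1 hy]; exact hx)) h

omit [FiniteDimensional ℂ V] in
/-- the product of a row of sections and a matrix of sections -/
theorem vecMul_at {a b : ℕ} (hx : x ∈ 𝓐.A.dom) {X : Fin a → Fin b → (x : V) → 𝓐.A.St x}
    (hX : MAt 𝓐 X {x}) {s : Fin a → (x : V) → 𝓐.A.St x} (hs : ∀ i, 𝓐.A.At (s i) x) (j : Fin b) :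
    𝓐.A.At (fun y => ((fun i => s i y) ᵥ* fm 𝓐 X y) j) x := by
  have := 𝓐.A.sum Finset.univ (s := fun (l : Fin a) y => s l y * X l j y) hx
    (fun l _ => 𝓐.A.mul (hs l) (hX l j x rfl))
  refine 𝓐.A.congr this (Eventually.of_forall fun y => ?_)
  simp [Matrix.vecMul, dotProduct, fm, Finset.sum_apply]

omit [FiniteDimensional ℂ V] in
/-- generation of the relations is an open condition -/
theorem rel_nearL {F : EMod.{u, v, w} 𝓐.A} (hF : F.CohAt x) {p m : ℕ}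
    {g : Fin p → (x : V) → F.St x} (hg : ∀ i, F.At (g i) x)
    {ρ : Fin m → Fin p → (x : V) → 𝓐.A.St x} (hρ : MAt 𝓐 ρ {x})
    (h : ∀ v, fe 𝓐 g x v = 0 → ∃ u, u ᵥ* fm 𝓐 ρ x = v) :
    ∀ᶠ y in 𝓝 x, ∀ v, fe 𝓐 g y v = 0 → ∃ u, u ᵥ* fm 𝓐 ρ y = v := by
  have hx := F.dom_sub hF.1
  obtain ⟨m', τ, hτ, hrel⟩ := hF.relFG g hg
  have h1 : ∀ k, ∀ᶠ y in 𝓝 x, (fun i => τ k i y) ∈ Submodule.span (𝓐.A.St y)
      (range fun j => (fun i => ρ j i y)) := by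
    intro k
    refine (𝓐.A.free p).near_mem_span (s := fun y i => τ k i y) (g := fun j y i => ρ j i y)
      ⟨hx, fun i => hτ k i⟩ (fun j => ⟨hx, fun i => hρ j i x rfl⟩) ?_
    obtain ⟨u, hu⟩ := h (fun i => τ k i x) (by
      have : (fun i => τ k i x) ∈ F.rel g x := by
        rw [hrel.self_of_nhds]
        exact Submodule.subset_span ⟨k, rfl⟩
      exact this)
    rw [vecMul_eq_sum] at hu
    exact mem_span_fam.2 ⟨u, hu.symm⟩
  filter_upwards [hrel, eventually_all.mpr h1] with y y1 y2 v hv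
  have h2 : v ∈ F.rel g y := hv
  rw [y1] at h2
  have h3 : Submodule.span (𝓐.A.St y) (range fun j => fun i => τ j i y) ≤
      Submodule.span (𝓐.A.St y) (range fun j => (fun i => ρ j i y)) := by
    rw [Submodule.span_le]
    rintro _ ⟨k, rfl⟩
    exact y2 k
  obtain ⟨u, hu⟩ := mem_span_fam.1 (h3 h2)
  refine ⟨u, ?_⟩
  rw [vecMul_eq_sum]
  exact hu.symm

/-- if `v W ∈ im C` implies `v ∈ ker ε` at `x`, the same holds near `x` -/
theorem pull_near {F : EMod.{u, v, w} 𝓐.A} (hFx : x ∈ F.dom) {p a b : ℕ}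
    {g : Fin p → (x : V) → F.St x} (hg : ∀ i, F.At (g i) x)
    {W : Fin p → Fin b → (x : V) → 𝓐.A.St x} (hW : MAt 𝓐 W {x})
    {C : Fin a → Fin b → (x : V) → 𝓐.A.St x} (hC : MAt 𝓐 C {x})
    (h : ∀ v, (∃ t, v ᵥ* fm 𝓐 W x = t ᵥ* fm 𝓐 C x) → fe 𝓐 g x v = 0) :
    ∀ᶠ y in 𝓝 x, ∀ v, (∃ t, v ᵥ* fm 𝓐 W y = t ᵥ* fm 𝓐 C y) → fe 𝓐 g y v = 0 := by
  have hx := F.dom_sub hFx
  obtain ⟨m', τ, hτ, hrel⟩ := ((𝓐.oka b).cohAt hx).relFG
    (Fin.append (fun i y j => W i j y) (fun i y j => C i j y)) (by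
      intro i
      refine Fin.addCases (fun i => ?_) (fun i => ?_) i
      · exact (congrArg (fun s => (𝓐.A.free b).At s x) (Fin.append_left _ _ i)).mpr
          ⟨hx, fun j => hW i j x rfl⟩
      · exact (congrArg (fun s => (𝓐.A.free b).At s x) (Fin.append_right _ _ i)).mpr
          ⟨hx, fun j => hC i j x rfl⟩)
  have key : ∀ (y : V) (v : Fin p → 𝓐.A.St y) (t : Fin a → 𝓐.A.St y),
      Fin.append v t ∈ (𝓐.A.free b).rel
        (Fin.append (fun i y j => W i j y) (fun i y j => C i j y)) y ↔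
      v ᵥ* fm 𝓐 W y + t ᵥ* fm 𝓐 C y = 0 := by
    intro y v t
    have h3 : Fin.append v t ∈ (𝓐.A.free b).rel
        (Fin.append (fun i y j => W i j y) (fun i y j => C i j y)) y ↔
        ∑ i, Fin.append v t i • (Fin.append (fun i y j => W i j y) (fun i y j => C i j y) i y :
          Fin b → 𝓐.A.St y) = 0 := Iff.rfl
    rw [h3, Fin.sum_univ_add, vecMul_eq_sum, vecMul_eq_sum]
    simp only [Fin.append_left, Fin.append_right]
    rfl
  have hsplit : ∀ (y : V) (v : Fin (p + a) → 𝓐.A.St y),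
      v = Fin.append (fun i => v (Fin.castAdd a i)) (fun i => v (Fin.natAdd p i)) := by
    intro y v
    ext i
    refine Fin.addCases (fun j => ?_) (fun j => ?_) i
    · rw [Fin.append_left]
    · rw [Fin.append_right]
  have h1 : ∀ k, ∀ᶠ y in 𝓝 x, ∑ i, τ k (Fin.castAdd a i) y • g i y = 0 := by
    intro k
    refine F.inj (F.comb hFx (fun i => hτ k (Fin.castAdd a i)) hg) (F.zero x hFx) ?_
    refine h (fun i => τ k (Fin.castAdd a i) x) ⟨-fun i => τ k (Fin.natAdd p i) x, ?_⟩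
    have h2 : (fun i => τ k i x) ∈ (𝓐.A.free b).rel
        (Fin.append (fun i y j => W i j y) (fun i y j => C i j y)) x := by
      rw [hrel.self_of_nhds]
      exact Submodule.subset_span ⟨k, rfl⟩
    rw [hsplit x (fun i => τ k i x)] at h2
    have h3 := (key x _ _).1 h2
    rw [Matrix.neg_vecMul]
    exact eq_neg_of_add_eq_zero_left h3
  filter_upwards [hrel, eventually_all.mpr h1] with y y1 y2 v hv
  obtain ⟨t, ht⟩ := hv
  have h4 : Fin.append v (-t) ∈ (𝓐.A.free b).rel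
        (Fin.append (fun i y j => W i j y) (fun i y j => C i j y)) y := by
    rw [key, ht, Matrix.neg_vecMul, add_neg_cancel]
  rw [y1] at h4
  obtain ⟨e, he⟩ := mem_span_fam.1 h4
  have h5 : v = ∑ j, e j • fun i => τ j (Fin.castAdd a i) y := by
    ext i
    have := congrFun he (Fin.castAdd a i)
    rw [Fin.append_left, Finset.sum_apply] at this
    rw [this, Finset.sum_apply]
    rfl
  rw [h5, map_sum]
  refine Finset.sum_eq_zero fun j _ => ?_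
  rw [map_smul]
  have : fe 𝓐 g y (fun i => τ j (Fin.castAdd a i) y) = 0 := y2 j
  rw [this, smul_zero]

end near

/-! ### The cohomology sheaf -/

section HM

variable {a b c' : ℕ} (C1 : Fin a → Fin b → (x : V) → 𝓐.A.St x)
  (C2 : Fin b → Fin c' → (x : V) → 𝓐.A.St x)

/-- the rows of a family of matrices -/
def rowsF (X : Fin a → Fin b → (x : V) → 𝓐.A.St x) (i : Fin a) (x : V) : (𝓐.A.free b).St x :=
  fun j => X i j x

/-- the kernel sheaf of `u ↦ u C2` -/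
noncomputable def HM1 : EMod.{u, v, v} 𝓐.A :=
  (𝓐.A.free b).sub ((𝓐.A.free c').relSub (rowsF 𝓐 C2)) ((𝓐.A.free c').relSub_open (rowsF 𝓐 C2))

/-- the inclusion of the kernel sheaf -/
noncomputable def HMv (x : V) : (HM1 𝓐 C2).St x →ₗ[𝓐.A.St x] (Fin b → 𝓐.A.St x) :=
  ((𝓐.A.free c').relSub (rowsF 𝓐 C2) x).subtype

/-- a cycle as an element of the stalk of the kernel sheaf -/
def HMk {x : V} {u : Fin b → 𝓐.A.St x} (hu : u ∈ (𝓐.A.free c').relSub (rowsF 𝓐 C2) x) :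
    (HM1 𝓐 C2).St x := ⟨u, hu⟩

omit [FiniteDimensional ℂ V] in
theorem HMv_HMk {x : V} {u : Fin b → 𝓐.A.St x}
    (hu : u ∈ (𝓐.A.free c').relSub (rowsF 𝓐 C2) x) : HMv 𝓐 C2 x (HMk 𝓐 C2 hu) = u := rfl

omit [FiniteDimensional ℂ V] in
theorem HMv_inj (x : V) : Function.Injective (HMv 𝓐 C2 x) :=
  ((𝓐.A.free c').relSub (rowsF 𝓐 C2) x).injective_subtype

/-- the rows of `C1` as families with values in the kernel sheaf -/
noncomputable def HMr (i : Fin a) (x : V) : (HM1 𝓐 C2).St x :=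
  (𝓐.A.free b).toSub ((𝓐.A.free c').relSub (rowsF 𝓐 C2)) (rowsF 𝓐 C1 i) x

/-- the cohomology sheaf `ker C2 / im C1` -/
noncomputable def HM : EMod.{u, v, v} 𝓐.A :=
  (HM1 𝓐 C2).quot ((HM1 𝓐 C2).spn (HMr 𝓐 C1 C2)) ((HM1 𝓐 C2).spn_open (HMr 𝓐 C1 C2))

open Classical in
/-- the class of a cycle -/
noncomputable def HMφ (x : V) (u : Fin b → 𝓐.A.St x) : (HM 𝓐 C1 C2).St x :=
  if h : u ∈ (𝓐.A.free c').relSub (rowsF 𝓐 C2) x then
    ((HM1 𝓐 C2).spn (HMr 𝓐 C1 C2) x).mkQ (HMk 𝓐 C2 h) else 0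

/-- the points where the two families form a complex of sections -/
structure HGood (x : V) : Prop where
  dom : x ∈ 𝓐.A.dom
  at1 : MAt 𝓐 C1 {x}
  at2 : MAt 𝓐 C2 {x}
  comp : fm 𝓐 C1 x * fm 𝓐 C2 x = 0

variable {𝓐 C1 C2}

omit [FiniteDimensional ℂ V] in
theorem HGood.near {x : V} (h : HGood 𝓐 C1 C2 x) : ∀ᶠ y in 𝓝 x, HGood 𝓐 C1 C2 y := by
  filter_upwards [𝓐.A.isOpen_dom.mem_nhds h.dom, mAt_near h.at1, mAt_near h.at2,
    fm_mul_near_zero h.dom h.at1 h.at2 h.comp] with y y1 y2 y3 y4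
  exact ⟨y1, y2, y3, y4⟩

omit [FiniteDimensional ℂ V] in
theorem HGood.mem_relSub {x : V} (h : HGood 𝓐 C1 C2 x) (u : Fin b → 𝓐.A.St x) :
    u ∈ (𝓐.A.free c').relSub (rowsF 𝓐 C2) x ↔ u ᵥ* fm 𝓐 C2 x = 0 := by
  rw [(𝓐.A.free c').relSub_eq (rowsF 𝓐 C2) h.dom (fun i => ⟨h.dom, fun j => h.at2 i j x rfl⟩),
    vecMul_eq_sum]
  rfl

omit [FiniteDimensional ℂ V] in
theorem HGood.row_mem {x : V} (h : HGood 𝓐 C1 C2 x) (i : Fin a) :
    rowsF 𝓐 C1 i x ∈ (𝓐.A.free c').relSub (rowsF 𝓐 C2) x := by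
  refine (h.mem_relSub _).2 ?_
  have := congrFun (congrArg (fun X => (Pi.single i 1 : Fin a → 𝓐.A.St x) ᵥ* X) h.comp)
  ext j
  have h1 := this j
  simp only [← Matrix.vecMul_vecMul, Matrix.single_one_vecMul, Matrix.vecMul_zero] at h1
  exact h1

omit [FiniteDimensional ℂ V] in
theorem HGood.coe_HMr {x : V} (h : HGood 𝓐 C1 C2 x) (i : Fin a) :
    HMv 𝓐 C2 x (HMr 𝓐 C1 C2 i x) = fm 𝓐 C1 x i := (𝓐.A.free b).coe_toSub _ _ (h.row_mem i)

omit [FiniteDimensional ℂ V] in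
theorem HGood.at_HMr {x : V} (h : HGood 𝓐 C1 C2 x) (i : Fin a) :
    (HM1 𝓐 C2).At (HMr 𝓐 C1 C2 i) x := by
  refine (𝓐.A.free b).toSub_at _ ((𝓐.A.free c').relSub_open (rowsF 𝓐 C2))
    ⟨h.dom, fun j => h.at1 i j x rfl⟩ ?_
  filter_upwards [h.near] with y hy
  exact hy.row_mem i

omit [FiniteDimensional ℂ V] in
theorem HGood.mem_spn {x : V} (h : HGood 𝓐 C1 C2 x) (u : Fin b → 𝓐.A.St x)
    (hu : u ∈ (𝓐.A.free c').relSub (rowsF 𝓐 C2) x) :
    HMk 𝓐 C2 hu ∈ (HM1 𝓐 C2).spn (HMr 𝓐 C1 C2) x ↔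
      ∃ t, t ᵥ* fm 𝓐 C1 x = u := by
  rw [(HM1 𝓐 C2).spn_eq (HMr 𝓐 C1 C2) h.at_HMr]
  refine mem_span_fam.trans (exists_congr fun t => ?_)
  have e : HMv 𝓐 C2 x (∑ i, t i • HMr 𝓐 C1 C2 i x) = t ᵥ* fm 𝓐 C1 x := by
    rw [map_sum, vecMul_eq_sum]
    refine Finset.sum_congr rfl fun i _ => ?_
    rw [map_smul, h.coe_HMr i]
  rw [← e]
  constructor
  · intro h1
    rw [← h1, HMv_HMk]
  · intro h1
    exact HMv_inj 𝓐 C2 x (Eq.symm h1)

omit [FiniteDimensional ℂ V] in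
theorem HGood.φ_eq {x : V} (_ : HGood 𝓐 C1 C2 x) (u : Fin b → 𝓐.A.St x)
    (hu : u ∈ (𝓐.A.free c').relSub (rowsF 𝓐 C2) x) :
    HMφ 𝓐 C1 C2 x u = ((HM1 𝓐 C2).spn (HMr 𝓐 C1 C2) x).mkQ (HMk 𝓐 C2 hu) := dif_pos hu

omit [FiniteDimensional ℂ V] in
theorem HGood.φ_add {x : V} (h : HGood 𝓐 C1 C2 x) (u u' : Fin b → 𝓐.A.St x)
    (hu : u ᵥ* fm 𝓐 C2 x = 0) (hu' : u' ᵥ* fm 𝓐 C2 x = 0) :
    HMφ 𝓐 C1 C2 x (u + u') = HMφ 𝓐 C1 C2 x u + HMφ 𝓐 C1 C2 x u' := by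
  rw [h.φ_eq u ((h.mem_relSub u).2 hu), h.φ_eq u' ((h.mem_relSub u').2 hu'),
    h.φ_eq (u + u') ((h.mem_relSub _).2 (by rw [Matrix.add_vecMul, hu, hu', add_zero]))]
  exact map_add ((HM1 𝓐 C2).spn (HMr 𝓐 C1 C2) x).mkQ (HMk 𝓐 C2 _) (HMk 𝓐 C2 _)

omit [FiniteDimensional ℂ V] in
theorem HGood.φ_smul {x : V} (h : HGood 𝓐 C1 C2 x) (r : 𝓐.A.St x) (u : Fin b → 𝓐.A.St x)
    (hu : u ᵥ* fm 𝓐 C2 x = 0) : HMφ 𝓐 C1 C2 x (r • u) = r • HMφ 𝓐 C1 C2 x u := by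
  rw [h.φ_eq u ((h.mem_relSub u).2 hu),
    h.φ_eq (r • u) ((h.mem_relSub _).2 (by rw [Matrix.smul_vecMul, hu, smul_zero]))]
  exact map_smul ((HM1 𝓐 C2).spn (HMr 𝓐 C1 C2) x).mkQ r (HMk 𝓐 C2 _)

omit [FiniteDimensional ℂ V] in
theorem HGood.φ_surj {x : V} (h : HGood 𝓐 C1 C2 x) (m : (HM 𝓐 C1 C2).St x) :
    ∃ u, u ᵥ* fm 𝓐 C2 x = 0 ∧ HMφ 𝓐 C1 C2 x u = m := by
  obtain ⟨⟨u, hu⟩, rfl⟩ := ((HM1 𝓐 C2).spn (HMr 𝓐 C1 C2) x).mkQ_surjective m
  exact ⟨u, (h.mem_relSub u).1 hu, h.φ_eq u hu⟩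

omit [FiniteDimensional ℂ V] in
theorem HGood.φ_ker {x : V} (h : HGood 𝓐 C1 C2 x) (u : Fin b → 𝓐.A.St x)
    (hu : u ᵥ* fm 𝓐 C2 x = 0) : HMφ 𝓐 C1 C2 x u = 0 ↔ ∃ t, t ᵥ* fm 𝓐 C1 x = u := by
  rw [h.φ_eq u ((h.mem_relSub u).2 hu)]
  refine (Submodule.Quotient.mk_eq_zero _).trans ?_
  exact h.mem_spn u _

omit [FiniteDimensional ℂ V] in
theorem HGood.φ_at {x : V} (h : HGood 𝓐 C1 C2 x) (u : (x : V) → Fin b → 𝓐.A.St x)
    (hu : (𝓐.A.free b).At u x) (hu' : ∀ᶠ y in 𝓝 x, u y ᵥ* fm 𝓐 C2 y = 0) :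
    (HM 𝓐 C1 C2).At (fun y => HMφ 𝓐 C1 C2 y (u y)) x := by
  refine ⟨(𝓐.A.free b).toSub ((𝓐.A.free c').relSub (rowsF 𝓐 C2)) u,
    (𝓐.A.free b).toSub_at _ ((𝓐.A.free c').relSub_open (rowsF 𝓐 C2)) hu ?_, ?_⟩
  · filter_upwards [hu', h.near] with y y1 y2
    exact (y2.mem_relSub _).2 y1
  · filter_upwards [hu', h.near] with y y1 y2
    have h1 := (y2.mem_relSub (u y)).2 y1
    rw [y2.φ_eq (u y) h1]
    congr 1
    exact Subtype.ext ((𝓐.A.free b).coe_toSub _ u h1).symm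

theorem HGood.cohAt {x : V} (h : HGood 𝓐 C1 C2 x) : (HM 𝓐 C1 C2).CohAt x := by
  have h1 : (HM1 𝓐 C2).CohAt x := by
    have hat : ∀ i, (𝓐.A.free c').At (rowsF 𝓐 C2 i) x := fun i =>
      ⟨h.dom, fun j => h.at2 i j x rfl⟩
    obtain ⟨m, ρ, hρ, hrel⟩ := ((𝓐.oka c').cohAt h.dom).relFG (rowsF 𝓐 C2) hat
    refine (𝓐.A.free b).sub_cohAt _ _ ((𝓐.oka b).cohAt h.dom) (fun j y i => ρ j i y)
      (fun j => ⟨h.dom, fun i => hρ j i⟩) ?_
    filter_upwards [hrel, (𝓐.A.free c').relSub_near (rowsF 𝓐 C2) h.dom hat] with y y1 y2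
    rw [y2, y1]
    rfl
  exact (HM1 𝓐 C2).quot_cohAt _ _ (𝓐.relAt h.dom) h1 (HMr 𝓐 C1 C2) h.at_HMr
    ((HM1 𝓐 C2).spn_near _ h.at_HMr)

theorem HGood.coh {K : Set V} (h : ∀ x ∈ K, HGood 𝓐 C1 C2 x) : (HM 𝓐 C1 C2).Coh K :=
  fun x hx => (h x hx).near.mono fun _ hy => hy.cohAt

omit [FiniteDimensional ℂ V] in
theorem HGood.tf {x : V} (h : HGood 𝓐 C1 C2 x)
    (htf : ∀ (u : Fin b → 𝓐.A.St x) (t : Fin a → 𝓐.A.St x), 𝓐.hb x • u = t ᵥ* fm 𝓐 C1 x →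
      ∃ t', t' ᵥ* fm 𝓐 C1 x = u) (m : (HM 𝓐 C1 C2).St x) (hm : 𝓐.hb x • m = 0) : m = 0 := by
  obtain ⟨u, hu, rfl⟩ := h.φ_surj m
  rw [← h.φ_smul _ u hu, h.φ_ker _ (by rw [Matrix.smul_vecMul, hu, smul_zero])] at hm
  obtain ⟨t, ht⟩ := hm
  exact (h.φ_ker u hu).2 (htf u t ht.symm)

end HM

end Pool.Agent.DQ
end

section

/-!
# DQ, modules H9 and L: the double dual near a closed box; a `d`-reflexive module is of type `H`
-/

set_option autoImplicit false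

open Set Filter Topology Matrix MulOpposite

universe u v w w'

namespace Pool.Agent.DQ

section alg

variable {R : Type v} {S : Type u} [Ring R] [CommRing S] {h : R} {π : R →+* S}
variable {d : ℕ} {n : ℕ → ℕ} {B : ∀ k, Matrix (Fin (n (k + 1))) (Fin (n k)) R}
  {g : ℕ → ℕ} {C : ∀ k, Matrix (Fin (g k)) (Fin (g (k + 1))) R}
  {W1 : Matrix (Fin (n (d + 1))) (Fin (g 1)) R}

/-- the cohomology at the place `d` of the row complex `C` has no `h`-torsion if the complex is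
exact modulo `h` at the places `< d` -/
theorem HRed.rows_tf (H : HRed h π) (hE : IsResExt d n B g C W1)
    (hex : ∀ j < d, ColEx (cT π C) j) (u : Fin (g (d + 1)) → R) (t : Fin (g d) → R)
    (ht : h • u = t ᵥ* C d) : ∃ t', t' ᵥ* C d = u := by
  rcases Nat.eq_zero_or_pos d with rfl | hd
  · refine ⟨0, ?_⟩
    have e : t = 0 := by
      have : IsEmpty (Fin (g 0)) := by rw [hE.zero]; infer_instance
      exact Subsingleton.elim _ _
    rw [e, Matrix.zero_vecMul] at ht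
    rw [Matrix.zero_vecMul, H.smul_inj u ht]
  · obtain ⟨j, rfl⟩ : ∃ j, d = j + 1 := ⟨d - 1, by omega⟩
    obtain ⟨s, hs⟩ := (colEx_cT_iff j).1 (hex j (by omega)) (fun i => π (t i)) (by
      rw [← map_vecMul, ← ht]
      exact (H.vec_ker_iff _).2 ⟨u, rfl⟩)
    obtain ⟨s, rfl⟩ := H.lift_vec s
    rw [← map_vecMul] at hs
    obtain ⟨t', ht'⟩ := H.vec_ker (t - s ᵥ* C j) (by rw [map_sub_fun, hs, sub_self])
    refine ⟨t', ?_⟩
    have e : h • u = h • (t' ᵥ* C (j + 1)) := by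
      rw [ht, ← H.smul_vecMul, ← ht', Matrix.sub_vecMul, Matrix.vecMul_vecMul, hE.mul_eq_zero,
        Matrix.vecMul_zero, sub_zero]
    rw [← sub_eq_zero, ← smul_sub] at e
    exact (sub_eq_zero.1 (H.smul_inj _ e)).symm

end alg

variable {V : Type u} [NormedAddCommGroup V] [NormedSpace ℂ V] [FiniteDimensional ℂ V]
  {𝓐 : Defo.{u, v} V}

/-- the data `B`, `G`, `C`, `W` near a closed set -/
structure BiF (𝓐 : Defo.{u, v} V) (d : ℕ) (M : EMod.{u, v, w} 𝓐.A) (K : Set V) (n : ℕ → ℕ)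
    (B : ∀ k, Fin (n (k + 1)) → Fin (n k) → (x : V) → 𝓐.A.St x)
    (G : Fin (n 1) → (x : V) → M.St x) (g : ℕ → ℕ)
    (C : ∀ k, Fin (g k) → Fin (g (k + 1)) → (x : V) → 𝓐.A.St x)
    (W : ∀ j k, j + k = d + 2 → (Fin (n j) → Fin (g k) → (x : V) → 𝓐.A.St x)) : Prop where
  atB : ∀ k, MAt 𝓐 (B k) K
  atG : ∀ i, M.On (G i) K
  atC : ∀ k, MAt 𝓐 (C k) K
  atW : ∀ j k h, MAt 𝓐 (W j k h) K
  dat : ∀ x ∈ K, BiDat d n (fB 𝓐 B x) (fe 𝓐 G x) g (fC 𝓐 C x) fun j k h => fm 𝓐 (W j k h) x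

section

variable {m : ℕ} {κ : V ≃L[ℂ] (Fin m → ℂ)} {c : Fin m → ℂ} {r R : Fin m → ℝ}

theorem exists_biF (hrR : GoodRadii r R) {d : ℕ} {M : EMod.{u, v, w} 𝓐.A}
    (hcoh : M.Coh (cbox κ c r R)) (htf : TF 𝓐 M (cbox κ c r R))
    (hex : ∀ x ∈ cbox κ c r R, ∀ (n : ℕ → ℕ)
      (B : ∀ k, Matrix (Fin (n (k + 1))) (Fin (n k)) (𝓐.A.St x))
      (ε : (Fin (n 1) → 𝓐.A.St x) →ₗ[𝓐.A.St x] M.St x), IsRes n B ε → ∀ j < d, ColEx B j) :
    ∃ n B G g C W, BiF 𝓐 d M (cbox κ c r R) n B G g C W := by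
  have hK : cbox κ c r R ⊆ 𝓐.A.dom := fun x hx => M.dom_sub (hcoh.cohAt hx).1
  obtain ⟨n, B, G, hB, hG, hres⟩ := exists_isRes_box 𝓐 hrR M hcoh htf
  obtain ⟨g, C, W1, hC, hW1, hext⟩ := exists_isResExt_box 𝓐 hrR hK d n B hB
  obtain ⟨W, hW, hWW1, hWr⟩ := exists_W_box 𝓐 hrR hK hB hC hW1 hext fun x hx =>
    hex x hx n _ _ (hres x hx)
  refine ⟨n, B, G, g, C, W, hB, hG, hC, hW, fun x hx => ⟨hres x hx, ?_, hWr x hx⟩⟩
  rw [hWW1]
  exact hext x hx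

end

namespace BiF

variable {d : ℕ} {M : EMod.{u, v, w} 𝓐.A} {K : Set V} {n : ℕ → ℕ}
  {B : ∀ k, Fin (n (k + 1)) → Fin (n k) → (x : V) → 𝓐.A.St x}
  {G : Fin (n 1) → (x : V) → M.St x} {g : ℕ → ℕ}
  {C : ∀ k, Fin (g k) → Fin (g (k + 1)) → (x : V) → 𝓐.A.St x}
  {W : ∀ j k, j + k = d + 2 → (Fin (n j) → Fin (g k) → (x : V) → 𝓐.A.St x)}
  (D : BiF 𝓐 d M K n B G g C W)

include D

omit [FiniteDimensional ℂ V] in
theorem mono {K' : Set V} (h : K' ⊆ K) : BiF 𝓐 d M K' n B G g C W :=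
  ⟨fun k i j x hx => D.atB k i j x (h hx), fun i x hx => D.atG i x (h hx),
    fun k i j x hx => D.atC k i j x (h hx), fun a b e i j x hx => D.atW a b e i j x (h hx),
    fun x hx => D.dat x (h hx)⟩

omit [FiniteDimensional ℂ V] in
theorem good (hK : K ⊆ 𝓐.A.dom) {x : V} (hx : x ∈ K) : HGood 𝓐 (C d) (C (d + 1)) x where
  dom := hK hx
  at1 := fun i j y hy => D.atC d i j y (by rw [mem_singleton_iff.1 hy]; exact hx)
  at2 := fun i j y hy => D.atC (d + 1) i j y (by rw [mem_singleton_iff.1 hy]; exact hx)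
  comp := (D.dat x hx).rext.mul_eq_zero d

/-- the sheaf `Ext^d(Ext^d(M, A), A)` near `K` -/
noncomputable def N (_ : BiF 𝓐 d M K n B G g C W) : EMod.{u, v, v} 𝓐.A := HM 𝓐 (C d) (C (d + 1))

/-- the bidual map -/
noncomputable def β (_ : BiF 𝓐 d M K n B G g C W) (x : V) (m : M.St x) :
    (HM 𝓐 (C d) (C (d + 1))).St x :=
  HMφ 𝓐 (C d) (C (d + 1)) x
    ((Classical.epsilon fun v => fe 𝓐 G x v = m) ᵥ* fm 𝓐 (W 1 (d + 1) (by omega)) x)

/-- conditions for the bidual map to be given by `fe v ↦ φ (v W)` -/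
structure Nice (_ : BiF 𝓐 d M K n B G g C W) (x : V) : Prop where
  good : HGood 𝓐 (C d) (C (d + 1)) x
  surj : Function.Surjective (fe 𝓐 G x)
  ker : ∀ v, fe 𝓐 G x v = 0 → ∃ u, u ᵥ* fm 𝓐 (B 1) x = v
  cyc : fm 𝓐 (W 1 (d + 1) (by omega)) x * fm 𝓐 (C (d + 1)) x = 0
  rel : fm 𝓐 (B 1) x * fm 𝓐 (W 1 (d + 1) (by omega)) x =
    fm 𝓐 (W 2 d (by omega)) x * fm 𝓐 (C d) x

omit [FiniteDimensional ℂ V] in
theorem nice (hK : K ⊆ 𝓐.A.dom) {x : V} (hx : x ∈ K) : D.Nice x where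
  good := D.good hK hx
  surj := (D.dat x hx).res.surj
  ker v hv := ((D.dat x hx).res.ker v).1 hv
  cyc := by
    have h := (D.dat x hx).rel 0 (d + 1) (by omega)
    rw [mul_eq_zero_of_mid (D.dat x hx).res.zero] at h
    exact h
  rel := ((D.dat x hx).rel 1 d (by omega)).symm

omit D [FiniteDimensional ℂ V] in
theorem at_singleton {a b : ℕ} {X : Fin a → Fin b → (x : V) → 𝓐.A.St x} (hX : MAt 𝓐 X K) {x : V}
    (hx : x ∈ K) : MAt 𝓐 X {x} := fun i j y hy => hX i j y (by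
  rw [mem_singleton_iff.1 hy]
  exact hx)

theorem nice_near (hK : K ⊆ 𝓐.A.dom) {x : V} (hx : x ∈ K) (hM : M.CohAt x) :
    ∀ᶠ y in 𝓝 x, D.Nice y := by
  have h0 := D.nice hK hx
  have hG : ∀ i, M.At (G i) x := fun i => D.atG i x hx
  have hgen : Submodule.span (𝓐.A.St x) (range fun i => G i x) = ⊤ := by
    rw [eq_top_iff]
    intro m _
    obtain ⟨v, hv⟩ := h0.surj m
    exact mem_span_fam.2 ⟨v, hv.symm⟩
  filter_upwards [(D.good hK hx).near, gen_nearL 𝓐 hM hG hgen,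
    rel_nearL hM hG (at_singleton (D.atB 1) hx) h0.ker,
    fm_mul_near_zero (hK hx) (at_singleton (D.atW 1 (d + 1) (by omega)) hx)
      (at_singleton (D.atC (d + 1)) hx) h0.cyc,
    fm_mul_near (hK hx) (at_singleton (D.atB 1) hx)
      (at_singleton (D.atW 1 (d + 1) (by omega)) hx)
      (at_singleton (D.atW 2 d (by omega)) hx) (at_singleton (D.atC d) hx) h0.rel]
    with y y1 y2 y3 y4 y5
  refine ⟨y1, fun m => ?_, y3, y4, y5⟩
  have : m ∈ Submodule.span (𝓐.A.St y) (range fun i => G i y) := by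
    rw [y2]
    exact Submodule.mem_top
  obtain ⟨v, hv⟩ := mem_span_fam.1 this
  exact ⟨v, hv.symm⟩

end BiF

section

variable {d : ℕ} {M : EMod.{u, v, w} 𝓐.A} {K : Set V} {n : ℕ → ℕ}
  {B : ∀ k, Fin (n (k + 1)) → Fin (n k) → (x : V) → 𝓐.A.St x}
  {G : Fin (n 1) → (x : V) → M.St x} {g : ℕ → ℕ}
  {C : ∀ k, Fin (g k) → Fin (g (k + 1)) → (x : V) → 𝓐.A.St x}
  {W : ∀ j k, j + k = d + 2 → (Fin (n j) → Fin (g k) → (x : V) → 𝓐.A.St x)}
  {D : BiF 𝓐 d M K n B G g C W} {x : V}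

omit [FiniteDimensional ℂ V] in
theorem BiF.Nice.cyc' (h : D.Nice x) (v : Fin (n 1) → 𝓐.A.St x) :
    (v ᵥ* fm 𝓐 (W 1 (d + 1) (by omega)) x) ᵥ* fm 𝓐 (C (d + 1)) x = 0 := by
  rw [Matrix.vecMul_vecMul, h.cyc, Matrix.vecMul_zero]

omit [FiniteDimensional ℂ V] in
theorem BiF.Nice.φ_sub (h : D.Nice x) (u u' : Fin (g (d + 1)) → 𝓐.A.St x)
    (hu : u ᵥ* fm 𝓐 (C (d + 1)) x = 0) (hu' : u' ᵥ* fm 𝓐 (C (d + 1)) x = 0)
    (e : ∃ t, t ᵥ* fm 𝓐 (C d) x = u - u') :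
    HMφ 𝓐 (C d) (C (d + 1)) x u = HMφ 𝓐 (C d) (C (d + 1)) x u' := by
  have h1 : (u - u') ᵥ* fm 𝓐 (C (d + 1)) x = 0 := by rw [Matrix.sub_vecMul, hu, hu', sub_zero]
  have h2 := (h.good.φ_ker _ h1).2 e
  have h3 := h.good.φ_add (u - u') u' h1 hu'
  rw [sub_add_cancel, h2, zero_add] at h3
  exact h3

omit [FiniteDimensional ℂ V] in
theorem BiF.Nice.β_fe (h : D.Nice x) (v : Fin (n 1) → 𝓐.A.St x) :
    D.β x (fe 𝓐 G x v) =
      HMφ 𝓐 (C d) (C (d + 1)) x (v ᵥ* fm 𝓐 (W 1 (d + 1) (by omega)) x) := by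
  have hv' := Classical.epsilon_spec (p := fun v' => fe 𝓐 G x v' = fe 𝓐 G x v) ⟨v, rfl⟩
  refine h.φ_sub _ _ (h.cyc' _) (h.cyc' _) ?_
  obtain ⟨u, hu⟩ := h.ker ((Classical.epsilon fun v' => fe 𝓐 G x v' = fe 𝓐 G x v) - v) (by
    rw [map_sub, hv', sub_self])
  refine ⟨u ᵥ* fm 𝓐 (W 2 d (by omega)) x, ?_⟩
  rw [Matrix.vecMul_vecMul, ← h.rel, ← Matrix.vecMul_vecMul, hu, Matrix.sub_vecMul]

theorem BiF.Nice.β_add (h : D.Nice x) (m m' : M.St x) : D.β x (m + m') = D.β x m + D.β x m' := by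
  obtain ⟨v, rfl⟩ := h.surj m
  obtain ⟨v', rfl⟩ := h.surj m'
  rw [← map_add, h.β_fe, h.β_fe, h.β_fe, Matrix.add_vecMul,
    h.good.φ_add _ _ (h.cyc' _) (h.cyc' _)]

theorem BiF.Nice.β_smul (h : D.Nice x) (a : 𝓐.A.St x) (m : M.St x) :
    D.β x (a • m) = a • D.β x m := by
  obtain ⟨v, rfl⟩ := h.surj m
  rw [← map_smul, h.β_fe, h.β_fe, Matrix.smul_vecMul, h.good.φ_smul _ _ (h.cyc' _)]

theorem BiF.β_at (D : BiF 𝓐 d M K n B G g C W) (hK : K ⊆ 𝓐.A.dom) (hx : x ∈ K) (hM : M.CohAt x)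
    (s : (x : V) → M.St x) (hs : M.At s x) :
    (HM 𝓐 (C d) (C (d + 1))).At (fun y => D.β y (s y)) x := by
  have h0 := D.nice hK hx
  have hxd := hK hx
  have hgen : Submodule.span (𝓐.A.St x) (range fun i => G i x) = ⊤ := by
    rw [eq_top_iff]
    intro m _
    obtain ⟨v, hv⟩ := h0.surj m
    exact mem_span_fam.2 ⟨v, hv.symm⟩
  obtain ⟨a, ha, hsa⟩ := M.near_comb hM.1 hs (fun i => D.atG i x hx)
    (by rw [hgen]; exact Submodule.mem_top)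
  have h1 := (D.good hK hx).φ_at (fun y => (fun i => a i y) ᵥ* fm 𝓐 (W 1 (d + 1) (by omega)) y)
    ⟨hxd, fun j => vecMul_at hxd (at_singleton (D.atW 1 (d + 1) (by omega)) hx) ha j⟩ (by
    filter_upwards [D.nice_near hK hx hM] with y hy
    exact hy.cyc' _)
  refine (HM 𝓐 (C d) (C (d + 1))).congr h1 ?_
  filter_upwards [D.nice_near hK hx hM, hsa] with y y1 y2
  have e : s y = fe 𝓐 G y (fun i => a i y) := y2
  rw [e, y1.β_fe]

end

theorem cbox_nonempty {V : Type u} [NormedAddCommGroup V] [NormedSpace ℂ V] {n : ℕ}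
    (κ : V ≃L[ℂ] (Fin n → ℂ)) (c : Fin n → ℂ) {r R : Fin n → ℝ} (hrR : GoodRadii r R) :
    (cbox κ c r R).Nonempty := by
  refine ⟨κ.symm fun i => c i + (R i : ℂ), fun i => ?_⟩
  obtain ⟨-, h1, h2⟩ := hrR i
  rw [ContinuousLinearEquiv.apply_symm_apply]
  simp only [cring, mem_ofPred_eq, add_sub_cancel_left, Complex.norm_real, Real.norm_eq_abs,
    abs_of_pos h2]
  exact ⟨h1.le, le_rfl⟩

/-- the double dual near a closed box (form of helper90) -/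
theorem exists_biData {d : ℕ} {M : EMod.{u, v, w} 𝓐.A} {n : ℕ} (κ : V ≃L[ℂ] (Fin n → ℂ))
    (c : Fin n → ℂ) (r R : Fin n → ℝ) (hrR : GoodRadii r R) (hcoh : M.Coh (cbox κ c r R))
    (htf : TF 𝓐 M (cbox κ c r R))
    (hext : ∀ x ∈ cbox κ c r R, ∀ j < d, ExtZero (𝓐.A.St x) (M.St x) j) :
    ∃ (N : EMod.{u, v, v} 𝓐.A) (β : ∀ x, M.St x → N.St x) (g : ℕ → ℕ)
      (C : ∀ k, Fin (g k) → Fin (g (k + 1)) → (x : V) → 𝓐.A.St x)
      (φ : ∀ x, (Fin (g (d + 1)) → 𝓐.A.St x) → N.St x),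
      HType 𝓐 d N (cbox κ c r R) g C φ ∧ N.Coh (cbox κ c r R) ∧ TF 𝓐 N (cbox κ c r R) ∧
      ∀ x ∈ cbox κ c r R, (∀ m m', β x (m + m') = β x m + β x m') ∧
        (∀ (a : 𝓐.A.St x) m, β x (a • m) = a • β x m) ∧
        (∀ s, M.At s x → N.At (fun y => β y (s y)) x) ∧
        (BidualBij (𝓐.A.St x) (M.St x) d → Function.Bijective (β x)) := by
  have hK : cbox κ c r R ⊆ 𝓐.A.dom := fun x hx => M.dom_sub (hcoh.cohAt hx).1
  obtain ⟨n', B, G, g, C, W, D⟩ := exists_biF (d := d) hrR hcoh htf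
    (fun x hx n' B ε hres j hj => hext x hx j hj n' B ε hres)
  -- stalkwise facts
  have hstalk : ∀ x (hx : x ∈ cbox κ c r R),
      (∀ j < d, ColEx (cT (𝓐.redHom (hK hx)) (fC 𝓐 C x)) j) ∧
      ∀ j < d, ∀ u, u ᵥ* fC 𝓐 C x (j + 1) = 0 → ∃ t, t ᵥ* fC 𝓐 C x j = u := by
    intro x hx
    have h1 := 𝓐.isNoetherian (hK hx)
    have h2 := 𝓐.isNoetherian_op (hK hx)
    have h3 := O_isNoetherianRingL x
    have h4 := (hcoh.cohAt hx).finite
    have H := 𝓐.hRed (hK hx)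
    have D' := D.dat x hx
    have htf' := tf_ext H (O_gradeAnn x) (O_pureExt x) D'.res (htf x hx) (hext x hx)
    exact ⟨H.colEx_cT (O_gradeAnn x) D'.res.mul_eq_zero (H.rowRes D'.res (htf x hx)) D'.rext htf',
      dual_rows_exact H (O_gradeAnn x) (O_pureExt x) D'.res (htf x hx) (hext x hx) D'.rext⟩
  refine ⟨HM 𝓐 (C d) (C (d + 1)), D.β, g, C, HMφ 𝓐 (C d) (C (d + 1)), ?_, ?_, ?_, ?_⟩
  · exact
    { sub := hK
      zero := by
        obtain ⟨x, hx⟩ := cbox_nonempty κ c hrR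
        exact (D.dat x hx).rext.zero
      at_C := fun k i j x hx => D.atC k i j x hx
      comp := fun k x hx => (D.dat x hx).rext.mul_eq_zero k
      exact := fun k hk x hx u hu => (hstalk x hx).2 k hk u hu
      φ_add := fun x hx u u' hu hu' => (D.good hK hx).φ_add u u' hu hu'
      φ_smul := fun x hx a u hu => (D.good hK hx).φ_smul a u hu
      φ_surj := fun x hx m => (D.good hK hx).φ_surj m
      φ_ker := fun x hx u hu => (D.good hK hx).φ_ker u hu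
      φ_at := fun u x hx hu hu' => (D.good hK hx).φ_at u hu hu' }
  · exact HGood.coh fun x hx => D.good hK hx
  · intro x hx m hm
    refine (D.good hK hx).tf (fun u t ht => ?_) m hm
    exact (𝓐.hRed (hK hx)).rows_tf (D.dat x hx).rext (hstalk x hx).1 u t ht
  · intro x hx
    have hn := D.nice hK hx
    have D' := D.dat x hx
    refine ⟨hn.β_add, hn.β_smul, D.β_at hK hx (hcoh.cohAt hx), fun hbi => ?_⟩
    have hp := hbi.hdPres D'.res (fun j k h => fm 𝓐 (W j k h) x) D'.rext D'.rel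
    constructor
    · intro m m' hmm
      obtain ⟨v, rfl⟩ := hn.surj m
      obtain ⟨v', rfl⟩ := hn.surj m'
      rw [← sub_eq_zero, ← map_sub]
      have h1 : D.β x (fe 𝓐 G x (v - v')) = 0 := by
        have h2 := hn.β_add (fe 𝓐 G x (v - v')) (fe 𝓐 G x v')
        rw [← map_add, sub_add_cancel, hmm] at h2
        exact left_eq_add.1 (h2.trans (add_comm _ _)) |>.symm ▸ rfl
      rw [hn.β_fe, hn.good.φ_ker _ (hn.cyc' _)] at h1
      obtain ⟨t, ht⟩ := h1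
      exact (hp.ker _).2 ⟨t, ht.symm⟩
    · intro m
      obtain ⟨u, hu, rfl⟩ := hn.good.φ_surj m
      obtain ⟨v, t, hvt⟩ := hp.onto u hu
      refine ⟨fe 𝓐 G x v, ?_⟩
      rw [hn.β_fe]
      refine hn.φ_sub _ _ (hn.cyc' _) hu ⟨-t, ?_⟩
      rw [Matrix.neg_vecMul]
      have : u = v ᵥ* fm 𝓐 (W 1 (d + 1) (by omega)) x + t ᵥ* fm 𝓐 (C d) x := hvt.symm
      rw [this]
      abel


/-! ### A `d`-reflexive module is of type `H` near a closed box -/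

section htype

variable {d : ℕ} {M : EMod.{u, v, w} 𝓐.A} {K : Set V} {n : ℕ → ℕ}
  {B : ∀ k, Fin (n (k + 1)) → Fin (n k) → (x : V) → 𝓐.A.St x}
  {G : Fin (n 1) → (x : V) → M.St x} {g : ℕ → ℕ}
  {C : ∀ k, Fin (g k) → Fin (g (k + 1)) → (x : V) → 𝓐.A.St x}
  {W : ∀ j k, j + k = d + 2 → (Fin (n j) → Fin (g k) → (x : V) → 𝓐.A.St x)}

/-- the map `v W + t C ↦ fe v` -/
noncomputable def BiF.φM (_ : BiF 𝓐 d M K n B G g C W) (x : V) (u : Fin (g (d + 1)) → 𝓐.A.St x) :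
    M.St x :=
  fe 𝓐 G x (Classical.epsilon fun v => ∃ t, v ᵥ* fm 𝓐 (W 1 (d + 1) (by omega)) x +
    t ᵥ* fm 𝓐 (C d) x = u)

/-- injectivity of the bidual map at `x` -/
def BiF.Inj (_ : BiF 𝓐 d M K n B G g C W) (x : V) : Prop :=
  ∀ v, (∃ t, v ᵥ* fm 𝓐 (W 1 (d + 1) (by omega)) x = t ᵥ* fm 𝓐 (C d) x) → fe 𝓐 G x v = 0

variable {D : BiF 𝓐 d M K n B G g C W} {x : V}

omit [FiniteDimensional ℂ V] in
theorem BiF.Inj.φM_eq (h : D.Inj x) (v : Fin (n 1) → 𝓐.A.St x) (t : Fin (g d) → 𝓐.A.St x) :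
    D.φM x (v ᵥ* fm 𝓐 (W 1 (d + 1) (by omega)) x + t ᵥ* fm 𝓐 (C d) x) = fe 𝓐 G x v := by
  obtain ⟨t', ht'⟩ := Classical.epsilon_spec (p := fun v' => ∃ t', v' ᵥ* fm 𝓐 (W 1 (d + 1)
    (by omega)) x + t' ᵥ* fm 𝓐 (C d) x = v ᵥ* fm 𝓐 (W 1 (d + 1) (by omega)) x +
      t ᵥ* fm 𝓐 (C d) x) ⟨v, t, rfl⟩
  rw [← sub_eq_zero]
  unfold BiF.φM
  rw [← map_sub]
  refine h _ ⟨t - t', ?_⟩
  rw [Matrix.sub_vecMul, Matrix.sub_vecMul, sub_eq_sub_iff_add_eq_add, ht']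
  exact add_comm _ _

theorem BiF.htype (D : BiF 𝓐 d M K n B G g C W) (hKne : K.Nonempty) (hM : M.Coh K)
    (hp : ∀ x ∈ K, HdPres d g (fC 𝓐 C x) (fe 𝓐 G x) (fm 𝓐 (W 1 (d + 1) (by omega)) x))
    (hex : ∀ x ∈ K, ∀ j < d, ∀ u, u ᵥ* fC 𝓐 C x (j + 1) = 0 → ∃ t, t ᵥ* fC 𝓐 C x j = u) :
    HType 𝓐 d M K g C D.φM := by
  have hK : K ⊆ 𝓐.A.dom := fun x hx => M.dom_sub (hM.cohAt hx).1
  have hinj : ∀ x ∈ K, D.Inj x := fun x hx v hv => ((hp x hx).ker v).2 hv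
  have honto : ∀ x ∈ K, ∀ u, u ᵥ* fm 𝓐 (C (d + 1)) x = 0 → ∃ v t,
      v ᵥ* fm 𝓐 (W 1 (d + 1) (by omega)) x + t ᵥ* fm 𝓐 (C d) x = u := fun x hx => (hp x hx).onto
  exact
    { sub := fun x hx => (hM.cohAt hx).1
      zero := by
        obtain ⟨x, hx⟩ := hKne
        exact (D.dat x hx).rext.zero
      at_C := fun k i j x hx => D.atC k i j x hx
      comp := fun k x hx => (D.dat x hx).rext.mul_eq_zero k
      exact := fun k hk x hx u hu => hex x hx k hk u hu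
      φ_add := fun x hx u u' hu hu' => by
        obtain ⟨v, t, rfl⟩ := honto x hx u hu
        obtain ⟨v', t', rfl⟩ := honto x hx u' hu'
        rw [(hinj x hx).φM_eq, (hinj x hx).φM_eq, ← map_add, ← (hinj x hx).φM_eq (v + v') (t + t')]
        congr 1
        rw [Matrix.add_vecMul, Matrix.add_vecMul]
        abel
      φ_smul := fun x hx a u hu => by
        obtain ⟨v, t, rfl⟩ := honto x hx u hu
        rw [(hinj x hx).φM_eq, ← map_smul, ← (hinj x hx).φM_eq (a • v) (a • t)]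
        congr 1
        rw [Matrix.smul_vecMul, Matrix.smul_vecMul, smul_add]
      φ_surj := fun x hx m => by
        obtain ⟨v, rfl⟩ := (D.nice hK hx).surj m
        refine ⟨v ᵥ* fm 𝓐 (W 1 (d + 1) (by omega)) x, (D.nice hK hx).cyc' v, ?_⟩
        have := (hinj x hx).φM_eq v 0
        rwa [Matrix.zero_vecMul, add_zero] at this
      φ_ker := fun x hx u hu => by
        obtain ⟨v, t, rfl⟩ := honto x hx u hu
        rw [(hinj x hx).φM_eq]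
        constructor
        · intro hv
          obtain ⟨z, rfl⟩ := (D.nice hK hx).ker v hv
          refine ⟨z ᵥ* fm 𝓐 (W 2 d (by omega)) x + t, ?_⟩
          change _ ᵥ* fm 𝓐 (C d) x = _
          rw [Matrix.add_vecMul, Matrix.vecMul_vecMul, ← (D.nice hK hx).rel,
            Matrix.vecMul_vecMul]
        · rintro ⟨t', ht'⟩
          refine hinj x hx v ⟨t' - t, ?_⟩
          change t' ᵥ* fm 𝓐 (C d) x = _ at ht'
          rw [Matrix.sub_vecMul, ht', add_sub_cancel_right]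
      φ_at := fun u x hx hu hu' => by
        have hxd := hK hx
        obtain ⟨v₀, t₀, h0⟩ := honto x hx (u x) hu'.self_of_nhds
        choose v hv hv0 using fun i => 𝓐.A.surj x hxd (v₀ i)
        choose t ht ht0 using fun i => 𝓐.A.surj x hxd (t₀ i)
        have e1 : ∀ᶠ y in 𝓝 x, u y = (fun i => v i y) ᵥ* fm 𝓐 (W 1 (d + 1) (by omega)) y +
            (fun i => t i y) ᵥ* fm 𝓐 (C d) y := by
          refine (𝓐.A.free (g (d + 1))).inj (t := fun y =>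
            (fun i => v i y) ᵥ* fm 𝓐 (W 1 (d + 1) (by omega)) y +
            (fun i => t i y) ᵥ* fm 𝓐 (C d) y) hu ⟨hxd, fun j => 𝓐.A.add
              (vecMul_at hxd (at_singleton (D.atW 1 (d + 1) (by omega)) hx) hv j)
              (vecMul_at hxd (at_singleton (D.atC d) hx) ht j)⟩ ?_
          have e2 : (fun i => v i x) = v₀ := funext hv0
          have e3 : (fun i => t i x) = t₀ := funext ht0
          change u x = (fun i => v i x) ᵥ* fm 𝓐 (W 1 (d + 1) _) x +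
            (fun i => t i x) ᵥ* fm 𝓐 (C d) x
          rw [e2, e3, h0]
        refine M.congr (M.comb (hM.cohAt hx).1 hv (fun i => D.atG i x hx)) ?_
        filter_upwards [e1, pull_near (hM.cohAt hx).1 (fun i => D.atG i x hx)
          (at_singleton (D.atW 1 (d + 1) (by omega)) hx) (at_singleton (D.atC d) hx)
          (hinj x hx)] with y y1 y2
        have y3 : D.Inj y := y2
        rw [y1, y3.φM_eq]
        rfl }

end htype

/-- a `d`-reflexive module is of type `H` near a closed box -/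
theorem DRefl.htype' {d : ℕ} {M : EMod.{u, v, w} 𝓐.A} {n : ℕ} (κ : V ≃L[ℂ] (Fin n → ℂ))
    (c : Fin n → ℂ) (r R : Fin n → ℝ) (hrR : GoodRadii r R) (h : DRefl 𝓐 d M (cbox κ c r R)) :
    ∃ g C φ, HType 𝓐 d M (cbox κ c r R) g C φ := by
  have hK : cbox κ c r R ⊆ 𝓐.A.dom := fun x hx => M.dom_sub (h.coh.cohAt hx).1
  obtain ⟨n', B, G, g, C, W, D⟩ := exists_biF (d := d) hrR h.coh h.tf
    (fun x hx n' B ε hres j hj => h.ext x hx j hj n' B ε hres)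
  refine ⟨g, C, D.φM, D.htype (cbox_nonempty κ c hrR) h.coh (fun x hx => ?_) fun x hx => ?_⟩
  · have D' := D.dat x hx
    exact (h.bid x hx).hdPres D'.res (fun j k h => fm 𝓐 (W j k h) x) D'.rext D'.rel
  · have h1 := 𝓐.isNoetherian (hK hx)
    have h2 := 𝓐.isNoetherian_op (hK hx)
    have h3 := O_isNoetherianRingL x
    have D' := D.dat x hx
    exact dual_rows_exact (𝓐.hRed (hK hx)) (O_gradeAnn x) (O_pureExt x) D'.res (h.tf x hx)
      (h.ext x hx) D'.rext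

end Pool.Agent.DQ
end

section

/-! # DQ: the theorems of module H -/

set_option autoImplicit false

open Set Filter Topology Matrix

universe u v w

namespace Pool.Agent.DQ

variable {V : Type u} [NormedAddCommGroup V] [NormedSpace ℂ V] [FiniteDimensional ℂ V]
  {𝓐 : Defo.{u, v} V}

/-- a `d`-reflexive module is of the type above near every closed polydisc (or product of discs
and annuli) -/
theorem DRefl.htype {d : ℕ} {M : EMod.{u, v, w} 𝓐.A} {n : ℕ} (κ : V ≃L[ℂ] (Fin n → ℂ))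
    (c : Fin n → ℂ) (r R : Fin n → ℝ) (hrR : GoodRadii r R) (h : DRefl 𝓐 d M (cbox κ c r R)) :
    ∃ g C φ, HType 𝓐 d M (cbox κ c r R) g C φ := DRefl.htype' κ c r R hrR h

theorem hartogs_exists {d : ℕ} {M : EMod.{u, v, w} 𝓐.A} {n : ℕ} {κ : V ≃L[ℂ] (Fin n → ℂ)}
    {c : Fin n → ℂ} {R : Fin n → ℝ} {S : Finset (Fin n)} {r : Fin n → ℝ} {c' : Fin n → ℂ}
    {R' : Fin n → ℝ} (hfig' : HFig c R S r c' R') (hS : S.card = d + 1)
    {g : ℕ → ℕ} {C : ∀ k, Fin (g k) → Fin (g (k + 1)) → (x : V) → 𝓐.A.St x}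
    {φ : ∀ x, (Fin (g (d + 1)) → 𝓐.A.St x) → M.St x}
    (h : HType 𝓐 d M (cbox κ c (-1) R) g C φ) (hcoh : M.Coh (cbox κ c (-1) R))
    (htf : TF 𝓐 M (cbox κ c (-1) R)) (s : (x : V) → M.St x)
    (hs : M.On s (hfig κ c R S r c' R')) :
    ∃ t, M.On t (box κ c (-1) R) ∧ ∀ x ∈ hfig κ c R S r c' R', t x = s x :=
  H.hartogs_exists hfig' hS h hcoh htf s hs

theorem hartogs_unique {d : ℕ} {M : EMod.{u, v, w} 𝓐.A} {n : ℕ} {κ : V ≃L[ℂ] (Fin n → ℂ)}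
    {c : Fin n → ℂ} {R : Fin n → ℝ} {S : Finset (Fin n)} {r : Fin n → ℝ}
    (hR : ∀ i, 0 < R i) (hr : ∀ i ∈ S, 0 < r i ∧ r i < R i) (hS : S.card = d + 1)
    {g : ℕ → ℕ} {C : ∀ k, Fin (g k) → Fin (g (k + 1)) → (x : V) → 𝓐.A.St x}
    {φ : ∀ x, (Fin (g (d + 1)) → 𝓐.A.St x) → M.St x}
    (h : HType 𝓐 d M (cbox κ c (-1) R) g C φ) (hcoh : M.Coh (cbox κ c (-1) R))
    (htf : TF 𝓐 M (cbox κ c (-1) R)) (t : (x : V) → M.St x)
    (ht : M.On t (box κ c (-1) R)) (h0 : ∀ x ∈ shell κ c R S r, t x = 0) :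
    ∀ x ∈ box κ c (-1) R, t x = 0 :=
  H.hartogs_unique hR hr hS h hcoh htf t ht h0

end Pool.Agent.DQ
end

section

/-! M7, abstract part: extension from a shell. -/

set_option autoImplicit false
set_option linter.unusedSectionVars false

open Set Filter Topology

universe u v w w'

namespace Pool.Agent.DQ

section props

variable {V : Type u} [NormedAddCommGroup V] [NormedSpace ℂ V] [FiniteDimensional ℂ V]
  {𝓐 : Defo.{u, v} V}

theorem HType.mono {d : ℕ} {M : EMod.{u, v, w} 𝓐.A} {K K' : Set V} {g : ℕ → ℕ}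
    {C : ∀ k, Fin (g k) → Fin (g (k + 1)) → (x : V) → 𝓐.A.St x}
    {φ : ∀ x, (Fin (g (d + 1)) → 𝓐.A.St x) → M.St x} (h : HType 𝓐 d M K g C φ) (hK : K' ⊆ K) :
    HType 𝓐 d M K' g C φ where
  sub := hK.trans h.sub
  zero := h.zero
  at_C := fun k i j x hx => h.at_C k i j x (hK hx)
  comp := fun k x hx => h.comp k x (hK hx)
  exact := fun k hk x hx => h.exact k hk x (hK hx)
  φ_add := fun x hx => h.φ_add x (hK hx)
  φ_smul := fun x hx => h.φ_smul x (hK hx)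
  φ_surj := fun x hx => h.φ_surj x (hK hx)
  φ_ker := fun x hx => h.φ_ker x (hK hx)
  φ_at := fun u x hx => h.φ_at u x (hK hx)

theorem DRefl.mono {d : ℕ} {M : EMod.{u, v, w} 𝓐.A} {K K' : Set V} (h : DRefl 𝓐 d M K)
    (hK : K' ⊆ K) : DRefl 𝓐 d M K' where
  coh := fun x hx => h.coh x (hK hx)
  tf := fun x hx => h.tf x (hK hx)
  ext := fun x hx => h.ext x (hK hx)
  bid := fun x hx => h.bid x (hK hx)

/-- modules of Hartogs type near all closed boxes have the Hartogs property -/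
theorem hartogs_of_local {M : EMod.{u, v, w} 𝓐.A} {d n : ℕ} {Ω : Set V}
    (hcoh : M.Coh Ω) (htf : TF 𝓐 M Ω)
    (h : ∀ (κ : V ≃L[ℂ] (Fin n → ℂ)) (c : Fin n → ℂ) (R : Fin n → ℝ), (∀ i, 0 < R i) →
      cbox κ c (fun _ => -1) R ⊆ Ω →
      ∃ g C φ, HType 𝓐 d M (cbox κ c (fun _ => -1) R) g C φ) :
    HartogsProp (fun (s : (x : V) → M.St x) x => M.At s x) d n Ω where
  ev := fun s x hs => M.ev hs
  congr := fun s t x hs h => M.congr hs h
  inj := fun s t x _ hs ht e => M.inj hs ht e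
  exist := by
    intro κ c R S r c' R' hfg hS hsub s hs
    obtain ⟨g, C, φ, ht⟩ := h κ c R hfg.R_pos hsub
    exact hartogs_exists hfg hS ht (fun x hx => hcoh x (hsub hx)) (fun x hx => htf x (hsub hx)) s hs
  unique := by
    intro κ c R S r hR hr hS hsub s t hs ht he x hx
    obtain ⟨g, C, φ, hty⟩ := h κ c R hR hsub
    have h1 := hartogs_unique hR hr hS hty (fun x hx => hcoh x (hsub hx))
      (fun x hx => htf x (hsub hx)) (s - t) (fun y hy => M.sub' (hs y hy) (ht y hy))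
      (fun y hy => by rw [Pi.sub_apply, he y hy, sub_self]) x hx
    exact sub_eq_zero.1 h1

theorem DRefl.hartogs {M : EMod.{u, v, w} 𝓐.A} {d n : ℕ} {Ω : Set V} (h : DRefl 𝓐 d M Ω) :
    HartogsProp (fun (s : (x : V) → M.St x) x => M.At s x) d n Ω :=
  hartogs_of_local h.coh h.tf fun κ c R hR hsub =>
    DRefl.htype κ c (fun _ => -1) R (HFig.good hR) (h.mono hsub)

theorem HType.hartogs {M : EMod.{u, v, w} 𝓐.A} {d n : ℕ} {K Ω : Set V} {g : ℕ → ℕ}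
    {C : ∀ k, Fin (g k) → Fin (g (k + 1)) → (x : V) → 𝓐.A.St x}
    {φ : ∀ x, (Fin (g (d + 1)) → 𝓐.A.St x) → M.St x} (h : HType 𝓐 d M K g C φ)
    (hcoh : M.Coh K) (htf : TF 𝓐 M K) (hΩ : Ω ⊆ K) :
    HartogsProp (fun (s : (x : V) → M.St x) x => M.At s x) d n Ω :=
  hartogs_of_local (fun x hx => hcoh x (hΩ hx)) (fun x hx => htf x (hΩ hx))
    fun _ _ _ _ hsub => ⟨g, C, φ, h.mono (hsub.trans hΩ)⟩

end props

/-- restriction of the domain of a module to an open set -/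
def EMod.restr {X : Type u} [TopologicalSpace X] {R : ERing.{u, v} X} (M : EMod.{u, v, w} R)
    (U : Set X) (hU : IsOpen U) : EMod.{u, v, w} R where
  dom := M.dom ∩ U
  dom_sub := fun _ hx => M.dom_sub hx.1
  St := M.St
  At := fun s x => M.At s x ∧ x ∈ U
  mem_dom := fun h => ⟨M.mem_dom h.1, h.2⟩
  ev := fun h => (M.ev h.1).and (hU.mem_nhds h.2)
  congr := fun h h' => ⟨M.congr h.1 h', h.2⟩
  inj := fun h h' e => M.inj h.1 h'.1 e
  surj := fun x hx g => by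
    obtain ⟨s, hs, e⟩ := M.surj x hx.1 g
    exact ⟨s, ⟨hs, hx.2⟩, e⟩
  zero := fun x hx => ⟨M.zero x hx.1, hx.2⟩
  add := fun h h' => ⟨M.add h.1 h'.1, h.2⟩
  smul := fun h h' => ⟨M.smul h h'.1, h'.2⟩

theorem EMod.restr_cohAt {X : Type u} [TopologicalSpace X] {R : ERing.{u, v} X}
    (M : EMod.{u, v, w} R) (U : Set X) (hU : IsOpen U) {x : X} (hx : x ∈ U) (h : M.CohAt x) :
    (M.restr U hU).CohAt x := by
  refine ⟨⟨h.1, hx⟩, ?_, ?_⟩
  · obtain ⟨n, g, hg, hgen⟩ := h.2.1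
    exact ⟨n, g, fun i => ⟨hg i, hx⟩, hgen⟩
  · intro n g hg
    obtain ⟨m, r, hr, hrel⟩ := h.2.2 n g fun i => (hg i).1
    exact ⟨m, r, hr, hrel⟩

section core

variable {V : Type} [NormedAddCommGroup V] [NormedSpace ℂ V] [FiniteDimensional ℂ V]
  {𝓐 : Defo.{0, v} V}

/-- the geometric part of `sweep`: slabs through every point off `Y` -/
def SlabLemma (V : Type) [NormedAddCommGroup V] [NormedSpace ℂ V] (d n : ℕ) : Prop :=
  ∀ (κ : V ≃L[ℂ] (Fin n → ℂ)) (c : Fin n → ℂ) (R : Fin n → ℝ) (S : Finset (Fin n))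
    (r : Fin n → ℝ), (∀ i, 0 < R i) → (∀ i ∈ S, 0 < r i ∧ r i < R i) → S.card = d + 2 →
    ∀ (Y : Set V), IsOpen (box κ c (fun _ => -1) R \ Y) → (∀ x ∈ shell κ c R S r, x ∉ Y) →
    (∀ t : Fin n → ℂ,
      {x | x ∈ Y ∧ x ∈ box κ c (fun _ => -1) R ∧ ∀ i ∉ S, κ x i = t i}.Finite) →
    ∀ x₁ ∈ box κ c (fun _ => -1) R \ Y, ∃ (κ' : V ≃L[ℂ] (Fin n → ℂ)) (c' : Fin n → ℂ)
      (R' : Fin n → ℝ) (S' : Finset (Fin n)) (r' : Fin n → ℝ), (∀ i, 0 < R' i) ∧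
      (∀ i ∈ S', 0 < r' i ∧ r' i < R' i) ∧ S'.card = d + 1 ∧
      cbox κ' c' (fun _ => -1) R' ⊆ box κ c (fun _ => -1) R \ Y ∧
      x₁ ∈ box κ' c' (fun _ => -1) R' ∧ shell κ' c' R' S' r' ⊆ shell κ c R S r

/-- the abstract end of the argument -/
theorem localOut_of_shell {d n : ℕ} {Y : Set V} {M : EMod.{0, v, w} 𝓐.A}
    (hslab : SlabLemma V d n)
    {κ : V ≃L[ℂ] (Fin n → ℂ)} {c : Fin n → ℂ} {R : Fin n → ℝ} {S : Finset (Fin n)}
    {r : Fin n → ℝ} (hR : ∀ i, 0 < R i) (hr : ∀ i ∈ S, 0 < r i ∧ r i < R i) (hS : S.card = d + 2)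
    (hsub : cbox κ c (fun _ => -1) R ⊆ 𝓐.A.dom) (hYan : AnalyticNear Y 𝓐.A.dom)
    (hdom : M.dom = 𝓐.A.dom \ Y) (hM : DRefl 𝓐 d M M.dom)
    (hYs : ∀ x ∈ shell κ c R S r, x ∉ Y) {N : EMod.{0, v, v} 𝓐.A}
    {g : ℕ → ℕ} {C : ∀ k, Fin (g k) → Fin (g (k + 1)) → (x : V) → 𝓐.A.St x}
    {φ : ∀ x, (Fin (g (d + 1)) → 𝓐.A.St x) → N.St x}
    (hN : HType 𝓐 d N (cbox κ c (fun _ => -1) R) g C φ)
    (hNc : N.Coh (cbox κ c (fun _ => -1) R)) (hNt : TF 𝓐 N (cbox κ c (fun _ => -1) R))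
    (f : ∀ x, N.St x → M.St x) (f' : ∀ x, M.St x → N.St x)
    (hf : ∀ x ∈ shell κ c R S r, HomAt N M f x) (hf' : ∀ x ∈ shell κ c R S r, HomAt M N f' x)
    (hff' : ∀ x ∈ shell κ c R S r, ∀ m, f x (f' x m) = m)
    (hf'f : ∀ x ∈ shell κ c R S r, ∀ m, f' x (f x m) = m) (y₀ : V)
    (hy₀ : y₀ ∈ box κ c (fun _ => -1) R) : ∃ U N φ, LocalOut 𝓐 d Y y₀ M U N φ := by
  classical
  set B := box κ c (fun _ => -1) R with hB
  have hBo : IsOpen B := isOpen_box _ _ _ _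
  have hBc : B ⊆ cbox κ c (fun _ => -1) R := box_subset_cbox _ _ _ _
  have hBA : B ⊆ 𝓐.A.dom := hBc.trans hsub
  have hMo : IsOpen (𝓐.A.dom \ Y) := hdom ▸ M.isOpen_dom
  have hYB : IsOpen (B \ Y) := by
    have : B \ Y = B ∩ (𝓐.A.dom \ Y) := by
      ext x
      exact ⟨fun h => ⟨h.1, hBA h.1, h.2⟩, fun h => ⟨h.1, h.2.2⟩⟩
    rw [this]
    exact hBo.inter hMo
  have hshB : shell κ c R S r ⊆ B := fun x hx => hx.1
  have hfin : ∀ t : Fin n → ℂ, {x | x ∈ Y ∧ x ∈ B ∧ ∀ i ∉ S, κ x i = t i}.Finite := fun t =>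
    fib_finite κ c R S r (fun i hi => (hr i hi).2) hMo hBA hYan hYs t
  have hBY : B \ Y ⊆ M.dom := fun x hx => hdom ▸ ⟨hBA hx.1, hx.2⟩
  have hBN : B ⊆ N.dom := fun x hx => (hNc.cohAt (hBc hx)).1
  have hMB : DRefl 𝓐 d M (B \ Y) := hM.mono hBY
  have hMh : HartogsProp (fun (s : (x : V) → M.St x) x => M.At s x) d n (B \ Y) := hMB.hartogs
  have hNh : HartogsProp (fun (s : (x : V) → N.St x) x => N.At s x) d n (B \ Y) :=
    hN.hartogs hNc hNt (sdiff_subset.trans hBc)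
  have hNBc : N.Coh (B \ Y) := fun x hx => hNc x (hBc hx.1)
  have hNBt : TF 𝓐 N (B \ Y) := fun x hx => hNt x (hBc hx.1)
  have hNM : HartogsProp (fun (f : (x : V) → N.St x → M.St x) x => HomAt N M f x) d n (B \ Y) :=
    hartogs_hom hNBc hNBt hBY hMh
  have hMN : HartogsProp (fun (f : (x : V) → M.St x → N.St x) x => HomAt M N f x) d n (B \ Y) :=
    hartogs_hom hMB.coh hMB.tf (sdiff_subset.trans hBN) hNh
  have hMM : HartogsProp (fun (f : (x : V) → M.St x → M.St x) x => HomAt M M f x) d n (B \ Y) :=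
    hartogs_hom hMB.coh hMB.tf hBY hMh
  have hNN : HartogsProp (fun (f : (x : V) → N.St x → N.St x) x => HomAt N N f x) d n (B \ Y) :=
    hartogs_hom hNBc hNBt (sdiff_subset.trans hBN) hNh
  obtain ⟨F, hF, hFf⟩ := (sweep κ c R S r hR hr hS Y hYB hYs hfin hNM).1 f hf
  obtain ⟨F', hF', hFf'⟩ := (sweep κ c R S r hR hr hS Y hYB hYs hfin hMN).1 f' hf'
  have hFF' : ∀ x ∈ B \ Y, (fun m => F x (F' x m)) = fun m => m := by
    refine (sweep κ c R S r hR hr hS Y hYB hYs hfin hMM).2 (fun x m => F x (F' x m))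
      (fun x m => m) ?_ ?_ ?_
    · intro x hx
      refine ⟨hBY hx, hBY hx, ?_⟩
      filter_upwards [(hF x hx).ev, (hF' x hx).ev] with y h1 h2
      exact ⟨fun m m' => by rw [h2.map_add, h1.map_add], fun a m => by rw [h2.map_smul, h1.map_smul],
        fun s hs => h1.at (h2.at hs)⟩
    · intro x hx
      exact ⟨hBY hx, hBY hx, Eventually.of_forall fun y => ⟨fun _ _ => rfl, fun _ _ => rfl,
        fun _ hs => hs⟩⟩
    · intro x hx
      funext m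
      rw [hFf x hx, hFf' x hx, hff' x hx]
  have hF'F : ∀ x ∈ B \ Y, (fun m => F' x (F x m)) = fun m => m := by
    refine (sweep κ c R S r hR hr hS Y hYB hYs hfin hNN).2 (fun x m => F' x (F x m))
      (fun x m => m) ?_ ?_ ?_
    · intro x hx
      refine ⟨hBN hx.1, hBN hx.1, ?_⟩
      filter_upwards [(hF x hx).ev, (hF' x hx).ev] with y h1 h2
      exact ⟨fun m m' => by rw [h1.map_add, h2.map_add], fun a m => by rw [h1.map_smul, h2.map_smul],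
        fun s hs => h2.at (h1.at hs)⟩
    · intro x hx
      exact ⟨hBN hx.1, hBN hx.1, Eventually.of_forall fun y => ⟨fun _ _ => rfl, fun _ _ => rfl,
        fun _ hs => hs⟩⟩
    · intro x hx
      funext m
      rw [hFf x hx, hFf' x hx, hf'f x hx]
  -- small boxes
  have hsmall : ∀ x₀ ∈ B, ∀ Z ∈ 𝓝 x₀, ∃ R' r' : Fin n → ℝ, (∀ i, 0 < R' i) ∧
      (∀ i, 0 < r' i ∧ r' i < R' i) ∧ cbox κ (κ x₀) (fun _ => -1) R' ⊆ Z ∩ B ∧
      ∀ x ∈ cbox κ (κ x₀) (fun _ => -1) R', (∃ i ∈ S, r' i ≤ ‖κ x i - κ x₀ i‖) → x ∉ Y :=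
    fun x₀ hx₀ Z hZ => exists_small_box κ S hBo hYB hfin hx₀ hZ
  -- sweep on small boxes
  have hopen : ∀ (x₀ : V) (R' : Fin n → ℝ), cbox κ (κ x₀) (fun _ => -1) R' ⊆ B →
      IsOpen (box κ (κ x₀) (fun _ => -1) R' \ Y) := by
    intro x₀ R' h
    have : box κ (κ x₀) (fun _ => -1) R' \ Y = box κ (κ x₀) (fun _ => -1) R' ∩ (B \ Y) := by
      ext x
      exact ⟨fun h' => ⟨h'.1, h (box_subset_cbox _ _ _ _ h'.1), h'.2⟩, fun h' => ⟨h'.1, h'.2.2⟩⟩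
    rw [this]
    exact (isOpen_box _ _ _ _).inter hYB
  have hfin' : ∀ (x₀ : V) (R' : Fin n → ℝ), cbox κ (κ x₀) (fun _ => -1) R' ⊆ B →
      ∀ t : Fin n → ℂ, {x | x ∈ Y ∧ x ∈ box κ (κ x₀) (fun _ => -1) R' ∧
        ∀ i ∉ S, κ x i = t i}.Finite := by
    intro x₀ R' h t
    exact (hfin t).subset fun x hx => ⟨hx.1, h (box_subset_cbox _ _ _ _ hx.2.1), hx.2.2⟩
  have hsweepY : ∀ (x₀ : V) (R' r' : Fin n → ℝ), (∀ i, 0 < R' i) →
      (∀ i, 0 < r' i ∧ r' i < R' i) → cbox κ (κ x₀) (fun _ => -1) R' ⊆ B →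
      (∀ x ∈ shell κ (κ x₀) R' S r', x ∉ Y) → ∀ s t : (x : V) → N.St x,
      N.On s (box κ (κ x₀) (fun _ => -1) R' \ Y) → N.On t (box κ (κ x₀) (fun _ => -1) R' \ Y) →
      (∀ x ∈ shell κ (κ x₀) R' S r', s x = t x) →
      ∀ x ∈ box κ (κ x₀) (fun _ => -1) R' \ Y, s x = t x := by
    intro x₀ R' r' hR' hr' hsub' hsh s t hs ht he
    have hp : HartogsProp (fun (s : (x : V) → N.St x) x => N.At s x) d n
        (box κ (κ x₀) (fun _ => -1) R' \ Y) :=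
      hN.hartogs hNc hNt fun x hx => hBc (hsub' (box_subset_cbox _ _ _ _ hx.1))
    exact (sweep κ (κ x₀) R' S r' hR' (fun i _ => hr' i) hS Y (hopen x₀ R' hsub') hsh
      (hfin' x₀ R' hsub') hp).2 s t hs ht he
  have hsweep0 : ∀ (x₀ : V) (R' r' : Fin n → ℝ), (∀ i, 0 < R' i) →
      (∀ i, 0 < r' i ∧ r' i < R' i) → cbox κ (κ x₀) (fun _ => -1) R' ⊆ B →
      (∀ s : (x : V) → N.St x, N.On s (shell κ (κ x₀) R' S r') →
        ∃ t, N.On t (box κ (κ x₀) (fun _ => -1) R') ∧ ∀ x ∈ shell κ (κ x₀) R' S r', t x = s x) ∧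
      ∀ s t : (x : V) → N.St x,
      N.On s (box κ (κ x₀) (fun _ => -1) R') → N.On t (box κ (κ x₀) (fun _ => -1) R') →
      (∀ x ∈ shell κ (κ x₀) R' S r', s x = t x) →
      ∀ x ∈ box κ (κ x₀) (fun _ => -1) R', s x = t x := by
    intro x₀ R' r' hR' hr' hsub'
    have hp : HartogsProp (fun (s : (x : V) → N.St x) x => N.At s x) d n
        (box κ (κ x₀) (fun _ => -1) R' \ ∅) :=
      hN.hartogs hNc hNt fun x hx => hBc (hsub' (box_subset_cbox _ _ _ _ hx.1))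
    have h0 := sweep κ (κ x₀) R' S r' hR' (fun i _ => hr' i) hS ∅
      (by rw [sdiff_empty]; exact isOpen_box _ _ _ _) (fun x _ h => h)
      (fun t => (finite_empty).subset fun x hx => hx.1) hp
    rw [sdiff_empty] at h0
    exact h0
  -- uniqueness of sections through Y
  have huniq : ∀ Z ⊆ B, IsOpen Z → ∀ t t' : (x : V) → N.St x, N.On t Z → N.On t' Z →
      (∀ x ∈ Z \ Y, t x = t' x) → ∀ x ∈ Z, t x = t' x := by
    intro Z hZB hZ t t' ht ht' he x hx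
    obtain ⟨R', r', hR', hr', hsub', hsh⟩ := hsmall x (hZB hx) Z (hZ.mem_nhds hx)
    have hsubZ : box κ (κ x) (fun _ => -1) R' ⊆ Z := fun y hy =>
      (hsub' (box_subset_cbox _ _ _ _ hy)).1
    refine (hsweep0 x R' r' hR' hr' fun y hy => (hsub' hy).2).2 t t' (fun y hy => ht y (hsubZ hy))
      (fun y hy => ht' y (hsubZ hy)) ?_ x (center_mem_box κ x (fun _ => by norm_num) hR')
    intro y hy
    have hyc := box_subset_cbox _ _ _ _ hy.1
    obtain ⟨i, hi, hyi⟩ := hy.2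
    exact he y ⟨(hsub' hyc).1, hsh y hyc ⟨i, hi, hyi.le⟩⟩
  -- the output
  refine ⟨B, N.restr B hBo, F, ?_⟩
  refine
    { isOpen := hBo
      mem := hy₀
      sub := hBA
      dom := inter_eq_right.2 hBN
      coh := ?_
      tf := fun x hx m hm => hNt x (hBc hx) m hm
      lin := ?_
      at_map := ?_
      ext := ?_
      inj := ?_
      sh := ?_ }
  · intro x hx
    filter_upwards [hNc x (hBc hx), hBo.mem_nhds hx] with y h1 h2
    exact N.restr_cohAt B hBo h2 h1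
  · intro x hx
    refine ⟨(hF x hx).map_add, (hF x hx).map_smul, ?_, ?_⟩
    · intro m m' e
      have h1 := congrFun (hF'F x hx) m
      have h2 := congrFun (hF'F x hx) m'
      rw [← h1, ← h2, e]
    · intro m
      exact ⟨F' x m, congrFun (hFF' x hx) m⟩
  · intro s x hx hs
    exact (hF x hx).at hs.1
  · intro Z hZB hZ s hs
    -- local extensions
    have hZs : ∀ x ∈ Z \ Y, N.At (fun y => F' y (s y)) x := fun x hx =>
      (hF' x ⟨hZB hx.1, hx.2⟩).at (hs x hx)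
    have hloc : ∀ x ∈ Z, ∃ (R' : Fin n → ℝ) (t : (x : V) → N.St x), (∀ i, 0 < R' i) ∧
        box κ (κ x) (fun _ => -1) R' ⊆ Z ∧ N.On t (box κ (κ x) (fun _ => -1) R') ∧
        ∀ y ∈ box κ (κ x) (fun _ => -1) R' \ Y, t y = F' y (s y) := by
      intro x hx
      obtain ⟨R', r', hR', hr', hsub', hsh⟩ := hsmall x (hZB hx) Z (hZ.mem_nhds hx)
      have hsubZ : box κ (κ x) (fun _ => -1) R' ⊆ Z := fun y hy =>
        (hsub' (box_subset_cbox _ _ _ _ hy)).1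
      have hsubB : cbox κ (κ x) (fun _ => -1) R' ⊆ B := fun y hy => (hsub' hy).2
      have hshY : ∀ y ∈ shell κ (κ x) R' S r', y ∉ Y := by
        intro y hy
        obtain ⟨i, hi, hyi⟩ := hy.2
        exact hsh y (box_subset_cbox _ _ _ _ hy.1) ⟨i, hi, hyi.le⟩
      obtain ⟨t, ht, hts⟩ := (hsweep0 x R' r' hR' hr' hsubB).1 (fun y => F' y (s y))
        fun y hy => hZs y ⟨hsubZ hy.1, hshY y hy⟩
      refine ⟨R', t, hR', hsubZ, ht, ?_⟩
      exact hsweepY x R' r' hR' hr' hsubB hshY t (fun y => F' y (s y))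
        (fun y hy => ht y hy.1) (fun y hy => hZs y ⟨hsubZ hy.1, hy.2⟩) hts
    choose! R' t hR' hsubZ ht hts using hloc
    let T : (x : V) → N.St x := fun x => if x ∈ Y then t x x else F' x (s x)
    have hT : ∀ x ∈ Z, ∀ y ∈ box κ (κ x) (fun _ => -1) (R' x), T y = t x y := by
      intro x hx y hy
      simp only [T]
      split_ifs with hyY
      · have hyZ := hsubZ x hx hy
        refine huniq (box κ (κ x) (fun _ => -1) (R' x) ∩ box κ (κ y) (fun _ => -1) (R' y))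
          (fun z hz => hZB (hsubZ x hx hz.1)) ((isOpen_box _ _ _ _).inter (isOpen_box _ _ _ _))
          (t y) (t x) (fun z hz => ht y hyZ z hz.2) (fun z hz => ht x hx z hz.1) ?_ y
          ⟨hy, center_mem_box κ y (fun _ => by norm_num) (hR' y hyZ)⟩
        intro z hz
        rw [hts y hyZ z ⟨hz.1.2, hz.2⟩, hts x hx z ⟨hz.1.1, hz.2⟩]
      · exact (hts x hx y ⟨hy, hyY⟩).symm
    refine ⟨T, fun x hx => ⟨?_, hZB hx⟩, ?_⟩
    · have hxb : x ∈ box κ (κ x) (fun _ => -1) (R' x) :=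
        center_mem_box κ x (fun _ => by norm_num) (hR' x hx)
      refine N.congr (ht x hx x hxb) ?_
      filter_upwards [(isOpen_box κ (κ x) (fun _ => -1) (R' x)).mem_nhds hxb] with y hy
      exact (hT x hx y hy).symm
    · intro x hx
      simp only [T, if_neg hx.2]
      exact congrFun (hFF' x ⟨hZB hx.1, hx.2⟩) (s x)
  · intro Z hZB hZ t ht h0 x hx
    exact huniq Z hZB hZ t (fun _ => 0) (fun y hy => (ht y hy).1)
      (fun y hy => N.zero y (hBN (hZB hy))) h0 x hx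
  · intro x₀ hx₀ Z hZ
    obtain ⟨R', r', hR', hr', hsub', hsh⟩ := hsmall x₀ hx₀ Z hZ
    have hsubB : cbox κ (κ x₀) (fun _ => -1) R' ⊆ B := fun y hy => (hsub' hy).2
    have hshY : ∀ y ∈ shell κ (κ x₀) R' S r', y ∉ Y := by
      intro y hy
      obtain ⟨i, hi, hyi⟩ := hy.2
      exact hsh y (box_subset_cbox _ _ _ _ hy.1) ⟨i, hi, hyi.le⟩
    have hnorm : ∀ i, Continuous fun x : V => ‖κ x i - κ x₀ i‖ := fun i =>
      (((continuous_apply i).comp κ.continuous).sub continuous_const).norm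
    refine ⟨box κ (κ x₀) (fun _ => -1) R', shell κ (κ x₀) R' S r',
      cbox κ (κ x₀) (fun _ => -1) R' ∩ ⋃ i ∈ {i | i ∈ S}, {x | r' i ≤ ‖κ x i - κ x₀ i‖},
      isOpen_box _ _ _ _, center_mem_box κ x₀ (fun _ => by norm_num) hR',
      fun y hy => hsub' (box_subset_cbox _ _ _ _ hy), ?_, fun y hy => ⟨hy.1, hshY y hy⟩, ?_, ?_,
      ?_, ?_, ?_⟩
    · have : shell κ (κ x₀) R' S r' = box κ (κ x₀) (fun _ => -1) R' ∩
          ⋃ i ∈ {i | i ∈ S}, {x | r' i < ‖κ x i - κ x₀ i‖} := by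
        ext x
        constructor
        · rintro ⟨h1, i, hi, h2⟩
          exact ⟨h1, mem_iUnion₂.2 ⟨i, hi, h2⟩⟩
        · rintro ⟨h1, h2⟩
          obtain ⟨i, hi, h2⟩ := mem_iUnion₂.1 h2
          exact ⟨h1, i, hi, h2⟩
      rw [this]
      exact (isOpen_box _ _ _ _).inter
        (isOpen_biUnion fun i _ => isOpen_lt continuous_const (hnorm i))
    · exact (isCompact_cbox _ _ _ _).inter_right
        ((Set.toFinite _).isClosed_biUnion fun i _ => isClosed_le continuous_const (hnorm i))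
    · rintro y ⟨h1, i, hi, h2⟩
      exact ⟨box_subset_cbox _ _ _ _ h1, mem_iUnion₂.2 ⟨i, hi, h2.le⟩⟩
    · rintro y ⟨h1, h2⟩
      obtain ⟨i, hi, h2⟩ := mem_iUnion₂.1 h2
      exact ⟨hsub' h1, hsh y h1 ⟨i, hi, h2⟩⟩
    · intro s hs
      obtain ⟨t, ht, hts⟩ := (hsweep0 x₀ R' r' hR' hr' hsubB).1 (fun y => F' y (s y))
        fun y hy => (hF' y ⟨hsubB (box_subset_cbox _ _ _ _ hy.1), hshY y hy⟩).at (hs y hy)
      refine ⟨t, fun y hy => ⟨ht y hy, hsubB (box_subset_cbox _ _ _ _ hy)⟩, fun y hy => ?_⟩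
      rw [hts y hy]
      exact congrFun (hFF' y ⟨hsubB (box_subset_cbox _ _ _ _ hy.1), hshY y hy⟩) (s y)
    · intro x₁ hx₁
      obtain ⟨κ', c', R'', S', r'', h1, h2, h3, h4, h5, h6⟩ := hslab κ (κ x₀) R' S r' hR'
        (fun i _ => hr' i) hS Y (hopen x₀ R' hsubB) hshY (hfin' x₀ R' hsubB) x₁ hx₁
      exact ⟨n, κ', c', R'', S', r'', h1, h2, h3, h4, h5, h6⟩

end core

end Pool.Agent.DQ
end
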