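import Pool.Agent.Lib.MP_4aa2a9_ag.Mg.G025
import Pool.Agent.Lib.MP_4aa2a9_ag.DQ.MF5a
import Pool.Agent.Lib.MP_4aa2a9_ag.Mg.G030
import Pool.Agent.Lib.MP_4aa2a9_ag.Mg.G033
import Pool.Agent.Lib.MP_4aa2a9_ag.Mg.G034
import Pool.Agent.Lib.MP_4aa2a9_ag.Mg.G028
import Pool.Agent.Lib.MP_4aa2a9_ag.Mg.G037
import Pool.Agent.Lib.MP_4aa2a9_ag.Mg.G041
import Pool.Agent.Lib.MP_4aa2a9_ag.Mg.G017

section

/-! Campaign DQ, module M12, block (f), file MF5b: gluing the solutions of the one variable step. -/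

set_option autoImplicit false
set_option linter.unusedVariables false

open Set Filter Topology

namespace Pool.Agent.DQ

namespace MF

variable {X Z : Type} [NormedAddCommGroup X] [NormedSpace ℂ X] [FiniteDimensional ℂ X]
  [NormedAddCommGroup Z] [NormedSpace ℂ Z] [FiniteDimensional ℂ Z] {ι : Type} [Fintype ι] {s : ℕ}

private theorem m5b_sub {V : Type} [NormedAddCommGroup V] [NormedSpace ℂ V] {f g : V → ℂ} {x : V}
    (hf : HolAt f x) (hg : HolAt g x) : om (fun y => f y - g y) x = om f x - om g x := by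
  have h1 : om (fun y => f y + -g y) x = om f x + om (fun y => -g y) x := om_add hf hg.neg
  have h2 : om (fun y => -g y) x = -om g x := gm_neg hg
  rw [sub_eq_add_neg, ← h2, ← h1]
  simp only [sub_eq_add_neg]

/-- **The solutions of the one variable step form a section.**

Proof. Let `c = u₁ b`, `a` functions with `gv a b = u₁ b` (`exists_gv`). Claim: for every `x` in the fibre over `b`, for `y` near `x`:
`u y - pv e rfl (gv a (e y).1) ∈ rowSp A y` (`A = stepRows e ρ N₀`). Indeed `SecMod A u x` gives functions `b'` with `u y - gv b' y ∈ rowSp A y` near `x`; the germ at `x` of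
`b' - a ∘ e.1` is in the row space (`gv b' x - u x` and `u x - pv e _ (u₁ b)`, the latter by `hu₁.self_of_nhds`; `pv_gv`), hence near `x` (`gv_mem_near`,
`stepRows_matAt`). By `fib_tube` (`isCompact_closedBall`), for `t` near `b` and all `x` in the fibre over `t`: `u x - pv e hx.1 (gv a t) ∈ rowSp A x`. Subtract `hu₁`:
`pv e hx.1 (u₁ t - gv a t) ∈ rowSp A x` (`pv_sub`); `step_inj` at `t` (`Good1.eventually`) gives `u₁ t - gv a t ∈ rowSp ρ t`. -/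
theorem secMod_glue (e : Z ≃L[ℂ] X × ℂ) {ρ : ι → Fin s → X → ℂ} {N₀ : Fin s → Fin s → X → ℂ}
    {c₀ : ℂ} {R₀ : ℝ} {b : X} (hG : Good1 ρ N₀ c₀ R₀ b) (u : (x : Z) → Fin s → (O Z).St x)
    (hu : ∀ x ∈ fib e (Metric.closedBall c₀ R₀) b, SecMod (stepRows e ρ N₀) u x)
    (u₁ : (t : X) → Fin s → (O X).St t)
    (hu₁ : ∀ᶠ t in 𝓝 b, ∀ x (hx : x ∈ fib e (Metric.closedBall c₀ R₀) t),
      u x - pv e hx.1 (u₁ t) ∈ rowSp (stepRows e ρ N₀) x) : SecMod ρ u₁ b := by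
  obtain ⟨a, ha, hab⟩ := exists_gv (u₁ b)
  have hpv : ∀ (x : Z) (t : X) (h : (e x).1 = t),
      pv e h (gv a t) = pv e rfl (gv a (e x).1) := by
    rintro x t rfl
    rfl
  have hclaim : ∀ᶠ t in 𝓝 b, ∀ x ∈ fib e (Metric.closedBall c₀ R₀) t,
      u x - pv e rfl (gv a (e x).1) ∈ rowSp (stepRows e ρ N₀) x := by
    refine fib_tube e (isCompact_closedBall c₀ R₀) fun x hx => ?_
    obtain ⟨b', hb', hu'⟩ := hu x hx
    have hA : MatAt (stepRows e ρ N₀) x := stepRows_matAt e hx.1 hG.hρ hG.hN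
    have hd : ∀ y, (∀ j, HolAt (b' j) y) → (∀ j, HolAt (a j) (e y).1) →
        gv (fun j z => b' j z - a j (e z).1) y = gv b' y - pv e rfl (gv a (e y).1) := by
      intro y h1 h2
      rw [pv_gv e rfl h2]
      funext j
      exact m5b_sub (h1 j) ((h2 j).comp_fst e rfl)
    have hax : ∀ j, HolAt (a j) (e x).1 := fun j => by rw [hx.1]; exact ha j
    have h1 : gv (fun j z => b' j z - a j (e z).1) x ∈ rowSp (stepRows e ρ N₀) x := by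
      rw [hd x hb' hax]
      have h2 := hu'.self_of_nhds
      have h3 := hu₁.self_of_nhds x hx
      rw [← hab, hpv x b hx.1] at h3
      have h4 := Submodule.sub_mem _ h3 h2
      rwa [sub_sub_sub_cancel_left] at h4
    have h5 := gv_mem_near hA (fun j => (hb' j).sub ((hax j).comp_fst e rfl)) h1
    have h6 : ∀ᶠ y in 𝓝 x, ∀ j, HolAt (b' j) y :=
      eventually_all.mpr fun j => (hb' j).eventually
    have h7 : ∀ᶠ y in 𝓝 x, ∀ j, HolAt (a j) (e y).1 :=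
      (tendsto_fst e rfl).eventually (eventually_all.mpr fun j => (hax j).eventually)
    filter_upwards [hu', h5, h6, h7] with y h8 h9 h10 h11
    rw [hd y h10 h11] at h9
    have h12 := Submodule.add_mem _ h8 h9
    rwa [sub_add_sub_cancel] at h12
  refine ⟨a, ha, ?_⟩
  filter_upwards [hclaim, hu₁, Good1.eventually hG] with t h1 h2 h3
  refine step_inj e h3 _ fun x hx => ?_
  have h4 := h1 x hx
  rw [← hpv x t hx.1] at h4
  have h5 := Submodule.sub_mem _ h4 (h2 x hx)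
  rw [sub_sub_sub_cancel_left] at h5
  rwa [pv_sub]

/-- **All solutions at once.**

Proof. `classical`; `u₁ t := if h : ∃ c, ∀ x (hx : x ∈ fib e (closedBall c₀ R₀) t), u x - pv e hx.1 c ∈ rowSp _ x then h.choose else 0`. For `b ∈ S` and `t` near `b`:
`Good1` holds at `t` (`Good1.eventually`) and `SecMod` holds on the fibre over `t` (`fib_tube`, `SecMod.ev`), so `step_surj` gives the existence. Then
`secMod_glue`. -/
theorem exists_solution (e : Z ≃L[ℂ] X × ℂ) {ρ : ι → Fin s → X → ℂ} {N₀ : Fin s → Fin s → X → ℂ}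
    {c₀ : ℂ} {R₀ : ℝ} (S : Set X) (hG : ∀ b ∈ S, Good1 ρ N₀ c₀ R₀ b)
    (u : (x : Z) → Fin s → (O Z).St x)
    (hu : ∀ b ∈ S, ∀ x ∈ fib e (Metric.closedBall c₀ R₀) b, SecMod (stepRows e ρ N₀) u x) :
    ∃ u₁ : (t : X) → Fin s → (O X).St t, (∀ b ∈ S, SecMod ρ u₁ b) ∧
      ∀ b ∈ S, ∀ x (hx : x ∈ fib e (Metric.closedBall c₀ R₀) b),
        u x - pv e hx.1 (u₁ b) ∈ rowSp (stepRows e ρ N₀) x := by
  classical
  obtain ⟨u₁, hu₁⟩ : ∃ u₁ : (t : X) → Fin s → (O X).St t, ∀ t, Good1 ρ N₀ c₀ R₀ t →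
      (∀ x ∈ fib e (Metric.closedBall c₀ R₀) t, SecMod (stepRows e ρ N₀) u x) →
      ∀ x (hx : x ∈ fib e (Metric.closedBall c₀ R₀) t),
        u x - pv e hx.1 (u₁ t) ∈ rowSp (stepRows e ρ N₀) x := by
    have h1 : ∀ t : X, ∃ c : Fin s → (O X).St t, Good1 ρ N₀ c₀ R₀ t →
        (∀ x ∈ fib e (Metric.closedBall c₀ R₀) t, SecMod (stepRows e ρ N₀) u x) →
        ∀ x (hx : x ∈ fib e (Metric.closedBall c₀ R₀) t),
          u x - pv e hx.1 c ∈ rowSp (stepRows e ρ N₀) x := by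
      intro t
      by_cases h2 : Good1 ρ N₀ c₀ R₀ t ∧
          ∀ x ∈ fib e (Metric.closedBall c₀ R₀) t, SecMod (stepRows e ρ N₀) u x
      · obtain ⟨c, hc⟩ := step_surj e h2.1 u h2.2
        exact ⟨c, fun _ _ => hc⟩
      · exact ⟨0, fun h3 h4 => absurd ⟨h3, h4⟩ h2⟩
    choose u₁ hu₁ using h1
    exact ⟨u₁, hu₁⟩
  refine ⟨u₁, fun b hb => ?_, fun b hb => hu₁ b (hG b hb) (hu b hb)⟩
  refine secMod_glue e (hG b hb) u (hu b hb) u₁ ?_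
  have h2 : ∀ᶠ t in 𝓝 b, ∀ x ∈ fib e (Metric.closedBall c₀ R₀) t,
      SecMod (stepRows e ρ N₀) u x :=
    fib_tube e (isCompact_closedBall c₀ R₀) fun x hx => (hu b hb x hx).ev
  filter_upwards [Good1.eventually (hG b hb), h2] with t h3 h4
  exact hu₁ t h3 h4

end MF

end Pool.Agent.DQ
end

section

/-! M34, assembly. -/

set_option autoImplicit false
set_option linter.unusedSectionVars false

open Set Filter Topology

universe u v w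

namespace Pool.Agent.DQ

variable {V : Type} [NormedAddCommGroup V] [NormedSpace ℂ V] [FiniteDimensional ℂ V] {k d : ℕ}
  {𝓐 : Defo.{0, v} V} {M : EMod.{0, v, w} 𝓐.A} {M₀ : EMod.{0, 0, w} (O V)}
  {ρ : ∀ x, M.St x → M₀.St x} {Y : Set V} {σ : Sit V k d} {T₀ T T' : Set (Fin k → ℂ)}
  {M₀' : EMod.{0, 0, 0} (O V)} {θ : ∀ x, M₀'.St x → M₀.St x} {m₀ : ℕ}

/-- stationarity over a good polydisc -/
theorem stat_of_star (hm : Main 𝓐 M M₀ ρ Y σ T₀) {s : ℕ} {dd : Fin s → (x : V) → M₀.St x}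
    {T₁ : Set (Fin k → ℂ)} (hT₁' : T₁ ⊆ T₀) (hdd : ∀ j, DD34 𝓐 M M₀ ρ σ m₀ T₁ (dd j))
    (hle : ∀ m, hm.Dh hm.mem_T₀ m ≤ hm.Dh hm.mem_T₀ m₀) {P : σ.Pd} (hP : P.Tc ⊆ T₁)
    (hst : hm.Star m₀ dd P) {m : ℕ} {x₁ x₂ y : (x : V) → M.St x} (hp : PK 𝓐 M σ P.T m x₁ x₂ y) :
    ∃ x₁' x₂' y', PK 𝓐 M σ P.T m₀ x₁' x₂' y' ∧
      HZero M₀ σ P.T (fun x => ρ x (y x) - ρ x (y' x)) := by
  have hPT : P.T ⊆ T₁ := P.sub.trans hP
  have hPT₀ : P.T ⊆ T₀ := hPT.trans hT₁'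
  have h1 : DD34 𝓐 M M₀ ρ σ m P.T fun x => ρ x (y x) := hm.dd_of_pk hPT₀ hp
  have h2 : (hm.HG hm.mem_T₀).cl (fun x => ρ x (y x)) ∈ hm.Dh hm.mem_T₀ m₀ :=
    hle m ⟨_, ⟨P.T, P.isOpen, P.mem, hPT₀, h1⟩, rfl⟩
  obtain ⟨a, ha, h3⟩ := hst.comb _ h1.1 h2
  have h4 : DD34 𝓐 M M₀ ρ σ m₀ P.T fun x => ∑ i, om (σ.ft (a i)) x • dd i x :=
    hm.dd_comb P.isOpen hPT₀ (fun i => (hdd i).mono hPT) fun i => σ.ft_near (ha i)
  obtain ⟨-, x₁', x₂', y', hp', h5⟩ := hm.dd_congr P.isOpen h4 h3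
  exact ⟨x₁', x₂', y', hp', h5⟩

/-- generators over a good polydisc -/
theorem gens_of_star (hm : Main 𝓐 M M₀ ρ Y σ T₀) (hext : Ext0 M₀ σ T₀ M₀' θ)
    (K : KD M₀' σ T₀) {P : σ.Pd}
    (hkw : ∀ m y, DD34 𝓐 M M₀ ρ σ m P.T y → HZero M₀ σ P.T fun x => om K.ωw x • y x)
    (hkz : ∀ m y, DD34 𝓐 M M₀ ρ σ m P.T y → HZero M₀ σ P.T fun x => om K.ωz x • y x)
    {n : ℕ} (r : Fin n → (x : V) → M₀'.St x) {T₃ : Set (Fin k → ℂ)} (hT₃ : IsOpen T₃)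
    (hT₃' : T₃ ⊆ K.P₁.T) (hr : ∀ i, JK 𝓐 M M₀ ρ σ M₀' θ (m₀ + 1) T₃ (r i))
    (hgen : ∀ T, IsOpen T → σ.t₀ ∈ T → T ⊆ K.P₁.T → ∀ s', JK 𝓐 M M₀ ρ σ M₀' θ (m₀ + 1) T s' →
      σ.sec (K.S m₀) (K.sx m₀ T s') σ.t₀ ∈ Submodule.span ((O (Fin k → ℂ)).St σ.t₀)
        (range fun i => σ.sec (K.S m₀) (K.sx m₀ T₃ (r i)) σ.t₀))
    (hP : P.Tc ⊆ T₃)
    (hd : DivOn (σ.ps (K.S m₀)) (fun i => σ.sec (K.S m₀) (K.sx m₀ T₃ (r i))) σ.t₀ P.T P.Tc) :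
    ∃ (s : ℕ) (j : Fin s → (x : V) → M₀'.St x),
      (∀ i, M₀'.On (j i) (σ.KC P.Tc)) ∧
      (∀ i, ∃ x₁ x₂ y, PK 𝓐 M σ P.T (m₀ + 1) x₁ x₂ y ∧
        (∀ x ∈ σ.Q1 P.T, ρ x (x₁ x) = θ x (j i x)) ∧
        ∀ x ∈ σ.Q2 P.T, ρ x (x₂ x) = θ x (j i x)) ∧
      (∀ x₁ x₂ y, PK 𝓐 M σ P.T (m₀ + 1) x₁ x₂ y →
        ∃ a : Fin s → V → ℂ, (∀ i, HolNear (a i) (σ.KO P.T)) ∧
          (∀ x ∈ σ.Q1 P.T, ρ x (x₁ x) = ∑ i, om (a i) x • θ x (j i x)) ∧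
          ∀ x ∈ σ.Q2 P.T, ρ x (x₂ x) = ∑ i, om (a i) x • θ x (j i x)) ∧
      ∀ x ∈ σ.KC P.Tc, (K.rw' ≤ ‖σ.w x‖ ∨ K.rz' ≤ ‖σ.z x‖) →
        Submodule.span ((O V).St x) (range fun i => j i x) = ⊤ := by
  have hP₁ : P.Tc ⊆ K.P₁.T := hP.trans hT₃'
  have hP₁c : P.Tc ⊆ K.P₁.Tc := hP₁.trans K.P₁.sub
  have hPc₀ : P.Tc ⊆ T₀ := hP₁c.trans K.P₁_sub
  have hPT₀ : P.T ⊆ T₀ := P.sub.trans hPc₀
  have hPT₃ : P.T ⊆ T₃ := P.sub.trans hP
  have hshell : ∀ x, x ∈ σ.Q1 P.T ∪ σ.Q2 P.T → x ∈ σ.Q1c T₀ ∪ σ.Q2c T₀ := by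
    rintro x (hx | hx)
    · exact Or.inl (σ.Q1_sub_Q1c (σ.Q1_mono hPT₀ hx))
    · exact Or.inr (σ.Q2_sub_Q2c (σ.Q2_mono hPT₀ hx))
  have hLk := K.L_jk hm hext (m₀ := m₀) P hP₁c hkw hkz
  choose j α hj hα hjr using fun i =>
    K.exists_closed hext (m₀ := m₀) hT₃ hT₃' (hr i).1 P hP
  have hjk : ∀ i, JK 𝓐 M M₀ ρ σ M₀' θ (m₀ + 1) P.T (j i) := by
    intro i
    have h1 := ((hr i).mono hPT₃).add hm hext hPT₀ (JK.comb hm hext P.isOpen hPT₀ hLk (hα i))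
    refine ⟨(hj i).mono (σ.KO_sub_KC.trans (σ.KC_mono34 P.sub)), h1.2.congr fun x hx => ?_⟩
    have hxK : x ∈ σ.KO P.T := by
      rcases hx with hx | hx
      · exact σ.Q1_sub_KO hx
      · exact σ.Q2_sub_KO hx
    rw [hjr i x hxK]
  have hJ : ∀ i, JK 𝓐 M M₀ ρ σ M₀' θ (m₀ + 1) P.T (Fin.append j (K.L m₀) i) := by
    intro i
    refine Fin.addCases (fun l => ?_) (fun l => ?_) i
    · rw [Fin.append_left]
      exact hjk l
    · rw [Fin.append_right]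
      exact hLk l
  refine ⟨n + (K.p + K.p), Fin.append j (K.L m₀), ?_, ?_, ?_, ?_⟩
  · intro i
    refine Fin.addCases (fun l => ?_) (fun l => ?_) i
    · rw [Fin.append_left]
      exact hj l
    · rw [Fin.append_right]
      exact (K.L_on l).mono (σ.KC_mono34 hP₁c)
  · exact fun i => (hJ i).2
  · intro x₁ x₂ y hp
    obtain ⟨s, hjs, hs1, hs2⟩ := hm.exists_jj P.isOpen hPT₀ hp
    obtain ⟨s', hs', hss'⟩ := hext.ext P.T hPT₀ P.isOpen s (hm.jj_on P.isOpen hjs)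
    have hk : JK 𝓐 M M₀ ρ σ M₀' θ (m₀ + 1) P.T s' :=
      ⟨hs', hjs.congr fun x hx => (hss' x hx).symm⟩
    obtain ⟨b, β, hb, hβ, hsum⟩ := K.gen_r hext r hT₃ hT₃' (fun i => (hr i).1) P hP hd hs'
      (hgen P.T P.isOpen P.mem (P.sub.trans hP₁) s' hk)
    -- coefficients
    let a : Fin (n + (K.p + K.p)) → V → ℂ :=
      Fin.append (fun i => σ.ft (b i)) fun l x => β l x - ∑ i, σ.ft (b i) x * α i l x
    have hbK : ∀ i, HolNear (σ.ft (b i)) (σ.KO P.T) := fun i => σ.ft_near (hb i)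
    have ha2 : ∀ l, HolNear (fun x => β l x - ∑ i, σ.ft (b i) x * α i l x) (σ.KO P.T) :=
      fun l x hx => (hβ l x hx).sub (HolAt.sum _ fun i _ => (hbK i x hx).mul (hα i l x hx))
    have ha : ∀ i, HolNear (a i) (σ.KO P.T) := by
      intro i
      refine Fin.addCases (fun l => ?_) (fun l => ?_) i
      · simp only [a, Fin.append_left]
        exact hbK l
      · simp only [a, Fin.append_right]
        exact ha2 l
    have hcomb : ∀ x ∈ σ.KO P.T, s' x = ∑ i, om (a i) x • Fin.append j (K.L m₀) i x := by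
      intro x hx
      rw [Fin.sum_univ_add]
      simp only [a, Fin.append_left, Fin.append_right]
      have e1 : ∀ i, om (σ.ft (b i)) x • j i x = om (σ.ft (b i)) x • r i x +
          ∑ l, (om (σ.ft (b i)) x * om (α i l) x) • K.L m₀ l x := by
        intro i
        rw [hjr i x hx, smul_add, Finset.smul_sum]
        congr 1
        exact Finset.sum_congr rfl fun l _ => by rw [smul_smul]
      have e2 : ∀ l, om (fun x => β l x - ∑ i, σ.ft (b i) x * α i l x) x =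
          om (β l) x - ∑ i, om (σ.ft (b i)) x * om (α i l) x := by
        intro l
        have e3 : om (fun x => ∑ i, σ.ft (b i) x * α i l x) x =
            ∑ i, om (σ.ft (b i)) x * om (α i l) x := by
          have := C.gm_sum Finset.univ (x := x) (f := fun i x => σ.ft (b i) x * α i l x)
            fun i _ => (hbK i x hx).mul (hα i l x hx)
          refine this.trans (Finset.sum_congr rfl fun i _ => ?_)
          exact om_mul34 (hbK i x hx) (hα i l x hx)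
        rw [← e3]
        exact C.gm_sub' (hβ l x hx)
          (HolAt.sum _ fun i _ => (hbK i x hx).mul (hα i l x hx))
      have e4 : ∑ l, om (fun x => β l x - ∑ i, σ.ft (b i) x * α i l x) x • K.L m₀ l x =
          ∑ l, om (β l) x • K.L m₀ l x -
            ∑ l, ∑ i, (om (σ.ft (b i)) x * om (α i l) x) • K.L m₀ l x := by
        rw [← Finset.sum_sub_distrib]
        exact Finset.sum_congr rfl fun l _ => by rw [e2 l, sub_smul, Finset.sum_smul]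
      have e5 : ∑ i, om (σ.ft (b i)) x • j i x = ∑ i, om (σ.ft (b i)) x • r i x +
          ∑ l, ∑ i, (om (σ.ft (b i)) x * om (α i l) x) • K.L m₀ l x := by
        rw [Finset.sum_comm, ← Finset.sum_add_distrib]
        exact Finset.sum_congr rfl fun i _ => e1 i
      rw [hsum x hx, e4, e5]
      abel
    have hfin : ∀ x ∈ σ.Q1 P.T ∪ σ.Q2 P.T, s x = ∑ i, om (a i) x • θ x (Fin.append j (K.L m₀) i x) := by
      intro x hx
      have hxK : x ∈ σ.KO P.T := by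
        rcases hx with hx | hx
        · exact σ.Q1_sub_KO hx
        · exact σ.Q2_sub_KO hx
      rw [← hss' x hx, hcomb x hxK]
      exact hext.comb (hshell x hx) _ _
    exact ⟨a, ha, fun x hx => (hs1 x hx).trans (hfin x (Or.inl hx)),
      fun x hx => (hs2 x hx).trans (hfin x (Or.inr hx))⟩
  · intro x hx h
    rw [eq_top_iff, ← K.L_span (m₀ := m₀) (σ.KC_mono34 hP₁c hx) h]
    refine Submodule.span_mono ?_
    rintro _ ⟨l, rfl⟩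
    exact ⟨Fin.natAdd n l, by simp only [Fin.append_right]⟩

/-- the functions `ωw`, `ωz` and generators of `M₀'` -/
theorem exists_KD (hext : Ext0 M₀ σ T₀ M₀' θ) (hT₀ : IsOpen T₀) (ht₀ : σ.t₀ ∈ T₀) {rw' rz' : ℝ}
    (hrw : σ.rw < rw') (hrw' : rw' < σ.Rw) (hrz : σ.rz < rz') (hrz' : rz' < σ.Rz)
    {Sw Sz : Set (Fin k → ℂ)} (hSw : IsOpen Sw) (hSz : IsOpen Sz) (htw : σ.t₀ ∈ Sw)
    (htz : σ.t₀ ∈ Sz) {lw lz : ℕ} {aw : Fin lw → (Fin k → ℂ) → ℂ}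
    {az : Fin lz → (Fin k → ℂ) → ℂ} (haw : ∀ j, HolNear (aw j) Sw) (haz : ∀ j, HolNear (az j) Sz)
    (hw : ∀ t ∈ Sw, ∀ v, mon aw t v = 0 → ‖v‖ < rw')
    (hz : ∀ t ∈ Sz, ∀ v, mon az t v = 0 → ‖v‖ < rz') :
    ∃ K : KD M₀' σ T₀, K.rw' = rw' ∧ K.rz' = rz' ∧ K.ωw = σ.mf aw σ.w ∧ K.ωz = σ.mf az σ.z ∧
      K.P₁.Tc ⊆ Sw ∩ Sz := by
  have hN : T₀ ∩ (Sw ∩ Sz) ∈ 𝓝 σ.t₀ :=
    (hT₀.inter (hSw.inter hSz)).mem_nhds ⟨ht₀, htw, htz⟩
  obtain ⟨P₁, hP₁⟩ := σ.exists_Pd hN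
  have hP₁T : P₁.Tc ⊆ T₀ := hP₁.trans inter_subset_left
  have hKC : ∀ x ∈ σ.KC P₁.Tc, σ.t x ∈ Sw ∧ σ.t x ∈ Sz := fun x hx =>
    (hP₁ (σ.mem_KC.1 hx).1).2
  have hcoh : M₀'.Coh (σ.KC P₁.Tc) := fun x hx => hext.coh x (σ.KC_mono34 hP₁T hx)
  obtain ⟨p, κ, hκ, hgen⟩ := (σ.isBox_KO P₁.tb).cartanA M₀' hcoh
  exact ⟨{
      rw' := rw'
      rz' := rz'
      hrw := hrw
      hrw' := hrw'
      hrz := hrz
      hrz' := hrz'
      ωw := σ.mf aw σ.w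
      ωz := σ.mf az σ.z
      P₁ := P₁
      P₁_sub := hP₁T
      ωw_hol := fun x hx => σ.mf_hol σ.holAt_w fun j => haw j _ (hKC x hx).1
      ωz_hol := fun x hx => σ.mf_hol σ.holAt_z fun j => haz j _ (hKC x hx).2
      ωw_ne := fun x hx h h0 => absurd (hw _ (hKC x hx).1 _ h0) (not_lt.2 h)
      ωz_ne := fun x hx h h0 => absurd (hz _ (hKC x hx).2 _ h0) (not_lt.2 h)
      p := p
      κ := κ
      κ_on := hκ
      κ_gen := hgen }, rfl, rfl, rfl, rfl,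
    hP₁.trans inter_subset_right⟩

/-- **(M34) stationarity and finite generation.** -/
theorem m34_proof (hmain : Main 𝓐 M M₀ ρ Y σ T₀) (hext : Ext0 M₀ σ T₀ M₀' θ)
    {ι : Type} {c : ι → ((x : V) → M₀.St x) → (Fin k → ℂ) → ℂ}
    {𝒩 : EMod.{0, 0, 0} (O (Fin k → ℂ))}
    {ν : Set (Fin k → ℂ) → ((x : V) → M₀.St x) → (t : Fin k → ℂ) → 𝒩.St t}
    (hx : HX M₀ σ T₀ ι c 𝒩 ν) (hs : HShrink M₀ σ T₀) (dir : Fin k → ℂ)
    (hYdir : ∀ x ∈ σ.KC T₀, ∀ a : ℂ, σ.t x = σ.t₀ + a • dir → a ≠ 0 → x ∉ Y) :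
    ∃ (m₀ : ℕ) (rw' rz' : ℝ), 1 ≤ m₀ ∧ σ.rw < rw' ∧ rw' < σ.Rw ∧ σ.rz < rz' ∧ rz' < σ.Rz ∧
      ∀ N ∈ 𝓝 σ.t₀, ∃ P : σ.Pd, P.Tc ⊆ N ∩ T₀ ∧
        (∀ m ≥ m₀, ∀ x₁ x₂ y, PK 𝓐 M σ P.T m x₁ x₂ y → ∃ x₁' x₂' y', PK 𝓐 M σ P.T m₀ x₁' x₂' y' ∧
          HZero M₀ σ P.T (fun x => ρ x (y x) - ρ x (y' x))) ∧
        ∃ (s : ℕ) (j : Fin s → (x : V) → M₀'.St x),
          (∀ i, M₀'.On (j i) (σ.KC P.Tc)) ∧
          (∀ i, ∃ x₁ x₂ y, PK 𝓐 M σ P.T (m₀ + 1) x₁ x₂ y ∧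
            (∀ x ∈ σ.Q1 P.T, ρ x (x₁ x) = θ x (j i x)) ∧
            ∀ x ∈ σ.Q2 P.T, ρ x (x₂ x) = θ x (j i x)) ∧
          (∀ x₁ x₂ y, PK 𝓐 M σ P.T (m₀ + 1) x₁ x₂ y →
            ∃ a : Fin s → V → ℂ, (∀ i, HolNear (a i) (σ.KO P.T)) ∧
              (∀ x ∈ σ.Q1 P.T, ρ x (x₁ x) = ∑ i, om (a i) x • θ x (j i x)) ∧
              ∀ x ∈ σ.Q2 P.T, ρ x (x₂ x) = ∑ i, om (a i) x • θ x (j i x)) ∧
          ∀ x ∈ σ.KC P.Tc, (rw' ≤ ‖σ.w x‖ ∨ rz' ≤ ‖σ.z x‖) →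
            Submodule.span ((O V).St x) (range fun i => j i x) = ⊤ := by
  obtain ⟨b, hb⟩ := exists_rankBound hmain hext dir hYdir
  obtain ⟨m₀, hm1, hle, hfg, r, i, hc⟩ := hmain.exists_m₀ hx hb
  obtain ⟨s, dd, T₁, hT₁, ht₁, hT₁', hdd, F₁, F₂, F₃, n₁, n₂, n₃, f₁, f₂, f₃, hF₁, hF₂, hF₃,
    hf₁, hf₂, hf₃, hstar⟩ := hmain.exists_star hx hfg i hc
  obtain ⟨rw', hrw, hrw', Sw, lw, aw, hSw, htw, -, haw, hrootw, hkw⟩ :=
    hmain.exists_killer_w hs hfg hle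
  obtain ⟨rz', hrz, hrz', Sz, lz, az, hSz, htz, -, haz, hrootz, hkz⟩ :=
    hmain.exists_killer_z hs hfg hle
  obtain ⟨K, rfl, rfl, hKw, hKz, hKS⟩ := exists_KD hext hmain.T₀_open hmain.mem_T₀ hrw hrw' hrz
    hrz' hSw hSz htw htz haw haz hrootw hrootz
  obtain ⟨n, rr, T₃, hT₃, ht₃, hT₃', hrr, hgen⟩ := K.exists_r hmain hext m₀
  refine ⟨m₀, K.rw', K.rz', hm1, hrw, hrw', hrz, hrz', fun N hN => ?_⟩
  have hT₃c : σ.KC T₃ ⊆ (K.S m₀).dom := fun x hx =>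
    (K.S_cohAt hext (σ.KC_mono34 (hT₃'.trans K.P₁.sub) hx)).1
  have hsec : ∀ i, (σ.ps (K.S m₀)).At (σ.sec (K.S m₀) (K.sx m₀ T₃ (rr i))) σ.t₀ := fun i =>
    σ.sec_at ((K.sx_on hext hT₃ hT₃' (hrr i).1).mono
      (σ.KC_mono34 (singleton_subset_iff.2 ht₃)))
  have hNN : N ∩ (T₁ ∩ T₃) ∈ 𝓝 σ.t₀ :=
    Filter.inter_mem hN ((hT₁.inter hT₃).mem_nhds ⟨ht₁, ht₃⟩)
  obtain ⟨P, hP, d₁, d₂, d₃, d₄⟩ := exists_divOn hF₁ hF₂ hF₃ (K.ps_cohAt hext (K.P₁.mem)) f₁ hf₁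
    f₂ hf₂ f₃ hf₃ (fun i => σ.sec (K.S m₀) (K.sx m₀ T₃ (rr i))) hsec hNN
  have hPN : P.Tc ⊆ N := hP.trans inter_subset_left
  have hPT₁ : P.Tc ⊆ T₁ := (hP.trans inter_subset_right).trans inter_subset_left
  have hPT₃ : P.Tc ⊆ T₃ := (hP.trans inter_subset_right).trans inter_subset_right
  have hPS : P.Tc ⊆ Sw ∩ Sz := (hPT₃.trans (hT₃'.trans K.P₁.sub)).trans hKS
  have hst : hmain.Star m₀ dd P := hstar P hPT₁ d₁ d₂ d₃
  refine ⟨P, fun t ht => ⟨hPN ht, hT₁' (hPT₁ ht)⟩, fun m _ x₁ x₂ y hp =>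
    stat_of_star hmain hT₁' hdd hle hPT₁ hst hp, ?_⟩
  exact gens_of_star hmain hext K
    (fun m y hy => by
      rw [hKw]
      exact hkw P s dd (hPS.trans inter_subset_left) hst m y hy)
    (fun m y hy => by
      rw [hKz]
      exact hkz P s dd (hPS.trans inter_subset_right) hst m y hy)
    rr hT₃ hT₃' hrr hgen hPT₃ d₄

/-- the statement of `m34` in the interface -/
theorem m34_final {σ : Sit V k d} {T₀ : Set (Fin k → ℂ)} (hmain : Main 𝓐 M M₀ ρ Y σ T₀)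
    {M₀' : EMod.{0, 0, 0} (O V)} {θ : ∀ x, M₀'.St x → M₀.St x} (hext : Ext0 M₀ σ T₀ M₀' θ)
    {ι : Type} {c : ι → ((x : V) → M₀.St x) → (Fin k → ℂ) → ℂ}
    {𝒩 : EMod.{0, 0, 0} (O (Fin k → ℂ))}
    {ν : Set (Fin k → ℂ) → ((x : V) → M₀.St x) → (t : Fin k → ℂ) → 𝒩.St t}
    (hx : HX M₀ σ T₀ ι c 𝒩 ν) (hs : HShrink M₀ σ T₀) (dir : Fin k → ℂ) (hdir : dir ≠ 0)
    (hYdir : ∀ x ∈ σ.KC T₀, ∀ a : ℂ, σ.t x = σ.t₀ + a • dir → a ≠ 0 → x ∉ Y) :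
    ∃ (m₀ : ℕ) (rw' rz' : ℝ), 1 ≤ m₀ ∧ σ.rw < rw' ∧ rw' < σ.Rw ∧ σ.rz < rz' ∧ rz' < σ.Rz ∧
      ∀ N ∈ 𝓝 σ.t₀, ∃ P : σ.Pd, P.Tc ⊆ N ∩ T₀ ∧
        -- stationarity of the images of the obstruction maps
        (∀ m ≥ m₀, ∀ x₁ x₂ y, PK 𝓐 M σ P.T m x₁ x₂ y → ∃ x₁' x₂' y', PK 𝓐 M σ P.T m₀ x₁' x₂' y' ∧
          HZero M₀ σ P.T (fun x => ρ x (y x) - ρ x (y' x))) ∧
        -- sections modulo `ħ ^ (m₀ + 1)`: generated by the sections `j i` of `M₀'` near the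
        -- closed set `KC P.Tc`, which generate `M₀'` near the thin shell
        ∃ (s : ℕ) (j : Fin s → (x : V) → M₀'.St x),
          (∀ i, M₀'.On (j i) (σ.KC P.Tc)) ∧
          (∀ i, ∃ x₁ x₂ y, PK 𝓐 M σ P.T (m₀ + 1) x₁ x₂ y ∧
            (∀ x ∈ σ.Q1 P.T, ρ x (x₁ x) = θ x (j i x)) ∧
            ∀ x ∈ σ.Q2 P.T, ρ x (x₂ x) = θ x (j i x)) ∧
          (∀ x₁ x₂ y, PK 𝓐 M σ P.T (m₀ + 1) x₁ x₂ y →
            ∃ a : Fin s → V → ℂ, (∀ i, HolNear (a i) (σ.KO P.T)) ∧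
              (∀ x ∈ σ.Q1 P.T, ρ x (x₁ x) = ∑ i, om (a i) x • θ x (j i x)) ∧
              ∀ x ∈ σ.Q2 P.T, ρ x (x₂ x) = ∑ i, om (a i) x • θ x (j i x)) ∧
          ∀ x ∈ σ.KC P.Tc, (rw' ≤ ‖σ.w x‖ ∨ rz' ≤ ‖σ.z x‖) →
            Submodule.span ((O V).St x) (range fun i => j i x) = ⊤ :=
  m34_proof hmain hext hx hs dir hYdir

end Pool.Agent.DQ
end

section

/-! # DQ: M34 -/

set_option autoImplicit false

open Set Filter Topology Matrix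

universe u v w

namespace Pool.Agent.DQ

variable {V : Type} [NormedAddCommGroup V] [NormedSpace ℂ V] [FiniteDimensional ℂ V] {k d : ℕ}
  {𝓐 : Defo.{0, v} V} {M : EMod.{0, v, w} 𝓐.A} {M₀ : EMod.{0, 0, w} (O V)}
  {ρ : ∀ x, M.St x → M₀.St x} {Y : Set V}

/-- (M34) stationarity and finite generation -/
theorem m34 {σ : Sit V k d} {T₀ : Set (Fin k → ℂ)} (hmain : Main 𝓐 M M₀ ρ Y σ T₀)
    {M₀' : EMod.{0, 0, 0} (O V)} {θ : ∀ x, M₀'.St x → M₀.St x} (hext : Ext0 M₀ σ T₀ M₀' θ)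
    {ι : Type} {c : ι → ((x : V) → M₀.St x) → (Fin k → ℂ) → ℂ}
    {𝒩 : EMod.{0, 0, 0} (O (Fin k → ℂ))}
    {ν : Set (Fin k → ℂ) → ((x : V) → M₀.St x) → (t : Fin k → ℂ) → 𝒩.St t}
    (hx : HX M₀ σ T₀ ι c 𝒩 ν) (hs : HShrink M₀ σ T₀) (dir : Fin k → ℂ) (hdir : dir ≠ 0)
    (hYdir : ∀ x ∈ σ.KC T₀, ∀ a : ℂ, σ.t x = σ.t₀ + a • dir → a ≠ 0 → x ∉ Y) :
    ∃ (m₀ : ℕ) (rw' rz' : ℝ), 1 ≤ m₀ ∧ σ.rw < rw' ∧ rw' < σ.Rw ∧ σ.rz < rz' ∧ rz' < σ.Rz ∧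
      ∀ N ∈ 𝓝 σ.t₀, ∃ P : σ.Pd, P.Tc ⊆ N ∩ T₀ ∧
        -- stationarity of the images of the obstruction maps
        (∀ m ≥ m₀, ∀ x₁ x₂ y, PK 𝓐 M σ P.T m x₁ x₂ y → ∃ x₁' x₂' y', PK 𝓐 M σ P.T m₀ x₁' x₂' y' ∧
          HZero M₀ σ P.T (fun x => ρ x (y x) - ρ x (y' x))) ∧
        -- sections modulo `ħ ^ (m₀ + 1)`: generated by the sections `j i` of `M₀'` near the
        -- closed set `KC P.Tc`, which generate `M₀'` near the thin shell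
        ∃ (s : ℕ) (j : Fin s → (x : V) → M₀'.St x),
          (∀ i, M₀'.On (j i) (σ.KC P.Tc)) ∧
          (∀ i, ∃ x₁ x₂ y, PK 𝓐 M σ P.T (m₀ + 1) x₁ x₂ y ∧
            (∀ x ∈ σ.Q1 P.T, ρ x (x₁ x) = θ x (j i x)) ∧
            ∀ x ∈ σ.Q2 P.T, ρ x (x₂ x) = θ x (j i x)) ∧
          (∀ x₁ x₂ y, PK 𝓐 M σ P.T (m₀ + 1) x₁ x₂ y →
            ∃ a : Fin s → V → ℂ, (∀ i, HolNear (a i) (σ.KO P.T)) ∧
              (∀ x ∈ σ.Q1 P.T, ρ x (x₁ x) = ∑ i, om (a i) x • θ x (j i x)) ∧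
              ∀ x ∈ σ.Q2 P.T, ρ x (x₂ x) = ∑ i, om (a i) x • θ x (j i x)) ∧
          ∀ x ∈ σ.KC P.Tc, (rw' ≤ ‖σ.w x‖ ∨ rz' ≤ ‖σ.z x‖) →
            Submodule.span ((O V).St x) (range fun i => j i x) = ⊤ :=
  m34_final hmain hext hx hs dir hdir hYdir

end Pool.Agent.DQ
end

section

/-! # DQ, module M56: the extension of `M` from a thin shell -/

set_option autoImplicit false
set_option linter.unusedSectionVars false

open Set Filter Topology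

universe u v w

namespace Pool.Agent.DQ

variable {V : Type} [NormedAddCommGroup V] [NormedSpace ℂ V] [FiniteDimensional ℂ V] {k d : ℕ}
  {𝓐 : Defo.{0, v} V} {M : EMod.{0, v, w} 𝓐.A} {M₀ : EMod.{0, 0, w} (O V)}
  {ρ : ∀ x, M.St x → M₀.St x} {Y : Set V}

/-- (M56) from the conclusion of (M34) to an extension of `M` from a thin shell -/
theorem m56_of {σ : Sit V k d} {T₀ : Set (Fin k → ℂ)} (hmain : Main 𝓐 M M₀ ρ Y σ T₀)
    {M₀' : EMod.{0, 0, 0} (O V)} {θ : ∀ x, M₀'.St x → M₀.St x} (hext : Ext0 M₀ σ T₀ M₀' θ)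
    {m₀ : ℕ} {rw' rz' : ℝ} (hm₀ : 1 ≤ m₀) (hrw : σ.rw < rw') (hrw' : rw' < σ.Rw)
    (hrz : σ.rz < rz') (hrz' : rz' < σ.Rz) (P : σ.Pd) (hP : P.Tc ⊆ T₀)
    (hstat : ∀ m ≥ m₀, ∀ x₁ x₂ y, PK 𝓐 M σ P.T m x₁ x₂ y → ∃ x₁' x₂' y',
      PK 𝓐 M σ P.T m₀ x₁' x₂' y' ∧ HZero M₀ σ P.T (fun x => ρ x (y x) - ρ x (y' x)))
    {p : ℕ} (j : Fin p → (x : V) → M₀'.St x) (hj : ∀ i, M₀'.On (j i) (σ.KC P.Tc))
    (hjl : ∀ i, ∃ x₁ x₂ y, PK 𝓐 M σ P.T (m₀ + 1) x₁ x₂ y ∧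
      (∀ x ∈ σ.Q1 P.T, ρ x (x₁ x) = θ x (j i x)) ∧ ∀ x ∈ σ.Q2 P.T, ρ x (x₂ x) = θ x (j i x))
    (hgen : ∀ x₁ x₂ y, PK 𝓐 M σ P.T (m₀ + 1) x₁ x₂ y →
      ∃ a : Fin p → V → ℂ, (∀ i, HolNear (a i) (σ.KO P.T)) ∧
        (∀ x ∈ σ.Q1 P.T, ρ x (x₁ x) = ∑ i, om (a i) x • θ x (j i x)) ∧
        ∀ x ∈ σ.Q2 P.T, ρ x (x₂ x) = ∑ i, om (a i) x • θ x (j i x))
    (hspan : ∀ x ∈ σ.KC P.Tc, (rw' ≤ ‖σ.w x‖ ∨ rz' ≤ ‖σ.z x‖) →
      Submodule.span ((O V).St x) (range fun i => j i x) = ⊤) :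
    ∃ (σ' : Sit V k d) (T₀' : Set (Fin k → ℂ)) (M' : EMod.{0, v, v} 𝓐.A)
      (θ' : ∀ x, M'.St x → M.St x),
      σ'.e = σ.e ∧ σ'.y₀ = σ.y₀ ∧ σ.rw ≤ σ'.rw ∧ σ'.Rw ≤ σ.Rw ∧ σ.rz ≤ σ'.rz ∧ σ'.Rz ≤ σ.Rz ∧
      σ'.Rv ≤ σ.Rv ∧ T₀' ⊆ T₀ ∧ Main 𝓐 M M₀ ρ Y σ' T₀' ∧
      M'.Coh (σ'.KC T₀') ∧ TF 𝓐 M' (σ'.KC T₀') ∧
      (∀ x ∈ σ'.KC T₀', ∀ j < d, ExtZero (𝓐.A.St x) (M'.St x) j) ∧
      (∀ x ∈ σ'.Q1c T₀' ∪ σ'.Q2c T₀', (∀ m m', θ' x (m + m') = θ' x m + θ' x m') ∧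
        (∀ (a : 𝓐.A.St x) m, θ' x (a • m) = a • θ' x m) ∧ Function.Bijective (θ' x) ∧
        ∀ s, M'.At s x → M.At (fun y => θ' y (s y)) x) ∧
      ∀ x ∈ σ'.KC T₀', ‖σ'.v x‖ = σ'.Rv → Subsingleton (M'.St x) := by
  classical
  have hTT : P.T ⊆ T₀ := P.T_subset5.trans hP
  -- the radius in the fibre variables
  obtain ⟨Rv', hRv0, hRv1, hRv⟩ := exists_lt_of_compact5 (σ.isCompact_KC5 P)
    (f := fun x => ‖σ.v x‖) σ.continuous_v5.norm σ.Rv_pos (fun x hx => hx.2.2.2)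
    (Q := fun x => x ∉ Y ∧ Subsingleton (M₀.St x) ∧ Subsingleton (M₀'.St x)) (by
      intro x hx hxv
      have hx' := σ.KC_mono5 hP hx
      have hxM : x ∈ M.dom := by
        rw [hmain.dom]
        exact ⟨hmain.KC_sub hx', hmain.bdY x hx' hxv⟩
      filter_upwards [M.isOpen_dom.mem_nhds hxM,
        (hmain.red.cohAt (hmain.coh5.cohAt hxM)).subsingleton_near5 (hmain.bd x hx' hxv),
        (hext.coh.cohAt hx').subsingleton_near5 (hext.bd x hx' hxv)] with y y1 y2 y3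
      rw [hmain.dom] at y1
      exact ⟨y1.2, y2, y3⟩)
  -- the sections over the shell
  have hQ1 := hmain.Q1_sub5 P hP
  have hQ2 := hmain.Q2_sub5 P hP
  have hlift : ∀ i, ∃ X, M.On X (σ.Q1 P.T ∪ σ.Q2 P.T) ∧
      ∀ x ∈ σ.Q1 P.T ∪ σ.Q2 P.T, ρ x (X x) = θ x (j i x) := by
    intro i
    obtain ⟨x₁, x₂, y, h1, h2, h3⟩ := hjl i
    obtain ⟨X, hX, hX1, hX2⟩ := ml hmain P hP m₀ hstat x₁ x₂ y h1
    refine ⟨X, hX, ?_⟩
    rintro x (hx | hx)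
    · rw [hX1 x hx, h2 x hx]
    · rw [hX2 x hx, h3 x hx]
  choose s hs hsj using hlift
  have hEc : σ.Q1 P.T ∪ σ.Q2 P.T ⊆ σ.Q1c T₀ ∪ σ.Q2c T₀ :=
    union_subset_union (σ.Q1_sub_Q1c5 hTT) (σ.Q2_sub_Q2c5 hTT)
  have hEM : σ.Q1 P.T ∪ σ.Q2 P.T ⊆ M.dom := union_subset hQ1 hQ2
  have hKC := σ.KO_sub_KC5 hTT
  have hKC' := σ.KO_sub_KC5 P.T_subset5
  have hasm : Asm 𝓐 M M₀ ρ M₀' θ (σ.Q1 P.T ∪ σ.Q2 P.T) (σ.KO P.T) j s :=
    { E_open := (σ.isOpen_Q15 P).union (σ.isOpen_Q25 P)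
      U_open := σ.isOpen_KO5 P
      EU := union_subset (σ.Q1_sub_KO5 _) (σ.Q2_sub_KO5 _)
      UA := hKC.trans hmain.KC_sub
      UM := fun x hx => (hext.coh.cohAt (hKC hx)).1
      red := hmain.red
      coh := hmain.coh5.mono5 hEM
      tf := TF.mono5 hmain.tf5 hEM
      θ_add := fun x hx => hext.add x (hEc hx)
      θ_smul := fun x hx => hext.smul x (hEc hx)
      θ_inj := fun x hx => (hext.bij x (hEc hx)).1
      j_on := fun i x hx => hj i x (hKC' hx)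
      s_on := hs
      s_j := hsj
      gen := fun X hX => by
        obtain ⟨a, ha, h1, h2⟩ := hgen X X 0
          { on₁ := fun x hx => hX x (Or.inl hx)
            on₂ := fun x hx => hX x (Or.inr hx)
            on_y := fun x hx => M.zero x (hQ1 (σ.Q12_sub_Q15 _ hx))
            eq := fun x _ => by rw [sub_self, Pi.zero_apply, smul_zero] }
        refine ⟨a, ha, ?_⟩
        rintro x (hx | hx)
        · exact h1 x hx
        · exact h2 x hx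
      ext0 := fun s' hs' h0 => hext.inj P.T hTT P.isOpen_T5 s' hs' h0 }
  obtain ⟨q, R, hR, hRs⟩ : ∃ (q : ℕ) (R : Fin q → Fin p → (x : V) → 𝓐.A.St x),
      Pres 𝓐 M₀' (σ.KO P.T) j R ∧
      ∀ l, ∀ x ∈ σ.Q1 P.T ∪ σ.Q2 P.T, ∑ i, R l i x • s i x = 0 := by
    have h1 : M₀'.Coh (σ.KC P.Tc) := hext.coh.mono5 (σ.KC_mono5 hP)
    rw [σ.KC_eq5] at h1 hj
    rw [σ.KO_eq5] at hasm ⊢
    exact hasm.exists_pres (σ.good_KO5 P) h1 hj
  -- the new radii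
  have hRw' : rw' < (rw' + σ.Rw) / 2 := by linarith
  have hRw'' : (rw' + σ.Rw) / 2 < σ.Rw := by linarith
  have hRz' : rz' < (rz' + σ.Rz) / 2 := by linarith
  have hRz'' : (rz' + σ.Rz) / 2 < σ.Rz := by linarith
  let σ' : Sit V k d :=
    { e := σ.e
      y₀ := σ.y₀
      rw := rw'
      Rw := (rw' + σ.Rw) / 2
      rz := rz'
      Rz := (rz' + σ.Rz) / 2
      Rv := Rv'
      rw_pos := σ.rw_pos.trans hrw
      rw_lt := hRw'
      rz_pos := σ.rz_pos.trans hrz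
      rz_lt := hRz'
      Rv_pos := hRv0 }
  have hKO : σ'.KC P.T ⊆ σ.KO P.T := fun x hx =>
    ⟨hx.1, ⟨by linarith [norm_nonneg (σ.w x - 0)], lt_of_le_of_lt hx.2.1.2 hRw''⟩,
      ⟨by linarith [norm_nonneg (σ.z x - 0)], lt_of_le_of_lt hx.2.2.1.2 hRz''⟩,
      lt_of_le_of_lt hx.2.2.2 hRv1⟩
  have hE1 : σ'.Q1c P.T ⊆ σ.Q1 P.T := fun x hx =>
    ⟨hx.1, ⟨lt_of_lt_of_le hrw hx.2.1.1, lt_of_le_of_lt hx.2.1.2 hRw''⟩,
      ⟨by linarith [norm_nonneg (σ.z x - 0)], lt_of_le_of_lt hx.2.2.1.2 hRz''⟩,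
      lt_of_le_of_lt hx.2.2.2 hRv1⟩
  have hE2 : σ'.Q2c P.T ⊆ σ.Q2 P.T := fun x hx =>
    ⟨hx.1, ⟨by linarith [norm_nonneg (σ.w x - 0)], lt_of_le_of_lt hx.2.1.2 hRw''⟩,
      ⟨lt_of_lt_of_le hrz hx.2.2.1.1, lt_of_le_of_lt hx.2.2.1.2 hRz''⟩,
      lt_of_le_of_lt hx.2.2.2 hRv1⟩
  have hE : σ'.Q1c P.T ∪ σ'.Q2c P.T ⊆ σ.Q1 P.T ∪ σ.Q2 P.T := union_subset_union hE1 hE2
  have hbound : ∀ x ∈ σ'.KC P.T, ‖σ'.v x‖ = σ'.Rv →
      x ∉ Y ∧ Subsingleton (M₀.St x) ∧ Subsingleton (M₀'.St x) := fun x hx hxv =>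
    hRv x (hKC' (hKO hx)) (ge_of_eq hxv)
  refine ⟨σ', P.T, presMod R, presθ R s, rfl, rfl, hrw.le, hRw''.le, hrz.le, hRz''.le, hRv1.le,
    hTT, ?_, ?_, ?_, ?_, ?_, ?_⟩
  · exact
      { dom := hmain.dom
        refl := hmain.refl
        red := hmain.red
        T₀_open := P.isOpen_T5
        mem_T₀ := P.mem_T5
        KC_sub := hKO.trans (hKC.trans hmain.KC_sub)
        Q1_sub := hmain.Q1_sub.mono_left (hE1.trans (σ.Q1_sub_Q1c5 hTT))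
        Q2_sub := hmain.Q2_sub.mono_left (hE2.trans (σ.Q2_sub_Q2c5 hTT))
        bdY := fun x hx hxv => (hbound x hx hxv).1
        bd := fun x hx hxv => (hbound x hx hxv).2.1 }
  · exact hR.coh.mono5 hKO
  · exact TF.mono5 hR.tf' hKO
  · intro x hx i hi
    exact hR.extZero (hKO hx) (hext.extZero (hKC (hKO hx)) j hi)
  · intro x hx
    have hxE := hE hx
    refine ⟨presθ_add hR hasm hRs hxE, presθ_smul hR hasm hRs hxE,
      presθ_bij hR hasm hRs hxE ?_ (hext.bij x (hEc hxE)).2,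
      fun t ht => presθ_at hR hasm hRs hxE ht⟩
    refine hspan x (hKC' (hasm.EU hxE)) ?_
    rcases hx with hx | hx
    · left
      have := hx.2.1.1
      rwa [sub_zero] at this
    · right
      have := hx.2.2.1.1
      rwa [sub_zero] at this
  · intro x hx hxv
    exact hR.subsingleton (hKO hx) (hbound x hx hxv).2.2

/-- (M56) an extension of `M` from a thin shell -/
theorem m56' {σ : Sit V k d} {T₀ : Set (Fin k → ℂ)} (hmain : Main 𝓐 M M₀ ρ Y σ T₀)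
    {M₀' : EMod.{0, 0, 0} (O V)} {θ : ∀ x, M₀'.St x → M₀.St x} (hext : Ext0 M₀ σ T₀ M₀' θ)
    {ι : Type} {c : ι → ((x : V) → M₀.St x) → (Fin k → ℂ) → ℂ}
    {𝒩 : EMod.{0, 0, 0} (O (Fin k → ℂ))}
    {ν : Set (Fin k → ℂ) → ((x : V) → M₀.St x) → (t : Fin k → ℂ) → 𝒩.St t}
    (hx : HX M₀ σ T₀ ι c 𝒩 ν) (hs : HShrink M₀ σ T₀) (dir : Fin k → ℂ) (hdir : dir ≠ 0)
    (hYdir : ∀ x ∈ σ.KC T₀, ∀ a : ℂ, σ.t x = σ.t₀ + a • dir → a ≠ 0 → x ∉ Y) :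
    ∃ (σ' : Sit V k d) (T₀' : Set (Fin k → ℂ)) (M' : EMod.{0, v, v} 𝓐.A)
      (θ' : ∀ x, M'.St x → M.St x),
      σ'.e = σ.e ∧ σ'.y₀ = σ.y₀ ∧ σ.rw ≤ σ'.rw ∧ σ'.Rw ≤ σ.Rw ∧ σ.rz ≤ σ'.rz ∧ σ'.Rz ≤ σ.Rz ∧
      σ'.Rv ≤ σ.Rv ∧ T₀' ⊆ T₀ ∧ Main 𝓐 M M₀ ρ Y σ' T₀' ∧
      M'.Coh (σ'.KC T₀') ∧ TF 𝓐 M' (σ'.KC T₀') ∧
      (∀ x ∈ σ'.KC T₀', ∀ j < d, ExtZero (𝓐.A.St x) (M'.St x) j) ∧
      (∀ x ∈ σ'.Q1c T₀' ∪ σ'.Q2c T₀', (∀ m m', θ' x (m + m') = θ' x m + θ' x m') ∧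
        (∀ (a : 𝓐.A.St x) m, θ' x (a • m) = a • θ' x m) ∧ Function.Bijective (θ' x) ∧
        ∀ s, M'.At s x → M.At (fun y => θ' y (s y)) x) ∧
      ∀ x ∈ σ'.KC T₀', ‖σ'.v x‖ = σ'.Rv → Subsingleton (M'.St x) := by
  obtain ⟨m₀, rw', rz', hm₀, h1, h2, h3, h4, h5⟩ := m34 hmain hext hx hs dir hdir hYdir
  obtain ⟨P, hP, hstat, p, j, hj, hjl, hgen, hspan⟩ := h5 univ univ_mem
  exact m56_of hmain hext hm₀ h1 h2 h3 h4 P (hP.trans inter_subset_right) hstat j hj hjl hgen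
    hspan

end Pool.Agent.DQ
end

section

/-! M7: from an extension of `M` from a thin shell to the local main theorem. -/

set_option autoImplicit false
set_option linter.unusedSectionVars false

open Set Filter Topology

universe u v w w'

namespace Pool.Agent.DQ

section alg

/-- transport of `BidualBij` by a bijection -/
theorem BidualBij.transport7 {R : Type v} [Ring R] {M : Type w} {M' : Type w'} [AddCommGroup M]
    [AddCommGroup M'] [Module R M] [Module R M'] {d : ℕ} (h : BidualBij R M d) (e : M' → M)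
    (hadd : ∀ m m', e (m + m') = e m + e m') (hsmul : ∀ (a : R) m, e (a • m) = a • e m)
    (hbij : Function.Bijective e) : BidualBij R M' d := by
  let E : M' →ₗ[R] M := { toFun := e, map_add' := hadd, map_smul' := hsmul }
  have hE0 : ∀ m, E m = 0 ↔ m = 0 := fun m =>
    ⟨fun h => hbij.1 (h.trans (map_zero E).symm), fun h => by rw [h, map_zero]⟩
  intro n B ε hε g C W hW hcomm
  have h1 : IsRes n B (E.comp ε) :=
    { zero := hε.zero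
      surj := hbij.2.comp hε.surj
      ker := fun v => (hE0 (ε v)).trans (hε.ker v)
      exact := hε.exact }
  obtain ⟨h2, h3⟩ := h n B (E.comp ε) h1 g C W hW hcomm
  exact ⟨fun v hv => (hE0 _).1 (h2 v hv), h3⟩

end alg

section sheaf

variable {X : Type u} [TopologicalSpace X] {R : ERing.{u, v} X}

/-- the support of a coherent sheaf is closed -/
theorem EMod.CohAt.zero_near {M : EMod.{u, v, w} R} {x : X} (h : M.CohAt x)
    (h0 : Subsingleton (M.St x)) : ∀ᶠ y in 𝓝 x, Subsingleton (M.St y) := by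
  obtain ⟨p, g, hg, hgen⟩ := h.2.1
  have h1 : ∀ᶠ y in 𝓝 x, ∀ i, g i y = 0 :=
    eventually_all.mpr fun i => M.inj (hg i) (M.zero x h.1) (Subsingleton.elim _ _)
  filter_upwards [hgen, h1] with y y1 y2
  have h2 : (⊤ : Submodule (R.St y) (M.St y)) = ⊥ := by
    rw [← y1, Submodule.span_eq_bot]
    rintro _ ⟨i, rfl⟩
    exact y2 i
  exact (Submodule.subsingleton_iff _).1 (subsingleton_of_bot_eq_top h2.symm)

theorem homAt_zero {M : EMod.{u, v, w} R} {N : EMod.{u, v, w'} R} {x : X} (hM : x ∈ M.dom)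
    (hN : x ∈ N.dom) (f : (x : X) → M.St x → N.St x) (h : ∀ᶠ y in 𝓝 x, Subsingleton (N.St y)) :
    HomAt M N f x := by
  refine ⟨hM, hN, ?_⟩
  filter_upwards [eventually_eventually_nhds.mpr h, N.isOpen_dom.mem_nhds hN] with y h1 h2
  have := h1.self_of_nhds
  refine ⟨fun _ _ => Subsingleton.elim _ _, fun _ _ => Subsingleton.elim _ _, fun s _ => ?_⟩
  refine N.congr (N.zero y h2) ?_
  filter_upwards [h1] with z hz
  exact Subsingleton.elim _ _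

/-- inverse of an isomorphism -/
theorem homAt_inv {M : EMod.{u, v, w} R} {N : EMod.{u, v, w'} R} {x : X}
    {f : (x : X) → M.St x → N.St x} {f' : (x : X) → N.St x → M.St x}
    (h : ∀ᶠ y in 𝓝 x, HomAt M N f y) (h1 : ∀ᶠ y in 𝓝 x, ∀ m, f y (f' y m) = m)
    (h2 : ∀ᶠ y in 𝓝 x, ∀ m, f' y (f y m) = m) : HomAt N M f' x := by
  refine ⟨h.self_of_nhds.2.1, h.self_of_nhds.1, ?_⟩
  filter_upwards [eventually_eventually_nhds.mpr h, eventually_eventually_nhds.mpr h1,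
    eventually_eventually_nhds.mpr h2] with y y1 y2 y3
  have hy1 := y1.self_of_nhds
  have hy2 := y2.self_of_nhds
  have hy3 := y3.self_of_nhds
  refine ⟨fun m m' => ?_, fun a m => ?_, fun s hs => ?_⟩
  · conv_lhs => rw [← hy2 m, ← hy2 m', ← hy1.map_add, hy3]
  · conv_lhs => rw [← hy2 m, ← hy1.map_smul, hy3]
  · obtain ⟨t, ht, hty⟩ := M.surj y hy1.1 (f' y (s y))
    have h4 : ∀ᶠ z in 𝓝 y, f z (t z) = s z :=
      N.inj (hy1.at ht) hs (by rw [hty, hy2])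
    refine M.congr ht ?_
    filter_upwards [h4, y3] with z z1 z2
    rw [← z1, z2]

theorem HomAt.comp {M₁ : EMod.{u, v, w} R} {M₂ : EMod.{u, v, w'} R} {M₃ : EMod.{u, v, w} R} {x : X}
    {f : (x : X) → M₁.St x → M₂.St x} {f' : (x : X) → M₂.St x → M₃.St x}
    (h : HomAt M₁ M₂ f x) (h' : HomAt M₂ M₃ f' x) : HomAt M₁ M₃ (fun x m => f' x (f x m)) x := by
  refine ⟨h.1, h'.2.1, ?_⟩
  filter_upwards [h.ev, h'.ev] with y h1 h2
  exact ⟨fun m m' => by rw [h1.map_add, h2.map_add], fun a m => by rw [h1.map_smul, h2.map_smul],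
    fun s hs => h2.at (h1.at hs)⟩

end sheaf

section stub

/-- statement of `exists_biData` (module H9, helper63) -/
def BiData (V : Type) [NormedAddCommGroup V] [NormedSpace ℂ V] [FiniteDimensional ℂ V]
    (𝓐 : Defo.{0, v} V) (d : ℕ) : Prop :=
  ∀ (M : EMod.{0, v, v} 𝓐.A) (n : ℕ) (κ : V ≃L[ℂ] (Fin n → ℂ)) (c : Fin n → ℂ)
    (R : Fin n → ℝ), (∀ i, 0 < R i) → M.Coh (cbox κ c (fun _ => -1) R) →
    TF 𝓐 M (cbox κ c (fun _ => -1) R) →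
    (∀ x ∈ cbox κ c (fun _ => -1) R, ∀ j < d, ExtZero (𝓐.A.St x) (M.St x) j) →
    ∃ (N : EMod.{0, v, v} 𝓐.A) (β : ∀ x, M.St x → N.St x) (g : ℕ → ℕ)
      (C : ∀ k, Fin (g k) → Fin (g (k + 1)) → (x : V) → 𝓐.A.St x)
      (φ : ∀ x, (Fin (g (d + 1)) → 𝓐.A.St x) → N.St x),
      HType 𝓐 d N (cbox κ c (fun _ => -1) R) g C φ ∧ N.Coh (cbox κ c (fun _ => -1) R) ∧
      TF 𝓐 N (cbox κ c (fun _ => -1) R) ∧ ∀ x ∈ cbox κ c (fun _ => -1) R,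
        (∀ m m', β x (m + m') = β x m + β x m') ∧ (∀ (a : 𝓐.A.St x) m, β x (a • m) = a • β x m) ∧
        (∀ s, M.At s x → N.At (fun y => β y (s y)) x) ∧
        (BidualBij (𝓐.A.St x) (M.St x) d → Function.Bijective (β x))

end stub

section main

variable {V : Type} [NormedAddCommGroup V] [NormedSpace ℂ V] [FiniteDimensional ℂ V] {k d : ℕ}
  {𝓐 : Defo.{0, v} V}

/-- the reduction of a stalk vanishes iff the stalk vanishes -/
theorem IsRed.subsingleton {M : EMod.{0, v, w} 𝓐.A} {M₀ : EMod.{0, 0, w} (O V)}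
    {ρ : ∀ x, M.St x → M₀.St x} (h : IsRed 𝓐 M M₀ ρ) {x : V} (hM : M.CohAt x)
    (h0 : Subsingleton (M₀.St x)) : Subsingleton (M.St x) := by
  have hx := hM.1
  have := hM.noeth
  refine ⟨fun a b => ?_⟩
  have key : ∀ m : M.St x, m = 0 := by
    intro m
    refine (𝓐.stalk (M.dom_sub hx)).eq_zero_of_div (P := ⊤) (IsNoetherian.noetherian _) ?_
      (Submodule.mem_top (x := m))
    intro p _
    obtain ⟨q, hq⟩ := (h.ker x hx p).1 (Subsingleton.elim _ _)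
    exact ⟨q, Submodule.mem_top, hq⟩
  rw [key a, key b]

namespace Sit

variable (σ : Sit V k d)

theorem KC_mono7 {T T' : Set (Fin k → ℂ)} (h : T ⊆ T') : σ.KC T ⊆ σ.KC T' :=
  fun _ hx => ⟨h hx.1, hx.2⟩

/-- the polydisc of radius `ε` -/
noncomputable def pd (ε : ℝ) (hε : 0 < ε) : σ.Pd where
  l := k
  κ := ContinuousLinearEquiv.refl ℂ _
  R := fun _ => ε
  R_pos := fun _ => hε

/-- the directions `w`, `z`, `v` -/
def dirs (l d : ℕ) : Finset (Fin (l + 2 + d)) :=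
  (Finset.univ : Finset (Fin 2 ⊕ Fin d)).map
    ⟨Sum.elim (fun i => Fin.castAdd d (Fin.natAdd l i)) (fun i => Fin.natAdd (l + 2) i), by
      rintro (a | a) (b | b) h
      · exact congrArg _ (Fin.ext (by simpa [Fin.ext_iff] using h))
      · exfalso
        have := congrArg Fin.val h
        simp at this
        omega
      · exfalso
        have := congrArg Fin.val h
        simp at this
        omega
      · exact congrArg _ (Fin.ext (by simpa [Fin.ext_iff] using h))⟩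

theorem card_dirs (l d : ℕ) : (dirs l d).card = d + 2 := by
  simp [dirs, add_comm]

theorem mem_dirs {l d : ℕ} {i : Fin (l + 2 + d)} :
    i ∈ dirs l d ↔ i = iW ∨ i = iZ ∨ ∃ j, i = iV j := by
  simp only [dirs, Finset.mem_map, Finset.mem_univ, true_and, Function.Embedding.coeFn_mk]
  constructor
  · rintro ⟨a | a, rfl⟩
    · match a with
      | 0 => exact Or.inl rfl
      | 1 => exact Or.inr (Or.inl rfl)
    · exact Or.inr (Or.inr ⟨a, rfl⟩)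
  · rintro (rfl | rfl | ⟨j, rfl⟩)
    · exact ⟨Sum.inl 0, rfl⟩
    · exact ⟨Sum.inl 1, rfl⟩
    · exact ⟨Sum.inr j, rfl⟩

theorem vec_const {α : Type*} {l d : ℕ} (a : α) :
    (vec (fun _ : Fin l => a) a a fun _ : Fin d => a) = fun _ => a := by
  funext i
  revert i
  rw [forall_idx]
  simp

end Sit

theorem m7_of {σ : Sit V k d} {T₀ : Set (Fin k → ℂ)} {M : EMod.{0, v, w} 𝓐.A}
    {M₀ : EMod.{0, 0, w} (O V)} {ρ : ∀ x, M.St x → M₀.St x} {Y : Set V}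
    (hslab : ∀ n, SlabLemma V d n) (hbi : BiData V 𝓐 d) (hmain : Main 𝓐 M M₀ ρ Y σ T₀)
    (hYan : AnalyticNear Y 𝓐.A.dom) {M' : EMod.{0, v, v} 𝓐.A} {θ' : ∀ x, M'.St x → M.St x}
    (hcoh : M'.Coh (σ.KC T₀)) (htf : TF 𝓐 M' (σ.KC T₀))
    (hext : ∀ x ∈ σ.KC T₀, ∀ j < d, ExtZero (𝓐.A.St x) (M'.St x) j)
    (hθ : ∀ x ∈ σ.Q1c T₀ ∪ σ.Q2c T₀, (∀ m m', θ' x (m + m') = θ' x m + θ' x m') ∧
      (∀ (a : 𝓐.A.St x) m, θ' x (a • m) = a • θ' x m) ∧ Function.Bijective (θ' x) ∧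
      ∀ s, M'.At s x → M.At (fun y => θ' y (s y)) x)
    (hbd : ∀ x ∈ σ.KC T₀, ‖σ.v x‖ = σ.Rv → Subsingleton (M'.St x)) :
    ∃ U N φ, LocalOut 𝓐 d Y σ.y₀ M U N φ := by
  classical
  -- a polydisc
  obtain ⟨ε, hε, hsubT⟩ := exists_cbox_subset (ContinuousLinearEquiv.refl ℂ (Fin k → ℂ)) σ.t₀
    (hmain.T₀_open.mem_nhds hmain.mem_T₀)
  let κT := ContinuousLinearEquiv.refl ℂ (Fin k → ℂ)
  let κ := σ.kap κT
  let c : Fin (k + 2 + d) → ℂ := σ.cen (κT σ.t₀)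
  let R : Fin (k + 2 + d) → ℝ := Sit.vec (fun _ => ε) σ.Rw σ.Rz fun _ => σ.Rv
  let Tc : Set (Fin k → ℂ) := cbox κT (κT σ.t₀) (fun _ => -1) fun _ => ε
  let T : Set (Fin k → ℂ) := box κT (κT σ.t₀) (fun _ => -1) fun _ => ε
  have hTT₀ : Tc ⊆ T₀ := hsubT
  have hTT : T ⊆ Tc := box_subset_cbox _ _ _ _
  have hTo : IsOpen T := isOpen_box _ _ _ _
  have hK : cbox κ c (fun _ => -1) R = σ.KC Tc := by
    have := σ.prc_eq_cbox κT (κT σ.t₀) (fun _ => -1) (fun _ => ε) (-1) σ.Rw (-1) σ.Rz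
    rw [Sit.vec_const] at this
    exact this.symm
  have hB : box κ c (fun _ => -1) R = σ.KO T := by
    have := σ.pr_eq_box κT (κT σ.t₀) (fun _ => -1) (fun _ => ε) (-1) σ.Rw (-1) σ.Rz
    rw [Sit.vec_const] at this
    exact this.symm
  have hKT : cbox κ c (fun _ => -1) R ⊆ σ.KC T₀ := hK ▸ σ.KC_mono7 hTT₀
  have hBK : box κ c (fun _ => -1) R ⊆ cbox κ c (fun _ => -1) R := box_subset_cbox _ _ _ _
  have hR : ∀ i, 0 < R i := by
    rw [Sit.forall_idx]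
    simp only [R, Sit.vec_T, Sit.vec_W, Sit.vec_Z, Sit.vec_V]
    exact ⟨fun _ => hε, σ.rw_pos.trans σ.rw_lt, σ.rz_pos.trans σ.rz_lt, fun _ => σ.Rv_pos⟩
  have hKA : cbox κ c (fun _ => -1) R ⊆ 𝓐.A.dom := hKT.trans hmain.KC_sub
  have hMo : IsOpen (𝓐.A.dom \ Y) := hmain.dom ▸ M.isOpen_dom
  -- the double dual
  obtain ⟨N, β, g, C, φ, hN, hNc, hNt, hβ⟩ := hbi M' (k + 2 + d) κ c R hR
    (fun x hx => hcoh x (hKT hx)) (fun x hx => htf x (hKT hx)) (fun x hx => hext x (hKT hx))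
  have hβbij : ∀ x ∈ cbox κ c (fun _ => -1) R, x ∈ σ.Q1c T₀ ∪ σ.Q2c T₀ →
      Function.Bijective (β x) := by
    intro x hx hxQ
    have hxY : x ∉ Y := by
      rcases hxQ with h | h
      · exact disjoint_left.1 hmain.Q1_sub h
      · exact disjoint_left.1 hmain.Q2_sub h
    have hxM : x ∈ M.dom := by
      rw [hmain.dom]
      exact ⟨hKA hx, hxY⟩
    obtain ⟨h1, h2, h3, -⟩ := hθ x hxQ
    exact (hβ x hx).2.2.2 ((hmain.refl.bid x hxM).transport7 (θ' x) h1 h2 h3)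
  have hbd1 : ∀ x ∈ cbox κ c (fun _ => -1) R, ‖σ.v x‖ = σ.Rv → x ∈ M.dom ∧
      Subsingleton (M.St x) ∧ Subsingleton (M'.St x) ∧ Subsingleton (N.St x) := by
    intro x hx hv
    have hxM : x ∈ M.dom := by
      rw [hmain.dom]
      exact ⟨hKA hx, hmain.bdY x (hKT hx) hv⟩
    have h1 : Subsingleton (M.St x) := hmain.red.subsingleton (hmain.refl.coh.cohAt hxM)
      (hmain.bd x (hKT hx) hv)
    have h2 : Subsingleton (M'.St x) := hbd x (hKT hx) hv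
    have h3 : BidualBij (𝓐.A.St x) (M'.St x) d := (hmain.refl.bid x hxM).transport7 (fun _ => 0)
      (fun _ _ => Subsingleton.elim _ _) (fun _ _ => Subsingleton.elim _ _)
      ⟨fun _ _ _ => Subsingleton.elim _ _, fun m => ⟨0, Subsingleton.elim _ _⟩⟩
    have h4 := (hβ x hx).2.2.2 h3
    exact ⟨hxM, h1, h2, h4.2.subsingleton⟩
  -- a neighbourhood of the boundary in the fibre direction
  let W : Set V := {x | ∀ᶠ y in 𝓝 x, y ∈ M.dom ∧ Subsingleton (M.St y) ∧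
    Subsingleton (M'.St y) ∧ Subsingleton (N.St y)}
  have hWo : IsOpen W := by
    rw [isOpen_iff_mem_nhds]
    intro x hx
    exact eventually_eventually_nhds.mpr hx
  have hWbd : ∀ x ∈ cbox κ c (fun _ => -1) R, ‖σ.v x‖ = σ.Rv → x ∈ W := by
    intro x hx hv
    obtain ⟨h0, h1, h2, h3⟩ := hbd1 x hx hv
    filter_upwards [M.isOpen_dom.mem_nhds h0, (hmain.refl.coh.cohAt h0).zero_near h1,
      (hcoh.cohAt (hKT hx)).zero_near h2, (hNc.cohAt hx).zero_near h3] with y y0 y1 y2 y3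
    exact ⟨y0, y1, y2, y3⟩
  have hvle : ∀ x ∈ cbox κ c (fun _ => -1) R, ‖σ.v x‖ ≤ σ.Rv := by
    intro x hx
    rw [hK] at hx
    exact hx.2.2.2
  have hvcont : Continuous fun x : V => ‖σ.v x‖ :=
    (((continuous_snd.comp σ.e.continuous)).sub continuous_const).norm
  obtain ⟨rv, hrv0, hrv1, hrvW⟩ : ∃ rv, 0 < rv ∧ rv < σ.Rv ∧
      ∀ x ∈ cbox κ c (fun _ => -1) R, rv ≤ ‖σ.v x‖ → x ∈ W := by
    have hcomp : IsCompact (cbox κ c (fun _ => -1) R \ W) :=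
      (isCompact_cbox κ c _ R).diff hWo
    by_cases hne : (cbox κ c (fun _ => -1) R \ W).Nonempty
    · obtain ⟨x₀, hx₀, hmax⟩ := hcomp.exists_isMaxOn hne hvcont.continuousOn
      have h1 : ‖σ.v x₀‖ < σ.Rv := lt_of_le_of_ne (hvle x₀ hx₀.1) fun h => hx₀.2 (hWbd x₀ hx₀.1 h)
      refine ⟨(‖σ.v x₀‖ + σ.Rv) / 2, by linarith [norm_nonneg (σ.v x₀), σ.Rv_pos], by linarith, fun x hx hv => ?_⟩
      by_contra hxW
      have h2 := hmax ⟨hx, hxW⟩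
      have h3 : ‖σ.v x‖ ≤ ‖σ.v x₀‖ := h2
      linarith
    · refine ⟨σ.Rv / 2, by linarith [σ.Rv_pos], by linarith [σ.Rv_pos], fun x hx _ => ?_⟩
      by_contra hxW
      exact hne ⟨x, hx, hxW⟩
  -- the shell
  let S := Sit.dirs k d
  let r : Fin (k + 2 + d) → ℝ := Sit.vec (fun _ => 0) σ.rw σ.rz fun _ => rv
  have hr : ∀ i ∈ S, 0 < r i ∧ r i < R i := by
    intro i hi
    rcases Sit.mem_dirs.1 hi with rfl | rfl | ⟨j, rfl⟩
    · simp only [r, R, Sit.vec_W]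
      exact ⟨σ.rw_pos, σ.rw_lt⟩
    · simp only [r, R, Sit.vec_Z]
      exact ⟨σ.rz_pos, σ.rz_lt⟩
    · simp only [r, R, Sit.vec_V]
      exact ⟨hrv0, hrv1⟩
  let E1 : Set V := box κ c (fun _ => -1) R ∩ {x | σ.rw < ‖σ.w x‖ ∨ σ.rz < ‖σ.z x‖}
  have hwcont : Continuous fun x : V => ‖σ.w x‖ :=
    ((continuous_fst.comp (continuous_snd.comp (continuous_fst.comp σ.e.continuous))).sub
      continuous_const).norm
  have hzcont : Continuous fun x : V => ‖σ.z x‖ :=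
    ((continuous_snd.comp (continuous_snd.comp (continuous_fst.comp σ.e.continuous))).sub
      continuous_const).norm
  have hE1o : IsOpen E1 := (isOpen_box _ _ _ _).inter
    ((isOpen_lt continuous_const hwcont).union (isOpen_lt continuous_const hzcont))
  have hE1Q : E1 ⊆ σ.Q1c T₀ ∪ σ.Q2c T₀ := by
    rintro x ⟨hx, h⟩
    have hxK := hBK hx
    rw [hK] at hxK
    obtain ⟨h1, h2, h3, h4⟩ := hxK
    rcases h with h | h
    · exact Or.inl ⟨hTT₀ h1, ⟨by rw [sub_zero]; exact h.le, h2.2⟩, h3, h4⟩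
    · exact Or.inr ⟨hTT₀ h1, h2, ⟨by rw [sub_zero]; exact h.le, h3.2⟩, h4⟩
  have hshell : ∀ x ∈ shell κ c R S r, x ∈ box κ c (fun _ => -1) R ∧ (x ∈ E1 ∨ x ∈ W) := by
    rintro x ⟨hx, i, hi, hxi⟩
    refine ⟨hx, ?_⟩
    rcases Sit.mem_dirs.1 hi with rfl | rfl | ⟨j, rfl⟩
    · left
      refine ⟨hx, Or.inl ?_⟩
      simp only [r, κ, c, Sit.vec_W, Sit.kap_W, Sit.cen] at hxi
      exact hxi
    · left
      refine ⟨hx, Or.inr ?_⟩
      simp only [r, κ, c, Sit.vec_Z, Sit.kap_Z, Sit.cen] at hxi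
      exact hxi
    · right
      refine hrvW x (hBK hx) ?_
      simp only [r, κ, c, Sit.vec_V, Sit.kap_V, Sit.cen] at hxi
      refine hxi.le.trans ?_
      exact norm_le_pi_norm (σ.v x) j
  have hE1Y : ∀ x ∈ E1, x ∉ Y := by
    intro x hx
    rcases hE1Q hx with h | h
    · exact disjoint_left.1 hmain.Q1_sub h
    · exact disjoint_left.1 hmain.Q2_sub h
  have hWM : ∀ x ∈ W, x ∈ M.dom := fun x hx => (hx.self_of_nhds).1
  have hMY : ∀ x ∈ M.dom, x ∉ Y := fun x hx => by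
    rw [hmain.dom] at hx
    exact hx.2
  have hYs : ∀ x ∈ shell κ c R S r, x ∉ Y := by
    intro x hx
    rcases (hshell x hx).2 with h | h
    · exact hE1Y x h
    · exact hMY x (hWM x h)
  have hE1M : ∀ x ∈ E1, x ∈ M.dom := fun x hx => by
    rw [hmain.dom]
    exact ⟨hKA (hBK hx.1), hE1Y x hx⟩
  have hBN : ∀ x ∈ cbox κ c (fun _ => -1) R, x ∈ N.dom := fun x hx => (hNc.cohAt hx).1
  have hBM' : ∀ x ∈ cbox κ c (fun _ => -1) R, x ∈ M'.dom := fun x hx => (hcoh.cohAt (hKT hx)).1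
  -- inverses
  have hβi : ∀ x ∈ E1, ∃ β' : N.St x → M'.St x, (∀ n, β x (β' n) = n) ∧ ∀ m, β' (β x m) = m := by
    intro x hx
    have hb := hβbij x (hBK hx.1) (hE1Q hx)
    let e := Equiv.ofBijective (β x) hb
    exact ⟨e.symm, fun n => e.apply_symm_apply n, fun m => e.symm_apply_apply m⟩
  have hθi : ∀ x ∈ E1, ∃ θi : M.St x → M'.St x, (∀ n, θ' x (θi n) = n) ∧ ∀ m, θi (θ' x m) = m := by
    intro x hx
    have hb := (hθ x (hE1Q hx)).2.2.1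
    let e := Equiv.ofBijective (θ' x) hb
    exact ⟨e.symm, fun n => e.apply_symm_apply n, fun m => e.symm_apply_apply m⟩
  choose! β' hβ1 hβ2 using hβi
  choose! θi hθ1 hθ2 using hθi
  have hβhom : ∀ x ∈ E1, HomAt M' N β x := by
    intro x hx
    refine ⟨hBM' x (hBK hx.1), hBN x (hBK hx.1), ?_⟩
    filter_upwards [hE1o.mem_nhds hx] with y hy
    have h := hβ y (hBK hy.1)
    exact ⟨h.1, h.2.1, h.2.2.1⟩
  have hθhom : ∀ x ∈ E1, HomAt M' M θ' x := by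
    intro x hx
    refine ⟨hBM' x (hBK hx.1), hE1M x hx, ?_⟩
    filter_upwards [hE1o.mem_nhds hx] with y hy
    have h := hθ y (hE1Q hy)
    exact ⟨h.1, h.2.1, h.2.2.2⟩
  have hβ'hom : ∀ x ∈ E1, HomAt N M' β' x := by
    intro x hx
    refine homAt_inv (f := β) (Filter.eventually_of_mem (hE1o.mem_nhds hx) hβhom)
      (Filter.eventually_of_mem (hE1o.mem_nhds hx) hβ1)
      (Filter.eventually_of_mem (hE1o.mem_nhds hx) hβ2)
  have hθihom : ∀ x ∈ E1, HomAt M M' θi x := by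
    intro x hx
    refine homAt_inv (f := θ') (Filter.eventually_of_mem (hE1o.mem_nhds hx) hθhom)
      (Filter.eventually_of_mem (hE1o.mem_nhds hx) hθ1)
      (Filter.eventually_of_mem (hE1o.mem_nhds hx) hθ2)
  refine localOut_of_shell (hslab _) hR hr (Sit.card_dirs k d) hKA hYan hmain.dom hmain.refl hYs hN
    hNc hNt (fun x n => θ' x (β' x n)) (fun x m => β x (θi x m)) ?_ ?_ ?_ ?_ σ.y₀ ?_
  · intro x hx
    obtain ⟨hxB, h | h⟩ := hshell x hx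
    · refine ⟨hBN x (hBK hxB), hE1M x h, ?_⟩
      filter_upwards [hE1o.mem_nhds h] with y hy
      have h1 := hβ'hom y hy
      have h2 := hθhom y hy
      exact ⟨fun m m' => by rw [h1.map_add, h2.map_add],
        fun a m => by rw [h1.map_smul, h2.map_smul], fun s hs => h2.at (h1.at hs)⟩
    · exact homAt_zero (hBN x (hBK hxB)) (hWM x h) _ (h.mono fun y hy => hy.2.1)
  · intro x hx
    obtain ⟨hxB, h | h⟩ := hshell x hx
    · refine ⟨hE1M x h, hBN x (hBK hxB), ?_⟩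
      filter_upwards [hE1o.mem_nhds h] with y hy
      have h1 := hθihom y hy
      have h2 := hβhom y hy
      exact ⟨fun m m' => by rw [h1.map_add, h2.map_add],
        fun a m => by rw [h1.map_smul, h2.map_smul], fun s hs => h2.at (h1.at hs)⟩
    · exact homAt_zero (hWM x h) (hBN x (hBK hxB)) _ (h.mono fun y hy => hy.2.2.2)
  · intro x hx m
    obtain ⟨hxB, h | h⟩ := hshell x hx
    · rw [hβ2 x h, hθ1 x h]
    · have := (h.self_of_nhds).2.1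
      exact Subsingleton.elim _ _
  · intro x hx m
    obtain ⟨hxB, h | h⟩ := hshell x hx
    · rw [hθ2 x h, hβ1 x h]
    · have := (h.self_of_nhds).2.2.2
      exact Subsingleton.elim _ _
  · rw [hB]
    have hT0 : σ.t σ.y₀ ∈ T := center_mem_box κT σ.t₀ (fun _ => by norm_num) fun _ => hε
    refine ⟨hT0, ⟨?_, ?_⟩, ⟨?_, ?_⟩, ?_⟩
    · simp [Sit.w]
    · simpa [Sit.w] using σ.rw_pos.trans σ.rw_lt
    · simp [Sit.z]
    · simpa [Sit.z] using σ.rz_pos.trans σ.rz_lt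
    · simpa [Sit.v] using σ.Rv_pos

end main

end Pool.Agent.DQ
end
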