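import Pool.Agent.Lib.MP_4aa2a9_ag.Mg.G017
import Pool.Agent.Lib.MP_4aa2a9_ag.Mg.G023
import Pool.Agent.Lib.MP_4aa2a9_ag.Mg.G015
import Pool.Agent.Lib.MP_4aa2a9_ag.Mg.G024

section

/-! Campaign DQ, module M12, block (f), file MFK: the data `KSData` (the sheaf `ker Q` and its
isomorphism with the direct image of `M₀` over the shell, Hartogs). -/

set_option autoImplicit false
set_option linter.unusedVariables false

open Set Filter Topology

namespace Pool.Agent.DQ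

namespace MF



universe w

variable {V : Type} [NormedAddCommGroup V] [NormedSpace ℂ V] [FiniteDimensional ℂ V] {k d : ℕ}

/-- centre of the polydisc in the fibre -/
noncomputable abbrev cc (σ : Sit V k d) : Fin d → ℂ := (σ.e σ.y₀).2

/-- radii of the polydisc in the fibre -/
abbrev RR (σ : Sit V k d) : Fin d → ℝ := fun _ => σ.Rv

/-- the closed polydisc in the fibre -/
noncomputable abbrev DD (σ : Sit V k d) : Set (Fin d → ℂ) := PD (cc σ) (RR σ)

/-- the direct image of `M₀` -/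
noncomputable abbrev EE (M₀ : EMod.{0, 0, w} (O V)) (σ : Sit V k d) : EMod.{0, 0, w} (O (Bs k)) :=
  M₀.push σ.e (DD σ) (isCompact_PD _ _)

/-- closed polydiscs in the base -/
def cB (σ : Sit V k d) (τ A B : ℝ) : Set (Bs k) :=
  {b | b.1 ∈ Metric.closedBall σ.t₀ τ ∧ ‖b.2.1 - σ.bw‖ ≤ A ∧ ‖b.2.2 - σ.bz‖ ≤ B}

/-- open polydiscs in the base -/
def oB (σ : Sit V k d) (τ A B : ℝ) : Set (Bs k) := σ.bx (Metric.ball σ.t₀ τ) (-1) A (-1) B

/-- the data: `KS` is a sheaf on the base (the kernel of `Q`), coherent over `T' × disc × disc`, isomorphic (by `Λ`)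
over the shell with the direct image of `M₀`; the sections of `KS` have the Hartogs property -/
structure KSData (M₀ : EMod.{0, 0, w} (O V)) (σ : Sit V k d) (T' : Set (Fin k → ℂ))
    (jw jw' jz jz' : ℝ) (KS : EMod.{0, 0, 0} (O (Bs k)))
    (Λ : ∀ b, (EE M₀ σ).St b → KS.St b) : Prop where
  T_open : IsOpen T'
  jw_pos : 0 < jw
  jw_lt : jw < jw'
  jz_pos : 0 < jz
  jz_lt : jz < jz'
  coh : KS.Coh (σ.bx T' (-1) jw' (-1) jz')
  cohM : ∀ b ∈ M12.shell σ T' jw jw' jz jz', M₀.Coh (fib σ.e (DD σ) b)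
  bd : ∀ b ∈ M12.shell σ T' jw jw' jz jz', ∀ x ∈ fib σ.e (DD σ) b, ‖σ.v x‖ = σ.Rv →
    Subsingleton (M₀.St x)
  add : ∀ b ∈ M12.shell σ T' jw jw' jz jz', ∀ m m', Λ b (m + m') = Λ b m + Λ b m'
  smul : ∀ b ∈ M12.shell σ T' jw jw' jz jz', ∀ (a : (O (Bs k)).St b) m, Λ b (a • m) = a • Λ b m
  bij : ∀ b ∈ M12.shell σ T' jw jw' jz jz', Function.Bijective (Λ b)
  at_iff : ∀ b ∈ M12.shell σ T' jw jw' jz jz', ∀ μ : (b : Bs k) → (EE M₀ σ).St b,
    (EE M₀ σ).At μ b ↔ KS.At (fun b' => Λ b' (μ b')) b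
  hart : ∀ T ⊆ T', IsOpen T → ∀ a A b B, jw ≤ a → a < A → A ≤ jw' → jz ≤ b → b < B → B ≤ jz' →
    ∀ s, KS.On s (M12.shell σ T a A b B) →
      ∃ s', KS.On s' (σ.bx T (-1) A (-1) B) ∧ ∀ x ∈ M12.shell σ T a A b B, s' x = s x
  uniq : ∀ T ⊆ T', IsOpen T → ∀ a A b B, jw ≤ a → a < A → A ≤ jw' → jz ≤ b → b < B → B ≤ jz' →
    ∀ s', KS.On s' (σ.bx T (-1) A (-1) B) → (∀ x ∈ M12.shell σ T a A b B, s' x = 0) →
      ∀ x ∈ σ.bx T (-1) A (-1) B, s' x = 0

end MF

end Pool.Agent.DQ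
end

section

/-! Campaign DQ, module M12, block (f), file MF8a: closed polydiscs in the base, Cartan's theorems for
them. -/

set_option autoImplicit false
set_option linter.unusedVariables false

open Set Filter Topology

namespace Pool.Agent.DQ

namespace MF

universe w

variable {V : Type} [NormedAddCommGroup V] [NormedSpace ℂ V] [FiniteDimensional ℂ V] {k d : ℕ}
  (σ : Sit V k d)

/-- concatenation of coordinate vectors -/
private noncomputable def appE8 (a b : ℕ) :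
    ((Fin a → ℂ) × (Fin b → ℂ)) ≃L[ℂ] (Fin (a + b) → ℂ) :=
  LinearEquiv.toContinuousLinearEquiv
    { toFun := fun p => Fin.append p.1 p.2
      invFun := fun f => (fun i => f (Fin.castAdd b i), fun i => f (Fin.natAdd a i))
      map_add' := by
        intro p q
        funext i
        refine Fin.addCases (fun j => ?_) (fun j => ?_) i
        · simp [Fin.append_left]
        · simp [Fin.append_right]
      map_smul' := by
        intro c p
        funext i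
        refine Fin.addCases (fun j => ?_) (fun j => ?_) i
        · simp [Fin.append_left]
        · simp [Fin.append_right]
      left_inv := by
        intro p
        refine Prod.ext ?_ ?_
        · funext i; simp [Fin.append_left]
        · funext i; simp [Fin.append_right]
      right_inv := by
        intro f
        funext i
        refine Fin.addCases (fun j => ?_) (fun j => ?_) i
        · simp [Fin.append_left]
        · simp [Fin.append_right] }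

private theorem appE8_left {a b : ℕ} (p : (Fin a → ℂ) × (Fin b → ℂ)) (i : Fin a) :
    appE8 a b p (Fin.castAdd b i) = p.1 i := Fin.append_left _ _ _

private theorem appE8_right {a b : ℕ} (p : (Fin a → ℂ) × (Fin b → ℂ)) (i : Fin b) :
    appE8 a b p (Fin.natAdd a i) = p.2 i := Fin.append_right _ _ _

/-- linear coordinates on the base -/
private noncomputable def kapB8 (k : ℕ) : Bs k ≃L[ℂ] (Fin (k + 2) → ℂ) :=
  ((ContinuousLinearEquiv.refl ℂ (Fin k → ℂ)).prodCongr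
    (ContinuousLinearEquiv.finTwoArrow ℂ ℂ).symm).trans (appE8 k 2)

private theorem kapB8_left (b : Bs k) (i : Fin k) : kapB8 k b (Fin.castAdd 2 i) = b.1 i := by
  simp only [kapB8, ContinuousLinearEquiv.trans_apply, appE8_left,
    ContinuousLinearEquiv.prodCongr_apply]
  rfl

private theorem kapB8_right0 (b : Bs k) : kapB8 k b (Fin.natAdd k 0) = b.2.1 := by
  simp only [kapB8, ContinuousLinearEquiv.trans_apply, appE8_right,
    ContinuousLinearEquiv.prodCongr_apply]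
  rfl

private theorem kapB8_right1 (b : Bs k) : kapB8 k b (Fin.natAdd k 1) = b.2.2 := by
  simp only [kapB8, ContinuousLinearEquiv.trans_apply, appE8_right,
    ContinuousLinearEquiv.prodCongr_apply]
  rfl

/-- closed polydiscs in the base are boxes -/
private theorem exists_cboxB8 (t₀ : Fin k → ℂ) (w₀ z₀ : ℂ) {τ : ℝ} (hτ : 0 ≤ τ) (R R' : ℝ) :
    ∃ (c : Fin (k + 2) → ℂ) (r₀ Rr : Fin (k + 2) → ℝ), cbox (kapB8 k) c r₀ Rr =
      {b | b.1 ∈ Metric.closedBall t₀ τ ∧ ‖b.2.1 - w₀‖ ≤ R ∧ ‖b.2.2 - z₀‖ ≤ R'} := by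
  refine ⟨kapB8 k (t₀, w₀, z₀), fun _ => -1, Fin.append (fun _ => τ) ![R, R'], ?_⟩
  ext b
  have hneg : ∀ x : ℂ, -1 ≤ ‖x‖ := fun x => by linarith [norm_nonneg x]
  simp only [cbox, cring, mem_ofPred_eq, hneg, true_and, Metric.mem_closedBall, dist_eq_norm]
  rw [pi_norm_le_iff_of_nonneg hτ]
  constructor
  · intro h
    refine ⟨fun i => ?_, ?_, ?_⟩
    · have := h (Fin.castAdd 2 i)
      rwa [kapB8_left, kapB8_left, Fin.append_left] at this
    · have := h (Fin.natAdd k 0)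
      rwa [kapB8_right0, kapB8_right0, Fin.append_right] at this
    · have := h (Fin.natAdd k 1)
      rwa [kapB8_right1, kapB8_right1, Fin.append_right] at this
  · rintro ⟨h1, h2, h3⟩ i
    refine Fin.addCases (fun j => ?_) (fun j => ?_) i
    · rw [kapB8_left, kapB8_left, Fin.append_left]
      exact h1 j
    · match j with
      | 0 =>
        rw [kapB8_right0, kapB8_right0, Fin.append_right]
        exact h2
      | 1 =>
        rw [kapB8_right1, kapB8_right1, Fin.append_right]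
        exact h3

private theorem isOpen_ring8 (c : ℂ) (r R : ℝ) : IsOpen (ring c r R) :=
  (isOpen_lt continuous_const (continuous_id.sub continuous_const).norm).inter
    (isOpen_lt (continuous_id.sub continuous_const).norm continuous_const)

/-- Proof. As `exists_cboxB` in the store file DQ_M12Lam.tgz (file M12LamA.lean, copy `kapB`): coordinates `(t, w, z)` of `Bs k = (Fin k → ℂ) × ℂ × ℂ`; the closed ball of the sup norm is a
product of discs (`pi_norm_le_iff_of_nonneg hτ`), radii `-1` and `(τ, …, τ, A, B)`. (`MBox.appE`-style: `LinearEquiv.toContinuousLinearEquiv` of the map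
`b ↦ Fin.append b.1 ![b.2.1, b.2.2]`.) -/
theorem cB_eq_cbox {τ : ℝ} (hτ : 0 ≤ τ) (A B : ℝ) :
    ∃ (κ : Bs k ≃L[ℂ] (Fin (k + 2) → ℂ)) (c : Fin (k + 2) → ℂ) (r R : Fin (k + 2) → ℝ),
      cB σ τ A B = cbox κ c r R := by
  obtain ⟨c, r, R, h⟩ := exists_cboxB8 σ.t₀ σ.bw σ.bz hτ A B
  exact ⟨kapB8 k, c, r, R, h.symm⟩

/-- Proof. `cB_eq_cbox`, `cartanA`. -/
theorem cB_gen {KS : EMod.{0, 0, 0} (O (Bs k))} {τ A B : ℝ} (hτ : 0 ≤ τ)
    (hcoh : KS.Coh (cB σ τ A B)) :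
    ∃ (s : ℕ) (κ : Fin s → (b : Bs k) → KS.St b), (∀ j, KS.On (κ j) (cB σ τ A B)) ∧
      KS.Gen κ (cB σ τ A B) := by
  obtain ⟨κ, c, r, R, h⟩ := cB_eq_cbox σ hτ A B
  rw [h] at hcoh ⊢
  exact cartanA κ c r R KS hcoh

/-- Proof. `cB_eq_cbox`, `cartanB`. -/
theorem cB_sec {KS : EMod.{0, 0, 0} (O (Bs k))} {τ A B : ℝ} (hτ : 0 ≤ τ)
    (hcoh : KS.Coh (cB σ τ A B)) {s : ℕ} {κ : Fin s → (b : Bs k) → KS.St b}
    (hκ : ∀ j, KS.On (κ j) (cB σ τ A B)) (hgen : KS.Gen κ (cB σ τ A B))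
    {S : (b : Bs k) → KS.St b} (hS : KS.On S (cB σ τ A B)) :
    ∃ a : Fin s → Bs k → ℂ, (∀ j, HolNear (a j) (cB σ τ A B)) ∧
      ∀ b ∈ cB σ τ A B, S b = ∑ j, om (a j) b • κ j b := by
  obtain ⟨κ', c, r, R, h⟩ := cB_eq_cbox σ hτ A B
  rw [h] at hcoh hκ hgen hS ⊢
  exact cartanB κ' c r R KS hcoh κ hκ hgen S hS

/-- Proof. As `relgen_fib` in SFib2.lean (with `cB_eq_cbox` and `cartanA` instead of `exists_fib_coord` and `cartanA_fib`); `rowSp ρ b` is the span of the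
`fun i => om (ρ l i) b`. -/
theorem cB_rel {KS : EMod.{0, 0, 0} (O (Bs k))} {τ A B : ℝ} (hτ : 0 ≤ τ)
    (hcoh : KS.Coh (cB σ τ A B)) {s : ℕ} {κ : Fin s → (b : Bs k) → KS.St b}
    (hκ : ∀ j, KS.On (κ j) (cB σ τ A B)) :
    ∃ (q : ℕ) (ρ : Fin q → Fin s → Bs k → ℂ), (∀ b ∈ cB σ τ A B, MatAt ρ b) ∧
      ∀ b ∈ cB σ τ A B, KS.rel κ b = rowSp ρ b := by
  obtain ⟨κ', c, r, R, h⟩ := cB_eq_cbox σ hτ A B
  rw [h] at hcoh hκ ⊢
  have hN : (KS.relSh κ).Coh (cbox κ' c r R) := C.relSh_coh (oka_of_coord κ') hcoh hκ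
  obtain ⟨q, S, hS, hgen⟩ := cartanA κ' c r R (KS.relSh κ) hN
  have hat : ∀ l i, ∀ x ∈ cbox κ' c r R,
      HolAt (fun y => C.evg y (KS.relVal κ y (S l y) i)) x ∧
      ∀ᶠ y in 𝓝 x, KS.relVal κ y (S l y) i = gm (fun y => C.evg y (KS.relVal κ y (S l y) i)) y :=
    fun l i x hx =>
      C.at_evg (a := fun y => KS.relVal κ y (S l y) i) ((EMod.relSh_at_iff.mp (hS l x hx)).2 i)
  refine ⟨q, fun l i y => C.evg y (KS.relVal κ y (S l y) i), fun x hx l i => (hat l i x hx).1,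
    fun x hx => ?_⟩
  rw [← KS.relVal_range κ x, ← Submodule.map_top, ← hgen x hx, Submodule.map_span,
    ← Set.range_comp]
  unfold rowSp
  congr 1
  congr 1
  funext l
  funext i
  exact (hat l i x hx).2.self_of_nhds

/-- Proof. `isOpen_ball`, the rings are open (`ring c r R = {z | r < ‖z - c‖} ∩ {z | ‖z - c‖ < R}`), `IsOpen.prod`. -/
theorem isOpen_bx {T : Set (Fin k → ℂ)} (hT : IsOpen T) (r₁ R₁ r₂ R₂ : ℝ) :
    IsOpen (σ.bx T r₁ R₁ r₂ R₂) := by
  exact hT.prod ((isOpen_ring8 _ _ _).prod (isOpen_ring8 _ _ _))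

theorem isOpen_shell {T : Set (Fin k → ℂ)} (hT : IsOpen T) (a A b B : ℝ) :
    IsOpen (M12.shell σ T a A b B) := by
  exact (isOpen_bx σ hT _ _ _ _).union (isOpen_bx σ hT _ _ _ _)

theorem isOpen_oB (τ A B : ℝ) : IsOpen (oB σ τ A B) := by
  exact isOpen_bx σ Metric.isOpen_ball _ _ _ _

theorem oB_subset_cB (τ A B : ℝ) : oB σ τ A B ⊆ cB σ τ A B := by
  rintro b ⟨h1, h2, h3⟩
  exact ⟨Metric.ball_subset_closedBall h1, h2.2.le, h3.2.le⟩

/-- Proof. `-1 < ‖z‖` always (`norm_nonneg`). -/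
theorem cB_subset_oB {τ A B τ' A' B' : ℝ} (hτ : τ < τ') (hA : A < A') (hB : B < B') :
    cB σ τ A B ⊆ oB σ τ' A' B' := by
  rintro b ⟨h1, h2, h3⟩
  have hneg : ∀ x : ℂ, -1 < ‖x‖ := fun x => by linarith [norm_nonneg x]
  exact ⟨Metric.closedBall_subset_ball hτ h1, ⟨hneg _, h2.trans_lt hA⟩,
    ⟨hneg _, h3.trans_lt hB⟩⟩

theorem cB_subset_bx {τ A B A' B' : ℝ} {T : Set (Fin k → ℂ)} (hT : Metric.closedBall σ.t₀ τ ⊆ T)
    (hA : A < A') (hB : B < B') : cB σ τ A B ⊆ σ.bx T (-1) A' (-1) B' := by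
  rintro b ⟨h1, h2, h3⟩
  have hneg : ∀ x : ℂ, -1 < ‖x‖ := fun x => by linarith [norm_nonneg x]
  exact ⟨hT h1, ⟨hneg _, h2.trans_lt hA⟩, ⟨hneg _, h3.trans_lt hB⟩⟩

/-- the shell is contained in the product of discs -/
theorem shell_subset_bx (T : Set (Fin k → ℂ)) (a A b B : ℝ) :
    M12.shell σ T a A b B ⊆ σ.bx T (-1) A (-1) B := by
  have hneg : ∀ x : ℂ, -1 < ‖x‖ := fun x => by linarith [norm_nonneg x]
  rintro x (h | h)
  · exact ⟨h.1, ⟨hneg _, h.2.1.2⟩, h.2.2⟩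
  · exact ⟨h.1, h.2.1, ⟨hneg _, h.2.2.2⟩⟩

/-- Proof. Componentwise: a smaller ring (`a' ≤ a`, `A ≤ A'`). -/
theorem shell_mono {T T' : Set (Fin k → ℂ)} (hT : T ⊆ T') {a A b B a' A' b' B' : ℝ} (ha : a' ≤ a)
    (hA : A ≤ A') (hb : b' ≤ b) (hB : B ≤ B') :
    M12.shell σ T a A b B ⊆ M12.shell σ T' a' A' b' B' := by
  rintro x (h | h)
  · exact Or.inl ⟨hT h.1, ⟨ha.trans_lt h.2.1.1, h.2.1.2.trans_le hA⟩,
      ⟨h.2.2.1, h.2.2.2.trans_le hB⟩⟩
  · exact Or.inr ⟨hT h.1, ⟨h.2.1.1, h.2.1.2.trans_le hA⟩,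
      ⟨hb.trans_lt h.2.2.1, h.2.2.2.trans_le hB⟩⟩

theorem bx_mono {T T' : Set (Fin k → ℂ)} (hT : T ⊆ T') {A B A' B' : ℝ} (hA : A ≤ A')
    (hB : B ≤ B') : σ.bx T (-1) A (-1) B ⊆ σ.bx T' (-1) A' (-1) B' := by
  rintro x ⟨h1, h2, h3⟩
  exact ⟨hT h1, ⟨h2.1, h2.2.trans_le hA⟩, ⟨h3.1, h3.2.trans_le hB⟩⟩

/-- a point of a product of discs which is in a shell for larger outer radii is in the shell -/
theorem mem_shell_of_mem {T T' : Set (Fin k → ℂ)} {a A b B A' B' : ℝ} {x : Bs k}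
    (h : x ∈ σ.bx T (-1) A (-1) B) (h' : x ∈ M12.shell σ T' a A' b B') :
    x ∈ M12.shell σ T a A b B := by
  obtain ⟨h1, h2, h3⟩ := h
  rcases h' with h' | h'
  · exact Or.inl ⟨h1, ⟨h'.2.1.1, h2.2⟩, h3⟩
  · exact Or.inr ⟨h1, h2, ⟨h'.2.2.1, h3.2⟩⟩

/-- Proof. `T'` open, the closed ball is compact (`ProperSpace`): `IsCompact.exists_cthickening_subset_open` and
`cthickening_closedBall`-type lemmas, or: if every `τ₀ + 1/n` fails take points `p_n ∉ T'` with `dist p_n t₀ ≤ τ₀ + 1/(n+1)` and a convergent subsequence. -/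
theorem exists_radius {T' : Set (Fin k → ℂ)} (hT : IsOpen T') {τ₀ : ℝ}
    (h : Metric.closedBall σ.t₀ τ₀ ⊆ T') : ∃ τ₁, τ₀ < τ₁ ∧ Metric.closedBall σ.t₀ τ₁ ⊆ T' := by
  rcases lt_or_ge τ₀ 0 with h0 | h0
  · refine ⟨τ₀ / 2, by linarith, ?_⟩
    rw [Metric.closedBall_eq_empty.2 (by linarith)]
    exact empty_subset _
  obtain ⟨δ, hδ, h1⟩ := (isCompact_closedBall σ.t₀ τ₀).exists_cthickening_subset_open hT h
  refine ⟨τ₀ + δ, by linarith, fun x hx => h1 ?_⟩
  rw [cthickening_closedBall hδ.le h0, add_comm]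
  exact hx

end MF

end Pool.Agent.DQ
end

section

/-! Campaign DQ, module M12, block (f), file MF7: extension by zero of an element of a stalk of a sheaf
with finite support over a point of the base. -/

set_option autoImplicit false
set_option linter.unusedVariables false

open Set Filter Topology

namespace Pool.Agent.DQ

namespace MF

variable {X V : Type} [NormedAddCommGroup X] [NormedSpace ℂ X] [FiniteDimensional ℂ X]
  [NormedAddCommGroup V] [NormedSpace ℂ V] [FiniteDimensional ℂ V] {d : ℕ}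

universe w

/-- **The support over one point is finite.**

Proof. `finite_monic` (κ = refl, with `hzero`) gives for every `i : Fin d` a monic polynomial `mon (a i) b`; by `∀ᶠ` at `t' = b` the germ of
`mon (a i) (e y).1 ((e y).2 i)` kills `F.St x` for `x` in the fibre. If `mon (a i) b ((e x).2 i) ≠ 0` it is a unit (`isUnit_om`, `holAt_mon`), so `F.St x` is trivial. So the points
`x` of the fibre with nontrivial stalk satisfy `(e x).2 i ∈ {v | mon (a i) b v = 0}` for all `i`, a finite set (the zeros of a monic polynomial, compare `exists_mon_ne` in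
SMonic.lean: the polynomial `X ^ l + ∑ C (a j b) X ^ j` is monic, `Polynomial.rootSet_finite` or `Multiset.toFinset` of its roots). `x` is determined by `(e x).1 = b` and `(e x).2`
(`Set.Finite.pi`, image under `e.symm`). (`d = 0` is included: the fibre is one point.) -/
theorem support_finite (F : EMod.{0, 0, w} (O V)) (e : V ≃L[ℂ] X × (Fin d → ℂ)) {cc : Fin d → ℂ}
    {RR : Fin d → ℝ} (hR : ∀ i, 0 < RR i) (b : X) (hcoh : F.Coh (fib e (PD cc RR) b))
    (hzero : ∀ x ∈ fib e (PD cc RR) b, (∃ i, ‖(e x).2 i - cc i‖ = RR i) → Subsingleton (F.St x)) :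
    {x | x ∈ fib e (PD cc RR) b ∧ ¬ Subsingleton (F.St x)}.Finite := by
  classical
  have hz : ∀ x ∈ fib e (cbox (ContinuousLinearEquiv.refl ℂ (Fin d → ℂ)) cc (-1) RR) b,
      (e x).2 ∉ box (ContinuousLinearEquiv.refl ℂ (Fin d → ℂ)) cc (-1) RR →
        Subsingleton (F.St x) := by
    intro x hx hxb
    refine hzero x hx ?_
    by_contra hcon
    push Not at hcon
    refine hxb fun i => ⟨lt_of_lt_of_le (by norm_num) (norm_nonneg _), ?_⟩
    exact lt_of_le_of_ne (hx.2 i).2 (hcon i)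
  choose l a ha hk using fun i => finite_monic F e (ContinuousLinearEquiv.refl ℂ (Fin d → ℂ)) cc RR
    hR b hcoh hz i
  let Z : Fin d → Set ℂ := fun i => {v | mon (a i) b v = 0}
  have hZ : ∀ i, (Z i).Finite := by
    intro i
    by_contra hinf
    let P : Polynomial ℂ := Polynomial.X ^ (l i) + ∑ j : Fin (l i), Polynomial.C (a i j b) *
      Polynomial.X ^ (j : ℕ)
    have hP : P.Monic := Polynomial.monic_X_pow_add (Polynomial.degree_sum_fin_lt fun j => a i j b)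
    have hev : ∀ v, P.eval v = mon (a i) b v := by
      intro v
      simp [P, mon, Polynomial.eval_finsetSum]
    refine hP.ne_zero (Polynomial.eq_zero_of_infinite_isRoot P (Set.Infinite.mono (s := Z i) ?_ hinf))
    intro v hv
    change P.eval v = 0
    rw [hev]
    exact hv
  refine ((Set.Finite.pi' hZ).image fun v => e.symm (b, v)).subset ?_
  rintro x ⟨hx, hns⟩
  refine ⟨(e x).2, fun i => ?_, ?_⟩
  · by_contra hne
    refine hns (subsingleton_of_forall_eq 0 fun m => ?_)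
    have h1 := (hk i).self_of_nhds.2 x hx m
    have hxb : (e x).1 = b := hx.1
    have h2 : HolAt (fun y => mon (a i) (e y).1
        ((ContinuousLinearEquiv.refl ℂ (Fin d → ℂ)) (e y).2 i)) x := holAt_mon e _ i hx.1 (ha i)
    have h3 : IsUnit (om (fun y => mon (a i) (e y).1
        ((ContinuousLinearEquiv.refl ℂ (Fin d → ℂ)) (e y).2 i)) x) := by
      refine isUnit_om h2 ?_
      rw [hxb]
      exact hne
    obtain ⟨u, hu⟩ := h3
    have h4 : ((↑u⁻¹ : (O V).St x)) • (u : (O V).St x) • m = 0 := by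
      rw [hu, h1, smul_zero]
    rw [smul_smul, Units.inv_mul, one_smul] at h4
    exact h4
  · have hxb : (e x).1 = b := hx.1
    have : (b, (e x).2) = e x := Prod.ext hxb.symm rfl
    change e.symm (b, (e x).2) = x
    rw [this, e.symm_apply_apply]

/-- **Extension by zero.**

Proof. Let `P` be the finite set of `support_finite`. Let `s₀` be a section near `x` with `s₀ x = g` (`F.surj`, `x ∈ F.dom` by `hcoh`). Choose `r > 0` such that `s₀` is a section at all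
points of `ball x r` and such that `P ∩ closedBall x r ⊆ {x}` (finite set: positive distance). Put `s y := if y ∈ ball x r then s₀ y else 0`. Let `y` be in the fibre. If `y ∈ ball x r`:
`s = s₀` near `y`, so `s` is a section at `y`; if moreover `y ≠ x` then `y ∉ P`, the stalk is trivial and `s y = 0`. If `y ∉ closedBall x r`: `s = 0` near `y` (`F.zero`). If
`dist y x = r`: `y ∉ P`, the stalk is trivial at `y` and hence at all points near `y` (`zero_near`, file SNear, with `(hcoh y hy).self_of_nhds`), so `s = 0` near `y`. -/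
theorem exists_ext_zero (F : EMod.{0, 0, w} (O V)) (e : V ≃L[ℂ] X × (Fin d → ℂ)) {cc : Fin d → ℂ}
    {RR : Fin d → ℝ} (hR : ∀ i, 0 < RR i) (b : X) (hcoh : F.Coh (fib e (PD cc RR) b))
    (hzero : ∀ x ∈ fib e (PD cc RR) b, (∃ i, ‖(e x).2 i - cc i‖ = RR i) → Subsingleton (F.St x))
    {x : V} (hx : x ∈ fib e (PD cc RR) b) (g : F.St x) :
    ∃ s : (y : V) → F.St y, F.On s (fib e (PD cc RR) b) ∧ s x = g ∧
      ∀ y ∈ fib e (PD cc RR) b, y ≠ x → s y = 0 := by
  classical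
  have hfin := support_finite F e hR b hcoh hzero
  have hxdom : x ∈ F.dom := ((hcoh x hx).self_of_nhds).1
  obtain ⟨s₀, hs₀, rfl⟩ := F.surj x hxdom g
  obtain ⟨r₀, hr₀, hball⟩ := Metric.eventually_nhds_iff.1 (F.ev hs₀)
  set P := {x | x ∈ fib e (PD cc RR) b ∧ ¬ Subsingleton (F.St x)} with hP
  have hcl : IsClosed (P \ {x}) := (hfin.subset diff_subset).isClosed
  have hxc : x ∈ (P \ {x})ᶜ := fun h => h.2 rfl
  obtain ⟨r₁, hr₁, hr₁P⟩ := Metric.isOpen_iff.1 hcl.isOpen_compl x hxc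
  set r := min (r₀ / 2) (r₁ / 2) with hr
  have hrpos : 0 < r := by positivity
  have hrr₀ : r < r₀ := lt_of_le_of_lt (min_le_left _ _) (by linarith)
  have hrr₁ : r < r₁ := lt_of_le_of_lt (min_le_right _ _) (by linarith)
  have htriv : ∀ y ∈ fib e (PD cc RR) b, y ≠ x → dist y x ≤ r → Subsingleton (F.St y) := by
    intro y hy hyx hd
    by_contra hns
    have : y ∈ (P \ {x})ᶜ := hr₁P (Metric.mem_ball.2 (lt_of_le_of_lt hd hrr₁))
    exact this ⟨⟨hy, hns⟩, hyx⟩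
  let S : (y : V) → F.St y := fun y => if y ∈ Metric.ball x r then s₀ y else 0
  have hSin : ∀ y ∈ Metric.ball x r, S y = s₀ y := fun y hy => if_pos hy
  have hSout : ∀ y, y ∉ Metric.ball x r → S y = 0 := fun y hy => if_neg hy
  refine ⟨S, fun y hy => ?_, hSin x (Metric.mem_ball_self hrpos), fun y hy hyx => ?_⟩
  · have hydom : y ∈ F.dom := ((hcoh y hy).self_of_nhds).1
    rcases lt_trichotomy (dist y x) r with h | h | h
    · refine F.congr (hball (lt_trans h hrr₀)) ?_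
      filter_upwards [Metric.isOpen_ball.mem_nhds (Metric.mem_ball.2 h)] with z hz
      exact (hSin z hz).symm
    · have hyx : y ≠ x := by
        rintro rfl
        rw [dist_self] at h
        exact hrpos.ne h
      have h1 := htriv y hy hyx h.le
      refine F.congr (F.zero y hydom) ?_
      filter_upwards [zero_near F ((hcoh y hy).self_of_nhds) h1] with z hz
      exact Subsingleton.elim _ _
    · refine F.congr (F.zero y hydom) ?_
      have : ∀ᶠ z in 𝓝 y, r < dist z x :=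
        (continuous_id.dist continuous_const).continuousAt.eventually (lt_mem_nhds h)
      filter_upwards [this] with z hz
      exact (hSout z (fun hzb => absurd (Metric.mem_ball.1 hzb) (not_lt.2 hz.le))).symm
  · by_cases hb : y ∈ Metric.ball x r
    · have h1 := htriv y hy hyx (Metric.mem_ball.1 hb).le
      exact Subsingleton.elim _ _
    · exact hSout y hb

end MF

end Pool.Agent.DQ
end

section

/-! Campaign DQ, module M12, block (f), file MFL: from `LamData` to `KSData`. -/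

set_option autoImplicit false
set_option linter.unusedVariables false
set_option linter.unusedSectionVars false

open Set Filter Topology Matrix

namespace Pool.Agent.DQ

namespace MF

open M12

universe w

variable {V : Type} [NormedAddCommGroup V] [NormedSpace ℂ V] [FiniteDimensional ℂ V] {k d : ℕ}

theorem mem_DD_L {σ : Sit V k d} {x : V} : (σ.e x).2 ∈ DD σ ↔ ‖σ.v x‖ ≤ σ.Rv := by
  rw [mem_PD, pi_norm_le_iff_of_nonneg σ.Rv_pos.le]
  rfl

section Lam

variable {M₀ : EMod.{0, 0, w} (O V)} {σ : Sit V k d} {T' : Set (Fin k → ℂ)}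
    {jw jw' jz jz' : ℝ} {m N N' : ℕ} {Q : Bs k → Matrix (Fin N) (Fin m) ℂ}
    {Q' : Bs k → Matrix (Fin N') (Fin N) ℂ} {Lam : ((x : V) → M₀.St x) → Bs k → Fin m → ℂ}

theorem reg_fib {S : Set (Bs k)} {x : V} (hx : x ∈ σ.reg S) : x ∈ fib σ.e (DD σ) (σ.e x).1 :=
  ⟨rfl, mem_DD_L.mpr hx.2.le⟩

/-- sections over `reg S` are sections near the fibres over `S` -/
theorem fib_of_reg (cohM : ∀ b ∈ M12.shell σ T' jw jw' jz jz', M₀.Coh (fib σ.e (DD σ) b))
    (bd : ∀ b ∈ M12.shell σ T' jw jw' jz jz', ∀ x ∈ fib σ.e (DD σ) b, ‖σ.v x‖ = σ.Rv →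
      Subsingleton (M₀.St x)) {S : Set (Bs k)} (hS : S ⊆ M12.shell σ T' jw jw' jz jz')
    {y : (x : V) → M₀.St x} (hy : M₀.On y (σ.reg S)) : ∀ b ∈ S, M₀.On y (fib σ.e (DD σ) b) := by
  intro b hb x hx
  have h1 : ‖σ.v x‖ ≤ σ.Rv := mem_DD_L.mp hx.2
  rcases h1.lt_or_eq with h2 | h2
  · exact hy x ⟨by rw [hx.1]; exact hb, h2⟩
  · exact at_of_zero (cohM b (hS hb) x hx).self_of_nhds (bd b (hS hb) x hx h2) y

/-- a section near the fibre over `b` is a section over `reg S` for a neighbourhood `S` of `b` -/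
theorem reg_of_fib (hT : IsOpen T') {b : Bs k} (hb : b ∈ M12.shell σ T' jw jw' jz jz')
    {P : Bs k → Prop} (hP : ∀ᶠ b' in 𝓝 b, P b') :
    ∃ S ⊆ M12.shell σ T' jw jw' jz jz', IsOpen S ∧ b ∈ S ∧ ∀ b' ∈ S, P b' := by
  obtain ⟨S, hS, hSo, hbS⟩ := mem_nhds_iff.mp hP
  exact ⟨S ∩ M12.shell σ T' jw jw' jz jz', inter_subset_right,
    hSo.inter (isOpen_shell_L σ hT _ _ _ _), ⟨hbS, hb⟩, fun b' hb' => hS hb'.1⟩

theorem on_reg {S : Set (Bs k)} {y : (x : V) → M₀.St x}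
    (h : ∀ b ∈ S, M₀.On y (fib σ.e (DD σ) b)) : M₀.On y (σ.reg S) := fun x hx =>
  h _ hx.1 x (reg_fib hx)

theorem near_fib {b : Bs k} {y : (x : V) → M₀.St x} (hy : M₀.On y (fib σ.e (DD σ) b)) :
    ∀ᶠ b' in 𝓝 b, M₀.On y (fib σ.e (DD σ) b') :=
  EMod.on_near M₀ σ.e (DD σ) (isCompact_PD _ _) hy

theorem near_eq {b : Bs k} {y y' : (x : V) → M₀.St x} (hy : M₀.On y (fib σ.e (DD σ) b))
    (hy' : M₀.On y' (fib σ.e (DD σ) b)) (h : ∀ x ∈ fib σ.e (DD σ) b, y x = y' x) :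
    ∀ᶠ b' in 𝓝 b, ∀ x ∈ fib σ.e (DD σ) b', y x = y' x :=
  fib_tube σ.e (isCompact_PD _ _) fun x hx => M₀.inj (hy x hx) (hy' x hx) (h x hx)

/-- properties of `Lam y` near `b` -/
theorem lam_near (hL : M12.LamData M₀ σ T' jw jw' jz jz' Q Q' Lam) {b : Bs k}
    (hb : b ∈ M12.shell σ T' jw jw' jz jz') {y : (x : V) → M₀.St x}
    (hy : M₀.On y (fib σ.e (DD σ) b)) :
    VHolAt (Lam y) b ∧ ∀ᶠ b' in 𝓝 b, Q b' *ᵥ Lam y b' = 0 := by
  obtain ⟨S, hS, hSo, hbS, h1⟩ := reg_of_fib hL.T₀_open hb (near_fib hy)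
  have h2 := on_reg h1
  refine ⟨fun l => hL.hol S hS hSo y h2 l b hbS, ?_⟩
  filter_upwards [hSo.mem_nhds hbS] with b' hb' using hL.ker S hS hSo y h2 b' hb'

theorem lam_congr (hL : M12.LamData M₀ σ T' jw jw' jz jz' Q Q' Lam) {b : Bs k}
    (hb : b ∈ M12.shell σ T' jw jw' jz jz') {y y' : (x : V) → M₀.St x}
    (hy : M₀.On y (fib σ.e (DD σ) b)) (hy' : M₀.On y' (fib σ.e (DD σ) b))
    (h : ∀ x ∈ fib σ.e (DD σ) b, y x = y' x) : Lam y =ᶠ[𝓝 b] Lam y' := by
  obtain ⟨S, hS, hSo, hbS, h1⟩ := reg_of_fib hL.T₀_open hb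
    ((near_fib hy).and ((near_fib hy').and (near_eq hy hy' h)))
  filter_upwards [hSo.mem_nhds hbS] with b' hb'
  exact hL.congr S hS hSo y y' (on_reg fun b hb => (h1 b hb).1)
    (fun x hx => (h1 _ hx.1).2.2 x (reg_fib hx)) b' hb'

theorem lam_add (hL : M12.LamData M₀ σ T' jw jw' jz jz' Q Q' Lam) {b : Bs k}
    (hb : b ∈ M12.shell σ T' jw jw' jz jz') {y y' : (x : V) → M₀.St x}
    (hy : M₀.On y (fib σ.e (DD σ) b)) (hy' : M₀.On y' (fib σ.e (DD σ) b)) :
    Lam (fun x => y x + y' x) =ᶠ[𝓝 b] fun b => Lam y b + Lam y' b := by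
  obtain ⟨S, hS, hSo, hbS, h1⟩ := reg_of_fib hL.T₀_open hb ((near_fib hy).and (near_fib hy'))
  filter_upwards [hSo.mem_nhds hbS] with b' hb'
  exact hL.add S hS hSo y y' (on_reg fun b hb => (h1 b hb).1) (on_reg fun b hb => (h1 b hb).2)
    b' hb'

theorem lam_smul (hL : M12.LamData M₀ σ T' jw jw' jz jz' Q Q' Lam) {b : Bs k}
    (hb : b ∈ M12.shell σ T' jw jw' jz jz') {y : (x : V) → M₀.St x}
    (hy : M₀.On y (fib σ.e (DD σ) b)) {f : Bs k → ℂ} (hf : HolAt f b) :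
    Lam (fun x => om (fun x => f (σ.e x).1) x • y x) =ᶠ[𝓝 b] fun b => f b • Lam y b := by
  obtain ⟨S, hS, hSo, hbS, h1⟩ := reg_of_fib hL.T₀_open hb ((near_fib hy).and hf.eventually)
  filter_upwards [hSo.mem_nhds hbS] with b' hb'
  exact hL.smul S hS hSo y (on_reg fun b hb => (h1 b hb).1) f (fun b hb => (h1 b hb).2) b' hb'

/-- a section with vanishing germ of `Lam` vanishes on the fibre -/
theorem lam_inj (hL : M12.LamData M₀ σ T' jw jw' jz jz' Q Q' Lam)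
    (bd : ∀ b ∈ M12.shell σ T' jw jw' jz jz', ∀ x ∈ fib σ.e (DD σ) b, ‖σ.v x‖ = σ.Rv →
      Subsingleton (M₀.St x)) {b : Bs k}
    (hb : b ∈ M12.shell σ T' jw jw' jz jz') {y : (x : V) → M₀.St x}
    (hy : M₀.On y (fib σ.e (DD σ) b)) (h : Lam y =ᶠ[𝓝 b] fun _ => 0) :
    ∀ x ∈ fib σ.e (DD σ) b, y x = 0 := by
  obtain ⟨S, hS, hSo, hbS, h1⟩ := reg_of_fib hL.T₀_open hb ((near_fib hy).and h)
  intro x hx
  have h2 : ‖σ.v x‖ ≤ σ.Rv := mem_DD_L.mp hx.2
  rcases h2.lt_or_eq with h3 | h3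
  · exact hL.inj S hS hSo y (on_reg fun b hb => (h1 b hb).1) (fun b hb => (h1 b hb).2) x
      ⟨by rw [hx.1]; exact hbS, h3⟩
  · have := bd b hb x hx h3
    exact Subsingleton.elim _ _

/-- every vector of functions in the kernel of `Q` near `b` is `Lam` of a section -/
theorem lam_surj (hL : M12.LamData M₀ σ T' jw jw' jz jz' Q Q' Lam)
    (cohM : ∀ b ∈ M12.shell σ T' jw jw' jz jz', M₀.Coh (fib σ.e (DD σ) b))
    (bd : ∀ b ∈ M12.shell σ T' jw jw' jz jz', ∀ x ∈ fib σ.e (DD σ) b, ‖σ.v x‖ = σ.Rv →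
      Subsingleton (M₀.St x)) {b : Bs k}
    (hb : b ∈ M12.shell σ T' jw jw' jz jz') {u : Bs k → Fin m → ℂ} (hu : VHolAt u b)
    (hk : ∀ᶠ b' in 𝓝 b, Q b' *ᵥ u b' = 0) :
    ∃ y, (∀ᶠ b' in 𝓝 b, M₀.On y (fib σ.e (DD σ) b')) ∧ Lam y =ᶠ[𝓝 b] u := by
  obtain ⟨S, hS, hSo, hbS, h1⟩ := reg_of_fib hL.T₀_open hb (hu.eventually.and hk)
  obtain ⟨y, hy, hyu⟩ := hL.surj S hS hSo u (fun l b hb => (h1 b hb).1 l) fun b hb => (h1 b hb).2
  refine ⟨y, ?_, ?_⟩
  · filter_upwards [hSo.mem_nhds hbS] with b' hb' using fib_of_reg cohM bd hS hy b' hb'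
  · filter_upwards [hSo.mem_nhds hbS] with b' hb' using hyu b' hb'

open Classical in
/-- the map from the stalk of the direct image to the stalk of the kernel sheaf -/
noncomputable def LL (M₀ : EMod.{0, 0, w} (O V)) (σ : Sit V k d)
    (Q : Bs k → Matrix (Fin N) (Fin m) ℂ) (Lam : ((x : V) → M₀.St x) → Bs k → Fin m → ℂ)
    (b : Bs k) (μ : (EE M₀ σ).St b) : (ks Q).St b :=
  if h : ∃ s : (x : V) → M₀.St x, M₀.On s (fib σ.e (DD σ) b) ∧
    M₀.pushSec σ.e (DD σ) (isCompact_PD _ _) s b = μ then kmk Q (Lam h.choose) b else 0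

theorem LL_eq (hL : M12.LamData M₀ σ T' jw jw' jz jz' Q Q' Lam) {b : Bs k}
    (hb : b ∈ M12.shell σ T' jw jw' jz jz') (hQ : MHolAt Q b) {y : (x : V) → M₀.St x}
    (hy : M₀.On y (fib σ.e (DD σ) b)) {μ : (EE M₀ σ).St b}
    (hμ : M₀.pushSec σ.e (DD σ) (isCompact_PD _ _) y b = μ) :
    LL M₀ σ Q Lam b μ = kmk Q (Lam y) b := by
  have h : ∃ s : (x : V) → M₀.St x, M₀.On s (fib σ.e (DD σ) b) ∧
    M₀.pushSec σ.e (DD σ) (isCompact_PD _ _) s b = μ := ⟨y, hy, hμ⟩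
  rw [LL, dif_pos h]
  have h1 := h.choose_spec
  refine kmk_congr hQ (lam_near hL hb h1.1).1 (lam_near hL hb h1.1).2 ?_
  refine lam_congr hL hb h1.1 hy fun x hx => ?_
  rw [← EMod.pushVal_pushSec M₀ σ.e (DD σ) (isCompact_PD _ _) h1.1 x hx, h1.2, ← hμ,
    EMod.pushVal_pushSec M₀ σ.e (DD σ) (isCompact_PD _ _) hy x hx]

end Lam

/-- **The sheaf `ker Q` and the map `Λ`.**

`KS` is the sheaf of the vectors of germs `u` with `Q u = 0`. `Λ b m`: take a section `s` of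
`M₀` near the fibre over `b` with `pushSec s b = m`; `Λ b m` is the vector of germs of `Lam s`
at `b`. -/
theorem ksData_of_lam {M₀ : EMod.{0, 0, w} (O V)} {σ : Sit V k d} {T' : Set (Fin k → ℂ)}
    {jw jw' jz jz' : ℝ} {m N N' : ℕ} {Q : Bs k → Matrix (Fin N) (Fin m) ℂ}
    {Q' : Bs k → Matrix (Fin N') (Fin N) ℂ} {Lam : ((x : V) → M₀.St x) → Bs k → Fin m → ℂ}
    (hL : M12.LamData M₀ σ T' jw jw' jz jz' Q Q' Lam)
    (cohM : ∀ b ∈ M12.shell σ T' jw jw' jz jz', M₀.Coh (fib σ.e (DD σ) b))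
    (bd : ∀ b ∈ M12.shell σ T' jw jw' jz jz', ∀ x ∈ fib σ.e (DD σ) b, ‖σ.v x‖ = σ.Rv →
      Subsingleton (M₀.St x)) :
    ∃ (KS : EMod.{0, 0, 0} (O (Bs k))) (Λ : ∀ b, (EE M₀ σ).St b → KS.St b),
      KSData M₀ σ T' jw jw' jz jz' KS Λ := by
  have hQ := mHol_iff.mp hL.Q_hol
  have hQs : ∀ b ∈ M12.shell σ T' jw jw' jz jz', MHolAt Q b := fun b hb =>
    hQ b (shell_sub_bx hb)
  have hO : C.Oka (Bs k) := fun p => oka (V := Bs k) p
  have hdom : ∀ b ∈ M12.shell σ T' jw jw' jz jz', fib σ.e (DD σ) b ⊆ M₀.dom :=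
    fun b hb x hx => (cohM b hb x hx).self_of_nhds.1
  have hex : ∀ b ∈ M12.shell σ T' jw jw' jz jz', ∀ μ : (EE M₀ σ).St b,
      ∃ s : (x : V) → M₀.St x, M₀.On s (fib σ.e (DD σ) b) ∧
        M₀.pushSec σ.e (DD σ) (isCompact_PD _ _) s b = μ := fun b hb μ =>
    EMod.exists_pushSec M₀ σ.e (DD σ) (isCompact_PD _ _) (hdom b hb) μ
  have hinj : ∀ b ∈ M12.shell σ T' jw jw' jz jz', ∀ μ μ' : (EE M₀ σ).St b,
      LL M₀ σ Q Lam b μ = LL M₀ σ Q Lam b μ' → μ = μ' := by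
    intro b hb μ μ' h
    obtain ⟨s, hs, hsμ⟩ := hex b hb μ
    obtain ⟨s', hs', hsμ'⟩ := hex b hb μ'
    rw [LL_eq hL hb (hQs b hb) hs hsμ, LL_eq hL hb (hQs b hb) hs' hsμ'] at h
    obtain ⟨h1, h2⟩ := lam_near hL hb hs
    obtain ⟨h1', h2'⟩ := lam_near hL hb hs'
    have h3 := kmk_inj (hQs b hb) h1 h1' h2 h2' h
    -- the difference
    have hm : HolAt (fun _ : Bs k => (-1 : ℂ)) b := HolAt.const _ b
    have hsm : M₀.On (fun x => om (fun x => (-1 : ℂ)) x • s' x) (fib σ.e (DD σ) b) :=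
      fun x hx => M₀.smul (O_at_gm (HolAt.const _ x)) (hs' x hx)
    have hsd : M₀.On (fun x => s x + om (fun x => (-1 : ℂ)) x • s' x) (fib σ.e (DD σ) b) :=
      fun x hx => M₀.add (hs x hx) (hsm x hx)
    have h4 : Lam (fun x => s x + om (fun x => (-1 : ℂ)) x • s' x) =ᶠ[𝓝 b] fun _ => 0 := by
      filter_upwards [lam_add hL hb hs hsm, lam_smul hL hb hs' hm, h3] with b' e1 e2 e3
      rw [e1, e2, e3, neg_one_smul, add_neg_cancel]
    have h5 := lam_inj hL bd hb hsd h4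
    rw [← hsμ, ← hsμ']
    refine M₀.push_ext σ.e (DD σ) (isCompact_PD _ _) b _ _ fun x hx => ?_
    rw [EMod.pushVal_pushSec M₀ σ.e (DD σ) (isCompact_PD _ _) hs x hx,
      EMod.pushVal_pushSec M₀ σ.e (DD σ) (isCompact_PD _ _) hs' x hx]
    have h6 := h5 x hx
    have h7 : om (fun x : V => (-1 : ℂ)) x • s' x = - s' x := by
      have h8 : om (fun x : V => (-1 : ℂ)) x = -1 := by
        have h9 := om_neg (f := fun _ : V => (1 : ℂ)) (HolAt.const 1 x)
        rw [h9, om_one]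
      rw [h8, neg_one_smul]
    rw [h7, ← sub_eq_add_neg, sub_eq_zero] at h6
    exact h6
  refine ⟨ks Q, LL M₀ σ Q Lam, hL.T₀_open, hL.jw_pos, hL.jw_lt, hL.jz_pos, hL.jz_lt,
    ks_coh hO hQ, cohM, bd, ?_, ?_, ?_, ?_, ?_, ?_⟩
  · -- add
    intro b hb μ μ'
    obtain ⟨s, hs, hsμ⟩ := hex b hb μ
    obtain ⟨s', hs', hsμ'⟩ := hex b hb μ'
    have hss : M₀.On (fun x => s x + s' x) (fib σ.e (DD σ) b) := fun x hx =>
      M₀.add (hs x hx) (hs' x hx)
    have h1 : M₀.pushSec σ.e (DD σ) (isCompact_PD _ _) (fun x => s x + s' x) b = μ + μ' := by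
      refine M₀.push_ext σ.e (DD σ) (isCompact_PD _ _) b _ _ fun x hx => ?_
      rw [EMod.pushVal_pushSec M₀ σ.e (DD σ) (isCompact_PD _ _) hss x hx, EMod.pushVal_add,
        ← hsμ, ← hsμ', EMod.pushVal_pushSec M₀ σ.e (DD σ) (isCompact_PD _ _) hs x hx,
        EMod.pushVal_pushSec M₀ σ.e (DD σ) (isCompact_PD _ _) hs' x hx]
    rw [LL_eq hL hb (hQs b hb) hss h1, LL_eq hL hb (hQs b hb) hs hsμ,
      LL_eq hL hb (hQs b hb) hs' hsμ']
    obtain ⟨e1, e2⟩ := lam_near hL hb hs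
    obtain ⟨e1', e2'⟩ := lam_near hL hb hs'
    rw [← kmk_add (hQs b hb) e1 e1' e2 e2']
    exact kmk_congr (hQs b hb) (lam_near hL hb hss).1 (lam_near hL hb hss).2
      (lam_add hL hb hs hs')
  · -- smul
    intro b hb a μ
    obtain ⟨f, hf, rfl⟩ := exists_om a
    obtain ⟨s, hs, hsμ⟩ := hex b hb μ
    have hss : M₀.On (fun x => om (fun x => f (σ.e x).1) x • s x) (fib σ.e (DD σ) b) :=
      fun x hx => M₀.smul (O_at_gm (hf.comp_fst σ.e hx.1)) (hs x hx)
    have h1 : M₀.pushSec σ.e (DD σ) (isCompact_PD _ _)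
        (fun x => om (fun x => f (σ.e x).1) x • s x) b = om f b • μ := by
      refine M₀.push_ext σ.e (DD σ) (isCompact_PD _ _) b _ _ fun x hx => ?_
      rw [EMod.pushVal_pushSec M₀ σ.e (DD σ) (isCompact_PD _ _) hss x hx,
        EMod.pushVal_smul_om M₀ σ.e (DD σ) (isCompact_PD _ _) b hf, ← hsμ,
        EMod.pushVal_pushSec M₀ σ.e (DD σ) (isCompact_PD _ _) hs x hx]
    rw [LL_eq hL hb (hQs b hb) hss h1, LL_eq hL hb (hQs b hb) hs hsμ]
    obtain ⟨e1, e2⟩ := lam_near hL hb hs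
    rw [← kmk_smul (hQs b hb) e1 e2 hf]
    exact kmk_congr (hQs b hb) (lam_near hL hb hss).1 (lam_near hL hb hss).2
      (lam_smul hL hb hs hf)
  · -- bijective
    intro b hb
    refine ⟨fun μ μ' h => hinj b hb μ μ' h, fun c => ?_⟩
    obtain ⟨u, hu, hk, huc⟩ := exists_kmk (hQs b hb) c
    obtain ⟨y, hy, hyu⟩ := lam_surj hL cohM bd hb hu hk
    refine ⟨M₀.pushSec σ.e (DD σ) (isCompact_PD _ _) y b, ?_⟩
    rw [LL_eq hL hb (hQs b hb) hy.self_of_nhds rfl, ← huc]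
    obtain ⟨e1, e2⟩ := lam_near hL hb hy.self_of_nhds
    exact kmk_congr (hQs b hb) e1 e2 hyu
  · -- sections
    intro b hb μ
    have hsh : ∀ᶠ b' in 𝓝 b, b' ∈ M12.shell σ T' jw jw' jz jz' :=
      (isOpen_shell_L σ hL.T₀_open _ _ _ _).mem_nhds hb
    constructor
    · intro h
      obtain ⟨s, hs⟩ := (EMod.push_at M₀ σ.e (DD σ) (isCompact_PD _ _)).mp h
      have hs0 := hs.self_of_nhds.1
      obtain ⟨e1, e2⟩ := lam_near hL hb hs0
      refine (ks Q).congr (kmk_at (hQs b hb) e1 e2) ?_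
      filter_upwards [hs, hsh] with b' h1 h2
      refine (LL_eq hL h2 (hQs b' h2) h1.1 ?_).symm
      refine M₀.push_ext σ.e (DD σ) (isCompact_PD _ _) b' _ _ fun x hx => ?_
      rw [EMod.pushVal_pushSec M₀ σ.e (DD σ) (isCompact_PD _ _) h1.1 x hx, h1.2 x hx]
    · intro h
      obtain ⟨e1, e2, e3⟩ := kval_at (hQs b hb) h
      obtain ⟨y, hy, hyu⟩ := lam_surj hL cohM bd hb e1 e2
      refine (EE M₀ σ).congr (M₀.pushSec_at σ.e (DD σ) (isCompact_PD _ _) hy.self_of_nhds) ?_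
      filter_upwards [hsh, hy, e3, eventually_eventually_nhds.mpr hyu] with b' h1 h2 h3 h4
      refine hinj b' h1 _ _ ?_
      rw [LL_eq hL h1 (hQs b' h1) h2 rfl]
      obtain ⟨e1', e2'⟩ := lam_near hL h1 h2
      rw [kmk_congr (hQs b' h1) e1' e2' h4]
      exact h3.symm
  · -- Hartogs
    intro T hT hTo a A b B ha haA hA hb hbB hB s hs
    exact ks_hart hTo (hL.jw_pos.trans_le ha) haA (hL.jz_pos.trans_le hb) hbB
      (fun x hx => hQ x (bx_mono_L hT le_rfl hA le_rfl hB hx)) hs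
  · -- uniqueness
    intro T hT hTo a A b B ha haA hA hb hbB hB s hs h0
    exact ks_uniq hTo (hL.jw_pos.trans_le ha) haA (hL.jz_pos.trans_le hb) hbB
      (fun x hx => hQ x (bx_mono_L hT le_rfl hA le_rfl hB hx)) hs h0

end MF

end Pool.Agent.DQ
end
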