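import Pool.Agent.Lib.MP_4aa2a9_ag.DQ.MF5d
import Pool.Agent.Lib.MP_4aa2a9_ag.Mg.G030
import Pool.Agent.Lib.MP_4aa2a9_ag.Mg.G025
import Pool.Agent.Lib.MP_4aa2a9_ag.Mg.G029

section

/-! Campaign DQ, module M12, block (f), file MF6: presented sheaves on the base with operators, and the
map from their stalks to the stalks of the cokernel sheaf on `V`. -/

set_option autoImplicit false
set_option linter.unusedVariables false

open Set Filter Topology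

namespace Pool.Agent.DQ

namespace MF

variable {X V : Type} [NormedAddCommGroup X] [NormedSpace ℂ X] [FiniteDimensional ℂ X]
  [NormedAddCommGroup V] [NormedSpace ℂ V] [FiniteDimensional ℂ V] {ι : Type} [Fintype ι]
  {s d : ℕ}

/-- `KS` is, over the open set `U`, the cokernel of `ρ` (generators `κ`), and the matrices `N i` define
operators on it -/
structure Pres (KS : EMod.{0, 0, 0} (O X)) (U : Set X) (κ : Fin s → (b : X) → KS.St b)
    (ρ : ι → Fin s → X → ℂ) (N : Fin d → Fin s → Fin s → X → ℂ) (cc : Fin d → ℂ) (RR : Fin d → ℝ) :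
    Prop where
  U_open : IsOpen U
  on : ∀ j, KS.On (κ j) U
  gen : KS.Gen κ U
  rel : ∀ b ∈ U, KS.rel κ b = rowSp ρ b
  good : ∀ b ∈ U, Good ρ N cc RR b

variable {KS : EMod.{0, 0, 0} (O X)} {U : Set X} (κ : Fin s → (b : X) → KS.St b)
  (ρ : ι → Fin s → X → ℂ) (N : Fin d → Fin s → Fin s → X → ℂ) {cc : Fin d → ℂ} {RR : Fin d → ℝ}
  (e : V ≃L[ℂ] X × (Fin d → ℂ))

/-- the map from the stalk of `KS` at `b` to the stalk of the cokernel sheaf at a point `x` over `b`: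
`∑ c_j κ_j ↦` class of the pull back of `c` -/
noncomputable def up {x : V} {b : X} (hx : (e x).1 = b) (m : KS.St b) :
    (cok (bigRows e ρ N)).St x :=
  open Classical in
  if h : ∃ c : Fin s → (O X).St b, m = ∑ j, c j • κ j b then
    mk (bigRows e ρ N) x (pv e hx h.choose) else 0

variable {κ ρ N}

/-- Proof. The chosen `c'` with `∑ c_j κ_j = ∑ c'_j κ_j` satisfies `c' - c ∈ KS.rel κ b = rowSp ρ b`, `pv_mem_big`, `mk_eq`, `pv_sub`. -/
theorem up_comb (hP : Pres KS U κ ρ N cc RR) {x : V} {b : X} (hb : b ∈ U) (hx : (e x).1 = b)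
    (c : Fin s → (O X).St b) :
    up κ ρ N e hx (∑ j, c j • κ j b) = mk (bigRows e ρ N) x (pv e hx c) := by
  classical
  have h : ∃ c' : Fin s → (O X).St b, ∑ j, c j • κ j b = ∑ j, c' j • κ j b := ⟨c, rfl⟩
  have h1 : up κ ρ N e hx (∑ j, c j • κ j b) = mk (bigRows e ρ N) x (pv e hx h.choose) := by
    unfold up
    exact dif_pos h
  rw [h1, mk_eq, ← pv_sub]
  have h2 := h.choose_spec
  have h3 : h.choose - c ∈ rowSp ρ b := by
    rw [← hP.rel b hb]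
    change ∑ j, (h.choose - c) j • κ j b = 0
    simp only [Pi.sub_apply, sub_smul, Finset.sum_sub_distrib]
    rw [← h2, sub_self]
  exact pv_mem_big e hx (hP.good b hb).hρ h3

/-- Proof. `hP.gen`, `mem_span_fam`. -/
theorem Pres.exists_comb (hP : Pres KS U κ ρ N cc RR) {b : X} (hb : b ∈ U) (m : KS.St b) :
    ∃ c : Fin s → (O X).St b, m = ∑ j, c j • κ j b := by
  have h : m ∈ Submodule.span ((O X).St b) (range fun i => κ i b) := by
    rw [hP.gen b hb]; trivial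
  exact mem_span_fam.mp h

/-- Proof. `exists_comb`, `up_comb`, `pv_add`. -/
theorem up_add (hP : Pres KS U κ ρ N cc RR) {x : V} {b : X} (hb : b ∈ U) (hx : (e x).1 = b)
    (m m' : KS.St b) : up κ ρ N e hx (m + m') = up κ ρ N e hx m + up κ ρ N e hx m' := by
  obtain ⟨c, rfl⟩ := hP.exists_comb hb m
  obtain ⟨c', rfl⟩ := hP.exists_comb hb m'
  have h : ∑ j, c j • κ j b + ∑ j, c' j • κ j b = ∑ j, (c + c') j • κ j b := by
    simp only [Pi.add_apply, add_smul, Finset.sum_add_distrib]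
  rw [h, up_comb e hP hb hx, up_comb e hP hb hx, up_comb e hP hb hx, pv_add, map_add]

theorem up_sub (hP : Pres KS U κ ρ N cc RR) {x : V} {b : X} (hb : b ∈ U) (hx : (e x).1 = b)
    (m m' : KS.St b) : up κ ρ N e hx (m - m') = up κ ρ N e hx m - up κ ρ N e hx m' := by
  have h := up_add e hP hb hx (m - m') m'
  rw [sub_add_cancel] at h
  rw [h, add_sub_cancel_right]

theorem up_zero (hP : Pres KS U κ ρ N cc RR) {x : V} {b : X} (hb : b ∈ U) (hx : (e x).1 = b) :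
    up κ ρ N e hx (0 : KS.St b) = 0 := by
  have h := up_sub e hP hb hx (0 : KS.St b) 0
  rw [sub_zero, sub_self] at h
  exact h

/-- Proof. `bigRows_matAt` with `hP.good`. -/
theorem Pres.matAt (hP : Pres KS U κ ρ N cc RR) {x : V} (hb : (e x).1 ∈ U) :
    MatAt (bigRows e ρ N) x := by
  exact bigRows_matAt e rfl (hP.good _ hb).hρ (hP.good _ hb).hN

/-- Proof. `cok_cohAt`, `Pres.matAt`. -/
theorem Pres.cohAt (hP : Pres KS U κ ρ N cc RR) {x : V} (hb : (e x).1 ∈ U) :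
    (cok (bigRows e ρ N)).CohAt x := by
  exact cok_cohAt _ (Pres.matAt e hP hb)

/-- **Sections are mapped to sections.**

Proof. Near `b = (e x).1` the section `S` is a combination `S b' = ∑ j, om (a j) b' • κ j b'` with holomorphic `a j` (`EMod.near_comb` (DLoc), the coefficients of a section
of `(O X).free` are germs of functions: `At` for `O X`). So near `x`: `up .. (S (e y).1) = mk .. y (pv e rfl (gv a (e y).1)) = mk .. y (gv (fun j z => a j (e z).1) y)`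
(`up_comb`, `pv_gv`), and `cok_at_mk`. -/
theorem up_at (hP : Pres KS U κ ρ N cc RR) {S : (b : X) → KS.St b} {x : V} (hb : (e x).1 ∈ U)
    (hS : KS.At S (e x).1) :
    (cok (bigRows e ρ N)).At (fun y => up κ ρ N e (rfl : (e y).1 = (e y).1) (S (e y).1)) x := by
  have hg : S (e x).1 ∈ Submodule.span ((O X).St (e x).1) (range fun i => κ i (e x).1) := by
    rw [hP.gen _ hb]; trivial
  obtain ⟨c, hc, hS'⟩ := KS.near_comb (KS.mem_dom hS) hS (fun i => hP.on i _ hb) hg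
  obtain ⟨a, ha, hca⟩ := free_at_exists (Z := X) (s := s) (u := fun y i => c i y)
    (x := (e x).1) ⟨mem_univ _, hc⟩
  have hT : Tendsto (fun y : V => (e y).1) (𝓝 x) (𝓝 (e x).1) := tendsto_fst e rfl
  refine (cok _).congr (cok_at_mk _ (Pres.matAt e hP hb) (a := fun j y => a j (e y).1)
    fun j => HolAt.comp_fst e rfl (ha j)) ?_
  filter_upwards [hT.eventually hS', hT.eventually hca, hT.eventually (hP.U_open.mem_nhds hb),
    hT.eventually (eventually_all.mpr fun j => (ha j).eventually)] with y h1 h2 h3 h4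
  rw [h1]
  have h5 : ∑ i, c i (e y).1 • κ i (e y).1 = ∑ i, (gv a (e y).1) i • κ i (e y).1 := by
    refine Finset.sum_congr rfl fun i _ => ?_
    have := congrFun h2 i
    exact congrArg (fun z => z • κ i (e y).1) this
  rw [h5, up_comb e hP h3 rfl, pv_gv e rfl h4]

/-- **Injectivity on the fibre.** Proof. `exists_comb`, `up_comb`, `mk_eq`, `pv_sub`: `big_inj` for `c - c'`; then `c - c' ∈ rowSp ρ b = KS.rel κ b`. -/
theorem up_inj (hP : Pres KS U κ ρ N cc RR) {b : X} (hb : b ∈ U) (m m' : KS.St b)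
    (h : ∀ x (hx : x ∈ fib e (PD cc RR) b), up κ ρ N e hx.1 m = up κ ρ N e hx.1 m') : m = m' := by
  obtain ⟨c, rfl⟩ := hP.exists_comb hb m
  obtain ⟨c', rfl⟩ := hP.exists_comb hb m'
  have h1 : c - c' ∈ rowSp ρ b := by
    refine big_inj d e (hP.good b hb) (c - c') fun x hx => ?_
    have h2 := h x hx
    rw [up_comb e hP hb hx.1, up_comb e hP hb hx.1, mk_eq, ← pv_sub] at h2
    exact h2
  rw [← hP.rel b hb] at h1
  have h3 : ∑ j, (c - c') j • κ j b = 0 := h1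
  simp only [Pi.sub_apply, sub_smul, Finset.sum_sub_distrib] at h3
  exact sub_eq_zero.1 h3

/-- **Surjectivity on the fibre.** Proof. `classical`; choose `u x` with `mk _ x (u x) = σ x` (`mk_surj`); `SecMod` on the fibre by `secMod_of_at_mk`
(`(cok _).congr`); `big_surj`; `m := ∑ j, c j • κ j b`, `up_comb`, `mk_eq`. -/
theorem up_surj (hP : Pres KS U κ ρ N cc RR) {b : X} (hb : b ∈ U)
    {σ : (x : V) → (cok (bigRows e ρ N)).St x} (hσ : (cok (bigRows e ρ N)).On σ (fib e (PD cc RR) b)) :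
    ∃ m : KS.St b, ∀ x (hx : x ∈ fib e (PD cc RR) b), σ x = up κ ρ N e hx.1 m := by
  classical
  choose u hu using fun x => mk_surj (bigRows e ρ N) x (σ x)
  have hu' : (fun x => mk (bigRows e ρ N) x (u x)) = σ := funext hu
  obtain ⟨c, hc⟩ := big_surj d e (hP.good b hb) u fun x hx => by
    refine secMod_of_at_mk ?_
    rw [hu']
    exact hσ x hx
  refine ⟨∑ j, c j • κ j b, fun x hx => ?_⟩
  rw [up_comb e hP hb hx.1, ← hu x, mk_eq]
  exact hc x hx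

/-- Proof. `big_top` (`hP.good`): every class is `0` (`mk_surj`, `mk_eq_zero`). -/
theorem cok_triv (hP : Pres KS U κ ρ N cc RR) {x : V} (hb : (e x).1 ∈ U) {i : Fin d}
    (hv : RR i ≤ ‖(e x).2 i - cc i‖) : Subsingleton ((cok (bigRows e ρ N)).St x) := by
  have h := big_top e rfl (hP.good _ hb) hv
  refine subsingleton_of_forall_eq 0 fun m => ?_
  obtain ⟨c, rfl⟩ := mk_surj (bigRows e ρ N) x m
  rw [mk_eq_zero, h]
  trivial

/-- **Sections of the cokernel sheaf near the fibres over an open set `T` are given by sections of `KS` over `T`.**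

Proof. For every `b ∈ T` choose `S b` with `σ x = up .. (S b)` on the fibre over `b` (`up_surj`); `S b := 0` for `b ∉ T`. `S` is a section near `b ∈ T`: let `S'` be a section of
`KS` near `b` with `S' b = S b` (`KS.surj`; `b ∈ KS.dom` because `κ j` or: `hP.on`; if `s = 0` use `hdom`). On the fibre over `b` the sections `σ` and `fun y => up .. (S' (e y).1)` (`up_at`) agree at all points, hence
near every point of the fibre (`(cok _).inj`); by `fib_tube` (`isCompact_PD`) they agree on the fibres over all `b'` near `b`; by `up_inj` `S b' = S' b'` there (`b' ∈ T ∩ U`). `KS.congr`. -/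
theorem exists_down (hP : Pres KS U κ ρ N cc RR) {T : Set X} (hT : IsOpen T) (hTU : T ⊆ U)
    (hdom : U ⊆ KS.dom) {σ : (x : V) → (cok (bigRows e ρ N)).St x}
    (hσ : ∀ b ∈ T, (cok (bigRows e ρ N)).On σ (fib e (PD cc RR) b)) :
    ∃ S : (b : X) → KS.St b, KS.On S T ∧
      ∀ b ∈ T, ∀ x (hx : x ∈ fib e (PD cc RR) b), σ x = up κ ρ N e hx.1 (S b) := by
  classical
  have hch : ∀ b ∈ T, ∃ m : KS.St b, ∀ x (hx : x ∈ fib e (PD cc RR) b), σ x = up κ ρ N e hx.1 m :=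
    fun b hb => up_surj e hP (hTU hb) (hσ b hb)
  let S : (b : X) → KS.St b := fun b => if h : b ∈ T then (hch b h).choose else 0
  have hSb : ∀ b ∈ T, ∀ x (hx : x ∈ fib e (PD cc RR) b), σ x = up κ ρ N e hx.1 (S b) := by
    intro b hb
    have h1 : S b = (hch b hb).choose := dif_pos hb
    rw [h1]
    exact (hch b hb).choose_spec
  refine ⟨S, fun b hb => ?_, hSb⟩
  obtain ⟨S', hS', hSS'⟩ := KS.surj b (hdom (hTU hb)) (S b)
  have h1 : ∀ x ∈ fib e (PD cc RR) b, ∀ᶠ y in 𝓝 x,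
      σ y = up κ ρ N e (rfl : (e y).1 = (e y).1) (S' (e y).1) := by
    intro x hx
    have hxb : (e x).1 = b := hx.1
    subst hxb
    refine (cok _).inj (hσ _ hb x hx) (up_at e hP (hTU hb) hS') ?_
    rw [hSS']
    exact hSb _ hb x hx
  have h2 := fib_tube e (isCompact_PD cc RR) h1
  refine KS.congr hS' ?_
  filter_upwards [h2, hT.mem_nhds hb] with b' h3 h4
  refine up_inj e hP (hTU h4) _ _ fun x hx => ?_
  have h5 := h3 x hx
  have h6 := hSb b' h4 x hx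
  have hxb : (e x).1 = b' := hx.1
  subst hxb
  rw [← h6, h5]

end MF

end Pool.Agent.DQ
end

section

/-! Campaign DQ, module M12, block (f), file MF8g: the presentation of `KS` with its operators. -/

set_option autoImplicit false
set_option linter.unusedVariables false

open Set Filter Topology

namespace Pool.Agent.DQ

namespace MF

universe w

variable {V : Type} [NormedAddCommGroup V] [NormedSpace ℂ V] [FiniteDimensional ℂ V] {k d : ℕ}
  {M₀ : EMod.{0, 0, w} (O V)} {σ : Sit V k d} {T' : Set (Fin k → ℂ)} {jw jw' jz jz' : ℝ}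
  {KS : EMod.{0, 0, 0} (O (Bs k))} {Λ : ∀ b, (EE M₀ σ).St b → KS.St b}

/-- **From `Act` to `Pres`.**

Proof. `U = oB σ τ A B` (`isOpen_oB`). `good` at `b ∈ U`: `hρ`, `hN` from `ha`. The next two hold at all points `y ∈ U`. `stab`: if `c ∈ rowSp ρ y = KS.rel κ y` then `∑ j, (Nop (N i) y c) j • κ j y = f i y (∑ j, c j • κ j y) = f i y 0 = 0`
(`hom_comb`, `HomAt.map_zero`). `comm`: `∑ j, (Nop (N i) y (Nop (N i') y c) - Nop (N i') y (Nop (N i) y c)) j • κ j y = f i y (f i' y m) - f i' y (f i y m) = 0` with `m = ∑ j, c j • κ j y` (`hom_comb` twice, `Act.comm`).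
`kill`: `kill_of_surj` with `R₀ = σ.Rv`, `c₀ = cc σ i`, `hsurj` from `Act.surj`. -/
theorem Act.pres (h : KSData M₀ σ T' jw jw' jz jz' KS Λ) {τ A B : ℝ}
    (hT : Metric.ball σ.t₀ τ ⊆ T') (hA : jw < A) (hA' : A ≤ jw') (hB : jz < B) (hB' : B ≤ jz')
    {s q : ℕ} {κ : Fin s → (b : Bs k) → KS.St b} {ρ : Fin q → Fin s → Bs k → ℂ}
    {N : Fin d → Fin s → Fin s → Bs k → ℂ} {f : Fin d → (b : Bs k) → KS.St b → KS.St b}
    (ha : Act M₀ σ jw jz KS Λ τ A B κ ρ N f) :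
    Pres KS (oB σ τ A B) κ ρ N (cc σ) (RR σ) := by
  have hU : IsOpen (oB σ τ A B) := isOpen_oB σ τ A B
  have hcomb : ∀ i, ∀ y ∈ oB σ τ A B, ∀ c : Fin s → (O (Bs k)).St y,
      f i y (∑ j, c j • κ j y) = ∑ j, (Nop (N i) y c) j • κ j y := fun i y hy c =>
    hom_comb (ha.hom i y hy) (ha.f_κ i y hy) c
  have hrel : ∀ y ∈ oB σ τ A B, ∀ c : Fin s → (O (Bs k)).St y,
      c ∈ rowSp ρ y ↔ ∑ j, c j • κ j y = 0 := by
    intro y hy c
    rw [← ha.rel y hy]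
    rfl
  refine ⟨hU, ha.κ_on, ha.gen, ha.rel, fun b hb => ?_⟩
  refine ⟨ha.ρ_hol b hb, fun i => ha.N_hol i b hb, ?_, ?_, ?_⟩
  · filter_upwards [hU.mem_nhds hb] with y hy i c hc
    rw [hrel y hy, ← hcomb i y hy, (hrel y hy c).1 hc, (ha.hom i y hy).map_zero]
  · filter_upwards [hU.mem_nhds hb] with y hy i i' c
    rw [hrel y hy]
    simp only [Pi.sub_apply, sub_smul, Finset.sum_sub_distrib]
    rw [← hcomb i y hy, ← hcomb i' y hy, ← hcomb i' y hy, ← hcomb i y hy,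
      ha.comm h hT hA hA' hB hB' i i' hy, sub_self]
  · intro i
    exact kill_of_surj hU ha.κ_on ha.gen ha.ρ_hol ha.rel (ha.N_hol i) (ha.hom i) (ha.f_κ i) hb
      (fun c₁ hc₁ => ha.surj h hT hA hA' hB hB' i hc₁ hb)

/-- **Result of the files MF8.**

Proof. `exists_radius` gives `τ₁ > τ₀`; take `τ₂` between, `A₂`, `A₁` with `A₀ < A₂ < A₁ < jw'`, the same for `B`. `exists_act`, `Act.pres`, `Act.f_Λ`, `Act.f_κ`; `cB_subset_oB`. The last statement: if `Λ b m = κ j b` then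
`Λ b (vm M₀ σ i b m) = f i b (Λ b m) = f i b (κ j b)`. A point of `oB σ τ₂ A₂ B₂` in the big shell is in the shell over the ball (`mem_shell_of_mem`).
`U ⊆ KS.dom`: `h.coh` (`EMod.CohAt` contains `x ∈ dom`) on `cB σ τ₁ A₁ B₁`. -/
theorem exists_pres (h : KSData M₀ σ T' jw jw' jz jz' KS Λ) {τ₀ A₀ B₀ : ℝ} (hτ₀ : 0 < τ₀)
    (hT : Metric.closedBall σ.t₀ τ₀ ⊆ T') (hA₀ : jw < A₀) (hA₀' : A₀ < jw') (hB₀ : jz < B₀)
    (hB₀' : B₀ < jz') :
    ∃ (s q : ℕ) (κ : Fin s → (b : Bs k) → KS.St b) (ρ : Fin q → Fin s → Bs k → ℂ)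
      (N : Fin d → Fin s → Fin s → Bs k → ℂ) (U : Set (Bs k)),
      Pres KS U κ ρ N (cc σ) (RR σ) ∧ cB σ τ₀ A₀ B₀ ⊆ U ∧ U ⊆ KS.dom ∧
      ∀ b ∈ U, b ∈ M12.shell σ T' jw jw' jz jz' → ∀ i j m, Λ b m = κ j b →
        Λ b (vm M₀ σ i b m) = ∑ l, om (N i j l) b • κ l b := by
  obtain ⟨τ₁, hτ₁, hT₁⟩ := exists_radius σ h.T_open hT
  obtain ⟨τ₂, hτ₂, hτ₂'⟩ := exists_between hτ₁
  obtain ⟨A₁, hA₁, hA₁'⟩ := exists_between hA₀'
  obtain ⟨A₂, hA₂, hA₂'⟩ := exists_between hA₁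
  obtain ⟨B₁, hB₁, hB₁'⟩ := exists_between hB₀'
  obtain ⟨B₂, hB₂, hB₂'⟩ := exists_between hB₁
  have hTb : Metric.ball σ.t₀ τ₂ ⊆ T' :=
    (Metric.ball_subset_closedBall.trans (Metric.closedBall_subset_closedBall hτ₂'.le)).trans hT₁
  obtain ⟨s, q, κ, ρ, N, f, ha⟩ := exists_act h (hτ₀.trans hτ₂) hτ₂' hT₁ (hA₀.trans hA₂) hA₂'
    hA₁' (hB₀.trans hB₂) hB₂' hB₁'
  refine ⟨s, q, κ, ρ, N, oB σ τ₂ A₂ B₂, ha.pres h hTb (hA₀.trans hA₂) (hA₂'.trans hA₁').le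
    (hB₀.trans hB₂) (hB₂'.trans hB₁').le, cB_subset_oB σ hτ₂ hA₂ hB₂, ?_, ?_⟩
  · intro b hb
    exact (h.coh.cohAt (bx_mono σ hTb (hA₂'.trans hA₁').le (hB₂'.trans hB₁').le hb)).1
  · intro b hb hsh i j m hm
    have hmem : b ∈ M12.shell σ (Metric.ball σ.t₀ τ₂) jw A₂ jz B₂ := mem_shell_of_mem σ hb hsh
    rw [← ha.f_Λ i b hmem m, hm, ha.f_κ i b hb j]

end MF

end Pool.Agent.DQ
end

section

/-! Campaign DQ, module M12, block (f), file MF9a: the isomorphism `θ` over the shell. -/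

set_option autoImplicit false
set_option linter.unusedVariables false

open Set Filter Topology

namespace Pool.Agent.DQ

namespace MF

universe w

variable {V : Type} [NormedAddCommGroup V] [NormedSpace ℂ V] [FiniteDimensional ℂ V] {k d : ℕ}
  {M₀ : EMod.{0, 0, w} (O V)} {σ : Sit V k d} {T' : Set (Fin k → ℂ)} {jw jw' jz jz' : ℝ}
  {KS : EMod.{0, 0, 0} (O (Bs k))} {Λ : ∀ b, (EE M₀ σ).St b → KS.St b}

omit [FiniteDimensional ℂ V] in
private theorem Lam_zero (h : KSData M₀ σ T' jw jw' jz jz' KS Λ) {b : Bs k}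
    (hb : b ∈ M12.shell σ T' jw jw' jz jz') : Λ b 0 = 0 := by
  have h1 := h.add b hb 0 0
  rw [add_zero] at h1
  exact left_eq_add.mp h1

omit [FiniteDimensional ℂ V] in
private theorem Lam_sum (h : KSData M₀ σ T' jw jw' jz jz' KS Λ) {b : Bs k}
    (hb : b ∈ M12.shell σ T' jw jw' jz jz') {ι : Type} (I : Finset ι)
    (c : ι → (O (Bs k)).St b) (μ : ι → (EE M₀ σ).St b) :
    Λ b (∑ i ∈ I, c i • μ i) = ∑ i ∈ I, c i • Λ b (μ i) := by
  classical
  induction I using Finset.induction_on with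
  | empty => rw [Finset.sum_empty, Finset.sum_empty, Lam_zero h hb]
  | insert a I ha ih =>
    rw [Finset.sum_insert ha, Finset.sum_insert ha, h.add b hb, h.smul b hb, ih]

private theorem om_sub' {W : Type} [NormedAddCommGroup W] [NormedSpace ℂ W] {f g : W → ℂ} {x : W}
    (hf : HolAt f x) (hg : HolAt g x) : om (fun y => f y - g y) x = om f x - om g x := by
  have h1 := om_add (hf.sub hg) hg
  have h2 : (fun y => f y - g y + g y) = f := by
    funext y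
    ring
  rw [h2] at h1
  exact eq_sub_of_add_eq h1.symm

/-- **Sections of `M₀` corresponding to the generators.**

Proof. `exists_inv` for each `κ j` on `S₁` gives `μ j`; `EMod.push_on` (file SExt, `S₁` open) gives sections `m j` of `M₀` near the fibres over `S₁` with `pushVal (μ j b) x = m j x`; then
`pushSec (m j) b = μ j b` by `push_ext`, `pushVal_pushSec`. -/
theorem exists_mj (h : KSData M₀ σ T' jw jw' jz jz' KS Λ) {S₁ : Set (Bs k)} (hS₁ : IsOpen S₁)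
    (hsub : S₁ ⊆ M12.shell σ T' jw jw' jz jz') {s : ℕ} {κ : Fin s → (b : Bs k) → KS.St b}
    (hκ : ∀ j, KS.On (κ j) S₁) :
    ∃ m : Fin s → (x : V) → M₀.St x, (∀ j, ∀ b ∈ S₁, M₀.On (m j) (fib σ.e (DD σ) b)) ∧
      ∀ j, ∀ b ∈ S₁, Λ b (M₀.pushSec σ.e (DD σ) (isCompact_PD _ _) (m j) b) = κ j b := by
  classical
  have h0 : ∀ j, ∃ μ : (b : Bs k) → (EE M₀ σ).St b, (EE M₀ σ).On μ S₁ ∧
      ∀ b ∈ S₁, Λ b (μ b) = κ j b := fun j => exists_inv h hS₁ hsub (hκ j)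
  choose μ hμ hμΛ using h0
  have h1 := fun j => (EMod.push_on M₀ σ.e (DD σ) (isCompact_PD _ _) hS₁ (μ j)).1 (hμ j)
  choose m hm hval using h1
  refine ⟨m, fun j b hb => hm j b hb, fun j b hb => ?_⟩
  have h2 : M₀.pushSec σ.e (DD σ) (isCompact_PD _ _) (m j) b = μ j b := by
    refine M₀.push_ext _ _ _ b _ _ fun x hx => ?_
    rw [EMod.pushVal_pushSec M₀ _ _ _ (hm j b hb)]
    exact (hval j b hb x hx).symm
  rw [h2, hμΛ j b hb]

/-- **The homomorphism `θ`.**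

Proof. Let `m j` be from `exists_mj`, `A = bigRows σ.e ρ N`, `F = cok A`. Let `B₀` be the set of all `y : V` such that all `m j` are sections of `M₀` at `y`, `MatAt A y`, and `∑ j, om (A k j) y • m j y = 0` for all rows `k`. `B₀` is open (the first two conditions are
open; the third: the section `∑ j, om (A k j) • m j` vanishes at `y`, hence near `y`, `M₀.inj` with `M₀.zero`, finitely many `k`). It contains the points `x` over `S₁` with `(σ.e x).2 ∈ DD σ`: with `b = (σ.e x).1`, `μ_j = pushSec (m j) b`: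
rows `inl k`: `Λ b (∑ j, om (ρ k j) b • μ_j) = ∑ j, om (ρ k j) b • κ j b = 0` (the row is in `rowSp ρ b = KS.rel κ b`), so `∑ j, om (ρ k j) b • μ_j = 0` (`h.bij`), and `pushVal` at `x` (`pushVal_sum`, `pushVal_smul_om`, `pushVal_pushSec`);
rows `inr (i, j)`: `Λ b (vm μ_j) = ∑ l, om (N i j l) b • κ l b` (`hact`) `= Λ b (∑ l, om (N i j l) b • μ_l)`, so `vm μ_j = ∑ l, om (N i j l) b • μ_l`, and `pushVal` at `x` (`pushVal_mulC`).
`exists_hom` (file MHom) with `M = F`, `N = M₀`, `g = cokE A`, relations the rows (reindex `ι ⊕ (Fin d × Fin s) ≃ Fin q`, `Fintype.equivFin`; `cok_rel`), `ν = m`, `B = B₀` gives `θ` with `HomAt F M₀ θ y` on `B₀` and `θ y (cokE A j y) = m j y`.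
The formula: let `b ∈ S₁`, `n ∈ (EE M₀ σ).St b`, `Λ b n = ∑ c_j • κ j b` (`Pres.exists_comb`), so `n = ∑ c_j • μ_j` (`h.bij`, `h.add`, `h.smul`). `up (Λ b n) = mk A x (pv c) = ∑ j, (pv c) j • cokE A j x` (`up_comb`, `mk_eq_sum`), so
`θ x (up (Λ b n)) = ∑ j, pullS (c j) • m j x` (`HomAt.map_sum`) `= pushVal (∑ c_j • μ_j) x` (`pushVal_sum`, `pushVal_smul`). -/
theorem exists_theta (h : KSData M₀ σ T' jw jw' jz jz' KS Λ) {s q : ℕ} {U : Set (Bs k)}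
    {κ : Fin s → (b : Bs k) → KS.St b} {ρ : Fin q → Fin s → Bs k → ℂ}
    {N : Fin d → Fin s → Fin s → Bs k → ℂ} (hP : Pres KS U κ ρ N (cc σ) (RR σ))
    {S₁ : Set (Bs k)} (hS₁ : IsOpen S₁) (hsub : S₁ ⊆ M12.shell σ T' jw jw' jz jz') (hU : S₁ ⊆ U)
    (hact : ∀ b ∈ S₁, ∀ i j m, Λ b m = κ j b →
      Λ b (vm M₀ σ i b m) = ∑ l, om (N i j l) b • κ l b) :
    ∃ θ : ∀ x, (cok (bigRows σ.e ρ N)).St x → M₀.St x,
      (∀ x, (σ.e x).1 ∈ S₁ → (σ.e x).2 ∈ DD σ → HomAt (cok (bigRows σ.e ρ N)) M₀ θ x) ∧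
      ∀ b ∈ S₁, ∀ (n : (EE M₀ σ).St b) x (hx : x ∈ fib σ.e (DD σ) b),
        θ x (up κ ρ N σ.e hx.1 (Λ b n)) = M₀.pushVal σ.e (DD σ) (isCompact_PD _ _) b n x hx := by
  classical
  obtain ⟨m, hm, hmΛ⟩ := exists_mj h hS₁ hsub (fun j b hb => hP.on j b (hU hb))
  obtain ⟨Q, ⟨ε⟩⟩ : ∃ Q : ℕ, Nonempty (Fin q ⊕ (Fin d × Fin s) ≃ Fin Q) :=
    ⟨_, ⟨Fintype.equivFin _⟩⟩
  -- the elements of the direct image
  have hμ : ∀ b ∈ S₁, ∀ x (hx : x ∈ fib σ.e (DD σ) b), ∀ j,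
      M₀.pushVal σ.e (DD σ) (isCompact_PD _ _) b
        (M₀.pushSec σ.e (DD σ) (isCompact_PD _ _) (m j) b) x hx = m j x := fun b hb x hx j =>
    EMod.pushVal_pushSec M₀ _ _ _ (hm j b hb) x hx
  -- the relations
  have hrel1 : ∀ b ∈ S₁, ∀ l, ∑ j, om (ρ l j) b •
      (M₀.pushSec σ.e (DD σ) (isCompact_PD _ _) (m j) b : (EE M₀ σ).St b) = 0 := by
    intro b hb l
    apply (h.bij b (hsub hb)).1
    rw [Lam_sum h (hsub hb), Lam_zero h (hsub hb)]
    have h1 : gv (ρ l) b ∈ KS.rel κ b := by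
      rw [hP.rel b (hU hb)]
      exact Submodule.subset_span ⟨l, rfl⟩
    rw [← (show ∑ j, gv (ρ l) b j • κ j b = 0 from h1)]
    exact Finset.sum_congr rfl fun j _ => by rw [hmΛ j b hb]; rfl
  have hrel2 : ∀ b ∈ S₁, ∀ i p, vm M₀ σ i b
      (M₀.pushSec σ.e (DD σ) (isCompact_PD _ _) (m p) b) = ∑ l, om (N i p l) b •
      (M₀.pushSec σ.e (DD σ) (isCompact_PD _ _) (m l) b : (EE M₀ σ).St b) := by
    intro b hb i p
    apply (h.bij b (hsub hb)).1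
    rw [hact b hb i p _ (hmΛ p b hb), Lam_sum h (hsub hb)]
    exact Finset.sum_congr rfl fun l _ => by rw [hmΛ l b hb]
  -- the set
  obtain ⟨B₀, hB₀⟩ : ∃ B₀ : Set V, B₀ = {y | y ∈ M₀.dom ∧ (∀ j, M₀.At (m j) y) ∧
      MatAt (bigRows σ.e ρ N) y ∧ ∀ k', ∑ j, om (bigRows σ.e ρ N k' j) y • m j y = 0} := ⟨_, rfl⟩
  have hB₀o : IsOpen B₀ := by
    rw [isOpen_iff_mem_nhds]
    intro y hy
    rw [hB₀] at hy
    obtain ⟨h1, h2, h3, h4⟩ := hy
    have h5 : ∀ k', ∀ᶠ z in 𝓝 y, ∑ j, om (bigRows σ.e ρ N k' j) z • m j z =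
        (0 : (z : V) → M₀.St z) z := fun k' =>
      M₀.inj (M₀.comb h1 (fun j => O_at_gm (h3 k' j)) h2) (M₀.zero y h1) (h4 k')
    filter_upwards [M₀.isOpen_dom.mem_nhds h1, eventually_all.mpr fun j => M₀.ev (h2 j), h3.ev,
      eventually_all.mpr h5] with z z1 z2 z3 z4
    rw [hB₀]
    exact ⟨z1, z2, z3, z4⟩
  have hmemB : ∀ x, (σ.e x).1 ∈ S₁ → (σ.e x).2 ∈ DD σ → x ∈ B₀ := by
    intro x hx1 hx2
    obtain ⟨b, hb⟩ : ∃ b, (σ.e x).1 = b := ⟨_, rfl⟩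
    have hxf : x ∈ fib σ.e (DD σ) b := ⟨hb, hx2⟩
    rw [hb] at hx1
    rw [hB₀]
    refine ⟨((h.cohM b (hsub hx1)).cohAt hxf).1, fun j => hm j b hx1 x hxf,
      hP.matAt σ.e (by rw [hb]; exact hU hx1), ?_⟩
    have hgood := hP.good b (hU hx1)
    rintro (l | ⟨i, p⟩)
    · have h1 := congrArg (fun z => M₀.pushVal σ.e (DD σ) (isCompact_PD _ _) b z x hxf)
        (hrel1 b hx1 l)
      simp only [EMod.pushVal_sum] at h1
      rw [EMod.pushVal_zero] at h1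
      rw [← h1]
      refine Finset.sum_congr rfl fun j _ => ?_
      rw [EMod.pushVal_smul_om _ _ _ _ _ (hgood.hρ l j), hμ b hx1 x hxf j]
      rfl
    · have h1 := congrArg (fun z => M₀.pushVal σ.e (DD σ) (isCompact_PD _ _) b z x hxf)
        (hrel2 b hx1 i p)
      simp only [EMod.pushVal_sum] at h1
      have h2 : M₀.pushVal σ.e (DD σ) (isCompact_PD _ _) b (vm M₀ σ i b
          (M₀.pushSec σ.e (DD σ) (isCompact_PD _ _) (m p) b)) x hxf =
          om (fun y => (σ.e y).2 i) x • m p x := by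
        rw [← hμ b hx1 x hxf p]
        rfl
      rw [h2] at h1
      have h3 : ∀ l, om (bigRows σ.e ρ N (Sum.inr (i, p)) l) x • m l x =
          (if p = l then om (fun y => (σ.e y).2 i) x • m l x else 0) -
            om (fun y => N i p l (σ.e y).1) x • m l x := by
        intro l
        have hN : HolAt (fun y => N i p l (σ.e y).1) x := (hgood.hN i p l).comp_fst σ.e hb
        have hv : HolAt (fun y => (σ.e y).2 i) x :=
          holAt_fibc σ.e (ContinuousLinearEquiv.refl ℂ (Fin d → ℂ)) i x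
        by_cases hpl : p = l
        · have h4 : bigRows σ.e ρ N (Sum.inr (i, p)) l =
              fun y => (σ.e y).2 i - N i p l (σ.e y).1 := by
            funext y
            simp only [bigRows, if_pos hpl]
          rw [h4, if_pos hpl, om_sub' hv hN, sub_smul]
        · have h4 : bigRows σ.e ρ N (Sum.inr (i, p)) l =
              fun y => (fun _ => (0 : ℂ)) y - N i p l (σ.e y).1 := by
            funext y
            simp only [bigRows, if_neg hpl]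
          rw [h4, if_neg hpl, om_sub' (HolAt.const 0 x) hN, om_zero, sub_smul, zero_smul]
      rw [Finset.sum_congr rfl fun l _ => h3 l, Finset.sum_sub_distrib, Finset.sum_ite_eq,
        if_pos (Finset.mem_univ _), h1, sub_eq_zero]
      refine Finset.sum_congr rfl fun l _ => ?_
      rw [EMod.pushVal_smul_om _ _ _ _ _ (hgood.hN i p l), hμ b hx1 x hxf l]
  -- the homomorphism
  obtain ⟨θ, hθ1, hθ2⟩ := exists_hom (cok (bigRows σ.e ρ N)) M₀ (cokE (bigRows σ.e ρ N))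
    (fun l j y => om (bigRows σ.e ρ N (ε.symm l) j) y) m B₀ hB₀o
    (fun j y hy => by
      rw [hB₀] at hy
      exact cokE_at _ j hy.2.2.1)
    (cokE_gen _ _)
    (fun y hy => by
      rw [cok_rel]
      have h1 : (fun l => fun j => om (bigRows σ.e ρ N (ε.symm l) j) y) =
        (fun k' => gv (bigRows σ.e ρ N k') y) ∘ ε.symm := rfl
      rw [h1, ε.symm.surjective.range_comp]
      rfl)
    (fun j y hy => by
      rw [hB₀] at hy
      exact hy.2.1 j)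
    (fun y hy => by
      rw [hB₀] at hy
      exact hy.1)
    (fun y hy => by
      rw [hB₀] at hy
      exact (mem_cok_dom _).2 hy.2.2.1)
    (fun y hy l => by
      rw [hB₀] at hy
      exact hy.2.2.2 (ε.symm l))
  refine ⟨θ, fun x hx1 hx2 => hθ1 x (hmemB x hx1 hx2), fun b hb n x hx => ?_⟩
  have hxB : x ∈ B₀ := hmemB x (by rw [hx.1]; exact hb) hx.2
  obtain ⟨c, hc⟩ := hP.exists_comb (hU hb) (Λ b n)
  have hn : n = ∑ j, c j • (M₀.pushSec σ.e (DD σ) (isCompact_PD _ _) (m j) b : (EE M₀ σ).St b) := by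
    apply (h.bij b (hsub hb)).1
    rw [hc, Lam_sum h (hsub hb)]
    exact Finset.sum_congr rfl fun j _ => by rw [hmΛ j b hb]
  rw [hc, up_comb σ.e hP (hU hb) hx.1 c, mk_eq_sum, (hθ1 x hxB).map_sum, hn, EMod.pushVal_sum]
  refine Finset.sum_congr rfl fun j _ => ?_
  rw [EMod.pushVal_smul, hμ b hb x hx j, hθ2 x hxB j]
  rfl

/-- **`θ` is bijective.**

Proof. Surjective: `g : M₀.St x`; `exists_ext_zero` (file MF7) for `F = M₀` (`h.cohM`, `h.bd`: if `‖(σ.e x).2 i - cc σ i‖ = σ.Rv` for some `i` then `‖σ.v x‖ = σ.Rv` as `(σ.e x).2` is in the polydisc, `pi_norm_le_iff_of_nonneg`,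
`norm_le_pi_norm`) gives a section `s` near the fibre with `s x = g`; `n = pushSec s b`; `θ x (up (Λ b n)) = pushVal n x = s x = g` (`hθ`).
Injective: let `θ x g' = 0` (`θ x` is additive: `HomAt.map_add`, `injective_iff_map_eq_zero`-like argument with differences). `exists_ext_zero` for `F = cok _` (coherent near the fibre: `Pres.cohAt` and `hP.U_open`; trivial at the
boundary: `cok_triv`) gives `s'` with `s' x = g'`, `s' y = 0` at the other points of the fibre. `up_surj`: `s' y = up m'` on the fibre, `m' = Λ b n` (`h.bij`). For all `y` in the fibre `pushVal n y = θ y (s' y) = 0` (`y = x`: hypothesis; `y ≠ x`: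
`HomAt.map_zero`). So `n = 0` (`push_ext`), `m' = Λ b 0 = 0` (`h.add`), `g' = up 0 = 0` (`up_zero`). -/
theorem theta_bij (h : KSData M₀ σ T' jw jw' jz jz' KS Λ) {s q : ℕ} {U : Set (Bs k)}
    {κ : Fin s → (b : Bs k) → KS.St b} {ρ : Fin q → Fin s → Bs k → ℂ}
    {N : Fin d → Fin s → Fin s → Bs k → ℂ} (hP : Pres KS U κ ρ N (cc σ) (RR σ))
    {S₁ : Set (Bs k)} (hS₁ : IsOpen S₁) (hsub : S₁ ⊆ M12.shell σ T' jw jw' jz jz') (hU : S₁ ⊆ U)
    {θ : ∀ x, (cok (bigRows σ.e ρ N)).St x → M₀.St x}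
    (hhom : ∀ x, (σ.e x).1 ∈ S₁ → (σ.e x).2 ∈ DD σ → HomAt (cok (bigRows σ.e ρ N)) M₀ θ x)
    (hθ : ∀ b ∈ S₁, ∀ (n : (EE M₀ σ).St b) x (hx : x ∈ fib σ.e (DD σ) b),
      θ x (up κ ρ N σ.e hx.1 (Λ b n)) = M₀.pushVal σ.e (DD σ) (isCompact_PD _ _) b n x hx) :
    ∀ b ∈ S₁, ∀ x ∈ fib σ.e (DD σ) b, Function.Bijective (θ x) := by
  classical
  intro b hb x hx
  have hbs := hsub hb
  have hxb : (σ.e x).1 ∈ S₁ := by rw [hx.1]; exact hb
  have hHom := hhom x hxb hx.2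
  have hRR : ∀ i, 0 < RR σ i := fun _ => σ.Rv_pos
  constructor
  · intro g₁ g₂ h12
    have h0 : θ x (g₁ - g₂) = 0 := by
      have h1 := hHom.map_add (g₁ - g₂) g₂
      rw [sub_add_cancel, h12] at h1
      exact right_eq_add.mp h1
    have hcoh : (cok (bigRows σ.e ρ N)).Coh (fib σ.e (DD σ) b) := by
      intro y hy
      filter_upwards [(tendsto_fst σ.e hy.1).eventually (hP.U_open.mem_nhds (hU hb))] with z hz
      exact hP.cohAt σ.e hz
    obtain ⟨s', hs', hsx, hsy⟩ := exists_ext_zero (cok (bigRows σ.e ρ N)) σ.e hRR b hcoh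
      (fun y hy => by
        rintro ⟨i, hi⟩
        exact cok_triv σ.e hP (by rw [hy.1]; exact hU hb) hi.ge) hx (g₁ - g₂)
    obtain ⟨m', hm'⟩ := up_surj σ.e hP (hU hb) hs'
    obtain ⟨n, rfl⟩ := (h.bij b hbs).2 m'
    have hn : n = 0 := by
      refine M₀.push_ext _ _ _ b _ _ fun y hy => ?_
      rw [← hθ b hb n y hy, ← hm' y hy, EMod.pushVal_zero]
      by_cases hyx : y = x
      · subst hyx
        rw [hsx, h0]
      · rw [hsy y hy hyx]
        exact (hhom y (by rw [hy.1]; exact hb) hy.2).map_zero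
    have h3 := hm' x hx
    rw [hsx, hn, Lam_zero h hbs, up_zero σ.e hP (hU hb)] at h3
    exact sub_eq_zero.mp h3
  · intro g
    have hbd : ∀ y ∈ fib σ.e (DD σ) b, (∃ i, ‖(σ.e y).2 i - cc σ i‖ = RR σ i) →
        Subsingleton (M₀.St y) := by
      rintro y hy ⟨i, hi⟩
      refine h.bd b hbs y hy ?_
      apply le_antisymm
      · rw [pi_norm_le_iff_of_nonneg σ.Rv_pos.le]
        intro j
        exact mem_PD.1 hy.2 j
      · exact hi.symm.le.trans (norm_le_pi_norm (σ.v y) i)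
    obtain ⟨s, hs, hsx, -⟩ := exists_ext_zero M₀ σ.e hRR b (h.cohM b hbs) hbd hx g
    refine ⟨up κ ρ N σ.e hx.1 (Λ b (M₀.pushSec σ.e (DD σ) (isCompact_PD _ _) s b)), ?_⟩
    rw [hθ b hb _ x hx, EMod.pushVal_pushSec M₀ _ _ _ hs x hx, hsx]

end MF

end Pool.Agent.DQ
end

section

/-! Campaign DQ, module M12, block (f), file MF9b: sections over the shell extend. -/

set_option autoImplicit false
set_option linter.unusedVariables false

open Set Filter Topology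

namespace Pool.Agent.DQ

namespace MF

universe w

variable {V : Type} [NormedAddCommGroup V] [NormedSpace ℂ V] [FiniteDimensional ℂ V] {k d : ℕ}
  {M₀ : EMod.{0, 0, w} (O V)} {σ : Sit V k d} {T' : Set (Fin k → ℂ)} {jw jw' jz jz' : ℝ}
  {KS : EMod.{0, 0, 0} (O (Bs k))} {Λ : ∀ b, (EE M₀ σ).St b → KS.St b}

/-- Proof. `mem_PD`, `pi_norm_le_iff_of_nonneg`, `σ.Rv_pos`; `σ.v x = (σ.e x).2 - (σ.e σ.y₀).2`. -/
theorem mem_DD {x : V} : (σ.e x).2 ∈ DD σ ↔ ‖σ.v x‖ ≤ σ.Rv := by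
  rw [mem_PD, Sit.v, pi_norm_le_iff_of_nonneg σ.Rv_pos.le]
  exact Iff.rfl

private theorem MF9b_cont (σ : Sit V k d) : Continuous σ.v :=
  (continuous_snd.comp σ.e.continuous).sub continuous_const

/-- **Extension by zero over the boundary of the polydisc.**

Proof. `classical`; `s' x := if ‖σ.v x‖ < σ.Rv then s x else 0`. Let `x` be over `b ∈ S`, `(σ.e x).2 ∈ DD σ`. If `‖σ.v x‖ < σ.Rv` then `s' = s` near `x` (open condition). Otherwise `‖σ.v x‖ = σ.Rv` (`mem_DD`), the stalk is trivial at `x` and near `x`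
(`zero_near`, `hcoh`), and `F.congr (F.zero ..)`. -/
theorem exists_ext_bd (F : EMod.{0, 0, w} (O V)) {S : Set (Bs k)}
    (hcoh : ∀ b ∈ S, F.Coh (fib σ.e (DD σ) b))
    (hbd : ∀ b ∈ S, ∀ x ∈ fib σ.e (DD σ) b, ‖σ.v x‖ = σ.Rv → Subsingleton (F.St x))
    {s : (x : V) → F.St x} (hs : F.On s {x | (σ.e x).1 ∈ S ∧ ‖σ.v x‖ < σ.Rv}) :
    ∃ s' : (x : V) → F.St x, (∀ b ∈ S, F.On s' (fib σ.e (DD σ) b)) ∧
      ∀ x, ‖σ.v x‖ < σ.Rv → s' x = s x := by
  classical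
  let s' : (x : V) → F.St x := fun x => if ‖σ.v x‖ < σ.Rv then s x else 0
  refine ⟨s', ?_, fun x hx => if_pos hx⟩
  intro b hb x hx
  by_cases hlt : ‖σ.v x‖ < σ.Rv
  · have h1 : F.At s x := hs x ⟨by rw [hx.1]; exact hb, hlt⟩
    refine F.congr h1 ?_
    filter_upwards [(isOpen_lt (MF9b_cont σ).norm continuous_const).mem_nhds hlt] with y hy
    exact (if_pos hy).symm
  · have heq : ‖σ.v x‖ = σ.Rv := le_antisymm (mem_DD.1 hx.2) (not_lt.mp hlt)
    have hsub := hbd b hb x hx heq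
    have hcohx : F.CohAt x := (hcoh b hb).cohAt hx
    refine F.congr (F.zero x hcohx.1) ?_
    filter_upwards [zero_near F hcohx hsub] with y hy
    exact Subsingleton.elim _ _

/-- **Extension of sections.** (`hrad` says that `a A b B` are admissible radii.)

Proof. Let `S = M12.shell σ T a A b B ⊆` the big shell (`shell_mono`), open. `exists_ext_bd` for `M₀` (`h.cohM`, `h.bd`) gives `s₁`; `μ = pushSec s₁` is a section of `EE M₀ σ` on `S` (`pushSec_at`), so `fun b => Λ b (μ b)` is a section of `KS`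
(`h.at_iff`), and `h.hart` gives `S'` on `σ.bx T (-1) A (-1) B ⊆ U`. Put `s' x := up κ ρ N σ.e rfl (S' (σ.e x).1)`; it is a section (`up_at`). Over `S`: `S' b = Λ b (μ b)`, so `θ x (s' x) = pushVal (μ b) x = s₁ x = s x` (`hθ`,
`pushVal_pushSec`). -/
theorem theta_ext (h : KSData M₀ σ T' jw jw' jz jz' KS Λ) {s q : ℕ} {U : Set (Bs k)}
    {κ : Fin s → (b : Bs k) → KS.St b} {ρ : Fin q → Fin s → Bs k → ℂ}
    {N : Fin d → Fin s → Fin s → Bs k → ℂ} (hP : Pres KS U κ ρ N (cc σ) (RR σ))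
    {S₁ : Set (Bs k)} {θ : ∀ x, (cok (bigRows σ.e ρ N)).St x → M₀.St x}
    (hθ : ∀ b ∈ S₁, ∀ (n : (EE M₀ σ).St b) x (hx : x ∈ fib σ.e (DD σ) b),
      θ x (up κ ρ N σ.e hx.1 (Λ b n)) = M₀.pushVal σ.e (DD σ) (isCompact_PD _ _) b n x hx)
    {T : Set (Fin k → ℂ)} (hT : IsOpen T) (hTT : T ⊆ T') {a A b B : ℝ}
    (hrad : jw ≤ a ∧ a < A ∧ A ≤ jw' ∧ jz ≤ b ∧ b < B ∧ B ≤ jz')
    (hS : M12.shell σ T a A b B ⊆ S₁) (hU : σ.bx T (-1) A (-1) B ⊆ U)
    {y : (x : V) → M₀.St x}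
    (hy : M₀.On y {x | (σ.e x).1 ∈ M12.shell σ T a A b B ∧ ‖σ.v x‖ < σ.Rv}) :
    ∃ y' : (x : V) → (cok (bigRows σ.e ρ N)).St x,
      (cok (bigRows σ.e ρ N)).On y' {x | (σ.e x).1 ∈ σ.bx T (-1) A (-1) B ∧ ‖σ.v x‖ < σ.Rv} ∧
      ∀ x, (σ.e x).1 ∈ M12.shell σ T a A b B → ‖σ.v x‖ < σ.Rv → θ x (y' x) = y x := by
  have hSub : M12.shell σ T a A b B ⊆ M12.shell σ T' jw jw' jz jz' :=
    shell_mono σ hTT hrad.1 hrad.2.2.1 hrad.2.2.2.1 hrad.2.2.2.2.2
  obtain ⟨s₁, hs₁, hs₁'⟩ := exists_ext_bd M₀ (S := M12.shell σ T a A b B)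
    (fun p hp => h.cohM p (hSub hp)) (fun p hp => h.bd p (hSub hp)) hy
  have hKS : KS.On (fun p => Λ p (M₀.pushSec σ.e (DD σ) (isCompact_PD _ _) s₁ p))
      (M12.shell σ T a A b B) := fun p hp => (h.at_iff p (hSub hp) _).1
    (M₀.pushSec_at σ.e (DD σ) (isCompact_PD _ _) (hs₁ p hp))
  obtain ⟨S', hS', hS'eq⟩ := h.hart T hTT hT a A b B hrad.1 hrad.2.1 hrad.2.2.1 hrad.2.2.2.1
    hrad.2.2.2.2.1 hrad.2.2.2.2.2 _ hKS
  refine ⟨fun x => up κ ρ N σ.e (rfl : (σ.e x).1 = (σ.e x).1) (S' (σ.e x).1), ?_, ?_⟩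
  · rintro x ⟨hx, -⟩
    exact up_at σ.e hP (hU hx) (hS' _ hx)
  · intro x hx hlt
    have hxf : x ∈ fib σ.e (DD σ) (σ.e x).1 := ⟨rfl, mem_DD.2 hlt.le⟩
    change θ x (up κ ρ N σ.e (rfl : (σ.e x).1 = (σ.e x).1) (S' (σ.e x).1)) = y x
    rw [hS'eq _ hx]
    refine (hθ (σ.e x).1 (hS hx) _ x hxf).trans ?_
    rw [M₀.pushVal_pushSec σ.e (DD σ) (isCompact_PD _ _) (hs₁ _ hx) x hxf]
    exact hs₁' x hlt

/-- **Uniqueness.**

Proof. `F = cok _`. `exists_ext_bd` for `F` and `S = σ.bx T (-1) A (-1) B` (coherent near the fibres: `Pres.cohAt`, `hP.U_open`; trivial on the boundary: `cok_triv` — if `‖σ.v x‖ = σ.Rv > 0` then `‖(σ.v x) i‖ = σ.Rv` for some `i`, the sup norm of a vector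
is attained, `d > 0` because the norm is positive) gives `y₁`. `exists_down` (`T := σ.bx T (-1) A (-1) B`, open: `isOpen_bx`) gives a section `S'` of `KS` with `y₁ x = up (S' b)`. Over the shell `y₁ x = 0` on the whole fibre (inside: hypothesis; boundary:
trivial stalk), so `S' b = 0` by `up_inj` and `up_zero`. `h.uniq`: `S' = 0` on `σ.bx T (-1) A (-1) B`; so `y x = y₁ x = up 0 = 0`. -/
theorem theta_uniq (h : KSData M₀ σ T' jw jw' jz jz' KS Λ) {s q : ℕ} {U : Set (Bs k)}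
    {κ : Fin s → (b : Bs k) → KS.St b} {ρ : Fin q → Fin s → Bs k → ℂ}
    {N : Fin d → Fin s → Fin s → Bs k → ℂ} (hP : Pres KS U κ ρ N (cc σ) (RR σ))
    (hdom : U ⊆ KS.dom) {T : Set (Fin k → ℂ)} (hT : IsOpen T) (hTT : T ⊆ T') {a A b B : ℝ}
    (hrad : jw ≤ a ∧ a < A ∧ A ≤ jw' ∧ jz ≤ b ∧ b < B ∧ B ≤ jz')
    (hU : σ.bx T (-1) A (-1) B ⊆ U) {y : (x : V) → (cok (bigRows σ.e ρ N)).St x}
    (hy : (cok (bigRows σ.e ρ N)).On y
      {x | (σ.e x).1 ∈ σ.bx T (-1) A (-1) B ∧ ‖σ.v x‖ < σ.Rv})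
    (h0 : ∀ x, (σ.e x).1 ∈ M12.shell σ T a A b B → ‖σ.v x‖ < σ.Rv → y x = 0) :
    ∀ x, (σ.e x).1 ∈ σ.bx T (-1) A (-1) B → ‖σ.v x‖ < σ.Rv → y x = 0 := by
  have hcoh : ∀ p ∈ σ.bx T (-1) A (-1) B,
      (cok (bigRows σ.e ρ N)).Coh (fib σ.e (DD σ) p) := by
    intro p hp x hx
    have h1 : Tendsto (fun y => (σ.e y).1) (𝓝 x) (𝓝 p) := tendsto_fst σ.e hx.1
    filter_upwards [h1.eventually (hP.U_open.mem_nhds (hU hp))] with z hz
    exact hP.cohAt σ.e hz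
  have hbd : ∀ p ∈ σ.bx T (-1) A (-1) B, ∀ x ∈ fib σ.e (DD σ) p, ‖σ.v x‖ = σ.Rv →
      Subsingleton ((cok (bigRows σ.e ρ N)).St x) := by
    intro p hp x hx hv
    obtain ⟨i, hi⟩ : ∃ i, σ.Rv ≤ ‖σ.v x i‖ := by
      by_contra hcon
      push Not at hcon
      have h1 := (pi_norm_lt_iff σ.Rv_pos).2 hcon
      exact absurd h1 (by rw [hv]; exact lt_irrefl _)
    have hxU : (σ.e x).1 ∈ U := by rw [hx.1]; exact hU hp
    exact cok_triv σ.e hP hxU (i := i) hi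
  obtain ⟨y₁, hy₁, hy₁'⟩ := exists_ext_bd (cok (bigRows σ.e ρ N))
    (S := σ.bx T (-1) A (-1) B) hcoh hbd hy
  obtain ⟨S', hS', hS'eq⟩ := exists_down σ.e hP (isOpen_bx σ hT (-1) A (-1) B) hU hdom hy₁
  have h1 : ∀ p ∈ M12.shell σ T a A b B, S' p = 0 := by
    intro p hp
    have hp' := shell_subset_bx σ T a A b B hp
    refine up_inj σ.e hP (hU hp') (S' p) 0 fun x hx => ?_
    rw [up_zero σ.e hP (hU hp') hx.1, ← hS'eq p hp' x hx]
    by_cases hlt : ‖σ.v x‖ < σ.Rv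
    · rw [hy₁' x hlt]
      exact h0 x (by rw [hx.1]; exact hp) hlt
    · have heq : ‖σ.v x‖ = σ.Rv := le_antisymm (mem_DD.1 hx.2) (not_lt.mp hlt)
      have := hbd p hp' x hx heq
      exact Subsingleton.elim _ _
  have h2 := h.uniq T hTT hT a A b B hrad.1 hrad.2.1 hrad.2.2.1 hrad.2.2.2.1
    hrad.2.2.2.2.1 hrad.2.2.2.2.2 S' hS' h1
  intro x hx hlt
  have hxf : x ∈ fib σ.e (DD σ) (σ.e x).1 := ⟨rfl, mem_DD.2 hlt.le⟩
  rw [← hy₁' x hlt, hS'eq _ hx x hxf, h2 _ hx]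
  exact up_zero σ.e hP (hU hx) rfl

end MF

end Pool.Agent.DQ
end

section

/-! Campaign DQ, module M12, block (f), file MF9c: the result of block (f). -/

set_option autoImplicit false
set_option linter.unusedVariables false

open Set Filter Topology

namespace Pool.Agent.DQ

namespace MF

universe w

variable {V : Type} [NormedAddCommGroup V] [NormedSpace ℂ V] [FiniteDimensional ℂ V] {k d : ℕ}
  {M₀ : EMod.{0, 0, w} (O V)} {σ : Sit V k d} {T' : Set (Fin k → ℂ)} {jw jw' jz jz' : ℝ}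
  {KS : EMod.{0, 0, 0} (O (Bs k))} {Λ : ∀ b, (EE M₀ σ).St b → KS.St b}

/-- Proof. Unfold `Sit.Q1`, `Sit.Q2`, `Sit.pr`, `ring` (centre `0`: `‖z - 0‖`), `Sit.w`, `Sit.z`, `Sit.bw`, `Sit.bz`, `M12.shell`, `Sit.bx`. -/
theorem mem_Q12_iff {T : Set (Fin k → ℂ)} {x : V} :
    x ∈ σ.Q1 T ∪ σ.Q2 T ↔
      (σ.e x).1 ∈ M12.shell σ T σ.rw σ.Rw σ.rz σ.Rz ∧ ‖σ.v x‖ < σ.Rv := by
  constructor
  · rintro (hx | hx)
    · obtain ⟨h1, h2, h3, h4⟩ := hx
      simp only [ring, mem_setOf_eq, sub_zero] at h2 h3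
      exact ⟨Or.inl ⟨h1, h2, h3⟩, h4⟩
    · obtain ⟨h1, h2, h3, h4⟩ := hx
      simp only [ring, mem_setOf_eq, sub_zero] at h2 h3
      exact ⟨Or.inr ⟨h1, h2, h3⟩, h4⟩
  · rintro ⟨hx | hx, h4⟩
    · obtain ⟨h1, h2, h3⟩ := hx
      refine Or.inl ⟨h1, ?_, ?_, h4⟩
      · simp only [ring, mem_setOf_eq, sub_zero]
        exact h2
      · simp only [ring, mem_setOf_eq, sub_zero]
        exact h3
    · obtain ⟨h1, h2, h3⟩ := hx
      refine Or.inr ⟨h1, ?_, ?_, h4⟩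
      · simp only [ring, mem_setOf_eq, sub_zero]
        exact h2
      · simp only [ring, mem_setOf_eq, sub_zero]
        exact h3

theorem mem_KO_iff {T : Set (Fin k → ℂ)} {x : V} :
    x ∈ σ.KO T ↔ (σ.e x).1 ∈ σ.bx T (-1) σ.Rw (-1) σ.Rz ∧ ‖σ.v x‖ < σ.Rv := by
  constructor
  · rintro ⟨h1, h2, h3, h4⟩
    simp only [ring, mem_setOf_eq, sub_zero] at h2 h3
    exact ⟨⟨h1, h2, h3⟩, h4⟩
  · rintro ⟨⟨h1, h2, h3⟩, h4⟩
    refine ⟨h1, ?_, ?_, h4⟩
    · simp only [ring, mem_setOf_eq, sub_zero]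
      exact h2
    · simp only [ring, mem_setOf_eq, sub_zero]
      exact h3

/-- Proof. `mem_DD`; `cB`. -/
theorem of_mem_KC {τ₀ : ℝ} {x : V} (hx : x ∈ σ.KC (Metric.ball σ.t₀ τ₀)) :
    (σ.e x).1 ∈ cB σ τ₀ σ.Rw σ.Rz ∧ (σ.e x).2 ∈ DD σ := by
  obtain ⟨h1, h2, h3, h4⟩ := hx
  simp only [cring, mem_setOf_eq, sub_zero] at h2 h3
  exact ⟨⟨Metric.ball_subset_closedBall h1, h2.2, h3.2⟩, mem_DD.2 h4⟩

/-- Proof. `‖z‖ ≤ Rw < jw'`, `jw < rw ≤ ‖w‖`, and so on; the closed shell `Q1c ∪ Q2c` over the ball is in the big open shell. -/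
theorem of_mem_Qc {τ₀ : ℝ} (hT : Metric.closedBall σ.t₀ τ₀ ⊆ T') (h1 : jw < σ.rw) (h2 : σ.Rw < jw')
    (h3 : jz < σ.rz) (h4 : σ.Rz < jz') {x : V}
    (hx : x ∈ σ.Q1c (Metric.ball σ.t₀ τ₀) ∪ σ.Q2c (Metric.ball σ.t₀ τ₀)) :
    (σ.e x).1 ∈ M12.shell σ T' jw jw' jz jz' ∧ (σ.e x).1 ∈ cB σ τ₀ σ.Rw σ.Rz ∧
      (σ.e x).2 ∈ DD σ := by
  rcases hx with hx | hx
  · obtain ⟨e1, e2, e3, e4⟩ := hx
    simp only [cring, mem_setOf_eq, sub_zero] at e2 e3
    refine ⟨Or.inl ⟨hT (Metric.ball_subset_closedBall e1), ⟨h1.trans_le e2.1, e2.2.trans_lt h2⟩,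
      ⟨?_, e3.2.trans_lt h4⟩⟩, ⟨Metric.ball_subset_closedBall e1, e2.2, e3.2⟩, mem_DD.2 e4⟩
    exact lt_of_lt_of_le (by norm_num) (norm_nonneg _)
  · obtain ⟨e1, e2, e3, e4⟩ := hx
    simp only [cring, mem_setOf_eq, sub_zero] at e2 e3
    refine ⟨Or.inr ⟨hT (Metric.ball_subset_closedBall e1), ⟨?_, e2.2.trans_lt h2⟩,
      ⟨h3.trans_le e3.1, e3.2.trans_lt h4⟩⟩,
      ⟨Metric.ball_subset_closedBall e1, e2.2, e3.2⟩, mem_DD.2 e4⟩
    exact lt_of_lt_of_le (by norm_num) (norm_nonneg _)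

/-- **Ext0 from KSData.**

Proof. `exists_pres h hτ₀ hT` with `A₀ = σ.Rw`, `B₀ = σ.Rz` (`jw < σ.rw < σ.Rw`) gives `κ ρ N U`. `M₀' = cok (bigRows σ.e ρ N)`. `S₁ = U ∩ M12.shell σ T' jw jw' jz jz'` (open: `hP.U_open`, `isOpen_shell`). `exists_theta` gives `θ`, `theta_bij`. Fields of `Ext0`:
`coh`: points of `σ.KC (ball ..)` are over `cB σ τ₀ σ.Rw σ.Rz ⊆ U` (`of_mem_KC`), `Pres.cohAt` near the point (`U` open). `bd`: `cok_triv` (the sup norm `σ.Rv > 0` of `σ.v x` is attained at some `i`). `add`, `smul`, `at_map`: `HomAt.map_add`, `HomAt.map_smul`, `HomAt.at` at the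
points of `of_mem_Qc`. `bij`: `theta_bij`. `ext`, `inj`: `theta_ext`, `theta_uniq` with `a = σ.rw`, `A = σ.Rw`, `b = σ.rz`, `B = σ.Rz` and `mem_Q12_iff`, `mem_KO_iff` (for `T ⊆ ball σ.t₀ τ₀`: `σ.bx T (-1) σ.Rw (-1) σ.Rz ⊆ cB σ τ₀ σ.Rw σ.Rz ⊆ U`, the shell is in the big shell by
`shell_mono`). -/
theorem ext0_of_ks (h : KSData M₀ σ T' jw jw' jz jz' KS Λ) {τ₀ : ℝ} (hτ₀ : 0 < τ₀)
    (hT : Metric.closedBall σ.t₀ τ₀ ⊆ T') (h1 : jw < σ.rw) (h2 : σ.Rw < jw') (h3 : jz < σ.rz)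
    (h4 : σ.Rz < jz') :
    ∃ (M₀' : EMod.{0, 0, 0} (O V)) (θ : ∀ x, M₀'.St x → M₀.St x),
      Ext0 M₀ σ (Metric.ball σ.t₀ τ₀) M₀' θ := by
  obtain ⟨s, q, κ, ρ, N, U, hP, hcU, hUdom, hact⟩ := exists_pres h hτ₀ hT
    (h1.trans σ.rw_lt) h2 (h3.trans σ.rz_lt) h4
  have hS₁o : IsOpen (U ∩ M12.shell σ T' jw jw' jz jz') :=
    hP.U_open.inter (isOpen_shell σ h.T_open _ _ _ _)
  obtain ⟨θ, hhom, hθ⟩ := exists_theta h hP hS₁o inter_subset_right inter_subset_left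
    fun b hb i j m hm => hact b hb.1 hb.2 i j m hm
  have hbij := theta_bij h hP hS₁o inter_subset_right inter_subset_left hhom hθ
  have hQ : ∀ x ∈ σ.Q1c (Metric.ball σ.t₀ τ₀) ∪ σ.Q2c (Metric.ball σ.t₀ τ₀),
      (σ.e x).1 ∈ U ∩ M12.shell σ T' jw jw' jz jz' ∧ (σ.e x).2 ∈ DD σ := by
    intro x hx
    obtain ⟨e1, e2, e3⟩ := of_mem_Qc hT h1 h2 h3 h4 hx
    exact ⟨⟨hcU e2, e1⟩, e3⟩
  have hHom : ∀ x ∈ σ.Q1c (Metric.ball σ.t₀ τ₀) ∪ σ.Q2c (Metric.ball σ.t₀ τ₀),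
      HomAt (cok (bigRows σ.e ρ N)) M₀ θ x := fun x hx => hhom x (hQ x hx).1 (hQ x hx).2
  have hTT : ∀ T ⊆ Metric.ball σ.t₀ τ₀, T ⊆ T' := fun T hT' =>
    (hT'.trans Metric.ball_subset_closedBall).trans hT
  have hbU : ∀ T ⊆ Metric.ball σ.t₀ τ₀, σ.bx T (-1) σ.Rw (-1) σ.Rz ⊆ U := by
    rintro T hT' x ⟨e1, e2, e3⟩
    exact hcU ⟨Metric.ball_subset_closedBall (hT' e1), e2.2.le, e3.2.le⟩
  have hsh : ∀ T ⊆ Metric.ball σ.t₀ τ₀, M12.shell σ T σ.rw σ.Rw σ.rz σ.Rz ⊆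
      U ∩ M12.shell σ T' jw jw' jz jz' := fun T hT' x hx =>
    ⟨hbU T hT' (shell_subset_bx σ _ _ _ _ _ hx),
      shell_mono σ (hTT T hT') h1.le h2.le h3.le h4.le hx⟩
  have hrad : jw ≤ σ.rw ∧ σ.rw < σ.Rw ∧ σ.Rw ≤ jw' ∧ jz ≤ σ.rz ∧ σ.rz < σ.Rz ∧ σ.Rz ≤ jz' :=
    ⟨h1.le, σ.rw_lt, h2.le, h3.le, σ.rz_lt, h4.le⟩
  have hset : ∀ T, σ.Q1 T ∪ σ.Q2 T =
      {x | (σ.e x).1 ∈ M12.shell σ T σ.rw σ.Rw σ.rz σ.Rz ∧ ‖σ.v x‖ < σ.Rv} := fun T =>
    Set.ext fun x => mem_Q12_iff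
  have hsetO : ∀ T, σ.KO T =
      {x | (σ.e x).1 ∈ σ.bx T (-1) σ.Rw (-1) σ.Rz ∧ ‖σ.v x‖ < σ.Rv} := fun T =>
    Set.ext fun x => mem_KO_iff
  refine ⟨cok (bigRows σ.e ρ N), θ, ?_, ?_, fun x hx => (hHom x hx).map_add,
    fun x hx => (hHom x hx).map_smul, fun x hx => hbij _ (hQ x hx).1 x ⟨rfl, (hQ x hx).2⟩,
    fun s x hx hs => (hHom x hx).at hs, ?_, ?_⟩
  · intro x hx
    have e1 : (σ.e x).1 ∈ U := hcU (of_mem_KC hx).1
    have e2 : ∀ᶠ y in 𝓝 x, (σ.e y).1 ∈ U :=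
      (tendsto_fst σ.e (rfl : (σ.e x).1 = (σ.e x).1)).eventually (hP.U_open.mem_nhds e1)
    filter_upwards [e2] with y hy
    exact hP.cohAt σ.e hy
  · intro x hx hv
    have e1 : (σ.e x).1 ∈ U := hcU (of_mem_KC hx).1
    have hex : ∃ i, ‖σ.v x i‖ = σ.Rv := by
      by_contra hcon
      push Not at hcon
      have e2 : ∀ i, ‖σ.v x i‖ < σ.Rv := fun i =>
        lt_of_le_of_ne ((norm_le_pi_norm _ i).trans hv.le) (hcon i)
      have e3 := (pi_norm_lt_iff σ.Rv_pos).2 e2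
      exact absurd hv e3.ne
    obtain ⟨i, hi⟩ := hex
    exact cok_triv σ.e hP e1 (i := i) hi.ge
  · intro T hT' hTo y hy
    rw [hset] at hy ⊢
    obtain ⟨y', hy', hy'e⟩ := theta_ext h hP hθ hTo (hTT T hT') hrad (hsh T hT') (hbU T hT') hy
    rw [hsetO]
    exact ⟨y', hy', fun x hx => hy'e x hx.1 hx.2⟩
  · intro T hT' hTo y hy h0 x hx
    rw [hset] at h0
    rw [hsetO] at hy hx
    exact theta_uniq h hP hUdom hTo (hTT T hT') hrad (hbU T hT') hy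
      (fun x e1 e2 => h0 x ⟨e1, e2⟩) x hx.1 hx.2

/-- **Result of block (f).** -/
theorem ext0_of_lam {m N N' : ℕ} {Q : Bs k → Matrix (Fin N) (Fin m) ℂ}
    {Q' : Bs k → Matrix (Fin N') (Fin N) ℂ} {Lam : ((x : V) → M₀.St x) → Bs k → Fin m → ℂ}
    (hL : M12.LamData M₀ σ T' jw jw' jz jz' Q Q' Lam)
    (cohM : ∀ b ∈ M12.shell σ T' jw jw' jz jz', M₀.Coh (fib σ.e (DD σ) b))
    (bd : ∀ b ∈ M12.shell σ T' jw jw' jz jz', ∀ x ∈ fib σ.e (DD σ) b, ‖σ.v x‖ = σ.Rv →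
      Subsingleton (M₀.St x)) {τ₀ : ℝ} (hτ₀ : 0 < τ₀)
    (hT : Metric.closedBall σ.t₀ τ₀ ⊆ T') (h1 : jw < σ.rw) (h2 : σ.Rw < jw') (h3 : jz < σ.rz)
    (h4 : σ.Rz < jz') :
    ∃ (M₀' : EMod.{0, 0, 0} (O V)) (θ : ∀ x, M₀'.St x → M₀.St x),
      Ext0 M₀ σ (Metric.ball σ.t₀ τ₀) M₀' θ := by
  obtain ⟨KS, Λ, h⟩ := ksData_of_lam hL cohM bd
  exact ext0_of_ks h hτ₀ hT h1 h2 h3 h4

end MF

end Pool.Agent.DQ
end
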