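import Mathlib
import Pool.Agent.DQ.Mg_MP_4aa2a9_ag.G003
import Pool.Agent.Lib.MP_4aa2a9_ag.Mg.G001
import Pool.Agent.Lib.MP_4aa2a9_ag.Mg.G003

section

/-!
# The sheaf of algebras `End i` in a chart (campaign DQ, module S)

`Loc n A` : an object `i` of the algebroid `A`, coordinates `e`, an open set `V`, and functions
`T W a k` (the coefficient of `ħ^k` of `a ∈ End i (W)`, `W ≤ V`), such that `End i` is
`O[[ħ]]` with a product which is the usual one modulo `ħ`.

`Loc.sheafR` : the sheaf of rings on `ℂ^n`, `Loc.defo` : the deformation.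
-/

set_option autoImplicit false

open TopologicalSpace Topology Filter Set

universe u

namespace Pool.Agent.DQ

/-! ### Scalars in the stalks of `End i` -/

section scalars

variable {X : Type u} [TopologicalSpace X] (A : Algebroid X)

theorem Algebroid.gm_smul (i : A.Obj) (x : A.dom i) {V : Opens X}
    (hx : x.1 ∈ V) (c : K) (a : (A.Hom i i).sec V) :
    A.gm i x V hx (c • a) = c • A.gm i x V hx a := (A.Hom i i).germ_smul x.1 hx c a

theorem Algebroid.smul_one_mul (i : A.Obj) (x : A.dom i) (c : K) (b : A.R i x) :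
    (c • (1 : A.R i x)) * b = c • b := by
  obtain ⟨V, hx, hV, s, t, r, rfl, -, -⟩ := A.exists_gm₃ i x b b b
  rw [← A.gm_one i x hx hV, ← A.gm_smul, ← A.gm_mul i x hx hV, ← A.gm_smul, map_smul,
    LinearMap.smul_apply, A.one_comp V hV hV]

theorem Algebroid.mul_smul_one (i : A.Obj) (x : A.dom i) (c : K) (b : A.R i x) :
    b * (c • (1 : A.R i x)) = c • b := by
  obtain ⟨V, hx, hV, s, t, r, rfl, -, -⟩ := A.exists_gm₃ i x b b b
  rw [← A.gm_one i x hx hV, ← A.gm_smul, ← A.gm_mul i x hx hV, ← A.gm_smul, map_smul,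
    A.comp_one V hV hV]

theorem Algebroid.smul_one_pow (i : A.Obj) (x : A.dom i) (c : K) (k : ℕ) :
    (c • (1 : A.R i x)) ^ k = c ^ k • (1 : A.R i x) := by
  induction k with
  | zero => simp
  | succ k ih => rw [pow_succ, ih, A.smul_one_mul, smul_smul, pow_succ]

end scalars

/-- an object `i` of `A`, coordinates `e` and an open set `V` -/
structure Ch (n : ℕ) {X : Type u} [TopologicalSpace X] (A : Algebroid X) where
  i : A.Obj
  e : OpenPartialHomeomorph X (Fin n → ℂ)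
  V : Opens X
  dom : V ≤ A.dom i
  src : (V : Set X) ⊆ e.source

variable {n : ℕ} {X : Type u} [TopologicalSpace X] {A : Algebroid X}

namespace Ch

variable (C : Ch n A)

theorem symm_mem_dom {z : Fin n → ℂ} (hz : z ∈ C.e '' (C.V : Set X)) :
    C.e.symm z ∈ A.dom C.i := C.dom (symm_mem C.e C.src le_rfl hz)

/-- the point of `dom i` with coordinates `z` -/
noncomputable abbrev pt (z : Fin n → ℂ) (hz : z ∈ C.e '' (C.V : Set X)) : A.dom C.i :=
  ⟨C.e.symm z, C.symm_mem_dom hz⟩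

/-- stalk at `z` -/
noncomputable def St (z : Fin n → ℂ) : Type u :=
  ∀ h : PLift (z ∈ C.e '' (C.V : Set X)), A.R C.i (C.pt z h.down)

noncomputable instance (z : Fin n → ℂ) : Ring (C.St z) :=
  inferInstanceAs (Ring (∀ h : PLift (z ∈ C.e '' (C.V : Set X)), A.R C.i (C.pt z h.down)))

/-- `End i` in the chart as a sheaf of rings -/
noncomputable def sheafR : ERing.{0, u} (Fin n → ℂ) where
  dom := C.e '' (C.V : Set X)
  St := C.St
  At s z := EAt (A.Hom C.i C.i) C.e C.V s z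
  mem_dom h := h.mem
  ev h := EAt.ev C.src h
  congr h h' := EAt.congr C.src h h'
  inj h h' e := EAt.inj C.src h h' e
  surj _ hz g := EAt.surj C.src hz g
  zero _ hz := EAt.zero C.src hz
  one z hz := ⟨hz, C.V, A.one C.i C.V, le_rfl, symm_mem C.e C.src le_rfl hz,
    fun w hw hU => (A.gm_one C.i (C.pt w hw) hU C.dom).symm⟩
  add h h' := EAt.add h h'
  neg h := EAt.neg h
  mul {s t z} h h' := by
    obtain ⟨U, a, b, hU, -, hzU, h1, h2⟩ := h.both h'
    refine ⟨h.mem, U, A.comp U a b, hU, hzU, fun w hw hwU => ?_⟩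
    have h3 := A.gm_mul C.i (C.pt w hw) (V := U) hwU (hU.trans C.dom) a b
    have h4 : s w ⟨hw⟩ = A.gm C.i (C.pt w hw) U hwU a := h1 w hw hwU
    have h5 : t w ⟨hw⟩ = A.gm C.i (C.pt w hw) U hwU b := h2 w hw hwU
    rw [← h4, ← h5] at h3
    exact h3.symm

/-- the open subset of `V` with coordinates in `N` -/
noncomputable def pre (N : Set (Fin n → ℂ)) (hN : IsOpen N) : Opens X :=
  ⟨(C.e.source ∩ C.e ⁻¹' N) ∩ (C.V : Set X),
    (C.e.isOpen_inter_preimage hN).inter C.V.2⟩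

theorem pre_le (N : Set (Fin n → ℂ)) (hN : IsOpen N) : C.pre N hN ≤ C.V := fun _ h => h.2

theorem image_pre {N : Set (Fin n → ℂ)} (hN : IsOpen N) (h : N ⊆ C.e '' (C.V : Set X)) :
    C.e '' (C.pre N hN : Set X) = N := by
  ext z
  rw [mem_image_iff C.e C.src (C.pre_le N hN)]
  constructor
  · rintro ⟨h1, h2⟩
    have : C.e (C.e.symm z) ∈ N := h2.1.2
    rwa [C.e.right_inv h1] at this
  · intro hz
    have h1 := (mem_image_iff C.e C.src le_rfl).1 (h hz)
    refine ⟨h1.1, ⟨⟨C.e.map_target h1.1, ?_⟩, h1.2⟩⟩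
    rw [mem_preimage, C.e.right_inv h1.1]
    exact hz

theorem mem_of_mem {U : Opens X} (hU : U ≤ C.V) {z : Fin n → ℂ}
    (hz : z ∈ C.e '' (C.V : Set X)) (h : C.e.symm z ∈ U) : z ∈ C.e '' (U : Set X) :=
  (mem_image_iff C.e C.src hU).2 ⟨((mem_image_iff C.e C.src le_rfl).1 hz).1, h⟩

open Classical in
/-- the family of germs of a section over `U` -/
noncomputable def fam (U : Opens X) (a : (A.Hom C.i C.i).sec U) : ∀ z, C.St z :=
  fun z h => if hw : C.e.symm z ∈ U then A.gm C.i (C.pt z h.down) U hw a else 0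

theorem fam_apply {U : Opens X} (a : (A.Hom C.i C.i).sec U) {z : Fin n → ℂ}
    (h : z ∈ C.e '' (C.V : Set X)) (hw : C.e.symm z ∈ U) :
    C.fam U a z ⟨h⟩ = A.gm C.i (C.pt z h) U hw a := dif_pos hw

theorem fam_at {U : Opens X} (hU : U ≤ C.V) (a : (A.Hom C.i C.i).sec U) {z : Fin n → ℂ}
    (hz : z ∈ C.e '' (U : Set X)) : C.sheafR.At (C.fam U a) z :=
  ⟨image_mono (by exact hU) hz, U, a, hU, symm_mem C.e C.src hU hz,
    fun _ hw hwU => C.fam_apply a hw hwU⟩

/-- every germ is the germ of a section -/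
theorem exists_fam {z : Fin n → ℂ} (hz : z ∈ C.e '' (C.V : Set X)) (g : C.St z) :
    ∃ (U : Opens X) (a : (A.Hom C.i C.i).sec U), U ≤ C.V ∧ z ∈ C.e '' (U : Set X) ∧
      g = C.fam U a z := by
  obtain ⟨s, ⟨-, U, a, hU, hzU, h⟩, rfl⟩ := EAt.surj (F := A.Hom C.i C.i) C.src hz g
  refine ⟨U, a, hU, C.mem_of_mem hU hz hzU, ?_⟩
  funext ⟨h0⟩
  rw [C.fam_apply a h0 hzU]
  exact h z h0 hzU

theorem fam_eq_iff {U U' : Opens X} (hU : U ≤ C.V) (hU' : U' ≤ C.V) (a : (A.Hom C.i C.i).sec U)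
    (b : (A.Hom C.i C.i).sec U') {z : Fin n → ℂ} (hz : z ∈ C.e '' (U : Set X))
    (hz' : z ∈ C.e '' (U' : Set X)) :
    C.fam U a z = C.fam U' b z ↔ ∃ (W : Opens X) (h : W ≤ U) (h' : W ≤ U'),
      z ∈ C.e '' (W : Set X) ∧ (A.Hom C.i C.i).res h a = (A.Hom C.i C.i).res h' b := by
  have hz0 : z ∈ C.e '' (C.V : Set X) := image_mono (by exact hU) hz
  have h1 := symm_mem C.e C.src hU hz
  have h2 := symm_mem C.e C.src hU' hz'
  constructor
  · intro e
    have e1 := congrFun e ⟨hz0⟩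
    rw [C.fam_apply a hz0 h1, C.fam_apply b hz0 h2] at e1
    obtain ⟨W, h, h', hW, e2⟩ := ((A.Hom C.i C.i).germ_eq_iff _ _ _ _ _).1 e1
    exact ⟨W, h, h', C.mem_of_mem (h.trans hU) hz0 hW, e2⟩
  · rintro ⟨W, h, h', hW, e⟩
    funext ⟨h0⟩
    rw [C.fam_apply a h0 h1, C.fam_apply b h0 h2]
    exact ((A.Hom C.i C.i).germ_eq_iff _ _ _ _ _).2
      ⟨W, h, h', symm_mem C.e C.src (h.trans hU) hW, e⟩

theorem fam_res {U W : Opens X} (h : W ≤ U) (hU : U ≤ C.V) (a : (A.Hom C.i C.i).sec U)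
    {z : Fin n → ℂ} (hz : z ∈ C.e '' (W : Set X)) :
    C.fam W ((A.Hom C.i C.i).res h a) z = C.fam U a z :=
  (C.fam_eq_iff (h.trans hU) hU _ _ hz (image_mono (by exact h) hz)).2
    ⟨W, le_rfl, h, hz, by rw [Sh.res_id]⟩

theorem fam_add {U : Opens X} (hU : U ≤ C.V) (a b : (A.Hom C.i C.i).sec U) {z : Fin n → ℂ}
    (hz : z ∈ C.e '' (U : Set X)) : C.fam U (a + b) z = C.fam U a z + C.fam U b z := by
  have h1 := symm_mem C.e C.src hU hz
  funext ⟨h0⟩
  have : (C.fam U a z + C.fam U b z) ⟨h0⟩ = C.fam U a z ⟨h0⟩ + C.fam U b z ⟨h0⟩ := rfl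
  rw [this, C.fam_apply _ h0 h1, C.fam_apply _ h0 h1, C.fam_apply _ h0 h1, A.gm_add]

theorem fam_mul {U : Opens X} (hU : U ≤ C.V) (a b : (A.Hom C.i C.i).sec U) {z : Fin n → ℂ}
    (hz : z ∈ C.e '' (U : Set X)) : C.fam U (A.comp U a b) z = C.fam U a z * C.fam U b z := by
  have h1 := symm_mem C.e C.src hU hz
  funext ⟨h0⟩
  have : (C.fam U a z * C.fam U b z) ⟨h0⟩ = C.fam U a z ⟨h0⟩ * C.fam U b z ⟨h0⟩ := rfl
  rw [this, C.fam_apply _ h0 h1, C.fam_apply _ h0 h1, C.fam_apply _ h0 h1,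
    A.gm_mul _ _ _ (hU.trans C.dom)]

theorem fam_one {U : Opens X} (hU : U ≤ C.V) {z : Fin n → ℂ}
    (hz : z ∈ C.e '' (U : Set X)) : C.fam U (A.one C.i U) z = 1 := by
  have h1 := symm_mem C.e C.src hU hz
  funext ⟨h0⟩
  have : (1 : C.St z) ⟨h0⟩ = 1 := rfl
  rw [this, C.fam_apply _ h0 h1, A.gm_one _ _ _ (hU.trans C.dom)]

theorem fam_zero {U : Opens X} (hU : U ≤ C.V) {z : Fin n → ℂ}
    (hz : z ∈ C.e '' (U : Set X)) : C.fam U (0 : (A.Hom C.i C.i).sec U) z = 0 := by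
  have h1 := symm_mem C.e C.src hU hz
  funext ⟨h0⟩
  have : (0 : C.St z) ⟨h0⟩ = 0 := rfl
  rw [this, C.fam_apply _ h0 h1, A.gm_zero]

/-! ### The parameter -/

/-- the germ at `z` of the scalar `c ∈ ℂ[[ħ]]` -/
noncomputable def sc (c : K) (z : Fin n → ℂ) : C.St z := fun _ => c • 1

theorem sc_mul (c : K) {z : Fin n → ℂ} (a : C.St z) :
    C.sc c z * a = fun h => c • a h := funext fun h => A.smul_one_mul _ _ c (a h)

theorem mul_sc (c : K) {z : Fin n → ℂ} (a : C.St z) :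
    a * C.sc c z = fun h => c • a h := funext fun h => A.mul_smul_one _ _ c (a h)

theorem sc_comm (c : K) {z : Fin n → ℂ} (a : C.St z) : C.sc c z * a = a * C.sc c z :=
  (C.sc_mul c a).trans (C.mul_sc c a).symm

theorem sc_pow (c : K) (z : Fin n → ℂ) (k : ℕ) : C.sc c z ^ k = C.sc (c ^ k) z :=
  funext fun _ => A.smul_one_pow _ _ c k

theorem sc_mul_fam (c : K) {U : Opens X} (hU : U ≤ C.V) (a : (A.Hom C.i C.i).sec U)
    {z : Fin n → ℂ} (hz : z ∈ C.e '' (U : Set X)) :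
    C.sc c z * C.fam U a z = C.fam U (c • a) z := by
  have h1 := symm_mem C.e C.src hU hz
  rw [sc_mul]
  funext ⟨h0⟩
  rw [C.fam_apply _ h0 h1, C.fam_apply _ h0 h1, A.gm_smul]

theorem sc_at (c : K) {z : Fin n → ℂ} (hz : z ∈ C.e '' (C.V : Set X)) :
    C.sheafR.At (C.sc c) z := by
  refine C.sheafR.congr (C.fam_at le_rfl (c • A.one C.i C.V) hz) ?_
  filter_upwards [(isOpen_image C.e C.src le_rfl).mem_nhds hz] with w hw
  rw [← C.sc_mul_fam c le_rfl _ hw, C.fam_one le_rfl hw]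
  exact mul_one (C.sc c w)

theorem fam_sum {U : Opens X} (hU : U ≤ C.V) {ι : Type*} (s : Finset ι)
    (a : ι → (A.Hom C.i C.i).sec U) {z : Fin n → ℂ} (hz : z ∈ C.e '' (U : Set X)) :
    C.fam U (∑ i ∈ s, a i) z = ∑ i ∈ s, C.fam U (a i) z := by
  classical
  induction s using Finset.induction_on with
  | empty => simp [C.fam_zero hU hz]
  | insert i s hi ih => rw [Finset.sum_insert hi, Finset.sum_insert hi, C.fam_add hU _ _ hz, ih]

/-- two germs are germs of sections over the same open set -/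
theorem exists_fam₂ {z : Fin n → ℂ} (hz : z ∈ C.e '' (C.V : Set X)) (g g' : C.St z) :
    ∃ (U : Opens X) (a b : (A.Hom C.i C.i).sec U), U ≤ C.V ∧ z ∈ C.e '' (U : Set X) ∧
      g = C.fam U a z ∧ g' = C.fam U b z := by
  obtain ⟨U, a, hU, hzU, rfl⟩ := C.exists_fam hz g
  obtain ⟨W, b, hW, hzW, rfl⟩ := C.exists_fam hz g'
  have h1 := C.mem_of_mem (U := U ⊓ W) (inf_le_left.trans hU) hz
    ⟨symm_mem C.e C.src hU hzU, symm_mem C.e C.src hW hzW⟩
  exact ⟨U ⊓ W, (A.Hom C.i C.i).res inf_le_left a, (A.Hom C.i C.i).res inf_le_right b,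
    inf_le_left.trans hU, h1, (C.fam_res _ hU a h1).symm, (C.fam_res _ hW b h1).symm⟩

end Ch

/-- see the header -/
structure Loc (n : ℕ) {X : Type u} [TopologicalSpace X] (A : Algebroid X) extends Ch n A where
  T : ∀ W : Opens X, (A.Hom i i).sec W → ℕ → (Fin n → ℂ) → ℂ
  diff : ∀ W ≤ V, ∀ a k, DifferentiableOn ℂ (T W a k) (e '' (W : Set X))
  surj : ∀ W ≤ V, ∀ f : ℕ → (Fin n → ℂ) → ℂ,
    (∀ k, DifferentiableOn ℂ (f k) (e '' (W : Set X))) →
    ∃ a, ∀ k, ∀ z ∈ e '' (W : Set X), T W a k z = f k z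
  inj : ∀ W ≤ V, ∀ a b, (∀ k, ∀ z ∈ e '' (W : Set X), T W a k z = T W b k z) → a = b
  add : ∀ W ≤ V, ∀ a b k, ∀ z ∈ e '' (W : Set X), T W (a + b) k z = T W a k z + T W b k z
  smul : ∀ W ≤ V, ∀ (c : K) (a) (m : ℕ), ∀ z ∈ e '' (W : Set X), T W (c • a) m z =
    ∑ p ∈ Finset.HasAntidiagonal.antidiagonal m, PowerSeries.coeff p.1 c * T W a p.2 z
  mul : ∀ W ≤ V, ∀ b a, ∀ z ∈ e '' (W : Set X),
    T W (A.comp W b a) 0 z = T W b 0 z * T W a 0 z
  one : ∀ W ≤ V, ∀ z ∈ e '' (W : Set X), T W (A.one i W) 0 z = 1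
  res : ∀ (W W' : Opens X) (h : W' ≤ W), W ≤ V → ∀ a m, ∀ z ∈ e '' (W' : Set X),
    T W' ((A.Hom i i).res h a) m z = T W a m z

namespace Loc

variable (C : Loc n A)

/-! ### Coefficients -/

theorem T_holAt {U : Opens X} (hU : U ≤ C.V) (a : (A.Hom C.i C.i).sec U) (k : ℕ)
    {z : Fin n → ℂ} (hz : z ∈ C.e '' (U : Set X)) : HolAt (C.T U a k) z := by
  filter_upwards [(isOpen_image C.e C.src hU).mem_nhds hz] with w hw
  exact (C.diff U hU a k).differentiableAt ((isOpen_image C.e C.src hU).mem_nhds hw)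

theorem gm_T_res {U W : Opens X} (h : W ≤ U) (hU : U ≤ C.V) (a : (A.Hom C.i C.i).sec U) (k : ℕ)
    {z : Fin n → ℂ} (hz : z ∈ C.e '' (W : Set X)) :
    gm (C.T W ((A.Hom C.i C.i).res h a) k) z = gm (C.T U a k) z := by
  rw [gm_eq_iff (C.T_holAt (h.trans hU) _ k hz) (C.T_holAt hU a k (image_mono (by exact h) hz))]
  filter_upwards [(isOpen_image C.e C.src (h.trans hU)).mem_nhds hz] with w hw
  exact C.res U W h hU a k w hw

/-- the coefficient of `ħ^k` -/
noncomputable def cf (k : ℕ) (z : Fin n → ℂ) (hz : z ∈ C.e '' (C.V : Set X)) :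
    (A.Hom C.i C.i).Stalk (C.e.symm z) → OGerm z :=
  Quotient.lift (fun s => gm (C.T (s.1.1 ⊓ C.V) ((A.Hom C.i C.i).res inf_le_left s.2) k) z) (by
    rintro ⟨⟨U, hxU⟩, s⟩ ⟨⟨U', hxU'⟩, s'⟩ ⟨W, h, h', hxW, e⟩
    have hV := symm_mem C.e C.src le_rfl hz
    have e1 : W ⊓ C.V ≤ U ⊓ C.V := inf_le_inf_right _ h
    have e2 : W ⊓ C.V ≤ U' ⊓ C.V := inf_le_inf_right _ h'
    have hzW : z ∈ C.e '' ((W ⊓ C.V : Opens X) : Set X) :=
      C.mem_of_mem inf_le_right hz ⟨hxW, hV⟩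
    change gm (C.T (U ⊓ C.V) ((A.Hom C.i C.i).res inf_le_left s) k) z =
      gm (C.T (U' ⊓ C.V) ((A.Hom C.i C.i).res inf_le_left s') k) z
    rw [← C.gm_T_res e1 inf_le_right _ k hzW, ← C.gm_T_res e2 inf_le_right _ k hzW]
    have e' := congrArg ((A.Hom C.i C.i).res (inf_le_left : W ⊓ C.V ≤ W)) e
    simp only [Sh.res_res] at e' ⊢
    rw [e'])

open Classical in
/-- reduction modulo `ħ` -/
noncomputable def red (z : Fin n → ℂ) (g : C.St z) : OGerm z :=
  if h : z ∈ C.e '' (C.V : Set X) then C.cf 0 z h (g ⟨h⟩) else 0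

theorem red_fam {U : Opens X} (hU : U ≤ C.V) (a : (A.Hom C.i C.i).sec U) {z : Fin n → ℂ}
    (hz : z ∈ C.e '' (U : Set X)) : C.red z (C.fam U a z) = gm (C.T U a 0) z := by
  have h0 : z ∈ C.e '' (C.V : Set X) := image_mono (by exact hU) hz
  have h1 := symm_mem C.e C.src hU hz
  unfold red
  rw [dif_pos h0, C.fam_apply a h0 h1]
  change gm (C.T (U ⊓ C.V) ((A.Hom C.i C.i).res inf_le_left a) 0) z = _
  have hz' : z ∈ C.e '' ((U ⊓ C.V : Opens X) : Set X) :=
    C.mem_of_mem inf_le_right h0 ⟨h1, symm_mem C.e C.src le_rfl h0⟩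
  exact C.gm_T_res inf_le_left hU a 0 hz'

end Loc

end Pool.Agent.DQ
end

section

/-!
# `End i` in a chart is a deformation of the sheaf of holomorphic functions (campaign DQ, S)
-/

set_option autoImplicit false

open TopologicalSpace Topology Filter Set

universe u

namespace Pool.Agent.DQ

variable {n : ℕ} {X : Type u} [TopologicalSpace X] {A : Algebroid X}

/-! ### values of germs -/

section values

variable {V : Type u} [NormedAddCommGroup V] [NormedSpace ℂ V]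

theorem off_val_gm {f : V → ℂ} {x : V} (h : HolAt f x) : val (gm f x) = f x := by
  unfold val
  rw [gm_coe h]
  rfl

/-- a section of `O` over an open set is a function -/
theorem exists_fun {U : Set V} {f : ∀ x, (O V).St x} (hf : ∀ x ∈ U, (O V).At f x) :
    (∀ x ∈ U, HolAt (fun y => val (f y)) x) ∧ ∀ x ∈ U, gm (fun y => val (f y)) x = f x := by
  have key : ∀ x ∈ U, ∃ g : V → ℂ, HolAt g x ∧ (fun y => val (f y)) =ᶠ[𝓝 x] g ∧
      f x = gm g x := by
    intro x hx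
    obtain ⟨g, hg, h⟩ := hf x hx
    refine ⟨g, hg, ?_, h.self_of_nhds⟩
    filter_upwards [h, hg.eventually] with y h1 h2
    rw [h1, off_val_gm h2]
  refine ⟨fun x hx => ?_, fun x hx => ?_⟩
  · obtain ⟨g, hg, h, -⟩ := key x hx
    exact hg.congr h.symm
  · obtain ⟨g, hg, h, h'⟩ := key x hx
    rw [h', gm_eq_iff (hg.congr h.symm) hg]
    exact h

end values

namespace Loc

variable (C : Loc n A)

theorem T_hbar_zero {W : Opens X} (hW : W ≤ C.V) (a : (A.Hom C.i C.i).sec W) (k : ℕ)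
    (m : ℕ) {z : Fin n → ℂ} (hz : z ∈ C.e '' (W : Set X)) :
    C.T W (hbar ^ k • a) m z = if k ≤ m then C.T W a (m - k) z else 0 := by
  rw [C.smul W hW _ _ _ z hz]
  split_ifs with h
  · rw [Finset.sum_eq_single (k, m - k)]
    · rw [PowerSeries.coeff_X_pow_self, one_mul]
    · rintro ⟨p, q⟩ hp hne
      rw [PowerSeries.coeff_X_pow, if_neg, zero_mul]
      rintro rfl
      apply hne
      rw [Finset.HasAntidiagonal.mem_antidiagonal] at hp
      simp only at hp
      rw [← hp]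
      simp
    · intro h'
      exfalso
      apply h'
      rw [Finset.HasAntidiagonal.mem_antidiagonal]
      omega
  · apply Finset.sum_eq_zero
    rintro ⟨p, q⟩ hp
    rw [Finset.HasAntidiagonal.mem_antidiagonal] at hp
    rw [PowerSeries.coeff_X_pow, if_neg, zero_mul]
    simp only at hp
    omega

theorem T_hbar {W : Opens X} (hW : W ≤ C.V) (a : (A.Hom C.i C.i).sec W)
    (m : ℕ) {z : Fin n → ℂ} (hz : z ∈ C.e '' (W : Set X)) :
    C.T W (hbar • a) m z = if 1 ≤ m then C.T W a (m - 1) z else 0 := by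
  have := C.T_hbar_zero hW a 1 m hz
  rwa [pow_one] at this

theorem T_zero {W : Opens X} (hW : W ≤ C.V) (m : ℕ) {z : Fin n → ℂ}
    (hz : z ∈ C.e '' (W : Set X)) : C.T W 0 m z = 0 := by
  have := C.add W hW 0 0 m z hz
  rw [add_zero] at this
  exact left_eq_add.1 this

theorem T_sum {W : Opens X} (hW : W ≤ C.V) {ι : Type*} (s : Finset ι)
    (a : ι → (A.Hom C.i C.i).sec W) (m : ℕ) {z : Fin n → ℂ} (hz : z ∈ C.e '' (W : Set X)) :
    C.T W (∑ i ∈ s, a i) m z = ∑ i ∈ s, C.T W (a i) m z := by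
  classical
  induction s using Finset.induction_on with
  | empty => simp [C.T_zero hW m hz]
  | insert i s hi ih => rw [Finset.sum_insert hi, Finset.sum_insert hi, C.add W hW _ _ _ _ hz, ih]

/-- if all coefficients vanish near `z` then the section vanishes near `z` -/
theorem eq_zero_of_ball {U : Opens X} (hU : U ≤ C.V) (a : (A.Hom C.i C.i).sec U) {z : Fin n → ℂ}
    (hz : z ∈ C.e '' (U : Set X)) (h : ∀ k, ∀ᶠ w in 𝓝 z, C.T U a k w = 0) :
    C.fam U a z = 0 := by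
  obtain ⟨r, hr, hball⟩ := Metric.isOpen_iff.1 (isOpen_image C.e C.src hU) z hz
  have hBV : Metric.ball z r ⊆ C.e '' (C.V : Set X) := hball.trans (image_mono (by exact hU))
  have him := C.image_pre Metric.isOpen_ball hBV
  have hle : C.pre (Metric.ball z r) Metric.isOpen_ball ≤ U := by
    intro x hx
    have h1 : C.e x ∈ Metric.ball z r := hx.1.2
    have h2 := symm_mem C.e C.src hU (hball h1)
    rwa [C.e.left_inv (C.src hx.2)] at h2
  have hzW : z ∈ C.e '' (C.pre (Metric.ball z r) Metric.isOpen_ball : Set X) := by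
    rw [him]
    exact Metric.mem_ball_self hr
  have key : (A.Hom C.i C.i).res hle a = 0 := by
    apply C.inj _ (hle.trans hU)
    intro k w hw
    rw [C.T_zero (hle.trans hU) k hw, C.res U _ hle hU a k w hw]
    rw [him] at hw
    have hd : DifferentiableOn ℂ (C.T U a k) (Metric.ball z r) :=
      (C.diff U hU a k).mono hball
    have han := (DQ.F.differentiableOn_iff_analyticOnNhd Metric.isOpen_ball).1 hd
    have := han.eqOn_zero_of_preconnected_of_eventuallyEq_zero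
      (convex_ball z r).isPreconnected (Metric.mem_ball_self hr) (h k)
    exact this hw
  rw [← C.fam_res hle hU a hzW, key, C.fam_zero (hle.trans hU) hzW]

/-- the deformation attached to the chart -/
noncomputable def defo : Defo.{0, u} (Fin n → ℂ) where
  A := C.sheafR
  hb := C.sc hbar
  hb_at _ hx := C.sc_at hbar hx
  hb_comm _ _ a := C.sc_comm hbar a
  hb_reg z hz a h := by
    obtain ⟨U, a, hU, hzU, rfl⟩ := C.exists_fam hz a
    have h1 : C.fam U (hbar • a) z = C.fam U 0 z := by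
      rw [← C.sc_mul_fam hbar hU a hzU, C.fam_zero hU hzU]
      exact h
    obtain ⟨W, hW, hW', hzW, e⟩ := (C.fam_eq_iff hU hU _ _ hzU hzU).1 h1
    have key : (A.Hom C.i C.i).res hW a = 0 := by
      apply C.inj _ (hW.trans hU)
      intro k w hw
      have e1 := congrArg (fun b => C.T W b (k + 1) w) e
      simp only [map_smul, map_zero] at e1
      rw [C.T_hbar (hW.trans hU) _ _ hw, C.T_zero (hW.trans hU) _ hw] at e1
      rw [C.T_zero (hW.trans hU) _ hw]
      simpa using e1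
    rw [← C.fam_res hW hU a hzW, key, C.fam_zero (hW.trans hU) hzW]
    rfl
  red := C.red
  red_add z hz g g' := by
    obtain ⟨U, a, b, hU, hzU, rfl, rfl⟩ := C.exists_fam₂ hz g g'
    have h1 : C.red z (C.fam U a z + C.fam U b z) = C.red z (C.fam U a z) + C.red z (C.fam U b z) := by
      rw [← C.fam_add hU a b hzU, C.red_fam hU _ hzU, C.red_fam hU _ hzU, C.red_fam hU _ hzU,
        ← gm_add (C.T_holAt hU a 0 hzU) (C.T_holAt hU b 0 hzU)]
      have hs : HolAt (C.T U a 0 + C.T U b 0) z := (C.T_holAt hU a 0 hzU).add (C.T_holAt hU b 0 hzU)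
      rw [gm_eq_iff (C.T_holAt hU _ 0 hzU) hs]
      filter_upwards [(isOpen_image C.e C.src hU).mem_nhds hzU] with w hw
      exact C.add U hU a b 0 w hw
    exact h1
  red_mul z hz g g' := by
    obtain ⟨U, a, b, hU, hzU, rfl, rfl⟩ := C.exists_fam₂ hz g g'
    have h1 : C.red z (C.fam U a z * C.fam U b z) = C.red z (C.fam U a z) * C.red z (C.fam U b z) := by
      rw [← C.fam_mul hU a b hzU, C.red_fam hU _ hzU, C.red_fam hU _ hzU, C.red_fam hU _ hzU,
        ← gm_mul (C.T_holAt hU a 0 hzU) (C.T_holAt hU b 0 hzU)]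
      have hs : HolAt (C.T U a 0 * C.T U b 0) z := (C.T_holAt hU a 0 hzU).mul (C.T_holAt hU b 0 hzU)
      rw [gm_eq_iff (C.T_holAt hU _ 0 hzU) hs]
      filter_upwards [(isOpen_image C.e C.src hU).mem_nhds hzU] with w hw
      exact C.mul U hU a b w hw
    exact h1
  red_one z hz := by
    have hs : HolAt (1 : (Fin n → ℂ) → ℂ) z := HolAt.const 1 z
    have h1 : C.red z 1 = 1 := by
      rw [← C.fam_one le_rfl hz, C.red_fam le_rfl _ hz, ← gm_one]
      rw [gm_eq_iff (C.T_holAt le_rfl _ 0 hz) hs]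
      filter_upwards [(isOpen_image C.e C.src le_rfl).mem_nhds hz] with w hw
      exact C.one C.V le_rfl w hw
    exact h1
  red_surj z hz g := by
    obtain ⟨f, hf, hg⟩ := exists_gm g
    obtain ⟨N, hN, hNo, hzN⟩ := mem_nhds_iff.1 (show {w | DifferentiableAt ℂ f w} ∈ 𝓝 z from hf)
    have hN' : IsOpen (N ∩ C.e '' (C.V : Set X)) := hNo.inter (isOpen_image C.e C.src le_rfl)
    have him := C.image_pre hN' inter_subset_right
    obtain ⟨a, ha⟩ := C.surj (C.pre _ hN') (C.pre_le _ _) (fun k => if k = 0 then f else 0) (by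
      intro k
      rw [him]
      split_ifs
      · intro w hw
        exact (hN hw.1).differentiableWithinAt
      · exact differentiableOn_const 0)
    have hzU : z ∈ C.e '' (C.pre _ hN' : Set X) := by
      rw [him]
      exact ⟨hzN, hz⟩
    refine ⟨C.fam _ a z, ?_⟩
    have h1 : C.red z (C.fam _ a z) = g := by
      rw [C.red_fam (C.pre_le _ _) a hzU, ← hg, gm_eq_iff (C.T_holAt (C.pre_le _ _) a 0 hzU) hf]
      filter_upwards [(isOpen_image C.e C.src (C.pre_le _ hN')).mem_nhds hzU] with w hw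
      rw [ha 0 w hw]
      rfl
    exact h1
  red_ker z hz g := by
    have hs : HolAt (0 : (Fin n → ℂ) → ℂ) z := HolAt.const 0 z
    constructor
    · intro h
      obtain ⟨U, a, hU, hzU, rfl⟩ := C.exists_fam hz g
      have h1 : C.red z (C.fam U a z) = 0 := h
      rw [C.red_fam hU a hzU, ← gm_zero, gm_eq_iff (C.T_holAt hU a 0 hzU) hs] at h1
      obtain ⟨W, hWV, hWU, hzW, hW⟩ := exists_small C.e C.src hz h1 (symm_mem C.e C.src hU hzU)
      have hzW' := C.mem_of_mem hWV hz hzW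
      obtain ⟨b, hb⟩ := C.surj W hWV (fun k => C.T U a (k + 1))
        (fun k => (C.diff U hU a (k + 1)).mono (image_mono (by exact hWU)))
      refine ⟨C.fam W b z, ?_⟩
      have h2 : C.fam U a z = C.sc hbar z * C.fam W b z := by
        rw [C.sc_mul_fam hbar hWV b hzW', ← C.fam_res hWU hU a hzW']
        congr 1
        apply C.inj _ hWV
        intro k w hw
        rw [C.res U W hWU hU a k w hw, C.T_hbar hWV _ _ hw]
        have hw' := (mem_image_iff C.e C.src hWV).1 hw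
        rcases k with _ | k
        · simpa using hW w hw'.1 hw'.2
        · rw [if_pos (by omega), hb _ w hw]
          rfl
      exact h2
    · rintro ⟨b, rfl⟩
      obtain ⟨U, b, hU, hzU, rfl⟩ := C.exists_fam hz b
      have h1 : C.red z (C.sc hbar z * C.fam U b z) = 0 := by
        rw [C.sc_mul_fam hbar hU b hzU, C.red_fam hU _ hzU, ← gm_zero,
          gm_eq_iff (C.T_holAt hU _ 0 hzU) hs]
        filter_upwards [(isOpen_image C.e C.src hU).mem_nhds hzU] with w hw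
        rw [C.T_hbar hU _ _ hw]
        rfl
      exact h1
  red_at {a z} _ ha := by
    obtain ⟨hz, U, b, hU, hzU, h⟩ := ha
    refine ⟨C.T U b 0, C.T_holAt hU b 0 (C.mem_of_mem hU hz hzU), ?_⟩
    filter_upwards [(isOpen_image C.e C.src hU).mem_nhds (C.mem_of_mem hU hz hzU)] with w hw
    have h1 : a w = C.fam U b w := by
      funext ⟨h0⟩
      rw [C.fam_apply b h0 (symm_mem C.e C.src hU hw)]
      exact h w h0 (symm_mem C.e C.src hU hw)
    rw [h1]
    exact C.red_fam hU b hw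
  lift_at {U f} hU hUV hf := by
    obtain ⟨h1, h2⟩ := exists_fun hf
    have him := C.image_pre hU hUV
    obtain ⟨a, ha⟩ := C.surj (C.pre _ hU) (C.pre_le _ _)
      (fun k => if k = 0 then (fun y => val (f y)) else 0) (by
      intro k
      rw [him]
      split_ifs
      · intro w hw
        exact (h1 w hw).differentiableAt.differentiableWithinAt
      · exact differentiableOn_const 0)
    refine ⟨C.fam _ a, fun z hz => C.fam_at (C.pre_le _ _) a (by rw [him]; exact hz),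
      fun z hz => ?_⟩
    have hz' : z ∈ C.e '' (C.pre _ hU : Set X) := by rw [him]; exact hz
    have h3 : C.red z (C.fam _ a z) = f z := by
      rw [C.red_fam (C.pre_le _ _) a hz', ← h2 z hz,
        gm_eq_iff (C.T_holAt (C.pre_le _ _) a 0 hz') (h1 z hz)]
      filter_upwards [(isOpen_image C.e C.src (C.pre_le _ hU)).mem_nhds hz'] with w hw
      rw [ha 0 w hw]
      rfl
    exact h3
  sep z hz g h := by
    obtain ⟨U, a, hU, hzU, rfl⟩ := C.exists_fam hz g
    refine C.eq_zero_of_ball hU a hzU fun k => ?_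
    obtain ⟨b, hb⟩ := h (k + 1)
    obtain ⟨W, b, hW, hzW, rfl⟩ := C.exists_fam hz b
    have h1 : C.fam U a z = C.fam W (hbar ^ (k + 1) • b) z := by
      rw [← C.sc_mul_fam _ hW b hzW, ← C.sc_pow]
      exact hb
    obtain ⟨Z, hZ, hZ', hzZ, e⟩ := (C.fam_eq_iff hU hW _ _ hzU hzW).1 h1
    filter_upwards [(isOpen_image C.e C.src (hZ.trans hU)).mem_nhds hzZ] with w hw
    have e1 := congrArg (fun b => C.T Z b k w) e
    simp only [map_smul] at e1
    rw [C.T_hbar_zero (hZ.trans hU) _ _ _ hw, if_neg (by omega), C.res U Z hZ hU a k w hw] at e1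
    exact e1
  complete {U} a hU hUV ha := by
    have him := C.image_pre hU hUV
    have hle := C.pre_le U hU
    have key : ∀ k, ∃ b : (A.Hom C.i C.i).sec (C.pre U hU), ∀ z ∈ U, a k z = C.fam _ b z := by
      intro k
      obtain ⟨b, hb⟩ := EAt.glue C.src hle (s := a k) (by
        rw [him]
        exact ha k)
      refine ⟨b, fun z hz => ?_⟩
      have hz' : z ∈ C.e '' (C.pre _ hU : Set X) := by rw [him]; exact hz
      funext ⟨h0⟩
      rw [C.fam_apply b h0 (symm_mem C.e C.src hle hz')]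
      exact hb z h0 (symm_mem C.e C.src hle hz')
    choose b hb using key
    obtain ⟨s, hs⟩ := C.surj (C.pre U hU) hle
      (fun m z => ∑ p ∈ Finset.HasAntidiagonal.antidiagonal m, C.T _ (b p.1) p.2 z)
      (fun m => DifferentiableOn.fun_sum fun p _ => C.diff _ hle _ _)
    refine ⟨C.fam _ s, fun z hz => C.fam_at hle s (by rw [him]; exact hz), fun k z hz => ?_⟩
    have hz' : z ∈ C.e '' (C.pre _ hU : Set X) := by rw [him]; exact hz
    obtain ⟨t, ht⟩ := C.surj (C.pre U hU) hle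
      (fun m z => ∑ p ∈ (Finset.HasAntidiagonal.antidiagonal (m + k)).filter (fun p => k ≤ p.1),
        C.T _ (b p.1) p.2 z)
      (fun m => DifferentiableOn.fun_sum fun p _ => C.diff _ hle _ _)
    have h1 : s = (∑ i ∈ Finset.range k, hbar ^ i • b i) + hbar ^ k • t := by
      apply C.inj _ hle
      intro m w hw
      rw [hs m w hw, C.add _ hle _ _ _ _ hw, C.T_sum hle _ _ _ hw, C.T_hbar_zero hle _ _ _ hw,
        ← Finset.sum_filter_add_sum_filter_not _ (fun p : ℕ × ℕ => ¬ k ≤ p.1)]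
      congr 1
      · rw [← Finset.sum_filter_add_sum_filter_not (Finset.range k) (fun i => i ≤ m)]
        rw [Finset.sum_eq_zero (s := (Finset.range k).filter (fun i => ¬ i ≤ m)), add_zero]
        · refine Finset.sum_nbij' (fun p => p.1) (fun i => (i, m - i)) ?_ ?_ ?_ ?_ ?_
          · rintro ⟨p, q⟩ hp
            simp only [Finset.mem_filter, Finset.HasAntidiagonal.mem_antidiagonal] at hp
            simp only [Finset.mem_filter, Finset.mem_range]
            omega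
          · intro i hi
            simp only [Finset.mem_filter, Finset.mem_range] at hi
            simp only [Finset.mem_filter, Finset.HasAntidiagonal.mem_antidiagonal]
            omega
          · rintro ⟨p, q⟩ hp
            simp only [Finset.mem_filter, Finset.HasAntidiagonal.mem_antidiagonal] at hp
            simp only [Prod.mk.injEq, true_and]
            omega
          · intro i hi
            rfl
          · rintro ⟨p, q⟩ hp
            simp only [Finset.mem_filter, Finset.HasAntidiagonal.mem_antidiagonal] at hp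
            simp only
            rw [C.T_hbar_zero hle _ _ _ hw, if_pos (by omega)]
            congr 1
            omega
        · intro i hi
          simp only [Finset.mem_filter] at hi
          rw [C.T_hbar_zero hle _ _ _ hw, if_neg hi.2]
      · split_ifs with hk
        · rw [ht _ w hw, Nat.sub_add_cancel hk]
          simp only [not_not]
        · apply Finset.sum_eq_zero
          rintro ⟨p, q⟩ hp
          simp only [Finset.mem_filter, Finset.HasAntidiagonal.mem_antidiagonal] at hp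
          omega
    refine ⟨C.fam _ t z, ?_⟩
    have h2 : C.fam _ s z = (∑ i ∈ Finset.range k, C.sc hbar z ^ i * C.fam _ (b i) z) +
        C.sc hbar z ^ k * C.fam _ t z := by
      rw [h1, C.fam_add hle _ _ hz', C.fam_sum hle _ _ hz', C.sc_pow, C.sc_mul_fam _ hle _ hz']
      congr 1
      refine Finset.sum_congr rfl fun i _ => ?_
      rw [C.sc_pow, C.sc_mul_fam _ hle _ hz']
    have h3 : (∑ i ∈ Finset.range k, C.sc hbar z ^ i * C.fam _ (b i) z) =
        ∑ i ∈ Finset.range k, (show C.St z from C.sc hbar z ^ i) * (show C.St z from a i z) :=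
      Finset.sum_congr rfl fun i _ => congrArg (fun t : C.St z => C.sc hbar z ^ i * t) (hb i z hz).symm
    rw [h3] at h2
    exact h2

end Loc

end Pool.Agent.DQ
end

section

/-!
# Modules over an algebroid in a chart (campaign DQ, S)
-/

set_option autoImplicit false

open TopologicalSpace Topology Filter Set

universe u

namespace Pool.Agent.DQ

variable {n : ℕ} {X : Type u} [TopologicalSpace X] {A : Algebroid X} {D : Opens X}

namespace Ch

variable (C : Ch n A)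

theorem srcD (D : Opens X) : ((C.V ⊓ D : Opens X) : Set X) ⊆ C.e.source := fun _ h => C.src h.1

theorem memD {z : Fin n → ℂ} (hz : z ∈ C.e '' ((C.V ⊓ D : Opens X) : Set X)) :
    C.e.symm z ∈ A.dom C.i ⊓ D :=
  have h := symm_mem C.e (C.srcD D) le_rfl hz
  ⟨C.dom h.1, h.2⟩

theorem memV {z : Fin n → ℂ} (hz : z ∈ C.e '' ((C.V ⊓ D : Opens X) : Set X)) :
    z ∈ C.e '' (C.V : Set X) := image_mono (fun _ h => h.1) hz

/-- the point of `dom i ∩ D` with coordinates `z` -/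
noncomputable def mpt (z : Fin n → ℂ) (hz : z ∈ C.e '' ((C.V ⊓ D : Opens X) : Set X)) :
    ↥(A.dom C.i ⊓ D) := ⟨C.e.symm z, C.memD hz⟩

end Ch

namespace Mod

variable (M : Mod A D) (C : Ch n A)

/-- stalk at `z` -/
noncomputable def est (z : Fin n → ℂ) : Type u :=
  ∀ h : PLift (z ∈ C.e '' ((C.V ⊓ D : Opens X) : Set X)), M.St C.i (C.mpt z h.down)

noncomputable instance (z : Fin n → ℂ) : AddCommGroup (M.est C z) :=
  inferInstanceAs (AddCommGroup
    (∀ h : PLift (z ∈ C.e '' ((C.V ⊓ D : Opens X) : Set X)), M.St C.i (C.mpt z h.down)))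

noncomputable instance (z : Fin n → ℂ) : Module (C.St z) (M.est C z) where
  smul a m := fun h => (show A.R C.i (A.pt C.i (C.mpt z h.down)) from a ⟨C.memV h.down⟩) • m h
  one_smul m := funext fun h => one_smul (A.R C.i (A.pt C.i (C.mpt z h.down))) (m h)
  mul_smul a b m := funext fun h => mul_smul
    (show A.R C.i (A.pt C.i (C.mpt z h.down)) from a ⟨C.memV h.down⟩)
    (show A.R C.i (A.pt C.i (C.mpt z h.down)) from b ⟨C.memV h.down⟩) (m h)
  smul_zero a := funext fun h => smul_zero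
    (show A.R C.i (A.pt C.i (C.mpt z h.down)) from a ⟨C.memV h.down⟩)
  smul_add a m m' := funext fun h => smul_add
    (show A.R C.i (A.pt C.i (C.mpt z h.down)) from a ⟨C.memV h.down⟩) (m h) (m' h)
  add_smul a b m := funext fun h => add_smul
    (show A.R C.i (A.pt C.i (C.mpt z h.down)) from a ⟨C.memV h.down⟩)
    (show A.R C.i (A.pt C.i (C.mpt z h.down)) from b ⟨C.memV h.down⟩) (m h)
  zero_smul m := funext fun h => zero_smul (A.R C.i (A.pt C.i (C.mpt z h.down))) (m h)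

/-- the family of germs of a section over `U` -/
noncomputable def fam (U : Opens X) (s : (M.sh C.i).sec U) : ∀ z, M.est C z :=
  ffam (M.sh C.i) C.e (C.V ⊓ D) U s

theorem fam_apply {U : Opens X} (s : (M.sh C.i).sec U) {z : Fin n → ℂ}
    (h : z ∈ C.e '' ((C.V ⊓ D : Opens X) : Set X)) (hw : (C.mpt z h).1 ∈ U) :
    M.fam C U s z ⟨h⟩ = M.gm C.i (C.mpt z h) U hw s := ffam_apply s h hw

theorem fam_act {U : Opens X} (hU : U ≤ C.V ⊓ D) (a : (A.Hom C.i C.i).sec U)
    (s : (M.sh C.i).sec U) {z : Fin n → ℂ} (hz : z ∈ C.e '' (U : Set X)) :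
    M.fam C U (M.act U a s) z = C.fam U a z • M.fam C U s z := by
  funext ⟨h0⟩
  have h1 : (C.mpt z h0).1 ∈ U := symm_mem C.e (C.srcD D) hU hz
  have h2 : (C.fam U a z • M.fam C U s z) ⟨h0⟩ =
    (show A.R C.i (A.pt C.i (C.mpt z h0)) from C.fam U a z ⟨C.memV h0⟩) • M.fam C U s z ⟨h0⟩ := rfl
  have h3 : (show A.R C.i (A.pt C.i (C.mpt z h0)) from C.fam U a z ⟨C.memV h0⟩) =
    A.gm C.i (A.pt C.i (C.mpt z h0)) U h1 a := C.fam_apply a (C.memV h0) h1
  rw [h2, h3, M.fam_apply C _ h0 h1, M.fam_apply C _ h0 h1]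
  exact M.gm_smul C.i (C.mpt z h0) h1 (hU.trans (inf_le_inf_right D C.dom)) a s

/-- `M` in the chart as a sheaf of modules -/
noncomputable def emod : EMod.{0, u, u} C.sheafR where
  dom := C.e '' ((C.V ⊓ D : Opens X) : Set X)
  dom_sub := fun _ h => C.memV h
  St := M.est C
  grp z := (inferInstance : AddCommGroup (M.est C z))
  mod z := (inferInstance : Module (C.St z) (M.est C z))
  At s z := EAt (M.sh C.i) C.e (C.V ⊓ D) s z
  mem_dom h := h.mem
  ev h := EAt.ev (C.srcD D) h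
  congr h h' := EAt.congr (C.srcD D) h h'
  inj h h' e := EAt.inj (C.srcD D) h h' e
  surj _ hz g := EAt.surj (C.srcD D) hz g
  zero _ hz := EAt.zero (C.srcD D) hz
  add h h' := EAt.add h h'
  smul {a s z} h h' := by
    obtain ⟨U, b, t, hU, hU', hzU, h1, h2⟩ := h.both h'
    refine ⟨h'.mem, U, M.act U b t, hU', hzU, fun w hw hwU => ?_⟩
    have hwU' : (C.mpt w hw).1 ∈ U := hwU
    have h3 := M.gm_smul C.i (C.mpt w hw) (V := U) hwU'
      (hU'.trans (inf_le_inf_right D C.dom)) b t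
    have h4 : (show A.R C.i (A.pt C.i (C.mpt w hw)) from a w ⟨C.memV hw⟩) =
      A.gm C.i (A.pt C.i (C.mpt w hw)) U hwU' b := h1 w (C.memV hw) hwU
    have h5 : (show M.St C.i (C.mpt w hw) from s w ⟨hw⟩) = M.gm C.i (C.mpt w hw) U hwU' t :=
      h2 w hw hwU
    have h6 : (show M.St C.i (C.mpt w hw) from (show M.est C w from
      (show C.St w from a w) • (show M.est C w from s w)) ⟨hw⟩) =
      (show A.R C.i (A.pt C.i (C.mpt w hw)) from a w ⟨C.memV hw⟩) •
      (show M.St C.i (C.mpt w hw) from s w ⟨hw⟩) := rfl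
    exact (h6.trans (by rw [h4, h5])).trans h3.symm

theorem fam_at {U : Opens X} (hU : U ≤ C.V ⊓ D) (s : (M.sh C.i).sec U) {z : Fin n → ℂ}
    (hz : z ∈ C.e '' (U : Set X)) : (M.emod C).At (M.fam C U s) z :=
  ffam_at (C.srcD D) hU s hz

theorem exists_fam {z : Fin n → ℂ} (hz : z ∈ C.e '' ((C.V ⊓ D : Opens X) : Set X))
    (m : M.est C z) : ∃ (U : Opens X) (s : (M.sh C.i).sec U), U ≤ C.V ⊓ D ∧
      z ∈ C.e '' (U : Set X) ∧ m = M.fam C U s z := _root_.Pool.Agent.DQ.exists_ffam (C.srcD D) hz m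

theorem at_exists {s : ∀ z, M.est C z} {z : Fin n → ℂ} (h : (M.emod C).At s z) :
    ∃ (U : Opens X) (a : (M.sh C.i).sec U), U ≤ C.V ⊓ D ∧ z ∈ C.e '' (U : Set X) ∧
      ∀ w ∈ C.e '' (U : Set X), s w = M.fam C U a w := EAt.exists_ffam (C.srcD D) h

theorem fam_res {U W : Opens X} (h : W ≤ U) (hU : U ≤ C.V ⊓ D) (a : (M.sh C.i).sec U)
    {z : Fin n → ℂ} (hz : z ∈ C.e '' (W : Set X)) :
    M.fam C W ((M.sh C.i).res h a) z = M.fam C U a z := ffam_res (C.srcD D) h hU a hz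

theorem fam_add {U : Opens X} (hU : U ≤ C.V ⊓ D) (a b : (M.sh C.i).sec U) {z : Fin n → ℂ}
    (hz : z ∈ C.e '' (U : Set X)) : M.fam C U (a + b) z = M.fam C U a z + M.fam C U b z :=
  ffam_add (C.srcD D) hU a b hz

theorem fam_zero {U : Opens X} (hU : U ≤ C.V ⊓ D) {z : Fin n → ℂ}
    (hz : z ∈ C.e '' (U : Set X)) : M.fam C U (0 : (M.sh C.i).sec U) z = 0 :=
  ffam_zero (C.srcD D) hU hz

theorem fam_sum {U : Opens X} (hU : U ≤ C.V ⊓ D) {ι : Type*} (s : Finset ι)
    (a : ι → (M.sh C.i).sec U) {z : Fin n → ℂ} (hz : z ∈ C.e '' (U : Set X)) :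
    M.fam C U (∑ i ∈ s, a i) z = ∑ i ∈ s, M.fam C U (a i) z :=
  ffam_sum (C.srcD D) hU s a hz

theorem fam_eq_iff {U U' : Opens X} (hU : U ≤ C.V ⊓ D) (hU' : U' ≤ C.V ⊓ D)
    (a : (M.sh C.i).sec U) (b : (M.sh C.i).sec U') {z : Fin n → ℂ}
    (hz : z ∈ C.e '' (U : Set X)) (hz' : z ∈ C.e '' (U' : Set X)) :
    M.fam C U a z = M.fam C U' b z ↔ ∃ (W : Opens X) (h : W ≤ U) (h' : W ≤ U'),
      z ∈ C.e '' (W : Set X) ∧ (M.sh C.i).res h a = (M.sh C.i).res h' b :=
  ffam_eq_iff (C.srcD D) hU hU' a b hz hz'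

theorem sec_ext_fam {U : Opens X} (hU : U ≤ C.V ⊓ D) {a b : (M.sh C.i).sec U}
    (h : ∀ z ∈ C.e '' (U : Set X), M.fam C U a z = M.fam C U b z) : a = b :=
  sec_ext_ffam (C.srcD D) hU h

theorem glue_fam {U : Opens X} (hU : U ≤ C.V ⊓ D) {s : ∀ z, M.est C z}
    (h : ∀ z ∈ C.e '' (U : Set X), (M.emod C).At s z) :
    ∃ a : (M.sh C.i).sec U, ∀ w ∈ C.e '' (U : Set X), s w = M.fam C U a w :=
  EAt.glue' (C.srcD D) hU h

end Mod

namespace Ch

variable (C : Ch n A)

theorem at_exists {s : ∀ z, C.St z} {z : Fin n → ℂ} (h : C.sheafR.At s z) :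
    ∃ (U : Opens X) (a : (A.Hom C.i C.i).sec U), U ≤ C.V ∧ z ∈ C.e '' (U : Set X) ∧
      ∀ w ∈ C.e '' (U : Set X), s w = C.fam U a w := EAt.exists_ffam C.src h

theorem sec_ext_fam {U : Opens X} (hU : U ≤ C.V) {a b : (A.Hom C.i C.i).sec U}
    (h : ∀ z ∈ C.e '' (U : Set X), C.fam U a z = C.fam U b z) : a = b :=
  sec_ext_ffam C.src hU h

theorem glue_fam {U : Opens X} (hU : U ≤ C.V) {s : ∀ z, C.St z}
    (h : ∀ z ∈ C.e '' (U : Set X), C.sheafR.At s z) :
    ∃ a : (A.Hom C.i C.i).sec U, ∀ w ∈ C.e '' (U : Set X), s w = C.fam U a w :=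
  EAt.glue' C.src hU h

end Ch

end Pool.Agent.DQ
end

section

/-!
# Coherence of a module and of its sheaf of germs (campaign DQ, S)
-/

set_option autoImplicit false

open TopologicalSpace Topology Filter Set

universe u

namespace Pool.Agent.DQ

variable {n : ℕ} {X : Type u} [TopologicalSpace X] {A : Algebroid X} {D : Opens X}

namespace Ch

variable (C : Ch n A)

theorem common {ι : Type*} [Finite ι] {s : ι → ∀ z, C.St z} {z : Fin n → ℂ}
    (h : ∀ l, C.sheafR.At (s l) z) {U : Opens X} (hU : U ≤ C.V) (hz : z ∈ C.e '' (U : Set X))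
    {N : Set (Fin n → ℂ)} (hN : N ∈ 𝓝 z) :
    ∃ (Z : Opens X) (_ : Z ≤ U) (b : ι → (A.Hom C.i C.i).sec Z), z ∈ C.e '' (Z : Set X) ∧
      C.e '' (Z : Set X) ⊆ N ∧ ∀ l, ∀ w ∈ C.e '' (Z : Set X), s l w = C.fam Z (b l) w :=
  EAt.common C.src h hU hz hN

/-- finitely many germs are germs of sections over a small open set -/
theorem common_germ {ι : Type*} [Finite ι] {z : Fin n → ℂ} (c : ι → C.St z) {U : Opens X}
    (hU : U ≤ C.V) (hz : z ∈ C.e '' (U : Set X)) {N : Set (Fin n → ℂ)} (hN : N ∈ 𝓝 z) :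
    ∃ (Z : Opens X) (_ : Z ≤ U) (b : ι → (A.Hom C.i C.i).sec Z), z ∈ C.e '' (Z : Set X) ∧
      C.e '' (Z : Set X) ⊆ N ∧ ∀ l, c l = C.fam Z (b l) z := by
  have h1 := fun l => C.sheafR.surj z (image_mono (by exact hU) hz) (c l)
  choose s hs hsz using h1
  obtain ⟨Z, hZ, b, hzZ, hN', hb⟩ := C.common hs hU hz hN
  exact ⟨Z, hZ, b, hzZ, hN', fun l => (hsz l).symm.trans (hb l z hzZ)⟩

end Ch

namespace Mod

variable (M : Mod A D) (C : Ch n A)

theorem common {ι : Type*} [Finite ι] {s : ι → ∀ z, M.est C z} {z : Fin n → ℂ}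
    (h : ∀ l, (M.emod C).At (s l) z) {U : Opens X} (hU : U ≤ C.V ⊓ D)
    (hz : z ∈ C.e '' (U : Set X)) {N : Set (Fin n → ℂ)} (hN : N ∈ 𝓝 z) :
    ∃ (Z : Opens X) (_ : Z ≤ U) (b : ι → (M.sh C.i).sec Z), z ∈ C.e '' (Z : Set X) ∧
      C.e '' (Z : Set X) ⊆ N ∧ ∀ l, ∀ w ∈ C.e '' (Z : Set X), s l w = M.fam C Z (b l) w :=
  EAt.common (C.srcD D) h hU hz hN

theorem fam_lincomb {U : Opens X} (hU : U ≤ C.V ⊓ D) {k : ℕ} (c : Fin k → (A.Hom C.i C.i).sec U)
    (g : Fin k → (M.sh C.i).sec U) {z : Fin n → ℂ} (hz : z ∈ C.e '' (U : Set X)) :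
    M.fam C U (∑ l, M.act U (c l) (g l)) z = ∑ l, C.fam U (c l) z • M.fam C U (g l) z := by
  rw [M.fam_sum C hU _ _ hz]
  exact Finset.sum_congr rfl fun l _ => M.fam_act C hU _ _ hz

theorem _root_.Pool.Agent.DQ.Ch.fam_lincomb {U : Opens X} (hU : U ≤ C.V) {k : ℕ}
    (c g : Fin k → (A.Hom C.i C.i).sec U) {z : Fin n → ℂ} (hz : z ∈ C.e '' (U : Set X)) :
    C.fam U (∑ l, A.comp U (c l) (g l)) z = ∑ l, C.fam U (c l) z * C.fam U (g l) z := by
  rw [C.fam_sum hU _ _ hz]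
  exact Finset.sum_congr rfl fun l _ => C.fam_mul hU _ _ hz

/-- equality of germs spreads out -/
theorem eq_of_germ {U : Opens X} (hU : U ≤ C.V ⊓ D) (a b : (M.sh C.i).sec U) {z : Fin n → ℂ}
    (hz : z ∈ C.e '' (U : Set X)) (h : M.fam C U a z = M.fam C U b z) :
    ∃ (W : Opens X) (h : W ≤ U), z ∈ C.e '' (W : Set X) ∧
      (M.sh C.i).res h a = (M.sh C.i).res h b := by
  obtain ⟨W, h1, h2, hzW, e⟩ := (M.fam_eq_iff C hU hU a b hz hz).1 h
  exact ⟨W, h1, hzW, e⟩

/-- a coherent module has a coherent sheaf of germs -/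
theorem coh_of_coherent (hM : M.Coherent) {z : Fin n → ℂ}
    (hz : z ∈ C.e '' ((C.V ⊓ D : Opens X) : Set X)) : (M.emod C).CohAt z := by
  have hzD := C.memD hz
  have hzV := symm_mem C.e (C.srcD D) le_rfl hz
  refine ⟨hz, ?_, ?_⟩
  · obtain ⟨W, hW, hxW, k, g, hg⟩ := hM.1 C.i _ hzD
    have hW' : W ⊓ (C.V ⊓ D) ≤ C.V ⊓ D := inf_le_right
    have hz' : z ∈ C.e '' ((W ⊓ (C.V ⊓ D) : Opens X) : Set X) :=
      mem_of_mem (C.srcD D) hW' hz ⟨hxW, hzV⟩
    refine ⟨k, fun l => M.fam C _ ((M.sh C.i).res (inf_le_left : W ⊓ (C.V ⊓ D) ≤ W) (g l)),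
      fun l => M.fam_at C hW' _ hz', ?_⟩
    filter_upwards [(isOpen_image C.e (C.srcD D) hW').mem_nhds hz'] with y hy
    refine Submodule.eq_top_iff'.2 fun m => ?_
    obtain ⟨U, s, hU, hyU, rfl⟩ := M.exists_fam C (image_mono (by exact hW') hy) m
    have hyU' := symm_mem C.e (C.srcD D) hU hyU
    have hyW' := symm_mem C.e (C.srcD D) hW' hy
    obtain ⟨Z, hZ, hyZ, c, hc⟩ := hg (U ⊓ (W ⊓ (C.V ⊓ D))) (inf_le_right.trans inf_le_left)
      ((M.sh C.i).res inf_le_left s) _ ⟨hyU', hyW'⟩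
    rw [Sh.res_res] at hc
    have hZV : Z ≤ C.V ⊓ D := hZ.trans (inf_le_right.trans inf_le_right)
    have hyZ' : y ∈ C.e '' (Z : Set X) := mem_of_mem (C.srcD D) hZV
      (image_mono (by exact hW') hy) hyZ
    rw [← M.fam_res C (hZ.trans inf_le_left) hU s hyZ', hc, M.fam_lincomb C hZV _ _ hyZ']
    refine Submodule.sum_mem _ fun l _ => Submodule.smul_mem _ _ (Submodule.subset_span ⟨l, ?_⟩)
    change M.fam C _ ((M.sh C.i).res _ (g l)) y = _
    rw [← M.fam_res C (hZ.trans inf_le_right) hW' _ hyZ', Sh.res_res]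
  · intro k g hg
    obtain ⟨U, hU, a, hzU, -, ha⟩ := M.common C hg le_rfl hz univ_mem
    obtain ⟨W, hW, hxW, m, r, hr, hr'⟩ := hM.2 C.i U (hU.trans (inf_le_left.trans C.dom))
      (hU.trans inf_le_right) k a _ (symm_mem C.e (C.srcD D) hU hzU)
    have hWV : W ≤ C.V ⊓ D := hW.trans hU
    have hzW : z ∈ C.e '' (W : Set X) := mem_of_mem (C.srcD D) hWV hz hxW
    refine ⟨m, fun p l => C.fam W (r p l), fun p l => C.fam_at (hWV.trans inf_le_left) _ hzW, ?_⟩
    filter_upwards [(isOpen_image C.e (C.srcD D) hWV).mem_nhds hzW] with y hy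
    have hyV : y ∈ C.e '' ((C.V ⊓ D : Opens X) : Set X) := image_mono (by exact hWV) hy
    have hga : ∀ l, g l y = M.fam C W ((M.sh C.i).res hW (a l)) y := fun l => by
      rw [ha l y (image_mono (by exact hW) hy), M.fam_res C hW hU _ hy]
    apply le_antisymm
    · intro c hc
      change ∑ l, (show C.St y from c l) • (show M.est C y from g l y) = 0 at hc
      obtain ⟨Z, hZ, b, hyZ, -, hb⟩ := C.common_germ (fun l => (show C.St y from c l))
        (hWV.trans inf_le_left) hy univ_mem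
      have hZV : Z ≤ C.V ⊓ D := hZ.trans hWV
      have h1 : M.fam C Z (∑ l, M.act Z (b l) ((M.sh C.i).res (hZ.trans hW) (a l))) y =
          M.fam C Z 0 y := by
        rw [M.fam_lincomb C hZV _ _ hyZ, M.fam_zero C hZV hyZ, ← hc]
        refine Finset.sum_congr rfl fun l _ => ?_
        rw [hb l, hga l, ← M.fam_res C hZ hWV _ hyZ, Sh.res_res]
      obtain ⟨Z', hZ', hyZ', h2⟩ := M.eq_of_germ C hZV _ _ hyZ h1
      have hZ'V : Z' ≤ C.V ⊓ D := hZ'.trans hZV
      have h3 : ∑ l, M.act Z' ((A.Hom C.i C.i).res hZ' (b l))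
          ((M.sh C.i).res ((hZ'.trans hZ).trans hW) (a l)) = 0 := by
        rw [map_sum, map_zero] at h2
        rw [← h2]
        refine Finset.sum_congr rfl fun l _ => ?_
        rw [M.res_act hZ' (hZV.trans (inf_le_left.trans C.dom))
          (hZV.trans (inf_le_left.trans C.dom)) (hZV.trans inf_le_right), Sh.res_res]
      obtain ⟨Z₂, hZ₂, hyZ₂, e, he⟩ := hr' Z' (hZ'.trans hZ) _ h3 _
        (symm_mem C.e (C.srcD D) hZ'V hyZ')
      have hZ₂V : Z₂ ≤ C.V ⊓ D := hZ₂.trans hZ'V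
      have hyZ₂' : y ∈ C.e '' (Z₂ : Set X) := mem_of_mem (C.srcD D) hZ₂V hyV hyZ₂
      have h4 : c = ∑ p, (show C.sheafR.St y from C.fam Z₂ (e p) y) •
          (fun l => (show C.sheafR.St y from C.fam W (r p l) y)) := by
        funext l
        rw [Finset.sum_apply]
        have h5 : c l = C.fam Z (b l) y := hb l
        rw [h5, ← C.fam_res (hZ₂.trans hZ') (hZV.trans inf_le_left) (b l) hyZ₂']
        have h6 := he l
        rw [Sh.res_res] at h6
        rw [h6, C.fam_lincomb (hZ₂V.trans inf_le_left) _ _ hyZ₂']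
        refine Finset.sum_congr rfl fun p _ => ?_
        rw [C.fam_res _ (hWV.trans inf_le_left) _ hyZ₂']
        rfl
      rw [h4]
      exact Submodule.sum_mem _ fun p _ => Submodule.smul_mem _ _ (Submodule.subset_span ⟨p, rfl⟩)
    · rw [Submodule.span_le]
      rintro _ ⟨p, rfl⟩
      change ∑ l, C.fam W (r p l) y • (show M.est C y from g l y) = 0
      have h1 : M.fam C W (∑ l, M.act W (r p l) ((M.sh C.i).res hW (a l))) y = M.fam C W 0 y :=
        congrArg (fun t => M.fam C W t y) (hr p)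
      rw [M.fam_lincomb C hWV _ _ hy, M.fam_zero C hWV hy] at h1
      rw [← h1]
      exact Finset.sum_congr rfl fun l _ => by rw [hga l]

end Mod

end Pool.Agent.DQ
end

section

/-!
# A module is coherent if its sheaves of germs are (campaign DQ, S)
-/

set_option autoImplicit false

open TopologicalSpace Topology Filter Set

universe u

namespace Pool.Agent.DQ

variable {n : ℕ} {X : Type u} [TopologicalSpace X] {A : Algebroid X} {D : Opens X}

/-- an element of the span of finitely many elements is a linear combination -/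
theorem exists_sum_of_mem_span {R M : Type*} [Ring R] [AddCommGroup M] [Module R M] {k : ℕ}
    {g : Fin k → M} {m : M} (h : m ∈ Submodule.span R (Set.range g)) :
    ∃ c : Fin k → R, m = ∑ l, c l • g l := by
  obtain ⟨c, hc⟩ := (Submodule.mem_span_range_iff_exists_fun R).1 h
  exact ⟨c, hc.symm⟩

namespace Mod

variable (M : Mod A D) (C : Ch n A)

/-- local generation in the chart gives local generation of the module -/
theorem gen_of_chart {z : Fin n → ℂ} {k : ℕ} {g : Fin k → ∀ y, M.est C y}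
    (hz : z ∈ C.e '' ((C.V ⊓ D : Opens X) : Set X))
    (hg : ∀ l, (M.emod C).At (g l) z)
    (hgen : ∀ᶠ y in 𝓝 z, Submodule.span (C.St y) (Set.range fun l => g l y) = ⊤) :
    ∃ (V : Opens X), V ≤ C.V ⊓ D ∧ C.e.symm z ∈ V ∧
      ∃ (g' : Fin k → (M.sh C.i).sec V), M.Generates C.i V g' := by
  obtain ⟨Z, hZ, b, hzZ, hZN, hb⟩ := M.common C hg le_rfl hz hgen
  refine ⟨Z, hZ, symm_mem C.e (C.srcD D) hZ hzZ, b, ?_⟩
  intro W hW s x hx
  have hWV : W ≤ C.V ⊓ D := hW.trans hZ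
  have hy : C.e x ∈ C.e '' (W : Set X) := mem_image_of_mem _ hx
  have hyZ : C.e x ∈ C.e '' (Z : Set X) := image_mono (by exact hW) hy
  have h1 : M.fam C W s (C.e x) ∈ Submodule.span (C.St (C.e x))
      (Set.range fun l => g l (C.e x)) := by
    have : Submodule.span (C.St (C.e x)) (Set.range fun l => g l (C.e x)) = ⊤ := hZN hyZ
    rw [this]
    trivial
  obtain ⟨c, hc⟩ := exists_sum_of_mem_span h1
  obtain ⟨Z', hZ', c', hyZ', -, hc'⟩ := C.common_germ c (hWV.trans inf_le_left) hy univ_mem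
  have hZ'V : Z' ≤ C.V ⊓ D := hZ'.trans hWV
  have h2 : M.fam C Z' ((M.sh C.i).res hZ' s) (C.e x) = M.fam C Z' (∑ l, M.act Z' (c' l)
      ((M.sh C.i).res (hZ'.trans hW) (b l))) (C.e x) := by
    rw [M.fam_res C hZ' hWV _ hyZ', hc, M.fam_lincomb C hZ'V _ _ hyZ']
    refine Finset.sum_congr rfl fun l _ => ?_
    rw [hc' l, hb l _ hyZ, M.fam_res C (hZ'.trans hW) hZ _ hyZ']
  obtain ⟨Z₂, hZ₂, hyZ₂, h3⟩ := M.eq_of_germ C hZ'V _ _ hyZ' h2
  have hxZ₂ : x ∈ Z₂ := by
    have := symm_mem C.e (C.srcD D) (hZ₂.trans hZ'V) hyZ₂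
    rwa [C.e.left_inv (C.srcD D (hWV hx))] at this
  refine ⟨Z₂, hZ₂.trans hZ', hxZ₂, fun l => (A.Hom C.i C.i).res hZ₂ (c' l), ?_⟩
  rw [Sh.res_res] at h3
  rw [h3, map_sum]
  refine Finset.sum_congr rfl fun l _ => ?_
  rw [M.res_act hZ₂ (hZ'V.trans (inf_le_left.trans C.dom))
    (hZ'V.trans (inf_le_left.trans C.dom)) (hZ'V.trans inf_le_right), Sh.res_res]

/-- finite generation of the relations in the chart gives finite generation of the relations -/
theorem rel_of_chart {x : X} (hx : x ∈ C.V ⊓ D) (hM : (M.emod C).CohAt (C.e x))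
    {U : Opens X} (hU : U ≤ D) (hxU : x ∈ U) {k : ℕ} (g : Fin k → (M.sh C.i).sec U) :
    ∃ (V : Opens X) (hV : V ≤ U), x ∈ V ∧ ∃ (m : ℕ) (r : Fin m → Fin k → (A.Hom C.i C.i).sec V),
      (∀ p, ∑ l, M.act V (r p l) ((M.sh C.i).res hV (g l)) = 0) ∧
      ∀ (W : Opens X) (hW : W ≤ V) (c : Fin k → (A.Hom C.i C.i).sec W),
        ∑ l, M.act W (c l) ((M.sh C.i).res (hW.trans hV) (g l)) = 0 →
        Locally W fun Z hZ => ∃ e : Fin m → (A.Hom C.i C.i).sec Z, ∀ l,
          (A.Hom C.i C.i).res hZ (c l) =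
            ∑ p, A.comp Z (e p) ((A.Hom C.i C.i).res (hZ.trans hW) (r p l)) := by
  have hz : C.e x ∈ C.e '' ((C.V ⊓ D : Opens X) : Set X) := mem_image_of_mem _ hx
  have hU'V : U ⊓ C.V ≤ C.V ⊓ D := le_inf inf_le_right (inf_le_left.trans hU)
  have hzU : C.e x ∈ C.e '' ((U ⊓ C.V : Opens X) : Set X) := mem_image_of_mem _ ⟨hxU, hx.1⟩
  obtain ⟨m, r, hr, hrel⟩ := hM.2.2 k (fun l => M.fam C _ ((M.sh C.i).res
    (inf_le_left : U ⊓ C.V ≤ U) (g l))) (fun l => M.fam_at C hU'V _ hzU)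
  obtain ⟨Z, hZ, b, hzZ, hZN, hb⟩ := C.common (ι := Fin m × Fin k) (s := fun q => r q.1 q.2)
    (fun q => hr q.1 q.2) (hU'V.trans inf_le_left) hzU hrel
  have hZV : Z ≤ C.V ⊓ D := hZ.trans hU'V
  have hxZ : x ∈ Z := by
    have := symm_mem C.e (C.srcD D) hZV hzZ
    rwa [C.e.left_inv (C.srcD D hx)] at this
  have hfg : ∀ l, ∀ (W : Opens X) (hW : W ≤ Z), ∀ y ∈ C.e '' (W : Set X),
      M.fam C W ((M.sh C.i).res ((hW.trans hZ).trans inf_le_left) (g l)) y =
        M.fam C _ ((M.sh C.i).res (inf_le_left : U ⊓ C.V ≤ U) (g l)) y := by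
    intro l W hW y hy
    rw [← M.fam_res C (hW.trans hZ) hU'V _ hy, Sh.res_res]
  refine ⟨Z, hZ.trans inf_le_left, hxZ, m, fun p l => b (p, l), ?_, ?_⟩
  · intro p
    apply M.sec_ext_fam C hZV
    intro y hy
    have h1 : (fun l => r p l y) ∈ (M.emod C).rel (fun l => M.fam C _ ((M.sh C.i).res
        (inf_le_left : U ⊓ C.V ≤ U) (g l))) y := by
      have : (M.emod C).rel _ y = _ := hZN hy
      rw [this]
      exact Submodule.subset_span ⟨p, rfl⟩
    change ∑ l, (show C.St y from r p l y) • M.fam C _ ((M.sh C.i).res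
      (inf_le_left : U ⊓ C.V ≤ U) (g l)) y = 0 at h1
    rw [M.fam_lincomb C hZV _ _ hy, M.fam_zero C hZV hy, ← h1]
    refine Finset.sum_congr rfl fun l _ => ?_
    rw [hfg l Z le_rfl y hy]
    congr 1
    exact (hb (p, l) y hy).symm
  · intro W hW c hc x' hx'
    have hWV : W ≤ C.V ⊓ D := hW.trans hZV
    have hy : C.e x' ∈ C.e '' (W : Set X) := mem_image_of_mem _ hx'
    have hyZ : C.e x' ∈ C.e '' (Z : Set X) := image_mono (by exact hW) hy
    have h1 : (fun l => (show C.sheafR.St (C.e x') from C.fam W (c l) (C.e x'))) ∈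
        (M.emod C).rel (fun l => M.fam C _ ((M.sh C.i).res
        (inf_le_left : U ⊓ C.V ≤ U) (g l))) (C.e x') := by
      change ∑ l, C.fam W (c l) (C.e x') • M.fam C _ ((M.sh C.i).res
        (inf_le_left : U ⊓ C.V ≤ U) (g l)) (C.e x') = 0
      have h2 : M.fam C W (∑ l, M.act W (c l) ((M.sh C.i).res
          (hW.trans (hZ.trans inf_le_left)) (g l))) (C.e x') = M.fam C W 0 (C.e x') :=
        congrArg (fun t => M.fam C W t (C.e x')) hc
      rw [M.fam_lincomb C hWV _ _ hy, M.fam_zero C hWV hy] at h2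
      rw [← h2]
      refine Finset.sum_congr rfl fun l _ => ?_
      rw [hfg l W hW _ hy]
    have h3 : (M.emod C).rel _ (C.e x') = _ := hZN hyZ
    rw [h3] at h1
    obtain ⟨e, he⟩ := exists_sum_of_mem_span h1
    obtain ⟨Z', hZ', e', hyZ', -, he'⟩ := C.common_germ (fun p => (show C.St (C.e x') from e p))
      (hWV.trans inf_le_left) hy univ_mem
    have hZ'V : Z' ≤ C.V := hZ'.trans (hWV.trans inf_le_left)
    have h4 : ∀ l, ∃ (Z₂ : Opens X) (h : Z₂ ≤ Z'), x' ∈ Z₂ ∧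
        (A.Hom C.i C.i).res h ((A.Hom C.i C.i).res hZ' (c l)) =
        (A.Hom C.i C.i).res h (∑ p, A.comp Z' (e' p)
          ((A.Hom C.i C.i).res (hZ'.trans hW) (b (p, l)))) := by
      intro l
      have h5 : C.fam Z' ((A.Hom C.i C.i).res hZ' (c l)) (C.e x') =
          C.fam Z' (∑ p, A.comp Z' (e' p)
          ((A.Hom C.i C.i).res (hZ'.trans hW) (b (p, l)))) (C.e x') := by
        rw [C.fam_res hZ' (hWV.trans inf_le_left) _ hyZ', C.fam_lincomb hZ'V _ _ hyZ']
        have h6 := congrFun he l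
        rw [Finset.sum_apply] at h6
        refine h6.trans (Finset.sum_congr rfl fun p _ => ?_)
        have h7 : (show C.St (C.e x') from e p) = C.fam Z' (e' p) (C.e x') := he' p
        rw [C.fam_res (hZ'.trans hW) (hZV.trans inf_le_left) _ hyZ', ← hb (p, l) _ hyZ, ← h7]
        rfl
      obtain ⟨Z₂, h, h', hyZ₂, h8⟩ := (C.fam_eq_iff hZ'V hZ'V _ _ hyZ' hyZ').1 h5
      refine ⟨Z₂, h, ?_, h8⟩
      have := symm_mem C.e C.src (h.trans hZ'V) hyZ₂
      rwa [C.e.left_inv (C.srcD D (hWV hx'))] at this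
    choose Z₂ hZ₂ hxZ₂ h5 using h4
    have hopen : IsOpen ((Z' : Set X) ∩ ⋂ l, (Z₂ l : Set X)) :=
      Z'.2.inter (isOpen_iInter_of_finite fun l => (Z₂ l).2)
    let Z₃ : Opens X := ⟨_, hopen⟩
    have hZ₃ : Z₃ ≤ Z' := fun y hy => hy.1
    have hZ₃l : ∀ l, Z₃ ≤ Z₂ l := fun l y hy => mem_iInter.1 hy.2 l
    have hx'Z' : x' ∈ Z' := by
      have := symm_mem C.e C.src hZ'V hyZ'
      rwa [C.e.left_inv (C.srcD D (hWV hx'))] at this
    refine ⟨Z₃, hZ₃.trans hZ', ⟨hx'Z', mem_iInter.2 fun l => hxZ₂ l⟩,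
      fun p => (A.Hom C.i C.i).res hZ₃ (e' p), fun l => ?_⟩
    have h6 := congrArg ((A.Hom C.i C.i).res (hZ₃l l)) (h5 l)
    simp only [Sh.res_res] at h6
    rw [h6, map_sum]
    refine Finset.sum_congr rfl fun p _ => ?_
    have hd : Z' ≤ A.dom C.i := hZ'V.trans C.dom
    rw [A.res_comp hZ₃ hd hd hd, Sh.res_res]

/-- a module is coherent if it is so in charts -/
theorem coherent_of_charts
    (h : ∀ (i : A.Obj) (x : X), x ∈ A.dom i → x ∈ D →
      ∃ C : Ch n A, C.i = i ∧ x ∈ C.V ∧ (M.emod C).CohAt (C.e x)) : M.Coherent := by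
  constructor
  · rintro i x ⟨hxi, hxD⟩
    obtain ⟨C, rfl, hxV, hC⟩ := h i x hxi hxD
    obtain ⟨hz, ⟨k, g, hg, hgen⟩, -⟩ := hC
    obtain ⟨V, hV, hxV', g', hg'⟩ := M.gen_of_chart C hz hg hgen
    rw [C.e.left_inv (C.src hxV)] at hxV'
    exact ⟨V, hV.trans (inf_le_inf_right D C.dom), hxV', k, g', hg'⟩
  · rintro i U hUi hUD k g x hx
    obtain ⟨C, rfl, hxV, hC⟩ := h i x (hUi hx) (hUD hx)
    exact M.rel_of_chart C ⟨hxV, hUD hx⟩ hC hUD hx g

end Mod

end Pool.Agent.DQ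
end

section

/-!
# The direct image in a chart, and uniqueness of extensions (campaign DQ, S)
-/

set_option autoImplicit false

open TopologicalSpace Topology Filter Set

universe u v w w'

namespace Pool.Agent.DQ

/-! ### Extensions in etale style -/

section ext

variable {X : Type u} [TopologicalSpace X] {R : ERing.{u, v} X}

/-- `N` (over the open set `U`) is the direct image of the restriction of `M` to `U \ Y`, by the
maps `φ` -/
structure IsExt (N : EMod.{u, v, w} R) (M : EMod.{u, v, w'} R) (φ : ∀ x, N.St x → M.St x)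
    (U Y : Set X) : Prop where
  dom : U ⊆ N.dom
  add : ∀ x ∈ U \ Y, ∀ m m', φ x (m + m') = φ x m + φ x m'
  smul : ∀ x ∈ U \ Y, ∀ (a : R.St x) m, φ x (a • m) = a • φ x m
  inj : ∀ x ∈ U \ Y, ∀ m, φ x m = 0 → m = 0
  at_map : ∀ s, ∀ x ∈ U \ Y, N.At s x → M.At (fun y => φ y (s y)) x
  ext : ∀ Z ⊆ U, IsOpen Z → ∀ s, M.On s (Z \ Y) →
    ∃ t, N.On t Z ∧ ∀ x ∈ Z \ Y, φ x (t x) = s x
  uniq : ∀ Z ⊆ U, IsOpen Z → ∀ t, N.On t Z → (∀ x ∈ Z \ Y, t x = 0) → ∀ x ∈ Z, t x = 0

namespace IsExt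

variable {N : EMod.{u, v, w} R} {M : EMod.{u, v, w'} R} {φ : ∀ x, N.St x → M.St x}
    {U Y : Set X}

theorem mono (h : IsExt N M φ U Y) {U' : Set X} (hU : U' ⊆ U) : IsExt N M φ U' Y where
  dom := hU.trans h.dom
  add x hx := h.add x ⟨hU hx.1, hx.2⟩
  smul x hx := h.smul x ⟨hU hx.1, hx.2⟩
  inj x hx := h.inj x ⟨hU hx.1, hx.2⟩
  at_map s x hx := h.at_map s x ⟨hU hx.1, hx.2⟩
  ext Z hZ := h.ext Z (hZ.trans hU)
  uniq Z hZ := h.uniq Z (hZ.trans hU)

theorem zero (h : IsExt N M φ U Y) {x : X} (hx : x ∈ U \ Y) : φ x 0 = 0 := by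
  have := h.add x hx 0 0
  rw [add_zero] at this
  exact left_eq_add.1 this

theorem sum (h : IsExt N M φ U Y) {x : X} (hx : x ∈ U \ Y) {k : ℕ} (c : Fin k → R.St x)
    (g : Fin k → N.St x) : φ x (∑ l, c l • g l) = ∑ l, c l • φ x (g l) := by
  classical
  have key : ∀ s : Finset (Fin k), φ x (∑ l ∈ s, c l • g l) = ∑ l ∈ s, c l • φ x (g l) := by
    intro s
    induction s using Finset.induction_on with
    | empty => simpa using h.zero hx
    | insert i s hi ih => rw [Finset.sum_insert hi, Finset.sum_insert hi, h.add x hx,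
        h.smul x hx, ih]
  exact key _

/-- two sections which agree off `Y` are equal -/
theorem eq_of_off (h : IsExt N M φ U Y) {Z : Set X} (hZ : Z ⊆ U) (hZo : IsOpen Z)
    {s t : ∀ x, N.St x} (hs : N.On s Z) (ht : N.On t Z)
    (hst : ∀ x ∈ Z \ Y, φ x (s x) = φ x (t x)) : ∀ x ∈ Z, s x = t x := by
  have hR : Z ⊆ R.dom := fun x hx => N.dom_sub (h.dom (hZ hx))
  have h1 : N.On (fun x => s x + (-1 : R.St x) • t x) Z := fun x hx =>
    N.add (hs x hx) (N.smul (R.neg (R.one x (hR hx))) (ht x hx))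
  have h2 := h.uniq Z hZ hZo _ h1 (by
    intro x hx
    have hxU : x ∈ U \ Y := ⟨hZ hx.1, hx.2⟩
    apply h.inj x hxU
    rw [h.add x hxU, h.smul x hxU, hst x hx]
    simp)
  intro x hx
  have := h2 x hx
  simp only [neg_smul, one_smul] at this
  exact sub_eq_zero.1 (by rw [sub_eq_add_neg]; exact this)

end IsExt

/-- finitely many elements of a stalk extend to sections over a common open set -/
theorem ERing.exists_secs {ι : Type*} [Finite ι] {x : X} (hx : x ∈ R.dom) (c : ι → R.St x) :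
    ∃ (Z : Set X) (s : ι → ∀ y, R.St y), IsOpen Z ∧ x ∈ Z ∧ (∀ l, ∀ y ∈ Z, R.At (s l) y) ∧
      ∀ l, s l x = c l := by
  choose s hs hsx using fun l => R.surj x hx (c l)
  have h1 : ∀ᶠ y in 𝓝 x, ∀ l, R.At (s l) y := eventually_all.2 fun l => R.ev (hs l)
  obtain ⟨Z, hZ, hZo, hxZ⟩ := mem_nhds_iff.1 h1
  exact ⟨Z, s, hZo, hxZ, fun l y hy => hZ hy l, hsx⟩

theorem EMod.off_at_sum {M : EMod.{u, v, w} R} {x : X} (hx : x ∈ M.dom) {k : ℕ}
    {c : Fin k → ∀ y, R.St y} {g : Fin k → ∀ y, M.St y} (hc : ∀ l, R.At (c l) x)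
    (hg : ∀ l, M.At (g l) x) : M.At (fun y => ∑ l, c l y • g l y) x := by
  classical
  have key : ∀ s : Finset (Fin k), M.At (fun y => ∑ l ∈ s, c l y • g l y) x := by
    intro s
    induction s using Finset.induction_on with
    | empty =>
      simp only [Finset.sum_empty]
      exact M.zero x hx
    | insert i s hi ih =>
      have : (fun y => ∑ l ∈ insert i s, c l y • g l y) =
          (fun y => c i y • g i y) + fun y => ∑ l ∈ s, c l y • g l y := by
        funext y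
        rw [Finset.sum_insert hi]
        rfl
      rw [this]
      exact M.add (M.smul (hc i) (hg i)) ih
  exact key _

/-- uniqueness of the direct image: coherence near a point does not depend on the extension -/
theorem IsExt.cohAt {N₁ : EMod.{u, v, w} R} {N₂ : EMod.{u, v, w'} R} {M : EMod.{u, v, w'} R}
    {φ₁ : ∀ x, N₁.St x → M.St x} {φ₂ : ∀ x, N₂.St x → M.St x} {U Y : Set X} (hU : IsOpen U)
    (h₁ : IsExt N₁ M φ₁ U Y) (h₂ : IsExt N₂ M φ₂ U Y) {x : X} (hx : x ∈ U) (h : N₁.CohAt x) :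
    N₂.CohAt x := by
  obtain ⟨-, ⟨k, g, hg, hgen⟩, hrel⟩ := h
  -- transfer of sections
  have tr₁ : ∀ Z ⊆ U, IsOpen Z → ∀ t₁, N₁.On t₁ Z →
      ∃ t₂, N₂.On t₂ Z ∧ ∀ y ∈ Z \ Y, φ₂ y (t₂ y) = φ₁ y (t₁ y) := fun Z hZ hZo t₁ ht₁ =>
    h₂.ext Z hZ hZo (fun y => φ₁ y (t₁ y)) fun y hy => h₁.at_map t₁ y ⟨hZ hy.1, hy.2⟩ (ht₁ y hy.1)
  have tr₂ : ∀ Z ⊆ U, IsOpen Z → ∀ t₂, N₂.On t₂ Z →
      ∃ t₁, N₁.On t₁ Z ∧ ∀ y ∈ Z \ Y, φ₁ y (t₁ y) = φ₂ y (t₂ y) := fun Z hZ hZo t₂ ht₂ =>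
    h₁.ext Z hZ hZo (fun y => φ₂ y (t₂ y)) fun y hy => h₂.at_map t₂ y ⟨hZ hy.1, hy.2⟩ (ht₂ y hy.1)
  refine ⟨h₂.dom hx, ?_, ?_⟩
  · have h1 : ∀ᶠ y in 𝓝 x, (∀ l, N₁.At (g l) y) ∧
        Submodule.span (R.St y) (Set.range fun i => g i y) = ⊤ :=
      (eventually_all.2 fun l => N₁.ev (hg l)).and hgen
    obtain ⟨Z, hZ, hZo, hxZ⟩ := mem_nhds_iff.1 (inter_mem h1 (hU.mem_nhds hx))
    have h2 := fun l => tr₁ Z (fun y hy => (hZ hy).2) hZo (g l) (fun y hy => (hZ hy).1.1 l)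
    choose g' hg' hg'' using h2
    refine ⟨k, g', fun l => hg' l x hxZ, ?_⟩
    filter_upwards [hZo.mem_nhds hxZ] with y hy
    refine Submodule.eq_top_iff'.2 fun m => ?_
    have hyU : y ∈ U := (hZ hy).2
    obtain ⟨s₂, hs₂, rfl⟩ := N₂.surj y (h₂.dom hyU) m
    obtain ⟨Z₁, hZ₁, hZ₁o, hyZ₁⟩ := mem_nhds_iff.1 (inter_mem (N₂.ev hs₂) (hZo.mem_nhds hy))
    have hZ₁U : Z₁ ⊆ U := fun w hw => (hZ (hZ₁ hw).2).2
    obtain ⟨s₁, hs₁, hs₁'⟩ := tr₂ Z₁ hZ₁U hZ₁o s₂ (fun w hw => (hZ₁ hw).1)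
    have h3 : s₁ y ∈ Submodule.span (R.St y) (Set.range fun l => g l y) := by
      rw [(hZ hy).1.2]
      trivial
    obtain ⟨c, hc⟩ := exists_sum_of_mem_span h3
    obtain ⟨Z₂, c', hZ₂o, hyZ₂, hc', hc''⟩ :=
      R.exists_secs (N₁.dom_sub (h₁.dom hyU)) c
    have hsum : N₁.At (fun w => ∑ l, c' l w • g l w) y :=
      EMod.off_at_sum (h₁.dom hyU) (fun l => hc' l y hyZ₂) (fun l => (hZ hy).1.1 l)
    have h4 := N₁.inj (hs₁ y hyZ₁) hsum (by rw [hc]; simp only [hc''])
    obtain ⟨Z₃, hZ₃, hZ₃o, hyZ₃⟩ := mem_nhds_iff.1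
      (inter_mem h4 (inter_mem (hZ₁o.mem_nhds hyZ₁) (hZ₂o.mem_nhds hyZ₂)))
    have h5 : ∀ w ∈ Z₃, s₂ w = ∑ l, c' l w • g' l w := by
      refine h₂.eq_of_off (fun w hw => hZ₁U (hZ₃ hw).2.1) hZ₃o
        (fun w hw => (hZ₁ (hZ₃ hw).2.1).1)
        (fun w hw => EMod.off_at_sum (h₂.dom (hZ₁U (hZ₃ hw).2.1))
          (fun l => hc' l w (hZ₃ hw).2.2) (fun l => hg' l w (hZ₁ (hZ₃ hw).2.1).2)) ?_
      intro w hw
      have hwU : w ∈ U \ Y := ⟨hZ₁U (hZ₃ hw.1).2.1, hw.2⟩
      have hw1 : s₁ w = ∑ l, c' l w • g l w := (hZ₃ hw.1).1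
      rw [← hs₁' w ⟨(hZ₃ hw.1).2.1, hw.2⟩, hw1, h₁.sum hwU, h₂.sum hwU]
      refine Finset.sum_congr rfl fun l _ => ?_
      rw [hg'' l w ⟨(hZ₁ (hZ₃ hw.1).2.1).2, hw.2⟩]
    rw [h5 y hyZ₃]
    exact Submodule.sum_mem _ fun l _ => Submodule.smul_mem _ _ (Submodule.subset_span ⟨l, rfl⟩)
  · intro q f hf
    obtain ⟨Z, hZ, hZo, hxZ⟩ := mem_nhds_iff.1
      (inter_mem (eventually_all.2 fun l => N₂.ev (hf l)) (hU.mem_nhds hx))
    have hZU : Z ⊆ U := fun w hw => (hZ hw).2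
    have hfZ : ∀ l, N₂.On (f l) Z := fun l w hw => (hZ hw).1 l
    choose f' hf' hf'' using fun l => tr₂ Z hZU hZo (f l) (hfZ l)
    obtain ⟨m, r, hr, hr'⟩ := hrel q f' (fun l => hf' l x hxZ)
    refine ⟨m, r, hr, ?_⟩
    filter_upwards [hr', hZo.mem_nhds hxZ] with y hy hyZ
    rw [← hy]
    -- the relation modules coincide
    have key : ∀ (c : Fin q → R.St y), ∑ l, c l • f l y = 0 ↔ ∑ l, c l • f' l y = 0 := by
      intro c
      have hyU := hZU hyZ
      obtain ⟨Z₂, c', hZ₂o, hyZ₂, hc', hc''⟩ := R.exists_secs (N₁.dom_sub (h₁.dom hyU)) c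
      have e1 : ∀ w ∈ (Z ∩ Z₂) \ Y, φ₁ w (∑ l, c' l w • f' l w) =
          φ₂ w (∑ l, c' l w • f l w) := by
        intro w hw
        have hwU : w ∈ U \ Y := ⟨hZU hw.1.1, hw.2⟩
        rw [h₁.sum hwU, h₂.sum hwU]
        refine Finset.sum_congr rfl fun l _ => ?_
        rw [hf'' l w ⟨hw.1.1, hw.2⟩]
      have a1 : N₁.On (fun w => ∑ l, c' l w • f' l w) (Z ∩ Z₂) := fun w hw =>
        EMod.off_at_sum (h₁.dom (hZU hw.1)) (fun l => hc' l w hw.2) (fun l => hf' l w hw.1)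
      have a2 : N₂.On (fun w => ∑ l, c' l w • f l w) (Z ∩ Z₂) := fun w hw =>
        EMod.off_at_sum (h₂.dom (hZU hw.1)) (fun l => hc' l w hw.2) (fun l => hfZ l w hw.1)
      constructor
      · intro h0
        have h3 := N₂.inj (a2 y ⟨hyZ, hyZ₂⟩) (N₂.zero y (h₂.dom hyU)) (by
          simp only [hc'']
          exact h0)
        obtain ⟨Z₃, hZ₃, hZ₃o, hyZ₃⟩ := mem_nhds_iff.1
          (inter_mem h3 ((hZo.inter hZ₂o).mem_nhds ⟨hyZ, hyZ₂⟩))
        have h4 := h₁.uniq Z₃ (fun w hw => hZU (hZ₃ hw).2.1) hZ₃o _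
          (fun w hw => a1 w (hZ₃ hw).2) (by
          intro w hw
          have hwU : w ∈ U \ Y := ⟨hZU (hZ₃ hw.1).2.1, hw.2⟩
          apply h₁.inj w hwU
          rw [e1 w ⟨(hZ₃ hw.1).2, hw.2⟩]
          have : ∑ l, c' l w • f l w = 0 := (hZ₃ hw.1).1
          rw [this, h₂.zero hwU]) y hyZ₃
        simp only [hc''] at h4
        exact h4
      · intro h0
        have h3 := N₁.inj (a1 y ⟨hyZ, hyZ₂⟩) (N₁.zero y (h₁.dom hyU)) (by
          simp only [hc'']
          exact h0)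
        obtain ⟨Z₃, hZ₃, hZ₃o, hyZ₃⟩ := mem_nhds_iff.1
          (inter_mem h3 ((hZo.inter hZ₂o).mem_nhds ⟨hyZ, hyZ₂⟩))
        have h4 := h₂.uniq Z₃ (fun w hw => hZU (hZ₃ hw).2.1) hZ₃o _
          (fun w hw => a2 w (hZ₃ hw).2) (by
          intro w hw
          have hwU : w ∈ U \ Y := ⟨hZU (hZ₃ hw.1).2.1, hw.2⟩
          apply h₂.inj w hwU
          rw [← e1 w ⟨(hZ₃ hw.1).2, hw.2⟩]
          have : ∑ l, c' l w • f' l w = 0 := (hZ₃ hw.1).1
          rw [this, h₁.zero hwU]) y hyZ₃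
        simp only [hc''] at h4
        exact h4
    ext c
    exact key c

end ext

/-! ### The direct image of an official module -/

section push

variable {n : ℕ} {X : Type u} [TopologicalSpace X] {A : Algebroid X} {D : Opens X}

/-- the natural map on stalks at points of `D` -/
def Sh.pushSt (F : Sh X) (D : Opens X) (x : X) (hx : x ∈ D) : (F.push D).Stalk x → F.Stalk x :=
  Quotient.lift (fun s => F.germ x (s.1.1 ⊓ D) ⟨s.1.2, hx⟩ s.2) (by
    rintro ⟨⟨U, hxU⟩, s⟩ ⟨⟨U', hxU'⟩, s'⟩ ⟨W, h, h', hxW, e⟩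
    exact (F.germ_eq_iff x _ _ _ _).2 ⟨W ⊓ D, inf_le_inf_right D h, inf_le_inf_right D h',
      ⟨hxW, hx⟩, e⟩)

theorem Sh.pushSt_germ (F : Sh X) (D : Opens X) (x : X) (hx : x ∈ D) (U : Opens X) (hU : x ∈ U)
    (s : F.sec (U ⊓ D)) :
    F.pushSt D x hx ((F.push D).germ x U hU s) = F.germ x (U ⊓ D) ⟨hU, hx⟩ s := rfl

namespace Mod

variable (M : Mod A D) (C : Ch n A)

theorem memT {z : Fin n → ℂ} (hz : z ∈ C.e '' ((C.V ⊓ D : Opens X) : Set X)) :
    z ∈ C.e '' ((C.V ⊓ ⊤ : Opens X) : Set X) :=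
  image_mono (by exact (inf_le_inf_left C.V le_top : C.V ⊓ D ≤ C.V ⊓ ⊤)) hz

/-- comparison of the stalks of `j_* M` and `M` -/
noncomputable def cmp (z : Fin n → ℂ) (m : M.push.est C z) : M.est C z :=
  fun h => (M.sh C.i).pushSt D (C.e.symm z) (C.memD h.down).2 (m (PLift.up (memT C h.down)))

theorem topV {U : Opens X} (hU : U ≤ C.V) : U ≤ C.V ⊓ ⊤ := le_inf hU le_top

theorem cmp_fam {U : Opens X} (hU : U ≤ C.V) (s : (M.sh C.i).sec (U ⊓ D)) {z : Fin n → ℂ}
    (hz : z ∈ C.e '' ((U ⊓ D : Opens X) : Set X)) :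
    M.cmp C z (M.push.fam C U s z) = M.fam C (U ⊓ D) s z := by
  have hUD : U ⊓ D ≤ C.V ⊓ D := inf_le_inf_right D hU
  have h1 := symm_mem C.e (C.srcD D) hUD hz
  funext ⟨h0⟩
  have h2 : M.push.fam C U s z ⟨memT C h0⟩ =
    M.push.gm C.i (C.mpt z (memT C h0)) U h1.1 s := M.push.fam_apply C s (memT C h0) h1.1
  have h3 : M.fam C (U ⊓ D) s z ⟨h0⟩ = M.gm C.i (C.mpt z h0) (U ⊓ D) h1 s :=
    M.fam_apply C s h0 h1
  rw [h3]
  change (M.sh C.i).pushSt D (C.e.symm z) _ (M.push.fam C U s z ⟨memT C h0⟩) = _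
  rw [h2]
  rfl

theorem cmp_zero {z : Fin n → ℂ} (hz : z ∈ C.e '' ((C.V ⊓ D : Opens X) : Set X)) :
    M.cmp C z 0 = 0 := by
  have h1 := M.cmp_fam C (le_rfl : C.V ≤ C.V) 0 hz
  rw [M.fam_zero C le_rfl hz] at h1
  have h2 : M.push.fam C C.V (0 : (M.push.sh C.i).sec C.V) z = 0 :=
    M.push.fam_zero C (topV C le_rfl) (C.memV hz)
  exact (congrArg (M.cmp C z) h2.symm).trans h1

/-- sections of `j_* M` -/
theorem push_exists {U : Opens X} (hU : U ≤ C.V) {z : Fin n → ℂ} (hz : z ∈ C.e '' (U : Set X))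
    (m : M.push.est C z) :
    ∃ (W : Opens X) (s : (M.sh C.i).sec (W ⊓ D)), W ≤ U ∧ z ∈ C.e '' (W : Set X) ∧
      m = M.push.fam C W s z := by
  obtain ⟨W, s, hW, hzW, rfl⟩ := M.push.exists_fam C
    (image_mono (by exact topV C hU) hz) m
  have hWU : z ∈ C.e '' ((W ⊓ U : Opens X) : Set X) := by
    have h1 := symm_mem C.e (C.srcD ⊤) hW hzW
    have h2 := symm_mem C.e (C.srcD ⊤) (topV C hU) hz
    exact mem_of_mem (C.srcD ⊤) (inf_le_left.trans hW) (image_mono (by exact hW) hzW) ⟨h1, h2⟩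
  exact ⟨W ⊓ U, (M.push.sh C.i).res inf_le_left s, inf_le_right, hWU,
    (M.push.fam_res C inf_le_left hW s hWU).symm⟩

/-- the set of the coordinates of the points off `D` -/
def off (C : Ch n A) (D : Opens X) : Set (Fin n → ℂ) := {z | C.e.symm z ∉ D}

theorem diff_off (C : Ch n A) (D : Opens X) :
    C.e '' (C.V : Set X) \ off C D = C.e '' ((C.V ⊓ D : Opens X) : Set X) := by
  ext z
  have h1 := mem_image_iff C.e C.src (le_rfl : C.V ≤ C.V) (z := z)
  have h2 := mem_image_iff C.e (C.srcD D) (le_rfl : C.V ⊓ D ≤ C.V ⊓ D) (z := z)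
  rw [h2]
  constructor
  · rintro ⟨h3, h4⟩
    have h5 : C.e.symm z ∈ D := not_not.1 h4
    exact ⟨(h1.1 h3).1, (h1.1 h3).2, h5⟩
  · rintro ⟨h3, h4, h5⟩
    exact ⟨h1.2 ⟨h3, h4⟩, not_not.2 h5⟩

theorem push_isExt :
    IsExt (M.push.emod C) (M.emod C) (M.cmp C) (C.e '' (C.V : Set X)) (off C D) where
  dom := image_mono (fun _ h => ⟨h, trivial⟩)
  add z hz m m' := by
    rw [diff_off] at hz
    have hzV := C.memV hz
    obtain ⟨U, s, hU, hzU, h1⟩ := M.push_exists C le_rfl hzV m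
    obtain ⟨U', s', hU', hzU', h1'⟩ := M.push_exists C hU hzU m'
    have hzD := symm_mem C.e (C.srcD D) le_rfl hz
    have hzU'D : z ∈ C.e '' ((U' ⊓ D : Opens X) : Set X) := by
      refine mem_of_mem (C.srcD D) (inf_le_inf_right D (hU'.trans hU)) hz ⟨?_, hzD.2⟩
      exact symm_mem C.e C.src (hU'.trans hU) hzU'
    have h2 : m = M.push.fam C U' ((M.push.sh C.i).res hU' s) z := by
      rw [M.push.fam_res C hU' (topV C hU) s hzU', h1]
    have h3 := M.push.fam_add C (topV C (hU'.trans hU)) ((M.push.sh C.i).res hU' s) s' hzU'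
    have h4 : M.cmp C z (m + m') = M.cmp C z m + M.cmp C z m' := by
      have e1 := M.cmp_fam C (hU'.trans hU)
        ((M.push.sh C.i).res hU' s + (show (M.push.sh C.i).sec U' from s')) hzU'D
      have e2 := M.cmp_fam C (hU'.trans hU) ((M.push.sh C.i).res hU' s) hzU'D
      have e3 := M.cmp_fam C (hU'.trans hU) s' hzU'D
      rw [h2, h1', e2, e3]
      refine ((congrArg (M.cmp C z) h3.symm).trans e1).trans ?_
      exact M.fam_add C (inf_le_inf_right D (hU'.trans hU)) _ _ hzU'D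
    exact h4
  smul z hz a m := by
    rw [diff_off] at hz
    have hzV := C.memV hz
    obtain ⟨U, b, hU, hzU, h1⟩ := C.exists_fam hzV a
    obtain ⟨U', s', hU', hzU', h1'⟩ := M.push_exists C hU hzU m
    have hzD := symm_mem C.e (C.srcD D) le_rfl hz
    have hU'V := hU'.trans hU
    have hzU'D : z ∈ C.e '' ((U' ⊓ D : Opens X) : Set X) :=
      mem_of_mem (C.srcD D) (inf_le_inf_right D hU'V) hz
        ⟨symm_mem C.e C.src hU'V hzU', hzD.2⟩
    have h2 : a = C.fam U' ((A.Hom C.i C.i).res hU' b) z := by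
      rw [C.fam_res hU' hU b hzU', h1]
    have h3 := M.push.fam_act C (topV C hU'V) ((A.Hom C.i C.i).res hU' b) s' hzU'
    have h4 : M.cmp C z ((show C.St z from a) • (show M.push.est C z from m)) =
        (show C.St z from a) • M.cmp C z m := by
      rw [h2, h1', ← h3]
      have h5 := M.cmp_fam C hU'V (M.push.act U' ((A.Hom C.i C.i).res hU' b) s') hzU'D
      rw [h5, M.cmp_fam C hU'V s' hzU'D,
        ← C.fam_res (inf_le_left : U' ⊓ D ≤ U') hU'V _ hzU'D,
        ← M.fam_act C (inf_le_inf_right D hU'V) _ _ hzU'D]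
      rfl
    exact h4
  inj z hz m h := by
    rw [diff_off] at hz
    have hzV := C.memV hz
    obtain ⟨U, s, hU, hzU, h1⟩ := M.push_exists C le_rfl hzV m
    have hzD := symm_mem C.e (C.srcD D) le_rfl hz
    have hUD := inf_le_inf_right D hU
    have hzUD : z ∈ C.e '' ((U ⊓ D : Opens X) : Set X) :=
      mem_of_mem (C.srcD D) hUD hz ⟨symm_mem C.e C.src hU hzU, hzD.2⟩
    have h2 : M.cmp C z m = 0 := h
    rw [h1, M.cmp_fam C hU s hzUD, ← M.fam_zero C hUD hzUD] at h2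
    obtain ⟨W, hW, hzW, h3⟩ := M.eq_of_germ C hUD _ _ hzUD h2
    have h4 : (M.push.sh C.i).res (hW.trans inf_le_left) s = 0 := by
      have h5 := congrArg ((M.sh C.i).res (inf_le_left : W ⊓ D ≤ W)) h3
      rw [Sh.res_res, map_zero, map_zero] at h5
      exact h5
    have h6 : M.push.fam C U s z = 0 := by
      rw [← M.push.fam_res C (hW.trans inf_le_left) (topV C hU) s hzW, h4,
        M.push.fam_zero C (topV C ((hW.trans inf_le_left).trans hU)) hzW]
    exact h1.trans h6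
  at_map s z hz hs := by
    rw [diff_off] at hz
    obtain ⟨U, a, hU, hzU, h⟩ := M.push.at_exists C hs
    have hUV : U ≤ C.V := hU.trans inf_le_left
    have hUD := inf_le_inf_right D hUV
    have hzD := symm_mem C.e (C.srcD D) le_rfl hz
    have hzUD : z ∈ C.e '' ((U ⊓ D : Opens X) : Set X) :=
      mem_of_mem (C.srcD D) hUD hz ⟨symm_mem C.e (C.srcD ⊤) hU hzU, hzD.2⟩
    refine (M.emod C).congr (M.fam_at C hUD a hzUD) ?_
    filter_upwards [(isOpen_image C.e (C.srcD D) hUD).mem_nhds hzUD] with w hw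
    have h1 : s w = M.push.fam C U a w := h w (image_mono (fun _ h => h.1) hw)
    exact (M.cmp_fam C hUV a hw).symm.trans (congrArg (M.cmp C w) h1.symm)
  ext Z hZ hZo s hs := by
    have him := C.image_pre hZo hZ
    have hle := C.pre_le Z hZo
    have hUD := inf_le_inf_right D hle
    have hdiff : Z \ off C D = C.e '' ((C.pre Z hZo ⊓ D : Opens X) : Set X) := by
      ext z
      rw [mem_image_iff C.e (C.srcD D) hUD]
      constructor
      · rintro ⟨h1, h2⟩
        have h3 : z ∈ C.e '' (C.pre Z hZo : Set X) := by rw [him]; exact h1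
        have h4 := (mem_image_iff C.e C.src hle).1 h3
        exact ⟨h4.1, h4.2, not_not.1 h2⟩
      · rintro ⟨h1, h2⟩
        refine ⟨?_, not_not.2 h2.2⟩
        rw [← him]
        exact (mem_image_iff C.e C.src hle).2 ⟨h1, h2.1⟩
    obtain ⟨a, ha⟩ := M.glue_fam C hUD (s := s) (by
      rw [← hdiff]
      exact hs)
    refine ⟨M.push.fam C (C.pre Z hZo) a, fun z hz => M.push.fam_at C (topV C hle) a (by
      rw [him]; exact hz), fun z hz => ?_⟩
    rw [hdiff] at hz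
    exact (M.cmp_fam C hle a hz).trans (ha z hz).symm
  uniq Z hZ hZo t ht h z hz := by
    obtain ⟨U, a, hU, hzU, h1⟩ := M.push.at_exists C (ht z hz)
    have hUV : U ≤ C.V := hU.trans inf_le_left
    have him := C.image_pre hZo hZ
    have hle := C.pre_le Z hZo
    have hzZ : C.e.symm z ∈ C.pre Z hZo := symm_mem C.e C.src hle (by rw [him]; exact hz)
    have hWU : U ⊓ C.pre Z hZo ≤ U := inf_le_left
    have hWV : U ⊓ C.pre Z hZo ≤ C.V := hWU.trans hUV
    have hzW : z ∈ C.e '' ((U ⊓ C.pre Z hZo : Opens X) : Set X) :=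
      mem_of_mem C.src hWV (hZ hz) ⟨symm_mem C.e (C.srcD ⊤) hU hzU, hzZ⟩
    have h2 : (M.sh C.i).res (inf_le_inf_right D hWU) a = 0 := by
      apply M.sec_ext_fam C (inf_le_inf_right D hWV)
      intro w hw
      have hwU : w ∈ C.e '' (U : Set X) := image_mono (fun _ h => h.1.1) hw
      have hwUD : w ∈ C.e '' ((U ⊓ D : Opens X) : Set X) :=
        image_mono (by exact inf_le_inf_right D hWU) hw
      have hwZ : w ∈ Z := by
        rw [← him]
        exact image_mono (fun _ h => h.1.2) hw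
      have hwoff : w ∉ off C D := not_not.2 (symm_mem C.e (C.srcD D)
        (inf_le_inf_right D hWV) hw).2
      have h3 : M.push.fam C U a w = 0 := (h1 w hwU).symm.trans (h w ⟨hwZ, hwoff⟩)
      have h4 : M.cmp C w (M.push.fam C U a w) = M.fam C (U ⊓ D) a w := M.cmp_fam C hUV a hwUD
      rw [M.fam_res C (inf_le_inf_right D hWU) (inf_le_inf_right D hUV) a hw, ← h4, h3,
        M.fam_zero C (inf_le_inf_right D hWV) hw]
      exact M.cmp_zero C (image_mono (by exact inf_le_inf_right D hWV) hw)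
    have h5 : t z = M.push.fam C U a z := h1 z hzU
    have h6 : M.push.fam C U a z = 0 := by
      rw [← M.push.fam_res C hWU hU a hzW]
      have h7 : (M.push.sh C.i).res hWU a = 0 := h2
      rw [h7, M.push.fam_zero C (topV C hWV) hzW]
    exact h5.trans h6

/-- off `Y` the direct image is coherent -/
theorem push_cohAt_off {z : Fin n → ℂ} (hz : z ∈ C.e '' ((C.V ⊓ D : Opens X) : Set X))
    (h : (M.emod C).CohAt z) : (M.push.emod C).CohAt z := by
  have h1 : C.e '' ((C.V ⊓ D : Opens X) : Set X) ⊆ C.e '' (C.V : Set X) :=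
    image_mono (fun _ h => h.1)
  have hempty : ∀ y ∈ C.e '' ((C.V ⊓ D : Opens X) : Set X), y ∉ off C D := fun y hy =>
    not_not.2 (symm_mem C.e (C.srcD D) le_rfl hy).2
  have h₁ : IsExt (M.emod C) (M.emod C) (fun _ m => m) (C.e '' ((C.V ⊓ D : Opens X) : Set X))
      (off C D) :=
    { dom := fun _ h => h
      add := fun _ _ _ _ => rfl
      smul := fun _ _ _ _ => rfl
      inj := fun _ _ _ h => h
      at_map := fun _ _ _ h => h
      ext := fun Z hZ _ s hs => ⟨s, fun y hy => hs y ⟨hy, hempty y (hZ hy)⟩, fun _ _ => rfl⟩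
      uniq := fun Z hZ _ t _ h y hy => h y ⟨hy, hempty y (hZ hy)⟩ }
  exact IsExt.cohAt (isOpen_image C.e (C.srcD D) le_rfl) h₁ ((M.push_isExt C).mono h1) hz h

end Mod

end push

end Pool.Agent.DQ
end

section

/-!
# Star charts give local data (campaign DQ, S)
-/

set_option autoImplicit false

open TopologicalSpace Topology Filter Set

open scoped Manifold ContDiff

universe u

namespace Pool.Agent.DQ

variable {n : ℕ} {X : Type u} [TopologicalSpace X] [ChartedSpace (Fin n → ℂ) X]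

/-- the change of coordinates between two charts is holomorphic -/
theorem trans_diff [IsManifold 𝓘(ℂ, Fin n → ℂ) ω X] {e c : OpenPartialHomeomorph X (Fin n → ℂ)}
    (he : e ∈ Chart n X) (hc : c ∈ Chart n X) {W : Opens X} (hWe : (W : Set X) ⊆ e.source)
    (hWc : (W : Set X) ⊆ c.source) :
    DifferentiableOn ℂ (fun z => c (e.symm z)) (e '' (W : Set X)) := by
  have h := IsManifold.compatible_of_mem_maximalAtlas he hc
  rw [contDiffGroupoid, mem_groupoid_of_pregroupoid] at h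
  have h1 := h.1
  simp only [contDiffPregroupoid, modelWithCornersSelf_coe, modelWithCornersSelf_coe_symm,
    Function.id_comp, Function.comp_id, Set.range_id, Set.inter_univ, Set.preimage_id,
    OpenPartialHomeomorph.trans_source, OpenPartialHomeomorph.symm_source] at h1
  have h2 : DifferentiableOn ℂ (↑(e.symm ≫ₕ c)) (e.target ∩ ↑e.symm ⁻¹' c.source) := by
    refine ContDiffOn.differentiableOn (n := ω) ?_ (by simp)
    simpa using h1
  refine h2.mono ?_
  rintro z ⟨x, hx, rfl⟩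
  refine ⟨e.map_source (hWe hx), ?_⟩
  rw [mem_preimage, e.left_inv (hWe hx)]
  exact hWc hx

theorem starMul_coeff_zero (P : ℕ → BiDiff n) (f g : ℕ → (Fin n → ℂ) → ℂ) (z : Fin n → ℂ) :
    starMul P f g 0 z = (P 0).ev (f 0) (g 0) z := by
  simp [starMul]

open Classical in
/-- near every point of `dom i` and in every chart, `End i` is `O[[ħ]]` with a deformed product -/
theorem exists_loc [IsManifold 𝓘(ℂ, Fin n → ℂ) ω X] {A : Algebroid X} (hA : IsDQ n A) (i : A.Obj)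
    (x : X) (hx : x ∈ A.dom i) (e : OpenPartialHomeomorph X (Fin n → ℂ)) (he : e ∈ Chart n X)
    (hxe : x ∈ e.source) (U : Opens X) (hxU : x ∈ U) :
    ∃ C : Loc n A, C.i = i ∧ C.e = e ∧ x ∈ C.V ∧ C.V ≤ U := by
  obtain ⟨c, hc, V, P, Θ, hxV, hS⟩ := hA i x hx
  have hV' : IsOpen ((V : Set X) ∩ (e.source ∩ (U : Set X))) :=
    V.2.inter (e.open_source.inter U.2)
  let V' : Opens X := ⟨_, hV'⟩
  have hV'V : V' ≤ V := fun y hy => hy.1
  have hce : ∀ W ≤ V', DifferentiableOn ℂ (fun z => c (e.symm z)) (e '' (W : Set X)) :=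
    fun W hW => trans_diff he hc (fun y hy => (hW hy).2.1) (fun y hy => hS.src (hW hy).1)
  have hec : ∀ W ≤ V', DifferentiableOn ℂ (fun z => e (c.symm z)) (c '' (W : Set X)) :=
    fun W hW => trans_diff hc he (fun y hy => hS.src (hW hy).1) (fun y hy => (hW hy).2.1)
  have hmem : ∀ W ≤ V', ∀ z ∈ e '' (W : Set X), c (e.symm z) ∈ c '' (W : Set X) := by
    rintro W hW _ ⟨y, hy, rfl⟩
    rw [e.left_inv (hW hy).2.1]
    exact mem_image_of_mem _ hy
  have hmem' : ∀ W ≤ V', ∀ z ∈ c '' (W : Set X), e (c.symm z) ∈ e '' (W : Set X) := by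
    rintro W hW _ ⟨y, hy, rfl⟩
    rw [c.left_inv (hS.src (hW hy).1)]
    exact mem_image_of_mem _ hy
  have hback : ∀ W ≤ V', ∀ z ∈ e '' (W : Set X), e (c.symm (c (e.symm z))) = z := by
    rintro W hW _ ⟨y, hy, rfl⟩
    rw [e.left_inv (hW hy).2.1, c.left_inv (hS.src (hW hy).1)]
  have hback' : ∀ W ≤ V', ∀ z ∈ c '' (W : Set X), c (e.symm (e (c.symm z))) = z := by
    rintro W hW _ ⟨y, hy, rfl⟩
    rw [c.left_inv (hS.src (hW hy).1), e.left_inv (hW hy).2.1]
  have hopen : ∀ W ≤ V', IsOpen (c '' (W : Set X)) := fun W hW =>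
    c.isOpen_image_of_subset_source W.2 (fun y hy => hS.src (hW hy).1)
  have hmul : ∀ W ≤ V', ∀ b a, ∀ z ∈ c '' (W : Set X),
      Θ W (A.comp W b a) 0 z = Θ W b 0 z * Θ W a 0 z := by
    intro W hW b a z hz
    rw [hS.mul W (hW.trans hV'V) b a 0 z hz, starMul_coeff_zero]
    exact hS.star.zero (c '' (W : Set X)) (image_mono (by exact hW.trans hV'V)) (hopen W hW) _ _
      (hS.hol W (hW.trans hV'V) b 0).1 (hS.hol W (hW.trans hV'V) a 0).1 z hz
  refine ⟨{
    i := i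
    e := e
    V := V'
    dom := hV'V.trans hS.dom
    src := fun y hy => hy.2.1
    T := fun W a k z => Θ W a k (c (e.symm z))
    diff := fun W hW a k => (hS.hol W (hW.trans hV'V) a k).1.comp (hce W hW) (hmem W hW)
    surj := ?_
    inj := ?_
    add := ?_
    smul := ?_
    mul := fun W hW b a z hz => hmul W hW b a _ (hmem W hW z hz)
    one := ?_
    res := fun W W' h hW a m z hz =>
      hS.res W W' h (hW.trans hV'V) a m _ (hmem W' (h.trans hW) z hz) }, rfl, rfl,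
    ⟨hxV, hxe, hxU⟩, fun y hy => hy.2.2⟩
  · intro W hW f hf
    obtain ⟨a, ha⟩ := hS.surj W (hW.trans hV'V)
      (fun k z => if z ∈ c '' (W : Set X) then f k (e (c.symm z)) else 0) (by
      intro k
      refine ⟨?_, fun z hz => if_neg hz⟩
      refine ((hf k).comp (hec W hW) (hmem' W hW)).congr fun z hz => ?_
      exact if_pos hz)
    refine ⟨a, fun k z hz => ?_⟩
    rw [ha]
    simp only [if_pos (hmem W hW z hz), hback W hW z hz]
  · intro W hW a b h
    apply hS.inj W (hW.trans hV'V)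
    funext k z
    by_cases hz : z ∈ c '' (W : Set X)
    · have := h k (e (c.symm z)) (hmem' W hW z hz)
      rwa [hback' W hW z hz] at this
    · rw [(hS.hol W (hW.trans hV'V) a k).2 z hz, (hS.hol W (hW.trans hV'V) b k).2 z hz]
  · intro W hW a b k z hz
    rw [hS.add W (hW.trans hV'V)]
    rfl
  · intro W hW a b m z hz
    rw [hS.smul W (hW.trans hV'V)]
    simp
  · intro W hW z hz
    have hz' := hmem W hW z hz
    obtain ⟨a, ha⟩ := hS.surj W (hW.trans hV'V)
      (fun _ z => if z ∈ c '' (W : Set X) then 1 else 0) (by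
      intro k
      refine ⟨(differentiableOn_const 1).congr fun z hz => if_pos hz, fun z hz => if_neg hz⟩)
    have h1 := hmul W hW (A.one i W) a _ hz'
    rw [A.one_comp W (hW.trans (hV'V.trans hS.dom)) (hW.trans (hV'V.trans hS.dom)), ha] at h1
    simp only [if_pos hz', mul_one] at h1
    exact h1.symm

end Pool.Agent.DQ
end
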