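import Mathlib
import Pool.Agent.Lib.MP_4aa2a9_ag.Mg.G027
import Pool.Agent.Lib.MP_4aa2a9_ag.Mg.G023
import Pool.Agent.Lib.MP_4aa2a9_ag.Mg.G020
import Pool.Agent.Lib.MP_4aa2a9_ag.Mg.G021
import Pool.Agent.Lib.MP_4aa2a9_ag.Mg.G039
import Pool.Agent.Lib.MP_4aa2a9_ag.Mg.G017
import Pool.Agent.Lib.MP_4aa2a9_ag.Mg.G026
import Pool.Agent.Lib.MP_4aa2a9_ag.Mg.G001
import Pool.Agent.Lib.MP_4aa2a9_ag.Mg.G046
import Pool.Agent.Lib.MP_4aa2a9_ag.DQ.OffTrans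

section

/-! Campaign DQ, module M12, block (f): the exported theorem. -/

set_option autoImplicit false
set_option linter.unusedVariables false

open Set Filter Topology

namespace Pool.Agent.DQ.M12

universe w

variable {V : Type} [NormedAddCommGroup V] [NormedSpace ℂ V] [FiniteDimensional ℂ V] {k d : ℕ}
  {M₀ : EMod.{0, 0, w} (O V)} {σ : Sit V k d} {T : Set (Fin k → ℂ)} {jw jw' jz jz' : ℝ}
  {m N N' : ℕ} {Q : Bs k → Matrix (Fin N) (Fin m) ℂ} {Q' : Bs k → Matrix (Fin N') (Fin N) ℂ}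
  {Lam : ((x : V) → M₀.St x) → Bs k → Fin m → ℂ}

theorem DD_eq_closedBall (σ : Sit V k d) : MF.DD σ = Metric.closedBall (σ.e σ.y₀).2 σ.Rv := by
  ext v
  rw [MF.mem_PD, mem_closedBall_iff_norm, pi_norm_le_iff_of_nonneg σ.Rv_pos.le]
  rfl

theorem ext0_of_lam (h : LamData M₀ σ T jw jw' jz jz' Q Q' Lam)
    (hcoh : ∀ b ∈ shell σ T jw jw' jz jz',
      M₀.Coh (fib σ.e (Metric.closedBall (σ.e σ.y₀).2 σ.Rv) b))
    (hbd : ∀ b ∈ shell σ T jw jw' jz jz', ∀ x ∈ fib σ.e (Metric.closedBall (σ.e σ.y₀).2 σ.Rv) b,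
      ‖(σ.e x).2 - (σ.e σ.y₀).2‖ = σ.Rv → Subsingleton (M₀.St x))
    (h1 : jw < σ.rw) (h2 : σ.Rw < jw') (h3 : jz < σ.rz) (h4 : σ.Rz < jz') {τ₀ : ℝ} (hτ₀ : 0 < τ₀)
    (hT : Metric.closedBall σ.t₀ τ₀ ⊆ T) :
    ∃ (M₀' : EMod.{0, 0, 0} (O V)) (θ : ∀ x, M₀'.St x → M₀.St x),
      Ext0 M₀ σ (Metric.ball σ.t₀ τ₀) M₀' θ := by
  rw [← DD_eq_closedBall] at hcoh hbd
  exact MF.ext0_of_lam h hcoh (fun b hb x hx hv => hbd b hb x hx hv) hτ₀ hT h1 h2 h3 h4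

end Pool.Agent.DQ.M12
end

section

/-! Module M12: assembly. -/

set_option autoImplicit false
set_option linter.unusedSectionVars false

open Set Filter Topology Matrix

universe u v w

namespace Pool.Agent.DQ.M12

variable {V : Type} [NormedAddCommGroup V] [NormedSpace ℂ V] [FiniteDimensional ℂ V] {k d : ℕ}

theorem shell_sub_asm {σ : Sit V k d} {T T' : Set (Fin k → ℂ)} {ρ ρ' : Rd}
    (hρ : ρ'.In ρ) (hT : T' ⊆ T) :
    shell σ T' ρ'.rw ρ'.Rw ρ'.rz ρ'.Rz ⊆ B1 (σ.e σ.y₀).1 ρ T ∪ B2 (σ.e σ.y₀).1 ρ T := by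
  rintro b (⟨h1, h2, h3⟩ | ⟨h1, h2, h3⟩)
  · refine Or.inl ⟨hT h1, ⟨?_, ?_⟩, ⟨?_, ?_⟩⟩
    · rw [sub_zero]
      exact hρ.rw.trans h2.1
    · rw [sub_zero]
      exact h2.2.trans hρ.Rw
    · rw [sub_zero]
      exact h3.1
    · rw [sub_zero]
      exact h3.2.trans hρ.Rz
  · refine Or.inr ⟨hT h1, ⟨?_, ?_⟩, ⟨?_, ?_⟩⟩
    · rw [sub_zero]
      exact h2.1
    · rw [sub_zero]
      exact h2.2.trans hρ.Rw
    · rw [sub_zero]
      exact hρ.rz.trans h3.1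
    · rw [sub_zero]
      exact h3.2.trans hρ.Rz

/-- (M12) extension of the reduction and structure of `H¹` of the shell -/
theorem main {M₀ : EMod.{0, 0, w} (O V)} {Y U : Set V} {y₀ : V} (hYc : IsOpen (U \ Y))
    (hcoh : M₀.Coh (U \ Y)) {e : V ≃L[ℂ] Bs k × (Fin d → ℂ)}
    {τ rw Rw rz Rz Rv : ℝ} {rk : ℕ} {dir : Fin k → ℂ}
    (h : GoodCoord d M₀ Y y₀ U k e τ rw Rw rz Rz Rv rk dir) :
    ∃ (σ : Sit V k d) (T₀ : Set (Fin k → ℂ)) (M₀' : EMod.{0, 0, 0} (O V))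
      (θ : ∀ x, M₀'.St x → M₀.St x) (ι : Type) (c : ι → ((x : V) → M₀.St x) → (Fin k → ℂ) → ℂ)
      (𝒩 : EMod.{0, 0, 0} (O (Fin k → ℂ)))
      (ν : Set (Fin k → ℂ) → ((x : V) → M₀.St x) → (t : Fin k → ℂ) → 𝒩.St t),
      σ.e = e ∧ σ.y₀ = y₀ ∧ rw < σ.rw ∧ σ.Rw < Rw ∧ rz < σ.rz ∧ σ.Rz < Rz ∧ σ.Rv = Rv ∧
      IsOpen T₀ ∧ σ.t₀ ∈ T₀ ∧ T₀ ⊆ Metric.ball σ.t₀ τ ∧
      Ext0 M₀ σ T₀ M₀' θ ∧ HX M₀ σ T₀ ι c 𝒩 ν ∧ HShrink M₀ σ T₀ := by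
  obtain ⟨ρ, δ, f, f', g, Um, L₁, V', L₂, P, hδ, hδτ, a1, a2, a3, a4, hF, hX⟩ :=
    exists_sf_sx hYc hcoh h
  have hw := ρ.rw_lt
  have hz := ρ.rz_lt
  have hw0 := ρ.rw_pos
  have hz0 := ρ.rz_pos
  let ρ' : Rd := ⟨ρ.rw + (ρ.Rw - ρ.rw) / 5, ρ.rw + 4 * (ρ.Rw - ρ.rw) / 5,
    ρ.rz + (ρ.Rz - ρ.rz) / 5, ρ.rz + 4 * (ρ.Rz - ρ.rz) / 5, by linarith, by linarith,
    by linarith, by linarith⟩
  have hρ : ρ'.In ρ := ⟨by show _ < ρ.rw + (ρ.Rw - ρ.rw) / 5; linarith,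
    by show ρ.rw + 4 * (ρ.Rw - ρ.rw) / 5 < _; linarith,
    by show _ < ρ.rz + (ρ.Rz - ρ.rz) / 5; linarith,
    by show ρ.rz + 4 * (ρ.Rz - ρ.rz) / 5 < _; linarith⟩
  let σ : Sit V k d :=
    { e := e
      y₀ := y₀
      rw := ρ.rw + 2 * (ρ.Rw - ρ.rw) / 5
      Rw := ρ.rw + 3 * (ρ.Rw - ρ.rw) / 5
      rz := ρ.rz + 2 * (ρ.Rz - ρ.rz) / 5
      Rz := ρ.rz + 3 * (ρ.Rz - ρ.rz) / 5
      Rv := Rv
      rw_pos := by linarith
      rw_lt := by linarith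
      rz_pos := by linarith
      rz_lt := by linarith
      Rv_pos := h.rad.2.2.2.2.2 }
  have hball : Metric.closedBall (e y₀).1.1 (δ / 2) ⊆ Metric.ball (e y₀).1.1 δ :=
    Metric.closedBall_subset_ball (by linarith)
  obtain ⟨N, N', Q, Q', Lam, hL⟩ := exists_lam (σ := σ) (T₀ := Metric.ball (e y₀).1.1 (δ / 2))
    hF hX hρ Metric.isOpen_ball (t₀ := (e y₀).1.1) (τ := δ / 2) (by linarith)
    Metric.ball_subset_closedBall hball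
  have hsh : shell σ (Metric.ball (e y₀).1.1 (δ / 2)) ρ'.rw ρ'.Rw ρ'.rz ρ'.Rz ⊆
      B1 (e y₀).1 ρ (Metric.ball (e y₀).1.1 δ) ∪ B2 (e y₀).1 ρ (Metric.ball (e y₀).1.1 δ) :=
    shell_sub_asm (σ := σ) hρ (Metric.ball_subset_closedBall.trans hball)
  have hT : Metric.closedBall σ.t₀ (δ / 3) ⊆ Metric.ball (e y₀).1.1 (δ / 2) :=
    Metric.closedBall_subset_ball (by linarith)
  have b1 : ρ'.rw < σ.rw := by
    show ρ.rw + (ρ.Rw - ρ.rw) / 5 < ρ.rw + 2 * (ρ.Rw - ρ.rw) / 5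
    linarith
  have b2 : σ.Rw < ρ'.Rw := by
    show ρ.rw + 3 * (ρ.Rw - ρ.rw) / 5 < ρ.rw + 4 * (ρ.Rw - ρ.rw) / 5
    linarith
  have b3 : ρ'.rz < σ.rz := by
    show ρ.rz + (ρ.Rz - ρ.rz) / 5 < ρ.rz + 2 * (ρ.Rz - ρ.rz) / 5
    linarith
  have b4 : σ.Rz < ρ'.Rz := by
    show ρ.rz + 3 * (ρ.Rz - ρ.rz) / 5 < ρ.rz + 4 * (ρ.Rz - ρ.rz) / 5
    linarith
  obtain ⟨M₀', θ, hext⟩ := ext0_of_lam hL (fun b hb => hF.coh b (hsh hb))
    (fun b hb => hF.bd b (hsh hb)) b1 b2 b3 b4 (τ₀ := δ / 3) (by linarith) hT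
  obtain ⟨ι, c, 𝒩, ν, hx, hs⟩ := hx_of_lam hL b1 b2 b3 b4 (τ₀ := δ / 3) (by linarith) hT
  refine ⟨σ, Metric.ball σ.t₀ (δ / 3), M₀', θ, ι, c, 𝒩, ν, rfl, rfl, ?_, ?_, ?_, ?_, rfl,
    Metric.isOpen_ball, Metric.mem_ball_self (by linarith), Metric.ball_subset_ball (by linarith),
    hext, hx, hs⟩
  · show rw < ρ.rw + 2 * (ρ.Rw - ρ.rw) / 5
    linarith
  · show ρ.rw + 3 * (ρ.Rw - ρ.rw) / 5 < Rw
    linarith
  · show rz < ρ.rz + 2 * (ρ.Rz - ρ.rz) / 5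
    linarith
  · show ρ.rz + 3 * (ρ.Rz - ρ.rz) / 5 < Rz
    linarith

end Pool.Agent.DQ.M12
end

section

/-! # DQ: M12 -/

set_option autoImplicit false

open Set Filter Topology Matrix

universe u v w

namespace Pool.Agent.DQ

variable {V : Type} [NormedAddCommGroup V] [NormedSpace ℂ V] [FiniteDimensional ℂ V] {k d : ℕ}
  {𝓐 : Defo.{0, v} V} {M : EMod.{0, v, w} 𝓐.A} {M₀ : EMod.{0, 0, w} (O V)}
  {ρ : ∀ x, M.St x → M₀.St x} {Y : Set V}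

/-- (M12) extension of the reduction and structure of `H¹` of the shell -/
theorem m12 {y₀ : V} (hYan : AnalyticNear Y 𝓐.A.dom) (hYc : IsOpen (𝓐.A.dom \ Y))
    (hcoh : M₀.Coh (𝓐.A.dom \ Y)) {e : V ≃L[ℂ] Bs k × (Fin d → ℂ)}
    {τ rw Rw rz Rz Rv : ℝ} {rk : ℕ} {dir : Fin k → ℂ}
    (h : GoodCoord d M₀ Y y₀ 𝓐.A.dom k e τ rw Rw rz Rz Rv rk dir) :
    ∃ (σ : Sit V k d) (T₀ : Set (Fin k → ℂ)) (M₀' : EMod.{0, 0, 0} (O V))
      (θ : ∀ x, M₀'.St x → M₀.St x) (ι : Type) (c : ι → ((x : V) → M₀.St x) → (Fin k → ℂ) → ℂ)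
      (𝒩 : EMod.{0, 0, 0} (O (Fin k → ℂ)))
      (ν : Set (Fin k → ℂ) → ((x : V) → M₀.St x) → (t : Fin k → ℂ) → 𝒩.St t),
      σ.e = e ∧ σ.y₀ = y₀ ∧ rw < σ.rw ∧ σ.Rw < Rw ∧ rz < σ.rz ∧ σ.Rz < Rz ∧ σ.Rv = Rv ∧
      IsOpen T₀ ∧ σ.t₀ ∈ T₀ ∧ T₀ ⊆ Metric.ball σ.t₀ τ ∧
      Ext0 M₀ σ T₀ M₀' θ ∧ HX M₀ σ T₀ ι c 𝒩 ν ∧ HShrink M₀ σ T₀ :=
  M12.main hYc hcoh h

end Pool.Agent.DQ
end

section

/-! The local main theorem from its parts. -/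

set_option autoImplicit false
set_option linter.unusedSectionVars false

open Set Filter Topology

universe u v w w'

namespace Pool.Agent.DQ

variable {V : Type} [NormedAddCommGroup V] [NormedSpace ℂ V] [FiniteDimensional ℂ V]

theorem slabLemma (d n : ℕ) : SlabLemma V d n := fun κ c R S r hR hr hS Y hY hYs hfin x₁ hx₁ =>
  exists_slab κ c R S r hR hr hS Y hY hYs hfin x₁ hx₁

theorem biData (𝓐 : Defo.{0, v} V) (d : ℕ) : BiData V 𝓐 d := fun _ _ κ c R hR hcoh htf hext =>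
  exists_biData κ c (fun _ => -1) R (HFig.good hR) hcoh htf hext

/-- the local main theorem, full form -/
theorem local_main_out (𝓐 : Defo.{0, v} V) (d : ℕ) (Y : Set V) (y₀ : V) (hy₀ : y₀ ∈ 𝓐.A.dom)
    (hYan : AnalyticNear Y 𝓐.A.dom) (L : Submodule ℂ V) (hL : Module.finrank ℂ L = d + 3)
    (hiso : ∀ᶠ x in 𝓝 y₀, x ∈ Y → x - y₀ ∈ L → x = y₀) (M : EMod.{0, v, w} 𝓐.A)
    (hdom : M.dom = 𝓐.A.dom \ Y) (hM : DRefl 𝓐 d M M.dom) :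
    ∃ U N φ, LocalOut 𝓐 d Y y₀ M U N φ := by
  obtain ⟨M₀, ρ, hred⟩ := exists_isRed 𝓐 M
  have hYo : IsOpen (𝓐.A.dom \ Y) := hdom ▸ M.isOpen_dom
  have hM₀ : M₀.Coh (𝓐.A.dom \ Y) := by
    rw [← hdom]
    exact hred.coh' hM.coh
  obtain ⟨k, e, τ, rw, Rw, rz, Rz, Rv, rk, dir, hgood⟩ := good_coordinates d M₀ Y y₀ 𝓐.A.dom
    𝓐.A.isOpen_dom hy₀ hYo hYan L hL hiso hM₀
    (fun x hx j hj => hM.extZero_red hred (hdom ▸ hx) j hj)
    (fun x hx => hM.noGrade_red hred (hdom ▸ hx))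
  obtain ⟨σ, T₀, M₀', θ, ι, c, 𝒩, ν, he, hy, hrw, hRw, hrz, hRz, hRv, hTo, hT, hTb, hext, hx, hs⟩ :=
    m12 hYan hYo hM₀ hgood
  have hmain : Main 𝓐 M M₀ ρ Y σ T₀ :=
    main_of_good' hdom hM hred hgood σ he hy hrw.le hRw.le hrz.le hRz.le hRv T₀ hTo hT hTb
  have hYdir := ydir_of_good hgood σ he hy hRw.le hRz.le hRv T₀ hTb
  obtain ⟨σ', T₀', M', θ', -, hy', -, -, -, -, -, -, hmain', hcoh, htf, hextM, hθ, hbd⟩ :=
    m56' hmain hext hx hs dir hgood.dir_ne hYdir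
  obtain ⟨U, N, φ, h⟩ := m7_of (slabLemma d) (biData 𝓐 d) hmain' hYan hcoh htf hextM hθ hbd
  rw [hy', hy] at h
  exact ⟨U, N, φ, h⟩

/-- the local main theorem for MP_4aa2a9 (consumed by the official statement layer) -/
theorem local_main (𝓐 : Defo.{0, v} V) (d : ℕ) (Y : Set V) (y₀ : V) (hy₀ : y₀ ∈ 𝓐.A.dom)
    (hYan : AnalyticNear Y 𝓐.A.dom) (L : Submodule ℂ V) (hL : Module.finrank ℂ L = d + 3)
    (hiso : ∀ᶠ x in 𝓝 y₀, x ∈ Y → x - y₀ ∈ L → x = y₀) (M : EMod.{0, v, w} 𝓐.A)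
    (hdom : M.dom = 𝓐.A.dom \ Y) (hM : DRefl 𝓐 d M M.dom) :
    ∃ (U : Set V) (N : EMod.{0, v, v} 𝓐.A) (φ : ∀ x, N.St x → M.St x), IsOpen U ∧ y₀ ∈ U ∧
      U ⊆ 𝓐.A.dom ∧ N.dom = U ∧ N.Coh U ∧
      (∀ x ∈ U \ Y, (∀ m m', φ x (m + m') = φ x m + φ x m') ∧
        (∀ (a : 𝓐.A.St x) m, φ x (a • m) = a • φ x m) ∧ Function.Bijective (φ x)) ∧
      (∀ s, ∀ x ∈ U \ Y, N.At s x → M.At (fun y => φ y (s y)) x) ∧
      (∀ Z ⊆ U, IsOpen Z → ∀ s, M.On s (Z \ Y) →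
        ∃ t, N.On t Z ∧ ∀ x ∈ Z \ Y, φ x (t x) = s x) ∧
      ∀ Z ⊆ U, IsOpen Z → ∀ t, N.On t Z → (∀ x ∈ Z \ Y, t x = 0) → ∀ x ∈ Z, t x = 0 := by
  obtain ⟨U, N, φ, h⟩ := local_main_out 𝓐 d Y y₀ hy₀ hYan L hL hiso M hdom hM
  exact ⟨U, N, φ, h.isOpen, h.mem, h.sub, h.dom, h.coh, h.lin, h.at_map, h.ext, h.inj⟩

end Pool.Agent.DQ
end

section

/-!
# MP_4aa2a9_ag from the local main theorem (campaign DQ, S)
-/

set_option autoImplicit false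

open TopologicalSpace Topology Filter Set

open scoped Manifold ContDiff

universe u

namespace Pool.Agent.DQ

variable {n : ℕ} {X : Type u} [TopologicalSpace X] {A : Algebroid X} {D : Opens X}

/-! ### Stalks -/

/-- the stalk of `End i` -/
noncomputable def Ch.stEquiv (C : Ch n A) (z : Fin n → ℂ)
    (h : z ∈ C.e '' ((C.V ⊓ D : Opens X) : Set X)) :
    A.R C.i (A.pt C.i (C.mpt z h)) ≃+* C.St z where
  toFun a := fun _ => a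
  invFun f := f ⟨C.memV h⟩
  left_inv _ := rfl
  right_inv _ := rfl
  map_mul' _ _ := rfl
  map_add' _ _ := rfl

/-- the stalk of `M` -/
noncomputable def Mod.stEquiv (M : Mod A D) (C : Ch n A) (z : Fin n → ℂ)
    (h : z ∈ C.e '' ((C.V ⊓ D : Opens X) : Set X)) :
    M.St C.i (C.mpt z h) ≃+ M.est C z where
  toFun a := fun _ => a
  invFun f := f ⟨h⟩
  left_inv _ := rfl
  right_inv _ := rfl
  map_add' _ _ := rfl

theorem Mod.stEquiv_smul (M : Mod A D) (C : Ch n A) (z : Fin n → ℂ)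
    (h : z ∈ C.e '' ((C.V ⊓ D : Opens X) : Set X)) (r : A.R C.i (A.pt C.i (C.mpt z h)))
    (m : M.St C.i (C.mpt z h)) :
    M.stEquiv C z h (r • m) = C.stEquiv z h r • M.stEquiv C z h m := rfl

theorem Mod.sc_smul_fam (M : Mod A D) (C : Ch n A) (c : K) {U : Opens X} (hU : U ≤ C.V ⊓ D)
    (s : (M.sh C.i).sec U) {z : Fin n → ℂ} (hz : z ∈ C.e '' (U : Set X)) :
    C.sc c z • M.fam C U s z = M.fam C U (c • s) z := by
  have hUV : U ≤ C.V := hU.trans inf_le_left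
  have h1 : C.sc c z = C.fam U (c • A.one C.i U) z := by
    rw [← C.sc_mul_fam c hUV _ hz, C.fam_one hUV hz, mul_one]
  rw [h1, ← M.fam_act C hU _ _ hz, map_smul, LinearMap.smul_apply,
    M.one_act U (hUV.trans C.dom) (hU.trans inf_le_right)]

/-- torsion-freeness of the stalks -/
theorem Mod.tf_chart (M : Mod A D) (C : Ch n A)
    (h : ∀ (i : A.Obj) (V : Opens X), V ≤ A.dom i → V ≤ D → ∀ s : (M.sh i).sec V,
      hbar • s = 0 → s = 0) {z : Fin n → ℂ} (hz : z ∈ C.e '' ((C.V ⊓ D : Opens X) : Set X))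
    (m : M.est C z) (hm : C.sc hbar z • m = 0) : m = 0 := by
  obtain ⟨U, s, hU, hzU, rfl⟩ := M.exists_fam C hz m
  rw [M.sc_smul_fam C hbar hU s hzU, ← M.fam_zero C hU hzU] at hm
  obtain ⟨W, hW, hzW, e⟩ := M.eq_of_germ C hU _ _ hzU hm
  rw [map_smul, map_zero] at e
  have hWV := hW.trans hU
  have := h C.i W (hWV.trans (inf_le_left.trans C.dom)) (hWV.trans inf_le_right) _ e
  rw [← M.fam_res C hW hU s hzW, this, M.fam_zero C hWV hzW]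

/-- `d`-reflexive modules in a chart -/
theorem Mod.dRefl (M : Mod A D) (C : Loc n A) {d : ℕ} (hM : M.Coherent) (h : M.Reflexive d) :
    DRefl C.defo d (M.emod C.toCh) (M.emod C.toCh).dom where
  coh z hz := by
    filter_upwards [(M.emod C.toCh).isOpen_dom.mem_nhds hz] with y hy
    exact M.coh_of_coherent C.toCh hM hy
  tf z hz m hm := M.tf_chart C.toCh h.1 hz m hm
  ext z hz j hj := by
    have h1 := h.2.1 j hj C.i (C.mpt z hz)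
    exact h1.transport_iso (C.stEquiv z hz) (M.stEquiv C.toCh z hz) (M.stEquiv_smul C.toCh z hz)
  bid z hz := by
    have h1 := h.2.2 C.i (C.mpt z hz)
    exact h1.transport_iso (C.stEquiv z hz) (M.stEquiv C.toCh z hz) (M.stEquiv_smul C.toCh z hz)

/-! ### Analytic sets -/

section manifold

variable [ChartedSpace (Fin n → ℂ) X] [IsManifold 𝓘(ℂ, Fin n → ℂ) ω X]

theorem analyticNear_off {Y : Set X} (hY : IsAnalytic n Y) (C : Ch n A) (hC : C.e ∈ Chart n X) :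
    AnalyticNear (Mod.off C (compl Y hY.1)) (C.e '' (C.V : Set X)) := by
  rintro z ⟨hzY, x, hxV, rfl⟩
  have hx : C.e.symm (C.e x) = x := C.e.left_inv (C.src hxV)
  have hxY : x ∈ Y := by
    have h1 : ¬ (C.e.symm (C.e x) ∈ compl Y hY.1) := hzY
    rw [hx] at h1
    exact not_not.1 h1
  obtain ⟨e₁, he₁, hxe₁, V₁, m, f, hxV₁, hV₁, hf, hfY⟩ := hY.2 x hxY
  have hWo : IsOpen ((C.V : Set X) ∩ (e₁.source ∩ e₁ ⁻¹' V₁)) :=
    C.V.2.inter (e₁.isOpen_inter_preimage V₁.2)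
  let W : Opens X := ⟨_, hWo⟩
  have hWV : W ≤ C.V := fun y hy => hy.1
  have hd : DifferentiableOn ℂ (fun z => e₁ (C.e.symm z)) (C.e '' (W : Set X)) :=
    trans_diff hC he₁ (fun y hy => C.src hy.1) (fun y hy => hy.2.1)
  have hmaps : MapsTo (fun z => e₁ (C.e.symm z)) (C.e '' (W : Set X)) V₁ := by
    rintro _ ⟨y, hy, rfl⟩
    change e₁ (C.e.symm (C.e y)) ∈ V₁
    rw [C.e.left_inv (C.src hy.1)]
    exact hy.2.2
  have hxW : C.e x ∈ C.e '' (W : Set X) := mem_image_of_mem _ ⟨hxV, hxe₁, hxV₁⟩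
  have hWopen : IsOpen (C.e '' (W : Set X)) := isOpen_image C.e C.src hWV
  refine ⟨m, fun j z => f j (e₁ (C.e.symm z)), fun j => ?_, ?_⟩
  · filter_upwards [hWopen.mem_nhds hxW] with y hy
    exact ((hf j).comp hd hmaps).differentiableAt (hWopen.mem_nhds hy)
  · filter_upwards [hWopen.mem_nhds hxW] with w hw
    obtain ⟨y, hy, rfl⟩ := hw
    have h1 : C.e.symm (C.e y) = y := C.e.left_inv (C.src hy.1)
    have h2 := hfY (e₁ y) hy.2.2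
    rw [e₁.left_inv hy.2.1] at h2
    simp only [h1]
    rw [← h2]
    change ¬ (C.e.symm (C.e y) ∈ compl Y hY.1) ↔ _
    rw [h1]
    exact not_not

omit [IsManifold 𝓘(ℂ, Fin n → ℂ) ω X] in
/-- a chart at a point -/
theorem exists_ch (A : Algebroid X) (i : A.Obj) (x : X) (hx : x ∈ A.dom i) :
    ∃ C : Ch n A, C.i = i ∧ x ∈ C.V := by
  let e := chartAt (Fin n → ℂ) x
  have ho : IsOpen ((A.dom i : Set X) ∩ e.source) := (A.dom i).2.inter e.open_source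
  exact ⟨⟨i, e, ⟨_, ho⟩, fun y hy => hy.1, fun y hy => hy.2⟩, rfl, hx, mem_chart_source _ x⟩

omit [ChartedSpace (Fin n → ℂ) X] [IsManifold 𝓘(ℂ, Fin n → ℂ) ω X] in
theorem iso_chart {Y : Set X} (hY : IsClosed Y) (C : Ch n A) {x : X} (hx : x ∈ C.V)
    {L : Submodule ℂ (Fin n → ℂ)} {V₀ : Opens X} (hxV₀ : x ∈ V₀)
    (hiso : ∀ y ∈ V₀, y ∈ Y → C.e y - C.e x ∈ L → y = x) :
    ∀ᶠ z in 𝓝 (C.e x), z ∈ Mod.off C (compl Y hY) → z - C.e x ∈ L → z = C.e x := by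
  have h1 : C.V ⊓ V₀ ≤ C.V := inf_le_left
  have h2 : C.e x ∈ C.e '' ((C.V ⊓ V₀ : Opens X) : Set X) := mem_image_of_mem _ ⟨hx, hxV₀⟩
  filter_upwards [(isOpen_image C.e C.src h1).mem_nhds h2] with z hz hzY hzL
  obtain ⟨y, hy, rfl⟩ := hz
  have h3 : C.e.symm (C.e y) = y := C.e.left_inv (C.src hy.1)
  have h4 : y ∈ Y := by
    have h5 : ¬ (C.e.symm (C.e y) ∈ compl Y hY) := hzY
    rw [h3] at h5
    exact not_not.1 h5
  rw [hiso y hy.2 h4 hzL]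

end manifold

/-- MP_4aa2a9_ag -/
theorem statementA : StatementA.{u} := by
  intro n d X _ _ _ A hA Y hY hcodim M hM hrefl
  refine M.push.coherent_of_charts (n := n) ?_
  intro i x hx _
  by_cases hxY : x ∈ Y
  · obtain ⟨e, he, hxe, L, hL, V₀, hxV₀, hV₀e, hiso⟩ := hcodim x hxY
    obtain ⟨C, rfl, rfl, hxV, hCV⟩ := exists_loc hA i x hx e he hxe V₀ hxV₀
    refine ⟨C.toCh, rfl, hxV, ?_⟩
    have hy₀ : C.e x ∈ C.defo.A.dom := mem_image_of_mem _ hxV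
    obtain ⟨U, N, φ, hUo, hxU, hUd, hNd, hNc, hlin, hat, hext, huniq⟩ :=
      local_main C.defo d (Mod.off C.toCh (compl Y hY.1)) (C.e x) hy₀
        (analyticNear_off hY C.toCh he) L hL (iso_chart hY.1 C.toCh hxV hxV₀ hiso)
        (M.emod C.toCh) (Mod.diff_off C.toCh (compl Y hY.1)).symm (M.dRefl C hM hrefl)
    have h₁ : IsExt (R := C.toCh.sheafR) N (M.emod C.toCh) φ U (Mod.off C.toCh (compl Y hY.1)) :=
      { dom := hNd.ge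
        add := fun x hx => (hlin x hx).1
        smul := fun x hx => (hlin x hx).2.1
        inj := fun x hx m hm => (hlin x hx).2.2.1 (by
          have h0 := (hlin x hx).1 0 0
          rw [add_zero] at h0
          rw [hm, left_eq_add.1 h0])
        at_map := hat
        ext := hext
        uniq := huniq }
    exact IsExt.cohAt hUo h₁ ((M.push_isExt C.toCh).mono hUd) hxU (hNc _ hxU).self_of_nhds
  · obtain ⟨C, rfl, hxV⟩ := exists_ch (n := n) A i x hx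
    refine ⟨C, rfl, hxV, ?_⟩
    have hxD : x ∈ compl Y hY.1 := hxY
    have hz : C.e x ∈ C.e '' ((C.V ⊓ compl Y hY.1 : Opens X) : Set X) :=
      mem_image_of_mem _ ⟨hxV, hxD⟩
    exact M.push_cohAt_off C hz (M.coh_of_coherent C hM hz)

end Pool.Agent.DQ
end
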