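import Mathlib
import Pool.Agent.Lib.MP_4aa2a9_ag.Mg.G038
import Pool.Agent.Lib.MP_4aa2a9_ag.Mg.G047
import Pool.Agent.Lib.MP_4aa2a9_ag.Mg.G048
import Pool.Agent.Lib.MP_4aa2a9_ag.Mg.G046

section

/-!
# DQ, module L, part c: modules with `Ext^j` killed by powers of `h` for `j ≠ d`
-/

set_option autoImplicit false

universe v w w' u

namespace Pool.Agent.DQ

open Matrix MulOpposite

section transport

variable {R : Type v} {S : Type u} [Ring R] [CommRing S] {h : R} {π : R →+* S}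
variable {N : Type w} {E : Type w'} [AddCommGroup N] [Module R N] [AddCommGroup E] [Module R E]

/-- `ExtTor` is invariant under modifications by `h`-torsion -/
theorem HRed.extTor_of_maps (H : HRed h π) [IsNoetherianRing R] [Module.Finite R N] {j : ℕ}
    (f : N →ₗ[R] E) (p : E →ₗ[R] N) (m : ℕ) (hfp : ∀ e, f (p e) = h ^ m • e)
    (hN : ExtTor R h N j) : ExtTor R h E j := by
  intro n B ε hres w hw
  obtain ⟨n', B', ε', hres'⟩ := exists_isRes R N
  obtain ⟨F, hF1, hF⟩ := exists_chain_lift hres hres' p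
  obtain ⟨G, hG1, hG⟩ := exists_chain_lift hres' hres f
  obtain ⟨S, hS⟩ := exists_homotopy hres hres (fun k => F k * G k - h ^ m • 1) (by
    intro v
    have e : v ᵥ* (h ^ m • (1 : Matrix (Fin (n 1)) (Fin (n 1)) R)) = h ^ m • v := by
      ext i
      have h1 : (v ᵥ* (h ^ m • (1 : Matrix (Fin (n 1)) (Fin (n 1)) R))) i = v i * h ^ m := by
        simp [Matrix.vecMul, dotProduct, Matrix.one_apply]
      rw [h1, ← H.pow_comm]
      rfl
    rw [Matrix.vecMul_sub, map_sub, ← Matrix.vecMul_vecMul, hG1, hF1, hfp, e, map_smul,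
      sub_self]) (by
    intro k
    rw [Matrix.mul_sub, Matrix.sub_mul, H.mul_pow_one, pow_one_mul, ← Matrix.mul_assoc, hF,
      Matrix.mul_assoc, hG, Matrix.mul_assoc])
  obtain ⟨l, u, hu⟩ := hN n' B' ε' hres' (G (j + 1) *ᵥ w) (by
    rw [Matrix.mulVec_mulVec, hG, ← Matrix.mulVec_mulVec, hw, Matrix.mulVec_zero])
  refine ⟨l + m, F j *ᵥ u - S j *ᵥ (h ^ l • w), ?_⟩
  have e1 := congrArg (fun X => X *ᵥ (h ^ l • w)) (hS j)
  simp only [Matrix.sub_mulVec, Matrix.add_mulVec, ← Matrix.mulVec_mulVec,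
    H.mulVec_pow_smul, hw, Matrix.mulVec_zero, zero_add, Matrix.smul_mulVec,
    Matrix.one_mulVec] at e1
  have e2 : F (j + 1) *ᵥ (h ^ l • (G (j + 1) *ᵥ w)) = B j *ᵥ (F j *ᵥ u) := by
    rw [← hu, Matrix.mulVec_mulVec, ← hF, ← Matrix.mulVec_mulVec]
  rw [H.mulVec_pow_smul] at e2
  rw [smul_sub, e2] at e1
  rw [Matrix.mulVec_sub, H.mulVec_pow_smul, H.mulVec_pow_smul, ← e1, pow_add, mul_smul]
  abel

/-- the form used for lattices: `α : N → E` injective, `h ^ m E ⊆ α(N)` -/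
theorem HRed.extTor_of_lattice (H : HRed h π) [IsNoetherianRing R] [Module.Finite R N] {j : ℕ}
    (α : N →ₗ[R] E) (hα : Function.Injective α) (m : ℕ) (hm : ∀ e, ∃ n, α n = h ^ m • e)
    (hN : ExtTor R h N j) : ExtTor R h E j := by
  choose p hp using hm
  refine H.extTor_of_maps α { toFun := p, map_add' := ?_, map_smul' := ?_ } m hp hN
  · intro x y
    apply hα
    rw [map_add, hp, hp, hp, smul_add]
  · intro a x
    apply hα
    rw [RingHom.id_apply, map_smul, hp, hp, ← mul_smul, ← mul_smul, H.pow_comm]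

end transport


section tormod

/-- `N` is finite, without `h`-torsion, and `Ext^j(N, R)` is killed by powers of `h`, `j ≠ d` -/
structure TorMod (R : Type v) [Ring R] (h : R) (d : ℕ) (N : Type w) [AddCommGroup N]
    [Module R N] : Prop where
  fin : Module.Finite R N
  tf : ∀ m : N, h • m = 0 → m = 0
  ext : ∀ j, j ≠ d → ExtTor R h N j

/-- the assumptions on the rings -/
structure RingSit {R : Type v} {S : Type u} [Ring R] [CommRing S] (h : R) (π : R →+* S) : Prop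
    where
  red : HRed h π
  noeth : IsNoetherianRing R
  noeth_op : IsNoetherianRing Rᵐᵒᵖ
  noethS : IsNoetherianRing S
  gradeAnn : GradeAnn S
  pureExt : PureExt S
  /-- resolutions over `S` split from some place on -/
  vn : IsLocalRing S ∧ ∃ q, ∀ (n : ℕ → ℕ) (B : ∀ k, Matrix (Fin (n (k + 1))) (Fin (n k)) S),
    RowRes n B → ∀ k, q ≤ k →
      ∃ s : Matrix (Fin (n k)) (Fin (n (k + 1))) S, B k * s * B k = B k

variable {R : Type v} {S : Type u} [Ring R] [CommRing S] {h : R} {π : R →+* S}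
  {N : Type w} [AddCommGroup N] [Module R N] {d : ℕ}
  {n : ℕ → ℕ} {B : ∀ k, Matrix (Fin (n (k + 1))) (Fin (n k)) R} {ε : (Fin (n 1) → R) →ₗ[R] N}

namespace TorMod

variable (T : TorMod R h d N) (Q : RingSit h π)

include T Q

theorem colEx_red (hres : IsRes n B ε) (j : ℕ) (hj : j < d) : ColEx (fun k => (B k).map π) j := by
  have := Q.noeth_op
  have := Q.noethS
  refine Q.red.P0 Q.gradeAnn Q.pureExt hres.zero hres.mul_eq_zero (Q.red.rowRes hres T.tf) d
    (fun i hi w hw => ?_) j hj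
  obtain ⟨m, u, hu⟩ := T.ext i (by omega) n B ε hres w hw
  exact ⟨m, u, hu.symm⟩

theorem colEx (hres : IsRes n B ε) (j : ℕ) (hj : j < d) : ColEx B j := by
  have := Q.noeth_op
  intro w hw
  exact Q.red.col_exact (hres.mul_eq_zero j) (T.colEx_red Q hres j hj) w hw

theorem extZero (j : ℕ) (hj : j < d) : ExtZero R N j :=
  fun _ _ _ hres => T.colEx Q hres j hj

theorem tf_ext (hres : IsRes n B ε) (w : Fin (n (d + 1)) → R) (t : Fin (n d) → R)
    (ht : h • w = B d *ᵥ t) : ∃ t', w = B d *ᵥ t' :=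
  Q.red.tf_step hres.zero hres.mul_eq_zero d (fun i hi => T.colEx_red Q hres i (by omega)) w t ht

variable {g : ℕ → ℕ} {C : ∀ k, Matrix (Fin (g k)) (Fin (g (k + 1))) R}
  {W1 : Matrix (Fin (n (d + 1))) (Fin (g 1)) R}

theorem colEx_cT (hres : IsRes n B ε) (hE : IsResExt d n B g C W1) (j : ℕ) (hj : j < d) :
    ColEx (cT π C) j :=
  Q.red.colEx_cT Q.gradeAnn hres.mul_eq_zero (Q.red.rowRes hres T.tf) hE (T.tf_ext Q hres) j hj

theorem rows_exact (hres : IsRes n B ε) (hE : IsResExt d n B g C W1) (j : ℕ) (hj : j < d)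
    (v : Fin (g (j + 1)) → R) (hv : v ᵥ* C (j + 1) = 0) : ∃ u, u ᵥ* C j = v := by
  have := Q.noeth
  exact Q.red.row_exact (hE.mul_eq_zero j) ((colEx_cT_iff j).1 (T.colEx_cT Q hres hE j hj)) v hv

theorem rows_tf (hres : IsRes n B ε) (hE : IsResExt d n B g C W1) (u : Fin (g (d + 1)) → R)
    (t : Fin (g d) → R) (ht : h • u = t ᵥ* C d) : ∃ t', t' ᵥ* C d = u := by
  rcases Nat.eq_zero_or_pos d with rfl | hd
  · refine ⟨0, ?_⟩
    have e : t = 0 := by
      have : IsEmpty (Fin (g 0)) := by rw [hE.zero]; infer_instance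
      exact Subsingleton.elim _ _
    rw [e, Matrix.zero_vecMul] at ht
    rw [Matrix.zero_vecMul, Q.red.smul_inj u ht]
  · obtain ⟨j, rfl⟩ : ∃ j, d = j + 1 := ⟨d - 1, by omega⟩
    obtain ⟨s, hs⟩ := (colEx_cT_iff j).1 (T.colEx_cT Q hres hE j (by omega)) (fun i => π (t i)) (by
      rw [← map_vecMul, ← ht]
      exact (Q.red.vec_ker_iff _).2 ⟨u, rfl⟩)
    obtain ⟨s, rfl⟩ := Q.red.lift_vec s
    rw [← map_vecMul] at hs
    obtain ⟨t', ht'⟩ := Q.red.vec_ker (t - s ᵥ* C j) (by rw [map_sub_fun, hs, sub_self])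
    refine ⟨t', ?_⟩
    have e : h • u = h • (t' ᵥ* C (j + 1)) := by
      rw [ht, ← Q.red.smul_vecMul, ← ht', Matrix.sub_vecMul, Matrix.vecMul_vecMul, hE.mul_eq_zero,
        Matrix.vecMul_zero, sub_zero]
    rw [← sub_eq_zero, ← smul_sub] at e
    exact (sub_eq_zero.1 (Q.red.smul_inj _ e)).symm

theorem rows_tf_pow (hres : IsRes n B ε) (hE : IsResExt d n B g C W1) (m : ℕ)
    (u : Fin (g (d + 1)) → R) (ht : ∃ t, h ^ m • u = t ᵥ* C d) : ∃ t', t' ᵥ* C d = u := by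
  induction m generalizing u with
  | zero =>
    obtain ⟨t, ht⟩ := ht
    exact ⟨t, by rw [← ht, pow_zero, one_smul]⟩
  | succ m ih =>
    obtain ⟨t, ht⟩ := ht
    obtain ⟨t', ht'⟩ := T.rows_tf Q hres hE (h ^ m • u) t (by rw [← ht, pow_succ', mul_smul])
    exact ih u ⟨t', ht'.symm⟩

theorem exists_vn (hres : IsRes n B ε) :
    ∃ q, ∀ k, q ≤ k → ∃ s : Matrix (Fin (n k)) (Fin (n (k + 1))) R, B k * s * B k = B k := by
  have := Q.noeth
  obtain ⟨hloc, q, hq⟩ := Q.vn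
  refine ⟨max q 1, fun k hk => ?_⟩
  refine Q.red.vn_lift (B k) (hq n _ (Q.red.rowRes hres T.tf) k (le_of_max_le_left hk)) ?_
  rintro v ⟨u, hu⟩
  obtain ⟨k, rfl⟩ : ∃ l, k = l + 1 := ⟨k - 1, by have := le_of_max_le_right hk; omega⟩
  rcases Nat.eq_zero_or_pos k with rfl | hk
  · refine (hres.ker v).1 (T.tf _ ?_)
    rw [← map_smul, ← hu]
    exact hres.eps_one u
  · refine (hres.exact k hk v).1 (Q.red.smul_inj _ ?_)
    rw [← Q.red.smul_vecMul, ← hu, Matrix.vecMul_vecMul, hres.mul_eq_zero, Matrix.vecMul_zero]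

theorem hvn (hres : IsRes n B ε) :
    ∃ (m : ℕ) (s : Matrix (Fin (n (d + 1))) (Fin (n (d + 2))) R),
      B (d + 1) * s * B (d + 1) = h ^ m • B (d + 1) := by
  obtain ⟨q, hq⟩ := T.exists_vn Q hres
  exact Q.red.hvn (d := d) hres.mul_eq_zero (hq (max q (d + 1)) (le_max_left _ _))
    (fun j hj w hw => T.ext j (by omega) n B ε hres w hw) (d + 1) (by omega) (le_max_right _ _)

/-- the bidual map of `N` is injective, and surjective up to powers of `h` -/
theorem bidual {W : ∀ j k, j + k = d + 2 → Matrix (Fin (n j)) (Fin (g k)) R}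
    (D : BiDat d n B ε g C W) :
    (∀ v : Fin (n 1) → R, (∃ t : Fin (g d) → R, v ᵥ* W 1 (d + 1) (by omega) = t ᵥ* C d) →
      ε v = 0) ∧
    ∃ m : ℕ, ∀ u : Fin (g (d + 1)) → R, u ᵥ* C (d + 1) = 0 →
      ∃ (v : Fin (n 1) → R) (t : Fin (g d) → R),
        v ᵥ* W 1 (d + 1) (by omega) + t ᵥ* C d = h ^ m • u := by
  obtain ⟨m, h1, h2⟩ := Q.red.bidual_pow D.res.zero D.res.mul_eq_zero (T.colEx Q D.res)
    (T.hvn Q D.res) W D.rext D.rel
  refine ⟨fun v hv => ?_, m, h2⟩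
  obtain ⟨z, hz⟩ := h1 v hv
  have h3 : h ^ m • ε v = 0 := by rw [← map_smul, ← hz, D.res.eps_one]
  clear h1 h2 hz
  induction m with
  | zero => rwa [pow_zero, one_smul] at h3
  | succ m ih => exact ih (T.tf _ (by rw [← mul_smul, ← pow_succ', h3]))

/-- existence of the data -/
theorem exists_biDat : ∃ (n : ℕ → ℕ)
    (B : ∀ k, Matrix (Fin (n (k + 1))) (Fin (n k)) R) (ε : (Fin (n 1) → R) →ₗ[R] N) (g : ℕ → ℕ)
    (C : ∀ k, Matrix (Fin (g k)) (Fin (g (k + 1))) R)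
    (W : ∀ j k, j + k = d + 2 → Matrix (Fin (n j)) (Fin (g k)) R), BiDat d n B ε g C W := by
  have := Q.noeth
  have := Q.noeth_op
  have := T.fin
  obtain ⟨n, B, ε, hres⟩ := exists_isRes R N
  obtain ⟨g, C, W1, hE⟩ := exists_isResExt d n B
  obtain ⟨W, hW1, hW⟩ := exists_W hE fun j hj => T.colEx Q hres j hj
  exact ⟨n, B, ε, g, C, W, hres, by rw [hW1]; exact hE, hW⟩

end TorMod

end tormod

end Pool.Agent.DQ
end

section

/-!
# DQ, module L, part d: the triangle identity for `E = Ext^d(E', R)` and reflexivity of `E`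
-/

set_option autoImplicit false

universe v w w' u

namespace Pool.Agent.DQ

open Matrix MulOpposite

section triangle

variable {R : Type v} [Ring R] {E : Type w} [AddCommGroup E] [Module R E] {d : ℕ}
  {g : ℕ → ℕ} {C : ∀ k, Matrix (Fin (g k)) (Fin (g (k + 1))) R}
  {n' : ℕ → ℕ} {B' : ∀ k, Matrix (Fin (n' (k + 1))) (Fin (n' k)) R}
  {ε' : (Fin (n' 1) → R) →ₗ[R] E}
  {g' : ℕ → ℕ} {C' : ∀ k, Matrix (Fin (g' k)) (Fin (g' (k + 1))) R}
  {W' : ∀ j k, j + k = d + 2 → Matrix (Fin (n' j)) (Fin (g' k)) R}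

/-- recursive choice of the chain map from the resolution of `E` to the dual of `C` -/
noncomputable def tRec (d : ℕ) (n' : ℕ → ℕ) (B' : ∀ k, Matrix (Fin (n' (k + 1))) (Fin (n' k)) R)
    (g : ℕ → ℕ) (C : ∀ k, Matrix (Fin (g k)) (Fin (g (k + 1))) R)
    (V : Matrix (Fin (n' 1)) (Fin (g (d + 1))) R) :
    ∀ j k, j + k = d + 2 → Matrix (Fin (n' j)) (Fin (g k)) R
  | 0, _, _ => 0
  | 1, k, h => (show k = d + 1 by omega) ▸ V
  | (j + 2), k, _ => Classical.epsilon fun X =>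
      X * C k = B' (j + 1) * tRec d n' B' g C V (j + 1) (k + 1) (by omega)

theorem HdPres.exists_chain {V : Matrix (Fin (n' 1)) (Fin (g (d + 1))) R}
    (hp : HdPres d g C ε' V) (hres : IsRes n' B' ε') (hC0 : g 0 = 0)
    (hCr : ∀ k < d, ∀ u, u ᵥ* C (k + 1) = 0 → ∃ t, t ᵥ* C k = u) :
    ∃ T : ∀ j k, j + k = d + 2 → Matrix (Fin (n' j)) (Fin (g k)) R,
      T 1 (d + 1) (by omega) = V ∧ B' (d + 1) * T (d + 1) 1 (by omega) = 0 ∧
      ∀ j k (h : j + k = d + 1), T (j + 1) k (by omega) * C k = B' j * T j (k + 1) (by omega) := by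
  refine ⟨tRec d n' B' g C V, rfl, ?_⟩
  have key : ∀ j k (h : j + k = d + 1), tRec d n' B' g C V (j + 1) k (by omega) * C k =
      B' j * tRec d n' B' g C V j (k + 1) (by omega) := by
    intro j
    induction j with
    | zero =>
      intro k hk
      obtain rfl : k = d + 1 := by omega
      rw [mul_eq_zero_of_mid hres.zero]
      exact hp.cyc
    | succ j ih =>
      intro k hk
      have key : ∃ X, X * C k = B' (j + 1) * tRec d n' B' g C V (j + 1) (k + 1) (by omega) := by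
        refine exists_row_lift _ (C k) fun v => ?_
        rcases Nat.eq_zero_or_pos j with rfl | hj
        · obtain rfl : k = d := by omega
          have e : tRec k n' B' g C V (0 + 1) (k + 1) (by omega) = V := rfl
          rw [e, ← Matrix.vecMul_vecMul]
          obtain ⟨t, ht⟩ := (hp.ker (v ᵥ* B' 1)).1 (hres.eps_one v)
          exact ⟨t, ht.symm⟩
        · refine hCr k (by omega) _ ?_
          rw [Matrix.vecMul_vecMul, Matrix.mul_assoc, ih (k + 1) (by omega), ← Matrix.mul_assoc,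
            hres.mul_eq_zero, Matrix.zero_mul, Matrix.vecMul_zero]
      exact Classical.epsilon_spec key
  refine ⟨?_, key⟩
  have e1 := key (d + 1) 0 (by omega)
  rw [mul_eq_zero_of_mid hC0] at e1
  exact e1.symm

/-- the triangle identity: the dual of `E' → E'^∨∨` is a retraction of the bidual map of
`E = E'^∨` -/
theorem HdPres.triangle {V : Matrix (Fin (n' 1)) (Fin (g (d + 1))) R}
    (hp : HdPres d g C ε' V) (D : BiDat d n' B' ε' g' C' W') (hC0 : g 0 = 0)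
    (hCC : ∀ k, C k * C (k + 1) = 0)
    (hCr : ∀ k < d, ∀ u, u ᵥ* C (k + 1) = 0 → ∃ t, t ᵥ* C k = u)
    (hex' : ∀ j < d, ColEx B' j) :
    ∃ (G : ∀ k, Matrix (Fin (g' k)) (Fin (g k)) R) (T : Matrix (Fin (n' 1)) (Fin (g d)) R),
      (∀ k, C' k * G (k + 1) = G k * C k) ∧
      V = W' 1 (d + 1) (by omega) * G (d + 1) + T * C d := by
  obtain ⟨Vc, hV1, hVc, hVr⟩ := hp.exists_chain D.res hC0 hCr
  obtain ⟨G1, X, hG1⟩ := exists_col_lift₂ (Vc (d + 1) 1 (by omega))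
    (W' (d + 1) 1 (by omega)) (B' d) (fun v => D.rext.surj _ (by
      rw [Matrix.mulVec_mulVec, hVc, Matrix.zero_mulVec]))
  set G : ∀ k, Matrix (Fin (g' k)) (Fin (g k)) R := gRec g' g C' C G1 with hGdef
  have hG : ∀ k, C' k * G (k + 1) = G k * C k := by
    intro k
    induction k with
    | zero => exact mat_eq_of_zero_left D.rext.zero _ _
    | succ k ih =>
      have key : ∃ X, C' (k + 1) * X = G (k + 1) * C (k + 1) := by
        rcases Nat.eq_zero_or_pos k with rfl | hk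
        · refine exists_col_lift _ (C' 1) fun v => ?_
          change ∃ u, C' 1 *ᵥ u = (G1 * C 1) *ᵥ v
          refine (D.rext.ker _).1 ⟨Vc d 2 (by omega) *ᵥ v - X *ᵥ (C 1 *ᵥ v), ?_⟩
          have e : W' (d + 1) 1 (by omega) * G1 = Vc (d + 1) 1 (by omega) - B' d * X := by
            rw [← hG1]; abel
          have e1 : Vc (d + 1) 1 (by omega) * C 1 = B' d * Vc d 2 (by omega) := hVr d 1 (by omega)
          rw [Matrix.mulVec_mulVec, ← Matrix.mul_assoc, e, Matrix.sub_mul, Matrix.sub_mulVec, e1,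
            Matrix.mulVec_sub, Matrix.mulVec_mulVec, Matrix.mulVec_mulVec, Matrix.mulVec_mulVec,
            Matrix.mul_assoc]
        · refine D.rext.exists_factor hk _ ?_
          rw [← Matrix.mul_assoc, ih, Matrix.mul_assoc, hCC, Matrix.mul_zero]
      exact Classical.epsilon_spec key
  -- the homotopy between `Vc` and `W' G`
  have hT : ∀ l i (_ : i + l = d), ∃ (T : Matrix (Fin (n' i)) (Fin (g (l + 1))) R)
      (T' : Matrix (Fin (n' (i + 1))) (Fin (g l)) R),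
      Vc (i + 1) (l + 1) (by omega) - W' (i + 1) (l + 1) (by omega) * G (l + 1) =
        B' i * T + T' * C l := by
    intro l
    induction l with
    | zero =>
      intro i hi
      obtain rfl : i = d := by omega
      refine ⟨X, 0, ?_⟩
      rw [Matrix.zero_mul, add_zero]
      change Vc (i + 1) 1 _ - W' (i + 1) 1 _ * G1 = B' i * X
      rw [← hG1]; abel
    | succ l ih =>
      intro i hi
      obtain ⟨T, T', hTT⟩ := ih (i + 1) (by omega)
      have e : B' (i + 1) * (Vc (i + 1) (l + 2) (by omega)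
          - W' (i + 1) (l + 2) (by omega) * G (l + 2) - T * C (l + 1)) = 0 := by
        have e1 := hVr (i + 1) (l + 1) (by omega)
        have e2 := D.rel (i + 1) (l + 1) (by omega)
        have e4 := hG (l + 1)
        calc B' (i + 1) * (Vc (i + 1) (l + 2) (by omega)
                - W' (i + 1) (l + 2) (by omega) * G (l + 2) - T * C (l + 1))
            = B' (i + 1) * Vc (i + 1) (l + 2) (by omega)
                - (B' (i + 1) * W' (i + 1) (l + 2) (by omega)) * G (l + 2)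
                - B' (i + 1) * T * C (l + 1) := by
              simp only [Matrix.mul_sub, Matrix.mul_assoc]
          _ = (Vc (i + 2) (l + 1) (by omega)
                - W' (i + 2) (l + 1) (by omega) * G (l + 1)) * C (l + 1)
                - B' (i + 1) * T * C (l + 1) := by
              rw [← e1, ← e2, Matrix.sub_mul]
              simp only [Matrix.mul_assoc]
              rw [e4]
          _ = 0 := by
              rw [hTT, Matrix.add_mul, Matrix.mul_assoc T', hCC, Matrix.mul_zero]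
              abel
      obtain ⟨Y, hY⟩ := exists_col_lift (Vc (i + 1) (l + 2) (by omega)
          - W' (i + 1) (l + 2) (by omega) * G (l + 2) - T * C (l + 1)) (B' i)
        (fun v => hex' i (by omega) _ (by rw [Matrix.mulVec_mulVec, e, Matrix.zero_mulVec]))
      refine ⟨Y, T, ?_⟩
      rw [hY]; abel
  obtain ⟨T, T', hTT⟩ := hT d 0 (by omega)
  refine ⟨G, T', hG, ?_⟩
  have e0 : B' 0 * T = 0 := mul_eq_zero_of_mid D.res.zero _ _
  rw [e0] at hTT
  replace hTT := hTT.trans (zero_add _)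
  change Vc 1 (d + 1) _ - W' 1 (d + 1) _ * G (d + 1) = T' * C d at hTT
  rw [hV1] at hTT
  exact (sub_eq_iff_eq_add'.1 hTT)

/-- reflexivity of `E = Ext^d(E', R)` -/
theorem HdPres.bij {V : Matrix (Fin (n' 1)) (Fin (g (d + 1))) R}
    (hp : HdPres d g C ε' V) (D : BiDat d n' B' ε' g' C' W') (hC0 : g 0 = 0)
    (hCC : ∀ k, C k * C (k + 1) = 0)
    (hCr : ∀ k < d, ∀ u, u ᵥ* C (k + 1) = 0 → ∃ t, t ᵥ* C k = u)
    (hex' : ∀ j < d, ColEx B' j) (h : R) (m : ℕ)
    (hm : ∀ u : Fin (g' (d + 1)) → R, u ᵥ* C' (d + 1) = 0 →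
      ∃ (v : Fin (n' 1) → R) (t : Fin (g' d) → R),
        v ᵥ* W' 1 (d + 1) (by omega) + t ᵥ* C' d = h ^ m • u)
    (htf : ∀ u : Fin (g' (d + 1)) → R, (∃ t, h ^ m • u = t ᵥ* C' d) → ∃ t, t ᵥ* C' d = u) :
    (∀ v : Fin (n' 1) → R, (∃ t : Fin (g' d) → R, v ᵥ* W' 1 (d + 1) (by omega) = t ᵥ* C' d) →
      ε' v = 0) ∧
    ∀ u : Fin (g' (d + 1)) → R, u ᵥ* C' (d + 1) = 0 →
      ∃ (v : Fin (n' 1) → R) (t : Fin (g' d) → R),
        v ᵥ* W' 1 (d + 1) (by omega) + t ᵥ* C' d = u := by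
  obtain ⟨G, T, hG, hV⟩ := hp.triangle D hC0 hCC hCr hex'
  have hVv : ∀ v : Fin (n' 1) → R, v ᵥ* V =
      (v ᵥ* W' 1 (d + 1) (by omega)) ᵥ* G (d + 1) + (v ᵥ* T) ᵥ* C d := by
    intro v
    rw [hV, Matrix.vecMul_add, Matrix.vecMul_vecMul, Matrix.vecMul_vecMul]
  have hGt : ∀ t : Fin (g' d) → R, (t ᵥ* C' d) ᵥ* G (d + 1) = (t ᵥ* G d) ᵥ* C d := by
    intro t
    rw [Matrix.vecMul_vecMul, hG, Matrix.vecMul_vecMul]
  have hWB : ∀ z : Fin (n' 2) → R, (z ᵥ* B' 1) ᵥ* W' 1 (d + 1) (by omega) =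
      (z ᵥ* W' 2 d (by omega)) ᵥ* C' d := by
    intro z
    rw [Matrix.vecMul_vecMul, ← D.rel 1 d (by omega), Matrix.vecMul_vecMul]
  have hWc : W' 1 (d + 1) (by omega) * C' (d + 1) = 0 := by
    have := D.rel 0 (d + 1) (by omega)
    rw [mul_eq_zero_of_mid D.res.zero] at this
    exact this
  have hinj : ∀ v : Fin (n' 1) → R,
      (∃ t : Fin (g' d) → R, v ᵥ* W' 1 (d + 1) (by omega) = t ᵥ* C' d) → ε' v = 0 := by
    rintro v ⟨t, ht⟩
    refine (hp.ker v).2 ⟨t ᵥ* G d + v ᵥ* T, ?_⟩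
    rw [hVv, ht, hGt, ← Matrix.add_vecMul]
  refine ⟨hinj, fun u hu => ?_⟩
  obtain ⟨v, t, hvt⟩ := hp.onto (u ᵥ* G (d + 1)) (by
    rw [Matrix.vecMul_vecMul, ← hG, ← Matrix.vecMul_vecMul, hu, Matrix.zero_vecMul])
  -- `u' = u - v W'` is killed by the retraction
  have hu' : (u - v ᵥ* W' 1 (d + 1) (by omega)) ᵥ* C' (d + 1) = 0 := by
    rw [Matrix.sub_vecMul, hu, Matrix.vecMul_vecMul, hWc, Matrix.vecMul_zero, sub_zero]
  obtain ⟨v', t', hvt'⟩ := hm _ hu'
  have hr : (u - v ᵥ* W' 1 (d + 1) (by omega)) ᵥ* G (d + 1) = (t + v ᵥ* T) ᵥ* C d := by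
    rw [Matrix.sub_vecMul, ← hvt, hVv, Matrix.add_vecMul]
    abel
  have hv' : ε' v' = 0 := by
    refine (hp.ker v').2 ⟨h ^ m • (t + v ᵥ* T) - t' ᵥ* G d + v' ᵥ* T, ?_⟩
    have e1 : (v' ᵥ* W' 1 (d + 1) (by omega)) ᵥ* G (d + 1) =
        (h ^ m • (u - v ᵥ* W' 1 (d + 1) (by omega))) ᵥ* G (d + 1) -
          (t' ᵥ* C' d) ᵥ* G (d + 1) := by
      rw [← hvt', Matrix.add_vecMul]; abel
    rw [hVv, e1, Matrix.smul_vecMul, hr, hGt, Matrix.add_vecMul _ _ (v' ᵥ* T), Matrix.sub_vecMul,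
      Matrix.smul_vecMul]
  obtain ⟨z, hz⟩ := (D.res.ker v').1 hv'
  obtain ⟨t₂, ht₂⟩ := htf _ ⟨z ᵥ* W' 2 d (by omega) + t', by
    rw [← hvt', ← hz, hWB, Matrix.add_vecMul]⟩
  refine ⟨v, t₂, ?_⟩
  rw [ht₂]
  abel

end triangle

end Pool.Agent.DQ
end

section

/-!
# Coherence of an extension over the localised ring (campaign DQ, S)
-/

set_option autoImplicit false

open TopologicalSpace Topology Filter Set

universe u v v' w w'

namespace Pool.Agent.DQ

variable {X : Type u} [TopologicalSpace X] {R : ERing.{u, v} X} {R' : ERing.{u, v'} X}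

/-- `R'` is the localisation of `R` at the powers of `h` -/
structure IsLocSh (h : ∀ x, R.St x) (l : ∀ x, R.St x →+* R'.St x) : Prop where
  dom : R'.dom = R.dom
  at_h : ∀ x ∈ R.dom, R.At h x
  loc : ∀ x ∈ R.dom, IsLocH (h x) (l x)
  at_map : ∀ a x, R.At a x → R'.At (fun y => l y (a y)) x

/-- `N` is, up to denominators, an extension of the `R'`-module `M` from `U \ Y` to `U` -/
structure IsExtLoc (h : ∀ x, R.St x) (l : ∀ x, R.St x →+* R'.St x) (N : EMod.{u, v, w} R)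
    (M : EMod.{u, v', w'} R') (φ : ∀ x, N.St x → M.St x) (U Y : Set X) : Prop where
  dom : U ⊆ N.dom
  add : ∀ x ∈ U \ Y, ∀ m m', φ x (m + m') = φ x m + φ x m'
  smul : ∀ x ∈ U \ Y, ∀ (a : R.St x) m, φ x (a • m) = l x a • φ x m
  inj : ∀ x ∈ U \ Y, ∀ m, φ x m = 0 → m = 0
  at_map : ∀ s, ∀ x ∈ U \ Y, N.At s x → M.At (fun y => φ y (s y)) x
  ext : ∀ Z ⊆ U, IsOpen Z → ∀ s, M.On s (Z \ Y) → ∀ x ∈ Z, ∃ Z' ⊆ Z, IsOpen Z' ∧ x ∈ Z' ∧
    ∃ (k : ℕ) (t : ∀ y, N.St y), N.On t Z' ∧ ∀ y ∈ Z' \ Y, φ y (t y) = l y (h y) ^ k • s y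
  uniq : ∀ Z ⊆ U, IsOpen Z → ∀ t, N.On t Z → (∀ x ∈ Z \ Y, t x = 0) → ∀ x ∈ Z, t x = 0

theorem ERing.at_pow {R : ERing.{u, v} X} {a : ∀ x, R.St x} {x : X} (ha : R.At a x) (k : ℕ) :
    R.At (fun y => a y ^ k) x := by
  induction k with
  | zero =>
    refine R.congr (R.one x (R.mem_dom ha)) (Eventually.of_forall fun y => ?_)
    simp
  | succ k ih =>
    refine R.congr (R.mul ih ha) (Eventually.of_forall fun y => ?_)
    simp [pow_succ]

namespace IsExtLoc

variable {h : ∀ x, R.St x} {l : ∀ x, R.St x →+* R'.St x} {N : EMod.{u, v, w} R}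
    {M : EMod.{u, v', w'} R'} {φ : ∀ x, N.St x → M.St x} {U Y : Set X}

theorem zero (H : IsExtLoc h l N M φ U Y) {x : X} (hx : x ∈ U \ Y) : φ x 0 = 0 := by
  have := H.add x hx 0 0
  rw [add_zero] at this
  exact left_eq_add.1 this

theorem sum (H : IsExtLoc h l N M φ U Y) {x : X} (hx : x ∈ U \ Y) {k : ℕ} (c : Fin k → R.St x)
    (g : Fin k → N.St x) : φ x (∑ j, c j • g j) = ∑ j, l x (c j) • φ x (g j) := by
  classical
  have key : ∀ s : Finset (Fin k), φ x (∑ j ∈ s, c j • g j) = ∑ j ∈ s, l x (c j) • φ x (g j) := by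
    intro s
    induction s using Finset.induction_on with
    | empty => simpa using H.zero hx
    | insert i s hi ih => rw [Finset.sum_insert hi, Finset.sum_insert hi, H.add x hx,
        H.smul x hx, ih]
  exact key _

/-- common denominators for finitely many sections near a point -/
theorem exists_common (L : IsLocSh h l) (H : IsExtLoc h l N M φ U Y) {q : ℕ}
    {s : Fin q → ∀ y, M.St y} {Z : Set X} (hZ : Z ⊆ U) (hZo : IsOpen Z)
    (hs : ∀ j, M.On (s j) (Z \ Y)) {x : X} (hx : x ∈ Z) :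
    ∃ Z' ⊆ Z, IsOpen Z' ∧ x ∈ Z' ∧ ∃ (k : ℕ) (t : Fin q → ∀ y, N.St y),
      (∀ j, N.On (t j) Z') ∧ ∀ j, ∀ y ∈ Z' \ Y, φ y (t j y) = l y (h y) ^ k • s j y := by
  choose Z' hZ' hZ'o hxZ' k t ht hφ using fun j => H.ext Z hZ hZo (s j) (hs j) x hx
  refine ⟨Z ∩ ⋂ j, Z' j, inter_subset_left, hZo.inter (isOpen_iInter_of_finite hZ'o),
    ⟨hx, mem_iInter.2 hxZ'⟩, ∑ j, k j, fun j y => h y ^ (∑ i, k i - k j) • t j y, ?_, ?_⟩
  · intro j y hy
    have hyd : y ∈ R.dom := N.dom_sub (H.dom (hZ hy.1))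
    exact N.smul (ERing.at_pow (L.at_h y hyd) _) (ht j y (mem_iInter.1 hy.2 j))
  · intro j y hy
    have hle : k j ≤ ∑ i, k i := Finset.single_le_sum (fun _ _ => Nat.zero_le _)
      (Finset.mem_univ j)
    rw [H.smul y ⟨hZ hy.1.1, hy.2⟩, hφ j y ⟨mem_iInter.1 hy.1.2 j, hy.2⟩, smul_smul, map_pow,
      ← pow_add, Nat.sub_add_cancel hle]

/-- the direct image over the localised ring is coherent if the extension `N` is -/
theorem cohAt (L : IsLocSh h l) (H : IsExtLoc h l N M φ U Y) {J : EMod.{u, v', w'} R'}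
    {ψ : ∀ x, J.St x → M.St x} (HJ : IsExt J M ψ U Y) (hU : IsOpen U) {x : X} (hx : x ∈ U)
    (hN : N.CohAt x) : J.CohAt x := by
  obtain ⟨-, ⟨k, g, hg, hgen⟩, hrel⟩ := hN
  have hdR : ∀ y ∈ U, y ∈ R.dom := fun y hy => N.dom_sub (H.dom hy)
  have hdR' : ∀ y ∈ U, y ∈ R'.dom := fun y hy => J.dom_sub (HJ.dom hy)
  refine ⟨HJ.dom hx, ?_, ?_⟩
  · obtain ⟨Z, hZ, hZo, hxZ⟩ := mem_nhds_iff.1
      (inter_mem ((eventually_all.2 fun j => N.ev (hg j)).and hgen) (hU.mem_nhds hx))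
    have hZU : Z ⊆ U := fun y hy => (hZ hy).2
    choose g' hg' hg'' using fun j => HJ.ext Z hZU hZo (fun y => φ y (g j y))
      (fun y hy => H.at_map (g j) y ⟨hZU hy.1, hy.2⟩ ((hZ hy.1).1.1 j))
    refine ⟨k, g', fun j => hg' j x hxZ, ?_⟩
    filter_upwards [hZo.mem_nhds hxZ] with y hy
    refine Submodule.eq_top_iff'.2 fun m => ?_
    have hyU : y ∈ U := hZU hy
    obtain ⟨s₂, hs₂, rfl⟩ := J.surj y (HJ.dom hyU) m
    obtain ⟨Z₁, hZ₁, hZ₁o, hyZ₁⟩ := mem_nhds_iff.1 (inter_mem (J.ev hs₂) (hZo.mem_nhds hy))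
    have hZ₁U : Z₁ ⊆ U := fun w hw => hZU (hZ₁ hw).2
    obtain ⟨Z₂, hZ₂, hZ₂o, hyZ₂, q, t, ht, hφt⟩ := H.ext Z₁ hZ₁U hZ₁o (fun w => ψ w (s₂ w))
      (fun w hw => HJ.at_map s₂ w ⟨hZ₁U hw.1, hw.2⟩ (hZ₁ hw.1).1) y hyZ₁
    have h3 : t y ∈ Submodule.span (R.St y) (Set.range fun j => g j y) := by
      rw [(hZ hy).1.2]
      trivial
    obtain ⟨c, hc⟩ := exists_sum_of_mem_span h3
    obtain ⟨Z₃, c', hZ₃o, hyZ₃, hc', hc''⟩ := R.exists_secs (hdR y hyU) c
    have hsum : N.At (fun w => ∑ j, c' j w • g j w) y :=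
      EMod.off_at_sum (H.dom hyU) (fun j => hc' j y hyZ₃) (fun j => (hZ hy).1.1 j)
    have h4 := N.inj (ht y hyZ₂) hsum (by rw [hc]; simp only [hc''])
    obtain ⟨Z₄, hZ₄, hZ₄o, hyZ₄⟩ := mem_nhds_iff.1
      (inter_mem h4 (inter_mem (hZ₂o.mem_nhds hyZ₂) (hZ₃o.mem_nhds hyZ₃)))
    have hZ₄U : Z₄ ⊆ U := fun w hw => hZ₁U (hZ₂ (hZ₄ hw).2.1)
    have a1 : J.On (fun w => l w (h w) ^ q • s₂ w) Z₄ := fun w hw =>
      J.smul (ERing.at_pow (L.at_map h w (L.at_h w (hdR w (hZ₄U hw)))) q)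
        (hZ₁ (hZ₂ (hZ₄ hw).2.1)).1
    have a2 : J.On (fun w => ∑ j, l w (c' j w) • g' j w) Z₄ := fun w hw =>
      EMod.off_at_sum (c := fun j w => l w (c' j w)) (HJ.dom (hZ₄U hw))
        (fun j => L.at_map (c' j) w (hc' j w (hZ₄ hw).2.2))
        (fun j => hg' j w (hZ₁ (hZ₂ (hZ₄ hw).2.1)).2)
    have h5 := HJ.eq_of_off hZ₄U hZ₄o a1 a2 (by
      intro w hw
      have hwU : w ∈ U \ Y := ⟨hZ₄U hw.1, hw.2⟩
      have h6 : t w = ∑ j, c' j w • g j w := (hZ₄ hw.1).1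
      rw [HJ.smul w hwU, ← hφt w ⟨(hZ₄ hw.1).2.1, hw.2⟩, h6, H.sum hwU, HJ.sum hwU]
      refine Finset.sum_congr rfl fun j _ => ?_
      rw [hg'' j w ⟨(hZ₁ (hZ₂ (hZ₄ hw.1).2.1)).2, hw.2⟩]) y hyZ₄
    obtain ⟨u, -, hu⟩ := (L.loc y (hdR y hyU)).unit_pow q
    have h7 : s₂ y = u • ∑ j, l y (c' j y) • g' j y := by
      rw [← h5, smul_smul, hu, one_smul]
    rw [h7]
    exact Submodule.smul_mem _ _
      (Submodule.sum_mem _ fun j _ => Submodule.smul_mem _ _ (Submodule.subset_span ⟨j, rfl⟩))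
  · intro q f hf
    obtain ⟨Z₀, hZ₀, hZ₀o, hxZ₀⟩ := mem_nhds_iff.1
      (inter_mem (eventually_all.2 fun j => J.ev (hf j)) (hU.mem_nhds hx))
    have hZ₀U : Z₀ ⊆ U := fun w hw => (hZ₀ hw).2
    obtain ⟨Z, hZ, hZo, hxZ, k', t, ht, hφt⟩ := exists_common (s := fun j y => ψ y (f j y)) L H
      hZ₀U hZ₀o (fun j w hw => HJ.at_map (f j) w ⟨hZ₀U hw.1, hw.2⟩ ((hZ₀ hw.1).1 j)) hxZ₀
    have hZU : Z ⊆ U := hZ.trans hZ₀U
    obtain ⟨m, r, hr, hr'⟩ := hrel q t (fun j => ht j x hxZ)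
    -- vanishing of combinations
    have key : ∀ y ∈ Z, ∀ (c : Fin q → R.St y),
        ∑ j, c j • t j y = 0 ↔ ∑ j, l y (c j) • f j y = 0 := by
      intro y hyZ c
      have hyU := hZU hyZ
      obtain ⟨Z₂, c', hZ₂o, hyZ₂, hc', hc''⟩ := R.exists_secs (hdR y hyU) c
      have e1 : ∀ w ∈ (Z ∩ Z₂) \ Y, φ w (∑ j, c' j w • t j w) =
          l w (h w) ^ k' • ψ w (∑ j, l w (c' j w) • f j w) := by
        intro w hw
        have hwU : w ∈ U \ Y := ⟨hZU hw.1.1, hw.2⟩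
        rw [H.sum hwU, HJ.sum hwU, Finset.smul_sum]
        refine Finset.sum_congr rfl fun j _ => ?_
        rw [hφt j w ⟨hw.1.1, hw.2⟩, smul_smul, smul_smul,
          (L.loc w (hdR w hwU.1)).pow_comm]
      have a1 : N.On (fun w => ∑ j, c' j w • t j w) (Z ∩ Z₂) := fun w hw =>
        EMod.off_at_sum (H.dom (hZU hw.1)) (fun j => hc' j w hw.2) (fun j => ht j w hw.1)
      have a2 : J.On (fun w => ∑ j, l w (c' j w) • f j w) (Z ∩ Z₂) := fun w hw =>
        EMod.off_at_sum (c := fun j w => l w (c' j w)) (HJ.dom (hZU hw.1))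
          (fun j => L.at_map (c' j) w (hc' j w hw.2)) (fun j => (hZ₀ (hZ hw.1)).1 j)
      constructor
      · intro h0
        have h3 := N.inj (a1 y ⟨hyZ, hyZ₂⟩) (N.zero y (H.dom hyU)) (by
          simp only [hc'']
          exact h0)
        obtain ⟨Z₃, hZ₃, hZ₃o, hyZ₃⟩ := mem_nhds_iff.1
          (inter_mem h3 ((hZo.inter hZ₂o).mem_nhds ⟨hyZ, hyZ₂⟩))
        have h4 := HJ.uniq Z₃ (fun w hw => hZU (hZ₃ hw).2.1) hZ₃o _
          (fun w hw => a2 w (hZ₃ hw).2) (by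
          intro w hw
          have hwU : w ∈ U \ Y := ⟨hZU (hZ₃ hw.1).2.1, hw.2⟩
          apply HJ.inj w hwU
          obtain ⟨u, -, hu⟩ := (L.loc w (hdR w hwU.1)).unit_pow k'
          have h5 := e1 w ⟨(hZ₃ hw.1).2, hw.2⟩
          have h6 : ∑ j, c' j w • t j w = 0 := (hZ₃ hw.1).1
          rw [h6, H.zero hwU] at h5
          have h7 := congrArg (u • ·) h5
          simp only [smul_smul, hu, one_smul, smul_zero] at h7
          exact h7.symm) y hyZ₃
        simp only [hc''] at h4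
        exact h4
      · intro h0
        have h3 := J.inj (a2 y ⟨hyZ, hyZ₂⟩) (J.zero y (HJ.dom hyU)) (by
          simp only [hc'']
          exact h0)
        obtain ⟨Z₃, hZ₃, hZ₃o, hyZ₃⟩ := mem_nhds_iff.1
          (inter_mem h3 ((hZo.inter hZ₂o).mem_nhds ⟨hyZ, hyZ₂⟩))
        have h4 := H.uniq Z₃ (fun w hw => hZU (hZ₃ hw).2.1) hZ₃o _
          (fun w hw => a1 w (hZ₃ hw).2) (by
          intro w hw
          have hwU : w ∈ U \ Y := ⟨hZU (hZ₃ hw.1).2.1, hw.2⟩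
          apply H.inj w hwU
          rw [e1 w ⟨(hZ₃ hw.1).2, hw.2⟩]
          have h6 : ∑ j, l w (c' j w) • f j w = 0 := (hZ₃ hw.1).1
          rw [h6, HJ.zero hwU, smul_zero]) y hyZ₃
        simp only [hc''] at h4
        exact h4
    refine ⟨m, fun p j y => l y (r p j y), fun p j => L.at_map (r p j) x (hr p j), ?_⟩
    filter_upwards [hr', hZo.mem_nhds hxZ] with y hy hyZ
    have hyU := hZU hyZ
    have Ly := L.loc y (hdR y hyU)
    apply le_antisymm
    · intro c hc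
      change ∑ j, c j • f j y = 0 at hc
      obtain ⟨a, b, hb⟩ := Ly.common c
      have h1 : ∑ j, l y (b j) • f j y = 0 := by
        have h2 := congrArg (l y (h y) ^ a • ·) hc
        simp only [smul_zero, Finset.smul_sum, smul_smul, hb] at h2
        exact h2
      have h3 : b ∈ N.rel t y := (key y hyZ b).2 h1
      rw [hy] at h3
      obtain ⟨e, he⟩ := exists_sum_of_mem_span h3
      obtain ⟨u, -, hu⟩ := Ly.unit_pow a
      have h4 : c = ∑ p, (u * l y (e p)) • (fun j => l y (r p j y)) := by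
        funext j
        have h5 : b j = ∑ p, e p * r p j y := by
          have := congrFun he j
          simpa [Finset.sum_apply] using this
        have h6 : c j = u * l y (b j) := by rw [← hb j, ← mul_assoc, hu, one_mul]
        rw [h6, h5, map_sum, Finset.mul_sum, Finset.sum_apply]
        refine Finset.sum_congr rfl fun p _ => ?_
        simp [mul_assoc]
      rw [h4]
      exact Submodule.sum_mem _ fun p _ => Submodule.smul_mem _ _ (Submodule.subset_span ⟨p, rfl⟩)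
    · rw [Submodule.span_le]
      rintro _ ⟨p, rfl⟩
      change ∑ j, l y (r p j y) • f j y = 0
      refine (key y hyZ (fun j => r p j y)).1 ?_
      have h1 : (fun j => r p j y) ∈ N.rel t y := by
        rw [hy]
        exact Submodule.subset_span ⟨p, rfl⟩
      exact h1

end IsExtLoc

end Pool.Agent.DQ
end
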