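import Mathlib
import Pool.Agent.Lib.MP_4aa2a9_ag.Mg.G047
import Pool.Agent.Lib.MP_4aa2a9_ag.Mg.G031
import Pool.Agent.Lib.MP_4aa2a9_ag.DQ.LHull
import Pool.Agent.Lib.MP_4aa2a9_ag.Mg.G049
import Pool.Agent.Lib.MP_4aa2a9_ag.DQ.OffMor

section

/-! # DQ, module L: the pole order bound and `local_main_b` from a `d`-reflexive lattice
(helper99) -/

set_option autoImplicit false

open Set Filter Topology Matrix

universe u v w

namespace Pool.Agent.DQ

variable {V : Type} [NormedAddCommGroup V] [NormedSpace ℂ V] [FiniteDimensional ℂ V]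
  {𝓐 : Defo.{0, v} V}

omit [FiniteDimensional ℂ V] in
theorem Defo.hb_pow_at (𝓐 : Defo.{0, v} V) {x : V} (hx : x ∈ 𝓐.A.dom) (k : ℕ) :
    𝓐.A.At (fun y => 𝓐.hb y ^ k) x := by
  induction k with
  | zero =>
    refine 𝓐.A.congr (𝓐.A.one x hx) (Eventually.of_forall fun y => ?_)
    simp
  | succ k ih =>
    refine 𝓐.A.congr (𝓐.A.mul ih (𝓐.hb_at x hx)) (Eventually.of_forall fun y => ?_)
    simp [pow_succ]

namespace Hull

variable {d : ℕ} {Y : Set V} {M : EMod.{0, v, w} 𝓐.A} {N₂ : EMod.{0, v, w} 𝓐.A}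
  {ι₂ : ∀ x, N₂.St x → M.St x} (hull : Hull 𝓐 d Y M N₂ ι₂)
include hull

omit [FiniteDimensional ℂ V] in
theorem range_pow {x : V} (hx : x ∈ N₂.dom) {m : M.St x} {k k' : ℕ} (hk : k ≤ k')
    (h : 𝓐.hb x ^ k • m ∈ range (ι₂ x)) : 𝓐.hb x ^ k' • m ∈ range (ι₂ x) := by
  obtain ⟨a, ha⟩ := h
  refine ⟨𝓐.hb x ^ (k' - k) • a, ?_⟩
  rw [hull.smul x hx, ha, smul_smul, ← pow_add, Nat.sub_add_cancel hk]

omit [FiniteDimensional ℂ V] in
theorem zero {x : V} (hx : x ∈ N₂.dom) : ι₂ x 0 = 0 := by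
  have := hull.add x hx 0 0
  rw [add_zero] at this
  exact left_eq_add.1 this

omit [FiniteDimensional ℂ V] in
/-- the pole order is bounded on compact sets -/
theorem exists_pow {C : Set V} (hC : IsCompact C) (hCd : C ⊆ N₂.dom) {s : ∀ x, M.St x}
    (hs : M.On s C) :
    ∃ k : ℕ, ∀ y ∈ C, ∀ᶠ z in 𝓝 y, 𝓐.hb z ^ k • s z ∈ range (ι₂ z) := by
  have key : ∃ k : ℕ, ∀ k' ≥ k, ∀ y ∈ C, ∀ᶠ z in 𝓝 y, 𝓐.hb z ^ k' • s z ∈ range (ι₂ z) := by
    refine hC.induction_on (p := fun S => ∃ k : ℕ, ∀ k' ≥ k, ∀ y ∈ S, ∀ᶠ z in 𝓝 y,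
      𝓐.hb z ^ k' • s z ∈ range (ι₂ z)) ⟨0, fun _ _ y hy => absurd hy (notMem_empty y)⟩
      (fun S T hST ⟨k, hk⟩ => ⟨k, fun k' hk' y hy => hk k' hk' y (hST hy)⟩)
      (fun S T ⟨k, hk⟩ ⟨l, hl⟩ => ⟨max k l, fun k' hk' y hy => ?_⟩) ?_
    · rcases hy with hy | hy
      · exact hk k' ((le_max_left _ _).trans hk') y hy
      · exact hl k' ((le_max_right _ _).trans hk') y hy
    · intro y hy
      have hyd := hCd hy
      have hyA : y ∈ 𝓐.A.dom := N₂.dom_sub hyd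
      obtain ⟨k, m', hm'⟩ := hull.gen y hyd (s y)
      have h1 : M.At (fun z => 𝓐.hb z ^ k • s z) y := M.smul (𝓐.hb_pow_at hyA k) (hs y hy)
      have h2 := hull.range_near _ y h1 ⟨m', hm'.symm⟩
      have h3 : ∀ᶠ z in 𝓝 y, z ∈ N₂.dom := N₂.isOpen_dom.mem_nhds hyd
      refine ⟨{y' | ∀ᶠ z in 𝓝 y', 𝓐.hb z ^ k • s z ∈ range (ι₂ z) ∧ z ∈ N₂.dom},
        mem_nhdsWithin_of_mem_nhds (eventually_eventually_nhds.2 (h2.and h3)), k, ?_⟩
      intro k' hk' y' hy'
      exact hy'.mono fun z hz => hull.range_pow hz.2 hk' hz.1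
  obtain ⟨k, hk⟩ := key
  exact ⟨k, hk k le_rfl⟩

omit [FiniteDimensional ℂ V] in
open Classical in
/-- a section of `M` near `C` is, up to a power of `ħ`, a section of the lattice -/
theorem exists_lift {C : Set V} (hC : IsCompact C) (hCd : C ⊆ N₂.dom) {s : ∀ x, M.St x}
    (hs : M.On s C) :
    ∃ (k : ℕ) (s₂ : ∀ x, N₂.St x), N₂.On s₂ C ∧ ∀ y ∈ C, ι₂ y (s₂ y) = 𝓐.hb y ^ k • s y := by
  obtain ⟨k, hk⟩ := hull.exists_pow hC hCd hs
  have h1 : ∀ z, 𝓐.hb z ^ k • s z ∈ range (ι₂ z) →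
      ι₂ z (if h : 𝓐.hb z ^ k • s z ∈ range (ι₂ z) then h.choose else 0) =
        𝓐.hb z ^ k • s z := by
    intro z hz
    rw [dif_pos hz]
    exact hz.choose_spec
  refine ⟨k, fun z => if h : 𝓐.hb z ^ k • s z ∈ range (ι₂ z) then h.choose else 0,
    fun y hy => ?_, fun y hy => h1 y (hk y hy).self_of_nhds⟩
  rw [hull.at_iff]
  refine M.congr (M.smul (𝓐.hb_pow_at (N₂.dom_sub (hCd hy)) k) (hs y hy)) ?_
  filter_upwards [hk y hy] with z hz
  exact (h1 z hz).symm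

end Hull

omit [FiniteDimensional ℂ V] in
theorem DRefl.mono_set3 {d : ℕ} {M : EMod.{0, v, w} 𝓐.A} {S T : Set V} (h : DRefl 𝓐 d M S)
    (hT : T ⊆ S) : DRefl 𝓐 d M T where
  coh x hx := h.coh x (hT hx)
  tf x hx := h.tf x (hT hx)
  ext x hx := h.ext x (hT hx)
  bid x hx := h.bid x (hT hx)

/-- (L3) the local main theorem for MP_b4eb46 from a `d`-reflexive lattice -/
theorem local_main_b_of_hull' (𝓐 : Defo.{0, v} V) (d : ℕ) (Y : Set V) (y₀ : V)
    (hy₀ : y₀ ∈ 𝓐.A.dom)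
    (hYan : AnalyticNear Y 𝓐.A.dom) (L : Submodule ℂ V) (hL : Module.finrank ℂ L = d + 3)
    (hiso : ∀ᶠ x in 𝓝 y₀, x ∈ Y → x - y₀ ∈ L → x = y₀)
    (M : EMod.{0, v, w} 𝓐.A) (hMdom : M.dom = 𝓐.A.dom \ Y)
    (hbij : ∀ x ∈ M.dom, Function.Bijective fun m : M.St x => 𝓐.hb x • m)
    (N₂ : EMod.{0, v, w} 𝓐.A) (ι₂ : ∀ x, N₂.St x → M.St x) (hull : Hull 𝓐 d Y M N₂ ι₂) :
    ∃ (U : Set V) (N' : EMod.{0, v, v} 𝓐.A) (φ : ∀ x, N'.St x → M.St x), IsOpen U ∧ y₀ ∈ U ∧
      U ⊆ 𝓐.A.dom ∧ N'.dom = U ∧ N'.Coh U ∧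
      (∀ x ∈ U \ Y, (∀ m m', φ x (m + m') = φ x m + φ x m') ∧
        (∀ (a : 𝓐.A.St x) m, φ x (a • m) = a • φ x m) ∧ ∀ m, φ x m = 0 → m = 0) ∧
      (∀ s, ∀ x ∈ U \ Y, N'.At s x → M.At (fun y => φ y (s y)) x) ∧
      (∀ Z ⊆ U, IsOpen Z → ∀ s, M.On s (Z \ Y) → ∀ x ∈ Z, ∃ Z' ⊆ Z, IsOpen Z' ∧ x ∈ Z' ∧
        ∃ (k : ℕ) (t : ∀ y, N'.St y), N'.On t Z' ∧ ∀ y ∈ Z' \ Y, φ y (t y) = 𝓐.hb y ^ k • s y) ∧
      ∀ Z ⊆ U, IsOpen Z → ∀ t, N'.On t Z → (∀ x ∈ Z \ Y, t x = 0) → ∀ x ∈ Z, t x = 0 := by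
  obtain ⟨U, N', φ', h⟩ := local_main_out 𝓐 d Y y₀ hy₀ hYan L hL hiso N₂ hull.dom hull.refl
  have hd : ∀ x ∈ U \ Y, x ∈ N₂.dom := fun x hx => by
    rw [hull.dom]
    exact ⟨h.sub hx.1, hx.2⟩
  have hpow : ∀ x ∈ N₂.dom, ∀ (k : ℕ) (m : M.St x), 𝓐.hb x ^ k • m = 0 → m = 0 := by
    intro x hx k
    induction k with
    | zero => intro m hm; simpa using hm
    | succ k ih =>
      intro m hm
      rw [pow_succ', mul_smul] at hm
      refine ih m ((hbij x (by rw [hMdom, ← hull.dom]; exact hx)).1 ?_)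
      simp only [smul_zero]
      exact hm
  refine ⟨U, N', fun x m => ι₂ x (φ' x m), h.isOpen, h.mem, h.sub, h.dom, h.coh, ?_, ?_, ?_,
    h.inj⟩
  · intro x hx
    obtain ⟨h1, h2, h3⟩ := h.lin x hx
    refine ⟨fun m m' => ?_, fun a m => ?_, fun m hm => ?_⟩
    · change ι₂ x (φ' x (m + m')) = ι₂ x (φ' x m) + ι₂ x (φ' x m')
      rw [h1, hull.add x (hd x hx)]
    · change ι₂ x (φ' x (a • m)) = a • ι₂ x (φ' x m)
      rw [h2, hull.smul x (hd x hx)]
    · have h4 : φ' x 0 = 0 := by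
        have := h1 0 0
        rw [add_zero] at this
        exact left_eq_add.1 this
      apply h3.1
      apply hull.inj x
      rw [h4, hull.zero (hd x hx)]
      exact hm
  · intro s x hx hs
    exact (hull.at_iff _ x).1 (h.at_map s x hx hs)
  · intro Z hZ hZo s hs x₀ hx₀
    obtain ⟨K', E', C, hK'o, hx₀K', hK'Z, hE'o, hE'K', hC, hE'C, hCZ, hext, hbox⟩ :=
      h.sh x₀ (hZ hx₀) Z (hZo.mem_nhds hx₀)
    have hCd : C ⊆ N₂.dom := fun y hy => hd y ⟨(hCZ hy).1.2, (hCZ hy).2⟩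
    obtain ⟨k, s₂, hs₂, hι⟩ := hull.exists_lift hC hCd (s := s)
      (fun y hy => hs y ⟨(hCZ hy).1.1, (hCZ hy).2⟩)
    obtain ⟨t, ht, htφ⟩ := hext s₂ (fun y hy => hs₂ y (hE'C hy))
    refine ⟨K', fun y hy => (hK'Z hy).1, hK'o, hx₀K', k, t, ht, ?_⟩
    intro x₁ hx₁
    obtain ⟨n, κ, c, R, S, r, hR, hr, hS, hP, hx₁P, hsh⟩ := hbox x₁ hx₁
    have hPU : ∀ y ∈ cbox κ c (-1) R, y ∈ U \ Y := fun y hy =>
      ⟨(hK'Z (hP hy).1).2, (hP hy).2⟩
    have hPd : cbox κ c (-1) R ⊆ N₂.dom := fun y hy => hd y (hPU y hy)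
    have hboxc : box κ c (-1) R ⊆ cbox κ c (-1) R := fun y hy i =>
      ⟨(hy i).1.le, (hy i).2.le⟩
    have hPc : IsCompact (cbox κ c (-1) R) := by
      have h1 : IsCompact {z : Fin n → ℂ | ∀ i, z i ∈ cring (c i) ((-1 : Fin n → ℝ) i) (R i)} := by
        have h2 : {z : Fin n → ℂ | ∀ i, z i ∈ cring (c i) ((-1 : Fin n → ℝ) i) (R i)} =
            Set.pi univ fun i => Metric.closedBall (c i) (R i) := by
          ext z
          constructor
          · intro h i _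
            rw [Metric.mem_closedBall, dist_eq_norm]
            exact (h i).2
          · intro h i
            have h3 := h i (mem_univ i)
            rw [Metric.mem_closedBall, dist_eq_norm] at h3
            refine ⟨?_, h3⟩
            change (-1 : ℝ) ≤ _
            linarith [norm_nonneg (z i - c i)]
        rw [h2]
        exact isCompact_univ_pi fun i => isCompact_closedBall _ _
      have h3 : cbox κ c (-1) R = κ.symm ''
          {z : Fin n → ℂ | ∀ i, z i ∈ cring (c i) ((-1 : Fin n → ℝ) i) (R i)} := by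
        ext y
        constructor
        · intro hy
          exact ⟨κ y, hy, κ.symm_apply_apply y⟩
        · rintro ⟨z, hz, rfl⟩ i
          rw [κ.apply_symm_apply]
          exact hz i
      rw [h3]
      exact h1.image κ.symm.continuous
    obtain ⟨l, s₃, hs₃, hι₃⟩ := hull.exists_lift hPc hPd (s := fun y => 𝓐.hb y ^ k • s y)
      (fun y hy => M.smul (𝓐.hb_pow_at (N₂.dom_sub (hPd hy)) k)
        (hs y ⟨(hK'Z (hP hy).1).1, (hP hy).2⟩))
    have hrefl : DRefl 𝓐 d N₂ (cbox κ c (-1) R) := hull.refl.mono_set3 hPd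
    obtain ⟨g, C', φC, hT⟩ := hrefl.htype κ c (-1) R (fun i => ⟨by simp, by
      simp only [Pi.neg_apply, Pi.one_apply]
      linarith [hR i], hR i⟩)
    have hu : N₂.On (fun y => s₃ y + (-(𝓐.hb y ^ l)) • φ' y (t y)) (box κ c (-1) R) := by
      intro y hy
      have hyP := hboxc hy
      refine N₂.add (hs₃ y hyP) (N₂.smul (𝓐.A.neg (𝓐.hb_pow_at (N₂.dom_sub (hPd hyP)) l)) ?_)
      exact h.at_map t y (hPU y hyP) (ht y (hP hyP).1)
    have hzero := hartogs_unique hR hr hS hT hrefl.coh hrefl.tf _ hu (by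
      intro y hy
      have hyP := hboxc hy.1
      have hyE := hsh hy
      apply hull.inj y
      rw [hull.zero (hPd hyP), hull.add y (hPd hyP), hull.smul y (hPd hyP), htφ y hyE,
        hι₃ y hyP, hι y (hE'C hyE)]
      simp) x₁ hx₁P
    have hx₁c := hboxc hx₁P
    have h5 : ι₂ x₁ (s₃ x₁ + (-(𝓐.hb x₁ ^ l)) • φ' x₁ (t x₁)) = ι₂ x₁ 0 :=
      congrArg (ι₂ x₁) hzero
    rw [hull.zero (hPd hx₁c), hull.add x₁ (hPd hx₁c), hull.smul x₁ (hPd hx₁c),
      hι₃ x₁ hx₁c, neg_smul, ← sub_eq_add_neg, ← smul_sub] at h5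
    exact (sub_eq_zero.1 (hpow x₁ (hPd hx₁c) l _ h5)).symm

end Pool.Agent.DQ
end

section

/-! # DQ: the local main theorem for MP_b4eb46_ag in the form consumed by the official layer -/

set_option autoImplicit false

open Set Filter Topology Matrix

universe u v w

namespace Pool.Agent.DQ

variable {V : Type} [NormedAddCommGroup V] [NormedSpace ℂ V] [FiniteDimensional ℂ V]
  (𝓐 : Defo.{0, v} V)

/-- the local main theorem for MP_b4eb46: `M` is an `𝓐[1/ħ]`-module off `Y`, `N` a lattice in it -/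
theorem local_main_b (d : ℕ) (Y : Set V) (y₀ : V) (hy₀ : y₀ ∈ 𝓐.A.dom)
    (hYan : AnalyticNear Y 𝓐.A.dom) (L : Submodule ℂ V) (hL : Module.finrank ℂ L = d + 3)
    (hiso : ∀ᶠ x in 𝓝 y₀, x ∈ Y → x - y₀ ∈ L → x = y₀)
    (M : EMod.{0, v, w} 𝓐.A) (N : EMod.{0, v, w} 𝓐.A) (ι : ∀ x, N.St x → M.St x)
    (hMdom : M.dom = 𝓐.A.dom \ Y) (hNdom : N.dom = 𝓐.A.dom \ Y) (hN : N.Coh N.dom)
    (ι_add : ∀ x ∈ N.dom, ∀ m m', ι x (m + m') = ι x m + ι x m')
    (ι_smul : ∀ x ∈ N.dom, ∀ (a : 𝓐.A.St x) m, ι x (a • m) = a • ι x m)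
    (ι_inj : ∀ x ∈ N.dom, ∀ m, ι x m = 0 → m = 0)
    (ι_at : ∀ s x, N.At s x → M.At (fun y => ι y (s y)) x)
    (hbij : ∀ x ∈ N.dom, Function.Bijective fun m : M.St x => 𝓐.hb x • m)
    (hloc : ∀ x ∈ N.dom, ∀ m : M.St x, ∃ (k : ℕ) (m' : N.St x), 𝓐.hb x ^ k • m = ι x m')
    (hext : ∀ x ∈ N.dom, ∀ j, j ≠ d → ExtTor (𝓐.A.St x) (𝓐.hb x) (N.St x) j) :
    ∃ (U : Set V) (N' : EMod.{0, v, v} 𝓐.A) (φ : ∀ x, N'.St x → M.St x), IsOpen U ∧ y₀ ∈ U ∧
      U ⊆ 𝓐.A.dom ∧ N'.dom = U ∧ N'.Coh U ∧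
      (∀ x ∈ U \ Y, (∀ m m', φ x (m + m') = φ x m + φ x m') ∧
        (∀ (a : 𝓐.A.St x) m, φ x (a • m) = a • φ x m) ∧ ∀ m, φ x m = 0 → m = 0) ∧
      (∀ s, ∀ x ∈ U \ Y, N'.At s x → M.At (fun y => φ y (s y)) x) ∧
      -- every section of `M` over `Z \ Y` is locally on `Z` of the form `ħ ^ (-k) φ(t)`
      (∀ Z ⊆ U, IsOpen Z → ∀ s, M.On s (Z \ Y) → ∀ x ∈ Z, ∃ Z' ⊆ Z, IsOpen Z' ∧ x ∈ Z' ∧
        ∃ (k : ℕ) (t : ∀ y, N'.St y), N'.On t Z' ∧ ∀ y ∈ Z' \ Y, φ y (t y) = 𝓐.hb y ^ k • s y) ∧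
      ∀ Z ⊆ U, IsOpen Z → ∀ t, N'.On t Z → (∀ x ∈ Z \ Y, t x = 0) → ∀ x ∈ Z, t x = 0 := by
  obtain ⟨N₂, ι₂, hull⟩ := exists_hull 𝓐 d Y M N ι hMdom hNdom hN ι_add ι_smul ι_inj ι_at hbij
    hloc hext
  exact local_main_b_of_hull' 𝓐 d Y y₀ hy₀ hYan L hL hiso M hMdom
    (fun x hx => hbij x (by rw [hNdom, ← hMdom]; exact hx)) N₂ ι₂ hull

end Pool.Agent.DQ
end

section

/-!
# MP_b4eb46_ag from the local main theorem (campaign DQ, S)
-/

set_option autoImplicit false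

open TopologicalSpace Topology Filter Set

open scoped Manifold ContDiff

universe u

namespace Pool.Agent.DQ

variable {n : ℕ} {X : Type u} [TopologicalSpace X] {A A' : Algebroid X} {o : A.Obj ≃ A'.Obj}
  {φ : ∀ (i j : A.Obj) (V : Opens X), (A.Hom i j).sec V →ₗ[K] (A'.Hom (o i) (o j)).sec V}
  {D : Opens X}

theorem IsLoc.le_dom (L : IsLoc A A' o φ) {i : A.Obj} {V : Opens X} (h : V ≤ A.dom i) :
    V ≤ A'.dom (o i) := by rw [L.dom]; exact h

/-- restriction of scalars -/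
noncomputable def Mod.restrict (L : IsLoc A A' o φ) (M : Mod A' D) : Mod A D where
  sh i := M.sh (o i)
  act {i j} V := (M.act V).comp (φ i j V)
  res_act {i j V W} h hi hj hD a s := by
    simp only [LinearMap.comp_apply]
    rw [M.res_act h (L.le_dom hi) (L.le_dom hj) hD, L.res i j h a hi hj]
  one_act {i} V hi hD s := by
    simp only [LinearMap.comp_apply]
    rw [L.one i V hi, M.one_act V (L.le_dom hi) hD]
  comp_act {i j k} V hi hj hk hD b a s := by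
    simp only [LinearMap.comp_apply]
    rw [L.comp i j k V hi hj hk, M.comp_act V (L.le_dom hi) (L.le_dom hj) (L.le_dom hk) hD]

/-- the chart for the localised algebroid -/
noncomputable def Ch.loc (C : Ch n A) (L : IsLoc A A' o φ) : Ch n A' :=
  ⟨o C.i, C.e, C.V, L.le_dom C.dom, C.src⟩

/-- `φ` as a morphism of sheaves -/
noncomputable def lmor (L : IsLoc A A' o φ) (i : A.Obj) :
    ShMor (A.Hom i i) (A'.Hom (o i) (o i)) (A.dom i) :=
  ⟨φ i i, fun h hW s => L.res i i h s hW hW⟩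

section ring

variable (L : IsLoc A A' o φ) (C : Ch n A)

/-- the localisation on stalks, as a map -/
noncomputable def lfun (z : Fin n → ℂ) (a : C.St z) : (C.loc L).St z :=
  (lmor L C.i).emap C.src C.dom z a

theorem lfun_fam {U : Opens X} (hU : U ≤ C.V) (a : (A.Hom C.i C.i).sec U) {z : Fin n → ℂ}
    (hz : z ∈ C.e '' (U : Set X)) :
    lfun L C z (C.fam U a z) = (C.loc L).fam U (φ C.i C.i U a) z :=
  (lmor L C.i).emap_ffam C.src C.dom hU a hz

theorem st_ext {C : Ch n A} {z : Fin n → ℂ} {a b : C.St z}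
    (h : z ∈ C.e '' (C.V : Set X) → a = b) : a = b := by
  by_cases hz : z ∈ C.e '' (C.V : Set X)
  · exact h hz
  · funext ⟨h0⟩
    exact absurd h0 hz

/-- the localisation on stalks -/
noncomputable def lring (z : Fin n → ℂ) : C.St z →+* (C.loc L).St z where
  toFun := lfun L C z
  map_one' := st_ext fun hz => by
    have hz' : z ∈ (C.loc L).e '' ((C.loc L).V : Set X) := hz
    rw [← C.fam_one le_rfl hz, lfun_fam L C le_rfl _ hz, L.one C.i C.V C.dom]
    exact (C.loc L).fam_one le_rfl hz'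
  map_zero' := st_ext fun hz => by
    have hz' : z ∈ (C.loc L).e '' ((C.loc L).V : Set X) := hz
    rw [← C.fam_zero le_rfl hz, lfun_fam L C le_rfl _ hz, map_zero]
    exact (C.loc L).fam_zero le_rfl hz'
  map_add' a b := (lmor L C.i).emap_add C.src C.dom z a b
  map_mul' a b := st_ext fun hz => by
    have hz' : z ∈ C.e '' (C.V : Set X) := hz
    obtain ⟨U, s, t, hU, hzU, rfl, rfl⟩ := C.exists_fam₂ hz' a b
    have hzU' : z ∈ (C.loc L).e '' (U : Set X) := hzU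
    rw [← C.fam_mul hU s t hzU, lfun_fam L C hU _ hzU, lfun_fam L C hU _ hzU,
      lfun_fam L C hU _ hzU, L.comp C.i C.i C.i U (hU.trans C.dom) (hU.trans C.dom)
      (hU.trans C.dom)]
    exact (C.loc L).fam_mul (U := U) hU _ _ hzU'

theorem lring_fam {U : Opens X} (hU : U ≤ C.V) (a : (A.Hom C.i C.i).sec U) {z : Fin n → ℂ}
    (hz : z ∈ C.e '' (U : Set X)) :
    lring L C z (C.fam U a z) = (C.loc L).fam U (φ C.i C.i U a) z := lfun_fam L C hU a hz

theorem Ch.sc_eq_fam (C : Ch n A) (c : K) {U : Opens X} (hU : U ≤ C.V) {z : Fin n → ℂ}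
    (hz : z ∈ C.e '' (U : Set X)) : C.sc c z = C.fam U (c • A.one C.i U) z := by
  rw [← C.sc_mul_fam c hU _ hz, C.fam_one hU hz, mul_one]

theorem lring_sc (c : K) {z : Fin n → ℂ} (hz : z ∈ C.e '' (C.V : Set X)) :
    lring L C z (C.sc c z) = (C.loc L).sc c z := by
  have hz' : z ∈ (C.loc L).e '' ((C.loc L).V : Set X) := hz
  rw [C.sc_eq_fam c le_rfl hz, lring_fam L C le_rfl _ hz, map_smul, L.one C.i C.V C.dom]
  exact ((C.loc L).sc_eq_fam c le_rfl hz').symm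

end ring

/-- the localisation on stalks -/
theorem lring_isLocH (L : IsLoc A A' o φ) (C : Loc n A) {z : Fin n → ℂ}
    (hz : z ∈ C.e '' (C.V : Set X)) : IsLocH (C.toCh.sc hbar z) (lring L C.toCh z) := by
    have hz0 : z ∈ C.e '' (C.V : Set X) := hz
    have hz' : z ∈ (C.toCh.loc L).e '' ((C.toCh.loc L).V : Set X) := hz
    have hsc := lring_sc L C.toCh hbar hz
    refine ⟨fun a => C.toCh.sc_comm hbar a, ?_, ?_, ?_, ?_⟩
    · intro a ha
      obtain ⟨U, s, hU, hzU, rfl, hs⟩ := (lmor L C.i).emap_eq_zero C.src C.dom hz ha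
      obtain ⟨W, hW, hxW, k, hk⟩ := L.ker C.i C.i U (hU.trans C.dom) (hU.trans C.dom) s hs _
        (symm_mem C.e C.src hU hzU)
      have hWV := hW.trans hU
      have hzW : z ∈ C.e '' (W : Set X) := C.toCh.mem_of_mem hWV hz0 hxW
      have h1 : C.toCh.sc hbar z ^ k * C.toCh.fam U s z = 0 := by
        rw [C.toCh.sc_pow, ← C.toCh.fam_res hW hU s hzW, C.toCh.sc_mul_fam _ hWV _ hzW, hk,
          C.toCh.fam_zero hWV hzW]
      have h2 : ∀ j : ℕ, C.toCh.sc hbar z ^ j * C.toCh.fam U s z = 0 → C.toCh.fam U s z = 0 := by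
        intro j
        induction j with
        | zero => intro h; simpa using h
        | succ j ih =>
          intro h
          rw [pow_succ', mul_assoc] at h
          exact ih (C.defo.hb_reg z hz _ h)
      exact h2 k h1
    · intro a
      rw [hsc]
      exact (C.toCh.loc L).sc_comm hbar a
    · obtain ⟨b, hb⟩ := (L.bij (o C.i) (o C.i) C.V (L.le_dom C.dom) (L.le_dom C.dom)).2
        (A'.one (o C.i) C.V)
      refine ⟨(C.toCh.loc L).fam C.V b z, ?_⟩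
      rw [hsc]
      have h1 := (C.toCh.loc L).sc_mul_fam hbar (U := C.V) le_rfl b hz'
      exact h1.trans ((congrArg (fun t => (C.toCh.loc L).fam C.V t z) hb).trans
        ((C.toCh.loc L).fam_one le_rfl hz'))
    · intro a
      obtain ⟨U, s, hU, hzU, rfl⟩ := (C.toCh.loc L).exists_fam hz' a
      have hU' : U ≤ C.V := hU
      have hzU' : z ∈ C.e '' (U : Set X) := hzU
      obtain ⟨W, hW, hxW, k, b, hb⟩ := L.surj C.i C.i U (hU'.trans C.dom) (hU'.trans C.dom) s _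
        (symm_mem C.e C.src hU' hzU')
      have hWV : W ≤ C.V := hW.trans hU'
      have hzW : z ∈ C.e '' (W : Set X) := C.toCh.mem_of_mem hWV hz0 hxW
      have hzW' : z ∈ (C.toCh.loc L).e '' (W : Set X) := hzW
      refine ⟨k, C.toCh.fam W b z, ?_⟩
      rw [hsc, lring_fam L C.toCh hWV b hzW, ← hb]
      have h1 := (C.toCh.loc L).fam_res hW hU s hzW'
      have h2 := (C.toCh.loc L).sc_mul_fam (hbar ^ k) (U := W) hWV
        ((A'.Hom (o C.i) (o C.i)).res hW s) hzW'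
      rw [(C.toCh.loc L).sc_pow]
      refine Eq.trans ?_ h2
      congr 1
      exact h1.symm

/-- the localisation of the sheaf of rings -/
theorem isLocSh (L : IsLoc A A' o φ) (C : Loc n A) :
    IsLocSh (R := C.toCh.sheafR) (R' := (C.toCh.loc L).sheafR) (C.toCh.sc hbar)
      (lring L C.toCh) where
  dom := rfl
  at_h _ hz := C.toCh.sc_at hbar hz
  at_map _ _ ha := (lmor L C.i).emap_at C.src C.dom ha
  loc _ hz := lring_isLocH L C hz

section modules

variable (L : IsLoc A A' o φ) (C : Ch n A) (M : Mod A' D)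

/-- the restricted action -/
theorem restrict_smul {z : Fin n → ℂ} (hz : z ∈ C.e '' ((C.V ⊓ D : Opens X) : Set X))
    (a : C.St z) (m : (M.restrict L).est C z) :
    (show M.est (C.loc L) z from a • m) =
      lring L C z a • (show M.est (C.loc L) z from m) := by
  obtain ⟨U, s, hU, hzU, rfl⟩ := C.exists_fam (C.memV hz) a
  obtain ⟨W, t, hW, hzW, rfl⟩ := (M.restrict L).exists_fam C hz m
  have hZ : U ⊓ W ≤ C.V ⊓ D := inf_le_right.trans hW
  have hzZ : z ∈ C.e '' ((U ⊓ W : Opens X) : Set X) := mem_of_mem (C.srcD D) hZ hz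
    ⟨symm_mem C.e C.src hU hzU, symm_mem C.e (C.srcD D) hW hzW⟩
  have hzZ' : z ∈ (C.loc L).e '' ((U ⊓ W : Opens X) : Set X) := hzZ
  rw [← C.fam_res (inf_le_left : U ⊓ W ≤ U) hU s hzZ,
    ← (M.restrict L).fam_res C (inf_le_right : U ⊓ W ≤ W) hW t hzZ,
    ← (M.restrict L).fam_act C hZ _ _ hzZ, lring_fam L C (hZ.trans inf_le_left) _ hzZ]
  exact M.fam_act (C.loc L) (U := U ⊓ W) hZ _ _ hzZ'

end modules

section lattice

variable {M : Mod A' D} {N : Mod A D}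
    {ι : ∀ (i : A.Obj) (V : Opens X), (N.sh i).sec V →ₗ[K] (M.sh (o i)).sec V}

/-- `ι` as a morphism of sheaves -/
noncomputable def imor (H : IsLattice o φ M N ι) (i : A.Obj) :
    ShMor (N.sh i) (M.sh (o i)) (A.dom i ⊓ D) :=
  ⟨ι i, fun h hW s => H.res i h s (hW.trans inf_le_left) (hW.trans inf_le_right)⟩

variable (L : IsLoc A A' o φ) (H : IsLattice o φ M N ι) (C : Ch n A)

theorem domD (C : Ch n A) (D : Opens X) : C.V ⊓ D ≤ A.dom C.i ⊓ D := inf_le_inf_right D C.dom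

/-- `ι` on stalks -/
noncomputable def iadd (z : Fin n → ℂ) : N.est C z →+ M.est (C.loc L) z :=
  AddMonoidHom.mk' (fun a => (imor H C.i).emap (C.srcD D) (domD C D) z a)
    fun a b => (imor H C.i).emap_add (C.srcD D) (domD C D) z a b

theorem iadd_fam {U : Opens X} (hU : U ≤ C.V ⊓ D) (s : (N.sh C.i).sec U) {z : Fin n → ℂ}
    (hz : z ∈ C.e '' (U : Set X)) :
    iadd L H C z (N.fam C U s z) = M.fam (C.loc L) U (ι C.i U s) z :=
  (imor H C.i).emap_ffam (C.srcD D) (domD C D) hU s hz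

theorem iadd_at {s : ∀ z, N.est C z} {z : Fin n → ℂ} (h : (N.emod C).At s z) :
    (M.emod (C.loc L)).At (fun z => iadd L H C z (s z)) z :=
  (imor H C.i).emap_at (C.srcD D) (domD C D) h

theorem iadd_isLoc {z : Fin n → ℂ} (hz : z ∈ C.e '' ((C.V ⊓ D : Opens X) : Set X)) :
    IsLocHMod (C.sc hbar z) (lring L C z) (iadd L H C z) where
  smul a m := by
    obtain ⟨U, s, hU, hzU, rfl⟩ := C.exists_fam (C.memV hz) a
    obtain ⟨W, t, hW, hzW, rfl⟩ := N.exists_fam C hz m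
    have hZ : U ⊓ W ≤ C.V ⊓ D := inf_le_right.trans hW
    have hZd : U ⊓ W ≤ A.dom C.i := hZ.trans (inf_le_left.trans C.dom)
    have hzZ : z ∈ C.e '' ((U ⊓ W : Opens X) : Set X) := mem_of_mem (C.srcD D) hZ hz
      ⟨symm_mem C.e C.src hU hzU, symm_mem C.e (C.srcD D) hW hzW⟩
    have hzZ' : z ∈ (C.loc L).e '' ((U ⊓ W : Opens X) : Set X) := hzZ
    rw [← C.fam_res (inf_le_left : U ⊓ W ≤ U) hU s hzZ,
      ← N.fam_res C (inf_le_right : U ⊓ W ≤ W) hW t hzZ,
      ← N.fam_act C hZ _ _ hzZ, lring_fam L C (hZ.trans inf_le_left) _ hzZ,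
      iadd_fam L H C hZ _ hzZ, iadd_fam L H C hZ _ hzZ,
      H.act C.i C.i _ hZd hZd (hZ.trans inf_le_right)]
    exact M.fam_act (C.loc L) (U := U ⊓ W) hZ _ _ hzZ'
  inj m hm := by
    obtain ⟨U, s, hU, hzU, rfl, hs⟩ :=
      (imor H C.i).emap_eq_zero (C.srcD D) (domD C D) hz hm
    have h1 := H.inj C.i U (hU.trans (inf_le_left.trans C.dom)) (hU.trans inf_le_right) s hs
    rw [h1]
    exact N.fam_zero C hU hzU
  surj m := by
    have hz' : z ∈ (C.loc L).e '' (((C.loc L).V ⊓ D : Opens X) : Set X) := hz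
    obtain ⟨U, s, hU, hzU, rfl⟩ := M.exists_fam (C.loc L) hz' m
    have hU' : U ≤ C.V ⊓ D := hU
    have hzU' : z ∈ C.e '' (U : Set X) := hzU
    obtain ⟨W, hW, hxW, k, t, ht⟩ := H.surj C.i U (hU'.trans (inf_le_left.trans C.dom))
      (hU'.trans inf_le_right) s _ (symm_mem C.e (C.srcD D) hU' hzU')
    have hWV : W ≤ C.V ⊓ D := hW.trans hU'
    have hzW : z ∈ C.e '' (W : Set X) := mem_of_mem (C.srcD D) hWV hz hxW
    have hzW' : z ∈ (C.loc L).e '' (W : Set X) := hzW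
    refine ⟨k, N.fam C W t z, ?_⟩
    rw [lring_sc L C hbar (C.memV hz), iadd_fam L H C hWV t hzW, ← ht, (C.loc L).sc_pow]
    have h1 := M.fam_res (C.loc L) hW hU s hzW'
    have h2 := M.sc_smul_fam (C.loc L) (hbar ^ k) (U := W) hWV ((M.sh (o C.i)).res hW s) hzW'
    refine Eq.trans ?_ h2
    congr 1
    exact h1.symm

end lattice

/-- MP_b4eb46_ag -/
theorem statementB : StatementB.{u} := by
  intro n d X _ _ _ A hA A' o φ L Y hY hcodim M N ι hM H hext
  refine M.push.coherent_of_charts (n := n) ?_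
  intro i' x hx' _
  obtain ⟨i, rfl⟩ := o.surjective i'
  have hx : x ∈ A.dom i := by rw [← L.dom]; exact hx'
  by_cases hxY : x ∈ Y
  · obtain ⟨e, he, hxe, T, hT, V₀, hxV₀, hV₀e, hiso⟩ := hcodim x hxY
    obtain ⟨C, rfl, rfl, hxV, hCV⟩ := exists_loc hA i x hx e he hxe V₀ hxV₀
    refine ⟨C.toCh.loc L, rfl, hxV, ?_⟩
    have hy₀ : C.e x ∈ C.defo.A.dom := mem_image_of_mem _ hxV
    have hdiff := Mod.diff_off C.toCh (compl Y hY.1)
    have LS := isLocSh L C
    have hNd : (N.emod C.toCh).dom = C.e '' ((C.V ⊓ compl Y hY.1 : Opens X) : Set X) := rfl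
    obtain ⟨U, N', ψ, hUo, hxU, hUd, hN'd, hN'c, hlin, hat, hext', huniq⟩ :=
      local_main_b C.defo d (Mod.off C.toCh (compl Y hY.1)) (C.e x) hy₀
        (analyticNear_off hY C.toCh he) T hT (iso_chart hY.1 C.toCh hxV hxV₀ hiso)
        ((M.restrict L).emod C.toCh) (N.emod C.toCh) (fun z => iadd L H C.toCh z)
        hdiff.symm hdiff.symm
        (fun z hz => by
          filter_upwards [(N.emod C.toCh).isOpen_dom.mem_nhds hz] with y hy
          exact N.coh_of_coherent C.toCh H.coherent hy)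
        (fun z hz m m' => (iadd L H C.toCh z).map_add m m')
        (fun z hz a m => ((iadd_isLoc L H C.toCh hz).smul a m).trans
          (restrict_smul L C.toCh M hz a _).symm)
        (fun z hz m hm => (iadd_isLoc L H C.toCh hz).inj m hm)
        (fun s z hs => iadd_at L H C.toCh hs)
        (fun z hz => by
          have hb := (lring_isLocH L C (C.toCh.memV hz)).bijective (M.est (C.toCh.loc L) z)
          constructor
          · intro m m' hmm
            exact hb.1 (((restrict_smul L C.toCh M hz _ m).symm.trans hmm).trans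
                (restrict_smul L C.toCh M hz _ m'))
          · intro m
            obtain ⟨m₁, hm₁⟩ := hb.2 m
            exact ⟨m₁, (restrict_smul L C.toCh M hz _ _).trans hm₁⟩)
        (fun z hz m => by
          obtain ⟨k, m', hm'⟩ := (iadd_isLoc L H C.toCh hz).surj m
          refine ⟨k, m', ?_⟩
          refine Eq.trans (restrict_smul L C.toCh M hz (C.toCh.sc hbar z ^ k) m) ?_
          rw [map_pow]
          exact hm')
        (fun z hz j hj => by
          have hz' : z ∈ (C.toCh.loc L).e '' (((C.toCh.loc L).V ⊓ compl Y hY.1 : Opens X) : Set X) :=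
            hz
          have h1 := hext j hj (C.toCh.loc L).i ((C.toCh.loc L).mpt z hz')
          have h2 := h1.transport_iso ((C.toCh.loc L).stEquiv z hz')
            (M.stEquiv (C.toCh.loc L) z hz') (M.stEquiv_smul (C.toCh.loc L) z hz')
          exact h2.extTor (lring_isLocH L C (C.toCh.memV hz)) (iadd_isLoc L H C.toCh hz))
    have hsub : U \ Mod.off C.toCh (compl Y hY.1) ⊆
        C.e '' ((C.V ⊓ compl Y hY.1 : Opens X) : Set X) := by
      rw [← hdiff]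
      exact fun z hz => ⟨hUd hz.1, hz.2⟩
    have HE : IsExtLoc (R := C.toCh.sheafR) (R' := (C.toCh.loc L).sheafR) (C.toCh.sc hbar)
        (lring L C.toCh) N' (M.emod (C.toCh.loc L)) ψ U (Mod.off C.toCh (compl Y hY.1)) :=
      { dom := hN'd.ge
        add := fun z hz => (hlin z hz).1
        smul := fun z hz a m => ((hlin z hz).2.1 a m).trans
          (restrict_smul L C.toCh M (hsub hz) a _)
        inj := fun z hz => (hlin z hz).2.2
        at_map := hat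
        ext := fun Z hZ hZo s hs z hz => by
          obtain ⟨Z', hZ', hZ'o, hzZ', k, t, ht, hφ⟩ := hext' Z hZ hZo s hs z hz
          refine ⟨Z', hZ', hZ'o, hzZ', k, t, ht, fun y hy => ?_⟩
          refine ((hφ y hy).trans (restrict_smul L C.toCh M (hsub ⟨hZ (hZ' hy.1), hy.2⟩)
            (C.toCh.sc hbar y ^ k) (s y))).trans ?_
          exact congrArg (fun r : (C.toCh.loc L).St y =>
            r • (show M.est (C.toCh.loc L) y from s y))
            (map_pow (lring L C.toCh y) (C.toCh.sc hbar y) k)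
        uniq := huniq }
    exact HE.cohAt LS ((M.push_isExt (C.toCh.loc L)).mono hUd) hUo hxU (hN'c _ hxU).self_of_nhds
  · obtain ⟨C, hCi, hxV⟩ := exists_ch (n := n) A' (o i) x hx'
    refine ⟨C, hCi, hxV, ?_⟩
    have hxD : x ∈ compl Y hY.1 := hxY
    have hz : C.e x ∈ C.e '' ((C.V ⊓ compl Y hY.1 : Opens X) : Set X) :=
      mem_image_of_mem _ ⟨hxV, hxD⟩
    exact M.push_cohAt_off C hz (M.coh_of_coherent C hM hz)

end Pool.Agent.DQ
end
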