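import Pool.Agent.Lib.MP_4aa2a9_ag.Mg.G015
import Pool.Agent.Lib.MP_4aa2a9_ag.Mg.G006
import Pool.Agent.Lib.MP_4aa2a9_ag.Mg.G003
import Pool.Agent.Lib.MP_4aa2a9_ag.Mg.G020
import Pool.Agent.Lib.MP_4aa2a9_ag.Mg.G014
import Pool.Agent.Lib.MP_4aa2a9_ag.Mg.G012
import Pool.Agent.Lib.MP_4aa2a9_ag.Mg.G002

section

/-! # Four pairs of frames -/

set_option autoImplicit false

open Set Filter Topology Metric Matrix

universe u

namespace Pool.Agent.DQ.X

private theorem H2_swap {T : Type u} [NormedAddCommGroup T] [NormedSpace ℂ T] {n : ℕ}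
    {f : T × ℂ × ℂ → Mt n} {B : Set T} {X Y : Set ℂ} (hf : DifferentiableOn ℂ f (B ×ˢ X ×ˢ Y)) :
    DifferentiableOn ℂ (fun x : T × ℂ × ℂ => f (x.1, x.2.2, x.2.1)) (B ×ˢ Y ×ˢ X) := by
  have h1 : Differentiable ℂ (fun x : T × ℂ × ℂ => ((x.1, x.2.2, x.2.1) : T × ℂ × ℂ)) :=
    differentiable_fst.prodMk (differentiable_snd.snd.prodMk differentiable_snd.fst)
  exact hf.comp h1.differentiableOn fun x hx => ⟨hx.1, hx.2.2, hx.2.1⟩

private theorem H2_congr {T : Type u} {n : ℕ} {g g' : T × ℂ × ℂ → Matrix (Fin n) (Fin n) ℂ}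
    {rw Rw rz Rz : ℝ} {t : T} (h : ∀ x ∈ ring 0 rw Rw ×ˢ ring 0 rz Rz, g (t, x) = g' (t, x))
    (hG : GenFib g rw Rw rz Rz t) : GenFib g' rw Rw rz Rz t := by
  obtain ⟨p, a, b, ha, hb, hab, hsa, hsb⟩ := hG
  exact ⟨p, a, b, ha, hb, fun x hx => by rw [hab x hx, h x hx], hsa, hsb⟩

private theorem H2_An {j j' k k' : ℝ} (h : k ≤ j) (h' : j' ≤ k') : An j j' ⊆ An k k' :=
  fun _ hx => ⟨h.trans_lt hx.1, hx.2.trans_le h'⟩

private theorem H2_An_ball {j j' : ℝ} : An j j' ⊆ ball 0 j' := fun _ hx =>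
  mem_ball_zero_iff.mpr hx.2

/-- TASK H2b. PROOF. Everything is on balls: let `ε` with `ball t₀ ε ⊆ T₁`; on it `g`, `g⁻¹`, the transposes and the compositions with the swap
`q (t, z, w) = (t, w, z)` are differentiable (`mhol_iff'`, `diffOn_inv`, `diffOn_transpose`, `ring_eq`). Let `r1w < r2w` be the thirds of `(aw, bw)`, `r1z < r2z` those of
`(az, bz)`. Apply `half`
(1) to `s = g⁻¹` (`sᵀ = (g⁻¹)ᵀ`: second part of `hgen`), interval `(r1w, r2w)`, radii `r1z < r2z`: `jw1 < jw1'`, `V`, `U` with `U = g⁻¹ V`; put `V₁ = V`, `U₁ = U`;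
(2) to `s = gᵀ` (`sᵀ = g`: first part of `hgen`), interval `(jw1, jw1')`, radii `r1z < r2z`: `jw < jw'`, `V`, `U` with `U = gᵀ V`; put `K₁ = Vᵀ`, `M₁ = Uᵀ`;
(3) to `s = g ∘ q` with the roles of `w` and `z` exchanged (`sᵀ = gᵀ ∘ q = ((g⁻¹)ᵀ)⁻¹ ∘ q`: `GenFib.swap` applied to the second part of `hgen`; use
`Matrix.transpose_nonsing_inv`, `Matrix.nonsing_inv_nonsing_inv` on the annuli, `GenFib` only depends on the values of `g` there), interval `(r1z, r2z)`, radii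
`r1w < r2w`: `jz1 < jz1'`, `V`, `U` with `U = (g ∘ q) V`; put `V₂ = U ∘ q`, `U₂ = V ∘ q`;
(4) to `s = (g⁻¹)ᵀ ∘ q` (`sᵀ = g⁻¹ ∘ q`: `GenFib.swap` applied to the first part), interval `(jz1, jz1')`, radii `r1w < r2w`: `jz < jz'`, `V`, `U` with
`U = ((g⁻¹)ᵀ ∘ q) V`; put `K₂ = (U ∘ q)ᵀ`, `M₂ = (V ∘ q)ᵀ`, so `M₂ = K₂ g`.
Restrict everything to `ball t₀ ε'` (minimum of the four), `An jw jw' ⊆ An jw1 jw1' ⊆ An r1w r2w`, `ball 0 jw' ⊆ ball 0 r2w`, etc. -/
theorem frames4 {T : Type u} [NormedAddCommGroup T] [NormedSpace ℂ T] [FiniteDimensional ℂ T]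
    {n : ℕ} (t₀ : T) (T₁ : Set T) (hT₁ : T₁ ∈ 𝓝 t₀) {rw Rw rz Rz : ℝ} (hw : 0 < rw)
    (hz : 0 < rz) (g : T × ℂ × ℂ → Matrix (Fin n) (Fin n) ℂ)
    (hg : MHol g (T₁ ×ˢ ring 0 rw Rw ×ˢ ring 0 rz Rz))
    (hdet : ∀ x ∈ T₁ ×ˢ ring 0 rw Rw ×ˢ ring 0 rz Rz, IsUnit (g x).det)
    (hgen : ∀ N ∈ 𝓝 t₀, ∃ W : Set T, IsOpen W ∧ W.Nonempty ∧ W ⊆ N ∩ T₁ ∧
      ∀ t ∈ W, GenFib g rw Rw rz Rz t ∧ GenFib (fun x => (g x)⁻¹ᵀ) rw Rw rz Rz t)
    (aw bw az bz : ℝ) (haw : rw ≤ aw) (hab : aw < bw) (hbw : bw ≤ Rw) (haz : rz ≤ az)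
    (habz : az < bz) (hbz : bz ≤ Rz) :
    ∃ (jw jw' jz jz' ε : ℝ) (V₁ V₂ U₁ U₂ K₁ K₂ M₁ M₂ : T × ℂ × ℂ → Mt n),
      aw < jw ∧ jw < jw' ∧ jw' < bw ∧ az < jz ∧ jz < jz' ∧ jz' < bz ∧ 0 < ε ∧ ball t₀ ε ⊆ T₁ ∧
      -- disc × annulus
      DifferentiableOn ℂ V₁ (ball t₀ ε ×ˢ ball 0 jw' ×ˢ An jz jz') ∧
      DifferentiableOn ℂ V₂ (ball t₀ ε ×ˢ ball 0 jw' ×ˢ An jz jz') ∧
      DifferentiableOn ℂ K₁ (ball t₀ ε ×ˢ ball 0 jw' ×ˢ An jz jz') ∧
      DifferentiableOn ℂ K₂ (ball t₀ ε ×ˢ ball 0 jw' ×ˢ An jz jz') ∧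
      (∀ x ∈ ball t₀ ε ×ˢ ball (0 : ℂ) jw' ×ˢ An jz jz', IsUnit (V₂ x).det ∧ IsUnit (K₂ x).det) ∧
      -- annulus × disc
      DifferentiableOn ℂ U₁ (ball t₀ ε ×ˢ An jw jw' ×ˢ ball 0 jz') ∧
      DifferentiableOn ℂ U₂ (ball t₀ ε ×ˢ An jw jw' ×ˢ ball 0 jz') ∧
      DifferentiableOn ℂ M₁ (ball t₀ ε ×ˢ An jw jw' ×ˢ ball 0 jz') ∧
      DifferentiableOn ℂ M₂ (ball t₀ ε ×ˢ An jw jw' ×ˢ ball 0 jz') ∧
      (∀ x ∈ ball t₀ ε ×ˢ An jw jw' ×ˢ ball (0 : ℂ) jz', IsUnit (U₁ x).det ∧ IsUnit (M₁ x).det) ∧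
      ∀ x ∈ ball t₀ ε ×ˢ An jw jw' ×ˢ An jz jz', V₁ x = g x * U₁ x ∧ V₂ x = g x * U₂ x ∧
        M₁ x = K₁ x * g x ∧ M₂ x = K₂ x * g x := by
  obtain ⟨ε, hε, hεT⟩ := Metric.mem_nhds_iff.mp hT₁
  have hop : IsOpen (ball t₀ ε ×ˢ An rw Rw ×ˢ An rz Rz) :=
    isOpen_ball.prod ((isOpen_An rw Rw).prod (isOpen_An rz Rz))
  -- everything on the ball
  have hd1 : ∀ x ∈ ball t₀ ε ×ˢ An rw Rw ×ˢ An rz Rz, IsUnit (g x).det := by
    intro x hx
    apply hdet x
    rw [ring_eq, ring_eq]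
    exact ⟨hεT hx.1, hx.2⟩
  have hg1 : DifferentiableOn ℂ g (ball t₀ ε ×ˢ An rw Rw ×ˢ An rz Rz) := by
    rw [← mhol_iff' hop]
    intro i j x hx
    apply hg i j x
    rw [ring_eq, ring_eq]
    exact ⟨hεT hx.1, hx.2⟩
  have hi1 : DifferentiableOn ℂ (fun x => (g x)⁻¹) (ball t₀ ε ×ˢ An rw Rw ×ˢ An rz Rz) :=
    diffOn_inv hop hg1 hd1
  have hdi : ∀ x ∈ ball t₀ ε ×ˢ An rw Rw ×ˢ An rz Rz, IsUnit ((g x)⁻¹).det := fun x hx =>
    Matrix.isUnit_nonsing_inv_det _ (hd1 x hx)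
  have hgen' : ∀ N ∈ 𝓝 t₀, ∃ W : Set T, IsOpen W ∧ W.Nonempty ∧ W ⊆ N ∧ W ⊆ ball t₀ ε ∧
      ∀ t ∈ W, GenFib g rw Rw rz Rz t ∧ GenFib (fun x => (g x)⁻¹ᵀ) rw Rw rz Rz t := by
    intro N hN
    obtain ⟨W, h1, h2, h3, h4⟩ := hgen (N ∩ ball t₀ ε) (inter_mem hN (ball_mem_nhds t₀ hε))
    exact ⟨W, h1, h2, fun x hx => (h3 hx).1.1, fun x hx => (h3 hx).1.2, h4⟩
  -- the thirds
  obtain ⟨r1w, hr1w⟩ : ∃ r, r = aw + (bw - aw) / 3 := ⟨_, rfl⟩
  obtain ⟨r2w, hr2w⟩ : ∃ r, r = aw + 2 * (bw - aw) / 3 := ⟨_, rfl⟩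
  obtain ⟨r1z, hr1z⟩ : ∃ r, r = az + (bz - az) / 3 := ⟨_, rfl⟩
  obtain ⟨r2z, hr2z⟩ : ∃ r, r = az + 2 * (bz - az) / 3 := ⟨_, rfl⟩
  -- (1)
  obtain ⟨jw1, jw1', ε1, VA, UA, a1, a2, a3, a4, a5, a6, a7, a8, a9⟩ :=
    half hε hw hz (s := fun x => (g x)⁻¹) hi1 hdi
      (fun N hN => by
        obtain ⟨W, h1, h2, h3, _, h5⟩ := hgen' N hN
        exact ⟨W, h1, h2, h3, fun t ht => (h5 t ht).2⟩)
      (aw := r1w) (bw := r2w) (r1 := r1z) (r2 := r2z) (by linarith) (by linarith) (by linarith)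
      (by linarith) (by linarith) (by linarith)
  -- (2)
  obtain ⟨jw, jw', ε2, VB, UB, b1, b2, b3, b4, b5, b6, b7, b8, b9⟩ :=
    half hε hw hz (s := fun x => (g x)ᵀ) (diffOn_transpose hg1)
      (fun x hx => by
        rw [Matrix.det_transpose]
        exact hd1 x hx)
      (fun N hN => by
        obtain ⟨W, h1, h2, h3, _, h5⟩ := hgen' N hN
        refine ⟨W, h1, h2, h3, fun t ht => ?_⟩
        have h6 := (h5 t ht).1
        simpa only [Matrix.transpose_transpose] using h6)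
      (aw := jw1) (bw := jw1') (r1 := r1z) (r2 := r2z) (by linarith) (by linarith) (by linarith)
      (by linarith) (by linarith) (by linarith)
  -- (3)
  obtain ⟨jz1, jz1', ε3, VC, UC, c1, c2, c3, c4, c5, c6, c7, c8, c9⟩ :=
    half hε hz hw (s := fun x => g (x.1, x.2.2, x.2.1)) (H2_swap hg1)
      (fun x hx => hd1 (x.1, x.2.2, x.2.1) ⟨hx.1, hx.2.2, hx.2.1⟩)
      (fun N hN => by
        obtain ⟨W, h1, h2, h3, h4, h5⟩ := hgen' N hN
        refine ⟨W, h1, h2, h3, fun t ht => ?_⟩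
        have h6 := GenFib.swap (g := fun x => (g x)⁻¹ᵀ) (fun x hx => by
          rw [Matrix.det_transpose]
          refine hdi (t, x) ⟨h4 ht, ?_⟩
          rw [← ring_eq, ← ring_eq]
          exact hx) (h5 t ht).2
        refine H2_congr (fun x hx => ?_) h6
        have h7 : IsUnit (g (t, x.2, x.1)).det := by
          refine hd1 (t, x.2, x.1) ⟨h4 ht, ?_⟩
          rw [← ring_eq, ← ring_eq]
          exact ⟨hx.2, hx.1⟩
        change ((g (t, x.2, x.1))⁻¹ᵀ)⁻¹ = (g (t, x.2, x.1))ᵀ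
        rw [← Matrix.transpose_nonsing_inv, Matrix.nonsing_inv_nonsing_inv _ h7])
      (aw := r1z) (bw := r2z) (r1 := r1w) (r2 := r2w) (by linarith) (by linarith) (by linarith)
      (by linarith) (by linarith) (by linarith)
  -- (4)
  obtain ⟨jz, jz', ε4, VD, UD, d1, d2, d3, d4, d5, d6, d7, d8, d9⟩ :=
    half hε hz hw (s := fun x => (g (x.1, x.2.2, x.2.1))⁻¹ᵀ)
      (diffOn_transpose (H2_swap hi1))
      (fun x hx => by
        rw [Matrix.det_transpose]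
        exact hdi (x.1, x.2.2, x.2.1) ⟨hx.1, hx.2.2, hx.2.1⟩)
      (fun N hN => by
        obtain ⟨W, h1, h2, h3, h4, h5⟩ := hgen' N hN
        refine ⟨W, h1, h2, h3, fun t ht => ?_⟩
        have h6 := GenFib.swap (g := g) (fun x hx => by
          refine hd1 (t, x) ⟨h4 ht, ?_⟩
          rw [← ring_eq, ← ring_eq]
          exact hx) (h5 t ht).1
        simpa only [Matrix.transpose_transpose] using h6)
      (aw := jz1) (bw := jz1') (r1 := r1w) (r2 := r2w) (by linarith) (by linarith) (by linarith)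
      (by linarith) (by linarith) (by linarith)
  -- the radius
  obtain ⟨ε', he0, he1, he2, he3, he4⟩ : ∃ ε', 0 < ε' ∧ ε' ≤ ε1 ∧ ε' ≤ ε2 ∧ ε' ≤ ε3 ∧ ε' ≤ ε4 :=
    ⟨min (min ε1 ε2) (min ε3 ε4), lt_min (lt_min a4 b4) (lt_min c4 d4),
      (min_le_left _ _).trans (min_le_left _ _), (min_le_left _ _).trans (min_le_right _ _),
      (min_le_right _ _).trans (min_le_left _ _), (min_le_right _ _).trans (min_le_right _ _)⟩
  have hb1 := ball_subset_ball (x := t₀) he1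
  have hb2 := ball_subset_ball (x := t₀) he2
  have hb3 := ball_subset_ball (x := t₀) he3
  have hb4 := ball_subset_ball (x := t₀) he4
  have hbε : ball t₀ ε' ⊆ ball t₀ ε := ball_subset_ball (he1.trans a5)
  -- inclusions of annuli and discs
  have iw1 : An jw jw' ⊆ An jw1 jw1' := H2_An b1.le b3.le
  have iw2 : An jw jw' ⊆ An r1w r2w := H2_An (by linarith) (by linarith)
  have iw3 : An jw jw' ⊆ An rw Rw := H2_An (by linarith) (by linarith)
  have iz1 : An jz jz' ⊆ An jz1 jz1' := H2_An d1.le d3.le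
  have iz2 : An jz jz' ⊆ An r1z r2z := H2_An (by linarith) (by linarith)
  have iz3 : An jz jz' ⊆ An rz Rz := H2_An (by linarith) (by linarith)
  have kw1 : ball (0 : ℂ) jw' ⊆ ball 0 jw1' := ball_subset_ball b3.le
  have kw2 : ball (0 : ℂ) jw' ⊆ ball 0 r2w := ball_subset_ball (by linarith)
  have kz1 : ball (0 : ℂ) jz' ⊆ ball 0 jz1' := ball_subset_ball d3.le
  have kz2 : ball (0 : ℂ) jz' ⊆ ball 0 r2z := ball_subset_ball (by linarith)
  have uw : An jw jw' ⊆ ball 0 jw' := H2_An_ball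
  have uz : An jz jz' ⊆ ball 0 jz' := H2_An_ball
  refine ⟨jw, jw', jz, jz', ε', VA, fun x => UC (x.1, x.2.2, x.2.1), UA,
    fun x => VC (x.1, x.2.2, x.2.1), fun x => (VB x)ᵀ, fun x => (UD (x.1, x.2.2, x.2.1))ᵀ,
    fun x => (UB x)ᵀ, fun x => (VD (x.1, x.2.2, x.2.1))ᵀ, by linarith, b2, by linarith,
    by linarith, d2, by linarith, he0, hbε.trans hεT, ?_, ?_, ?_, ?_, ?_, ?_, ?_, ?_, ?_, ?_, ?_⟩
  · exact a6.mono (prod_mono hb1 (prod_mono kw1 iz2))
  · exact (H2_swap c7).mono (prod_mono hb3 (prod_mono kw2 iz1))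
  · exact (diffOn_transpose b6).mono (prod_mono hb2 (prod_mono Subset.rfl iz2))
  · exact (diffOn_transpose (H2_swap d7)).mono (prod_mono hb4 (prod_mono kw2 Subset.rfl))
  · intro x hx
    refine ⟨c8 (x.1, x.2.2, x.2.1) ⟨hb3 hx.1, iz1 hx.2.2, kw2 hx.2.1⟩, ?_⟩
    rw [Matrix.det_transpose]
    exact d8 (x.1, x.2.2, x.2.1) ⟨hb4 hx.1, hx.2.2, kw2 hx.2.1⟩
  · exact a7.mono (prod_mono hb1 (prod_mono iw1 kz2))
  · exact (H2_swap c6).mono (prod_mono hb3 (prod_mono iw2 kz1))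
  · exact (diffOn_transpose b7).mono (prod_mono hb2 (prod_mono Subset.rfl kz2))
  · exact (diffOn_transpose (H2_swap d6)).mono (prod_mono hb4 (prod_mono iw2 Subset.rfl))
  · intro x hx
    refine ⟨a8 x ⟨hb1 hx.1, iw1 hx.2.1, kz2 hx.2.2⟩, ?_⟩
    rw [Matrix.det_transpose]
    exact b8 x ⟨hb2 hx.1, hx.2.1, kz2 hx.2.2⟩
  · intro x hx
    have hu : IsUnit (g x).det := hd1 x ⟨hbε hx.1, iw3 hx.2.1, iz3 hx.2.2⟩
    refine ⟨?_, ?_, ?_, ?_⟩
    · rw [a9 x ⟨hb1 hx.1, iw1 hx.2.1, iz2 hx.2.2⟩, ← Matrix.mul_assoc,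
        Matrix.mul_nonsing_inv _ hu, Matrix.one_mul]
    · exact c9 (x.1, x.2.2, x.2.1) ⟨hb3 hx.1, iz1 hx.2.2, iw2 hx.2.1⟩
    · change (UB x)ᵀ = (VB x)ᵀ * g x
      rw [b9 x ⟨hb2 hx.1, hx.2.1, iz2 hx.2.2⟩, Matrix.transpose_mul, Matrix.transpose_transpose]
    · have h1 : UD (x.1, x.2.2, x.2.1) = (g x)⁻¹ᵀ * VD (x.1, x.2.2, x.2.1) :=
        d9 (x.1, x.2.2, x.2.1) ⟨hb4 hx.1, hx.2.2, iw2 hx.2.1⟩
      change (VD (x.1, x.2.2, x.2.1))ᵀ = (UD (x.1, x.2.2, x.2.1))ᵀ * g x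
      rw [h1, Matrix.transpose_mul, Matrix.transpose_transpose, Matrix.mul_assoc,
        Matrix.nonsing_inv_mul _ hu, Matrix.mul_one]

end Pool.Agent.DQ.X
end

section

/-! # The extension theorem -/

set_option autoImplicit false

open Set Filter Topology Metric Matrix

universe u

namespace Pool.Agent.DQ.X

variable {T : Type u} [NormedAddCommGroup T] [NormedSpace ℂ T] [FiniteDimensional ℂ T] {n : ℕ}

/-- the identification of two copies of `Fin n` with `Fin (2 * n)` -/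
private def H4_e (n : ℕ) : Fin n ⊕ Fin n ≃ Fin (2 * n) :=
  finSumFinEquiv.trans (finCongr (two_mul n).symm)

/-- two square matrices side by side -/
private def H4_c {n : ℕ} (A B : Matrix (Fin n) (Fin n) ℂ) : Matrix (Fin n) (Fin (2 * n)) ℂ :=
  Matrix.of fun i j => Sum.elim (fun j' => A i j') (fun j' => B i j') ((H4_e n).symm j)

/-- two square matrices, one below the other -/
private def H4_r {n : ℕ} (A B : Matrix (Fin n) (Fin n) ℂ) : Matrix (Fin (2 * n)) (Fin n) ℂ :=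
  Matrix.of fun i j => Sum.elim (fun i' => A i' j) (fun i' => B i' j) ((H4_e n).symm i)

private theorem H4_mul_c {n : ℕ} (g A B : Matrix (Fin n) (Fin n) ℂ) :
    g * H4_c A B = H4_c (g * A) (g * B) := by
  ext i j
  simp only [H4_c, Matrix.mul_apply, Matrix.of_apply]
  rcases (H4_e n).symm j with j' | j'
  · simp only [Sum.elim_inl]
  · simp only [Sum.elim_inr]

private theorem H4_r_mul {n : ℕ} (g A B : Matrix (Fin n) (Fin n) ℂ) :
    H4_r A B * g = H4_r (A * g) (B * g) := by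
  ext i j
  simp only [H4_r, Matrix.mul_apply, Matrix.of_apply]
  rcases (H4_e n).symm i with j' | j'
  · simp only [Sum.elim_inl]
  · simp only [Sum.elim_inr]

private theorem H4_c_mulVec {n : ℕ} (A B : Matrix (Fin n) (Fin n) ℂ) (v : Fin n ⊕ Fin n → ℂ) :
    (H4_c A B).mulVec (fun j => v ((H4_e n).symm j)) =
      A.mulVec (fun j => v (Sum.inl j)) + B.mulVec (fun j => v (Sum.inr j)) := by
  funext i
  have h1 : (H4_c A B).mulVec (fun j => v ((H4_e n).symm j)) i =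
      ∑ j : Fin (2 * n), Sum.elim (fun j' => A i j') (fun j' => B i j') ((H4_e n).symm j) *
        v ((H4_e n).symm j) := rfl
  rw [h1, Equiv.sum_comp (H4_e n).symm (fun k : Fin n ⊕ Fin n =>
    Sum.elim (fun j' => A i j') (fun j' => B i j') k * v k), Fintype.sum_sum_type]
  rfl

private theorem H4_surj_left {n : ℕ} {A B : Matrix (Fin n) (Fin n) ℂ} (hA : IsUnit A.det) :
    Function.Surjective (H4_c A B).mulVec := by
  intro y
  refine ⟨fun j => Sum.elim (A⁻¹.mulVec y) (fun _ => 0) ((H4_e n).symm j), ?_⟩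
  rw [H4_c_mulVec]
  simp only [Sum.elim_inl, Sum.elim_inr]
  have h1 : B.mulVec (fun _ => (0 : ℂ)) = 0 := Matrix.mulVec_zero B
  rw [h1, add_zero]
  change A.mulVec (A⁻¹.mulVec y) = y
  rw [Matrix.mulVec_mulVec, Matrix.mul_nonsing_inv _ hA, Matrix.one_mulVec]

private theorem H4_surj_right {n : ℕ} {A B : Matrix (Fin n) (Fin n) ℂ} (hB : IsUnit B.det) :
    Function.Surjective (H4_c A B).mulVec := by
  intro y
  refine ⟨fun j => Sum.elim (fun _ => 0) (B⁻¹.mulVec y) ((H4_e n).symm j), ?_⟩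
  rw [H4_c_mulVec]
  simp only [Sum.elim_inl, Sum.elim_inr]
  have h1 : A.mulVec (fun _ => (0 : ℂ)) = 0 := Matrix.mulVec_zero A
  rw [h1, zero_add]
  change B.mulVec (B⁻¹.mulVec y) = y
  rw [Matrix.mulVec_mulVec, Matrix.mul_nonsing_inv _ hB, Matrix.one_mulVec]

private theorem H4_inj_left {n : ℕ} {A B : Matrix (Fin n) (Fin n) ℂ} (hA : IsUnit A.det) :
    Function.Injective (H4_r A B).mulVec := by
  intro v v' h
  have h1 : A.mulVec v = A.mulVec v' := by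
    funext i
    have h2 := congrFun h (H4_e n (Sum.inl i))
    have h3 : ∀ u : Fin n → ℂ, (H4_r A B).mulVec u (H4_e n (Sum.inl i)) = A.mulVec u i := by
      intro u
      change ∑ j, Sum.elim (fun i' => A i' j) (fun i' => B i' j)
        ((H4_e n).symm (H4_e n (Sum.inl i))) * u j = ∑ j, A i j * u j
      rw [Equiv.symm_apply_apply]
      rfl
    rw [h3, h3] at h2
    exact h2
  have h2 := congrArg (A⁻¹.mulVec) h1
  rwa [Matrix.mulVec_mulVec, Matrix.mulVec_mulVec, Matrix.nonsing_inv_mul _ hA,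
    Matrix.one_mulVec, Matrix.one_mulVec] at h2

private theorem H4_inj_right {n : ℕ} {A B : Matrix (Fin n) (Fin n) ℂ} (hB : IsUnit B.det) :
    Function.Injective (H4_r A B).mulVec := by
  intro v v' h
  have h1 : B.mulVec v = B.mulVec v' := by
    funext i
    have h2 := congrFun h (H4_e n (Sum.inr i))
    have h3 : ∀ u : Fin n → ℂ, (H4_r A B).mulVec u (H4_e n (Sum.inr i)) = B.mulVec u i := by
      intro u
      change ∑ j, Sum.elim (fun i' => A i' j) (fun i' => B i' j)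
        ((H4_e n).symm (H4_e n (Sum.inr i))) * u j = ∑ j, B i j * u j
      rw [Equiv.symm_apply_apply]
      rfl
    rw [h3, h3] at h2
    exact h2
  have h2 := congrArg (B⁻¹.mulVec) h1
  rwa [Matrix.mulVec_mulVec, Matrix.mulVec_mulVec, Matrix.nonsing_inv_mul _ hB,
    Matrix.one_mulVec, Matrix.one_mulVec] at h2

private theorem H4_diff_c {E : Type*} [NormedAddCommGroup E] [NormedSpace ℂ E] {n : ℕ}
    {A B : E → Mt n} {S : Set E} (hA : DifferentiableOn ℂ A S) (hB : DifferentiableOn ℂ B S)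
    (i : Fin n) (j : Fin (2 * n)) : DifferentiableOn ℂ (fun x => H4_c (A x) (B x) i j) S := by
  rw [diffOn_iff] at hA hB
  simp only [H4_c, Matrix.of_apply]
  rcases (H4_e n).symm j with j' | j'
  · simp only [Sum.elim_inl]
    exact hA i j'
  · simp only [Sum.elim_inr]
    exact hB i j'

private theorem H4_diff_r {E : Type*} [NormedAddCommGroup E] [NormedSpace ℂ E] {n : ℕ}
    {A B : E → Mt n} {S : Set E} (hA : DifferentiableOn ℂ A S) (hB : DifferentiableOn ℂ B S)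
    (i : Fin (2 * n)) (j : Fin n) : DifferentiableOn ℂ (fun x => H4_r (A x) (B x) i j) S := by
  rw [diffOn_iff] at hA hB
  simp only [H4_r, Matrix.of_apply]
  rcases (H4_e n).symm i with j' | j'
  · simp only [Sum.elim_inl]
    exact hA j' j
  · simp only [Sum.elim_inr]
    exact hB j' j

private theorem H4_diff_mul {E : Type*} [NormedAddCommGroup E] [NormedSpace ℂ E] {n : ℕ}
    {L : E → Matrix (Fin (2 * n)) (Fin n) ℂ} {V : E → Matrix (Fin n) (Fin (2 * n)) ℂ} {S : Set E}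
    (hL : ∀ i j, DifferentiableOn ℂ (fun x => L x i j) S)
    (hV : ∀ i j, DifferentiableOn ℂ (fun x => V x i j) S) (i j : Fin (2 * n)) :
    DifferentiableOn ℂ (fun x => (L x * V x) i j) S := by
  simp only [Matrix.mul_apply]
  exact DifferentiableOn.fun_sum fun k _ => (hL i k).mul (hV k j)

/-- TASK H4. PROOF. Take `frames4`, `T₀ = ball t₀ ε`, and (with the equivalence `e : Fin n ⊕ Fin n ≃ Fin (2 * n)`, e.g. `finSumFinEquiv` and a cast)
`U x = (Matrix.fromCols (V₁ x) (V₂ x)).submatrix id e.symm`, `V x = (Matrix.fromCols (U₁ x) (U₂ x)).submatrix id e.symm`,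
`L₁ x = (Matrix.fromRows (K₁ x) (K₂ x)).submatrix e.symm id`, `L₂ x = (Matrix.fromRows (M₁ x) (M₂ x)).submatrix e.symm id`. `U = g V`, `L₂ = L₁ g` on the product of the
annuli (`Matrix.mul_fromCols`, `Matrix.fromRows_mul`). `U x` is surjective as `V₂ x` is (given `y`, take the vector which is `0` on the first block and
`(V₂ x)⁻¹ y` on the second), `V x` since `U₁ x` is; `L₁ x` is injective as `K₂ x` is, `L₂ x` as `M₁ x`. `MHol`: `mhol_iff`, `ring_eq`,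
`ring_eq_ball` (`Sum` cases on `e.symm j`). `P`: for every entry `(i, j)` apply `ext_two` (`0 < jw` as `0 < rw ≤ aw < jw`, same for `z`) with
`A x = (L₂ x * V x) i j` and `B x = (L₁ x * U x) i j`, which agree on the product of the annuli: `L₂ V = L₁ g V = L₁ U`. -/
theorem extension (t₀ : T) (T₁ : Set T) (hT₁ : T₁ ∈ 𝓝 t₀) {rw Rw rz Rz : ℝ} (hw : 0 < rw)
    (hw' : rw < Rw) (hz : 0 < rz) (hz' : rz < Rz) (g : T × ℂ × ℂ → Matrix (Fin n) (Fin n) ℂ)
    (hg : MHol g (T₁ ×ˢ ring 0 rw Rw ×ˢ ring 0 rz Rz))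
    (hdet : ∀ x ∈ T₁ ×ˢ ring 0 rw Rw ×ˢ ring 0 rz Rz, IsUnit (g x).det)
    (hgen : ∀ N ∈ 𝓝 t₀, ∃ W : Set T, IsOpen W ∧ W.Nonempty ∧ W ⊆ N ∩ T₁ ∧
      ∀ t ∈ W, GenFib g rw Rw rz Rz t ∧ GenFib (fun x => (g x)⁻¹ᵀ) rw Rw rz Rz t)
    (aw bw az bz : ℝ) (haw : rw ≤ aw) (hab : aw < bw) (hbw : bw ≤ Rw) (haz : rz ≤ az)
    (habz : az < bz) (hbz : bz ≤ Rz) :
    ∃ (jw jw' jz jz' : ℝ) (T₀ : Set T) (U : T × ℂ × ℂ → Matrix (Fin n) (Fin (2 * n)) ℂ)
      (L₁ : T × ℂ × ℂ → Matrix (Fin (2 * n)) (Fin n) ℂ)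
      (V : T × ℂ × ℂ → Matrix (Fin n) (Fin (2 * n)) ℂ)
      (L₂ : T × ℂ × ℂ → Matrix (Fin (2 * n)) (Fin n) ℂ)
      (P : T × ℂ × ℂ → Matrix (Fin (2 * n)) (Fin (2 * n)) ℂ),
      aw < jw ∧ jw < jw' ∧ jw' < bw ∧ az < jz ∧ jz < jz' ∧ jz' < bz ∧ IsOpen T₀ ∧ t₀ ∈ T₀ ∧
      T₀ ⊆ T₁ ∧
      -- frames over annulus × disc
      MHol V (T₀ ×ˢ ring 0 jw jw' ×ˢ ring 0 (-1) jz') ∧
      MHol L₂ (T₀ ×ˢ ring 0 jw jw' ×ˢ ring 0 (-1) jz') ∧
      (∀ x ∈ T₀ ×ˢ ring 0 jw jw' ×ˢ ring 0 (-1) jz',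
        Function.Surjective (V x).mulVec ∧ Function.Injective (L₂ x).mulVec) ∧
      -- frames over disc × annulus
      MHol U (T₀ ×ˢ ring 0 (-1) jw' ×ˢ ring 0 jz jz') ∧
      MHol L₁ (T₀ ×ˢ ring 0 (-1) jw' ×ˢ ring 0 jz jz') ∧
      (∀ x ∈ T₀ ×ˢ ring 0 (-1) jw' ×ˢ ring 0 jz jz',
        Function.Surjective (U x).mulVec ∧ Function.Injective (L₁ x).mulVec) ∧
      (∀ x ∈ T₀ ×ˢ ring 0 jw jw' ×ˢ ring 0 jz jz', U x = g x * V x ∧ L₂ x = L₁ x * g x) ∧
      MHol P (T₀ ×ˢ ring 0 (-1) jw' ×ˢ ring 0 (-1) jz') ∧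
      (∀ x ∈ T₀ ×ˢ ring 0 (-1) jw' ×ˢ ring 0 jz jz', P x = L₁ x * U x) ∧
      (∀ x ∈ T₀ ×ˢ ring 0 jw jw' ×ˢ ring 0 (-1) jz', P x = L₂ x * V x) := by
  obtain ⟨jw, jw', jz, jz', ε, V₁, V₂, U₁, U₂, K₁, K₂, M₁, M₂, h1, h2, h3, h4, h5, h6, hε, hsub,
    hV₁, hV₂, hK₁, hK₂, hVK, hU₁, hU₂, hM₁, hM₂, hUM, hrel⟩ :=
    frames4 t₀ T₁ hT₁ hw hz g hg hdet hgen aw bw az bz haw hab hbw haz habz hbz
  have hjw : 0 < jw := by linarith
  have hjz : 0 < jz := by linarith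
  have hoAD : IsOpen (ball t₀ ε ×ˢ An jw jw' ×ˢ ball (0 : ℂ) jz') :=
    isOpen_ball.prod ((isOpen_An _ _).prod isOpen_ball)
  have hoDA : IsOpen (ball t₀ ε ×ˢ ball (0 : ℂ) jw' ×ˢ An jz jz') :=
    isOpen_ball.prod (isOpen_ball.prod (isOpen_An _ _))
  have hoDD : IsOpen (ball t₀ ε ×ˢ ball (0 : ℂ) jw' ×ˢ ball (0 : ℂ) jz') :=
    isOpen_ball.prod (isOpen_ball.prod isOpen_ball)
  have hU : ∀ i j, DifferentiableOn ℂ (fun x => H4_c (V₁ x) (V₂ x) i j)
      (ball t₀ ε ×ˢ ball 0 jw' ×ˢ An jz jz') := H4_diff_c hV₁ hV₂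
  have hV : ∀ i j, DifferentiableOn ℂ (fun x => H4_c (U₁ x) (U₂ x) i j)
      (ball t₀ ε ×ˢ An jw jw' ×ˢ ball 0 jz') := H4_diff_c hU₁ hU₂
  have hL₁ : ∀ i j, DifferentiableOn ℂ (fun x => H4_r (K₁ x) (K₂ x) i j)
      (ball t₀ ε ×ˢ ball 0 jw' ×ˢ An jz jz') := H4_diff_r hK₁ hK₂
  have hL₂ : ∀ i j, DifferentiableOn ℂ (fun x => H4_r (M₁ x) (M₂ x) i j)
      (ball t₀ ε ×ˢ An jw jw' ×ˢ ball 0 jz') := H4_diff_r hM₁ hM₂
  have hUV : ∀ x ∈ ball t₀ ε ×ˢ An jw jw' ×ˢ An jz jz',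
      H4_c (V₁ x) (V₂ x) = g x * H4_c (U₁ x) (U₂ x) := by
    intro x hx
    rw [H4_mul_c, (hrel x hx).1, (hrel x hx).2.1]
  have hLL : ∀ x ∈ ball t₀ ε ×ˢ An jw jw' ×ˢ An jz jz',
      H4_r (M₁ x) (M₂ x) = H4_r (K₁ x) (K₂ x) * g x := by
    intro x hx
    rw [H4_r_mul, (hrel x hx).2.2.1, (hrel x hx).2.2.2]
  have hP : ∀ i j : Fin (2 * n), ∃ P : T × ℂ × ℂ → ℂ,
      DifferentiableOn ℂ P (ball t₀ ε ×ˢ ball 0 jw' ×ˢ ball 0 jz') ∧
      (∀ x ∈ ball t₀ ε ×ˢ An jw jw' ×ˢ ball (0 : ℂ) jz',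
        P x = (H4_r (M₁ x) (M₂ x) * H4_c (U₁ x) (U₂ x)) i j) ∧
      ∀ x ∈ ball t₀ ε ×ˢ ball (0 : ℂ) jw' ×ˢ An jz jz',
        P x = (H4_r (K₁ x) (K₂ x) * H4_c (V₁ x) (V₂ x)) i j := by
    intro i j
    refine ext_two isOpen_ball hjw h2 hjz h5 (H4_diff_mul hL₂ hV i j) (H4_diff_mul hL₁ hU i j) ?_
    intro x hx
    rw [hUV x hx, hLL x hx, Matrix.mul_assoc]
  choose P hPd hPA hPB using hP
  refine ⟨jw, jw', jz, jz', ball t₀ ε, fun x => H4_c (V₁ x) (V₂ x), fun x => H4_r (K₁ x) (K₂ x),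
    fun x => H4_c (U₁ x) (U₂ x), fun x => H4_r (M₁ x) (M₂ x), fun x => Matrix.of fun i j => P i j x,
    h1, h2, h3, h4, h5, h6, isOpen_ball, mem_ball_self hε, hsub, ?_⟩
  simp only [ring_eq_ball]
  simp only [ring_eq]
  refine ⟨(mhol_iff hoAD).mpr hV, (mhol_iff hoAD).mpr hL₂, ?_, (mhol_iff hoDA).mpr hU,
    (mhol_iff hoDA).mpr hL₁, ?_, ?_, (mhol_iff hoDD).mpr fun i j => hPd i j, ?_, ?_⟩
  · intro x hx
    exact ⟨H4_surj_left (hUM x hx).1, H4_inj_left (hUM x hx).2⟩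
  · intro x hx
    exact ⟨H4_surj_right (hVK x hx).1, H4_inj_right (hVK x hx).2⟩
  · intro x hx
    exact ⟨hUV x hx, hLL x hx⟩
  · intro x hx
    ext i j
    exact hPB i j x hx
  · intro x hx
    ext i j
    exact hPA i j x hx

end Pool.Agent.DQ.X
end

section

/-! # DQ: the theorems of module X -/

set_option autoImplicit false

open Set Filter Topology Matrix

universe u v w

namespace Pool.Agent.DQ

variable {T : Type u} [NormedAddCommGroup T] [NormedSpace ℂ T] [FiniteDimensional ℂ T] {n : ℕ}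

theorem extension (t₀ : T) (T₁ : Set T) (hT₁ : T₁ ∈ 𝓝 t₀) {rw Rw rz Rz : ℝ} (hw : 0 < rw)
    (hw' : rw < Rw) (hz : 0 < rz) (hz' : rz < Rz) (g : T × ℂ × ℂ → Matrix (Fin n) (Fin n) ℂ)
    (hg : MHol g (T₁ ×ˢ ring 0 rw Rw ×ˢ ring 0 rz Rz))
    (hdet : ∀ x ∈ T₁ ×ˢ ring 0 rw Rw ×ˢ ring 0 rz Rz, IsUnit (g x).det)
    (hgen : ∀ N ∈ 𝓝 t₀, ∃ W : Set T, IsOpen W ∧ W.Nonempty ∧ W ⊆ N ∩ T₁ ∧
      ∀ t ∈ W, GenFib g rw Rw rz Rz t ∧ GenFib (fun x => (g x)⁻¹ᵀ) rw Rw rz Rz t)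
    (aw bw az bz : ℝ) (haw : rw ≤ aw) (hab : aw < bw) (hbw : bw ≤ Rw) (haz : rz ≤ az)
    (habz : az < bz) (hbz : bz ≤ Rz) :
    ∃ (jw jw' jz jz' : ℝ) (T₀ : Set T) (U : T × ℂ × ℂ → Matrix (Fin n) (Fin (2 * n)) ℂ)
      (L₁ : T × ℂ × ℂ → Matrix (Fin (2 * n)) (Fin n) ℂ)
      (V : T × ℂ × ℂ → Matrix (Fin n) (Fin (2 * n)) ℂ)
      (L₂ : T × ℂ × ℂ → Matrix (Fin (2 * n)) (Fin n) ℂ)
      (P : T × ℂ × ℂ → Matrix (Fin (2 * n)) (Fin (2 * n)) ℂ),
      aw < jw ∧ jw < jw' ∧ jw' < bw ∧ az < jz ∧ jz < jz' ∧ jz' < bz ∧ IsOpen T₀ ∧ t₀ ∈ T₀ ∧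
      T₀ ⊆ T₁ ∧
      -- frames over annulus × disc
      MHol V (T₀ ×ˢ ring 0 jw jw' ×ˢ ring 0 (-1) jz') ∧
      MHol L₂ (T₀ ×ˢ ring 0 jw jw' ×ˢ ring 0 (-1) jz') ∧
      (∀ x ∈ T₀ ×ˢ ring 0 jw jw' ×ˢ ring 0 (-1) jz',
        Function.Surjective (V x).mulVec ∧ Function.Injective (L₂ x).mulVec) ∧
      -- frames over disc × annulus
      MHol U (T₀ ×ˢ ring 0 (-1) jw' ×ˢ ring 0 jz jz') ∧
      MHol L₁ (T₀ ×ˢ ring 0 (-1) jw' ×ˢ ring 0 jz jz') ∧
      (∀ x ∈ T₀ ×ˢ ring 0 (-1) jw' ×ˢ ring 0 jz jz',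
        Function.Surjective (U x).mulVec ∧ Function.Injective (L₁ x).mulVec) ∧
      (∀ x ∈ T₀ ×ˢ ring 0 jw jw' ×ˢ ring 0 jz jz', U x = g x * V x ∧ L₂ x = L₁ x * g x) ∧
      MHol P (T₀ ×ˢ ring 0 (-1) jw' ×ˢ ring 0 (-1) jz') ∧
      (∀ x ∈ T₀ ×ˢ ring 0 (-1) jw' ×ˢ ring 0 jz jz', P x = L₁ x * U x) ∧
      (∀ x ∈ T₀ ×ˢ ring 0 jw jw' ×ˢ ring 0 (-1) jz', P x = L₂ x * V x) :=
  X.extension t₀ T₁ hT₁ hw hw' hz hz' g hg hdet hgen aw bw az bz haw hab hbw haz habz hbz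

end Pool.Agent.DQ
end

section

/-! Module M12: existence of frames near products of discs and one annulus. -/

set_option autoImplicit false
set_option linter.unusedSectionVars false

open Set Filter Topology Matrix

universe u v w

namespace Pool.Agent.DQ.M12

/-- (algebra) Proof. Let `M` have the basis `f` (`n` elements). Choose `c_j : Fin p → R` with `f j = ∑ i, c_j i • u i`
(`mem_span_fam`). For `t : M` with coordinates `a` let `s t := ∑ j, a j • c_j`, so `∑ i, s t i • u i = t` and `s 0 = 0`. Let `S` be the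
matrix with columns `s (u i)`. For every `i` the vector `Pi.single i 1 - S_{·i}` is a relation, so it is `ρ *ᵥ Y_{·i}`: `1 - S = ρ * Y`. The columns
`ρ_{·l}` are relations, so `(S * ρ)_{·l} = ∑ i, ρ i l • s (u i) = s (∑ i, ρ i l • u i) = s 0 = 0` (coordinates are linear: uniqueness).
Hence `ρ * Y * ρ = (1 - S) * ρ = ρ`. -/
theorem exists_split {R : Type v} [CommRing R] {M : Type w} [AddCommGroup M] [Module R M]
    {p q n : ℕ} (u : Fin p → M) (hu : Submodule.span R (range u) = ⊤) (f : Fin n → M)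
    (hf : ∀ t : M, ∃! a : Fin n → R, t = ∑ i, a i • f i) (ρ : Matrix (Fin p) (Fin q) R)
    (hρ : ∀ a : Fin p → R, ∑ i, a i • u i = 0 ↔ ∃ d, ρ *ᵥ d = a) :
    ∃ Y : Matrix (Fin q) (Fin p) R, ρ * Y * ρ = ρ := by
  classical
  choose co hco using fun t => (hf t).exists
  have huniq : ∀ a b : Fin n → R, ∑ i, a i • f i = ∑ i, b i • f i → a = b := fun a b hab =>
    (hf (∑ i, a i • f i)).unique rfl hab
  choose c hc using fun j => mem_span_fam.mp (show f j ∈ Submodule.span R (range u) by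
    rw [hu]; exact Submodule.mem_top)
  let s : M → Fin p → R := fun t i => ∑ j, co t j * c j i
  have hs : ∀ t, ∑ i, s t i • u i = t := by
    intro t
    simp only [s, Finset.sum_smul]
    rw [Finset.sum_comm]
    conv_rhs => rw [hco t]
    refine Finset.sum_congr rfl fun j _ => ?_
    rw [hc j, Finset.smul_sum]
    exact Finset.sum_congr rfl fun i _ => mul_smul _ _ _
  let S : Matrix (Fin p) (Fin p) R := Matrix.of fun i l => s (u l) i
  have h1 : ∀ l : Fin p, ∃ d, ρ *ᵥ d = fun i => (1 - S) i l := by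
    intro l
    refine (hρ _).mp ?_
    simp only [Matrix.sub_apply, sub_smul, Finset.sum_sub_distrib]
    have h2 : ∑ i, (1 : Matrix (Fin p) (Fin p) R) i l • u i = u l := by
      rw [Finset.sum_eq_single l]
      · rw [Matrix.one_apply_eq, one_smul]
      · intro b _ hb
        rw [Matrix.one_apply_ne hb, zero_smul]
      · intro h
        exact absurd (Finset.mem_univ _) h
    rw [h2]
    change u l - ∑ i, s (u l) i • u i = 0
    rw [hs, sub_self]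
  choose Y' hY' using h1
  let Y : Matrix (Fin q) (Fin p) R := Matrix.of fun j l => Y' l j
  have hρY : ρ * Y = 1 - S := by
    ext i l
    exact congrFun (hY' l) i
  have hcol : ∀ l, ∑ m, ρ m l • u m = 0 := by
    intro l
    refine (hρ _).mpr ⟨Pi.single l 1, ?_⟩
    rw [Matrix.mulVec_single_one]
    rfl
  have hSρ : S * ρ = 0 := by
    ext i l
    have h2 : (fun j => ∑ m, ρ m l * co (u m) j) = (0 : Fin n → R) := by
      refine huniq _ _ ?_
      simp only [Pi.zero_apply, zero_smul, Finset.sum_const_zero, Finset.sum_smul]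
      rw [Finset.sum_comm]
      refine Eq.trans ?_ (hcol l)
      refine Finset.sum_congr rfl fun m _ => ?_
      conv_rhs => rw [hco (u m), Finset.smul_sum]
      exact Finset.sum_congr rfl fun j _ => mul_smul _ _ _
    change ∑ m, (∑ j, co (u m) j * c j i) * ρ m l = 0
    simp only [Finset.sum_mul]
    rw [Finset.sum_comm]
    refine Finset.sum_eq_zero fun j _ => ?_
    have h3 := congrFun h2 j
    simp only [Pi.zero_apply] at h3
    calc ∑ m, co (u m) j * c j i * ρ m l = (∑ m, ρ m l * co (u m) j) * c j i := by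
          rw [Finset.sum_mul]
          exact Finset.sum_congr rfl fun m _ => by ring
      _ = 0 := by rw [h3, zero_mul]
  exact ⟨Y, by rw [hρY, Matrix.sub_mul, Matrix.one_mul, hSρ, sub_zero]⟩

/-- (algebra) two bases of a module over a nontrivial commutative ring have the same number of elements. Proof. The maps
`a ↦ ∑ i, a i • f i` are linear isomorphisms `(Fin n → R) ≃ M`, `(Fin m → R) ≃ M` (`LinearEquiv.ofBijective` of
`Fintype.linearCombination`); `eq_of_fin_equiv`  (`InvariantBasisNumber`). -/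
theorem rank_unique {R : Type v} [CommRing R] [Nontrivial R] {M : Type w} [AddCommGroup M]
    [Module R M] {n m : ℕ} (f : Fin n → M) (hf : ∀ t : M, ∃! a : Fin n → R, t = ∑ i, a i • f i)
    (g : Fin m → M) (hg : ∀ t : M, ∃! a : Fin m → R, t = ∑ i, a i • g i) : n = m := by
  have key : ∀ {k : ℕ} (e : Fin k → M), (∀ t : M, ∃! a : Fin k → R, t = ∑ i, a i • e i) →
      Function.Bijective (Fintype.linearCombination R e) := by
    intro k e he
    constructor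
    · intro a b hab
      exact (he (∑ i, a i • e i)).unique rfl hab
    · intro t
      obtain ⟨a, ha⟩ := (he t).exists
      exact ⟨a, ha.symm⟩
  exact eq_of_fin_equiv R ((LinearEquiv.ofBijective _ (key f hf)).trans
    (LinearEquiv.ofBijective _ (key g hg)).symm)

variable {B : Type u} [NormedAddCommGroup B] [NormedSpace ℂ B] {n m p q N : ℕ}

/-- a sheaf with a frame is coherent. Proof. `EMod.cohAt_of_lfp` (file DCoh) with `oka_relAt`-type hypothesis: the generators `f`, no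
relations (`q = 0`): `F.rel f y = ⊥ = span ∅` by uniqueness of the coefficients; at all points `b'` near `b`
(`eventually_eventually_nhds`). -/
theorem IsFrame.coh [FiniteDimensional ℂ B] {F : EMod.{u, u, w} (O B)}
    {f : Fin n → (b : B) → F.St b} {S : Set B} (h : IsFrame F f S) (hS : S ⊆ F.dom) :
    F.Coh S := by
  intro x hx
  obtain ⟨h1, h2⟩ := h x hx
  filter_upwards [eventually_all.mpr fun i => F.ev (h1 i), eventually_eventually_nhds.mpr h2,
    F.isOpen_dom.mem_nhds (hS hx)] with y y1 y2 y3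
  refine F.cohAt_of_lfp y3 (O_relAt y) (q := 0) f (fun j => j.elim0) y1 (fun j => j.elim0) ?_ ?_
  · filter_upwards [y2] with z hz
    rw [eq_top_iff]
    intro t _
    obtain ⟨a, ha⟩ := (hz t).exists
    exact mem_span_fam.mpr ⟨a, ha⟩
  · filter_upwards [y2] with z hz
    rw [Set.range_eq_empty, Submodule.span_empty, eq_bot_iff]
    intro a ha
    have h3 : (0 : F.St z) = ∑ i, a i • f i z := (EMod.mem_rel.mp ha).symm
    have h4 : (0 : F.St z) = ∑ i, (0 : Fin n → (O B).St z) i • f i z := by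
      simp only [Pi.zero_apply, zero_smul, Finset.sum_const_zero]
    exact (Submodule.mem_bot _).mpr ((hz 0).unique h3 h4)

/-- Proof. `freeAt_iff`, `IsFrame.coh`. -/
theorem coh_of_freeAt [FiniteDimensional ℂ B] {F : EMod.{u, u, w} (O B)} {S : Set B}
    (h : ∀ b ∈ S, FreeAt F n b) (hS : S ⊆ F.dom) : F.Coh S := by
  intro b hb
  obtain ⟨f, hf⟩ := freeAt_iff.mp (h b hb)
  exact hf.coh (fun x hx => by rw [mem_singleton_iff.mp hx]; exact hS hb) b rfl

end Pool.Agent.DQ.M12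
end

section

/-! Campaign DQ, module M12, block (g): the sheaf `ker Q' / im Q`. -/

set_option autoImplicit false
set_option linter.unusedSectionVars false

open Set Filter Topology Matrix

universe u v w

namespace Pool.Agent.DQ.M12

variable {E : Type u} [NormedAddCommGroup E] [NormedSpace ℂ E] {m N N' : ℕ}

/-- the kernel sheaf of `Q'` -/
noncomputable def kerQ (Q' : E → Matrix (Fin N') (Fin N) ℂ) : EMod.{u, u, u} (O E) :=
  ((O E).free N').relSh fun j => col Q' j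

/-- the inclusion of the kernel sheaf -/
noncomputable def kval (Q' : E → Matrix (Fin N') (Fin N) ℂ) (x : E) :
    (kerQ Q').St x →ₗ[(O E).St x] (Fin N → (O E).St x) :=
  ((O E).free N').relVal (fun j => col Q' j) x

theorem kval_injective (Q' : E → Matrix (Fin N') (Fin N) ℂ) (x : E) :
    Function.Injective (kval Q' x) := ((O E).free N').relVal_injective _ x

theorem kval_mem (Q' : E → Matrix (Fin N') (Fin N) ℂ) (x : E) (c : (kerQ Q').St x) :
    gmat Q' x *ᵥ kval Q' x c = 0 := by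
  rw [← sum_col]
  exact ((O E).free N').relVal_mem _ x c

/-- a vector of functions as a section of the kernel sheaf -/
noncomputable def kmk (Q' : E → Matrix (Fin N') (Fin N) ℂ) (q : E → Fin N → ℂ) (x : E) :
    (kerQ Q').St x :=
  ((O E).free N').mkRel (fun j => col Q' j) (fun j y => om (fun y => q y j) y) x

theorem kval_kmk {Q' : E → Matrix (Fin N') (Fin N) ℂ} {q : E → Fin N → ℂ} {x : E}
    (h : gmat Q' x *ᵥ gvec q x = 0) : kval Q' x (kmk Q' q x) = gvec q x := by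
  have h1 : ∑ j, om (fun y => q y j) x • (col Q' j x : ((O E).free N').St x) = 0 := by
    have h2 := sum_col Q' x (gvec q x)
    rw [h] at h2
    exact h2
  exact EMod.mkRel_val h1

theorem kmk_at {Q' : E → Matrix (Fin N') (Fin N) ℂ} {q : E → Fin N → ℂ} {x : E}
    (hQ' : MHolAt Q' x) (hq : VHolAt q x) (h : gmat Q' x *ᵥ gvec q x = 0) :
    (kerQ Q').At (kmk Q' q) x := by
  have h1 : ∑ j, om (fun y => q y j) x • (col Q' j x : ((O E).free N').St x) = 0 := by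
    have h2 := sum_col Q' x (gvec q x)
    rw [h] at h2
    exact h2
  exact EMod.mkRel_at (mem_univ _) (fun j => col_at hQ' j) (fun j => O_at_gm (hq j)) h1

/-- the submodules generated by the columns of `Q` -/
noncomputable def imQ (Q : E → Matrix (Fin N) (Fin m) ℂ) (Q' : E → Matrix (Fin N') (Fin N) ℂ)
    (x : E) : Submodule ((O E).St x) ((kerQ Q').St x) :=
  (kerQ Q').spn (fun l => kmk Q' fun y j => Q y j l) x

/-- the sheaf `ker Q' / im Q` -/
noncomputable def NH (Q : E → Matrix (Fin N) (Fin m) ℂ) (Q' : E → Matrix (Fin N') (Fin N) ℂ) :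
    EMod.{u, u, u} (O E) :=
  (kerQ Q').quot (imQ Q Q') ((kerQ Q').spn_open _)

/-- the class of a vector of functions -/
noncomputable def cls (Q : E → Matrix (Fin N) (Fin m) ℂ) (Q' : E → Matrix (Fin N') (Fin N) ℂ)
    (q : E → Fin N → ℂ) (x : E) : (NH Q Q').St x := (imQ Q Q' x).mkQ (kmk Q' q x)

variable {Q : E → Matrix (Fin N) (Fin m) ℂ} {Q' : E → Matrix (Fin N') (Fin N) ℂ}

theorem cls_at {q : E → Fin N → ℂ} {x : E}
    (hQ' : MHolAt Q' x) (hq : VHolAt q x) (h : gmat Q' x *ᵥ gvec q x = 0) :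
    (NH Q Q').At (cls Q Q' q) x :=
  ⟨kmk Q' q, kmk_at hQ' hq h, Eventually.of_forall fun _ => rfl⟩

theorem colQ_ker {x : E} (hQQ : gmat Q' x * gmat Q x = 0) (l : Fin m) :
    gmat Q' x *ᵥ gvec (fun y j => Q y j l) x = 0 := by
  have h1 : gvec (fun y j => Q y j l) x = (gmat Q x).col l := rfl
  funext i
  have h2 := congrFun (congrFun hQQ i) l
  exact h2

theorem mem_imQ {x : E} (hQ : MHolAt Q x) (hQ' : MHolAt Q' x) (hQQ : gmat Q' x * gmat Q x = 0)
    (c : (kerQ Q').St x) : c ∈ imQ Q Q' x ↔ ∃ u, gmat Q x *ᵥ u = kval Q' x c := by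
  have hat : ∀ l, (kerQ Q').At (kmk Q' fun y j => Q y j l) x := fun l =>
    kmk_at hQ' (fun j => hQ j l) (colQ_ker hQQ l)
  unfold imQ
  rw [EMod.spn_eq _ _ hat, mem_span_fam]
  have key : ∀ u : Fin m → (O E).St x,
      kval Q' x (∑ l, u l • kmk Q' (fun y j => Q y j l) x) = gmat Q x *ᵥ u := by
    intro u
    rw [map_sum]
    funext j
    rw [Finset.sum_apply]
    refine Finset.sum_congr rfl fun l _ => ?_
    rw [map_smul, kval_kmk (colQ_ker hQQ l), Pi.smul_apply, smul_eq_mul, mul_comm]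
    rfl
  constructor
  · rintro ⟨u, hu⟩
    exact ⟨u, by rw [hu, key]⟩
  · rintro ⟨u, hu⟩
    refine ⟨u, kval_injective Q' x ?_⟩
    rw [key, hu]

theorem cls_eq_zero {q : E → Fin N → ℂ} {x : E} (hQ : MHolAt Q x) (hQ' : MHolAt Q' x)
    (hQQ : gmat Q' x * gmat Q x = 0) (h : gmat Q' x *ᵥ gvec q x = 0) :
    cls Q Q' q x = 0 ↔ ∃ u, gmat Q x *ᵥ u = gvec q x := by
  have h1 : cls Q Q' q x = 0 ↔ kmk Q' q x ∈ imQ Q Q' x :=
    Submodule.Quotient.mk_eq_zero (imQ Q Q' x)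
  rw [h1, mem_imQ hQ hQ' hQQ, kval_kmk h]

theorem cls_congr {q q' : E → Fin N → ℂ} {x : E} (h : gvec q x = gvec q' x) :
    cls Q Q' q x = cls Q Q' q' x := by
  have h1 : kmk Q' q x = kmk Q' q' x := by
    unfold kmk EMod.mkRel
    have h2 : (fun j => om (fun y => q y j) x) = fun j => om (fun y => q' y j) x := h
    by_cases h3 : (fun j => om (fun y => q y j) x) ∈ ((O E).free N').rel (fun j => col Q' j) x
    · have h4 := h3
      rw [h2] at h4
      rw [dif_pos h3, dif_pos h4]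
      apply Subtype.ext
      exact h2
    · have h4 := h3
      rw [h2] at h4
      rw [dif_neg h3, dif_neg h4]
  unfold cls
  rw [h1]

theorem cls_add {q q' : E → Fin N → ℂ} {x : E} (hq : VHolAt q x) (hq' : VHolAt q' x)
    (h : gmat Q' x *ᵥ gvec q x = 0) (h' : gmat Q' x *ᵥ gvec q' x = 0) :
    cls Q Q' (fun y => q y + q' y) x = cls Q Q' q x + cls Q Q' q' x := by
  have h1 : gmat Q' x *ᵥ gvec (fun y => q y + q' y) x = 0 := by
    rw [gvec_add hq hq', Matrix.mulVec_add, h, h', add_zero]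
  have h2 : kmk Q' (fun y => q y + q' y) x = kmk Q' q x + kmk Q' q' x := by
    apply kval_injective Q' x
    rw [map_add, kval_kmk h1, kval_kmk h, kval_kmk h', gvec_add hq hq']
  unfold cls
  rw [h2]
  exact map_add _ _ _

theorem cls_smul {q : E → Fin N → ℂ} {f : E → ℂ} {x : E} (hf : HolAt f x) (hq : VHolAt q x)
    (h : gmat Q' x *ᵥ gvec q x = 0) :
    cls Q Q' (fun y => f y • q y) x = om f x • cls Q Q' q x := by
  have h1 : gmat Q' x *ᵥ gvec (fun y => f y • q y) x = 0 := by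
    rw [gvec_smul hf hq, Matrix.mulVec_smul, h, smul_zero]
  have h2 : kmk Q' (fun y => f y • q y) x = om f x • kmk Q' q x := by
    apply kval_injective Q' x
    rw [map_smul, kval_kmk h1, kval_kmk h, gvec_smul hf hq]
  unfold cls
  rw [h2]
  exact map_smul _ _ _

theorem NH_cohAt [FiniteDimensional ℂ E] {x : E} (hQ : MHolAt Q x) (hQ' : MHolAt Q' x)
    (hQQ : gmat Q' x * gmat Q x = 0) : (NH Q Q').CohAt x := by
  have hat : ∀ l, (kerQ Q').At (kmk Q' fun y j => Q y j l) x := fun l =>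
    kmk_at hQ' (fun j => hQ j l) (colQ_ker hQQ l)
  have hco : (kerQ Q').CohAt x :=
    EMod.relSh_cohAt (fun j => col_at hQ' j) (O_free_cohAt _ x) (O_free_cohAt _ x)
  exact EMod.quot_cohAt (kerQ Q') _ _ (O_relAt x) hco _ hat ((kerQ Q').spn_near _ hat)

/-- the quotient vanishes where the complex is exact -/
theorem NH_zero {x : E} (hQ : MHolAt Q x) (hQ' : MHolAt Q' x) (hQQ : gmat Q' x * gmat Q x = 0)
    (hex : ∀ h, gmat Q' x *ᵥ h = 0 → ∃ u, gmat Q x *ᵥ u = h) : Subsingleton ((NH Q Q').St x) := by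
  refine ⟨fun a b => ?_⟩
  have key : ∀ a : (NH Q Q').St x, a = 0 := by
    intro a
    obtain ⟨c, rfl⟩ := (imQ Q Q' x).mkQ_surjective a
    refine (Submodule.Quotient.mk_eq_zero (imQ Q Q' x)).mpr ?_
    exact (mem_imQ hQ hQ' hQQ c).mpr (hex _ (kval_mem Q' x c))
  rw [key a, key b]

end Pool.Agent.DQ.M12
end

section

/-! Coherence of the reduction, and openness of the absence of torsion. -/

set_option autoImplicit false

open Set Filter Topology

universe u v w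

namespace Pool.Agent.DQ

variable {V : Type u} [NormedAddCommGroup V] [NormedSpace ℂ V] [FiniteDimensional ℂ V]
  {𝓐 : Defo.{u, v} V}

theorem Defo.relAt_near {x : V} (hx : x ∈ 𝓐.A.dom) : ∀ᶠ y in 𝓝 x, 𝓐.A.RelAt y := by
  filter_upwards [𝓐.A.isOpen_dom.mem_nhds hx] with y hy
  exact 𝓐.relAt hy

/-- the reduction of a coherent module is coherent -/
theorem IsRed.cohAt {F : EMod.{u, v, w} 𝓐.A} {F₀ : EMod.{u, u, w} (O V)}
    {ρ : ∀ x, F.St x → F₀.St x} (h : IsRed 𝓐 F F₀ ρ) {x : V} (hF : F.CohAt x) : F₀.CohAt x := by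
  have hx := hF.1
  obtain ⟨p, g, hg, hgen⟩ := hF.2.1
  obtain ⟨m, r, hr, hrel⟩ := hF.2.2 p g hg
  refine F₀.cohAt_of_lfp (by rw [h.dom]; exact hx) (O_relAt x) (fun i y => ρ y (g i y))
    (fun j i y => 𝓐.red y (r j i y)) (fun i => h.at_map (hg i))
    (fun j i => 𝓐.red_at (F.dom_sub hx) (hr j i)) ?_ ?_
  · filter_upwards [hgen, F.isOpen_dom.mem_nhds hx] with y y1 y2
    exact h.span_eq_top y2 y1
  · filter_upwards [hgen, hrel, F.isOpen_dom.mem_nhds hx] with y y1 y2 y3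
    have hyd := F.dom_sub y3
    apply le_antisymm
    · intro c hc
      have hc' : ∑ i, c i • ρ y (g i y) = 0 := hc
      choose C hC using fun i => 𝓐.red_surj y hyd (c i)
      have h1 : ρ y (∑ i, C i • g i y) = 0 := by
        rw [h.comb y3, ← hc']
        exact Finset.sum_congr rfl fun i _ => by rw [hC]
      obtain ⟨l, hl⟩ := (h.ker y y3 _).1 h1
      have h2 : l ∈ Submodule.span (𝓐.A.St y) (range fun i => g i y) := by
        rw [y1]
        exact Submodule.mem_top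
      obtain ⟨d, rfl⟩ := mem_span_fam.mp h2
      have h3 : (fun i => C i - 𝓐.hb y * d i) ∈ F.rel g y := by
        change ∑ i, (C i - 𝓐.hb y * d i) • g i y = 0
        simp only [sub_smul, Finset.sum_sub_distrib, mul_smul]
        rw [hl, ← Finset.smul_sum, sub_self]
      rw [y2] at h3
      obtain ⟨e, he⟩ := mem_span_fam.mp h3
      refine mem_span_fam.mpr ⟨fun j => 𝓐.red y (e j), ?_⟩
      funext i
      have h4 := congrArg (𝓐.redHom hyd) (congrFun he i)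
      rw [Finset.sum_apply, _root_.map_sub, map_sum] at h4
      have h5 : 𝓐.redHom hyd (𝓐.hb y * d i) = 0 := (𝓐.red_ker y hyd _).2 ⟨d i, rfl⟩
      rw [h5, sub_zero] at h4
      rw [Finset.sum_apply, ← hC i]
      exact h4.trans (Finset.sum_congr rfl fun j _ => map_mul (𝓐.redHom hyd) _ _)
    · rw [Submodule.span_le]
      rintro _ ⟨j, rfl⟩
      change ∑ i, 𝓐.red y (r j i y) • ρ y (g i y) = 0
      rw [← h.comb y3]
      have h1 : (fun i => r j i y) ∈ F.rel g y := by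
        rw [y2]
        exact Submodule.subset_span ⟨j, rfl⟩
      have h2 : ∑ i, r j i y • g i y = 0 := h1
      rw [h2]
      exact h.map_zero y3

/-- absence of torsion is an open condition -/
theorem tf_near {F : EMod.{u, v, w} 𝓐.A} {x : V} (hF : F.CohAt x)
    (htf : ∀ m : F.St x, 𝓐.hb x • m = 0 → m = 0) :
    ∀ᶠ y in 𝓝 x, ∀ m : F.St y, 𝓐.hb y • m = 0 → m = 0 := by
  have hx := hF.1
  have hxd := F.dom_sub hx
  obtain ⟨p, g, hg, hgen⟩ := hF.2.1
  obtain ⟨m, r, hr, hrel⟩ := hF.2.2 p (fun i y => 𝓐.hb y • g i y)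
    (fun i => F.smul (𝓐.hb_at x hxd) (hg i))
  -- the generating relations of `ħ g` are relations of `g` near `x`
  have h1 : ∀ j, ∀ᶠ y in 𝓝 x, ∑ i, r j i y • g i y = 0 := by
    intro j
    refine F.inj (F.comb hx (hr j) hg) (F.zero x hx) ?_
    apply htf
    have h2 : (fun i => r j i x) ∈ F.rel (fun i y => 𝓐.hb y • g i y) x := by
      rw [hrel.self_of_nhds]
      exact Submodule.subset_span ⟨j, rfl⟩
    have h3 : ∑ i, r j i x • 𝓐.hb x • g i x = 0 := h2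
    rw [Finset.smul_sum, ← h3]
    exact Finset.sum_congr rfl fun i _ => 𝓐.hb_smul_comm hxd _ _
  filter_upwards [hgen, hrel, eventually_all.mpr h1, 𝓐.A.isOpen_dom.mem_nhds hxd]
    with y y1 y2 y3 y4
  intro m hm
  have h4 : m ∈ Submodule.span (𝓐.A.St y) (range fun i => g i y) := by
    rw [y1]
    exact Submodule.mem_top
  obtain ⟨c, rfl⟩ := mem_span_fam.mp h4
  have h5 : c ∈ F.rel (fun i y => 𝓐.hb y • g i y) y := by
    change ∑ i, c i • 𝓐.hb y • g i y = 0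
    rw [← hm, Finset.smul_sum]
    exact Finset.sum_congr rfl fun i _ => (𝓐.hb_smul_comm y4 _ _).symm
  rw [y2] at h5
  obtain ⟨e, rfl⟩ := mem_span_fam.mp h5
  have h6 : ∑ i, (∑ j, e j • fun i => r j i y) i • g i y =
      ∑ j, e j • ∑ i, r j i y • g i y := by
    simp only [Finset.sum_apply, Finset.sum_smul, Finset.smul_sum]
    rw [Finset.sum_comm]
    refine Finset.sum_congr rfl fun j _ => Finset.sum_congr rfl fun i _ => ?_
    rw [smul_smul]
    rfl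
  rw [h6]
  exact Finset.sum_eq_zero fun j _ => by rw [y3 j, smul_zero]

/-- coherence near a set, at its points -/
theorem EMod.Coh.cohAt {X : Type u} [TopologicalSpace X] {R : ERing.{u, v} X}
    {M : EMod.{u, v, w} R} {K : Set X} (h : M.Coh K) {x : X} (hx : x ∈ K) : M.CohAt x :=
  (h x hx).self_of_nhds

theorem IsRed.coh' {F : EMod.{u, v, w} 𝓐.A} {F₀ : EMod.{u, u, w} (O V)}
    {ρ : ∀ x, F.St x → F₀.St x} (h : IsRed 𝓐 F F₀ ρ) {K : Set V} (hF : F.Coh K) : F₀.Coh K :=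
  fun x hx => (hF x hx).mono fun _ hy => h.cohAt hy

/-- the stalks of a coherent module are noetherian modules -/
theorem EMod.CohAt.noeth {F : EMod.{u, v, w} 𝓐.A} {x : V} (hF : F.CohAt x) :
    IsNoetherian (𝓐.A.St x) (F.St x) := by
  have := 𝓐.isNoetherian (F.dom_sub hF.1)
  obtain ⟨p, g, hg, hgen⟩ := hF.2.1
  have h1 : Module.Finite (𝓐.A.St x) (F.St x) := by
    constructor
    rw [← hgen.self_of_nhds]
    exact Submodule.fg_span (Set.finite_range _)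
  infer_instance

theorem EMod.CohAt.sepAt {F : EMod.{u, v, w} 𝓐.A} {x : V} (hF : F.CohAt x) : 𝓐.SepAt F x := by
  have := hF.noeth
  exact 𝓐.sepAt_of_noeth (F.dom_sub hF.1)

end Pool.Agent.DQ
end
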