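import Pool.Agent.Lib.MP_4aa2a9_ag.Mg.G014
import Pool.Agent.Lib.MP_4aa2a9_ag.Mg.G039
import Pool.Agent.Lib.MP_4aa2a9_ag.Mg.G011
import Pool.Agent.Lib.MP_4aa2a9_ag.Mg.G019
import Pool.Agent.Lib.MP_4aa2a9_ag.Mg.G043
import Pool.Agent.Lib.MP_4aa2a9_ag.Mg.G040
import Pool.Agent.Lib.MP_4aa2a9_ag.Mg.G023
import Pool.Agent.Lib.MP_4aa2a9_ag.Mg.G044

section

/-! # DQ, module G, task GS4: slicing by generic linear forms, near a point -/

set_option autoImplicit false

open Set Filter Topology Module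

universe u

namespace Pool.Agent.DQ

variable {V : Type u} [NormedAddCommGroup V] [NormedSpace ℂ V] [FiniteDimensional ℂ V]

private theorem GS4_prod_grade {R : Type u} [CommRing R] [IsNoetherianRing R] {ι : Type*} (S : Finset ι)
    (J : ι → Ideal R) {c : ℕ} (h : ∀ i ∈ S, GradeGE (J i) c) : GradeGE (∏ i ∈ S, J i) c := by
  classical
  induction S using Finset.induction_on with
  | empty => exact GradeGE.of_top (by simp) c
  | insert a S ha ih =>
    rw [Finset.prod_insert ha]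
    exact GradeGE.mul (h a (Finset.mem_insert_self _ _)) (ih fun i hi => h i (Finset.mem_insert_of_mem hi))

private theorem GS4_mul_sup {R : Type u} [CommRing R] (A B L : Ideal R) : (A ⊔ L) * (B ⊔ L) ≤ A * B ⊔ L := by
  rw [Ideal.sup_mul, Ideal.mul_sup, Ideal.mul_sup]
  refine sup_le (sup_le le_sup_left ?_) (sup_le ?_ ?_)
  · exact le_trans (b := L) (by first | exact Ideal.mul_le_left | exact Ideal.mul_le_right) le_sup_right
  · exact le_trans (b := L) (by first | exact Ideal.mul_le_left | exact Ideal.mul_le_right) le_sup_right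
  · exact le_trans (b := L) (by first | exact Ideal.mul_le_left | exact Ideal.mul_le_right) le_sup_right

private theorem GS4_prod_sup {R : Type u} [CommRing R] {ι : Type*} (S : Finset ι) (J : ι → Ideal R) (L : Ideal R) :
    ∏ i ∈ S, (J i ⊔ L) ≤ (∏ i ∈ S, J i) ⊔ L := by
  classical
  induction S using Finset.induction_on with
  | empty => simp
  | insert a S ha ih =>
    rw [Finset.prod_insert ha, Finset.prod_insert ha]
    exact (Ideal.mul_mono_right ih).trans (GS4_mul_sup _ _ _)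

private theorem GS4_pow_sup {R : Type u} [CommRing R] (J L : Ideal R) (k : ℕ) : (J ⊔ L) ^ k ≤ J ^ k ⊔ L := by
  induction k with
  | zero => simp
  | succ k ih =>
    rw [pow_succ, pow_succ]
    exact (Ideal.mul_mono_left ih).trans (GS4_mul_sup _ _ _)

omit [FiniteDimensional ℂ V] in
private theorem GS4_hol (l : V →L[ℂ] ℂ) (c : ℂ) (x : V) : HolAt (fun y => l y - c) x :=
  Eventually.of_forall fun _ => l.differentiableAt.sub (differentiableAt_const _)

/-- the linear forms whose germ (minus the value at `b₀`) lies in the ideal `P` -/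
private noncomputable def GS4N {x₀ : V} (b₀ : V) (P : Ideal (OGerm x₀)) : Submodule ℂ (V →L[ℂ] ℂ) where
  carrier := {l | (gm (fun y => l y - l b₀) x₀ : OGerm x₀) ∈ P}
  add_mem' := by
    intro l l' h h'
    have e : (fun y => (l + l') y - (l + l') b₀) = (fun y => l y - l b₀) + (fun y => l' y - l' b₀) := by
      funext y
      simp only [Pi.add_apply, add_apply]
      ring
    show (gm (fun y => (l + l') y - (l + l') b₀) x₀ : OGerm x₀) ∈ P
    rw [e, gm_add (GS4_hol l _ x₀) (GS4_hol l' _ x₀)]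
    exact P.add_mem h h'
  zero_mem' := by
    have e : (fun y => (0 : V →L[ℂ] ℂ) y - (0 : V →L[ℂ] ℂ) b₀) = (0 : V → ℂ) := by
      funext y
      simp
    show (gm (fun y => (0 : V →L[ℂ] ℂ) y - (0 : V →L[ℂ] ℂ) b₀) x₀ : OGerm x₀) ∈ P
    rw [e, gm_zero]
    exact P.zero_mem
  smul_mem' := by
    intro c l h
    have e : (fun y => (c • l) y - (c • l) b₀) = (fun _ => c) * (fun y => l y - l b₀) := by
      funext y
      simp only [Pi.mul_apply, smul_apply, smul_eq_mul]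
      ring
    show (gm (fun y => (c • l) y - (c • l) b₀) x₀ : OGerm x₀) ∈ P
    rw [e, gm_mul (HolAt.const c x₀) (GS4_hol l _ x₀)]
    exact P.mul_mem_left _ h

/-- **Slicing near a point.**

Proof. Take `s`, `k`, `h` from `exists_primes_near`. For `i : Fin s` with `gid (h i) x₀ ≠ maximalIdeal` let `N i = {l | gm (fun y => l y - l b₀) x₀ ∈ gid (h i) x₀}` (a submodule: `gm_add`, `gm_mul` with a constant, `gm_zero`; the functions `l - l b₀` are holomorphic everywhere),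
`N i ≠ ⊤` by `exists_form_notMem`. For the other `i` let `N i = ⊥` (`⊥ ≠ ⊤` because `V` has positive dimension, `hc`). For the first kind of `i` let `U_i` be the neighbourhood of `gid_regular (h i)`; for the second kind, `gid (h i) x₀` is the maximal ideal, which has grade
`≥ finrank ℂ V ≥ c + 1` (`exists_regLoc`, `RegLoc.gradeGE`, `GradeGE.mono`), so by `gradeGE_near` `GradeGE (gid (h i) x) (c + 1)` for `x` near `x₀`. Let `U` be an open neighbourhood of `x₀` contained in all `U_i` and all these neighbourhoods, in the one of `exists_primes_near`, and where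
`GradeGE (gid f x) c` (`gradeGE_near`).
Let `l ∉ N i` for all `i`, `x ∈ U`, `λ = gm (fun y => l y - l b₀) x`. CLAIM: `GradeGE (gid (h i) x ⊔ span {λ}) (c + 1)` for all `i`. Second kind: `GradeGE.mono`. First kind: `gm (l - l b₀) x₀ ∉ gid (h i) x₀`, a prime, so it is regular modulo it; `gid_regular`: regular at `x`, too;
`GradeGE (gid (h i) x) c` by `GradeGE.mono` (`gid f x ≤ gid (h i) x`); `gradeGE_sup_span` with `exists_regLoc x`.
Then `(∏ i, (gid (h i) x ⊔ span {λ})) ^ k` has grade `≥ c + 1` (`GradeGE.mul` by induction on the finset, empty product `⊤`: `GradeGE.of_top`; `GradeGE.pow`), and it is contained in `(∏ i, gid (h i) x) ^ k ⊔ span {λ} ≤ gid f x ⊔ span {λ}`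
(`(A ⊔ L) * (B ⊔ L) ≤ A * B ⊔ L`; induction). `GradeGE.mono`. -/
theorem slice_point {m : ℕ} (f : Fin m → V → ℂ) {x₀ : V} (hf : ∀ j, HolAt (f j) x₀) {c : ℕ}
    (h : GradeGE (gid f x₀) c) (hc : c + 1 ≤ finrank ℂ V) (b₀ : V) :
    ∃ (U : Set V) (s : ℕ) (N : Fin s → Submodule ℂ (V →L[ℂ] ℂ)), IsOpen U ∧ x₀ ∈ U ∧ (∀ i, N i ≠ ⊤) ∧
      ∀ l : V →L[ℂ] ℂ, (∀ i, l ∉ N i) → ∀ x ∈ U,
        GradeGE (gid f x ⊔ Ideal.span {(gm (fun y => l y - l b₀) x : OGerm x)}) (c + 1) := by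
  classical
  obtain ⟨s, k, mm, h', hh', hprime, hev⟩ := exists_primes_near f hf
  have hle0 : ∀ i, gid f x₀ ≤ gid (h' i) x₀ := hev.self_of_nhds.1
  -- positive dimension
  have hnt : Nontrivial (V →L[ℂ] ℂ) := by
    have : Nontrivial V := Module.nontrivial_of_finrank_pos (R := ℂ) (by omega)
    obtain ⟨v, hv⟩ := exists_ne (0 : V)
    obtain ⟨l, -, hl⟩ := exists_dual_vector ℂ v (norm_ne_zero_iff.mpr hv)
    refine ⟨l, 0, fun h0 => ?_⟩
    rw [h0, zero_apply] at hl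
    exact norm_ne_zero_iff.mpr hv (RCLike.ofReal_eq_zero.mp hl.symm)
  -- neighbourhoods of the two kinds
  have hnb : ∀ i, ∃ Ui : Set V, IsOpen Ui ∧ x₀ ∈ Ui ∧ ∃ Ni : Submodule ℂ (V →L[ℂ] ℂ), Ni ≠ ⊤ ∧
      ∀ l : V →L[ℂ] ℂ, l ∉ Ni → ∀ x ∈ Ui, GradeGE (gid (h' i) x) c →
        GradeGE (gid (h' i) x ⊔ Ideal.span {(gm (fun y => l y - l b₀) x : OGerm x)}) (c + 1) := by
    intro i
    by_cases hi : gid (h' i) x₀ = IsLocalRing.maximalIdeal (OGerm x₀)
    · obtain ⟨xs, hxs, hlen⟩ := exists_regLoc x₀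
      have hg : GradeGE (gid (h' i) x₀) (c + 1) := by
        rw [hi]
        exact GradeGE.mono hxs.gradeGE le_rfl (by rw [hlen]; exact hc)
      obtain ⟨Ui, hUi, hUo, hxU⟩ := mem_nhds_iff.mp (gradeGE_near (h' i) (hh' i) hg)
      refine ⟨Ui, hUo, hxU, ⊥, bot_ne_top, fun l _ x hx _ => ?_⟩
      exact GradeGE.mono (hUi hx) le_sup_left le_rfl
    · obtain ⟨Ui, hUo, hxU, hreg⟩ := gid_regular (h' i) (hh' i)
      obtain ⟨l₀, hl₀⟩ := exists_form_notMem b₀ (hprime i) hi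
      refine ⟨Ui, hUo, hxU, GS4N b₀ (gid (h' i) x₀), ?_, ?_⟩
      · intro htop
        have : l₀ ∈ GS4N b₀ (gid (h' i) x₀) := htop ▸ Submodule.mem_top
        exact hl₀ this
      · intro l hl x hx hgx
        obtain ⟨xs, hxs, -⟩ := exists_regLoc x
        refine gradeGE_sup_span hxs hgx ?_
        refine hreg (fun y => l y - l b₀) (fun y _ => GS4_hol l _ y) ?_ x hx
        intro a ha
        rcases (hprime i).mem_or_mem ha with h1 | h1
        · exact absurd h1 hl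
        · exact h1
  choose Ui hUo hxU Ni hNi hgr using hnb
  obtain ⟨W, hWsub, hWo, hxW⟩ := mem_nhds_iff.mp ((gradeGE_near f hf h).and hev)
  refine ⟨W ∩ ⋂ i, Ui i, s, Ni, hWo.inter (isOpen_iInter_of_finite hUo), ⟨hxW, mem_iInter.mpr hxU⟩, hNi, ?_⟩
  intro l hl x hx
  have hxi : ∀ i, x ∈ Ui i := mem_iInter.mp hx.2
  obtain ⟨hgf, hle, hpow⟩ := hWsub hx.1
  set L : Ideal (OGerm x) := Ideal.span {(gm (fun y => l y - l b₀) x : OGerm x)} with hL
  have hclaim : ∀ i, GradeGE (gid (h' i) x ⊔ L) (c + 1) := fun i =>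
    hgr i l (hl i) x (hxi i) (GradeGE.mono hgf (hle i) le_rfl)
  have h1 : GradeGE ((∏ i, (gid (h' i) x ⊔ L)) ^ k) (c + 1) :=
    (GS4_prod_grade Finset.univ _ fun i _ => hclaim i).pow k
  refine GradeGE.mono h1 ?_ le_rfl
  calc (∏ i, (gid (h' i) x ⊔ L)) ^ k ≤ ((∏ i, gid (h' i) x) ⊔ L) ^ k :=
        Ideal.pow_right_mono (GS4_prod_sup _ _ _) k
    _ ≤ (∏ i, gid (h' i) x) ^ k ⊔ L := GS4_pow_sup _ _ _
    _ ≤ gid f x ⊔ L := sup_le_sup_right hpow _

end Pool.Agent.DQ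
end

section

/-! # DQ, module G, task GS5: slicing by generic linear forms, globally; iteration -/

set_option autoImplicit false

open Set Filter Topology Module

universe u

namespace Pool.Agent.DQ

variable {V : Type u} [NormedAddCommGroup V] [NormedSpace ℂ V] [FiniteDimensional ℂ V]

/-- **Baire.** Countably many proper subspaces can be avoided near every form.

Proof. `V →L[ℂ] ℂ` is a complete normed space, so a Baire space. Each `N i` is closed (finite dimensional: `Submodule.closed_of_finiteDimensional`) and has empty interior (`Submodule.eq_top_of_nonempty_interior'`), so its complement is open and dense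
(`interior_eq_empty_iff_dense_compl`). `dense_iInter_of_isOpen_nat`: the intersection of the complements is dense, so it meets `ball l₀ δ`. -/
theorem exists_avoid (N : ℕ → Submodule ℂ (V →L[ℂ] ℂ)) (hN : ∀ i, N i ≠ ⊤) (l₀ : V →L[ℂ] ℂ) {δ : ℝ} (hδ : 0 < δ) :
    ∃ l : V →L[ℂ] ℂ, ‖l - l₀‖ < δ ∧ ∀ i, l ∉ N i := by
  have hd : Dense (⋂ i, ((N i : Set (V →L[ℂ] ℂ)))ᶜ) := by
    refine dense_iInter_of_isOpen_nat (fun i => ?_) (fun i => ?_)
    · exact (Submodule.closed_of_finiteDimensional (N i)).isOpen_compl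
    · rw [← interior_eq_empty_iff_dense_compl]
      by_contra h
      exact hN i (Submodule.eq_top_of_nonempty_interior' _ (Set.nonempty_iff_ne_empty.2 h))
  obtain ⟨l, hl, hl'⟩ := hd.exists_mem_open (Metric.isOpen_ball (x := l₀) (ε := δ))
    ⟨l₀, Metric.mem_ball_self hδ⟩
  refine ⟨l, ?_, fun i => ?_⟩
  · rwa [← dist_eq_norm]
  · exact Set.mem_iInter.1 hl i

omit [FiniteDimensional ℂ V] in
private theorem GS5_gid_cons {m : ℕ} (f : Fin m → V → ℂ) (g : V → ℂ) (x : V) :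
    gid (Fin.cons g f : Fin (m + 1) → V → ℂ) x = gid f x ⊔ Ideal.span {(gm g x : OGerm x)} := by
  have h : (range fun j => (gm ((Fin.cons g f : Fin (m + 1) → V → ℂ) j) x : OGerm x)) =
      insert (gm g x : OGerm x) (range fun j => (gm (f j) x : OGerm x)) := by
    ext a
    constructor
    · rintro ⟨j, rfl⟩
      refine Fin.cases ?_ (fun i => ?_) j
      · exact Set.mem_insert _ _
      · exact Set.mem_insert_of_mem _ ⟨i, rfl⟩
    · rintro (rfl | ⟨i, rfl⟩)
      · exact ⟨0, rfl⟩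
      · exact ⟨i.succ, rfl⟩
  unfold gid
  rw [h, Ideal.span_insert, sup_comm]

private theorem GS5_local {Z : Set V} {c : ℕ} (hc : c + 1 ≤ finrank ℂ V) {x : V}
    (h : GCodim Z c x) (b₀ : V) :
    ∃ (U : Set V) (s : ℕ) (N : Fin s → Submodule ℂ (V →L[ℂ] ℂ)), IsOpen U ∧ x ∈ U ∧
      (∀ i, N i ≠ ⊤) ∧ ∀ l : V →L[ℂ] ℂ, (∀ i, l ∉ N i) → ∀ y ∈ U,
        GCodim (Z ∩ {y | l y = l b₀}) (c + 1) y := by
  obtain ⟨m, f, hf, hz, hg⟩ := h
  obtain ⟨U, s, N, hU, hxU, hN, hsl⟩ := slice_point f hf hg hc b₀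
  have hE : ∀ᶠ y in 𝓝 x, y ∈ U ∧ (∀ j, HolAt (f j) y) ∧
      ∀ᶠ w in 𝓝 y, w ∈ Z → ∀ j, f j w = 0 := by
    have h1 : ∀ᶠ y in 𝓝 x, y ∈ U := hU.mem_nhds hxU
    exact h1.and ((eventually_all.2 fun j => (hf j).eventually).and hz.eventually_nhds)
  obtain ⟨U', hU', hU'o, hxU'⟩ := mem_nhds_iff.1 hE
  refine ⟨U', s, N, hU'o, hxU', hN, ?_⟩
  intro l hl y hy
  obtain ⟨hyU, hyf, hyz⟩ := hU' hy
  refine ⟨m + 1, Fin.cons (fun y => l y - l b₀) f, ?_, ?_, ?_⟩
  · intro j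
    refine Fin.cases ?_ (fun i => ?_) j
    · exact Eventually.of_forall fun z => (l.differentiableAt.sub_const _)
    · exact hyf i
  · filter_upwards [hyz] with w hw hwZ j
    refine Fin.cases ?_ (fun i => ?_) j
    · exact sub_eq_zero.2 hwZ.2
    · exact hw hwZ.1 i
  · rw [GS5_gid_cons]
    exact hsl l hl y hyU

/-- **Slicing on an open set.**

Proof. For every `x ∈ Ω` choose `m`, `f` as in `GCodim Z c x` and then `U x`, `s`, `N x` by `slice_point`; shrink `U x` to an open neighbourhood of `x` such that moreover on `U x` all `f j` are holomorphic near `y` and `y ∈ Z → f j y = 0` (eventual conditions: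
`eventually_eventually_nhds`, `mem_nhds_iff`). `V` is second countable (finite dimensional), so countably many `x_k ∈ Ω` have `Ω ⊆ ⋃ U (x_k)` (`TopologicalSpace.countable_cover_nhdsWithin` / `isOpen_iUnion_countable` for the family over the subtype `Ω`). The submodules `N (x_k) i` form a countable
family of proper subspaces (Sigma type, countable); enumerate it by `ℕ` (`Countable`, `exists_surjective_nat` if nonempty; if the family is empty take the constant `⊥`, which is proper because `finrank ℂ V ≥ 1`; simplest: add `⊥` to the family, index type `Option (Σ k, Fin _)`). Let `l` avoid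
all of them and `x ∈ Ω`, `x ∈ U (x_k)`. For `GCodim (Z ∩ {y | l y = l b₀}) (c + 1) x` take the `m + 1` functions `Fin.snoc f (fun y => l y - l b₀)` (or `Fin.cons`): holomorphic near `x`; they vanish on the set near `x`; the ideal is `gid f x ⊔ span {gm (l - l b₀) x}`
(`Fin.range_snoc`/`Set.range` of a snoc, `Ideal.span_union` / `Ideal.span_insert`), `slice_point`. -/
theorem slice_generic {Ω Z : Set V} (hΩ : IsOpen Ω) {c : ℕ} (hc : c + 1 ≤ finrank ℂ V)
    (h : ∀ x ∈ Ω, GCodim Z c x) (b₀ : V) :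
    ∃ N : ℕ → Submodule ℂ (V →L[ℂ] ℂ), (∀ i, N i ≠ ⊤) ∧ ∀ l : V →L[ℂ] ℂ, (∀ i, l ∉ N i) →
      ∀ x ∈ Ω, GCodim (Z ∩ {y | l y = l b₀}) (c + 1) x := by
  classical
  have : Nontrivial V := Module.nontrivial_of_finrank_pos (R := ℂ) (by omega)
  have hbt : (⊥ : Submodule ℂ (V →L[ℂ] ℂ)) ≠ ⊤ := bot_ne_top
  choose U s N hU hxU hN hsl using fun x : Ω => GS5_local hc (h x.1 x.2) b₀
  obtain ⟨T, hT, hTU⟩ := TopologicalSpace.isOpen_iUnion_countable U hU
  have : Countable T := hT.to_subtype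
  obtain ⟨e, he⟩ := exists_surjective_nat (Option (Σ x : T, Fin (s x.1)))
  let N' : Option (Σ x : T, Fin (s x.1)) → Submodule ℂ (V →L[ℂ] ℂ) := fun o =>
    match o with
    | none => ⊥
    | some p => N p.1.1 p.2
  refine ⟨fun i => N' (e i), ?_, ?_⟩
  · intro i
    change N' (e i) ≠ ⊤
    rcases e i with _ | p
    · exact hbt
    · exact hN _ _
  · intro l hl x hx
    have hx' : x ∈ ⋃ i, U i := Set.mem_iUnion.2 ⟨⟨x, hx⟩, hxU ⟨x, hx⟩⟩
    rw [← hTU] at hx'
    obtain ⟨t, ht, hxt⟩ := Set.mem_iUnion₂.1 hx'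
    refine hsl t l (fun i => ?_) x hxt
    obtain ⟨k, hk⟩ := he (some ⟨⟨t, ht⟩, i⟩)
    have h3 : l ∉ N' (e k) := hl k
    rw [hk] at h3
    exact h3

/-- **Iteration.**

Proof. Induction on `m` (generalising `Z`, `c`). `m = 0`: `b' = b` (empty), the set is `Z ∩ univ`. Step: choose by `slice_generic` and `exists_avoid` a form `l` with `‖l - b 0‖ < δ` and `GCodim (Z ∩ {l = l b₀}) (c+1)` on `Ω`; apply the induction hypothesis to
`Z ∩ {l = l b₀}`, `c + 1`, and the forms `b ∘ Fin.succ`; `b' = Fin.cons l b''`; `Fin.forall_fin_succ`. -/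
theorem generic_forms {Ω Z : Set V} (hΩ : IsOpen Ω) {c m : ℕ} (hcm : c + m ≤ finrank ℂ V)
    (h : ∀ x ∈ Ω, GCodim Z c x) (b₀ : V) (b : Fin m → V →L[ℂ] ℂ) {δ : ℝ} (hδ : 0 < δ) :
    ∃ b' : Fin m → V →L[ℂ] ℂ, (∀ i, ‖b' i - b i‖ < δ) ∧
      ∀ x ∈ Ω, GCodim (Z ∩ {y | ∀ i, b' i y = b' i b₀}) (c + m) x := by
  induction m generalizing Z c with
  | zero =>
    refine ⟨b, fun i => i.elim0, fun x hx => ?_⟩
    have : Z ∩ {y | ∀ i, b i y = b i b₀} = Z := by
      ext y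
      exact ⟨fun hy => hy.1, fun hy => ⟨hy, fun i => i.elim0⟩⟩
    rw [this]
    exact h x hx
  | succ m ih =>
    obtain ⟨N, hN, hsl⟩ := slice_generic hΩ (by omega : c + 1 ≤ finrank ℂ V) h b₀
    obtain ⟨l, hlδ, hl⟩ := exists_avoid N hN (b 0) hδ
    obtain ⟨b'', hb'', hc''⟩ := ih (Z := Z ∩ {y | l y = l b₀}) (c := c + 1) (by omega)
      (hsl l hl) (fun i => b i.succ)
    refine ⟨Fin.cons l b'', ?_, fun x hx => ?_⟩
    · intro i
      refine Fin.cases ?_ (fun j => ?_) i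
      · exact hlδ
      · exact hb'' j
    · have hset : Z ∩ {y | ∀ i, (Fin.cons l b'' : Fin (m + 1) → V →L[ℂ] ℂ) i y =
          (Fin.cons l b'' : Fin (m + 1) → V →L[ℂ] ℂ) i b₀} =
          Z ∩ {y | l y = l b₀} ∩ {y | ∀ i, b'' i y = b'' i b₀} := by
        ext y
        constructor
        · rintro ⟨hy, hy'⟩
          exact ⟨⟨hy, hy' 0⟩, fun i => hy' i.succ⟩
        · rintro ⟨⟨hy, hy0⟩, hy'⟩
          exact ⟨hy, fun i => Fin.cases hy0 hy' i⟩
      rw [hset, show c + (m + 1) = c + 1 + m by omega]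
      exact hc'' x hx

end Pool.Agent.DQ
end

section

/-! # DQ, module G, task GZ7: good coordinates (assembly) -/

set_option autoImplicit false

open Set Filter Topology Module

universe w

namespace Pool.Agent.DQ

variable {V : Type} [NormedAddCommGroup V] [NormedSpace ℂ V] [FiniteDimensional ℂ V]

private noncomputable def GZ7_f {k : ℕ} {W : Type} [NormedAddCommGroup W] [NormedSpace ℂ W]
    (e : V ≃L[ℂ] Bs k × W) (i : Fin k) : V →L[ℂ] ℂ :=
  (ContinuousLinearMap.proj i).comp ((ContinuousLinearMap.fst ℂ (Fin k → ℂ) (ℂ × ℂ)).comp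
    ((ContinuousLinearMap.fst ℂ (Bs k) W).comp (e : V →L[ℂ] Bs k × W)))

omit [FiniteDimensional ℂ V] in
private theorem GZ7_f_apply {k : ℕ} {W : Type} [NormedAddCommGroup W] [NormedSpace ℂ W]
    (e : V ≃L[ℂ] Bs k × W) (i : Fin k) (x : V) : GZ7_f e i x = (e x).1.1 i := rfl

/-- **First stage**: coordinates for which the support of `M₀` meets the plane `b = b₀` in a countable set, near the given ones.

Proof. `exists_coordB` gives `κ`; `perturb e₀ κ` gives `δ₂`; `generic_forms` with `Ω = U \ Y`, `Z = Supp M₀`, `c = d`, `m = k + 2` (`gCodim_supp`; `finrank ℂ V = k + 2 + d` by `e₀`), base point `y₀`, forms `frm e₀ κ`, tolerance `min δ δ₂`. `(e x).1 = (e y₀).1 ↔ ∀ i, b' i x = b' i y₀`.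
`countable_of_gCodim`. The last statement: `(e x).1.1 i - (e₀ x).1.1 i = b' (Fin.castAdd 2 i) x - frm e₀ κ (Fin.castAdd 2 i) x`. -/
theorem stage_first {k d : ℕ} (M₀ : EMod.{0, 0, w} (O V)) {Y U : Set V} (y₀ : V) (hYU : IsOpen (U \ Y)) (hM : M₀.Coh (U \ Y))
    (hext : ∀ x ∈ U \ Y, ∀ j < d, ExtZero ((O V).St x) (M₀.St x) j) (e₀ : V ≃L[ℂ] Bs k × (Fin d → ℂ)) {δ : ℝ} (hδ : 0 < δ) :
    ∃ e : V ≃L[ℂ] Bs k × (Fin d → ℂ), (Supp M₀ ∩ {x | (e x).1 = (e y₀).1} ∩ (U \ Y)).Countable ∧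
      ∀ i (x : V), ‖(e x).1.1 i - (e₀ x).1.1 i‖ ≤ δ * ‖x‖ := by
  obtain ⟨κ, hκ⟩ := exists_coordB k
  obtain ⟨δ₂, hδ₂, hpert⟩ := perturb e₀ κ
  have hfr : finrank ℂ V = d + (k + 2) := by
    rw [e₀.toLinearEquiv.finrank_eq, Module.finrank_prod, finrank_Bs, Module.finrank_fin_fun]
    ring
  obtain ⟨b', hb', hcod⟩ := generic_forms hYU (c := d) (m := k + 2) hfr.ge
    (fun x hx => gCodim_supp M₀ (hM x hx).self_of_nhds (hext x hx)) y₀ (frm e₀ κ)
    (lt_min hδ hδ₂)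
  obtain ⟨e, he1, he2⟩ := hpert b' (fun i => (hb' i).trans_le (min_le_right _ _))
  refine ⟨e, ?_, ?_⟩
  · have h1 := countable_of_gCodim (Ω := U \ Y) (Z := Supp M₀ ∩ {y | ∀ i, b' i y = b' i y₀})
      (by rw [hfr]; exact hcod)
    refine h1.mono ?_
    rintro x ⟨⟨h2, h3⟩, h4⟩
    refine ⟨⟨h2, fun i => ?_⟩, h4⟩
    have h5 : (e x).1 = (e y₀).1 := h3
    rw [← he1, ← he1, h5]
  · intro i x
    have h1 : (e x).1.1 i - (e₀ x).1.1 i =
        (b' (Fin.castAdd 2 i) - frm e₀ κ (Fin.castAdd 2 i)) x := by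
      rw [sub_apply, frm_apply, ← he1, hκ, hκ]
    rw [h1]
    refine (ContinuousLinearMap.le_opNorm _ _).trans ?_
    exact mul_le_mul_of_nonneg_right ((hb' _).trans_le (min_le_left _ _)).le (norm_nonneg _)

/-- **Second stage**: change of the coordinates `t` on the base such that the singular locus meets the plane `t = t₀` in a countable set.

Proof. `perturb` for `e₀ = refl : Bs k ≃L[ℂ] (Fin k → ℂ) × (ℂ × ℂ)`, `κ = refl`, gives `δ₂`; `generic_forms` on `Bs k` (`finrank_Bs`), `c = 2`, `m = k`, forms `frm refl refl`, tolerance `min δ δ₂`, base point `b₀`, gives `t'` and `A` with `(A b).1 i = t' i b`, `(A b).2 = b.2`. `countable_of_gCodim`. -/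
theorem stage_second {k : ℕ} {Z Ω : Set (Bs k)} (hΩ : IsOpen Ω) (h : ∀ b ∈ Ω, GCodim Z 2 b) (b₀ : Bs k) {δ : ℝ} (hδ : 0 < δ) :
    ∃ A : Bs k ≃L[ℂ] Bs k, (Z ∩ {b | (A b).1 = (A b₀).1} ∩ Ω).Countable ∧ ∀ i (b : Bs k), ‖(A b).1 i - b.1 i‖ ≤ δ * ‖b‖ := by
  obtain ⟨δ₂, hδ₂, hpert⟩ := perturb (B := Fin k → ℂ) (W := ℂ × ℂ)
    (ContinuousLinearEquiv.refl ℂ (Bs k)) (ContinuousLinearEquiv.refl ℂ (Fin k → ℂ))
  obtain ⟨t', ht', hcod⟩ := generic_forms hΩ (c := 2) (m := k)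
    (by rw [finrank_Bs]; omega) h b₀
    (frm (B := Fin k → ℂ) (W := ℂ × ℂ) (ContinuousLinearEquiv.refl ℂ (Bs k))
      (ContinuousLinearEquiv.refl ℂ (Fin k → ℂ))) (lt_min hδ hδ₂)
  obtain ⟨A, hA1, hA2⟩ := hpert t' (fun i => (ht' i).trans_le (min_le_right _ _))
  have hA1' : ∀ (x : Bs k) i, (A x).1 i = t' i x := fun x i => hA1 x i
  refine ⟨A, ?_, ?_⟩
  · have h1 := countable_of_gCodim (Ω := Ω) (Z := Z ∩ {y | ∀ i, t' i y = t' i b₀})
      (by rw [finrank_Bs, add_comm k 2]; exact hcod)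
    refine h1.mono ?_
    rintro x ⟨⟨h2, h3⟩, h4⟩
    refine ⟨⟨h2, fun i => ?_⟩, h4⟩
    have h5 : (A x).1 = (A b₀).1 := h3
    rw [← hA1', ← hA1', h5]
  · intro i b
    have h1 : (A b).1 i - b.1 i = (t' i - frm (B := Fin k → ℂ) (W := ℂ × ℂ)
        (ContinuousLinearEquiv.refl ℂ (Bs k)) (ContinuousLinearEquiv.refl ℂ (Fin k → ℂ)) i) b := by
      rw [sub_apply, frm_apply, ← hA1']
      rfl
    rw [h1]
    refine (ContinuousLinearMap.le_opNorm _ _).trans ?_
    exact mul_le_mul_of_nonneg_right ((ht' _).trans_le (min_le_left _ _)).le (norm_nonneg _)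

theorem good_coordinates_proof (d : ℕ) (M₀ : EMod.{0, 0, w} (O V)) (Y : Set V) (y₀ : V) (U : Set V)
    (hU : IsOpen U) (hy₀ : y₀ ∈ U) (hYU : IsOpen (U \ Y)) (hYan : AnalyticNear Y U)
    (L : Submodule ℂ V) (hL : Module.finrank ℂ L = d + 3)
    (hiso : ∀ᶠ x in 𝓝 y₀, x ∈ Y → x - y₀ ∈ L → x = y₀)
    (hM : M₀.Coh (U \ Y))
    (hext : ∀ x ∈ U \ Y, ∀ j < d, ExtZero ((O V).St x) (M₀.St x) j)
    (hpure : ∀ x ∈ U \ Y, NoGrade ((O V).St x) (M₀.St x) (d + 1)) :
    ∃ (k : ℕ) (e : V ≃L[ℂ] Bs k × (Fin d → ℂ)) (τ rw Rw rz Rz Rv : ℝ) (rk : ℕ) (dir : Fin k → ℂ),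
      GoodCoord d M₀ Y y₀ U k e τ rw Rw rz Rz Rv rk dir := by
  obtain ⟨k', e₀, he₀⟩ := adapted d L hL
  obtain ⟨δ, hδ, hδiso⟩ := isolated_near hU hYU hYan hy₀
    (fun i : Fin k' => GZ7_f e₀ i.castSucc) (by
      refine hiso.mono fun x hx hY h => hx hY ((he₀ _).2 fun i => ?_)
      have h1 := h i
      rw [GZ7_f_apply, GZ7_f_apply] at h1
      rw [map_sub]
      show (e₀ x).1.1 i.castSucc - (e₀ y₀).1.1 i.castSucc = 0
      rw [h1, sub_self])
  obtain ⟨e₁, hc1, hd1⟩ := stage_first M₀ y₀ hYU hM hext e₀ (δ := δ / 3) (by linarith)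
  have hiso1 : ∀ᶠ x in 𝓝 y₀, x ∈ Y → (e₁ x).1 = (e₁ y₀).1 → x = y₀ := by
    refine (hδiso (fun i : Fin k' => GZ7_f e₁ i.castSucc) fun i => ?_).mono
      fun x hx hY h => hx hY fun i => ?_
    · refine lt_of_le_of_lt (ContinuousLinearMap.opNorm_le_bound _ (by linarith : 0 ≤ δ / 3)
        fun x => ?_) (by linarith)
      exact hd1 i.castSucc x
    · rw [GZ7_f_apply, GZ7_f_apply, h]
  obtain ⟨Rv, hRv, ρ₀, hρ₀, hsub, hbd, hone⟩ := stage_one hU hy₀ hYU hM e₁ hc1 hiso1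
  have hΩ := proj_closed hYU e₁ hsub
  have hfacts := fun (b : Bs (k' + 1)) (hb : b ∈ {b | ‖b - (e₁ y₀).1‖ < ρ₀ ∧
      ∀ x, (e₁ x).1 = b → ‖(e₁ x).2 - (e₁ y₀).2‖ ≤ Rv → x ∉ Y}) =>
    push_facts d hM hpure e₁ hRv hsub hbd b hb.1 hb.2
  set N : ℝ := ‖(e₁ : V →L[ℂ] Bs (k' + 1) × (Fin d → ℂ))‖ with hN
  have hN0 : 0 ≤ N := norm_nonneg _
  obtain ⟨A, hA1, hA2⟩ := stage_second hΩ (fun b hb => (hfacts b hb).2) (e₁ y₀).1
    (δ := δ / (3 * (N + 1))) (by positivity)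
  set e := chg e₁ A with he
  have he1 : ∀ x, (e x).1 = A (e₁ x).1 := fun x => by rw [he, chg_apply]
  have he2 : ∀ x, (e x).2 = (e₁ x).2 := fun x => by rw [he, chg_apply]
  obtain ⟨ρ', hρ', hρ'c⟩ := Metric.continuousAt_iff.1
    (A.symm.continuous.continuousAt (x := A (e₁ y₀).1)) ρ₀ hρ₀
  have hnear : ∀ b : Bs (k' + 1), ‖b - (e y₀).1‖ < ρ' → ‖A.symm b - (e₁ y₀).1‖ < ρ₀ := by
    intro b hb
    rw [he1] at hb
    have h1 := hρ'c (x := b) (by rw [dist_eq_norm]; exact hb)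
    rwa [A.symm_apply_apply, dist_eq_norm] at h1
  have hnear' : ∀ x, ‖(e x).1 - (e y₀).1‖ < ρ' → ‖(e₁ x).1 - (e₁ y₀).1‖ < ρ₀ := by
    intro x hx
    have h1 := hnear _ hx
    rwa [he1 x, A.symm_apply_apply] at h1
  have hinj : ∀ x, (e x).1 = (e y₀).1 → (e₁ x).1 = (e₁ y₀).1 := by
    intro x hx
    rw [he1, he1] at hx
    exact A.injective hx
  obtain ⟨τ, rw, Rw, rz, Rz, rk, dir, hgood⟩ := final_radii d k' (M₀ := M₀) (y₀ := y₀) hYU e hRv hρ'
    (fun x h1 h2 => hsub x (hnear' x h1) (by rw [he2, he2] at h2; exact h2))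
    (fun x h1 h2 => hbd x (hnear' x h1) (by rw [he2, he2] at h2; exact h2))
    (fun x hY h1 h2 => hone x hY (hinj x h1) (by rw [he2, he2] at h2; exact h2))
    (by
      refine (hδiso (fun i : Fin k' => GZ7_f e i.castSucc) fun i => ?_).mono
        fun x hx hY h => hx hY h
      refine lt_of_le_of_lt (ContinuousLinearMap.opNorm_le_bound _
        (by linarith : 0 ≤ 2 / 3 * δ) fun x => ?_) (by linarith)
      have h1 : ‖(e₁ x).1‖ ≤ N * ‖x‖ :=
        (norm_fst_le (e₁ x)).trans (ContinuousLinearMap.le_opNorm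
          (e₁ : V →L[ℂ] Bs (k' + 1) × (Fin d → ℂ)) x)
      have h2 := hA2 i.castSucc (e₁ x).1
      have h3 := hd1 i.castSucc x
      have h4 : (GZ7_f e i.castSucc - GZ7_f e₀ i.castSucc) x =
          ((A (e₁ x).1).1 i.castSucc - (e₁ x).1.1 i.castSucc) +
            ((e₁ x).1.1 i.castSucc - (e₀ x).1.1 i.castSucc) := by
        rw [sub_apply, GZ7_f_apply, GZ7_f_apply, he1]
        ring
      rw [h4]
      refine (norm_add_le _ _).trans ?_
      have h5 : δ / (3 * (N + 1)) * ‖(e₁ x).1‖ ≤ δ / 3 * ‖x‖ := by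
        have h6 : δ / (3 * (N + 1)) * ‖(e₁ x).1‖ ≤ δ / (3 * (N + 1)) * (N * ‖x‖) :=
          mul_le_mul_of_nonneg_left h1 (by positivity)
        have h7 : δ / (3 * (N + 1)) * (N * ‖x‖) = δ / 3 * ‖x‖ * (N / (N + 1)) := by
          field_simp
        have h8 : N / (N + 1) ≤ 1 := (div_le_one (by linarith)).2 (by linarith)
        have h9 : 0 ≤ δ / 3 * ‖x‖ := by positivity
        nlinarith
      linarith)
    (by
      rw [he2 y₀]
      refine (hA1.image A).mono ?_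
      rintro b ⟨h1, h2, h3, h4⟩
      have hΩb : A.symm b ∈ {b | ‖b - (e₁ y₀).1‖ < ρ₀ ∧
          ∀ x, (e₁ x).1 = b → ‖(e₁ x).2 - (e₁ y₀).2‖ ≤ Rv → x ∉ Y} := by
        refine ⟨hnear b h1, fun x hx h5 => h3 x ?_ ?_⟩
        · rw [he1, hx, A.apply_symm_apply]
        · rw [he2]
          exact h5
      refine ⟨A.symm b, ⟨⟨?_, ?_⟩, hΩb⟩, A.apply_symm_apply b⟩
      · rintro ⟨r, hr⟩
        apply h4
        refine ⟨r, ?_⟩
        have h6 := freeAt_chg M₀ e₁ A _ _ (hfacts (A.symm b) hΩb).1.1 hr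
        rwa [A.apply_symm_apply] at h6
      · show (A (A.symm b)).1 = (A (e₁ y₀).1).1
        rw [A.apply_symm_apply, h2, he1])
  exact ⟨k' + 1, e, τ, rw, Rw, rz, Rz, Rv, rk, dir, hgood⟩

end Pool.Agent.DQ
end

section

/-! # DQ: the theorems of module G -/

set_option autoImplicit false

open Set Filter Topology Matrix

universe u v w

namespace Pool.Agent.DQ

variable {V : Type u} [NormedAddCommGroup V] [NormedSpace ℂ V] [FiniteDimensional ℂ V]

/-- compact analytic subsets of `ℂ^k` are finite -/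
theorem compact_analytic_finite (X : Set V) (hX : IsCompact X) (h : AnalyticNear X univ) :
    X.Finite := compact_analytic_finite_proof X hX h

variable {V : Type} [NormedAddCommGroup V] [NormedSpace ℂ V] [FiniteDimensional ℂ V]

theorem good_coordinates (d : ℕ) (M₀ : EMod.{0, 0, w} (O V)) (Y : Set V) (y₀ : V) (U : Set V)
    (hU : IsOpen U) (hy₀ : y₀ ∈ U) (hYU : IsOpen (U \ Y)) (hYan : AnalyticNear Y U)
    (L : Submodule ℂ V) (hL : Module.finrank ℂ L = d + 3)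
    (hiso : ∀ᶠ x in 𝓝 y₀, x ∈ Y → x - y₀ ∈ L → x = y₀)
    (hM : M₀.Coh (U \ Y))
    (hext : ∀ x ∈ U \ Y, ∀ j < d, ExtZero ((O V).St x) (M₀.St x) j)
    (hpure : ∀ x ∈ U \ Y, NoGrade ((O V).St x) (M₀.St x) (d + 1)) :
    ∃ (k : ℕ) (e : V ≃L[ℂ] Bs k × (Fin d → ℂ)) (τ rw Rw rz Rz Rv : ℝ) (rk : ℕ) (dir : Fin k → ℂ),
      GoodCoord d M₀ Y y₀ U k e τ rw Rw rz Rz Rv rk dir :=
  good_coordinates_proof d M₀ Y y₀ U hU hy₀ hYU hYan L hL hiso hM hext hpure

end Pool.Agent.DQ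
end
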